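import Pool.Agent.AKXS_36_42_VA.S0
import Pool.Agent.AKXS_36_42_VA.S1
import Pool.Agent.AKXS_36_42_VA.S2
import Pool.Agent.AKXS_36_42_VA.S3
import Pool.Agent.AKXS_36_42_VA.S4
import Pool.Agent.AKX.Split

set_option autoImplicit false

namespace Pool.Agent.AKXS_36_42_VA

open Pool.Agent.AKX Pool.Agent.AKU

theorem g0 : D.GOk x0 := by
  obtain ⟨a, n, z, m, r, s, q0, q1, q2, q3, q4, q5, f0, f1, f2, f3, v⟩ := s0
  refine ⟨a, n, fun k hk => ?_, z, m, r, invS_of s, fun p hp => ?_, fun p hp => allN_iff.1 v p hp⟩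
  · have hk2 : k < 6 := hk
    interval_cases k
    · exact q0
    · exact q1
    · exact q2
    · exact q3
    · exact q4
    · exact q5
  · have hp2 : p < 58 := hp
    by_cases h0 : p < 15
    · exact allM_iff.1 f0 p (mem_rg.2 (show 0 ≤ p ∧ p < 0 + 15 from by omega))
    by_cases h1 : p < 30
    · exact allM_iff.1 f1 p (mem_rg.2 (show 15 ≤ p ∧ p < 15 + 15 from by omega))
    by_cases h2 : p < 45
    · exact allM_iff.1 f2 p (mem_rg.2 (show 30 ≤ p ∧ p < 30 + 15 from by omega))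
    exact allM_iff.1 f3 p (mem_rg.2 (show 45 ≤ p ∧ p < 45 + 13 from by omega))

theorem g1 : D.GOk x1 := by
  obtain ⟨a, n, z, m, r, s, q0, q1, q2, q3, q4, q5, f0, f1, f2, f3, v⟩ := s1
  refine ⟨a, n, fun k hk => ?_, z, m, r, invS_of s, fun p hp => ?_, fun p hp => allN_iff.1 v p hp⟩
  · have hk2 : k < 6 := hk
    interval_cases k
    · exact q0
    · exact q1
    · exact q2
    · exact q3
    · exact q4
    · exact q5
  · have hp2 : p < 58 := hp
    by_cases h0 : p < 15
    · exact allM_iff.1 f0 p (mem_rg.2 (show 0 ≤ p ∧ p < 0 + 15 from by omega))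
    by_cases h1 : p < 30
    · exact allM_iff.1 f1 p (mem_rg.2 (show 15 ≤ p ∧ p < 15 + 15 from by omega))
    by_cases h2 : p < 45
    · exact allM_iff.1 f2 p (mem_rg.2 (show 30 ≤ p ∧ p < 30 + 15 from by omega))
    exact allM_iff.1 f3 p (mem_rg.2 (show 45 ≤ p ∧ p < 45 + 13 from by omega))

theorem g2 : D.GOk x2 := by
  obtain ⟨a, n, z, m, r, s, q0, q1, q2, q3, q4, q5, f0, f1, f2, f3, v⟩ := s2
  refine ⟨a, n, fun k hk => ?_, z, m, r, invS_of s, fun p hp => ?_, fun p hp => allN_iff.1 v p hp⟩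
  · have hk2 : k < 6 := hk
    interval_cases k
    · exact q0
    · exact q1
    · exact q2
    · exact q3
    · exact q4
    · exact q5
  · have hp2 : p < 58 := hp
    by_cases h0 : p < 15
    · exact allM_iff.1 f0 p (mem_rg.2 (show 0 ≤ p ∧ p < 0 + 15 from by omega))
    by_cases h1 : p < 30
    · exact allM_iff.1 f1 p (mem_rg.2 (show 15 ≤ p ∧ p < 15 + 15 from by omega))
    by_cases h2 : p < 45
    · exact allM_iff.1 f2 p (mem_rg.2 (show 30 ≤ p ∧ p < 30 + 15 from by omega))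
    exact allM_iff.1 f3 p (mem_rg.2 (show 45 ≤ p ∧ p < 45 + 13 from by omega))

theorem g3 : D.GOk x3 := by
  obtain ⟨a, n, z, m, r, s, q0, q1, q2, q3, q4, q5, f0, f1, f2, f3, v⟩ := s3
  refine ⟨a, n, fun k hk => ?_, z, m, r, invS_of s, fun p hp => ?_, fun p hp => allN_iff.1 v p hp⟩
  · have hk2 : k < 6 := hk
    interval_cases k
    · exact q0
    · exact q1
    · exact q2
    · exact q3
    · exact q4
    · exact q5
  · have hp2 : p < 58 := hp
    by_cases h0 : p < 15
    · exact allM_iff.1 f0 p (mem_rg.2 (show 0 ≤ p ∧ p < 0 + 15 from by omega))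
    by_cases h1 : p < 30
    · exact allM_iff.1 f1 p (mem_rg.2 (show 15 ≤ p ∧ p < 15 + 15 from by omega))
    by_cases h2 : p < 45
    · exact allM_iff.1 f2 p (mem_rg.2 (show 30 ≤ p ∧ p < 30 + 15 from by omega))
    exact allM_iff.1 f3 p (mem_rg.2 (show 45 ≤ p ∧ p < 45 + 13 from by omega))

theorem g4 : D.GOk x4 := by
  obtain ⟨a, n, z, m, r, s, q0, q1, q2, q3, q4, q5, f0, f1, f2, f3, v⟩ := s4
  refine ⟨a, n, fun k hk => ?_, z, m, r, invS_of s, fun p hp => ?_, fun p hp => allN_iff.1 v p hp⟩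
  · have hk2 : k < 6 := hk
    interval_cases k
    · exact q0
    · exact q1
    · exact q2
    · exact q3
    · exact q4
    · exact q5
  · have hp2 : p < 58 := hp
    by_cases h0 : p < 15
    · exact allM_iff.1 f0 p (mem_rg.2 (show 0 ≤ p ∧ p < 0 + 15 from by omega))
    by_cases h1 : p < 30
    · exact allM_iff.1 f1 p (mem_rg.2 (show 15 ≤ p ∧ p < 15 + 15 from by omega))
    by_cases h2 : p < 45
    · exact allM_iff.1 f2 p (mem_rg.2 (show 30 ≤ p ∧ p < 30 + 15 from by omega))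
    exact allM_iff.1 f3 p (mem_rg.2 (show 45 ≤ p ∧ p < 45 + 13 from by omega))

theorem gok (x : Gd) (hx : x ∈ xs) : D.GOk x := by
  unfold xs at hx
  simp only [List.mem_cons, List.not_mem_nil, or_false] at hx
  rcases hx with rfl | rfl | rfl | rfl | rfl
  · exact g0
  · exact g1
  · exact g2
  · exact g3
  · exact g4

end Pool.Agent.AKXS_36_42_VA
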