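import Pool.Agent.AKXS_36_42_VA.Lib
import Pool.Agent.AKX.Split

set_option autoImplicit false

namespace Pool.Agent.AKXS_36_42_VA

open Pool.Agent.AKX Pool.Agent.AKU

theorem q12 :
    (chkQ D.T G offw offa offb wn (nat_lit 15) (rg (nat_lit 45) (nat_lit 13)) = true) ∧
    (chkQ D.T G offw offa offb wn (nat_lit 16) (rg (nat_lit 16) (nat_lit 42)) = true) ∧
    (chkQ D.T G offw offa offb wn (nat_lit 17) (rg (nat_lit 17) (nat_lit 4)) = true) ∧
    (chkQ D.T G offw offa offb wn (nat_lit 17) (rg (nat_lit 21) (nat_lit 37)) = true) ∧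
    (chkQ D.T G offw offa offb wn (nat_lit 18) (rg (nat_lit 18) (nat_lit 40)) = true) ∧
    (chkQ D.T G offw offa offb wn (nat_lit 19) (rg (nat_lit 19) (nat_lit 39)) = true) ∧
    (chkQ D.T G offw offa offb wn (nat_lit 20) (rg (nat_lit 20) (nat_lit 25)) = true) :=
  ⟨by decide +kernel,
   by decide +kernel,
   by decide +kernel,
   by decide +kernel,
   by decide +kernel,
   by decide +kernel,
   by decide +kernel⟩

end Pool.Agent.AKXS_36_42_VA
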