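import Pool.Agent.AKXS_36_42_VA.Lib
import Pool.Agent.AKX.Split

set_option autoImplicit false

namespace Pool.Agent.AKXS_36_42_VA

open Pool.Agent.AKX Pool.Agent.AKU

theorem q13 :
    (chkQ D.T G offw offa offb wn (nat_lit 20) (rg (nat_lit 45) (nat_lit 13)) = true) ∧
    (chkQ D.T G offw offa offb wn (nat_lit 21) (rg (nat_lit 21) (nat_lit 37)) = true) ∧
    (chkQ D.T G offw offa offb wn (nat_lit 22) (rg (nat_lit 22) (nat_lit 36)) = true) ∧
    (chkQ D.T G offw offa offb wn (nat_lit 23) (rg (nat_lit 23) (nat_lit 35)) = true) ∧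
    (chkQ D.T G offw offa offb wn (nat_lit 24) (rg (nat_lit 24) (nat_lit 34)) = true) ∧
    (chkQ D.T G offw offa offb wn (nat_lit 25) (rg (nat_lit 25) (nat_lit 33)) = true) ∧
    (chkQ D.T G offw offa offb wn (nat_lit 26) (rg (nat_lit 26) (nat_lit 32)) = true) ∧
    (chkQ D.T G offw offa offb wn (nat_lit 27) (rg (nat_lit 27) (nat_lit 31)) = true) ∧
    (chkQ D.T G offw offa offb wn (nat_lit 28) (rg (nat_lit 28) (nat_lit 30)) = true) ∧
    (chkQ D.T G offw offa offb wn (nat_lit 29) (rg (nat_lit 29) (nat_lit 29)) = true) ∧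
    (chkQ D.T G offw offa offb wn (nat_lit 30) (rg (nat_lit 30) (nat_lit 28)) = true) ∧
    (chkQ D.T G offw offa offb wn (nat_lit 31) (rg (nat_lit 31) (nat_lit 27)) = true) ∧
    (chkQ D.T G offw offa offb wn (nat_lit 32) (rg (nat_lit 32) (nat_lit 26)) = true) ∧
    (chkQ D.T G offw offa offb wn (nat_lit 33) (rg (nat_lit 33) (nat_lit 25)) = true) ∧
    (chkQ D.T G offw offa offb wn (nat_lit 34) (rg (nat_lit 34) (nat_lit 24)) = true) ∧
    (chkQ D.T G offw offa offb wn (nat_lit 35) (rg (nat_lit 35) (nat_lit 23)) = true) ∧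
    (chkQ D.T G offw offa offb wn (nat_lit 36) (rg (nat_lit 36) (nat_lit 22)) = true) ∧
    (chkQ D.T G offw offa offb wn (nat_lit 37) (rg (nat_lit 37) (nat_lit 21)) = true) ∧
    (chkQ D.T G offw offa offb wn (nat_lit 38) (rg (nat_lit 38) (nat_lit 20)) = true) ∧
    (chkQ D.T G offw offa offb wn (nat_lit 39) (rg (nat_lit 39) (nat_lit 19)) = true) ∧
    (chkQ D.T G offw offa offb wn (nat_lit 40) (rg (nat_lit 40) (nat_lit 18)) = true) ∧
    (chkQ D.T G offw offa offb wn (nat_lit 41) (rg (nat_lit 41) (nat_lit 17)) = true) ∧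
    (chkQ D.T G offw offa offb wn (nat_lit 42) (rg (nat_lit 42) (nat_lit 16)) = true) ∧
    (chkQ D.T G offw offa offb wn (nat_lit 43) (rg (nat_lit 43) (nat_lit 15)) = true) ∧
    (chkQ D.T G offw offa offb wn (nat_lit 44) (rg (nat_lit 44) (nat_lit 14)) = true) ∧
    (chkQ D.T G offw offa offb wn (nat_lit 45) (rg (nat_lit 45) (nat_lit 13)) = true) ∧
    (chkQ D.T G offw offa offb wn (nat_lit 46) (rg (nat_lit 46) (nat_lit 12)) = true) ∧
    (chkQ D.T G offw offa offb wn (nat_lit 47) (rg (nat_lit 47) (nat_lit 11)) = true) ∧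
    (chkQ D.T G offw offa offb wn (nat_lit 48) (rg (nat_lit 48) (nat_lit 10)) = true) ∧
    (chkQ D.T G offw offa offb wn (nat_lit 49) (rg (nat_lit 49) (nat_lit 9)) = true) ∧
    (chkQ D.T G offw offa offb wn (nat_lit 50) (rg (nat_lit 50) (nat_lit 8)) = true) ∧
    (chkQ D.T G offw offa offb wn (nat_lit 51) (rg (nat_lit 51) (nat_lit 7)) = true) ∧
    (chkQ D.T G offw offa offb wn (nat_lit 52) (rg (nat_lit 52) (nat_lit 6)) = true) ∧
    (chkQ D.T G offw offa offb wn (nat_lit 53) (rg (nat_lit 53) (nat_lit 5)) = true) ∧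
    (chkQ D.T G offw offa offb wn (nat_lit 54) (rg (nat_lit 54) (nat_lit 4)) = true) ∧
    (chkQ D.T G offw offa offb wn (nat_lit 55) (rg (nat_lit 55) (nat_lit 3)) = true) ∧
    (chkQ D.T G offw offa offb wn (nat_lit 56) (rg (nat_lit 56) (nat_lit 2)) = true) ∧
    (chkQ D.T G offw offa offb wn (nat_lit 57) (rg (nat_lit 57) (nat_lit 1)) = true) :=
  ⟨by decide +kernel,
   by decide +kernel,
   by decide +kernel,
   by decide +kernel,
   by decide +kernel,
   by decide +kernel,
   by decide +kernel,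
   by decide +kernel,
   by decide +kernel,
   by decide +kernel,
   by decide +kernel,
   by decide +kernel,
   by decide +kernel,
   by decide +kernel,
   by decide +kernel,
   by decide +kernel,
   by decide +kernel,
   by decide +kernel,
   by decide +kernel,
   by decide +kernel,
   by decide +kernel,
   by decide +kernel,
   by decide +kernel,
   by decide +kernel,
   by decide +kernel,
   by decide +kernel,
   by decide +kernel,
   by decide +kernel,
   by decide +kernel,
   by decide +kernel,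
   by decide +kernel,
   by decide +kernel,
   by decide +kernel,
   by decide +kernel,
   by decide +kernel,
   by decide +kernel,
   by decide +kernel,
   by decide +kernel⟩

end Pool.Agent.AKXS_36_42_VA
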