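import Pool.Agent.AKXS_36_42_VA.Lib
import Pool.Agent.AKX.Split

set_option autoImplicit false

namespace Pool.Agent.AKXS_36_42_VA

open Pool.Agent.AKX Pool.Agent.AKU

theorem q9 :
    (chkQ D.T G offw offa offb wn (nat_lit 5) (rg (nat_lit 10) (nat_lit 9)) = true) ∧
    (chkQ D.T G offw offa offb wn (nat_lit 5) (rg (nat_lit 19) (nat_lit 10)) = true) ∧
    (chkQ D.T G offw offa offb wn (nat_lit 5) (rg (nat_lit 29) (nat_lit 29)) = true) ∧
    (chkQ D.T G offw offa offb wn (nat_lit 6) (rg (nat_lit 6) (nat_lit 52)) = true) ∧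
    (chkQ D.T G offw offa offb wn (nat_lit 7) (rg (nat_lit 7) (nat_lit 51)) = true) ∧
    (chkQ D.T G offw offa offb wn (nat_lit 8) (rg (nat_lit 8) (nat_lit 50)) = true) ∧
    (chkQ D.T G offw offa offb wn (nat_lit 9) (rg (nat_lit 9) (nat_lit 49)) = true) ∧
    (chkQ D.T G offw offa offb wn (nat_lit 10) (rg (nat_lit 10) (nat_lit 3)) = true) :=
  ⟨by decide +kernel,
   by decide +kernel,
   by decide +kernel,
   by decide +kernel,
   by decide +kernel,
   by decide +kernel,
   by decide +kernel,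
   by decide +kernel⟩

end Pool.Agent.AKXS_36_42_VA
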