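import Pool.Agent.AKXS_36_42_VA.Dat
import Pool.Agent.AKX.Split

set_option autoImplicit false

namespace Pool.Agent.AKXS_36_42_VA

open Pool.Agent.AKX Pool.Agent.AKU

theorem rc0 :
    (chkRec D.T D.tc offa offb (nat_lit 0) = true) ∧
    (chkRec D.T D.tc offa offb (nat_lit 1) = true) ∧
    (chkRec D.T D.tc offa offb (nat_lit 2) = true) ∧
    (chkRec D.T D.tc offa offb (nat_lit 3) = true) :=
  ⟨by decide +kernel,
   by decide +kernel,
   by decide +kernel,
   by decide +kernel⟩

end Pool.Agent.AKXS_36_42_VA
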