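import Pool.Agent.AKXS_36_42_VA.Dat
import Pool.Agent.AKX.Split

set_option autoImplicit false

namespace Pool.Agent.AKXS_36_42_VA

open Pool.Agent.AKX Pool.Agent.AKU

theorem rc6 :
    (chkRec D.T D.tc offa offb (nat_lit 31) = true) ∧
    (chkRec D.T D.tc offa offb (nat_lit 32) = true) ∧
    (chkRec D.T D.tc offa offb (nat_lit 33) = true) ∧
    (chkRec D.T D.tc offa offb (nat_lit 34) = true) ∧
    (chkRec D.T D.tc offa offb (nat_lit 35) = true) ∧
    (chkRec D.T D.tc offa offb (nat_lit 36) = true) ∧
    (chkRec D.T D.tc offa offb (nat_lit 37) = true) ∧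
    (chkRec D.T D.tc offa offb (nat_lit 38) = true) :=
  ⟨by decide +kernel,
   by decide +kernel,
   by decide +kernel,
   by decide +kernel,
   by decide +kernel,
   by decide +kernel,
   by decide +kernel,
   by decide +kernel⟩

end Pool.Agent.AKXS_36_42_VA
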