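import Pool.Agent.AKXS_36_42_VA.R0
import Pool.Agent.AKXS_36_42_VA.R1
import Pool.Agent.AKXS_36_42_VA.R2
import Pool.Agent.AKXS_36_42_VA.R3
import Pool.Agent.AKXS_36_42_VA.R4
import Pool.Agent.AKXS_36_42_VA.R5
import Pool.Agent.AKXS_36_42_VA.R6
import Pool.Agent.AKXS_36_42_VA.R7
import Pool.Agent.AKXS_36_42_VA.R8
import Pool.Agent.AKXS_36_42_VA.R9
import Pool.Agent.AKXS_36_42_VA.R10
import Pool.Agent.AKXS_36_42_VA.R11
import Pool.Agent.AKXS_36_42_VA.R12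

set_option autoImplicit false

namespace Pool.Agent.AKXS_36_42_VA

open Pool.Agent.AKX Pool.Agent.AKU

noncomputable def e0_0 : List Rx := [
  Rx.mk (nat_lit 2) (nat_lit 2) (nat_lit 0) (nat_lit 0) (nat_lit 1) (nat_lit 11) (nat_lit 4) r0_11 r0_4 (nat_lit 0) (nat_lit 488) (nat_lit 386) (nat_lit 0x1fffea2a0) (nat_lit 268442230),
  Rx.mk (nat_lit 18) (nat_lit 2) (nat_lit 2) (nat_lit 0) (nat_lit 3) (nat_lit 13) (nat_lit 7) r0_13 r0_7 (nat_lit 0) (nat_lit 0) (nat_lit 719) (nat_lit 0x21a732c8c) (nat_lit 241379425),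
  Rx.mk (nat_lit 146) (nat_lit 2) (nat_lit 2) (nat_lit 2) (nat_lit 7) (nat_lit 14) (nat_lit 9) r0_14 r0_9 (nat_lit 0) (nat_lit 0) (nat_lit 0) (nat_lit 0x1f2e154d2) (nat_lit 282588656),
  Rx.mk (nat_lit 150) (nat_lit 6) (nat_lit 2) (nat_lit 2) (nat_lit 7) (nat_lit 3) (nat_lit 17) r0_3 r0_17 (nat_lit 0) (nat_lit 0) (nat_lit 0) (nat_lit 0x1f706ec5c) (nat_lit 278205956),
  Rx.mk (nat_lit 182) (nat_lit 6) (nat_lit 6) (nat_lit 2) (nat_lit 7) (nat_lit 2) (nat_lit 18) r0_2 r0_18 (nat_lit 0) (nat_lit 0) (nat_lit 0) (nat_lit 0x1f323f396) (nat_lit 282197306),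
  Rx.mk (nat_lit 194) (nat_lit 2) (nat_lit 0) (nat_lit 3) (nat_lit 5) (nat_lit 12) (nat_lit 5) r0_12 r0_5 (nat_lit 0) (nat_lit 652718) (nat_lit 0) (nat_lit 0x1cc51c770) (nat_lit 324049624),
  Rx.mk (nat_lit 210) (nat_lit 2) (nat_lit 2) (nat_lit 3) (nat_lit 7) (nat_lit 15) (nat_lit 8) r0_15 r0_8 (nat_lit 0) (nat_lit 0) (nat_lit 0) (nat_lit 0x200b040dc) (nat_lit 268060406),
  Rx.mk (nat_lit 216) (nat_lit 0) (nat_lit 3) (nat_lit 3) (nat_lit 6) (nat_lit 10) (nat_lit 0) r0_10 r0_0 (nat_lit 5471) (nat_lit 0) (nat_lit 0) (nat_lit 0x1bae1cfda) (nat_lit 341835427),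
  Rx.mk (nat_lit 218) (nat_lit 2) (nat_lit 3) (nat_lit 3) (nat_lit 7) (nat_lit 16) (nat_lit 6) r0_16 r0_6 (nat_lit 0) (nat_lit 0) (nat_lit 0) (nat_lit 0x1fffd8ce4) (nat_lit 268446456),
  Rx.mk (nat_lit 219) (nat_lit 3) (nat_lit 3) (nat_lit 3) (nat_lit 7) (nat_lit 19) (nat_lit 1) r0_19 r0_1 (nat_lit 0) (nat_lit 0) (nat_lit 0) (nat_lit 0x1e0c3e6d4) (nat_lit 301686606),
  Rx.mk (nat_lit 295) (nat_lit 7) (nat_lit 4) (nat_lit 4) (nat_lit 1) (nat_lit 4) (nat_lit 11) r0_4 r0_11 (nat_lit 0) (nat_lit 488) (nat_lit 386) (nat_lit 0x1fffea2a0) (nat_lit 268442230),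
  Rx.mk (nat_lit 319) (nat_lit 7) (nat_lit 7) (nat_lit 4) (nat_lit 3) (nat_lit 7) (nat_lit 13) r0_7 r0_13 (nat_lit 0) (nat_lit 0) (nat_lit 719) (nat_lit 0x21a732c8c) (nat_lit 241379425),
  Rx.mk (nat_lit 423) (nat_lit 7) (nat_lit 4) (nat_lit 6) (nat_lit 5) (nat_lit 5) (nat_lit 12) r0_5 r0_12 (nat_lit 0) (nat_lit 652718) (nat_lit 0) (nat_lit 0x1cc51c770) (nat_lit 324049624),
  Rx.mk (nat_lit 436) (nat_lit 4) (nat_lit 6) (nat_lit 6) (nat_lit 6) (nat_lit 0) (nat_lit 10) r0_0 r0_10 (nat_lit 5471) (nat_lit 0) (nat_lit 0) (nat_lit 0x1bae1cfda) (nat_lit 341835427),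
  Rx.mk (nat_lit 438) (nat_lit 6) (nat_lit 6) (nat_lit 6) (nat_lit 7) (nat_lit 1) (nat_lit 19) r0_1 r0_19 (nat_lit 0) (nat_lit 0) (nat_lit 0) (nat_lit 0x1e0c3e6d4) (nat_lit 301686606),
  Rx.mk (nat_lit 439) (nat_lit 7) (nat_lit 6) (nat_lit 6) (nat_lit 7) (nat_lit 6) (nat_lit 16) r0_6 r0_16 (nat_lit 0) (nat_lit 0) (nat_lit 0) (nat_lit 0x1fffd8ce4) (nat_lit 268446456),
  Rx.mk (nat_lit 447) (nat_lit 7) (nat_lit 7) (nat_lit 6) (nat_lit 7) (nat_lit 8) (nat_lit 15) r0_8 r0_15 (nat_lit 0) (nat_lit 0) (nat_lit 0) (nat_lit 0x200b040dc) (nat_lit 268060406),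
  Rx.mk (nat_lit 475) (nat_lit 3) (nat_lit 3) (nat_lit 7) (nat_lit 7) (nat_lit 18) (nat_lit 2) r0_18 r0_2 (nat_lit 0) (nat_lit 0) (nat_lit 0) (nat_lit 0x1f323f396) (nat_lit 282197306),
  Rx.mk (nat_lit 507) (nat_lit 3) (nat_lit 7) (nat_lit 7) (nat_lit 7) (nat_lit 17) (nat_lit 3) r0_17 r0_3 (nat_lit 0) (nat_lit 0) (nat_lit 0) (nat_lit 0x1f706ec5c) (nat_lit 278205956),
  Rx.mk (nat_lit 511) (nat_lit 7) (nat_lit 7) (nat_lit 7) (nat_lit 7) (nat_lit 9) (nat_lit 14) r0_9 r0_14 (nat_lit 0) (nat_lit 0) (nat_lit 0) (nat_lit 0x1f2e154d2) (nat_lit 282588656)]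
noncomputable def e0_1 : List Rx := [
  Rx.mk (nat_lit 2) (nat_lit 2) (nat_lit 0) (nat_lit 0) (nat_lit 1) (nat_lit 23) (nat_lit 2) r0_23 r1_2 (nat_lit 0) (nat_lit 1901317) (nat_lit 1053210) (nat_lit 0x1d06fa732) (nat_lit 322020483),
  Rx.mk (nat_lit 18) (nat_lit 2) (nat_lit 2) (nat_lit 0) (nat_lit 3) (nat_lit 25) (nat_lit 5) r0_25 r1_5 (nat_lit 0) (nat_lit 0) (nat_lit 1484672) (nat_lit 0x20258cca6) (nat_lit 267789778),
  Rx.mk (nat_lit 146) (nat_lit 2) (nat_lit 2) (nat_lit 2) (nat_lit 7) (nat_lit 26) (nat_lit 7) r0_26 r1_7 (nat_lit 0) (nat_lit 0) (nat_lit 0) (nat_lit 0x204321550) (nat_lit 264427056),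
  Rx.mk (nat_lit 150) (nat_lit 6) (nat_lit 2) (nat_lit 2) (nat_lit 7) (nat_lit 21) (nat_lit 8) r0_21 r1_8 (nat_lit 0) (nat_lit 0) (nat_lit 0) (nat_lit 0x203066816) (nat_lit 265637806),
  Rx.mk (nat_lit 182) (nat_lit 6) (nat_lit 6) (nat_lit 2) (nat_lit 7) (nat_lit 20) (nat_lit 9) r0_20 r1_9 (nat_lit 0) (nat_lit 0) (nat_lit 0) (nat_lit 0x2045d486a) (nat_lit 264245706),
  Rx.mk (nat_lit 194) (nat_lit 2) (nat_lit 0) (nat_lit 3) (nat_lit 5) (nat_lit 24) (nat_lit 3) r0_24 r1_3 (nat_lit 0) (nat_lit 6798811) (nat_lit 0) (nat_lit 0x1fe079bd2) (nat_lit 277633767),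
  Rx.mk (nat_lit 210) (nat_lit 2) (nat_lit 2) (nat_lit 3) (nat_lit 7) (nat_lit 27) (nat_lit 6) r0_27 r1_6 (nat_lit 0) (nat_lit 0) (nat_lit 0) (nat_lit 0x204321550) (nat_lit 264427056),
  Rx.mk (nat_lit 216) (nat_lit 0) (nat_lit 3) (nat_lit 3) (nat_lit 6) (nat_lit 22) (nat_lit 0) r0_22 r1_0 (nat_lit 6061326) (nat_lit 0) (nat_lit 0) (nat_lit 0x1e22fb854) (nat_lit 306330232),
  Rx.mk (nat_lit 218) (nat_lit 2) (nat_lit 3) (nat_lit 3) (nat_lit 7) (nat_lit 28) (nat_lit 4) r0_28 r1_4 (nat_lit 0) (nat_lit 0) (nat_lit 0) (nat_lit 0x232a6f1b2) (nat_lit 216775806),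
  Rx.mk (nat_lit 219) (nat_lit 3) (nat_lit 3) (nat_lit 3) (nat_lit 7) (nat_lit 29) (nat_lit 1) r0_29 r1_1 (nat_lit 0) (nat_lit 0) (nat_lit 0) (nat_lit 0x20e22bba0) (nat_lit 254171106)]
noncomputable def e0_2 : List Rx := [
  Rx.mk (nat_lit 2) (nat_lit 2) (nat_lit 0) (nat_lit 0) (nat_lit 1) (nat_lit 34) (nat_lit 4) r0_34 r2_4 (nat_lit 0) (nat_lit 1671764) (nat_lit 813893) (nat_lit 0x19c19e614) (nat_lit 377108313),
  Rx.mk (nat_lit 18) (nat_lit 2) (nat_lit 2) (nat_lit 0) (nat_lit 3) (nat_lit 36) (nat_lit 9) r0_36 r2_9 (nat_lit 0) (nat_lit 0) (nat_lit 5691868) (nat_lit 0x1f50a2202) (nat_lit 285995074),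
  Rx.mk (nat_lit 24) (nat_lit 0) (nat_lit 3) (nat_lit 0) (nat_lit 2) (nat_lit 31) (nat_lit 0) r0_31 r2_0 (nat_lit 349407) (nat_lit 0) (nat_lit 294663) (nat_lit 0x19a17a64e) (nat_lit 377353876),
  Rx.mk (nat_lit 26) (nat_lit 2) (nat_lit 3) (nat_lit 0) (nat_lit 3) (nat_lit 39) (nat_lit 6) r0_39 r2_6 (nat_lit 0) (nat_lit 0) (nat_lit 267483) (nat_lit 0x2090e0ad4) (nat_lit 259516689),
  Rx.mk (nat_lit 66) (nat_lit 2) (nat_lit 0) (nat_lit 1) (nat_lit 5) (nat_lit 35) (nat_lit 5) r0_35 r2_5 (nat_lit 0) (nat_lit 10441397) (nat_lit 0) (nat_lit 0x1fa2a4a28) (nat_lit 285340053),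
  Rx.mk (nat_lit 82) (nat_lit 2) (nat_lit 2) (nat_lit 1) (nat_lit 7) (nat_lit 37) (nat_lit 10) r0_37 r2_10 (nat_lit 0) (nat_lit 0) (nat_lit 0) (nat_lit 0x1ffc2f214) (nat_lit 269036706),
  Rx.mk (nat_lit 88) (nat_lit 0) (nat_lit 3) (nat_lit 1) (nat_lit 6) (nat_lit 32) (nat_lit 1) r0_32 r2_1 (nat_lit 3951197) (nat_lit 0) (nat_lit 0) (nat_lit 0x1fb1bfb20) (nat_lit 277838903),
  Rx.mk (nat_lit 90) (nat_lit 2) (nat_lit 3) (nat_lit 1) (nat_lit 7) (nat_lit 40) (nat_lit 7) r0_40 r2_7 (nat_lit 0) (nat_lit 0) (nat_lit 0) (nat_lit 0x23e3f71fc) (nat_lit 204928556),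
  Rx.mk (nat_lit 146) (nat_lit 2) (nat_lit 2) (nat_lit 2) (nat_lit 7) (nat_lit 38) (nat_lit 11) r0_38 r2_11 (nat_lit 0) (nat_lit 0) (nat_lit 0) (nat_lit 0x2013deebe) (nat_lit 267490256),
  Rx.mk (nat_lit 150) (nat_lit 6) (nat_lit 2) (nat_lit 2) (nat_lit 7) (nat_lit 30) (nat_lit 12) r0_30 r2_12 (nat_lit 0) (nat_lit 0) (nat_lit 0) (nat_lit 0x1ffdc5ed4) (nat_lit 268933606),
  Rx.mk (nat_lit 216) (nat_lit 0) (nat_lit 3) (nat_lit 3) (nat_lit 6) (nat_lit 33) (nat_lit 2) r0_33 r2_2 (nat_lit 7471693) (nat_lit 0) (nat_lit 0) (nat_lit 0x1fd740098) (nat_lit 278900949),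
  Rx.mk (nat_lit 218) (nat_lit 2) (nat_lit 3) (nat_lit 3) (nat_lit 7) (nat_lit 41) (nat_lit 8) r0_41 r2_8 (nat_lit 0) (nat_lit 0) (nat_lit 0) (nat_lit 0x240278928) (nat_lit 202977506),
  Rx.mk (nat_lit 219) (nat_lit 3) (nat_lit 3) (nat_lit 3) (nat_lit 7) (nat_lit 42) (nat_lit 3) r0_42 r2_3 (nat_lit 0) (nat_lit 0) (nat_lit 0) (nat_lit 0x2086fe548) (nat_lit 260050456)]
noncomputable def e0_3 : List Rx := [
  Rx.mk (nat_lit 295) (nat_lit 7) (nat_lit 4) (nat_lit 4) (nat_lit 1) (nat_lit 43) (nat_lit 4) r0_43 r3_4 (nat_lit 0) (nat_lit 237) (nat_lit 74) (nat_lit 0x2052170be) (nat_lit 263187217),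
  Rx.mk (nat_lit 315) (nat_lit 3) (nat_lit 7) (nat_lit 4) (nat_lit 3) (nat_lit 49) (nat_lit 2) r0_49 r3_2 (nat_lit 0) (nat_lit 0) (nat_lit 2053) (nat_lit 0x1fff1523a) (nat_lit 268499659),
  Rx.mk (nat_lit 319) (nat_lit 7) (nat_lit 7) (nat_lit 4) (nat_lit 3) (nat_lit 46) (nat_lit 6) r0_46 r3_6 (nat_lit 0) (nat_lit 0) (nat_lit 221533) (nat_lit 0x1f6467e9a) (nat_lit 279046389),
  Rx.mk (nat_lit 423) (nat_lit 7) (nat_lit 4) (nat_lit 6) (nat_lit 5) (nat_lit 44) (nat_lit 5) r0_44 r3_5 (nat_lit 0) (nat_lit 41515) (nat_lit 0) (nat_lit 0x1d3411838) (nat_lit 315993021),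
  Rx.mk (nat_lit 439) (nat_lit 7) (nat_lit 6) (nat_lit 6) (nat_lit 7) (nat_lit 45) (nat_lit 8) r0_45 r3_8 (nat_lit 0) (nat_lit 0) (nat_lit 0) (nat_lit 0x1f5a47708) (nat_lit 279658856),
  Rx.mk (nat_lit 447) (nat_lit 7) (nat_lit 7) (nat_lit 6) (nat_lit 7) (nat_lit 47) (nat_lit 7) r0_47 r3_7 (nat_lit 0) (nat_lit 0) (nat_lit 0) (nat_lit 0x20628cae8) (nat_lit 262391206),
  Rx.mk (nat_lit 472) (nat_lit 0) (nat_lit 3) (nat_lit 7) (nat_lit 6) (nat_lit 48) (nat_lit 0) r0_48 r3_0 (nat_lit 3060) (nat_lit 0) (nat_lit 0) (nat_lit 0x1ffe47150) (nat_lit 268554166),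
  Rx.mk (nat_lit 475) (nat_lit 3) (nat_lit 3) (nat_lit 7) (nat_lit 7) (nat_lit 51) (nat_lit 1) r0_51 r3_1 (nat_lit 0) (nat_lit 0) (nat_lit 0) (nat_lit 0x1f48084e8) (nat_lit 280847656),
  Rx.mk (nat_lit 507) (nat_lit 3) (nat_lit 7) (nat_lit 7) (nat_lit 7) (nat_lit 50) (nat_lit 3) r0_50 r3_3 (nat_lit 0) (nat_lit 0) (nat_lit 0) (nat_lit 0x2006da4f2) (nat_lit 268322256)]
noncomputable def e0_4 : List Rx := [
  Rx.mk (nat_lit 194) (nat_lit 2) (nat_lit 0) (nat_lit 3) (nat_lit 5) (nat_lit 59) (nat_lit 5) r0_59 r4_5 (nat_lit 0) (nat_lit 20543778) (nat_lit 0) (nat_lit 0x1ef9c7a5e) (nat_lit 306570734),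
  Rx.mk (nat_lit 210) (nat_lit 2) (nat_lit 2) (nat_lit 3) (nat_lit 7) (nat_lit 60) (nat_lit 7) r0_60 r4_7 (nat_lit 0) (nat_lit 0) (nat_lit 0) (nat_lit 0x1fa57e4c4) (nat_lit 274711106),
  Rx.mk (nat_lit 216) (nat_lit 0) (nat_lit 3) (nat_lit 3) (nat_lit 6) (nat_lit 58) (nat_lit 0) r0_58 r4_0 (nat_lit 829405) (nat_lit 0) (nat_lit 0) (nat_lit 0x19a9ddf48) (nat_lit 377006311),
  Rx.mk (nat_lit 218) (nat_lit 2) (nat_lit 3) (nat_lit 3) (nat_lit 7) (nat_lit 61) (nat_lit 6) r0_61 r4_6 (nat_lit 0) (nat_lit 0) (nat_lit 0) (nat_lit 0x1fca5e078) (nat_lit 272247956),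
  Rx.mk (nat_lit 295) (nat_lit 7) (nat_lit 4) (nat_lit 4) (nat_lit 1) (nat_lit 52) (nat_lit 8) r0_52 r4_8 (nat_lit 0) (nat_lit 2057600) (nat_lit 911214) (nat_lit 0x1b22bcfc6) (nat_lit 354158770),
  Rx.mk (nat_lit 315) (nat_lit 3) (nat_lit 7) (nat_lit 4) (nat_lit 3) (nat_lit 62) (nat_lit 3) r0_62 r4_3 (nat_lit 0) (nat_lit 0) (nat_lit 4296120) (nat_lit 0x1fd4ab1de) (nat_lit 275890326),
  Rx.mk (nat_lit 319) (nat_lit 7) (nat_lit 7) (nat_lit 4) (nat_lit 3) (nat_lit 55) (nat_lit 10) r0_55 r4_10 (nat_lit 0) (nat_lit 0) (nat_lit 4095836) (nat_lit 0x1fd9b63ea) (nat_lit 275364542),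
  Rx.mk (nat_lit 423) (nat_lit 7) (nat_lit 4) (nat_lit 6) (nat_lit 5) (nat_lit 53) (nat_lit 9) r0_53 r4_9 (nat_lit 0) (nat_lit 17143268) (nat_lit 0) (nat_lit 0x1e42af416) (nat_lit 315309874),
  Rx.mk (nat_lit 439) (nat_lit 7) (nat_lit 6) (nat_lit 6) (nat_lit 7) (nat_lit 54) (nat_lit 12) r0_54 r4_12 (nat_lit 0) (nat_lit 0) (nat_lit 0) (nat_lit 0x1d9b5a3be) (nat_lit 309237406),
  Rx.mk (nat_lit 447) (nat_lit 7) (nat_lit 7) (nat_lit 6) (nat_lit 7) (nat_lit 56) (nat_lit 11) r0_56 r4_11 (nat_lit 0) (nat_lit 0) (nat_lit 0) (nat_lit 0x205e5adb2) (nat_lit 262667356),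
  Rx.mk (nat_lit 472) (nat_lit 0) (nat_lit 3) (nat_lit 7) (nat_lit 6) (nat_lit 57) (nat_lit 1) r0_57 r4_1 (nat_lit 4265964) (nat_lit 0) (nat_lit 0) (nat_lit 0x1f7bbe878) (nat_lit 281708970),
  Rx.mk (nat_lit 475) (nat_lit 3) (nat_lit 3) (nat_lit 7) (nat_lit 7) (nat_lit 64) (nat_lit 2) r0_64 r4_2 (nat_lit 0) (nat_lit 0) (nat_lit 0) (nat_lit 0x203c788ac) (nat_lit 264839206),
  Rx.mk (nat_lit 507) (nat_lit 3) (nat_lit 7) (nat_lit 7) (nat_lit 7) (nat_lit 63) (nat_lit 4) r0_63 r4_4 (nat_lit 0) (nat_lit 0) (nat_lit 0) (nat_lit 0x206a07ed0) (nat_lit 261913956)]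
noncomputable def e0_5 : List Rx := [
  Rx.mk (nat_lit 283) (nat_lit 3) (nat_lit 3) (nat_lit 4) (nat_lit 3) (nat_lit 69) (nat_lit 1) r0_69 r5_1 (nat_lit 0) (nat_lit 0) (nat_lit 1213772) (nat_lit 0x1e3ce063e) (nat_lit 299727878),
  Rx.mk (nat_lit 315) (nat_lit 3) (nat_lit 7) (nat_lit 4) (nat_lit 3) (nat_lit 68) (nat_lit 3) r0_68 r5_3 (nat_lit 0) (nat_lit 0) (nat_lit 1465966) (nat_lit 0x1f26316d0) (nat_lit 284523272),
  Rx.mk (nat_lit 319) (nat_lit 7) (nat_lit 7) (nat_lit 4) (nat_lit 3) (nat_lit 65) (nat_lit 4) r0_65 r5_4 (nat_lit 0) (nat_lit 0) (nat_lit 1047232) (nat_lit 0x1fe6eb86c) (nat_lit 271393488),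
  Rx.mk (nat_lit 447) (nat_lit 7) (nat_lit 7) (nat_lit 6) (nat_lit 7) (nat_lit 66) (nat_lit 5) r0_66 r5_5 (nat_lit 0) (nat_lit 0) (nat_lit 0) (nat_lit 0x2076d9fbe) (nat_lit 261082156),
  Rx.mk (nat_lit 472) (nat_lit 0) (nat_lit 3) (nat_lit 7) (nat_lit 6) (nat_lit 67) (nat_lit 0) r0_67 r5_0 (nat_lit 1224594) (nat_lit 0) (nat_lit 0) (nat_lit 0x1f6cdf3ac) (nat_lit 279582800),
  Rx.mk (nat_lit 475) (nat_lit 3) (nat_lit 3) (nat_lit 7) (nat_lit 7) (nat_lit 70) (nat_lit 2) r0_70 r5_2 (nat_lit 0) (nat_lit 0) (nat_lit 0) (nat_lit 0x1f8e71664) (nat_lit 276218956)]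
noncomputable def e0_6 : List Rx := [
  Rx.mk (nat_lit 344) (nat_lit 0) (nat_lit 3) (nat_lit 5) (nat_lit 6) (nat_lit 71) (nat_lit 67) r0_71 r3_67 (nat_lit 279) (nat_lit 0) (nat_lit 0) (nat_lit 0x2000240b8) (nat_lit 268426835)]
noncomputable def e0_7 : List Rx := [
  Rx.mk (nat_lit 66) (nat_lit 2) (nat_lit 0) (nat_lit 1) (nat_lit 5) (nat_lit 73) (nat_lit 72) r0_73 r0_72 (nat_lit 0) (nat_lit 3189282) (nat_lit 0) (nat_lit 0x1e646defe) (nat_lit 299105288),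
  Rx.mk (nat_lit 88) (nat_lit 0) (nat_lit 3) (nat_lit 1) (nat_lit 6) (nat_lit 72) (nat_lit 73) r0_72 r0_73 (nat_lit 3189282) (nat_lit 0) (nat_lit 0) (nat_lit 0x1e646defe) (nat_lit 299105288),
  Rx.mk (nat_lit 90) (nat_lit 2) (nat_lit 3) (nat_lit 1) (nat_lit 7) (nat_lit 74) (nat_lit 74) r0_74 r0_74 (nat_lit 0) (nat_lit 0) (nat_lit 0) (nat_lit 0x2029ade84) (nat_lit 266052256)]
noncomputable def e0_8 : List Rx := [
  Rx.mk (nat_lit 66) (nat_lit 2) (nat_lit 0) (nat_lit 1) (nat_lit 5) (nat_lit 76) (nat_lit 69) r0_76 r1_69 (nat_lit 0) (nat_lit 7606073) (nat_lit 0) (nat_lit 0x1f4683d84) (nat_lit 288573429),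
  Rx.mk (nat_lit 82) (nat_lit 2) (nat_lit 2) (nat_lit 1) (nat_lit 7) (nat_lit 77) (nat_lit 72) r0_77 r1_72 (nat_lit 0) (nat_lit 0) (nat_lit 0) (nat_lit 0x202d73a00) (nat_lit 265825656),
  Rx.mk (nat_lit 88) (nat_lit 0) (nat_lit 3) (nat_lit 1) (nat_lit 6) (nat_lit 75) (nat_lit 70) r0_75 r1_70 (nat_lit 3064142) (nat_lit 0) (nat_lit 0) (nat_lit 0x203e7efde) (nat_lit 267754448),
  Rx.mk (nat_lit 90) (nat_lit 2) (nat_lit 3) (nat_lit 1) (nat_lit 7) (nat_lit 78) (nat_lit 71) r0_78 r1_71 (nat_lit 0) (nat_lit 0) (nat_lit 0) (nat_lit 0x22d0de396) (nat_lit 222515206)]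
noncomputable def e0_9 : List Rx := [
  Rx.mk (nat_lit 88) (nat_lit 0) (nat_lit 3) (nat_lit 1) (nat_lit 6) (nat_lit 80) (nat_lit 69) r0_80 r4_69 (nat_lit 3349434) (nat_lit 0) (nat_lit 0) (nat_lit 0x1f4641506) (nat_lit 284310440),
  Rx.mk (nat_lit 90) (nat_lit 2) (nat_lit 3) (nat_lit 1) (nat_lit 7) (nat_lit 81) (nat_lit 70) r0_81 r4_70 (nat_lit 0) (nat_lit 0) (nat_lit 0) (nat_lit 0x1ea79a466) (nat_lit 291417306),
  Rx.mk (nat_lit 344) (nat_lit 0) (nat_lit 3) (nat_lit 5) (nat_lit 6) (nat_lit 79) (nat_lit 68) r0_79 r4_68 (nat_lit 1637705) (nat_lit 0) (nat_lit 0) (nat_lit 0x17ef1a0fe) (nat_lit 407217261)]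
noncomputable def e0_10 : List Rx := [
  Rx.mk (nat_lit 280) (nat_lit 0) (nat_lit 3) (nat_lit 4) (nat_lit 2) (nat_lit 82) (nat_lit 0) r0_82 r6_0 (nat_lit 281735) (nat_lit 0) (nat_lit 196429) (nat_lit 0x185106fa6) (nat_lit 399502620),
  Rx.mk (nat_lit 283) (nat_lit 3) (nat_lit 3) (nat_lit 4) (nat_lit 3) (nat_lit 87) (nat_lit 3) r0_87 r6_3 (nat_lit 0) (nat_lit 0) (nat_lit 3576524) (nat_lit 0x1f64ded74) (nat_lit 282524430),
  Rx.mk (nat_lit 315) (nat_lit 3) (nat_lit 7) (nat_lit 4) (nat_lit 3) (nat_lit 85) (nat_lit 5) r0_85 r6_5 (nat_lit 0) (nat_lit 0) (nat_lit 1207477) (nat_lit 0x21257ed80) (nat_lit 251038333),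
  Rx.mk (nat_lit 344) (nat_lit 0) (nat_lit 3) (nat_lit 5) (nat_lit 6) (nat_lit 83) (nat_lit 1) r0_83 r6_1 (nat_lit 5413605) (nat_lit 0) (nat_lit 0) (nat_lit 0x1f06f7d78) (nat_lit 290569961),
  Rx.mk (nat_lit 347) (nat_lit 3) (nat_lit 3) (nat_lit 5) (nat_lit 7) (nat_lit 88) (nat_lit 4) r0_88 r6_4 (nat_lit 0) (nat_lit 0) (nat_lit 0) (nat_lit 0x22fcdb1ec) (nat_lit 219708606),
  Rx.mk (nat_lit 379) (nat_lit 3) (nat_lit 7) (nat_lit 5) (nat_lit 7) (nat_lit 86) (nat_lit 6) r0_86 r6_6 (nat_lit 0) (nat_lit 0) (nat_lit 0) (nat_lit 0x242f3f128) (nat_lit 200086356),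
  Rx.mk (nat_lit 472) (nat_lit 0) (nat_lit 3) (nat_lit 7) (nat_lit 6) (nat_lit 84) (nat_lit 2) r0_84 r6_2 (nat_lit 2973175) (nat_lit 0) (nat_lit 0) (nat_lit 0x1e042fbe6) (nat_lit 305284081)]
noncomputable def e0_11 : List Rx := [
  Rx.mk (nat_lit 344) (nat_lit 0) (nat_lit 3) (nat_lit 5) (nat_lit 6) (nat_lit 89) (nat_lit 61) r0_89 r5_61 (nat_lit 4504495) (nat_lit 0) (nat_lit 0) (nat_lit 0x1f3e5221e) (nat_lit 285962751),
  Rx.mk (nat_lit 347) (nat_lit 3) (nat_lit 3) (nat_lit 5) (nat_lit 7) (nat_lit 90) (nat_lit 62) r0_90 r5_62 (nat_lit 0) (nat_lit 0) (nat_lit 0) (nat_lit 0x21429c962) (nat_lit 247994206)]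
noncomputable def e0_12 : List Rx := [
  Rx.mk (nat_lit 295) (nat_lit 7) (nat_lit 4) (nat_lit 4) (nat_lit 1) (nat_lit 94) (nat_lit 91) r0_94 r0_91 (nat_lit 0) (nat_lit 60842100) (nat_lit 1628884) (nat_lit 0x1ac63eefc) (nat_lit 419815890),
  Rx.mk (nat_lit 319) (nat_lit 7) (nat_lit 7) (nat_lit 4) (nat_lit 3) (nat_lit 97) (nat_lit 92) r0_97 r0_92 (nat_lit 0) (nat_lit 0) (nat_lit 9463670) (nat_lit 0x1b81c5de2) (nat_lit 354415976),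
  Rx.mk (nat_lit 420) (nat_lit 4) (nat_lit 4) (nat_lit 6) (nat_lit 4) (nat_lit 91) (nat_lit 94) r0_91 r0_94 (nat_lit 1628884) (nat_lit 60842100) (nat_lit 0) (nat_lit 0x1ac63eefc) (nat_lit 419815890),
  Rx.mk (nat_lit 423) (nat_lit 7) (nat_lit 4) (nat_lit 6) (nat_lit 5) (nat_lit 95) (nat_lit 95) r0_95 r0_95 (nat_lit 0) (nat_lit 45985386) (nat_lit 0) (nat_lit 0x204996d54) (nat_lit 309979092),
  Rx.mk (nat_lit 436) (nat_lit 4) (nat_lit 6) (nat_lit 6) (nat_lit 6) (nat_lit 92) (nat_lit 97) r0_92 r0_97 (nat_lit 9463670) (nat_lit 0) (nat_lit 0) (nat_lit 0x1b81c5de2) (nat_lit 354415976),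
  Rx.mk (nat_lit 438) (nat_lit 6) (nat_lit 6) (nat_lit 6) (nat_lit 7) (nat_lit 93) (nat_lit 99) r0_93 r0_99 (nat_lit 0) (nat_lit 0) (nat_lit 0) (nat_lit 0x1fdac48ea) (nat_lit 271218956),
  Rx.mk (nat_lit 439) (nat_lit 7) (nat_lit 6) (nat_lit 6) (nat_lit 7) (nat_lit 96) (nat_lit 98) r0_96 r0_98 (nat_lit 0) (nat_lit 0) (nat_lit 0) (nat_lit 0x20167bdc0) (nat_lit 267324756),
  Rx.mk (nat_lit 447) (nat_lit 7) (nat_lit 7) (nat_lit 6) (nat_lit 7) (nat_lit 98) (nat_lit 96) r0_98 r0_96 (nat_lit 0) (nat_lit 0) (nat_lit 0) (nat_lit 0x20167bdc0) (nat_lit 267324756),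
  Rx.mk (nat_lit 511) (nat_lit 7) (nat_lit 7) (nat_lit 7) (nat_lit 7) (nat_lit 99) (nat_lit 93) r0_99 r0_93 (nat_lit 0) (nat_lit 0) (nat_lit 0) (nat_lit 0x1fdac48ea) (nat_lit 271218956)]
noncomputable def e0_13 : List Rx := [
  Rx.mk (nat_lit 150) (nat_lit 6) (nat_lit 2) (nat_lit 2) (nat_lit 7) (nat_lit 104) (nat_lit 8) r0_104 r7_8 (nat_lit 0) (nat_lit 0) (nat_lit 0) (nat_lit 0x20055e1a0) (nat_lit 268437306),
  Rx.mk (nat_lit 182) (nat_lit 6) (nat_lit 6) (nat_lit 2) (nat_lit 7) (nat_lit 103) (nat_lit 9) r0_103 r7_9 (nat_lit 0) (nat_lit 0) (nat_lit 0) (nat_lit 0x20056d4f2) (nat_lit 268435456),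
  Rx.mk (nat_lit 295) (nat_lit 7) (nat_lit 4) (nat_lit 4) (nat_lit 1) (nat_lit 105) (nat_lit 2) r0_105 r7_2 (nat_lit 0) (nat_lit 991673) (nat_lit 121405) (nat_lit 0x190ff0958) (nat_lit 387448234),
  Rx.mk (nat_lit 319) (nat_lit 7) (nat_lit 7) (nat_lit 4) (nat_lit 3) (nat_lit 108) (nat_lit 4) r0_108 r7_4 (nat_lit 0) (nat_lit 0) (nat_lit 4501915) (nat_lit 0x1cfdf132a) (nat_lit 324222321),
  Rx.mk (nat_lit 420) (nat_lit 4) (nat_lit 4) (nat_lit 6) (nat_lit 4) (nat_lit 100) (nat_lit 0) r0_100 r7_0 (nat_lit 4635726) (nat_lit 10175790) (nat_lit 0) (nat_lit 0x1840136ea) (nat_lit 415072972),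
  Rx.mk (nat_lit 423) (nat_lit 7) (nat_lit 4) (nat_lit 6) (nat_lit 5) (nat_lit 106) (nat_lit 3) r0_106 r7_3 (nat_lit 0) (nat_lit 27844967) (nat_lit 0) (nat_lit 0x1fd250a9c) (nat_lit 299584973),
  Rx.mk (nat_lit 436) (nat_lit 4) (nat_lit 6) (nat_lit 6) (nat_lit 6) (nat_lit 101) (nat_lit 1) r0_101 r7_1 (nat_lit 4240931) (nat_lit 0) (nat_lit 0) (nat_lit 0x1bf1985a2) (nat_lit 341762337),
  Rx.mk (nat_lit 438) (nat_lit 6) (nat_lit 6) (nat_lit 6) (nat_lit 7) (nat_lit 102) (nat_lit 10) r0_102 r7_10 (nat_lit 0) (nat_lit 0) (nat_lit 0) (nat_lit 0x1efe441c2) (nat_lit 285762006),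
  Rx.mk (nat_lit 439) (nat_lit 7) (nat_lit 6) (nat_lit 6) (nat_lit 7) (nat_lit 107) (nat_lit 7) r0_107 r7_7 (nat_lit 0) (nat_lit 0) (nat_lit 0) (nat_lit 0x1fe528a70) (nat_lit 270533656),
  Rx.mk (nat_lit 447) (nat_lit 7) (nat_lit 7) (nat_lit 6) (nat_lit 7) (nat_lit 109) (nat_lit 6) r0_109 r7_6 (nat_lit 0) (nat_lit 0) (nat_lit 0) (nat_lit 0x20249e1b4) (nat_lit 266405506),
  Rx.mk (nat_lit 511) (nat_lit 7) (nat_lit 7) (nat_lit 7) (nat_lit 7) (nat_lit 110) (nat_lit 5) r0_110 r7_5 (nat_lit 0) (nat_lit 0) (nat_lit 0) (nat_lit 0x1fe8175a6) (nat_lit 270347556)]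
noncomputable def e0_14 : List Rx := [
  Rx.mk (nat_lit 292) (nat_lit 4) (nat_lit 4) (nat_lit 4) (nat_lit 0) (nat_lit 111) (nat_lit 94) r0_111 r1_94 (nat_lit 1132) (nat_lit 71503781) (nat_lit 1151) (nat_lit 0x1ffffcd4c) (nat_lit 339943120),
  Rx.mk (nat_lit 293) (nat_lit 5) (nat_lit 4) (nat_lit 4) (nat_lit 1) (nat_lit 114) (nat_lit 95) r0_114 r1_95 (nat_lit 0) (nat_lit 104667208) (nat_lit 4173814) (nat_lit 0x200e73d6c) (nat_lit 376678078),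
  Rx.mk (nat_lit 295) (nat_lit 7) (nat_lit 4) (nat_lit 4) (nat_lit 1) (nat_lit 118) (nat_lit 96) r0_118 r1_96 (nat_lit 0) (nat_lit 56350289) (nat_lit 10218001) (nat_lit 0x1f745a79e) (nat_lit 344506196),
  Rx.mk (nat_lit 319) (nat_lit 7) (nat_lit 7) (nat_lit 4) (nat_lit 3) (nat_lit 121) (nat_lit 97) r0_121 r1_97 (nat_lit 0) (nat_lit 0) (nat_lit 7542287) (nat_lit 0x201cafd36) (nat_lit 274462593),
  Rx.mk (nat_lit 420) (nat_lit 4) (nat_lit 4) (nat_lit 6) (nat_lit 4) (nat_lit 112) (nat_lit 99) r0_112 r1_99 (nat_lit 3336276) (nat_lit 34468149) (nat_lit 0) (nat_lit 0x1d1651a5a) (nat_lit 355883931),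
  Rx.mk (nat_lit 421) (nat_lit 5) (nat_lit 4) (nat_lit 6) (nat_lit 5) (nat_lit 115) (nat_lit 100) r0_115 r1_100 (nat_lit 0) (nat_lit 13267100) (nat_lit 0) (nat_lit 0x1fdaa1d54) (nat_lit 284493406),
  Rx.mk (nat_lit 423) (nat_lit 7) (nat_lit 4) (nat_lit 6) (nat_lit 5) (nat_lit 119) (nat_lit 101) r0_119 r1_101 (nat_lit 0) (nat_lit 11841269) (nat_lit 0) (nat_lit 0x20e29fb5e) (nat_lit 266000725),
  Rx.mk (nat_lit 436) (nat_lit 4) (nat_lit 6) (nat_lit 6) (nat_lit 6) (nat_lit 113) (nat_lit 103) r0_113 r1_103 (nat_lit 7095785) (nat_lit 0) (nat_lit 0) (nat_lit 0x1f099b1ce) (nat_lit 292101241),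
  Rx.mk (nat_lit 437) (nat_lit 5) (nat_lit 6) (nat_lit 6) (nat_lit 7) (nat_lit 116) (nat_lit 104) r0_116 r1_104 (nat_lit 0) (nat_lit 0) (nat_lit 0) (nat_lit 0x20056d4f2) (nat_lit 268435456),
  Rx.mk (nat_lit 438) (nat_lit 6) (nat_lit 6) (nat_lit 6) (nat_lit 7) (nat_lit 117) (nat_lit 106) r0_117 r1_106 (nat_lit 0) (nat_lit 0) (nat_lit 0) (nat_lit 0x20056d4f2) (nat_lit 268435456),
  Rx.mk (nat_lit 439) (nat_lit 7) (nat_lit 6) (nat_lit 6) (nat_lit 7) (nat_lit 120) (nat_lit 105) r0_120 r1_105 (nat_lit 0) (nat_lit 0) (nat_lit 0) (nat_lit 0x20056d4f2) (nat_lit 268435456),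
  Rx.mk (nat_lit 447) (nat_lit 7) (nat_lit 7) (nat_lit 6) (nat_lit 7) (nat_lit 122) (nat_lit 102) r0_122 r1_102 (nat_lit 0) (nat_lit 0) (nat_lit 0) (nat_lit 0x20056d4f2) (nat_lit 268435456),
  Rx.mk (nat_lit 511) (nat_lit 7) (nat_lit 7) (nat_lit 7) (nat_lit 7) (nat_lit 123) (nat_lit 98) r0_123 r1_98 (nat_lit 0) (nat_lit 0) (nat_lit 0) (nat_lit 0x20056d4f2) (nat_lit 268435456)]
noncomputable def e0_15 : List Rx := [
  Rx.mk (nat_lit 150) (nat_lit 6) (nat_lit 2) (nat_lit 2) (nat_lit 7) (nat_lit 132) (nat_lit 12) r0_132 r8_12 (nat_lit 0) (nat_lit 0) (nat_lit 0) (nat_lit 0x20056d4f2) (nat_lit 268435456),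
  Rx.mk (nat_lit 182) (nat_lit 6) (nat_lit 6) (nat_lit 2) (nat_lit 7) (nat_lit 131) (nat_lit 13) r0_131 r8_13 (nat_lit 0) (nat_lit 0) (nat_lit 0) (nat_lit 0x1ff9ddc54) (nat_lit 269187956),
  Rx.mk (nat_lit 292) (nat_lit 4) (nat_lit 4) (nat_lit 4) (nat_lit 0) (nat_lit 124) (nat_lit 0) r0_124 r8_0 (nat_lit 548020) (nat_lit 10221547) (nat_lit 641106) (nat_lit 0xdf239f5a) (nat_lit 586659229),
  Rx.mk (nat_lit 293) (nat_lit 5) (nat_lit 4) (nat_lit 4) (nat_lit 1) (nat_lit 127) (nat_lit 3) r0_127 r8_3 (nat_lit 0) (nat_lit 22390317) (nat_lit 8596723) (nat_lit 0x181f48a6e) (nat_lit 433430596),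
  Rx.mk (nat_lit 295) (nat_lit 7) (nat_lit 4) (nat_lit 4) (nat_lit 1) (nat_lit 133) (nat_lit 6) r0_133 r8_6 (nat_lit 0) (nat_lit 8459973) (nat_lit 5082939) (nat_lit 0x18412df6c) (nat_lit 413722318),
  Rx.mk (nat_lit 319) (nat_lit 7) (nat_lit 7) (nat_lit 4) (nat_lit 3) (nat_lit 136) (nat_lit 8) r0_136 r8_8 (nat_lit 0) (nat_lit 0) (nat_lit 11005782) (nat_lit 0x1c8a0941c) (nat_lit 338427488),
  Rx.mk (nat_lit 420) (nat_lit 4) (nat_lit 4) (nat_lit 6) (nat_lit 4) (nat_lit 125) (nat_lit 1) r0_125 r8_1 (nat_lit 8977401) (nat_lit 21261060) (nat_lit 0) (nat_lit 0x18db3ee76) (nat_lit 420209017),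
  Rx.mk (nat_lit 421) (nat_lit 5) (nat_lit 4) (nat_lit 6) (nat_lit 5) (nat_lit 128) (nat_lit 4) r0_128 r8_4 (nat_lit 0) (nat_lit 13103625) (nat_lit 0) (nat_lit 0x1fa80595e) (nat_lit 287655681),
  Rx.mk (nat_lit 423) (nat_lit 7) (nat_lit 4) (nat_lit 6) (nat_lit 5) (nat_lit 134) (nat_lit 7) r0_134 r8_7 (nat_lit 0) (nat_lit 17354866) (nat_lit 0) (nat_lit 0x1fa7fc02a) (nat_lit 291906822),
  Rx.mk (nat_lit 436) (nat_lit 4) (nat_lit 6) (nat_lit 6) (nat_lit 6) (nat_lit 126) (nat_lit 2) r0_126 r8_2 (nat_lit 5563368) (nat_lit 0) (nat_lit 0) (nat_lit 0x1d90bf3fa) (nat_lit 315546874),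
  Rx.mk (nat_lit 437) (nat_lit 5) (nat_lit 6) (nat_lit 6) (nat_lit 7) (nat_lit 129) (nat_lit 5) r0_129 r8_5 (nat_lit 0) (nat_lit 0) (nat_lit 0) (nat_lit 0x1fdc55c7c) (nat_lit 271115106),
  Rx.mk (nat_lit 438) (nat_lit 6) (nat_lit 6) (nat_lit 6) (nat_lit 7) (nat_lit 130) (nat_lit 14) r0_130 r8_14 (nat_lit 0) (nat_lit 0) (nat_lit 0) (nat_lit 0x1ff9e4946) (nat_lit 269186206),
  Rx.mk (nat_lit 439) (nat_lit 7) (nat_lit 6) (nat_lit 6) (nat_lit 7) (nat_lit 135) (nat_lit 11) r0_135 r8_11 (nat_lit 0) (nat_lit 0) (nat_lit 0) (nat_lit 0x2003e8e1a) (nat_lit 268530456),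
  Rx.mk (nat_lit 447) (nat_lit 7) (nat_lit 7) (nat_lit 6) (nat_lit 7) (nat_lit 137) (nat_lit 10) r0_137 r8_10 (nat_lit 0) (nat_lit 0) (nat_lit 0) (nat_lit 0x20056d4f2) (nat_lit 268435456),
  Rx.mk (nat_lit 511) (nat_lit 7) (nat_lit 7) (nat_lit 7) (nat_lit 7) (nat_lit 138) (nat_lit 9) r0_138 r8_9 (nat_lit 0) (nat_lit 0) (nat_lit 0) (nat_lit 0x20056d4f2) (nat_lit 268435456)]
noncomputable def e0_16 : List Rx := [
  Rx.mk (nat_lit 150) (nat_lit 6) (nat_lit 2) (nat_lit 2) (nat_lit 7) (nat_lit 140) (nat_lit 77) r0_140 r8_77 (nat_lit 0) (nat_lit 0) (nat_lit 0) (nat_lit 0x20056d4f2) (nat_lit 268435456),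
  Rx.mk (nat_lit 182) (nat_lit 6) (nat_lit 6) (nat_lit 2) (nat_lit 7) (nat_lit 139) (nat_lit 76) r0_139 r8_76 (nat_lit 0) (nat_lit 0) (nat_lit 0) (nat_lit 0x1ff97bb76) (nat_lit 269212656)]
noncomputable def e0_17 : List Rx := [
  Rx.mk (nat_lit 150) (nat_lit 6) (nat_lit 2) (nat_lit 2) (nat_lit 7) (nat_lit 141) (nat_lit 0) r0_141 r9_0 (nat_lit 0) (nat_lit 0) (nat_lit 0) (nat_lit 0x20056d4f2) (nat_lit 268435456)]
noncomputable def e0_18 : List Rx := [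
  Rx.mk (nat_lit 295) (nat_lit 7) (nat_lit 4) (nat_lit 4) (nat_lit 1) (nat_lit 142) (nat_lit 93) r0_142 r4_93 (nat_lit 0) (nat_lit 52596454) (nat_lit 59176) (nat_lit 0x18b3f3b46) (nat_lit 445081686),
  Rx.mk (nat_lit 319) (nat_lit 7) (nat_lit 7) (nat_lit 4) (nat_lit 3) (nat_lit 145) (nat_lit 94) r0_145 r4_94 (nat_lit 0) (nat_lit 0) (nat_lit 5249002) (nat_lit 0x1fa57fb76) (nat_lit 279949358),
  Rx.mk (nat_lit 423) (nat_lit 7) (nat_lit 4) (nat_lit 6) (nat_lit 5) (nat_lit 143) (nat_lit 95) r0_143 r4_95 (nat_lit 0) (nat_lit 33826584) (nat_lit 0) (nat_lit 0x20ad33e2a) (nat_lit 291385790),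
  Rx.mk (nat_lit 439) (nat_lit 7) (nat_lit 6) (nat_lit 6) (nat_lit 7) (nat_lit 144) (nat_lit 97) r0_144 r4_97 (nat_lit 0) (nat_lit 0) (nat_lit 0) (nat_lit 0x202be8910) (nat_lit 265932556),
  Rx.mk (nat_lit 447) (nat_lit 7) (nat_lit 7) (nat_lit 6) (nat_lit 7) (nat_lit 146) (nat_lit 96) r0_146 r4_96 (nat_lit 0) (nat_lit 0) (nat_lit 0) (nat_lit 0x20711b0e6) (nat_lit 261457706)]
noncomputable def e0_19 : List Rx := [
  Rx.mk (nat_lit 295) (nat_lit 7) (nat_lit 4) (nat_lit 4) (nat_lit 1) (nat_lit 147) (nat_lit 0) r0_147 r10_0 (nat_lit 0) (nat_lit 514146) (nat_lit 142696) (nat_lit 0x196892534) (nat_lit 381116348),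
  Rx.mk (nat_lit 319) (nat_lit 7) (nat_lit 7) (nat_lit 4) (nat_lit 3) (nat_lit 150) (nat_lit 2) r0_150 r10_2 (nat_lit 0) (nat_lit 0) (nat_lit 5323449) (nat_lit 0x1d8aa981c) (nat_lit 315709355),
  Rx.mk (nat_lit 423) (nat_lit 7) (nat_lit 4) (nat_lit 6) (nat_lit 5) (nat_lit 148) (nat_lit 1) r0_148 r10_1 (nat_lit 0) (nat_lit 18568344) (nat_lit 0) (nat_lit 0x1f4c0ad0c) (nat_lit 299169900),
  Rx.mk (nat_lit 439) (nat_lit 7) (nat_lit 6) (nat_lit 6) (nat_lit 7) (nat_lit 149) (nat_lit 4) r0_149 r10_4 (nat_lit 0) (nat_lit 0) (nat_lit 0) (nat_lit 0x1ff3454e6) (nat_lit 269612556),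
  Rx.mk (nat_lit 447) (nat_lit 7) (nat_lit 7) (nat_lit 6) (nat_lit 7) (nat_lit 151) (nat_lit 3) r0_151 r10_3 (nat_lit 0) (nat_lit 0) (nat_lit 0) (nat_lit 0x20056d4f2) (nat_lit 268435456)]
noncomputable def e0_20 : List Rx := [
  Rx.mk (nat_lit 319) (nat_lit 7) (nat_lit 7) (nat_lit 4) (nat_lit 3) (nat_lit 152) (nat_lit 0) r0_152 r11_0 (nat_lit 0) (nat_lit 0) (nat_lit 7183742) (nat_lit 0x1fc9b009a) (nat_lit 279512798),
  Rx.mk (nat_lit 447) (nat_lit 7) (nat_lit 7) (nat_lit 6) (nat_lit 7) (nat_lit 153) (nat_lit 1) r0_153 r11_1 (nat_lit 0) (nat_lit 0) (nat_lit 0) (nat_lit 0x202537062) (nat_lit 266367056)]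
noncomputable def e0_21 : List Rx := [
  Rx.mk (nat_lit 0) (nat_lit 0) (nat_lit 0) (nat_lit 0) (nat_lit 0) (nat_lit 155) (nat_lit 23) r0_155 r9_23 (nat_lit 2742121) (nat_lit 1767760) (nat_lit 1269390) (nat_lit 0xae741146) (nat_lit 632770227),
  Rx.mk (nat_lit 2) (nat_lit 2) (nat_lit 0) (nat_lit 0) (nat_lit 1) (nat_lit 161) (nat_lit 25) r0_161 r9_25 (nat_lit 0) (nat_lit 3092091) (nat_lit 2545546) (nat_lit 0x173fde9d2) (nat_lit 422891393),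
  Rx.mk (nat_lit 18) (nat_lit 2) (nat_lit 2) (nat_lit 0) (nat_lit 3) (nat_lit 164) (nat_lit 37) r0_164 r9_37 (nat_lit 0) (nat_lit 0) (nat_lit 8810507) (nat_lit 0x1f318ee42) (nat_lit 291178113),
  Rx.mk (nat_lit 24) (nat_lit 0) (nat_lit 3) (nat_lit 0) (nat_lit 2) (nat_lit 158) (nat_lit 29) r0_158 r9_29 (nat_lit 17383273) (nat_lit 0) (nat_lit 3035981) (nat_lit 0x15db1204a) (nat_lit 461356660),
  Rx.mk (nat_lit 26) (nat_lit 2) (nat_lit 3) (nat_lit 0) (nat_lit 3) (nat_lit 167) (nat_lit 33) r0_167 r9_33 (nat_lit 0) (nat_lit 0) (nat_lit 7106347) (nat_lit 0x1fd785e5e) (nat_lit 278532703),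
  Rx.mk (nat_lit 64) (nat_lit 0) (nat_lit 0) (nat_lit 1) (nat_lit 4) (nat_lit 156) (nat_lit 24) r0_156 r9_24 (nat_lit 7764799) (nat_lit 7054152) (nat_lit 0) (nat_lit 0x15828a382) (nat_lit 461644607),
  Rx.mk (nat_lit 66) (nat_lit 2) (nat_lit 0) (nat_lit 1) (nat_lit 5) (nat_lit 162) (nat_lit 26) r0_162 r9_26 (nat_lit 0) (nat_lit 9033993) (nat_lit 0) (nat_lit 0x1ee42aec6) (nat_lit 296521849),
  Rx.mk (nat_lit 72) (nat_lit 0) (nat_lit 1) (nat_lit 1) (nat_lit 6) (nat_lit 157) (nat_lit 27) r0_157 r9_27 (nat_lit 11270394) (nat_lit 0) (nat_lit 0) (nat_lit 0x1e52d84be) (nat_lit 308387900),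
  Rx.mk (nat_lit 74) (nat_lit 2) (nat_lit 1) (nat_lit 1) (nat_lit 7) (nat_lit 163) (nat_lit 28) r0_163 r9_28 (nat_lit 0) (nat_lit 0) (nat_lit 0) (nat_lit 0x20056d4f2) (nat_lit 268435456),
  Rx.mk (nat_lit 82) (nat_lit 2) (nat_lit 2) (nat_lit 1) (nat_lit 7) (nat_lit 165) (nat_lit 38) r0_165 r9_38 (nat_lit 0) (nat_lit 0) (nat_lit 0) (nat_lit 0x20056d4f2) (nat_lit 268435456),
  Rx.mk (nat_lit 88) (nat_lit 0) (nat_lit 3) (nat_lit 1) (nat_lit 6) (nat_lit 159) (nat_lit 30) r0_159 r9_30 (nat_lit 22707758) (nat_lit 0) (nat_lit 0) (nat_lit 0x1eef51020) (nat_lit 309447014),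
  Rx.mk (nat_lit 90) (nat_lit 2) (nat_lit 3) (nat_lit 1) (nat_lit 7) (nat_lit 168) (nat_lit 34) r0_168 r9_34 (nat_lit 0) (nat_lit 0) (nat_lit 0) (nat_lit 0x20056d4f2) (nat_lit 268435456),
  Rx.mk (nat_lit 146) (nat_lit 2) (nat_lit 2) (nat_lit 2) (nat_lit 7) (nat_lit 166) (nat_lit 39) r0_166 r9_39 (nat_lit 0) (nat_lit 0) (nat_lit 0) (nat_lit 0x20056d4f2) (nat_lit 268435456),
  Rx.mk (nat_lit 150) (nat_lit 6) (nat_lit 2) (nat_lit 2) (nat_lit 7) (nat_lit 154) (nat_lit 36) r0_154 r9_36 (nat_lit 0) (nat_lit 0) (nat_lit 0) (nat_lit 0x20056d4f2) (nat_lit 268435456),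
  Rx.mk (nat_lit 216) (nat_lit 0) (nat_lit 3) (nat_lit 3) (nat_lit 6) (nat_lit 160) (nat_lit 31) r0_160 r9_31 (nat_lit 36568253) (nat_lit 0) (nat_lit 0) (nat_lit 0x1f05c5ed2) (nat_lit 321832559),
  Rx.mk (nat_lit 218) (nat_lit 2) (nat_lit 3) (nat_lit 3) (nat_lit 7) (nat_lit 169) (nat_lit 35) r0_169 r9_35 (nat_lit 0) (nat_lit 0) (nat_lit 0) (nat_lit 0x20056d4f2) (nat_lit 268435456),
  Rx.mk (nat_lit 219) (nat_lit 3) (nat_lit 3) (nat_lit 3) (nat_lit 7) (nat_lit 170) (nat_lit 32) r0_170 r9_32 (nat_lit 0) (nat_lit 0) (nat_lit 0) (nat_lit 0x1f920a348) (nat_lit 275995056)]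
noncomputable def e0_22 : List Rx := [
  Rx.mk (nat_lit 320) (nat_lit 0) (nat_lit 0) (nat_lit 5) (nat_lit 4) (nat_lit 171) (nat_lit 248) r0_171 r0_248 (nat_lit 205064910) (nat_lit 748) (nat_lit 0) (nat_lit 0x200021610) (nat_lit 473493114),
  Rx.mk (nat_lit 328) (nat_lit 0) (nat_lit 1) (nat_lit 5) (nat_lit 6) (nat_lit 172) (nat_lit 249) r0_172 r0_249 (nat_lit 120058012) (nat_lit 0) (nat_lit 0) (nat_lit 0x1f4928120) (nat_lit 400822818)]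
noncomputable def e0_23 : List Rx := [
  Rx.mk (nat_lit 328) (nat_lit 0) (nat_lit 1) (nat_lit 5) (nat_lit 6) (nat_lit 173) (nat_lit 255) r0_173 r1_255 (nat_lit 65685782) (nat_lit 0) (nat_lit 0) (nat_lit 0x200c6d310) (nat_lit 333632738)]
noncomputable def e0_24 : List Rx := [
  Rx.mk (nat_lit 320) (nat_lit 0) (nat_lit 0) (nat_lit 5) (nat_lit 4) (nat_lit 174) (nat_lit 262) r0_174 r4_262 (nat_lit 92582256) (nat_lit 368462) (nat_lit 0) (nat_lit 0x1ba8b9034) (nat_lit 435190624),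
  Rx.mk (nat_lit 328) (nat_lit 0) (nat_lit 1) (nat_lit 5) (nat_lit 6) (nat_lit 175) (nat_lit 263) r0_175 r4_263 (nat_lit 37264364) (nat_lit 0) (nat_lit 0) (nat_lit 0x1f17bb394) (nat_lit 321311370),
  Rx.mk (nat_lit 344) (nat_lit 0) (nat_lit 3) (nat_lit 5) (nat_lit 6) (nat_lit 176) (nat_lit 264) r0_176 r4_264 (nat_lit 105491124) (nat_lit 0) (nat_lit 0) (nat_lit 0x1b7455748) (nat_lit 451196430)]
noncomputable def e0_25 : List Rx := [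
  Rx.mk (nat_lit 64) (nat_lit 0) (nat_lit 0) (nat_lit 1) (nat_lit 4) (nat_lit 178) (nat_lit 57) r0_178 r7_57 (nat_lit 716691) (nat_lit 254935) (nat_lit 0) (nat_lit 0x19bbb53e2) (nat_lit 375922732),
  Rx.mk (nat_lit 66) (nat_lit 2) (nat_lit 0) (nat_lit 1) (nat_lit 5) (nat_lit 182) (nat_lit 58) r0_182 r7_58 (nat_lit 0) (nat_lit 2189607) (nat_lit 0) (nat_lit 0x1fe25deee) (nat_lit 272854513),
  Rx.mk (nat_lit 72) (nat_lit 0) (nat_lit 1) (nat_lit 1) (nat_lit 6) (nat_lit 180) (nat_lit 60) r0_180 r7_60 (nat_lit 8466862) (nat_lit 0) (nat_lit 0) (nat_lit 0x1df10845a) (nat_lit 312056868),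
  Rx.mk (nat_lit 74) (nat_lit 2) (nat_lit 1) (nat_lit 1) (nat_lit 7) (nat_lit 183) (nat_lit 61) r0_183 r7_61 (nat_lit 0) (nat_lit 0) (nat_lit 0) (nat_lit 0x2069e1e9c) (nat_lit 261918006),
  Rx.mk (nat_lit 88) (nat_lit 0) (nat_lit 3) (nat_lit 1) (nat_lit 6) (nat_lit 181) (nat_lit 62) r0_181 r7_62 (nat_lit 57895491) (nat_lit 0) (nat_lit 0) (nat_lit 0x20dbef6b0) (nat_lit 312330647),
  Rx.mk (nat_lit 90) (nat_lit 2) (nat_lit 3) (nat_lit 1) (nat_lit 7) (nat_lit 184) (nat_lit 63) r0_184 r7_63 (nat_lit 0) (nat_lit 0) (nat_lit 0) (nat_lit 0x2120dae14) (nat_lit 250172056),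
  Rx.mk (nat_lit 320) (nat_lit 0) (nat_lit 0) (nat_lit 5) (nat_lit 4) (nat_lit 177) (nat_lit 56) r0_177 r7_56 (nat_lit 3352025) (nat_lit 236105) (nat_lit 0) (nat_lit 0x15ef65efc) (nat_lit 443065536),
  Rx.mk (nat_lit 328) (nat_lit 0) (nat_lit 1) (nat_lit 5) (nat_lit 6) (nat_lit 179) (nat_lit 59) r0_179 r7_59 (nat_lit 2435671) (nat_lit 0) (nat_lit 0) (nat_lit 0x1813fca48) (nat_lit 405583127)]
noncomputable def e0_26 : List Rx := [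
  Rx.mk (nat_lit 72) (nat_lit 0) (nat_lit 1) (nat_lit 1) (nat_lit 6) (nat_lit 186) (nat_lit 64) r0_186 r8_64 (nat_lit 7212426) (nat_lit 0) (nat_lit 0) (nat_lit 0x1f5198ca6) (nat_lit 287452482),
  Rx.mk (nat_lit 74) (nat_lit 2) (nat_lit 1) (nat_lit 1) (nat_lit 7) (nat_lit 187) (nat_lit 65) r0_187 r8_65 (nat_lit 0) (nat_lit 0) (nat_lit 0) (nat_lit 0x20394b670) (nat_lit 265061156),
  Rx.mk (nat_lit 328) (nat_lit 0) (nat_lit 1) (nat_lit 5) (nat_lit 6) (nat_lit 185) (nat_lit 63) r0_185 r8_63 (nat_lit 7783153) (nat_lit 0) (nat_lit 0) (nat_lit 0x1c7520078) (nat_lit 336577359)]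
noncomputable def e0_27 : List Rx := [
  Rx.mk (nat_lit 64) (nat_lit 0) (nat_lit 0) (nat_lit 1) (nat_lit 4) (nat_lit 188) (nat_lit 241) r0_188 r8_241 (nat_lit 7060541) (nat_lit 3895157) (nat_lit 0) (nat_lit 0x16494bc14) (nat_lit 444572854),
  Rx.mk (nat_lit 66) (nat_lit 2) (nat_lit 0) (nat_lit 1) (nat_lit 5) (nat_lit 191) (nat_lit 244) r0_191 r8_244 (nat_lit 0) (nat_lit 5196417) (nat_lit 0) (nat_lit 0x1fa15acb2) (nat_lit 280172673),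
  Rx.mk (nat_lit 72) (nat_lit 0) (nat_lit 1) (nat_lit 1) (nat_lit 6) (nat_lit 189) (nat_lit 242) r0_189 r8_242 (nat_lit 7988855) (nat_lit 0) (nat_lit 0) (nat_lit 0x1dd308112) (nat_lit 313579111),
  Rx.mk (nat_lit 74) (nat_lit 2) (nat_lit 1) (nat_lit 1) (nat_lit 7) (nat_lit 192) (nat_lit 245) r0_192 r8_245 (nat_lit 0) (nat_lit 0) (nat_lit 0) (nat_lit 0x201316b9e) (nat_lit 267545656),
  Rx.mk (nat_lit 82) (nat_lit 2) (nat_lit 2) (nat_lit 1) (nat_lit 7) (nat_lit 193) (nat_lit 247) r0_193 r8_247 (nat_lit 0) (nat_lit 0) (nat_lit 0) (nat_lit 0x20056d4f2) (nat_lit 268435456),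
  Rx.mk (nat_lit 88) (nat_lit 0) (nat_lit 3) (nat_lit 1) (nat_lit 6) (nat_lit 190) (nat_lit 243) r0_190 r8_243 (nat_lit 56857679) (nat_lit 0) (nat_lit 0) (nat_lit 0x1feec1780) (nat_lit 326737435),
  Rx.mk (nat_lit 90) (nat_lit 2) (nat_lit 3) (nat_lit 1) (nat_lit 7) (nat_lit 194) (nat_lit 246) r0_194 r8_246 (nat_lit 0) (nat_lit 0) (nat_lit 0) (nat_lit 0x201316b9e) (nat_lit 267545656)]
noncomputable def e0_28 : List Rx := [
  Rx.mk (nat_lit 88) (nat_lit 0) (nat_lit 3) (nat_lit 1) (nat_lit 6) (nat_lit 198) (nat_lit 47) r0_198 r10_47 (nat_lit 55056773) (nat_lit 0) (nat_lit 0) (nat_lit 0x212627822) (nat_lit 304746579),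
  Rx.mk (nat_lit 90) (nat_lit 2) (nat_lit 3) (nat_lit 1) (nat_lit 7) (nat_lit 199) (nat_lit 48) r0_199 r10_48 (nat_lit 0) (nat_lit 0) (nat_lit 0) (nat_lit 0x20d426d7a) (nat_lit 255090656),
  Rx.mk (nat_lit 320) (nat_lit 0) (nat_lit 0) (nat_lit 5) (nat_lit 4) (nat_lit 195) (nat_lit 44) r0_195 r10_44 (nat_lit 895600) (nat_lit 241321) (nat_lit 0) (nat_lit 0x16b880cd8) (nat_lit 427279577),
  Rx.mk (nat_lit 328) (nat_lit 0) (nat_lit 1) (nat_lit 5) (nat_lit 6) (nat_lit 196) (nat_lit 45) r0_196 r10_45 (nat_lit 3476048) (nat_lit 0) (nat_lit 0) (nat_lit 0x1aa52c732) (nat_lit 363037754),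
  Rx.mk (nat_lit 344) (nat_lit 0) (nat_lit 3) (nat_lit 5) (nat_lit 6) (nat_lit 197) (nat_lit 46) r0_197 r10_46 (nat_lit 83120058) (nat_lit 0) (nat_lit 0) (nat_lit 0x201ce892e) (nat_lit 349914064)]
noncomputable def e0_29 : List Rx := [
  Rx.mk (nat_lit 320) (nat_lit 0) (nat_lit 0) (nat_lit 5) (nat_lit 4) (nat_lit 200) (nat_lit 37) r0_200 r11_37 (nat_lit 54732365) (nat_lit 6365539) (nat_lit 0) (nat_lit 0x1c36966d6) (nat_lit 394034560),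
  Rx.mk (nat_lit 328) (nat_lit 0) (nat_lit 1) (nat_lit 5) (nat_lit 6) (nat_lit 201) (nat_lit 38) r0_201 r11_38 (nat_lit 10035955) (nat_lit 0) (nat_lit 0) (nat_lit 0x20209cdc2) (nat_lit 276689911),
  Rx.mk (nat_lit 344) (nat_lit 0) (nat_lit 3) (nat_lit 5) (nat_lit 6) (nat_lit 202) (nat_lit 39) r0_202 r11_39 (nat_lit 57779837) (nat_lit 0) (nat_lit 0) (nat_lit 0x2087d0944) (nat_lit 317723493),
  Rx.mk (nat_lit 347) (nat_lit 3) (nat_lit 3) (nat_lit 5) (nat_lit 7) (nat_lit 203) (nat_lit 40) r0_203 r11_40 (nat_lit 0) (nat_lit 0) (nat_lit 0) (nat_lit 0x2192e072a) (nat_lit 242862556)]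
noncomputable def e0_30 : List Rx := [
  Rx.mk (nat_lit 291) (nat_lit 3) (nat_lit 4) (nat_lit 4) (nat_lit 1) (nat_lit 209) (nat_lit 95) r0_209 r5_95 (nat_lit 0) (nat_lit 2742) (nat_lit 2166) (nat_lit 0x1ffe6a894) (nat_lit 268546314),
  Rx.mk (nat_lit 295) (nat_lit 7) (nat_lit 4) (nat_lit 4) (nat_lit 1) (nat_lit 204) (nat_lit 94) r0_204 r5_94 (nat_lit 0) (nat_lit 4376312) (nat_lit 68266) (nat_lit 0x2011af8e6) (nat_lit 271776584),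
  Rx.mk (nat_lit 315) (nat_lit 3) (nat_lit 7) (nat_lit 4) (nat_lit 3) (nat_lit 210) (nat_lit 96) r0_210 r5_96 (nat_lit 0) (nat_lit 0) (nat_lit 1935890) (nat_lit 0x20e2c5174) (nat_lit 256065246),
  Rx.mk (nat_lit 423) (nat_lit 7) (nat_lit 4) (nat_lit 6) (nat_lit 5) (nat_lit 205) (nat_lit 100) r0_205 r5_100 (nat_lit 0) (nat_lit 51585995) (nat_lit 0) (nat_lit 0x1f40b1c8a) (nat_lit 332930751),
  Rx.mk (nat_lit 439) (nat_lit 7) (nat_lit 6) (nat_lit 6) (nat_lit 7) (nat_lit 206) (nat_lit 101) r0_206 r5_101 (nat_lit 0) (nat_lit 0) (nat_lit 0) (nat_lit 0x1fbe83a50) (nat_lit 273060756),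
  Rx.mk (nat_lit 472) (nat_lit 0) (nat_lit 3) (nat_lit 7) (nat_lit 6) (nat_lit 208) (nat_lit 99) r0_208 r5_99 (nat_lit 4120485) (nat_lit 0) (nat_lit 0) (nat_lit 0x1d90add30) (nat_lit 314093041),
  Rx.mk (nat_lit 504) (nat_lit 0) (nat_lit 7) (nat_lit 7) (nat_lit 6) (nat_lit 207) (nat_lit 97) r0_207 r5_97 (nat_lit 3102681) (nat_lit 0) (nat_lit 0) (nat_lit 0x1aefd6c10) (nat_lit 357710387),
  Rx.mk (nat_lit 507) (nat_lit 3) (nat_lit 7) (nat_lit 7) (nat_lit 7) (nat_lit 211) (nat_lit 98) r0_211 r5_98 (nat_lit 0) (nat_lit 0) (nat_lit 0) (nat_lit 0x205a0ba36) (nat_lit 262948156)]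
noncomputable def e0_31 : List Rx := [
  Rx.mk (nat_lit 216) (nat_lit 0) (nat_lit 3) (nat_lit 3) (nat_lit 6) (nat_lit 217) (nat_lit 99) r0_217 r11_99 (nat_lit 3688724) (nat_lit 0) (nat_lit 0) (nat_lit 0x1c9ff7bde) (nat_lit 329624030),
  Rx.mk (nat_lit 218) (nat_lit 2) (nat_lit 3) (nat_lit 3) (nat_lit 7) (nat_lit 218) (nat_lit 100) r0_218 r11_100 (nat_lit 0) (nat_lit 0) (nat_lit 0) (nat_lit 0x20f100a7c) (nat_lit 253219156),
  Rx.mk (nat_lit 291) (nat_lit 3) (nat_lit 4) (nat_lit 4) (nat_lit 1) (nat_lit 219) (nat_lit 92) r0_219 r11_92 (nat_lit 0) (nat_lit 957999) (nat_lit 860787) (nat_lit 0x1be3394ac) (nat_lit 340229592),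
  Rx.mk (nat_lit 295) (nat_lit 7) (nat_lit 4) (nat_lit 4) (nat_lit 1) (nat_lit 212) (nat_lit 91) r0_212 r11_91 (nat_lit 0) (nat_lit 35579357) (nat_lit 5847755) (nat_lit 0x1cf126118) (nat_lit 361977668),
  Rx.mk (nat_lit 315) (nat_lit 3) (nat_lit 7) (nat_lit 4) (nat_lit 3) (nat_lit 220) (nat_lit 93) r0_220 r11_93 (nat_lit 0) (nat_lit 0) (nat_lit 5308544) (nat_lit 0x2021b8a8a) (nat_lit 271891250),
  Rx.mk (nat_lit 423) (nat_lit 7) (nat_lit 4) (nat_lit 6) (nat_lit 5) (nat_lit 213) (nat_lit 97) r0_213 r11_97 (nat_lit 0) (nat_lit 54099943) (nat_lit 0) (nat_lit 0x1fab0666c) (nat_lit 328440049),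
  Rx.mk (nat_lit 439) (nat_lit 7) (nat_lit 6) (nat_lit 6) (nat_lit 7) (nat_lit 214) (nat_lit 98) r0_214 r11_98 (nat_lit 0) (nat_lit 0) (nat_lit 0) (nat_lit 0x20a84f7ce) (nat_lit 257886656),
  Rx.mk (nat_lit 472) (nat_lit 0) (nat_lit 3) (nat_lit 7) (nat_lit 6) (nat_lit 216) (nat_lit 96) r0_216 r11_96 (nat_lit 4286271) (nat_lit 0) (nat_lit 0) (nat_lit 0x1fec0acda) (nat_lit 274349477),
  Rx.mk (nat_lit 504) (nat_lit 0) (nat_lit 7) (nat_lit 7) (nat_lit 6) (nat_lit 215) (nat_lit 94) r0_215 r11_94 (nat_lit 3907448) (nat_lit 0) (nat_lit 0) (nat_lit 0x1f0b7289e) (nat_lit 288775154),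
  Rx.mk (nat_lit 507) (nat_lit 3) (nat_lit 7) (nat_lit 7) (nat_lit 7) (nat_lit 221) (nat_lit 95) r0_221 r11_95 (nat_lit 0) (nat_lit 0) (nat_lit 0) (nat_lit 0x20380ccaa) (nat_lit 265146056)]
noncomputable def e0_32 : List Rx := [
  Rx.mk (nat_lit 344) (nat_lit 0) (nat_lit 3) (nat_lit 5) (nat_lit 6) (nat_lit 223) (nat_lit 277) r0_223 r6_277 (nat_lit 11115543) (nat_lit 0) (nat_lit 0) (nat_lit 0x1fdae8574) (nat_lit 282223849),
  Rx.mk (nat_lit 376) (nat_lit 0) (nat_lit 7) (nat_lit 5) (nat_lit 6) (nat_lit 222) (nat_lit 276) r0_222 r6_276 (nat_lit 6622) (nat_lit 0) (nat_lit 0) (nat_lit 0x241d4916c) (nat_lit 201098578)]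
noncomputable def e0_33 : List Rx := [
  Rx.mk (nat_lit 344) (nat_lit 0) (nat_lit 3) (nat_lit 5) (nat_lit 6) (nat_lit 224) (nat_lit 255) r0_224 r5_255 (nat_lit 33756998) (nat_lit 0) (nat_lit 0) (nat_lit 0x200009fc4) (nat_lit 302190604)]
noncomputable def e0_34 : List Rx := [
  Rx.mk (nat_lit 88) (nat_lit 0) (nat_lit 3) (nat_lit 1) (nat_lit 6) (nat_lit 226) (nat_lit 300) r0_226 r11_300 (nat_lit 5081711) (nat_lit 0) (nat_lit 0) (nat_lit 0x2067102b8) (nat_lit 267155117),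
  Rx.mk (nat_lit 90) (nat_lit 2) (nat_lit 3) (nat_lit 1) (nat_lit 7) (nat_lit 227) (nat_lit 301) r0_227 r11_301 (nat_lit 0) (nat_lit 0) (nat_lit 0) (nat_lit 0x217fdbd96) (nat_lit 244045156),
  Rx.mk (nat_lit 344) (nat_lit 0) (nat_lit 3) (nat_lit 5) (nat_lit 6) (nat_lit 225) (nat_lit 302) r0_225 r11_302 (nat_lit 4092761) (nat_lit 0) (nat_lit 0) (nat_lit 0x1e23b5f10) (nat_lit 304294217)]
noncomputable def e0_35 : List Rx := [
  Rx.mk (nat_lit 291) (nat_lit 3) (nat_lit 4) (nat_lit 4) (nat_lit 1) (nat_lit 232) (nat_lit 171) r0_232 r6_171 (nat_lit 0) (nat_lit 60415) (nat_lit 38610) (nat_lit 0x1ce8ca2c6) (nat_lit 321056381),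
  Rx.mk (nat_lit 312) (nat_lit 0) (nat_lit 7) (nat_lit 4) (nat_lit 2) (nat_lit 228) (nat_lit 173) r0_228 r6_173 (nat_lit 15494) (nat_lit 0) (nat_lit 16044) (nat_lit 0x1b76dfdd8) (nat_lit 345529294),
  Rx.mk (nat_lit 315) (nat_lit 3) (nat_lit 7) (nat_lit 4) (nat_lit 3) (nat_lit 234) (nat_lit 174) r0_234 r6_174 (nat_lit 0) (nat_lit 0) (nat_lit 2963373) (nat_lit 0x207a0588c) (nat_lit 263834079),
  Rx.mk (nat_lit 355) (nat_lit 3) (nat_lit 4) (nat_lit 5) (nat_lit 5) (nat_lit 233) (nat_lit 172) r0_233 r6_172 (nat_lit 0) (nat_lit 131306) (nat_lit 0) (nat_lit 0x22f04eb90) (nat_lit 220495462),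
  Rx.mk (nat_lit 376) (nat_lit 0) (nat_lit 7) (nat_lit 5) (nat_lit 6) (nat_lit 229) (nat_lit 175) r0_229 r6_175 (nat_lit 976590) (nat_lit 0) (nat_lit 0) (nat_lit 0x234d34814) (nat_lit 215456696),
  Rx.mk (nat_lit 379) (nat_lit 3) (nat_lit 7) (nat_lit 5) (nat_lit 7) (nat_lit 235) (nat_lit 176) r0_235 r6_176 (nat_lit 0) (nat_lit 0) (nat_lit 0) (nat_lit 0x2506d06b4) (nat_lit 186321856),
  Rx.mk (nat_lit 472) (nat_lit 0) (nat_lit 3) (nat_lit 7) (nat_lit 6) (nat_lit 231) (nat_lit 170) r0_231 r6_170 (nat_lit 2529310) (nat_lit 0) (nat_lit 0) (nat_lit 0x1e4d6bdfa) (nat_lit 299976366),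
  Rx.mk (nat_lit 504) (nat_lit 0) (nat_lit 7) (nat_lit 7) (nat_lit 6) (nat_lit 230) (nat_lit 177) r0_230 r6_177 (nat_lit 3977399) (nat_lit 0) (nat_lit 0) (nat_lit 0x1d9bca592) (nat_lit 313213855)]
noncomputable def e0_36 : List Rx := [
  Rx.mk (nat_lit 280) (nat_lit 0) (nat_lit 3) (nat_lit 4) (nat_lit 2) (nat_lit 238) (nat_lit 0) r0_238 r12_0 (nat_lit 96469) (nat_lit 0) (nat_lit 65380) (nat_lit 0x18a8c6ef8) (nat_lit 393333155),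
  Rx.mk (nat_lit 312) (nat_lit 0) (nat_lit 7) (nat_lit 4) (nat_lit 2) (nat_lit 236) (nat_lit 3) r0_236 r12_3 (nat_lit 17287) (nat_lit 0) (nat_lit 13849) (nat_lit 0x1a39bb7e6) (nat_lit 366576142),
  Rx.mk (nat_lit 315) (nat_lit 3) (nat_lit 7) (nat_lit 4) (nat_lit 3) (nat_lit 241) (nat_lit 5) r0_241 r12_5 (nat_lit 0) (nat_lit 0) (nat_lit 1422249) (nat_lit 0x20c524b88) (nat_lit 257436105),
  Rx.mk (nat_lit 344) (nat_lit 0) (nat_lit 3) (nat_lit 5) (nat_lit 6) (nat_lit 239) (nat_lit 1) r0_239 r12_1 (nat_lit 4326039) (nat_lit 0) (nat_lit 0) (nat_lit 0x1f34cc8b6) (nat_lit 286329845),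
  Rx.mk (nat_lit 376) (nat_lit 0) (nat_lit 7) (nat_lit 5) (nat_lit 6) (nat_lit 237) (nat_lit 4) r0_237 r12_4 (nat_lit 11007) (nat_lit 0) (nat_lit 0) (nat_lit 0x23e1eb872) (nat_lit 204899413),
  Rx.mk (nat_lit 379) (nat_lit 3) (nat_lit 7) (nat_lit 5) (nat_lit 7) (nat_lit 242) (nat_lit 6) r0_242 r12_6 (nat_lit 0) (nat_lit 0) (nat_lit 0) (nat_lit 0x2607f22a8) (nat_lit 169854606),
  Rx.mk (nat_lit 472) (nat_lit 0) (nat_lit 3) (nat_lit 7) (nat_lit 6) (nat_lit 240) (nat_lit 2) r0_240 r12_2 (nat_lit 826648) (nat_lit 0) (nat_lit 0) (nat_lit 0x1cf75fa98) (nat_lit 320912104)]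
noncomputable def e0_37 : List Rx := [
  Rx.mk (nat_lit 289) (nat_lit 1) (nat_lit 4) (nat_lit 4) (nat_lit 1) (nat_lit 244) (nat_lit 244) r0_244 r0_244 (nat_lit 0) (nat_lit 9523361) (nat_lit 9523361) (nat_lit 0x1988e760e) (nat_lit 397472878),
  Rx.mk (nat_lit 297) (nat_lit 1) (nat_lit 5) (nat_lit 4) (nat_lit 3) (nat_lit 246) (nat_lit 245) r0_246 r0_245 (nat_lit 0) (nat_lit 0) (nat_lit 3631069) (nat_lit 0x1c89360e4) (nat_lit 331088925),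
  Rx.mk (nat_lit 353) (nat_lit 1) (nat_lit 4) (nat_lit 5) (nat_lit 5) (nat_lit 245) (nat_lit 246) r0_245 r0_246 (nat_lit 0) (nat_lit 3631069) (nat_lit 0) (nat_lit 0x1c89360e4) (nat_lit 331088925),
  Rx.mk (nat_lit 360) (nat_lit 0) (nat_lit 5) (nat_lit 5) (nat_lit 6) (nat_lit 243) (nat_lit 243) r0_243 r0_243 (nat_lit 153426111) (nat_lit 0) (nat_lit 0) (nat_lit 0x203cc5ea4) (nat_lit 417977017),
  Rx.mk (nat_lit 361) (nat_lit 1) (nat_lit 5) (nat_lit 5) (nat_lit 7) (nat_lit 247) (nat_lit 247) r0_247 r0_247 (nat_lit 0) (nat_lit 0) (nat_lit 0) (nat_lit 0x1ef9a2efc) (nat_lit 286047556)]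
noncomputable def e0_38 : List Rx := [
  Rx.mk (nat_lit 289) (nat_lit 1) (nat_lit 4) (nat_lit 4) (nat_lit 1) (nat_lit 248) (nat_lit 171) r0_248 r0_171 (nat_lit 0) (nat_lit 205064910) (nat_lit 748) (nat_lit 0x200021610) (nat_lit 473493114),
  Rx.mk (nat_lit 353) (nat_lit 1) (nat_lit 4) (nat_lit 5) (nat_lit 5) (nat_lit 249) (nat_lit 172) r0_249 r0_172 (nat_lit 0) (nat_lit 120058012) (nat_lit 0) (nat_lit 0x1f4928120) (nat_lit 400822818)]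
noncomputable def e0_39 : List Rx := [
  Rx.mk (nat_lit 289) (nat_lit 1) (nat_lit 4) (nat_lit 4) (nat_lit 1) (nat_lit 250) (nat_lit 315) r0_250 r7_315 (nat_lit 0) (nat_lit 12632886) (nat_lit 6883560) (nat_lit 0x199f2c586) (nat_lit 396447552),
  Rx.mk (nat_lit 297) (nat_lit 1) (nat_lit 5) (nat_lit 4) (nat_lit 3) (nat_lit 252) (nat_lit 316) r0_252 r7_316 (nat_lit 0) (nat_lit 0) (nat_lit 10632780) (nat_lit 0x1d6c3a8b8) (nat_lit 323047586),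
  Rx.mk (nat_lit 353) (nat_lit 1) (nat_lit 4) (nat_lit 5) (nat_lit 5) (nat_lit 251) (nat_lit 317) r0_251 r7_317 (nat_lit 0) (nat_lit 10930595) (nat_lit 0) (nat_lit 0x1f89b7ce0) (nat_lit 287476701),
  Rx.mk (nat_lit 361) (nat_lit 1) (nat_lit 5) (nat_lit 5) (nat_lit 7) (nat_lit 253) (nat_lit 318) r0_253 r7_318 (nat_lit 0) (nat_lit 0) (nat_lit 0) (nat_lit 0x201f393fe) (nat_lit 266751706)]
noncomputable def e0_40 : List Rx := [
  Rx.mk (nat_lit 293) (nat_lit 5) (nat_lit 4) (nat_lit 4) (nat_lit 1) (nat_lit 254) (nat_lit 180) r0_254 r2_180 (nat_lit 0) (nat_lit 23860633) (nat_lit 7936988) (nat_lit 0x160a0e9fc) (nat_lit 469629927),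
  Rx.mk (nat_lit 421) (nat_lit 5) (nat_lit 4) (nat_lit 6) (nat_lit 5) (nat_lit 255) (nat_lit 181) r0_255 r2_181 (nat_lit 0) (nat_lit 24694302) (nat_lit 0) (nat_lit 0x1f1cd48f8) (nat_lit 308430658),
  Rx.mk (nat_lit 437) (nat_lit 5) (nat_lit 6) (nat_lit 6) (nat_lit 7) (nat_lit 256) (nat_lit 182) r0_256 r2_182 (nat_lit 0) (nat_lit 0) (nat_lit 0) (nat_lit 0x20056d4f2) (nat_lit 268435456)]
noncomputable def e0_41 : List Rx := [
  Rx.mk (nat_lit 293) (nat_lit 5) (nat_lit 4) (nat_lit 4) (nat_lit 1) (nat_lit 257) (nat_lit 155) r0_257 r9_155 (nat_lit 0) (nat_lit 18008547) (nat_lit 20380427) (nat_lit 0x1563465ca) (nat_lit 487295780),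
  Rx.mk (nat_lit 301) (nat_lit 5) (nat_lit 5) (nat_lit 4) (nat_lit 3) (nat_lit 259) (nat_lit 157) r0_259 r9_157 (nat_lit 0) (nat_lit 0) (nat_lit 12763209) (nat_lit 0x1dbc643f2) (nat_lit 319863465),
  Rx.mk (nat_lit 421) (nat_lit 5) (nat_lit 4) (nat_lit 6) (nat_lit 5) (nat_lit 258) (nat_lit 156) r0_258 r9_156 (nat_lit 0) (nat_lit 9484367) (nat_lit 0) (nat_lit 0x1fda6c1c2) (nat_lit 280725973),
  Rx.mk (nat_lit 429) (nat_lit 5) (nat_lit 5) (nat_lit 6) (nat_lit 7) (nat_lit 260) (nat_lit 158) r0_260 r9_158 (nat_lit 0) (nat_lit 0) (nat_lit 0) (nat_lit 0x20056d4f2) (nat_lit 268435456),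
  Rx.mk (nat_lit 437) (nat_lit 5) (nat_lit 6) (nat_lit 6) (nat_lit 7) (nat_lit 261) (nat_lit 159) r0_261 r9_159 (nat_lit 0) (nat_lit 0) (nat_lit 0) (nat_lit 0x20056d4f2) (nat_lit 268435456)]
noncomputable def e0_42 : List Rx := [
  Rx.mk (nat_lit 293) (nat_lit 5) (nat_lit 4) (nat_lit 4) (nat_lit 1) (nat_lit 262) (nat_lit 65) r0_262 r9_65 (nat_lit 0) (nat_lit 37964627) (nat_lit 14858526) (nat_lit 0x17568cdc8) (nat_lit 468596959),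
  Rx.mk (nat_lit 421) (nat_lit 5) (nat_lit 4) (nat_lit 6) (nat_lit 5) (nat_lit 263) (nat_lit 66) r0_263 r9_66 (nat_lit 0) (nat_lit 23941176) (nat_lit 0) (nat_lit 0x1ecb07dd6) (nat_lit 313084132),
  Rx.mk (nat_lit 437) (nat_lit 5) (nat_lit 6) (nat_lit 6) (nat_lit 7) (nat_lit 264) (nat_lit 67) r0_264 r9_67 (nat_lit 0) (nat_lit 0) (nat_lit 0) (nat_lit 0x1ff25243a) (nat_lit 269680706)]
noncomputable def e0_43 : List Rx := [
  Rx.mk (nat_lit 289) (nat_lit 1) (nat_lit 4) (nat_lit 4) (nat_lit 1) (nat_lit 269) (nat_lit 179) r0_269 r1_179 (nat_lit 0) (nat_lit 224842397) (nat_lit 6663) (nat_lit 0x203c84418) (nat_lit 489417766),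
  Rx.mk (nat_lit 293) (nat_lit 5) (nat_lit 4) (nat_lit 4) (nat_lit 1) (nat_lit 265) (nat_lit 180) r0_265 r1_180 (nat_lit 0) (nat_lit 27431001) (nat_lit 2915443) (nat_lit 0x1aee862ac) (nat_lit 385035350),
  Rx.mk (nat_lit 353) (nat_lit 1) (nat_lit 4) (nat_lit 5) (nat_lit 5) (nat_lit 270) (nat_lit 181) r0_270 r1_181 (nat_lit 0) (nat_lit 31547541) (nat_lit 0) (nat_lit 0x20169be36) (nat_lit 298828947),
  Rx.mk (nat_lit 357) (nat_lit 5) (nat_lit 4) (nat_lit 5) (nat_lit 5) (nat_lit 266) (nat_lit 182) r0_266 r1_182 (nat_lit 0) (nat_lit 13498567) (nat_lit 0) (nat_lit 0x1febef980) (nat_lit 283586673),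
  Rx.mk (nat_lit 421) (nat_lit 5) (nat_lit 4) (nat_lit 6) (nat_lit 5) (nat_lit 267) (nat_lit 183) r0_267 r1_183 (nat_lit 0) (nat_lit 116538040) (nat_lit 0) (nat_lit 0x22883d93e) (nat_lit 343677296),
  Rx.mk (nat_lit 437) (nat_lit 5) (nat_lit 6) (nat_lit 6) (nat_lit 7) (nat_lit 268) (nat_lit 184) r0_268 r1_184 (nat_lit 0) (nat_lit 0) (nat_lit 0) (nat_lit 0x202a9392a) (nat_lit 265996306)]
noncomputable def e0_44 : List Rx := [
  Rx.mk (nat_lit 289) (nat_lit 1) (nat_lit 4) (nat_lit 4) (nat_lit 1) (nat_lit 278) (nat_lit 237) r0_278 r8_237 (nat_lit 0) (nat_lit 11550315) (nat_lit 4307608) (nat_lit 0x182dd78dc) (nat_lit 417310079),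
  Rx.mk (nat_lit 293) (nat_lit 5) (nat_lit 4) (nat_lit 4) (nat_lit 1) (nat_lit 271) (nat_lit 230) r0_271 r8_230 (nat_lit 0) (nat_lit 15685587) (nat_lit 24990952) (nat_lit 0x16ee57b22) (nat_lit 463363445),
  Rx.mk (nat_lit 297) (nat_lit 1) (nat_lit 5) (nat_lit 4) (nat_lit 3) (nat_lit 280) (nat_lit 238) r0_280 r8_238 (nat_lit 0) (nat_lit 0) (nat_lit 9900802) (nat_lit 0x1d302332a) (nat_lit 326302108),
  Rx.mk (nat_lit 301) (nat_lit 5) (nat_lit 5) (nat_lit 4) (nat_lit 3) (nat_lit 274) (nat_lit 231) r0_274 r8_231 (nat_lit 0) (nat_lit 0) (nat_lit 14687495) (nat_lit 0x1b66eebd6) (nat_lit 361425101),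
  Rx.mk (nat_lit 353) (nat_lit 1) (nat_lit 4) (nat_lit 5) (nat_lit 5) (nat_lit 279) (nat_lit 239) r0_279 r8_239 (nat_lit 0) (nat_lit 9484367) (nat_lit 0) (nat_lit 0x1fc24261e) (nat_lit 282306373),
  Rx.mk (nat_lit 357) (nat_lit 5) (nat_lit 4) (nat_lit 5) (nat_lit 5) (nat_lit 272) (nat_lit 232) r0_272 r8_232 (nat_lit 0) (nat_lit 13709057) (nat_lit 0) (nat_lit 0x1e6527020) (nat_lit 309616313),
  Rx.mk (nat_lit 361) (nat_lit 1) (nat_lit 5) (nat_lit 5) (nat_lit 7) (nat_lit 281) (nat_lit 240) r0_281 r8_240 (nat_lit 0) (nat_lit 0) (nat_lit 0) (nat_lit 0x2022bd70a) (nat_lit 266525506),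
  Rx.mk (nat_lit 365) (nat_lit 5) (nat_lit 5) (nat_lit 5) (nat_lit 7) (nat_lit 275) (nat_lit 233) r0_275 r8_233 (nat_lit 0) (nat_lit 0) (nat_lit 0) (nat_lit 0x1f8bb4142) (nat_lit 276413756),
  Rx.mk (nat_lit 421) (nat_lit 5) (nat_lit 4) (nat_lit 6) (nat_lit 5) (nat_lit 273) (nat_lit 234) r0_273 r8_234 (nat_lit 0) (nat_lit 9484367) (nat_lit 0) (nat_lit 0x1ffb35d36) (nat_lit 278585473),
  Rx.mk (nat_lit 429) (nat_lit 5) (nat_lit 5) (nat_lit 6) (nat_lit 7) (nat_lit 276) (nat_lit 235) r0_276 r8_235 (nat_lit 0) (nat_lit 0) (nat_lit 0) (nat_lit 0x1ff5fca0e) (nat_lit 269441006),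
  Rx.mk (nat_lit 437) (nat_lit 5) (nat_lit 6) (nat_lit 6) (nat_lit 7) (nat_lit 277) (nat_lit 236) r0_277 r8_236 (nat_lit 0) (nat_lit 0) (nat_lit 0) (nat_lit 0x20056d4f2) (nat_lit 268435456)]
noncomputable def e0_45 : List Rx := [
  Rx.mk (nat_lit 297) (nat_lit 1) (nat_lit 5) (nat_lit 4) (nat_lit 3) (nat_lit 283) (nat_lit 253) r0_283 r1_253 (nat_lit 0) (nat_lit 0) (nat_lit 8873187) (nat_lit 0x1ed1d1158) (nat_lit 297579593),
  Rx.mk (nat_lit 360) (nat_lit 0) (nat_lit 5) (nat_lit 5) (nat_lit 6) (nat_lit 282) (nat_lit 252) r0_282 r1_252 (nat_lit 168759698) (nat_lit 0) (nat_lit 0) (nat_lit 0x1fff69344) (nat_lit 437235604),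
  Rx.mk (nat_lit 361) (nat_lit 1) (nat_lit 5) (nat_lit 5) (nat_lit 7) (nat_lit 284) (nat_lit 254) r0_284 r1_254 (nat_lit 0) (nat_lit 0) (nat_lit 0) (nat_lit 0x1f99bebe8) (nat_lit 275482756)]
noncomputable def e0_46 : List Rx := [
  Rx.mk (nat_lit 328) (nat_lit 0) (nat_lit 1) (nat_lit 5) (nat_lit 6) (nat_lit 286) (nat_lit 277) r0_286 r2_277 (nat_lit 12544226) (nat_lit 0) (nat_lit 0) (nat_lit 0x1eee011d4) (nat_lit 299367132),
  Rx.mk (nat_lit 329) (nat_lit 1) (nat_lit 1) (nat_lit 5) (nat_lit 7) (nat_lit 288) (nat_lit 279) r0_288 r2_279 (nat_lit 0) (nat_lit 0) (nat_lit 0) (nat_lit 0x20056d4f2) (nat_lit 268435456),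
  Rx.mk (nat_lit 360) (nat_lit 0) (nat_lit 5) (nat_lit 5) (nat_lit 6) (nat_lit 285) (nat_lit 276) r0_285 r2_276 (nat_lit 58461491) (nat_lit 0) (nat_lit 0) (nat_lit 0x1c9e814b2) (nat_lit 384503097),
  Rx.mk (nat_lit 361) (nat_lit 1) (nat_lit 5) (nat_lit 5) (nat_lit 7) (nat_lit 287) (nat_lit 278) r0_287 r2_278 (nat_lit 0) (nat_lit 0) (nat_lit 0) (nat_lit 0x20056d4f2) (nat_lit 268435456)]
noncomputable def e0_47 : List Rx := [
  Rx.mk (nat_lit 297) (nat_lit 1) (nat_lit 5) (nat_lit 4) (nat_lit 3) (nat_lit 289) (nat_lit 178) r0_289 r8_178 (nat_lit 0) (nat_lit 0) (nat_lit 10787644) (nat_lit 0x1b3ca9fb0) (nat_lit 360329100),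
  Rx.mk (nat_lit 361) (nat_lit 1) (nat_lit 5) (nat_lit 5) (nat_lit 7) (nat_lit 290) (nat_lit 179) r0_290 r8_179 (nat_lit 0) (nat_lit 0) (nat_lit 0) (nat_lit 0x1ffe905b2) (nat_lit 268882256)]
noncomputable def e0_48 : List Rx := [
  Rx.mk (nat_lit 329) (nat_lit 1) (nat_lit 1) (nat_lit 5) (nat_lit 7) (nat_lit 292) (nat_lit 249) r0_292 r9_249 (nat_lit 0) (nat_lit 0) (nat_lit 0) (nat_lit 0x20056d4f2) (nat_lit 268435456),
  Rx.mk (nat_lit 361) (nat_lit 1) (nat_lit 5) (nat_lit 5) (nat_lit 7) (nat_lit 291) (nat_lit 248) r0_291 r9_248 (nat_lit 0) (nat_lit 0) (nat_lit 0) (nat_lit 0x20056d4f2) (nat_lit 268435456)]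
noncomputable def e0_49 : List Rx := [
  Rx.mk (nat_lit 72) (nat_lit 0) (nat_lit 1) (nat_lit 1) (nat_lit 6) (nat_lit 295) (nat_lit 250) r0_295 r9_250 (nat_lit 10061420) (nat_lit 0) (nat_lit 0) (nat_lit 0x1f3c8879e) (nat_lit 291701226),
  Rx.mk (nat_lit 73) (nat_lit 1) (nat_lit 1) (nat_lit 1) (nat_lit 7) (nat_lit 298) (nat_lit 251) r0_298 r9_251 (nat_lit 0) (nat_lit 0) (nat_lit 0) (nat_lit 0x20056d4f2) (nat_lit 268435456),
  Rx.mk (nat_lit 74) (nat_lit 2) (nat_lit 1) (nat_lit 1) (nat_lit 7) (nat_lit 299) (nat_lit 252) r0_299 r9_252 (nat_lit 0) (nat_lit 0) (nat_lit 0) (nat_lit 0x20056d4f2) (nat_lit 268435456),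
  Rx.mk (nat_lit 328) (nat_lit 0) (nat_lit 1) (nat_lit 5) (nat_lit 6) (nat_lit 294) (nat_lit 253) r0_294 r9_253 (nat_lit 11334893) (nat_lit 0) (nat_lit 0) (nat_lit 0x1e2457aea) (nat_lit 311539649),
  Rx.mk (nat_lit 329) (nat_lit 1) (nat_lit 1) (nat_lit 5) (nat_lit 7) (nat_lit 297) (nat_lit 255) r0_297 r9_255 (nat_lit 0) (nat_lit 0) (nat_lit 0) (nat_lit 0x20056d4f2) (nat_lit 268435456),
  Rx.mk (nat_lit 360) (nat_lit 0) (nat_lit 5) (nat_lit 5) (nat_lit 6) (nat_lit 293) (nat_lit 254) r0_293 r9_254 (nat_lit 10725362) (nat_lit 0) (nat_lit 0) (nat_lit 0x1be5b800c) (nat_lit 349044468),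
  Rx.mk (nat_lit 361) (nat_lit 1) (nat_lit 5) (nat_lit 5) (nat_lit 7) (nat_lit 296) (nat_lit 256) r0_296 r9_256 (nat_lit 0) (nat_lit 0) (nat_lit 0) (nat_lit 0x20056d4f2) (nat_lit 268435456)]
noncomputable def e0_50 : List Rx := [
  Rx.mk (nat_lit 289) (nat_lit 1) (nat_lit 4) (nat_lit 4) (nat_lit 1) (nat_lit 302) (nat_lit 245) r0_302 r3_245 (nat_lit 0) (nat_lit 825) (nat_lit 404) (nat_lit 0x1e41714e6) (nat_lit 298072835),
  Rx.mk (nat_lit 313) (nat_lit 1) (nat_lit 7) (nat_lit 4) (nat_lit 3) (nat_lit 304) (nat_lit 246) r0_304 r3_246 (nat_lit 0) (nat_lit 0) (nat_lit 655885) (nat_lit 0x1e5b1fe06) (nat_lit 297129541),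
  Rx.mk (nat_lit 352) (nat_lit 0) (nat_lit 4) (nat_lit 5) (nat_lit 4) (nat_lit 300) (nat_lit 243) r0_300 r3_243 (nat_lit 304) (nat_lit 142) (nat_lit 0) (nat_lit 0x20000c530) (nat_lit 268432952),
  Rx.mk (nat_lit 353) (nat_lit 1) (nat_lit 4) (nat_lit 5) (nat_lit 5) (nat_lit 303) (nat_lit 247) r0_303 r3_247 (nat_lit 0) (nat_lit 490321) (nat_lit 0) (nat_lit 0x1f1f55190) (nat_lit 283872577),
  Rx.mk (nat_lit 376) (nat_lit 0) (nat_lit 7) (nat_lit 5) (nat_lit 6) (nat_lit 301) (nat_lit 244) r0_301 r3_244 (nat_lit 44942) (nat_lit 0) (nat_lit 0) (nat_lit 0x1f4ac648c) (nat_lit 280510798),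
  Rx.mk (nat_lit 377) (nat_lit 1) (nat_lit 7) (nat_lit 5) (nat_lit 7) (nat_lit 305) (nat_lit 248) r0_305 r3_248 (nat_lit 0) (nat_lit 0) (nat_lit 0) (nat_lit 0x21de14764) (nat_lit 238010106)]
noncomputable def e0_51 : List Rx := [
  Rx.mk (nat_lit 289) (nat_lit 1) (nat_lit 4) (nat_lit 4) (nat_lit 1) (nat_lit 309) (nat_lit 256) r0_309 r4_256 (nat_lit 0) (nat_lit 14166006) (nat_lit 8049828) (nat_lit 0x1ae665b5e) (nat_lit 377442740),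
  Rx.mk (nat_lit 297) (nat_lit 1) (nat_lit 5) (nat_lit 4) (nat_lit 3) (nat_lit 311) (nat_lit 257) r0_311 r4_257 (nat_lit 0) (nat_lit 0) (nat_lit 10253547) (nat_lit 0x1fe86ff26) (nat_lit 280577553),
  Rx.mk (nat_lit 313) (nat_lit 1) (nat_lit 7) (nat_lit 4) (nat_lit 3) (nat_lit 313) (nat_lit 258) r0_313 r4_258 (nat_lit 0) (nat_lit 0) (nat_lit 5453470) (nat_lit 0x202795156) (nat_lit 271662226),
  Rx.mk (nat_lit 352) (nat_lit 0) (nat_lit 4) (nat_lit 5) (nat_lit 4) (nat_lit 306) (nat_lit 253) r0_306 r4_253 (nat_lit 19679101) (nat_lit 3903538) (nat_lit 0) (nat_lit 0x1db7e0f38) (nat_lit 330963295),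
  Rx.mk (nat_lit 353) (nat_lit 1) (nat_lit 4) (nat_lit 5) (nat_lit 5) (nat_lit 310) (nat_lit 259) r0_310 r4_259 (nat_lit 0) (nat_lit 8068535) (nat_lit 0) (nat_lit 0x1fcb5274a) (nat_lit 280275941),
  Rx.mk (nat_lit 360) (nat_lit 0) (nat_lit 5) (nat_lit 5) (nat_lit 6) (nat_lit 307) (nat_lit 254) r0_307 r4_254 (nat_lit 108297310) (nat_lit 0) (nat_lit 0) (nat_lit 0x1ec126d4e) (nat_lit 397937116),
  Rx.mk (nat_lit 361) (nat_lit 1) (nat_lit 5) (nat_lit 5) (nat_lit 7) (nat_lit 312) (nat_lit 260) r0_312 r4_260 (nat_lit 0) (nat_lit 0) (nat_lit 0) (nat_lit 0x20469ff42) (nat_lit 264200756),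
  Rx.mk (nat_lit 376) (nat_lit 0) (nat_lit 7) (nat_lit 5) (nat_lit 6) (nat_lit 308) (nat_lit 255) r0_308 r4_255 (nat_lit 12077193) (nat_lit 0) (nat_lit 0) (nat_lit 0x1ffd30320) (nat_lit 281032149),
  Rx.mk (nat_lit 377) (nat_lit 1) (nat_lit 7) (nat_lit 5) (nat_lit 7) (nat_lit 314) (nat_lit 261) r0_314 r4_261 (nat_lit 0) (nat_lit 0) (nat_lit 0) (nat_lit 0x2018d4ea0) (nat_lit 267171456)]
noncomputable def e0_52 : List Rx := [
  Rx.mk (nat_lit 313) (nat_lit 1) (nat_lit 7) (nat_lit 4) (nat_lit 3) (nat_lit 316) (nat_lit 253) r0_316 r5_253 (nat_lit 0) (nat_lit 0) (nat_lit 2390639) (nat_lit 0x1ff4c17e8) (nat_lit 271882995),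
  Rx.mk (nat_lit 376) (nat_lit 0) (nat_lit 7) (nat_lit 5) (nat_lit 6) (nat_lit 315) (nat_lit 252) r0_315 r5_252 (nat_lit 3242551) (nat_lit 0) (nat_lit 0) (nat_lit 0x2143dd650) (nat_lit 251117207),
  Rx.mk (nat_lit 377) (nat_lit 1) (nat_lit 7) (nat_lit 5) (nat_lit 7) (nat_lit 317) (nat_lit 254) r0_317 r5_254 (nat_lit 0) (nat_lit 0) (nat_lit 0) (nat_lit 0x2402ac98a) (nat_lit 202949906)]
noncomputable def e0_53 : List Rx := [
  Rx.mk (nat_lit 289) (nat_lit 1) (nat_lit 4) (nat_lit 4) (nat_lit 1) (nat_lit 318) (nat_lit 155) r0_318 r4_155 (nat_lit 0) (nat_lit 45897877) (nat_lit 682361) (nat_lit 0x1ac82f784) (nat_lit 403756194),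
  Rx.mk (nat_lit 313) (nat_lit 1) (nat_lit 7) (nat_lit 4) (nat_lit 3) (nat_lit 320) (nat_lit 157) r0_320 r4_157 (nat_lit 0) (nat_lit 0) (nat_lit 3950502) (nat_lit 0x1d80f113a) (nat_lit 314972808),
  Rx.mk (nat_lit 353) (nat_lit 1) (nat_lit 4) (nat_lit 5) (nat_lit 5) (nat_lit 319) (nat_lit 156) r0_319 r4_156 (nat_lit 0) (nat_lit 7646795) (nat_lit 0) (nat_lit 0x1fdee8e30) (nat_lit 278562101),
  Rx.mk (nat_lit 377) (nat_lit 1) (nat_lit 7) (nat_lit 5) (nat_lit 7) (nat_lit 321) (nat_lit 158) r0_321 r4_158 (nat_lit 0) (nat_lit 0) (nat_lit 0) (nat_lit 0x20aa8325c) (nat_lit 257764206)]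
noncomputable def e0_54 : List Rx := [
  Rx.mk (nat_lit 289) (nat_lit 1) (nat_lit 4) (nat_lit 4) (nat_lit 1) (nat_lit 322) (nat_lit 273) r0_322 r10_273 (nat_lit 0) (nat_lit 6194834) (nat_lit 3170624) (nat_lit 0x1b029a6a8) (nat_lit 362703714),
  Rx.mk (nat_lit 297) (nat_lit 1) (nat_lit 5) (nat_lit 4) (nat_lit 3) (nat_lit 324) (nat_lit 274) r0_324 r10_274 (nat_lit 0) (nat_lit 0) (nat_lit 11321562) (nat_lit 0x1f9064e3a) (nat_lit 287426518),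
  Rx.mk (nat_lit 313) (nat_lit 1) (nat_lit 7) (nat_lit 4) (nat_lit 3) (nat_lit 326) (nat_lit 275) r0_326 r10_275 (nat_lit 0) (nat_lit 0) (nat_lit 10331000) (nat_lit 0x1f9843af2) (nat_lit 285917906),
  Rx.mk (nat_lit 353) (nat_lit 1) (nat_lit 4) (nat_lit 5) (nat_lit 5) (nat_lit 323) (nat_lit 276) r0_323 r10_276 (nat_lit 0) (nat_lit 9422464) (nat_lit 0) (nat_lit 0x1fade9d48) (nat_lit 283582920),
  Rx.mk (nat_lit 361) (nat_lit 1) (nat_lit 5) (nat_lit 5) (nat_lit 7) (nat_lit 325) (nat_lit 277) r0_325 r10_277 (nat_lit 0) (nat_lit 0) (nat_lit 0) (nat_lit 0x202f5d6cc) (nat_lit 265708056),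
  Rx.mk (nat_lit 377) (nat_lit 1) (nat_lit 7) (nat_lit 5) (nat_lit 7) (nat_lit 327) (nat_lit 278) r0_327 r10_278 (nat_lit 0) (nat_lit 0) (nat_lit 0) (nat_lit 0x20056d4f2) (nat_lit 268435456)]
noncomputable def e0_55 : List Rx := [
  Rx.mk (nat_lit 313) (nat_lit 1) (nat_lit 7) (nat_lit 4) (nat_lit 3) (nat_lit 328) (nat_lit 298) r0_328 r11_298 (nat_lit 0) (nat_lit 0) (nat_lit 7056473) (nat_lit 0x20022dd1e) (nat_lit 275697279),
  Rx.mk (nat_lit 377) (nat_lit 1) (nat_lit 7) (nat_lit 5) (nat_lit 7) (nat_lit 329) (nat_lit 299) r0_329 r11_299 (nat_lit 0) (nat_lit 0) (nat_lit 0) (nat_lit 0x201fffcf2) (nat_lit 266705806)]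
noncomputable def e0_56 : List Rx := [
  Rx.mk (nat_lit 288) (nat_lit 0) (nat_lit 4) (nat_lit 4) (nat_lit 0) (nat_lit 330) (nat_lit 152) r0_330 r5_152 (nat_lit 439) (nat_lit 69835031) (nat_lit 473) (nat_lit 0x200002fd0) (nat_lit 338270949),
  Rx.mk (nat_lit 289) (nat_lit 1) (nat_lit 4) (nat_lit 4) (nat_lit 1) (nat_lit 335) (nat_lit 153) r0_335 r5_153 (nat_lit 0) (nat_lit 34829005) (nat_lit 4373304) (nat_lit 0x1d3bf12ec) (nat_lit 354784215),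
  Rx.mk (nat_lit 291) (nat_lit 3) (nat_lit 4) (nat_lit 4) (nat_lit 1) (nat_lit 340) (nat_lit 154) r0_340 r5_154 (nat_lit 0) (nat_lit 14285582) (nat_lit 530811) (nat_lit 0x1fcf982be) (nat_lit 286596799),
  Rx.mk (nat_lit 312) (nat_lit 0) (nat_lit 7) (nat_lit 4) (nat_lit 2) (nat_lit 332) (nat_lit 158) r0_332 r5_158 (nat_lit 3538416) (nat_lit 0) (nat_lit 2817616) (nat_lit 0x1c2323356) (nat_lit 340567738),
  Rx.mk (nat_lit 313) (nat_lit 1) (nat_lit 7) (nat_lit 4) (nat_lit 3) (nat_lit 337) (nat_lit 159) r0_337 r5_159 (nat_lit 0) (nat_lit 0) (nat_lit 4420229) (nat_lit 0x1f9a9dc12) (nat_lit 279829885),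
  Rx.mk (nat_lit 352) (nat_lit 0) (nat_lit 4) (nat_lit 5) (nat_lit 4) (nat_lit 331) (nat_lit 155) r0_331 r5_155 (nat_lit 4486587) (nat_lit 3310166) (nat_lit 0) (nat_lit 0x1fc554a14) (nat_lit 280349959),
  Rx.mk (nat_lit 353) (nat_lit 1) (nat_lit 4) (nat_lit 5) (nat_lit 5) (nat_lit 336) (nat_lit 156) r0_336 r5_156 (nat_lit 0) (nat_lit 10297258) (nat_lit 0) (nat_lit 0x1fb3eae4a) (nat_lit 284055964),
  Rx.mk (nat_lit 355) (nat_lit 3) (nat_lit 4) (nat_lit 5) (nat_lit 5) (nat_lit 341) (nat_lit 157) r0_341 r5_157 (nat_lit 0) (nat_lit 1426242) (nat_lit 0) (nat_lit 0x1f874fb24) (nat_lit 278037498),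
  Rx.mk (nat_lit 376) (nat_lit 0) (nat_lit 7) (nat_lit 5) (nat_lit 6) (nat_lit 333) (nat_lit 160) r0_333 r5_160 (nat_lit 5672723) (nat_lit 0) (nat_lit 0) (nat_lit 0x202926948) (nat_lit 271746229),
  Rx.mk (nat_lit 377) (nat_lit 1) (nat_lit 7) (nat_lit 5) (nat_lit 7) (nat_lit 338) (nat_lit 161) r0_338 r5_161 (nat_lit 0) (nat_lit 0) (nat_lit 0) (nat_lit 0x201dc6788) (nat_lit 266850056),
  Rx.mk (nat_lit 504) (nat_lit 0) (nat_lit 7) (nat_lit 7) (nat_lit 6) (nat_lit 334) (nat_lit 162) r0_334 r5_162 (nat_lit 7216955) (nat_lit 0) (nat_lit 0) (nat_lit 0x1d79975a6) (nat_lit 318736661),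
  Rx.mk (nat_lit 505) (nat_lit 1) (nat_lit 7) (nat_lit 7) (nat_lit 7) (nat_lit 339) (nat_lit 163) r0_339 r5_163 (nat_lit 0) (nat_lit 0) (nat_lit 0) (nat_lit 0x203fca38e) (nat_lit 264643506)]
noncomputable def e0_57 : List Rx := [
  Rx.mk (nat_lit 288) (nat_lit 0) (nat_lit 4) (nat_lit 4) (nat_lit 0) (nat_lit 342) (nat_lit 165) r0_342 r11_165 (nat_lit 5049713) (nat_lit 14627977) (nat_lit 8466519) (nat_lit 0x1785739c0) (nat_lit 440788215),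
  Rx.mk (nat_lit 289) (nat_lit 1) (nat_lit 4) (nat_lit 4) (nat_lit 1) (nat_lit 349) (nat_lit 166) r0_349 r11_166 (nat_lit 0) (nat_lit 30727633) (nat_lit 7338378) (nat_lit 0x1ea3cd702) (nat_lit 329808917),
  Rx.mk (nat_lit 291) (nat_lit 3) (nat_lit 4) (nat_lit 4) (nat_lit 1) (nat_lit 356) (nat_lit 167) r0_356 r11_167 (nat_lit 0) (nat_lit 12626977) (nat_lit 11130106) (nat_lit 0x1f556d688) (nat_lit 303736289),
  Rx.mk (nat_lit 296) (nat_lit 0) (nat_lit 5) (nat_lit 4) (nat_lit 2) (nat_lit 344) (nat_lit 171) r0_344 r11_171 (nat_lit 26026765) (nat_lit 0) (nat_lit 11117765) (nat_lit 0x1e895a6e0) (nat_lit 330636636),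
  Rx.mk (nat_lit 297) (nat_lit 1) (nat_lit 5) (nat_lit 4) (nat_lit 3) (nat_lit 351) (nat_lit 172) r0_351 r11_172 (nat_lit 0) (nat_lit 0) (nat_lit 9484367) (nat_lit 0x20056d4f2) (nat_lit 277919823),
  Rx.mk (nat_lit 299) (nat_lit 3) (nat_lit 5) (nat_lit 4) (nat_lit 3) (nat_lit 358) (nat_lit 173) r0_358 r11_173 (nat_lit 0) (nat_lit 0) (nat_lit 7551605) (nat_lit 0x2023d3d1a) (nat_lit 274003461),
  Rx.mk (nat_lit 312) (nat_lit 0) (nat_lit 7) (nat_lit 4) (nat_lit 2) (nat_lit 346) (nat_lit 177) r0_346 r11_177 (nat_lit 11887713) (nat_lit 0) (nat_lit 12075733) (nat_lit 0x1eb247a26) (nat_lit 314760552),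
  Rx.mk (nat_lit 313) (nat_lit 1) (nat_lit 7) (nat_lit 4) (nat_lit 3) (nat_lit 353) (nat_lit 178) r0_353 r11_178 (nat_lit 0) (nat_lit 0) (nat_lit 6887100) (nat_lit 0x2015d3daa) (nat_lit 274247906),
  Rx.mk (nat_lit 352) (nat_lit 0) (nat_lit 4) (nat_lit 5) (nat_lit 4) (nat_lit 343) (nat_lit 168) r0_343 r11_168 (nat_lit 47226542) (nat_lit 7618608) (nat_lit 0) (nat_lit 0x1f34ba8aa) (nat_lit 336986356),
  Rx.mk (nat_lit 353) (nat_lit 1) (nat_lit 4) (nat_lit 5) (nat_lit 5) (nat_lit 350) (nat_lit 169) r0_350 r11_169 (nat_lit 0) (nat_lit 9484367) (nat_lit 0) (nat_lit 0x20056d4f2) (nat_lit 277919823),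
  Rx.mk (nat_lit 355) (nat_lit 3) (nat_lit 4) (nat_lit 5) (nat_lit 5) (nat_lit 357) (nat_lit 170) r0_357 r11_170 (nat_lit 0) (nat_lit 5043943) (nat_lit 0) (nat_lit 0x20722e604) (nat_lit 266431999),
  Rx.mk (nat_lit 360) (nat_lit 0) (nat_lit 5) (nat_lit 5) (nat_lit 6) (nat_lit 345) (nat_lit 174) r0_345 r11_174 (nat_lit 39878874) (nat_lit 0) (nat_lit 0) (nat_lit 0x1f508030a) (nat_lit 320158280),
  Rx.mk (nat_lit 361) (nat_lit 1) (nat_lit 5) (nat_lit 5) (nat_lit 7) (nat_lit 352) (nat_lit 175) r0_352 r11_175 (nat_lit 0) (nat_lit 0) (nat_lit 0) (nat_lit 0x2027076bc) (nat_lit 266249356),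
  Rx.mk (nat_lit 363) (nat_lit 3) (nat_lit 5) (nat_lit 5) (nat_lit 7) (nat_lit 359) (nat_lit 176) r0_359 r11_176 (nat_lit 0) (nat_lit 0) (nat_lit 0) (nat_lit 0x210e26124) (nat_lit 251360656),
  Rx.mk (nat_lit 376) (nat_lit 0) (nat_lit 7) (nat_lit 5) (nat_lit 6) (nat_lit 347) (nat_lit 179) r0_347 r11_179 (nat_lit 9484367) (nat_lit 0) (nat_lit 0) (nat_lit 0x2059b896c) (nat_lit 272450673),
  Rx.mk (nat_lit 377) (nat_lit 1) (nat_lit 7) (nat_lit 5) (nat_lit 7) (nat_lit 354) (nat_lit 180) r0_354 r11_180 (nat_lit 0) (nat_lit 0) (nat_lit 0) (nat_lit 0x20056d4f2) (nat_lit 268435456),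
  Rx.mk (nat_lit 504) (nat_lit 0) (nat_lit 7) (nat_lit 7) (nat_lit 6) (nat_lit 348) (nat_lit 181) r0_348 r11_181 (nat_lit 9484367) (nat_lit 0) (nat_lit 0) (nat_lit 0x1f84a366e) (nat_lit 286360823),
  Rx.mk (nat_lit 505) (nat_lit 1) (nat_lit 7) (nat_lit 7) (nat_lit 7) (nat_lit 355) (nat_lit 182) r0_355 r11_182 (nat_lit 0) (nat_lit 0) (nat_lit 0) (nat_lit 0x202a4c502) (nat_lit 266036856)]
noncomputable def e0 : List (List Rx) := [e0_0, e0_1, e0_2, e0_3, e0_4, e0_5, e0_6, e0_7, e0_8, e0_9, e0_10, e0_11, e0_12, e0_13, e0_14, e0_15, e0_16, e0_17, e0_18, e0_19, e0_20, e0_21, e0_22, e0_23, e0_24, e0_25, e0_26, e0_27, e0_28, e0_29, e0_30, e0_31, e0_32, e0_33, e0_34, e0_35, e0_36, e0_37, e0_38, e0_39, e0_40, e0_41, e0_42, e0_43, e0_44, e0_45, e0_46, e0_47, e0_48, e0_49, e0_50, e0_51, e0_52, e0_53, e0_54, e0_55, e0_56, e0_57]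
noncomputable def e1_0 : List Rx := [
  Rx.mk (nat_lit 295) (nat_lit 7) (nat_lit 4) (nat_lit 4) (nat_lit 1) (nat_lit 2) (nat_lit 23) r1_2 r0_23 (nat_lit 0) (nat_lit 1901317) (nat_lit 1053210) (nat_lit 0x1d06fa732) (nat_lit 322020483),
  Rx.mk (nat_lit 319) (nat_lit 7) (nat_lit 7) (nat_lit 4) (nat_lit 3) (nat_lit 5) (nat_lit 25) r1_5 r0_25 (nat_lit 0) (nat_lit 0) (nat_lit 1484672) (nat_lit 0x20258cca6) (nat_lit 267789778),
  Rx.mk (nat_lit 423) (nat_lit 7) (nat_lit 4) (nat_lit 6) (nat_lit 5) (nat_lit 3) (nat_lit 24) r1_3 r0_24 (nat_lit 0) (nat_lit 6798811) (nat_lit 0) (nat_lit 0x1fe079bd2) (nat_lit 277633767),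
  Rx.mk (nat_lit 436) (nat_lit 4) (nat_lit 6) (nat_lit 6) (nat_lit 6) (nat_lit 0) (nat_lit 22) r1_0 r0_22 (nat_lit 6061326) (nat_lit 0) (nat_lit 0) (nat_lit 0x1e22fb854) (nat_lit 306330232),
  Rx.mk (nat_lit 438) (nat_lit 6) (nat_lit 6) (nat_lit 6) (nat_lit 7) (nat_lit 1) (nat_lit 29) r1_1 r0_29 (nat_lit 0) (nat_lit 0) (nat_lit 0) (nat_lit 0x20e22bba0) (nat_lit 254171106),
  Rx.mk (nat_lit 439) (nat_lit 7) (nat_lit 6) (nat_lit 6) (nat_lit 7) (nat_lit 4) (nat_lit 28) r1_4 r0_28 (nat_lit 0) (nat_lit 0) (nat_lit 0) (nat_lit 0x232a6f1b2) (nat_lit 216775806),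
  Rx.mk (nat_lit 447) (nat_lit 7) (nat_lit 7) (nat_lit 6) (nat_lit 7) (nat_lit 6) (nat_lit 27) r1_6 r0_27 (nat_lit 0) (nat_lit 0) (nat_lit 0) (nat_lit 0x204321550) (nat_lit 264427056),
  Rx.mk (nat_lit 475) (nat_lit 3) (nat_lit 3) (nat_lit 7) (nat_lit 7) (nat_lit 9) (nat_lit 20) r1_9 r0_20 (nat_lit 0) (nat_lit 0) (nat_lit 0) (nat_lit 0x2045d486a) (nat_lit 264245706),
  Rx.mk (nat_lit 507) (nat_lit 3) (nat_lit 7) (nat_lit 7) (nat_lit 7) (nat_lit 8) (nat_lit 21) r1_8 r0_21 (nat_lit 0) (nat_lit 0) (nat_lit 0) (nat_lit 0x203066816) (nat_lit 265637806),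
  Rx.mk (nat_lit 511) (nat_lit 7) (nat_lit 7) (nat_lit 7) (nat_lit 7) (nat_lit 7) (nat_lit 26) r1_7 r0_26 (nat_lit 0) (nat_lit 0) (nat_lit 0) (nat_lit 0x204321550) (nat_lit 264427056)]
noncomputable def e1_1 : List Rx := [
  Rx.mk (nat_lit 2) (nat_lit 2) (nat_lit 0) (nat_lit 0) (nat_lit 1) (nat_lit 21) (nat_lit 14) r1_21 r1_14 (nat_lit 0) (nat_lit 7948) (nat_lit 6342) (nat_lit 0x1db35dfce) (nat_lit 307517346),
  Rx.mk (nat_lit 18) (nat_lit 2) (nat_lit 2) (nat_lit 0) (nat_lit 3) (nat_lit 23) (nat_lit 17) r1_23 r1_17 (nat_lit 0) (nat_lit 0) (nat_lit 5979) (nat_lit 0x204d38110) (nat_lit 263506885),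
  Rx.mk (nat_lit 146) (nat_lit 2) (nat_lit 2) (nat_lit 2) (nat_lit 7) (nat_lit 24) (nat_lit 19) r1_24 r1_19 (nat_lit 0) (nat_lit 0) (nat_lit 0) (nat_lit 0x1fd3aa51e) (nat_lit 271677806),
  Rx.mk (nat_lit 150) (nat_lit 6) (nat_lit 2) (nat_lit 2) (nat_lit 7) (nat_lit 13) (nat_lit 27) r1_13 r1_27 (nat_lit 0) (nat_lit 0) (nat_lit 0) (nat_lit 0x1ffd6eff8) (nat_lit 268950056),
  Rx.mk (nat_lit 182) (nat_lit 6) (nat_lit 6) (nat_lit 2) (nat_lit 7) (nat_lit 12) (nat_lit 28) r1_12 r1_28 (nat_lit 0) (nat_lit 0) (nat_lit 0) (nat_lit 0x200f83ea0) (nat_lit 267776556),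
  Rx.mk (nat_lit 194) (nat_lit 2) (nat_lit 0) (nat_lit 3) (nat_lit 5) (nat_lit 22) (nat_lit 15) r1_22 r1_15 (nat_lit 0) (nat_lit 3879038) (nat_lit 0) (nat_lit 0x1facb5e72) (nat_lit 278089644),
  Rx.mk (nat_lit 210) (nat_lit 2) (nat_lit 2) (nat_lit 3) (nat_lit 7) (nat_lit 25) (nat_lit 18) r1_25 r1_18 (nat_lit 0) (nat_lit 0) (nat_lit 0) (nat_lit 0x1fd3b41e0) (nat_lit 271675306),
  Rx.mk (nat_lit 216) (nat_lit 0) (nat_lit 3) (nat_lit 3) (nat_lit 6) (nat_lit 20) (nat_lit 10) r1_20 r1_10 (nat_lit 4491237) (nat_lit 0) (nat_lit 0) (nat_lit 0x1d1a6e124) (nat_lit 322311393),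
  Rx.mk (nat_lit 218) (nat_lit 2) (nat_lit 3) (nat_lit 3) (nat_lit 7) (nat_lit 26) (nat_lit 16) r1_26 r1_16 (nat_lit 0) (nat_lit 0) (nat_lit 0) (nat_lit 0x2055ec0a4) (nat_lit 262974906),
  Rx.mk (nat_lit 219) (nat_lit 3) (nat_lit 3) (nat_lit 3) (nat_lit 7) (nat_lit 29) (nat_lit 11) r1_29 r1_11 (nat_lit 0) (nat_lit 0) (nat_lit 0) (nat_lit 0x1e3063ab4) (nat_lit 299334156),
  Rx.mk (nat_lit 295) (nat_lit 7) (nat_lit 4) (nat_lit 4) (nat_lit 1) (nat_lit 14) (nat_lit 21) r1_14 r1_21 (nat_lit 0) (nat_lit 7948) (nat_lit 6342) (nat_lit 0x1db35dfce) (nat_lit 307517346),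
  Rx.mk (nat_lit 319) (nat_lit 7) (nat_lit 7) (nat_lit 4) (nat_lit 3) (nat_lit 17) (nat_lit 23) r1_17 r1_23 (nat_lit 0) (nat_lit 0) (nat_lit 5979) (nat_lit 0x204d38110) (nat_lit 263506885),
  Rx.mk (nat_lit 423) (nat_lit 7) (nat_lit 4) (nat_lit 6) (nat_lit 5) (nat_lit 15) (nat_lit 22) r1_15 r1_22 (nat_lit 0) (nat_lit 3879038) (nat_lit 0) (nat_lit 0x1facb5e72) (nat_lit 278089644),
  Rx.mk (nat_lit 436) (nat_lit 4) (nat_lit 6) (nat_lit 6) (nat_lit 6) (nat_lit 10) (nat_lit 20) r1_10 r1_20 (nat_lit 4491237) (nat_lit 0) (nat_lit 0) (nat_lit 0x1d1a6e124) (nat_lit 322311393),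
  Rx.mk (nat_lit 438) (nat_lit 6) (nat_lit 6) (nat_lit 6) (nat_lit 7) (nat_lit 11) (nat_lit 29) r1_11 r1_29 (nat_lit 0) (nat_lit 0) (nat_lit 0) (nat_lit 0x1e3063ab4) (nat_lit 299334156),
  Rx.mk (nat_lit 439) (nat_lit 7) (nat_lit 6) (nat_lit 6) (nat_lit 7) (nat_lit 16) (nat_lit 26) r1_16 r1_26 (nat_lit 0) (nat_lit 0) (nat_lit 0) (nat_lit 0x2055ec0a4) (nat_lit 262974906),
  Rx.mk (nat_lit 447) (nat_lit 7) (nat_lit 7) (nat_lit 6) (nat_lit 7) (nat_lit 18) (nat_lit 25) r1_18 r1_25 (nat_lit 0) (nat_lit 0) (nat_lit 0) (nat_lit 0x1fd3b41e0) (nat_lit 271675306),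
  Rx.mk (nat_lit 475) (nat_lit 3) (nat_lit 3) (nat_lit 7) (nat_lit 7) (nat_lit 28) (nat_lit 12) r1_28 r1_12 (nat_lit 0) (nat_lit 0) (nat_lit 0) (nat_lit 0x200f83ea0) (nat_lit 267776556),
  Rx.mk (nat_lit 507) (nat_lit 3) (nat_lit 7) (nat_lit 7) (nat_lit 7) (nat_lit 27) (nat_lit 13) r1_27 r1_13 (nat_lit 0) (nat_lit 0) (nat_lit 0) (nat_lit 0x1ffd6eff8) (nat_lit 268950056),
  Rx.mk (nat_lit 511) (nat_lit 7) (nat_lit 7) (nat_lit 7) (nat_lit 7) (nat_lit 19) (nat_lit 24) r1_19 r1_24 (nat_lit 0) (nat_lit 0) (nat_lit 0) (nat_lit 0x1fd3aa51e) (nat_lit 271677806)]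
noncomputable def e1_2 : List Rx := [
  Rx.mk (nat_lit 2) (nat_lit 2) (nat_lit 0) (nat_lit 0) (nat_lit 1) (nat_lit 33) (nat_lit 16) r1_33 r2_16 (nat_lit 0) (nat_lit 9879272) (nat_lit 4874968) (nat_lit 0x1d2b216b0) (nat_lit 331468546),
  Rx.mk (nat_lit 18) (nat_lit 2) (nat_lit 2) (nat_lit 0) (nat_lit 3) (nat_lit 34) (nat_lit 19) r1_34 r2_19 (nat_lit 0) (nat_lit 0) (nat_lit 7136584) (nat_lit 0x202b6b672) (nat_lit 273100490),
  Rx.mk (nat_lit 24) (nat_lit 0) (nat_lit 3) (nat_lit 0) (nat_lit 2) (nat_lit 31) (nat_lit 13) r1_31 r2_13 (nat_lit 15142004) (nat_lit 0) (nat_lit 6163962) (nat_lit 0x1d3d18706) (nat_lit 336837272),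
  Rx.mk (nat_lit 26) (nat_lit 2) (nat_lit 3) (nat_lit 0) (nat_lit 3) (nat_lit 36) (nat_lit 17) r1_36 r2_17 (nat_lit 0) (nat_lit 0) (nat_lit 2049429) (nat_lit 0x23435871e) (nat_lit 217247935),
  Rx.mk (nat_lit 146) (nat_lit 2) (nat_lit 2) (nat_lit 2) (nat_lit 7) (nat_lit 35) (nat_lit 20) r1_35 r2_20 (nat_lit 0) (nat_lit 0) (nat_lit 0) (nat_lit 0x20056d4f2) (nat_lit 268435456),
  Rx.mk (nat_lit 150) (nat_lit 6) (nat_lit 2) (nat_lit 2) (nat_lit 7) (nat_lit 30) (nat_lit 21) r1_30 r2_21 (nat_lit 0) (nat_lit 0) (nat_lit 0) (nat_lit 0x20056d4f2) (nat_lit 268435456),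
  Rx.mk (nat_lit 216) (nat_lit 0) (nat_lit 3) (nat_lit 3) (nat_lit 6) (nat_lit 32) (nat_lit 14) r1_32 r2_14 (nat_lit 10970796) (nat_lit 0) (nat_lit 0) (nat_lit 0x1fc4dd81a) (nat_lit 283625902),
  Rx.mk (nat_lit 218) (nat_lit 2) (nat_lit 3) (nat_lit 3) (nat_lit 7) (nat_lit 37) (nat_lit 18) r1_37 r2_18 (nat_lit 0) (nat_lit 0) (nat_lit 0) (nat_lit 0x20d1be4ac) (nat_lit 255245706),
  Rx.mk (nat_lit 219) (nat_lit 3) (nat_lit 3) (nat_lit 3) (nat_lit 7) (nat_lit 38) (nat_lit 15) r1_38 r2_15 (nat_lit 0) (nat_lit 0) (nat_lit 0) (nat_lit 0x20056d4f2) (nat_lit 268435456)]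
noncomputable def e1_3 : List Rx := [
  Rx.mk (nat_lit 295) (nat_lit 7) (nat_lit 4) (nat_lit 4) (nat_lit 1) (nat_lit 39) (nat_lit 13) r1_39 r3_13 (nat_lit 0) (nat_lit 1048) (nat_lit 493) (nat_lit 0x200087852) (nat_lit 268403547),
  Rx.mk (nat_lit 315) (nat_lit 3) (nat_lit 7) (nat_lit 4) (nat_lit 3) (nat_lit 46) (nat_lit 10) r1_46 r3_10 (nat_lit 0) (nat_lit 0) (nat_lit 12586) (nat_lit 0x1ff9824c6) (nat_lit 268882992),
  Rx.mk (nat_lit 319) (nat_lit 7) (nat_lit 7) (nat_lit 4) (nat_lit 3) (nat_lit 43) (nat_lit 16) r1_43 r3_16 (nat_lit 0) (nat_lit 0) (nat_lit 326961) (nat_lit 0x2101a3708) (nat_lit 252384517),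
  Rx.mk (nat_lit 359) (nat_lit 7) (nat_lit 4) (nat_lit 5) (nat_lit 5) (nat_lit 40) (nat_lit 14) r1_40 r3_14 (nat_lit 0) (nat_lit 5364652) (nat_lit 0) (nat_lit 0x20197d988) (nat_lit 272405208),
  Rx.mk (nat_lit 379) (nat_lit 3) (nat_lit 7) (nat_lit 5) (nat_lit 7) (nat_lit 47) (nat_lit 11) r1_47 r3_11 (nat_lit 0) (nat_lit 0) (nat_lit 0) (nat_lit 0x24f03701a) (nat_lit 187761056),
  Rx.mk (nat_lit 383) (nat_lit 7) (nat_lit 7) (nat_lit 5) (nat_lit 7) (nat_lit 44) (nat_lit 17) r1_44 r3_17 (nat_lit 0) (nat_lit 0) (nat_lit 0) (nat_lit 0x218acc7dc) (nat_lit 243368056),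
  Rx.mk (nat_lit 423) (nat_lit 7) (nat_lit 4) (nat_lit 6) (nat_lit 5) (nat_lit 41) (nat_lit 15) r1_41 r3_15 (nat_lit 0) (nat_lit 1588424) (nat_lit 0) (nat_lit 0x1ffa00bf0) (nat_lit 270650030),
  Rx.mk (nat_lit 439) (nat_lit 7) (nat_lit 6) (nat_lit 6) (nat_lit 7) (nat_lit 42) (nat_lit 19) r1_42 r3_19 (nat_lit 0) (nat_lit 0) (nat_lit 0) (nat_lit 0x20853aa04) (nat_lit 260134406),
  Rx.mk (nat_lit 447) (nat_lit 7) (nat_lit 7) (nat_lit 6) (nat_lit 7) (nat_lit 45) (nat_lit 18) r1_45 r3_18 (nat_lit 0) (nat_lit 0) (nat_lit 0) (nat_lit 0x208dbc254) (nat_lit 259604756),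
  Rx.mk (nat_lit 475) (nat_lit 3) (nat_lit 3) (nat_lit 7) (nat_lit 7) (nat_lit 49) (nat_lit 9) r1_49 r3_9 (nat_lit 0) (nat_lit 0) (nat_lit 0) (nat_lit 0x21883a01e) (nat_lit 243550156),
  Rx.mk (nat_lit 507) (nat_lit 3) (nat_lit 7) (nat_lit 7) (nat_lit 7) (nat_lit 48) (nat_lit 12) r1_48 r3_12 (nat_lit 0) (nat_lit 0) (nat_lit 0) (nat_lit 0x21621855c) (nat_lit 245991956)]
noncomputable def e1_4 : List Rx := [
  Rx.mk (nat_lit 295) (nat_lit 7) (nat_lit 4) (nat_lit 4) (nat_lit 1) (nat_lit 50) (nat_lit 16) r1_50 r4_16 (nat_lit 0) (nat_lit 14713705) (nat_lit 4415399) (nat_lit 0x1df5a2f24) (nat_lit 322395360),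
  Rx.mk (nat_lit 315) (nat_lit 3) (nat_lit 7) (nat_lit 4) (nat_lit 3) (nat_lit 55) (nat_lit 14) r1_55 r4_14 (nat_lit 0) (nat_lit 0) (nat_lit 4677671) (nat_lit 0x2069dbd26) (nat_lit 266600427),
  Rx.mk (nat_lit 319) (nat_lit 7) (nat_lit 7) (nat_lit 4) (nat_lit 3) (nat_lit 53) (nat_lit 18) r1_53 r4_18 (nat_lit 0) (nat_lit 0) (nat_lit 4829277) (nat_lit 0x1fc618c5c) (nat_lit 277393433),
  Rx.mk (nat_lit 423) (nat_lit 7) (nat_lit 4) (nat_lit 6) (nat_lit 5) (nat_lit 51) (nat_lit 17) r1_51 r4_17 (nat_lit 0) (nat_lit 7667538) (nat_lit 0) (nat_lit 0x2056e0442) (nat_lit 270816144),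
  Rx.mk (nat_lit 439) (nat_lit 7) (nat_lit 6) (nat_lit 6) (nat_lit 7) (nat_lit 52) (nat_lit 20) r1_52 r4_20 (nat_lit 0) (nat_lit 0) (nat_lit 0) (nat_lit 0x218b1a504) (nat_lit 243353006),
  Rx.mk (nat_lit 447) (nat_lit 7) (nat_lit 7) (nat_lit 6) (nat_lit 7) (nat_lit 54) (nat_lit 19) r1_54 r4_19 (nat_lit 0) (nat_lit 0) (nat_lit 0) (nat_lit 0x204cb4824) (nat_lit 263807506),
  Rx.mk (nat_lit 475) (nat_lit 3) (nat_lit 3) (nat_lit 7) (nat_lit 7) (nat_lit 57) (nat_lit 13) r1_57 r4_13 (nat_lit 0) (nat_lit 0) (nat_lit 0) (nat_lit 0x209de56bc) (nat_lit 258574406),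
  Rx.mk (nat_lit 507) (nat_lit 3) (nat_lit 7) (nat_lit 7) (nat_lit 7) (nat_lit 56) (nat_lit 15) r1_56 r4_15 (nat_lit 0) (nat_lit 0) (nat_lit 0) (nat_lit 0x206888b4a) (nat_lit 262011206)]
noncomputable def e1_5 : List Rx := [
  Rx.mk (nat_lit 283) (nat_lit 3) (nat_lit 3) (nat_lit 4) (nat_lit 3) (nat_lit 63) (nat_lit 6) r1_63 r5_6 (nat_lit 0) (nat_lit 0) (nat_lit 2086460) (nat_lit 0x1d06deeba) (nat_lit 321185666),
  Rx.mk (nat_lit 315) (nat_lit 3) (nat_lit 7) (nat_lit 4) (nat_lit 3) (nat_lit 61) (nat_lit 9) r1_61 r5_9 (nat_lit 0) (nat_lit 0) (nat_lit 1772773) (nat_lit 0x1fd3538a4) (nat_lit 273424379),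
  Rx.mk (nat_lit 319) (nat_lit 7) (nat_lit 7) (nat_lit 4) (nat_lit 3) (nat_lit 58) (nat_lit 11) r1_58 r5_11 (nat_lit 0) (nat_lit 0) (nat_lit 1941131) (nat_lit 0x1f2be95a0) (nat_lit 284641187),
  Rx.mk (nat_lit 347) (nat_lit 3) (nat_lit 3) (nat_lit 5) (nat_lit 7) (nat_lit 64) (nat_lit 7) r1_64 r5_7 (nat_lit 0) (nat_lit 0) (nat_lit 0) (nat_lit 0x1fca880e4) (nat_lit 272277656),
  Rx.mk (nat_lit 379) (nat_lit 3) (nat_lit 7) (nat_lit 5) (nat_lit 7) (nat_lit 62) (nat_lit 10) r1_62 r5_10 (nat_lit 0) (nat_lit 0) (nat_lit 0) (nat_lit 0x21704db40) (nat_lit 245082656),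
  Rx.mk (nat_lit 383) (nat_lit 7) (nat_lit 7) (nat_lit 5) (nat_lit 7) (nat_lit 59) (nat_lit 12) r1_59 r5_12 (nat_lit 0) (nat_lit 0) (nat_lit 0) (nat_lit 0x225850dde) (nat_lit 230233306),
  Rx.mk (nat_lit 447) (nat_lit 7) (nat_lit 7) (nat_lit 6) (nat_lit 7) (nat_lit 60) (nat_lit 13) r1_60 r5_13 (nat_lit 0) (nat_lit 0) (nat_lit 0) (nat_lit 0x207c318cc) (nat_lit 260737856),
  Rx.mk (nat_lit 475) (nat_lit 3) (nat_lit 3) (nat_lit 7) (nat_lit 7) (nat_lit 65) (nat_lit 8) r1_65 r5_8 (nat_lit 0) (nat_lit 0) (nat_lit 0) (nat_lit 0x1ff97277e) (nat_lit 269205106)]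
noncomputable def e1_6 : List Rx := [
  Rx.mk (nat_lit 88) (nat_lit 0) (nat_lit 3) (nat_lit 1) (nat_lit 6) (nat_lit 67) (nat_lit 69) r1_67 r3_69 (nat_lit 30898) (nat_lit 0) (nat_lit 0) (nat_lit 0x1fbf3341e) (nat_lit 272768554),
  Rx.mk (nat_lit 91) (nat_lit 3) (nat_lit 3) (nat_lit 1) (nat_lit 7) (nat_lit 68) (nat_lit 70) r1_68 r3_70 (nat_lit 0) (nat_lit 0) (nat_lit 0) (nat_lit 0x1f687605e) (nat_lit 278648806),
  Rx.mk (nat_lit 344) (nat_lit 0) (nat_lit 3) (nat_lit 5) (nat_lit 6) (nat_lit 66) (nat_lit 68) r1_66 r3_68 (nat_lit 3722) (nat_lit 0) (nat_lit 0) (nat_lit 0x20bd484a0) (nat_lit 256337228)]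
noncomputable def e1_7 : List Rx := [
  Rx.mk (nat_lit 66) (nat_lit 2) (nat_lit 0) (nat_lit 1) (nat_lit 5) (nat_lit 70) (nat_lit 75) r1_70 r0_75 (nat_lit 0) (nat_lit 3064142) (nat_lit 0) (nat_lit 0x203e7efde) (nat_lit 267754448),
  Rx.mk (nat_lit 88) (nat_lit 0) (nat_lit 3) (nat_lit 1) (nat_lit 6) (nat_lit 69) (nat_lit 76) r1_69 r0_76 (nat_lit 7606073) (nat_lit 0) (nat_lit 0) (nat_lit 0x1f4683d84) (nat_lit 288573429),
  Rx.mk (nat_lit 90) (nat_lit 2) (nat_lit 3) (nat_lit 1) (nat_lit 7) (nat_lit 71) (nat_lit 78) r1_71 r0_78 (nat_lit 0) (nat_lit 0) (nat_lit 0) (nat_lit 0x22d0de396) (nat_lit 222515206),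
  Rx.mk (nat_lit 91) (nat_lit 3) (nat_lit 3) (nat_lit 1) (nat_lit 7) (nat_lit 72) (nat_lit 77) r1_72 r0_77 (nat_lit 0) (nat_lit 0) (nat_lit 0) (nat_lit 0x202d73a00) (nat_lit 265825656)]
noncomputable def e1_8 : List Rx := [
  Rx.mk (nat_lit 2) (nat_lit 2) (nat_lit 0) (nat_lit 0) (nat_lit 1) (nat_lit 75) (nat_lit 73) r1_75 r1_73 (nat_lit 0) (nat_lit 12468754) (nat_lit 4289994) (nat_lit 0x1cbb7b388) (nat_lit 340877904),
  Rx.mk (nat_lit 18) (nat_lit 2) (nat_lit 2) (nat_lit 0) (nat_lit 3) (nat_lit 77) (nat_lit 82) r1_77 r1_82 (nat_lit 0) (nat_lit 0) (nat_lit 6815319) (nat_lit 0x1fbcfc0e2) (nat_lit 279978825),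
  Rx.mk (nat_lit 24) (nat_lit 0) (nat_lit 3) (nat_lit 0) (nat_lit 2) (nat_lit 73) (nat_lit 75) r1_73 r1_75 (nat_lit 12468754) (nat_lit 0) (nat_lit 4289994) (nat_lit 0x1cbb7b388) (nat_lit 340877904),
  Rx.mk (nat_lit 26) (nat_lit 2) (nat_lit 3) (nat_lit 0) (nat_lit 3) (nat_lit 80) (nat_lit 80) r1_80 r1_80 (nat_lit 0) (nat_lit 0) (nat_lit 3053953) (nat_lit 0x21582474e) (nat_lit 249680159),
  Rx.mk (nat_lit 27) (nat_lit 3) (nat_lit 3) (nat_lit 0) (nat_lit 3) (nat_lit 82) (nat_lit 77) r1_82 r1_77 (nat_lit 0) (nat_lit 0) (nat_lit 6815319) (nat_lit 0x1fbcfc0e2) (nat_lit 279978825),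
  Rx.mk (nat_lit 66) (nat_lit 2) (nat_lit 0) (nat_lit 1) (nat_lit 5) (nat_lit 76) (nat_lit 74) r1_76 r1_74 (nat_lit 0) (nat_lit 6511426) (nat_lit 0) (nat_lit 0x202b6e89a) (nat_lit 272472332),
  Rx.mk (nat_lit 82) (nat_lit 2) (nat_lit 2) (nat_lit 1) (nat_lit 7) (nat_lit 78) (nat_lit 83) r1_78 r1_83 (nat_lit 0) (nat_lit 0) (nat_lit 0) (nat_lit 0x20056d4f2) (nat_lit 268435456),
  Rx.mk (nat_lit 88) (nat_lit 0) (nat_lit 3) (nat_lit 1) (nat_lit 6) (nat_lit 74) (nat_lit 76) r1_74 r1_76 (nat_lit 6511426) (nat_lit 0) (nat_lit 0) (nat_lit 0x202b6e89a) (nat_lit 272472332),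
  Rx.mk (nat_lit 90) (nat_lit 2) (nat_lit 3) (nat_lit 1) (nat_lit 7) (nat_lit 81) (nat_lit 81) r1_81 r1_81 (nat_lit 0) (nat_lit 0) (nat_lit 0) (nat_lit 0x20f865d12) (nat_lit 252765156),
  Rx.mk (nat_lit 91) (nat_lit 3) (nat_lit 3) (nat_lit 1) (nat_lit 7) (nat_lit 83) (nat_lit 78) r1_83 r1_78 (nat_lit 0) (nat_lit 0) (nat_lit 0) (nat_lit 0x20056d4f2) (nat_lit 268435456),
  Rx.mk (nat_lit 146) (nat_lit 2) (nat_lit 2) (nat_lit 2) (nat_lit 7) (nat_lit 79) (nat_lit 84) r1_79 r1_84 (nat_lit 0) (nat_lit 0) (nat_lit 0) (nat_lit 0x20056d4f2) (nat_lit 268435456),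
  Rx.mk (nat_lit 219) (nat_lit 3) (nat_lit 3) (nat_lit 3) (nat_lit 7) (nat_lit 84) (nat_lit 79) r1_84 r1_79 (nat_lit 0) (nat_lit 0) (nat_lit 0) (nat_lit 0x20056d4f2) (nat_lit 268435456)]
noncomputable def e1_9 : List Rx := [
  Rx.mk (nat_lit 88) (nat_lit 0) (nat_lit 3) (nat_lit 1) (nat_lit 6) (nat_lit 85) (nat_lit 71) r1_85 r4_71 (nat_lit 5269494) (nat_lit 0) (nat_lit 0) (nat_lit 0x203b3f5f8) (nat_lit 270196450),
  Rx.mk (nat_lit 90) (nat_lit 2) (nat_lit 3) (nat_lit 1) (nat_lit 7) (nat_lit 86) (nat_lit 73) r1_86 r4_73 (nat_lit 0) (nat_lit 0) (nat_lit 0) (nat_lit 0x2171ac400) (nat_lit 244980606),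
  Rx.mk (nat_lit 91) (nat_lit 3) (nat_lit 3) (nat_lit 1) (nat_lit 7) (nat_lit 87) (nat_lit 72) r1_87 r4_72 (nat_lit 0) (nat_lit 0) (nat_lit 0) (nat_lit 0x20bb0eed2) (nat_lit 256701006)]
noncomputable def e1_10 : List Rx := [
  Rx.mk (nat_lit 344) (nat_lit 0) (nat_lit 3) (nat_lit 5) (nat_lit 6) (nat_lit 88) (nat_lit 7) r1_88 r6_7 (nat_lit 4999611) (nat_lit 0) (nat_lit 0) (nat_lit 0x209b5945c) (nat_lit 263730017),
  Rx.mk (nat_lit 347) (nat_lit 3) (nat_lit 3) (nat_lit 5) (nat_lit 7) (nat_lit 90) (nat_lit 8) r1_90 r6_8 (nat_lit 0) (nat_lit 0) (nat_lit 0) (nat_lit 0x21b4e08f2) (nat_lit 240691706),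
  Rx.mk (nat_lit 379) (nat_lit 3) (nat_lit 7) (nat_lit 5) (nat_lit 7) (nat_lit 89) (nat_lit 9) r1_89 r6_9 (nat_lit 0) (nat_lit 0) (nat_lit 0) (nat_lit 0x250e7ac5c) (nat_lit 185808906)]
noncomputable def e1_11 : List Rx := [
  Rx.mk (nat_lit 91) (nat_lit 3) (nat_lit 3) (nat_lit 1) (nat_lit 7) (nat_lit 93) (nat_lit 65) r1_93 r5_65 (nat_lit 0) (nat_lit 0) (nat_lit 0) (nat_lit 0x20a154dfc) (nat_lit 258345706),
  Rx.mk (nat_lit 344) (nat_lit 0) (nat_lit 3) (nat_lit 5) (nat_lit 6) (nat_lit 91) (nat_lit 63) r1_91 r5_63 (nat_lit 3091615) (nat_lit 0) (nat_lit 0) (nat_lit 0x1ff9c654a) (nat_lit 272221871),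
  Rx.mk (nat_lit 347) (nat_lit 3) (nat_lit 3) (nat_lit 5) (nat_lit 7) (nat_lit 92) (nat_lit 64) r1_92 r5_64 (nat_lit 0) (nat_lit 0) (nat_lit 0) (nat_lit 0x20bb69ae4) (nat_lit 256621956)]
noncomputable def e1_12 : List Rx := [
  Rx.mk (nat_lit 292) (nat_lit 4) (nat_lit 4) (nat_lit 4) (nat_lit 0) (nat_lit 94) (nat_lit 111) r1_94 r0_111 (nat_lit 1151) (nat_lit 71503781) (nat_lit 1132) (nat_lit 0x1ffffcd4c) (nat_lit 339943120),
  Rx.mk (nat_lit 295) (nat_lit 7) (nat_lit 4) (nat_lit 4) (nat_lit 1) (nat_lit 99) (nat_lit 112) r1_99 r0_112 (nat_lit 0) (nat_lit 34468149) (nat_lit 3336276) (nat_lit 0x1d1651a5a) (nat_lit 355883931),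
  Rx.mk (nat_lit 319) (nat_lit 7) (nat_lit 7) (nat_lit 4) (nat_lit 3) (nat_lit 103) (nat_lit 113) r1_103 r0_113 (nat_lit 0) (nat_lit 0) (nat_lit 7095785) (nat_lit 0x1f099b1ce) (nat_lit 292101241),
  Rx.mk (nat_lit 356) (nat_lit 4) (nat_lit 4) (nat_lit 5) (nat_lit 4) (nat_lit 95) (nat_lit 114) r1_95 r0_114 (nat_lit 4173814) (nat_lit 104667208) (nat_lit 0) (nat_lit 0x200e73d6c) (nat_lit 376678078),
  Rx.mk (nat_lit 359) (nat_lit 7) (nat_lit 4) (nat_lit 5) (nat_lit 5) (nat_lit 100) (nat_lit 115) r1_100 r0_115 (nat_lit 0) (nat_lit 13267100) (nat_lit 0) (nat_lit 0x1fdaa1d54) (nat_lit 284493406),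
  Rx.mk (nat_lit 383) (nat_lit 7) (nat_lit 7) (nat_lit 5) (nat_lit 7) (nat_lit 104) (nat_lit 116) r1_104 r0_116 (nat_lit 0) (nat_lit 0) (nat_lit 0) (nat_lit 0x20056d4f2) (nat_lit 268435456),
  Rx.mk (nat_lit 420) (nat_lit 4) (nat_lit 4) (nat_lit 6) (nat_lit 4) (nat_lit 96) (nat_lit 118) r1_96 r0_118 (nat_lit 10218001) (nat_lit 56350289) (nat_lit 0) (nat_lit 0x1f745a79e) (nat_lit 344506196),
  Rx.mk (nat_lit 423) (nat_lit 7) (nat_lit 4) (nat_lit 6) (nat_lit 5) (nat_lit 101) (nat_lit 119) r1_101 r0_119 (nat_lit 0) (nat_lit 11841269) (nat_lit 0) (nat_lit 0x20e29fb5e) (nat_lit 266000725),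
  Rx.mk (nat_lit 436) (nat_lit 4) (nat_lit 6) (nat_lit 6) (nat_lit 6) (nat_lit 97) (nat_lit 121) r1_97 r0_121 (nat_lit 7542287) (nat_lit 0) (nat_lit 0) (nat_lit 0x201cafd36) (nat_lit 274462593),
  Rx.mk (nat_lit 438) (nat_lit 6) (nat_lit 6) (nat_lit 6) (nat_lit 7) (nat_lit 98) (nat_lit 123) r1_98 r0_123 (nat_lit 0) (nat_lit 0) (nat_lit 0) (nat_lit 0x20056d4f2) (nat_lit 268435456),
  Rx.mk (nat_lit 439) (nat_lit 7) (nat_lit 6) (nat_lit 6) (nat_lit 7) (nat_lit 102) (nat_lit 122) r1_102 r0_122 (nat_lit 0) (nat_lit 0) (nat_lit 0) (nat_lit 0x20056d4f2) (nat_lit 268435456),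
  Rx.mk (nat_lit 447) (nat_lit 7) (nat_lit 7) (nat_lit 6) (nat_lit 7) (nat_lit 105) (nat_lit 120) r1_105 r0_120 (nat_lit 0) (nat_lit 0) (nat_lit 0) (nat_lit 0x20056d4f2) (nat_lit 268435456),
  Rx.mk (nat_lit 511) (nat_lit 7) (nat_lit 7) (nat_lit 7) (nat_lit 7) (nat_lit 106) (nat_lit 117) r1_106 r0_117 (nat_lit 0) (nat_lit 0) (nat_lit 0) (nat_lit 0x20056d4f2) (nat_lit 268435456)]
noncomputable def e1_13 : List Rx := [
  Rx.mk (nat_lit 292) (nat_lit 4) (nat_lit 4) (nat_lit 4) (nat_lit 0) (nat_lit 107) (nat_lit 11) r1_107 r7_11 (nat_lit 1141544) (nat_lit 4920335) (nat_lit 745275) (nat_lit 0x109a327e6) (nat_lit 536953810),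
  Rx.mk (nat_lit 295) (nat_lit 7) (nat_lit 4) (nat_lit 4) (nat_lit 1) (nat_lit 111) (nat_lit 14) r1_111 r7_14 (nat_lit 0) (nat_lit 1363821) (nat_lit 648751) (nat_lit 0x196197c66) (nat_lit 383004978),
  Rx.mk (nat_lit 319) (nat_lit 7) (nat_lit 7) (nat_lit 4) (nat_lit 3) (nat_lit 114) (nat_lit 16) r1_114 r7_16 (nat_lit 0) (nat_lit 0) (nat_lit 4901484) (nat_lit 0x1e15b6d9c) (nat_lit 306066590),
  Rx.mk (nat_lit 420) (nat_lit 4) (nat_lit 4) (nat_lit 6) (nat_lit 4) (nat_lit 108) (nat_lit 12) r1_108 r7_12 (nat_lit 14689334) (nat_lit 34669275) (nat_lit 0) (nat_lit 0x1dc530cc4) (nat_lit 355866165),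
  Rx.mk (nat_lit 423) (nat_lit 7) (nat_lit 4) (nat_lit 6) (nat_lit 5) (nat_lit 112) (nat_lit 15) r1_112 r7_15 (nat_lit 0) (nat_lit 11532138) (nat_lit 0) (nat_lit 0x200c99f0a) (nat_lit 279487844),
  Rx.mk (nat_lit 436) (nat_lit 4) (nat_lit 6) (nat_lit 6) (nat_lit 6) (nat_lit 109) (nat_lit 13) r1_109 r7_13 (nat_lit 8870652) (nat_lit 0) (nat_lit 0) (nat_lit 0x1fc54f38e) (nat_lit 281480458),
  Rx.mk (nat_lit 438) (nat_lit 6) (nat_lit 6) (nat_lit 6) (nat_lit 7) (nat_lit 110) (nat_lit 20) r1_110 r7_20 (nat_lit 0) (nat_lit 0) (nat_lit 0) (nat_lit 0x20056d4f2) (nat_lit 268435456),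
  Rx.mk (nat_lit 439) (nat_lit 7) (nat_lit 6) (nat_lit 6) (nat_lit 7) (nat_lit 113) (nat_lit 19) r1_113 r7_19 (nat_lit 0) (nat_lit 0) (nat_lit 0) (nat_lit 0x204560096) (nat_lit 264283306),
  Rx.mk (nat_lit 447) (nat_lit 7) (nat_lit 7) (nat_lit 6) (nat_lit 7) (nat_lit 115) (nat_lit 18) r1_115 r7_18 (nat_lit 0) (nat_lit 0) (nat_lit 0) (nat_lit 0x20056d4f2) (nat_lit 268435456),
  Rx.mk (nat_lit 511) (nat_lit 7) (nat_lit 7) (nat_lit 7) (nat_lit 7) (nat_lit 116) (nat_lit 17) r1_116 r7_17 (nat_lit 0) (nat_lit 0) (nat_lit 0) (nat_lit 0x20056d4f2) (nat_lit 268435456)]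
noncomputable def e1_14 : List Rx := [
  Rx.mk (nat_lit 292) (nat_lit 4) (nat_lit 4) (nat_lit 4) (nat_lit 0) (nat_lit 117) (nat_lit 117) r1_117 r1_117 (nat_lit 1682105) (nat_lit 105483682) (nat_lit 1682105) (nat_lit 0x1bdb6cc2e) (nat_lit 447817298),
  Rx.mk (nat_lit 293) (nat_lit 5) (nat_lit 4) (nat_lit 4) (nat_lit 1) (nat_lit 121) (nat_lit 118) r1_121 r1_118 (nat_lit 0) (nat_lit 46106178) (nat_lit 8738590) (nat_lit 0x1f9c60932) (nat_lit 330152724),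
  Rx.mk (nat_lit 295) (nat_lit 7) (nat_lit 4) (nat_lit 4) (nat_lit 1) (nat_lit 126) (nat_lit 119) r1_126 r1_119 (nat_lit 0) (nat_lit 20374386) (nat_lit 9200414) (nat_lit 0x1f8488b34) (nat_lit 306458406),
  Rx.mk (nat_lit 319) (nat_lit 7) (nat_lit 7) (nat_lit 4) (nat_lit 3) (nat_lit 128) (nat_lit 120) r1_128 r1_120 (nat_lit 0) (nat_lit 0) (nat_lit 8607444) (nat_lit 0x1fd46f940) (nat_lit 280240350),
  Rx.mk (nat_lit 356) (nat_lit 4) (nat_lit 4) (nat_lit 5) (nat_lit 4) (nat_lit 118) (nat_lit 121) r1_118 r1_121 (nat_lit 8738590) (nat_lit 46106178) (nat_lit 0) (nat_lit 0x1f9c60932) (nat_lit 330152724),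
  Rx.mk (nat_lit 357) (nat_lit 5) (nat_lit 4) (nat_lit 5) (nat_lit 5) (nat_lit 122) (nat_lit 122) r1_122 r1_122 (nat_lit 0) (nat_lit 9484367) (nat_lit 0) (nat_lit 0x20219099a) (nat_lit 276087973),
  Rx.mk (nat_lit 359) (nat_lit 7) (nat_lit 4) (nat_lit 5) (nat_lit 5) (nat_lit 127) (nat_lit 123) r1_127 r1_123 (nat_lit 0) (nat_lit 9484367) (nat_lit 0) (nat_lit 0x20056d4f2) (nat_lit 277919823),
  Rx.mk (nat_lit 383) (nat_lit 7) (nat_lit 7) (nat_lit 5) (nat_lit 7) (nat_lit 129) (nat_lit 124) r1_129 r1_124 (nat_lit 0) (nat_lit 0) (nat_lit 0) (nat_lit 0x20056d4f2) (nat_lit 268435456),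
  Rx.mk (nat_lit 420) (nat_lit 4) (nat_lit 4) (nat_lit 6) (nat_lit 4) (nat_lit 119) (nat_lit 126) r1_119 r1_126 (nat_lit 9200414) (nat_lit 20374386) (nat_lit 0) (nat_lit 0x1f8488b34) (nat_lit 306458406),
  Rx.mk (nat_lit 421) (nat_lit 5) (nat_lit 4) (nat_lit 6) (nat_lit 5) (nat_lit 123) (nat_lit 127) r1_123 r1_127 (nat_lit 0) (nat_lit 9484367) (nat_lit 0) (nat_lit 0x20056d4f2) (nat_lit 277919823),
  Rx.mk (nat_lit 436) (nat_lit 4) (nat_lit 6) (nat_lit 6) (nat_lit 6) (nat_lit 120) (nat_lit 128) r1_120 r1_128 (nat_lit 8607444) (nat_lit 0) (nat_lit 0) (nat_lit 0x1fd46f940) (nat_lit 280240350),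
  Rx.mk (nat_lit 437) (nat_lit 5) (nat_lit 6) (nat_lit 6) (nat_lit 7) (nat_lit 124) (nat_lit 129) r1_124 r1_129 (nat_lit 0) (nat_lit 0) (nat_lit 0) (nat_lit 0x20056d4f2) (nat_lit 268435456),
  Rx.mk (nat_lit 438) (nat_lit 6) (nat_lit 6) (nat_lit 6) (nat_lit 7) (nat_lit 125) (nat_lit 130) r1_125 r1_130 (nat_lit 0) (nat_lit 0) (nat_lit 0) (nat_lit 0x20056d4f2) (nat_lit 268435456),
  Rx.mk (nat_lit 511) (nat_lit 7) (nat_lit 7) (nat_lit 7) (nat_lit 7) (nat_lit 130) (nat_lit 125) r1_130 r1_125 (nat_lit 0) (nat_lit 0) (nat_lit 0) (nat_lit 0x20056d4f2) (nat_lit 268435456)]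
noncomputable def e1_15 : List Rx := [
  Rx.mk (nat_lit 292) (nat_lit 4) (nat_lit 4) (nat_lit 4) (nat_lit 0) (nat_lit 131) (nat_lit 15) r1_131 r8_15 (nat_lit 12970436) (nat_lit 16284288) (nat_lit 5200936) (nat_lit 0x1431ccdd8) (nat_lit 503628066),
  Rx.mk (nat_lit 293) (nat_lit 5) (nat_lit 4) (nat_lit 4) (nat_lit 1) (nat_lit 134) (nat_lit 18) r1_134 r8_18 (nat_lit 0) (nat_lit 29107008) (nat_lit 9122221) (nat_lit 0x1d0963e24) (nat_lit 357196735),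
  Rx.mk (nat_lit 295) (nat_lit 7) (nat_lit 4) (nat_lit 4) (nat_lit 1) (nat_lit 138) (nat_lit 21) r1_138 r8_21 (nat_lit 0) (nat_lit 20913238) (nat_lit 9541451) (nat_lit 0x1e0c4cea0) (nat_lit 332249895),
  Rx.mk (nat_lit 319) (nat_lit 7) (nat_lit 7) (nat_lit 4) (nat_lit 3) (nat_lit 139) (nat_lit 22) r1_139 r8_22 (nat_lit 0) (nat_lit 0) (nat_lit 8599271) (nat_lit 0x1fb1e00d2) (nat_lit 282498427),
  Rx.mk (nat_lit 420) (nat_lit 4) (nat_lit 4) (nat_lit 6) (nat_lit 4) (nat_lit 132) (nat_lit 16) r1_132 r8_16 (nat_lit 19111015) (nat_lit 22083687) (nat_lit 0) (nat_lit 0x1d7134e54) (nat_lit 353280508),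
  Rx.mk (nat_lit 421) (nat_lit 5) (nat_lit 4) (nat_lit 6) (nat_lit 5) (nat_lit 135) (nat_lit 19) r1_135 r8_19 (nat_lit 0) (nat_lit 10065192) (nat_lit 0) (nat_lit 0x1ff9d2c5a) (nat_lit 279255198),
  Rx.mk (nat_lit 436) (nat_lit 4) (nat_lit 6) (nat_lit 6) (nat_lit 6) (nat_lit 133) (nat_lit 17) r1_133 r8_17 (nat_lit 6904608) (nat_lit 0) (nat_lit 0) (nat_lit 0x20290cb56) (nat_lit 273020764),
  Rx.mk (nat_lit 437) (nat_lit 5) (nat_lit 6) (nat_lit 6) (nat_lit 7) (nat_lit 136) (nat_lit 20) r1_136 r8_20 (nat_lit 0) (nat_lit 0) (nat_lit 0) (nat_lit 0x20056d4f2) (nat_lit 268435456),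
  Rx.mk (nat_lit 438) (nat_lit 6) (nat_lit 6) (nat_lit 6) (nat_lit 7) (nat_lit 137) (nat_lit 24) r1_137 r8_24 (nat_lit 0) (nat_lit 0) (nat_lit 0) (nat_lit 0x20056d4f2) (nat_lit 268435456),
  Rx.mk (nat_lit 511) (nat_lit 7) (nat_lit 7) (nat_lit 7) (nat_lit 7) (nat_lit 140) (nat_lit 23) r1_140 r8_23 (nat_lit 0) (nat_lit 0) (nat_lit 0) (nat_lit 0x20056d4f2) (nat_lit 268435456)]
noncomputable def e1_16 : List Rx := [
  Rx.mk (nat_lit 150) (nat_lit 6) (nat_lit 2) (nat_lit 2) (nat_lit 7) (nat_lit 146) (nat_lit 101) r1_146 r8_101 (nat_lit 0) (nat_lit 0) (nat_lit 0) (nat_lit 0x20056d4f2) (nat_lit 268435456),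
  Rx.mk (nat_lit 182) (nat_lit 6) (nat_lit 6) (nat_lit 2) (nat_lit 7) (nat_lit 145) (nat_lit 100) r1_145 r8_100 (nat_lit 0) (nat_lit 0) (nat_lit 0) (nat_lit 0x20056d4f2) (nat_lit 268435456),
  Rx.mk (nat_lit 292) (nat_lit 4) (nat_lit 4) (nat_lit 4) (nat_lit 0) (nat_lit 141) (nat_lit 90) r1_141 r8_90 (nat_lit 4308292) (nat_lit 11933065) (nat_lit 2921945) (nat_lit 0x103c1157c) (nat_lit 555604158),
  Rx.mk (nat_lit 295) (nat_lit 7) (nat_lit 4) (nat_lit 4) (nat_lit 1) (nat_lit 147) (nat_lit 91) r1_147 r8_91 (nat_lit 0) (nat_lit 10663373) (nat_lit 3978459) (nat_lit 0x18b957628) (nat_lit 406863088),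
  Rx.mk (nat_lit 319) (nat_lit 7) (nat_lit 7) (nat_lit 4) (nat_lit 3) (nat_lit 150) (nat_lit 92) r1_150 r8_92 (nat_lit 0) (nat_lit 0) (nat_lit 8196881) (nat_lit 0x1ec204662) (nat_lit 297938937),
  Rx.mk (nat_lit 420) (nat_lit 4) (nat_lit 4) (nat_lit 6) (nat_lit 4) (nat_lit 142) (nat_lit 94) r1_142 r8_94 (nat_lit 14059414) (nat_lit 19611998) (nat_lit 0) (nat_lit 0x1db198414) (nat_lit 341479368),
  Rx.mk (nat_lit 423) (nat_lit 7) (nat_lit 4) (nat_lit 6) (nat_lit 5) (nat_lit 148) (nat_lit 95) r1_148 r8_95 (nat_lit 0) (nat_lit 9657344) (nat_lit 0) (nat_lit 0x1ff57a838) (nat_lit 279131350),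
  Rx.mk (nat_lit 436) (nat_lit 4) (nat_lit 6) (nat_lit 6) (nat_lit 6) (nat_lit 143) (nat_lit 97) r1_143 r8_97 (nat_lit 9484367) (nat_lit 0) (nat_lit 0) (nat_lit 0x20000ee3e) (nat_lit 278269023),
  Rx.mk (nat_lit 438) (nat_lit 6) (nat_lit 6) (nat_lit 6) (nat_lit 7) (nat_lit 144) (nat_lit 99) r1_144 r8_99 (nat_lit 0) (nat_lit 0) (nat_lit 0) (nat_lit 0x20056d4f2) (nat_lit 268435456),
  Rx.mk (nat_lit 439) (nat_lit 7) (nat_lit 6) (nat_lit 6) (nat_lit 7) (nat_lit 149) (nat_lit 98) r1_149 r8_98 (nat_lit 0) (nat_lit 0) (nat_lit 0) (nat_lit 0x20056d4f2) (nat_lit 268435456),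
  Rx.mk (nat_lit 447) (nat_lit 7) (nat_lit 7) (nat_lit 6) (nat_lit 7) (nat_lit 151) (nat_lit 96) r1_151 r8_96 (nat_lit 0) (nat_lit 0) (nat_lit 0) (nat_lit 0x20056d4f2) (nat_lit 268435456),
  Rx.mk (nat_lit 511) (nat_lit 7) (nat_lit 7) (nat_lit 7) (nat_lit 7) (nat_lit 152) (nat_lit 93) r1_152 r8_93 (nat_lit 0) (nat_lit 0) (nat_lit 0) (nat_lit 0x20056d4f2) (nat_lit 268435456)]
noncomputable def e1_17 : List Rx := [
  Rx.mk (nat_lit 150) (nat_lit 6) (nat_lit 2) (nat_lit 2) (nat_lit 7) (nat_lit 153) (nat_lit 1) r1_153 r9_1 (nat_lit 0) (nat_lit 0) (nat_lit 0) (nat_lit 0x20056d4f2) (nat_lit 268435456)]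
noncomputable def e1_18 : List Rx := [
  Rx.mk (nat_lit 295) (nat_lit 7) (nat_lit 4) (nat_lit 4) (nat_lit 1) (nat_lit 154) (nat_lit 107) r1_154 r4_107 (nat_lit 0) (nat_lit 72610807) (nat_lit 3083789) (nat_lit 0x1da7e785c) (nat_lit 384120802),
  Rx.mk (nat_lit 319) (nat_lit 7) (nat_lit 7) (nat_lit 4) (nat_lit 3) (nat_lit 158) (nat_lit 108) r1_158 r4_108 (nat_lit 0) (nat_lit 0) (nat_lit 5176119) (nat_lit 0x1fab3b772) (nat_lit 279503175),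
  Rx.mk (nat_lit 359) (nat_lit 7) (nat_lit 4) (nat_lit 5) (nat_lit 5) (nat_lit 155) (nat_lit 109) r1_155 r4_109 (nat_lit 0) (nat_lit 10426591) (nat_lit 0) (nat_lit 0x2064ff000) (nat_lit 272663397),
  Rx.mk (nat_lit 383) (nat_lit 7) (nat_lit 7) (nat_lit 5) (nat_lit 7) (nat_lit 159) (nat_lit 110) r1_159 r4_110 (nat_lit 0) (nat_lit 0) (nat_lit 0) (nat_lit 0x207453f38) (nat_lit 261249556),
  Rx.mk (nat_lit 423) (nat_lit 7) (nat_lit 4) (nat_lit 6) (nat_lit 5) (nat_lit 156) (nat_lit 111) r1_156 r4_111 (nat_lit 0) (nat_lit 12447961) (nat_lit 0) (nat_lit 0x209304a72) (nat_lit 271717417),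
  Rx.mk (nat_lit 439) (nat_lit 7) (nat_lit 6) (nat_lit 6) (nat_lit 7) (nat_lit 157) (nat_lit 113) r1_157 r4_113 (nat_lit 0) (nat_lit 0) (nat_lit 0) (nat_lit 0x20056d4f2) (nat_lit 268435456),
  Rx.mk (nat_lit 447) (nat_lit 7) (nat_lit 7) (nat_lit 6) (nat_lit 7) (nat_lit 160) (nat_lit 112) r1_160 r4_112 (nat_lit 0) (nat_lit 0) (nat_lit 0) (nat_lit 0x20610c45c) (nat_lit 262493306)]
noncomputable def e1_19 : List Rx := [
  Rx.mk (nat_lit 295) (nat_lit 7) (nat_lit 4) (nat_lit 4) (nat_lit 1) (nat_lit 161) (nat_lit 5) r1_161 r10_5 (nat_lit 0) (nat_lit 835607) (nat_lit 419416) (nat_lit 0x195be8716) (nat_lit 382608229),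
  Rx.mk (nat_lit 319) (nat_lit 7) (nat_lit 7) (nat_lit 4) (nat_lit 3) (nat_lit 164) (nat_lit 7) r1_164 r10_7 (nat_lit 0) (nat_lit 0) (nat_lit 8157982) (nat_lit 0x1c3c07fca) (nat_lit 340752588),
  Rx.mk (nat_lit 423) (nat_lit 7) (nat_lit 4) (nat_lit 6) (nat_lit 5) (nat_lit 162) (nat_lit 6) r1_162 r10_6 (nat_lit 0) (nat_lit 9868051) (nat_lit 0) (nat_lit 0x1fe805770) (nat_lit 280217007),
  Rx.mk (nat_lit 439) (nat_lit 7) (nat_lit 6) (nat_lit 6) (nat_lit 7) (nat_lit 163) (nat_lit 9) r1_163 r10_9 (nat_lit 0) (nat_lit 0) (nat_lit 0) (nat_lit 0x20361e1be) (nat_lit 265270956),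
  Rx.mk (nat_lit 447) (nat_lit 7) (nat_lit 7) (nat_lit 6) (nat_lit 7) (nat_lit 165) (nat_lit 8) r1_165 r10_8 (nat_lit 0) (nat_lit 0) (nat_lit 0) (nat_lit 0x20056d4f2) (nat_lit 268435456)]
noncomputable def e1_20 : List Rx := [
  Rx.mk (nat_lit 319) (nat_lit 7) (nat_lit 7) (nat_lit 4) (nat_lit 3) (nat_lit 166) (nat_lit 2) r1_166 r11_2 (nat_lit 0) (nat_lit 0) (nat_lit 9532976) (nat_lit 0x1fc3f2f7c) (nat_lit 282249032),
  Rx.mk (nat_lit 383) (nat_lit 7) (nat_lit 7) (nat_lit 5) (nat_lit 7) (nat_lit 167) (nat_lit 3) r1_167 r11_3 (nat_lit 0) (nat_lit 0) (nat_lit 0) (nat_lit 0x20056d4f2) (nat_lit 268435456),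
  Rx.mk (nat_lit 447) (nat_lit 7) (nat_lit 7) (nat_lit 6) (nat_lit 7) (nat_lit 168) (nat_lit 4) r1_168 r11_4 (nat_lit 0) (nat_lit 0) (nat_lit 0) (nat_lit 0x20056d4f2) (nat_lit 268435456)]
noncomputable def e1_21 : List Rx := [
  Rx.mk (nat_lit 0) (nat_lit 0) (nat_lit 0) (nat_lit 0) (nat_lit 0) (nat_lit 170) (nat_lit 40) r1_170 r9_40 (nat_lit 20883973) (nat_lit 12914458) (nat_lit 7583710) (nat_lit 0x1304b68a4) (nat_lit 530531947),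
  Rx.mk (nat_lit 2) (nat_lit 2) (nat_lit 0) (nat_lit 0) (nat_lit 1) (nat_lit 173) (nat_lit 41) r1_173 r9_41 (nat_lit 0) (nat_lit 13442990) (nat_lit 8685031) (nat_lit 0x1bbde0e6c) (nat_lit 363079977),
  Rx.mk (nat_lit 18) (nat_lit 2) (nat_lit 2) (nat_lit 0) (nat_lit 3) (nat_lit 174) (nat_lit 48) r1_174 r9_48 (nat_lit 0) (nat_lit 0) (nat_lit 9484367) (nat_lit 0x1ff744b14) (nat_lit 278840823),
  Rx.mk (nat_lit 24) (nat_lit 0) (nat_lit 3) (nat_lit 0) (nat_lit 2) (nat_lit 171) (nat_lit 42) r1_171 r9_42 (nat_lit 26762067) (nat_lit 0) (nat_lit 7078048) (nat_lit 0x1b49aa94e) (nat_lit 382508571),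
  Rx.mk (nat_lit 26) (nat_lit 2) (nat_lit 3) (nat_lit 0) (nat_lit 3) (nat_lit 176) (nat_lit 45) r1_176 r9_45 (nat_lit 0) (nat_lit 0) (nat_lit 9484367) (nat_lit 0x20056d4f2) (nat_lit 277919823),
  Rx.mk (nat_lit 146) (nat_lit 2) (nat_lit 2) (nat_lit 2) (nat_lit 7) (nat_lit 175) (nat_lit 49) r1_175 r9_49 (nat_lit 0) (nat_lit 0) (nat_lit 0) (nat_lit 0x20056d4f2) (nat_lit 268435456),
  Rx.mk (nat_lit 150) (nat_lit 6) (nat_lit 2) (nat_lit 2) (nat_lit 7) (nat_lit 169) (nat_lit 47) r1_169 r9_47 (nat_lit 0) (nat_lit 0) (nat_lit 0) (nat_lit 0x20056d4f2) (nat_lit 268435456),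
  Rx.mk (nat_lit 216) (nat_lit 0) (nat_lit 3) (nat_lit 3) (nat_lit 6) (nat_lit 172) (nat_lit 43) r1_172 r9_43 (nat_lit 18834357) (nat_lit 0) (nat_lit 0) (nat_lit 0x1f586cafa) (nat_lit 298626363),
  Rx.mk (nat_lit 218) (nat_lit 2) (nat_lit 3) (nat_lit 3) (nat_lit 7) (nat_lit 177) (nat_lit 46) r1_177 r9_46 (nat_lit 0) (nat_lit 0) (nat_lit 0) (nat_lit 0x20056d4f2) (nat_lit 268435456),
  Rx.mk (nat_lit 219) (nat_lit 3) (nat_lit 3) (nat_lit 3) (nat_lit 7) (nat_lit 178) (nat_lit 44) r1_178 r9_44 (nat_lit 0) (nat_lit 0) (nat_lit 0) (nat_lit 0x1fe10856c) (nat_lit 270810856)]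
noncomputable def e1_22 : List Rx := [
  Rx.mk (nat_lit 64) (nat_lit 0) (nat_lit 0) (nat_lit 1) (nat_lit 4) (nat_lit 180) (nat_lit 265) r1_180 r0_265 (nat_lit 27431001) (nat_lit 2915443) (nat_lit 0) (nat_lit 0x1aee862ac) (nat_lit 385035350),
  Rx.mk (nat_lit 72) (nat_lit 0) (nat_lit 1) (nat_lit 1) (nat_lit 6) (nat_lit 182) (nat_lit 266) r1_182 r0_266 (nat_lit 13498567) (nat_lit 0) (nat_lit 0) (nat_lit 0x1febef980) (nat_lit 283586673),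
  Rx.mk (nat_lit 88) (nat_lit 0) (nat_lit 3) (nat_lit 1) (nat_lit 6) (nat_lit 183) (nat_lit 267) r1_183 r0_267 (nat_lit 116538040) (nat_lit 0) (nat_lit 0) (nat_lit 0x22883d93e) (nat_lit 343677296),
  Rx.mk (nat_lit 91) (nat_lit 3) (nat_lit 3) (nat_lit 1) (nat_lit 7) (nat_lit 184) (nat_lit 268) r1_184 r0_268 (nat_lit 0) (nat_lit 0) (nat_lit 0) (nat_lit 0x202a9392a) (nat_lit 265996306),
  Rx.mk (nat_lit 320) (nat_lit 0) (nat_lit 0) (nat_lit 5) (nat_lit 4) (nat_lit 179) (nat_lit 269) r1_179 r0_269 (nat_lit 224842397) (nat_lit 6663) (nat_lit 0) (nat_lit 0x203c84418) (nat_lit 489417766),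
  Rx.mk (nat_lit 328) (nat_lit 0) (nat_lit 1) (nat_lit 5) (nat_lit 6) (nat_lit 181) (nat_lit 270) r1_181 r0_270 (nat_lit 31547541) (nat_lit 0) (nat_lit 0) (nat_lit 0x20169be36) (nat_lit 298828947)]
noncomputable def e1_23 : List Rx := [
  Rx.mk (nat_lit 72) (nat_lit 0) (nat_lit 1) (nat_lit 1) (nat_lit 6) (nat_lit 186) (nat_lit 272) r1_186 r1_272 (nat_lit 11144807) (nat_lit 0) (nat_lit 0) (nat_lit 0x1f7f36adc) (nat_lit 288382313),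
  Rx.mk (nat_lit 328) (nat_lit 0) (nat_lit 1) (nat_lit 5) (nat_lit 6) (nat_lit 185) (nat_lit 273) r1_185 r1_273 (nat_lit 9484367) (nat_lit 0) (nat_lit 0) (nat_lit 0x203e7d44a) (nat_lit 274207873)]
noncomputable def e1_24 : List Rx := [
  Rx.mk (nat_lit 88) (nat_lit 0) (nat_lit 3) (nat_lit 1) (nat_lit 6) (nat_lit 190) (nat_lit 279) r1_190 r4_279 (nat_lit 82661556) (nat_lit 0) (nat_lit 0) (nat_lit 0x208f77292) (nat_lit 342133062),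
  Rx.mk (nat_lit 91) (nat_lit 3) (nat_lit 3) (nat_lit 1) (nat_lit 7) (nat_lit 191) (nat_lit 280) r1_191 r4_280 (nat_lit 0) (nat_lit 0) (nat_lit 0) (nat_lit 0x210b033f2) (nat_lit 251571006),
  Rx.mk (nat_lit 320) (nat_lit 0) (nat_lit 0) (nat_lit 5) (nat_lit 4) (nat_lit 187) (nat_lit 281) r1_187 r4_281 (nat_lit 43539697) (nat_lit 10054617) (nat_lit 0) (nat_lit 0x1c098cc08) (nat_lit 389496620),
  Rx.mk (nat_lit 328) (nat_lit 0) (nat_lit 1) (nat_lit 5) (nat_lit 6) (nat_lit 188) (nat_lit 282) r1_188 r4_282 (nat_lit 9484367) (nat_lit 0) (nat_lit 0) (nat_lit 0x2081e0124) (nat_lit 269861973),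
  Rx.mk (nat_lit 344) (nat_lit 0) (nat_lit 3) (nat_lit 5) (nat_lit 6) (nat_lit 189) (nat_lit 283) r1_189 r4_283 (nat_lit 85522058) (nat_lit 0) (nat_lit 0) (nat_lit 0x1eb239b92) (nat_lit 376236714)]
noncomputable def e1_25 : List Rx := [
  Rx.mk (nat_lit 64) (nat_lit 0) (nat_lit 0) (nat_lit 1) (nat_lit 4) (nat_lit 192) (nat_lit 64) r1_192 r7_64 (nat_lit 10430206) (nat_lit 4648863) (nat_lit 0) (nat_lit 0x1ba0815a6) (nat_lit 357965125),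
  Rx.mk (nat_lit 66) (nat_lit 2) (nat_lit 0) (nat_lit 1) (nat_lit 5) (nat_lit 195) (nat_lit 65) r1_195 r7_65 (nat_lit 0) (nat_lit 4369240) (nat_lit 0) (nat_lit 0x20a61f4ea) (nat_lit 262415396),
  Rx.mk (nat_lit 72) (nat_lit 0) (nat_lit 1) (nat_lit 1) (nat_lit 6) (nat_lit 193) (nat_lit 66) r1_193 r7_66 (nat_lit 10636325) (nat_lit 0) (nat_lit 0) (nat_lit 0x1f952452e) (nat_lit 286423531),
  Rx.mk (nat_lit 74) (nat_lit 2) (nat_lit 1) (nat_lit 1) (nat_lit 7) (nat_lit 196) (nat_lit 67) r1_196 r7_67 (nat_lit 0) (nat_lit 0) (nat_lit 0) (nat_lit 0x203d18672) (nat_lit 264818306),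
  Rx.mk (nat_lit 88) (nat_lit 0) (nat_lit 3) (nat_lit 1) (nat_lit 6) (nat_lit 194) (nat_lit 68) r1_194 r7_68 (nat_lit 77834362) (nat_lit 0) (nat_lit 0) (nat_lit 0x23c840ddc) (nat_lit 284519518),
  Rx.mk (nat_lit 90) (nat_lit 2) (nat_lit 3) (nat_lit 1) (nat_lit 7) (nat_lit 197) (nat_lit 70) r1_197 r7_70 (nat_lit 0) (nat_lit 0) (nat_lit 0) (nat_lit 0x203d18672) (nat_lit 264818306),
  Rx.mk (nat_lit 91) (nat_lit 3) (nat_lit 3) (nat_lit 1) (nat_lit 7) (nat_lit 198) (nat_lit 69) r1_198 r7_69 (nat_lit 0) (nat_lit 0) (nat_lit 0) (nat_lit 0x2186519be) (nat_lit 243665906)]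
noncomputable def e1_26 : List Rx := [
  Rx.mk (nat_lit 72) (nat_lit 0) (nat_lit 1) (nat_lit 1) (nat_lit 6) (nat_lit 199) (nat_lit 66) r1_199 r8_66 (nat_lit 9484367) (nat_lit 0) (nat_lit 0) (nat_lit 0x1ff37e980) (nat_lit 279087523),
  Rx.mk (nat_lit 74) (nat_lit 2) (nat_lit 1) (nat_lit 1) (nat_lit 7) (nat_lit 200) (nat_lit 67) r1_200 r8_67 (nat_lit 0) (nat_lit 0) (nat_lit 0) (nat_lit 0x20056d4f2) (nat_lit 268435456)]
noncomputable def e1_27 : List Rx := [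
  Rx.mk (nat_lit 0) (nat_lit 0) (nat_lit 0) (nat_lit 0) (nat_lit 0) (nat_lit 201) (nat_lit 283) r1_201 r8_283 (nat_lit 21867451) (nat_lit 7297896) (nat_lit 2297773) (nat_lit 0x122387504) (nat_lit 535543626),
  Rx.mk (nat_lit 2) (nat_lit 2) (nat_lit 0) (nat_lit 0) (nat_lit 1) (nat_lit 206) (nat_lit 286) r1_206 r8_286 (nat_lit 0) (nat_lit 11602876) (nat_lit 7735107) (nat_lit 0x1a7f00338) (nat_lit 381456989),
  Rx.mk (nat_lit 18) (nat_lit 2) (nat_lit 2) (nat_lit 0) (nat_lit 3) (nat_lit 209) (nat_lit 288) r1_209 r8_288 (nat_lit 0) (nat_lit 0) (nat_lit 10031145) (nat_lit 0x1fcf46e78) (nat_lit 282000201),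
  Rx.mk (nat_lit 24) (nat_lit 0) (nat_lit 3) (nat_lit 0) (nat_lit 2) (nat_lit 204) (nat_lit 284) r1_204 r8_284 (nat_lit 35547039) (nat_lit 0) (nat_lit 6929116) (nat_lit 0x1ae23a2dc) (nat_lit 398008261),
  Rx.mk (nat_lit 26) (nat_lit 2) (nat_lit 3) (nat_lit 0) (nat_lit 3) (nat_lit 212) (nat_lit 287) r1_212 r8_287 (nat_lit 0) (nat_lit 0) (nat_lit 9484367) (nat_lit 0x20056d4f2) (nat_lit 277919823),
  Rx.mk (nat_lit 27) (nat_lit 3) (nat_lit 3) (nat_lit 0) (nat_lit 3) (nat_lit 214) (nat_lit 285) r1_214 r8_285 (nat_lit 0) (nat_lit 0) (nat_lit 8744868) (nat_lit 0x1d6cc99f0) (nat_lit 321116524),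
  Rx.mk (nat_lit 64) (nat_lit 0) (nat_lit 0) (nat_lit 1) (nat_lit 4) (nat_lit 202) (nat_lit 289) r1_202 r8_289 (nat_lit 10882942) (nat_lit 13214423) (nat_lit 0) (nat_lit 0x19da949de) (nat_lit 397122321),
  Rx.mk (nat_lit 66) (nat_lit 2) (nat_lit 0) (nat_lit 1) (nat_lit 5) (nat_lit 207) (nat_lit 293) r1_207 r8_293 (nat_lit 0) (nat_lit 9484367) (nat_lit 0) (nat_lit 0x20056d4f2) (nat_lit 277919823),
  Rx.mk (nat_lit 72) (nat_lit 0) (nat_lit 1) (nat_lit 1) (nat_lit 6) (nat_lit 203) (nat_lit 290) r1_203 r8_290 (nat_lit 9931330) (nat_lit 0) (nat_lit 0) (nat_lit 0x1fe7e6424) (nat_lit 280291336),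
  Rx.mk (nat_lit 74) (nat_lit 2) (nat_lit 1) (nat_lit 1) (nat_lit 7) (nat_lit 208) (nat_lit 294) r1_208 r8_294 (nat_lit 0) (nat_lit 0) (nat_lit 0) (nat_lit 0x20056d4f2) (nat_lit 268435456),
  Rx.mk (nat_lit 82) (nat_lit 2) (nat_lit 2) (nat_lit 1) (nat_lit 7) (nat_lit 210) (nat_lit 296) r1_210 r8_296 (nat_lit 0) (nat_lit 0) (nat_lit 0) (nat_lit 0x20056d4f2) (nat_lit 268435456),
  Rx.mk (nat_lit 88) (nat_lit 0) (nat_lit 3) (nat_lit 1) (nat_lit 6) (nat_lit 205) (nat_lit 291) r1_205 r8_291 (nat_lit 16360369) (nat_lit 0) (nat_lit 0) (nat_lit 0x207a02b46) (nat_lit 277234125),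
  Rx.mk (nat_lit 90) (nat_lit 2) (nat_lit 3) (nat_lit 1) (nat_lit 7) (nat_lit 213) (nat_lit 295) r1_213 r8_295 (nat_lit 0) (nat_lit 0) (nat_lit 0) (nat_lit 0x20056d4f2) (nat_lit 268435456),
  Rx.mk (nat_lit 91) (nat_lit 3) (nat_lit 3) (nat_lit 1) (nat_lit 7) (nat_lit 215) (nat_lit 292) r1_215 r8_292 (nat_lit 0) (nat_lit 0) (nat_lit 0) (nat_lit 0x20ec457d0) (nat_lit 253540856),
  Rx.mk (nat_lit 146) (nat_lit 2) (nat_lit 2) (nat_lit 2) (nat_lit 7) (nat_lit 211) (nat_lit 298) r1_211 r8_298 (nat_lit 0) (nat_lit 0) (nat_lit 0) (nat_lit 0x20056d4f2) (nat_lit 268435456),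
  Rx.mk (nat_lit 219) (nat_lit 3) (nat_lit 3) (nat_lit 3) (nat_lit 7) (nat_lit 216) (nat_lit 297) r1_216 r8_297 (nat_lit 0) (nat_lit 0) (nat_lit 0) (nat_lit 0x1fa0d60fc) (nat_lit 275021756)]
noncomputable def e1_28 : List Rx := [
  Rx.mk (nat_lit 88) (nat_lit 0) (nat_lit 3) (nat_lit 1) (nat_lit 6) (nat_lit 217) (nat_lit 49) r1_217 r10_49 (nat_lit 58027450) (nat_lit 0) (nat_lit 0) (nat_lit 0x21a734438) (nat_lit 299572206),
  Rx.mk (nat_lit 90) (nat_lit 2) (nat_lit 3) (nat_lit 1) (nat_lit 7) (nat_lit 218) (nat_lit 51) r1_218 r10_51 (nat_lit 0) (nat_lit 0) (nat_lit 0) (nat_lit 0x202e90604) (nat_lit 265759956),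
  Rx.mk (nat_lit 91) (nat_lit 3) (nat_lit 3) (nat_lit 1) (nat_lit 7) (nat_lit 219) (nat_lit 50) r1_219 r10_50 (nat_lit 0) (nat_lit 0) (nat_lit 0) (nat_lit 0x20a75a3fa) (nat_lit 257956456)]
noncomputable def e1_29 : List Rx := [
  Rx.mk (nat_lit 91) (nat_lit 3) (nat_lit 3) (nat_lit 1) (nat_lit 7) (nat_lit 224) (nat_lit 45) r1_224 r11_45 (nat_lit 0) (nat_lit 0) (nat_lit 0) (nat_lit 0x20935ad46) (nat_lit 259253406),
  Rx.mk (nat_lit 320) (nat_lit 0) (nat_lit 0) (nat_lit 5) (nat_lit 4) (nat_lit 220) (nat_lit 41) r1_220 r11_41 (nat_lit 46094924) (nat_lit 19578584) (nat_lit 0) (nat_lit 0x1cf21484a) (nat_lit 386174664),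
  Rx.mk (nat_lit 328) (nat_lit 0) (nat_lit 1) (nat_lit 5) (nat_lit 6) (nat_lit 221) (nat_lit 42) r1_221 r11_42 (nat_lit 9484367) (nat_lit 0) (nat_lit 0) (nat_lit 0x2037c5260) (nat_lit 274647623),
  Rx.mk (nat_lit 344) (nat_lit 0) (nat_lit 3) (nat_lit 5) (nat_lit 6) (nat_lit 222) (nat_lit 43) r1_222 r11_43 (nat_lit 14849202) (nat_lit 0) (nat_lit 0) (nat_lit 0x208915322) (nat_lit 274748908),
  Rx.mk (nat_lit 347) (nat_lit 3) (nat_lit 3) (nat_lit 5) (nat_lit 7) (nat_lit 223) (nat_lit 44) r1_223 r11_44 (nat_lit 0) (nat_lit 0) (nat_lit 0) (nat_lit 0x20c766d60) (nat_lit 255901206)]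
noncomputable def e1_30 : List Rx := [
  Rx.mk (nat_lit 291) (nat_lit 3) (nat_lit 4) (nat_lit 4) (nat_lit 1) (nat_lit 229) (nat_lit 107) r1_229 r5_107 (nat_lit 0) (nat_lit 1577709) (nat_lit 1010839) (nat_lit 0x1cd78d18e) (nat_lit 324800054),
  Rx.mk (nat_lit 295) (nat_lit 7) (nat_lit 4) (nat_lit 4) (nat_lit 1) (nat_lit 225) (nat_lit 106) r1_225 r5_106 (nat_lit 0) (nat_lit 30080640) (nat_lit 1166073) (nat_lit 0x1fa8fae72) (nat_lit 305635719),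
  Rx.mk (nat_lit 315) (nat_lit 3) (nat_lit 7) (nat_lit 4) (nat_lit 3) (nat_lit 231) (nat_lit 108) r1_231 r5_108 (nat_lit 0) (nat_lit 0) (nat_lit 2633536) (nat_lit 0x206188944) (nat_lit 265076892),
  Rx.mk (nat_lit 355) (nat_lit 3) (nat_lit 4) (nat_lit 5) (nat_lit 5) (nat_lit 230) (nat_lit 110) r1_230 r5_110 (nat_lit 0) (nat_lit 7840804) (nat_lit 0) (nat_lit 0x201fd6cee) (nat_lit 274550960),
  Rx.mk (nat_lit 359) (nat_lit 7) (nat_lit 4) (nat_lit 5) (nat_lit 5) (nat_lit 226) (nat_lit 109) r1_226 r5_109 (nat_lit 0) (nat_lit 9484367) (nat_lit 0) (nat_lit 0x20df9d168) (nat_lit 263838473),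
  Rx.mk (nat_lit 379) (nat_lit 3) (nat_lit 7) (nat_lit 5) (nat_lit 7) (nat_lit 232) (nat_lit 111) r1_232 r5_111 (nat_lit 0) (nat_lit 0) (nat_lit 0) (nat_lit 0x20056d4f2) (nat_lit 268435456),
  Rx.mk (nat_lit 423) (nat_lit 7) (nat_lit 4) (nat_lit 6) (nat_lit 5) (nat_lit 227) (nat_lit 113) r1_227 r5_113 (nat_lit 0) (nat_lit 12680896) (nat_lit 0) (nat_lit 0x20cc40b7e) (nat_lit 268272752),
  Rx.mk (nat_lit 439) (nat_lit 7) (nat_lit 6) (nat_lit 6) (nat_lit 7) (nat_lit 228) (nat_lit 114) r1_228 r5_114 (nat_lit 0) (nat_lit 0) (nat_lit 0) (nat_lit 0x203808ed4) (nat_lit 265137456),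
  Rx.mk (nat_lit 507) (nat_lit 3) (nat_lit 7) (nat_lit 7) (nat_lit 7) (nat_lit 233) (nat_lit 112) r1_233 r5_112 (nat_lit 0) (nat_lit 0) (nat_lit 0) (nat_lit 0x20056d4f2) (nat_lit 268435456)]
noncomputable def e1_31 : List Rx := [
  Rx.mk (nat_lit 291) (nat_lit 3) (nat_lit 4) (nat_lit 4) (nat_lit 1) (nat_lit 237) (nat_lit 108) r1_237 r11_108 (nat_lit 0) (nat_lit 11055571) (nat_lit 8059474) (nat_lit 0x1f5e71306) (nat_lit 298517051),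
  Rx.mk (nat_lit 295) (nat_lit 7) (nat_lit 4) (nat_lit 4) (nat_lit 1) (nat_lit 234) (nat_lit 107) r1_234 r11_107 (nat_lit 0) (nat_lit 35202404) (nat_lit 4901515) (nat_lit 0x1f42f4ad8) (nat_lit 321308525),
  Rx.mk (nat_lit 315) (nat_lit 3) (nat_lit 7) (nat_lit 4) (nat_lit 3) (nat_lit 238) (nat_lit 109) r1_238 r11_109 (nat_lit 0) (nat_lit 0) (nat_lit 9484367) (nat_lit 0x20056d4f2) (nat_lit 277919823),
  Rx.mk (nat_lit 423) (nat_lit 7) (nat_lit 4) (nat_lit 6) (nat_lit 5) (nat_lit 235) (nat_lit 111) r1_235 r11_111 (nat_lit 0) (nat_lit 9603706) (nat_lit 0) (nat_lit 0x2014202e2) (nat_lit 277079262),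
  Rx.mk (nat_lit 439) (nat_lit 7) (nat_lit 6) (nat_lit 6) (nat_lit 7) (nat_lit 236) (nat_lit 112) r1_236 r11_112 (nat_lit 0) (nat_lit 0) (nat_lit 0) (nat_lit 0x2166093be) (nat_lit 245732256),
  Rx.mk (nat_lit 507) (nat_lit 3) (nat_lit 7) (nat_lit 7) (nat_lit 7) (nat_lit 239) (nat_lit 110) r1_239 r11_110 (nat_lit 0) (nat_lit 0) (nat_lit 0) (nat_lit 0x20056d4f2) (nat_lit 268435456)]
noncomputable def e1_32 : List Rx := [
  Rx.mk (nat_lit 344) (nat_lit 0) (nat_lit 3) (nat_lit 5) (nat_lit 6) (nat_lit 241) (nat_lit 305) r1_241 r6_305 (nat_lit 9819301) (nat_lit 0) (nat_lit 0) (nat_lit 0x210ca9f76) (nat_lit 261242507),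
  Rx.mk (nat_lit 376) (nat_lit 0) (nat_lit 7) (nat_lit 5) (nat_lit 6) (nat_lit 240) (nat_lit 304) r1_240 r6_304 (nat_lit 31922) (nat_lit 0) (nat_lit 0) (nat_lit 0x20e6230aa) (nat_lit 253759128)]
noncomputable def e1_33 : List Rx := [
  Rx.mk (nat_lit 88) (nat_lit 0) (nat_lit 3) (nat_lit 1) (nat_lit 6) (nat_lit 243) (nat_lit 267) r1_243 r5_267 (nat_lit 35134519) (nat_lit 0) (nat_lit 0) (nat_lit 0x2047df5ec) (nat_lit 299206125),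
  Rx.mk (nat_lit 344) (nat_lit 0) (nat_lit 3) (nat_lit 5) (nat_lit 6) (nat_lit 242) (nat_lit 268) r1_242 r5_268 (nat_lit 37131224) (nat_lit 0) (nat_lit 0) (nat_lit 0x214068f42) (nat_lit 285211480)]
noncomputable def e1_34 : List Rx := [
  Rx.mk (nat_lit 88) (nat_lit 0) (nat_lit 3) (nat_lit 1) (nat_lit 6) (nat_lit 244) (nat_lit 333) r1_244 r11_333 (nat_lit 6474081) (nat_lit 0) (nat_lit 0) (nat_lit 0x20c7531d4) (nat_lit 262388587),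
  Rx.mk (nat_lit 90) (nat_lit 2) (nat_lit 3) (nat_lit 1) (nat_lit 7) (nat_lit 245) (nat_lit 334) r1_245 r11_334 (nat_lit 0) (nat_lit 0) (nat_lit 0) (nat_lit 0x2278a5904) (nat_lit 228164356)]
noncomputable def e1_35 : List Rx := [
  Rx.mk (nat_lit 355) (nat_lit 3) (nat_lit 4) (nat_lit 5) (nat_lit 5) (nat_lit 247) (nat_lit 178) r1_247 r6_178 (nat_lit 0) (nat_lit 603204) (nat_lit 0) (nat_lit 0x214e18854) (nat_lit 247758010),
  Rx.mk (nat_lit 376) (nat_lit 0) (nat_lit 7) (nat_lit 5) (nat_lit 6) (nat_lit 246) (nat_lit 179) r1_246 r6_179 (nat_lit 1926974) (nat_lit 0) (nat_lit 0) (nat_lit 0x22142ee30) (nat_lit 236462830),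
  Rx.mk (nat_lit 379) (nat_lit 3) (nat_lit 7) (nat_lit 5) (nat_lit 7) (nat_lit 248) (nat_lit 180) r1_248 r6_180 (nat_lit 0) (nat_lit 0) (nat_lit 0) (nat_lit 0x2545a608c) (nat_lit 182309556)]
noncomputable def e1_36 : List Rx := [
  Rx.mk (nat_lit 344) (nat_lit 0) (nat_lit 3) (nat_lit 5) (nat_lit 6) (nat_lit 250) (nat_lit 7) r1_250 r12_7 (nat_lit 7255466) (nat_lit 0) (nat_lit 0) (nat_lit 0x20ee82606) (nat_lit 260578772),
  Rx.mk (nat_lit 376) (nat_lit 0) (nat_lit 7) (nat_lit 5) (nat_lit 6) (nat_lit 249) (nat_lit 8) r1_249 r12_8 (nat_lit 21232) (nat_lit 0) (nat_lit 0) (nat_lit 0x2243b5f32) (nat_lit 231396038),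
  Rx.mk (nat_lit 379) (nat_lit 3) (nat_lit 7) (nat_lit 5) (nat_lit 7) (nat_lit 251) (nat_lit 9) r1_251 r12_9 (nat_lit 0) (nat_lit 0) (nat_lit 0) (nat_lit 0x2637ba8d2) (nat_lit 166787206)]
noncomputable def e1_37 : List Rx := [
  Rx.mk (nat_lit 353) (nat_lit 1) (nat_lit 4) (nat_lit 5) (nat_lit 5) (nat_lit 253) (nat_lit 283) r1_253 r0_283 (nat_lit 0) (nat_lit 8873187) (nat_lit 0) (nat_lit 0x1ed1d1158) (nat_lit 297579593),
  Rx.mk (nat_lit 360) (nat_lit 0) (nat_lit 5) (nat_lit 5) (nat_lit 6) (nat_lit 252) (nat_lit 282) r1_252 r0_282 (nat_lit 168759698) (nat_lit 0) (nat_lit 0) (nat_lit 0x1fff69344) (nat_lit 437235604),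
  Rx.mk (nat_lit 361) (nat_lit 1) (nat_lit 5) (nat_lit 5) (nat_lit 7) (nat_lit 254) (nat_lit 284) r1_254 r0_284 (nat_lit 0) (nat_lit 0) (nat_lit 0) (nat_lit 0x1f99bebe8) (nat_lit 275482756)]
noncomputable def e1_38 : List Rx := [
  Rx.mk (nat_lit 353) (nat_lit 1) (nat_lit 4) (nat_lit 5) (nat_lit 5) (nat_lit 255) (nat_lit 173) r1_255 r0_173 (nat_lit 0) (nat_lit 65685782) (nat_lit 0) (nat_lit 0x200c6d310) (nat_lit 333632738)]
noncomputable def e1_39 : List Rx := [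
  Rx.mk (nat_lit 353) (nat_lit 1) (nat_lit 4) (nat_lit 5) (nat_lit 5) (nat_lit 256) (nat_lit 397) r1_256 r7_397 (nat_lit 0) (nat_lit 9484367) (nat_lit 0) (nat_lit 0x1ed793e56) (nat_lit 297812473),
  Rx.mk (nat_lit 361) (nat_lit 1) (nat_lit 5) (nat_lit 5) (nat_lit 7) (nat_lit 257) (nat_lit 398) r1_257 r7_398 (nat_lit 0) (nat_lit 0) (nat_lit 0) (nat_lit 0x1fb224e26) (nat_lit 273879356)]
noncomputable def e1_40 : List Rx := [
  Rx.mk (nat_lit 293) (nat_lit 5) (nat_lit 4) (nat_lit 4) (nat_lit 1) (nat_lit 258) (nat_lit 183) r1_258 r2_183 (nat_lit 0) (nat_lit 16672179) (nat_lit 11319226) (nat_lit 0x180b1dce2) (nat_lit 431779961),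
  Rx.mk (nat_lit 357) (nat_lit 5) (nat_lit 4) (nat_lit 5) (nat_lit 5) (nat_lit 259) (nat_lit 184) r1_259 r2_184 (nat_lit 0) (nat_lit 10097628) (nat_lit 0) (nat_lit 0x1fd30161c) (nat_lit 281824434),
  Rx.mk (nat_lit 421) (nat_lit 5) (nat_lit 4) (nat_lit 6) (nat_lit 5) (nat_lit 260) (nat_lit 185) r1_260 r2_185 (nat_lit 0) (nat_lit 9484367) (nat_lit 0) (nat_lit 0x20056d4f2) (nat_lit 277919823),
  Rx.mk (nat_lit 437) (nat_lit 5) (nat_lit 6) (nat_lit 6) (nat_lit 7) (nat_lit 261) (nat_lit 186) r1_261 r2_186 (nat_lit 0) (nat_lit 0) (nat_lit 0) (nat_lit 0x20056d4f2) (nat_lit 268435456)]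
noncomputable def e1_41 : List Rx := [
  Rx.mk (nat_lit 293) (nat_lit 5) (nat_lit 4) (nat_lit 4) (nat_lit 1) (nat_lit 262) (nat_lit 160) r1_262 r9_160 (nat_lit 0) (nat_lit 13133979) (nat_lit 32489931) (nat_lit 0x1939dcef6) (nat_lit 429324366),
  Rx.mk (nat_lit 301) (nat_lit 5) (nat_lit 5) (nat_lit 4) (nat_lit 3) (nat_lit 265) (nat_lit 163) r1_265 r9_163 (nat_lit 0) (nat_lit 0) (nat_lit 9484367) (nat_lit 0x1fe666b26) (nat_lit 279942473),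
  Rx.mk (nat_lit 357) (nat_lit 5) (nat_lit 4) (nat_lit 5) (nat_lit 5) (nat_lit 263) (nat_lit 161) r1_263 r9_161 (nat_lit 0) (nat_lit 9869976) (nat_lit 0) (nat_lit 0x1feb4a80e) (nat_lit 280007182),
  Rx.mk (nat_lit 365) (nat_lit 5) (nat_lit 5) (nat_lit 5) (nat_lit 7) (nat_lit 266) (nat_lit 164) r1_266 r9_164 (nat_lit 0) (nat_lit 0) (nat_lit 0) (nat_lit 0x20056d4f2) (nat_lit 268435456),
  Rx.mk (nat_lit 421) (nat_lit 5) (nat_lit 4) (nat_lit 6) (nat_lit 5) (nat_lit 264) (nat_lit 162) r1_264 r9_162 (nat_lit 0) (nat_lit 9484367) (nat_lit 0) (nat_lit 0x20056d4f2) (nat_lit 277919823),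
  Rx.mk (nat_lit 429) (nat_lit 5) (nat_lit 5) (nat_lit 6) (nat_lit 7) (nat_lit 267) (nat_lit 165) r1_267 r9_165 (nat_lit 0) (nat_lit 0) (nat_lit 0) (nat_lit 0x20056d4f2) (nat_lit 268435456),
  Rx.mk (nat_lit 437) (nat_lit 5) (nat_lit 6) (nat_lit 6) (nat_lit 7) (nat_lit 268) (nat_lit 166) r1_268 r9_166 (nat_lit 0) (nat_lit 0) (nat_lit 0) (nat_lit 0x20056d4f2) (nat_lit 268435456)]
noncomputable def e1_42 : List Rx := [
  Rx.mk (nat_lit 293) (nat_lit 5) (nat_lit 4) (nat_lit 4) (nat_lit 1) (nat_lit 269) (nat_lit 83) r1_269 r9_83 (nat_lit 0) (nat_lit 50589702) (nat_lit 10429633) (nat_lit 0x1c8842fca) (nat_lit 388554141),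
  Rx.mk (nat_lit 421) (nat_lit 5) (nat_lit 4) (nat_lit 6) (nat_lit 5) (nat_lit 270) (nat_lit 84) r1_270 r9_84 (nat_lit 0) (nat_lit 9484367) (nat_lit 0) (nat_lit 0x20056d4f2) (nat_lit 277919823),
  Rx.mk (nat_lit 437) (nat_lit 5) (nat_lit 6) (nat_lit 6) (nat_lit 7) (nat_lit 271) (nat_lit 85) r1_271 r9_85 (nat_lit 0) (nat_lit 0) (nat_lit 0) (nat_lit 0x20056d4f2) (nat_lit 268435456)]
noncomputable def e1_43 : List Rx := [
  Rx.mk (nat_lit 353) (nat_lit 1) (nat_lit 4) (nat_lit 5) (nat_lit 5) (nat_lit 273) (nat_lit 185) r1_273 r1_185 (nat_lit 0) (nat_lit 9484367) (nat_lit 0) (nat_lit 0x203e7d44a) (nat_lit 274207873),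
  Rx.mk (nat_lit 357) (nat_lit 5) (nat_lit 4) (nat_lit 5) (nat_lit 5) (nat_lit 272) (nat_lit 186) r1_272 r1_186 (nat_lit 0) (nat_lit 11144807) (nat_lit 0) (nat_lit 0x1f7f36adc) (nat_lit 288382313)]
noncomputable def e1_44 : List Rx := [
  Rx.mk (nat_lit 353) (nat_lit 1) (nat_lit 4) (nat_lit 5) (nat_lit 5) (nat_lit 276) (nat_lit 318) r1_276 r8_318 (nat_lit 0) (nat_lit 9484367) (nat_lit 0) (nat_lit 0x1fd832dac) (nat_lit 280871973),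
  Rx.mk (nat_lit 357) (nat_lit 5) (nat_lit 4) (nat_lit 5) (nat_lit 5) (nat_lit 274) (nat_lit 316) r1_274 r8_316 (nat_lit 0) (nat_lit 9484367) (nat_lit 0) (nat_lit 0x1fcee3b0c) (nat_lit 281479073),
  Rx.mk (nat_lit 361) (nat_lit 1) (nat_lit 5) (nat_lit 5) (nat_lit 7) (nat_lit 277) (nat_lit 319) r1_277 r8_319 (nat_lit 0) (nat_lit 0) (nat_lit 0) (nat_lit 0x20056d4f2) (nat_lit 268435456),
  Rx.mk (nat_lit 365) (nat_lit 5) (nat_lit 5) (nat_lit 5) (nat_lit 7) (nat_lit 275) (nat_lit 317) r1_275 r8_317 (nat_lit 0) (nat_lit 0) (nat_lit 0) (nat_lit 0x20056d4f2) (nat_lit 268435456)]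
noncomputable def e1_45 : List Rx := [
  Rx.mk (nat_lit 360) (nat_lit 0) (nat_lit 5) (nat_lit 5) (nat_lit 6) (nat_lit 278) (nat_lit 278) r1_278 r1_278 (nat_lit 25554718) (nat_lit 0) (nat_lit 0) (nat_lit 0x208a3575c) (nat_lit 285374374),
  Rx.mk (nat_lit 361) (nat_lit 1) (nat_lit 5) (nat_lit 5) (nat_lit 7) (nat_lit 279) (nat_lit 279) r1_279 r1_279 (nat_lit 0) (nat_lit 0) (nat_lit 0) (nat_lit 0x20056d4f2) (nat_lit 268435456)]
noncomputable def e1_46 : List Rx := [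
  Rx.mk (nat_lit 72) (nat_lit 0) (nat_lit 1) (nat_lit 1) (nat_lit 6) (nat_lit 282) (nat_lit 306) r1_282 r2_306 (nat_lit 9484367) (nat_lit 0) (nat_lit 0) (nat_lit 0x1fd510a98) (nat_lit 281076273),
  Rx.mk (nat_lit 73) (nat_lit 1) (nat_lit 1) (nat_lit 1) (nat_lit 7) (nat_lit 285) (nat_lit 309) r1_285 r2_309 (nat_lit 0) (nat_lit 0) (nat_lit 0) (nat_lit 0x20056d4f2) (nat_lit 268435456),
  Rx.mk (nat_lit 328) (nat_lit 0) (nat_lit 1) (nat_lit 5) (nat_lit 6) (nat_lit 281) (nat_lit 305) r1_281 r2_305 (nat_lit 10175953) (nat_lit 0) (nat_lit 0) (nat_lit 0x1fe89b2e8) (nat_lit 280481809),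
  Rx.mk (nat_lit 329) (nat_lit 1) (nat_lit 1) (nat_lit 5) (nat_lit 7) (nat_lit 284) (nat_lit 308) r1_284 r2_308 (nat_lit 0) (nat_lit 0) (nat_lit 0) (nat_lit 0x20056d4f2) (nat_lit 268435456),
  Rx.mk (nat_lit 360) (nat_lit 0) (nat_lit 5) (nat_lit 5) (nat_lit 6) (nat_lit 280) (nat_lit 304) r1_280 r2_304 (nat_lit 41135547) (nat_lit 0) (nat_lit 0) (nat_lit 0x20165832a) (nat_lit 308445753),
  Rx.mk (nat_lit 361) (nat_lit 1) (nat_lit 5) (nat_lit 5) (nat_lit 7) (nat_lit 283) (nat_lit 307) r1_283 r2_307 (nat_lit 0) (nat_lit 0) (nat_lit 0) (nat_lit 0x20056d4f2) (nat_lit 268435456)]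
noncomputable def e1_47 : List Rx := [
  Rx.mk (nat_lit 361) (nat_lit 1) (nat_lit 5) (nat_lit 5) (nat_lit 7) (nat_lit 286) (nat_lit 180) r1_286 r8_180 (nat_lit 0) (nat_lit 0) (nat_lit 0) (nat_lit 0x20056d4f2) (nat_lit 268435456)]
noncomputable def e1_48 : List Rx := [
  Rx.mk (nat_lit 73) (nat_lit 1) (nat_lit 1) (nat_lit 1) (nat_lit 7) (nat_lit 289) (nat_lit 292) r1_289 r9_292 (nat_lit 0) (nat_lit 0) (nat_lit 0) (nat_lit 0x20056d4f2) (nat_lit 268435456),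
  Rx.mk (nat_lit 329) (nat_lit 1) (nat_lit 1) (nat_lit 5) (nat_lit 7) (nat_lit 288) (nat_lit 291) r1_288 r9_291 (nat_lit 0) (nat_lit 0) (nat_lit 0) (nat_lit 0x20056d4f2) (nat_lit 268435456),
  Rx.mk (nat_lit 361) (nat_lit 1) (nat_lit 5) (nat_lit 5) (nat_lit 7) (nat_lit 287) (nat_lit 290) r1_287 r9_290 (nat_lit 0) (nat_lit 0) (nat_lit 0) (nat_lit 0x20056d4f2) (nat_lit 268435456)]
noncomputable def e1_49 : List Rx := [
  Rx.mk (nat_lit 72) (nat_lit 0) (nat_lit 1) (nat_lit 1) (nat_lit 6) (nat_lit 290) (nat_lit 286) r1_290 r9_286 (nat_lit 9484367) (nat_lit 0) (nat_lit 0) (nat_lit 0x20040cf68) (nat_lit 278009223),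
  Rx.mk (nat_lit 73) (nat_lit 1) (nat_lit 1) (nat_lit 1) (nat_lit 7) (nat_lit 291) (nat_lit 287) r1_291 r9_287 (nat_lit 0) (nat_lit 0) (nat_lit 0) (nat_lit 0x20056d4f2) (nat_lit 268435456),
  Rx.mk (nat_lit 74) (nat_lit 2) (nat_lit 1) (nat_lit 1) (nat_lit 7) (nat_lit 292) (nat_lit 288) r1_292 r9_288 (nat_lit 0) (nat_lit 0) (nat_lit 0) (nat_lit 0x20056d4f2) (nat_lit 268435456)]
noncomputable def e1_50 : List Rx := [
  Rx.mk (nat_lit 352) (nat_lit 0) (nat_lit 4) (nat_lit 5) (nat_lit 4) (nat_lit 293) (nat_lit 272) r1_293 r3_272 (nat_lit 1558) (nat_lit 2560) (nat_lit 0) (nat_lit 0x200147198) (nat_lit 268358724),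
  Rx.mk (nat_lit 353) (nat_lit 1) (nat_lit 4) (nat_lit 5) (nat_lit 5) (nat_lit 295) (nat_lit 274) r1_295 r3_274 (nat_lit 0) (nat_lit 12803) (nat_lit 0) (nat_lit 0x1fed03baa) (nat_lit 269710059),
  Rx.mk (nat_lit 376) (nat_lit 0) (nat_lit 7) (nat_lit 5) (nat_lit 6) (nat_lit 294) (nat_lit 273) r1_294 r3_273 (nat_lit 1729121) (nat_lit 0) (nat_lit 0) (nat_lit 0x20953dff0) (nat_lit 260719377),
  Rx.mk (nat_lit 377) (nat_lit 1) (nat_lit 7) (nat_lit 5) (nat_lit 7) (nat_lit 296) (nat_lit 275) r1_296 r3_275 (nat_lit 0) (nat_lit 0) (nat_lit 0) (nat_lit 0x244dbdaf0) (nat_lit 198128006)]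
noncomputable def e1_51 : List Rx := [
  Rx.mk (nat_lit 352) (nat_lit 0) (nat_lit 4) (nat_lit 5) (nat_lit 4) (nat_lit 297) (nat_lit 293) r1_297 r4_293 (nat_lit 37486881) (nat_lit 7964941) (nat_lit 0) (nat_lit 0x1e2447636) (nat_lit 345644678),
  Rx.mk (nat_lit 353) (nat_lit 1) (nat_lit 4) (nat_lit 5) (nat_lit 5) (nat_lit 300) (nat_lit 296) r1_300 r4_296 (nat_lit 0) (nat_lit 8498519) (nat_lit 0) (nat_lit 0x2004215b2) (nat_lit 277012825),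
  Rx.mk (nat_lit 360) (nat_lit 0) (nat_lit 5) (nat_lit 5) (nat_lit 6) (nat_lit 298) (nat_lit 294) r1_298 r4_294 (nat_lit 64041447) (nat_lit 0) (nat_lit 0) (nat_lit 0x1ecae2630) (nat_lit 353130703),
  Rx.mk (nat_lit 361) (nat_lit 1) (nat_lit 5) (nat_lit 5) (nat_lit 7) (nat_lit 301) (nat_lit 297) r1_301 r4_297 (nat_lit 0) (nat_lit 0) (nat_lit 0) (nat_lit 0x203c80264) (nat_lit 264857406),
  Rx.mk (nat_lit 376) (nat_lit 0) (nat_lit 7) (nat_lit 5) (nat_lit 6) (nat_lit 299) (nat_lit 295) r1_299 r4_295 (nat_lit 9484367) (nat_lit 0) (nat_lit 0) (nat_lit 0x204029028) (nat_lit 274104223),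
  Rx.mk (nat_lit 377) (nat_lit 1) (nat_lit 7) (nat_lit 5) (nat_lit 7) (nat_lit 302) (nat_lit 298) r1_302 r4_298 (nat_lit 0) (nat_lit 0) (nat_lit 0) (nat_lit 0x201adc162) (nat_lit 267040306)]
noncomputable def e1_52 : List Rx := [
  Rx.mk (nat_lit 376) (nat_lit 0) (nat_lit 7) (nat_lit 5) (nat_lit 6) (nat_lit 303) (nat_lit 273) r1_303 r5_273 (nat_lit 5178035) (nat_lit 0) (nat_lit 0) (nat_lit 0x21b74b3ee) (nat_lit 245703641),
  Rx.mk (nat_lit 377) (nat_lit 1) (nat_lit 7) (nat_lit 5) (nat_lit 7) (nat_lit 304) (nat_lit 274) r1_304 r5_274 (nat_lit 0) (nat_lit 0) (nat_lit 0) (nat_lit 0x23e9a944c) (nat_lit 204555456)]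
noncomputable def e1_53 : List Rx := [
  Rx.mk (nat_lit 353) (nat_lit 1) (nat_lit 4) (nat_lit 5) (nat_lit 5) (nat_lit 305) (nat_lit 159) r1_305 r4_159 (nat_lit 0) (nat_lit 11745164) (nat_lit 0) (nat_lit 0x1ff78dda0) (nat_lit 281068370),
  Rx.mk (nat_lit 377) (nat_lit 1) (nat_lit 7) (nat_lit 5) (nat_lit 7) (nat_lit 306) (nat_lit 160) r1_306 r4_160 (nat_lit 0) (nat_lit 0) (nat_lit 0) (nat_lit 0x20783377a) (nat_lit 260999956)]
noncomputable def e1_54 : List Rx := [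
  Rx.mk (nat_lit 353) (nat_lit 1) (nat_lit 4) (nat_lit 5) (nat_lit 5) (nat_lit 307) (nat_lit 320) r1_307 r10_320 (nat_lit 0) (nat_lit 8852219) (nat_lit 0) (nat_lit 0x1ee1179aa) (nat_lit 296542475),
  Rx.mk (nat_lit 361) (nat_lit 1) (nat_lit 5) (nat_lit 5) (nat_lit 7) (nat_lit 308) (nat_lit 321) r1_308 r10_321 (nat_lit 0) (nat_lit 0) (nat_lit 0) (nat_lit 0x20056d4f2) (nat_lit 268435456),
  Rx.mk (nat_lit 377) (nat_lit 1) (nat_lit 7) (nat_lit 5) (nat_lit 7) (nat_lit 309) (nat_lit 322) r1_309 r10_322 (nat_lit 0) (nat_lit 0) (nat_lit 0) (nat_lit 0x20056d4f2) (nat_lit 268435456)]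
noncomputable def e1_55 : List Rx := [
  Rx.mk (nat_lit 377) (nat_lit 1) (nat_lit 7) (nat_lit 5) (nat_lit 7) (nat_lit 310) (nat_lit 338) r1_310 r11_338 (nat_lit 0) (nat_lit 0) (nat_lit 0) (nat_lit 0x20056d4f2) (nat_lit 268435456)]
noncomputable def e1_56 : List Rx := [
  Rx.mk (nat_lit 352) (nat_lit 0) (nat_lit 4) (nat_lit 5) (nat_lit 4) (nat_lit 311) (nat_lit 164) r1_311 r5_164 (nat_lit 8473775) (nat_lit 7835173) (nat_lit 0) (nat_lit 0x1debb64d4) (nat_lit 320226004),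
  Rx.mk (nat_lit 353) (nat_lit 1) (nat_lit 4) (nat_lit 5) (nat_lit 5) (nat_lit 313) (nat_lit 165) r1_313 r5_165 (nat_lit 0) (nat_lit 6784373) (nat_lit 0) (nat_lit 0x2094db7d8) (nat_lit 265940429),
  Rx.mk (nat_lit 355) (nat_lit 3) (nat_lit 4) (nat_lit 5) (nat_lit 5) (nat_lit 315) (nat_lit 166) r1_315 r5_166 (nat_lit 0) (nat_lit 2151161) (nat_lit 0) (nat_lit 0x205962a4e) (nat_lit 265095617),
  Rx.mk (nat_lit 376) (nat_lit 0) (nat_lit 7) (nat_lit 5) (nat_lit 6) (nat_lit 312) (nat_lit 167) r1_312 r5_167 (nat_lit 6934858) (nat_lit 0) (nat_lit 0) (nat_lit 0x204533bd6) (nat_lit 271196564),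
  Rx.mk (nat_lit 377) (nat_lit 1) (nat_lit 7) (nat_lit 5) (nat_lit 7) (nat_lit 314) (nat_lit 168) r1_314 r5_168 (nat_lit 0) (nat_lit 0) (nat_lit 0) (nat_lit 0x207d1b012) (nat_lit 260685156)]
noncomputable def e1_57 : List Rx := [
  Rx.mk (nat_lit 352) (nat_lit 0) (nat_lit 4) (nat_lit 5) (nat_lit 4) (nat_lit 316) (nat_lit 183) r1_316 r11_183 (nat_lit 59178764) (nat_lit 12774047) (nat_lit 0) (nat_lit 0x1dfe512e2) (nat_lit 374667667),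
  Rx.mk (nat_lit 353) (nat_lit 1) (nat_lit 4) (nat_lit 5) (nat_lit 5) (nat_lit 319) (nat_lit 184) r1_319 r11_184 (nat_lit 0) (nat_lit 9484367) (nat_lit 0) (nat_lit 0x20056d4f2) (nat_lit 277919823),
  Rx.mk (nat_lit 355) (nat_lit 3) (nat_lit 4) (nat_lit 5) (nat_lit 5) (nat_lit 322) (nat_lit 185) r1_322 r11_185 (nat_lit 0) (nat_lit 7557539) (nat_lit 0) (nat_lit 0x202295dd6) (nat_lit 274094945),
  Rx.mk (nat_lit 360) (nat_lit 0) (nat_lit 5) (nat_lit 5) (nat_lit 6) (nat_lit 317) (nat_lit 186) r1_317 r11_186 (nat_lit 22776374) (nat_lit 0) (nat_lit 0) (nat_lit 0x1f59a92b0) (nat_lit 302473830),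
  Rx.mk (nat_lit 361) (nat_lit 1) (nat_lit 5) (nat_lit 5) (nat_lit 7) (nat_lit 320) (nat_lit 187) r1_320 r11_187 (nat_lit 0) (nat_lit 0) (nat_lit 0) (nat_lit 0x20056d4f2) (nat_lit 268435456),
  Rx.mk (nat_lit 363) (nat_lit 3) (nat_lit 5) (nat_lit 5) (nat_lit 7) (nat_lit 323) (nat_lit 188) r1_323 r11_188 (nat_lit 0) (nat_lit 0) (nat_lit 0) (nat_lit 0x214231770) (nat_lit 248034356),
  Rx.mk (nat_lit 376) (nat_lit 0) (nat_lit 7) (nat_lit 5) (nat_lit 6) (nat_lit 318) (nat_lit 189) r1_318 r11_189 (nat_lit 9484367) (nat_lit 0) (nat_lit 0) (nat_lit 0x20056d4f2) (nat_lit 277919823),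
  Rx.mk (nat_lit 377) (nat_lit 1) (nat_lit 7) (nat_lit 5) (nat_lit 7) (nat_lit 321) (nat_lit 190) r1_321 r11_190 (nat_lit 0) (nat_lit 0) (nat_lit 0) (nat_lit 0x20056d4f2) (nat_lit 268435456)]
noncomputable def e1 : List (List Rx) := [e1_0, e1_1, e1_2, e1_3, e1_4, e1_5, e1_6, e1_7, e1_8, e1_9, e1_10, e1_11, e1_12, e1_13, e1_14, e1_15, e1_16, e1_17, e1_18, e1_19, e1_20, e1_21, e1_22, e1_23, e1_24, e1_25, e1_26, e1_27, e1_28, e1_29, e1_30, e1_31, e1_32, e1_33, e1_34, e1_35, e1_36, e1_37, e1_38, e1_39, e1_40, e1_41, e1_42, e1_43, e1_44, e1_45, e1_46, e1_47, e1_48, e1_49, e1_50, e1_51, e1_52, e1_53, e1_54, e1_55, e1_56, e1_57]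
noncomputable def e2_0 : List Rx := [
  Rx.mk (nat_lit 295) (nat_lit 7) (nat_lit 4) (nat_lit 4) (nat_lit 1) (nat_lit 4) (nat_lit 34) r2_4 r0_34 (nat_lit 0) (nat_lit 1671764) (nat_lit 813893) (nat_lit 0x19c19e614) (nat_lit 377108313),
  Rx.mk (nat_lit 308) (nat_lit 4) (nat_lit 6) (nat_lit 4) (nat_lit 2) (nat_lit 0) (nat_lit 31) r2_0 r0_31 (nat_lit 349407) (nat_lit 0) (nat_lit 294663) (nat_lit 0x19a17a64e) (nat_lit 377353876),
  Rx.mk (nat_lit 311) (nat_lit 7) (nat_lit 6) (nat_lit 4) (nat_lit 3) (nat_lit 6) (nat_lit 39) r2_6 r0_39 (nat_lit 0) (nat_lit 0) (nat_lit 267483) (nat_lit 0x2090e0ad4) (nat_lit 259516689),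
  Rx.mk (nat_lit 319) (nat_lit 7) (nat_lit 7) (nat_lit 4) (nat_lit 3) (nat_lit 9) (nat_lit 36) r2_9 r0_36 (nat_lit 0) (nat_lit 0) (nat_lit 5691868) (nat_lit 0x1f50a2202) (nat_lit 285995074),
  Rx.mk (nat_lit 359) (nat_lit 7) (nat_lit 4) (nat_lit 5) (nat_lit 5) (nat_lit 5) (nat_lit 35) r2_5 r0_35 (nat_lit 0) (nat_lit 10441397) (nat_lit 0) (nat_lit 0x1fa2a4a28) (nat_lit 285340053),
  Rx.mk (nat_lit 372) (nat_lit 4) (nat_lit 6) (nat_lit 5) (nat_lit 6) (nat_lit 1) (nat_lit 32) r2_1 r0_32 (nat_lit 3951197) (nat_lit 0) (nat_lit 0) (nat_lit 0x1fb1bfb20) (nat_lit 277838903),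
  Rx.mk (nat_lit 375) (nat_lit 7) (nat_lit 6) (nat_lit 5) (nat_lit 7) (nat_lit 7) (nat_lit 40) r2_7 r0_40 (nat_lit 0) (nat_lit 0) (nat_lit 0) (nat_lit 0x23e3f71fc) (nat_lit 204928556),
  Rx.mk (nat_lit 383) (nat_lit 7) (nat_lit 7) (nat_lit 5) (nat_lit 7) (nat_lit 10) (nat_lit 37) r2_10 r0_37 (nat_lit 0) (nat_lit 0) (nat_lit 0) (nat_lit 0x1ffc2f214) (nat_lit 269036706),
  Rx.mk (nat_lit 436) (nat_lit 4) (nat_lit 6) (nat_lit 6) (nat_lit 6) (nat_lit 2) (nat_lit 33) r2_2 r0_33 (nat_lit 7471693) (nat_lit 0) (nat_lit 0) (nat_lit 0x1fd740098) (nat_lit 278900949),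
  Rx.mk (nat_lit 438) (nat_lit 6) (nat_lit 6) (nat_lit 6) (nat_lit 7) (nat_lit 3) (nat_lit 42) r2_3 r0_42 (nat_lit 0) (nat_lit 0) (nat_lit 0) (nat_lit 0x2086fe548) (nat_lit 260050456),
  Rx.mk (nat_lit 439) (nat_lit 7) (nat_lit 6) (nat_lit 6) (nat_lit 7) (nat_lit 8) (nat_lit 41) r2_8 r0_41 (nat_lit 0) (nat_lit 0) (nat_lit 0) (nat_lit 0x240278928) (nat_lit 202977506),
  Rx.mk (nat_lit 507) (nat_lit 3) (nat_lit 7) (nat_lit 7) (nat_lit 7) (nat_lit 12) (nat_lit 30) r2_12 r0_30 (nat_lit 0) (nat_lit 0) (nat_lit 0) (nat_lit 0x1ffdc5ed4) (nat_lit 268933606),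
  Rx.mk (nat_lit 511) (nat_lit 7) (nat_lit 7) (nat_lit 7) (nat_lit 7) (nat_lit 11) (nat_lit 38) r2_11 r0_38 (nat_lit 0) (nat_lit 0) (nat_lit 0) (nat_lit 0x2013deebe) (nat_lit 267490256)]
noncomputable def e2_1 : List Rx := [
  Rx.mk (nat_lit 295) (nat_lit 7) (nat_lit 4) (nat_lit 4) (nat_lit 1) (nat_lit 16) (nat_lit 33) r2_16 r1_33 (nat_lit 0) (nat_lit 9879272) (nat_lit 4874968) (nat_lit 0x1d2b216b0) (nat_lit 331468546),
  Rx.mk (nat_lit 308) (nat_lit 4) (nat_lit 6) (nat_lit 4) (nat_lit 2) (nat_lit 13) (nat_lit 31) r2_13 r1_31 (nat_lit 15142004) (nat_lit 0) (nat_lit 6163962) (nat_lit 0x1d3d18706) (nat_lit 336837272),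
  Rx.mk (nat_lit 311) (nat_lit 7) (nat_lit 6) (nat_lit 4) (nat_lit 3) (nat_lit 17) (nat_lit 36) r2_17 r1_36 (nat_lit 0) (nat_lit 0) (nat_lit 2049429) (nat_lit 0x23435871e) (nat_lit 217247935),
  Rx.mk (nat_lit 319) (nat_lit 7) (nat_lit 7) (nat_lit 4) (nat_lit 3) (nat_lit 19) (nat_lit 34) r2_19 r1_34 (nat_lit 0) (nat_lit 0) (nat_lit 7136584) (nat_lit 0x202b6b672) (nat_lit 273100490),
  Rx.mk (nat_lit 436) (nat_lit 4) (nat_lit 6) (nat_lit 6) (nat_lit 6) (nat_lit 14) (nat_lit 32) r2_14 r1_32 (nat_lit 10970796) (nat_lit 0) (nat_lit 0) (nat_lit 0x1fc4dd81a) (nat_lit 283625902),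
  Rx.mk (nat_lit 438) (nat_lit 6) (nat_lit 6) (nat_lit 6) (nat_lit 7) (nat_lit 15) (nat_lit 38) r2_15 r1_38 (nat_lit 0) (nat_lit 0) (nat_lit 0) (nat_lit 0x20056d4f2) (nat_lit 268435456),
  Rx.mk (nat_lit 439) (nat_lit 7) (nat_lit 6) (nat_lit 6) (nat_lit 7) (nat_lit 18) (nat_lit 37) r2_18 r1_37 (nat_lit 0) (nat_lit 0) (nat_lit 0) (nat_lit 0x20d1be4ac) (nat_lit 255245706),
  Rx.mk (nat_lit 507) (nat_lit 3) (nat_lit 7) (nat_lit 7) (nat_lit 7) (nat_lit 21) (nat_lit 30) r2_21 r1_30 (nat_lit 0) (nat_lit 0) (nat_lit 0) (nat_lit 0x20056d4f2) (nat_lit 268435456),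
  Rx.mk (nat_lit 511) (nat_lit 7) (nat_lit 7) (nat_lit 7) (nat_lit 7) (nat_lit 20) (nat_lit 35) r2_20 r1_35 (nat_lit 0) (nat_lit 0) (nat_lit 0) (nat_lit 0x20056d4f2) (nat_lit 268435456)]
noncomputable def e2_2 : List Rx := [
  Rx.mk (nat_lit 2) (nat_lit 2) (nat_lit 0) (nat_lit 0) (nat_lit 1) (nat_lit 35) (nat_lit 27) r2_35 r2_27 (nat_lit 0) (nat_lit 186310) (nat_lit 171961) (nat_lit 0x198c60f24) (nat_lit 378453277),
  Rx.mk (nat_lit 24) (nat_lit 0) (nat_lit 3) (nat_lit 0) (nat_lit 2) (nat_lit 33) (nat_lit 22) r2_33 r2_22 (nat_lit 186310) (nat_lit 0) (nat_lit 171961) (nat_lit 0x198c60f24) (nat_lit 378453277),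
  Rx.mk (nat_lit 26) (nat_lit 2) (nat_lit 3) (nat_lit 0) (nat_lit 3) (nat_lit 38) (nat_lit 29) r2_38 r2_29 (nat_lit 0) (nat_lit 0) (nat_lit 971747) (nat_lit 0x2079364ec) (nat_lit 261853903),
  Rx.mk (nat_lit 130) (nat_lit 2) (nat_lit 0) (nat_lit 2) (nat_lit 5) (nat_lit 36) (nat_lit 28) r2_36 r2_28 (nat_lit 0) (nat_lit 13000078) (nat_lit 0) (nat_lit 0x1e3674fa2) (nat_lit 311997584),
  Rx.mk (nat_lit 146) (nat_lit 2) (nat_lit 2) (nat_lit 2) (nat_lit 7) (nat_lit 37) (nat_lit 32) r2_37 r2_32 (nat_lit 0) (nat_lit 0) (nat_lit 0) (nat_lit 0x20056d4f2) (nat_lit 268435456),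
  Rx.mk (nat_lit 150) (nat_lit 6) (nat_lit 2) (nat_lit 2) (nat_lit 7) (nat_lit 26) (nat_lit 41) r2_26 r2_41 (nat_lit 0) (nat_lit 0) (nat_lit 0) (nat_lit 0x20056d4f2) (nat_lit 268435456),
  Rx.mk (nat_lit 154) (nat_lit 2) (nat_lit 3) (nat_lit 2) (nat_lit 7) (nat_lit 39) (nat_lit 31) r2_39 r2_31 (nat_lit 0) (nat_lit 0) (nat_lit 0) (nat_lit 0x20519907e) (nat_lit 263496556),
  Rx.mk (nat_lit 216) (nat_lit 0) (nat_lit 3) (nat_lit 3) (nat_lit 6) (nat_lit 34) (nat_lit 23) r2_34 r2_23 (nat_lit 13000078) (nat_lit 0) (nat_lit 0) (nat_lit 0x1e3674fa2) (nat_lit 311997584),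
  Rx.mk (nat_lit 218) (nat_lit 2) (nat_lit 3) (nat_lit 3) (nat_lit 7) (nat_lit 40) (nat_lit 30) r2_40 r2_30 (nat_lit 0) (nat_lit 0) (nat_lit 0) (nat_lit 0x20519907e) (nat_lit 263496556),
  Rx.mk (nat_lit 219) (nat_lit 3) (nat_lit 3) (nat_lit 3) (nat_lit 7) (nat_lit 43) (nat_lit 24) r2_43 r2_24 (nat_lit 0) (nat_lit 0) (nat_lit 0) (nat_lit 0x20056d4f2) (nat_lit 268435456),
  Rx.mk (nat_lit 251) (nat_lit 3) (nat_lit 7) (nat_lit 3) (nat_lit 7) (nat_lit 42) (nat_lit 25) r2_42 r2_25 (nat_lit 0) (nat_lit 0) (nat_lit 0) (nat_lit 0x20056d4f2) (nat_lit 268435456),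
  Rx.mk (nat_lit 295) (nat_lit 7) (nat_lit 4) (nat_lit 4) (nat_lit 1) (nat_lit 27) (nat_lit 35) r2_27 r2_35 (nat_lit 0) (nat_lit 186310) (nat_lit 171961) (nat_lit 0x198c60f24) (nat_lit 378453277),
  Rx.mk (nat_lit 308) (nat_lit 4) (nat_lit 6) (nat_lit 4) (nat_lit 2) (nat_lit 22) (nat_lit 33) r2_22 r2_33 (nat_lit 186310) (nat_lit 0) (nat_lit 171961) (nat_lit 0x198c60f24) (nat_lit 378453277),
  Rx.mk (nat_lit 311) (nat_lit 7) (nat_lit 6) (nat_lit 4) (nat_lit 3) (nat_lit 29) (nat_lit 38) r2_29 r2_38 (nat_lit 0) (nat_lit 0) (nat_lit 971747) (nat_lit 0x2079364ec) (nat_lit 261853903),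
  Rx.mk (nat_lit 406) (nat_lit 6) (nat_lit 2) (nat_lit 6) (nat_lit 7) (nat_lit 25) (nat_lit 42) r2_25 r2_42 (nat_lit 0) (nat_lit 0) (nat_lit 0) (nat_lit 0x20056d4f2) (nat_lit 268435456),
  Rx.mk (nat_lit 436) (nat_lit 4) (nat_lit 6) (nat_lit 6) (nat_lit 6) (nat_lit 23) (nat_lit 34) r2_23 r2_34 (nat_lit 13000078) (nat_lit 0) (nat_lit 0) (nat_lit 0x1e3674fa2) (nat_lit 311997584),
  Rx.mk (nat_lit 438) (nat_lit 6) (nat_lit 6) (nat_lit 6) (nat_lit 7) (nat_lit 24) (nat_lit 43) r2_24 r2_43 (nat_lit 0) (nat_lit 0) (nat_lit 0) (nat_lit 0x20056d4f2) (nat_lit 268435456),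
  Rx.mk (nat_lit 439) (nat_lit 7) (nat_lit 6) (nat_lit 6) (nat_lit 7) (nat_lit 30) (nat_lit 40) r2_30 r2_40 (nat_lit 0) (nat_lit 0) (nat_lit 0) (nat_lit 0x20519907e) (nat_lit 263496556),
  Rx.mk (nat_lit 487) (nat_lit 7) (nat_lit 4) (nat_lit 7) (nat_lit 5) (nat_lit 28) (nat_lit 36) r2_28 r2_36 (nat_lit 0) (nat_lit 13000078) (nat_lit 0) (nat_lit 0x1e3674fa2) (nat_lit 311997584),
  Rx.mk (nat_lit 503) (nat_lit 7) (nat_lit 6) (nat_lit 7) (nat_lit 7) (nat_lit 31) (nat_lit 39) r2_31 r2_39 (nat_lit 0) (nat_lit 0) (nat_lit 0) (nat_lit 0x20519907e) (nat_lit 263496556),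
  Rx.mk (nat_lit 507) (nat_lit 3) (nat_lit 7) (nat_lit 7) (nat_lit 7) (nat_lit 41) (nat_lit 26) r2_41 r2_26 (nat_lit 0) (nat_lit 0) (nat_lit 0) (nat_lit 0x20056d4f2) (nat_lit 268435456),
  Rx.mk (nat_lit 511) (nat_lit 7) (nat_lit 7) (nat_lit 7) (nat_lit 7) (nat_lit 32) (nat_lit 37) r2_32 r2_37 (nat_lit 0) (nat_lit 0) (nat_lit 0) (nat_lit 0x20056d4f2) (nat_lit 268435456)]
noncomputable def e2_3 : List Rx := [
  Rx.mk (nat_lit 359) (nat_lit 7) (nat_lit 4) (nat_lit 5) (nat_lit 5) (nat_lit 44) (nat_lit 21) r2_44 r3_21 (nat_lit 0) (nat_lit 175017) (nat_lit 0) (nat_lit 0x20b313174) (nat_lit 257181973),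
  Rx.mk (nat_lit 379) (nat_lit 3) (nat_lit 7) (nat_lit 5) (nat_lit 7) (nat_lit 46) (nat_lit 20) r2_46 r3_20 (nat_lit 0) (nat_lit 0) (nat_lit 0) (nat_lit 0x22bb0e67e) (nat_lit 223917606),
  Rx.mk (nat_lit 383) (nat_lit 7) (nat_lit 7) (nat_lit 5) (nat_lit 7) (nat_lit 45) (nat_lit 22) r2_45 r3_22 (nat_lit 0) (nat_lit 0) (nat_lit 0) (nat_lit 0x2250293b8) (nat_lit 230736656)]
noncomputable def e2_4 : List Rx := [
  Rx.mk (nat_lit 295) (nat_lit 7) (nat_lit 4) (nat_lit 4) (nat_lit 1) (nat_lit 47) (nat_lit 24) r2_47 r4_24 (nat_lit 0) (nat_lit 5694526) (nat_lit 2600229) (nat_lit 0x1c5a2375c) (nat_lit 338859561),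
  Rx.mk (nat_lit 311) (nat_lit 7) (nat_lit 6) (nat_lit 4) (nat_lit 3) (nat_lit 49) (nat_lit 28) r2_49 r4_28 (nat_lit 0) (nat_lit 0) (nat_lit 1053683) (nat_lit 0x1f8ecabd8) (nat_lit 277184439),
  Rx.mk (nat_lit 315) (nat_lit 3) (nat_lit 7) (nat_lit 4) (nat_lit 3) (nat_lit 54) (nat_lit 21) r2_54 r4_21 (nat_lit 0) (nat_lit 0) (nat_lit 5443682) (nat_lit 0x2062342a8) (nat_lit 267864038),
  Rx.mk (nat_lit 319) (nat_lit 7) (nat_lit 7) (nat_lit 4) (nat_lit 3) (nat_lit 52) (nat_lit 26) r2_52 r4_26 (nat_lit 0) (nat_lit 0) (nat_lit 4694297) (nat_lit 0x20923b212) (nat_lit 264022053),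
  Rx.mk (nat_lit 359) (nat_lit 7) (nat_lit 4) (nat_lit 5) (nat_lit 5) (nat_lit 48) (nat_lit 25) r2_48 r4_25 (nat_lit 0) (nat_lit 9484367) (nat_lit 0) (nat_lit 0x204074712) (nat_lit 274085323),
  Rx.mk (nat_lit 375) (nat_lit 7) (nat_lit 6) (nat_lit 5) (nat_lit 7) (nat_lit 50) (nat_lit 29) r2_50 r4_29 (nat_lit 0) (nat_lit 0) (nat_lit 0) (nat_lit 0x22d7cf9de) (nat_lit 222080006),
  Rx.mk (nat_lit 379) (nat_lit 3) (nat_lit 7) (nat_lit 5) (nat_lit 7) (nat_lit 55) (nat_lit 22) r2_55 r4_22 (nat_lit 0) (nat_lit 0) (nat_lit 0) (nat_lit 0x20056d4f2) (nat_lit 268435456),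
  Rx.mk (nat_lit 383) (nat_lit 7) (nat_lit 7) (nat_lit 5) (nat_lit 7) (nat_lit 53) (nat_lit 27) r2_53 r4_27 (nat_lit 0) (nat_lit 0) (nat_lit 0) (nat_lit 0x20056d4f2) (nat_lit 268435456),
  Rx.mk (nat_lit 439) (nat_lit 7) (nat_lit 6) (nat_lit 6) (nat_lit 7) (nat_lit 51) (nat_lit 30) r2_51 r4_30 (nat_lit 0) (nat_lit 0) (nat_lit 0) (nat_lit 0x22c726c72) (nat_lit 223145856),
  Rx.mk (nat_lit 507) (nat_lit 3) (nat_lit 7) (nat_lit 7) (nat_lit 7) (nat_lit 56) (nat_lit 23) r2_56 r4_23 (nat_lit 0) (nat_lit 0) (nat_lit 0) (nat_lit 0x20056d4f2) (nat_lit 268435456)]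
noncomputable def e2_5 : List Rx := [
  Rx.mk (nat_lit 379) (nat_lit 3) (nat_lit 7) (nat_lit 5) (nat_lit 7) (nat_lit 58) (nat_lit 14) r2_58 r5_14 (nat_lit 0) (nat_lit 0) (nat_lit 0) (nat_lit 0x20056d4f2) (nat_lit 268435456),
  Rx.mk (nat_lit 383) (nat_lit 7) (nat_lit 7) (nat_lit 5) (nat_lit 7) (nat_lit 57) (nat_lit 15) r2_57 r5_15 (nat_lit 0) (nat_lit 0) (nat_lit 0) (nat_lit 0x20716b122) (nat_lit 261438406)]
noncomputable def e2_6 : List Rx := [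
  Rx.mk (nat_lit 88) (nat_lit 0) (nat_lit 3) (nat_lit 1) (nat_lit 6) (nat_lit 59) (nat_lit 21) r2_59 r3_21 (nat_lit 175017) (nat_lit 0) (nat_lit 0) (nat_lit 0x20b313174) (nat_lit 257181973),
  Rx.mk (nat_lit 91) (nat_lit 3) (nat_lit 3) (nat_lit 1) (nat_lit 7) (nat_lit 61) (nat_lit 22) r2_61 r3_22 (nat_lit 0) (nat_lit 0) (nat_lit 0) (nat_lit 0x2250293b8) (nat_lit 230736656),
  Rx.mk (nat_lit 123) (nat_lit 3) (nat_lit 7) (nat_lit 1) (nat_lit 7) (nat_lit 60) (nat_lit 20) r2_60 r3_20 (nat_lit 0) (nat_lit 0) (nat_lit 0) (nat_lit 0x22bb0e67e) (nat_lit 223917606)]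
noncomputable def e2_7 : List Rx := [
  Rx.mk (nat_lit 2) (nat_lit 2) (nat_lit 0) (nat_lit 0) (nat_lit 1) (nat_lit 64) (nat_lit 31) r2_64 r0_31 (nat_lit 0) (nat_lit 349407) (nat_lit 294663) (nat_lit 0x19a17a64e) (nat_lit 377353876),
  Rx.mk (nat_lit 24) (nat_lit 0) (nat_lit 3) (nat_lit 0) (nat_lit 2) (nat_lit 62) (nat_lit 34) r2_62 r0_34 (nat_lit 1671764) (nat_lit 0) (nat_lit 813893) (nat_lit 0x19c19e614) (nat_lit 377108313),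
  Rx.mk (nat_lit 26) (nat_lit 2) (nat_lit 3) (nat_lit 0) (nat_lit 3) (nat_lit 68) (nat_lit 39) r2_68 r0_39 (nat_lit 0) (nat_lit 0) (nat_lit 267483) (nat_lit 0x2090e0ad4) (nat_lit 259516689),
  Rx.mk (nat_lit 27) (nat_lit 3) (nat_lit 3) (nat_lit 0) (nat_lit 3) (nat_lit 72) (nat_lit 36) r2_72 r0_36 (nat_lit 0) (nat_lit 0) (nat_lit 5691868) (nat_lit 0x1f50a2202) (nat_lit 285995074),
  Rx.mk (nat_lit 66) (nat_lit 2) (nat_lit 0) (nat_lit 1) (nat_lit 5) (nat_lit 65) (nat_lit 32) r2_65 r0_32 (nat_lit 0) (nat_lit 3951197) (nat_lit 0) (nat_lit 0x1fb1bfb20) (nat_lit 277838903),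
  Rx.mk (nat_lit 88) (nat_lit 0) (nat_lit 3) (nat_lit 1) (nat_lit 6) (nat_lit 63) (nat_lit 35) r2_63 r0_35 (nat_lit 10441397) (nat_lit 0) (nat_lit 0) (nat_lit 0x1fa2a4a28) (nat_lit 285340053),
  Rx.mk (nat_lit 90) (nat_lit 2) (nat_lit 3) (nat_lit 1) (nat_lit 7) (nat_lit 69) (nat_lit 40) r2_69 r0_40 (nat_lit 0) (nat_lit 0) (nat_lit 0) (nat_lit 0x23e3f71fc) (nat_lit 204928556),
  Rx.mk (nat_lit 91) (nat_lit 3) (nat_lit 3) (nat_lit 1) (nat_lit 7) (nat_lit 73) (nat_lit 37) r2_73 r0_37 (nat_lit 0) (nat_lit 0) (nat_lit 0) (nat_lit 0x1ffc2f214) (nat_lit 269036706),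
  Rx.mk (nat_lit 130) (nat_lit 2) (nat_lit 0) (nat_lit 2) (nat_lit 5) (nat_lit 66) (nat_lit 33) r2_66 r0_33 (nat_lit 0) (nat_lit 7471693) (nat_lit 0) (nat_lit 0x1fd740098) (nat_lit 278900949),
  Rx.mk (nat_lit 146) (nat_lit 2) (nat_lit 2) (nat_lit 2) (nat_lit 7) (nat_lit 67) (nat_lit 42) r2_67 r0_42 (nat_lit 0) (nat_lit 0) (nat_lit 0) (nat_lit 0x2086fe548) (nat_lit 260050456),
  Rx.mk (nat_lit 154) (nat_lit 2) (nat_lit 3) (nat_lit 2) (nat_lit 7) (nat_lit 70) (nat_lit 41) r2_70 r0_41 (nat_lit 0) (nat_lit 0) (nat_lit 0) (nat_lit 0x240278928) (nat_lit 202977506),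
  Rx.mk (nat_lit 219) (nat_lit 3) (nat_lit 3) (nat_lit 3) (nat_lit 7) (nat_lit 74) (nat_lit 38) r2_74 r0_38 (nat_lit 0) (nat_lit 0) (nat_lit 0) (nat_lit 0x2013deebe) (nat_lit 267490256),
  Rx.mk (nat_lit 251) (nat_lit 3) (nat_lit 7) (nat_lit 3) (nat_lit 7) (nat_lit 71) (nat_lit 30) r2_71 r0_30 (nat_lit 0) (nat_lit 0) (nat_lit 0) (nat_lit 0x1ffdc5ed4) (nat_lit 268933606)]
noncomputable def e2_8 : List Rx := [
  Rx.mk (nat_lit 2) (nat_lit 2) (nat_lit 0) (nat_lit 0) (nat_lit 1) (nat_lit 76) (nat_lit 31) r2_76 r1_31 (nat_lit 0) (nat_lit 15142004) (nat_lit 6163962) (nat_lit 0x1d3d18706) (nat_lit 336837272),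
  Rx.mk (nat_lit 24) (nat_lit 0) (nat_lit 3) (nat_lit 0) (nat_lit 2) (nat_lit 75) (nat_lit 33) r2_75 r1_33 (nat_lit 9879272) (nat_lit 0) (nat_lit 4874968) (nat_lit 0x1d2b216b0) (nat_lit 331468546),
  Rx.mk (nat_lit 26) (nat_lit 2) (nat_lit 3) (nat_lit 0) (nat_lit 3) (nat_lit 79) (nat_lit 36) r2_79 r1_36 (nat_lit 0) (nat_lit 0) (nat_lit 2049429) (nat_lit 0x23435871e) (nat_lit 217247935),
  Rx.mk (nat_lit 27) (nat_lit 3) (nat_lit 3) (nat_lit 0) (nat_lit 3) (nat_lit 82) (nat_lit 34) r2_82 r1_34 (nat_lit 0) (nat_lit 0) (nat_lit 7136584) (nat_lit 0x202b6b672) (nat_lit 273100490),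
  Rx.mk (nat_lit 130) (nat_lit 2) (nat_lit 0) (nat_lit 2) (nat_lit 5) (nat_lit 77) (nat_lit 32) r2_77 r1_32 (nat_lit 0) (nat_lit 10970796) (nat_lit 0) (nat_lit 0x1fc4dd81a) (nat_lit 283625902),
  Rx.mk (nat_lit 146) (nat_lit 2) (nat_lit 2) (nat_lit 2) (nat_lit 7) (nat_lit 78) (nat_lit 38) r2_78 r1_38 (nat_lit 0) (nat_lit 0) (nat_lit 0) (nat_lit 0x20056d4f2) (nat_lit 268435456),
  Rx.mk (nat_lit 154) (nat_lit 2) (nat_lit 3) (nat_lit 2) (nat_lit 7) (nat_lit 80) (nat_lit 37) r2_80 r1_37 (nat_lit 0) (nat_lit 0) (nat_lit 0) (nat_lit 0x20d1be4ac) (nat_lit 255245706),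
  Rx.mk (nat_lit 219) (nat_lit 3) (nat_lit 3) (nat_lit 3) (nat_lit 7) (nat_lit 83) (nat_lit 35) r2_83 r1_35 (nat_lit 0) (nat_lit 0) (nat_lit 0) (nat_lit 0x20056d4f2) (nat_lit 268435456),
  Rx.mk (nat_lit 251) (nat_lit 3) (nat_lit 7) (nat_lit 3) (nat_lit 7) (nat_lit 81) (nat_lit 30) r2_81 r1_30 (nat_lit 0) (nat_lit 0) (nat_lit 0) (nat_lit 0x20056d4f2) (nat_lit 268435456)]
noncomputable def e2_9 : List Rx := [
  Rx.mk (nat_lit 24) (nat_lit 0) (nat_lit 3) (nat_lit 0) (nat_lit 2) (nat_lit 84) (nat_lit 24) r2_84 r4_24 (nat_lit 5694526) (nat_lit 0) (nat_lit 2600229) (nat_lit 0x1c5a2375c) (nat_lit 338859561),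
  Rx.mk (nat_lit 26) (nat_lit 2) (nat_lit 3) (nat_lit 0) (nat_lit 3) (nat_lit 86) (nat_lit 28) r2_86 r4_28 (nat_lit 0) (nat_lit 0) (nat_lit 1053683) (nat_lit 0x1f8ecabd8) (nat_lit 277184439),
  Rx.mk (nat_lit 27) (nat_lit 3) (nat_lit 3) (nat_lit 0) (nat_lit 3) (nat_lit 92) (nat_lit 26) r2_92 r4_26 (nat_lit 0) (nat_lit 0) (nat_lit 4694297) (nat_lit 0x20923b212) (nat_lit 264022053),
  Rx.mk (nat_lit 59) (nat_lit 3) (nat_lit 7) (nat_lit 0) (nat_lit 3) (nat_lit 89) (nat_lit 21) r2_89 r4_21 (nat_lit 0) (nat_lit 0) (nat_lit 5443682) (nat_lit 0x2062342a8) (nat_lit 267864038),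
  Rx.mk (nat_lit 88) (nat_lit 0) (nat_lit 3) (nat_lit 1) (nat_lit 6) (nat_lit 85) (nat_lit 25) r2_85 r4_25 (nat_lit 9484367) (nat_lit 0) (nat_lit 0) (nat_lit 0x204074712) (nat_lit 274085323),
  Rx.mk (nat_lit 90) (nat_lit 2) (nat_lit 3) (nat_lit 1) (nat_lit 7) (nat_lit 87) (nat_lit 29) r2_87 r4_29 (nat_lit 0) (nat_lit 0) (nat_lit 0) (nat_lit 0x22d7cf9de) (nat_lit 222080006),
  Rx.mk (nat_lit 91) (nat_lit 3) (nat_lit 3) (nat_lit 1) (nat_lit 7) (nat_lit 93) (nat_lit 27) r2_93 r4_27 (nat_lit 0) (nat_lit 0) (nat_lit 0) (nat_lit 0x20056d4f2) (nat_lit 268435456),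
  Rx.mk (nat_lit 123) (nat_lit 3) (nat_lit 7) (nat_lit 1) (nat_lit 7) (nat_lit 90) (nat_lit 22) r2_90 r4_22 (nat_lit 0) (nat_lit 0) (nat_lit 0) (nat_lit 0x20056d4f2) (nat_lit 268435456),
  Rx.mk (nat_lit 154) (nat_lit 2) (nat_lit 3) (nat_lit 2) (nat_lit 7) (nat_lit 88) (nat_lit 30) r2_88 r4_30 (nat_lit 0) (nat_lit 0) (nat_lit 0) (nat_lit 0x22c726c72) (nat_lit 223145856),
  Rx.mk (nat_lit 251) (nat_lit 3) (nat_lit 7) (nat_lit 3) (nat_lit 7) (nat_lit 91) (nat_lit 23) r2_91 r4_23 (nat_lit 0) (nat_lit 0) (nat_lit 0) (nat_lit 0x20056d4f2) (nat_lit 268435456)]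
noncomputable def e2_10 : List Rx := [
  Rx.mk (nat_lit 123) (nat_lit 3) (nat_lit 7) (nat_lit 1) (nat_lit 7) (nat_lit 95) (nat_lit 10) r2_95 r6_10 (nat_lit 0) (nat_lit 0) (nat_lit 0) (nat_lit 0x20056d4f2) (nat_lit 268435456),
  Rx.mk (nat_lit 379) (nat_lit 3) (nat_lit 7) (nat_lit 5) (nat_lit 7) (nat_lit 94) (nat_lit 11) r2_94 r6_11 (nat_lit 0) (nat_lit 0) (nat_lit 0) (nat_lit 0x20056d4f2) (nat_lit 268435456)]
noncomputable def e2_11 : List Rx := [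
  Rx.mk (nat_lit 91) (nat_lit 3) (nat_lit 3) (nat_lit 1) (nat_lit 7) (nat_lit 97) (nat_lit 15) r2_97 r5_15 (nat_lit 0) (nat_lit 0) (nat_lit 0) (nat_lit 0x20716b122) (nat_lit 261438406),
  Rx.mk (nat_lit 123) (nat_lit 3) (nat_lit 7) (nat_lit 1) (nat_lit 7) (nat_lit 96) (nat_lit 14) r2_96 r5_14 (nat_lit 0) (nat_lit 0) (nat_lit 0) (nat_lit 0x20056d4f2) (nat_lit 268435456)]
noncomputable def e2_12 : List Rx := [
  Rx.mk (nat_lit 356) (nat_lit 4) (nat_lit 4) (nat_lit 5) (nat_lit 4) (nat_lit 98) (nat_lit 254) r2_98 r0_254 (nat_lit 7936988) (nat_lit 23860633) (nat_lit 0) (nat_lit 0x160a0e9fc) (nat_lit 469629927),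
  Rx.mk (nat_lit 359) (nat_lit 7) (nat_lit 4) (nat_lit 5) (nat_lit 5) (nat_lit 99) (nat_lit 255) r2_99 r0_255 (nat_lit 0) (nat_lit 24694302) (nat_lit 0) (nat_lit 0x1f1cd48f8) (nat_lit 308430658),
  Rx.mk (nat_lit 383) (nat_lit 7) (nat_lit 7) (nat_lit 5) (nat_lit 7) (nat_lit 100) (nat_lit 256) r2_100 r0_256 (nat_lit 0) (nat_lit 0) (nat_lit 0) (nat_lit 0x20056d4f2) (nat_lit 268435456)]
noncomputable def e2_13 : List Rx := [
  Rx.mk (nat_lit 292) (nat_lit 4) (nat_lit 4) (nat_lit 4) (nat_lit 0) (nat_lit 101) (nat_lit 21) r2_101 r7_21 (nat_lit 110182) (nat_lit 347865) (nat_lit 122782) (nat_lit 0xf155adc6) (nat_lit 556453385),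
  Rx.mk (nat_lit 295) (nat_lit 7) (nat_lit 4) (nat_lit 4) (nat_lit 1) (nat_lit 107) (nat_lit 26) r2_107 r7_26 (nat_lit 0) (nat_lit 6259495) (nat_lit 2914534) (nat_lit 0x1a7896376) (nat_lit 371700385),
  Rx.mk (nat_lit 308) (nat_lit 4) (nat_lit 6) (nat_lit 4) (nat_lit 2) (nat_lit 103) (nat_lit 23) r2_103 r7_23 (nat_lit 1645853) (nat_lit 0) (nat_lit 1994389) (nat_lit 0x1a886f89c) (nat_lit 365101798),
  Rx.mk (nat_lit 311) (nat_lit 7) (nat_lit 6) (nat_lit 4) (nat_lit 3) (nat_lit 109) (nat_lit 31) r2_109 r7_31 (nat_lit 0) (nat_lit 0) (nat_lit 4070597) (nat_lit 0x20d4908d8) (nat_lit 259136953),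
  Rx.mk (nat_lit 319) (nat_lit 7) (nat_lit 7) (nat_lit 4) (nat_lit 3) (nat_lit 112) (nat_lit 28) r2_112 r7_28 (nat_lit 0) (nat_lit 0) (nat_lit 9484367) (nat_lit 0x1fbe559fc) (nat_lit 282567823),
  Rx.mk (nat_lit 356) (nat_lit 4) (nat_lit 4) (nat_lit 5) (nat_lit 4) (nat_lit 102) (nat_lit 22) r2_102 r7_22 (nat_lit 3470687) (nat_lit 7109024) (nat_lit 0) (nat_lit 0x150fa33f0) (nat_lit 465021817),
  Rx.mk (nat_lit 359) (nat_lit 7) (nat_lit 4) (nat_lit 5) (nat_lit 5) (nat_lit 108) (nat_lit 27) r2_108 r7_27 (nat_lit 0) (nat_lit 9484367) (nat_lit 0) (nat_lit 0x20056d4f2) (nat_lit 277919823),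
  Rx.mk (nat_lit 372) (nat_lit 4) (nat_lit 6) (nat_lit 5) (nat_lit 6) (nat_lit 104) (nat_lit 24) r2_104 r7_24 (nat_lit 5017164) (nat_lit 0) (nat_lit 0) (nat_lit 0x207caad94) (nat_lit 265733370),
  Rx.mk (nat_lit 375) (nat_lit 7) (nat_lit 6) (nat_lit 5) (nat_lit 7) (nat_lit 110) (nat_lit 32) r2_110 r7_32 (nat_lit 0) (nat_lit 0) (nat_lit 0) (nat_lit 0x20056d4f2) (nat_lit 268435456),
  Rx.mk (nat_lit 383) (nat_lit 7) (nat_lit 7) (nat_lit 5) (nat_lit 7) (nat_lit 113) (nat_lit 29) r2_113 r7_29 (nat_lit 0) (nat_lit 0) (nat_lit 0) (nat_lit 0x20056d4f2) (nat_lit 268435456),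
  Rx.mk (nat_lit 436) (nat_lit 4) (nat_lit 6) (nat_lit 6) (nat_lit 6) (nat_lit 105) (nat_lit 25) r2_105 r7_25 (nat_lit 6143740) (nat_lit 0) (nat_lit 0) (nat_lit 0x203351b34) (nat_lit 271587896),
  Rx.mk (nat_lit 438) (nat_lit 6) (nat_lit 6) (nat_lit 6) (nat_lit 7) (nat_lit 106) (nat_lit 34) r2_106 r7_34 (nat_lit 0) (nat_lit 0) (nat_lit 0) (nat_lit 0x20056d4f2) (nat_lit 268435456),
  Rx.mk (nat_lit 439) (nat_lit 7) (nat_lit 6) (nat_lit 6) (nat_lit 7) (nat_lit 111) (nat_lit 33) r2_111 r7_33 (nat_lit 0) (nat_lit 0) (nat_lit 0) (nat_lit 0x20056d4f2) (nat_lit 268435456),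
  Rx.mk (nat_lit 511) (nat_lit 7) (nat_lit 7) (nat_lit 7) (nat_lit 7) (nat_lit 114) (nat_lit 30) r2_114 r7_30 (nat_lit 0) (nat_lit 0) (nat_lit 0) (nat_lit 0x20056d4f2) (nat_lit 268435456)]
noncomputable def e2_14 : List Rx := [
  Rx.mk (nat_lit 356) (nat_lit 4) (nat_lit 4) (nat_lit 5) (nat_lit 4) (nat_lit 115) (nat_lit 258) r2_115 r1_258 (nat_lit 11319226) (nat_lit 16672179) (nat_lit 0) (nat_lit 0x180b1dce2) (nat_lit 431779961),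
  Rx.mk (nat_lit 357) (nat_lit 5) (nat_lit 4) (nat_lit 5) (nat_lit 5) (nat_lit 116) (nat_lit 259) r2_116 r1_259 (nat_lit 0) (nat_lit 10097628) (nat_lit 0) (nat_lit 0x1fd30161c) (nat_lit 281824434),
  Rx.mk (nat_lit 359) (nat_lit 7) (nat_lit 4) (nat_lit 5) (nat_lit 5) (nat_lit 117) (nat_lit 260) r2_117 r1_260 (nat_lit 0) (nat_lit 9484367) (nat_lit 0) (nat_lit 0x20056d4f2) (nat_lit 277919823),
  Rx.mk (nat_lit 383) (nat_lit 7) (nat_lit 7) (nat_lit 5) (nat_lit 7) (nat_lit 118) (nat_lit 261) r2_118 r1_261 (nat_lit 0) (nat_lit 0) (nat_lit 0) (nat_lit 0x20056d4f2) (nat_lit 268435456)]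
noncomputable def e2_15 : List Rx := [
  Rx.mk (nat_lit 292) (nat_lit 4) (nat_lit 4) (nat_lit 4) (nat_lit 0) (nat_lit 119) (nat_lit 25) r2_119 r8_25 (nat_lit 841530) (nat_lit 3897400) (nat_lit 1033161) (nat_lit 0x10888ae30) (nat_lit 537090397),
  Rx.mk (nat_lit 293) (nat_lit 5) (nat_lit 4) (nat_lit 4) (nat_lit 1) (nat_lit 124) (nat_lit 30) r2_124 r8_30 (nat_lit 0) (nat_lit 18538121) (nat_lit 21885715) (nat_lit 0x1c0a09d52) (nat_lit 376333842),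
  Rx.mk (nat_lit 295) (nat_lit 7) (nat_lit 4) (nat_lit 4) (nat_lit 1) (nat_lit 130) (nat_lit 35) r2_130 r8_35 (nat_lit 0) (nat_lit 3475646) (nat_lit 5207249) (nat_lit 0x1be5c8f88) (nat_lit 346982551),
  Rx.mk (nat_lit 308) (nat_lit 4) (nat_lit 6) (nat_lit 4) (nat_lit 2) (nat_lit 121) (nat_lit 27) r2_121 r8_27 (nat_lit 696836) (nat_lit 0) (nat_lit 1132696) (nat_lit 0x1ab396354) (nat_lit 360394488),
  Rx.mk (nat_lit 309) (nat_lit 5) (nat_lit 6) (nat_lit 4) (nat_lit 3) (nat_lit 126) (nat_lit 32) r2_126 r8_32 (nat_lit 0) (nat_lit 0) (nat_lit 5423236) (nat_lit 0x2065e7670) (nat_lit 267606092),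
  Rx.mk (nat_lit 311) (nat_lit 7) (nat_lit 6) (nat_lit 4) (nat_lit 3) (nat_lit 132) (nat_lit 40) r2_132 r8_40 (nat_lit 0) (nat_lit 0) (nat_lit 5423236) (nat_lit 0x2065e7670) (nat_lit 267606092),
  Rx.mk (nat_lit 319) (nat_lit 7) (nat_lit 7) (nat_lit 4) (nat_lit 3) (nat_lit 134) (nat_lit 37) r2_134 r8_37 (nat_lit 0) (nat_lit 0) (nat_lit 9484367) (nat_lit 0x20056d4f2) (nat_lit 277919823),
  Rx.mk (nat_lit 356) (nat_lit 4) (nat_lit 4) (nat_lit 5) (nat_lit 4) (nat_lit 120) (nat_lit 26) r2_120 r8_26 (nat_lit 12631128) (nat_lit 13271194) (nat_lit 0) (nat_lit 0x1876a1590) (nat_lit 422557478),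
  Rx.mk (nat_lit 357) (nat_lit 5) (nat_lit 4) (nat_lit 5) (nat_lit 5) (nat_lit 125) (nat_lit 31) r2_125 r8_31 (nat_lit 0) (nat_lit 9612199) (nat_lit 0) (nat_lit 0x1ff969f20) (nat_lit 278829255),
  Rx.mk (nat_lit 359) (nat_lit 7) (nat_lit 4) (nat_lit 5) (nat_lit 5) (nat_lit 131) (nat_lit 36) r2_131 r8_36 (nat_lit 0) (nat_lit 9484367) (nat_lit 0) (nat_lit 0x20056d4f2) (nat_lit 277919823),
  Rx.mk (nat_lit 372) (nat_lit 4) (nat_lit 6) (nat_lit 5) (nat_lit 6) (nat_lit 122) (nat_lit 28) r2_122 r8_28 (nat_lit 9484367) (nat_lit 0) (nat_lit 0) (nat_lit 0x20056d4f2) (nat_lit 277919823),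
  Rx.mk (nat_lit 373) (nat_lit 5) (nat_lit 6) (nat_lit 5) (nat_lit 7) (nat_lit 127) (nat_lit 33) r2_127 r8_33 (nat_lit 0) (nat_lit 0) (nat_lit 0) (nat_lit 0x20056d4f2) (nat_lit 268435456),
  Rx.mk (nat_lit 375) (nat_lit 7) (nat_lit 6) (nat_lit 5) (nat_lit 7) (nat_lit 133) (nat_lit 41) r2_133 r8_41 (nat_lit 0) (nat_lit 0) (nat_lit 0) (nat_lit 0x20056d4f2) (nat_lit 268435456),
  Rx.mk (nat_lit 383) (nat_lit 7) (nat_lit 7) (nat_lit 5) (nat_lit 7) (nat_lit 135) (nat_lit 38) r2_135 r8_38 (nat_lit 0) (nat_lit 0) (nat_lit 0) (nat_lit 0x20056d4f2) (nat_lit 268435456),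
  Rx.mk (nat_lit 436) (nat_lit 4) (nat_lit 6) (nat_lit 6) (nat_lit 6) (nat_lit 123) (nat_lit 29) r2_123 r8_29 (nat_lit 9484367) (nat_lit 0) (nat_lit 0) (nat_lit 0x1ffae912a) (nat_lit 278604423),
  Rx.mk (nat_lit 437) (nat_lit 5) (nat_lit 6) (nat_lit 6) (nat_lit 7) (nat_lit 128) (nat_lit 34) r2_128 r8_34 (nat_lit 0) (nat_lit 0) (nat_lit 0) (nat_lit 0x20056d4f2) (nat_lit 268435456),
  Rx.mk (nat_lit 438) (nat_lit 6) (nat_lit 6) (nat_lit 6) (nat_lit 7) (nat_lit 129) (nat_lit 42) r2_129 r8_42 (nat_lit 0) (nat_lit 0) (nat_lit 0) (nat_lit 0x20056d4f2) (nat_lit 268435456),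
  Rx.mk (nat_lit 511) (nat_lit 7) (nat_lit 7) (nat_lit 7) (nat_lit 7) (nat_lit 136) (nat_lit 39) r2_136 r8_39 (nat_lit 0) (nat_lit 0) (nat_lit 0) (nat_lit 0x20056d4f2) (nat_lit 268435456)]
noncomputable def e2_16 : List Rx := [
  Rx.mk (nat_lit 292) (nat_lit 4) (nat_lit 4) (nat_lit 4) (nat_lit 0) (nat_lit 137) (nat_lit 257) r2_137 r8_257 (nat_lit 1855565) (nat_lit 2321625) (nat_lit 2244531) (nat_lit 0xfe82409a) (nat_lit 548419377),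
  Rx.mk (nat_lit 295) (nat_lit 7) (nat_lit 4) (nat_lit 4) (nat_lit 1) (nat_lit 141) (nat_lit 258) r2_141 r8_258 (nat_lit 0) (nat_lit 12395174) (nat_lit 11911936) (nat_lit 0x19af7245e) (nat_lit 400205166),
  Rx.mk (nat_lit 308) (nat_lit 4) (nat_lit 6) (nat_lit 4) (nat_lit 2) (nat_lit 138) (nat_lit 260) r2_138 r8_260 (nat_lit 5757461) (nat_lit 0) (nat_lit 7301851) (nat_lit 0x1a8f639f0) (nat_lit 374092968),
  Rx.mk (nat_lit 311) (nat_lit 7) (nat_lit 6) (nat_lit 4) (nat_lit 3) (nat_lit 142) (nat_lit 261) r2_142 r8_261 (nat_lit 0) (nat_lit 0) (nat_lit 9484367) (nat_lit 0x1fe9dbd10) (nat_lit 279713523),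
  Rx.mk (nat_lit 319) (nat_lit 7) (nat_lit 7) (nat_lit 4) (nat_lit 3) (nat_lit 144) (nat_lit 259) r2_144 r8_259 (nat_lit 0) (nat_lit 0) (nat_lit 9484367) (nat_lit 0x1fc9f84b2) (nat_lit 281792823),
  Rx.mk (nat_lit 436) (nat_lit 4) (nat_lit 6) (nat_lit 6) (nat_lit 6) (nat_lit 139) (nat_lit 263) r2_139 r8_263 (nat_lit 9484367) (nat_lit 0) (nat_lit 0) (nat_lit 0x1fe0c5e6a) (nat_lit 280309623),
  Rx.mk (nat_lit 438) (nat_lit 6) (nat_lit 6) (nat_lit 6) (nat_lit 7) (nat_lit 140) (nat_lit 265) r2_140 r8_265 (nat_lit 0) (nat_lit 0) (nat_lit 0) (nat_lit 0x20056d4f2) (nat_lit 268435456),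
  Rx.mk (nat_lit 439) (nat_lit 7) (nat_lit 6) (nat_lit 6) (nat_lit 7) (nat_lit 143) (nat_lit 264) r2_143 r8_264 (nat_lit 0) (nat_lit 0) (nat_lit 0) (nat_lit 0x20056d4f2) (nat_lit 268435456),
  Rx.mk (nat_lit 511) (nat_lit 7) (nat_lit 7) (nat_lit 7) (nat_lit 7) (nat_lit 145) (nat_lit 262) r2_145 r8_262 (nat_lit 0) (nat_lit 0) (nat_lit 0) (nat_lit 0x20056d4f2) (nat_lit 268435456)]
noncomputable def e2_17 : List Rx := [
  Rx.mk (nat_lit 150) (nat_lit 6) (nat_lit 2) (nat_lit 2) (nat_lit 7) (nat_lit 151) (nat_lit 11) r2_151 r9_11 (nat_lit 0) (nat_lit 0) (nat_lit 0) (nat_lit 0x20056d4f2) (nat_lit 268435456),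
  Rx.mk (nat_lit 292) (nat_lit 4) (nat_lit 4) (nat_lit 4) (nat_lit 0) (nat_lit 146) (nat_lit 2) r2_146 r9_2 (nat_lit 2535298) (nat_lit 2176186) (nat_lit 2695517) (nat_lit 0xe64a0292) (nat_lit 575129957),
  Rx.mk (nat_lit 295) (nat_lit 7) (nat_lit 4) (nat_lit 4) (nat_lit 1) (nat_lit 152) (nat_lit 5) r2_152 r9_5 (nat_lit 0) (nat_lit 6805698) (nat_lit 11047932) (nat_lit 0x18db5b1b6) (nat_lit 407826486),
  Rx.mk (nat_lit 308) (nat_lit 4) (nat_lit 6) (nat_lit 4) (nat_lit 2) (nat_lit 147) (nat_lit 3) r2_147 r9_3 (nat_lit 5340229) (nat_lit 0) (nat_lit 6742841) (nat_lit 0x1987979e8) (nat_lit 390624176),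
  Rx.mk (nat_lit 311) (nat_lit 7) (nat_lit 6) (nat_lit 4) (nat_lit 3) (nat_lit 154) (nat_lit 8) r2_154 r9_8 (nat_lit 0) (nat_lit 0) (nat_lit 9484367) (nat_lit 0x1ffb7a0b2) (nat_lit 278567023),
  Rx.mk (nat_lit 406) (nat_lit 6) (nat_lit 2) (nat_lit 6) (nat_lit 7) (nat_lit 150) (nat_lit 12) r2_150 r9_12 (nat_lit 0) (nat_lit 0) (nat_lit 0) (nat_lit 0x20056d4f2) (nat_lit 268435456),
  Rx.mk (nat_lit 436) (nat_lit 4) (nat_lit 6) (nat_lit 6) (nat_lit 6) (nat_lit 148) (nat_lit 4) r2_148 r9_4 (nat_lit 9153645) (nat_lit 0) (nat_lit 0) (nat_lit 0x1fd8eb97e) (nat_lit 280493701),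
  Rx.mk (nat_lit 438) (nat_lit 6) (nat_lit 6) (nat_lit 6) (nat_lit 7) (nat_lit 149) (nat_lit 13) r2_149 r9_13 (nat_lit 0) (nat_lit 0) (nat_lit 0) (nat_lit 0x20056d4f2) (nat_lit 268435456),
  Rx.mk (nat_lit 439) (nat_lit 7) (nat_lit 6) (nat_lit 6) (nat_lit 7) (nat_lit 155) (nat_lit 10) r2_155 r9_10 (nat_lit 0) (nat_lit 0) (nat_lit 0) (nat_lit 0x20056d4f2) (nat_lit 268435456),
  Rx.mk (nat_lit 487) (nat_lit 7) (nat_lit 4) (nat_lit 7) (nat_lit 5) (nat_lit 153) (nat_lit 6) r2_153 r9_6 (nat_lit 0) (nat_lit 9484367) (nat_lit 0) (nat_lit 0x1ffa6492a) (nat_lit 278638273),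
  Rx.mk (nat_lit 503) (nat_lit 7) (nat_lit 6) (nat_lit 7) (nat_lit 7) (nat_lit 156) (nat_lit 9) r2_156 r9_9 (nat_lit 0) (nat_lit 0) (nat_lit 0) (nat_lit 0x20056d4f2) (nat_lit 268435456),
  Rx.mk (nat_lit 511) (nat_lit 7) (nat_lit 7) (nat_lit 7) (nat_lit 7) (nat_lit 157) (nat_lit 7) r2_157 r9_7 (nat_lit 0) (nat_lit 0) (nat_lit 0) (nat_lit 0x20056d4f2) (nat_lit 268435456)]
noncomputable def e2_18 : List Rx := [
  Rx.mk (nat_lit 359) (nat_lit 7) (nat_lit 4) (nat_lit 5) (nat_lit 5) (nat_lit 158) (nat_lit 271) r2_158 r4_271 (nat_lit 0) (nat_lit 7861388) (nat_lit 0) (nat_lit 0x2023bea32) (nat_lit 274324344),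
  Rx.mk (nat_lit 383) (nat_lit 7) (nat_lit 7) (nat_lit 5) (nat_lit 7) (nat_lit 159) (nat_lit 272) r2_159 r4_272 (nat_lit 0) (nat_lit 0) (nat_lit 0) (nat_lit 0x20204deac) (nat_lit 266687006)]
noncomputable def e2_19 : List Rx := [
  Rx.mk (nat_lit 295) (nat_lit 7) (nat_lit 4) (nat_lit 4) (nat_lit 1) (nat_lit 160) (nat_lit 10) r2_160 r10_10 (nat_lit 0) (nat_lit 2754889) (nat_lit 2365106) (nat_lit 0x1b79e19f0) (nat_lit 350541501),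
  Rx.mk (nat_lit 311) (nat_lit 7) (nat_lit 6) (nat_lit 4) (nat_lit 3) (nat_lit 162) (nat_lit 14) r2_162 r10_14 (nat_lit 0) (nat_lit 0) (nat_lit 5285914) (nat_lit 0x2073a5046) (nat_lit 266585770),
  Rx.mk (nat_lit 319) (nat_lit 7) (nat_lit 7) (nat_lit 4) (nat_lit 3) (nat_lit 165) (nat_lit 12) r2_165 r10_12 (nat_lit 0) (nat_lit 0) (nat_lit 9484367) (nat_lit 0x1ff9e8172) (nat_lit 278669773),
  Rx.mk (nat_lit 359) (nat_lit 7) (nat_lit 4) (nat_lit 5) (nat_lit 5) (nat_lit 161) (nat_lit 11) r2_161 r10_11 (nat_lit 0) (nat_lit 9805262) (nat_lit 0) (nat_lit 0x1febed6b2) (nat_lit 279901468),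
  Rx.mk (nat_lit 375) (nat_lit 7) (nat_lit 6) (nat_lit 5) (nat_lit 7) (nat_lit 163) (nat_lit 15) r2_163 r10_15 (nat_lit 0) (nat_lit 0) (nat_lit 0) (nat_lit 0x20056d4f2) (nat_lit 268435456),
  Rx.mk (nat_lit 383) (nat_lit 7) (nat_lit 7) (nat_lit 5) (nat_lit 7) (nat_lit 166) (nat_lit 13) r2_166 r10_13 (nat_lit 0) (nat_lit 0) (nat_lit 0) (nat_lit 0x20056d4f2) (nat_lit 268435456),
  Rx.mk (nat_lit 439) (nat_lit 7) (nat_lit 6) (nat_lit 6) (nat_lit 7) (nat_lit 164) (nat_lit 16) r2_164 r10_16 (nat_lit 0) (nat_lit 0) (nat_lit 0) (nat_lit 0x20056d4f2) (nat_lit 268435456)]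
noncomputable def e2_20 : List Rx := [
  Rx.mk (nat_lit 383) (nat_lit 7) (nat_lit 7) (nat_lit 5) (nat_lit 7) (nat_lit 167) (nat_lit 5) r2_167 r11_5 (nat_lit 0) (nat_lit 0) (nat_lit 0) (nat_lit 0x20056d4f2) (nat_lit 268435456)]
noncomputable def e2_21 : List Rx := [
  Rx.mk (nat_lit 0) (nat_lit 0) (nat_lit 0) (nat_lit 0) (nat_lit 0) (nat_lit 170) (nat_lit 2) r2_170 r9_2 (nat_lit 2176186) (nat_lit 2535298) (nat_lit 2695517) (nat_lit 0xe64a0292) (nat_lit 575129957),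
  Rx.mk (nat_lit 2) (nat_lit 2) (nat_lit 0) (nat_lit 0) (nat_lit 1) (nat_lit 173) (nat_lit 3) r2_173 r9_3 (nat_lit 0) (nat_lit 5340229) (nat_lit 6742841) (nat_lit 0x1987979e8) (nat_lit 390624176),
  Rx.mk (nat_lit 24) (nat_lit 0) (nat_lit 3) (nat_lit 0) (nat_lit 2) (nat_lit 171) (nat_lit 5) r2_171 r9_5 (nat_lit 6805698) (nat_lit 0) (nat_lit 11047932) (nat_lit 0x18db5b1b6) (nat_lit 407826486),
  Rx.mk (nat_lit 26) (nat_lit 2) (nat_lit 3) (nat_lit 0) (nat_lit 3) (nat_lit 176) (nat_lit 8) r2_176 r9_8 (nat_lit 0) (nat_lit 0) (nat_lit 9484367) (nat_lit 0x1ffb7a0b2) (nat_lit 278567023),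
  Rx.mk (nat_lit 130) (nat_lit 2) (nat_lit 0) (nat_lit 2) (nat_lit 5) (nat_lit 174) (nat_lit 4) r2_174 r9_4 (nat_lit 0) (nat_lit 9153645) (nat_lit 0) (nat_lit 0x1fd8eb97e) (nat_lit 280493701),
  Rx.mk (nat_lit 146) (nat_lit 2) (nat_lit 2) (nat_lit 2) (nat_lit 7) (nat_lit 175) (nat_lit 13) r2_175 r9_13 (nat_lit 0) (nat_lit 0) (nat_lit 0) (nat_lit 0x20056d4f2) (nat_lit 268435456),
  Rx.mk (nat_lit 150) (nat_lit 6) (nat_lit 2) (nat_lit 2) (nat_lit 7) (nat_lit 169) (nat_lit 12) r2_169 r9_12 (nat_lit 0) (nat_lit 0) (nat_lit 0) (nat_lit 0x20056d4f2) (nat_lit 268435456),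
  Rx.mk (nat_lit 154) (nat_lit 2) (nat_lit 3) (nat_lit 2) (nat_lit 7) (nat_lit 177) (nat_lit 10) r2_177 r9_10 (nat_lit 0) (nat_lit 0) (nat_lit 0) (nat_lit 0x20056d4f2) (nat_lit 268435456),
  Rx.mk (nat_lit 216) (nat_lit 0) (nat_lit 3) (nat_lit 3) (nat_lit 6) (nat_lit 172) (nat_lit 6) r2_172 r9_6 (nat_lit 9484367) (nat_lit 0) (nat_lit 0) (nat_lit 0x1ffa6492a) (nat_lit 278638273),
  Rx.mk (nat_lit 218) (nat_lit 2) (nat_lit 3) (nat_lit 3) (nat_lit 7) (nat_lit 178) (nat_lit 9) r2_178 r9_9 (nat_lit 0) (nat_lit 0) (nat_lit 0) (nat_lit 0x20056d4f2) (nat_lit 268435456),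
  Rx.mk (nat_lit 219) (nat_lit 3) (nat_lit 3) (nat_lit 3) (nat_lit 7) (nat_lit 179) (nat_lit 7) r2_179 r9_7 (nat_lit 0) (nat_lit 0) (nat_lit 0) (nat_lit 0x20056d4f2) (nat_lit 268435456),
  Rx.mk (nat_lit 406) (nat_lit 6) (nat_lit 2) (nat_lit 6) (nat_lit 7) (nat_lit 168) (nat_lit 11) r2_168 r9_11 (nat_lit 0) (nat_lit 0) (nat_lit 0) (nat_lit 0x20056d4f2) (nat_lit 268435456)]
noncomputable def e2_22 : List Rx := [
  Rx.mk (nat_lit 64) (nat_lit 0) (nat_lit 0) (nat_lit 1) (nat_lit 4) (nat_lit 180) (nat_lit 254) r2_180 r0_254 (nat_lit 23860633) (nat_lit 7936988) (nat_lit 0) (nat_lit 0x160a0e9fc) (nat_lit 469629927),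
  Rx.mk (nat_lit 88) (nat_lit 0) (nat_lit 3) (nat_lit 1) (nat_lit 6) (nat_lit 181) (nat_lit 255) r2_181 r0_255 (nat_lit 24694302) (nat_lit 0) (nat_lit 0) (nat_lit 0x1f1cd48f8) (nat_lit 308430658),
  Rx.mk (nat_lit 91) (nat_lit 3) (nat_lit 3) (nat_lit 1) (nat_lit 7) (nat_lit 182) (nat_lit 256) r2_182 r0_256 (nat_lit 0) (nat_lit 0) (nat_lit 0) (nat_lit 0x20056d4f2) (nat_lit 268435456)]
noncomputable def e2_23 : List Rx := [
  Rx.mk (nat_lit 64) (nat_lit 0) (nat_lit 0) (nat_lit 1) (nat_lit 4) (nat_lit 183) (nat_lit 258) r2_183 r1_258 (nat_lit 16672179) (nat_lit 11319226) (nat_lit 0) (nat_lit 0x180b1dce2) (nat_lit 431779961),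
  Rx.mk (nat_lit 72) (nat_lit 0) (nat_lit 1) (nat_lit 1) (nat_lit 6) (nat_lit 184) (nat_lit 259) r2_184 r1_259 (nat_lit 10097628) (nat_lit 0) (nat_lit 0) (nat_lit 0x1fd30161c) (nat_lit 281824434),
  Rx.mk (nat_lit 88) (nat_lit 0) (nat_lit 3) (nat_lit 1) (nat_lit 6) (nat_lit 185) (nat_lit 260) r2_185 r1_260 (nat_lit 9484367) (nat_lit 0) (nat_lit 0) (nat_lit 0x20056d4f2) (nat_lit 277919823),
  Rx.mk (nat_lit 91) (nat_lit 3) (nat_lit 3) (nat_lit 1) (nat_lit 7) (nat_lit 186) (nat_lit 261) r2_186 r1_261 (nat_lit 0) (nat_lit 0) (nat_lit 0) (nat_lit 0x20056d4f2) (nat_lit 268435456)]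
noncomputable def e2_24 : List Rx := [
  Rx.mk (nat_lit 88) (nat_lit 0) (nat_lit 3) (nat_lit 1) (nat_lit 6) (nat_lit 187) (nat_lit 271) r2_187 r4_271 (nat_lit 7861388) (nat_lit 0) (nat_lit 0) (nat_lit 0x2023bea32) (nat_lit 274324344),
  Rx.mk (nat_lit 91) (nat_lit 3) (nat_lit 3) (nat_lit 1) (nat_lit 7) (nat_lit 188) (nat_lit 272) r2_188 r4_272 (nat_lit 0) (nat_lit 0) (nat_lit 0) (nat_lit 0x20204deac) (nat_lit 266687006)]
noncomputable def e2_25 : List Rx := [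
  Rx.mk (nat_lit 0) (nat_lit 0) (nat_lit 0) (nat_lit 0) (nat_lit 0) (nat_lit 189) (nat_lit 21) r2_189 r7_21 (nat_lit 347865) (nat_lit 110182) (nat_lit 122782) (nat_lit 0xf155adc6) (nat_lit 556453385),
  Rx.mk (nat_lit 2) (nat_lit 2) (nat_lit 0) (nat_lit 0) (nat_lit 1) (nat_lit 193) (nat_lit 23) r2_193 r7_23 (nat_lit 0) (nat_lit 1645853) (nat_lit 1994389) (nat_lit 0x1a886f89c) (nat_lit 365101798),
  Rx.mk (nat_lit 24) (nat_lit 0) (nat_lit 3) (nat_lit 0) (nat_lit 2) (nat_lit 191) (nat_lit 26) r2_191 r7_26 (nat_lit 6259495) (nat_lit 0) (nat_lit 2914534) (nat_lit 0x1a7896376) (nat_lit 371700385),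
  Rx.mk (nat_lit 26) (nat_lit 2) (nat_lit 3) (nat_lit 0) (nat_lit 3) (nat_lit 197) (nat_lit 31) r2_197 r7_31 (nat_lit 0) (nat_lit 0) (nat_lit 4070597) (nat_lit 0x20d4908d8) (nat_lit 259136953),
  Rx.mk (nat_lit 27) (nat_lit 3) (nat_lit 3) (nat_lit 0) (nat_lit 3) (nat_lit 200) (nat_lit 28) r2_200 r7_28 (nat_lit 0) (nat_lit 0) (nat_lit 9484367) (nat_lit 0x1fbe559fc) (nat_lit 282567823),
  Rx.mk (nat_lit 64) (nat_lit 0) (nat_lit 0) (nat_lit 1) (nat_lit 4) (nat_lit 190) (nat_lit 22) r2_190 r7_22 (nat_lit 7109024) (nat_lit 3470687) (nat_lit 0) (nat_lit 0x150fa33f0) (nat_lit 465021817),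
  Rx.mk (nat_lit 66) (nat_lit 2) (nat_lit 0) (nat_lit 1) (nat_lit 5) (nat_lit 194) (nat_lit 24) r2_194 r7_24 (nat_lit 0) (nat_lit 5017164) (nat_lit 0) (nat_lit 0x207caad94) (nat_lit 265733370),
  Rx.mk (nat_lit 88) (nat_lit 0) (nat_lit 3) (nat_lit 1) (nat_lit 6) (nat_lit 192) (nat_lit 27) r2_192 r7_27 (nat_lit 9484367) (nat_lit 0) (nat_lit 0) (nat_lit 0x20056d4f2) (nat_lit 277919823),
  Rx.mk (nat_lit 90) (nat_lit 2) (nat_lit 3) (nat_lit 1) (nat_lit 7) (nat_lit 198) (nat_lit 32) r2_198 r7_32 (nat_lit 0) (nat_lit 0) (nat_lit 0) (nat_lit 0x20056d4f2) (nat_lit 268435456),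
  Rx.mk (nat_lit 91) (nat_lit 3) (nat_lit 3) (nat_lit 1) (nat_lit 7) (nat_lit 201) (nat_lit 29) r2_201 r7_29 (nat_lit 0) (nat_lit 0) (nat_lit 0) (nat_lit 0x20056d4f2) (nat_lit 268435456),
  Rx.mk (nat_lit 130) (nat_lit 2) (nat_lit 0) (nat_lit 2) (nat_lit 5) (nat_lit 195) (nat_lit 25) r2_195 r7_25 (nat_lit 0) (nat_lit 6143740) (nat_lit 0) (nat_lit 0x203351b34) (nat_lit 271587896),
  Rx.mk (nat_lit 146) (nat_lit 2) (nat_lit 2) (nat_lit 2) (nat_lit 7) (nat_lit 196) (nat_lit 34) r2_196 r7_34 (nat_lit 0) (nat_lit 0) (nat_lit 0) (nat_lit 0x20056d4f2) (nat_lit 268435456),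
  Rx.mk (nat_lit 154) (nat_lit 2) (nat_lit 3) (nat_lit 2) (nat_lit 7) (nat_lit 199) (nat_lit 33) r2_199 r7_33 (nat_lit 0) (nat_lit 0) (nat_lit 0) (nat_lit 0x20056d4f2) (nat_lit 268435456),
  Rx.mk (nat_lit 219) (nat_lit 3) (nat_lit 3) (nat_lit 3) (nat_lit 7) (nat_lit 202) (nat_lit 30) r2_202 r7_30 (nat_lit 0) (nat_lit 0) (nat_lit 0) (nat_lit 0x20056d4f2) (nat_lit 268435456)]
noncomputable def e2_26 : List Rx := [
  Rx.mk (nat_lit 0) (nat_lit 0) (nat_lit 0) (nat_lit 0) (nat_lit 0) (nat_lit 203) (nat_lit 25) r2_203 r8_25 (nat_lit 3897400) (nat_lit 841530) (nat_lit 1033161) (nat_lit 0x10888ae30) (nat_lit 537090397),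
  Rx.mk (nat_lit 2) (nat_lit 2) (nat_lit 0) (nat_lit 0) (nat_lit 1) (nat_lit 209) (nat_lit 27) r2_209 r8_27 (nat_lit 0) (nat_lit 696836) (nat_lit 1132696) (nat_lit 0x1ab396354) (nat_lit 360394488),
  Rx.mk (nat_lit 8) (nat_lit 0) (nat_lit 1) (nat_lit 0) (nat_lit 2) (nat_lit 205) (nat_lit 30) r2_205 r8_30 (nat_lit 18538121) (nat_lit 0) (nat_lit 21885715) (nat_lit 0x1c0a09d52) (nat_lit 376333842),
  Rx.mk (nat_lit 10) (nat_lit 2) (nat_lit 1) (nat_lit 0) (nat_lit 3) (nat_lit 212) (nat_lit 32) r2_212 r8_32 (nat_lit 0) (nat_lit 0) (nat_lit 5423236) (nat_lit 0x2065e7670) (nat_lit 267606092),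
  Rx.mk (nat_lit 24) (nat_lit 0) (nat_lit 3) (nat_lit 0) (nat_lit 2) (nat_lit 207) (nat_lit 35) r2_207 r8_35 (nat_lit 3475646) (nat_lit 0) (nat_lit 5207249) (nat_lit 0x1be5c8f88) (nat_lit 346982551),
  Rx.mk (nat_lit 26) (nat_lit 2) (nat_lit 3) (nat_lit 0) (nat_lit 3) (nat_lit 216) (nat_lit 40) r2_216 r8_40 (nat_lit 0) (nat_lit 0) (nat_lit 5423236) (nat_lit 0x2065e7670) (nat_lit 267606092),
  Rx.mk (nat_lit 27) (nat_lit 3) (nat_lit 3) (nat_lit 0) (nat_lit 3) (nat_lit 218) (nat_lit 37) r2_218 r8_37 (nat_lit 0) (nat_lit 0) (nat_lit 9484367) (nat_lit 0x20056d4f2) (nat_lit 277919823),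
  Rx.mk (nat_lit 64) (nat_lit 0) (nat_lit 0) (nat_lit 1) (nat_lit 4) (nat_lit 204) (nat_lit 26) r2_204 r8_26 (nat_lit 13271194) (nat_lit 12631128) (nat_lit 0) (nat_lit 0x1876a1590) (nat_lit 422557478),
  Rx.mk (nat_lit 66) (nat_lit 2) (nat_lit 0) (nat_lit 1) (nat_lit 5) (nat_lit 210) (nat_lit 28) r2_210 r8_28 (nat_lit 0) (nat_lit 9484367) (nat_lit 0) (nat_lit 0x20056d4f2) (nat_lit 277919823),
  Rx.mk (nat_lit 72) (nat_lit 0) (nat_lit 1) (nat_lit 1) (nat_lit 6) (nat_lit 206) (nat_lit 31) r2_206 r8_31 (nat_lit 9612199) (nat_lit 0) (nat_lit 0) (nat_lit 0x1ff969f20) (nat_lit 278829255),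
  Rx.mk (nat_lit 74) (nat_lit 2) (nat_lit 1) (nat_lit 1) (nat_lit 7) (nat_lit 213) (nat_lit 33) r2_213 r8_33 (nat_lit 0) (nat_lit 0) (nat_lit 0) (nat_lit 0x20056d4f2) (nat_lit 268435456),
  Rx.mk (nat_lit 88) (nat_lit 0) (nat_lit 3) (nat_lit 1) (nat_lit 6) (nat_lit 208) (nat_lit 36) r2_208 r8_36 (nat_lit 9484367) (nat_lit 0) (nat_lit 0) (nat_lit 0x20056d4f2) (nat_lit 277919823),
  Rx.mk (nat_lit 90) (nat_lit 2) (nat_lit 3) (nat_lit 1) (nat_lit 7) (nat_lit 217) (nat_lit 41) r2_217 r8_41 (nat_lit 0) (nat_lit 0) (nat_lit 0) (nat_lit 0x20056d4f2) (nat_lit 268435456),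
  Rx.mk (nat_lit 91) (nat_lit 3) (nat_lit 3) (nat_lit 1) (nat_lit 7) (nat_lit 219) (nat_lit 38) r2_219 r8_38 (nat_lit 0) (nat_lit 0) (nat_lit 0) (nat_lit 0x20056d4f2) (nat_lit 268435456),
  Rx.mk (nat_lit 130) (nat_lit 2) (nat_lit 0) (nat_lit 2) (nat_lit 5) (nat_lit 211) (nat_lit 29) r2_211 r8_29 (nat_lit 0) (nat_lit 9484367) (nat_lit 0) (nat_lit 0x1ffae912a) (nat_lit 278604423),
  Rx.mk (nat_lit 138) (nat_lit 2) (nat_lit 1) (nat_lit 2) (nat_lit 7) (nat_lit 214) (nat_lit 34) r2_214 r8_34 (nat_lit 0) (nat_lit 0) (nat_lit 0) (nat_lit 0x20056d4f2) (nat_lit 268435456),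
  Rx.mk (nat_lit 146) (nat_lit 2) (nat_lit 2) (nat_lit 2) (nat_lit 7) (nat_lit 215) (nat_lit 42) r2_215 r8_42 (nat_lit 0) (nat_lit 0) (nat_lit 0) (nat_lit 0x20056d4f2) (nat_lit 268435456),
  Rx.mk (nat_lit 219) (nat_lit 3) (nat_lit 3) (nat_lit 3) (nat_lit 7) (nat_lit 220) (nat_lit 39) r2_220 r8_39 (nat_lit 0) (nat_lit 0) (nat_lit 0) (nat_lit 0x20056d4f2) (nat_lit 268435456)]
noncomputable def e2_27 : List Rx := [
  Rx.mk (nat_lit 0) (nat_lit 0) (nat_lit 0) (nat_lit 0) (nat_lit 0) (nat_lit 221) (nat_lit 257) r2_221 r8_257 (nat_lit 2321625) (nat_lit 1855565) (nat_lit 2244531) (nat_lit 0xfe82409a) (nat_lit 548419377),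
  Rx.mk (nat_lit 2) (nat_lit 2) (nat_lit 0) (nat_lit 0) (nat_lit 1) (nat_lit 223) (nat_lit 260) r2_223 r8_260 (nat_lit 0) (nat_lit 5757461) (nat_lit 7301851) (nat_lit 0x1a8f639f0) (nat_lit 374092968),
  Rx.mk (nat_lit 24) (nat_lit 0) (nat_lit 3) (nat_lit 0) (nat_lit 2) (nat_lit 222) (nat_lit 258) r2_222 r8_258 (nat_lit 12395174) (nat_lit 0) (nat_lit 11911936) (nat_lit 0x19af7245e) (nat_lit 400205166),
  Rx.mk (nat_lit 26) (nat_lit 2) (nat_lit 3) (nat_lit 0) (nat_lit 3) (nat_lit 226) (nat_lit 261) r2_226 r8_261 (nat_lit 0) (nat_lit 0) (nat_lit 9484367) (nat_lit 0x1fe9dbd10) (nat_lit 279713523),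
  Rx.mk (nat_lit 27) (nat_lit 3) (nat_lit 3) (nat_lit 0) (nat_lit 3) (nat_lit 228) (nat_lit 259) r2_228 r8_259 (nat_lit 0) (nat_lit 0) (nat_lit 9484367) (nat_lit 0x1fc9f84b2) (nat_lit 281792823),
  Rx.mk (nat_lit 130) (nat_lit 2) (nat_lit 0) (nat_lit 2) (nat_lit 5) (nat_lit 224) (nat_lit 263) r2_224 r8_263 (nat_lit 0) (nat_lit 9484367) (nat_lit 0) (nat_lit 0x1fe0c5e6a) (nat_lit 280309623),
  Rx.mk (nat_lit 146) (nat_lit 2) (nat_lit 2) (nat_lit 2) (nat_lit 7) (nat_lit 225) (nat_lit 265) r2_225 r8_265 (nat_lit 0) (nat_lit 0) (nat_lit 0) (nat_lit 0x20056d4f2) (nat_lit 268435456),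
  Rx.mk (nat_lit 154) (nat_lit 2) (nat_lit 3) (nat_lit 2) (nat_lit 7) (nat_lit 227) (nat_lit 264) r2_227 r8_264 (nat_lit 0) (nat_lit 0) (nat_lit 0) (nat_lit 0x20056d4f2) (nat_lit 268435456),
  Rx.mk (nat_lit 219) (nat_lit 3) (nat_lit 3) (nat_lit 3) (nat_lit 7) (nat_lit 229) (nat_lit 262) r2_229 r8_262 (nat_lit 0) (nat_lit 0) (nat_lit 0) (nat_lit 0x20056d4f2) (nat_lit 268435456)]
noncomputable def e2_28 : List Rx := [
  Rx.mk (nat_lit 24) (nat_lit 0) (nat_lit 3) (nat_lit 0) (nat_lit 2) (nat_lit 230) (nat_lit 10) r2_230 r10_10 (nat_lit 2754889) (nat_lit 0) (nat_lit 2365106) (nat_lit 0x1b79e19f0) (nat_lit 350541501),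
  Rx.mk (nat_lit 26) (nat_lit 2) (nat_lit 3) (nat_lit 0) (nat_lit 3) (nat_lit 232) (nat_lit 14) r2_232 r10_14 (nat_lit 0) (nat_lit 0) (nat_lit 5285914) (nat_lit 0x2073a5046) (nat_lit 266585770),
  Rx.mk (nat_lit 27) (nat_lit 3) (nat_lit 3) (nat_lit 0) (nat_lit 3) (nat_lit 235) (nat_lit 12) r2_235 r10_12 (nat_lit 0) (nat_lit 0) (nat_lit 9484367) (nat_lit 0x1ff9e8172) (nat_lit 278669773),
  Rx.mk (nat_lit 88) (nat_lit 0) (nat_lit 3) (nat_lit 1) (nat_lit 6) (nat_lit 231) (nat_lit 11) r2_231 r10_11 (nat_lit 9805262) (nat_lit 0) (nat_lit 0) (nat_lit 0x1febed6b2) (nat_lit 279901468),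
  Rx.mk (nat_lit 90) (nat_lit 2) (nat_lit 3) (nat_lit 1) (nat_lit 7) (nat_lit 233) (nat_lit 15) r2_233 r10_15 (nat_lit 0) (nat_lit 0) (nat_lit 0) (nat_lit 0x20056d4f2) (nat_lit 268435456),
  Rx.mk (nat_lit 91) (nat_lit 3) (nat_lit 3) (nat_lit 1) (nat_lit 7) (nat_lit 236) (nat_lit 13) r2_236 r10_13 (nat_lit 0) (nat_lit 0) (nat_lit 0) (nat_lit 0x20056d4f2) (nat_lit 268435456),
  Rx.mk (nat_lit 154) (nat_lit 2) (nat_lit 3) (nat_lit 2) (nat_lit 7) (nat_lit 234) (nat_lit 16) r2_234 r10_16 (nat_lit 0) (nat_lit 0) (nat_lit 0) (nat_lit 0x20056d4f2) (nat_lit 268435456)]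
noncomputable def e2_29 : List Rx := [
  Rx.mk (nat_lit 91) (nat_lit 3) (nat_lit 3) (nat_lit 1) (nat_lit 7) (nat_lit 237) (nat_lit 5) r2_237 r11_5 (nat_lit 0) (nat_lit 0) (nat_lit 0) (nat_lit 0x20056d4f2) (nat_lit 268435456)]
noncomputable def e2_30 : List Rx := [
  Rx.mk (nat_lit 355) (nat_lit 3) (nat_lit 4) (nat_lit 5) (nat_lit 5) (nat_lit 239) (nat_lit 259) r2_239 r5_259 (nat_lit 0) (nat_lit 10371737) (nat_lit 0) (nat_lit 0x1f40d6a76) (nat_lit 291716043),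
  Rx.mk (nat_lit 359) (nat_lit 7) (nat_lit 4) (nat_lit 5) (nat_lit 5) (nat_lit 238) (nat_lit 258) r2_238 r5_258 (nat_lit 0) (nat_lit 10395696) (nat_lit 0) (nat_lit 0x1fae7df52) (nat_lit 284495052),
  Rx.mk (nat_lit 379) (nat_lit 3) (nat_lit 7) (nat_lit 5) (nat_lit 7) (nat_lit 240) (nat_lit 260) r2_240 r5_260 (nat_lit 0) (nat_lit 0) (nat_lit 0) (nat_lit 0x20056d4f2) (nat_lit 268435456)]
noncomputable def e2_31 : List Rx := [
  Rx.mk (nat_lit 291) (nat_lit 3) (nat_lit 4) (nat_lit 4) (nat_lit 1) (nat_lit 246) (nat_lit 309) r2_246 r11_309 (nat_lit 0) (nat_lit 11141639) (nat_lit 7328392) (nat_lit 0x1f3e92486) (nat_lit 299967187),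
  Rx.mk (nat_lit 295) (nat_lit 7) (nat_lit 4) (nat_lit 4) (nat_lit 1) (nat_lit 241) (nat_lit 308) r2_241 r11_308 (nat_lit 0) (nat_lit 16435647) (nat_lit 9568563) (nat_lit 0x1e5cbb72e) (nat_lit 322466716),
  Rx.mk (nat_lit 311) (nat_lit 7) (nat_lit 6) (nat_lit 4) (nat_lit 3) (nat_lit 243) (nat_lit 311) r2_243 r11_311 (nat_lit 0) (nat_lit 0) (nat_lit 2751488) (nat_lit 0x237226474) (nat_lit 214959644),
  Rx.mk (nat_lit 315) (nat_lit 3) (nat_lit 7) (nat_lit 4) (nat_lit 3) (nat_lit 248) (nat_lit 310) r2_248 r11_310 (nat_lit 0) (nat_lit 0) (nat_lit 9484367) (nat_lit 0x20056d4f2) (nat_lit 277919823),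
  Rx.mk (nat_lit 355) (nat_lit 3) (nat_lit 4) (nat_lit 5) (nat_lit 5) (nat_lit 247) (nat_lit 313) r2_247 r11_313 (nat_lit 0) (nat_lit 10365969) (nat_lit 0) (nat_lit 0x1fcd1cb8e) (nat_lit 282479375),
  Rx.mk (nat_lit 359) (nat_lit 7) (nat_lit 4) (nat_lit 5) (nat_lit 5) (nat_lit 242) (nat_lit 312) r2_242 r11_312 (nat_lit 0) (nat_lit 10344080) (nat_lit 0) (nat_lit 0x1fce72452) (nat_lit 282369936),
  Rx.mk (nat_lit 375) (nat_lit 7) (nat_lit 6) (nat_lit 5) (nat_lit 7) (nat_lit 244) (nat_lit 315) r2_244 r11_315 (nat_lit 0) (nat_lit 0) (nat_lit 0) (nat_lit 0x20a79a9be) (nat_lit 257955956),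
  Rx.mk (nat_lit 379) (nat_lit 3) (nat_lit 7) (nat_lit 5) (nat_lit 7) (nat_lit 249) (nat_lit 314) r2_249 r11_314 (nat_lit 0) (nat_lit 0) (nat_lit 0) (nat_lit 0x20056d4f2) (nat_lit 268435456),
  Rx.mk (nat_lit 439) (nat_lit 7) (nat_lit 6) (nat_lit 6) (nat_lit 7) (nat_lit 245) (nat_lit 317) r2_245 r11_317 (nat_lit 0) (nat_lit 0) (nat_lit 0) (nat_lit 0x20929fe6a) (nat_lit 259304406),
  Rx.mk (nat_lit 507) (nat_lit 3) (nat_lit 7) (nat_lit 7) (nat_lit 7) (nat_lit 250) (nat_lit 316) r2_250 r11_316 (nat_lit 0) (nat_lit 0) (nat_lit 0) (nat_lit 0x20056d4f2) (nat_lit 268435456)]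
noncomputable def e2_32 : List Rx := [
  Rx.mk (nat_lit 99) (nat_lit 3) (nat_lit 4) (nat_lit 1) (nat_lit 5) (nat_lit 253) (nat_lit 308) r2_253 r6_308 (nat_lit 0) (nat_lit 10188298) (nat_lit 0) (nat_lit 0x1fc8c4b22) (nat_lit 282587704),
  Rx.mk (nat_lit 120) (nat_lit 0) (nat_lit 7) (nat_lit 1) (nat_lit 6) (nat_lit 252) (nat_lit 307) r2_252 r6_307 (nat_lit 9484367) (nat_lit 0) (nat_lit 0) (nat_lit 0x1f845577a) (nat_lit 286381923),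
  Rx.mk (nat_lit 123) (nat_lit 3) (nat_lit 7) (nat_lit 1) (nat_lit 7) (nat_lit 254) (nat_lit 309) r2_254 r6_309 (nat_lit 0) (nat_lit 0) (nat_lit 0) (nat_lit 0x20056d4f2) (nat_lit 268435456),
  Rx.mk (nat_lit 376) (nat_lit 0) (nat_lit 7) (nat_lit 5) (nat_lit 6) (nat_lit 251) (nat_lit 306) r2_251 r6_306 (nat_lit 10510343) (nat_lit 0) (nat_lit 0) (nat_lit 0x1f8bf4256) (nat_lit 286894199)]
noncomputable def e2_33 : List Rx := [
  Rx.mk (nat_lit 88) (nat_lit 0) (nat_lit 3) (nat_lit 1) (nat_lit 6) (nat_lit 256) (nat_lit 258) r2_256 r5_258 (nat_lit 10395696) (nat_lit 0) (nat_lit 0) (nat_lit 0x1fae7df52) (nat_lit 284495052),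
  Rx.mk (nat_lit 120) (nat_lit 0) (nat_lit 7) (nat_lit 1) (nat_lit 6) (nat_lit 255) (nat_lit 259) r2_255 r5_259 (nat_lit 10371737) (nat_lit 0) (nat_lit 0) (nat_lit 0x1f40d6a76) (nat_lit 291716043),
  Rx.mk (nat_lit 123) (nat_lit 3) (nat_lit 7) (nat_lit 1) (nat_lit 7) (nat_lit 257) (nat_lit 260) r2_257 r5_260 (nat_lit 0) (nat_lit 0) (nat_lit 0) (nat_lit 0x20056d4f2) (nat_lit 268435456)]
noncomputable def e2_34 : List Rx := [
  Rx.mk (nat_lit 24) (nat_lit 0) (nat_lit 3) (nat_lit 0) (nat_lit 2) (nat_lit 260) (nat_lit 308) r2_260 r11_308 (nat_lit 16435647) (nat_lit 0) (nat_lit 9568563) (nat_lit 0x1e5cbb72e) (nat_lit 322466716),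
  Rx.mk (nat_lit 26) (nat_lit 2) (nat_lit 3) (nat_lit 0) (nat_lit 3) (nat_lit 262) (nat_lit 311) r2_262 r11_311 (nat_lit 0) (nat_lit 0) (nat_lit 2751488) (nat_lit 0x237226474) (nat_lit 214959644),
  Rx.mk (nat_lit 56) (nat_lit 0) (nat_lit 7) (nat_lit 0) (nat_lit 2) (nat_lit 258) (nat_lit 309) r2_258 r11_309 (nat_lit 11141639) (nat_lit 0) (nat_lit 7328392) (nat_lit 0x1f3e92486) (nat_lit 299967187),
  Rx.mk (nat_lit 59) (nat_lit 3) (nat_lit 7) (nat_lit 0) (nat_lit 3) (nat_lit 265) (nat_lit 310) r2_265 r11_310 (nat_lit 0) (nat_lit 0) (nat_lit 9484367) (nat_lit 0x20056d4f2) (nat_lit 277919823),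
  Rx.mk (nat_lit 88) (nat_lit 0) (nat_lit 3) (nat_lit 1) (nat_lit 6) (nat_lit 261) (nat_lit 312) r2_261 r11_312 (nat_lit 10344080) (nat_lit 0) (nat_lit 0) (nat_lit 0x1fce72452) (nat_lit 282369936),
  Rx.mk (nat_lit 90) (nat_lit 2) (nat_lit 3) (nat_lit 1) (nat_lit 7) (nat_lit 263) (nat_lit 315) r2_263 r11_315 (nat_lit 0) (nat_lit 0) (nat_lit 0) (nat_lit 0x20a79a9be) (nat_lit 257955956),
  Rx.mk (nat_lit 120) (nat_lit 0) (nat_lit 7) (nat_lit 1) (nat_lit 6) (nat_lit 259) (nat_lit 313) r2_259 r11_313 (nat_lit 10365969) (nat_lit 0) (nat_lit 0) (nat_lit 0x1fcd1cb8e) (nat_lit 282479375),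
  Rx.mk (nat_lit 123) (nat_lit 3) (nat_lit 7) (nat_lit 1) (nat_lit 7) (nat_lit 266) (nat_lit 314) r2_266 r11_314 (nat_lit 0) (nat_lit 0) (nat_lit 0) (nat_lit 0x20056d4f2) (nat_lit 268435456),
  Rx.mk (nat_lit 154) (nat_lit 2) (nat_lit 3) (nat_lit 2) (nat_lit 7) (nat_lit 264) (nat_lit 317) r2_264 r11_317 (nat_lit 0) (nat_lit 0) (nat_lit 0) (nat_lit 0x20929fe6a) (nat_lit 259304406),
  Rx.mk (nat_lit 251) (nat_lit 3) (nat_lit 7) (nat_lit 3) (nat_lit 7) (nat_lit 267) (nat_lit 316) r2_267 r11_316 (nat_lit 0) (nat_lit 0) (nat_lit 0) (nat_lit 0x20056d4f2) (nat_lit 268435456)]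
noncomputable def e2_35 : List Rx := [
  Rx.mk (nat_lit 99) (nat_lit 3) (nat_lit 4) (nat_lit 1) (nat_lit 5) (nat_lit 270) (nat_lit 306) r2_270 r6_306 (nat_lit 0) (nat_lit 10510343) (nat_lit 0) (nat_lit 0x1f8bf4256) (nat_lit 286894199),
  Rx.mk (nat_lit 355) (nat_lit 3) (nat_lit 4) (nat_lit 5) (nat_lit 5) (nat_lit 269) (nat_lit 307) r2_269 r6_307 (nat_lit 0) (nat_lit 9484367) (nat_lit 0) (nat_lit 0x1f845577a) (nat_lit 286381923),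
  Rx.mk (nat_lit 376) (nat_lit 0) (nat_lit 7) (nat_lit 5) (nat_lit 6) (nat_lit 268) (nat_lit 308) r2_268 r6_308 (nat_lit 10188298) (nat_lit 0) (nat_lit 0) (nat_lit 0x1fc8c4b22) (nat_lit 282587704),
  Rx.mk (nat_lit 379) (nat_lit 3) (nat_lit 7) (nat_lit 5) (nat_lit 7) (nat_lit 271) (nat_lit 309) r2_271 r6_309 (nat_lit 0) (nat_lit 0) (nat_lit 0) (nat_lit 0x20056d4f2) (nat_lit 268435456)]
noncomputable def e2_36 : List Rx := [
  Rx.mk (nat_lit 99) (nat_lit 3) (nat_lit 4) (nat_lit 1) (nat_lit 5) (nat_lit 273) (nat_lit 11) r2_273 r12_11 (nat_lit 0) (nat_lit 7488790) (nat_lit 0) (nat_lit 0x1ea5b99b2) (nat_lit 299105196),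
  Rx.mk (nat_lit 123) (nat_lit 3) (nat_lit 7) (nat_lit 1) (nat_lit 7) (nat_lit 275) (nat_lit 12) r2_275 r12_12 (nat_lit 0) (nat_lit 0) (nat_lit 0) (nat_lit 0x20056d4f2) (nat_lit 268435456),
  Rx.mk (nat_lit 376) (nat_lit 0) (nat_lit 7) (nat_lit 5) (nat_lit 6) (nat_lit 272) (nat_lit 10) r2_272 r12_10 (nat_lit 7488790) (nat_lit 0) (nat_lit 0) (nat_lit 0x1ea5b99b2) (nat_lit 299105196),
  Rx.mk (nat_lit 379) (nat_lit 3) (nat_lit 7) (nat_lit 5) (nat_lit 7) (nat_lit 274) (nat_lit 13) r2_274 r12_13 (nat_lit 0) (nat_lit 0) (nat_lit 0) (nat_lit 0x20056d4f2) (nat_lit 268435456)]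
noncomputable def e2_37 : List Rx := [
  Rx.mk (nat_lit 104) (nat_lit 0) (nat_lit 5) (nat_lit 1) (nat_lit 6) (nat_lit 277) (nat_lit 286) r2_277 r0_286 (nat_lit 12544226) (nat_lit 0) (nat_lit 0) (nat_lit 0x1eee011d4) (nat_lit 299367132),
  Rx.mk (nat_lit 105) (nat_lit 1) (nat_lit 5) (nat_lit 1) (nat_lit 7) (nat_lit 279) (nat_lit 288) r2_279 r0_288 (nat_lit 0) (nat_lit 0) (nat_lit 0) (nat_lit 0x20056d4f2) (nat_lit 268435456),
  Rx.mk (nat_lit 360) (nat_lit 0) (nat_lit 5) (nat_lit 5) (nat_lit 6) (nat_lit 276) (nat_lit 285) r2_276 r0_285 (nat_lit 58461491) (nat_lit 0) (nat_lit 0) (nat_lit 0x1c9e814b2) (nat_lit 384503097),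
  Rx.mk (nat_lit 361) (nat_lit 1) (nat_lit 5) (nat_lit 5) (nat_lit 7) (nat_lit 278) (nat_lit 287) r2_278 r0_287 (nat_lit 0) (nat_lit 0) (nat_lit 0) (nat_lit 0x20056d4f2) (nat_lit 268435456)]
noncomputable def e2_38 : List Rx := [
  Rx.mk (nat_lit 97) (nat_lit 1) (nat_lit 4) (nat_lit 1) (nat_lit 5) (nat_lit 281) (nat_lit 285) r2_281 r0_285 (nat_lit 0) (nat_lit 58461491) (nat_lit 0) (nat_lit 0x1c9e814b2) (nat_lit 384503097),
  Rx.mk (nat_lit 105) (nat_lit 1) (nat_lit 5) (nat_lit 1) (nat_lit 7) (nat_lit 283) (nat_lit 287) r2_283 r0_287 (nat_lit 0) (nat_lit 0) (nat_lit 0) (nat_lit 0x20056d4f2) (nat_lit 268435456),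
  Rx.mk (nat_lit 353) (nat_lit 1) (nat_lit 4) (nat_lit 5) (nat_lit 5) (nat_lit 280) (nat_lit 286) r2_280 r0_286 (nat_lit 0) (nat_lit 12544226) (nat_lit 0) (nat_lit 0x1eee011d4) (nat_lit 299367132),
  Rx.mk (nat_lit 361) (nat_lit 1) (nat_lit 5) (nat_lit 5) (nat_lit 7) (nat_lit 282) (nat_lit 288) r2_282 r0_288 (nat_lit 0) (nat_lit 0) (nat_lit 0) (nat_lit 0x20056d4f2) (nat_lit 268435456)]
noncomputable def e2_39 : List Rx := [
  Rx.mk (nat_lit 105) (nat_lit 1) (nat_lit 5) (nat_lit 1) (nat_lit 7) (nat_lit 285) (nat_lit 400) r2_285 r7_400 (nat_lit 0) (nat_lit 0) (nat_lit 0) (nat_lit 0x20056d4f2) (nat_lit 268435456),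
  Rx.mk (nat_lit 361) (nat_lit 1) (nat_lit 5) (nat_lit 5) (nat_lit 7) (nat_lit 284) (nat_lit 399) r2_284 r7_399 (nat_lit 0) (nat_lit 0) (nat_lit 0) (nat_lit 0x20056d4f2) (nat_lit 268435456)]
noncomputable def e2_40 : List Rx := [
  Rx.mk (nat_lit 357) (nat_lit 5) (nat_lit 4) (nat_lit 5) (nat_lit 5) (nat_lit 286) (nat_lit 310) r2_286 r2_310 (nat_lit 0) (nat_lit 9211913) (nat_lit 0) (nat_lit 0x1ffb1784a) (nat_lit 278320069),
  Rx.mk (nat_lit 365) (nat_lit 5) (nat_lit 5) (nat_lit 5) (nat_lit 7) (nat_lit 287) (nat_lit 311) r2_287 r2_311 (nat_lit 0) (nat_lit 0) (nat_lit 0) (nat_lit 0x20056d4f2) (nat_lit 268435456)]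
noncomputable def e2_41 : List Rx := [
  Rx.mk (nat_lit 365) (nat_lit 5) (nat_lit 5) (nat_lit 5) (nat_lit 7) (nat_lit 288) (nat_lit 293) r2_288 r9_293 (nat_lit 0) (nat_lit 0) (nat_lit 0) (nat_lit 0x20056d4f2) (nat_lit 268435456)]
noncomputable def e2_42 : List Rx := [
  Rx.mk (nat_lit 293) (nat_lit 5) (nat_lit 4) (nat_lit 4) (nat_lit 1) (nat_lit 289) (nat_lit 260) r2_289 r9_260 (nat_lit 0) (nat_lit 13222408) (nat_lit 14496166) (nat_lit 0x197e2b814) (nat_lit 406887580),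
  Rx.mk (nat_lit 309) (nat_lit 5) (nat_lit 6) (nat_lit 4) (nat_lit 3) (nat_lit 292) (nat_lit 261) r2_292 r9_261 (nat_lit 0) (nat_lit 0) (nat_lit 9484367) (nat_lit 0x20056d4f2) (nat_lit 277919823),
  Rx.mk (nat_lit 357) (nat_lit 5) (nat_lit 4) (nat_lit 5) (nat_lit 5) (nat_lit 290) (nat_lit 262) r2_290 r9_262 (nat_lit 0) (nat_lit 9484367) (nat_lit 0) (nat_lit 0x20056d4f2) (nat_lit 277919823),
  Rx.mk (nat_lit 365) (nat_lit 5) (nat_lit 5) (nat_lit 5) (nat_lit 7) (nat_lit 291) (nat_lit 263) r2_291 r9_263 (nat_lit 0) (nat_lit 0) (nat_lit 0) (nat_lit 0x20056d4f2) (nat_lit 268435456),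
  Rx.mk (nat_lit 373) (nat_lit 5) (nat_lit 6) (nat_lit 5) (nat_lit 7) (nat_lit 293) (nat_lit 264) r2_293 r9_264 (nat_lit 0) (nat_lit 0) (nat_lit 0) (nat_lit 0x20056d4f2) (nat_lit 268435456),
  Rx.mk (nat_lit 437) (nat_lit 5) (nat_lit 6) (nat_lit 6) (nat_lit 7) (nat_lit 294) (nat_lit 265) r2_294 r9_265 (nat_lit 0) (nat_lit 0) (nat_lit 0) (nat_lit 0x20056d4f2) (nat_lit 268435456)]
noncomputable def e2_43 : List Rx := [
  Rx.mk (nat_lit 97) (nat_lit 1) (nat_lit 4) (nat_lit 1) (nat_lit 5) (nat_lit 298) (nat_lit 280) r2_298 r1_280 (nat_lit 0) (nat_lit 41135547) (nat_lit 0) (nat_lit 0x20165832a) (nat_lit 308445753),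
  Rx.mk (nat_lit 105) (nat_lit 1) (nat_lit 5) (nat_lit 1) (nat_lit 7) (nat_lit 300) (nat_lit 283) r2_300 r1_283 (nat_lit 0) (nat_lit 0) (nat_lit 0) (nat_lit 0x20056d4f2) (nat_lit 268435456),
  Rx.mk (nat_lit 353) (nat_lit 1) (nat_lit 4) (nat_lit 5) (nat_lit 5) (nat_lit 297) (nat_lit 281) r2_297 r1_281 (nat_lit 0) (nat_lit 10175953) (nat_lit 0) (nat_lit 0x1fe89b2e8) (nat_lit 280481809),
  Rx.mk (nat_lit 357) (nat_lit 5) (nat_lit 4) (nat_lit 5) (nat_lit 5) (nat_lit 295) (nat_lit 282) r2_295 r1_282 (nat_lit 0) (nat_lit 9484367) (nat_lit 0) (nat_lit 0x1fd510a98) (nat_lit 281076273),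
  Rx.mk (nat_lit 361) (nat_lit 1) (nat_lit 5) (nat_lit 5) (nat_lit 7) (nat_lit 299) (nat_lit 284) r2_299 r1_284 (nat_lit 0) (nat_lit 0) (nat_lit 0) (nat_lit 0x20056d4f2) (nat_lit 268435456),
  Rx.mk (nat_lit 365) (nat_lit 5) (nat_lit 5) (nat_lit 5) (nat_lit 7) (nat_lit 296) (nat_lit 285) r2_296 r1_285 (nat_lit 0) (nat_lit 0) (nat_lit 0) (nat_lit 0x20056d4f2) (nat_lit 268435456)]
noncomputable def e2_44 : List Rx := [
  Rx.mk (nat_lit 105) (nat_lit 1) (nat_lit 5) (nat_lit 1) (nat_lit 7) (nat_lit 303) (nat_lit 322) r2_303 r8_322 (nat_lit 0) (nat_lit 0) (nat_lit 0) (nat_lit 0x20056d4f2) (nat_lit 268435456),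
  Rx.mk (nat_lit 361) (nat_lit 1) (nat_lit 5) (nat_lit 5) (nat_lit 7) (nat_lit 302) (nat_lit 321) r2_302 r8_321 (nat_lit 0) (nat_lit 0) (nat_lit 0) (nat_lit 0x20056d4f2) (nat_lit 268435456),
  Rx.mk (nat_lit 365) (nat_lit 5) (nat_lit 5) (nat_lit 5) (nat_lit 7) (nat_lit 301) (nat_lit 320) r2_301 r8_320 (nat_lit 0) (nat_lit 0) (nat_lit 0) (nat_lit 0x20056d4f2) (nat_lit 268435456)]
noncomputable def e2_45 : List Rx := [
  Rx.mk (nat_lit 72) (nat_lit 0) (nat_lit 1) (nat_lit 1) (nat_lit 6) (nat_lit 306) (nat_lit 282) r2_306 r1_282 (nat_lit 9484367) (nat_lit 0) (nat_lit 0) (nat_lit 0x1fd510a98) (nat_lit 281076273),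
  Rx.mk (nat_lit 73) (nat_lit 1) (nat_lit 1) (nat_lit 1) (nat_lit 7) (nat_lit 309) (nat_lit 285) r2_309 r1_285 (nat_lit 0) (nat_lit 0) (nat_lit 0) (nat_lit 0x20056d4f2) (nat_lit 268435456),
  Rx.mk (nat_lit 104) (nat_lit 0) (nat_lit 5) (nat_lit 1) (nat_lit 6) (nat_lit 305) (nat_lit 281) r2_305 r1_281 (nat_lit 10175953) (nat_lit 0) (nat_lit 0) (nat_lit 0x1fe89b2e8) (nat_lit 280481809),
  Rx.mk (nat_lit 105) (nat_lit 1) (nat_lit 5) (nat_lit 1) (nat_lit 7) (nat_lit 308) (nat_lit 284) r2_308 r1_284 (nat_lit 0) (nat_lit 0) (nat_lit 0) (nat_lit 0x20056d4f2) (nat_lit 268435456),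
  Rx.mk (nat_lit 360) (nat_lit 0) (nat_lit 5) (nat_lit 5) (nat_lit 6) (nat_lit 304) (nat_lit 280) r2_304 r1_280 (nat_lit 41135547) (nat_lit 0) (nat_lit 0) (nat_lit 0x20165832a) (nat_lit 308445753),
  Rx.mk (nat_lit 361) (nat_lit 1) (nat_lit 5) (nat_lit 5) (nat_lit 7) (nat_lit 307) (nat_lit 283) r2_307 r1_283 (nat_lit 0) (nat_lit 0) (nat_lit 0) (nat_lit 0x20056d4f2) (nat_lit 268435456)]
noncomputable def e2_46 : List Rx := [
  Rx.mk (nat_lit 72) (nat_lit 0) (nat_lit 1) (nat_lit 1) (nat_lit 6) (nat_lit 310) (nat_lit 310) r2_310 r2_310 (nat_lit 9211913) (nat_lit 0) (nat_lit 0) (nat_lit 0x1ffb1784a) (nat_lit 278320069),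
  Rx.mk (nat_lit 73) (nat_lit 1) (nat_lit 1) (nat_lit 1) (nat_lit 7) (nat_lit 311) (nat_lit 311) r2_311 r2_311 (nat_lit 0) (nat_lit 0) (nat_lit 0) (nat_lit 0x20056d4f2) (nat_lit 268435456)]
noncomputable def e2_47 : List Rx := [
  Rx.mk (nat_lit 73) (nat_lit 1) (nat_lit 1) (nat_lit 1) (nat_lit 7) (nat_lit 314) (nat_lit 320) r2_314 r8_320 (nat_lit 0) (nat_lit 0) (nat_lit 0) (nat_lit 0x20056d4f2) (nat_lit 268435456),
  Rx.mk (nat_lit 105) (nat_lit 1) (nat_lit 5) (nat_lit 1) (nat_lit 7) (nat_lit 313) (nat_lit 321) r2_313 r8_321 (nat_lit 0) (nat_lit 0) (nat_lit 0) (nat_lit 0x20056d4f2) (nat_lit 268435456),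
  Rx.mk (nat_lit 361) (nat_lit 1) (nat_lit 5) (nat_lit 5) (nat_lit 7) (nat_lit 312) (nat_lit 322) r2_312 r8_322 (nat_lit 0) (nat_lit 0) (nat_lit 0) (nat_lit 0x20056d4f2) (nat_lit 268435456)]
noncomputable def e2_48 : List Rx := [
  Rx.mk (nat_lit 73) (nat_lit 1) (nat_lit 1) (nat_lit 1) (nat_lit 7) (nat_lit 315) (nat_lit 293) r2_315 r9_293 (nat_lit 0) (nat_lit 0) (nat_lit 0) (nat_lit 0x20056d4f2) (nat_lit 268435456)]
noncomputable def e2_49 : List Rx := [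
  Rx.mk (nat_lit 8) (nat_lit 0) (nat_lit 1) (nat_lit 0) (nat_lit 2) (nat_lit 316) (nat_lit 260) r2_316 r9_260 (nat_lit 13222408) (nat_lit 0) (nat_lit 14496166) (nat_lit 0x197e2b814) (nat_lit 406887580),
  Rx.mk (nat_lit 10) (nat_lit 2) (nat_lit 1) (nat_lit 0) (nat_lit 3) (nat_lit 319) (nat_lit 261) r2_319 r9_261 (nat_lit 0) (nat_lit 0) (nat_lit 9484367) (nat_lit 0x20056d4f2) (nat_lit 277919823),
  Rx.mk (nat_lit 72) (nat_lit 0) (nat_lit 1) (nat_lit 1) (nat_lit 6) (nat_lit 317) (nat_lit 262) r2_317 r9_262 (nat_lit 9484367) (nat_lit 0) (nat_lit 0) (nat_lit 0x20056d4f2) (nat_lit 277919823),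
  Rx.mk (nat_lit 73) (nat_lit 1) (nat_lit 1) (nat_lit 1) (nat_lit 7) (nat_lit 318) (nat_lit 263) r2_318 r9_263 (nat_lit 0) (nat_lit 0) (nat_lit 0) (nat_lit 0x20056d4f2) (nat_lit 268435456),
  Rx.mk (nat_lit 74) (nat_lit 2) (nat_lit 1) (nat_lit 1) (nat_lit 7) (nat_lit 320) (nat_lit 264) r2_320 r9_264 (nat_lit 0) (nat_lit 0) (nat_lit 0) (nat_lit 0x20056d4f2) (nat_lit 268435456),
  Rx.mk (nat_lit 138) (nat_lit 2) (nat_lit 1) (nat_lit 2) (nat_lit 7) (nat_lit 321) (nat_lit 265) r2_321 r9_265 (nat_lit 0) (nat_lit 0) (nat_lit 0) (nat_lit 0x20056d4f2) (nat_lit 268435456)]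
noncomputable def e2_50 : List Rx := [
  Rx.mk (nat_lit 96) (nat_lit 0) (nat_lit 4) (nat_lit 1) (nat_lit 4) (nat_lit 323) (nat_lit 279) r2_323 r3_279 (nat_lit 72299) (nat_lit 50009) (nat_lit 0) (nat_lit 0x1aa0c65f8) (nat_lit 359834164),
  Rx.mk (nat_lit 97) (nat_lit 1) (nat_lit 4) (nat_lit 1) (nat_lit 5) (nat_lit 328) (nat_lit 284) r2_328 r3_284 (nat_lit 0) (nat_lit 1166783) (nat_lit 0) (nat_lit 0x1cca82ce6) (nat_lit 324221889),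
  Rx.mk (nat_lit 99) (nat_lit 3) (nat_lit 4) (nat_lit 1) (nat_lit 5) (nat_lit 332) (nat_lit 286) r2_332 r3_286 (nat_lit 0) (nat_lit 6890366) (nat_lit 0) (nat_lit 0x1f48258fe) (nat_lit 287757172),
  Rx.mk (nat_lit 104) (nat_lit 0) (nat_lit 5) (nat_lit 1) (nat_lit 6) (nat_lit 325) (nat_lit 280) r2_325 r3_280 (nat_lit 5970012) (nat_lit 0) (nat_lit 0) (nat_lit 0x1d4ee261c) (nat_lit 320299518),
  Rx.mk (nat_lit 105) (nat_lit 1) (nat_lit 5) (nat_lit 1) (nat_lit 7) (nat_lit 330) (nat_lit 285) r2_330 r3_285 (nat_lit 0) (nat_lit 0) (nat_lit 0) (nat_lit 0x20056d4f2) (nat_lit 268435456),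
  Rx.mk (nat_lit 107) (nat_lit 3) (nat_lit 5) (nat_lit 1) (nat_lit 7) (nat_lit 333) (nat_lit 287) r2_333 r3_287 (nat_lit 0) (nat_lit 0) (nat_lit 0) (nat_lit 0x20056d4f2) (nat_lit 268435456),
  Rx.mk (nat_lit 352) (nat_lit 0) (nat_lit 4) (nat_lit 5) (nat_lit 4) (nat_lit 322) (nat_lit 276) r2_322 r3_276 (nat_lit 50009) (nat_lit 72299) (nat_lit 0) (nat_lit 0x1aa0c65f8) (nat_lit 359834164),
  Rx.mk (nat_lit 353) (nat_lit 1) (nat_lit 4) (nat_lit 5) (nat_lit 5) (nat_lit 327) (nat_lit 281) r2_327 r3_281 (nat_lit 0) (nat_lit 5970012) (nat_lit 0) (nat_lit 0x1d4ee261c) (nat_lit 320299518),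
  Rx.mk (nat_lit 360) (nat_lit 0) (nat_lit 5) (nat_lit 5) (nat_lit 6) (nat_lit 324) (nat_lit 277) r2_324 r3_277 (nat_lit 1166783) (nat_lit 0) (nat_lit 0) (nat_lit 0x1cca82ce6) (nat_lit 324221889),
  Rx.mk (nat_lit 361) (nat_lit 1) (nat_lit 5) (nat_lit 5) (nat_lit 7) (nat_lit 329) (nat_lit 282) r2_329 r3_282 (nat_lit 0) (nat_lit 0) (nat_lit 0) (nat_lit 0x20056d4f2) (nat_lit 268435456),
  Rx.mk (nat_lit 376) (nat_lit 0) (nat_lit 7) (nat_lit 5) (nat_lit 6) (nat_lit 326) (nat_lit 278) r2_326 r3_278 (nat_lit 6890366) (nat_lit 0) (nat_lit 0) (nat_lit 0x1f48258fe) (nat_lit 287757172),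
  Rx.mk (nat_lit 377) (nat_lit 1) (nat_lit 7) (nat_lit 5) (nat_lit 7) (nat_lit 331) (nat_lit 283) r2_331 r3_283 (nat_lit 0) (nat_lit 0) (nat_lit 0) (nat_lit 0x20056d4f2) (nat_lit 268435456)]
noncomputable def e2_51 : List Rx := [
  Rx.mk (nat_lit 104) (nat_lit 0) (nat_lit 5) (nat_lit 1) (nat_lit 6) (nat_lit 335) (nat_lit 300) r2_335 r4_300 (nat_lit 9484367) (nat_lit 0) (nat_lit 0) (nat_lit 0x1ffb19802) (nat_lit 278589723),
  Rx.mk (nat_lit 105) (nat_lit 1) (nat_lit 5) (nat_lit 1) (nat_lit 7) (nat_lit 337) (nat_lit 302) r2_337 r4_302 (nat_lit 0) (nat_lit 0) (nat_lit 0) (nat_lit 0x20056d4f2) (nat_lit 268435456),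
  Rx.mk (nat_lit 107) (nat_lit 3) (nat_lit 5) (nat_lit 1) (nat_lit 7) (nat_lit 338) (nat_lit 303) r2_338 r4_303 (nat_lit 0) (nat_lit 0) (nat_lit 0) (nat_lit 0x20056d4f2) (nat_lit 268435456),
  Rx.mk (nat_lit 360) (nat_lit 0) (nat_lit 5) (nat_lit 5) (nat_lit 6) (nat_lit 334) (nat_lit 299) r2_334 r4_299 (nat_lit 20123259) (nat_lit 0) (nat_lit 0) (nat_lit 0x1f226cc5c) (nat_lit 303492615),
  Rx.mk (nat_lit 361) (nat_lit 1) (nat_lit 5) (nat_lit 5) (nat_lit 7) (nat_lit 336) (nat_lit 301) r2_336 r4_301 (nat_lit 0) (nat_lit 0) (nat_lit 0) (nat_lit 0x20056d4f2) (nat_lit 268435456)]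
noncomputable def e2_52 : List Rx := [
  Rx.mk (nat_lit 96) (nat_lit 0) (nat_lit 4) (nat_lit 1) (nat_lit 4) (nat_lit 339) (nat_lit 276) r2_339 r5_276 (nat_lit 12102987) (nat_lit 5613392) (nat_lit 0) (nat_lit 0x194cc9758) (nat_lit 400137485),
  Rx.mk (nat_lit 97) (nat_lit 1) (nat_lit 4) (nat_lit 1) (nat_lit 5) (nat_lit 343) (nat_lit 280) r2_343 r5_280 (nat_lit 0) (nat_lit 19988985) (nat_lit 0) (nat_lit 0x1afb37d8e) (nat_lit 373866291),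
  Rx.mk (nat_lit 99) (nat_lit 3) (nat_lit 4) (nat_lit 1) (nat_lit 5) (nat_lit 347) (nat_lit 283) r2_347 r5_283 (nat_lit 0) (nat_lit 9484367) (nat_lit 0) (nat_lit 0x20056d4f2) (nat_lit 277919823),
  Rx.mk (nat_lit 104) (nat_lit 0) (nat_lit 5) (nat_lit 1) (nat_lit 6) (nat_lit 340) (nat_lit 277) r2_340 r5_277 (nat_lit 9484367) (nat_lit 0) (nat_lit 0) (nat_lit 0x20056d4f2) (nat_lit 277919823),
  Rx.mk (nat_lit 105) (nat_lit 1) (nat_lit 5) (nat_lit 1) (nat_lit 7) (nat_lit 344) (nat_lit 281) r2_344 r5_281 (nat_lit 0) (nat_lit 0) (nat_lit 0) (nat_lit 0x20056d4f2) (nat_lit 268435456),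
  Rx.mk (nat_lit 107) (nat_lit 3) (nat_lit 5) (nat_lit 1) (nat_lit 7) (nat_lit 348) (nat_lit 284) r2_348 r5_284 (nat_lit 0) (nat_lit 0) (nat_lit 0) (nat_lit 0x20056d4f2) (nat_lit 268435456),
  Rx.mk (nat_lit 120) (nat_lit 0) (nat_lit 7) (nat_lit 1) (nat_lit 6) (nat_lit 342) (nat_lit 278) r2_342 r5_278 (nat_lit 7565036) (nat_lit 0) (nat_lit 0) (nat_lit 0x202341924) (nat_lit 274059592),
  Rx.mk (nat_lit 121) (nat_lit 1) (nat_lit 7) (nat_lit 1) (nat_lit 7) (nat_lit 346) (nat_lit 282) r2_346 r5_282 (nat_lit 0) (nat_lit 0) (nat_lit 0) (nat_lit 0x20056d4f2) (nat_lit 268435456),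
  Rx.mk (nat_lit 376) (nat_lit 0) (nat_lit 7) (nat_lit 5) (nat_lit 6) (nat_lit 341) (nat_lit 275) r2_341 r5_275 (nat_lit 7565097) (nat_lit 0) (nat_lit 0) (nat_lit 0x20234095c) (nat_lit 274059903),
  Rx.mk (nat_lit 377) (nat_lit 1) (nat_lit 7) (nat_lit 5) (nat_lit 7) (nat_lit 345) (nat_lit 279) r2_345 r5_279 (nat_lit 0) (nat_lit 0) (nat_lit 0) (nat_lit 0x20056d4f2) (nat_lit 268435456)]
noncomputable def e2_53 : List Rx := [
  Rx.mk (nat_lit 97) (nat_lit 1) (nat_lit 4) (nat_lit 1) (nat_lit 5) (nat_lit 350) (nat_lit 299) r2_350 r4_299 (nat_lit 0) (nat_lit 20123259) (nat_lit 0) (nat_lit 0x1f226cc5c) (nat_lit 303492615),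
  Rx.mk (nat_lit 105) (nat_lit 1) (nat_lit 5) (nat_lit 1) (nat_lit 7) (nat_lit 352) (nat_lit 301) r2_352 r4_301 (nat_lit 0) (nat_lit 0) (nat_lit 0) (nat_lit 0x20056d4f2) (nat_lit 268435456),
  Rx.mk (nat_lit 353) (nat_lit 1) (nat_lit 4) (nat_lit 5) (nat_lit 5) (nat_lit 349) (nat_lit 300) r2_349 r4_300 (nat_lit 0) (nat_lit 9484367) (nat_lit 0) (nat_lit 0x1ffb19802) (nat_lit 278589723),
  Rx.mk (nat_lit 361) (nat_lit 1) (nat_lit 5) (nat_lit 5) (nat_lit 7) (nat_lit 351) (nat_lit 302) r2_351 r4_302 (nat_lit 0) (nat_lit 0) (nat_lit 0) (nat_lit 0x20056d4f2) (nat_lit 268435456),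
  Rx.mk (nat_lit 377) (nat_lit 1) (nat_lit 7) (nat_lit 5) (nat_lit 7) (nat_lit 353) (nat_lit 303) r2_353 r4_303 (nat_lit 0) (nat_lit 0) (nat_lit 0) (nat_lit 0x20056d4f2) (nat_lit 268435456)]
noncomputable def e2_54 : List Rx := [
  Rx.mk (nat_lit 105) (nat_lit 1) (nat_lit 5) (nat_lit 1) (nat_lit 7) (nat_lit 355) (nat_lit 324) r2_355 r10_324 (nat_lit 0) (nat_lit 0) (nat_lit 0) (nat_lit 0x20056d4f2) (nat_lit 268435456),
  Rx.mk (nat_lit 361) (nat_lit 1) (nat_lit 5) (nat_lit 5) (nat_lit 7) (nat_lit 354) (nat_lit 323) r2_354 r10_323 (nat_lit 0) (nat_lit 0) (nat_lit 0) (nat_lit 0x20056d4f2) (nat_lit 268435456)]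
noncomputable def e2_55 : List Rx := [
  Rx.mk (nat_lit 97) (nat_lit 1) (nat_lit 4) (nat_lit 1) (nat_lit 5) (nat_lit 356) (nat_lit 340) r2_356 r11_340 (nat_lit 0) (nat_lit 21278725) (nat_lit 0) (nat_lit 0x1f55b64fa) (nat_lit 301258281),
  Rx.mk (nat_lit 105) (nat_lit 1) (nat_lit 5) (nat_lit 1) (nat_lit 7) (nat_lit 357) (nat_lit 341) r2_357 r11_341 (nat_lit 0) (nat_lit 0) (nat_lit 0) (nat_lit 0x20056d4f2) (nat_lit 268435456),
  Rx.mk (nat_lit 121) (nat_lit 1) (nat_lit 7) (nat_lit 1) (nat_lit 7) (nat_lit 359) (nat_lit 342) r2_359 r11_342 (nat_lit 0) (nat_lit 0) (nat_lit 0) (nat_lit 0x20056d4f2) (nat_lit 268435456),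
  Rx.mk (nat_lit 377) (nat_lit 1) (nat_lit 7) (nat_lit 5) (nat_lit 7) (nat_lit 358) (nat_lit 339) r2_358 r11_339 (nat_lit 0) (nat_lit 0) (nat_lit 0) (nat_lit 0x20056d4f2) (nat_lit 268435456)]
noncomputable def e2_56 : List Rx := [
  Rx.mk (nat_lit 99) (nat_lit 3) (nat_lit 4) (nat_lit 1) (nat_lit 5) (nat_lit 367) (nat_lit 275) r2_367 r5_275 (nat_lit 0) (nat_lit 7565097) (nat_lit 0) (nat_lit 0x20234095c) (nat_lit 274059903),
  Rx.mk (nat_lit 107) (nat_lit 3) (nat_lit 5) (nat_lit 1) (nat_lit 7) (nat_lit 369) (nat_lit 279) r2_369 r5_279 (nat_lit 0) (nat_lit 0) (nat_lit 0) (nat_lit 0x20056d4f2) (nat_lit 268435456),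
  Rx.mk (nat_lit 352) (nat_lit 0) (nat_lit 4) (nat_lit 5) (nat_lit 4) (nat_lit 360) (nat_lit 276) r2_360 r5_276 (nat_lit 5613392) (nat_lit 12102987) (nat_lit 0) (nat_lit 0x194cc9758) (nat_lit 400137485),
  Rx.mk (nat_lit 353) (nat_lit 1) (nat_lit 4) (nat_lit 5) (nat_lit 5) (nat_lit 363) (nat_lit 277) r2_363 r5_277 (nat_lit 0) (nat_lit 9484367) (nat_lit 0) (nat_lit 0x20056d4f2) (nat_lit 277919823),
  Rx.mk (nat_lit 355) (nat_lit 3) (nat_lit 4) (nat_lit 5) (nat_lit 5) (nat_lit 366) (nat_lit 278) r2_366 r5_278 (nat_lit 0) (nat_lit 7565036) (nat_lit 0) (nat_lit 0x202341924) (nat_lit 274059592),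
  Rx.mk (nat_lit 360) (nat_lit 0) (nat_lit 5) (nat_lit 5) (nat_lit 6) (nat_lit 361) (nat_lit 280) r2_361 r5_280 (nat_lit 19988985) (nat_lit 0) (nat_lit 0) (nat_lit 0x1afb37d8e) (nat_lit 373866291),
  Rx.mk (nat_lit 361) (nat_lit 1) (nat_lit 5) (nat_lit 5) (nat_lit 7) (nat_lit 364) (nat_lit 281) r2_364 r5_281 (nat_lit 0) (nat_lit 0) (nat_lit 0) (nat_lit 0x20056d4f2) (nat_lit 268435456),
  Rx.mk (nat_lit 363) (nat_lit 3) (nat_lit 5) (nat_lit 5) (nat_lit 7) (nat_lit 368) (nat_lit 282) r2_368 r5_282 (nat_lit 0) (nat_lit 0) (nat_lit 0) (nat_lit 0x20056d4f2) (nat_lit 268435456),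
  Rx.mk (nat_lit 376) (nat_lit 0) (nat_lit 7) (nat_lit 5) (nat_lit 6) (nat_lit 362) (nat_lit 283) r2_362 r5_283 (nat_lit 9484367) (nat_lit 0) (nat_lit 0) (nat_lit 0x20056d4f2) (nat_lit 277919823),
  Rx.mk (nat_lit 377) (nat_lit 1) (nat_lit 7) (nat_lit 5) (nat_lit 7) (nat_lit 365) (nat_lit 284) r2_365 r5_284 (nat_lit 0) (nat_lit 0) (nat_lit 0) (nat_lit 0x20056d4f2) (nat_lit 268435456)]
noncomputable def e2_57 : List Rx := [
  Rx.mk (nat_lit 107) (nat_lit 3) (nat_lit 5) (nat_lit 1) (nat_lit 7) (nat_lit 373) (nat_lit 339) r2_373 r11_339 (nat_lit 0) (nat_lit 0) (nat_lit 0) (nat_lit 0x20056d4f2) (nat_lit 268435456),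
  Rx.mk (nat_lit 360) (nat_lit 0) (nat_lit 5) (nat_lit 5) (nat_lit 6) (nat_lit 370) (nat_lit 340) r2_370 r11_340 (nat_lit 21278725) (nat_lit 0) (nat_lit 0) (nat_lit 0x1f55b64fa) (nat_lit 301258281),
  Rx.mk (nat_lit 361) (nat_lit 1) (nat_lit 5) (nat_lit 5) (nat_lit 7) (nat_lit 371) (nat_lit 341) r2_371 r11_341 (nat_lit 0) (nat_lit 0) (nat_lit 0) (nat_lit 0x20056d4f2) (nat_lit 268435456),
  Rx.mk (nat_lit 363) (nat_lit 3) (nat_lit 5) (nat_lit 5) (nat_lit 7) (nat_lit 372) (nat_lit 342) r2_372 r11_342 (nat_lit 0) (nat_lit 0) (nat_lit 0) (nat_lit 0x20056d4f2) (nat_lit 268435456)]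
noncomputable def e2 : List (List Rx) := [e2_0, e2_1, e2_2, e2_3, e2_4, e2_5, e2_6, e2_7, e2_8, e2_9, e2_10, e2_11, e2_12, e2_13, e2_14, e2_15, e2_16, e2_17, e2_18, e2_19, e2_20, e2_21, e2_22, e2_23, e2_24, e2_25, e2_26, e2_27, e2_28, e2_29, e2_30, e2_31, e2_32, e2_33, e2_34, e2_35, e2_36, e2_37, e2_38, e2_39, e2_40, e2_41, e2_42, e2_43, e2_44, e2_45, e2_46, e2_47, e2_48, e2_49, e2_50, e2_51, e2_52, e2_53, e2_54, e2_55, e2_56, e2_57]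
noncomputable def e3_0 : List Rx := [
  Rx.mk (nat_lit 2) (nat_lit 2) (nat_lit 0) (nat_lit 0) (nat_lit 1) (nat_lit 4) (nat_lit 43) r3_4 r0_43 (nat_lit 0) (nat_lit 237) (nat_lit 74) (nat_lit 0x2052170be) (nat_lit 263187217),
  Rx.mk (nat_lit 18) (nat_lit 2) (nat_lit 2) (nat_lit 0) (nat_lit 3) (nat_lit 6) (nat_lit 46) r3_6 r0_46 (nat_lit 0) (nat_lit 0) (nat_lit 221533) (nat_lit 0x1f6467e9a) (nat_lit 279046389),
  Rx.mk (nat_lit 22) (nat_lit 6) (nat_lit 2) (nat_lit 0) (nat_lit 3) (nat_lit 2) (nat_lit 49) r3_2 r0_49 (nat_lit 0) (nat_lit 0) (nat_lit 2053) (nat_lit 0x1fff1523a) (nat_lit 268499659),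
  Rx.mk (nat_lit 150) (nat_lit 6) (nat_lit 2) (nat_lit 2) (nat_lit 7) (nat_lit 3) (nat_lit 50) r3_3 r0_50 (nat_lit 0) (nat_lit 0) (nat_lit 0) (nat_lit 0x2006da4f2) (nat_lit 268322256),
  Rx.mk (nat_lit 180) (nat_lit 4) (nat_lit 6) (nat_lit 2) (nat_lit 6) (nat_lit 0) (nat_lit 48) r3_0 r0_48 (nat_lit 3060) (nat_lit 0) (nat_lit 0) (nat_lit 0x1ffe47150) (nat_lit 268554166),
  Rx.mk (nat_lit 182) (nat_lit 6) (nat_lit 6) (nat_lit 2) (nat_lit 7) (nat_lit 1) (nat_lit 51) r3_1 r0_51 (nat_lit 0) (nat_lit 0) (nat_lit 0) (nat_lit 0x1f48084e8) (nat_lit 280847656),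
  Rx.mk (nat_lit 194) (nat_lit 2) (nat_lit 0) (nat_lit 3) (nat_lit 5) (nat_lit 5) (nat_lit 44) r3_5 r0_44 (nat_lit 0) (nat_lit 41515) (nat_lit 0) (nat_lit 0x1d3411838) (nat_lit 315993021),
  Rx.mk (nat_lit 210) (nat_lit 2) (nat_lit 2) (nat_lit 3) (nat_lit 7) (nat_lit 7) (nat_lit 47) r3_7 r0_47 (nat_lit 0) (nat_lit 0) (nat_lit 0) (nat_lit 0x20628cae8) (nat_lit 262391206),
  Rx.mk (nat_lit 218) (nat_lit 2) (nat_lit 3) (nat_lit 3) (nat_lit 7) (nat_lit 8) (nat_lit 45) r3_8 r0_45 (nat_lit 0) (nat_lit 0) (nat_lit 0) (nat_lit 0x1f5a47708) (nat_lit 279658856)]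
noncomputable def e3_1 : List Rx := [
  Rx.mk (nat_lit 2) (nat_lit 2) (nat_lit 0) (nat_lit 0) (nat_lit 1) (nat_lit 13) (nat_lit 39) r3_13 r1_39 (nat_lit 0) (nat_lit 1048) (nat_lit 493) (nat_lit 0x200087852) (nat_lit 268403547),
  Rx.mk (nat_lit 18) (nat_lit 2) (nat_lit 2) (nat_lit 0) (nat_lit 3) (nat_lit 16) (nat_lit 43) r3_16 r1_43 (nat_lit 0) (nat_lit 0) (nat_lit 326961) (nat_lit 0x2101a3708) (nat_lit 252384517),
  Rx.mk (nat_lit 22) (nat_lit 6) (nat_lit 2) (nat_lit 0) (nat_lit 3) (nat_lit 10) (nat_lit 46) r3_10 r1_46 (nat_lit 0) (nat_lit 0) (nat_lit 12586) (nat_lit 0x1ff9824c6) (nat_lit 268882992),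
  Rx.mk (nat_lit 66) (nat_lit 2) (nat_lit 0) (nat_lit 1) (nat_lit 5) (nat_lit 14) (nat_lit 40) r3_14 r1_40 (nat_lit 0) (nat_lit 5364652) (nat_lit 0) (nat_lit 0x20197d988) (nat_lit 272405208),
  Rx.mk (nat_lit 82) (nat_lit 2) (nat_lit 2) (nat_lit 1) (nat_lit 7) (nat_lit 17) (nat_lit 44) r3_17 r1_44 (nat_lit 0) (nat_lit 0) (nat_lit 0) (nat_lit 0x218acc7dc) (nat_lit 243368056),
  Rx.mk (nat_lit 86) (nat_lit 6) (nat_lit 2) (nat_lit 1) (nat_lit 7) (nat_lit 11) (nat_lit 47) r3_11 r1_47 (nat_lit 0) (nat_lit 0) (nat_lit 0) (nat_lit 0x24f03701a) (nat_lit 187761056),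
  Rx.mk (nat_lit 150) (nat_lit 6) (nat_lit 2) (nat_lit 2) (nat_lit 7) (nat_lit 12) (nat_lit 48) r3_12 r1_48 (nat_lit 0) (nat_lit 0) (nat_lit 0) (nat_lit 0x21621855c) (nat_lit 245991956),
  Rx.mk (nat_lit 182) (nat_lit 6) (nat_lit 6) (nat_lit 2) (nat_lit 7) (nat_lit 9) (nat_lit 49) r3_9 r1_49 (nat_lit 0) (nat_lit 0) (nat_lit 0) (nat_lit 0x21883a01e) (nat_lit 243550156),
  Rx.mk (nat_lit 194) (nat_lit 2) (nat_lit 0) (nat_lit 3) (nat_lit 5) (nat_lit 15) (nat_lit 41) r3_15 r1_41 (nat_lit 0) (nat_lit 1588424) (nat_lit 0) (nat_lit 0x1ffa00bf0) (nat_lit 270650030),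
  Rx.mk (nat_lit 210) (nat_lit 2) (nat_lit 2) (nat_lit 3) (nat_lit 7) (nat_lit 18) (nat_lit 45) r3_18 r1_45 (nat_lit 0) (nat_lit 0) (nat_lit 0) (nat_lit 0x208dbc254) (nat_lit 259604756),
  Rx.mk (nat_lit 218) (nat_lit 2) (nat_lit 3) (nat_lit 3) (nat_lit 7) (nat_lit 19) (nat_lit 42) r3_19 r1_42 (nat_lit 0) (nat_lit 0) (nat_lit 0) (nat_lit 0x20853aa04) (nat_lit 260134406)]
noncomputable def e3_2 : List Rx := [
  Rx.mk (nat_lit 66) (nat_lit 2) (nat_lit 0) (nat_lit 1) (nat_lit 5) (nat_lit 21) (nat_lit 44) r3_21 r2_44 (nat_lit 0) (nat_lit 175017) (nat_lit 0) (nat_lit 0x20b313174) (nat_lit 257181973),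
  Rx.mk (nat_lit 82) (nat_lit 2) (nat_lit 2) (nat_lit 1) (nat_lit 7) (nat_lit 22) (nat_lit 45) r3_22 r2_45 (nat_lit 0) (nat_lit 0) (nat_lit 0) (nat_lit 0x2250293b8) (nat_lit 230736656),
  Rx.mk (nat_lit 86) (nat_lit 6) (nat_lit 2) (nat_lit 1) (nat_lit 7) (nat_lit 20) (nat_lit 46) r3_20 r2_46 (nat_lit 0) (nat_lit 0) (nat_lit 0) (nat_lit 0x22bb0e67e) (nat_lit 223917606)]
noncomputable def e3_3 : List Rx := [
  Rx.mk (nat_lit 22) (nat_lit 6) (nat_lit 2) (nat_lit 0) (nat_lit 3) (nat_lit 25) (nat_lit 37) r3_25 r3_37 (nat_lit 0) (nat_lit 0) (nat_lit 254) (nat_lit 0x1ff3677ee) (nat_lit 269271710),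
  Rx.mk (nat_lit 150) (nat_lit 6) (nat_lit 2) (nat_lit 2) (nat_lit 7) (nat_lit 26) (nat_lit 39) r3_26 r3_39 (nat_lit 0) (nat_lit 0) (nat_lit 0) (nat_lit 0x20b55b198) (nat_lit 256982706),
  Rx.mk (nat_lit 180) (nat_lit 4) (nat_lit 6) (nat_lit 2) (nat_lit 6) (nat_lit 23) (nat_lit 32) r3_23 r3_32 (nat_lit 254) (nat_lit 0) (nat_lit 0) (nat_lit 0x1ff3677ee) (nat_lit 269271710),
  Rx.mk (nat_lit 182) (nat_lit 6) (nat_lit 6) (nat_lit 2) (nat_lit 7) (nat_lit 24) (nat_lit 40) r3_24 r3_40 (nat_lit 0) (nat_lit 0) (nat_lit 0) (nat_lit 0x20b55b198) (nat_lit 256982706),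
  Rx.mk (nat_lit 183) (nat_lit 7) (nat_lit 6) (nat_lit 2) (nat_lit 7) (nat_lit 30) (nat_lit 35) r3_30 r3_35 (nat_lit 0) (nat_lit 0) (nat_lit 0) (nat_lit 0x244b2507c) (nat_lit 198177406),
  Rx.mk (nat_lit 194) (nat_lit 2) (nat_lit 0) (nat_lit 3) (nat_lit 5) (nat_lit 33) (nat_lit 28) r3_33 r3_28 (nat_lit 0) (nat_lit 46) (nat_lit 0) (nat_lit 0x200000d7a) (nat_lit 268435352),
  Rx.mk (nat_lit 210) (nat_lit 2) (nat_lit 2) (nat_lit 3) (nat_lit 7) (nat_lit 34) (nat_lit 31) r3_34 r3_31 (nat_lit 0) (nat_lit 0) (nat_lit 0) (nat_lit 0x1dbb13c1e) (nat_lit 307063506),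
  Rx.mk (nat_lit 214) (nat_lit 6) (nat_lit 2) (nat_lit 3) (nat_lit 7) (nat_lit 27) (nat_lit 38) r3_27 r3_38 (nat_lit 0) (nat_lit 0) (nat_lit 0) (nat_lit 0x244b2507c) (nat_lit 198177406),
  Rx.mk (nat_lit 218) (nat_lit 2) (nat_lit 3) (nat_lit 3) (nat_lit 7) (nat_lit 36) (nat_lit 29) r3_36 r3_29 (nat_lit 0) (nat_lit 0) (nat_lit 0) (nat_lit 0x1dbb13c1e) (nat_lit 307063506),
  Rx.mk (nat_lit 315) (nat_lit 3) (nat_lit 7) (nat_lit 4) (nat_lit 3) (nat_lit 37) (nat_lit 25) r3_37 r3_25 (nat_lit 0) (nat_lit 0) (nat_lit 254) (nat_lit 0x1ff3677ee) (nat_lit 269271710),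
  Rx.mk (nat_lit 423) (nat_lit 7) (nat_lit 4) (nat_lit 6) (nat_lit 5) (nat_lit 28) (nat_lit 33) r3_28 r3_33 (nat_lit 0) (nat_lit 46) (nat_lit 0) (nat_lit 0x200000d7a) (nat_lit 268435352),
  Rx.mk (nat_lit 439) (nat_lit 7) (nat_lit 6) (nat_lit 6) (nat_lit 7) (nat_lit 29) (nat_lit 36) r3_29 r3_36 (nat_lit 0) (nat_lit 0) (nat_lit 0) (nat_lit 0x1dbb13c1e) (nat_lit 307063506),
  Rx.mk (nat_lit 443) (nat_lit 3) (nat_lit 7) (nat_lit 6) (nat_lit 7) (nat_lit 38) (nat_lit 27) r3_38 r3_27 (nat_lit 0) (nat_lit 0) (nat_lit 0) (nat_lit 0x244b2507c) (nat_lit 198177406),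
  Rx.mk (nat_lit 447) (nat_lit 7) (nat_lit 7) (nat_lit 6) (nat_lit 7) (nat_lit 31) (nat_lit 34) r3_31 r3_34 (nat_lit 0) (nat_lit 0) (nat_lit 0) (nat_lit 0x1dbb13c1e) (nat_lit 307063506),
  Rx.mk (nat_lit 472) (nat_lit 0) (nat_lit 3) (nat_lit 7) (nat_lit 6) (nat_lit 32) (nat_lit 23) r3_32 r3_23 (nat_lit 254) (nat_lit 0) (nat_lit 0) (nat_lit 0x1ff3677ee) (nat_lit 269271710),
  Rx.mk (nat_lit 474) (nat_lit 2) (nat_lit 3) (nat_lit 7) (nat_lit 7) (nat_lit 35) (nat_lit 30) r3_35 r3_30 (nat_lit 0) (nat_lit 0) (nat_lit 0) (nat_lit 0x244b2507c) (nat_lit 198177406),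
  Rx.mk (nat_lit 475) (nat_lit 3) (nat_lit 3) (nat_lit 7) (nat_lit 7) (nat_lit 40) (nat_lit 24) r3_40 r3_24 (nat_lit 0) (nat_lit 0) (nat_lit 0) (nat_lit 0x20b55b198) (nat_lit 256982706),
  Rx.mk (nat_lit 507) (nat_lit 3) (nat_lit 7) (nat_lit 7) (nat_lit 7) (nat_lit 39) (nat_lit 26) r3_39 r3_26 (nat_lit 0) (nat_lit 0) (nat_lit 0) (nat_lit 0x20b55b198) (nat_lit 256982706)]
noncomputable def e3_4 : List Rx := [
  Rx.mk (nat_lit 22) (nat_lit 6) (nat_lit 2) (nat_lit 0) (nat_lit 3) (nat_lit 43) (nat_lit 36) r3_43 r4_36 (nat_lit 0) (nat_lit 0) (nat_lit 119145) (nat_lit 0x21ea15248) (nat_lit 237264301),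
  Rx.mk (nat_lit 150) (nat_lit 6) (nat_lit 2) (nat_lit 2) (nat_lit 7) (nat_lit 44) (nat_lit 38) r3_44 r4_38 (nat_lit 0) (nat_lit 0) (nat_lit 0) (nat_lit 0x2057f959a) (nat_lit 263075056),
  Rx.mk (nat_lit 180) (nat_lit 4) (nat_lit 6) (nat_lit 2) (nat_lit 6) (nat_lit 41) (nat_lit 34) r3_41 r4_34 (nat_lit 151800) (nat_lit 0) (nat_lit 0) (nat_lit 0x204bed6a2) (nat_lit 263787856),
  Rx.mk (nat_lit 182) (nat_lit 6) (nat_lit 6) (nat_lit 2) (nat_lit 7) (nat_lit 42) (nat_lit 39) r3_42 r4_39 (nat_lit 0) (nat_lit 0) (nat_lit 0) (nat_lit 0x201ac44a4) (nat_lit 267031306),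
  Rx.mk (nat_lit 183) (nat_lit 7) (nat_lit 6) (nat_lit 2) (nat_lit 7) (nat_lit 46) (nat_lit 35) r3_46 r4_35 (nat_lit 0) (nat_lit 0) (nat_lit 0) (nat_lit 0x204c425b2) (nat_lit 263570306),
  Rx.mk (nat_lit 194) (nat_lit 2) (nat_lit 0) (nat_lit 3) (nat_lit 5) (nat_lit 47) (nat_lit 31) r3_47 r4_31 (nat_lit 0) (nat_lit 3923) (nat_lit 0) (nat_lit 0x1fffa06be) (nat_lit 268464529),
  Rx.mk (nat_lit 210) (nat_lit 2) (nat_lit 2) (nat_lit 3) (nat_lit 7) (nat_lit 48) (nat_lit 33) r3_48 r4_33 (nat_lit 0) (nat_lit 0) (nat_lit 0) (nat_lit 0x21acbc90a) (nat_lit 241200006),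
  Rx.mk (nat_lit 214) (nat_lit 6) (nat_lit 2) (nat_lit 3) (nat_lit 7) (nat_lit 45) (nat_lit 37) r3_45 r4_37 (nat_lit 0) (nat_lit 0) (nat_lit 0) (nat_lit 0x2266fa790) (nat_lit 229274756),
  Rx.mk (nat_lit 218) (nat_lit 2) (nat_lit 3) (nat_lit 3) (nat_lit 7) (nat_lit 49) (nat_lit 32) r3_49 r4_32 (nat_lit 0) (nat_lit 0) (nat_lit 0) (nat_lit 0x1f5ce7486) (nat_lit 279471956)]
noncomputable def e3_5 : List Rx := [
  Rx.mk (nat_lit 194) (nat_lit 2) (nat_lit 0) (nat_lit 3) (nat_lit 5) (nat_lit 54) (nat_lit 21) r3_54 r5_21 (nat_lit 0) (nat_lit 1687) (nat_lit 0) (nat_lit 0x2008240a6) (nat_lit 267916793),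
  Rx.mk (nat_lit 210) (nat_lit 2) (nat_lit 2) (nat_lit 3) (nat_lit 7) (nat_lit 55) (nat_lit 24) r3_55 r5_24 (nat_lit 0) (nat_lit 0) (nat_lit 0) (nat_lit 0x1f67f1bd8) (nat_lit 278752756),
  Rx.mk (nat_lit 214) (nat_lit 6) (nat_lit 2) (nat_lit 3) (nat_lit 7) (nat_lit 50) (nat_lit 26) r3_50 r5_26 (nat_lit 0) (nat_lit 0) (nat_lit 0) (nat_lit 0x2138cf966) (nat_lit 248572906),
  Rx.mk (nat_lit 283) (nat_lit 3) (nat_lit 3) (nat_lit 4) (nat_lit 3) (nat_lit 59) (nat_lit 17) r3_59 r5_17 (nat_lit 0) (nat_lit 0) (nat_lit 3677) (nat_lit 0x1dae134ce) (nat_lit 307856233),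
  Rx.mk (nat_lit 315) (nat_lit 3) (nat_lit 7) (nat_lit 4) (nat_lit 3) (nat_lit 57) (nat_lit 19) r3_57 r5_19 (nat_lit 0) (nat_lit 0) (nat_lit 457992) (nat_lit 0x1e69bb6fe) (nat_lit 295933898),
  Rx.mk (nat_lit 443) (nat_lit 3) (nat_lit 7) (nat_lit 6) (nat_lit 7) (nat_lit 58) (nat_lit 20) r3_58 r5_20 (nat_lit 0) (nat_lit 0) (nat_lit 0) (nat_lit 0x2388b5c58) (nat_lit 210709306),
  Rx.mk (nat_lit 447) (nat_lit 7) (nat_lit 7) (nat_lit 6) (nat_lit 7) (nat_lit 51) (nat_lit 25) r3_51 r5_25 (nat_lit 0) (nat_lit 0) (nat_lit 0) (nat_lit 0x1e999e650) (nat_lit 292310856),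
  Rx.mk (nat_lit 450) (nat_lit 2) (nat_lit 0) (nat_lit 7) (nat_lit 5) (nat_lit 53) (nat_lit 22) r3_53 r5_22 (nat_lit 0) (nat_lit 28683) (nat_lit 0) (nat_lit 0x1e4abb916) (nat_lit 297488589),
  Rx.mk (nat_lit 472) (nat_lit 0) (nat_lit 3) (nat_lit 7) (nat_lit 6) (nat_lit 52) (nat_lit 16) r3_52 r5_16 (nat_lit 7113) (nat_lit 0) (nat_lit 0) (nat_lit 0x1eab7e4d8) (nat_lit 291042819),
  Rx.mk (nat_lit 474) (nat_lit 2) (nat_lit 3) (nat_lit 7) (nat_lit 7) (nat_lit 56) (nat_lit 23) r3_56 r5_23 (nat_lit 0) (nat_lit 0) (nat_lit 0) (nat_lit 0x23b717e98) (nat_lit 207752956),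
  Rx.mk (nat_lit 475) (nat_lit 3) (nat_lit 3) (nat_lit 7) (nat_lit 7) (nat_lit 60) (nat_lit 18) r3_60 r5_18 (nat_lit 0) (nat_lit 0) (nat_lit 0) (nat_lit 0x1f4f76ad6) (nat_lit 280383406)]
noncomputable def e3_6 : List Rx := [
  Rx.mk (nat_lit 258) (nat_lit 2) (nat_lit 0) (nat_lit 4) (nat_lit 1) (nat_lit 63) (nat_lit 61) r3_63 r3_61 (nat_lit 0) (nat_lit 57) (nat_lit 26) (nat_lit 0x2026bf006) (nat_lit 265958239),
  Rx.mk (nat_lit 280) (nat_lit 0) (nat_lit 3) (nat_lit 4) (nat_lit 2) (nat_lit 61) (nat_lit 63) r3_61 r3_63 (nat_lit 57) (nat_lit 0) (nat_lit 26) (nat_lit 0x2026bf006) (nat_lit 265958239),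
  Rx.mk (nat_lit 282) (nat_lit 2) (nat_lit 3) (nat_lit 4) (nat_lit 3) (nat_lit 65) (nat_lit 65) r3_65 r3_65 (nat_lit 0) (nat_lit 0) (nat_lit 89070) (nat_lit 0x231e9263c) (nat_lit 217491876),
  Rx.mk (nat_lit 322) (nat_lit 2) (nat_lit 0) (nat_lit 5) (nat_lit 5) (nat_lit 64) (nat_lit 62) r3_64 r3_62 (nat_lit 0) (nat_lit 1946) (nat_lit 0) (nat_lit 0x213cd88b4) (nat_lit 248180202),
  Rx.mk (nat_lit 344) (nat_lit 0) (nat_lit 3) (nat_lit 5) (nat_lit 6) (nat_lit 62) (nat_lit 64) r3_62 r3_64 (nat_lit 1946) (nat_lit 0) (nat_lit 0) (nat_lit 0x213cd88b4) (nat_lit 248180202),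
  Rx.mk (nat_lit 346) (nat_lit 2) (nat_lit 3) (nat_lit 5) (nat_lit 7) (nat_lit 66) (nat_lit 66) r3_66 r3_66 (nat_lit 0) (nat_lit 0) (nat_lit 0) (nat_lit 0x25afe1302) (nat_lit 175520406)]
noncomputable def e3_7 : List Rx := [
  Rx.mk (nat_lit 322) (nat_lit 2) (nat_lit 0) (nat_lit 5) (nat_lit 5) (nat_lit 67) (nat_lit 71) r3_67 r0_71 (nat_lit 0) (nat_lit 279) (nat_lit 0) (nat_lit 0x2000240b8) (nat_lit 268426835)]
noncomputable def e3_8 : List Rx := [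
  Rx.mk (nat_lit 66) (nat_lit 2) (nat_lit 0) (nat_lit 1) (nat_lit 5) (nat_lit 69) (nat_lit 67) r3_69 r1_67 (nat_lit 0) (nat_lit 30898) (nat_lit 0) (nat_lit 0x1fbf3341e) (nat_lit 272768554),
  Rx.mk (nat_lit 82) (nat_lit 2) (nat_lit 2) (nat_lit 1) (nat_lit 7) (nat_lit 70) (nat_lit 68) r3_70 r1_68 (nat_lit 0) (nat_lit 0) (nat_lit 0) (nat_lit 0x1f687605e) (nat_lit 278648806),
  Rx.mk (nat_lit 322) (nat_lit 2) (nat_lit 0) (nat_lit 5) (nat_lit 5) (nat_lit 68) (nat_lit 66) r3_68 r1_66 (nat_lit 0) (nat_lit 3722) (nat_lit 0) (nat_lit 0x20bd484a0) (nat_lit 256337228)]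
noncomputable def e3_9 : List Rx := [
  Rx.mk (nat_lit 322) (nat_lit 2) (nat_lit 0) (nat_lit 5) (nat_lit 5) (nat_lit 72) (nat_lit 65) r3_72 r4_65 (nat_lit 0) (nat_lit 3880) (nat_lit 0) (nat_lit 0x1fff81d22) (nat_lit 268472436),
  Rx.mk (nat_lit 344) (nat_lit 0) (nat_lit 3) (nat_lit 5) (nat_lit 6) (nat_lit 71) (nat_lit 66) r3_71 r4_66 (nat_lit 23607) (nat_lit 0) (nat_lit 0) (nat_lit 0x210f104d6) (nat_lit 251131913),
  Rx.mk (nat_lit 346) (nat_lit 2) (nat_lit 3) (nat_lit 5) (nat_lit 7) (nat_lit 73) (nat_lit 67) r3_73 r4_67 (nat_lit 0) (nat_lit 0) (nat_lit 0) (nat_lit 0x20a4ce8e8) (nat_lit 257901506)]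
noncomputable def e3_10 : List Rx := [
  Rx.mk (nat_lit 280) (nat_lit 0) (nat_lit 3) (nat_lit 4) (nat_lit 2) (nat_lit 74) (nat_lit 12) r3_74 r6_12 (nat_lit 663) (nat_lit 0) (nat_lit 488) (nat_lit 0x1fffeebde) (nat_lit 268441307),
  Rx.mk (nat_lit 282) (nat_lit 2) (nat_lit 3) (nat_lit 4) (nat_lit 3) (nat_lit 77) (nat_lit 18) r3_77 r6_18 (nat_lit 0) (nat_lit 0) (nat_lit 35776) (nat_lit 0x200c86f04) (nat_lit 267688682),
  Rx.mk (nat_lit 283) (nat_lit 3) (nat_lit 3) (nat_lit 4) (nat_lit 3) (nat_lit 81) (nat_lit 14) r3_81 r6_14 (nat_lit 0) (nat_lit 0) (nat_lit 102676) (nat_lit 0x1ff4ce4f2) (nat_lit 269322382),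
  Rx.mk (nat_lit 315) (nat_lit 3) (nat_lit 7) (nat_lit 4) (nat_lit 3) (nat_lit 79) (nat_lit 15) r3_79 r6_15 (nat_lit 0) (nat_lit 0) (nat_lit 42529) (nat_lit 0x20054727a) (nat_lit 268160185),
  Rx.mk (nat_lit 443) (nat_lit 3) (nat_lit 7) (nat_lit 6) (nat_lit 7) (nat_lit 80) (nat_lit 16) r3_80 r6_16 (nat_lit 0) (nat_lit 0) (nat_lit 0) (nat_lit 0x1feaffbc4) (nat_lit 269987556),
  Rx.mk (nat_lit 450) (nat_lit 2) (nat_lit 0) (nat_lit 7) (nat_lit 5) (nat_lit 76) (nat_lit 17) r3_76 r6_17 (nat_lit 0) (nat_lit 48302) (nat_lit 0) (nat_lit 0x1fe7cb0de) (nat_lit 270097708),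
  Rx.mk (nat_lit 472) (nat_lit 0) (nat_lit 3) (nat_lit 7) (nat_lit 6) (nat_lit 75) (nat_lit 13) r3_75 r6_13 (nat_lit 425539) (nat_lit 0) (nat_lit 0) (nat_lit 0x1f9642abe) (nat_lit 275966895),
  Rx.mk (nat_lit 474) (nat_lit 2) (nat_lit 3) (nat_lit 7) (nat_lit 7) (nat_lit 78) (nat_lit 19) r3_78 r6_19 (nat_lit 0) (nat_lit 0) (nat_lit 0) (nat_lit 0x232241a80) (nat_lit 217286506)]
noncomputable def e3_11 : List Rx := [
  Rx.mk (nat_lit 258) (nat_lit 2) (nat_lit 0) (nat_lit 4) (nat_lit 1) (nat_lit 84) (nat_lit 52) r3_84 r5_52 (nat_lit 0) (nat_lit 453) (nat_lit 258) (nat_lit 0x2026c85fc) (nat_lit 265956667),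
  Rx.mk (nat_lit 280) (nat_lit 0) (nat_lit 3) (nat_lit 4) (nat_lit 2) (nat_lit 82) (nat_lit 55) r3_82 r5_55 (nat_lit 727) (nat_lit 0) (nat_lit 537) (nat_lit 0x1fffeb498) (nat_lit 268443170),
  Rx.mk (nat_lit 282) (nat_lit 2) (nat_lit 3) (nat_lit 4) (nat_lit 3) (nat_lit 87) (nat_lit 59) r3_87 r5_59 (nat_lit 0) (nat_lit 0) (nat_lit 100796) (nat_lit 0x2354a6494) (nat_lit 214054002),
  Rx.mk (nat_lit 283) (nat_lit 3) (nat_lit 3) (nat_lit 4) (nat_lit 3) (nat_lit 89) (nat_lit 57) r3_89 r5_57 (nat_lit 0) (nat_lit 0) (nat_lit 16821) (nat_lit 0x1fa9c646e) (nat_lit 274180777),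
  Rx.mk (nat_lit 322) (nat_lit 2) (nat_lit 0) (nat_lit 5) (nat_lit 5) (nat_lit 85) (nat_lit 53) r3_85 r5_53 (nat_lit 0) (nat_lit 2979975) (nat_lit 0) (nat_lit 0x213beb226) (nat_lit 251350281),
  Rx.mk (nat_lit 344) (nat_lit 0) (nat_lit 3) (nat_lit 5) (nat_lit 6) (nat_lit 83) (nat_lit 56) r3_83 r5_56 (nat_lit 1086599) (nat_lit 0) (nat_lit 0) (nat_lit 0x1fdbcccba) (nat_lit 272115455),
  Rx.mk (nat_lit 346) (nat_lit 2) (nat_lit 3) (nat_lit 5) (nat_lit 7) (nat_lit 88) (nat_lit 60) r3_88 r5_60 (nat_lit 0) (nat_lit 0) (nat_lit 0) (nat_lit 0x2902c0a5c) (nat_lit 121105656),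
  Rx.mk (nat_lit 347) (nat_lit 3) (nat_lit 3) (nat_lit 5) (nat_lit 7) (nat_lit 90) (nat_lit 58) r3_90 r5_58 (nat_lit 0) (nat_lit 0) (nat_lit 0) (nat_lit 0x1fe92629e) (nat_lit 270260906),
  Rx.mk (nat_lit 450) (nat_lit 2) (nat_lit 0) (nat_lit 7) (nat_lit 5) (nat_lit 86) (nat_lit 54) r3_86 r5_54 (nat_lit 0) (nat_lit 5945273) (nat_lit 0) (nat_lit 0x23166282c) (nat_lit 223904929)]
noncomputable def e3_12 : List Rx := [
  Rx.mk (nat_lit 22) (nat_lit 6) (nat_lit 2) (nat_lit 0) (nat_lit 3) (nat_lit 95) (nat_lit 48) r3_95 r0_48 (nat_lit 0) (nat_lit 0) (nat_lit 3060) (nat_lit 0x1ffe47150) (nat_lit 268554166),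
  Rx.mk (nat_lit 150) (nat_lit 6) (nat_lit 2) (nat_lit 2) (nat_lit 7) (nat_lit 96) (nat_lit 51) r3_96 r0_51 (nat_lit 0) (nat_lit 0) (nat_lit 0) (nat_lit 0x1f48084e8) (nat_lit 280847656),
  Rx.mk (nat_lit 180) (nat_lit 4) (nat_lit 6) (nat_lit 2) (nat_lit 6) (nat_lit 93) (nat_lit 49) r3_93 r0_49 (nat_lit 2053) (nat_lit 0) (nat_lit 0) (nat_lit 0x1fff1523a) (nat_lit 268499659),
  Rx.mk (nat_lit 182) (nat_lit 6) (nat_lit 6) (nat_lit 2) (nat_lit 7) (nat_lit 94) (nat_lit 50) r3_94 r0_50 (nat_lit 0) (nat_lit 0) (nat_lit 0) (nat_lit 0x2006da4f2) (nat_lit 268322256),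
  Rx.mk (nat_lit 420) (nat_lit 4) (nat_lit 4) (nat_lit 6) (nat_lit 4) (nat_lit 91) (nat_lit 43) r3_91 r0_43 (nat_lit 74) (nat_lit 237) (nat_lit 0) (nat_lit 0x2052170be) (nat_lit 263187217),
  Rx.mk (nat_lit 423) (nat_lit 7) (nat_lit 4) (nat_lit 6) (nat_lit 5) (nat_lit 97) (nat_lit 44) r3_97 r0_44 (nat_lit 0) (nat_lit 41515) (nat_lit 0) (nat_lit 0x1d3411838) (nat_lit 315993021),
  Rx.mk (nat_lit 436) (nat_lit 4) (nat_lit 6) (nat_lit 6) (nat_lit 6) (nat_lit 92) (nat_lit 46) r3_92 r0_46 (nat_lit 221533) (nat_lit 0) (nat_lit 0) (nat_lit 0x1f6467e9a) (nat_lit 279046389),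
  Rx.mk (nat_lit 439) (nat_lit 7) (nat_lit 6) (nat_lit 6) (nat_lit 7) (nat_lit 98) (nat_lit 47) r3_98 r0_47 (nat_lit 0) (nat_lit 0) (nat_lit 0) (nat_lit 0x20628cae8) (nat_lit 262391206),
  Rx.mk (nat_lit 447) (nat_lit 7) (nat_lit 7) (nat_lit 6) (nat_lit 7) (nat_lit 99) (nat_lit 45) r3_99 r0_45 (nat_lit 0) (nat_lit 0) (nat_lit 0) (nat_lit 0x1f5a47708) (nat_lit 279658856)]
noncomputable def e3_13 : List Rx := [
  Rx.mk (nat_lit 22) (nat_lit 6) (nat_lit 2) (nat_lit 0) (nat_lit 3) (nat_lit 102) (nat_lit 36) r3_102 r7_36 (nat_lit 0) (nat_lit 0) (nat_lit 49366) (nat_lit 0x211ea5928) (nat_lit 250177072),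
  Rx.mk (nat_lit 150) (nat_lit 6) (nat_lit 2) (nat_lit 2) (nat_lit 7) (nat_lit 103) (nat_lit 37) r3_103 r7_37 (nat_lit 0) (nat_lit 0) (nat_lit 0) (nat_lit 0x1f3ce36a8) (nat_lit 281613806),
  Rx.mk (nat_lit 180) (nat_lit 4) (nat_lit 6) (nat_lit 2) (nat_lit 6) (nat_lit 100) (nat_lit 35) r3_100 r7_35 (nat_lit 49366) (nat_lit 0) (nat_lit 0) (nat_lit 0x211ea5928) (nat_lit 250177072),
  Rx.mk (nat_lit 182) (nat_lit 6) (nat_lit 6) (nat_lit 2) (nat_lit 7) (nat_lit 101) (nat_lit 38) r3_101 r7_38 (nat_lit 0) (nat_lit 0) (nat_lit 0) (nat_lit 0x1f3ce36a8) (nat_lit 281613806)]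
noncomputable def e3_14 : List Rx := [
  Rx.mk (nat_lit 150) (nat_lit 6) (nat_lit 2) (nat_lit 2) (nat_lit 7) (nat_lit 111) (nat_lit 49) r3_111 r1_49 (nat_lit 0) (nat_lit 0) (nat_lit 0) (nat_lit 0x21883a01e) (nat_lit 243550156),
  Rx.mk (nat_lit 180) (nat_lit 4) (nat_lit 6) (nat_lit 2) (nat_lit 6) (nat_lit 106) (nat_lit 46) r3_106 r1_46 (nat_lit 12586) (nat_lit 0) (nat_lit 0) (nat_lit 0x1ff9824c6) (nat_lit 268882992),
  Rx.mk (nat_lit 181) (nat_lit 5) (nat_lit 6) (nat_lit 2) (nat_lit 7) (nat_lit 109) (nat_lit 47) r3_109 r1_47 (nat_lit 0) (nat_lit 0) (nat_lit 0) (nat_lit 0x24f03701a) (nat_lit 187761056),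
  Rx.mk (nat_lit 182) (nat_lit 6) (nat_lit 6) (nat_lit 2) (nat_lit 7) (nat_lit 110) (nat_lit 48) r3_110 r1_48 (nat_lit 0) (nat_lit 0) (nat_lit 0) (nat_lit 0x21621855c) (nat_lit 245991956),
  Rx.mk (nat_lit 420) (nat_lit 4) (nat_lit 4) (nat_lit 6) (nat_lit 4) (nat_lit 104) (nat_lit 39) r3_104 r1_39 (nat_lit 493) (nat_lit 1048) (nat_lit 0) (nat_lit 0x200087852) (nat_lit 268403547),
  Rx.mk (nat_lit 421) (nat_lit 5) (nat_lit 4) (nat_lit 6) (nat_lit 5) (nat_lit 107) (nat_lit 40) r3_107 r1_40 (nat_lit 0) (nat_lit 5364652) (nat_lit 0) (nat_lit 0x20197d988) (nat_lit 272405208),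
  Rx.mk (nat_lit 423) (nat_lit 7) (nat_lit 4) (nat_lit 6) (nat_lit 5) (nat_lit 112) (nat_lit 41) r3_112 r1_41 (nat_lit 0) (nat_lit 1588424) (nat_lit 0) (nat_lit 0x1ffa00bf0) (nat_lit 270650030),
  Rx.mk (nat_lit 436) (nat_lit 4) (nat_lit 6) (nat_lit 6) (nat_lit 6) (nat_lit 105) (nat_lit 43) r3_105 r1_43 (nat_lit 326961) (nat_lit 0) (nat_lit 0) (nat_lit 0x2101a3708) (nat_lit 252384517),
  Rx.mk (nat_lit 437) (nat_lit 5) (nat_lit 6) (nat_lit 6) (nat_lit 7) (nat_lit 108) (nat_lit 44) r3_108 r1_44 (nat_lit 0) (nat_lit 0) (nat_lit 0) (nat_lit 0x218acc7dc) (nat_lit 243368056),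
  Rx.mk (nat_lit 439) (nat_lit 7) (nat_lit 6) (nat_lit 6) (nat_lit 7) (nat_lit 113) (nat_lit 45) r3_113 r1_45 (nat_lit 0) (nat_lit 0) (nat_lit 0) (nat_lit 0x208dbc254) (nat_lit 259604756),
  Rx.mk (nat_lit 447) (nat_lit 7) (nat_lit 7) (nat_lit 6) (nat_lit 7) (nat_lit 114) (nat_lit 42) r3_114 r1_42 (nat_lit 0) (nat_lit 0) (nat_lit 0) (nat_lit 0x20853aa04) (nat_lit 260134406)]
noncomputable def e3_15 : List Rx := [
  Rx.mk (nat_lit 150) (nat_lit 6) (nat_lit 2) (nat_lit 2) (nat_lit 7) (nat_lit 118) (nat_lit 45) r3_118 r8_45 (nat_lit 0) (nat_lit 0) (nat_lit 0) (nat_lit 0x1fe3dbd02) (nat_lit 270617606),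
  Rx.mk (nat_lit 180) (nat_lit 4) (nat_lit 6) (nat_lit 2) (nat_lit 6) (nat_lit 115) (nat_lit 43) r3_115 r8_43 (nat_lit 242054) (nat_lit 0) (nat_lit 0) (nat_lit 0x2005aee2a) (nat_lit 268432060),
  Rx.mk (nat_lit 181) (nat_lit 5) (nat_lit 6) (nat_lit 2) (nat_lit 7) (nat_lit 116) (nat_lit 44) r3_116 r8_44 (nat_lit 0) (nat_lit 0) (nat_lit 0) (nat_lit 0x2160eb1e8) (nat_lit 246056756),
  Rx.mk (nat_lit 182) (nat_lit 6) (nat_lit 6) (nat_lit 2) (nat_lit 7) (nat_lit 117) (nat_lit 46) r3_117 r8_46 (nat_lit 0) (nat_lit 0) (nat_lit 0) (nat_lit 0x1fbb3e750) (nat_lit 273282006)]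
noncomputable def e3_16 : List Rx := [
  Rx.mk (nat_lit 22) (nat_lit 6) (nat_lit 2) (nat_lit 0) (nat_lit 3) (nat_lit 120) (nat_lit 43) r3_120 r8_43 (nat_lit 0) (nat_lit 0) (nat_lit 242054) (nat_lit 0x2005aee2a) (nat_lit 268432060),
  Rx.mk (nat_lit 86) (nat_lit 6) (nat_lit 2) (nat_lit 1) (nat_lit 7) (nat_lit 121) (nat_lit 44) r3_121 r8_44 (nat_lit 0) (nat_lit 0) (nat_lit 0) (nat_lit 0x2160eb1e8) (nat_lit 246056756),
  Rx.mk (nat_lit 150) (nat_lit 6) (nat_lit 2) (nat_lit 2) (nat_lit 7) (nat_lit 122) (nat_lit 46) r3_122 r8_46 (nat_lit 0) (nat_lit 0) (nat_lit 0) (nat_lit 0x1fbb3e750) (nat_lit 273282006),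
  Rx.mk (nat_lit 182) (nat_lit 6) (nat_lit 6) (nat_lit 2) (nat_lit 7) (nat_lit 119) (nat_lit 45) r3_119 r8_45 (nat_lit 0) (nat_lit 0) (nat_lit 0) (nat_lit 0x1fe3dbd02) (nat_lit 270617606)]
noncomputable def e3_17 : List Rx := [
  Rx.mk (nat_lit 86) (nat_lit 6) (nat_lit 2) (nat_lit 1) (nat_lit 7) (nat_lit 123) (nat_lit 14) r3_123 r9_14 (nat_lit 0) (nat_lit 0) (nat_lit 0) (nat_lit 0x205609bae) (nat_lit 263199206)]
noncomputable def e3_18 : List Rx := [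
  Rx.mk (nat_lit 22) (nat_lit 6) (nat_lit 2) (nat_lit 0) (nat_lit 3) (nat_lit 126) (nat_lit 34) r3_126 r4_34 (nat_lit 0) (nat_lit 0) (nat_lit 151800) (nat_lit 0x204bed6a2) (nat_lit 263787856),
  Rx.mk (nat_lit 150) (nat_lit 6) (nat_lit 2) (nat_lit 2) (nat_lit 7) (nat_lit 127) (nat_lit 39) r3_127 r4_39 (nat_lit 0) (nat_lit 0) (nat_lit 0) (nat_lit 0x201ac44a4) (nat_lit 267031306),
  Rx.mk (nat_lit 180) (nat_lit 4) (nat_lit 6) (nat_lit 2) (nat_lit 6) (nat_lit 124) (nat_lit 36) r3_124 r4_36 (nat_lit 119145) (nat_lit 0) (nat_lit 0) (nat_lit 0x21ea15248) (nat_lit 237264301),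
  Rx.mk (nat_lit 182) (nat_lit 6) (nat_lit 6) (nat_lit 2) (nat_lit 7) (nat_lit 125) (nat_lit 38) r3_125 r4_38 (nat_lit 0) (nat_lit 0) (nat_lit 0) (nat_lit 0x2057f959a) (nat_lit 263075056),
  Rx.mk (nat_lit 183) (nat_lit 7) (nat_lit 6) (nat_lit 2) (nat_lit 7) (nat_lit 131) (nat_lit 37) r3_131 r4_37 (nat_lit 0) (nat_lit 0) (nat_lit 0) (nat_lit 0x2266fa790) (nat_lit 229274756),
  Rx.mk (nat_lit 214) (nat_lit 6) (nat_lit 2) (nat_lit 3) (nat_lit 7) (nat_lit 128) (nat_lit 35) r3_128 r4_35 (nat_lit 0) (nat_lit 0) (nat_lit 0) (nat_lit 0x204c425b2) (nat_lit 263570306),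
  Rx.mk (nat_lit 423) (nat_lit 7) (nat_lit 4) (nat_lit 6) (nat_lit 5) (nat_lit 129) (nat_lit 31) r3_129 r4_31 (nat_lit 0) (nat_lit 3923) (nat_lit 0) (nat_lit 0x1fffa06be) (nat_lit 268464529),
  Rx.mk (nat_lit 439) (nat_lit 7) (nat_lit 6) (nat_lit 6) (nat_lit 7) (nat_lit 130) (nat_lit 33) r3_130 r4_33 (nat_lit 0) (nat_lit 0) (nat_lit 0) (nat_lit 0x21acbc90a) (nat_lit 241200006),
  Rx.mk (nat_lit 447) (nat_lit 7) (nat_lit 7) (nat_lit 6) (nat_lit 7) (nat_lit 132) (nat_lit 32) r3_132 r4_32 (nat_lit 0) (nat_lit 0) (nat_lit 0) (nat_lit 0x1f5ce7486) (nat_lit 279471956)]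
noncomputable def e3_19 : List Rx := [
  Rx.mk (nat_lit 22) (nat_lit 6) (nat_lit 2) (nat_lit 0) (nat_lit 3) (nat_lit 135) (nat_lit 19) r3_135 r10_19 (nat_lit 0) (nat_lit 0) (nat_lit 70860) (nat_lit 0x21d0e264a) (nat_lit 238809516),
  Rx.mk (nat_lit 150) (nat_lit 6) (nat_lit 2) (nat_lit 2) (nat_lit 7) (nat_lit 136) (nat_lit 21) r3_136 r10_21 (nat_lit 0) (nat_lit 0) (nat_lit 0) (nat_lit 0x1ff97e1a0) (nat_lit 269209706),
  Rx.mk (nat_lit 180) (nat_lit 4) (nat_lit 6) (nat_lit 2) (nat_lit 6) (nat_lit 133) (nat_lit 17) r3_133 r10_17 (nat_lit 70860) (nat_lit 0) (nat_lit 0) (nat_lit 0x21d0e264a) (nat_lit 238809516),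
  Rx.mk (nat_lit 182) (nat_lit 6) (nat_lit 6) (nat_lit 2) (nat_lit 7) (nat_lit 134) (nat_lit 22) r3_134 r10_22 (nat_lit 0) (nat_lit 0) (nat_lit 0) (nat_lit 0x1ff97e1a0) (nat_lit 269209706),
  Rx.mk (nat_lit 183) (nat_lit 7) (nat_lit 6) (nat_lit 2) (nat_lit 7) (nat_lit 138) (nat_lit 18) r3_138 r10_18 (nat_lit 0) (nat_lit 0) (nat_lit 0) (nat_lit 0x254a47384) (nat_lit 182008906),
  Rx.mk (nat_lit 214) (nat_lit 6) (nat_lit 2) (nat_lit 3) (nat_lit 7) (nat_lit 137) (nat_lit 20) r3_137 r10_20 (nat_lit 0) (nat_lit 0) (nat_lit 0) (nat_lit 0x254a47384) (nat_lit 182008906)]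
noncomputable def e3_20 : List Rx := [
  Rx.mk (nat_lit 214) (nat_lit 6) (nat_lit 2) (nat_lit 3) (nat_lit 7) (nat_lit 139) (nat_lit 7) r3_139 r11_7 (nat_lit 0) (nat_lit 0) (nat_lit 0) (nat_lit 0x2467fe22a) (nat_lit 196369006),
  Rx.mk (nat_lit 447) (nat_lit 7) (nat_lit 7) (nat_lit 6) (nat_lit 7) (nat_lit 140) (nat_lit 6) r3_140 r11_6 (nat_lit 0) (nat_lit 0) (nat_lit 0) (nat_lit 0x2267c3c08) (nat_lit 229181406)]
noncomputable def e3_21 : List Rx := [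
  Rx.mk (nat_lit 66) (nat_lit 2) (nat_lit 0) (nat_lit 1) (nat_lit 5) (nat_lit 142) (nat_lit 19) r3_142 r9_19 (nat_lit 0) (nat_lit 777722) (nat_lit 0) (nat_lit 0x1c4edec84) (nat_lit 332046128),
  Rx.mk (nat_lit 74) (nat_lit 2) (nat_lit 1) (nat_lit 1) (nat_lit 7) (nat_lit 143) (nat_lit 20) r3_143 r9_20 (nat_lit 0) (nat_lit 0) (nat_lit 0) (nat_lit 0x202fa9554) (nat_lit 265684056),
  Rx.mk (nat_lit 82) (nat_lit 2) (nat_lit 2) (nat_lit 1) (nat_lit 7) (nat_lit 144) (nat_lit 22) r3_144 r9_22 (nat_lit 0) (nat_lit 0) (nat_lit 0) (nat_lit 0x1fa1e6820) (nat_lit 274939556),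
  Rx.mk (nat_lit 86) (nat_lit 6) (nat_lit 2) (nat_lit 1) (nat_lit 7) (nat_lit 141) (nat_lit 21) r3_141 r9_21 (nat_lit 0) (nat_lit 0) (nat_lit 0) (nat_lit 0x1fc36627a) (nat_lit 272747356)]
noncomputable def e3_22 : List Rx := [
  Rx.mk (nat_lit 264) (nat_lit 0) (nat_lit 1) (nat_lit 4) (nat_lit 2) (nat_lit 146) (nat_lit 300) r3_146 r0_300 (nat_lit 142) (nat_lit 0) (nat_lit 304) (nat_lit 0x20000c530) (nat_lit 268432952),
  Rx.mk (nat_lit 266) (nat_lit 2) (nat_lit 1) (nat_lit 4) (nat_lit 3) (nat_lit 149) (nat_lit 301) r3_149 r0_301 (nat_lit 0) (nat_lit 0) (nat_lit 44942) (nat_lit 0x1f4ac648c) (nat_lit 280510798),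
  Rx.mk (nat_lit 320) (nat_lit 0) (nat_lit 0) (nat_lit 5) (nat_lit 4) (nat_lit 145) (nat_lit 302) r3_145 r0_302 (nat_lit 825) (nat_lit 404) (nat_lit 0) (nat_lit 0x1e41714e6) (nat_lit 298072835),
  Rx.mk (nat_lit 322) (nat_lit 2) (nat_lit 0) (nat_lit 5) (nat_lit 5) (nat_lit 148) (nat_lit 304) r3_148 r0_304 (nat_lit 0) (nat_lit 655885) (nat_lit 0) (nat_lit 0x1e5b1fe06) (nat_lit 297129541),
  Rx.mk (nat_lit 328) (nat_lit 0) (nat_lit 1) (nat_lit 5) (nat_lit 6) (nat_lit 147) (nat_lit 303) r3_147 r0_303 (nat_lit 490321) (nat_lit 0) (nat_lit 0) (nat_lit 0x1f1f55190) (nat_lit 283872577),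
  Rx.mk (nat_lit 330) (nat_lit 2) (nat_lit 1) (nat_lit 5) (nat_lit 7) (nat_lit 150) (nat_lit 305) r3_150 r0_305 (nat_lit 0) (nat_lit 0) (nat_lit 0) (nat_lit 0x21de14764) (nat_lit 238010106)]
noncomputable def e3_23 : List Rx := [
  Rx.mk (nat_lit 264) (nat_lit 0) (nat_lit 1) (nat_lit 4) (nat_lit 2) (nat_lit 151) (nat_lit 293) r3_151 r1_293 (nat_lit 2560) (nat_lit 0) (nat_lit 1558) (nat_lit 0x200147198) (nat_lit 268358724),
  Rx.mk (nat_lit 266) (nat_lit 2) (nat_lit 1) (nat_lit 4) (nat_lit 3) (nat_lit 153) (nat_lit 294) r3_153 r1_294 (nat_lit 0) (nat_lit 0) (nat_lit 1729121) (nat_lit 0x20953dff0) (nat_lit 260719377),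
  Rx.mk (nat_lit 328) (nat_lit 0) (nat_lit 1) (nat_lit 5) (nat_lit 6) (nat_lit 152) (nat_lit 295) r3_152 r1_295 (nat_lit 12803) (nat_lit 0) (nat_lit 0) (nat_lit 0x1fed03baa) (nat_lit 269710059),
  Rx.mk (nat_lit 330) (nat_lit 2) (nat_lit 1) (nat_lit 5) (nat_lit 7) (nat_lit 154) (nat_lit 296) r3_154 r1_296 (nat_lit 0) (nat_lit 0) (nat_lit 0) (nat_lit 0x244dbdaf0) (nat_lit 198128006)]
noncomputable def e3_24 : List Rx := [
  Rx.mk (nat_lit 256) (nat_lit 0) (nat_lit 0) (nat_lit 4) (nat_lit 0) (nat_lit 155) (nat_lit 315) r3_155 r4_315 (nat_lit 409) (nat_lit 263) (nat_lit 362) (nat_lit 0x1c9af6bc6) (nat_lit 326110640),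
  Rx.mk (nat_lit 258) (nat_lit 2) (nat_lit 0) (nat_lit 4) (nat_lit 1) (nat_lit 161) (nat_lit 318) r3_161 r4_318 (nat_lit 0) (nat_lit 55469) (nat_lit 74883) (nat_lit 0x20163f12c) (nat_lit 267168208),
  Rx.mk (nat_lit 264) (nat_lit 0) (nat_lit 1) (nat_lit 4) (nat_lit 2) (nat_lit 157) (nat_lit 316) r3_157 r4_316 (nat_lit 3231) (nat_lit 0) (nat_lit 31092297) (nat_lit 0x1ffe32372) (nat_lit 299651134),
  Rx.mk (nat_lit 266) (nat_lit 2) (nat_lit 1) (nat_lit 4) (nat_lit 3) (nat_lit 163) (nat_lit 319) r3_163 r4_319 (nat_lit 0) (nat_lit 0) (nat_lit 3290439) (nat_lit 0x20e059a16) (nat_lit 257589895),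
  Rx.mk (nat_lit 280) (nat_lit 0) (nat_lit 3) (nat_lit 4) (nat_lit 2) (nat_lit 159) (nat_lit 317) r3_159 r4_317 (nat_lit 39310829) (nat_lit 0) (nat_lit 4117) (nat_lit 0x1ffea47ba) (nat_lit 307841702),
  Rx.mk (nat_lit 282) (nat_lit 2) (nat_lit 3) (nat_lit 4) (nat_lit 3) (nat_lit 165) (nat_lit 320) r3_165 r4_320 (nat_lit 0) (nat_lit 0) (nat_lit 3023494) (nat_lit 0x216d1c69c) (nat_lit 248304500),
  Rx.mk (nat_lit 320) (nat_lit 0) (nat_lit 0) (nat_lit 5) (nat_lit 4) (nat_lit 156) (nat_lit 321) r3_156 r4_321 (nat_lit 35577) (nat_lit 28204) (nat_lit 0) (nat_lit 0x1ffd88a16) (nat_lit 268676087),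
  Rx.mk (nat_lit 322) (nat_lit 2) (nat_lit 0) (nat_lit 5) (nat_lit 5) (nat_lit 162) (nat_lit 324) r3_162 r4_324 (nat_lit 0) (nat_lit 842510) (nat_lit 0) (nat_lit 0x23ced7cd6) (nat_lit 207079016),
  Rx.mk (nat_lit 328) (nat_lit 0) (nat_lit 1) (nat_lit 5) (nat_lit 6) (nat_lit 158) (nat_lit 322) r3_158 r4_322 (nat_lit 2069679) (nat_lit 0) (nat_lit 0) (nat_lit 0x21a292a24) (nat_lit 243859685),
  Rx.mk (nat_lit 330) (nat_lit 2) (nat_lit 1) (nat_lit 5) (nat_lit 7) (nat_lit 164) (nat_lit 325) r3_164 r4_325 (nat_lit 0) (nat_lit 0) (nat_lit 0) (nat_lit 0x23a814e14) (nat_lit 208756906),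
  Rx.mk (nat_lit 344) (nat_lit 0) (nat_lit 3) (nat_lit 5) (nat_lit 6) (nat_lit 160) (nat_lit 323) r3_160 r4_323 (nat_lit 37160743) (nat_lit 0) (nat_lit 0) (nat_lit 0x247de0c14) (nat_lit 232184949),
  Rx.mk (nat_lit 346) (nat_lit 2) (nat_lit 3) (nat_lit 5) (nat_lit 7) (nat_lit 166) (nat_lit 326) r3_166 r4_326 (nat_lit 0) (nat_lit 0) (nat_lit 0) (nat_lit 0x248dd9e36) (nat_lit 194063006)]
noncomputable def e3_25 : List Rx := [
  Rx.mk (nat_lit 320) (nat_lit 0) (nat_lit 0) (nat_lit 5) (nat_lit 4) (nat_lit 167) (nat_lit 52) r3_167 r7_52 (nat_lit 16392) (nat_lit 20207) (nat_lit 0) (nat_lit 0x1aff2b4f4) (nat_lit 353479305),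
  Rx.mk (nat_lit 322) (nat_lit 2) (nat_lit 0) (nat_lit 5) (nat_lit 5) (nat_lit 169) (nat_lit 53) r3_169 r7_53 (nat_lit 0) (nat_lit 47845) (nat_lit 0) (nat_lit 0x201156a48) (nat_lit 267395251),
  Rx.mk (nat_lit 328) (nat_lit 0) (nat_lit 1) (nat_lit 5) (nat_lit 6) (nat_lit 168) (nat_lit 54) r3_168 r7_54 (nat_lit 1511252) (nat_lit 0) (nat_lit 0) (nat_lit 0x1d22f5266) (nat_lit 318703058),
  Rx.mk (nat_lit 330) (nat_lit 2) (nat_lit 1) (nat_lit 5) (nat_lit 7) (nat_lit 170) (nat_lit 55) r3_170 r7_55 (nat_lit 0) (nat_lit 0) (nat_lit 0) (nat_lit 0x21af7b880) (nat_lit 241021756)]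
noncomputable def e3_26 : List Rx := [
  Rx.mk (nat_lit 328) (nat_lit 0) (nat_lit 1) (nat_lit 5) (nat_lit 6) (nat_lit 171) (nat_lit 61) r3_171 r8_61 (nat_lit 753298) (nat_lit 0) (nat_lit 0) (nat_lit 0x1dc14c75c) (nat_lit 307411954),
  Rx.mk (nat_lit 330) (nat_lit 2) (nat_lit 1) (nat_lit 5) (nat_lit 7) (nat_lit 172) (nat_lit 62) r3_172 r8_62 (nat_lit 0) (nat_lit 0) (nat_lit 0) (nat_lit 0x22d25d3a2) (nat_lit 222389256)]
noncomputable def e3_27 : List Rx := [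
  Rx.mk (nat_lit 66) (nat_lit 2) (nat_lit 0) (nat_lit 1) (nat_lit 5) (nat_lit 176) (nat_lit 331) r3_176 r8_331 (nat_lit 0) (nat_lit 2083584) (nat_lit 0) (nat_lit 0x1cd374fde) (nat_lit 324604590),
  Rx.mk (nat_lit 74) (nat_lit 2) (nat_lit 1) (nat_lit 1) (nat_lit 7) (nat_lit 178) (nat_lit 332) r3_178 r8_332 (nat_lit 0) (nat_lit 0) (nat_lit 0) (nat_lit 0x2039c7270) (nat_lit 265031006),
  Rx.mk (nat_lit 82) (nat_lit 2) (nat_lit 2) (nat_lit 1) (nat_lit 7) (nat_lit 179) (nat_lit 333) r3_179 r8_333 (nat_lit 0) (nat_lit 0) (nat_lit 0) (nat_lit 0x1f3fc097a) (nat_lit 281425406),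
  Rx.mk (nat_lit 320) (nat_lit 0) (nat_lit 0) (nat_lit 5) (nat_lit 4) (nat_lit 173) (nat_lit 334) r3_173 r8_334 (nat_lit 96896) (nat_lit 134030) (nat_lit 0) (nat_lit 0x19463edca) (nat_lit 382952982),
  Rx.mk (nat_lit 322) (nat_lit 2) (nat_lit 0) (nat_lit 5) (nat_lit 5) (nat_lit 175) (nat_lit 336) r3_175 r8_336 (nat_lit 0) (nat_lit 530915) (nat_lit 0) (nat_lit 0x1e3090140) (nat_lit 299805471),
  Rx.mk (nat_lit 328) (nat_lit 0) (nat_lit 1) (nat_lit 5) (nat_lit 6) (nat_lit 174) (nat_lit 335) r3_174 r8_335 (nat_lit 4930844) (nat_lit 0) (nat_lit 0) (nat_lit 0x1cb21f67c) (nat_lit 329672900),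
  Rx.mk (nat_lit 330) (nat_lit 2) (nat_lit 1) (nat_lit 5) (nat_lit 7) (nat_lit 177) (nat_lit 337) r3_177 r8_337 (nat_lit 0) (nat_lit 0) (nat_lit 0) (nat_lit 0x205323fa2) (nat_lit 263389706)]
noncomputable def e3_28 : List Rx := [
  Rx.mk (nat_lit 320) (nat_lit 0) (nat_lit 0) (nat_lit 5) (nat_lit 4) (nat_lit 180) (nat_lit 38) r3_180 r10_38 (nat_lit 22038) (nat_lit 28184) (nat_lit 0) (nat_lit 0x19f3c35a4) (nat_lit 371241528),
  Rx.mk (nat_lit 322) (nat_lit 2) (nat_lit 0) (nat_lit 5) (nat_lit 5) (nat_lit 183) (nat_lit 39) r3_183 r10_39 (nat_lit 0) (nat_lit 117878) (nat_lit 0) (nat_lit 0x21410723c) (nat_lit 248064234),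
  Rx.mk (nat_lit 328) (nat_lit 0) (nat_lit 1) (nat_lit 5) (nat_lit 6) (nat_lit 181) (nat_lit 40) r3_181 r10_40 (nat_lit 9858675) (nat_lit 0) (nat_lit 0) (nat_lit 0x1ee4c0a34) (nat_lit 297282781),
  Rx.mk (nat_lit 330) (nat_lit 2) (nat_lit 1) (nat_lit 5) (nat_lit 7) (nat_lit 184) (nat_lit 41) r3_184 r10_41 (nat_lit 0) (nat_lit 0) (nat_lit 0) (nat_lit 0x241a52c38) (nat_lit 201440206),
  Rx.mk (nat_lit 344) (nat_lit 0) (nat_lit 3) (nat_lit 5) (nat_lit 6) (nat_lit 182) (nat_lit 42) r3_182 r10_42 (nat_lit 10913577) (nat_lit 0) (nat_lit 0) (nat_lit 0x1f00f05c4) (nat_lit 296487483),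
  Rx.mk (nat_lit 346) (nat_lit 2) (nat_lit 3) (nat_lit 5) (nat_lit 7) (nat_lit 185) (nat_lit 43) r3_185 r10_43 (nat_lit 0) (nat_lit 0) (nat_lit 0) (nat_lit 0x24372f78e) (nat_lit 199595806)]
noncomputable def e3_29 : List Rx := [
  Rx.mk (nat_lit 256) (nat_lit 0) (nat_lit 0) (nat_lit 4) (nat_lit 0) (nat_lit 186) (nat_lit 19) r3_186 r11_19 (nat_lit 21776) (nat_lit 19540) (nat_lit 16498) (nat_lit 0x15a1593da) (nat_lit 444675570),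
  Rx.mk (nat_lit 258) (nat_lit 2) (nat_lit 0) (nat_lit 4) (nat_lit 1) (nat_lit 194) (nat_lit 22) r3_194 r11_22 (nat_lit 0) (nat_lit 710474) (nat_lit 570606) (nat_lit 0x1c08ee1b6) (nat_lit 337171136),
  Rx.mk (nat_lit 264) (nat_lit 0) (nat_lit 1) (nat_lit 4) (nat_lit 2) (nat_lit 189) (nat_lit 25) r3_189 r11_25 (nat_lit 250205) (nat_lit 0) (nat_lit 1269742) (nat_lit 0x1a19dc132) (nat_lit 370210353),
  Rx.mk (nat_lit 266) (nat_lit 2) (nat_lit 1) (nat_lit 4) (nat_lit 3) (nat_lit 197) (nat_lit 28) r3_197 r11_28 (nat_lit 0) (nat_lit 0) (nat_lit 4365675) (nat_lit 0x20361ffc8) (nat_lit 269616331),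
  Rx.mk (nat_lit 280) (nat_lit 0) (nat_lit 3) (nat_lit 4) (nat_lit 2) (nat_lit 192) (nat_lit 31) r3_192 r11_31 (nat_lit 43368381) (nat_lit 0) (nat_lit 156302) (nat_lit 0x1c6f86806) (nat_lit 372553839),
  Rx.mk (nat_lit 282) (nat_lit 2) (nat_lit 3) (nat_lit 4) (nat_lit 3) (nat_lit 200) (nat_lit 35) r3_200 r11_35 (nat_lit 0) (nat_lit 0) (nat_lit 4277638) (nat_lit 0x204b55974) (nat_lit 268164344),
  Rx.mk (nat_lit 283) (nat_lit 3) (nat_lit 3) (nat_lit 4) (nat_lit 3) (nat_lit 202) (nat_lit 33) r3_202 r11_33 (nat_lit 0) (nat_lit 0) (nat_lit 8204025) (nat_lit 0x1ed8f4ca0) (nat_lit 296428381),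
  Rx.mk (nat_lit 320) (nat_lit 0) (nat_lit 0) (nat_lit 5) (nat_lit 4) (nat_lit 187) (nat_lit 20) r3_187 r11_20 (nat_lit 5218947) (nat_lit 6719633) (nat_lit 0) (nat_lit 0x1c333195a) (nat_lit 345098436),
  Rx.mk (nat_lit 322) (nat_lit 2) (nat_lit 0) (nat_lit 5) (nat_lit 5) (nat_lit 195) (nat_lit 23) r3_195 r11_23 (nat_lit 0) (nat_lit 3207732) (nat_lit 0) (nat_lit 0x21c1d0184) (nat_lit 243063938),
  Rx.mk (nat_lit 328) (nat_lit 0) (nat_lit 1) (nat_lit 5) (nat_lit 6) (nat_lit 190) (nat_lit 26) r3_190 r11_26 (nat_lit 9484367) (nat_lit 0) (nat_lit 0) (nat_lit 0x201d9700a) (nat_lit 276346873),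
  Rx.mk (nat_lit 330) (nat_lit 2) (nat_lit 1) (nat_lit 5) (nat_lit 7) (nat_lit 198) (nat_lit 29) r3_198 r11_29 (nat_lit 0) (nat_lit 0) (nat_lit 0) (nat_lit 0x205d35dec) (nat_lit 262741806),
  Rx.mk (nat_lit 344) (nat_lit 0) (nat_lit 3) (nat_lit 5) (nat_lit 6) (nat_lit 193) (nat_lit 32) r3_193 r11_32 (nat_lit 9484367) (nat_lit 0) (nat_lit 0) (nat_lit 0x201ffaca2) (nat_lit 276191123),
  Rx.mk (nat_lit 346) (nat_lit 2) (nat_lit 3) (nat_lit 5) (nat_lit 7) (nat_lit 201) (nat_lit 36) r3_201 r11_36 (nat_lit 0) (nat_lit 0) (nat_lit 0) (nat_lit 0x205d33e3e) (nat_lit 262742306),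
  Rx.mk (nat_lit 347) (nat_lit 3) (nat_lit 3) (nat_lit 5) (nat_lit 7) (nat_lit 203) (nat_lit 34) r3_203 r11_34 (nat_lit 0) (nat_lit 0) (nat_lit 0) (nat_lit 0x20056d4f2) (nat_lit 268435456),
  Rx.mk (nat_lit 448) (nat_lit 0) (nat_lit 0) (nat_lit 7) (nat_lit 4) (nat_lit 188) (nat_lit 21) r3_188 r11_21 (nat_lit 13879051) (nat_lit 7547956) (nat_lit 0) (nat_lit 0x1da71f780) (nat_lit 329919513),
  Rx.mk (nat_lit 450) (nat_lit 2) (nat_lit 0) (nat_lit 7) (nat_lit 5) (nat_lit 196) (nat_lit 24) r3_196 r11_24 (nat_lit 0) (nat_lit 2066248) (nat_lit 0) (nat_lit 0x1f52a93c0) (nat_lit 282195504),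
  Rx.mk (nat_lit 456) (nat_lit 0) (nat_lit 1) (nat_lit 7) (nat_lit 6) (nat_lit 191) (nat_lit 27) r3_191 r11_27 (nat_lit 8742655) (nat_lit 0) (nat_lit 0) (nat_lit 0x1ffa842fc) (nat_lit 277882861),
  Rx.mk (nat_lit 458) (nat_lit 2) (nat_lit 1) (nat_lit 7) (nat_lit 7) (nat_lit 199) (nat_lit 30) r3_199 r11_30 (nat_lit 0) (nat_lit 0) (nat_lit 0) (nat_lit 0x20713488e) (nat_lit 261452506)]
noncomputable def e3_30 : List Rx := [
  Rx.mk (nat_lit 183) (nat_lit 7) (nat_lit 6) (nat_lit 2) (nat_lit 7) (nat_lit 206) (nat_lit 26) r3_206 r5_26 (nat_lit 0) (nat_lit 0) (nat_lit 0) (nat_lit 0x2138cf966) (nat_lit 248572906),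
  Rx.mk (nat_lit 218) (nat_lit 2) (nat_lit 3) (nat_lit 3) (nat_lit 7) (nat_lit 210) (nat_lit 25) r3_210 r5_25 (nat_lit 0) (nat_lit 0) (nat_lit 0) (nat_lit 0x1e999e650) (nat_lit 292310856),
  Rx.mk (nat_lit 315) (nat_lit 3) (nat_lit 7) (nat_lit 4) (nat_lit 3) (nat_lit 212) (nat_lit 16) r3_212 r5_16 (nat_lit 0) (nat_lit 0) (nat_lit 7113) (nat_lit 0x1eab7e4d8) (nat_lit 291042819),
  Rx.mk (nat_lit 419) (nat_lit 3) (nat_lit 4) (nat_lit 6) (nat_lit 5) (nat_lit 211) (nat_lit 22) r3_211 r5_22 (nat_lit 0) (nat_lit 28683) (nat_lit 0) (nat_lit 0x1e4abb916) (nat_lit 297488589),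
  Rx.mk (nat_lit 423) (nat_lit 7) (nat_lit 4) (nat_lit 6) (nat_lit 5) (nat_lit 204) (nat_lit 21) r3_204 r5_21 (nat_lit 0) (nat_lit 1687) (nat_lit 0) (nat_lit 0x2008240a6) (nat_lit 267916793),
  Rx.mk (nat_lit 439) (nat_lit 7) (nat_lit 6) (nat_lit 6) (nat_lit 7) (nat_lit 205) (nat_lit 24) r3_205 r5_24 (nat_lit 0) (nat_lit 0) (nat_lit 0) (nat_lit 0x1f67f1bd8) (nat_lit 278752756),
  Rx.mk (nat_lit 443) (nat_lit 3) (nat_lit 7) (nat_lit 6) (nat_lit 7) (nat_lit 213) (nat_lit 23) r3_213 r5_23 (nat_lit 0) (nat_lit 0) (nat_lit 0) (nat_lit 0x23b717e98) (nat_lit 207752956),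
  Rx.mk (nat_lit 472) (nat_lit 0) (nat_lit 3) (nat_lit 7) (nat_lit 6) (nat_lit 208) (nat_lit 19) r3_208 r5_19 (nat_lit 457992) (nat_lit 0) (nat_lit 0) (nat_lit 0x1e69bb6fe) (nat_lit 295933898),
  Rx.mk (nat_lit 474) (nat_lit 2) (nat_lit 3) (nat_lit 7) (nat_lit 7) (nat_lit 209) (nat_lit 20) r3_209 r5_20 (nat_lit 0) (nat_lit 0) (nat_lit 0) (nat_lit 0x2388b5c58) (nat_lit 210709306),
  Rx.mk (nat_lit 504) (nat_lit 0) (nat_lit 7) (nat_lit 7) (nat_lit 6) (nat_lit 207) (nat_lit 17) r3_207 r5_17 (nat_lit 3677) (nat_lit 0) (nat_lit 0) (nat_lit 0x1dae134ce) (nat_lit 307856233),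
  Rx.mk (nat_lit 507) (nat_lit 3) (nat_lit 7) (nat_lit 7) (nat_lit 7) (nat_lit 214) (nat_lit 18) r3_214 r5_18 (nat_lit 0) (nat_lit 0) (nat_lit 0) (nat_lit 0x1f4f76ad6) (nat_lit 280383406)]
noncomputable def e3_31 : List Rx := [
  Rx.mk (nat_lit 183) (nat_lit 7) (nat_lit 6) (nat_lit 2) (nat_lit 7) (nat_lit 215) (nat_lit 7) r3_215 r11_7 (nat_lit 0) (nat_lit 0) (nat_lit 0) (nat_lit 0x2467fe22a) (nat_lit 196369006),
  Rx.mk (nat_lit 218) (nat_lit 2) (nat_lit 3) (nat_lit 3) (nat_lit 7) (nat_lit 216) (nat_lit 6) r3_216 r11_6 (nat_lit 0) (nat_lit 0) (nat_lit 0) (nat_lit 0x2267c3c08) (nat_lit 229181406)]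
noncomputable def e3_32 : List Rx := [
  Rx.mk (nat_lit 280) (nat_lit 0) (nat_lit 3) (nat_lit 4) (nat_lit 2) (nat_lit 219) (nat_lit 323) r3_219 r6_323 (nat_lit 1498) (nat_lit 0) (nat_lit 1239) (nat_lit 0x1fffe6984) (nat_lit 268445493),
  Rx.mk (nat_lit 282) (nat_lit 2) (nat_lit 3) (nat_lit 4) (nat_lit 3) (nat_lit 220) (nat_lit 325) r3_220 r6_325 (nat_lit 0) (nat_lit 0) (nat_lit 7726) (nat_lit 0x1fff388e8) (nat_lit 268499082),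
  Rx.mk (nat_lit 312) (nat_lit 0) (nat_lit 7) (nat_lit 4) (nat_lit 2) (nat_lit 217) (nat_lit 322) r3_217 r6_322 (nat_lit 1239) (nat_lit 0) (nat_lit 1498) (nat_lit 0x1fffe6984) (nat_lit 268445493),
  Rx.mk (nat_lit 440) (nat_lit 0) (nat_lit 7) (nat_lit 6) (nat_lit 6) (nat_lit 218) (nat_lit 324) r3_218 r6_324 (nat_lit 7726) (nat_lit 0) (nat_lit 0) (nat_lit 0x1fff388e8) (nat_lit 268499082)]
noncomputable def e3_33 : List Rx := [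
  Rx.mk (nat_lit 280) (nat_lit 0) (nat_lit 3) (nat_lit 4) (nat_lit 2) (nat_lit 221) (nat_lit 293) r3_221 r5_293 (nat_lit 480) (nat_lit 0) (nat_lit 551) (nat_lit 0x205037c80) (nat_lit 263307737),
  Rx.mk (nat_lit 282) (nat_lit 2) (nat_lit 3) (nat_lit 4) (nat_lit 3) (nat_lit 223) (nat_lit 294) r3_223 r5_294 (nat_lit 0) (nat_lit 0) (nat_lit 106368) (nat_lit 0x205fe2c8e) (nat_lit 262446824),
  Rx.mk (nat_lit 344) (nat_lit 0) (nat_lit 3) (nat_lit 5) (nat_lit 6) (nat_lit 222) (nat_lit 295) r3_222 r5_295 (nat_lit 72650) (nat_lit 0) (nat_lit 0) (nat_lit 0x204a14f1a) (nat_lit 263776356),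
  Rx.mk (nat_lit 346) (nat_lit 2) (nat_lit 3) (nat_lit 5) (nat_lit 7) (nat_lit 224) (nat_lit 296) r3_224 r5_296 (nat_lit 0) (nat_lit 0) (nat_lit 0) (nat_lit 0x2734b9196) (nat_lit 150645606)]
noncomputable def e3_34 : List Rx := [
  Rx.mk (nat_lit 344) (nat_lit 0) (nat_lit 3) (nat_lit 5) (nat_lit 6) (nat_lit 225) (nat_lit 351) r3_225 r11_351 (nat_lit 6315329) (nat_lit 0) (nat_lit 0) (nat_lit 0x1f8574296) (nat_lit 282941035),
  Rx.mk (nat_lit 346) (nat_lit 2) (nat_lit 3) (nat_lit 5) (nat_lit 7) (nat_lit 226) (nat_lit 352) r3_226 r11_352 (nat_lit 0) (nat_lit 0) (nat_lit 0) (nat_lit 0x246040fec) (nat_lit 196834556)]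
noncomputable def e3_35 : List Rx := [
  Rx.mk (nat_lit 312) (nat_lit 0) (nat_lit 7) (nat_lit 4) (nat_lit 2) (nat_lit 227) (nat_lit 44) r3_227 r6_44 (nat_lit 488) (nat_lit 0) (nat_lit 663) (nat_lit 0x1fffeebde) (nat_lit 268441307),
  Rx.mk (nat_lit 315) (nat_lit 3) (nat_lit 7) (nat_lit 4) (nat_lit 3) (nat_lit 233) (nat_lit 45) r3_233 r6_45 (nat_lit 0) (nat_lit 0) (nat_lit 425539) (nat_lit 0x1f9642abe) (nat_lit 275966895),
  Rx.mk (nat_lit 419) (nat_lit 3) (nat_lit 4) (nat_lit 6) (nat_lit 5) (nat_lit 232) (nat_lit 43) r3_232 r6_43 (nat_lit 0) (nat_lit 48302) (nat_lit 0) (nat_lit 0x1fe7cb0de) (nat_lit 270097708),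
  Rx.mk (nat_lit 440) (nat_lit 0) (nat_lit 7) (nat_lit 6) (nat_lit 6) (nat_lit 228) (nat_lit 47) r3_228 r6_47 (nat_lit 35776) (nat_lit 0) (nat_lit 0) (nat_lit 0x200c86f04) (nat_lit 267688682),
  Rx.mk (nat_lit 443) (nat_lit 3) (nat_lit 7) (nat_lit 6) (nat_lit 7) (nat_lit 234) (nat_lit 48) r3_234 r6_48 (nat_lit 0) (nat_lit 0) (nat_lit 0) (nat_lit 0x232241a80) (nat_lit 217286506),
  Rx.mk (nat_lit 472) (nat_lit 0) (nat_lit 3) (nat_lit 7) (nat_lit 6) (nat_lit 230) (nat_lit 41) r3_230 r6_41 (nat_lit 42529) (nat_lit 0) (nat_lit 0) (nat_lit 0x20054727a) (nat_lit 268160185),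
  Rx.mk (nat_lit 474) (nat_lit 2) (nat_lit 3) (nat_lit 7) (nat_lit 7) (nat_lit 231) (nat_lit 42) r3_231 r6_42 (nat_lit 0) (nat_lit 0) (nat_lit 0) (nat_lit 0x1feaffbc4) (nat_lit 269987556),
  Rx.mk (nat_lit 504) (nat_lit 0) (nat_lit 7) (nat_lit 7) (nat_lit 6) (nat_lit 229) (nat_lit 46) r3_229 r6_46 (nat_lit 102676) (nat_lit 0) (nat_lit 0) (nat_lit 0x1ff4ce4f2) (nat_lit 269322382)]
noncomputable def e3_36 : List Rx := [
  Rx.mk (nat_lit 280) (nat_lit 0) (nat_lit 3) (nat_lit 4) (nat_lit 2) (nat_lit 237) (nat_lit 14) r3_237 r12_14 (nat_lit 558) (nat_lit 0) (nat_lit 467) (nat_lit 0x1ffff3f58) (nat_lit 268439781),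
  Rx.mk (nat_lit 282) (nat_lit 2) (nat_lit 3) (nat_lit 4) (nat_lit 3) (nat_lit 239) (nat_lit 20) r3_239 r12_20 (nat_lit 0) (nat_lit 0) (nat_lit 8976) (nat_lit 0x2001493f8) (nat_lit 268367282),
  Rx.mk (nat_lit 312) (nat_lit 0) (nat_lit 7) (nat_lit 4) (nat_lit 2) (nat_lit 235) (nat_lit 16) r3_235 r12_16 (nat_lit 467) (nat_lit 0) (nat_lit 558) (nat_lit 0x1ffff3f58) (nat_lit 268439781),
  Rx.mk (nat_lit 315) (nat_lit 3) (nat_lit 7) (nat_lit 4) (nat_lit 3) (nat_lit 241) (nat_lit 18) r3_241 r12_18 (nat_lit 0) (nat_lit 0) (nat_lit 28803) (nat_lit 0x1fcdaf02e) (nat_lit 271810059),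
  Rx.mk (nat_lit 440) (nat_lit 0) (nat_lit 7) (nat_lit 6) (nat_lit 6) (nat_lit 236) (nat_lit 17) r3_236 r12_17 (nat_lit 8976) (nat_lit 0) (nat_lit 0) (nat_lit 0x2001493f8) (nat_lit 268367282),
  Rx.mk (nat_lit 443) (nat_lit 3) (nat_lit 7) (nat_lit 6) (nat_lit 7) (nat_lit 242) (nat_lit 19) r3_242 r12_19 (nat_lit 0) (nat_lit 0) (nat_lit 0) (nat_lit 0x207c16bee) (nat_lit 260594856),
  Rx.mk (nat_lit 472) (nat_lit 0) (nat_lit 3) (nat_lit 7) (nat_lit 6) (nat_lit 238) (nat_lit 15) r3_238 r12_15 (nat_lit 28803) (nat_lit 0) (nat_lit 0) (nat_lit 0x1fcdaf02e) (nat_lit 271810059),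
  Rx.mk (nat_lit 474) (nat_lit 2) (nat_lit 3) (nat_lit 7) (nat_lit 7) (nat_lit 240) (nat_lit 21) r3_240 r12_21 (nat_lit 0) (nat_lit 0) (nat_lit 0) (nat_lit 0x207c16bee) (nat_lit 260594856)]
noncomputable def e3_37 : List Rx := [
  Rx.mk (nat_lit 289) (nat_lit 1) (nat_lit 4) (nat_lit 4) (nat_lit 1) (nat_lit 245) (nat_lit 302) r3_245 r0_302 (nat_lit 0) (nat_lit 404) (nat_lit 825) (nat_lit 0x1e41714e6) (nat_lit 298072835),
  Rx.mk (nat_lit 296) (nat_lit 0) (nat_lit 5) (nat_lit 4) (nat_lit 2) (nat_lit 243) (nat_lit 300) r3_243 r0_300 (nat_lit 304) (nat_lit 0) (nat_lit 142) (nat_lit 0x20000c530) (nat_lit 268432952),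
  Rx.mk (nat_lit 297) (nat_lit 1) (nat_lit 5) (nat_lit 4) (nat_lit 3) (nat_lit 247) (nat_lit 303) r3_247 r0_303 (nat_lit 0) (nat_lit 0) (nat_lit 490321) (nat_lit 0x1f1f55190) (nat_lit 283872577),
  Rx.mk (nat_lit 417) (nat_lit 1) (nat_lit 4) (nat_lit 6) (nat_lit 5) (nat_lit 246) (nat_lit 304) r3_246 r0_304 (nat_lit 0) (nat_lit 655885) (nat_lit 0) (nat_lit 0x1e5b1fe06) (nat_lit 297129541),
  Rx.mk (nat_lit 424) (nat_lit 0) (nat_lit 5) (nat_lit 6) (nat_lit 6) (nat_lit 244) (nat_lit 301) r3_244 r0_301 (nat_lit 44942) (nat_lit 0) (nat_lit 0) (nat_lit 0x1f4ac648c) (nat_lit 280510798),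
  Rx.mk (nat_lit 425) (nat_lit 1) (nat_lit 5) (nat_lit 6) (nat_lit 7) (nat_lit 248) (nat_lit 305) r3_248 r0_305 (nat_lit 0) (nat_lit 0) (nat_lit 0) (nat_lit 0x21de14764) (nat_lit 238010106)]
noncomputable def e3_38 : List Rx := [
  Rx.mk (nat_lit 417) (nat_lit 1) (nat_lit 4) (nat_lit 6) (nat_lit 5) (nat_lit 249) (nat_lit 71) r3_249 r0_71 (nat_lit 0) (nat_lit 279) (nat_lit 0) (nat_lit 0x2000240b8) (nat_lit 268426835)]
noncomputable def e3_39 : List Rx := [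
  Rx.mk (nat_lit 289) (nat_lit 1) (nat_lit 4) (nat_lit 4) (nat_lit 1) (nat_lit 250) (nat_lit 412) r3_250 r7_412 (nat_lit 0) (nat_lit 20207) (nat_lit 16392) (nat_lit 0x1aff2b4f4) (nat_lit 353479305),
  Rx.mk (nat_lit 297) (nat_lit 1) (nat_lit 5) (nat_lit 4) (nat_lit 3) (nat_lit 252) (nat_lit 413) r3_252 r7_413 (nat_lit 0) (nat_lit 0) (nat_lit 1511252) (nat_lit 0x1d22f5266) (nat_lit 318703058),
  Rx.mk (nat_lit 417) (nat_lit 1) (nat_lit 4) (nat_lit 6) (nat_lit 5) (nat_lit 251) (nat_lit 414) r3_251 r7_414 (nat_lit 0) (nat_lit 47845) (nat_lit 0) (nat_lit 0x201156a48) (nat_lit 267395251),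
  Rx.mk (nat_lit 425) (nat_lit 1) (nat_lit 5) (nat_lit 6) (nat_lit 7) (nat_lit 253) (nat_lit 415) r3_253 r7_415 (nat_lit 0) (nat_lit 0) (nat_lit 0) (nat_lit 0x21af7b880) (nat_lit 241021756)]
noncomputable def e3_40 : List Rx := [
  Rx.mk (nat_lit 181) (nat_lit 5) (nat_lit 6) (nat_lit 2) (nat_lit 7) (nat_lit 256) (nat_lit 60) r3_256 r2_60 (nat_lit 0) (nat_lit 0) (nat_lit 0) (nat_lit 0x22bb0e67e) (nat_lit 223917606),
  Rx.mk (nat_lit 421) (nat_lit 5) (nat_lit 4) (nat_lit 6) (nat_lit 5) (nat_lit 254) (nat_lit 59) r3_254 r2_59 (nat_lit 0) (nat_lit 175017) (nat_lit 0) (nat_lit 0x20b313174) (nat_lit 257181973),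
  Rx.mk (nat_lit 437) (nat_lit 5) (nat_lit 6) (nat_lit 6) (nat_lit 7) (nat_lit 255) (nat_lit 61) r3_255 r2_61 (nat_lit 0) (nat_lit 0) (nat_lit 0) (nat_lit 0x2250293b8) (nat_lit 230736656)]
noncomputable def e3_41 : List Rx := [
  Rx.mk (nat_lit 181) (nat_lit 5) (nat_lit 6) (nat_lit 2) (nat_lit 7) (nat_lit 260) (nat_lit 21) r3_260 r9_21 (nat_lit 0) (nat_lit 0) (nat_lit 0) (nat_lit 0x1fc36627a) (nat_lit 272747356),
  Rx.mk (nat_lit 421) (nat_lit 5) (nat_lit 4) (nat_lit 6) (nat_lit 5) (nat_lit 257) (nat_lit 19) r3_257 r9_19 (nat_lit 0) (nat_lit 777722) (nat_lit 0) (nat_lit 0x1c4edec84) (nat_lit 332046128),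
  Rx.mk (nat_lit 429) (nat_lit 5) (nat_lit 5) (nat_lit 6) (nat_lit 7) (nat_lit 258) (nat_lit 20) r3_258 r9_20 (nat_lit 0) (nat_lit 0) (nat_lit 0) (nat_lit 0x202fa9554) (nat_lit 265684056),
  Rx.mk (nat_lit 437) (nat_lit 5) (nat_lit 6) (nat_lit 6) (nat_lit 7) (nat_lit 259) (nat_lit 22) r3_259 r9_22 (nat_lit 0) (nat_lit 0) (nat_lit 0) (nat_lit 0x1fa1e6820) (nat_lit 274939556)]
noncomputable def e3_42 : List Rx := [
  Rx.mk (nat_lit 181) (nat_lit 5) (nat_lit 6) (nat_lit 2) (nat_lit 7) (nat_lit 261) (nat_lit 14) r3_261 r9_14 (nat_lit 0) (nat_lit 0) (nat_lit 0) (nat_lit 0x205609bae) (nat_lit 263199206)]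
noncomputable def e3_43 : List Rx := [
  Rx.mk (nat_lit 417) (nat_lit 1) (nat_lit 4) (nat_lit 6) (nat_lit 5) (nat_lit 264) (nat_lit 66) r3_264 r1_66 (nat_lit 0) (nat_lit 3722) (nat_lit 0) (nat_lit 0x20bd484a0) (nat_lit 256337228),
  Rx.mk (nat_lit 421) (nat_lit 5) (nat_lit 4) (nat_lit 6) (nat_lit 5) (nat_lit 262) (nat_lit 67) r3_262 r1_67 (nat_lit 0) (nat_lit 30898) (nat_lit 0) (nat_lit 0x1fbf3341e) (nat_lit 272768554),
  Rx.mk (nat_lit 437) (nat_lit 5) (nat_lit 6) (nat_lit 6) (nat_lit 7) (nat_lit 263) (nat_lit 68) r3_263 r1_68 (nat_lit 0) (nat_lit 0) (nat_lit 0) (nat_lit 0x1f687605e) (nat_lit 278648806)]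
noncomputable def e3_44 : List Rx := [
  Rx.mk (nat_lit 289) (nat_lit 1) (nat_lit 4) (nat_lit 4) (nat_lit 1) (nat_lit 268) (nat_lit 334) r3_268 r8_334 (nat_lit 0) (nat_lit 134030) (nat_lit 96896) (nat_lit 0x19463edca) (nat_lit 382952982),
  Rx.mk (nat_lit 297) (nat_lit 1) (nat_lit 5) (nat_lit 4) (nat_lit 3) (nat_lit 270) (nat_lit 335) r3_270 r8_335 (nat_lit 0) (nat_lit 0) (nat_lit 4930844) (nat_lit 0x1cb21f67c) (nat_lit 329672900),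
  Rx.mk (nat_lit 417) (nat_lit 1) (nat_lit 4) (nat_lit 6) (nat_lit 5) (nat_lit 269) (nat_lit 336) r3_269 r8_336 (nat_lit 0) (nat_lit 530915) (nat_lit 0) (nat_lit 0x1e3090140) (nat_lit 299805471),
  Rx.mk (nat_lit 421) (nat_lit 5) (nat_lit 4) (nat_lit 6) (nat_lit 5) (nat_lit 265) (nat_lit 331) r3_265 r8_331 (nat_lit 0) (nat_lit 2083584) (nat_lit 0) (nat_lit 0x1cd374fde) (nat_lit 324604590),
  Rx.mk (nat_lit 425) (nat_lit 1) (nat_lit 5) (nat_lit 6) (nat_lit 7) (nat_lit 271) (nat_lit 337) r3_271 r8_337 (nat_lit 0) (nat_lit 0) (nat_lit 0) (nat_lit 0x205323fa2) (nat_lit 263389706),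
  Rx.mk (nat_lit 429) (nat_lit 5) (nat_lit 5) (nat_lit 6) (nat_lit 7) (nat_lit 266) (nat_lit 332) r3_266 r8_332 (nat_lit 0) (nat_lit 0) (nat_lit 0) (nat_lit 0x2039c7270) (nat_lit 265031006),
  Rx.mk (nat_lit 437) (nat_lit 5) (nat_lit 6) (nat_lit 6) (nat_lit 7) (nat_lit 267) (nat_lit 333) r3_267 r8_333 (nat_lit 0) (nat_lit 0) (nat_lit 0) (nat_lit 0x1f3fc097a) (nat_lit 281425406)]
noncomputable def e3_45 : List Rx := [
  Rx.mk (nat_lit 296) (nat_lit 0) (nat_lit 5) (nat_lit 4) (nat_lit 2) (nat_lit 272) (nat_lit 293) r3_272 r1_293 (nat_lit 1558) (nat_lit 0) (nat_lit 2560) (nat_lit 0x200147198) (nat_lit 268358724),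
  Rx.mk (nat_lit 297) (nat_lit 1) (nat_lit 5) (nat_lit 4) (nat_lit 3) (nat_lit 274) (nat_lit 295) r3_274 r1_295 (nat_lit 0) (nat_lit 0) (nat_lit 12803) (nat_lit 0x1fed03baa) (nat_lit 269710059),
  Rx.mk (nat_lit 424) (nat_lit 0) (nat_lit 5) (nat_lit 6) (nat_lit 6) (nat_lit 273) (nat_lit 294) r3_273 r1_294 (nat_lit 1729121) (nat_lit 0) (nat_lit 0) (nat_lit 0x20953dff0) (nat_lit 260719377),
  Rx.mk (nat_lit 425) (nat_lit 1) (nat_lit 5) (nat_lit 6) (nat_lit 7) (nat_lit 275) (nat_lit 296) r3_275 r1_296 (nat_lit 0) (nat_lit 0) (nat_lit 0) (nat_lit 0x244dbdaf0) (nat_lit 198128006)]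
noncomputable def e3_46 : List Rx := [
  Rx.mk (nat_lit 264) (nat_lit 0) (nat_lit 1) (nat_lit 4) (nat_lit 2) (nat_lit 279) (nat_lit 323) r3_279 r2_323 (nat_lit 72299) (nat_lit 0) (nat_lit 50009) (nat_lit 0x1aa0c65f8) (nat_lit 359834164),
  Rx.mk (nat_lit 265) (nat_lit 1) (nat_lit 1) (nat_lit 4) (nat_lit 3) (nat_lit 284) (nat_lit 328) r3_284 r2_328 (nat_lit 0) (nat_lit 0) (nat_lit 1166783) (nat_lit 0x1cca82ce6) (nat_lit 324221889),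
  Rx.mk (nat_lit 266) (nat_lit 2) (nat_lit 1) (nat_lit 4) (nat_lit 3) (nat_lit 286) (nat_lit 332) r3_286 r2_332 (nat_lit 0) (nat_lit 0) (nat_lit 6890366) (nat_lit 0x1f48258fe) (nat_lit 287757172),
  Rx.mk (nat_lit 296) (nat_lit 0) (nat_lit 5) (nat_lit 4) (nat_lit 2) (nat_lit 276) (nat_lit 322) r3_276 r2_322 (nat_lit 50009) (nat_lit 0) (nat_lit 72299) (nat_lit 0x1aa0c65f8) (nat_lit 359834164),
  Rx.mk (nat_lit 297) (nat_lit 1) (nat_lit 5) (nat_lit 4) (nat_lit 3) (nat_lit 281) (nat_lit 327) r3_281 r2_327 (nat_lit 0) (nat_lit 0) (nat_lit 5970012) (nat_lit 0x1d4ee261c) (nat_lit 320299518),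
  Rx.mk (nat_lit 328) (nat_lit 0) (nat_lit 1) (nat_lit 5) (nat_lit 6) (nat_lit 280) (nat_lit 325) r3_280 r2_325 (nat_lit 5970012) (nat_lit 0) (nat_lit 0) (nat_lit 0x1d4ee261c) (nat_lit 320299518),
  Rx.mk (nat_lit 329) (nat_lit 1) (nat_lit 1) (nat_lit 5) (nat_lit 7) (nat_lit 285) (nat_lit 330) r3_285 r2_330 (nat_lit 0) (nat_lit 0) (nat_lit 0) (nat_lit 0x20056d4f2) (nat_lit 268435456),
  Rx.mk (nat_lit 330) (nat_lit 2) (nat_lit 1) (nat_lit 5) (nat_lit 7) (nat_lit 287) (nat_lit 333) r3_287 r2_333 (nat_lit 0) (nat_lit 0) (nat_lit 0) (nat_lit 0x20056d4f2) (nat_lit 268435456),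
  Rx.mk (nat_lit 360) (nat_lit 0) (nat_lit 5) (nat_lit 5) (nat_lit 6) (nat_lit 277) (nat_lit 324) r3_277 r2_324 (nat_lit 1166783) (nat_lit 0) (nat_lit 0) (nat_lit 0x1cca82ce6) (nat_lit 324221889),
  Rx.mk (nat_lit 361) (nat_lit 1) (nat_lit 5) (nat_lit 5) (nat_lit 7) (nat_lit 282) (nat_lit 329) r3_282 r2_329 (nat_lit 0) (nat_lit 0) (nat_lit 0) (nat_lit 0x20056d4f2) (nat_lit 268435456),
  Rx.mk (nat_lit 424) (nat_lit 0) (nat_lit 5) (nat_lit 6) (nat_lit 6) (nat_lit 278) (nat_lit 326) r3_278 r2_326 (nat_lit 6890366) (nat_lit 0) (nat_lit 0) (nat_lit 0x1f48258fe) (nat_lit 287757172),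
  Rx.mk (nat_lit 425) (nat_lit 1) (nat_lit 5) (nat_lit 6) (nat_lit 7) (nat_lit 283) (nat_lit 331) r3_283 r2_331 (nat_lit 0) (nat_lit 0) (nat_lit 0) (nat_lit 0x20056d4f2) (nat_lit 268435456)]
noncomputable def e3_47 : List Rx := [
  Rx.mk (nat_lit 297) (nat_lit 1) (nat_lit 5) (nat_lit 4) (nat_lit 3) (nat_lit 288) (nat_lit 61) r3_288 r8_61 (nat_lit 0) (nat_lit 0) (nat_lit 753298) (nat_lit 0x1dc14c75c) (nat_lit 307411954),
  Rx.mk (nat_lit 425) (nat_lit 1) (nat_lit 5) (nat_lit 6) (nat_lit 7) (nat_lit 289) (nat_lit 62) r3_289 r8_62 (nat_lit 0) (nat_lit 0) (nat_lit 0) (nat_lit 0x22d25d3a2) (nat_lit 222389256)]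
noncomputable def e3_48 : List Rx := [
  Rx.mk (nat_lit 265) (nat_lit 1) (nat_lit 1) (nat_lit 4) (nat_lit 3) (nat_lit 293) (nat_lit 301) r3_293 r9_301 (nat_lit 0) (nat_lit 0) (nat_lit 2180464) (nat_lit 0x1abe29a28) (nat_lit 360047770),
  Rx.mk (nat_lit 297) (nat_lit 1) (nat_lit 5) (nat_lit 4) (nat_lit 3) (nat_lit 290) (nat_lit 300) r3_290 r9_300 (nat_lit 0) (nat_lit 0) (nat_lit 3934395) (nat_lit 0x1b0908300) (nat_lit 356844751),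
  Rx.mk (nat_lit 329) (nat_lit 1) (nat_lit 1) (nat_lit 5) (nat_lit 7) (nat_lit 294) (nat_lit 303) r3_294 r9_303 (nat_lit 0) (nat_lit 0) (nat_lit 0) (nat_lit 0x1fa677632) (nat_lit 274633106),
  Rx.mk (nat_lit 361) (nat_lit 1) (nat_lit 5) (nat_lit 5) (nat_lit 7) (nat_lit 291) (nat_lit 302) r3_291 r9_302 (nat_lit 0) (nat_lit 0) (nat_lit 0) (nat_lit 0x1f6993bc6) (nat_lit 278654156),
  Rx.mk (nat_lit 425) (nat_lit 1) (nat_lit 5) (nat_lit 6) (nat_lit 7) (nat_lit 292) (nat_lit 304) r3_292 r9_304 (nat_lit 0) (nat_lit 0) (nat_lit 0) (nat_lit 0x1ea8c6498) (nat_lit 291407606)]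
noncomputable def e3_49 : List Rx := [
  Rx.mk (nat_lit 328) (nat_lit 0) (nat_lit 1) (nat_lit 5) (nat_lit 6) (nat_lit 296) (nat_lit 300) r3_296 r9_300 (nat_lit 3934395) (nat_lit 0) (nat_lit 0) (nat_lit 0x1b0908300) (nat_lit 356844751),
  Rx.mk (nat_lit 329) (nat_lit 1) (nat_lit 1) (nat_lit 5) (nat_lit 7) (nat_lit 298) (nat_lit 302) r3_298 r9_302 (nat_lit 0) (nat_lit 0) (nat_lit 0) (nat_lit 0x1f6993bc6) (nat_lit 278654156),
  Rx.mk (nat_lit 330) (nat_lit 2) (nat_lit 1) (nat_lit 5) (nat_lit 7) (nat_lit 299) (nat_lit 304) r3_299 r9_304 (nat_lit 0) (nat_lit 0) (nat_lit 0) (nat_lit 0x1ea8c6498) (nat_lit 291407606),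
  Rx.mk (nat_lit 360) (nat_lit 0) (nat_lit 5) (nat_lit 5) (nat_lit 6) (nat_lit 295) (nat_lit 301) r3_295 r9_301 (nat_lit 2180464) (nat_lit 0) (nat_lit 0) (nat_lit 0x1abe29a28) (nat_lit 360047770),
  Rx.mk (nat_lit 361) (nat_lit 1) (nat_lit 5) (nat_lit 5) (nat_lit 7) (nat_lit 297) (nat_lit 303) r3_297 r9_303 (nat_lit 0) (nat_lit 0) (nat_lit 0) (nat_lit 0x1fa677632) (nat_lit 274633106)]
noncomputable def e3_50 : List Rx := [
  Rx.mk (nat_lit 312) (nat_lit 0) (nat_lit 7) (nat_lit 4) (nat_lit 2) (nat_lit 301) (nat_lit 300) r3_301 r3_300 (nat_lit 26) (nat_lit 0) (nat_lit 57) (nat_lit 0x2026bf006) (nat_lit 265958239),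
  Rx.mk (nat_lit 313) (nat_lit 1) (nat_lit 7) (nat_lit 4) (nat_lit 3) (nat_lit 304) (nat_lit 303) r3_304 r3_303 (nat_lit 0) (nat_lit 0) (nat_lit 1946) (nat_lit 0x213cd88b4) (nat_lit 248180202),
  Rx.mk (nat_lit 416) (nat_lit 0) (nat_lit 4) (nat_lit 6) (nat_lit 4) (nat_lit 300) (nat_lit 301) r3_300 r3_301 (nat_lit 26) (nat_lit 57) (nat_lit 0) (nat_lit 0x2026bf006) (nat_lit 265958239),
  Rx.mk (nat_lit 417) (nat_lit 1) (nat_lit 4) (nat_lit 6) (nat_lit 5) (nat_lit 303) (nat_lit 304) r3_303 r3_304 (nat_lit 0) (nat_lit 1946) (nat_lit 0) (nat_lit 0x213cd88b4) (nat_lit 248180202),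
  Rx.mk (nat_lit 440) (nat_lit 0) (nat_lit 7) (nat_lit 6) (nat_lit 6) (nat_lit 302) (nat_lit 302) r3_302 r3_302 (nat_lit 89070) (nat_lit 0) (nat_lit 0) (nat_lit 0x231e9263c) (nat_lit 217491876),
  Rx.mk (nat_lit 441) (nat_lit 1) (nat_lit 7) (nat_lit 6) (nat_lit 7) (nat_lit 305) (nat_lit 305) r3_305 r3_305 (nat_lit 0) (nat_lit 0) (nat_lit 0) (nat_lit 0x25afe1302) (nat_lit 175520406)]
noncomputable def e3_51 : List Rx := [
  Rx.mk (nat_lit 288) (nat_lit 0) (nat_lit 4) (nat_lit 4) (nat_lit 0) (nat_lit 306) (nat_lit 315) r3_306 r4_315 (nat_lit 362) (nat_lit 263) (nat_lit 409) (nat_lit 0x1c9af6bc6) (nat_lit 326110640),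
  Rx.mk (nat_lit 289) (nat_lit 1) (nat_lit 4) (nat_lit 4) (nat_lit 1) (nat_lit 312) (nat_lit 321) r3_312 r4_321 (nat_lit 0) (nat_lit 28204) (nat_lit 35577) (nat_lit 0x1ffd88a16) (nat_lit 268676087),
  Rx.mk (nat_lit 296) (nat_lit 0) (nat_lit 5) (nat_lit 4) (nat_lit 2) (nat_lit 308) (nat_lit 316) r3_308 r4_316 (nat_lit 31092297) (nat_lit 0) (nat_lit 3231) (nat_lit 0x1ffe32372) (nat_lit 299651134),
  Rx.mk (nat_lit 297) (nat_lit 1) (nat_lit 5) (nat_lit 4) (nat_lit 3) (nat_lit 314) (nat_lit 322) r3_314 r4_322 (nat_lit 0) (nat_lit 0) (nat_lit 2069679) (nat_lit 0x21a292a24) (nat_lit 243859685),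
  Rx.mk (nat_lit 312) (nat_lit 0) (nat_lit 7) (nat_lit 4) (nat_lit 2) (nat_lit 310) (nat_lit 317) r3_310 r4_317 (nat_lit 4117) (nat_lit 0) (nat_lit 39310829) (nat_lit 0x1ffea47ba) (nat_lit 307841702),
  Rx.mk (nat_lit 313) (nat_lit 1) (nat_lit 7) (nat_lit 4) (nat_lit 3) (nat_lit 316) (nat_lit 323) r3_316 r4_323 (nat_lit 0) (nat_lit 0) (nat_lit 37160743) (nat_lit 0x247de0c14) (nat_lit 232184949),
  Rx.mk (nat_lit 416) (nat_lit 0) (nat_lit 4) (nat_lit 6) (nat_lit 4) (nat_lit 307) (nat_lit 318) r3_307 r4_318 (nat_lit 74883) (nat_lit 55469) (nat_lit 0) (nat_lit 0x20163f12c) (nat_lit 267168208),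
  Rx.mk (nat_lit 417) (nat_lit 1) (nat_lit 4) (nat_lit 6) (nat_lit 5) (nat_lit 313) (nat_lit 324) r3_313 r4_324 (nat_lit 0) (nat_lit 842510) (nat_lit 0) (nat_lit 0x23ced7cd6) (nat_lit 207079016),
  Rx.mk (nat_lit 424) (nat_lit 0) (nat_lit 5) (nat_lit 6) (nat_lit 6) (nat_lit 309) (nat_lit 319) r3_309 r4_319 (nat_lit 3290439) (nat_lit 0) (nat_lit 0) (nat_lit 0x20e059a16) (nat_lit 257589895),
  Rx.mk (nat_lit 425) (nat_lit 1) (nat_lit 5) (nat_lit 6) (nat_lit 7) (nat_lit 315) (nat_lit 325) r3_315 r4_325 (nat_lit 0) (nat_lit 0) (nat_lit 0) (nat_lit 0x23a814e14) (nat_lit 208756906),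
  Rx.mk (nat_lit 440) (nat_lit 0) (nat_lit 7) (nat_lit 6) (nat_lit 6) (nat_lit 311) (nat_lit 320) r3_311 r4_320 (nat_lit 3023494) (nat_lit 0) (nat_lit 0) (nat_lit 0x216d1c69c) (nat_lit 248304500),
  Rx.mk (nat_lit 441) (nat_lit 1) (nat_lit 7) (nat_lit 6) (nat_lit 7) (nat_lit 317) (nat_lit 326) r3_317 r4_326 (nat_lit 0) (nat_lit 0) (nat_lit 0) (nat_lit 0x248dd9e36) (nat_lit 194063006)]
noncomputable def e3_52 : List Rx := [
  Rx.mk (nat_lit 312) (nat_lit 0) (nat_lit 7) (nat_lit 4) (nat_lit 2) (nat_lit 318) (nat_lit 293) r3_318 r5_293 (nat_lit 551) (nat_lit 0) (nat_lit 480) (nat_lit 0x205037c80) (nat_lit 263307737),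
  Rx.mk (nat_lit 313) (nat_lit 1) (nat_lit 7) (nat_lit 4) (nat_lit 3) (nat_lit 320) (nat_lit 295) r3_320 r5_295 (nat_lit 0) (nat_lit 0) (nat_lit 72650) (nat_lit 0x204a14f1a) (nat_lit 263776356),
  Rx.mk (nat_lit 440) (nat_lit 0) (nat_lit 7) (nat_lit 6) (nat_lit 6) (nat_lit 319) (nat_lit 294) r3_319 r5_294 (nat_lit 106368) (nat_lit 0) (nat_lit 0) (nat_lit 0x205fe2c8e) (nat_lit 262446824),
  Rx.mk (nat_lit 441) (nat_lit 1) (nat_lit 7) (nat_lit 6) (nat_lit 7) (nat_lit 321) (nat_lit 296) r3_321 r5_296 (nat_lit 0) (nat_lit 0) (nat_lit 0) (nat_lit 0x2734b9196) (nat_lit 150645606)]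
noncomputable def e3_53 : List Rx := [
  Rx.mk (nat_lit 313) (nat_lit 1) (nat_lit 7) (nat_lit 4) (nat_lit 3) (nat_lit 323) (nat_lit 66) r3_323 r4_66 (nat_lit 0) (nat_lit 0) (nat_lit 23607) (nat_lit 0x210f104d6) (nat_lit 251131913),
  Rx.mk (nat_lit 417) (nat_lit 1) (nat_lit 4) (nat_lit 6) (nat_lit 5) (nat_lit 322) (nat_lit 65) r3_322 r4_65 (nat_lit 0) (nat_lit 3880) (nat_lit 0) (nat_lit 0x1fff81d22) (nat_lit 268472436),
  Rx.mk (nat_lit 441) (nat_lit 1) (nat_lit 7) (nat_lit 6) (nat_lit 7) (nat_lit 324) (nat_lit 67) r3_324 r4_67 (nat_lit 0) (nat_lit 0) (nat_lit 0) (nat_lit 0x20a4ce8e8) (nat_lit 257901506)]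
noncomputable def e3_54 : List Rx := [
  Rx.mk (nat_lit 289) (nat_lit 1) (nat_lit 4) (nat_lit 4) (nat_lit 1) (nat_lit 325) (nat_lit 333) r3_325 r10_333 (nat_lit 0) (nat_lit 28184) (nat_lit 22038) (nat_lit 0x19f3c35a4) (nat_lit 371241528),
  Rx.mk (nat_lit 297) (nat_lit 1) (nat_lit 5) (nat_lit 4) (nat_lit 3) (nat_lit 327) (nat_lit 334) r3_327 r10_334 (nat_lit 0) (nat_lit 0) (nat_lit 9858675) (nat_lit 0x1ee4c0a34) (nat_lit 297282781),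
  Rx.mk (nat_lit 313) (nat_lit 1) (nat_lit 7) (nat_lit 4) (nat_lit 3) (nat_lit 329) (nat_lit 335) r3_329 r10_335 (nat_lit 0) (nat_lit 0) (nat_lit 10913577) (nat_lit 0x1f00f05c4) (nat_lit 296487483),
  Rx.mk (nat_lit 417) (nat_lit 1) (nat_lit 4) (nat_lit 6) (nat_lit 5) (nat_lit 326) (nat_lit 336) r3_326 r10_336 (nat_lit 0) (nat_lit 117878) (nat_lit 0) (nat_lit 0x21410723c) (nat_lit 248064234),
  Rx.mk (nat_lit 425) (nat_lit 1) (nat_lit 5) (nat_lit 6) (nat_lit 7) (nat_lit 328) (nat_lit 337) r3_328 r10_337 (nat_lit 0) (nat_lit 0) (nat_lit 0) (nat_lit 0x241a52c38) (nat_lit 201440206),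
  Rx.mk (nat_lit 441) (nat_lit 1) (nat_lit 7) (nat_lit 6) (nat_lit 7) (nat_lit 330) (nat_lit 338) r3_330 r10_338 (nat_lit 0) (nat_lit 0) (nat_lit 0) (nat_lit 0x24372f78e) (nat_lit 199595806)]
noncomputable def e3_55 : List Rx := [
  Rx.mk (nat_lit 313) (nat_lit 1) (nat_lit 7) (nat_lit 4) (nat_lit 3) (nat_lit 331) (nat_lit 351) r3_331 r11_351 (nat_lit 0) (nat_lit 0) (nat_lit 6315329) (nat_lit 0x1f8574296) (nat_lit 282941035),
  Rx.mk (nat_lit 441) (nat_lit 1) (nat_lit 7) (nat_lit 6) (nat_lit 7) (nat_lit 332) (nat_lit 352) r3_332 r11_352 (nat_lit 0) (nat_lit 0) (nat_lit 0) (nat_lit 0x246040fec) (nat_lit 196834556)]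
noncomputable def e3_56 : List Rx := [
  Rx.mk (nat_lit 312) (nat_lit 0) (nat_lit 7) (nat_lit 4) (nat_lit 2) (nat_lit 334) (nat_lit 55) r3_334 r5_55 (nat_lit 537) (nat_lit 0) (nat_lit 727) (nat_lit 0x1fffeb498) (nat_lit 268443170),
  Rx.mk (nat_lit 313) (nat_lit 1) (nat_lit 7) (nat_lit 4) (nat_lit 3) (nat_lit 338) (nat_lit 56) r3_338 r5_56 (nat_lit 0) (nat_lit 0) (nat_lit 1086599) (nat_lit 0x1fdbcccba) (nat_lit 272115455),
  Rx.mk (nat_lit 416) (nat_lit 0) (nat_lit 4) (nat_lit 6) (nat_lit 4) (nat_lit 333) (nat_lit 52) r3_333 r5_52 (nat_lit 258) (nat_lit 453) (nat_lit 0) (nat_lit 0x2026c85fc) (nat_lit 265956667),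
  Rx.mk (nat_lit 417) (nat_lit 1) (nat_lit 4) (nat_lit 6) (nat_lit 5) (nat_lit 337) (nat_lit 53) r3_337 r5_53 (nat_lit 0) (nat_lit 2979975) (nat_lit 0) (nat_lit 0x213beb226) (nat_lit 251350281),
  Rx.mk (nat_lit 419) (nat_lit 3) (nat_lit 4) (nat_lit 6) (nat_lit 5) (nat_lit 341) (nat_lit 54) r3_341 r5_54 (nat_lit 0) (nat_lit 5945273) (nat_lit 0) (nat_lit 0x23166282c) (nat_lit 223904929),
  Rx.mk (nat_lit 440) (nat_lit 0) (nat_lit 7) (nat_lit 6) (nat_lit 6) (nat_lit 335) (nat_lit 59) r3_335 r5_59 (nat_lit 100796) (nat_lit 0) (nat_lit 0) (nat_lit 0x2354a6494) (nat_lit 214054002),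
  Rx.mk (nat_lit 441) (nat_lit 1) (nat_lit 7) (nat_lit 6) (nat_lit 7) (nat_lit 339) (nat_lit 60) r3_339 r5_60 (nat_lit 0) (nat_lit 0) (nat_lit 0) (nat_lit 0x2902c0a5c) (nat_lit 121105656),
  Rx.mk (nat_lit 504) (nat_lit 0) (nat_lit 7) (nat_lit 7) (nat_lit 6) (nat_lit 336) (nat_lit 57) r3_336 r5_57 (nat_lit 16821) (nat_lit 0) (nat_lit 0) (nat_lit 0x1fa9c646e) (nat_lit 274180777),
  Rx.mk (nat_lit 505) (nat_lit 1) (nat_lit 7) (nat_lit 7) (nat_lit 7) (nat_lit 340) (nat_lit 58) r3_340 r5_58 (nat_lit 0) (nat_lit 0) (nat_lit 0) (nat_lit 0x1fe92629e) (nat_lit 270260906)]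
noncomputable def e3_57 : List Rx := [
  Rx.mk (nat_lit 288) (nat_lit 0) (nat_lit 4) (nat_lit 4) (nat_lit 0) (nat_lit 342) (nat_lit 19) r3_342 r11_19 (nat_lit 16498) (nat_lit 19540) (nat_lit 21776) (nat_lit 0x15a1593da) (nat_lit 444675570),
  Rx.mk (nat_lit 289) (nat_lit 1) (nat_lit 4) (nat_lit 4) (nat_lit 1) (nat_lit 349) (nat_lit 20) r3_349 r11_20 (nat_lit 0) (nat_lit 6719633) (nat_lit 5218947) (nat_lit 0x1c333195a) (nat_lit 345098436),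
  Rx.mk (nat_lit 291) (nat_lit 3) (nat_lit 4) (nat_lit 4) (nat_lit 1) (nat_lit 356) (nat_lit 21) r3_356 r11_21 (nat_lit 0) (nat_lit 7547956) (nat_lit 13879051) (nat_lit 0x1da71f780) (nat_lit 329919513),
  Rx.mk (nat_lit 296) (nat_lit 0) (nat_lit 5) (nat_lit 4) (nat_lit 2) (nat_lit 344) (nat_lit 25) r3_344 r11_25 (nat_lit 1269742) (nat_lit 0) (nat_lit 250205) (nat_lit 0x1a19dc132) (nat_lit 370210353),
  Rx.mk (nat_lit 297) (nat_lit 1) (nat_lit 5) (nat_lit 4) (nat_lit 3) (nat_lit 351) (nat_lit 26) r3_351 r11_26 (nat_lit 0) (nat_lit 0) (nat_lit 9484367) (nat_lit 0x201d9700a) (nat_lit 276346873),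
  Rx.mk (nat_lit 299) (nat_lit 3) (nat_lit 5) (nat_lit 4) (nat_lit 3) (nat_lit 358) (nat_lit 27) r3_358 r11_27 (nat_lit 0) (nat_lit 0) (nat_lit 8742655) (nat_lit 0x1ffa842fc) (nat_lit 277882861),
  Rx.mk (nat_lit 312) (nat_lit 0) (nat_lit 7) (nat_lit 4) (nat_lit 2) (nat_lit 346) (nat_lit 31) r3_346 r11_31 (nat_lit 156302) (nat_lit 0) (nat_lit 43368381) (nat_lit 0x1c6f86806) (nat_lit 372553839),
  Rx.mk (nat_lit 313) (nat_lit 1) (nat_lit 7) (nat_lit 4) (nat_lit 3) (nat_lit 353) (nat_lit 32) r3_353 r11_32 (nat_lit 0) (nat_lit 0) (nat_lit 9484367) (nat_lit 0x201ffaca2) (nat_lit 276191123),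
  Rx.mk (nat_lit 416) (nat_lit 0) (nat_lit 4) (nat_lit 6) (nat_lit 4) (nat_lit 343) (nat_lit 22) r3_343 r11_22 (nat_lit 570606) (nat_lit 710474) (nat_lit 0) (nat_lit 0x1c08ee1b6) (nat_lit 337171136),
  Rx.mk (nat_lit 417) (nat_lit 1) (nat_lit 4) (nat_lit 6) (nat_lit 5) (nat_lit 350) (nat_lit 23) r3_350 r11_23 (nat_lit 0) (nat_lit 3207732) (nat_lit 0) (nat_lit 0x21c1d0184) (nat_lit 243063938),
  Rx.mk (nat_lit 419) (nat_lit 3) (nat_lit 4) (nat_lit 6) (nat_lit 5) (nat_lit 357) (nat_lit 24) r3_357 r11_24 (nat_lit 0) (nat_lit 2066248) (nat_lit 0) (nat_lit 0x1f52a93c0) (nat_lit 282195504),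
  Rx.mk (nat_lit 424) (nat_lit 0) (nat_lit 5) (nat_lit 6) (nat_lit 6) (nat_lit 345) (nat_lit 28) r3_345 r11_28 (nat_lit 4365675) (nat_lit 0) (nat_lit 0) (nat_lit 0x20361ffc8) (nat_lit 269616331),
  Rx.mk (nat_lit 425) (nat_lit 1) (nat_lit 5) (nat_lit 6) (nat_lit 7) (nat_lit 352) (nat_lit 29) r3_352 r11_29 (nat_lit 0) (nat_lit 0) (nat_lit 0) (nat_lit 0x205d35dec) (nat_lit 262741806),
  Rx.mk (nat_lit 427) (nat_lit 3) (nat_lit 5) (nat_lit 6) (nat_lit 7) (nat_lit 359) (nat_lit 30) r3_359 r11_30 (nat_lit 0) (nat_lit 0) (nat_lit 0) (nat_lit 0x20713488e) (nat_lit 261452506),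
  Rx.mk (nat_lit 440) (nat_lit 0) (nat_lit 7) (nat_lit 6) (nat_lit 6) (nat_lit 347) (nat_lit 35) r3_347 r11_35 (nat_lit 4277638) (nat_lit 0) (nat_lit 0) (nat_lit 0x204b55974) (nat_lit 268164344),
  Rx.mk (nat_lit 441) (nat_lit 1) (nat_lit 7) (nat_lit 6) (nat_lit 7) (nat_lit 354) (nat_lit 36) r3_354 r11_36 (nat_lit 0) (nat_lit 0) (nat_lit 0) (nat_lit 0x205d33e3e) (nat_lit 262742306),
  Rx.mk (nat_lit 504) (nat_lit 0) (nat_lit 7) (nat_lit 7) (nat_lit 6) (nat_lit 348) (nat_lit 33) r3_348 r11_33 (nat_lit 8204025) (nat_lit 0) (nat_lit 0) (nat_lit 0x1ed8f4ca0) (nat_lit 296428381),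
  Rx.mk (nat_lit 505) (nat_lit 1) (nat_lit 7) (nat_lit 7) (nat_lit 7) (nat_lit 355) (nat_lit 34) r3_355 r11_34 (nat_lit 0) (nat_lit 0) (nat_lit 0) (nat_lit 0x20056d4f2) (nat_lit 268435456)]
noncomputable def e3 : List (List Rx) := [e3_0, e3_1, e3_2, e3_3, e3_4, e3_5, e3_6, e3_7, e3_8, e3_9, e3_10, e3_11, e3_12, e3_13, e3_14, e3_15, e3_16, e3_17, e3_18, e3_19, e3_20, e3_21, e3_22, e3_23, e3_24, e3_25, e3_26, e3_27, e3_28, e3_29, e3_30, e3_31, e3_32, e3_33, e3_34, e3_35, e3_36, e3_37, e3_38, e3_39, e3_40, e3_41, e3_42, e3_43, e3_44, e3_45, e3_46, e3_47, e3_48, e3_49, e3_50, e3_51, e3_52, e3_53, e3_54, e3_55, e3_56, e3_57]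
noncomputable def e4_0 : List Rx := [
  Rx.mk (nat_lit 2) (nat_lit 2) (nat_lit 0) (nat_lit 0) (nat_lit 1) (nat_lit 8) (nat_lit 52) r4_8 r0_52 (nat_lit 0) (nat_lit 2057600) (nat_lit 911214) (nat_lit 0x1b22bcfc6) (nat_lit 354158770),
  Rx.mk (nat_lit 18) (nat_lit 2) (nat_lit 2) (nat_lit 0) (nat_lit 3) (nat_lit 10) (nat_lit 55) r4_10 r0_55 (nat_lit 0) (nat_lit 0) (nat_lit 4095836) (nat_lit 0x1fd9b63ea) (nat_lit 275364542),
  Rx.mk (nat_lit 22) (nat_lit 6) (nat_lit 2) (nat_lit 0) (nat_lit 3) (nat_lit 3) (nat_lit 62) r4_3 r0_62 (nat_lit 0) (nat_lit 0) (nat_lit 4296120) (nat_lit 0x1fd4ab1de) (nat_lit 275890326),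
  Rx.mk (nat_lit 150) (nat_lit 6) (nat_lit 2) (nat_lit 2) (nat_lit 7) (nat_lit 4) (nat_lit 63) r4_4 r0_63 (nat_lit 0) (nat_lit 0) (nat_lit 0) (nat_lit 0x206a07ed0) (nat_lit 261913956),
  Rx.mk (nat_lit 180) (nat_lit 4) (nat_lit 6) (nat_lit 2) (nat_lit 6) (nat_lit 1) (nat_lit 57) r4_1 r0_57 (nat_lit 4265964) (nat_lit 0) (nat_lit 0) (nat_lit 0x1f7bbe878) (nat_lit 281708970),
  Rx.mk (nat_lit 182) (nat_lit 6) (nat_lit 6) (nat_lit 2) (nat_lit 7) (nat_lit 2) (nat_lit 64) r4_2 r0_64 (nat_lit 0) (nat_lit 0) (nat_lit 0) (nat_lit 0x203c788ac) (nat_lit 264839206),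
  Rx.mk (nat_lit 194) (nat_lit 2) (nat_lit 0) (nat_lit 3) (nat_lit 5) (nat_lit 9) (nat_lit 53) r4_9 r0_53 (nat_lit 0) (nat_lit 17143268) (nat_lit 0) (nat_lit 0x1e42af416) (nat_lit 315309874),
  Rx.mk (nat_lit 210) (nat_lit 2) (nat_lit 2) (nat_lit 3) (nat_lit 7) (nat_lit 11) (nat_lit 56) r4_11 r0_56 (nat_lit 0) (nat_lit 0) (nat_lit 0) (nat_lit 0x205e5adb2) (nat_lit 262667356),
  Rx.mk (nat_lit 218) (nat_lit 2) (nat_lit 3) (nat_lit 3) (nat_lit 7) (nat_lit 12) (nat_lit 54) r4_12 r0_54 (nat_lit 0) (nat_lit 0) (nat_lit 0) (nat_lit 0x1d9b5a3be) (nat_lit 309237406),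
  Rx.mk (nat_lit 423) (nat_lit 7) (nat_lit 4) (nat_lit 6) (nat_lit 5) (nat_lit 5) (nat_lit 59) r4_5 r0_59 (nat_lit 0) (nat_lit 20543778) (nat_lit 0) (nat_lit 0x1ef9c7a5e) (nat_lit 306570734),
  Rx.mk (nat_lit 436) (nat_lit 4) (nat_lit 6) (nat_lit 6) (nat_lit 6) (nat_lit 0) (nat_lit 58) r4_0 r0_58 (nat_lit 829405) (nat_lit 0) (nat_lit 0) (nat_lit 0x19a9ddf48) (nat_lit 377006311),
  Rx.mk (nat_lit 439) (nat_lit 7) (nat_lit 6) (nat_lit 6) (nat_lit 7) (nat_lit 6) (nat_lit 61) r4_6 r0_61 (nat_lit 0) (nat_lit 0) (nat_lit 0) (nat_lit 0x1fca5e078) (nat_lit 272247956),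
  Rx.mk (nat_lit 447) (nat_lit 7) (nat_lit 7) (nat_lit 6) (nat_lit 7) (nat_lit 7) (nat_lit 60) r4_7 r0_60 (nat_lit 0) (nat_lit 0) (nat_lit 0) (nat_lit 0x1fa57e4c4) (nat_lit 274711106)]
noncomputable def e4_1 : List Rx := [
  Rx.mk (nat_lit 2) (nat_lit 2) (nat_lit 0) (nat_lit 0) (nat_lit 1) (nat_lit 16) (nat_lit 50) r4_16 r1_50 (nat_lit 0) (nat_lit 14713705) (nat_lit 4415399) (nat_lit 0x1df5a2f24) (nat_lit 322395360),
  Rx.mk (nat_lit 18) (nat_lit 2) (nat_lit 2) (nat_lit 0) (nat_lit 3) (nat_lit 18) (nat_lit 53) r4_18 r1_53 (nat_lit 0) (nat_lit 0) (nat_lit 4829277) (nat_lit 0x1fc618c5c) (nat_lit 277393433),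
  Rx.mk (nat_lit 22) (nat_lit 6) (nat_lit 2) (nat_lit 0) (nat_lit 3) (nat_lit 14) (nat_lit 55) r4_14 r1_55 (nat_lit 0) (nat_lit 0) (nat_lit 4677671) (nat_lit 0x2069dbd26) (nat_lit 266600427),
  Rx.mk (nat_lit 150) (nat_lit 6) (nat_lit 2) (nat_lit 2) (nat_lit 7) (nat_lit 15) (nat_lit 56) r4_15 r1_56 (nat_lit 0) (nat_lit 0) (nat_lit 0) (nat_lit 0x206888b4a) (nat_lit 262011206),
  Rx.mk (nat_lit 182) (nat_lit 6) (nat_lit 6) (nat_lit 2) (nat_lit 7) (nat_lit 13) (nat_lit 57) r4_13 r1_57 (nat_lit 0) (nat_lit 0) (nat_lit 0) (nat_lit 0x209de56bc) (nat_lit 258574406),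
  Rx.mk (nat_lit 194) (nat_lit 2) (nat_lit 0) (nat_lit 3) (nat_lit 5) (nat_lit 17) (nat_lit 51) r4_17 r1_51 (nat_lit 0) (nat_lit 7667538) (nat_lit 0) (nat_lit 0x2056e0442) (nat_lit 270816144),
  Rx.mk (nat_lit 210) (nat_lit 2) (nat_lit 2) (nat_lit 3) (nat_lit 7) (nat_lit 19) (nat_lit 54) r4_19 r1_54 (nat_lit 0) (nat_lit 0) (nat_lit 0) (nat_lit 0x204cb4824) (nat_lit 263807506),
  Rx.mk (nat_lit 218) (nat_lit 2) (nat_lit 3) (nat_lit 3) (nat_lit 7) (nat_lit 20) (nat_lit 52) r4_20 r1_52 (nat_lit 0) (nat_lit 0) (nat_lit 0) (nat_lit 0x218b1a504) (nat_lit 243353006)]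
noncomputable def e4_2 : List Rx := [
  Rx.mk (nat_lit 2) (nat_lit 2) (nat_lit 0) (nat_lit 0) (nat_lit 1) (nat_lit 24) (nat_lit 47) r4_24 r2_47 (nat_lit 0) (nat_lit 5694526) (nat_lit 2600229) (nat_lit 0x1c5a2375c) (nat_lit 338859561),
  Rx.mk (nat_lit 18) (nat_lit 2) (nat_lit 2) (nat_lit 0) (nat_lit 3) (nat_lit 26) (nat_lit 52) r4_26 r2_52 (nat_lit 0) (nat_lit 0) (nat_lit 4694297) (nat_lit 0x20923b212) (nat_lit 264022053),
  Rx.mk (nat_lit 22) (nat_lit 6) (nat_lit 2) (nat_lit 0) (nat_lit 3) (nat_lit 21) (nat_lit 54) r4_21 r2_54 (nat_lit 0) (nat_lit 0) (nat_lit 5443682) (nat_lit 0x2062342a8) (nat_lit 267864038),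
  Rx.mk (nat_lit 26) (nat_lit 2) (nat_lit 3) (nat_lit 0) (nat_lit 3) (nat_lit 28) (nat_lit 49) r4_28 r2_49 (nat_lit 0) (nat_lit 0) (nat_lit 1053683) (nat_lit 0x1f8ecabd8) (nat_lit 277184439),
  Rx.mk (nat_lit 66) (nat_lit 2) (nat_lit 0) (nat_lit 1) (nat_lit 5) (nat_lit 25) (nat_lit 48) r4_25 r2_48 (nat_lit 0) (nat_lit 9484367) (nat_lit 0) (nat_lit 0x204074712) (nat_lit 274085323),
  Rx.mk (nat_lit 82) (nat_lit 2) (nat_lit 2) (nat_lit 1) (nat_lit 7) (nat_lit 27) (nat_lit 53) r4_27 r2_53 (nat_lit 0) (nat_lit 0) (nat_lit 0) (nat_lit 0x20056d4f2) (nat_lit 268435456),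
  Rx.mk (nat_lit 86) (nat_lit 6) (nat_lit 2) (nat_lit 1) (nat_lit 7) (nat_lit 22) (nat_lit 55) r4_22 r2_55 (nat_lit 0) (nat_lit 0) (nat_lit 0) (nat_lit 0x20056d4f2) (nat_lit 268435456),
  Rx.mk (nat_lit 90) (nat_lit 2) (nat_lit 3) (nat_lit 1) (nat_lit 7) (nat_lit 29) (nat_lit 50) r4_29 r2_50 (nat_lit 0) (nat_lit 0) (nat_lit 0) (nat_lit 0x22d7cf9de) (nat_lit 222080006),
  Rx.mk (nat_lit 150) (nat_lit 6) (nat_lit 2) (nat_lit 2) (nat_lit 7) (nat_lit 23) (nat_lit 56) r4_23 r2_56 (nat_lit 0) (nat_lit 0) (nat_lit 0) (nat_lit 0x20056d4f2) (nat_lit 268435456),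
  Rx.mk (nat_lit 218) (nat_lit 2) (nat_lit 3) (nat_lit 3) (nat_lit 7) (nat_lit 30) (nat_lit 51) r4_30 r2_51 (nat_lit 0) (nat_lit 0) (nat_lit 0) (nat_lit 0x22c726c72) (nat_lit 223145856)]
noncomputable def e4_3 : List Rx := [
  Rx.mk (nat_lit 315) (nat_lit 3) (nat_lit 7) (nat_lit 4) (nat_lit 3) (nat_lit 36) (nat_lit 43) r4_36 r3_43 (nat_lit 0) (nat_lit 0) (nat_lit 119145) (nat_lit 0x21ea15248) (nat_lit 237264301),
  Rx.mk (nat_lit 423) (nat_lit 7) (nat_lit 4) (nat_lit 6) (nat_lit 5) (nat_lit 31) (nat_lit 47) r4_31 r3_47 (nat_lit 0) (nat_lit 3923) (nat_lit 0) (nat_lit 0x1fffa06be) (nat_lit 268464529),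
  Rx.mk (nat_lit 439) (nat_lit 7) (nat_lit 6) (nat_lit 6) (nat_lit 7) (nat_lit 32) (nat_lit 49) r4_32 r3_49 (nat_lit 0) (nat_lit 0) (nat_lit 0) (nat_lit 0x1f5ce7486) (nat_lit 279471956),
  Rx.mk (nat_lit 443) (nat_lit 3) (nat_lit 7) (nat_lit 6) (nat_lit 7) (nat_lit 37) (nat_lit 45) r4_37 r3_45 (nat_lit 0) (nat_lit 0) (nat_lit 0) (nat_lit 0x2266fa790) (nat_lit 229274756),
  Rx.mk (nat_lit 447) (nat_lit 7) (nat_lit 7) (nat_lit 6) (nat_lit 7) (nat_lit 33) (nat_lit 48) r4_33 r3_48 (nat_lit 0) (nat_lit 0) (nat_lit 0) (nat_lit 0x21acbc90a) (nat_lit 241200006),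
  Rx.mk (nat_lit 472) (nat_lit 0) (nat_lit 3) (nat_lit 7) (nat_lit 6) (nat_lit 34) (nat_lit 41) r4_34 r3_41 (nat_lit 151800) (nat_lit 0) (nat_lit 0) (nat_lit 0x204bed6a2) (nat_lit 263787856),
  Rx.mk (nat_lit 474) (nat_lit 2) (nat_lit 3) (nat_lit 7) (nat_lit 7) (nat_lit 35) (nat_lit 46) r4_35 r3_46 (nat_lit 0) (nat_lit 0) (nat_lit 0) (nat_lit 0x204c425b2) (nat_lit 263570306),
  Rx.mk (nat_lit 475) (nat_lit 3) (nat_lit 3) (nat_lit 7) (nat_lit 7) (nat_lit 39) (nat_lit 42) r4_39 r3_42 (nat_lit 0) (nat_lit 0) (nat_lit 0) (nat_lit 0x201ac44a4) (nat_lit 267031306),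
  Rx.mk (nat_lit 507) (nat_lit 3) (nat_lit 7) (nat_lit 7) (nat_lit 7) (nat_lit 38) (nat_lit 44) r4_38 r3_44 (nat_lit 0) (nat_lit 0) (nat_lit 0) (nat_lit 0x2057f959a) (nat_lit 263075056)]
noncomputable def e4_4 : List Rx := [
  Rx.mk (nat_lit 22) (nat_lit 6) (nat_lit 2) (nat_lit 0) (nat_lit 3) (nat_lit 42) (nat_lit 54) r4_42 r4_54 (nat_lit 0) (nat_lit 0) (nat_lit 7478) (nat_lit 0x1eb3db0d6) (nat_lit 290488534),
  Rx.mk (nat_lit 150) (nat_lit 6) (nat_lit 2) (nat_lit 2) (nat_lit 7) (nat_lit 43) (nat_lit 56) r4_43 r4_56 (nat_lit 0) (nat_lit 0) (nat_lit 0) (nat_lit 0x2271c3ac8) (nat_lit 228606356),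
  Rx.mk (nat_lit 180) (nat_lit 4) (nat_lit 6) (nat_lit 2) (nat_lit 6) (nat_lit 40) (nat_lit 49) r4_40 r4_49 (nat_lit 11057) (nat_lit 0) (nat_lit 0) (nat_lit 0x1ff068156) (nat_lit 269485363),
  Rx.mk (nat_lit 182) (nat_lit 6) (nat_lit 6) (nat_lit 2) (nat_lit 7) (nat_lit 41) (nat_lit 57) r4_41 r4_57 (nat_lit 0) (nat_lit 0) (nat_lit 0) (nat_lit 0x22ef8862a) (nat_lit 220553406),
  Rx.mk (nat_lit 183) (nat_lit 7) (nat_lit 6) (nat_lit 2) (nat_lit 7) (nat_lit 47) (nat_lit 52) r4_47 r4_52 (nat_lit 0) (nat_lit 0) (nat_lit 0) (nat_lit 0x210b4202a) (nat_lit 251546656),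
  Rx.mk (nat_lit 194) (nat_lit 2) (nat_lit 0) (nat_lit 3) (nat_lit 5) (nat_lit 50) (nat_lit 45) r4_50 r4_45 (nat_lit 0) (nat_lit 13129) (nat_lit 0) (nat_lit 0x1fb3b6334) (nat_lit 273515835),
  Rx.mk (nat_lit 210) (nat_lit 2) (nat_lit 2) (nat_lit 3) (nat_lit 7) (nat_lit 51) (nat_lit 48) r4_51 r4_48 (nat_lit 0) (nat_lit 0) (nat_lit 0) (nat_lit 0x224ae41f0) (nat_lit 231084156),
  Rx.mk (nat_lit 214) (nat_lit 6) (nat_lit 2) (nat_lit 3) (nat_lit 7) (nat_lit 44) (nat_lit 55) r4_44 r4_55 (nat_lit 0) (nat_lit 0) (nat_lit 0) (nat_lit 0x22e200b92) (nat_lit 221423156),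
  Rx.mk (nat_lit 218) (nat_lit 2) (nat_lit 3) (nat_lit 3) (nat_lit 7) (nat_lit 53) (nat_lit 46) r4_53 r4_46 (nat_lit 0) (nat_lit 0) (nat_lit 0) (nat_lit 0x1f577a0f2) (nat_lit 279620056),
  Rx.mk (nat_lit 315) (nat_lit 3) (nat_lit 7) (nat_lit 4) (nat_lit 3) (nat_lit 54) (nat_lit 42) r4_54 r4_42 (nat_lit 0) (nat_lit 0) (nat_lit 7478) (nat_lit 0x1eb3db0d6) (nat_lit 290488534),
  Rx.mk (nat_lit 423) (nat_lit 7) (nat_lit 4) (nat_lit 6) (nat_lit 5) (nat_lit 45) (nat_lit 50) r4_45 r4_50 (nat_lit 0) (nat_lit 13129) (nat_lit 0) (nat_lit 0x1fb3b6334) (nat_lit 273515835),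
  Rx.mk (nat_lit 439) (nat_lit 7) (nat_lit 6) (nat_lit 6) (nat_lit 7) (nat_lit 46) (nat_lit 53) r4_46 r4_53 (nat_lit 0) (nat_lit 0) (nat_lit 0) (nat_lit 0x1f577a0f2) (nat_lit 279620056),
  Rx.mk (nat_lit 443) (nat_lit 3) (nat_lit 7) (nat_lit 6) (nat_lit 7) (nat_lit 55) (nat_lit 44) r4_55 r4_44 (nat_lit 0) (nat_lit 0) (nat_lit 0) (nat_lit 0x22e200b92) (nat_lit 221423156),
  Rx.mk (nat_lit 447) (nat_lit 7) (nat_lit 7) (nat_lit 6) (nat_lit 7) (nat_lit 48) (nat_lit 51) r4_48 r4_51 (nat_lit 0) (nat_lit 0) (nat_lit 0) (nat_lit 0x224ae41f0) (nat_lit 231084156),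
  Rx.mk (nat_lit 472) (nat_lit 0) (nat_lit 3) (nat_lit 7) (nat_lit 6) (nat_lit 49) (nat_lit 40) r4_49 r4_40 (nat_lit 11057) (nat_lit 0) (nat_lit 0) (nat_lit 0x1ff068156) (nat_lit 269485363),
  Rx.mk (nat_lit 474) (nat_lit 2) (nat_lit 3) (nat_lit 7) (nat_lit 7) (nat_lit 52) (nat_lit 47) r4_52 r4_47 (nat_lit 0) (nat_lit 0) (nat_lit 0) (nat_lit 0x210b4202a) (nat_lit 251546656),
  Rx.mk (nat_lit 475) (nat_lit 3) (nat_lit 3) (nat_lit 7) (nat_lit 7) (nat_lit 57) (nat_lit 41) r4_57 r4_41 (nat_lit 0) (nat_lit 0) (nat_lit 0) (nat_lit 0x22ef8862a) (nat_lit 220553406),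
  Rx.mk (nat_lit 507) (nat_lit 3) (nat_lit 7) (nat_lit 7) (nat_lit 7) (nat_lit 56) (nat_lit 43) r4_56 r4_43 (nat_lit 0) (nat_lit 0) (nat_lit 0) (nat_lit 0x2271c3ac8) (nat_lit 228606356)]
noncomputable def e4_5 : List Rx := [
  Rx.mk (nat_lit 283) (nat_lit 3) (nat_lit 3) (nat_lit 4) (nat_lit 3) (nat_lit 63) (nat_lit 28) r4_63 r5_28 (nat_lit 0) (nat_lit 0) (nat_lit 1531150) (nat_lit 0x205a66e5e) (nat_lit 264400706),
  Rx.mk (nat_lit 315) (nat_lit 3) (nat_lit 7) (nat_lit 4) (nat_lit 3) (nat_lit 61) (nat_lit 30) r4_61 r5_30 (nat_lit 0) (nat_lit 0) (nat_lit 778696) (nat_lit 0x1fccaaaa2) (nat_lit 272787352),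
  Rx.mk (nat_lit 443) (nat_lit 3) (nat_lit 7) (nat_lit 6) (nat_lit 7) (nat_lit 62) (nat_lit 31) r4_62 r5_31 (nat_lit 0) (nat_lit 0) (nat_lit 0) (nat_lit 0x2245df4b6) (nat_lit 231408706),
  Rx.mk (nat_lit 447) (nat_lit 7) (nat_lit 7) (nat_lit 6) (nat_lit 7) (nat_lit 58) (nat_lit 33) r4_58 r5_33 (nat_lit 0) (nat_lit 0) (nat_lit 0) (nat_lit 0x20a42a0e0) (nat_lit 258152756),
  Rx.mk (nat_lit 472) (nat_lit 0) (nat_lit 3) (nat_lit 7) (nat_lit 6) (nat_lit 59) (nat_lit 27) r4_59 r5_27 (nat_lit 1604258) (nat_lit 0) (nat_lit 0) (nat_lit 0x204f6230a) (nat_lit 265174264),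
  Rx.mk (nat_lit 474) (nat_lit 2) (nat_lit 3) (nat_lit 7) (nat_lit 7) (nat_lit 60) (nat_lit 32) r4_60 r5_32 (nat_lit 0) (nat_lit 0) (nat_lit 0) (nat_lit 0x21c130f12) (nat_lit 239832756),
  Rx.mk (nat_lit 475) (nat_lit 3) (nat_lit 3) (nat_lit 7) (nat_lit 7) (nat_lit 64) (nat_lit 29) r4_64 r5_29 (nat_lit 0) (nat_lit 0) (nat_lit 0) (nat_lit 0x204c994ac) (nat_lit 263809306)]
noncomputable def e4_6 : List Rx := [
  Rx.mk (nat_lit 322) (nat_lit 2) (nat_lit 0) (nat_lit 5) (nat_lit 5) (nat_lit 66) (nat_lit 71) r4_66 r3_71 (nat_lit 0) (nat_lit 23607) (nat_lit 0) (nat_lit 0x210f104d6) (nat_lit 251131913),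
  Rx.mk (nat_lit 344) (nat_lit 0) (nat_lit 3) (nat_lit 5) (nat_lit 6) (nat_lit 65) (nat_lit 72) r4_65 r3_72 (nat_lit 3880) (nat_lit 0) (nat_lit 0) (nat_lit 0x1fff81d22) (nat_lit 268472436),
  Rx.mk (nat_lit 346) (nat_lit 2) (nat_lit 3) (nat_lit 5) (nat_lit 7) (nat_lit 67) (nat_lit 73) r4_67 r3_73 (nat_lit 0) (nat_lit 0) (nat_lit 0) (nat_lit 0x20a4ce8e8) (nat_lit 257901506)]
noncomputable def e4_7 : List Rx := [
  Rx.mk (nat_lit 66) (nat_lit 2) (nat_lit 0) (nat_lit 1) (nat_lit 5) (nat_lit 69) (nat_lit 80) r4_69 r0_80 (nat_lit 0) (nat_lit 3349434) (nat_lit 0) (nat_lit 0x1f4641506) (nat_lit 284310440),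
  Rx.mk (nat_lit 90) (nat_lit 2) (nat_lit 3) (nat_lit 1) (nat_lit 7) (nat_lit 70) (nat_lit 81) r4_70 r0_81 (nat_lit 0) (nat_lit 0) (nat_lit 0) (nat_lit 0x1ea79a466) (nat_lit 291417306),
  Rx.mk (nat_lit 322) (nat_lit 2) (nat_lit 0) (nat_lit 5) (nat_lit 5) (nat_lit 68) (nat_lit 79) r4_68 r0_79 (nat_lit 0) (nat_lit 1637705) (nat_lit 0) (nat_lit 0x17ef1a0fe) (nat_lit 407217261)]
noncomputable def e4_8 : List Rx := [
  Rx.mk (nat_lit 66) (nat_lit 2) (nat_lit 0) (nat_lit 1) (nat_lit 5) (nat_lit 71) (nat_lit 85) r4_71 r1_85 (nat_lit 0) (nat_lit 5269494) (nat_lit 0) (nat_lit 0x203b3f5f8) (nat_lit 270196450),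
  Rx.mk (nat_lit 82) (nat_lit 2) (nat_lit 2) (nat_lit 1) (nat_lit 7) (nat_lit 72) (nat_lit 87) r4_72 r1_87 (nat_lit 0) (nat_lit 0) (nat_lit 0) (nat_lit 0x20bb0eed2) (nat_lit 256701006),
  Rx.mk (nat_lit 90) (nat_lit 2) (nat_lit 3) (nat_lit 1) (nat_lit 7) (nat_lit 73) (nat_lit 86) r4_73 r1_86 (nat_lit 0) (nat_lit 0) (nat_lit 0) (nat_lit 0x2171ac400) (nat_lit 244980606)]
noncomputable def e4_9 : List Rx := [
  Rx.mk (nat_lit 90) (nat_lit 2) (nat_lit 3) (nat_lit 1) (nat_lit 7) (nat_lit 77) (nat_lit 77) r4_77 r4_77 (nat_lit 0) (nat_lit 0) (nat_lit 0) (nat_lit 0x21022be1e) (nat_lit 252138556),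
  Rx.mk (nat_lit 322) (nat_lit 2) (nat_lit 0) (nat_lit 5) (nat_lit 5) (nat_lit 75) (nat_lit 74) r4_75 r4_74 (nat_lit 0) (nat_lit 2416537) (nat_lit 0) (nat_lit 0x1f7937fb4) (nat_lit 279969093),
  Rx.mk (nat_lit 344) (nat_lit 0) (nat_lit 3) (nat_lit 5) (nat_lit 6) (nat_lit 74) (nat_lit 75) r4_74 r4_75 (nat_lit 2416537) (nat_lit 0) (nat_lit 0) (nat_lit 0x1f7937fb4) (nat_lit 279969093),
  Rx.mk (nat_lit 346) (nat_lit 2) (nat_lit 3) (nat_lit 5) (nat_lit 7) (nat_lit 76) (nat_lit 76) r4_76 r4_76 (nat_lit 0) (nat_lit 0) (nat_lit 0) (nat_lit 0x1ff9ad374) (nat_lit 268858306)]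
noncomputable def e4_10 : List Rx := [
  Rx.mk (nat_lit 280) (nat_lit 0) (nat_lit 3) (nat_lit 4) (nat_lit 2) (nat_lit 78) (nat_lit 20) r4_78 r6_20 (nat_lit 310005) (nat_lit 0) (nat_lit 246644) (nat_lit 0x1afb61f3a) (nat_lit 354301405),
  Rx.mk (nat_lit 282) (nat_lit 2) (nat_lit 3) (nat_lit 4) (nat_lit 3) (nat_lit 81) (nat_lit 28) r4_81 r6_28 (nat_lit 0) (nat_lit 0) (nat_lit 16916) (nat_lit 0x17f6c791e) (nat_lit 404986672),
  Rx.mk (nat_lit 283) (nat_lit 3) (nat_lit 3) (nat_lit 4) (nat_lit 3) (nat_lit 87) (nat_lit 23) r4_87 r6_23 (nat_lit 0) (nat_lit 0) (nat_lit 2749214) (nat_lit 0x202479fe4) (nat_lit 269130370),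
  Rx.mk (nat_lit 315) (nat_lit 3) (nat_lit 7) (nat_lit 4) (nat_lit 3) (nat_lit 84) (nat_lit 25) r4_84 r6_25 (nat_lit 0) (nat_lit 0) (nat_lit 1058406) (nat_lit 0x2050f1acc) (nat_lit 264518012),
  Rx.mk (nat_lit 344) (nat_lit 0) (nat_lit 3) (nat_lit 5) (nat_lit 6) (nat_lit 79) (nat_lit 21) r4_79 r6_21 (nat_lit 4160886) (nat_lit 0) (nat_lit 0) (nat_lit 0x201f7800e) (nat_lit 270874342),
  Rx.mk (nat_lit 346) (nat_lit 2) (nat_lit 3) (nat_lit 5) (nat_lit 7) (nat_lit 82) (nat_lit 29) r4_82 r6_29 (nat_lit 0) (nat_lit 0) (nat_lit 0) (nat_lit 0x202553b36) (nat_lit 266272206),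
  Rx.mk (nat_lit 347) (nat_lit 3) (nat_lit 3) (nat_lit 5) (nat_lit 7) (nat_lit 88) (nat_lit 24) r4_88 r6_24 (nat_lit 0) (nat_lit 0) (nat_lit 0) (nat_lit 0x204b40c90) (nat_lit 263901806),
  Rx.mk (nat_lit 379) (nat_lit 3) (nat_lit 7) (nat_lit 5) (nat_lit 7) (nat_lit 85) (nat_lit 26) r4_85 r6_26 (nat_lit 0) (nat_lit 0) (nat_lit 0) (nat_lit 0x20e69a664) (nat_lit 253903856),
  Rx.mk (nat_lit 443) (nat_lit 3) (nat_lit 7) (nat_lit 6) (nat_lit 7) (nat_lit 86) (nat_lit 27) r4_86 r6_27 (nat_lit 0) (nat_lit 0) (nat_lit 0) (nat_lit 0x21165d0ae) (nat_lit 250844706),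
  Rx.mk (nat_lit 472) (nat_lit 0) (nat_lit 3) (nat_lit 7) (nat_lit 6) (nat_lit 80) (nat_lit 22) r4_80 r6_22 (nat_lit 5004731) (nat_lit 0) (nat_lit 0) (nat_lit 0x1f3bedf5a) (nat_lit 286662037),
  Rx.mk (nat_lit 474) (nat_lit 2) (nat_lit 3) (nat_lit 7) (nat_lit 7) (nat_lit 83) (nat_lit 30) r4_83 r6_30 (nat_lit 0) (nat_lit 0) (nat_lit 0) (nat_lit 0x1fe3f67c4) (nat_lit 270531556)]
noncomputable def e4_11 : List Rx := [
  Rx.mk (nat_lit 322) (nat_lit 2) (nat_lit 0) (nat_lit 5) (nat_lit 5) (nat_lit 90) (nat_lit 66) r4_90 r5_66 (nat_lit 0) (nat_lit 2916474) (nat_lit 0) (nat_lit 0x2226061ee) (nat_lit 236350630),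
  Rx.mk (nat_lit 344) (nat_lit 0) (nat_lit 3) (nat_lit 5) (nat_lit 6) (nat_lit 89) (nat_lit 67) r4_89 r5_67 (nat_lit 3291351) (nat_lit 0) (nat_lit 0) (nat_lit 0x2031599e4) (nat_lit 268834057),
  Rx.mk (nat_lit 346) (nat_lit 2) (nat_lit 3) (nat_lit 5) (nat_lit 7) (nat_lit 91) (nat_lit 69) r4_91 r5_69 (nat_lit 0) (nat_lit 0) (nat_lit 0) (nat_lit 0x2159ecde2) (nat_lit 246419306),
  Rx.mk (nat_lit 347) (nat_lit 3) (nat_lit 3) (nat_lit 5) (nat_lit 7) (nat_lit 92) (nat_lit 68) r4_92 r5_68 (nat_lit 0) (nat_lit 0) (nat_lit 0) (nat_lit 0x20c01debe) (nat_lit 256355556)]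
noncomputable def e4_12 : List Rx := [
  Rx.mk (nat_lit 420) (nat_lit 4) (nat_lit 4) (nat_lit 6) (nat_lit 4) (nat_lit 93) (nat_lit 142) r4_93 r0_142 (nat_lit 59176) (nat_lit 52596454) (nat_lit 0) (nat_lit 0x18b3f3b46) (nat_lit 445081686),
  Rx.mk (nat_lit 423) (nat_lit 7) (nat_lit 4) (nat_lit 6) (nat_lit 5) (nat_lit 95) (nat_lit 143) r4_95 r0_143 (nat_lit 0) (nat_lit 33826584) (nat_lit 0) (nat_lit 0x20ad33e2a) (nat_lit 291385790),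
  Rx.mk (nat_lit 436) (nat_lit 4) (nat_lit 6) (nat_lit 6) (nat_lit 6) (nat_lit 94) (nat_lit 145) r4_94 r0_145 (nat_lit 5249002) (nat_lit 0) (nat_lit 0) (nat_lit 0x1fa57fb76) (nat_lit 279949358),
  Rx.mk (nat_lit 439) (nat_lit 7) (nat_lit 6) (nat_lit 6) (nat_lit 7) (nat_lit 96) (nat_lit 146) r4_96 r0_146 (nat_lit 0) (nat_lit 0) (nat_lit 0) (nat_lit 0x20711b0e6) (nat_lit 261457706),
  Rx.mk (nat_lit 447) (nat_lit 7) (nat_lit 7) (nat_lit 6) (nat_lit 7) (nat_lit 97) (nat_lit 144) r4_97 r0_144 (nat_lit 0) (nat_lit 0) (nat_lit 0) (nat_lit 0x202be8910) (nat_lit 265932556)]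
noncomputable def e4_13 : List Rx := [
  Rx.mk (nat_lit 22) (nat_lit 6) (nat_lit 2) (nat_lit 0) (nat_lit 3) (nat_lit 102) (nat_lit 45) r4_102 r7_45 (nat_lit 0) (nat_lit 0) (nat_lit 4579434) (nat_lit 0x20687f63a) (nat_lit 266591390),
  Rx.mk (nat_lit 150) (nat_lit 6) (nat_lit 2) (nat_lit 2) (nat_lit 7) (nat_lit 103) (nat_lit 46) r4_103 r7_46 (nat_lit 0) (nat_lit 0) (nat_lit 0) (nat_lit 0x20056d4f2) (nat_lit 268435456),
  Rx.mk (nat_lit 180) (nat_lit 4) (nat_lit 6) (nat_lit 2) (nat_lit 6) (nat_lit 100) (nat_lit 40) r4_100 r7_40 (nat_lit 5139472) (nat_lit 0) (nat_lit 0) (nat_lit 0x2059555ba) (nat_lit 268128028),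
  Rx.mk (nat_lit 182) (nat_lit 6) (nat_lit 6) (nat_lit 2) (nat_lit 7) (nat_lit 101) (nat_lit 47) r4_101 r7_47 (nat_lit 0) (nat_lit 0) (nat_lit 0) (nat_lit 0x20056d4f2) (nat_lit 268435456),
  Rx.mk (nat_lit 420) (nat_lit 4) (nat_lit 4) (nat_lit 6) (nat_lit 4) (nat_lit 98) (nat_lit 39) r4_98 r7_39 (nat_lit 2266560) (nat_lit 14706363) (nat_lit 0) (nat_lit 0x17dee144e) (nat_lit 423669329),
  Rx.mk (nat_lit 423) (nat_lit 7) (nat_lit 4) (nat_lit 6) (nat_lit 5) (nat_lit 104) (nat_lit 42) r4_104 r7_42 (nat_lit 0) (nat_lit 16012508) (nat_lit 0) (nat_lit 0x1fe4a6b9c) (nat_lit 286568564),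
  Rx.mk (nat_lit 436) (nat_lit 4) (nat_lit 6) (nat_lit 6) (nat_lit 6) (nat_lit 99) (nat_lit 41) r4_99 r7_41 (nat_lit 3138540) (nat_lit 0) (nat_lit 0) (nat_lit 0x1e48aaf0a) (nat_lit 300903146),
  Rx.mk (nat_lit 439) (nat_lit 7) (nat_lit 6) (nat_lit 6) (nat_lit 7) (nat_lit 105) (nat_lit 44) r4_105 r7_44 (nat_lit 0) (nat_lit 0) (nat_lit 0) (nat_lit 0x216fc711c) (nat_lit 245117756),
  Rx.mk (nat_lit 447) (nat_lit 7) (nat_lit 7) (nat_lit 6) (nat_lit 7) (nat_lit 106) (nat_lit 43) r4_106 r7_43 (nat_lit 0) (nat_lit 0) (nat_lit 0) (nat_lit 0x20056d4f2) (nat_lit 268435456)]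
noncomputable def e4_14 : List Rx := [
  Rx.mk (nat_lit 420) (nat_lit 4) (nat_lit 4) (nat_lit 6) (nat_lit 4) (nat_lit 107) (nat_lit 154) r4_107 r1_154 (nat_lit 3083789) (nat_lit 72610807) (nat_lit 0) (nat_lit 0x1da7e785c) (nat_lit 384120802),
  Rx.mk (nat_lit 421) (nat_lit 5) (nat_lit 4) (nat_lit 6) (nat_lit 5) (nat_lit 109) (nat_lit 155) r4_109 r1_155 (nat_lit 0) (nat_lit 10426591) (nat_lit 0) (nat_lit 0x2064ff000) (nat_lit 272663397),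
  Rx.mk (nat_lit 423) (nat_lit 7) (nat_lit 4) (nat_lit 6) (nat_lit 5) (nat_lit 111) (nat_lit 156) r4_111 r1_156 (nat_lit 0) (nat_lit 12447961) (nat_lit 0) (nat_lit 0x209304a72) (nat_lit 271717417),
  Rx.mk (nat_lit 436) (nat_lit 4) (nat_lit 6) (nat_lit 6) (nat_lit 6) (nat_lit 108) (nat_lit 158) r4_108 r1_158 (nat_lit 5176119) (nat_lit 0) (nat_lit 0) (nat_lit 0x1fab3b772) (nat_lit 279503175),
  Rx.mk (nat_lit 437) (nat_lit 5) (nat_lit 6) (nat_lit 6) (nat_lit 7) (nat_lit 110) (nat_lit 159) r4_110 r1_159 (nat_lit 0) (nat_lit 0) (nat_lit 0) (nat_lit 0x207453f38) (nat_lit 261249556),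
  Rx.mk (nat_lit 439) (nat_lit 7) (nat_lit 6) (nat_lit 6) (nat_lit 7) (nat_lit 112) (nat_lit 160) r4_112 r1_160 (nat_lit 0) (nat_lit 0) (nat_lit 0) (nat_lit 0x20610c45c) (nat_lit 262493306),
  Rx.mk (nat_lit 447) (nat_lit 7) (nat_lit 7) (nat_lit 6) (nat_lit 7) (nat_lit 113) (nat_lit 157) r4_113 r1_157 (nat_lit 0) (nat_lit 0) (nat_lit 0) (nat_lit 0x20056d4f2) (nat_lit 268435456)]
noncomputable def e4_15 : List Rx := [
  Rx.mk (nat_lit 150) (nat_lit 6) (nat_lit 2) (nat_lit 2) (nat_lit 7) (nat_lit 121) (nat_lit 56) r4_121 r8_56 (nat_lit 0) (nat_lit 0) (nat_lit 0) (nat_lit 0x20056d4f2) (nat_lit 268435456),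
  Rx.mk (nat_lit 180) (nat_lit 4) (nat_lit 6) (nat_lit 2) (nat_lit 6) (nat_lit 116) (nat_lit 48) r4_116 r8_48 (nat_lit 6335143) (nat_lit 0) (nat_lit 0) (nat_lit 0x203ee26e2) (nat_lit 271036899),
  Rx.mk (nat_lit 181) (nat_lit 5) (nat_lit 6) (nat_lit 2) (nat_lit 7) (nat_lit 119) (nat_lit 51) r4_119 r8_51 (nat_lit 0) (nat_lit 0) (nat_lit 0) (nat_lit 0x2028cb836) (nat_lit 266134506),
  Rx.mk (nat_lit 182) (nat_lit 6) (nat_lit 6) (nat_lit 2) (nat_lit 7) (nat_lit 120) (nat_lit 57) r4_120 r8_57 (nat_lit 0) (nat_lit 0) (nat_lit 0) (nat_lit 0x20056d4f2) (nat_lit 268435456),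
  Rx.mk (nat_lit 420) (nat_lit 4) (nat_lit 4) (nat_lit 6) (nat_lit 4) (nat_lit 114) (nat_lit 47) r4_114 r8_47 (nat_lit 6982043) (nat_lit 11807297) (nat_lit 0) (nat_lit 0x1b19f2d78) (nat_lit 370624546),
  Rx.mk (nat_lit 421) (nat_lit 5) (nat_lit 4) (nat_lit 6) (nat_lit 5) (nat_lit 117) (nat_lit 50) r4_117 r8_50 (nat_lit 0) (nat_lit 9484367) (nat_lit 0) (nat_lit 0x20056d4f2) (nat_lit 277919823),
  Rx.mk (nat_lit 423) (nat_lit 7) (nat_lit 4) (nat_lit 6) (nat_lit 5) (nat_lit 122) (nat_lit 53) r4_122 r8_53 (nat_lit 0) (nat_lit 9484367) (nat_lit 0) (nat_lit 0x20056d4f2) (nat_lit 277919823),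
  Rx.mk (nat_lit 436) (nat_lit 4) (nat_lit 6) (nat_lit 6) (nat_lit 6) (nat_lit 115) (nat_lit 49) r4_115 r8_49 (nat_lit 5122548) (nat_lit 0) (nat_lit 0) (nat_lit 0x20397ba82) (nat_lit 270168654),
  Rx.mk (nat_lit 437) (nat_lit 5) (nat_lit 6) (nat_lit 6) (nat_lit 7) (nat_lit 118) (nat_lit 52) r4_118 r8_52 (nat_lit 0) (nat_lit 0) (nat_lit 0) (nat_lit 0x205b17592) (nat_lit 262878656),
  Rx.mk (nat_lit 439) (nat_lit 7) (nat_lit 6) (nat_lit 6) (nat_lit 7) (nat_lit 123) (nat_lit 55) r4_123 r8_55 (nat_lit 0) (nat_lit 0) (nat_lit 0) (nat_lit 0x205b17592) (nat_lit 262878656),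
  Rx.mk (nat_lit 447) (nat_lit 7) (nat_lit 7) (nat_lit 6) (nat_lit 7) (nat_lit 124) (nat_lit 54) r4_124 r8_54 (nat_lit 0) (nat_lit 0) (nat_lit 0) (nat_lit 0x20056d4f2) (nat_lit 268435456)]
noncomputable def e4_16 : List Rx := [
  Rx.mk (nat_lit 22) (nat_lit 6) (nat_lit 2) (nat_lit 0) (nat_lit 3) (nat_lit 126) (nat_lit 146) r4_126 r8_146 (nat_lit 0) (nat_lit 0) (nat_lit 6858864) (nat_lit 0x2021fa62e) (nat_lit 273435420),
  Rx.mk (nat_lit 150) (nat_lit 6) (nat_lit 2) (nat_lit 2) (nat_lit 7) (nat_lit 127) (nat_lit 148) r4_127 r8_148 (nat_lit 0) (nat_lit 0) (nat_lit 0) (nat_lit 0x20056d4f2) (nat_lit 268435456),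
  Rx.mk (nat_lit 182) (nat_lit 6) (nat_lit 6) (nat_lit 2) (nat_lit 7) (nat_lit 125) (nat_lit 147) r4_125 r8_147 (nat_lit 0) (nat_lit 0) (nat_lit 0) (nat_lit 0x20056d4f2) (nat_lit 268435456)]
noncomputable def e4_17 : List Rx := [
  Rx.mk (nat_lit 22) (nat_lit 6) (nat_lit 2) (nat_lit 0) (nat_lit 3) (nat_lit 128) (nat_lit 15) r4_128 r9_15 (nat_lit 0) (nat_lit 0) (nat_lit 9484367) (nat_lit 0x20056d4f2) (nat_lit 277919823),
  Rx.mk (nat_lit 86) (nat_lit 6) (nat_lit 2) (nat_lit 1) (nat_lit 7) (nat_lit 129) (nat_lit 16) r4_129 r9_16 (nat_lit 0) (nat_lit 0) (nat_lit 0) (nat_lit 0x20056d4f2) (nat_lit 268435456),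
  Rx.mk (nat_lit 150) (nat_lit 6) (nat_lit 2) (nat_lit 2) (nat_lit 7) (nat_lit 130) (nat_lit 17) r4_130 r9_17 (nat_lit 0) (nat_lit 0) (nat_lit 0) (nat_lit 0x20056d4f2) (nat_lit 268435456)]
noncomputable def e4_18 : List Rx := [
  Rx.mk (nat_lit 423) (nat_lit 7) (nat_lit 4) (nat_lit 6) (nat_lit 5) (nat_lit 131) (nat_lit 131) r4_131 r4_131 (nat_lit 0) (nat_lit 91562274) (nat_lit 0) (nat_lit 0x20bd52a90) (nat_lit 348050580),
  Rx.mk (nat_lit 439) (nat_lit 7) (nat_lit 6) (nat_lit 6) (nat_lit 7) (nat_lit 132) (nat_lit 133) r4_132 r4_133 (nat_lit 0) (nat_lit 0) (nat_lit 0) (nat_lit 0x201813200) (nat_lit 267212806),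
  Rx.mk (nat_lit 447) (nat_lit 7) (nat_lit 7) (nat_lit 6) (nat_lit 7) (nat_lit 133) (nat_lit 132) r4_133 r4_132 (nat_lit 0) (nat_lit 0) (nat_lit 0) (nat_lit 0x201813200) (nat_lit 267212806)]
noncomputable def e4_19 : List Rx := [
  Rx.mk (nat_lit 22) (nat_lit 6) (nat_lit 2) (nat_lit 0) (nat_lit 3) (nat_lit 136) (nat_lit 28) r4_136 r10_28 (nat_lit 0) (nat_lit 0) (nat_lit 4132596) (nat_lit 0x208057c3a) (nat_lit 264608002),
  Rx.mk (nat_lit 150) (nat_lit 6) (nat_lit 2) (nat_lit 2) (nat_lit 7) (nat_lit 137) (nat_lit 30) r4_137 r10_30 (nat_lit 0) (nat_lit 0) (nat_lit 0) (nat_lit 0x20056d4f2) (nat_lit 268435456),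
  Rx.mk (nat_lit 180) (nat_lit 4) (nat_lit 6) (nat_lit 2) (nat_lit 6) (nat_lit 134) (nat_lit 23) r4_134 r10_23 (nat_lit 5631477) (nat_lit 0) (nat_lit 0) (nat_lit 0x20462ac74) (nat_lit 269859283),
  Rx.mk (nat_lit 182) (nat_lit 6) (nat_lit 6) (nat_lit 2) (nat_lit 7) (nat_lit 135) (nat_lit 31) r4_135 r10_31 (nat_lit 0) (nat_lit 0) (nat_lit 0) (nat_lit 0x20056d4f2) (nat_lit 268435456),
  Rx.mk (nat_lit 183) (nat_lit 7) (nat_lit 6) (nat_lit 2) (nat_lit 7) (nat_lit 141) (nat_lit 26) r4_141 r10_26 (nat_lit 0) (nat_lit 0) (nat_lit 0) (nat_lit 0x203c0a05a) (nat_lit 264886856),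
  Rx.mk (nat_lit 214) (nat_lit 6) (nat_lit 2) (nat_lit 3) (nat_lit 7) (nat_lit 138) (nat_lit 29) r4_138 r10_29 (nat_lit 0) (nat_lit 0) (nat_lit 0) (nat_lit 0x2035240c4) (nat_lit 265333156),
  Rx.mk (nat_lit 423) (nat_lit 7) (nat_lit 4) (nat_lit 6) (nat_lit 5) (nat_lit 139) (nat_lit 24) r4_139 r10_24 (nat_lit 0) (nat_lit 11521502) (nat_lit 0) (nat_lit 0x1fa406a1a) (nat_lit 286319758),
  Rx.mk (nat_lit 439) (nat_lit 7) (nat_lit 6) (nat_lit 6) (nat_lit 7) (nat_lit 140) (nat_lit 27) r4_140 r10_27 (nat_lit 0) (nat_lit 0) (nat_lit 0) (nat_lit 0x210872eee) (nat_lit 251737006),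
  Rx.mk (nat_lit 447) (nat_lit 7) (nat_lit 7) (nat_lit 6) (nat_lit 7) (nat_lit 142) (nat_lit 25) r4_142 r10_25 (nat_lit 0) (nat_lit 0) (nat_lit 0) (nat_lit 0x20056d4f2) (nat_lit 268435456)]
noncomputable def e4_20 : List Rx := [
  Rx.mk (nat_lit 447) (nat_lit 7) (nat_lit 7) (nat_lit 6) (nat_lit 7) (nat_lit 143) (nat_lit 8) r4_143 r11_8 (nat_lit 0) (nat_lit 0) (nat_lit 0) (nat_lit 0x20056d4f2) (nat_lit 268435456)]
noncomputable def e4_21 : List Rx := [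
  Rx.mk (nat_lit 2) (nat_lit 2) (nat_lit 0) (nat_lit 0) (nat_lit 1) (nat_lit 147) (nat_lit 50) r4_147 r9_50 (nat_lit 0) (nat_lit 8519900) (nat_lit 5621542) (nat_lit 0x1c583434c) (nat_lit 344848848),
  Rx.mk (nat_lit 18) (nat_lit 2) (nat_lit 2) (nat_lit 0) (nat_lit 3) (nat_lit 150) (nat_lit 59) r4_150 r9_59 (nat_lit 0) (nat_lit 0) (nat_lit 9817070) (nat_lit 0x1fee05a9e) (nat_lit 279774476),
  Rx.mk (nat_lit 22) (nat_lit 6) (nat_lit 2) (nat_lit 0) (nat_lit 3) (nat_lit 144) (nat_lit 56) r4_144 r9_56 (nat_lit 0) (nat_lit 0) (nat_lit 9484367) (nat_lit 0x20056d4f2) (nat_lit 277919823),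
  Rx.mk (nat_lit 26) (nat_lit 2) (nat_lit 3) (nat_lit 0) (nat_lit 3) (nat_lit 152) (nat_lit 53) r4_152 r9_53 (nat_lit 0) (nat_lit 0) (nat_lit 9484367) (nat_lit 0x20056d4f2) (nat_lit 277919823),
  Rx.mk (nat_lit 66) (nat_lit 2) (nat_lit 0) (nat_lit 1) (nat_lit 5) (nat_lit 148) (nat_lit 51) r4_148 r9_51 (nat_lit 0) (nat_lit 9484367) (nat_lit 0) (nat_lit 0x20056d4f2) (nat_lit 277919823),
  Rx.mk (nat_lit 74) (nat_lit 2) (nat_lit 1) (nat_lit 1) (nat_lit 7) (nat_lit 149) (nat_lit 52) r4_149 r9_52 (nat_lit 0) (nat_lit 0) (nat_lit 0) (nat_lit 0x20056d4f2) (nat_lit 268435456),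
  Rx.mk (nat_lit 82) (nat_lit 2) (nat_lit 2) (nat_lit 1) (nat_lit 7) (nat_lit 151) (nat_lit 60) r4_151 r9_60 (nat_lit 0) (nat_lit 0) (nat_lit 0) (nat_lit 0x20056d4f2) (nat_lit 268435456),
  Rx.mk (nat_lit 86) (nat_lit 6) (nat_lit 2) (nat_lit 1) (nat_lit 7) (nat_lit 145) (nat_lit 57) r4_145 r9_57 (nat_lit 0) (nat_lit 0) (nat_lit 0) (nat_lit 0x20056d4f2) (nat_lit 268435456),
  Rx.mk (nat_lit 90) (nat_lit 2) (nat_lit 3) (nat_lit 1) (nat_lit 7) (nat_lit 153) (nat_lit 54) r4_153 r9_54 (nat_lit 0) (nat_lit 0) (nat_lit 0) (nat_lit 0x20056d4f2) (nat_lit 268435456),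
  Rx.mk (nat_lit 150) (nat_lit 6) (nat_lit 2) (nat_lit 2) (nat_lit 7) (nat_lit 146) (nat_lit 58) r4_146 r9_58 (nat_lit 0) (nat_lit 0) (nat_lit 0) (nat_lit 0x20056d4f2) (nat_lit 268435456),
  Rx.mk (nat_lit 218) (nat_lit 2) (nat_lit 3) (nat_lit 3) (nat_lit 7) (nat_lit 154) (nat_lit 55) r4_154 r9_55 (nat_lit 0) (nat_lit 0) (nat_lit 0) (nat_lit 0x20056d4f2) (nat_lit 268435456)]
noncomputable def e4_22 : List Rx := [
  Rx.mk (nat_lit 320) (nat_lit 0) (nat_lit 0) (nat_lit 5) (nat_lit 4) (nat_lit 155) (nat_lit 318) r4_155 r0_318 (nat_lit 45897877) (nat_lit 682361) (nat_lit 0) (nat_lit 0x1ac82f784) (nat_lit 403756194),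
  Rx.mk (nat_lit 322) (nat_lit 2) (nat_lit 0) (nat_lit 5) (nat_lit 5) (nat_lit 157) (nat_lit 320) r4_157 r0_320 (nat_lit 0) (nat_lit 3950502) (nat_lit 0) (nat_lit 0x1d80f113a) (nat_lit 314972808),
  Rx.mk (nat_lit 328) (nat_lit 0) (nat_lit 1) (nat_lit 5) (nat_lit 6) (nat_lit 156) (nat_lit 319) r4_156 r0_319 (nat_lit 7646795) (nat_lit 0) (nat_lit 0) (nat_lit 0x1fdee8e30) (nat_lit 278562101),
  Rx.mk (nat_lit 330) (nat_lit 2) (nat_lit 1) (nat_lit 5) (nat_lit 7) (nat_lit 158) (nat_lit 321) r4_158 r0_321 (nat_lit 0) (nat_lit 0) (nat_lit 0) (nat_lit 0x20aa8325c) (nat_lit 257764206)]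
noncomputable def e4_23 : List Rx := [
  Rx.mk (nat_lit 328) (nat_lit 0) (nat_lit 1) (nat_lit 5) (nat_lit 6) (nat_lit 159) (nat_lit 305) r4_159 r1_305 (nat_lit 11745164) (nat_lit 0) (nat_lit 0) (nat_lit 0x1ff78dda0) (nat_lit 281068370),
  Rx.mk (nat_lit 330) (nat_lit 2) (nat_lit 1) (nat_lit 5) (nat_lit 7) (nat_lit 160) (nat_lit 306) r4_160 r1_306 (nat_lit 0) (nat_lit 0) (nat_lit 0) (nat_lit 0x20783377a) (nat_lit 260999956)]
noncomputable def e4_24 : List Rx := [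
  Rx.mk (nat_lit 320) (nat_lit 0) (nat_lit 0) (nat_lit 5) (nat_lit 4) (nat_lit 161) (nat_lit 349) r4_161 r4_349 (nat_lit 16814274) (nat_lit 2370172) (nat_lit 0) (nat_lit 0x1c711fa14) (nat_lit 348210952),
  Rx.mk (nat_lit 322) (nat_lit 2) (nat_lit 0) (nat_lit 5) (nat_lit 5) (nat_lit 164) (nat_lit 352) r4_164 r4_352 (nat_lit 0) (nat_lit 3808292) (nat_lit 0) (nat_lit 0x1ed188994) (nat_lit 292490648),
  Rx.mk (nat_lit 328) (nat_lit 0) (nat_lit 1) (nat_lit 5) (nat_lit 6) (nat_lit 162) (nat_lit 350) r4_162 r4_350 (nat_lit 9484367) (nat_lit 0) (nat_lit 0) (nat_lit 0x209c9256c) (nat_lit 268145023),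
  Rx.mk (nat_lit 330) (nat_lit 2) (nat_lit 1) (nat_lit 5) (nat_lit 7) (nat_lit 165) (nat_lit 353) r4_165 r4_353 (nat_lit 0) (nat_lit 0) (nat_lit 0) (nat_lit 0x2100a3b28) (nat_lit 252236256),
  Rx.mk (nat_lit 344) (nat_lit 0) (nat_lit 3) (nat_lit 5) (nat_lit 6) (nat_lit 163) (nat_lit 351) r4_163 r4_351 (nat_lit 27108786) (nat_lit 0) (nat_lit 0) (nat_lit 0x208caa712) (nat_lit 286756242),
  Rx.mk (nat_lit 346) (nat_lit 2) (nat_lit 3) (nat_lit 5) (nat_lit 7) (nat_lit 166) (nat_lit 354) r4_166 r4_354 (nat_lit 0) (nat_lit 0) (nat_lit 0) (nat_lit 0x20a26e53a) (nat_lit 258270756)]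
noncomputable def e4_25 : List Rx := [
  Rx.mk (nat_lit 66) (nat_lit 2) (nat_lit 0) (nat_lit 1) (nat_lit 5) (nat_lit 170) (nat_lit 73) r4_170 r7_73 (nat_lit 0) (nat_lit 4626214) (nat_lit 0) (nat_lit 0x207ca1424) (nat_lit 265335720),
  Rx.mk (nat_lit 74) (nat_lit 2) (nat_lit 1) (nat_lit 1) (nat_lit 7) (nat_lit 172) (nat_lit 76) r4_172 r7_76 (nat_lit 0) (nat_lit 0) (nat_lit 0) (nat_lit 0x206f820c2) (nat_lit 261563506),
  Rx.mk (nat_lit 90) (nat_lit 2) (nat_lit 3) (nat_lit 1) (nat_lit 7) (nat_lit 173) (nat_lit 77) r4_173 r7_77 (nat_lit 0) (nat_lit 0) (nat_lit 0) (nat_lit 0x206f820c2) (nat_lit 261563506),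
  Rx.mk (nat_lit 320) (nat_lit 0) (nat_lit 0) (nat_lit 5) (nat_lit 4) (nat_lit 167) (nat_lit 71) r4_167 r7_71 (nat_lit 9573033) (nat_lit 3498461) (nat_lit 0) (nat_lit 0x17c42fa88) (nat_lit 421543700),
  Rx.mk (nat_lit 322) (nat_lit 2) (nat_lit 0) (nat_lit 5) (nat_lit 5) (nat_lit 169) (nat_lit 72) r4_169 r7_72 (nat_lit 0) (nat_lit 2514868) (nat_lit 0) (nat_lit 0x1db219e9c) (nat_lit 310255074),
  Rx.mk (nat_lit 328) (nat_lit 0) (nat_lit 1) (nat_lit 5) (nat_lit 6) (nat_lit 168) (nat_lit 74) r4_168 r7_74 (nat_lit 8007799) (nat_lit 0) (nat_lit 0) (nat_lit 0x1fe9cda3a) (nat_lit 278231055),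
  Rx.mk (nat_lit 330) (nat_lit 2) (nat_lit 1) (nat_lit 5) (nat_lit 7) (nat_lit 171) (nat_lit 75) r4_171 r7_75 (nat_lit 0) (nat_lit 0) (nat_lit 0) (nat_lit 0x21766457e) (nat_lit 244694406)]
noncomputable def e4_26 : List Rx := [
  Rx.mk (nat_lit 74) (nat_lit 2) (nat_lit 1) (nat_lit 1) (nat_lit 7) (nat_lit 176) (nat_lit 70) r4_176 r8_70 (nat_lit 0) (nat_lit 0) (nat_lit 0) (nat_lit 0x20056d4f2) (nat_lit 268435456),
  Rx.mk (nat_lit 328) (nat_lit 0) (nat_lit 1) (nat_lit 5) (nat_lit 6) (nat_lit 174) (nat_lit 68) r4_174 r8_68 (nat_lit 6572672) (nat_lit 0) (nat_lit 0) (nat_lit 0x2024e9254) (nat_lit 272956678),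
  Rx.mk (nat_lit 330) (nat_lit 2) (nat_lit 1) (nat_lit 5) (nat_lit 7) (nat_lit 175) (nat_lit 69) r4_175 r8_69 (nat_lit 0) (nat_lit 0) (nat_lit 0) (nat_lit 0x205d0a160) (nat_lit 262752906)]
noncomputable def e4_27 : List Rx := [
  Rx.mk (nat_lit 66) (nat_lit 2) (nat_lit 0) (nat_lit 1) (nat_lit 5) (nat_lit 177) (nat_lit 351) r4_177 r8_351 (nat_lit 0) (nat_lit 7402043) (nat_lit 0) (nat_lit 0x20243408e) (nat_lit 273833849),
  Rx.mk (nat_lit 74) (nat_lit 2) (nat_lit 1) (nat_lit 1) (nat_lit 7) (nat_lit 178) (nat_lit 352) r4_178 r8_352 (nat_lit 0) (nat_lit 0) (nat_lit 0) (nat_lit 0x2018af5f6) (nat_lit 267182206),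
  Rx.mk (nat_lit 82) (nat_lit 2) (nat_lit 2) (nat_lit 1) (nat_lit 7) (nat_lit 179) (nat_lit 354) r4_179 r8_354 (nat_lit 0) (nat_lit 0) (nat_lit 0) (nat_lit 0x20056d4f2) (nat_lit 268435456),
  Rx.mk (nat_lit 90) (nat_lit 2) (nat_lit 3) (nat_lit 1) (nat_lit 7) (nat_lit 180) (nat_lit 353) r4_180 r8_353 (nat_lit 0) (nat_lit 0) (nat_lit 0) (nat_lit 0x2018af5f6) (nat_lit 267182206)]
noncomputable def e4_28 : List Rx := [
  Rx.mk (nat_lit 90) (nat_lit 2) (nat_lit 3) (nat_lit 1) (nat_lit 7) (nat_lit 187) (nat_lit 58) r4_187 r10_58 (nat_lit 0) (nat_lit 0) (nat_lit 0) (nat_lit 0x20542d5ec) (nat_lit 263324306),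
  Rx.mk (nat_lit 320) (nat_lit 0) (nat_lit 0) (nat_lit 5) (nat_lit 4) (nat_lit 181) (nat_lit 52) r4_181 r10_52 (nat_lit 8432825) (nat_lit 2605608) (nat_lit 0) (nat_lit 0x17532ea0a) (nat_lit 427006439),
  Rx.mk (nat_lit 322) (nat_lit 2) (nat_lit 0) (nat_lit 5) (nat_lit 5) (nat_lit 184) (nat_lit 53) r4_184 r10_53 (nat_lit 0) (nat_lit 2776969) (nat_lit 0) (nat_lit 0x1ed7bc590) (nat_lit 291044925),
  Rx.mk (nat_lit 328) (nat_lit 0) (nat_lit 1) (nat_lit 5) (nat_lit 6) (nat_lit 182) (nat_lit 54) r4_182 r10_54 (nat_lit 7691568) (nat_lit 0) (nat_lit 0) (nat_lit 0x205c40dba) (nat_lit 270495974),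
  Rx.mk (nat_lit 330) (nat_lit 2) (nat_lit 1) (nat_lit 5) (nat_lit 7) (nat_lit 185) (nat_lit 55) r4_185 r10_55 (nat_lit 0) (nat_lit 0) (nat_lit 0) (nat_lit 0x2104890bc) (nat_lit 251988106),
  Rx.mk (nat_lit 344) (nat_lit 0) (nat_lit 3) (nat_lit 5) (nat_lit 6) (nat_lit 183) (nat_lit 56) r4_183 r10_56 (nat_lit 7650699) (nat_lit 0) (nat_lit 0) (nat_lit 0x1fef4329e) (nat_lit 277519855),
  Rx.mk (nat_lit 346) (nat_lit 2) (nat_lit 3) (nat_lit 5) (nat_lit 7) (nat_lit 186) (nat_lit 57) r4_186 r10_57 (nat_lit 0) (nat_lit 0) (nat_lit 0) (nat_lit 0x2104890bc) (nat_lit 251988106)]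
noncomputable def e4_29 : List Rx := [
  Rx.mk (nat_lit 320) (nat_lit 0) (nat_lit 0) (nat_lit 5) (nat_lit 4) (nat_lit 188) (nat_lit 46) r4_188 r11_46 (nat_lit 9087707) (nat_lit 13450532) (nat_lit 0) (nat_lit 0x1de99e322) (nat_lit 326619295),
  Rx.mk (nat_lit 322) (nat_lit 2) (nat_lit 0) (nat_lit 5) (nat_lit 5) (nat_lit 191) (nat_lit 47) r4_191 r11_47 (nat_lit 0) (nat_lit 4072853) (nat_lit 0) (nat_lit 0x2052f6c50) (nat_lit 267458109),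
  Rx.mk (nat_lit 328) (nat_lit 0) (nat_lit 1) (nat_lit 5) (nat_lit 6) (nat_lit 189) (nat_lit 48) r4_189 r11_48 (nat_lit 9484367) (nat_lit 0) (nat_lit 0) (nat_lit 0x203eea194) (nat_lit 274185073),
  Rx.mk (nat_lit 330) (nat_lit 2) (nat_lit 1) (nat_lit 5) (nat_lit 7) (nat_lit 192) (nat_lit 49) r4_192 r11_49 (nat_lit 0) (nat_lit 0) (nat_lit 0) (nat_lit 0x209d254d4) (nat_lit 258624606),
  Rx.mk (nat_lit 344) (nat_lit 0) (nat_lit 3) (nat_lit 5) (nat_lit 6) (nat_lit 190) (nat_lit 50) r4_190 r11_50 (nat_lit 9484367) (nat_lit 0) (nat_lit 0) (nat_lit 0x204794204) (nat_lit 273617673),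
  Rx.mk (nat_lit 346) (nat_lit 2) (nat_lit 3) (nat_lit 5) (nat_lit 7) (nat_lit 193) (nat_lit 52) r4_193 r11_52 (nat_lit 0) (nat_lit 0) (nat_lit 0) (nat_lit 0x209d254d4) (nat_lit 258624606),
  Rx.mk (nat_lit 347) (nat_lit 3) (nat_lit 3) (nat_lit 5) (nat_lit 7) (nat_lit 194) (nat_lit 51) r4_194 r11_51 (nat_lit 0) (nat_lit 0) (nat_lit 0) (nat_lit 0x20056d4f2) (nat_lit 268435456)]
noncomputable def e4_30 : List Rx := [
  Rx.mk (nat_lit 291) (nat_lit 3) (nat_lit 4) (nat_lit 4) (nat_lit 1) (nat_lit 200) (nat_lit 124) r4_200 r5_124 (nat_lit 0) (nat_lit 22730) (nat_lit 14824) (nat_lit 0x1b6eb0298) (nat_lit 346080460),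
  Rx.mk (nat_lit 315) (nat_lit 3) (nat_lit 7) (nat_lit 4) (nat_lit 3) (nat_lit 202) (nat_lit 125) r4_202 r5_125 (nat_lit 0) (nat_lit 0) (nat_lit 1728695) (nat_lit 0x212646e0c) (nat_lit 251527401),
  Rx.mk (nat_lit 419) (nat_lit 3) (nat_lit 4) (nat_lit 6) (nat_lit 5) (nat_lit 201) (nat_lit 131) r4_201 r5_131 (nat_lit 0) (nat_lit 2626709) (nat_lit 0) (nat_lit 0x20411bf30) (nat_lit 267138965),
  Rx.mk (nat_lit 423) (nat_lit 7) (nat_lit 4) (nat_lit 6) (nat_lit 5) (nat_lit 195) (nat_lit 130) r4_195 r5_130 (nat_lit 0) (nat_lit 35171213) (nat_lit 0) (nat_lit 0x1fbe12a9e) (nat_lit 308019369),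
  Rx.mk (nat_lit 439) (nat_lit 7) (nat_lit 6) (nat_lit 6) (nat_lit 7) (nat_lit 196) (nat_lit 133) r4_196 r5_133 (nat_lit 0) (nat_lit 0) (nat_lit 0) (nat_lit 0x1fd3566ee) (nat_lit 271687156),
  Rx.mk (nat_lit 443) (nat_lit 3) (nat_lit 7) (nat_lit 6) (nat_lit 7) (nat_lit 203) (nat_lit 132) r4_203 r5_132 (nat_lit 0) (nat_lit 0) (nat_lit 0) (nat_lit 0x2164a85ba) (nat_lit 245825906),
  Rx.mk (nat_lit 472) (nat_lit 0) (nat_lit 3) (nat_lit 7) (nat_lit 6) (nat_lit 198) (nat_lit 128) r4_198 r5_128 (nat_lit 3429448) (nat_lit 0) (nat_lit 0) (nat_lit 0x1ecf9e836) (nat_lit 292245754),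
  Rx.mk (nat_lit 474) (nat_lit 2) (nat_lit 3) (nat_lit 7) (nat_lit 7) (nat_lit 199) (nat_lit 129) r4_199 r5_129 (nat_lit 0) (nat_lit 0) (nat_lit 0) (nat_lit 0x20506a536) (nat_lit 263520456),
  Rx.mk (nat_lit 504) (nat_lit 0) (nat_lit 7) (nat_lit 7) (nat_lit 6) (nat_lit 197) (nat_lit 126) r4_197 r5_126 (nat_lit 4028635) (nat_lit 0) (nat_lit 0) (nat_lit 0x1ef2a41be) (nat_lit 290539191),
  Rx.mk (nat_lit 507) (nat_lit 3) (nat_lit 7) (nat_lit 7) (nat_lit 7) (nat_lit 204) (nat_lit 127) r4_204 r5_127 (nat_lit 0) (nat_lit 0) (nat_lit 0) (nat_lit 0x203895d34) (nat_lit 265111306)]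
noncomputable def e4_31 : List Rx := [
  Rx.mk (nat_lit 183) (nat_lit 7) (nat_lit 6) (nat_lit 2) (nat_lit 7) (nat_lit 207) (nat_lit 136) r4_207 r11_136 (nat_lit 0) (nat_lit 0) (nat_lit 0) (nat_lit 0x237f3a0e8) (nat_lit 211371706),
  Rx.mk (nat_lit 218) (nat_lit 2) (nat_lit 3) (nat_lit 3) (nat_lit 7) (nat_lit 211) (nat_lit 135) r4_211 r11_135 (nat_lit 0) (nat_lit 0) (nat_lit 0) (nat_lit 0x1fe6f86c0) (nat_lit 270325756),
  Rx.mk (nat_lit 291) (nat_lit 3) (nat_lit 4) (nat_lit 4) (nat_lit 1) (nat_lit 212) (nat_lit 125) r4_212 r11_125 (nat_lit 0) (nat_lit 114069) (nat_lit 93913) (nat_lit 0x18dc77932) (nat_lit 389952488),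
  Rx.mk (nat_lit 315) (nat_lit 3) (nat_lit 7) (nat_lit 4) (nat_lit 3) (nat_lit 214) (nat_lit 126) r4_214 r11_126 (nat_lit 0) (nat_lit 0) (nat_lit 2594122) (nat_lit 0x20b7f3572) (nat_lit 259482328),
  Rx.mk (nat_lit 419) (nat_lit 3) (nat_lit 4) (nat_lit 6) (nat_lit 5) (nat_lit 213) (nat_lit 132) r4_213 r11_132 (nat_lit 0) (nat_lit 4563667) (nat_lit 0) (nat_lit 0x207ee5dde) (nat_lit 265122373),
  Rx.mk (nat_lit 423) (nat_lit 7) (nat_lit 4) (nat_lit 6) (nat_lit 5) (nat_lit 205) (nat_lit 131) r4_205 r11_131 (nat_lit 0) (nat_lit 28210373) (nat_lit 0) (nat_lit 0x1fddc38de) (nat_lit 299171679),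
  Rx.mk (nat_lit 439) (nat_lit 7) (nat_lit 6) (nat_lit 6) (nat_lit 7) (nat_lit 206) (nat_lit 134) r4_206 r11_134 (nat_lit 0) (nat_lit 0) (nat_lit 0) (nat_lit 0x1ec93f3dc) (nat_lit 289207506),
  Rx.mk (nat_lit 443) (nat_lit 3) (nat_lit 7) (nat_lit 6) (nat_lit 7) (nat_lit 215) (nat_lit 133) r4_215 r11_133 (nat_lit 0) (nat_lit 0) (nat_lit 0) (nat_lit 0x209d63fb8) (nat_lit 258607956),
  Rx.mk (nat_lit 472) (nat_lit 0) (nat_lit 3) (nat_lit 7) (nat_lit 6) (nat_lit 209) (nat_lit 129) r4_209 r11_129 (nat_lit 5013153) (nat_lit 0) (nat_lit 0) (nat_lit 0x1fa0b627a) (nat_lit 280027459),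
  Rx.mk (nat_lit 474) (nat_lit 2) (nat_lit 3) (nat_lit 7) (nat_lit 7) (nat_lit 210) (nat_lit 130) r4_210 r11_130 (nat_lit 0) (nat_lit 0) (nat_lit 0) (nat_lit 0x21ab9bc6a) (nat_lit 241280906),
  Rx.mk (nat_lit 504) (nat_lit 0) (nat_lit 7) (nat_lit 7) (nat_lit 6) (nat_lit 208) (nat_lit 127) r4_208 r11_127 (nat_lit 3708070) (nat_lit 0) (nat_lit 0) (nat_lit 0x1fd44c490) (nat_lit 275326226),
  Rx.mk (nat_lit 507) (nat_lit 3) (nat_lit 7) (nat_lit 7) (nat_lit 7) (nat_lit 216) (nat_lit 128) r4_216 r11_128 (nat_lit 0) (nat_lit 0) (nat_lit 0) (nat_lit 0x208711c24) (nat_lit 260045256)]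
noncomputable def e4_32 : List Rx := [
  Rx.mk (nat_lit 280) (nat_lit 0) (nat_lit 3) (nat_lit 4) (nat_lit 2) (nat_lit 220) (nat_lit 327) r4_220 r6_327 (nat_lit 1121068) (nat_lit 0) (nat_lit 384025) (nat_lit 0x1a18ab894) (nat_lit 370307349),
  Rx.mk (nat_lit 282) (nat_lit 2) (nat_lit 3) (nat_lit 4) (nat_lit 3) (nat_lit 222) (nat_lit 331) r4_222 r6_331 (nat_lit 0) (nat_lit 0) (nat_lit 10089) (nat_lit 0x13f2068c0) (nat_lit 473251195),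
  Rx.mk (nat_lit 312) (nat_lit 0) (nat_lit 7) (nat_lit 4) (nat_lit 2) (nat_lit 217) (nat_lit 326) r4_217 r6_326 (nat_lit 28090) (nat_lit 0) (nat_lit 18508) (nat_lit 0x1e28033f6) (nat_lit 299811704),
  Rx.mk (nat_lit 344) (nat_lit 0) (nat_lit 3) (nat_lit 5) (nat_lit 6) (nat_lit 221) (nat_lit 329) r4_221 r6_329 (nat_lit 3912689) (nat_lit 0) (nat_lit 0) (nat_lit 0x1f5e74c54) (nat_lit 283278695),
  Rx.mk (nat_lit 346) (nat_lit 2) (nat_lit 3) (nat_lit 5) (nat_lit 7) (nat_lit 223) (nat_lit 332) r4_223 r6_332 (nat_lit 0) (nat_lit 0) (nat_lit 0) (nat_lit 0x1f2a07d68) (nat_lit 282759256),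
  Rx.mk (nat_lit 376) (nat_lit 0) (nat_lit 7) (nat_lit 5) (nat_lit 6) (nat_lit 218) (nat_lit 328) r4_218 r6_328 (nat_lit 3084591) (nat_lit 0) (nat_lit 0) (nat_lit 0x21032fca2) (nat_lit 255139297),
  Rx.mk (nat_lit 440) (nat_lit 0) (nat_lit 7) (nat_lit 6) (nat_lit 6) (nat_lit 219) (nat_lit 330) r4_219 r6_330 (nat_lit 4146434) (nat_lit 0) (nat_lit 0) (nat_lit 0x20bd74802) (nat_lit 260693490)]
noncomputable def e4_33 : List Rx := [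
  Rx.mk (nat_lit 344) (nat_lit 0) (nat_lit 3) (nat_lit 5) (nat_lit 6) (nat_lit 224) (nat_lit 305) r4_224 r5_305 (nat_lit 32184611) (nat_lit 0) (nat_lit 0) (nat_lit 0x1ff911c4e) (nat_lit 301092217),
  Rx.mk (nat_lit 346) (nat_lit 2) (nat_lit 3) (nat_lit 5) (nat_lit 7) (nat_lit 225) (nat_lit 306) r4_225 r5_306 (nat_lit 0) (nat_lit 0) (nat_lit 0) (nat_lit 0x1f2f6a45e) (nat_lit 282376406)]
noncomputable def e4_34 : List Rx := [
  Rx.mk (nat_lit 90) (nat_lit 2) (nat_lit 3) (nat_lit 1) (nat_lit 7) (nat_lit 228) (nat_lit 357) r4_228 r11_357 (nat_lit 0) (nat_lit 0) (nat_lit 0) (nat_lit 0x248c11efa) (nat_lit 194171706),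
  Rx.mk (nat_lit 344) (nat_lit 0) (nat_lit 3) (nat_lit 5) (nat_lit 6) (nat_lit 226) (nat_lit 358) r4_226 r11_358 (nat_lit 6413564) (nat_lit 0) (nat_lit 0) (nat_lit 0x1eec43ba8) (nat_lit 293330520),
  Rx.mk (nat_lit 346) (nat_lit 2) (nat_lit 3) (nat_lit 5) (nat_lit 7) (nat_lit 227) (nat_lit 359) r4_227 r11_359 (nat_lit 0) (nat_lit 0) (nat_lit 0) (nat_lit 0x1f31bdc60) (nat_lit 282264106)]
noncomputable def e4_35 : List Rx := [
  Rx.mk (nat_lit 291) (nat_lit 3) (nat_lit 4) (nat_lit 4) (nat_lit 1) (nat_lit 235) (nat_lit 183) r4_235 r6_183 (nat_lit 0) (nat_lit 6730) (nat_lit 4468) (nat_lit 0x1dc711886) (nat_lit 306205804),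
  Rx.mk (nat_lit 312) (nat_lit 0) (nat_lit 7) (nat_lit 4) (nat_lit 2) (nat_lit 229) (nat_lit 186) r4_229 r6_186 (nat_lit 34287) (nat_lit 0) (nat_lit 28185) (nat_lit 0x1dae6e1a8) (nat_lit 307898128),
  Rx.mk (nat_lit 315) (nat_lit 3) (nat_lit 7) (nat_lit 4) (nat_lit 3) (nat_lit 238) (nat_lit 187) r4_238 r6_187 (nat_lit 0) (nat_lit 0) (nat_lit 1951987) (nat_lit 0x20331c8da) (nat_lit 267370243),
  Rx.mk (nat_lit 355) (nat_lit 3) (nat_lit 4) (nat_lit 5) (nat_lit 5) (nat_lit 236) (nat_lit 184) r4_236 r6_184 (nat_lit 0) (nat_lit 6773533) (nat_lit 0) (nat_lit 0x2033b14e4) (nat_lit 272200839),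
  Rx.mk (nat_lit 376) (nat_lit 0) (nat_lit 7) (nat_lit 5) (nat_lit 6) (nat_lit 230) (nat_lit 188) r4_230 r6_188 (nat_lit 4940583) (nat_lit 0) (nat_lit 0) (nat_lit 0x207c65776) (nat_lit 265672239),
  Rx.mk (nat_lit 379) (nat_lit 3) (nat_lit 7) (nat_lit 5) (nat_lit 7) (nat_lit 239) (nat_lit 189) r4_239 r6_189 (nat_lit 0) (nat_lit 0) (nat_lit 0) (nat_lit 0x2116200aa) (nat_lit 250859506),
  Rx.mk (nat_lit 419) (nat_lit 3) (nat_lit 4) (nat_lit 6) (nat_lit 5) (nat_lit 237) (nat_lit 185) r4_237 r6_185 (nat_lit 0) (nat_lit 2212669) (nat_lit 0) (nat_lit 0x2071e303c) (nat_lit 263588475),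
  Rx.mk (nat_lit 440) (nat_lit 0) (nat_lit 7) (nat_lit 6) (nat_lit 6) (nat_lit 231) (nat_lit 191) r4_231 r6_191 (nat_lit 4487931) (nat_lit 0) (nat_lit 0) (nat_lit 0x209dd549c) (nat_lit 263067837),
  Rx.mk (nat_lit 443) (nat_lit 3) (nat_lit 7) (nat_lit 6) (nat_lit 7) (nat_lit 240) (nat_lit 192) r4_240 r6_192 (nat_lit 0) (nat_lit 0) (nat_lit 0) (nat_lit 0x212e4ad7e) (nat_lit 249311106),
  Rx.mk (nat_lit 472) (nat_lit 0) (nat_lit 3) (nat_lit 7) (nat_lit 6) (nat_lit 233) (nat_lit 181) r4_233 r6_181 (nat_lit 5598281) (nat_lit 0) (nat_lit 0) (nat_lit 0x1e289abde) (nat_lit 305500037),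
  Rx.mk (nat_lit 474) (nat_lit 2) (nat_lit 3) (nat_lit 7) (nat_lit 7) (nat_lit 234) (nat_lit 182) r4_234 r6_182 (nat_lit 0) (nat_lit 0) (nat_lit 0) (nat_lit 0x1fa41fd80) (nat_lit 274732506),
  Rx.mk (nat_lit 504) (nat_lit 0) (nat_lit 7) (nat_lit 7) (nat_lit 6) (nat_lit 232) (nat_lit 190) r4_232 r6_190 (nat_lit 4488278) (nat_lit 0) (nat_lit 0) (nat_lit 0x1fc7820a2) (nat_lit 276951634)]
noncomputable def e4_36 : List Rx := [
  Rx.mk (nat_lit 280) (nat_lit 0) (nat_lit 3) (nat_lit 4) (nat_lit 2) (nat_lit 244) (nat_lit 22) r4_244 r12_22 (nat_lit 194160) (nat_lit 0) (nat_lit 62716) (nat_lit 0x198b63dd8) (nat_lit 378385932),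
  Rx.mk (nat_lit 282) (nat_lit 2) (nat_lit 3) (nat_lit 4) (nat_lit 3) (nat_lit 247) (nat_lit 31) r4_247 r12_31 (nat_lit 0) (nat_lit 0) (nat_lit 9060) (nat_lit 0x162942440) (nat_lit 435605266),
  Rx.mk (nat_lit 312) (nat_lit 0) (nat_lit 7) (nat_lit 4) (nat_lit 2) (nat_lit 241) (nat_lit 25) r4_241 r12_25 (nat_lit 5043) (nat_lit 0) (nat_lit 3283) (nat_lit 0x1dea70778) (nat_lit 303854932),
  Rx.mk (nat_lit 315) (nat_lit 3) (nat_lit 7) (nat_lit 4) (nat_lit 3) (nat_lit 250) (nat_lit 28) r4_250 r12_28 (nat_lit 0) (nat_lit 0) (nat_lit 914600) (nat_lit 0x212e92d2c) (nat_lit 250143256),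
  Rx.mk (nat_lit 344) (nat_lit 0) (nat_lit 3) (nat_lit 5) (nat_lit 6) (nat_lit 245) (nat_lit 23) r4_245 r12_23 (nat_lit 4817469) (nat_lit 0) (nat_lit 0) (nat_lit 0x1f2a53646) (nat_lit 287629275),
  Rx.mk (nat_lit 346) (nat_lit 2) (nat_lit 3) (nat_lit 5) (nat_lit 7) (nat_lit 248) (nat_lit 32) r4_248 r12_32 (nat_lit 0) (nat_lit 0) (nat_lit 0) (nat_lit 0x1f200efe6) (nat_lit 283403706),
  Rx.mk (nat_lit 376) (nat_lit 0) (nat_lit 7) (nat_lit 5) (nat_lit 6) (nat_lit 242) (nat_lit 26) r4_242 r12_26 (nat_lit 2194767) (nat_lit 0) (nat_lit 0) (nat_lit 0x1fb06fb30) (nat_lit 276138523),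
  Rx.mk (nat_lit 379) (nat_lit 3) (nat_lit 7) (nat_lit 5) (nat_lit 7) (nat_lit 251) (nat_lit 29) r4_251 r12_29 (nat_lit 0) (nat_lit 0) (nat_lit 0) (nat_lit 0x215f2f534) (nat_lit 246173406),
  Rx.mk (nat_lit 440) (nat_lit 0) (nat_lit 7) (nat_lit 6) (nat_lit 6) (nat_lit 243) (nat_lit 27) r4_243 r12_27 (nat_lit 3905508) (nat_lit 0) (nat_lit 0) (nat_lit 0x20df7f3b6) (nat_lit 258267614),
  Rx.mk (nat_lit 443) (nat_lit 3) (nat_lit 7) (nat_lit 6) (nat_lit 7) (nat_lit 252) (nat_lit 30) r4_252 r12_30 (nat_lit 0) (nat_lit 0) (nat_lit 0) (nat_lit 0x2184180d0) (nat_lit 243814506),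
  Rx.mk (nat_lit 472) (nat_lit 0) (nat_lit 3) (nat_lit 7) (nat_lit 6) (nat_lit 246) (nat_lit 24) r4_246 r12_24 (nat_lit 5737185) (nat_lit 0) (nat_lit 0) (nat_lit 0x1c7d5f0f4) (nat_lit 333970541),
  Rx.mk (nat_lit 474) (nat_lit 2) (nat_lit 3) (nat_lit 7) (nat_lit 7) (nat_lit 249) (nat_lit 33) r4_249 r12_33 (nat_lit 0) (nat_lit 0) (nat_lit 0) (nat_lit 0x1dddf4940) (nat_lit 304761206)]
noncomputable def e4_37 : List Rx := [
  Rx.mk (nat_lit 289) (nat_lit 1) (nat_lit 4) (nat_lit 4) (nat_lit 1) (nat_lit 256) (nat_lit 309) r4_256 r0_309 (nat_lit 0) (nat_lit 8049828) (nat_lit 14166006) (nat_lit 0x1ae665b5e) (nat_lit 377442740),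
  Rx.mk (nat_lit 296) (nat_lit 0) (nat_lit 5) (nat_lit 4) (nat_lit 2) (nat_lit 253) (nat_lit 306) r4_253 r0_306 (nat_lit 19679101) (nat_lit 0) (nat_lit 3903538) (nat_lit 0x1db7e0f38) (nat_lit 330963295),
  Rx.mk (nat_lit 297) (nat_lit 1) (nat_lit 5) (nat_lit 4) (nat_lit 3) (nat_lit 259) (nat_lit 310) r4_259 r0_310 (nat_lit 0) (nat_lit 0) (nat_lit 8068535) (nat_lit 0x1fcb5274a) (nat_lit 280275941),
  Rx.mk (nat_lit 353) (nat_lit 1) (nat_lit 4) (nat_lit 5) (nat_lit 5) (nat_lit 257) (nat_lit 311) r4_257 r0_311 (nat_lit 0) (nat_lit 10253547) (nat_lit 0) (nat_lit 0x1fe86ff26) (nat_lit 280577553),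
  Rx.mk (nat_lit 360) (nat_lit 0) (nat_lit 5) (nat_lit 5) (nat_lit 6) (nat_lit 254) (nat_lit 307) r4_254 r0_307 (nat_lit 108297310) (nat_lit 0) (nat_lit 0) (nat_lit 0x1ec126d4e) (nat_lit 397937116),
  Rx.mk (nat_lit 361) (nat_lit 1) (nat_lit 5) (nat_lit 5) (nat_lit 7) (nat_lit 260) (nat_lit 312) r4_260 r0_312 (nat_lit 0) (nat_lit 0) (nat_lit 0) (nat_lit 0x20469ff42) (nat_lit 264200756),
  Rx.mk (nat_lit 417) (nat_lit 1) (nat_lit 4) (nat_lit 6) (nat_lit 5) (nat_lit 258) (nat_lit 313) r4_258 r0_313 (nat_lit 0) (nat_lit 5453470) (nat_lit 0) (nat_lit 0x202795156) (nat_lit 271662226),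
  Rx.mk (nat_lit 424) (nat_lit 0) (nat_lit 5) (nat_lit 6) (nat_lit 6) (nat_lit 255) (nat_lit 308) r4_255 r0_308 (nat_lit 12077193) (nat_lit 0) (nat_lit 0) (nat_lit 0x1ffd30320) (nat_lit 281032149),
  Rx.mk (nat_lit 425) (nat_lit 1) (nat_lit 5) (nat_lit 6) (nat_lit 7) (nat_lit 261) (nat_lit 314) r4_261 r0_314 (nat_lit 0) (nat_lit 0) (nat_lit 0) (nat_lit 0x2018d4ea0) (nat_lit 267171456)]
noncomputable def e4_38 : List Rx := [
  Rx.mk (nat_lit 289) (nat_lit 1) (nat_lit 4) (nat_lit 4) (nat_lit 1) (nat_lit 262) (nat_lit 174) r4_262 r0_174 (nat_lit 0) (nat_lit 92582256) (nat_lit 368462) (nat_lit 0x1ba8b9034) (nat_lit 435190624),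
  Rx.mk (nat_lit 353) (nat_lit 1) (nat_lit 4) (nat_lit 5) (nat_lit 5) (nat_lit 263) (nat_lit 175) r4_263 r0_175 (nat_lit 0) (nat_lit 37264364) (nat_lit 0) (nat_lit 0x1f17bb394) (nat_lit 321311370),
  Rx.mk (nat_lit 417) (nat_lit 1) (nat_lit 4) (nat_lit 6) (nat_lit 5) (nat_lit 264) (nat_lit 176) r4_264 r0_176 (nat_lit 0) (nat_lit 105491124) (nat_lit 0) (nat_lit 0x1b7455748) (nat_lit 451196430)]
noncomputable def e4_39 : List Rx := [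
  Rx.mk (nat_lit 289) (nat_lit 1) (nat_lit 4) (nat_lit 4) (nat_lit 1) (nat_lit 265) (nat_lit 416) r4_265 r7_416 (nat_lit 0) (nat_lit 11185874) (nat_lit 9833742) (nat_lit 0x1c93abff6) (nat_lit 347782772),
  Rx.mk (nat_lit 297) (nat_lit 1) (nat_lit 5) (nat_lit 4) (nat_lit 3) (nat_lit 268) (nat_lit 417) r4_268 r7_417 (nat_lit 0) (nat_lit 0) (nat_lit 7236911) (nat_lit 0x2024f415e) (nat_lit 273617967),
  Rx.mk (nat_lit 353) (nat_lit 1) (nat_lit 4) (nat_lit 5) (nat_lit 5) (nat_lit 266) (nat_lit 418) r4_266 r7_418 (nat_lit 0) (nat_lit 9484367) (nat_lit 0) (nat_lit 0x20056d4f2) (nat_lit 277919823),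
  Rx.mk (nat_lit 361) (nat_lit 1) (nat_lit 5) (nat_lit 5) (nat_lit 7) (nat_lit 269) (nat_lit 419) r4_269 r7_419 (nat_lit 0) (nat_lit 0) (nat_lit 0) (nat_lit 0x20056d4f2) (nat_lit 268435456),
  Rx.mk (nat_lit 417) (nat_lit 1) (nat_lit 4) (nat_lit 6) (nat_lit 5) (nat_lit 267) (nat_lit 420) r4_267 r7_420 (nat_lit 0) (nat_lit 7262151) (nat_lit 0) (nat_lit 0x202830002) (nat_lit 273435607),
  Rx.mk (nat_lit 425) (nat_lit 1) (nat_lit 5) (nat_lit 6) (nat_lit 7) (nat_lit 270) (nat_lit 421) r4_270 r7_421 (nat_lit 0) (nat_lit 0) (nat_lit 0) (nat_lit 0x20056d4f2) (nat_lit 268435456)]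
noncomputable def e4_40 : List Rx := [
  Rx.mk (nat_lit 421) (nat_lit 5) (nat_lit 4) (nat_lit 6) (nat_lit 5) (nat_lit 271) (nat_lit 187) r4_271 r2_187 (nat_lit 0) (nat_lit 7861388) (nat_lit 0) (nat_lit 0x2023bea32) (nat_lit 274324344),
  Rx.mk (nat_lit 437) (nat_lit 5) (nat_lit 6) (nat_lit 6) (nat_lit 7) (nat_lit 272) (nat_lit 188) r4_272 r2_188 (nat_lit 0) (nat_lit 0) (nat_lit 0) (nat_lit 0x20204deac) (nat_lit 266687006)]
noncomputable def e4_41 : List Rx := [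
  Rx.mk (nat_lit 421) (nat_lit 5) (nat_lit 4) (nat_lit 6) (nat_lit 5) (nat_lit 273) (nat_lit 167) r4_273 r9_167 (nat_lit 0) (nat_lit 9484367) (nat_lit 0) (nat_lit 0x20056d4f2) (nat_lit 277919823),
  Rx.mk (nat_lit 429) (nat_lit 5) (nat_lit 5) (nat_lit 6) (nat_lit 7) (nat_lit 274) (nat_lit 168) r4_274 r9_168 (nat_lit 0) (nat_lit 0) (nat_lit 0) (nat_lit 0x20056d4f2) (nat_lit 268435456),
  Rx.mk (nat_lit 437) (nat_lit 5) (nat_lit 6) (nat_lit 6) (nat_lit 7) (nat_lit 275) (nat_lit 169) r4_275 r9_169 (nat_lit 0) (nat_lit 0) (nat_lit 0) (nat_lit 0x20056d4f2) (nat_lit 268435456)]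
noncomputable def e4_42 : List Rx := [
  Rx.mk (nat_lit 181) (nat_lit 5) (nat_lit 6) (nat_lit 2) (nat_lit 7) (nat_lit 278) (nat_lit 135) r4_278 r9_135 (nat_lit 0) (nat_lit 0) (nat_lit 0) (nat_lit 0x20056d4f2) (nat_lit 268435456),
  Rx.mk (nat_lit 421) (nat_lit 5) (nat_lit 4) (nat_lit 6) (nat_lit 5) (nat_lit 276) (nat_lit 133) r4_276 r9_133 (nat_lit 0) (nat_lit 10224750) (nat_lit 0) (nat_lit 0x1ff7ec1c0) (nat_lit 279539206),
  Rx.mk (nat_lit 437) (nat_lit 5) (nat_lit 6) (nat_lit 6) (nat_lit 7) (nat_lit 277) (nat_lit 134) r4_277 r9_134 (nat_lit 0) (nat_lit 0) (nat_lit 0) (nat_lit 0x20056d4f2) (nat_lit 268435456)]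
noncomputable def e4_43 : List Rx := [
  Rx.mk (nat_lit 289) (nat_lit 1) (nat_lit 4) (nat_lit 4) (nat_lit 1) (nat_lit 281) (nat_lit 187) r4_281 r1_187 (nat_lit 0) (nat_lit 43539697) (nat_lit 10054617) (nat_lit 0x1c098cc08) (nat_lit 389496620),
  Rx.mk (nat_lit 353) (nat_lit 1) (nat_lit 4) (nat_lit 5) (nat_lit 5) (nat_lit 282) (nat_lit 188) r4_282 r1_188 (nat_lit 0) (nat_lit 9484367) (nat_lit 0) (nat_lit 0x2081e0124) (nat_lit 269861973),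
  Rx.mk (nat_lit 417) (nat_lit 1) (nat_lit 4) (nat_lit 6) (nat_lit 5) (nat_lit 283) (nat_lit 189) r4_283 r1_189 (nat_lit 0) (nat_lit 85522058) (nat_lit 0) (nat_lit 0x1eb239b92) (nat_lit 376236714),
  Rx.mk (nat_lit 421) (nat_lit 5) (nat_lit 4) (nat_lit 6) (nat_lit 5) (nat_lit 279) (nat_lit 190) r4_279 r1_190 (nat_lit 0) (nat_lit 82661556) (nat_lit 0) (nat_lit 0x208f77292) (nat_lit 342133062),
  Rx.mk (nat_lit 437) (nat_lit 5) (nat_lit 6) (nat_lit 6) (nat_lit 7) (nat_lit 280) (nat_lit 191) r4_280 r1_191 (nat_lit 0) (nat_lit 0) (nat_lit 0) (nat_lit 0x210b033f2) (nat_lit 251571006)]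
noncomputable def e4_44 : List Rx := [
  Rx.mk (nat_lit 289) (nat_lit 1) (nat_lit 4) (nat_lit 4) (nat_lit 1) (nat_lit 287) (nat_lit 341) r4_287 r8_341 (nat_lit 0) (nat_lit 12458268) (nat_lit 14567528) (nat_lit 0x1d73a9072) (nat_lit 338947352),
  Rx.mk (nat_lit 297) (nat_lit 1) (nat_lit 5) (nat_lit 4) (nat_lit 3) (nat_lit 290) (nat_lit 342) r4_290 r8_342 (nat_lit 0) (nat_lit 0) (nat_lit 8683363) (nat_lit 0x1fe72858c) (nat_lit 279088869),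
  Rx.mk (nat_lit 353) (nat_lit 1) (nat_lit 4) (nat_lit 5) (nat_lit 5) (nat_lit 288) (nat_lit 343) r4_288 r8_343 (nat_lit 0) (nat_lit 9484367) (nat_lit 0) (nat_lit 0x20056d4f2) (nat_lit 277919823),
  Rx.mk (nat_lit 361) (nat_lit 1) (nat_lit 5) (nat_lit 5) (nat_lit 7) (nat_lit 291) (nat_lit 344) r4_291 r8_344 (nat_lit 0) (nat_lit 0) (nat_lit 0) (nat_lit 0x20056d4f2) (nat_lit 268435456),
  Rx.mk (nat_lit 417) (nat_lit 1) (nat_lit 4) (nat_lit 6) (nat_lit 5) (nat_lit 289) (nat_lit 345) r4_289 r8_345 (nat_lit 0) (nat_lit 9484367) (nat_lit 0) (nat_lit 0x20056d4f2) (nat_lit 277919823),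
  Rx.mk (nat_lit 421) (nat_lit 5) (nat_lit 4) (nat_lit 6) (nat_lit 5) (nat_lit 284) (nat_lit 338) r4_284 r8_338 (nat_lit 0) (nat_lit 9484367) (nat_lit 0) (nat_lit 0x20056d4f2) (nat_lit 277919823),
  Rx.mk (nat_lit 425) (nat_lit 1) (nat_lit 5) (nat_lit 6) (nat_lit 7) (nat_lit 292) (nat_lit 346) r4_292 r8_346 (nat_lit 0) (nat_lit 0) (nat_lit 0) (nat_lit 0x20056d4f2) (nat_lit 268435456),
  Rx.mk (nat_lit 429) (nat_lit 5) (nat_lit 5) (nat_lit 6) (nat_lit 7) (nat_lit 285) (nat_lit 339) r4_285 r8_339 (nat_lit 0) (nat_lit 0) (nat_lit 0) (nat_lit 0x20056d4f2) (nat_lit 268435456),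
  Rx.mk (nat_lit 437) (nat_lit 5) (nat_lit 6) (nat_lit 6) (nat_lit 7) (nat_lit 286) (nat_lit 340) r4_286 r8_340 (nat_lit 0) (nat_lit 0) (nat_lit 0) (nat_lit 0x20056d4f2) (nat_lit 268435456)]
noncomputable def e4_45 : List Rx := [
  Rx.mk (nat_lit 296) (nat_lit 0) (nat_lit 5) (nat_lit 4) (nat_lit 2) (nat_lit 293) (nat_lit 297) r4_293 r1_297 (nat_lit 37486881) (nat_lit 0) (nat_lit 7964941) (nat_lit 0x1e2447636) (nat_lit 345644678),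
  Rx.mk (nat_lit 297) (nat_lit 1) (nat_lit 5) (nat_lit 4) (nat_lit 3) (nat_lit 296) (nat_lit 300) r4_296 r1_300 (nat_lit 0) (nat_lit 0) (nat_lit 8498519) (nat_lit 0x2004215b2) (nat_lit 277012825),
  Rx.mk (nat_lit 360) (nat_lit 0) (nat_lit 5) (nat_lit 5) (nat_lit 6) (nat_lit 294) (nat_lit 298) r4_294 r1_298 (nat_lit 64041447) (nat_lit 0) (nat_lit 0) (nat_lit 0x1ecae2630) (nat_lit 353130703),
  Rx.mk (nat_lit 361) (nat_lit 1) (nat_lit 5) (nat_lit 5) (nat_lit 7) (nat_lit 297) (nat_lit 301) r4_297 r1_301 (nat_lit 0) (nat_lit 0) (nat_lit 0) (nat_lit 0x203c80264) (nat_lit 264857406),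
  Rx.mk (nat_lit 424) (nat_lit 0) (nat_lit 5) (nat_lit 6) (nat_lit 6) (nat_lit 295) (nat_lit 299) r4_295 r1_299 (nat_lit 9484367) (nat_lit 0) (nat_lit 0) (nat_lit 0x204029028) (nat_lit 274104223),
  Rx.mk (nat_lit 425) (nat_lit 1) (nat_lit 5) (nat_lit 6) (nat_lit 7) (nat_lit 298) (nat_lit 302) r4_298 r1_302 (nat_lit 0) (nat_lit 0) (nat_lit 0) (nat_lit 0x201adc162) (nat_lit 267040306)]
noncomputable def e4_46 : List Rx := [
  Rx.mk (nat_lit 328) (nat_lit 0) (nat_lit 1) (nat_lit 5) (nat_lit 6) (nat_lit 300) (nat_lit 335) r4_300 r2_335 (nat_lit 9484367) (nat_lit 0) (nat_lit 0) (nat_lit 0x1ffb19802) (nat_lit 278589723),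
  Rx.mk (nat_lit 329) (nat_lit 1) (nat_lit 1) (nat_lit 5) (nat_lit 7) (nat_lit 302) (nat_lit 337) r4_302 r2_337 (nat_lit 0) (nat_lit 0) (nat_lit 0) (nat_lit 0x20056d4f2) (nat_lit 268435456),
  Rx.mk (nat_lit 330) (nat_lit 2) (nat_lit 1) (nat_lit 5) (nat_lit 7) (nat_lit 303) (nat_lit 338) r4_303 r2_338 (nat_lit 0) (nat_lit 0) (nat_lit 0) (nat_lit 0x20056d4f2) (nat_lit 268435456),
  Rx.mk (nat_lit 360) (nat_lit 0) (nat_lit 5) (nat_lit 5) (nat_lit 6) (nat_lit 299) (nat_lit 334) r4_299 r2_334 (nat_lit 20123259) (nat_lit 0) (nat_lit 0) (nat_lit 0x1f226cc5c) (nat_lit 303492615),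
  Rx.mk (nat_lit 361) (nat_lit 1) (nat_lit 5) (nat_lit 5) (nat_lit 7) (nat_lit 301) (nat_lit 336) r4_301 r2_336 (nat_lit 0) (nat_lit 0) (nat_lit 0) (nat_lit 0x20056d4f2) (nat_lit 268435456)]
noncomputable def e4_47 : List Rx := [
  Rx.mk (nat_lit 297) (nat_lit 1) (nat_lit 5) (nat_lit 4) (nat_lit 3) (nat_lit 304) (nat_lit 181) r4_304 r8_181 (nat_lit 0) (nat_lit 0) (nat_lit 9015295) (nat_lit 0x1fe14e328) (nat_lit 279801251),
  Rx.mk (nat_lit 361) (nat_lit 1) (nat_lit 5) (nat_lit 5) (nat_lit 7) (nat_lit 305) (nat_lit 182) r4_305 r8_182 (nat_lit 0) (nat_lit 0) (nat_lit 0) (nat_lit 0x20056d4f2) (nat_lit 268435456),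
  Rx.mk (nat_lit 425) (nat_lit 1) (nat_lit 5) (nat_lit 6) (nat_lit 7) (nat_lit 306) (nat_lit 183) r4_306 r8_183 (nat_lit 0) (nat_lit 0) (nat_lit 0) (nat_lit 0x20056d4f2) (nat_lit 268435456)]
noncomputable def e4_48 : List Rx := [
  Rx.mk (nat_lit 329) (nat_lit 1) (nat_lit 1) (nat_lit 5) (nat_lit 7) (nat_lit 308) (nat_lit 306) r4_308 r9_306 (nat_lit 0) (nat_lit 0) (nat_lit 0) (nat_lit 0x20056d4f2) (nat_lit 268435456),
  Rx.mk (nat_lit 361) (nat_lit 1) (nat_lit 5) (nat_lit 5) (nat_lit 7) (nat_lit 307) (nat_lit 305) r4_307 r9_305 (nat_lit 0) (nat_lit 0) (nat_lit 0) (nat_lit 0x20056d4f2) (nat_lit 268435456)]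
noncomputable def e4_49 : List Rx := [
  Rx.mk (nat_lit 74) (nat_lit 2) (nat_lit 1) (nat_lit 1) (nat_lit 7) (nat_lit 314) (nat_lit 311) r4_314 r9_311 (nat_lit 0) (nat_lit 0) (nat_lit 0) (nat_lit 0x20056d4f2) (nat_lit 268435456),
  Rx.mk (nat_lit 328) (nat_lit 0) (nat_lit 1) (nat_lit 5) (nat_lit 6) (nat_lit 310) (nat_lit 312) r4_310 r9_312 (nat_lit 12402929) (nat_lit 0) (nat_lit 0) (nat_lit 0x1fa0379e8) (nat_lit 287453885),
  Rx.mk (nat_lit 329) (nat_lit 1) (nat_lit 1) (nat_lit 5) (nat_lit 7) (nat_lit 312) (nat_lit 314) r4_312 r9_314 (nat_lit 0) (nat_lit 0) (nat_lit 0) (nat_lit 0x20056d4f2) (nat_lit 268435456),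
  Rx.mk (nat_lit 330) (nat_lit 2) (nat_lit 1) (nat_lit 5) (nat_lit 7) (nat_lit 313) (nat_lit 316) r4_313 r9_316 (nat_lit 0) (nat_lit 0) (nat_lit 0) (nat_lit 0x20056d4f2) (nat_lit 268435456),
  Rx.mk (nat_lit 360) (nat_lit 0) (nat_lit 5) (nat_lit 5) (nat_lit 6) (nat_lit 309) (nat_lit 313) r4_309 r9_313 (nat_lit 18508221) (nat_lit 0) (nat_lit 0) (nat_lit 0x1ef01d652) (nat_lit 305203127),
  Rx.mk (nat_lit 361) (nat_lit 1) (nat_lit 5) (nat_lit 5) (nat_lit 7) (nat_lit 311) (nat_lit 315) r4_311 r9_315 (nat_lit 0) (nat_lit 0) (nat_lit 0) (nat_lit 0x20056d4f2) (nat_lit 268435456)]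
noncomputable def e4_50 : List Rx := [
  Rx.mk (nat_lit 288) (nat_lit 0) (nat_lit 4) (nat_lit 4) (nat_lit 0) (nat_lit 315) (nat_lit 306) r4_315 r3_306 (nat_lit 362) (nat_lit 409) (nat_lit 263) (nat_lit 0x1c9af6bc6) (nat_lit 326110640),
  Rx.mk (nat_lit 289) (nat_lit 1) (nat_lit 4) (nat_lit 4) (nat_lit 1) (nat_lit 321) (nat_lit 312) r4_321 r3_312 (nat_lit 0) (nat_lit 35577) (nat_lit 28204) (nat_lit 0x1ffd88a16) (nat_lit 268676087),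
  Rx.mk (nat_lit 312) (nat_lit 0) (nat_lit 7) (nat_lit 4) (nat_lit 2) (nat_lit 318) (nat_lit 307) r4_318 r3_307 (nat_lit 74883) (nat_lit 0) (nat_lit 55469) (nat_lit 0x20163f12c) (nat_lit 267168208),
  Rx.mk (nat_lit 313) (nat_lit 1) (nat_lit 7) (nat_lit 4) (nat_lit 3) (nat_lit 324) (nat_lit 313) r4_324 r3_313 (nat_lit 0) (nat_lit 0) (nat_lit 842510) (nat_lit 0x23ced7cd6) (nat_lit 207079016),
  Rx.mk (nat_lit 352) (nat_lit 0) (nat_lit 4) (nat_lit 5) (nat_lit 4) (nat_lit 316) (nat_lit 308) r4_316 r3_308 (nat_lit 31092297) (nat_lit 3231) (nat_lit 0) (nat_lit 0x1ffe32372) (nat_lit 299651134),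
  Rx.mk (nat_lit 353) (nat_lit 1) (nat_lit 4) (nat_lit 5) (nat_lit 5) (nat_lit 322) (nat_lit 314) r4_322 r3_314 (nat_lit 0) (nat_lit 2069679) (nat_lit 0) (nat_lit 0x21a292a24) (nat_lit 243859685),
  Rx.mk (nat_lit 376) (nat_lit 0) (nat_lit 7) (nat_lit 5) (nat_lit 6) (nat_lit 319) (nat_lit 309) r4_319 r3_309 (nat_lit 3290439) (nat_lit 0) (nat_lit 0) (nat_lit 0x20e059a16) (nat_lit 257589895),
  Rx.mk (nat_lit 377) (nat_lit 1) (nat_lit 7) (nat_lit 5) (nat_lit 7) (nat_lit 325) (nat_lit 315) r4_325 r3_315 (nat_lit 0) (nat_lit 0) (nat_lit 0) (nat_lit 0x23a814e14) (nat_lit 208756906),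
  Rx.mk (nat_lit 416) (nat_lit 0) (nat_lit 4) (nat_lit 6) (nat_lit 4) (nat_lit 317) (nat_lit 310) r4_317 r3_310 (nat_lit 4117) (nat_lit 39310829) (nat_lit 0) (nat_lit 0x1ffea47ba) (nat_lit 307841702),
  Rx.mk (nat_lit 417) (nat_lit 1) (nat_lit 4) (nat_lit 6) (nat_lit 5) (nat_lit 323) (nat_lit 316) r4_323 r3_316 (nat_lit 0) (nat_lit 37160743) (nat_lit 0) (nat_lit 0x247de0c14) (nat_lit 232184949),
  Rx.mk (nat_lit 440) (nat_lit 0) (nat_lit 7) (nat_lit 6) (nat_lit 6) (nat_lit 320) (nat_lit 311) r4_320 r3_311 (nat_lit 3023494) (nat_lit 0) (nat_lit 0) (nat_lit 0x216d1c69c) (nat_lit 248304500),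
  Rx.mk (nat_lit 441) (nat_lit 1) (nat_lit 7) (nat_lit 6) (nat_lit 7) (nat_lit 326) (nat_lit 317) r4_326 r3_317 (nat_lit 0) (nat_lit 0) (nat_lit 0) (nat_lit 0x248dd9e36) (nat_lit 194063006)]
noncomputable def e4_51 : List Rx := [
  Rx.mk (nat_lit 288) (nat_lit 0) (nat_lit 4) (nat_lit 4) (nat_lit 0) (nat_lit 327) (nat_lit 327) r4_327 r4_327 (nat_lit 13628308) (nat_lit 2329280) (nat_lit 2329280) (nat_lit 0x1ada51b10) (nat_lit 374324924),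
  Rx.mk (nat_lit 289) (nat_lit 1) (nat_lit 4) (nat_lit 4) (nat_lit 1) (nat_lit 335) (nat_lit 335) r4_335 r4_335 (nat_lit 0) (nat_lit 12489784) (nat_lit 12489784) (nat_lit 0x1f491d57c) (nat_lit 305785124),
  Rx.mk (nat_lit 296) (nat_lit 0) (nat_lit 5) (nat_lit 4) (nat_lit 2) (nat_lit 330) (nat_lit 328) r4_330 r4_328 (nat_lit 41605855) (nat_lit 0) (nat_lit 2358590) (nat_lit 0x1ddb8beba) (nat_lit 348957151),
  Rx.mk (nat_lit 297) (nat_lit 1) (nat_lit 5) (nat_lit 4) (nat_lit 3) (nat_lit 338) (nat_lit 336) r4_338 r4_336 (nat_lit 0) (nat_lit 0) (nat_lit 8271951) (nat_lit 0x20169ac70) (nat_lit 275588707),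
  Rx.mk (nat_lit 312) (nat_lit 0) (nat_lit 7) (nat_lit 4) (nat_lit 2) (nat_lit 333) (nat_lit 329) r4_333 r4_329 (nat_lit 10081816) (nat_lit 0) (nat_lit 9702246) (nat_lit 0x1ee93239c) (nat_lit 306935668),
  Rx.mk (nat_lit 313) (nat_lit 1) (nat_lit 7) (nat_lit 4) (nat_lit 3) (nat_lit 341) (nat_lit 337) r4_341 r4_337 (nat_lit 0) (nat_lit 0) (nat_lit 7586844) (nat_lit 0x204ffae34) (nat_lit 271180050),
  Rx.mk (nat_lit 352) (nat_lit 0) (nat_lit 4) (nat_lit 5) (nat_lit 4) (nat_lit 328) (nat_lit 330) r4_328 r4_330 (nat_lit 41605855) (nat_lit 2358590) (nat_lit 0) (nat_lit 0x1ddb8beba) (nat_lit 348957151),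
  Rx.mk (nat_lit 353) (nat_lit 1) (nat_lit 4) (nat_lit 5) (nat_lit 5) (nat_lit 336) (nat_lit 338) r4_336 r4_338 (nat_lit 0) (nat_lit 8271951) (nat_lit 0) (nat_lit 0x20169ac70) (nat_lit 275588707),
  Rx.mk (nat_lit 360) (nat_lit 0) (nat_lit 5) (nat_lit 5) (nat_lit 6) (nat_lit 331) (nat_lit 331) r4_331 r4_331 (nat_lit 10939224) (nat_lit 0) (nat_lit 0) (nat_lit 0x203016320) (nat_lit 276586330),
  Rx.mk (nat_lit 361) (nat_lit 1) (nat_lit 5) (nat_lit 5) (nat_lit 7) (nat_lit 339) (nat_lit 339) r4_339 r4_339 (nat_lit 0) (nat_lit 0) (nat_lit 0) (nat_lit 0x20056d4f2) (nat_lit 268435456),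
  Rx.mk (nat_lit 376) (nat_lit 0) (nat_lit 7) (nat_lit 5) (nat_lit 6) (nat_lit 334) (nat_lit 332) r4_334 r4_332 (nat_lit 9484367) (nat_lit 0) (nat_lit 0) (nat_lit 0x2062e149e) (nat_lit 271859423),
  Rx.mk (nat_lit 377) (nat_lit 1) (nat_lit 7) (nat_lit 5) (nat_lit 7) (nat_lit 342) (nat_lit 340) r4_342 r4_340 (nat_lit 0) (nat_lit 0) (nat_lit 0) (nat_lit 0x20056d4f2) (nat_lit 268435456),
  Rx.mk (nat_lit 416) (nat_lit 0) (nat_lit 4) (nat_lit 6) (nat_lit 4) (nat_lit 329) (nat_lit 333) r4_329 r4_333 (nat_lit 10081816) (nat_lit 9702246) (nat_lit 0) (nat_lit 0x1ee93239c) (nat_lit 306935668),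
  Rx.mk (nat_lit 417) (nat_lit 1) (nat_lit 4) (nat_lit 6) (nat_lit 5) (nat_lit 337) (nat_lit 341) r4_337 r4_341 (nat_lit 0) (nat_lit 7586844) (nat_lit 0) (nat_lit 0x204ffae34) (nat_lit 271180050),
  Rx.mk (nat_lit 424) (nat_lit 0) (nat_lit 5) (nat_lit 6) (nat_lit 6) (nat_lit 332) (nat_lit 334) r4_332 r4_334 (nat_lit 9484367) (nat_lit 0) (nat_lit 0) (nat_lit 0x2062e149e) (nat_lit 271859423),
  Rx.mk (nat_lit 425) (nat_lit 1) (nat_lit 5) (nat_lit 6) (nat_lit 7) (nat_lit 340) (nat_lit 342) r4_340 r4_342 (nat_lit 0) (nat_lit 0) (nat_lit 0) (nat_lit 0x20056d4f2) (nat_lit 268435456)]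
noncomputable def e4_52 : List Rx := [
  Rx.mk (nat_lit 312) (nat_lit 0) (nat_lit 7) (nat_lit 4) (nat_lit 2) (nat_lit 343) (nat_lit 297) r4_343 r5_297 (nat_lit 2829909) (nat_lit 0) (nat_lit 1630600) (nat_lit 0x1f1f7fb3e) (nat_lit 287983015),
  Rx.mk (nat_lit 313) (nat_lit 1) (nat_lit 7) (nat_lit 4) (nat_lit 3) (nat_lit 346) (nat_lit 300) r4_346 r5_300 (nat_lit 0) (nat_lit 0) (nat_lit 1488829) (nat_lit 0x2343fab2c) (nat_lit 216631535),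
  Rx.mk (nat_lit 376) (nat_lit 0) (nat_lit 7) (nat_lit 5) (nat_lit 6) (nat_lit 344) (nat_lit 298) r4_344 r5_298 (nat_lit 5067943) (nat_lit 0) (nat_lit 0) (nat_lit 0x208029ee8) (nat_lit 265551549),
  Rx.mk (nat_lit 377) (nat_lit 1) (nat_lit 7) (nat_lit 5) (nat_lit 7) (nat_lit 347) (nat_lit 301) r4_347 r5_301 (nat_lit 0) (nat_lit 0) (nat_lit 0) (nat_lit 0x23ee27712) (nat_lit 204275256),
  Rx.mk (nat_lit 440) (nat_lit 0) (nat_lit 7) (nat_lit 6) (nat_lit 6) (nat_lit 345) (nat_lit 299) r4_345 r5_299 (nat_lit 5455800) (nat_lit 0) (nat_lit 0) (nat_lit 0x205d92fb0) (nat_lit 268173056),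
  Rx.mk (nat_lit 441) (nat_lit 1) (nat_lit 7) (nat_lit 6) (nat_lit 7) (nat_lit 348) (nat_lit 302) r4_348 r5_302 (nat_lit 0) (nat_lit 0) (nat_lit 0) (nat_lit 0x20e0a1280) (nat_lit 254288556)]
noncomputable def e4_53 : List Rx := [
  Rx.mk (nat_lit 289) (nat_lit 1) (nat_lit 4) (nat_lit 4) (nat_lit 1) (nat_lit 349) (nat_lit 161) r4_349 r4_161 (nat_lit 0) (nat_lit 16814274) (nat_lit 2370172) (nat_lit 0x1c711fa14) (nat_lit 348210952),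
  Rx.mk (nat_lit 313) (nat_lit 1) (nat_lit 7) (nat_lit 4) (nat_lit 3) (nat_lit 352) (nat_lit 164) r4_352 r4_164 (nat_lit 0) (nat_lit 0) (nat_lit 3808292) (nat_lit 0x1ed188994) (nat_lit 292490648),
  Rx.mk (nat_lit 353) (nat_lit 1) (nat_lit 4) (nat_lit 5) (nat_lit 5) (nat_lit 350) (nat_lit 162) r4_350 r4_162 (nat_lit 0) (nat_lit 9484367) (nat_lit 0) (nat_lit 0x209c9256c) (nat_lit 268145023),
  Rx.mk (nat_lit 377) (nat_lit 1) (nat_lit 7) (nat_lit 5) (nat_lit 7) (nat_lit 353) (nat_lit 165) r4_353 r4_165 (nat_lit 0) (nat_lit 0) (nat_lit 0) (nat_lit 0x2100a3b28) (nat_lit 252236256),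
  Rx.mk (nat_lit 417) (nat_lit 1) (nat_lit 4) (nat_lit 6) (nat_lit 5) (nat_lit 351) (nat_lit 163) r4_351 r4_163 (nat_lit 0) (nat_lit 27108786) (nat_lit 0) (nat_lit 0x208caa712) (nat_lit 286756242),
  Rx.mk (nat_lit 441) (nat_lit 1) (nat_lit 7) (nat_lit 6) (nat_lit 7) (nat_lit 354) (nat_lit 166) r4_354 r4_166 (nat_lit 0) (nat_lit 0) (nat_lit 0) (nat_lit 0x20a26e53a) (nat_lit 258270756)]
noncomputable def e4_54 : List Rx := [
  Rx.mk (nat_lit 289) (nat_lit 1) (nat_lit 4) (nat_lit 4) (nat_lit 1) (nat_lit 355) (nat_lit 339) r4_355 r10_339 (nat_lit 0) (nat_lit 11803392) (nat_lit 9177885) (nat_lit 0x1c1522bbc) (nat_lit 356144783),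
  Rx.mk (nat_lit 297) (nat_lit 1) (nat_lit 5) (nat_lit 4) (nat_lit 3) (nat_lit 358) (nat_lit 340) r4_358 r10_340 (nat_lit 0) (nat_lit 0) (nat_lit 6732829) (nat_lit 0x2042a019e) (nat_lit 271193535),
  Rx.mk (nat_lit 313) (nat_lit 1) (nat_lit 7) (nat_lit 4) (nat_lit 3) (nat_lit 361) (nat_lit 341) r4_361 r10_341 (nat_lit 0) (nat_lit 0) (nat_lit 9484367) (nat_lit 0x2043d17e8) (nat_lit 273866873),
  Rx.mk (nat_lit 353) (nat_lit 1) (nat_lit 4) (nat_lit 5) (nat_lit 5) (nat_lit 356) (nat_lit 342) r4_356 r10_342 (nat_lit 0) (nat_lit 9484367) (nat_lit 0) (nat_lit 0x20056d4f2) (nat_lit 277919823),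
  Rx.mk (nat_lit 361) (nat_lit 1) (nat_lit 5) (nat_lit 5) (nat_lit 7) (nat_lit 359) (nat_lit 343) r4_359 r10_343 (nat_lit 0) (nat_lit 0) (nat_lit 0) (nat_lit 0x20056d4f2) (nat_lit 268435456),
  Rx.mk (nat_lit 377) (nat_lit 1) (nat_lit 7) (nat_lit 5) (nat_lit 7) (nat_lit 362) (nat_lit 344) r4_362 r10_344 (nat_lit 0) (nat_lit 0) (nat_lit 0) (nat_lit 0x20056d4f2) (nat_lit 268435456),
  Rx.mk (nat_lit 417) (nat_lit 1) (nat_lit 4) (nat_lit 6) (nat_lit 5) (nat_lit 357) (nat_lit 345) r4_357 r10_345 (nat_lit 0) (nat_lit 7299409) (nat_lit 0) (nat_lit 0x201db5762) (nat_lit 274149815),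
  Rx.mk (nat_lit 425) (nat_lit 1) (nat_lit 5) (nat_lit 6) (nat_lit 7) (nat_lit 360) (nat_lit 346) r4_360 r10_346 (nat_lit 0) (nat_lit 0) (nat_lit 0) (nat_lit 0x20056d4f2) (nat_lit 268435456)]
noncomputable def e4_55 : List Rx := [
  Rx.mk (nat_lit 313) (nat_lit 1) (nat_lit 7) (nat_lit 4) (nat_lit 3) (nat_lit 363) (nat_lit 353) r4_363 r11_353 (nat_lit 0) (nat_lit 0) (nat_lit 6585305) (nat_lit 0x1ff9fa1ba) (nat_lit 275752861),
  Rx.mk (nat_lit 377) (nat_lit 1) (nat_lit 7) (nat_lit 5) (nat_lit 7) (nat_lit 364) (nat_lit 354) r4_364 r11_354 (nat_lit 0) (nat_lit 0) (nat_lit 0) (nat_lit 0x20397dc42) (nat_lit 265051356),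
  Rx.mk (nat_lit 441) (nat_lit 1) (nat_lit 7) (nat_lit 6) (nat_lit 7) (nat_lit 365) (nat_lit 355) r4_365 r11_355 (nat_lit 0) (nat_lit 0) (nat_lit 0) (nat_lit 0x201abfb48) (nat_lit 267040156)]
noncomputable def e4_56 : List Rx := [
  Rx.mk (nat_lit 288) (nat_lit 0) (nat_lit 4) (nat_lit 4) (nat_lit 0) (nat_lit 366) (nat_lit 169) r4_366 r5_169 (nat_lit 1351592) (nat_lit 2981321) (nat_lit 674726) (nat_lit 0x1b53851d0) (nat_lit 352950595),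
  Rx.mk (nat_lit 289) (nat_lit 1) (nat_lit 4) (nat_lit 4) (nat_lit 1) (nat_lit 373) (nat_lit 170) r4_373 r5_170 (nat_lit 0) (nat_lit 38809431) (nat_lit 4532932) (nat_lit 0x1fce329ce) (nat_lit 315363169),
  Rx.mk (nat_lit 291) (nat_lit 3) (nat_lit 4) (nat_lit 4) (nat_lit 1) (nat_lit 378) (nat_lit 171) r4_378 r5_171 (nat_lit 0) (nat_lit 9685368) (nat_lit 6155268) (nat_lit 0x1f20b2376) (nat_lit 299308042),
  Rx.mk (nat_lit 312) (nat_lit 0) (nat_lit 7) (nat_lit 4) (nat_lit 2) (nat_lit 369) (nat_lit 177) r4_369 r5_177 (nat_lit 3705404) (nat_lit 0) (nat_lit 2340078) (nat_lit 0x1e55f6bfa) (nat_lit 302920538),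
  Rx.mk (nat_lit 313) (nat_lit 1) (nat_lit 7) (nat_lit 4) (nat_lit 3) (nat_lit 375) (nat_lit 178) r4_375 r5_178 (nat_lit 0) (nat_lit 0) (nat_lit 3896666) (nat_lit 0x20b0ba580) (nat_lit 261256572),
  Rx.mk (nat_lit 352) (nat_lit 0) (nat_lit 4) (nat_lit 5) (nat_lit 4) (nat_lit 367) (nat_lit 172) r4_367 r5_172 (nat_lit 11151044) (nat_lit 10414740) (nat_lit 0) (nat_lit 0x1ef3ec184) (nat_lit 308008240),
  Rx.mk (nat_lit 355) (nat_lit 3) (nat_lit 4) (nat_lit 5) (nat_lit 5) (nat_lit 379) (nat_lit 173) r4_379 r5_173 (nat_lit 0) (nat_lit 9484367) (nat_lit 0) (nat_lit 0x20056d4f2) (nat_lit 277919823),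
  Rx.mk (nat_lit 376) (nat_lit 0) (nat_lit 7) (nat_lit 5) (nat_lit 6) (nat_lit 370) (nat_lit 179) r4_370 r5_179 (nat_lit 4809072) (nat_lit 0) (nat_lit 0) (nat_lit 0x205bf4d3e) (nat_lit 267626778),
  Rx.mk (nat_lit 416) (nat_lit 0) (nat_lit 4) (nat_lit 6) (nat_lit 4) (nat_lit 368) (nat_lit 174) r4_368 r5_174 (nat_lit 3221189) (nat_lit 29864572) (nat_lit 0) (nat_lit 0x1f4815300) (nat_lit 313919367),
  Rx.mk (nat_lit 417) (nat_lit 1) (nat_lit 4) (nat_lit 6) (nat_lit 5) (nat_lit 374) (nat_lit 175) r4_374 r5_175 (nat_lit 0) (nat_lit 16446383) (nat_lit 0) (nat_lit 0x204e043c8) (nat_lit 280156089),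
  Rx.mk (nat_lit 419) (nat_lit 3) (nat_lit 4) (nat_lit 6) (nat_lit 5) (nat_lit 380) (nat_lit 176) r4_380 r5_176 (nat_lit 0) (nat_lit 9484367) (nat_lit 0) (nat_lit 0x209868072) (nat_lit 268412773),
  Rx.mk (nat_lit 440) (nat_lit 0) (nat_lit 7) (nat_lit 6) (nat_lit 6) (nat_lit 371) (nat_lit 182) r4_371 r5_182 (nat_lit 4740330) (nat_lit 0) (nat_lit 0) (nat_lit 0x2086d7fe2) (nat_lit 264798036),
  Rx.mk (nat_lit 441) (nat_lit 1) (nat_lit 7) (nat_lit 6) (nat_lit 7) (nat_lit 376) (nat_lit 183) r4_376 r5_183 (nat_lit 0) (nat_lit 0) (nat_lit 0) (nat_lit 0x2086d6930) (nat_lit 260059156),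
  Rx.mk (nat_lit 504) (nat_lit 0) (nat_lit 7) (nat_lit 7) (nat_lit 6) (nat_lit 372) (nat_lit 180) r4_372 r5_180 (nat_lit 9484367) (nat_lit 0) (nat_lit 0) (nat_lit 0x1f98f7552) (nat_lit 285019823),
  Rx.mk (nat_lit 505) (nat_lit 1) (nat_lit 7) (nat_lit 7) (nat_lit 7) (nat_lit 377) (nat_lit 181) r4_377 r5_181 (nat_lit 0) (nat_lit 0) (nat_lit 0) (nat_lit 0x20274896e) (nat_lit 266232306)]
noncomputable def e4_57 : List Rx := [
  Rx.mk (nat_lit 288) (nat_lit 0) (nat_lit 4) (nat_lit 4) (nat_lit 0) (nat_lit 381) (nat_lit 191) r4_381 r11_191 (nat_lit 11636049) (nat_lit 4629243) (nat_lit 5259995) (nat_lit 0x18a059702) (nat_lit 415395343),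
  Rx.mk (nat_lit 289) (nat_lit 1) (nat_lit 4) (nat_lit 4) (nat_lit 1) (nat_lit 390) (nat_lit 192) r4_390 r11_192 (nat_lit 0) (nat_lit 31250710) (nat_lit 7182901) (nat_lit 0x1f1542e96) (nat_lit 322664317),
  Rx.mk (nat_lit 291) (nat_lit 3) (nat_lit 4) (nat_lit 4) (nat_lit 1) (nat_lit 396) (nat_lit 193) r4_396 r11_193 (nat_lit 0) (nat_lit 10634033) (nat_lit 12144670) (nat_lit 0x1f90f139e) (nat_lit 298845159),
  Rx.mk (nat_lit 296) (nat_lit 0) (nat_lit 5) (nat_lit 4) (nat_lit 2) (nat_lit 384) (nat_lit 199) r4_384 r11_199 (nat_lit 24962579) (nat_lit 0) (nat_lit 5972934) (nat_lit 0x1efa7961e) (nat_lit 316939569),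
  Rx.mk (nat_lit 297) (nat_lit 1) (nat_lit 5) (nat_lit 4) (nat_lit 3) (nat_lit 392) (nat_lit 200) r4_392 r11_200 (nat_lit 0) (nat_lit 0) (nat_lit 9484367) (nat_lit 0x20056d4f2) (nat_lit 277919823),
  Rx.mk (nat_lit 299) (nat_lit 3) (nat_lit 5) (nat_lit 4) (nat_lit 3) (nat_lit 399) (nat_lit 201) r4_399 r11_201 (nat_lit 0) (nat_lit 0) (nat_lit 9484367) (nat_lit 0x20056d4f2) (nat_lit 277919823),
  Rx.mk (nat_lit 312) (nat_lit 0) (nat_lit 7) (nat_lit 4) (nat_lit 2) (nat_lit 387) (nat_lit 207) r4_387 r11_207 (nat_lit 14112324) (nat_lit 0) (nat_lit 9191551) (nat_lit 0x1ed0dc766) (nat_lit 312067131),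
  Rx.mk (nat_lit 313) (nat_lit 1) (nat_lit 7) (nat_lit 4) (nat_lit 3) (nat_lit 394) (nat_lit 208) r4_394 r11_208 (nat_lit 0) (nat_lit 0) (nat_lit 9484367) (nat_lit 0x20056d4f2) (nat_lit 277919823),
  Rx.mk (nat_lit 352) (nat_lit 0) (nat_lit 4) (nat_lit 5) (nat_lit 4) (nat_lit 382) (nat_lit 194) r4_382 r11_194 (nat_lit 12001047) (nat_lit 8266185) (nat_lit 0) (nat_lit 0x1fde50518) (nat_lit 291249688),
  Rx.mk (nat_lit 355) (nat_lit 3) (nat_lit 4) (nat_lit 5) (nat_lit 5) (nat_lit 397) (nat_lit 195) r4_397 r11_195 (nat_lit 0) (nat_lit 9484367) (nat_lit 0) (nat_lit 0x20056d4f2) (nat_lit 277919823),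
  Rx.mk (nat_lit 360) (nat_lit 0) (nat_lit 5) (nat_lit 5) (nat_lit 6) (nat_lit 385) (nat_lit 202) r4_385 r11_202 (nat_lit 11215696) (nat_lit 0) (nat_lit 0) (nat_lit 0x1f7d24aa0) (nat_lit 288594902),
  Rx.mk (nat_lit 363) (nat_lit 3) (nat_lit 5) (nat_lit 5) (nat_lit 7) (nat_lit 400) (nat_lit 203) r4_400 r11_203 (nat_lit 0) (nat_lit 0) (nat_lit 0) (nat_lit 0x20056d4f2) (nat_lit 268435456),
  Rx.mk (nat_lit 376) (nat_lit 0) (nat_lit 7) (nat_lit 5) (nat_lit 6) (nat_lit 388) (nat_lit 209) r4_388 r11_209 (nat_lit 9484367) (nat_lit 0) (nat_lit 0) (nat_lit 0x20176d5a8) (nat_lit 276747473),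
  Rx.mk (nat_lit 416) (nat_lit 0) (nat_lit 4) (nat_lit 6) (nat_lit 4) (nat_lit 383) (nat_lit 196) r4_383 r11_196 (nat_lit 11364595) (nat_lit 12835839) (nat_lit 0) (nat_lit 0x1f2c2c2a6) (nat_lit 306926390),
  Rx.mk (nat_lit 417) (nat_lit 1) (nat_lit 4) (nat_lit 6) (nat_lit 5) (nat_lit 391) (nat_lit 197) r4_391 r11_197 (nat_lit 0) (nat_lit 9484367) (nat_lit 0) (nat_lit 0x20056d4f2) (nat_lit 277919823),
  Rx.mk (nat_lit 419) (nat_lit 3) (nat_lit 4) (nat_lit 6) (nat_lit 5) (nat_lit 398) (nat_lit 198) r4_398 r11_198 (nat_lit 0) (nat_lit 9484367) (nat_lit 0) (nat_lit 0x20056d4f2) (nat_lit 277919823),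
  Rx.mk (nat_lit 424) (nat_lit 0) (nat_lit 5) (nat_lit 6) (nat_lit 6) (nat_lit 386) (nat_lit 204) r4_386 r11_204 (nat_lit 9484367) (nat_lit 0) (nat_lit 0) (nat_lit 0x20056d4f2) (nat_lit 277919823),
  Rx.mk (nat_lit 425) (nat_lit 1) (nat_lit 5) (nat_lit 6) (nat_lit 7) (nat_lit 393) (nat_lit 205) r4_393 r11_205 (nat_lit 0) (nat_lit 0) (nat_lit 0) (nat_lit 0x20056d4f2) (nat_lit 268435456),
  Rx.mk (nat_lit 427) (nat_lit 3) (nat_lit 5) (nat_lit 6) (nat_lit 7) (nat_lit 401) (nat_lit 206) r4_401 r11_206 (nat_lit 0) (nat_lit 0) (nat_lit 0) (nat_lit 0x20056d4f2) (nat_lit 268435456),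
  Rx.mk (nat_lit 504) (nat_lit 0) (nat_lit 7) (nat_lit 7) (nat_lit 6) (nat_lit 389) (nat_lit 210) r4_389 r11_210 (nat_lit 9484367) (nat_lit 0) (nat_lit 0) (nat_lit 0x20176df08) (nat_lit 276747323),
  Rx.mk (nat_lit 505) (nat_lit 1) (nat_lit 7) (nat_lit 7) (nat_lit 7) (nat_lit 395) (nat_lit 211) r4_395 r11_211 (nat_lit 0) (nat_lit 0) (nat_lit 0) (nat_lit 0x20056d4f2) (nat_lit 268435456)]
noncomputable def e4 : List (List Rx) := [e4_0, e4_1, e4_2, e4_3, e4_4, e4_5, e4_6, e4_7, e4_8, e4_9, e4_10, e4_11, e4_12, e4_13, e4_14, e4_15, e4_16, e4_17, e4_18, e4_19, e4_20, e4_21, e4_22, e4_23, e4_24, e4_25, e4_26, e4_27, e4_28, e4_29, e4_30, e4_31, e4_32, e4_33, e4_34, e4_35, e4_36, e4_37, e4_38, e4_39, e4_40, e4_41, e4_42, e4_43, e4_44, e4_45, e4_46, e4_47, e4_48, e4_49, e4_50, e4_51, e4_52, e4_53, e4_54, e4_55, e4_56, e4_57]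
noncomputable def e5_0 : List Rx := [
  Rx.mk (nat_lit 18) (nat_lit 2) (nat_lit 2) (nat_lit 0) (nat_lit 3) (nat_lit 4) (nat_lit 65) r5_4 r0_65 (nat_lit 0) (nat_lit 0) (nat_lit 1047232) (nat_lit 0x1fe6eb86c) (nat_lit 271393488),
  Rx.mk (nat_lit 22) (nat_lit 6) (nat_lit 2) (nat_lit 0) (nat_lit 3) (nat_lit 3) (nat_lit 68) r5_3 r0_68 (nat_lit 0) (nat_lit 0) (nat_lit 1465966) (nat_lit 0x1f26316d0) (nat_lit 284523272),
  Rx.mk (nat_lit 54) (nat_lit 6) (nat_lit 6) (nat_lit 0) (nat_lit 3) (nat_lit 1) (nat_lit 69) r5_1 r0_69 (nat_lit 0) (nat_lit 0) (nat_lit 1213772) (nat_lit 0x1e3ce063e) (nat_lit 299727878),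
  Rx.mk (nat_lit 180) (nat_lit 4) (nat_lit 6) (nat_lit 2) (nat_lit 6) (nat_lit 0) (nat_lit 67) r5_0 r0_67 (nat_lit 1224594) (nat_lit 0) (nat_lit 0) (nat_lit 0x1f6cdf3ac) (nat_lit 279582800),
  Rx.mk (nat_lit 182) (nat_lit 6) (nat_lit 6) (nat_lit 2) (nat_lit 7) (nat_lit 2) (nat_lit 70) r5_2 r0_70 (nat_lit 0) (nat_lit 0) (nat_lit 0) (nat_lit 0x1f8e71664) (nat_lit 276218956),
  Rx.mk (nat_lit 210) (nat_lit 2) (nat_lit 2) (nat_lit 3) (nat_lit 7) (nat_lit 5) (nat_lit 66) r5_5 r0_66 (nat_lit 0) (nat_lit 0) (nat_lit 0) (nat_lit 0x2076d9fbe) (nat_lit 261082156)]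
noncomputable def e5_1 : List Rx := [
  Rx.mk (nat_lit 18) (nat_lit 2) (nat_lit 2) (nat_lit 0) (nat_lit 3) (nat_lit 11) (nat_lit 58) r5_11 r1_58 (nat_lit 0) (nat_lit 0) (nat_lit 1941131) (nat_lit 0x1f2be95a0) (nat_lit 284641187),
  Rx.mk (nat_lit 22) (nat_lit 6) (nat_lit 2) (nat_lit 0) (nat_lit 3) (nat_lit 9) (nat_lit 61) r5_9 r1_61 (nat_lit 0) (nat_lit 0) (nat_lit 1772773) (nat_lit 0x1fd3538a4) (nat_lit 273424379),
  Rx.mk (nat_lit 54) (nat_lit 6) (nat_lit 6) (nat_lit 0) (nat_lit 3) (nat_lit 6) (nat_lit 63) r5_6 r1_63 (nat_lit 0) (nat_lit 0) (nat_lit 2086460) (nat_lit 0x1d06deeba) (nat_lit 321185666),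
  Rx.mk (nat_lit 82) (nat_lit 2) (nat_lit 2) (nat_lit 1) (nat_lit 7) (nat_lit 12) (nat_lit 59) r5_12 r1_59 (nat_lit 0) (nat_lit 0) (nat_lit 0) (nat_lit 0x225850dde) (nat_lit 230233306),
  Rx.mk (nat_lit 86) (nat_lit 6) (nat_lit 2) (nat_lit 1) (nat_lit 7) (nat_lit 10) (nat_lit 62) r5_10 r1_62 (nat_lit 0) (nat_lit 0) (nat_lit 0) (nat_lit 0x21704db40) (nat_lit 245082656),
  Rx.mk (nat_lit 118) (nat_lit 6) (nat_lit 6) (nat_lit 1) (nat_lit 7) (nat_lit 7) (nat_lit 64) r5_7 r1_64 (nat_lit 0) (nat_lit 0) (nat_lit 0) (nat_lit 0x1fca880e4) (nat_lit 272277656),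
  Rx.mk (nat_lit 182) (nat_lit 6) (nat_lit 6) (nat_lit 2) (nat_lit 7) (nat_lit 8) (nat_lit 65) r5_8 r1_65 (nat_lit 0) (nat_lit 0) (nat_lit 0) (nat_lit 0x1ff97277e) (nat_lit 269205106),
  Rx.mk (nat_lit 210) (nat_lit 2) (nat_lit 2) (nat_lit 3) (nat_lit 7) (nat_lit 13) (nat_lit 60) r5_13 r1_60 (nat_lit 0) (nat_lit 0) (nat_lit 0) (nat_lit 0x207c318cc) (nat_lit 260737856)]
noncomputable def e5_2 : List Rx := [
  Rx.mk (nat_lit 82) (nat_lit 2) (nat_lit 2) (nat_lit 1) (nat_lit 7) (nat_lit 15) (nat_lit 57) r5_15 r2_57 (nat_lit 0) (nat_lit 0) (nat_lit 0) (nat_lit 0x20716b122) (nat_lit 261438406),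
  Rx.mk (nat_lit 86) (nat_lit 6) (nat_lit 2) (nat_lit 1) (nat_lit 7) (nat_lit 14) (nat_lit 58) r5_14 r2_58 (nat_lit 0) (nat_lit 0) (nat_lit 0) (nat_lit 0x20056d4f2) (nat_lit 268435456)]
noncomputable def e5_3 : List Rx := [
  Rx.mk (nat_lit 22) (nat_lit 6) (nat_lit 2) (nat_lit 0) (nat_lit 3) (nat_lit 19) (nat_lit 57) r5_19 r3_57 (nat_lit 0) (nat_lit 0) (nat_lit 457992) (nat_lit 0x1e69bb6fe) (nat_lit 295933898),
  Rx.mk (nat_lit 54) (nat_lit 6) (nat_lit 6) (nat_lit 0) (nat_lit 3) (nat_lit 17) (nat_lit 59) r5_17 r3_59 (nat_lit 0) (nat_lit 0) (nat_lit 3677) (nat_lit 0x1dae134ce) (nat_lit 307856233),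
  Rx.mk (nat_lit 167) (nat_lit 7) (nat_lit 4) (nat_lit 2) (nat_lit 5) (nat_lit 22) (nat_lit 53) r5_22 r3_53 (nat_lit 0) (nat_lit 28683) (nat_lit 0) (nat_lit 0x1e4abb916) (nat_lit 297488589),
  Rx.mk (nat_lit 180) (nat_lit 4) (nat_lit 6) (nat_lit 2) (nat_lit 6) (nat_lit 16) (nat_lit 52) r5_16 r3_52 (nat_lit 7113) (nat_lit 0) (nat_lit 0) (nat_lit 0x1eab7e4d8) (nat_lit 291042819),
  Rx.mk (nat_lit 182) (nat_lit 6) (nat_lit 6) (nat_lit 2) (nat_lit 7) (nat_lit 18) (nat_lit 60) r5_18 r3_60 (nat_lit 0) (nat_lit 0) (nat_lit 0) (nat_lit 0x1f4f76ad6) (nat_lit 280383406),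
  Rx.mk (nat_lit 183) (nat_lit 7) (nat_lit 6) (nat_lit 2) (nat_lit 7) (nat_lit 23) (nat_lit 56) r5_23 r3_56 (nat_lit 0) (nat_lit 0) (nat_lit 0) (nat_lit 0x23b717e98) (nat_lit 207752956),
  Rx.mk (nat_lit 210) (nat_lit 2) (nat_lit 2) (nat_lit 3) (nat_lit 7) (nat_lit 25) (nat_lit 51) r5_25 r3_51 (nat_lit 0) (nat_lit 0) (nat_lit 0) (nat_lit 0x1e999e650) (nat_lit 292310856),
  Rx.mk (nat_lit 214) (nat_lit 6) (nat_lit 2) (nat_lit 3) (nat_lit 7) (nat_lit 20) (nat_lit 58) r5_20 r3_58 (nat_lit 0) (nat_lit 0) (nat_lit 0) (nat_lit 0x2388b5c58) (nat_lit 210709306),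
  Rx.mk (nat_lit 423) (nat_lit 7) (nat_lit 4) (nat_lit 6) (nat_lit 5) (nat_lit 21) (nat_lit 54) r5_21 r3_54 (nat_lit 0) (nat_lit 1687) (nat_lit 0) (nat_lit 0x2008240a6) (nat_lit 267916793),
  Rx.mk (nat_lit 443) (nat_lit 3) (nat_lit 7) (nat_lit 6) (nat_lit 7) (nat_lit 26) (nat_lit 50) r5_26 r3_50 (nat_lit 0) (nat_lit 0) (nat_lit 0) (nat_lit 0x2138cf966) (nat_lit 248572906),
  Rx.mk (nat_lit 447) (nat_lit 7) (nat_lit 7) (nat_lit 6) (nat_lit 7) (nat_lit 24) (nat_lit 55) r5_24 r3_55 (nat_lit 0) (nat_lit 0) (nat_lit 0) (nat_lit 0x1f67f1bd8) (nat_lit 278752756)]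
noncomputable def e5_4 : List Rx := [
  Rx.mk (nat_lit 22) (nat_lit 6) (nat_lit 2) (nat_lit 0) (nat_lit 3) (nat_lit 30) (nat_lit 61) r5_30 r4_61 (nat_lit 0) (nat_lit 0) (nat_lit 778696) (nat_lit 0x1fccaaaa2) (nat_lit 272787352),
  Rx.mk (nat_lit 54) (nat_lit 6) (nat_lit 6) (nat_lit 0) (nat_lit 3) (nat_lit 28) (nat_lit 63) r5_28 r4_63 (nat_lit 0) (nat_lit 0) (nat_lit 1531150) (nat_lit 0x205a66e5e) (nat_lit 264400706),
  Rx.mk (nat_lit 180) (nat_lit 4) (nat_lit 6) (nat_lit 2) (nat_lit 6) (nat_lit 27) (nat_lit 59) r5_27 r4_59 (nat_lit 1604258) (nat_lit 0) (nat_lit 0) (nat_lit 0x204f6230a) (nat_lit 265174264),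
  Rx.mk (nat_lit 182) (nat_lit 6) (nat_lit 6) (nat_lit 2) (nat_lit 7) (nat_lit 29) (nat_lit 64) r5_29 r4_64 (nat_lit 0) (nat_lit 0) (nat_lit 0) (nat_lit 0x204c994ac) (nat_lit 263809306),
  Rx.mk (nat_lit 183) (nat_lit 7) (nat_lit 6) (nat_lit 2) (nat_lit 7) (nat_lit 32) (nat_lit 60) r5_32 r4_60 (nat_lit 0) (nat_lit 0) (nat_lit 0) (nat_lit 0x21c130f12) (nat_lit 239832756),
  Rx.mk (nat_lit 210) (nat_lit 2) (nat_lit 2) (nat_lit 3) (nat_lit 7) (nat_lit 33) (nat_lit 58) r5_33 r4_58 (nat_lit 0) (nat_lit 0) (nat_lit 0) (nat_lit 0x20a42a0e0) (nat_lit 258152756),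
  Rx.mk (nat_lit 214) (nat_lit 6) (nat_lit 2) (nat_lit 3) (nat_lit 7) (nat_lit 31) (nat_lit 62) r5_31 r4_62 (nat_lit 0) (nat_lit 0) (nat_lit 0) (nat_lit 0x2245df4b6) (nat_lit 231408706)]
noncomputable def e5_5 : List Rx := [
  Rx.mk (nat_lit 54) (nat_lit 6) (nat_lit 6) (nat_lit 0) (nat_lit 3) (nat_lit 35) (nat_lit 49) r5_35 r5_49 (nat_lit 0) (nat_lit 0) (nat_lit 20744) (nat_lit 0x1b2ee083e) (nat_lit 350300000),
  Rx.mk (nat_lit 167) (nat_lit 7) (nat_lit 4) (nat_lit 2) (nat_lit 5) (nat_lit 39) (nat_lit 44) r5_39 r5_44 (nat_lit 0) (nat_lit 21920) (nat_lit 0) (nat_lit 0x1b919759a) (nat_lit 343750026),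
  Rx.mk (nat_lit 180) (nat_lit 4) (nat_lit 6) (nat_lit 2) (nat_lit 6) (nat_lit 34) (nat_lit 43) r5_34 r5_43 (nat_lit 1096) (nat_lit 0) (nat_lit 0) (nat_lit 0x200054632) (nat_lit 268416052),
  Rx.mk (nat_lit 182) (nat_lit 6) (nat_lit 6) (nat_lit 2) (nat_lit 7) (nat_lit 36) (nat_lit 51) r5_36 r5_51 (nat_lit 0) (nat_lit 0) (nat_lit 0) (nat_lit 0x1f622d972) (nat_lit 279130556),
  Rx.mk (nat_lit 183) (nat_lit 7) (nat_lit 6) (nat_lit 2) (nat_lit 7) (nat_lit 40) (nat_lit 47) r5_40 r5_47 (nat_lit 0) (nat_lit 0) (nat_lit 0) (nat_lit 0x256d58224) (nat_lit 179614306),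
  Rx.mk (nat_lit 191) (nat_lit 7) (nat_lit 7) (nat_lit 2) (nat_lit 7) (nat_lit 42) (nat_lit 45) r5_42 r5_45 (nat_lit 0) (nat_lit 0) (nat_lit 0) (nat_lit 0x1fb5dd81a) (nat_lit 273593206),
  Rx.mk (nat_lit 210) (nat_lit 2) (nat_lit 2) (nat_lit 3) (nat_lit 7) (nat_lit 46) (nat_lit 41) r5_46 r5_41 (nat_lit 0) (nat_lit 0) (nat_lit 0) (nat_lit 0x1f702ccda) (nat_lit 278018456),
  Rx.mk (nat_lit 214) (nat_lit 6) (nat_lit 2) (nat_lit 3) (nat_lit 7) (nat_lit 38) (nat_lit 48) r5_38 r5_48 (nat_lit 0) (nat_lit 0) (nat_lit 0) (nat_lit 0x1ddeac19e) (nat_lit 304648556),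
  Rx.mk (nat_lit 246) (nat_lit 6) (nat_lit 6) (nat_lit 3) (nat_lit 7) (nat_lit 37) (nat_lit 50) r5_37 r5_50 (nat_lit 0) (nat_lit 0) (nat_lit 0) (nat_lit 0x1ddf2cf10) (nat_lit 304713356),
  Rx.mk (nat_lit 283) (nat_lit 3) (nat_lit 3) (nat_lit 4) (nat_lit 3) (nat_lit 49) (nat_lit 35) r5_49 r5_35 (nat_lit 0) (nat_lit 0) (nat_lit 20744) (nat_lit 0x1b2ee083e) (nat_lit 350300000),
  Rx.mk (nat_lit 411) (nat_lit 3) (nat_lit 3) (nat_lit 6) (nat_lit 7) (nat_lit 50) (nat_lit 37) r5_50 r5_37 (nat_lit 0) (nat_lit 0) (nat_lit 0) (nat_lit 0x1ddf2cf10) (nat_lit 304713356),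
  Rx.mk (nat_lit 443) (nat_lit 3) (nat_lit 7) (nat_lit 6) (nat_lit 7) (nat_lit 48) (nat_lit 38) r5_48 r5_38 (nat_lit 0) (nat_lit 0) (nat_lit 0) (nat_lit 0x1ddeac19e) (nat_lit 304648556),
  Rx.mk (nat_lit 447) (nat_lit 7) (nat_lit 7) (nat_lit 6) (nat_lit 7) (nat_lit 41) (nat_lit 46) r5_41 r5_46 (nat_lit 0) (nat_lit 0) (nat_lit 0) (nat_lit 0x1f702ccda) (nat_lit 278018456),
  Rx.mk (nat_lit 450) (nat_lit 2) (nat_lit 0) (nat_lit 7) (nat_lit 5) (nat_lit 44) (nat_lit 39) r5_44 r5_39 (nat_lit 0) (nat_lit 21920) (nat_lit 0) (nat_lit 0x1b919759a) (nat_lit 343750026),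
  Rx.mk (nat_lit 466) (nat_lit 2) (nat_lit 2) (nat_lit 7) (nat_lit 7) (nat_lit 45) (nat_lit 42) r5_45 r5_42 (nat_lit 0) (nat_lit 0) (nat_lit 0) (nat_lit 0x1fb5dd81a) (nat_lit 273593206),
  Rx.mk (nat_lit 472) (nat_lit 0) (nat_lit 3) (nat_lit 7) (nat_lit 6) (nat_lit 43) (nat_lit 34) r5_43 r5_34 (nat_lit 1096) (nat_lit 0) (nat_lit 0) (nat_lit 0x200054632) (nat_lit 268416052),
  Rx.mk (nat_lit 474) (nat_lit 2) (nat_lit 3) (nat_lit 7) (nat_lit 7) (nat_lit 47) (nat_lit 40) r5_47 r5_40 (nat_lit 0) (nat_lit 0) (nat_lit 0) (nat_lit 0x256d58224) (nat_lit 179614306),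
  Rx.mk (nat_lit 475) (nat_lit 3) (nat_lit 3) (nat_lit 7) (nat_lit 7) (nat_lit 51) (nat_lit 36) r5_51 r5_36 (nat_lit 0) (nat_lit 0) (nat_lit 0) (nat_lit 0x1f622d972) (nat_lit 279130556)]
noncomputable def e5_6 : List Rx := [
  Rx.mk (nat_lit 258) (nat_lit 2) (nat_lit 0) (nat_lit 4) (nat_lit 1) (nat_lit 55) (nat_lit 82) r5_55 r3_82 (nat_lit 0) (nat_lit 727) (nat_lit 537) (nat_lit 0x1fffeb498) (nat_lit 268443170),
  Rx.mk (nat_lit 274) (nat_lit 2) (nat_lit 2) (nat_lit 4) (nat_lit 3) (nat_lit 57) (nat_lit 89) r5_57 r3_89 (nat_lit 0) (nat_lit 0) (nat_lit 16821) (nat_lit 0x1fa9c646e) (nat_lit 274180777),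
  Rx.mk (nat_lit 280) (nat_lit 0) (nat_lit 3) (nat_lit 4) (nat_lit 2) (nat_lit 52) (nat_lit 84) r5_52 r3_84 (nat_lit 453) (nat_lit 0) (nat_lit 258) (nat_lit 0x2026c85fc) (nat_lit 265956667),
  Rx.mk (nat_lit 282) (nat_lit 2) (nat_lit 3) (nat_lit 4) (nat_lit 3) (nat_lit 59) (nat_lit 87) r5_59 r3_87 (nat_lit 0) (nat_lit 0) (nat_lit 100796) (nat_lit 0x2354a6494) (nat_lit 214054002),
  Rx.mk (nat_lit 322) (nat_lit 2) (nat_lit 0) (nat_lit 5) (nat_lit 5) (nat_lit 56) (nat_lit 83) r5_56 r3_83 (nat_lit 0) (nat_lit 1086599) (nat_lit 0) (nat_lit 0x1fdbcccba) (nat_lit 272115455),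
  Rx.mk (nat_lit 338) (nat_lit 2) (nat_lit 2) (nat_lit 5) (nat_lit 7) (nat_lit 58) (nat_lit 90) r5_58 r3_90 (nat_lit 0) (nat_lit 0) (nat_lit 0) (nat_lit 0x1fe92629e) (nat_lit 270260906),
  Rx.mk (nat_lit 344) (nat_lit 0) (nat_lit 3) (nat_lit 5) (nat_lit 6) (nat_lit 53) (nat_lit 85) r5_53 r3_85 (nat_lit 2979975) (nat_lit 0) (nat_lit 0) (nat_lit 0x213beb226) (nat_lit 251350281),
  Rx.mk (nat_lit 346) (nat_lit 2) (nat_lit 3) (nat_lit 5) (nat_lit 7) (nat_lit 60) (nat_lit 88) r5_60 r3_88 (nat_lit 0) (nat_lit 0) (nat_lit 0) (nat_lit 0x2902c0a5c) (nat_lit 121105656),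
  Rx.mk (nat_lit 408) (nat_lit 0) (nat_lit 3) (nat_lit 6) (nat_lit 6) (nat_lit 54) (nat_lit 86) r5_54 r3_86 (nat_lit 5945273) (nat_lit 0) (nat_lit 0) (nat_lit 0x23166282c) (nat_lit 223904929)]
noncomputable def e5_7 : List Rx := [
  Rx.mk (nat_lit 322) (nat_lit 2) (nat_lit 0) (nat_lit 5) (nat_lit 5) (nat_lit 61) (nat_lit 89) r5_61 r0_89 (nat_lit 0) (nat_lit 4504495) (nat_lit 0) (nat_lit 0x1f3e5221e) (nat_lit 285962751),
  Rx.mk (nat_lit 338) (nat_lit 2) (nat_lit 2) (nat_lit 5) (nat_lit 7) (nat_lit 62) (nat_lit 90) r5_62 r0_90 (nat_lit 0) (nat_lit 0) (nat_lit 0) (nat_lit 0x21429c962) (nat_lit 247994206)]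
noncomputable def e5_8 : List Rx := [
  Rx.mk (nat_lit 82) (nat_lit 2) (nat_lit 2) (nat_lit 1) (nat_lit 7) (nat_lit 65) (nat_lit 93) r5_65 r1_93 (nat_lit 0) (nat_lit 0) (nat_lit 0) (nat_lit 0x20a154dfc) (nat_lit 258345706),
  Rx.mk (nat_lit 322) (nat_lit 2) (nat_lit 0) (nat_lit 5) (nat_lit 5) (nat_lit 63) (nat_lit 91) r5_63 r1_91 (nat_lit 0) (nat_lit 3091615) (nat_lit 0) (nat_lit 0x1ff9c654a) (nat_lit 272221871),
  Rx.mk (nat_lit 338) (nat_lit 2) (nat_lit 2) (nat_lit 5) (nat_lit 7) (nat_lit 64) (nat_lit 92) r5_64 r1_92 (nat_lit 0) (nat_lit 0) (nat_lit 0) (nat_lit 0x20bb69ae4) (nat_lit 256621956)]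
noncomputable def e5_9 : List Rx := [
  Rx.mk (nat_lit 322) (nat_lit 2) (nat_lit 0) (nat_lit 5) (nat_lit 5) (nat_lit 67) (nat_lit 89) r5_67 r4_89 (nat_lit 0) (nat_lit 3291351) (nat_lit 0) (nat_lit 0x2031599e4) (nat_lit 268834057),
  Rx.mk (nat_lit 338) (nat_lit 2) (nat_lit 2) (nat_lit 5) (nat_lit 7) (nat_lit 68) (nat_lit 92) r5_68 r4_92 (nat_lit 0) (nat_lit 0) (nat_lit 0) (nat_lit 0x20c01debe) (nat_lit 256355556),
  Rx.mk (nat_lit 344) (nat_lit 0) (nat_lit 3) (nat_lit 5) (nat_lit 6) (nat_lit 66) (nat_lit 90) r5_66 r4_90 (nat_lit 2916474) (nat_lit 0) (nat_lit 0) (nat_lit 0x2226061ee) (nat_lit 236350630),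
  Rx.mk (nat_lit 346) (nat_lit 2) (nat_lit 3) (nat_lit 5) (nat_lit 7) (nat_lit 69) (nat_lit 91) r5_69 r4_91 (nat_lit 0) (nat_lit 0) (nat_lit 0) (nat_lit 0x2159ecde2) (nat_lit 246419306)]
noncomputable def e5_10 : List Rx := [
  Rx.mk (nat_lit 280) (nat_lit 0) (nat_lit 3) (nat_lit 4) (nat_lit 2) (nat_lit 70) (nat_lit 31) r5_70 r6_31 (nat_lit 15951) (nat_lit 0) (nat_lit 11306) (nat_lit 0x1f4e5ad46) (nat_lit 280256113),
  Rx.mk (nat_lit 282) (nat_lit 2) (nat_lit 3) (nat_lit 4) (nat_lit 3) (nat_lit 75) (nat_lit 38) r5_75 r6_38 (nat_lit 0) (nat_lit 0) (nat_lit 453211) (nat_lit 0x2177ae362) (nat_lit 244966567),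
  Rx.mk (nat_lit 283) (nat_lit 3) (nat_lit 3) (nat_lit 4) (nat_lit 3) (nat_lit 78) (nat_lit 34) r5_78 r6_34 (nat_lit 0) (nat_lit 0) (nat_lit 4987797) (nat_lit 0x1ee70b7e4) (nat_lit 292271903),
  Rx.mk (nat_lit 408) (nat_lit 0) (nat_lit 3) (nat_lit 6) (nat_lit 6) (nat_lit 71) (nat_lit 33) r5_71 r6_33 (nat_lit 1884312) (nat_lit 0) (nat_lit 0) (nat_lit 0x2185c267e) (nat_lit 245564918),
  Rx.mk (nat_lit 411) (nat_lit 3) (nat_lit 3) (nat_lit 6) (nat_lit 7) (nat_lit 79) (nat_lit 35) r5_79 r6_35 (nat_lit 0) (nat_lit 0) (nat_lit 0) (nat_lit 0x200de841a) (nat_lit 267846306),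
  Rx.mk (nat_lit 443) (nat_lit 3) (nat_lit 7) (nat_lit 6) (nat_lit 7) (nat_lit 77) (nat_lit 36) r5_77 r6_36 (nat_lit 0) (nat_lit 0) (nat_lit 0) (nat_lit 0x1f1d3c4d0) (nat_lit 283510156),
  Rx.mk (nat_lit 450) (nat_lit 2) (nat_lit 0) (nat_lit 7) (nat_lit 5) (nat_lit 73) (nat_lit 37) r5_73 r6_37 (nat_lit 0) (nat_lit 1386658) (nat_lit 0) (nat_lit 0x2015c39fa) (nat_lit 268669314),
  Rx.mk (nat_lit 466) (nat_lit 2) (nat_lit 2) (nat_lit 7) (nat_lit 7) (nat_lit 74) (nat_lit 40) r5_74 r6_40 (nat_lit 0) (nat_lit 0) (nat_lit 0) (nat_lit 0x208c5be3c) (nat_lit 259682256),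
  Rx.mk (nat_lit 472) (nat_lit 0) (nat_lit 3) (nat_lit 7) (nat_lit 6) (nat_lit 72) (nat_lit 32) r5_72 r6_32 (nat_lit 3522668) (nat_lit 0) (nat_lit 0) (nat_lit 0x1f538abe0) (nat_lit 283613624),
  Rx.mk (nat_lit 474) (nat_lit 2) (nat_lit 3) (nat_lit 7) (nat_lit 7) (nat_lit 76) (nat_lit 39) r5_76 r6_39 (nat_lit 0) (nat_lit 0) (nat_lit 0) (nat_lit 0x242461350) (nat_lit 200805656)]
noncomputable def e5_11 : List Rx := [
  Rx.mk (nat_lit 258) (nat_lit 2) (nat_lit 0) (nat_lit 4) (nat_lit 1) (nat_lit 83) (nat_lit 80) r5_83 r5_80 (nat_lit 0) (nat_lit 6759) (nat_lit 4459) (nat_lit 0x1f6f198ac) (nat_lit 278064824),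
  Rx.mk (nat_lit 274) (nat_lit 2) (nat_lit 2) (nat_lit 4) (nat_lit 3) (nat_lit 86) (nat_lit 91) r5_86 r5_91 (nat_lit 0) (nat_lit 0) (nat_lit 1635616) (nat_lit 0x1f847f872) (nat_lit 278472622),
  Rx.mk (nat_lit 280) (nat_lit 0) (nat_lit 3) (nat_lit 4) (nat_lit 2) (nat_lit 80) (nat_lit 83) r5_80 r5_83 (nat_lit 6759) (nat_lit 0) (nat_lit 4459) (nat_lit 0x1f6f198ac) (nat_lit 278064824),
  Rx.mk (nat_lit 282) (nat_lit 2) (nat_lit 3) (nat_lit 4) (nat_lit 3) (nat_lit 89) (nat_lit 89) r5_89 r5_89 (nat_lit 0) (nat_lit 0) (nat_lit 29145) (nat_lit 0x237f445ca) (nat_lit 211234201),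
  Rx.mk (nat_lit 283) (nat_lit 3) (nat_lit 3) (nat_lit 4) (nat_lit 3) (nat_lit 91) (nat_lit 86) r5_91 r5_86 (nat_lit 0) (nat_lit 0) (nat_lit 1635616) (nat_lit 0x1f847f872) (nat_lit 278472622),
  Rx.mk (nat_lit 322) (nat_lit 2) (nat_lit 0) (nat_lit 5) (nat_lit 5) (nat_lit 84) (nat_lit 81) r5_84 r5_81 (nat_lit 0) (nat_lit 3348742) (nat_lit 0) (nat_lit 0x218b51766) (nat_lit 246696548),
  Rx.mk (nat_lit 338) (nat_lit 2) (nat_lit 2) (nat_lit 5) (nat_lit 7) (nat_lit 87) (nat_lit 92) r5_87 r5_92 (nat_lit 0) (nat_lit 0) (nat_lit 0) (nat_lit 0x1fe8aefb4) (nat_lit 270299356),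
  Rx.mk (nat_lit 344) (nat_lit 0) (nat_lit 3) (nat_lit 5) (nat_lit 6) (nat_lit 81) (nat_lit 84) r5_81 r5_84 (nat_lit 3348742) (nat_lit 0) (nat_lit 0) (nat_lit 0x218b51766) (nat_lit 246696548),
  Rx.mk (nat_lit 346) (nat_lit 2) (nat_lit 3) (nat_lit 5) (nat_lit 7) (nat_lit 90) (nat_lit 90) r5_90 r5_90 (nat_lit 0) (nat_lit 0) (nat_lit 0) (nat_lit 0x20d154836) (nat_lit 255270956),
  Rx.mk (nat_lit 347) (nat_lit 3) (nat_lit 3) (nat_lit 5) (nat_lit 7) (nat_lit 92) (nat_lit 87) r5_92 r5_87 (nat_lit 0) (nat_lit 0) (nat_lit 0) (nat_lit 0x1fe8aefb4) (nat_lit 270299356),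
  Rx.mk (nat_lit 408) (nat_lit 0) (nat_lit 3) (nat_lit 6) (nat_lit 6) (nat_lit 82) (nat_lit 85) r5_82 r5_85 (nat_lit 2102861) (nat_lit 0) (nat_lit 0) (nat_lit 0x212c58174) (nat_lit 251504167),
  Rx.mk (nat_lit 411) (nat_lit 3) (nat_lit 3) (nat_lit 6) (nat_lit 7) (nat_lit 93) (nat_lit 88) r5_93 r5_88 (nat_lit 0) (nat_lit 0) (nat_lit 0) (nat_lit 0x20503184e) (nat_lit 263547156),
  Rx.mk (nat_lit 450) (nat_lit 2) (nat_lit 0) (nat_lit 7) (nat_lit 5) (nat_lit 85) (nat_lit 82) r5_85 r5_82 (nat_lit 0) (nat_lit 2102861) (nat_lit 0) (nat_lit 0x212c58174) (nat_lit 251504167),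
  Rx.mk (nat_lit 466) (nat_lit 2) (nat_lit 2) (nat_lit 7) (nat_lit 7) (nat_lit 88) (nat_lit 93) r5_88 r5_93 (nat_lit 0) (nat_lit 0) (nat_lit 0) (nat_lit 0x20503184e) (nat_lit 263547156)]
noncomputable def e5_12 : List Rx := [
  Rx.mk (nat_lit 22) (nat_lit 6) (nat_lit 2) (nat_lit 0) (nat_lit 3) (nat_lit 99) (nat_lit 208) r5_99 r0_208 (nat_lit 0) (nat_lit 0) (nat_lit 4120485) (nat_lit 0x1d90add30) (nat_lit 314093041),
  Rx.mk (nat_lit 54) (nat_lit 6) (nat_lit 6) (nat_lit 0) (nat_lit 3) (nat_lit 97) (nat_lit 207) r5_97 r0_207 (nat_lit 0) (nat_lit 0) (nat_lit 3102681) (nat_lit 0x1aefd6c10) (nat_lit 357710387),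
  Rx.mk (nat_lit 164) (nat_lit 4) (nat_lit 4) (nat_lit 2) (nat_lit 4) (nat_lit 95) (nat_lit 209) r5_95 r0_209 (nat_lit 2166) (nat_lit 2742) (nat_lit 0) (nat_lit 0x1ffe6a894) (nat_lit 268546314),
  Rx.mk (nat_lit 180) (nat_lit 4) (nat_lit 6) (nat_lit 2) (nat_lit 6) (nat_lit 96) (nat_lit 210) r5_96 r0_210 (nat_lit 1935890) (nat_lit 0) (nat_lit 0) (nat_lit 0x20e2c5174) (nat_lit 256065246),
  Rx.mk (nat_lit 182) (nat_lit 6) (nat_lit 6) (nat_lit 2) (nat_lit 7) (nat_lit 98) (nat_lit 211) r5_98 r0_211 (nat_lit 0) (nat_lit 0) (nat_lit 0) (nat_lit 0x205a0ba36) (nat_lit 262948156),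
  Rx.mk (nat_lit 420) (nat_lit 4) (nat_lit 4) (nat_lit 6) (nat_lit 4) (nat_lit 94) (nat_lit 204) r5_94 r0_204 (nat_lit 68266) (nat_lit 4376312) (nat_lit 0) (nat_lit 0x2011af8e6) (nat_lit 271776584),
  Rx.mk (nat_lit 423) (nat_lit 7) (nat_lit 4) (nat_lit 6) (nat_lit 5) (nat_lit 100) (nat_lit 205) r5_100 r0_205 (nat_lit 0) (nat_lit 51585995) (nat_lit 0) (nat_lit 0x1f40b1c8a) (nat_lit 332930751),
  Rx.mk (nat_lit 447) (nat_lit 7) (nat_lit 7) (nat_lit 6) (nat_lit 7) (nat_lit 101) (nat_lit 206) r5_101 r0_206 (nat_lit 0) (nat_lit 0) (nat_lit 0) (nat_lit 0x1fbe83a50) (nat_lit 273060756)]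
noncomputable def e5_13 : List Rx := [
  Rx.mk (nat_lit 22) (nat_lit 6) (nat_lit 2) (nat_lit 0) (nat_lit 3) (nat_lit 105) (nat_lit 49) r5_105 r7_49 (nat_lit 0) (nat_lit 0) (nat_lit 2350265) (nat_lit 0x1faee4d92) (nat_lit 276387071),
  Rx.mk (nat_lit 54) (nat_lit 6) (nat_lit 6) (nat_lit 0) (nat_lit 3) (nat_lit 103) (nat_lit 50) r5_103 r7_50 (nat_lit 0) (nat_lit 0) (nat_lit 4856279) (nat_lit 0x1bc73bce6) (nat_lit 345186885),
  Rx.mk (nat_lit 180) (nat_lit 4) (nat_lit 6) (nat_lit 2) (nat_lit 6) (nat_lit 102) (nat_lit 48) r5_102 r7_48 (nat_lit 2328975) (nat_lit 0) (nat_lit 0) (nat_lit 0x20c4f3c18) (nat_lit 258373331),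
  Rx.mk (nat_lit 182) (nat_lit 6) (nat_lit 6) (nat_lit 2) (nat_lit 7) (nat_lit 104) (nat_lit 51) r5_104 r7_51 (nat_lit 0) (nat_lit 0) (nat_lit 0) (nat_lit 0x1fc6270f4) (nat_lit 272569156)]
noncomputable def e5_14 : List Rx := [
  Rx.mk (nat_lit 164) (nat_lit 4) (nat_lit 4) (nat_lit 2) (nat_lit 4) (nat_lit 107) (nat_lit 229) r5_107 r1_229 (nat_lit 1010839) (nat_lit 1577709) (nat_lit 0) (nat_lit 0x1cd78d18e) (nat_lit 324800054),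
  Rx.mk (nat_lit 165) (nat_lit 5) (nat_lit 4) (nat_lit 2) (nat_lit 5) (nat_lit 110) (nat_lit 230) r5_110 r1_230 (nat_lit 0) (nat_lit 7840804) (nat_lit 0) (nat_lit 0x201fd6cee) (nat_lit 274550960),
  Rx.mk (nat_lit 180) (nat_lit 4) (nat_lit 6) (nat_lit 2) (nat_lit 6) (nat_lit 108) (nat_lit 231) r5_108 r1_231 (nat_lit 2633536) (nat_lit 0) (nat_lit 0) (nat_lit 0x206188944) (nat_lit 265076892),
  Rx.mk (nat_lit 181) (nat_lit 5) (nat_lit 6) (nat_lit 2) (nat_lit 7) (nat_lit 111) (nat_lit 232) r5_111 r1_232 (nat_lit 0) (nat_lit 0) (nat_lit 0) (nat_lit 0x20056d4f2) (nat_lit 268435456),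
  Rx.mk (nat_lit 182) (nat_lit 6) (nat_lit 6) (nat_lit 2) (nat_lit 7) (nat_lit 112) (nat_lit 233) r5_112 r1_233 (nat_lit 0) (nat_lit 0) (nat_lit 0) (nat_lit 0x20056d4f2) (nat_lit 268435456),
  Rx.mk (nat_lit 420) (nat_lit 4) (nat_lit 4) (nat_lit 6) (nat_lit 4) (nat_lit 106) (nat_lit 225) r5_106 r1_225 (nat_lit 1166073) (nat_lit 30080640) (nat_lit 0) (nat_lit 0x1fa8fae72) (nat_lit 305635719),
  Rx.mk (nat_lit 421) (nat_lit 5) (nat_lit 4) (nat_lit 6) (nat_lit 5) (nat_lit 109) (nat_lit 226) r5_109 r1_226 (nat_lit 0) (nat_lit 9484367) (nat_lit 0) (nat_lit 0x20df9d168) (nat_lit 263838473),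
  Rx.mk (nat_lit 423) (nat_lit 7) (nat_lit 4) (nat_lit 6) (nat_lit 5) (nat_lit 113) (nat_lit 227) r5_113 r1_227 (nat_lit 0) (nat_lit 12680896) (nat_lit 0) (nat_lit 0x20cc40b7e) (nat_lit 268272752),
  Rx.mk (nat_lit 447) (nat_lit 7) (nat_lit 7) (nat_lit 6) (nat_lit 7) (nat_lit 114) (nat_lit 228) r5_114 r1_228 (nat_lit 0) (nat_lit 0) (nat_lit 0) (nat_lit 0x203808ed4) (nat_lit 265137456)]
noncomputable def e5_15 : List Rx := [
  Rx.mk (nat_lit 180) (nat_lit 4) (nat_lit 6) (nat_lit 2) (nat_lit 6) (nat_lit 115) (nat_lit 58) r5_115 r8_58 (nat_lit 4768026) (nat_lit 0) (nat_lit 0) (nat_lit 0x205744316) (nat_lit 267884932),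
  Rx.mk (nat_lit 181) (nat_lit 5) (nat_lit 6) (nat_lit 2) (nat_lit 7) (nat_lit 116) (nat_lit 59) r5_116 r8_59 (nat_lit 0) (nat_lit 0) (nat_lit 0) (nat_lit 0x2048f80d2) (nat_lit 264049356),
  Rx.mk (nat_lit 182) (nat_lit 6) (nat_lit 6) (nat_lit 2) (nat_lit 7) (nat_lit 117) (nat_lit 60) r5_117 r8_60 (nat_lit 0) (nat_lit 0) (nat_lit 0) (nat_lit 0x20056d4f2) (nat_lit 268435456)]
noncomputable def e5_16 : List Rx := [
  Rx.mk (nat_lit 22) (nat_lit 6) (nat_lit 2) (nat_lit 0) (nat_lit 3) (nat_lit 121) (nat_lit 202) r5_121 r8_202 (nat_lit 0) (nat_lit 0) (nat_lit 3592322) (nat_lit 0x1f944b18e) (nat_lit 279407828),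
  Rx.mk (nat_lit 54) (nat_lit 6) (nat_lit 6) (nat_lit 0) (nat_lit 3) (nat_lit 118) (nat_lit 201) r5_118 r8_201 (nat_lit 0) (nat_lit 0) (nat_lit 10516088) (nat_lit 0x1ee71f3b6) (nat_lit 297804694),
  Rx.mk (nat_lit 86) (nat_lit 6) (nat_lit 2) (nat_lit 1) (nat_lit 7) (nat_lit 122) (nat_lit 204) r5_122 r8_204 (nat_lit 0) (nat_lit 0) (nat_lit 0) (nat_lit 0x20bbcbb72) (nat_lit 256653156),
  Rx.mk (nat_lit 118) (nat_lit 6) (nat_lit 6) (nat_lit 1) (nat_lit 7) (nat_lit 119) (nat_lit 203) r5_119 r8_203 (nat_lit 0) (nat_lit 0) (nat_lit 0) (nat_lit 0x20056d4f2) (nat_lit 268435456),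
  Rx.mk (nat_lit 182) (nat_lit 6) (nat_lit 6) (nat_lit 2) (nat_lit 7) (nat_lit 120) (nat_lit 205) r5_120 r8_205 (nat_lit 0) (nat_lit 0) (nat_lit 0) (nat_lit 0x20056d4f2) (nat_lit 268435456)]
noncomputable def e5_17 : List Rx := [
  Rx.mk (nat_lit 86) (nat_lit 6) (nat_lit 2) (nat_lit 1) (nat_lit 7) (nat_lit 123) (nat_lit 18) r5_123 r9_18 (nat_lit 0) (nat_lit 0) (nat_lit 0) (nat_lit 0x20056d4f2) (nat_lit 268435456)]
noncomputable def e5_18 : List Rx := [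
  Rx.mk (nat_lit 22) (nat_lit 6) (nat_lit 2) (nat_lit 0) (nat_lit 3) (nat_lit 128) (nat_lit 198) r5_128 r4_198 (nat_lit 0) (nat_lit 0) (nat_lit 3429448) (nat_lit 0x1ecf9e836) (nat_lit 292245754),
  Rx.mk (nat_lit 54) (nat_lit 6) (nat_lit 6) (nat_lit 0) (nat_lit 3) (nat_lit 126) (nat_lit 197) r5_126 r4_197 (nat_lit 0) (nat_lit 0) (nat_lit 4028635) (nat_lit 0x1ef2a41be) (nat_lit 290539191),
  Rx.mk (nat_lit 164) (nat_lit 4) (nat_lit 4) (nat_lit 2) (nat_lit 4) (nat_lit 124) (nat_lit 200) r5_124 r4_200 (nat_lit 14824) (nat_lit 22730) (nat_lit 0) (nat_lit 0x1b6eb0298) (nat_lit 346080460),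
  Rx.mk (nat_lit 167) (nat_lit 7) (nat_lit 4) (nat_lit 2) (nat_lit 5) (nat_lit 131) (nat_lit 201) r5_131 r4_201 (nat_lit 0) (nat_lit 2626709) (nat_lit 0) (nat_lit 0x20411bf30) (nat_lit 267138965),
  Rx.mk (nat_lit 180) (nat_lit 4) (nat_lit 6) (nat_lit 2) (nat_lit 6) (nat_lit 125) (nat_lit 202) r5_125 r4_202 (nat_lit 1728695) (nat_lit 0) (nat_lit 0) (nat_lit 0x212646e0c) (nat_lit 251527401),
  Rx.mk (nat_lit 182) (nat_lit 6) (nat_lit 6) (nat_lit 2) (nat_lit 7) (nat_lit 127) (nat_lit 204) r5_127 r4_204 (nat_lit 0) (nat_lit 0) (nat_lit 0) (nat_lit 0x203895d34) (nat_lit 265111306),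
  Rx.mk (nat_lit 183) (nat_lit 7) (nat_lit 6) (nat_lit 2) (nat_lit 7) (nat_lit 132) (nat_lit 203) r5_132 r4_203 (nat_lit 0) (nat_lit 0) (nat_lit 0) (nat_lit 0x2164a85ba) (nat_lit 245825906),
  Rx.mk (nat_lit 214) (nat_lit 6) (nat_lit 2) (nat_lit 3) (nat_lit 7) (nat_lit 129) (nat_lit 199) r5_129 r4_199 (nat_lit 0) (nat_lit 0) (nat_lit 0) (nat_lit 0x20506a536) (nat_lit 263520456),
  Rx.mk (nat_lit 423) (nat_lit 7) (nat_lit 4) (nat_lit 6) (nat_lit 5) (nat_lit 130) (nat_lit 195) r5_130 r4_195 (nat_lit 0) (nat_lit 35171213) (nat_lit 0) (nat_lit 0x1fbe12a9e) (nat_lit 308019369),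
  Rx.mk (nat_lit 447) (nat_lit 7) (nat_lit 7) (nat_lit 6) (nat_lit 7) (nat_lit 133) (nat_lit 196) r5_133 r4_196 (nat_lit 0) (nat_lit 0) (nat_lit 0) (nat_lit 0x1fd3566ee) (nat_lit 271687156)]
noncomputable def e5_19 : List Rx := [
  Rx.mk (nat_lit 22) (nat_lit 6) (nat_lit 2) (nat_lit 0) (nat_lit 3) (nat_lit 137) (nat_lit 34) r5_137 r10_34 (nat_lit 0) (nat_lit 0) (nat_lit 2831630) (nat_lit 0x201b3358e) (nat_lit 269816136),
  Rx.mk (nat_lit 54) (nat_lit 6) (nat_lit 6) (nat_lit 0) (nat_lit 3) (nat_lit 135) (nat_lit 36) r5_135 r10_36 (nat_lit 0) (nat_lit 0) (nat_lit 4853259) (nat_lit 0x1ce07f8e6) (nat_lit 326522065),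
  Rx.mk (nat_lit 180) (nat_lit 4) (nat_lit 6) (nat_lit 2) (nat_lit 6) (nat_lit 134) (nat_lit 32) r5_134 r10_32 (nat_lit 2021679) (nat_lit 0) (nat_lit 0) (nat_lit 0x20d6f76b2) (nat_lit 256908235),
  Rx.mk (nat_lit 182) (nat_lit 6) (nat_lit 6) (nat_lit 2) (nat_lit 7) (nat_lit 136) (nat_lit 37) r5_136 r10_37 (nat_lit 0) (nat_lit 0) (nat_lit 0) (nat_lit 0x1fddac6f2) (nat_lit 271029056),
  Rx.mk (nat_lit 183) (nat_lit 7) (nat_lit 6) (nat_lit 2) (nat_lit 7) (nat_lit 139) (nat_lit 33) r5_139 r10_33 (nat_lit 0) (nat_lit 0) (nat_lit 0) (nat_lit 0x208d85736) (nat_lit 259627956),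
  Rx.mk (nat_lit 214) (nat_lit 6) (nat_lit 2) (nat_lit 3) (nat_lit 7) (nat_lit 138) (nat_lit 35) r5_138 r10_35 (nat_lit 0) (nat_lit 0) (nat_lit 0) (nat_lit 0x2150d6668) (nat_lit 247097356)]
noncomputable def e5_20 : List Rx := [
  Rx.mk (nat_lit 54) (nat_lit 6) (nat_lit 6) (nat_lit 0) (nat_lit 3) (nat_lit 142) (nat_lit 16) r5_142 r11_16 (nat_lit 0) (nat_lit 0) (nat_lit 4927115) (nat_lit 0x1f6e9980a) (nat_lit 283242871),
  Rx.mk (nat_lit 164) (nat_lit 4) (nat_lit 4) (nat_lit 2) (nat_lit 4) (nat_lit 140) (nat_lit 9) r5_140 r11_9 (nat_lit 143999) (nat_lit 213815) (nat_lit 0) (nat_lit 0x1ccb719fe) (nat_lit 323293720),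
  Rx.mk (nat_lit 167) (nat_lit 7) (nat_lit 4) (nat_lit 2) (nat_lit 5) (nat_lit 146) (nat_lit 11) r5_146 r11_11 (nat_lit 0) (nat_lit 2356679) (nat_lit 0) (nat_lit 0x20655c796) (nat_lit 264531935),
  Rx.mk (nat_lit 180) (nat_lit 4) (nat_lit 6) (nat_lit 2) (nat_lit 6) (nat_lit 141) (nat_lit 10) r5_141 r11_10 (nat_lit 1342349) (nat_lit 0) (nat_lit 0) (nat_lit 0x218302e34) (nat_lit 245194805),
  Rx.mk (nat_lit 182) (nat_lit 6) (nat_lit 6) (nat_lit 2) (nat_lit 7) (nat_lit 143) (nat_lit 18) r5_143 r11_18 (nat_lit 0) (nat_lit 0) (nat_lit 0) (nat_lit 0x20056d4f2) (nat_lit 268435456),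
  Rx.mk (nat_lit 183) (nat_lit 7) (nat_lit 6) (nat_lit 2) (nat_lit 7) (nat_lit 147) (nat_lit 14) r5_147 r11_14 (nat_lit 0) (nat_lit 0) (nat_lit 0) (nat_lit 0x218273d9c) (nat_lit 243920756),
  Rx.mk (nat_lit 191) (nat_lit 7) (nat_lit 7) (nat_lit 2) (nat_lit 7) (nat_lit 149) (nat_lit 12) r5_149 r11_12 (nat_lit 0) (nat_lit 0) (nat_lit 0) (nat_lit 0x206b1e06c) (nat_lit 261845856),
  Rx.mk (nat_lit 214) (nat_lit 6) (nat_lit 2) (nat_lit 3) (nat_lit 7) (nat_lit 145) (nat_lit 15) r5_145 r11_15 (nat_lit 0) (nat_lit 0) (nat_lit 0) (nat_lit 0x24aa139d0) (nat_lit 192250056),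
  Rx.mk (nat_lit 246) (nat_lit 6) (nat_lit 6) (nat_lit 3) (nat_lit 7) (nat_lit 144) (nat_lit 17) r5_144 r11_17 (nat_lit 0) (nat_lit 0) (nat_lit 0) (nat_lit 0x20056d4f2) (nat_lit 268435456),
  Rx.mk (nat_lit 447) (nat_lit 7) (nat_lit 7) (nat_lit 6) (nat_lit 7) (nat_lit 148) (nat_lit 13) r5_148 r11_13 (nat_lit 0) (nat_lit 0) (nat_lit 0) (nat_lit 0x210c11942) (nat_lit 251494756)]
noncomputable def e5_21 : List Rx := [
  Rx.mk (nat_lit 82) (nat_lit 2) (nat_lit 2) (nat_lit 1) (nat_lit 7) (nat_lit 151) (nat_lit 64) r5_151 r9_64 (nat_lit 0) (nat_lit 0) (nat_lit 0) (nat_lit 0x20056d4f2) (nat_lit 268435456),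
  Rx.mk (nat_lit 86) (nat_lit 6) (nat_lit 2) (nat_lit 1) (nat_lit 7) (nat_lit 150) (nat_lit 63) r5_150 r9_63 (nat_lit 0) (nat_lit 0) (nat_lit 0) (nat_lit 0x20056d4f2) (nat_lit 268435456)]
noncomputable def e5_22 : List Rx := [
  Rx.mk (nat_lit 256) (nat_lit 0) (nat_lit 0) (nat_lit 4) (nat_lit 0) (nat_lit 152) (nat_lit 330) r5_152 r0_330 (nat_lit 69835031) (nat_lit 473) (nat_lit 439) (nat_lit 0x200002fd0) (nat_lit 338270949),
  Rx.mk (nat_lit 258) (nat_lit 2) (nat_lit 0) (nat_lit 4) (nat_lit 1) (nat_lit 158) (nat_lit 332) r5_158 r0_332 (nat_lit 0) (nat_lit 2817616) (nat_lit 3538416) (nat_lit 0x1c2323356) (nat_lit 340567738),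
  Rx.mk (nat_lit 264) (nat_lit 0) (nat_lit 1) (nat_lit 4) (nat_lit 2) (nat_lit 155) (nat_lit 331) r5_155 r0_331 (nat_lit 3310166) (nat_lit 0) (nat_lit 4486587) (nat_lit 0x1fc554a14) (nat_lit 280349959),
  Rx.mk (nat_lit 266) (nat_lit 2) (nat_lit 1) (nat_lit 4) (nat_lit 3) (nat_lit 160) (nat_lit 333) r5_160 r0_333 (nat_lit 0) (nat_lit 0) (nat_lit 5672723) (nat_lit 0x202926948) (nat_lit 271746229),
  Rx.mk (nat_lit 274) (nat_lit 2) (nat_lit 2) (nat_lit 4) (nat_lit 3) (nat_lit 162) (nat_lit 334) r5_162 r0_334 (nat_lit 0) (nat_lit 0) (nat_lit 7216955) (nat_lit 0x1d79975a6) (nat_lit 318736661),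
  Rx.mk (nat_lit 320) (nat_lit 0) (nat_lit 0) (nat_lit 5) (nat_lit 4) (nat_lit 153) (nat_lit 335) r5_153 r0_335 (nat_lit 34829005) (nat_lit 4373304) (nat_lit 0) (nat_lit 0x1d3bf12ec) (nat_lit 354784215),
  Rx.mk (nat_lit 322) (nat_lit 2) (nat_lit 0) (nat_lit 5) (nat_lit 5) (nat_lit 159) (nat_lit 337) r5_159 r0_337 (nat_lit 0) (nat_lit 4420229) (nat_lit 0) (nat_lit 0x1f9a9dc12) (nat_lit 279829885),
  Rx.mk (nat_lit 328) (nat_lit 0) (nat_lit 1) (nat_lit 5) (nat_lit 6) (nat_lit 156) (nat_lit 336) r5_156 r0_336 (nat_lit 10297258) (nat_lit 0) (nat_lit 0) (nat_lit 0x1fb3eae4a) (nat_lit 284055964),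
  Rx.mk (nat_lit 330) (nat_lit 2) (nat_lit 1) (nat_lit 5) (nat_lit 7) (nat_lit 161) (nat_lit 338) r5_161 r0_338 (nat_lit 0) (nat_lit 0) (nat_lit 0) (nat_lit 0x201dc6788) (nat_lit 266850056),
  Rx.mk (nat_lit 338) (nat_lit 2) (nat_lit 2) (nat_lit 5) (nat_lit 7) (nat_lit 163) (nat_lit 339) r5_163 r0_339 (nat_lit 0) (nat_lit 0) (nat_lit 0) (nat_lit 0x203fca38e) (nat_lit 264643506),
  Rx.mk (nat_lit 384) (nat_lit 0) (nat_lit 0) (nat_lit 6) (nat_lit 4) (nat_lit 154) (nat_lit 340) r5_154 r0_340 (nat_lit 14285582) (nat_lit 530811) (nat_lit 0) (nat_lit 0x1fcf982be) (nat_lit 286596799),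
  Rx.mk (nat_lit 392) (nat_lit 0) (nat_lit 1) (nat_lit 6) (nat_lit 6) (nat_lit 157) (nat_lit 341) r5_157 r0_341 (nat_lit 1426242) (nat_lit 0) (nat_lit 0) (nat_lit 0x1f874fb24) (nat_lit 278037498)]
noncomputable def e5_23 : List Rx := [
  Rx.mk (nat_lit 264) (nat_lit 0) (nat_lit 1) (nat_lit 4) (nat_lit 2) (nat_lit 164) (nat_lit 311) r5_164 r1_311 (nat_lit 7835173) (nat_lit 0) (nat_lit 8473775) (nat_lit 0x1debb64d4) (nat_lit 320226004),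
  Rx.mk (nat_lit 266) (nat_lit 2) (nat_lit 1) (nat_lit 4) (nat_lit 3) (nat_lit 167) (nat_lit 312) r5_167 r1_312 (nat_lit 0) (nat_lit 0) (nat_lit 6934858) (nat_lit 0x204533bd6) (nat_lit 271196564),
  Rx.mk (nat_lit 328) (nat_lit 0) (nat_lit 1) (nat_lit 5) (nat_lit 6) (nat_lit 165) (nat_lit 313) r5_165 r1_313 (nat_lit 6784373) (nat_lit 0) (nat_lit 0) (nat_lit 0x2094db7d8) (nat_lit 265940429),
  Rx.mk (nat_lit 330) (nat_lit 2) (nat_lit 1) (nat_lit 5) (nat_lit 7) (nat_lit 168) (nat_lit 314) r5_168 r1_314 (nat_lit 0) (nat_lit 0) (nat_lit 0) (nat_lit 0x207d1b012) (nat_lit 260685156),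
  Rx.mk (nat_lit 392) (nat_lit 0) (nat_lit 1) (nat_lit 6) (nat_lit 6) (nat_lit 166) (nat_lit 315) r5_166 r1_315 (nat_lit 2151161) (nat_lit 0) (nat_lit 0) (nat_lit 0x205962a4e) (nat_lit 265095617)]
noncomputable def e5_24 : List Rx := [
  Rx.mk (nat_lit 256) (nat_lit 0) (nat_lit 0) (nat_lit 4) (nat_lit 0) (nat_lit 169) (nat_lit 366) r5_169 r4_366 (nat_lit 2981321) (nat_lit 674726) (nat_lit 1351592) (nat_lit 0x1b53851d0) (nat_lit 352950595),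
  Rx.mk (nat_lit 258) (nat_lit 2) (nat_lit 0) (nat_lit 4) (nat_lit 1) (nat_lit 177) (nat_lit 369) r5_177 r4_369 (nat_lit 0) (nat_lit 2340078) (nat_lit 3705404) (nat_lit 0x1e55f6bfa) (nat_lit 302920538),
  Rx.mk (nat_lit 264) (nat_lit 0) (nat_lit 1) (nat_lit 4) (nat_lit 2) (nat_lit 172) (nat_lit 367) r5_172 r4_367 (nat_lit 10414740) (nat_lit 0) (nat_lit 11151044) (nat_lit 0x1ef3ec184) (nat_lit 308008240),
  Rx.mk (nat_lit 266) (nat_lit 2) (nat_lit 1) (nat_lit 4) (nat_lit 3) (nat_lit 179) (nat_lit 370) r5_179 r4_370 (nat_lit 0) (nat_lit 0) (nat_lit 4809072) (nat_lit 0x205bf4d3e) (nat_lit 267626778),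
  Rx.mk (nat_lit 274) (nat_lit 2) (nat_lit 2) (nat_lit 4) (nat_lit 3) (nat_lit 180) (nat_lit 372) r5_180 r4_372 (nat_lit 0) (nat_lit 0) (nat_lit 9484367) (nat_lit 0x1f98f7552) (nat_lit 285019823),
  Rx.mk (nat_lit 280) (nat_lit 0) (nat_lit 3) (nat_lit 4) (nat_lit 2) (nat_lit 174) (nat_lit 368) r5_174 r4_368 (nat_lit 29864572) (nat_lit 0) (nat_lit 3221189) (nat_lit 0x1f4815300) (nat_lit 313919367),
  Rx.mk (nat_lit 282) (nat_lit 2) (nat_lit 3) (nat_lit 4) (nat_lit 3) (nat_lit 182) (nat_lit 371) r5_182 r4_371 (nat_lit 0) (nat_lit 0) (nat_lit 4740330) (nat_lit 0x2086d7fe2) (nat_lit 264798036),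
  Rx.mk (nat_lit 320) (nat_lit 0) (nat_lit 0) (nat_lit 5) (nat_lit 4) (nat_lit 170) (nat_lit 373) r5_170 r4_373 (nat_lit 38809431) (nat_lit 4532932) (nat_lit 0) (nat_lit 0x1fce329ce) (nat_lit 315363169),
  Rx.mk (nat_lit 322) (nat_lit 2) (nat_lit 0) (nat_lit 5) (nat_lit 5) (nat_lit 178) (nat_lit 375) r5_178 r4_375 (nat_lit 0) (nat_lit 3896666) (nat_lit 0) (nat_lit 0x20b0ba580) (nat_lit 261256572),
  Rx.mk (nat_lit 338) (nat_lit 2) (nat_lit 2) (nat_lit 5) (nat_lit 7) (nat_lit 181) (nat_lit 377) r5_181 r4_377 (nat_lit 0) (nat_lit 0) (nat_lit 0) (nat_lit 0x20274896e) (nat_lit 266232306),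
  Rx.mk (nat_lit 344) (nat_lit 0) (nat_lit 3) (nat_lit 5) (nat_lit 6) (nat_lit 175) (nat_lit 374) r5_175 r4_374 (nat_lit 16446383) (nat_lit 0) (nat_lit 0) (nat_lit 0x204e043c8) (nat_lit 280156089),
  Rx.mk (nat_lit 346) (nat_lit 2) (nat_lit 3) (nat_lit 5) (nat_lit 7) (nat_lit 183) (nat_lit 376) r5_183 r4_376 (nat_lit 0) (nat_lit 0) (nat_lit 0) (nat_lit 0x2086d6930) (nat_lit 260059156),
  Rx.mk (nat_lit 384) (nat_lit 0) (nat_lit 0) (nat_lit 6) (nat_lit 4) (nat_lit 171) (nat_lit 378) r5_171 r4_378 (nat_lit 9685368) (nat_lit 6155268) (nat_lit 0) (nat_lit 0x1f20b2376) (nat_lit 299308042),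
  Rx.mk (nat_lit 392) (nat_lit 0) (nat_lit 1) (nat_lit 6) (nat_lit 6) (nat_lit 173) (nat_lit 379) r5_173 r4_379 (nat_lit 9484367) (nat_lit 0) (nat_lit 0) (nat_lit 0x20056d4f2) (nat_lit 277919823),
  Rx.mk (nat_lit 408) (nat_lit 0) (nat_lit 3) (nat_lit 6) (nat_lit 6) (nat_lit 176) (nat_lit 380) r5_176 r4_380 (nat_lit 9484367) (nat_lit 0) (nat_lit 0) (nat_lit 0x209868072) (nat_lit 268412773)]
noncomputable def e5_25 : List Rx := [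
  Rx.mk (nat_lit 320) (nat_lit 0) (nat_lit 0) (nat_lit 5) (nat_lit 4) (nat_lit 184) (nat_lit 88) r5_184 r7_88 (nat_lit 9588172) (nat_lit 2663217) (nat_lit 0) (nat_lit 0x1bf102cbe) (nat_lit 349792345),
  Rx.mk (nat_lit 322) (nat_lit 2) (nat_lit 0) (nat_lit 5) (nat_lit 5) (nat_lit 186) (nat_lit 89) r5_186 r7_89 (nat_lit 0) (nat_lit 4398806) (nat_lit 0) (nat_lit 0x200652368) (nat_lit 272736762),
  Rx.mk (nat_lit 328) (nat_lit 0) (nat_lit 1) (nat_lit 5) (nat_lit 6) (nat_lit 185) (nat_lit 90) r5_185 r7_90 (nat_lit 9484367) (nat_lit 0) (nat_lit 0) (nat_lit 0x20056d4f2) (nat_lit 277919823),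
  Rx.mk (nat_lit 330) (nat_lit 2) (nat_lit 1) (nat_lit 5) (nat_lit 7) (nat_lit 187) (nat_lit 91) r5_187 r7_91 (nat_lit 0) (nat_lit 0) (nat_lit 0) (nat_lit 0x20b6ad88e) (nat_lit 256983056),
  Rx.mk (nat_lit 338) (nat_lit 2) (nat_lit 2) (nat_lit 5) (nat_lit 7) (nat_lit 188) (nat_lit 92) r5_188 r7_92 (nat_lit 0) (nat_lit 0) (nat_lit 0) (nat_lit 0x1f764566c) (nat_lit 277826656)]
noncomputable def e5_26 : List Rx := [
  Rx.mk (nat_lit 328) (nat_lit 0) (nat_lit 1) (nat_lit 5) (nat_lit 6) (nat_lit 189) (nat_lit 74) r5_189 r8_74 (nat_lit 7006890) (nat_lit 0) (nat_lit 0) (nat_lit 0x202e95d16) (nat_lit 272765646),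
  Rx.mk (nat_lit 330) (nat_lit 2) (nat_lit 1) (nat_lit 5) (nat_lit 7) (nat_lit 190) (nat_lit 75) r5_190 r8_75 (nat_lit 0) (nat_lit 0) (nat_lit 0) (nat_lit 0x205c74cbe) (nat_lit 262789806)]
noncomputable def e5_27 : List Rx := [
  Rx.mk (nat_lit 82) (nat_lit 2) (nat_lit 2) (nat_lit 1) (nat_lit 7) (nat_lit 196) (nat_lit 361) r5_196 r8_361 (nat_lit 0) (nat_lit 0) (nat_lit 0) (nat_lit 0x1ff462c52) (nat_lit 269545756),
  Rx.mk (nat_lit 320) (nat_lit 0) (nat_lit 0) (nat_lit 5) (nat_lit 4) (nat_lit 191) (nat_lit 362) r5_191 r8_362 (nat_lit 26396504) (nat_lit 8756992) (nat_lit 0) (nat_lit 0x1c43e0c92) (nat_lit 367216652),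
  Rx.mk (nat_lit 322) (nat_lit 2) (nat_lit 0) (nat_lit 5) (nat_lit 5) (nat_lit 193) (nat_lit 364) r5_193 r8_364 (nat_lit 0) (nat_lit 7909427) (nat_lit 0) (nat_lit 0x1fb625da4) (nat_lit 281515433),
  Rx.mk (nat_lit 328) (nat_lit 0) (nat_lit 1) (nat_lit 5) (nat_lit 6) (nat_lit 192) (nat_lit 363) r5_192 r8_363 (nat_lit 9885199) (nat_lit 0) (nat_lit 0) (nat_lit 0x1fd8245a4) (nat_lit 281271605),
  Rx.mk (nat_lit 330) (nat_lit 2) (nat_lit 1) (nat_lit 5) (nat_lit 7) (nat_lit 194) (nat_lit 365) r5_194 r8_365 (nat_lit 0) (nat_lit 0) (nat_lit 0) (nat_lit 0x2026dc426) (nat_lit 266260456),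
  Rx.mk (nat_lit 338) (nat_lit 2) (nat_lit 2) (nat_lit 5) (nat_lit 7) (nat_lit 195) (nat_lit 366) r5_195 r8_366 (nat_lit 0) (nat_lit 0) (nat_lit 0) (nat_lit 0x1fbd1022c) (nat_lit 273166256)]
noncomputable def e5_28 : List Rx := [
  Rx.mk (nat_lit 320) (nat_lit 0) (nat_lit 0) (nat_lit 5) (nat_lit 4) (nat_lit 197) (nat_lit 72) r5_197 r10_72 (nat_lit 7751834) (nat_lit 2115614) (nat_lit 0) (nat_lit 0x1caf6c47a) (nat_lit 334773104),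
  Rx.mk (nat_lit 322) (nat_lit 2) (nat_lit 0) (nat_lit 5) (nat_lit 5) (nat_lit 199) (nat_lit 73) r5_199 r10_73 (nat_lit 0) (nat_lit 2593846) (nat_lit 0) (nat_lit 0x20984c2c8) (nat_lit 261503202),
  Rx.mk (nat_lit 338) (nat_lit 2) (nat_lit 2) (nat_lit 5) (nat_lit 7) (nat_lit 200) (nat_lit 76) r5_200 r10_76 (nat_lit 0) (nat_lit 0) (nat_lit 0) (nat_lit 0x20056d4f2) (nat_lit 268435456),
  Rx.mk (nat_lit 344) (nat_lit 0) (nat_lit 3) (nat_lit 5) (nat_lit 6) (nat_lit 198) (nat_lit 74) r5_198 r10_74 (nat_lit 9484367) (nat_lit 0) (nat_lit 0) (nat_lit 0x20056d4f2) (nat_lit 277919823),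
  Rx.mk (nat_lit 346) (nat_lit 2) (nat_lit 3) (nat_lit 5) (nat_lit 7) (nat_lit 201) (nat_lit 75) r5_201 r10_75 (nat_lit 0) (nat_lit 0) (nat_lit 0) (nat_lit 0x20ab8a45c) (nat_lit 257698456)]
noncomputable def e5_29 : List Rx := [
  Rx.mk (nat_lit 256) (nat_lit 0) (nat_lit 0) (nat_lit 4) (nat_lit 0) (nat_lit 202) (nat_lit 68) r5_202 r11_68 (nat_lit 9025405) (nat_lit 2595743) (nat_lit 2496432) (nat_lit 0x1503d50aa) (nat_lit 469336936),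
  Rx.mk (nat_lit 258) (nat_lit 2) (nat_lit 0) (nat_lit 4) (nat_lit 1) (nat_lit 212) (nat_lit 72) r5_212 r11_72 (nat_lit 0) (nat_lit 6529667) (nat_lit 4497120) (nat_lit 0x1d65a8a4a) (nat_lit 323844443),
  Rx.mk (nat_lit 264) (nat_lit 0) (nat_lit 1) (nat_lit 4) (nat_lit 2) (nat_lit 206) (nat_lit 75) r5_206 r11_75 (nat_lit 16325742) (nat_lit 0) (nat_lit 13146855) (nat_lit 0x1e5e67ca8) (nat_lit 325828153),
  Rx.mk (nat_lit 266) (nat_lit 2) (nat_lit 1) (nat_lit 4) (nat_lit 3) (nat_lit 215) (nat_lit 78) r5_215 r11_78 (nat_lit 0) (nat_lit 0) (nat_lit 5473983) (nat_lit 0x205eff1b4) (nat_lit 268100289),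
  Rx.mk (nat_lit 274) (nat_lit 2) (nat_lit 2) (nat_lit 4) (nat_lit 3) (nat_lit 217) (nat_lit 88) r5_217 r11_88 (nat_lit 0) (nat_lit 0) (nat_lit 9484367) (nat_lit 0x1f227a3d4) (nat_lit 292845373),
  Rx.mk (nat_lit 280) (nat_lit 0) (nat_lit 3) (nat_lit 4) (nat_lit 2) (nat_lit 209) (nat_lit 80) r5_209 r11_80 (nat_lit 46184553) (nat_lit 0) (nat_lit 4160045) (nat_lit 0x1e57477ac) (nat_lit 347148554),
  Rx.mk (nat_lit 282) (nat_lit 2) (nat_lit 3) (nat_lit 4) (nat_lit 3) (nat_lit 220) (nat_lit 86) r5_220 r11_86 (nat_lit 0) (nat_lit 0) (nat_lit 5473983) (nat_lit 0x205eff1b4) (nat_lit 268100289),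
  Rx.mk (nat_lit 283) (nat_lit 3) (nat_lit 3) (nat_lit 4) (nat_lit 3) (nat_lit 222) (nat_lit 83) r5_222 r11_83 (nat_lit 0) (nat_lit 0) (nat_lit 9484367) (nat_lit 0x1fdf3aaf0) (nat_lit 280412273),
  Rx.mk (nat_lit 320) (nat_lit 0) (nat_lit 0) (nat_lit 5) (nat_lit 4) (nat_lit 203) (nat_lit 69) r5_203 r11_69 (nat_lit 15233421) (nat_lit 9484367) (nat_lit 0) (nat_lit 0x1fc0a5d2e) (nat_lit 297648094),
  Rx.mk (nat_lit 322) (nat_lit 2) (nat_lit 0) (nat_lit 5) (nat_lit 5) (nat_lit 213) (nat_lit 73) r5_213 r11_73 (nat_lit 0) (nat_lit 6475705) (nat_lit 0) (nat_lit 0x202722a34) (nat_lit 272712311),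
  Rx.mk (nat_lit 338) (nat_lit 2) (nat_lit 2) (nat_lit 5) (nat_lit 7) (nat_lit 218) (nat_lit 89) r5_218 r11_89 (nat_lit 0) (nat_lit 0) (nat_lit 0) (nat_lit 0x20056d4f2) (nat_lit 268435456),
  Rx.mk (nat_lit 344) (nat_lit 0) (nat_lit 3) (nat_lit 5) (nat_lit 6) (nat_lit 210) (nat_lit 81) r5_210 r11_81 (nat_lit 9484367) (nat_lit 0) (nat_lit 0) (nat_lit 0x20056d4f2) (nat_lit 277919823),
  Rx.mk (nat_lit 346) (nat_lit 2) (nat_lit 3) (nat_lit 5) (nat_lit 7) (nat_lit 221) (nat_lit 87) r5_221 r11_87 (nat_lit 0) (nat_lit 0) (nat_lit 0) (nat_lit 0x202821a84) (nat_lit 266177706),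
  Rx.mk (nat_lit 347) (nat_lit 3) (nat_lit 3) (nat_lit 5) (nat_lit 7) (nat_lit 223) (nat_lit 84) r5_223 r11_84 (nat_lit 0) (nat_lit 0) (nat_lit 0) (nat_lit 0x20056d4f2) (nat_lit 268435456),
  Rx.mk (nat_lit 384) (nat_lit 0) (nat_lit 0) (nat_lit 6) (nat_lit 4) (nat_lit 204) (nat_lit 71) r5_204 r11_71 (nat_lit 10277974) (nat_lit 10277974) (nat_lit 0) (nat_lit 0x1f317a21c) (nat_lit 302923454),
  Rx.mk (nat_lit 392) (nat_lit 0) (nat_lit 1) (nat_lit 6) (nat_lit 6) (nat_lit 207) (nat_lit 77) r5_207 r11_77 (nat_lit 9484367) (nat_lit 0) (nat_lit 0) (nat_lit 0x20056d4f2) (nat_lit 277919823),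
  Rx.mk (nat_lit 408) (nat_lit 0) (nat_lit 3) (nat_lit 6) (nat_lit 6) (nat_lit 211) (nat_lit 82) r5_211 r11_82 (nat_lit 9484367) (nat_lit 0) (nat_lit 0) (nat_lit 0x1fdf1654c) (nat_lit 280421623),
  Rx.mk (nat_lit 411) (nat_lit 3) (nat_lit 3) (nat_lit 6) (nat_lit 7) (nat_lit 224) (nat_lit 85) r5_224 r11_85 (nat_lit 0) (nat_lit 0) (nat_lit 0) (nat_lit 0x20056d4f2) (nat_lit 268435456),
  Rx.mk (nat_lit 448) (nat_lit 0) (nat_lit 0) (nat_lit 7) (nat_lit 4) (nat_lit 205) (nat_lit 70) r5_205 r11_70 (nat_lit 14748217) (nat_lit 9306613) (nat_lit 0) (nat_lit 0x1fb46ee8e) (nat_lit 297786586),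
  Rx.mk (nat_lit 450) (nat_lit 2) (nat_lit 0) (nat_lit 7) (nat_lit 5) (nat_lit 214) (nat_lit 74) r5_214 r11_74 (nat_lit 0) (nat_lit 6067976) (nat_lit 0) (nat_lit 0x2016a4310) (nat_lit 273370132),
  Rx.mk (nat_lit 456) (nat_lit 0) (nat_lit 1) (nat_lit 7) (nat_lit 6) (nat_lit 208) (nat_lit 76) r5_208 r11_76 (nat_lit 9484367) (nat_lit 0) (nat_lit 0) (nat_lit 0x20056d4f2) (nat_lit 277919823),
  Rx.mk (nat_lit 458) (nat_lit 2) (nat_lit 1) (nat_lit 7) (nat_lit 7) (nat_lit 216) (nat_lit 79) r5_216 r11_79 (nat_lit 0) (nat_lit 0) (nat_lit 0) (nat_lit 0x202821a84) (nat_lit 266177706),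
  Rx.mk (nat_lit 466) (nat_lit 2) (nat_lit 2) (nat_lit 7) (nat_lit 7) (nat_lit 219) (nat_lit 90) r5_219 r11_90 (nat_lit 0) (nat_lit 0) (nat_lit 0) (nat_lit 0x20056d4f2) (nat_lit 268435456)]
noncomputable def e5_30 : List Rx := [
  Rx.mk (nat_lit 167) (nat_lit 7) (nat_lit 4) (nat_lit 2) (nat_lit 5) (nat_lit 226) (nat_lit 228) r5_226 r5_228 (nat_lit 0) (nat_lit 2840162) (nat_lit 0) (nat_lit 0x1ef1191e6) (nat_lit 289423818),
  Rx.mk (nat_lit 183) (nat_lit 7) (nat_lit 6) (nat_lit 2) (nat_lit 7) (nat_lit 227) (nat_lit 229) r5_227 r5_229 (nat_lit 0) (nat_lit 0) (nat_lit 0) (nat_lit 0x222a06000) (nat_lit 233175006),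
  Rx.mk (nat_lit 419) (nat_lit 3) (nat_lit 4) (nat_lit 6) (nat_lit 5) (nat_lit 228) (nat_lit 226) r5_228 r5_226 (nat_lit 0) (nat_lit 2840162) (nat_lit 0) (nat_lit 0x1ef1191e6) (nat_lit 289423818),
  Rx.mk (nat_lit 423) (nat_lit 7) (nat_lit 4) (nat_lit 6) (nat_lit 5) (nat_lit 225) (nat_lit 225) r5_225 r5_225 (nat_lit 0) (nat_lit 11549217) (nat_lit 0) (nat_lit 0x20ef9b2c2) (nat_lit 264842373),
  Rx.mk (nat_lit 443) (nat_lit 3) (nat_lit 7) (nat_lit 6) (nat_lit 7) (nat_lit 229) (nat_lit 227) r5_229 r5_227 (nat_lit 0) (nat_lit 0) (nat_lit 0) (nat_lit 0x222a06000) (nat_lit 233175006)]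
noncomputable def e5_31 : List Rx := [
  Rx.mk (nat_lit 183) (nat_lit 7) (nat_lit 6) (nat_lit 2) (nat_lit 7) (nat_lit 230) (nat_lit 265) r5_230 r11_265 (nat_lit 0) (nat_lit 0) (nat_lit 0) (nat_lit 0x2571d6418) (nat_lit 179468356)]
noncomputable def e5_32 : List Rx := [
  Rx.mk (nat_lit 280) (nat_lit 0) (nat_lit 3) (nat_lit 4) (nat_lit 2) (nat_lit 232) (nat_lit 333) r5_232 r6_333 (nat_lit 251847) (nat_lit 0) (nat_lit 264049) (nat_lit 0x1f29a7f44) (nat_lit 283242052),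
  Rx.mk (nat_lit 282) (nat_lit 2) (nat_lit 3) (nat_lit 4) (nat_lit 3) (nat_lit 234) (nat_lit 336) r5_234 r6_336 (nat_lit 0) (nat_lit 0) (nat_lit 427871) (nat_lit 0x209aee2f6) (nat_lit 259048627),
  Rx.mk (nat_lit 408) (nat_lit 0) (nat_lit 3) (nat_lit 6) (nat_lit 6) (nat_lit 233) (nat_lit 335) r5_233 r6_335 (nat_lit 2263840) (nat_lit 0) (nat_lit 0) (nat_lit 0x21d343934) (nat_lit 240991296),
  Rx.mk (nat_lit 440) (nat_lit 0) (nat_lit 7) (nat_lit 6) (nat_lit 6) (nat_lit 231) (nat_lit 334) r5_231 r6_334 (nat_lit 13528) (nat_lit 0) (nat_lit 0) (nat_lit 0x218c78ba8) (nat_lit 243103384)]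
noncomputable def e5_33 : List Rx := [
  Rx.mk (nat_lit 280) (nat_lit 0) (nat_lit 3) (nat_lit 4) (nat_lit 2) (nat_lit 235) (nat_lit 311) r5_235 r5_311 (nat_lit 831667) (nat_lit 0) (nat_lit 133714) (nat_lit 0x20421df00) (nat_lit 265211387),
  Rx.mk (nat_lit 282) (nat_lit 2) (nat_lit 3) (nat_lit 4) (nat_lit 3) (nat_lit 238) (nat_lit 312) r5_238 r5_312 (nat_lit 0) (nat_lit 0) (nat_lit 485299) (nat_lit 0x207ca09c0) (nat_lit 261044755),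
  Rx.mk (nat_lit 344) (nat_lit 0) (nat_lit 3) (nat_lit 5) (nat_lit 6) (nat_lit 236) (nat_lit 313) r5_236 r5_313 (nat_lit 11852656) (nat_lit 0) (nat_lit 0) (nat_lit 0x20db8b692) (nat_lit 266454662),
  Rx.mk (nat_lit 346) (nat_lit 2) (nat_lit 3) (nat_lit 5) (nat_lit 7) (nat_lit 239) (nat_lit 314) r5_239 r5_314 (nat_lit 0) (nat_lit 0) (nat_lit 0) (nat_lit 0x21ec4591e) (nat_lit 237146206),
  Rx.mk (nat_lit 408) (nat_lit 0) (nat_lit 3) (nat_lit 6) (nat_lit 6) (nat_lit 237) (nat_lit 315) r5_237 r5_315 (nat_lit 3156791) (nat_lit 0) (nat_lit 0) (nat_lit 0x22f7d4e96) (nat_lit 223164547)]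
noncomputable def e5_34 : List Rx := [
  Rx.mk (nat_lit 344) (nat_lit 0) (nat_lit 3) (nat_lit 5) (nat_lit 6) (nat_lit 240) (nat_lit 366) r5_240 r11_366 (nat_lit 5213517) (nat_lit 0) (nat_lit 0) (nat_lit 0x207d7137c) (nat_lit 265853973),
  Rx.mk (nat_lit 346) (nat_lit 2) (nat_lit 3) (nat_lit 5) (nat_lit 7) (nat_lit 241) (nat_lit 367) r5_241 r11_367 (nat_lit 0) (nat_lit 0) (nat_lit 0) (nat_lit 0x2383ee788) (nat_lit 211059756)]
noncomputable def e5_35 : List Rx := [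
  Rx.mk (nat_lit 419) (nat_lit 3) (nat_lit 4) (nat_lit 6) (nat_lit 5) (nat_lit 243) (nat_lit 251) r5_243 r6_251 (nat_lit 0) (nat_lit 16479) (nat_lit 0) (nat_lit 0x2253768b8) (nat_lit 230382735),
  Rx.mk (nat_lit 440) (nat_lit 0) (nat_lit 7) (nat_lit 6) (nat_lit 6) (nat_lit 242) (nat_lit 252) r5_242 r6_252 (nat_lit 198228) (nat_lit 0) (nat_lit 0) (nat_lit 0x214454a52) (nat_lit 247939134),
  Rx.mk (nat_lit 443) (nat_lit 3) (nat_lit 7) (nat_lit 6) (nat_lit 7) (nat_lit 244) (nat_lit 253) r5_244 r6_253 (nat_lit 0) (nat_lit 0) (nat_lit 0) (nat_lit 0x212b5caea) (nat_lit 249433356)]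
noncomputable def e5_36 : List Rx := [
  Rx.mk (nat_lit 280) (nat_lit 0) (nat_lit 3) (nat_lit 4) (nat_lit 2) (nat_lit 246) (nat_lit 34) r5_246 r12_34 (nat_lit 18631) (nat_lit 0) (nat_lit 12394) (nat_lit 0x1fda9dc86) (nat_lit 270951781),
  Rx.mk (nat_lit 282) (nat_lit 2) (nat_lit 3) (nat_lit 4) (nat_lit 3) (nat_lit 249) (nat_lit 39) r5_249 r12_39 (nat_lit 0) (nat_lit 0) (nat_lit 404270) (nat_lit 0x21d4d23e0) (nat_lit 238951376),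
  Rx.mk (nat_lit 408) (nat_lit 0) (nat_lit 3) (nat_lit 6) (nat_lit 6) (nat_lit 247) (nat_lit 36) r5_247 r12_36 (nat_lit 1029543) (nat_lit 0) (nat_lit 0) (nat_lit 0x228efb500) (nat_lit 227712749),
  Rx.mk (nat_lit 440) (nat_lit 0) (nat_lit 7) (nat_lit 6) (nat_lit 6) (nat_lit 245) (nat_lit 37) r5_245 r12_37 (nat_lit 23050) (nat_lit 0) (nat_lit 0) (nat_lit 0x2295f7ee4) (nat_lit 226140306),
  Rx.mk (nat_lit 443) (nat_lit 3) (nat_lit 7) (nat_lit 6) (nat_lit 7) (nat_lit 251) (nat_lit 38) r5_251 r12_38 (nat_lit 0) (nat_lit 0) (nat_lit 0) (nat_lit 0x1ff548c20) (nat_lit 269169706),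
  Rx.mk (nat_lit 472) (nat_lit 0) (nat_lit 3) (nat_lit 7) (nat_lit 6) (nat_lit 248) (nat_lit 35) r5_248 r12_35 (nat_lit 2033357) (nat_lit 0) (nat_lit 0) (nat_lit 0x1ed529288) (nat_lit 290469663),
  Rx.mk (nat_lit 474) (nat_lit 2) (nat_lit 3) (nat_lit 7) (nat_lit 7) (nat_lit 250) (nat_lit 40) r5_250 r12_40 (nat_lit 0) (nat_lit 0) (nat_lit 0) (nat_lit 0x260e2565c) (nat_lit 169458306)]
noncomputable def e5_37 : List Rx := [
  Rx.mk (nat_lit 417) (nat_lit 1) (nat_lit 4) (nat_lit 6) (nat_lit 5) (nat_lit 253) (nat_lit 316) r5_253 r0_316 (nat_lit 0) (nat_lit 2390639) (nat_lit 0) (nat_lit 0x1ff4c17e8) (nat_lit 271882995),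
  Rx.mk (nat_lit 424) (nat_lit 0) (nat_lit 5) (nat_lit 6) (nat_lit 6) (nat_lit 252) (nat_lit 315) r5_252 r0_315 (nat_lit 3242551) (nat_lit 0) (nat_lit 0) (nat_lit 0x2143dd650) (nat_lit 251117207),
  Rx.mk (nat_lit 425) (nat_lit 1) (nat_lit 5) (nat_lit 6) (nat_lit 7) (nat_lit 254) (nat_lit 317) r5_254 r0_317 (nat_lit 0) (nat_lit 0) (nat_lit 0) (nat_lit 0x2402ac98a) (nat_lit 202949906)]
noncomputable def e5_38 : List Rx := [
  Rx.mk (nat_lit 417) (nat_lit 1) (nat_lit 4) (nat_lit 6) (nat_lit 5) (nat_lit 255) (nat_lit 224) r5_255 r0_224 (nat_lit 0) (nat_lit 33756998) (nat_lit 0) (nat_lit 0x200009fc4) (nat_lit 302190604)]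
noncomputable def e5_39 : List Rx := [
  Rx.mk (nat_lit 417) (nat_lit 1) (nat_lit 4) (nat_lit 6) (nat_lit 5) (nat_lit 256) (nat_lit 422) r5_256 r7_422 (nat_lit 0) (nat_lit 2920698) (nat_lit 0) (nat_lit 0x1fb4347c0) (nat_lit 276638054),
  Rx.mk (nat_lit 425) (nat_lit 1) (nat_lit 5) (nat_lit 6) (nat_lit 7) (nat_lit 257) (nat_lit 423) r5_257 r7_423 (nat_lit 0) (nat_lit 0) (nat_lit 0) (nat_lit 0x204652198) (nat_lit 264207906)]
noncomputable def e5_40 : List Rx := [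
  Rx.mk (nat_lit 165) (nat_lit 5) (nat_lit 4) (nat_lit 2) (nat_lit 5) (nat_lit 259) (nat_lit 255) r5_259 r2_255 (nat_lit 0) (nat_lit 10371737) (nat_lit 0) (nat_lit 0x1f40d6a76) (nat_lit 291716043),
  Rx.mk (nat_lit 181) (nat_lit 5) (nat_lit 6) (nat_lit 2) (nat_lit 7) (nat_lit 260) (nat_lit 257) r5_260 r2_257 (nat_lit 0) (nat_lit 0) (nat_lit 0) (nat_lit 0x20056d4f2) (nat_lit 268435456),
  Rx.mk (nat_lit 421) (nat_lit 5) (nat_lit 4) (nat_lit 6) (nat_lit 5) (nat_lit 258) (nat_lit 256) r5_258 r2_256 (nat_lit 0) (nat_lit 10395696) (nat_lit 0) (nat_lit 0x1fae7df52) (nat_lit 284495052)]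
noncomputable def e5_41 : List Rx := [
  Rx.mk (nat_lit 165) (nat_lit 5) (nat_lit 4) (nat_lit 2) (nat_lit 5) (nat_lit 262) (nat_lit 224) r5_262 r9_224 (nat_lit 0) (nat_lit 10906122) (nat_lit 0) (nat_lit 0x1f877a716) (nat_lit 287583928),
  Rx.mk (nat_lit 173) (nat_lit 5) (nat_lit 5) (nat_lit 2) (nat_lit 7) (nat_lit 264) (nat_lit 226) r5_264 r9_226 (nat_lit 0) (nat_lit 0) (nat_lit 0) (nat_lit 0x20056d4f2) (nat_lit 268435456),
  Rx.mk (nat_lit 181) (nat_lit 5) (nat_lit 6) (nat_lit 2) (nat_lit 7) (nat_lit 265) (nat_lit 228) r5_265 r9_228 (nat_lit 0) (nat_lit 0) (nat_lit 0) (nat_lit 0x20056d4f2) (nat_lit 268435456),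
  Rx.mk (nat_lit 421) (nat_lit 5) (nat_lit 4) (nat_lit 6) (nat_lit 5) (nat_lit 261) (nat_lit 225) r5_261 r9_225 (nat_lit 0) (nat_lit 9906818) (nat_lit 0) (nat_lit 0x1fdab6db2) (nat_lit 281127224),
  Rx.mk (nat_lit 429) (nat_lit 5) (nat_lit 5) (nat_lit 6) (nat_lit 7) (nat_lit 263) (nat_lit 227) r5_263 r9_227 (nat_lit 0) (nat_lit 0) (nat_lit 0) (nat_lit 0x20056d4f2) (nat_lit 268435456)]
noncomputable def e5_42 : List Rx := [
  Rx.mk (nat_lit 181) (nat_lit 5) (nat_lit 6) (nat_lit 2) (nat_lit 7) (nat_lit 266) (nat_lit 215) r5_266 r9_215 (nat_lit 0) (nat_lit 0) (nat_lit 0) (nat_lit 0x20056d4f2) (nat_lit 268435456)]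
noncomputable def e5_43 : List Rx := [
  Rx.mk (nat_lit 417) (nat_lit 1) (nat_lit 4) (nat_lit 6) (nat_lit 5) (nat_lit 268) (nat_lit 242) r5_268 r1_242 (nat_lit 0) (nat_lit 37131224) (nat_lit 0) (nat_lit 0x214068f42) (nat_lit 285211480),
  Rx.mk (nat_lit 421) (nat_lit 5) (nat_lit 4) (nat_lit 6) (nat_lit 5) (nat_lit 267) (nat_lit 243) r5_267 r1_243 (nat_lit 0) (nat_lit 35134519) (nat_lit 0) (nat_lit 0x2047df5ec) (nat_lit 299206125)]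
noncomputable def e5_44 : List Rx := [
  Rx.mk (nat_lit 417) (nat_lit 1) (nat_lit 4) (nat_lit 6) (nat_lit 5) (nat_lit 271) (nat_lit 349) r5_271 r8_349 (nat_lit 0) (nat_lit 7987863) (nat_lit 0) (nat_lit 0x2001dda6c) (nat_lit 276652469),
  Rx.mk (nat_lit 421) (nat_lit 5) (nat_lit 4) (nat_lit 6) (nat_lit 5) (nat_lit 269) (nat_lit 347) r5_269 r8_347 (nat_lit 0) (nat_lit 9484367) (nat_lit 0) (nat_lit 0x20056d4f2) (nat_lit 277919823),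
  Rx.mk (nat_lit 425) (nat_lit 1) (nat_lit 5) (nat_lit 6) (nat_lit 7) (nat_lit 272) (nat_lit 350) r5_272 r8_350 (nat_lit 0) (nat_lit 0) (nat_lit 0) (nat_lit 0x20056d4f2) (nat_lit 268435456),
  Rx.mk (nat_lit 429) (nat_lit 5) (nat_lit 5) (nat_lit 6) (nat_lit 7) (nat_lit 270) (nat_lit 348) r5_270 r8_348 (nat_lit 0) (nat_lit 0) (nat_lit 0) (nat_lit 0x20056d4f2) (nat_lit 268435456)]
noncomputable def e5_45 : List Rx := [
  Rx.mk (nat_lit 424) (nat_lit 0) (nat_lit 5) (nat_lit 6) (nat_lit 6) (nat_lit 273) (nat_lit 303) r5_273 r1_303 (nat_lit 5178035) (nat_lit 0) (nat_lit 0) (nat_lit 0x21b74b3ee) (nat_lit 245703641),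
  Rx.mk (nat_lit 425) (nat_lit 1) (nat_lit 5) (nat_lit 6) (nat_lit 7) (nat_lit 274) (nat_lit 304) r5_274 r1_304 (nat_lit 0) (nat_lit 0) (nat_lit 0) (nat_lit 0x23e9a944c) (nat_lit 204555456)]
noncomputable def e5_46 : List Rx := [
  Rx.mk (nat_lit 264) (nat_lit 0) (nat_lit 1) (nat_lit 4) (nat_lit 2) (nat_lit 276) (nat_lit 339) r5_276 r2_339 (nat_lit 12102987) (nat_lit 0) (nat_lit 5613392) (nat_lit 0x194cc9758) (nat_lit 400137485),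
  Rx.mk (nat_lit 265) (nat_lit 1) (nat_lit 1) (nat_lit 4) (nat_lit 3) (nat_lit 280) (nat_lit 343) r5_280 r2_343 (nat_lit 0) (nat_lit 0) (nat_lit 19988985) (nat_lit 0x1afb37d8e) (nat_lit 373866291),
  Rx.mk (nat_lit 266) (nat_lit 2) (nat_lit 1) (nat_lit 4) (nat_lit 3) (nat_lit 283) (nat_lit 347) r5_283 r2_347 (nat_lit 0) (nat_lit 0) (nat_lit 9484367) (nat_lit 0x20056d4f2) (nat_lit 277919823),
  Rx.mk (nat_lit 328) (nat_lit 0) (nat_lit 1) (nat_lit 5) (nat_lit 6) (nat_lit 277) (nat_lit 340) r5_277 r2_340 (nat_lit 9484367) (nat_lit 0) (nat_lit 0) (nat_lit 0x20056d4f2) (nat_lit 277919823),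
  Rx.mk (nat_lit 329) (nat_lit 1) (nat_lit 1) (nat_lit 5) (nat_lit 7) (nat_lit 281) (nat_lit 344) r5_281 r2_344 (nat_lit 0) (nat_lit 0) (nat_lit 0) (nat_lit 0x20056d4f2) (nat_lit 268435456),
  Rx.mk (nat_lit 330) (nat_lit 2) (nat_lit 1) (nat_lit 5) (nat_lit 7) (nat_lit 284) (nat_lit 348) r5_284 r2_348 (nat_lit 0) (nat_lit 0) (nat_lit 0) (nat_lit 0x20056d4f2) (nat_lit 268435456),
  Rx.mk (nat_lit 392) (nat_lit 0) (nat_lit 1) (nat_lit 6) (nat_lit 6) (nat_lit 278) (nat_lit 342) r5_278 r2_342 (nat_lit 7565036) (nat_lit 0) (nat_lit 0) (nat_lit 0x202341924) (nat_lit 274059592),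
  Rx.mk (nat_lit 393) (nat_lit 1) (nat_lit 1) (nat_lit 6) (nat_lit 7) (nat_lit 282) (nat_lit 346) r5_282 r2_346 (nat_lit 0) (nat_lit 0) (nat_lit 0) (nat_lit 0x20056d4f2) (nat_lit 268435456),
  Rx.mk (nat_lit 424) (nat_lit 0) (nat_lit 5) (nat_lit 6) (nat_lit 6) (nat_lit 275) (nat_lit 341) r5_275 r2_341 (nat_lit 7565097) (nat_lit 0) (nat_lit 0) (nat_lit 0x20234095c) (nat_lit 274059903),
  Rx.mk (nat_lit 425) (nat_lit 1) (nat_lit 5) (nat_lit 6) (nat_lit 7) (nat_lit 279) (nat_lit 345) r5_279 r2_345 (nat_lit 0) (nat_lit 0) (nat_lit 0) (nat_lit 0x20056d4f2) (nat_lit 268435456)]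
noncomputable def e5_47 : List Rx := [
  Rx.mk (nat_lit 425) (nat_lit 1) (nat_lit 5) (nat_lit 6) (nat_lit 7) (nat_lit 285) (nat_lit 218) r5_285 r8_218 (nat_lit 0) (nat_lit 0) (nat_lit 0) (nat_lit 0x20b6fc0ce) (nat_lit 256962806)]
noncomputable def e5_48 : List Rx := [
  Rx.mk (nat_lit 265) (nat_lit 1) (nat_lit 1) (nat_lit 4) (nat_lit 3) (nat_lit 287) (nat_lit 307) r5_287 r9_307 (nat_lit 0) (nat_lit 0) (nat_lit 26900729) (nat_lit 0x1c0eabcac) (nat_lit 362504735),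
  Rx.mk (nat_lit 329) (nat_lit 1) (nat_lit 1) (nat_lit 5) (nat_lit 7) (nat_lit 288) (nat_lit 308) r5_288 r9_308 (nat_lit 0) (nat_lit 0) (nat_lit 0) (nat_lit 0x20056d4f2) (nat_lit 268435456),
  Rx.mk (nat_lit 393) (nat_lit 1) (nat_lit 1) (nat_lit 6) (nat_lit 7) (nat_lit 289) (nat_lit 310) r5_289 r9_310 (nat_lit 0) (nat_lit 0) (nat_lit 0) (nat_lit 0x20056d4f2) (nat_lit 268435456),
  Rx.mk (nat_lit 425) (nat_lit 1) (nat_lit 5) (nat_lit 6) (nat_lit 7) (nat_lit 286) (nat_lit 309) r5_286 r9_309 (nat_lit 0) (nat_lit 0) (nat_lit 0) (nat_lit 0x20056d4f2) (nat_lit 268435456)]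
noncomputable def e5_49 : List Rx := [
  Rx.mk (nat_lit 328) (nat_lit 0) (nat_lit 1) (nat_lit 5) (nat_lit 6) (nat_lit 290) (nat_lit 324) r5_290 r9_324 (nat_lit 9484367) (nat_lit 0) (nat_lit 0) (nat_lit 0x20056d4f2) (nat_lit 277919823),
  Rx.mk (nat_lit 329) (nat_lit 1) (nat_lit 1) (nat_lit 5) (nat_lit 7) (nat_lit 291) (nat_lit 325) r5_291 r9_325 (nat_lit 0) (nat_lit 0) (nat_lit 0) (nat_lit 0x20056d4f2) (nat_lit 268435456),
  Rx.mk (nat_lit 330) (nat_lit 2) (nat_lit 1) (nat_lit 5) (nat_lit 7) (nat_lit 292) (nat_lit 326) r5_292 r9_326 (nat_lit 0) (nat_lit 0) (nat_lit 0) (nat_lit 0x20056d4f2) (nat_lit 268435456)]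
noncomputable def e5_50 : List Rx := [
  Rx.mk (nat_lit 416) (nat_lit 0) (nat_lit 4) (nat_lit 6) (nat_lit 4) (nat_lit 293) (nat_lit 318) r5_293 r3_318 (nat_lit 551) (nat_lit 480) (nat_lit 0) (nat_lit 0x205037c80) (nat_lit 263307737),
  Rx.mk (nat_lit 417) (nat_lit 1) (nat_lit 4) (nat_lit 6) (nat_lit 5) (nat_lit 295) (nat_lit 320) r5_295 r3_320 (nat_lit 0) (nat_lit 72650) (nat_lit 0) (nat_lit 0x204a14f1a) (nat_lit 263776356),
  Rx.mk (nat_lit 440) (nat_lit 0) (nat_lit 7) (nat_lit 6) (nat_lit 6) (nat_lit 294) (nat_lit 319) r5_294 r3_319 (nat_lit 106368) (nat_lit 0) (nat_lit 0) (nat_lit 0x205fe2c8e) (nat_lit 262446824),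
  Rx.mk (nat_lit 441) (nat_lit 1) (nat_lit 7) (nat_lit 6) (nat_lit 7) (nat_lit 296) (nat_lit 321) r5_296 r3_321 (nat_lit 0) (nat_lit 0) (nat_lit 0) (nat_lit 0x2734b9196) (nat_lit 150645606)]
noncomputable def e5_51 : List Rx := [
  Rx.mk (nat_lit 416) (nat_lit 0) (nat_lit 4) (nat_lit 6) (nat_lit 4) (nat_lit 297) (nat_lit 343) r5_297 r4_343 (nat_lit 2829909) (nat_lit 1630600) (nat_lit 0) (nat_lit 0x1f1f7fb3e) (nat_lit 287983015),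
  Rx.mk (nat_lit 417) (nat_lit 1) (nat_lit 4) (nat_lit 6) (nat_lit 5) (nat_lit 300) (nat_lit 346) r5_300 r4_346 (nat_lit 0) (nat_lit 1488829) (nat_lit 0) (nat_lit 0x2343fab2c) (nat_lit 216631535),
  Rx.mk (nat_lit 424) (nat_lit 0) (nat_lit 5) (nat_lit 6) (nat_lit 6) (nat_lit 298) (nat_lit 344) r5_298 r4_344 (nat_lit 5067943) (nat_lit 0) (nat_lit 0) (nat_lit 0x208029ee8) (nat_lit 265551549),
  Rx.mk (nat_lit 425) (nat_lit 1) (nat_lit 5) (nat_lit 6) (nat_lit 7) (nat_lit 301) (nat_lit 347) r5_301 r4_347 (nat_lit 0) (nat_lit 0) (nat_lit 0) (nat_lit 0x23ee27712) (nat_lit 204275256),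
  Rx.mk (nat_lit 440) (nat_lit 0) (nat_lit 7) (nat_lit 6) (nat_lit 6) (nat_lit 299) (nat_lit 345) r5_299 r4_345 (nat_lit 5455800) (nat_lit 0) (nat_lit 0) (nat_lit 0x205d92fb0) (nat_lit 268173056),
  Rx.mk (nat_lit 441) (nat_lit 1) (nat_lit 7) (nat_lit 6) (nat_lit 7) (nat_lit 302) (nat_lit 348) r5_302 r4_348 (nat_lit 0) (nat_lit 0) (nat_lit 0) (nat_lit 0x20e0a1280) (nat_lit 254288556)]
noncomputable def e5_52 : List Rx := [
  Rx.mk (nat_lit 440) (nat_lit 0) (nat_lit 7) (nat_lit 6) (nat_lit 6) (nat_lit 303) (nat_lit 303) r5_303 r5_303 (nat_lit 385715) (nat_lit 0) (nat_lit 0) (nat_lit 0x2188e3fc4) (nat_lit 243762521),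
  Rx.mk (nat_lit 441) (nat_lit 1) (nat_lit 7) (nat_lit 6) (nat_lit 7) (nat_lit 304) (nat_lit 304) r5_304 r5_304 (nat_lit 0) (nat_lit 0) (nat_lit 0) (nat_lit 0x25aca9ff4) (nat_lit 175716006)]
noncomputable def e5_53 : List Rx := [
  Rx.mk (nat_lit 417) (nat_lit 1) (nat_lit 4) (nat_lit 6) (nat_lit 5) (nat_lit 305) (nat_lit 224) r5_305 r4_224 (nat_lit 0) (nat_lit 32184611) (nat_lit 0) (nat_lit 0x1ff911c4e) (nat_lit 301092217),
  Rx.mk (nat_lit 441) (nat_lit 1) (nat_lit 7) (nat_lit 6) (nat_lit 7) (nat_lit 306) (nat_lit 225) r5_306 r4_225 (nat_lit 0) (nat_lit 0) (nat_lit 0) (nat_lit 0x1f2f6a45e) (nat_lit 282376406)]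
noncomputable def e5_54 : List Rx := [
  Rx.mk (nat_lit 417) (nat_lit 1) (nat_lit 4) (nat_lit 6) (nat_lit 5) (nat_lit 307) (nat_lit 347) r5_307 r10_347 (nat_lit 0) (nat_lit 3329919) (nat_lit 0) (nat_lit 0x1ffcb0cec) (nat_lit 272305225),
  Rx.mk (nat_lit 425) (nat_lit 1) (nat_lit 5) (nat_lit 6) (nat_lit 7) (nat_lit 308) (nat_lit 348) r5_308 r10_348 (nat_lit 0) (nat_lit 0) (nat_lit 0) (nat_lit 0x20a492d52) (nat_lit 258146656),
  Rx.mk (nat_lit 441) (nat_lit 1) (nat_lit 7) (nat_lit 6) (nat_lit 7) (nat_lit 309) (nat_lit 349) r5_309 r10_349 (nat_lit 0) (nat_lit 0) (nat_lit 0) (nat_lit 0x20a487aa6) (nat_lit 258149456)]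
noncomputable def e5_55 : List Rx := [
  Rx.mk (nat_lit 441) (nat_lit 1) (nat_lit 7) (nat_lit 6) (nat_lit 7) (nat_lit 310) (nat_lit 356) r5_310 r11_356 (nat_lit 0) (nat_lit 0) (nat_lit 0) (nat_lit 0x220662e96) (nat_lit 235448656)]
noncomputable def e5_56 : List Rx := [
  Rx.mk (nat_lit 416) (nat_lit 0) (nat_lit 4) (nat_lit 6) (nat_lit 4) (nat_lit 311) (nat_lit 235) r5_311 r5_235 (nat_lit 133714) (nat_lit 831667) (nat_lit 0) (nat_lit 0x20421df00) (nat_lit 265211387),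
  Rx.mk (nat_lit 417) (nat_lit 1) (nat_lit 4) (nat_lit 6) (nat_lit 5) (nat_lit 313) (nat_lit 236) r5_313 r5_236 (nat_lit 0) (nat_lit 11852656) (nat_lit 0) (nat_lit 0x20db8b692) (nat_lit 266454662),
  Rx.mk (nat_lit 419) (nat_lit 3) (nat_lit 4) (nat_lit 6) (nat_lit 5) (nat_lit 315) (nat_lit 237) r5_315 r5_237 (nat_lit 0) (nat_lit 3156791) (nat_lit 0) (nat_lit 0x22f7d4e96) (nat_lit 223164547),
  Rx.mk (nat_lit 440) (nat_lit 0) (nat_lit 7) (nat_lit 6) (nat_lit 6) (nat_lit 312) (nat_lit 238) r5_312 r5_238 (nat_lit 485299) (nat_lit 0) (nat_lit 0) (nat_lit 0x207ca09c0) (nat_lit 261044755),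
  Rx.mk (nat_lit 441) (nat_lit 1) (nat_lit 7) (nat_lit 6) (nat_lit 7) (nat_lit 314) (nat_lit 239) r5_314 r5_239 (nat_lit 0) (nat_lit 0) (nat_lit 0) (nat_lit 0x21ec4591e) (nat_lit 237146206)]
noncomputable def e5_57 : List Rx := [
  Rx.mk (nat_lit 416) (nat_lit 0) (nat_lit 4) (nat_lit 6) (nat_lit 4) (nat_lit 316) (nat_lit 273) r5_316 r11_273 (nat_lit 6492070) (nat_lit 6392799) (nat_lit 0) (nat_lit 0x1cf2fbd62) (nat_lit 333336275),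
  Rx.mk (nat_lit 417) (nat_lit 1) (nat_lit 4) (nat_lit 6) (nat_lit 5) (nat_lit 319) (nat_lit 274) r5_319 r11_274 (nat_lit 0) (nat_lit 7986077) (nat_lit 0) (nat_lit 0x1ff6a9d1c) (nat_lit 277379183),
  Rx.mk (nat_lit 419) (nat_lit 3) (nat_lit 4) (nat_lit 6) (nat_lit 5) (nat_lit 322) (nat_lit 275) r5_322 r11_275 (nat_lit 0) (nat_lit 5161980) (nat_lit 0) (nat_lit 0x204c9998e) (nat_lit 268977936),
  Rx.mk (nat_lit 424) (nat_lit 0) (nat_lit 5) (nat_lit 6) (nat_lit 6) (nat_lit 317) (nat_lit 276) r5_317 r11_276 (nat_lit 6798092) (nat_lit 0) (nat_lit 0) (nat_lit 0x20253d3ae) (nat_lit 273161198),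
  Rx.mk (nat_lit 425) (nat_lit 1) (nat_lit 5) (nat_lit 6) (nat_lit 7) (nat_lit 320) (nat_lit 277) r5_320 r11_277 (nat_lit 0) (nat_lit 0) (nat_lit 0) (nat_lit 0x20056d4f2) (nat_lit 268435456),
  Rx.mk (nat_lit 427) (nat_lit 3) (nat_lit 5) (nat_lit 6) (nat_lit 7) (nat_lit 323) (nat_lit 278) r5_323 r11_278 (nat_lit 0) (nat_lit 0) (nat_lit 0) (nat_lit 0x20056d4f2) (nat_lit 268435456),
  Rx.mk (nat_lit 440) (nat_lit 0) (nat_lit 7) (nat_lit 6) (nat_lit 6) (nat_lit 318) (nat_lit 279) r5_318 r11_279 (nat_lit 6728347) (nat_lit 0) (nat_lit 0) (nat_lit 0x20360daee) (nat_lit 272003153),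
  Rx.mk (nat_lit 441) (nat_lit 1) (nat_lit 7) (nat_lit 6) (nat_lit 7) (nat_lit 321) (nat_lit 280) r5_321 r11_280 (nat_lit 0) (nat_lit 0) (nat_lit 0) (nat_lit 0x20056d4f2) (nat_lit 268435456)]
noncomputable def e5 : List (List Rx) := [e5_0, e5_1, e5_2, e5_3, e5_4, e5_5, e5_6, e5_7, e5_8, e5_9, e5_10, e5_11, e5_12, e5_13, e5_14, e5_15, e5_16, e5_17, e5_18, e5_19, e5_20, e5_21, e5_22, e5_23, e5_24, e5_25, e5_26, e5_27, e5_28, e5_29, e5_30, e5_31, e5_32, e5_33, e5_34, e5_35, e5_36, e5_37, e5_38, e5_39, e5_40, e5_41, e5_42, e5_43, e5_44, e5_45, e5_46, e5_47, e5_48, e5_49, e5_50, e5_51, e5_52, e5_53, e5_54, e5_55, e5_56, e5_57]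

end Pool.Agent.AKXS_36_42_VA
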