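import Pool.Agent.AKXS_36_42_VA.R0
import Pool.Agent.AKXS_36_42_VA.R1
import Pool.Agent.AKXS_36_42_VA.R2
import Pool.Agent.AKXS_36_42_VA.R3
import Pool.Agent.AKXS_36_42_VA.R4
import Pool.Agent.AKXS_36_42_VA.R5
import Pool.Agent.AKXS_36_42_VA.R6
import Pool.Agent.AKXS_36_42_VA.R7
import Pool.Agent.AKXS_36_42_VA.R8
import Pool.Agent.AKXS_36_42_VA.R9
import Pool.Agent.AKXS_36_42_VA.R10
import Pool.Agent.AKXS_36_42_VA.R11
import Pool.Agent.AKXS_36_42_VA.R12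

set_option autoImplicit false

namespace Pool.Agent.AKXS_36_42_VA

open Pool.Agent.AKX Pool.Agent.AKU

noncomputable def e12_0 : List Rx := [
  Rx.mk (nat_lit 2) (nat_lit 2) (nat_lit 0) (nat_lit 0) (nat_lit 1) (nat_lit 91) (nat_lit 94) r0_91 r0_94 (nat_lit 0) (nat_lit 60842100) (nat_lit 1628884) (nat_lit 0x1ac63eefc) (nat_lit 419815890),
  Rx.mk (nat_lit 18) (nat_lit 2) (nat_lit 2) (nat_lit 0) (nat_lit 3) (nat_lit 92) (nat_lit 97) r0_92 r0_97 (nat_lit 0) (nat_lit 0) (nat_lit 9463670) (nat_lit 0x1b81c5de2) (nat_lit 354415976),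
  Rx.mk (nat_lit 146) (nat_lit 2) (nat_lit 2) (nat_lit 2) (nat_lit 7) (nat_lit 93) (nat_lit 99) r0_93 r0_99 (nat_lit 0) (nat_lit 0) (nat_lit 0) (nat_lit 0x1fdac48ea) (nat_lit 271218956),
  Rx.mk (nat_lit 192) (nat_lit 0) (nat_lit 0) (nat_lit 3) (nat_lit 4) (nat_lit 94) (nat_lit 91) r0_94 r0_91 (nat_lit 1628884) (nat_lit 60842100) (nat_lit 0) (nat_lit 0x1ac63eefc) (nat_lit 419815890),
  Rx.mk (nat_lit 194) (nat_lit 2) (nat_lit 0) (nat_lit 3) (nat_lit 5) (nat_lit 95) (nat_lit 95) r0_95 r0_95 (nat_lit 0) (nat_lit 45985386) (nat_lit 0) (nat_lit 0x204996d54) (nat_lit 309979092),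
  Rx.mk (nat_lit 210) (nat_lit 2) (nat_lit 2) (nat_lit 3) (nat_lit 7) (nat_lit 96) (nat_lit 98) r0_96 r0_98 (nat_lit 0) (nat_lit 0) (nat_lit 0) (nat_lit 0x20167bdc0) (nat_lit 267324756),
  Rx.mk (nat_lit 216) (nat_lit 0) (nat_lit 3) (nat_lit 3) (nat_lit 6) (nat_lit 97) (nat_lit 92) r0_97 r0_92 (nat_lit 9463670) (nat_lit 0) (nat_lit 0) (nat_lit 0x1b81c5de2) (nat_lit 354415976),
  Rx.mk (nat_lit 218) (nat_lit 2) (nat_lit 3) (nat_lit 3) (nat_lit 7) (nat_lit 98) (nat_lit 96) r0_98 r0_96 (nat_lit 0) (nat_lit 0) (nat_lit 0) (nat_lit 0x20167bdc0) (nat_lit 267324756),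
  Rx.mk (nat_lit 219) (nat_lit 3) (nat_lit 3) (nat_lit 3) (nat_lit 7) (nat_lit 99) (nat_lit 93) r0_99 r0_93 (nat_lit 0) (nat_lit 0) (nat_lit 0) (nat_lit 0x1fdac48ea) (nat_lit 271218956)]
noncomputable def e12_1 : List Rx := [
  Rx.mk (nat_lit 0) (nat_lit 0) (nat_lit 0) (nat_lit 0) (nat_lit 0) (nat_lit 111) (nat_lit 94) r0_111 r1_94 (nat_lit 1151) (nat_lit 71503781) (nat_lit 1132) (nat_lit 0x1ffffcd4c) (nat_lit 339943120),
  Rx.mk (nat_lit 2) (nat_lit 2) (nat_lit 0) (nat_lit 0) (nat_lit 1) (nat_lit 112) (nat_lit 99) r0_112 r1_99 (nat_lit 0) (nat_lit 34468149) (nat_lit 3336276) (nat_lit 0x1d1651a5a) (nat_lit 355883931),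
  Rx.mk (nat_lit 18) (nat_lit 2) (nat_lit 2) (nat_lit 0) (nat_lit 3) (nat_lit 113) (nat_lit 103) r0_113 r1_103 (nat_lit 0) (nat_lit 0) (nat_lit 7095785) (nat_lit 0x1f099b1ce) (nat_lit 292101241),
  Rx.mk (nat_lit 64) (nat_lit 0) (nat_lit 0) (nat_lit 1) (nat_lit 4) (nat_lit 114) (nat_lit 95) r0_114 r1_95 (nat_lit 4173814) (nat_lit 104667208) (nat_lit 0) (nat_lit 0x200e73d6c) (nat_lit 376678078),
  Rx.mk (nat_lit 66) (nat_lit 2) (nat_lit 0) (nat_lit 1) (nat_lit 5) (nat_lit 115) (nat_lit 100) r0_115 r1_100 (nat_lit 0) (nat_lit 13267100) (nat_lit 0) (nat_lit 0x1fdaa1d54) (nat_lit 284493406),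
  Rx.mk (nat_lit 82) (nat_lit 2) (nat_lit 2) (nat_lit 1) (nat_lit 7) (nat_lit 116) (nat_lit 104) r0_116 r1_104 (nat_lit 0) (nat_lit 0) (nat_lit 0) (nat_lit 0x20056d4f2) (nat_lit 268435456),
  Rx.mk (nat_lit 146) (nat_lit 2) (nat_lit 2) (nat_lit 2) (nat_lit 7) (nat_lit 117) (nat_lit 106) r0_117 r1_106 (nat_lit 0) (nat_lit 0) (nat_lit 0) (nat_lit 0x20056d4f2) (nat_lit 268435456),
  Rx.mk (nat_lit 192) (nat_lit 0) (nat_lit 0) (nat_lit 3) (nat_lit 4) (nat_lit 118) (nat_lit 96) r0_118 r1_96 (nat_lit 10218001) (nat_lit 56350289) (nat_lit 0) (nat_lit 0x1f745a79e) (nat_lit 344506196),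
  Rx.mk (nat_lit 194) (nat_lit 2) (nat_lit 0) (nat_lit 3) (nat_lit 5) (nat_lit 119) (nat_lit 101) r0_119 r1_101 (nat_lit 0) (nat_lit 11841269) (nat_lit 0) (nat_lit 0x20e29fb5e) (nat_lit 266000725),
  Rx.mk (nat_lit 210) (nat_lit 2) (nat_lit 2) (nat_lit 3) (nat_lit 7) (nat_lit 120) (nat_lit 105) r0_120 r1_105 (nat_lit 0) (nat_lit 0) (nat_lit 0) (nat_lit 0x20056d4f2) (nat_lit 268435456),
  Rx.mk (nat_lit 216) (nat_lit 0) (nat_lit 3) (nat_lit 3) (nat_lit 6) (nat_lit 121) (nat_lit 97) r0_121 r1_97 (nat_lit 7542287) (nat_lit 0) (nat_lit 0) (nat_lit 0x201cafd36) (nat_lit 274462593),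
  Rx.mk (nat_lit 218) (nat_lit 2) (nat_lit 3) (nat_lit 3) (nat_lit 7) (nat_lit 122) (nat_lit 102) r0_122 r1_102 (nat_lit 0) (nat_lit 0) (nat_lit 0) (nat_lit 0x20056d4f2) (nat_lit 268435456),
  Rx.mk (nat_lit 219) (nat_lit 3) (nat_lit 3) (nat_lit 3) (nat_lit 7) (nat_lit 123) (nat_lit 98) r0_123 r1_98 (nat_lit 0) (nat_lit 0) (nat_lit 0) (nat_lit 0x20056d4f2) (nat_lit 268435456)]
noncomputable def e12_2 : List Rx := [
  Rx.mk (nat_lit 64) (nat_lit 0) (nat_lit 0) (nat_lit 1) (nat_lit 4) (nat_lit 254) (nat_lit 98) r0_254 r2_98 (nat_lit 7936988) (nat_lit 23860633) (nat_lit 0) (nat_lit 0x160a0e9fc) (nat_lit 469629927),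
  Rx.mk (nat_lit 66) (nat_lit 2) (nat_lit 0) (nat_lit 1) (nat_lit 5) (nat_lit 255) (nat_lit 99) r0_255 r2_99 (nat_lit 0) (nat_lit 24694302) (nat_lit 0) (nat_lit 0x1f1cd48f8) (nat_lit 308430658),
  Rx.mk (nat_lit 82) (nat_lit 2) (nat_lit 2) (nat_lit 1) (nat_lit 7) (nat_lit 256) (nat_lit 100) r0_256 r2_100 (nat_lit 0) (nat_lit 0) (nat_lit 0) (nat_lit 0x20056d4f2) (nat_lit 268435456)]
noncomputable def e12_3 : List Rx := [
  Rx.mk (nat_lit 192) (nat_lit 0) (nat_lit 0) (nat_lit 3) (nat_lit 4) (nat_lit 43) (nat_lit 91) r0_43 r3_91 (nat_lit 74) (nat_lit 237) (nat_lit 0) (nat_lit 0x2052170be) (nat_lit 263187217),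
  Rx.mk (nat_lit 194) (nat_lit 2) (nat_lit 0) (nat_lit 3) (nat_lit 5) (nat_lit 44) (nat_lit 97) r0_44 r3_97 (nat_lit 0) (nat_lit 41515) (nat_lit 0) (nat_lit 0x1d3411838) (nat_lit 315993021),
  Rx.mk (nat_lit 210) (nat_lit 2) (nat_lit 2) (nat_lit 3) (nat_lit 7) (nat_lit 45) (nat_lit 99) r0_45 r3_99 (nat_lit 0) (nat_lit 0) (nat_lit 0) (nat_lit 0x1f5a47708) (nat_lit 279658856),
  Rx.mk (nat_lit 216) (nat_lit 0) (nat_lit 3) (nat_lit 3) (nat_lit 6) (nat_lit 46) (nat_lit 92) r0_46 r3_92 (nat_lit 221533) (nat_lit 0) (nat_lit 0) (nat_lit 0x1f6467e9a) (nat_lit 279046389),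
  Rx.mk (nat_lit 218) (nat_lit 2) (nat_lit 3) (nat_lit 3) (nat_lit 7) (nat_lit 47) (nat_lit 98) r0_47 r3_98 (nat_lit 0) (nat_lit 0) (nat_lit 0) (nat_lit 0x20628cae8) (nat_lit 262391206),
  Rx.mk (nat_lit 315) (nat_lit 3) (nat_lit 7) (nat_lit 4) (nat_lit 3) (nat_lit 48) (nat_lit 95) r0_48 r3_95 (nat_lit 0) (nat_lit 0) (nat_lit 3060) (nat_lit 0x1ffe47150) (nat_lit 268554166),
  Rx.mk (nat_lit 472) (nat_lit 0) (nat_lit 3) (nat_lit 7) (nat_lit 6) (nat_lit 49) (nat_lit 93) r0_49 r3_93 (nat_lit 2053) (nat_lit 0) (nat_lit 0) (nat_lit 0x1fff1523a) (nat_lit 268499659),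
  Rx.mk (nat_lit 475) (nat_lit 3) (nat_lit 3) (nat_lit 7) (nat_lit 7) (nat_lit 50) (nat_lit 94) r0_50 r3_94 (nat_lit 0) (nat_lit 0) (nat_lit 0) (nat_lit 0x2006da4f2) (nat_lit 268322256),
  Rx.mk (nat_lit 507) (nat_lit 3) (nat_lit 7) (nat_lit 7) (nat_lit 7) (nat_lit 51) (nat_lit 96) r0_51 r3_96 (nat_lit 0) (nat_lit 0) (nat_lit 0) (nat_lit 0x1f48084e8) (nat_lit 280847656)]
noncomputable def e12_4 : List Rx := [
  Rx.mk (nat_lit 192) (nat_lit 0) (nat_lit 0) (nat_lit 3) (nat_lit 4) (nat_lit 142) (nat_lit 93) r0_142 r4_93 (nat_lit 59176) (nat_lit 52596454) (nat_lit 0) (nat_lit 0x18b3f3b46) (nat_lit 445081686),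
  Rx.mk (nat_lit 194) (nat_lit 2) (nat_lit 0) (nat_lit 3) (nat_lit 5) (nat_lit 143) (nat_lit 95) r0_143 r4_95 (nat_lit 0) (nat_lit 33826584) (nat_lit 0) (nat_lit 0x20ad33e2a) (nat_lit 291385790),
  Rx.mk (nat_lit 210) (nat_lit 2) (nat_lit 2) (nat_lit 3) (nat_lit 7) (nat_lit 144) (nat_lit 97) r0_144 r4_97 (nat_lit 0) (nat_lit 0) (nat_lit 0) (nat_lit 0x202be8910) (nat_lit 265932556),
  Rx.mk (nat_lit 216) (nat_lit 0) (nat_lit 3) (nat_lit 3) (nat_lit 6) (nat_lit 145) (nat_lit 94) r0_145 r4_94 (nat_lit 5249002) (nat_lit 0) (nat_lit 0) (nat_lit 0x1fa57fb76) (nat_lit 279949358),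
  Rx.mk (nat_lit 218) (nat_lit 2) (nat_lit 3) (nat_lit 3) (nat_lit 7) (nat_lit 146) (nat_lit 96) r0_146 r4_96 (nat_lit 0) (nat_lit 0) (nat_lit 0) (nat_lit 0x20711b0e6) (nat_lit 261457706)]
noncomputable def e12_5 : List Rx := [
  Rx.mk (nat_lit 192) (nat_lit 0) (nat_lit 0) (nat_lit 3) (nat_lit 4) (nat_lit 204) (nat_lit 94) r0_204 r5_94 (nat_lit 68266) (nat_lit 4376312) (nat_lit 0) (nat_lit 0x2011af8e6) (nat_lit 271776584),
  Rx.mk (nat_lit 194) (nat_lit 2) (nat_lit 0) (nat_lit 3) (nat_lit 5) (nat_lit 205) (nat_lit 100) r0_205 r5_100 (nat_lit 0) (nat_lit 51585995) (nat_lit 0) (nat_lit 0x1f40b1c8a) (nat_lit 332930751),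
  Rx.mk (nat_lit 210) (nat_lit 2) (nat_lit 2) (nat_lit 3) (nat_lit 7) (nat_lit 206) (nat_lit 101) r0_206 r5_101 (nat_lit 0) (nat_lit 0) (nat_lit 0) (nat_lit 0x1fbe83a50) (nat_lit 273060756),
  Rx.mk (nat_lit 283) (nat_lit 3) (nat_lit 3) (nat_lit 4) (nat_lit 3) (nat_lit 207) (nat_lit 97) r0_207 r5_97 (nat_lit 0) (nat_lit 0) (nat_lit 3102681) (nat_lit 0x1aefd6c10) (nat_lit 357710387),
  Rx.mk (nat_lit 315) (nat_lit 3) (nat_lit 7) (nat_lit 4) (nat_lit 3) (nat_lit 208) (nat_lit 99) r0_208 r5_99 (nat_lit 0) (nat_lit 0) (nat_lit 4120485) (nat_lit 0x1d90add30) (nat_lit 314093041),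
  Rx.mk (nat_lit 448) (nat_lit 0) (nat_lit 0) (nat_lit 7) (nat_lit 4) (nat_lit 209) (nat_lit 95) r0_209 r5_95 (nat_lit 2166) (nat_lit 2742) (nat_lit 0) (nat_lit 0x1ffe6a894) (nat_lit 268546314),
  Rx.mk (nat_lit 472) (nat_lit 0) (nat_lit 3) (nat_lit 7) (nat_lit 6) (nat_lit 210) (nat_lit 96) r0_210 r5_96 (nat_lit 1935890) (nat_lit 0) (nat_lit 0) (nat_lit 0x20e2c5174) (nat_lit 256065246),
  Rx.mk (nat_lit 475) (nat_lit 3) (nat_lit 3) (nat_lit 7) (nat_lit 7) (nat_lit 211) (nat_lit 98) r0_211 r5_98 (nat_lit 0) (nat_lit 0) (nat_lit 0) (nat_lit 0x205a0ba36) (nat_lit 262948156)]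
noncomputable def e12_6 : List Rx := [
  Rx.mk (nat_lit 257) (nat_lit 1) (nat_lit 0) (nat_lit 4) (nat_lit 1) (nat_lit 300) (nat_lit 146) r0_300 r3_146 (nat_lit 0) (nat_lit 142) (nat_lit 304) (nat_lit 0x20000c530) (nat_lit 268432952),
  Rx.mk (nat_lit 281) (nat_lit 1) (nat_lit 3) (nat_lit 4) (nat_lit 3) (nat_lit 301) (nat_lit 149) r0_301 r3_149 (nat_lit 0) (nat_lit 0) (nat_lit 44942) (nat_lit 0x1f4ac648c) (nat_lit 280510798),
  Rx.mk (nat_lit 320) (nat_lit 0) (nat_lit 0) (nat_lit 5) (nat_lit 4) (nat_lit 302) (nat_lit 145) r0_302 r3_145 (nat_lit 404) (nat_lit 825) (nat_lit 0) (nat_lit 0x1e41714e6) (nat_lit 298072835),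
  Rx.mk (nat_lit 321) (nat_lit 1) (nat_lit 0) (nat_lit 5) (nat_lit 5) (nat_lit 303) (nat_lit 147) r0_303 r3_147 (nat_lit 0) (nat_lit 490321) (nat_lit 0) (nat_lit 0x1f1f55190) (nat_lit 283872577),
  Rx.mk (nat_lit 344) (nat_lit 0) (nat_lit 3) (nat_lit 5) (nat_lit 6) (nat_lit 304) (nat_lit 148) r0_304 r3_148 (nat_lit 655885) (nat_lit 0) (nat_lit 0) (nat_lit 0x1e5b1fe06) (nat_lit 297129541),
  Rx.mk (nat_lit 345) (nat_lit 1) (nat_lit 3) (nat_lit 5) (nat_lit 7) (nat_lit 305) (nat_lit 150) r0_305 r3_150 (nat_lit 0) (nat_lit 0) (nat_lit 0) (nat_lit 0x21de14764) (nat_lit 238010106)]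
noncomputable def e12_7 : List Rx := [
  Rx.mk (nat_lit 320) (nat_lit 0) (nat_lit 0) (nat_lit 5) (nat_lit 4) (nat_lit 248) (nat_lit 171) r0_248 r0_171 (nat_lit 748) (nat_lit 205064910) (nat_lit 0) (nat_lit 0x200021610) (nat_lit 473493114),
  Rx.mk (nat_lit 321) (nat_lit 1) (nat_lit 0) (nat_lit 5) (nat_lit 5) (nat_lit 249) (nat_lit 172) r0_249 r0_172 (nat_lit 0) (nat_lit 120058012) (nat_lit 0) (nat_lit 0x1f4928120) (nat_lit 400822818)]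
noncomputable def e12_8 : List Rx := [
  Rx.mk (nat_lit 64) (nat_lit 0) (nat_lit 0) (nat_lit 1) (nat_lit 4) (nat_lit 265) (nat_lit 180) r0_265 r1_180 (nat_lit 2915443) (nat_lit 27431001) (nat_lit 0) (nat_lit 0x1aee862ac) (nat_lit 385035350),
  Rx.mk (nat_lit 65) (nat_lit 1) (nat_lit 0) (nat_lit 1) (nat_lit 5) (nat_lit 266) (nat_lit 182) r0_266 r1_182 (nat_lit 0) (nat_lit 13498567) (nat_lit 0) (nat_lit 0x1febef980) (nat_lit 283586673),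
  Rx.mk (nat_lit 66) (nat_lit 2) (nat_lit 0) (nat_lit 1) (nat_lit 5) (nat_lit 267) (nat_lit 183) r0_267 r1_183 (nat_lit 0) (nat_lit 116538040) (nat_lit 0) (nat_lit 0x22883d93e) (nat_lit 343677296),
  Rx.mk (nat_lit 82) (nat_lit 2) (nat_lit 2) (nat_lit 1) (nat_lit 7) (nat_lit 268) (nat_lit 184) r0_268 r1_184 (nat_lit 0) (nat_lit 0) (nat_lit 0) (nat_lit 0x202a9392a) (nat_lit 265996306),
  Rx.mk (nat_lit 320) (nat_lit 0) (nat_lit 0) (nat_lit 5) (nat_lit 4) (nat_lit 269) (nat_lit 179) r0_269 r1_179 (nat_lit 6663) (nat_lit 224842397) (nat_lit 0) (nat_lit 0x203c84418) (nat_lit 489417766),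
  Rx.mk (nat_lit 321) (nat_lit 1) (nat_lit 0) (nat_lit 5) (nat_lit 5) (nat_lit 270) (nat_lit 181) r0_270 r1_181 (nat_lit 0) (nat_lit 31547541) (nat_lit 0) (nat_lit 0x20169be36) (nat_lit 298828947)]
noncomputable def e12_9 : List Rx := [
  Rx.mk (nat_lit 320) (nat_lit 0) (nat_lit 0) (nat_lit 5) (nat_lit 4) (nat_lit 318) (nat_lit 155) r0_318 r4_155 (nat_lit 682361) (nat_lit 45897877) (nat_lit 0) (nat_lit 0x1ac82f784) (nat_lit 403756194),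
  Rx.mk (nat_lit 321) (nat_lit 1) (nat_lit 0) (nat_lit 5) (nat_lit 5) (nat_lit 319) (nat_lit 156) r0_319 r4_156 (nat_lit 0) (nat_lit 7646795) (nat_lit 0) (nat_lit 0x1fdee8e30) (nat_lit 278562101),
  Rx.mk (nat_lit 344) (nat_lit 0) (nat_lit 3) (nat_lit 5) (nat_lit 6) (nat_lit 320) (nat_lit 157) r0_320 r4_157 (nat_lit 3950502) (nat_lit 0) (nat_lit 0) (nat_lit 0x1d80f113a) (nat_lit 314972808),
  Rx.mk (nat_lit 345) (nat_lit 1) (nat_lit 3) (nat_lit 5) (nat_lit 7) (nat_lit 321) (nat_lit 158) r0_321 r4_158 (nat_lit 0) (nat_lit 0) (nat_lit 0) (nat_lit 0x20aa8325c) (nat_lit 257764206)]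
noncomputable def e12_10 : List Rx := [
  Rx.mk (nat_lit 280) (nat_lit 0) (nat_lit 3) (nat_lit 4) (nat_lit 2) (nat_lit 228) (nat_lit 99) r0_228 r6_99 (nat_lit 16044) (nat_lit 0) (nat_lit 15494) (nat_lit 0x1b76dfdd8) (nat_lit 345529294),
  Rx.mk (nat_lit 281) (nat_lit 1) (nat_lit 3) (nat_lit 4) (nat_lit 3) (nat_lit 229) (nat_lit 102) r0_229 r6_102 (nat_lit 0) (nat_lit 0) (nat_lit 976590) (nat_lit 0x234d34814) (nat_lit 215456696),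
  Rx.mk (nat_lit 283) (nat_lit 3) (nat_lit 3) (nat_lit 4) (nat_lit 3) (nat_lit 230) (nat_lit 104) r0_230 r6_104 (nat_lit 0) (nat_lit 0) (nat_lit 3977399) (nat_lit 0x1d9bca592) (nat_lit 313213855),
  Rx.mk (nat_lit 315) (nat_lit 3) (nat_lit 7) (nat_lit 4) (nat_lit 3) (nat_lit 231) (nat_lit 105) r0_231 r6_105 (nat_lit 0) (nat_lit 0) (nat_lit 2529310) (nat_lit 0x1e4d6bdfa) (nat_lit 299976366),
  Rx.mk (nat_lit 448) (nat_lit 0) (nat_lit 0) (nat_lit 7) (nat_lit 4) (nat_lit 232) (nat_lit 98) r0_232 r6_98 (nat_lit 38610) (nat_lit 60415) (nat_lit 0) (nat_lit 0x1ce8ca2c6) (nat_lit 321056381),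
  Rx.mk (nat_lit 449) (nat_lit 1) (nat_lit 0) (nat_lit 7) (nat_lit 5) (nat_lit 233) (nat_lit 101) r0_233 r6_101 (nat_lit 0) (nat_lit 131306) (nat_lit 0) (nat_lit 0x22f04eb90) (nat_lit 220495462),
  Rx.mk (nat_lit 472) (nat_lit 0) (nat_lit 3) (nat_lit 7) (nat_lit 6) (nat_lit 234) (nat_lit 100) r0_234 r6_100 (nat_lit 2963373) (nat_lit 0) (nat_lit 0) (nat_lit 0x207a0588c) (nat_lit 263834079),
  Rx.mk (nat_lit 473) (nat_lit 1) (nat_lit 3) (nat_lit 7) (nat_lit 7) (nat_lit 235) (nat_lit 103) r0_235 r6_103 (nat_lit 0) (nat_lit 0) (nat_lit 0) (nat_lit 0x2506d06b4) (nat_lit 186321856)]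
noncomputable def e12_11 : List Rx := [
  Rx.mk (nat_lit 256) (nat_lit 0) (nat_lit 0) (nat_lit 4) (nat_lit 0) (nat_lit 330) (nat_lit 152) r0_330 r5_152 (nat_lit 473) (nat_lit 69835031) (nat_lit 439) (nat_lit 0x200002fd0) (nat_lit 338270949),
  Rx.mk (nat_lit 257) (nat_lit 1) (nat_lit 0) (nat_lit 4) (nat_lit 1) (nat_lit 331) (nat_lit 155) r0_331 r5_155 (nat_lit 0) (nat_lit 3310166) (nat_lit 4486587) (nat_lit 0x1fc554a14) (nat_lit 280349959),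
  Rx.mk (nat_lit 280) (nat_lit 0) (nat_lit 3) (nat_lit 4) (nat_lit 2) (nat_lit 332) (nat_lit 158) r0_332 r5_158 (nat_lit 2817616) (nat_lit 0) (nat_lit 3538416) (nat_lit 0x1c2323356) (nat_lit 340567738),
  Rx.mk (nat_lit 281) (nat_lit 1) (nat_lit 3) (nat_lit 4) (nat_lit 3) (nat_lit 333) (nat_lit 160) r0_333 r5_160 (nat_lit 0) (nat_lit 0) (nat_lit 5672723) (nat_lit 0x202926948) (nat_lit 271746229),
  Rx.mk (nat_lit 283) (nat_lit 3) (nat_lit 3) (nat_lit 4) (nat_lit 3) (nat_lit 334) (nat_lit 162) r0_334 r5_162 (nat_lit 0) (nat_lit 0) (nat_lit 7216955) (nat_lit 0x1d79975a6) (nat_lit 318736661),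
  Rx.mk (nat_lit 320) (nat_lit 0) (nat_lit 0) (nat_lit 5) (nat_lit 4) (nat_lit 335) (nat_lit 153) r0_335 r5_153 (nat_lit 4373304) (nat_lit 34829005) (nat_lit 0) (nat_lit 0x1d3bf12ec) (nat_lit 354784215),
  Rx.mk (nat_lit 321) (nat_lit 1) (nat_lit 0) (nat_lit 5) (nat_lit 5) (nat_lit 336) (nat_lit 156) r0_336 r5_156 (nat_lit 0) (nat_lit 10297258) (nat_lit 0) (nat_lit 0x1fb3eae4a) (nat_lit 284055964),
  Rx.mk (nat_lit 344) (nat_lit 0) (nat_lit 3) (nat_lit 5) (nat_lit 6) (nat_lit 337) (nat_lit 159) r0_337 r5_159 (nat_lit 4420229) (nat_lit 0) (nat_lit 0) (nat_lit 0x1f9a9dc12) (nat_lit 279829885),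
  Rx.mk (nat_lit 345) (nat_lit 1) (nat_lit 3) (nat_lit 5) (nat_lit 7) (nat_lit 338) (nat_lit 161) r0_338 r5_161 (nat_lit 0) (nat_lit 0) (nat_lit 0) (nat_lit 0x201dc6788) (nat_lit 266850056),
  Rx.mk (nat_lit 347) (nat_lit 3) (nat_lit 3) (nat_lit 5) (nat_lit 7) (nat_lit 339) (nat_lit 163) r0_339 r5_163 (nat_lit 0) (nat_lit 0) (nat_lit 0) (nat_lit 0x203fca38e) (nat_lit 264643506),
  Rx.mk (nat_lit 448) (nat_lit 0) (nat_lit 0) (nat_lit 7) (nat_lit 4) (nat_lit 340) (nat_lit 154) r0_340 r5_154 (nat_lit 530811) (nat_lit 14285582) (nat_lit 0) (nat_lit 0x1fcf982be) (nat_lit 286596799),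
  Rx.mk (nat_lit 449) (nat_lit 1) (nat_lit 0) (nat_lit 7) (nat_lit 5) (nat_lit 341) (nat_lit 157) r0_341 r5_157 (nat_lit 0) (nat_lit 1426242) (nat_lit 0) (nat_lit 0x1f874fb24) (nat_lit 278037498)]
noncomputable def e12_12 : List Rx := [
  Rx.mk (nat_lit 18) (nat_lit 2) (nat_lit 2) (nat_lit 0) (nat_lit 3) (nat_lit 0) (nat_lit 10) r0_0 r0_10 (nat_lit 0) (nat_lit 0) (nat_lit 5471) (nat_lit 0x1bae1cfda) (nat_lit 341835427),
  Rx.mk (nat_lit 146) (nat_lit 2) (nat_lit 2) (nat_lit 2) (nat_lit 7) (nat_lit 1) (nat_lit 19) r0_1 r0_19 (nat_lit 0) (nat_lit 0) (nat_lit 0) (nat_lit 0x1e0c3e6d4) (nat_lit 301686606),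
  Rx.mk (nat_lit 150) (nat_lit 6) (nat_lit 2) (nat_lit 2) (nat_lit 7) (nat_lit 2) (nat_lit 18) r0_2 r0_18 (nat_lit 0) (nat_lit 0) (nat_lit 0) (nat_lit 0x1f323f396) (nat_lit 282197306),
  Rx.mk (nat_lit 182) (nat_lit 6) (nat_lit 6) (nat_lit 2) (nat_lit 7) (nat_lit 3) (nat_lit 17) r0_3 r0_17 (nat_lit 0) (nat_lit 0) (nat_lit 0) (nat_lit 0x1f706ec5c) (nat_lit 278205956),
  Rx.mk (nat_lit 192) (nat_lit 0) (nat_lit 0) (nat_lit 3) (nat_lit 4) (nat_lit 4) (nat_lit 11) r0_4 r0_11 (nat_lit 386) (nat_lit 488) (nat_lit 0) (nat_lit 0x1fffea2a0) (nat_lit 268442230),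
  Rx.mk (nat_lit 194) (nat_lit 2) (nat_lit 0) (nat_lit 3) (nat_lit 5) (nat_lit 5) (nat_lit 12) r0_5 r0_12 (nat_lit 0) (nat_lit 652718) (nat_lit 0) (nat_lit 0x1cc51c770) (nat_lit 324049624),
  Rx.mk (nat_lit 210) (nat_lit 2) (nat_lit 2) (nat_lit 3) (nat_lit 7) (nat_lit 6) (nat_lit 16) r0_6 r0_16 (nat_lit 0) (nat_lit 0) (nat_lit 0) (nat_lit 0x1fffd8ce4) (nat_lit 268446456),
  Rx.mk (nat_lit 216) (nat_lit 0) (nat_lit 3) (nat_lit 3) (nat_lit 6) (nat_lit 7) (nat_lit 13) r0_7 r0_13 (nat_lit 719) (nat_lit 0) (nat_lit 0) (nat_lit 0x21a732c8c) (nat_lit 241379425),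
  Rx.mk (nat_lit 218) (nat_lit 2) (nat_lit 3) (nat_lit 3) (nat_lit 7) (nat_lit 8) (nat_lit 15) r0_8 r0_15 (nat_lit 0) (nat_lit 0) (nat_lit 0) (nat_lit 0x200b040dc) (nat_lit 268060406),
  Rx.mk (nat_lit 219) (nat_lit 3) (nat_lit 3) (nat_lit 3) (nat_lit 7) (nat_lit 9) (nat_lit 14) r0_9 r0_14 (nat_lit 0) (nat_lit 0) (nat_lit 0) (nat_lit 0x1f2e154d2) (nat_lit 282588656),
  Rx.mk (nat_lit 319) (nat_lit 7) (nat_lit 7) (nat_lit 4) (nat_lit 3) (nat_lit 10) (nat_lit 0) r0_10 r0_0 (nat_lit 0) (nat_lit 0) (nat_lit 5471) (nat_lit 0x1bae1cfda) (nat_lit 341835427),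
  Rx.mk (nat_lit 420) (nat_lit 4) (nat_lit 4) (nat_lit 6) (nat_lit 4) (nat_lit 11) (nat_lit 4) r0_11 r0_4 (nat_lit 386) (nat_lit 488) (nat_lit 0) (nat_lit 0x1fffea2a0) (nat_lit 268442230),
  Rx.mk (nat_lit 423) (nat_lit 7) (nat_lit 4) (nat_lit 6) (nat_lit 5) (nat_lit 12) (nat_lit 5) r0_12 r0_5 (nat_lit 0) (nat_lit 652718) (nat_lit 0) (nat_lit 0x1cc51c770) (nat_lit 324049624),
  Rx.mk (nat_lit 436) (nat_lit 4) (nat_lit 6) (nat_lit 6) (nat_lit 6) (nat_lit 13) (nat_lit 7) r0_13 r0_7 (nat_lit 719) (nat_lit 0) (nat_lit 0) (nat_lit 0x21a732c8c) (nat_lit 241379425),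
  Rx.mk (nat_lit 438) (nat_lit 6) (nat_lit 6) (nat_lit 6) (nat_lit 7) (nat_lit 14) (nat_lit 9) r0_14 r0_9 (nat_lit 0) (nat_lit 0) (nat_lit 0) (nat_lit 0x1f2e154d2) (nat_lit 282588656),
  Rx.mk (nat_lit 439) (nat_lit 7) (nat_lit 6) (nat_lit 6) (nat_lit 7) (nat_lit 15) (nat_lit 8) r0_15 r0_8 (nat_lit 0) (nat_lit 0) (nat_lit 0) (nat_lit 0x200b040dc) (nat_lit 268060406),
  Rx.mk (nat_lit 447) (nat_lit 7) (nat_lit 7) (nat_lit 6) (nat_lit 7) (nat_lit 16) (nat_lit 6) r0_16 r0_6 (nat_lit 0) (nat_lit 0) (nat_lit 0) (nat_lit 0x1fffd8ce4) (nat_lit 268446456),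
  Rx.mk (nat_lit 475) (nat_lit 3) (nat_lit 3) (nat_lit 7) (nat_lit 7) (nat_lit 17) (nat_lit 3) r0_17 r0_3 (nat_lit 0) (nat_lit 0) (nat_lit 0) (nat_lit 0x1f706ec5c) (nat_lit 278205956),
  Rx.mk (nat_lit 507) (nat_lit 3) (nat_lit 7) (nat_lit 7) (nat_lit 7) (nat_lit 18) (nat_lit 2) r0_18 r0_2 (nat_lit 0) (nat_lit 0) (nat_lit 0) (nat_lit 0x1f323f396) (nat_lit 282197306),
  Rx.mk (nat_lit 511) (nat_lit 7) (nat_lit 7) (nat_lit 7) (nat_lit 7) (nat_lit 19) (nat_lit 1) r0_19 r0_1 (nat_lit 0) (nat_lit 0) (nat_lit 0) (nat_lit 0x1e0c3e6d4) (nat_lit 301686606)]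
noncomputable def e12_13 : List Rx := [
  Rx.mk (nat_lit 2) (nat_lit 2) (nat_lit 0) (nat_lit 0) (nat_lit 1) (nat_lit 100) (nat_lit 96) r0_100 r7_96 (nat_lit 0) (nat_lit 10175790) (nat_lit 4635726) (nat_lit 0x1840136ea) (nat_lit 415072972),
  Rx.mk (nat_lit 18) (nat_lit 2) (nat_lit 2) (nat_lit 0) (nat_lit 3) (nat_lit 101) (nat_lit 99) r0_101 r7_99 (nat_lit 0) (nat_lit 0) (nat_lit 4240931) (nat_lit 0x1bf1985a2) (nat_lit 341762337),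
  Rx.mk (nat_lit 146) (nat_lit 2) (nat_lit 2) (nat_lit 2) (nat_lit 7) (nat_lit 102) (nat_lit 101) r0_102 r7_101 (nat_lit 0) (nat_lit 0) (nat_lit 0) (nat_lit 0x1efe441c2) (nat_lit 285762006),
  Rx.mk (nat_lit 150) (nat_lit 6) (nat_lit 2) (nat_lit 2) (nat_lit 7) (nat_lit 103) (nat_lit 102) r0_103 r7_102 (nat_lit 0) (nat_lit 0) (nat_lit 0) (nat_lit 0x20056d4f2) (nat_lit 268435456),
  Rx.mk (nat_lit 182) (nat_lit 6) (nat_lit 6) (nat_lit 2) (nat_lit 7) (nat_lit 104) (nat_lit 103) r0_104 r7_103 (nat_lit 0) (nat_lit 0) (nat_lit 0) (nat_lit 0x20055e1a0) (nat_lit 268437306),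
  Rx.mk (nat_lit 192) (nat_lit 0) (nat_lit 0) (nat_lit 3) (nat_lit 4) (nat_lit 105) (nat_lit 93) r0_105 r7_93 (nat_lit 121405) (nat_lit 991673) (nat_lit 0) (nat_lit 0x190ff0958) (nat_lit 387448234),
  Rx.mk (nat_lit 194) (nat_lit 2) (nat_lit 0) (nat_lit 3) (nat_lit 5) (nat_lit 106) (nat_lit 97) r0_106 r7_97 (nat_lit 0) (nat_lit 27844967) (nat_lit 0) (nat_lit 0x1fd250a9c) (nat_lit 299584973),
  Rx.mk (nat_lit 210) (nat_lit 2) (nat_lit 2) (nat_lit 3) (nat_lit 7) (nat_lit 107) (nat_lit 100) r0_107 r7_100 (nat_lit 0) (nat_lit 0) (nat_lit 0) (nat_lit 0x1fe528a70) (nat_lit 270533656),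
  Rx.mk (nat_lit 216) (nat_lit 0) (nat_lit 3) (nat_lit 3) (nat_lit 6) (nat_lit 108) (nat_lit 94) r0_108 r7_94 (nat_lit 4501915) (nat_lit 0) (nat_lit 0) (nat_lit 0x1cfdf132a) (nat_lit 324222321),
  Rx.mk (nat_lit 218) (nat_lit 2) (nat_lit 3) (nat_lit 3) (nat_lit 7) (nat_lit 109) (nat_lit 98) r0_109 r7_98 (nat_lit 0) (nat_lit 0) (nat_lit 0) (nat_lit 0x20249e1b4) (nat_lit 266405506),
  Rx.mk (nat_lit 219) (nat_lit 3) (nat_lit 3) (nat_lit 3) (nat_lit 7) (nat_lit 110) (nat_lit 95) r0_110 r7_95 (nat_lit 0) (nat_lit 0) (nat_lit 0) (nat_lit 0x1fe8175a6) (nat_lit 270347556)]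
noncomputable def e12_14 : List Rx := [
  Rx.mk (nat_lit 150) (nat_lit 6) (nat_lit 2) (nat_lit 2) (nat_lit 7) (nat_lit 20) (nat_lit 9) r0_20 r1_9 (nat_lit 0) (nat_lit 0) (nat_lit 0) (nat_lit 0x2045d486a) (nat_lit 264245706),
  Rx.mk (nat_lit 182) (nat_lit 6) (nat_lit 6) (nat_lit 2) (nat_lit 7) (nat_lit 21) (nat_lit 8) r0_21 r1_8 (nat_lit 0) (nat_lit 0) (nat_lit 0) (nat_lit 0x203066816) (nat_lit 265637806),
  Rx.mk (nat_lit 319) (nat_lit 7) (nat_lit 7) (nat_lit 4) (nat_lit 3) (nat_lit 22) (nat_lit 0) r0_22 r1_0 (nat_lit 0) (nat_lit 0) (nat_lit 6061326) (nat_lit 0x1e22fb854) (nat_lit 306330232),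
  Rx.mk (nat_lit 420) (nat_lit 4) (nat_lit 4) (nat_lit 6) (nat_lit 4) (nat_lit 23) (nat_lit 2) r0_23 r1_2 (nat_lit 1053210) (nat_lit 1901317) (nat_lit 0) (nat_lit 0x1d06fa732) (nat_lit 322020483),
  Rx.mk (nat_lit 423) (nat_lit 7) (nat_lit 4) (nat_lit 6) (nat_lit 5) (nat_lit 24) (nat_lit 3) r0_24 r1_3 (nat_lit 0) (nat_lit 6798811) (nat_lit 0) (nat_lit 0x1fe079bd2) (nat_lit 277633767),
  Rx.mk (nat_lit 436) (nat_lit 4) (nat_lit 6) (nat_lit 6) (nat_lit 6) (nat_lit 25) (nat_lit 5) r0_25 r1_5 (nat_lit 1484672) (nat_lit 0) (nat_lit 0) (nat_lit 0x20258cca6) (nat_lit 267789778),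
  Rx.mk (nat_lit 438) (nat_lit 6) (nat_lit 6) (nat_lit 6) (nat_lit 7) (nat_lit 26) (nat_lit 7) r0_26 r1_7 (nat_lit 0) (nat_lit 0) (nat_lit 0) (nat_lit 0x204321550) (nat_lit 264427056),
  Rx.mk (nat_lit 439) (nat_lit 7) (nat_lit 6) (nat_lit 6) (nat_lit 7) (nat_lit 27) (nat_lit 6) r0_27 r1_6 (nat_lit 0) (nat_lit 0) (nat_lit 0) (nat_lit 0x204321550) (nat_lit 264427056),
  Rx.mk (nat_lit 447) (nat_lit 7) (nat_lit 7) (nat_lit 6) (nat_lit 7) (nat_lit 28) (nat_lit 4) r0_28 r1_4 (nat_lit 0) (nat_lit 0) (nat_lit 0) (nat_lit 0x232a6f1b2) (nat_lit 216775806),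
  Rx.mk (nat_lit 511) (nat_lit 7) (nat_lit 7) (nat_lit 7) (nat_lit 7) (nat_lit 29) (nat_lit 1) r0_29 r1_1 (nat_lit 0) (nat_lit 0) (nat_lit 0) (nat_lit 0x20e22bba0) (nat_lit 254171106)]
noncomputable def e12_15 : List Rx := [
  Rx.mk (nat_lit 150) (nat_lit 6) (nat_lit 2) (nat_lit 2) (nat_lit 7) (nat_lit 139) (nat_lit 76) r0_139 r8_76 (nat_lit 0) (nat_lit 0) (nat_lit 0) (nat_lit 0x1ff97bb76) (nat_lit 269212656),
  Rx.mk (nat_lit 182) (nat_lit 6) (nat_lit 6) (nat_lit 2) (nat_lit 7) (nat_lit 140) (nat_lit 77) r0_140 r8_77 (nat_lit 0) (nat_lit 0) (nat_lit 0) (nat_lit 0x20056d4f2) (nat_lit 268435456)]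
noncomputable def e12_16 : List Rx := [
  Rx.mk (nat_lit 0) (nat_lit 0) (nat_lit 0) (nat_lit 0) (nat_lit 0) (nat_lit 124) (nat_lit 0) r0_124 r8_0 (nat_lit 641106) (nat_lit 10221547) (nat_lit 548020) (nat_lit 0xdf239f5a) (nat_lit 586659229),
  Rx.mk (nat_lit 2) (nat_lit 2) (nat_lit 0) (nat_lit 0) (nat_lit 1) (nat_lit 125) (nat_lit 1) r0_125 r8_1 (nat_lit 0) (nat_lit 21261060) (nat_lit 8977401) (nat_lit 0x18db3ee76) (nat_lit 420209017),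
  Rx.mk (nat_lit 18) (nat_lit 2) (nat_lit 2) (nat_lit 0) (nat_lit 3) (nat_lit 126) (nat_lit 2) r0_126 r8_2 (nat_lit 0) (nat_lit 0) (nat_lit 5563368) (nat_lit 0x1d90bf3fa) (nat_lit 315546874),
  Rx.mk (nat_lit 64) (nat_lit 0) (nat_lit 0) (nat_lit 1) (nat_lit 4) (nat_lit 127) (nat_lit 3) r0_127 r8_3 (nat_lit 8596723) (nat_lit 22390317) (nat_lit 0) (nat_lit 0x181f48a6e) (nat_lit 433430596),
  Rx.mk (nat_lit 66) (nat_lit 2) (nat_lit 0) (nat_lit 1) (nat_lit 5) (nat_lit 128) (nat_lit 4) r0_128 r8_4 (nat_lit 0) (nat_lit 13103625) (nat_lit 0) (nat_lit 0x1fa80595e) (nat_lit 287655681),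
  Rx.mk (nat_lit 82) (nat_lit 2) (nat_lit 2) (nat_lit 1) (nat_lit 7) (nat_lit 129) (nat_lit 5) r0_129 r8_5 (nat_lit 0) (nat_lit 0) (nat_lit 0) (nat_lit 0x1fdc55c7c) (nat_lit 271115106),
  Rx.mk (nat_lit 146) (nat_lit 2) (nat_lit 2) (nat_lit 2) (nat_lit 7) (nat_lit 130) (nat_lit 14) r0_130 r8_14 (nat_lit 0) (nat_lit 0) (nat_lit 0) (nat_lit 0x1ff9e4946) (nat_lit 269186206),
  Rx.mk (nat_lit 150) (nat_lit 6) (nat_lit 2) (nat_lit 2) (nat_lit 7) (nat_lit 131) (nat_lit 13) r0_131 r8_13 (nat_lit 0) (nat_lit 0) (nat_lit 0) (nat_lit 0x1ff9ddc54) (nat_lit 269187956),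
  Rx.mk (nat_lit 182) (nat_lit 6) (nat_lit 6) (nat_lit 2) (nat_lit 7) (nat_lit 132) (nat_lit 12) r0_132 r8_12 (nat_lit 0) (nat_lit 0) (nat_lit 0) (nat_lit 0x20056d4f2) (nat_lit 268435456),
  Rx.mk (nat_lit 192) (nat_lit 0) (nat_lit 0) (nat_lit 3) (nat_lit 4) (nat_lit 133) (nat_lit 6) r0_133 r8_6 (nat_lit 5082939) (nat_lit 8459973) (nat_lit 0) (nat_lit 0x18412df6c) (nat_lit 413722318),
  Rx.mk (nat_lit 194) (nat_lit 2) (nat_lit 0) (nat_lit 3) (nat_lit 5) (nat_lit 134) (nat_lit 7) r0_134 r8_7 (nat_lit 0) (nat_lit 17354866) (nat_lit 0) (nat_lit 0x1fa7fc02a) (nat_lit 291906822),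
  Rx.mk (nat_lit 210) (nat_lit 2) (nat_lit 2) (nat_lit 3) (nat_lit 7) (nat_lit 135) (nat_lit 11) r0_135 r8_11 (nat_lit 0) (nat_lit 0) (nat_lit 0) (nat_lit 0x2003e8e1a) (nat_lit 268530456),
  Rx.mk (nat_lit 216) (nat_lit 0) (nat_lit 3) (nat_lit 3) (nat_lit 6) (nat_lit 136) (nat_lit 8) r0_136 r8_8 (nat_lit 11005782) (nat_lit 0) (nat_lit 0) (nat_lit 0x1c8a0941c) (nat_lit 338427488),
  Rx.mk (nat_lit 218) (nat_lit 2) (nat_lit 3) (nat_lit 3) (nat_lit 7) (nat_lit 137) (nat_lit 10) r0_137 r8_10 (nat_lit 0) (nat_lit 0) (nat_lit 0) (nat_lit 0x20056d4f2) (nat_lit 268435456),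
  Rx.mk (nat_lit 219) (nat_lit 3) (nat_lit 3) (nat_lit 3) (nat_lit 7) (nat_lit 138) (nat_lit 9) r0_138 r8_9 (nat_lit 0) (nat_lit 0) (nat_lit 0) (nat_lit 0x20056d4f2) (nat_lit 268435456)]
noncomputable def e12_17 : List Rx := [
  Rx.mk (nat_lit 64) (nat_lit 0) (nat_lit 0) (nat_lit 1) (nat_lit 4) (nat_lit 262) (nat_lit 65) r0_262 r9_65 (nat_lit 14858526) (nat_lit 37964627) (nat_lit 0) (nat_lit 0x17568cdc8) (nat_lit 468596959),
  Rx.mk (nat_lit 66) (nat_lit 2) (nat_lit 0) (nat_lit 1) (nat_lit 5) (nat_lit 263) (nat_lit 66) r0_263 r9_66 (nat_lit 0) (nat_lit 23941176) (nat_lit 0) (nat_lit 0x1ecb07dd6) (nat_lit 313084132),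
  Rx.mk (nat_lit 82) (nat_lit 2) (nat_lit 2) (nat_lit 1) (nat_lit 7) (nat_lit 264) (nat_lit 67) r0_264 r9_67 (nat_lit 0) (nat_lit 0) (nat_lit 0) (nat_lit 0x1ff25243a) (nat_lit 269680706)]
noncomputable def e12_18 : List Rx := [
  Rx.mk (nat_lit 192) (nat_lit 0) (nat_lit 0) (nat_lit 3) (nat_lit 4) (nat_lit 52) (nat_lit 8) r0_52 r4_8 (nat_lit 911214) (nat_lit 2057600) (nat_lit 0) (nat_lit 0x1b22bcfc6) (nat_lit 354158770),
  Rx.mk (nat_lit 194) (nat_lit 2) (nat_lit 0) (nat_lit 3) (nat_lit 5) (nat_lit 53) (nat_lit 9) r0_53 r4_9 (nat_lit 0) (nat_lit 17143268) (nat_lit 0) (nat_lit 0x1e42af416) (nat_lit 315309874),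
  Rx.mk (nat_lit 210) (nat_lit 2) (nat_lit 2) (nat_lit 3) (nat_lit 7) (nat_lit 54) (nat_lit 12) r0_54 r4_12 (nat_lit 0) (nat_lit 0) (nat_lit 0) (nat_lit 0x1d9b5a3be) (nat_lit 309237406),
  Rx.mk (nat_lit 216) (nat_lit 0) (nat_lit 3) (nat_lit 3) (nat_lit 6) (nat_lit 55) (nat_lit 10) r0_55 r4_10 (nat_lit 4095836) (nat_lit 0) (nat_lit 0) (nat_lit 0x1fd9b63ea) (nat_lit 275364542),
  Rx.mk (nat_lit 218) (nat_lit 2) (nat_lit 3) (nat_lit 3) (nat_lit 7) (nat_lit 56) (nat_lit 11) r0_56 r4_11 (nat_lit 0) (nat_lit 0) (nat_lit 0) (nat_lit 0x205e5adb2) (nat_lit 262667356),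
  Rx.mk (nat_lit 315) (nat_lit 3) (nat_lit 7) (nat_lit 4) (nat_lit 3) (nat_lit 57) (nat_lit 1) r0_57 r4_1 (nat_lit 0) (nat_lit 0) (nat_lit 4265964) (nat_lit 0x1f7bbe878) (nat_lit 281708970),
  Rx.mk (nat_lit 319) (nat_lit 7) (nat_lit 7) (nat_lit 4) (nat_lit 3) (nat_lit 58) (nat_lit 0) r0_58 r4_0 (nat_lit 0) (nat_lit 0) (nat_lit 829405) (nat_lit 0x19a9ddf48) (nat_lit 377006311),
  Rx.mk (nat_lit 423) (nat_lit 7) (nat_lit 4) (nat_lit 6) (nat_lit 5) (nat_lit 59) (nat_lit 5) r0_59 r4_5 (nat_lit 0) (nat_lit 20543778) (nat_lit 0) (nat_lit 0x1ef9c7a5e) (nat_lit 306570734),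
  Rx.mk (nat_lit 439) (nat_lit 7) (nat_lit 6) (nat_lit 6) (nat_lit 7) (nat_lit 60) (nat_lit 7) r0_60 r4_7 (nat_lit 0) (nat_lit 0) (nat_lit 0) (nat_lit 0x1fa57e4c4) (nat_lit 274711106),
  Rx.mk (nat_lit 447) (nat_lit 7) (nat_lit 7) (nat_lit 6) (nat_lit 7) (nat_lit 61) (nat_lit 6) r0_61 r4_6 (nat_lit 0) (nat_lit 0) (nat_lit 0) (nat_lit 0x1fca5e078) (nat_lit 272247956),
  Rx.mk (nat_lit 472) (nat_lit 0) (nat_lit 3) (nat_lit 7) (nat_lit 6) (nat_lit 62) (nat_lit 3) r0_62 r4_3 (nat_lit 4296120) (nat_lit 0) (nat_lit 0) (nat_lit 0x1fd4ab1de) (nat_lit 275890326),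
  Rx.mk (nat_lit 475) (nat_lit 3) (nat_lit 3) (nat_lit 7) (nat_lit 7) (nat_lit 63) (nat_lit 4) r0_63 r4_4 (nat_lit 0) (nat_lit 0) (nat_lit 0) (nat_lit 0x206a07ed0) (nat_lit 261913956),
  Rx.mk (nat_lit 507) (nat_lit 3) (nat_lit 7) (nat_lit 7) (nat_lit 7) (nat_lit 64) (nat_lit 2) r0_64 r4_2 (nat_lit 0) (nat_lit 0) (nat_lit 0) (nat_lit 0x203c788ac) (nat_lit 264839206)]
noncomputable def e12_19 : List Rx := [
  Rx.mk (nat_lit 192) (nat_lit 0) (nat_lit 0) (nat_lit 3) (nat_lit 4) (nat_lit 147) (nat_lit 77) r0_147 r10_77 (nat_lit 142696) (nat_lit 514146) (nat_lit 0) (nat_lit 0x196892534) (nat_lit 381116348),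
  Rx.mk (nat_lit 194) (nat_lit 2) (nat_lit 0) (nat_lit 3) (nat_lit 5) (nat_lit 148) (nat_lit 79) r0_148 r10_79 (nat_lit 0) (nat_lit 18568344) (nat_lit 0) (nat_lit 0x1f4c0ad0c) (nat_lit 299169900),
  Rx.mk (nat_lit 210) (nat_lit 2) (nat_lit 2) (nat_lit 3) (nat_lit 7) (nat_lit 149) (nat_lit 81) r0_149 r10_81 (nat_lit 0) (nat_lit 0) (nat_lit 0) (nat_lit 0x1ff3454e6) (nat_lit 269612556),
  Rx.mk (nat_lit 216) (nat_lit 0) (nat_lit 3) (nat_lit 3) (nat_lit 6) (nat_lit 150) (nat_lit 78) r0_150 r10_78 (nat_lit 5323449) (nat_lit 0) (nat_lit 0) (nat_lit 0x1d8aa981c) (nat_lit 315709355),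
  Rx.mk (nat_lit 218) (nat_lit 2) (nat_lit 3) (nat_lit 3) (nat_lit 7) (nat_lit 151) (nat_lit 80) r0_151 r10_80 (nat_lit 0) (nat_lit 0) (nat_lit 0) (nat_lit 0x20056d4f2) (nat_lit 268435456)]
noncomputable def e12_20 : List Rx := [
  Rx.mk (nat_lit 192) (nat_lit 0) (nat_lit 0) (nat_lit 3) (nat_lit 4) (nat_lit 212) (nat_lit 91) r0_212 r11_91 (nat_lit 5847755) (nat_lit 35579357) (nat_lit 0) (nat_lit 0x1cf126118) (nat_lit 361977668),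
  Rx.mk (nat_lit 194) (nat_lit 2) (nat_lit 0) (nat_lit 3) (nat_lit 5) (nat_lit 213) (nat_lit 97) r0_213 r11_97 (nat_lit 0) (nat_lit 54099943) (nat_lit 0) (nat_lit 0x1fab0666c) (nat_lit 328440049),
  Rx.mk (nat_lit 210) (nat_lit 2) (nat_lit 2) (nat_lit 3) (nat_lit 7) (nat_lit 214) (nat_lit 98) r0_214 r11_98 (nat_lit 0) (nat_lit 0) (nat_lit 0) (nat_lit 0x20a84f7ce) (nat_lit 257886656),
  Rx.mk (nat_lit 283) (nat_lit 3) (nat_lit 3) (nat_lit 4) (nat_lit 3) (nat_lit 215) (nat_lit 94) r0_215 r11_94 (nat_lit 0) (nat_lit 0) (nat_lit 3907448) (nat_lit 0x1f0b7289e) (nat_lit 288775154),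
  Rx.mk (nat_lit 315) (nat_lit 3) (nat_lit 7) (nat_lit 4) (nat_lit 3) (nat_lit 216) (nat_lit 96) r0_216 r11_96 (nat_lit 0) (nat_lit 0) (nat_lit 4286271) (nat_lit 0x1fec0acda) (nat_lit 274349477),
  Rx.mk (nat_lit 319) (nat_lit 7) (nat_lit 7) (nat_lit 4) (nat_lit 3) (nat_lit 217) (nat_lit 99) r0_217 r11_99 (nat_lit 0) (nat_lit 0) (nat_lit 3688724) (nat_lit 0x1c9ff7bde) (nat_lit 329624030),
  Rx.mk (nat_lit 447) (nat_lit 7) (nat_lit 7) (nat_lit 6) (nat_lit 7) (nat_lit 218) (nat_lit 100) r0_218 r11_100 (nat_lit 0) (nat_lit 0) (nat_lit 0) (nat_lit 0x20f100a7c) (nat_lit 253219156),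
  Rx.mk (nat_lit 448) (nat_lit 0) (nat_lit 0) (nat_lit 7) (nat_lit 4) (nat_lit 219) (nat_lit 92) r0_219 r11_92 (nat_lit 860787) (nat_lit 957999) (nat_lit 0) (nat_lit 0x1be3394ac) (nat_lit 340229592),
  Rx.mk (nat_lit 472) (nat_lit 0) (nat_lit 3) (nat_lit 7) (nat_lit 6) (nat_lit 220) (nat_lit 93) r0_220 r11_93 (nat_lit 5308544) (nat_lit 0) (nat_lit 0) (nat_lit 0x2021b8a8a) (nat_lit 271891250),
  Rx.mk (nat_lit 475) (nat_lit 3) (nat_lit 3) (nat_lit 7) (nat_lit 7) (nat_lit 221) (nat_lit 95) r0_221 r11_95 (nat_lit 0) (nat_lit 0) (nat_lit 0) (nat_lit 0x20380ccaa) (nat_lit 265146056)]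
noncomputable def e12_21 : List Rx := [
  Rx.mk (nat_lit 64) (nat_lit 0) (nat_lit 0) (nat_lit 1) (nat_lit 4) (nat_lit 257) (nat_lit 155) r0_257 r9_155 (nat_lit 20380427) (nat_lit 18008547) (nat_lit 0) (nat_lit 0x1563465ca) (nat_lit 487295780),
  Rx.mk (nat_lit 66) (nat_lit 2) (nat_lit 0) (nat_lit 1) (nat_lit 5) (nat_lit 258) (nat_lit 156) r0_258 r9_156 (nat_lit 0) (nat_lit 9484367) (nat_lit 0) (nat_lit 0x1fda6c1c2) (nat_lit 280725973),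
  Rx.mk (nat_lit 72) (nat_lit 0) (nat_lit 1) (nat_lit 1) (nat_lit 6) (nat_lit 259) (nat_lit 157) r0_259 r9_157 (nat_lit 12763209) (nat_lit 0) (nat_lit 0) (nat_lit 0x1dbc643f2) (nat_lit 319863465),
  Rx.mk (nat_lit 74) (nat_lit 2) (nat_lit 1) (nat_lit 1) (nat_lit 7) (nat_lit 260) (nat_lit 158) r0_260 r9_158 (nat_lit 0) (nat_lit 0) (nat_lit 0) (nat_lit 0x20056d4f2) (nat_lit 268435456),
  Rx.mk (nat_lit 82) (nat_lit 2) (nat_lit 2) (nat_lit 1) (nat_lit 7) (nat_lit 261) (nat_lit 159) r0_261 r9_159 (nat_lit 0) (nat_lit 0) (nat_lit 0) (nat_lit 0x20056d4f2) (nat_lit 268435456)]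
noncomputable def e12_22 : List Rx := [
  Rx.mk (nat_lit 265) (nat_lit 1) (nat_lit 1) (nat_lit 4) (nat_lit 3) (nat_lit 243) (nat_lit 243) r0_243 r0_243 (nat_lit 0) (nat_lit 0) (nat_lit 153426111) (nat_lit 0x203cc5ea4) (nat_lit 417977017),
  Rx.mk (nat_lit 320) (nat_lit 0) (nat_lit 0) (nat_lit 5) (nat_lit 4) (nat_lit 244) (nat_lit 244) r0_244 r0_244 (nat_lit 9523361) (nat_lit 9523361) (nat_lit 0) (nat_lit 0x1988e760e) (nat_lit 397472878),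
  Rx.mk (nat_lit 321) (nat_lit 1) (nat_lit 0) (nat_lit 5) (nat_lit 5) (nat_lit 245) (nat_lit 246) r0_245 r0_246 (nat_lit 0) (nat_lit 3631069) (nat_lit 0) (nat_lit 0x1c89360e4) (nat_lit 331088925),
  Rx.mk (nat_lit 328) (nat_lit 0) (nat_lit 1) (nat_lit 5) (nat_lit 6) (nat_lit 246) (nat_lit 245) r0_246 r0_245 (nat_lit 3631069) (nat_lit 0) (nat_lit 0) (nat_lit 0x1c89360e4) (nat_lit 331088925),
  Rx.mk (nat_lit 329) (nat_lit 1) (nat_lit 1) (nat_lit 5) (nat_lit 7) (nat_lit 247) (nat_lit 247) r0_247 r0_247 (nat_lit 0) (nat_lit 0) (nat_lit 0) (nat_lit 0x1ef9a2efc) (nat_lit 286047556)]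
noncomputable def e12_23 : List Rx := [
  Rx.mk (nat_lit 265) (nat_lit 1) (nat_lit 1) (nat_lit 4) (nat_lit 3) (nat_lit 282) (nat_lit 252) r0_282 r1_252 (nat_lit 0) (nat_lit 0) (nat_lit 168759698) (nat_lit 0x1fff69344) (nat_lit 437235604),
  Rx.mk (nat_lit 328) (nat_lit 0) (nat_lit 1) (nat_lit 5) (nat_lit 6) (nat_lit 283) (nat_lit 253) r0_283 r1_253 (nat_lit 8873187) (nat_lit 0) (nat_lit 0) (nat_lit 0x1ed1d1158) (nat_lit 297579593),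
  Rx.mk (nat_lit 329) (nat_lit 1) (nat_lit 1) (nat_lit 5) (nat_lit 7) (nat_lit 284) (nat_lit 254) r0_284 r1_254 (nat_lit 0) (nat_lit 0) (nat_lit 0) (nat_lit 0x1f99bebe8) (nat_lit 275482756)]
noncomputable def e12_24 : List Rx := [
  Rx.mk (nat_lit 257) (nat_lit 1) (nat_lit 0) (nat_lit 4) (nat_lit 1) (nat_lit 306) (nat_lit 253) r0_306 r4_253 (nat_lit 0) (nat_lit 3903538) (nat_lit 19679101) (nat_lit 0x1db7e0f38) (nat_lit 330963295),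
  Rx.mk (nat_lit 265) (nat_lit 1) (nat_lit 1) (nat_lit 4) (nat_lit 3) (nat_lit 307) (nat_lit 254) r0_307 r4_254 (nat_lit 0) (nat_lit 0) (nat_lit 108297310) (nat_lit 0x1ec126d4e) (nat_lit 397937116),
  Rx.mk (nat_lit 281) (nat_lit 1) (nat_lit 3) (nat_lit 4) (nat_lit 3) (nat_lit 308) (nat_lit 255) r0_308 r4_255 (nat_lit 0) (nat_lit 0) (nat_lit 12077193) (nat_lit 0x1ffd30320) (nat_lit 281032149),
  Rx.mk (nat_lit 320) (nat_lit 0) (nat_lit 0) (nat_lit 5) (nat_lit 4) (nat_lit 309) (nat_lit 256) r0_309 r4_256 (nat_lit 8049828) (nat_lit 14166006) (nat_lit 0) (nat_lit 0x1ae665b5e) (nat_lit 377442740),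
  Rx.mk (nat_lit 321) (nat_lit 1) (nat_lit 0) (nat_lit 5) (nat_lit 5) (nat_lit 310) (nat_lit 259) r0_310 r4_259 (nat_lit 0) (nat_lit 8068535) (nat_lit 0) (nat_lit 0x1fcb5274a) (nat_lit 280275941),
  Rx.mk (nat_lit 328) (nat_lit 0) (nat_lit 1) (nat_lit 5) (nat_lit 6) (nat_lit 311) (nat_lit 257) r0_311 r4_257 (nat_lit 10253547) (nat_lit 0) (nat_lit 0) (nat_lit 0x1fe86ff26) (nat_lit 280577553),
  Rx.mk (nat_lit 329) (nat_lit 1) (nat_lit 1) (nat_lit 5) (nat_lit 7) (nat_lit 312) (nat_lit 260) r0_312 r4_260 (nat_lit 0) (nat_lit 0) (nat_lit 0) (nat_lit 0x20469ff42) (nat_lit 264200756),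
  Rx.mk (nat_lit 344) (nat_lit 0) (nat_lit 3) (nat_lit 5) (nat_lit 6) (nat_lit 313) (nat_lit 258) r0_313 r4_258 (nat_lit 5453470) (nat_lit 0) (nat_lit 0) (nat_lit 0x202795156) (nat_lit 271662226),
  Rx.mk (nat_lit 345) (nat_lit 1) (nat_lit 3) (nat_lit 5) (nat_lit 7) (nat_lit 314) (nat_lit 261) r0_314 r4_261 (nat_lit 0) (nat_lit 0) (nat_lit 0) (nat_lit 0x2018d4ea0) (nat_lit 267171456)]
noncomputable def e12_25 : List Rx := [
  Rx.mk (nat_lit 320) (nat_lit 0) (nat_lit 0) (nat_lit 5) (nat_lit 4) (nat_lit 250) (nat_lit 217) r0_250 r7_217 (nat_lit 6883560) (nat_lit 12632886) (nat_lit 0) (nat_lit 0x199f2c586) (nat_lit 396447552),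
  Rx.mk (nat_lit 321) (nat_lit 1) (nat_lit 0) (nat_lit 5) (nat_lit 5) (nat_lit 251) (nat_lit 218) r0_251 r7_218 (nat_lit 0) (nat_lit 10930595) (nat_lit 0) (nat_lit 0x1f89b7ce0) (nat_lit 287476701),
  Rx.mk (nat_lit 328) (nat_lit 0) (nat_lit 1) (nat_lit 5) (nat_lit 6) (nat_lit 252) (nat_lit 219) r0_252 r7_219 (nat_lit 10632780) (nat_lit 0) (nat_lit 0) (nat_lit 0x1d6c3a8b8) (nat_lit 323047586),
  Rx.mk (nat_lit 329) (nat_lit 1) (nat_lit 1) (nat_lit 5) (nat_lit 7) (nat_lit 253) (nat_lit 220) r0_253 r7_220 (nat_lit 0) (nat_lit 0) (nat_lit 0) (nat_lit 0x201f393fe) (nat_lit 266751706)]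
noncomputable def e12_26 : List Rx := [
  Rx.mk (nat_lit 328) (nat_lit 0) (nat_lit 1) (nat_lit 5) (nat_lit 6) (nat_lit 289) (nat_lit 178) r0_289 r8_178 (nat_lit 10787644) (nat_lit 0) (nat_lit 0) (nat_lit 0x1b3ca9fb0) (nat_lit 360329100),
  Rx.mk (nat_lit 329) (nat_lit 1) (nat_lit 1) (nat_lit 5) (nat_lit 7) (nat_lit 290) (nat_lit 179) r0_290 r8_179 (nat_lit 0) (nat_lit 0) (nat_lit 0) (nat_lit 0x1ffe905b2) (nat_lit 268882256)]
noncomputable def e12_27 : List Rx := [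
  Rx.mk (nat_lit 64) (nat_lit 0) (nat_lit 0) (nat_lit 1) (nat_lit 4) (nat_lit 271) (nat_lit 230) r0_271 r8_230 (nat_lit 24990952) (nat_lit 15685587) (nat_lit 0) (nat_lit 0x16ee57b22) (nat_lit 463363445),
  Rx.mk (nat_lit 65) (nat_lit 1) (nat_lit 0) (nat_lit 1) (nat_lit 5) (nat_lit 272) (nat_lit 232) r0_272 r8_232 (nat_lit 0) (nat_lit 13709057) (nat_lit 0) (nat_lit 0x1e6527020) (nat_lit 309616313),
  Rx.mk (nat_lit 66) (nat_lit 2) (nat_lit 0) (nat_lit 1) (nat_lit 5) (nat_lit 273) (nat_lit 234) r0_273 r8_234 (nat_lit 0) (nat_lit 9484367) (nat_lit 0) (nat_lit 0x1ffb35d36) (nat_lit 278585473),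
  Rx.mk (nat_lit 72) (nat_lit 0) (nat_lit 1) (nat_lit 1) (nat_lit 6) (nat_lit 274) (nat_lit 231) r0_274 r8_231 (nat_lit 14687495) (nat_lit 0) (nat_lit 0) (nat_lit 0x1b66eebd6) (nat_lit 361425101),
  Rx.mk (nat_lit 73) (nat_lit 1) (nat_lit 1) (nat_lit 1) (nat_lit 7) (nat_lit 275) (nat_lit 233) r0_275 r8_233 (nat_lit 0) (nat_lit 0) (nat_lit 0) (nat_lit 0x1f8bb4142) (nat_lit 276413756),
  Rx.mk (nat_lit 74) (nat_lit 2) (nat_lit 1) (nat_lit 1) (nat_lit 7) (nat_lit 276) (nat_lit 235) r0_276 r8_235 (nat_lit 0) (nat_lit 0) (nat_lit 0) (nat_lit 0x1ff5fca0e) (nat_lit 269441006),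
  Rx.mk (nat_lit 82) (nat_lit 2) (nat_lit 2) (nat_lit 1) (nat_lit 7) (nat_lit 277) (nat_lit 236) r0_277 r8_236 (nat_lit 0) (nat_lit 0) (nat_lit 0) (nat_lit 0x20056d4f2) (nat_lit 268435456),
  Rx.mk (nat_lit 320) (nat_lit 0) (nat_lit 0) (nat_lit 5) (nat_lit 4) (nat_lit 278) (nat_lit 237) r0_278 r8_237 (nat_lit 4307608) (nat_lit 11550315) (nat_lit 0) (nat_lit 0x182dd78dc) (nat_lit 417310079),
  Rx.mk (nat_lit 321) (nat_lit 1) (nat_lit 0) (nat_lit 5) (nat_lit 5) (nat_lit 279) (nat_lit 239) r0_279 r8_239 (nat_lit 0) (nat_lit 9484367) (nat_lit 0) (nat_lit 0x1fc24261e) (nat_lit 282306373),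
  Rx.mk (nat_lit 328) (nat_lit 0) (nat_lit 1) (nat_lit 5) (nat_lit 6) (nat_lit 280) (nat_lit 238) r0_280 r8_238 (nat_lit 9900802) (nat_lit 0) (nat_lit 0) (nat_lit 0x1d302332a) (nat_lit 326302108),
  Rx.mk (nat_lit 329) (nat_lit 1) (nat_lit 1) (nat_lit 5) (nat_lit 7) (nat_lit 281) (nat_lit 240) r0_281 r8_240 (nat_lit 0) (nat_lit 0) (nat_lit 0) (nat_lit 0x2022bd70a) (nat_lit 266525506)]
noncomputable def e12_28 : List Rx := [
  Rx.mk (nat_lit 320) (nat_lit 0) (nat_lit 0) (nat_lit 5) (nat_lit 4) (nat_lit 322) (nat_lit 166) r0_322 r10_166 (nat_lit 3170624) (nat_lit 6194834) (nat_lit 0) (nat_lit 0x1b029a6a8) (nat_lit 362703714),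
  Rx.mk (nat_lit 321) (nat_lit 1) (nat_lit 0) (nat_lit 5) (nat_lit 5) (nat_lit 323) (nat_lit 167) r0_323 r10_167 (nat_lit 0) (nat_lit 9422464) (nat_lit 0) (nat_lit 0x1fade9d48) (nat_lit 283582920),
  Rx.mk (nat_lit 328) (nat_lit 0) (nat_lit 1) (nat_lit 5) (nat_lit 6) (nat_lit 324) (nat_lit 168) r0_324 r10_168 (nat_lit 11321562) (nat_lit 0) (nat_lit 0) (nat_lit 0x1f9064e3a) (nat_lit 287426518),
  Rx.mk (nat_lit 329) (nat_lit 1) (nat_lit 1) (nat_lit 5) (nat_lit 7) (nat_lit 325) (nat_lit 169) r0_325 r10_169 (nat_lit 0) (nat_lit 0) (nat_lit 0) (nat_lit 0x202f5d6cc) (nat_lit 265708056),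
  Rx.mk (nat_lit 344) (nat_lit 0) (nat_lit 3) (nat_lit 5) (nat_lit 6) (nat_lit 326) (nat_lit 170) r0_326 r10_170 (nat_lit 10331000) (nat_lit 0) (nat_lit 0) (nat_lit 0x1f9843af2) (nat_lit 285917906),
  Rx.mk (nat_lit 345) (nat_lit 1) (nat_lit 3) (nat_lit 5) (nat_lit 7) (nat_lit 327) (nat_lit 171) r0_327 r10_171 (nat_lit 0) (nat_lit 0) (nat_lit 0) (nat_lit 0x20056d4f2) (nat_lit 268435456)]
noncomputable def e12_29 : List Rx := [
  Rx.mk (nat_lit 256) (nat_lit 0) (nat_lit 0) (nat_lit 4) (nat_lit 0) (nat_lit 342) (nat_lit 165) r0_342 r11_165 (nat_lit 8466519) (nat_lit 14627977) (nat_lit 5049713) (nat_lit 0x1785739c0) (nat_lit 440788215),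
  Rx.mk (nat_lit 257) (nat_lit 1) (nat_lit 0) (nat_lit 4) (nat_lit 1) (nat_lit 343) (nat_lit 168) r0_343 r11_168 (nat_lit 0) (nat_lit 7618608) (nat_lit 47226542) (nat_lit 0x1f34ba8aa) (nat_lit 336986356),
  Rx.mk (nat_lit 264) (nat_lit 0) (nat_lit 1) (nat_lit 4) (nat_lit 2) (nat_lit 344) (nat_lit 171) r0_344 r11_171 (nat_lit 11117765) (nat_lit 0) (nat_lit 26026765) (nat_lit 0x1e895a6e0) (nat_lit 330636636),
  Rx.mk (nat_lit 265) (nat_lit 1) (nat_lit 1) (nat_lit 4) (nat_lit 3) (nat_lit 345) (nat_lit 174) r0_345 r11_174 (nat_lit 0) (nat_lit 0) (nat_lit 39878874) (nat_lit 0x1f508030a) (nat_lit 320158280),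
  Rx.mk (nat_lit 280) (nat_lit 0) (nat_lit 3) (nat_lit 4) (nat_lit 2) (nat_lit 346) (nat_lit 177) r0_346 r11_177 (nat_lit 12075733) (nat_lit 0) (nat_lit 11887713) (nat_lit 0x1eb247a26) (nat_lit 314760552),
  Rx.mk (nat_lit 281) (nat_lit 1) (nat_lit 3) (nat_lit 4) (nat_lit 3) (nat_lit 347) (nat_lit 179) r0_347 r11_179 (nat_lit 0) (nat_lit 0) (nat_lit 9484367) (nat_lit 0x2059b896c) (nat_lit 272450673),
  Rx.mk (nat_lit 283) (nat_lit 3) (nat_lit 3) (nat_lit 4) (nat_lit 3) (nat_lit 348) (nat_lit 181) r0_348 r11_181 (nat_lit 0) (nat_lit 0) (nat_lit 9484367) (nat_lit 0x1f84a366e) (nat_lit 286360823),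
  Rx.mk (nat_lit 320) (nat_lit 0) (nat_lit 0) (nat_lit 5) (nat_lit 4) (nat_lit 349) (nat_lit 166) r0_349 r11_166 (nat_lit 7338378) (nat_lit 30727633) (nat_lit 0) (nat_lit 0x1ea3cd702) (nat_lit 329808917),
  Rx.mk (nat_lit 321) (nat_lit 1) (nat_lit 0) (nat_lit 5) (nat_lit 5) (nat_lit 350) (nat_lit 169) r0_350 r11_169 (nat_lit 0) (nat_lit 9484367) (nat_lit 0) (nat_lit 0x20056d4f2) (nat_lit 277919823),
  Rx.mk (nat_lit 328) (nat_lit 0) (nat_lit 1) (nat_lit 5) (nat_lit 6) (nat_lit 351) (nat_lit 172) r0_351 r11_172 (nat_lit 9484367) (nat_lit 0) (nat_lit 0) (nat_lit 0x20056d4f2) (nat_lit 277919823),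
  Rx.mk (nat_lit 329) (nat_lit 1) (nat_lit 1) (nat_lit 5) (nat_lit 7) (nat_lit 352) (nat_lit 175) r0_352 r11_175 (nat_lit 0) (nat_lit 0) (nat_lit 0) (nat_lit 0x2027076bc) (nat_lit 266249356),
  Rx.mk (nat_lit 344) (nat_lit 0) (nat_lit 3) (nat_lit 5) (nat_lit 6) (nat_lit 353) (nat_lit 178) r0_353 r11_178 (nat_lit 6887100) (nat_lit 0) (nat_lit 0) (nat_lit 0x2015d3daa) (nat_lit 274247906),
  Rx.mk (nat_lit 345) (nat_lit 1) (nat_lit 3) (nat_lit 5) (nat_lit 7) (nat_lit 354) (nat_lit 180) r0_354 r11_180 (nat_lit 0) (nat_lit 0) (nat_lit 0) (nat_lit 0x20056d4f2) (nat_lit 268435456),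
  Rx.mk (nat_lit 347) (nat_lit 3) (nat_lit 3) (nat_lit 5) (nat_lit 7) (nat_lit 355) (nat_lit 182) r0_355 r11_182 (nat_lit 0) (nat_lit 0) (nat_lit 0) (nat_lit 0x202a4c502) (nat_lit 266036856),
  Rx.mk (nat_lit 448) (nat_lit 0) (nat_lit 0) (nat_lit 7) (nat_lit 4) (nat_lit 356) (nat_lit 167) r0_356 r11_167 (nat_lit 11130106) (nat_lit 12626977) (nat_lit 0) (nat_lit 0x1f556d688) (nat_lit 303736289),
  Rx.mk (nat_lit 449) (nat_lit 1) (nat_lit 0) (nat_lit 7) (nat_lit 5) (nat_lit 357) (nat_lit 170) r0_357 r11_170 (nat_lit 0) (nat_lit 5043943) (nat_lit 0) (nat_lit 0x20722e604) (nat_lit 266431999),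
  Rx.mk (nat_lit 456) (nat_lit 0) (nat_lit 1) (nat_lit 7) (nat_lit 6) (nat_lit 358) (nat_lit 173) r0_358 r11_173 (nat_lit 7551605) (nat_lit 0) (nat_lit 0) (nat_lit 0x2023d3d1a) (nat_lit 274003461),
  Rx.mk (nat_lit 457) (nat_lit 1) (nat_lit 1) (nat_lit 7) (nat_lit 7) (nat_lit 359) (nat_lit 176) r0_359 r11_176 (nat_lit 0) (nat_lit 0) (nat_lit 0) (nat_lit 0x210e26124) (nat_lit 251360656)]
noncomputable def e12_30 : List Rx := [
  Rx.mk (nat_lit 216) (nat_lit 0) (nat_lit 3) (nat_lit 3) (nat_lit 6) (nat_lit 65) (nat_lit 4) r0_65 r5_4 (nat_lit 1047232) (nat_lit 0) (nat_lit 0) (nat_lit 0x1fe6eb86c) (nat_lit 271393488),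
  Rx.mk (nat_lit 218) (nat_lit 2) (nat_lit 3) (nat_lit 3) (nat_lit 7) (nat_lit 66) (nat_lit 5) r0_66 r5_5 (nat_lit 0) (nat_lit 0) (nat_lit 0) (nat_lit 0x2076d9fbe) (nat_lit 261082156),
  Rx.mk (nat_lit 315) (nat_lit 3) (nat_lit 7) (nat_lit 4) (nat_lit 3) (nat_lit 67) (nat_lit 0) r0_67 r5_0 (nat_lit 0) (nat_lit 0) (nat_lit 1224594) (nat_lit 0x1f6cdf3ac) (nat_lit 279582800),
  Rx.mk (nat_lit 472) (nat_lit 0) (nat_lit 3) (nat_lit 7) (nat_lit 6) (nat_lit 68) (nat_lit 3) r0_68 r5_3 (nat_lit 1465966) (nat_lit 0) (nat_lit 0) (nat_lit 0x1f26316d0) (nat_lit 284523272),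
  Rx.mk (nat_lit 504) (nat_lit 0) (nat_lit 7) (nat_lit 7) (nat_lit 6) (nat_lit 69) (nat_lit 1) r0_69 r5_1 (nat_lit 1213772) (nat_lit 0) (nat_lit 0) (nat_lit 0x1e3ce063e) (nat_lit 299727878),
  Rx.mk (nat_lit 507) (nat_lit 3) (nat_lit 7) (nat_lit 7) (nat_lit 7) (nat_lit 70) (nat_lit 2) r0_70 r5_2 (nat_lit 0) (nat_lit 0) (nat_lit 0) (nat_lit 0x1f8e71664) (nat_lit 276218956)]
noncomputable def e12_31 : List Rx := [
  Rx.mk (nat_lit 216) (nat_lit 0) (nat_lit 3) (nat_lit 3) (nat_lit 6) (nat_lit 152) (nat_lit 0) r0_152 r11_0 (nat_lit 7183742) (nat_lit 0) (nat_lit 0) (nat_lit 0x1fc9b009a) (nat_lit 279512798),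
  Rx.mk (nat_lit 218) (nat_lit 2) (nat_lit 3) (nat_lit 3) (nat_lit 7) (nat_lit 153) (nat_lit 1) r0_153 r11_1 (nat_lit 0) (nat_lit 0) (nat_lit 0) (nat_lit 0x202537062) (nat_lit 266367056)]
noncomputable def e12_32 : List Rx := [
  Rx.mk (nat_lit 281) (nat_lit 1) (nat_lit 3) (nat_lit 4) (nat_lit 3) (nat_lit 222) (nat_lit 279) r0_222 r6_279 (nat_lit 0) (nat_lit 0) (nat_lit 6622) (nat_lit 0x241d4916c) (nat_lit 201098578),
  Rx.mk (nat_lit 313) (nat_lit 1) (nat_lit 7) (nat_lit 4) (nat_lit 3) (nat_lit 223) (nat_lit 278) r0_223 r6_278 (nat_lit 0) (nat_lit 0) (nat_lit 11115543) (nat_lit 0x1fdae8574) (nat_lit 282223849)]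
noncomputable def e12_33 : List Rx := [
  Rx.mk (nat_lit 281) (nat_lit 1) (nat_lit 3) (nat_lit 4) (nat_lit 3) (nat_lit 315) (nat_lit 252) r0_315 r5_252 (nat_lit 0) (nat_lit 0) (nat_lit 3242551) (nat_lit 0x2143dd650) (nat_lit 251117207),
  Rx.mk (nat_lit 344) (nat_lit 0) (nat_lit 3) (nat_lit 5) (nat_lit 6) (nat_lit 316) (nat_lit 253) r0_316 r5_253 (nat_lit 2390639) (nat_lit 0) (nat_lit 0) (nat_lit 0x1ff4c17e8) (nat_lit 271882995),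
  Rx.mk (nat_lit 345) (nat_lit 1) (nat_lit 3) (nat_lit 5) (nat_lit 7) (nat_lit 317) (nat_lit 254) r0_317 r5_254 (nat_lit 0) (nat_lit 0) (nat_lit 0) (nat_lit 0x2402ac98a) (nat_lit 202949906)]
noncomputable def e12_34 : List Rx := [
  Rx.mk (nat_lit 344) (nat_lit 0) (nat_lit 3) (nat_lit 5) (nat_lit 6) (nat_lit 328) (nat_lit 298) r0_328 r11_298 (nat_lit 7056473) (nat_lit 0) (nat_lit 0) (nat_lit 0x20022dd1e) (nat_lit 275697279),
  Rx.mk (nat_lit 345) (nat_lit 1) (nat_lit 3) (nat_lit 5) (nat_lit 7) (nat_lit 329) (nat_lit 299) r0_329 r11_299 (nat_lit 0) (nat_lit 0) (nat_lit 0) (nat_lit 0x201fffcf2) (nat_lit 266705806)]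
noncomputable def e12_35 : List Rx := [
  Rx.mk (nat_lit 312) (nat_lit 0) (nat_lit 7) (nat_lit 4) (nat_lit 2) (nat_lit 82) (nat_lit 51) r0_82 r6_51 (nat_lit 196429) (nat_lit 0) (nat_lit 281735) (nat_lit 0x185106fa6) (nat_lit 399502620),
  Rx.mk (nat_lit 313) (nat_lit 1) (nat_lit 7) (nat_lit 4) (nat_lit 3) (nat_lit 83) (nat_lit 52) r0_83 r6_52 (nat_lit 0) (nat_lit 0) (nat_lit 5413605) (nat_lit 0x1f06f7d78) (nat_lit 290569961),
  Rx.mk (nat_lit 315) (nat_lit 3) (nat_lit 7) (nat_lit 4) (nat_lit 3) (nat_lit 84) (nat_lit 53) r0_84 r6_53 (nat_lit 0) (nat_lit 0) (nat_lit 2973175) (nat_lit 0x1e042fbe6) (nat_lit 305284081),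
  Rx.mk (nat_lit 472) (nat_lit 0) (nat_lit 3) (nat_lit 7) (nat_lit 6) (nat_lit 85) (nat_lit 49) r0_85 r6_49 (nat_lit 1207477) (nat_lit 0) (nat_lit 0) (nat_lit 0x21257ed80) (nat_lit 251038333),
  Rx.mk (nat_lit 473) (nat_lit 1) (nat_lit 3) (nat_lit 7) (nat_lit 7) (nat_lit 86) (nat_lit 50) r0_86 r6_50 (nat_lit 0) (nat_lit 0) (nat_lit 0) (nat_lit 0x242f3f128) (nat_lit 200086356),
  Rx.mk (nat_lit 504) (nat_lit 0) (nat_lit 7) (nat_lit 7) (nat_lit 6) (nat_lit 87) (nat_lit 54) r0_87 r6_54 (nat_lit 3576524) (nat_lit 0) (nat_lit 0) (nat_lit 0x1f64ded74) (nat_lit 282524430),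
  Rx.mk (nat_lit 505) (nat_lit 1) (nat_lit 7) (nat_lit 7) (nat_lit 7) (nat_lit 88) (nat_lit 55) r0_88 r6_55 (nat_lit 0) (nat_lit 0) (nat_lit 0) (nat_lit 0x22fcdb1ec) (nat_lit 219708606)]
noncomputable def e12_36 : List Rx := [
  Rx.mk (nat_lit 280) (nat_lit 0) (nat_lit 3) (nat_lit 4) (nat_lit 2) (nat_lit 236) (nat_lit 90) r0_236 r12_90 (nat_lit 13849) (nat_lit 0) (nat_lit 17287) (nat_lit 0x1a39bb7e6) (nat_lit 366576142),
  Rx.mk (nat_lit 281) (nat_lit 1) (nat_lit 3) (nat_lit 4) (nat_lit 3) (nat_lit 237) (nat_lit 93) r0_237 r12_93 (nat_lit 0) (nat_lit 0) (nat_lit 11007) (nat_lit 0x23e1eb872) (nat_lit 204899413),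
  Rx.mk (nat_lit 312) (nat_lit 0) (nat_lit 7) (nat_lit 4) (nat_lit 2) (nat_lit 238) (nat_lit 92) r0_238 r12_92 (nat_lit 65380) (nat_lit 0) (nat_lit 96469) (nat_lit 0x18a8c6ef8) (nat_lit 393333155),
  Rx.mk (nat_lit 313) (nat_lit 1) (nat_lit 7) (nat_lit 4) (nat_lit 3) (nat_lit 239) (nat_lit 95) r0_239 r12_95 (nat_lit 0) (nat_lit 0) (nat_lit 4326039) (nat_lit 0x1f34cc8b6) (nat_lit 286329845),
  Rx.mk (nat_lit 315) (nat_lit 3) (nat_lit 7) (nat_lit 4) (nat_lit 3) (nat_lit 240) (nat_lit 96) r0_240 r12_96 (nat_lit 0) (nat_lit 0) (nat_lit 826648) (nat_lit 0x1cf75fa98) (nat_lit 320912104),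
  Rx.mk (nat_lit 472) (nat_lit 0) (nat_lit 3) (nat_lit 7) (nat_lit 6) (nat_lit 241) (nat_lit 91) r0_241 r12_91 (nat_lit 1422249) (nat_lit 0) (nat_lit 0) (nat_lit 0x20c524b88) (nat_lit 257436105),
  Rx.mk (nat_lit 473) (nat_lit 1) (nat_lit 3) (nat_lit 7) (nat_lit 7) (nat_lit 242) (nat_lit 94) r0_242 r12_94 (nat_lit 0) (nat_lit 0) (nat_lit 0) (nat_lit 0x2607f22a8) (nat_lit 169854606)]
noncomputable def e12_37 : List Rx := [
  Rx.mk (nat_lit 289) (nat_lit 1) (nat_lit 4) (nat_lit 4) (nat_lit 1) (nat_lit 171) (nat_lit 248) r0_171 r0_248 (nat_lit 0) (nat_lit 748) (nat_lit 205064910) (nat_lit 0x200021610) (nat_lit 473493114),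
  Rx.mk (nat_lit 297) (nat_lit 1) (nat_lit 5) (nat_lit 4) (nat_lit 3) (nat_lit 172) (nat_lit 249) r0_172 r0_249 (nat_lit 0) (nat_lit 0) (nat_lit 120058012) (nat_lit 0x1f4928120) (nat_lit 400822818)]
noncomputable def e12_38 : List Rx := [
  Rx.mk (nat_lit 317) (nat_lit 5) (nat_lit 7) (nat_lit 4) (nat_lit 3) (nat_lit 72) (nat_lit 73) r0_72 r0_73 (nat_lit 0) (nat_lit 0) (nat_lit 3189282) (nat_lit 0x1e646defe) (nat_lit 299105288),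
  Rx.mk (nat_lit 421) (nat_lit 5) (nat_lit 4) (nat_lit 6) (nat_lit 5) (nat_lit 73) (nat_lit 72) r0_73 r0_72 (nat_lit 0) (nat_lit 3189282) (nat_lit 0) (nat_lit 0x1e646defe) (nat_lit 299105288),
  Rx.mk (nat_lit 445) (nat_lit 5) (nat_lit 7) (nat_lit 6) (nat_lit 7) (nat_lit 74) (nat_lit 74) r0_74 r0_74 (nat_lit 0) (nat_lit 0) (nat_lit 0) (nat_lit 0x2029ade84) (nat_lit 266052256)]
noncomputable def e12_39 : List Rx := [
  Rx.mk (nat_lit 289) (nat_lit 1) (nat_lit 4) (nat_lit 4) (nat_lit 1) (nat_lit 177) (nat_lit 325) r0_177 r7_325 (nat_lit 0) (nat_lit 236105) (nat_lit 3352025) (nat_lit 0x15ef65efc) (nat_lit 443065536),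
  Rx.mk (nat_lit 293) (nat_lit 5) (nat_lit 4) (nat_lit 4) (nat_lit 1) (nat_lit 178) (nat_lit 319) r0_178 r7_319 (nat_lit 0) (nat_lit 254935) (nat_lit 716691) (nat_lit 0x19bbb53e2) (nat_lit 375922732),
  Rx.mk (nat_lit 297) (nat_lit 1) (nat_lit 5) (nat_lit 4) (nat_lit 3) (nat_lit 179) (nat_lit 326) r0_179 r7_326 (nat_lit 0) (nat_lit 0) (nat_lit 2435671) (nat_lit 0x1813fca48) (nat_lit 405583127),
  Rx.mk (nat_lit 301) (nat_lit 5) (nat_lit 5) (nat_lit 4) (nat_lit 3) (nat_lit 180) (nat_lit 320) r0_180 r7_320 (nat_lit 0) (nat_lit 0) (nat_lit 8466862) (nat_lit 0x1df10845a) (nat_lit 312056868),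
  Rx.mk (nat_lit 317) (nat_lit 5) (nat_lit 7) (nat_lit 4) (nat_lit 3) (nat_lit 181) (nat_lit 321) r0_181 r7_321 (nat_lit 0) (nat_lit 0) (nat_lit 57895491) (nat_lit 0x20dbef6b0) (nat_lit 312330647),
  Rx.mk (nat_lit 421) (nat_lit 5) (nat_lit 4) (nat_lit 6) (nat_lit 5) (nat_lit 182) (nat_lit 322) r0_182 r7_322 (nat_lit 0) (nat_lit 2189607) (nat_lit 0) (nat_lit 0x1fe25deee) (nat_lit 272854513),
  Rx.mk (nat_lit 429) (nat_lit 5) (nat_lit 5) (nat_lit 6) (nat_lit 7) (nat_lit 183) (nat_lit 323) r0_183 r7_323 (nat_lit 0) (nat_lit 0) (nat_lit 0) (nat_lit 0x2069e1e9c) (nat_lit 261918006),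
  Rx.mk (nat_lit 445) (nat_lit 5) (nat_lit 7) (nat_lit 6) (nat_lit 7) (nat_lit 184) (nat_lit 324) r0_184 r7_324 (nat_lit 0) (nat_lit 0) (nat_lit 0) (nat_lit 0x2120dae14) (nat_lit 250172056)]
noncomputable def e12_40 : List Rx := [
  Rx.mk (nat_lit 182) (nat_lit 6) (nat_lit 6) (nat_lit 2) (nat_lit 7) (nat_lit 30) (nat_lit 71) r0_30 r2_71 (nat_lit 0) (nat_lit 0) (nat_lit 0) (nat_lit 0x1ffdc5ed4) (nat_lit 268933606),
  Rx.mk (nat_lit 316) (nat_lit 4) (nat_lit 7) (nat_lit 4) (nat_lit 2) (nat_lit 31) (nat_lit 64) r0_31 r2_64 (nat_lit 294663) (nat_lit 0) (nat_lit 349407) (nat_lit 0x19a17a64e) (nat_lit 377353876),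
  Rx.mk (nat_lit 317) (nat_lit 5) (nat_lit 7) (nat_lit 4) (nat_lit 3) (nat_lit 32) (nat_lit 65) r0_32 r2_65 (nat_lit 0) (nat_lit 0) (nat_lit 3951197) (nat_lit 0x1fb1bfb20) (nat_lit 277838903),
  Rx.mk (nat_lit 319) (nat_lit 7) (nat_lit 7) (nat_lit 4) (nat_lit 3) (nat_lit 33) (nat_lit 66) r0_33 r2_66 (nat_lit 0) (nat_lit 0) (nat_lit 7471693) (nat_lit 0x1fd740098) (nat_lit 278900949),
  Rx.mk (nat_lit 420) (nat_lit 4) (nat_lit 4) (nat_lit 6) (nat_lit 4) (nat_lit 34) (nat_lit 62) r0_34 r2_62 (nat_lit 813893) (nat_lit 1671764) (nat_lit 0) (nat_lit 0x19c19e614) (nat_lit 377108313),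
  Rx.mk (nat_lit 421) (nat_lit 5) (nat_lit 4) (nat_lit 6) (nat_lit 5) (nat_lit 35) (nat_lit 63) r0_35 r2_63 (nat_lit 0) (nat_lit 10441397) (nat_lit 0) (nat_lit 0x1fa2a4a28) (nat_lit 285340053),
  Rx.mk (nat_lit 436) (nat_lit 4) (nat_lit 6) (nat_lit 6) (nat_lit 6) (nat_lit 36) (nat_lit 72) r0_36 r2_72 (nat_lit 5691868) (nat_lit 0) (nat_lit 0) (nat_lit 0x1f50a2202) (nat_lit 285995074),
  Rx.mk (nat_lit 437) (nat_lit 5) (nat_lit 6) (nat_lit 6) (nat_lit 7) (nat_lit 37) (nat_lit 73) r0_37 r2_73 (nat_lit 0) (nat_lit 0) (nat_lit 0) (nat_lit 0x1ffc2f214) (nat_lit 269036706),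
  Rx.mk (nat_lit 438) (nat_lit 6) (nat_lit 6) (nat_lit 6) (nat_lit 7) (nat_lit 38) (nat_lit 74) r0_38 r2_74 (nat_lit 0) (nat_lit 0) (nat_lit 0) (nat_lit 0x2013deebe) (nat_lit 267490256),
  Rx.mk (nat_lit 444) (nat_lit 4) (nat_lit 7) (nat_lit 6) (nat_lit 6) (nat_lit 39) (nat_lit 68) r0_39 r2_68 (nat_lit 267483) (nat_lit 0) (nat_lit 0) (nat_lit 0x2090e0ad4) (nat_lit 259516689),
  Rx.mk (nat_lit 445) (nat_lit 5) (nat_lit 7) (nat_lit 6) (nat_lit 7) (nat_lit 40) (nat_lit 69) r0_40 r2_69 (nat_lit 0) (nat_lit 0) (nat_lit 0) (nat_lit 0x23e3f71fc) (nat_lit 204928556),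
  Rx.mk (nat_lit 447) (nat_lit 7) (nat_lit 7) (nat_lit 6) (nat_lit 7) (nat_lit 41) (nat_lit 70) r0_41 r2_70 (nat_lit 0) (nat_lit 0) (nat_lit 0) (nat_lit 0x240278928) (nat_lit 202977506),
  Rx.mk (nat_lit 511) (nat_lit 7) (nat_lit 7) (nat_lit 7) (nat_lit 7) (nat_lit 42) (nat_lit 67) r0_42 r2_67 (nat_lit 0) (nat_lit 0) (nat_lit 0) (nat_lit 0x2086fe548) (nat_lit 260050456)]
noncomputable def e12_41 : List Rx := [
  Rx.mk (nat_lit 182) (nat_lit 6) (nat_lit 6) (nat_lit 2) (nat_lit 7) (nat_lit 154) (nat_lit 36) r0_154 r9_36 (nat_lit 0) (nat_lit 0) (nat_lit 0) (nat_lit 0x20056d4f2) (nat_lit 268435456),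
  Rx.mk (nat_lit 292) (nat_lit 4) (nat_lit 4) (nat_lit 4) (nat_lit 0) (nat_lit 155) (nat_lit 23) r0_155 r9_23 (nat_lit 1269390) (nat_lit 1767760) (nat_lit 2742121) (nat_lit 0xae741146) (nat_lit 632770227),
  Rx.mk (nat_lit 293) (nat_lit 5) (nat_lit 4) (nat_lit 4) (nat_lit 1) (nat_lit 156) (nat_lit 24) r0_156 r9_24 (nat_lit 0) (nat_lit 7054152) (nat_lit 7764799) (nat_lit 0x15828a382) (nat_lit 461644607),
  Rx.mk (nat_lit 301) (nat_lit 5) (nat_lit 5) (nat_lit 4) (nat_lit 3) (nat_lit 157) (nat_lit 27) r0_157 r9_27 (nat_lit 0) (nat_lit 0) (nat_lit 11270394) (nat_lit 0x1e52d84be) (nat_lit 308387900),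
  Rx.mk (nat_lit 316) (nat_lit 4) (nat_lit 7) (nat_lit 4) (nat_lit 2) (nat_lit 158) (nat_lit 29) r0_158 r9_29 (nat_lit 3035981) (nat_lit 0) (nat_lit 17383273) (nat_lit 0x15db1204a) (nat_lit 461356660),
  Rx.mk (nat_lit 317) (nat_lit 5) (nat_lit 7) (nat_lit 4) (nat_lit 3) (nat_lit 159) (nat_lit 30) r0_159 r9_30 (nat_lit 0) (nat_lit 0) (nat_lit 22707758) (nat_lit 0x1eef51020) (nat_lit 309447014),
  Rx.mk (nat_lit 319) (nat_lit 7) (nat_lit 7) (nat_lit 4) (nat_lit 3) (nat_lit 160) (nat_lit 31) r0_160 r9_31 (nat_lit 0) (nat_lit 0) (nat_lit 36568253) (nat_lit 0x1f05c5ed2) (nat_lit 321832559),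
  Rx.mk (nat_lit 420) (nat_lit 4) (nat_lit 4) (nat_lit 6) (nat_lit 4) (nat_lit 161) (nat_lit 25) r0_161 r9_25 (nat_lit 2545546) (nat_lit 3092091) (nat_lit 0) (nat_lit 0x173fde9d2) (nat_lit 422891393),
  Rx.mk (nat_lit 421) (nat_lit 5) (nat_lit 4) (nat_lit 6) (nat_lit 5) (nat_lit 162) (nat_lit 26) r0_162 r9_26 (nat_lit 0) (nat_lit 9033993) (nat_lit 0) (nat_lit 0x1ee42aec6) (nat_lit 296521849),
  Rx.mk (nat_lit 429) (nat_lit 5) (nat_lit 5) (nat_lit 6) (nat_lit 7) (nat_lit 163) (nat_lit 28) r0_163 r9_28 (nat_lit 0) (nat_lit 0) (nat_lit 0) (nat_lit 0x20056d4f2) (nat_lit 268435456),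
  Rx.mk (nat_lit 436) (nat_lit 4) (nat_lit 6) (nat_lit 6) (nat_lit 6) (nat_lit 164) (nat_lit 37) r0_164 r9_37 (nat_lit 8810507) (nat_lit 0) (nat_lit 0) (nat_lit 0x1f318ee42) (nat_lit 291178113),
  Rx.mk (nat_lit 437) (nat_lit 5) (nat_lit 6) (nat_lit 6) (nat_lit 7) (nat_lit 165) (nat_lit 38) r0_165 r9_38 (nat_lit 0) (nat_lit 0) (nat_lit 0) (nat_lit 0x20056d4f2) (nat_lit 268435456),
  Rx.mk (nat_lit 438) (nat_lit 6) (nat_lit 6) (nat_lit 6) (nat_lit 7) (nat_lit 166) (nat_lit 39) r0_166 r9_39 (nat_lit 0) (nat_lit 0) (nat_lit 0) (nat_lit 0x20056d4f2) (nat_lit 268435456),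
  Rx.mk (nat_lit 444) (nat_lit 4) (nat_lit 7) (nat_lit 6) (nat_lit 6) (nat_lit 167) (nat_lit 33) r0_167 r9_33 (nat_lit 7106347) (nat_lit 0) (nat_lit 0) (nat_lit 0x1fd785e5e) (nat_lit 278532703),
  Rx.mk (nat_lit 445) (nat_lit 5) (nat_lit 7) (nat_lit 6) (nat_lit 7) (nat_lit 168) (nat_lit 34) r0_168 r9_34 (nat_lit 0) (nat_lit 0) (nat_lit 0) (nat_lit 0x20056d4f2) (nat_lit 268435456),
  Rx.mk (nat_lit 447) (nat_lit 7) (nat_lit 7) (nat_lit 6) (nat_lit 7) (nat_lit 169) (nat_lit 35) r0_169 r9_35 (nat_lit 0) (nat_lit 0) (nat_lit 0) (nat_lit 0x20056d4f2) (nat_lit 268435456),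
  Rx.mk (nat_lit 511) (nat_lit 7) (nat_lit 7) (nat_lit 7) (nat_lit 7) (nat_lit 170) (nat_lit 32) r0_170 r9_32 (nat_lit 0) (nat_lit 0) (nat_lit 0) (nat_lit 0x1f920a348) (nat_lit 275995056)]
noncomputable def e12_42 : List Rx := [
  Rx.mk (nat_lit 182) (nat_lit 6) (nat_lit 6) (nat_lit 2) (nat_lit 7) (nat_lit 141) (nat_lit 0) r0_141 r9_0 (nat_lit 0) (nat_lit 0) (nat_lit 0) (nat_lit 0x20056d4f2) (nat_lit 268435456)]
noncomputable def e12_43 : List Rx := [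
  Rx.mk (nat_lit 317) (nat_lit 5) (nat_lit 7) (nat_lit 4) (nat_lit 3) (nat_lit 75) (nat_lit 70) r0_75 r1_70 (nat_lit 0) (nat_lit 0) (nat_lit 3064142) (nat_lit 0x203e7efde) (nat_lit 267754448),
  Rx.mk (nat_lit 421) (nat_lit 5) (nat_lit 4) (nat_lit 6) (nat_lit 5) (nat_lit 76) (nat_lit 69) r0_76 r1_69 (nat_lit 0) (nat_lit 7606073) (nat_lit 0) (nat_lit 0x1f4683d84) (nat_lit 288573429),
  Rx.mk (nat_lit 437) (nat_lit 5) (nat_lit 6) (nat_lit 6) (nat_lit 7) (nat_lit 77) (nat_lit 72) r0_77 r1_72 (nat_lit 0) (nat_lit 0) (nat_lit 0) (nat_lit 0x202d73a00) (nat_lit 265825656),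
  Rx.mk (nat_lit 445) (nat_lit 5) (nat_lit 7) (nat_lit 6) (nat_lit 7) (nat_lit 78) (nat_lit 71) r0_78 r1_71 (nat_lit 0) (nat_lit 0) (nat_lit 0) (nat_lit 0x22d0de396) (nat_lit 222515206)]
noncomputable def e12_44 : List Rx := [
  Rx.mk (nat_lit 293) (nat_lit 5) (nat_lit 4) (nat_lit 4) (nat_lit 1) (nat_lit 188) (nat_lit 241) r0_188 r8_241 (nat_lit 0) (nat_lit 3895157) (nat_lit 7060541) (nat_lit 0x16494bc14) (nat_lit 444572854),
  Rx.mk (nat_lit 301) (nat_lit 5) (nat_lit 5) (nat_lit 4) (nat_lit 3) (nat_lit 189) (nat_lit 242) r0_189 r8_242 (nat_lit 0) (nat_lit 0) (nat_lit 7988855) (nat_lit 0x1dd308112) (nat_lit 313579111),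
  Rx.mk (nat_lit 317) (nat_lit 5) (nat_lit 7) (nat_lit 4) (nat_lit 3) (nat_lit 190) (nat_lit 243) r0_190 r8_243 (nat_lit 0) (nat_lit 0) (nat_lit 56857679) (nat_lit 0x1feec1780) (nat_lit 326737435),
  Rx.mk (nat_lit 421) (nat_lit 5) (nat_lit 4) (nat_lit 6) (nat_lit 5) (nat_lit 191) (nat_lit 244) r0_191 r8_244 (nat_lit 0) (nat_lit 5196417) (nat_lit 0) (nat_lit 0x1fa15acb2) (nat_lit 280172673),
  Rx.mk (nat_lit 429) (nat_lit 5) (nat_lit 5) (nat_lit 6) (nat_lit 7) (nat_lit 192) (nat_lit 245) r0_192 r8_245 (nat_lit 0) (nat_lit 0) (nat_lit 0) (nat_lit 0x201316b9e) (nat_lit 267545656),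
  Rx.mk (nat_lit 437) (nat_lit 5) (nat_lit 6) (nat_lit 6) (nat_lit 7) (nat_lit 193) (nat_lit 247) r0_193 r8_247 (nat_lit 0) (nat_lit 0) (nat_lit 0) (nat_lit 0x20056d4f2) (nat_lit 268435456),
  Rx.mk (nat_lit 445) (nat_lit 5) (nat_lit 7) (nat_lit 6) (nat_lit 7) (nat_lit 194) (nat_lit 246) r0_194 r8_246 (nat_lit 0) (nat_lit 0) (nat_lit 0) (nat_lit 0x201316b9e) (nat_lit 267545656)]
noncomputable def e12_45 : List Rx := [
  Rx.mk (nat_lit 297) (nat_lit 1) (nat_lit 5) (nat_lit 4) (nat_lit 3) (nat_lit 173) (nat_lit 255) r0_173 r1_255 (nat_lit 0) (nat_lit 0) (nat_lit 65685782) (nat_lit 0x200c6d310) (nat_lit 333632738)]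
noncomputable def e12_46 : List Rx := [
  Rx.mk (nat_lit 265) (nat_lit 1) (nat_lit 1) (nat_lit 4) (nat_lit 3) (nat_lit 285) (nat_lit 281) r0_285 r2_281 (nat_lit 0) (nat_lit 0) (nat_lit 58461491) (nat_lit 0x1c9e814b2) (nat_lit 384503097),
  Rx.mk (nat_lit 297) (nat_lit 1) (nat_lit 5) (nat_lit 4) (nat_lit 3) (nat_lit 286) (nat_lit 280) r0_286 r2_280 (nat_lit 0) (nat_lit 0) (nat_lit 12544226) (nat_lit 0x1eee011d4) (nat_lit 299367132),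
  Rx.mk (nat_lit 329) (nat_lit 1) (nat_lit 1) (nat_lit 5) (nat_lit 7) (nat_lit 287) (nat_lit 283) r0_287 r2_283 (nat_lit 0) (nat_lit 0) (nat_lit 0) (nat_lit 0x20056d4f2) (nat_lit 268435456),
  Rx.mk (nat_lit 361) (nat_lit 1) (nat_lit 5) (nat_lit 5) (nat_lit 7) (nat_lit 288) (nat_lit 282) r0_288 r2_282 (nat_lit 0) (nat_lit 0) (nat_lit 0) (nat_lit 0x20056d4f2) (nat_lit 268435456)]
noncomputable def e12_47 : List Rx := [
  Rx.mk (nat_lit 297) (nat_lit 1) (nat_lit 5) (nat_lit 4) (nat_lit 3) (nat_lit 185) (nat_lit 63) r0_185 r8_63 (nat_lit 0) (nat_lit 0) (nat_lit 7783153) (nat_lit 0x1c7520078) (nat_lit 336577359),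
  Rx.mk (nat_lit 301) (nat_lit 5) (nat_lit 5) (nat_lit 4) (nat_lit 3) (nat_lit 186) (nat_lit 64) r0_186 r8_64 (nat_lit 0) (nat_lit 0) (nat_lit 7212426) (nat_lit 0x1f5198ca6) (nat_lit 287452482),
  Rx.mk (nat_lit 429) (nat_lit 5) (nat_lit 5) (nat_lit 6) (nat_lit 7) (nat_lit 187) (nat_lit 65) r0_187 r8_65 (nat_lit 0) (nat_lit 0) (nat_lit 0) (nat_lit 0x20394b670) (nat_lit 265061156)]
noncomputable def e12_48 : List Rx := [
  Rx.mk (nat_lit 265) (nat_lit 1) (nat_lit 1) (nat_lit 4) (nat_lit 3) (nat_lit 293) (nat_lit 254) r0_293 r9_254 (nat_lit 0) (nat_lit 0) (nat_lit 10725362) (nat_lit 0x1be5b800c) (nat_lit 349044468),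
  Rx.mk (nat_lit 297) (nat_lit 1) (nat_lit 5) (nat_lit 4) (nat_lit 3) (nat_lit 294) (nat_lit 253) r0_294 r9_253 (nat_lit 0) (nat_lit 0) (nat_lit 11334893) (nat_lit 0x1e2457aea) (nat_lit 311539649),
  Rx.mk (nat_lit 301) (nat_lit 5) (nat_lit 5) (nat_lit 4) (nat_lit 3) (nat_lit 295) (nat_lit 250) r0_295 r9_250 (nat_lit 0) (nat_lit 0) (nat_lit 10061420) (nat_lit 0x1f3c8879e) (nat_lit 291701226),
  Rx.mk (nat_lit 329) (nat_lit 1) (nat_lit 1) (nat_lit 5) (nat_lit 7) (nat_lit 296) (nat_lit 256) r0_296 r9_256 (nat_lit 0) (nat_lit 0) (nat_lit 0) (nat_lit 0x20056d4f2) (nat_lit 268435456),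
  Rx.mk (nat_lit 361) (nat_lit 1) (nat_lit 5) (nat_lit 5) (nat_lit 7) (nat_lit 297) (nat_lit 255) r0_297 r9_255 (nat_lit 0) (nat_lit 0) (nat_lit 0) (nat_lit 0x20056d4f2) (nat_lit 268435456),
  Rx.mk (nat_lit 365) (nat_lit 5) (nat_lit 5) (nat_lit 5) (nat_lit 7) (nat_lit 298) (nat_lit 251) r0_298 r9_251 (nat_lit 0) (nat_lit 0) (nat_lit 0) (nat_lit 0x20056d4f2) (nat_lit 268435456),
  Rx.mk (nat_lit 429) (nat_lit 5) (nat_lit 5) (nat_lit 6) (nat_lit 7) (nat_lit 299) (nat_lit 252) r0_299 r9_252 (nat_lit 0) (nat_lit 0) (nat_lit 0) (nat_lit 0x20056d4f2) (nat_lit 268435456)]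
noncomputable def e12_49 : List Rx := [
  Rx.mk (nat_lit 329) (nat_lit 1) (nat_lit 1) (nat_lit 5) (nat_lit 7) (nat_lit 291) (nat_lit 248) r0_291 r9_248 (nat_lit 0) (nat_lit 0) (nat_lit 0) (nat_lit 0x20056d4f2) (nat_lit 268435456),
  Rx.mk (nat_lit 361) (nat_lit 1) (nat_lit 5) (nat_lit 5) (nat_lit 7) (nat_lit 292) (nat_lit 249) r0_292 r9_249 (nat_lit 0) (nat_lit 0) (nat_lit 0) (nat_lit 0x20056d4f2) (nat_lit 268435456)]
noncomputable def e12_50 : List Rx := [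
  Rx.mk (nat_lit 313) (nat_lit 1) (nat_lit 7) (nat_lit 4) (nat_lit 3) (nat_lit 71) (nat_lit 249) r0_71 r3_249 (nat_lit 0) (nat_lit 0) (nat_lit 279) (nat_lit 0x2000240b8) (nat_lit 268426835)]
noncomputable def e12_51 : List Rx := [
  Rx.mk (nat_lit 289) (nat_lit 1) (nat_lit 4) (nat_lit 4) (nat_lit 1) (nat_lit 174) (nat_lit 262) r0_174 r4_262 (nat_lit 0) (nat_lit 368462) (nat_lit 92582256) (nat_lit 0x1ba8b9034) (nat_lit 435190624),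
  Rx.mk (nat_lit 297) (nat_lit 1) (nat_lit 5) (nat_lit 4) (nat_lit 3) (nat_lit 175) (nat_lit 263) r0_175 r4_263 (nat_lit 0) (nat_lit 0) (nat_lit 37264364) (nat_lit 0x1f17bb394) (nat_lit 321311370),
  Rx.mk (nat_lit 313) (nat_lit 1) (nat_lit 7) (nat_lit 4) (nat_lit 3) (nat_lit 176) (nat_lit 264) r0_176 r4_264 (nat_lit 0) (nat_lit 0) (nat_lit 105491124) (nat_lit 0x1b7455748) (nat_lit 451196430)]
noncomputable def e12_52 : List Rx := [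
  Rx.mk (nat_lit 313) (nat_lit 1) (nat_lit 7) (nat_lit 4) (nat_lit 3) (nat_lit 224) (nat_lit 255) r0_224 r5_255 (nat_lit 0) (nat_lit 0) (nat_lit 33756998) (nat_lit 0x200009fc4) (nat_lit 302190604)]
noncomputable def e12_53 : List Rx := [
  Rx.mk (nat_lit 313) (nat_lit 1) (nat_lit 7) (nat_lit 4) (nat_lit 3) (nat_lit 79) (nat_lit 68) r0_79 r4_68 (nat_lit 0) (nat_lit 0) (nat_lit 1637705) (nat_lit 0x17ef1a0fe) (nat_lit 407217261),
  Rx.mk (nat_lit 317) (nat_lit 5) (nat_lit 7) (nat_lit 4) (nat_lit 3) (nat_lit 80) (nat_lit 69) r0_80 r4_69 (nat_lit 0) (nat_lit 0) (nat_lit 3349434) (nat_lit 0x1f4641506) (nat_lit 284310440),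
  Rx.mk (nat_lit 445) (nat_lit 5) (nat_lit 7) (nat_lit 6) (nat_lit 7) (nat_lit 81) (nat_lit 70) r0_81 r4_70 (nat_lit 0) (nat_lit 0) (nat_lit 0) (nat_lit 0x1ea79a466) (nat_lit 291417306)]
noncomputable def e12_54 : List Rx := [
  Rx.mk (nat_lit 289) (nat_lit 1) (nat_lit 4) (nat_lit 4) (nat_lit 1) (nat_lit 195) (nat_lit 281) r0_195 r10_281 (nat_lit 0) (nat_lit 241321) (nat_lit 895600) (nat_lit 0x16b880cd8) (nat_lit 427279577),
  Rx.mk (nat_lit 297) (nat_lit 1) (nat_lit 5) (nat_lit 4) (nat_lit 3) (nat_lit 196) (nat_lit 282) r0_196 r10_282 (nat_lit 0) (nat_lit 0) (nat_lit 3476048) (nat_lit 0x1aa52c732) (nat_lit 363037754),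
  Rx.mk (nat_lit 313) (nat_lit 1) (nat_lit 7) (nat_lit 4) (nat_lit 3) (nat_lit 197) (nat_lit 283) r0_197 r10_283 (nat_lit 0) (nat_lit 0) (nat_lit 83120058) (nat_lit 0x201ce892e) (nat_lit 349914064),
  Rx.mk (nat_lit 317) (nat_lit 5) (nat_lit 7) (nat_lit 4) (nat_lit 3) (nat_lit 198) (nat_lit 279) r0_198 r10_279 (nat_lit 0) (nat_lit 0) (nat_lit 55056773) (nat_lit 0x212627822) (nat_lit 304746579),
  Rx.mk (nat_lit 445) (nat_lit 5) (nat_lit 7) (nat_lit 6) (nat_lit 7) (nat_lit 199) (nat_lit 280) r0_199 r10_280 (nat_lit 0) (nat_lit 0) (nat_lit 0) (nat_lit 0x20d426d7a) (nat_lit 255090656)]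
noncomputable def e12_55 : List Rx := [
  Rx.mk (nat_lit 313) (nat_lit 1) (nat_lit 7) (nat_lit 4) (nat_lit 3) (nat_lit 225) (nat_lit 302) r0_225 r11_302 (nat_lit 0) (nat_lit 0) (nat_lit 4092761) (nat_lit 0x1e23b5f10) (nat_lit 304294217),
  Rx.mk (nat_lit 317) (nat_lit 5) (nat_lit 7) (nat_lit 4) (nat_lit 3) (nat_lit 226) (nat_lit 300) r0_226 r11_300 (nat_lit 0) (nat_lit 0) (nat_lit 5081711) (nat_lit 0x2067102b8) (nat_lit 267155117),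
  Rx.mk (nat_lit 445) (nat_lit 5) (nat_lit 7) (nat_lit 6) (nat_lit 7) (nat_lit 227) (nat_lit 301) r0_227 r11_301 (nat_lit 0) (nat_lit 0) (nat_lit 0) (nat_lit 0x217fdbd96) (nat_lit 244045156)]
noncomputable def e12_56 : List Rx := [
  Rx.mk (nat_lit 313) (nat_lit 1) (nat_lit 7) (nat_lit 4) (nat_lit 3) (nat_lit 89) (nat_lit 61) r0_89 r5_61 (nat_lit 0) (nat_lit 0) (nat_lit 4504495) (nat_lit 0x1f3e5221e) (nat_lit 285962751),
  Rx.mk (nat_lit 505) (nat_lit 1) (nat_lit 7) (nat_lit 7) (nat_lit 7) (nat_lit 90) (nat_lit 62) r0_90 r5_62 (nat_lit 0) (nat_lit 0) (nat_lit 0) (nat_lit 0x21429c962) (nat_lit 247994206)]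
noncomputable def e12_57 : List Rx := [
  Rx.mk (nat_lit 289) (nat_lit 1) (nat_lit 4) (nat_lit 4) (nat_lit 1) (nat_lit 200) (nat_lit 37) r0_200 r11_37 (nat_lit 0) (nat_lit 6365539) (nat_lit 54732365) (nat_lit 0x1c36966d6) (nat_lit 394034560),
  Rx.mk (nat_lit 297) (nat_lit 1) (nat_lit 5) (nat_lit 4) (nat_lit 3) (nat_lit 201) (nat_lit 38) r0_201 r11_38 (nat_lit 0) (nat_lit 0) (nat_lit 10035955) (nat_lit 0x20209cdc2) (nat_lit 276689911),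
  Rx.mk (nat_lit 313) (nat_lit 1) (nat_lit 7) (nat_lit 4) (nat_lit 3) (nat_lit 202) (nat_lit 39) r0_202 r11_39 (nat_lit 0) (nat_lit 0) (nat_lit 57779837) (nat_lit 0x2087d0944) (nat_lit 317723493),
  Rx.mk (nat_lit 505) (nat_lit 1) (nat_lit 7) (nat_lit 7) (nat_lit 7) (nat_lit 203) (nat_lit 40) r0_203 r11_40 (nat_lit 0) (nat_lit 0) (nat_lit 0) (nat_lit 0x2192e072a) (nat_lit 242862556)]
noncomputable def e12 : List (List Rx) := [e12_0, e12_1, e12_2, e12_3, e12_4, e12_5, e12_6, e12_7, e12_8, e12_9, e12_10, e12_11, e12_12, e12_13, e12_14, e12_15, e12_16, e12_17, e12_18, e12_19, e12_20, e12_21, e12_22, e12_23, e12_24, e12_25, e12_26, e12_27, e12_28, e12_29, e12_30, e12_31, e12_32, e12_33, e12_34, e12_35, e12_36, e12_37, e12_38, e12_39, e12_40, e12_41, e12_42, e12_43, e12_44, e12_45, e12_46, e12_47, e12_48, e12_49, e12_50, e12_51, e12_52, e12_53, e12_54, e12_55,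 e12_56, e12_57]
noncomputable def e13_0 : List Rx := [
  Rx.mk (nat_lit 2) (nat_lit 2) (nat_lit 0) (nat_lit 0) (nat_lit 1) (nat_lit 2) (nat_lit 105) r7_2 r0_105 (nat_lit 0) (nat_lit 991673) (nat_lit 121405) (nat_lit 0x190ff0958) (nat_lit 387448234),
  Rx.mk (nat_lit 18) (nat_lit 2) (nat_lit 2) (nat_lit 0) (nat_lit 3) (nat_lit 4) (nat_lit 108) r7_4 r0_108 (nat_lit 0) (nat_lit 0) (nat_lit 4501915) (nat_lit 0x1cfdf132a) (nat_lit 324222321),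
  Rx.mk (nat_lit 146) (nat_lit 2) (nat_lit 2) (nat_lit 2) (nat_lit 7) (nat_lit 5) (nat_lit 110) r7_5 r0_110 (nat_lit 0) (nat_lit 0) (nat_lit 0) (nat_lit 0x1fe8175a6) (nat_lit 270347556),
  Rx.mk (nat_lit 192) (nat_lit 0) (nat_lit 0) (nat_lit 3) (nat_lit 4) (nat_lit 0) (nat_lit 100) r7_0 r0_100 (nat_lit 4635726) (nat_lit 10175790) (nat_lit 0) (nat_lit 0x1840136ea) (nat_lit 415072972),
  Rx.mk (nat_lit 194) (nat_lit 2) (nat_lit 0) (nat_lit 3) (nat_lit 5) (nat_lit 3) (nat_lit 106) r7_3 r0_106 (nat_lit 0) (nat_lit 27844967) (nat_lit 0) (nat_lit 0x1fd250a9c) (nat_lit 299584973),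
  Rx.mk (nat_lit 210) (nat_lit 2) (nat_lit 2) (nat_lit 3) (nat_lit 7) (nat_lit 6) (nat_lit 109) r7_6 r0_109 (nat_lit 0) (nat_lit 0) (nat_lit 0) (nat_lit 0x20249e1b4) (nat_lit 266405506),
  Rx.mk (nat_lit 216) (nat_lit 0) (nat_lit 3) (nat_lit 3) (nat_lit 6) (nat_lit 1) (nat_lit 101) r7_1 r0_101 (nat_lit 4240931) (nat_lit 0) (nat_lit 0) (nat_lit 0x1bf1985a2) (nat_lit 341762337),
  Rx.mk (nat_lit 218) (nat_lit 2) (nat_lit 3) (nat_lit 3) (nat_lit 7) (nat_lit 7) (nat_lit 107) r7_7 r0_107 (nat_lit 0) (nat_lit 0) (nat_lit 0) (nat_lit 0x1fe528a70) (nat_lit 270533656),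
  Rx.mk (nat_lit 219) (nat_lit 3) (nat_lit 3) (nat_lit 3) (nat_lit 7) (nat_lit 10) (nat_lit 102) r7_10 r0_102 (nat_lit 0) (nat_lit 0) (nat_lit 0) (nat_lit 0x1efe441c2) (nat_lit 285762006),
  Rx.mk (nat_lit 475) (nat_lit 3) (nat_lit 3) (nat_lit 7) (nat_lit 7) (nat_lit 9) (nat_lit 103) r7_9 r0_103 (nat_lit 0) (nat_lit 0) (nat_lit 0) (nat_lit 0x20056d4f2) (nat_lit 268435456),
  Rx.mk (nat_lit 507) (nat_lit 3) (nat_lit 7) (nat_lit 7) (nat_lit 7) (nat_lit 8) (nat_lit 104) r7_8 r0_104 (nat_lit 0) (nat_lit 0) (nat_lit 0) (nat_lit 0x20055e1a0) (nat_lit 268437306)]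
noncomputable def e13_1 : List Rx := [
  Rx.mk (nat_lit 0) (nat_lit 0) (nat_lit 0) (nat_lit 0) (nat_lit 0) (nat_lit 11) (nat_lit 107) r7_11 r1_107 (nat_lit 1141544) (nat_lit 4920335) (nat_lit 745275) (nat_lit 0x109a327e6) (nat_lit 536953810),
  Rx.mk (nat_lit 2) (nat_lit 2) (nat_lit 0) (nat_lit 0) (nat_lit 1) (nat_lit 14) (nat_lit 111) r7_14 r1_111 (nat_lit 0) (nat_lit 1363821) (nat_lit 648751) (nat_lit 0x196197c66) (nat_lit 383004978),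
  Rx.mk (nat_lit 18) (nat_lit 2) (nat_lit 2) (nat_lit 0) (nat_lit 3) (nat_lit 16) (nat_lit 114) r7_16 r1_114 (nat_lit 0) (nat_lit 0) (nat_lit 4901484) (nat_lit 0x1e15b6d9c) (nat_lit 306066590),
  Rx.mk (nat_lit 146) (nat_lit 2) (nat_lit 2) (nat_lit 2) (nat_lit 7) (nat_lit 17) (nat_lit 116) r7_17 r1_116 (nat_lit 0) (nat_lit 0) (nat_lit 0) (nat_lit 0x20056d4f2) (nat_lit 268435456),
  Rx.mk (nat_lit 192) (nat_lit 0) (nat_lit 0) (nat_lit 3) (nat_lit 4) (nat_lit 12) (nat_lit 108) r7_12 r1_108 (nat_lit 14689334) (nat_lit 34669275) (nat_lit 0) (nat_lit 0x1dc530cc4) (nat_lit 355866165),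
  Rx.mk (nat_lit 194) (nat_lit 2) (nat_lit 0) (nat_lit 3) (nat_lit 5) (nat_lit 15) (nat_lit 112) r7_15 r1_112 (nat_lit 0) (nat_lit 11532138) (nat_lit 0) (nat_lit 0x200c99f0a) (nat_lit 279487844),
  Rx.mk (nat_lit 210) (nat_lit 2) (nat_lit 2) (nat_lit 3) (nat_lit 7) (nat_lit 18) (nat_lit 115) r7_18 r1_115 (nat_lit 0) (nat_lit 0) (nat_lit 0) (nat_lit 0x20056d4f2) (nat_lit 268435456),
  Rx.mk (nat_lit 216) (nat_lit 0) (nat_lit 3) (nat_lit 3) (nat_lit 6) (nat_lit 13) (nat_lit 109) r7_13 r1_109 (nat_lit 8870652) (nat_lit 0) (nat_lit 0) (nat_lit 0x1fc54f38e) (nat_lit 281480458),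
  Rx.mk (nat_lit 218) (nat_lit 2) (nat_lit 3) (nat_lit 3) (nat_lit 7) (nat_lit 19) (nat_lit 113) r7_19 r1_113 (nat_lit 0) (nat_lit 0) (nat_lit 0) (nat_lit 0x204560096) (nat_lit 264283306),
  Rx.mk (nat_lit 219) (nat_lit 3) (nat_lit 3) (nat_lit 3) (nat_lit 7) (nat_lit 20) (nat_lit 110) r7_20 r1_110 (nat_lit 0) (nat_lit 0) (nat_lit 0) (nat_lit 0x20056d4f2) (nat_lit 268435456)]
noncomputable def e13_2 : List Rx := [
  Rx.mk (nat_lit 0) (nat_lit 0) (nat_lit 0) (nat_lit 0) (nat_lit 0) (nat_lit 21) (nat_lit 101) r7_21 r2_101 (nat_lit 110182) (nat_lit 347865) (nat_lit 122782) (nat_lit 0xf155adc6) (nat_lit 556453385),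
  Rx.mk (nat_lit 2) (nat_lit 2) (nat_lit 0) (nat_lit 0) (nat_lit 1) (nat_lit 26) (nat_lit 107) r7_26 r2_107 (nat_lit 0) (nat_lit 6259495) (nat_lit 2914534) (nat_lit 0x1a7896376) (nat_lit 371700385),
  Rx.mk (nat_lit 18) (nat_lit 2) (nat_lit 2) (nat_lit 0) (nat_lit 3) (nat_lit 28) (nat_lit 112) r7_28 r2_112 (nat_lit 0) (nat_lit 0) (nat_lit 9484367) (nat_lit 0x1fbe559fc) (nat_lit 282567823),
  Rx.mk (nat_lit 24) (nat_lit 0) (nat_lit 3) (nat_lit 0) (nat_lit 2) (nat_lit 23) (nat_lit 103) r7_23 r2_103 (nat_lit 1645853) (nat_lit 0) (nat_lit 1994389) (nat_lit 0x1a886f89c) (nat_lit 365101798),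
  Rx.mk (nat_lit 26) (nat_lit 2) (nat_lit 3) (nat_lit 0) (nat_lit 3) (nat_lit 31) (nat_lit 109) r7_31 r2_109 (nat_lit 0) (nat_lit 0) (nat_lit 4070597) (nat_lit 0x20d4908d8) (nat_lit 259136953),
  Rx.mk (nat_lit 64) (nat_lit 0) (nat_lit 0) (nat_lit 1) (nat_lit 4) (nat_lit 22) (nat_lit 102) r7_22 r2_102 (nat_lit 3470687) (nat_lit 7109024) (nat_lit 0) (nat_lit 0x150fa33f0) (nat_lit 465021817),
  Rx.mk (nat_lit 66) (nat_lit 2) (nat_lit 0) (nat_lit 1) (nat_lit 5) (nat_lit 27) (nat_lit 108) r7_27 r2_108 (nat_lit 0) (nat_lit 9484367) (nat_lit 0) (nat_lit 0x20056d4f2) (nat_lit 277919823),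
  Rx.mk (nat_lit 82) (nat_lit 2) (nat_lit 2) (nat_lit 1) (nat_lit 7) (nat_lit 29) (nat_lit 113) r7_29 r2_113 (nat_lit 0) (nat_lit 0) (nat_lit 0) (nat_lit 0x20056d4f2) (nat_lit 268435456),
  Rx.mk (nat_lit 88) (nat_lit 0) (nat_lit 3) (nat_lit 1) (nat_lit 6) (nat_lit 24) (nat_lit 104) r7_24 r2_104 (nat_lit 5017164) (nat_lit 0) (nat_lit 0) (nat_lit 0x207caad94) (nat_lit 265733370),
  Rx.mk (nat_lit 90) (nat_lit 2) (nat_lit 3) (nat_lit 1) (nat_lit 7) (nat_lit 32) (nat_lit 110) r7_32 r2_110 (nat_lit 0) (nat_lit 0) (nat_lit 0) (nat_lit 0x20056d4f2) (nat_lit 268435456),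
  Rx.mk (nat_lit 146) (nat_lit 2) (nat_lit 2) (nat_lit 2) (nat_lit 7) (nat_lit 30) (nat_lit 114) r7_30 r2_114 (nat_lit 0) (nat_lit 0) (nat_lit 0) (nat_lit 0x20056d4f2) (nat_lit 268435456),
  Rx.mk (nat_lit 216) (nat_lit 0) (nat_lit 3) (nat_lit 3) (nat_lit 6) (nat_lit 25) (nat_lit 105) r7_25 r2_105 (nat_lit 6143740) (nat_lit 0) (nat_lit 0) (nat_lit 0x203351b34) (nat_lit 271587896),
  Rx.mk (nat_lit 218) (nat_lit 2) (nat_lit 3) (nat_lit 3) (nat_lit 7) (nat_lit 33) (nat_lit 111) r7_33 r2_111 (nat_lit 0) (nat_lit 0) (nat_lit 0) (nat_lit 0x20056d4f2) (nat_lit 268435456),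
  Rx.mk (nat_lit 219) (nat_lit 3) (nat_lit 3) (nat_lit 3) (nat_lit 7) (nat_lit 34) (nat_lit 106) r7_34 r2_106 (nat_lit 0) (nat_lit 0) (nat_lit 0) (nat_lit 0x20056d4f2) (nat_lit 268435456)]
noncomputable def e13_3 : List Rx := [
  Rx.mk (nat_lit 315) (nat_lit 3) (nat_lit 7) (nat_lit 4) (nat_lit 3) (nat_lit 36) (nat_lit 102) r7_36 r3_102 (nat_lit 0) (nat_lit 0) (nat_lit 49366) (nat_lit 0x211ea5928) (nat_lit 250177072),
  Rx.mk (nat_lit 472) (nat_lit 0) (nat_lit 3) (nat_lit 7) (nat_lit 6) (nat_lit 35) (nat_lit 100) r7_35 r3_100 (nat_lit 49366) (nat_lit 0) (nat_lit 0) (nat_lit 0x211ea5928) (nat_lit 250177072),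
  Rx.mk (nat_lit 475) (nat_lit 3) (nat_lit 3) (nat_lit 7) (nat_lit 7) (nat_lit 38) (nat_lit 101) r7_38 r3_101 (nat_lit 0) (nat_lit 0) (nat_lit 0) (nat_lit 0x1f3ce36a8) (nat_lit 281613806),
  Rx.mk (nat_lit 507) (nat_lit 3) (nat_lit 7) (nat_lit 7) (nat_lit 7) (nat_lit 37) (nat_lit 103) r7_37 r3_103 (nat_lit 0) (nat_lit 0) (nat_lit 0) (nat_lit 0x1f3ce36a8) (nat_lit 281613806)]
noncomputable def e13_4 : List Rx := [
  Rx.mk (nat_lit 192) (nat_lit 0) (nat_lit 0) (nat_lit 3) (nat_lit 4) (nat_lit 39) (nat_lit 98) r7_39 r4_98 (nat_lit 2266560) (nat_lit 14706363) (nat_lit 0) (nat_lit 0x17dee144e) (nat_lit 423669329),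
  Rx.mk (nat_lit 194) (nat_lit 2) (nat_lit 0) (nat_lit 3) (nat_lit 5) (nat_lit 42) (nat_lit 104) r7_42 r4_104 (nat_lit 0) (nat_lit 16012508) (nat_lit 0) (nat_lit 0x1fe4a6b9c) (nat_lit 286568564),
  Rx.mk (nat_lit 210) (nat_lit 2) (nat_lit 2) (nat_lit 3) (nat_lit 7) (nat_lit 43) (nat_lit 106) r7_43 r4_106 (nat_lit 0) (nat_lit 0) (nat_lit 0) (nat_lit 0x20056d4f2) (nat_lit 268435456),
  Rx.mk (nat_lit 216) (nat_lit 0) (nat_lit 3) (nat_lit 3) (nat_lit 6) (nat_lit 41) (nat_lit 99) r7_41 r4_99 (nat_lit 3138540) (nat_lit 0) (nat_lit 0) (nat_lit 0x1e48aaf0a) (nat_lit 300903146),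
  Rx.mk (nat_lit 218) (nat_lit 2) (nat_lit 3) (nat_lit 3) (nat_lit 7) (nat_lit 44) (nat_lit 105) r7_44 r4_105 (nat_lit 0) (nat_lit 0) (nat_lit 0) (nat_lit 0x216fc711c) (nat_lit 245117756),
  Rx.mk (nat_lit 315) (nat_lit 3) (nat_lit 7) (nat_lit 4) (nat_lit 3) (nat_lit 45) (nat_lit 102) r7_45 r4_102 (nat_lit 0) (nat_lit 0) (nat_lit 4579434) (nat_lit 0x20687f63a) (nat_lit 266591390),
  Rx.mk (nat_lit 472) (nat_lit 0) (nat_lit 3) (nat_lit 7) (nat_lit 6) (nat_lit 40) (nat_lit 100) r7_40 r4_100 (nat_lit 5139472) (nat_lit 0) (nat_lit 0) (nat_lit 0x2059555ba) (nat_lit 268128028),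
  Rx.mk (nat_lit 475) (nat_lit 3) (nat_lit 3) (nat_lit 7) (nat_lit 7) (nat_lit 47) (nat_lit 101) r7_47 r4_101 (nat_lit 0) (nat_lit 0) (nat_lit 0) (nat_lit 0x20056d4f2) (nat_lit 268435456),
  Rx.mk (nat_lit 507) (nat_lit 3) (nat_lit 7) (nat_lit 7) (nat_lit 7) (nat_lit 46) (nat_lit 103) r7_46 r4_103 (nat_lit 0) (nat_lit 0) (nat_lit 0) (nat_lit 0x20056d4f2) (nat_lit 268435456)]
noncomputable def e13_5 : List Rx := [
  Rx.mk (nat_lit 283) (nat_lit 3) (nat_lit 3) (nat_lit 4) (nat_lit 3) (nat_lit 50) (nat_lit 103) r7_50 r5_103 (nat_lit 0) (nat_lit 0) (nat_lit 4856279) (nat_lit 0x1bc73bce6) (nat_lit 345186885),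
  Rx.mk (nat_lit 315) (nat_lit 3) (nat_lit 7) (nat_lit 4) (nat_lit 3) (nat_lit 49) (nat_lit 105) r7_49 r5_105 (nat_lit 0) (nat_lit 0) (nat_lit 2350265) (nat_lit 0x1faee4d92) (nat_lit 276387071),
  Rx.mk (nat_lit 472) (nat_lit 0) (nat_lit 3) (nat_lit 7) (nat_lit 6) (nat_lit 48) (nat_lit 102) r7_48 r5_102 (nat_lit 2328975) (nat_lit 0) (nat_lit 0) (nat_lit 0x20c4f3c18) (nat_lit 258373331),
  Rx.mk (nat_lit 475) (nat_lit 3) (nat_lit 3) (nat_lit 7) (nat_lit 7) (nat_lit 51) (nat_lit 104) r7_51 r5_104 (nat_lit 0) (nat_lit 0) (nat_lit 0) (nat_lit 0x1fc6270f4) (nat_lit 272569156)]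
noncomputable def e13_6 : List Rx := [
  Rx.mk (nat_lit 320) (nat_lit 0) (nat_lit 0) (nat_lit 5) (nat_lit 4) (nat_lit 52) (nat_lit 167) r7_52 r3_167 (nat_lit 20207) (nat_lit 16392) (nat_lit 0) (nat_lit 0x1aff2b4f4) (nat_lit 353479305),
  Rx.mk (nat_lit 321) (nat_lit 1) (nat_lit 0) (nat_lit 5) (nat_lit 5) (nat_lit 54) (nat_lit 168) r7_54 r3_168 (nat_lit 0) (nat_lit 1511252) (nat_lit 0) (nat_lit 0x1d22f5266) (nat_lit 318703058),
  Rx.mk (nat_lit 344) (nat_lit 0) (nat_lit 3) (nat_lit 5) (nat_lit 6) (nat_lit 53) (nat_lit 169) r7_53 r3_169 (nat_lit 47845) (nat_lit 0) (nat_lit 0) (nat_lit 0x201156a48) (nat_lit 267395251),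
  Rx.mk (nat_lit 345) (nat_lit 1) (nat_lit 3) (nat_lit 5) (nat_lit 7) (nat_lit 55) (nat_lit 170) r7_55 r3_170 (nat_lit 0) (nat_lit 0) (nat_lit 0) (nat_lit 0x21af7b880) (nat_lit 241021756)]
noncomputable def e13_7 : List Rx := [
  Rx.mk (nat_lit 64) (nat_lit 0) (nat_lit 0) (nat_lit 1) (nat_lit 4) (nat_lit 57) (nat_lit 178) r7_57 r0_178 (nat_lit 254935) (nat_lit 716691) (nat_lit 0) (nat_lit 0x19bbb53e2) (nat_lit 375922732),
  Rx.mk (nat_lit 65) (nat_lit 1) (nat_lit 0) (nat_lit 1) (nat_lit 5) (nat_lit 60) (nat_lit 180) r7_60 r0_180 (nat_lit 0) (nat_lit 8466862) (nat_lit 0) (nat_lit 0x1df10845a) (nat_lit 312056868),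
  Rx.mk (nat_lit 66) (nat_lit 2) (nat_lit 0) (nat_lit 1) (nat_lit 5) (nat_lit 62) (nat_lit 181) r7_62 r0_181 (nat_lit 0) (nat_lit 57895491) (nat_lit 0) (nat_lit 0x20dbef6b0) (nat_lit 312330647),
  Rx.mk (nat_lit 88) (nat_lit 0) (nat_lit 3) (nat_lit 1) (nat_lit 6) (nat_lit 58) (nat_lit 182) r7_58 r0_182 (nat_lit 2189607) (nat_lit 0) (nat_lit 0) (nat_lit 0x1fe25deee) (nat_lit 272854513),
  Rx.mk (nat_lit 89) (nat_lit 1) (nat_lit 3) (nat_lit 1) (nat_lit 7) (nat_lit 61) (nat_lit 183) r7_61 r0_183 (nat_lit 0) (nat_lit 0) (nat_lit 0) (nat_lit 0x2069e1e9c) (nat_lit 261918006),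
  Rx.mk (nat_lit 90) (nat_lit 2) (nat_lit 3) (nat_lit 1) (nat_lit 7) (nat_lit 63) (nat_lit 184) r7_63 r0_184 (nat_lit 0) (nat_lit 0) (nat_lit 0) (nat_lit 0x2120dae14) (nat_lit 250172056),
  Rx.mk (nat_lit 320) (nat_lit 0) (nat_lit 0) (nat_lit 5) (nat_lit 4) (nat_lit 56) (nat_lit 177) r7_56 r0_177 (nat_lit 236105) (nat_lit 3352025) (nat_lit 0) (nat_lit 0x15ef65efc) (nat_lit 443065536),
  Rx.mk (nat_lit 321) (nat_lit 1) (nat_lit 0) (nat_lit 5) (nat_lit 5) (nat_lit 59) (nat_lit 179) r7_59 r0_179 (nat_lit 0) (nat_lit 2435671) (nat_lit 0) (nat_lit 0x1813fca48) (nat_lit 405583127)]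
noncomputable def e13_8 : List Rx := [
  Rx.mk (nat_lit 64) (nat_lit 0) (nat_lit 0) (nat_lit 1) (nat_lit 4) (nat_lit 64) (nat_lit 192) r7_64 r1_192 (nat_lit 4648863) (nat_lit 10430206) (nat_lit 0) (nat_lit 0x1ba0815a6) (nat_lit 357965125),
  Rx.mk (nat_lit 65) (nat_lit 1) (nat_lit 0) (nat_lit 1) (nat_lit 5) (nat_lit 66) (nat_lit 193) r7_66 r1_193 (nat_lit 0) (nat_lit 10636325) (nat_lit 0) (nat_lit 0x1f952452e) (nat_lit 286423531),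
  Rx.mk (nat_lit 66) (nat_lit 2) (nat_lit 0) (nat_lit 1) (nat_lit 5) (nat_lit 68) (nat_lit 194) r7_68 r1_194 (nat_lit 0) (nat_lit 77834362) (nat_lit 0) (nat_lit 0x23c840ddc) (nat_lit 284519518),
  Rx.mk (nat_lit 82) (nat_lit 2) (nat_lit 2) (nat_lit 1) (nat_lit 7) (nat_lit 69) (nat_lit 198) r7_69 r1_198 (nat_lit 0) (nat_lit 0) (nat_lit 0) (nat_lit 0x2186519be) (nat_lit 243665906),
  Rx.mk (nat_lit 88) (nat_lit 0) (nat_lit 3) (nat_lit 1) (nat_lit 6) (nat_lit 65) (nat_lit 195) r7_65 r1_195 (nat_lit 4369240) (nat_lit 0) (nat_lit 0) (nat_lit 0x20a61f4ea) (nat_lit 262415396),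
  Rx.mk (nat_lit 89) (nat_lit 1) (nat_lit 3) (nat_lit 1) (nat_lit 7) (nat_lit 67) (nat_lit 196) r7_67 r1_196 (nat_lit 0) (nat_lit 0) (nat_lit 0) (nat_lit 0x203d18672) (nat_lit 264818306),
  Rx.mk (nat_lit 90) (nat_lit 2) (nat_lit 3) (nat_lit 1) (nat_lit 7) (nat_lit 70) (nat_lit 197) r7_70 r1_197 (nat_lit 0) (nat_lit 0) (nat_lit 0) (nat_lit 0x203d18672) (nat_lit 264818306)]
noncomputable def e13_9 : List Rx := [
  Rx.mk (nat_lit 88) (nat_lit 0) (nat_lit 3) (nat_lit 1) (nat_lit 6) (nat_lit 73) (nat_lit 170) r7_73 r4_170 (nat_lit 4626214) (nat_lit 0) (nat_lit 0) (nat_lit 0x207ca1424) (nat_lit 265335720),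
  Rx.mk (nat_lit 89) (nat_lit 1) (nat_lit 3) (nat_lit 1) (nat_lit 7) (nat_lit 76) (nat_lit 172) r7_76 r4_172 (nat_lit 0) (nat_lit 0) (nat_lit 0) (nat_lit 0x206f820c2) (nat_lit 261563506),
  Rx.mk (nat_lit 90) (nat_lit 2) (nat_lit 3) (nat_lit 1) (nat_lit 7) (nat_lit 77) (nat_lit 173) r7_77 r4_173 (nat_lit 0) (nat_lit 0) (nat_lit 0) (nat_lit 0x206f820c2) (nat_lit 261563506),
  Rx.mk (nat_lit 320) (nat_lit 0) (nat_lit 0) (nat_lit 5) (nat_lit 4) (nat_lit 71) (nat_lit 167) r7_71 r4_167 (nat_lit 3498461) (nat_lit 9573033) (nat_lit 0) (nat_lit 0x17c42fa88) (nat_lit 421543700),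
  Rx.mk (nat_lit 321) (nat_lit 1) (nat_lit 0) (nat_lit 5) (nat_lit 5) (nat_lit 74) (nat_lit 168) r7_74 r4_168 (nat_lit 0) (nat_lit 8007799) (nat_lit 0) (nat_lit 0x1fe9cda3a) (nat_lit 278231055),
  Rx.mk (nat_lit 344) (nat_lit 0) (nat_lit 3) (nat_lit 5) (nat_lit 6) (nat_lit 72) (nat_lit 169) r7_72 r4_169 (nat_lit 2514868) (nat_lit 0) (nat_lit 0) (nat_lit 0x1db219e9c) (nat_lit 310255074),
  Rx.mk (nat_lit 345) (nat_lit 1) (nat_lit 3) (nat_lit 5) (nat_lit 7) (nat_lit 75) (nat_lit 171) r7_75 r4_171 (nat_lit 0) (nat_lit 0) (nat_lit 0) (nat_lit 0x21766457e) (nat_lit 244694406)]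
noncomputable def e13_10 : List Rx := [
  Rx.mk (nat_lit 280) (nat_lit 0) (nat_lit 3) (nat_lit 4) (nat_lit 2) (nat_lit 78) (nat_lit 106) r7_78 r6_106 (nat_lit 293441) (nat_lit 0) (nat_lit 285501) (nat_lit 0x1bd42f27c) (nat_lit 339938198),
  Rx.mk (nat_lit 281) (nat_lit 1) (nat_lit 3) (nat_lit 4) (nat_lit 3) (nat_lit 81) (nat_lit 109) r7_81 r6_109 (nat_lit 0) (nat_lit 0) (nat_lit 3269233) (nat_lit 0x20b93e59e) (nat_lit 260068789),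
  Rx.mk (nat_lit 283) (nat_lit 3) (nat_lit 3) (nat_lit 4) (nat_lit 3) (nat_lit 86) (nat_lit 112) r7_86 r6_112 (nat_lit 0) (nat_lit 0) (nat_lit 7768452) (nat_lit 0x1f2326f76) (nat_lit 291082808),
  Rx.mk (nat_lit 315) (nat_lit 3) (nat_lit 7) (nat_lit 4) (nat_lit 3) (nat_lit 84) (nat_lit 114) r7_84 r6_114 (nat_lit 0) (nat_lit 0) (nat_lit 2249514) (nat_lit 0x1fa7a982a) (nat_lit 276775820),
  Rx.mk (nat_lit 344) (nat_lit 0) (nat_lit 3) (nat_lit 5) (nat_lit 6) (nat_lit 79) (nat_lit 107) r7_79 r6_107 (nat_lit 4380705) (nat_lit 0) (nat_lit 0) (nat_lit 0x20233b9a2) (nat_lit 270840161),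
  Rx.mk (nat_lit 345) (nat_lit 1) (nat_lit 3) (nat_lit 5) (nat_lit 7) (nat_lit 82) (nat_lit 110) r7_82 r6_110 (nat_lit 0) (nat_lit 0) (nat_lit 0) (nat_lit 0x20e132730) (nat_lit 254255056),
  Rx.mk (nat_lit 347) (nat_lit 3) (nat_lit 3) (nat_lit 5) (nat_lit 7) (nat_lit 87) (nat_lit 113) r7_87 r6_113 (nat_lit 0) (nat_lit 0) (nat_lit 0) (nat_lit 0x20056d4f2) (nat_lit 268435456),
  Rx.mk (nat_lit 379) (nat_lit 3) (nat_lit 7) (nat_lit 5) (nat_lit 7) (nat_lit 85) (nat_lit 115) r7_85 r6_115 (nat_lit 0) (nat_lit 0) (nat_lit 0) (nat_lit 0x218b34328) (nat_lit 243360356),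
  Rx.mk (nat_lit 472) (nat_lit 0) (nat_lit 3) (nat_lit 7) (nat_lit 6) (nat_lit 80) (nat_lit 108) r7_80 r6_108 (nat_lit 2828629) (nat_lit 0) (nat_lit 0) (nat_lit 0x200296e72) (nat_lit 271409985),
  Rx.mk (nat_lit 473) (nat_lit 1) (nat_lit 3) (nat_lit 7) (nat_lit 7) (nat_lit 83) (nat_lit 111) r7_83 r6_111 (nat_lit 0) (nat_lit 0) (nat_lit 0) (nat_lit 0x21d88da66) (nat_lit 238408656)]
noncomputable def e13_11 : List Rx := [
  Rx.mk (nat_lit 320) (nat_lit 0) (nat_lit 0) (nat_lit 5) (nat_lit 4) (nat_lit 88) (nat_lit 184) r7_88 r5_184 (nat_lit 2663217) (nat_lit 9588172) (nat_lit 0) (nat_lit 0x1bf102cbe) (nat_lit 349792345),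
  Rx.mk (nat_lit 321) (nat_lit 1) (nat_lit 0) (nat_lit 5) (nat_lit 5) (nat_lit 90) (nat_lit 185) r7_90 r5_185 (nat_lit 0) (nat_lit 9484367) (nat_lit 0) (nat_lit 0x20056d4f2) (nat_lit 277919823),
  Rx.mk (nat_lit 344) (nat_lit 0) (nat_lit 3) (nat_lit 5) (nat_lit 6) (nat_lit 89) (nat_lit 186) r7_89 r5_186 (nat_lit 4398806) (nat_lit 0) (nat_lit 0) (nat_lit 0x200652368) (nat_lit 272736762),
  Rx.mk (nat_lit 345) (nat_lit 1) (nat_lit 3) (nat_lit 5) (nat_lit 7) (nat_lit 91) (nat_lit 187) r7_91 r5_187 (nat_lit 0) (nat_lit 0) (nat_lit 0) (nat_lit 0x20b6ad88e) (nat_lit 256983056),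
  Rx.mk (nat_lit 347) (nat_lit 3) (nat_lit 3) (nat_lit 5) (nat_lit 7) (nat_lit 92) (nat_lit 188) r7_92 r5_188 (nat_lit 0) (nat_lit 0) (nat_lit 0) (nat_lit 0x1f764566c) (nat_lit 277826656)]
noncomputable def e13_12 : List Rx := [
  Rx.mk (nat_lit 295) (nat_lit 7) (nat_lit 4) (nat_lit 4) (nat_lit 1) (nat_lit 96) (nat_lit 100) r7_96 r0_100 (nat_lit 0) (nat_lit 10175790) (nat_lit 4635726) (nat_lit 0x1840136ea) (nat_lit 415072972),
  Rx.mk (nat_lit 319) (nat_lit 7) (nat_lit 7) (nat_lit 4) (nat_lit 3) (nat_lit 99) (nat_lit 101) r7_99 r0_101 (nat_lit 0) (nat_lit 0) (nat_lit 4240931) (nat_lit 0x1bf1985a2) (nat_lit 341762337),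
  Rx.mk (nat_lit 420) (nat_lit 4) (nat_lit 4) (nat_lit 6) (nat_lit 4) (nat_lit 93) (nat_lit 105) r7_93 r0_105 (nat_lit 121405) (nat_lit 991673) (nat_lit 0) (nat_lit 0x190ff0958) (nat_lit 387448234),
  Rx.mk (nat_lit 423) (nat_lit 7) (nat_lit 4) (nat_lit 6) (nat_lit 5) (nat_lit 97) (nat_lit 106) r7_97 r0_106 (nat_lit 0) (nat_lit 27844967) (nat_lit 0) (nat_lit 0x1fd250a9c) (nat_lit 299584973),
  Rx.mk (nat_lit 436) (nat_lit 4) (nat_lit 6) (nat_lit 6) (nat_lit 6) (nat_lit 94) (nat_lit 108) r7_94 r0_108 (nat_lit 4501915) (nat_lit 0) (nat_lit 0) (nat_lit 0x1cfdf132a) (nat_lit 324222321),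
  Rx.mk (nat_lit 438) (nat_lit 6) (nat_lit 6) (nat_lit 6) (nat_lit 7) (nat_lit 95) (nat_lit 110) r7_95 r0_110 (nat_lit 0) (nat_lit 0) (nat_lit 0) (nat_lit 0x1fe8175a6) (nat_lit 270347556),
  Rx.mk (nat_lit 439) (nat_lit 7) (nat_lit 6) (nat_lit 6) (nat_lit 7) (nat_lit 98) (nat_lit 109) r7_98 r0_109 (nat_lit 0) (nat_lit 0) (nat_lit 0) (nat_lit 0x20249e1b4) (nat_lit 266405506),
  Rx.mk (nat_lit 447) (nat_lit 7) (nat_lit 7) (nat_lit 6) (nat_lit 7) (nat_lit 100) (nat_lit 107) r7_100 r0_107 (nat_lit 0) (nat_lit 0) (nat_lit 0) (nat_lit 0x1fe528a70) (nat_lit 270533656),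
  Rx.mk (nat_lit 475) (nat_lit 3) (nat_lit 3) (nat_lit 7) (nat_lit 7) (nat_lit 103) (nat_lit 104) r7_103 r0_104 (nat_lit 0) (nat_lit 0) (nat_lit 0) (nat_lit 0x20055e1a0) (nat_lit 268437306),
  Rx.mk (nat_lit 507) (nat_lit 3) (nat_lit 7) (nat_lit 7) (nat_lit 7) (nat_lit 102) (nat_lit 103) r7_102 r0_103 (nat_lit 0) (nat_lit 0) (nat_lit 0) (nat_lit 0x20056d4f2) (nat_lit 268435456),
  Rx.mk (nat_lit 511) (nat_lit 7) (nat_lit 7) (nat_lit 7) (nat_lit 7) (nat_lit 101) (nat_lit 102) r7_101 r0_102 (nat_lit 0) (nat_lit 0) (nat_lit 0) (nat_lit 0x1efe441c2) (nat_lit 285762006)]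
noncomputable def e13_13 : List Rx := [
  Rx.mk (nat_lit 2) (nat_lit 2) (nat_lit 0) (nat_lit 0) (nat_lit 1) (nat_lit 117) (nat_lit 109) r7_117 r7_109 (nat_lit 0) (nat_lit 152835) (nat_lit 112250) (nat_lit 0x1948ab20c) (nat_lit 382839841),
  Rx.mk (nat_lit 18) (nat_lit 2) (nat_lit 2) (nat_lit 0) (nat_lit 3) (nat_lit 119) (nat_lit 112) r7_119 r7_112 (nat_lit 0) (nat_lit 0) (nat_lit 1225740) (nat_lit 0x1dff9a540) (nat_lit 303823346),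
  Rx.mk (nat_lit 146) (nat_lit 2) (nat_lit 2) (nat_lit 2) (nat_lit 7) (nat_lit 120) (nat_lit 114) r7_120 r7_114 (nat_lit 0) (nat_lit 0) (nat_lit 0) (nat_lit 0x20056d4f2) (nat_lit 268435456),
  Rx.mk (nat_lit 150) (nat_lit 6) (nat_lit 2) (nat_lit 2) (nat_lit 7) (nat_lit 108) (nat_lit 123) r7_108 r7_123 (nat_lit 0) (nat_lit 0) (nat_lit 0) (nat_lit 0x20056d4f2) (nat_lit 268435456),
  Rx.mk (nat_lit 182) (nat_lit 6) (nat_lit 6) (nat_lit 2) (nat_lit 7) (nat_lit 107) (nat_lit 124) r7_107 r7_124 (nat_lit 0) (nat_lit 0) (nat_lit 0) (nat_lit 0x20056d4f2) (nat_lit 268435456),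
  Rx.mk (nat_lit 192) (nat_lit 0) (nat_lit 0) (nat_lit 3) (nat_lit 4) (nat_lit 115) (nat_lit 104) r7_115 r7_104 (nat_lit 112250) (nat_lit 152835) (nat_lit 0) (nat_lit 0x1948ab20c) (nat_lit 382839841),
  Rx.mk (nat_lit 194) (nat_lit 2) (nat_lit 0) (nat_lit 3) (nat_lit 5) (nat_lit 118) (nat_lit 110) r7_118 r7_110 (nat_lit 0) (nat_lit 3174667) (nat_lit 0) (nat_lit 0x1dc8a5c24) (nat_lit 309432373),
  Rx.mk (nat_lit 210) (nat_lit 2) (nat_lit 2) (nat_lit 3) (nat_lit 7) (nat_lit 121) (nat_lit 113) r7_121 r7_113 (nat_lit 0) (nat_lit 0) (nat_lit 0) (nat_lit 0x209c5efb4) (nat_lit 258674606),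
  Rx.mk (nat_lit 216) (nat_lit 0) (nat_lit 3) (nat_lit 3) (nat_lit 6) (nat_lit 116) (nat_lit 105) r7_116 r7_105 (nat_lit 1225740) (nat_lit 0) (nat_lit 0) (nat_lit 0x1dff9a540) (nat_lit 303823346),
  Rx.mk (nat_lit 218) (nat_lit 2) (nat_lit 3) (nat_lit 3) (nat_lit 7) (nat_lit 122) (nat_lit 111) r7_122 r7_111 (nat_lit 0) (nat_lit 0) (nat_lit 0) (nat_lit 0x209c5efb4) (nat_lit 258674606),
  Rx.mk (nat_lit 219) (nat_lit 3) (nat_lit 3) (nat_lit 3) (nat_lit 7) (nat_lit 125) (nat_lit 106) r7_125 r7_106 (nat_lit 0) (nat_lit 0) (nat_lit 0) (nat_lit 0x20056d4f2) (nat_lit 268435456),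
  Rx.mk (nat_lit 295) (nat_lit 7) (nat_lit 4) (nat_lit 4) (nat_lit 1) (nat_lit 109) (nat_lit 117) r7_109 r7_117 (nat_lit 0) (nat_lit 152835) (nat_lit 112250) (nat_lit 0x1948ab20c) (nat_lit 382839841),
  Rx.mk (nat_lit 319) (nat_lit 7) (nat_lit 7) (nat_lit 4) (nat_lit 3) (nat_lit 112) (nat_lit 119) r7_112 r7_119 (nat_lit 0) (nat_lit 0) (nat_lit 1225740) (nat_lit 0x1dff9a540) (nat_lit 303823346),
  Rx.mk (nat_lit 420) (nat_lit 4) (nat_lit 4) (nat_lit 6) (nat_lit 4) (nat_lit 104) (nat_lit 115) r7_104 r7_115 (nat_lit 112250) (nat_lit 152835) (nat_lit 0) (nat_lit 0x1948ab20c) (nat_lit 382839841),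
  Rx.mk (nat_lit 423) (nat_lit 7) (nat_lit 4) (nat_lit 6) (nat_lit 5) (nat_lit 110) (nat_lit 118) r7_110 r7_118 (nat_lit 0) (nat_lit 3174667) (nat_lit 0) (nat_lit 0x1dc8a5c24) (nat_lit 309432373),
  Rx.mk (nat_lit 436) (nat_lit 4) (nat_lit 6) (nat_lit 6) (nat_lit 6) (nat_lit 105) (nat_lit 116) r7_105 r7_116 (nat_lit 1225740) (nat_lit 0) (nat_lit 0) (nat_lit 0x1dff9a540) (nat_lit 303823346),
  Rx.mk (nat_lit 438) (nat_lit 6) (nat_lit 6) (nat_lit 6) (nat_lit 7) (nat_lit 106) (nat_lit 125) r7_106 r7_125 (nat_lit 0) (nat_lit 0) (nat_lit 0) (nat_lit 0x20056d4f2) (nat_lit 268435456),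
  Rx.mk (nat_lit 439) (nat_lit 7) (nat_lit 6) (nat_lit 6) (nat_lit 7) (nat_lit 111) (nat_lit 122) r7_111 r7_122 (nat_lit 0) (nat_lit 0) (nat_lit 0) (nat_lit 0x209c5efb4) (nat_lit 258674606),
  Rx.mk (nat_lit 447) (nat_lit 7) (nat_lit 7) (nat_lit 6) (nat_lit 7) (nat_lit 113) (nat_lit 121) r7_113 r7_121 (nat_lit 0) (nat_lit 0) (nat_lit 0) (nat_lit 0x209c5efb4) (nat_lit 258674606),
  Rx.mk (nat_lit 475) (nat_lit 3) (nat_lit 3) (nat_lit 7) (nat_lit 7) (nat_lit 124) (nat_lit 107) r7_124 r7_107 (nat_lit 0) (nat_lit 0) (nat_lit 0) (nat_lit 0x20056d4f2) (nat_lit 268435456),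
  Rx.mk (nat_lit 507) (nat_lit 3) (nat_lit 7) (nat_lit 7) (nat_lit 7) (nat_lit 123) (nat_lit 108) r7_123 r7_108 (nat_lit 0) (nat_lit 0) (nat_lit 0) (nat_lit 0x20056d4f2) (nat_lit 268435456),
  Rx.mk (nat_lit 511) (nat_lit 7) (nat_lit 7) (nat_lit 7) (nat_lit 7) (nat_lit 114) (nat_lit 120) r7_114 r7_120 (nat_lit 0) (nat_lit 0) (nat_lit 0) (nat_lit 0x20056d4f2) (nat_lit 268435456)]
noncomputable def e13_14 : List Rx := [
  Rx.mk (nat_lit 292) (nat_lit 4) (nat_lit 4) (nat_lit 4) (nat_lit 0) (nat_lit 126) (nat_lit 107) r7_126 r1_107 (nat_lit 745275) (nat_lit 4920335) (nat_lit 1141544) (nat_lit 0x109a327e6) (nat_lit 536953810),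
  Rx.mk (nat_lit 295) (nat_lit 7) (nat_lit 4) (nat_lit 4) (nat_lit 1) (nat_lit 130) (nat_lit 108) r7_130 r1_108 (nat_lit 0) (nat_lit 34669275) (nat_lit 14689334) (nat_lit 0x1dc530cc4) (nat_lit 355866165),
  Rx.mk (nat_lit 319) (nat_lit 7) (nat_lit 7) (nat_lit 4) (nat_lit 3) (nat_lit 133) (nat_lit 109) r7_133 r1_109 (nat_lit 0) (nat_lit 0) (nat_lit 8870652) (nat_lit 0x1fc54f38e) (nat_lit 281480458),
  Rx.mk (nat_lit 420) (nat_lit 4) (nat_lit 4) (nat_lit 6) (nat_lit 4) (nat_lit 127) (nat_lit 111) r7_127 r1_111 (nat_lit 648751) (nat_lit 1363821) (nat_lit 0) (nat_lit 0x196197c66) (nat_lit 383004978),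
  Rx.mk (nat_lit 423) (nat_lit 7) (nat_lit 4) (nat_lit 6) (nat_lit 5) (nat_lit 131) (nat_lit 112) r7_131 r1_112 (nat_lit 0) (nat_lit 11532138) (nat_lit 0) (nat_lit 0x200c99f0a) (nat_lit 279487844),
  Rx.mk (nat_lit 436) (nat_lit 4) (nat_lit 6) (nat_lit 6) (nat_lit 6) (nat_lit 128) (nat_lit 114) r7_128 r1_114 (nat_lit 4901484) (nat_lit 0) (nat_lit 0) (nat_lit 0x1e15b6d9c) (nat_lit 306066590),
  Rx.mk (nat_lit 438) (nat_lit 6) (nat_lit 6) (nat_lit 6) (nat_lit 7) (nat_lit 129) (nat_lit 116) r7_129 r1_116 (nat_lit 0) (nat_lit 0) (nat_lit 0) (nat_lit 0x20056d4f2) (nat_lit 268435456),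
  Rx.mk (nat_lit 439) (nat_lit 7) (nat_lit 6) (nat_lit 6) (nat_lit 7) (nat_lit 132) (nat_lit 115) r7_132 r1_115 (nat_lit 0) (nat_lit 0) (nat_lit 0) (nat_lit 0x20056d4f2) (nat_lit 268435456),
  Rx.mk (nat_lit 447) (nat_lit 7) (nat_lit 7) (nat_lit 6) (nat_lit 7) (nat_lit 134) (nat_lit 113) r7_134 r1_113 (nat_lit 0) (nat_lit 0) (nat_lit 0) (nat_lit 0x204560096) (nat_lit 264283306),
  Rx.mk (nat_lit 511) (nat_lit 7) (nat_lit 7) (nat_lit 7) (nat_lit 7) (nat_lit 135) (nat_lit 110) r7_135 r1_110 (nat_lit 0) (nat_lit 0) (nat_lit 0) (nat_lit 0x20056d4f2) (nat_lit 268435456)]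
noncomputable def e13_15 : List Rx := [
  Rx.mk (nat_lit 150) (nat_lit 6) (nat_lit 2) (nat_lit 2) (nat_lit 7) (nat_lit 141) (nat_lit 87) r7_141 r8_87 (nat_lit 0) (nat_lit 0) (nat_lit 0) (nat_lit 0x20056d4f2) (nat_lit 268435456),
  Rx.mk (nat_lit 182) (nat_lit 6) (nat_lit 6) (nat_lit 2) (nat_lit 7) (nat_lit 140) (nat_lit 88) r7_140 r8_88 (nat_lit 0) (nat_lit 0) (nat_lit 0) (nat_lit 0x20056d4f2) (nat_lit 268435456),
  Rx.mk (nat_lit 292) (nat_lit 4) (nat_lit 4) (nat_lit 4) (nat_lit 0) (nat_lit 136) (nat_lit 78) r7_136 r8_78 (nat_lit 2733102) (nat_lit 7198289) (nat_lit 2425005) (nat_lit 0xe238fa28) (nat_lit 584393802),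
  Rx.mk (nat_lit 295) (nat_lit 7) (nat_lit 4) (nat_lit 4) (nat_lit 1) (nat_lit 142) (nat_lit 81) r7_142 r8_81 (nat_lit 0) (nat_lit 2929309) (nat_lit 3122194) (nat_lit 0x1a0760b20) (nat_lit 376091909),
  Rx.mk (nat_lit 319) (nat_lit 7) (nat_lit 7) (nat_lit 4) (nat_lit 3) (nat_lit 145) (nat_lit 83) r7_145 r8_83 (nat_lit 0) (nat_lit 0) (nat_lit 10791901) (nat_lit 0x1f986bbb0) (nat_lit 286357257),
  Rx.mk (nat_lit 420) (nat_lit 4) (nat_lit 4) (nat_lit 6) (nat_lit 4) (nat_lit 137) (nat_lit 79) r7_137 r8_79 (nat_lit 7126275) (nat_lit 9749284) (nat_lit 0) (nat_lit 0x19f2f17ca) (nat_lit 388291215),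
  Rx.mk (nat_lit 423) (nat_lit 7) (nat_lit 4) (nat_lit 6) (nat_lit 5) (nat_lit 143) (nat_lit 82) r7_143 r8_82 (nat_lit 0) (nat_lit 9484367) (nat_lit 0) (nat_lit 0x20056d4f2) (nat_lit 277919823),
  Rx.mk (nat_lit 436) (nat_lit 4) (nat_lit 6) (nat_lit 6) (nat_lit 6) (nat_lit 138) (nat_lit 80) r7_138 r8_80 (nat_lit 4537940) (nat_lit 0) (nat_lit 0) (nat_lit 0x1fda0b7c8) (nat_lit 275782896),
  Rx.mk (nat_lit 438) (nat_lit 6) (nat_lit 6) (nat_lit 6) (nat_lit 7) (nat_lit 139) (nat_lit 89) r7_139 r8_89 (nat_lit 0) (nat_lit 0) (nat_lit 0) (nat_lit 0x20056d4f2) (nat_lit 268435456),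
  Rx.mk (nat_lit 439) (nat_lit 7) (nat_lit 6) (nat_lit 6) (nat_lit 7) (nat_lit 144) (nat_lit 86) r7_144 r8_86 (nat_lit 0) (nat_lit 0) (nat_lit 0) (nat_lit 0x20056d4f2) (nat_lit 268435456),
  Rx.mk (nat_lit 447) (nat_lit 7) (nat_lit 7) (nat_lit 6) (nat_lit 7) (nat_lit 146) (nat_lit 85) r7_146 r8_85 (nat_lit 0) (nat_lit 0) (nat_lit 0) (nat_lit 0x20056d4f2) (nat_lit 268435456),
  Rx.mk (nat_lit 511) (nat_lit 7) (nat_lit 7) (nat_lit 7) (nat_lit 7) (nat_lit 147) (nat_lit 84) r7_147 r8_84 (nat_lit 0) (nat_lit 0) (nat_lit 0) (nat_lit 0x20056d4f2) (nat_lit 268435456)]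
noncomputable def e13_16 : List Rx := [
  Rx.mk (nat_lit 0) (nat_lit 0) (nat_lit 0) (nat_lit 0) (nat_lit 0) (nat_lit 150) (nat_lit 78) r7_150 r8_78 (nat_lit 2425005) (nat_lit 7198289) (nat_lit 2733102) (nat_lit 0xe238fa28) (nat_lit 584393802),
  Rx.mk (nat_lit 2) (nat_lit 2) (nat_lit 0) (nat_lit 0) (nat_lit 1) (nat_lit 153) (nat_lit 79) r7_153 r8_79 (nat_lit 0) (nat_lit 9749284) (nat_lit 7126275) (nat_lit 0x19f2f17ca) (nat_lit 388291215),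
  Rx.mk (nat_lit 18) (nat_lit 2) (nat_lit 2) (nat_lit 0) (nat_lit 3) (nat_lit 155) (nat_lit 80) r7_155 r8_80 (nat_lit 0) (nat_lit 0) (nat_lit 4537940) (nat_lit 0x1fda0b7c8) (nat_lit 275782896),
  Rx.mk (nat_lit 146) (nat_lit 2) (nat_lit 2) (nat_lit 2) (nat_lit 7) (nat_lit 156) (nat_lit 89) r7_156 r8_89 (nat_lit 0) (nat_lit 0) (nat_lit 0) (nat_lit 0x20056d4f2) (nat_lit 268435456),
  Rx.mk (nat_lit 150) (nat_lit 6) (nat_lit 2) (nat_lit 2) (nat_lit 7) (nat_lit 149) (nat_lit 88) r7_149 r8_88 (nat_lit 0) (nat_lit 0) (nat_lit 0) (nat_lit 0x20056d4f2) (nat_lit 268435456),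
  Rx.mk (nat_lit 182) (nat_lit 6) (nat_lit 6) (nat_lit 2) (nat_lit 7) (nat_lit 148) (nat_lit 87) r7_148 r8_87 (nat_lit 0) (nat_lit 0) (nat_lit 0) (nat_lit 0x20056d4f2) (nat_lit 268435456),
  Rx.mk (nat_lit 192) (nat_lit 0) (nat_lit 0) (nat_lit 3) (nat_lit 4) (nat_lit 151) (nat_lit 81) r7_151 r8_81 (nat_lit 3122194) (nat_lit 2929309) (nat_lit 0) (nat_lit 0x1a0760b20) (nat_lit 376091909),
  Rx.mk (nat_lit 194) (nat_lit 2) (nat_lit 0) (nat_lit 3) (nat_lit 5) (nat_lit 154) (nat_lit 82) r7_154 r8_82 (nat_lit 0) (nat_lit 9484367) (nat_lit 0) (nat_lit 0x20056d4f2) (nat_lit 277919823),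
  Rx.mk (nat_lit 210) (nat_lit 2) (nat_lit 2) (nat_lit 3) (nat_lit 7) (nat_lit 157) (nat_lit 86) r7_157 r8_86 (nat_lit 0) (nat_lit 0) (nat_lit 0) (nat_lit 0x20056d4f2) (nat_lit 268435456),
  Rx.mk (nat_lit 216) (nat_lit 0) (nat_lit 3) (nat_lit 3) (nat_lit 6) (nat_lit 152) (nat_lit 83) r7_152 r8_83 (nat_lit 10791901) (nat_lit 0) (nat_lit 0) (nat_lit 0x1f986bbb0) (nat_lit 286357257),
  Rx.mk (nat_lit 218) (nat_lit 2) (nat_lit 3) (nat_lit 3) (nat_lit 7) (nat_lit 158) (nat_lit 85) r7_158 r8_85 (nat_lit 0) (nat_lit 0) (nat_lit 0) (nat_lit 0x20056d4f2) (nat_lit 268435456),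
  Rx.mk (nat_lit 219) (nat_lit 3) (nat_lit 3) (nat_lit 3) (nat_lit 7) (nat_lit 159) (nat_lit 84) r7_159 r8_84 (nat_lit 0) (nat_lit 0) (nat_lit 0) (nat_lit 0x20056d4f2) (nat_lit 268435456)]
noncomputable def e13_17 : List Rx := [
  Rx.mk (nat_lit 0) (nat_lit 0) (nat_lit 0) (nat_lit 0) (nat_lit 0) (nat_lit 161) (nat_lit 68) r7_161 r9_68 (nat_lit 1909453) (nat_lit 9146340) (nat_lit 2680125) (nat_lit 0xd8e0cdac) (nat_lit 595695424),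
  Rx.mk (nat_lit 2) (nat_lit 2) (nat_lit 0) (nat_lit 0) (nat_lit 1) (nat_lit 166) (nat_lit 74) r7_166 r9_74 (nat_lit 0) (nat_lit 13616542) (nat_lit 11056457) (nat_lit 0x17b1c14be) (nat_lit 434394355),
  Rx.mk (nat_lit 18) (nat_lit 2) (nat_lit 2) (nat_lit 0) (nat_lit 3) (nat_lit 168) (nat_lit 79) r7_168 r9_79 (nat_lit 0) (nat_lit 0) (nat_lit 9484367) (nat_lit 0x1fb67f214) (nat_lit 283080423),
  Rx.mk (nat_lit 24) (nat_lit 0) (nat_lit 3) (nat_lit 0) (nat_lit 2) (nat_lit 163) (nat_lit 70) r7_163 r9_70 (nat_lit 13438367) (nat_lit 0) (nat_lit 10245589) (nat_lit 0x19e910396) (nat_lit 395759412),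
  Rx.mk (nat_lit 26) (nat_lit 2) (nat_lit 3) (nat_lit 0) (nat_lit 3) (nat_lit 171) (nat_lit 76) r7_171 r9_76 (nat_lit 0) (nat_lit 0) (nat_lit 9484367) (nat_lit 0x1ff04690c) (nat_lit 279297123),
  Rx.mk (nat_lit 64) (nat_lit 0) (nat_lit 0) (nat_lit 1) (nat_lit 4) (nat_lit 162) (nat_lit 69) r7_162 r9_69 (nat_lit 13489230) (nat_lit 10619100) (nat_lit 0) (nat_lit 0x176e3a3da) (nat_lit 438312186),
  Rx.mk (nat_lit 66) (nat_lit 2) (nat_lit 0) (nat_lit 1) (nat_lit 5) (nat_lit 167) (nat_lit 75) r7_167 r9_75 (nat_lit 0) (nat_lit 9484367) (nat_lit 0) (nat_lit 0x20056d4f2) (nat_lit 277919823),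
  Rx.mk (nat_lit 82) (nat_lit 2) (nat_lit 2) (nat_lit 1) (nat_lit 7) (nat_lit 169) (nat_lit 80) r7_169 r9_80 (nat_lit 0) (nat_lit 0) (nat_lit 0) (nat_lit 0x20056d4f2) (nat_lit 268435456),
  Rx.mk (nat_lit 88) (nat_lit 0) (nat_lit 3) (nat_lit 1) (nat_lit 6) (nat_lit 164) (nat_lit 71) r7_164 r9_71 (nat_lit 9484367) (nat_lit 0) (nat_lit 0) (nat_lit 0x20056d4f2) (nat_lit 277919823),
  Rx.mk (nat_lit 90) (nat_lit 2) (nat_lit 3) (nat_lit 1) (nat_lit 7) (nat_lit 172) (nat_lit 77) r7_172 r9_77 (nat_lit 0) (nat_lit 0) (nat_lit 0) (nat_lit 0x20056d4f2) (nat_lit 268435456),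
  Rx.mk (nat_lit 146) (nat_lit 2) (nat_lit 2) (nat_lit 2) (nat_lit 7) (nat_lit 170) (nat_lit 81) r7_170 r9_81 (nat_lit 0) (nat_lit 0) (nat_lit 0) (nat_lit 0x20056d4f2) (nat_lit 268435456),
  Rx.mk (nat_lit 150) (nat_lit 6) (nat_lit 2) (nat_lit 2) (nat_lit 7) (nat_lit 160) (nat_lit 82) r7_160 r9_82 (nat_lit 0) (nat_lit 0) (nat_lit 0) (nat_lit 0x20056d4f2) (nat_lit 268435456),
  Rx.mk (nat_lit 216) (nat_lit 0) (nat_lit 3) (nat_lit 3) (nat_lit 6) (nat_lit 165) (nat_lit 72) r7_165 r9_72 (nat_lit 8921268) (nat_lit 0) (nat_lit 0) (nat_lit 0x1fef92f60) (nat_lit 278779924),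
  Rx.mk (nat_lit 218) (nat_lit 2) (nat_lit 3) (nat_lit 3) (nat_lit 7) (nat_lit 173) (nat_lit 78) r7_173 r9_78 (nat_lit 0) (nat_lit 0) (nat_lit 0) (nat_lit 0x20056d4f2) (nat_lit 268435456),
  Rx.mk (nat_lit 219) (nat_lit 3) (nat_lit 3) (nat_lit 3) (nat_lit 7) (nat_lit 174) (nat_lit 73) r7_174 r9_73 (nat_lit 0) (nat_lit 0) (nat_lit 0) (nat_lit 0x20056d4f2) (nat_lit 268435456)]
noncomputable def e13_18 : List Rx := [
  Rx.mk (nat_lit 295) (nat_lit 7) (nat_lit 4) (nat_lit 4) (nat_lit 1) (nat_lit 175) (nat_lit 98) r7_175 r4_98 (nat_lit 0) (nat_lit 14706363) (nat_lit 2266560) (nat_lit 0x17dee144e) (nat_lit 423669329),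
  Rx.mk (nat_lit 315) (nat_lit 3) (nat_lit 7) (nat_lit 4) (nat_lit 3) (nat_lit 181) (nat_lit 100) r7_181 r4_100 (nat_lit 0) (nat_lit 0) (nat_lit 5139472) (nat_lit 0x2059555ba) (nat_lit 268128028),
  Rx.mk (nat_lit 319) (nat_lit 7) (nat_lit 7) (nat_lit 4) (nat_lit 3) (nat_lit 178) (nat_lit 99) r7_178 r4_99 (nat_lit 0) (nat_lit 0) (nat_lit 3138540) (nat_lit 0x1e48aaf0a) (nat_lit 300903146),
  Rx.mk (nat_lit 423) (nat_lit 7) (nat_lit 4) (nat_lit 6) (nat_lit 5) (nat_lit 176) (nat_lit 104) r7_176 r4_104 (nat_lit 0) (nat_lit 16012508) (nat_lit 0) (nat_lit 0x1fe4a6b9c) (nat_lit 286568564),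
  Rx.mk (nat_lit 439) (nat_lit 7) (nat_lit 6) (nat_lit 6) (nat_lit 7) (nat_lit 177) (nat_lit 106) r7_177 r4_106 (nat_lit 0) (nat_lit 0) (nat_lit 0) (nat_lit 0x20056d4f2) (nat_lit 268435456),
  Rx.mk (nat_lit 447) (nat_lit 7) (nat_lit 7) (nat_lit 6) (nat_lit 7) (nat_lit 179) (nat_lit 105) r7_179 r4_105 (nat_lit 0) (nat_lit 0) (nat_lit 0) (nat_lit 0x216fc711c) (nat_lit 245117756),
  Rx.mk (nat_lit 472) (nat_lit 0) (nat_lit 3) (nat_lit 7) (nat_lit 6) (nat_lit 180) (nat_lit 102) r7_180 r4_102 (nat_lit 4579434) (nat_lit 0) (nat_lit 0) (nat_lit 0x20687f63a) (nat_lit 266591390),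
  Rx.mk (nat_lit 475) (nat_lit 3) (nat_lit 3) (nat_lit 7) (nat_lit 7) (nat_lit 183) (nat_lit 103) r7_183 r4_103 (nat_lit 0) (nat_lit 0) (nat_lit 0) (nat_lit 0x20056d4f2) (nat_lit 268435456),
  Rx.mk (nat_lit 507) (nat_lit 3) (nat_lit 7) (nat_lit 7) (nat_lit 7) (nat_lit 182) (nat_lit 101) r7_182 r4_101 (nat_lit 0) (nat_lit 0) (nat_lit 0) (nat_lit 0x20056d4f2) (nat_lit 268435456)]
noncomputable def e13_19 : List Rx := [
  Rx.mk (nat_lit 192) (nat_lit 0) (nat_lit 0) (nat_lit 3) (nat_lit 4) (nat_lit 189) (nat_lit 82) r7_189 r10_82 (nat_lit 232378) (nat_lit 325088) (nat_lit 0) (nat_lit 0x1b0e244d8) (nat_lit 353060522),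
  Rx.mk (nat_lit 194) (nat_lit 2) (nat_lit 0) (nat_lit 3) (nat_lit 5) (nat_lit 192) (nat_lit 88) r7_192 r10_88 (nat_lit 0) (nat_lit 3161773) (nat_lit 0) (nat_lit 0x1ef74950c) (nat_lit 289350529),
  Rx.mk (nat_lit 210) (nat_lit 2) (nat_lit 2) (nat_lit 3) (nat_lit 7) (nat_lit 193) (nat_lit 90) r7_193 r10_90 (nat_lit 0) (nat_lit 0) (nat_lit 0) (nat_lit 0x209fe494a) (nat_lit 258447306),
  Rx.mk (nat_lit 216) (nat_lit 0) (nat_lit 3) (nat_lit 3) (nat_lit 6) (nat_lit 191) (nat_lit 83) r7_191 r10_83 (nat_lit 2535687) (nat_lit 0) (nat_lit 0) (nat_lit 0x1ff5df990) (nat_lit 271959093),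
  Rx.mk (nat_lit 218) (nat_lit 2) (nat_lit 3) (nat_lit 3) (nat_lit 7) (nat_lit 194) (nat_lit 89) r7_194 r10_89 (nat_lit 0) (nat_lit 0) (nat_lit 0) (nat_lit 0x209fe95d0) (nat_lit 258446106),
  Rx.mk (nat_lit 295) (nat_lit 7) (nat_lit 4) (nat_lit 4) (nat_lit 1) (nat_lit 184) (nat_lit 91) r7_184 r10_91 (nat_lit 0) (nat_lit 325088) (nat_lit 232378) (nat_lit 0x1b0e244d8) (nat_lit 353060522),
  Rx.mk (nat_lit 315) (nat_lit 3) (nat_lit 7) (nat_lit 4) (nat_lit 3) (nat_lit 195) (nat_lit 86) r7_195 r10_86 (nat_lit 0) (nat_lit 0) (nat_lit 6516949) (nat_lit 0x1fb29d114) (nat_lit 280364355),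
  Rx.mk (nat_lit 319) (nat_lit 7) (nat_lit 7) (nat_lit 4) (nat_lit 3) (nat_lit 187) (nat_lit 93) r7_187 r10_93 (nat_lit 0) (nat_lit 0) (nat_lit 2535687) (nat_lit 0x1ff5df990) (nat_lit 271959093),
  Rx.mk (nat_lit 423) (nat_lit 7) (nat_lit 4) (nat_lit 6) (nat_lit 5) (nat_lit 185) (nat_lit 92) r7_185 r10_92 (nat_lit 0) (nat_lit 3161773) (nat_lit 0) (nat_lit 0x1ef74950c) (nat_lit 289350529),
  Rx.mk (nat_lit 439) (nat_lit 7) (nat_lit 6) (nat_lit 6) (nat_lit 7) (nat_lit 186) (nat_lit 95) r7_186 r10_95 (nat_lit 0) (nat_lit 0) (nat_lit 0) (nat_lit 0x209fe494a) (nat_lit 258447306),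
  Rx.mk (nat_lit 447) (nat_lit 7) (nat_lit 7) (nat_lit 6) (nat_lit 7) (nat_lit 188) (nat_lit 94) r7_188 r10_94 (nat_lit 0) (nat_lit 0) (nat_lit 0) (nat_lit 0x209fe95d0) (nat_lit 258446106),
  Rx.mk (nat_lit 472) (nat_lit 0) (nat_lit 3) (nat_lit 7) (nat_lit 6) (nat_lit 190) (nat_lit 84) r7_190 r10_84 (nat_lit 6516949) (nat_lit 0) (nat_lit 0) (nat_lit 0x1fb29d114) (nat_lit 280364355),
  Rx.mk (nat_lit 475) (nat_lit 3) (nat_lit 3) (nat_lit 7) (nat_lit 7) (nat_lit 197) (nat_lit 85) r7_197 r10_85 (nat_lit 0) (nat_lit 0) (nat_lit 0) (nat_lit 0x20056d4f2) (nat_lit 268435456),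
  Rx.mk (nat_lit 507) (nat_lit 3) (nat_lit 7) (nat_lit 7) (nat_lit 7) (nat_lit 196) (nat_lit 87) r7_196 r10_87 (nat_lit 0) (nat_lit 0) (nat_lit 0) (nat_lit 0x20056d4f2) (nat_lit 268435456)]
noncomputable def e13_20 : List Rx := [
  Rx.mk (nat_lit 283) (nat_lit 3) (nat_lit 3) (nat_lit 4) (nat_lit 3) (nat_lit 202) (nat_lit 102) r7_202 r11_102 (nat_lit 0) (nat_lit 0) (nat_lit 13297653) (nat_lit 0x1ee206fd2) (nat_lit 300924009),
  Rx.mk (nat_lit 315) (nat_lit 3) (nat_lit 7) (nat_lit 4) (nat_lit 3) (nat_lit 201) (nat_lit 104) r7_201 r11_104 (nat_lit 0) (nat_lit 0) (nat_lit 6612312) (nat_lit 0x20373a804) (nat_lit 271810218),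
  Rx.mk (nat_lit 319) (nat_lit 7) (nat_lit 7) (nat_lit 4) (nat_lit 3) (nat_lit 198) (nat_lit 105) r7_198 r11_105 (nat_lit 0) (nat_lit 0) (nat_lit 4171220) (nat_lit 0x1fe2a9fa6) (nat_lit 274848026),
  Rx.mk (nat_lit 447) (nat_lit 7) (nat_lit 7) (nat_lit 6) (nat_lit 7) (nat_lit 199) (nat_lit 106) r7_199 r11_106 (nat_lit 0) (nat_lit 0) (nat_lit 0) (nat_lit 0x20eafaca4) (nat_lit 253627606),
  Rx.mk (nat_lit 472) (nat_lit 0) (nat_lit 3) (nat_lit 7) (nat_lit 6) (nat_lit 200) (nat_lit 101) r7_200 r11_101 (nat_lit 9484367) (nat_lit 0) (nat_lit 0) (nat_lit 0x20056d4f2) (nat_lit 277919823),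
  Rx.mk (nat_lit 475) (nat_lit 3) (nat_lit 3) (nat_lit 7) (nat_lit 7) (nat_lit 203) (nat_lit 103) r7_203 r11_103 (nat_lit 0) (nat_lit 0) (nat_lit 0) (nat_lit 0x20056d4f2) (nat_lit 268435456)]
noncomputable def e13_21 : List Rx := [
  Rx.mk (nat_lit 0) (nat_lit 0) (nat_lit 0) (nat_lit 0) (nat_lit 0) (nat_lit 204) (nat_lit 170) r7_204 r9_170 (nat_lit 3153757) (nat_lit 4361725) (nat_lit 3803068) (nat_lit 0xe7b965fa) (nat_lit 577519756),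
  Rx.mk (nat_lit 2) (nat_lit 2) (nat_lit 0) (nat_lit 0) (nat_lit 1) (nat_lit 210) (nat_lit 172) r7_210 r9_172 (nat_lit 0) (nat_lit 10111158) (nat_lit 11171727) (nat_lit 0x1909dc81e) (nat_lit 408167991),
  Rx.mk (nat_lit 18) (nat_lit 2) (nat_lit 2) (nat_lit 0) (nat_lit 3) (nat_lit 213) (nat_lit 180) r7_213 r9_180 (nat_lit 0) (nat_lit 0) (nat_lit 9484367) (nat_lit 0x1fd5c6abe) (nat_lit 281030323),
  Rx.mk (nat_lit 24) (nat_lit 0) (nat_lit 3) (nat_lit 0) (nat_lit 2) (nat_lit 207) (nat_lit 176) r7_207 r9_176 (nat_lit 13011083) (nat_lit 0) (nat_lit 10313512) (nat_lit 0x1a14cc85e) (nat_lit 392497401),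
  Rx.mk (nat_lit 64) (nat_lit 0) (nat_lit 0) (nat_lit 1) (nat_lit 4) (nat_lit 205) (nat_lit 171) r7_205 r9_171 (nat_lit 11132797) (nat_lit 12267734) (nat_lit 0) (nat_lit 0x1880761f6) (nat_lit 419405787),
  Rx.mk (nat_lit 66) (nat_lit 2) (nat_lit 0) (nat_lit 1) (nat_lit 5) (nat_lit 211) (nat_lit 173) r7_211 r9_173 (nat_lit 0) (nat_lit 9484367) (nat_lit 0) (nat_lit 0x20056d4f2) (nat_lit 277919823),
  Rx.mk (nat_lit 72) (nat_lit 0) (nat_lit 1) (nat_lit 1) (nat_lit 6) (nat_lit 206) (nat_lit 174) r7_206 r9_174 (nat_lit 9484367) (nat_lit 0) (nat_lit 0) (nat_lit 0x20056d4f2) (nat_lit 277919823),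
  Rx.mk (nat_lit 74) (nat_lit 2) (nat_lit 1) (nat_lit 1) (nat_lit 7) (nat_lit 212) (nat_lit 175) r7_212 r9_175 (nat_lit 0) (nat_lit 0) (nat_lit 0) (nat_lit 0x20056d4f2) (nat_lit 268435456),
  Rx.mk (nat_lit 82) (nat_lit 2) (nat_lit 2) (nat_lit 1) (nat_lit 7) (nat_lit 214) (nat_lit 181) r7_214 r9_181 (nat_lit 0) (nat_lit 0) (nat_lit 0) (nat_lit 0x20056d4f2) (nat_lit 268435456),
  Rx.mk (nat_lit 88) (nat_lit 0) (nat_lit 3) (nat_lit 1) (nat_lit 6) (nat_lit 208) (nat_lit 177) r7_208 r9_177 (nat_lit 9484367) (nat_lit 0) (nat_lit 0) (nat_lit 0x20056d4f2) (nat_lit 277919823),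
  Rx.mk (nat_lit 146) (nat_lit 2) (nat_lit 2) (nat_lit 2) (nat_lit 7) (nat_lit 215) (nat_lit 182) r7_215 r9_182 (nat_lit 0) (nat_lit 0) (nat_lit 0) (nat_lit 0x20056d4f2) (nat_lit 268435456),
  Rx.mk (nat_lit 216) (nat_lit 0) (nat_lit 3) (nat_lit 3) (nat_lit 6) (nat_lit 209) (nat_lit 178) r7_209 r9_178 (nat_lit 9484367) (nat_lit 0) (nat_lit 0) (nat_lit 0x20056d4f2) (nat_lit 277919823),
  Rx.mk (nat_lit 219) (nat_lit 3) (nat_lit 3) (nat_lit 3) (nat_lit 7) (nat_lit 216) (nat_lit 179) r7_216 r9_179 (nat_lit 0) (nat_lit 0) (nat_lit 0) (nat_lit 0x20056d4f2) (nat_lit 268435456)]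
noncomputable def e13_22 : List Rx := [
  Rx.mk (nat_lit 320) (nat_lit 0) (nat_lit 0) (nat_lit 5) (nat_lit 4) (nat_lit 217) (nat_lit 250) r7_217 r0_250 (nat_lit 12632886) (nat_lit 6883560) (nat_lit 0) (nat_lit 0x199f2c586) (nat_lit 396447552),
  Rx.mk (nat_lit 321) (nat_lit 1) (nat_lit 0) (nat_lit 5) (nat_lit 5) (nat_lit 219) (nat_lit 252) r7_219 r0_252 (nat_lit 0) (nat_lit 10632780) (nat_lit 0) (nat_lit 0x1d6c3a8b8) (nat_lit 323047586),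
  Rx.mk (nat_lit 328) (nat_lit 0) (nat_lit 1) (nat_lit 5) (nat_lit 6) (nat_lit 218) (nat_lit 251) r7_218 r0_251 (nat_lit 10930595) (nat_lit 0) (nat_lit 0) (nat_lit 0x1f89b7ce0) (nat_lit 287476701),
  Rx.mk (nat_lit 329) (nat_lit 1) (nat_lit 1) (nat_lit 5) (nat_lit 7) (nat_lit 220) (nat_lit 253) r7_220 r0_253 (nat_lit 0) (nat_lit 0) (nat_lit 0) (nat_lit 0x201f393fe) (nat_lit 266751706)]
noncomputable def e13_23 : List Rx := [
  Rx.mk (nat_lit 328) (nat_lit 0) (nat_lit 1) (nat_lit 5) (nat_lit 6) (nat_lit 221) (nat_lit 256) r7_221 r1_256 (nat_lit 9484367) (nat_lit 0) (nat_lit 0) (nat_lit 0x1ed793e56) (nat_lit 297812473),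
  Rx.mk (nat_lit 329) (nat_lit 1) (nat_lit 1) (nat_lit 5) (nat_lit 7) (nat_lit 222) (nat_lit 257) r7_222 r1_257 (nat_lit 0) (nat_lit 0) (nat_lit 0) (nat_lit 0x1fb224e26) (nat_lit 273879356)]
noncomputable def e13_24 : List Rx := [
  Rx.mk (nat_lit 320) (nat_lit 0) (nat_lit 0) (nat_lit 5) (nat_lit 4) (nat_lit 223) (nat_lit 265) r7_223 r4_265 (nat_lit 11185874) (nat_lit 9833742) (nat_lit 0) (nat_lit 0x1c93abff6) (nat_lit 347782772),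
  Rx.mk (nat_lit 321) (nat_lit 1) (nat_lit 0) (nat_lit 5) (nat_lit 5) (nat_lit 226) (nat_lit 268) r7_226 r4_268 (nat_lit 0) (nat_lit 7236911) (nat_lit 0) (nat_lit 0x2024f415e) (nat_lit 273617967),
  Rx.mk (nat_lit 328) (nat_lit 0) (nat_lit 1) (nat_lit 5) (nat_lit 6) (nat_lit 224) (nat_lit 266) r7_224 r4_266 (nat_lit 9484367) (nat_lit 0) (nat_lit 0) (nat_lit 0x20056d4f2) (nat_lit 277919823),
  Rx.mk (nat_lit 329) (nat_lit 1) (nat_lit 1) (nat_lit 5) (nat_lit 7) (nat_lit 227) (nat_lit 269) r7_227 r4_269 (nat_lit 0) (nat_lit 0) (nat_lit 0) (nat_lit 0x20056d4f2) (nat_lit 268435456),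
  Rx.mk (nat_lit 344) (nat_lit 0) (nat_lit 3) (nat_lit 5) (nat_lit 6) (nat_lit 225) (nat_lit 267) r7_225 r4_267 (nat_lit 7262151) (nat_lit 0) (nat_lit 0) (nat_lit 0x202830002) (nat_lit 273435607),
  Rx.mk (nat_lit 345) (nat_lit 1) (nat_lit 3) (nat_lit 5) (nat_lit 7) (nat_lit 228) (nat_lit 270) r7_228 r4_270 (nat_lit 0) (nat_lit 0) (nat_lit 0) (nat_lit 0x20056d4f2) (nat_lit 268435456)]
noncomputable def e13_25 : List Rx := [
  Rx.mk (nat_lit 64) (nat_lit 0) (nat_lit 0) (nat_lit 1) (nat_lit 4) (nat_lit 230) (nat_lit 230) r7_230 r7_230 (nat_lit 12452190) (nat_lit 12452190) (nat_lit 0) (nat_lit 0x1b2db9852) (nat_lit 375430636),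
  Rx.mk (nat_lit 65) (nat_lit 1) (nat_lit 0) (nat_lit 1) (nat_lit 5) (nat_lit 235) (nat_lit 232) r7_235 r7_232 (nat_lit 0) (nat_lit 9484367) (nat_lit 0) (nat_lit 0x1f8256622) (nat_lit 286511973),
  Rx.mk (nat_lit 66) (nat_lit 2) (nat_lit 0) (nat_lit 1) (nat_lit 5) (nat_lit 239) (nat_lit 233) r7_239 r7_233 (nat_lit 0) (nat_lit 9484367) (nat_lit 0) (nat_lit 0x20056d4f2) (nat_lit 277919823),
  Rx.mk (nat_lit 72) (nat_lit 0) (nat_lit 1) (nat_lit 1) (nat_lit 6) (nat_lit 232) (nat_lit 235) r7_232 r7_235 (nat_lit 9484367) (nat_lit 0) (nat_lit 0) (nat_lit 0x1f8256622) (nat_lit 286511973),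
  Rx.mk (nat_lit 73) (nat_lit 1) (nat_lit 1) (nat_lit 1) (nat_lit 7) (nat_lit 237) (nat_lit 237) r7_237 r7_237 (nat_lit 0) (nat_lit 0) (nat_lit 0) (nat_lit 0x20056d4f2) (nat_lit 268435456),
  Rx.mk (nat_lit 74) (nat_lit 2) (nat_lit 1) (nat_lit 1) (nat_lit 7) (nat_lit 240) (nat_lit 238) r7_240 r7_238 (nat_lit 0) (nat_lit 0) (nat_lit 0) (nat_lit 0x20056d4f2) (nat_lit 268435456),
  Rx.mk (nat_lit 88) (nat_lit 0) (nat_lit 3) (nat_lit 1) (nat_lit 6) (nat_lit 233) (nat_lit 239) r7_233 r7_239 (nat_lit 9484367) (nat_lit 0) (nat_lit 0) (nat_lit 0x20056d4f2) (nat_lit 277919823),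
  Rx.mk (nat_lit 89) (nat_lit 1) (nat_lit 3) (nat_lit 1) (nat_lit 7) (nat_lit 238) (nat_lit 240) r7_238 r7_240 (nat_lit 0) (nat_lit 0) (nat_lit 0) (nat_lit 0x20056d4f2) (nat_lit 268435456),
  Rx.mk (nat_lit 320) (nat_lit 0) (nat_lit 0) (nat_lit 5) (nat_lit 4) (nat_lit 229) (nat_lit 229) r7_229 r7_229 (nat_lit 3198509) (nat_lit 3198509) (nat_lit 0) (nat_lit 0x1ad1629dc) (nat_lit 363026524),
  Rx.mk (nat_lit 321) (nat_lit 1) (nat_lit 0) (nat_lit 5) (nat_lit 5) (nat_lit 234) (nat_lit 231) r7_234 r7_231 (nat_lit 0) (nat_lit 4874341) (nat_lit 0) (nat_lit 0x204d5da50) (nat_lit 268633447),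
  Rx.mk (nat_lit 328) (nat_lit 0) (nat_lit 1) (nat_lit 5) (nat_lit 6) (nat_lit 231) (nat_lit 234) r7_231 r7_234 (nat_lit 4874341) (nat_lit 0) (nat_lit 0) (nat_lit 0x204d5da50) (nat_lit 268633447),
  Rx.mk (nat_lit 329) (nat_lit 1) (nat_lit 1) (nat_lit 5) (nat_lit 7) (nat_lit 236) (nat_lit 236) r7_236 r7_236 (nat_lit 0) (nat_lit 0) (nat_lit 0) (nat_lit 0x2031741f4) (nat_lit 265572906)]
noncomputable def e13_26 : List Rx := [
  Rx.mk (nat_lit 72) (nat_lit 0) (nat_lit 1) (nat_lit 1) (nat_lit 6) (nat_lit 242) (nat_lit 185) r7_242 r8_185 (nat_lit 9484367) (nat_lit 0) (nat_lit 0) (nat_lit 0x1f8a43b50) (nat_lit 285991423),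
  Rx.mk (nat_lit 73) (nat_lit 1) (nat_lit 1) (nat_lit 1) (nat_lit 7) (nat_lit 244) (nat_lit 187) r7_244 r8_187 (nat_lit 0) (nat_lit 0) (nat_lit 0) (nat_lit 0x20056d4f2) (nat_lit 268435456),
  Rx.mk (nat_lit 74) (nat_lit 2) (nat_lit 1) (nat_lit 1) (nat_lit 7) (nat_lit 245) (nat_lit 188) r7_245 r8_188 (nat_lit 0) (nat_lit 0) (nat_lit 0) (nat_lit 0x20056d4f2) (nat_lit 268435456),
  Rx.mk (nat_lit 328) (nat_lit 0) (nat_lit 1) (nat_lit 5) (nat_lit 6) (nat_lit 241) (nat_lit 184) r7_241 r8_184 (nat_lit 6164355) (nat_lit 0) (nat_lit 0) (nat_lit 0x20253bd24) (nat_lit 272515511),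
  Rx.mk (nat_lit 329) (nat_lit 1) (nat_lit 1) (nat_lit 5) (nat_lit 7) (nat_lit 243) (nat_lit 186) r7_243 r8_186 (nat_lit 0) (nat_lit 0) (nat_lit 0) (nat_lit 0x20056d4f2) (nat_lit 268435456)]
noncomputable def e13_27 : List Rx := [
  Rx.mk (nat_lit 64) (nat_lit 0) (nat_lit 0) (nat_lit 1) (nat_lit 4) (nat_lit 246) (nat_lit 248) r7_246 r8_248 (nat_lit 10214042) (nat_lit 11320174) (nat_lit 0) (nat_lit 0x19516debc) (nat_lit 403669772),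
  Rx.mk (nat_lit 65) (nat_lit 1) (nat_lit 0) (nat_lit 1) (nat_lit 5) (nat_lit 249) (nat_lit 251) r7_249 r8_251 (nat_lit 0) (nat_lit 9484367) (nat_lit 0) (nat_lit 0x1ff43348e) (nat_lit 279041273),
  Rx.mk (nat_lit 66) (nat_lit 2) (nat_lit 0) (nat_lit 1) (nat_lit 5) (nat_lit 252) (nat_lit 254) r7_252 r8_254 (nat_lit 0) (nat_lit 9484367) (nat_lit 0) (nat_lit 0x20056d4f2) (nat_lit 277919823),
  Rx.mk (nat_lit 72) (nat_lit 0) (nat_lit 1) (nat_lit 1) (nat_lit 6) (nat_lit 247) (nat_lit 249) r7_247 r8_249 (nat_lit 9484367) (nat_lit 0) (nat_lit 0) (nat_lit 0x1f9da5748) (nat_lit 284716123),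
  Rx.mk (nat_lit 73) (nat_lit 1) (nat_lit 1) (nat_lit 1) (nat_lit 7) (nat_lit 250) (nat_lit 252) r7_250 r8_252 (nat_lit 0) (nat_lit 0) (nat_lit 0) (nat_lit 0x20056d4f2) (nat_lit 268435456),
  Rx.mk (nat_lit 74) (nat_lit 2) (nat_lit 1) (nat_lit 1) (nat_lit 7) (nat_lit 253) (nat_lit 255) r7_253 r8_255 (nat_lit 0) (nat_lit 0) (nat_lit 0) (nat_lit 0x20056d4f2) (nat_lit 268435456),
  Rx.mk (nat_lit 82) (nat_lit 2) (nat_lit 2) (nat_lit 1) (nat_lit 7) (nat_lit 254) (nat_lit 256) r7_254 r8_256 (nat_lit 0) (nat_lit 0) (nat_lit 0) (nat_lit 0x20056d4f2) (nat_lit 268435456),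
  Rx.mk (nat_lit 88) (nat_lit 0) (nat_lit 3) (nat_lit 1) (nat_lit 6) (nat_lit 248) (nat_lit 250) r7_248 r8_250 (nat_lit 9484367) (nat_lit 0) (nat_lit 0) (nat_lit 0x1ff7a7da4) (nat_lit 278815973),
  Rx.mk (nat_lit 89) (nat_lit 1) (nat_lit 3) (nat_lit 1) (nat_lit 7) (nat_lit 251) (nat_lit 253) r7_251 r8_253 (nat_lit 0) (nat_lit 0) (nat_lit 0) (nat_lit 0x20056d4f2) (nat_lit 268435456)]
noncomputable def e13_28 : List Rx := [
  Rx.mk (nat_lit 88) (nat_lit 0) (nat_lit 3) (nat_lit 1) (nat_lit 6) (nat_lit 258) (nat_lit 188) r7_258 r10_188 (nat_lit 10225910) (nat_lit 0) (nat_lit 0) (nat_lit 0x1ff76c8d0) (nat_lit 279572466),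
  Rx.mk (nat_lit 89) (nat_lit 1) (nat_lit 3) (nat_lit 1) (nat_lit 7) (nat_lit 262) (nat_lit 190) r7_262 r10_190 (nat_lit 0) (nat_lit 0) (nat_lit 0) (nat_lit 0x20056d4f2) (nat_lit 268435456),
  Rx.mk (nat_lit 320) (nat_lit 0) (nat_lit 0) (nat_lit 5) (nat_lit 4) (nat_lit 255) (nat_lit 183) r7_255 r10_183 (nat_lit 3623461) (nat_lit 2412682) (nat_lit 0) (nat_lit 0x1b6a7120e) (nat_lit 352500749),
  Rx.mk (nat_lit 321) (nat_lit 1) (nat_lit 0) (nat_lit 5) (nat_lit 5) (nat_lit 259) (nat_lit 184) r7_259 r10_184 (nat_lit 0) (nat_lit 5997010) (nat_lit 0) (nat_lit 0x1fd77613e) (nat_lit 277419766),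
  Rx.mk (nat_lit 328) (nat_lit 0) (nat_lit 1) (nat_lit 5) (nat_lit 6) (nat_lit 256) (nat_lit 185) r7_256 r10_185 (nat_lit 6317275) (nat_lit 0) (nat_lit 0) (nat_lit 0x201d9ccf8) (nat_lit 273168531),
  Rx.mk (nat_lit 329) (nat_lit 1) (nat_lit 1) (nat_lit 5) (nat_lit 7) (nat_lit 260) (nat_lit 186) r7_260 r10_186 (nat_lit 0) (nat_lit 0) (nat_lit 0) (nat_lit 0x20056d4f2) (nat_lit 268435456),
  Rx.mk (nat_lit 344) (nat_lit 0) (nat_lit 3) (nat_lit 5) (nat_lit 6) (nat_lit 257) (nat_lit 187) r7_257 r10_187 (nat_lit 6317275) (nat_lit 0) (nat_lit 0) (nat_lit 0x201d9ccf8) (nat_lit 273168531),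
  Rx.mk (nat_lit 345) (nat_lit 1) (nat_lit 3) (nat_lit 5) (nat_lit 7) (nat_lit 261) (nat_lit 189) r7_261 r10_189 (nat_lit 0) (nat_lit 0) (nat_lit 0) (nat_lit 0x20056d4f2) (nat_lit 268435456)]
noncomputable def e13_29 : List Rx := [
  Rx.mk (nat_lit 320) (nat_lit 0) (nat_lit 0) (nat_lit 5) (nat_lit 4) (nat_lit 263) (nat_lit 212) r7_263 r11_212 (nat_lit 13980483) (nat_lit 37534727) (nat_lit 0) (nat_lit 0x1e7b17aba) (nat_lit 345961816),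
  Rx.mk (nat_lit 321) (nat_lit 1) (nat_lit 0) (nat_lit 5) (nat_lit 5) (nat_lit 266) (nat_lit 213) r7_266 r11_213 (nat_lit 0) (nat_lit 9484367) (nat_lit 0) (nat_lit 0x20056d4f2) (nat_lit 277919823),
  Rx.mk (nat_lit 328) (nat_lit 0) (nat_lit 1) (nat_lit 5) (nat_lit 6) (nat_lit 264) (nat_lit 214) r7_264 r11_214 (nat_lit 9484367) (nat_lit 0) (nat_lit 0) (nat_lit 0x20056d4f2) (nat_lit 277919823),
  Rx.mk (nat_lit 329) (nat_lit 1) (nat_lit 1) (nat_lit 5) (nat_lit 7) (nat_lit 267) (nat_lit 215) r7_267 r11_215 (nat_lit 0) (nat_lit 0) (nat_lit 0) (nat_lit 0x20056d4f2) (nat_lit 268435456),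
  Rx.mk (nat_lit 344) (nat_lit 0) (nat_lit 3) (nat_lit 5) (nat_lit 6) (nat_lit 265) (nat_lit 216) r7_265 r11_216 (nat_lit 9484367) (nat_lit 0) (nat_lit 0) (nat_lit 0x20056d4f2) (nat_lit 277919823),
  Rx.mk (nat_lit 345) (nat_lit 1) (nat_lit 3) (nat_lit 5) (nat_lit 7) (nat_lit 268) (nat_lit 217) r7_268 r11_217 (nat_lit 0) (nat_lit 0) (nat_lit 0) (nat_lit 0x20056d4f2) (nat_lit 268435456),
  Rx.mk (nat_lit 347) (nat_lit 3) (nat_lit 3) (nat_lit 5) (nat_lit 7) (nat_lit 269) (nat_lit 218) r7_269 r11_218 (nat_lit 0) (nat_lit 0) (nat_lit 0) (nat_lit 0x20056d4f2) (nat_lit 268435456)]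
noncomputable def e13_30 : List Rx := [
  Rx.mk (nat_lit 315) (nat_lit 3) (nat_lit 7) (nat_lit 4) (nat_lit 3) (nat_lit 272) (nat_lit 102) r7_272 r5_102 (nat_lit 0) (nat_lit 0) (nat_lit 2328975) (nat_lit 0x20c4f3c18) (nat_lit 258373331),
  Rx.mk (nat_lit 472) (nat_lit 0) (nat_lit 3) (nat_lit 7) (nat_lit 6) (nat_lit 271) (nat_lit 105) r7_271 r5_105 (nat_lit 2350265) (nat_lit 0) (nat_lit 0) (nat_lit 0x1faee4d92) (nat_lit 276387071),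
  Rx.mk (nat_lit 504) (nat_lit 0) (nat_lit 7) (nat_lit 7) (nat_lit 6) (nat_lit 270) (nat_lit 103) r7_270 r5_103 (nat_lit 4856279) (nat_lit 0) (nat_lit 0) (nat_lit 0x1bc73bce6) (nat_lit 345186885),
  Rx.mk (nat_lit 507) (nat_lit 3) (nat_lit 7) (nat_lit 7) (nat_lit 7) (nat_lit 273) (nat_lit 104) r7_273 r5_104 (nat_lit 0) (nat_lit 0) (nat_lit 0) (nat_lit 0x1fc6270f4) (nat_lit 272569156)]
noncomputable def e13_31 : List Rx := [
  Rx.mk (nat_lit 216) (nat_lit 0) (nat_lit 3) (nat_lit 3) (nat_lit 6) (nat_lit 276) (nat_lit 105) r7_276 r11_105 (nat_lit 4171220) (nat_lit 0) (nat_lit 0) (nat_lit 0x1fe2a9fa6) (nat_lit 274848026),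
  Rx.mk (nat_lit 218) (nat_lit 2) (nat_lit 3) (nat_lit 3) (nat_lit 7) (nat_lit 277) (nat_lit 106) r7_277 r11_106 (nat_lit 0) (nat_lit 0) (nat_lit 0) (nat_lit 0x20eafaca4) (nat_lit 253627606),
  Rx.mk (nat_lit 315) (nat_lit 3) (nat_lit 7) (nat_lit 4) (nat_lit 3) (nat_lit 278) (nat_lit 101) r7_278 r11_101 (nat_lit 0) (nat_lit 0) (nat_lit 9484367) (nat_lit 0x20056d4f2) (nat_lit 277919823),
  Rx.mk (nat_lit 472) (nat_lit 0) (nat_lit 3) (nat_lit 7) (nat_lit 6) (nat_lit 275) (nat_lit 104) r7_275 r11_104 (nat_lit 6612312) (nat_lit 0) (nat_lit 0) (nat_lit 0x20373a804) (nat_lit 271810218),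
  Rx.mk (nat_lit 504) (nat_lit 0) (nat_lit 7) (nat_lit 7) (nat_lit 6) (nat_lit 274) (nat_lit 102) r7_274 r11_102 (nat_lit 13297653) (nat_lit 0) (nat_lit 0) (nat_lit 0x1ee206fd2) (nat_lit 300924009),
  Rx.mk (nat_lit 507) (nat_lit 3) (nat_lit 7) (nat_lit 7) (nat_lit 7) (nat_lit 279) (nat_lit 103) r7_279 r11_103 (nat_lit 0) (nat_lit 0) (nat_lit 0) (nat_lit 0x20056d4f2) (nat_lit 268435456)]
noncomputable def e13_32 : List Rx := [
  Rx.mk (nat_lit 281) (nat_lit 1) (nat_lit 3) (nat_lit 4) (nat_lit 3) (nat_lit 284) (nat_lit 283) r7_284 r6_283 (nat_lit 0) (nat_lit 0) (nat_lit 2404456) (nat_lit 0x206fa235e) (nat_lit 263926362),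
  Rx.mk (nat_lit 313) (nat_lit 1) (nat_lit 7) (nat_lit 4) (nat_lit 3) (nat_lit 282) (nat_lit 282) r7_282 r6_282 (nat_lit 0) (nat_lit 0) (nat_lit 3659927) (nat_lit 0x1ff02ca2a) (nat_lit 273432533),
  Rx.mk (nat_lit 344) (nat_lit 0) (nat_lit 3) (nat_lit 5) (nat_lit 6) (nat_lit 281) (nat_lit 281) r7_281 r6_281 (nat_lit 3659927) (nat_lit 0) (nat_lit 0) (nat_lit 0x1ff02ca2a) (nat_lit 273432533),
  Rx.mk (nat_lit 345) (nat_lit 1) (nat_lit 3) (nat_lit 5) (nat_lit 7) (nat_lit 285) (nat_lit 285) r7_285 r6_285 (nat_lit 0) (nat_lit 0) (nat_lit 0) (nat_lit 0x2115c93d6) (nat_lit 250881906),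
  Rx.mk (nat_lit 376) (nat_lit 0) (nat_lit 7) (nat_lit 5) (nat_lit 6) (nat_lit 280) (nat_lit 280) r7_280 r6_280 (nat_lit 2404456) (nat_lit 0) (nat_lit 0) (nat_lit 0x206fa235e) (nat_lit 263926362),
  Rx.mk (nat_lit 377) (nat_lit 1) (nat_lit 7) (nat_lit 5) (nat_lit 7) (nat_lit 283) (nat_lit 284) r7_283 r6_284 (nat_lit 0) (nat_lit 0) (nat_lit 0) (nat_lit 0x2115c93d6) (nat_lit 250881906)]
noncomputable def e13_33 : List Rx := [
  Rx.mk (nat_lit 344) (nat_lit 0) (nat_lit 3) (nat_lit 5) (nat_lit 6) (nat_lit 286) (nat_lit 256) r7_286 r5_256 (nat_lit 2920698) (nat_lit 0) (nat_lit 0) (nat_lit 0x1fb4347c0) (nat_lit 276638054),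
  Rx.mk (nat_lit 345) (nat_lit 1) (nat_lit 3) (nat_lit 5) (nat_lit 7) (nat_lit 287) (nat_lit 257) r7_287 r5_257 (nat_lit 0) (nat_lit 0) (nat_lit 0) (nat_lit 0x204652198) (nat_lit 264207906)]
noncomputable def e13_34 : List Rx := [
  Rx.mk (nat_lit 88) (nat_lit 0) (nat_lit 3) (nat_lit 1) (nat_lit 6) (nat_lit 289) (nat_lit 303) r7_289 r11_303 (nat_lit 6916844) (nat_lit 0) (nat_lit 0) (nat_lit 0x20319bac4) (nat_lit 272480450),
  Rx.mk (nat_lit 89) (nat_lit 1) (nat_lit 3) (nat_lit 1) (nat_lit 7) (nat_lit 291) (nat_lit 304) r7_291 r11_304 (nat_lit 0) (nat_lit 0) (nat_lit 0) (nat_lit 0x20056d4f2) (nat_lit 268435456),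
  Rx.mk (nat_lit 90) (nat_lit 2) (nat_lit 3) (nat_lit 1) (nat_lit 7) (nat_lit 292) (nat_lit 305) r7_292 r11_305 (nat_lit 0) (nat_lit 0) (nat_lit 0) (nat_lit 0x20056d4f2) (nat_lit 268435456),
  Rx.mk (nat_lit 344) (nat_lit 0) (nat_lit 3) (nat_lit 5) (nat_lit 6) (nat_lit 288) (nat_lit 306) r7_288 r11_306 (nat_lit 3347934) (nat_lit 0) (nat_lit 0) (nat_lit 0x210cc8818) (nat_lit 254800140),
  Rx.mk (nat_lit 345) (nat_lit 1) (nat_lit 3) (nat_lit 5) (nat_lit 7) (nat_lit 290) (nat_lit 307) r7_290 r11_307 (nat_lit 0) (nat_lit 0) (nat_lit 0) (nat_lit 0x212ac02da) (nat_lit 249540606)]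
noncomputable def e13_35 : List Rx := [
  Rx.mk (nat_lit 312) (nat_lit 0) (nat_lit 7) (nat_lit 4) (nat_lit 2) (nat_lit 293) (nat_lit 195) r7_293 r6_195 (nat_lit 285501) (nat_lit 0) (nat_lit 293441) (nat_lit 0x1bd42f27c) (nat_lit 339938198),
  Rx.mk (nat_lit 313) (nat_lit 1) (nat_lit 7) (nat_lit 4) (nat_lit 3) (nat_lit 297) (nat_lit 196) r7_297 r6_196 (nat_lit 0) (nat_lit 0) (nat_lit 4380705) (nat_lit 0x20233b9a2) (nat_lit 270840161),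
  Rx.mk (nat_lit 315) (nat_lit 3) (nat_lit 7) (nat_lit 4) (nat_lit 3) (nat_lit 301) (nat_lit 197) r7_301 r6_197 (nat_lit 0) (nat_lit 0) (nat_lit 2828629) (nat_lit 0x200296e72) (nat_lit 271409985),
  Rx.mk (nat_lit 376) (nat_lit 0) (nat_lit 7) (nat_lit 5) (nat_lit 6) (nat_lit 294) (nat_lit 198) r7_294 r6_198 (nat_lit 3269233) (nat_lit 0) (nat_lit 0) (nat_lit 0x20b93e59e) (nat_lit 260068789),
  Rx.mk (nat_lit 377) (nat_lit 1) (nat_lit 7) (nat_lit 5) (nat_lit 7) (nat_lit 298) (nat_lit 199) r7_298 r6_199 (nat_lit 0) (nat_lit 0) (nat_lit 0) (nat_lit 0x20e132730) (nat_lit 254255056),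
  Rx.mk (nat_lit 379) (nat_lit 3) (nat_lit 7) (nat_lit 5) (nat_lit 7) (nat_lit 302) (nat_lit 200) r7_302 r6_200 (nat_lit 0) (nat_lit 0) (nat_lit 0) (nat_lit 0x21d88da66) (nat_lit 238408656),
  Rx.mk (nat_lit 472) (nat_lit 0) (nat_lit 3) (nat_lit 7) (nat_lit 6) (nat_lit 296) (nat_lit 193) r7_296 r6_193 (nat_lit 2249514) (nat_lit 0) (nat_lit 0) (nat_lit 0x1fa7a982a) (nat_lit 276775820),
  Rx.mk (nat_lit 473) (nat_lit 1) (nat_lit 3) (nat_lit 7) (nat_lit 7) (nat_lit 300) (nat_lit 194) r7_300 r6_194 (nat_lit 0) (nat_lit 0) (nat_lit 0) (nat_lit 0x218b34328) (nat_lit 243360356),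
  Rx.mk (nat_lit 504) (nat_lit 0) (nat_lit 7) (nat_lit 7) (nat_lit 6) (nat_lit 295) (nat_lit 201) r7_295 r6_201 (nat_lit 7768452) (nat_lit 0) (nat_lit 0) (nat_lit 0x1f2326f76) (nat_lit 291082808),
  Rx.mk (nat_lit 505) (nat_lit 1) (nat_lit 7) (nat_lit 7) (nat_lit 7) (nat_lit 299) (nat_lit 202) r7_299 r6_202 (nat_lit 0) (nat_lit 0) (nat_lit 0) (nat_lit 0x20056d4f2) (nat_lit 268435456)]
noncomputable def e13_36 : List Rx := [
  Rx.mk (nat_lit 280) (nat_lit 0) (nat_lit 3) (nat_lit 4) (nat_lit 2) (nat_lit 305) (nat_lit 97) r7_305 r12_97 (nat_lit 205538) (nat_lit 0) (nat_lit 182123) (nat_lit 0x1b7456eea) (nat_lit 346095267),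
  Rx.mk (nat_lit 281) (nat_lit 1) (nat_lit 3) (nat_lit 4) (nat_lit 3) (nat_lit 310) (nat_lit 102) r7_310 r12_102 (nat_lit 0) (nat_lit 0) (nat_lit 2496873) (nat_lit 0x1fe2faafa) (nat_lit 273109429),
  Rx.mk (nat_lit 312) (nat_lit 0) (nat_lit 7) (nat_lit 4) (nat_lit 2) (nat_lit 303) (nat_lit 100) r7_303 r12_100 (nat_lit 182123) (nat_lit 0) (nat_lit 205538) (nat_lit 0x1b7456eea) (nat_lit 346095267),
  Rx.mk (nat_lit 313) (nat_lit 1) (nat_lit 7) (nat_lit 4) (nat_lit 3) (nat_lit 308) (nat_lit 105) r7_308 r12_105 (nat_lit 0) (nat_lit 0) (nat_lit 3052202) (nat_lit 0x2031c5afe) (nat_lit 268549008),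
  Rx.mk (nat_lit 315) (nat_lit 3) (nat_lit 7) (nat_lit 4) (nat_lit 3) (nat_lit 313) (nat_lit 107) r7_313 r12_107 (nat_lit 0) (nat_lit 0) (nat_lit 1764226) (nat_lit 0x1f2f3f7d6) (nat_lit 284231582),
  Rx.mk (nat_lit 344) (nat_lit 0) (nat_lit 3) (nat_lit 5) (nat_lit 6) (nat_lit 306) (nat_lit 98) r7_306 r12_98 (nat_lit 3052202) (nat_lit 0) (nat_lit 0) (nat_lit 0x2031c5afe) (nat_lit 268549008),
  Rx.mk (nat_lit 345) (nat_lit 1) (nat_lit 3) (nat_lit 5) (nat_lit 7) (nat_lit 311) (nat_lit 103) r7_311 r12_103 (nat_lit 0) (nat_lit 0) (nat_lit 0) (nat_lit 0x22a5412e2) (nat_lit 225311006),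
  Rx.mk (nat_lit 376) (nat_lit 0) (nat_lit 7) (nat_lit 5) (nat_lit 6) (nat_lit 304) (nat_lit 101) r7_304 r12_101 (nat_lit 2496873) (nat_lit 0) (nat_lit 0) (nat_lit 0x1fe2faafa) (nat_lit 273109429),
  Rx.mk (nat_lit 377) (nat_lit 1) (nat_lit 7) (nat_lit 5) (nat_lit 7) (nat_lit 309) (nat_lit 106) r7_309 r12_106 (nat_lit 0) (nat_lit 0) (nat_lit 0) (nat_lit 0x22a5412e2) (nat_lit 225311006),
  Rx.mk (nat_lit 379) (nat_lit 3) (nat_lit 7) (nat_lit 5) (nat_lit 7) (nat_lit 314) (nat_lit 108) r7_314 r12_108 (nat_lit 0) (nat_lit 0) (nat_lit 0) (nat_lit 0x244f14688) (nat_lit 198076806),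
  Rx.mk (nat_lit 472) (nat_lit 0) (nat_lit 3) (nat_lit 7) (nat_lit 6) (nat_lit 307) (nat_lit 99) r7_307 r12_99 (nat_lit 1764226) (nat_lit 0) (nat_lit 0) (nat_lit 0x1f2f3f7d6) (nat_lit 284231582),
  Rx.mk (nat_lit 473) (nat_lit 1) (nat_lit 3) (nat_lit 7) (nat_lit 7) (nat_lit 312) (nat_lit 104) r7_312 r12_104 (nat_lit 0) (nat_lit 0) (nat_lit 0) (nat_lit 0x244f14688) (nat_lit 198076806)]
noncomputable def e13_37 : List Rx := [
  Rx.mk (nat_lit 289) (nat_lit 1) (nat_lit 4) (nat_lit 4) (nat_lit 1) (nat_lit 315) (nat_lit 250) r7_315 r0_250 (nat_lit 0) (nat_lit 6883560) (nat_lit 12632886) (nat_lit 0x199f2c586) (nat_lit 396447552),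
  Rx.mk (nat_lit 297) (nat_lit 1) (nat_lit 5) (nat_lit 4) (nat_lit 3) (nat_lit 317) (nat_lit 251) r7_317 r0_251 (nat_lit 0) (nat_lit 0) (nat_lit 10930595) (nat_lit 0x1f89b7ce0) (nat_lit 287476701),
  Rx.mk (nat_lit 353) (nat_lit 1) (nat_lit 4) (nat_lit 5) (nat_lit 5) (nat_lit 316) (nat_lit 252) r7_316 r0_252 (nat_lit 0) (nat_lit 10632780) (nat_lit 0) (nat_lit 0x1d6c3a8b8) (nat_lit 323047586),
  Rx.mk (nat_lit 361) (nat_lit 1) (nat_lit 5) (nat_lit 5) (nat_lit 7) (nat_lit 318) (nat_lit 253) r7_318 r0_253 (nat_lit 0) (nat_lit 0) (nat_lit 0) (nat_lit 0x201f393fe) (nat_lit 266751706)]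
noncomputable def e13_38 : List Rx := [
  Rx.mk (nat_lit 289) (nat_lit 1) (nat_lit 4) (nat_lit 4) (nat_lit 1) (nat_lit 325) (nat_lit 177) r7_325 r0_177 (nat_lit 0) (nat_lit 3352025) (nat_lit 236105) (nat_lit 0x15ef65efc) (nat_lit 443065536),
  Rx.mk (nat_lit 293) (nat_lit 5) (nat_lit 4) (nat_lit 4) (nat_lit 1) (nat_lit 319) (nat_lit 178) r7_319 r0_178 (nat_lit 0) (nat_lit 716691) (nat_lit 254935) (nat_lit 0x19bbb53e2) (nat_lit 375922732),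
  Rx.mk (nat_lit 317) (nat_lit 5) (nat_lit 7) (nat_lit 4) (nat_lit 3) (nat_lit 322) (nat_lit 182) r7_322 r0_182 (nat_lit 0) (nat_lit 0) (nat_lit 2189607) (nat_lit 0x1fe25deee) (nat_lit 272854513),
  Rx.mk (nat_lit 353) (nat_lit 1) (nat_lit 4) (nat_lit 5) (nat_lit 5) (nat_lit 326) (nat_lit 179) r7_326 r0_179 (nat_lit 0) (nat_lit 2435671) (nat_lit 0) (nat_lit 0x1813fca48) (nat_lit 405583127),
  Rx.mk (nat_lit 357) (nat_lit 5) (nat_lit 4) (nat_lit 5) (nat_lit 5) (nat_lit 320) (nat_lit 180) r7_320 r0_180 (nat_lit 0) (nat_lit 8466862) (nat_lit 0) (nat_lit 0x1df10845a) (nat_lit 312056868),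
  Rx.mk (nat_lit 381) (nat_lit 5) (nat_lit 7) (nat_lit 5) (nat_lit 7) (nat_lit 323) (nat_lit 183) r7_323 r0_183 (nat_lit 0) (nat_lit 0) (nat_lit 0) (nat_lit 0x2069e1e9c) (nat_lit 261918006),
  Rx.mk (nat_lit 421) (nat_lit 5) (nat_lit 4) (nat_lit 6) (nat_lit 5) (nat_lit 321) (nat_lit 181) r7_321 r0_181 (nat_lit 0) (nat_lit 57895491) (nat_lit 0) (nat_lit 0x20dbef6b0) (nat_lit 312330647),
  Rx.mk (nat_lit 445) (nat_lit 5) (nat_lit 7) (nat_lit 6) (nat_lit 7) (nat_lit 324) (nat_lit 184) r7_324 r0_184 (nat_lit 0) (nat_lit 0) (nat_lit 0) (nat_lit 0x2120dae14) (nat_lit 250172056)]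
noncomputable def e13_39 : List Rx := [
  Rx.mk (nat_lit 289) (nat_lit 1) (nat_lit 4) (nat_lit 4) (nat_lit 1) (nat_lit 335) (nat_lit 335) r7_335 r7_335 (nat_lit 0) (nat_lit 3198509) (nat_lit 3198509) (nat_lit 0x1ad1629dc) (nat_lit 363026524),
  Rx.mk (nat_lit 293) (nat_lit 5) (nat_lit 4) (nat_lit 4) (nat_lit 1) (nat_lit 327) (nat_lit 327) r7_327 r7_327 (nat_lit 0) (nat_lit 12452190) (nat_lit 12452190) (nat_lit 0x1b2db9852) (nat_lit 375430636),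
  Rx.mk (nat_lit 297) (nat_lit 1) (nat_lit 5) (nat_lit 4) (nat_lit 3) (nat_lit 337) (nat_lit 336) r7_337 r7_336 (nat_lit 0) (nat_lit 0) (nat_lit 4874341) (nat_lit 0x204d5da50) (nat_lit 268633447),
  Rx.mk (nat_lit 301) (nat_lit 5) (nat_lit 5) (nat_lit 4) (nat_lit 3) (nat_lit 330) (nat_lit 328) r7_330 r7_328 (nat_lit 0) (nat_lit 0) (nat_lit 9484367) (nat_lit 0x1f8256622) (nat_lit 286511973),
  Rx.mk (nat_lit 317) (nat_lit 5) (nat_lit 7) (nat_lit 4) (nat_lit 3) (nat_lit 333) (nat_lit 329) r7_333 r7_329 (nat_lit 0) (nat_lit 0) (nat_lit 9484367) (nat_lit 0x20056d4f2) (nat_lit 277919823),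
  Rx.mk (nat_lit 353) (nat_lit 1) (nat_lit 4) (nat_lit 5) (nat_lit 5) (nat_lit 336) (nat_lit 337) r7_336 r7_337 (nat_lit 0) (nat_lit 4874341) (nat_lit 0) (nat_lit 0x204d5da50) (nat_lit 268633447),
  Rx.mk (nat_lit 357) (nat_lit 5) (nat_lit 4) (nat_lit 5) (nat_lit 5) (nat_lit 328) (nat_lit 330) r7_328 r7_330 (nat_lit 0) (nat_lit 9484367) (nat_lit 0) (nat_lit 0x1f8256622) (nat_lit 286511973),
  Rx.mk (nat_lit 361) (nat_lit 1) (nat_lit 5) (nat_lit 5) (nat_lit 7) (nat_lit 338) (nat_lit 338) r7_338 r7_338 (nat_lit 0) (nat_lit 0) (nat_lit 0) (nat_lit 0x2031741f4) (nat_lit 265572906),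
  Rx.mk (nat_lit 365) (nat_lit 5) (nat_lit 5) (nat_lit 5) (nat_lit 7) (nat_lit 331) (nat_lit 331) r7_331 r7_331 (nat_lit 0) (nat_lit 0) (nat_lit 0) (nat_lit 0x20056d4f2) (nat_lit 268435456),
  Rx.mk (nat_lit 381) (nat_lit 5) (nat_lit 7) (nat_lit 5) (nat_lit 7) (nat_lit 334) (nat_lit 332) r7_334 r7_332 (nat_lit 0) (nat_lit 0) (nat_lit 0) (nat_lit 0x20056d4f2) (nat_lit 268435456),
  Rx.mk (nat_lit 421) (nat_lit 5) (nat_lit 4) (nat_lit 6) (nat_lit 5) (nat_lit 329) (nat_lit 333) r7_329 r7_333 (nat_lit 0) (nat_lit 9484367) (nat_lit 0) (nat_lit 0x20056d4f2) (nat_lit 277919823),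
  Rx.mk (nat_lit 429) (nat_lit 5) (nat_lit 5) (nat_lit 6) (nat_lit 7) (nat_lit 332) (nat_lit 334) r7_332 r7_334 (nat_lit 0) (nat_lit 0) (nat_lit 0) (nat_lit 0x20056d4f2) (nat_lit 268435456)]
noncomputable def e13_40 : List Rx := [
  Rx.mk (nat_lit 292) (nat_lit 4) (nat_lit 4) (nat_lit 4) (nat_lit 0) (nat_lit 339) (nat_lit 189) r7_339 r2_189 (nat_lit 122782) (nat_lit 347865) (nat_lit 110182) (nat_lit 0xf155adc6) (nat_lit 556453385),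
  Rx.mk (nat_lit 293) (nat_lit 5) (nat_lit 4) (nat_lit 4) (nat_lit 1) (nat_lit 344) (nat_lit 190) r7_344 r2_190 (nat_lit 0) (nat_lit 7109024) (nat_lit 3470687) (nat_lit 0x150fa33f0) (nat_lit 465021817),
  Rx.mk (nat_lit 316) (nat_lit 4) (nat_lit 7) (nat_lit 4) (nat_lit 2) (nat_lit 342) (nat_lit 193) r7_342 r2_193 (nat_lit 1994389) (nat_lit 0) (nat_lit 1645853) (nat_lit 0x1a886f89c) (nat_lit 365101798),
  Rx.mk (nat_lit 317) (nat_lit 5) (nat_lit 7) (nat_lit 4) (nat_lit 3) (nat_lit 347) (nat_lit 194) r7_347 r2_194 (nat_lit 0) (nat_lit 0) (nat_lit 5017164) (nat_lit 0x207caad94) (nat_lit 265733370),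
  Rx.mk (nat_lit 319) (nat_lit 7) (nat_lit 7) (nat_lit 4) (nat_lit 3) (nat_lit 350) (nat_lit 195) r7_350 r2_195 (nat_lit 0) (nat_lit 0) (nat_lit 6143740) (nat_lit 0x203351b34) (nat_lit 271587896),
  Rx.mk (nat_lit 420) (nat_lit 4) (nat_lit 4) (nat_lit 6) (nat_lit 4) (nat_lit 340) (nat_lit 191) r7_340 r2_191 (nat_lit 2914534) (nat_lit 6259495) (nat_lit 0) (nat_lit 0x1a7896376) (nat_lit 371700385),
  Rx.mk (nat_lit 421) (nat_lit 5) (nat_lit 4) (nat_lit 6) (nat_lit 5) (nat_lit 345) (nat_lit 192) r7_345 r2_192 (nat_lit 0) (nat_lit 9484367) (nat_lit 0) (nat_lit 0x20056d4f2) (nat_lit 277919823),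
  Rx.mk (nat_lit 436) (nat_lit 4) (nat_lit 6) (nat_lit 6) (nat_lit 6) (nat_lit 341) (nat_lit 200) r7_341 r2_200 (nat_lit 9484367) (nat_lit 0) (nat_lit 0) (nat_lit 0x1fbe559fc) (nat_lit 282567823),
  Rx.mk (nat_lit 437) (nat_lit 5) (nat_lit 6) (nat_lit 6) (nat_lit 7) (nat_lit 346) (nat_lit 201) r7_346 r2_201 (nat_lit 0) (nat_lit 0) (nat_lit 0) (nat_lit 0x20056d4f2) (nat_lit 268435456),
  Rx.mk (nat_lit 438) (nat_lit 6) (nat_lit 6) (nat_lit 6) (nat_lit 7) (nat_lit 349) (nat_lit 202) r7_349 r2_202 (nat_lit 0) (nat_lit 0) (nat_lit 0) (nat_lit 0x20056d4f2) (nat_lit 268435456),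
  Rx.mk (nat_lit 444) (nat_lit 4) (nat_lit 7) (nat_lit 6) (nat_lit 6) (nat_lit 343) (nat_lit 197) r7_343 r2_197 (nat_lit 4070597) (nat_lit 0) (nat_lit 0) (nat_lit 0x20d4908d8) (nat_lit 259136953),
  Rx.mk (nat_lit 445) (nat_lit 5) (nat_lit 7) (nat_lit 6) (nat_lit 7) (nat_lit 348) (nat_lit 198) r7_348 r2_198 (nat_lit 0) (nat_lit 0) (nat_lit 0) (nat_lit 0x20056d4f2) (nat_lit 268435456),
  Rx.mk (nat_lit 447) (nat_lit 7) (nat_lit 7) (nat_lit 6) (nat_lit 7) (nat_lit 351) (nat_lit 199) r7_351 r2_199 (nat_lit 0) (nat_lit 0) (nat_lit 0) (nat_lit 0x20056d4f2) (nat_lit 268435456),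
  Rx.mk (nat_lit 511) (nat_lit 7) (nat_lit 7) (nat_lit 7) (nat_lit 7) (nat_lit 352) (nat_lit 196) r7_352 r2_196 (nat_lit 0) (nat_lit 0) (nat_lit 0) (nat_lit 0x20056d4f2) (nat_lit 268435456)]
noncomputable def e13_41 : List Rx := [
  Rx.mk (nat_lit 292) (nat_lit 4) (nat_lit 4) (nat_lit 4) (nat_lit 0) (nat_lit 353) (nat_lit 170) r7_353 r9_170 (nat_lit 3803068) (nat_lit 4361725) (nat_lit 3153757) (nat_lit 0xe7b965fa) (nat_lit 577519756),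
  Rx.mk (nat_lit 293) (nat_lit 5) (nat_lit 4) (nat_lit 4) (nat_lit 1) (nat_lit 357) (nat_lit 171) r7_357 r9_171 (nat_lit 0) (nat_lit 12267734) (nat_lit 11132797) (nat_lit 0x1880761f6) (nat_lit 419405787),
  Rx.mk (nat_lit 301) (nat_lit 5) (nat_lit 5) (nat_lit 4) (nat_lit 3) (nat_lit 359) (nat_lit 174) r7_359 r9_174 (nat_lit 0) (nat_lit 0) (nat_lit 9484367) (nat_lit 0x20056d4f2) (nat_lit 277919823),
  Rx.mk (nat_lit 316) (nat_lit 4) (nat_lit 7) (nat_lit 4) (nat_lit 2) (nat_lit 356) (nat_lit 176) r7_356 r9_176 (nat_lit 10313512) (nat_lit 0) (nat_lit 13011083) (nat_lit 0x1a14cc85e) (nat_lit 392497401),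
  Rx.mk (nat_lit 317) (nat_lit 5) (nat_lit 7) (nat_lit 4) (nat_lit 3) (nat_lit 362) (nat_lit 177) r7_362 r9_177 (nat_lit 0) (nat_lit 0) (nat_lit 9484367) (nat_lit 0x20056d4f2) (nat_lit 277919823),
  Rx.mk (nat_lit 319) (nat_lit 7) (nat_lit 7) (nat_lit 4) (nat_lit 3) (nat_lit 364) (nat_lit 178) r7_364 r9_178 (nat_lit 0) (nat_lit 0) (nat_lit 9484367) (nat_lit 0x20056d4f2) (nat_lit 277919823),
  Rx.mk (nat_lit 420) (nat_lit 4) (nat_lit 4) (nat_lit 6) (nat_lit 4) (nat_lit 354) (nat_lit 172) r7_354 r9_172 (nat_lit 11171727) (nat_lit 10111158) (nat_lit 0) (nat_lit 0x1909dc81e) (nat_lit 408167991),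
  Rx.mk (nat_lit 421) (nat_lit 5) (nat_lit 4) (nat_lit 6) (nat_lit 5) (nat_lit 358) (nat_lit 173) r7_358 r9_173 (nat_lit 0) (nat_lit 9484367) (nat_lit 0) (nat_lit 0x20056d4f2) (nat_lit 277919823),
  Rx.mk (nat_lit 429) (nat_lit 5) (nat_lit 5) (nat_lit 6) (nat_lit 7) (nat_lit 360) (nat_lit 175) r7_360 r9_175 (nat_lit 0) (nat_lit 0) (nat_lit 0) (nat_lit 0x20056d4f2) (nat_lit 268435456),
  Rx.mk (nat_lit 436) (nat_lit 4) (nat_lit 6) (nat_lit 6) (nat_lit 6) (nat_lit 355) (nat_lit 180) r7_355 r9_180 (nat_lit 9484367) (nat_lit 0) (nat_lit 0) (nat_lit 0x1fd5c6abe) (nat_lit 281030323),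
  Rx.mk (nat_lit 437) (nat_lit 5) (nat_lit 6) (nat_lit 6) (nat_lit 7) (nat_lit 361) (nat_lit 181) r7_361 r9_181 (nat_lit 0) (nat_lit 0) (nat_lit 0) (nat_lit 0x20056d4f2) (nat_lit 268435456),
  Rx.mk (nat_lit 438) (nat_lit 6) (nat_lit 6) (nat_lit 6) (nat_lit 7) (nat_lit 363) (nat_lit 182) r7_363 r9_182 (nat_lit 0) (nat_lit 0) (nat_lit 0) (nat_lit 0x20056d4f2) (nat_lit 268435456),
  Rx.mk (nat_lit 511) (nat_lit 7) (nat_lit 7) (nat_lit 7) (nat_lit 7) (nat_lit 365) (nat_lit 179) r7_365 r9_179 (nat_lit 0) (nat_lit 0) (nat_lit 0) (nat_lit 0x20056d4f2) (nat_lit 268435456)]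
noncomputable def e13_42 : List Rx := [
  Rx.mk (nat_lit 182) (nat_lit 6) (nat_lit 6) (nat_lit 2) (nat_lit 7) (nat_lit 377) (nat_lit 82) r7_377 r9_82 (nat_lit 0) (nat_lit 0) (nat_lit 0) (nat_lit 0x20056d4f2) (nat_lit 268435456),
  Rx.mk (nat_lit 292) (nat_lit 4) (nat_lit 4) (nat_lit 4) (nat_lit 0) (nat_lit 366) (nat_lit 68) r7_366 r9_68 (nat_lit 2680125) (nat_lit 9146340) (nat_lit 1909453) (nat_lit 0xd8e0cdac) (nat_lit 595695424),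
  Rx.mk (nat_lit 293) (nat_lit 5) (nat_lit 4) (nat_lit 4) (nat_lit 1) (nat_lit 371) (nat_lit 69) r7_371 r9_69 (nat_lit 0) (nat_lit 10619100) (nat_lit 13489230) (nat_lit 0x176e3a3da) (nat_lit 438312186),
  Rx.mk (nat_lit 316) (nat_lit 4) (nat_lit 7) (nat_lit 4) (nat_lit 2) (nat_lit 369) (nat_lit 70) r7_369 r9_70 (nat_lit 10245589) (nat_lit 0) (nat_lit 13438367) (nat_lit 0x19e910396) (nat_lit 395759412),
  Rx.mk (nat_lit 317) (nat_lit 5) (nat_lit 7) (nat_lit 4) (nat_lit 3) (nat_lit 374) (nat_lit 71) r7_374 r9_71 (nat_lit 0) (nat_lit 0) (nat_lit 9484367) (nat_lit 0x20056d4f2) (nat_lit 277919823),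
  Rx.mk (nat_lit 319) (nat_lit 7) (nat_lit 7) (nat_lit 4) (nat_lit 3) (nat_lit 378) (nat_lit 72) r7_378 r9_72 (nat_lit 0) (nat_lit 0) (nat_lit 8921268) (nat_lit 0x1fef92f60) (nat_lit 278779924),
  Rx.mk (nat_lit 420) (nat_lit 4) (nat_lit 4) (nat_lit 6) (nat_lit 4) (nat_lit 367) (nat_lit 74) r7_367 r9_74 (nat_lit 11056457) (nat_lit 13616542) (nat_lit 0) (nat_lit 0x17b1c14be) (nat_lit 434394355),
  Rx.mk (nat_lit 421) (nat_lit 5) (nat_lit 4) (nat_lit 6) (nat_lit 5) (nat_lit 372) (nat_lit 75) r7_372 r9_75 (nat_lit 0) (nat_lit 9484367) (nat_lit 0) (nat_lit 0x20056d4f2) (nat_lit 277919823),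
  Rx.mk (nat_lit 436) (nat_lit 4) (nat_lit 6) (nat_lit 6) (nat_lit 6) (nat_lit 368) (nat_lit 79) r7_368 r9_79 (nat_lit 9484367) (nat_lit 0) (nat_lit 0) (nat_lit 0x1fb67f214) (nat_lit 283080423),
  Rx.mk (nat_lit 437) (nat_lit 5) (nat_lit 6) (nat_lit 6) (nat_lit 7) (nat_lit 373) (nat_lit 80) r7_373 r9_80 (nat_lit 0) (nat_lit 0) (nat_lit 0) (nat_lit 0x20056d4f2) (nat_lit 268435456),
  Rx.mk (nat_lit 438) (nat_lit 6) (nat_lit 6) (nat_lit 6) (nat_lit 7) (nat_lit 376) (nat_lit 81) r7_376 r9_81 (nat_lit 0) (nat_lit 0) (nat_lit 0) (nat_lit 0x20056d4f2) (nat_lit 268435456),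
  Rx.mk (nat_lit 444) (nat_lit 4) (nat_lit 7) (nat_lit 6) (nat_lit 6) (nat_lit 370) (nat_lit 76) r7_370 r9_76 (nat_lit 9484367) (nat_lit 0) (nat_lit 0) (nat_lit 0x1ff04690c) (nat_lit 279297123),
  Rx.mk (nat_lit 445) (nat_lit 5) (nat_lit 7) (nat_lit 6) (nat_lit 7) (nat_lit 375) (nat_lit 77) r7_375 r9_77 (nat_lit 0) (nat_lit 0) (nat_lit 0) (nat_lit 0x20056d4f2) (nat_lit 268435456),
  Rx.mk (nat_lit 447) (nat_lit 7) (nat_lit 7) (nat_lit 6) (nat_lit 7) (nat_lit 379) (nat_lit 78) r7_379 r9_78 (nat_lit 0) (nat_lit 0) (nat_lit 0) (nat_lit 0x20056d4f2) (nat_lit 268435456),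
  Rx.mk (nat_lit 511) (nat_lit 7) (nat_lit 7) (nat_lit 7) (nat_lit 7) (nat_lit 380) (nat_lit 73) r7_380 r9_73 (nat_lit 0) (nat_lit 0) (nat_lit 0) (nat_lit 0x20056d4f2) (nat_lit 268435456)]
noncomputable def e13_43 : List Rx := [
  Rx.mk (nat_lit 293) (nat_lit 5) (nat_lit 4) (nat_lit 4) (nat_lit 1) (nat_lit 381) (nat_lit 192) r7_381 r1_192 (nat_lit 0) (nat_lit 10430206) (nat_lit 4648863) (nat_lit 0x1ba0815a6) (nat_lit 357965125),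
  Rx.mk (nat_lit 317) (nat_lit 5) (nat_lit 7) (nat_lit 4) (nat_lit 3) (nat_lit 385) (nat_lit 195) r7_385 r1_195 (nat_lit 0) (nat_lit 0) (nat_lit 4369240) (nat_lit 0x20a61f4ea) (nat_lit 262415396),
  Rx.mk (nat_lit 357) (nat_lit 5) (nat_lit 4) (nat_lit 5) (nat_lit 5) (nat_lit 382) (nat_lit 193) r7_382 r1_193 (nat_lit 0) (nat_lit 10636325) (nat_lit 0) (nat_lit 0x1f952452e) (nat_lit 286423531),
  Rx.mk (nat_lit 381) (nat_lit 5) (nat_lit 7) (nat_lit 5) (nat_lit 7) (nat_lit 386) (nat_lit 196) r7_386 r1_196 (nat_lit 0) (nat_lit 0) (nat_lit 0) (nat_lit 0x203d18672) (nat_lit 264818306),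
  Rx.mk (nat_lit 421) (nat_lit 5) (nat_lit 4) (nat_lit 6) (nat_lit 5) (nat_lit 383) (nat_lit 194) r7_383 r1_194 (nat_lit 0) (nat_lit 77834362) (nat_lit 0) (nat_lit 0x23c840ddc) (nat_lit 284519518),
  Rx.mk (nat_lit 437) (nat_lit 5) (nat_lit 6) (nat_lit 6) (nat_lit 7) (nat_lit 384) (nat_lit 198) r7_384 r1_198 (nat_lit 0) (nat_lit 0) (nat_lit 0) (nat_lit 0x2186519be) (nat_lit 243665906),
  Rx.mk (nat_lit 445) (nat_lit 5) (nat_lit 7) (nat_lit 6) (nat_lit 7) (nat_lit 387) (nat_lit 197) r7_387 r1_197 (nat_lit 0) (nat_lit 0) (nat_lit 0) (nat_lit 0x203d18672) (nat_lit 264818306)]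
noncomputable def e13_44 : List Rx := [
  Rx.mk (nat_lit 293) (nat_lit 5) (nat_lit 4) (nat_lit 4) (nat_lit 1) (nat_lit 388) (nat_lit 248) r7_388 r8_248 (nat_lit 0) (nat_lit 11320174) (nat_lit 10214042) (nat_lit 0x19516debc) (nat_lit 403669772),
  Rx.mk (nat_lit 301) (nat_lit 5) (nat_lit 5) (nat_lit 4) (nat_lit 3) (nat_lit 391) (nat_lit 249) r7_391 r8_249 (nat_lit 0) (nat_lit 0) (nat_lit 9484367) (nat_lit 0x1f9da5748) (nat_lit 284716123),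
  Rx.mk (nat_lit 317) (nat_lit 5) (nat_lit 7) (nat_lit 4) (nat_lit 3) (nat_lit 395) (nat_lit 250) r7_395 r8_250 (nat_lit 0) (nat_lit 0) (nat_lit 9484367) (nat_lit 0x1ff7a7da4) (nat_lit 278815973),
  Rx.mk (nat_lit 357) (nat_lit 5) (nat_lit 4) (nat_lit 5) (nat_lit 5) (nat_lit 389) (nat_lit 251) r7_389 r8_251 (nat_lit 0) (nat_lit 9484367) (nat_lit 0) (nat_lit 0x1ff43348e) (nat_lit 279041273),
  Rx.mk (nat_lit 365) (nat_lit 5) (nat_lit 5) (nat_lit 5) (nat_lit 7) (nat_lit 392) (nat_lit 252) r7_392 r8_252 (nat_lit 0) (nat_lit 0) (nat_lit 0) (nat_lit 0x20056d4f2) (nat_lit 268435456),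
  Rx.mk (nat_lit 381) (nat_lit 5) (nat_lit 7) (nat_lit 5) (nat_lit 7) (nat_lit 396) (nat_lit 253) r7_396 r8_253 (nat_lit 0) (nat_lit 0) (nat_lit 0) (nat_lit 0x20056d4f2) (nat_lit 268435456),
  Rx.mk (nat_lit 421) (nat_lit 5) (nat_lit 4) (nat_lit 6) (nat_lit 5) (nat_lit 390) (nat_lit 254) r7_390 r8_254 (nat_lit 0) (nat_lit 9484367) (nat_lit 0) (nat_lit 0x20056d4f2) (nat_lit 277919823),
  Rx.mk (nat_lit 429) (nat_lit 5) (nat_lit 5) (nat_lit 6) (nat_lit 7) (nat_lit 393) (nat_lit 255) r7_393 r8_255 (nat_lit 0) (nat_lit 0) (nat_lit 0) (nat_lit 0x20056d4f2) (nat_lit 268435456),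
  Rx.mk (nat_lit 437) (nat_lit 5) (nat_lit 6) (nat_lit 6) (nat_lit 7) (nat_lit 394) (nat_lit 256) r7_394 r8_256 (nat_lit 0) (nat_lit 0) (nat_lit 0) (nat_lit 0x20056d4f2) (nat_lit 268435456)]
noncomputable def e13_45 : List Rx := [
  Rx.mk (nat_lit 297) (nat_lit 1) (nat_lit 5) (nat_lit 4) (nat_lit 3) (nat_lit 397) (nat_lit 256) r7_397 r1_256 (nat_lit 0) (nat_lit 0) (nat_lit 9484367) (nat_lit 0x1ed793e56) (nat_lit 297812473),
  Rx.mk (nat_lit 361) (nat_lit 1) (nat_lit 5) (nat_lit 5) (nat_lit 7) (nat_lit 398) (nat_lit 257) r7_398 r1_257 (nat_lit 0) (nat_lit 0) (nat_lit 0) (nat_lit 0x1fb224e26) (nat_lit 273879356)]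
noncomputable def e13_46 : List Rx := [
  Rx.mk (nat_lit 329) (nat_lit 1) (nat_lit 1) (nat_lit 5) (nat_lit 7) (nat_lit 400) (nat_lit 285) r7_400 r2_285 (nat_lit 0) (nat_lit 0) (nat_lit 0) (nat_lit 0x20056d4f2) (nat_lit 268435456),
  Rx.mk (nat_lit 361) (nat_lit 1) (nat_lit 5) (nat_lit 5) (nat_lit 7) (nat_lit 399) (nat_lit 284) r7_399 r2_284 (nat_lit 0) (nat_lit 0) (nat_lit 0) (nat_lit 0x20056d4f2) (nat_lit 268435456)]
noncomputable def e13_47 : List Rx := [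
  Rx.mk (nat_lit 297) (nat_lit 1) (nat_lit 5) (nat_lit 4) (nat_lit 3) (nat_lit 404) (nat_lit 184) r7_404 r8_184 (nat_lit 0) (nat_lit 0) (nat_lit 6164355) (nat_lit 0x20253bd24) (nat_lit 272515511),
  Rx.mk (nat_lit 301) (nat_lit 5) (nat_lit 5) (nat_lit 4) (nat_lit 3) (nat_lit 401) (nat_lit 185) r7_401 r8_185 (nat_lit 0) (nat_lit 0) (nat_lit 9484367) (nat_lit 0x1f8a43b50) (nat_lit 285991423),
  Rx.mk (nat_lit 361) (nat_lit 1) (nat_lit 5) (nat_lit 5) (nat_lit 7) (nat_lit 405) (nat_lit 186) r7_405 r8_186 (nat_lit 0) (nat_lit 0) (nat_lit 0) (nat_lit 0x20056d4f2) (nat_lit 268435456),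
  Rx.mk (nat_lit 365) (nat_lit 5) (nat_lit 5) (nat_lit 5) (nat_lit 7) (nat_lit 402) (nat_lit 187) r7_402 r8_187 (nat_lit 0) (nat_lit 0) (nat_lit 0) (nat_lit 0x20056d4f2) (nat_lit 268435456),
  Rx.mk (nat_lit 429) (nat_lit 5) (nat_lit 5) (nat_lit 6) (nat_lit 7) (nat_lit 403) (nat_lit 188) r7_403 r8_188 (nat_lit 0) (nat_lit 0) (nat_lit 0) (nat_lit 0x20056d4f2) (nat_lit 268435456)]
noncomputable def e13_48 : List Rx := [
  Rx.mk (nat_lit 329) (nat_lit 1) (nat_lit 1) (nat_lit 5) (nat_lit 7) (nat_lit 408) (nat_lit 259) r7_408 r9_259 (nat_lit 0) (nat_lit 0) (nat_lit 0) (nat_lit 0x20056d4f2) (nat_lit 268435456),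
  Rx.mk (nat_lit 361) (nat_lit 1) (nat_lit 5) (nat_lit 5) (nat_lit 7) (nat_lit 407) (nat_lit 258) r7_407 r9_258 (nat_lit 0) (nat_lit 0) (nat_lit 0) (nat_lit 0x20056d4f2) (nat_lit 268435456),
  Rx.mk (nat_lit 365) (nat_lit 5) (nat_lit 5) (nat_lit 5) (nat_lit 7) (nat_lit 406) (nat_lit 257) r7_406 r9_257 (nat_lit 0) (nat_lit 0) (nat_lit 0) (nat_lit 0x20056d4f2) (nat_lit 268435456)]
noncomputable def e13_49 : List Rx := [
  Rx.mk (nat_lit 73) (nat_lit 1) (nat_lit 1) (nat_lit 1) (nat_lit 7) (nat_lit 411) (nat_lit 257) r7_411 r9_257 (nat_lit 0) (nat_lit 0) (nat_lit 0) (nat_lit 0x20056d4f2) (nat_lit 268435456),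
  Rx.mk (nat_lit 329) (nat_lit 1) (nat_lit 1) (nat_lit 5) (nat_lit 7) (nat_lit 410) (nat_lit 258) r7_410 r9_258 (nat_lit 0) (nat_lit 0) (nat_lit 0) (nat_lit 0x20056d4f2) (nat_lit 268435456),
  Rx.mk (nat_lit 361) (nat_lit 1) (nat_lit 5) (nat_lit 5) (nat_lit 7) (nat_lit 409) (nat_lit 259) r7_409 r9_259 (nat_lit 0) (nat_lit 0) (nat_lit 0) (nat_lit 0x20056d4f2) (nat_lit 268435456)]
noncomputable def e13_50 : List Rx := [
  Rx.mk (nat_lit 289) (nat_lit 1) (nat_lit 4) (nat_lit 4) (nat_lit 1) (nat_lit 412) (nat_lit 250) r7_412 r3_250 (nat_lit 0) (nat_lit 16392) (nat_lit 20207) (nat_lit 0x1aff2b4f4) (nat_lit 353479305),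
  Rx.mk (nat_lit 313) (nat_lit 1) (nat_lit 7) (nat_lit 4) (nat_lit 3) (nat_lit 414) (nat_lit 251) r7_414 r3_251 (nat_lit 0) (nat_lit 0) (nat_lit 47845) (nat_lit 0x201156a48) (nat_lit 267395251),
  Rx.mk (nat_lit 353) (nat_lit 1) (nat_lit 4) (nat_lit 5) (nat_lit 5) (nat_lit 413) (nat_lit 252) r7_413 r3_252 (nat_lit 0) (nat_lit 1511252) (nat_lit 0) (nat_lit 0x1d22f5266) (nat_lit 318703058),
  Rx.mk (nat_lit 377) (nat_lit 1) (nat_lit 7) (nat_lit 5) (nat_lit 7) (nat_lit 415) (nat_lit 253) r7_415 r3_253 (nat_lit 0) (nat_lit 0) (nat_lit 0) (nat_lit 0x21af7b880) (nat_lit 241021756)]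
noncomputable def e13_51 : List Rx := [
  Rx.mk (nat_lit 289) (nat_lit 1) (nat_lit 4) (nat_lit 4) (nat_lit 1) (nat_lit 416) (nat_lit 265) r7_416 r4_265 (nat_lit 0) (nat_lit 9833742) (nat_lit 11185874) (nat_lit 0x1c93abff6) (nat_lit 347782772),
  Rx.mk (nat_lit 297) (nat_lit 1) (nat_lit 5) (nat_lit 4) (nat_lit 3) (nat_lit 418) (nat_lit 266) r7_418 r4_266 (nat_lit 0) (nat_lit 0) (nat_lit 9484367) (nat_lit 0x20056d4f2) (nat_lit 277919823),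
  Rx.mk (nat_lit 313) (nat_lit 1) (nat_lit 7) (nat_lit 4) (nat_lit 3) (nat_lit 420) (nat_lit 267) r7_420 r4_267 (nat_lit 0) (nat_lit 0) (nat_lit 7262151) (nat_lit 0x202830002) (nat_lit 273435607),
  Rx.mk (nat_lit 353) (nat_lit 1) (nat_lit 4) (nat_lit 5) (nat_lit 5) (nat_lit 417) (nat_lit 268) r7_417 r4_268 (nat_lit 0) (nat_lit 7236911) (nat_lit 0) (nat_lit 0x2024f415e) (nat_lit 273617967),
  Rx.mk (nat_lit 361) (nat_lit 1) (nat_lit 5) (nat_lit 5) (nat_lit 7) (nat_lit 419) (nat_lit 269) r7_419 r4_269 (nat_lit 0) (nat_lit 0) (nat_lit 0) (nat_lit 0x20056d4f2) (nat_lit 268435456),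
  Rx.mk (nat_lit 377) (nat_lit 1) (nat_lit 7) (nat_lit 5) (nat_lit 7) (nat_lit 421) (nat_lit 270) r7_421 r4_270 (nat_lit 0) (nat_lit 0) (nat_lit 0) (nat_lit 0x20056d4f2) (nat_lit 268435456)]
noncomputable def e13_52 : List Rx := [
  Rx.mk (nat_lit 313) (nat_lit 1) (nat_lit 7) (nat_lit 4) (nat_lit 3) (nat_lit 422) (nat_lit 256) r7_422 r5_256 (nat_lit 0) (nat_lit 0) (nat_lit 2920698) (nat_lit 0x1fb4347c0) (nat_lit 276638054),
  Rx.mk (nat_lit 377) (nat_lit 1) (nat_lit 7) (nat_lit 5) (nat_lit 7) (nat_lit 423) (nat_lit 257) r7_423 r5_257 (nat_lit 0) (nat_lit 0) (nat_lit 0) (nat_lit 0x204652198) (nat_lit 264207906)]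
noncomputable def e13_53 : List Rx := [
  Rx.mk (nat_lit 289) (nat_lit 1) (nat_lit 4) (nat_lit 4) (nat_lit 1) (nat_lit 427) (nat_lit 167) r7_427 r4_167 (nat_lit 0) (nat_lit 9573033) (nat_lit 3498461) (nat_lit 0x17c42fa88) (nat_lit 421543700),
  Rx.mk (nat_lit 313) (nat_lit 1) (nat_lit 7) (nat_lit 4) (nat_lit 3) (nat_lit 429) (nat_lit 169) r7_429 r4_169 (nat_lit 0) (nat_lit 0) (nat_lit 2514868) (nat_lit 0x1db219e9c) (nat_lit 310255074),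
  Rx.mk (nat_lit 317) (nat_lit 5) (nat_lit 7) (nat_lit 4) (nat_lit 3) (nat_lit 424) (nat_lit 170) r7_424 r4_170 (nat_lit 0) (nat_lit 0) (nat_lit 4626214) (nat_lit 0x207ca1424) (nat_lit 265335720),
  Rx.mk (nat_lit 353) (nat_lit 1) (nat_lit 4) (nat_lit 5) (nat_lit 5) (nat_lit 428) (nat_lit 168) r7_428 r4_168 (nat_lit 0) (nat_lit 8007799) (nat_lit 0) (nat_lit 0x1fe9cda3a) (nat_lit 278231055),
  Rx.mk (nat_lit 377) (nat_lit 1) (nat_lit 7) (nat_lit 5) (nat_lit 7) (nat_lit 430) (nat_lit 171) r7_430 r4_171 (nat_lit 0) (nat_lit 0) (nat_lit 0) (nat_lit 0x21766457e) (nat_lit 244694406),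
  Rx.mk (nat_lit 381) (nat_lit 5) (nat_lit 7) (nat_lit 5) (nat_lit 7) (nat_lit 425) (nat_lit 172) r7_425 r4_172 (nat_lit 0) (nat_lit 0) (nat_lit 0) (nat_lit 0x206f820c2) (nat_lit 261563506),
  Rx.mk (nat_lit 445) (nat_lit 5) (nat_lit 7) (nat_lit 6) (nat_lit 7) (nat_lit 426) (nat_lit 173) r7_426 r4_173 (nat_lit 0) (nat_lit 0) (nat_lit 0) (nat_lit 0x206f820c2) (nat_lit 261563506)]
noncomputable def e13_54 : List Rx := [
  Rx.mk (nat_lit 289) (nat_lit 1) (nat_lit 4) (nat_lit 4) (nat_lit 1) (nat_lit 433) (nat_lit 286) r7_433 r10_286 (nat_lit 0) (nat_lit 2412682) (nat_lit 3623461) (nat_lit 0x1b6a7120e) (nat_lit 352500749),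
  Rx.mk (nat_lit 297) (nat_lit 1) (nat_lit 5) (nat_lit 4) (nat_lit 3) (nat_lit 435) (nat_lit 287) r7_435 r10_287 (nat_lit 0) (nat_lit 0) (nat_lit 6317275) (nat_lit 0x201d9ccf8) (nat_lit 273168531),
  Rx.mk (nat_lit 313) (nat_lit 1) (nat_lit 7) (nat_lit 4) (nat_lit 3) (nat_lit 437) (nat_lit 288) r7_437 r10_288 (nat_lit 0) (nat_lit 0) (nat_lit 6317275) (nat_lit 0x201d9ccf8) (nat_lit 273168531),
  Rx.mk (nat_lit 317) (nat_lit 5) (nat_lit 7) (nat_lit 4) (nat_lit 3) (nat_lit 431) (nat_lit 284) r7_431 r10_284 (nat_lit 0) (nat_lit 0) (nat_lit 10225910) (nat_lit 0x1ff76c8d0) (nat_lit 279572466),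
  Rx.mk (nat_lit 353) (nat_lit 1) (nat_lit 4) (nat_lit 5) (nat_lit 5) (nat_lit 434) (nat_lit 289) r7_434 r10_289 (nat_lit 0) (nat_lit 5997010) (nat_lit 0) (nat_lit 0x1fd77613e) (nat_lit 277419766),
  Rx.mk (nat_lit 361) (nat_lit 1) (nat_lit 5) (nat_lit 5) (nat_lit 7) (nat_lit 436) (nat_lit 290) r7_436 r10_290 (nat_lit 0) (nat_lit 0) (nat_lit 0) (nat_lit 0x20056d4f2) (nat_lit 268435456),
  Rx.mk (nat_lit 377) (nat_lit 1) (nat_lit 7) (nat_lit 5) (nat_lit 7) (nat_lit 438) (nat_lit 291) r7_438 r10_291 (nat_lit 0) (nat_lit 0) (nat_lit 0) (nat_lit 0x20056d4f2) (nat_lit 268435456),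
  Rx.mk (nat_lit 381) (nat_lit 5) (nat_lit 7) (nat_lit 5) (nat_lit 7) (nat_lit 432) (nat_lit 285) r7_432 r10_285 (nat_lit 0) (nat_lit 0) (nat_lit 0) (nat_lit 0x20056d4f2) (nat_lit 268435456)]
noncomputable def e13_55 : List Rx := [
  Rx.mk (nat_lit 313) (nat_lit 1) (nat_lit 7) (nat_lit 4) (nat_lit 3) (nat_lit 442) (nat_lit 306) r7_442 r11_306 (nat_lit 0) (nat_lit 0) (nat_lit 3347934) (nat_lit 0x210cc8818) (nat_lit 254800140),
  Rx.mk (nat_lit 317) (nat_lit 5) (nat_lit 7) (nat_lit 4) (nat_lit 3) (nat_lit 439) (nat_lit 303) r7_439 r11_303 (nat_lit 0) (nat_lit 0) (nat_lit 6916844) (nat_lit 0x20319bac4) (nat_lit 272480450),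
  Rx.mk (nat_lit 377) (nat_lit 1) (nat_lit 7) (nat_lit 5) (nat_lit 7) (nat_lit 443) (nat_lit 307) r7_443 r11_307 (nat_lit 0) (nat_lit 0) (nat_lit 0) (nat_lit 0x212ac02da) (nat_lit 249540606),
  Rx.mk (nat_lit 381) (nat_lit 5) (nat_lit 7) (nat_lit 5) (nat_lit 7) (nat_lit 440) (nat_lit 304) r7_440 r11_304 (nat_lit 0) (nat_lit 0) (nat_lit 0) (nat_lit 0x20056d4f2) (nat_lit 268435456),
  Rx.mk (nat_lit 445) (nat_lit 5) (nat_lit 7) (nat_lit 6) (nat_lit 7) (nat_lit 441) (nat_lit 305) r7_441 r11_305 (nat_lit 0) (nat_lit 0) (nat_lit 0) (nat_lit 0x20056d4f2) (nat_lit 268435456)]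
noncomputable def e13_56 : List Rx := [
  Rx.mk (nat_lit 289) (nat_lit 1) (nat_lit 4) (nat_lit 4) (nat_lit 1) (nat_lit 444) (nat_lit 184) r7_444 r5_184 (nat_lit 0) (nat_lit 9588172) (nat_lit 2663217) (nat_lit 0x1bf102cbe) (nat_lit 349792345),
  Rx.mk (nat_lit 313) (nat_lit 1) (nat_lit 7) (nat_lit 4) (nat_lit 3) (nat_lit 446) (nat_lit 186) r7_446 r5_186 (nat_lit 0) (nat_lit 0) (nat_lit 4398806) (nat_lit 0x200652368) (nat_lit 272736762),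
  Rx.mk (nat_lit 353) (nat_lit 1) (nat_lit 4) (nat_lit 5) (nat_lit 5) (nat_lit 445) (nat_lit 185) r7_445 r5_185 (nat_lit 0) (nat_lit 9484367) (nat_lit 0) (nat_lit 0x20056d4f2) (nat_lit 277919823),
  Rx.mk (nat_lit 377) (nat_lit 1) (nat_lit 7) (nat_lit 5) (nat_lit 7) (nat_lit 447) (nat_lit 187) r7_447 r5_187 (nat_lit 0) (nat_lit 0) (nat_lit 0) (nat_lit 0x20b6ad88e) (nat_lit 256983056),
  Rx.mk (nat_lit 505) (nat_lit 1) (nat_lit 7) (nat_lit 7) (nat_lit 7) (nat_lit 448) (nat_lit 188) r7_448 r5_188 (nat_lit 0) (nat_lit 0) (nat_lit 0) (nat_lit 0x1f764566c) (nat_lit 277826656)]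
noncomputable def e13_57 : List Rx := [
  Rx.mk (nat_lit 289) (nat_lit 1) (nat_lit 4) (nat_lit 4) (nat_lit 1) (nat_lit 449) (nat_lit 212) r7_449 r11_212 (nat_lit 0) (nat_lit 37534727) (nat_lit 13980483) (nat_lit 0x1e7b17aba) (nat_lit 345961816),
  Rx.mk (nat_lit 297) (nat_lit 1) (nat_lit 5) (nat_lit 4) (nat_lit 3) (nat_lit 451) (nat_lit 214) r7_451 r11_214 (nat_lit 0) (nat_lit 0) (nat_lit 9484367) (nat_lit 0x20056d4f2) (nat_lit 277919823),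
  Rx.mk (nat_lit 313) (nat_lit 1) (nat_lit 7) (nat_lit 4) (nat_lit 3) (nat_lit 453) (nat_lit 216) r7_453 r11_216 (nat_lit 0) (nat_lit 0) (nat_lit 9484367) (nat_lit 0x20056d4f2) (nat_lit 277919823),
  Rx.mk (nat_lit 353) (nat_lit 1) (nat_lit 4) (nat_lit 5) (nat_lit 5) (nat_lit 450) (nat_lit 213) r7_450 r11_213 (nat_lit 0) (nat_lit 9484367) (nat_lit 0) (nat_lit 0x20056d4f2) (nat_lit 277919823),
  Rx.mk (nat_lit 361) (nat_lit 1) (nat_lit 5) (nat_lit 5) (nat_lit 7) (nat_lit 452) (nat_lit 215) r7_452 r11_215 (nat_lit 0) (nat_lit 0) (nat_lit 0) (nat_lit 0x20056d4f2) (nat_lit 268435456),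
  Rx.mk (nat_lit 377) (nat_lit 1) (nat_lit 7) (nat_lit 5) (nat_lit 7) (nat_lit 454) (nat_lit 217) r7_454 r11_217 (nat_lit 0) (nat_lit 0) (nat_lit 0) (nat_lit 0x20056d4f2) (nat_lit 268435456),
  Rx.mk (nat_lit 505) (nat_lit 1) (nat_lit 7) (nat_lit 7) (nat_lit 7) (nat_lit 455) (nat_lit 218) r7_455 r11_218 (nat_lit 0) (nat_lit 0) (nat_lit 0) (nat_lit 0x20056d4f2) (nat_lit 268435456)]
noncomputable def e13 : List (List Rx) := [e13_0, e13_1, e13_2, e13_3, e13_4, e13_5, e13_6, e13_7, e13_8, e13_9, e13_10, e13_11, e13_12, e13_13, e13_14, e13_15, e13_16, e13_17, e13_18, e13_19, e13_20, e13_21, e13_22, e13_23, e13_24, e13_25, e13_26, e13_27, e13_28, e13_29, e13_30, e13_31, e13_32, e13_33, e13_34, e13_35, e13_36, e13_37, e13_38, e13_39, e13_40, e13_41, e13_42, e13_43, e13_44, e13_45, e13_46, e13_47, e13_48, e13_49, e13_50, e13_51, e13_52, e13_53, e13_54, e13_55,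 e13_56, e13_57]
noncomputable def e14_0 : List Rx := [
  Rx.mk (nat_lit 0) (nat_lit 0) (nat_lit 0) (nat_lit 0) (nat_lit 0) (nat_lit 94) (nat_lit 111) r1_94 r0_111 (nat_lit 1132) (nat_lit 71503781) (nat_lit 1151) (nat_lit 0x1ffffcd4c) (nat_lit 339943120),
  Rx.mk (nat_lit 1) (nat_lit 1) (nat_lit 0) (nat_lit 0) (nat_lit 1) (nat_lit 95) (nat_lit 114) r1_95 r0_114 (nat_lit 0) (nat_lit 104667208) (nat_lit 4173814) (nat_lit 0x200e73d6c) (nat_lit 376678078),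
  Rx.mk (nat_lit 2) (nat_lit 2) (nat_lit 0) (nat_lit 0) (nat_lit 1) (nat_lit 96) (nat_lit 118) r1_96 r0_118 (nat_lit 0) (nat_lit 56350289) (nat_lit 10218001) (nat_lit 0x1f745a79e) (nat_lit 344506196),
  Rx.mk (nat_lit 18) (nat_lit 2) (nat_lit 2) (nat_lit 0) (nat_lit 3) (nat_lit 97) (nat_lit 121) r1_97 r0_121 (nat_lit 0) (nat_lit 0) (nat_lit 7542287) (nat_lit 0x201cafd36) (nat_lit 274462593),
  Rx.mk (nat_lit 146) (nat_lit 2) (nat_lit 2) (nat_lit 2) (nat_lit 7) (nat_lit 98) (nat_lit 123) r1_98 r0_123 (nat_lit 0) (nat_lit 0) (nat_lit 0) (nat_lit 0x20056d4f2) (nat_lit 268435456),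
  Rx.mk (nat_lit 192) (nat_lit 0) (nat_lit 0) (nat_lit 3) (nat_lit 4) (nat_lit 99) (nat_lit 112) r1_99 r0_112 (nat_lit 3336276) (nat_lit 34468149) (nat_lit 0) (nat_lit 0x1d1651a5a) (nat_lit 355883931),
  Rx.mk (nat_lit 193) (nat_lit 1) (nat_lit 0) (nat_lit 3) (nat_lit 5) (nat_lit 100) (nat_lit 115) r1_100 r0_115 (nat_lit 0) (nat_lit 13267100) (nat_lit 0) (nat_lit 0x1fdaa1d54) (nat_lit 284493406),
  Rx.mk (nat_lit 194) (nat_lit 2) (nat_lit 0) (nat_lit 3) (nat_lit 5) (nat_lit 101) (nat_lit 119) r1_101 r0_119 (nat_lit 0) (nat_lit 11841269) (nat_lit 0) (nat_lit 0x20e29fb5e) (nat_lit 266000725),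
  Rx.mk (nat_lit 210) (nat_lit 2) (nat_lit 2) (nat_lit 3) (nat_lit 7) (nat_lit 102) (nat_lit 122) r1_102 r0_122 (nat_lit 0) (nat_lit 0) (nat_lit 0) (nat_lit 0x20056d4f2) (nat_lit 268435456),
  Rx.mk (nat_lit 216) (nat_lit 0) (nat_lit 3) (nat_lit 3) (nat_lit 6) (nat_lit 103) (nat_lit 113) r1_103 r0_113 (nat_lit 7095785) (nat_lit 0) (nat_lit 0) (nat_lit 0x1f099b1ce) (nat_lit 292101241),
  Rx.mk (nat_lit 217) (nat_lit 1) (nat_lit 3) (nat_lit 3) (nat_lit 7) (nat_lit 104) (nat_lit 116) r1_104 r0_116 (nat_lit 0) (nat_lit 0) (nat_lit 0) (nat_lit 0x20056d4f2) (nat_lit 268435456),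
  Rx.mk (nat_lit 218) (nat_lit 2) (nat_lit 3) (nat_lit 3) (nat_lit 7) (nat_lit 105) (nat_lit 120) r1_105 r0_120 (nat_lit 0) (nat_lit 0) (nat_lit 0) (nat_lit 0x20056d4f2) (nat_lit 268435456),
  Rx.mk (nat_lit 219) (nat_lit 3) (nat_lit 3) (nat_lit 3) (nat_lit 7) (nat_lit 106) (nat_lit 117) r1_106 r0_117 (nat_lit 0) (nat_lit 0) (nat_lit 0) (nat_lit 0x20056d4f2) (nat_lit 268435456)]
noncomputable def e14_1 : List Rx := [
  Rx.mk (nat_lit 0) (nat_lit 0) (nat_lit 0) (nat_lit 0) (nat_lit 0) (nat_lit 117) (nat_lit 117) r1_117 r1_117 (nat_lit 1682105) (nat_lit 105483682) (nat_lit 1682105) (nat_lit 0x1bdb6cc2e) (nat_lit 447817298),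
  Rx.mk (nat_lit 1) (nat_lit 1) (nat_lit 0) (nat_lit 0) (nat_lit 1) (nat_lit 118) (nat_lit 121) r1_118 r1_121 (nat_lit 0) (nat_lit 46106178) (nat_lit 8738590) (nat_lit 0x1f9c60932) (nat_lit 330152724),
  Rx.mk (nat_lit 2) (nat_lit 2) (nat_lit 0) (nat_lit 0) (nat_lit 1) (nat_lit 119) (nat_lit 126) r1_119 r1_126 (nat_lit 0) (nat_lit 20374386) (nat_lit 9200414) (nat_lit 0x1f8488b34) (nat_lit 306458406),
  Rx.mk (nat_lit 18) (nat_lit 2) (nat_lit 2) (nat_lit 0) (nat_lit 3) (nat_lit 120) (nat_lit 128) r1_120 r1_128 (nat_lit 0) (nat_lit 0) (nat_lit 8607444) (nat_lit 0x1fd46f940) (nat_lit 280240350),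
  Rx.mk (nat_lit 64) (nat_lit 0) (nat_lit 0) (nat_lit 1) (nat_lit 4) (nat_lit 121) (nat_lit 118) r1_121 r1_118 (nat_lit 8738590) (nat_lit 46106178) (nat_lit 0) (nat_lit 0x1f9c60932) (nat_lit 330152724),
  Rx.mk (nat_lit 65) (nat_lit 1) (nat_lit 0) (nat_lit 1) (nat_lit 5) (nat_lit 122) (nat_lit 122) r1_122 r1_122 (nat_lit 0) (nat_lit 9484367) (nat_lit 0) (nat_lit 0x20219099a) (nat_lit 276087973),
  Rx.mk (nat_lit 66) (nat_lit 2) (nat_lit 0) (nat_lit 1) (nat_lit 5) (nat_lit 123) (nat_lit 127) r1_123 r1_127 (nat_lit 0) (nat_lit 9484367) (nat_lit 0) (nat_lit 0x20056d4f2) (nat_lit 277919823),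
  Rx.mk (nat_lit 82) (nat_lit 2) (nat_lit 2) (nat_lit 1) (nat_lit 7) (nat_lit 124) (nat_lit 129) r1_124 r1_129 (nat_lit 0) (nat_lit 0) (nat_lit 0) (nat_lit 0x20056d4f2) (nat_lit 268435456),
  Rx.mk (nat_lit 146) (nat_lit 2) (nat_lit 2) (nat_lit 2) (nat_lit 7) (nat_lit 125) (nat_lit 130) r1_125 r1_130 (nat_lit 0) (nat_lit 0) (nat_lit 0) (nat_lit 0x20056d4f2) (nat_lit 268435456),
  Rx.mk (nat_lit 192) (nat_lit 0) (nat_lit 0) (nat_lit 3) (nat_lit 4) (nat_lit 126) (nat_lit 119) r1_126 r1_119 (nat_lit 9200414) (nat_lit 20374386) (nat_lit 0) (nat_lit 0x1f8488b34) (nat_lit 306458406),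
  Rx.mk (nat_lit 193) (nat_lit 1) (nat_lit 0) (nat_lit 3) (nat_lit 5) (nat_lit 127) (nat_lit 123) r1_127 r1_123 (nat_lit 0) (nat_lit 9484367) (nat_lit 0) (nat_lit 0x20056d4f2) (nat_lit 277919823),
  Rx.mk (nat_lit 216) (nat_lit 0) (nat_lit 3) (nat_lit 3) (nat_lit 6) (nat_lit 128) (nat_lit 120) r1_128 r1_120 (nat_lit 8607444) (nat_lit 0) (nat_lit 0) (nat_lit 0x1fd46f940) (nat_lit 280240350),
  Rx.mk (nat_lit 217) (nat_lit 1) (nat_lit 3) (nat_lit 3) (nat_lit 7) (nat_lit 129) (nat_lit 124) r1_129 r1_124 (nat_lit 0) (nat_lit 0) (nat_lit 0) (nat_lit 0x20056d4f2) (nat_lit 268435456),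
  Rx.mk (nat_lit 219) (nat_lit 3) (nat_lit 3) (nat_lit 3) (nat_lit 7) (nat_lit 130) (nat_lit 125) r1_130 r1_125 (nat_lit 0) (nat_lit 0) (nat_lit 0) (nat_lit 0x20056d4f2) (nat_lit 268435456)]
noncomputable def e14_2 : List Rx := [
  Rx.mk (nat_lit 64) (nat_lit 0) (nat_lit 0) (nat_lit 1) (nat_lit 4) (nat_lit 258) (nat_lit 115) r1_258 r2_115 (nat_lit 11319226) (nat_lit 16672179) (nat_lit 0) (nat_lit 0x180b1dce2) (nat_lit 431779961),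
  Rx.mk (nat_lit 65) (nat_lit 1) (nat_lit 0) (nat_lit 1) (nat_lit 5) (nat_lit 259) (nat_lit 116) r1_259 r2_116 (nat_lit 0) (nat_lit 10097628) (nat_lit 0) (nat_lit 0x1fd30161c) (nat_lit 281824434),
  Rx.mk (nat_lit 66) (nat_lit 2) (nat_lit 0) (nat_lit 1) (nat_lit 5) (nat_lit 260) (nat_lit 117) r1_260 r2_117 (nat_lit 0) (nat_lit 9484367) (nat_lit 0) (nat_lit 0x20056d4f2) (nat_lit 277919823),
  Rx.mk (nat_lit 82) (nat_lit 2) (nat_lit 2) (nat_lit 1) (nat_lit 7) (nat_lit 261) (nat_lit 118) r1_261 r2_118 (nat_lit 0) (nat_lit 0) (nat_lit 0) (nat_lit 0x20056d4f2) (nat_lit 268435456)]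
noncomputable def e14_3 : List Rx := [
  Rx.mk (nat_lit 192) (nat_lit 0) (nat_lit 0) (nat_lit 3) (nat_lit 4) (nat_lit 39) (nat_lit 104) r1_39 r3_104 (nat_lit 493) (nat_lit 1048) (nat_lit 0) (nat_lit 0x200087852) (nat_lit 268403547),
  Rx.mk (nat_lit 193) (nat_lit 1) (nat_lit 0) (nat_lit 3) (nat_lit 5) (nat_lit 40) (nat_lit 107) r1_40 r3_107 (nat_lit 0) (nat_lit 5364652) (nat_lit 0) (nat_lit 0x20197d988) (nat_lit 272405208),
  Rx.mk (nat_lit 194) (nat_lit 2) (nat_lit 0) (nat_lit 3) (nat_lit 5) (nat_lit 41) (nat_lit 112) r1_41 r3_112 (nat_lit 0) (nat_lit 1588424) (nat_lit 0) (nat_lit 0x1ffa00bf0) (nat_lit 270650030),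
  Rx.mk (nat_lit 210) (nat_lit 2) (nat_lit 2) (nat_lit 3) (nat_lit 7) (nat_lit 42) (nat_lit 114) r1_42 r3_114 (nat_lit 0) (nat_lit 0) (nat_lit 0) (nat_lit 0x20853aa04) (nat_lit 260134406),
  Rx.mk (nat_lit 216) (nat_lit 0) (nat_lit 3) (nat_lit 3) (nat_lit 6) (nat_lit 43) (nat_lit 105) r1_43 r3_105 (nat_lit 326961) (nat_lit 0) (nat_lit 0) (nat_lit 0x2101a3708) (nat_lit 252384517),
  Rx.mk (nat_lit 217) (nat_lit 1) (nat_lit 3) (nat_lit 3) (nat_lit 7) (nat_lit 44) (nat_lit 108) r1_44 r3_108 (nat_lit 0) (nat_lit 0) (nat_lit 0) (nat_lit 0x218acc7dc) (nat_lit 243368056),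
  Rx.mk (nat_lit 218) (nat_lit 2) (nat_lit 3) (nat_lit 3) (nat_lit 7) (nat_lit 45) (nat_lit 113) r1_45 r3_113 (nat_lit 0) (nat_lit 0) (nat_lit 0) (nat_lit 0x208dbc254) (nat_lit 259604756),
  Rx.mk (nat_lit 472) (nat_lit 0) (nat_lit 3) (nat_lit 7) (nat_lit 6) (nat_lit 46) (nat_lit 106) r1_46 r3_106 (nat_lit 12586) (nat_lit 0) (nat_lit 0) (nat_lit 0x1ff9824c6) (nat_lit 268882992),
  Rx.mk (nat_lit 473) (nat_lit 1) (nat_lit 3) (nat_lit 7) (nat_lit 7) (nat_lit 47) (nat_lit 109) r1_47 r3_109 (nat_lit 0) (nat_lit 0) (nat_lit 0) (nat_lit 0x24f03701a) (nat_lit 187761056),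
  Rx.mk (nat_lit 475) (nat_lit 3) (nat_lit 3) (nat_lit 7) (nat_lit 7) (nat_lit 48) (nat_lit 110) r1_48 r3_110 (nat_lit 0) (nat_lit 0) (nat_lit 0) (nat_lit 0x21621855c) (nat_lit 245991956),
  Rx.mk (nat_lit 507) (nat_lit 3) (nat_lit 7) (nat_lit 7) (nat_lit 7) (nat_lit 49) (nat_lit 111) r1_49 r3_111 (nat_lit 0) (nat_lit 0) (nat_lit 0) (nat_lit 0x21883a01e) (nat_lit 243550156)]
noncomputable def e14_4 : List Rx := [
  Rx.mk (nat_lit 192) (nat_lit 0) (nat_lit 0) (nat_lit 3) (nat_lit 4) (nat_lit 154) (nat_lit 107) r1_154 r4_107 (nat_lit 3083789) (nat_lit 72610807) (nat_lit 0) (nat_lit 0x1da7e785c) (nat_lit 384120802),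
  Rx.mk (nat_lit 193) (nat_lit 1) (nat_lit 0) (nat_lit 3) (nat_lit 5) (nat_lit 155) (nat_lit 109) r1_155 r4_109 (nat_lit 0) (nat_lit 10426591) (nat_lit 0) (nat_lit 0x2064ff000) (nat_lit 272663397),
  Rx.mk (nat_lit 194) (nat_lit 2) (nat_lit 0) (nat_lit 3) (nat_lit 5) (nat_lit 156) (nat_lit 111) r1_156 r4_111 (nat_lit 0) (nat_lit 12447961) (nat_lit 0) (nat_lit 0x209304a72) (nat_lit 271717417),
  Rx.mk (nat_lit 210) (nat_lit 2) (nat_lit 2) (nat_lit 3) (nat_lit 7) (nat_lit 157) (nat_lit 113) r1_157 r4_113 (nat_lit 0) (nat_lit 0) (nat_lit 0) (nat_lit 0x20056d4f2) (nat_lit 268435456),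
  Rx.mk (nat_lit 216) (nat_lit 0) (nat_lit 3) (nat_lit 3) (nat_lit 6) (nat_lit 158) (nat_lit 108) r1_158 r4_108 (nat_lit 5176119) (nat_lit 0) (nat_lit 0) (nat_lit 0x1fab3b772) (nat_lit 279503175),
  Rx.mk (nat_lit 217) (nat_lit 1) (nat_lit 3) (nat_lit 3) (nat_lit 7) (nat_lit 159) (nat_lit 110) r1_159 r4_110 (nat_lit 0) (nat_lit 0) (nat_lit 0) (nat_lit 0x207453f38) (nat_lit 261249556),
  Rx.mk (nat_lit 218) (nat_lit 2) (nat_lit 3) (nat_lit 3) (nat_lit 7) (nat_lit 160) (nat_lit 112) r1_160 r4_112 (nat_lit 0) (nat_lit 0) (nat_lit 0) (nat_lit 0x20610c45c) (nat_lit 262493306)]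
noncomputable def e14_5 : List Rx := [
  Rx.mk (nat_lit 192) (nat_lit 0) (nat_lit 0) (nat_lit 3) (nat_lit 4) (nat_lit 225) (nat_lit 106) r1_225 r5_106 (nat_lit 1166073) (nat_lit 30080640) (nat_lit 0) (nat_lit 0x1fa8fae72) (nat_lit 305635719),
  Rx.mk (nat_lit 193) (nat_lit 1) (nat_lit 0) (nat_lit 3) (nat_lit 5) (nat_lit 226) (nat_lit 109) r1_226 r5_109 (nat_lit 0) (nat_lit 9484367) (nat_lit 0) (nat_lit 0x20df9d168) (nat_lit 263838473),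
  Rx.mk (nat_lit 194) (nat_lit 2) (nat_lit 0) (nat_lit 3) (nat_lit 5) (nat_lit 227) (nat_lit 113) r1_227 r5_113 (nat_lit 0) (nat_lit 12680896) (nat_lit 0) (nat_lit 0x20cc40b7e) (nat_lit 268272752),
  Rx.mk (nat_lit 210) (nat_lit 2) (nat_lit 2) (nat_lit 3) (nat_lit 7) (nat_lit 228) (nat_lit 114) r1_228 r5_114 (nat_lit 0) (nat_lit 0) (nat_lit 0) (nat_lit 0x203808ed4) (nat_lit 265137456),
  Rx.mk (nat_lit 448) (nat_lit 0) (nat_lit 0) (nat_lit 7) (nat_lit 4) (nat_lit 229) (nat_lit 107) r1_229 r5_107 (nat_lit 1010839) (nat_lit 1577709) (nat_lit 0) (nat_lit 0x1cd78d18e) (nat_lit 324800054),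
  Rx.mk (nat_lit 449) (nat_lit 1) (nat_lit 0) (nat_lit 7) (nat_lit 5) (nat_lit 230) (nat_lit 110) r1_230 r5_110 (nat_lit 0) (nat_lit 7840804) (nat_lit 0) (nat_lit 0x201fd6cee) (nat_lit 274550960),
  Rx.mk (nat_lit 472) (nat_lit 0) (nat_lit 3) (nat_lit 7) (nat_lit 6) (nat_lit 231) (nat_lit 108) r1_231 r5_108 (nat_lit 2633536) (nat_lit 0) (nat_lit 0) (nat_lit 0x206188944) (nat_lit 265076892),
  Rx.mk (nat_lit 473) (nat_lit 1) (nat_lit 3) (nat_lit 7) (nat_lit 7) (nat_lit 232) (nat_lit 111) r1_232 r5_111 (nat_lit 0) (nat_lit 0) (nat_lit 0) (nat_lit 0x20056d4f2) (nat_lit 268435456),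
  Rx.mk (nat_lit 475) (nat_lit 3) (nat_lit 3) (nat_lit 7) (nat_lit 7) (nat_lit 233) (nat_lit 112) r1_233 r5_112 (nat_lit 0) (nat_lit 0) (nat_lit 0) (nat_lit 0x20056d4f2) (nat_lit 268435456)]
noncomputable def e14_6 : List Rx := [
  Rx.mk (nat_lit 257) (nat_lit 1) (nat_lit 0) (nat_lit 4) (nat_lit 1) (nat_lit 293) (nat_lit 151) r1_293 r3_151 (nat_lit 0) (nat_lit 2560) (nat_lit 1558) (nat_lit 0x200147198) (nat_lit 268358724),
  Rx.mk (nat_lit 281) (nat_lit 1) (nat_lit 3) (nat_lit 4) (nat_lit 3) (nat_lit 294) (nat_lit 153) r1_294 r3_153 (nat_lit 0) (nat_lit 0) (nat_lit 1729121) (nat_lit 0x20953dff0) (nat_lit 260719377),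
  Rx.mk (nat_lit 321) (nat_lit 1) (nat_lit 0) (nat_lit 5) (nat_lit 5) (nat_lit 295) (nat_lit 152) r1_295 r3_152 (nat_lit 0) (nat_lit 12803) (nat_lit 0) (nat_lit 0x1fed03baa) (nat_lit 269710059),
  Rx.mk (nat_lit 345) (nat_lit 1) (nat_lit 3) (nat_lit 5) (nat_lit 7) (nat_lit 296) (nat_lit 154) r1_296 r3_154 (nat_lit 0) (nat_lit 0) (nat_lit 0) (nat_lit 0x244dbdaf0) (nat_lit 198128006)]
noncomputable def e14_7 : List Rx := [
  Rx.mk (nat_lit 321) (nat_lit 1) (nat_lit 0) (nat_lit 5) (nat_lit 5) (nat_lit 255) (nat_lit 173) r1_255 r0_173 (nat_lit 0) (nat_lit 65685782) (nat_lit 0) (nat_lit 0x200c6d310) (nat_lit 333632738)]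
noncomputable def e14_8 : List Rx := [
  Rx.mk (nat_lit 65) (nat_lit 1) (nat_lit 0) (nat_lit 1) (nat_lit 5) (nat_lit 272) (nat_lit 186) r1_272 r1_186 (nat_lit 0) (nat_lit 11144807) (nat_lit 0) (nat_lit 0x1f7f36adc) (nat_lit 288382313),
  Rx.mk (nat_lit 321) (nat_lit 1) (nat_lit 0) (nat_lit 5) (nat_lit 5) (nat_lit 273) (nat_lit 185) r1_273 r1_185 (nat_lit 0) (nat_lit 9484367) (nat_lit 0) (nat_lit 0x203e7d44a) (nat_lit 274207873)]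
noncomputable def e14_9 : List Rx := [
  Rx.mk (nat_lit 321) (nat_lit 1) (nat_lit 0) (nat_lit 5) (nat_lit 5) (nat_lit 305) (nat_lit 159) r1_305 r4_159 (nat_lit 0) (nat_lit 11745164) (nat_lit 0) (nat_lit 0x1ff78dda0) (nat_lit 281068370),
  Rx.mk (nat_lit 345) (nat_lit 1) (nat_lit 3) (nat_lit 5) (nat_lit 7) (nat_lit 306) (nat_lit 160) r1_306 r4_160 (nat_lit 0) (nat_lit 0) (nat_lit 0) (nat_lit 0x20783377a) (nat_lit 260999956)]
noncomputable def e14_10 : List Rx := [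
  Rx.mk (nat_lit 281) (nat_lit 1) (nat_lit 3) (nat_lit 4) (nat_lit 3) (nat_lit 246) (nat_lit 117) r1_246 r6_117 (nat_lit 0) (nat_lit 0) (nat_lit 1926974) (nat_lit 0x22142ee30) (nat_lit 236462830),
  Rx.mk (nat_lit 449) (nat_lit 1) (nat_lit 0) (nat_lit 7) (nat_lit 5) (nat_lit 247) (nat_lit 116) r1_247 r6_116 (nat_lit 0) (nat_lit 603204) (nat_lit 0) (nat_lit 0x214e18854) (nat_lit 247758010),
  Rx.mk (nat_lit 473) (nat_lit 1) (nat_lit 3) (nat_lit 7) (nat_lit 7) (nat_lit 248) (nat_lit 118) r1_248 r6_118 (nat_lit 0) (nat_lit 0) (nat_lit 0) (nat_lit 0x2545a608c) (nat_lit 182309556)]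
noncomputable def e14_11 : List Rx := [
  Rx.mk (nat_lit 257) (nat_lit 1) (nat_lit 0) (nat_lit 4) (nat_lit 1) (nat_lit 311) (nat_lit 164) r1_311 r5_164 (nat_lit 0) (nat_lit 7835173) (nat_lit 8473775) (nat_lit 0x1debb64d4) (nat_lit 320226004),
  Rx.mk (nat_lit 281) (nat_lit 1) (nat_lit 3) (nat_lit 4) (nat_lit 3) (nat_lit 312) (nat_lit 167) r1_312 r5_167 (nat_lit 0) (nat_lit 0) (nat_lit 6934858) (nat_lit 0x204533bd6) (nat_lit 271196564),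
  Rx.mk (nat_lit 321) (nat_lit 1) (nat_lit 0) (nat_lit 5) (nat_lit 5) (nat_lit 313) (nat_lit 165) r1_313 r5_165 (nat_lit 0) (nat_lit 6784373) (nat_lit 0) (nat_lit 0x2094db7d8) (nat_lit 265940429),
  Rx.mk (nat_lit 345) (nat_lit 1) (nat_lit 3) (nat_lit 5) (nat_lit 7) (nat_lit 314) (nat_lit 168) r1_314 r5_168 (nat_lit 0) (nat_lit 0) (nat_lit 0) (nat_lit 0x207d1b012) (nat_lit 260685156),
  Rx.mk (nat_lit 449) (nat_lit 1) (nat_lit 0) (nat_lit 7) (nat_lit 5) (nat_lit 315) (nat_lit 166) r1_315 r5_166 (nat_lit 0) (nat_lit 2151161) (nat_lit 0) (nat_lit 0x205962a4e) (nat_lit 265095617)]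
noncomputable def e14_12 : List Rx := [
  Rx.mk (nat_lit 18) (nat_lit 2) (nat_lit 2) (nat_lit 0) (nat_lit 3) (nat_lit 0) (nat_lit 22) r1_0 r0_22 (nat_lit 0) (nat_lit 0) (nat_lit 6061326) (nat_lit 0x1e22fb854) (nat_lit 306330232),
  Rx.mk (nat_lit 146) (nat_lit 2) (nat_lit 2) (nat_lit 2) (nat_lit 7) (nat_lit 1) (nat_lit 29) r1_1 r0_29 (nat_lit 0) (nat_lit 0) (nat_lit 0) (nat_lit 0x20e22bba0) (nat_lit 254171106),
  Rx.mk (nat_lit 192) (nat_lit 0) (nat_lit 0) (nat_lit 3) (nat_lit 4) (nat_lit 2) (nat_lit 23) r1_2 r0_23 (nat_lit 1053210) (nat_lit 1901317) (nat_lit 0) (nat_lit 0x1d06fa732) (nat_lit 322020483),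
  Rx.mk (nat_lit 194) (nat_lit 2) (nat_lit 0) (nat_lit 3) (nat_lit 5) (nat_lit 3) (nat_lit 24) r1_3 r0_24 (nat_lit 0) (nat_lit 6798811) (nat_lit 0) (nat_lit 0x1fe079bd2) (nat_lit 277633767),
  Rx.mk (nat_lit 210) (nat_lit 2) (nat_lit 2) (nat_lit 3) (nat_lit 7) (nat_lit 4) (nat_lit 28) r1_4 r0_28 (nat_lit 0) (nat_lit 0) (nat_lit 0) (nat_lit 0x232a6f1b2) (nat_lit 216775806),
  Rx.mk (nat_lit 216) (nat_lit 0) (nat_lit 3) (nat_lit 3) (nat_lit 6) (nat_lit 5) (nat_lit 25) r1_5 r0_25 (nat_lit 1484672) (nat_lit 0) (nat_lit 0) (nat_lit 0x20258cca6) (nat_lit 267789778),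
  Rx.mk (nat_lit 218) (nat_lit 2) (nat_lit 3) (nat_lit 3) (nat_lit 7) (nat_lit 6) (nat_lit 27) r1_6 r0_27 (nat_lit 0) (nat_lit 0) (nat_lit 0) (nat_lit 0x204321550) (nat_lit 264427056),
  Rx.mk (nat_lit 219) (nat_lit 3) (nat_lit 3) (nat_lit 3) (nat_lit 7) (nat_lit 7) (nat_lit 26) r1_7 r0_26 (nat_lit 0) (nat_lit 0) (nat_lit 0) (nat_lit 0x204321550) (nat_lit 264427056),
  Rx.mk (nat_lit 475) (nat_lit 3) (nat_lit 3) (nat_lit 7) (nat_lit 7) (nat_lit 8) (nat_lit 21) r1_8 r0_21 (nat_lit 0) (nat_lit 0) (nat_lit 0) (nat_lit 0x203066816) (nat_lit 265637806),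
  Rx.mk (nat_lit 507) (nat_lit 3) (nat_lit 7) (nat_lit 7) (nat_lit 7) (nat_lit 9) (nat_lit 20) r1_9 r0_20 (nat_lit 0) (nat_lit 0) (nat_lit 0) (nat_lit 0x2045d486a) (nat_lit 264245706)]
noncomputable def e14_13 : List Rx := [
  Rx.mk (nat_lit 0) (nat_lit 0) (nat_lit 0) (nat_lit 0) (nat_lit 0) (nat_lit 107) (nat_lit 126) r1_107 r7_126 (nat_lit 745275) (nat_lit 4920335) (nat_lit 1141544) (nat_lit 0x109a327e6) (nat_lit 536953810),
  Rx.mk (nat_lit 2) (nat_lit 2) (nat_lit 0) (nat_lit 0) (nat_lit 1) (nat_lit 108) (nat_lit 130) r1_108 r7_130 (nat_lit 0) (nat_lit 34669275) (nat_lit 14689334) (nat_lit 0x1dc530cc4) (nat_lit 355866165),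
  Rx.mk (nat_lit 18) (nat_lit 2) (nat_lit 2) (nat_lit 0) (nat_lit 3) (nat_lit 109) (nat_lit 133) r1_109 r7_133 (nat_lit 0) (nat_lit 0) (nat_lit 8870652) (nat_lit 0x1fc54f38e) (nat_lit 281480458),
  Rx.mk (nat_lit 146) (nat_lit 2) (nat_lit 2) (nat_lit 2) (nat_lit 7) (nat_lit 110) (nat_lit 135) r1_110 r7_135 (nat_lit 0) (nat_lit 0) (nat_lit 0) (nat_lit 0x20056d4f2) (nat_lit 268435456),
  Rx.mk (nat_lit 192) (nat_lit 0) (nat_lit 0) (nat_lit 3) (nat_lit 4) (nat_lit 111) (nat_lit 127) r1_111 r7_127 (nat_lit 648751) (nat_lit 1363821) (nat_lit 0) (nat_lit 0x196197c66) (nat_lit 383004978),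
  Rx.mk (nat_lit 194) (nat_lit 2) (nat_lit 0) (nat_lit 3) (nat_lit 5) (nat_lit 112) (nat_lit 131) r1_112 r7_131 (nat_lit 0) (nat_lit 11532138) (nat_lit 0) (nat_lit 0x200c99f0a) (nat_lit 279487844),
  Rx.mk (nat_lit 210) (nat_lit 2) (nat_lit 2) (nat_lit 3) (nat_lit 7) (nat_lit 113) (nat_lit 134) r1_113 r7_134 (nat_lit 0) (nat_lit 0) (nat_lit 0) (nat_lit 0x204560096) (nat_lit 264283306),
  Rx.mk (nat_lit 216) (nat_lit 0) (nat_lit 3) (nat_lit 3) (nat_lit 6) (nat_lit 114) (nat_lit 128) r1_114 r7_128 (nat_lit 4901484) (nat_lit 0) (nat_lit 0) (nat_lit 0x1e15b6d9c) (nat_lit 306066590),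
  Rx.mk (nat_lit 218) (nat_lit 2) (nat_lit 3) (nat_lit 3) (nat_lit 7) (nat_lit 115) (nat_lit 132) r1_115 r7_132 (nat_lit 0) (nat_lit 0) (nat_lit 0) (nat_lit 0x20056d4f2) (nat_lit 268435456),
  Rx.mk (nat_lit 219) (nat_lit 3) (nat_lit 3) (nat_lit 3) (nat_lit 7) (nat_lit 116) (nat_lit 129) r1_116 r7_129 (nat_lit 0) (nat_lit 0) (nat_lit 0) (nat_lit 0x20056d4f2) (nat_lit 268435456)]
noncomputable def e14_14 : List Rx := [
  Rx.mk (nat_lit 18) (nat_lit 2) (nat_lit 2) (nat_lit 0) (nat_lit 3) (nat_lit 10) (nat_lit 20) r1_10 r1_20 (nat_lit 0) (nat_lit 0) (nat_lit 4491237) (nat_lit 0x1d1a6e124) (nat_lit 322311393),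
  Rx.mk (nat_lit 146) (nat_lit 2) (nat_lit 2) (nat_lit 2) (nat_lit 7) (nat_lit 11) (nat_lit 29) r1_11 r1_29 (nat_lit 0) (nat_lit 0) (nat_lit 0) (nat_lit 0x1e3063ab4) (nat_lit 299334156),
  Rx.mk (nat_lit 150) (nat_lit 6) (nat_lit 2) (nat_lit 2) (nat_lit 7) (nat_lit 12) (nat_lit 28) r1_12 r1_28 (nat_lit 0) (nat_lit 0) (nat_lit 0) (nat_lit 0x200f83ea0) (nat_lit 267776556),
  Rx.mk (nat_lit 182) (nat_lit 6) (nat_lit 6) (nat_lit 2) (nat_lit 7) (nat_lit 13) (nat_lit 27) r1_13 r1_27 (nat_lit 0) (nat_lit 0) (nat_lit 0) (nat_lit 0x1ffd6eff8) (nat_lit 268950056),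
  Rx.mk (nat_lit 192) (nat_lit 0) (nat_lit 0) (nat_lit 3) (nat_lit 4) (nat_lit 14) (nat_lit 21) r1_14 r1_21 (nat_lit 6342) (nat_lit 7948) (nat_lit 0) (nat_lit 0x1db35dfce) (nat_lit 307517346),
  Rx.mk (nat_lit 194) (nat_lit 2) (nat_lit 0) (nat_lit 3) (nat_lit 5) (nat_lit 15) (nat_lit 22) r1_15 r1_22 (nat_lit 0) (nat_lit 3879038) (nat_lit 0) (nat_lit 0x1facb5e72) (nat_lit 278089644),
  Rx.mk (nat_lit 210) (nat_lit 2) (nat_lit 2) (nat_lit 3) (nat_lit 7) (nat_lit 16) (nat_lit 26) r1_16 r1_26 (nat_lit 0) (nat_lit 0) (nat_lit 0) (nat_lit 0x2055ec0a4) (nat_lit 262974906),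
  Rx.mk (nat_lit 216) (nat_lit 0) (nat_lit 3) (nat_lit 3) (nat_lit 6) (nat_lit 17) (nat_lit 23) r1_17 r1_23 (nat_lit 5979) (nat_lit 0) (nat_lit 0) (nat_lit 0x204d38110) (nat_lit 263506885),
  Rx.mk (nat_lit 218) (nat_lit 2) (nat_lit 3) (nat_lit 3) (nat_lit 7) (nat_lit 18) (nat_lit 25) r1_18 r1_25 (nat_lit 0) (nat_lit 0) (nat_lit 0) (nat_lit 0x1fd3b41e0) (nat_lit 271675306),
  Rx.mk (nat_lit 219) (nat_lit 3) (nat_lit 3) (nat_lit 3) (nat_lit 7) (nat_lit 19) (nat_lit 24) r1_19 r1_24 (nat_lit 0) (nat_lit 0) (nat_lit 0) (nat_lit 0x1fd3aa51e) (nat_lit 271677806),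
  Rx.mk (nat_lit 319) (nat_lit 7) (nat_lit 7) (nat_lit 4) (nat_lit 3) (nat_lit 20) (nat_lit 10) r1_20 r1_10 (nat_lit 0) (nat_lit 0) (nat_lit 4491237) (nat_lit 0x1d1a6e124) (nat_lit 322311393),
  Rx.mk (nat_lit 420) (nat_lit 4) (nat_lit 4) (nat_lit 6) (nat_lit 4) (nat_lit 21) (nat_lit 14) r1_21 r1_14 (nat_lit 6342) (nat_lit 7948) (nat_lit 0) (nat_lit 0x1db35dfce) (nat_lit 307517346),
  Rx.mk (nat_lit 423) (nat_lit 7) (nat_lit 4) (nat_lit 6) (nat_lit 5) (nat_lit 22) (nat_lit 15) r1_22 r1_15 (nat_lit 0) (nat_lit 3879038) (nat_lit 0) (nat_lit 0x1facb5e72) (nat_lit 278089644),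
  Rx.mk (nat_lit 436) (nat_lit 4) (nat_lit 6) (nat_lit 6) (nat_lit 6) (nat_lit 23) (nat_lit 17) r1_23 r1_17 (nat_lit 5979) (nat_lit 0) (nat_lit 0) (nat_lit 0x204d38110) (nat_lit 263506885),
  Rx.mk (nat_lit 438) (nat_lit 6) (nat_lit 6) (nat_lit 6) (nat_lit 7) (nat_lit 24) (nat_lit 19) r1_24 r1_19 (nat_lit 0) (nat_lit 0) (nat_lit 0) (nat_lit 0x1fd3aa51e) (nat_lit 271677806),
  Rx.mk (nat_lit 439) (nat_lit 7) (nat_lit 6) (nat_lit 6) (nat_lit 7) (nat_lit 25) (nat_lit 18) r1_25 r1_18 (nat_lit 0) (nat_lit 0) (nat_lit 0) (nat_lit 0x1fd3b41e0) (nat_lit 271675306),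
  Rx.mk (nat_lit 447) (nat_lit 7) (nat_lit 7) (nat_lit 6) (nat_lit 7) (nat_lit 26) (nat_lit 16) r1_26 r1_16 (nat_lit 0) (nat_lit 0) (nat_lit 0) (nat_lit 0x2055ec0a4) (nat_lit 262974906),
  Rx.mk (nat_lit 475) (nat_lit 3) (nat_lit 3) (nat_lit 7) (nat_lit 7) (nat_lit 27) (nat_lit 13) r1_27 r1_13 (nat_lit 0) (nat_lit 0) (nat_lit 0) (nat_lit 0x1ffd6eff8) (nat_lit 268950056),
  Rx.mk (nat_lit 507) (nat_lit 3) (nat_lit 7) (nat_lit 7) (nat_lit 7) (nat_lit 28) (nat_lit 12) r1_28 r1_12 (nat_lit 0) (nat_lit 0) (nat_lit 0) (nat_lit 0x200f83ea0) (nat_lit 267776556),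
  Rx.mk (nat_lit 511) (nat_lit 7) (nat_lit 7) (nat_lit 7) (nat_lit 7) (nat_lit 29) (nat_lit 11) r1_29 r1_11 (nat_lit 0) (nat_lit 0) (nat_lit 0) (nat_lit 0x1e3063ab4) (nat_lit 299334156)]
noncomputable def e14_15 : List Rx := [
  Rx.mk (nat_lit 0) (nat_lit 0) (nat_lit 0) (nat_lit 0) (nat_lit 0) (nat_lit 141) (nat_lit 90) r1_141 r8_90 (nat_lit 2921945) (nat_lit 11933065) (nat_lit 4308292) (nat_lit 0x103c1157c) (nat_lit 555604158),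
  Rx.mk (nat_lit 2) (nat_lit 2) (nat_lit 0) (nat_lit 0) (nat_lit 1) (nat_lit 142) (nat_lit 94) r1_142 r8_94 (nat_lit 0) (nat_lit 19611998) (nat_lit 14059414) (nat_lit 0x1db198414) (nat_lit 341479368),
  Rx.mk (nat_lit 18) (nat_lit 2) (nat_lit 2) (nat_lit 0) (nat_lit 3) (nat_lit 143) (nat_lit 97) r1_143 r8_97 (nat_lit 0) (nat_lit 0) (nat_lit 9484367) (nat_lit 0x20000ee3e) (nat_lit 278269023),
  Rx.mk (nat_lit 146) (nat_lit 2) (nat_lit 2) (nat_lit 2) (nat_lit 7) (nat_lit 144) (nat_lit 99) r1_144 r8_99 (nat_lit 0) (nat_lit 0) (nat_lit 0) (nat_lit 0x20056d4f2) (nat_lit 268435456),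
  Rx.mk (nat_lit 150) (nat_lit 6) (nat_lit 2) (nat_lit 2) (nat_lit 7) (nat_lit 145) (nat_lit 100) r1_145 r8_100 (nat_lit 0) (nat_lit 0) (nat_lit 0) (nat_lit 0x20056d4f2) (nat_lit 268435456),
  Rx.mk (nat_lit 182) (nat_lit 6) (nat_lit 6) (nat_lit 2) (nat_lit 7) (nat_lit 146) (nat_lit 101) r1_146 r8_101 (nat_lit 0) (nat_lit 0) (nat_lit 0) (nat_lit 0x20056d4f2) (nat_lit 268435456),
  Rx.mk (nat_lit 192) (nat_lit 0) (nat_lit 0) (nat_lit 3) (nat_lit 4) (nat_lit 147) (nat_lit 91) r1_147 r8_91 (nat_lit 3978459) (nat_lit 10663373) (nat_lit 0) (nat_lit 0x18b957628) (nat_lit 406863088),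
  Rx.mk (nat_lit 194) (nat_lit 2) (nat_lit 0) (nat_lit 3) (nat_lit 5) (nat_lit 148) (nat_lit 95) r1_148 r8_95 (nat_lit 0) (nat_lit 9657344) (nat_lit 0) (nat_lit 0x1ff57a838) (nat_lit 279131350),
  Rx.mk (nat_lit 210) (nat_lit 2) (nat_lit 2) (nat_lit 3) (nat_lit 7) (nat_lit 149) (nat_lit 98) r1_149 r8_98 (nat_lit 0) (nat_lit 0) (nat_lit 0) (nat_lit 0x20056d4f2) (nat_lit 268435456),
  Rx.mk (nat_lit 216) (nat_lit 0) (nat_lit 3) (nat_lit 3) (nat_lit 6) (nat_lit 150) (nat_lit 92) r1_150 r8_92 (nat_lit 8196881) (nat_lit 0) (nat_lit 0) (nat_lit 0x1ec204662) (nat_lit 297938937),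
  Rx.mk (nat_lit 218) (nat_lit 2) (nat_lit 3) (nat_lit 3) (nat_lit 7) (nat_lit 151) (nat_lit 96) r1_151 r8_96 (nat_lit 0) (nat_lit 0) (nat_lit 0) (nat_lit 0x20056d4f2) (nat_lit 268435456),
  Rx.mk (nat_lit 219) (nat_lit 3) (nat_lit 3) (nat_lit 3) (nat_lit 7) (nat_lit 152) (nat_lit 93) r1_152 r8_93 (nat_lit 0) (nat_lit 0) (nat_lit 0) (nat_lit 0x20056d4f2) (nat_lit 268435456)]
noncomputable def e14_16 : List Rx := [
  Rx.mk (nat_lit 0) (nat_lit 0) (nat_lit 0) (nat_lit 0) (nat_lit 0) (nat_lit 131) (nat_lit 15) r1_131 r8_15 (nat_lit 5200936) (nat_lit 16284288) (nat_lit 12970436) (nat_lit 0x1431ccdd8) (nat_lit 503628066),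
  Rx.mk (nat_lit 2) (nat_lit 2) (nat_lit 0) (nat_lit 0) (nat_lit 1) (nat_lit 132) (nat_lit 16) r1_132 r8_16 (nat_lit 0) (nat_lit 22083687) (nat_lit 19111015) (nat_lit 0x1d7134e54) (nat_lit 353280508),
  Rx.mk (nat_lit 18) (nat_lit 2) (nat_lit 2) (nat_lit 0) (nat_lit 3) (nat_lit 133) (nat_lit 17) r1_133 r8_17 (nat_lit 0) (nat_lit 0) (nat_lit 6904608) (nat_lit 0x20290cb56) (nat_lit 273020764),
  Rx.mk (nat_lit 64) (nat_lit 0) (nat_lit 0) (nat_lit 1) (nat_lit 4) (nat_lit 134) (nat_lit 18) r1_134 r8_18 (nat_lit 9122221) (nat_lit 29107008) (nat_lit 0) (nat_lit 0x1d0963e24) (nat_lit 357196735),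
  Rx.mk (nat_lit 66) (nat_lit 2) (nat_lit 0) (nat_lit 1) (nat_lit 5) (nat_lit 135) (nat_lit 19) r1_135 r8_19 (nat_lit 0) (nat_lit 10065192) (nat_lit 0) (nat_lit 0x1ff9d2c5a) (nat_lit 279255198),
  Rx.mk (nat_lit 82) (nat_lit 2) (nat_lit 2) (nat_lit 1) (nat_lit 7) (nat_lit 136) (nat_lit 20) r1_136 r8_20 (nat_lit 0) (nat_lit 0) (nat_lit 0) (nat_lit 0x20056d4f2) (nat_lit 268435456),
  Rx.mk (nat_lit 146) (nat_lit 2) (nat_lit 2) (nat_lit 2) (nat_lit 7) (nat_lit 137) (nat_lit 24) r1_137 r8_24 (nat_lit 0) (nat_lit 0) (nat_lit 0) (nat_lit 0x20056d4f2) (nat_lit 268435456),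
  Rx.mk (nat_lit 192) (nat_lit 0) (nat_lit 0) (nat_lit 3) (nat_lit 4) (nat_lit 138) (nat_lit 21) r1_138 r8_21 (nat_lit 9541451) (nat_lit 20913238) (nat_lit 0) (nat_lit 0x1e0c4cea0) (nat_lit 332249895),
  Rx.mk (nat_lit 216) (nat_lit 0) (nat_lit 3) (nat_lit 3) (nat_lit 6) (nat_lit 139) (nat_lit 22) r1_139 r8_22 (nat_lit 8599271) (nat_lit 0) (nat_lit 0) (nat_lit 0x1fb1e00d2) (nat_lit 282498427),
  Rx.mk (nat_lit 219) (nat_lit 3) (nat_lit 3) (nat_lit 3) (nat_lit 7) (nat_lit 140) (nat_lit 23) r1_140 r8_23 (nat_lit 0) (nat_lit 0) (nat_lit 0) (nat_lit 0x20056d4f2) (nat_lit 268435456)]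
noncomputable def e14_17 : List Rx := [
  Rx.mk (nat_lit 64) (nat_lit 0) (nat_lit 0) (nat_lit 1) (nat_lit 4) (nat_lit 269) (nat_lit 83) r1_269 r9_83 (nat_lit 10429633) (nat_lit 50589702) (nat_lit 0) (nat_lit 0x1c8842fca) (nat_lit 388554141),
  Rx.mk (nat_lit 66) (nat_lit 2) (nat_lit 0) (nat_lit 1) (nat_lit 5) (nat_lit 270) (nat_lit 84) r1_270 r9_84 (nat_lit 0) (nat_lit 9484367) (nat_lit 0) (nat_lit 0x20056d4f2) (nat_lit 277919823),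
  Rx.mk (nat_lit 82) (nat_lit 2) (nat_lit 2) (nat_lit 1) (nat_lit 7) (nat_lit 271) (nat_lit 85) r1_271 r9_85 (nat_lit 0) (nat_lit 0) (nat_lit 0) (nat_lit 0x20056d4f2) (nat_lit 268435456)]
noncomputable def e14_18 : List Rx := [
  Rx.mk (nat_lit 192) (nat_lit 0) (nat_lit 0) (nat_lit 3) (nat_lit 4) (nat_lit 50) (nat_lit 16) r1_50 r4_16 (nat_lit 4415399) (nat_lit 14713705) (nat_lit 0) (nat_lit 0x1df5a2f24) (nat_lit 322395360),
  Rx.mk (nat_lit 194) (nat_lit 2) (nat_lit 0) (nat_lit 3) (nat_lit 5) (nat_lit 51) (nat_lit 17) r1_51 r4_17 (nat_lit 0) (nat_lit 7667538) (nat_lit 0) (nat_lit 0x2056e0442) (nat_lit 270816144),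
  Rx.mk (nat_lit 210) (nat_lit 2) (nat_lit 2) (nat_lit 3) (nat_lit 7) (nat_lit 52) (nat_lit 20) r1_52 r4_20 (nat_lit 0) (nat_lit 0) (nat_lit 0) (nat_lit 0x218b1a504) (nat_lit 243353006),
  Rx.mk (nat_lit 216) (nat_lit 0) (nat_lit 3) (nat_lit 3) (nat_lit 6) (nat_lit 53) (nat_lit 18) r1_53 r4_18 (nat_lit 4829277) (nat_lit 0) (nat_lit 0) (nat_lit 0x1fc618c5c) (nat_lit 277393433),
  Rx.mk (nat_lit 218) (nat_lit 2) (nat_lit 3) (nat_lit 3) (nat_lit 7) (nat_lit 54) (nat_lit 19) r1_54 r4_19 (nat_lit 0) (nat_lit 0) (nat_lit 0) (nat_lit 0x204cb4824) (nat_lit 263807506),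
  Rx.mk (nat_lit 472) (nat_lit 0) (nat_lit 3) (nat_lit 7) (nat_lit 6) (nat_lit 55) (nat_lit 14) r1_55 r4_14 (nat_lit 4677671) (nat_lit 0) (nat_lit 0) (nat_lit 0x2069dbd26) (nat_lit 266600427),
  Rx.mk (nat_lit 475) (nat_lit 3) (nat_lit 3) (nat_lit 7) (nat_lit 7) (nat_lit 56) (nat_lit 15) r1_56 r4_15 (nat_lit 0) (nat_lit 0) (nat_lit 0) (nat_lit 0x206888b4a) (nat_lit 262011206),
  Rx.mk (nat_lit 507) (nat_lit 3) (nat_lit 7) (nat_lit 7) (nat_lit 7) (nat_lit 57) (nat_lit 13) r1_57 r4_13 (nat_lit 0) (nat_lit 0) (nat_lit 0) (nat_lit 0x209de56bc) (nat_lit 258574406)]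
noncomputable def e14_19 : List Rx := [
  Rx.mk (nat_lit 192) (nat_lit 0) (nat_lit 0) (nat_lit 3) (nat_lit 4) (nat_lit 161) (nat_lit 96) r1_161 r10_96 (nat_lit 419416) (nat_lit 835607) (nat_lit 0) (nat_lit 0x195be8716) (nat_lit 382608229),
  Rx.mk (nat_lit 194) (nat_lit 2) (nat_lit 0) (nat_lit 3) (nat_lit 5) (nat_lit 162) (nat_lit 98) r1_162 r10_98 (nat_lit 0) (nat_lit 9868051) (nat_lit 0) (nat_lit 0x1fe805770) (nat_lit 280217007),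
  Rx.mk (nat_lit 210) (nat_lit 2) (nat_lit 2) (nat_lit 3) (nat_lit 7) (nat_lit 163) (nat_lit 100) r1_163 r10_100 (nat_lit 0) (nat_lit 0) (nat_lit 0) (nat_lit 0x20361e1be) (nat_lit 265270956),
  Rx.mk (nat_lit 216) (nat_lit 0) (nat_lit 3) (nat_lit 3) (nat_lit 6) (nat_lit 164) (nat_lit 97) r1_164 r10_97 (nat_lit 8157982) (nat_lit 0) (nat_lit 0) (nat_lit 0x1c3c07fca) (nat_lit 340752588),
  Rx.mk (nat_lit 218) (nat_lit 2) (nat_lit 3) (nat_lit 3) (nat_lit 7) (nat_lit 165) (nat_lit 99) r1_165 r10_99 (nat_lit 0) (nat_lit 0) (nat_lit 0) (nat_lit 0x20056d4f2) (nat_lit 268435456)]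
noncomputable def e14_20 : List Rx := [
  Rx.mk (nat_lit 192) (nat_lit 0) (nat_lit 0) (nat_lit 3) (nat_lit 4) (nat_lit 234) (nat_lit 107) r1_234 r11_107 (nat_lit 4901515) (nat_lit 35202404) (nat_lit 0) (nat_lit 0x1f42f4ad8) (nat_lit 321308525),
  Rx.mk (nat_lit 194) (nat_lit 2) (nat_lit 0) (nat_lit 3) (nat_lit 5) (nat_lit 235) (nat_lit 111) r1_235 r11_111 (nat_lit 0) (nat_lit 9603706) (nat_lit 0) (nat_lit 0x2014202e2) (nat_lit 277079262),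
  Rx.mk (nat_lit 210) (nat_lit 2) (nat_lit 2) (nat_lit 3) (nat_lit 7) (nat_lit 236) (nat_lit 112) r1_236 r11_112 (nat_lit 0) (nat_lit 0) (nat_lit 0) (nat_lit 0x2166093be) (nat_lit 245732256),
  Rx.mk (nat_lit 448) (nat_lit 0) (nat_lit 0) (nat_lit 7) (nat_lit 4) (nat_lit 237) (nat_lit 108) r1_237 r11_108 (nat_lit 8059474) (nat_lit 11055571) (nat_lit 0) (nat_lit 0x1f5e71306) (nat_lit 298517051),
  Rx.mk (nat_lit 472) (nat_lit 0) (nat_lit 3) (nat_lit 7) (nat_lit 6) (nat_lit 238) (nat_lit 109) r1_238 r11_109 (nat_lit 9484367) (nat_lit 0) (nat_lit 0) (nat_lit 0x20056d4f2) (nat_lit 277919823),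
  Rx.mk (nat_lit 475) (nat_lit 3) (nat_lit 3) (nat_lit 7) (nat_lit 7) (nat_lit 239) (nat_lit 110) r1_239 r11_110 (nat_lit 0) (nat_lit 0) (nat_lit 0) (nat_lit 0x20056d4f2) (nat_lit 268435456)]
noncomputable def e14_21 : List Rx := [
  Rx.mk (nat_lit 64) (nat_lit 0) (nat_lit 0) (nat_lit 1) (nat_lit 4) (nat_lit 262) (nat_lit 160) r1_262 r9_160 (nat_lit 32489931) (nat_lit 13133979) (nat_lit 0) (nat_lit 0x1939dcef6) (nat_lit 429324366),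
  Rx.mk (nat_lit 65) (nat_lit 1) (nat_lit 0) (nat_lit 1) (nat_lit 5) (nat_lit 263) (nat_lit 161) r1_263 r9_161 (nat_lit 0) (nat_lit 9869976) (nat_lit 0) (nat_lit 0x1feb4a80e) (nat_lit 280007182),
  Rx.mk (nat_lit 66) (nat_lit 2) (nat_lit 0) (nat_lit 1) (nat_lit 5) (nat_lit 264) (nat_lit 162) r1_264 r9_162 (nat_lit 0) (nat_lit 9484367) (nat_lit 0) (nat_lit 0x20056d4f2) (nat_lit 277919823),
  Rx.mk (nat_lit 72) (nat_lit 0) (nat_lit 1) (nat_lit 1) (nat_lit 6) (nat_lit 265) (nat_lit 163) r1_265 r9_163 (nat_lit 9484367) (nat_lit 0) (nat_lit 0) (nat_lit 0x1fe666b26) (nat_lit 279942473),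
  Rx.mk (nat_lit 73) (nat_lit 1) (nat_lit 1) (nat_lit 1) (nat_lit 7) (nat_lit 266) (nat_lit 164) r1_266 r9_164 (nat_lit 0) (nat_lit 0) (nat_lit 0) (nat_lit 0x20056d4f2) (nat_lit 268435456),
  Rx.mk (nat_lit 74) (nat_lit 2) (nat_lit 1) (nat_lit 1) (nat_lit 7) (nat_lit 267) (nat_lit 165) r1_267 r9_165 (nat_lit 0) (nat_lit 0) (nat_lit 0) (nat_lit 0x20056d4f2) (nat_lit 268435456),
  Rx.mk (nat_lit 82) (nat_lit 2) (nat_lit 2) (nat_lit 1) (nat_lit 7) (nat_lit 268) (nat_lit 166) r1_268 r9_166 (nat_lit 0) (nat_lit 0) (nat_lit 0) (nat_lit 0x20056d4f2) (nat_lit 268435456)]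
noncomputable def e14_22 : List Rx := [
  Rx.mk (nat_lit 265) (nat_lit 1) (nat_lit 1) (nat_lit 4) (nat_lit 3) (nat_lit 252) (nat_lit 282) r1_252 r0_282 (nat_lit 0) (nat_lit 0) (nat_lit 168759698) (nat_lit 0x1fff69344) (nat_lit 437235604),
  Rx.mk (nat_lit 321) (nat_lit 1) (nat_lit 0) (nat_lit 5) (nat_lit 5) (nat_lit 253) (nat_lit 283) r1_253 r0_283 (nat_lit 0) (nat_lit 8873187) (nat_lit 0) (nat_lit 0x1ed1d1158) (nat_lit 297579593),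
  Rx.mk (nat_lit 329) (nat_lit 1) (nat_lit 1) (nat_lit 5) (nat_lit 7) (nat_lit 254) (nat_lit 284) r1_254 r0_284 (nat_lit 0) (nat_lit 0) (nat_lit 0) (nat_lit 0x1f99bebe8) (nat_lit 275482756)]
noncomputable def e14_23 : List Rx := [
  Rx.mk (nat_lit 265) (nat_lit 1) (nat_lit 1) (nat_lit 4) (nat_lit 3) (nat_lit 278) (nat_lit 278) r1_278 r1_278 (nat_lit 0) (nat_lit 0) (nat_lit 25554718) (nat_lit 0x208a3575c) (nat_lit 285374374),
  Rx.mk (nat_lit 329) (nat_lit 1) (nat_lit 1) (nat_lit 5) (nat_lit 7) (nat_lit 279) (nat_lit 279) r1_279 r1_279 (nat_lit 0) (nat_lit 0) (nat_lit 0) (nat_lit 0x20056d4f2) (nat_lit 268435456)]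
noncomputable def e14_24 : List Rx := [
  Rx.mk (nat_lit 257) (nat_lit 1) (nat_lit 0) (nat_lit 4) (nat_lit 1) (nat_lit 297) (nat_lit 293) r1_297 r4_293 (nat_lit 0) (nat_lit 7964941) (nat_lit 37486881) (nat_lit 0x1e2447636) (nat_lit 345644678),
  Rx.mk (nat_lit 265) (nat_lit 1) (nat_lit 1) (nat_lit 4) (nat_lit 3) (nat_lit 298) (nat_lit 294) r1_298 r4_294 (nat_lit 0) (nat_lit 0) (nat_lit 64041447) (nat_lit 0x1ecae2630) (nat_lit 353130703),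
  Rx.mk (nat_lit 281) (nat_lit 1) (nat_lit 3) (nat_lit 4) (nat_lit 3) (nat_lit 299) (nat_lit 295) r1_299 r4_295 (nat_lit 0) (nat_lit 0) (nat_lit 9484367) (nat_lit 0x204029028) (nat_lit 274104223),
  Rx.mk (nat_lit 321) (nat_lit 1) (nat_lit 0) (nat_lit 5) (nat_lit 5) (nat_lit 300) (nat_lit 296) r1_300 r4_296 (nat_lit 0) (nat_lit 8498519) (nat_lit 0) (nat_lit 0x2004215b2) (nat_lit 277012825),
  Rx.mk (nat_lit 329) (nat_lit 1) (nat_lit 1) (nat_lit 5) (nat_lit 7) (nat_lit 301) (nat_lit 297) r1_301 r4_297 (nat_lit 0) (nat_lit 0) (nat_lit 0) (nat_lit 0x203c80264) (nat_lit 264857406),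
  Rx.mk (nat_lit 345) (nat_lit 1) (nat_lit 3) (nat_lit 5) (nat_lit 7) (nat_lit 302) (nat_lit 298) r1_302 r4_298 (nat_lit 0) (nat_lit 0) (nat_lit 0) (nat_lit 0x201adc162) (nat_lit 267040306)]
noncomputable def e14_25 : List Rx := [
  Rx.mk (nat_lit 321) (nat_lit 1) (nat_lit 0) (nat_lit 5) (nat_lit 5) (nat_lit 256) (nat_lit 221) r1_256 r7_221 (nat_lit 0) (nat_lit 9484367) (nat_lit 0) (nat_lit 0x1ed793e56) (nat_lit 297812473),
  Rx.mk (nat_lit 329) (nat_lit 1) (nat_lit 1) (nat_lit 5) (nat_lit 7) (nat_lit 257) (nat_lit 222) r1_257 r7_222 (nat_lit 0) (nat_lit 0) (nat_lit 0) (nat_lit 0x1fb224e26) (nat_lit 273879356)]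
noncomputable def e14_26 : List Rx := [
  Rx.mk (nat_lit 329) (nat_lit 1) (nat_lit 1) (nat_lit 5) (nat_lit 7) (nat_lit 286) (nat_lit 180) r1_286 r8_180 (nat_lit 0) (nat_lit 0) (nat_lit 0) (nat_lit 0x20056d4f2) (nat_lit 268435456)]
noncomputable def e14_27 : List Rx := [
  Rx.mk (nat_lit 65) (nat_lit 1) (nat_lit 0) (nat_lit 1) (nat_lit 5) (nat_lit 274) (nat_lit 316) r1_274 r8_316 (nat_lit 0) (nat_lit 9484367) (nat_lit 0) (nat_lit 0x1fcee3b0c) (nat_lit 281479073),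
  Rx.mk (nat_lit 73) (nat_lit 1) (nat_lit 1) (nat_lit 1) (nat_lit 7) (nat_lit 275) (nat_lit 317) r1_275 r8_317 (nat_lit 0) (nat_lit 0) (nat_lit 0) (nat_lit 0x20056d4f2) (nat_lit 268435456),
  Rx.mk (nat_lit 321) (nat_lit 1) (nat_lit 0) (nat_lit 5) (nat_lit 5) (nat_lit 276) (nat_lit 318) r1_276 r8_318 (nat_lit 0) (nat_lit 9484367) (nat_lit 0) (nat_lit 0x1fd832dac) (nat_lit 280871973),
  Rx.mk (nat_lit 329) (nat_lit 1) (nat_lit 1) (nat_lit 5) (nat_lit 7) (nat_lit 277) (nat_lit 319) r1_277 r8_319 (nat_lit 0) (nat_lit 0) (nat_lit 0) (nat_lit 0x20056d4f2) (nat_lit 268435456)]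
noncomputable def e14_28 : List Rx := [
  Rx.mk (nat_lit 321) (nat_lit 1) (nat_lit 0) (nat_lit 5) (nat_lit 5) (nat_lit 307) (nat_lit 172) r1_307 r10_172 (nat_lit 0) (nat_lit 8852219) (nat_lit 0) (nat_lit 0x1ee1179aa) (nat_lit 296542475),
  Rx.mk (nat_lit 329) (nat_lit 1) (nat_lit 1) (nat_lit 5) (nat_lit 7) (nat_lit 308) (nat_lit 173) r1_308 r10_173 (nat_lit 0) (nat_lit 0) (nat_lit 0) (nat_lit 0x20056d4f2) (nat_lit 268435456),
  Rx.mk (nat_lit 345) (nat_lit 1) (nat_lit 3) (nat_lit 5) (nat_lit 7) (nat_lit 309) (nat_lit 174) r1_309 r10_174 (nat_lit 0) (nat_lit 0) (nat_lit 0) (nat_lit 0x20056d4f2) (nat_lit 268435456)]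
noncomputable def e14_29 : List Rx := [
  Rx.mk (nat_lit 257) (nat_lit 1) (nat_lit 0) (nat_lit 4) (nat_lit 1) (nat_lit 316) (nat_lit 183) r1_316 r11_183 (nat_lit 0) (nat_lit 12774047) (nat_lit 59178764) (nat_lit 0x1dfe512e2) (nat_lit 374667667),
  Rx.mk (nat_lit 265) (nat_lit 1) (nat_lit 1) (nat_lit 4) (nat_lit 3) (nat_lit 317) (nat_lit 186) r1_317 r11_186 (nat_lit 0) (nat_lit 0) (nat_lit 22776374) (nat_lit 0x1f59a92b0) (nat_lit 302473830),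
  Rx.mk (nat_lit 281) (nat_lit 1) (nat_lit 3) (nat_lit 4) (nat_lit 3) (nat_lit 318) (nat_lit 189) r1_318 r11_189 (nat_lit 0) (nat_lit 0) (nat_lit 9484367) (nat_lit 0x20056d4f2) (nat_lit 277919823),
  Rx.mk (nat_lit 321) (nat_lit 1) (nat_lit 0) (nat_lit 5) (nat_lit 5) (nat_lit 319) (nat_lit 184) r1_319 r11_184 (nat_lit 0) (nat_lit 9484367) (nat_lit 0) (nat_lit 0x20056d4f2) (nat_lit 277919823),
  Rx.mk (nat_lit 329) (nat_lit 1) (nat_lit 1) (nat_lit 5) (nat_lit 7) (nat_lit 320) (nat_lit 187) r1_320 r11_187 (nat_lit 0) (nat_lit 0) (nat_lit 0) (nat_lit 0x20056d4f2) (nat_lit 268435456),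
  Rx.mk (nat_lit 345) (nat_lit 1) (nat_lit 3) (nat_lit 5) (nat_lit 7) (nat_lit 321) (nat_lit 190) r1_321 r11_190 (nat_lit 0) (nat_lit 0) (nat_lit 0) (nat_lit 0x20056d4f2) (nat_lit 268435456),
  Rx.mk (nat_lit 449) (nat_lit 1) (nat_lit 0) (nat_lit 7) (nat_lit 5) (nat_lit 322) (nat_lit 185) r1_322 r11_185 (nat_lit 0) (nat_lit 7557539) (nat_lit 0) (nat_lit 0x202295dd6) (nat_lit 274094945),
  Rx.mk (nat_lit 457) (nat_lit 1) (nat_lit 1) (nat_lit 7) (nat_lit 7) (nat_lit 323) (nat_lit 188) r1_323 r11_188 (nat_lit 0) (nat_lit 0) (nat_lit 0) (nat_lit 0x214231770) (nat_lit 248034356)]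
noncomputable def e14_30 : List Rx := [
  Rx.mk (nat_lit 216) (nat_lit 0) (nat_lit 3) (nat_lit 3) (nat_lit 6) (nat_lit 58) (nat_lit 11) r1_58 r5_11 (nat_lit 1941131) (nat_lit 0) (nat_lit 0) (nat_lit 0x1f2be95a0) (nat_lit 284641187),
  Rx.mk (nat_lit 217) (nat_lit 1) (nat_lit 3) (nat_lit 3) (nat_lit 7) (nat_lit 59) (nat_lit 12) r1_59 r5_12 (nat_lit 0) (nat_lit 0) (nat_lit 0) (nat_lit 0x225850dde) (nat_lit 230233306),
  Rx.mk (nat_lit 218) (nat_lit 2) (nat_lit 3) (nat_lit 3) (nat_lit 7) (nat_lit 60) (nat_lit 13) r1_60 r5_13 (nat_lit 0) (nat_lit 0) (nat_lit 0) (nat_lit 0x207c318cc) (nat_lit 260737856),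
  Rx.mk (nat_lit 472) (nat_lit 0) (nat_lit 3) (nat_lit 7) (nat_lit 6) (nat_lit 61) (nat_lit 9) r1_61 r5_9 (nat_lit 1772773) (nat_lit 0) (nat_lit 0) (nat_lit 0x1fd3538a4) (nat_lit 273424379),
  Rx.mk (nat_lit 473) (nat_lit 1) (nat_lit 3) (nat_lit 7) (nat_lit 7) (nat_lit 62) (nat_lit 10) r1_62 r5_10 (nat_lit 0) (nat_lit 0) (nat_lit 0) (nat_lit 0x21704db40) (nat_lit 245082656),
  Rx.mk (nat_lit 504) (nat_lit 0) (nat_lit 7) (nat_lit 7) (nat_lit 6) (nat_lit 63) (nat_lit 6) r1_63 r5_6 (nat_lit 2086460) (nat_lit 0) (nat_lit 0) (nat_lit 0x1d06deeba) (nat_lit 321185666),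
  Rx.mk (nat_lit 505) (nat_lit 1) (nat_lit 7) (nat_lit 7) (nat_lit 7) (nat_lit 64) (nat_lit 7) r1_64 r5_7 (nat_lit 0) (nat_lit 0) (nat_lit 0) (nat_lit 0x1fca880e4) (nat_lit 272277656),
  Rx.mk (nat_lit 507) (nat_lit 3) (nat_lit 7) (nat_lit 7) (nat_lit 7) (nat_lit 65) (nat_lit 8) r1_65 r5_8 (nat_lit 0) (nat_lit 0) (nat_lit 0) (nat_lit 0x1ff97277e) (nat_lit 269205106)]
noncomputable def e14_31 : List Rx := [
  Rx.mk (nat_lit 216) (nat_lit 0) (nat_lit 3) (nat_lit 3) (nat_lit 6) (nat_lit 166) (nat_lit 2) r1_166 r11_2 (nat_lit 9532976) (nat_lit 0) (nat_lit 0) (nat_lit 0x1fc3f2f7c) (nat_lit 282249032),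
  Rx.mk (nat_lit 217) (nat_lit 1) (nat_lit 3) (nat_lit 3) (nat_lit 7) (nat_lit 167) (nat_lit 3) r1_167 r11_3 (nat_lit 0) (nat_lit 0) (nat_lit 0) (nat_lit 0x20056d4f2) (nat_lit 268435456),
  Rx.mk (nat_lit 218) (nat_lit 2) (nat_lit 3) (nat_lit 3) (nat_lit 7) (nat_lit 168) (nat_lit 4) r1_168 r11_4 (nat_lit 0) (nat_lit 0) (nat_lit 0) (nat_lit 0x20056d4f2) (nat_lit 268435456)]
noncomputable def e14_32 : List Rx := [
  Rx.mk (nat_lit 281) (nat_lit 1) (nat_lit 3) (nat_lit 4) (nat_lit 3) (nat_lit 240) (nat_lit 299) r1_240 r6_299 (nat_lit 0) (nat_lit 0) (nat_lit 31922) (nat_lit 0x20e6230aa) (nat_lit 253759128),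
  Rx.mk (nat_lit 313) (nat_lit 1) (nat_lit 7) (nat_lit 4) (nat_lit 3) (nat_lit 241) (nat_lit 298) r1_241 r6_298 (nat_lit 0) (nat_lit 0) (nat_lit 9819301) (nat_lit 0x210ca9f76) (nat_lit 261242507)]
noncomputable def e14_33 : List Rx := [
  Rx.mk (nat_lit 281) (nat_lit 1) (nat_lit 3) (nat_lit 4) (nat_lit 3) (nat_lit 303) (nat_lit 273) r1_303 r5_273 (nat_lit 0) (nat_lit 0) (nat_lit 5178035) (nat_lit 0x21b74b3ee) (nat_lit 245703641),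
  Rx.mk (nat_lit 345) (nat_lit 1) (nat_lit 3) (nat_lit 5) (nat_lit 7) (nat_lit 304) (nat_lit 274) r1_304 r5_274 (nat_lit 0) (nat_lit 0) (nat_lit 0) (nat_lit 0x23e9a944c) (nat_lit 204555456)]
noncomputable def e14_34 : List Rx := [
  Rx.mk (nat_lit 345) (nat_lit 1) (nat_lit 3) (nat_lit 5) (nat_lit 7) (nat_lit 310) (nat_lit 338) r1_310 r11_338 (nat_lit 0) (nat_lit 0) (nat_lit 0) (nat_lit 0x20056d4f2) (nat_lit 268435456)]
noncomputable def e14_35 : List Rx := [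
  Rx.mk (nat_lit 313) (nat_lit 1) (nat_lit 7) (nat_lit 4) (nat_lit 3) (nat_lit 88) (nat_lit 57) r1_88 r6_57 (nat_lit 0) (nat_lit 0) (nat_lit 4999611) (nat_lit 0x209b5945c) (nat_lit 263730017),
  Rx.mk (nat_lit 473) (nat_lit 1) (nat_lit 3) (nat_lit 7) (nat_lit 7) (nat_lit 89) (nat_lit 56) r1_89 r6_56 (nat_lit 0) (nat_lit 0) (nat_lit 0) (nat_lit 0x250e7ac5c) (nat_lit 185808906),
  Rx.mk (nat_lit 505) (nat_lit 1) (nat_lit 7) (nat_lit 7) (nat_lit 7) (nat_lit 90) (nat_lit 58) r1_90 r6_58 (nat_lit 0) (nat_lit 0) (nat_lit 0) (nat_lit 0x21b4e08f2) (nat_lit 240691706)]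
noncomputable def e14_36 : List Rx := [
  Rx.mk (nat_lit 281) (nat_lit 1) (nat_lit 3) (nat_lit 4) (nat_lit 3) (nat_lit 249) (nat_lit 109) r1_249 r12_109 (nat_lit 0) (nat_lit 0) (nat_lit 21232) (nat_lit 0x2243b5f32) (nat_lit 231396038),
  Rx.mk (nat_lit 313) (nat_lit 1) (nat_lit 7) (nat_lit 4) (nat_lit 3) (nat_lit 250) (nat_lit 111) r1_250 r12_111 (nat_lit 0) (nat_lit 0) (nat_lit 7255466) (nat_lit 0x20ee82606) (nat_lit 260578772),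
  Rx.mk (nat_lit 473) (nat_lit 1) (nat_lit 3) (nat_lit 7) (nat_lit 7) (nat_lit 251) (nat_lit 110) r1_251 r12_110 (nat_lit 0) (nat_lit 0) (nat_lit 0) (nat_lit 0x2637ba8d2) (nat_lit 166787206)]
noncomputable def e14_37 : List Rx := [
  Rx.mk (nat_lit 289) (nat_lit 1) (nat_lit 4) (nat_lit 4) (nat_lit 1) (nat_lit 179) (nat_lit 269) r1_179 r0_269 (nat_lit 0) (nat_lit 6663) (nat_lit 224842397) (nat_lit 0x203c84418) (nat_lit 489417766),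
  Rx.mk (nat_lit 293) (nat_lit 5) (nat_lit 4) (nat_lit 4) (nat_lit 1) (nat_lit 180) (nat_lit 265) r1_180 r0_265 (nat_lit 0) (nat_lit 2915443) (nat_lit 27431001) (nat_lit 0x1aee862ac) (nat_lit 385035350),
  Rx.mk (nat_lit 297) (nat_lit 1) (nat_lit 5) (nat_lit 4) (nat_lit 3) (nat_lit 181) (nat_lit 270) r1_181 r0_270 (nat_lit 0) (nat_lit 0) (nat_lit 31547541) (nat_lit 0x20169be36) (nat_lit 298828947),
  Rx.mk (nat_lit 301) (nat_lit 5) (nat_lit 5) (nat_lit 4) (nat_lit 3) (nat_lit 182) (nat_lit 266) r1_182 r0_266 (nat_lit 0) (nat_lit 0) (nat_lit 13498567) (nat_lit 0x1febef980) (nat_lit 283586673),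
  Rx.mk (nat_lit 317) (nat_lit 5) (nat_lit 7) (nat_lit 4) (nat_lit 3) (nat_lit 183) (nat_lit 267) r1_183 r0_267 (nat_lit 0) (nat_lit 0) (nat_lit 116538040) (nat_lit 0x22883d93e) (nat_lit 343677296),
  Rx.mk (nat_lit 509) (nat_lit 5) (nat_lit 7) (nat_lit 7) (nat_lit 7) (nat_lit 184) (nat_lit 268) r1_184 r0_268 (nat_lit 0) (nat_lit 0) (nat_lit 0) (nat_lit 0x202a9392a) (nat_lit 265996306)]
noncomputable def e14_38 : List Rx := [
  Rx.mk (nat_lit 317) (nat_lit 5) (nat_lit 7) (nat_lit 4) (nat_lit 3) (nat_lit 69) (nat_lit 76) r1_69 r0_76 (nat_lit 0) (nat_lit 0) (nat_lit 7606073) (nat_lit 0x1f4683d84) (nat_lit 288573429),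
  Rx.mk (nat_lit 421) (nat_lit 5) (nat_lit 4) (nat_lit 6) (nat_lit 5) (nat_lit 70) (nat_lit 75) r1_70 r0_75 (nat_lit 0) (nat_lit 3064142) (nat_lit 0) (nat_lit 0x203e7efde) (nat_lit 267754448),
  Rx.mk (nat_lit 445) (nat_lit 5) (nat_lit 7) (nat_lit 6) (nat_lit 7) (nat_lit 71) (nat_lit 78) r1_71 r0_78 (nat_lit 0) (nat_lit 0) (nat_lit 0) (nat_lit 0x22d0de396) (nat_lit 222515206),
  Rx.mk (nat_lit 509) (nat_lit 5) (nat_lit 7) (nat_lit 7) (nat_lit 7) (nat_lit 72) (nat_lit 77) r1_72 r0_77 (nat_lit 0) (nat_lit 0) (nat_lit 0) (nat_lit 0x202d73a00) (nat_lit 265825656)]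
noncomputable def e14_39 : List Rx := [
  Rx.mk (nat_lit 293) (nat_lit 5) (nat_lit 4) (nat_lit 4) (nat_lit 1) (nat_lit 192) (nat_lit 381) r1_192 r7_381 (nat_lit 0) (nat_lit 4648863) (nat_lit 10430206) (nat_lit 0x1ba0815a6) (nat_lit 357965125),
  Rx.mk (nat_lit 301) (nat_lit 5) (nat_lit 5) (nat_lit 4) (nat_lit 3) (nat_lit 193) (nat_lit 382) r1_193 r7_382 (nat_lit 0) (nat_lit 0) (nat_lit 10636325) (nat_lit 0x1f952452e) (nat_lit 286423531),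
  Rx.mk (nat_lit 317) (nat_lit 5) (nat_lit 7) (nat_lit 4) (nat_lit 3) (nat_lit 194) (nat_lit 383) r1_194 r7_383 (nat_lit 0) (nat_lit 0) (nat_lit 77834362) (nat_lit 0x23c840ddc) (nat_lit 284519518),
  Rx.mk (nat_lit 421) (nat_lit 5) (nat_lit 4) (nat_lit 6) (nat_lit 5) (nat_lit 195) (nat_lit 385) r1_195 r7_385 (nat_lit 0) (nat_lit 4369240) (nat_lit 0) (nat_lit 0x20a61f4ea) (nat_lit 262415396),
  Rx.mk (nat_lit 429) (nat_lit 5) (nat_lit 5) (nat_lit 6) (nat_lit 7) (nat_lit 196) (nat_lit 386) r1_196 r7_386 (nat_lit 0) (nat_lit 0) (nat_lit 0) (nat_lit 0x203d18672) (nat_lit 264818306),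
  Rx.mk (nat_lit 445) (nat_lit 5) (nat_lit 7) (nat_lit 6) (nat_lit 7) (nat_lit 197) (nat_lit 387) r1_197 r7_387 (nat_lit 0) (nat_lit 0) (nat_lit 0) (nat_lit 0x203d18672) (nat_lit 264818306),
  Rx.mk (nat_lit 509) (nat_lit 5) (nat_lit 7) (nat_lit 7) (nat_lit 7) (nat_lit 198) (nat_lit 384) r1_198 r7_384 (nat_lit 0) (nat_lit 0) (nat_lit 0) (nat_lit 0x2186519be) (nat_lit 243665906)]
noncomputable def e14_40 : List Rx := [
  Rx.mk (nat_lit 182) (nat_lit 6) (nat_lit 6) (nat_lit 2) (nat_lit 7) (nat_lit 30) (nat_lit 81) r1_30 r2_81 (nat_lit 0) (nat_lit 0) (nat_lit 0) (nat_lit 0x20056d4f2) (nat_lit 268435456),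
  Rx.mk (nat_lit 316) (nat_lit 4) (nat_lit 7) (nat_lit 4) (nat_lit 2) (nat_lit 31) (nat_lit 76) r1_31 r2_76 (nat_lit 6163962) (nat_lit 0) (nat_lit 15142004) (nat_lit 0x1d3d18706) (nat_lit 336837272),
  Rx.mk (nat_lit 319) (nat_lit 7) (nat_lit 7) (nat_lit 4) (nat_lit 3) (nat_lit 32) (nat_lit 77) r1_32 r2_77 (nat_lit 0) (nat_lit 0) (nat_lit 10970796) (nat_lit 0x1fc4dd81a) (nat_lit 283625902),
  Rx.mk (nat_lit 420) (nat_lit 4) (nat_lit 4) (nat_lit 6) (nat_lit 4) (nat_lit 33) (nat_lit 75) r1_33 r2_75 (nat_lit 4874968) (nat_lit 9879272) (nat_lit 0) (nat_lit 0x1d2b216b0) (nat_lit 331468546),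
  Rx.mk (nat_lit 436) (nat_lit 4) (nat_lit 6) (nat_lit 6) (nat_lit 6) (nat_lit 34) (nat_lit 82) r1_34 r2_82 (nat_lit 7136584) (nat_lit 0) (nat_lit 0) (nat_lit 0x202b6b672) (nat_lit 273100490),
  Rx.mk (nat_lit 438) (nat_lit 6) (nat_lit 6) (nat_lit 6) (nat_lit 7) (nat_lit 35) (nat_lit 83) r1_35 r2_83 (nat_lit 0) (nat_lit 0) (nat_lit 0) (nat_lit 0x20056d4f2) (nat_lit 268435456),
  Rx.mk (nat_lit 444) (nat_lit 4) (nat_lit 7) (nat_lit 6) (nat_lit 6) (nat_lit 36) (nat_lit 79) r1_36 r2_79 (nat_lit 2049429) (nat_lit 0) (nat_lit 0) (nat_lit 0x23435871e) (nat_lit 217247935),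
  Rx.mk (nat_lit 447) (nat_lit 7) (nat_lit 7) (nat_lit 6) (nat_lit 7) (nat_lit 37) (nat_lit 80) r1_37 r2_80 (nat_lit 0) (nat_lit 0) (nat_lit 0) (nat_lit 0x20d1be4ac) (nat_lit 255245706),
  Rx.mk (nat_lit 511) (nat_lit 7) (nat_lit 7) (nat_lit 7) (nat_lit 7) (nat_lit 38) (nat_lit 78) r1_38 r2_78 (nat_lit 0) (nat_lit 0) (nat_lit 0) (nat_lit 0x20056d4f2) (nat_lit 268435456)]
noncomputable def e14_41 : List Rx := [
  Rx.mk (nat_lit 182) (nat_lit 6) (nat_lit 6) (nat_lit 2) (nat_lit 7) (nat_lit 169) (nat_lit 47) r1_169 r9_47 (nat_lit 0) (nat_lit 0) (nat_lit 0) (nat_lit 0x20056d4f2) (nat_lit 268435456),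
  Rx.mk (nat_lit 292) (nat_lit 4) (nat_lit 4) (nat_lit 4) (nat_lit 0) (nat_lit 170) (nat_lit 40) r1_170 r9_40 (nat_lit 7583710) (nat_lit 12914458) (nat_lit 20883973) (nat_lit 0x1304b68a4) (nat_lit 530531947),
  Rx.mk (nat_lit 316) (nat_lit 4) (nat_lit 7) (nat_lit 4) (nat_lit 2) (nat_lit 171) (nat_lit 42) r1_171 r9_42 (nat_lit 7078048) (nat_lit 0) (nat_lit 26762067) (nat_lit 0x1b49aa94e) (nat_lit 382508571),
  Rx.mk (nat_lit 319) (nat_lit 7) (nat_lit 7) (nat_lit 4) (nat_lit 3) (nat_lit 172) (nat_lit 43) r1_172 r9_43 (nat_lit 0) (nat_lit 0) (nat_lit 18834357) (nat_lit 0x1f586cafa) (nat_lit 298626363),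
  Rx.mk (nat_lit 420) (nat_lit 4) (nat_lit 4) (nat_lit 6) (nat_lit 4) (nat_lit 173) (nat_lit 41) r1_173 r9_41 (nat_lit 8685031) (nat_lit 13442990) (nat_lit 0) (nat_lit 0x1bbde0e6c) (nat_lit 363079977),
  Rx.mk (nat_lit 436) (nat_lit 4) (nat_lit 6) (nat_lit 6) (nat_lit 6) (nat_lit 174) (nat_lit 48) r1_174 r9_48 (nat_lit 9484367) (nat_lit 0) (nat_lit 0) (nat_lit 0x1ff744b14) (nat_lit 278840823),
  Rx.mk (nat_lit 438) (nat_lit 6) (nat_lit 6) (nat_lit 6) (nat_lit 7) (nat_lit 175) (nat_lit 49) r1_175 r9_49 (nat_lit 0) (nat_lit 0) (nat_lit 0) (nat_lit 0x20056d4f2) (nat_lit 268435456),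
  Rx.mk (nat_lit 444) (nat_lit 4) (nat_lit 7) (nat_lit 6) (nat_lit 6) (nat_lit 176) (nat_lit 45) r1_176 r9_45 (nat_lit 9484367) (nat_lit 0) (nat_lit 0) (nat_lit 0x20056d4f2) (nat_lit 277919823),
  Rx.mk (nat_lit 447) (nat_lit 7) (nat_lit 7) (nat_lit 6) (nat_lit 7) (nat_lit 177) (nat_lit 46) r1_177 r9_46 (nat_lit 0) (nat_lit 0) (nat_lit 0) (nat_lit 0x20056d4f2) (nat_lit 268435456),
  Rx.mk (nat_lit 511) (nat_lit 7) (nat_lit 7) (nat_lit 7) (nat_lit 7) (nat_lit 178) (nat_lit 44) r1_178 r9_44 (nat_lit 0) (nat_lit 0) (nat_lit 0) (nat_lit 0x1fe10856c) (nat_lit 270810856)]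
noncomputable def e14_42 : List Rx := [
  Rx.mk (nat_lit 182) (nat_lit 6) (nat_lit 6) (nat_lit 2) (nat_lit 7) (nat_lit 153) (nat_lit 1) r1_153 r9_1 (nat_lit 0) (nat_lit 0) (nat_lit 0) (nat_lit 0x20056d4f2) (nat_lit 268435456)]
noncomputable def e14_43 : List Rx := [
  Rx.mk (nat_lit 316) (nat_lit 4) (nat_lit 7) (nat_lit 4) (nat_lit 2) (nat_lit 73) (nat_lit 75) r1_73 r1_75 (nat_lit 4289994) (nat_lit 0) (nat_lit 12468754) (nat_lit 0x1cbb7b388) (nat_lit 340877904),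
  Rx.mk (nat_lit 317) (nat_lit 5) (nat_lit 7) (nat_lit 4) (nat_lit 3) (nat_lit 74) (nat_lit 76) r1_74 r1_76 (nat_lit 0) (nat_lit 0) (nat_lit 6511426) (nat_lit 0x202b6e89a) (nat_lit 272472332),
  Rx.mk (nat_lit 420) (nat_lit 4) (nat_lit 4) (nat_lit 6) (nat_lit 4) (nat_lit 75) (nat_lit 73) r1_75 r1_73 (nat_lit 4289994) (nat_lit 12468754) (nat_lit 0) (nat_lit 0x1cbb7b388) (nat_lit 340877904),
  Rx.mk (nat_lit 421) (nat_lit 5) (nat_lit 4) (nat_lit 6) (nat_lit 5) (nat_lit 76) (nat_lit 74) r1_76 r1_74 (nat_lit 0) (nat_lit 6511426) (nat_lit 0) (nat_lit 0x202b6e89a) (nat_lit 272472332),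
  Rx.mk (nat_lit 436) (nat_lit 4) (nat_lit 6) (nat_lit 6) (nat_lit 6) (nat_lit 77) (nat_lit 82) r1_77 r1_82 (nat_lit 6815319) (nat_lit 0) (nat_lit 0) (nat_lit 0x1fbcfc0e2) (nat_lit 279978825),
  Rx.mk (nat_lit 437) (nat_lit 5) (nat_lit 6) (nat_lit 6) (nat_lit 7) (nat_lit 78) (nat_lit 83) r1_78 r1_83 (nat_lit 0) (nat_lit 0) (nat_lit 0) (nat_lit 0x20056d4f2) (nat_lit 268435456),
  Rx.mk (nat_lit 438) (nat_lit 6) (nat_lit 6) (nat_lit 6) (nat_lit 7) (nat_lit 79) (nat_lit 84) r1_79 r1_84 (nat_lit 0) (nat_lit 0) (nat_lit 0) (nat_lit 0x20056d4f2) (nat_lit 268435456),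
  Rx.mk (nat_lit 444) (nat_lit 4) (nat_lit 7) (nat_lit 6) (nat_lit 6) (nat_lit 80) (nat_lit 80) r1_80 r1_80 (nat_lit 3053953) (nat_lit 0) (nat_lit 0) (nat_lit 0x21582474e) (nat_lit 249680159),
  Rx.mk (nat_lit 445) (nat_lit 5) (nat_lit 7) (nat_lit 6) (nat_lit 7) (nat_lit 81) (nat_lit 81) r1_81 r1_81 (nat_lit 0) (nat_lit 0) (nat_lit 0) (nat_lit 0x20f865d12) (nat_lit 252765156),
  Rx.mk (nat_lit 508) (nat_lit 4) (nat_lit 7) (nat_lit 7) (nat_lit 6) (nat_lit 82) (nat_lit 77) r1_82 r1_77 (nat_lit 6815319) (nat_lit 0) (nat_lit 0) (nat_lit 0x1fbcfc0e2) (nat_lit 279978825),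
  Rx.mk (nat_lit 509) (nat_lit 5) (nat_lit 7) (nat_lit 7) (nat_lit 7) (nat_lit 83) (nat_lit 78) r1_83 r1_78 (nat_lit 0) (nat_lit 0) (nat_lit 0) (nat_lit 0x20056d4f2) (nat_lit 268435456),
  Rx.mk (nat_lit 511) (nat_lit 7) (nat_lit 7) (nat_lit 7) (nat_lit 7) (nat_lit 84) (nat_lit 79) r1_84 r1_79 (nat_lit 0) (nat_lit 0) (nat_lit 0) (nat_lit 0x20056d4f2) (nat_lit 268435456)]
noncomputable def e14_44 : List Rx := [
  Rx.mk (nat_lit 292) (nat_lit 4) (nat_lit 4) (nat_lit 4) (nat_lit 0) (nat_lit 201) (nat_lit 283) r1_201 r8_283 (nat_lit 2297773) (nat_lit 7297896) (nat_lit 21867451) (nat_lit 0x122387504) (nat_lit 535543626),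
  Rx.mk (nat_lit 293) (nat_lit 5) (nat_lit 4) (nat_lit 4) (nat_lit 1) (nat_lit 202) (nat_lit 289) r1_202 r8_289 (nat_lit 0) (nat_lit 13214423) (nat_lit 10882942) (nat_lit 0x19da949de) (nat_lit 397122321),
  Rx.mk (nat_lit 301) (nat_lit 5) (nat_lit 5) (nat_lit 4) (nat_lit 3) (nat_lit 203) (nat_lit 290) r1_203 r8_290 (nat_lit 0) (nat_lit 0) (nat_lit 9931330) (nat_lit 0x1fe7e6424) (nat_lit 280291336),
  Rx.mk (nat_lit 316) (nat_lit 4) (nat_lit 7) (nat_lit 4) (nat_lit 2) (nat_lit 204) (nat_lit 284) r1_204 r8_284 (nat_lit 6929116) (nat_lit 0) (nat_lit 35547039) (nat_lit 0x1ae23a2dc) (nat_lit 398008261),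
  Rx.mk (nat_lit 317) (nat_lit 5) (nat_lit 7) (nat_lit 4) (nat_lit 3) (nat_lit 205) (nat_lit 291) r1_205 r8_291 (nat_lit 0) (nat_lit 0) (nat_lit 16360369) (nat_lit 0x207a02b46) (nat_lit 277234125),
  Rx.mk (nat_lit 420) (nat_lit 4) (nat_lit 4) (nat_lit 6) (nat_lit 4) (nat_lit 206) (nat_lit 286) r1_206 r8_286 (nat_lit 7735107) (nat_lit 11602876) (nat_lit 0) (nat_lit 0x1a7f00338) (nat_lit 381456989),
  Rx.mk (nat_lit 421) (nat_lit 5) (nat_lit 4) (nat_lit 6) (nat_lit 5) (nat_lit 207) (nat_lit 293) r1_207 r8_293 (nat_lit 0) (nat_lit 9484367) (nat_lit 0) (nat_lit 0x20056d4f2) (nat_lit 277919823),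
  Rx.mk (nat_lit 429) (nat_lit 5) (nat_lit 5) (nat_lit 6) (nat_lit 7) (nat_lit 208) (nat_lit 294) r1_208 r8_294 (nat_lit 0) (nat_lit 0) (nat_lit 0) (nat_lit 0x20056d4f2) (nat_lit 268435456),
  Rx.mk (nat_lit 436) (nat_lit 4) (nat_lit 6) (nat_lit 6) (nat_lit 6) (nat_lit 209) (nat_lit 288) r1_209 r8_288 (nat_lit 10031145) (nat_lit 0) (nat_lit 0) (nat_lit 0x1fcf46e78) (nat_lit 282000201),
  Rx.mk (nat_lit 437) (nat_lit 5) (nat_lit 6) (nat_lit 6) (nat_lit 7) (nat_lit 210) (nat_lit 296) r1_210 r8_296 (nat_lit 0) (nat_lit 0) (nat_lit 0) (nat_lit 0x20056d4f2) (nat_lit 268435456),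
  Rx.mk (nat_lit 438) (nat_lit 6) (nat_lit 6) (nat_lit 6) (nat_lit 7) (nat_lit 211) (nat_lit 298) r1_211 r8_298 (nat_lit 0) (nat_lit 0) (nat_lit 0) (nat_lit 0x20056d4f2) (nat_lit 268435456),
  Rx.mk (nat_lit 444) (nat_lit 4) (nat_lit 7) (nat_lit 6) (nat_lit 6) (nat_lit 212) (nat_lit 287) r1_212 r8_287 (nat_lit 9484367) (nat_lit 0) (nat_lit 0) (nat_lit 0x20056d4f2) (nat_lit 277919823),
  Rx.mk (nat_lit 445) (nat_lit 5) (nat_lit 7) (nat_lit 6) (nat_lit 7) (nat_lit 213) (nat_lit 295) r1_213 r8_295 (nat_lit 0) (nat_lit 0) (nat_lit 0) (nat_lit 0x20056d4f2) (nat_lit 268435456),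
  Rx.mk (nat_lit 508) (nat_lit 4) (nat_lit 7) (nat_lit 7) (nat_lit 6) (nat_lit 214) (nat_lit 285) r1_214 r8_285 (nat_lit 8744868) (nat_lit 0) (nat_lit 0) (nat_lit 0x1d6cc99f0) (nat_lit 321116524),
  Rx.mk (nat_lit 509) (nat_lit 5) (nat_lit 7) (nat_lit 7) (nat_lit 7) (nat_lit 215) (nat_lit 292) r1_215 r8_292 (nat_lit 0) (nat_lit 0) (nat_lit 0) (nat_lit 0x20ec457d0) (nat_lit 253540856),
  Rx.mk (nat_lit 511) (nat_lit 7) (nat_lit 7) (nat_lit 7) (nat_lit 7) (nat_lit 216) (nat_lit 297) r1_216 r8_297 (nat_lit 0) (nat_lit 0) (nat_lit 0) (nat_lit 0x1fa0d60fc) (nat_lit 275021756)]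
noncomputable def e14_45 : List Rx := [
  Rx.mk (nat_lit 297) (nat_lit 1) (nat_lit 5) (nat_lit 4) (nat_lit 3) (nat_lit 185) (nat_lit 273) r1_185 r1_273 (nat_lit 0) (nat_lit 0) (nat_lit 9484367) (nat_lit 0x203e7d44a) (nat_lit 274207873),
  Rx.mk (nat_lit 301) (nat_lit 5) (nat_lit 5) (nat_lit 4) (nat_lit 3) (nat_lit 186) (nat_lit 272) r1_186 r1_272 (nat_lit 0) (nat_lit 0) (nat_lit 11144807) (nat_lit 0x1f7f36adc) (nat_lit 288382313)]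
noncomputable def e14_46 : List Rx := [
  Rx.mk (nat_lit 265) (nat_lit 1) (nat_lit 1) (nat_lit 4) (nat_lit 3) (nat_lit 280) (nat_lit 298) r1_280 r2_298 (nat_lit 0) (nat_lit 0) (nat_lit 41135547) (nat_lit 0x20165832a) (nat_lit 308445753),
  Rx.mk (nat_lit 297) (nat_lit 1) (nat_lit 5) (nat_lit 4) (nat_lit 3) (nat_lit 281) (nat_lit 297) r1_281 r2_297 (nat_lit 0) (nat_lit 0) (nat_lit 10175953) (nat_lit 0x1fe89b2e8) (nat_lit 280481809),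
  Rx.mk (nat_lit 301) (nat_lit 5) (nat_lit 5) (nat_lit 4) (nat_lit 3) (nat_lit 282) (nat_lit 295) r1_282 r2_295 (nat_lit 0) (nat_lit 0) (nat_lit 9484367) (nat_lit 0x1fd510a98) (nat_lit 281076273),
  Rx.mk (nat_lit 329) (nat_lit 1) (nat_lit 1) (nat_lit 5) (nat_lit 7) (nat_lit 283) (nat_lit 300) r1_283 r2_300 (nat_lit 0) (nat_lit 0) (nat_lit 0) (nat_lit 0x20056d4f2) (nat_lit 268435456),
  Rx.mk (nat_lit 361) (nat_lit 1) (nat_lit 5) (nat_lit 5) (nat_lit 7) (nat_lit 284) (nat_lit 299) r1_284 r2_299 (nat_lit 0) (nat_lit 0) (nat_lit 0) (nat_lit 0x20056d4f2) (nat_lit 268435456),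
  Rx.mk (nat_lit 365) (nat_lit 5) (nat_lit 5) (nat_lit 5) (nat_lit 7) (nat_lit 285) (nat_lit 296) r1_285 r2_296 (nat_lit 0) (nat_lit 0) (nat_lit 0) (nat_lit 0x20056d4f2) (nat_lit 268435456)]
noncomputable def e14_47 : List Rx := [
  Rx.mk (nat_lit 301) (nat_lit 5) (nat_lit 5) (nat_lit 4) (nat_lit 3) (nat_lit 199) (nat_lit 66) r1_199 r8_66 (nat_lit 0) (nat_lit 0) (nat_lit 9484367) (nat_lit 0x1ff37e980) (nat_lit 279087523),
  Rx.mk (nat_lit 429) (nat_lit 5) (nat_lit 5) (nat_lit 6) (nat_lit 7) (nat_lit 200) (nat_lit 67) r1_200 r8_67 (nat_lit 0) (nat_lit 0) (nat_lit 0) (nat_lit 0x20056d4f2) (nat_lit 268435456)]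
noncomputable def e14_48 : List Rx := [
  Rx.mk (nat_lit 301) (nat_lit 5) (nat_lit 5) (nat_lit 4) (nat_lit 3) (nat_lit 290) (nat_lit 286) r1_290 r9_286 (nat_lit 0) (nat_lit 0) (nat_lit 9484367) (nat_lit 0x20040cf68) (nat_lit 278009223),
  Rx.mk (nat_lit 365) (nat_lit 5) (nat_lit 5) (nat_lit 5) (nat_lit 7) (nat_lit 291) (nat_lit 287) r1_291 r9_287 (nat_lit 0) (nat_lit 0) (nat_lit 0) (nat_lit 0x20056d4f2) (nat_lit 268435456),
  Rx.mk (nat_lit 429) (nat_lit 5) (nat_lit 5) (nat_lit 6) (nat_lit 7) (nat_lit 292) (nat_lit 288) r1_292 r9_288 (nat_lit 0) (nat_lit 0) (nat_lit 0) (nat_lit 0x20056d4f2) (nat_lit 268435456)]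
noncomputable def e14_49 : List Rx := [
  Rx.mk (nat_lit 329) (nat_lit 1) (nat_lit 1) (nat_lit 5) (nat_lit 7) (nat_lit 287) (nat_lit 290) r1_287 r9_290 (nat_lit 0) (nat_lit 0) (nat_lit 0) (nat_lit 0x20056d4f2) (nat_lit 268435456),
  Rx.mk (nat_lit 361) (nat_lit 1) (nat_lit 5) (nat_lit 5) (nat_lit 7) (nat_lit 288) (nat_lit 291) r1_288 r9_291 (nat_lit 0) (nat_lit 0) (nat_lit 0) (nat_lit 0x20056d4f2) (nat_lit 268435456),
  Rx.mk (nat_lit 365) (nat_lit 5) (nat_lit 5) (nat_lit 5) (nat_lit 7) (nat_lit 289) (nat_lit 292) r1_289 r9_292 (nat_lit 0) (nat_lit 0) (nat_lit 0) (nat_lit 0x20056d4f2) (nat_lit 268435456)]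
noncomputable def e14_50 : List Rx := [
  Rx.mk (nat_lit 313) (nat_lit 1) (nat_lit 7) (nat_lit 4) (nat_lit 3) (nat_lit 66) (nat_lit 264) r1_66 r3_264 (nat_lit 0) (nat_lit 0) (nat_lit 3722) (nat_lit 0x20bd484a0) (nat_lit 256337228),
  Rx.mk (nat_lit 317) (nat_lit 5) (nat_lit 7) (nat_lit 4) (nat_lit 3) (nat_lit 67) (nat_lit 262) r1_67 r3_262 (nat_lit 0) (nat_lit 0) (nat_lit 30898) (nat_lit 0x1fbf3341e) (nat_lit 272768554),
  Rx.mk (nat_lit 509) (nat_lit 5) (nat_lit 7) (nat_lit 7) (nat_lit 7) (nat_lit 68) (nat_lit 263) r1_68 r3_263 (nat_lit 0) (nat_lit 0) (nat_lit 0) (nat_lit 0x1f687605e) (nat_lit 278648806)]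
noncomputable def e14_51 : List Rx := [
  Rx.mk (nat_lit 289) (nat_lit 1) (nat_lit 4) (nat_lit 4) (nat_lit 1) (nat_lit 187) (nat_lit 281) r1_187 r4_281 (nat_lit 0) (nat_lit 10054617) (nat_lit 43539697) (nat_lit 0x1c098cc08) (nat_lit 389496620),
  Rx.mk (nat_lit 297) (nat_lit 1) (nat_lit 5) (nat_lit 4) (nat_lit 3) (nat_lit 188) (nat_lit 282) r1_188 r4_282 (nat_lit 0) (nat_lit 0) (nat_lit 9484367) (nat_lit 0x2081e0124) (nat_lit 269861973),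
  Rx.mk (nat_lit 313) (nat_lit 1) (nat_lit 7) (nat_lit 4) (nat_lit 3) (nat_lit 189) (nat_lit 283) r1_189 r4_283 (nat_lit 0) (nat_lit 0) (nat_lit 85522058) (nat_lit 0x1eb239b92) (nat_lit 376236714),
  Rx.mk (nat_lit 317) (nat_lit 5) (nat_lit 7) (nat_lit 4) (nat_lit 3) (nat_lit 190) (nat_lit 279) r1_190 r4_279 (nat_lit 0) (nat_lit 0) (nat_lit 82661556) (nat_lit 0x208f77292) (nat_lit 342133062),
  Rx.mk (nat_lit 509) (nat_lit 5) (nat_lit 7) (nat_lit 7) (nat_lit 7) (nat_lit 191) (nat_lit 280) r1_191 r4_280 (nat_lit 0) (nat_lit 0) (nat_lit 0) (nat_lit 0x210b033f2) (nat_lit 251571006)]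
noncomputable def e14_52 : List Rx := [
  Rx.mk (nat_lit 313) (nat_lit 1) (nat_lit 7) (nat_lit 4) (nat_lit 3) (nat_lit 242) (nat_lit 268) r1_242 r5_268 (nat_lit 0) (nat_lit 0) (nat_lit 37131224) (nat_lit 0x214068f42) (nat_lit 285211480),
  Rx.mk (nat_lit 317) (nat_lit 5) (nat_lit 7) (nat_lit 4) (nat_lit 3) (nat_lit 243) (nat_lit 267) r1_243 r5_267 (nat_lit 0) (nat_lit 0) (nat_lit 35134519) (nat_lit 0x2047df5ec) (nat_lit 299206125)]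
noncomputable def e14_53 : List Rx := [
  Rx.mk (nat_lit 317) (nat_lit 5) (nat_lit 7) (nat_lit 4) (nat_lit 3) (nat_lit 85) (nat_lit 71) r1_85 r4_71 (nat_lit 0) (nat_lit 0) (nat_lit 5269494) (nat_lit 0x203b3f5f8) (nat_lit 270196450),
  Rx.mk (nat_lit 445) (nat_lit 5) (nat_lit 7) (nat_lit 6) (nat_lit 7) (nat_lit 86) (nat_lit 73) r1_86 r4_73 (nat_lit 0) (nat_lit 0) (nat_lit 0) (nat_lit 0x2171ac400) (nat_lit 244980606),
  Rx.mk (nat_lit 509) (nat_lit 5) (nat_lit 7) (nat_lit 7) (nat_lit 7) (nat_lit 87) (nat_lit 72) r1_87 r4_72 (nat_lit 0) (nat_lit 0) (nat_lit 0) (nat_lit 0x20bb0eed2) (nat_lit 256701006)]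
noncomputable def e14_54 : List Rx := [
  Rx.mk (nat_lit 317) (nat_lit 5) (nat_lit 7) (nat_lit 4) (nat_lit 3) (nat_lit 217) (nat_lit 314) r1_217 r10_314 (nat_lit 0) (nat_lit 0) (nat_lit 58027450) (nat_lit 0x21a734438) (nat_lit 299572206),
  Rx.mk (nat_lit 445) (nat_lit 5) (nat_lit 7) (nat_lit 6) (nat_lit 7) (nat_lit 218) (nat_lit 316) r1_218 r10_316 (nat_lit 0) (nat_lit 0) (nat_lit 0) (nat_lit 0x202e90604) (nat_lit 265759956),
  Rx.mk (nat_lit 509) (nat_lit 5) (nat_lit 7) (nat_lit 7) (nat_lit 7) (nat_lit 219) (nat_lit 315) r1_219 r10_315 (nat_lit 0) (nat_lit 0) (nat_lit 0) (nat_lit 0x20a75a3fa) (nat_lit 257956456)]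
noncomputable def e14_55 : List Rx := [
  Rx.mk (nat_lit 317) (nat_lit 5) (nat_lit 7) (nat_lit 4) (nat_lit 3) (nat_lit 244) (nat_lit 333) r1_244 r11_333 (nat_lit 0) (nat_lit 0) (nat_lit 6474081) (nat_lit 0x20c7531d4) (nat_lit 262388587),
  Rx.mk (nat_lit 445) (nat_lit 5) (nat_lit 7) (nat_lit 6) (nat_lit 7) (nat_lit 245) (nat_lit 334) r1_245 r11_334 (nat_lit 0) (nat_lit 0) (nat_lit 0) (nat_lit 0x2278a5904) (nat_lit 228164356)]
noncomputable def e14_56 : List Rx := [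
  Rx.mk (nat_lit 313) (nat_lit 1) (nat_lit 7) (nat_lit 4) (nat_lit 3) (nat_lit 91) (nat_lit 63) r1_91 r5_63 (nat_lit 0) (nat_lit 0) (nat_lit 3091615) (nat_lit 0x1ff9c654a) (nat_lit 272221871),
  Rx.mk (nat_lit 505) (nat_lit 1) (nat_lit 7) (nat_lit 7) (nat_lit 7) (nat_lit 92) (nat_lit 64) r1_92 r5_64 (nat_lit 0) (nat_lit 0) (nat_lit 0) (nat_lit 0x20bb69ae4) (nat_lit 256621956),
  Rx.mk (nat_lit 509) (nat_lit 5) (nat_lit 7) (nat_lit 7) (nat_lit 7) (nat_lit 93) (nat_lit 65) r1_93 r5_65 (nat_lit 0) (nat_lit 0) (nat_lit 0) (nat_lit 0x20a154dfc) (nat_lit 258345706)]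
noncomputable def e14_57 : List Rx := [
  Rx.mk (nat_lit 289) (nat_lit 1) (nat_lit 4) (nat_lit 4) (nat_lit 1) (nat_lit 220) (nat_lit 41) r1_220 r11_41 (nat_lit 0) (nat_lit 19578584) (nat_lit 46094924) (nat_lit 0x1cf21484a) (nat_lit 386174664),
  Rx.mk (nat_lit 297) (nat_lit 1) (nat_lit 5) (nat_lit 4) (nat_lit 3) (nat_lit 221) (nat_lit 42) r1_221 r11_42 (nat_lit 0) (nat_lit 0) (nat_lit 9484367) (nat_lit 0x2037c5260) (nat_lit 274647623),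
  Rx.mk (nat_lit 313) (nat_lit 1) (nat_lit 7) (nat_lit 4) (nat_lit 3) (nat_lit 222) (nat_lit 43) r1_222 r11_43 (nat_lit 0) (nat_lit 0) (nat_lit 14849202) (nat_lit 0x208915322) (nat_lit 274748908),
  Rx.mk (nat_lit 505) (nat_lit 1) (nat_lit 7) (nat_lit 7) (nat_lit 7) (nat_lit 223) (nat_lit 44) r1_223 r11_44 (nat_lit 0) (nat_lit 0) (nat_lit 0) (nat_lit 0x20c766d60) (nat_lit 255901206),
  Rx.mk (nat_lit 509) (nat_lit 5) (nat_lit 7) (nat_lit 7) (nat_lit 7) (nat_lit 224) (nat_lit 45) r1_224 r11_45 (nat_lit 0) (nat_lit 0) (nat_lit 0) (nat_lit 0x20935ad46) (nat_lit 259253406)]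
noncomputable def e14 : List (List Rx) := [e14_0, e14_1, e14_2, e14_3, e14_4, e14_5, e14_6, e14_7, e14_8, e14_9, e14_10, e14_11, e14_12, e14_13, e14_14, e14_15, e14_16, e14_17, e14_18, e14_19, e14_20, e14_21, e14_22, e14_23, e14_24, e14_25, e14_26, e14_27, e14_28, e14_29, e14_30, e14_31, e14_32, e14_33, e14_34, e14_35, e14_36, e14_37, e14_38, e14_39, e14_40, e14_41, e14_42, e14_43, e14_44, e14_45, e14_46, e14_47, e14_48, e14_49, e14_50, e14_51, e14_52, e14_53, e14_54, e14_55, e14_56, e14_57]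
noncomputable def e15_0 : List Rx := [
  Rx.mk (nat_lit 0) (nat_lit 0) (nat_lit 0) (nat_lit 0) (nat_lit 0) (nat_lit 0) (nat_lit 124) r8_0 r0_124 (nat_lit 548020) (nat_lit 10221547) (nat_lit 641106) (nat_lit 0xdf239f5a) (nat_lit 586659229),
  Rx.mk (nat_lit 1) (nat_lit 1) (nat_lit 0) (nat_lit 0) (nat_lit 1) (nat_lit 3) (nat_lit 127) r8_3 r0_127 (nat_lit 0) (nat_lit 22390317) (nat_lit 8596723) (nat_lit 0x181f48a6e) (nat_lit 433430596),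
  Rx.mk (nat_lit 2) (nat_lit 2) (nat_lit 0) (nat_lit 0) (nat_lit 1) (nat_lit 6) (nat_lit 133) r8_6 r0_133 (nat_lit 0) (nat_lit 8459973) (nat_lit 5082939) (nat_lit 0x18412df6c) (nat_lit 413722318),
  Rx.mk (nat_lit 18) (nat_lit 2) (nat_lit 2) (nat_lit 0) (nat_lit 3) (nat_lit 8) (nat_lit 136) r8_8 r0_136 (nat_lit 0) (nat_lit 0) (nat_lit 11005782) (nat_lit 0x1c8a0941c) (nat_lit 338427488),
  Rx.mk (nat_lit 146) (nat_lit 2) (nat_lit 2) (nat_lit 2) (nat_lit 7) (nat_lit 9) (nat_lit 138) r8_9 r0_138 (nat_lit 0) (nat_lit 0) (nat_lit 0) (nat_lit 0x20056d4f2) (nat_lit 268435456),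
  Rx.mk (nat_lit 192) (nat_lit 0) (nat_lit 0) (nat_lit 3) (nat_lit 4) (nat_lit 1) (nat_lit 125) r8_1 r0_125 (nat_lit 8977401) (nat_lit 21261060) (nat_lit 0) (nat_lit 0x18db3ee76) (nat_lit 420209017),
  Rx.mk (nat_lit 193) (nat_lit 1) (nat_lit 0) (nat_lit 3) (nat_lit 5) (nat_lit 4) (nat_lit 128) r8_4 r0_128 (nat_lit 0) (nat_lit 13103625) (nat_lit 0) (nat_lit 0x1fa80595e) (nat_lit 287655681),
  Rx.mk (nat_lit 194) (nat_lit 2) (nat_lit 0) (nat_lit 3) (nat_lit 5) (nat_lit 7) (nat_lit 134) r8_7 r0_134 (nat_lit 0) (nat_lit 17354866) (nat_lit 0) (nat_lit 0x1fa7fc02a) (nat_lit 291906822),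
  Rx.mk (nat_lit 210) (nat_lit 2) (nat_lit 2) (nat_lit 3) (nat_lit 7) (nat_lit 10) (nat_lit 137) r8_10 r0_137 (nat_lit 0) (nat_lit 0) (nat_lit 0) (nat_lit 0x20056d4f2) (nat_lit 268435456),
  Rx.mk (nat_lit 216) (nat_lit 0) (nat_lit 3) (nat_lit 3) (nat_lit 6) (nat_lit 2) (nat_lit 126) r8_2 r0_126 (nat_lit 5563368) (nat_lit 0) (nat_lit 0) (nat_lit 0x1d90bf3fa) (nat_lit 315546874),
  Rx.mk (nat_lit 217) (nat_lit 1) (nat_lit 3) (nat_lit 3) (nat_lit 7) (nat_lit 5) (nat_lit 129) r8_5 r0_129 (nat_lit 0) (nat_lit 0) (nat_lit 0) (nat_lit 0x1fdc55c7c) (nat_lit 271115106),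
  Rx.mk (nat_lit 218) (nat_lit 2) (nat_lit 3) (nat_lit 3) (nat_lit 7) (nat_lit 11) (nat_lit 135) r8_11 r0_135 (nat_lit 0) (nat_lit 0) (nat_lit 0) (nat_lit 0x2003e8e1a) (nat_lit 268530456),
  Rx.mk (nat_lit 219) (nat_lit 3) (nat_lit 3) (nat_lit 3) (nat_lit 7) (nat_lit 14) (nat_lit 130) r8_14 r0_130 (nat_lit 0) (nat_lit 0) (nat_lit 0) (nat_lit 0x1ff9e4946) (nat_lit 269186206),
  Rx.mk (nat_lit 475) (nat_lit 3) (nat_lit 3) (nat_lit 7) (nat_lit 7) (nat_lit 13) (nat_lit 131) r8_13 r0_131 (nat_lit 0) (nat_lit 0) (nat_lit 0) (nat_lit 0x1ff9ddc54) (nat_lit 269187956),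
  Rx.mk (nat_lit 507) (nat_lit 3) (nat_lit 7) (nat_lit 7) (nat_lit 7) (nat_lit 12) (nat_lit 132) r8_12 r0_132 (nat_lit 0) (nat_lit 0) (nat_lit 0) (nat_lit 0x20056d4f2) (nat_lit 268435456)]
noncomputable def e15_1 : List Rx := [
  Rx.mk (nat_lit 0) (nat_lit 0) (nat_lit 0) (nat_lit 0) (nat_lit 0) (nat_lit 15) (nat_lit 131) r8_15 r1_131 (nat_lit 12970436) (nat_lit 16284288) (nat_lit 5200936) (nat_lit 0x1431ccdd8) (nat_lit 503628066),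
  Rx.mk (nat_lit 1) (nat_lit 1) (nat_lit 0) (nat_lit 0) (nat_lit 1) (nat_lit 18) (nat_lit 134) r8_18 r1_134 (nat_lit 0) (nat_lit 29107008) (nat_lit 9122221) (nat_lit 0x1d0963e24) (nat_lit 357196735),
  Rx.mk (nat_lit 2) (nat_lit 2) (nat_lit 0) (nat_lit 0) (nat_lit 1) (nat_lit 21) (nat_lit 138) r8_21 r1_138 (nat_lit 0) (nat_lit 20913238) (nat_lit 9541451) (nat_lit 0x1e0c4cea0) (nat_lit 332249895),
  Rx.mk (nat_lit 18) (nat_lit 2) (nat_lit 2) (nat_lit 0) (nat_lit 3) (nat_lit 22) (nat_lit 139) r8_22 r1_139 (nat_lit 0) (nat_lit 0) (nat_lit 8599271) (nat_lit 0x1fb1e00d2) (nat_lit 282498427),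
  Rx.mk (nat_lit 146) (nat_lit 2) (nat_lit 2) (nat_lit 2) (nat_lit 7) (nat_lit 23) (nat_lit 140) r8_23 r1_140 (nat_lit 0) (nat_lit 0) (nat_lit 0) (nat_lit 0x20056d4f2) (nat_lit 268435456),
  Rx.mk (nat_lit 192) (nat_lit 0) (nat_lit 0) (nat_lit 3) (nat_lit 4) (nat_lit 16) (nat_lit 132) r8_16 r1_132 (nat_lit 19111015) (nat_lit 22083687) (nat_lit 0) (nat_lit 0x1d7134e54) (nat_lit 353280508),
  Rx.mk (nat_lit 193) (nat_lit 1) (nat_lit 0) (nat_lit 3) (nat_lit 5) (nat_lit 19) (nat_lit 135) r8_19 r1_135 (nat_lit 0) (nat_lit 10065192) (nat_lit 0) (nat_lit 0x1ff9d2c5a) (nat_lit 279255198),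
  Rx.mk (nat_lit 216) (nat_lit 0) (nat_lit 3) (nat_lit 3) (nat_lit 6) (nat_lit 17) (nat_lit 133) r8_17 r1_133 (nat_lit 6904608) (nat_lit 0) (nat_lit 0) (nat_lit 0x20290cb56) (nat_lit 273020764),
  Rx.mk (nat_lit 217) (nat_lit 1) (nat_lit 3) (nat_lit 3) (nat_lit 7) (nat_lit 20) (nat_lit 136) r8_20 r1_136 (nat_lit 0) (nat_lit 0) (nat_lit 0) (nat_lit 0x20056d4f2) (nat_lit 268435456),
  Rx.mk (nat_lit 219) (nat_lit 3) (nat_lit 3) (nat_lit 3) (nat_lit 7) (nat_lit 24) (nat_lit 137) r8_24 r1_137 (nat_lit 0) (nat_lit 0) (nat_lit 0) (nat_lit 0x20056d4f2) (nat_lit 268435456)]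
noncomputable def e15_2 : List Rx := [
  Rx.mk (nat_lit 0) (nat_lit 0) (nat_lit 0) (nat_lit 0) (nat_lit 0) (nat_lit 25) (nat_lit 119) r8_25 r2_119 (nat_lit 841530) (nat_lit 3897400) (nat_lit 1033161) (nat_lit 0x10888ae30) (nat_lit 537090397),
  Rx.mk (nat_lit 1) (nat_lit 1) (nat_lit 0) (nat_lit 0) (nat_lit 1) (nat_lit 30) (nat_lit 124) r8_30 r2_124 (nat_lit 0) (nat_lit 18538121) (nat_lit 21885715) (nat_lit 0x1c0a09d52) (nat_lit 376333842),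
  Rx.mk (nat_lit 2) (nat_lit 2) (nat_lit 0) (nat_lit 0) (nat_lit 1) (nat_lit 35) (nat_lit 130) r8_35 r2_130 (nat_lit 0) (nat_lit 3475646) (nat_lit 5207249) (nat_lit 0x1be5c8f88) (nat_lit 346982551),
  Rx.mk (nat_lit 18) (nat_lit 2) (nat_lit 2) (nat_lit 0) (nat_lit 3) (nat_lit 37) (nat_lit 134) r8_37 r2_134 (nat_lit 0) (nat_lit 0) (nat_lit 9484367) (nat_lit 0x20056d4f2) (nat_lit 277919823),
  Rx.mk (nat_lit 24) (nat_lit 0) (nat_lit 3) (nat_lit 0) (nat_lit 2) (nat_lit 27) (nat_lit 121) r8_27 r2_121 (nat_lit 696836) (nat_lit 0) (nat_lit 1132696) (nat_lit 0x1ab396354) (nat_lit 360394488),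
  Rx.mk (nat_lit 25) (nat_lit 1) (nat_lit 3) (nat_lit 0) (nat_lit 3) (nat_lit 32) (nat_lit 126) r8_32 r2_126 (nat_lit 0) (nat_lit 0) (nat_lit 5423236) (nat_lit 0x2065e7670) (nat_lit 267606092),
  Rx.mk (nat_lit 26) (nat_lit 2) (nat_lit 3) (nat_lit 0) (nat_lit 3) (nat_lit 40) (nat_lit 132) r8_40 r2_132 (nat_lit 0) (nat_lit 0) (nat_lit 5423236) (nat_lit 0x2065e7670) (nat_lit 267606092),
  Rx.mk (nat_lit 64) (nat_lit 0) (nat_lit 0) (nat_lit 1) (nat_lit 4) (nat_lit 26) (nat_lit 120) r8_26 r2_120 (nat_lit 12631128) (nat_lit 13271194) (nat_lit 0) (nat_lit 0x1876a1590) (nat_lit 422557478),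
  Rx.mk (nat_lit 65) (nat_lit 1) (nat_lit 0) (nat_lit 1) (nat_lit 5) (nat_lit 31) (nat_lit 125) r8_31 r2_125 (nat_lit 0) (nat_lit 9612199) (nat_lit 0) (nat_lit 0x1ff969f20) (nat_lit 278829255),
  Rx.mk (nat_lit 66) (nat_lit 2) (nat_lit 0) (nat_lit 1) (nat_lit 5) (nat_lit 36) (nat_lit 131) r8_36 r2_131 (nat_lit 0) (nat_lit 9484367) (nat_lit 0) (nat_lit 0x20056d4f2) (nat_lit 277919823),
  Rx.mk (nat_lit 82) (nat_lit 2) (nat_lit 2) (nat_lit 1) (nat_lit 7) (nat_lit 38) (nat_lit 135) r8_38 r2_135 (nat_lit 0) (nat_lit 0) (nat_lit 0) (nat_lit 0x20056d4f2) (nat_lit 268435456),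
  Rx.mk (nat_lit 88) (nat_lit 0) (nat_lit 3) (nat_lit 1) (nat_lit 6) (nat_lit 28) (nat_lit 122) r8_28 r2_122 (nat_lit 9484367) (nat_lit 0) (nat_lit 0) (nat_lit 0x20056d4f2) (nat_lit 277919823),
  Rx.mk (nat_lit 89) (nat_lit 1) (nat_lit 3) (nat_lit 1) (nat_lit 7) (nat_lit 33) (nat_lit 127) r8_33 r2_127 (nat_lit 0) (nat_lit 0) (nat_lit 0) (nat_lit 0x20056d4f2) (nat_lit 268435456),
  Rx.mk (nat_lit 90) (nat_lit 2) (nat_lit 3) (nat_lit 1) (nat_lit 7) (nat_lit 41) (nat_lit 133) r8_41 r2_133 (nat_lit 0) (nat_lit 0) (nat_lit 0) (nat_lit 0x20056d4f2) (nat_lit 268435456),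
  Rx.mk (nat_lit 146) (nat_lit 2) (nat_lit 2) (nat_lit 2) (nat_lit 7) (nat_lit 39) (nat_lit 136) r8_39 r2_136 (nat_lit 0) (nat_lit 0) (nat_lit 0) (nat_lit 0x20056d4f2) (nat_lit 268435456),
  Rx.mk (nat_lit 216) (nat_lit 0) (nat_lit 3) (nat_lit 3) (nat_lit 6) (nat_lit 29) (nat_lit 123) r8_29 r2_123 (nat_lit 9484367) (nat_lit 0) (nat_lit 0) (nat_lit 0x1ffae912a) (nat_lit 278604423),
  Rx.mk (nat_lit 217) (nat_lit 1) (nat_lit 3) (nat_lit 3) (nat_lit 7) (nat_lit 34) (nat_lit 128) r8_34 r2_128 (nat_lit 0) (nat_lit 0) (nat_lit 0) (nat_lit 0x20056d4f2) (nat_lit 268435456),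
  Rx.mk (nat_lit 219) (nat_lit 3) (nat_lit 3) (nat_lit 3) (nat_lit 7) (nat_lit 42) (nat_lit 129) r8_42 r2_129 (nat_lit 0) (nat_lit 0) (nat_lit 0) (nat_lit 0x20056d4f2) (nat_lit 268435456)]
noncomputable def e15_3 : List Rx := [
  Rx.mk (nat_lit 472) (nat_lit 0) (nat_lit 3) (nat_lit 7) (nat_lit 6) (nat_lit 43) (nat_lit 115) r8_43 r3_115 (nat_lit 242054) (nat_lit 0) (nat_lit 0) (nat_lit 0x2005aee2a) (nat_lit 268432060),
  Rx.mk (nat_lit 473) (nat_lit 1) (nat_lit 3) (nat_lit 7) (nat_lit 7) (nat_lit 44) (nat_lit 116) r8_44 r3_116 (nat_lit 0) (nat_lit 0) (nat_lit 0) (nat_lit 0x2160eb1e8) (nat_lit 246056756),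
  Rx.mk (nat_lit 475) (nat_lit 3) (nat_lit 3) (nat_lit 7) (nat_lit 7) (nat_lit 46) (nat_lit 117) r8_46 r3_117 (nat_lit 0) (nat_lit 0) (nat_lit 0) (nat_lit 0x1fbb3e750) (nat_lit 273282006),
  Rx.mk (nat_lit 507) (nat_lit 3) (nat_lit 7) (nat_lit 7) (nat_lit 7) (nat_lit 45) (nat_lit 118) r8_45 r3_118 (nat_lit 0) (nat_lit 0) (nat_lit 0) (nat_lit 0x1fe3dbd02) (nat_lit 270617606)]
noncomputable def e15_4 : List Rx := [
  Rx.mk (nat_lit 192) (nat_lit 0) (nat_lit 0) (nat_lit 3) (nat_lit 4) (nat_lit 47) (nat_lit 114) r8_47 r4_114 (nat_lit 6982043) (nat_lit 11807297) (nat_lit 0) (nat_lit 0x1b19f2d78) (nat_lit 370624546),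
  Rx.mk (nat_lit 193) (nat_lit 1) (nat_lit 0) (nat_lit 3) (nat_lit 5) (nat_lit 50) (nat_lit 117) r8_50 r4_117 (nat_lit 0) (nat_lit 9484367) (nat_lit 0) (nat_lit 0x20056d4f2) (nat_lit 277919823),
  Rx.mk (nat_lit 194) (nat_lit 2) (nat_lit 0) (nat_lit 3) (nat_lit 5) (nat_lit 53) (nat_lit 122) r8_53 r4_122 (nat_lit 0) (nat_lit 9484367) (nat_lit 0) (nat_lit 0x20056d4f2) (nat_lit 277919823),
  Rx.mk (nat_lit 210) (nat_lit 2) (nat_lit 2) (nat_lit 3) (nat_lit 7) (nat_lit 54) (nat_lit 124) r8_54 r4_124 (nat_lit 0) (nat_lit 0) (nat_lit 0) (nat_lit 0x20056d4f2) (nat_lit 268435456),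
  Rx.mk (nat_lit 216) (nat_lit 0) (nat_lit 3) (nat_lit 3) (nat_lit 6) (nat_lit 49) (nat_lit 115) r8_49 r4_115 (nat_lit 5122548) (nat_lit 0) (nat_lit 0) (nat_lit 0x20397ba82) (nat_lit 270168654),
  Rx.mk (nat_lit 217) (nat_lit 1) (nat_lit 3) (nat_lit 3) (nat_lit 7) (nat_lit 52) (nat_lit 118) r8_52 r4_118 (nat_lit 0) (nat_lit 0) (nat_lit 0) (nat_lit 0x205b17592) (nat_lit 262878656),
  Rx.mk (nat_lit 218) (nat_lit 2) (nat_lit 3) (nat_lit 3) (nat_lit 7) (nat_lit 55) (nat_lit 123) r8_55 r4_123 (nat_lit 0) (nat_lit 0) (nat_lit 0) (nat_lit 0x205b17592) (nat_lit 262878656),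
  Rx.mk (nat_lit 472) (nat_lit 0) (nat_lit 3) (nat_lit 7) (nat_lit 6) (nat_lit 48) (nat_lit 116) r8_48 r4_116 (nat_lit 6335143) (nat_lit 0) (nat_lit 0) (nat_lit 0x203ee26e2) (nat_lit 271036899),
  Rx.mk (nat_lit 473) (nat_lit 1) (nat_lit 3) (nat_lit 7) (nat_lit 7) (nat_lit 51) (nat_lit 119) r8_51 r4_119 (nat_lit 0) (nat_lit 0) (nat_lit 0) (nat_lit 0x2028cb836) (nat_lit 266134506),
  Rx.mk (nat_lit 475) (nat_lit 3) (nat_lit 3) (nat_lit 7) (nat_lit 7) (nat_lit 57) (nat_lit 120) r8_57 r4_120 (nat_lit 0) (nat_lit 0) (nat_lit 0) (nat_lit 0x20056d4f2) (nat_lit 268435456),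
  Rx.mk (nat_lit 507) (nat_lit 3) (nat_lit 7) (nat_lit 7) (nat_lit 7) (nat_lit 56) (nat_lit 121) r8_56 r4_121 (nat_lit 0) (nat_lit 0) (nat_lit 0) (nat_lit 0x20056d4f2) (nat_lit 268435456)]
noncomputable def e15_5 : List Rx := [
  Rx.mk (nat_lit 472) (nat_lit 0) (nat_lit 3) (nat_lit 7) (nat_lit 6) (nat_lit 58) (nat_lit 115) r8_58 r5_115 (nat_lit 4768026) (nat_lit 0) (nat_lit 0) (nat_lit 0x205744316) (nat_lit 267884932),
  Rx.mk (nat_lit 473) (nat_lit 1) (nat_lit 3) (nat_lit 7) (nat_lit 7) (nat_lit 59) (nat_lit 116) r8_59 r5_116 (nat_lit 0) (nat_lit 0) (nat_lit 0) (nat_lit 0x2048f80d2) (nat_lit 264049356),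
  Rx.mk (nat_lit 475) (nat_lit 3) (nat_lit 3) (nat_lit 7) (nat_lit 7) (nat_lit 60) (nat_lit 117) r8_60 r5_117 (nat_lit 0) (nat_lit 0) (nat_lit 0) (nat_lit 0x20056d4f2) (nat_lit 268435456)]
noncomputable def e15_6 : List Rx := [
  Rx.mk (nat_lit 321) (nat_lit 1) (nat_lit 0) (nat_lit 5) (nat_lit 5) (nat_lit 61) (nat_lit 171) r8_61 r3_171 (nat_lit 0) (nat_lit 753298) (nat_lit 0) (nat_lit 0x1dc14c75c) (nat_lit 307411954),
  Rx.mk (nat_lit 345) (nat_lit 1) (nat_lit 3) (nat_lit 5) (nat_lit 7) (nat_lit 62) (nat_lit 172) r8_62 r3_172 (nat_lit 0) (nat_lit 0) (nat_lit 0) (nat_lit 0x22d25d3a2) (nat_lit 222389256)]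
noncomputable def e15_7 : List Rx := [
  Rx.mk (nat_lit 65) (nat_lit 1) (nat_lit 0) (nat_lit 1) (nat_lit 5) (nat_lit 64) (nat_lit 186) r8_64 r0_186 (nat_lit 0) (nat_lit 7212426) (nat_lit 0) (nat_lit 0x1f5198ca6) (nat_lit 287452482),
  Rx.mk (nat_lit 89) (nat_lit 1) (nat_lit 3) (nat_lit 1) (nat_lit 7) (nat_lit 65) (nat_lit 187) r8_65 r0_187 (nat_lit 0) (nat_lit 0) (nat_lit 0) (nat_lit 0x20394b670) (nat_lit 265061156),
  Rx.mk (nat_lit 321) (nat_lit 1) (nat_lit 0) (nat_lit 5) (nat_lit 5) (nat_lit 63) (nat_lit 185) r8_63 r0_185 (nat_lit 0) (nat_lit 7783153) (nat_lit 0) (nat_lit 0x1c7520078) (nat_lit 336577359)]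
noncomputable def e15_8 : List Rx := [
  Rx.mk (nat_lit 65) (nat_lit 1) (nat_lit 0) (nat_lit 1) (nat_lit 5) (nat_lit 66) (nat_lit 199) r8_66 r1_199 (nat_lit 0) (nat_lit 9484367) (nat_lit 0) (nat_lit 0x1ff37e980) (nat_lit 279087523),
  Rx.mk (nat_lit 89) (nat_lit 1) (nat_lit 3) (nat_lit 1) (nat_lit 7) (nat_lit 67) (nat_lit 200) r8_67 r1_200 (nat_lit 0) (nat_lit 0) (nat_lit 0) (nat_lit 0x20056d4f2) (nat_lit 268435456)]
noncomputable def e15_9 : List Rx := [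
  Rx.mk (nat_lit 89) (nat_lit 1) (nat_lit 3) (nat_lit 1) (nat_lit 7) (nat_lit 70) (nat_lit 176) r8_70 r4_176 (nat_lit 0) (nat_lit 0) (nat_lit 0) (nat_lit 0x20056d4f2) (nat_lit 268435456),
  Rx.mk (nat_lit 321) (nat_lit 1) (nat_lit 0) (nat_lit 5) (nat_lit 5) (nat_lit 68) (nat_lit 174) r8_68 r4_174 (nat_lit 0) (nat_lit 6572672) (nat_lit 0) (nat_lit 0x2024e9254) (nat_lit 272956678),
  Rx.mk (nat_lit 345) (nat_lit 1) (nat_lit 3) (nat_lit 5) (nat_lit 7) (nat_lit 69) (nat_lit 175) r8_69 r4_175 (nat_lit 0) (nat_lit 0) (nat_lit 0) (nat_lit 0x205d0a160) (nat_lit 262752906)]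
noncomputable def e15_10 : List Rx := [
  Rx.mk (nat_lit 281) (nat_lit 1) (nat_lit 3) (nat_lit 4) (nat_lit 3) (nat_lit 71) (nat_lit 119) r8_71 r6_119 (nat_lit 0) (nat_lit 0) (nat_lit 3112990) (nat_lit 0x203633f14) (nat_lit 268344796),
  Rx.mk (nat_lit 345) (nat_lit 1) (nat_lit 3) (nat_lit 5) (nat_lit 7) (nat_lit 72) (nat_lit 120) r8_72 r6_120 (nat_lit 0) (nat_lit 0) (nat_lit 0) (nat_lit 0x2081b6e6e) (nat_lit 260388556),
  Rx.mk (nat_lit 473) (nat_lit 1) (nat_lit 3) (nat_lit 7) (nat_lit 7) (nat_lit 73) (nat_lit 121) r8_73 r6_121 (nat_lit 0) (nat_lit 0) (nat_lit 0) (nat_lit 0x20bcf9418) (nat_lit 256577206)]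
noncomputable def e15_11 : List Rx := [
  Rx.mk (nat_lit 321) (nat_lit 1) (nat_lit 0) (nat_lit 5) (nat_lit 5) (nat_lit 74) (nat_lit 189) r8_74 r5_189 (nat_lit 0) (nat_lit 7006890) (nat_lit 0) (nat_lit 0x202e95d16) (nat_lit 272765646),
  Rx.mk (nat_lit 345) (nat_lit 1) (nat_lit 3) (nat_lit 5) (nat_lit 7) (nat_lit 75) (nat_lit 190) r8_75 r5_190 (nat_lit 0) (nat_lit 0) (nat_lit 0) (nat_lit 0x205c74cbe) (nat_lit 262789806)]
noncomputable def e15_12 : List Rx := [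
  Rx.mk (nat_lit 475) (nat_lit 3) (nat_lit 3) (nat_lit 7) (nat_lit 7) (nat_lit 77) (nat_lit 140) r8_77 r0_140 (nat_lit 0) (nat_lit 0) (nat_lit 0) (nat_lit 0x20056d4f2) (nat_lit 268435456),
  Rx.mk (nat_lit 507) (nat_lit 3) (nat_lit 7) (nat_lit 7) (nat_lit 7) (nat_lit 76) (nat_lit 139) r8_76 r0_139 (nat_lit 0) (nat_lit 0) (nat_lit 0) (nat_lit 0x1ff97bb76) (nat_lit 269212656)]
noncomputable def e15_13 : List Rx := [
  Rx.mk (nat_lit 0) (nat_lit 0) (nat_lit 0) (nat_lit 0) (nat_lit 0) (nat_lit 78) (nat_lit 136) r8_78 r7_136 (nat_lit 2733102) (nat_lit 7198289) (nat_lit 2425005) (nat_lit 0xe238fa28) (nat_lit 584393802),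
  Rx.mk (nat_lit 2) (nat_lit 2) (nat_lit 0) (nat_lit 0) (nat_lit 1) (nat_lit 81) (nat_lit 142) r8_81 r7_142 (nat_lit 0) (nat_lit 2929309) (nat_lit 3122194) (nat_lit 0x1a0760b20) (nat_lit 376091909),
  Rx.mk (nat_lit 18) (nat_lit 2) (nat_lit 2) (nat_lit 0) (nat_lit 3) (nat_lit 83) (nat_lit 145) r8_83 r7_145 (nat_lit 0) (nat_lit 0) (nat_lit 10791901) (nat_lit 0x1f986bbb0) (nat_lit 286357257),
  Rx.mk (nat_lit 146) (nat_lit 2) (nat_lit 2) (nat_lit 2) (nat_lit 7) (nat_lit 84) (nat_lit 147) r8_84 r7_147 (nat_lit 0) (nat_lit 0) (nat_lit 0) (nat_lit 0x20056d4f2) (nat_lit 268435456),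
  Rx.mk (nat_lit 192) (nat_lit 0) (nat_lit 0) (nat_lit 3) (nat_lit 4) (nat_lit 79) (nat_lit 137) r8_79 r7_137 (nat_lit 7126275) (nat_lit 9749284) (nat_lit 0) (nat_lit 0x19f2f17ca) (nat_lit 388291215),
  Rx.mk (nat_lit 194) (nat_lit 2) (nat_lit 0) (nat_lit 3) (nat_lit 5) (nat_lit 82) (nat_lit 143) r8_82 r7_143 (nat_lit 0) (nat_lit 9484367) (nat_lit 0) (nat_lit 0x20056d4f2) (nat_lit 277919823),
  Rx.mk (nat_lit 210) (nat_lit 2) (nat_lit 2) (nat_lit 3) (nat_lit 7) (nat_lit 85) (nat_lit 146) r8_85 r7_146 (nat_lit 0) (nat_lit 0) (nat_lit 0) (nat_lit 0x20056d4f2) (nat_lit 268435456),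
  Rx.mk (nat_lit 216) (nat_lit 0) (nat_lit 3) (nat_lit 3) (nat_lit 6) (nat_lit 80) (nat_lit 138) r8_80 r7_138 (nat_lit 4537940) (nat_lit 0) (nat_lit 0) (nat_lit 0x1fda0b7c8) (nat_lit 275782896),
  Rx.mk (nat_lit 218) (nat_lit 2) (nat_lit 3) (nat_lit 3) (nat_lit 7) (nat_lit 86) (nat_lit 144) r8_86 r7_144 (nat_lit 0) (nat_lit 0) (nat_lit 0) (nat_lit 0x20056d4f2) (nat_lit 268435456),
  Rx.mk (nat_lit 219) (nat_lit 3) (nat_lit 3) (nat_lit 3) (nat_lit 7) (nat_lit 89) (nat_lit 139) r8_89 r7_139 (nat_lit 0) (nat_lit 0) (nat_lit 0) (nat_lit 0x20056d4f2) (nat_lit 268435456),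
  Rx.mk (nat_lit 475) (nat_lit 3) (nat_lit 3) (nat_lit 7) (nat_lit 7) (nat_lit 88) (nat_lit 140) r8_88 r7_140 (nat_lit 0) (nat_lit 0) (nat_lit 0) (nat_lit 0x20056d4f2) (nat_lit 268435456),
  Rx.mk (nat_lit 507) (nat_lit 3) (nat_lit 7) (nat_lit 7) (nat_lit 7) (nat_lit 87) (nat_lit 141) r8_87 r7_141 (nat_lit 0) (nat_lit 0) (nat_lit 0) (nat_lit 0x20056d4f2) (nat_lit 268435456)]
noncomputable def e15_14 : List Rx := [
  Rx.mk (nat_lit 292) (nat_lit 4) (nat_lit 4) (nat_lit 4) (nat_lit 0) (nat_lit 90) (nat_lit 141) r8_90 r1_141 (nat_lit 2921945) (nat_lit 11933065) (nat_lit 4308292) (nat_lit 0x103c1157c) (nat_lit 555604158),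
  Rx.mk (nat_lit 295) (nat_lit 7) (nat_lit 4) (nat_lit 4) (nat_lit 1) (nat_lit 94) (nat_lit 142) r8_94 r1_142 (nat_lit 0) (nat_lit 19611998) (nat_lit 14059414) (nat_lit 0x1db198414) (nat_lit 341479368),
  Rx.mk (nat_lit 319) (nat_lit 7) (nat_lit 7) (nat_lit 4) (nat_lit 3) (nat_lit 97) (nat_lit 143) r8_97 r1_143 (nat_lit 0) (nat_lit 0) (nat_lit 9484367) (nat_lit 0x20000ee3e) (nat_lit 278269023),
  Rx.mk (nat_lit 420) (nat_lit 4) (nat_lit 4) (nat_lit 6) (nat_lit 4) (nat_lit 91) (nat_lit 147) r8_91 r1_147 (nat_lit 3978459) (nat_lit 10663373) (nat_lit 0) (nat_lit 0x18b957628) (nat_lit 406863088),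
  Rx.mk (nat_lit 423) (nat_lit 7) (nat_lit 4) (nat_lit 6) (nat_lit 5) (nat_lit 95) (nat_lit 148) r8_95 r1_148 (nat_lit 0) (nat_lit 9657344) (nat_lit 0) (nat_lit 0x1ff57a838) (nat_lit 279131350),
  Rx.mk (nat_lit 436) (nat_lit 4) (nat_lit 6) (nat_lit 6) (nat_lit 6) (nat_lit 92) (nat_lit 150) r8_92 r1_150 (nat_lit 8196881) (nat_lit 0) (nat_lit 0) (nat_lit 0x1ec204662) (nat_lit 297938937),
  Rx.mk (nat_lit 438) (nat_lit 6) (nat_lit 6) (nat_lit 6) (nat_lit 7) (nat_lit 93) (nat_lit 152) r8_93 r1_152 (nat_lit 0) (nat_lit 0) (nat_lit 0) (nat_lit 0x20056d4f2) (nat_lit 268435456),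
  Rx.mk (nat_lit 439) (nat_lit 7) (nat_lit 6) (nat_lit 6) (nat_lit 7) (nat_lit 96) (nat_lit 151) r8_96 r1_151 (nat_lit 0) (nat_lit 0) (nat_lit 0) (nat_lit 0x20056d4f2) (nat_lit 268435456),
  Rx.mk (nat_lit 447) (nat_lit 7) (nat_lit 7) (nat_lit 6) (nat_lit 7) (nat_lit 98) (nat_lit 149) r8_98 r1_149 (nat_lit 0) (nat_lit 0) (nat_lit 0) (nat_lit 0x20056d4f2) (nat_lit 268435456),
  Rx.mk (nat_lit 475) (nat_lit 3) (nat_lit 3) (nat_lit 7) (nat_lit 7) (nat_lit 101) (nat_lit 146) r8_101 r1_146 (nat_lit 0) (nat_lit 0) (nat_lit 0) (nat_lit 0x20056d4f2) (nat_lit 268435456),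
  Rx.mk (nat_lit 507) (nat_lit 3) (nat_lit 7) (nat_lit 7) (nat_lit 7) (nat_lit 100) (nat_lit 145) r8_100 r1_145 (nat_lit 0) (nat_lit 0) (nat_lit 0) (nat_lit 0x20056d4f2) (nat_lit 268435456),
  Rx.mk (nat_lit 511) (nat_lit 7) (nat_lit 7) (nat_lit 7) (nat_lit 7) (nat_lit 99) (nat_lit 144) r8_99 r1_144 (nat_lit 0) (nat_lit 0) (nat_lit 0) (nat_lit 0x20056d4f2) (nat_lit 268435456)]
noncomputable def e15_15 : List Rx := [
  Rx.mk (nat_lit 0) (nat_lit 0) (nat_lit 0) (nat_lit 0) (nat_lit 0) (nat_lit 114) (nat_lit 102) r8_114 r8_102 (nat_lit 2252895) (nat_lit 4187922) (nat_lit 3145110) (nat_lit 0xd7a69a48) (nat_lit 592852383),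
  Rx.mk (nat_lit 2) (nat_lit 2) (nat_lit 0) (nat_lit 0) (nat_lit 1) (nat_lit 117) (nat_lit 108) r8_117 r8_108 (nat_lit 0) (nat_lit 668783) (nat_lit 774941) (nat_lit 0x1b30dd394) (nat_lit 351691230),
  Rx.mk (nat_lit 18) (nat_lit 2) (nat_lit 2) (nat_lit 0) (nat_lit 3) (nat_lit 119) (nat_lit 111) r8_119 r8_111 (nat_lit 0) (nat_lit 0) (nat_lit 9484367) (nat_lit 0x1fda9a98c) (nat_lit 280710373),
  Rx.mk (nat_lit 146) (nat_lit 2) (nat_lit 2) (nat_lit 2) (nat_lit 7) (nat_lit 120) (nat_lit 113) r8_120 r8_113 (nat_lit 0) (nat_lit 0) (nat_lit 0) (nat_lit 0x20056d4f2) (nat_lit 268435456),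
  Rx.mk (nat_lit 150) (nat_lit 6) (nat_lit 2) (nat_lit 2) (nat_lit 7) (nat_lit 107) (nat_lit 123) r8_107 r8_123 (nat_lit 0) (nat_lit 0) (nat_lit 0) (nat_lit 0x20056d4f2) (nat_lit 268435456),
  Rx.mk (nat_lit 182) (nat_lit 6) (nat_lit 6) (nat_lit 2) (nat_lit 7) (nat_lit 106) (nat_lit 124) r8_106 r8_124 (nat_lit 0) (nat_lit 0) (nat_lit 0) (nat_lit 0x20056d4f2) (nat_lit 268435456),
  Rx.mk (nat_lit 192) (nat_lit 0) (nat_lit 0) (nat_lit 3) (nat_lit 4) (nat_lit 115) (nat_lit 103) r8_115 r8_103 (nat_lit 4156469) (nat_lit 4189087) (nat_lit 0) (nat_lit 0x16b35e84a) (nat_lit 434950462),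
  Rx.mk (nat_lit 194) (nat_lit 2) (nat_lit 0) (nat_lit 3) (nat_lit 5) (nat_lit 118) (nat_lit 109) r8_118 r8_109 (nat_lit 0) (nat_lit 9484367) (nat_lit 0) (nat_lit 0x20056d4f2) (nat_lit 277919823),
  Rx.mk (nat_lit 210) (nat_lit 2) (nat_lit 2) (nat_lit 3) (nat_lit 7) (nat_lit 121) (nat_lit 112) r8_121 r8_112 (nat_lit 0) (nat_lit 0) (nat_lit 0) (nat_lit 0x20056d4f2) (nat_lit 268435456),
  Rx.mk (nat_lit 216) (nat_lit 0) (nat_lit 3) (nat_lit 3) (nat_lit 6) (nat_lit 116) (nat_lit 104) r8_116 r8_104 (nat_lit 6034803) (nat_lit 0) (nat_lit 0) (nat_lit 0x1fee7420a) (nat_lit 275961759),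
  Rx.mk (nat_lit 218) (nat_lit 2) (nat_lit 3) (nat_lit 3) (nat_lit 7) (nat_lit 122) (nat_lit 110) r8_122 r8_110 (nat_lit 0) (nat_lit 0) (nat_lit 0) (nat_lit 0x20056d4f2) (nat_lit 268435456),
  Rx.mk (nat_lit 219) (nat_lit 3) (nat_lit 3) (nat_lit 3) (nat_lit 7) (nat_lit 125) (nat_lit 105) r8_125 r8_105 (nat_lit 0) (nat_lit 0) (nat_lit 0) (nat_lit 0x20056d4f2) (nat_lit 268435456),
  Rx.mk (nat_lit 292) (nat_lit 4) (nat_lit 4) (nat_lit 4) (nat_lit 0) (nat_lit 102) (nat_lit 114) r8_102 r8_114 (nat_lit 2252895) (nat_lit 4187922) (nat_lit 3145110) (nat_lit 0xd7a69a48) (nat_lit 592852383),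
  Rx.mk (nat_lit 295) (nat_lit 7) (nat_lit 4) (nat_lit 4) (nat_lit 1) (nat_lit 108) (nat_lit 117) r8_108 r8_117 (nat_lit 0) (nat_lit 668783) (nat_lit 774941) (nat_lit 0x1b30dd394) (nat_lit 351691230),
  Rx.mk (nat_lit 319) (nat_lit 7) (nat_lit 7) (nat_lit 4) (nat_lit 3) (nat_lit 111) (nat_lit 119) r8_111 r8_119 (nat_lit 0) (nat_lit 0) (nat_lit 9484367) (nat_lit 0x1fda9a98c) (nat_lit 280710373),
  Rx.mk (nat_lit 420) (nat_lit 4) (nat_lit 4) (nat_lit 6) (nat_lit 4) (nat_lit 103) (nat_lit 115) r8_103 r8_115 (nat_lit 4156469) (nat_lit 4189087) (nat_lit 0) (nat_lit 0x16b35e84a) (nat_lit 434950462),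
  Rx.mk (nat_lit 423) (nat_lit 7) (nat_lit 4) (nat_lit 6) (nat_lit 5) (nat_lit 109) (nat_lit 118) r8_109 r8_118 (nat_lit 0) (nat_lit 9484367) (nat_lit 0) (nat_lit 0x20056d4f2) (nat_lit 277919823),
  Rx.mk (nat_lit 436) (nat_lit 4) (nat_lit 6) (nat_lit 6) (nat_lit 6) (nat_lit 104) (nat_lit 116) r8_104 r8_116 (nat_lit 6034803) (nat_lit 0) (nat_lit 0) (nat_lit 0x1fee7420a) (nat_lit 275961759),
  Rx.mk (nat_lit 438) (nat_lit 6) (nat_lit 6) (nat_lit 6) (nat_lit 7) (nat_lit 105) (nat_lit 125) r8_105 r8_125 (nat_lit 0) (nat_lit 0) (nat_lit 0) (nat_lit 0x20056d4f2) (nat_lit 268435456),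
  Rx.mk (nat_lit 439) (nat_lit 7) (nat_lit 6) (nat_lit 6) (nat_lit 7) (nat_lit 110) (nat_lit 122) r8_110 r8_122 (nat_lit 0) (nat_lit 0) (nat_lit 0) (nat_lit 0x20056d4f2) (nat_lit 268435456),
  Rx.mk (nat_lit 447) (nat_lit 7) (nat_lit 7) (nat_lit 6) (nat_lit 7) (nat_lit 112) (nat_lit 121) r8_112 r8_121 (nat_lit 0) (nat_lit 0) (nat_lit 0) (nat_lit 0x20056d4f2) (nat_lit 268435456),
  Rx.mk (nat_lit 475) (nat_lit 3) (nat_lit 3) (nat_lit 7) (nat_lit 7) (nat_lit 124) (nat_lit 106) r8_124 r8_106 (nat_lit 0) (nat_lit 0) (nat_lit 0) (nat_lit 0x20056d4f2) (nat_lit 268435456),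
  Rx.mk (nat_lit 507) (nat_lit 3) (nat_lit 7) (nat_lit 7) (nat_lit 7) (nat_lit 123) (nat_lit 107) r8_123 r8_107 (nat_lit 0) (nat_lit 0) (nat_lit 0) (nat_lit 0x20056d4f2) (nat_lit 268435456),
  Rx.mk (nat_lit 511) (nat_lit 7) (nat_lit 7) (nat_lit 7) (nat_lit 7) (nat_lit 113) (nat_lit 120) r8_113 r8_120 (nat_lit 0) (nat_lit 0) (nat_lit 0) (nat_lit 0x20056d4f2) (nat_lit 268435456)]
noncomputable def e15_16 : List Rx := [
  Rx.mk (nat_lit 0) (nat_lit 0) (nat_lit 0) (nat_lit 0) (nat_lit 0) (nat_lit 126) (nat_lit 126) r8_126 r8_126 (nat_lit 2874288) (nat_lit 14395821) (nat_lit 2874288) (nat_lit 0xf1d27a40) (nat_lit 575631903),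
  Rx.mk (nat_lit 2) (nat_lit 2) (nat_lit 0) (nat_lit 0) (nat_lit 1) (nat_lit 129) (nat_lit 127) r8_129 r8_127 (nat_lit 0) (nat_lit 9896907) (nat_lit 8331466) (nat_lit 0x1991bda12) (nat_lit 396097329),
  Rx.mk (nat_lit 18) (nat_lit 2) (nat_lit 2) (nat_lit 0) (nat_lit 3) (nat_lit 130) (nat_lit 128) r8_130 r8_128 (nat_lit 0) (nat_lit 0) (nat_lit 9484367) (nat_lit 0x1ff9aaa2a) (nat_lit 278685173),
  Rx.mk (nat_lit 146) (nat_lit 2) (nat_lit 2) (nat_lit 2) (nat_lit 7) (nat_lit 131) (nat_lit 132) r8_131 r8_132 (nat_lit 0) (nat_lit 0) (nat_lit 0) (nat_lit 0x20056d4f2) (nat_lit 268435456),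
  Rx.mk (nat_lit 192) (nat_lit 0) (nat_lit 0) (nat_lit 3) (nat_lit 4) (nat_lit 127) (nat_lit 129) r8_127 r8_129 (nat_lit 8331466) (nat_lit 9896907) (nat_lit 0) (nat_lit 0x1991bda12) (nat_lit 396097329),
  Rx.mk (nat_lit 216) (nat_lit 0) (nat_lit 3) (nat_lit 3) (nat_lit 6) (nat_lit 128) (nat_lit 130) r8_128 r8_130 (nat_lit 9484367) (nat_lit 0) (nat_lit 0) (nat_lit 0x1ff9aaa2a) (nat_lit 278685173),
  Rx.mk (nat_lit 219) (nat_lit 3) (nat_lit 3) (nat_lit 3) (nat_lit 7) (nat_lit 132) (nat_lit 131) r8_132 r8_131 (nat_lit 0) (nat_lit 0) (nat_lit 0) (nat_lit 0x20056d4f2) (nat_lit 268435456)]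
noncomputable def e15_17 : List Rx := [
  Rx.mk (nat_lit 0) (nat_lit 0) (nat_lit 0) (nat_lit 0) (nat_lit 0) (nat_lit 133) (nat_lit 86) r8_133 r9_86 (nat_lit 2770649) (nat_lit 5576143) (nat_lit 5240963) (nat_lit 0xf2b552c0) (nat_lit 568130111),
  Rx.mk (nat_lit 2) (nat_lit 2) (nat_lit 0) (nat_lit 0) (nat_lit 1) (nat_lit 138) (nat_lit 92) r8_138 r9_92 (nat_lit 0) (nat_lit 7159752) (nat_lit 11833183) (nat_lit 0x19341fd38) (nat_lit 403074591),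
  Rx.mk (nat_lit 18) (nat_lit 2) (nat_lit 2) (nat_lit 0) (nat_lit 3) (nat_lit 140) (nat_lit 96) r8_140 r9_96 (nat_lit 0) (nat_lit 0) (nat_lit 9484367) (nat_lit 0x1ff9f49f4) (nat_lit 278666623),
  Rx.mk (nat_lit 24) (nat_lit 0) (nat_lit 3) (nat_lit 0) (nat_lit 2) (nat_lit 135) (nat_lit 88) r8_135 r9_88 (nat_lit 8355857) (nat_lit 0) (nat_lit 10033396) (nat_lit 0x198607dee) (nat_lit 397036109),
  Rx.mk (nat_lit 26) (nat_lit 2) (nat_lit 3) (nat_lit 0) (nat_lit 3) (nat_lit 143) (nat_lit 94) r8_143 r9_94 (nat_lit 0) (nat_lit 0) (nat_lit 9484367) (nat_lit 0x1ffae62a4) (nat_lit 278605023),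
  Rx.mk (nat_lit 64) (nat_lit 0) (nat_lit 0) (nat_lit 1) (nat_lit 4) (nat_lit 134) (nat_lit 87) r8_134 r9_87 (nat_lit 10556072) (nat_lit 26943886) (nat_lit 0) (nat_lit 0x1a1178842) (nat_lit 406893614),
  Rx.mk (nat_lit 66) (nat_lit 2) (nat_lit 0) (nat_lit 1) (nat_lit 5) (nat_lit 139) (nat_lit 93) r8_139 r9_93 (nat_lit 0) (nat_lit 9484367) (nat_lit 0) (nat_lit 0x20056d4f2) (nat_lit 277919823),
  Rx.mk (nat_lit 82) (nat_lit 2) (nat_lit 2) (nat_lit 1) (nat_lit 7) (nat_lit 141) (nat_lit 97) r8_141 r9_97 (nat_lit 0) (nat_lit 0) (nat_lit 0) (nat_lit 0x20056d4f2) (nat_lit 268435456),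
  Rx.mk (nat_lit 88) (nat_lit 0) (nat_lit 3) (nat_lit 1) (nat_lit 6) (nat_lit 136) (nat_lit 89) r8_136 r9_89 (nat_lit 9484367) (nat_lit 0) (nat_lit 0) (nat_lit 0x20056d4f2) (nat_lit 277919823),
  Rx.mk (nat_lit 90) (nat_lit 2) (nat_lit 3) (nat_lit 1) (nat_lit 7) (nat_lit 144) (nat_lit 95) r8_144 r9_95 (nat_lit 0) (nat_lit 0) (nat_lit 0) (nat_lit 0x20056d4f2) (nat_lit 268435456),
  Rx.mk (nat_lit 146) (nat_lit 2) (nat_lit 2) (nat_lit 2) (nat_lit 7) (nat_lit 142) (nat_lit 98) r8_142 r9_98 (nat_lit 0) (nat_lit 0) (nat_lit 0) (nat_lit 0x20056d4f2) (nat_lit 268435456),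
  Rx.mk (nat_lit 216) (nat_lit 0) (nat_lit 3) (nat_lit 3) (nat_lit 6) (nat_lit 137) (nat_lit 90) r8_137 r9_90 (nat_lit 9484367) (nat_lit 0) (nat_lit 0) (nat_lit 0x20056d4f2) (nat_lit 277919823),
  Rx.mk (nat_lit 219) (nat_lit 3) (nat_lit 3) (nat_lit 3) (nat_lit 7) (nat_lit 145) (nat_lit 91) r8_145 r9_91 (nat_lit 0) (nat_lit 0) (nat_lit 0) (nat_lit 0x20056d4f2) (nat_lit 268435456)]
noncomputable def e15_18 : List Rx := [
  Rx.mk (nat_lit 472) (nat_lit 0) (nat_lit 3) (nat_lit 7) (nat_lit 6) (nat_lit 146) (nat_lit 126) r8_146 r4_126 (nat_lit 6858864) (nat_lit 0) (nat_lit 0) (nat_lit 0x2021fa62e) (nat_lit 273435420),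
  Rx.mk (nat_lit 475) (nat_lit 3) (nat_lit 3) (nat_lit 7) (nat_lit 7) (nat_lit 148) (nat_lit 127) r8_148 r4_127 (nat_lit 0) (nat_lit 0) (nat_lit 0) (nat_lit 0x20056d4f2) (nat_lit 268435456),
  Rx.mk (nat_lit 507) (nat_lit 3) (nat_lit 7) (nat_lit 7) (nat_lit 7) (nat_lit 147) (nat_lit 125) r8_147 r4_125 (nat_lit 0) (nat_lit 0) (nat_lit 0) (nat_lit 0x20056d4f2) (nat_lit 268435456)]
noncomputable def e15_19 : List Rx := [
  Rx.mk (nat_lit 192) (nat_lit 0) (nat_lit 0) (nat_lit 3) (nat_lit 4) (nat_lit 149) (nat_lit 101) r8_149 r10_101 (nat_lit 6364952) (nat_lit 8541134) (nat_lit 0) (nat_lit 0x186a9d334) (nat_lit 412357992),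
  Rx.mk (nat_lit 194) (nat_lit 2) (nat_lit 0) (nat_lit 3) (nat_lit 5) (nat_lit 152) (nat_lit 106) r8_152 r10_106 (nat_lit 0) (nat_lit 9484367) (nat_lit 0) (nat_lit 0x1ff13e1a2) (nat_lit 279234723),
  Rx.mk (nat_lit 210) (nat_lit 2) (nat_lit 2) (nat_lit 3) (nat_lit 7) (nat_lit 153) (nat_lit 108) r8_153 r10_108 (nat_lit 0) (nat_lit 0) (nat_lit 0) (nat_lit 0x20056d4f2) (nat_lit 268435456),
  Rx.mk (nat_lit 216) (nat_lit 0) (nat_lit 3) (nat_lit 3) (nat_lit 6) (nat_lit 151) (nat_lit 102) r8_151 r10_102 (nat_lit 4442685) (nat_lit 0) (nat_lit 0) (nat_lit 0x203b15f3c) (nat_lit 269384691),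
  Rx.mk (nat_lit 218) (nat_lit 2) (nat_lit 3) (nat_lit 3) (nat_lit 7) (nat_lit 154) (nat_lit 107) r8_154 r10_107 (nat_lit 0) (nat_lit 0) (nat_lit 0) (nat_lit 0x20056d4f2) (nat_lit 268435456),
  Rx.mk (nat_lit 472) (nat_lit 0) (nat_lit 3) (nat_lit 7) (nat_lit 6) (nat_lit 150) (nat_lit 103) r8_150 r10_103 (nat_lit 9484367) (nat_lit 0) (nat_lit 0) (nat_lit 0x1fe950e7c) (nat_lit 279752073),
  Rx.mk (nat_lit 475) (nat_lit 3) (nat_lit 3) (nat_lit 7) (nat_lit 7) (nat_lit 156) (nat_lit 104) r8_156 r10_104 (nat_lit 0) (nat_lit 0) (nat_lit 0) (nat_lit 0x20056d4f2) (nat_lit 268435456),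
  Rx.mk (nat_lit 507) (nat_lit 3) (nat_lit 7) (nat_lit 7) (nat_lit 7) (nat_lit 155) (nat_lit 105) r8_155 r10_105 (nat_lit 0) (nat_lit 0) (nat_lit 0) (nat_lit 0x20056d4f2) (nat_lit 268435456)]
noncomputable def e15_20 : List Rx := [
  Rx.mk (nat_lit 472) (nat_lit 0) (nat_lit 3) (nat_lit 7) (nat_lit 6) (nat_lit 157) (nat_lit 113) r8_157 r11_113 (nat_lit 9484367) (nat_lit 0) (nat_lit 0) (nat_lit 0x20056d4f2) (nat_lit 277919823),
  Rx.mk (nat_lit 475) (nat_lit 3) (nat_lit 3) (nat_lit 7) (nat_lit 7) (nat_lit 158) (nat_lit 114) r8_158 r11_114 (nat_lit 0) (nat_lit 0) (nat_lit 0) (nat_lit 0x20056d4f2) (nat_lit 268435456)]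
noncomputable def e15_21 : List Rx := [
  Rx.mk (nat_lit 0) (nat_lit 0) (nat_lit 0) (nat_lit 0) (nat_lit 0) (nat_lit 159) (nat_lit 183) r8_159 r9_183 (nat_lit 2940451) (nat_lit 2962037) (nat_lit 4453267) (nat_lit 0x1121e1c0a) (nat_lit 531543861),
  Rx.mk (nat_lit 1) (nat_lit 1) (nat_lit 0) (nat_lit 0) (nat_lit 1) (nat_lit 165) (nat_lit 185) r8_165 r9_185 (nat_lit 0) (nat_lit 8158535) (nat_lit 19239822) (nat_lit 0x1d532504e) (nat_lit 341477313),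
  Rx.mk (nat_lit 2) (nat_lit 2) (nat_lit 0) (nat_lit 0) (nat_lit 1) (nat_lit 171) (nat_lit 187) r8_171 r9_187 (nat_lit 0) (nat_lit 9044589) (nat_lit 11392601) (nat_lit 0x1c6f1c2d0) (nat_lit 349642896),
  Rx.mk (nat_lit 18) (nat_lit 2) (nat_lit 2) (nat_lit 0) (nat_lit 3) (nat_lit 174) (nat_lit 199) r8_174 r9_199 (nat_lit 0) (nat_lit 0) (nat_lit 9484367) (nat_lit 0x20056d4f2) (nat_lit 277919823),
  Rx.mk (nat_lit 24) (nat_lit 0) (nat_lit 3) (nat_lit 0) (nat_lit 2) (nat_lit 162) (nat_lit 192) r8_162 r9_192 (nat_lit 9530506) (nat_lit 0) (nat_lit 10265049) (nat_lit 0x1aabfbf22) (nat_lit 378936011),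
  Rx.mk (nat_lit 25) (nat_lit 1) (nat_lit 3) (nat_lit 0) (nat_lit 3) (nat_lit 168) (nat_lit 195) r8_168 r9_195 (nat_lit 0) (nat_lit 0) (nat_lit 9484367) (nat_lit 0x20056d4f2) (nat_lit 277919823),
  Rx.mk (nat_lit 64) (nat_lit 0) (nat_lit 0) (nat_lit 1) (nat_lit 4) (nat_lit 160) (nat_lit 184) r8_160 r9_184 (nat_lit 12531791) (nat_lit 19140889) (nat_lit 0) (nat_lit 0x19e7d89c4) (nat_lit 403828636),
  Rx.mk (nat_lit 65) (nat_lit 1) (nat_lit 0) (nat_lit 1) (nat_lit 5) (nat_lit 166) (nat_lit 186) r8_166 r9_186 (nat_lit 0) (nat_lit 9484367) (nat_lit 0) (nat_lit 0x20056d4f2) (nat_lit 277919823),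
  Rx.mk (nat_lit 66) (nat_lit 2) (nat_lit 0) (nat_lit 1) (nat_lit 5) (nat_lit 172) (nat_lit 188) r8_172 r9_188 (nat_lit 0) (nat_lit 9484367) (nat_lit 0) (nat_lit 0x20056d4f2) (nat_lit 277919823),
  Rx.mk (nat_lit 72) (nat_lit 0) (nat_lit 1) (nat_lit 1) (nat_lit 6) (nat_lit 161) (nat_lit 189) r8_161 r9_189 (nat_lit 9484367) (nat_lit 0) (nat_lit 0) (nat_lit 0x20056d4f2) (nat_lit 277919823),
  Rx.mk (nat_lit 73) (nat_lit 1) (nat_lit 1) (nat_lit 1) (nat_lit 7) (nat_lit 167) (nat_lit 190) r8_167 r9_190 (nat_lit 0) (nat_lit 0) (nat_lit 0) (nat_lit 0x20056d4f2) (nat_lit 268435456),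
  Rx.mk (nat_lit 74) (nat_lit 2) (nat_lit 1) (nat_lit 1) (nat_lit 7) (nat_lit 173) (nat_lit 191) r8_173 r9_191 (nat_lit 0) (nat_lit 0) (nat_lit 0) (nat_lit 0x20056d4f2) (nat_lit 268435456),
  Rx.mk (nat_lit 82) (nat_lit 2) (nat_lit 2) (nat_lit 1) (nat_lit 7) (nat_lit 175) (nat_lit 200) r8_175 r9_200 (nat_lit 0) (nat_lit 0) (nat_lit 0) (nat_lit 0x20056d4f2) (nat_lit 268435456),
  Rx.mk (nat_lit 88) (nat_lit 0) (nat_lit 3) (nat_lit 1) (nat_lit 6) (nat_lit 163) (nat_lit 193) r8_163 r9_193 (nat_lit 9484367) (nat_lit 0) (nat_lit 0) (nat_lit 0x20056d4f2) (nat_lit 277919823),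
  Rx.mk (nat_lit 89) (nat_lit 1) (nat_lit 3) (nat_lit 1) (nat_lit 7) (nat_lit 169) (nat_lit 196) r8_169 r9_196 (nat_lit 0) (nat_lit 0) (nat_lit 0) (nat_lit 0x20056d4f2) (nat_lit 268435456),
  Rx.mk (nat_lit 146) (nat_lit 2) (nat_lit 2) (nat_lit 2) (nat_lit 7) (nat_lit 176) (nat_lit 201) r8_176 r9_201 (nat_lit 0) (nat_lit 0) (nat_lit 0) (nat_lit 0x20056d4f2) (nat_lit 268435456),
  Rx.mk (nat_lit 216) (nat_lit 0) (nat_lit 3) (nat_lit 3) (nat_lit 6) (nat_lit 164) (nat_lit 194) r8_164 r9_194 (nat_lit 9484367) (nat_lit 0) (nat_lit 0) (nat_lit 0x20056d4f2) (nat_lit 277919823),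
  Rx.mk (nat_lit 217) (nat_lit 1) (nat_lit 3) (nat_lit 3) (nat_lit 7) (nat_lit 170) (nat_lit 197) r8_170 r9_197 (nat_lit 0) (nat_lit 0) (nat_lit 0) (nat_lit 0x20056d4f2) (nat_lit 268435456),
  Rx.mk (nat_lit 219) (nat_lit 3) (nat_lit 3) (nat_lit 3) (nat_lit 7) (nat_lit 177) (nat_lit 198) r8_177 r9_198 (nat_lit 0) (nat_lit 0) (nat_lit 0) (nat_lit 0x20056d4f2) (nat_lit 268435456)]
noncomputable def e15_22 : List Rx := [
  Rx.mk (nat_lit 321) (nat_lit 1) (nat_lit 0) (nat_lit 5) (nat_lit 5) (nat_lit 178) (nat_lit 289) r8_178 r0_289 (nat_lit 0) (nat_lit 10787644) (nat_lit 0) (nat_lit 0x1b3ca9fb0) (nat_lit 360329100),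
  Rx.mk (nat_lit 329) (nat_lit 1) (nat_lit 1) (nat_lit 5) (nat_lit 7) (nat_lit 179) (nat_lit 290) r8_179 r0_290 (nat_lit 0) (nat_lit 0) (nat_lit 0) (nat_lit 0x1ffe905b2) (nat_lit 268882256)]
noncomputable def e15_23 : List Rx := [
  Rx.mk (nat_lit 329) (nat_lit 1) (nat_lit 1) (nat_lit 5) (nat_lit 7) (nat_lit 180) (nat_lit 286) r8_180 r1_286 (nat_lit 0) (nat_lit 0) (nat_lit 0) (nat_lit 0x20056d4f2) (nat_lit 268435456)]
noncomputable def e15_24 : List Rx := [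
  Rx.mk (nat_lit 321) (nat_lit 1) (nat_lit 0) (nat_lit 5) (nat_lit 5) (nat_lit 181) (nat_lit 304) r8_181 r4_304 (nat_lit 0) (nat_lit 9015295) (nat_lit 0) (nat_lit 0x1fe14e328) (nat_lit 279801251),
  Rx.mk (nat_lit 329) (nat_lit 1) (nat_lit 1) (nat_lit 5) (nat_lit 7) (nat_lit 182) (nat_lit 305) r8_182 r4_305 (nat_lit 0) (nat_lit 0) (nat_lit 0) (nat_lit 0x20056d4f2) (nat_lit 268435456),
  Rx.mk (nat_lit 345) (nat_lit 1) (nat_lit 3) (nat_lit 5) (nat_lit 7) (nat_lit 183) (nat_lit 306) r8_183 r4_306 (nat_lit 0) (nat_lit 0) (nat_lit 0) (nat_lit 0x20056d4f2) (nat_lit 268435456)]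
noncomputable def e15_25 : List Rx := [
  Rx.mk (nat_lit 65) (nat_lit 1) (nat_lit 0) (nat_lit 1) (nat_lit 5) (nat_lit 185) (nat_lit 242) r8_185 r7_242 (nat_lit 0) (nat_lit 9484367) (nat_lit 0) (nat_lit 0x1f8a43b50) (nat_lit 285991423),
  Rx.mk (nat_lit 73) (nat_lit 1) (nat_lit 1) (nat_lit 1) (nat_lit 7) (nat_lit 187) (nat_lit 244) r8_187 r7_244 (nat_lit 0) (nat_lit 0) (nat_lit 0) (nat_lit 0x20056d4f2) (nat_lit 268435456),
  Rx.mk (nat_lit 89) (nat_lit 1) (nat_lit 3) (nat_lit 1) (nat_lit 7) (nat_lit 188) (nat_lit 245) r8_188 r7_245 (nat_lit 0) (nat_lit 0) (nat_lit 0) (nat_lit 0x20056d4f2) (nat_lit 268435456),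
  Rx.mk (nat_lit 321) (nat_lit 1) (nat_lit 0) (nat_lit 5) (nat_lit 5) (nat_lit 184) (nat_lit 241) r8_184 r7_241 (nat_lit 0) (nat_lit 6164355) (nat_lit 0) (nat_lit 0x20253bd24) (nat_lit 272515511),
  Rx.mk (nat_lit 329) (nat_lit 1) (nat_lit 1) (nat_lit 5) (nat_lit 7) (nat_lit 186) (nat_lit 243) r8_186 r7_243 (nat_lit 0) (nat_lit 0) (nat_lit 0) (nat_lit 0x20056d4f2) (nat_lit 268435456)]
noncomputable def e15_26 : List Rx := [
  Rx.mk (nat_lit 73) (nat_lit 1) (nat_lit 1) (nat_lit 1) (nat_lit 7) (nat_lit 190) (nat_lit 190) r8_190 r8_190 (nat_lit 0) (nat_lit 0) (nat_lit 0) (nat_lit 0x20056d4f2) (nat_lit 268435456),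
  Rx.mk (nat_lit 329) (nat_lit 1) (nat_lit 1) (nat_lit 5) (nat_lit 7) (nat_lit 189) (nat_lit 189) r8_189 r8_189 (nat_lit 0) (nat_lit 0) (nat_lit 0) (nat_lit 0x20056d4f2) (nat_lit 268435456)]
noncomputable def e15_27 : List Rx := [
  Rx.mk (nat_lit 65) (nat_lit 1) (nat_lit 0) (nat_lit 1) (nat_lit 5) (nat_lit 191) (nat_lit 323) r8_191 r8_323 (nat_lit 0) (nat_lit 9484367) (nat_lit 0) (nat_lit 0x1ff65bae0) (nat_lit 278900523),
  Rx.mk (nat_lit 73) (nat_lit 1) (nat_lit 1) (nat_lit 1) (nat_lit 7) (nat_lit 192) (nat_lit 324) r8_192 r8_324 (nat_lit 0) (nat_lit 0) (nat_lit 0) (nat_lit 0x20056d4f2) (nat_lit 268435456),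
  Rx.mk (nat_lit 89) (nat_lit 1) (nat_lit 3) (nat_lit 1) (nat_lit 7) (nat_lit 193) (nat_lit 325) r8_193 r8_325 (nat_lit 0) (nat_lit 0) (nat_lit 0) (nat_lit 0x20056d4f2) (nat_lit 268435456)]
noncomputable def e15_28 : List Rx := [
  Rx.mk (nat_lit 89) (nat_lit 1) (nat_lit 3) (nat_lit 1) (nat_lit 7) (nat_lit 197) (nat_lit 194) r8_197 r10_194 (nat_lit 0) (nat_lit 0) (nat_lit 0) (nat_lit 0x20056d4f2) (nat_lit 268435456),
  Rx.mk (nat_lit 321) (nat_lit 1) (nat_lit 0) (nat_lit 5) (nat_lit 5) (nat_lit 194) (nat_lit 191) r8_194 r10_191 (nat_lit 0) (nat_lit 9484367) (nat_lit 0) (nat_lit 0x20056d4f2) (nat_lit 277919823),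
  Rx.mk (nat_lit 329) (nat_lit 1) (nat_lit 1) (nat_lit 5) (nat_lit 7) (nat_lit 195) (nat_lit 192) r8_195 r10_192 (nat_lit 0) (nat_lit 0) (nat_lit 0) (nat_lit 0x20056d4f2) (nat_lit 268435456),
  Rx.mk (nat_lit 345) (nat_lit 1) (nat_lit 3) (nat_lit 5) (nat_lit 7) (nat_lit 196) (nat_lit 193) r8_196 r10_193 (nat_lit 0) (nat_lit 0) (nat_lit 0) (nat_lit 0x20056d4f2) (nat_lit 268435456)]
noncomputable def e15_29 : List Rx := [
  Rx.mk (nat_lit 321) (nat_lit 1) (nat_lit 0) (nat_lit 5) (nat_lit 5) (nat_lit 198) (nat_lit 219) r8_198 r11_219 (nat_lit 0) (nat_lit 9484367) (nat_lit 0) (nat_lit 0x20056d4f2) (nat_lit 277919823),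
  Rx.mk (nat_lit 329) (nat_lit 1) (nat_lit 1) (nat_lit 5) (nat_lit 7) (nat_lit 199) (nat_lit 220) r8_199 r11_220 (nat_lit 0) (nat_lit 0) (nat_lit 0) (nat_lit 0x20056d4f2) (nat_lit 268435456),
  Rx.mk (nat_lit 345) (nat_lit 1) (nat_lit 3) (nat_lit 5) (nat_lit 7) (nat_lit 200) (nat_lit 221) r8_200 r11_221 (nat_lit 0) (nat_lit 0) (nat_lit 0) (nat_lit 0x20056d4f2) (nat_lit 268435456)]
noncomputable def e15_30 : List Rx := [
  Rx.mk (nat_lit 472) (nat_lit 0) (nat_lit 3) (nat_lit 7) (nat_lit 6) (nat_lit 202) (nat_lit 121) r8_202 r5_121 (nat_lit 3592322) (nat_lit 0) (nat_lit 0) (nat_lit 0x1f944b18e) (nat_lit 279407828),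
  Rx.mk (nat_lit 473) (nat_lit 1) (nat_lit 3) (nat_lit 7) (nat_lit 7) (nat_lit 204) (nat_lit 122) r8_204 r5_122 (nat_lit 0) (nat_lit 0) (nat_lit 0) (nat_lit 0x20bbcbb72) (nat_lit 256653156),
  Rx.mk (nat_lit 504) (nat_lit 0) (nat_lit 7) (nat_lit 7) (nat_lit 6) (nat_lit 201) (nat_lit 118) r8_201 r5_118 (nat_lit 10516088) (nat_lit 0) (nat_lit 0) (nat_lit 0x1ee71f3b6) (nat_lit 297804694),
  Rx.mk (nat_lit 505) (nat_lit 1) (nat_lit 7) (nat_lit 7) (nat_lit 7) (nat_lit 203) (nat_lit 119) r8_203 r5_119 (nat_lit 0) (nat_lit 0) (nat_lit 0) (nat_lit 0x20056d4f2) (nat_lit 268435456),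
  Rx.mk (nat_lit 507) (nat_lit 3) (nat_lit 7) (nat_lit 7) (nat_lit 7) (nat_lit 205) (nat_lit 120) r8_205 r5_120 (nat_lit 0) (nat_lit 0) (nat_lit 0) (nat_lit 0x20056d4f2) (nat_lit 268435456)]
noncomputable def e15_31 : List Rx := [
  Rx.mk (nat_lit 216) (nat_lit 0) (nat_lit 3) (nat_lit 3) (nat_lit 6) (nat_lit 208) (nat_lit 120) r8_208 r11_120 (nat_lit 6380904) (nat_lit 0) (nat_lit 0) (nat_lit 0x200222932) (nat_lit 275019360),
  Rx.mk (nat_lit 217) (nat_lit 1) (nat_lit 3) (nat_lit 3) (nat_lit 7) (nat_lit 211) (nat_lit 121) r8_211 r11_121 (nat_lit 0) (nat_lit 0) (nat_lit 0) (nat_lit 0x203017a4a) (nat_lit 265661706),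
  Rx.mk (nat_lit 218) (nat_lit 2) (nat_lit 3) (nat_lit 3) (nat_lit 7) (nat_lit 212) (nat_lit 122) r8_212 r11_122 (nat_lit 0) (nat_lit 0) (nat_lit 0) (nat_lit 0x203017a4a) (nat_lit 265661706),
  Rx.mk (nat_lit 472) (nat_lit 0) (nat_lit 3) (nat_lit 7) (nat_lit 6) (nat_lit 207) (nat_lit 118) r8_207 r11_118 (nat_lit 9484367) (nat_lit 0) (nat_lit 0) (nat_lit 0x20056d4f2) (nat_lit 277919823),
  Rx.mk (nat_lit 473) (nat_lit 1) (nat_lit 3) (nat_lit 7) (nat_lit 7) (nat_lit 210) (nat_lit 119) r8_210 r11_119 (nat_lit 0) (nat_lit 0) (nat_lit 0) (nat_lit 0x20056d4f2) (nat_lit 268435456),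
  Rx.mk (nat_lit 504) (nat_lit 0) (nat_lit 7) (nat_lit 7) (nat_lit 6) (nat_lit 206) (nat_lit 115) r8_206 r11_115 (nat_lit 10015832) (nat_lit 0) (nat_lit 0) (nat_lit 0x1fdbfee04) (nat_lit 281155438),
  Rx.mk (nat_lit 505) (nat_lit 1) (nat_lit 7) (nat_lit 7) (nat_lit 7) (nat_lit 209) (nat_lit 116) r8_209 r11_116 (nat_lit 0) (nat_lit 0) (nat_lit 0) (nat_lit 0x20056d4f2) (nat_lit 268435456),
  Rx.mk (nat_lit 507) (nat_lit 3) (nat_lit 7) (nat_lit 7) (nat_lit 7) (nat_lit 213) (nat_lit 117) r8_213 r11_117 (nat_lit 0) (nat_lit 0) (nat_lit 0) (nat_lit 0x20056d4f2) (nat_lit 268435456)]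
noncomputable def e15_32 : List Rx := [
  Rx.mk (nat_lit 281) (nat_lit 1) (nat_lit 3) (nat_lit 4) (nat_lit 3) (nat_lit 216) (nat_lit 301) r8_216 r6_301 (nat_lit 0) (nat_lit 0) (nat_lit 2919699) (nat_lit 0x2016d6edc) (nat_lit 270181455),
  Rx.mk (nat_lit 313) (nat_lit 1) (nat_lit 7) (nat_lit 4) (nat_lit 3) (nat_lit 214) (nat_lit 300) r8_214 r6_300 (nat_lit 0) (nat_lit 0) (nat_lit 8407643) (nat_lit 0x1fc19b2d8) (nat_lit 281260399),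
  Rx.mk (nat_lit 345) (nat_lit 1) (nat_lit 3) (nat_lit 5) (nat_lit 7) (nat_lit 217) (nat_lit 303) r8_217 r6_303 (nat_lit 0) (nat_lit 0) (nat_lit 0) (nat_lit 0x20936f3ea) (nat_lit 259247806),
  Rx.mk (nat_lit 377) (nat_lit 1) (nat_lit 7) (nat_lit 5) (nat_lit 7) (nat_lit 215) (nat_lit 302) r8_215 r6_302 (nat_lit 0) (nat_lit 0) (nat_lit 0) (nat_lit 0x20056d4f2) (nat_lit 268435456)]
noncomputable def e15_33 : List Rx := [
  Rx.mk (nat_lit 345) (nat_lit 1) (nat_lit 3) (nat_lit 5) (nat_lit 7) (nat_lit 218) (nat_lit 285) r8_218 r5_285 (nat_lit 0) (nat_lit 0) (nat_lit 0) (nat_lit 0x20b6fc0ce) (nat_lit 256962806)]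
noncomputable def e15_34 : List Rx := [
  Rx.mk (nat_lit 89) (nat_lit 1) (nat_lit 3) (nat_lit 1) (nat_lit 7) (nat_lit 220) (nat_lit 343) r8_220 r11_343 (nat_lit 0) (nat_lit 0) (nat_lit 0) (nat_lit 0x20056d4f2) (nat_lit 268435456),
  Rx.mk (nat_lit 345) (nat_lit 1) (nat_lit 3) (nat_lit 5) (nat_lit 7) (nat_lit 219) (nat_lit 344) r8_219 r11_344 (nat_lit 0) (nat_lit 0) (nat_lit 0) (nat_lit 0x2041d1240) (nat_lit 264513806)]
noncomputable def e15_35 : List Rx := [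
  Rx.mk (nat_lit 313) (nat_lit 1) (nat_lit 7) (nat_lit 4) (nat_lit 3) (nat_lit 221) (nat_lit 207) r8_221 r6_207 (nat_lit 0) (nat_lit 0) (nat_lit 7973947) (nat_lit 0x1ffd61c22) (nat_lit 276924103),
  Rx.mk (nat_lit 377) (nat_lit 1) (nat_lit 7) (nat_lit 5) (nat_lit 7) (nat_lit 222) (nat_lit 208) r8_222 r6_208 (nat_lit 0) (nat_lit 0) (nat_lit 0) (nat_lit 0x20056d4f2) (nat_lit 268435456),
  Rx.mk (nat_lit 473) (nat_lit 1) (nat_lit 3) (nat_lit 7) (nat_lit 7) (nat_lit 224) (nat_lit 206) r8_224 r6_206 (nat_lit 0) (nat_lit 0) (nat_lit 0) (nat_lit 0x20a32e4ac) (nat_lit 258234956),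
  Rx.mk (nat_lit 505) (nat_lit 1) (nat_lit 7) (nat_lit 7) (nat_lit 7) (nat_lit 223) (nat_lit 209) r8_223 r6_209 (nat_lit 0) (nat_lit 0) (nat_lit 0) (nat_lit 0x20056d4f2) (nat_lit 268435456)]
noncomputable def e15_36 : List Rx := [
  Rx.mk (nat_lit 281) (nat_lit 1) (nat_lit 3) (nat_lit 4) (nat_lit 3) (nat_lit 227) (nat_lit 112) r8_227 r12_112 (nat_lit 0) (nat_lit 0) (nat_lit 1718674) (nat_lit 0x2019e5d76) (nat_lit 268749930),
  Rx.mk (nat_lit 313) (nat_lit 1) (nat_lit 7) (nat_lit 4) (nat_lit 3) (nat_lit 225) (nat_lit 115) r8_225 r12_115 (nat_lit 0) (nat_lit 0) (nat_lit 7891744) (nat_lit 0x1fc6d7b0c) (nat_lit 280406750),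
  Rx.mk (nat_lit 345) (nat_lit 1) (nat_lit 3) (nat_lit 5) (nat_lit 7) (nat_lit 228) (nat_lit 113) r8_228 r12_113 (nat_lit 0) (nat_lit 0) (nat_lit 0) (nat_lit 0x212881cf8) (nat_lit 249679706),
  Rx.mk (nat_lit 377) (nat_lit 1) (nat_lit 7) (nat_lit 5) (nat_lit 7) (nat_lit 226) (nat_lit 116) r8_226 r12_116 (nat_lit 0) (nat_lit 0) (nat_lit 0) (nat_lit 0x20056d4f2) (nat_lit 268435456),
  Rx.mk (nat_lit 473) (nat_lit 1) (nat_lit 3) (nat_lit 7) (nat_lit 7) (nat_lit 229) (nat_lit 114) r8_229 r12_114 (nat_lit 0) (nat_lit 0) (nat_lit 0) (nat_lit 0x217654bc4) (nat_lit 244695456)]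
noncomputable def e15_37 : List Rx := [
  Rx.mk (nat_lit 289) (nat_lit 1) (nat_lit 4) (nat_lit 4) (nat_lit 1) (nat_lit 237) (nat_lit 278) r8_237 r0_278 (nat_lit 0) (nat_lit 4307608) (nat_lit 11550315) (nat_lit 0x182dd78dc) (nat_lit 417310079),
  Rx.mk (nat_lit 293) (nat_lit 5) (nat_lit 4) (nat_lit 4) (nat_lit 1) (nat_lit 230) (nat_lit 271) r8_230 r0_271 (nat_lit 0) (nat_lit 24990952) (nat_lit 15685587) (nat_lit 0x16ee57b22) (nat_lit 463363445),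
  Rx.mk (nat_lit 297) (nat_lit 1) (nat_lit 5) (nat_lit 4) (nat_lit 3) (nat_lit 239) (nat_lit 279) r8_239 r0_279 (nat_lit 0) (nat_lit 0) (nat_lit 9484367) (nat_lit 0x1fc24261e) (nat_lit 282306373),
  Rx.mk (nat_lit 301) (nat_lit 5) (nat_lit 5) (nat_lit 4) (nat_lit 3) (nat_lit 232) (nat_lit 272) r8_232 r0_272 (nat_lit 0) (nat_lit 0) (nat_lit 13709057) (nat_lit 0x1e6527020) (nat_lit 309616313),
  Rx.mk (nat_lit 317) (nat_lit 5) (nat_lit 7) (nat_lit 4) (nat_lit 3) (nat_lit 234) (nat_lit 273) r8_234 r0_273 (nat_lit 0) (nat_lit 0) (nat_lit 9484367) (nat_lit 0x1ffb35d36) (nat_lit 278585473),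
  Rx.mk (nat_lit 353) (nat_lit 1) (nat_lit 4) (nat_lit 5) (nat_lit 5) (nat_lit 238) (nat_lit 280) r8_238 r0_280 (nat_lit 0) (nat_lit 9900802) (nat_lit 0) (nat_lit 0x1d302332a) (nat_lit 326302108),
  Rx.mk (nat_lit 357) (nat_lit 5) (nat_lit 4) (nat_lit 5) (nat_lit 5) (nat_lit 231) (nat_lit 274) r8_231 r0_274 (nat_lit 0) (nat_lit 14687495) (nat_lit 0) (nat_lit 0x1b66eebd6) (nat_lit 361425101),
  Rx.mk (nat_lit 361) (nat_lit 1) (nat_lit 5) (nat_lit 5) (nat_lit 7) (nat_lit 240) (nat_lit 281) r8_240 r0_281 (nat_lit 0) (nat_lit 0) (nat_lit 0) (nat_lit 0x2022bd70a) (nat_lit 266525506),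
  Rx.mk (nat_lit 365) (nat_lit 5) (nat_lit 5) (nat_lit 5) (nat_lit 7) (nat_lit 233) (nat_lit 275) r8_233 r0_275 (nat_lit 0) (nat_lit 0) (nat_lit 0) (nat_lit 0x1f8bb4142) (nat_lit 276413756),
  Rx.mk (nat_lit 381) (nat_lit 5) (nat_lit 7) (nat_lit 5) (nat_lit 7) (nat_lit 235) (nat_lit 276) r8_235 r0_276 (nat_lit 0) (nat_lit 0) (nat_lit 0) (nat_lit 0x1ff5fca0e) (nat_lit 269441006),
  Rx.mk (nat_lit 509) (nat_lit 5) (nat_lit 7) (nat_lit 7) (nat_lit 7) (nat_lit 236) (nat_lit 277) r8_236 r0_277 (nat_lit 0) (nat_lit 0) (nat_lit 0) (nat_lit 0x20056d4f2) (nat_lit 268435456)]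
noncomputable def e15_38 : List Rx := [
  Rx.mk (nat_lit 293) (nat_lit 5) (nat_lit 4) (nat_lit 4) (nat_lit 1) (nat_lit 241) (nat_lit 188) r8_241 r0_188 (nat_lit 0) (nat_lit 7060541) (nat_lit 3895157) (nat_lit 0x16494bc14) (nat_lit 444572854),
  Rx.mk (nat_lit 317) (nat_lit 5) (nat_lit 7) (nat_lit 4) (nat_lit 3) (nat_lit 244) (nat_lit 191) r8_244 r0_191 (nat_lit 0) (nat_lit 0) (nat_lit 5196417) (nat_lit 0x1fa15acb2) (nat_lit 280172673),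
  Rx.mk (nat_lit 357) (nat_lit 5) (nat_lit 4) (nat_lit 5) (nat_lit 5) (nat_lit 242) (nat_lit 189) r8_242 r0_189 (nat_lit 0) (nat_lit 7988855) (nat_lit 0) (nat_lit 0x1dd308112) (nat_lit 313579111),
  Rx.mk (nat_lit 381) (nat_lit 5) (nat_lit 7) (nat_lit 5) (nat_lit 7) (nat_lit 245) (nat_lit 192) r8_245 r0_192 (nat_lit 0) (nat_lit 0) (nat_lit 0) (nat_lit 0x201316b9e) (nat_lit 267545656),
  Rx.mk (nat_lit 421) (nat_lit 5) (nat_lit 4) (nat_lit 6) (nat_lit 5) (nat_lit 243) (nat_lit 190) r8_243 r0_190 (nat_lit 0) (nat_lit 56857679) (nat_lit 0) (nat_lit 0x1feec1780) (nat_lit 326737435),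
  Rx.mk (nat_lit 445) (nat_lit 5) (nat_lit 7) (nat_lit 6) (nat_lit 7) (nat_lit 246) (nat_lit 194) r8_246 r0_194 (nat_lit 0) (nat_lit 0) (nat_lit 0) (nat_lit 0x201316b9e) (nat_lit 267545656),
  Rx.mk (nat_lit 509) (nat_lit 5) (nat_lit 7) (nat_lit 7) (nat_lit 7) (nat_lit 247) (nat_lit 193) r8_247 r0_193 (nat_lit 0) (nat_lit 0) (nat_lit 0) (nat_lit 0x20056d4f2) (nat_lit 268435456)]
noncomputable def e15_39 : List Rx := [
  Rx.mk (nat_lit 293) (nat_lit 5) (nat_lit 4) (nat_lit 4) (nat_lit 1) (nat_lit 248) (nat_lit 388) r8_248 r7_388 (nat_lit 0) (nat_lit 10214042) (nat_lit 11320174) (nat_lit 0x19516debc) (nat_lit 403669772),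
  Rx.mk (nat_lit 301) (nat_lit 5) (nat_lit 5) (nat_lit 4) (nat_lit 3) (nat_lit 251) (nat_lit 389) r8_251 r7_389 (nat_lit 0) (nat_lit 0) (nat_lit 9484367) (nat_lit 0x1ff43348e) (nat_lit 279041273),
  Rx.mk (nat_lit 317) (nat_lit 5) (nat_lit 7) (nat_lit 4) (nat_lit 3) (nat_lit 254) (nat_lit 390) r8_254 r7_390 (nat_lit 0) (nat_lit 0) (nat_lit 9484367) (nat_lit 0x20056d4f2) (nat_lit 277919823),
  Rx.mk (nat_lit 357) (nat_lit 5) (nat_lit 4) (nat_lit 5) (nat_lit 5) (nat_lit 249) (nat_lit 391) r8_249 r7_391 (nat_lit 0) (nat_lit 9484367) (nat_lit 0) (nat_lit 0x1f9da5748) (nat_lit 284716123),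
  Rx.mk (nat_lit 365) (nat_lit 5) (nat_lit 5) (nat_lit 5) (nat_lit 7) (nat_lit 252) (nat_lit 392) r8_252 r7_392 (nat_lit 0) (nat_lit 0) (nat_lit 0) (nat_lit 0x20056d4f2) (nat_lit 268435456),
  Rx.mk (nat_lit 381) (nat_lit 5) (nat_lit 7) (nat_lit 5) (nat_lit 7) (nat_lit 255) (nat_lit 393) r8_255 r7_393 (nat_lit 0) (nat_lit 0) (nat_lit 0) (nat_lit 0x20056d4f2) (nat_lit 268435456),
  Rx.mk (nat_lit 421) (nat_lit 5) (nat_lit 4) (nat_lit 6) (nat_lit 5) (nat_lit 250) (nat_lit 395) r8_250 r7_395 (nat_lit 0) (nat_lit 9484367) (nat_lit 0) (nat_lit 0x1ff7a7da4) (nat_lit 278815973),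
  Rx.mk (nat_lit 429) (nat_lit 5) (nat_lit 5) (nat_lit 6) (nat_lit 7) (nat_lit 253) (nat_lit 396) r8_253 r7_396 (nat_lit 0) (nat_lit 0) (nat_lit 0) (nat_lit 0x20056d4f2) (nat_lit 268435456),
  Rx.mk (nat_lit 509) (nat_lit 5) (nat_lit 7) (nat_lit 7) (nat_lit 7) (nat_lit 256) (nat_lit 394) r8_256 r7_394 (nat_lit 0) (nat_lit 0) (nat_lit 0) (nat_lit 0x20056d4f2) (nat_lit 268435456)]
noncomputable def e15_40 : List Rx := [
  Rx.mk (nat_lit 292) (nat_lit 4) (nat_lit 4) (nat_lit 4) (nat_lit 0) (nat_lit 257) (nat_lit 221) r8_257 r2_221 (nat_lit 2244531) (nat_lit 2321625) (nat_lit 1855565) (nat_lit 0xfe82409a) (nat_lit 548419377),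
  Rx.mk (nat_lit 316) (nat_lit 4) (nat_lit 7) (nat_lit 4) (nat_lit 2) (nat_lit 260) (nat_lit 223) r8_260 r2_223 (nat_lit 7301851) (nat_lit 0) (nat_lit 5757461) (nat_lit 0x1a8f639f0) (nat_lit 374092968),
  Rx.mk (nat_lit 319) (nat_lit 7) (nat_lit 7) (nat_lit 4) (nat_lit 3) (nat_lit 263) (nat_lit 224) r8_263 r2_224 (nat_lit 0) (nat_lit 0) (nat_lit 9484367) (nat_lit 0x1fe0c5e6a) (nat_lit 280309623),
  Rx.mk (nat_lit 420) (nat_lit 4) (nat_lit 4) (nat_lit 6) (nat_lit 4) (nat_lit 258) (nat_lit 222) r8_258 r2_222 (nat_lit 11911936) (nat_lit 12395174) (nat_lit 0) (nat_lit 0x19af7245e) (nat_lit 400205166),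
  Rx.mk (nat_lit 436) (nat_lit 4) (nat_lit 6) (nat_lit 6) (nat_lit 6) (nat_lit 259) (nat_lit 228) r8_259 r2_228 (nat_lit 9484367) (nat_lit 0) (nat_lit 0) (nat_lit 0x1fc9f84b2) (nat_lit 281792823),
  Rx.mk (nat_lit 438) (nat_lit 6) (nat_lit 6) (nat_lit 6) (nat_lit 7) (nat_lit 262) (nat_lit 229) r8_262 r2_229 (nat_lit 0) (nat_lit 0) (nat_lit 0) (nat_lit 0x20056d4f2) (nat_lit 268435456),
  Rx.mk (nat_lit 444) (nat_lit 4) (nat_lit 7) (nat_lit 6) (nat_lit 6) (nat_lit 261) (nat_lit 226) r8_261 r2_226 (nat_lit 9484367) (nat_lit 0) (nat_lit 0) (nat_lit 0x1fe9dbd10) (nat_lit 279713523),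
  Rx.mk (nat_lit 447) (nat_lit 7) (nat_lit 7) (nat_lit 6) (nat_lit 7) (nat_lit 264) (nat_lit 227) r8_264 r2_227 (nat_lit 0) (nat_lit 0) (nat_lit 0) (nat_lit 0x20056d4f2) (nat_lit 268435456),
  Rx.mk (nat_lit 511) (nat_lit 7) (nat_lit 7) (nat_lit 7) (nat_lit 7) (nat_lit 265) (nat_lit 225) r8_265 r2_225 (nat_lit 0) (nat_lit 0) (nat_lit 0) (nat_lit 0x20056d4f2) (nat_lit 268435456)]
noncomputable def e15_41 : List Rx := [
  Rx.mk (nat_lit 292) (nat_lit 4) (nat_lit 4) (nat_lit 4) (nat_lit 0) (nat_lit 266) (nat_lit 202) r8_266 r9_202 (nat_lit 10521872) (nat_lit 9425907) (nat_lit 7358433) (nat_lit 0xfed8bfec) (nat_lit 568969768),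
  Rx.mk (nat_lit 316) (nat_lit 4) (nat_lit 7) (nat_lit 4) (nat_lit 2) (nat_lit 269) (nat_lit 204) r8_269 r9_204 (nat_lit 8834210) (nat_lit 0) (nat_lit 11295192) (nat_lit 0x1a59e41f8) (nat_lit 384717008),
  Rx.mk (nat_lit 319) (nat_lit 7) (nat_lit 7) (nat_lit 4) (nat_lit 3) (nat_lit 271) (nat_lit 205) r8_271 r9_205 (nat_lit 0) (nat_lit 0) (nat_lit 9484367) (nat_lit 0x20056d4f2) (nat_lit 277919823),
  Rx.mk (nat_lit 420) (nat_lit 4) (nat_lit 4) (nat_lit 6) (nat_lit 4) (nat_lit 267) (nat_lit 203) r8_267 r9_203 (nat_lit 9102018) (nat_lit 12417474) (nat_lit 0) (nat_lit 0x1c993f878) (nat_lit 347926448),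
  Rx.mk (nat_lit 436) (nat_lit 4) (nat_lit 6) (nat_lit 6) (nat_lit 6) (nat_lit 268) (nat_lit 207) r8_268 r9_207 (nat_lit 9484367) (nat_lit 0) (nat_lit 0) (nat_lit 0x20056d4f2) (nat_lit 277919823),
  Rx.mk (nat_lit 438) (nat_lit 6) (nat_lit 6) (nat_lit 6) (nat_lit 7) (nat_lit 270) (nat_lit 208) r8_270 r9_208 (nat_lit 0) (nat_lit 0) (nat_lit 0) (nat_lit 0x20056d4f2) (nat_lit 268435456),
  Rx.mk (nat_lit 511) (nat_lit 7) (nat_lit 7) (nat_lit 7) (nat_lit 7) (nat_lit 272) (nat_lit 206) r8_272 r9_206 (nat_lit 0) (nat_lit 0) (nat_lit 0) (nat_lit 0x20056d4f2) (nat_lit 268435456)]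
noncomputable def e15_42 : List Rx := [
  Rx.mk (nat_lit 182) (nat_lit 6) (nat_lit 6) (nat_lit 2) (nat_lit 7) (nat_lit 279) (nat_lit 108) r8_279 r9_108 (nat_lit 0) (nat_lit 0) (nat_lit 0) (nat_lit 0x20056d4f2) (nat_lit 268435456),
  Rx.mk (nat_lit 292) (nat_lit 4) (nat_lit 4) (nat_lit 4) (nat_lit 0) (nat_lit 273) (nat_lit 99) r8_273 r9_99 (nat_lit 4054147) (nat_lit 6484831) (nat_lit 3522600) (nat_lit 0x102a7f066) (nat_lit 551671134),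
  Rx.mk (nat_lit 316) (nat_lit 4) (nat_lit 7) (nat_lit 4) (nat_lit 2) (nat_lit 276) (nat_lit 100) r8_276 r9_100 (nat_lit 8663689) (nat_lit 0) (nat_lit 10509005) (nat_lit 0x19d99ca04) (nat_lit 392273250),
  Rx.mk (nat_lit 319) (nat_lit 7) (nat_lit 7) (nat_lit 4) (nat_lit 3) (nat_lit 280) (nat_lit 101) r8_280 r9_101 (nat_lit 0) (nat_lit 0) (nat_lit 9484367) (nat_lit 0x20056d4f2) (nat_lit 277919823),
  Rx.mk (nat_lit 420) (nat_lit 4) (nat_lit 4) (nat_lit 6) (nat_lit 4) (nat_lit 274) (nat_lit 103) r8_274 r9_103 (nat_lit 10624591) (nat_lit 11245750) (nat_lit 0) (nat_lit 0x1a3e8be9c) (nat_lit 388272497),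
  Rx.mk (nat_lit 436) (nat_lit 4) (nat_lit 6) (nat_lit 6) (nat_lit 6) (nat_lit 275) (nat_lit 106) r8_275 r9_106 (nat_lit 9484367) (nat_lit 0) (nat_lit 0) (nat_lit 0x20056d4f2) (nat_lit 277919823),
  Rx.mk (nat_lit 438) (nat_lit 6) (nat_lit 6) (nat_lit 6) (nat_lit 7) (nat_lit 278) (nat_lit 107) r8_278 r9_107 (nat_lit 0) (nat_lit 0) (nat_lit 0) (nat_lit 0x20056d4f2) (nat_lit 268435456),
  Rx.mk (nat_lit 444) (nat_lit 4) (nat_lit 7) (nat_lit 6) (nat_lit 6) (nat_lit 277) (nat_lit 104) r8_277 r9_104 (nat_lit 9484367) (nat_lit 0) (nat_lit 0) (nat_lit 0x20056d4f2) (nat_lit 277919823),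
  Rx.mk (nat_lit 447) (nat_lit 7) (nat_lit 7) (nat_lit 6) (nat_lit 7) (nat_lit 281) (nat_lit 105) r8_281 r9_105 (nat_lit 0) (nat_lit 0) (nat_lit 0) (nat_lit 0x20056d4f2) (nat_lit 268435456),
  Rx.mk (nat_lit 511) (nat_lit 7) (nat_lit 7) (nat_lit 7) (nat_lit 7) (nat_lit 282) (nat_lit 102) r8_282 r9_102 (nat_lit 0) (nat_lit 0) (nat_lit 0) (nat_lit 0x20056d4f2) (nat_lit 268435456)]
noncomputable def e15_43 : List Rx := [
  Rx.mk (nat_lit 292) (nat_lit 4) (nat_lit 4) (nat_lit 4) (nat_lit 0) (nat_lit 283) (nat_lit 201) r8_283 r1_201 (nat_lit 2297773) (nat_lit 21867451) (nat_lit 7297896) (nat_lit 0x122387504) (nat_lit 535543626),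
  Rx.mk (nat_lit 293) (nat_lit 5) (nat_lit 4) (nat_lit 4) (nat_lit 1) (nat_lit 289) (nat_lit 202) r8_289 r1_202 (nat_lit 0) (nat_lit 10882942) (nat_lit 13214423) (nat_lit 0x19da949de) (nat_lit 397122321),
  Rx.mk (nat_lit 316) (nat_lit 4) (nat_lit 7) (nat_lit 4) (nat_lit 2) (nat_lit 286) (nat_lit 206) r8_286 r1_206 (nat_lit 7735107) (nat_lit 0) (nat_lit 11602876) (nat_lit 0x1a7f00338) (nat_lit 381456989),
  Rx.mk (nat_lit 317) (nat_lit 5) (nat_lit 7) (nat_lit 4) (nat_lit 3) (nat_lit 293) (nat_lit 207) r8_293 r1_207 (nat_lit 0) (nat_lit 0) (nat_lit 9484367) (nat_lit 0x20056d4f2) (nat_lit 277919823),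
  Rx.mk (nat_lit 357) (nat_lit 5) (nat_lit 4) (nat_lit 5) (nat_lit 5) (nat_lit 290) (nat_lit 203) r8_290 r1_203 (nat_lit 0) (nat_lit 9931330) (nat_lit 0) (nat_lit 0x1fe7e6424) (nat_lit 280291336),
  Rx.mk (nat_lit 381) (nat_lit 5) (nat_lit 7) (nat_lit 5) (nat_lit 7) (nat_lit 294) (nat_lit 208) r8_294 r1_208 (nat_lit 0) (nat_lit 0) (nat_lit 0) (nat_lit 0x20056d4f2) (nat_lit 268435456),
  Rx.mk (nat_lit 420) (nat_lit 4) (nat_lit 4) (nat_lit 6) (nat_lit 4) (nat_lit 284) (nat_lit 204) r8_284 r1_204 (nat_lit 6929116) (nat_lit 35547039) (nat_lit 0) (nat_lit 0x1ae23a2dc) (nat_lit 398008261),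
  Rx.mk (nat_lit 421) (nat_lit 5) (nat_lit 4) (nat_lit 6) (nat_lit 5) (nat_lit 291) (nat_lit 205) r8_291 r1_205 (nat_lit 0) (nat_lit 16360369) (nat_lit 0) (nat_lit 0x207a02b46) (nat_lit 277234125),
  Rx.mk (nat_lit 436) (nat_lit 4) (nat_lit 6) (nat_lit 6) (nat_lit 6) (nat_lit 285) (nat_lit 214) r8_285 r1_214 (nat_lit 8744868) (nat_lit 0) (nat_lit 0) (nat_lit 0x1d6cc99f0) (nat_lit 321116524),
  Rx.mk (nat_lit 437) (nat_lit 5) (nat_lit 6) (nat_lit 6) (nat_lit 7) (nat_lit 292) (nat_lit 215) r8_292 r1_215 (nat_lit 0) (nat_lit 0) (nat_lit 0) (nat_lit 0x20ec457d0) (nat_lit 253540856),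
  Rx.mk (nat_lit 438) (nat_lit 6) (nat_lit 6) (nat_lit 6) (nat_lit 7) (nat_lit 297) (nat_lit 216) r8_297 r1_216 (nat_lit 0) (nat_lit 0) (nat_lit 0) (nat_lit 0x1fa0d60fc) (nat_lit 275021756),
  Rx.mk (nat_lit 444) (nat_lit 4) (nat_lit 7) (nat_lit 6) (nat_lit 6) (nat_lit 287) (nat_lit 212) r8_287 r1_212 (nat_lit 9484367) (nat_lit 0) (nat_lit 0) (nat_lit 0x20056d4f2) (nat_lit 277919823),
  Rx.mk (nat_lit 445) (nat_lit 5) (nat_lit 7) (nat_lit 6) (nat_lit 7) (nat_lit 295) (nat_lit 213) r8_295 r1_213 (nat_lit 0) (nat_lit 0) (nat_lit 0) (nat_lit 0x20056d4f2) (nat_lit 268435456),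
  Rx.mk (nat_lit 508) (nat_lit 4) (nat_lit 7) (nat_lit 7) (nat_lit 6) (nat_lit 288) (nat_lit 209) r8_288 r1_209 (nat_lit 10031145) (nat_lit 0) (nat_lit 0) (nat_lit 0x1fcf46e78) (nat_lit 282000201),
  Rx.mk (nat_lit 509) (nat_lit 5) (nat_lit 7) (nat_lit 7) (nat_lit 7) (nat_lit 296) (nat_lit 210) r8_296 r1_210 (nat_lit 0) (nat_lit 0) (nat_lit 0) (nat_lit 0x20056d4f2) (nat_lit 268435456),
  Rx.mk (nat_lit 511) (nat_lit 7) (nat_lit 7) (nat_lit 7) (nat_lit 7) (nat_lit 298) (nat_lit 211) r8_298 r1_211 (nat_lit 0) (nat_lit 0) (nat_lit 0) (nat_lit 0x20056d4f2) (nat_lit 268435456)]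
noncomputable def e15_44 : List Rx := [
  Rx.mk (nat_lit 292) (nat_lit 4) (nat_lit 4) (nat_lit 4) (nat_lit 0) (nat_lit 299) (nat_lit 299) r8_299 r8_299 (nat_lit 12102617) (nat_lit 11217679) (nat_lit 11217679) (nat_lit 0xff1c69e0) (nat_lit 575917581),
  Rx.mk (nat_lit 293) (nat_lit 5) (nat_lit 4) (nat_lit 4) (nat_lit 1) (nat_lit 304) (nat_lit 304) r8_304 r8_304 (nat_lit 0) (nat_lit 13082183) (nat_lit 13082183) (nat_lit 0x1aaf180c0) (nat_lit 385098822),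
  Rx.mk (nat_lit 301) (nat_lit 5) (nat_lit 5) (nat_lit 4) (nat_lit 3) (nat_lit 307) (nat_lit 305) r8_307 r8_305 (nat_lit 0) (nat_lit 0) (nat_lit 9484367) (nat_lit 0x20056d4f2) (nat_lit 277919823),
  Rx.mk (nat_lit 316) (nat_lit 4) (nat_lit 7) (nat_lit 4) (nat_lit 2) (nat_lit 302) (nat_lit 300) r8_302 r8_300 (nat_lit 15441429) (nat_lit 0) (nat_lit 10262683) (nat_lit 0x1aef99716) (nat_lit 380358468),
  Rx.mk (nat_lit 317) (nat_lit 5) (nat_lit 7) (nat_lit 4) (nat_lit 3) (nat_lit 311) (nat_lit 306) r8_311 r8_306 (nat_lit 0) (nat_lit 0) (nat_lit 9484367) (nat_lit 0x20056d4f2) (nat_lit 277919823),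
  Rx.mk (nat_lit 357) (nat_lit 5) (nat_lit 4) (nat_lit 5) (nat_lit 5) (nat_lit 305) (nat_lit 307) r8_305 r8_307 (nat_lit 0) (nat_lit 9484367) (nat_lit 0) (nat_lit 0x20056d4f2) (nat_lit 277919823),
  Rx.mk (nat_lit 365) (nat_lit 5) (nat_lit 5) (nat_lit 5) (nat_lit 7) (nat_lit 308) (nat_lit 308) r8_308 r8_308 (nat_lit 0) (nat_lit 0) (nat_lit 0) (nat_lit 0x20056d4f2) (nat_lit 268435456),
  Rx.mk (nat_lit 381) (nat_lit 5) (nat_lit 7) (nat_lit 5) (nat_lit 7) (nat_lit 312) (nat_lit 309) r8_312 r8_309 (nat_lit 0) (nat_lit 0) (nat_lit 0) (nat_lit 0x20056d4f2) (nat_lit 268435456),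
  Rx.mk (nat_lit 420) (nat_lit 4) (nat_lit 4) (nat_lit 6) (nat_lit 4) (nat_lit 300) (nat_lit 302) r8_300 r8_302 (nat_lit 15441429) (nat_lit 10262683) (nat_lit 0) (nat_lit 0x1aef99716) (nat_lit 380358468),
  Rx.mk (nat_lit 421) (nat_lit 5) (nat_lit 4) (nat_lit 6) (nat_lit 5) (nat_lit 306) (nat_lit 311) r8_306 r8_311 (nat_lit 0) (nat_lit 9484367) (nat_lit 0) (nat_lit 0x20056d4f2) (nat_lit 277919823),
  Rx.mk (nat_lit 429) (nat_lit 5) (nat_lit 5) (nat_lit 6) (nat_lit 7) (nat_lit 309) (nat_lit 312) r8_309 r8_312 (nat_lit 0) (nat_lit 0) (nat_lit 0) (nat_lit 0x20056d4f2) (nat_lit 268435456),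
  Rx.mk (nat_lit 436) (nat_lit 4) (nat_lit 6) (nat_lit 6) (nat_lit 6) (nat_lit 301) (nat_lit 303) r8_301 r8_303 (nat_lit 9484367) (nat_lit 0) (nat_lit 0) (nat_lit 0x20056d4f2) (nat_lit 277919823),
  Rx.mk (nat_lit 437) (nat_lit 5) (nat_lit 6) (nat_lit 6) (nat_lit 7) (nat_lit 310) (nat_lit 313) r8_310 r8_313 (nat_lit 0) (nat_lit 0) (nat_lit 0) (nat_lit 0x20056d4f2) (nat_lit 268435456),
  Rx.mk (nat_lit 438) (nat_lit 6) (nat_lit 6) (nat_lit 6) (nat_lit 7) (nat_lit 314) (nat_lit 315) r8_314 r8_315 (nat_lit 0) (nat_lit 0) (nat_lit 0) (nat_lit 0x20056d4f2) (nat_lit 268435456),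
  Rx.mk (nat_lit 508) (nat_lit 4) (nat_lit 7) (nat_lit 7) (nat_lit 6) (nat_lit 303) (nat_lit 301) r8_303 r8_301 (nat_lit 9484367) (nat_lit 0) (nat_lit 0) (nat_lit 0x20056d4f2) (nat_lit 277919823),
  Rx.mk (nat_lit 509) (nat_lit 5) (nat_lit 7) (nat_lit 7) (nat_lit 7) (nat_lit 313) (nat_lit 310) r8_313 r8_310 (nat_lit 0) (nat_lit 0) (nat_lit 0) (nat_lit 0x20056d4f2) (nat_lit 268435456),
  Rx.mk (nat_lit 511) (nat_lit 7) (nat_lit 7) (nat_lit 7) (nat_lit 7) (nat_lit 315) (nat_lit 314) r8_315 r8_314 (nat_lit 0) (nat_lit 0) (nat_lit 0) (nat_lit 0x20056d4f2) (nat_lit 268435456)]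
noncomputable def e15_45 : List Rx := [
  Rx.mk (nat_lit 297) (nat_lit 1) (nat_lit 5) (nat_lit 4) (nat_lit 3) (nat_lit 318) (nat_lit 276) r8_318 r1_276 (nat_lit 0) (nat_lit 0) (nat_lit 9484367) (nat_lit 0x1fd832dac) (nat_lit 280871973),
  Rx.mk (nat_lit 301) (nat_lit 5) (nat_lit 5) (nat_lit 4) (nat_lit 3) (nat_lit 316) (nat_lit 274) r8_316 r1_274 (nat_lit 0) (nat_lit 0) (nat_lit 9484367) (nat_lit 0x1fcee3b0c) (nat_lit 281479073),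
  Rx.mk (nat_lit 361) (nat_lit 1) (nat_lit 5) (nat_lit 5) (nat_lit 7) (nat_lit 319) (nat_lit 277) r8_319 r1_277 (nat_lit 0) (nat_lit 0) (nat_lit 0) (nat_lit 0x20056d4f2) (nat_lit 268435456),
  Rx.mk (nat_lit 365) (nat_lit 5) (nat_lit 5) (nat_lit 5) (nat_lit 7) (nat_lit 317) (nat_lit 275) r8_317 r1_275 (nat_lit 0) (nat_lit 0) (nat_lit 0) (nat_lit 0x20056d4f2) (nat_lit 268435456)]
noncomputable def e15_46 : List Rx := [
  Rx.mk (nat_lit 329) (nat_lit 1) (nat_lit 1) (nat_lit 5) (nat_lit 7) (nat_lit 322) (nat_lit 303) r8_322 r2_303 (nat_lit 0) (nat_lit 0) (nat_lit 0) (nat_lit 0x20056d4f2) (nat_lit 268435456),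
  Rx.mk (nat_lit 361) (nat_lit 1) (nat_lit 5) (nat_lit 5) (nat_lit 7) (nat_lit 321) (nat_lit 302) r8_321 r2_302 (nat_lit 0) (nat_lit 0) (nat_lit 0) (nat_lit 0x20056d4f2) (nat_lit 268435456),
  Rx.mk (nat_lit 365) (nat_lit 5) (nat_lit 5) (nat_lit 5) (nat_lit 7) (nat_lit 320) (nat_lit 301) r8_320 r2_301 (nat_lit 0) (nat_lit 0) (nat_lit 0) (nat_lit 0x20056d4f2) (nat_lit 268435456)]
noncomputable def e15_47 : List Rx := [
  Rx.mk (nat_lit 301) (nat_lit 5) (nat_lit 5) (nat_lit 4) (nat_lit 3) (nat_lit 323) (nat_lit 191) r8_323 r8_191 (nat_lit 0) (nat_lit 0) (nat_lit 9484367) (nat_lit 0x1ff65bae0) (nat_lit 278900523),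
  Rx.mk (nat_lit 365) (nat_lit 5) (nat_lit 5) (nat_lit 5) (nat_lit 7) (nat_lit 324) (nat_lit 192) r8_324 r8_192 (nat_lit 0) (nat_lit 0) (nat_lit 0) (nat_lit 0x20056d4f2) (nat_lit 268435456),
  Rx.mk (nat_lit 429) (nat_lit 5) (nat_lit 5) (nat_lit 6) (nat_lit 7) (nat_lit 325) (nat_lit 193) r8_325 r8_193 (nat_lit 0) (nat_lit 0) (nat_lit 0) (nat_lit 0x20056d4f2) (nat_lit 268435456)]
noncomputable def e15_48 : List Rx := [
  Rx.mk (nat_lit 365) (nat_lit 5) (nat_lit 5) (nat_lit 5) (nat_lit 7) (nat_lit 326) (nat_lit 289) r8_326 r9_289 (nat_lit 0) (nat_lit 0) (nat_lit 0) (nat_lit 0x20056d4f2) (nat_lit 268435456)]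
noncomputable def e15_49 : List Rx := [
  Rx.mk (nat_lit 73) (nat_lit 1) (nat_lit 1) (nat_lit 1) (nat_lit 7) (nat_lit 330) (nat_lit 294) r8_330 r9_294 (nat_lit 0) (nat_lit 0) (nat_lit 0) (nat_lit 0x20056d4f2) (nat_lit 268435456),
  Rx.mk (nat_lit 329) (nat_lit 1) (nat_lit 1) (nat_lit 5) (nat_lit 7) (nat_lit 329) (nat_lit 295) r8_329 r9_295 (nat_lit 0) (nat_lit 0) (nat_lit 0) (nat_lit 0x20056d4f2) (nat_lit 268435456),
  Rx.mk (nat_lit 361) (nat_lit 1) (nat_lit 5) (nat_lit 5) (nat_lit 7) (nat_lit 328) (nat_lit 296) r8_328 r9_296 (nat_lit 0) (nat_lit 0) (nat_lit 0) (nat_lit 0x20056d4f2) (nat_lit 268435456),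
  Rx.mk (nat_lit 365) (nat_lit 5) (nat_lit 5) (nat_lit 5) (nat_lit 7) (nat_lit 327) (nat_lit 297) r8_327 r9_297 (nat_lit 0) (nat_lit 0) (nat_lit 0) (nat_lit 0x20056d4f2) (nat_lit 268435456)]
noncomputable def e15_50 : List Rx := [
  Rx.mk (nat_lit 289) (nat_lit 1) (nat_lit 4) (nat_lit 4) (nat_lit 1) (nat_lit 334) (nat_lit 268) r8_334 r3_268 (nat_lit 0) (nat_lit 96896) (nat_lit 134030) (nat_lit 0x19463edca) (nat_lit 382952982),
  Rx.mk (nat_lit 313) (nat_lit 1) (nat_lit 7) (nat_lit 4) (nat_lit 3) (nat_lit 336) (nat_lit 269) r8_336 r3_269 (nat_lit 0) (nat_lit 0) (nat_lit 530915) (nat_lit 0x1e3090140) (nat_lit 299805471),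
  Rx.mk (nat_lit 317) (nat_lit 5) (nat_lit 7) (nat_lit 4) (nat_lit 3) (nat_lit 331) (nat_lit 265) r8_331 r3_265 (nat_lit 0) (nat_lit 0) (nat_lit 2083584) (nat_lit 0x1cd374fde) (nat_lit 324604590),
  Rx.mk (nat_lit 353) (nat_lit 1) (nat_lit 4) (nat_lit 5) (nat_lit 5) (nat_lit 335) (nat_lit 270) r8_335 r3_270 (nat_lit 0) (nat_lit 4930844) (nat_lit 0) (nat_lit 0x1cb21f67c) (nat_lit 329672900),
  Rx.mk (nat_lit 377) (nat_lit 1) (nat_lit 7) (nat_lit 5) (nat_lit 7) (nat_lit 337) (nat_lit 271) r8_337 r3_271 (nat_lit 0) (nat_lit 0) (nat_lit 0) (nat_lit 0x205323fa2) (nat_lit 263389706),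
  Rx.mk (nat_lit 381) (nat_lit 5) (nat_lit 7) (nat_lit 5) (nat_lit 7) (nat_lit 332) (nat_lit 266) r8_332 r3_266 (nat_lit 0) (nat_lit 0) (nat_lit 0) (nat_lit 0x2039c7270) (nat_lit 265031006),
  Rx.mk (nat_lit 509) (nat_lit 5) (nat_lit 7) (nat_lit 7) (nat_lit 7) (nat_lit 333) (nat_lit 267) r8_333 r3_267 (nat_lit 0) (nat_lit 0) (nat_lit 0) (nat_lit 0x1f3fc097a) (nat_lit 281425406)]
noncomputable def e15_51 : List Rx := [
  Rx.mk (nat_lit 289) (nat_lit 1) (nat_lit 4) (nat_lit 4) (nat_lit 1) (nat_lit 341) (nat_lit 287) r8_341 r4_287 (nat_lit 0) (nat_lit 14567528) (nat_lit 12458268) (nat_lit 0x1d73a9072) (nat_lit 338947352),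
  Rx.mk (nat_lit 297) (nat_lit 1) (nat_lit 5) (nat_lit 4) (nat_lit 3) (nat_lit 343) (nat_lit 288) r8_343 r4_288 (nat_lit 0) (nat_lit 0) (nat_lit 9484367) (nat_lit 0x20056d4f2) (nat_lit 277919823),
  Rx.mk (nat_lit 313) (nat_lit 1) (nat_lit 7) (nat_lit 4) (nat_lit 3) (nat_lit 345) (nat_lit 289) r8_345 r4_289 (nat_lit 0) (nat_lit 0) (nat_lit 9484367) (nat_lit 0x20056d4f2) (nat_lit 277919823),
  Rx.mk (nat_lit 317) (nat_lit 5) (nat_lit 7) (nat_lit 4) (nat_lit 3) (nat_lit 338) (nat_lit 284) r8_338 r4_284 (nat_lit 0) (nat_lit 0) (nat_lit 9484367) (nat_lit 0x20056d4f2) (nat_lit 277919823),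
  Rx.mk (nat_lit 353) (nat_lit 1) (nat_lit 4) (nat_lit 5) (nat_lit 5) (nat_lit 342) (nat_lit 290) r8_342 r4_290 (nat_lit 0) (nat_lit 8683363) (nat_lit 0) (nat_lit 0x1fe72858c) (nat_lit 279088869),
  Rx.mk (nat_lit 361) (nat_lit 1) (nat_lit 5) (nat_lit 5) (nat_lit 7) (nat_lit 344) (nat_lit 291) r8_344 r4_291 (nat_lit 0) (nat_lit 0) (nat_lit 0) (nat_lit 0x20056d4f2) (nat_lit 268435456),
  Rx.mk (nat_lit 377) (nat_lit 1) (nat_lit 7) (nat_lit 5) (nat_lit 7) (nat_lit 346) (nat_lit 292) r8_346 r4_292 (nat_lit 0) (nat_lit 0) (nat_lit 0) (nat_lit 0x20056d4f2) (nat_lit 268435456),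
  Rx.mk (nat_lit 381) (nat_lit 5) (nat_lit 7) (nat_lit 5) (nat_lit 7) (nat_lit 339) (nat_lit 285) r8_339 r4_285 (nat_lit 0) (nat_lit 0) (nat_lit 0) (nat_lit 0x20056d4f2) (nat_lit 268435456),
  Rx.mk (nat_lit 509) (nat_lit 5) (nat_lit 7) (nat_lit 7) (nat_lit 7) (nat_lit 340) (nat_lit 286) r8_340 r4_286 (nat_lit 0) (nat_lit 0) (nat_lit 0) (nat_lit 0x20056d4f2) (nat_lit 268435456)]
noncomputable def e15_52 : List Rx := [
  Rx.mk (nat_lit 313) (nat_lit 1) (nat_lit 7) (nat_lit 4) (nat_lit 3) (nat_lit 349) (nat_lit 271) r8_349 r5_271 (nat_lit 0) (nat_lit 0) (nat_lit 7987863) (nat_lit 0x2001dda6c) (nat_lit 276652469),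
  Rx.mk (nat_lit 317) (nat_lit 5) (nat_lit 7) (nat_lit 4) (nat_lit 3) (nat_lit 347) (nat_lit 269) r8_347 r5_269 (nat_lit 0) (nat_lit 0) (nat_lit 9484367) (nat_lit 0x20056d4f2) (nat_lit 277919823),
  Rx.mk (nat_lit 377) (nat_lit 1) (nat_lit 7) (nat_lit 5) (nat_lit 7) (nat_lit 350) (nat_lit 272) r8_350 r5_272 (nat_lit 0) (nat_lit 0) (nat_lit 0) (nat_lit 0x20056d4f2) (nat_lit 268435456),
  Rx.mk (nat_lit 381) (nat_lit 5) (nat_lit 7) (nat_lit 5) (nat_lit 7) (nat_lit 348) (nat_lit 270) r8_348 r5_270 (nat_lit 0) (nat_lit 0) (nat_lit 0) (nat_lit 0x20056d4f2) (nat_lit 268435456)]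
noncomputable def e15_53 : List Rx := [
  Rx.mk (nat_lit 317) (nat_lit 5) (nat_lit 7) (nat_lit 4) (nat_lit 3) (nat_lit 351) (nat_lit 177) r8_351 r4_177 (nat_lit 0) (nat_lit 0) (nat_lit 7402043) (nat_lit 0x20243408e) (nat_lit 273833849),
  Rx.mk (nat_lit 381) (nat_lit 5) (nat_lit 7) (nat_lit 5) (nat_lit 7) (nat_lit 352) (nat_lit 178) r8_352 r4_178 (nat_lit 0) (nat_lit 0) (nat_lit 0) (nat_lit 0x2018af5f6) (nat_lit 267182206),
  Rx.mk (nat_lit 445) (nat_lit 5) (nat_lit 7) (nat_lit 6) (nat_lit 7) (nat_lit 353) (nat_lit 180) r8_353 r4_180 (nat_lit 0) (nat_lit 0) (nat_lit 0) (nat_lit 0x2018af5f6) (nat_lit 267182206),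
  Rx.mk (nat_lit 509) (nat_lit 5) (nat_lit 7) (nat_lit 7) (nat_lit 7) (nat_lit 354) (nat_lit 179) r8_354 r4_179 (nat_lit 0) (nat_lit 0) (nat_lit 0) (nat_lit 0x20056d4f2) (nat_lit 268435456)]
noncomputable def e15_54 : List Rx := [
  Rx.mk (nat_lit 317) (nat_lit 5) (nat_lit 7) (nat_lit 4) (nat_lit 3) (nat_lit 355) (nat_lit 317) r8_355 r10_317 (nat_lit 0) (nat_lit 0) (nat_lit 11260883) (nat_lit 0x1fe865990) (nat_lit 281588039),
  Rx.mk (nat_lit 381) (nat_lit 5) (nat_lit 7) (nat_lit 5) (nat_lit 7) (nat_lit 356) (nat_lit 318) r8_356 r10_318 (nat_lit 0) (nat_lit 0) (nat_lit 0) (nat_lit 0x20056d4f2) (nat_lit 268435456),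
  Rx.mk (nat_lit 509) (nat_lit 5) (nat_lit 7) (nat_lit 7) (nat_lit 7) (nat_lit 357) (nat_lit 319) r8_357 r10_319 (nat_lit 0) (nat_lit 0) (nat_lit 0) (nat_lit 0x20056d4f2) (nat_lit 268435456)]
noncomputable def e15_55 : List Rx := [
  Rx.mk (nat_lit 317) (nat_lit 5) (nat_lit 7) (nat_lit 4) (nat_lit 3) (nat_lit 358) (nat_lit 335) r8_358 r11_335 (nat_lit 0) (nat_lit 0) (nat_lit 9484367) (nat_lit 0x20056d4f2) (nat_lit 277919823),
  Rx.mk (nat_lit 381) (nat_lit 5) (nat_lit 7) (nat_lit 5) (nat_lit 7) (nat_lit 359) (nat_lit 336) r8_359 r11_336 (nat_lit 0) (nat_lit 0) (nat_lit 0) (nat_lit 0x20056d4f2) (nat_lit 268435456),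
  Rx.mk (nat_lit 445) (nat_lit 5) (nat_lit 7) (nat_lit 6) (nat_lit 7) (nat_lit 360) (nat_lit 337) r8_360 r11_337 (nat_lit 0) (nat_lit 0) (nat_lit 0) (nat_lit 0x20056d4f2) (nat_lit 268435456)]
noncomputable def e15_56 : List Rx := [
  Rx.mk (nat_lit 289) (nat_lit 1) (nat_lit 4) (nat_lit 4) (nat_lit 1) (nat_lit 362) (nat_lit 191) r8_362 r5_191 (nat_lit 0) (nat_lit 26396504) (nat_lit 8756992) (nat_lit 0x1c43e0c92) (nat_lit 367216652),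
  Rx.mk (nat_lit 313) (nat_lit 1) (nat_lit 7) (nat_lit 4) (nat_lit 3) (nat_lit 364) (nat_lit 193) r8_364 r5_193 (nat_lit 0) (nat_lit 0) (nat_lit 7909427) (nat_lit 0x1fb625da4) (nat_lit 281515433),
  Rx.mk (nat_lit 353) (nat_lit 1) (nat_lit 4) (nat_lit 5) (nat_lit 5) (nat_lit 363) (nat_lit 192) r8_363 r5_192 (nat_lit 0) (nat_lit 9885199) (nat_lit 0) (nat_lit 0x1fd8245a4) (nat_lit 281271605),
  Rx.mk (nat_lit 377) (nat_lit 1) (nat_lit 7) (nat_lit 5) (nat_lit 7) (nat_lit 365) (nat_lit 194) r8_365 r5_194 (nat_lit 0) (nat_lit 0) (nat_lit 0) (nat_lit 0x2026dc426) (nat_lit 266260456),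
  Rx.mk (nat_lit 505) (nat_lit 1) (nat_lit 7) (nat_lit 7) (nat_lit 7) (nat_lit 366) (nat_lit 195) r8_366 r5_195 (nat_lit 0) (nat_lit 0) (nat_lit 0) (nat_lit 0x1fbd1022c) (nat_lit 273166256),
  Rx.mk (nat_lit 509) (nat_lit 5) (nat_lit 7) (nat_lit 7) (nat_lit 7) (nat_lit 361) (nat_lit 196) r8_361 r5_196 (nat_lit 0) (nat_lit 0) (nat_lit 0) (nat_lit 0x1ff462c52) (nat_lit 269545756)]
noncomputable def e15_57 : List Rx := [
  Rx.mk (nat_lit 289) (nat_lit 1) (nat_lit 4) (nat_lit 4) (nat_lit 1) (nat_lit 368) (nat_lit 222) r8_368 r11_222 (nat_lit 0) (nat_lit 29966362) (nat_lit 24191423) (nat_lit 0x1ebb93526) (nat_lit 344331841),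
  Rx.mk (nat_lit 297) (nat_lit 1) (nat_lit 5) (nat_lit 4) (nat_lit 3) (nat_lit 370) (nat_lit 224) r8_370 r11_224 (nat_lit 0) (nat_lit 0) (nat_lit 9484367) (nat_lit 0x20056d4f2) (nat_lit 277919823),
  Rx.mk (nat_lit 313) (nat_lit 1) (nat_lit 7) (nat_lit 4) (nat_lit 3) (nat_lit 372) (nat_lit 226) r8_372 r11_226 (nat_lit 0) (nat_lit 0) (nat_lit 9484367) (nat_lit 0x20056d4f2) (nat_lit 277919823),
  Rx.mk (nat_lit 353) (nat_lit 1) (nat_lit 4) (nat_lit 5) (nat_lit 5) (nat_lit 369) (nat_lit 223) r8_369 r11_223 (nat_lit 0) (nat_lit 9484367) (nat_lit 0) (nat_lit 0x20056d4f2) (nat_lit 277919823),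
  Rx.mk (nat_lit 361) (nat_lit 1) (nat_lit 5) (nat_lit 5) (nat_lit 7) (nat_lit 371) (nat_lit 225) r8_371 r11_225 (nat_lit 0) (nat_lit 0) (nat_lit 0) (nat_lit 0x20056d4f2) (nat_lit 268435456),
  Rx.mk (nat_lit 377) (nat_lit 1) (nat_lit 7) (nat_lit 5) (nat_lit 7) (nat_lit 373) (nat_lit 227) r8_373 r11_227 (nat_lit 0) (nat_lit 0) (nat_lit 0) (nat_lit 0x20056d4f2) (nat_lit 268435456),
  Rx.mk (nat_lit 505) (nat_lit 1) (nat_lit 7) (nat_lit 7) (nat_lit 7) (nat_lit 374) (nat_lit 228) r8_374 r11_228 (nat_lit 0) (nat_lit 0) (nat_lit 0) (nat_lit 0x20056d4f2) (nat_lit 268435456),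
  Rx.mk (nat_lit 509) (nat_lit 5) (nat_lit 7) (nat_lit 7) (nat_lit 7) (nat_lit 367) (nat_lit 229) r8_367 r11_229 (nat_lit 0) (nat_lit 0) (nat_lit 0) (nat_lit 0x20056d4f2) (nat_lit 268435456)]
noncomputable def e15 : List (List Rx) := [e15_0, e15_1, e15_2, e15_3, e15_4, e15_5, e15_6, e15_7, e15_8, e15_9, e15_10, e15_11, e15_12, e15_13, e15_14, e15_15, e15_16, e15_17, e15_18, e15_19, e15_20, e15_21, e15_22, e15_23, e15_24, e15_25, e15_26, e15_27, e15_28, e15_29, e15_30, e15_31, e15_32, e15_33, e15_34, e15_35, e15_36, e15_37, e15_38, e15_39, e15_40, e15_41, e15_42, e15_43, e15_44, e15_45, e15_46, e15_47, e15_48, e15_49, e15_50, e15_51, e15_52, e15_53, e15_54, e15_55, e15_56, e15_57]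
noncomputable def e16_0 : List Rx := [
  Rx.mk (nat_lit 475) (nat_lit 3) (nat_lit 3) (nat_lit 7) (nat_lit 7) (nat_lit 76) (nat_lit 139) r8_76 r0_139 (nat_lit 0) (nat_lit 0) (nat_lit 0) (nat_lit 0x1ff97bb76) (nat_lit 269212656),
  Rx.mk (nat_lit 507) (nat_lit 3) (nat_lit 7) (nat_lit 7) (nat_lit 7) (nat_lit 77) (nat_lit 140) r8_77 r0_140 (nat_lit 0) (nat_lit 0) (nat_lit 0) (nat_lit 0x20056d4f2) (nat_lit 268435456)]
noncomputable def e16_1 : List Rx := [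
  Rx.mk (nat_lit 0) (nat_lit 0) (nat_lit 0) (nat_lit 0) (nat_lit 0) (nat_lit 90) (nat_lit 141) r8_90 r1_141 (nat_lit 4308292) (nat_lit 11933065) (nat_lit 2921945) (nat_lit 0x103c1157c) (nat_lit 555604158),
  Rx.mk (nat_lit 2) (nat_lit 2) (nat_lit 0) (nat_lit 0) (nat_lit 1) (nat_lit 91) (nat_lit 147) r8_91 r1_147 (nat_lit 0) (nat_lit 10663373) (nat_lit 3978459) (nat_lit 0x18b957628) (nat_lit 406863088),
  Rx.mk (nat_lit 18) (nat_lit 2) (nat_lit 2) (nat_lit 0) (nat_lit 3) (nat_lit 92) (nat_lit 150) r8_92 r1_150 (nat_lit 0) (nat_lit 0) (nat_lit 8196881) (nat_lit 0x1ec204662) (nat_lit 297938937),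
  Rx.mk (nat_lit 146) (nat_lit 2) (nat_lit 2) (nat_lit 2) (nat_lit 7) (nat_lit 93) (nat_lit 152) r8_93 r1_152 (nat_lit 0) (nat_lit 0) (nat_lit 0) (nat_lit 0x20056d4f2) (nat_lit 268435456),
  Rx.mk (nat_lit 192) (nat_lit 0) (nat_lit 0) (nat_lit 3) (nat_lit 4) (nat_lit 94) (nat_lit 142) r8_94 r1_142 (nat_lit 14059414) (nat_lit 19611998) (nat_lit 0) (nat_lit 0x1db198414) (nat_lit 341479368),
  Rx.mk (nat_lit 194) (nat_lit 2) (nat_lit 0) (nat_lit 3) (nat_lit 5) (nat_lit 95) (nat_lit 148) r8_95 r1_148 (nat_lit 0) (nat_lit 9657344) (nat_lit 0) (nat_lit 0x1ff57a838) (nat_lit 279131350),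
  Rx.mk (nat_lit 210) (nat_lit 2) (nat_lit 2) (nat_lit 3) (nat_lit 7) (nat_lit 96) (nat_lit 151) r8_96 r1_151 (nat_lit 0) (nat_lit 0) (nat_lit 0) (nat_lit 0x20056d4f2) (nat_lit 268435456),
  Rx.mk (nat_lit 216) (nat_lit 0) (nat_lit 3) (nat_lit 3) (nat_lit 6) (nat_lit 97) (nat_lit 143) r8_97 r1_143 (nat_lit 9484367) (nat_lit 0) (nat_lit 0) (nat_lit 0x20000ee3e) (nat_lit 278269023),
  Rx.mk (nat_lit 218) (nat_lit 2) (nat_lit 3) (nat_lit 3) (nat_lit 7) (nat_lit 98) (nat_lit 149) r8_98 r1_149 (nat_lit 0) (nat_lit 0) (nat_lit 0) (nat_lit 0x20056d4f2) (nat_lit 268435456),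
  Rx.mk (nat_lit 219) (nat_lit 3) (nat_lit 3) (nat_lit 3) (nat_lit 7) (nat_lit 99) (nat_lit 144) r8_99 r1_144 (nat_lit 0) (nat_lit 0) (nat_lit 0) (nat_lit 0x20056d4f2) (nat_lit 268435456),
  Rx.mk (nat_lit 475) (nat_lit 3) (nat_lit 3) (nat_lit 7) (nat_lit 7) (nat_lit 100) (nat_lit 145) r8_100 r1_145 (nat_lit 0) (nat_lit 0) (nat_lit 0) (nat_lit 0x20056d4f2) (nat_lit 268435456),
  Rx.mk (nat_lit 507) (nat_lit 3) (nat_lit 7) (nat_lit 7) (nat_lit 7) (nat_lit 101) (nat_lit 146) r8_101 r1_146 (nat_lit 0) (nat_lit 0) (nat_lit 0) (nat_lit 0x20056d4f2) (nat_lit 268435456)]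
noncomputable def e16_2 : List Rx := [
  Rx.mk (nat_lit 0) (nat_lit 0) (nat_lit 0) (nat_lit 0) (nat_lit 0) (nat_lit 257) (nat_lit 137) r8_257 r2_137 (nat_lit 1855565) (nat_lit 2321625) (nat_lit 2244531) (nat_lit 0xfe82409a) (nat_lit 548419377),
  Rx.mk (nat_lit 2) (nat_lit 2) (nat_lit 0) (nat_lit 0) (nat_lit 1) (nat_lit 258) (nat_lit 141) r8_258 r2_141 (nat_lit 0) (nat_lit 12395174) (nat_lit 11911936) (nat_lit 0x19af7245e) (nat_lit 400205166),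
  Rx.mk (nat_lit 18) (nat_lit 2) (nat_lit 2) (nat_lit 0) (nat_lit 3) (nat_lit 259) (nat_lit 144) r8_259 r2_144 (nat_lit 0) (nat_lit 0) (nat_lit 9484367) (nat_lit 0x1fc9f84b2) (nat_lit 281792823),
  Rx.mk (nat_lit 24) (nat_lit 0) (nat_lit 3) (nat_lit 0) (nat_lit 2) (nat_lit 260) (nat_lit 138) r8_260 r2_138 (nat_lit 5757461) (nat_lit 0) (nat_lit 7301851) (nat_lit 0x1a8f639f0) (nat_lit 374092968),
  Rx.mk (nat_lit 26) (nat_lit 2) (nat_lit 3) (nat_lit 0) (nat_lit 3) (nat_lit 261) (nat_lit 142) r8_261 r2_142 (nat_lit 0) (nat_lit 0) (nat_lit 9484367) (nat_lit 0x1fe9dbd10) (nat_lit 279713523),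
  Rx.mk (nat_lit 146) (nat_lit 2) (nat_lit 2) (nat_lit 2) (nat_lit 7) (nat_lit 262) (nat_lit 145) r8_262 r2_145 (nat_lit 0) (nat_lit 0) (nat_lit 0) (nat_lit 0x20056d4f2) (nat_lit 268435456),
  Rx.mk (nat_lit 216) (nat_lit 0) (nat_lit 3) (nat_lit 3) (nat_lit 6) (nat_lit 263) (nat_lit 139) r8_263 r2_139 (nat_lit 9484367) (nat_lit 0) (nat_lit 0) (nat_lit 0x1fe0c5e6a) (nat_lit 280309623),
  Rx.mk (nat_lit 218) (nat_lit 2) (nat_lit 3) (nat_lit 3) (nat_lit 7) (nat_lit 264) (nat_lit 143) r8_264 r2_143 (nat_lit 0) (nat_lit 0) (nat_lit 0) (nat_lit 0x20056d4f2) (nat_lit 268435456),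
  Rx.mk (nat_lit 219) (nat_lit 3) (nat_lit 3) (nat_lit 3) (nat_lit 7) (nat_lit 265) (nat_lit 140) r8_265 r2_140 (nat_lit 0) (nat_lit 0) (nat_lit 0) (nat_lit 0x20056d4f2) (nat_lit 268435456)]
noncomputable def e16_3 : List Rx := [
  Rx.mk (nat_lit 315) (nat_lit 3) (nat_lit 7) (nat_lit 4) (nat_lit 3) (nat_lit 43) (nat_lit 120) r8_43 r3_120 (nat_lit 0) (nat_lit 0) (nat_lit 242054) (nat_lit 0x2005aee2a) (nat_lit 268432060),
  Rx.mk (nat_lit 379) (nat_lit 3) (nat_lit 7) (nat_lit 5) (nat_lit 7) (nat_lit 44) (nat_lit 121) r8_44 r3_121 (nat_lit 0) (nat_lit 0) (nat_lit 0) (nat_lit 0x2160eb1e8) (nat_lit 246056756),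
  Rx.mk (nat_lit 475) (nat_lit 3) (nat_lit 3) (nat_lit 7) (nat_lit 7) (nat_lit 45) (nat_lit 119) r8_45 r3_119 (nat_lit 0) (nat_lit 0) (nat_lit 0) (nat_lit 0x1fe3dbd02) (nat_lit 270617606),
  Rx.mk (nat_lit 507) (nat_lit 3) (nat_lit 7) (nat_lit 7) (nat_lit 7) (nat_lit 46) (nat_lit 122) r8_46 r3_122 (nat_lit 0) (nat_lit 0) (nat_lit 0) (nat_lit 0x1fbb3e750) (nat_lit 273282006)]
noncomputable def e16_4 : List Rx := [
  Rx.mk (nat_lit 315) (nat_lit 3) (nat_lit 7) (nat_lit 4) (nat_lit 3) (nat_lit 146) (nat_lit 126) r8_146 r4_126 (nat_lit 0) (nat_lit 0) (nat_lit 6858864) (nat_lit 0x2021fa62e) (nat_lit 273435420),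
  Rx.mk (nat_lit 475) (nat_lit 3) (nat_lit 3) (nat_lit 7) (nat_lit 7) (nat_lit 147) (nat_lit 125) r8_147 r4_125 (nat_lit 0) (nat_lit 0) (nat_lit 0) (nat_lit 0x20056d4f2) (nat_lit 268435456),
  Rx.mk (nat_lit 507) (nat_lit 3) (nat_lit 7) (nat_lit 7) (nat_lit 7) (nat_lit 148) (nat_lit 127) r8_148 r4_127 (nat_lit 0) (nat_lit 0) (nat_lit 0) (nat_lit 0x20056d4f2) (nat_lit 268435456)]
noncomputable def e16_5 : List Rx := [
  Rx.mk (nat_lit 283) (nat_lit 3) (nat_lit 3) (nat_lit 4) (nat_lit 3) (nat_lit 201) (nat_lit 118) r8_201 r5_118 (nat_lit 0) (nat_lit 0) (nat_lit 10516088) (nat_lit 0x1ee71f3b6) (nat_lit 297804694),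
  Rx.mk (nat_lit 315) (nat_lit 3) (nat_lit 7) (nat_lit 4) (nat_lit 3) (nat_lit 202) (nat_lit 121) r8_202 r5_121 (nat_lit 0) (nat_lit 0) (nat_lit 3592322) (nat_lit 0x1f944b18e) (nat_lit 279407828),
  Rx.mk (nat_lit 347) (nat_lit 3) (nat_lit 3) (nat_lit 5) (nat_lit 7) (nat_lit 203) (nat_lit 119) r8_203 r5_119 (nat_lit 0) (nat_lit 0) (nat_lit 0) (nat_lit 0x20056d4f2) (nat_lit 268435456),
  Rx.mk (nat_lit 379) (nat_lit 3) (nat_lit 7) (nat_lit 5) (nat_lit 7) (nat_lit 204) (nat_lit 122) r8_204 r5_122 (nat_lit 0) (nat_lit 0) (nat_lit 0) (nat_lit 0x20bbcbb72) (nat_lit 256653156),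
  Rx.mk (nat_lit 475) (nat_lit 3) (nat_lit 3) (nat_lit 7) (nat_lit 7) (nat_lit 205) (nat_lit 120) r8_205 r5_120 (nat_lit 0) (nat_lit 0) (nat_lit 0) (nat_lit 0x20056d4f2) (nat_lit 268435456)]
noncomputable def e16_6 : List Rx := [
  Rx.mk (nat_lit 88) (nat_lit 0) (nat_lit 3) (nat_lit 1) (nat_lit 6) (nat_lit 331) (nat_lit 176) r8_331 r3_176 (nat_lit 2083584) (nat_lit 0) (nat_lit 0) (nat_lit 0x1cd374fde) (nat_lit 324604590),
  Rx.mk (nat_lit 89) (nat_lit 1) (nat_lit 3) (nat_lit 1) (nat_lit 7) (nat_lit 332) (nat_lit 178) r8_332 r3_178 (nat_lit 0) (nat_lit 0) (nat_lit 0) (nat_lit 0x2039c7270) (nat_lit 265031006),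
  Rx.mk (nat_lit 91) (nat_lit 3) (nat_lit 3) (nat_lit 1) (nat_lit 7) (nat_lit 333) (nat_lit 179) r8_333 r3_179 (nat_lit 0) (nat_lit 0) (nat_lit 0) (nat_lit 0x1f3fc097a) (nat_lit 281425406),
  Rx.mk (nat_lit 320) (nat_lit 0) (nat_lit 0) (nat_lit 5) (nat_lit 4) (nat_lit 334) (nat_lit 173) r8_334 r3_173 (nat_lit 134030) (nat_lit 96896) (nat_lit 0) (nat_lit 0x19463edca) (nat_lit 382952982),
  Rx.mk (nat_lit 321) (nat_lit 1) (nat_lit 0) (nat_lit 5) (nat_lit 5) (nat_lit 335) (nat_lit 174) r8_335 r3_174 (nat_lit 0) (nat_lit 4930844) (nat_lit 0) (nat_lit 0x1cb21f67c) (nat_lit 329672900),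
  Rx.mk (nat_lit 344) (nat_lit 0) (nat_lit 3) (nat_lit 5) (nat_lit 6) (nat_lit 336) (nat_lit 175) r8_336 r3_175 (nat_lit 530915) (nat_lit 0) (nat_lit 0) (nat_lit 0x1e3090140) (nat_lit 299805471),
  Rx.mk (nat_lit 345) (nat_lit 1) (nat_lit 3) (nat_lit 5) (nat_lit 7) (nat_lit 337) (nat_lit 177) r8_337 r3_177 (nat_lit 0) (nat_lit 0) (nat_lit 0) (nat_lit 0x205323fa2) (nat_lit 263389706)]
noncomputable def e16_7 : List Rx := [
  Rx.mk (nat_lit 64) (nat_lit 0) (nat_lit 0) (nat_lit 1) (nat_lit 4) (nat_lit 241) (nat_lit 188) r8_241 r0_188 (nat_lit 3895157) (nat_lit 7060541) (nat_lit 0) (nat_lit 0x16494bc14) (nat_lit 444572854),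
  Rx.mk (nat_lit 65) (nat_lit 1) (nat_lit 0) (nat_lit 1) (nat_lit 5) (nat_lit 242) (nat_lit 189) r8_242 r0_189 (nat_lit 0) (nat_lit 7988855) (nat_lit 0) (nat_lit 0x1dd308112) (nat_lit 313579111),
  Rx.mk (nat_lit 66) (nat_lit 2) (nat_lit 0) (nat_lit 1) (nat_lit 5) (nat_lit 243) (nat_lit 190) r8_243 r0_190 (nat_lit 0) (nat_lit 56857679) (nat_lit 0) (nat_lit 0x1feec1780) (nat_lit 326737435),
  Rx.mk (nat_lit 88) (nat_lit 0) (nat_lit 3) (nat_lit 1) (nat_lit 6) (nat_lit 244) (nat_lit 191) r8_244 r0_191 (nat_lit 5196417) (nat_lit 0) (nat_lit 0) (nat_lit 0x1fa15acb2) (nat_lit 280172673),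
  Rx.mk (nat_lit 89) (nat_lit 1) (nat_lit 3) (nat_lit 1) (nat_lit 7) (nat_lit 245) (nat_lit 192) r8_245 r0_192 (nat_lit 0) (nat_lit 0) (nat_lit 0) (nat_lit 0x201316b9e) (nat_lit 267545656),
  Rx.mk (nat_lit 90) (nat_lit 2) (nat_lit 3) (nat_lit 1) (nat_lit 7) (nat_lit 246) (nat_lit 194) r8_246 r0_194 (nat_lit 0) (nat_lit 0) (nat_lit 0) (nat_lit 0x201316b9e) (nat_lit 267545656),
  Rx.mk (nat_lit 91) (nat_lit 3) (nat_lit 3) (nat_lit 1) (nat_lit 7) (nat_lit 247) (nat_lit 193) r8_247 r0_193 (nat_lit 0) (nat_lit 0) (nat_lit 0) (nat_lit 0x20056d4f2) (nat_lit 268435456)]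
noncomputable def e16_8 : List Rx := [
  Rx.mk (nat_lit 0) (nat_lit 0) (nat_lit 0) (nat_lit 0) (nat_lit 0) (nat_lit 283) (nat_lit 201) r8_283 r1_201 (nat_lit 7297896) (nat_lit 21867451) (nat_lit 2297773) (nat_lit 0x122387504) (nat_lit 535543626),
  Rx.mk (nat_lit 2) (nat_lit 2) (nat_lit 0) (nat_lit 0) (nat_lit 1) (nat_lit 284) (nat_lit 204) r8_284 r1_204 (nat_lit 0) (nat_lit 35547039) (nat_lit 6929116) (nat_lit 0x1ae23a2dc) (nat_lit 398008261),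
  Rx.mk (nat_lit 18) (nat_lit 2) (nat_lit 2) (nat_lit 0) (nat_lit 3) (nat_lit 285) (nat_lit 214) r8_285 r1_214 (nat_lit 0) (nat_lit 0) (nat_lit 8744868) (nat_lit 0x1d6cc99f0) (nat_lit 321116524),
  Rx.mk (nat_lit 24) (nat_lit 0) (nat_lit 3) (nat_lit 0) (nat_lit 2) (nat_lit 286) (nat_lit 206) r8_286 r1_206 (nat_lit 11602876) (nat_lit 0) (nat_lit 7735107) (nat_lit 0x1a7f00338) (nat_lit 381456989),
  Rx.mk (nat_lit 26) (nat_lit 2) (nat_lit 3) (nat_lit 0) (nat_lit 3) (nat_lit 287) (nat_lit 212) r8_287 r1_212 (nat_lit 0) (nat_lit 0) (nat_lit 9484367) (nat_lit 0x20056d4f2) (nat_lit 277919823),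
  Rx.mk (nat_lit 27) (nat_lit 3) (nat_lit 3) (nat_lit 0) (nat_lit 3) (nat_lit 288) (nat_lit 209) r8_288 r1_209 (nat_lit 0) (nat_lit 0) (nat_lit 10031145) (nat_lit 0x1fcf46e78) (nat_lit 282000201),
  Rx.mk (nat_lit 64) (nat_lit 0) (nat_lit 0) (nat_lit 1) (nat_lit 4) (nat_lit 289) (nat_lit 202) r8_289 r1_202 (nat_lit 13214423) (nat_lit 10882942) (nat_lit 0) (nat_lit 0x19da949de) (nat_lit 397122321),
  Rx.mk (nat_lit 65) (nat_lit 1) (nat_lit 0) (nat_lit 1) (nat_lit 5) (nat_lit 290) (nat_lit 203) r8_290 r1_203 (nat_lit 0) (nat_lit 9931330) (nat_lit 0) (nat_lit 0x1fe7e6424) (nat_lit 280291336),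
  Rx.mk (nat_lit 66) (nat_lit 2) (nat_lit 0) (nat_lit 1) (nat_lit 5) (nat_lit 291) (nat_lit 205) r8_291 r1_205 (nat_lit 0) (nat_lit 16360369) (nat_lit 0) (nat_lit 0x207a02b46) (nat_lit 277234125),
  Rx.mk (nat_lit 82) (nat_lit 2) (nat_lit 2) (nat_lit 1) (nat_lit 7) (nat_lit 292) (nat_lit 215) r8_292 r1_215 (nat_lit 0) (nat_lit 0) (nat_lit 0) (nat_lit 0x20ec457d0) (nat_lit 253540856),
  Rx.mk (nat_lit 88) (nat_lit 0) (nat_lit 3) (nat_lit 1) (nat_lit 6) (nat_lit 293) (nat_lit 207) r8_293 r1_207 (nat_lit 9484367) (nat_lit 0) (nat_lit 0) (nat_lit 0x20056d4f2) (nat_lit 277919823),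
  Rx.mk (nat_lit 89) (nat_lit 1) (nat_lit 3) (nat_lit 1) (nat_lit 7) (nat_lit 294) (nat_lit 208) r8_294 r1_208 (nat_lit 0) (nat_lit 0) (nat_lit 0) (nat_lit 0x20056d4f2) (nat_lit 268435456),
  Rx.mk (nat_lit 90) (nat_lit 2) (nat_lit 3) (nat_lit 1) (nat_lit 7) (nat_lit 295) (nat_lit 213) r8_295 r1_213 (nat_lit 0) (nat_lit 0) (nat_lit 0) (nat_lit 0x20056d4f2) (nat_lit 268435456),
  Rx.mk (nat_lit 91) (nat_lit 3) (nat_lit 3) (nat_lit 1) (nat_lit 7) (nat_lit 296) (nat_lit 210) r8_296 r1_210 (nat_lit 0) (nat_lit 0) (nat_lit 0) (nat_lit 0x20056d4f2) (nat_lit 268435456),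
  Rx.mk (nat_lit 146) (nat_lit 2) (nat_lit 2) (nat_lit 2) (nat_lit 7) (nat_lit 297) (nat_lit 216) r8_297 r1_216 (nat_lit 0) (nat_lit 0) (nat_lit 0) (nat_lit 0x1fa0d60fc) (nat_lit 275021756),
  Rx.mk (nat_lit 219) (nat_lit 3) (nat_lit 3) (nat_lit 3) (nat_lit 7) (nat_lit 298) (nat_lit 211) r8_298 r1_211 (nat_lit 0) (nat_lit 0) (nat_lit 0) (nat_lit 0x20056d4f2) (nat_lit 268435456)]
noncomputable def e16_9 : List Rx := [
  Rx.mk (nat_lit 88) (nat_lit 0) (nat_lit 3) (nat_lit 1) (nat_lit 6) (nat_lit 351) (nat_lit 177) r8_351 r4_177 (nat_lit 7402043) (nat_lit 0) (nat_lit 0) (nat_lit 0x20243408e) (nat_lit 273833849),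
  Rx.mk (nat_lit 89) (nat_lit 1) (nat_lit 3) (nat_lit 1) (nat_lit 7) (nat_lit 352) (nat_lit 178) r8_352 r4_178 (nat_lit 0) (nat_lit 0) (nat_lit 0) (nat_lit 0x2018af5f6) (nat_lit 267182206),
  Rx.mk (nat_lit 90) (nat_lit 2) (nat_lit 3) (nat_lit 1) (nat_lit 7) (nat_lit 353) (nat_lit 180) r8_353 r4_180 (nat_lit 0) (nat_lit 0) (nat_lit 0) (nat_lit 0x2018af5f6) (nat_lit 267182206),
  Rx.mk (nat_lit 91) (nat_lit 3) (nat_lit 3) (nat_lit 1) (nat_lit 7) (nat_lit 354) (nat_lit 179) r8_354 r4_179 (nat_lit 0) (nat_lit 0) (nat_lit 0) (nat_lit 0x20056d4f2) (nat_lit 268435456)]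
noncomputable def e16_10 : List Rx := [
  Rx.mk (nat_lit 344) (nat_lit 0) (nat_lit 3) (nat_lit 5) (nat_lit 6) (nat_lit 221) (nat_lit 122) r8_221 r6_122 (nat_lit 7973947) (nat_lit 0) (nat_lit 0) (nat_lit 0x1ffd61c22) (nat_lit 276924103),
  Rx.mk (nat_lit 345) (nat_lit 1) (nat_lit 3) (nat_lit 5) (nat_lit 7) (nat_lit 222) (nat_lit 123) r8_222 r6_123 (nat_lit 0) (nat_lit 0) (nat_lit 0) (nat_lit 0x20056d4f2) (nat_lit 268435456),
  Rx.mk (nat_lit 347) (nat_lit 3) (nat_lit 3) (nat_lit 5) (nat_lit 7) (nat_lit 223) (nat_lit 124) r8_223 r6_124 (nat_lit 0) (nat_lit 0) (nat_lit 0) (nat_lit 0x20056d4f2) (nat_lit 268435456),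
  Rx.mk (nat_lit 379) (nat_lit 3) (nat_lit 7) (nat_lit 5) (nat_lit 7) (nat_lit 224) (nat_lit 125) r8_224 r6_125 (nat_lit 0) (nat_lit 0) (nat_lit 0) (nat_lit 0x20a32e4ac) (nat_lit 258234956)]
noncomputable def e16_11 : List Rx := [
  Rx.mk (nat_lit 91) (nat_lit 3) (nat_lit 3) (nat_lit 1) (nat_lit 7) (nat_lit 361) (nat_lit 196) r8_361 r5_196 (nat_lit 0) (nat_lit 0) (nat_lit 0) (nat_lit 0x1ff462c52) (nat_lit 269545756),
  Rx.mk (nat_lit 320) (nat_lit 0) (nat_lit 0) (nat_lit 5) (nat_lit 4) (nat_lit 362) (nat_lit 191) r8_362 r5_191 (nat_lit 8756992) (nat_lit 26396504) (nat_lit 0) (nat_lit 0x1c43e0c92) (nat_lit 367216652),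
  Rx.mk (nat_lit 321) (nat_lit 1) (nat_lit 0) (nat_lit 5) (nat_lit 5) (nat_lit 363) (nat_lit 192) r8_363 r5_192 (nat_lit 0) (nat_lit 9885199) (nat_lit 0) (nat_lit 0x1fd8245a4) (nat_lit 281271605),
  Rx.mk (nat_lit 344) (nat_lit 0) (nat_lit 3) (nat_lit 5) (nat_lit 6) (nat_lit 364) (nat_lit 193) r8_364 r5_193 (nat_lit 7909427) (nat_lit 0) (nat_lit 0) (nat_lit 0x1fb625da4) (nat_lit 281515433),
  Rx.mk (nat_lit 345) (nat_lit 1) (nat_lit 3) (nat_lit 5) (nat_lit 7) (nat_lit 365) (nat_lit 194) r8_365 r5_194 (nat_lit 0) (nat_lit 0) (nat_lit 0) (nat_lit 0x2026dc426) (nat_lit 266260456),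
  Rx.mk (nat_lit 347) (nat_lit 3) (nat_lit 3) (nat_lit 5) (nat_lit 7) (nat_lit 366) (nat_lit 195) r8_366 r5_195 (nat_lit 0) (nat_lit 0) (nat_lit 0) (nat_lit 0x1fbd1022c) (nat_lit 273166256)]
noncomputable def e16_12 : List Rx := [
  Rx.mk (nat_lit 292) (nat_lit 4) (nat_lit 4) (nat_lit 4) (nat_lit 0) (nat_lit 0) (nat_lit 124) r8_0 r0_124 (nat_lit 641106) (nat_lit 10221547) (nat_lit 548020) (nat_lit 0xdf239f5a) (nat_lit 586659229),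
  Rx.mk (nat_lit 295) (nat_lit 7) (nat_lit 4) (nat_lit 4) (nat_lit 1) (nat_lit 1) (nat_lit 125) r8_1 r0_125 (nat_lit 0) (nat_lit 21261060) (nat_lit 8977401) (nat_lit 0x18db3ee76) (nat_lit 420209017),
  Rx.mk (nat_lit 319) (nat_lit 7) (nat_lit 7) (nat_lit 4) (nat_lit 3) (nat_lit 2) (nat_lit 126) r8_2 r0_126 (nat_lit 0) (nat_lit 0) (nat_lit 5563368) (nat_lit 0x1d90bf3fa) (nat_lit 315546874),
  Rx.mk (nat_lit 356) (nat_lit 4) (nat_lit 4) (nat_lit 5) (nat_lit 4) (nat_lit 3) (nat_lit 127) r8_3 r0_127 (nat_lit 8596723) (nat_lit 22390317) (nat_lit 0) (nat_lit 0x181f48a6e) (nat_lit 433430596),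
  Rx.mk (nat_lit 359) (nat_lit 7) (nat_lit 4) (nat_lit 5) (nat_lit 5) (nat_lit 4) (nat_lit 128) r8_4 r0_128 (nat_lit 0) (nat_lit 13103625) (nat_lit 0) (nat_lit 0x1fa80595e) (nat_lit 287655681),
  Rx.mk (nat_lit 383) (nat_lit 7) (nat_lit 7) (nat_lit 5) (nat_lit 7) (nat_lit 5) (nat_lit 129) r8_5 r0_129 (nat_lit 0) (nat_lit 0) (nat_lit 0) (nat_lit 0x1fdc55c7c) (nat_lit 271115106),
  Rx.mk (nat_lit 420) (nat_lit 4) (nat_lit 4) (nat_lit 6) (nat_lit 4) (nat_lit 6) (nat_lit 133) r8_6 r0_133 (nat_lit 5082939) (nat_lit 8459973) (nat_lit 0) (nat_lit 0x18412df6c) (nat_lit 413722318),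
  Rx.mk (nat_lit 423) (nat_lit 7) (nat_lit 4) (nat_lit 6) (nat_lit 5) (nat_lit 7) (nat_lit 134) r8_7 r0_134 (nat_lit 0) (nat_lit 17354866) (nat_lit 0) (nat_lit 0x1fa7fc02a) (nat_lit 291906822),
  Rx.mk (nat_lit 436) (nat_lit 4) (nat_lit 6) (nat_lit 6) (nat_lit 6) (nat_lit 8) (nat_lit 136) r8_8 r0_136 (nat_lit 11005782) (nat_lit 0) (nat_lit 0) (nat_lit 0x1c8a0941c) (nat_lit 338427488),
  Rx.mk (nat_lit 438) (nat_lit 6) (nat_lit 6) (nat_lit 6) (nat_lit 7) (nat_lit 9) (nat_lit 138) r8_9 r0_138 (nat_lit 0) (nat_lit 0) (nat_lit 0) (nat_lit 0x20056d4f2) (nat_lit 268435456),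
  Rx.mk (nat_lit 439) (nat_lit 7) (nat_lit 6) (nat_lit 6) (nat_lit 7) (nat_lit 10) (nat_lit 137) r8_10 r0_137 (nat_lit 0) (nat_lit 0) (nat_lit 0) (nat_lit 0x20056d4f2) (nat_lit 268435456),
  Rx.mk (nat_lit 447) (nat_lit 7) (nat_lit 7) (nat_lit 6) (nat_lit 7) (nat_lit 11) (nat_lit 135) r8_11 r0_135 (nat_lit 0) (nat_lit 0) (nat_lit 0) (nat_lit 0x2003e8e1a) (nat_lit 268530456),
  Rx.mk (nat_lit 475) (nat_lit 3) (nat_lit 3) (nat_lit 7) (nat_lit 7) (nat_lit 12) (nat_lit 132) r8_12 r0_132 (nat_lit 0) (nat_lit 0) (nat_lit 0) (nat_lit 0x20056d4f2) (nat_lit 268435456),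
  Rx.mk (nat_lit 507) (nat_lit 3) (nat_lit 7) (nat_lit 7) (nat_lit 7) (nat_lit 13) (nat_lit 131) r8_13 r0_131 (nat_lit 0) (nat_lit 0) (nat_lit 0) (nat_lit 0x1ff9ddc54) (nat_lit 269187956),
  Rx.mk (nat_lit 511) (nat_lit 7) (nat_lit 7) (nat_lit 7) (nat_lit 7) (nat_lit 14) (nat_lit 130) r8_14 r0_130 (nat_lit 0) (nat_lit 0) (nat_lit 0) (nat_lit 0x1ff9e4946) (nat_lit 269186206)]
noncomputable def e16_13 : List Rx := [
  Rx.mk (nat_lit 292) (nat_lit 4) (nat_lit 4) (nat_lit 4) (nat_lit 0) (nat_lit 78) (nat_lit 150) r8_78 r7_150 (nat_lit 2425005) (nat_lit 7198289) (nat_lit 2733102) (nat_lit 0xe238fa28) (nat_lit 584393802),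
  Rx.mk (nat_lit 295) (nat_lit 7) (nat_lit 4) (nat_lit 4) (nat_lit 1) (nat_lit 79) (nat_lit 153) r8_79 r7_153 (nat_lit 0) (nat_lit 9749284) (nat_lit 7126275) (nat_lit 0x19f2f17ca) (nat_lit 388291215),
  Rx.mk (nat_lit 319) (nat_lit 7) (nat_lit 7) (nat_lit 4) (nat_lit 3) (nat_lit 80) (nat_lit 155) r8_80 r7_155 (nat_lit 0) (nat_lit 0) (nat_lit 4537940) (nat_lit 0x1fda0b7c8) (nat_lit 275782896),
  Rx.mk (nat_lit 420) (nat_lit 4) (nat_lit 4) (nat_lit 6) (nat_lit 4) (nat_lit 81) (nat_lit 151) r8_81 r7_151 (nat_lit 3122194) (nat_lit 2929309) (nat_lit 0) (nat_lit 0x1a0760b20) (nat_lit 376091909),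
  Rx.mk (nat_lit 423) (nat_lit 7) (nat_lit 4) (nat_lit 6) (nat_lit 5) (nat_lit 82) (nat_lit 154) r8_82 r7_154 (nat_lit 0) (nat_lit 9484367) (nat_lit 0) (nat_lit 0x20056d4f2) (nat_lit 277919823),
  Rx.mk (nat_lit 436) (nat_lit 4) (nat_lit 6) (nat_lit 6) (nat_lit 6) (nat_lit 83) (nat_lit 152) r8_83 r7_152 (nat_lit 10791901) (nat_lit 0) (nat_lit 0) (nat_lit 0x1f986bbb0) (nat_lit 286357257),
  Rx.mk (nat_lit 438) (nat_lit 6) (nat_lit 6) (nat_lit 6) (nat_lit 7) (nat_lit 84) (nat_lit 159) r8_84 r7_159 (nat_lit 0) (nat_lit 0) (nat_lit 0) (nat_lit 0x20056d4f2) (nat_lit 268435456),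
  Rx.mk (nat_lit 439) (nat_lit 7) (nat_lit 6) (nat_lit 6) (nat_lit 7) (nat_lit 85) (nat_lit 158) r8_85 r7_158 (nat_lit 0) (nat_lit 0) (nat_lit 0) (nat_lit 0x20056d4f2) (nat_lit 268435456),
  Rx.mk (nat_lit 447) (nat_lit 7) (nat_lit 7) (nat_lit 6) (nat_lit 7) (nat_lit 86) (nat_lit 157) r8_86 r7_157 (nat_lit 0) (nat_lit 0) (nat_lit 0) (nat_lit 0x20056d4f2) (nat_lit 268435456),
  Rx.mk (nat_lit 475) (nat_lit 3) (nat_lit 3) (nat_lit 7) (nat_lit 7) (nat_lit 87) (nat_lit 148) r8_87 r7_148 (nat_lit 0) (nat_lit 0) (nat_lit 0) (nat_lit 0x20056d4f2) (nat_lit 268435456),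
  Rx.mk (nat_lit 507) (nat_lit 3) (nat_lit 7) (nat_lit 7) (nat_lit 7) (nat_lit 88) (nat_lit 149) r8_88 r7_149 (nat_lit 0) (nat_lit 0) (nat_lit 0) (nat_lit 0x20056d4f2) (nat_lit 268435456),
  Rx.mk (nat_lit 511) (nat_lit 7) (nat_lit 7) (nat_lit 7) (nat_lit 7) (nat_lit 89) (nat_lit 156) r8_89 r7_156 (nat_lit 0) (nat_lit 0) (nat_lit 0) (nat_lit 0x20056d4f2) (nat_lit 268435456)]
noncomputable def e16_14 : List Rx := [
  Rx.mk (nat_lit 292) (nat_lit 4) (nat_lit 4) (nat_lit 4) (nat_lit 0) (nat_lit 15) (nat_lit 131) r8_15 r1_131 (nat_lit 5200936) (nat_lit 16284288) (nat_lit 12970436) (nat_lit 0x1431ccdd8) (nat_lit 503628066),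
  Rx.mk (nat_lit 295) (nat_lit 7) (nat_lit 4) (nat_lit 4) (nat_lit 1) (nat_lit 16) (nat_lit 132) r8_16 r1_132 (nat_lit 0) (nat_lit 22083687) (nat_lit 19111015) (nat_lit 0x1d7134e54) (nat_lit 353280508),
  Rx.mk (nat_lit 319) (nat_lit 7) (nat_lit 7) (nat_lit 4) (nat_lit 3) (nat_lit 17) (nat_lit 133) r8_17 r1_133 (nat_lit 0) (nat_lit 0) (nat_lit 6904608) (nat_lit 0x20290cb56) (nat_lit 273020764),
  Rx.mk (nat_lit 356) (nat_lit 4) (nat_lit 4) (nat_lit 5) (nat_lit 4) (nat_lit 18) (nat_lit 134) r8_18 r1_134 (nat_lit 9122221) (nat_lit 29107008) (nat_lit 0) (nat_lit 0x1d0963e24) (nat_lit 357196735),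
  Rx.mk (nat_lit 359) (nat_lit 7) (nat_lit 4) (nat_lit 5) (nat_lit 5) (nat_lit 19) (nat_lit 135) r8_19 r1_135 (nat_lit 0) (nat_lit 10065192) (nat_lit 0) (nat_lit 0x1ff9d2c5a) (nat_lit 279255198),
  Rx.mk (nat_lit 383) (nat_lit 7) (nat_lit 7) (nat_lit 5) (nat_lit 7) (nat_lit 20) (nat_lit 136) r8_20 r1_136 (nat_lit 0) (nat_lit 0) (nat_lit 0) (nat_lit 0x20056d4f2) (nat_lit 268435456),
  Rx.mk (nat_lit 420) (nat_lit 4) (nat_lit 4) (nat_lit 6) (nat_lit 4) (nat_lit 21) (nat_lit 138) r8_21 r1_138 (nat_lit 9541451) (nat_lit 20913238) (nat_lit 0) (nat_lit 0x1e0c4cea0) (nat_lit 332249895),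
  Rx.mk (nat_lit 436) (nat_lit 4) (nat_lit 6) (nat_lit 6) (nat_lit 6) (nat_lit 22) (nat_lit 139) r8_22 r1_139 (nat_lit 8599271) (nat_lit 0) (nat_lit 0) (nat_lit 0x1fb1e00d2) (nat_lit 282498427),
  Rx.mk (nat_lit 438) (nat_lit 6) (nat_lit 6) (nat_lit 6) (nat_lit 7) (nat_lit 23) (nat_lit 140) r8_23 r1_140 (nat_lit 0) (nat_lit 0) (nat_lit 0) (nat_lit 0x20056d4f2) (nat_lit 268435456),
  Rx.mk (nat_lit 511) (nat_lit 7) (nat_lit 7) (nat_lit 7) (nat_lit 7) (nat_lit 24) (nat_lit 137) r8_24 r1_137 (nat_lit 0) (nat_lit 0) (nat_lit 0) (nat_lit 0x20056d4f2) (nat_lit 268435456)]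
noncomputable def e16_15 : List Rx := [
  Rx.mk (nat_lit 292) (nat_lit 4) (nat_lit 4) (nat_lit 4) (nat_lit 0) (nat_lit 126) (nat_lit 126) r8_126 r8_126 (nat_lit 2874288) (nat_lit 14395821) (nat_lit 2874288) (nat_lit 0xf1d27a40) (nat_lit 575631903),
  Rx.mk (nat_lit 295) (nat_lit 7) (nat_lit 4) (nat_lit 4) (nat_lit 1) (nat_lit 127) (nat_lit 129) r8_127 r8_129 (nat_lit 0) (nat_lit 9896907) (nat_lit 8331466) (nat_lit 0x1991bda12) (nat_lit 396097329),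
  Rx.mk (nat_lit 319) (nat_lit 7) (nat_lit 7) (nat_lit 4) (nat_lit 3) (nat_lit 128) (nat_lit 130) r8_128 r8_130 (nat_lit 0) (nat_lit 0) (nat_lit 9484367) (nat_lit 0x1ff9aaa2a) (nat_lit 278685173),
  Rx.mk (nat_lit 420) (nat_lit 4) (nat_lit 4) (nat_lit 6) (nat_lit 4) (nat_lit 129) (nat_lit 127) r8_129 r8_127 (nat_lit 8331466) (nat_lit 9896907) (nat_lit 0) (nat_lit 0x1991bda12) (nat_lit 396097329),
  Rx.mk (nat_lit 436) (nat_lit 4) (nat_lit 6) (nat_lit 6) (nat_lit 6) (nat_lit 130) (nat_lit 128) r8_130 r8_128 (nat_lit 9484367) (nat_lit 0) (nat_lit 0) (nat_lit 0x1ff9aaa2a) (nat_lit 278685173),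
  Rx.mk (nat_lit 438) (nat_lit 6) (nat_lit 6) (nat_lit 6) (nat_lit 7) (nat_lit 131) (nat_lit 132) r8_131 r8_132 (nat_lit 0) (nat_lit 0) (nat_lit 0) (nat_lit 0x20056d4f2) (nat_lit 268435456),
  Rx.mk (nat_lit 511) (nat_lit 7) (nat_lit 7) (nat_lit 7) (nat_lit 7) (nat_lit 132) (nat_lit 131) r8_132 r8_131 (nat_lit 0) (nat_lit 0) (nat_lit 0) (nat_lit 0x20056d4f2) (nat_lit 268435456)]
noncomputable def e16_16 : List Rx := [
  Rx.mk (nat_lit 0) (nat_lit 0) (nat_lit 0) (nat_lit 0) (nat_lit 0) (nat_lit 102) (nat_lit 114) r8_102 r8_114 (nat_lit 3145110) (nat_lit 4187922) (nat_lit 2252895) (nat_lit 0xd7a69a48) (nat_lit 592852383),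
  Rx.mk (nat_lit 2) (nat_lit 2) (nat_lit 0) (nat_lit 0) (nat_lit 1) (nat_lit 103) (nat_lit 115) r8_103 r8_115 (nat_lit 0) (nat_lit 4189087) (nat_lit 4156469) (nat_lit 0x16b35e84a) (nat_lit 434950462),
  Rx.mk (nat_lit 18) (nat_lit 2) (nat_lit 2) (nat_lit 0) (nat_lit 3) (nat_lit 104) (nat_lit 116) r8_104 r8_116 (nat_lit 0) (nat_lit 0) (nat_lit 6034803) (nat_lit 0x1fee7420a) (nat_lit 275961759),
  Rx.mk (nat_lit 146) (nat_lit 2) (nat_lit 2) (nat_lit 2) (nat_lit 7) (nat_lit 105) (nat_lit 125) r8_105 r8_125 (nat_lit 0) (nat_lit 0) (nat_lit 0) (nat_lit 0x20056d4f2) (nat_lit 268435456),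
  Rx.mk (nat_lit 150) (nat_lit 6) (nat_lit 2) (nat_lit 2) (nat_lit 7) (nat_lit 106) (nat_lit 124) r8_106 r8_124 (nat_lit 0) (nat_lit 0) (nat_lit 0) (nat_lit 0x20056d4f2) (nat_lit 268435456),
  Rx.mk (nat_lit 182) (nat_lit 6) (nat_lit 6) (nat_lit 2) (nat_lit 7) (nat_lit 107) (nat_lit 123) r8_107 r8_123 (nat_lit 0) (nat_lit 0) (nat_lit 0) (nat_lit 0x20056d4f2) (nat_lit 268435456),
  Rx.mk (nat_lit 192) (nat_lit 0) (nat_lit 0) (nat_lit 3) (nat_lit 4) (nat_lit 108) (nat_lit 117) r8_108 r8_117 (nat_lit 774941) (nat_lit 668783) (nat_lit 0) (nat_lit 0x1b30dd394) (nat_lit 351691230),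
  Rx.mk (nat_lit 194) (nat_lit 2) (nat_lit 0) (nat_lit 3) (nat_lit 5) (nat_lit 109) (nat_lit 118) r8_109 r8_118 (nat_lit 0) (nat_lit 9484367) (nat_lit 0) (nat_lit 0x20056d4f2) (nat_lit 277919823),
  Rx.mk (nat_lit 210) (nat_lit 2) (nat_lit 2) (nat_lit 3) (nat_lit 7) (nat_lit 110) (nat_lit 122) r8_110 r8_122 (nat_lit 0) (nat_lit 0) (nat_lit 0) (nat_lit 0x20056d4f2) (nat_lit 268435456),
  Rx.mk (nat_lit 216) (nat_lit 0) (nat_lit 3) (nat_lit 3) (nat_lit 6) (nat_lit 111) (nat_lit 119) r8_111 r8_119 (nat_lit 9484367) (nat_lit 0) (nat_lit 0) (nat_lit 0x1fda9a98c) (nat_lit 280710373),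
  Rx.mk (nat_lit 218) (nat_lit 2) (nat_lit 3) (nat_lit 3) (nat_lit 7) (nat_lit 112) (nat_lit 121) r8_112 r8_121 (nat_lit 0) (nat_lit 0) (nat_lit 0) (nat_lit 0x20056d4f2) (nat_lit 268435456),
  Rx.mk (nat_lit 219) (nat_lit 3) (nat_lit 3) (nat_lit 3) (nat_lit 7) (nat_lit 113) (nat_lit 120) r8_113 r8_120 (nat_lit 0) (nat_lit 0) (nat_lit 0) (nat_lit 0x20056d4f2) (nat_lit 268435456),
  Rx.mk (nat_lit 292) (nat_lit 4) (nat_lit 4) (nat_lit 4) (nat_lit 0) (nat_lit 114) (nat_lit 102) r8_114 r8_102 (nat_lit 3145110) (nat_lit 4187922) (nat_lit 2252895) (nat_lit 0xd7a69a48) (nat_lit 592852383),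
  Rx.mk (nat_lit 295) (nat_lit 7) (nat_lit 4) (nat_lit 4) (nat_lit 1) (nat_lit 115) (nat_lit 103) r8_115 r8_103 (nat_lit 0) (nat_lit 4189087) (nat_lit 4156469) (nat_lit 0x16b35e84a) (nat_lit 434950462),
  Rx.mk (nat_lit 319) (nat_lit 7) (nat_lit 7) (nat_lit 4) (nat_lit 3) (nat_lit 116) (nat_lit 104) r8_116 r8_104 (nat_lit 0) (nat_lit 0) (nat_lit 6034803) (nat_lit 0x1fee7420a) (nat_lit 275961759),
  Rx.mk (nat_lit 420) (nat_lit 4) (nat_lit 4) (nat_lit 6) (nat_lit 4) (nat_lit 117) (nat_lit 108) r8_117 r8_108 (nat_lit 774941) (nat_lit 668783) (nat_lit 0) (nat_lit 0x1b30dd394) (nat_lit 351691230),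
  Rx.mk (nat_lit 423) (nat_lit 7) (nat_lit 4) (nat_lit 6) (nat_lit 5) (nat_lit 118) (nat_lit 109) r8_118 r8_109 (nat_lit 0) (nat_lit 9484367) (nat_lit 0) (nat_lit 0x20056d4f2) (nat_lit 277919823),
  Rx.mk (nat_lit 436) (nat_lit 4) (nat_lit 6) (nat_lit 6) (nat_lit 6) (nat_lit 119) (nat_lit 111) r8_119 r8_111 (nat_lit 9484367) (nat_lit 0) (nat_lit 0) (nat_lit 0x1fda9a98c) (nat_lit 280710373),
  Rx.mk (nat_lit 438) (nat_lit 6) (nat_lit 6) (nat_lit 6) (nat_lit 7) (nat_lit 120) (nat_lit 113) r8_120 r8_113 (nat_lit 0) (nat_lit 0) (nat_lit 0) (nat_lit 0x20056d4f2) (nat_lit 268435456),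
  Rx.mk (nat_lit 439) (nat_lit 7) (nat_lit 6) (nat_lit 6) (nat_lit 7) (nat_lit 121) (nat_lit 112) r8_121 r8_112 (nat_lit 0) (nat_lit 0) (nat_lit 0) (nat_lit 0x20056d4f2) (nat_lit 268435456),
  Rx.mk (nat_lit 447) (nat_lit 7) (nat_lit 7) (nat_lit 6) (nat_lit 7) (nat_lit 122) (nat_lit 110) r8_122 r8_110 (nat_lit 0) (nat_lit 0) (nat_lit 0) (nat_lit 0x20056d4f2) (nat_lit 268435456),
  Rx.mk (nat_lit 475) (nat_lit 3) (nat_lit 3) (nat_lit 7) (nat_lit 7) (nat_lit 123) (nat_lit 107) r8_123 r8_107 (nat_lit 0) (nat_lit 0) (nat_lit 0) (nat_lit 0x20056d4f2) (nat_lit 268435456),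
  Rx.mk (nat_lit 507) (nat_lit 3) (nat_lit 7) (nat_lit 7) (nat_lit 7) (nat_lit 124) (nat_lit 106) r8_124 r8_106 (nat_lit 0) (nat_lit 0) (nat_lit 0) (nat_lit 0x20056d4f2) (nat_lit 268435456),
  Rx.mk (nat_lit 511) (nat_lit 7) (nat_lit 7) (nat_lit 7) (nat_lit 7) (nat_lit 125) (nat_lit 105) r8_125 r8_105 (nat_lit 0) (nat_lit 0) (nat_lit 0) (nat_lit 0x20056d4f2) (nat_lit 268435456)]
noncomputable def e16_17 : List Rx := [
  Rx.mk (nat_lit 0) (nat_lit 0) (nat_lit 0) (nat_lit 0) (nat_lit 0) (nat_lit 273) (nat_lit 99) r8_273 r9_99 (nat_lit 3522600) (nat_lit 6484831) (nat_lit 4054147) (nat_lit 0x102a7f066) (nat_lit 551671134),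
  Rx.mk (nat_lit 2) (nat_lit 2) (nat_lit 0) (nat_lit 0) (nat_lit 1) (nat_lit 274) (nat_lit 103) r8_274 r9_103 (nat_lit 0) (nat_lit 11245750) (nat_lit 10624591) (nat_lit 0x1a3e8be9c) (nat_lit 388272497),
  Rx.mk (nat_lit 18) (nat_lit 2) (nat_lit 2) (nat_lit 0) (nat_lit 3) (nat_lit 275) (nat_lit 106) r8_275 r9_106 (nat_lit 0) (nat_lit 0) (nat_lit 9484367) (nat_lit 0x20056d4f2) (nat_lit 277919823),
  Rx.mk (nat_lit 24) (nat_lit 0) (nat_lit 3) (nat_lit 0) (nat_lit 2) (nat_lit 276) (nat_lit 100) r8_276 r9_100 (nat_lit 10509005) (nat_lit 0) (nat_lit 8663689) (nat_lit 0x19d99ca04) (nat_lit 392273250),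
  Rx.mk (nat_lit 26) (nat_lit 2) (nat_lit 3) (nat_lit 0) (nat_lit 3) (nat_lit 277) (nat_lit 104) r8_277 r9_104 (nat_lit 0) (nat_lit 0) (nat_lit 9484367) (nat_lit 0x20056d4f2) (nat_lit 277919823),
  Rx.mk (nat_lit 146) (nat_lit 2) (nat_lit 2) (nat_lit 2) (nat_lit 7) (nat_lit 278) (nat_lit 107) r8_278 r9_107 (nat_lit 0) (nat_lit 0) (nat_lit 0) (nat_lit 0x20056d4f2) (nat_lit 268435456),
  Rx.mk (nat_lit 150) (nat_lit 6) (nat_lit 2) (nat_lit 2) (nat_lit 7) (nat_lit 279) (nat_lit 108) r8_279 r9_108 (nat_lit 0) (nat_lit 0) (nat_lit 0) (nat_lit 0x20056d4f2) (nat_lit 268435456),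
  Rx.mk (nat_lit 216) (nat_lit 0) (nat_lit 3) (nat_lit 3) (nat_lit 6) (nat_lit 280) (nat_lit 101) r8_280 r9_101 (nat_lit 9484367) (nat_lit 0) (nat_lit 0) (nat_lit 0x20056d4f2) (nat_lit 277919823),
  Rx.mk (nat_lit 218) (nat_lit 2) (nat_lit 3) (nat_lit 3) (nat_lit 7) (nat_lit 281) (nat_lit 105) r8_281 r9_105 (nat_lit 0) (nat_lit 0) (nat_lit 0) (nat_lit 0x20056d4f2) (nat_lit 268435456),
  Rx.mk (nat_lit 219) (nat_lit 3) (nat_lit 3) (nat_lit 3) (nat_lit 7) (nat_lit 282) (nat_lit 102) r8_282 r9_102 (nat_lit 0) (nat_lit 0) (nat_lit 0) (nat_lit 0x20056d4f2) (nat_lit 268435456)]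
noncomputable def e16_18 : List Rx := [
  Rx.mk (nat_lit 295) (nat_lit 7) (nat_lit 4) (nat_lit 4) (nat_lit 1) (nat_lit 47) (nat_lit 114) r8_47 r4_114 (nat_lit 0) (nat_lit 11807297) (nat_lit 6982043) (nat_lit 0x1b19f2d78) (nat_lit 370624546),
  Rx.mk (nat_lit 315) (nat_lit 3) (nat_lit 7) (nat_lit 4) (nat_lit 3) (nat_lit 48) (nat_lit 116) r8_48 r4_116 (nat_lit 0) (nat_lit 0) (nat_lit 6335143) (nat_lit 0x203ee26e2) (nat_lit 271036899),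
  Rx.mk (nat_lit 319) (nat_lit 7) (nat_lit 7) (nat_lit 4) (nat_lit 3) (nat_lit 49) (nat_lit 115) r8_49 r4_115 (nat_lit 0) (nat_lit 0) (nat_lit 5122548) (nat_lit 0x20397ba82) (nat_lit 270168654),
  Rx.mk (nat_lit 359) (nat_lit 7) (nat_lit 4) (nat_lit 5) (nat_lit 5) (nat_lit 50) (nat_lit 117) r8_50 r4_117 (nat_lit 0) (nat_lit 9484367) (nat_lit 0) (nat_lit 0x20056d4f2) (nat_lit 277919823),
  Rx.mk (nat_lit 379) (nat_lit 3) (nat_lit 7) (nat_lit 5) (nat_lit 7) (nat_lit 51) (nat_lit 119) r8_51 r4_119 (nat_lit 0) (nat_lit 0) (nat_lit 0) (nat_lit 0x2028cb836) (nat_lit 266134506),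
  Rx.mk (nat_lit 383) (nat_lit 7) (nat_lit 7) (nat_lit 5) (nat_lit 7) (nat_lit 52) (nat_lit 118) r8_52 r4_118 (nat_lit 0) (nat_lit 0) (nat_lit 0) (nat_lit 0x205b17592) (nat_lit 262878656),
  Rx.mk (nat_lit 423) (nat_lit 7) (nat_lit 4) (nat_lit 6) (nat_lit 5) (nat_lit 53) (nat_lit 122) r8_53 r4_122 (nat_lit 0) (nat_lit 9484367) (nat_lit 0) (nat_lit 0x20056d4f2) (nat_lit 277919823),
  Rx.mk (nat_lit 439) (nat_lit 7) (nat_lit 6) (nat_lit 6) (nat_lit 7) (nat_lit 54) (nat_lit 124) r8_54 r4_124 (nat_lit 0) (nat_lit 0) (nat_lit 0) (nat_lit 0x20056d4f2) (nat_lit 268435456),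
  Rx.mk (nat_lit 447) (nat_lit 7) (nat_lit 7) (nat_lit 6) (nat_lit 7) (nat_lit 55) (nat_lit 123) r8_55 r4_123 (nat_lit 0) (nat_lit 0) (nat_lit 0) (nat_lit 0x205b17592) (nat_lit 262878656),
  Rx.mk (nat_lit 475) (nat_lit 3) (nat_lit 3) (nat_lit 7) (nat_lit 7) (nat_lit 56) (nat_lit 121) r8_56 r4_121 (nat_lit 0) (nat_lit 0) (nat_lit 0) (nat_lit 0x20056d4f2) (nat_lit 268435456),
  Rx.mk (nat_lit 507) (nat_lit 3) (nat_lit 7) (nat_lit 7) (nat_lit 7) (nat_lit 57) (nat_lit 120) r8_57 r4_120 (nat_lit 0) (nat_lit 0) (nat_lit 0) (nat_lit 0x20056d4f2) (nat_lit 268435456)]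
noncomputable def e16_19 : List Rx := [
  Rx.mk (nat_lit 295) (nat_lit 7) (nat_lit 4) (nat_lit 4) (nat_lit 1) (nat_lit 149) (nat_lit 112) r8_149 r10_112 (nat_lit 0) (nat_lit 8541134) (nat_lit 6364952) (nat_lit 0x186a9d334) (nat_lit 412357992),
  Rx.mk (nat_lit 315) (nat_lit 3) (nat_lit 7) (nat_lit 4) (nat_lit 3) (nat_lit 150) (nat_lit 110) r8_150 r10_110 (nat_lit 0) (nat_lit 0) (nat_lit 9484367) (nat_lit 0x1fe950e7c) (nat_lit 279752073),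
  Rx.mk (nat_lit 319) (nat_lit 7) (nat_lit 7) (nat_lit 4) (nat_lit 3) (nat_lit 151) (nat_lit 114) r8_151 r10_114 (nat_lit 0) (nat_lit 0) (nat_lit 4442685) (nat_lit 0x203b15f3c) (nat_lit 269384691),
  Rx.mk (nat_lit 423) (nat_lit 7) (nat_lit 4) (nat_lit 6) (nat_lit 5) (nat_lit 152) (nat_lit 113) r8_152 r10_113 (nat_lit 0) (nat_lit 9484367) (nat_lit 0) (nat_lit 0x1ff13e1a2) (nat_lit 279234723),
  Rx.mk (nat_lit 439) (nat_lit 7) (nat_lit 6) (nat_lit 6) (nat_lit 7) (nat_lit 153) (nat_lit 116) r8_153 r10_116 (nat_lit 0) (nat_lit 0) (nat_lit 0) (nat_lit 0x20056d4f2) (nat_lit 268435456),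
  Rx.mk (nat_lit 447) (nat_lit 7) (nat_lit 7) (nat_lit 6) (nat_lit 7) (nat_lit 154) (nat_lit 115) r8_154 r10_115 (nat_lit 0) (nat_lit 0) (nat_lit 0) (nat_lit 0x20056d4f2) (nat_lit 268435456),
  Rx.mk (nat_lit 475) (nat_lit 3) (nat_lit 3) (nat_lit 7) (nat_lit 7) (nat_lit 155) (nat_lit 109) r8_155 r10_109 (nat_lit 0) (nat_lit 0) (nat_lit 0) (nat_lit 0x20056d4f2) (nat_lit 268435456),
  Rx.mk (nat_lit 507) (nat_lit 3) (nat_lit 7) (nat_lit 7) (nat_lit 7) (nat_lit 156) (nat_lit 111) r8_156 r10_111 (nat_lit 0) (nat_lit 0) (nat_lit 0) (nat_lit 0x20056d4f2) (nat_lit 268435456)]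
noncomputable def e16_20 : List Rx := [
  Rx.mk (nat_lit 283) (nat_lit 3) (nat_lit 3) (nat_lit 4) (nat_lit 3) (nat_lit 206) (nat_lit 115) r8_206 r11_115 (nat_lit 0) (nat_lit 0) (nat_lit 10015832) (nat_lit 0x1fdbfee04) (nat_lit 281155438),
  Rx.mk (nat_lit 315) (nat_lit 3) (nat_lit 7) (nat_lit 4) (nat_lit 3) (nat_lit 207) (nat_lit 118) r8_207 r11_118 (nat_lit 0) (nat_lit 0) (nat_lit 9484367) (nat_lit 0x20056d4f2) (nat_lit 277919823),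
  Rx.mk (nat_lit 319) (nat_lit 7) (nat_lit 7) (nat_lit 4) (nat_lit 3) (nat_lit 208) (nat_lit 120) r8_208 r11_120 (nat_lit 0) (nat_lit 0) (nat_lit 6380904) (nat_lit 0x200222932) (nat_lit 275019360),
  Rx.mk (nat_lit 347) (nat_lit 3) (nat_lit 3) (nat_lit 5) (nat_lit 7) (nat_lit 209) (nat_lit 116) r8_209 r11_116 (nat_lit 0) (nat_lit 0) (nat_lit 0) (nat_lit 0x20056d4f2) (nat_lit 268435456),
  Rx.mk (nat_lit 379) (nat_lit 3) (nat_lit 7) (nat_lit 5) (nat_lit 7) (nat_lit 210) (nat_lit 119) r8_210 r11_119 (nat_lit 0) (nat_lit 0) (nat_lit 0) (nat_lit 0x20056d4f2) (nat_lit 268435456),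
  Rx.mk (nat_lit 383) (nat_lit 7) (nat_lit 7) (nat_lit 5) (nat_lit 7) (nat_lit 211) (nat_lit 121) r8_211 r11_121 (nat_lit 0) (nat_lit 0) (nat_lit 0) (nat_lit 0x203017a4a) (nat_lit 265661706),
  Rx.mk (nat_lit 447) (nat_lit 7) (nat_lit 7) (nat_lit 6) (nat_lit 7) (nat_lit 212) (nat_lit 122) r8_212 r11_122 (nat_lit 0) (nat_lit 0) (nat_lit 0) (nat_lit 0x203017a4a) (nat_lit 265661706),
  Rx.mk (nat_lit 475) (nat_lit 3) (nat_lit 3) (nat_lit 7) (nat_lit 7) (nat_lit 213) (nat_lit 117) r8_213 r11_117 (nat_lit 0) (nat_lit 0) (nat_lit 0) (nat_lit 0x20056d4f2) (nat_lit 268435456)]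
noncomputable def e16_21 : List Rx := [
  Rx.mk (nat_lit 0) (nat_lit 0) (nat_lit 0) (nat_lit 0) (nat_lit 0) (nat_lit 266) (nat_lit 202) r8_266 r9_202 (nat_lit 7358433) (nat_lit 9425907) (nat_lit 10521872) (nat_lit 0xfed8bfec) (nat_lit 568969768),
  Rx.mk (nat_lit 2) (nat_lit 2) (nat_lit 0) (nat_lit 0) (nat_lit 1) (nat_lit 267) (nat_lit 203) r8_267 r9_203 (nat_lit 0) (nat_lit 12417474) (nat_lit 9102018) (nat_lit 0x1c993f878) (nat_lit 347926448),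
  Rx.mk (nat_lit 18) (nat_lit 2) (nat_lit 2) (nat_lit 0) (nat_lit 3) (nat_lit 268) (nat_lit 207) r8_268 r9_207 (nat_lit 0) (nat_lit 0) (nat_lit 9484367) (nat_lit 0x20056d4f2) (nat_lit 277919823),
  Rx.mk (nat_lit 24) (nat_lit 0) (nat_lit 3) (nat_lit 0) (nat_lit 2) (nat_lit 269) (nat_lit 204) r8_269 r9_204 (nat_lit 11295192) (nat_lit 0) (nat_lit 8834210) (nat_lit 0x1a59e41f8) (nat_lit 384717008),
  Rx.mk (nat_lit 146) (nat_lit 2) (nat_lit 2) (nat_lit 2) (nat_lit 7) (nat_lit 270) (nat_lit 208) r8_270 r9_208 (nat_lit 0) (nat_lit 0) (nat_lit 0) (nat_lit 0x20056d4f2) (nat_lit 268435456),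
  Rx.mk (nat_lit 216) (nat_lit 0) (nat_lit 3) (nat_lit 3) (nat_lit 6) (nat_lit 271) (nat_lit 205) r8_271 r9_205 (nat_lit 9484367) (nat_lit 0) (nat_lit 0) (nat_lit 0x20056d4f2) (nat_lit 277919823),
  Rx.mk (nat_lit 219) (nat_lit 3) (nat_lit 3) (nat_lit 3) (nat_lit 7) (nat_lit 272) (nat_lit 206) r8_272 r9_206 (nat_lit 0) (nat_lit 0) (nat_lit 0) (nat_lit 0x20056d4f2) (nat_lit 268435456)]
noncomputable def e16_22 : List Rx := [
  Rx.mk (nat_lit 64) (nat_lit 0) (nat_lit 0) (nat_lit 1) (nat_lit 4) (nat_lit 230) (nat_lit 271) r8_230 r0_271 (nat_lit 15685587) (nat_lit 24990952) (nat_lit 0) (nat_lit 0x16ee57b22) (nat_lit 463363445),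
  Rx.mk (nat_lit 65) (nat_lit 1) (nat_lit 0) (nat_lit 1) (nat_lit 5) (nat_lit 231) (nat_lit 274) r8_231 r0_274 (nat_lit 0) (nat_lit 14687495) (nat_lit 0) (nat_lit 0x1b66eebd6) (nat_lit 361425101),
  Rx.mk (nat_lit 72) (nat_lit 0) (nat_lit 1) (nat_lit 1) (nat_lit 6) (nat_lit 232) (nat_lit 272) r8_232 r0_272 (nat_lit 13709057) (nat_lit 0) (nat_lit 0) (nat_lit 0x1e6527020) (nat_lit 309616313),
  Rx.mk (nat_lit 73) (nat_lit 1) (nat_lit 1) (nat_lit 1) (nat_lit 7) (nat_lit 233) (nat_lit 275) r8_233 r0_275 (nat_lit 0) (nat_lit 0) (nat_lit 0) (nat_lit 0x1f8bb4142) (nat_lit 276413756),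
  Rx.mk (nat_lit 88) (nat_lit 0) (nat_lit 3) (nat_lit 1) (nat_lit 6) (nat_lit 234) (nat_lit 273) r8_234 r0_273 (nat_lit 9484367) (nat_lit 0) (nat_lit 0) (nat_lit 0x1ffb35d36) (nat_lit 278585473),
  Rx.mk (nat_lit 89) (nat_lit 1) (nat_lit 3) (nat_lit 1) (nat_lit 7) (nat_lit 235) (nat_lit 276) r8_235 r0_276 (nat_lit 0) (nat_lit 0) (nat_lit 0) (nat_lit 0x1ff5fca0e) (nat_lit 269441006),
  Rx.mk (nat_lit 91) (nat_lit 3) (nat_lit 3) (nat_lit 1) (nat_lit 7) (nat_lit 236) (nat_lit 277) r8_236 r0_277 (nat_lit 0) (nat_lit 0) (nat_lit 0) (nat_lit 0x20056d4f2) (nat_lit 268435456),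
  Rx.mk (nat_lit 320) (nat_lit 0) (nat_lit 0) (nat_lit 5) (nat_lit 4) (nat_lit 237) (nat_lit 278) r8_237 r0_278 (nat_lit 11550315) (nat_lit 4307608) (nat_lit 0) (nat_lit 0x182dd78dc) (nat_lit 417310079),
  Rx.mk (nat_lit 321) (nat_lit 1) (nat_lit 0) (nat_lit 5) (nat_lit 5) (nat_lit 238) (nat_lit 280) r8_238 r0_280 (nat_lit 0) (nat_lit 9900802) (nat_lit 0) (nat_lit 0x1d302332a) (nat_lit 326302108),
  Rx.mk (nat_lit 328) (nat_lit 0) (nat_lit 1) (nat_lit 5) (nat_lit 6) (nat_lit 239) (nat_lit 279) r8_239 r0_279 (nat_lit 9484367) (nat_lit 0) (nat_lit 0) (nat_lit 0x1fc24261e) (nat_lit 282306373),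
  Rx.mk (nat_lit 329) (nat_lit 1) (nat_lit 1) (nat_lit 5) (nat_lit 7) (nat_lit 240) (nat_lit 281) r8_240 r0_281 (nat_lit 0) (nat_lit 0) (nat_lit 0) (nat_lit 0x2022bd70a) (nat_lit 266525506)]
noncomputable def e16_23 : List Rx := [
  Rx.mk (nat_lit 72) (nat_lit 0) (nat_lit 1) (nat_lit 1) (nat_lit 6) (nat_lit 316) (nat_lit 274) r8_316 r1_274 (nat_lit 9484367) (nat_lit 0) (nat_lit 0) (nat_lit 0x1fcee3b0c) (nat_lit 281479073),
  Rx.mk (nat_lit 73) (nat_lit 1) (nat_lit 1) (nat_lit 1) (nat_lit 7) (nat_lit 317) (nat_lit 275) r8_317 r1_275 (nat_lit 0) (nat_lit 0) (nat_lit 0) (nat_lit 0x20056d4f2) (nat_lit 268435456),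
  Rx.mk (nat_lit 328) (nat_lit 0) (nat_lit 1) (nat_lit 5) (nat_lit 6) (nat_lit 318) (nat_lit 276) r8_318 r1_276 (nat_lit 9484367) (nat_lit 0) (nat_lit 0) (nat_lit 0x1fd832dac) (nat_lit 280871973),
  Rx.mk (nat_lit 329) (nat_lit 1) (nat_lit 1) (nat_lit 5) (nat_lit 7) (nat_lit 319) (nat_lit 277) r8_319 r1_277 (nat_lit 0) (nat_lit 0) (nat_lit 0) (nat_lit 0x20056d4f2) (nat_lit 268435456)]
noncomputable def e16_24 : List Rx := [
  Rx.mk (nat_lit 88) (nat_lit 0) (nat_lit 3) (nat_lit 1) (nat_lit 6) (nat_lit 338) (nat_lit 284) r8_338 r4_284 (nat_lit 9484367) (nat_lit 0) (nat_lit 0) (nat_lit 0x20056d4f2) (nat_lit 277919823),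
  Rx.mk (nat_lit 89) (nat_lit 1) (nat_lit 3) (nat_lit 1) (nat_lit 7) (nat_lit 339) (nat_lit 285) r8_339 r4_285 (nat_lit 0) (nat_lit 0) (nat_lit 0) (nat_lit 0x20056d4f2) (nat_lit 268435456),
  Rx.mk (nat_lit 91) (nat_lit 3) (nat_lit 3) (nat_lit 1) (nat_lit 7) (nat_lit 340) (nat_lit 286) r8_340 r4_286 (nat_lit 0) (nat_lit 0) (nat_lit 0) (nat_lit 0x20056d4f2) (nat_lit 268435456),
  Rx.mk (nat_lit 320) (nat_lit 0) (nat_lit 0) (nat_lit 5) (nat_lit 4) (nat_lit 341) (nat_lit 287) r8_341 r4_287 (nat_lit 12458268) (nat_lit 14567528) (nat_lit 0) (nat_lit 0x1d73a9072) (nat_lit 338947352),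
  Rx.mk (nat_lit 321) (nat_lit 1) (nat_lit 0) (nat_lit 5) (nat_lit 5) (nat_lit 342) (nat_lit 290) r8_342 r4_290 (nat_lit 0) (nat_lit 8683363) (nat_lit 0) (nat_lit 0x1fe72858c) (nat_lit 279088869),
  Rx.mk (nat_lit 328) (nat_lit 0) (nat_lit 1) (nat_lit 5) (nat_lit 6) (nat_lit 343) (nat_lit 288) r8_343 r4_288 (nat_lit 9484367) (nat_lit 0) (nat_lit 0) (nat_lit 0x20056d4f2) (nat_lit 277919823),
  Rx.mk (nat_lit 329) (nat_lit 1) (nat_lit 1) (nat_lit 5) (nat_lit 7) (nat_lit 344) (nat_lit 291) r8_344 r4_291 (nat_lit 0) (nat_lit 0) (nat_lit 0) (nat_lit 0x20056d4f2) (nat_lit 268435456),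
  Rx.mk (nat_lit 344) (nat_lit 0) (nat_lit 3) (nat_lit 5) (nat_lit 6) (nat_lit 345) (nat_lit 289) r8_345 r4_289 (nat_lit 9484367) (nat_lit 0) (nat_lit 0) (nat_lit 0x20056d4f2) (nat_lit 277919823),
  Rx.mk (nat_lit 345) (nat_lit 1) (nat_lit 3) (nat_lit 5) (nat_lit 7) (nat_lit 346) (nat_lit 292) r8_346 r4_292 (nat_lit 0) (nat_lit 0) (nat_lit 0) (nat_lit 0x20056d4f2) (nat_lit 268435456)]
noncomputable def e16_25 : List Rx := [
  Rx.mk (nat_lit 64) (nat_lit 0) (nat_lit 0) (nat_lit 1) (nat_lit 4) (nat_lit 248) (nat_lit 246) r8_248 r7_246 (nat_lit 11320174) (nat_lit 10214042) (nat_lit 0) (nat_lit 0x19516debc) (nat_lit 403669772),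
  Rx.mk (nat_lit 65) (nat_lit 1) (nat_lit 0) (nat_lit 1) (nat_lit 5) (nat_lit 249) (nat_lit 247) r8_249 r7_247 (nat_lit 0) (nat_lit 9484367) (nat_lit 0) (nat_lit 0x1f9da5748) (nat_lit 284716123),
  Rx.mk (nat_lit 66) (nat_lit 2) (nat_lit 0) (nat_lit 1) (nat_lit 5) (nat_lit 250) (nat_lit 248) r8_250 r7_248 (nat_lit 0) (nat_lit 9484367) (nat_lit 0) (nat_lit 0x1ff7a7da4) (nat_lit 278815973),
  Rx.mk (nat_lit 72) (nat_lit 0) (nat_lit 1) (nat_lit 1) (nat_lit 6) (nat_lit 251) (nat_lit 249) r8_251 r7_249 (nat_lit 9484367) (nat_lit 0) (nat_lit 0) (nat_lit 0x1ff43348e) (nat_lit 279041273),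
  Rx.mk (nat_lit 73) (nat_lit 1) (nat_lit 1) (nat_lit 1) (nat_lit 7) (nat_lit 252) (nat_lit 250) r8_252 r7_250 (nat_lit 0) (nat_lit 0) (nat_lit 0) (nat_lit 0x20056d4f2) (nat_lit 268435456),
  Rx.mk (nat_lit 74) (nat_lit 2) (nat_lit 1) (nat_lit 1) (nat_lit 7) (nat_lit 253) (nat_lit 251) r8_253 r7_251 (nat_lit 0) (nat_lit 0) (nat_lit 0) (nat_lit 0x20056d4f2) (nat_lit 268435456),
  Rx.mk (nat_lit 88) (nat_lit 0) (nat_lit 3) (nat_lit 1) (nat_lit 6) (nat_lit 254) (nat_lit 252) r8_254 r7_252 (nat_lit 9484367) (nat_lit 0) (nat_lit 0) (nat_lit 0x20056d4f2) (nat_lit 277919823),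
  Rx.mk (nat_lit 89) (nat_lit 1) (nat_lit 3) (nat_lit 1) (nat_lit 7) (nat_lit 255) (nat_lit 253) r8_255 r7_253 (nat_lit 0) (nat_lit 0) (nat_lit 0) (nat_lit 0x20056d4f2) (nat_lit 268435456),
  Rx.mk (nat_lit 91) (nat_lit 3) (nat_lit 3) (nat_lit 1) (nat_lit 7) (nat_lit 256) (nat_lit 254) r8_256 r7_254 (nat_lit 0) (nat_lit 0) (nat_lit 0) (nat_lit 0x20056d4f2) (nat_lit 268435456)]
noncomputable def e16_26 : List Rx := [
  Rx.mk (nat_lit 72) (nat_lit 0) (nat_lit 1) (nat_lit 1) (nat_lit 6) (nat_lit 323) (nat_lit 191) r8_323 r8_191 (nat_lit 9484367) (nat_lit 0) (nat_lit 0) (nat_lit 0x1ff65bae0) (nat_lit 278900523),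
  Rx.mk (nat_lit 73) (nat_lit 1) (nat_lit 1) (nat_lit 1) (nat_lit 7) (nat_lit 324) (nat_lit 192) r8_324 r8_192 (nat_lit 0) (nat_lit 0) (nat_lit 0) (nat_lit 0x20056d4f2) (nat_lit 268435456),
  Rx.mk (nat_lit 74) (nat_lit 2) (nat_lit 1) (nat_lit 1) (nat_lit 7) (nat_lit 325) (nat_lit 193) r8_325 r8_193 (nat_lit 0) (nat_lit 0) (nat_lit 0) (nat_lit 0x20056d4f2) (nat_lit 268435456)]
noncomputable def e16_27 : List Rx := [
  Rx.mk (nat_lit 0) (nat_lit 0) (nat_lit 0) (nat_lit 0) (nat_lit 0) (nat_lit 299) (nat_lit 299) r8_299 r8_299 (nat_lit 11217679) (nat_lit 11217679) (nat_lit 12102617) (nat_lit 0xff1c69e0) (nat_lit 575917581),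
  Rx.mk (nat_lit 2) (nat_lit 2) (nat_lit 0) (nat_lit 0) (nat_lit 1) (nat_lit 300) (nat_lit 302) r8_300 r8_302 (nat_lit 0) (nat_lit 10262683) (nat_lit 15441429) (nat_lit 0x1aef99716) (nat_lit 380358468),
  Rx.mk (nat_lit 18) (nat_lit 2) (nat_lit 2) (nat_lit 0) (nat_lit 3) (nat_lit 301) (nat_lit 303) r8_301 r8_303 (nat_lit 0) (nat_lit 0) (nat_lit 9484367) (nat_lit 0x20056d4f2) (nat_lit 277919823),
  Rx.mk (nat_lit 24) (nat_lit 0) (nat_lit 3) (nat_lit 0) (nat_lit 2) (nat_lit 302) (nat_lit 300) r8_302 r8_300 (nat_lit 10262683) (nat_lit 0) (nat_lit 15441429) (nat_lit 0x1aef99716) (nat_lit 380358468),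
  Rx.mk (nat_lit 27) (nat_lit 3) (nat_lit 3) (nat_lit 0) (nat_lit 3) (nat_lit 303) (nat_lit 301) r8_303 r8_301 (nat_lit 0) (nat_lit 0) (nat_lit 9484367) (nat_lit 0x20056d4f2) (nat_lit 277919823),
  Rx.mk (nat_lit 64) (nat_lit 0) (nat_lit 0) (nat_lit 1) (nat_lit 4) (nat_lit 304) (nat_lit 304) r8_304 r8_304 (nat_lit 13082183) (nat_lit 13082183) (nat_lit 0) (nat_lit 0x1aaf180c0) (nat_lit 385098822),
  Rx.mk (nat_lit 65) (nat_lit 1) (nat_lit 0) (nat_lit 1) (nat_lit 5) (nat_lit 305) (nat_lit 307) r8_305 r8_307 (nat_lit 0) (nat_lit 9484367) (nat_lit 0) (nat_lit 0x20056d4f2) (nat_lit 277919823),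
  Rx.mk (nat_lit 66) (nat_lit 2) (nat_lit 0) (nat_lit 1) (nat_lit 5) (nat_lit 306) (nat_lit 311) r8_306 r8_311 (nat_lit 0) (nat_lit 9484367) (nat_lit 0) (nat_lit 0x20056d4f2) (nat_lit 277919823),
  Rx.mk (nat_lit 72) (nat_lit 0) (nat_lit 1) (nat_lit 1) (nat_lit 6) (nat_lit 307) (nat_lit 305) r8_307 r8_305 (nat_lit 9484367) (nat_lit 0) (nat_lit 0) (nat_lit 0x20056d4f2) (nat_lit 277919823),
  Rx.mk (nat_lit 73) (nat_lit 1) (nat_lit 1) (nat_lit 1) (nat_lit 7) (nat_lit 308) (nat_lit 308) r8_308 r8_308 (nat_lit 0) (nat_lit 0) (nat_lit 0) (nat_lit 0x20056d4f2) (nat_lit 268435456),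
  Rx.mk (nat_lit 74) (nat_lit 2) (nat_lit 1) (nat_lit 1) (nat_lit 7) (nat_lit 309) (nat_lit 312) r8_309 r8_312 (nat_lit 0) (nat_lit 0) (nat_lit 0) (nat_lit 0x20056d4f2) (nat_lit 268435456),
  Rx.mk (nat_lit 82) (nat_lit 2) (nat_lit 2) (nat_lit 1) (nat_lit 7) (nat_lit 310) (nat_lit 313) r8_310 r8_313 (nat_lit 0) (nat_lit 0) (nat_lit 0) (nat_lit 0x20056d4f2) (nat_lit 268435456),
  Rx.mk (nat_lit 88) (nat_lit 0) (nat_lit 3) (nat_lit 1) (nat_lit 6) (nat_lit 311) (nat_lit 306) r8_311 r8_306 (nat_lit 9484367) (nat_lit 0) (nat_lit 0) (nat_lit 0x20056d4f2) (nat_lit 277919823),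
  Rx.mk (nat_lit 89) (nat_lit 1) (nat_lit 3) (nat_lit 1) (nat_lit 7) (nat_lit 312) (nat_lit 309) r8_312 r8_309 (nat_lit 0) (nat_lit 0) (nat_lit 0) (nat_lit 0x20056d4f2) (nat_lit 268435456),
  Rx.mk (nat_lit 91) (nat_lit 3) (nat_lit 3) (nat_lit 1) (nat_lit 7) (nat_lit 313) (nat_lit 310) r8_313 r8_310 (nat_lit 0) (nat_lit 0) (nat_lit 0) (nat_lit 0x20056d4f2) (nat_lit 268435456),
  Rx.mk (nat_lit 146) (nat_lit 2) (nat_lit 2) (nat_lit 2) (nat_lit 7) (nat_lit 314) (nat_lit 315) r8_314 r8_315 (nat_lit 0) (nat_lit 0) (nat_lit 0) (nat_lit 0x20056d4f2) (nat_lit 268435456),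
  Rx.mk (nat_lit 219) (nat_lit 3) (nat_lit 3) (nat_lit 3) (nat_lit 7) (nat_lit 315) (nat_lit 314) r8_315 r8_314 (nat_lit 0) (nat_lit 0) (nat_lit 0) (nat_lit 0x20056d4f2) (nat_lit 268435456)]
noncomputable def e16_28 : List Rx := [
  Rx.mk (nat_lit 88) (nat_lit 0) (nat_lit 3) (nat_lit 1) (nat_lit 6) (nat_lit 355) (nat_lit 195) r8_355 r10_195 (nat_lit 11260883) (nat_lit 0) (nat_lit 0) (nat_lit 0x1fe865990) (nat_lit 281588039),
  Rx.mk (nat_lit 89) (nat_lit 1) (nat_lit 3) (nat_lit 1) (nat_lit 7) (nat_lit 356) (nat_lit 196) r8_356 r10_196 (nat_lit 0) (nat_lit 0) (nat_lit 0) (nat_lit 0x20056d4f2) (nat_lit 268435456),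
  Rx.mk (nat_lit 91) (nat_lit 3) (nat_lit 3) (nat_lit 1) (nat_lit 7) (nat_lit 357) (nat_lit 197) r8_357 r10_197 (nat_lit 0) (nat_lit 0) (nat_lit 0) (nat_lit 0x20056d4f2) (nat_lit 268435456)]
noncomputable def e16_29 : List Rx := [
  Rx.mk (nat_lit 91) (nat_lit 3) (nat_lit 3) (nat_lit 1) (nat_lit 7) (nat_lit 367) (nat_lit 229) r8_367 r11_229 (nat_lit 0) (nat_lit 0) (nat_lit 0) (nat_lit 0x20056d4f2) (nat_lit 268435456),
  Rx.mk (nat_lit 320) (nat_lit 0) (nat_lit 0) (nat_lit 5) (nat_lit 4) (nat_lit 368) (nat_lit 222) r8_368 r11_222 (nat_lit 24191423) (nat_lit 29966362) (nat_lit 0) (nat_lit 0x1ebb93526) (nat_lit 344331841),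
  Rx.mk (nat_lit 321) (nat_lit 1) (nat_lit 0) (nat_lit 5) (nat_lit 5) (nat_lit 369) (nat_lit 223) r8_369 r11_223 (nat_lit 0) (nat_lit 9484367) (nat_lit 0) (nat_lit 0x20056d4f2) (nat_lit 277919823),
  Rx.mk (nat_lit 328) (nat_lit 0) (nat_lit 1) (nat_lit 5) (nat_lit 6) (nat_lit 370) (nat_lit 224) r8_370 r11_224 (nat_lit 9484367) (nat_lit 0) (nat_lit 0) (nat_lit 0x20056d4f2) (nat_lit 277919823),
  Rx.mk (nat_lit 329) (nat_lit 1) (nat_lit 1) (nat_lit 5) (nat_lit 7) (nat_lit 371) (nat_lit 225) r8_371 r11_225 (nat_lit 0) (nat_lit 0) (nat_lit 0) (nat_lit 0x20056d4f2) (nat_lit 268435456),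
  Rx.mk (nat_lit 344) (nat_lit 0) (nat_lit 3) (nat_lit 5) (nat_lit 6) (nat_lit 372) (nat_lit 226) r8_372 r11_226 (nat_lit 9484367) (nat_lit 0) (nat_lit 0) (nat_lit 0x20056d4f2) (nat_lit 277919823),
  Rx.mk (nat_lit 345) (nat_lit 1) (nat_lit 3) (nat_lit 5) (nat_lit 7) (nat_lit 373) (nat_lit 227) r8_373 r11_227 (nat_lit 0) (nat_lit 0) (nat_lit 0) (nat_lit 0x20056d4f2) (nat_lit 268435456),
  Rx.mk (nat_lit 347) (nat_lit 3) (nat_lit 3) (nat_lit 5) (nat_lit 7) (nat_lit 374) (nat_lit 228) r8_374 r11_228 (nat_lit 0) (nat_lit 0) (nat_lit 0) (nat_lit 0x20056d4f2) (nat_lit 268435456)]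
noncomputable def e16_30 : List Rx := [
  Rx.mk (nat_lit 315) (nat_lit 3) (nat_lit 7) (nat_lit 4) (nat_lit 3) (nat_lit 58) (nat_lit 115) r8_58 r5_115 (nat_lit 0) (nat_lit 0) (nat_lit 4768026) (nat_lit 0x205744316) (nat_lit 267884932),
  Rx.mk (nat_lit 379) (nat_lit 3) (nat_lit 7) (nat_lit 5) (nat_lit 7) (nat_lit 59) (nat_lit 116) r8_59 r5_116 (nat_lit 0) (nat_lit 0) (nat_lit 0) (nat_lit 0x2048f80d2) (nat_lit 264049356),
  Rx.mk (nat_lit 507) (nat_lit 3) (nat_lit 7) (nat_lit 7) (nat_lit 7) (nat_lit 60) (nat_lit 117) r8_60 r5_117 (nat_lit 0) (nat_lit 0) (nat_lit 0) (nat_lit 0x20056d4f2) (nat_lit 268435456)]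
noncomputable def e16_31 : List Rx := [
  Rx.mk (nat_lit 315) (nat_lit 3) (nat_lit 7) (nat_lit 4) (nat_lit 3) (nat_lit 157) (nat_lit 113) r8_157 r11_113 (nat_lit 0) (nat_lit 0) (nat_lit 9484367) (nat_lit 0x20056d4f2) (nat_lit 277919823),
  Rx.mk (nat_lit 507) (nat_lit 3) (nat_lit 7) (nat_lit 7) (nat_lit 7) (nat_lit 158) (nat_lit 114) r8_158 r11_114 (nat_lit 0) (nat_lit 0) (nat_lit 0) (nat_lit 0x20056d4f2) (nat_lit 268435456)]
noncomputable def e16_32 : List Rx := [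
  Rx.mk (nat_lit 344) (nat_lit 0) (nat_lit 3) (nat_lit 5) (nat_lit 6) (nat_lit 214) (nat_lit 311) r8_214 r6_311 (nat_lit 8407643) (nat_lit 0) (nat_lit 0) (nat_lit 0x1fc19b2d8) (nat_lit 281260399),
  Rx.mk (nat_lit 345) (nat_lit 1) (nat_lit 3) (nat_lit 5) (nat_lit 7) (nat_lit 215) (nat_lit 313) r8_215 r6_313 (nat_lit 0) (nat_lit 0) (nat_lit 0) (nat_lit 0x20056d4f2) (nat_lit 268435456),
  Rx.mk (nat_lit 376) (nat_lit 0) (nat_lit 7) (nat_lit 5) (nat_lit 6) (nat_lit 216) (nat_lit 310) r8_216 r6_310 (nat_lit 2919699) (nat_lit 0) (nat_lit 0) (nat_lit 0x2016d6edc) (nat_lit 270181455),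
  Rx.mk (nat_lit 377) (nat_lit 1) (nat_lit 7) (nat_lit 5) (nat_lit 7) (nat_lit 217) (nat_lit 312) r8_217 r6_312 (nat_lit 0) (nat_lit 0) (nat_lit 0) (nat_lit 0x20936f3ea) (nat_lit 259247806)]
noncomputable def e16_33 : List Rx := [
  Rx.mk (nat_lit 88) (nat_lit 0) (nat_lit 3) (nat_lit 1) (nat_lit 6) (nat_lit 347) (nat_lit 269) r8_347 r5_269 (nat_lit 9484367) (nat_lit 0) (nat_lit 0) (nat_lit 0x20056d4f2) (nat_lit 277919823),
  Rx.mk (nat_lit 89) (nat_lit 1) (nat_lit 3) (nat_lit 1) (nat_lit 7) (nat_lit 348) (nat_lit 270) r8_348 r5_270 (nat_lit 0) (nat_lit 0) (nat_lit 0) (nat_lit 0x20056d4f2) (nat_lit 268435456),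
  Rx.mk (nat_lit 344) (nat_lit 0) (nat_lit 3) (nat_lit 5) (nat_lit 6) (nat_lit 349) (nat_lit 271) r8_349 r5_271 (nat_lit 7987863) (nat_lit 0) (nat_lit 0) (nat_lit 0x2001dda6c) (nat_lit 276652469),
  Rx.mk (nat_lit 345) (nat_lit 1) (nat_lit 3) (nat_lit 5) (nat_lit 7) (nat_lit 350) (nat_lit 272) r8_350 r5_272 (nat_lit 0) (nat_lit 0) (nat_lit 0) (nat_lit 0x20056d4f2) (nat_lit 268435456)]
noncomputable def e16_34 : List Rx := [
  Rx.mk (nat_lit 88) (nat_lit 0) (nat_lit 3) (nat_lit 1) (nat_lit 6) (nat_lit 358) (nat_lit 335) r8_358 r11_335 (nat_lit 9484367) (nat_lit 0) (nat_lit 0) (nat_lit 0x20056d4f2) (nat_lit 277919823),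
  Rx.mk (nat_lit 89) (nat_lit 1) (nat_lit 3) (nat_lit 1) (nat_lit 7) (nat_lit 359) (nat_lit 336) r8_359 r11_336 (nat_lit 0) (nat_lit 0) (nat_lit 0) (nat_lit 0x20056d4f2) (nat_lit 268435456),
  Rx.mk (nat_lit 90) (nat_lit 2) (nat_lit 3) (nat_lit 1) (nat_lit 7) (nat_lit 360) (nat_lit 337) r8_360 r11_337 (nat_lit 0) (nat_lit 0) (nat_lit 0) (nat_lit 0x20056d4f2) (nat_lit 268435456)]
noncomputable def e16_35 : List Rx := [
  Rx.mk (nat_lit 376) (nat_lit 0) (nat_lit 7) (nat_lit 5) (nat_lit 6) (nat_lit 71) (nat_lit 203) r8_71 r6_203 (nat_lit 3112990) (nat_lit 0) (nat_lit 0) (nat_lit 0x203633f14) (nat_lit 268344796),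
  Rx.mk (nat_lit 377) (nat_lit 1) (nat_lit 7) (nat_lit 5) (nat_lit 7) (nat_lit 72) (nat_lit 204) r8_72 r6_204 (nat_lit 0) (nat_lit 0) (nat_lit 0) (nat_lit 0x2081b6e6e) (nat_lit 260388556),
  Rx.mk (nat_lit 379) (nat_lit 3) (nat_lit 7) (nat_lit 5) (nat_lit 7) (nat_lit 73) (nat_lit 205) r8_73 r6_205 (nat_lit 0) (nat_lit 0) (nat_lit 0) (nat_lit 0x20bcf9418) (nat_lit 256577206)]
noncomputable def e16_36 : List Rx := [
  Rx.mk (nat_lit 344) (nat_lit 0) (nat_lit 3) (nat_lit 5) (nat_lit 6) (nat_lit 225) (nat_lit 117) r8_225 r12_117 (nat_lit 7891744) (nat_lit 0) (nat_lit 0) (nat_lit 0x1fc6d7b0c) (nat_lit 280406750),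
  Rx.mk (nat_lit 345) (nat_lit 1) (nat_lit 3) (nat_lit 5) (nat_lit 7) (nat_lit 226) (nat_lit 119) r8_226 r12_119 (nat_lit 0) (nat_lit 0) (nat_lit 0) (nat_lit 0x20056d4f2) (nat_lit 268435456),
  Rx.mk (nat_lit 376) (nat_lit 0) (nat_lit 7) (nat_lit 5) (nat_lit 6) (nat_lit 227) (nat_lit 118) r8_227 r12_118 (nat_lit 1718674) (nat_lit 0) (nat_lit 0) (nat_lit 0x2019e5d76) (nat_lit 268749930),
  Rx.mk (nat_lit 377) (nat_lit 1) (nat_lit 7) (nat_lit 5) (nat_lit 7) (nat_lit 228) (nat_lit 120) r8_228 r12_120 (nat_lit 0) (nat_lit 0) (nat_lit 0) (nat_lit 0x212881cf8) (nat_lit 249679706),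
  Rx.mk (nat_lit 379) (nat_lit 3) (nat_lit 7) (nat_lit 5) (nat_lit 7) (nat_lit 229) (nat_lit 121) r8_229 r12_121 (nat_lit 0) (nat_lit 0) (nat_lit 0) (nat_lit 0x217654bc4) (nat_lit 244695456)]
noncomputable def e16_37 : List Rx := [
  Rx.mk (nat_lit 353) (nat_lit 1) (nat_lit 4) (nat_lit 5) (nat_lit 5) (nat_lit 178) (nat_lit 289) r8_178 r0_289 (nat_lit 0) (nat_lit 10787644) (nat_lit 0) (nat_lit 0x1b3ca9fb0) (nat_lit 360329100),
  Rx.mk (nat_lit 361) (nat_lit 1) (nat_lit 5) (nat_lit 5) (nat_lit 7) (nat_lit 179) (nat_lit 290) r8_179 r0_290 (nat_lit 0) (nat_lit 0) (nat_lit 0) (nat_lit 0x1ffe905b2) (nat_lit 268882256)]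
noncomputable def e16_38 : List Rx := [
  Rx.mk (nat_lit 353) (nat_lit 1) (nat_lit 4) (nat_lit 5) (nat_lit 5) (nat_lit 63) (nat_lit 185) r8_63 r0_185 (nat_lit 0) (nat_lit 7783153) (nat_lit 0) (nat_lit 0x1c7520078) (nat_lit 336577359),
  Rx.mk (nat_lit 357) (nat_lit 5) (nat_lit 4) (nat_lit 5) (nat_lit 5) (nat_lit 64) (nat_lit 186) r8_64 r0_186 (nat_lit 0) (nat_lit 7212426) (nat_lit 0) (nat_lit 0x1f5198ca6) (nat_lit 287452482),
  Rx.mk (nat_lit 381) (nat_lit 5) (nat_lit 7) (nat_lit 5) (nat_lit 7) (nat_lit 65) (nat_lit 187) r8_65 r0_187 (nat_lit 0) (nat_lit 0) (nat_lit 0) (nat_lit 0x20394b670) (nat_lit 265061156)]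
noncomputable def e16_39 : List Rx := [
  Rx.mk (nat_lit 353) (nat_lit 1) (nat_lit 4) (nat_lit 5) (nat_lit 5) (nat_lit 184) (nat_lit 404) r8_184 r7_404 (nat_lit 0) (nat_lit 6164355) (nat_lit 0) (nat_lit 0x20253bd24) (nat_lit 272515511),
  Rx.mk (nat_lit 357) (nat_lit 5) (nat_lit 4) (nat_lit 5) (nat_lit 5) (nat_lit 185) (nat_lit 401) r8_185 r7_401 (nat_lit 0) (nat_lit 9484367) (nat_lit 0) (nat_lit 0x1f8a43b50) (nat_lit 285991423),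
  Rx.mk (nat_lit 361) (nat_lit 1) (nat_lit 5) (nat_lit 5) (nat_lit 7) (nat_lit 186) (nat_lit 405) r8_186 r7_405 (nat_lit 0) (nat_lit 0) (nat_lit 0) (nat_lit 0x20056d4f2) (nat_lit 268435456),
  Rx.mk (nat_lit 365) (nat_lit 5) (nat_lit 5) (nat_lit 5) (nat_lit 7) (nat_lit 187) (nat_lit 402) r8_187 r7_402 (nat_lit 0) (nat_lit 0) (nat_lit 0) (nat_lit 0x20056d4f2) (nat_lit 268435456),
  Rx.mk (nat_lit 381) (nat_lit 5) (nat_lit 7) (nat_lit 5) (nat_lit 7) (nat_lit 188) (nat_lit 403) r8_188 r7_403 (nat_lit 0) (nat_lit 0) (nat_lit 0) (nat_lit 0x20056d4f2) (nat_lit 268435456)]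
noncomputable def e16_40 : List Rx := [
  Rx.mk (nat_lit 292) (nat_lit 4) (nat_lit 4) (nat_lit 4) (nat_lit 0) (nat_lit 25) (nat_lit 203) r8_25 r2_203 (nat_lit 1033161) (nat_lit 3897400) (nat_lit 841530) (nat_lit 0x10888ae30) (nat_lit 537090397),
  Rx.mk (nat_lit 293) (nat_lit 5) (nat_lit 4) (nat_lit 4) (nat_lit 1) (nat_lit 26) (nat_lit 204) r8_26 r2_204 (nat_lit 0) (nat_lit 13271194) (nat_lit 12631128) (nat_lit 0x1876a1590) (nat_lit 422557478),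
  Rx.mk (nat_lit 316) (nat_lit 4) (nat_lit 7) (nat_lit 4) (nat_lit 2) (nat_lit 27) (nat_lit 209) r8_27 r2_209 (nat_lit 1132696) (nat_lit 0) (nat_lit 696836) (nat_lit 0x1ab396354) (nat_lit 360394488),
  Rx.mk (nat_lit 317) (nat_lit 5) (nat_lit 7) (nat_lit 4) (nat_lit 3) (nat_lit 28) (nat_lit 210) r8_28 r2_210 (nat_lit 0) (nat_lit 0) (nat_lit 9484367) (nat_lit 0x20056d4f2) (nat_lit 277919823),
  Rx.mk (nat_lit 319) (nat_lit 7) (nat_lit 7) (nat_lit 4) (nat_lit 3) (nat_lit 29) (nat_lit 211) r8_29 r2_211 (nat_lit 0) (nat_lit 0) (nat_lit 9484367) (nat_lit 0x1ffae912a) (nat_lit 278604423),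
  Rx.mk (nat_lit 356) (nat_lit 4) (nat_lit 4) (nat_lit 5) (nat_lit 4) (nat_lit 30) (nat_lit 205) r8_30 r2_205 (nat_lit 21885715) (nat_lit 18538121) (nat_lit 0) (nat_lit 0x1c0a09d52) (nat_lit 376333842),
  Rx.mk (nat_lit 357) (nat_lit 5) (nat_lit 4) (nat_lit 5) (nat_lit 5) (nat_lit 31) (nat_lit 206) r8_31 r2_206 (nat_lit 0) (nat_lit 9612199) (nat_lit 0) (nat_lit 0x1ff969f20) (nat_lit 278829255),
  Rx.mk (nat_lit 380) (nat_lit 4) (nat_lit 7) (nat_lit 5) (nat_lit 6) (nat_lit 32) (nat_lit 212) r8_32 r2_212 (nat_lit 5423236) (nat_lit 0) (nat_lit 0) (nat_lit 0x2065e7670) (nat_lit 267606092),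
  Rx.mk (nat_lit 381) (nat_lit 5) (nat_lit 7) (nat_lit 5) (nat_lit 7) (nat_lit 33) (nat_lit 213) r8_33 r2_213 (nat_lit 0) (nat_lit 0) (nat_lit 0) (nat_lit 0x20056d4f2) (nat_lit 268435456),
  Rx.mk (nat_lit 383) (nat_lit 7) (nat_lit 7) (nat_lit 5) (nat_lit 7) (nat_lit 34) (nat_lit 214) r8_34 r2_214 (nat_lit 0) (nat_lit 0) (nat_lit 0) (nat_lit 0x20056d4f2) (nat_lit 268435456),
  Rx.mk (nat_lit 420) (nat_lit 4) (nat_lit 4) (nat_lit 6) (nat_lit 4) (nat_lit 35) (nat_lit 207) r8_35 r2_207 (nat_lit 5207249) (nat_lit 3475646) (nat_lit 0) (nat_lit 0x1be5c8f88) (nat_lit 346982551),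
  Rx.mk (nat_lit 421) (nat_lit 5) (nat_lit 4) (nat_lit 6) (nat_lit 5) (nat_lit 36) (nat_lit 208) r8_36 r2_208 (nat_lit 0) (nat_lit 9484367) (nat_lit 0) (nat_lit 0x20056d4f2) (nat_lit 277919823),
  Rx.mk (nat_lit 436) (nat_lit 4) (nat_lit 6) (nat_lit 6) (nat_lit 6) (nat_lit 37) (nat_lit 218) r8_37 r2_218 (nat_lit 9484367) (nat_lit 0) (nat_lit 0) (nat_lit 0x20056d4f2) (nat_lit 277919823),
  Rx.mk (nat_lit 437) (nat_lit 5) (nat_lit 6) (nat_lit 6) (nat_lit 7) (nat_lit 38) (nat_lit 219) r8_38 r2_219 (nat_lit 0) (nat_lit 0) (nat_lit 0) (nat_lit 0x20056d4f2) (nat_lit 268435456),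
  Rx.mk (nat_lit 438) (nat_lit 6) (nat_lit 6) (nat_lit 6) (nat_lit 7) (nat_lit 39) (nat_lit 220) r8_39 r2_220 (nat_lit 0) (nat_lit 0) (nat_lit 0) (nat_lit 0x20056d4f2) (nat_lit 268435456),
  Rx.mk (nat_lit 444) (nat_lit 4) (nat_lit 7) (nat_lit 6) (nat_lit 6) (nat_lit 40) (nat_lit 216) r8_40 r2_216 (nat_lit 5423236) (nat_lit 0) (nat_lit 0) (nat_lit 0x2065e7670) (nat_lit 267606092),
  Rx.mk (nat_lit 445) (nat_lit 5) (nat_lit 7) (nat_lit 6) (nat_lit 7) (nat_lit 41) (nat_lit 217) r8_41 r2_217 (nat_lit 0) (nat_lit 0) (nat_lit 0) (nat_lit 0x20056d4f2) (nat_lit 268435456),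
  Rx.mk (nat_lit 511) (nat_lit 7) (nat_lit 7) (nat_lit 7) (nat_lit 7) (nat_lit 42) (nat_lit 215) r8_42 r2_215 (nat_lit 0) (nat_lit 0) (nat_lit 0) (nat_lit 0x20056d4f2) (nat_lit 268435456)]
noncomputable def e16_41 : List Rx := [
  Rx.mk (nat_lit 292) (nat_lit 4) (nat_lit 4) (nat_lit 4) (nat_lit 0) (nat_lit 159) (nat_lit 183) r8_159 r9_183 (nat_lit 4453267) (nat_lit 2962037) (nat_lit 2940451) (nat_lit 0x1121e1c0a) (nat_lit 531543861),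
  Rx.mk (nat_lit 293) (nat_lit 5) (nat_lit 4) (nat_lit 4) (nat_lit 1) (nat_lit 160) (nat_lit 184) r8_160 r9_184 (nat_lit 0) (nat_lit 19140889) (nat_lit 12531791) (nat_lit 0x19e7d89c4) (nat_lit 403828636),
  Rx.mk (nat_lit 301) (nat_lit 5) (nat_lit 5) (nat_lit 4) (nat_lit 3) (nat_lit 161) (nat_lit 189) r8_161 r9_189 (nat_lit 0) (nat_lit 0) (nat_lit 9484367) (nat_lit 0x20056d4f2) (nat_lit 277919823),
  Rx.mk (nat_lit 316) (nat_lit 4) (nat_lit 7) (nat_lit 4) (nat_lit 2) (nat_lit 162) (nat_lit 192) r8_162 r9_192 (nat_lit 10265049) (nat_lit 0) (nat_lit 9530506) (nat_lit 0x1aabfbf22) (nat_lit 378936011),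
  Rx.mk (nat_lit 317) (nat_lit 5) (nat_lit 7) (nat_lit 4) (nat_lit 3) (nat_lit 163) (nat_lit 193) r8_163 r9_193 (nat_lit 0) (nat_lit 0) (nat_lit 9484367) (nat_lit 0x20056d4f2) (nat_lit 277919823),
  Rx.mk (nat_lit 319) (nat_lit 7) (nat_lit 7) (nat_lit 4) (nat_lit 3) (nat_lit 164) (nat_lit 194) r8_164 r9_194 (nat_lit 0) (nat_lit 0) (nat_lit 9484367) (nat_lit 0x20056d4f2) (nat_lit 277919823),
  Rx.mk (nat_lit 356) (nat_lit 4) (nat_lit 4) (nat_lit 5) (nat_lit 4) (nat_lit 165) (nat_lit 185) r8_165 r9_185 (nat_lit 19239822) (nat_lit 8158535) (nat_lit 0) (nat_lit 0x1d532504e) (nat_lit 341477313),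
  Rx.mk (nat_lit 357) (nat_lit 5) (nat_lit 4) (nat_lit 5) (nat_lit 5) (nat_lit 166) (nat_lit 186) r8_166 r9_186 (nat_lit 0) (nat_lit 9484367) (nat_lit 0) (nat_lit 0x20056d4f2) (nat_lit 277919823),
  Rx.mk (nat_lit 365) (nat_lit 5) (nat_lit 5) (nat_lit 5) (nat_lit 7) (nat_lit 167) (nat_lit 190) r8_167 r9_190 (nat_lit 0) (nat_lit 0) (nat_lit 0) (nat_lit 0x20056d4f2) (nat_lit 268435456),
  Rx.mk (nat_lit 380) (nat_lit 4) (nat_lit 7) (nat_lit 5) (nat_lit 6) (nat_lit 168) (nat_lit 195) r8_168 r9_195 (nat_lit 9484367) (nat_lit 0) (nat_lit 0) (nat_lit 0x20056d4f2) (nat_lit 277919823),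
  Rx.mk (nat_lit 381) (nat_lit 5) (nat_lit 7) (nat_lit 5) (nat_lit 7) (nat_lit 169) (nat_lit 196) r8_169 r9_196 (nat_lit 0) (nat_lit 0) (nat_lit 0) (nat_lit 0x20056d4f2) (nat_lit 268435456),
  Rx.mk (nat_lit 383) (nat_lit 7) (nat_lit 7) (nat_lit 5) (nat_lit 7) (nat_lit 170) (nat_lit 197) r8_170 r9_197 (nat_lit 0) (nat_lit 0) (nat_lit 0) (nat_lit 0x20056d4f2) (nat_lit 268435456),
  Rx.mk (nat_lit 420) (nat_lit 4) (nat_lit 4) (nat_lit 6) (nat_lit 4) (nat_lit 171) (nat_lit 187) r8_171 r9_187 (nat_lit 11392601) (nat_lit 9044589) (nat_lit 0) (nat_lit 0x1c6f1c2d0) (nat_lit 349642896),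
  Rx.mk (nat_lit 421) (nat_lit 5) (nat_lit 4) (nat_lit 6) (nat_lit 5) (nat_lit 172) (nat_lit 188) r8_172 r9_188 (nat_lit 0) (nat_lit 9484367) (nat_lit 0) (nat_lit 0x20056d4f2) (nat_lit 277919823),
  Rx.mk (nat_lit 429) (nat_lit 5) (nat_lit 5) (nat_lit 6) (nat_lit 7) (nat_lit 173) (nat_lit 191) r8_173 r9_191 (nat_lit 0) (nat_lit 0) (nat_lit 0) (nat_lit 0x20056d4f2) (nat_lit 268435456),
  Rx.mk (nat_lit 436) (nat_lit 4) (nat_lit 6) (nat_lit 6) (nat_lit 6) (nat_lit 174) (nat_lit 199) r8_174 r9_199 (nat_lit 9484367) (nat_lit 0) (nat_lit 0) (nat_lit 0x20056d4f2) (nat_lit 277919823),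
  Rx.mk (nat_lit 437) (nat_lit 5) (nat_lit 6) (nat_lit 6) (nat_lit 7) (nat_lit 175) (nat_lit 200) r8_175 r9_200 (nat_lit 0) (nat_lit 0) (nat_lit 0) (nat_lit 0x20056d4f2) (nat_lit 268435456),
  Rx.mk (nat_lit 438) (nat_lit 6) (nat_lit 6) (nat_lit 6) (nat_lit 7) (nat_lit 176) (nat_lit 201) r8_176 r9_201 (nat_lit 0) (nat_lit 0) (nat_lit 0) (nat_lit 0x20056d4f2) (nat_lit 268435456),
  Rx.mk (nat_lit 511) (nat_lit 7) (nat_lit 7) (nat_lit 7) (nat_lit 7) (nat_lit 177) (nat_lit 198) r8_177 r9_198 (nat_lit 0) (nat_lit 0) (nat_lit 0) (nat_lit 0x20056d4f2) (nat_lit 268435456)]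
noncomputable def e16_42 : List Rx := [
  Rx.mk (nat_lit 292) (nat_lit 4) (nat_lit 4) (nat_lit 4) (nat_lit 0) (nat_lit 133) (nat_lit 86) r8_133 r9_86 (nat_lit 5240963) (nat_lit 5576143) (nat_lit 2770649) (nat_lit 0xf2b552c0) (nat_lit 568130111),
  Rx.mk (nat_lit 293) (nat_lit 5) (nat_lit 4) (nat_lit 4) (nat_lit 1) (nat_lit 134) (nat_lit 87) r8_134 r9_87 (nat_lit 0) (nat_lit 26943886) (nat_lit 10556072) (nat_lit 0x1a1178842) (nat_lit 406893614),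
  Rx.mk (nat_lit 316) (nat_lit 4) (nat_lit 7) (nat_lit 4) (nat_lit 2) (nat_lit 135) (nat_lit 88) r8_135 r9_88 (nat_lit 10033396) (nat_lit 0) (nat_lit 8355857) (nat_lit 0x198607dee) (nat_lit 397036109),
  Rx.mk (nat_lit 317) (nat_lit 5) (nat_lit 7) (nat_lit 4) (nat_lit 3) (nat_lit 136) (nat_lit 89) r8_136 r9_89 (nat_lit 0) (nat_lit 0) (nat_lit 9484367) (nat_lit 0x20056d4f2) (nat_lit 277919823),
  Rx.mk (nat_lit 319) (nat_lit 7) (nat_lit 7) (nat_lit 4) (nat_lit 3) (nat_lit 137) (nat_lit 90) r8_137 r9_90 (nat_lit 0) (nat_lit 0) (nat_lit 9484367) (nat_lit 0x20056d4f2) (nat_lit 277919823),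
  Rx.mk (nat_lit 420) (nat_lit 4) (nat_lit 4) (nat_lit 6) (nat_lit 4) (nat_lit 138) (nat_lit 92) r8_138 r9_92 (nat_lit 11833183) (nat_lit 7159752) (nat_lit 0) (nat_lit 0x19341fd38) (nat_lit 403074591),
  Rx.mk (nat_lit 421) (nat_lit 5) (nat_lit 4) (nat_lit 6) (nat_lit 5) (nat_lit 139) (nat_lit 93) r8_139 r9_93 (nat_lit 0) (nat_lit 9484367) (nat_lit 0) (nat_lit 0x20056d4f2) (nat_lit 277919823),
  Rx.mk (nat_lit 436) (nat_lit 4) (nat_lit 6) (nat_lit 6) (nat_lit 6) (nat_lit 140) (nat_lit 96) r8_140 r9_96 (nat_lit 9484367) (nat_lit 0) (nat_lit 0) (nat_lit 0x1ff9f49f4) (nat_lit 278666623),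
  Rx.mk (nat_lit 437) (nat_lit 5) (nat_lit 6) (nat_lit 6) (nat_lit 7) (nat_lit 141) (nat_lit 97) r8_141 r9_97 (nat_lit 0) (nat_lit 0) (nat_lit 0) (nat_lit 0x20056d4f2) (nat_lit 268435456),
  Rx.mk (nat_lit 438) (nat_lit 6) (nat_lit 6) (nat_lit 6) (nat_lit 7) (nat_lit 142) (nat_lit 98) r8_142 r9_98 (nat_lit 0) (nat_lit 0) (nat_lit 0) (nat_lit 0x20056d4f2) (nat_lit 268435456),
  Rx.mk (nat_lit 444) (nat_lit 4) (nat_lit 7) (nat_lit 6) (nat_lit 6) (nat_lit 143) (nat_lit 94) r8_143 r9_94 (nat_lit 9484367) (nat_lit 0) (nat_lit 0) (nat_lit 0x1ffae62a4) (nat_lit 278605023),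
  Rx.mk (nat_lit 445) (nat_lit 5) (nat_lit 7) (nat_lit 6) (nat_lit 7) (nat_lit 144) (nat_lit 95) r8_144 r9_95 (nat_lit 0) (nat_lit 0) (nat_lit 0) (nat_lit 0x20056d4f2) (nat_lit 268435456),
  Rx.mk (nat_lit 511) (nat_lit 7) (nat_lit 7) (nat_lit 7) (nat_lit 7) (nat_lit 145) (nat_lit 91) r8_145 r9_91 (nat_lit 0) (nat_lit 0) (nat_lit 0) (nat_lit 0x20056d4f2) (nat_lit 268435456)]
noncomputable def e16_43 : List Rx := [
  Rx.mk (nat_lit 357) (nat_lit 5) (nat_lit 4) (nat_lit 5) (nat_lit 5) (nat_lit 66) (nat_lit 199) r8_66 r1_199 (nat_lit 0) (nat_lit 9484367) (nat_lit 0) (nat_lit 0x1ff37e980) (nat_lit 279087523),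
  Rx.mk (nat_lit 381) (nat_lit 5) (nat_lit 7) (nat_lit 5) (nat_lit 7) (nat_lit 67) (nat_lit 200) r8_67 r1_200 (nat_lit 0) (nat_lit 0) (nat_lit 0) (nat_lit 0x20056d4f2) (nat_lit 268435456)]
noncomputable def e16_44 : List Rx := [
  Rx.mk (nat_lit 357) (nat_lit 5) (nat_lit 4) (nat_lit 5) (nat_lit 5) (nat_lit 191) (nat_lit 323) r8_191 r8_323 (nat_lit 0) (nat_lit 9484367) (nat_lit 0) (nat_lit 0x1ff65bae0) (nat_lit 278900523),
  Rx.mk (nat_lit 365) (nat_lit 5) (nat_lit 5) (nat_lit 5) (nat_lit 7) (nat_lit 192) (nat_lit 324) r8_192 r8_324 (nat_lit 0) (nat_lit 0) (nat_lit 0) (nat_lit 0x20056d4f2) (nat_lit 268435456),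
  Rx.mk (nat_lit 381) (nat_lit 5) (nat_lit 7) (nat_lit 5) (nat_lit 7) (nat_lit 193) (nat_lit 325) r8_193 r8_325 (nat_lit 0) (nat_lit 0) (nat_lit 0) (nat_lit 0x20056d4f2) (nat_lit 268435456)]
noncomputable def e16_45 : List Rx := [
  Rx.mk (nat_lit 361) (nat_lit 1) (nat_lit 5) (nat_lit 5) (nat_lit 7) (nat_lit 180) (nat_lit 286) r8_180 r1_286 (nat_lit 0) (nat_lit 0) (nat_lit 0) (nat_lit 0x20056d4f2) (nat_lit 268435456)]
noncomputable def e16_46 : List Rx := [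
  Rx.mk (nat_lit 73) (nat_lit 1) (nat_lit 1) (nat_lit 1) (nat_lit 7) (nat_lit 320) (nat_lit 314) r8_320 r2_314 (nat_lit 0) (nat_lit 0) (nat_lit 0) (nat_lit 0x20056d4f2) (nat_lit 268435456),
  Rx.mk (nat_lit 329) (nat_lit 1) (nat_lit 1) (nat_lit 5) (nat_lit 7) (nat_lit 321) (nat_lit 313) r8_321 r2_313 (nat_lit 0) (nat_lit 0) (nat_lit 0) (nat_lit 0x20056d4f2) (nat_lit 268435456),
  Rx.mk (nat_lit 361) (nat_lit 1) (nat_lit 5) (nat_lit 5) (nat_lit 7) (nat_lit 322) (nat_lit 312) r8_322 r2_312 (nat_lit 0) (nat_lit 0) (nat_lit 0) (nat_lit 0x20056d4f2) (nat_lit 268435456)]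
noncomputable def e16_47 : List Rx := [
  Rx.mk (nat_lit 361) (nat_lit 1) (nat_lit 5) (nat_lit 5) (nat_lit 7) (nat_lit 189) (nat_lit 189) r8_189 r8_189 (nat_lit 0) (nat_lit 0) (nat_lit 0) (nat_lit 0x20056d4f2) (nat_lit 268435456),
  Rx.mk (nat_lit 365) (nat_lit 5) (nat_lit 5) (nat_lit 5) (nat_lit 7) (nat_lit 190) (nat_lit 190) r8_190 r8_190 (nat_lit 0) (nat_lit 0) (nat_lit 0) (nat_lit 0x20056d4f2) (nat_lit 268435456)]
noncomputable def e16_48 : List Rx := [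
  Rx.mk (nat_lit 73) (nat_lit 1) (nat_lit 1) (nat_lit 1) (nat_lit 7) (nat_lit 327) (nat_lit 297) r8_327 r9_297 (nat_lit 0) (nat_lit 0) (nat_lit 0) (nat_lit 0x20056d4f2) (nat_lit 268435456),
  Rx.mk (nat_lit 329) (nat_lit 1) (nat_lit 1) (nat_lit 5) (nat_lit 7) (nat_lit 328) (nat_lit 296) r8_328 r9_296 (nat_lit 0) (nat_lit 0) (nat_lit 0) (nat_lit 0x20056d4f2) (nat_lit 268435456),
  Rx.mk (nat_lit 361) (nat_lit 1) (nat_lit 5) (nat_lit 5) (nat_lit 7) (nat_lit 329) (nat_lit 295) r8_329 r9_295 (nat_lit 0) (nat_lit 0) (nat_lit 0) (nat_lit 0x20056d4f2) (nat_lit 268435456),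
  Rx.mk (nat_lit 365) (nat_lit 5) (nat_lit 5) (nat_lit 5) (nat_lit 7) (nat_lit 330) (nat_lit 294) r8_330 r9_294 (nat_lit 0) (nat_lit 0) (nat_lit 0) (nat_lit 0x20056d4f2) (nat_lit 268435456)]
noncomputable def e16_49 : List Rx := [
  Rx.mk (nat_lit 73) (nat_lit 1) (nat_lit 1) (nat_lit 1) (nat_lit 7) (nat_lit 326) (nat_lit 289) r8_326 r9_289 (nat_lit 0) (nat_lit 0) (nat_lit 0) (nat_lit 0x20056d4f2) (nat_lit 268435456)]
noncomputable def e16_50 : List Rx := [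
  Rx.mk (nat_lit 353) (nat_lit 1) (nat_lit 4) (nat_lit 5) (nat_lit 5) (nat_lit 61) (nat_lit 288) r8_61 r3_288 (nat_lit 0) (nat_lit 753298) (nat_lit 0) (nat_lit 0x1dc14c75c) (nat_lit 307411954),
  Rx.mk (nat_lit 377) (nat_lit 1) (nat_lit 7) (nat_lit 5) (nat_lit 7) (nat_lit 62) (nat_lit 289) r8_62 r3_289 (nat_lit 0) (nat_lit 0) (nat_lit 0) (nat_lit 0x22d25d3a2) (nat_lit 222389256)]
noncomputable def e16_51 : List Rx := [
  Rx.mk (nat_lit 353) (nat_lit 1) (nat_lit 4) (nat_lit 5) (nat_lit 5) (nat_lit 181) (nat_lit 304) r8_181 r4_304 (nat_lit 0) (nat_lit 9015295) (nat_lit 0) (nat_lit 0x1fe14e328) (nat_lit 279801251),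
  Rx.mk (nat_lit 361) (nat_lit 1) (nat_lit 5) (nat_lit 5) (nat_lit 7) (nat_lit 182) (nat_lit 305) r8_182 r4_305 (nat_lit 0) (nat_lit 0) (nat_lit 0) (nat_lit 0x20056d4f2) (nat_lit 268435456),
  Rx.mk (nat_lit 377) (nat_lit 1) (nat_lit 7) (nat_lit 5) (nat_lit 7) (nat_lit 183) (nat_lit 306) r8_183 r4_306 (nat_lit 0) (nat_lit 0) (nat_lit 0) (nat_lit 0x20056d4f2) (nat_lit 268435456)]
noncomputable def e16_52 : List Rx := [
  Rx.mk (nat_lit 377) (nat_lit 1) (nat_lit 7) (nat_lit 5) (nat_lit 7) (nat_lit 218) (nat_lit 285) r8_218 r5_285 (nat_lit 0) (nat_lit 0) (nat_lit 0) (nat_lit 0x20b6fc0ce) (nat_lit 256962806)]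
noncomputable def e16_53 : List Rx := [
  Rx.mk (nat_lit 353) (nat_lit 1) (nat_lit 4) (nat_lit 5) (nat_lit 5) (nat_lit 68) (nat_lit 174) r8_68 r4_174 (nat_lit 0) (nat_lit 6572672) (nat_lit 0) (nat_lit 0x2024e9254) (nat_lit 272956678),
  Rx.mk (nat_lit 377) (nat_lit 1) (nat_lit 7) (nat_lit 5) (nat_lit 7) (nat_lit 69) (nat_lit 175) r8_69 r4_175 (nat_lit 0) (nat_lit 0) (nat_lit 0) (nat_lit 0x205d0a160) (nat_lit 262752906),
  Rx.mk (nat_lit 381) (nat_lit 5) (nat_lit 7) (nat_lit 5) (nat_lit 7) (nat_lit 70) (nat_lit 176) r8_70 r4_176 (nat_lit 0) (nat_lit 0) (nat_lit 0) (nat_lit 0x20056d4f2) (nat_lit 268435456)]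
noncomputable def e16_54 : List Rx := [
  Rx.mk (nat_lit 353) (nat_lit 1) (nat_lit 4) (nat_lit 5) (nat_lit 5) (nat_lit 194) (nat_lit 326) r8_194 r10_326 (nat_lit 0) (nat_lit 9484367) (nat_lit 0) (nat_lit 0x20056d4f2) (nat_lit 277919823),
  Rx.mk (nat_lit 361) (nat_lit 1) (nat_lit 5) (nat_lit 5) (nat_lit 7) (nat_lit 195) (nat_lit 327) r8_195 r10_327 (nat_lit 0) (nat_lit 0) (nat_lit 0) (nat_lit 0x20056d4f2) (nat_lit 268435456),
  Rx.mk (nat_lit 377) (nat_lit 1) (nat_lit 7) (nat_lit 5) (nat_lit 7) (nat_lit 196) (nat_lit 328) r8_196 r10_328 (nat_lit 0) (nat_lit 0) (nat_lit 0) (nat_lit 0x20056d4f2) (nat_lit 268435456),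
  Rx.mk (nat_lit 381) (nat_lit 5) (nat_lit 7) (nat_lit 5) (nat_lit 7) (nat_lit 197) (nat_lit 325) r8_197 r10_325 (nat_lit 0) (nat_lit 0) (nat_lit 0) (nat_lit 0x20056d4f2) (nat_lit 268435456)]
noncomputable def e16_55 : List Rx := [
  Rx.mk (nat_lit 377) (nat_lit 1) (nat_lit 7) (nat_lit 5) (nat_lit 7) (nat_lit 219) (nat_lit 344) r8_219 r11_344 (nat_lit 0) (nat_lit 0) (nat_lit 0) (nat_lit 0x2041d1240) (nat_lit 264513806),
  Rx.mk (nat_lit 381) (nat_lit 5) (nat_lit 7) (nat_lit 5) (nat_lit 7) (nat_lit 220) (nat_lit 343) r8_220 r11_343 (nat_lit 0) (nat_lit 0) (nat_lit 0) (nat_lit 0x20056d4f2) (nat_lit 268435456)]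
noncomputable def e16_56 : List Rx := [
  Rx.mk (nat_lit 353) (nat_lit 1) (nat_lit 4) (nat_lit 5) (nat_lit 5) (nat_lit 74) (nat_lit 189) r8_74 r5_189 (nat_lit 0) (nat_lit 7006890) (nat_lit 0) (nat_lit 0x202e95d16) (nat_lit 272765646),
  Rx.mk (nat_lit 377) (nat_lit 1) (nat_lit 7) (nat_lit 5) (nat_lit 7) (nat_lit 75) (nat_lit 190) r8_75 r5_190 (nat_lit 0) (nat_lit 0) (nat_lit 0) (nat_lit 0x205c74cbe) (nat_lit 262789806)]
noncomputable def e16_57 : List Rx := [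
  Rx.mk (nat_lit 353) (nat_lit 1) (nat_lit 4) (nat_lit 5) (nat_lit 5) (nat_lit 198) (nat_lit 219) r8_198 r11_219 (nat_lit 0) (nat_lit 9484367) (nat_lit 0) (nat_lit 0x20056d4f2) (nat_lit 277919823),
  Rx.mk (nat_lit 361) (nat_lit 1) (nat_lit 5) (nat_lit 5) (nat_lit 7) (nat_lit 199) (nat_lit 220) r8_199 r11_220 (nat_lit 0) (nat_lit 0) (nat_lit 0) (nat_lit 0x20056d4f2) (nat_lit 268435456),
  Rx.mk (nat_lit 377) (nat_lit 1) (nat_lit 7) (nat_lit 5) (nat_lit 7) (nat_lit 200) (nat_lit 221) r8_200 r11_221 (nat_lit 0) (nat_lit 0) (nat_lit 0) (nat_lit 0x20056d4f2) (nat_lit 268435456)]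
noncomputable def e16 : List (List Rx) := [e16_0, e16_1, e16_2, e16_3, e16_4, e16_5, e16_6, e16_7, e16_8, e16_9, e16_10, e16_11, e16_12, e16_13, e16_14, e16_15, e16_16, e16_17, e16_18, e16_19, e16_20, e16_21, e16_22, e16_23, e16_24, e16_25, e16_26, e16_27, e16_28, e16_29, e16_30, e16_31, e16_32, e16_33, e16_34, e16_35, e16_36, e16_37, e16_38, e16_39, e16_40, e16_41, e16_42, e16_43, e16_44, e16_45, e16_46, e16_47, e16_48, e16_49, e16_50, e16_51, e16_52, e16_53, e16_54, e16_55, e16_56, e16_57]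
noncomputable def e17_0 : List Rx := [
  Rx.mk (nat_lit 507) (nat_lit 3) (nat_lit 7) (nat_lit 7) (nat_lit 7) (nat_lit 0) (nat_lit 141) r9_0 r0_141 (nat_lit 0) (nat_lit 0) (nat_lit 0) (nat_lit 0x20056d4f2) (nat_lit 268435456)]
noncomputable def e17_1 : List Rx := [
  Rx.mk (nat_lit 507) (nat_lit 3) (nat_lit 7) (nat_lit 7) (nat_lit 7) (nat_lit 1) (nat_lit 153) r9_1 r1_153 (nat_lit 0) (nat_lit 0) (nat_lit 0) (nat_lit 0x20056d4f2) (nat_lit 268435456)]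
noncomputable def e17_2 : List Rx := [
  Rx.mk (nat_lit 0) (nat_lit 0) (nat_lit 0) (nat_lit 0) (nat_lit 0) (nat_lit 2) (nat_lit 146) r9_2 r2_146 (nat_lit 2535298) (nat_lit 2176186) (nat_lit 2695517) (nat_lit 0xe64a0292) (nat_lit 575129957),
  Rx.mk (nat_lit 2) (nat_lit 2) (nat_lit 0) (nat_lit 0) (nat_lit 1) (nat_lit 5) (nat_lit 152) r9_5 r2_152 (nat_lit 0) (nat_lit 6805698) (nat_lit 11047932) (nat_lit 0x18db5b1b6) (nat_lit 407826486),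
  Rx.mk (nat_lit 24) (nat_lit 0) (nat_lit 3) (nat_lit 0) (nat_lit 2) (nat_lit 3) (nat_lit 147) r9_3 r2_147 (nat_lit 5340229) (nat_lit 0) (nat_lit 6742841) (nat_lit 0x1987979e8) (nat_lit 390624176),
  Rx.mk (nat_lit 26) (nat_lit 2) (nat_lit 3) (nat_lit 0) (nat_lit 3) (nat_lit 8) (nat_lit 154) r9_8 r2_154 (nat_lit 0) (nat_lit 0) (nat_lit 9484367) (nat_lit 0x1ffb7a0b2) (nat_lit 278567023),
  Rx.mk (nat_lit 130) (nat_lit 2) (nat_lit 0) (nat_lit 2) (nat_lit 5) (nat_lit 6) (nat_lit 153) r9_6 r2_153 (nat_lit 0) (nat_lit 9484367) (nat_lit 0) (nat_lit 0x1ffa6492a) (nat_lit 278638273),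
  Rx.mk (nat_lit 146) (nat_lit 2) (nat_lit 2) (nat_lit 2) (nat_lit 7) (nat_lit 7) (nat_lit 157) r9_7 r2_157 (nat_lit 0) (nat_lit 0) (nat_lit 0) (nat_lit 0x20056d4f2) (nat_lit 268435456),
  Rx.mk (nat_lit 154) (nat_lit 2) (nat_lit 3) (nat_lit 2) (nat_lit 7) (nat_lit 9) (nat_lit 156) r9_9 r2_156 (nat_lit 0) (nat_lit 0) (nat_lit 0) (nat_lit 0x20056d4f2) (nat_lit 268435456),
  Rx.mk (nat_lit 216) (nat_lit 0) (nat_lit 3) (nat_lit 3) (nat_lit 6) (nat_lit 4) (nat_lit 148) r9_4 r2_148 (nat_lit 9153645) (nat_lit 0) (nat_lit 0) (nat_lit 0x1fd8eb97e) (nat_lit 280493701),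
  Rx.mk (nat_lit 218) (nat_lit 2) (nat_lit 3) (nat_lit 3) (nat_lit 7) (nat_lit 10) (nat_lit 155) r9_10 r2_155 (nat_lit 0) (nat_lit 0) (nat_lit 0) (nat_lit 0x20056d4f2) (nat_lit 268435456),
  Rx.mk (nat_lit 219) (nat_lit 3) (nat_lit 3) (nat_lit 3) (nat_lit 7) (nat_lit 13) (nat_lit 149) r9_13 r2_149 (nat_lit 0) (nat_lit 0) (nat_lit 0) (nat_lit 0x20056d4f2) (nat_lit 268435456),
  Rx.mk (nat_lit 251) (nat_lit 3) (nat_lit 7) (nat_lit 3) (nat_lit 7) (nat_lit 12) (nat_lit 150) r9_12 r2_150 (nat_lit 0) (nat_lit 0) (nat_lit 0) (nat_lit 0x20056d4f2) (nat_lit 268435456),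
  Rx.mk (nat_lit 507) (nat_lit 3) (nat_lit 7) (nat_lit 7) (nat_lit 7) (nat_lit 11) (nat_lit 151) r9_11 r2_151 (nat_lit 0) (nat_lit 0) (nat_lit 0) (nat_lit 0x20056d4f2) (nat_lit 268435456)]
noncomputable def e17_3 : List Rx := [
  Rx.mk (nat_lit 379) (nat_lit 3) (nat_lit 7) (nat_lit 5) (nat_lit 7) (nat_lit 14) (nat_lit 123) r9_14 r3_123 (nat_lit 0) (nat_lit 0) (nat_lit 0) (nat_lit 0x205609bae) (nat_lit 263199206)]
noncomputable def e17_4 : List Rx := [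
  Rx.mk (nat_lit 315) (nat_lit 3) (nat_lit 7) (nat_lit 4) (nat_lit 3) (nat_lit 15) (nat_lit 128) r9_15 r4_128 (nat_lit 0) (nat_lit 0) (nat_lit 9484367) (nat_lit 0x20056d4f2) (nat_lit 277919823),
  Rx.mk (nat_lit 379) (nat_lit 3) (nat_lit 7) (nat_lit 5) (nat_lit 7) (nat_lit 16) (nat_lit 129) r9_16 r4_129 (nat_lit 0) (nat_lit 0) (nat_lit 0) (nat_lit 0x20056d4f2) (nat_lit 268435456),
  Rx.mk (nat_lit 507) (nat_lit 3) (nat_lit 7) (nat_lit 7) (nat_lit 7) (nat_lit 17) (nat_lit 130) r9_17 r4_130 (nat_lit 0) (nat_lit 0) (nat_lit 0) (nat_lit 0x20056d4f2) (nat_lit 268435456)]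
noncomputable def e17_5 : List Rx := [
  Rx.mk (nat_lit 379) (nat_lit 3) (nat_lit 7) (nat_lit 5) (nat_lit 7) (nat_lit 18) (nat_lit 123) r9_18 r5_123 (nat_lit 0) (nat_lit 0) (nat_lit 0) (nat_lit 0x20056d4f2) (nat_lit 268435456)]
noncomputable def e17_6 : List Rx := [
  Rx.mk (nat_lit 88) (nat_lit 0) (nat_lit 3) (nat_lit 1) (nat_lit 6) (nat_lit 19) (nat_lit 142) r9_19 r3_142 (nat_lit 777722) (nat_lit 0) (nat_lit 0) (nat_lit 0x1c4edec84) (nat_lit 332046128),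
  Rx.mk (nat_lit 89) (nat_lit 1) (nat_lit 3) (nat_lit 1) (nat_lit 7) (nat_lit 20) (nat_lit 143) r9_20 r3_143 (nat_lit 0) (nat_lit 0) (nat_lit 0) (nat_lit 0x202fa9554) (nat_lit 265684056),
  Rx.mk (nat_lit 91) (nat_lit 3) (nat_lit 3) (nat_lit 1) (nat_lit 7) (nat_lit 22) (nat_lit 144) r9_22 r3_144 (nat_lit 0) (nat_lit 0) (nat_lit 0) (nat_lit 0x1fa1e6820) (nat_lit 274939556),
  Rx.mk (nat_lit 123) (nat_lit 3) (nat_lit 7) (nat_lit 1) (nat_lit 7) (nat_lit 21) (nat_lit 141) r9_21 r3_141 (nat_lit 0) (nat_lit 0) (nat_lit 0) (nat_lit 0x1fc36627a) (nat_lit 272747356)]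
noncomputable def e17_7 : List Rx := [
  Rx.mk (nat_lit 0) (nat_lit 0) (nat_lit 0) (nat_lit 0) (nat_lit 0) (nat_lit 23) (nat_lit 155) r9_23 r0_155 (nat_lit 1767760) (nat_lit 2742121) (nat_lit 1269390) (nat_lit 0xae741146) (nat_lit 632770227),
  Rx.mk (nat_lit 2) (nat_lit 2) (nat_lit 0) (nat_lit 0) (nat_lit 1) (nat_lit 29) (nat_lit 158) r9_29 r0_158 (nat_lit 0) (nat_lit 17383273) (nat_lit 3035981) (nat_lit 0x15db1204a) (nat_lit 461356660),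
  Rx.mk (nat_lit 24) (nat_lit 0) (nat_lit 3) (nat_lit 0) (nat_lit 2) (nat_lit 25) (nat_lit 161) r9_25 r0_161 (nat_lit 3092091) (nat_lit 0) (nat_lit 2545546) (nat_lit 0x173fde9d2) (nat_lit 422891393),
  Rx.mk (nat_lit 26) (nat_lit 2) (nat_lit 3) (nat_lit 0) (nat_lit 3) (nat_lit 33) (nat_lit 167) r9_33 r0_167 (nat_lit 0) (nat_lit 0) (nat_lit 7106347) (nat_lit 0x1fd785e5e) (nat_lit 278532703),
  Rx.mk (nat_lit 27) (nat_lit 3) (nat_lit 3) (nat_lit 0) (nat_lit 3) (nat_lit 37) (nat_lit 164) r9_37 r0_164 (nat_lit 0) (nat_lit 0) (nat_lit 8810507) (nat_lit 0x1f318ee42) (nat_lit 291178113),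
  Rx.mk (nat_lit 64) (nat_lit 0) (nat_lit 0) (nat_lit 1) (nat_lit 4) (nat_lit 24) (nat_lit 156) r9_24 r0_156 (nat_lit 7054152) (nat_lit 7764799) (nat_lit 0) (nat_lit 0x15828a382) (nat_lit 461644607),
  Rx.mk (nat_lit 65) (nat_lit 1) (nat_lit 0) (nat_lit 1) (nat_lit 5) (nat_lit 27) (nat_lit 157) r9_27 r0_157 (nat_lit 0) (nat_lit 11270394) (nat_lit 0) (nat_lit 0x1e52d84be) (nat_lit 308387900),
  Rx.mk (nat_lit 66) (nat_lit 2) (nat_lit 0) (nat_lit 1) (nat_lit 5) (nat_lit 30) (nat_lit 159) r9_30 r0_159 (nat_lit 0) (nat_lit 22707758) (nat_lit 0) (nat_lit 0x1eef51020) (nat_lit 309447014),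
  Rx.mk (nat_lit 88) (nat_lit 0) (nat_lit 3) (nat_lit 1) (nat_lit 6) (nat_lit 26) (nat_lit 162) r9_26 r0_162 (nat_lit 9033993) (nat_lit 0) (nat_lit 0) (nat_lit 0x1ee42aec6) (nat_lit 296521849),
  Rx.mk (nat_lit 89) (nat_lit 1) (nat_lit 3) (nat_lit 1) (nat_lit 7) (nat_lit 28) (nat_lit 163) r9_28 r0_163 (nat_lit 0) (nat_lit 0) (nat_lit 0) (nat_lit 0x20056d4f2) (nat_lit 268435456),
  Rx.mk (nat_lit 90) (nat_lit 2) (nat_lit 3) (nat_lit 1) (nat_lit 7) (nat_lit 34) (nat_lit 168) r9_34 r0_168 (nat_lit 0) (nat_lit 0) (nat_lit 0) (nat_lit 0x20056d4f2) (nat_lit 268435456),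
  Rx.mk (nat_lit 91) (nat_lit 3) (nat_lit 3) (nat_lit 1) (nat_lit 7) (nat_lit 38) (nat_lit 165) r9_38 r0_165 (nat_lit 0) (nat_lit 0) (nat_lit 0) (nat_lit 0x20056d4f2) (nat_lit 268435456),
  Rx.mk (nat_lit 130) (nat_lit 2) (nat_lit 0) (nat_lit 2) (nat_lit 5) (nat_lit 31) (nat_lit 160) r9_31 r0_160 (nat_lit 0) (nat_lit 36568253) (nat_lit 0) (nat_lit 0x1f05c5ed2) (nat_lit 321832559),
  Rx.mk (nat_lit 146) (nat_lit 2) (nat_lit 2) (nat_lit 2) (nat_lit 7) (nat_lit 32) (nat_lit 170) r9_32 r0_170 (nat_lit 0) (nat_lit 0) (nat_lit 0) (nat_lit 0x1f920a348) (nat_lit 275995056),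
  Rx.mk (nat_lit 154) (nat_lit 2) (nat_lit 3) (nat_lit 2) (nat_lit 7) (nat_lit 35) (nat_lit 169) r9_35 r0_169 (nat_lit 0) (nat_lit 0) (nat_lit 0) (nat_lit 0x20056d4f2) (nat_lit 268435456),
  Rx.mk (nat_lit 219) (nat_lit 3) (nat_lit 3) (nat_lit 3) (nat_lit 7) (nat_lit 39) (nat_lit 166) r9_39 r0_166 (nat_lit 0) (nat_lit 0) (nat_lit 0) (nat_lit 0x20056d4f2) (nat_lit 268435456),
  Rx.mk (nat_lit 251) (nat_lit 3) (nat_lit 7) (nat_lit 3) (nat_lit 7) (nat_lit 36) (nat_lit 154) r9_36 r0_154 (nat_lit 0) (nat_lit 0) (nat_lit 0) (nat_lit 0x20056d4f2) (nat_lit 268435456)]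
noncomputable def e17_8 : List Rx := [
  Rx.mk (nat_lit 0) (nat_lit 0) (nat_lit 0) (nat_lit 0) (nat_lit 0) (nat_lit 40) (nat_lit 170) r9_40 r1_170 (nat_lit 12914458) (nat_lit 20883973) (nat_lit 7583710) (nat_lit 0x1304b68a4) (nat_lit 530531947),
  Rx.mk (nat_lit 2) (nat_lit 2) (nat_lit 0) (nat_lit 0) (nat_lit 1) (nat_lit 42) (nat_lit 171) r9_42 r1_171 (nat_lit 0) (nat_lit 26762067) (nat_lit 7078048) (nat_lit 0x1b49aa94e) (nat_lit 382508571),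
  Rx.mk (nat_lit 24) (nat_lit 0) (nat_lit 3) (nat_lit 0) (nat_lit 2) (nat_lit 41) (nat_lit 173) r9_41 r1_173 (nat_lit 13442990) (nat_lit 0) (nat_lit 8685031) (nat_lit 0x1bbde0e6c) (nat_lit 363079977),
  Rx.mk (nat_lit 26) (nat_lit 2) (nat_lit 3) (nat_lit 0) (nat_lit 3) (nat_lit 45) (nat_lit 176) r9_45 r1_176 (nat_lit 0) (nat_lit 0) (nat_lit 9484367) (nat_lit 0x20056d4f2) (nat_lit 277919823),
  Rx.mk (nat_lit 27) (nat_lit 3) (nat_lit 3) (nat_lit 0) (nat_lit 3) (nat_lit 48) (nat_lit 174) r9_48 r1_174 (nat_lit 0) (nat_lit 0) (nat_lit 9484367) (nat_lit 0x1ff744b14) (nat_lit 278840823),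
  Rx.mk (nat_lit 130) (nat_lit 2) (nat_lit 0) (nat_lit 2) (nat_lit 5) (nat_lit 43) (nat_lit 172) r9_43 r1_172 (nat_lit 0) (nat_lit 18834357) (nat_lit 0) (nat_lit 0x1f586cafa) (nat_lit 298626363),
  Rx.mk (nat_lit 146) (nat_lit 2) (nat_lit 2) (nat_lit 2) (nat_lit 7) (nat_lit 44) (nat_lit 178) r9_44 r1_178 (nat_lit 0) (nat_lit 0) (nat_lit 0) (nat_lit 0x1fe10856c) (nat_lit 270810856),
  Rx.mk (nat_lit 154) (nat_lit 2) (nat_lit 3) (nat_lit 2) (nat_lit 7) (nat_lit 46) (nat_lit 177) r9_46 r1_177 (nat_lit 0) (nat_lit 0) (nat_lit 0) (nat_lit 0x20056d4f2) (nat_lit 268435456),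
  Rx.mk (nat_lit 219) (nat_lit 3) (nat_lit 3) (nat_lit 3) (nat_lit 7) (nat_lit 49) (nat_lit 175) r9_49 r1_175 (nat_lit 0) (nat_lit 0) (nat_lit 0) (nat_lit 0x20056d4f2) (nat_lit 268435456),
  Rx.mk (nat_lit 251) (nat_lit 3) (nat_lit 7) (nat_lit 3) (nat_lit 7) (nat_lit 47) (nat_lit 169) r9_47 r1_169 (nat_lit 0) (nat_lit 0) (nat_lit 0) (nat_lit 0x20056d4f2) (nat_lit 268435456)]
noncomputable def e17_9 : List Rx := [
  Rx.mk (nat_lit 24) (nat_lit 0) (nat_lit 3) (nat_lit 0) (nat_lit 2) (nat_lit 50) (nat_lit 147) r9_50 r4_147 (nat_lit 8519900) (nat_lit 0) (nat_lit 5621542) (nat_lit 0x1c583434c) (nat_lit 344848848),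
  Rx.mk (nat_lit 26) (nat_lit 2) (nat_lit 3) (nat_lit 0) (nat_lit 3) (nat_lit 53) (nat_lit 152) r9_53 r4_152 (nat_lit 0) (nat_lit 0) (nat_lit 9484367) (nat_lit 0x20056d4f2) (nat_lit 277919823),
  Rx.mk (nat_lit 27) (nat_lit 3) (nat_lit 3) (nat_lit 0) (nat_lit 3) (nat_lit 59) (nat_lit 150) r9_59 r4_150 (nat_lit 0) (nat_lit 0) (nat_lit 9817070) (nat_lit 0x1fee05a9e) (nat_lit 279774476),
  Rx.mk (nat_lit 59) (nat_lit 3) (nat_lit 7) (nat_lit 0) (nat_lit 3) (nat_lit 56) (nat_lit 144) r9_56 r4_144 (nat_lit 0) (nat_lit 0) (nat_lit 9484367) (nat_lit 0x20056d4f2) (nat_lit 277919823),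
  Rx.mk (nat_lit 88) (nat_lit 0) (nat_lit 3) (nat_lit 1) (nat_lit 6) (nat_lit 51) (nat_lit 148) r9_51 r4_148 (nat_lit 9484367) (nat_lit 0) (nat_lit 0) (nat_lit 0x20056d4f2) (nat_lit 277919823),
  Rx.mk (nat_lit 89) (nat_lit 1) (nat_lit 3) (nat_lit 1) (nat_lit 7) (nat_lit 52) (nat_lit 149) r9_52 r4_149 (nat_lit 0) (nat_lit 0) (nat_lit 0) (nat_lit 0x20056d4f2) (nat_lit 268435456),
  Rx.mk (nat_lit 90) (nat_lit 2) (nat_lit 3) (nat_lit 1) (nat_lit 7) (nat_lit 54) (nat_lit 153) r9_54 r4_153 (nat_lit 0) (nat_lit 0) (nat_lit 0) (nat_lit 0x20056d4f2) (nat_lit 268435456),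
  Rx.mk (nat_lit 91) (nat_lit 3) (nat_lit 3) (nat_lit 1) (nat_lit 7) (nat_lit 60) (nat_lit 151) r9_60 r4_151 (nat_lit 0) (nat_lit 0) (nat_lit 0) (nat_lit 0x20056d4f2) (nat_lit 268435456),
  Rx.mk (nat_lit 123) (nat_lit 3) (nat_lit 7) (nat_lit 1) (nat_lit 7) (nat_lit 57) (nat_lit 145) r9_57 r4_145 (nat_lit 0) (nat_lit 0) (nat_lit 0) (nat_lit 0x20056d4f2) (nat_lit 268435456),
  Rx.mk (nat_lit 154) (nat_lit 2) (nat_lit 3) (nat_lit 2) (nat_lit 7) (nat_lit 55) (nat_lit 154) r9_55 r4_154 (nat_lit 0) (nat_lit 0) (nat_lit 0) (nat_lit 0x20056d4f2) (nat_lit 268435456),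
  Rx.mk (nat_lit 251) (nat_lit 3) (nat_lit 7) (nat_lit 3) (nat_lit 7) (nat_lit 58) (nat_lit 146) r9_58 r4_146 (nat_lit 0) (nat_lit 0) (nat_lit 0) (nat_lit 0x20056d4f2) (nat_lit 268435456)]
noncomputable def e17_10 : List Rx := [
  Rx.mk (nat_lit 123) (nat_lit 3) (nat_lit 7) (nat_lit 1) (nat_lit 7) (nat_lit 62) (nat_lit 126) r9_62 r6_126 (nat_lit 0) (nat_lit 0) (nat_lit 0) (nat_lit 0x20056d4f2) (nat_lit 268435456),
  Rx.mk (nat_lit 379) (nat_lit 3) (nat_lit 7) (nat_lit 5) (nat_lit 7) (nat_lit 61) (nat_lit 127) r9_61 r6_127 (nat_lit 0) (nat_lit 0) (nat_lit 0) (nat_lit 0x20056d4f2) (nat_lit 268435456)]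
noncomputable def e17_11 : List Rx := [
  Rx.mk (nat_lit 91) (nat_lit 3) (nat_lit 3) (nat_lit 1) (nat_lit 7) (nat_lit 64) (nat_lit 151) r9_64 r5_151 (nat_lit 0) (nat_lit 0) (nat_lit 0) (nat_lit 0x20056d4f2) (nat_lit 268435456),
  Rx.mk (nat_lit 123) (nat_lit 3) (nat_lit 7) (nat_lit 1) (nat_lit 7) (nat_lit 63) (nat_lit 150) r9_63 r5_150 (nat_lit 0) (nat_lit 0) (nat_lit 0) (nat_lit 0x20056d4f2) (nat_lit 268435456)]
noncomputable def e17_12 : List Rx := [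
  Rx.mk (nat_lit 356) (nat_lit 4) (nat_lit 4) (nat_lit 5) (nat_lit 4) (nat_lit 65) (nat_lit 262) r9_65 r0_262 (nat_lit 14858526) (nat_lit 37964627) (nat_lit 0) (nat_lit 0x17568cdc8) (nat_lit 468596959),
  Rx.mk (nat_lit 359) (nat_lit 7) (nat_lit 4) (nat_lit 5) (nat_lit 5) (nat_lit 66) (nat_lit 263) r9_66 r0_263 (nat_lit 0) (nat_lit 23941176) (nat_lit 0) (nat_lit 0x1ecb07dd6) (nat_lit 313084132),
  Rx.mk (nat_lit 383) (nat_lit 7) (nat_lit 7) (nat_lit 5) (nat_lit 7) (nat_lit 67) (nat_lit 264) r9_67 r0_264 (nat_lit 0) (nat_lit 0) (nat_lit 0) (nat_lit 0x1ff25243a) (nat_lit 269680706)]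
noncomputable def e17_13 : List Rx := [
  Rx.mk (nat_lit 292) (nat_lit 4) (nat_lit 4) (nat_lit 4) (nat_lit 0) (nat_lit 68) (nat_lit 161) r9_68 r7_161 (nat_lit 1909453) (nat_lit 9146340) (nat_lit 2680125) (nat_lit 0xd8e0cdac) (nat_lit 595695424),
  Rx.mk (nat_lit 295) (nat_lit 7) (nat_lit 4) (nat_lit 4) (nat_lit 1) (nat_lit 74) (nat_lit 166) r9_74 r7_166 (nat_lit 0) (nat_lit 13616542) (nat_lit 11056457) (nat_lit 0x17b1c14be) (nat_lit 434394355),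
  Rx.mk (nat_lit 308) (nat_lit 4) (nat_lit 6) (nat_lit 4) (nat_lit 2) (nat_lit 70) (nat_lit 163) r9_70 r7_163 (nat_lit 13438367) (nat_lit 0) (nat_lit 10245589) (nat_lit 0x19e910396) (nat_lit 395759412),
  Rx.mk (nat_lit 311) (nat_lit 7) (nat_lit 6) (nat_lit 4) (nat_lit 3) (nat_lit 76) (nat_lit 171) r9_76 r7_171 (nat_lit 0) (nat_lit 0) (nat_lit 9484367) (nat_lit 0x1ff04690c) (nat_lit 279297123),
  Rx.mk (nat_lit 319) (nat_lit 7) (nat_lit 7) (nat_lit 4) (nat_lit 3) (nat_lit 79) (nat_lit 168) r9_79 r7_168 (nat_lit 0) (nat_lit 0) (nat_lit 9484367) (nat_lit 0x1fb67f214) (nat_lit 283080423),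
  Rx.mk (nat_lit 356) (nat_lit 4) (nat_lit 4) (nat_lit 5) (nat_lit 4) (nat_lit 69) (nat_lit 162) r9_69 r7_162 (nat_lit 13489230) (nat_lit 10619100) (nat_lit 0) (nat_lit 0x176e3a3da) (nat_lit 438312186),
  Rx.mk (nat_lit 359) (nat_lit 7) (nat_lit 4) (nat_lit 5) (nat_lit 5) (nat_lit 75) (nat_lit 167) r9_75 r7_167 (nat_lit 0) (nat_lit 9484367) (nat_lit 0) (nat_lit 0x20056d4f2) (nat_lit 277919823),
  Rx.mk (nat_lit 372) (nat_lit 4) (nat_lit 6) (nat_lit 5) (nat_lit 6) (nat_lit 71) (nat_lit 164) r9_71 r7_164 (nat_lit 9484367) (nat_lit 0) (nat_lit 0) (nat_lit 0x20056d4f2) (nat_lit 277919823),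
  Rx.mk (nat_lit 375) (nat_lit 7) (nat_lit 6) (nat_lit 5) (nat_lit 7) (nat_lit 77) (nat_lit 172) r9_77 r7_172 (nat_lit 0) (nat_lit 0) (nat_lit 0) (nat_lit 0x20056d4f2) (nat_lit 268435456),
  Rx.mk (nat_lit 383) (nat_lit 7) (nat_lit 7) (nat_lit 5) (nat_lit 7) (nat_lit 80) (nat_lit 169) r9_80 r7_169 (nat_lit 0) (nat_lit 0) (nat_lit 0) (nat_lit 0x20056d4f2) (nat_lit 268435456),
  Rx.mk (nat_lit 436) (nat_lit 4) (nat_lit 6) (nat_lit 6) (nat_lit 6) (nat_lit 72) (nat_lit 165) r9_72 r7_165 (nat_lit 8921268) (nat_lit 0) (nat_lit 0) (nat_lit 0x1fef92f60) (nat_lit 278779924),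
  Rx.mk (nat_lit 438) (nat_lit 6) (nat_lit 6) (nat_lit 6) (nat_lit 7) (nat_lit 73) (nat_lit 174) r9_73 r7_174 (nat_lit 0) (nat_lit 0) (nat_lit 0) (nat_lit 0x20056d4f2) (nat_lit 268435456),
  Rx.mk (nat_lit 439) (nat_lit 7) (nat_lit 6) (nat_lit 6) (nat_lit 7) (nat_lit 78) (nat_lit 173) r9_78 r7_173 (nat_lit 0) (nat_lit 0) (nat_lit 0) (nat_lit 0x20056d4f2) (nat_lit 268435456),
  Rx.mk (nat_lit 507) (nat_lit 3) (nat_lit 7) (nat_lit 7) (nat_lit 7) (nat_lit 82) (nat_lit 160) r9_82 r7_160 (nat_lit 0) (nat_lit 0) (nat_lit 0) (nat_lit 0x20056d4f2) (nat_lit 268435456),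
  Rx.mk (nat_lit 511) (nat_lit 7) (nat_lit 7) (nat_lit 7) (nat_lit 7) (nat_lit 81) (nat_lit 170) r9_81 r7_170 (nat_lit 0) (nat_lit 0) (nat_lit 0) (nat_lit 0x20056d4f2) (nat_lit 268435456)]
noncomputable def e17_14 : List Rx := [
  Rx.mk (nat_lit 356) (nat_lit 4) (nat_lit 4) (nat_lit 5) (nat_lit 4) (nat_lit 83) (nat_lit 269) r9_83 r1_269 (nat_lit 10429633) (nat_lit 50589702) (nat_lit 0) (nat_lit 0x1c8842fca) (nat_lit 388554141),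
  Rx.mk (nat_lit 359) (nat_lit 7) (nat_lit 4) (nat_lit 5) (nat_lit 5) (nat_lit 84) (nat_lit 270) r9_84 r1_270 (nat_lit 0) (nat_lit 9484367) (nat_lit 0) (nat_lit 0x20056d4f2) (nat_lit 277919823),
  Rx.mk (nat_lit 383) (nat_lit 7) (nat_lit 7) (nat_lit 5) (nat_lit 7) (nat_lit 85) (nat_lit 271) r9_85 r1_271 (nat_lit 0) (nat_lit 0) (nat_lit 0) (nat_lit 0x20056d4f2) (nat_lit 268435456)]
noncomputable def e17_15 : List Rx := [
  Rx.mk (nat_lit 292) (nat_lit 4) (nat_lit 4) (nat_lit 4) (nat_lit 0) (nat_lit 86) (nat_lit 133) r9_86 r8_133 (nat_lit 2770649) (nat_lit 5576143) (nat_lit 5240963) (nat_lit 0xf2b552c0) (nat_lit 568130111),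
  Rx.mk (nat_lit 295) (nat_lit 7) (nat_lit 4) (nat_lit 4) (nat_lit 1) (nat_lit 92) (nat_lit 138) r9_92 r8_138 (nat_lit 0) (nat_lit 7159752) (nat_lit 11833183) (nat_lit 0x19341fd38) (nat_lit 403074591),
  Rx.mk (nat_lit 308) (nat_lit 4) (nat_lit 6) (nat_lit 4) (nat_lit 2) (nat_lit 88) (nat_lit 135) r9_88 r8_135 (nat_lit 8355857) (nat_lit 0) (nat_lit 10033396) (nat_lit 0x198607dee) (nat_lit 397036109),
  Rx.mk (nat_lit 311) (nat_lit 7) (nat_lit 6) (nat_lit 4) (nat_lit 3) (nat_lit 94) (nat_lit 143) r9_94 r8_143 (nat_lit 0) (nat_lit 0) (nat_lit 9484367) (nat_lit 0x1ffae62a4) (nat_lit 278605023),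
  Rx.mk (nat_lit 319) (nat_lit 7) (nat_lit 7) (nat_lit 4) (nat_lit 3) (nat_lit 96) (nat_lit 140) r9_96 r8_140 (nat_lit 0) (nat_lit 0) (nat_lit 9484367) (nat_lit 0x1ff9f49f4) (nat_lit 278666623),
  Rx.mk (nat_lit 356) (nat_lit 4) (nat_lit 4) (nat_lit 5) (nat_lit 4) (nat_lit 87) (nat_lit 134) r9_87 r8_134 (nat_lit 10556072) (nat_lit 26943886) (nat_lit 0) (nat_lit 0x1a1178842) (nat_lit 406893614),
  Rx.mk (nat_lit 359) (nat_lit 7) (nat_lit 4) (nat_lit 5) (nat_lit 5) (nat_lit 93) (nat_lit 139) r9_93 r8_139 (nat_lit 0) (nat_lit 9484367) (nat_lit 0) (nat_lit 0x20056d4f2) (nat_lit 277919823),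
  Rx.mk (nat_lit 372) (nat_lit 4) (nat_lit 6) (nat_lit 5) (nat_lit 6) (nat_lit 89) (nat_lit 136) r9_89 r8_136 (nat_lit 9484367) (nat_lit 0) (nat_lit 0) (nat_lit 0x20056d4f2) (nat_lit 277919823),
  Rx.mk (nat_lit 375) (nat_lit 7) (nat_lit 6) (nat_lit 5) (nat_lit 7) (nat_lit 95) (nat_lit 144) r9_95 r8_144 (nat_lit 0) (nat_lit 0) (nat_lit 0) (nat_lit 0x20056d4f2) (nat_lit 268435456),
  Rx.mk (nat_lit 383) (nat_lit 7) (nat_lit 7) (nat_lit 5) (nat_lit 7) (nat_lit 97) (nat_lit 141) r9_97 r8_141 (nat_lit 0) (nat_lit 0) (nat_lit 0) (nat_lit 0x20056d4f2) (nat_lit 268435456),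
  Rx.mk (nat_lit 436) (nat_lit 4) (nat_lit 6) (nat_lit 6) (nat_lit 6) (nat_lit 90) (nat_lit 137) r9_90 r8_137 (nat_lit 9484367) (nat_lit 0) (nat_lit 0) (nat_lit 0x20056d4f2) (nat_lit 277919823),
  Rx.mk (nat_lit 438) (nat_lit 6) (nat_lit 6) (nat_lit 6) (nat_lit 7) (nat_lit 91) (nat_lit 145) r9_91 r8_145 (nat_lit 0) (nat_lit 0) (nat_lit 0) (nat_lit 0x20056d4f2) (nat_lit 268435456),
  Rx.mk (nat_lit 511) (nat_lit 7) (nat_lit 7) (nat_lit 7) (nat_lit 7) (nat_lit 98) (nat_lit 142) r9_98 r8_142 (nat_lit 0) (nat_lit 0) (nat_lit 0) (nat_lit 0x20056d4f2) (nat_lit 268435456)]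
noncomputable def e17_16 : List Rx := [
  Rx.mk (nat_lit 292) (nat_lit 4) (nat_lit 4) (nat_lit 4) (nat_lit 0) (nat_lit 99) (nat_lit 273) r9_99 r8_273 (nat_lit 3522600) (nat_lit 6484831) (nat_lit 4054147) (nat_lit 0x102a7f066) (nat_lit 551671134),
  Rx.mk (nat_lit 295) (nat_lit 7) (nat_lit 4) (nat_lit 4) (nat_lit 1) (nat_lit 103) (nat_lit 274) r9_103 r8_274 (nat_lit 0) (nat_lit 11245750) (nat_lit 10624591) (nat_lit 0x1a3e8be9c) (nat_lit 388272497),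
  Rx.mk (nat_lit 308) (nat_lit 4) (nat_lit 6) (nat_lit 4) (nat_lit 2) (nat_lit 100) (nat_lit 276) r9_100 r8_276 (nat_lit 10509005) (nat_lit 0) (nat_lit 8663689) (nat_lit 0x19d99ca04) (nat_lit 392273250),
  Rx.mk (nat_lit 311) (nat_lit 7) (nat_lit 6) (nat_lit 4) (nat_lit 3) (nat_lit 104) (nat_lit 277) r9_104 r8_277 (nat_lit 0) (nat_lit 0) (nat_lit 9484367) (nat_lit 0x20056d4f2) (nat_lit 277919823),
  Rx.mk (nat_lit 319) (nat_lit 7) (nat_lit 7) (nat_lit 4) (nat_lit 3) (nat_lit 106) (nat_lit 275) r9_106 r8_275 (nat_lit 0) (nat_lit 0) (nat_lit 9484367) (nat_lit 0x20056d4f2) (nat_lit 277919823),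
  Rx.mk (nat_lit 436) (nat_lit 4) (nat_lit 6) (nat_lit 6) (nat_lit 6) (nat_lit 101) (nat_lit 280) r9_101 r8_280 (nat_lit 9484367) (nat_lit 0) (nat_lit 0) (nat_lit 0x20056d4f2) (nat_lit 277919823),
  Rx.mk (nat_lit 438) (nat_lit 6) (nat_lit 6) (nat_lit 6) (nat_lit 7) (nat_lit 102) (nat_lit 282) r9_102 r8_282 (nat_lit 0) (nat_lit 0) (nat_lit 0) (nat_lit 0x20056d4f2) (nat_lit 268435456),
  Rx.mk (nat_lit 439) (nat_lit 7) (nat_lit 6) (nat_lit 6) (nat_lit 7) (nat_lit 105) (nat_lit 281) r9_105 r8_281 (nat_lit 0) (nat_lit 0) (nat_lit 0) (nat_lit 0x20056d4f2) (nat_lit 268435456),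
  Rx.mk (nat_lit 507) (nat_lit 3) (nat_lit 7) (nat_lit 7) (nat_lit 7) (nat_lit 108) (nat_lit 279) r9_108 r8_279 (nat_lit 0) (nat_lit 0) (nat_lit 0) (nat_lit 0x20056d4f2) (nat_lit 268435456),
  Rx.mk (nat_lit 511) (nat_lit 7) (nat_lit 7) (nat_lit 7) (nat_lit 7) (nat_lit 107) (nat_lit 278) r9_107 r8_278 (nat_lit 0) (nat_lit 0) (nat_lit 0) (nat_lit 0x20056d4f2) (nat_lit 268435456)]
noncomputable def e17_17 : List Rx := [
  Rx.mk (nat_lit 0) (nat_lit 0) (nat_lit 0) (nat_lit 0) (nat_lit 0) (nat_lit 121) (nat_lit 109) r9_121 r9_109 (nat_lit 3095504) (nat_lit 2990216) (nat_lit 3768647) (nat_lit 0xd2564750) (nat_lit 598772423),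
  Rx.mk (nat_lit 2) (nat_lit 2) (nat_lit 0) (nat_lit 0) (nat_lit 1) (nat_lit 124) (nat_lit 115) r9_124 r9_115 (nat_lit 0) (nat_lit 8615936) (nat_lit 12761957) (nat_lit 0x177a8624c) (nat_lit 434765499),
  Rx.mk (nat_lit 24) (nat_lit 0) (nat_lit 3) (nat_lit 0) (nat_lit 2) (nat_lit 122) (nat_lit 110) r9_122 r9_110 (nat_lit 7663817) (nat_lit 0) (nat_lit 9694708) (nat_lit 0x18a42818a) (nat_lit 410994831),
  Rx.mk (nat_lit 26) (nat_lit 2) (nat_lit 3) (nat_lit 0) (nat_lit 3) (nat_lit 127) (nat_lit 117) r9_127 r9_117 (nat_lit 0) (nat_lit 0) (nat_lit 9484367) (nat_lit 0x1fb6f8f1a) (nat_lit 283044773),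
  Rx.mk (nat_lit 130) (nat_lit 2) (nat_lit 0) (nat_lit 2) (nat_lit 5) (nat_lit 125) (nat_lit 116) r9_125 r9_116 (nat_lit 0) (nat_lit 7138546) (nat_lit 0) (nat_lit 0x1f7876ba2) (nat_lit 284819002),
  Rx.mk (nat_lit 146) (nat_lit 2) (nat_lit 2) (nat_lit 2) (nat_lit 7) (nat_lit 126) (nat_lit 120) r9_126 r9_120 (nat_lit 0) (nat_lit 0) (nat_lit 0) (nat_lit 0x20056d4f2) (nat_lit 268435456),
  Rx.mk (nat_lit 150) (nat_lit 6) (nat_lit 2) (nat_lit 2) (nat_lit 7) (nat_lit 114) (nat_lit 130) r9_114 r9_130 (nat_lit 0) (nat_lit 0) (nat_lit 0) (nat_lit 0x20056d4f2) (nat_lit 268435456),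
  Rx.mk (nat_lit 154) (nat_lit 2) (nat_lit 3) (nat_lit 2) (nat_lit 7) (nat_lit 128) (nat_lit 119) r9_128 r9_119 (nat_lit 0) (nat_lit 0) (nat_lit 0) (nat_lit 0x20056d4f2) (nat_lit 268435456),
  Rx.mk (nat_lit 216) (nat_lit 0) (nat_lit 3) (nat_lit 3) (nat_lit 6) (nat_lit 123) (nat_lit 111) r9_123 r9_111 (nat_lit 9121588) (nat_lit 0) (nat_lit 0) (nat_lit 0x1fa396af8) (nat_lit 283960994),
  Rx.mk (nat_lit 218) (nat_lit 2) (nat_lit 3) (nat_lit 3) (nat_lit 7) (nat_lit 129) (nat_lit 118) r9_129 r9_118 (nat_lit 0) (nat_lit 0) (nat_lit 0) (nat_lit 0x20056d4f2) (nat_lit 268435456),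
  Rx.mk (nat_lit 219) (nat_lit 3) (nat_lit 3) (nat_lit 3) (nat_lit 7) (nat_lit 132) (nat_lit 112) r9_132 r9_112 (nat_lit 0) (nat_lit 0) (nat_lit 0) (nat_lit 0x20056d4f2) (nat_lit 268435456),
  Rx.mk (nat_lit 251) (nat_lit 3) (nat_lit 7) (nat_lit 3) (nat_lit 7) (nat_lit 131) (nat_lit 113) r9_131 r9_113 (nat_lit 0) (nat_lit 0) (nat_lit 0) (nat_lit 0x20056d4f2) (nat_lit 268435456),
  Rx.mk (nat_lit 292) (nat_lit 4) (nat_lit 4) (nat_lit 4) (nat_lit 0) (nat_lit 109) (nat_lit 121) r9_109 r9_121 (nat_lit 3095504) (nat_lit 2990216) (nat_lit 3768647) (nat_lit 0xd2564750) (nat_lit 598772423),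
  Rx.mk (nat_lit 295) (nat_lit 7) (nat_lit 4) (nat_lit 4) (nat_lit 1) (nat_lit 115) (nat_lit 124) r9_115 r9_124 (nat_lit 0) (nat_lit 8615936) (nat_lit 12761957) (nat_lit 0x177a8624c) (nat_lit 434765499),
  Rx.mk (nat_lit 308) (nat_lit 4) (nat_lit 6) (nat_lit 4) (nat_lit 2) (nat_lit 110) (nat_lit 122) r9_110 r9_122 (nat_lit 7663817) (nat_lit 0) (nat_lit 9694708) (nat_lit 0x18a42818a) (nat_lit 410994831),
  Rx.mk (nat_lit 311) (nat_lit 7) (nat_lit 6) (nat_lit 4) (nat_lit 3) (nat_lit 117) (nat_lit 127) r9_117 r9_127 (nat_lit 0) (nat_lit 0) (nat_lit 9484367) (nat_lit 0x1fb6f8f1a) (nat_lit 283044773),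
  Rx.mk (nat_lit 406) (nat_lit 6) (nat_lit 2) (nat_lit 6) (nat_lit 7) (nat_lit 113) (nat_lit 131) r9_113 r9_131 (nat_lit 0) (nat_lit 0) (nat_lit 0) (nat_lit 0x20056d4f2) (nat_lit 268435456),
  Rx.mk (nat_lit 436) (nat_lit 4) (nat_lit 6) (nat_lit 6) (nat_lit 6) (nat_lit 111) (nat_lit 123) r9_111 r9_123 (nat_lit 9121588) (nat_lit 0) (nat_lit 0) (nat_lit 0x1fa396af8) (nat_lit 283960994),
  Rx.mk (nat_lit 438) (nat_lit 6) (nat_lit 6) (nat_lit 6) (nat_lit 7) (nat_lit 112) (nat_lit 132) r9_112 r9_132 (nat_lit 0) (nat_lit 0) (nat_lit 0) (nat_lit 0x20056d4f2) (nat_lit 268435456),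
  Rx.mk (nat_lit 439) (nat_lit 7) (nat_lit 6) (nat_lit 6) (nat_lit 7) (nat_lit 118) (nat_lit 129) r9_118 r9_129 (nat_lit 0) (nat_lit 0) (nat_lit 0) (nat_lit 0x20056d4f2) (nat_lit 268435456),
  Rx.mk (nat_lit 487) (nat_lit 7) (nat_lit 4) (nat_lit 7) (nat_lit 5) (nat_lit 116) (nat_lit 125) r9_116 r9_125 (nat_lit 0) (nat_lit 7138546) (nat_lit 0) (nat_lit 0x1f7876ba2) (nat_lit 284819002),
  Rx.mk (nat_lit 503) (nat_lit 7) (nat_lit 6) (nat_lit 7) (nat_lit 7) (nat_lit 119) (nat_lit 128) r9_119 r9_128 (nat_lit 0) (nat_lit 0) (nat_lit 0) (nat_lit 0x20056d4f2) (nat_lit 268435456),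
  Rx.mk (nat_lit 507) (nat_lit 3) (nat_lit 7) (nat_lit 7) (nat_lit 7) (nat_lit 130) (nat_lit 114) r9_130 r9_114 (nat_lit 0) (nat_lit 0) (nat_lit 0) (nat_lit 0x20056d4f2) (nat_lit 268435456),
  Rx.mk (nat_lit 511) (nat_lit 7) (nat_lit 7) (nat_lit 7) (nat_lit 7) (nat_lit 120) (nat_lit 126) r9_120 r9_126 (nat_lit 0) (nat_lit 0) (nat_lit 0) (nat_lit 0x20056d4f2) (nat_lit 268435456)]
noncomputable def e17_18 : List Rx := [
  Rx.mk (nat_lit 359) (nat_lit 7) (nat_lit 4) (nat_lit 5) (nat_lit 5) (nat_lit 133) (nat_lit 276) r9_133 r4_276 (nat_lit 0) (nat_lit 10224750) (nat_lit 0) (nat_lit 0x1ff7ec1c0) (nat_lit 279539206),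
  Rx.mk (nat_lit 379) (nat_lit 3) (nat_lit 7) (nat_lit 5) (nat_lit 7) (nat_lit 135) (nat_lit 278) r9_135 r4_278 (nat_lit 0) (nat_lit 0) (nat_lit 0) (nat_lit 0x20056d4f2) (nat_lit 268435456),
  Rx.mk (nat_lit 383) (nat_lit 7) (nat_lit 7) (nat_lit 5) (nat_lit 7) (nat_lit 134) (nat_lit 277) r9_134 r4_277 (nat_lit 0) (nat_lit 0) (nat_lit 0) (nat_lit 0x20056d4f2) (nat_lit 268435456)]
noncomputable def e17_19 : List Rx := [
  Rx.mk (nat_lit 295) (nat_lit 7) (nat_lit 4) (nat_lit 4) (nat_lit 1) (nat_lit 136) (nat_lit 120) r9_136 r10_120 (nat_lit 0) (nat_lit 10859836) (nat_lit 18297468) (nat_lit 0x18a1becbe) (nat_lit 422951410),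
  Rx.mk (nat_lit 311) (nat_lit 7) (nat_lit 6) (nat_lit 4) (nat_lit 3) (nat_lit 138) (nat_lit 124) r9_138 r10_124 (nat_lit 0) (nat_lit 0) (nat_lit 9325504) (nat_lit 0x1feec417e) (nat_lit 279237760),
  Rx.mk (nat_lit 315) (nat_lit 3) (nat_lit 7) (nat_lit 4) (nat_lit 3) (nat_lit 143) (nat_lit 117) r9_143 r10_117 (nat_lit 0) (nat_lit 0) (nat_lit 9484367) (nat_lit 0x1fe0f9b52) (nat_lit 280290373),
  Rx.mk (nat_lit 319) (nat_lit 7) (nat_lit 7) (nat_lit 4) (nat_lit 3) (nat_lit 141) (nat_lit 122) r9_141 r10_122 (nat_lit 0) (nat_lit 0) (nat_lit 9484367) (nat_lit 0x1fe9978ae) (nat_lit 279734173),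
  Rx.mk (nat_lit 359) (nat_lit 7) (nat_lit 4) (nat_lit 5) (nat_lit 5) (nat_lit 137) (nat_lit 121) r9_137 r10_121 (nat_lit 0) (nat_lit 11205477) (nat_lit 0) (nat_lit 0x1fe9e5b26) (nat_lit 281435233),
  Rx.mk (nat_lit 375) (nat_lit 7) (nat_lit 6) (nat_lit 5) (nat_lit 7) (nat_lit 139) (nat_lit 125) r9_139 r10_125 (nat_lit 0) (nat_lit 0) (nat_lit 0) (nat_lit 0x20056d4f2) (nat_lit 268435456),
  Rx.mk (nat_lit 379) (nat_lit 3) (nat_lit 7) (nat_lit 5) (nat_lit 7) (nat_lit 144) (nat_lit 118) r9_144 r10_118 (nat_lit 0) (nat_lit 0) (nat_lit 0) (nat_lit 0x20056d4f2) (nat_lit 268435456),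
  Rx.mk (nat_lit 383) (nat_lit 7) (nat_lit 7) (nat_lit 5) (nat_lit 7) (nat_lit 142) (nat_lit 123) r9_142 r10_123 (nat_lit 0) (nat_lit 0) (nat_lit 0) (nat_lit 0x20056d4f2) (nat_lit 268435456),
  Rx.mk (nat_lit 439) (nat_lit 7) (nat_lit 6) (nat_lit 6) (nat_lit 7) (nat_lit 140) (nat_lit 126) r9_140 r10_126 (nat_lit 0) (nat_lit 0) (nat_lit 0) (nat_lit 0x20056d4f2) (nat_lit 268435456),
  Rx.mk (nat_lit 507) (nat_lit 3) (nat_lit 7) (nat_lit 7) (nat_lit 7) (nat_lit 145) (nat_lit 119) r9_145 r10_119 (nat_lit 0) (nat_lit 0) (nat_lit 0) (nat_lit 0x20056d4f2) (nat_lit 268435456)]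
noncomputable def e17_20 : List Rx := [
  Rx.mk (nat_lit 379) (nat_lit 3) (nat_lit 7) (nat_lit 5) (nat_lit 7) (nat_lit 147) (nat_lit 123) r9_147 r11_123 (nat_lit 0) (nat_lit 0) (nat_lit 0) (nat_lit 0x20056d4f2) (nat_lit 268435456),
  Rx.mk (nat_lit 383) (nat_lit 7) (nat_lit 7) (nat_lit 5) (nat_lit 7) (nat_lit 146) (nat_lit 124) r9_146 r11_124 (nat_lit 0) (nat_lit 0) (nat_lit 0) (nat_lit 0x20056d4f2) (nat_lit 268435456)]
noncomputable def e17_21 : List Rx := [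
  Rx.mk (nat_lit 0) (nat_lit 0) (nat_lit 0) (nat_lit 0) (nat_lit 0) (nat_lit 148) (nat_lit 148) r9_148 r9_148 (nat_lit 4154528) (nat_lit 4154528) (nat_lit 11414673) (nat_lit 0xf1bfb054) (nat_lit 575294585),
  Rx.mk (nat_lit 2) (nat_lit 2) (nat_lit 0) (nat_lit 0) (nat_lit 1) (nat_lit 151) (nat_lit 149) r9_151 r9_149 (nat_lit 0) (nat_lit 7816714) (nat_lit 10936372) (nat_lit 0x1a8f1b4ac) (nat_lit 379808392),
  Rx.mk (nat_lit 24) (nat_lit 0) (nat_lit 3) (nat_lit 0) (nat_lit 2) (nat_lit 149) (nat_lit 151) r9_149 r9_151 (nat_lit 7816714) (nat_lit 0) (nat_lit 10936372) (nat_lit 0x1a8f1b4ac) (nat_lit 379808392),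
  Rx.mk (nat_lit 130) (nat_lit 2) (nat_lit 0) (nat_lit 2) (nat_lit 5) (nat_lit 152) (nat_lit 150) r9_152 r9_150 (nat_lit 0) (nat_lit 8480559) (nat_lit 0) (nat_lit 0x1fd3329d8) (nat_lit 280188765),
  Rx.mk (nat_lit 146) (nat_lit 2) (nat_lit 2) (nat_lit 2) (nat_lit 7) (nat_lit 153) (nat_lit 154) r9_153 r9_154 (nat_lit 0) (nat_lit 0) (nat_lit 0) (nat_lit 0x20056d4f2) (nat_lit 268435456),
  Rx.mk (nat_lit 216) (nat_lit 0) (nat_lit 3) (nat_lit 3) (nat_lit 6) (nat_lit 150) (nat_lit 152) r9_150 r9_152 (nat_lit 8480559) (nat_lit 0) (nat_lit 0) (nat_lit 0x1fd3329d8) (nat_lit 280188765),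
  Rx.mk (nat_lit 219) (nat_lit 3) (nat_lit 3) (nat_lit 3) (nat_lit 7) (nat_lit 154) (nat_lit 153) r9_154 r9_153 (nat_lit 0) (nat_lit 0) (nat_lit 0) (nat_lit 0x20056d4f2) (nat_lit 268435456)]
noncomputable def e17_22 : List Rx := [
  Rx.mk (nat_lit 64) (nat_lit 0) (nat_lit 0) (nat_lit 1) (nat_lit 4) (nat_lit 155) (nat_lit 257) r9_155 r0_257 (nat_lit 18008547) (nat_lit 20380427) (nat_lit 0) (nat_lit 0x1563465ca) (nat_lit 487295780),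
  Rx.mk (nat_lit 65) (nat_lit 1) (nat_lit 0) (nat_lit 1) (nat_lit 5) (nat_lit 157) (nat_lit 259) r9_157 r0_259 (nat_lit 0) (nat_lit 12763209) (nat_lit 0) (nat_lit 0x1dbc643f2) (nat_lit 319863465),
  Rx.mk (nat_lit 88) (nat_lit 0) (nat_lit 3) (nat_lit 1) (nat_lit 6) (nat_lit 156) (nat_lit 258) r9_156 r0_258 (nat_lit 9484367) (nat_lit 0) (nat_lit 0) (nat_lit 0x1fda6c1c2) (nat_lit 280725973),
  Rx.mk (nat_lit 89) (nat_lit 1) (nat_lit 3) (nat_lit 1) (nat_lit 7) (nat_lit 158) (nat_lit 260) r9_158 r0_260 (nat_lit 0) (nat_lit 0) (nat_lit 0) (nat_lit 0x20056d4f2) (nat_lit 268435456),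
  Rx.mk (nat_lit 91) (nat_lit 3) (nat_lit 3) (nat_lit 1) (nat_lit 7) (nat_lit 159) (nat_lit 261) r9_159 r0_261 (nat_lit 0) (nat_lit 0) (nat_lit 0) (nat_lit 0x20056d4f2) (nat_lit 268435456)]
noncomputable def e17_23 : List Rx := [
  Rx.mk (nat_lit 64) (nat_lit 0) (nat_lit 0) (nat_lit 1) (nat_lit 4) (nat_lit 160) (nat_lit 262) r9_160 r1_262 (nat_lit 13133979) (nat_lit 32489931) (nat_lit 0) (nat_lit 0x1939dcef6) (nat_lit 429324366),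
  Rx.mk (nat_lit 65) (nat_lit 1) (nat_lit 0) (nat_lit 1) (nat_lit 5) (nat_lit 163) (nat_lit 265) r9_163 r1_265 (nat_lit 0) (nat_lit 9484367) (nat_lit 0) (nat_lit 0x1fe666b26) (nat_lit 279942473),
  Rx.mk (nat_lit 72) (nat_lit 0) (nat_lit 1) (nat_lit 1) (nat_lit 6) (nat_lit 161) (nat_lit 263) r9_161 r1_263 (nat_lit 9869976) (nat_lit 0) (nat_lit 0) (nat_lit 0x1feb4a80e) (nat_lit 280007182),
  Rx.mk (nat_lit 73) (nat_lit 1) (nat_lit 1) (nat_lit 1) (nat_lit 7) (nat_lit 164) (nat_lit 266) r9_164 r1_266 (nat_lit 0) (nat_lit 0) (nat_lit 0) (nat_lit 0x20056d4f2) (nat_lit 268435456),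
  Rx.mk (nat_lit 88) (nat_lit 0) (nat_lit 3) (nat_lit 1) (nat_lit 6) (nat_lit 162) (nat_lit 264) r9_162 r1_264 (nat_lit 9484367) (nat_lit 0) (nat_lit 0) (nat_lit 0x20056d4f2) (nat_lit 277919823),
  Rx.mk (nat_lit 89) (nat_lit 1) (nat_lit 3) (nat_lit 1) (nat_lit 7) (nat_lit 165) (nat_lit 267) r9_165 r1_267 (nat_lit 0) (nat_lit 0) (nat_lit 0) (nat_lit 0x20056d4f2) (nat_lit 268435456),
  Rx.mk (nat_lit 91) (nat_lit 3) (nat_lit 3) (nat_lit 1) (nat_lit 7) (nat_lit 166) (nat_lit 268) r9_166 r1_268 (nat_lit 0) (nat_lit 0) (nat_lit 0) (nat_lit 0x20056d4f2) (nat_lit 268435456)]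
noncomputable def e17_24 : List Rx := [
  Rx.mk (nat_lit 88) (nat_lit 0) (nat_lit 3) (nat_lit 1) (nat_lit 6) (nat_lit 167) (nat_lit 273) r9_167 r4_273 (nat_lit 9484367) (nat_lit 0) (nat_lit 0) (nat_lit 0x20056d4f2) (nat_lit 277919823),
  Rx.mk (nat_lit 89) (nat_lit 1) (nat_lit 3) (nat_lit 1) (nat_lit 7) (nat_lit 168) (nat_lit 274) r9_168 r4_274 (nat_lit 0) (nat_lit 0) (nat_lit 0) (nat_lit 0x20056d4f2) (nat_lit 268435456),
  Rx.mk (nat_lit 91) (nat_lit 3) (nat_lit 3) (nat_lit 1) (nat_lit 7) (nat_lit 169) (nat_lit 275) r9_169 r4_275 (nat_lit 0) (nat_lit 0) (nat_lit 0) (nat_lit 0x20056d4f2) (nat_lit 268435456)]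
noncomputable def e17_25 : List Rx := [
  Rx.mk (nat_lit 0) (nat_lit 0) (nat_lit 0) (nat_lit 0) (nat_lit 0) (nat_lit 170) (nat_lit 204) r9_170 r7_204 (nat_lit 4361725) (nat_lit 3153757) (nat_lit 3803068) (nat_lit 0xe7b965fa) (nat_lit 577519756),
  Rx.mk (nat_lit 2) (nat_lit 2) (nat_lit 0) (nat_lit 0) (nat_lit 1) (nat_lit 176) (nat_lit 207) r9_176 r7_207 (nat_lit 0) (nat_lit 13011083) (nat_lit 10313512) (nat_lit 0x1a14cc85e) (nat_lit 392497401),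
  Rx.mk (nat_lit 24) (nat_lit 0) (nat_lit 3) (nat_lit 0) (nat_lit 2) (nat_lit 172) (nat_lit 210) r9_172 r7_210 (nat_lit 10111158) (nat_lit 0) (nat_lit 11171727) (nat_lit 0x1909dc81e) (nat_lit 408167991),
  Rx.mk (nat_lit 27) (nat_lit 3) (nat_lit 3) (nat_lit 0) (nat_lit 3) (nat_lit 180) (nat_lit 213) r9_180 r7_213 (nat_lit 0) (nat_lit 0) (nat_lit 9484367) (nat_lit 0x1fd5c6abe) (nat_lit 281030323),
  Rx.mk (nat_lit 64) (nat_lit 0) (nat_lit 0) (nat_lit 1) (nat_lit 4) (nat_lit 171) (nat_lit 205) r9_171 r7_205 (nat_lit 12267734) (nat_lit 11132797) (nat_lit 0) (nat_lit 0x1880761f6) (nat_lit 419405787),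
  Rx.mk (nat_lit 65) (nat_lit 1) (nat_lit 0) (nat_lit 1) (nat_lit 5) (nat_lit 174) (nat_lit 206) r9_174 r7_206 (nat_lit 0) (nat_lit 9484367) (nat_lit 0) (nat_lit 0x20056d4f2) (nat_lit 277919823),
  Rx.mk (nat_lit 66) (nat_lit 2) (nat_lit 0) (nat_lit 1) (nat_lit 5) (nat_lit 177) (nat_lit 208) r9_177 r7_208 (nat_lit 0) (nat_lit 9484367) (nat_lit 0) (nat_lit 0x20056d4f2) (nat_lit 277919823),
  Rx.mk (nat_lit 88) (nat_lit 0) (nat_lit 3) (nat_lit 1) (nat_lit 6) (nat_lit 173) (nat_lit 211) r9_173 r7_211 (nat_lit 9484367) (nat_lit 0) (nat_lit 0) (nat_lit 0x20056d4f2) (nat_lit 277919823),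
  Rx.mk (nat_lit 89) (nat_lit 1) (nat_lit 3) (nat_lit 1) (nat_lit 7) (nat_lit 175) (nat_lit 212) r9_175 r7_212 (nat_lit 0) (nat_lit 0) (nat_lit 0) (nat_lit 0x20056d4f2) (nat_lit 268435456),
  Rx.mk (nat_lit 91) (nat_lit 3) (nat_lit 3) (nat_lit 1) (nat_lit 7) (nat_lit 181) (nat_lit 214) r9_181 r7_214 (nat_lit 0) (nat_lit 0) (nat_lit 0) (nat_lit 0x20056d4f2) (nat_lit 268435456),
  Rx.mk (nat_lit 130) (nat_lit 2) (nat_lit 0) (nat_lit 2) (nat_lit 5) (nat_lit 178) (nat_lit 209) r9_178 r7_209 (nat_lit 0) (nat_lit 9484367) (nat_lit 0) (nat_lit 0x20056d4f2) (nat_lit 277919823),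
  Rx.mk (nat_lit 146) (nat_lit 2) (nat_lit 2) (nat_lit 2) (nat_lit 7) (nat_lit 179) (nat_lit 216) r9_179 r7_216 (nat_lit 0) (nat_lit 0) (nat_lit 0) (nat_lit 0x20056d4f2) (nat_lit 268435456),
  Rx.mk (nat_lit 219) (nat_lit 3) (nat_lit 3) (nat_lit 3) (nat_lit 7) (nat_lit 182) (nat_lit 215) r9_182 r7_215 (nat_lit 0) (nat_lit 0) (nat_lit 0) (nat_lit 0x20056d4f2) (nat_lit 268435456)]
noncomputable def e17_26 : List Rx := [
  Rx.mk (nat_lit 0) (nat_lit 0) (nat_lit 0) (nat_lit 0) (nat_lit 0) (nat_lit 183) (nat_lit 159) r9_183 r8_159 (nat_lit 2962037) (nat_lit 2940451) (nat_lit 4453267) (nat_lit 0x1121e1c0a) (nat_lit 531543861),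
  Rx.mk (nat_lit 2) (nat_lit 2) (nat_lit 0) (nat_lit 0) (nat_lit 1) (nat_lit 192) (nat_lit 162) r9_192 r8_162 (nat_lit 0) (nat_lit 9530506) (nat_lit 10265049) (nat_lit 0x1aabfbf22) (nat_lit 378936011),
  Rx.mk (nat_lit 8) (nat_lit 0) (nat_lit 1) (nat_lit 0) (nat_lit 2) (nat_lit 185) (nat_lit 165) r9_185 r8_165 (nat_lit 8158535) (nat_lit 0) (nat_lit 19239822) (nat_lit 0x1d532504e) (nat_lit 341477313),
  Rx.mk (nat_lit 10) (nat_lit 2) (nat_lit 1) (nat_lit 0) (nat_lit 3) (nat_lit 195) (nat_lit 168) r9_195 r8_168 (nat_lit 0) (nat_lit 0) (nat_lit 9484367) (nat_lit 0x20056d4f2) (nat_lit 277919823),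
  Rx.mk (nat_lit 24) (nat_lit 0) (nat_lit 3) (nat_lit 0) (nat_lit 2) (nat_lit 187) (nat_lit 171) r9_187 r8_171 (nat_lit 9044589) (nat_lit 0) (nat_lit 11392601) (nat_lit 0x1c6f1c2d0) (nat_lit 349642896),
  Rx.mk (nat_lit 27) (nat_lit 3) (nat_lit 3) (nat_lit 0) (nat_lit 3) (nat_lit 199) (nat_lit 174) r9_199 r8_174 (nat_lit 0) (nat_lit 0) (nat_lit 9484367) (nat_lit 0x20056d4f2) (nat_lit 277919823),
  Rx.mk (nat_lit 64) (nat_lit 0) (nat_lit 0) (nat_lit 1) (nat_lit 4) (nat_lit 184) (nat_lit 160) r9_184 r8_160 (nat_lit 19140889) (nat_lit 12531791) (nat_lit 0) (nat_lit 0x19e7d89c4) (nat_lit 403828636),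
  Rx.mk (nat_lit 65) (nat_lit 1) (nat_lit 0) (nat_lit 1) (nat_lit 5) (nat_lit 189) (nat_lit 161) r9_189 r8_161 (nat_lit 0) (nat_lit 9484367) (nat_lit 0) (nat_lit 0x20056d4f2) (nat_lit 277919823),
  Rx.mk (nat_lit 66) (nat_lit 2) (nat_lit 0) (nat_lit 1) (nat_lit 5) (nat_lit 193) (nat_lit 163) r9_193 r8_163 (nat_lit 0) (nat_lit 9484367) (nat_lit 0) (nat_lit 0x20056d4f2) (nat_lit 277919823),
  Rx.mk (nat_lit 72) (nat_lit 0) (nat_lit 1) (nat_lit 1) (nat_lit 6) (nat_lit 186) (nat_lit 166) r9_186 r8_166 (nat_lit 9484367) (nat_lit 0) (nat_lit 0) (nat_lit 0x20056d4f2) (nat_lit 277919823),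
  Rx.mk (nat_lit 73) (nat_lit 1) (nat_lit 1) (nat_lit 1) (nat_lit 7) (nat_lit 190) (nat_lit 167) r9_190 r8_167 (nat_lit 0) (nat_lit 0) (nat_lit 0) (nat_lit 0x20056d4f2) (nat_lit 268435456),
  Rx.mk (nat_lit 74) (nat_lit 2) (nat_lit 1) (nat_lit 1) (nat_lit 7) (nat_lit 196) (nat_lit 169) r9_196 r8_169 (nat_lit 0) (nat_lit 0) (nat_lit 0) (nat_lit 0x20056d4f2) (nat_lit 268435456),
  Rx.mk (nat_lit 88) (nat_lit 0) (nat_lit 3) (nat_lit 1) (nat_lit 6) (nat_lit 188) (nat_lit 172) r9_188 r8_172 (nat_lit 9484367) (nat_lit 0) (nat_lit 0) (nat_lit 0x20056d4f2) (nat_lit 277919823),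
  Rx.mk (nat_lit 89) (nat_lit 1) (nat_lit 3) (nat_lit 1) (nat_lit 7) (nat_lit 191) (nat_lit 173) r9_191 r8_173 (nat_lit 0) (nat_lit 0) (nat_lit 0) (nat_lit 0x20056d4f2) (nat_lit 268435456),
  Rx.mk (nat_lit 91) (nat_lit 3) (nat_lit 3) (nat_lit 1) (nat_lit 7) (nat_lit 200) (nat_lit 175) r9_200 r8_175 (nat_lit 0) (nat_lit 0) (nat_lit 0) (nat_lit 0x20056d4f2) (nat_lit 268435456),
  Rx.mk (nat_lit 130) (nat_lit 2) (nat_lit 0) (nat_lit 2) (nat_lit 5) (nat_lit 194) (nat_lit 164) r9_194 r8_164 (nat_lit 0) (nat_lit 9484367) (nat_lit 0) (nat_lit 0x20056d4f2) (nat_lit 277919823),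
  Rx.mk (nat_lit 138) (nat_lit 2) (nat_lit 1) (nat_lit 2) (nat_lit 7) (nat_lit 197) (nat_lit 170) r9_197 r8_170 (nat_lit 0) (nat_lit 0) (nat_lit 0) (nat_lit 0x20056d4f2) (nat_lit 268435456),
  Rx.mk (nat_lit 146) (nat_lit 2) (nat_lit 2) (nat_lit 2) (nat_lit 7) (nat_lit 198) (nat_lit 177) r9_198 r8_177 (nat_lit 0) (nat_lit 0) (nat_lit 0) (nat_lit 0x20056d4f2) (nat_lit 268435456),
  Rx.mk (nat_lit 219) (nat_lit 3) (nat_lit 3) (nat_lit 3) (nat_lit 7) (nat_lit 201) (nat_lit 176) r9_201 r8_176 (nat_lit 0) (nat_lit 0) (nat_lit 0) (nat_lit 0x20056d4f2) (nat_lit 268435456)]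
noncomputable def e17_27 : List Rx := [
  Rx.mk (nat_lit 0) (nat_lit 0) (nat_lit 0) (nat_lit 0) (nat_lit 0) (nat_lit 202) (nat_lit 266) r9_202 r8_266 (nat_lit 9425907) (nat_lit 7358433) (nat_lit 10521872) (nat_lit 0xfed8bfec) (nat_lit 568969768),
  Rx.mk (nat_lit 2) (nat_lit 2) (nat_lit 0) (nat_lit 0) (nat_lit 1) (nat_lit 204) (nat_lit 269) r9_204 r8_269 (nat_lit 0) (nat_lit 11295192) (nat_lit 8834210) (nat_lit 0x1a59e41f8) (nat_lit 384717008),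
  Rx.mk (nat_lit 24) (nat_lit 0) (nat_lit 3) (nat_lit 0) (nat_lit 2) (nat_lit 203) (nat_lit 267) r9_203 r8_267 (nat_lit 12417474) (nat_lit 0) (nat_lit 9102018) (nat_lit 0x1c993f878) (nat_lit 347926448),
  Rx.mk (nat_lit 27) (nat_lit 3) (nat_lit 3) (nat_lit 0) (nat_lit 3) (nat_lit 207) (nat_lit 268) r9_207 r8_268 (nat_lit 0) (nat_lit 0) (nat_lit 9484367) (nat_lit 0x20056d4f2) (nat_lit 277919823),
  Rx.mk (nat_lit 130) (nat_lit 2) (nat_lit 0) (nat_lit 2) (nat_lit 5) (nat_lit 205) (nat_lit 271) r9_205 r8_271 (nat_lit 0) (nat_lit 9484367) (nat_lit 0) (nat_lit 0x20056d4f2) (nat_lit 277919823),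
  Rx.mk (nat_lit 146) (nat_lit 2) (nat_lit 2) (nat_lit 2) (nat_lit 7) (nat_lit 206) (nat_lit 272) r9_206 r8_272 (nat_lit 0) (nat_lit 0) (nat_lit 0) (nat_lit 0x20056d4f2) (nat_lit 268435456),
  Rx.mk (nat_lit 219) (nat_lit 3) (nat_lit 3) (nat_lit 3) (nat_lit 7) (nat_lit 208) (nat_lit 270) r9_208 r8_270 (nat_lit 0) (nat_lit 0) (nat_lit 0) (nat_lit 0x20056d4f2) (nat_lit 268435456)]
noncomputable def e17_28 : List Rx := [
  Rx.mk (nat_lit 24) (nat_lit 0) (nat_lit 3) (nat_lit 0) (nat_lit 2) (nat_lit 209) (nat_lit 161) r9_209 r10_161 (nat_lit 11812790) (nat_lit 0) (nat_lit 18196586) (nat_lit 0x199bf684e) (nat_lit 407198282),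
  Rx.mk (nat_lit 27) (nat_lit 3) (nat_lit 3) (nat_lit 0) (nat_lit 3) (nat_lit 212) (nat_lit 164) r9_212 r10_164 (nat_lit 0) (nat_lit 0) (nat_lit 9484367) (nat_lit 0x20056d4f2) (nat_lit 277919823),
  Rx.mk (nat_lit 88) (nat_lit 0) (nat_lit 3) (nat_lit 1) (nat_lit 6) (nat_lit 210) (nat_lit 162) r9_210 r10_162 (nat_lit 9793623) (nat_lit 0) (nat_lit 0) (nat_lit 0x1fffcca48) (nat_lit 278595379),
  Rx.mk (nat_lit 89) (nat_lit 1) (nat_lit 3) (nat_lit 1) (nat_lit 7) (nat_lit 211) (nat_lit 163) r9_211 r10_163 (nat_lit 0) (nat_lit 0) (nat_lit 0) (nat_lit 0x20056d4f2) (nat_lit 268435456),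
  Rx.mk (nat_lit 91) (nat_lit 3) (nat_lit 3) (nat_lit 1) (nat_lit 7) (nat_lit 213) (nat_lit 165) r9_213 r10_165 (nat_lit 0) (nat_lit 0) (nat_lit 0) (nat_lit 0x20056d4f2) (nat_lit 268435456)]
noncomputable def e17_29 : List Rx := [
  Rx.mk (nat_lit 91) (nat_lit 3) (nat_lit 3) (nat_lit 1) (nat_lit 7) (nat_lit 214) (nat_lit 164) r9_214 r11_164 (nat_lit 0) (nat_lit 0) (nat_lit 0) (nat_lit 0x20056d4f2) (nat_lit 268435456)]
noncomputable def e17_30 : List Rx := [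
  Rx.mk (nat_lit 379) (nat_lit 3) (nat_lit 7) (nat_lit 5) (nat_lit 7) (nat_lit 215) (nat_lit 266) r9_215 r5_266 (nat_lit 0) (nat_lit 0) (nat_lit 0) (nat_lit 0x20056d4f2) (nat_lit 268435456)]
noncomputable def e17_31 : List Rx := [
  Rx.mk (nat_lit 315) (nat_lit 3) (nat_lit 7) (nat_lit 4) (nat_lit 3) (nat_lit 216) (nat_lit 330) r9_216 r11_330 (nat_lit 0) (nat_lit 0) (nat_lit 9484367) (nat_lit 0x20056d4f2) (nat_lit 277919823),
  Rx.mk (nat_lit 379) (nat_lit 3) (nat_lit 7) (nat_lit 5) (nat_lit 7) (nat_lit 217) (nat_lit 331) r9_217 r11_331 (nat_lit 0) (nat_lit 0) (nat_lit 0) (nat_lit 0x20056d4f2) (nat_lit 268435456),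
  Rx.mk (nat_lit 507) (nat_lit 3) (nat_lit 7) (nat_lit 7) (nat_lit 7) (nat_lit 218) (nat_lit 332) r9_218 r11_332 (nat_lit 0) (nat_lit 0) (nat_lit 0) (nat_lit 0x20056d4f2) (nat_lit 268435456)]
noncomputable def e17_32 : List Rx := [
  Rx.mk (nat_lit 120) (nat_lit 0) (nat_lit 7) (nat_lit 1) (nat_lit 6) (nat_lit 220) (nat_lit 315) r9_220 r6_315 (nat_lit 10732257) (nat_lit 0) (nat_lit 0) (nat_lit 0x1f762bc30) (nat_lit 288560063),
  Rx.mk (nat_lit 121) (nat_lit 1) (nat_lit 7) (nat_lit 1) (nat_lit 7) (nat_lit 222) (nat_lit 317) r9_222 r6_317 (nat_lit 0) (nat_lit 0) (nat_lit 0) (nat_lit 0x20056d4f2) (nat_lit 268435456),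
  Rx.mk (nat_lit 123) (nat_lit 3) (nat_lit 7) (nat_lit 1) (nat_lit 7) (nat_lit 223) (nat_lit 318) r9_223 r6_318 (nat_lit 0) (nat_lit 0) (nat_lit 0) (nat_lit 0x20056d4f2) (nat_lit 268435456),
  Rx.mk (nat_lit 376) (nat_lit 0) (nat_lit 7) (nat_lit 5) (nat_lit 6) (nat_lit 219) (nat_lit 314) r9_219 r6_314 (nat_lit 9484367) (nat_lit 0) (nat_lit 0) (nat_lit 0x1fafd9e3c) (nat_lit 283511073),
  Rx.mk (nat_lit 377) (nat_lit 1) (nat_lit 7) (nat_lit 5) (nat_lit 7) (nat_lit 221) (nat_lit 316) r9_221 r6_316 (nat_lit 0) (nat_lit 0) (nat_lit 0) (nat_lit 0x20056d4f2) (nat_lit 268435456)]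
noncomputable def e17_33 : List Rx := [
  Rx.mk (nat_lit 88) (nat_lit 0) (nat_lit 3) (nat_lit 1) (nat_lit 6) (nat_lit 225) (nat_lit 261) r9_225 r5_261 (nat_lit 9906818) (nat_lit 0) (nat_lit 0) (nat_lit 0x1fdab6db2) (nat_lit 281127224),
  Rx.mk (nat_lit 89) (nat_lit 1) (nat_lit 3) (nat_lit 1) (nat_lit 7) (nat_lit 227) (nat_lit 263) r9_227 r5_263 (nat_lit 0) (nat_lit 0) (nat_lit 0) (nat_lit 0x20056d4f2) (nat_lit 268435456),
  Rx.mk (nat_lit 120) (nat_lit 0) (nat_lit 7) (nat_lit 1) (nat_lit 6) (nat_lit 224) (nat_lit 262) r9_224 r5_262 (nat_lit 10906122) (nat_lit 0) (nat_lit 0) (nat_lit 0x1f877a716) (nat_lit 287583928),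
  Rx.mk (nat_lit 121) (nat_lit 1) (nat_lit 7) (nat_lit 1) (nat_lit 7) (nat_lit 226) (nat_lit 264) r9_226 r5_264 (nat_lit 0) (nat_lit 0) (nat_lit 0) (nat_lit 0x20056d4f2) (nat_lit 268435456),
  Rx.mk (nat_lit 123) (nat_lit 3) (nat_lit 7) (nat_lit 1) (nat_lit 7) (nat_lit 228) (nat_lit 265) r9_228 r5_265 (nat_lit 0) (nat_lit 0) (nat_lit 0) (nat_lit 0x20056d4f2) (nat_lit 268435456)]
noncomputable def e17_34 : List Rx := [
  Rx.mk (nat_lit 24) (nat_lit 0) (nat_lit 3) (nat_lit 0) (nat_lit 2) (nat_lit 231) (nat_lit 318) r9_231 r11_318 (nat_lit 18744067) (nat_lit 0) (nat_lit 16829549) (nat_lit 0x1e8eb1d14) (nat_lit 328714572),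
  Rx.mk (nat_lit 26) (nat_lit 2) (nat_lit 3) (nat_lit 0) (nat_lit 3) (nat_lit 235) (nat_lit 321) r9_235 r11_321 (nat_lit 0) (nat_lit 0) (nat_lit 9484367) (nat_lit 0x20056d4f2) (nat_lit 277919823),
  Rx.mk (nat_lit 56) (nat_lit 0) (nat_lit 7) (nat_lit 0) (nat_lit 2) (nat_lit 229) (nat_lit 319) r9_229 r11_319 (nat_lit 11766120) (nat_lit 0) (nat_lit 11766120) (nat_lit 0x1f90d7d9a) (nat_lit 299612896),
  Rx.mk (nat_lit 59) (nat_lit 3) (nat_lit 7) (nat_lit 0) (nat_lit 3) (nat_lit 238) (nat_lit 320) r9_238 r11_320 (nat_lit 0) (nat_lit 0) (nat_lit 9484367) (nat_lit 0x20056d4f2) (nat_lit 277919823),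
  Rx.mk (nat_lit 88) (nat_lit 0) (nat_lit 3) (nat_lit 1) (nat_lit 6) (nat_lit 232) (nat_lit 322) r9_232 r11_322 (nat_lit 9484367) (nat_lit 0) (nat_lit 0) (nat_lit 0x20056d4f2) (nat_lit 277919823),
  Rx.mk (nat_lit 89) (nat_lit 1) (nat_lit 3) (nat_lit 1) (nat_lit 7) (nat_lit 234) (nat_lit 324) r9_234 r11_324 (nat_lit 0) (nat_lit 0) (nat_lit 0) (nat_lit 0x20056d4f2) (nat_lit 268435456),
  Rx.mk (nat_lit 90) (nat_lit 2) (nat_lit 3) (nat_lit 1) (nat_lit 7) (nat_lit 236) (nat_lit 327) r9_236 r11_327 (nat_lit 0) (nat_lit 0) (nat_lit 0) (nat_lit 0x20056d4f2) (nat_lit 268435456),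
  Rx.mk (nat_lit 120) (nat_lit 0) (nat_lit 7) (nat_lit 1) (nat_lit 6) (nat_lit 230) (nat_lit 323) r9_230 r11_323 (nat_lit 9484367) (nat_lit 0) (nat_lit 0) (nat_lit 0x20056d4f2) (nat_lit 277919823),
  Rx.mk (nat_lit 121) (nat_lit 1) (nat_lit 7) (nat_lit 1) (nat_lit 7) (nat_lit 233) (nat_lit 325) r9_233 r11_325 (nat_lit 0) (nat_lit 0) (nat_lit 0) (nat_lit 0x20056d4f2) (nat_lit 268435456),
  Rx.mk (nat_lit 123) (nat_lit 3) (nat_lit 7) (nat_lit 1) (nat_lit 7) (nat_lit 239) (nat_lit 326) r9_239 r11_326 (nat_lit 0) (nat_lit 0) (nat_lit 0) (nat_lit 0x20056d4f2) (nat_lit 268435456),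
  Rx.mk (nat_lit 154) (nat_lit 2) (nat_lit 3) (nat_lit 2) (nat_lit 7) (nat_lit 237) (nat_lit 329) r9_237 r11_329 (nat_lit 0) (nat_lit 0) (nat_lit 0) (nat_lit 0x20056d4f2) (nat_lit 268435456),
  Rx.mk (nat_lit 251) (nat_lit 3) (nat_lit 7) (nat_lit 3) (nat_lit 7) (nat_lit 240) (nat_lit 328) r9_240 r11_328 (nat_lit 0) (nat_lit 0) (nat_lit 0) (nat_lit 0x20056d4f2) (nat_lit 268435456)]
noncomputable def e17_35 : List Rx := [
  Rx.mk (nat_lit 376) (nat_lit 0) (nat_lit 7) (nat_lit 5) (nat_lit 6) (nat_lit 241) (nat_lit 319) r9_241 r6_319 (nat_lit 10679085) (nat_lit 0) (nat_lit 0) (nat_lit 0x1f89d2662) (nat_lit 287212591),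
  Rx.mk (nat_lit 377) (nat_lit 1) (nat_lit 7) (nat_lit 5) (nat_lit 7) (nat_lit 242) (nat_lit 320) r9_242 r6_320 (nat_lit 0) (nat_lit 0) (nat_lit 0) (nat_lit 0x20056d4f2) (nat_lit 268435456),
  Rx.mk (nat_lit 379) (nat_lit 3) (nat_lit 7) (nat_lit 5) (nat_lit 7) (nat_lit 243) (nat_lit 321) r9_243 r6_321 (nat_lit 0) (nat_lit 0) (nat_lit 0) (nat_lit 0x20056d4f2) (nat_lit 268435456)]
noncomputable def e17_36 : List Rx := [
  Rx.mk (nat_lit 123) (nat_lit 3) (nat_lit 7) (nat_lit 1) (nat_lit 7) (nat_lit 247) (nat_lit 124) r9_247 r12_124 (nat_lit 0) (nat_lit 0) (nat_lit 0) (nat_lit 0x20056d4f2) (nat_lit 268435456),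
  Rx.mk (nat_lit 376) (nat_lit 0) (nat_lit 7) (nat_lit 5) (nat_lit 6) (nat_lit 244) (nat_lit 122) r9_244 r12_122 (nat_lit 11069367) (nat_lit 0) (nat_lit 0) (nat_lit 0x1ef76333a) (nat_lit 297276673),
  Rx.mk (nat_lit 377) (nat_lit 1) (nat_lit 7) (nat_lit 5) (nat_lit 7) (nat_lit 245) (nat_lit 123) r9_245 r12_123 (nat_lit 0) (nat_lit 0) (nat_lit 0) (nat_lit 0x20056d4f2) (nat_lit 268435456),
  Rx.mk (nat_lit 379) (nat_lit 3) (nat_lit 7) (nat_lit 5) (nat_lit 7) (nat_lit 246) (nat_lit 125) r9_246 r12_125 (nat_lit 0) (nat_lit 0) (nat_lit 0) (nat_lit 0x20056d4f2) (nat_lit 268435456)]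
noncomputable def e17_37 : List Rx := [
  Rx.mk (nat_lit 105) (nat_lit 1) (nat_lit 5) (nat_lit 1) (nat_lit 7) (nat_lit 249) (nat_lit 292) r9_249 r0_292 (nat_lit 0) (nat_lit 0) (nat_lit 0) (nat_lit 0x20056d4f2) (nat_lit 268435456),
  Rx.mk (nat_lit 361) (nat_lit 1) (nat_lit 5) (nat_lit 5) (nat_lit 7) (nat_lit 248) (nat_lit 291) r9_248 r0_291 (nat_lit 0) (nat_lit 0) (nat_lit 0) (nat_lit 0x20056d4f2) (nat_lit 268435456)]
noncomputable def e17_38 : List Rx := [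
  Rx.mk (nat_lit 97) (nat_lit 1) (nat_lit 4) (nat_lit 1) (nat_lit 5) (nat_lit 254) (nat_lit 293) r9_254 r0_293 (nat_lit 0) (nat_lit 10725362) (nat_lit 0) (nat_lit 0x1be5b800c) (nat_lit 349044468),
  Rx.mk (nat_lit 105) (nat_lit 1) (nat_lit 5) (nat_lit 1) (nat_lit 7) (nat_lit 256) (nat_lit 296) r9_256 r0_296 (nat_lit 0) (nat_lit 0) (nat_lit 0) (nat_lit 0x20056d4f2) (nat_lit 268435456),
  Rx.mk (nat_lit 353) (nat_lit 1) (nat_lit 4) (nat_lit 5) (nat_lit 5) (nat_lit 253) (nat_lit 294) r9_253 r0_294 (nat_lit 0) (nat_lit 11334893) (nat_lit 0) (nat_lit 0x1e2457aea) (nat_lit 311539649),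
  Rx.mk (nat_lit 357) (nat_lit 5) (nat_lit 4) (nat_lit 5) (nat_lit 5) (nat_lit 250) (nat_lit 295) r9_250 r0_295 (nat_lit 0) (nat_lit 10061420) (nat_lit 0) (nat_lit 0x1f3c8879e) (nat_lit 291701226),
  Rx.mk (nat_lit 361) (nat_lit 1) (nat_lit 5) (nat_lit 5) (nat_lit 7) (nat_lit 255) (nat_lit 297) r9_255 r0_297 (nat_lit 0) (nat_lit 0) (nat_lit 0) (nat_lit 0x20056d4f2) (nat_lit 268435456),
  Rx.mk (nat_lit 365) (nat_lit 5) (nat_lit 5) (nat_lit 5) (nat_lit 7) (nat_lit 251) (nat_lit 298) r9_251 r0_298 (nat_lit 0) (nat_lit 0) (nat_lit 0) (nat_lit 0x20056d4f2) (nat_lit 268435456),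
  Rx.mk (nat_lit 381) (nat_lit 5) (nat_lit 7) (nat_lit 5) (nat_lit 7) (nat_lit 252) (nat_lit 299) r9_252 r0_299 (nat_lit 0) (nat_lit 0) (nat_lit 0) (nat_lit 0x20056d4f2) (nat_lit 268435456)]
noncomputable def e17_39 : List Rx := [
  Rx.mk (nat_lit 105) (nat_lit 1) (nat_lit 5) (nat_lit 1) (nat_lit 7) (nat_lit 259) (nat_lit 408) r9_259 r7_408 (nat_lit 0) (nat_lit 0) (nat_lit 0) (nat_lit 0x20056d4f2) (nat_lit 268435456),
  Rx.mk (nat_lit 361) (nat_lit 1) (nat_lit 5) (nat_lit 5) (nat_lit 7) (nat_lit 258) (nat_lit 407) r9_258 r7_407 (nat_lit 0) (nat_lit 0) (nat_lit 0) (nat_lit 0x20056d4f2) (nat_lit 268435456),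
  Rx.mk (nat_lit 365) (nat_lit 5) (nat_lit 5) (nat_lit 5) (nat_lit 7) (nat_lit 257) (nat_lit 406) r9_257 r7_406 (nat_lit 0) (nat_lit 0) (nat_lit 0) (nat_lit 0x20056d4f2) (nat_lit 268435456)]
noncomputable def e17_40 : List Rx := [
  Rx.mk (nat_lit 356) (nat_lit 4) (nat_lit 4) (nat_lit 5) (nat_lit 4) (nat_lit 260) (nat_lit 316) r9_260 r2_316 (nat_lit 14496166) (nat_lit 13222408) (nat_lit 0) (nat_lit 0x197e2b814) (nat_lit 406887580),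
  Rx.mk (nat_lit 357) (nat_lit 5) (nat_lit 4) (nat_lit 5) (nat_lit 5) (nat_lit 262) (nat_lit 317) r9_262 r2_317 (nat_lit 0) (nat_lit 9484367) (nat_lit 0) (nat_lit 0x20056d4f2) (nat_lit 277919823),
  Rx.mk (nat_lit 365) (nat_lit 5) (nat_lit 5) (nat_lit 5) (nat_lit 7) (nat_lit 263) (nat_lit 318) r9_263 r2_318 (nat_lit 0) (nat_lit 0) (nat_lit 0) (nat_lit 0x20056d4f2) (nat_lit 268435456),
  Rx.mk (nat_lit 380) (nat_lit 4) (nat_lit 7) (nat_lit 5) (nat_lit 6) (nat_lit 261) (nat_lit 319) r9_261 r2_319 (nat_lit 9484367) (nat_lit 0) (nat_lit 0) (nat_lit 0x20056d4f2) (nat_lit 277919823),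
  Rx.mk (nat_lit 381) (nat_lit 5) (nat_lit 7) (nat_lit 5) (nat_lit 7) (nat_lit 264) (nat_lit 320) r9_264 r2_320 (nat_lit 0) (nat_lit 0) (nat_lit 0) (nat_lit 0x20056d4f2) (nat_lit 268435456),
  Rx.mk (nat_lit 383) (nat_lit 7) (nat_lit 7) (nat_lit 5) (nat_lit 7) (nat_lit 265) (nat_lit 321) r9_265 r2_321 (nat_lit 0) (nat_lit 0) (nat_lit 0) (nat_lit 0x20056d4f2) (nat_lit 268435456)]
noncomputable def e17_41 : List Rx := [
  Rx.mk (nat_lit 365) (nat_lit 5) (nat_lit 5) (nat_lit 5) (nat_lit 7) (nat_lit 266) (nat_lit 299) r9_266 r9_299 (nat_lit 0) (nat_lit 0) (nat_lit 0) (nat_lit 0x20056d4f2) (nat_lit 268435456)]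
noncomputable def e17_42 : List Rx := [
  Rx.mk (nat_lit 292) (nat_lit 4) (nat_lit 4) (nat_lit 4) (nat_lit 0) (nat_lit 267) (nat_lit 267) r9_267 r9_267 (nat_lit 8095583) (nat_lit 7719308) (nat_lit 8095583) (nat_lit 0xf3675c90) (nat_lit 577723730),
  Rx.mk (nat_lit 293) (nat_lit 5) (nat_lit 4) (nat_lit 4) (nat_lit 1) (nat_lit 274) (nat_lit 268) r9_274 r9_268 (nat_lit 0) (nat_lit 19531753) (nat_lit 9891858) (nat_lit 0x193b5af9e) (nat_lit 413024717),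
  Rx.mk (nat_lit 308) (nat_lit 4) (nat_lit 6) (nat_lit 4) (nat_lit 2) (nat_lit 269) (nat_lit 272) r9_269 r9_272 (nat_lit 9751226) (nat_lit 0) (nat_lit 8284631) (nat_lit 0x1c0f8c89c) (nat_lit 353581463),
  Rx.mk (nat_lit 309) (nat_lit 5) (nat_lit 6) (nat_lit 4) (nat_lit 3) (nat_lit 277) (nat_lit 273) r9_277 r9_273 (nat_lit 0) (nat_lit 0) (nat_lit 9106489) (nat_lit 0x1ff76e05e) (nat_lit 278452445),
  Rx.mk (nat_lit 316) (nat_lit 4) (nat_lit 7) (nat_lit 4) (nat_lit 2) (nat_lit 272) (nat_lit 269) r9_272 r9_269 (nat_lit 8284631) (nat_lit 0) (nat_lit 9751226) (nat_lit 0x1c0f8c89c) (nat_lit 353581463),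
  Rx.mk (nat_lit 317) (nat_lit 5) (nat_lit 7) (nat_lit 4) (nat_lit 3) (nat_lit 280) (nat_lit 270) r9_280 r9_270 (nat_lit 0) (nat_lit 0) (nat_lit 9158274) (nat_lit 0x1ff990562) (nat_lit 278365030),
  Rx.mk (nat_lit 319) (nat_lit 7) (nat_lit 7) (nat_lit 4) (nat_lit 3) (nat_lit 283) (nat_lit 271) r9_283 r9_271 (nat_lit 0) (nat_lit 0) (nat_lit 9150602) (nat_lit 0x1fee017f0) (nat_lit 279107408),
  Rx.mk (nat_lit 356) (nat_lit 4) (nat_lit 4) (nat_lit 5) (nat_lit 4) (nat_lit 268) (nat_lit 274) r9_268 r9_274 (nat_lit 9891858) (nat_lit 19531753) (nat_lit 0) (nat_lit 0x193b5af9e) (nat_lit 413024717),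
  Rx.mk (nat_lit 357) (nat_lit 5) (nat_lit 4) (nat_lit 5) (nat_lit 5) (nat_lit 275) (nat_lit 275) r9_275 r9_275 (nat_lit 0) (nat_lit 9484367) (nat_lit 0) (nat_lit 0x20056d4f2) (nat_lit 277919823),
  Rx.mk (nat_lit 365) (nat_lit 5) (nat_lit 5) (nat_lit 5) (nat_lit 7) (nat_lit 276) (nat_lit 276) r9_276 r9_276 (nat_lit 0) (nat_lit 0) (nat_lit 0) (nat_lit 0x20056d4f2) (nat_lit 268435456),
  Rx.mk (nat_lit 372) (nat_lit 4) (nat_lit 6) (nat_lit 5) (nat_lit 6) (nat_lit 270) (nat_lit 280) r9_270 r9_280 (nat_lit 9158274) (nat_lit 0) (nat_lit 0) (nat_lit 0x1ff990562) (nat_lit 278365030),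
  Rx.mk (nat_lit 373) (nat_lit 5) (nat_lit 6) (nat_lit 5) (nat_lit 7) (nat_lit 278) (nat_lit 281) r9_278 r9_281 (nat_lit 0) (nat_lit 0) (nat_lit 0) (nat_lit 0x20056d4f2) (nat_lit 268435456),
  Rx.mk (nat_lit 380) (nat_lit 4) (nat_lit 7) (nat_lit 5) (nat_lit 6) (nat_lit 273) (nat_lit 277) r9_273 r9_277 (nat_lit 9106489) (nat_lit 0) (nat_lit 0) (nat_lit 0x1ff76e05e) (nat_lit 278452445),
  Rx.mk (nat_lit 381) (nat_lit 5) (nat_lit 7) (nat_lit 5) (nat_lit 7) (nat_lit 281) (nat_lit 278) r9_281 r9_278 (nat_lit 0) (nat_lit 0) (nat_lit 0) (nat_lit 0x20056d4f2) (nat_lit 268435456),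
  Rx.mk (nat_lit 383) (nat_lit 7) (nat_lit 7) (nat_lit 5) (nat_lit 7) (nat_lit 284) (nat_lit 279) r9_284 r9_279 (nat_lit 0) (nat_lit 0) (nat_lit 0) (nat_lit 0x20056d4f2) (nat_lit 268435456),
  Rx.mk (nat_lit 436) (nat_lit 4) (nat_lit 6) (nat_lit 6) (nat_lit 6) (nat_lit 271) (nat_lit 283) r9_271 r9_283 (nat_lit 9150602) (nat_lit 0) (nat_lit 0) (nat_lit 0x1fee017f0) (nat_lit 279107408),
  Rx.mk (nat_lit 437) (nat_lit 5) (nat_lit 6) (nat_lit 6) (nat_lit 7) (nat_lit 279) (nat_lit 284) r9_279 r9_284 (nat_lit 0) (nat_lit 0) (nat_lit 0) (nat_lit 0x20056d4f2) (nat_lit 268435456),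
  Rx.mk (nat_lit 438) (nat_lit 6) (nat_lit 6) (nat_lit 6) (nat_lit 7) (nat_lit 282) (nat_lit 285) r9_282 r9_285 (nat_lit 0) (nat_lit 0) (nat_lit 0) (nat_lit 0x20056d4f2) (nat_lit 268435456),
  Rx.mk (nat_lit 511) (nat_lit 7) (nat_lit 7) (nat_lit 7) (nat_lit 7) (nat_lit 285) (nat_lit 282) r9_285 r9_282 (nat_lit 0) (nat_lit 0) (nat_lit 0) (nat_lit 0x20056d4f2) (nat_lit 268435456)]
noncomputable def e17_43 : List Rx := [
  Rx.mk (nat_lit 357) (nat_lit 5) (nat_lit 4) (nat_lit 5) (nat_lit 5) (nat_lit 286) (nat_lit 290) r9_286 r1_290 (nat_lit 0) (nat_lit 9484367) (nat_lit 0) (nat_lit 0x20040cf68) (nat_lit 278009223),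
  Rx.mk (nat_lit 365) (nat_lit 5) (nat_lit 5) (nat_lit 5) (nat_lit 7) (nat_lit 287) (nat_lit 291) r9_287 r1_291 (nat_lit 0) (nat_lit 0) (nat_lit 0) (nat_lit 0x20056d4f2) (nat_lit 268435456),
  Rx.mk (nat_lit 381) (nat_lit 5) (nat_lit 7) (nat_lit 5) (nat_lit 7) (nat_lit 288) (nat_lit 292) r9_288 r1_292 (nat_lit 0) (nat_lit 0) (nat_lit 0) (nat_lit 0x20056d4f2) (nat_lit 268435456)]
noncomputable def e17_44 : List Rx := [
  Rx.mk (nat_lit 365) (nat_lit 5) (nat_lit 5) (nat_lit 5) (nat_lit 7) (nat_lit 289) (nat_lit 326) r9_289 r8_326 (nat_lit 0) (nat_lit 0) (nat_lit 0) (nat_lit 0x20056d4f2) (nat_lit 268435456)]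
noncomputable def e17_45 : List Rx := [
  Rx.mk (nat_lit 73) (nat_lit 1) (nat_lit 1) (nat_lit 1) (nat_lit 7) (nat_lit 292) (nat_lit 289) r9_292 r1_289 (nat_lit 0) (nat_lit 0) (nat_lit 0) (nat_lit 0x20056d4f2) (nat_lit 268435456),
  Rx.mk (nat_lit 105) (nat_lit 1) (nat_lit 5) (nat_lit 1) (nat_lit 7) (nat_lit 291) (nat_lit 288) r9_291 r1_288 (nat_lit 0) (nat_lit 0) (nat_lit 0) (nat_lit 0x20056d4f2) (nat_lit 268435456),
  Rx.mk (nat_lit 361) (nat_lit 1) (nat_lit 5) (nat_lit 5) (nat_lit 7) (nat_lit 290) (nat_lit 287) r9_290 r1_287 (nat_lit 0) (nat_lit 0) (nat_lit 0) (nat_lit 0x20056d4f2) (nat_lit 268435456)]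
noncomputable def e17_46 : List Rx := [
  Rx.mk (nat_lit 73) (nat_lit 1) (nat_lit 1) (nat_lit 1) (nat_lit 7) (nat_lit 293) (nat_lit 315) r9_293 r2_315 (nat_lit 0) (nat_lit 0) (nat_lit 0) (nat_lit 0x20056d4f2) (nat_lit 268435456)]
noncomputable def e17_47 : List Rx := [
  Rx.mk (nat_lit 73) (nat_lit 1) (nat_lit 1) (nat_lit 1) (nat_lit 7) (nat_lit 297) (nat_lit 327) r9_297 r8_327 (nat_lit 0) (nat_lit 0) (nat_lit 0) (nat_lit 0x20056d4f2) (nat_lit 268435456),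
  Rx.mk (nat_lit 105) (nat_lit 1) (nat_lit 5) (nat_lit 1) (nat_lit 7) (nat_lit 296) (nat_lit 328) r9_296 r8_328 (nat_lit 0) (nat_lit 0) (nat_lit 0) (nat_lit 0x20056d4f2) (nat_lit 268435456),
  Rx.mk (nat_lit 361) (nat_lit 1) (nat_lit 5) (nat_lit 5) (nat_lit 7) (nat_lit 295) (nat_lit 329) r9_295 r8_329 (nat_lit 0) (nat_lit 0) (nat_lit 0) (nat_lit 0x20056d4f2) (nat_lit 268435456),
  Rx.mk (nat_lit 365) (nat_lit 5) (nat_lit 5) (nat_lit 5) (nat_lit 7) (nat_lit 294) (nat_lit 330) r9_294 r8_330 (nat_lit 0) (nat_lit 0) (nat_lit 0) (nat_lit 0x20056d4f2) (nat_lit 268435456)]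
noncomputable def e17_48 : List Rx := [
  Rx.mk (nat_lit 73) (nat_lit 1) (nat_lit 1) (nat_lit 1) (nat_lit 7) (nat_lit 298) (nat_lit 298) r9_298 r9_298 (nat_lit 0) (nat_lit 0) (nat_lit 0) (nat_lit 0x20056d4f2) (nat_lit 268435456)]
noncomputable def e17_49 : List Rx := [
  Rx.mk (nat_lit 73) (nat_lit 1) (nat_lit 1) (nat_lit 1) (nat_lit 7) (nat_lit 299) (nat_lit 266) r9_299 r9_266 (nat_lit 0) (nat_lit 0) (nat_lit 0) (nat_lit 0x20056d4f2) (nat_lit 268435456)]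
noncomputable def e17_50 : List Rx := [
  Rx.mk (nat_lit 97) (nat_lit 1) (nat_lit 4) (nat_lit 1) (nat_lit 5) (nat_lit 301) (nat_lit 293) r9_301 r3_293 (nat_lit 0) (nat_lit 2180464) (nat_lit 0) (nat_lit 0x1abe29a28) (nat_lit 360047770),
  Rx.mk (nat_lit 105) (nat_lit 1) (nat_lit 5) (nat_lit 1) (nat_lit 7) (nat_lit 303) (nat_lit 294) r9_303 r3_294 (nat_lit 0) (nat_lit 0) (nat_lit 0) (nat_lit 0x1fa677632) (nat_lit 274633106),
  Rx.mk (nat_lit 353) (nat_lit 1) (nat_lit 4) (nat_lit 5) (nat_lit 5) (nat_lit 300) (nat_lit 290) r9_300 r3_290 (nat_lit 0) (nat_lit 3934395) (nat_lit 0) (nat_lit 0x1b0908300) (nat_lit 356844751),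
  Rx.mk (nat_lit 361) (nat_lit 1) (nat_lit 5) (nat_lit 5) (nat_lit 7) (nat_lit 302) (nat_lit 291) r9_302 r3_291 (nat_lit 0) (nat_lit 0) (nat_lit 0) (nat_lit 0x1f6993bc6) (nat_lit 278654156),
  Rx.mk (nat_lit 377) (nat_lit 1) (nat_lit 7) (nat_lit 5) (nat_lit 7) (nat_lit 304) (nat_lit 292) r9_304 r3_292 (nat_lit 0) (nat_lit 0) (nat_lit 0) (nat_lit 0x1ea8c6498) (nat_lit 291407606)]
noncomputable def e17_51 : List Rx := [
  Rx.mk (nat_lit 105) (nat_lit 1) (nat_lit 5) (nat_lit 1) (nat_lit 7) (nat_lit 306) (nat_lit 308) r9_306 r4_308 (nat_lit 0) (nat_lit 0) (nat_lit 0) (nat_lit 0x20056d4f2) (nat_lit 268435456),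
  Rx.mk (nat_lit 361) (nat_lit 1) (nat_lit 5) (nat_lit 5) (nat_lit 7) (nat_lit 305) (nat_lit 307) r9_305 r4_307 (nat_lit 0) (nat_lit 0) (nat_lit 0) (nat_lit 0x20056d4f2) (nat_lit 268435456)]
noncomputable def e17_52 : List Rx := [
  Rx.mk (nat_lit 97) (nat_lit 1) (nat_lit 4) (nat_lit 1) (nat_lit 5) (nat_lit 307) (nat_lit 287) r9_307 r5_287 (nat_lit 0) (nat_lit 26900729) (nat_lit 0) (nat_lit 0x1c0eabcac) (nat_lit 362504735),
  Rx.mk (nat_lit 105) (nat_lit 1) (nat_lit 5) (nat_lit 1) (nat_lit 7) (nat_lit 308) (nat_lit 288) r9_308 r5_288 (nat_lit 0) (nat_lit 0) (nat_lit 0) (nat_lit 0x20056d4f2) (nat_lit 268435456),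
  Rx.mk (nat_lit 121) (nat_lit 1) (nat_lit 7) (nat_lit 1) (nat_lit 7) (nat_lit 310) (nat_lit 289) r9_310 r5_289 (nat_lit 0) (nat_lit 0) (nat_lit 0) (nat_lit 0x20056d4f2) (nat_lit 268435456),
  Rx.mk (nat_lit 377) (nat_lit 1) (nat_lit 7) (nat_lit 5) (nat_lit 7) (nat_lit 309) (nat_lit 286) r9_309 r5_286 (nat_lit 0) (nat_lit 0) (nat_lit 0) (nat_lit 0x20056d4f2) (nat_lit 268435456)]
noncomputable def e17_53 : List Rx := [
  Rx.mk (nat_lit 97) (nat_lit 1) (nat_lit 4) (nat_lit 1) (nat_lit 5) (nat_lit 313) (nat_lit 309) r9_313 r4_309 (nat_lit 0) (nat_lit 18508221) (nat_lit 0) (nat_lit 0x1ef01d652) (nat_lit 305203127),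
  Rx.mk (nat_lit 105) (nat_lit 1) (nat_lit 5) (nat_lit 1) (nat_lit 7) (nat_lit 315) (nat_lit 311) r9_315 r4_311 (nat_lit 0) (nat_lit 0) (nat_lit 0) (nat_lit 0x20056d4f2) (nat_lit 268435456),
  Rx.mk (nat_lit 353) (nat_lit 1) (nat_lit 4) (nat_lit 5) (nat_lit 5) (nat_lit 312) (nat_lit 310) r9_312 r4_310 (nat_lit 0) (nat_lit 12402929) (nat_lit 0) (nat_lit 0x1fa0379e8) (nat_lit 287453885),
  Rx.mk (nat_lit 361) (nat_lit 1) (nat_lit 5) (nat_lit 5) (nat_lit 7) (nat_lit 314) (nat_lit 312) r9_314 r4_312 (nat_lit 0) (nat_lit 0) (nat_lit 0) (nat_lit 0x20056d4f2) (nat_lit 268435456),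
  Rx.mk (nat_lit 377) (nat_lit 1) (nat_lit 7) (nat_lit 5) (nat_lit 7) (nat_lit 316) (nat_lit 313) r9_316 r4_313 (nat_lit 0) (nat_lit 0) (nat_lit 0) (nat_lit 0x20056d4f2) (nat_lit 268435456),
  Rx.mk (nat_lit 381) (nat_lit 5) (nat_lit 7) (nat_lit 5) (nat_lit 7) (nat_lit 311) (nat_lit 314) r9_311 r4_314 (nat_lit 0) (nat_lit 0) (nat_lit 0) (nat_lit 0x20056d4f2) (nat_lit 268435456)]
noncomputable def e17_54 : List Rx := [
  Rx.mk (nat_lit 105) (nat_lit 1) (nat_lit 5) (nat_lit 1) (nat_lit 7) (nat_lit 318) (nat_lit 330) r9_318 r10_330 (nat_lit 0) (nat_lit 0) (nat_lit 0) (nat_lit 0x20056d4f2) (nat_lit 268435456),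
  Rx.mk (nat_lit 361) (nat_lit 1) (nat_lit 5) (nat_lit 5) (nat_lit 7) (nat_lit 317) (nat_lit 329) r9_317 r10_329 (nat_lit 0) (nat_lit 0) (nat_lit 0) (nat_lit 0x20056d4f2) (nat_lit 268435456)]
noncomputable def e17_55 : List Rx := [
  Rx.mk (nat_lit 97) (nat_lit 1) (nat_lit 4) (nat_lit 1) (nat_lit 5) (nat_lit 320) (nat_lit 347) r9_320 r11_347 (nat_lit 0) (nat_lit 15744812) (nat_lit 0) (nat_lit 0x1f37b9100) (nat_lit 297678618),
  Rx.mk (nat_lit 105) (nat_lit 1) (nat_lit 5) (nat_lit 1) (nat_lit 7) (nat_lit 321) (nat_lit 348) r9_321 r11_348 (nat_lit 0) (nat_lit 0) (nat_lit 0) (nat_lit 0x20056d4f2) (nat_lit 268435456),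
  Rx.mk (nat_lit 121) (nat_lit 1) (nat_lit 7) (nat_lit 1) (nat_lit 7) (nat_lit 323) (nat_lit 349) r9_323 r11_349 (nat_lit 0) (nat_lit 0) (nat_lit 0) (nat_lit 0x20056d4f2) (nat_lit 268435456),
  Rx.mk (nat_lit 377) (nat_lit 1) (nat_lit 7) (nat_lit 5) (nat_lit 7) (nat_lit 322) (nat_lit 346) r9_322 r11_346 (nat_lit 0) (nat_lit 0) (nat_lit 0) (nat_lit 0x20056d4f2) (nat_lit 268435456),
  Rx.mk (nat_lit 381) (nat_lit 5) (nat_lit 7) (nat_lit 5) (nat_lit 7) (nat_lit 319) (nat_lit 345) r9_319 r11_345 (nat_lit 0) (nat_lit 0) (nat_lit 0) (nat_lit 0x20056d4f2) (nat_lit 268435456)]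
noncomputable def e17_56 : List Rx := [
  Rx.mk (nat_lit 353) (nat_lit 1) (nat_lit 4) (nat_lit 5) (nat_lit 5) (nat_lit 324) (nat_lit 290) r9_324 r5_290 (nat_lit 0) (nat_lit 9484367) (nat_lit 0) (nat_lit 0x20056d4f2) (nat_lit 277919823),
  Rx.mk (nat_lit 361) (nat_lit 1) (nat_lit 5) (nat_lit 5) (nat_lit 7) (nat_lit 325) (nat_lit 291) r9_325 r5_291 (nat_lit 0) (nat_lit 0) (nat_lit 0) (nat_lit 0x20056d4f2) (nat_lit 268435456),
  Rx.mk (nat_lit 377) (nat_lit 1) (nat_lit 7) (nat_lit 5) (nat_lit 7) (nat_lit 326) (nat_lit 292) r9_326 r5_292 (nat_lit 0) (nat_lit 0) (nat_lit 0) (nat_lit 0x20056d4f2) (nat_lit 268435456)]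
noncomputable def e17_57 : List Rx := [
  Rx.mk (nat_lit 361) (nat_lit 1) (nat_lit 5) (nat_lit 5) (nat_lit 7) (nat_lit 327) (nat_lit 350) r9_327 r11_350 (nat_lit 0) (nat_lit 0) (nat_lit 0) (nat_lit 0x20056d4f2) (nat_lit 268435456)]
noncomputable def e17 : List (List Rx) := [e17_0, e17_1, e17_2, e17_3, e17_4, e17_5, e17_6, e17_7, e17_8, e17_9, e17_10, e17_11, e17_12, e17_13, e17_14, e17_15, e17_16, e17_17, e17_18, e17_19, e17_20, e17_21, e17_22, e17_23, e17_24, e17_25, e17_26, e17_27, e17_28, e17_29, e17_30, e17_31, e17_32, e17_33, e17_34, e17_35, e17_36, e17_37, e17_38, e17_39, e17_40, e17_41, e17_42, e17_43, e17_44, e17_45, e17_46, e17_47, e17_48, e17_49, e17_50, e17_51, e17_52, e17_53, e17_54, e17_55, e17_56, e17_57]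

end Pool.Agent.AKXS_36_42_VA
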