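import Pool.Agent.AKXS_36_42_VA.R0
import Pool.Agent.AKXS_36_42_VA.R1
import Pool.Agent.AKXS_36_42_VA.R2
import Pool.Agent.AKXS_36_42_VA.R3
import Pool.Agent.AKXS_36_42_VA.R4
import Pool.Agent.AKXS_36_42_VA.R5
import Pool.Agent.AKXS_36_42_VA.R6
import Pool.Agent.AKXS_36_42_VA.R7
import Pool.Agent.AKXS_36_42_VA.R8
import Pool.Agent.AKXS_36_42_VA.R9
import Pool.Agent.AKXS_36_42_VA.R10
import Pool.Agent.AKXS_36_42_VA.R11
import Pool.Agent.AKXS_36_42_VA.R12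

set_option autoImplicit false

namespace Pool.Agent.AKXS_36_42_VA

open Pool.Agent.AKX Pool.Agent.AKU

noncomputable def e18_0 : List Rx := [
  Rx.mk (nat_lit 2) (nat_lit 2) (nat_lit 0) (nat_lit 0) (nat_lit 1) (nat_lit 93) (nat_lit 142) r4_93 r0_142 (nat_lit 0) (nat_lit 52596454) (nat_lit 59176) (nat_lit 0x18b3f3b46) (nat_lit 445081686),
  Rx.mk (nat_lit 18) (nat_lit 2) (nat_lit 2) (nat_lit 0) (nat_lit 3) (nat_lit 94) (nat_lit 145) r4_94 r0_145 (nat_lit 0) (nat_lit 0) (nat_lit 5249002) (nat_lit 0x1fa57fb76) (nat_lit 279949358),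
  Rx.mk (nat_lit 194) (nat_lit 2) (nat_lit 0) (nat_lit 3) (nat_lit 5) (nat_lit 95) (nat_lit 143) r4_95 r0_143 (nat_lit 0) (nat_lit 33826584) (nat_lit 0) (nat_lit 0x20ad33e2a) (nat_lit 291385790),
  Rx.mk (nat_lit 210) (nat_lit 2) (nat_lit 2) (nat_lit 3) (nat_lit 7) (nat_lit 96) (nat_lit 146) r4_96 r0_146 (nat_lit 0) (nat_lit 0) (nat_lit 0) (nat_lit 0x20711b0e6) (nat_lit 261457706),
  Rx.mk (nat_lit 218) (nat_lit 2) (nat_lit 3) (nat_lit 3) (nat_lit 7) (nat_lit 97) (nat_lit 144) r4_97 r0_144 (nat_lit 0) (nat_lit 0) (nat_lit 0) (nat_lit 0x202be8910) (nat_lit 265932556)]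
noncomputable def e18_1 : List Rx := [
  Rx.mk (nat_lit 2) (nat_lit 2) (nat_lit 0) (nat_lit 0) (nat_lit 1) (nat_lit 107) (nat_lit 154) r4_107 r1_154 (nat_lit 0) (nat_lit 72610807) (nat_lit 3083789) (nat_lit 0x1da7e785c) (nat_lit 384120802),
  Rx.mk (nat_lit 18) (nat_lit 2) (nat_lit 2) (nat_lit 0) (nat_lit 3) (nat_lit 108) (nat_lit 158) r4_108 r1_158 (nat_lit 0) (nat_lit 0) (nat_lit 5176119) (nat_lit 0x1fab3b772) (nat_lit 279503175),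
  Rx.mk (nat_lit 66) (nat_lit 2) (nat_lit 0) (nat_lit 1) (nat_lit 5) (nat_lit 109) (nat_lit 155) r4_109 r1_155 (nat_lit 0) (nat_lit 10426591) (nat_lit 0) (nat_lit 0x2064ff000) (nat_lit 272663397),
  Rx.mk (nat_lit 82) (nat_lit 2) (nat_lit 2) (nat_lit 1) (nat_lit 7) (nat_lit 110) (nat_lit 159) r4_110 r1_159 (nat_lit 0) (nat_lit 0) (nat_lit 0) (nat_lit 0x207453f38) (nat_lit 261249556),
  Rx.mk (nat_lit 194) (nat_lit 2) (nat_lit 0) (nat_lit 3) (nat_lit 5) (nat_lit 111) (nat_lit 156) r4_111 r1_156 (nat_lit 0) (nat_lit 12447961) (nat_lit 0) (nat_lit 0x209304a72) (nat_lit 271717417),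
  Rx.mk (nat_lit 210) (nat_lit 2) (nat_lit 2) (nat_lit 3) (nat_lit 7) (nat_lit 112) (nat_lit 160) r4_112 r1_160 (nat_lit 0) (nat_lit 0) (nat_lit 0) (nat_lit 0x20610c45c) (nat_lit 262493306),
  Rx.mk (nat_lit 218) (nat_lit 2) (nat_lit 3) (nat_lit 3) (nat_lit 7) (nat_lit 113) (nat_lit 157) r4_113 r1_157 (nat_lit 0) (nat_lit 0) (nat_lit 0) (nat_lit 0x20056d4f2) (nat_lit 268435456)]
noncomputable def e18_2 : List Rx := [
  Rx.mk (nat_lit 66) (nat_lit 2) (nat_lit 0) (nat_lit 1) (nat_lit 5) (nat_lit 271) (nat_lit 158) r4_271 r2_158 (nat_lit 0) (nat_lit 7861388) (nat_lit 0) (nat_lit 0x2023bea32) (nat_lit 274324344),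
  Rx.mk (nat_lit 82) (nat_lit 2) (nat_lit 2) (nat_lit 1) (nat_lit 7) (nat_lit 272) (nat_lit 159) r4_272 r2_159 (nat_lit 0) (nat_lit 0) (nat_lit 0) (nat_lit 0x20204deac) (nat_lit 266687006)]
noncomputable def e18_3 : List Rx := [
  Rx.mk (nat_lit 194) (nat_lit 2) (nat_lit 0) (nat_lit 3) (nat_lit 5) (nat_lit 31) (nat_lit 129) r4_31 r3_129 (nat_lit 0) (nat_lit 3923) (nat_lit 0) (nat_lit 0x1fffa06be) (nat_lit 268464529),
  Rx.mk (nat_lit 210) (nat_lit 2) (nat_lit 2) (nat_lit 3) (nat_lit 7) (nat_lit 32) (nat_lit 132) r4_32 r3_132 (nat_lit 0) (nat_lit 0) (nat_lit 0) (nat_lit 0x1f5ce7486) (nat_lit 279471956),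
  Rx.mk (nat_lit 218) (nat_lit 2) (nat_lit 3) (nat_lit 3) (nat_lit 7) (nat_lit 33) (nat_lit 130) r4_33 r3_130 (nat_lit 0) (nat_lit 0) (nat_lit 0) (nat_lit 0x21acbc90a) (nat_lit 241200006),
  Rx.mk (nat_lit 315) (nat_lit 3) (nat_lit 7) (nat_lit 4) (nat_lit 3) (nat_lit 34) (nat_lit 126) r4_34 r3_126 (nat_lit 0) (nat_lit 0) (nat_lit 151800) (nat_lit 0x204bed6a2) (nat_lit 263787856),
  Rx.mk (nat_lit 443) (nat_lit 3) (nat_lit 7) (nat_lit 6) (nat_lit 7) (nat_lit 35) (nat_lit 128) r4_35 r3_128 (nat_lit 0) (nat_lit 0) (nat_lit 0) (nat_lit 0x204c425b2) (nat_lit 263570306),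
  Rx.mk (nat_lit 472) (nat_lit 0) (nat_lit 3) (nat_lit 7) (nat_lit 6) (nat_lit 36) (nat_lit 124) r4_36 r3_124 (nat_lit 119145) (nat_lit 0) (nat_lit 0) (nat_lit 0x21ea15248) (nat_lit 237264301),
  Rx.mk (nat_lit 474) (nat_lit 2) (nat_lit 3) (nat_lit 7) (nat_lit 7) (nat_lit 37) (nat_lit 131) r4_37 r3_131 (nat_lit 0) (nat_lit 0) (nat_lit 0) (nat_lit 0x2266fa790) (nat_lit 229274756),
  Rx.mk (nat_lit 475) (nat_lit 3) (nat_lit 3) (nat_lit 7) (nat_lit 7) (nat_lit 38) (nat_lit 125) r4_38 r3_125 (nat_lit 0) (nat_lit 0) (nat_lit 0) (nat_lit 0x2057f959a) (nat_lit 263075056),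
  Rx.mk (nat_lit 507) (nat_lit 3) (nat_lit 7) (nat_lit 7) (nat_lit 7) (nat_lit 39) (nat_lit 127) r4_39 r3_127 (nat_lit 0) (nat_lit 0) (nat_lit 0) (nat_lit 0x201ac44a4) (nat_lit 267031306)]
noncomputable def e18_4 : List Rx := [
  Rx.mk (nat_lit 194) (nat_lit 2) (nat_lit 0) (nat_lit 3) (nat_lit 5) (nat_lit 131) (nat_lit 131) r4_131 r4_131 (nat_lit 0) (nat_lit 91562274) (nat_lit 0) (nat_lit 0x20bd52a90) (nat_lit 348050580),
  Rx.mk (nat_lit 210) (nat_lit 2) (nat_lit 2) (nat_lit 3) (nat_lit 7) (nat_lit 132) (nat_lit 133) r4_132 r4_133 (nat_lit 0) (nat_lit 0) (nat_lit 0) (nat_lit 0x201813200) (nat_lit 267212806),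
  Rx.mk (nat_lit 218) (nat_lit 2) (nat_lit 3) (nat_lit 3) (nat_lit 7) (nat_lit 133) (nat_lit 132) r4_133 r4_132 (nat_lit 0) (nat_lit 0) (nat_lit 0) (nat_lit 0x201813200) (nat_lit 267212806)]
noncomputable def e18_5 : List Rx := [
  Rx.mk (nat_lit 194) (nat_lit 2) (nat_lit 0) (nat_lit 3) (nat_lit 5) (nat_lit 195) (nat_lit 130) r4_195 r5_130 (nat_lit 0) (nat_lit 35171213) (nat_lit 0) (nat_lit 0x1fbe12a9e) (nat_lit 308019369),
  Rx.mk (nat_lit 210) (nat_lit 2) (nat_lit 2) (nat_lit 3) (nat_lit 7) (nat_lit 196) (nat_lit 133) r4_196 r5_133 (nat_lit 0) (nat_lit 0) (nat_lit 0) (nat_lit 0x1fd3566ee) (nat_lit 271687156),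
  Rx.mk (nat_lit 283) (nat_lit 3) (nat_lit 3) (nat_lit 4) (nat_lit 3) (nat_lit 197) (nat_lit 126) r4_197 r5_126 (nat_lit 0) (nat_lit 0) (nat_lit 4028635) (nat_lit 0x1ef2a41be) (nat_lit 290539191),
  Rx.mk (nat_lit 315) (nat_lit 3) (nat_lit 7) (nat_lit 4) (nat_lit 3) (nat_lit 198) (nat_lit 128) r4_198 r5_128 (nat_lit 0) (nat_lit 0) (nat_lit 3429448) (nat_lit 0x1ecf9e836) (nat_lit 292245754),
  Rx.mk (nat_lit 443) (nat_lit 3) (nat_lit 7) (nat_lit 6) (nat_lit 7) (nat_lit 199) (nat_lit 129) r4_199 r5_129 (nat_lit 0) (nat_lit 0) (nat_lit 0) (nat_lit 0x20506a536) (nat_lit 263520456),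
  Rx.mk (nat_lit 448) (nat_lit 0) (nat_lit 0) (nat_lit 7) (nat_lit 4) (nat_lit 200) (nat_lit 124) r4_200 r5_124 (nat_lit 14824) (nat_lit 22730) (nat_lit 0) (nat_lit 0x1b6eb0298) (nat_lit 346080460),
  Rx.mk (nat_lit 450) (nat_lit 2) (nat_lit 0) (nat_lit 7) (nat_lit 5) (nat_lit 201) (nat_lit 131) r4_201 r5_131 (nat_lit 0) (nat_lit 2626709) (nat_lit 0) (nat_lit 0x20411bf30) (nat_lit 267138965),
  Rx.mk (nat_lit 472) (nat_lit 0) (nat_lit 3) (nat_lit 7) (nat_lit 6) (nat_lit 202) (nat_lit 125) r4_202 r5_125 (nat_lit 1728695) (nat_lit 0) (nat_lit 0) (nat_lit 0x212646e0c) (nat_lit 251527401),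
  Rx.mk (nat_lit 474) (nat_lit 2) (nat_lit 3) (nat_lit 7) (nat_lit 7) (nat_lit 203) (nat_lit 132) r4_203 r5_132 (nat_lit 0) (nat_lit 0) (nat_lit 0) (nat_lit 0x2164a85ba) (nat_lit 245825906),
  Rx.mk (nat_lit 475) (nat_lit 3) (nat_lit 3) (nat_lit 7) (nat_lit 7) (nat_lit 204) (nat_lit 127) r4_204 r5_127 (nat_lit 0) (nat_lit 0) (nat_lit 0) (nat_lit 0x203895d34) (nat_lit 265111306)]
noncomputable def e18_6 : List Rx := [
  Rx.mk (nat_lit 256) (nat_lit 0) (nat_lit 0) (nat_lit 4) (nat_lit 0) (nat_lit 315) (nat_lit 155) r4_315 r3_155 (nat_lit 263) (nat_lit 409) (nat_lit 362) (nat_lit 0x1c9af6bc6) (nat_lit 326110640),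
  Rx.mk (nat_lit 257) (nat_lit 1) (nat_lit 0) (nat_lit 4) (nat_lit 1) (nat_lit 316) (nat_lit 157) r4_316 r3_157 (nat_lit 0) (nat_lit 3231) (nat_lit 31092297) (nat_lit 0x1ffe32372) (nat_lit 299651134),
  Rx.mk (nat_lit 258) (nat_lit 2) (nat_lit 0) (nat_lit 4) (nat_lit 1) (nat_lit 317) (nat_lit 159) r4_317 r3_159 (nat_lit 0) (nat_lit 39310829) (nat_lit 4117) (nat_lit 0x1ffea47ba) (nat_lit 307841702),
  Rx.mk (nat_lit 280) (nat_lit 0) (nat_lit 3) (nat_lit 4) (nat_lit 2) (nat_lit 318) (nat_lit 161) r4_318 r3_161 (nat_lit 55469) (nat_lit 0) (nat_lit 74883) (nat_lit 0x20163f12c) (nat_lit 267168208),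
  Rx.mk (nat_lit 281) (nat_lit 1) (nat_lit 3) (nat_lit 4) (nat_lit 3) (nat_lit 319) (nat_lit 163) r4_319 r3_163 (nat_lit 0) (nat_lit 0) (nat_lit 3290439) (nat_lit 0x20e059a16) (nat_lit 257589895),
  Rx.mk (nat_lit 282) (nat_lit 2) (nat_lit 3) (nat_lit 4) (nat_lit 3) (nat_lit 320) (nat_lit 165) r4_320 r3_165 (nat_lit 0) (nat_lit 0) (nat_lit 3023494) (nat_lit 0x216d1c69c) (nat_lit 248304500),
  Rx.mk (nat_lit 320) (nat_lit 0) (nat_lit 0) (nat_lit 5) (nat_lit 4) (nat_lit 321) (nat_lit 156) r4_321 r3_156 (nat_lit 28204) (nat_lit 35577) (nat_lit 0) (nat_lit 0x1ffd88a16) (nat_lit 268676087),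
  Rx.mk (nat_lit 321) (nat_lit 1) (nat_lit 0) (nat_lit 5) (nat_lit 5) (nat_lit 322) (nat_lit 158) r4_322 r3_158 (nat_lit 0) (nat_lit 2069679) (nat_lit 0) (nat_lit 0x21a292a24) (nat_lit 243859685),
  Rx.mk (nat_lit 322) (nat_lit 2) (nat_lit 0) (nat_lit 5) (nat_lit 5) (nat_lit 323) (nat_lit 160) r4_323 r3_160 (nat_lit 0) (nat_lit 37160743) (nat_lit 0) (nat_lit 0x247de0c14) (nat_lit 232184949),
  Rx.mk (nat_lit 344) (nat_lit 0) (nat_lit 3) (nat_lit 5) (nat_lit 6) (nat_lit 324) (nat_lit 162) r4_324 r3_162 (nat_lit 842510) (nat_lit 0) (nat_lit 0) (nat_lit 0x23ced7cd6) (nat_lit 207079016),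
  Rx.mk (nat_lit 345) (nat_lit 1) (nat_lit 3) (nat_lit 5) (nat_lit 7) (nat_lit 325) (nat_lit 164) r4_325 r3_164 (nat_lit 0) (nat_lit 0) (nat_lit 0) (nat_lit 0x23a814e14) (nat_lit 208756906),
  Rx.mk (nat_lit 346) (nat_lit 2) (nat_lit 3) (nat_lit 5) (nat_lit 7) (nat_lit 326) (nat_lit 166) r4_326 r3_166 (nat_lit 0) (nat_lit 0) (nat_lit 0) (nat_lit 0x248dd9e36) (nat_lit 194063006)]
noncomputable def e18_7 : List Rx := [
  Rx.mk (nat_lit 320) (nat_lit 0) (nat_lit 0) (nat_lit 5) (nat_lit 4) (nat_lit 262) (nat_lit 174) r4_262 r0_174 (nat_lit 368462) (nat_lit 92582256) (nat_lit 0) (nat_lit 0x1ba8b9034) (nat_lit 435190624),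
  Rx.mk (nat_lit 321) (nat_lit 1) (nat_lit 0) (nat_lit 5) (nat_lit 5) (nat_lit 263) (nat_lit 175) r4_263 r0_175 (nat_lit 0) (nat_lit 37264364) (nat_lit 0) (nat_lit 0x1f17bb394) (nat_lit 321311370),
  Rx.mk (nat_lit 322) (nat_lit 2) (nat_lit 0) (nat_lit 5) (nat_lit 5) (nat_lit 264) (nat_lit 176) r4_264 r0_176 (nat_lit 0) (nat_lit 105491124) (nat_lit 0) (nat_lit 0x1b7455748) (nat_lit 451196430)]
noncomputable def e18_8 : List Rx := [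
  Rx.mk (nat_lit 66) (nat_lit 2) (nat_lit 0) (nat_lit 1) (nat_lit 5) (nat_lit 279) (nat_lit 190) r4_279 r1_190 (nat_lit 0) (nat_lit 82661556) (nat_lit 0) (nat_lit 0x208f77292) (nat_lit 342133062),
  Rx.mk (nat_lit 82) (nat_lit 2) (nat_lit 2) (nat_lit 1) (nat_lit 7) (nat_lit 280) (nat_lit 191) r4_280 r1_191 (nat_lit 0) (nat_lit 0) (nat_lit 0) (nat_lit 0x210b033f2) (nat_lit 251571006),
  Rx.mk (nat_lit 320) (nat_lit 0) (nat_lit 0) (nat_lit 5) (nat_lit 4) (nat_lit 281) (nat_lit 187) r4_281 r1_187 (nat_lit 10054617) (nat_lit 43539697) (nat_lit 0) (nat_lit 0x1c098cc08) (nat_lit 389496620),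
  Rx.mk (nat_lit 321) (nat_lit 1) (nat_lit 0) (nat_lit 5) (nat_lit 5) (nat_lit 282) (nat_lit 188) r4_282 r1_188 (nat_lit 0) (nat_lit 9484367) (nat_lit 0) (nat_lit 0x2081e0124) (nat_lit 269861973),
  Rx.mk (nat_lit 322) (nat_lit 2) (nat_lit 0) (nat_lit 5) (nat_lit 5) (nat_lit 283) (nat_lit 189) r4_283 r1_189 (nat_lit 0) (nat_lit 85522058) (nat_lit 0) (nat_lit 0x1eb239b92) (nat_lit 376236714)]
noncomputable def e18_9 : List Rx := [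
  Rx.mk (nat_lit 320) (nat_lit 0) (nat_lit 0) (nat_lit 5) (nat_lit 4) (nat_lit 349) (nat_lit 161) r4_349 r4_161 (nat_lit 2370172) (nat_lit 16814274) (nat_lit 0) (nat_lit 0x1c711fa14) (nat_lit 348210952),
  Rx.mk (nat_lit 321) (nat_lit 1) (nat_lit 0) (nat_lit 5) (nat_lit 5) (nat_lit 350) (nat_lit 162) r4_350 r4_162 (nat_lit 0) (nat_lit 9484367) (nat_lit 0) (nat_lit 0x209c9256c) (nat_lit 268145023),
  Rx.mk (nat_lit 322) (nat_lit 2) (nat_lit 0) (nat_lit 5) (nat_lit 5) (nat_lit 351) (nat_lit 163) r4_351 r4_163 (nat_lit 0) (nat_lit 27108786) (nat_lit 0) (nat_lit 0x208caa712) (nat_lit 286756242),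
  Rx.mk (nat_lit 344) (nat_lit 0) (nat_lit 3) (nat_lit 5) (nat_lit 6) (nat_lit 352) (nat_lit 164) r4_352 r4_164 (nat_lit 3808292) (nat_lit 0) (nat_lit 0) (nat_lit 0x1ed188994) (nat_lit 292490648),
  Rx.mk (nat_lit 345) (nat_lit 1) (nat_lit 3) (nat_lit 5) (nat_lit 7) (nat_lit 353) (nat_lit 165) r4_353 r4_165 (nat_lit 0) (nat_lit 0) (nat_lit 0) (nat_lit 0x2100a3b28) (nat_lit 252236256),
  Rx.mk (nat_lit 346) (nat_lit 2) (nat_lit 3) (nat_lit 5) (nat_lit 7) (nat_lit 354) (nat_lit 166) r4_354 r4_166 (nat_lit 0) (nat_lit 0) (nat_lit 0) (nat_lit 0x20a26e53a) (nat_lit 258270756)]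
noncomputable def e18_10 : List Rx := [
  Rx.mk (nat_lit 280) (nat_lit 0) (nat_lit 3) (nat_lit 4) (nat_lit 2) (nat_lit 229) (nat_lit 129) r4_229 r6_129 (nat_lit 28185) (nat_lit 0) (nat_lit 34287) (nat_lit 0x1dae6e1a8) (nat_lit 307898128),
  Rx.mk (nat_lit 281) (nat_lit 1) (nat_lit 3) (nat_lit 4) (nat_lit 3) (nat_lit 230) (nat_lit 132) r4_230 r6_132 (nat_lit 0) (nat_lit 0) (nat_lit 4940583) (nat_lit 0x207c65776) (nat_lit 265672239),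
  Rx.mk (nat_lit 282) (nat_lit 2) (nat_lit 3) (nat_lit 4) (nat_lit 3) (nat_lit 231) (nat_lit 138) r4_231 r6_138 (nat_lit 0) (nat_lit 0) (nat_lit 4487931) (nat_lit 0x209dd549c) (nat_lit 263067837),
  Rx.mk (nat_lit 283) (nat_lit 3) (nat_lit 3) (nat_lit 4) (nat_lit 3) (nat_lit 232) (nat_lit 134) r4_232 r6_134 (nat_lit 0) (nat_lit 0) (nat_lit 4488278) (nat_lit 0x1fc7820a2) (nat_lit 276951634),
  Rx.mk (nat_lit 315) (nat_lit 3) (nat_lit 7) (nat_lit 4) (nat_lit 3) (nat_lit 233) (nat_lit 135) r4_233 r6_135 (nat_lit 0) (nat_lit 0) (nat_lit 5598281) (nat_lit 0x1e289abde) (nat_lit 305500037),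
  Rx.mk (nat_lit 443) (nat_lit 3) (nat_lit 7) (nat_lit 6) (nat_lit 7) (nat_lit 234) (nat_lit 136) r4_234 r6_136 (nat_lit 0) (nat_lit 0) (nat_lit 0) (nat_lit 0x1fa41fd80) (nat_lit 274732506),
  Rx.mk (nat_lit 448) (nat_lit 0) (nat_lit 0) (nat_lit 7) (nat_lit 4) (nat_lit 235) (nat_lit 128) r4_235 r6_128 (nat_lit 4468) (nat_lit 6730) (nat_lit 0) (nat_lit 0x1dc711886) (nat_lit 306205804),
  Rx.mk (nat_lit 449) (nat_lit 1) (nat_lit 0) (nat_lit 7) (nat_lit 5) (nat_lit 236) (nat_lit 131) r4_236 r6_131 (nat_lit 0) (nat_lit 6773533) (nat_lit 0) (nat_lit 0x2033b14e4) (nat_lit 272200839),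
  Rx.mk (nat_lit 450) (nat_lit 2) (nat_lit 0) (nat_lit 7) (nat_lit 5) (nat_lit 237) (nat_lit 137) r4_237 r6_137 (nat_lit 0) (nat_lit 2212669) (nat_lit 0) (nat_lit 0x2071e303c) (nat_lit 263588475),
  Rx.mk (nat_lit 472) (nat_lit 0) (nat_lit 3) (nat_lit 7) (nat_lit 6) (nat_lit 238) (nat_lit 130) r4_238 r6_130 (nat_lit 1951987) (nat_lit 0) (nat_lit 0) (nat_lit 0x20331c8da) (nat_lit 267370243),
  Rx.mk (nat_lit 473) (nat_lit 1) (nat_lit 3) (nat_lit 7) (nat_lit 7) (nat_lit 239) (nat_lit 133) r4_239 r6_133 (nat_lit 0) (nat_lit 0) (nat_lit 0) (nat_lit 0x2116200aa) (nat_lit 250859506),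
  Rx.mk (nat_lit 474) (nat_lit 2) (nat_lit 3) (nat_lit 7) (nat_lit 7) (nat_lit 240) (nat_lit 139) r4_240 r6_139 (nat_lit 0) (nat_lit 0) (nat_lit 0) (nat_lit 0x212e4ad7e) (nat_lit 249311106)]
noncomputable def e18_11 : List Rx := [
  Rx.mk (nat_lit 256) (nat_lit 0) (nat_lit 0) (nat_lit 4) (nat_lit 0) (nat_lit 366) (nat_lit 169) r4_366 r5_169 (nat_lit 674726) (nat_lit 2981321) (nat_lit 1351592) (nat_lit 0x1b53851d0) (nat_lit 352950595),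
  Rx.mk (nat_lit 257) (nat_lit 1) (nat_lit 0) (nat_lit 4) (nat_lit 1) (nat_lit 367) (nat_lit 172) r4_367 r5_172 (nat_lit 0) (nat_lit 10414740) (nat_lit 11151044) (nat_lit 0x1ef3ec184) (nat_lit 308008240),
  Rx.mk (nat_lit 258) (nat_lit 2) (nat_lit 0) (nat_lit 4) (nat_lit 1) (nat_lit 368) (nat_lit 174) r4_368 r5_174 (nat_lit 0) (nat_lit 29864572) (nat_lit 3221189) (nat_lit 0x1f4815300) (nat_lit 313919367),
  Rx.mk (nat_lit 280) (nat_lit 0) (nat_lit 3) (nat_lit 4) (nat_lit 2) (nat_lit 369) (nat_lit 177) r4_369 r5_177 (nat_lit 2340078) (nat_lit 0) (nat_lit 3705404) (nat_lit 0x1e55f6bfa) (nat_lit 302920538),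
  Rx.mk (nat_lit 281) (nat_lit 1) (nat_lit 3) (nat_lit 4) (nat_lit 3) (nat_lit 370) (nat_lit 179) r4_370 r5_179 (nat_lit 0) (nat_lit 0) (nat_lit 4809072) (nat_lit 0x205bf4d3e) (nat_lit 267626778),
  Rx.mk (nat_lit 282) (nat_lit 2) (nat_lit 3) (nat_lit 4) (nat_lit 3) (nat_lit 371) (nat_lit 182) r4_371 r5_182 (nat_lit 0) (nat_lit 0) (nat_lit 4740330) (nat_lit 0x2086d7fe2) (nat_lit 264798036),
  Rx.mk (nat_lit 283) (nat_lit 3) (nat_lit 3) (nat_lit 4) (nat_lit 3) (nat_lit 372) (nat_lit 180) r4_372 r5_180 (nat_lit 0) (nat_lit 0) (nat_lit 9484367) (nat_lit 0x1f98f7552) (nat_lit 285019823),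
  Rx.mk (nat_lit 320) (nat_lit 0) (nat_lit 0) (nat_lit 5) (nat_lit 4) (nat_lit 373) (nat_lit 170) r4_373 r5_170 (nat_lit 4532932) (nat_lit 38809431) (nat_lit 0) (nat_lit 0x1fce329ce) (nat_lit 315363169),
  Rx.mk (nat_lit 322) (nat_lit 2) (nat_lit 0) (nat_lit 5) (nat_lit 5) (nat_lit 374) (nat_lit 175) r4_374 r5_175 (nat_lit 0) (nat_lit 16446383) (nat_lit 0) (nat_lit 0x204e043c8) (nat_lit 280156089),
  Rx.mk (nat_lit 344) (nat_lit 0) (nat_lit 3) (nat_lit 5) (nat_lit 6) (nat_lit 375) (nat_lit 178) r4_375 r5_178 (nat_lit 3896666) (nat_lit 0) (nat_lit 0) (nat_lit 0x20b0ba580) (nat_lit 261256572),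
  Rx.mk (nat_lit 346) (nat_lit 2) (nat_lit 3) (nat_lit 5) (nat_lit 7) (nat_lit 376) (nat_lit 183) r4_376 r5_183 (nat_lit 0) (nat_lit 0) (nat_lit 0) (nat_lit 0x2086d6930) (nat_lit 260059156),
  Rx.mk (nat_lit 347) (nat_lit 3) (nat_lit 3) (nat_lit 5) (nat_lit 7) (nat_lit 377) (nat_lit 181) r4_377 r5_181 (nat_lit 0) (nat_lit 0) (nat_lit 0) (nat_lit 0x20274896e) (nat_lit 266232306),
  Rx.mk (nat_lit 448) (nat_lit 0) (nat_lit 0) (nat_lit 7) (nat_lit 4) (nat_lit 378) (nat_lit 171) r4_378 r5_171 (nat_lit 6155268) (nat_lit 9685368) (nat_lit 0) (nat_lit 0x1f20b2376) (nat_lit 299308042),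
  Rx.mk (nat_lit 449) (nat_lit 1) (nat_lit 0) (nat_lit 7) (nat_lit 5) (nat_lit 379) (nat_lit 173) r4_379 r5_173 (nat_lit 0) (nat_lit 9484367) (nat_lit 0) (nat_lit 0x20056d4f2) (nat_lit 277919823),
  Rx.mk (nat_lit 450) (nat_lit 2) (nat_lit 0) (nat_lit 7) (nat_lit 5) (nat_lit 380) (nat_lit 176) r4_380 r5_176 (nat_lit 0) (nat_lit 9484367) (nat_lit 0) (nat_lit 0x209868072) (nat_lit 268412773)]
noncomputable def e18_12 : List Rx := [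
  Rx.mk (nat_lit 18) (nat_lit 2) (nat_lit 2) (nat_lit 0) (nat_lit 3) (nat_lit 0) (nat_lit 58) r4_0 r0_58 (nat_lit 0) (nat_lit 0) (nat_lit 829405) (nat_lit 0x19a9ddf48) (nat_lit 377006311),
  Rx.mk (nat_lit 22) (nat_lit 6) (nat_lit 2) (nat_lit 0) (nat_lit 3) (nat_lit 1) (nat_lit 57) r4_1 r0_57 (nat_lit 0) (nat_lit 0) (nat_lit 4265964) (nat_lit 0x1f7bbe878) (nat_lit 281708970),
  Rx.mk (nat_lit 150) (nat_lit 6) (nat_lit 2) (nat_lit 2) (nat_lit 7) (nat_lit 2) (nat_lit 64) r4_2 r0_64 (nat_lit 0) (nat_lit 0) (nat_lit 0) (nat_lit 0x203c788ac) (nat_lit 264839206),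
  Rx.mk (nat_lit 180) (nat_lit 4) (nat_lit 6) (nat_lit 2) (nat_lit 6) (nat_lit 3) (nat_lit 62) r4_3 r0_62 (nat_lit 4296120) (nat_lit 0) (nat_lit 0) (nat_lit 0x1fd4ab1de) (nat_lit 275890326),
  Rx.mk (nat_lit 182) (nat_lit 6) (nat_lit 6) (nat_lit 2) (nat_lit 7) (nat_lit 4) (nat_lit 63) r4_4 r0_63 (nat_lit 0) (nat_lit 0) (nat_lit 0) (nat_lit 0x206a07ed0) (nat_lit 261913956),
  Rx.mk (nat_lit 194) (nat_lit 2) (nat_lit 0) (nat_lit 3) (nat_lit 5) (nat_lit 5) (nat_lit 59) r4_5 r0_59 (nat_lit 0) (nat_lit 20543778) (nat_lit 0) (nat_lit 0x1ef9c7a5e) (nat_lit 306570734),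
  Rx.mk (nat_lit 210) (nat_lit 2) (nat_lit 2) (nat_lit 3) (nat_lit 7) (nat_lit 6) (nat_lit 61) r4_6 r0_61 (nat_lit 0) (nat_lit 0) (nat_lit 0) (nat_lit 0x1fca5e078) (nat_lit 272247956),
  Rx.mk (nat_lit 218) (nat_lit 2) (nat_lit 3) (nat_lit 3) (nat_lit 7) (nat_lit 7) (nat_lit 60) r4_7 r0_60 (nat_lit 0) (nat_lit 0) (nat_lit 0) (nat_lit 0x1fa57e4c4) (nat_lit 274711106),
  Rx.mk (nat_lit 420) (nat_lit 4) (nat_lit 4) (nat_lit 6) (nat_lit 4) (nat_lit 8) (nat_lit 52) r4_8 r0_52 (nat_lit 911214) (nat_lit 2057600) (nat_lit 0) (nat_lit 0x1b22bcfc6) (nat_lit 354158770),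
  Rx.mk (nat_lit 423) (nat_lit 7) (nat_lit 4) (nat_lit 6) (nat_lit 5) (nat_lit 9) (nat_lit 53) r4_9 r0_53 (nat_lit 0) (nat_lit 17143268) (nat_lit 0) (nat_lit 0x1e42af416) (nat_lit 315309874),
  Rx.mk (nat_lit 436) (nat_lit 4) (nat_lit 6) (nat_lit 6) (nat_lit 6) (nat_lit 10) (nat_lit 55) r4_10 r0_55 (nat_lit 4095836) (nat_lit 0) (nat_lit 0) (nat_lit 0x1fd9b63ea) (nat_lit 275364542),
  Rx.mk (nat_lit 439) (nat_lit 7) (nat_lit 6) (nat_lit 6) (nat_lit 7) (nat_lit 11) (nat_lit 56) r4_11 r0_56 (nat_lit 0) (nat_lit 0) (nat_lit 0) (nat_lit 0x205e5adb2) (nat_lit 262667356),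
  Rx.mk (nat_lit 447) (nat_lit 7) (nat_lit 7) (nat_lit 6) (nat_lit 7) (nat_lit 12) (nat_lit 54) r4_12 r0_54 (nat_lit 0) (nat_lit 0) (nat_lit 0) (nat_lit 0x1d9b5a3be) (nat_lit 309237406)]
noncomputable def e18_13 : List Rx := [
  Rx.mk (nat_lit 2) (nat_lit 2) (nat_lit 0) (nat_lit 0) (nat_lit 1) (nat_lit 98) (nat_lit 175) r4_98 r7_175 (nat_lit 0) (nat_lit 14706363) (nat_lit 2266560) (nat_lit 0x17dee144e) (nat_lit 423669329),
  Rx.mk (nat_lit 18) (nat_lit 2) (nat_lit 2) (nat_lit 0) (nat_lit 3) (nat_lit 99) (nat_lit 178) r4_99 r7_178 (nat_lit 0) (nat_lit 0) (nat_lit 3138540) (nat_lit 0x1e48aaf0a) (nat_lit 300903146),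
  Rx.mk (nat_lit 22) (nat_lit 6) (nat_lit 2) (nat_lit 0) (nat_lit 3) (nat_lit 100) (nat_lit 181) r4_100 r7_181 (nat_lit 0) (nat_lit 0) (nat_lit 5139472) (nat_lit 0x2059555ba) (nat_lit 268128028),
  Rx.mk (nat_lit 150) (nat_lit 6) (nat_lit 2) (nat_lit 2) (nat_lit 7) (nat_lit 101) (nat_lit 182) r4_101 r7_182 (nat_lit 0) (nat_lit 0) (nat_lit 0) (nat_lit 0x20056d4f2) (nat_lit 268435456),
  Rx.mk (nat_lit 180) (nat_lit 4) (nat_lit 6) (nat_lit 2) (nat_lit 6) (nat_lit 102) (nat_lit 180) r4_102 r7_180 (nat_lit 4579434) (nat_lit 0) (nat_lit 0) (nat_lit 0x20687f63a) (nat_lit 266591390),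
  Rx.mk (nat_lit 182) (nat_lit 6) (nat_lit 6) (nat_lit 2) (nat_lit 7) (nat_lit 103) (nat_lit 183) r4_103 r7_183 (nat_lit 0) (nat_lit 0) (nat_lit 0) (nat_lit 0x20056d4f2) (nat_lit 268435456),
  Rx.mk (nat_lit 194) (nat_lit 2) (nat_lit 0) (nat_lit 3) (nat_lit 5) (nat_lit 104) (nat_lit 176) r4_104 r7_176 (nat_lit 0) (nat_lit 16012508) (nat_lit 0) (nat_lit 0x1fe4a6b9c) (nat_lit 286568564),
  Rx.mk (nat_lit 210) (nat_lit 2) (nat_lit 2) (nat_lit 3) (nat_lit 7) (nat_lit 105) (nat_lit 179) r4_105 r7_179 (nat_lit 0) (nat_lit 0) (nat_lit 0) (nat_lit 0x216fc711c) (nat_lit 245117756),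
  Rx.mk (nat_lit 218) (nat_lit 2) (nat_lit 3) (nat_lit 3) (nat_lit 7) (nat_lit 106) (nat_lit 177) r4_106 r7_177 (nat_lit 0) (nat_lit 0) (nat_lit 0) (nat_lit 0x20056d4f2) (nat_lit 268435456)]
noncomputable def e18_14 : List Rx := [
  Rx.mk (nat_lit 150) (nat_lit 6) (nat_lit 2) (nat_lit 2) (nat_lit 7) (nat_lit 13) (nat_lit 57) r4_13 r1_57 (nat_lit 0) (nat_lit 0) (nat_lit 0) (nat_lit 0x209de56bc) (nat_lit 258574406),
  Rx.mk (nat_lit 180) (nat_lit 4) (nat_lit 6) (nat_lit 2) (nat_lit 6) (nat_lit 14) (nat_lit 55) r4_14 r1_55 (nat_lit 4677671) (nat_lit 0) (nat_lit 0) (nat_lit 0x2069dbd26) (nat_lit 266600427),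
  Rx.mk (nat_lit 182) (nat_lit 6) (nat_lit 6) (nat_lit 2) (nat_lit 7) (nat_lit 15) (nat_lit 56) r4_15 r1_56 (nat_lit 0) (nat_lit 0) (nat_lit 0) (nat_lit 0x206888b4a) (nat_lit 262011206),
  Rx.mk (nat_lit 420) (nat_lit 4) (nat_lit 4) (nat_lit 6) (nat_lit 4) (nat_lit 16) (nat_lit 50) r4_16 r1_50 (nat_lit 4415399) (nat_lit 14713705) (nat_lit 0) (nat_lit 0x1df5a2f24) (nat_lit 322395360),
  Rx.mk (nat_lit 423) (nat_lit 7) (nat_lit 4) (nat_lit 6) (nat_lit 5) (nat_lit 17) (nat_lit 51) r4_17 r1_51 (nat_lit 0) (nat_lit 7667538) (nat_lit 0) (nat_lit 0x2056e0442) (nat_lit 270816144),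
  Rx.mk (nat_lit 436) (nat_lit 4) (nat_lit 6) (nat_lit 6) (nat_lit 6) (nat_lit 18) (nat_lit 53) r4_18 r1_53 (nat_lit 4829277) (nat_lit 0) (nat_lit 0) (nat_lit 0x1fc618c5c) (nat_lit 277393433),
  Rx.mk (nat_lit 439) (nat_lit 7) (nat_lit 6) (nat_lit 6) (nat_lit 7) (nat_lit 19) (nat_lit 54) r4_19 r1_54 (nat_lit 0) (nat_lit 0) (nat_lit 0) (nat_lit 0x204cb4824) (nat_lit 263807506),
  Rx.mk (nat_lit 447) (nat_lit 7) (nat_lit 7) (nat_lit 6) (nat_lit 7) (nat_lit 20) (nat_lit 52) r4_20 r1_52 (nat_lit 0) (nat_lit 0) (nat_lit 0) (nat_lit 0x218b1a504) (nat_lit 243353006)]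
noncomputable def e18_15 : List Rx := [
  Rx.mk (nat_lit 150) (nat_lit 6) (nat_lit 2) (nat_lit 2) (nat_lit 7) (nat_lit 125) (nat_lit 147) r4_125 r8_147 (nat_lit 0) (nat_lit 0) (nat_lit 0) (nat_lit 0x20056d4f2) (nat_lit 268435456),
  Rx.mk (nat_lit 180) (nat_lit 4) (nat_lit 6) (nat_lit 2) (nat_lit 6) (nat_lit 126) (nat_lit 146) r4_126 r8_146 (nat_lit 6858864) (nat_lit 0) (nat_lit 0) (nat_lit 0x2021fa62e) (nat_lit 273435420),
  Rx.mk (nat_lit 182) (nat_lit 6) (nat_lit 6) (nat_lit 2) (nat_lit 7) (nat_lit 127) (nat_lit 148) r4_127 r8_148 (nat_lit 0) (nat_lit 0) (nat_lit 0) (nat_lit 0x20056d4f2) (nat_lit 268435456)]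
noncomputable def e18_16 : List Rx := [
  Rx.mk (nat_lit 2) (nat_lit 2) (nat_lit 0) (nat_lit 0) (nat_lit 1) (nat_lit 114) (nat_lit 47) r4_114 r8_47 (nat_lit 0) (nat_lit 11807297) (nat_lit 6982043) (nat_lit 0x1b19f2d78) (nat_lit 370624546),
  Rx.mk (nat_lit 18) (nat_lit 2) (nat_lit 2) (nat_lit 0) (nat_lit 3) (nat_lit 115) (nat_lit 49) r4_115 r8_49 (nat_lit 0) (nat_lit 0) (nat_lit 5122548) (nat_lit 0x20397ba82) (nat_lit 270168654),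
  Rx.mk (nat_lit 22) (nat_lit 6) (nat_lit 2) (nat_lit 0) (nat_lit 3) (nat_lit 116) (nat_lit 48) r4_116 r8_48 (nat_lit 0) (nat_lit 0) (nat_lit 6335143) (nat_lit 0x203ee26e2) (nat_lit 271036899),
  Rx.mk (nat_lit 66) (nat_lit 2) (nat_lit 0) (nat_lit 1) (nat_lit 5) (nat_lit 117) (nat_lit 50) r4_117 r8_50 (nat_lit 0) (nat_lit 9484367) (nat_lit 0) (nat_lit 0x20056d4f2) (nat_lit 277919823),
  Rx.mk (nat_lit 82) (nat_lit 2) (nat_lit 2) (nat_lit 1) (nat_lit 7) (nat_lit 118) (nat_lit 52) r4_118 r8_52 (nat_lit 0) (nat_lit 0) (nat_lit 0) (nat_lit 0x205b17592) (nat_lit 262878656),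
  Rx.mk (nat_lit 86) (nat_lit 6) (nat_lit 2) (nat_lit 1) (nat_lit 7) (nat_lit 119) (nat_lit 51) r4_119 r8_51 (nat_lit 0) (nat_lit 0) (nat_lit 0) (nat_lit 0x2028cb836) (nat_lit 266134506),
  Rx.mk (nat_lit 150) (nat_lit 6) (nat_lit 2) (nat_lit 2) (nat_lit 7) (nat_lit 120) (nat_lit 57) r4_120 r8_57 (nat_lit 0) (nat_lit 0) (nat_lit 0) (nat_lit 0x20056d4f2) (nat_lit 268435456),
  Rx.mk (nat_lit 182) (nat_lit 6) (nat_lit 6) (nat_lit 2) (nat_lit 7) (nat_lit 121) (nat_lit 56) r4_121 r8_56 (nat_lit 0) (nat_lit 0) (nat_lit 0) (nat_lit 0x20056d4f2) (nat_lit 268435456),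
  Rx.mk (nat_lit 194) (nat_lit 2) (nat_lit 0) (nat_lit 3) (nat_lit 5) (nat_lit 122) (nat_lit 53) r4_122 r8_53 (nat_lit 0) (nat_lit 9484367) (nat_lit 0) (nat_lit 0x20056d4f2) (nat_lit 277919823),
  Rx.mk (nat_lit 210) (nat_lit 2) (nat_lit 2) (nat_lit 3) (nat_lit 7) (nat_lit 123) (nat_lit 55) r4_123 r8_55 (nat_lit 0) (nat_lit 0) (nat_lit 0) (nat_lit 0x205b17592) (nat_lit 262878656),
  Rx.mk (nat_lit 218) (nat_lit 2) (nat_lit 3) (nat_lit 3) (nat_lit 7) (nat_lit 124) (nat_lit 54) r4_124 r8_54 (nat_lit 0) (nat_lit 0) (nat_lit 0) (nat_lit 0x20056d4f2) (nat_lit 268435456)]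
noncomputable def e18_17 : List Rx := [
  Rx.mk (nat_lit 66) (nat_lit 2) (nat_lit 0) (nat_lit 1) (nat_lit 5) (nat_lit 276) (nat_lit 133) r4_276 r9_133 (nat_lit 0) (nat_lit 10224750) (nat_lit 0) (nat_lit 0x1ff7ec1c0) (nat_lit 279539206),
  Rx.mk (nat_lit 82) (nat_lit 2) (nat_lit 2) (nat_lit 1) (nat_lit 7) (nat_lit 277) (nat_lit 134) r4_277 r9_134 (nat_lit 0) (nat_lit 0) (nat_lit 0) (nat_lit 0x20056d4f2) (nat_lit 268435456),
  Rx.mk (nat_lit 86) (nat_lit 6) (nat_lit 2) (nat_lit 1) (nat_lit 7) (nat_lit 278) (nat_lit 135) r4_278 r9_135 (nat_lit 0) (nat_lit 0) (nat_lit 0) (nat_lit 0x20056d4f2) (nat_lit 268435456)]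
noncomputable def e18_18 : List Rx := [
  Rx.mk (nat_lit 22) (nat_lit 6) (nat_lit 2) (nat_lit 0) (nat_lit 3) (nat_lit 40) (nat_lit 49) r4_40 r4_49 (nat_lit 0) (nat_lit 0) (nat_lit 11057) (nat_lit 0x1ff068156) (nat_lit 269485363),
  Rx.mk (nat_lit 150) (nat_lit 6) (nat_lit 2) (nat_lit 2) (nat_lit 7) (nat_lit 41) (nat_lit 57) r4_41 r4_57 (nat_lit 0) (nat_lit 0) (nat_lit 0) (nat_lit 0x22ef8862a) (nat_lit 220553406),
  Rx.mk (nat_lit 180) (nat_lit 4) (nat_lit 6) (nat_lit 2) (nat_lit 6) (nat_lit 42) (nat_lit 54) r4_42 r4_54 (nat_lit 7478) (nat_lit 0) (nat_lit 0) (nat_lit 0x1eb3db0d6) (nat_lit 290488534),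
  Rx.mk (nat_lit 182) (nat_lit 6) (nat_lit 6) (nat_lit 2) (nat_lit 7) (nat_lit 43) (nat_lit 56) r4_43 r4_56 (nat_lit 0) (nat_lit 0) (nat_lit 0) (nat_lit 0x2271c3ac8) (nat_lit 228606356),
  Rx.mk (nat_lit 183) (nat_lit 7) (nat_lit 6) (nat_lit 2) (nat_lit 7) (nat_lit 44) (nat_lit 55) r4_44 r4_55 (nat_lit 0) (nat_lit 0) (nat_lit 0) (nat_lit 0x22e200b92) (nat_lit 221423156),
  Rx.mk (nat_lit 194) (nat_lit 2) (nat_lit 0) (nat_lit 3) (nat_lit 5) (nat_lit 45) (nat_lit 50) r4_45 r4_50 (nat_lit 0) (nat_lit 13129) (nat_lit 0) (nat_lit 0x1fb3b6334) (nat_lit 273515835),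
  Rx.mk (nat_lit 210) (nat_lit 2) (nat_lit 2) (nat_lit 3) (nat_lit 7) (nat_lit 46) (nat_lit 53) r4_46 r4_53 (nat_lit 0) (nat_lit 0) (nat_lit 0) (nat_lit 0x1f577a0f2) (nat_lit 279620056),
  Rx.mk (nat_lit 214) (nat_lit 6) (nat_lit 2) (nat_lit 3) (nat_lit 7) (nat_lit 47) (nat_lit 52) r4_47 r4_52 (nat_lit 0) (nat_lit 0) (nat_lit 0) (nat_lit 0x210b4202a) (nat_lit 251546656),
  Rx.mk (nat_lit 218) (nat_lit 2) (nat_lit 3) (nat_lit 3) (nat_lit 7) (nat_lit 48) (nat_lit 51) r4_48 r4_51 (nat_lit 0) (nat_lit 0) (nat_lit 0) (nat_lit 0x224ae41f0) (nat_lit 231084156),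
  Rx.mk (nat_lit 315) (nat_lit 3) (nat_lit 7) (nat_lit 4) (nat_lit 3) (nat_lit 49) (nat_lit 40) r4_49 r4_40 (nat_lit 0) (nat_lit 0) (nat_lit 11057) (nat_lit 0x1ff068156) (nat_lit 269485363),
  Rx.mk (nat_lit 423) (nat_lit 7) (nat_lit 4) (nat_lit 6) (nat_lit 5) (nat_lit 50) (nat_lit 45) r4_50 r4_45 (nat_lit 0) (nat_lit 13129) (nat_lit 0) (nat_lit 0x1fb3b6334) (nat_lit 273515835),
  Rx.mk (nat_lit 439) (nat_lit 7) (nat_lit 6) (nat_lit 6) (nat_lit 7) (nat_lit 51) (nat_lit 48) r4_51 r4_48 (nat_lit 0) (nat_lit 0) (nat_lit 0) (nat_lit 0x224ae41f0) (nat_lit 231084156),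
  Rx.mk (nat_lit 443) (nat_lit 3) (nat_lit 7) (nat_lit 6) (nat_lit 7) (nat_lit 52) (nat_lit 47) r4_52 r4_47 (nat_lit 0) (nat_lit 0) (nat_lit 0) (nat_lit 0x210b4202a) (nat_lit 251546656),
  Rx.mk (nat_lit 447) (nat_lit 7) (nat_lit 7) (nat_lit 6) (nat_lit 7) (nat_lit 53) (nat_lit 46) r4_53 r4_46 (nat_lit 0) (nat_lit 0) (nat_lit 0) (nat_lit 0x1f577a0f2) (nat_lit 279620056),
  Rx.mk (nat_lit 472) (nat_lit 0) (nat_lit 3) (nat_lit 7) (nat_lit 6) (nat_lit 54) (nat_lit 42) r4_54 r4_42 (nat_lit 7478) (nat_lit 0) (nat_lit 0) (nat_lit 0x1eb3db0d6) (nat_lit 290488534),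
  Rx.mk (nat_lit 474) (nat_lit 2) (nat_lit 3) (nat_lit 7) (nat_lit 7) (nat_lit 55) (nat_lit 44) r4_55 r4_44 (nat_lit 0) (nat_lit 0) (nat_lit 0) (nat_lit 0x22e200b92) (nat_lit 221423156),
  Rx.mk (nat_lit 475) (nat_lit 3) (nat_lit 3) (nat_lit 7) (nat_lit 7) (nat_lit 56) (nat_lit 43) r4_56 r4_43 (nat_lit 0) (nat_lit 0) (nat_lit 0) (nat_lit 0x2271c3ac8) (nat_lit 228606356),
  Rx.mk (nat_lit 507) (nat_lit 3) (nat_lit 7) (nat_lit 7) (nat_lit 7) (nat_lit 57) (nat_lit 41) r4_57 r4_41 (nat_lit 0) (nat_lit 0) (nat_lit 0) (nat_lit 0x22ef8862a) (nat_lit 220553406)]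
noncomputable def e18_19 : List Rx := [
  Rx.mk (nat_lit 22) (nat_lit 6) (nat_lit 2) (nat_lit 0) (nat_lit 3) (nat_lit 134) (nat_lit 132) r4_134 r10_132 (nat_lit 0) (nat_lit 0) (nat_lit 5631477) (nat_lit 0x20462ac74) (nat_lit 269859283),
  Rx.mk (nat_lit 150) (nat_lit 6) (nat_lit 2) (nat_lit 2) (nat_lit 7) (nat_lit 135) (nat_lit 134) r4_135 r10_134 (nat_lit 0) (nat_lit 0) (nat_lit 0) (nat_lit 0x20056d4f2) (nat_lit 268435456),
  Rx.mk (nat_lit 180) (nat_lit 4) (nat_lit 6) (nat_lit 2) (nat_lit 6) (nat_lit 136) (nat_lit 130) r4_136 r10_130 (nat_lit 4132596) (nat_lit 0) (nat_lit 0) (nat_lit 0x208057c3a) (nat_lit 264608002),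
  Rx.mk (nat_lit 182) (nat_lit 6) (nat_lit 6) (nat_lit 2) (nat_lit 7) (nat_lit 137) (nat_lit 135) r4_137 r10_135 (nat_lit 0) (nat_lit 0) (nat_lit 0) (nat_lit 0x20056d4f2) (nat_lit 268435456),
  Rx.mk (nat_lit 183) (nat_lit 7) (nat_lit 6) (nat_lit 2) (nat_lit 7) (nat_lit 138) (nat_lit 131) r4_138 r10_131 (nat_lit 0) (nat_lit 0) (nat_lit 0) (nat_lit 0x2035240c4) (nat_lit 265333156),
  Rx.mk (nat_lit 194) (nat_lit 2) (nat_lit 0) (nat_lit 3) (nat_lit 5) (nat_lit 139) (nat_lit 127) r4_139 r10_127 (nat_lit 0) (nat_lit 11521502) (nat_lit 0) (nat_lit 0x1fa406a1a) (nat_lit 286319758),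
  Rx.mk (nat_lit 210) (nat_lit 2) (nat_lit 2) (nat_lit 3) (nat_lit 7) (nat_lit 140) (nat_lit 129) r4_140 r10_129 (nat_lit 0) (nat_lit 0) (nat_lit 0) (nat_lit 0x210872eee) (nat_lit 251737006),
  Rx.mk (nat_lit 214) (nat_lit 6) (nat_lit 2) (nat_lit 3) (nat_lit 7) (nat_lit 141) (nat_lit 133) r4_141 r10_133 (nat_lit 0) (nat_lit 0) (nat_lit 0) (nat_lit 0x203c0a05a) (nat_lit 264886856),
  Rx.mk (nat_lit 218) (nat_lit 2) (nat_lit 3) (nat_lit 3) (nat_lit 7) (nat_lit 142) (nat_lit 128) r4_142 r10_128 (nat_lit 0) (nat_lit 0) (nat_lit 0) (nat_lit 0x20056d4f2) (nat_lit 268435456)]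
noncomputable def e18_20 : List Rx := [
  Rx.mk (nat_lit 194) (nat_lit 2) (nat_lit 0) (nat_lit 3) (nat_lit 5) (nat_lit 205) (nat_lit 131) r4_205 r11_131 (nat_lit 0) (nat_lit 28210373) (nat_lit 0) (nat_lit 0x1fddc38de) (nat_lit 299171679),
  Rx.mk (nat_lit 210) (nat_lit 2) (nat_lit 2) (nat_lit 3) (nat_lit 7) (nat_lit 206) (nat_lit 134) r4_206 r11_134 (nat_lit 0) (nat_lit 0) (nat_lit 0) (nat_lit 0x1ec93f3dc) (nat_lit 289207506),
  Rx.mk (nat_lit 214) (nat_lit 6) (nat_lit 2) (nat_lit 3) (nat_lit 7) (nat_lit 207) (nat_lit 136) r4_207 r11_136 (nat_lit 0) (nat_lit 0) (nat_lit 0) (nat_lit 0x237f3a0e8) (nat_lit 211371706),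
  Rx.mk (nat_lit 283) (nat_lit 3) (nat_lit 3) (nat_lit 4) (nat_lit 3) (nat_lit 208) (nat_lit 127) r4_208 r11_127 (nat_lit 0) (nat_lit 0) (nat_lit 3708070) (nat_lit 0x1fd44c490) (nat_lit 275326226),
  Rx.mk (nat_lit 315) (nat_lit 3) (nat_lit 7) (nat_lit 4) (nat_lit 3) (nat_lit 209) (nat_lit 129) r4_209 r11_129 (nat_lit 0) (nat_lit 0) (nat_lit 5013153) (nat_lit 0x1fa0b627a) (nat_lit 280027459),
  Rx.mk (nat_lit 443) (nat_lit 3) (nat_lit 7) (nat_lit 6) (nat_lit 7) (nat_lit 210) (nat_lit 130) r4_210 r11_130 (nat_lit 0) (nat_lit 0) (nat_lit 0) (nat_lit 0x21ab9bc6a) (nat_lit 241280906),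
  Rx.mk (nat_lit 447) (nat_lit 7) (nat_lit 7) (nat_lit 6) (nat_lit 7) (nat_lit 211) (nat_lit 135) r4_211 r11_135 (nat_lit 0) (nat_lit 0) (nat_lit 0) (nat_lit 0x1fe6f86c0) (nat_lit 270325756),
  Rx.mk (nat_lit 448) (nat_lit 0) (nat_lit 0) (nat_lit 7) (nat_lit 4) (nat_lit 212) (nat_lit 125) r4_212 r11_125 (nat_lit 93913) (nat_lit 114069) (nat_lit 0) (nat_lit 0x18dc77932) (nat_lit 389952488),
  Rx.mk (nat_lit 450) (nat_lit 2) (nat_lit 0) (nat_lit 7) (nat_lit 5) (nat_lit 213) (nat_lit 132) r4_213 r11_132 (nat_lit 0) (nat_lit 4563667) (nat_lit 0) (nat_lit 0x207ee5dde) (nat_lit 265122373),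
  Rx.mk (nat_lit 472) (nat_lit 0) (nat_lit 3) (nat_lit 7) (nat_lit 6) (nat_lit 214) (nat_lit 126) r4_214 r11_126 (nat_lit 2594122) (nat_lit 0) (nat_lit 0) (nat_lit 0x20b7f3572) (nat_lit 259482328),
  Rx.mk (nat_lit 474) (nat_lit 2) (nat_lit 3) (nat_lit 7) (nat_lit 7) (nat_lit 215) (nat_lit 133) r4_215 r11_133 (nat_lit 0) (nat_lit 0) (nat_lit 0) (nat_lit 0x209d63fb8) (nat_lit 258607956),
  Rx.mk (nat_lit 475) (nat_lit 3) (nat_lit 3) (nat_lit 7) (nat_lit 7) (nat_lit 216) (nat_lit 128) r4_216 r11_128 (nat_lit 0) (nat_lit 0) (nat_lit 0) (nat_lit 0x208711c24) (nat_lit 260045256)]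
noncomputable def e18_21 : List Rx := [
  Rx.mk (nat_lit 66) (nat_lit 2) (nat_lit 0) (nat_lit 1) (nat_lit 5) (nat_lit 273) (nat_lit 167) r4_273 r9_167 (nat_lit 0) (nat_lit 9484367) (nat_lit 0) (nat_lit 0x20056d4f2) (nat_lit 277919823),
  Rx.mk (nat_lit 74) (nat_lit 2) (nat_lit 1) (nat_lit 1) (nat_lit 7) (nat_lit 274) (nat_lit 168) r4_274 r9_168 (nat_lit 0) (nat_lit 0) (nat_lit 0) (nat_lit 0x20056d4f2) (nat_lit 268435456),
  Rx.mk (nat_lit 82) (nat_lit 2) (nat_lit 2) (nat_lit 1) (nat_lit 7) (nat_lit 275) (nat_lit 169) r4_275 r9_169 (nat_lit 0) (nat_lit 0) (nat_lit 0) (nat_lit 0x20056d4f2) (nat_lit 268435456)]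
noncomputable def e18_22 : List Rx := [
  Rx.mk (nat_lit 264) (nat_lit 0) (nat_lit 1) (nat_lit 4) (nat_lit 2) (nat_lit 253) (nat_lit 306) r4_253 r0_306 (nat_lit 3903538) (nat_lit 0) (nat_lit 19679101) (nat_lit 0x1db7e0f38) (nat_lit 330963295),
  Rx.mk (nat_lit 265) (nat_lit 1) (nat_lit 1) (nat_lit 4) (nat_lit 3) (nat_lit 254) (nat_lit 307) r4_254 r0_307 (nat_lit 0) (nat_lit 0) (nat_lit 108297310) (nat_lit 0x1ec126d4e) (nat_lit 397937116),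
  Rx.mk (nat_lit 266) (nat_lit 2) (nat_lit 1) (nat_lit 4) (nat_lit 3) (nat_lit 255) (nat_lit 308) r4_255 r0_308 (nat_lit 0) (nat_lit 0) (nat_lit 12077193) (nat_lit 0x1ffd30320) (nat_lit 281032149),
  Rx.mk (nat_lit 320) (nat_lit 0) (nat_lit 0) (nat_lit 5) (nat_lit 4) (nat_lit 256) (nat_lit 309) r4_256 r0_309 (nat_lit 14166006) (nat_lit 8049828) (nat_lit 0) (nat_lit 0x1ae665b5e) (nat_lit 377442740),
  Rx.mk (nat_lit 321) (nat_lit 1) (nat_lit 0) (nat_lit 5) (nat_lit 5) (nat_lit 257) (nat_lit 311) r4_257 r0_311 (nat_lit 0) (nat_lit 10253547) (nat_lit 0) (nat_lit 0x1fe86ff26) (nat_lit 280577553),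
  Rx.mk (nat_lit 322) (nat_lit 2) (nat_lit 0) (nat_lit 5) (nat_lit 5) (nat_lit 258) (nat_lit 313) r4_258 r0_313 (nat_lit 0) (nat_lit 5453470) (nat_lit 0) (nat_lit 0x202795156) (nat_lit 271662226),
  Rx.mk (nat_lit 328) (nat_lit 0) (nat_lit 1) (nat_lit 5) (nat_lit 6) (nat_lit 259) (nat_lit 310) r4_259 r0_310 (nat_lit 8068535) (nat_lit 0) (nat_lit 0) (nat_lit 0x1fcb5274a) (nat_lit 280275941),
  Rx.mk (nat_lit 329) (nat_lit 1) (nat_lit 1) (nat_lit 5) (nat_lit 7) (nat_lit 260) (nat_lit 312) r4_260 r0_312 (nat_lit 0) (nat_lit 0) (nat_lit 0) (nat_lit 0x20469ff42) (nat_lit 264200756),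
  Rx.mk (nat_lit 330) (nat_lit 2) (nat_lit 1) (nat_lit 5) (nat_lit 7) (nat_lit 261) (nat_lit 314) r4_261 r0_314 (nat_lit 0) (nat_lit 0) (nat_lit 0) (nat_lit 0x2018d4ea0) (nat_lit 267171456)]
noncomputable def e18_23 : List Rx := [
  Rx.mk (nat_lit 264) (nat_lit 0) (nat_lit 1) (nat_lit 4) (nat_lit 2) (nat_lit 293) (nat_lit 297) r4_293 r1_297 (nat_lit 7964941) (nat_lit 0) (nat_lit 37486881) (nat_lit 0x1e2447636) (nat_lit 345644678),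
  Rx.mk (nat_lit 265) (nat_lit 1) (nat_lit 1) (nat_lit 4) (nat_lit 3) (nat_lit 294) (nat_lit 298) r4_294 r1_298 (nat_lit 0) (nat_lit 0) (nat_lit 64041447) (nat_lit 0x1ecae2630) (nat_lit 353130703),
  Rx.mk (nat_lit 266) (nat_lit 2) (nat_lit 1) (nat_lit 4) (nat_lit 3) (nat_lit 295) (nat_lit 299) r4_295 r1_299 (nat_lit 0) (nat_lit 0) (nat_lit 9484367) (nat_lit 0x204029028) (nat_lit 274104223),
  Rx.mk (nat_lit 328) (nat_lit 0) (nat_lit 1) (nat_lit 5) (nat_lit 6) (nat_lit 296) (nat_lit 300) r4_296 r1_300 (nat_lit 8498519) (nat_lit 0) (nat_lit 0) (nat_lit 0x2004215b2) (nat_lit 277012825),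
  Rx.mk (nat_lit 329) (nat_lit 1) (nat_lit 1) (nat_lit 5) (nat_lit 7) (nat_lit 297) (nat_lit 301) r4_297 r1_301 (nat_lit 0) (nat_lit 0) (nat_lit 0) (nat_lit 0x203c80264) (nat_lit 264857406),
  Rx.mk (nat_lit 330) (nat_lit 2) (nat_lit 1) (nat_lit 5) (nat_lit 7) (nat_lit 298) (nat_lit 302) r4_298 r1_302 (nat_lit 0) (nat_lit 0) (nat_lit 0) (nat_lit 0x201adc162) (nat_lit 267040306)]
noncomputable def e18_24 : List Rx := [
  Rx.mk (nat_lit 256) (nat_lit 0) (nat_lit 0) (nat_lit 4) (nat_lit 0) (nat_lit 327) (nat_lit 327) r4_327 r4_327 (nat_lit 2329280) (nat_lit 2329280) (nat_lit 13628308) (nat_lit 0x1ada51b10) (nat_lit 374324924),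
  Rx.mk (nat_lit 257) (nat_lit 1) (nat_lit 0) (nat_lit 4) (nat_lit 1) (nat_lit 328) (nat_lit 330) r4_328 r4_330 (nat_lit 0) (nat_lit 2358590) (nat_lit 41605855) (nat_lit 0x1ddb8beba) (nat_lit 348957151),
  Rx.mk (nat_lit 258) (nat_lit 2) (nat_lit 0) (nat_lit 4) (nat_lit 1) (nat_lit 329) (nat_lit 333) r4_329 r4_333 (nat_lit 0) (nat_lit 9702246) (nat_lit 10081816) (nat_lit 0x1ee93239c) (nat_lit 306935668),
  Rx.mk (nat_lit 264) (nat_lit 0) (nat_lit 1) (nat_lit 4) (nat_lit 2) (nat_lit 330) (nat_lit 328) r4_330 r4_328 (nat_lit 2358590) (nat_lit 0) (nat_lit 41605855) (nat_lit 0x1ddb8beba) (nat_lit 348957151),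
  Rx.mk (nat_lit 265) (nat_lit 1) (nat_lit 1) (nat_lit 4) (nat_lit 3) (nat_lit 331) (nat_lit 331) r4_331 r4_331 (nat_lit 0) (nat_lit 0) (nat_lit 10939224) (nat_lit 0x203016320) (nat_lit 276586330),
  Rx.mk (nat_lit 266) (nat_lit 2) (nat_lit 1) (nat_lit 4) (nat_lit 3) (nat_lit 332) (nat_lit 334) r4_332 r4_334 (nat_lit 0) (nat_lit 0) (nat_lit 9484367) (nat_lit 0x2062e149e) (nat_lit 271859423),
  Rx.mk (nat_lit 280) (nat_lit 0) (nat_lit 3) (nat_lit 4) (nat_lit 2) (nat_lit 333) (nat_lit 329) r4_333 r4_329 (nat_lit 9702246) (nat_lit 0) (nat_lit 10081816) (nat_lit 0x1ee93239c) (nat_lit 306935668),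
  Rx.mk (nat_lit 281) (nat_lit 1) (nat_lit 3) (nat_lit 4) (nat_lit 3) (nat_lit 334) (nat_lit 332) r4_334 r4_332 (nat_lit 0) (nat_lit 0) (nat_lit 9484367) (nat_lit 0x2062e149e) (nat_lit 271859423),
  Rx.mk (nat_lit 320) (nat_lit 0) (nat_lit 0) (nat_lit 5) (nat_lit 4) (nat_lit 335) (nat_lit 335) r4_335 r4_335 (nat_lit 12489784) (nat_lit 12489784) (nat_lit 0) (nat_lit 0x1f491d57c) (nat_lit 305785124),
  Rx.mk (nat_lit 321) (nat_lit 1) (nat_lit 0) (nat_lit 5) (nat_lit 5) (nat_lit 336) (nat_lit 338) r4_336 r4_338 (nat_lit 0) (nat_lit 8271951) (nat_lit 0) (nat_lit 0x20169ac70) (nat_lit 275588707),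
  Rx.mk (nat_lit 322) (nat_lit 2) (nat_lit 0) (nat_lit 5) (nat_lit 5) (nat_lit 337) (nat_lit 341) r4_337 r4_341 (nat_lit 0) (nat_lit 7586844) (nat_lit 0) (nat_lit 0x204ffae34) (nat_lit 271180050),
  Rx.mk (nat_lit 328) (nat_lit 0) (nat_lit 1) (nat_lit 5) (nat_lit 6) (nat_lit 338) (nat_lit 336) r4_338 r4_336 (nat_lit 8271951) (nat_lit 0) (nat_lit 0) (nat_lit 0x20169ac70) (nat_lit 275588707),
  Rx.mk (nat_lit 329) (nat_lit 1) (nat_lit 1) (nat_lit 5) (nat_lit 7) (nat_lit 339) (nat_lit 339) r4_339 r4_339 (nat_lit 0) (nat_lit 0) (nat_lit 0) (nat_lit 0x20056d4f2) (nat_lit 268435456),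
  Rx.mk (nat_lit 330) (nat_lit 2) (nat_lit 1) (nat_lit 5) (nat_lit 7) (nat_lit 340) (nat_lit 342) r4_340 r4_342 (nat_lit 0) (nat_lit 0) (nat_lit 0) (nat_lit 0x20056d4f2) (nat_lit 268435456),
  Rx.mk (nat_lit 344) (nat_lit 0) (nat_lit 3) (nat_lit 5) (nat_lit 6) (nat_lit 341) (nat_lit 337) r4_341 r4_337 (nat_lit 7586844) (nat_lit 0) (nat_lit 0) (nat_lit 0x204ffae34) (nat_lit 271180050),
  Rx.mk (nat_lit 345) (nat_lit 1) (nat_lit 3) (nat_lit 5) (nat_lit 7) (nat_lit 342) (nat_lit 340) r4_342 r4_340 (nat_lit 0) (nat_lit 0) (nat_lit 0) (nat_lit 0x20056d4f2) (nat_lit 268435456)]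
noncomputable def e18_25 : List Rx := [
  Rx.mk (nat_lit 320) (nat_lit 0) (nat_lit 0) (nat_lit 5) (nat_lit 4) (nat_lit 265) (nat_lit 223) r4_265 r7_223 (nat_lit 9833742) (nat_lit 11185874) (nat_lit 0) (nat_lit 0x1c93abff6) (nat_lit 347782772),
  Rx.mk (nat_lit 321) (nat_lit 1) (nat_lit 0) (nat_lit 5) (nat_lit 5) (nat_lit 266) (nat_lit 224) r4_266 r7_224 (nat_lit 0) (nat_lit 9484367) (nat_lit 0) (nat_lit 0x20056d4f2) (nat_lit 277919823),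
  Rx.mk (nat_lit 322) (nat_lit 2) (nat_lit 0) (nat_lit 5) (nat_lit 5) (nat_lit 267) (nat_lit 225) r4_267 r7_225 (nat_lit 0) (nat_lit 7262151) (nat_lit 0) (nat_lit 0x202830002) (nat_lit 273435607),
  Rx.mk (nat_lit 328) (nat_lit 0) (nat_lit 1) (nat_lit 5) (nat_lit 6) (nat_lit 268) (nat_lit 226) r4_268 r7_226 (nat_lit 7236911) (nat_lit 0) (nat_lit 0) (nat_lit 0x2024f415e) (nat_lit 273617967),
  Rx.mk (nat_lit 329) (nat_lit 1) (nat_lit 1) (nat_lit 5) (nat_lit 7) (nat_lit 269) (nat_lit 227) r4_269 r7_227 (nat_lit 0) (nat_lit 0) (nat_lit 0) (nat_lit 0x20056d4f2) (nat_lit 268435456),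
  Rx.mk (nat_lit 330) (nat_lit 2) (nat_lit 1) (nat_lit 5) (nat_lit 7) (nat_lit 270) (nat_lit 228) r4_270 r7_228 (nat_lit 0) (nat_lit 0) (nat_lit 0) (nat_lit 0x20056d4f2) (nat_lit 268435456)]
noncomputable def e18_26 : List Rx := [
  Rx.mk (nat_lit 328) (nat_lit 0) (nat_lit 1) (nat_lit 5) (nat_lit 6) (nat_lit 304) (nat_lit 181) r4_304 r8_181 (nat_lit 9015295) (nat_lit 0) (nat_lit 0) (nat_lit 0x1fe14e328) (nat_lit 279801251),
  Rx.mk (nat_lit 329) (nat_lit 1) (nat_lit 1) (nat_lit 5) (nat_lit 7) (nat_lit 305) (nat_lit 182) r4_305 r8_182 (nat_lit 0) (nat_lit 0) (nat_lit 0) (nat_lit 0x20056d4f2) (nat_lit 268435456),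
  Rx.mk (nat_lit 330) (nat_lit 2) (nat_lit 1) (nat_lit 5) (nat_lit 7) (nat_lit 306) (nat_lit 183) r4_306 r8_183 (nat_lit 0) (nat_lit 0) (nat_lit 0) (nat_lit 0x20056d4f2) (nat_lit 268435456)]
noncomputable def e18_27 : List Rx := [
  Rx.mk (nat_lit 66) (nat_lit 2) (nat_lit 0) (nat_lit 1) (nat_lit 5) (nat_lit 284) (nat_lit 338) r4_284 r8_338 (nat_lit 0) (nat_lit 9484367) (nat_lit 0) (nat_lit 0x20056d4f2) (nat_lit 277919823),
  Rx.mk (nat_lit 74) (nat_lit 2) (nat_lit 1) (nat_lit 1) (nat_lit 7) (nat_lit 285) (nat_lit 339) r4_285 r8_339 (nat_lit 0) (nat_lit 0) (nat_lit 0) (nat_lit 0x20056d4f2) (nat_lit 268435456),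
  Rx.mk (nat_lit 82) (nat_lit 2) (nat_lit 2) (nat_lit 1) (nat_lit 7) (nat_lit 286) (nat_lit 340) r4_286 r8_340 (nat_lit 0) (nat_lit 0) (nat_lit 0) (nat_lit 0x20056d4f2) (nat_lit 268435456),
  Rx.mk (nat_lit 320) (nat_lit 0) (nat_lit 0) (nat_lit 5) (nat_lit 4) (nat_lit 287) (nat_lit 341) r4_287 r8_341 (nat_lit 14567528) (nat_lit 12458268) (nat_lit 0) (nat_lit 0x1d73a9072) (nat_lit 338947352),
  Rx.mk (nat_lit 321) (nat_lit 1) (nat_lit 0) (nat_lit 5) (nat_lit 5) (nat_lit 288) (nat_lit 343) r4_288 r8_343 (nat_lit 0) (nat_lit 9484367) (nat_lit 0) (nat_lit 0x20056d4f2) (nat_lit 277919823),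
  Rx.mk (nat_lit 322) (nat_lit 2) (nat_lit 0) (nat_lit 5) (nat_lit 5) (nat_lit 289) (nat_lit 345) r4_289 r8_345 (nat_lit 0) (nat_lit 9484367) (nat_lit 0) (nat_lit 0x20056d4f2) (nat_lit 277919823),
  Rx.mk (nat_lit 328) (nat_lit 0) (nat_lit 1) (nat_lit 5) (nat_lit 6) (nat_lit 290) (nat_lit 342) r4_290 r8_342 (nat_lit 8683363) (nat_lit 0) (nat_lit 0) (nat_lit 0x1fe72858c) (nat_lit 279088869),
  Rx.mk (nat_lit 329) (nat_lit 1) (nat_lit 1) (nat_lit 5) (nat_lit 7) (nat_lit 291) (nat_lit 344) r4_291 r8_344 (nat_lit 0) (nat_lit 0) (nat_lit 0) (nat_lit 0x20056d4f2) (nat_lit 268435456),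
  Rx.mk (nat_lit 330) (nat_lit 2) (nat_lit 1) (nat_lit 5) (nat_lit 7) (nat_lit 292) (nat_lit 346) r4_292 r8_346 (nat_lit 0) (nat_lit 0) (nat_lit 0) (nat_lit 0x20056d4f2) (nat_lit 268435456)]
noncomputable def e18_28 : List Rx := [
  Rx.mk (nat_lit 320) (nat_lit 0) (nat_lit 0) (nat_lit 5) (nat_lit 4) (nat_lit 355) (nat_lit 175) r4_355 r10_175 (nat_lit 9177885) (nat_lit 11803392) (nat_lit 0) (nat_lit 0x1c1522bbc) (nat_lit 356144783),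
  Rx.mk (nat_lit 321) (nat_lit 1) (nat_lit 0) (nat_lit 5) (nat_lit 5) (nat_lit 356) (nat_lit 176) r4_356 r10_176 (nat_lit 0) (nat_lit 9484367) (nat_lit 0) (nat_lit 0x20056d4f2) (nat_lit 277919823),
  Rx.mk (nat_lit 322) (nat_lit 2) (nat_lit 0) (nat_lit 5) (nat_lit 5) (nat_lit 357) (nat_lit 177) r4_357 r10_177 (nat_lit 0) (nat_lit 7299409) (nat_lit 0) (nat_lit 0x201db5762) (nat_lit 274149815),
  Rx.mk (nat_lit 328) (nat_lit 0) (nat_lit 1) (nat_lit 5) (nat_lit 6) (nat_lit 358) (nat_lit 178) r4_358 r10_178 (nat_lit 6732829) (nat_lit 0) (nat_lit 0) (nat_lit 0x2042a019e) (nat_lit 271193535),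
  Rx.mk (nat_lit 329) (nat_lit 1) (nat_lit 1) (nat_lit 5) (nat_lit 7) (nat_lit 359) (nat_lit 179) r4_359 r10_179 (nat_lit 0) (nat_lit 0) (nat_lit 0) (nat_lit 0x20056d4f2) (nat_lit 268435456),
  Rx.mk (nat_lit 330) (nat_lit 2) (nat_lit 1) (nat_lit 5) (nat_lit 7) (nat_lit 360) (nat_lit 180) r4_360 r10_180 (nat_lit 0) (nat_lit 0) (nat_lit 0) (nat_lit 0x20056d4f2) (nat_lit 268435456),
  Rx.mk (nat_lit 344) (nat_lit 0) (nat_lit 3) (nat_lit 5) (nat_lit 6) (nat_lit 361) (nat_lit 181) r4_361 r10_181 (nat_lit 9484367) (nat_lit 0) (nat_lit 0) (nat_lit 0x2043d17e8) (nat_lit 273866873),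
  Rx.mk (nat_lit 345) (nat_lit 1) (nat_lit 3) (nat_lit 5) (nat_lit 7) (nat_lit 362) (nat_lit 182) r4_362 r10_182 (nat_lit 0) (nat_lit 0) (nat_lit 0) (nat_lit 0x20056d4f2) (nat_lit 268435456)]
noncomputable def e18_29 : List Rx := [
  Rx.mk (nat_lit 256) (nat_lit 0) (nat_lit 0) (nat_lit 4) (nat_lit 0) (nat_lit 381) (nat_lit 191) r4_381 r11_191 (nat_lit 5259995) (nat_lit 4629243) (nat_lit 11636049) (nat_lit 0x18a059702) (nat_lit 415395343),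
  Rx.mk (nat_lit 257) (nat_lit 1) (nat_lit 0) (nat_lit 4) (nat_lit 1) (nat_lit 382) (nat_lit 194) r4_382 r11_194 (nat_lit 0) (nat_lit 8266185) (nat_lit 12001047) (nat_lit 0x1fde50518) (nat_lit 291249688),
  Rx.mk (nat_lit 258) (nat_lit 2) (nat_lit 0) (nat_lit 4) (nat_lit 1) (nat_lit 383) (nat_lit 196) r4_383 r11_196 (nat_lit 0) (nat_lit 12835839) (nat_lit 11364595) (nat_lit 0x1f2c2c2a6) (nat_lit 306926390),
  Rx.mk (nat_lit 264) (nat_lit 0) (nat_lit 1) (nat_lit 4) (nat_lit 2) (nat_lit 384) (nat_lit 199) r4_384 r11_199 (nat_lit 5972934) (nat_lit 0) (nat_lit 24962579) (nat_lit 0x1efa7961e) (nat_lit 316939569),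
  Rx.mk (nat_lit 265) (nat_lit 1) (nat_lit 1) (nat_lit 4) (nat_lit 3) (nat_lit 385) (nat_lit 202) r4_385 r11_202 (nat_lit 0) (nat_lit 0) (nat_lit 11215696) (nat_lit 0x1f7d24aa0) (nat_lit 288594902),
  Rx.mk (nat_lit 266) (nat_lit 2) (nat_lit 1) (nat_lit 4) (nat_lit 3) (nat_lit 386) (nat_lit 204) r4_386 r11_204 (nat_lit 0) (nat_lit 0) (nat_lit 9484367) (nat_lit 0x20056d4f2) (nat_lit 277919823),
  Rx.mk (nat_lit 280) (nat_lit 0) (nat_lit 3) (nat_lit 4) (nat_lit 2) (nat_lit 387) (nat_lit 207) r4_387 r11_207 (nat_lit 9191551) (nat_lit 0) (nat_lit 14112324) (nat_lit 0x1ed0dc766) (nat_lit 312067131),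
  Rx.mk (nat_lit 281) (nat_lit 1) (nat_lit 3) (nat_lit 4) (nat_lit 3) (nat_lit 388) (nat_lit 209) r4_388 r11_209 (nat_lit 0) (nat_lit 0) (nat_lit 9484367) (nat_lit 0x20176d5a8) (nat_lit 276747473),
  Rx.mk (nat_lit 283) (nat_lit 3) (nat_lit 3) (nat_lit 4) (nat_lit 3) (nat_lit 389) (nat_lit 210) r4_389 r11_210 (nat_lit 0) (nat_lit 0) (nat_lit 9484367) (nat_lit 0x20176df08) (nat_lit 276747323),
  Rx.mk (nat_lit 320) (nat_lit 0) (nat_lit 0) (nat_lit 5) (nat_lit 4) (nat_lit 390) (nat_lit 192) r4_390 r11_192 (nat_lit 7182901) (nat_lit 31250710) (nat_lit 0) (nat_lit 0x1f1542e96) (nat_lit 322664317),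
  Rx.mk (nat_lit 322) (nat_lit 2) (nat_lit 0) (nat_lit 5) (nat_lit 5) (nat_lit 391) (nat_lit 197) r4_391 r11_197 (nat_lit 0) (nat_lit 9484367) (nat_lit 0) (nat_lit 0x20056d4f2) (nat_lit 277919823),
  Rx.mk (nat_lit 328) (nat_lit 0) (nat_lit 1) (nat_lit 5) (nat_lit 6) (nat_lit 392) (nat_lit 200) r4_392 r11_200 (nat_lit 9484367) (nat_lit 0) (nat_lit 0) (nat_lit 0x20056d4f2) (nat_lit 277919823),
  Rx.mk (nat_lit 330) (nat_lit 2) (nat_lit 1) (nat_lit 5) (nat_lit 7) (nat_lit 393) (nat_lit 205) r4_393 r11_205 (nat_lit 0) (nat_lit 0) (nat_lit 0) (nat_lit 0x20056d4f2) (nat_lit 268435456),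
  Rx.mk (nat_lit 344) (nat_lit 0) (nat_lit 3) (nat_lit 5) (nat_lit 6) (nat_lit 394) (nat_lit 208) r4_394 r11_208 (nat_lit 9484367) (nat_lit 0) (nat_lit 0) (nat_lit 0x20056d4f2) (nat_lit 277919823),
  Rx.mk (nat_lit 347) (nat_lit 3) (nat_lit 3) (nat_lit 5) (nat_lit 7) (nat_lit 395) (nat_lit 211) r4_395 r11_211 (nat_lit 0) (nat_lit 0) (nat_lit 0) (nat_lit 0x20056d4f2) (nat_lit 268435456),
  Rx.mk (nat_lit 448) (nat_lit 0) (nat_lit 0) (nat_lit 7) (nat_lit 4) (nat_lit 396) (nat_lit 193) r4_396 r11_193 (nat_lit 12144670) (nat_lit 10634033) (nat_lit 0) (nat_lit 0x1f90f139e) (nat_lit 298845159),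
  Rx.mk (nat_lit 449) (nat_lit 1) (nat_lit 0) (nat_lit 7) (nat_lit 5) (nat_lit 397) (nat_lit 195) r4_397 r11_195 (nat_lit 0) (nat_lit 9484367) (nat_lit 0) (nat_lit 0x20056d4f2) (nat_lit 277919823),
  Rx.mk (nat_lit 450) (nat_lit 2) (nat_lit 0) (nat_lit 7) (nat_lit 5) (nat_lit 398) (nat_lit 198) r4_398 r11_198 (nat_lit 0) (nat_lit 9484367) (nat_lit 0) (nat_lit 0x20056d4f2) (nat_lit 277919823),
  Rx.mk (nat_lit 456) (nat_lit 0) (nat_lit 1) (nat_lit 7) (nat_lit 6) (nat_lit 399) (nat_lit 201) r4_399 r11_201 (nat_lit 9484367) (nat_lit 0) (nat_lit 0) (nat_lit 0x20056d4f2) (nat_lit 277919823),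
  Rx.mk (nat_lit 457) (nat_lit 1) (nat_lit 1) (nat_lit 7) (nat_lit 7) (nat_lit 400) (nat_lit 203) r4_400 r11_203 (nat_lit 0) (nat_lit 0) (nat_lit 0) (nat_lit 0x20056d4f2) (nat_lit 268435456),
  Rx.mk (nat_lit 458) (nat_lit 2) (nat_lit 1) (nat_lit 7) (nat_lit 7) (nat_lit 401) (nat_lit 206) r4_401 r11_206 (nat_lit 0) (nat_lit 0) (nat_lit 0) (nat_lit 0x20056d4f2) (nat_lit 268435456)]
noncomputable def e18_30 : List Rx := [
  Rx.mk (nat_lit 218) (nat_lit 2) (nat_lit 3) (nat_lit 3) (nat_lit 7) (nat_lit 58) (nat_lit 33) r4_58 r5_33 (nat_lit 0) (nat_lit 0) (nat_lit 0) (nat_lit 0x20a42a0e0) (nat_lit 258152756),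
  Rx.mk (nat_lit 315) (nat_lit 3) (nat_lit 7) (nat_lit 4) (nat_lit 3) (nat_lit 59) (nat_lit 27) r4_59 r5_27 (nat_lit 0) (nat_lit 0) (nat_lit 1604258) (nat_lit 0x204f6230a) (nat_lit 265174264),
  Rx.mk (nat_lit 443) (nat_lit 3) (nat_lit 7) (nat_lit 6) (nat_lit 7) (nat_lit 60) (nat_lit 32) r4_60 r5_32 (nat_lit 0) (nat_lit 0) (nat_lit 0) (nat_lit 0x21c130f12) (nat_lit 239832756),
  Rx.mk (nat_lit 472) (nat_lit 0) (nat_lit 3) (nat_lit 7) (nat_lit 6) (nat_lit 61) (nat_lit 30) r4_61 r5_30 (nat_lit 778696) (nat_lit 0) (nat_lit 0) (nat_lit 0x1fccaaaa2) (nat_lit 272787352),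
  Rx.mk (nat_lit 474) (nat_lit 2) (nat_lit 3) (nat_lit 7) (nat_lit 7) (nat_lit 62) (nat_lit 31) r4_62 r5_31 (nat_lit 0) (nat_lit 0) (nat_lit 0) (nat_lit 0x2245df4b6) (nat_lit 231408706),
  Rx.mk (nat_lit 504) (nat_lit 0) (nat_lit 7) (nat_lit 7) (nat_lit 6) (nat_lit 63) (nat_lit 28) r4_63 r5_28 (nat_lit 1531150) (nat_lit 0) (nat_lit 0) (nat_lit 0x205a66e5e) (nat_lit 264400706),
  Rx.mk (nat_lit 507) (nat_lit 3) (nat_lit 7) (nat_lit 7) (nat_lit 7) (nat_lit 64) (nat_lit 29) r4_64 r5_29 (nat_lit 0) (nat_lit 0) (nat_lit 0) (nat_lit 0x204c994ac) (nat_lit 263809306)]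
noncomputable def e18_31 : List Rx := [
  Rx.mk (nat_lit 218) (nat_lit 2) (nat_lit 3) (nat_lit 3) (nat_lit 7) (nat_lit 143) (nat_lit 8) r4_143 r11_8 (nat_lit 0) (nat_lit 0) (nat_lit 0) (nat_lit 0x20056d4f2) (nat_lit 268435456)]
noncomputable def e18_32 : List Rx := [
  Rx.mk (nat_lit 280) (nat_lit 0) (nat_lit 3) (nat_lit 4) (nat_lit 2) (nat_lit 217) (nat_lit 338) r4_217 r6_338 (nat_lit 18508) (nat_lit 0) (nat_lit 28090) (nat_lit 0x1e28033f6) (nat_lit 299811704),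
  Rx.mk (nat_lit 281) (nat_lit 1) (nat_lit 3) (nat_lit 4) (nat_lit 3) (nat_lit 218) (nat_lit 341) r4_218 r6_341 (nat_lit 0) (nat_lit 0) (nat_lit 3084591) (nat_lit 0x21032fca2) (nat_lit 255139297),
  Rx.mk (nat_lit 282) (nat_lit 2) (nat_lit 3) (nat_lit 4) (nat_lit 3) (nat_lit 219) (nat_lit 343) r4_219 r6_343 (nat_lit 0) (nat_lit 0) (nat_lit 4146434) (nat_lit 0x20bd74802) (nat_lit 260693490),
  Rx.mk (nat_lit 312) (nat_lit 0) (nat_lit 7) (nat_lit 4) (nat_lit 2) (nat_lit 220) (nat_lit 337) r4_220 r6_337 (nat_lit 384025) (nat_lit 0) (nat_lit 1121068) (nat_lit 0x1a18ab894) (nat_lit 370307349),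
  Rx.mk (nat_lit 313) (nat_lit 1) (nat_lit 7) (nat_lit 4) (nat_lit 3) (nat_lit 221) (nat_lit 340) r4_221 r6_340 (nat_lit 0) (nat_lit 0) (nat_lit 3912689) (nat_lit 0x1f5e74c54) (nat_lit 283278695),
  Rx.mk (nat_lit 440) (nat_lit 0) (nat_lit 7) (nat_lit 6) (nat_lit 6) (nat_lit 222) (nat_lit 339) r4_222 r6_339 (nat_lit 10089) (nat_lit 0) (nat_lit 0) (nat_lit 0x13f2068c0) (nat_lit 473251195),
  Rx.mk (nat_lit 441) (nat_lit 1) (nat_lit 7) (nat_lit 6) (nat_lit 7) (nat_lit 223) (nat_lit 342) r4_223 r6_342 (nat_lit 0) (nat_lit 0) (nat_lit 0) (nat_lit 0x1f2a07d68) (nat_lit 282759256)]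
noncomputable def e18_33 : List Rx := [
  Rx.mk (nat_lit 280) (nat_lit 0) (nat_lit 3) (nat_lit 4) (nat_lit 2) (nat_lit 343) (nat_lit 297) r4_343 r5_297 (nat_lit 1630600) (nat_lit 0) (nat_lit 2829909) (nat_lit 0x1f1f7fb3e) (nat_lit 287983015),
  Rx.mk (nat_lit 281) (nat_lit 1) (nat_lit 3) (nat_lit 4) (nat_lit 3) (nat_lit 344) (nat_lit 298) r4_344 r5_298 (nat_lit 0) (nat_lit 0) (nat_lit 5067943) (nat_lit 0x208029ee8) (nat_lit 265551549),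
  Rx.mk (nat_lit 282) (nat_lit 2) (nat_lit 3) (nat_lit 4) (nat_lit 3) (nat_lit 345) (nat_lit 299) r4_345 r5_299 (nat_lit 0) (nat_lit 0) (nat_lit 5455800) (nat_lit 0x205d92fb0) (nat_lit 268173056),
  Rx.mk (nat_lit 344) (nat_lit 0) (nat_lit 3) (nat_lit 5) (nat_lit 6) (nat_lit 346) (nat_lit 300) r4_346 r5_300 (nat_lit 1488829) (nat_lit 0) (nat_lit 0) (nat_lit 0x2343fab2c) (nat_lit 216631535),
  Rx.mk (nat_lit 345) (nat_lit 1) (nat_lit 3) (nat_lit 5) (nat_lit 7) (nat_lit 347) (nat_lit 301) r4_347 r5_301 (nat_lit 0) (nat_lit 0) (nat_lit 0) (nat_lit 0x23ee27712) (nat_lit 204275256),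
  Rx.mk (nat_lit 346) (nat_lit 2) (nat_lit 3) (nat_lit 5) (nat_lit 7) (nat_lit 348) (nat_lit 302) r4_348 r5_302 (nat_lit 0) (nat_lit 0) (nat_lit 0) (nat_lit 0x20e0a1280) (nat_lit 254288556)]
noncomputable def e18_34 : List Rx := [
  Rx.mk (nat_lit 344) (nat_lit 0) (nat_lit 3) (nat_lit 5) (nat_lit 6) (nat_lit 363) (nat_lit 353) r4_363 r11_353 (nat_lit 6585305) (nat_lit 0) (nat_lit 0) (nat_lit 0x1ff9fa1ba) (nat_lit 275752861),
  Rx.mk (nat_lit 345) (nat_lit 1) (nat_lit 3) (nat_lit 5) (nat_lit 7) (nat_lit 364) (nat_lit 354) r4_364 r11_354 (nat_lit 0) (nat_lit 0) (nat_lit 0) (nat_lit 0x20397dc42) (nat_lit 265051356),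
  Rx.mk (nat_lit 346) (nat_lit 2) (nat_lit 3) (nat_lit 5) (nat_lit 7) (nat_lit 365) (nat_lit 355) r4_365 r11_355 (nat_lit 0) (nat_lit 0) (nat_lit 0) (nat_lit 0x201abfb48) (nat_lit 267040156)]
noncomputable def e18_35 : List Rx := [
  Rx.mk (nat_lit 312) (nat_lit 0) (nat_lit 7) (nat_lit 4) (nat_lit 2) (nat_lit 78) (nat_lit 62) r4_78 r6_62 (nat_lit 246644) (nat_lit 0) (nat_lit 310005) (nat_lit 0x1afb61f3a) (nat_lit 354301405),
  Rx.mk (nat_lit 313) (nat_lit 1) (nat_lit 7) (nat_lit 4) (nat_lit 3) (nat_lit 79) (nat_lit 63) r4_79 r6_63 (nat_lit 0) (nat_lit 0) (nat_lit 4160886) (nat_lit 0x201f7800e) (nat_lit 270874342),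
  Rx.mk (nat_lit 315) (nat_lit 3) (nat_lit 7) (nat_lit 4) (nat_lit 3) (nat_lit 80) (nat_lit 64) r4_80 r6_64 (nat_lit 0) (nat_lit 0) (nat_lit 5004731) (nat_lit 0x1f3bedf5a) (nat_lit 286662037),
  Rx.mk (nat_lit 440) (nat_lit 0) (nat_lit 7) (nat_lit 6) (nat_lit 6) (nat_lit 81) (nat_lit 67) r4_81 r6_67 (nat_lit 16916) (nat_lit 0) (nat_lit 0) (nat_lit 0x17f6c791e) (nat_lit 404986672),
  Rx.mk (nat_lit 441) (nat_lit 1) (nat_lit 7) (nat_lit 6) (nat_lit 7) (nat_lit 82) (nat_lit 68) r4_82 r6_68 (nat_lit 0) (nat_lit 0) (nat_lit 0) (nat_lit 0x202553b36) (nat_lit 266272206),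
  Rx.mk (nat_lit 443) (nat_lit 3) (nat_lit 7) (nat_lit 6) (nat_lit 7) (nat_lit 83) (nat_lit 69) r4_83 r6_69 (nat_lit 0) (nat_lit 0) (nat_lit 0) (nat_lit 0x1fe3f67c4) (nat_lit 270531556),
  Rx.mk (nat_lit 472) (nat_lit 0) (nat_lit 3) (nat_lit 7) (nat_lit 6) (nat_lit 84) (nat_lit 59) r4_84 r6_59 (nat_lit 1058406) (nat_lit 0) (nat_lit 0) (nat_lit 0x2050f1acc) (nat_lit 264518012),
  Rx.mk (nat_lit 473) (nat_lit 1) (nat_lit 3) (nat_lit 7) (nat_lit 7) (nat_lit 85) (nat_lit 60) r4_85 r6_60 (nat_lit 0) (nat_lit 0) (nat_lit 0) (nat_lit 0x20e69a664) (nat_lit 253903856),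
  Rx.mk (nat_lit 474) (nat_lit 2) (nat_lit 3) (nat_lit 7) (nat_lit 7) (nat_lit 86) (nat_lit 61) r4_86 r6_61 (nat_lit 0) (nat_lit 0) (nat_lit 0) (nat_lit 0x21165d0ae) (nat_lit 250844706),
  Rx.mk (nat_lit 504) (nat_lit 0) (nat_lit 7) (nat_lit 7) (nat_lit 6) (nat_lit 87) (nat_lit 65) r4_87 r6_65 (nat_lit 2749214) (nat_lit 0) (nat_lit 0) (nat_lit 0x202479fe4) (nat_lit 269130370),
  Rx.mk (nat_lit 505) (nat_lit 1) (nat_lit 7) (nat_lit 7) (nat_lit 7) (nat_lit 88) (nat_lit 66) r4_88 r6_66 (nat_lit 0) (nat_lit 0) (nat_lit 0) (nat_lit 0x204b40c90) (nat_lit 263901806)]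
noncomputable def e18_36 : List Rx := [
  Rx.mk (nat_lit 280) (nat_lit 0) (nat_lit 3) (nat_lit 4) (nat_lit 2) (nat_lit 241) (nat_lit 126) r4_241 r12_126 (nat_lit 3283) (nat_lit 0) (nat_lit 5043) (nat_lit 0x1dea70778) (nat_lit 303854932),
  Rx.mk (nat_lit 281) (nat_lit 1) (nat_lit 3) (nat_lit 4) (nat_lit 3) (nat_lit 242) (nat_lit 130) r4_242 r12_130 (nat_lit 0) (nat_lit 0) (nat_lit 2194767) (nat_lit 0x1fb06fb30) (nat_lit 276138523),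
  Rx.mk (nat_lit 282) (nat_lit 2) (nat_lit 3) (nat_lit 4) (nat_lit 3) (nat_lit 243) (nat_lit 136) r4_243 r12_136 (nat_lit 0) (nat_lit 0) (nat_lit 3905508) (nat_lit 0x20df7f3b6) (nat_lit 258267614),
  Rx.mk (nat_lit 312) (nat_lit 0) (nat_lit 7) (nat_lit 4) (nat_lit 2) (nat_lit 244) (nat_lit 128) r4_244 r12_128 (nat_lit 62716) (nat_lit 0) (nat_lit 194160) (nat_lit 0x198b63dd8) (nat_lit 378385932),
  Rx.mk (nat_lit 313) (nat_lit 1) (nat_lit 7) (nat_lit 4) (nat_lit 3) (nat_lit 245) (nat_lit 132) r4_245 r12_132 (nat_lit 0) (nat_lit 0) (nat_lit 4817469) (nat_lit 0x1f2a53646) (nat_lit 287629275),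
  Rx.mk (nat_lit 315) (nat_lit 3) (nat_lit 7) (nat_lit 4) (nat_lit 3) (nat_lit 246) (nat_lit 134) r4_246 r12_134 (nat_lit 0) (nat_lit 0) (nat_lit 5737185) (nat_lit 0x1c7d5f0f4) (nat_lit 333970541),
  Rx.mk (nat_lit 440) (nat_lit 0) (nat_lit 7) (nat_lit 6) (nat_lit 6) (nat_lit 247) (nat_lit 129) r4_247 r12_129 (nat_lit 9060) (nat_lit 0) (nat_lit 0) (nat_lit 0x162942440) (nat_lit 435605266),
  Rx.mk (nat_lit 441) (nat_lit 1) (nat_lit 7) (nat_lit 6) (nat_lit 7) (nat_lit 248) (nat_lit 133) r4_248 r12_133 (nat_lit 0) (nat_lit 0) (nat_lit 0) (nat_lit 0x1f200efe6) (nat_lit 283403706),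
  Rx.mk (nat_lit 443) (nat_lit 3) (nat_lit 7) (nat_lit 6) (nat_lit 7) (nat_lit 249) (nat_lit 135) r4_249 r12_135 (nat_lit 0) (nat_lit 0) (nat_lit 0) (nat_lit 0x1dddf4940) (nat_lit 304761206),
  Rx.mk (nat_lit 472) (nat_lit 0) (nat_lit 3) (nat_lit 7) (nat_lit 6) (nat_lit 250) (nat_lit 127) r4_250 r12_127 (nat_lit 914600) (nat_lit 0) (nat_lit 0) (nat_lit 0x212e92d2c) (nat_lit 250143256),
  Rx.mk (nat_lit 473) (nat_lit 1) (nat_lit 3) (nat_lit 7) (nat_lit 7) (nat_lit 251) (nat_lit 131) r4_251 r12_131 (nat_lit 0) (nat_lit 0) (nat_lit 0) (nat_lit 0x215f2f534) (nat_lit 246173406),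
  Rx.mk (nat_lit 474) (nat_lit 2) (nat_lit 3) (nat_lit 7) (nat_lit 7) (nat_lit 252) (nat_lit 137) r4_252 r12_137 (nat_lit 0) (nat_lit 0) (nat_lit 0) (nat_lit 0x2184180d0) (nat_lit 243814506)]
noncomputable def e18_37 : List Rx := [
  Rx.mk (nat_lit 289) (nat_lit 1) (nat_lit 4) (nat_lit 4) (nat_lit 1) (nat_lit 155) (nat_lit 318) r4_155 r0_318 (nat_lit 0) (nat_lit 682361) (nat_lit 45897877) (nat_lit 0x1ac82f784) (nat_lit 403756194),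
  Rx.mk (nat_lit 297) (nat_lit 1) (nat_lit 5) (nat_lit 4) (nat_lit 3) (nat_lit 156) (nat_lit 319) r4_156 r0_319 (nat_lit 0) (nat_lit 0) (nat_lit 7646795) (nat_lit 0x1fdee8e30) (nat_lit 278562101),
  Rx.mk (nat_lit 417) (nat_lit 1) (nat_lit 4) (nat_lit 6) (nat_lit 5) (nat_lit 157) (nat_lit 320) r4_157 r0_320 (nat_lit 0) (nat_lit 3950502) (nat_lit 0) (nat_lit 0x1d80f113a) (nat_lit 314972808),
  Rx.mk (nat_lit 425) (nat_lit 1) (nat_lit 5) (nat_lit 6) (nat_lit 7) (nat_lit 158) (nat_lit 321) r4_158 r0_321 (nat_lit 0) (nat_lit 0) (nat_lit 0) (nat_lit 0x20aa8325c) (nat_lit 257764206)]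
noncomputable def e18_38 : List Rx := [
  Rx.mk (nat_lit 417) (nat_lit 1) (nat_lit 4) (nat_lit 6) (nat_lit 5) (nat_lit 68) (nat_lit 79) r4_68 r0_79 (nat_lit 0) (nat_lit 1637705) (nat_lit 0) (nat_lit 0x17ef1a0fe) (nat_lit 407217261),
  Rx.mk (nat_lit 421) (nat_lit 5) (nat_lit 4) (nat_lit 6) (nat_lit 5) (nat_lit 69) (nat_lit 80) r4_69 r0_80 (nat_lit 0) (nat_lit 3349434) (nat_lit 0) (nat_lit 0x1f4641506) (nat_lit 284310440),
  Rx.mk (nat_lit 445) (nat_lit 5) (nat_lit 7) (nat_lit 6) (nat_lit 7) (nat_lit 70) (nat_lit 81) r4_70 r0_81 (nat_lit 0) (nat_lit 0) (nat_lit 0) (nat_lit 0x1ea79a466) (nat_lit 291417306)]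
noncomputable def e18_39 : List Rx := [
  Rx.mk (nat_lit 289) (nat_lit 1) (nat_lit 4) (nat_lit 4) (nat_lit 1) (nat_lit 167) (nat_lit 427) r4_167 r7_427 (nat_lit 0) (nat_lit 3498461) (nat_lit 9573033) (nat_lit 0x17c42fa88) (nat_lit 421543700),
  Rx.mk (nat_lit 297) (nat_lit 1) (nat_lit 5) (nat_lit 4) (nat_lit 3) (nat_lit 168) (nat_lit 428) r4_168 r7_428 (nat_lit 0) (nat_lit 0) (nat_lit 8007799) (nat_lit 0x1fe9cda3a) (nat_lit 278231055),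
  Rx.mk (nat_lit 417) (nat_lit 1) (nat_lit 4) (nat_lit 6) (nat_lit 5) (nat_lit 169) (nat_lit 429) r4_169 r7_429 (nat_lit 0) (nat_lit 2514868) (nat_lit 0) (nat_lit 0x1db219e9c) (nat_lit 310255074),
  Rx.mk (nat_lit 421) (nat_lit 5) (nat_lit 4) (nat_lit 6) (nat_lit 5) (nat_lit 170) (nat_lit 424) r4_170 r7_424 (nat_lit 0) (nat_lit 4626214) (nat_lit 0) (nat_lit 0x207ca1424) (nat_lit 265335720),
  Rx.mk (nat_lit 425) (nat_lit 1) (nat_lit 5) (nat_lit 6) (nat_lit 7) (nat_lit 171) (nat_lit 430) r4_171 r7_430 (nat_lit 0) (nat_lit 0) (nat_lit 0) (nat_lit 0x21766457e) (nat_lit 244694406),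
  Rx.mk (nat_lit 429) (nat_lit 5) (nat_lit 5) (nat_lit 6) (nat_lit 7) (nat_lit 172) (nat_lit 425) r4_172 r7_425 (nat_lit 0) (nat_lit 0) (nat_lit 0) (nat_lit 0x206f820c2) (nat_lit 261563506),
  Rx.mk (nat_lit 445) (nat_lit 5) (nat_lit 7) (nat_lit 6) (nat_lit 7) (nat_lit 173) (nat_lit 426) r4_173 r7_426 (nat_lit 0) (nat_lit 0) (nat_lit 0) (nat_lit 0x206f820c2) (nat_lit 261563506)]
noncomputable def e18_40 : List Rx := [
  Rx.mk (nat_lit 180) (nat_lit 4) (nat_lit 6) (nat_lit 2) (nat_lit 6) (nat_lit 21) (nat_lit 89) r4_21 r2_89 (nat_lit 5443682) (nat_lit 0) (nat_lit 0) (nat_lit 0x2062342a8) (nat_lit 267864038),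
  Rx.mk (nat_lit 181) (nat_lit 5) (nat_lit 6) (nat_lit 2) (nat_lit 7) (nat_lit 22) (nat_lit 90) r4_22 r2_90 (nat_lit 0) (nat_lit 0) (nat_lit 0) (nat_lit 0x20056d4f2) (nat_lit 268435456),
  Rx.mk (nat_lit 182) (nat_lit 6) (nat_lit 6) (nat_lit 2) (nat_lit 7) (nat_lit 23) (nat_lit 91) r4_23 r2_91 (nat_lit 0) (nat_lit 0) (nat_lit 0) (nat_lit 0x20056d4f2) (nat_lit 268435456),
  Rx.mk (nat_lit 420) (nat_lit 4) (nat_lit 4) (nat_lit 6) (nat_lit 4) (nat_lit 24) (nat_lit 84) r4_24 r2_84 (nat_lit 2600229) (nat_lit 5694526) (nat_lit 0) (nat_lit 0x1c5a2375c) (nat_lit 338859561),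
  Rx.mk (nat_lit 421) (nat_lit 5) (nat_lit 4) (nat_lit 6) (nat_lit 5) (nat_lit 25) (nat_lit 85) r4_25 r2_85 (nat_lit 0) (nat_lit 9484367) (nat_lit 0) (nat_lit 0x204074712) (nat_lit 274085323),
  Rx.mk (nat_lit 436) (nat_lit 4) (nat_lit 6) (nat_lit 6) (nat_lit 6) (nat_lit 26) (nat_lit 92) r4_26 r2_92 (nat_lit 4694297) (nat_lit 0) (nat_lit 0) (nat_lit 0x20923b212) (nat_lit 264022053),
  Rx.mk (nat_lit 437) (nat_lit 5) (nat_lit 6) (nat_lit 6) (nat_lit 7) (nat_lit 27) (nat_lit 93) r4_27 r2_93 (nat_lit 0) (nat_lit 0) (nat_lit 0) (nat_lit 0x20056d4f2) (nat_lit 268435456),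
  Rx.mk (nat_lit 444) (nat_lit 4) (nat_lit 7) (nat_lit 6) (nat_lit 6) (nat_lit 28) (nat_lit 86) r4_28 r2_86 (nat_lit 1053683) (nat_lit 0) (nat_lit 0) (nat_lit 0x1f8ecabd8) (nat_lit 277184439),
  Rx.mk (nat_lit 445) (nat_lit 5) (nat_lit 7) (nat_lit 6) (nat_lit 7) (nat_lit 29) (nat_lit 87) r4_29 r2_87 (nat_lit 0) (nat_lit 0) (nat_lit 0) (nat_lit 0x22d7cf9de) (nat_lit 222080006),
  Rx.mk (nat_lit 447) (nat_lit 7) (nat_lit 7) (nat_lit 6) (nat_lit 7) (nat_lit 30) (nat_lit 88) r4_30 r2_88 (nat_lit 0) (nat_lit 0) (nat_lit 0) (nat_lit 0x22c726c72) (nat_lit 223145856)]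
noncomputable def e18_41 : List Rx := [
  Rx.mk (nat_lit 180) (nat_lit 4) (nat_lit 6) (nat_lit 2) (nat_lit 6) (nat_lit 144) (nat_lit 56) r4_144 r9_56 (nat_lit 9484367) (nat_lit 0) (nat_lit 0) (nat_lit 0x20056d4f2) (nat_lit 277919823),
  Rx.mk (nat_lit 181) (nat_lit 5) (nat_lit 6) (nat_lit 2) (nat_lit 7) (nat_lit 145) (nat_lit 57) r4_145 r9_57 (nat_lit 0) (nat_lit 0) (nat_lit 0) (nat_lit 0x20056d4f2) (nat_lit 268435456),
  Rx.mk (nat_lit 182) (nat_lit 6) (nat_lit 6) (nat_lit 2) (nat_lit 7) (nat_lit 146) (nat_lit 58) r4_146 r9_58 (nat_lit 0) (nat_lit 0) (nat_lit 0) (nat_lit 0x20056d4f2) (nat_lit 268435456),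
  Rx.mk (nat_lit 420) (nat_lit 4) (nat_lit 4) (nat_lit 6) (nat_lit 4) (nat_lit 147) (nat_lit 50) r4_147 r9_50 (nat_lit 5621542) (nat_lit 8519900) (nat_lit 0) (nat_lit 0x1c583434c) (nat_lit 344848848),
  Rx.mk (nat_lit 421) (nat_lit 5) (nat_lit 4) (nat_lit 6) (nat_lit 5) (nat_lit 148) (nat_lit 51) r4_148 r9_51 (nat_lit 0) (nat_lit 9484367) (nat_lit 0) (nat_lit 0x20056d4f2) (nat_lit 277919823),
  Rx.mk (nat_lit 429) (nat_lit 5) (nat_lit 5) (nat_lit 6) (nat_lit 7) (nat_lit 149) (nat_lit 52) r4_149 r9_52 (nat_lit 0) (nat_lit 0) (nat_lit 0) (nat_lit 0x20056d4f2) (nat_lit 268435456),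
  Rx.mk (nat_lit 436) (nat_lit 4) (nat_lit 6) (nat_lit 6) (nat_lit 6) (nat_lit 150) (nat_lit 59) r4_150 r9_59 (nat_lit 9817070) (nat_lit 0) (nat_lit 0) (nat_lit 0x1fee05a9e) (nat_lit 279774476),
  Rx.mk (nat_lit 437) (nat_lit 5) (nat_lit 6) (nat_lit 6) (nat_lit 7) (nat_lit 151) (nat_lit 60) r4_151 r9_60 (nat_lit 0) (nat_lit 0) (nat_lit 0) (nat_lit 0x20056d4f2) (nat_lit 268435456),
  Rx.mk (nat_lit 444) (nat_lit 4) (nat_lit 7) (nat_lit 6) (nat_lit 6) (nat_lit 152) (nat_lit 53) r4_152 r9_53 (nat_lit 9484367) (nat_lit 0) (nat_lit 0) (nat_lit 0x20056d4f2) (nat_lit 277919823),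
  Rx.mk (nat_lit 445) (nat_lit 5) (nat_lit 7) (nat_lit 6) (nat_lit 7) (nat_lit 153) (nat_lit 54) r4_153 r9_54 (nat_lit 0) (nat_lit 0) (nat_lit 0) (nat_lit 0x20056d4f2) (nat_lit 268435456),
  Rx.mk (nat_lit 447) (nat_lit 7) (nat_lit 7) (nat_lit 6) (nat_lit 7) (nat_lit 154) (nat_lit 55) r4_154 r9_55 (nat_lit 0) (nat_lit 0) (nat_lit 0) (nat_lit 0x20056d4f2) (nat_lit 268435456)]
noncomputable def e18_42 : List Rx := [
  Rx.mk (nat_lit 180) (nat_lit 4) (nat_lit 6) (nat_lit 2) (nat_lit 6) (nat_lit 128) (nat_lit 15) r4_128 r9_15 (nat_lit 9484367) (nat_lit 0) (nat_lit 0) (nat_lit 0x20056d4f2) (nat_lit 277919823),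
  Rx.mk (nat_lit 181) (nat_lit 5) (nat_lit 6) (nat_lit 2) (nat_lit 7) (nat_lit 129) (nat_lit 16) r4_129 r9_16 (nat_lit 0) (nat_lit 0) (nat_lit 0) (nat_lit 0x20056d4f2) (nat_lit 268435456),
  Rx.mk (nat_lit 182) (nat_lit 6) (nat_lit 6) (nat_lit 2) (nat_lit 7) (nat_lit 130) (nat_lit 17) r4_130 r9_17 (nat_lit 0) (nat_lit 0) (nat_lit 0) (nat_lit 0x20056d4f2) (nat_lit 268435456)]
noncomputable def e18_43 : List Rx := [
  Rx.mk (nat_lit 421) (nat_lit 5) (nat_lit 4) (nat_lit 6) (nat_lit 5) (nat_lit 71) (nat_lit 85) r4_71 r1_85 (nat_lit 0) (nat_lit 5269494) (nat_lit 0) (nat_lit 0x203b3f5f8) (nat_lit 270196450),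
  Rx.mk (nat_lit 437) (nat_lit 5) (nat_lit 6) (nat_lit 6) (nat_lit 7) (nat_lit 72) (nat_lit 87) r4_72 r1_87 (nat_lit 0) (nat_lit 0) (nat_lit 0) (nat_lit 0x20bb0eed2) (nat_lit 256701006),
  Rx.mk (nat_lit 445) (nat_lit 5) (nat_lit 7) (nat_lit 6) (nat_lit 7) (nat_lit 73) (nat_lit 86) r4_73 r1_86 (nat_lit 0) (nat_lit 0) (nat_lit 0) (nat_lit 0x2171ac400) (nat_lit 244980606)]
noncomputable def e18_44 : List Rx := [
  Rx.mk (nat_lit 421) (nat_lit 5) (nat_lit 4) (nat_lit 6) (nat_lit 5) (nat_lit 177) (nat_lit 351) r4_177 r8_351 (nat_lit 0) (nat_lit 7402043) (nat_lit 0) (nat_lit 0x20243408e) (nat_lit 273833849),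
  Rx.mk (nat_lit 429) (nat_lit 5) (nat_lit 5) (nat_lit 6) (nat_lit 7) (nat_lit 178) (nat_lit 352) r4_178 r8_352 (nat_lit 0) (nat_lit 0) (nat_lit 0) (nat_lit 0x2018af5f6) (nat_lit 267182206),
  Rx.mk (nat_lit 437) (nat_lit 5) (nat_lit 6) (nat_lit 6) (nat_lit 7) (nat_lit 179) (nat_lit 354) r4_179 r8_354 (nat_lit 0) (nat_lit 0) (nat_lit 0) (nat_lit 0x20056d4f2) (nat_lit 268435456),
  Rx.mk (nat_lit 445) (nat_lit 5) (nat_lit 7) (nat_lit 6) (nat_lit 7) (nat_lit 180) (nat_lit 353) r4_180 r8_353 (nat_lit 0) (nat_lit 0) (nat_lit 0) (nat_lit 0x2018af5f6) (nat_lit 267182206)]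
noncomputable def e18_45 : List Rx := [
  Rx.mk (nat_lit 297) (nat_lit 1) (nat_lit 5) (nat_lit 4) (nat_lit 3) (nat_lit 159) (nat_lit 305) r4_159 r1_305 (nat_lit 0) (nat_lit 0) (nat_lit 11745164) (nat_lit 0x1ff78dda0) (nat_lit 281068370),
  Rx.mk (nat_lit 425) (nat_lit 1) (nat_lit 5) (nat_lit 6) (nat_lit 7) (nat_lit 160) (nat_lit 306) r4_160 r1_306 (nat_lit 0) (nat_lit 0) (nat_lit 0) (nat_lit 0x20783377a) (nat_lit 260999956)]
noncomputable def e18_46 : List Rx := [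
  Rx.mk (nat_lit 265) (nat_lit 1) (nat_lit 1) (nat_lit 4) (nat_lit 3) (nat_lit 299) (nat_lit 350) r4_299 r2_350 (nat_lit 0) (nat_lit 0) (nat_lit 20123259) (nat_lit 0x1f226cc5c) (nat_lit 303492615),
  Rx.mk (nat_lit 297) (nat_lit 1) (nat_lit 5) (nat_lit 4) (nat_lit 3) (nat_lit 300) (nat_lit 349) r4_300 r2_349 (nat_lit 0) (nat_lit 0) (nat_lit 9484367) (nat_lit 0x1ffb19802) (nat_lit 278589723),
  Rx.mk (nat_lit 329) (nat_lit 1) (nat_lit 1) (nat_lit 5) (nat_lit 7) (nat_lit 301) (nat_lit 352) r4_301 r2_352 (nat_lit 0) (nat_lit 0) (nat_lit 0) (nat_lit 0x20056d4f2) (nat_lit 268435456),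
  Rx.mk (nat_lit 361) (nat_lit 1) (nat_lit 5) (nat_lit 5) (nat_lit 7) (nat_lit 302) (nat_lit 351) r4_302 r2_351 (nat_lit 0) (nat_lit 0) (nat_lit 0) (nat_lit 0x20056d4f2) (nat_lit 268435456),
  Rx.mk (nat_lit 425) (nat_lit 1) (nat_lit 5) (nat_lit 6) (nat_lit 7) (nat_lit 303) (nat_lit 353) r4_303 r2_353 (nat_lit 0) (nat_lit 0) (nat_lit 0) (nat_lit 0x20056d4f2) (nat_lit 268435456)]
noncomputable def e18_47 : List Rx := [
  Rx.mk (nat_lit 297) (nat_lit 1) (nat_lit 5) (nat_lit 4) (nat_lit 3) (nat_lit 174) (nat_lit 68) r4_174 r8_68 (nat_lit 0) (nat_lit 0) (nat_lit 6572672) (nat_lit 0x2024e9254) (nat_lit 272956678),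
  Rx.mk (nat_lit 425) (nat_lit 1) (nat_lit 5) (nat_lit 6) (nat_lit 7) (nat_lit 175) (nat_lit 69) r4_175 r8_69 (nat_lit 0) (nat_lit 0) (nat_lit 0) (nat_lit 0x205d0a160) (nat_lit 262752906),
  Rx.mk (nat_lit 429) (nat_lit 5) (nat_lit 5) (nat_lit 6) (nat_lit 7) (nat_lit 176) (nat_lit 70) r4_176 r8_70 (nat_lit 0) (nat_lit 0) (nat_lit 0) (nat_lit 0x20056d4f2) (nat_lit 268435456)]
noncomputable def e18_48 : List Rx := [
  Rx.mk (nat_lit 265) (nat_lit 1) (nat_lit 1) (nat_lit 4) (nat_lit 3) (nat_lit 309) (nat_lit 313) r4_309 r9_313 (nat_lit 0) (nat_lit 0) (nat_lit 18508221) (nat_lit 0x1ef01d652) (nat_lit 305203127),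
  Rx.mk (nat_lit 297) (nat_lit 1) (nat_lit 5) (nat_lit 4) (nat_lit 3) (nat_lit 310) (nat_lit 312) r4_310 r9_312 (nat_lit 0) (nat_lit 0) (nat_lit 12402929) (nat_lit 0x1fa0379e8) (nat_lit 287453885),
  Rx.mk (nat_lit 329) (nat_lit 1) (nat_lit 1) (nat_lit 5) (nat_lit 7) (nat_lit 311) (nat_lit 315) r4_311 r9_315 (nat_lit 0) (nat_lit 0) (nat_lit 0) (nat_lit 0x20056d4f2) (nat_lit 268435456),
  Rx.mk (nat_lit 361) (nat_lit 1) (nat_lit 5) (nat_lit 5) (nat_lit 7) (nat_lit 312) (nat_lit 314) r4_312 r9_314 (nat_lit 0) (nat_lit 0) (nat_lit 0) (nat_lit 0x20056d4f2) (nat_lit 268435456),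
  Rx.mk (nat_lit 425) (nat_lit 1) (nat_lit 5) (nat_lit 6) (nat_lit 7) (nat_lit 313) (nat_lit 316) r4_313 r9_316 (nat_lit 0) (nat_lit 0) (nat_lit 0) (nat_lit 0x20056d4f2) (nat_lit 268435456),
  Rx.mk (nat_lit 429) (nat_lit 5) (nat_lit 5) (nat_lit 6) (nat_lit 7) (nat_lit 314) (nat_lit 311) r4_314 r9_311 (nat_lit 0) (nat_lit 0) (nat_lit 0) (nat_lit 0x20056d4f2) (nat_lit 268435456)]
noncomputable def e18_49 : List Rx := [
  Rx.mk (nat_lit 329) (nat_lit 1) (nat_lit 1) (nat_lit 5) (nat_lit 7) (nat_lit 307) (nat_lit 305) r4_307 r9_305 (nat_lit 0) (nat_lit 0) (nat_lit 0) (nat_lit 0x20056d4f2) (nat_lit 268435456),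
  Rx.mk (nat_lit 361) (nat_lit 1) (nat_lit 5) (nat_lit 5) (nat_lit 7) (nat_lit 308) (nat_lit 306) r4_308 r9_306 (nat_lit 0) (nat_lit 0) (nat_lit 0) (nat_lit 0x20056d4f2) (nat_lit 268435456)]
noncomputable def e18_50 : List Rx := [
  Rx.mk (nat_lit 313) (nat_lit 1) (nat_lit 7) (nat_lit 4) (nat_lit 3) (nat_lit 65) (nat_lit 322) r4_65 r3_322 (nat_lit 0) (nat_lit 0) (nat_lit 3880) (nat_lit 0x1fff81d22) (nat_lit 268472436),
  Rx.mk (nat_lit 417) (nat_lit 1) (nat_lit 4) (nat_lit 6) (nat_lit 5) (nat_lit 66) (nat_lit 323) r4_66 r3_323 (nat_lit 0) (nat_lit 23607) (nat_lit 0) (nat_lit 0x210f104d6) (nat_lit 251131913),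
  Rx.mk (nat_lit 441) (nat_lit 1) (nat_lit 7) (nat_lit 6) (nat_lit 7) (nat_lit 67) (nat_lit 324) r4_67 r3_324 (nat_lit 0) (nat_lit 0) (nat_lit 0) (nat_lit 0x20a4ce8e8) (nat_lit 257901506)]
noncomputable def e18_51 : List Rx := [
  Rx.mk (nat_lit 289) (nat_lit 1) (nat_lit 4) (nat_lit 4) (nat_lit 1) (nat_lit 161) (nat_lit 349) r4_161 r4_349 (nat_lit 0) (nat_lit 2370172) (nat_lit 16814274) (nat_lit 0x1c711fa14) (nat_lit 348210952),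
  Rx.mk (nat_lit 297) (nat_lit 1) (nat_lit 5) (nat_lit 4) (nat_lit 3) (nat_lit 162) (nat_lit 350) r4_162 r4_350 (nat_lit 0) (nat_lit 0) (nat_lit 9484367) (nat_lit 0x209c9256c) (nat_lit 268145023),
  Rx.mk (nat_lit 313) (nat_lit 1) (nat_lit 7) (nat_lit 4) (nat_lit 3) (nat_lit 163) (nat_lit 351) r4_163 r4_351 (nat_lit 0) (nat_lit 0) (nat_lit 27108786) (nat_lit 0x208caa712) (nat_lit 286756242),
  Rx.mk (nat_lit 417) (nat_lit 1) (nat_lit 4) (nat_lit 6) (nat_lit 5) (nat_lit 164) (nat_lit 352) r4_164 r4_352 (nat_lit 0) (nat_lit 3808292) (nat_lit 0) (nat_lit 0x1ed188994) (nat_lit 292490648),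
  Rx.mk (nat_lit 425) (nat_lit 1) (nat_lit 5) (nat_lit 6) (nat_lit 7) (nat_lit 165) (nat_lit 353) r4_165 r4_353 (nat_lit 0) (nat_lit 0) (nat_lit 0) (nat_lit 0x2100a3b28) (nat_lit 252236256),
  Rx.mk (nat_lit 441) (nat_lit 1) (nat_lit 7) (nat_lit 6) (nat_lit 7) (nat_lit 166) (nat_lit 354) r4_166 r4_354 (nat_lit 0) (nat_lit 0) (nat_lit 0) (nat_lit 0x20a26e53a) (nat_lit 258270756)]
noncomputable def e18_52 : List Rx := [
  Rx.mk (nat_lit 313) (nat_lit 1) (nat_lit 7) (nat_lit 4) (nat_lit 3) (nat_lit 224) (nat_lit 305) r4_224 r5_305 (nat_lit 0) (nat_lit 0) (nat_lit 32184611) (nat_lit 0x1ff911c4e) (nat_lit 301092217),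
  Rx.mk (nat_lit 441) (nat_lit 1) (nat_lit 7) (nat_lit 6) (nat_lit 7) (nat_lit 225) (nat_lit 306) r4_225 r5_306 (nat_lit 0) (nat_lit 0) (nat_lit 0) (nat_lit 0x1f2f6a45e) (nat_lit 282376406)]
noncomputable def e18_53 : List Rx := [
  Rx.mk (nat_lit 313) (nat_lit 1) (nat_lit 7) (nat_lit 4) (nat_lit 3) (nat_lit 74) (nat_lit 75) r4_74 r4_75 (nat_lit 0) (nat_lit 0) (nat_lit 2416537) (nat_lit 0x1f7937fb4) (nat_lit 279969093),
  Rx.mk (nat_lit 417) (nat_lit 1) (nat_lit 4) (nat_lit 6) (nat_lit 5) (nat_lit 75) (nat_lit 74) r4_75 r4_74 (nat_lit 0) (nat_lit 2416537) (nat_lit 0) (nat_lit 0x1f7937fb4) (nat_lit 279969093),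
  Rx.mk (nat_lit 441) (nat_lit 1) (nat_lit 7) (nat_lit 6) (nat_lit 7) (nat_lit 76) (nat_lit 76) r4_76 r4_76 (nat_lit 0) (nat_lit 0) (nat_lit 0) (nat_lit 0x1ff9ad374) (nat_lit 268858306),
  Rx.mk (nat_lit 445) (nat_lit 5) (nat_lit 7) (nat_lit 6) (nat_lit 7) (nat_lit 77) (nat_lit 77) r4_77 r4_77 (nat_lit 0) (nat_lit 0) (nat_lit 0) (nat_lit 0x21022be1e) (nat_lit 252138556)]
noncomputable def e18_54 : List Rx := [
  Rx.mk (nat_lit 289) (nat_lit 1) (nat_lit 4) (nat_lit 4) (nat_lit 1) (nat_lit 181) (nat_lit 351) r4_181 r10_351 (nat_lit 0) (nat_lit 2605608) (nat_lit 8432825) (nat_lit 0x17532ea0a) (nat_lit 427006439),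
  Rx.mk (nat_lit 297) (nat_lit 1) (nat_lit 5) (nat_lit 4) (nat_lit 3) (nat_lit 182) (nat_lit 352) r4_182 r10_352 (nat_lit 0) (nat_lit 0) (nat_lit 7691568) (nat_lit 0x205c40dba) (nat_lit 270495974),
  Rx.mk (nat_lit 313) (nat_lit 1) (nat_lit 7) (nat_lit 4) (nat_lit 3) (nat_lit 183) (nat_lit 353) r4_183 r10_353 (nat_lit 0) (nat_lit 0) (nat_lit 7650699) (nat_lit 0x1fef4329e) (nat_lit 277519855),
  Rx.mk (nat_lit 417) (nat_lit 1) (nat_lit 4) (nat_lit 6) (nat_lit 5) (nat_lit 184) (nat_lit 354) r4_184 r10_354 (nat_lit 0) (nat_lit 2776969) (nat_lit 0) (nat_lit 0x1ed7bc590) (nat_lit 291044925),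
  Rx.mk (nat_lit 425) (nat_lit 1) (nat_lit 5) (nat_lit 6) (nat_lit 7) (nat_lit 185) (nat_lit 355) r4_185 r10_355 (nat_lit 0) (nat_lit 0) (nat_lit 0) (nat_lit 0x2104890bc) (nat_lit 251988106),
  Rx.mk (nat_lit 441) (nat_lit 1) (nat_lit 7) (nat_lit 6) (nat_lit 7) (nat_lit 186) (nat_lit 356) r4_186 r10_356 (nat_lit 0) (nat_lit 0) (nat_lit 0) (nat_lit 0x2104890bc) (nat_lit 251988106),
  Rx.mk (nat_lit 445) (nat_lit 5) (nat_lit 7) (nat_lit 6) (nat_lit 7) (nat_lit 187) (nat_lit 350) r4_187 r10_350 (nat_lit 0) (nat_lit 0) (nat_lit 0) (nat_lit 0x20542d5ec) (nat_lit 263324306)]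
noncomputable def e18_55 : List Rx := [
  Rx.mk (nat_lit 313) (nat_lit 1) (nat_lit 7) (nat_lit 4) (nat_lit 3) (nat_lit 226) (nat_lit 358) r4_226 r11_358 (nat_lit 0) (nat_lit 0) (nat_lit 6413564) (nat_lit 0x1eec43ba8) (nat_lit 293330520),
  Rx.mk (nat_lit 441) (nat_lit 1) (nat_lit 7) (nat_lit 6) (nat_lit 7) (nat_lit 227) (nat_lit 359) r4_227 r11_359 (nat_lit 0) (nat_lit 0) (nat_lit 0) (nat_lit 0x1f31bdc60) (nat_lit 282264106),
  Rx.mk (nat_lit 445) (nat_lit 5) (nat_lit 7) (nat_lit 6) (nat_lit 7) (nat_lit 228) (nat_lit 357) r4_228 r11_357 (nat_lit 0) (nat_lit 0) (nat_lit 0) (nat_lit 0x248c11efa) (nat_lit 194171706)]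
noncomputable def e18_56 : List Rx := [
  Rx.mk (nat_lit 313) (nat_lit 1) (nat_lit 7) (nat_lit 4) (nat_lit 3) (nat_lit 89) (nat_lit 67) r4_89 r5_67 (nat_lit 0) (nat_lit 0) (nat_lit 3291351) (nat_lit 0x2031599e4) (nat_lit 268834057),
  Rx.mk (nat_lit 417) (nat_lit 1) (nat_lit 4) (nat_lit 6) (nat_lit 5) (nat_lit 90) (nat_lit 66) r4_90 r5_66 (nat_lit 0) (nat_lit 2916474) (nat_lit 0) (nat_lit 0x2226061ee) (nat_lit 236350630),
  Rx.mk (nat_lit 441) (nat_lit 1) (nat_lit 7) (nat_lit 6) (nat_lit 7) (nat_lit 91) (nat_lit 69) r4_91 r5_69 (nat_lit 0) (nat_lit 0) (nat_lit 0) (nat_lit 0x2159ecde2) (nat_lit 246419306),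
  Rx.mk (nat_lit 505) (nat_lit 1) (nat_lit 7) (nat_lit 7) (nat_lit 7) (nat_lit 92) (nat_lit 68) r4_92 r5_68 (nat_lit 0) (nat_lit 0) (nat_lit 0) (nat_lit 0x20c01debe) (nat_lit 256355556)]
noncomputable def e18_57 : List Rx := [
  Rx.mk (nat_lit 289) (nat_lit 1) (nat_lit 4) (nat_lit 4) (nat_lit 1) (nat_lit 188) (nat_lit 46) r4_188 r11_46 (nat_lit 0) (nat_lit 13450532) (nat_lit 9087707) (nat_lit 0x1de99e322) (nat_lit 326619295),
  Rx.mk (nat_lit 297) (nat_lit 1) (nat_lit 5) (nat_lit 4) (nat_lit 3) (nat_lit 189) (nat_lit 48) r4_189 r11_48 (nat_lit 0) (nat_lit 0) (nat_lit 9484367) (nat_lit 0x203eea194) (nat_lit 274185073),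
  Rx.mk (nat_lit 313) (nat_lit 1) (nat_lit 7) (nat_lit 4) (nat_lit 3) (nat_lit 190) (nat_lit 50) r4_190 r11_50 (nat_lit 0) (nat_lit 0) (nat_lit 9484367) (nat_lit 0x204794204) (nat_lit 273617673),
  Rx.mk (nat_lit 417) (nat_lit 1) (nat_lit 4) (nat_lit 6) (nat_lit 5) (nat_lit 191) (nat_lit 47) r4_191 r11_47 (nat_lit 0) (nat_lit 4072853) (nat_lit 0) (nat_lit 0x2052f6c50) (nat_lit 267458109),
  Rx.mk (nat_lit 425) (nat_lit 1) (nat_lit 5) (nat_lit 6) (nat_lit 7) (nat_lit 192) (nat_lit 49) r4_192 r11_49 (nat_lit 0) (nat_lit 0) (nat_lit 0) (nat_lit 0x209d254d4) (nat_lit 258624606),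
  Rx.mk (nat_lit 441) (nat_lit 1) (nat_lit 7) (nat_lit 6) (nat_lit 7) (nat_lit 193) (nat_lit 52) r4_193 r11_52 (nat_lit 0) (nat_lit 0) (nat_lit 0) (nat_lit 0x209d254d4) (nat_lit 258624606),
  Rx.mk (nat_lit 505) (nat_lit 1) (nat_lit 7) (nat_lit 7) (nat_lit 7) (nat_lit 194) (nat_lit 51) r4_194 r11_51 (nat_lit 0) (nat_lit 0) (nat_lit 0) (nat_lit 0x20056d4f2) (nat_lit 268435456)]
noncomputable def e18 : List (List Rx) := [e18_0, e18_1, e18_2, e18_3, e18_4, e18_5, e18_6, e18_7, e18_8, e18_9, e18_10, e18_11, e18_12, e18_13, e18_14, e18_15, e18_16, e18_17, e18_18, e18_19, e18_20, e18_21, e18_22, e18_23, e18_24, e18_25, e18_26, e18_27, e18_28, e18_29, e18_30, e18_31, e18_32, e18_33, e18_34, e18_35, e18_36, e18_37, e18_38, e18_39, e18_40, e18_41, e18_42, e18_43, e18_44, e18_45, e18_46, e18_47, e18_48, e18_49, e18_50, e18_51, e18_52, e18_53, e18_54, e18_55, e18_56,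 e18_57]
noncomputable def e19_0 : List Rx := [
  Rx.mk (nat_lit 2) (nat_lit 2) (nat_lit 0) (nat_lit 0) (nat_lit 1) (nat_lit 0) (nat_lit 147) r10_0 r0_147 (nat_lit 0) (nat_lit 514146) (nat_lit 142696) (nat_lit 0x196892534) (nat_lit 381116348),
  Rx.mk (nat_lit 18) (nat_lit 2) (nat_lit 2) (nat_lit 0) (nat_lit 3) (nat_lit 2) (nat_lit 150) r10_2 r0_150 (nat_lit 0) (nat_lit 0) (nat_lit 5323449) (nat_lit 0x1d8aa981c) (nat_lit 315709355),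
  Rx.mk (nat_lit 194) (nat_lit 2) (nat_lit 0) (nat_lit 3) (nat_lit 5) (nat_lit 1) (nat_lit 148) r10_1 r0_148 (nat_lit 0) (nat_lit 18568344) (nat_lit 0) (nat_lit 0x1f4c0ad0c) (nat_lit 299169900),
  Rx.mk (nat_lit 210) (nat_lit 2) (nat_lit 2) (nat_lit 3) (nat_lit 7) (nat_lit 3) (nat_lit 151) r10_3 r0_151 (nat_lit 0) (nat_lit 0) (nat_lit 0) (nat_lit 0x20056d4f2) (nat_lit 268435456),
  Rx.mk (nat_lit 218) (nat_lit 2) (nat_lit 3) (nat_lit 3) (nat_lit 7) (nat_lit 4) (nat_lit 149) r10_4 r0_149 (nat_lit 0) (nat_lit 0) (nat_lit 0) (nat_lit 0x1ff3454e6) (nat_lit 269612556)]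
noncomputable def e19_1 : List Rx := [
  Rx.mk (nat_lit 2) (nat_lit 2) (nat_lit 0) (nat_lit 0) (nat_lit 1) (nat_lit 5) (nat_lit 161) r10_5 r1_161 (nat_lit 0) (nat_lit 835607) (nat_lit 419416) (nat_lit 0x195be8716) (nat_lit 382608229),
  Rx.mk (nat_lit 18) (nat_lit 2) (nat_lit 2) (nat_lit 0) (nat_lit 3) (nat_lit 7) (nat_lit 164) r10_7 r1_164 (nat_lit 0) (nat_lit 0) (nat_lit 8157982) (nat_lit 0x1c3c07fca) (nat_lit 340752588),
  Rx.mk (nat_lit 194) (nat_lit 2) (nat_lit 0) (nat_lit 3) (nat_lit 5) (nat_lit 6) (nat_lit 162) r10_6 r1_162 (nat_lit 0) (nat_lit 9868051) (nat_lit 0) (nat_lit 0x1fe805770) (nat_lit 280217007),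
  Rx.mk (nat_lit 210) (nat_lit 2) (nat_lit 2) (nat_lit 3) (nat_lit 7) (nat_lit 8) (nat_lit 165) r10_8 r1_165 (nat_lit 0) (nat_lit 0) (nat_lit 0) (nat_lit 0x20056d4f2) (nat_lit 268435456),
  Rx.mk (nat_lit 218) (nat_lit 2) (nat_lit 3) (nat_lit 3) (nat_lit 7) (nat_lit 9) (nat_lit 163) r10_9 r1_163 (nat_lit 0) (nat_lit 0) (nat_lit 0) (nat_lit 0x20361e1be) (nat_lit 265270956)]
noncomputable def e19_2 : List Rx := [
  Rx.mk (nat_lit 2) (nat_lit 2) (nat_lit 0) (nat_lit 0) (nat_lit 1) (nat_lit 10) (nat_lit 160) r10_10 r2_160 (nat_lit 0) (nat_lit 2754889) (nat_lit 2365106) (nat_lit 0x1b79e19f0) (nat_lit 350541501),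
  Rx.mk (nat_lit 18) (nat_lit 2) (nat_lit 2) (nat_lit 0) (nat_lit 3) (nat_lit 12) (nat_lit 165) r10_12 r2_165 (nat_lit 0) (nat_lit 0) (nat_lit 9484367) (nat_lit 0x1ff9e8172) (nat_lit 278669773),
  Rx.mk (nat_lit 26) (nat_lit 2) (nat_lit 3) (nat_lit 0) (nat_lit 3) (nat_lit 14) (nat_lit 162) r10_14 r2_162 (nat_lit 0) (nat_lit 0) (nat_lit 5285914) (nat_lit 0x2073a5046) (nat_lit 266585770),
  Rx.mk (nat_lit 66) (nat_lit 2) (nat_lit 0) (nat_lit 1) (nat_lit 5) (nat_lit 11) (nat_lit 161) r10_11 r2_161 (nat_lit 0) (nat_lit 9805262) (nat_lit 0) (nat_lit 0x1febed6b2) (nat_lit 279901468),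
  Rx.mk (nat_lit 82) (nat_lit 2) (nat_lit 2) (nat_lit 1) (nat_lit 7) (nat_lit 13) (nat_lit 166) r10_13 r2_166 (nat_lit 0) (nat_lit 0) (nat_lit 0) (nat_lit 0x20056d4f2) (nat_lit 268435456),
  Rx.mk (nat_lit 90) (nat_lit 2) (nat_lit 3) (nat_lit 1) (nat_lit 7) (nat_lit 15) (nat_lit 163) r10_15 r2_163 (nat_lit 0) (nat_lit 0) (nat_lit 0) (nat_lit 0x20056d4f2) (nat_lit 268435456),
  Rx.mk (nat_lit 218) (nat_lit 2) (nat_lit 3) (nat_lit 3) (nat_lit 7) (nat_lit 16) (nat_lit 164) r10_16 r2_164 (nat_lit 0) (nat_lit 0) (nat_lit 0) (nat_lit 0x20056d4f2) (nat_lit 268435456)]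
noncomputable def e19_3 : List Rx := [
  Rx.mk (nat_lit 315) (nat_lit 3) (nat_lit 7) (nat_lit 4) (nat_lit 3) (nat_lit 19) (nat_lit 135) r10_19 r3_135 (nat_lit 0) (nat_lit 0) (nat_lit 70860) (nat_lit 0x21d0e264a) (nat_lit 238809516),
  Rx.mk (nat_lit 443) (nat_lit 3) (nat_lit 7) (nat_lit 6) (nat_lit 7) (nat_lit 20) (nat_lit 137) r10_20 r3_137 (nat_lit 0) (nat_lit 0) (nat_lit 0) (nat_lit 0x254a47384) (nat_lit 182008906),
  Rx.mk (nat_lit 472) (nat_lit 0) (nat_lit 3) (nat_lit 7) (nat_lit 6) (nat_lit 17) (nat_lit 133) r10_17 r3_133 (nat_lit 70860) (nat_lit 0) (nat_lit 0) (nat_lit 0x21d0e264a) (nat_lit 238809516),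
  Rx.mk (nat_lit 474) (nat_lit 2) (nat_lit 3) (nat_lit 7) (nat_lit 7) (nat_lit 18) (nat_lit 138) r10_18 r3_138 (nat_lit 0) (nat_lit 0) (nat_lit 0) (nat_lit 0x254a47384) (nat_lit 182008906),
  Rx.mk (nat_lit 475) (nat_lit 3) (nat_lit 3) (nat_lit 7) (nat_lit 7) (nat_lit 22) (nat_lit 134) r10_22 r3_134 (nat_lit 0) (nat_lit 0) (nat_lit 0) (nat_lit 0x1ff97e1a0) (nat_lit 269209706),
  Rx.mk (nat_lit 507) (nat_lit 3) (nat_lit 7) (nat_lit 7) (nat_lit 7) (nat_lit 21) (nat_lit 136) r10_21 r3_136 (nat_lit 0) (nat_lit 0) (nat_lit 0) (nat_lit 0x1ff97e1a0) (nat_lit 269209706)]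
noncomputable def e19_4 : List Rx := [
  Rx.mk (nat_lit 194) (nat_lit 2) (nat_lit 0) (nat_lit 3) (nat_lit 5) (nat_lit 24) (nat_lit 139) r10_24 r4_139 (nat_lit 0) (nat_lit 11521502) (nat_lit 0) (nat_lit 0x1fa406a1a) (nat_lit 286319758),
  Rx.mk (nat_lit 210) (nat_lit 2) (nat_lit 2) (nat_lit 3) (nat_lit 7) (nat_lit 25) (nat_lit 142) r10_25 r4_142 (nat_lit 0) (nat_lit 0) (nat_lit 0) (nat_lit 0x20056d4f2) (nat_lit 268435456),
  Rx.mk (nat_lit 218) (nat_lit 2) (nat_lit 3) (nat_lit 3) (nat_lit 7) (nat_lit 27) (nat_lit 140) r10_27 r4_140 (nat_lit 0) (nat_lit 0) (nat_lit 0) (nat_lit 0x210872eee) (nat_lit 251737006),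
  Rx.mk (nat_lit 315) (nat_lit 3) (nat_lit 7) (nat_lit 4) (nat_lit 3) (nat_lit 28) (nat_lit 136) r10_28 r4_136 (nat_lit 0) (nat_lit 0) (nat_lit 4132596) (nat_lit 0x208057c3a) (nat_lit 264608002),
  Rx.mk (nat_lit 443) (nat_lit 3) (nat_lit 7) (nat_lit 6) (nat_lit 7) (nat_lit 29) (nat_lit 138) r10_29 r4_138 (nat_lit 0) (nat_lit 0) (nat_lit 0) (nat_lit 0x2035240c4) (nat_lit 265333156),
  Rx.mk (nat_lit 472) (nat_lit 0) (nat_lit 3) (nat_lit 7) (nat_lit 6) (nat_lit 23) (nat_lit 134) r10_23 r4_134 (nat_lit 5631477) (nat_lit 0) (nat_lit 0) (nat_lit 0x20462ac74) (nat_lit 269859283),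
  Rx.mk (nat_lit 474) (nat_lit 2) (nat_lit 3) (nat_lit 7) (nat_lit 7) (nat_lit 26) (nat_lit 141) r10_26 r4_141 (nat_lit 0) (nat_lit 0) (nat_lit 0) (nat_lit 0x203c0a05a) (nat_lit 264886856),
  Rx.mk (nat_lit 475) (nat_lit 3) (nat_lit 3) (nat_lit 7) (nat_lit 7) (nat_lit 31) (nat_lit 135) r10_31 r4_135 (nat_lit 0) (nat_lit 0) (nat_lit 0) (nat_lit 0x20056d4f2) (nat_lit 268435456),
  Rx.mk (nat_lit 507) (nat_lit 3) (nat_lit 7) (nat_lit 7) (nat_lit 7) (nat_lit 30) (nat_lit 137) r10_30 r4_137 (nat_lit 0) (nat_lit 0) (nat_lit 0) (nat_lit 0x20056d4f2) (nat_lit 268435456)]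
noncomputable def e19_5 : List Rx := [
  Rx.mk (nat_lit 283) (nat_lit 3) (nat_lit 3) (nat_lit 4) (nat_lit 3) (nat_lit 36) (nat_lit 135) r10_36 r5_135 (nat_lit 0) (nat_lit 0) (nat_lit 4853259) (nat_lit 0x1ce07f8e6) (nat_lit 326522065),
  Rx.mk (nat_lit 315) (nat_lit 3) (nat_lit 7) (nat_lit 4) (nat_lit 3) (nat_lit 34) (nat_lit 137) r10_34 r5_137 (nat_lit 0) (nat_lit 0) (nat_lit 2831630) (nat_lit 0x201b3358e) (nat_lit 269816136),
  Rx.mk (nat_lit 443) (nat_lit 3) (nat_lit 7) (nat_lit 6) (nat_lit 7) (nat_lit 35) (nat_lit 138) r10_35 r5_138 (nat_lit 0) (nat_lit 0) (nat_lit 0) (nat_lit 0x2150d6668) (nat_lit 247097356),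
  Rx.mk (nat_lit 472) (nat_lit 0) (nat_lit 3) (nat_lit 7) (nat_lit 6) (nat_lit 32) (nat_lit 134) r10_32 r5_134 (nat_lit 2021679) (nat_lit 0) (nat_lit 0) (nat_lit 0x20d6f76b2) (nat_lit 256908235),
  Rx.mk (nat_lit 474) (nat_lit 2) (nat_lit 3) (nat_lit 7) (nat_lit 7) (nat_lit 33) (nat_lit 139) r10_33 r5_139 (nat_lit 0) (nat_lit 0) (nat_lit 0) (nat_lit 0x208d85736) (nat_lit 259627956),
  Rx.mk (nat_lit 475) (nat_lit 3) (nat_lit 3) (nat_lit 7) (nat_lit 7) (nat_lit 37) (nat_lit 136) r10_37 r5_136 (nat_lit 0) (nat_lit 0) (nat_lit 0) (nat_lit 0x1fddac6f2) (nat_lit 271029056)]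
noncomputable def e19_6 : List Rx := [
  Rx.mk (nat_lit 320) (nat_lit 0) (nat_lit 0) (nat_lit 5) (nat_lit 4) (nat_lit 38) (nat_lit 180) r10_38 r3_180 (nat_lit 28184) (nat_lit 22038) (nat_lit 0) (nat_lit 0x19f3c35a4) (nat_lit 371241528),
  Rx.mk (nat_lit 321) (nat_lit 1) (nat_lit 0) (nat_lit 5) (nat_lit 5) (nat_lit 40) (nat_lit 181) r10_40 r3_181 (nat_lit 0) (nat_lit 9858675) (nat_lit 0) (nat_lit 0x1ee4c0a34) (nat_lit 297282781),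
  Rx.mk (nat_lit 322) (nat_lit 2) (nat_lit 0) (nat_lit 5) (nat_lit 5) (nat_lit 42) (nat_lit 182) r10_42 r3_182 (nat_lit 0) (nat_lit 10913577) (nat_lit 0) (nat_lit 0x1f00f05c4) (nat_lit 296487483),
  Rx.mk (nat_lit 344) (nat_lit 0) (nat_lit 3) (nat_lit 5) (nat_lit 6) (nat_lit 39) (nat_lit 183) r10_39 r3_183 (nat_lit 117878) (nat_lit 0) (nat_lit 0) (nat_lit 0x21410723c) (nat_lit 248064234),
  Rx.mk (nat_lit 345) (nat_lit 1) (nat_lit 3) (nat_lit 5) (nat_lit 7) (nat_lit 41) (nat_lit 184) r10_41 r3_184 (nat_lit 0) (nat_lit 0) (nat_lit 0) (nat_lit 0x241a52c38) (nat_lit 201440206),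
  Rx.mk (nat_lit 346) (nat_lit 2) (nat_lit 3) (nat_lit 5) (nat_lit 7) (nat_lit 43) (nat_lit 185) r10_43 r3_185 (nat_lit 0) (nat_lit 0) (nat_lit 0) (nat_lit 0x24372f78e) (nat_lit 199595806)]
noncomputable def e19_7 : List Rx := [
  Rx.mk (nat_lit 66) (nat_lit 2) (nat_lit 0) (nat_lit 1) (nat_lit 5) (nat_lit 47) (nat_lit 198) r10_47 r0_198 (nat_lit 0) (nat_lit 55056773) (nat_lit 0) (nat_lit 0x212627822) (nat_lit 304746579),
  Rx.mk (nat_lit 90) (nat_lit 2) (nat_lit 3) (nat_lit 1) (nat_lit 7) (nat_lit 48) (nat_lit 199) r10_48 r0_199 (nat_lit 0) (nat_lit 0) (nat_lit 0) (nat_lit 0x20d426d7a) (nat_lit 255090656),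
  Rx.mk (nat_lit 320) (nat_lit 0) (nat_lit 0) (nat_lit 5) (nat_lit 4) (nat_lit 44) (nat_lit 195) r10_44 r0_195 (nat_lit 241321) (nat_lit 895600) (nat_lit 0) (nat_lit 0x16b880cd8) (nat_lit 427279577),
  Rx.mk (nat_lit 321) (nat_lit 1) (nat_lit 0) (nat_lit 5) (nat_lit 5) (nat_lit 45) (nat_lit 196) r10_45 r0_196 (nat_lit 0) (nat_lit 3476048) (nat_lit 0) (nat_lit 0x1aa52c732) (nat_lit 363037754),
  Rx.mk (nat_lit 322) (nat_lit 2) (nat_lit 0) (nat_lit 5) (nat_lit 5) (nat_lit 46) (nat_lit 197) r10_46 r0_197 (nat_lit 0) (nat_lit 83120058) (nat_lit 0) (nat_lit 0x201ce892e) (nat_lit 349914064)]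
noncomputable def e19_8 : List Rx := [
  Rx.mk (nat_lit 66) (nat_lit 2) (nat_lit 0) (nat_lit 1) (nat_lit 5) (nat_lit 49) (nat_lit 217) r10_49 r1_217 (nat_lit 0) (nat_lit 58027450) (nat_lit 0) (nat_lit 0x21a734438) (nat_lit 299572206),
  Rx.mk (nat_lit 82) (nat_lit 2) (nat_lit 2) (nat_lit 1) (nat_lit 7) (nat_lit 50) (nat_lit 219) r10_50 r1_219 (nat_lit 0) (nat_lit 0) (nat_lit 0) (nat_lit 0x20a75a3fa) (nat_lit 257956456),
  Rx.mk (nat_lit 90) (nat_lit 2) (nat_lit 3) (nat_lit 1) (nat_lit 7) (nat_lit 51) (nat_lit 218) r10_51 r1_218 (nat_lit 0) (nat_lit 0) (nat_lit 0) (nat_lit 0x202e90604) (nat_lit 265759956)]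
noncomputable def e19_9 : List Rx := [
  Rx.mk (nat_lit 90) (nat_lit 2) (nat_lit 3) (nat_lit 1) (nat_lit 7) (nat_lit 58) (nat_lit 187) r10_58 r4_187 (nat_lit 0) (nat_lit 0) (nat_lit 0) (nat_lit 0x20542d5ec) (nat_lit 263324306),
  Rx.mk (nat_lit 320) (nat_lit 0) (nat_lit 0) (nat_lit 5) (nat_lit 4) (nat_lit 52) (nat_lit 181) r10_52 r4_181 (nat_lit 2605608) (nat_lit 8432825) (nat_lit 0) (nat_lit 0x17532ea0a) (nat_lit 427006439),
  Rx.mk (nat_lit 321) (nat_lit 1) (nat_lit 0) (nat_lit 5) (nat_lit 5) (nat_lit 54) (nat_lit 182) r10_54 r4_182 (nat_lit 0) (nat_lit 7691568) (nat_lit 0) (nat_lit 0x205c40dba) (nat_lit 270495974),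
  Rx.mk (nat_lit 322) (nat_lit 2) (nat_lit 0) (nat_lit 5) (nat_lit 5) (nat_lit 56) (nat_lit 183) r10_56 r4_183 (nat_lit 0) (nat_lit 7650699) (nat_lit 0) (nat_lit 0x1fef4329e) (nat_lit 277519855),
  Rx.mk (nat_lit 344) (nat_lit 0) (nat_lit 3) (nat_lit 5) (nat_lit 6) (nat_lit 53) (nat_lit 184) r10_53 r4_184 (nat_lit 2776969) (nat_lit 0) (nat_lit 0) (nat_lit 0x1ed7bc590) (nat_lit 291044925),
  Rx.mk (nat_lit 345) (nat_lit 1) (nat_lit 3) (nat_lit 5) (nat_lit 7) (nat_lit 55) (nat_lit 185) r10_55 r4_185 (nat_lit 0) (nat_lit 0) (nat_lit 0) (nat_lit 0x2104890bc) (nat_lit 251988106),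
  Rx.mk (nat_lit 346) (nat_lit 2) (nat_lit 3) (nat_lit 5) (nat_lit 7) (nat_lit 57) (nat_lit 186) r10_57 r4_186 (nat_lit 0) (nat_lit 0) (nat_lit 0) (nat_lit 0x2104890bc) (nat_lit 251988106)]
noncomputable def e19_10 : List Rx := [
  Rx.mk (nat_lit 280) (nat_lit 0) (nat_lit 3) (nat_lit 4) (nat_lit 2) (nat_lit 59) (nat_lit 140) r10_59 r6_140 (nat_lit 471452) (nat_lit 0) (nat_lit 543948) (nat_lit 0x1c7149774) (nat_lit 329972906),
  Rx.mk (nat_lit 281) (nat_lit 1) (nat_lit 3) (nat_lit 4) (nat_lit 3) (nat_lit 62) (nat_lit 143) r10_62 r6_143 (nat_lit 0) (nat_lit 0) (nat_lit 3377596) (nat_lit 0x20e0bc792) (nat_lit 257655702),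
  Rx.mk (nat_lit 282) (nat_lit 2) (nat_lit 3) (nat_lit 4) (nat_lit 3) (nat_lit 64) (nat_lit 150) r10_64 r6_150 (nat_lit 0) (nat_lit 0) (nat_lit 3377596) (nat_lit 0x20e0bc792) (nat_lit 257655702),
  Rx.mk (nat_lit 283) (nat_lit 3) (nat_lit 3) (nat_lit 4) (nat_lit 3) (nat_lit 70) (nat_lit 145) r10_70 r6_145 (nat_lit 0) (nat_lit 0) (nat_lit 7687606) (nat_lit 0x1fbd9977a) (nat_lit 280815412),
  Rx.mk (nat_lit 315) (nat_lit 3) (nat_lit 7) (nat_lit 4) (nat_lit 3) (nat_lit 67) (nat_lit 147) r10_67 r6_147 (nat_lit 0) (nat_lit 0) (nat_lit 2445729) (nat_lit 0x1fca8a75e) (nat_lit 274684635),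
  Rx.mk (nat_lit 344) (nat_lit 0) (nat_lit 3) (nat_lit 5) (nat_lit 6) (nat_lit 60) (nat_lit 141) r10_60 r6_141 (nat_lit 4088468) (nat_lit 0) (nat_lit 0) (nat_lit 0x20ccdca88) (nat_lit 259647924),
  Rx.mk (nat_lit 346) (nat_lit 2) (nat_lit 3) (nat_lit 5) (nat_lit 7) (nat_lit 65) (nat_lit 151) r10_65 r6_151 (nat_lit 0) (nat_lit 0) (nat_lit 0) (nat_lit 0x206360cda) (nat_lit 262345506),
  Rx.mk (nat_lit 347) (nat_lit 3) (nat_lit 3) (nat_lit 5) (nat_lit 7) (nat_lit 71) (nat_lit 146) r10_71 r6_146 (nat_lit 0) (nat_lit 0) (nat_lit 0) (nat_lit 0x20056d4f2) (nat_lit 268435456),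
  Rx.mk (nat_lit 379) (nat_lit 3) (nat_lit 7) (nat_lit 5) (nat_lit 7) (nat_lit 68) (nat_lit 148) r10_68 r6_148 (nat_lit 0) (nat_lit 0) (nat_lit 0) (nat_lit 0x21063f2bc) (nat_lit 251877456),
  Rx.mk (nat_lit 443) (nat_lit 3) (nat_lit 7) (nat_lit 6) (nat_lit 7) (nat_lit 69) (nat_lit 149) r10_69 r6_149 (nat_lit 0) (nat_lit 0) (nat_lit 0) (nat_lit 0x21063f2bc) (nat_lit 251877456),
  Rx.mk (nat_lit 472) (nat_lit 0) (nat_lit 3) (nat_lit 7) (nat_lit 6) (nat_lit 61) (nat_lit 142) r10_61 r6_142 (nat_lit 2783281) (nat_lit 0) (nat_lit 0) (nat_lit 0x2029b329e) (nat_lit 268826287),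
  Rx.mk (nat_lit 473) (nat_lit 1) (nat_lit 3) (nat_lit 7) (nat_lit 7) (nat_lit 63) (nat_lit 144) r10_63 r6_144 (nat_lit 0) (nat_lit 0) (nat_lit 0) (nat_lit 0x21936d120) (nat_lit 242832906),
  Rx.mk (nat_lit 474) (nat_lit 2) (nat_lit 3) (nat_lit 7) (nat_lit 7) (nat_lit 66) (nat_lit 152) r10_66 r6_152 (nat_lit 0) (nat_lit 0) (nat_lit 0) (nat_lit 0x21936d120) (nat_lit 242832906)]
noncomputable def e19_11 : List Rx := [
  Rx.mk (nat_lit 320) (nat_lit 0) (nat_lit 0) (nat_lit 5) (nat_lit 4) (nat_lit 72) (nat_lit 197) r10_72 r5_197 (nat_lit 2115614) (nat_lit 7751834) (nat_lit 0) (nat_lit 0x1caf6c47a) (nat_lit 334773104),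
  Rx.mk (nat_lit 322) (nat_lit 2) (nat_lit 0) (nat_lit 5) (nat_lit 5) (nat_lit 74) (nat_lit 198) r10_74 r5_198 (nat_lit 0) (nat_lit 9484367) (nat_lit 0) (nat_lit 0x20056d4f2) (nat_lit 277919823),
  Rx.mk (nat_lit 344) (nat_lit 0) (nat_lit 3) (nat_lit 5) (nat_lit 6) (nat_lit 73) (nat_lit 199) r10_73 r5_199 (nat_lit 2593846) (nat_lit 0) (nat_lit 0) (nat_lit 0x20984c2c8) (nat_lit 261503202),
  Rx.mk (nat_lit 346) (nat_lit 2) (nat_lit 3) (nat_lit 5) (nat_lit 7) (nat_lit 75) (nat_lit 201) r10_75 r5_201 (nat_lit 0) (nat_lit 0) (nat_lit 0) (nat_lit 0x20ab8a45c) (nat_lit 257698456),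
  Rx.mk (nat_lit 347) (nat_lit 3) (nat_lit 3) (nat_lit 5) (nat_lit 7) (nat_lit 76) (nat_lit 200) r10_76 r5_200 (nat_lit 0) (nat_lit 0) (nat_lit 0) (nat_lit 0x20056d4f2) (nat_lit 268435456)]
noncomputable def e19_12 : List Rx := [
  Rx.mk (nat_lit 420) (nat_lit 4) (nat_lit 4) (nat_lit 6) (nat_lit 4) (nat_lit 77) (nat_lit 147) r10_77 r0_147 (nat_lit 142696) (nat_lit 514146) (nat_lit 0) (nat_lit 0x196892534) (nat_lit 381116348),
  Rx.mk (nat_lit 423) (nat_lit 7) (nat_lit 4) (nat_lit 6) (nat_lit 5) (nat_lit 79) (nat_lit 148) r10_79 r0_148 (nat_lit 0) (nat_lit 18568344) (nat_lit 0) (nat_lit 0x1f4c0ad0c) (nat_lit 299169900),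
  Rx.mk (nat_lit 436) (nat_lit 4) (nat_lit 6) (nat_lit 6) (nat_lit 6) (nat_lit 78) (nat_lit 150) r10_78 r0_150 (nat_lit 5323449) (nat_lit 0) (nat_lit 0) (nat_lit 0x1d8aa981c) (nat_lit 315709355),
  Rx.mk (nat_lit 439) (nat_lit 7) (nat_lit 6) (nat_lit 6) (nat_lit 7) (nat_lit 80) (nat_lit 151) r10_80 r0_151 (nat_lit 0) (nat_lit 0) (nat_lit 0) (nat_lit 0x20056d4f2) (nat_lit 268435456),
  Rx.mk (nat_lit 447) (nat_lit 7) (nat_lit 7) (nat_lit 6) (nat_lit 7) (nat_lit 81) (nat_lit 149) r10_81 r0_149 (nat_lit 0) (nat_lit 0) (nat_lit 0) (nat_lit 0x1ff3454e6) (nat_lit 269612556)]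
noncomputable def e19_13 : List Rx := [
  Rx.mk (nat_lit 2) (nat_lit 2) (nat_lit 0) (nat_lit 0) (nat_lit 1) (nat_lit 91) (nat_lit 184) r10_91 r7_184 (nat_lit 0) (nat_lit 325088) (nat_lit 232378) (nat_lit 0x1b0e244d8) (nat_lit 353060522),
  Rx.mk (nat_lit 18) (nat_lit 2) (nat_lit 2) (nat_lit 0) (nat_lit 3) (nat_lit 93) (nat_lit 187) r10_93 r7_187 (nat_lit 0) (nat_lit 0) (nat_lit 2535687) (nat_lit 0x1ff5df990) (nat_lit 271959093),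
  Rx.mk (nat_lit 22) (nat_lit 6) (nat_lit 2) (nat_lit 0) (nat_lit 3) (nat_lit 86) (nat_lit 195) r10_86 r7_195 (nat_lit 0) (nat_lit 0) (nat_lit 6516949) (nat_lit 0x1fb29d114) (nat_lit 280364355),
  Rx.mk (nat_lit 150) (nat_lit 6) (nat_lit 2) (nat_lit 2) (nat_lit 7) (nat_lit 87) (nat_lit 196) r10_87 r7_196 (nat_lit 0) (nat_lit 0) (nat_lit 0) (nat_lit 0x20056d4f2) (nat_lit 268435456),
  Rx.mk (nat_lit 180) (nat_lit 4) (nat_lit 6) (nat_lit 2) (nat_lit 6) (nat_lit 84) (nat_lit 190) r10_84 r7_190 (nat_lit 6516949) (nat_lit 0) (nat_lit 0) (nat_lit 0x1fb29d114) (nat_lit 280364355),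
  Rx.mk (nat_lit 182) (nat_lit 6) (nat_lit 6) (nat_lit 2) (nat_lit 7) (nat_lit 85) (nat_lit 197) r10_85 r7_197 (nat_lit 0) (nat_lit 0) (nat_lit 0) (nat_lit 0x20056d4f2) (nat_lit 268435456),
  Rx.mk (nat_lit 194) (nat_lit 2) (nat_lit 0) (nat_lit 3) (nat_lit 5) (nat_lit 92) (nat_lit 185) r10_92 r7_185 (nat_lit 0) (nat_lit 3161773) (nat_lit 0) (nat_lit 0x1ef74950c) (nat_lit 289350529),
  Rx.mk (nat_lit 210) (nat_lit 2) (nat_lit 2) (nat_lit 3) (nat_lit 7) (nat_lit 94) (nat_lit 188) r10_94 r7_188 (nat_lit 0) (nat_lit 0) (nat_lit 0) (nat_lit 0x209fe95d0) (nat_lit 258446106),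
  Rx.mk (nat_lit 218) (nat_lit 2) (nat_lit 3) (nat_lit 3) (nat_lit 7) (nat_lit 95) (nat_lit 186) r10_95 r7_186 (nat_lit 0) (nat_lit 0) (nat_lit 0) (nat_lit 0x209fe494a) (nat_lit 258447306),
  Rx.mk (nat_lit 420) (nat_lit 4) (nat_lit 4) (nat_lit 6) (nat_lit 4) (nat_lit 82) (nat_lit 189) r10_82 r7_189 (nat_lit 232378) (nat_lit 325088) (nat_lit 0) (nat_lit 0x1b0e244d8) (nat_lit 353060522),
  Rx.mk (nat_lit 423) (nat_lit 7) (nat_lit 4) (nat_lit 6) (nat_lit 5) (nat_lit 88) (nat_lit 192) r10_88 r7_192 (nat_lit 0) (nat_lit 3161773) (nat_lit 0) (nat_lit 0x1ef74950c) (nat_lit 289350529),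
  Rx.mk (nat_lit 436) (nat_lit 4) (nat_lit 6) (nat_lit 6) (nat_lit 6) (nat_lit 83) (nat_lit 191) r10_83 r7_191 (nat_lit 2535687) (nat_lit 0) (nat_lit 0) (nat_lit 0x1ff5df990) (nat_lit 271959093),
  Rx.mk (nat_lit 439) (nat_lit 7) (nat_lit 6) (nat_lit 6) (nat_lit 7) (nat_lit 89) (nat_lit 194) r10_89 r7_194 (nat_lit 0) (nat_lit 0) (nat_lit 0) (nat_lit 0x209fe95d0) (nat_lit 258446106),
  Rx.mk (nat_lit 447) (nat_lit 7) (nat_lit 7) (nat_lit 6) (nat_lit 7) (nat_lit 90) (nat_lit 193) r10_90 r7_193 (nat_lit 0) (nat_lit 0) (nat_lit 0) (nat_lit 0x209fe494a) (nat_lit 258447306)]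
noncomputable def e19_14 : List Rx := [
  Rx.mk (nat_lit 420) (nat_lit 4) (nat_lit 4) (nat_lit 6) (nat_lit 4) (nat_lit 96) (nat_lit 161) r10_96 r1_161 (nat_lit 419416) (nat_lit 835607) (nat_lit 0) (nat_lit 0x195be8716) (nat_lit 382608229),
  Rx.mk (nat_lit 423) (nat_lit 7) (nat_lit 4) (nat_lit 6) (nat_lit 5) (nat_lit 98) (nat_lit 162) r10_98 r1_162 (nat_lit 0) (nat_lit 9868051) (nat_lit 0) (nat_lit 0x1fe805770) (nat_lit 280217007),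
  Rx.mk (nat_lit 436) (nat_lit 4) (nat_lit 6) (nat_lit 6) (nat_lit 6) (nat_lit 97) (nat_lit 164) r10_97 r1_164 (nat_lit 8157982) (nat_lit 0) (nat_lit 0) (nat_lit 0x1c3c07fca) (nat_lit 340752588),
  Rx.mk (nat_lit 439) (nat_lit 7) (nat_lit 6) (nat_lit 6) (nat_lit 7) (nat_lit 99) (nat_lit 165) r10_99 r1_165 (nat_lit 0) (nat_lit 0) (nat_lit 0) (nat_lit 0x20056d4f2) (nat_lit 268435456),
  Rx.mk (nat_lit 447) (nat_lit 7) (nat_lit 7) (nat_lit 6) (nat_lit 7) (nat_lit 100) (nat_lit 163) r10_100 r1_163 (nat_lit 0) (nat_lit 0) (nat_lit 0) (nat_lit 0x20361e1be) (nat_lit 265270956)]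
noncomputable def e19_15 : List Rx := [
  Rx.mk (nat_lit 150) (nat_lit 6) (nat_lit 2) (nat_lit 2) (nat_lit 7) (nat_lit 105) (nat_lit 155) r10_105 r8_155 (nat_lit 0) (nat_lit 0) (nat_lit 0) (nat_lit 0x20056d4f2) (nat_lit 268435456),
  Rx.mk (nat_lit 180) (nat_lit 4) (nat_lit 6) (nat_lit 2) (nat_lit 6) (nat_lit 103) (nat_lit 150) r10_103 r8_150 (nat_lit 9484367) (nat_lit 0) (nat_lit 0) (nat_lit 0x1fe950e7c) (nat_lit 279752073),
  Rx.mk (nat_lit 182) (nat_lit 6) (nat_lit 6) (nat_lit 2) (nat_lit 7) (nat_lit 104) (nat_lit 156) r10_104 r8_156 (nat_lit 0) (nat_lit 0) (nat_lit 0) (nat_lit 0x20056d4f2) (nat_lit 268435456),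
  Rx.mk (nat_lit 420) (nat_lit 4) (nat_lit 4) (nat_lit 6) (nat_lit 4) (nat_lit 101) (nat_lit 149) r10_101 r8_149 (nat_lit 6364952) (nat_lit 8541134) (nat_lit 0) (nat_lit 0x186a9d334) (nat_lit 412357992),
  Rx.mk (nat_lit 423) (nat_lit 7) (nat_lit 4) (nat_lit 6) (nat_lit 5) (nat_lit 106) (nat_lit 152) r10_106 r8_152 (nat_lit 0) (nat_lit 9484367) (nat_lit 0) (nat_lit 0x1ff13e1a2) (nat_lit 279234723),
  Rx.mk (nat_lit 436) (nat_lit 4) (nat_lit 6) (nat_lit 6) (nat_lit 6) (nat_lit 102) (nat_lit 151) r10_102 r8_151 (nat_lit 4442685) (nat_lit 0) (nat_lit 0) (nat_lit 0x203b15f3c) (nat_lit 269384691),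
  Rx.mk (nat_lit 439) (nat_lit 7) (nat_lit 6) (nat_lit 6) (nat_lit 7) (nat_lit 107) (nat_lit 154) r10_107 r8_154 (nat_lit 0) (nat_lit 0) (nat_lit 0) (nat_lit 0x20056d4f2) (nat_lit 268435456),
  Rx.mk (nat_lit 447) (nat_lit 7) (nat_lit 7) (nat_lit 6) (nat_lit 7) (nat_lit 108) (nat_lit 153) r10_108 r8_153 (nat_lit 0) (nat_lit 0) (nat_lit 0) (nat_lit 0x20056d4f2) (nat_lit 268435456)]
noncomputable def e19_16 : List Rx := [
  Rx.mk (nat_lit 2) (nat_lit 2) (nat_lit 0) (nat_lit 0) (nat_lit 1) (nat_lit 112) (nat_lit 149) r10_112 r8_149 (nat_lit 0) (nat_lit 8541134) (nat_lit 6364952) (nat_lit 0x186a9d334) (nat_lit 412357992),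
  Rx.mk (nat_lit 18) (nat_lit 2) (nat_lit 2) (nat_lit 0) (nat_lit 3) (nat_lit 114) (nat_lit 151) r10_114 r8_151 (nat_lit 0) (nat_lit 0) (nat_lit 4442685) (nat_lit 0x203b15f3c) (nat_lit 269384691),
  Rx.mk (nat_lit 22) (nat_lit 6) (nat_lit 2) (nat_lit 0) (nat_lit 3) (nat_lit 110) (nat_lit 150) r10_110 r8_150 (nat_lit 0) (nat_lit 0) (nat_lit 9484367) (nat_lit 0x1fe950e7c) (nat_lit 279752073),
  Rx.mk (nat_lit 150) (nat_lit 6) (nat_lit 2) (nat_lit 2) (nat_lit 7) (nat_lit 111) (nat_lit 156) r10_111 r8_156 (nat_lit 0) (nat_lit 0) (nat_lit 0) (nat_lit 0x20056d4f2) (nat_lit 268435456),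
  Rx.mk (nat_lit 182) (nat_lit 6) (nat_lit 6) (nat_lit 2) (nat_lit 7) (nat_lit 109) (nat_lit 155) r10_109 r8_155 (nat_lit 0) (nat_lit 0) (nat_lit 0) (nat_lit 0x20056d4f2) (nat_lit 268435456),
  Rx.mk (nat_lit 194) (nat_lit 2) (nat_lit 0) (nat_lit 3) (nat_lit 5) (nat_lit 113) (nat_lit 152) r10_113 r8_152 (nat_lit 0) (nat_lit 9484367) (nat_lit 0) (nat_lit 0x1ff13e1a2) (nat_lit 279234723),
  Rx.mk (nat_lit 210) (nat_lit 2) (nat_lit 2) (nat_lit 3) (nat_lit 7) (nat_lit 115) (nat_lit 154) r10_115 r8_154 (nat_lit 0) (nat_lit 0) (nat_lit 0) (nat_lit 0x20056d4f2) (nat_lit 268435456),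
  Rx.mk (nat_lit 218) (nat_lit 2) (nat_lit 3) (nat_lit 3) (nat_lit 7) (nat_lit 116) (nat_lit 153) r10_116 r8_153 (nat_lit 0) (nat_lit 0) (nat_lit 0) (nat_lit 0x20056d4f2) (nat_lit 268435456)]
noncomputable def e19_17 : List Rx := [
  Rx.mk (nat_lit 2) (nat_lit 2) (nat_lit 0) (nat_lit 0) (nat_lit 1) (nat_lit 120) (nat_lit 136) r10_120 r9_136 (nat_lit 0) (nat_lit 10859836) (nat_lit 18297468) (nat_lit 0x18a1becbe) (nat_lit 422951410),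
  Rx.mk (nat_lit 18) (nat_lit 2) (nat_lit 2) (nat_lit 0) (nat_lit 3) (nat_lit 122) (nat_lit 141) r10_122 r9_141 (nat_lit 0) (nat_lit 0) (nat_lit 9484367) (nat_lit 0x1fe9978ae) (nat_lit 279734173),
  Rx.mk (nat_lit 22) (nat_lit 6) (nat_lit 2) (nat_lit 0) (nat_lit 3) (nat_lit 117) (nat_lit 143) r10_117 r9_143 (nat_lit 0) (nat_lit 0) (nat_lit 9484367) (nat_lit 0x1fe0f9b52) (nat_lit 280290373),
  Rx.mk (nat_lit 26) (nat_lit 2) (nat_lit 3) (nat_lit 0) (nat_lit 3) (nat_lit 124) (nat_lit 138) r10_124 r9_138 (nat_lit 0) (nat_lit 0) (nat_lit 9325504) (nat_lit 0x1feec417e) (nat_lit 279237760),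
  Rx.mk (nat_lit 66) (nat_lit 2) (nat_lit 0) (nat_lit 1) (nat_lit 5) (nat_lit 121) (nat_lit 137) r10_121 r9_137 (nat_lit 0) (nat_lit 11205477) (nat_lit 0) (nat_lit 0x1fe9e5b26) (nat_lit 281435233),
  Rx.mk (nat_lit 82) (nat_lit 2) (nat_lit 2) (nat_lit 1) (nat_lit 7) (nat_lit 123) (nat_lit 142) r10_123 r9_142 (nat_lit 0) (nat_lit 0) (nat_lit 0) (nat_lit 0x20056d4f2) (nat_lit 268435456),
  Rx.mk (nat_lit 86) (nat_lit 6) (nat_lit 2) (nat_lit 1) (nat_lit 7) (nat_lit 118) (nat_lit 144) r10_118 r9_144 (nat_lit 0) (nat_lit 0) (nat_lit 0) (nat_lit 0x20056d4f2) (nat_lit 268435456),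
  Rx.mk (nat_lit 90) (nat_lit 2) (nat_lit 3) (nat_lit 1) (nat_lit 7) (nat_lit 125) (nat_lit 139) r10_125 r9_139 (nat_lit 0) (nat_lit 0) (nat_lit 0) (nat_lit 0x20056d4f2) (nat_lit 268435456),
  Rx.mk (nat_lit 150) (nat_lit 6) (nat_lit 2) (nat_lit 2) (nat_lit 7) (nat_lit 119) (nat_lit 145) r10_119 r9_145 (nat_lit 0) (nat_lit 0) (nat_lit 0) (nat_lit 0x20056d4f2) (nat_lit 268435456),
  Rx.mk (nat_lit 218) (nat_lit 2) (nat_lit 3) (nat_lit 3) (nat_lit 7) (nat_lit 126) (nat_lit 140) r10_126 r9_140 (nat_lit 0) (nat_lit 0) (nat_lit 0) (nat_lit 0x20056d4f2) (nat_lit 268435456)]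
noncomputable def e19_18 : List Rx := [
  Rx.mk (nat_lit 315) (nat_lit 3) (nat_lit 7) (nat_lit 4) (nat_lit 3) (nat_lit 132) (nat_lit 134) r10_132 r4_134 (nat_lit 0) (nat_lit 0) (nat_lit 5631477) (nat_lit 0x20462ac74) (nat_lit 269859283),
  Rx.mk (nat_lit 423) (nat_lit 7) (nat_lit 4) (nat_lit 6) (nat_lit 5) (nat_lit 127) (nat_lit 139) r10_127 r4_139 (nat_lit 0) (nat_lit 11521502) (nat_lit 0) (nat_lit 0x1fa406a1a) (nat_lit 286319758),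
  Rx.mk (nat_lit 439) (nat_lit 7) (nat_lit 6) (nat_lit 6) (nat_lit 7) (nat_lit 128) (nat_lit 142) r10_128 r4_142 (nat_lit 0) (nat_lit 0) (nat_lit 0) (nat_lit 0x20056d4f2) (nat_lit 268435456),
  Rx.mk (nat_lit 443) (nat_lit 3) (nat_lit 7) (nat_lit 6) (nat_lit 7) (nat_lit 133) (nat_lit 141) r10_133 r4_141 (nat_lit 0) (nat_lit 0) (nat_lit 0) (nat_lit 0x203c0a05a) (nat_lit 264886856),
  Rx.mk (nat_lit 447) (nat_lit 7) (nat_lit 7) (nat_lit 6) (nat_lit 7) (nat_lit 129) (nat_lit 140) r10_129 r4_140 (nat_lit 0) (nat_lit 0) (nat_lit 0) (nat_lit 0x210872eee) (nat_lit 251737006),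
  Rx.mk (nat_lit 472) (nat_lit 0) (nat_lit 3) (nat_lit 7) (nat_lit 6) (nat_lit 130) (nat_lit 136) r10_130 r4_136 (nat_lit 4132596) (nat_lit 0) (nat_lit 0) (nat_lit 0x208057c3a) (nat_lit 264608002),
  Rx.mk (nat_lit 474) (nat_lit 2) (nat_lit 3) (nat_lit 7) (nat_lit 7) (nat_lit 131) (nat_lit 138) r10_131 r4_138 (nat_lit 0) (nat_lit 0) (nat_lit 0) (nat_lit 0x2035240c4) (nat_lit 265333156),
  Rx.mk (nat_lit 475) (nat_lit 3) (nat_lit 3) (nat_lit 7) (nat_lit 7) (nat_lit 135) (nat_lit 137) r10_135 r4_137 (nat_lit 0) (nat_lit 0) (nat_lit 0) (nat_lit 0x20056d4f2) (nat_lit 268435456),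
  Rx.mk (nat_lit 507) (nat_lit 3) (nat_lit 7) (nat_lit 7) (nat_lit 7) (nat_lit 134) (nat_lit 135) r10_134 r4_135 (nat_lit 0) (nat_lit 0) (nat_lit 0) (nat_lit 0x20056d4f2) (nat_lit 268435456)]
noncomputable def e19_19 : List Rx := [
  Rx.mk (nat_lit 22) (nat_lit 6) (nat_lit 2) (nat_lit 0) (nat_lit 3) (nat_lit 138) (nat_lit 150) r10_138 r10_150 (nat_lit 0) (nat_lit 0) (nat_lit 1802608) (nat_lit 0x1f495d9d8) (nat_lit 282546914),
  Rx.mk (nat_lit 150) (nat_lit 6) (nat_lit 2) (nat_lit 2) (nat_lit 7) (nat_lit 139) (nat_lit 152) r10_139 r10_152 (nat_lit 0) (nat_lit 0) (nat_lit 0) (nat_lit 0x20056d4f2) (nat_lit 268435456),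
  Rx.mk (nat_lit 180) (nat_lit 4) (nat_lit 6) (nat_lit 2) (nat_lit 6) (nat_lit 136) (nat_lit 145) r10_136 r10_145 (nat_lit 1802608) (nat_lit 0) (nat_lit 0) (nat_lit 0x1f495d9d8) (nat_lit 282546914),
  Rx.mk (nat_lit 182) (nat_lit 6) (nat_lit 6) (nat_lit 2) (nat_lit 7) (nat_lit 137) (nat_lit 153) r10_137 r10_153 (nat_lit 0) (nat_lit 0) (nat_lit 0) (nat_lit 0x20056d4f2) (nat_lit 268435456),
  Rx.mk (nat_lit 183) (nat_lit 7) (nat_lit 6) (nat_lit 2) (nat_lit 7) (nat_lit 143) (nat_lit 148) r10_143 r10_148 (nat_lit 0) (nat_lit 0) (nat_lit 0) (nat_lit 0x20056d4f2) (nat_lit 268435456),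
  Rx.mk (nat_lit 194) (nat_lit 2) (nat_lit 0) (nat_lit 3) (nat_lit 5) (nat_lit 146) (nat_lit 141) r10_146 r10_141 (nat_lit 0) (nat_lit 815003) (nat_lit 0) (nat_lit 0x200ff8b60) (nat_lit 268445059),
  Rx.mk (nat_lit 210) (nat_lit 2) (nat_lit 2) (nat_lit 3) (nat_lit 7) (nat_lit 147) (nat_lit 144) r10_147 r10_144 (nat_lit 0) (nat_lit 0) (nat_lit 0) (nat_lit 0x2130d0d3c) (nat_lit 249148306),
  Rx.mk (nat_lit 214) (nat_lit 6) (nat_lit 2) (nat_lit 3) (nat_lit 7) (nat_lit 140) (nat_lit 151) r10_140 r10_151 (nat_lit 0) (nat_lit 0) (nat_lit 0) (nat_lit 0x20056d4f2) (nat_lit 268435456),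
  Rx.mk (nat_lit 218) (nat_lit 2) (nat_lit 3) (nat_lit 3) (nat_lit 7) (nat_lit 149) (nat_lit 142) r10_149 r10_142 (nat_lit 0) (nat_lit 0) (nat_lit 0) (nat_lit 0x2130d0d3c) (nat_lit 249148306),
  Rx.mk (nat_lit 315) (nat_lit 3) (nat_lit 7) (nat_lit 4) (nat_lit 3) (nat_lit 150) (nat_lit 138) r10_150 r10_138 (nat_lit 0) (nat_lit 0) (nat_lit 1802608) (nat_lit 0x1f495d9d8) (nat_lit 282546914),
  Rx.mk (nat_lit 423) (nat_lit 7) (nat_lit 4) (nat_lit 6) (nat_lit 5) (nat_lit 141) (nat_lit 146) r10_141 r10_146 (nat_lit 0) (nat_lit 815003) (nat_lit 0) (nat_lit 0x200ff8b60) (nat_lit 268445059),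
  Rx.mk (nat_lit 439) (nat_lit 7) (nat_lit 6) (nat_lit 6) (nat_lit 7) (nat_lit 142) (nat_lit 149) r10_142 r10_149 (nat_lit 0) (nat_lit 0) (nat_lit 0) (nat_lit 0x2130d0d3c) (nat_lit 249148306),
  Rx.mk (nat_lit 443) (nat_lit 3) (nat_lit 7) (nat_lit 6) (nat_lit 7) (nat_lit 151) (nat_lit 140) r10_151 r10_140 (nat_lit 0) (nat_lit 0) (nat_lit 0) (nat_lit 0x20056d4f2) (nat_lit 268435456),
  Rx.mk (nat_lit 447) (nat_lit 7) (nat_lit 7) (nat_lit 6) (nat_lit 7) (nat_lit 144) (nat_lit 147) r10_144 r10_147 (nat_lit 0) (nat_lit 0) (nat_lit 0) (nat_lit 0x2130d0d3c) (nat_lit 249148306),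
  Rx.mk (nat_lit 472) (nat_lit 0) (nat_lit 3) (nat_lit 7) (nat_lit 6) (nat_lit 145) (nat_lit 136) r10_145 r10_136 (nat_lit 1802608) (nat_lit 0) (nat_lit 0) (nat_lit 0x1f495d9d8) (nat_lit 282546914),
  Rx.mk (nat_lit 474) (nat_lit 2) (nat_lit 3) (nat_lit 7) (nat_lit 7) (nat_lit 148) (nat_lit 143) r10_148 r10_143 (nat_lit 0) (nat_lit 0) (nat_lit 0) (nat_lit 0x20056d4f2) (nat_lit 268435456),
  Rx.mk (nat_lit 475) (nat_lit 3) (nat_lit 3) (nat_lit 7) (nat_lit 7) (nat_lit 153) (nat_lit 137) r10_153 r10_137 (nat_lit 0) (nat_lit 0) (nat_lit 0) (nat_lit 0x20056d4f2) (nat_lit 268435456),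
  Rx.mk (nat_lit 507) (nat_lit 3) (nat_lit 7) (nat_lit 7) (nat_lit 7) (nat_lit 152) (nat_lit 139) r10_152 r10_139 (nat_lit 0) (nat_lit 0) (nat_lit 0) (nat_lit 0x20056d4f2) (nat_lit 268435456)]
noncomputable def e19_20 : List Rx := [
  Rx.mk (nat_lit 283) (nat_lit 3) (nat_lit 3) (nat_lit 4) (nat_lit 3) (nat_lit 159) (nat_lit 138) r10_159 r11_138 (nat_lit 0) (nat_lit 0) (nat_lit 9484367) (nat_lit 0x20056d4f2) (nat_lit 277919823),
  Rx.mk (nat_lit 315) (nat_lit 3) (nat_lit 7) (nat_lit 4) (nat_lit 3) (nat_lit 157) (nat_lit 140) r10_157 r11_140 (nat_lit 0) (nat_lit 0) (nat_lit 7093825) (nat_lit 0x20203209e) (nat_lit 273785681),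
  Rx.mk (nat_lit 443) (nat_lit 3) (nat_lit 7) (nat_lit 6) (nat_lit 7) (nat_lit 158) (nat_lit 141) r10_158 r11_141 (nat_lit 0) (nat_lit 0) (nat_lit 0) (nat_lit 0x20056d4f2) (nat_lit 268435456),
  Rx.mk (nat_lit 447) (nat_lit 7) (nat_lit 7) (nat_lit 6) (nat_lit 7) (nat_lit 154) (nat_lit 143) r10_154 r11_143 (nat_lit 0) (nat_lit 0) (nat_lit 0) (nat_lit 0x209eff8f4) (nat_lit 258504756),
  Rx.mk (nat_lit 472) (nat_lit 0) (nat_lit 3) (nat_lit 7) (nat_lit 6) (nat_lit 155) (nat_lit 137) r10_155 r11_137 (nat_lit 9484367) (nat_lit 0) (nat_lit 0) (nat_lit 0x20056d4f2) (nat_lit 277919823),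
  Rx.mk (nat_lit 474) (nat_lit 2) (nat_lit 3) (nat_lit 7) (nat_lit 7) (nat_lit 156) (nat_lit 142) r10_156 r11_142 (nat_lit 0) (nat_lit 0) (nat_lit 0) (nat_lit 0x20056d4f2) (nat_lit 268435456),
  Rx.mk (nat_lit 475) (nat_lit 3) (nat_lit 3) (nat_lit 7) (nat_lit 7) (nat_lit 160) (nat_lit 139) r10_160 r11_139 (nat_lit 0) (nat_lit 0) (nat_lit 0) (nat_lit 0x20056d4f2) (nat_lit 268435456)]
noncomputable def e19_21 : List Rx := [
  Rx.mk (nat_lit 2) (nat_lit 2) (nat_lit 0) (nat_lit 0) (nat_lit 1) (nat_lit 161) (nat_lit 209) r10_161 r9_209 (nat_lit 0) (nat_lit 11812790) (nat_lit 18196586) (nat_lit 0x199bf684e) (nat_lit 407198282),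
  Rx.mk (nat_lit 18) (nat_lit 2) (nat_lit 2) (nat_lit 0) (nat_lit 3) (nat_lit 164) (nat_lit 212) r10_164 r9_212 (nat_lit 0) (nat_lit 0) (nat_lit 9484367) (nat_lit 0x20056d4f2) (nat_lit 277919823),
  Rx.mk (nat_lit 66) (nat_lit 2) (nat_lit 0) (nat_lit 1) (nat_lit 5) (nat_lit 162) (nat_lit 210) r10_162 r9_210 (nat_lit 0) (nat_lit 9793623) (nat_lit 0) (nat_lit 0x1fffcca48) (nat_lit 278595379),
  Rx.mk (nat_lit 74) (nat_lit 2) (nat_lit 1) (nat_lit 1) (nat_lit 7) (nat_lit 163) (nat_lit 211) r10_163 r9_211 (nat_lit 0) (nat_lit 0) (nat_lit 0) (nat_lit 0x20056d4f2) (nat_lit 268435456),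
  Rx.mk (nat_lit 82) (nat_lit 2) (nat_lit 2) (nat_lit 1) (nat_lit 7) (nat_lit 165) (nat_lit 213) r10_165 r9_213 (nat_lit 0) (nat_lit 0) (nat_lit 0) (nat_lit 0x20056d4f2) (nat_lit 268435456)]
noncomputable def e19_22 : List Rx := [
  Rx.mk (nat_lit 320) (nat_lit 0) (nat_lit 0) (nat_lit 5) (nat_lit 4) (nat_lit 166) (nat_lit 322) r10_166 r0_322 (nat_lit 6194834) (nat_lit 3170624) (nat_lit 0) (nat_lit 0x1b029a6a8) (nat_lit 362703714),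
  Rx.mk (nat_lit 321) (nat_lit 1) (nat_lit 0) (nat_lit 5) (nat_lit 5) (nat_lit 168) (nat_lit 324) r10_168 r0_324 (nat_lit 0) (nat_lit 11321562) (nat_lit 0) (nat_lit 0x1f9064e3a) (nat_lit 287426518),
  Rx.mk (nat_lit 322) (nat_lit 2) (nat_lit 0) (nat_lit 5) (nat_lit 5) (nat_lit 170) (nat_lit 326) r10_170 r0_326 (nat_lit 0) (nat_lit 10331000) (nat_lit 0) (nat_lit 0x1f9843af2) (nat_lit 285917906),
  Rx.mk (nat_lit 328) (nat_lit 0) (nat_lit 1) (nat_lit 5) (nat_lit 6) (nat_lit 167) (nat_lit 323) r10_167 r0_323 (nat_lit 9422464) (nat_lit 0) (nat_lit 0) (nat_lit 0x1fade9d48) (nat_lit 283582920),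
  Rx.mk (nat_lit 329) (nat_lit 1) (nat_lit 1) (nat_lit 5) (nat_lit 7) (nat_lit 169) (nat_lit 325) r10_169 r0_325 (nat_lit 0) (nat_lit 0) (nat_lit 0) (nat_lit 0x202f5d6cc) (nat_lit 265708056),
  Rx.mk (nat_lit 330) (nat_lit 2) (nat_lit 1) (nat_lit 5) (nat_lit 7) (nat_lit 171) (nat_lit 327) r10_171 r0_327 (nat_lit 0) (nat_lit 0) (nat_lit 0) (nat_lit 0x20056d4f2) (nat_lit 268435456)]
noncomputable def e19_23 : List Rx := [
  Rx.mk (nat_lit 328) (nat_lit 0) (nat_lit 1) (nat_lit 5) (nat_lit 6) (nat_lit 172) (nat_lit 307) r10_172 r1_307 (nat_lit 8852219) (nat_lit 0) (nat_lit 0) (nat_lit 0x1ee1179aa) (nat_lit 296542475),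
  Rx.mk (nat_lit 329) (nat_lit 1) (nat_lit 1) (nat_lit 5) (nat_lit 7) (nat_lit 173) (nat_lit 308) r10_173 r1_308 (nat_lit 0) (nat_lit 0) (nat_lit 0) (nat_lit 0x20056d4f2) (nat_lit 268435456),
  Rx.mk (nat_lit 330) (nat_lit 2) (nat_lit 1) (nat_lit 5) (nat_lit 7) (nat_lit 174) (nat_lit 309) r10_174 r1_309 (nat_lit 0) (nat_lit 0) (nat_lit 0) (nat_lit 0x20056d4f2) (nat_lit 268435456)]
noncomputable def e19_24 : List Rx := [
  Rx.mk (nat_lit 320) (nat_lit 0) (nat_lit 0) (nat_lit 5) (nat_lit 4) (nat_lit 175) (nat_lit 355) r10_175 r4_355 (nat_lit 11803392) (nat_lit 9177885) (nat_lit 0) (nat_lit 0x1c1522bbc) (nat_lit 356144783),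
  Rx.mk (nat_lit 321) (nat_lit 1) (nat_lit 0) (nat_lit 5) (nat_lit 5) (nat_lit 178) (nat_lit 358) r10_178 r4_358 (nat_lit 0) (nat_lit 6732829) (nat_lit 0) (nat_lit 0x2042a019e) (nat_lit 271193535),
  Rx.mk (nat_lit 322) (nat_lit 2) (nat_lit 0) (nat_lit 5) (nat_lit 5) (nat_lit 181) (nat_lit 361) r10_181 r4_361 (nat_lit 0) (nat_lit 9484367) (nat_lit 0) (nat_lit 0x2043d17e8) (nat_lit 273866873),
  Rx.mk (nat_lit 328) (nat_lit 0) (nat_lit 1) (nat_lit 5) (nat_lit 6) (nat_lit 176) (nat_lit 356) r10_176 r4_356 (nat_lit 9484367) (nat_lit 0) (nat_lit 0) (nat_lit 0x20056d4f2) (nat_lit 277919823),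
  Rx.mk (nat_lit 329) (nat_lit 1) (nat_lit 1) (nat_lit 5) (nat_lit 7) (nat_lit 179) (nat_lit 359) r10_179 r4_359 (nat_lit 0) (nat_lit 0) (nat_lit 0) (nat_lit 0x20056d4f2) (nat_lit 268435456),
  Rx.mk (nat_lit 330) (nat_lit 2) (nat_lit 1) (nat_lit 5) (nat_lit 7) (nat_lit 182) (nat_lit 362) r10_182 r4_362 (nat_lit 0) (nat_lit 0) (nat_lit 0) (nat_lit 0x20056d4f2) (nat_lit 268435456),
  Rx.mk (nat_lit 344) (nat_lit 0) (nat_lit 3) (nat_lit 5) (nat_lit 6) (nat_lit 177) (nat_lit 357) r10_177 r4_357 (nat_lit 7299409) (nat_lit 0) (nat_lit 0) (nat_lit 0x201db5762) (nat_lit 274149815),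
  Rx.mk (nat_lit 345) (nat_lit 1) (nat_lit 3) (nat_lit 5) (nat_lit 7) (nat_lit 180) (nat_lit 360) r10_180 r4_360 (nat_lit 0) (nat_lit 0) (nat_lit 0) (nat_lit 0x20056d4f2) (nat_lit 268435456)]
noncomputable def e19_25 : List Rx := [
  Rx.mk (nat_lit 66) (nat_lit 2) (nat_lit 0) (nat_lit 1) (nat_lit 5) (nat_lit 188) (nat_lit 258) r10_188 r7_258 (nat_lit 0) (nat_lit 10225910) (nat_lit 0) (nat_lit 0x1ff76c8d0) (nat_lit 279572466),
  Rx.mk (nat_lit 74) (nat_lit 2) (nat_lit 1) (nat_lit 1) (nat_lit 7) (nat_lit 190) (nat_lit 262) r10_190 r7_262 (nat_lit 0) (nat_lit 0) (nat_lit 0) (nat_lit 0x20056d4f2) (nat_lit 268435456),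
  Rx.mk (nat_lit 320) (nat_lit 0) (nat_lit 0) (nat_lit 5) (nat_lit 4) (nat_lit 183) (nat_lit 255) r10_183 r7_255 (nat_lit 2412682) (nat_lit 3623461) (nat_lit 0) (nat_lit 0x1b6a7120e) (nat_lit 352500749),
  Rx.mk (nat_lit 321) (nat_lit 1) (nat_lit 0) (nat_lit 5) (nat_lit 5) (nat_lit 185) (nat_lit 256) r10_185 r7_256 (nat_lit 0) (nat_lit 6317275) (nat_lit 0) (nat_lit 0x201d9ccf8) (nat_lit 273168531),
  Rx.mk (nat_lit 322) (nat_lit 2) (nat_lit 0) (nat_lit 5) (nat_lit 5) (nat_lit 187) (nat_lit 257) r10_187 r7_257 (nat_lit 0) (nat_lit 6317275) (nat_lit 0) (nat_lit 0x201d9ccf8) (nat_lit 273168531),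
  Rx.mk (nat_lit 328) (nat_lit 0) (nat_lit 1) (nat_lit 5) (nat_lit 6) (nat_lit 184) (nat_lit 259) r10_184 r7_259 (nat_lit 5997010) (nat_lit 0) (nat_lit 0) (nat_lit 0x1fd77613e) (nat_lit 277419766),
  Rx.mk (nat_lit 329) (nat_lit 1) (nat_lit 1) (nat_lit 5) (nat_lit 7) (nat_lit 186) (nat_lit 260) r10_186 r7_260 (nat_lit 0) (nat_lit 0) (nat_lit 0) (nat_lit 0x20056d4f2) (nat_lit 268435456),
  Rx.mk (nat_lit 330) (nat_lit 2) (nat_lit 1) (nat_lit 5) (nat_lit 7) (nat_lit 189) (nat_lit 261) r10_189 r7_261 (nat_lit 0) (nat_lit 0) (nat_lit 0) (nat_lit 0x20056d4f2) (nat_lit 268435456)]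
noncomputable def e19_26 : List Rx := [
  Rx.mk (nat_lit 74) (nat_lit 2) (nat_lit 1) (nat_lit 1) (nat_lit 7) (nat_lit 194) (nat_lit 197) r10_194 r8_197 (nat_lit 0) (nat_lit 0) (nat_lit 0) (nat_lit 0x20056d4f2) (nat_lit 268435456),
  Rx.mk (nat_lit 328) (nat_lit 0) (nat_lit 1) (nat_lit 5) (nat_lit 6) (nat_lit 191) (nat_lit 194) r10_191 r8_194 (nat_lit 9484367) (nat_lit 0) (nat_lit 0) (nat_lit 0x20056d4f2) (nat_lit 277919823),
  Rx.mk (nat_lit 329) (nat_lit 1) (nat_lit 1) (nat_lit 5) (nat_lit 7) (nat_lit 192) (nat_lit 195) r10_192 r8_195 (nat_lit 0) (nat_lit 0) (nat_lit 0) (nat_lit 0x20056d4f2) (nat_lit 268435456),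
  Rx.mk (nat_lit 330) (nat_lit 2) (nat_lit 1) (nat_lit 5) (nat_lit 7) (nat_lit 193) (nat_lit 196) r10_193 r8_196 (nat_lit 0) (nat_lit 0) (nat_lit 0) (nat_lit 0x20056d4f2) (nat_lit 268435456)]
noncomputable def e19_27 : List Rx := [
  Rx.mk (nat_lit 66) (nat_lit 2) (nat_lit 0) (nat_lit 1) (nat_lit 5) (nat_lit 195) (nat_lit 355) r10_195 r8_355 (nat_lit 0) (nat_lit 11260883) (nat_lit 0) (nat_lit 0x1fe865990) (nat_lit 281588039),
  Rx.mk (nat_lit 74) (nat_lit 2) (nat_lit 1) (nat_lit 1) (nat_lit 7) (nat_lit 196) (nat_lit 356) r10_196 r8_356 (nat_lit 0) (nat_lit 0) (nat_lit 0) (nat_lit 0x20056d4f2) (nat_lit 268435456),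
  Rx.mk (nat_lit 82) (nat_lit 2) (nat_lit 2) (nat_lit 1) (nat_lit 7) (nat_lit 197) (nat_lit 357) r10_197 r8_357 (nat_lit 0) (nat_lit 0) (nat_lit 0) (nat_lit 0x20056d4f2) (nat_lit 268435456)]
noncomputable def e19_28 : List Rx := [
  Rx.mk (nat_lit 320) (nat_lit 0) (nat_lit 0) (nat_lit 5) (nat_lit 4) (nat_lit 198) (nat_lit 198) r10_198 r10_198 (nat_lit 1983755) (nat_lit 1983755) (nat_lit 0) (nat_lit 0x1b2e4b202) (nat_lit 354440066),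
  Rx.mk (nat_lit 321) (nat_lit 1) (nat_lit 0) (nat_lit 5) (nat_lit 5) (nat_lit 201) (nat_lit 199) r10_201 r10_199 (nat_lit 0) (nat_lit 9484367) (nat_lit 0) (nat_lit 0x20056d4f2) (nat_lit 277919823),
  Rx.mk (nat_lit 322) (nat_lit 2) (nat_lit 0) (nat_lit 5) (nat_lit 5) (nat_lit 204) (nat_lit 200) r10_204 r10_200 (nat_lit 0) (nat_lit 9484367) (nat_lit 0) (nat_lit 0x20056d4f2) (nat_lit 277919823),
  Rx.mk (nat_lit 328) (nat_lit 0) (nat_lit 1) (nat_lit 5) (nat_lit 6) (nat_lit 199) (nat_lit 201) r10_199 r10_201 (nat_lit 9484367) (nat_lit 0) (nat_lit 0) (nat_lit 0x20056d4f2) (nat_lit 277919823),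
  Rx.mk (nat_lit 329) (nat_lit 1) (nat_lit 1) (nat_lit 5) (nat_lit 7) (nat_lit 202) (nat_lit 202) r10_202 r10_202 (nat_lit 0) (nat_lit 0) (nat_lit 0) (nat_lit 0x20056d4f2) (nat_lit 268435456),
  Rx.mk (nat_lit 330) (nat_lit 2) (nat_lit 1) (nat_lit 5) (nat_lit 7) (nat_lit 205) (nat_lit 203) r10_205 r10_203 (nat_lit 0) (nat_lit 0) (nat_lit 0) (nat_lit 0x20056d4f2) (nat_lit 268435456),
  Rx.mk (nat_lit 344) (nat_lit 0) (nat_lit 3) (nat_lit 5) (nat_lit 6) (nat_lit 200) (nat_lit 204) r10_200 r10_204 (nat_lit 9484367) (nat_lit 0) (nat_lit 0) (nat_lit 0x20056d4f2) (nat_lit 277919823),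
  Rx.mk (nat_lit 345) (nat_lit 1) (nat_lit 3) (nat_lit 5) (nat_lit 7) (nat_lit 203) (nat_lit 205) r10_203 r10_205 (nat_lit 0) (nat_lit 0) (nat_lit 0) (nat_lit 0x20056d4f2) (nat_lit 268435456)]
noncomputable def e19_29 : List Rx := [
  Rx.mk (nat_lit 320) (nat_lit 0) (nat_lit 0) (nat_lit 5) (nat_lit 4) (nat_lit 206) (nat_lit 230) r10_206 r11_230 (nat_lit 8625288) (nat_lit 22785138) (nat_lit 0) (nat_lit 0x1fba8cb7c) (nat_lit 304735382),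
  Rx.mk (nat_lit 322) (nat_lit 2) (nat_lit 0) (nat_lit 5) (nat_lit 5) (nat_lit 209) (nat_lit 231) r10_209 r11_231 (nat_lit 0) (nat_lit 9484367) (nat_lit 0) (nat_lit 0x20056d4f2) (nat_lit 277919823),
  Rx.mk (nat_lit 328) (nat_lit 0) (nat_lit 1) (nat_lit 5) (nat_lit 6) (nat_lit 207) (nat_lit 232) r10_207 r11_232 (nat_lit 9484367) (nat_lit 0) (nat_lit 0) (nat_lit 0x20056d4f2) (nat_lit 277919823),
  Rx.mk (nat_lit 330) (nat_lit 2) (nat_lit 1) (nat_lit 5) (nat_lit 7) (nat_lit 210) (nat_lit 233) r10_210 r11_233 (nat_lit 0) (nat_lit 0) (nat_lit 0) (nat_lit 0x20056d4f2) (nat_lit 268435456),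
  Rx.mk (nat_lit 344) (nat_lit 0) (nat_lit 3) (nat_lit 5) (nat_lit 6) (nat_lit 208) (nat_lit 234) r10_208 r11_234 (nat_lit 9484367) (nat_lit 0) (nat_lit 0) (nat_lit 0x20056d4f2) (nat_lit 277919823),
  Rx.mk (nat_lit 347) (nat_lit 3) (nat_lit 3) (nat_lit 5) (nat_lit 7) (nat_lit 211) (nat_lit 235) r10_211 r11_235 (nat_lit 0) (nat_lit 0) (nat_lit 0) (nat_lit 0x20056d4f2) (nat_lit 268435456)]
noncomputable def e19_30 : List Rx := [
  Rx.mk (nat_lit 315) (nat_lit 3) (nat_lit 7) (nat_lit 4) (nat_lit 3) (nat_lit 215) (nat_lit 134) r10_215 r5_134 (nat_lit 0) (nat_lit 0) (nat_lit 2021679) (nat_lit 0x20d6f76b2) (nat_lit 256908235),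
  Rx.mk (nat_lit 443) (nat_lit 3) (nat_lit 7) (nat_lit 6) (nat_lit 7) (nat_lit 216) (nat_lit 139) r10_216 r5_139 (nat_lit 0) (nat_lit 0) (nat_lit 0) (nat_lit 0x208d85736) (nat_lit 259627956),
  Rx.mk (nat_lit 472) (nat_lit 0) (nat_lit 3) (nat_lit 7) (nat_lit 6) (nat_lit 213) (nat_lit 137) r10_213 r5_137 (nat_lit 2831630) (nat_lit 0) (nat_lit 0) (nat_lit 0x201b3358e) (nat_lit 269816136),
  Rx.mk (nat_lit 474) (nat_lit 2) (nat_lit 3) (nat_lit 7) (nat_lit 7) (nat_lit 214) (nat_lit 138) r10_214 r5_138 (nat_lit 0) (nat_lit 0) (nat_lit 0) (nat_lit 0x2150d6668) (nat_lit 247097356),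
  Rx.mk (nat_lit 504) (nat_lit 0) (nat_lit 7) (nat_lit 7) (nat_lit 6) (nat_lit 212) (nat_lit 135) r10_212 r5_135 (nat_lit 4853259) (nat_lit 0) (nat_lit 0) (nat_lit 0x1ce07f8e6) (nat_lit 326522065),
  Rx.mk (nat_lit 507) (nat_lit 3) (nat_lit 7) (nat_lit 7) (nat_lit 7) (nat_lit 217) (nat_lit 136) r10_217 r5_136 (nat_lit 0) (nat_lit 0) (nat_lit 0) (nat_lit 0x1fddac6f2) (nat_lit 271029056)]
noncomputable def e19_31 : List Rx := [
  Rx.mk (nat_lit 218) (nat_lit 2) (nat_lit 3) (nat_lit 3) (nat_lit 7) (nat_lit 221) (nat_lit 143) r10_221 r11_143 (nat_lit 0) (nat_lit 0) (nat_lit 0) (nat_lit 0x209eff8f4) (nat_lit 258504756),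
  Rx.mk (nat_lit 315) (nat_lit 3) (nat_lit 7) (nat_lit 4) (nat_lit 3) (nat_lit 222) (nat_lit 137) r10_222 r11_137 (nat_lit 0) (nat_lit 0) (nat_lit 9484367) (nat_lit 0x20056d4f2) (nat_lit 277919823),
  Rx.mk (nat_lit 443) (nat_lit 3) (nat_lit 7) (nat_lit 6) (nat_lit 7) (nat_lit 223) (nat_lit 142) r10_223 r11_142 (nat_lit 0) (nat_lit 0) (nat_lit 0) (nat_lit 0x20056d4f2) (nat_lit 268435456),
  Rx.mk (nat_lit 472) (nat_lit 0) (nat_lit 3) (nat_lit 7) (nat_lit 6) (nat_lit 219) (nat_lit 140) r10_219 r11_140 (nat_lit 7093825) (nat_lit 0) (nat_lit 0) (nat_lit 0x20203209e) (nat_lit 273785681),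
  Rx.mk (nat_lit 474) (nat_lit 2) (nat_lit 3) (nat_lit 7) (nat_lit 7) (nat_lit 220) (nat_lit 141) r10_220 r11_141 (nat_lit 0) (nat_lit 0) (nat_lit 0) (nat_lit 0x20056d4f2) (nat_lit 268435456),
  Rx.mk (nat_lit 504) (nat_lit 0) (nat_lit 7) (nat_lit 7) (nat_lit 6) (nat_lit 218) (nat_lit 138) r10_218 r11_138 (nat_lit 9484367) (nat_lit 0) (nat_lit 0) (nat_lit 0x20056d4f2) (nat_lit 277919823),
  Rx.mk (nat_lit 507) (nat_lit 3) (nat_lit 7) (nat_lit 7) (nat_lit 7) (nat_lit 224) (nat_lit 139) r10_224 r11_139 (nat_lit 0) (nat_lit 0) (nat_lit 0) (nat_lit 0x20056d4f2) (nat_lit 268435456)]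
noncomputable def e19_32 : List Rx := [
  Rx.mk (nat_lit 280) (nat_lit 0) (nat_lit 3) (nat_lit 4) (nat_lit 2) (nat_lit 228) (nat_lit 345) r10_228 r6_345 (nat_lit 328219) (nat_lit 0) (nat_lit 348980) (nat_lit 0x1ccbea124) (nat_lit 323608155),
  Rx.mk (nat_lit 281) (nat_lit 1) (nat_lit 3) (nat_lit 4) (nat_lit 3) (nat_lit 233) (nat_lit 350) r10_233 r6_350 (nat_lit 0) (nat_lit 0) (nat_lit 3019693) (nat_lit 0x20b5c8a36) (nat_lit 260047299),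
  Rx.mk (nat_lit 282) (nat_lit 2) (nat_lit 3) (nat_lit 4) (nat_lit 3) (nat_lit 235) (nat_lit 354) r10_235 r6_354 (nat_lit 0) (nat_lit 0) (nat_lit 3102433) (nat_lit 0x2108695c4) (nat_lit 254834339),
  Rx.mk (nat_lit 312) (nat_lit 0) (nat_lit 7) (nat_lit 4) (nat_lit 2) (nat_lit 225) (nat_lit 344) r10_225 r6_344 (nat_lit 348980) (nat_lit 0) (nat_lit 328219) (nat_lit 0x1ccbea124) (nat_lit 323608155),
  Rx.mk (nat_lit 313) (nat_lit 1) (nat_lit 7) (nat_lit 4) (nat_lit 3) (nat_lit 230) (nat_lit 349) r10_230 r6_349 (nat_lit 0) (nat_lit 0) (nat_lit 3603283) (nat_lit 0x211d1a1bc) (nat_lit 254015539),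
  Rx.mk (nat_lit 344) (nat_lit 0) (nat_lit 3) (nat_lit 5) (nat_lit 6) (nat_lit 229) (nat_lit 347) r10_229 r6_347 (nat_lit 3603283) (nat_lit 0) (nat_lit 0) (nat_lit 0x211d1a1bc) (nat_lit 254015539),
  Rx.mk (nat_lit 345) (nat_lit 1) (nat_lit 3) (nat_lit 5) (nat_lit 7) (nat_lit 234) (nat_lit 352) r10_234 r6_352 (nat_lit 0) (nat_lit 0) (nat_lit 0) (nat_lit 0x208e7574a) (nat_lit 259569056),
  Rx.mk (nat_lit 346) (nat_lit 2) (nat_lit 3) (nat_lit 5) (nat_lit 7) (nat_lit 236) (nat_lit 355) r10_236 r6_355 (nat_lit 0) (nat_lit 0) (nat_lit 0) (nat_lit 0x208e74746) (nat_lit 259569306),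
  Rx.mk (nat_lit 376) (nat_lit 0) (nat_lit 7) (nat_lit 5) (nat_lit 6) (nat_lit 226) (nat_lit 346) r10_226 r6_346 (nat_lit 3019693) (nat_lit 0) (nat_lit 0) (nat_lit 0x20b5c8a36) (nat_lit 260047299),
  Rx.mk (nat_lit 377) (nat_lit 1) (nat_lit 7) (nat_lit 5) (nat_lit 7) (nat_lit 231) (nat_lit 351) r10_231 r6_351 (nat_lit 0) (nat_lit 0) (nat_lit 0) (nat_lit 0x208e7574a) (nat_lit 259569056),
  Rx.mk (nat_lit 440) (nat_lit 0) (nat_lit 7) (nat_lit 6) (nat_lit 6) (nat_lit 227) (nat_lit 348) r10_227 r6_348 (nat_lit 3102433) (nat_lit 0) (nat_lit 0) (nat_lit 0x2108695c4) (nat_lit 254834339),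
  Rx.mk (nat_lit 441) (nat_lit 1) (nat_lit 7) (nat_lit 6) (nat_lit 7) (nat_lit 232) (nat_lit 353) r10_232 r6_353 (nat_lit 0) (nat_lit 0) (nat_lit 0) (nat_lit 0x208e74746) (nat_lit 259569306)]
noncomputable def e19_33 : List Rx := [
  Rx.mk (nat_lit 344) (nat_lit 0) (nat_lit 3) (nat_lit 5) (nat_lit 6) (nat_lit 237) (nat_lit 307) r10_237 r5_307 (nat_lit 3329919) (nat_lit 0) (nat_lit 0) (nat_lit 0x1ffcb0cec) (nat_lit 272305225),
  Rx.mk (nat_lit 345) (nat_lit 1) (nat_lit 3) (nat_lit 5) (nat_lit 7) (nat_lit 238) (nat_lit 308) r10_238 r5_308 (nat_lit 0) (nat_lit 0) (nat_lit 0) (nat_lit 0x20a492d52) (nat_lit 258146656),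
  Rx.mk (nat_lit 346) (nat_lit 2) (nat_lit 3) (nat_lit 5) (nat_lit 7) (nat_lit 239) (nat_lit 309) r10_239 r5_309 (nat_lit 0) (nat_lit 0) (nat_lit 0) (nat_lit 0x20a487aa6) (nat_lit 258149456)]
noncomputable def e19_34 : List Rx := [
  Rx.mk (nat_lit 90) (nat_lit 2) (nat_lit 3) (nat_lit 1) (nat_lit 7) (nat_lit 243) (nat_lit 360) r10_243 r11_360 (nat_lit 0) (nat_lit 0) (nat_lit 0) (nat_lit 0x20056d4f2) (nat_lit 268435456),
  Rx.mk (nat_lit 344) (nat_lit 0) (nat_lit 3) (nat_lit 5) (nat_lit 6) (nat_lit 240) (nat_lit 361) r10_240 r11_361 (nat_lit 3853892) (nat_lit 0) (nat_lit 0) (nat_lit 0x209f64bdc) (nat_lit 262322098),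
  Rx.mk (nat_lit 345) (nat_lit 1) (nat_lit 3) (nat_lit 5) (nat_lit 7) (nat_lit 241) (nat_lit 362) r10_241 r11_362 (nat_lit 0) (nat_lit 0) (nat_lit 0) (nat_lit 0x20b95852a) (nat_lit 256813656),
  Rx.mk (nat_lit 346) (nat_lit 2) (nat_lit 3) (nat_lit 5) (nat_lit 7) (nat_lit 242) (nat_lit 363) r10_242 r11_363 (nat_lit 0) (nat_lit 0) (nat_lit 0) (nat_lit 0x20b95852a) (nat_lit 256813656)]
noncomputable def e19_35 : List Rx := [
  Rx.mk (nat_lit 312) (nat_lit 0) (nat_lit 7) (nat_lit 4) (nat_lit 2) (nat_lit 244) (nat_lit 213) r10_244 r6_213 (nat_lit 543948) (nat_lit 0) (nat_lit 471452) (nat_lit 0x1c7149774) (nat_lit 329972906),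
  Rx.mk (nat_lit 313) (nat_lit 1) (nat_lit 7) (nat_lit 4) (nat_lit 3) (nat_lit 249) (nat_lit 214) r10_249 r6_214 (nat_lit 0) (nat_lit 0) (nat_lit 4088468) (nat_lit 0x20ccdca88) (nat_lit 259647924),
  Rx.mk (nat_lit 315) (nat_lit 3) (nat_lit 7) (nat_lit 4) (nat_lit 3) (nat_lit 254) (nat_lit 215) r10_254 r6_215 (nat_lit 0) (nat_lit 0) (nat_lit 2783281) (nat_lit 0x2029b329e) (nat_lit 268826287),
  Rx.mk (nat_lit 376) (nat_lit 0) (nat_lit 7) (nat_lit 5) (nat_lit 6) (nat_lit 245) (nat_lit 216) r10_245 r6_216 (nat_lit 3377596) (nat_lit 0) (nat_lit 0) (nat_lit 0x20e0bc792) (nat_lit 257655702),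
  Rx.mk (nat_lit 379) (nat_lit 3) (nat_lit 7) (nat_lit 5) (nat_lit 7) (nat_lit 255) (nat_lit 217) r10_255 r6_217 (nat_lit 0) (nat_lit 0) (nat_lit 0) (nat_lit 0x21936d120) (nat_lit 242832906),
  Rx.mk (nat_lit 440) (nat_lit 0) (nat_lit 7) (nat_lit 6) (nat_lit 6) (nat_lit 246) (nat_lit 220) r10_246 r6_220 (nat_lit 3377596) (nat_lit 0) (nat_lit 0) (nat_lit 0x20e0bc792) (nat_lit 257655702),
  Rx.mk (nat_lit 441) (nat_lit 1) (nat_lit 7) (nat_lit 6) (nat_lit 7) (nat_lit 250) (nat_lit 221) r10_250 r6_221 (nat_lit 0) (nat_lit 0) (nat_lit 0) (nat_lit 0x206360cda) (nat_lit 262345506),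
  Rx.mk (nat_lit 443) (nat_lit 3) (nat_lit 7) (nat_lit 6) (nat_lit 7) (nat_lit 256) (nat_lit 222) r10_256 r6_222 (nat_lit 0) (nat_lit 0) (nat_lit 0) (nat_lit 0x21936d120) (nat_lit 242832906),
  Rx.mk (nat_lit 472) (nat_lit 0) (nat_lit 3) (nat_lit 7) (nat_lit 6) (nat_lit 248) (nat_lit 210) r10_248 r6_210 (nat_lit 2445729) (nat_lit 0) (nat_lit 0) (nat_lit 0x1fca8a75e) (nat_lit 274684635),
  Rx.mk (nat_lit 473) (nat_lit 1) (nat_lit 3) (nat_lit 7) (nat_lit 7) (nat_lit 252) (nat_lit 211) r10_252 r6_211 (nat_lit 0) (nat_lit 0) (nat_lit 0) (nat_lit 0x21063f2bc) (nat_lit 251877456),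
  Rx.mk (nat_lit 474) (nat_lit 2) (nat_lit 3) (nat_lit 7) (nat_lit 7) (nat_lit 253) (nat_lit 212) r10_253 r6_212 (nat_lit 0) (nat_lit 0) (nat_lit 0) (nat_lit 0x21063f2bc) (nat_lit 251877456),
  Rx.mk (nat_lit 504) (nat_lit 0) (nat_lit 7) (nat_lit 7) (nat_lit 6) (nat_lit 247) (nat_lit 218) r10_247 r6_218 (nat_lit 7687606) (nat_lit 0) (nat_lit 0) (nat_lit 0x1fbd9977a) (nat_lit 280815412),
  Rx.mk (nat_lit 505) (nat_lit 1) (nat_lit 7) (nat_lit 7) (nat_lit 7) (nat_lit 251) (nat_lit 219) r10_251 r6_219 (nat_lit 0) (nat_lit 0) (nat_lit 0) (nat_lit 0x20056d4f2) (nat_lit 268435456)]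
noncomputable def e19_36 : List Rx := [
  Rx.mk (nat_lit 280) (nat_lit 0) (nat_lit 3) (nat_lit 4) (nat_lit 2) (nat_lit 260) (nat_lit 138) r10_260 r12_138 (nat_lit 325914) (nat_lit 0) (nat_lit 322441) (nat_lit 0x1c234ab86) (nat_lit 334766061),
  Rx.mk (nat_lit 281) (nat_lit 1) (nat_lit 3) (nat_lit 4) (nat_lit 3) (nat_lit 265) (nat_lit 144) r10_265 r12_144 (nat_lit 0) (nat_lit 0) (nat_lit 2243506) (nat_lit 0x219b704a8) (nat_lit 244550362),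
  Rx.mk (nat_lit 282) (nat_lit 2) (nat_lit 3) (nat_lit 4) (nat_lit 3) (nat_lit 267) (nat_lit 151) r10_267 r12_151 (nat_lit 0) (nat_lit 0) (nat_lit 2167477) (nat_lit 0x21701f934) (nat_lit 247245333),
  Rx.mk (nat_lit 312) (nat_lit 0) (nat_lit 7) (nat_lit 4) (nat_lit 2) (nat_lit 257) (nat_lit 141) r10_257 r12_141 (nat_lit 322441) (nat_lit 0) (nat_lit 325914) (nat_lit 0x1c234ab86) (nat_lit 334766061),
  Rx.mk (nat_lit 313) (nat_lit 1) (nat_lit 7) (nat_lit 4) (nat_lit 3) (nat_lit 263) (nat_lit 146) r10_263 r12_146 (nat_lit 0) (nat_lit 0) (nat_lit 2881372) (nat_lit 0x22e576b1e) (nat_lit 224085728),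
  Rx.mk (nat_lit 315) (nat_lit 3) (nat_lit 7) (nat_lit 4) (nat_lit 3) (nat_lit 270) (nat_lit 148) r10_270 r12_148 (nat_lit 0) (nat_lit 0) (nat_lit 1837154) (nat_lit 0x1fc64b86e) (nat_lit 274338360),
  Rx.mk (nat_lit 344) (nat_lit 0) (nat_lit 3) (nat_lit 5) (nat_lit 6) (nat_lit 261) (nat_lit 139) r10_261 r12_139 (nat_lit 2881372) (nat_lit 0) (nat_lit 0) (nat_lit 0x22e576b1e) (nat_lit 224085728),
  Rx.mk (nat_lit 346) (nat_lit 2) (nat_lit 3) (nat_lit 5) (nat_lit 7) (nat_lit 268) (nat_lit 152) r10_268 r12_152 (nat_lit 0) (nat_lit 0) (nat_lit 0) (nat_lit 0x20f770088) (nat_lit 252826306),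
  Rx.mk (nat_lit 376) (nat_lit 0) (nat_lit 7) (nat_lit 5) (nat_lit 6) (nat_lit 258) (nat_lit 142) r10_258 r12_142 (nat_lit 2243506) (nat_lit 0) (nat_lit 0) (nat_lit 0x219b704a8) (nat_lit 244550362),
  Rx.mk (nat_lit 379) (nat_lit 3) (nat_lit 7) (nat_lit 5) (nat_lit 7) (nat_lit 271) (nat_lit 149) r10_271 r12_149 (nat_lit 0) (nat_lit 0) (nat_lit 0) (nat_lit 0x23a566000) (nat_lit 208927306),
  Rx.mk (nat_lit 440) (nat_lit 0) (nat_lit 7) (nat_lit 6) (nat_lit 6) (nat_lit 259) (nat_lit 143) r10_259 r12_143 (nat_lit 2167477) (nat_lit 0) (nat_lit 0) (nat_lit 0x21701f934) (nat_lit 247245333),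
  Rx.mk (nat_lit 441) (nat_lit 1) (nat_lit 7) (nat_lit 6) (nat_lit 7) (nat_lit 264) (nat_lit 147) r10_264 r12_147 (nat_lit 0) (nat_lit 0) (nat_lit 0) (nat_lit 0x20f770088) (nat_lit 252826306),
  Rx.mk (nat_lit 443) (nat_lit 3) (nat_lit 7) (nat_lit 6) (nat_lit 7) (nat_lit 272) (nat_lit 150) r10_272 r12_150 (nat_lit 0) (nat_lit 0) (nat_lit 0) (nat_lit 0x23a566000) (nat_lit 208927306),
  Rx.mk (nat_lit 472) (nat_lit 0) (nat_lit 3) (nat_lit 7) (nat_lit 6) (nat_lit 262) (nat_lit 140) r10_262 r12_140 (nat_lit 1837154) (nat_lit 0) (nat_lit 0) (nat_lit 0x1fc64b86e) (nat_lit 274338360),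
  Rx.mk (nat_lit 473) (nat_lit 1) (nat_lit 3) (nat_lit 7) (nat_lit 7) (nat_lit 266) (nat_lit 145) r10_266 r12_145 (nat_lit 0) (nat_lit 0) (nat_lit 0) (nat_lit 0x23a566000) (nat_lit 208927306),
  Rx.mk (nat_lit 474) (nat_lit 2) (nat_lit 3) (nat_lit 7) (nat_lit 7) (nat_lit 269) (nat_lit 153) r10_269 r12_153 (nat_lit 0) (nat_lit 0) (nat_lit 0) (nat_lit 0x23a566000) (nat_lit 208927306)]
noncomputable def e19_37 : List Rx := [
  Rx.mk (nat_lit 289) (nat_lit 1) (nat_lit 4) (nat_lit 4) (nat_lit 1) (nat_lit 273) (nat_lit 322) r10_273 r0_322 (nat_lit 0) (nat_lit 3170624) (nat_lit 6194834) (nat_lit 0x1b029a6a8) (nat_lit 362703714),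
  Rx.mk (nat_lit 297) (nat_lit 1) (nat_lit 5) (nat_lit 4) (nat_lit 3) (nat_lit 276) (nat_lit 323) r10_276 r0_323 (nat_lit 0) (nat_lit 0) (nat_lit 9422464) (nat_lit 0x1fade9d48) (nat_lit 283582920),
  Rx.mk (nat_lit 353) (nat_lit 1) (nat_lit 4) (nat_lit 5) (nat_lit 5) (nat_lit 274) (nat_lit 324) r10_274 r0_324 (nat_lit 0) (nat_lit 11321562) (nat_lit 0) (nat_lit 0x1f9064e3a) (nat_lit 287426518),
  Rx.mk (nat_lit 361) (nat_lit 1) (nat_lit 5) (nat_lit 5) (nat_lit 7) (nat_lit 277) (nat_lit 325) r10_277 r0_325 (nat_lit 0) (nat_lit 0) (nat_lit 0) (nat_lit 0x202f5d6cc) (nat_lit 265708056),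
  Rx.mk (nat_lit 417) (nat_lit 1) (nat_lit 4) (nat_lit 6) (nat_lit 5) (nat_lit 275) (nat_lit 326) r10_275 r0_326 (nat_lit 0) (nat_lit 10331000) (nat_lit 0) (nat_lit 0x1f9843af2) (nat_lit 285917906),
  Rx.mk (nat_lit 425) (nat_lit 1) (nat_lit 5) (nat_lit 6) (nat_lit 7) (nat_lit 278) (nat_lit 327) r10_278 r0_327 (nat_lit 0) (nat_lit 0) (nat_lit 0) (nat_lit 0x20056d4f2) (nat_lit 268435456)]
noncomputable def e19_38 : List Rx := [
  Rx.mk (nat_lit 289) (nat_lit 1) (nat_lit 4) (nat_lit 4) (nat_lit 1) (nat_lit 281) (nat_lit 195) r10_281 r0_195 (nat_lit 0) (nat_lit 895600) (nat_lit 241321) (nat_lit 0x16b880cd8) (nat_lit 427279577),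
  Rx.mk (nat_lit 353) (nat_lit 1) (nat_lit 4) (nat_lit 5) (nat_lit 5) (nat_lit 282) (nat_lit 196) r10_282 r0_196 (nat_lit 0) (nat_lit 3476048) (nat_lit 0) (nat_lit 0x1aa52c732) (nat_lit 363037754),
  Rx.mk (nat_lit 417) (nat_lit 1) (nat_lit 4) (nat_lit 6) (nat_lit 5) (nat_lit 283) (nat_lit 197) r10_283 r0_197 (nat_lit 0) (nat_lit 83120058) (nat_lit 0) (nat_lit 0x201ce892e) (nat_lit 349914064),
  Rx.mk (nat_lit 421) (nat_lit 5) (nat_lit 4) (nat_lit 6) (nat_lit 5) (nat_lit 279) (nat_lit 198) r10_279 r0_198 (nat_lit 0) (nat_lit 55056773) (nat_lit 0) (nat_lit 0x212627822) (nat_lit 304746579),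
  Rx.mk (nat_lit 445) (nat_lit 5) (nat_lit 7) (nat_lit 6) (nat_lit 7) (nat_lit 280) (nat_lit 199) r10_280 r0_199 (nat_lit 0) (nat_lit 0) (nat_lit 0) (nat_lit 0x20d426d7a) (nat_lit 255090656)]
noncomputable def e19_39 : List Rx := [
  Rx.mk (nat_lit 289) (nat_lit 1) (nat_lit 4) (nat_lit 4) (nat_lit 1) (nat_lit 286) (nat_lit 433) r10_286 r7_433 (nat_lit 0) (nat_lit 3623461) (nat_lit 2412682) (nat_lit 0x1b6a7120e) (nat_lit 352500749),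
  Rx.mk (nat_lit 297) (nat_lit 1) (nat_lit 5) (nat_lit 4) (nat_lit 3) (nat_lit 289) (nat_lit 434) r10_289 r7_434 (nat_lit 0) (nat_lit 0) (nat_lit 5997010) (nat_lit 0x1fd77613e) (nat_lit 277419766),
  Rx.mk (nat_lit 353) (nat_lit 1) (nat_lit 4) (nat_lit 5) (nat_lit 5) (nat_lit 287) (nat_lit 435) r10_287 r7_435 (nat_lit 0) (nat_lit 6317275) (nat_lit 0) (nat_lit 0x201d9ccf8) (nat_lit 273168531),
  Rx.mk (nat_lit 361) (nat_lit 1) (nat_lit 5) (nat_lit 5) (nat_lit 7) (nat_lit 290) (nat_lit 436) r10_290 r7_436 (nat_lit 0) (nat_lit 0) (nat_lit 0) (nat_lit 0x20056d4f2) (nat_lit 268435456),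
  Rx.mk (nat_lit 417) (nat_lit 1) (nat_lit 4) (nat_lit 6) (nat_lit 5) (nat_lit 288) (nat_lit 437) r10_288 r7_437 (nat_lit 0) (nat_lit 6317275) (nat_lit 0) (nat_lit 0x201d9ccf8) (nat_lit 273168531),
  Rx.mk (nat_lit 421) (nat_lit 5) (nat_lit 4) (nat_lit 6) (nat_lit 5) (nat_lit 284) (nat_lit 431) r10_284 r7_431 (nat_lit 0) (nat_lit 10225910) (nat_lit 0) (nat_lit 0x1ff76c8d0) (nat_lit 279572466),
  Rx.mk (nat_lit 425) (nat_lit 1) (nat_lit 5) (nat_lit 6) (nat_lit 7) (nat_lit 291) (nat_lit 438) r10_291 r7_438 (nat_lit 0) (nat_lit 0) (nat_lit 0) (nat_lit 0x20056d4f2) (nat_lit 268435456),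
  Rx.mk (nat_lit 429) (nat_lit 5) (nat_lit 5) (nat_lit 6) (nat_lit 7) (nat_lit 285) (nat_lit 432) r10_285 r7_432 (nat_lit 0) (nat_lit 0) (nat_lit 0) (nat_lit 0x20056d4f2) (nat_lit 268435456)]
noncomputable def e19_40 : List Rx := [
  Rx.mk (nat_lit 420) (nat_lit 4) (nat_lit 4) (nat_lit 6) (nat_lit 4) (nat_lit 292) (nat_lit 230) r10_292 r2_230 (nat_lit 2365106) (nat_lit 2754889) (nat_lit 0) (nat_lit 0x1b79e19f0) (nat_lit 350541501),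
  Rx.mk (nat_lit 421) (nat_lit 5) (nat_lit 4) (nat_lit 6) (nat_lit 5) (nat_lit 295) (nat_lit 231) r10_295 r2_231 (nat_lit 0) (nat_lit 9805262) (nat_lit 0) (nat_lit 0x1febed6b2) (nat_lit 279901468),
  Rx.mk (nat_lit 436) (nat_lit 4) (nat_lit 6) (nat_lit 6) (nat_lit 6) (nat_lit 293) (nat_lit 235) r10_293 r2_235 (nat_lit 9484367) (nat_lit 0) (nat_lit 0) (nat_lit 0x1ff9e8172) (nat_lit 278669773),
  Rx.mk (nat_lit 437) (nat_lit 5) (nat_lit 6) (nat_lit 6) (nat_lit 7) (nat_lit 296) (nat_lit 236) r10_296 r2_236 (nat_lit 0) (nat_lit 0) (nat_lit 0) (nat_lit 0x20056d4f2) (nat_lit 268435456),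
  Rx.mk (nat_lit 444) (nat_lit 4) (nat_lit 7) (nat_lit 6) (nat_lit 6) (nat_lit 294) (nat_lit 232) r10_294 r2_232 (nat_lit 5285914) (nat_lit 0) (nat_lit 0) (nat_lit 0x2073a5046) (nat_lit 266585770),
  Rx.mk (nat_lit 445) (nat_lit 5) (nat_lit 7) (nat_lit 6) (nat_lit 7) (nat_lit 297) (nat_lit 233) r10_297 r2_233 (nat_lit 0) (nat_lit 0) (nat_lit 0) (nat_lit 0x20056d4f2) (nat_lit 268435456),
  Rx.mk (nat_lit 447) (nat_lit 7) (nat_lit 7) (nat_lit 6) (nat_lit 7) (nat_lit 298) (nat_lit 234) r10_298 r2_234 (nat_lit 0) (nat_lit 0) (nat_lit 0) (nat_lit 0x20056d4f2) (nat_lit 268435456)]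
noncomputable def e19_41 : List Rx := [
  Rx.mk (nat_lit 420) (nat_lit 4) (nat_lit 4) (nat_lit 6) (nat_lit 4) (nat_lit 299) (nat_lit 209) r10_299 r9_209 (nat_lit 18196586) (nat_lit 11812790) (nat_lit 0) (nat_lit 0x199bf684e) (nat_lit 407198282),
  Rx.mk (nat_lit 421) (nat_lit 5) (nat_lit 4) (nat_lit 6) (nat_lit 5) (nat_lit 301) (nat_lit 210) r10_301 r9_210 (nat_lit 0) (nat_lit 9793623) (nat_lit 0) (nat_lit 0x1fffcca48) (nat_lit 278595379),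
  Rx.mk (nat_lit 429) (nat_lit 5) (nat_lit 5) (nat_lit 6) (nat_lit 7) (nat_lit 302) (nat_lit 211) r10_302 r9_211 (nat_lit 0) (nat_lit 0) (nat_lit 0) (nat_lit 0x20056d4f2) (nat_lit 268435456),
  Rx.mk (nat_lit 436) (nat_lit 4) (nat_lit 6) (nat_lit 6) (nat_lit 6) (nat_lit 300) (nat_lit 212) r10_300 r9_212 (nat_lit 9484367) (nat_lit 0) (nat_lit 0) (nat_lit 0x20056d4f2) (nat_lit 277919823),
  Rx.mk (nat_lit 437) (nat_lit 5) (nat_lit 6) (nat_lit 6) (nat_lit 7) (nat_lit 303) (nat_lit 213) r10_303 r9_213 (nat_lit 0) (nat_lit 0) (nat_lit 0) (nat_lit 0x20056d4f2) (nat_lit 268435456)]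
noncomputable def e19_42 : List Rx := [
  Rx.mk (nat_lit 180) (nat_lit 4) (nat_lit 6) (nat_lit 2) (nat_lit 6) (nat_lit 306) (nat_lit 143) r10_306 r9_143 (nat_lit 9484367) (nat_lit 0) (nat_lit 0) (nat_lit 0x1fe0f9b52) (nat_lit 280290373),
  Rx.mk (nat_lit 181) (nat_lit 5) (nat_lit 6) (nat_lit 2) (nat_lit 7) (nat_lit 310) (nat_lit 144) r10_310 r9_144 (nat_lit 0) (nat_lit 0) (nat_lit 0) (nat_lit 0x20056d4f2) (nat_lit 268435456),
  Rx.mk (nat_lit 182) (nat_lit 6) (nat_lit 6) (nat_lit 2) (nat_lit 7) (nat_lit 312) (nat_lit 145) r10_312 r9_145 (nat_lit 0) (nat_lit 0) (nat_lit 0) (nat_lit 0x20056d4f2) (nat_lit 268435456),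
  Rx.mk (nat_lit 420) (nat_lit 4) (nat_lit 4) (nat_lit 6) (nat_lit 4) (nat_lit 304) (nat_lit 136) r10_304 r9_136 (nat_lit 18297468) (nat_lit 10859836) (nat_lit 0) (nat_lit 0x18a1becbe) (nat_lit 422951410),
  Rx.mk (nat_lit 421) (nat_lit 5) (nat_lit 4) (nat_lit 6) (nat_lit 5) (nat_lit 308) (nat_lit 137) r10_308 r9_137 (nat_lit 0) (nat_lit 11205477) (nat_lit 0) (nat_lit 0x1fe9e5b26) (nat_lit 281435233),
  Rx.mk (nat_lit 436) (nat_lit 4) (nat_lit 6) (nat_lit 6) (nat_lit 6) (nat_lit 305) (nat_lit 141) r10_305 r9_141 (nat_lit 9484367) (nat_lit 0) (nat_lit 0) (nat_lit 0x1fe9978ae) (nat_lit 279734173),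
  Rx.mk (nat_lit 437) (nat_lit 5) (nat_lit 6) (nat_lit 6) (nat_lit 7) (nat_lit 309) (nat_lit 142) r10_309 r9_142 (nat_lit 0) (nat_lit 0) (nat_lit 0) (nat_lit 0x20056d4f2) (nat_lit 268435456),
  Rx.mk (nat_lit 444) (nat_lit 4) (nat_lit 7) (nat_lit 6) (nat_lit 6) (nat_lit 307) (nat_lit 138) r10_307 r9_138 (nat_lit 9325504) (nat_lit 0) (nat_lit 0) (nat_lit 0x1feec417e) (nat_lit 279237760),
  Rx.mk (nat_lit 445) (nat_lit 5) (nat_lit 7) (nat_lit 6) (nat_lit 7) (nat_lit 311) (nat_lit 139) r10_311 r9_139 (nat_lit 0) (nat_lit 0) (nat_lit 0) (nat_lit 0x20056d4f2) (nat_lit 268435456),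
  Rx.mk (nat_lit 447) (nat_lit 7) (nat_lit 7) (nat_lit 6) (nat_lit 7) (nat_lit 313) (nat_lit 140) r10_313 r9_140 (nat_lit 0) (nat_lit 0) (nat_lit 0) (nat_lit 0x20056d4f2) (nat_lit 268435456)]
noncomputable def e19_43 : List Rx := [
  Rx.mk (nat_lit 421) (nat_lit 5) (nat_lit 4) (nat_lit 6) (nat_lit 5) (nat_lit 314) (nat_lit 217) r10_314 r1_217 (nat_lit 0) (nat_lit 58027450) (nat_lit 0) (nat_lit 0x21a734438) (nat_lit 299572206),
  Rx.mk (nat_lit 437) (nat_lit 5) (nat_lit 6) (nat_lit 6) (nat_lit 7) (nat_lit 315) (nat_lit 219) r10_315 r1_219 (nat_lit 0) (nat_lit 0) (nat_lit 0) (nat_lit 0x20a75a3fa) (nat_lit 257956456),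
  Rx.mk (nat_lit 445) (nat_lit 5) (nat_lit 7) (nat_lit 6) (nat_lit 7) (nat_lit 316) (nat_lit 218) r10_316 r1_218 (nat_lit 0) (nat_lit 0) (nat_lit 0) (nat_lit 0x202e90604) (nat_lit 265759956)]
noncomputable def e19_44 : List Rx := [
  Rx.mk (nat_lit 421) (nat_lit 5) (nat_lit 4) (nat_lit 6) (nat_lit 5) (nat_lit 317) (nat_lit 355) r10_317 r8_355 (nat_lit 0) (nat_lit 11260883) (nat_lit 0) (nat_lit 0x1fe865990) (nat_lit 281588039),
  Rx.mk (nat_lit 429) (nat_lit 5) (nat_lit 5) (nat_lit 6) (nat_lit 7) (nat_lit 318) (nat_lit 356) r10_318 r8_356 (nat_lit 0) (nat_lit 0) (nat_lit 0) (nat_lit 0x20056d4f2) (nat_lit 268435456),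
  Rx.mk (nat_lit 437) (nat_lit 5) (nat_lit 6) (nat_lit 6) (nat_lit 7) (nat_lit 319) (nat_lit 357) r10_319 r8_357 (nat_lit 0) (nat_lit 0) (nat_lit 0) (nat_lit 0x20056d4f2) (nat_lit 268435456)]
noncomputable def e19_45 : List Rx := [
  Rx.mk (nat_lit 297) (nat_lit 1) (nat_lit 5) (nat_lit 4) (nat_lit 3) (nat_lit 320) (nat_lit 307) r10_320 r1_307 (nat_lit 0) (nat_lit 0) (nat_lit 8852219) (nat_lit 0x1ee1179aa) (nat_lit 296542475),
  Rx.mk (nat_lit 361) (nat_lit 1) (nat_lit 5) (nat_lit 5) (nat_lit 7) (nat_lit 321) (nat_lit 308) r10_321 r1_308 (nat_lit 0) (nat_lit 0) (nat_lit 0) (nat_lit 0x20056d4f2) (nat_lit 268435456),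
  Rx.mk (nat_lit 425) (nat_lit 1) (nat_lit 5) (nat_lit 6) (nat_lit 7) (nat_lit 322) (nat_lit 309) r10_322 r1_309 (nat_lit 0) (nat_lit 0) (nat_lit 0) (nat_lit 0x20056d4f2) (nat_lit 268435456)]
noncomputable def e19_46 : List Rx := [
  Rx.mk (nat_lit 329) (nat_lit 1) (nat_lit 1) (nat_lit 5) (nat_lit 7) (nat_lit 324) (nat_lit 355) r10_324 r2_355 (nat_lit 0) (nat_lit 0) (nat_lit 0) (nat_lit 0x20056d4f2) (nat_lit 268435456),
  Rx.mk (nat_lit 361) (nat_lit 1) (nat_lit 5) (nat_lit 5) (nat_lit 7) (nat_lit 323) (nat_lit 354) r10_323 r2_354 (nat_lit 0) (nat_lit 0) (nat_lit 0) (nat_lit 0x20056d4f2) (nat_lit 268435456)]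
noncomputable def e19_47 : List Rx := [
  Rx.mk (nat_lit 297) (nat_lit 1) (nat_lit 5) (nat_lit 4) (nat_lit 3) (nat_lit 326) (nat_lit 194) r10_326 r8_194 (nat_lit 0) (nat_lit 0) (nat_lit 9484367) (nat_lit 0x20056d4f2) (nat_lit 277919823),
  Rx.mk (nat_lit 361) (nat_lit 1) (nat_lit 5) (nat_lit 5) (nat_lit 7) (nat_lit 327) (nat_lit 195) r10_327 r8_195 (nat_lit 0) (nat_lit 0) (nat_lit 0) (nat_lit 0x20056d4f2) (nat_lit 268435456),
  Rx.mk (nat_lit 425) (nat_lit 1) (nat_lit 5) (nat_lit 6) (nat_lit 7) (nat_lit 328) (nat_lit 196) r10_328 r8_196 (nat_lit 0) (nat_lit 0) (nat_lit 0) (nat_lit 0x20056d4f2) (nat_lit 268435456),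
  Rx.mk (nat_lit 429) (nat_lit 5) (nat_lit 5) (nat_lit 6) (nat_lit 7) (nat_lit 325) (nat_lit 197) r10_325 r8_197 (nat_lit 0) (nat_lit 0) (nat_lit 0) (nat_lit 0x20056d4f2) (nat_lit 268435456)]
noncomputable def e19_48 : List Rx := [
  Rx.mk (nat_lit 329) (nat_lit 1) (nat_lit 1) (nat_lit 5) (nat_lit 7) (nat_lit 330) (nat_lit 318) r10_330 r9_318 (nat_lit 0) (nat_lit 0) (nat_lit 0) (nat_lit 0x20056d4f2) (nat_lit 268435456),
  Rx.mk (nat_lit 361) (nat_lit 1) (nat_lit 5) (nat_lit 5) (nat_lit 7) (nat_lit 329) (nat_lit 317) r10_329 r9_317 (nat_lit 0) (nat_lit 0) (nat_lit 0) (nat_lit 0x20056d4f2) (nat_lit 268435456)]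
noncomputable def e19_49 : List Rx := [
  Rx.mk (nat_lit 329) (nat_lit 1) (nat_lit 1) (nat_lit 5) (nat_lit 7) (nat_lit 332) (nat_lit 317) r10_332 r9_317 (nat_lit 0) (nat_lit 0) (nat_lit 0) (nat_lit 0x20056d4f2) (nat_lit 268435456),
  Rx.mk (nat_lit 361) (nat_lit 1) (nat_lit 5) (nat_lit 5) (nat_lit 7) (nat_lit 331) (nat_lit 318) r10_331 r9_318 (nat_lit 0) (nat_lit 0) (nat_lit 0) (nat_lit 0x20056d4f2) (nat_lit 268435456)]
noncomputable def e19_50 : List Rx := [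
  Rx.mk (nat_lit 289) (nat_lit 1) (nat_lit 4) (nat_lit 4) (nat_lit 1) (nat_lit 333) (nat_lit 325) r10_333 r3_325 (nat_lit 0) (nat_lit 22038) (nat_lit 28184) (nat_lit 0x19f3c35a4) (nat_lit 371241528),
  Rx.mk (nat_lit 313) (nat_lit 1) (nat_lit 7) (nat_lit 4) (nat_lit 3) (nat_lit 336) (nat_lit 326) r10_336 r3_326 (nat_lit 0) (nat_lit 0) (nat_lit 117878) (nat_lit 0x21410723c) (nat_lit 248064234),
  Rx.mk (nat_lit 353) (nat_lit 1) (nat_lit 4) (nat_lit 5) (nat_lit 5) (nat_lit 334) (nat_lit 327) r10_334 r3_327 (nat_lit 0) (nat_lit 9858675) (nat_lit 0) (nat_lit 0x1ee4c0a34) (nat_lit 297282781),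
  Rx.mk (nat_lit 377) (nat_lit 1) (nat_lit 7) (nat_lit 5) (nat_lit 7) (nat_lit 337) (nat_lit 328) r10_337 r3_328 (nat_lit 0) (nat_lit 0) (nat_lit 0) (nat_lit 0x241a52c38) (nat_lit 201440206),
  Rx.mk (nat_lit 417) (nat_lit 1) (nat_lit 4) (nat_lit 6) (nat_lit 5) (nat_lit 335) (nat_lit 329) r10_335 r3_329 (nat_lit 0) (nat_lit 10913577) (nat_lit 0) (nat_lit 0x1f00f05c4) (nat_lit 296487483),
  Rx.mk (nat_lit 441) (nat_lit 1) (nat_lit 7) (nat_lit 6) (nat_lit 7) (nat_lit 338) (nat_lit 330) r10_338 r3_330 (nat_lit 0) (nat_lit 0) (nat_lit 0) (nat_lit 0x24372f78e) (nat_lit 199595806)]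
noncomputable def e19_51 : List Rx := [
  Rx.mk (nat_lit 289) (nat_lit 1) (nat_lit 4) (nat_lit 4) (nat_lit 1) (nat_lit 339) (nat_lit 355) r10_339 r4_355 (nat_lit 0) (nat_lit 9177885) (nat_lit 11803392) (nat_lit 0x1c1522bbc) (nat_lit 356144783),
  Rx.mk (nat_lit 297) (nat_lit 1) (nat_lit 5) (nat_lit 4) (nat_lit 3) (nat_lit 342) (nat_lit 356) r10_342 r4_356 (nat_lit 0) (nat_lit 0) (nat_lit 9484367) (nat_lit 0x20056d4f2) (nat_lit 277919823),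
  Rx.mk (nat_lit 313) (nat_lit 1) (nat_lit 7) (nat_lit 4) (nat_lit 3) (nat_lit 345) (nat_lit 357) r10_345 r4_357 (nat_lit 0) (nat_lit 0) (nat_lit 7299409) (nat_lit 0x201db5762) (nat_lit 274149815),
  Rx.mk (nat_lit 353) (nat_lit 1) (nat_lit 4) (nat_lit 5) (nat_lit 5) (nat_lit 340) (nat_lit 358) r10_340 r4_358 (nat_lit 0) (nat_lit 6732829) (nat_lit 0) (nat_lit 0x2042a019e) (nat_lit 271193535),
  Rx.mk (nat_lit 361) (nat_lit 1) (nat_lit 5) (nat_lit 5) (nat_lit 7) (nat_lit 343) (nat_lit 359) r10_343 r4_359 (nat_lit 0) (nat_lit 0) (nat_lit 0) (nat_lit 0x20056d4f2) (nat_lit 268435456),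
  Rx.mk (nat_lit 377) (nat_lit 1) (nat_lit 7) (nat_lit 5) (nat_lit 7) (nat_lit 346) (nat_lit 360) r10_346 r4_360 (nat_lit 0) (nat_lit 0) (nat_lit 0) (nat_lit 0x20056d4f2) (nat_lit 268435456),
  Rx.mk (nat_lit 417) (nat_lit 1) (nat_lit 4) (nat_lit 6) (nat_lit 5) (nat_lit 341) (nat_lit 361) r10_341 r4_361 (nat_lit 0) (nat_lit 9484367) (nat_lit 0) (nat_lit 0x2043d17e8) (nat_lit 273866873),
  Rx.mk (nat_lit 425) (nat_lit 1) (nat_lit 5) (nat_lit 6) (nat_lit 7) (nat_lit 344) (nat_lit 362) r10_344 r4_362 (nat_lit 0) (nat_lit 0) (nat_lit 0) (nat_lit 0x20056d4f2) (nat_lit 268435456)]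
noncomputable def e19_52 : List Rx := [
  Rx.mk (nat_lit 313) (nat_lit 1) (nat_lit 7) (nat_lit 4) (nat_lit 3) (nat_lit 347) (nat_lit 307) r10_347 r5_307 (nat_lit 0) (nat_lit 0) (nat_lit 3329919) (nat_lit 0x1ffcb0cec) (nat_lit 272305225),
  Rx.mk (nat_lit 377) (nat_lit 1) (nat_lit 7) (nat_lit 5) (nat_lit 7) (nat_lit 348) (nat_lit 308) r10_348 r5_308 (nat_lit 0) (nat_lit 0) (nat_lit 0) (nat_lit 0x20a492d52) (nat_lit 258146656),
  Rx.mk (nat_lit 441) (nat_lit 1) (nat_lit 7) (nat_lit 6) (nat_lit 7) (nat_lit 349) (nat_lit 309) r10_349 r5_309 (nat_lit 0) (nat_lit 0) (nat_lit 0) (nat_lit 0x20a487aa6) (nat_lit 258149456)]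
noncomputable def e19_53 : List Rx := [
  Rx.mk (nat_lit 289) (nat_lit 1) (nat_lit 4) (nat_lit 4) (nat_lit 1) (nat_lit 351) (nat_lit 181) r10_351 r4_181 (nat_lit 0) (nat_lit 8432825) (nat_lit 2605608) (nat_lit 0x17532ea0a) (nat_lit 427006439),
  Rx.mk (nat_lit 313) (nat_lit 1) (nat_lit 7) (nat_lit 4) (nat_lit 3) (nat_lit 354) (nat_lit 184) r10_354 r4_184 (nat_lit 0) (nat_lit 0) (nat_lit 2776969) (nat_lit 0x1ed7bc590) (nat_lit 291044925),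
  Rx.mk (nat_lit 353) (nat_lit 1) (nat_lit 4) (nat_lit 5) (nat_lit 5) (nat_lit 352) (nat_lit 182) r10_352 r4_182 (nat_lit 0) (nat_lit 7691568) (nat_lit 0) (nat_lit 0x205c40dba) (nat_lit 270495974),
  Rx.mk (nat_lit 377) (nat_lit 1) (nat_lit 7) (nat_lit 5) (nat_lit 7) (nat_lit 355) (nat_lit 185) r10_355 r4_185 (nat_lit 0) (nat_lit 0) (nat_lit 0) (nat_lit 0x2104890bc) (nat_lit 251988106),
  Rx.mk (nat_lit 417) (nat_lit 1) (nat_lit 4) (nat_lit 6) (nat_lit 5) (nat_lit 353) (nat_lit 183) r10_353 r4_183 (nat_lit 0) (nat_lit 7650699) (nat_lit 0) (nat_lit 0x1fef4329e) (nat_lit 277519855),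
  Rx.mk (nat_lit 441) (nat_lit 1) (nat_lit 7) (nat_lit 6) (nat_lit 7) (nat_lit 356) (nat_lit 186) r10_356 r4_186 (nat_lit 0) (nat_lit 0) (nat_lit 0) (nat_lit 0x2104890bc) (nat_lit 251988106),
  Rx.mk (nat_lit 445) (nat_lit 5) (nat_lit 7) (nat_lit 6) (nat_lit 7) (nat_lit 350) (nat_lit 187) r10_350 r4_187 (nat_lit 0) (nat_lit 0) (nat_lit 0) (nat_lit 0x20542d5ec) (nat_lit 263324306)]
noncomputable def e19_54 : List Rx := [
  Rx.mk (nat_lit 289) (nat_lit 1) (nat_lit 4) (nat_lit 4) (nat_lit 1) (nat_lit 357) (nat_lit 357) r10_357 r10_357 (nat_lit 0) (nat_lit 1983755) (nat_lit 1983755) (nat_lit 0x1b2e4b202) (nat_lit 354440066),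
  Rx.mk (nat_lit 297) (nat_lit 1) (nat_lit 5) (nat_lit 4) (nat_lit 3) (nat_lit 360) (nat_lit 358) r10_360 r10_358 (nat_lit 0) (nat_lit 0) (nat_lit 9484367) (nat_lit 0x20056d4f2) (nat_lit 277919823),
  Rx.mk (nat_lit 313) (nat_lit 1) (nat_lit 7) (nat_lit 4) (nat_lit 3) (nat_lit 363) (nat_lit 359) r10_363 r10_359 (nat_lit 0) (nat_lit 0) (nat_lit 9484367) (nat_lit 0x20056d4f2) (nat_lit 277919823),
  Rx.mk (nat_lit 353) (nat_lit 1) (nat_lit 4) (nat_lit 5) (nat_lit 5) (nat_lit 358) (nat_lit 360) r10_358 r10_360 (nat_lit 0) (nat_lit 9484367) (nat_lit 0) (nat_lit 0x20056d4f2) (nat_lit 277919823),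
  Rx.mk (nat_lit 361) (nat_lit 1) (nat_lit 5) (nat_lit 5) (nat_lit 7) (nat_lit 361) (nat_lit 361) r10_361 r10_361 (nat_lit 0) (nat_lit 0) (nat_lit 0) (nat_lit 0x20056d4f2) (nat_lit 268435456),
  Rx.mk (nat_lit 377) (nat_lit 1) (nat_lit 7) (nat_lit 5) (nat_lit 7) (nat_lit 364) (nat_lit 362) r10_364 r10_362 (nat_lit 0) (nat_lit 0) (nat_lit 0) (nat_lit 0x20056d4f2) (nat_lit 268435456),
  Rx.mk (nat_lit 417) (nat_lit 1) (nat_lit 4) (nat_lit 6) (nat_lit 5) (nat_lit 359) (nat_lit 363) r10_359 r10_363 (nat_lit 0) (nat_lit 9484367) (nat_lit 0) (nat_lit 0x20056d4f2) (nat_lit 277919823),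
  Rx.mk (nat_lit 425) (nat_lit 1) (nat_lit 5) (nat_lit 6) (nat_lit 7) (nat_lit 362) (nat_lit 364) r10_362 r10_364 (nat_lit 0) (nat_lit 0) (nat_lit 0) (nat_lit 0x20056d4f2) (nat_lit 268435456)]
noncomputable def e19_55 : List Rx := [
  Rx.mk (nat_lit 313) (nat_lit 1) (nat_lit 7) (nat_lit 4) (nat_lit 3) (nat_lit 366) (nat_lit 361) r10_366 r11_361 (nat_lit 0) (nat_lit 0) (nat_lit 3853892) (nat_lit 0x209f64bdc) (nat_lit 262322098),
  Rx.mk (nat_lit 377) (nat_lit 1) (nat_lit 7) (nat_lit 5) (nat_lit 7) (nat_lit 367) (nat_lit 362) r10_367 r11_362 (nat_lit 0) (nat_lit 0) (nat_lit 0) (nat_lit 0x20b95852a) (nat_lit 256813656),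
  Rx.mk (nat_lit 441) (nat_lit 1) (nat_lit 7) (nat_lit 6) (nat_lit 7) (nat_lit 368) (nat_lit 363) r10_368 r11_363 (nat_lit 0) (nat_lit 0) (nat_lit 0) (nat_lit 0x20b95852a) (nat_lit 256813656),
  Rx.mk (nat_lit 445) (nat_lit 5) (nat_lit 7) (nat_lit 6) (nat_lit 7) (nat_lit 365) (nat_lit 360) r10_365 r11_360 (nat_lit 0) (nat_lit 0) (nat_lit 0) (nat_lit 0x20056d4f2) (nat_lit 268435456)]
noncomputable def e19_56 : List Rx := [
  Rx.mk (nat_lit 289) (nat_lit 1) (nat_lit 4) (nat_lit 4) (nat_lit 1) (nat_lit 369) (nat_lit 197) r10_369 r5_197 (nat_lit 0) (nat_lit 7751834) (nat_lit 2115614) (nat_lit 0x1caf6c47a) (nat_lit 334773104),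
  Rx.mk (nat_lit 313) (nat_lit 1) (nat_lit 7) (nat_lit 4) (nat_lit 3) (nat_lit 371) (nat_lit 199) r10_371 r5_199 (nat_lit 0) (nat_lit 0) (nat_lit 2593846) (nat_lit 0x20984c2c8) (nat_lit 261503202),
  Rx.mk (nat_lit 417) (nat_lit 1) (nat_lit 4) (nat_lit 6) (nat_lit 5) (nat_lit 370) (nat_lit 198) r10_370 r5_198 (nat_lit 0) (nat_lit 9484367) (nat_lit 0) (nat_lit 0x20056d4f2) (nat_lit 277919823),
  Rx.mk (nat_lit 441) (nat_lit 1) (nat_lit 7) (nat_lit 6) (nat_lit 7) (nat_lit 372) (nat_lit 201) r10_372 r5_201 (nat_lit 0) (nat_lit 0) (nat_lit 0) (nat_lit 0x20ab8a45c) (nat_lit 257698456),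
  Rx.mk (nat_lit 505) (nat_lit 1) (nat_lit 7) (nat_lit 7) (nat_lit 7) (nat_lit 373) (nat_lit 200) r10_373 r5_200 (nat_lit 0) (nat_lit 0) (nat_lit 0) (nat_lit 0x20056d4f2) (nat_lit 268435456)]
noncomputable def e19_57 : List Rx := [
  Rx.mk (nat_lit 289) (nat_lit 1) (nat_lit 4) (nat_lit 4) (nat_lit 1) (nat_lit 374) (nat_lit 230) r10_374 r11_230 (nat_lit 0) (nat_lit 22785138) (nat_lit 8625288) (nat_lit 0x1fba8cb7c) (nat_lit 304735382),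
  Rx.mk (nat_lit 297) (nat_lit 1) (nat_lit 5) (nat_lit 4) (nat_lit 3) (nat_lit 376) (nat_lit 232) r10_376 r11_232 (nat_lit 0) (nat_lit 0) (nat_lit 9484367) (nat_lit 0x20056d4f2) (nat_lit 277919823),
  Rx.mk (nat_lit 313) (nat_lit 1) (nat_lit 7) (nat_lit 4) (nat_lit 3) (nat_lit 378) (nat_lit 234) r10_378 r11_234 (nat_lit 0) (nat_lit 0) (nat_lit 9484367) (nat_lit 0x20056d4f2) (nat_lit 277919823),
  Rx.mk (nat_lit 417) (nat_lit 1) (nat_lit 4) (nat_lit 6) (nat_lit 5) (nat_lit 375) (nat_lit 231) r10_375 r11_231 (nat_lit 0) (nat_lit 9484367) (nat_lit 0) (nat_lit 0x20056d4f2) (nat_lit 277919823),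
  Rx.mk (nat_lit 425) (nat_lit 1) (nat_lit 5) (nat_lit 6) (nat_lit 7) (nat_lit 377) (nat_lit 233) r10_377 r11_233 (nat_lit 0) (nat_lit 0) (nat_lit 0) (nat_lit 0x20056d4f2) (nat_lit 268435456),
  Rx.mk (nat_lit 505) (nat_lit 1) (nat_lit 7) (nat_lit 7) (nat_lit 7) (nat_lit 379) (nat_lit 235) r10_379 r11_235 (nat_lit 0) (nat_lit 0) (nat_lit 0) (nat_lit 0x20056d4f2) (nat_lit 268435456)]
noncomputable def e19 : List (List Rx) := [e19_0, e19_1, e19_2, e19_3, e19_4, e19_5, e19_6, e19_7, e19_8, e19_9, e19_10, e19_11, e19_12, e19_13, e19_14, e19_15, e19_16, e19_17, e19_18, e19_19, e19_20, e19_21, e19_22, e19_23, e19_24, e19_25, e19_26, e19_27, e19_28, e19_29, e19_30, e19_31, e19_32, e19_33, e19_34, e19_35, e19_36, e19_37, e19_38, e19_39, e19_40, e19_41, e19_42, e19_43, e19_44, e19_45, e19_46, e19_47, e19_48, e19_49, e19_50, e19_51, e19_52, e19_53, e19_54, e19_55,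 e19_56, e19_57]
noncomputable def e20_0 : List Rx := [
  Rx.mk (nat_lit 18) (nat_lit 2) (nat_lit 2) (nat_lit 0) (nat_lit 3) (nat_lit 0) (nat_lit 152) r11_0 r0_152 (nat_lit 0) (nat_lit 0) (nat_lit 7183742) (nat_lit 0x1fc9b009a) (nat_lit 279512798),
  Rx.mk (nat_lit 210) (nat_lit 2) (nat_lit 2) (nat_lit 3) (nat_lit 7) (nat_lit 1) (nat_lit 153) r11_1 r0_153 (nat_lit 0) (nat_lit 0) (nat_lit 0) (nat_lit 0x202537062) (nat_lit 266367056)]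
noncomputable def e20_1 : List Rx := [
  Rx.mk (nat_lit 18) (nat_lit 2) (nat_lit 2) (nat_lit 0) (nat_lit 3) (nat_lit 2) (nat_lit 166) r11_2 r1_166 (nat_lit 0) (nat_lit 0) (nat_lit 9532976) (nat_lit 0x1fc3f2f7c) (nat_lit 282249032),
  Rx.mk (nat_lit 82) (nat_lit 2) (nat_lit 2) (nat_lit 1) (nat_lit 7) (nat_lit 3) (nat_lit 167) r11_3 r1_167 (nat_lit 0) (nat_lit 0) (nat_lit 0) (nat_lit 0x20056d4f2) (nat_lit 268435456),
  Rx.mk (nat_lit 210) (nat_lit 2) (nat_lit 2) (nat_lit 3) (nat_lit 7) (nat_lit 4) (nat_lit 168) r11_4 r1_168 (nat_lit 0) (nat_lit 0) (nat_lit 0) (nat_lit 0x20056d4f2) (nat_lit 268435456)]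
noncomputable def e20_2 : List Rx := [
  Rx.mk (nat_lit 82) (nat_lit 2) (nat_lit 2) (nat_lit 1) (nat_lit 7) (nat_lit 5) (nat_lit 167) r11_5 r2_167 (nat_lit 0) (nat_lit 0) (nat_lit 0) (nat_lit 0x20056d4f2) (nat_lit 268435456)]
noncomputable def e20_3 : List Rx := [
  Rx.mk (nat_lit 210) (nat_lit 2) (nat_lit 2) (nat_lit 3) (nat_lit 7) (nat_lit 6) (nat_lit 140) r11_6 r3_140 (nat_lit 0) (nat_lit 0) (nat_lit 0) (nat_lit 0x2267c3c08) (nat_lit 229181406),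
  Rx.mk (nat_lit 443) (nat_lit 3) (nat_lit 7) (nat_lit 6) (nat_lit 7) (nat_lit 7) (nat_lit 139) r11_7 r3_139 (nat_lit 0) (nat_lit 0) (nat_lit 0) (nat_lit 0x2467fe22a) (nat_lit 196369006)]
noncomputable def e20_4 : List Rx := [
  Rx.mk (nat_lit 210) (nat_lit 2) (nat_lit 2) (nat_lit 3) (nat_lit 7) (nat_lit 8) (nat_lit 143) r11_8 r4_143 (nat_lit 0) (nat_lit 0) (nat_lit 0) (nat_lit 0x20056d4f2) (nat_lit 268435456)]
noncomputable def e20_5 : List Rx := [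
  Rx.mk (nat_lit 210) (nat_lit 2) (nat_lit 2) (nat_lit 3) (nat_lit 7) (nat_lit 13) (nat_lit 148) r11_13 r5_148 (nat_lit 0) (nat_lit 0) (nat_lit 0) (nat_lit 0x210c11942) (nat_lit 251494756),
  Rx.mk (nat_lit 283) (nat_lit 3) (nat_lit 3) (nat_lit 4) (nat_lit 3) (nat_lit 16) (nat_lit 142) r11_16 r5_142 (nat_lit 0) (nat_lit 0) (nat_lit 4927115) (nat_lit 0x1f6e9980a) (nat_lit 283242871),
  Rx.mk (nat_lit 411) (nat_lit 3) (nat_lit 3) (nat_lit 6) (nat_lit 7) (nat_lit 17) (nat_lit 144) r11_17 r5_144 (nat_lit 0) (nat_lit 0) (nat_lit 0) (nat_lit 0x20056d4f2) (nat_lit 268435456),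
  Rx.mk (nat_lit 443) (nat_lit 3) (nat_lit 7) (nat_lit 6) (nat_lit 7) (nat_lit 15) (nat_lit 145) r11_15 r5_145 (nat_lit 0) (nat_lit 0) (nat_lit 0) (nat_lit 0x24aa139d0) (nat_lit 192250056),
  Rx.mk (nat_lit 448) (nat_lit 0) (nat_lit 0) (nat_lit 7) (nat_lit 4) (nat_lit 9) (nat_lit 140) r11_9 r5_140 (nat_lit 143999) (nat_lit 213815) (nat_lit 0) (nat_lit 0x1ccb719fe) (nat_lit 323293720),
  Rx.mk (nat_lit 450) (nat_lit 2) (nat_lit 0) (nat_lit 7) (nat_lit 5) (nat_lit 11) (nat_lit 146) r11_11 r5_146 (nat_lit 0) (nat_lit 2356679) (nat_lit 0) (nat_lit 0x20655c796) (nat_lit 264531935),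
  Rx.mk (nat_lit 466) (nat_lit 2) (nat_lit 2) (nat_lit 7) (nat_lit 7) (nat_lit 12) (nat_lit 149) r11_12 r5_149 (nat_lit 0) (nat_lit 0) (nat_lit 0) (nat_lit 0x206b1e06c) (nat_lit 261845856),
  Rx.mk (nat_lit 472) (nat_lit 0) (nat_lit 3) (nat_lit 7) (nat_lit 6) (nat_lit 10) (nat_lit 141) r11_10 r5_141 (nat_lit 1342349) (nat_lit 0) (nat_lit 0) (nat_lit 0x218302e34) (nat_lit 245194805),
  Rx.mk (nat_lit 474) (nat_lit 2) (nat_lit 3) (nat_lit 7) (nat_lit 7) (nat_lit 14) (nat_lit 147) r11_14 r5_147 (nat_lit 0) (nat_lit 0) (nat_lit 0) (nat_lit 0x218273d9c) (nat_lit 243920756),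
  Rx.mk (nat_lit 475) (nat_lit 3) (nat_lit 3) (nat_lit 7) (nat_lit 7) (nat_lit 18) (nat_lit 143) r11_18 r5_143 (nat_lit 0) (nat_lit 0) (nat_lit 0) (nat_lit 0x20056d4f2) (nat_lit 268435456)]
noncomputable def e20_6 : List Rx := [
  Rx.mk (nat_lit 256) (nat_lit 0) (nat_lit 0) (nat_lit 4) (nat_lit 0) (nat_lit 19) (nat_lit 186) r11_19 r3_186 (nat_lit 19540) (nat_lit 21776) (nat_lit 16498) (nat_lit 0x15a1593da) (nat_lit 444675570),
  Rx.mk (nat_lit 257) (nat_lit 1) (nat_lit 0) (nat_lit 4) (nat_lit 1) (nat_lit 25) (nat_lit 189) r11_25 r3_189 (nat_lit 0) (nat_lit 250205) (nat_lit 1269742) (nat_lit 0x1a19dc132) (nat_lit 370210353),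
  Rx.mk (nat_lit 258) (nat_lit 2) (nat_lit 0) (nat_lit 4) (nat_lit 1) (nat_lit 31) (nat_lit 192) r11_31 r3_192 (nat_lit 0) (nat_lit 43368381) (nat_lit 156302) (nat_lit 0x1c6f86806) (nat_lit 372553839),
  Rx.mk (nat_lit 274) (nat_lit 2) (nat_lit 2) (nat_lit 4) (nat_lit 3) (nat_lit 33) (nat_lit 202) r11_33 r3_202 (nat_lit 0) (nat_lit 0) (nat_lit 8204025) (nat_lit 0x1ed8f4ca0) (nat_lit 296428381),
  Rx.mk (nat_lit 280) (nat_lit 0) (nat_lit 3) (nat_lit 4) (nat_lit 2) (nat_lit 22) (nat_lit 194) r11_22 r3_194 (nat_lit 710474) (nat_lit 0) (nat_lit 570606) (nat_lit 0x1c08ee1b6) (nat_lit 337171136),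
  Rx.mk (nat_lit 281) (nat_lit 1) (nat_lit 3) (nat_lit 4) (nat_lit 3) (nat_lit 28) (nat_lit 197) r11_28 r3_197 (nat_lit 0) (nat_lit 0) (nat_lit 4365675) (nat_lit 0x20361ffc8) (nat_lit 269616331),
  Rx.mk (nat_lit 282) (nat_lit 2) (nat_lit 3) (nat_lit 4) (nat_lit 3) (nat_lit 35) (nat_lit 200) r11_35 r3_200 (nat_lit 0) (nat_lit 0) (nat_lit 4277638) (nat_lit 0x204b55974) (nat_lit 268164344),
  Rx.mk (nat_lit 320) (nat_lit 0) (nat_lit 0) (nat_lit 5) (nat_lit 4) (nat_lit 20) (nat_lit 187) r11_20 r3_187 (nat_lit 6719633) (nat_lit 5218947) (nat_lit 0) (nat_lit 0x1c333195a) (nat_lit 345098436),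
  Rx.mk (nat_lit 321) (nat_lit 1) (nat_lit 0) (nat_lit 5) (nat_lit 5) (nat_lit 26) (nat_lit 190) r11_26 r3_190 (nat_lit 0) (nat_lit 9484367) (nat_lit 0) (nat_lit 0x201d9700a) (nat_lit 276346873),
  Rx.mk (nat_lit 322) (nat_lit 2) (nat_lit 0) (nat_lit 5) (nat_lit 5) (nat_lit 32) (nat_lit 193) r11_32 r3_193 (nat_lit 0) (nat_lit 9484367) (nat_lit 0) (nat_lit 0x201ffaca2) (nat_lit 276191123),
  Rx.mk (nat_lit 338) (nat_lit 2) (nat_lit 2) (nat_lit 5) (nat_lit 7) (nat_lit 34) (nat_lit 203) r11_34 r3_203 (nat_lit 0) (nat_lit 0) (nat_lit 0) (nat_lit 0x20056d4f2) (nat_lit 268435456),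
  Rx.mk (nat_lit 344) (nat_lit 0) (nat_lit 3) (nat_lit 5) (nat_lit 6) (nat_lit 23) (nat_lit 195) r11_23 r3_195 (nat_lit 3207732) (nat_lit 0) (nat_lit 0) (nat_lit 0x21c1d0184) (nat_lit 243063938),
  Rx.mk (nat_lit 345) (nat_lit 1) (nat_lit 3) (nat_lit 5) (nat_lit 7) (nat_lit 29) (nat_lit 198) r11_29 r3_198 (nat_lit 0) (nat_lit 0) (nat_lit 0) (nat_lit 0x205d35dec) (nat_lit 262741806),
  Rx.mk (nat_lit 346) (nat_lit 2) (nat_lit 3) (nat_lit 5) (nat_lit 7) (nat_lit 36) (nat_lit 201) r11_36 r3_201 (nat_lit 0) (nat_lit 0) (nat_lit 0) (nat_lit 0x205d33e3e) (nat_lit 262742306),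
  Rx.mk (nat_lit 384) (nat_lit 0) (nat_lit 0) (nat_lit 6) (nat_lit 4) (nat_lit 21) (nat_lit 188) r11_21 r3_188 (nat_lit 7547956) (nat_lit 13879051) (nat_lit 0) (nat_lit 0x1da71f780) (nat_lit 329919513),
  Rx.mk (nat_lit 385) (nat_lit 1) (nat_lit 0) (nat_lit 6) (nat_lit 5) (nat_lit 27) (nat_lit 191) r11_27 r3_191 (nat_lit 0) (nat_lit 8742655) (nat_lit 0) (nat_lit 0x1ffa842fc) (nat_lit 277882861),
  Rx.mk (nat_lit 408) (nat_lit 0) (nat_lit 3) (nat_lit 6) (nat_lit 6) (nat_lit 24) (nat_lit 196) r11_24 r3_196 (nat_lit 2066248) (nat_lit 0) (nat_lit 0) (nat_lit 0x1f52a93c0) (nat_lit 282195504),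
  Rx.mk (nat_lit 409) (nat_lit 1) (nat_lit 3) (nat_lit 6) (nat_lit 7) (nat_lit 30) (nat_lit 199) r11_30 r3_199 (nat_lit 0) (nat_lit 0) (nat_lit 0) (nat_lit 0x20713488e) (nat_lit 261452506)]
noncomputable def e20_7 : List Rx := [
  Rx.mk (nat_lit 320) (nat_lit 0) (nat_lit 0) (nat_lit 5) (nat_lit 4) (nat_lit 37) (nat_lit 200) r11_37 r0_200 (nat_lit 6365539) (nat_lit 54732365) (nat_lit 0) (nat_lit 0x1c36966d6) (nat_lit 394034560),
  Rx.mk (nat_lit 321) (nat_lit 1) (nat_lit 0) (nat_lit 5) (nat_lit 5) (nat_lit 38) (nat_lit 201) r11_38 r0_201 (nat_lit 0) (nat_lit 10035955) (nat_lit 0) (nat_lit 0x20209cdc2) (nat_lit 276689911),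
  Rx.mk (nat_lit 322) (nat_lit 2) (nat_lit 0) (nat_lit 5) (nat_lit 5) (nat_lit 39) (nat_lit 202) r11_39 r0_202 (nat_lit 0) (nat_lit 57779837) (nat_lit 0) (nat_lit 0x2087d0944) (nat_lit 317723493),
  Rx.mk (nat_lit 338) (nat_lit 2) (nat_lit 2) (nat_lit 5) (nat_lit 7) (nat_lit 40) (nat_lit 203) r11_40 r0_203 (nat_lit 0) (nat_lit 0) (nat_lit 0) (nat_lit 0x2192e072a) (nat_lit 242862556)]
noncomputable def e20_8 : List Rx := [
  Rx.mk (nat_lit 82) (nat_lit 2) (nat_lit 2) (nat_lit 1) (nat_lit 7) (nat_lit 45) (nat_lit 224) r11_45 r1_224 (nat_lit 0) (nat_lit 0) (nat_lit 0) (nat_lit 0x20935ad46) (nat_lit 259253406),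
  Rx.mk (nat_lit 320) (nat_lit 0) (nat_lit 0) (nat_lit 5) (nat_lit 4) (nat_lit 41) (nat_lit 220) r11_41 r1_220 (nat_lit 19578584) (nat_lit 46094924) (nat_lit 0) (nat_lit 0x1cf21484a) (nat_lit 386174664),
  Rx.mk (nat_lit 321) (nat_lit 1) (nat_lit 0) (nat_lit 5) (nat_lit 5) (nat_lit 42) (nat_lit 221) r11_42 r1_221 (nat_lit 0) (nat_lit 9484367) (nat_lit 0) (nat_lit 0x2037c5260) (nat_lit 274647623),
  Rx.mk (nat_lit 322) (nat_lit 2) (nat_lit 0) (nat_lit 5) (nat_lit 5) (nat_lit 43) (nat_lit 222) r11_43 r1_222 (nat_lit 0) (nat_lit 14849202) (nat_lit 0) (nat_lit 0x208915322) (nat_lit 274748908),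
  Rx.mk (nat_lit 338) (nat_lit 2) (nat_lit 2) (nat_lit 5) (nat_lit 7) (nat_lit 44) (nat_lit 223) r11_44 r1_223 (nat_lit 0) (nat_lit 0) (nat_lit 0) (nat_lit 0x20c766d60) (nat_lit 255901206)]
noncomputable def e20_9 : List Rx := [
  Rx.mk (nat_lit 320) (nat_lit 0) (nat_lit 0) (nat_lit 5) (nat_lit 4) (nat_lit 46) (nat_lit 188) r11_46 r4_188 (nat_lit 13450532) (nat_lit 9087707) (nat_lit 0) (nat_lit 0x1de99e322) (nat_lit 326619295),
  Rx.mk (nat_lit 321) (nat_lit 1) (nat_lit 0) (nat_lit 5) (nat_lit 5) (nat_lit 48) (nat_lit 189) r11_48 r4_189 (nat_lit 0) (nat_lit 9484367) (nat_lit 0) (nat_lit 0x203eea194) (nat_lit 274185073),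
  Rx.mk (nat_lit 322) (nat_lit 2) (nat_lit 0) (nat_lit 5) (nat_lit 5) (nat_lit 50) (nat_lit 190) r11_50 r4_190 (nat_lit 0) (nat_lit 9484367) (nat_lit 0) (nat_lit 0x204794204) (nat_lit 273617673),
  Rx.mk (nat_lit 338) (nat_lit 2) (nat_lit 2) (nat_lit 5) (nat_lit 7) (nat_lit 51) (nat_lit 194) r11_51 r4_194 (nat_lit 0) (nat_lit 0) (nat_lit 0) (nat_lit 0x20056d4f2) (nat_lit 268435456),
  Rx.mk (nat_lit 344) (nat_lit 0) (nat_lit 3) (nat_lit 5) (nat_lit 6) (nat_lit 47) (nat_lit 191) r11_47 r4_191 (nat_lit 4072853) (nat_lit 0) (nat_lit 0) (nat_lit 0x2052f6c50) (nat_lit 267458109),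
  Rx.mk (nat_lit 345) (nat_lit 1) (nat_lit 3) (nat_lit 5) (nat_lit 7) (nat_lit 49) (nat_lit 192) r11_49 r4_192 (nat_lit 0) (nat_lit 0) (nat_lit 0) (nat_lit 0x209d254d4) (nat_lit 258624606),
  Rx.mk (nat_lit 346) (nat_lit 2) (nat_lit 3) (nat_lit 5) (nat_lit 7) (nat_lit 52) (nat_lit 193) r11_52 r4_193 (nat_lit 0) (nat_lit 0) (nat_lit 0) (nat_lit 0x209d254d4) (nat_lit 258624606)]
noncomputable def e20_10 : List Rx := [
  Rx.mk (nat_lit 280) (nat_lit 0) (nat_lit 3) (nat_lit 4) (nat_lit 2) (nat_lit 54) (nat_lit 154) r11_54 r6_154 (nat_lit 2078946) (nat_lit 0) (nat_lit 2196104) (nat_lit 0x1d11376e6) (nat_lit 322686806),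
  Rx.mk (nat_lit 281) (nat_lit 1) (nat_lit 3) (nat_lit 4) (nat_lit 3) (nat_lit 58) (nat_lit 158) r11_58 r6_158 (nat_lit 0) (nat_lit 0) (nat_lit 6967476) (nat_lit 0x202fa6818) (nat_lit 272657232),
  Rx.mk (nat_lit 282) (nat_lit 2) (nat_lit 3) (nat_lit 4) (nat_lit 3) (nat_lit 63) (nat_lit 165) r11_63 r6_165 (nat_lit 0) (nat_lit 0) (nat_lit 5125026) (nat_lit 0x2070d31ba) (nat_lit 266601832),
  Rx.mk (nat_lit 283) (nat_lit 3) (nat_lit 3) (nat_lit 4) (nat_lit 3) (nat_lit 66) (nat_lit 161) r11_66 r6_161 (nat_lit 0) (nat_lit 0) (nat_lit 5623974) (nat_lit 0x201dfc1e4) (nat_lit 272453680),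
  Rx.mk (nat_lit 408) (nat_lit 0) (nat_lit 3) (nat_lit 6) (nat_lit 6) (nat_lit 55) (nat_lit 156) r11_55 r6_156 (nat_lit 4065771) (nat_lit 0) (nat_lit 0) (nat_lit 0x20cb078f2) (nat_lit 259741877),
  Rx.mk (nat_lit 409) (nat_lit 1) (nat_lit 3) (nat_lit 6) (nat_lit 7) (nat_lit 59) (nat_lit 160) r11_59 r6_160 (nat_lit 0) (nat_lit 0) (nat_lit 0) (nat_lit 0x20056d4f2) (nat_lit 268435456),
  Rx.mk (nat_lit 411) (nat_lit 3) (nat_lit 3) (nat_lit 6) (nat_lit 7) (nat_lit 67) (nat_lit 162) r11_67 r6_162 (nat_lit 0) (nat_lit 0) (nat_lit 0) (nat_lit 0x2018ae08e) (nat_lit 267181406),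
  Rx.mk (nat_lit 443) (nat_lit 3) (nat_lit 7) (nat_lit 6) (nat_lit 7) (nat_lit 65) (nat_lit 163) r11_65 r6_163 (nat_lit 0) (nat_lit 0) (nat_lit 0) (nat_lit 0x22369613a) (nat_lit 232374506),
  Rx.mk (nat_lit 448) (nat_lit 0) (nat_lit 0) (nat_lit 7) (nat_lit 4) (nat_lit 53) (nat_lit 153) r11_53 r6_153 (nat_lit 1662226) (nat_lit 2904034) (nat_lit 0) (nat_lit 0x1e31bdcb6) (nat_lit 303844816),
  Rx.mk (nat_lit 449) (nat_lit 1) (nat_lit 0) (nat_lit 7) (nat_lit 5) (nat_lit 57) (nat_lit 157) r11_57 r6_157 (nat_lit 0) (nat_lit 9484367) (nat_lit 0) (nat_lit 0x20056d4f2) (nat_lit 277919823),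
  Rx.mk (nat_lit 450) (nat_lit 2) (nat_lit 0) (nat_lit 7) (nat_lit 5) (nat_lit 61) (nat_lit 164) r11_61 r6_164 (nat_lit 0) (nat_lit 5376294) (nat_lit 0) (nat_lit 0x2018a524a) (nat_lit 272546750),
  Rx.mk (nat_lit 466) (nat_lit 2) (nat_lit 2) (nat_lit 7) (nat_lit 7) (nat_lit 62) (nat_lit 167) r11_62 r6_167 (nat_lit 0) (nat_lit 0) (nat_lit 0) (nat_lit 0x20286b1d4) (nat_lit 266159056),
  Rx.mk (nat_lit 472) (nat_lit 0) (nat_lit 3) (nat_lit 7) (nat_lit 6) (nat_lit 56) (nat_lit 155) r11_56 r6_155 (nat_lit 2982038) (nat_lit 0) (nat_lit 0) (nat_lit 0x208453244) (nat_lit 263187894),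
  Rx.mk (nat_lit 473) (nat_lit 1) (nat_lit 3) (nat_lit 7) (nat_lit 7) (nat_lit 60) (nat_lit 159) r11_60 r6_159 (nat_lit 0) (nat_lit 0) (nat_lit 0) (nat_lit 0x2036a4d72) (nat_lit 265237306),
  Rx.mk (nat_lit 474) (nat_lit 2) (nat_lit 3) (nat_lit 7) (nat_lit 7) (nat_lit 64) (nat_lit 166) r11_64 r6_166 (nat_lit 0) (nat_lit 0) (nat_lit 0) (nat_lit 0x2036a4d72) (nat_lit 265237306)]
noncomputable def e20_11 : List Rx := [
  Rx.mk (nat_lit 256) (nat_lit 0) (nat_lit 0) (nat_lit 4) (nat_lit 0) (nat_lit 68) (nat_lit 202) r11_68 r5_202 (nat_lit 2595743) (nat_lit 9025405) (nat_lit 2496432) (nat_lit 0x1503d50aa) (nat_lit 469336936),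
  Rx.mk (nat_lit 257) (nat_lit 1) (nat_lit 0) (nat_lit 4) (nat_lit 1) (nat_lit 75) (nat_lit 206) r11_75 r5_206 (nat_lit 0) (nat_lit 16325742) (nat_lit 13146855) (nat_lit 0x1e5e67ca8) (nat_lit 325828153),
  Rx.mk (nat_lit 258) (nat_lit 2) (nat_lit 0) (nat_lit 4) (nat_lit 1) (nat_lit 80) (nat_lit 209) r11_80 r5_209 (nat_lit 0) (nat_lit 46184553) (nat_lit 4160045) (nat_lit 0x1e57477ac) (nat_lit 347148554),
  Rx.mk (nat_lit 274) (nat_lit 2) (nat_lit 2) (nat_lit 4) (nat_lit 3) (nat_lit 83) (nat_lit 222) r11_83 r5_222 (nat_lit 0) (nat_lit 0) (nat_lit 9484367) (nat_lit 0x1fdf3aaf0) (nat_lit 280412273),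
  Rx.mk (nat_lit 280) (nat_lit 0) (nat_lit 3) (nat_lit 4) (nat_lit 2) (nat_lit 72) (nat_lit 212) r11_72 r5_212 (nat_lit 6529667) (nat_lit 0) (nat_lit 4497120) (nat_lit 0x1d65a8a4a) (nat_lit 323844443),
  Rx.mk (nat_lit 281) (nat_lit 1) (nat_lit 3) (nat_lit 4) (nat_lit 3) (nat_lit 78) (nat_lit 215) r11_78 r5_215 (nat_lit 0) (nat_lit 0) (nat_lit 5473983) (nat_lit 0x205eff1b4) (nat_lit 268100289),
  Rx.mk (nat_lit 282) (nat_lit 2) (nat_lit 3) (nat_lit 4) (nat_lit 3) (nat_lit 86) (nat_lit 220) r11_86 r5_220 (nat_lit 0) (nat_lit 0) (nat_lit 5473983) (nat_lit 0x205eff1b4) (nat_lit 268100289),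
  Rx.mk (nat_lit 283) (nat_lit 3) (nat_lit 3) (nat_lit 4) (nat_lit 3) (nat_lit 88) (nat_lit 217) r11_88 r5_217 (nat_lit 0) (nat_lit 0) (nat_lit 9484367) (nat_lit 0x1f227a3d4) (nat_lit 292845373),
  Rx.mk (nat_lit 320) (nat_lit 0) (nat_lit 0) (nat_lit 5) (nat_lit 4) (nat_lit 69) (nat_lit 203) r11_69 r5_203 (nat_lit 9484367) (nat_lit 15233421) (nat_lit 0) (nat_lit 0x1fc0a5d2e) (nat_lit 297648094),
  Rx.mk (nat_lit 322) (nat_lit 2) (nat_lit 0) (nat_lit 5) (nat_lit 5) (nat_lit 81) (nat_lit 210) r11_81 r5_210 (nat_lit 0) (nat_lit 9484367) (nat_lit 0) (nat_lit 0x20056d4f2) (nat_lit 277919823),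
  Rx.mk (nat_lit 338) (nat_lit 2) (nat_lit 2) (nat_lit 5) (nat_lit 7) (nat_lit 84) (nat_lit 223) r11_84 r5_223 (nat_lit 0) (nat_lit 0) (nat_lit 0) (nat_lit 0x20056d4f2) (nat_lit 268435456),
  Rx.mk (nat_lit 344) (nat_lit 0) (nat_lit 3) (nat_lit 5) (nat_lit 6) (nat_lit 73) (nat_lit 213) r11_73 r5_213 (nat_lit 6475705) (nat_lit 0) (nat_lit 0) (nat_lit 0x202722a34) (nat_lit 272712311),
  Rx.mk (nat_lit 346) (nat_lit 2) (nat_lit 3) (nat_lit 5) (nat_lit 7) (nat_lit 87) (nat_lit 221) r11_87 r5_221 (nat_lit 0) (nat_lit 0) (nat_lit 0) (nat_lit 0x202821a84) (nat_lit 266177706),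
  Rx.mk (nat_lit 347) (nat_lit 3) (nat_lit 3) (nat_lit 5) (nat_lit 7) (nat_lit 89) (nat_lit 218) r11_89 r5_218 (nat_lit 0) (nat_lit 0) (nat_lit 0) (nat_lit 0x20056d4f2) (nat_lit 268435456),
  Rx.mk (nat_lit 384) (nat_lit 0) (nat_lit 0) (nat_lit 6) (nat_lit 4) (nat_lit 70) (nat_lit 205) r11_70 r5_205 (nat_lit 9306613) (nat_lit 14748217) (nat_lit 0) (nat_lit 0x1fb46ee8e) (nat_lit 297786586),
  Rx.mk (nat_lit 385) (nat_lit 1) (nat_lit 0) (nat_lit 6) (nat_lit 5) (nat_lit 76) (nat_lit 208) r11_76 r5_208 (nat_lit 0) (nat_lit 9484367) (nat_lit 0) (nat_lit 0x20056d4f2) (nat_lit 277919823),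
  Rx.mk (nat_lit 408) (nat_lit 0) (nat_lit 3) (nat_lit 6) (nat_lit 6) (nat_lit 74) (nat_lit 214) r11_74 r5_214 (nat_lit 6067976) (nat_lit 0) (nat_lit 0) (nat_lit 0x2016a4310) (nat_lit 273370132),
  Rx.mk (nat_lit 409) (nat_lit 1) (nat_lit 3) (nat_lit 6) (nat_lit 7) (nat_lit 79) (nat_lit 216) r11_79 r5_216 (nat_lit 0) (nat_lit 0) (nat_lit 0) (nat_lit 0x202821a84) (nat_lit 266177706),
  Rx.mk (nat_lit 411) (nat_lit 3) (nat_lit 3) (nat_lit 6) (nat_lit 7) (nat_lit 90) (nat_lit 219) r11_90 r5_219 (nat_lit 0) (nat_lit 0) (nat_lit 0) (nat_lit 0x20056d4f2) (nat_lit 268435456),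
  Rx.mk (nat_lit 448) (nat_lit 0) (nat_lit 0) (nat_lit 7) (nat_lit 4) (nat_lit 71) (nat_lit 204) r11_71 r5_204 (nat_lit 10277974) (nat_lit 10277974) (nat_lit 0) (nat_lit 0x1f317a21c) (nat_lit 302923454),
  Rx.mk (nat_lit 449) (nat_lit 1) (nat_lit 0) (nat_lit 7) (nat_lit 5) (nat_lit 77) (nat_lit 207) r11_77 r5_207 (nat_lit 0) (nat_lit 9484367) (nat_lit 0) (nat_lit 0x20056d4f2) (nat_lit 277919823),
  Rx.mk (nat_lit 450) (nat_lit 2) (nat_lit 0) (nat_lit 7) (nat_lit 5) (nat_lit 82) (nat_lit 211) r11_82 r5_211 (nat_lit 0) (nat_lit 9484367) (nat_lit 0) (nat_lit 0x1fdf1654c) (nat_lit 280421623),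
  Rx.mk (nat_lit 466) (nat_lit 2) (nat_lit 2) (nat_lit 7) (nat_lit 7) (nat_lit 85) (nat_lit 224) r11_85 r5_224 (nat_lit 0) (nat_lit 0) (nat_lit 0) (nat_lit 0x20056d4f2) (nat_lit 268435456)]
noncomputable def e20_12 : List Rx := [
  Rx.mk (nat_lit 18) (nat_lit 2) (nat_lit 2) (nat_lit 0) (nat_lit 3) (nat_lit 99) (nat_lit 217) r11_99 r0_217 (nat_lit 0) (nat_lit 0) (nat_lit 3688724) (nat_lit 0x1c9ff7bde) (nat_lit 329624030),
  Rx.mk (nat_lit 22) (nat_lit 6) (nat_lit 2) (nat_lit 0) (nat_lit 3) (nat_lit 96) (nat_lit 216) r11_96 r0_216 (nat_lit 0) (nat_lit 0) (nat_lit 4286271) (nat_lit 0x1fec0acda) (nat_lit 274349477),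
  Rx.mk (nat_lit 54) (nat_lit 6) (nat_lit 6) (nat_lit 0) (nat_lit 3) (nat_lit 94) (nat_lit 215) r11_94 r0_215 (nat_lit 0) (nat_lit 0) (nat_lit 3907448) (nat_lit 0x1f0b7289e) (nat_lit 288775154),
  Rx.mk (nat_lit 164) (nat_lit 4) (nat_lit 4) (nat_lit 2) (nat_lit 4) (nat_lit 92) (nat_lit 219) r11_92 r0_219 (nat_lit 860787) (nat_lit 957999) (nat_lit 0) (nat_lit 0x1be3394ac) (nat_lit 340229592),
  Rx.mk (nat_lit 180) (nat_lit 4) (nat_lit 6) (nat_lit 2) (nat_lit 6) (nat_lit 93) (nat_lit 220) r11_93 r0_220 (nat_lit 5308544) (nat_lit 0) (nat_lit 0) (nat_lit 0x2021b8a8a) (nat_lit 271891250),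
  Rx.mk (nat_lit 182) (nat_lit 6) (nat_lit 6) (nat_lit 2) (nat_lit 7) (nat_lit 95) (nat_lit 221) r11_95 r0_221 (nat_lit 0) (nat_lit 0) (nat_lit 0) (nat_lit 0x20380ccaa) (nat_lit 265146056),
  Rx.mk (nat_lit 210) (nat_lit 2) (nat_lit 2) (nat_lit 3) (nat_lit 7) (nat_lit 100) (nat_lit 218) r11_100 r0_218 (nat_lit 0) (nat_lit 0) (nat_lit 0) (nat_lit 0x20f100a7c) (nat_lit 253219156),
  Rx.mk (nat_lit 420) (nat_lit 4) (nat_lit 4) (nat_lit 6) (nat_lit 4) (nat_lit 91) (nat_lit 212) r11_91 r0_212 (nat_lit 5847755) (nat_lit 35579357) (nat_lit 0) (nat_lit 0x1cf126118) (nat_lit 361977668),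
  Rx.mk (nat_lit 423) (nat_lit 7) (nat_lit 4) (nat_lit 6) (nat_lit 5) (nat_lit 97) (nat_lit 213) r11_97 r0_213 (nat_lit 0) (nat_lit 54099943) (nat_lit 0) (nat_lit 0x1fab0666c) (nat_lit 328440049),
  Rx.mk (nat_lit 447) (nat_lit 7) (nat_lit 7) (nat_lit 6) (nat_lit 7) (nat_lit 98) (nat_lit 214) r11_98 r0_214 (nat_lit 0) (nat_lit 0) (nat_lit 0) (nat_lit 0x20a84f7ce) (nat_lit 257886656)]
noncomputable def e20_13 : List Rx := [
  Rx.mk (nat_lit 18) (nat_lit 2) (nat_lit 2) (nat_lit 0) (nat_lit 3) (nat_lit 105) (nat_lit 198) r11_105 r7_198 (nat_lit 0) (nat_lit 0) (nat_lit 4171220) (nat_lit 0x1fe2a9fa6) (nat_lit 274848026),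
  Rx.mk (nat_lit 22) (nat_lit 6) (nat_lit 2) (nat_lit 0) (nat_lit 3) (nat_lit 104) (nat_lit 201) r11_104 r7_201 (nat_lit 0) (nat_lit 0) (nat_lit 6612312) (nat_lit 0x20373a804) (nat_lit 271810218),
  Rx.mk (nat_lit 54) (nat_lit 6) (nat_lit 6) (nat_lit 0) (nat_lit 3) (nat_lit 102) (nat_lit 202) r11_102 r7_202 (nat_lit 0) (nat_lit 0) (nat_lit 13297653) (nat_lit 0x1ee206fd2) (nat_lit 300924009),
  Rx.mk (nat_lit 180) (nat_lit 4) (nat_lit 6) (nat_lit 2) (nat_lit 6) (nat_lit 101) (nat_lit 200) r11_101 r7_200 (nat_lit 9484367) (nat_lit 0) (nat_lit 0) (nat_lit 0x20056d4f2) (nat_lit 277919823),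
  Rx.mk (nat_lit 182) (nat_lit 6) (nat_lit 6) (nat_lit 2) (nat_lit 7) (nat_lit 103) (nat_lit 203) r11_103 r7_203 (nat_lit 0) (nat_lit 0) (nat_lit 0) (nat_lit 0x20056d4f2) (nat_lit 268435456),
  Rx.mk (nat_lit 210) (nat_lit 2) (nat_lit 2) (nat_lit 3) (nat_lit 7) (nat_lit 106) (nat_lit 199) r11_106 r7_199 (nat_lit 0) (nat_lit 0) (nat_lit 0) (nat_lit 0x20eafaca4) (nat_lit 253627606)]
noncomputable def e20_14 : List Rx := [
  Rx.mk (nat_lit 164) (nat_lit 4) (nat_lit 4) (nat_lit 2) (nat_lit 4) (nat_lit 108) (nat_lit 237) r11_108 r1_237 (nat_lit 8059474) (nat_lit 11055571) (nat_lit 0) (nat_lit 0x1f5e71306) (nat_lit 298517051),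
  Rx.mk (nat_lit 180) (nat_lit 4) (nat_lit 6) (nat_lit 2) (nat_lit 6) (nat_lit 109) (nat_lit 238) r11_109 r1_238 (nat_lit 9484367) (nat_lit 0) (nat_lit 0) (nat_lit 0x20056d4f2) (nat_lit 277919823),
  Rx.mk (nat_lit 182) (nat_lit 6) (nat_lit 6) (nat_lit 2) (nat_lit 7) (nat_lit 110) (nat_lit 239) r11_110 r1_239 (nat_lit 0) (nat_lit 0) (nat_lit 0) (nat_lit 0x20056d4f2) (nat_lit 268435456),
  Rx.mk (nat_lit 420) (nat_lit 4) (nat_lit 4) (nat_lit 6) (nat_lit 4) (nat_lit 107) (nat_lit 234) r11_107 r1_234 (nat_lit 4901515) (nat_lit 35202404) (nat_lit 0) (nat_lit 0x1f42f4ad8) (nat_lit 321308525),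
  Rx.mk (nat_lit 423) (nat_lit 7) (nat_lit 4) (nat_lit 6) (nat_lit 5) (nat_lit 111) (nat_lit 235) r11_111 r1_235 (nat_lit 0) (nat_lit 9603706) (nat_lit 0) (nat_lit 0x2014202e2) (nat_lit 277079262),
  Rx.mk (nat_lit 447) (nat_lit 7) (nat_lit 7) (nat_lit 6) (nat_lit 7) (nat_lit 112) (nat_lit 236) r11_112 r1_236 (nat_lit 0) (nat_lit 0) (nat_lit 0) (nat_lit 0x2166093be) (nat_lit 245732256)]
noncomputable def e20_15 : List Rx := [
  Rx.mk (nat_lit 180) (nat_lit 4) (nat_lit 6) (nat_lit 2) (nat_lit 6) (nat_lit 113) (nat_lit 157) r11_113 r8_157 (nat_lit 9484367) (nat_lit 0) (nat_lit 0) (nat_lit 0x20056d4f2) (nat_lit 277919823),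
  Rx.mk (nat_lit 182) (nat_lit 6) (nat_lit 6) (nat_lit 2) (nat_lit 7) (nat_lit 114) (nat_lit 158) r11_114 r8_158 (nat_lit 0) (nat_lit 0) (nat_lit 0) (nat_lit 0x20056d4f2) (nat_lit 268435456)]
noncomputable def e20_16 : List Rx := [
  Rx.mk (nat_lit 18) (nat_lit 2) (nat_lit 2) (nat_lit 0) (nat_lit 3) (nat_lit 120) (nat_lit 208) r11_120 r8_208 (nat_lit 0) (nat_lit 0) (nat_lit 6380904) (nat_lit 0x200222932) (nat_lit 275019360),
  Rx.mk (nat_lit 22) (nat_lit 6) (nat_lit 2) (nat_lit 0) (nat_lit 3) (nat_lit 118) (nat_lit 207) r11_118 r8_207 (nat_lit 0) (nat_lit 0) (nat_lit 9484367) (nat_lit 0x20056d4f2) (nat_lit 277919823),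
  Rx.mk (nat_lit 54) (nat_lit 6) (nat_lit 6) (nat_lit 0) (nat_lit 3) (nat_lit 115) (nat_lit 206) r11_115 r8_206 (nat_lit 0) (nat_lit 0) (nat_lit 10015832) (nat_lit 0x1fdbfee04) (nat_lit 281155438),
  Rx.mk (nat_lit 82) (nat_lit 2) (nat_lit 2) (nat_lit 1) (nat_lit 7) (nat_lit 121) (nat_lit 211) r11_121 r8_211 (nat_lit 0) (nat_lit 0) (nat_lit 0) (nat_lit 0x203017a4a) (nat_lit 265661706),
  Rx.mk (nat_lit 86) (nat_lit 6) (nat_lit 2) (nat_lit 1) (nat_lit 7) (nat_lit 119) (nat_lit 210) r11_119 r8_210 (nat_lit 0) (nat_lit 0) (nat_lit 0) (nat_lit 0x20056d4f2) (nat_lit 268435456),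
  Rx.mk (nat_lit 118) (nat_lit 6) (nat_lit 6) (nat_lit 1) (nat_lit 7) (nat_lit 116) (nat_lit 209) r11_116 r8_209 (nat_lit 0) (nat_lit 0) (nat_lit 0) (nat_lit 0x20056d4f2) (nat_lit 268435456),
  Rx.mk (nat_lit 182) (nat_lit 6) (nat_lit 6) (nat_lit 2) (nat_lit 7) (nat_lit 117) (nat_lit 213) r11_117 r8_213 (nat_lit 0) (nat_lit 0) (nat_lit 0) (nat_lit 0x20056d4f2) (nat_lit 268435456),
  Rx.mk (nat_lit 210) (nat_lit 2) (nat_lit 2) (nat_lit 3) (nat_lit 7) (nat_lit 122) (nat_lit 212) r11_122 r8_212 (nat_lit 0) (nat_lit 0) (nat_lit 0) (nat_lit 0x203017a4a) (nat_lit 265661706)]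
noncomputable def e20_17 : List Rx := [
  Rx.mk (nat_lit 82) (nat_lit 2) (nat_lit 2) (nat_lit 1) (nat_lit 7) (nat_lit 124) (nat_lit 146) r11_124 r9_146 (nat_lit 0) (nat_lit 0) (nat_lit 0) (nat_lit 0x20056d4f2) (nat_lit 268435456),
  Rx.mk (nat_lit 86) (nat_lit 6) (nat_lit 2) (nat_lit 1) (nat_lit 7) (nat_lit 123) (nat_lit 147) r11_123 r9_147 (nat_lit 0) (nat_lit 0) (nat_lit 0) (nat_lit 0x20056d4f2) (nat_lit 268435456)]
noncomputable def e20_18 : List Rx := [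
  Rx.mk (nat_lit 22) (nat_lit 6) (nat_lit 2) (nat_lit 0) (nat_lit 3) (nat_lit 129) (nat_lit 209) r11_129 r4_209 (nat_lit 0) (nat_lit 0) (nat_lit 5013153) (nat_lit 0x1fa0b627a) (nat_lit 280027459),
  Rx.mk (nat_lit 54) (nat_lit 6) (nat_lit 6) (nat_lit 0) (nat_lit 3) (nat_lit 127) (nat_lit 208) r11_127 r4_208 (nat_lit 0) (nat_lit 0) (nat_lit 3708070) (nat_lit 0x1fd44c490) (nat_lit 275326226),
  Rx.mk (nat_lit 164) (nat_lit 4) (nat_lit 4) (nat_lit 2) (nat_lit 4) (nat_lit 125) (nat_lit 212) r11_125 r4_212 (nat_lit 93913) (nat_lit 114069) (nat_lit 0) (nat_lit 0x18dc77932) (nat_lit 389952488),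
  Rx.mk (nat_lit 167) (nat_lit 7) (nat_lit 4) (nat_lit 2) (nat_lit 5) (nat_lit 132) (nat_lit 213) r11_132 r4_213 (nat_lit 0) (nat_lit 4563667) (nat_lit 0) (nat_lit 0x207ee5dde) (nat_lit 265122373),
  Rx.mk (nat_lit 180) (nat_lit 4) (nat_lit 6) (nat_lit 2) (nat_lit 6) (nat_lit 126) (nat_lit 214) r11_126 r4_214 (nat_lit 2594122) (nat_lit 0) (nat_lit 0) (nat_lit 0x20b7f3572) (nat_lit 259482328),
  Rx.mk (nat_lit 182) (nat_lit 6) (nat_lit 6) (nat_lit 2) (nat_lit 7) (nat_lit 128) (nat_lit 216) r11_128 r4_216 (nat_lit 0) (nat_lit 0) (nat_lit 0) (nat_lit 0x208711c24) (nat_lit 260045256),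
  Rx.mk (nat_lit 183) (nat_lit 7) (nat_lit 6) (nat_lit 2) (nat_lit 7) (nat_lit 133) (nat_lit 215) r11_133 r4_215 (nat_lit 0) (nat_lit 0) (nat_lit 0) (nat_lit 0x209d63fb8) (nat_lit 258607956),
  Rx.mk (nat_lit 210) (nat_lit 2) (nat_lit 2) (nat_lit 3) (nat_lit 7) (nat_lit 135) (nat_lit 211) r11_135 r4_211 (nat_lit 0) (nat_lit 0) (nat_lit 0) (nat_lit 0x1fe6f86c0) (nat_lit 270325756),
  Rx.mk (nat_lit 214) (nat_lit 6) (nat_lit 2) (nat_lit 3) (nat_lit 7) (nat_lit 130) (nat_lit 210) r11_130 r4_210 (nat_lit 0) (nat_lit 0) (nat_lit 0) (nat_lit 0x21ab9bc6a) (nat_lit 241280906),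
  Rx.mk (nat_lit 423) (nat_lit 7) (nat_lit 4) (nat_lit 6) (nat_lit 5) (nat_lit 131) (nat_lit 205) r11_131 r4_205 (nat_lit 0) (nat_lit 28210373) (nat_lit 0) (nat_lit 0x1fddc38de) (nat_lit 299171679),
  Rx.mk (nat_lit 443) (nat_lit 3) (nat_lit 7) (nat_lit 6) (nat_lit 7) (nat_lit 136) (nat_lit 207) r11_136 r4_207 (nat_lit 0) (nat_lit 0) (nat_lit 0) (nat_lit 0x237f3a0e8) (nat_lit 211371706),
  Rx.mk (nat_lit 447) (nat_lit 7) (nat_lit 7) (nat_lit 6) (nat_lit 7) (nat_lit 134) (nat_lit 206) r11_134 r4_206 (nat_lit 0) (nat_lit 0) (nat_lit 0) (nat_lit 0x1ec93f3dc) (nat_lit 289207506)]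
noncomputable def e20_19 : List Rx := [
  Rx.mk (nat_lit 22) (nat_lit 6) (nat_lit 2) (nat_lit 0) (nat_lit 3) (nat_lit 140) (nat_lit 157) r11_140 r10_157 (nat_lit 0) (nat_lit 0) (nat_lit 7093825) (nat_lit 0x20203209e) (nat_lit 273785681),
  Rx.mk (nat_lit 54) (nat_lit 6) (nat_lit 6) (nat_lit 0) (nat_lit 3) (nat_lit 138) (nat_lit 159) r11_138 r10_159 (nat_lit 0) (nat_lit 0) (nat_lit 9484367) (nat_lit 0x20056d4f2) (nat_lit 277919823),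
  Rx.mk (nat_lit 180) (nat_lit 4) (nat_lit 6) (nat_lit 2) (nat_lit 6) (nat_lit 137) (nat_lit 155) r11_137 r10_155 (nat_lit 9484367) (nat_lit 0) (nat_lit 0) (nat_lit 0x20056d4f2) (nat_lit 277919823),
  Rx.mk (nat_lit 182) (nat_lit 6) (nat_lit 6) (nat_lit 2) (nat_lit 7) (nat_lit 139) (nat_lit 160) r11_139 r10_160 (nat_lit 0) (nat_lit 0) (nat_lit 0) (nat_lit 0x20056d4f2) (nat_lit 268435456),
  Rx.mk (nat_lit 183) (nat_lit 7) (nat_lit 6) (nat_lit 2) (nat_lit 7) (nat_lit 142) (nat_lit 156) r11_142 r10_156 (nat_lit 0) (nat_lit 0) (nat_lit 0) (nat_lit 0x20056d4f2) (nat_lit 268435456),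
  Rx.mk (nat_lit 210) (nat_lit 2) (nat_lit 2) (nat_lit 3) (nat_lit 7) (nat_lit 143) (nat_lit 154) r11_143 r10_154 (nat_lit 0) (nat_lit 0) (nat_lit 0) (nat_lit 0x209eff8f4) (nat_lit 258504756),
  Rx.mk (nat_lit 214) (nat_lit 6) (nat_lit 2) (nat_lit 3) (nat_lit 7) (nat_lit 141) (nat_lit 158) r11_141 r10_158 (nat_lit 0) (nat_lit 0) (nat_lit 0) (nat_lit 0x20056d4f2) (nat_lit 268435456)]
noncomputable def e20_20 : List Rx := [
  Rx.mk (nat_lit 54) (nat_lit 6) (nat_lit 6) (nat_lit 0) (nat_lit 3) (nat_lit 146) (nat_lit 161) r11_146 r11_161 (nat_lit 0) (nat_lit 0) (nat_lit 7023825) (nat_lit 0x2023a709e) (nat_lit 273493231),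
  Rx.mk (nat_lit 164) (nat_lit 4) (nat_lit 4) (nat_lit 2) (nat_lit 4) (nat_lit 144) (nat_lit 154) r11_144 r11_154 (nat_lit 327951) (nat_lit 385341) (nat_lit 0) (nat_lit 0x1e42aa7fe) (nat_lit 298780798),
  Rx.mk (nat_lit 167) (nat_lit 7) (nat_lit 4) (nat_lit 2) (nat_lit 5) (nat_lit 150) (nat_lit 156) r11_150 r11_156 (nat_lit 0) (nat_lit 6303467) (nat_lit 0) (nat_lit 0x2021871ec) (nat_lit 272906373),
  Rx.mk (nat_lit 180) (nat_lit 4) (nat_lit 6) (nat_lit 2) (nat_lit 6) (nat_lit 145) (nat_lit 155) r11_145 r11_155 (nat_lit 3302135) (nat_lit 0) (nat_lit 0) (nat_lit 0x20c608b80) (nat_lit 259300191),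
  Rx.mk (nat_lit 182) (nat_lit 6) (nat_lit 6) (nat_lit 2) (nat_lit 7) (nat_lit 147) (nat_lit 163) r11_147 r11_163 (nat_lit 0) (nat_lit 0) (nat_lit 0) (nat_lit 0x20056d4f2) (nat_lit 268435456),
  Rx.mk (nat_lit 183) (nat_lit 7) (nat_lit 6) (nat_lit 2) (nat_lit 7) (nat_lit 151) (nat_lit 159) r11_151 r11_159 (nat_lit 0) (nat_lit 0) (nat_lit 0) (nat_lit 0x2044faef8) (nat_lit 264313106),
  Rx.mk (nat_lit 191) (nat_lit 7) (nat_lit 7) (nat_lit 2) (nat_lit 7) (nat_lit 153) (nat_lit 157) r11_153 r11_157 (nat_lit 0) (nat_lit 0) (nat_lit 0) (nat_lit 0x20189ca78) (nat_lit 267186956),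
  Rx.mk (nat_lit 210) (nat_lit 2) (nat_lit 2) (nat_lit 3) (nat_lit 7) (nat_lit 158) (nat_lit 152) r11_158 r11_152 (nat_lit 0) (nat_lit 0) (nat_lit 0) (nat_lit 0x231843ae2) (nat_lit 217940356),
  Rx.mk (nat_lit 214) (nat_lit 6) (nat_lit 2) (nat_lit 3) (nat_lit 7) (nat_lit 149) (nat_lit 160) r11_149 r11_160 (nat_lit 0) (nat_lit 0) (nat_lit 0) (nat_lit 0x2107921be) (nat_lit 251796106),
  Rx.mk (nat_lit 246) (nat_lit 6) (nat_lit 6) (nat_lit 3) (nat_lit 7) (nat_lit 148) (nat_lit 162) r11_148 r11_162 (nat_lit 0) (nat_lit 0) (nat_lit 0) (nat_lit 0x1f967450a) (nat_lit 275707106),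
  Rx.mk (nat_lit 283) (nat_lit 3) (nat_lit 3) (nat_lit 4) (nat_lit 3) (nat_lit 161) (nat_lit 146) r11_161 r11_146 (nat_lit 0) (nat_lit 0) (nat_lit 7023825) (nat_lit 0x2023a709e) (nat_lit 273493231),
  Rx.mk (nat_lit 411) (nat_lit 3) (nat_lit 3) (nat_lit 6) (nat_lit 7) (nat_lit 162) (nat_lit 148) r11_162 r11_148 (nat_lit 0) (nat_lit 0) (nat_lit 0) (nat_lit 0x1f967450a) (nat_lit 275707106),
  Rx.mk (nat_lit 443) (nat_lit 3) (nat_lit 7) (nat_lit 6) (nat_lit 7) (nat_lit 160) (nat_lit 149) r11_160 r11_149 (nat_lit 0) (nat_lit 0) (nat_lit 0) (nat_lit 0x2107921be) (nat_lit 251796106),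
  Rx.mk (nat_lit 447) (nat_lit 7) (nat_lit 7) (nat_lit 6) (nat_lit 7) (nat_lit 152) (nat_lit 158) r11_152 r11_158 (nat_lit 0) (nat_lit 0) (nat_lit 0) (nat_lit 0x231843ae2) (nat_lit 217940356),
  Rx.mk (nat_lit 448) (nat_lit 0) (nat_lit 0) (nat_lit 7) (nat_lit 4) (nat_lit 154) (nat_lit 144) r11_154 r11_144 (nat_lit 327951) (nat_lit 385341) (nat_lit 0) (nat_lit 0x1e42aa7fe) (nat_lit 298780798),
  Rx.mk (nat_lit 450) (nat_lit 2) (nat_lit 0) (nat_lit 7) (nat_lit 5) (nat_lit 156) (nat_lit 150) r11_156 r11_150 (nat_lit 0) (nat_lit 6303467) (nat_lit 0) (nat_lit 0x2021871ec) (nat_lit 272906373),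
  Rx.mk (nat_lit 466) (nat_lit 2) (nat_lit 2) (nat_lit 7) (nat_lit 7) (nat_lit 157) (nat_lit 153) r11_157 r11_153 (nat_lit 0) (nat_lit 0) (nat_lit 0) (nat_lit 0x20189ca78) (nat_lit 267186956),
  Rx.mk (nat_lit 472) (nat_lit 0) (nat_lit 3) (nat_lit 7) (nat_lit 6) (nat_lit 155) (nat_lit 145) r11_155 r11_145 (nat_lit 3302135) (nat_lit 0) (nat_lit 0) (nat_lit 0x20c608b80) (nat_lit 259300191),
  Rx.mk (nat_lit 474) (nat_lit 2) (nat_lit 3) (nat_lit 7) (nat_lit 7) (nat_lit 159) (nat_lit 151) r11_159 r11_151 (nat_lit 0) (nat_lit 0) (nat_lit 0) (nat_lit 0x2044faef8) (nat_lit 264313106),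
  Rx.mk (nat_lit 475) (nat_lit 3) (nat_lit 3) (nat_lit 7) (nat_lit 7) (nat_lit 163) (nat_lit 147) r11_163 r11_147 (nat_lit 0) (nat_lit 0) (nat_lit 0) (nat_lit 0x20056d4f2) (nat_lit 268435456)]
noncomputable def e20_21 : List Rx := [
  Rx.mk (nat_lit 82) (nat_lit 2) (nat_lit 2) (nat_lit 1) (nat_lit 7) (nat_lit 164) (nat_lit 214) r11_164 r9_214 (nat_lit 0) (nat_lit 0) (nat_lit 0) (nat_lit 0x20056d4f2) (nat_lit 268435456)]
noncomputable def e20_22 : List Rx := [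
  Rx.mk (nat_lit 256) (nat_lit 0) (nat_lit 0) (nat_lit 4) (nat_lit 0) (nat_lit 165) (nat_lit 342) r11_165 r0_342 (nat_lit 14627977) (nat_lit 8466519) (nat_lit 5049713) (nat_lit 0x1785739c0) (nat_lit 440788215),
  Rx.mk (nat_lit 257) (nat_lit 1) (nat_lit 0) (nat_lit 4) (nat_lit 1) (nat_lit 171) (nat_lit 344) r11_171 r0_344 (nat_lit 0) (nat_lit 11117765) (nat_lit 26026765) (nat_lit 0x1e895a6e0) (nat_lit 330636636),
  Rx.mk (nat_lit 258) (nat_lit 2) (nat_lit 0) (nat_lit 4) (nat_lit 1) (nat_lit 177) (nat_lit 346) r11_177 r0_346 (nat_lit 0) (nat_lit 12075733) (nat_lit 11887713) (nat_lit 0x1eb247a26) (nat_lit 314760552),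
  Rx.mk (nat_lit 264) (nat_lit 0) (nat_lit 1) (nat_lit 4) (nat_lit 2) (nat_lit 168) (nat_lit 343) r11_168 r0_343 (nat_lit 7618608) (nat_lit 0) (nat_lit 47226542) (nat_lit 0x1f34ba8aa) (nat_lit 336986356),
  Rx.mk (nat_lit 265) (nat_lit 1) (nat_lit 1) (nat_lit 4) (nat_lit 3) (nat_lit 174) (nat_lit 345) r11_174 r0_345 (nat_lit 0) (nat_lit 0) (nat_lit 39878874) (nat_lit 0x1f508030a) (nat_lit 320158280),
  Rx.mk (nat_lit 266) (nat_lit 2) (nat_lit 1) (nat_lit 4) (nat_lit 3) (nat_lit 179) (nat_lit 347) r11_179 r0_347 (nat_lit 0) (nat_lit 0) (nat_lit 9484367) (nat_lit 0x2059b896c) (nat_lit 272450673),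
  Rx.mk (nat_lit 274) (nat_lit 2) (nat_lit 2) (nat_lit 4) (nat_lit 3) (nat_lit 181) (nat_lit 348) r11_181 r0_348 (nat_lit 0) (nat_lit 0) (nat_lit 9484367) (nat_lit 0x1f84a366e) (nat_lit 286360823),
  Rx.mk (nat_lit 320) (nat_lit 0) (nat_lit 0) (nat_lit 5) (nat_lit 4) (nat_lit 166) (nat_lit 349) r11_166 r0_349 (nat_lit 30727633) (nat_lit 7338378) (nat_lit 0) (nat_lit 0x1ea3cd702) (nat_lit 329808917),
  Rx.mk (nat_lit 321) (nat_lit 1) (nat_lit 0) (nat_lit 5) (nat_lit 5) (nat_lit 172) (nat_lit 351) r11_172 r0_351 (nat_lit 0) (nat_lit 9484367) (nat_lit 0) (nat_lit 0x20056d4f2) (nat_lit 277919823),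
  Rx.mk (nat_lit 322) (nat_lit 2) (nat_lit 0) (nat_lit 5) (nat_lit 5) (nat_lit 178) (nat_lit 353) r11_178 r0_353 (nat_lit 0) (nat_lit 6887100) (nat_lit 0) (nat_lit 0x2015d3daa) (nat_lit 274247906),
  Rx.mk (nat_lit 328) (nat_lit 0) (nat_lit 1) (nat_lit 5) (nat_lit 6) (nat_lit 169) (nat_lit 350) r11_169 r0_350 (nat_lit 9484367) (nat_lit 0) (nat_lit 0) (nat_lit 0x20056d4f2) (nat_lit 277919823),
  Rx.mk (nat_lit 329) (nat_lit 1) (nat_lit 1) (nat_lit 5) (nat_lit 7) (nat_lit 175) (nat_lit 352) r11_175 r0_352 (nat_lit 0) (nat_lit 0) (nat_lit 0) (nat_lit 0x2027076bc) (nat_lit 266249356),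
  Rx.mk (nat_lit 330) (nat_lit 2) (nat_lit 1) (nat_lit 5) (nat_lit 7) (nat_lit 180) (nat_lit 354) r11_180 r0_354 (nat_lit 0) (nat_lit 0) (nat_lit 0) (nat_lit 0x20056d4f2) (nat_lit 268435456),
  Rx.mk (nat_lit 338) (nat_lit 2) (nat_lit 2) (nat_lit 5) (nat_lit 7) (nat_lit 182) (nat_lit 355) r11_182 r0_355 (nat_lit 0) (nat_lit 0) (nat_lit 0) (nat_lit 0x202a4c502) (nat_lit 266036856),
  Rx.mk (nat_lit 384) (nat_lit 0) (nat_lit 0) (nat_lit 6) (nat_lit 4) (nat_lit 167) (nat_lit 356) r11_167 r0_356 (nat_lit 12626977) (nat_lit 11130106) (nat_lit 0) (nat_lit 0x1f556d688) (nat_lit 303736289),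
  Rx.mk (nat_lit 385) (nat_lit 1) (nat_lit 0) (nat_lit 6) (nat_lit 5) (nat_lit 173) (nat_lit 358) r11_173 r0_358 (nat_lit 0) (nat_lit 7551605) (nat_lit 0) (nat_lit 0x2023d3d1a) (nat_lit 274003461),
  Rx.mk (nat_lit 392) (nat_lit 0) (nat_lit 1) (nat_lit 6) (nat_lit 6) (nat_lit 170) (nat_lit 357) r11_170 r0_357 (nat_lit 5043943) (nat_lit 0) (nat_lit 0) (nat_lit 0x20722e604) (nat_lit 266431999),
  Rx.mk (nat_lit 393) (nat_lit 1) (nat_lit 1) (nat_lit 6) (nat_lit 7) (nat_lit 176) (nat_lit 359) r11_176 r0_359 (nat_lit 0) (nat_lit 0) (nat_lit 0) (nat_lit 0x210e26124) (nat_lit 251360656)]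
noncomputable def e20_23 : List Rx := [
  Rx.mk (nat_lit 264) (nat_lit 0) (nat_lit 1) (nat_lit 4) (nat_lit 2) (nat_lit 183) (nat_lit 316) r11_183 r1_316 (nat_lit 12774047) (nat_lit 0) (nat_lit 59178764) (nat_lit 0x1dfe512e2) (nat_lit 374667667),
  Rx.mk (nat_lit 265) (nat_lit 1) (nat_lit 1) (nat_lit 4) (nat_lit 3) (nat_lit 186) (nat_lit 317) r11_186 r1_317 (nat_lit 0) (nat_lit 0) (nat_lit 22776374) (nat_lit 0x1f59a92b0) (nat_lit 302473830),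
  Rx.mk (nat_lit 266) (nat_lit 2) (nat_lit 1) (nat_lit 4) (nat_lit 3) (nat_lit 189) (nat_lit 318) r11_189 r1_318 (nat_lit 0) (nat_lit 0) (nat_lit 9484367) (nat_lit 0x20056d4f2) (nat_lit 277919823),
  Rx.mk (nat_lit 328) (nat_lit 0) (nat_lit 1) (nat_lit 5) (nat_lit 6) (nat_lit 184) (nat_lit 319) r11_184 r1_319 (nat_lit 9484367) (nat_lit 0) (nat_lit 0) (nat_lit 0x20056d4f2) (nat_lit 277919823),
  Rx.mk (nat_lit 329) (nat_lit 1) (nat_lit 1) (nat_lit 5) (nat_lit 7) (nat_lit 187) (nat_lit 320) r11_187 r1_320 (nat_lit 0) (nat_lit 0) (nat_lit 0) (nat_lit 0x20056d4f2) (nat_lit 268435456),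
  Rx.mk (nat_lit 330) (nat_lit 2) (nat_lit 1) (nat_lit 5) (nat_lit 7) (nat_lit 190) (nat_lit 321) r11_190 r1_321 (nat_lit 0) (nat_lit 0) (nat_lit 0) (nat_lit 0x20056d4f2) (nat_lit 268435456),
  Rx.mk (nat_lit 392) (nat_lit 0) (nat_lit 1) (nat_lit 6) (nat_lit 6) (nat_lit 185) (nat_lit 322) r11_185 r1_322 (nat_lit 7557539) (nat_lit 0) (nat_lit 0) (nat_lit 0x202295dd6) (nat_lit 274094945),
  Rx.mk (nat_lit 393) (nat_lit 1) (nat_lit 1) (nat_lit 6) (nat_lit 7) (nat_lit 188) (nat_lit 323) r11_188 r1_323 (nat_lit 0) (nat_lit 0) (nat_lit 0) (nat_lit 0x214231770) (nat_lit 248034356)]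
noncomputable def e20_24 : List Rx := [
  Rx.mk (nat_lit 256) (nat_lit 0) (nat_lit 0) (nat_lit 4) (nat_lit 0) (nat_lit 191) (nat_lit 381) r11_191 r4_381 (nat_lit 4629243) (nat_lit 5259995) (nat_lit 11636049) (nat_lit 0x18a059702) (nat_lit 415395343),
  Rx.mk (nat_lit 257) (nat_lit 1) (nat_lit 0) (nat_lit 4) (nat_lit 1) (nat_lit 199) (nat_lit 384) r11_199 r4_384 (nat_lit 0) (nat_lit 5972934) (nat_lit 24962579) (nat_lit 0x1efa7961e) (nat_lit 316939569),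
  Rx.mk (nat_lit 258) (nat_lit 2) (nat_lit 0) (nat_lit 4) (nat_lit 1) (nat_lit 207) (nat_lit 387) r11_207 r4_387 (nat_lit 0) (nat_lit 9191551) (nat_lit 14112324) (nat_lit 0x1ed0dc766) (nat_lit 312067131),
  Rx.mk (nat_lit 264) (nat_lit 0) (nat_lit 1) (nat_lit 4) (nat_lit 2) (nat_lit 194) (nat_lit 382) r11_194 r4_382 (nat_lit 8266185) (nat_lit 0) (nat_lit 12001047) (nat_lit 0x1fde50518) (nat_lit 291249688),
  Rx.mk (nat_lit 265) (nat_lit 1) (nat_lit 1) (nat_lit 4) (nat_lit 3) (nat_lit 202) (nat_lit 385) r11_202 r4_385 (nat_lit 0) (nat_lit 0) (nat_lit 11215696) (nat_lit 0x1f7d24aa0) (nat_lit 288594902),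
  Rx.mk (nat_lit 266) (nat_lit 2) (nat_lit 1) (nat_lit 4) (nat_lit 3) (nat_lit 209) (nat_lit 388) r11_209 r4_388 (nat_lit 0) (nat_lit 0) (nat_lit 9484367) (nat_lit 0x20176d5a8) (nat_lit 276747473),
  Rx.mk (nat_lit 274) (nat_lit 2) (nat_lit 2) (nat_lit 4) (nat_lit 3) (nat_lit 210) (nat_lit 389) r11_210 r4_389 (nat_lit 0) (nat_lit 0) (nat_lit 9484367) (nat_lit 0x20176df08) (nat_lit 276747323),
  Rx.mk (nat_lit 280) (nat_lit 0) (nat_lit 3) (nat_lit 4) (nat_lit 2) (nat_lit 196) (nat_lit 383) r11_196 r4_383 (nat_lit 12835839) (nat_lit 0) (nat_lit 11364595) (nat_lit 0x1f2c2c2a6) (nat_lit 306926390),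
  Rx.mk (nat_lit 281) (nat_lit 1) (nat_lit 3) (nat_lit 4) (nat_lit 3) (nat_lit 204) (nat_lit 386) r11_204 r4_386 (nat_lit 0) (nat_lit 0) (nat_lit 9484367) (nat_lit 0x20056d4f2) (nat_lit 277919823),
  Rx.mk (nat_lit 320) (nat_lit 0) (nat_lit 0) (nat_lit 5) (nat_lit 4) (nat_lit 192) (nat_lit 390) r11_192 r4_390 (nat_lit 31250710) (nat_lit 7182901) (nat_lit 0) (nat_lit 0x1f1542e96) (nat_lit 322664317),
  Rx.mk (nat_lit 321) (nat_lit 1) (nat_lit 0) (nat_lit 5) (nat_lit 5) (nat_lit 200) (nat_lit 392) r11_200 r4_392 (nat_lit 0) (nat_lit 9484367) (nat_lit 0) (nat_lit 0x20056d4f2) (nat_lit 277919823),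
  Rx.mk (nat_lit 322) (nat_lit 2) (nat_lit 0) (nat_lit 5) (nat_lit 5) (nat_lit 208) (nat_lit 394) r11_208 r4_394 (nat_lit 0) (nat_lit 9484367) (nat_lit 0) (nat_lit 0x20056d4f2) (nat_lit 277919823),
  Rx.mk (nat_lit 338) (nat_lit 2) (nat_lit 2) (nat_lit 5) (nat_lit 7) (nat_lit 211) (nat_lit 395) r11_211 r4_395 (nat_lit 0) (nat_lit 0) (nat_lit 0) (nat_lit 0x20056d4f2) (nat_lit 268435456),
  Rx.mk (nat_lit 344) (nat_lit 0) (nat_lit 3) (nat_lit 5) (nat_lit 6) (nat_lit 197) (nat_lit 391) r11_197 r4_391 (nat_lit 9484367) (nat_lit 0) (nat_lit 0) (nat_lit 0x20056d4f2) (nat_lit 277919823),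
  Rx.mk (nat_lit 345) (nat_lit 1) (nat_lit 3) (nat_lit 5) (nat_lit 7) (nat_lit 205) (nat_lit 393) r11_205 r4_393 (nat_lit 0) (nat_lit 0) (nat_lit 0) (nat_lit 0x20056d4f2) (nat_lit 268435456),
  Rx.mk (nat_lit 384) (nat_lit 0) (nat_lit 0) (nat_lit 6) (nat_lit 4) (nat_lit 193) (nat_lit 396) r11_193 r4_396 (nat_lit 10634033) (nat_lit 12144670) (nat_lit 0) (nat_lit 0x1f90f139e) (nat_lit 298845159),
  Rx.mk (nat_lit 385) (nat_lit 1) (nat_lit 0) (nat_lit 6) (nat_lit 5) (nat_lit 201) (nat_lit 399) r11_201 r4_399 (nat_lit 0) (nat_lit 9484367) (nat_lit 0) (nat_lit 0x20056d4f2) (nat_lit 277919823),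
  Rx.mk (nat_lit 392) (nat_lit 0) (nat_lit 1) (nat_lit 6) (nat_lit 6) (nat_lit 195) (nat_lit 397) r11_195 r4_397 (nat_lit 9484367) (nat_lit 0) (nat_lit 0) (nat_lit 0x20056d4f2) (nat_lit 277919823),
  Rx.mk (nat_lit 393) (nat_lit 1) (nat_lit 1) (nat_lit 6) (nat_lit 7) (nat_lit 203) (nat_lit 400) r11_203 r4_400 (nat_lit 0) (nat_lit 0) (nat_lit 0) (nat_lit 0x20056d4f2) (nat_lit 268435456),
  Rx.mk (nat_lit 408) (nat_lit 0) (nat_lit 3) (nat_lit 6) (nat_lit 6) (nat_lit 198) (nat_lit 398) r11_198 r4_398 (nat_lit 9484367) (nat_lit 0) (nat_lit 0) (nat_lit 0x20056d4f2) (nat_lit 277919823),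
  Rx.mk (nat_lit 409) (nat_lit 1) (nat_lit 3) (nat_lit 6) (nat_lit 7) (nat_lit 206) (nat_lit 401) r11_206 r4_401 (nat_lit 0) (nat_lit 0) (nat_lit 0) (nat_lit 0x20056d4f2) (nat_lit 268435456)]
noncomputable def e20_25 : List Rx := [
  Rx.mk (nat_lit 320) (nat_lit 0) (nat_lit 0) (nat_lit 5) (nat_lit 4) (nat_lit 212) (nat_lit 263) r11_212 r7_263 (nat_lit 37534727) (nat_lit 13980483) (nat_lit 0) (nat_lit 0x1e7b17aba) (nat_lit 345961816),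
  Rx.mk (nat_lit 321) (nat_lit 1) (nat_lit 0) (nat_lit 5) (nat_lit 5) (nat_lit 214) (nat_lit 264) r11_214 r7_264 (nat_lit 0) (nat_lit 9484367) (nat_lit 0) (nat_lit 0x20056d4f2) (nat_lit 277919823),
  Rx.mk (nat_lit 322) (nat_lit 2) (nat_lit 0) (nat_lit 5) (nat_lit 5) (nat_lit 216) (nat_lit 265) r11_216 r7_265 (nat_lit 0) (nat_lit 9484367) (nat_lit 0) (nat_lit 0x20056d4f2) (nat_lit 277919823),
  Rx.mk (nat_lit 328) (nat_lit 0) (nat_lit 1) (nat_lit 5) (nat_lit 6) (nat_lit 213) (nat_lit 266) r11_213 r7_266 (nat_lit 9484367) (nat_lit 0) (nat_lit 0) (nat_lit 0x20056d4f2) (nat_lit 277919823),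
  Rx.mk (nat_lit 329) (nat_lit 1) (nat_lit 1) (nat_lit 5) (nat_lit 7) (nat_lit 215) (nat_lit 267) r11_215 r7_267 (nat_lit 0) (nat_lit 0) (nat_lit 0) (nat_lit 0x20056d4f2) (nat_lit 268435456),
  Rx.mk (nat_lit 330) (nat_lit 2) (nat_lit 1) (nat_lit 5) (nat_lit 7) (nat_lit 217) (nat_lit 268) r11_217 r7_268 (nat_lit 0) (nat_lit 0) (nat_lit 0) (nat_lit 0x20056d4f2) (nat_lit 268435456),
  Rx.mk (nat_lit 338) (nat_lit 2) (nat_lit 2) (nat_lit 5) (nat_lit 7) (nat_lit 218) (nat_lit 269) r11_218 r7_269 (nat_lit 0) (nat_lit 0) (nat_lit 0) (nat_lit 0x20056d4f2) (nat_lit 268435456)]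
noncomputable def e20_26 : List Rx := [
  Rx.mk (nat_lit 328) (nat_lit 0) (nat_lit 1) (nat_lit 5) (nat_lit 6) (nat_lit 219) (nat_lit 198) r11_219 r8_198 (nat_lit 9484367) (nat_lit 0) (nat_lit 0) (nat_lit 0x20056d4f2) (nat_lit 277919823),
  Rx.mk (nat_lit 329) (nat_lit 1) (nat_lit 1) (nat_lit 5) (nat_lit 7) (nat_lit 220) (nat_lit 199) r11_220 r8_199 (nat_lit 0) (nat_lit 0) (nat_lit 0) (nat_lit 0x20056d4f2) (nat_lit 268435456),
  Rx.mk (nat_lit 330) (nat_lit 2) (nat_lit 1) (nat_lit 5) (nat_lit 7) (nat_lit 221) (nat_lit 200) r11_221 r8_200 (nat_lit 0) (nat_lit 0) (nat_lit 0) (nat_lit 0x20056d4f2) (nat_lit 268435456)]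
noncomputable def e20_27 : List Rx := [
  Rx.mk (nat_lit 82) (nat_lit 2) (nat_lit 2) (nat_lit 1) (nat_lit 7) (nat_lit 229) (nat_lit 367) r11_229 r8_367 (nat_lit 0) (nat_lit 0) (nat_lit 0) (nat_lit 0x20056d4f2) (nat_lit 268435456),
  Rx.mk (nat_lit 320) (nat_lit 0) (nat_lit 0) (nat_lit 5) (nat_lit 4) (nat_lit 222) (nat_lit 368) r11_222 r8_368 (nat_lit 29966362) (nat_lit 24191423) (nat_lit 0) (nat_lit 0x1ebb93526) (nat_lit 344331841),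
  Rx.mk (nat_lit 321) (nat_lit 1) (nat_lit 0) (nat_lit 5) (nat_lit 5) (nat_lit 224) (nat_lit 370) r11_224 r8_370 (nat_lit 0) (nat_lit 9484367) (nat_lit 0) (nat_lit 0x20056d4f2) (nat_lit 277919823),
  Rx.mk (nat_lit 322) (nat_lit 2) (nat_lit 0) (nat_lit 5) (nat_lit 5) (nat_lit 226) (nat_lit 372) r11_226 r8_372 (nat_lit 0) (nat_lit 9484367) (nat_lit 0) (nat_lit 0x20056d4f2) (nat_lit 277919823),
  Rx.mk (nat_lit 328) (nat_lit 0) (nat_lit 1) (nat_lit 5) (nat_lit 6) (nat_lit 223) (nat_lit 369) r11_223 r8_369 (nat_lit 9484367) (nat_lit 0) (nat_lit 0) (nat_lit 0x20056d4f2) (nat_lit 277919823),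
  Rx.mk (nat_lit 329) (nat_lit 1) (nat_lit 1) (nat_lit 5) (nat_lit 7) (nat_lit 225) (nat_lit 371) r11_225 r8_371 (nat_lit 0) (nat_lit 0) (nat_lit 0) (nat_lit 0x20056d4f2) (nat_lit 268435456),
  Rx.mk (nat_lit 330) (nat_lit 2) (nat_lit 1) (nat_lit 5) (nat_lit 7) (nat_lit 227) (nat_lit 373) r11_227 r8_373 (nat_lit 0) (nat_lit 0) (nat_lit 0) (nat_lit 0x20056d4f2) (nat_lit 268435456),
  Rx.mk (nat_lit 338) (nat_lit 2) (nat_lit 2) (nat_lit 5) (nat_lit 7) (nat_lit 228) (nat_lit 374) r11_228 r8_374 (nat_lit 0) (nat_lit 0) (nat_lit 0) (nat_lit 0x20056d4f2) (nat_lit 268435456)]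
noncomputable def e20_28 : List Rx := [
  Rx.mk (nat_lit 320) (nat_lit 0) (nat_lit 0) (nat_lit 5) (nat_lit 4) (nat_lit 230) (nat_lit 206) r11_230 r10_206 (nat_lit 22785138) (nat_lit 8625288) (nat_lit 0) (nat_lit 0x1fba8cb7c) (nat_lit 304735382),
  Rx.mk (nat_lit 321) (nat_lit 1) (nat_lit 0) (nat_lit 5) (nat_lit 5) (nat_lit 232) (nat_lit 207) r11_232 r10_207 (nat_lit 0) (nat_lit 9484367) (nat_lit 0) (nat_lit 0x20056d4f2) (nat_lit 277919823),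
  Rx.mk (nat_lit 322) (nat_lit 2) (nat_lit 0) (nat_lit 5) (nat_lit 5) (nat_lit 234) (nat_lit 208) r11_234 r10_208 (nat_lit 0) (nat_lit 9484367) (nat_lit 0) (nat_lit 0x20056d4f2) (nat_lit 277919823),
  Rx.mk (nat_lit 338) (nat_lit 2) (nat_lit 2) (nat_lit 5) (nat_lit 7) (nat_lit 235) (nat_lit 211) r11_235 r10_211 (nat_lit 0) (nat_lit 0) (nat_lit 0) (nat_lit 0x20056d4f2) (nat_lit 268435456),
  Rx.mk (nat_lit 344) (nat_lit 0) (nat_lit 3) (nat_lit 5) (nat_lit 6) (nat_lit 231) (nat_lit 209) r11_231 r10_209 (nat_lit 9484367) (nat_lit 0) (nat_lit 0) (nat_lit 0x20056d4f2) (nat_lit 277919823),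
  Rx.mk (nat_lit 345) (nat_lit 1) (nat_lit 3) (nat_lit 5) (nat_lit 7) (nat_lit 233) (nat_lit 210) r11_233 r10_210 (nat_lit 0) (nat_lit 0) (nat_lit 0) (nat_lit 0x20056d4f2) (nat_lit 268435456)]
noncomputable def e20_29 : List Rx := [
  Rx.mk (nat_lit 256) (nat_lit 0) (nat_lit 0) (nat_lit 4) (nat_lit 0) (nat_lit 236) (nat_lit 236) r11_236 r11_236 (nat_lit 19380631) (nat_lit 19380631) (nat_lit 18487479) (nat_lit 0x1960b8660) (nat_lit 438358347),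
  Rx.mk (nat_lit 257) (nat_lit 1) (nat_lit 0) (nat_lit 4) (nat_lit 1) (nat_lit 246) (nat_lit 240) r11_246 r11_240 (nat_lit 0) (nat_lit 23454846) (nat_lit 17786166) (nat_lit 0x1e96e7f7e) (nat_lit 333849968),
  Rx.mk (nat_lit 258) (nat_lit 2) (nat_lit 0) (nat_lit 4) (nat_lit 1) (nat_lit 254) (nat_lit 243) r11_254 r11_243 (nat_lit 0) (nat_lit 13508988) (nat_lit 15792049) (nat_lit 0x1e09c7e8c) (nat_lit 331273643),
  Rx.mk (nat_lit 264) (nat_lit 0) (nat_lit 1) (nat_lit 4) (nat_lit 2) (nat_lit 240) (nat_lit 246) r11_240 r11_246 (nat_lit 23454846) (nat_lit 0) (nat_lit 17786166) (nat_lit 0x1e96e7f7e) (nat_lit 333849968),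
  Rx.mk (nat_lit 265) (nat_lit 1) (nat_lit 1) (nat_lit 4) (nat_lit 3) (nat_lit 249) (nat_lit 249) r11_249 r11_249 (nat_lit 0) (nat_lit 0) (nat_lit 9294290) (nat_lit 0x1feb311d8) (nat_lit 279439796),
  Rx.mk (nat_lit 266) (nat_lit 2) (nat_lit 1) (nat_lit 4) (nat_lit 3) (nat_lit 257) (nat_lit 252) r11_257 r11_252 (nat_lit 0) (nat_lit 0) (nat_lit 9484367) (nat_lit 0x20056d4f2) (nat_lit 277919823),
  Rx.mk (nat_lit 274) (nat_lit 2) (nat_lit 2) (nat_lit 4) (nat_lit 3) (nat_lit 259) (nat_lit 262) r11_259 r11_262 (nat_lit 0) (nat_lit 0) (nat_lit 9484367) (nat_lit 0x20056d4f2) (nat_lit 277919823),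
  Rx.mk (nat_lit 280) (nat_lit 0) (nat_lit 3) (nat_lit 4) (nat_lit 2) (nat_lit 243) (nat_lit 254) r11_243 r11_254 (nat_lit 13508988) (nat_lit 0) (nat_lit 15792049) (nat_lit 0x1e09c7e8c) (nat_lit 331273643),
  Rx.mk (nat_lit 281) (nat_lit 1) (nat_lit 3) (nat_lit 4) (nat_lit 3) (nat_lit 252) (nat_lit 257) r11_252 r11_257 (nat_lit 0) (nat_lit 0) (nat_lit 9484367) (nat_lit 0x20056d4f2) (nat_lit 277919823),
  Rx.mk (nat_lit 283) (nat_lit 3) (nat_lit 3) (nat_lit 4) (nat_lit 3) (nat_lit 262) (nat_lit 259) r11_262 r11_259 (nat_lit 0) (nat_lit 0) (nat_lit 9484367) (nat_lit 0x20056d4f2) (nat_lit 277919823),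
  Rx.mk (nat_lit 320) (nat_lit 0) (nat_lit 0) (nat_lit 5) (nat_lit 4) (nat_lit 237) (nat_lit 237) r11_237 r11_237 (nat_lit 12681735) (nat_lit 12681735) (nat_lit 0) (nat_lit 0x1fb575eae) (nat_lit 299017626),
  Rx.mk (nat_lit 322) (nat_lit 2) (nat_lit 0) (nat_lit 5) (nat_lit 5) (nat_lit 255) (nat_lit 244) r11_255 r11_244 (nat_lit 0) (nat_lit 9484367) (nat_lit 0) (nat_lit 0x20056d4f2) (nat_lit 277919823),
  Rx.mk (nat_lit 338) (nat_lit 2) (nat_lit 2) (nat_lit 5) (nat_lit 7) (nat_lit 260) (nat_lit 263) r11_260 r11_263 (nat_lit 0) (nat_lit 0) (nat_lit 0) (nat_lit 0x20056d4f2) (nat_lit 268435456),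
  Rx.mk (nat_lit 344) (nat_lit 0) (nat_lit 3) (nat_lit 5) (nat_lit 6) (nat_lit 244) (nat_lit 255) r11_244 r11_255 (nat_lit 9484367) (nat_lit 0) (nat_lit 0) (nat_lit 0x20056d4f2) (nat_lit 277919823),
  Rx.mk (nat_lit 347) (nat_lit 3) (nat_lit 3) (nat_lit 5) (nat_lit 7) (nat_lit 263) (nat_lit 260) r11_263 r11_260 (nat_lit 0) (nat_lit 0) (nat_lit 0) (nat_lit 0x20056d4f2) (nat_lit 268435456),
  Rx.mk (nat_lit 384) (nat_lit 0) (nat_lit 0) (nat_lit 6) (nat_lit 4) (nat_lit 238) (nat_lit 239) r11_238 r11_239 (nat_lit 10432323) (nat_lit 10432323) (nat_lit 0) (nat_lit 0x1f9abef16) (nat_lit 296290752),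
  Rx.mk (nat_lit 385) (nat_lit 1) (nat_lit 0) (nat_lit 6) (nat_lit 5) (nat_lit 247) (nat_lit 242) r11_247 r11_242 (nat_lit 0) (nat_lit 9484367) (nat_lit 0) (nat_lit 0x20056d4f2) (nat_lit 277919823),
  Rx.mk (nat_lit 392) (nat_lit 0) (nat_lit 1) (nat_lit 6) (nat_lit 6) (nat_lit 241) (nat_lit 248) r11_241 r11_248 (nat_lit 9484367) (nat_lit 0) (nat_lit 0) (nat_lit 0x20056d4f2) (nat_lit 277919823),
  Rx.mk (nat_lit 393) (nat_lit 1) (nat_lit 1) (nat_lit 6) (nat_lit 7) (nat_lit 250) (nat_lit 251) r11_250 r11_251 (nat_lit 0) (nat_lit 0) (nat_lit 0) (nat_lit 0x20056d4f2) (nat_lit 268435456),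
  Rx.mk (nat_lit 408) (nat_lit 0) (nat_lit 3) (nat_lit 6) (nat_lit 6) (nat_lit 245) (nat_lit 256) r11_245 r11_256 (nat_lit 9851663) (nat_lit 0) (nat_lit 0) (nat_lit 0x1fed73c16) (nat_lit 279850819),
  Rx.mk (nat_lit 409) (nat_lit 1) (nat_lit 3) (nat_lit 6) (nat_lit 7) (nat_lit 253) (nat_lit 258) r11_253 r11_258 (nat_lit 0) (nat_lit 0) (nat_lit 0) (nat_lit 0x20056d4f2) (nat_lit 268435456),
  Rx.mk (nat_lit 411) (nat_lit 3) (nat_lit 3) (nat_lit 6) (nat_lit 7) (nat_lit 264) (nat_lit 261) r11_264 r11_261 (nat_lit 0) (nat_lit 0) (nat_lit 0) (nat_lit 0x20056d4f2) (nat_lit 268435456),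
  Rx.mk (nat_lit 448) (nat_lit 0) (nat_lit 0) (nat_lit 7) (nat_lit 4) (nat_lit 239) (nat_lit 238) r11_239 r11_238 (nat_lit 10432323) (nat_lit 10432323) (nat_lit 0) (nat_lit 0x1f9abef16) (nat_lit 296290752),
  Rx.mk (nat_lit 449) (nat_lit 1) (nat_lit 0) (nat_lit 7) (nat_lit 5) (nat_lit 248) (nat_lit 241) r11_248 r11_241 (nat_lit 0) (nat_lit 9484367) (nat_lit 0) (nat_lit 0x20056d4f2) (nat_lit 277919823),
  Rx.mk (nat_lit 450) (nat_lit 2) (nat_lit 0) (nat_lit 7) (nat_lit 5) (nat_lit 256) (nat_lit 245) r11_256 r11_245 (nat_lit 0) (nat_lit 9851663) (nat_lit 0) (nat_lit 0x1fed73c16) (nat_lit 279850819),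
  Rx.mk (nat_lit 456) (nat_lit 0) (nat_lit 1) (nat_lit 7) (nat_lit 6) (nat_lit 242) (nat_lit 247) r11_242 r11_247 (nat_lit 9484367) (nat_lit 0) (nat_lit 0) (nat_lit 0x20056d4f2) (nat_lit 277919823),
  Rx.mk (nat_lit 457) (nat_lit 1) (nat_lit 1) (nat_lit 7) (nat_lit 7) (nat_lit 251) (nat_lit 250) r11_251 r11_250 (nat_lit 0) (nat_lit 0) (nat_lit 0) (nat_lit 0x20056d4f2) (nat_lit 268435456),
  Rx.mk (nat_lit 458) (nat_lit 2) (nat_lit 1) (nat_lit 7) (nat_lit 7) (nat_lit 258) (nat_lit 253) r11_258 r11_253 (nat_lit 0) (nat_lit 0) (nat_lit 0) (nat_lit 0x20056d4f2) (nat_lit 268435456),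
  Rx.mk (nat_lit 466) (nat_lit 2) (nat_lit 2) (nat_lit 7) (nat_lit 7) (nat_lit 261) (nat_lit 264) r11_261 r11_264 (nat_lit 0) (nat_lit 0) (nat_lit 0) (nat_lit 0x20056d4f2) (nat_lit 268435456)]
noncomputable def e20_30 : List Rx := [
  Rx.mk (nat_lit 443) (nat_lit 3) (nat_lit 7) (nat_lit 6) (nat_lit 7) (nat_lit 265) (nat_lit 230) r11_265 r5_230 (nat_lit 0) (nat_lit 0) (nat_lit 0) (nat_lit 0x2571d6418) (nat_lit 179468356)]
noncomputable def e20_31 : List Rx := []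
noncomputable def e20_32 : List Rx := [
  Rx.mk (nat_lit 280) (nat_lit 0) (nat_lit 3) (nat_lit 4) (nat_lit 2) (nat_lit 267) (nat_lit 356) r11_267 r6_356 (nat_lit 1290647) (nat_lit 0) (nat_lit 1607801) (nat_lit 0x1ddf946ce) (nat_lit 307614354),
  Rx.mk (nat_lit 281) (nat_lit 1) (nat_lit 3) (nat_lit 4) (nat_lit 3) (nat_lit 270) (nat_lit 359) r11_270 r6_359 (nat_lit 0) (nat_lit 0) (nat_lit 4138257) (nat_lit 0x208746b2c) (nat_lit 264164763),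
  Rx.mk (nat_lit 282) (nat_lit 2) (nat_lit 3) (nat_lit 4) (nat_lit 3) (nat_lit 272) (nat_lit 362) r11_272 r6_362 (nat_lit 0) (nat_lit 0) (nat_lit 5157003) (nat_lit 0x206d078d8) (nat_lit 266877659),
  Rx.mk (nat_lit 408) (nat_lit 0) (nat_lit 3) (nat_lit 6) (nat_lit 6) (nat_lit 268) (nat_lit 358) r11_268 r6_358 (nat_lit 3646873) (nat_lit 0) (nat_lit 0) (nat_lit 0x20a40dff8) (nat_lit 261825829),
  Rx.mk (nat_lit 409) (nat_lit 1) (nat_lit 3) (nat_lit 6) (nat_lit 7) (nat_lit 271) (nat_lit 361) r11_271 r6_361 (nat_lit 0) (nat_lit 0) (nat_lit 0) (nat_lit 0x20056d4f2) (nat_lit 268435456),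
  Rx.mk (nat_lit 440) (nat_lit 0) (nat_lit 7) (nat_lit 6) (nat_lit 6) (nat_lit 266) (nat_lit 357) r11_266 r6_357 (nat_lit 1021404) (nat_lit 0) (nat_lit 0) (nat_lit 0x202273ede) (nat_lit 267454310),
  Rx.mk (nat_lit 441) (nat_lit 1) (nat_lit 7) (nat_lit 6) (nat_lit 7) (nat_lit 269) (nat_lit 360) r11_269 r6_360 (nat_lit 0) (nat_lit 0) (nat_lit 0) (nat_lit 0x258c99c0a) (nat_lit 177754956)]
noncomputable def e20_33 : List Rx := [
  Rx.mk (nat_lit 280) (nat_lit 0) (nat_lit 3) (nat_lit 4) (nat_lit 2) (nat_lit 273) (nat_lit 316) r11_273 r5_316 (nat_lit 6392799) (nat_lit 0) (nat_lit 6492070) (nat_lit 0x1cf2fbd62) (nat_lit 333336275),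
  Rx.mk (nat_lit 281) (nat_lit 1) (nat_lit 3) (nat_lit 4) (nat_lit 3) (nat_lit 276) (nat_lit 317) r11_276 r5_317 (nat_lit 0) (nat_lit 0) (nat_lit 6798092) (nat_lit 0x20253d3ae) (nat_lit 273161198),
  Rx.mk (nat_lit 282) (nat_lit 2) (nat_lit 3) (nat_lit 4) (nat_lit 3) (nat_lit 279) (nat_lit 318) r11_279 r5_318 (nat_lit 0) (nat_lit 0) (nat_lit 6728347) (nat_lit 0x20360daee) (nat_lit 272003153),
  Rx.mk (nat_lit 344) (nat_lit 0) (nat_lit 3) (nat_lit 5) (nat_lit 6) (nat_lit 274) (nat_lit 319) r11_274 r5_319 (nat_lit 7986077) (nat_lit 0) (nat_lit 0) (nat_lit 0x1ff6a9d1c) (nat_lit 277379183),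
  Rx.mk (nat_lit 345) (nat_lit 1) (nat_lit 3) (nat_lit 5) (nat_lit 7) (nat_lit 277) (nat_lit 320) r11_277 r5_320 (nat_lit 0) (nat_lit 0) (nat_lit 0) (nat_lit 0x20056d4f2) (nat_lit 268435456),
  Rx.mk (nat_lit 346) (nat_lit 2) (nat_lit 3) (nat_lit 5) (nat_lit 7) (nat_lit 280) (nat_lit 321) r11_280 r5_321 (nat_lit 0) (nat_lit 0) (nat_lit 0) (nat_lit 0x20056d4f2) (nat_lit 268435456),
  Rx.mk (nat_lit 408) (nat_lit 0) (nat_lit 3) (nat_lit 6) (nat_lit 6) (nat_lit 275) (nat_lit 322) r11_275 r5_322 (nat_lit 5161980) (nat_lit 0) (nat_lit 0) (nat_lit 0x204c9998e) (nat_lit 268977936),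
  Rx.mk (nat_lit 409) (nat_lit 1) (nat_lit 3) (nat_lit 6) (nat_lit 7) (nat_lit 278) (nat_lit 323) r11_278 r5_323 (nat_lit 0) (nat_lit 0) (nat_lit 0) (nat_lit 0x20056d4f2) (nat_lit 268435456)]
noncomputable def e20_34 : List Rx := [
  Rx.mk (nat_lit 344) (nat_lit 0) (nat_lit 3) (nat_lit 5) (nat_lit 6) (nat_lit 281) (nat_lit 368) r11_281 r11_368 (nat_lit 10570835) (nat_lit 0) (nat_lit 0) (nat_lit 0x1fd568dd8) (nat_lit 282142841),
  Rx.mk (nat_lit 345) (nat_lit 1) (nat_lit 3) (nat_lit 5) (nat_lit 7) (nat_lit 282) (nat_lit 369) r11_282 r11_369 (nat_lit 0) (nat_lit 0) (nat_lit 0) (nat_lit 0x20056d4f2) (nat_lit 268435456),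
  Rx.mk (nat_lit 346) (nat_lit 2) (nat_lit 3) (nat_lit 5) (nat_lit 7) (nat_lit 283) (nat_lit 370) r11_283 r11_370 (nat_lit 0) (nat_lit 0) (nat_lit 0) (nat_lit 0x20056d4f2) (nat_lit 268435456)]
noncomputable def e20_35 : List Rx := [
  Rx.mk (nat_lit 440) (nat_lit 0) (nat_lit 7) (nat_lit 6) (nat_lit 6) (nat_lit 284) (nat_lit 254) r11_284 r6_254 (nat_lit 590116) (nat_lit 0) (nat_lit 0) (nat_lit 0x20f551de2) (nat_lit 253440372),
  Rx.mk (nat_lit 441) (nat_lit 1) (nat_lit 7) (nat_lit 6) (nat_lit 7) (nat_lit 285) (nat_lit 255) r11_285 r6_255 (nat_lit 0) (nat_lit 0) (nat_lit 0) (nat_lit 0x24aadcf74) (nat_lit 192191656),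
  Rx.mk (nat_lit 443) (nat_lit 3) (nat_lit 7) (nat_lit 6) (nat_lit 7) (nat_lit 286) (nat_lit 256) r11_286 r6_256 (nat_lit 0) (nat_lit 0) (nat_lit 0) (nat_lit 0x22f7110d6) (nat_lit 220059406)]
noncomputable def e20_36 : List Rx := [
  Rx.mk (nat_lit 280) (nat_lit 0) (nat_lit 3) (nat_lit 4) (nat_lit 2) (nat_lit 288) (nat_lit 154) r11_288 r12_154 (nat_lit 774954) (nat_lit 0) (nat_lit 955947) (nat_lit 0x1d70f638e) (nat_lit 313756707),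
  Rx.mk (nat_lit 281) (nat_lit 1) (nat_lit 3) (nat_lit 4) (nat_lit 3) (nat_lit 292) (nat_lit 158) r11_292 r12_158 (nat_lit 0) (nat_lit 0) (nat_lit 3540029) (nat_lit 0x2010a1a26) (nat_lit 271220685),
  Rx.mk (nat_lit 282) (nat_lit 2) (nat_lit 3) (nat_lit 4) (nat_lit 3) (nat_lit 295) (nat_lit 163) r11_295 r12_163 (nat_lit 0) (nat_lit 0) (nat_lit 4597925) (nat_lit 0x209206102) (nat_lit 263936381),
  Rx.mk (nat_lit 408) (nat_lit 0) (nat_lit 3) (nat_lit 6) (nat_lit 6) (nat_lit 289) (nat_lit 156) r11_289 r12_156 (nat_lit 3492321) (nat_lit 0) (nat_lit 0) (nat_lit 0x212c5600e) (nat_lit 252927227),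
  Rx.mk (nat_lit 409) (nat_lit 1) (nat_lit 3) (nat_lit 6) (nat_lit 7) (nat_lit 293) (nat_lit 160) r11_293 r12_160 (nat_lit 0) (nat_lit 0) (nat_lit 0) (nat_lit 0x2018fce3c) (nat_lit 267161256),
  Rx.mk (nat_lit 440) (nat_lit 0) (nat_lit 7) (nat_lit 6) (nat_lit 6) (nat_lit 287) (nat_lit 157) r11_287 r12_157 (nat_lit 545086) (nat_lit 0) (nat_lit 0) (nat_lit 0x2188c759a) (nat_lit 243964892),
  Rx.mk (nat_lit 441) (nat_lit 1) (nat_lit 7) (nat_lit 6) (nat_lit 7) (nat_lit 291) (nat_lit 161) r11_291 r12_161 (nat_lit 0) (nat_lit 0) (nat_lit 0) (nat_lit 0x261075682) (nat_lit 169317156),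
  Rx.mk (nat_lit 443) (nat_lit 3) (nat_lit 7) (nat_lit 6) (nat_lit 7) (nat_lit 297) (nat_lit 162) r11_297 r12_162 (nat_lit 0) (nat_lit 0) (nat_lit 0) (nat_lit 0x21fe10676) (nat_lit 235951656),
  Rx.mk (nat_lit 472) (nat_lit 0) (nat_lit 3) (nat_lit 7) (nat_lit 6) (nat_lit 290) (nat_lit 155) r11_290 r12_155 (nat_lit 1951873) (nat_lit 0) (nat_lit 0) (nat_lit 0x20a63d10c) (nat_lit 259964879),
  Rx.mk (nat_lit 473) (nat_lit 1) (nat_lit 3) (nat_lit 7) (nat_lit 7) (nat_lit 294) (nat_lit 159) r11_294 r12_159 (nat_lit 0) (nat_lit 0) (nat_lit 0) (nat_lit 0x204307ce0) (nat_lit 264428456),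
  Rx.mk (nat_lit 474) (nat_lit 2) (nat_lit 3) (nat_lit 7) (nat_lit 7) (nat_lit 296) (nat_lit 164) r11_296 r12_164 (nat_lit 0) (nat_lit 0) (nat_lit 0) (nat_lit 0x209d252f4) (nat_lit 258624006)]
noncomputable def e20_37 : List Rx := [
  Rx.mk (nat_lit 417) (nat_lit 1) (nat_lit 4) (nat_lit 6) (nat_lit 5) (nat_lit 298) (nat_lit 328) r11_298 r0_328 (nat_lit 0) (nat_lit 7056473) (nat_lit 0) (nat_lit 0x20022dd1e) (nat_lit 275697279),
  Rx.mk (nat_lit 425) (nat_lit 1) (nat_lit 5) (nat_lit 6) (nat_lit 7) (nat_lit 299) (nat_lit 329) r11_299 r0_329 (nat_lit 0) (nat_lit 0) (nat_lit 0) (nat_lit 0x201fffcf2) (nat_lit 266705806)]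
noncomputable def e20_38 : List Rx := [
  Rx.mk (nat_lit 417) (nat_lit 1) (nat_lit 4) (nat_lit 6) (nat_lit 5) (nat_lit 302) (nat_lit 225) r11_302 r0_225 (nat_lit 0) (nat_lit 4092761) (nat_lit 0) (nat_lit 0x1e23b5f10) (nat_lit 304294217),
  Rx.mk (nat_lit 421) (nat_lit 5) (nat_lit 4) (nat_lit 6) (nat_lit 5) (nat_lit 300) (nat_lit 226) r11_300 r0_226 (nat_lit 0) (nat_lit 5081711) (nat_lit 0) (nat_lit 0x2067102b8) (nat_lit 267155117),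
  Rx.mk (nat_lit 445) (nat_lit 5) (nat_lit 7) (nat_lit 6) (nat_lit 7) (nat_lit 301) (nat_lit 227) r11_301 r0_227 (nat_lit 0) (nat_lit 0) (nat_lit 0) (nat_lit 0x217fdbd96) (nat_lit 244045156)]
noncomputable def e20_39 : List Rx := [
  Rx.mk (nat_lit 417) (nat_lit 1) (nat_lit 4) (nat_lit 6) (nat_lit 5) (nat_lit 306) (nat_lit 442) r11_306 r7_442 (nat_lit 0) (nat_lit 3347934) (nat_lit 0) (nat_lit 0x210cc8818) (nat_lit 254800140),
  Rx.mk (nat_lit 421) (nat_lit 5) (nat_lit 4) (nat_lit 6) (nat_lit 5) (nat_lit 303) (nat_lit 439) r11_303 r7_439 (nat_lit 0) (nat_lit 6916844) (nat_lit 0) (nat_lit 0x20319bac4) (nat_lit 272480450),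
  Rx.mk (nat_lit 425) (nat_lit 1) (nat_lit 5) (nat_lit 6) (nat_lit 7) (nat_lit 307) (nat_lit 443) r11_307 r7_443 (nat_lit 0) (nat_lit 0) (nat_lit 0) (nat_lit 0x212ac02da) (nat_lit 249540606),
  Rx.mk (nat_lit 429) (nat_lit 5) (nat_lit 5) (nat_lit 6) (nat_lit 7) (nat_lit 304) (nat_lit 440) r11_304 r7_440 (nat_lit 0) (nat_lit 0) (nat_lit 0) (nat_lit 0x20056d4f2) (nat_lit 268435456),
  Rx.mk (nat_lit 445) (nat_lit 5) (nat_lit 7) (nat_lit 6) (nat_lit 7) (nat_lit 305) (nat_lit 441) r11_305 r7_441 (nat_lit 0) (nat_lit 0) (nat_lit 0) (nat_lit 0x20056d4f2) (nat_lit 268435456)]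
noncomputable def e20_40 : List Rx := [
  Rx.mk (nat_lit 164) (nat_lit 4) (nat_lit 4) (nat_lit 2) (nat_lit 4) (nat_lit 309) (nat_lit 258) r11_309 r2_258 (nat_lit 7328392) (nat_lit 11141639) (nat_lit 0) (nat_lit 0x1f3e92486) (nat_lit 299967187),
  Rx.mk (nat_lit 165) (nat_lit 5) (nat_lit 4) (nat_lit 2) (nat_lit 5) (nat_lit 313) (nat_lit 259) r11_313 r2_259 (nat_lit 0) (nat_lit 10365969) (nat_lit 0) (nat_lit 0x1fcd1cb8e) (nat_lit 282479375),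
  Rx.mk (nat_lit 180) (nat_lit 4) (nat_lit 6) (nat_lit 2) (nat_lit 6) (nat_lit 310) (nat_lit 265) r11_310 r2_265 (nat_lit 9484367) (nat_lit 0) (nat_lit 0) (nat_lit 0x20056d4f2) (nat_lit 277919823),
  Rx.mk (nat_lit 181) (nat_lit 5) (nat_lit 6) (nat_lit 2) (nat_lit 7) (nat_lit 314) (nat_lit 266) r11_314 r2_266 (nat_lit 0) (nat_lit 0) (nat_lit 0) (nat_lit 0x20056d4f2) (nat_lit 268435456),
  Rx.mk (nat_lit 182) (nat_lit 6) (nat_lit 6) (nat_lit 2) (nat_lit 7) (nat_lit 316) (nat_lit 267) r11_316 r2_267 (nat_lit 0) (nat_lit 0) (nat_lit 0) (nat_lit 0x20056d4f2) (nat_lit 268435456),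
  Rx.mk (nat_lit 420) (nat_lit 4) (nat_lit 4) (nat_lit 6) (nat_lit 4) (nat_lit 308) (nat_lit 260) r11_308 r2_260 (nat_lit 9568563) (nat_lit 16435647) (nat_lit 0) (nat_lit 0x1e5cbb72e) (nat_lit 322466716),
  Rx.mk (nat_lit 421) (nat_lit 5) (nat_lit 4) (nat_lit 6) (nat_lit 5) (nat_lit 312) (nat_lit 261) r11_312 r2_261 (nat_lit 0) (nat_lit 10344080) (nat_lit 0) (nat_lit 0x1fce72452) (nat_lit 282369936),
  Rx.mk (nat_lit 444) (nat_lit 4) (nat_lit 7) (nat_lit 6) (nat_lit 6) (nat_lit 311) (nat_lit 262) r11_311 r2_262 (nat_lit 2751488) (nat_lit 0) (nat_lit 0) (nat_lit 0x237226474) (nat_lit 214959644),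
  Rx.mk (nat_lit 445) (nat_lit 5) (nat_lit 7) (nat_lit 6) (nat_lit 7) (nat_lit 315) (nat_lit 263) r11_315 r2_263 (nat_lit 0) (nat_lit 0) (nat_lit 0) (nat_lit 0x20a79a9be) (nat_lit 257955956),
  Rx.mk (nat_lit 447) (nat_lit 7) (nat_lit 7) (nat_lit 6) (nat_lit 7) (nat_lit 317) (nat_lit 264) r11_317 r2_264 (nat_lit 0) (nat_lit 0) (nat_lit 0) (nat_lit 0x20929fe6a) (nat_lit 259304406)]
noncomputable def e20_41 : List Rx := [
  Rx.mk (nat_lit 164) (nat_lit 4) (nat_lit 4) (nat_lit 2) (nat_lit 4) (nat_lit 319) (nat_lit 229) r11_319 r9_229 (nat_lit 11766120) (nat_lit 11766120) (nat_lit 0) (nat_lit 0x1f90d7d9a) (nat_lit 299612896),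
  Rx.mk (nat_lit 165) (nat_lit 5) (nat_lit 4) (nat_lit 2) (nat_lit 5) (nat_lit 323) (nat_lit 230) r11_323 r9_230 (nat_lit 0) (nat_lit 9484367) (nat_lit 0) (nat_lit 0x20056d4f2) (nat_lit 277919823),
  Rx.mk (nat_lit 173) (nat_lit 5) (nat_lit 5) (nat_lit 2) (nat_lit 7) (nat_lit 325) (nat_lit 233) r11_325 r9_233 (nat_lit 0) (nat_lit 0) (nat_lit 0) (nat_lit 0x20056d4f2) (nat_lit 268435456),
  Rx.mk (nat_lit 180) (nat_lit 4) (nat_lit 6) (nat_lit 2) (nat_lit 6) (nat_lit 320) (nat_lit 238) r11_320 r9_238 (nat_lit 9484367) (nat_lit 0) (nat_lit 0) (nat_lit 0x20056d4f2) (nat_lit 277919823),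
  Rx.mk (nat_lit 181) (nat_lit 5) (nat_lit 6) (nat_lit 2) (nat_lit 7) (nat_lit 326) (nat_lit 239) r11_326 r9_239 (nat_lit 0) (nat_lit 0) (nat_lit 0) (nat_lit 0x20056d4f2) (nat_lit 268435456),
  Rx.mk (nat_lit 182) (nat_lit 6) (nat_lit 6) (nat_lit 2) (nat_lit 7) (nat_lit 328) (nat_lit 240) r11_328 r9_240 (nat_lit 0) (nat_lit 0) (nat_lit 0) (nat_lit 0x20056d4f2) (nat_lit 268435456),
  Rx.mk (nat_lit 420) (nat_lit 4) (nat_lit 4) (nat_lit 6) (nat_lit 4) (nat_lit 318) (nat_lit 231) r11_318 r9_231 (nat_lit 16829549) (nat_lit 18744067) (nat_lit 0) (nat_lit 0x1e8eb1d14) (nat_lit 328714572),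
  Rx.mk (nat_lit 421) (nat_lit 5) (nat_lit 4) (nat_lit 6) (nat_lit 5) (nat_lit 322) (nat_lit 232) r11_322 r9_232 (nat_lit 0) (nat_lit 9484367) (nat_lit 0) (nat_lit 0x20056d4f2) (nat_lit 277919823),
  Rx.mk (nat_lit 429) (nat_lit 5) (nat_lit 5) (nat_lit 6) (nat_lit 7) (nat_lit 324) (nat_lit 234) r11_324 r9_234 (nat_lit 0) (nat_lit 0) (nat_lit 0) (nat_lit 0x20056d4f2) (nat_lit 268435456),
  Rx.mk (nat_lit 444) (nat_lit 4) (nat_lit 7) (nat_lit 6) (nat_lit 6) (nat_lit 321) (nat_lit 235) r11_321 r9_235 (nat_lit 9484367) (nat_lit 0) (nat_lit 0) (nat_lit 0x20056d4f2) (nat_lit 277919823),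
  Rx.mk (nat_lit 445) (nat_lit 5) (nat_lit 7) (nat_lit 6) (nat_lit 7) (nat_lit 327) (nat_lit 236) r11_327 r9_236 (nat_lit 0) (nat_lit 0) (nat_lit 0) (nat_lit 0x20056d4f2) (nat_lit 268435456),
  Rx.mk (nat_lit 447) (nat_lit 7) (nat_lit 7) (nat_lit 6) (nat_lit 7) (nat_lit 329) (nat_lit 237) r11_329 r9_237 (nat_lit 0) (nat_lit 0) (nat_lit 0) (nat_lit 0x20056d4f2) (nat_lit 268435456)]
noncomputable def e20_42 : List Rx := [
  Rx.mk (nat_lit 180) (nat_lit 4) (nat_lit 6) (nat_lit 2) (nat_lit 6) (nat_lit 330) (nat_lit 216) r11_330 r9_216 (nat_lit 9484367) (nat_lit 0) (nat_lit 0) (nat_lit 0x20056d4f2) (nat_lit 277919823),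
  Rx.mk (nat_lit 181) (nat_lit 5) (nat_lit 6) (nat_lit 2) (nat_lit 7) (nat_lit 331) (nat_lit 217) r11_331 r9_217 (nat_lit 0) (nat_lit 0) (nat_lit 0) (nat_lit 0x20056d4f2) (nat_lit 268435456),
  Rx.mk (nat_lit 182) (nat_lit 6) (nat_lit 6) (nat_lit 2) (nat_lit 7) (nat_lit 332) (nat_lit 218) r11_332 r9_218 (nat_lit 0) (nat_lit 0) (nat_lit 0) (nat_lit 0x20056d4f2) (nat_lit 268435456)]
noncomputable def e20_43 : List Rx := [
  Rx.mk (nat_lit 421) (nat_lit 5) (nat_lit 4) (nat_lit 6) (nat_lit 5) (nat_lit 333) (nat_lit 244) r11_333 r1_244 (nat_lit 0) (nat_lit 6474081) (nat_lit 0) (nat_lit 0x20c7531d4) (nat_lit 262388587),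
  Rx.mk (nat_lit 445) (nat_lit 5) (nat_lit 7) (nat_lit 6) (nat_lit 7) (nat_lit 334) (nat_lit 245) r11_334 r1_245 (nat_lit 0) (nat_lit 0) (nat_lit 0) (nat_lit 0x2278a5904) (nat_lit 228164356)]
noncomputable def e20_44 : List Rx := [
  Rx.mk (nat_lit 421) (nat_lit 5) (nat_lit 4) (nat_lit 6) (nat_lit 5) (nat_lit 335) (nat_lit 358) r11_335 r8_358 (nat_lit 0) (nat_lit 9484367) (nat_lit 0) (nat_lit 0x20056d4f2) (nat_lit 277919823),
  Rx.mk (nat_lit 429) (nat_lit 5) (nat_lit 5) (nat_lit 6) (nat_lit 7) (nat_lit 336) (nat_lit 359) r11_336 r8_359 (nat_lit 0) (nat_lit 0) (nat_lit 0) (nat_lit 0x20056d4f2) (nat_lit 268435456),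
  Rx.mk (nat_lit 445) (nat_lit 5) (nat_lit 7) (nat_lit 6) (nat_lit 7) (nat_lit 337) (nat_lit 360) r11_337 r8_360 (nat_lit 0) (nat_lit 0) (nat_lit 0) (nat_lit 0x20056d4f2) (nat_lit 268435456)]
noncomputable def e20_45 : List Rx := [
  Rx.mk (nat_lit 425) (nat_lit 1) (nat_lit 5) (nat_lit 6) (nat_lit 7) (nat_lit 338) (nat_lit 310) r11_338 r1_310 (nat_lit 0) (nat_lit 0) (nat_lit 0) (nat_lit 0x20056d4f2) (nat_lit 268435456)]
noncomputable def e20_46 : List Rx := [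
  Rx.mk (nat_lit 265) (nat_lit 1) (nat_lit 1) (nat_lit 4) (nat_lit 3) (nat_lit 340) (nat_lit 356) r11_340 r2_356 (nat_lit 0) (nat_lit 0) (nat_lit 21278725) (nat_lit 0x1f55b64fa) (nat_lit 301258281),
  Rx.mk (nat_lit 329) (nat_lit 1) (nat_lit 1) (nat_lit 5) (nat_lit 7) (nat_lit 341) (nat_lit 357) r11_341 r2_357 (nat_lit 0) (nat_lit 0) (nat_lit 0) (nat_lit 0x20056d4f2) (nat_lit 268435456),
  Rx.mk (nat_lit 393) (nat_lit 1) (nat_lit 1) (nat_lit 6) (nat_lit 7) (nat_lit 342) (nat_lit 359) r11_342 r2_359 (nat_lit 0) (nat_lit 0) (nat_lit 0) (nat_lit 0x20056d4f2) (nat_lit 268435456),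
  Rx.mk (nat_lit 425) (nat_lit 1) (nat_lit 5) (nat_lit 6) (nat_lit 7) (nat_lit 339) (nat_lit 358) r11_339 r2_358 (nat_lit 0) (nat_lit 0) (nat_lit 0) (nat_lit 0x20056d4f2) (nat_lit 268435456)]
noncomputable def e20_47 : List Rx := [
  Rx.mk (nat_lit 425) (nat_lit 1) (nat_lit 5) (nat_lit 6) (nat_lit 7) (nat_lit 344) (nat_lit 219) r11_344 r8_219 (nat_lit 0) (nat_lit 0) (nat_lit 0) (nat_lit 0x2041d1240) (nat_lit 264513806),
  Rx.mk (nat_lit 429) (nat_lit 5) (nat_lit 5) (nat_lit 6) (nat_lit 7) (nat_lit 343) (nat_lit 220) r11_343 r8_220 (nat_lit 0) (nat_lit 0) (nat_lit 0) (nat_lit 0x20056d4f2) (nat_lit 268435456)]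
noncomputable def e20_48 : List Rx := [
  Rx.mk (nat_lit 265) (nat_lit 1) (nat_lit 1) (nat_lit 4) (nat_lit 3) (nat_lit 347) (nat_lit 320) r11_347 r9_320 (nat_lit 0) (nat_lit 0) (nat_lit 15744812) (nat_lit 0x1f37b9100) (nat_lit 297678618),
  Rx.mk (nat_lit 329) (nat_lit 1) (nat_lit 1) (nat_lit 5) (nat_lit 7) (nat_lit 348) (nat_lit 321) r11_348 r9_321 (nat_lit 0) (nat_lit 0) (nat_lit 0) (nat_lit 0x20056d4f2) (nat_lit 268435456),
  Rx.mk (nat_lit 393) (nat_lit 1) (nat_lit 1) (nat_lit 6) (nat_lit 7) (nat_lit 349) (nat_lit 323) r11_349 r9_323 (nat_lit 0) (nat_lit 0) (nat_lit 0) (nat_lit 0x20056d4f2) (nat_lit 268435456),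
  Rx.mk (nat_lit 425) (nat_lit 1) (nat_lit 5) (nat_lit 6) (nat_lit 7) (nat_lit 346) (nat_lit 322) r11_346 r9_322 (nat_lit 0) (nat_lit 0) (nat_lit 0) (nat_lit 0x20056d4f2) (nat_lit 268435456),
  Rx.mk (nat_lit 429) (nat_lit 5) (nat_lit 5) (nat_lit 6) (nat_lit 7) (nat_lit 345) (nat_lit 319) r11_345 r9_319 (nat_lit 0) (nat_lit 0) (nat_lit 0) (nat_lit 0x20056d4f2) (nat_lit 268435456)]
noncomputable def e20_49 : List Rx := [
  Rx.mk (nat_lit 329) (nat_lit 1) (nat_lit 1) (nat_lit 5) (nat_lit 7) (nat_lit 350) (nat_lit 327) r11_350 r9_327 (nat_lit 0) (nat_lit 0) (nat_lit 0) (nat_lit 0x20056d4f2) (nat_lit 268435456)]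
noncomputable def e20_50 : List Rx := [
  Rx.mk (nat_lit 417) (nat_lit 1) (nat_lit 4) (nat_lit 6) (nat_lit 5) (nat_lit 351) (nat_lit 331) r11_351 r3_331 (nat_lit 0) (nat_lit 6315329) (nat_lit 0) (nat_lit 0x1f8574296) (nat_lit 282941035),
  Rx.mk (nat_lit 441) (nat_lit 1) (nat_lit 7) (nat_lit 6) (nat_lit 7) (nat_lit 352) (nat_lit 332) r11_352 r3_332 (nat_lit 0) (nat_lit 0) (nat_lit 0) (nat_lit 0x246040fec) (nat_lit 196834556)]
noncomputable def e20_51 : List Rx := [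
  Rx.mk (nat_lit 417) (nat_lit 1) (nat_lit 4) (nat_lit 6) (nat_lit 5) (nat_lit 353) (nat_lit 363) r11_353 r4_363 (nat_lit 0) (nat_lit 6585305) (nat_lit 0) (nat_lit 0x1ff9fa1ba) (nat_lit 275752861),
  Rx.mk (nat_lit 425) (nat_lit 1) (nat_lit 5) (nat_lit 6) (nat_lit 7) (nat_lit 354) (nat_lit 364) r11_354 r4_364 (nat_lit 0) (nat_lit 0) (nat_lit 0) (nat_lit 0x20397dc42) (nat_lit 265051356),
  Rx.mk (nat_lit 441) (nat_lit 1) (nat_lit 7) (nat_lit 6) (nat_lit 7) (nat_lit 355) (nat_lit 365) r11_355 r4_365 (nat_lit 0) (nat_lit 0) (nat_lit 0) (nat_lit 0x201abfb48) (nat_lit 267040156)]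
noncomputable def e20_52 : List Rx := [
  Rx.mk (nat_lit 441) (nat_lit 1) (nat_lit 7) (nat_lit 6) (nat_lit 7) (nat_lit 356) (nat_lit 310) r11_356 r5_310 (nat_lit 0) (nat_lit 0) (nat_lit 0) (nat_lit 0x220662e96) (nat_lit 235448656)]
noncomputable def e20_53 : List Rx := [
  Rx.mk (nat_lit 417) (nat_lit 1) (nat_lit 4) (nat_lit 6) (nat_lit 5) (nat_lit 358) (nat_lit 226) r11_358 r4_226 (nat_lit 0) (nat_lit 6413564) (nat_lit 0) (nat_lit 0x1eec43ba8) (nat_lit 293330520),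
  Rx.mk (nat_lit 441) (nat_lit 1) (nat_lit 7) (nat_lit 6) (nat_lit 7) (nat_lit 359) (nat_lit 227) r11_359 r4_227 (nat_lit 0) (nat_lit 0) (nat_lit 0) (nat_lit 0x1f31bdc60) (nat_lit 282264106),
  Rx.mk (nat_lit 445) (nat_lit 5) (nat_lit 7) (nat_lit 6) (nat_lit 7) (nat_lit 357) (nat_lit 228) r11_357 r4_228 (nat_lit 0) (nat_lit 0) (nat_lit 0) (nat_lit 0x248c11efa) (nat_lit 194171706)]
noncomputable def e20_54 : List Rx := [
  Rx.mk (nat_lit 417) (nat_lit 1) (nat_lit 4) (nat_lit 6) (nat_lit 5) (nat_lit 361) (nat_lit 366) r11_361 r10_366 (nat_lit 0) (nat_lit 3853892) (nat_lit 0) (nat_lit 0x209f64bdc) (nat_lit 262322098),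
  Rx.mk (nat_lit 425) (nat_lit 1) (nat_lit 5) (nat_lit 6) (nat_lit 7) (nat_lit 362) (nat_lit 367) r11_362 r10_367 (nat_lit 0) (nat_lit 0) (nat_lit 0) (nat_lit 0x20b95852a) (nat_lit 256813656),
  Rx.mk (nat_lit 441) (nat_lit 1) (nat_lit 7) (nat_lit 6) (nat_lit 7) (nat_lit 363) (nat_lit 368) r11_363 r10_368 (nat_lit 0) (nat_lit 0) (nat_lit 0) (nat_lit 0x20b95852a) (nat_lit 256813656),
  Rx.mk (nat_lit 445) (nat_lit 5) (nat_lit 7) (nat_lit 6) (nat_lit 7) (nat_lit 360) (nat_lit 365) r11_360 r10_365 (nat_lit 0) (nat_lit 0) (nat_lit 0) (nat_lit 0x20056d4f2) (nat_lit 268435456)]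
noncomputable def e20_55 : List Rx := [
  Rx.mk (nat_lit 441) (nat_lit 1) (nat_lit 7) (nat_lit 6) (nat_lit 7) (nat_lit 365) (nat_lit 365) r11_365 r11_365 (nat_lit 0) (nat_lit 0) (nat_lit 0) (nat_lit 0x20e6b324a) (nat_lit 253902456),
  Rx.mk (nat_lit 445) (nat_lit 5) (nat_lit 7) (nat_lit 6) (nat_lit 7) (nat_lit 364) (nat_lit 364) r11_364 r11_364 (nat_lit 0) (nat_lit 0) (nat_lit 0) (nat_lit 0x20875c54e) (nat_lit 260027006)]
noncomputable def e20_56 : List Rx := [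
  Rx.mk (nat_lit 417) (nat_lit 1) (nat_lit 4) (nat_lit 6) (nat_lit 5) (nat_lit 366) (nat_lit 240) r11_366 r5_240 (nat_lit 0) (nat_lit 5213517) (nat_lit 0) (nat_lit 0x207d7137c) (nat_lit 265853973),
  Rx.mk (nat_lit 441) (nat_lit 1) (nat_lit 7) (nat_lit 6) (nat_lit 7) (nat_lit 367) (nat_lit 241) r11_367 r5_241 (nat_lit 0) (nat_lit 0) (nat_lit 0) (nat_lit 0x2383ee788) (nat_lit 211059756)]
noncomputable def e20_57 : List Rx := [
  Rx.mk (nat_lit 417) (nat_lit 1) (nat_lit 4) (nat_lit 6) (nat_lit 5) (nat_lit 368) (nat_lit 281) r11_368 r11_281 (nat_lit 0) (nat_lit 10570835) (nat_lit 0) (nat_lit 0x1fd568dd8) (nat_lit 282142841),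
  Rx.mk (nat_lit 425) (nat_lit 1) (nat_lit 5) (nat_lit 6) (nat_lit 7) (nat_lit 369) (nat_lit 282) r11_369 r11_282 (nat_lit 0) (nat_lit 0) (nat_lit 0) (nat_lit 0x20056d4f2) (nat_lit 268435456),
  Rx.mk (nat_lit 441) (nat_lit 1) (nat_lit 7) (nat_lit 6) (nat_lit 7) (nat_lit 370) (nat_lit 283) r11_370 r11_283 (nat_lit 0) (nat_lit 0) (nat_lit 0) (nat_lit 0x20056d4f2) (nat_lit 268435456)]
noncomputable def e20 : List (List Rx) := [e20_0, e20_1, e20_2, e20_3, e20_4, e20_5, e20_6, e20_7, e20_8, e20_9, e20_10, e20_11, e20_12, e20_13, e20_14, e20_15, e20_16, e20_17, e20_18, e20_19, e20_20, e20_21, e20_22, e20_23, e20_24, e20_25, e20_26, e20_27, e20_28, e20_29, e20_30, e20_31, e20_32, e20_33, e20_34, e20_35, e20_36, e20_37, e20_38, e20_39, e20_40, e20_41, e20_42, e20_43, e20_44, e20_45, e20_46, e20_47, e20_48, e20_49, e20_50, e20_51, e20_52, e20_53, e20_54, e20_55,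 e20_56, e20_57]
noncomputable def e21_0 : List Rx := [
  Rx.mk (nat_lit 292) (nat_lit 4) (nat_lit 4) (nat_lit 4) (nat_lit 0) (nat_lit 23) (nat_lit 155) r9_23 r0_155 (nat_lit 2742121) (nat_lit 1767760) (nat_lit 1269390) (nat_lit 0xae741146) (nat_lit 632770227),
  Rx.mk (nat_lit 295) (nat_lit 7) (nat_lit 4) (nat_lit 4) (nat_lit 1) (nat_lit 25) (nat_lit 161) r9_25 r0_161 (nat_lit 0) (nat_lit 3092091) (nat_lit 2545546) (nat_lit 0x173fde9d2) (nat_lit 422891393),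
  Rx.mk (nat_lit 308) (nat_lit 4) (nat_lit 6) (nat_lit 4) (nat_lit 2) (nat_lit 29) (nat_lit 158) r9_29 r0_158 (nat_lit 17383273) (nat_lit 0) (nat_lit 3035981) (nat_lit 0x15db1204a) (nat_lit 461356660),
  Rx.mk (nat_lit 311) (nat_lit 7) (nat_lit 6) (nat_lit 4) (nat_lit 3) (nat_lit 33) (nat_lit 167) r9_33 r0_167 (nat_lit 0) (nat_lit 0) (nat_lit 7106347) (nat_lit 0x1fd785e5e) (nat_lit 278532703),
  Rx.mk (nat_lit 319) (nat_lit 7) (nat_lit 7) (nat_lit 4) (nat_lit 3) (nat_lit 37) (nat_lit 164) r9_37 r0_164 (nat_lit 0) (nat_lit 0) (nat_lit 8810507) (nat_lit 0x1f318ee42) (nat_lit 291178113),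
  Rx.mk (nat_lit 356) (nat_lit 4) (nat_lit 4) (nat_lit 5) (nat_lit 4) (nat_lit 24) (nat_lit 156) r9_24 r0_156 (nat_lit 7764799) (nat_lit 7054152) (nat_lit 0) (nat_lit 0x15828a382) (nat_lit 461644607),
  Rx.mk (nat_lit 359) (nat_lit 7) (nat_lit 4) (nat_lit 5) (nat_lit 5) (nat_lit 26) (nat_lit 162) r9_26 r0_162 (nat_lit 0) (nat_lit 9033993) (nat_lit 0) (nat_lit 0x1ee42aec6) (nat_lit 296521849),
  Rx.mk (nat_lit 364) (nat_lit 4) (nat_lit 5) (nat_lit 5) (nat_lit 6) (nat_lit 27) (nat_lit 157) r9_27 r0_157 (nat_lit 11270394) (nat_lit 0) (nat_lit 0) (nat_lit 0x1e52d84be) (nat_lit 308387900),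
  Rx.mk (nat_lit 367) (nat_lit 7) (nat_lit 5) (nat_lit 5) (nat_lit 7) (nat_lit 28) (nat_lit 163) r9_28 r0_163 (nat_lit 0) (nat_lit 0) (nat_lit 0) (nat_lit 0x20056d4f2) (nat_lit 268435456),
  Rx.mk (nat_lit 372) (nat_lit 4) (nat_lit 6) (nat_lit 5) (nat_lit 6) (nat_lit 30) (nat_lit 159) r9_30 r0_159 (nat_lit 22707758) (nat_lit 0) (nat_lit 0) (nat_lit 0x1eef51020) (nat_lit 309447014),
  Rx.mk (nat_lit 375) (nat_lit 7) (nat_lit 6) (nat_lit 5) (nat_lit 7) (nat_lit 34) (nat_lit 168) r9_34 r0_168 (nat_lit 0) (nat_lit 0) (nat_lit 0) (nat_lit 0x20056d4f2) (nat_lit 268435456),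
  Rx.mk (nat_lit 383) (nat_lit 7) (nat_lit 7) (nat_lit 5) (nat_lit 7) (nat_lit 38) (nat_lit 165) r9_38 r0_165 (nat_lit 0) (nat_lit 0) (nat_lit 0) (nat_lit 0x20056d4f2) (nat_lit 268435456),
  Rx.mk (nat_lit 436) (nat_lit 4) (nat_lit 6) (nat_lit 6) (nat_lit 6) (nat_lit 31) (nat_lit 160) r9_31 r0_160 (nat_lit 36568253) (nat_lit 0) (nat_lit 0) (nat_lit 0x1f05c5ed2) (nat_lit 321832559),
  Rx.mk (nat_lit 438) (nat_lit 6) (nat_lit 6) (nat_lit 6) (nat_lit 7) (nat_lit 32) (nat_lit 170) r9_32 r0_170 (nat_lit 0) (nat_lit 0) (nat_lit 0) (nat_lit 0x1f920a348) (nat_lit 275995056),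
  Rx.mk (nat_lit 439) (nat_lit 7) (nat_lit 6) (nat_lit 6) (nat_lit 7) (nat_lit 35) (nat_lit 169) r9_35 r0_169 (nat_lit 0) (nat_lit 0) (nat_lit 0) (nat_lit 0x20056d4f2) (nat_lit 268435456),
  Rx.mk (nat_lit 507) (nat_lit 3) (nat_lit 7) (nat_lit 7) (nat_lit 7) (nat_lit 36) (nat_lit 154) r9_36 r0_154 (nat_lit 0) (nat_lit 0) (nat_lit 0) (nat_lit 0x20056d4f2) (nat_lit 268435456),
  Rx.mk (nat_lit 511) (nat_lit 7) (nat_lit 7) (nat_lit 7) (nat_lit 7) (nat_lit 39) (nat_lit 166) r9_39 r0_166 (nat_lit 0) (nat_lit 0) (nat_lit 0) (nat_lit 0x20056d4f2) (nat_lit 268435456)]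
noncomputable def e21_1 : List Rx := [
  Rx.mk (nat_lit 292) (nat_lit 4) (nat_lit 4) (nat_lit 4) (nat_lit 0) (nat_lit 40) (nat_lit 170) r9_40 r1_170 (nat_lit 20883973) (nat_lit 12914458) (nat_lit 7583710) (nat_lit 0x1304b68a4) (nat_lit 530531947),
  Rx.mk (nat_lit 295) (nat_lit 7) (nat_lit 4) (nat_lit 4) (nat_lit 1) (nat_lit 41) (nat_lit 173) r9_41 r1_173 (nat_lit 0) (nat_lit 13442990) (nat_lit 8685031) (nat_lit 0x1bbde0e6c) (nat_lit 363079977),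
  Rx.mk (nat_lit 308) (nat_lit 4) (nat_lit 6) (nat_lit 4) (nat_lit 2) (nat_lit 42) (nat_lit 171) r9_42 r1_171 (nat_lit 26762067) (nat_lit 0) (nat_lit 7078048) (nat_lit 0x1b49aa94e) (nat_lit 382508571),
  Rx.mk (nat_lit 311) (nat_lit 7) (nat_lit 6) (nat_lit 4) (nat_lit 3) (nat_lit 45) (nat_lit 176) r9_45 r1_176 (nat_lit 0) (nat_lit 0) (nat_lit 9484367) (nat_lit 0x20056d4f2) (nat_lit 277919823),
  Rx.mk (nat_lit 319) (nat_lit 7) (nat_lit 7) (nat_lit 4) (nat_lit 3) (nat_lit 48) (nat_lit 174) r9_48 r1_174 (nat_lit 0) (nat_lit 0) (nat_lit 9484367) (nat_lit 0x1ff744b14) (nat_lit 278840823),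
  Rx.mk (nat_lit 436) (nat_lit 4) (nat_lit 6) (nat_lit 6) (nat_lit 6) (nat_lit 43) (nat_lit 172) r9_43 r1_172 (nat_lit 18834357) (nat_lit 0) (nat_lit 0) (nat_lit 0x1f586cafa) (nat_lit 298626363),
  Rx.mk (nat_lit 438) (nat_lit 6) (nat_lit 6) (nat_lit 6) (nat_lit 7) (nat_lit 44) (nat_lit 178) r9_44 r1_178 (nat_lit 0) (nat_lit 0) (nat_lit 0) (nat_lit 0x1fe10856c) (nat_lit 270810856),
  Rx.mk (nat_lit 439) (nat_lit 7) (nat_lit 6) (nat_lit 6) (nat_lit 7) (nat_lit 46) (nat_lit 177) r9_46 r1_177 (nat_lit 0) (nat_lit 0) (nat_lit 0) (nat_lit 0x20056d4f2) (nat_lit 268435456),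
  Rx.mk (nat_lit 507) (nat_lit 3) (nat_lit 7) (nat_lit 7) (nat_lit 7) (nat_lit 47) (nat_lit 169) r9_47 r1_169 (nat_lit 0) (nat_lit 0) (nat_lit 0) (nat_lit 0x20056d4f2) (nat_lit 268435456),
  Rx.mk (nat_lit 511) (nat_lit 7) (nat_lit 7) (nat_lit 7) (nat_lit 7) (nat_lit 49) (nat_lit 175) r9_49 r1_175 (nat_lit 0) (nat_lit 0) (nat_lit 0) (nat_lit 0x20056d4f2) (nat_lit 268435456)]
noncomputable def e21_2 : List Rx := [
  Rx.mk (nat_lit 251) (nat_lit 3) (nat_lit 7) (nat_lit 3) (nat_lit 7) (nat_lit 11) (nat_lit 168) r9_11 r2_168 (nat_lit 0) (nat_lit 0) (nat_lit 0) (nat_lit 0x20056d4f2) (nat_lit 268435456),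
  Rx.mk (nat_lit 292) (nat_lit 4) (nat_lit 4) (nat_lit 4) (nat_lit 0) (nat_lit 2) (nat_lit 170) r9_2 r2_170 (nat_lit 2176186) (nat_lit 2535298) (nat_lit 2695517) (nat_lit 0xe64a0292) (nat_lit 575129957),
  Rx.mk (nat_lit 295) (nat_lit 7) (nat_lit 4) (nat_lit 4) (nat_lit 1) (nat_lit 3) (nat_lit 173) r9_3 r2_173 (nat_lit 0) (nat_lit 5340229) (nat_lit 6742841) (nat_lit 0x1987979e8) (nat_lit 390624176),
  Rx.mk (nat_lit 308) (nat_lit 4) (nat_lit 6) (nat_lit 4) (nat_lit 2) (nat_lit 5) (nat_lit 171) r9_5 r2_171 (nat_lit 6805698) (nat_lit 0) (nat_lit 11047932) (nat_lit 0x18db5b1b6) (nat_lit 407826486),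
  Rx.mk (nat_lit 311) (nat_lit 7) (nat_lit 6) (nat_lit 4) (nat_lit 3) (nat_lit 8) (nat_lit 176) r9_8 r2_176 (nat_lit 0) (nat_lit 0) (nat_lit 9484367) (nat_lit 0x1ffb7a0b2) (nat_lit 278567023),
  Rx.mk (nat_lit 436) (nat_lit 4) (nat_lit 6) (nat_lit 6) (nat_lit 6) (nat_lit 6) (nat_lit 172) r9_6 r2_172 (nat_lit 9484367) (nat_lit 0) (nat_lit 0) (nat_lit 0x1ffa6492a) (nat_lit 278638273),
  Rx.mk (nat_lit 438) (nat_lit 6) (nat_lit 6) (nat_lit 6) (nat_lit 7) (nat_lit 7) (nat_lit 179) r9_7 r2_179 (nat_lit 0) (nat_lit 0) (nat_lit 0) (nat_lit 0x20056d4f2) (nat_lit 268435456),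
  Rx.mk (nat_lit 439) (nat_lit 7) (nat_lit 6) (nat_lit 6) (nat_lit 7) (nat_lit 9) (nat_lit 178) r9_9 r2_178 (nat_lit 0) (nat_lit 0) (nat_lit 0) (nat_lit 0x20056d4f2) (nat_lit 268435456),
  Rx.mk (nat_lit 487) (nat_lit 7) (nat_lit 4) (nat_lit 7) (nat_lit 5) (nat_lit 4) (nat_lit 174) r9_4 r2_174 (nat_lit 0) (nat_lit 9153645) (nat_lit 0) (nat_lit 0x1fd8eb97e) (nat_lit 280493701),
  Rx.mk (nat_lit 503) (nat_lit 7) (nat_lit 6) (nat_lit 7) (nat_lit 7) (nat_lit 10) (nat_lit 177) r9_10 r2_177 (nat_lit 0) (nat_lit 0) (nat_lit 0) (nat_lit 0x20056d4f2) (nat_lit 268435456),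
  Rx.mk (nat_lit 507) (nat_lit 3) (nat_lit 7) (nat_lit 7) (nat_lit 7) (nat_lit 12) (nat_lit 169) r9_12 r2_169 (nat_lit 0) (nat_lit 0) (nat_lit 0) (nat_lit 0x20056d4f2) (nat_lit 268435456),
  Rx.mk (nat_lit 511) (nat_lit 7) (nat_lit 7) (nat_lit 7) (nat_lit 7) (nat_lit 13) (nat_lit 175) r9_13 r2_175 (nat_lit 0) (nat_lit 0) (nat_lit 0) (nat_lit 0x20056d4f2) (nat_lit 268435456)]
noncomputable def e21_3 : List Rx := [
  Rx.mk (nat_lit 359) (nat_lit 7) (nat_lit 4) (nat_lit 5) (nat_lit 5) (nat_lit 19) (nat_lit 142) r9_19 r3_142 (nat_lit 0) (nat_lit 777722) (nat_lit 0) (nat_lit 0x1c4edec84) (nat_lit 332046128),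
  Rx.mk (nat_lit 367) (nat_lit 7) (nat_lit 5) (nat_lit 5) (nat_lit 7) (nat_lit 20) (nat_lit 143) r9_20 r3_143 (nat_lit 0) (nat_lit 0) (nat_lit 0) (nat_lit 0x202fa9554) (nat_lit 265684056),
  Rx.mk (nat_lit 379) (nat_lit 3) (nat_lit 7) (nat_lit 5) (nat_lit 7) (nat_lit 21) (nat_lit 141) r9_21 r3_141 (nat_lit 0) (nat_lit 0) (nat_lit 0) (nat_lit 0x1fc36627a) (nat_lit 272747356),
  Rx.mk (nat_lit 383) (nat_lit 7) (nat_lit 7) (nat_lit 5) (nat_lit 7) (nat_lit 22) (nat_lit 144) r9_22 r3_144 (nat_lit 0) (nat_lit 0) (nat_lit 0) (nat_lit 0x1fa1e6820) (nat_lit 274939556)]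
noncomputable def e21_4 : List Rx := [
  Rx.mk (nat_lit 295) (nat_lit 7) (nat_lit 4) (nat_lit 4) (nat_lit 1) (nat_lit 50) (nat_lit 147) r9_50 r4_147 (nat_lit 0) (nat_lit 8519900) (nat_lit 5621542) (nat_lit 0x1c583434c) (nat_lit 344848848),
  Rx.mk (nat_lit 311) (nat_lit 7) (nat_lit 6) (nat_lit 4) (nat_lit 3) (nat_lit 53) (nat_lit 152) r9_53 r4_152 (nat_lit 0) (nat_lit 0) (nat_lit 9484367) (nat_lit 0x20056d4f2) (nat_lit 277919823),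
  Rx.mk (nat_lit 315) (nat_lit 3) (nat_lit 7) (nat_lit 4) (nat_lit 3) (nat_lit 56) (nat_lit 144) r9_56 r4_144 (nat_lit 0) (nat_lit 0) (nat_lit 9484367) (nat_lit 0x20056d4f2) (nat_lit 277919823),
  Rx.mk (nat_lit 319) (nat_lit 7) (nat_lit 7) (nat_lit 4) (nat_lit 3) (nat_lit 59) (nat_lit 150) r9_59 r4_150 (nat_lit 0) (nat_lit 0) (nat_lit 9817070) (nat_lit 0x1fee05a9e) (nat_lit 279774476),
  Rx.mk (nat_lit 359) (nat_lit 7) (nat_lit 4) (nat_lit 5) (nat_lit 5) (nat_lit 51) (nat_lit 148) r9_51 r4_148 (nat_lit 0) (nat_lit 9484367) (nat_lit 0) (nat_lit 0x20056d4f2) (nat_lit 277919823),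
  Rx.mk (nat_lit 367) (nat_lit 7) (nat_lit 5) (nat_lit 5) (nat_lit 7) (nat_lit 52) (nat_lit 149) r9_52 r4_149 (nat_lit 0) (nat_lit 0) (nat_lit 0) (nat_lit 0x20056d4f2) (nat_lit 268435456),
  Rx.mk (nat_lit 375) (nat_lit 7) (nat_lit 6) (nat_lit 5) (nat_lit 7) (nat_lit 54) (nat_lit 153) r9_54 r4_153 (nat_lit 0) (nat_lit 0) (nat_lit 0) (nat_lit 0x20056d4f2) (nat_lit 268435456),
  Rx.mk (nat_lit 379) (nat_lit 3) (nat_lit 7) (nat_lit 5) (nat_lit 7) (nat_lit 57) (nat_lit 145) r9_57 r4_145 (nat_lit 0) (nat_lit 0) (nat_lit 0) (nat_lit 0x20056d4f2) (nat_lit 268435456),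
  Rx.mk (nat_lit 383) (nat_lit 7) (nat_lit 7) (nat_lit 5) (nat_lit 7) (nat_lit 60) (nat_lit 151) r9_60 r4_151 (nat_lit 0) (nat_lit 0) (nat_lit 0) (nat_lit 0x20056d4f2) (nat_lit 268435456),
  Rx.mk (nat_lit 439) (nat_lit 7) (nat_lit 6) (nat_lit 6) (nat_lit 7) (nat_lit 55) (nat_lit 154) r9_55 r4_154 (nat_lit 0) (nat_lit 0) (nat_lit 0) (nat_lit 0x20056d4f2) (nat_lit 268435456),
  Rx.mk (nat_lit 507) (nat_lit 3) (nat_lit 7) (nat_lit 7) (nat_lit 7) (nat_lit 58) (nat_lit 146) r9_58 r4_146 (nat_lit 0) (nat_lit 0) (nat_lit 0) (nat_lit 0x20056d4f2) (nat_lit 268435456)]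
noncomputable def e21_5 : List Rx := [
  Rx.mk (nat_lit 379) (nat_lit 3) (nat_lit 7) (nat_lit 5) (nat_lit 7) (nat_lit 63) (nat_lit 150) r9_63 r5_150 (nat_lit 0) (nat_lit 0) (nat_lit 0) (nat_lit 0x20056d4f2) (nat_lit 268435456),
  Rx.mk (nat_lit 383) (nat_lit 7) (nat_lit 7) (nat_lit 5) (nat_lit 7) (nat_lit 64) (nat_lit 151) r9_64 r5_151 (nat_lit 0) (nat_lit 0) (nat_lit 0) (nat_lit 0x20056d4f2) (nat_lit 268435456)]
noncomputable def e21_6 : List Rx := [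
  Rx.mk (nat_lit 123) (nat_lit 3) (nat_lit 7) (nat_lit 1) (nat_lit 7) (nat_lit 14) (nat_lit 123) r9_14 r3_123 (nat_lit 0) (nat_lit 0) (nat_lit 0) (nat_lit 0x205609bae) (nat_lit 263199206)]
noncomputable def e21_7 : List Rx := [
  Rx.mk (nat_lit 251) (nat_lit 3) (nat_lit 7) (nat_lit 3) (nat_lit 7) (nat_lit 0) (nat_lit 141) r9_0 r0_141 (nat_lit 0) (nat_lit 0) (nat_lit 0) (nat_lit 0x20056d4f2) (nat_lit 268435456)]
noncomputable def e21_8 : List Rx := [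
  Rx.mk (nat_lit 251) (nat_lit 3) (nat_lit 7) (nat_lit 3) (nat_lit 7) (nat_lit 1) (nat_lit 153) r9_1 r1_153 (nat_lit 0) (nat_lit 0) (nat_lit 0) (nat_lit 0x20056d4f2) (nat_lit 268435456)]
noncomputable def e21_9 : List Rx := [
  Rx.mk (nat_lit 59) (nat_lit 3) (nat_lit 7) (nat_lit 0) (nat_lit 3) (nat_lit 15) (nat_lit 128) r9_15 r4_128 (nat_lit 0) (nat_lit 0) (nat_lit 9484367) (nat_lit 0x20056d4f2) (nat_lit 277919823),
  Rx.mk (nat_lit 123) (nat_lit 3) (nat_lit 7) (nat_lit 1) (nat_lit 7) (nat_lit 16) (nat_lit 129) r9_16 r4_129 (nat_lit 0) (nat_lit 0) (nat_lit 0) (nat_lit 0x20056d4f2) (nat_lit 268435456),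
  Rx.mk (nat_lit 251) (nat_lit 3) (nat_lit 7) (nat_lit 3) (nat_lit 7) (nat_lit 17) (nat_lit 130) r9_17 r4_130 (nat_lit 0) (nat_lit 0) (nat_lit 0) (nat_lit 0x20056d4f2) (nat_lit 268435456)]
noncomputable def e21_10 : List Rx := [
  Rx.mk (nat_lit 123) (nat_lit 3) (nat_lit 7) (nat_lit 1) (nat_lit 7) (nat_lit 61) (nat_lit 168) r9_61 r6_168 (nat_lit 0) (nat_lit 0) (nat_lit 0) (nat_lit 0x20056d4f2) (nat_lit 268435456),
  Rx.mk (nat_lit 379) (nat_lit 3) (nat_lit 7) (nat_lit 5) (nat_lit 7) (nat_lit 62) (nat_lit 169) r9_62 r6_169 (nat_lit 0) (nat_lit 0) (nat_lit 0) (nat_lit 0x20056d4f2) (nat_lit 268435456)]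
noncomputable def e21_11 : List Rx := [
  Rx.mk (nat_lit 123) (nat_lit 3) (nat_lit 7) (nat_lit 1) (nat_lit 7) (nat_lit 18) (nat_lit 123) r9_18 r5_123 (nat_lit 0) (nat_lit 0) (nat_lit 0) (nat_lit 0x20056d4f2) (nat_lit 268435456)]
noncomputable def e21_12 : List Rx := [
  Rx.mk (nat_lit 356) (nat_lit 4) (nat_lit 4) (nat_lit 5) (nat_lit 4) (nat_lit 155) (nat_lit 257) r9_155 r0_257 (nat_lit 20380427) (nat_lit 18008547) (nat_lit 0) (nat_lit 0x1563465ca) (nat_lit 487295780),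
  Rx.mk (nat_lit 359) (nat_lit 7) (nat_lit 4) (nat_lit 5) (nat_lit 5) (nat_lit 156) (nat_lit 258) r9_156 r0_258 (nat_lit 0) (nat_lit 9484367) (nat_lit 0) (nat_lit 0x1fda6c1c2) (nat_lit 280725973),
  Rx.mk (nat_lit 364) (nat_lit 4) (nat_lit 5) (nat_lit 5) (nat_lit 6) (nat_lit 157) (nat_lit 259) r9_157 r0_259 (nat_lit 12763209) (nat_lit 0) (nat_lit 0) (nat_lit 0x1dbc643f2) (nat_lit 319863465),
  Rx.mk (nat_lit 367) (nat_lit 7) (nat_lit 5) (nat_lit 5) (nat_lit 7) (nat_lit 158) (nat_lit 260) r9_158 r0_260 (nat_lit 0) (nat_lit 0) (nat_lit 0) (nat_lit 0x20056d4f2) (nat_lit 268435456),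
  Rx.mk (nat_lit 383) (nat_lit 7) (nat_lit 7) (nat_lit 5) (nat_lit 7) (nat_lit 159) (nat_lit 261) r9_159 r0_261 (nat_lit 0) (nat_lit 0) (nat_lit 0) (nat_lit 0x20056d4f2) (nat_lit 268435456)]
noncomputable def e21_13 : List Rx := [
  Rx.mk (nat_lit 292) (nat_lit 4) (nat_lit 4) (nat_lit 4) (nat_lit 0) (nat_lit 170) (nat_lit 204) r9_170 r7_204 (nat_lit 3153757) (nat_lit 4361725) (nat_lit 3803068) (nat_lit 0xe7b965fa) (nat_lit 577519756),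
  Rx.mk (nat_lit 295) (nat_lit 7) (nat_lit 4) (nat_lit 4) (nat_lit 1) (nat_lit 172) (nat_lit 210) r9_172 r7_210 (nat_lit 0) (nat_lit 10111158) (nat_lit 11171727) (nat_lit 0x1909dc81e) (nat_lit 408167991),
  Rx.mk (nat_lit 308) (nat_lit 4) (nat_lit 6) (nat_lit 4) (nat_lit 2) (nat_lit 176) (nat_lit 207) r9_176 r7_207 (nat_lit 13011083) (nat_lit 0) (nat_lit 10313512) (nat_lit 0x1a14cc85e) (nat_lit 392497401),
  Rx.mk (nat_lit 319) (nat_lit 7) (nat_lit 7) (nat_lit 4) (nat_lit 3) (nat_lit 180) (nat_lit 213) r9_180 r7_213 (nat_lit 0) (nat_lit 0) (nat_lit 9484367) (nat_lit 0x1fd5c6abe) (nat_lit 281030323),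
  Rx.mk (nat_lit 356) (nat_lit 4) (nat_lit 4) (nat_lit 5) (nat_lit 4) (nat_lit 171) (nat_lit 205) r9_171 r7_205 (nat_lit 11132797) (nat_lit 12267734) (nat_lit 0) (nat_lit 0x1880761f6) (nat_lit 419405787),
  Rx.mk (nat_lit 359) (nat_lit 7) (nat_lit 4) (nat_lit 5) (nat_lit 5) (nat_lit 173) (nat_lit 211) r9_173 r7_211 (nat_lit 0) (nat_lit 9484367) (nat_lit 0) (nat_lit 0x20056d4f2) (nat_lit 277919823),
  Rx.mk (nat_lit 364) (nat_lit 4) (nat_lit 5) (nat_lit 5) (nat_lit 6) (nat_lit 174) (nat_lit 206) r9_174 r7_206 (nat_lit 9484367) (nat_lit 0) (nat_lit 0) (nat_lit 0x20056d4f2) (nat_lit 277919823),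
  Rx.mk (nat_lit 367) (nat_lit 7) (nat_lit 5) (nat_lit 5) (nat_lit 7) (nat_lit 175) (nat_lit 212) r9_175 r7_212 (nat_lit 0) (nat_lit 0) (nat_lit 0) (nat_lit 0x20056d4f2) (nat_lit 268435456),
  Rx.mk (nat_lit 372) (nat_lit 4) (nat_lit 6) (nat_lit 5) (nat_lit 6) (nat_lit 177) (nat_lit 208) r9_177 r7_208 (nat_lit 9484367) (nat_lit 0) (nat_lit 0) (nat_lit 0x20056d4f2) (nat_lit 277919823),
  Rx.mk (nat_lit 383) (nat_lit 7) (nat_lit 7) (nat_lit 5) (nat_lit 7) (nat_lit 181) (nat_lit 214) r9_181 r7_214 (nat_lit 0) (nat_lit 0) (nat_lit 0) (nat_lit 0x20056d4f2) (nat_lit 268435456),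
  Rx.mk (nat_lit 436) (nat_lit 4) (nat_lit 6) (nat_lit 6) (nat_lit 6) (nat_lit 178) (nat_lit 209) r9_178 r7_209 (nat_lit 9484367) (nat_lit 0) (nat_lit 0) (nat_lit 0x20056d4f2) (nat_lit 277919823),
  Rx.mk (nat_lit 438) (nat_lit 6) (nat_lit 6) (nat_lit 6) (nat_lit 7) (nat_lit 179) (nat_lit 216) r9_179 r7_216 (nat_lit 0) (nat_lit 0) (nat_lit 0) (nat_lit 0x20056d4f2) (nat_lit 268435456),
  Rx.mk (nat_lit 511) (nat_lit 7) (nat_lit 7) (nat_lit 7) (nat_lit 7) (nat_lit 182) (nat_lit 215) r9_182 r7_215 (nat_lit 0) (nat_lit 0) (nat_lit 0) (nat_lit 0x20056d4f2) (nat_lit 268435456)]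
noncomputable def e21_14 : List Rx := [
  Rx.mk (nat_lit 356) (nat_lit 4) (nat_lit 4) (nat_lit 5) (nat_lit 4) (nat_lit 160) (nat_lit 262) r9_160 r1_262 (nat_lit 32489931) (nat_lit 13133979) (nat_lit 0) (nat_lit 0x1939dcef6) (nat_lit 429324366),
  Rx.mk (nat_lit 357) (nat_lit 5) (nat_lit 4) (nat_lit 5) (nat_lit 5) (nat_lit 161) (nat_lit 263) r9_161 r1_263 (nat_lit 0) (nat_lit 9869976) (nat_lit 0) (nat_lit 0x1feb4a80e) (nat_lit 280007182),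
  Rx.mk (nat_lit 359) (nat_lit 7) (nat_lit 4) (nat_lit 5) (nat_lit 5) (nat_lit 162) (nat_lit 264) r9_162 r1_264 (nat_lit 0) (nat_lit 9484367) (nat_lit 0) (nat_lit 0x20056d4f2) (nat_lit 277919823),
  Rx.mk (nat_lit 364) (nat_lit 4) (nat_lit 5) (nat_lit 5) (nat_lit 6) (nat_lit 163) (nat_lit 265) r9_163 r1_265 (nat_lit 9484367) (nat_lit 0) (nat_lit 0) (nat_lit 0x1fe666b26) (nat_lit 279942473),
  Rx.mk (nat_lit 365) (nat_lit 5) (nat_lit 5) (nat_lit 5) (nat_lit 7) (nat_lit 164) (nat_lit 266) r9_164 r1_266 (nat_lit 0) (nat_lit 0) (nat_lit 0) (nat_lit 0x20056d4f2) (nat_lit 268435456),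
  Rx.mk (nat_lit 367) (nat_lit 7) (nat_lit 5) (nat_lit 5) (nat_lit 7) (nat_lit 165) (nat_lit 267) r9_165 r1_267 (nat_lit 0) (nat_lit 0) (nat_lit 0) (nat_lit 0x20056d4f2) (nat_lit 268435456),
  Rx.mk (nat_lit 383) (nat_lit 7) (nat_lit 7) (nat_lit 5) (nat_lit 7) (nat_lit 166) (nat_lit 268) r9_166 r1_268 (nat_lit 0) (nat_lit 0) (nat_lit 0) (nat_lit 0x20056d4f2) (nat_lit 268435456)]
noncomputable def e21_15 : List Rx := [
  Rx.mk (nat_lit 292) (nat_lit 4) (nat_lit 4) (nat_lit 4) (nat_lit 0) (nat_lit 183) (nat_lit 159) r9_183 r8_159 (nat_lit 2940451) (nat_lit 2962037) (nat_lit 4453267) (nat_lit 0x1121e1c0a) (nat_lit 531543861),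
  Rx.mk (nat_lit 293) (nat_lit 5) (nat_lit 4) (nat_lit 4) (nat_lit 1) (nat_lit 185) (nat_lit 165) r9_185 r8_165 (nat_lit 0) (nat_lit 8158535) (nat_lit 19239822) (nat_lit 0x1d532504e) (nat_lit 341477313),
  Rx.mk (nat_lit 295) (nat_lit 7) (nat_lit 4) (nat_lit 4) (nat_lit 1) (nat_lit 187) (nat_lit 171) r9_187 r8_171 (nat_lit 0) (nat_lit 9044589) (nat_lit 11392601) (nat_lit 0x1c6f1c2d0) (nat_lit 349642896),
  Rx.mk (nat_lit 308) (nat_lit 4) (nat_lit 6) (nat_lit 4) (nat_lit 2) (nat_lit 192) (nat_lit 162) r9_192 r8_162 (nat_lit 9530506) (nat_lit 0) (nat_lit 10265049) (nat_lit 0x1aabfbf22) (nat_lit 378936011),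
  Rx.mk (nat_lit 309) (nat_lit 5) (nat_lit 6) (nat_lit 4) (nat_lit 3) (nat_lit 195) (nat_lit 168) r9_195 r8_168 (nat_lit 0) (nat_lit 0) (nat_lit 9484367) (nat_lit 0x20056d4f2) (nat_lit 277919823),
  Rx.mk (nat_lit 319) (nat_lit 7) (nat_lit 7) (nat_lit 4) (nat_lit 3) (nat_lit 199) (nat_lit 174) r9_199 r8_174 (nat_lit 0) (nat_lit 0) (nat_lit 9484367) (nat_lit 0x20056d4f2) (nat_lit 277919823),
  Rx.mk (nat_lit 356) (nat_lit 4) (nat_lit 4) (nat_lit 5) (nat_lit 4) (nat_lit 184) (nat_lit 160) r9_184 r8_160 (nat_lit 12531791) (nat_lit 19140889) (nat_lit 0) (nat_lit 0x19e7d89c4) (nat_lit 403828636),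
  Rx.mk (nat_lit 357) (nat_lit 5) (nat_lit 4) (nat_lit 5) (nat_lit 5) (nat_lit 186) (nat_lit 166) r9_186 r8_166 (nat_lit 0) (nat_lit 9484367) (nat_lit 0) (nat_lit 0x20056d4f2) (nat_lit 277919823),
  Rx.mk (nat_lit 359) (nat_lit 7) (nat_lit 4) (nat_lit 5) (nat_lit 5) (nat_lit 188) (nat_lit 172) r9_188 r8_172 (nat_lit 0) (nat_lit 9484367) (nat_lit 0) (nat_lit 0x20056d4f2) (nat_lit 277919823),
  Rx.mk (nat_lit 364) (nat_lit 4) (nat_lit 5) (nat_lit 5) (nat_lit 6) (nat_lit 189) (nat_lit 161) r9_189 r8_161 (nat_lit 9484367) (nat_lit 0) (nat_lit 0) (nat_lit 0x20056d4f2) (nat_lit 277919823),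
  Rx.mk (nat_lit 365) (nat_lit 5) (nat_lit 5) (nat_lit 5) (nat_lit 7) (nat_lit 190) (nat_lit 167) r9_190 r8_167 (nat_lit 0) (nat_lit 0) (nat_lit 0) (nat_lit 0x20056d4f2) (nat_lit 268435456),
  Rx.mk (nat_lit 367) (nat_lit 7) (nat_lit 5) (nat_lit 5) (nat_lit 7) (nat_lit 191) (nat_lit 173) r9_191 r8_173 (nat_lit 0) (nat_lit 0) (nat_lit 0) (nat_lit 0x20056d4f2) (nat_lit 268435456),
  Rx.mk (nat_lit 372) (nat_lit 4) (nat_lit 6) (nat_lit 5) (nat_lit 6) (nat_lit 193) (nat_lit 163) r9_193 r8_163 (nat_lit 9484367) (nat_lit 0) (nat_lit 0) (nat_lit 0x20056d4f2) (nat_lit 277919823),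
  Rx.mk (nat_lit 373) (nat_lit 5) (nat_lit 6) (nat_lit 5) (nat_lit 7) (nat_lit 196) (nat_lit 169) r9_196 r8_169 (nat_lit 0) (nat_lit 0) (nat_lit 0) (nat_lit 0x20056d4f2) (nat_lit 268435456),
  Rx.mk (nat_lit 383) (nat_lit 7) (nat_lit 7) (nat_lit 5) (nat_lit 7) (nat_lit 200) (nat_lit 175) r9_200 r8_175 (nat_lit 0) (nat_lit 0) (nat_lit 0) (nat_lit 0x20056d4f2) (nat_lit 268435456),
  Rx.mk (nat_lit 436) (nat_lit 4) (nat_lit 6) (nat_lit 6) (nat_lit 6) (nat_lit 194) (nat_lit 164) r9_194 r8_164 (nat_lit 9484367) (nat_lit 0) (nat_lit 0) (nat_lit 0x20056d4f2) (nat_lit 277919823),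
  Rx.mk (nat_lit 437) (nat_lit 5) (nat_lit 6) (nat_lit 6) (nat_lit 7) (nat_lit 197) (nat_lit 170) r9_197 r8_170 (nat_lit 0) (nat_lit 0) (nat_lit 0) (nat_lit 0x20056d4f2) (nat_lit 268435456),
  Rx.mk (nat_lit 438) (nat_lit 6) (nat_lit 6) (nat_lit 6) (nat_lit 7) (nat_lit 198) (nat_lit 177) r9_198 r8_177 (nat_lit 0) (nat_lit 0) (nat_lit 0) (nat_lit 0x20056d4f2) (nat_lit 268435456),
  Rx.mk (nat_lit 511) (nat_lit 7) (nat_lit 7) (nat_lit 7) (nat_lit 7) (nat_lit 201) (nat_lit 176) r9_201 r8_176 (nat_lit 0) (nat_lit 0) (nat_lit 0) (nat_lit 0x20056d4f2) (nat_lit 268435456)]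
noncomputable def e21_16 : List Rx := [
  Rx.mk (nat_lit 292) (nat_lit 4) (nat_lit 4) (nat_lit 4) (nat_lit 0) (nat_lit 202) (nat_lit 266) r9_202 r8_266 (nat_lit 7358433) (nat_lit 9425907) (nat_lit 10521872) (nat_lit 0xfed8bfec) (nat_lit 568969768),
  Rx.mk (nat_lit 295) (nat_lit 7) (nat_lit 4) (nat_lit 4) (nat_lit 1) (nat_lit 203) (nat_lit 267) r9_203 r8_267 (nat_lit 0) (nat_lit 12417474) (nat_lit 9102018) (nat_lit 0x1c993f878) (nat_lit 347926448),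
  Rx.mk (nat_lit 308) (nat_lit 4) (nat_lit 6) (nat_lit 4) (nat_lit 2) (nat_lit 204) (nat_lit 269) r9_204 r8_269 (nat_lit 11295192) (nat_lit 0) (nat_lit 8834210) (nat_lit 0x1a59e41f8) (nat_lit 384717008),
  Rx.mk (nat_lit 319) (nat_lit 7) (nat_lit 7) (nat_lit 4) (nat_lit 3) (nat_lit 207) (nat_lit 268) r9_207 r8_268 (nat_lit 0) (nat_lit 0) (nat_lit 9484367) (nat_lit 0x20056d4f2) (nat_lit 277919823),
  Rx.mk (nat_lit 436) (nat_lit 4) (nat_lit 6) (nat_lit 6) (nat_lit 6) (nat_lit 205) (nat_lit 271) r9_205 r8_271 (nat_lit 9484367) (nat_lit 0) (nat_lit 0) (nat_lit 0x20056d4f2) (nat_lit 277919823),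
  Rx.mk (nat_lit 438) (nat_lit 6) (nat_lit 6) (nat_lit 6) (nat_lit 7) (nat_lit 206) (nat_lit 272) r9_206 r8_272 (nat_lit 0) (nat_lit 0) (nat_lit 0) (nat_lit 0x20056d4f2) (nat_lit 268435456),
  Rx.mk (nat_lit 511) (nat_lit 7) (nat_lit 7) (nat_lit 7) (nat_lit 7) (nat_lit 208) (nat_lit 270) r9_208 r8_270 (nat_lit 0) (nat_lit 0) (nat_lit 0) (nat_lit 0x20056d4f2) (nat_lit 268435456)]
noncomputable def e21_17 : List Rx := [
  Rx.mk (nat_lit 292) (nat_lit 4) (nat_lit 4) (nat_lit 4) (nat_lit 0) (nat_lit 148) (nat_lit 148) r9_148 r9_148 (nat_lit 4154528) (nat_lit 4154528) (nat_lit 11414673) (nat_lit 0xf1bfb054) (nat_lit 575294585),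
  Rx.mk (nat_lit 295) (nat_lit 7) (nat_lit 4) (nat_lit 4) (nat_lit 1) (nat_lit 149) (nat_lit 151) r9_149 r9_151 (nat_lit 0) (nat_lit 7816714) (nat_lit 10936372) (nat_lit 0x1a8f1b4ac) (nat_lit 379808392),
  Rx.mk (nat_lit 308) (nat_lit 4) (nat_lit 6) (nat_lit 4) (nat_lit 2) (nat_lit 151) (nat_lit 149) r9_151 r9_149 (nat_lit 7816714) (nat_lit 0) (nat_lit 10936372) (nat_lit 0x1a8f1b4ac) (nat_lit 379808392),
  Rx.mk (nat_lit 436) (nat_lit 4) (nat_lit 6) (nat_lit 6) (nat_lit 6) (nat_lit 152) (nat_lit 150) r9_152 r9_150 (nat_lit 8480559) (nat_lit 0) (nat_lit 0) (nat_lit 0x1fd3329d8) (nat_lit 280188765),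
  Rx.mk (nat_lit 438) (nat_lit 6) (nat_lit 6) (nat_lit 6) (nat_lit 7) (nat_lit 153) (nat_lit 154) r9_153 r9_154 (nat_lit 0) (nat_lit 0) (nat_lit 0) (nat_lit 0x20056d4f2) (nat_lit 268435456),
  Rx.mk (nat_lit 487) (nat_lit 7) (nat_lit 4) (nat_lit 7) (nat_lit 5) (nat_lit 150) (nat_lit 152) r9_150 r9_152 (nat_lit 0) (nat_lit 8480559) (nat_lit 0) (nat_lit 0x1fd3329d8) (nat_lit 280188765),
  Rx.mk (nat_lit 511) (nat_lit 7) (nat_lit 7) (nat_lit 7) (nat_lit 7) (nat_lit 154) (nat_lit 153) r9_154 r9_153 (nat_lit 0) (nat_lit 0) (nat_lit 0) (nat_lit 0x20056d4f2) (nat_lit 268435456)]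
noncomputable def e21_18 : List Rx := [
  Rx.mk (nat_lit 359) (nat_lit 7) (nat_lit 4) (nat_lit 5) (nat_lit 5) (nat_lit 167) (nat_lit 273) r9_167 r4_273 (nat_lit 0) (nat_lit 9484367) (nat_lit 0) (nat_lit 0x20056d4f2) (nat_lit 277919823),
  Rx.mk (nat_lit 367) (nat_lit 7) (nat_lit 5) (nat_lit 5) (nat_lit 7) (nat_lit 168) (nat_lit 274) r9_168 r4_274 (nat_lit 0) (nat_lit 0) (nat_lit 0) (nat_lit 0x20056d4f2) (nat_lit 268435456),
  Rx.mk (nat_lit 383) (nat_lit 7) (nat_lit 7) (nat_lit 5) (nat_lit 7) (nat_lit 169) (nat_lit 275) r9_169 r4_275 (nat_lit 0) (nat_lit 0) (nat_lit 0) (nat_lit 0x20056d4f2) (nat_lit 268435456)]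
noncomputable def e21_19 : List Rx := [
  Rx.mk (nat_lit 295) (nat_lit 7) (nat_lit 4) (nat_lit 4) (nat_lit 1) (nat_lit 209) (nat_lit 161) r9_209 r10_161 (nat_lit 0) (nat_lit 11812790) (nat_lit 18196586) (nat_lit 0x199bf684e) (nat_lit 407198282),
  Rx.mk (nat_lit 319) (nat_lit 7) (nat_lit 7) (nat_lit 4) (nat_lit 3) (nat_lit 212) (nat_lit 164) r9_212 r10_164 (nat_lit 0) (nat_lit 0) (nat_lit 9484367) (nat_lit 0x20056d4f2) (nat_lit 277919823),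
  Rx.mk (nat_lit 359) (nat_lit 7) (nat_lit 4) (nat_lit 5) (nat_lit 5) (nat_lit 210) (nat_lit 162) r9_210 r10_162 (nat_lit 0) (nat_lit 9793623) (nat_lit 0) (nat_lit 0x1fffcca48) (nat_lit 278595379),
  Rx.mk (nat_lit 367) (nat_lit 7) (nat_lit 5) (nat_lit 5) (nat_lit 7) (nat_lit 211) (nat_lit 163) r9_211 r10_163 (nat_lit 0) (nat_lit 0) (nat_lit 0) (nat_lit 0x20056d4f2) (nat_lit 268435456),
  Rx.mk (nat_lit 383) (nat_lit 7) (nat_lit 7) (nat_lit 5) (nat_lit 7) (nat_lit 213) (nat_lit 165) r9_213 r10_165 (nat_lit 0) (nat_lit 0) (nat_lit 0) (nat_lit 0x20056d4f2) (nat_lit 268435456)]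
noncomputable def e21_20 : List Rx := [
  Rx.mk (nat_lit 383) (nat_lit 7) (nat_lit 7) (nat_lit 5) (nat_lit 7) (nat_lit 214) (nat_lit 164) r9_214 r11_164 (nat_lit 0) (nat_lit 0) (nat_lit 0) (nat_lit 0x20056d4f2) (nat_lit 268435456)]
noncomputable def e21_21 : List Rx := [
  Rx.mk (nat_lit 0) (nat_lit 0) (nat_lit 0) (nat_lit 0) (nat_lit 0) (nat_lit 109) (nat_lit 121) r9_109 r9_121 (nat_lit 2990216) (nat_lit 3095504) (nat_lit 3768647) (nat_lit 0xd2564750) (nat_lit 598772423),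
  Rx.mk (nat_lit 2) (nat_lit 2) (nat_lit 0) (nat_lit 0) (nat_lit 1) (nat_lit 110) (nat_lit 122) r9_110 r9_122 (nat_lit 0) (nat_lit 7663817) (nat_lit 9694708) (nat_lit 0x18a42818a) (nat_lit 410994831),
  Rx.mk (nat_lit 24) (nat_lit 0) (nat_lit 3) (nat_lit 0) (nat_lit 2) (nat_lit 115) (nat_lit 124) r9_115 r9_124 (nat_lit 8615936) (nat_lit 0) (nat_lit 12761957) (nat_lit 0x177a8624c) (nat_lit 434765499),
  Rx.mk (nat_lit 26) (nat_lit 2) (nat_lit 3) (nat_lit 0) (nat_lit 3) (nat_lit 117) (nat_lit 127) r9_117 r9_127 (nat_lit 0) (nat_lit 0) (nat_lit 9484367) (nat_lit 0x1fb6f8f1a) (nat_lit 283044773),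
  Rx.mk (nat_lit 130) (nat_lit 2) (nat_lit 0) (nat_lit 2) (nat_lit 5) (nat_lit 111) (nat_lit 123) r9_111 r9_123 (nat_lit 0) (nat_lit 9121588) (nat_lit 0) (nat_lit 0x1fa396af8) (nat_lit 283960994),
  Rx.mk (nat_lit 146) (nat_lit 2) (nat_lit 2) (nat_lit 2) (nat_lit 7) (nat_lit 112) (nat_lit 132) r9_112 r9_132 (nat_lit 0) (nat_lit 0) (nat_lit 0) (nat_lit 0x20056d4f2) (nat_lit 268435456),
  Rx.mk (nat_lit 150) (nat_lit 6) (nat_lit 2) (nat_lit 2) (nat_lit 7) (nat_lit 113) (nat_lit 131) r9_113 r9_131 (nat_lit 0) (nat_lit 0) (nat_lit 0) (nat_lit 0x20056d4f2) (nat_lit 268435456),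
  Rx.mk (nat_lit 154) (nat_lit 2) (nat_lit 3) (nat_lit 2) (nat_lit 7) (nat_lit 118) (nat_lit 129) r9_118 r9_129 (nat_lit 0) (nat_lit 0) (nat_lit 0) (nat_lit 0x20056d4f2) (nat_lit 268435456),
  Rx.mk (nat_lit 216) (nat_lit 0) (nat_lit 3) (nat_lit 3) (nat_lit 6) (nat_lit 116) (nat_lit 125) r9_116 r9_125 (nat_lit 7138546) (nat_lit 0) (nat_lit 0) (nat_lit 0x1f7876ba2) (nat_lit 284819002),
  Rx.mk (nat_lit 218) (nat_lit 2) (nat_lit 3) (nat_lit 3) (nat_lit 7) (nat_lit 119) (nat_lit 128) r9_119 r9_128 (nat_lit 0) (nat_lit 0) (nat_lit 0) (nat_lit 0x20056d4f2) (nat_lit 268435456),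
  Rx.mk (nat_lit 219) (nat_lit 3) (nat_lit 3) (nat_lit 3) (nat_lit 7) (nat_lit 120) (nat_lit 126) r9_120 r9_126 (nat_lit 0) (nat_lit 0) (nat_lit 0) (nat_lit 0x20056d4f2) (nat_lit 268435456),
  Rx.mk (nat_lit 251) (nat_lit 3) (nat_lit 7) (nat_lit 3) (nat_lit 7) (nat_lit 130) (nat_lit 114) r9_130 r9_114 (nat_lit 0) (nat_lit 0) (nat_lit 0) (nat_lit 0x20056d4f2) (nat_lit 268435456),
  Rx.mk (nat_lit 292) (nat_lit 4) (nat_lit 4) (nat_lit 4) (nat_lit 0) (nat_lit 121) (nat_lit 109) r9_121 r9_109 (nat_lit 2990216) (nat_lit 3095504) (nat_lit 3768647) (nat_lit 0xd2564750) (nat_lit 598772423),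
  Rx.mk (nat_lit 295) (nat_lit 7) (nat_lit 4) (nat_lit 4) (nat_lit 1) (nat_lit 122) (nat_lit 110) r9_122 r9_110 (nat_lit 0) (nat_lit 7663817) (nat_lit 9694708) (nat_lit 0x18a42818a) (nat_lit 410994831),
  Rx.mk (nat_lit 308) (nat_lit 4) (nat_lit 6) (nat_lit 4) (nat_lit 2) (nat_lit 124) (nat_lit 115) r9_124 r9_115 (nat_lit 8615936) (nat_lit 0) (nat_lit 12761957) (nat_lit 0x177a8624c) (nat_lit 434765499),
  Rx.mk (nat_lit 311) (nat_lit 7) (nat_lit 6) (nat_lit 4) (nat_lit 3) (nat_lit 127) (nat_lit 117) r9_127 r9_117 (nat_lit 0) (nat_lit 0) (nat_lit 9484367) (nat_lit 0x1fb6f8f1a) (nat_lit 283044773),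
  Rx.mk (nat_lit 406) (nat_lit 6) (nat_lit 2) (nat_lit 6) (nat_lit 7) (nat_lit 114) (nat_lit 130) r9_114 r9_130 (nat_lit 0) (nat_lit 0) (nat_lit 0) (nat_lit 0x20056d4f2) (nat_lit 268435456),
  Rx.mk (nat_lit 436) (nat_lit 4) (nat_lit 6) (nat_lit 6) (nat_lit 6) (nat_lit 125) (nat_lit 116) r9_125 r9_116 (nat_lit 7138546) (nat_lit 0) (nat_lit 0) (nat_lit 0x1f7876ba2) (nat_lit 284819002),
  Rx.mk (nat_lit 438) (nat_lit 6) (nat_lit 6) (nat_lit 6) (nat_lit 7) (nat_lit 126) (nat_lit 120) r9_126 r9_120 (nat_lit 0) (nat_lit 0) (nat_lit 0) (nat_lit 0x20056d4f2) (nat_lit 268435456),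
  Rx.mk (nat_lit 439) (nat_lit 7) (nat_lit 6) (nat_lit 6) (nat_lit 7) (nat_lit 128) (nat_lit 119) r9_128 r9_119 (nat_lit 0) (nat_lit 0) (nat_lit 0) (nat_lit 0x20056d4f2) (nat_lit 268435456),
  Rx.mk (nat_lit 487) (nat_lit 7) (nat_lit 4) (nat_lit 7) (nat_lit 5) (nat_lit 123) (nat_lit 111) r9_123 r9_111 (nat_lit 0) (nat_lit 9121588) (nat_lit 0) (nat_lit 0x1fa396af8) (nat_lit 283960994),
  Rx.mk (nat_lit 503) (nat_lit 7) (nat_lit 6) (nat_lit 7) (nat_lit 7) (nat_lit 129) (nat_lit 118) r9_129 r9_118 (nat_lit 0) (nat_lit 0) (nat_lit 0) (nat_lit 0x20056d4f2) (nat_lit 268435456),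
  Rx.mk (nat_lit 507) (nat_lit 3) (nat_lit 7) (nat_lit 7) (nat_lit 7) (nat_lit 131) (nat_lit 113) r9_131 r9_113 (nat_lit 0) (nat_lit 0) (nat_lit 0) (nat_lit 0x20056d4f2) (nat_lit 268435456),
  Rx.mk (nat_lit 511) (nat_lit 7) (nat_lit 7) (nat_lit 7) (nat_lit 7) (nat_lit 132) (nat_lit 112) r9_132 r9_112 (nat_lit 0) (nat_lit 0) (nat_lit 0) (nat_lit 0x20056d4f2) (nat_lit 268435456)]
noncomputable def e21_22 : List Rx := [
  Rx.mk (nat_lit 64) (nat_lit 0) (nat_lit 0) (nat_lit 1) (nat_lit 4) (nat_lit 65) (nat_lit 262) r9_65 r0_262 (nat_lit 37964627) (nat_lit 14858526) (nat_lit 0) (nat_lit 0x17568cdc8) (nat_lit 468596959),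
  Rx.mk (nat_lit 88) (nat_lit 0) (nat_lit 3) (nat_lit 1) (nat_lit 6) (nat_lit 66) (nat_lit 263) r9_66 r0_263 (nat_lit 23941176) (nat_lit 0) (nat_lit 0) (nat_lit 0x1ecb07dd6) (nat_lit 313084132),
  Rx.mk (nat_lit 91) (nat_lit 3) (nat_lit 3) (nat_lit 1) (nat_lit 7) (nat_lit 67) (nat_lit 264) r9_67 r0_264 (nat_lit 0) (nat_lit 0) (nat_lit 0) (nat_lit 0x1ff25243a) (nat_lit 269680706)]
noncomputable def e21_23 : List Rx := [
  Rx.mk (nat_lit 64) (nat_lit 0) (nat_lit 0) (nat_lit 1) (nat_lit 4) (nat_lit 83) (nat_lit 269) r9_83 r1_269 (nat_lit 50589702) (nat_lit 10429633) (nat_lit 0) (nat_lit 0x1c8842fca) (nat_lit 388554141),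
  Rx.mk (nat_lit 88) (nat_lit 0) (nat_lit 3) (nat_lit 1) (nat_lit 6) (nat_lit 84) (nat_lit 270) r9_84 r1_270 (nat_lit 9484367) (nat_lit 0) (nat_lit 0) (nat_lit 0x20056d4f2) (nat_lit 277919823),
  Rx.mk (nat_lit 91) (nat_lit 3) (nat_lit 3) (nat_lit 1) (nat_lit 7) (nat_lit 85) (nat_lit 271) r9_85 r1_271 (nat_lit 0) (nat_lit 0) (nat_lit 0) (nat_lit 0x20056d4f2) (nat_lit 268435456)]
noncomputable def e21_24 : List Rx := [
  Rx.mk (nat_lit 88) (nat_lit 0) (nat_lit 3) (nat_lit 1) (nat_lit 6) (nat_lit 133) (nat_lit 276) r9_133 r4_276 (nat_lit 10224750) (nat_lit 0) (nat_lit 0) (nat_lit 0x1ff7ec1c0) (nat_lit 279539206),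
  Rx.mk (nat_lit 91) (nat_lit 3) (nat_lit 3) (nat_lit 1) (nat_lit 7) (nat_lit 134) (nat_lit 277) r9_134 r4_277 (nat_lit 0) (nat_lit 0) (nat_lit 0) (nat_lit 0x20056d4f2) (nat_lit 268435456),
  Rx.mk (nat_lit 123) (nat_lit 3) (nat_lit 7) (nat_lit 1) (nat_lit 7) (nat_lit 135) (nat_lit 278) r9_135 r4_278 (nat_lit 0) (nat_lit 0) (nat_lit 0) (nat_lit 0x20056d4f2) (nat_lit 268435456)]
noncomputable def e21_25 : List Rx := [
  Rx.mk (nat_lit 0) (nat_lit 0) (nat_lit 0) (nat_lit 0) (nat_lit 0) (nat_lit 68) (nat_lit 161) r9_68 r7_161 (nat_lit 9146340) (nat_lit 1909453) (nat_lit 2680125) (nat_lit 0xd8e0cdac) (nat_lit 595695424),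
  Rx.mk (nat_lit 2) (nat_lit 2) (nat_lit 0) (nat_lit 0) (nat_lit 1) (nat_lit 70) (nat_lit 163) r9_70 r7_163 (nat_lit 0) (nat_lit 13438367) (nat_lit 10245589) (nat_lit 0x19e910396) (nat_lit 395759412),
  Rx.mk (nat_lit 24) (nat_lit 0) (nat_lit 3) (nat_lit 0) (nat_lit 2) (nat_lit 74) (nat_lit 166) r9_74 r7_166 (nat_lit 13616542) (nat_lit 0) (nat_lit 11056457) (nat_lit 0x17b1c14be) (nat_lit 434394355),
  Rx.mk (nat_lit 26) (nat_lit 2) (nat_lit 3) (nat_lit 0) (nat_lit 3) (nat_lit 76) (nat_lit 171) r9_76 r7_171 (nat_lit 0) (nat_lit 0) (nat_lit 9484367) (nat_lit 0x1ff04690c) (nat_lit 279297123),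
  Rx.mk (nat_lit 27) (nat_lit 3) (nat_lit 3) (nat_lit 0) (nat_lit 3) (nat_lit 79) (nat_lit 168) r9_79 r7_168 (nat_lit 0) (nat_lit 0) (nat_lit 9484367) (nat_lit 0x1fb67f214) (nat_lit 283080423),
  Rx.mk (nat_lit 64) (nat_lit 0) (nat_lit 0) (nat_lit 1) (nat_lit 4) (nat_lit 69) (nat_lit 162) r9_69 r7_162 (nat_lit 10619100) (nat_lit 13489230) (nat_lit 0) (nat_lit 0x176e3a3da) (nat_lit 438312186),
  Rx.mk (nat_lit 66) (nat_lit 2) (nat_lit 0) (nat_lit 1) (nat_lit 5) (nat_lit 71) (nat_lit 164) r9_71 r7_164 (nat_lit 0) (nat_lit 9484367) (nat_lit 0) (nat_lit 0x20056d4f2) (nat_lit 277919823),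
  Rx.mk (nat_lit 88) (nat_lit 0) (nat_lit 3) (nat_lit 1) (nat_lit 6) (nat_lit 75) (nat_lit 167) r9_75 r7_167 (nat_lit 9484367) (nat_lit 0) (nat_lit 0) (nat_lit 0x20056d4f2) (nat_lit 277919823),
  Rx.mk (nat_lit 90) (nat_lit 2) (nat_lit 3) (nat_lit 1) (nat_lit 7) (nat_lit 77) (nat_lit 172) r9_77 r7_172 (nat_lit 0) (nat_lit 0) (nat_lit 0) (nat_lit 0x20056d4f2) (nat_lit 268435456),
  Rx.mk (nat_lit 91) (nat_lit 3) (nat_lit 3) (nat_lit 1) (nat_lit 7) (nat_lit 80) (nat_lit 169) r9_80 r7_169 (nat_lit 0) (nat_lit 0) (nat_lit 0) (nat_lit 0x20056d4f2) (nat_lit 268435456),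
  Rx.mk (nat_lit 130) (nat_lit 2) (nat_lit 0) (nat_lit 2) (nat_lit 5) (nat_lit 72) (nat_lit 165) r9_72 r7_165 (nat_lit 0) (nat_lit 8921268) (nat_lit 0) (nat_lit 0x1fef92f60) (nat_lit 278779924),
  Rx.mk (nat_lit 146) (nat_lit 2) (nat_lit 2) (nat_lit 2) (nat_lit 7) (nat_lit 73) (nat_lit 174) r9_73 r7_174 (nat_lit 0) (nat_lit 0) (nat_lit 0) (nat_lit 0x20056d4f2) (nat_lit 268435456),
  Rx.mk (nat_lit 154) (nat_lit 2) (nat_lit 3) (nat_lit 2) (nat_lit 7) (nat_lit 78) (nat_lit 173) r9_78 r7_173 (nat_lit 0) (nat_lit 0) (nat_lit 0) (nat_lit 0x20056d4f2) (nat_lit 268435456),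
  Rx.mk (nat_lit 219) (nat_lit 3) (nat_lit 3) (nat_lit 3) (nat_lit 7) (nat_lit 81) (nat_lit 170) r9_81 r7_170 (nat_lit 0) (nat_lit 0) (nat_lit 0) (nat_lit 0x20056d4f2) (nat_lit 268435456),
  Rx.mk (nat_lit 251) (nat_lit 3) (nat_lit 7) (nat_lit 3) (nat_lit 7) (nat_lit 82) (nat_lit 160) r9_82 r7_160 (nat_lit 0) (nat_lit 0) (nat_lit 0) (nat_lit 0x20056d4f2) (nat_lit 268435456)]
noncomputable def e21_26 : List Rx := [
  Rx.mk (nat_lit 0) (nat_lit 0) (nat_lit 0) (nat_lit 0) (nat_lit 0) (nat_lit 86) (nat_lit 133) r9_86 r8_133 (nat_lit 5576143) (nat_lit 2770649) (nat_lit 5240963) (nat_lit 0xf2b552c0) (nat_lit 568130111),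
  Rx.mk (nat_lit 2) (nat_lit 2) (nat_lit 0) (nat_lit 0) (nat_lit 1) (nat_lit 88) (nat_lit 135) r9_88 r8_135 (nat_lit 0) (nat_lit 8355857) (nat_lit 10033396) (nat_lit 0x198607dee) (nat_lit 397036109),
  Rx.mk (nat_lit 24) (nat_lit 0) (nat_lit 3) (nat_lit 0) (nat_lit 2) (nat_lit 92) (nat_lit 138) r9_92 r8_138 (nat_lit 7159752) (nat_lit 0) (nat_lit 11833183) (nat_lit 0x19341fd38) (nat_lit 403074591),
  Rx.mk (nat_lit 26) (nat_lit 2) (nat_lit 3) (nat_lit 0) (nat_lit 3) (nat_lit 94) (nat_lit 143) r9_94 r8_143 (nat_lit 0) (nat_lit 0) (nat_lit 9484367) (nat_lit 0x1ffae62a4) (nat_lit 278605023),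
  Rx.mk (nat_lit 27) (nat_lit 3) (nat_lit 3) (nat_lit 0) (nat_lit 3) (nat_lit 96) (nat_lit 140) r9_96 r8_140 (nat_lit 0) (nat_lit 0) (nat_lit 9484367) (nat_lit 0x1ff9f49f4) (nat_lit 278666623),
  Rx.mk (nat_lit 64) (nat_lit 0) (nat_lit 0) (nat_lit 1) (nat_lit 4) (nat_lit 87) (nat_lit 134) r9_87 r8_134 (nat_lit 26943886) (nat_lit 10556072) (nat_lit 0) (nat_lit 0x1a1178842) (nat_lit 406893614),
  Rx.mk (nat_lit 66) (nat_lit 2) (nat_lit 0) (nat_lit 1) (nat_lit 5) (nat_lit 89) (nat_lit 136) r9_89 r8_136 (nat_lit 0) (nat_lit 9484367) (nat_lit 0) (nat_lit 0x20056d4f2) (nat_lit 277919823),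
  Rx.mk (nat_lit 88) (nat_lit 0) (nat_lit 3) (nat_lit 1) (nat_lit 6) (nat_lit 93) (nat_lit 139) r9_93 r8_139 (nat_lit 9484367) (nat_lit 0) (nat_lit 0) (nat_lit 0x20056d4f2) (nat_lit 277919823),
  Rx.mk (nat_lit 90) (nat_lit 2) (nat_lit 3) (nat_lit 1) (nat_lit 7) (nat_lit 95) (nat_lit 144) r9_95 r8_144 (nat_lit 0) (nat_lit 0) (nat_lit 0) (nat_lit 0x20056d4f2) (nat_lit 268435456),
  Rx.mk (nat_lit 91) (nat_lit 3) (nat_lit 3) (nat_lit 1) (nat_lit 7) (nat_lit 97) (nat_lit 141) r9_97 r8_141 (nat_lit 0) (nat_lit 0) (nat_lit 0) (nat_lit 0x20056d4f2) (nat_lit 268435456),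
  Rx.mk (nat_lit 130) (nat_lit 2) (nat_lit 0) (nat_lit 2) (nat_lit 5) (nat_lit 90) (nat_lit 137) r9_90 r8_137 (nat_lit 0) (nat_lit 9484367) (nat_lit 0) (nat_lit 0x20056d4f2) (nat_lit 277919823),
  Rx.mk (nat_lit 146) (nat_lit 2) (nat_lit 2) (nat_lit 2) (nat_lit 7) (nat_lit 91) (nat_lit 145) r9_91 r8_145 (nat_lit 0) (nat_lit 0) (nat_lit 0) (nat_lit 0x20056d4f2) (nat_lit 268435456),
  Rx.mk (nat_lit 219) (nat_lit 3) (nat_lit 3) (nat_lit 3) (nat_lit 7) (nat_lit 98) (nat_lit 142) r9_98 r8_142 (nat_lit 0) (nat_lit 0) (nat_lit 0) (nat_lit 0x20056d4f2) (nat_lit 268435456)]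
noncomputable def e21_27 : List Rx := [
  Rx.mk (nat_lit 0) (nat_lit 0) (nat_lit 0) (nat_lit 0) (nat_lit 0) (nat_lit 99) (nat_lit 273) r9_99 r8_273 (nat_lit 6484831) (nat_lit 3522600) (nat_lit 4054147) (nat_lit 0x102a7f066) (nat_lit 551671134),
  Rx.mk (nat_lit 2) (nat_lit 2) (nat_lit 0) (nat_lit 0) (nat_lit 1) (nat_lit 100) (nat_lit 276) r9_100 r8_276 (nat_lit 0) (nat_lit 10509005) (nat_lit 8663689) (nat_lit 0x19d99ca04) (nat_lit 392273250),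
  Rx.mk (nat_lit 24) (nat_lit 0) (nat_lit 3) (nat_lit 0) (nat_lit 2) (nat_lit 103) (nat_lit 274) r9_103 r8_274 (nat_lit 11245750) (nat_lit 0) (nat_lit 10624591) (nat_lit 0x1a3e8be9c) (nat_lit 388272497),
  Rx.mk (nat_lit 26) (nat_lit 2) (nat_lit 3) (nat_lit 0) (nat_lit 3) (nat_lit 104) (nat_lit 277) r9_104 r8_277 (nat_lit 0) (nat_lit 0) (nat_lit 9484367) (nat_lit 0x20056d4f2) (nat_lit 277919823),
  Rx.mk (nat_lit 27) (nat_lit 3) (nat_lit 3) (nat_lit 0) (nat_lit 3) (nat_lit 106) (nat_lit 275) r9_106 r8_275 (nat_lit 0) (nat_lit 0) (nat_lit 9484367) (nat_lit 0x20056d4f2) (nat_lit 277919823),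
  Rx.mk (nat_lit 130) (nat_lit 2) (nat_lit 0) (nat_lit 2) (nat_lit 5) (nat_lit 101) (nat_lit 280) r9_101 r8_280 (nat_lit 0) (nat_lit 9484367) (nat_lit 0) (nat_lit 0x20056d4f2) (nat_lit 277919823),
  Rx.mk (nat_lit 146) (nat_lit 2) (nat_lit 2) (nat_lit 2) (nat_lit 7) (nat_lit 102) (nat_lit 282) r9_102 r8_282 (nat_lit 0) (nat_lit 0) (nat_lit 0) (nat_lit 0x20056d4f2) (nat_lit 268435456),
  Rx.mk (nat_lit 154) (nat_lit 2) (nat_lit 3) (nat_lit 2) (nat_lit 7) (nat_lit 105) (nat_lit 281) r9_105 r8_281 (nat_lit 0) (nat_lit 0) (nat_lit 0) (nat_lit 0x20056d4f2) (nat_lit 268435456),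
  Rx.mk (nat_lit 219) (nat_lit 3) (nat_lit 3) (nat_lit 3) (nat_lit 7) (nat_lit 107) (nat_lit 278) r9_107 r8_278 (nat_lit 0) (nat_lit 0) (nat_lit 0) (nat_lit 0x20056d4f2) (nat_lit 268435456),
  Rx.mk (nat_lit 251) (nat_lit 3) (nat_lit 7) (nat_lit 3) (nat_lit 7) (nat_lit 108) (nat_lit 279) r9_108 r8_279 (nat_lit 0) (nat_lit 0) (nat_lit 0) (nat_lit 0x20056d4f2) (nat_lit 268435456)]
noncomputable def e21_28 : List Rx := [
  Rx.mk (nat_lit 24) (nat_lit 0) (nat_lit 3) (nat_lit 0) (nat_lit 2) (nat_lit 136) (nat_lit 120) r9_136 r10_120 (nat_lit 10859836) (nat_lit 0) (nat_lit 18297468) (nat_lit 0x18a1becbe) (nat_lit 422951410),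
  Rx.mk (nat_lit 26) (nat_lit 2) (nat_lit 3) (nat_lit 0) (nat_lit 3) (nat_lit 138) (nat_lit 124) r9_138 r10_124 (nat_lit 0) (nat_lit 0) (nat_lit 9325504) (nat_lit 0x1feec417e) (nat_lit 279237760),
  Rx.mk (nat_lit 27) (nat_lit 3) (nat_lit 3) (nat_lit 0) (nat_lit 3) (nat_lit 141) (nat_lit 122) r9_141 r10_122 (nat_lit 0) (nat_lit 0) (nat_lit 9484367) (nat_lit 0x1fe9978ae) (nat_lit 279734173),
  Rx.mk (nat_lit 59) (nat_lit 3) (nat_lit 7) (nat_lit 0) (nat_lit 3) (nat_lit 143) (nat_lit 117) r9_143 r10_117 (nat_lit 0) (nat_lit 0) (nat_lit 9484367) (nat_lit 0x1fe0f9b52) (nat_lit 280290373),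
  Rx.mk (nat_lit 88) (nat_lit 0) (nat_lit 3) (nat_lit 1) (nat_lit 6) (nat_lit 137) (nat_lit 121) r9_137 r10_121 (nat_lit 11205477) (nat_lit 0) (nat_lit 0) (nat_lit 0x1fe9e5b26) (nat_lit 281435233),
  Rx.mk (nat_lit 90) (nat_lit 2) (nat_lit 3) (nat_lit 1) (nat_lit 7) (nat_lit 139) (nat_lit 125) r9_139 r10_125 (nat_lit 0) (nat_lit 0) (nat_lit 0) (nat_lit 0x20056d4f2) (nat_lit 268435456),
  Rx.mk (nat_lit 91) (nat_lit 3) (nat_lit 3) (nat_lit 1) (nat_lit 7) (nat_lit 142) (nat_lit 123) r9_142 r10_123 (nat_lit 0) (nat_lit 0) (nat_lit 0) (nat_lit 0x20056d4f2) (nat_lit 268435456),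
  Rx.mk (nat_lit 123) (nat_lit 3) (nat_lit 7) (nat_lit 1) (nat_lit 7) (nat_lit 144) (nat_lit 118) r9_144 r10_118 (nat_lit 0) (nat_lit 0) (nat_lit 0) (nat_lit 0x20056d4f2) (nat_lit 268435456),
  Rx.mk (nat_lit 154) (nat_lit 2) (nat_lit 3) (nat_lit 2) (nat_lit 7) (nat_lit 140) (nat_lit 126) r9_140 r10_126 (nat_lit 0) (nat_lit 0) (nat_lit 0) (nat_lit 0x20056d4f2) (nat_lit 268435456),
  Rx.mk (nat_lit 251) (nat_lit 3) (nat_lit 7) (nat_lit 3) (nat_lit 7) (nat_lit 145) (nat_lit 119) r9_145 r10_119 (nat_lit 0) (nat_lit 0) (nat_lit 0) (nat_lit 0x20056d4f2) (nat_lit 268435456)]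
noncomputable def e21_29 : List Rx := [
  Rx.mk (nat_lit 91) (nat_lit 3) (nat_lit 3) (nat_lit 1) (nat_lit 7) (nat_lit 146) (nat_lit 124) r9_146 r11_124 (nat_lit 0) (nat_lit 0) (nat_lit 0) (nat_lit 0x20056d4f2) (nat_lit 268435456),
  Rx.mk (nat_lit 123) (nat_lit 3) (nat_lit 7) (nat_lit 1) (nat_lit 7) (nat_lit 147) (nat_lit 123) r9_147 r11_123 (nat_lit 0) (nat_lit 0) (nat_lit 0) (nat_lit 0x20056d4f2) (nat_lit 268435456)]
noncomputable def e21_30 : List Rx := [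
  Rx.mk (nat_lit 355) (nat_lit 3) (nat_lit 4) (nat_lit 5) (nat_lit 5) (nat_lit 224) (nat_lit 262) r9_224 r5_262 (nat_lit 0) (nat_lit 10906122) (nat_lit 0) (nat_lit 0x1f877a716) (nat_lit 287583928),
  Rx.mk (nat_lit 359) (nat_lit 7) (nat_lit 4) (nat_lit 5) (nat_lit 5) (nat_lit 225) (nat_lit 261) r9_225 r5_261 (nat_lit 0) (nat_lit 9906818) (nat_lit 0) (nat_lit 0x1fdab6db2) (nat_lit 281127224),
  Rx.mk (nat_lit 363) (nat_lit 3) (nat_lit 5) (nat_lit 5) (nat_lit 7) (nat_lit 226) (nat_lit 264) r9_226 r5_264 (nat_lit 0) (nat_lit 0) (nat_lit 0) (nat_lit 0x20056d4f2) (nat_lit 268435456),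
  Rx.mk (nat_lit 367) (nat_lit 7) (nat_lit 5) (nat_lit 5) (nat_lit 7) (nat_lit 227) (nat_lit 263) r9_227 r5_263 (nat_lit 0) (nat_lit 0) (nat_lit 0) (nat_lit 0x20056d4f2) (nat_lit 268435456),
  Rx.mk (nat_lit 379) (nat_lit 3) (nat_lit 7) (nat_lit 5) (nat_lit 7) (nat_lit 228) (nat_lit 265) r9_228 r5_265 (nat_lit 0) (nat_lit 0) (nat_lit 0) (nat_lit 0x20056d4f2) (nat_lit 268435456)]
noncomputable def e21_31 : List Rx := [
  Rx.mk (nat_lit 291) (nat_lit 3) (nat_lit 4) (nat_lit 4) (nat_lit 1) (nat_lit 229) (nat_lit 319) r9_229 r11_319 (nat_lit 0) (nat_lit 11766120) (nat_lit 11766120) (nat_lit 0x1f90d7d9a) (nat_lit 299612896),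
  Rx.mk (nat_lit 295) (nat_lit 7) (nat_lit 4) (nat_lit 4) (nat_lit 1) (nat_lit 231) (nat_lit 318) r9_231 r11_318 (nat_lit 0) (nat_lit 18744067) (nat_lit 16829549) (nat_lit 0x1e8eb1d14) (nat_lit 328714572),
  Rx.mk (nat_lit 311) (nat_lit 7) (nat_lit 6) (nat_lit 4) (nat_lit 3) (nat_lit 235) (nat_lit 321) r9_235 r11_321 (nat_lit 0) (nat_lit 0) (nat_lit 9484367) (nat_lit 0x20056d4f2) (nat_lit 277919823),
  Rx.mk (nat_lit 315) (nat_lit 3) (nat_lit 7) (nat_lit 4) (nat_lit 3) (nat_lit 238) (nat_lit 320) r9_238 r11_320 (nat_lit 0) (nat_lit 0) (nat_lit 9484367) (nat_lit 0x20056d4f2) (nat_lit 277919823),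
  Rx.mk (nat_lit 355) (nat_lit 3) (nat_lit 4) (nat_lit 5) (nat_lit 5) (nat_lit 230) (nat_lit 323) r9_230 r11_323 (nat_lit 0) (nat_lit 9484367) (nat_lit 0) (nat_lit 0x20056d4f2) (nat_lit 277919823),
  Rx.mk (nat_lit 359) (nat_lit 7) (nat_lit 4) (nat_lit 5) (nat_lit 5) (nat_lit 232) (nat_lit 322) r9_232 r11_322 (nat_lit 0) (nat_lit 9484367) (nat_lit 0) (nat_lit 0x20056d4f2) (nat_lit 277919823),
  Rx.mk (nat_lit 363) (nat_lit 3) (nat_lit 5) (nat_lit 5) (nat_lit 7) (nat_lit 233) (nat_lit 325) r9_233 r11_325 (nat_lit 0) (nat_lit 0) (nat_lit 0) (nat_lit 0x20056d4f2) (nat_lit 268435456),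
  Rx.mk (nat_lit 367) (nat_lit 7) (nat_lit 5) (nat_lit 5) (nat_lit 7) (nat_lit 234) (nat_lit 324) r9_234 r11_324 (nat_lit 0) (nat_lit 0) (nat_lit 0) (nat_lit 0x20056d4f2) (nat_lit 268435456),
  Rx.mk (nat_lit 375) (nat_lit 7) (nat_lit 6) (nat_lit 5) (nat_lit 7) (nat_lit 236) (nat_lit 327) r9_236 r11_327 (nat_lit 0) (nat_lit 0) (nat_lit 0) (nat_lit 0x20056d4f2) (nat_lit 268435456),
  Rx.mk (nat_lit 379) (nat_lit 3) (nat_lit 7) (nat_lit 5) (nat_lit 7) (nat_lit 239) (nat_lit 326) r9_239 r11_326 (nat_lit 0) (nat_lit 0) (nat_lit 0) (nat_lit 0x20056d4f2) (nat_lit 268435456),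
  Rx.mk (nat_lit 439) (nat_lit 7) (nat_lit 6) (nat_lit 6) (nat_lit 7) (nat_lit 237) (nat_lit 329) r9_237 r11_329 (nat_lit 0) (nat_lit 0) (nat_lit 0) (nat_lit 0x20056d4f2) (nat_lit 268435456),
  Rx.mk (nat_lit 507) (nat_lit 3) (nat_lit 7) (nat_lit 7) (nat_lit 7) (nat_lit 240) (nat_lit 328) r9_240 r11_328 (nat_lit 0) (nat_lit 0) (nat_lit 0) (nat_lit 0x20056d4f2) (nat_lit 268435456)]
noncomputable def e21_32 : List Rx := [
  Rx.mk (nat_lit 99) (nat_lit 3) (nat_lit 4) (nat_lit 1) (nat_lit 5) (nat_lit 241) (nat_lit 319) r9_241 r6_319 (nat_lit 0) (nat_lit 10679085) (nat_lit 0) (nat_lit 0x1f89d2662) (nat_lit 287212591),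
  Rx.mk (nat_lit 107) (nat_lit 3) (nat_lit 5) (nat_lit 1) (nat_lit 7) (nat_lit 242) (nat_lit 320) r9_242 r6_320 (nat_lit 0) (nat_lit 0) (nat_lit 0) (nat_lit 0x20056d4f2) (nat_lit 268435456),
  Rx.mk (nat_lit 123) (nat_lit 3) (nat_lit 7) (nat_lit 1) (nat_lit 7) (nat_lit 243) (nat_lit 321) r9_243 r6_321 (nat_lit 0) (nat_lit 0) (nat_lit 0) (nat_lit 0x20056d4f2) (nat_lit 268435456)]
noncomputable def e21_33 : List Rx := [
  Rx.mk (nat_lit 123) (nat_lit 3) (nat_lit 7) (nat_lit 1) (nat_lit 7) (nat_lit 215) (nat_lit 266) r9_215 r5_266 (nat_lit 0) (nat_lit 0) (nat_lit 0) (nat_lit 0x20056d4f2) (nat_lit 268435456)]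
noncomputable def e21_34 : List Rx := [
  Rx.mk (nat_lit 59) (nat_lit 3) (nat_lit 7) (nat_lit 0) (nat_lit 3) (nat_lit 216) (nat_lit 330) r9_216 r11_330 (nat_lit 0) (nat_lit 0) (nat_lit 9484367) (nat_lit 0x20056d4f2) (nat_lit 277919823),
  Rx.mk (nat_lit 123) (nat_lit 3) (nat_lit 7) (nat_lit 1) (nat_lit 7) (nat_lit 217) (nat_lit 331) r9_217 r11_331 (nat_lit 0) (nat_lit 0) (nat_lit 0) (nat_lit 0x20056d4f2) (nat_lit 268435456),
  Rx.mk (nat_lit 251) (nat_lit 3) (nat_lit 7) (nat_lit 3) (nat_lit 7) (nat_lit 218) (nat_lit 332) r9_218 r11_332 (nat_lit 0) (nat_lit 0) (nat_lit 0) (nat_lit 0x20056d4f2) (nat_lit 268435456)]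
noncomputable def e21_35 : List Rx := [
  Rx.mk (nat_lit 99) (nat_lit 3) (nat_lit 4) (nat_lit 1) (nat_lit 5) (nat_lit 219) (nat_lit 314) r9_219 r6_314 (nat_lit 0) (nat_lit 9484367) (nat_lit 0) (nat_lit 0x1fafd9e3c) (nat_lit 283511073),
  Rx.mk (nat_lit 107) (nat_lit 3) (nat_lit 5) (nat_lit 1) (nat_lit 7) (nat_lit 221) (nat_lit 316) r9_221 r6_316 (nat_lit 0) (nat_lit 0) (nat_lit 0) (nat_lit 0x20056d4f2) (nat_lit 268435456),
  Rx.mk (nat_lit 355) (nat_lit 3) (nat_lit 4) (nat_lit 5) (nat_lit 5) (nat_lit 220) (nat_lit 315) r9_220 r6_315 (nat_lit 0) (nat_lit 10732257) (nat_lit 0) (nat_lit 0x1f762bc30) (nat_lit 288560063),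
  Rx.mk (nat_lit 363) (nat_lit 3) (nat_lit 5) (nat_lit 5) (nat_lit 7) (nat_lit 222) (nat_lit 317) r9_222 r6_317 (nat_lit 0) (nat_lit 0) (nat_lit 0) (nat_lit 0x20056d4f2) (nat_lit 268435456),
  Rx.mk (nat_lit 379) (nat_lit 3) (nat_lit 7) (nat_lit 5) (nat_lit 7) (nat_lit 223) (nat_lit 318) r9_223 r6_318 (nat_lit 0) (nat_lit 0) (nat_lit 0) (nat_lit 0x20056d4f2) (nat_lit 268435456)]
noncomputable def e21_36 : List Rx := [
  Rx.mk (nat_lit 99) (nat_lit 3) (nat_lit 4) (nat_lit 1) (nat_lit 5) (nat_lit 244) (nat_lit 165) r9_244 r12_165 (nat_lit 0) (nat_lit 11069367) (nat_lit 0) (nat_lit 0x1ef76333a) (nat_lit 297276673),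
  Rx.mk (nat_lit 107) (nat_lit 3) (nat_lit 5) (nat_lit 1) (nat_lit 7) (nat_lit 245) (nat_lit 166) r9_245 r12_166 (nat_lit 0) (nat_lit 0) (nat_lit 0) (nat_lit 0x20056d4f2) (nat_lit 268435456),
  Rx.mk (nat_lit 123) (nat_lit 3) (nat_lit 7) (nat_lit 1) (nat_lit 7) (nat_lit 246) (nat_lit 167) r9_246 r12_167 (nat_lit 0) (nat_lit 0) (nat_lit 0) (nat_lit 0x20056d4f2) (nat_lit 268435456),
  Rx.mk (nat_lit 379) (nat_lit 3) (nat_lit 7) (nat_lit 5) (nat_lit 7) (nat_lit 247) (nat_lit 168) r9_247 r12_168 (nat_lit 0) (nat_lit 0) (nat_lit 0) (nat_lit 0x20056d4f2) (nat_lit 268435456)]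
noncomputable def e21_37 : List Rx := [
  Rx.mk (nat_lit 72) (nat_lit 0) (nat_lit 1) (nat_lit 1) (nat_lit 6) (nat_lit 250) (nat_lit 295) r9_250 r0_295 (nat_lit 10061420) (nat_lit 0) (nat_lit 0) (nat_lit 0x1f3c8879e) (nat_lit 291701226),
  Rx.mk (nat_lit 73) (nat_lit 1) (nat_lit 1) (nat_lit 1) (nat_lit 7) (nat_lit 251) (nat_lit 298) r9_251 r0_298 (nat_lit 0) (nat_lit 0) (nat_lit 0) (nat_lit 0x20056d4f2) (nat_lit 268435456),
  Rx.mk (nat_lit 75) (nat_lit 3) (nat_lit 1) (nat_lit 1) (nat_lit 7) (nat_lit 252) (nat_lit 299) r9_252 r0_299 (nat_lit 0) (nat_lit 0) (nat_lit 0) (nat_lit 0x20056d4f2) (nat_lit 268435456),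
  Rx.mk (nat_lit 104) (nat_lit 0) (nat_lit 5) (nat_lit 1) (nat_lit 6) (nat_lit 253) (nat_lit 294) r9_253 r0_294 (nat_lit 11334893) (nat_lit 0) (nat_lit 0) (nat_lit 0x1e2457aea) (nat_lit 311539649),
  Rx.mk (nat_lit 105) (nat_lit 1) (nat_lit 5) (nat_lit 1) (nat_lit 7) (nat_lit 255) (nat_lit 297) r9_255 r0_297 (nat_lit 0) (nat_lit 0) (nat_lit 0) (nat_lit 0x20056d4f2) (nat_lit 268435456),
  Rx.mk (nat_lit 360) (nat_lit 0) (nat_lit 5) (nat_lit 5) (nat_lit 6) (nat_lit 254) (nat_lit 293) r9_254 r0_293 (nat_lit 10725362) (nat_lit 0) (nat_lit 0) (nat_lit 0x1be5b800c) (nat_lit 349044468),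
  Rx.mk (nat_lit 361) (nat_lit 1) (nat_lit 5) (nat_lit 5) (nat_lit 7) (nat_lit 256) (nat_lit 296) r9_256 r0_296 (nat_lit 0) (nat_lit 0) (nat_lit 0) (nat_lit 0x20056d4f2) (nat_lit 268435456)]
noncomputable def e21_38 : List Rx := [
  Rx.mk (nat_lit 105) (nat_lit 1) (nat_lit 5) (nat_lit 1) (nat_lit 7) (nat_lit 248) (nat_lit 291) r9_248 r0_291 (nat_lit 0) (nat_lit 0) (nat_lit 0) (nat_lit 0x20056d4f2) (nat_lit 268435456),
  Rx.mk (nat_lit 361) (nat_lit 1) (nat_lit 5) (nat_lit 5) (nat_lit 7) (nat_lit 249) (nat_lit 292) r9_249 r0_292 (nat_lit 0) (nat_lit 0) (nat_lit 0) (nat_lit 0x20056d4f2) (nat_lit 268435456)]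
noncomputable def e21_39 : List Rx := [
  Rx.mk (nat_lit 73) (nat_lit 1) (nat_lit 1) (nat_lit 1) (nat_lit 7) (nat_lit 257) (nat_lit 411) r9_257 r7_411 (nat_lit 0) (nat_lit 0) (nat_lit 0) (nat_lit 0x20056d4f2) (nat_lit 268435456),
  Rx.mk (nat_lit 105) (nat_lit 1) (nat_lit 5) (nat_lit 1) (nat_lit 7) (nat_lit 258) (nat_lit 410) r9_258 r7_410 (nat_lit 0) (nat_lit 0) (nat_lit 0) (nat_lit 0x20056d4f2) (nat_lit 268435456),
  Rx.mk (nat_lit 361) (nat_lit 1) (nat_lit 5) (nat_lit 5) (nat_lit 7) (nat_lit 259) (nat_lit 409) r9_259 r7_409 (nat_lit 0) (nat_lit 0) (nat_lit 0) (nat_lit 0x20056d4f2) (nat_lit 268435456)]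
noncomputable def e21_40 : List Rx := [
  Rx.mk (nat_lit 365) (nat_lit 5) (nat_lit 5) (nat_lit 5) (nat_lit 7) (nat_lit 293) (nat_lit 315) r9_293 r2_315 (nat_lit 0) (nat_lit 0) (nat_lit 0) (nat_lit 0x20056d4f2) (nat_lit 268435456)]
noncomputable def e21_41 : List Rx := [
  Rx.mk (nat_lit 365) (nat_lit 5) (nat_lit 5) (nat_lit 5) (nat_lit 7) (nat_lit 298) (nat_lit 298) r9_298 r9_298 (nat_lit 0) (nat_lit 0) (nat_lit 0) (nat_lit 0x20056d4f2) (nat_lit 268435456)]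
noncomputable def e21_42 : List Rx := [
  Rx.mk (nat_lit 365) (nat_lit 5) (nat_lit 5) (nat_lit 5) (nat_lit 7) (nat_lit 299) (nat_lit 266) r9_299 r9_266 (nat_lit 0) (nat_lit 0) (nat_lit 0) (nat_lit 0x20056d4f2) (nat_lit 268435456)]
noncomputable def e21_43 : List Rx := [
  Rx.mk (nat_lit 105) (nat_lit 1) (nat_lit 5) (nat_lit 1) (nat_lit 7) (nat_lit 290) (nat_lit 287) r9_290 r1_287 (nat_lit 0) (nat_lit 0) (nat_lit 0) (nat_lit 0x20056d4f2) (nat_lit 268435456),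
  Rx.mk (nat_lit 361) (nat_lit 1) (nat_lit 5) (nat_lit 5) (nat_lit 7) (nat_lit 291) (nat_lit 288) r9_291 r1_288 (nat_lit 0) (nat_lit 0) (nat_lit 0) (nat_lit 0x20056d4f2) (nat_lit 268435456),
  Rx.mk (nat_lit 365) (nat_lit 5) (nat_lit 5) (nat_lit 5) (nat_lit 7) (nat_lit 292) (nat_lit 289) r9_292 r1_289 (nat_lit 0) (nat_lit 0) (nat_lit 0) (nat_lit 0x20056d4f2) (nat_lit 268435456)]
noncomputable def e21_44 : List Rx := [
  Rx.mk (nat_lit 73) (nat_lit 1) (nat_lit 1) (nat_lit 1) (nat_lit 7) (nat_lit 294) (nat_lit 330) r9_294 r8_330 (nat_lit 0) (nat_lit 0) (nat_lit 0) (nat_lit 0x20056d4f2) (nat_lit 268435456),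
  Rx.mk (nat_lit 105) (nat_lit 1) (nat_lit 5) (nat_lit 1) (nat_lit 7) (nat_lit 295) (nat_lit 329) r9_295 r8_329 (nat_lit 0) (nat_lit 0) (nat_lit 0) (nat_lit 0x20056d4f2) (nat_lit 268435456),
  Rx.mk (nat_lit 361) (nat_lit 1) (nat_lit 5) (nat_lit 5) (nat_lit 7) (nat_lit 296) (nat_lit 328) r9_296 r8_328 (nat_lit 0) (nat_lit 0) (nat_lit 0) (nat_lit 0x20056d4f2) (nat_lit 268435456),
  Rx.mk (nat_lit 365) (nat_lit 5) (nat_lit 5) (nat_lit 5) (nat_lit 7) (nat_lit 297) (nat_lit 327) r9_297 r8_327 (nat_lit 0) (nat_lit 0) (nat_lit 0) (nat_lit 0x20056d4f2) (nat_lit 268435456)]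
noncomputable def e21_45 : List Rx := [
  Rx.mk (nat_lit 72) (nat_lit 0) (nat_lit 1) (nat_lit 1) (nat_lit 6) (nat_lit 286) (nat_lit 290) r9_286 r1_290 (nat_lit 9484367) (nat_lit 0) (nat_lit 0) (nat_lit 0x20040cf68) (nat_lit 278009223),
  Rx.mk (nat_lit 73) (nat_lit 1) (nat_lit 1) (nat_lit 1) (nat_lit 7) (nat_lit 287) (nat_lit 291) r9_287 r1_291 (nat_lit 0) (nat_lit 0) (nat_lit 0) (nat_lit 0x20056d4f2) (nat_lit 268435456),
  Rx.mk (nat_lit 75) (nat_lit 3) (nat_lit 1) (nat_lit 1) (nat_lit 7) (nat_lit 288) (nat_lit 292) r9_288 r1_292 (nat_lit 0) (nat_lit 0) (nat_lit 0) (nat_lit 0x20056d4f2) (nat_lit 268435456)]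
noncomputable def e21_46 : List Rx := [
  Rx.mk (nat_lit 64) (nat_lit 0) (nat_lit 0) (nat_lit 1) (nat_lit 4) (nat_lit 260) (nat_lit 316) r9_260 r2_316 (nat_lit 13222408) (nat_lit 14496166) (nat_lit 0) (nat_lit 0x197e2b814) (nat_lit 406887580),
  Rx.mk (nat_lit 67) (nat_lit 3) (nat_lit 0) (nat_lit 1) (nat_lit 5) (nat_lit 261) (nat_lit 319) r9_261 r2_319 (nat_lit 0) (nat_lit 9484367) (nat_lit 0) (nat_lit 0x20056d4f2) (nat_lit 277919823),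
  Rx.mk (nat_lit 72) (nat_lit 0) (nat_lit 1) (nat_lit 1) (nat_lit 6) (nat_lit 262) (nat_lit 317) r9_262 r2_317 (nat_lit 9484367) (nat_lit 0) (nat_lit 0) (nat_lit 0x20056d4f2) (nat_lit 277919823),
  Rx.mk (nat_lit 73) (nat_lit 1) (nat_lit 1) (nat_lit 1) (nat_lit 7) (nat_lit 263) (nat_lit 318) r9_263 r2_318 (nat_lit 0) (nat_lit 0) (nat_lit 0) (nat_lit 0x20056d4f2) (nat_lit 268435456),
  Rx.mk (nat_lit 75) (nat_lit 3) (nat_lit 1) (nat_lit 1) (nat_lit 7) (nat_lit 264) (nat_lit 320) r9_264 r2_320 (nat_lit 0) (nat_lit 0) (nat_lit 0) (nat_lit 0x20056d4f2) (nat_lit 268435456),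
  Rx.mk (nat_lit 91) (nat_lit 3) (nat_lit 3) (nat_lit 1) (nat_lit 7) (nat_lit 265) (nat_lit 321) r9_265 r2_321 (nat_lit 0) (nat_lit 0) (nat_lit 0) (nat_lit 0x20056d4f2) (nat_lit 268435456)]
noncomputable def e21_47 : List Rx := [
  Rx.mk (nat_lit 73) (nat_lit 1) (nat_lit 1) (nat_lit 1) (nat_lit 7) (nat_lit 289) (nat_lit 326) r9_289 r8_326 (nat_lit 0) (nat_lit 0) (nat_lit 0) (nat_lit 0x20056d4f2) (nat_lit 268435456)]
noncomputable def e21_48 : List Rx := [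
  Rx.mk (nat_lit 73) (nat_lit 1) (nat_lit 1) (nat_lit 1) (nat_lit 7) (nat_lit 266) (nat_lit 299) r9_266 r9_299 (nat_lit 0) (nat_lit 0) (nat_lit 0) (nat_lit 0x20056d4f2) (nat_lit 268435456)]
noncomputable def e21_49 : List Rx := [
  Rx.mk (nat_lit 0) (nat_lit 0) (nat_lit 0) (nat_lit 0) (nat_lit 0) (nat_lit 267) (nat_lit 267) r9_267 r9_267 (nat_lit 7719308) (nat_lit 8095583) (nat_lit 8095583) (nat_lit 0xf3675c90) (nat_lit 577723730),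
  Rx.mk (nat_lit 2) (nat_lit 2) (nat_lit 0) (nat_lit 0) (nat_lit 1) (nat_lit 269) (nat_lit 272) r9_269 r9_272 (nat_lit 0) (nat_lit 9751226) (nat_lit 8284631) (nat_lit 0x1c0f8c89c) (nat_lit 353581463),
  Rx.mk (nat_lit 3) (nat_lit 3) (nat_lit 0) (nat_lit 0) (nat_lit 1) (nat_lit 272) (nat_lit 269) r9_272 r9_269 (nat_lit 0) (nat_lit 8284631) (nat_lit 9751226) (nat_lit 0x1c0f8c89c) (nat_lit 353581463),
  Rx.mk (nat_lit 8) (nat_lit 0) (nat_lit 1) (nat_lit 0) (nat_lit 2) (nat_lit 274) (nat_lit 268) r9_274 r9_268 (nat_lit 19531753) (nat_lit 0) (nat_lit 9891858) (nat_lit 0x193b5af9e) (nat_lit 413024717),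
  Rx.mk (nat_lit 10) (nat_lit 2) (nat_lit 1) (nat_lit 0) (nat_lit 3) (nat_lit 277) (nat_lit 273) r9_277 r9_273 (nat_lit 0) (nat_lit 0) (nat_lit 9106489) (nat_lit 0x1ff76e05e) (nat_lit 278452445),
  Rx.mk (nat_lit 11) (nat_lit 3) (nat_lit 1) (nat_lit 0) (nat_lit 3) (nat_lit 280) (nat_lit 270) r9_280 r9_270 (nat_lit 0) (nat_lit 0) (nat_lit 9158274) (nat_lit 0x1ff990562) (nat_lit 278365030),
  Rx.mk (nat_lit 27) (nat_lit 3) (nat_lit 3) (nat_lit 0) (nat_lit 3) (nat_lit 283) (nat_lit 271) r9_283 r9_271 (nat_lit 0) (nat_lit 0) (nat_lit 9150602) (nat_lit 0x1fee017f0) (nat_lit 279107408),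
  Rx.mk (nat_lit 64) (nat_lit 0) (nat_lit 0) (nat_lit 1) (nat_lit 4) (nat_lit 268) (nat_lit 274) r9_268 r9_274 (nat_lit 19531753) (nat_lit 9891858) (nat_lit 0) (nat_lit 0x193b5af9e) (nat_lit 413024717),
  Rx.mk (nat_lit 66) (nat_lit 2) (nat_lit 0) (nat_lit 1) (nat_lit 5) (nat_lit 270) (nat_lit 280) r9_270 r9_280 (nat_lit 0) (nat_lit 9158274) (nat_lit 0) (nat_lit 0x1ff990562) (nat_lit 278365030),
  Rx.mk (nat_lit 67) (nat_lit 3) (nat_lit 0) (nat_lit 1) (nat_lit 5) (nat_lit 273) (nat_lit 277) r9_273 r9_277 (nat_lit 0) (nat_lit 9106489) (nat_lit 0) (nat_lit 0x1ff76e05e) (nat_lit 278452445),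
  Rx.mk (nat_lit 72) (nat_lit 0) (nat_lit 1) (nat_lit 1) (nat_lit 6) (nat_lit 275) (nat_lit 275) r9_275 r9_275 (nat_lit 9484367) (nat_lit 0) (nat_lit 0) (nat_lit 0x20056d4f2) (nat_lit 277919823),
  Rx.mk (nat_lit 73) (nat_lit 1) (nat_lit 1) (nat_lit 1) (nat_lit 7) (nat_lit 276) (nat_lit 276) r9_276 r9_276 (nat_lit 0) (nat_lit 0) (nat_lit 0) (nat_lit 0x20056d4f2) (nat_lit 268435456),
  Rx.mk (nat_lit 74) (nat_lit 2) (nat_lit 1) (nat_lit 1) (nat_lit 7) (nat_lit 278) (nat_lit 281) r9_278 r9_281 (nat_lit 0) (nat_lit 0) (nat_lit 0) (nat_lit 0x20056d4f2) (nat_lit 268435456),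
  Rx.mk (nat_lit 75) (nat_lit 3) (nat_lit 1) (nat_lit 1) (nat_lit 7) (nat_lit 281) (nat_lit 278) r9_281 r9_278 (nat_lit 0) (nat_lit 0) (nat_lit 0) (nat_lit 0x20056d4f2) (nat_lit 268435456),
  Rx.mk (nat_lit 91) (nat_lit 3) (nat_lit 3) (nat_lit 1) (nat_lit 7) (nat_lit 284) (nat_lit 279) r9_284 r9_279 (nat_lit 0) (nat_lit 0) (nat_lit 0) (nat_lit 0x20056d4f2) (nat_lit 268435456),
  Rx.mk (nat_lit 130) (nat_lit 2) (nat_lit 0) (nat_lit 2) (nat_lit 5) (nat_lit 271) (nat_lit 283) r9_271 r9_283 (nat_lit 0) (nat_lit 9150602) (nat_lit 0) (nat_lit 0x1fee017f0) (nat_lit 279107408),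
  Rx.mk (nat_lit 138) (nat_lit 2) (nat_lit 1) (nat_lit 2) (nat_lit 7) (nat_lit 279) (nat_lit 284) r9_279 r9_284 (nat_lit 0) (nat_lit 0) (nat_lit 0) (nat_lit 0x20056d4f2) (nat_lit 268435456),
  Rx.mk (nat_lit 146) (nat_lit 2) (nat_lit 2) (nat_lit 2) (nat_lit 7) (nat_lit 282) (nat_lit 285) r9_282 r9_285 (nat_lit 0) (nat_lit 0) (nat_lit 0) (nat_lit 0x20056d4f2) (nat_lit 268435456),
  Rx.mk (nat_lit 219) (nat_lit 3) (nat_lit 3) (nat_lit 3) (nat_lit 7) (nat_lit 285) (nat_lit 282) r9_285 r9_282 (nat_lit 0) (nat_lit 0) (nat_lit 0) (nat_lit 0x20056d4f2) (nat_lit 268435456)]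
noncomputable def e21_50 : List Rx := [
  Rx.mk (nat_lit 104) (nat_lit 0) (nat_lit 5) (nat_lit 1) (nat_lit 6) (nat_lit 300) (nat_lit 296) r9_300 r3_296 (nat_lit 3934395) (nat_lit 0) (nat_lit 0) (nat_lit 0x1b0908300) (nat_lit 356844751),
  Rx.mk (nat_lit 105) (nat_lit 1) (nat_lit 5) (nat_lit 1) (nat_lit 7) (nat_lit 302) (nat_lit 298) r9_302 r3_298 (nat_lit 0) (nat_lit 0) (nat_lit 0) (nat_lit 0x1f6993bc6) (nat_lit 278654156),
  Rx.mk (nat_lit 107) (nat_lit 3) (nat_lit 5) (nat_lit 1) (nat_lit 7) (nat_lit 304) (nat_lit 299) r9_304 r3_299 (nat_lit 0) (nat_lit 0) (nat_lit 0) (nat_lit 0x1ea8c6498) (nat_lit 291407606),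
  Rx.mk (nat_lit 360) (nat_lit 0) (nat_lit 5) (nat_lit 5) (nat_lit 6) (nat_lit 301) (nat_lit 295) r9_301 r3_295 (nat_lit 2180464) (nat_lit 0) (nat_lit 0) (nat_lit 0x1abe29a28) (nat_lit 360047770),
  Rx.mk (nat_lit 361) (nat_lit 1) (nat_lit 5) (nat_lit 5) (nat_lit 7) (nat_lit 303) (nat_lit 297) r9_303 r3_297 (nat_lit 0) (nat_lit 0) (nat_lit 0) (nat_lit 0x1fa677632) (nat_lit 274633106)]
noncomputable def e21_51 : List Rx := [
  Rx.mk (nat_lit 75) (nat_lit 3) (nat_lit 1) (nat_lit 1) (nat_lit 7) (nat_lit 311) (nat_lit 314) r9_311 r4_314 (nat_lit 0) (nat_lit 0) (nat_lit 0) (nat_lit 0x20056d4f2) (nat_lit 268435456),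
  Rx.mk (nat_lit 104) (nat_lit 0) (nat_lit 5) (nat_lit 1) (nat_lit 6) (nat_lit 312) (nat_lit 310) r9_312 r4_310 (nat_lit 12402929) (nat_lit 0) (nat_lit 0) (nat_lit 0x1fa0379e8) (nat_lit 287453885),
  Rx.mk (nat_lit 105) (nat_lit 1) (nat_lit 5) (nat_lit 1) (nat_lit 7) (nat_lit 314) (nat_lit 312) r9_314 r4_312 (nat_lit 0) (nat_lit 0) (nat_lit 0) (nat_lit 0x20056d4f2) (nat_lit 268435456),
  Rx.mk (nat_lit 107) (nat_lit 3) (nat_lit 5) (nat_lit 1) (nat_lit 7) (nat_lit 316) (nat_lit 313) r9_316 r4_313 (nat_lit 0) (nat_lit 0) (nat_lit 0) (nat_lit 0x20056d4f2) (nat_lit 268435456),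
  Rx.mk (nat_lit 360) (nat_lit 0) (nat_lit 5) (nat_lit 5) (nat_lit 6) (nat_lit 313) (nat_lit 309) r9_313 r4_309 (nat_lit 18508221) (nat_lit 0) (nat_lit 0) (nat_lit 0x1ef01d652) (nat_lit 305203127),
  Rx.mk (nat_lit 361) (nat_lit 1) (nat_lit 5) (nat_lit 5) (nat_lit 7) (nat_lit 315) (nat_lit 311) r9_315 r4_311 (nat_lit 0) (nat_lit 0) (nat_lit 0) (nat_lit 0x20056d4f2) (nat_lit 268435456)]
noncomputable def e21_52 : List Rx := [
  Rx.mk (nat_lit 104) (nat_lit 0) (nat_lit 5) (nat_lit 1) (nat_lit 6) (nat_lit 324) (nat_lit 290) r9_324 r5_290 (nat_lit 9484367) (nat_lit 0) (nat_lit 0) (nat_lit 0x20056d4f2) (nat_lit 277919823),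
  Rx.mk (nat_lit 105) (nat_lit 1) (nat_lit 5) (nat_lit 1) (nat_lit 7) (nat_lit 325) (nat_lit 291) r9_325 r5_291 (nat_lit 0) (nat_lit 0) (nat_lit 0) (nat_lit 0x20056d4f2) (nat_lit 268435456),
  Rx.mk (nat_lit 107) (nat_lit 3) (nat_lit 5) (nat_lit 1) (nat_lit 7) (nat_lit 326) (nat_lit 292) r9_326 r5_292 (nat_lit 0) (nat_lit 0) (nat_lit 0) (nat_lit 0x20056d4f2) (nat_lit 268435456)]
noncomputable def e21_53 : List Rx := [
  Rx.mk (nat_lit 105) (nat_lit 1) (nat_lit 5) (nat_lit 1) (nat_lit 7) (nat_lit 305) (nat_lit 307) r9_305 r4_307 (nat_lit 0) (nat_lit 0) (nat_lit 0) (nat_lit 0x20056d4f2) (nat_lit 268435456),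
  Rx.mk (nat_lit 361) (nat_lit 1) (nat_lit 5) (nat_lit 5) (nat_lit 7) (nat_lit 306) (nat_lit 308) r9_306 r4_308 (nat_lit 0) (nat_lit 0) (nat_lit 0) (nat_lit 0x20056d4f2) (nat_lit 268435456)]
noncomputable def e21_54 : List Rx := [
  Rx.mk (nat_lit 105) (nat_lit 1) (nat_lit 5) (nat_lit 1) (nat_lit 7) (nat_lit 317) (nat_lit 332) r9_317 r10_332 (nat_lit 0) (nat_lit 0) (nat_lit 0) (nat_lit 0x20056d4f2) (nat_lit 268435456),
  Rx.mk (nat_lit 361) (nat_lit 1) (nat_lit 5) (nat_lit 5) (nat_lit 7) (nat_lit 318) (nat_lit 331) r9_318 r10_331 (nat_lit 0) (nat_lit 0) (nat_lit 0) (nat_lit 0x20056d4f2) (nat_lit 268435456)]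
noncomputable def e21_55 : List Rx := [
  Rx.mk (nat_lit 105) (nat_lit 1) (nat_lit 5) (nat_lit 1) (nat_lit 7) (nat_lit 327) (nat_lit 350) r9_327 r11_350 (nat_lit 0) (nat_lit 0) (nat_lit 0) (nat_lit 0x20056d4f2) (nat_lit 268435456)]
noncomputable def e21_56 : List Rx := [
  Rx.mk (nat_lit 107) (nat_lit 3) (nat_lit 5) (nat_lit 1) (nat_lit 7) (nat_lit 309) (nat_lit 286) r9_309 r5_286 (nat_lit 0) (nat_lit 0) (nat_lit 0) (nat_lit 0x20056d4f2) (nat_lit 268435456),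
  Rx.mk (nat_lit 360) (nat_lit 0) (nat_lit 5) (nat_lit 5) (nat_lit 6) (nat_lit 307) (nat_lit 287) r9_307 r5_287 (nat_lit 26900729) (nat_lit 0) (nat_lit 0) (nat_lit 0x1c0eabcac) (nat_lit 362504735),
  Rx.mk (nat_lit 361) (nat_lit 1) (nat_lit 5) (nat_lit 5) (nat_lit 7) (nat_lit 308) (nat_lit 288) r9_308 r5_288 (nat_lit 0) (nat_lit 0) (nat_lit 0) (nat_lit 0x20056d4f2) (nat_lit 268435456),
  Rx.mk (nat_lit 363) (nat_lit 3) (nat_lit 5) (nat_lit 5) (nat_lit 7) (nat_lit 310) (nat_lit 289) r9_310 r5_289 (nat_lit 0) (nat_lit 0) (nat_lit 0) (nat_lit 0x20056d4f2) (nat_lit 268435456)]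
noncomputable def e21_57 : List Rx := [
  Rx.mk (nat_lit 75) (nat_lit 3) (nat_lit 1) (nat_lit 1) (nat_lit 7) (nat_lit 319) (nat_lit 345) r9_319 r11_345 (nat_lit 0) (nat_lit 0) (nat_lit 0) (nat_lit 0x20056d4f2) (nat_lit 268435456),
  Rx.mk (nat_lit 107) (nat_lit 3) (nat_lit 5) (nat_lit 1) (nat_lit 7) (nat_lit 322) (nat_lit 346) r9_322 r11_346 (nat_lit 0) (nat_lit 0) (nat_lit 0) (nat_lit 0x20056d4f2) (nat_lit 268435456),
  Rx.mk (nat_lit 360) (nat_lit 0) (nat_lit 5) (nat_lit 5) (nat_lit 6) (nat_lit 320) (nat_lit 347) r9_320 r11_347 (nat_lit 15744812) (nat_lit 0) (nat_lit 0) (nat_lit 0x1f37b9100) (nat_lit 297678618),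
  Rx.mk (nat_lit 361) (nat_lit 1) (nat_lit 5) (nat_lit 5) (nat_lit 7) (nat_lit 321) (nat_lit 348) r9_321 r11_348 (nat_lit 0) (nat_lit 0) (nat_lit 0) (nat_lit 0x20056d4f2) (nat_lit 268435456),
  Rx.mk (nat_lit 363) (nat_lit 3) (nat_lit 5) (nat_lit 5) (nat_lit 7) (nat_lit 323) (nat_lit 349) r9_323 r11_349 (nat_lit 0) (nat_lit 0) (nat_lit 0) (nat_lit 0x20056d4f2) (nat_lit 268435456)]
noncomputable def e21 : List (List Rx) := [e21_0, e21_1, e21_2, e21_3, e21_4, e21_5, e21_6, e21_7, e21_8, e21_9, e21_10, e21_11, e21_12, e21_13, e21_14, e21_15, e21_16, e21_17, e21_18, e21_19, e21_20, e21_21, e21_22, e21_23, e21_24, e21_25, e21_26, e21_27, e21_28, e21_29, e21_30, e21_31, e21_32, e21_33, e21_34, e21_35, e21_36, e21_37, e21_38, e21_39, e21_40, e21_41, e21_42, e21_43, e21_44, e21_45, e21_46, e21_47, e21_48, e21_49, e21_50, e21_51, e21_52, e21_53, e21_54, e21_55, e21_56,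 e21_57]
noncomputable def e22_0 : List Rx := [
  Rx.mk (nat_lit 100) (nat_lit 4) (nat_lit 4) (nat_lit 1) (nat_lit 4) (nat_lit 248) (nat_lit 171) r0_248 r0_171 (nat_lit 205064910) (nat_lit 748) (nat_lit 0) (nat_lit 0x200021610) (nat_lit 473493114),
  Rx.mk (nat_lit 108) (nat_lit 4) (nat_lit 5) (nat_lit 1) (nat_lit 6) (nat_lit 249) (nat_lit 172) r0_249 r0_172 (nat_lit 120058012) (nat_lit 0) (nat_lit 0) (nat_lit 0x1f4928120) (nat_lit 400822818)]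
noncomputable def e22_1 : List Rx := [
  Rx.mk (nat_lit 100) (nat_lit 4) (nat_lit 4) (nat_lit 1) (nat_lit 4) (nat_lit 269) (nat_lit 179) r0_269 r1_179 (nat_lit 224842397) (nat_lit 6663) (nat_lit 0) (nat_lit 0x203c84418) (nat_lit 489417766),
  Rx.mk (nat_lit 108) (nat_lit 4) (nat_lit 5) (nat_lit 1) (nat_lit 6) (nat_lit 270) (nat_lit 181) r0_270 r1_181 (nat_lit 31547541) (nat_lit 0) (nat_lit 0) (nat_lit 0x20169be36) (nat_lit 298828947),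
  Rx.mk (nat_lit 356) (nat_lit 4) (nat_lit 4) (nat_lit 5) (nat_lit 4) (nat_lit 265) (nat_lit 180) r0_265 r1_180 (nat_lit 27431001) (nat_lit 2915443) (nat_lit 0) (nat_lit 0x1aee862ac) (nat_lit 385035350),
  Rx.mk (nat_lit 364) (nat_lit 4) (nat_lit 5) (nat_lit 5) (nat_lit 6) (nat_lit 266) (nat_lit 182) r0_266 r1_182 (nat_lit 13498567) (nat_lit 0) (nat_lit 0) (nat_lit 0x1febef980) (nat_lit 283586673),
  Rx.mk (nat_lit 372) (nat_lit 4) (nat_lit 6) (nat_lit 5) (nat_lit 6) (nat_lit 267) (nat_lit 183) r0_267 r1_183 (nat_lit 116538040) (nat_lit 0) (nat_lit 0) (nat_lit 0x22883d93e) (nat_lit 343677296),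
  Rx.mk (nat_lit 374) (nat_lit 6) (nat_lit 6) (nat_lit 5) (nat_lit 7) (nat_lit 268) (nat_lit 184) r0_268 r1_184 (nat_lit 0) (nat_lit 0) (nat_lit 0) (nat_lit 0x202a9392a) (nat_lit 265996306)]
noncomputable def e22_2 : List Rx := [
  Rx.mk (nat_lit 356) (nat_lit 4) (nat_lit 4) (nat_lit 5) (nat_lit 4) (nat_lit 254) (nat_lit 180) r0_254 r2_180 (nat_lit 23860633) (nat_lit 7936988) (nat_lit 0) (nat_lit 0x160a0e9fc) (nat_lit 469629927),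
  Rx.mk (nat_lit 372) (nat_lit 4) (nat_lit 6) (nat_lit 5) (nat_lit 6) (nat_lit 255) (nat_lit 181) r0_255 r2_181 (nat_lit 24694302) (nat_lit 0) (nat_lit 0) (nat_lit 0x1f1cd48f8) (nat_lit 308430658),
  Rx.mk (nat_lit 374) (nat_lit 6) (nat_lit 6) (nat_lit 5) (nat_lit 7) (nat_lit 256) (nat_lit 182) r0_256 r2_182 (nat_lit 0) (nat_lit 0) (nat_lit 0) (nat_lit 0x20056d4f2) (nat_lit 268435456)]
noncomputable def e22_3 : List Rx := [
  Rx.mk (nat_lit 44) (nat_lit 4) (nat_lit 5) (nat_lit 0) (nat_lit 2) (nat_lit 300) (nat_lit 146) r0_300 r3_146 (nat_lit 142) (nat_lit 0) (nat_lit 304) (nat_lit 0x20000c530) (nat_lit 268432952),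
  Rx.mk (nat_lit 47) (nat_lit 7) (nat_lit 5) (nat_lit 0) (nat_lit 3) (nat_lit 301) (nat_lit 149) r0_301 r3_149 (nat_lit 0) (nat_lit 0) (nat_lit 44942) (nat_lit 0x1f4ac648c) (nat_lit 280510798),
  Rx.mk (nat_lit 100) (nat_lit 4) (nat_lit 4) (nat_lit 1) (nat_lit 4) (nat_lit 302) (nat_lit 145) r0_302 r3_145 (nat_lit 825) (nat_lit 404) (nat_lit 0) (nat_lit 0x1e41714e6) (nat_lit 298072835),
  Rx.mk (nat_lit 103) (nat_lit 7) (nat_lit 4) (nat_lit 1) (nat_lit 5) (nat_lit 304) (nat_lit 148) r0_304 r3_148 (nat_lit 0) (nat_lit 655885) (nat_lit 0) (nat_lit 0x1e5b1fe06) (nat_lit 297129541),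
  Rx.mk (nat_lit 108) (nat_lit 4) (nat_lit 5) (nat_lit 1) (nat_lit 6) (nat_lit 303) (nat_lit 147) r0_303 r3_147 (nat_lit 490321) (nat_lit 0) (nat_lit 0) (nat_lit 0x1f1f55190) (nat_lit 283872577),
  Rx.mk (nat_lit 111) (nat_lit 7) (nat_lit 5) (nat_lit 1) (nat_lit 7) (nat_lit 305) (nat_lit 150) r0_305 r3_150 (nat_lit 0) (nat_lit 0) (nat_lit 0) (nat_lit 0x21de14764) (nat_lit 238010106)]
noncomputable def e22_4 : List Rx := [
  Rx.mk (nat_lit 100) (nat_lit 4) (nat_lit 4) (nat_lit 1) (nat_lit 4) (nat_lit 318) (nat_lit 155) r0_318 r4_155 (nat_lit 45897877) (nat_lit 682361) (nat_lit 0) (nat_lit 0x1ac82f784) (nat_lit 403756194),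
  Rx.mk (nat_lit 103) (nat_lit 7) (nat_lit 4) (nat_lit 1) (nat_lit 5) (nat_lit 320) (nat_lit 157) r0_320 r4_157 (nat_lit 0) (nat_lit 3950502) (nat_lit 0) (nat_lit 0x1d80f113a) (nat_lit 314972808),
  Rx.mk (nat_lit 108) (nat_lit 4) (nat_lit 5) (nat_lit 1) (nat_lit 6) (nat_lit 319) (nat_lit 156) r0_319 r4_156 (nat_lit 7646795) (nat_lit 0) (nat_lit 0) (nat_lit 0x1fdee8e30) (nat_lit 278562101),
  Rx.mk (nat_lit 111) (nat_lit 7) (nat_lit 5) (nat_lit 1) (nat_lit 7) (nat_lit 321) (nat_lit 158) r0_321 r4_158 (nat_lit 0) (nat_lit 0) (nat_lit 0) (nat_lit 0x20aa8325c) (nat_lit 257764206)]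
noncomputable def e22_5 : List Rx := [
  Rx.mk (nat_lit 36) (nat_lit 4) (nat_lit 4) (nat_lit 0) (nat_lit 0) (nat_lit 330) (nat_lit 152) r0_330 r5_152 (nat_lit 69835031) (nat_lit 473) (nat_lit 439) (nat_lit 0x200002fd0) (nat_lit 338270949),
  Rx.mk (nat_lit 39) (nat_lit 7) (nat_lit 4) (nat_lit 0) (nat_lit 1) (nat_lit 332) (nat_lit 158) r0_332 r5_158 (nat_lit 0) (nat_lit 2817616) (nat_lit 3538416) (nat_lit 0x1c2323356) (nat_lit 340567738),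
  Rx.mk (nat_lit 44) (nat_lit 4) (nat_lit 5) (nat_lit 0) (nat_lit 2) (nat_lit 331) (nat_lit 155) r0_331 r5_155 (nat_lit 3310166) (nat_lit 0) (nat_lit 4486587) (nat_lit 0x1fc554a14) (nat_lit 280349959),
  Rx.mk (nat_lit 47) (nat_lit 7) (nat_lit 5) (nat_lit 0) (nat_lit 3) (nat_lit 333) (nat_lit 160) r0_333 r5_160 (nat_lit 0) (nat_lit 0) (nat_lit 5672723) (nat_lit 0x202926948) (nat_lit 271746229),
  Rx.mk (nat_lit 63) (nat_lit 7) (nat_lit 7) (nat_lit 0) (nat_lit 3) (nat_lit 334) (nat_lit 162) r0_334 r5_162 (nat_lit 0) (nat_lit 0) (nat_lit 7216955) (nat_lit 0x1d79975a6) (nat_lit 318736661),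
  Rx.mk (nat_lit 100) (nat_lit 4) (nat_lit 4) (nat_lit 1) (nat_lit 4) (nat_lit 335) (nat_lit 153) r0_335 r5_153 (nat_lit 34829005) (nat_lit 4373304) (nat_lit 0) (nat_lit 0x1d3bf12ec) (nat_lit 354784215),
  Rx.mk (nat_lit 103) (nat_lit 7) (nat_lit 4) (nat_lit 1) (nat_lit 5) (nat_lit 337) (nat_lit 159) r0_337 r5_159 (nat_lit 0) (nat_lit 4420229) (nat_lit 0) (nat_lit 0x1f9a9dc12) (nat_lit 279829885),
  Rx.mk (nat_lit 108) (nat_lit 4) (nat_lit 5) (nat_lit 1) (nat_lit 6) (nat_lit 336) (nat_lit 156) r0_336 r5_156 (nat_lit 10297258) (nat_lit 0) (nat_lit 0) (nat_lit 0x1fb3eae4a) (nat_lit 284055964),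
  Rx.mk (nat_lit 111) (nat_lit 7) (nat_lit 5) (nat_lit 1) (nat_lit 7) (nat_lit 338) (nat_lit 161) r0_338 r5_161 (nat_lit 0) (nat_lit 0) (nat_lit 0) (nat_lit 0x201dc6788) (nat_lit 266850056),
  Rx.mk (nat_lit 127) (nat_lit 7) (nat_lit 7) (nat_lit 1) (nat_lit 7) (nat_lit 339) (nat_lit 163) r0_339 r5_163 (nat_lit 0) (nat_lit 0) (nat_lit 0) (nat_lit 0x203fca38e) (nat_lit 264643506),
  Rx.mk (nat_lit 228) (nat_lit 4) (nat_lit 4) (nat_lit 3) (nat_lit 4) (nat_lit 340) (nat_lit 154) r0_340 r5_154 (nat_lit 14285582) (nat_lit 530811) (nat_lit 0) (nat_lit 0x1fcf982be) (nat_lit 286596799),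
  Rx.mk (nat_lit 236) (nat_lit 4) (nat_lit 5) (nat_lit 3) (nat_lit 6) (nat_lit 341) (nat_lit 157) r0_341 r5_157 (nat_lit 1426242) (nat_lit 0) (nat_lit 0) (nat_lit 0x1f874fb24) (nat_lit 278037498)]
noncomputable def e22_6 : List Rx := [
  Rx.mk (nat_lit 59) (nat_lit 3) (nat_lit 7) (nat_lit 0) (nat_lit 3) (nat_lit 48) (nat_lit 95) r0_48 r3_95 (nat_lit 0) (nat_lit 0) (nat_lit 3060) (nat_lit 0x1ffe47150) (nat_lit 268554166),
  Rx.mk (nat_lit 231) (nat_lit 7) (nat_lit 4) (nat_lit 3) (nat_lit 5) (nat_lit 49) (nat_lit 93) r0_49 r3_93 (nat_lit 0) (nat_lit 2053) (nat_lit 0) (nat_lit 0x1fff1523a) (nat_lit 268499659),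
  Rx.mk (nat_lit 251) (nat_lit 3) (nat_lit 7) (nat_lit 3) (nat_lit 7) (nat_lit 51) (nat_lit 96) r0_51 r3_96 (nat_lit 0) (nat_lit 0) (nat_lit 0) (nat_lit 0x1f48084e8) (nat_lit 280847656),
  Rx.mk (nat_lit 255) (nat_lit 7) (nat_lit 7) (nat_lit 3) (nat_lit 7) (nat_lit 50) (nat_lit 94) r0_50 r3_94 (nat_lit 0) (nat_lit 0) (nat_lit 0) (nat_lit 0x2006da4f2) (nat_lit 268322256),
  Rx.mk (nat_lit 484) (nat_lit 4) (nat_lit 4) (nat_lit 7) (nat_lit 4) (nat_lit 43) (nat_lit 91) r0_43 r3_91 (nat_lit 237) (nat_lit 74) (nat_lit 0) (nat_lit 0x2052170be) (nat_lit 263187217),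
  Rx.mk (nat_lit 487) (nat_lit 7) (nat_lit 4) (nat_lit 7) (nat_lit 5) (nat_lit 46) (nat_lit 92) r0_46 r3_92 (nat_lit 0) (nat_lit 221533) (nat_lit 0) (nat_lit 0x1f6467e9a) (nat_lit 279046389),
  Rx.mk (nat_lit 500) (nat_lit 4) (nat_lit 6) (nat_lit 7) (nat_lit 6) (nat_lit 44) (nat_lit 97) r0_44 r3_97 (nat_lit 41515) (nat_lit 0) (nat_lit 0) (nat_lit 0x1d3411838) (nat_lit 315993021),
  Rx.mk (nat_lit 502) (nat_lit 6) (nat_lit 6) (nat_lit 7) (nat_lit 7) (nat_lit 45) (nat_lit 99) r0_45 r3_99 (nat_lit 0) (nat_lit 0) (nat_lit 0) (nat_lit 0x1f5a47708) (nat_lit 279658856),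
  Rx.mk (nat_lit 503) (nat_lit 7) (nat_lit 6) (nat_lit 7) (nat_lit 7) (nat_lit 47) (nat_lit 98) r0_47 r3_98 (nat_lit 0) (nat_lit 0) (nat_lit 0) (nat_lit 0x20628cae8) (nat_lit 262391206)]
noncomputable def e22_7 : List Rx := [
  Rx.mk (nat_lit 308) (nat_lit 4) (nat_lit 6) (nat_lit 4) (nat_lit 2) (nat_lit 91) (nat_lit 94) r0_91 r0_94 (nat_lit 60842100) (nat_lit 0) (nat_lit 1628884) (nat_lit 0x1ac63eefc) (nat_lit 419815890),
  Rx.mk (nat_lit 310) (nat_lit 6) (nat_lit 6) (nat_lit 4) (nat_lit 3) (nat_lit 92) (nat_lit 97) r0_92 r0_97 (nat_lit 0) (nat_lit 0) (nat_lit 9463670) (nat_lit 0x1b81c5de2) (nat_lit 354415976),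
  Rx.mk (nat_lit 438) (nat_lit 6) (nat_lit 6) (nat_lit 6) (nat_lit 7) (nat_lit 93) (nat_lit 99) r0_93 r0_99 (nat_lit 0) (nat_lit 0) (nat_lit 0) (nat_lit 0x1fdac48ea) (nat_lit 271218956),
  Rx.mk (nat_lit 484) (nat_lit 4) (nat_lit 4) (nat_lit 7) (nat_lit 4) (nat_lit 94) (nat_lit 91) r0_94 r0_91 (nat_lit 60842100) (nat_lit 1628884) (nat_lit 0) (nat_lit 0x1ac63eefc) (nat_lit 419815890),
  Rx.mk (nat_lit 487) (nat_lit 7) (nat_lit 4) (nat_lit 7) (nat_lit 5) (nat_lit 97) (nat_lit 92) r0_97 r0_92 (nat_lit 0) (nat_lit 9463670) (nat_lit 0) (nat_lit 0x1b81c5de2) (nat_lit 354415976),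
  Rx.mk (nat_lit 500) (nat_lit 4) (nat_lit 6) (nat_lit 7) (nat_lit 6) (nat_lit 95) (nat_lit 95) r0_95 r0_95 (nat_lit 45985386) (nat_lit 0) (nat_lit 0) (nat_lit 0x204996d54) (nat_lit 309979092),
  Rx.mk (nat_lit 502) (nat_lit 6) (nat_lit 6) (nat_lit 7) (nat_lit 7) (nat_lit 96) (nat_lit 98) r0_96 r0_98 (nat_lit 0) (nat_lit 0) (nat_lit 0) (nat_lit 0x20167bdc0) (nat_lit 267324756),
  Rx.mk (nat_lit 503) (nat_lit 7) (nat_lit 6) (nat_lit 7) (nat_lit 7) (nat_lit 98) (nat_lit 96) r0_98 r0_96 (nat_lit 0) (nat_lit 0) (nat_lit 0) (nat_lit 0x20167bdc0) (nat_lit 267324756),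
  Rx.mk (nat_lit 511) (nat_lit 7) (nat_lit 7) (nat_lit 7) (nat_lit 7) (nat_lit 99) (nat_lit 93) r0_99 r0_93 (nat_lit 0) (nat_lit 0) (nat_lit 0) (nat_lit 0x1fdac48ea) (nat_lit 271218956)]
noncomputable def e22_8 : List Rx := [
  Rx.mk (nat_lit 292) (nat_lit 4) (nat_lit 4) (nat_lit 4) (nat_lit 0) (nat_lit 111) (nat_lit 94) r0_111 r1_94 (nat_lit 71503781) (nat_lit 1151) (nat_lit 1132) (nat_lit 0x1ffffcd4c) (nat_lit 339943120),
  Rx.mk (nat_lit 308) (nat_lit 4) (nat_lit 6) (nat_lit 4) (nat_lit 2) (nat_lit 112) (nat_lit 99) r0_112 r1_99 (nat_lit 34468149) (nat_lit 0) (nat_lit 3336276) (nat_lit 0x1d1651a5a) (nat_lit 355883931),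
  Rx.mk (nat_lit 310) (nat_lit 6) (nat_lit 6) (nat_lit 4) (nat_lit 3) (nat_lit 113) (nat_lit 103) r0_113 r1_103 (nat_lit 0) (nat_lit 0) (nat_lit 7095785) (nat_lit 0x1f099b1ce) (nat_lit 292101241),
  Rx.mk (nat_lit 356) (nat_lit 4) (nat_lit 4) (nat_lit 5) (nat_lit 4) (nat_lit 114) (nat_lit 95) r0_114 r1_95 (nat_lit 104667208) (nat_lit 4173814) (nat_lit 0) (nat_lit 0x200e73d6c) (nat_lit 376678078),
  Rx.mk (nat_lit 372) (nat_lit 4) (nat_lit 6) (nat_lit 5) (nat_lit 6) (nat_lit 115) (nat_lit 100) r0_115 r1_100 (nat_lit 13267100) (nat_lit 0) (nat_lit 0) (nat_lit 0x1fdaa1d54) (nat_lit 284493406),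
  Rx.mk (nat_lit 374) (nat_lit 6) (nat_lit 6) (nat_lit 5) (nat_lit 7) (nat_lit 116) (nat_lit 104) r0_116 r1_104 (nat_lit 0) (nat_lit 0) (nat_lit 0) (nat_lit 0x20056d4f2) (nat_lit 268435456),
  Rx.mk (nat_lit 438) (nat_lit 6) (nat_lit 6) (nat_lit 6) (nat_lit 7) (nat_lit 117) (nat_lit 106) r0_117 r1_106 (nat_lit 0) (nat_lit 0) (nat_lit 0) (nat_lit 0x20056d4f2) (nat_lit 268435456),
  Rx.mk (nat_lit 484) (nat_lit 4) (nat_lit 4) (nat_lit 7) (nat_lit 4) (nat_lit 118) (nat_lit 96) r0_118 r1_96 (nat_lit 56350289) (nat_lit 10218001) (nat_lit 0) (nat_lit 0x1f745a79e) (nat_lit 344506196),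
  Rx.mk (nat_lit 487) (nat_lit 7) (nat_lit 4) (nat_lit 7) (nat_lit 5) (nat_lit 121) (nat_lit 97) r0_121 r1_97 (nat_lit 0) (nat_lit 7542287) (nat_lit 0) (nat_lit 0x201cafd36) (nat_lit 274462593),
  Rx.mk (nat_lit 500) (nat_lit 4) (nat_lit 6) (nat_lit 7) (nat_lit 6) (nat_lit 119) (nat_lit 101) r0_119 r1_101 (nat_lit 11841269) (nat_lit 0) (nat_lit 0) (nat_lit 0x20e29fb5e) (nat_lit 266000725),
  Rx.mk (nat_lit 502) (nat_lit 6) (nat_lit 6) (nat_lit 7) (nat_lit 7) (nat_lit 120) (nat_lit 105) r0_120 r1_105 (nat_lit 0) (nat_lit 0) (nat_lit 0) (nat_lit 0x20056d4f2) (nat_lit 268435456),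
  Rx.mk (nat_lit 503) (nat_lit 7) (nat_lit 6) (nat_lit 7) (nat_lit 7) (nat_lit 122) (nat_lit 102) r0_122 r1_102 (nat_lit 0) (nat_lit 0) (nat_lit 0) (nat_lit 0x20056d4f2) (nat_lit 268435456),
  Rx.mk (nat_lit 511) (nat_lit 7) (nat_lit 7) (nat_lit 7) (nat_lit 7) (nat_lit 123) (nat_lit 98) r0_123 r1_98 (nat_lit 0) (nat_lit 0) (nat_lit 0) (nat_lit 0x20056d4f2) (nat_lit 268435456)]
noncomputable def e22_9 : List Rx := [
  Rx.mk (nat_lit 484) (nat_lit 4) (nat_lit 4) (nat_lit 7) (nat_lit 4) (nat_lit 142) (nat_lit 93) r0_142 r4_93 (nat_lit 52596454) (nat_lit 59176) (nat_lit 0) (nat_lit 0x18b3f3b46) (nat_lit 445081686),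
  Rx.mk (nat_lit 487) (nat_lit 7) (nat_lit 4) (nat_lit 7) (nat_lit 5) (nat_lit 145) (nat_lit 94) r0_145 r4_94 (nat_lit 0) (nat_lit 5249002) (nat_lit 0) (nat_lit 0x1fa57fb76) (nat_lit 279949358),
  Rx.mk (nat_lit 500) (nat_lit 4) (nat_lit 6) (nat_lit 7) (nat_lit 6) (nat_lit 143) (nat_lit 95) r0_143 r4_95 (nat_lit 33826584) (nat_lit 0) (nat_lit 0) (nat_lit 0x20ad33e2a) (nat_lit 291385790),
  Rx.mk (nat_lit 502) (nat_lit 6) (nat_lit 6) (nat_lit 7) (nat_lit 7) (nat_lit 144) (nat_lit 97) r0_144 r4_97 (nat_lit 0) (nat_lit 0) (nat_lit 0) (nat_lit 0x202be8910) (nat_lit 265932556),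
  Rx.mk (nat_lit 503) (nat_lit 7) (nat_lit 6) (nat_lit 7) (nat_lit 7) (nat_lit 146) (nat_lit 96) r0_146 r4_96 (nat_lit 0) (nat_lit 0) (nat_lit 0) (nat_lit 0x20711b0e6) (nat_lit 261457706)]
noncomputable def e22_10 : List Rx := [
  Rx.mk (nat_lit 39) (nat_lit 7) (nat_lit 4) (nat_lit 0) (nat_lit 1) (nat_lit 228) (nat_lit 173) r0_228 r6_173 (nat_lit 0) (nat_lit 16044) (nat_lit 15494) (nat_lit 0x1b76dfdd8) (nat_lit 345529294),
  Rx.mk (nat_lit 47) (nat_lit 7) (nat_lit 5) (nat_lit 0) (nat_lit 3) (nat_lit 229) (nat_lit 175) r0_229 r6_175 (nat_lit 0) (nat_lit 0) (nat_lit 976590) (nat_lit 0x234d34814) (nat_lit 215456696),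
  Rx.mk (nat_lit 59) (nat_lit 3) (nat_lit 7) (nat_lit 0) (nat_lit 3) (nat_lit 231) (nat_lit 170) r0_231 r6_170 (nat_lit 0) (nat_lit 0) (nat_lit 2529310) (nat_lit 0x1e4d6bdfa) (nat_lit 299976366),
  Rx.mk (nat_lit 63) (nat_lit 7) (nat_lit 7) (nat_lit 0) (nat_lit 3) (nat_lit 230) (nat_lit 177) r0_230 r6_177 (nat_lit 0) (nat_lit 0) (nat_lit 3977399) (nat_lit 0x1d9bca592) (nat_lit 313213855),
  Rx.mk (nat_lit 228) (nat_lit 4) (nat_lit 4) (nat_lit 3) (nat_lit 4) (nat_lit 232) (nat_lit 171) r0_232 r6_171 (nat_lit 60415) (nat_lit 38610) (nat_lit 0) (nat_lit 0x1ce8ca2c6) (nat_lit 321056381),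
  Rx.mk (nat_lit 231) (nat_lit 7) (nat_lit 4) (nat_lit 3) (nat_lit 5) (nat_lit 234) (nat_lit 174) r0_234 r6_174 (nat_lit 0) (nat_lit 2963373) (nat_lit 0) (nat_lit 0x207a0588c) (nat_lit 263834079),
  Rx.mk (nat_lit 236) (nat_lit 4) (nat_lit 5) (nat_lit 3) (nat_lit 6) (nat_lit 233) (nat_lit 172) r0_233 r6_172 (nat_lit 131306) (nat_lit 0) (nat_lit 0) (nat_lit 0x22f04eb90) (nat_lit 220495462),
  Rx.mk (nat_lit 239) (nat_lit 7) (nat_lit 5) (nat_lit 3) (nat_lit 7) (nat_lit 235) (nat_lit 176) r0_235 r6_176 (nat_lit 0) (nat_lit 0) (nat_lit 0) (nat_lit 0x2506d06b4) (nat_lit 186321856)]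
noncomputable def e22_11 : List Rx := [
  Rx.mk (nat_lit 59) (nat_lit 3) (nat_lit 7) (nat_lit 0) (nat_lit 3) (nat_lit 208) (nat_lit 99) r0_208 r5_99 (nat_lit 0) (nat_lit 0) (nat_lit 4120485) (nat_lit 0x1d90add30) (nat_lit 314093041),
  Rx.mk (nat_lit 63) (nat_lit 7) (nat_lit 7) (nat_lit 0) (nat_lit 3) (nat_lit 207) (nat_lit 97) r0_207 r5_97 (nat_lit 0) (nat_lit 0) (nat_lit 3102681) (nat_lit 0x1aefd6c10) (nat_lit 357710387),
  Rx.mk (nat_lit 228) (nat_lit 4) (nat_lit 4) (nat_lit 3) (nat_lit 4) (nat_lit 209) (nat_lit 95) r0_209 r5_95 (nat_lit 2742) (nat_lit 2166) (nat_lit 0) (nat_lit 0x1ffe6a894) (nat_lit 268546314),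
  Rx.mk (nat_lit 231) (nat_lit 7) (nat_lit 4) (nat_lit 3) (nat_lit 5) (nat_lit 210) (nat_lit 96) r0_210 r5_96 (nat_lit 0) (nat_lit 1935890) (nat_lit 0) (nat_lit 0x20e2c5174) (nat_lit 256065246),
  Rx.mk (nat_lit 255) (nat_lit 7) (nat_lit 7) (nat_lit 3) (nat_lit 7) (nat_lit 211) (nat_lit 98) r0_211 r5_98 (nat_lit 0) (nat_lit 0) (nat_lit 0) (nat_lit 0x205a0ba36) (nat_lit 262948156),
  Rx.mk (nat_lit 484) (nat_lit 4) (nat_lit 4) (nat_lit 7) (nat_lit 4) (nat_lit 204) (nat_lit 94) r0_204 r5_94 (nat_lit 4376312) (nat_lit 68266) (nat_lit 0) (nat_lit 0x2011af8e6) (nat_lit 271776584),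
  Rx.mk (nat_lit 500) (nat_lit 4) (nat_lit 6) (nat_lit 7) (nat_lit 6) (nat_lit 205) (nat_lit 100) r0_205 r5_100 (nat_lit 51585995) (nat_lit 0) (nat_lit 0) (nat_lit 0x1f40b1c8a) (nat_lit 332930751),
  Rx.mk (nat_lit 502) (nat_lit 6) (nat_lit 6) (nat_lit 7) (nat_lit 7) (nat_lit 206) (nat_lit 101) r0_206 r5_101 (nat_lit 0) (nat_lit 0) (nat_lit 0) (nat_lit 0x1fbe83a50) (nat_lit 273060756)]
noncomputable def e22_12 : List Rx := [
  Rx.mk (nat_lit 45) (nat_lit 5) (nat_lit 5) (nat_lit 0) (nat_lit 3) (nat_lit 243) (nat_lit 243) r0_243 r0_243 (nat_lit 0) (nat_lit 0) (nat_lit 153426111) (nat_lit 0x203cc5ea4) (nat_lit 417977017),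
  Rx.mk (nat_lit 100) (nat_lit 4) (nat_lit 4) (nat_lit 1) (nat_lit 4) (nat_lit 244) (nat_lit 244) r0_244 r0_244 (nat_lit 9523361) (nat_lit 9523361) (nat_lit 0) (nat_lit 0x1988e760e) (nat_lit 397472878),
  Rx.mk (nat_lit 101) (nat_lit 5) (nat_lit 4) (nat_lit 1) (nat_lit 5) (nat_lit 246) (nat_lit 245) r0_246 r0_245 (nat_lit 0) (nat_lit 3631069) (nat_lit 0) (nat_lit 0x1c89360e4) (nat_lit 331088925),
  Rx.mk (nat_lit 108) (nat_lit 4) (nat_lit 5) (nat_lit 1) (nat_lit 6) (nat_lit 245) (nat_lit 246) r0_245 r0_246 (nat_lit 3631069) (nat_lit 0) (nat_lit 0) (nat_lit 0x1c89360e4) (nat_lit 331088925),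
  Rx.mk (nat_lit 109) (nat_lit 5) (nat_lit 5) (nat_lit 1) (nat_lit 7) (nat_lit 247) (nat_lit 247) r0_247 r0_247 (nat_lit 0) (nat_lit 0) (nat_lit 0) (nat_lit 0x1ef9a2efc) (nat_lit 286047556)]
noncomputable def e22_13 : List Rx := [
  Rx.mk (nat_lit 100) (nat_lit 4) (nat_lit 4) (nat_lit 1) (nat_lit 4) (nat_lit 250) (nat_lit 217) r0_250 r7_217 (nat_lit 12632886) (nat_lit 6883560) (nat_lit 0) (nat_lit 0x199f2c586) (nat_lit 396447552),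
  Rx.mk (nat_lit 101) (nat_lit 5) (nat_lit 4) (nat_lit 1) (nat_lit 5) (nat_lit 252) (nat_lit 219) r0_252 r7_219 (nat_lit 0) (nat_lit 10632780) (nat_lit 0) (nat_lit 0x1d6c3a8b8) (nat_lit 323047586),
  Rx.mk (nat_lit 108) (nat_lit 4) (nat_lit 5) (nat_lit 1) (nat_lit 6) (nat_lit 251) (nat_lit 218) r0_251 r7_218 (nat_lit 10930595) (nat_lit 0) (nat_lit 0) (nat_lit 0x1f89b7ce0) (nat_lit 287476701),
  Rx.mk (nat_lit 109) (nat_lit 5) (nat_lit 5) (nat_lit 1) (nat_lit 7) (nat_lit 253) (nat_lit 220) r0_253 r7_220 (nat_lit 0) (nat_lit 0) (nat_lit 0) (nat_lit 0x201f393fe) (nat_lit 266751706)]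
noncomputable def e22_14 : List Rx := [
  Rx.mk (nat_lit 45) (nat_lit 5) (nat_lit 5) (nat_lit 0) (nat_lit 3) (nat_lit 282) (nat_lit 252) r0_282 r1_252 (nat_lit 0) (nat_lit 0) (nat_lit 168759698) (nat_lit 0x1fff69344) (nat_lit 437235604),
  Rx.mk (nat_lit 101) (nat_lit 5) (nat_lit 4) (nat_lit 1) (nat_lit 5) (nat_lit 283) (nat_lit 253) r0_283 r1_253 (nat_lit 0) (nat_lit 8873187) (nat_lit 0) (nat_lit 0x1ed1d1158) (nat_lit 297579593),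
  Rx.mk (nat_lit 109) (nat_lit 5) (nat_lit 5) (nat_lit 1) (nat_lit 7) (nat_lit 284) (nat_lit 254) r0_284 r1_254 (nat_lit 0) (nat_lit 0) (nat_lit 0) (nat_lit 0x1f99bebe8) (nat_lit 275482756)]
noncomputable def e22_15 : List Rx := [
  Rx.mk (nat_lit 101) (nat_lit 5) (nat_lit 4) (nat_lit 1) (nat_lit 5) (nat_lit 289) (nat_lit 178) r0_289 r8_178 (nat_lit 0) (nat_lit 10787644) (nat_lit 0) (nat_lit 0x1b3ca9fb0) (nat_lit 360329100),
  Rx.mk (nat_lit 109) (nat_lit 5) (nat_lit 5) (nat_lit 1) (nat_lit 7) (nat_lit 290) (nat_lit 179) r0_290 r8_179 (nat_lit 0) (nat_lit 0) (nat_lit 0) (nat_lit 0x1ffe905b2) (nat_lit 268882256)]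
noncomputable def e22_16 : List Rx := [
  Rx.mk (nat_lit 100) (nat_lit 4) (nat_lit 4) (nat_lit 1) (nat_lit 4) (nat_lit 278) (nat_lit 237) r0_278 r8_237 (nat_lit 11550315) (nat_lit 4307608) (nat_lit 0) (nat_lit 0x182dd78dc) (nat_lit 417310079),
  Rx.mk (nat_lit 101) (nat_lit 5) (nat_lit 4) (nat_lit 1) (nat_lit 5) (nat_lit 280) (nat_lit 238) r0_280 r8_238 (nat_lit 0) (nat_lit 9900802) (nat_lit 0) (nat_lit 0x1d302332a) (nat_lit 326302108),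
  Rx.mk (nat_lit 108) (nat_lit 4) (nat_lit 5) (nat_lit 1) (nat_lit 6) (nat_lit 279) (nat_lit 239) r0_279 r8_239 (nat_lit 9484367) (nat_lit 0) (nat_lit 0) (nat_lit 0x1fc24261e) (nat_lit 282306373),
  Rx.mk (nat_lit 109) (nat_lit 5) (nat_lit 5) (nat_lit 1) (nat_lit 7) (nat_lit 281) (nat_lit 240) r0_281 r8_240 (nat_lit 0) (nat_lit 0) (nat_lit 0) (nat_lit 0x2022bd70a) (nat_lit 266525506),
  Rx.mk (nat_lit 356) (nat_lit 4) (nat_lit 4) (nat_lit 5) (nat_lit 4) (nat_lit 271) (nat_lit 230) r0_271 r8_230 (nat_lit 15685587) (nat_lit 24990952) (nat_lit 0) (nat_lit 0x16ee57b22) (nat_lit 463363445),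
  Rx.mk (nat_lit 357) (nat_lit 5) (nat_lit 4) (nat_lit 5) (nat_lit 5) (nat_lit 274) (nat_lit 231) r0_274 r8_231 (nat_lit 0) (nat_lit 14687495) (nat_lit 0) (nat_lit 0x1b66eebd6) (nat_lit 361425101),
  Rx.mk (nat_lit 364) (nat_lit 4) (nat_lit 5) (nat_lit 5) (nat_lit 6) (nat_lit 272) (nat_lit 232) r0_272 r8_232 (nat_lit 13709057) (nat_lit 0) (nat_lit 0) (nat_lit 0x1e6527020) (nat_lit 309616313),
  Rx.mk (nat_lit 365) (nat_lit 5) (nat_lit 5) (nat_lit 5) (nat_lit 7) (nat_lit 275) (nat_lit 233) r0_275 r8_233 (nat_lit 0) (nat_lit 0) (nat_lit 0) (nat_lit 0x1f8bb4142) (nat_lit 276413756),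
  Rx.mk (nat_lit 372) (nat_lit 4) (nat_lit 6) (nat_lit 5) (nat_lit 6) (nat_lit 273) (nat_lit 234) r0_273 r8_234 (nat_lit 9484367) (nat_lit 0) (nat_lit 0) (nat_lit 0x1ffb35d36) (nat_lit 278585473),
  Rx.mk (nat_lit 373) (nat_lit 5) (nat_lit 6) (nat_lit 5) (nat_lit 7) (nat_lit 276) (nat_lit 235) r0_276 r8_235 (nat_lit 0) (nat_lit 0) (nat_lit 0) (nat_lit 0x1ff5fca0e) (nat_lit 269441006),
  Rx.mk (nat_lit 374) (nat_lit 6) (nat_lit 6) (nat_lit 5) (nat_lit 7) (nat_lit 277) (nat_lit 236) r0_277 r8_236 (nat_lit 0) (nat_lit 0) (nat_lit 0) (nat_lit 0x20056d4f2) (nat_lit 268435456)]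
noncomputable def e22_17 : List Rx := [
  Rx.mk (nat_lit 356) (nat_lit 4) (nat_lit 4) (nat_lit 5) (nat_lit 4) (nat_lit 257) (nat_lit 155) r0_257 r9_155 (nat_lit 18008547) (nat_lit 20380427) (nat_lit 0) (nat_lit 0x1563465ca) (nat_lit 487295780),
  Rx.mk (nat_lit 357) (nat_lit 5) (nat_lit 4) (nat_lit 5) (nat_lit 5) (nat_lit 259) (nat_lit 157) r0_259 r9_157 (nat_lit 0) (nat_lit 12763209) (nat_lit 0) (nat_lit 0x1dbc643f2) (nat_lit 319863465),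
  Rx.mk (nat_lit 372) (nat_lit 4) (nat_lit 6) (nat_lit 5) (nat_lit 6) (nat_lit 258) (nat_lit 156) r0_258 r9_156 (nat_lit 9484367) (nat_lit 0) (nat_lit 0) (nat_lit 0x1fda6c1c2) (nat_lit 280725973),
  Rx.mk (nat_lit 373) (nat_lit 5) (nat_lit 6) (nat_lit 5) (nat_lit 7) (nat_lit 260) (nat_lit 158) r0_260 r9_158 (nat_lit 0) (nat_lit 0) (nat_lit 0) (nat_lit 0x20056d4f2) (nat_lit 268435456),
  Rx.mk (nat_lit 374) (nat_lit 6) (nat_lit 6) (nat_lit 5) (nat_lit 7) (nat_lit 261) (nat_lit 159) r0_261 r9_159 (nat_lit 0) (nat_lit 0) (nat_lit 0) (nat_lit 0x20056d4f2) (nat_lit 268435456)]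
noncomputable def e22_18 : List Rx := [
  Rx.mk (nat_lit 44) (nat_lit 4) (nat_lit 5) (nat_lit 0) (nat_lit 2) (nat_lit 306) (nat_lit 253) r0_306 r4_253 (nat_lit 3903538) (nat_lit 0) (nat_lit 19679101) (nat_lit 0x1db7e0f38) (nat_lit 330963295),
  Rx.mk (nat_lit 45) (nat_lit 5) (nat_lit 5) (nat_lit 0) (nat_lit 3) (nat_lit 307) (nat_lit 254) r0_307 r4_254 (nat_lit 0) (nat_lit 0) (nat_lit 108297310) (nat_lit 0x1ec126d4e) (nat_lit 397937116),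
  Rx.mk (nat_lit 47) (nat_lit 7) (nat_lit 5) (nat_lit 0) (nat_lit 3) (nat_lit 308) (nat_lit 255) r0_308 r4_255 (nat_lit 0) (nat_lit 0) (nat_lit 12077193) (nat_lit 0x1ffd30320) (nat_lit 281032149),
  Rx.mk (nat_lit 100) (nat_lit 4) (nat_lit 4) (nat_lit 1) (nat_lit 4) (nat_lit 309) (nat_lit 256) r0_309 r4_256 (nat_lit 14166006) (nat_lit 8049828) (nat_lit 0) (nat_lit 0x1ae665b5e) (nat_lit 377442740),
  Rx.mk (nat_lit 101) (nat_lit 5) (nat_lit 4) (nat_lit 1) (nat_lit 5) (nat_lit 311) (nat_lit 257) r0_311 r4_257 (nat_lit 0) (nat_lit 10253547) (nat_lit 0) (nat_lit 0x1fe86ff26) (nat_lit 280577553),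
  Rx.mk (nat_lit 103) (nat_lit 7) (nat_lit 4) (nat_lit 1) (nat_lit 5) (nat_lit 313) (nat_lit 258) r0_313 r4_258 (nat_lit 0) (nat_lit 5453470) (nat_lit 0) (nat_lit 0x202795156) (nat_lit 271662226),
  Rx.mk (nat_lit 108) (nat_lit 4) (nat_lit 5) (nat_lit 1) (nat_lit 6) (nat_lit 310) (nat_lit 259) r0_310 r4_259 (nat_lit 8068535) (nat_lit 0) (nat_lit 0) (nat_lit 0x1fcb5274a) (nat_lit 280275941),
  Rx.mk (nat_lit 109) (nat_lit 5) (nat_lit 5) (nat_lit 1) (nat_lit 7) (nat_lit 312) (nat_lit 260) r0_312 r4_260 (nat_lit 0) (nat_lit 0) (nat_lit 0) (nat_lit 0x20469ff42) (nat_lit 264200756),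
  Rx.mk (nat_lit 111) (nat_lit 7) (nat_lit 5) (nat_lit 1) (nat_lit 7) (nat_lit 314) (nat_lit 261) r0_314 r4_261 (nat_lit 0) (nat_lit 0) (nat_lit 0) (nat_lit 0x2018d4ea0) (nat_lit 267171456)]
noncomputable def e22_19 : List Rx := [
  Rx.mk (nat_lit 100) (nat_lit 4) (nat_lit 4) (nat_lit 1) (nat_lit 4) (nat_lit 322) (nat_lit 166) r0_322 r10_166 (nat_lit 6194834) (nat_lit 3170624) (nat_lit 0) (nat_lit 0x1b029a6a8) (nat_lit 362703714),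
  Rx.mk (nat_lit 101) (nat_lit 5) (nat_lit 4) (nat_lit 1) (nat_lit 5) (nat_lit 324) (nat_lit 168) r0_324 r10_168 (nat_lit 0) (nat_lit 11321562) (nat_lit 0) (nat_lit 0x1f9064e3a) (nat_lit 287426518),
  Rx.mk (nat_lit 103) (nat_lit 7) (nat_lit 4) (nat_lit 1) (nat_lit 5) (nat_lit 326) (nat_lit 170) r0_326 r10_170 (nat_lit 0) (nat_lit 10331000) (nat_lit 0) (nat_lit 0x1f9843af2) (nat_lit 285917906),
  Rx.mk (nat_lit 108) (nat_lit 4) (nat_lit 5) (nat_lit 1) (nat_lit 6) (nat_lit 323) (nat_lit 167) r0_323 r10_167 (nat_lit 9422464) (nat_lit 0) (nat_lit 0) (nat_lit 0x1fade9d48) (nat_lit 283582920),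
  Rx.mk (nat_lit 109) (nat_lit 5) (nat_lit 5) (nat_lit 1) (nat_lit 7) (nat_lit 325) (nat_lit 169) r0_325 r10_169 (nat_lit 0) (nat_lit 0) (nat_lit 0) (nat_lit 0x202f5d6cc) (nat_lit 265708056),
  Rx.mk (nat_lit 111) (nat_lit 7) (nat_lit 5) (nat_lit 1) (nat_lit 7) (nat_lit 327) (nat_lit 171) r0_327 r10_171 (nat_lit 0) (nat_lit 0) (nat_lit 0) (nat_lit 0x20056d4f2) (nat_lit 268435456)]
noncomputable def e22_20 : List Rx := [
  Rx.mk (nat_lit 36) (nat_lit 4) (nat_lit 4) (nat_lit 0) (nat_lit 0) (nat_lit 342) (nat_lit 165) r0_342 r11_165 (nat_lit 14627977) (nat_lit 8466519) (nat_lit 5049713) (nat_lit 0x1785739c0) (nat_lit 440788215),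
  Rx.mk (nat_lit 37) (nat_lit 5) (nat_lit 4) (nat_lit 0) (nat_lit 1) (nat_lit 344) (nat_lit 171) r0_344 r11_171 (nat_lit 0) (nat_lit 11117765) (nat_lit 26026765) (nat_lit 0x1e895a6e0) (nat_lit 330636636),
  Rx.mk (nat_lit 39) (nat_lit 7) (nat_lit 4) (nat_lit 0) (nat_lit 1) (nat_lit 346) (nat_lit 177) r0_346 r11_177 (nat_lit 0) (nat_lit 12075733) (nat_lit 11887713) (nat_lit 0x1eb247a26) (nat_lit 314760552),
  Rx.mk (nat_lit 44) (nat_lit 4) (nat_lit 5) (nat_lit 0) (nat_lit 2) (nat_lit 343) (nat_lit 168) r0_343 r11_168 (nat_lit 7618608) (nat_lit 0) (nat_lit 47226542) (nat_lit 0x1f34ba8aa) (nat_lit 336986356),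
  Rx.mk (nat_lit 45) (nat_lit 5) (nat_lit 5) (nat_lit 0) (nat_lit 3) (nat_lit 345) (nat_lit 174) r0_345 r11_174 (nat_lit 0) (nat_lit 0) (nat_lit 39878874) (nat_lit 0x1f508030a) (nat_lit 320158280),
  Rx.mk (nat_lit 47) (nat_lit 7) (nat_lit 5) (nat_lit 0) (nat_lit 3) (nat_lit 347) (nat_lit 179) r0_347 r11_179 (nat_lit 0) (nat_lit 0) (nat_lit 9484367) (nat_lit 0x2059b896c) (nat_lit 272450673),
  Rx.mk (nat_lit 63) (nat_lit 7) (nat_lit 7) (nat_lit 0) (nat_lit 3) (nat_lit 348) (nat_lit 181) r0_348 r11_181 (nat_lit 0) (nat_lit 0) (nat_lit 9484367) (nat_lit 0x1f84a366e) (nat_lit 286360823),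
  Rx.mk (nat_lit 100) (nat_lit 4) (nat_lit 4) (nat_lit 1) (nat_lit 4) (nat_lit 349) (nat_lit 166) r0_349 r11_166 (nat_lit 30727633) (nat_lit 7338378) (nat_lit 0) (nat_lit 0x1ea3cd702) (nat_lit 329808917),
  Rx.mk (nat_lit 101) (nat_lit 5) (nat_lit 4) (nat_lit 1) (nat_lit 5) (nat_lit 351) (nat_lit 172) r0_351 r11_172 (nat_lit 0) (nat_lit 9484367) (nat_lit 0) (nat_lit 0x20056d4f2) (nat_lit 277919823),
  Rx.mk (nat_lit 103) (nat_lit 7) (nat_lit 4) (nat_lit 1) (nat_lit 5) (nat_lit 353) (nat_lit 178) r0_353 r11_178 (nat_lit 0) (nat_lit 6887100) (nat_lit 0) (nat_lit 0x2015d3daa) (nat_lit 274247906),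
  Rx.mk (nat_lit 108) (nat_lit 4) (nat_lit 5) (nat_lit 1) (nat_lit 6) (nat_lit 350) (nat_lit 169) r0_350 r11_169 (nat_lit 9484367) (nat_lit 0) (nat_lit 0) (nat_lit 0x20056d4f2) (nat_lit 277919823),
  Rx.mk (nat_lit 109) (nat_lit 5) (nat_lit 5) (nat_lit 1) (nat_lit 7) (nat_lit 352) (nat_lit 175) r0_352 r11_175 (nat_lit 0) (nat_lit 0) (nat_lit 0) (nat_lit 0x2027076bc) (nat_lit 266249356),
  Rx.mk (nat_lit 111) (nat_lit 7) (nat_lit 5) (nat_lit 1) (nat_lit 7) (nat_lit 354) (nat_lit 180) r0_354 r11_180 (nat_lit 0) (nat_lit 0) (nat_lit 0) (nat_lit 0x20056d4f2) (nat_lit 268435456),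
  Rx.mk (nat_lit 127) (nat_lit 7) (nat_lit 7) (nat_lit 1) (nat_lit 7) (nat_lit 355) (nat_lit 182) r0_355 r11_182 (nat_lit 0) (nat_lit 0) (nat_lit 0) (nat_lit 0x202a4c502) (nat_lit 266036856),
  Rx.mk (nat_lit 228) (nat_lit 4) (nat_lit 4) (nat_lit 3) (nat_lit 4) (nat_lit 356) (nat_lit 167) r0_356 r11_167 (nat_lit 12626977) (nat_lit 11130106) (nat_lit 0) (nat_lit 0x1f556d688) (nat_lit 303736289),
  Rx.mk (nat_lit 229) (nat_lit 5) (nat_lit 4) (nat_lit 3) (nat_lit 5) (nat_lit 358) (nat_lit 173) r0_358 r11_173 (nat_lit 0) (nat_lit 7551605) (nat_lit 0) (nat_lit 0x2023d3d1a) (nat_lit 274003461),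
  Rx.mk (nat_lit 236) (nat_lit 4) (nat_lit 5) (nat_lit 3) (nat_lit 6) (nat_lit 357) (nat_lit 170) r0_357 r11_170 (nat_lit 5043943) (nat_lit 0) (nat_lit 0) (nat_lit 0x20722e604) (nat_lit 266431999),
  Rx.mk (nat_lit 237) (nat_lit 5) (nat_lit 5) (nat_lit 3) (nat_lit 7) (nat_lit 359) (nat_lit 176) r0_359 r11_176 (nat_lit 0) (nat_lit 0) (nat_lit 0) (nat_lit 0x210e26124) (nat_lit 251360656)]
noncomputable def e22_21 : List Rx := [
  Rx.mk (nat_lit 356) (nat_lit 4) (nat_lit 4) (nat_lit 5) (nat_lit 4) (nat_lit 262) (nat_lit 65) r0_262 r9_65 (nat_lit 37964627) (nat_lit 14858526) (nat_lit 0) (nat_lit 0x17568cdc8) (nat_lit 468596959),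
  Rx.mk (nat_lit 372) (nat_lit 4) (nat_lit 6) (nat_lit 5) (nat_lit 6) (nat_lit 263) (nat_lit 66) r0_263 r9_66 (nat_lit 23941176) (nat_lit 0) (nat_lit 0) (nat_lit 0x1ecb07dd6) (nat_lit 313084132),
  Rx.mk (nat_lit 374) (nat_lit 6) (nat_lit 6) (nat_lit 5) (nat_lit 7) (nat_lit 264) (nat_lit 67) r0_264 r9_67 (nat_lit 0) (nat_lit 0) (nat_lit 0) (nat_lit 0x1ff25243a) (nat_lit 269680706)]
noncomputable def e22_22 : List Rx := [
  Rx.mk (nat_lit 27) (nat_lit 3) (nat_lit 3) (nat_lit 0) (nat_lit 3) (nat_lit 10) (nat_lit 0) r0_10 r0_0 (nat_lit 0) (nat_lit 0) (nat_lit 5471) (nat_lit 0x1bae1cfda) (nat_lit 341835427),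
  Rx.mk (nat_lit 128) (nat_lit 0) (nat_lit 0) (nat_lit 2) (nat_lit 4) (nat_lit 11) (nat_lit 4) r0_11 r0_4 (nat_lit 488) (nat_lit 386) (nat_lit 0) (nat_lit 0x1fffea2a0) (nat_lit 268442230),
  Rx.mk (nat_lit 130) (nat_lit 2) (nat_lit 0) (nat_lit 2) (nat_lit 5) (nat_lit 13) (nat_lit 7) r0_13 r0_7 (nat_lit 0) (nat_lit 719) (nat_lit 0) (nat_lit 0x21a732c8c) (nat_lit 241379425),
  Rx.mk (nat_lit 146) (nat_lit 2) (nat_lit 2) (nat_lit 2) (nat_lit 7) (nat_lit 14) (nat_lit 9) r0_14 r0_9 (nat_lit 0) (nat_lit 0) (nat_lit 0) (nat_lit 0x1f2e154d2) (nat_lit 282588656),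
  Rx.mk (nat_lit 152) (nat_lit 0) (nat_lit 3) (nat_lit 2) (nat_lit 6) (nat_lit 12) (nat_lit 5) r0_12 r0_5 (nat_lit 652718) (nat_lit 0) (nat_lit 0) (nat_lit 0x1cc51c770) (nat_lit 324049624),
  Rx.mk (nat_lit 154) (nat_lit 2) (nat_lit 3) (nat_lit 2) (nat_lit 7) (nat_lit 15) (nat_lit 8) r0_15 r0_8 (nat_lit 0) (nat_lit 0) (nat_lit 0) (nat_lit 0x200b040dc) (nat_lit 268060406),
  Rx.mk (nat_lit 155) (nat_lit 3) (nat_lit 3) (nat_lit 2) (nat_lit 7) (nat_lit 16) (nat_lit 6) r0_16 r0_6 (nat_lit 0) (nat_lit 0) (nat_lit 0) (nat_lit 0x1fffd8ce4) (nat_lit 268446456),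
  Rx.mk (nat_lit 219) (nat_lit 3) (nat_lit 3) (nat_lit 3) (nat_lit 7) (nat_lit 19) (nat_lit 1) r0_19 r0_1 (nat_lit 0) (nat_lit 0) (nat_lit 0) (nat_lit 0x1e0c3e6d4) (nat_lit 301686606),
  Rx.mk (nat_lit 251) (nat_lit 3) (nat_lit 7) (nat_lit 3) (nat_lit 7) (nat_lit 18) (nat_lit 2) r0_18 r0_2 (nat_lit 0) (nat_lit 0) (nat_lit 0) (nat_lit 0x1f323f396) (nat_lit 282197306),
  Rx.mk (nat_lit 255) (nat_lit 7) (nat_lit 7) (nat_lit 3) (nat_lit 7) (nat_lit 17) (nat_lit 3) r0_17 r0_3 (nat_lit 0) (nat_lit 0) (nat_lit 0) (nat_lit 0x1f706ec5c) (nat_lit 278205956),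
  Rx.mk (nat_lit 310) (nat_lit 6) (nat_lit 6) (nat_lit 4) (nat_lit 3) (nat_lit 0) (nat_lit 10) r0_0 r0_10 (nat_lit 0) (nat_lit 0) (nat_lit 5471) (nat_lit 0x1bae1cfda) (nat_lit 341835427),
  Rx.mk (nat_lit 402) (nat_lit 2) (nat_lit 2) (nat_lit 6) (nat_lit 7) (nat_lit 3) (nat_lit 17) r0_3 r0_17 (nat_lit 0) (nat_lit 0) (nat_lit 0) (nat_lit 0x1f706ec5c) (nat_lit 278205956),
  Rx.mk (nat_lit 406) (nat_lit 6) (nat_lit 2) (nat_lit 6) (nat_lit 7) (nat_lit 2) (nat_lit 18) r0_2 r0_18 (nat_lit 0) (nat_lit 0) (nat_lit 0) (nat_lit 0x1f323f396) (nat_lit 282197306),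
  Rx.mk (nat_lit 438) (nat_lit 6) (nat_lit 6) (nat_lit 6) (nat_lit 7) (nat_lit 1) (nat_lit 19) r0_1 r0_19 (nat_lit 0) (nat_lit 0) (nat_lit 0) (nat_lit 0x1e0c3e6d4) (nat_lit 301686606),
  Rx.mk (nat_lit 484) (nat_lit 4) (nat_lit 4) (nat_lit 7) (nat_lit 4) (nat_lit 4) (nat_lit 11) r0_4 r0_11 (nat_lit 488) (nat_lit 386) (nat_lit 0) (nat_lit 0x1fffea2a0) (nat_lit 268442230),
  Rx.mk (nat_lit 487) (nat_lit 7) (nat_lit 4) (nat_lit 7) (nat_lit 5) (nat_lit 7) (nat_lit 13) r0_7 r0_13 (nat_lit 0) (nat_lit 719) (nat_lit 0) (nat_lit 0x21a732c8c) (nat_lit 241379425),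
  Rx.mk (nat_lit 500) (nat_lit 4) (nat_lit 6) (nat_lit 7) (nat_lit 6) (nat_lit 5) (nat_lit 12) r0_5 r0_12 (nat_lit 652718) (nat_lit 0) (nat_lit 0) (nat_lit 0x1cc51c770) (nat_lit 324049624),
  Rx.mk (nat_lit 502) (nat_lit 6) (nat_lit 6) (nat_lit 7) (nat_lit 7) (nat_lit 6) (nat_lit 16) r0_6 r0_16 (nat_lit 0) (nat_lit 0) (nat_lit 0) (nat_lit 0x1fffd8ce4) (nat_lit 268446456),
  Rx.mk (nat_lit 503) (nat_lit 7) (nat_lit 6) (nat_lit 7) (nat_lit 7) (nat_lit 8) (nat_lit 15) r0_8 r0_15 (nat_lit 0) (nat_lit 0) (nat_lit 0) (nat_lit 0x200b040dc) (nat_lit 268060406),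
  Rx.mk (nat_lit 511) (nat_lit 7) (nat_lit 7) (nat_lit 7) (nat_lit 7) (nat_lit 9) (nat_lit 14) r0_9 r0_14 (nat_lit 0) (nat_lit 0) (nat_lit 0) (nat_lit 0x1f2e154d2) (nat_lit 282588656)]
noncomputable def e22_23 : List Rx := [
  Rx.mk (nat_lit 27) (nat_lit 3) (nat_lit 3) (nat_lit 0) (nat_lit 3) (nat_lit 22) (nat_lit 0) r0_22 r1_0 (nat_lit 0) (nat_lit 0) (nat_lit 6061326) (nat_lit 0x1e22fb854) (nat_lit 306330232),
  Rx.mk (nat_lit 128) (nat_lit 0) (nat_lit 0) (nat_lit 2) (nat_lit 4) (nat_lit 23) (nat_lit 2) r0_23 r1_2 (nat_lit 1901317) (nat_lit 1053210) (nat_lit 0) (nat_lit 0x1d06fa732) (nat_lit 322020483),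
  Rx.mk (nat_lit 130) (nat_lit 2) (nat_lit 0) (nat_lit 2) (nat_lit 5) (nat_lit 25) (nat_lit 5) r0_25 r1_5 (nat_lit 0) (nat_lit 1484672) (nat_lit 0) (nat_lit 0x20258cca6) (nat_lit 267789778),
  Rx.mk (nat_lit 146) (nat_lit 2) (nat_lit 2) (nat_lit 2) (nat_lit 7) (nat_lit 26) (nat_lit 7) r0_26 r1_7 (nat_lit 0) (nat_lit 0) (nat_lit 0) (nat_lit 0x204321550) (nat_lit 264427056),
  Rx.mk (nat_lit 152) (nat_lit 0) (nat_lit 3) (nat_lit 2) (nat_lit 6) (nat_lit 24) (nat_lit 3) r0_24 r1_3 (nat_lit 6798811) (nat_lit 0) (nat_lit 0) (nat_lit 0x1fe079bd2) (nat_lit 277633767),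
  Rx.mk (nat_lit 154) (nat_lit 2) (nat_lit 3) (nat_lit 2) (nat_lit 7) (nat_lit 27) (nat_lit 6) r0_27 r1_6 (nat_lit 0) (nat_lit 0) (nat_lit 0) (nat_lit 0x204321550) (nat_lit 264427056),
  Rx.mk (nat_lit 155) (nat_lit 3) (nat_lit 3) (nat_lit 2) (nat_lit 7) (nat_lit 28) (nat_lit 4) r0_28 r1_4 (nat_lit 0) (nat_lit 0) (nat_lit 0) (nat_lit 0x232a6f1b2) (nat_lit 216775806),
  Rx.mk (nat_lit 219) (nat_lit 3) (nat_lit 3) (nat_lit 3) (nat_lit 7) (nat_lit 29) (nat_lit 1) r0_29 r1_1 (nat_lit 0) (nat_lit 0) (nat_lit 0) (nat_lit 0x20e22bba0) (nat_lit 254171106),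
  Rx.mk (nat_lit 402) (nat_lit 2) (nat_lit 2) (nat_lit 6) (nat_lit 7) (nat_lit 21) (nat_lit 8) r0_21 r1_8 (nat_lit 0) (nat_lit 0) (nat_lit 0) (nat_lit 0x203066816) (nat_lit 265637806),
  Rx.mk (nat_lit 406) (nat_lit 6) (nat_lit 2) (nat_lit 6) (nat_lit 7) (nat_lit 20) (nat_lit 9) r0_20 r1_9 (nat_lit 0) (nat_lit 0) (nat_lit 0) (nat_lit 0x2045d486a) (nat_lit 264245706)]
noncomputable def e22_24 : List Rx := [
  Rx.mk (nat_lit 27) (nat_lit 3) (nat_lit 3) (nat_lit 0) (nat_lit 3) (nat_lit 58) (nat_lit 0) r0_58 r4_0 (nat_lit 0) (nat_lit 0) (nat_lit 829405) (nat_lit 0x19a9ddf48) (nat_lit 377006311),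
  Rx.mk (nat_lit 59) (nat_lit 3) (nat_lit 7) (nat_lit 0) (nat_lit 3) (nat_lit 57) (nat_lit 1) r0_57 r4_1 (nat_lit 0) (nat_lit 0) (nat_lit 4265964) (nat_lit 0x1f7bbe878) (nat_lit 281708970),
  Rx.mk (nat_lit 152) (nat_lit 0) (nat_lit 3) (nat_lit 2) (nat_lit 6) (nat_lit 59) (nat_lit 5) r0_59 r4_5 (nat_lit 20543778) (nat_lit 0) (nat_lit 0) (nat_lit 0x1ef9c7a5e) (nat_lit 306570734),
  Rx.mk (nat_lit 154) (nat_lit 2) (nat_lit 3) (nat_lit 2) (nat_lit 7) (nat_lit 60) (nat_lit 7) r0_60 r4_7 (nat_lit 0) (nat_lit 0) (nat_lit 0) (nat_lit 0x1fa57e4c4) (nat_lit 274711106),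
  Rx.mk (nat_lit 155) (nat_lit 3) (nat_lit 3) (nat_lit 2) (nat_lit 7) (nat_lit 61) (nat_lit 6) r0_61 r4_6 (nat_lit 0) (nat_lit 0) (nat_lit 0) (nat_lit 0x1fca5e078) (nat_lit 272247956),
  Rx.mk (nat_lit 231) (nat_lit 7) (nat_lit 4) (nat_lit 3) (nat_lit 5) (nat_lit 62) (nat_lit 3) r0_62 r4_3 (nat_lit 0) (nat_lit 4296120) (nat_lit 0) (nat_lit 0x1fd4ab1de) (nat_lit 275890326),
  Rx.mk (nat_lit 251) (nat_lit 3) (nat_lit 7) (nat_lit 3) (nat_lit 7) (nat_lit 64) (nat_lit 2) r0_64 r4_2 (nat_lit 0) (nat_lit 0) (nat_lit 0) (nat_lit 0x203c788ac) (nat_lit 264839206),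
  Rx.mk (nat_lit 255) (nat_lit 7) (nat_lit 7) (nat_lit 3) (nat_lit 7) (nat_lit 63) (nat_lit 4) r0_63 r4_4 (nat_lit 0) (nat_lit 0) (nat_lit 0) (nat_lit 0x206a07ed0) (nat_lit 261913956),
  Rx.mk (nat_lit 484) (nat_lit 4) (nat_lit 4) (nat_lit 7) (nat_lit 4) (nat_lit 52) (nat_lit 8) r0_52 r4_8 (nat_lit 2057600) (nat_lit 911214) (nat_lit 0) (nat_lit 0x1b22bcfc6) (nat_lit 354158770),
  Rx.mk (nat_lit 487) (nat_lit 7) (nat_lit 4) (nat_lit 7) (nat_lit 5) (nat_lit 55) (nat_lit 10) r0_55 r4_10 (nat_lit 0) (nat_lit 4095836) (nat_lit 0) (nat_lit 0x1fd9b63ea) (nat_lit 275364542),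
  Rx.mk (nat_lit 500) (nat_lit 4) (nat_lit 6) (nat_lit 7) (nat_lit 6) (nat_lit 53) (nat_lit 9) r0_53 r4_9 (nat_lit 17143268) (nat_lit 0) (nat_lit 0) (nat_lit 0x1e42af416) (nat_lit 315309874),
  Rx.mk (nat_lit 502) (nat_lit 6) (nat_lit 6) (nat_lit 7) (nat_lit 7) (nat_lit 54) (nat_lit 12) r0_54 r4_12 (nat_lit 0) (nat_lit 0) (nat_lit 0) (nat_lit 0x1d9b5a3be) (nat_lit 309237406),
  Rx.mk (nat_lit 503) (nat_lit 7) (nat_lit 6) (nat_lit 7) (nat_lit 7) (nat_lit 56) (nat_lit 11) r0_56 r4_11 (nat_lit 0) (nat_lit 0) (nat_lit 0) (nat_lit 0x205e5adb2) (nat_lit 262667356)]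
noncomputable def e22_25 : List Rx := [
  Rx.mk (nat_lit 308) (nat_lit 4) (nat_lit 6) (nat_lit 4) (nat_lit 2) (nat_lit 100) (nat_lit 96) r0_100 r7_96 (nat_lit 10175790) (nat_lit 0) (nat_lit 4635726) (nat_lit 0x1840136ea) (nat_lit 415072972),
  Rx.mk (nat_lit 310) (nat_lit 6) (nat_lit 6) (nat_lit 4) (nat_lit 3) (nat_lit 101) (nat_lit 99) r0_101 r7_99 (nat_lit 0) (nat_lit 0) (nat_lit 4240931) (nat_lit 0x1bf1985a2) (nat_lit 341762337),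
  Rx.mk (nat_lit 402) (nat_lit 2) (nat_lit 2) (nat_lit 6) (nat_lit 7) (nat_lit 104) (nat_lit 103) r0_104 r7_103 (nat_lit 0) (nat_lit 0) (nat_lit 0) (nat_lit 0x20055e1a0) (nat_lit 268437306),
  Rx.mk (nat_lit 406) (nat_lit 6) (nat_lit 2) (nat_lit 6) (nat_lit 7) (nat_lit 103) (nat_lit 102) r0_103 r7_102 (nat_lit 0) (nat_lit 0) (nat_lit 0) (nat_lit 0x20056d4f2) (nat_lit 268435456),
  Rx.mk (nat_lit 438) (nat_lit 6) (nat_lit 6) (nat_lit 6) (nat_lit 7) (nat_lit 102) (nat_lit 101) r0_102 r7_101 (nat_lit 0) (nat_lit 0) (nat_lit 0) (nat_lit 0x1efe441c2) (nat_lit 285762006),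
  Rx.mk (nat_lit 484) (nat_lit 4) (nat_lit 4) (nat_lit 7) (nat_lit 4) (nat_lit 105) (nat_lit 93) r0_105 r7_93 (nat_lit 991673) (nat_lit 121405) (nat_lit 0) (nat_lit 0x190ff0958) (nat_lit 387448234),
  Rx.mk (nat_lit 487) (nat_lit 7) (nat_lit 4) (nat_lit 7) (nat_lit 5) (nat_lit 108) (nat_lit 94) r0_108 r7_94 (nat_lit 0) (nat_lit 4501915) (nat_lit 0) (nat_lit 0x1cfdf132a) (nat_lit 324222321),
  Rx.mk (nat_lit 500) (nat_lit 4) (nat_lit 6) (nat_lit 7) (nat_lit 6) (nat_lit 106) (nat_lit 97) r0_106 r7_97 (nat_lit 27844967) (nat_lit 0) (nat_lit 0) (nat_lit 0x1fd250a9c) (nat_lit 299584973),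
  Rx.mk (nat_lit 502) (nat_lit 6) (nat_lit 6) (nat_lit 7) (nat_lit 7) (nat_lit 107) (nat_lit 100) r0_107 r7_100 (nat_lit 0) (nat_lit 0) (nat_lit 0) (nat_lit 0x1fe528a70) (nat_lit 270533656),
  Rx.mk (nat_lit 503) (nat_lit 7) (nat_lit 6) (nat_lit 7) (nat_lit 7) (nat_lit 109) (nat_lit 98) r0_109 r7_98 (nat_lit 0) (nat_lit 0) (nat_lit 0) (nat_lit 0x20249e1b4) (nat_lit 266405506),
  Rx.mk (nat_lit 511) (nat_lit 7) (nat_lit 7) (nat_lit 7) (nat_lit 7) (nat_lit 110) (nat_lit 95) r0_110 r7_95 (nat_lit 0) (nat_lit 0) (nat_lit 0) (nat_lit 0x1fe8175a6) (nat_lit 270347556)]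
noncomputable def e22_26 : List Rx := [
  Rx.mk (nat_lit 402) (nat_lit 2) (nat_lit 2) (nat_lit 6) (nat_lit 7) (nat_lit 140) (nat_lit 77) r0_140 r8_77 (nat_lit 0) (nat_lit 0) (nat_lit 0) (nat_lit 0x20056d4f2) (nat_lit 268435456),
  Rx.mk (nat_lit 406) (nat_lit 6) (nat_lit 2) (nat_lit 6) (nat_lit 7) (nat_lit 139) (nat_lit 76) r0_139 r8_76 (nat_lit 0) (nat_lit 0) (nat_lit 0) (nat_lit 0x1ff97bb76) (nat_lit 269212656)]
noncomputable def e22_27 : List Rx := [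
  Rx.mk (nat_lit 292) (nat_lit 4) (nat_lit 4) (nat_lit 4) (nat_lit 0) (nat_lit 124) (nat_lit 0) r0_124 r8_0 (nat_lit 10221547) (nat_lit 641106) (nat_lit 548020) (nat_lit 0xdf239f5a) (nat_lit 586659229),
  Rx.mk (nat_lit 308) (nat_lit 4) (nat_lit 6) (nat_lit 4) (nat_lit 2) (nat_lit 125) (nat_lit 1) r0_125 r8_1 (nat_lit 21261060) (nat_lit 0) (nat_lit 8977401) (nat_lit 0x18db3ee76) (nat_lit 420209017),
  Rx.mk (nat_lit 310) (nat_lit 6) (nat_lit 6) (nat_lit 4) (nat_lit 3) (nat_lit 126) (nat_lit 2) r0_126 r8_2 (nat_lit 0) (nat_lit 0) (nat_lit 5563368) (nat_lit 0x1d90bf3fa) (nat_lit 315546874),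
  Rx.mk (nat_lit 356) (nat_lit 4) (nat_lit 4) (nat_lit 5) (nat_lit 4) (nat_lit 127) (nat_lit 3) r0_127 r8_3 (nat_lit 22390317) (nat_lit 8596723) (nat_lit 0) (nat_lit 0x181f48a6e) (nat_lit 433430596),
  Rx.mk (nat_lit 372) (nat_lit 4) (nat_lit 6) (nat_lit 5) (nat_lit 6) (nat_lit 128) (nat_lit 4) r0_128 r8_4 (nat_lit 13103625) (nat_lit 0) (nat_lit 0) (nat_lit 0x1fa80595e) (nat_lit 287655681),
  Rx.mk (nat_lit 374) (nat_lit 6) (nat_lit 6) (nat_lit 5) (nat_lit 7) (nat_lit 129) (nat_lit 5) r0_129 r8_5 (nat_lit 0) (nat_lit 0) (nat_lit 0) (nat_lit 0x1fdc55c7c) (nat_lit 271115106),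
  Rx.mk (nat_lit 402) (nat_lit 2) (nat_lit 2) (nat_lit 6) (nat_lit 7) (nat_lit 132) (nat_lit 12) r0_132 r8_12 (nat_lit 0) (nat_lit 0) (nat_lit 0) (nat_lit 0x20056d4f2) (nat_lit 268435456),
  Rx.mk (nat_lit 406) (nat_lit 6) (nat_lit 2) (nat_lit 6) (nat_lit 7) (nat_lit 131) (nat_lit 13) r0_131 r8_13 (nat_lit 0) (nat_lit 0) (nat_lit 0) (nat_lit 0x1ff9ddc54) (nat_lit 269187956),
  Rx.mk (nat_lit 438) (nat_lit 6) (nat_lit 6) (nat_lit 6) (nat_lit 7) (nat_lit 130) (nat_lit 14) r0_130 r8_14 (nat_lit 0) (nat_lit 0) (nat_lit 0) (nat_lit 0x1ff9e4946) (nat_lit 269186206),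
  Rx.mk (nat_lit 484) (nat_lit 4) (nat_lit 4) (nat_lit 7) (nat_lit 4) (nat_lit 133) (nat_lit 6) r0_133 r8_6 (nat_lit 8459973) (nat_lit 5082939) (nat_lit 0) (nat_lit 0x18412df6c) (nat_lit 413722318),
  Rx.mk (nat_lit 487) (nat_lit 7) (nat_lit 4) (nat_lit 7) (nat_lit 5) (nat_lit 136) (nat_lit 8) r0_136 r8_8 (nat_lit 0) (nat_lit 11005782) (nat_lit 0) (nat_lit 0x1c8a0941c) (nat_lit 338427488),
  Rx.mk (nat_lit 500) (nat_lit 4) (nat_lit 6) (nat_lit 7) (nat_lit 6) (nat_lit 134) (nat_lit 7) r0_134 r8_7 (nat_lit 17354866) (nat_lit 0) (nat_lit 0) (nat_lit 0x1fa7fc02a) (nat_lit 291906822),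
  Rx.mk (nat_lit 502) (nat_lit 6) (nat_lit 6) (nat_lit 7) (nat_lit 7) (nat_lit 135) (nat_lit 11) r0_135 r8_11 (nat_lit 0) (nat_lit 0) (nat_lit 0) (nat_lit 0x2003e8e1a) (nat_lit 268530456),
  Rx.mk (nat_lit 503) (nat_lit 7) (nat_lit 6) (nat_lit 7) (nat_lit 7) (nat_lit 137) (nat_lit 10) r0_137 r8_10 (nat_lit 0) (nat_lit 0) (nat_lit 0) (nat_lit 0x20056d4f2) (nat_lit 268435456),
  Rx.mk (nat_lit 511) (nat_lit 7) (nat_lit 7) (nat_lit 7) (nat_lit 7) (nat_lit 138) (nat_lit 9) r0_138 r8_9 (nat_lit 0) (nat_lit 0) (nat_lit 0) (nat_lit 0x20056d4f2) (nat_lit 268435456)]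
noncomputable def e22_28 : List Rx := [
  Rx.mk (nat_lit 484) (nat_lit 4) (nat_lit 4) (nat_lit 7) (nat_lit 4) (nat_lit 147) (nat_lit 77) r0_147 r10_77 (nat_lit 514146) (nat_lit 142696) (nat_lit 0) (nat_lit 0x196892534) (nat_lit 381116348),
  Rx.mk (nat_lit 487) (nat_lit 7) (nat_lit 4) (nat_lit 7) (nat_lit 5) (nat_lit 150) (nat_lit 78) r0_150 r10_78 (nat_lit 0) (nat_lit 5323449) (nat_lit 0) (nat_lit 0x1d8aa981c) (nat_lit 315709355),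
  Rx.mk (nat_lit 500) (nat_lit 4) (nat_lit 6) (nat_lit 7) (nat_lit 6) (nat_lit 148) (nat_lit 79) r0_148 r10_79 (nat_lit 18568344) (nat_lit 0) (nat_lit 0) (nat_lit 0x1f4c0ad0c) (nat_lit 299169900),
  Rx.mk (nat_lit 502) (nat_lit 6) (nat_lit 6) (nat_lit 7) (nat_lit 7) (nat_lit 149) (nat_lit 81) r0_149 r10_81 (nat_lit 0) (nat_lit 0) (nat_lit 0) (nat_lit 0x1ff3454e6) (nat_lit 269612556),
  Rx.mk (nat_lit 503) (nat_lit 7) (nat_lit 6) (nat_lit 7) (nat_lit 7) (nat_lit 151) (nat_lit 80) r0_151 r10_80 (nat_lit 0) (nat_lit 0) (nat_lit 0) (nat_lit 0x20056d4f2) (nat_lit 268435456)]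
noncomputable def e22_29 : List Rx := [
  Rx.mk (nat_lit 27) (nat_lit 3) (nat_lit 3) (nat_lit 0) (nat_lit 3) (nat_lit 217) (nat_lit 99) r0_217 r11_99 (nat_lit 0) (nat_lit 0) (nat_lit 3688724) (nat_lit 0x1c9ff7bde) (nat_lit 329624030),
  Rx.mk (nat_lit 59) (nat_lit 3) (nat_lit 7) (nat_lit 0) (nat_lit 3) (nat_lit 216) (nat_lit 96) r0_216 r11_96 (nat_lit 0) (nat_lit 0) (nat_lit 4286271) (nat_lit 0x1fec0acda) (nat_lit 274349477),
  Rx.mk (nat_lit 63) (nat_lit 7) (nat_lit 7) (nat_lit 0) (nat_lit 3) (nat_lit 215) (nat_lit 94) r0_215 r11_94 (nat_lit 0) (nat_lit 0) (nat_lit 3907448) (nat_lit 0x1f0b7289e) (nat_lit 288775154),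
  Rx.mk (nat_lit 155) (nat_lit 3) (nat_lit 3) (nat_lit 2) (nat_lit 7) (nat_lit 218) (nat_lit 100) r0_218 r11_100 (nat_lit 0) (nat_lit 0) (nat_lit 0) (nat_lit 0x20f100a7c) (nat_lit 253219156),
  Rx.mk (nat_lit 228) (nat_lit 4) (nat_lit 4) (nat_lit 3) (nat_lit 4) (nat_lit 219) (nat_lit 92) r0_219 r11_92 (nat_lit 957999) (nat_lit 860787) (nat_lit 0) (nat_lit 0x1be3394ac) (nat_lit 340229592),
  Rx.mk (nat_lit 231) (nat_lit 7) (nat_lit 4) (nat_lit 3) (nat_lit 5) (nat_lit 220) (nat_lit 93) r0_220 r11_93 (nat_lit 0) (nat_lit 5308544) (nat_lit 0) (nat_lit 0x2021b8a8a) (nat_lit 271891250),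
  Rx.mk (nat_lit 255) (nat_lit 7) (nat_lit 7) (nat_lit 3) (nat_lit 7) (nat_lit 221) (nat_lit 95) r0_221 r11_95 (nat_lit 0) (nat_lit 0) (nat_lit 0) (nat_lit 0x20380ccaa) (nat_lit 265146056),
  Rx.mk (nat_lit 484) (nat_lit 4) (nat_lit 4) (nat_lit 7) (nat_lit 4) (nat_lit 212) (nat_lit 91) r0_212 r11_91 (nat_lit 35579357) (nat_lit 5847755) (nat_lit 0) (nat_lit 0x1cf126118) (nat_lit 361977668),
  Rx.mk (nat_lit 500) (nat_lit 4) (nat_lit 6) (nat_lit 7) (nat_lit 6) (nat_lit 213) (nat_lit 97) r0_213 r11_97 (nat_lit 54099943) (nat_lit 0) (nat_lit 0) (nat_lit 0x1fab0666c) (nat_lit 328440049),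
  Rx.mk (nat_lit 502) (nat_lit 6) (nat_lit 6) (nat_lit 7) (nat_lit 7) (nat_lit 214) (nat_lit 98) r0_214 r11_98 (nat_lit 0) (nat_lit 0) (nat_lit 0) (nat_lit 0x20a84f7ce) (nat_lit 257886656)]
noncomputable def e22_30 : List Rx := [
  Rx.mk (nat_lit 47) (nat_lit 7) (nat_lit 5) (nat_lit 0) (nat_lit 3) (nat_lit 315) (nat_lit 252) r0_315 r5_252 (nat_lit 0) (nat_lit 0) (nat_lit 3242551) (nat_lit 0x2143dd650) (nat_lit 251117207),
  Rx.mk (nat_lit 103) (nat_lit 7) (nat_lit 4) (nat_lit 1) (nat_lit 5) (nat_lit 316) (nat_lit 253) r0_316 r5_253 (nat_lit 0) (nat_lit 2390639) (nat_lit 0) (nat_lit 0x1ff4c17e8) (nat_lit 271882995),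
  Rx.mk (nat_lit 111) (nat_lit 7) (nat_lit 5) (nat_lit 1) (nat_lit 7) (nat_lit 317) (nat_lit 254) r0_317 r5_254 (nat_lit 0) (nat_lit 0) (nat_lit 0) (nat_lit 0x2402ac98a) (nat_lit 202949906)]
noncomputable def e22_31 : List Rx := [
  Rx.mk (nat_lit 103) (nat_lit 7) (nat_lit 4) (nat_lit 1) (nat_lit 5) (nat_lit 328) (nat_lit 298) r0_328 r11_298 (nat_lit 0) (nat_lit 7056473) (nat_lit 0) (nat_lit 0x20022dd1e) (nat_lit 275697279),
  Rx.mk (nat_lit 111) (nat_lit 7) (nat_lit 5) (nat_lit 1) (nat_lit 7) (nat_lit 329) (nat_lit 299) r0_329 r11_299 (nat_lit 0) (nat_lit 0) (nat_lit 0) (nat_lit 0x201fffcf2) (nat_lit 266705806)]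
noncomputable def e22_32 : List Rx := [
  Rx.mk (nat_lit 35) (nat_lit 3) (nat_lit 4) (nat_lit 0) (nat_lit 1) (nat_lit 82) (nat_lit 51) r0_82 r6_51 (nat_lit 0) (nat_lit 196429) (nat_lit 281735) (nat_lit 0x185106fa6) (nat_lit 399502620),
  Rx.mk (nat_lit 43) (nat_lit 3) (nat_lit 5) (nat_lit 0) (nat_lit 3) (nat_lit 83) (nat_lit 52) r0_83 r6_52 (nat_lit 0) (nat_lit 0) (nat_lit 5413605) (nat_lit 0x1f06f7d78) (nat_lit 290569961),
  Rx.mk (nat_lit 59) (nat_lit 3) (nat_lit 7) (nat_lit 0) (nat_lit 3) (nat_lit 84) (nat_lit 53) r0_84 r6_53 (nat_lit 0) (nat_lit 0) (nat_lit 2973175) (nat_lit 0x1e042fbe6) (nat_lit 305284081),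
  Rx.mk (nat_lit 227) (nat_lit 3) (nat_lit 4) (nat_lit 3) (nat_lit 5) (nat_lit 87) (nat_lit 54) r0_87 r6_54 (nat_lit 0) (nat_lit 3576524) (nat_lit 0) (nat_lit 0x1f64ded74) (nat_lit 282524430),
  Rx.mk (nat_lit 231) (nat_lit 7) (nat_lit 4) (nat_lit 3) (nat_lit 5) (nat_lit 85) (nat_lit 49) r0_85 r6_49 (nat_lit 0) (nat_lit 1207477) (nat_lit 0) (nat_lit 0x21257ed80) (nat_lit 251038333),
  Rx.mk (nat_lit 235) (nat_lit 3) (nat_lit 5) (nat_lit 3) (nat_lit 7) (nat_lit 88) (nat_lit 55) r0_88 r6_55 (nat_lit 0) (nat_lit 0) (nat_lit 0) (nat_lit 0x22fcdb1ec) (nat_lit 219708606),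
  Rx.mk (nat_lit 239) (nat_lit 7) (nat_lit 5) (nat_lit 3) (nat_lit 7) (nat_lit 86) (nat_lit 50) r0_86 r6_50 (nat_lit 0) (nat_lit 0) (nat_lit 0) (nat_lit 0x242f3f128) (nat_lit 200086356)]
noncomputable def e22_33 : List Rx := [
  Rx.mk (nat_lit 59) (nat_lit 3) (nat_lit 7) (nat_lit 0) (nat_lit 3) (nat_lit 67) (nat_lit 0) r0_67 r5_0 (nat_lit 0) (nat_lit 0) (nat_lit 1224594) (nat_lit 0x1f6cdf3ac) (nat_lit 279582800),
  Rx.mk (nat_lit 227) (nat_lit 3) (nat_lit 4) (nat_lit 3) (nat_lit 5) (nat_lit 69) (nat_lit 1) r0_69 r5_1 (nat_lit 0) (nat_lit 1213772) (nat_lit 0) (nat_lit 0x1e3ce063e) (nat_lit 299727878),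
  Rx.mk (nat_lit 231) (nat_lit 7) (nat_lit 4) (nat_lit 3) (nat_lit 5) (nat_lit 68) (nat_lit 3) r0_68 r5_3 (nat_lit 0) (nat_lit 1465966) (nat_lit 0) (nat_lit 0x1f26316d0) (nat_lit 284523272),
  Rx.mk (nat_lit 251) (nat_lit 3) (nat_lit 7) (nat_lit 3) (nat_lit 7) (nat_lit 70) (nat_lit 2) r0_70 r5_2 (nat_lit 0) (nat_lit 0) (nat_lit 0) (nat_lit 0x1f8e71664) (nat_lit 276218956),
  Rx.mk (nat_lit 487) (nat_lit 7) (nat_lit 4) (nat_lit 7) (nat_lit 5) (nat_lit 65) (nat_lit 4) r0_65 r5_4 (nat_lit 0) (nat_lit 1047232) (nat_lit 0) (nat_lit 0x1fe6eb86c) (nat_lit 271393488),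
  Rx.mk (nat_lit 503) (nat_lit 7) (nat_lit 6) (nat_lit 7) (nat_lit 7) (nat_lit 66) (nat_lit 5) r0_66 r5_5 (nat_lit 0) (nat_lit 0) (nat_lit 0) (nat_lit 0x2076d9fbe) (nat_lit 261082156)]
noncomputable def e22_34 : List Rx := [
  Rx.mk (nat_lit 487) (nat_lit 7) (nat_lit 4) (nat_lit 7) (nat_lit 5) (nat_lit 152) (nat_lit 0) r0_152 r11_0 (nat_lit 0) (nat_lit 7183742) (nat_lit 0) (nat_lit 0x1fc9b009a) (nat_lit 279512798),
  Rx.mk (nat_lit 503) (nat_lit 7) (nat_lit 6) (nat_lit 7) (nat_lit 7) (nat_lit 153) (nat_lit 1) r0_153 r11_1 (nat_lit 0) (nat_lit 0) (nat_lit 0) (nat_lit 0x202537062) (nat_lit 266367056)]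
noncomputable def e22_35 : List Rx := [
  Rx.mk (nat_lit 43) (nat_lit 3) (nat_lit 5) (nat_lit 0) (nat_lit 3) (nat_lit 223) (nat_lit 278) r0_223 r6_278 (nat_lit 0) (nat_lit 0) (nat_lit 11115543) (nat_lit 0x1fdae8574) (nat_lit 282223849),
  Rx.mk (nat_lit 47) (nat_lit 7) (nat_lit 5) (nat_lit 0) (nat_lit 3) (nat_lit 222) (nat_lit 279) r0_222 r6_279 (nat_lit 0) (nat_lit 0) (nat_lit 6622) (nat_lit 0x241d4916c) (nat_lit 201098578)]
noncomputable def e22_36 : List Rx := [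
  Rx.mk (nat_lit 35) (nat_lit 3) (nat_lit 4) (nat_lit 0) (nat_lit 1) (nat_lit 238) (nat_lit 169) r0_238 r12_169 (nat_lit 0) (nat_lit 65380) (nat_lit 96469) (nat_lit 0x18a8c6ef8) (nat_lit 393333155),
  Rx.mk (nat_lit 39) (nat_lit 7) (nat_lit 4) (nat_lit 0) (nat_lit 1) (nat_lit 236) (nat_lit 172) r0_236 r12_172 (nat_lit 0) (nat_lit 13849) (nat_lit 17287) (nat_lit 0x1a39bb7e6) (nat_lit 366576142),
  Rx.mk (nat_lit 43) (nat_lit 3) (nat_lit 5) (nat_lit 0) (nat_lit 3) (nat_lit 239) (nat_lit 170) r0_239 r12_170 (nat_lit 0) (nat_lit 0) (nat_lit 4326039) (nat_lit 0x1f34cc8b6) (nat_lit 286329845),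
  Rx.mk (nat_lit 47) (nat_lit 7) (nat_lit 5) (nat_lit 0) (nat_lit 3) (nat_lit 237) (nat_lit 174) r0_237 r12_174 (nat_lit 0) (nat_lit 0) (nat_lit 11007) (nat_lit 0x23e1eb872) (nat_lit 204899413),
  Rx.mk (nat_lit 59) (nat_lit 3) (nat_lit 7) (nat_lit 0) (nat_lit 3) (nat_lit 240) (nat_lit 171) r0_240 r12_171 (nat_lit 0) (nat_lit 0) (nat_lit 826648) (nat_lit 0x1cf75fa98) (nat_lit 320912104),
  Rx.mk (nat_lit 231) (nat_lit 7) (nat_lit 4) (nat_lit 3) (nat_lit 5) (nat_lit 241) (nat_lit 173) r0_241 r12_173 (nat_lit 0) (nat_lit 1422249) (nat_lit 0) (nat_lit 0x20c524b88) (nat_lit 257436105),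
  Rx.mk (nat_lit 239) (nat_lit 7) (nat_lit 5) (nat_lit 3) (nat_lit 7) (nat_lit 242) (nat_lit 175) r0_242 r12_175 (nat_lit 0) (nat_lit 0) (nat_lit 0) (nat_lit 0x2607f22a8) (nat_lit 169854606)]
noncomputable def e22_37 : List Rx := [
  Rx.mk (nat_lit 11) (nat_lit 3) (nat_lit 1) (nat_lit 0) (nat_lit 3) (nat_lit 72) (nat_lit 73) r0_72 r0_73 (nat_lit 0) (nat_lit 0) (nat_lit 3189282) (nat_lit 0x1e646defe) (nat_lit 299105288),
  Rx.mk (nat_lit 136) (nat_lit 0) (nat_lit 1) (nat_lit 2) (nat_lit 6) (nat_lit 73) (nat_lit 72) r0_73 r0_72 (nat_lit 3189282) (nat_lit 0) (nat_lit 0) (nat_lit 0x1e646defe) (nat_lit 299105288),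
  Rx.mk (nat_lit 139) (nat_lit 3) (nat_lit 1) (nat_lit 2) (nat_lit 7) (nat_lit 74) (nat_lit 74) r0_74 r0_74 (nat_lit 0) (nat_lit 0) (nat_lit 0) (nat_lit 0x2029ade84) (nat_lit 266052256)]
noncomputable def e22_38 : List Rx := [
  Rx.mk (nat_lit 40) (nat_lit 0) (nat_lit 5) (nat_lit 0) (nat_lit 2) (nat_lit 171) (nat_lit 248) r0_171 r0_248 (nat_lit 748) (nat_lit 0) (nat_lit 205064910) (nat_lit 0x200021610) (nat_lit 473493114),
  Rx.mk (nat_lit 41) (nat_lit 1) (nat_lit 5) (nat_lit 0) (nat_lit 3) (nat_lit 172) (nat_lit 249) r0_172 r0_249 (nat_lit 0) (nat_lit 0) (nat_lit 120058012) (nat_lit 0x1f4928120) (nat_lit 400822818)]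
noncomputable def e22_39 : List Rx := [
  Rx.mk (nat_lit 8) (nat_lit 0) (nat_lit 1) (nat_lit 0) (nat_lit 2) (nat_lit 178) (nat_lit 57) r0_178 r7_57 (nat_lit 254935) (nat_lit 0) (nat_lit 716691) (nat_lit 0x19bbb53e2) (nat_lit 375922732),
  Rx.mk (nat_lit 9) (nat_lit 1) (nat_lit 1) (nat_lit 0) (nat_lit 3) (nat_lit 180) (nat_lit 60) r0_180 r7_60 (nat_lit 0) (nat_lit 0) (nat_lit 8466862) (nat_lit 0x1df10845a) (nat_lit 312056868),
  Rx.mk (nat_lit 11) (nat_lit 3) (nat_lit 1) (nat_lit 0) (nat_lit 3) (nat_lit 181) (nat_lit 62) r0_181 r7_62 (nat_lit 0) (nat_lit 0) (nat_lit 57895491) (nat_lit 0x20dbef6b0) (nat_lit 312330647),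
  Rx.mk (nat_lit 40) (nat_lit 0) (nat_lit 5) (nat_lit 0) (nat_lit 2) (nat_lit 177) (nat_lit 56) r0_177 r7_56 (nat_lit 236105) (nat_lit 0) (nat_lit 3352025) (nat_lit 0x15ef65efc) (nat_lit 443065536),
  Rx.mk (nat_lit 41) (nat_lit 1) (nat_lit 5) (nat_lit 0) (nat_lit 3) (nat_lit 179) (nat_lit 59) r0_179 r7_59 (nat_lit 0) (nat_lit 0) (nat_lit 2435671) (nat_lit 0x1813fca48) (nat_lit 405583127),
  Rx.mk (nat_lit 136) (nat_lit 0) (nat_lit 1) (nat_lit 2) (nat_lit 6) (nat_lit 182) (nat_lit 58) r0_182 r7_58 (nat_lit 2189607) (nat_lit 0) (nat_lit 0) (nat_lit 0x1fe25deee) (nat_lit 272854513),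
  Rx.mk (nat_lit 137) (nat_lit 1) (nat_lit 1) (nat_lit 2) (nat_lit 7) (nat_lit 183) (nat_lit 61) r0_183 r7_61 (nat_lit 0) (nat_lit 0) (nat_lit 0) (nat_lit 0x2069e1e9c) (nat_lit 261918006),
  Rx.mk (nat_lit 139) (nat_lit 3) (nat_lit 1) (nat_lit 2) (nat_lit 7) (nat_lit 184) (nat_lit 63) r0_184 r7_63 (nat_lit 0) (nat_lit 0) (nat_lit 0) (nat_lit 0x2120dae14) (nat_lit 250172056)]
noncomputable def e22_40 : List Rx := [
  Rx.mk (nat_lit 41) (nat_lit 1) (nat_lit 5) (nat_lit 0) (nat_lit 3) (nat_lit 286) (nat_lit 280) r0_286 r2_280 (nat_lit 0) (nat_lit 0) (nat_lit 12544226) (nat_lit 0x1eee011d4) (nat_lit 299367132),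
  Rx.mk (nat_lit 45) (nat_lit 5) (nat_lit 5) (nat_lit 0) (nat_lit 3) (nat_lit 285) (nat_lit 281) r0_285 r2_281 (nat_lit 0) (nat_lit 0) (nat_lit 58461491) (nat_lit 0x1c9e814b2) (nat_lit 384503097),
  Rx.mk (nat_lit 105) (nat_lit 1) (nat_lit 5) (nat_lit 1) (nat_lit 7) (nat_lit 288) (nat_lit 282) r0_288 r2_282 (nat_lit 0) (nat_lit 0) (nat_lit 0) (nat_lit 0x20056d4f2) (nat_lit 268435456),
  Rx.mk (nat_lit 109) (nat_lit 5) (nat_lit 5) (nat_lit 1) (nat_lit 7) (nat_lit 287) (nat_lit 283) r0_287 r2_283 (nat_lit 0) (nat_lit 0) (nat_lit 0) (nat_lit 0x20056d4f2) (nat_lit 268435456)]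
noncomputable def e22_41 : List Rx := [
  Rx.mk (nat_lit 9) (nat_lit 1) (nat_lit 1) (nat_lit 0) (nat_lit 3) (nat_lit 295) (nat_lit 250) r0_295 r9_250 (nat_lit 0) (nat_lit 0) (nat_lit 10061420) (nat_lit 0x1f3c8879e) (nat_lit 291701226),
  Rx.mk (nat_lit 41) (nat_lit 1) (nat_lit 5) (nat_lit 0) (nat_lit 3) (nat_lit 294) (nat_lit 253) r0_294 r9_253 (nat_lit 0) (nat_lit 0) (nat_lit 11334893) (nat_lit 0x1e2457aea) (nat_lit 311539649),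
  Rx.mk (nat_lit 45) (nat_lit 5) (nat_lit 5) (nat_lit 0) (nat_lit 3) (nat_lit 293) (nat_lit 254) r0_293 r9_254 (nat_lit 0) (nat_lit 0) (nat_lit 10725362) (nat_lit 0x1be5b800c) (nat_lit 349044468),
  Rx.mk (nat_lit 73) (nat_lit 1) (nat_lit 1) (nat_lit 1) (nat_lit 7) (nat_lit 298) (nat_lit 251) r0_298 r9_251 (nat_lit 0) (nat_lit 0) (nat_lit 0) (nat_lit 0x20056d4f2) (nat_lit 268435456),
  Rx.mk (nat_lit 105) (nat_lit 1) (nat_lit 5) (nat_lit 1) (nat_lit 7) (nat_lit 297) (nat_lit 255) r0_297 r9_255 (nat_lit 0) (nat_lit 0) (nat_lit 0) (nat_lit 0x20056d4f2) (nat_lit 268435456),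
  Rx.mk (nat_lit 109) (nat_lit 5) (nat_lit 5) (nat_lit 1) (nat_lit 7) (nat_lit 296) (nat_lit 256) r0_296 r9_256 (nat_lit 0) (nat_lit 0) (nat_lit 0) (nat_lit 0x20056d4f2) (nat_lit 268435456),
  Rx.mk (nat_lit 137) (nat_lit 1) (nat_lit 1) (nat_lit 2) (nat_lit 7) (nat_lit 299) (nat_lit 252) r0_299 r9_252 (nat_lit 0) (nat_lit 0) (nat_lit 0) (nat_lit 0x20056d4f2) (nat_lit 268435456)]
noncomputable def e22_42 : List Rx := [
  Rx.mk (nat_lit 105) (nat_lit 1) (nat_lit 5) (nat_lit 1) (nat_lit 7) (nat_lit 292) (nat_lit 249) r0_292 r9_249 (nat_lit 0) (nat_lit 0) (nat_lit 0) (nat_lit 0x20056d4f2) (nat_lit 268435456),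
  Rx.mk (nat_lit 109) (nat_lit 5) (nat_lit 5) (nat_lit 1) (nat_lit 7) (nat_lit 291) (nat_lit 248) r0_291 r9_248 (nat_lit 0) (nat_lit 0) (nat_lit 0) (nat_lit 0x20056d4f2) (nat_lit 268435456)]
noncomputable def e22_43 : List Rx := [
  Rx.mk (nat_lit 41) (nat_lit 1) (nat_lit 5) (nat_lit 0) (nat_lit 3) (nat_lit 173) (nat_lit 255) r0_173 r1_255 (nat_lit 0) (nat_lit 0) (nat_lit 65685782) (nat_lit 0x200c6d310) (nat_lit 333632738)]
noncomputable def e22_44 : List Rx := [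
  Rx.mk (nat_lit 9) (nat_lit 1) (nat_lit 1) (nat_lit 0) (nat_lit 3) (nat_lit 186) (nat_lit 64) r0_186 r8_64 (nat_lit 0) (nat_lit 0) (nat_lit 7212426) (nat_lit 0x1f5198ca6) (nat_lit 287452482),
  Rx.mk (nat_lit 41) (nat_lit 1) (nat_lit 5) (nat_lit 0) (nat_lit 3) (nat_lit 185) (nat_lit 63) r0_185 r8_63 (nat_lit 0) (nat_lit 0) (nat_lit 7783153) (nat_lit 0x1c7520078) (nat_lit 336577359),
  Rx.mk (nat_lit 137) (nat_lit 1) (nat_lit 1) (nat_lit 2) (nat_lit 7) (nat_lit 187) (nat_lit 65) r0_187 r8_65 (nat_lit 0) (nat_lit 0) (nat_lit 0) (nat_lit 0x20394b670) (nat_lit 265061156)]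
noncomputable def e22_45 : List Rx := [
  Rx.mk (nat_lit 11) (nat_lit 3) (nat_lit 1) (nat_lit 0) (nat_lit 3) (nat_lit 75) (nat_lit 70) r0_75 r1_70 (nat_lit 0) (nat_lit 0) (nat_lit 3064142) (nat_lit 0x203e7efde) (nat_lit 267754448),
  Rx.mk (nat_lit 136) (nat_lit 0) (nat_lit 1) (nat_lit 2) (nat_lit 6) (nat_lit 76) (nat_lit 69) r0_76 r1_69 (nat_lit 7606073) (nat_lit 0) (nat_lit 0) (nat_lit 0x1f4683d84) (nat_lit 288573429),
  Rx.mk (nat_lit 138) (nat_lit 2) (nat_lit 1) (nat_lit 2) (nat_lit 7) (nat_lit 77) (nat_lit 72) r0_77 r1_72 (nat_lit 0) (nat_lit 0) (nat_lit 0) (nat_lit 0x202d73a00) (nat_lit 265825656),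
  Rx.mk (nat_lit 139) (nat_lit 3) (nat_lit 1) (nat_lit 2) (nat_lit 7) (nat_lit 78) (nat_lit 71) r0_78 r1_71 (nat_lit 0) (nat_lit 0) (nat_lit 0) (nat_lit 0x22d0de396) (nat_lit 222515206)]
noncomputable def e22_46 : List Rx := [
  Rx.mk (nat_lit 3) (nat_lit 3) (nat_lit 0) (nat_lit 0) (nat_lit 1) (nat_lit 31) (nat_lit 64) r0_31 r2_64 (nat_lit 0) (nat_lit 294663) (nat_lit 349407) (nat_lit 0x19a17a64e) (nat_lit 377353876),
  Rx.mk (nat_lit 11) (nat_lit 3) (nat_lit 1) (nat_lit 0) (nat_lit 3) (nat_lit 32) (nat_lit 65) r0_32 r2_65 (nat_lit 0) (nat_lit 0) (nat_lit 3951197) (nat_lit 0x1fb1bfb20) (nat_lit 277838903),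
  Rx.mk (nat_lit 27) (nat_lit 3) (nat_lit 3) (nat_lit 0) (nat_lit 3) (nat_lit 33) (nat_lit 66) r0_33 r2_66 (nat_lit 0) (nat_lit 0) (nat_lit 7471693) (nat_lit 0x1fd740098) (nat_lit 278900949),
  Rx.mk (nat_lit 128) (nat_lit 0) (nat_lit 0) (nat_lit 2) (nat_lit 4) (nat_lit 34) (nat_lit 62) r0_34 r2_62 (nat_lit 1671764) (nat_lit 813893) (nat_lit 0) (nat_lit 0x19c19e614) (nat_lit 377108313),
  Rx.mk (nat_lit 130) (nat_lit 2) (nat_lit 0) (nat_lit 2) (nat_lit 5) (nat_lit 36) (nat_lit 72) r0_36 r2_72 (nat_lit 0) (nat_lit 5691868) (nat_lit 0) (nat_lit 0x1f50a2202) (nat_lit 285995074),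
  Rx.mk (nat_lit 131) (nat_lit 3) (nat_lit 0) (nat_lit 2) (nat_lit 5) (nat_lit 39) (nat_lit 68) r0_39 r2_68 (nat_lit 0) (nat_lit 267483) (nat_lit 0) (nat_lit 0x2090e0ad4) (nat_lit 259516689),
  Rx.mk (nat_lit 136) (nat_lit 0) (nat_lit 1) (nat_lit 2) (nat_lit 6) (nat_lit 35) (nat_lit 63) r0_35 r2_63 (nat_lit 10441397) (nat_lit 0) (nat_lit 0) (nat_lit 0x1fa2a4a28) (nat_lit 285340053),
  Rx.mk (nat_lit 138) (nat_lit 2) (nat_lit 1) (nat_lit 2) (nat_lit 7) (nat_lit 37) (nat_lit 73) r0_37 r2_73 (nat_lit 0) (nat_lit 0) (nat_lit 0) (nat_lit 0x1ffc2f214) (nat_lit 269036706),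
  Rx.mk (nat_lit 139) (nat_lit 3) (nat_lit 1) (nat_lit 2) (nat_lit 7) (nat_lit 40) (nat_lit 69) r0_40 r2_69 (nat_lit 0) (nat_lit 0) (nat_lit 0) (nat_lit 0x23e3f71fc) (nat_lit 204928556),
  Rx.mk (nat_lit 146) (nat_lit 2) (nat_lit 2) (nat_lit 2) (nat_lit 7) (nat_lit 38) (nat_lit 74) r0_38 r2_74 (nat_lit 0) (nat_lit 0) (nat_lit 0) (nat_lit 0x2013deebe) (nat_lit 267490256),
  Rx.mk (nat_lit 155) (nat_lit 3) (nat_lit 3) (nat_lit 2) (nat_lit 7) (nat_lit 41) (nat_lit 70) r0_41 r2_70 (nat_lit 0) (nat_lit 0) (nat_lit 0) (nat_lit 0x240278928) (nat_lit 202977506),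
  Rx.mk (nat_lit 219) (nat_lit 3) (nat_lit 3) (nat_lit 3) (nat_lit 7) (nat_lit 42) (nat_lit 67) r0_42 r2_67 (nat_lit 0) (nat_lit 0) (nat_lit 0) (nat_lit 0x2086fe548) (nat_lit 260050456),
  Rx.mk (nat_lit 402) (nat_lit 2) (nat_lit 2) (nat_lit 6) (nat_lit 7) (nat_lit 30) (nat_lit 71) r0_30 r2_71 (nat_lit 0) (nat_lit 0) (nat_lit 0) (nat_lit 0x1ffdc5ed4) (nat_lit 268933606)]
noncomputable def e22_47 : List Rx := [
  Rx.mk (nat_lit 8) (nat_lit 0) (nat_lit 1) (nat_lit 0) (nat_lit 2) (nat_lit 188) (nat_lit 241) r0_188 r8_241 (nat_lit 3895157) (nat_lit 0) (nat_lit 7060541) (nat_lit 0x16494bc14) (nat_lit 444572854),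
  Rx.mk (nat_lit 9) (nat_lit 1) (nat_lit 1) (nat_lit 0) (nat_lit 3) (nat_lit 189) (nat_lit 242) r0_189 r8_242 (nat_lit 0) (nat_lit 0) (nat_lit 7988855) (nat_lit 0x1dd308112) (nat_lit 313579111),
  Rx.mk (nat_lit 11) (nat_lit 3) (nat_lit 1) (nat_lit 0) (nat_lit 3) (nat_lit 190) (nat_lit 243) r0_190 r8_243 (nat_lit 0) (nat_lit 0) (nat_lit 56857679) (nat_lit 0x1feec1780) (nat_lit 326737435),
  Rx.mk (nat_lit 136) (nat_lit 0) (nat_lit 1) (nat_lit 2) (nat_lit 6) (nat_lit 191) (nat_lit 244) r0_191 r8_244 (nat_lit 5196417) (nat_lit 0) (nat_lit 0) (nat_lit 0x1fa15acb2) (nat_lit 280172673),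
  Rx.mk (nat_lit 137) (nat_lit 1) (nat_lit 1) (nat_lit 2) (nat_lit 7) (nat_lit 192) (nat_lit 245) r0_192 r8_245 (nat_lit 0) (nat_lit 0) (nat_lit 0) (nat_lit 0x201316b9e) (nat_lit 267545656),
  Rx.mk (nat_lit 138) (nat_lit 2) (nat_lit 1) (nat_lit 2) (nat_lit 7) (nat_lit 193) (nat_lit 247) r0_193 r8_247 (nat_lit 0) (nat_lit 0) (nat_lit 0) (nat_lit 0x20056d4f2) (nat_lit 268435456),
  Rx.mk (nat_lit 139) (nat_lit 3) (nat_lit 1) (nat_lit 2) (nat_lit 7) (nat_lit 194) (nat_lit 246) r0_194 r8_246 (nat_lit 0) (nat_lit 0) (nat_lit 0) (nat_lit 0x201316b9e) (nat_lit 267545656)]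
noncomputable def e22_48 : List Rx := [
  Rx.mk (nat_lit 0) (nat_lit 0) (nat_lit 0) (nat_lit 0) (nat_lit 0) (nat_lit 155) (nat_lit 23) r0_155 r9_23 (nat_lit 1767760) (nat_lit 1269390) (nat_lit 2742121) (nat_lit 0xae741146) (nat_lit 632770227),
  Rx.mk (nat_lit 3) (nat_lit 3) (nat_lit 0) (nat_lit 0) (nat_lit 1) (nat_lit 158) (nat_lit 29) r0_158 r9_29 (nat_lit 0) (nat_lit 3035981) (nat_lit 17383273) (nat_lit 0x15db1204a) (nat_lit 461356660),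
  Rx.mk (nat_lit 8) (nat_lit 0) (nat_lit 1) (nat_lit 0) (nat_lit 2) (nat_lit 156) (nat_lit 24) r0_156 r9_24 (nat_lit 7054152) (nat_lit 0) (nat_lit 7764799) (nat_lit 0x15828a382) (nat_lit 461644607),
  Rx.mk (nat_lit 9) (nat_lit 1) (nat_lit 1) (nat_lit 0) (nat_lit 3) (nat_lit 157) (nat_lit 27) r0_157 r9_27 (nat_lit 0) (nat_lit 0) (nat_lit 11270394) (nat_lit 0x1e52d84be) (nat_lit 308387900),
  Rx.mk (nat_lit 11) (nat_lit 3) (nat_lit 1) (nat_lit 0) (nat_lit 3) (nat_lit 159) (nat_lit 30) r0_159 r9_30 (nat_lit 0) (nat_lit 0) (nat_lit 22707758) (nat_lit 0x1eef51020) (nat_lit 309447014),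
  Rx.mk (nat_lit 27) (nat_lit 3) (nat_lit 3) (nat_lit 0) (nat_lit 3) (nat_lit 160) (nat_lit 31) r0_160 r9_31 (nat_lit 0) (nat_lit 0) (nat_lit 36568253) (nat_lit 0x1f05c5ed2) (nat_lit 321832559),
  Rx.mk (nat_lit 128) (nat_lit 0) (nat_lit 0) (nat_lit 2) (nat_lit 4) (nat_lit 161) (nat_lit 25) r0_161 r9_25 (nat_lit 3092091) (nat_lit 2545546) (nat_lit 0) (nat_lit 0x173fde9d2) (nat_lit 422891393),
  Rx.mk (nat_lit 130) (nat_lit 2) (nat_lit 0) (nat_lit 2) (nat_lit 5) (nat_lit 164) (nat_lit 37) r0_164 r9_37 (nat_lit 0) (nat_lit 8810507) (nat_lit 0) (nat_lit 0x1f318ee42) (nat_lit 291178113),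
  Rx.mk (nat_lit 131) (nat_lit 3) (nat_lit 0) (nat_lit 2) (nat_lit 5) (nat_lit 167) (nat_lit 33) r0_167 r9_33 (nat_lit 0) (nat_lit 7106347) (nat_lit 0) (nat_lit 0x1fd785e5e) (nat_lit 278532703),
  Rx.mk (nat_lit 136) (nat_lit 0) (nat_lit 1) (nat_lit 2) (nat_lit 6) (nat_lit 162) (nat_lit 26) r0_162 r9_26 (nat_lit 9033993) (nat_lit 0) (nat_lit 0) (nat_lit 0x1ee42aec6) (nat_lit 296521849),
  Rx.mk (nat_lit 137) (nat_lit 1) (nat_lit 1) (nat_lit 2) (nat_lit 7) (nat_lit 163) (nat_lit 28) r0_163 r9_28 (nat_lit 0) (nat_lit 0) (nat_lit 0) (nat_lit 0x20056d4f2) (nat_lit 268435456),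
  Rx.mk (nat_lit 138) (nat_lit 2) (nat_lit 1) (nat_lit 2) (nat_lit 7) (nat_lit 165) (nat_lit 38) r0_165 r9_38 (nat_lit 0) (nat_lit 0) (nat_lit 0) (nat_lit 0x20056d4f2) (nat_lit 268435456),
  Rx.mk (nat_lit 139) (nat_lit 3) (nat_lit 1) (nat_lit 2) (nat_lit 7) (nat_lit 168) (nat_lit 34) r0_168 r9_34 (nat_lit 0) (nat_lit 0) (nat_lit 0) (nat_lit 0x20056d4f2) (nat_lit 268435456),
  Rx.mk (nat_lit 146) (nat_lit 2) (nat_lit 2) (nat_lit 2) (nat_lit 7) (nat_lit 166) (nat_lit 39) r0_166 r9_39 (nat_lit 0) (nat_lit 0) (nat_lit 0) (nat_lit 0x20056d4f2) (nat_lit 268435456),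
  Rx.mk (nat_lit 155) (nat_lit 3) (nat_lit 3) (nat_lit 2) (nat_lit 7) (nat_lit 169) (nat_lit 35) r0_169 r9_35 (nat_lit 0) (nat_lit 0) (nat_lit 0) (nat_lit 0x20056d4f2) (nat_lit 268435456),
  Rx.mk (nat_lit 219) (nat_lit 3) (nat_lit 3) (nat_lit 3) (nat_lit 7) (nat_lit 170) (nat_lit 32) r0_170 r9_32 (nat_lit 0) (nat_lit 0) (nat_lit 0) (nat_lit 0x1f920a348) (nat_lit 275995056),
  Rx.mk (nat_lit 402) (nat_lit 2) (nat_lit 2) (nat_lit 6) (nat_lit 7) (nat_lit 154) (nat_lit 36) r0_154 r9_36 (nat_lit 0) (nat_lit 0) (nat_lit 0) (nat_lit 0x20056d4f2) (nat_lit 268435456)]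
noncomputable def e22_49 : List Rx := [
  Rx.mk (nat_lit 402) (nat_lit 2) (nat_lit 2) (nat_lit 6) (nat_lit 7) (nat_lit 141) (nat_lit 0) r0_141 r9_0 (nat_lit 0) (nat_lit 0) (nat_lit 0) (nat_lit 0x20056d4f2) (nat_lit 268435456)]
noncomputable def e22_50 : List Rx := [
  Rx.mk (nat_lit 43) (nat_lit 3) (nat_lit 5) (nat_lit 0) (nat_lit 3) (nat_lit 71) (nat_lit 67) r0_71 r3_67 (nat_lit 0) (nat_lit 0) (nat_lit 279) (nat_lit 0x2000240b8) (nat_lit 268426835)]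
noncomputable def e22_51 : List Rx := [
  Rx.mk (nat_lit 11) (nat_lit 3) (nat_lit 1) (nat_lit 0) (nat_lit 3) (nat_lit 80) (nat_lit 69) r0_80 r4_69 (nat_lit 0) (nat_lit 0) (nat_lit 3349434) (nat_lit 0x1f4641506) (nat_lit 284310440),
  Rx.mk (nat_lit 43) (nat_lit 3) (nat_lit 5) (nat_lit 0) (nat_lit 3) (nat_lit 79) (nat_lit 68) r0_79 r4_68 (nat_lit 0) (nat_lit 0) (nat_lit 1637705) (nat_lit 0x17ef1a0fe) (nat_lit 407217261),
  Rx.mk (nat_lit 139) (nat_lit 3) (nat_lit 1) (nat_lit 2) (nat_lit 7) (nat_lit 81) (nat_lit 70) r0_81 r4_70 (nat_lit 0) (nat_lit 0) (nat_lit 0) (nat_lit 0x1ea79a466) (nat_lit 291417306)]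
noncomputable def e22_52 : List Rx := [
  Rx.mk (nat_lit 43) (nat_lit 3) (nat_lit 5) (nat_lit 0) (nat_lit 3) (nat_lit 89) (nat_lit 61) r0_89 r5_61 (nat_lit 0) (nat_lit 0) (nat_lit 4504495) (nat_lit 0x1f3e5221e) (nat_lit 285962751),
  Rx.mk (nat_lit 235) (nat_lit 3) (nat_lit 5) (nat_lit 3) (nat_lit 7) (nat_lit 90) (nat_lit 62) r0_90 r5_62 (nat_lit 0) (nat_lit 0) (nat_lit 0) (nat_lit 0x21429c962) (nat_lit 247994206)]
noncomputable def e22_53 : List Rx := [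
  Rx.mk (nat_lit 40) (nat_lit 0) (nat_lit 5) (nat_lit 0) (nat_lit 2) (nat_lit 174) (nat_lit 262) r0_174 r4_262 (nat_lit 368462) (nat_lit 0) (nat_lit 92582256) (nat_lit 0x1ba8b9034) (nat_lit 435190624),
  Rx.mk (nat_lit 41) (nat_lit 1) (nat_lit 5) (nat_lit 0) (nat_lit 3) (nat_lit 175) (nat_lit 263) r0_175 r4_263 (nat_lit 0) (nat_lit 0) (nat_lit 37264364) (nat_lit 0x1f17bb394) (nat_lit 321311370),
  Rx.mk (nat_lit 43) (nat_lit 3) (nat_lit 5) (nat_lit 0) (nat_lit 3) (nat_lit 176) (nat_lit 264) r0_176 r4_264 (nat_lit 0) (nat_lit 0) (nat_lit 105491124) (nat_lit 0x1b7455748) (nat_lit 451196430)]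
noncomputable def e22_54 : List Rx := [
  Rx.mk (nat_lit 11) (nat_lit 3) (nat_lit 1) (nat_lit 0) (nat_lit 3) (nat_lit 198) (nat_lit 47) r0_198 r10_47 (nat_lit 0) (nat_lit 0) (nat_lit 55056773) (nat_lit 0x212627822) (nat_lit 304746579),
  Rx.mk (nat_lit 40) (nat_lit 0) (nat_lit 5) (nat_lit 0) (nat_lit 2) (nat_lit 195) (nat_lit 44) r0_195 r10_44 (nat_lit 241321) (nat_lit 0) (nat_lit 895600) (nat_lit 0x16b880cd8) (nat_lit 427279577),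
  Rx.mk (nat_lit 41) (nat_lit 1) (nat_lit 5) (nat_lit 0) (nat_lit 3) (nat_lit 196) (nat_lit 45) r0_196 r10_45 (nat_lit 0) (nat_lit 0) (nat_lit 3476048) (nat_lit 0x1aa52c732) (nat_lit 363037754),
  Rx.mk (nat_lit 43) (nat_lit 3) (nat_lit 5) (nat_lit 0) (nat_lit 3) (nat_lit 197) (nat_lit 46) r0_197 r10_46 (nat_lit 0) (nat_lit 0) (nat_lit 83120058) (nat_lit 0x201ce892e) (nat_lit 349914064),
  Rx.mk (nat_lit 139) (nat_lit 3) (nat_lit 1) (nat_lit 2) (nat_lit 7) (nat_lit 199) (nat_lit 48) r0_199 r10_48 (nat_lit 0) (nat_lit 0) (nat_lit 0) (nat_lit 0x20d426d7a) (nat_lit 255090656)]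
noncomputable def e22_55 : List Rx := [
  Rx.mk (nat_lit 40) (nat_lit 0) (nat_lit 5) (nat_lit 0) (nat_lit 2) (nat_lit 200) (nat_lit 37) r0_200 r11_37 (nat_lit 6365539) (nat_lit 0) (nat_lit 54732365) (nat_lit 0x1c36966d6) (nat_lit 394034560),
  Rx.mk (nat_lit 41) (nat_lit 1) (nat_lit 5) (nat_lit 0) (nat_lit 3) (nat_lit 201) (nat_lit 38) r0_201 r11_38 (nat_lit 0) (nat_lit 0) (nat_lit 10035955) (nat_lit 0x20209cdc2) (nat_lit 276689911),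
  Rx.mk (nat_lit 43) (nat_lit 3) (nat_lit 5) (nat_lit 0) (nat_lit 3) (nat_lit 202) (nat_lit 39) r0_202 r11_39 (nat_lit 0) (nat_lit 0) (nat_lit 57779837) (nat_lit 0x2087d0944) (nat_lit 317723493),
  Rx.mk (nat_lit 235) (nat_lit 3) (nat_lit 5) (nat_lit 3) (nat_lit 7) (nat_lit 203) (nat_lit 40) r0_203 r11_40 (nat_lit 0) (nat_lit 0) (nat_lit 0) (nat_lit 0x2192e072a) (nat_lit 242862556)]
noncomputable def e22_56 : List Rx := [
  Rx.mk (nat_lit 43) (nat_lit 3) (nat_lit 5) (nat_lit 0) (nat_lit 3) (nat_lit 224) (nat_lit 255) r0_224 r5_255 (nat_lit 0) (nat_lit 0) (nat_lit 33756998) (nat_lit 0x200009fc4) (nat_lit 302190604)]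
noncomputable def e22_57 : List Rx := [
  Rx.mk (nat_lit 11) (nat_lit 3) (nat_lit 1) (nat_lit 0) (nat_lit 3) (nat_lit 226) (nat_lit 300) r0_226 r11_300 (nat_lit 0) (nat_lit 0) (nat_lit 5081711) (nat_lit 0x2067102b8) (nat_lit 267155117),
  Rx.mk (nat_lit 43) (nat_lit 3) (nat_lit 5) (nat_lit 0) (nat_lit 3) (nat_lit 225) (nat_lit 302) r0_225 r11_302 (nat_lit 0) (nat_lit 0) (nat_lit 4092761) (nat_lit 0x1e23b5f10) (nat_lit 304294217),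
  Rx.mk (nat_lit 139) (nat_lit 3) (nat_lit 1) (nat_lit 2) (nat_lit 7) (nat_lit 227) (nat_lit 301) r0_227 r11_301 (nat_lit 0) (nat_lit 0) (nat_lit 0) (nat_lit 0x217fdbd96) (nat_lit 244045156)]
noncomputable def e22 : List (List Rx) := [e22_0, e22_1, e22_2, e22_3, e22_4, e22_5, e22_6, e22_7, e22_8, e22_9, e22_10, e22_11, e22_12, e22_13, e22_14, e22_15, e22_16, e22_17, e22_18, e22_19, e22_20, e22_21, e22_22, e22_23, e22_24, e22_25, e22_26, e22_27, e22_28, e22_29, e22_30, e22_31, e22_32, e22_33, e22_34, e22_35, e22_36, e22_37, e22_38, e22_39, e22_40, e22_41, e22_42, e22_43, e22_44, e22_45, e22_46, e22_47, e22_48, e22_49, e22_50, e22_51, e22_52, e22_53, e22_54, e22_55, e22_56, e22_57]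
noncomputable def e23_0 : List Rx := [
  Rx.mk (nat_lit 108) (nat_lit 4) (nat_lit 5) (nat_lit 1) (nat_lit 6) (nat_lit 255) (nat_lit 173) r1_255 r0_173 (nat_lit 65685782) (nat_lit 0) (nat_lit 0) (nat_lit 0x200c6d310) (nat_lit 333632738)]
noncomputable def e23_1 : List Rx := [
  Rx.mk (nat_lit 108) (nat_lit 4) (nat_lit 5) (nat_lit 1) (nat_lit 6) (nat_lit 273) (nat_lit 185) r1_273 r1_185 (nat_lit 9484367) (nat_lit 0) (nat_lit 0) (nat_lit 0x203e7d44a) (nat_lit 274207873),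
  Rx.mk (nat_lit 364) (nat_lit 4) (nat_lit 5) (nat_lit 5) (nat_lit 6) (nat_lit 272) (nat_lit 186) r1_272 r1_186 (nat_lit 11144807) (nat_lit 0) (nat_lit 0) (nat_lit 0x1f7f36adc) (nat_lit 288382313)]
noncomputable def e23_2 : List Rx := [
  Rx.mk (nat_lit 356) (nat_lit 4) (nat_lit 4) (nat_lit 5) (nat_lit 4) (nat_lit 258) (nat_lit 183) r1_258 r2_183 (nat_lit 16672179) (nat_lit 11319226) (nat_lit 0) (nat_lit 0x180b1dce2) (nat_lit 431779961),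
  Rx.mk (nat_lit 364) (nat_lit 4) (nat_lit 5) (nat_lit 5) (nat_lit 6) (nat_lit 259) (nat_lit 184) r1_259 r2_184 (nat_lit 10097628) (nat_lit 0) (nat_lit 0) (nat_lit 0x1fd30161c) (nat_lit 281824434),
  Rx.mk (nat_lit 372) (nat_lit 4) (nat_lit 6) (nat_lit 5) (nat_lit 6) (nat_lit 260) (nat_lit 185) r1_260 r2_185 (nat_lit 9484367) (nat_lit 0) (nat_lit 0) (nat_lit 0x20056d4f2) (nat_lit 277919823),
  Rx.mk (nat_lit 374) (nat_lit 6) (nat_lit 6) (nat_lit 5) (nat_lit 7) (nat_lit 261) (nat_lit 186) r1_261 r2_186 (nat_lit 0) (nat_lit 0) (nat_lit 0) (nat_lit 0x20056d4f2) (nat_lit 268435456)]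
noncomputable def e23_3 : List Rx := [
  Rx.mk (nat_lit 44) (nat_lit 4) (nat_lit 5) (nat_lit 0) (nat_lit 2) (nat_lit 293) (nat_lit 151) r1_293 r3_151 (nat_lit 2560) (nat_lit 0) (nat_lit 1558) (nat_lit 0x200147198) (nat_lit 268358724),
  Rx.mk (nat_lit 47) (nat_lit 7) (nat_lit 5) (nat_lit 0) (nat_lit 3) (nat_lit 294) (nat_lit 153) r1_294 r3_153 (nat_lit 0) (nat_lit 0) (nat_lit 1729121) (nat_lit 0x20953dff0) (nat_lit 260719377),
  Rx.mk (nat_lit 108) (nat_lit 4) (nat_lit 5) (nat_lit 1) (nat_lit 6) (nat_lit 295) (nat_lit 152) r1_295 r3_152 (nat_lit 12803) (nat_lit 0) (nat_lit 0) (nat_lit 0x1fed03baa) (nat_lit 269710059),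
  Rx.mk (nat_lit 111) (nat_lit 7) (nat_lit 5) (nat_lit 1) (nat_lit 7) (nat_lit 296) (nat_lit 154) r1_296 r3_154 (nat_lit 0) (nat_lit 0) (nat_lit 0) (nat_lit 0x244dbdaf0) (nat_lit 198128006)]
noncomputable def e23_4 : List Rx := [
  Rx.mk (nat_lit 108) (nat_lit 4) (nat_lit 5) (nat_lit 1) (nat_lit 6) (nat_lit 305) (nat_lit 159) r1_305 r4_159 (nat_lit 11745164) (nat_lit 0) (nat_lit 0) (nat_lit 0x1ff78dda0) (nat_lit 281068370),
  Rx.mk (nat_lit 111) (nat_lit 7) (nat_lit 5) (nat_lit 1) (nat_lit 7) (nat_lit 306) (nat_lit 160) r1_306 r4_160 (nat_lit 0) (nat_lit 0) (nat_lit 0) (nat_lit 0x20783377a) (nat_lit 260999956)]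
noncomputable def e23_5 : List Rx := [
  Rx.mk (nat_lit 44) (nat_lit 4) (nat_lit 5) (nat_lit 0) (nat_lit 2) (nat_lit 311) (nat_lit 164) r1_311 r5_164 (nat_lit 7835173) (nat_lit 0) (nat_lit 8473775) (nat_lit 0x1debb64d4) (nat_lit 320226004),
  Rx.mk (nat_lit 47) (nat_lit 7) (nat_lit 5) (nat_lit 0) (nat_lit 3) (nat_lit 312) (nat_lit 167) r1_312 r5_167 (nat_lit 0) (nat_lit 0) (nat_lit 6934858) (nat_lit 0x204533bd6) (nat_lit 271196564),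
  Rx.mk (nat_lit 108) (nat_lit 4) (nat_lit 5) (nat_lit 1) (nat_lit 6) (nat_lit 313) (nat_lit 165) r1_313 r5_165 (nat_lit 6784373) (nat_lit 0) (nat_lit 0) (nat_lit 0x2094db7d8) (nat_lit 265940429),
  Rx.mk (nat_lit 111) (nat_lit 7) (nat_lit 5) (nat_lit 1) (nat_lit 7) (nat_lit 314) (nat_lit 168) r1_314 r5_168 (nat_lit 0) (nat_lit 0) (nat_lit 0) (nat_lit 0x207d1b012) (nat_lit 260685156),
  Rx.mk (nat_lit 236) (nat_lit 4) (nat_lit 5) (nat_lit 3) (nat_lit 6) (nat_lit 315) (nat_lit 166) r1_315 r5_166 (nat_lit 2151161) (nat_lit 0) (nat_lit 0) (nat_lit 0x205962a4e) (nat_lit 265095617)]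
noncomputable def e23_6 : List Rx := [
  Rx.mk (nat_lit 231) (nat_lit 7) (nat_lit 4) (nat_lit 3) (nat_lit 5) (nat_lit 46) (nat_lit 106) r1_46 r3_106 (nat_lit 0) (nat_lit 12586) (nat_lit 0) (nat_lit 0x1ff9824c6) (nat_lit 268882992),
  Rx.mk (nat_lit 239) (nat_lit 7) (nat_lit 5) (nat_lit 3) (nat_lit 7) (nat_lit 47) (nat_lit 109) r1_47 r3_109 (nat_lit 0) (nat_lit 0) (nat_lit 0) (nat_lit 0x24f03701a) (nat_lit 187761056),
  Rx.mk (nat_lit 251) (nat_lit 3) (nat_lit 7) (nat_lit 3) (nat_lit 7) (nat_lit 49) (nat_lit 111) r1_49 r3_111 (nat_lit 0) (nat_lit 0) (nat_lit 0) (nat_lit 0x21883a01e) (nat_lit 243550156),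
  Rx.mk (nat_lit 255) (nat_lit 7) (nat_lit 7) (nat_lit 3) (nat_lit 7) (nat_lit 48) (nat_lit 110) r1_48 r3_110 (nat_lit 0) (nat_lit 0) (nat_lit 0) (nat_lit 0x21621855c) (nat_lit 245991956),
  Rx.mk (nat_lit 484) (nat_lit 4) (nat_lit 4) (nat_lit 7) (nat_lit 4) (nat_lit 39) (nat_lit 104) r1_39 r3_104 (nat_lit 1048) (nat_lit 493) (nat_lit 0) (nat_lit 0x200087852) (nat_lit 268403547),
  Rx.mk (nat_lit 487) (nat_lit 7) (nat_lit 4) (nat_lit 7) (nat_lit 5) (nat_lit 43) (nat_lit 105) r1_43 r3_105 (nat_lit 0) (nat_lit 326961) (nat_lit 0) (nat_lit 0x2101a3708) (nat_lit 252384517),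
  Rx.mk (nat_lit 492) (nat_lit 4) (nat_lit 5) (nat_lit 7) (nat_lit 6) (nat_lit 40) (nat_lit 107) r1_40 r3_107 (nat_lit 5364652) (nat_lit 0) (nat_lit 0) (nat_lit 0x20197d988) (nat_lit 272405208),
  Rx.mk (nat_lit 495) (nat_lit 7) (nat_lit 5) (nat_lit 7) (nat_lit 7) (nat_lit 44) (nat_lit 108) r1_44 r3_108 (nat_lit 0) (nat_lit 0) (nat_lit 0) (nat_lit 0x218acc7dc) (nat_lit 243368056),
  Rx.mk (nat_lit 500) (nat_lit 4) (nat_lit 6) (nat_lit 7) (nat_lit 6) (nat_lit 41) (nat_lit 112) r1_41 r3_112 (nat_lit 1588424) (nat_lit 0) (nat_lit 0) (nat_lit 0x1ffa00bf0) (nat_lit 270650030),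
  Rx.mk (nat_lit 502) (nat_lit 6) (nat_lit 6) (nat_lit 7) (nat_lit 7) (nat_lit 42) (nat_lit 114) r1_42 r3_114 (nat_lit 0) (nat_lit 0) (nat_lit 0) (nat_lit 0x20853aa04) (nat_lit 260134406),
  Rx.mk (nat_lit 503) (nat_lit 7) (nat_lit 6) (nat_lit 7) (nat_lit 7) (nat_lit 45) (nat_lit 113) r1_45 r3_113 (nat_lit 0) (nat_lit 0) (nat_lit 0) (nat_lit 0x208dbc254) (nat_lit 259604756)]
noncomputable def e23_7 : List Rx := [
  Rx.mk (nat_lit 292) (nat_lit 4) (nat_lit 4) (nat_lit 4) (nat_lit 0) (nat_lit 94) (nat_lit 111) r1_94 r0_111 (nat_lit 71503781) (nat_lit 1132) (nat_lit 1151) (nat_lit 0x1ffffcd4c) (nat_lit 339943120),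
  Rx.mk (nat_lit 300) (nat_lit 4) (nat_lit 5) (nat_lit 4) (nat_lit 2) (nat_lit 95) (nat_lit 114) r1_95 r0_114 (nat_lit 104667208) (nat_lit 0) (nat_lit 4173814) (nat_lit 0x200e73d6c) (nat_lit 376678078),
  Rx.mk (nat_lit 308) (nat_lit 4) (nat_lit 6) (nat_lit 4) (nat_lit 2) (nat_lit 96) (nat_lit 118) r1_96 r0_118 (nat_lit 56350289) (nat_lit 0) (nat_lit 10218001) (nat_lit 0x1f745a79e) (nat_lit 344506196),
  Rx.mk (nat_lit 310) (nat_lit 6) (nat_lit 6) (nat_lit 4) (nat_lit 3) (nat_lit 97) (nat_lit 121) r1_97 r0_121 (nat_lit 0) (nat_lit 0) (nat_lit 7542287) (nat_lit 0x201cafd36) (nat_lit 274462593),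
  Rx.mk (nat_lit 438) (nat_lit 6) (nat_lit 6) (nat_lit 6) (nat_lit 7) (nat_lit 98) (nat_lit 123) r1_98 r0_123 (nat_lit 0) (nat_lit 0) (nat_lit 0) (nat_lit 0x20056d4f2) (nat_lit 268435456),
  Rx.mk (nat_lit 484) (nat_lit 4) (nat_lit 4) (nat_lit 7) (nat_lit 4) (nat_lit 99) (nat_lit 112) r1_99 r0_112 (nat_lit 34468149) (nat_lit 3336276) (nat_lit 0) (nat_lit 0x1d1651a5a) (nat_lit 355883931),
  Rx.mk (nat_lit 487) (nat_lit 7) (nat_lit 4) (nat_lit 7) (nat_lit 5) (nat_lit 103) (nat_lit 113) r1_103 r0_113 (nat_lit 0) (nat_lit 7095785) (nat_lit 0) (nat_lit 0x1f099b1ce) (nat_lit 292101241),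
  Rx.mk (nat_lit 492) (nat_lit 4) (nat_lit 5) (nat_lit 7) (nat_lit 6) (nat_lit 100) (nat_lit 115) r1_100 r0_115 (nat_lit 13267100) (nat_lit 0) (nat_lit 0) (nat_lit 0x1fdaa1d54) (nat_lit 284493406),
  Rx.mk (nat_lit 495) (nat_lit 7) (nat_lit 5) (nat_lit 7) (nat_lit 7) (nat_lit 104) (nat_lit 116) r1_104 r0_116 (nat_lit 0) (nat_lit 0) (nat_lit 0) (nat_lit 0x20056d4f2) (nat_lit 268435456),
  Rx.mk (nat_lit 500) (nat_lit 4) (nat_lit 6) (nat_lit 7) (nat_lit 6) (nat_lit 101) (nat_lit 119) r1_101 r0_119 (nat_lit 11841269) (nat_lit 0) (nat_lit 0) (nat_lit 0x20e29fb5e) (nat_lit 266000725),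
  Rx.mk (nat_lit 502) (nat_lit 6) (nat_lit 6) (nat_lit 7) (nat_lit 7) (nat_lit 102) (nat_lit 122) r1_102 r0_122 (nat_lit 0) (nat_lit 0) (nat_lit 0) (nat_lit 0x20056d4f2) (nat_lit 268435456),
  Rx.mk (nat_lit 503) (nat_lit 7) (nat_lit 6) (nat_lit 7) (nat_lit 7) (nat_lit 105) (nat_lit 120) r1_105 r0_120 (nat_lit 0) (nat_lit 0) (nat_lit 0) (nat_lit 0x20056d4f2) (nat_lit 268435456),
  Rx.mk (nat_lit 511) (nat_lit 7) (nat_lit 7) (nat_lit 7) (nat_lit 7) (nat_lit 106) (nat_lit 117) r1_106 r0_117 (nat_lit 0) (nat_lit 0) (nat_lit 0) (nat_lit 0x20056d4f2) (nat_lit 268435456)]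
noncomputable def e23_8 : List Rx := [
  Rx.mk (nat_lit 292) (nat_lit 4) (nat_lit 4) (nat_lit 4) (nat_lit 0) (nat_lit 117) (nat_lit 117) r1_117 r1_117 (nat_lit 105483682) (nat_lit 1682105) (nat_lit 1682105) (nat_lit 0x1bdb6cc2e) (nat_lit 447817298),
  Rx.mk (nat_lit 300) (nat_lit 4) (nat_lit 5) (nat_lit 4) (nat_lit 2) (nat_lit 118) (nat_lit 121) r1_118 r1_121 (nat_lit 46106178) (nat_lit 0) (nat_lit 8738590) (nat_lit 0x1f9c60932) (nat_lit 330152724),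
  Rx.mk (nat_lit 308) (nat_lit 4) (nat_lit 6) (nat_lit 4) (nat_lit 2) (nat_lit 119) (nat_lit 126) r1_119 r1_126 (nat_lit 20374386) (nat_lit 0) (nat_lit 9200414) (nat_lit 0x1f8488b34) (nat_lit 306458406),
  Rx.mk (nat_lit 310) (nat_lit 6) (nat_lit 6) (nat_lit 4) (nat_lit 3) (nat_lit 120) (nat_lit 128) r1_120 r1_128 (nat_lit 0) (nat_lit 0) (nat_lit 8607444) (nat_lit 0x1fd46f940) (nat_lit 280240350),
  Rx.mk (nat_lit 356) (nat_lit 4) (nat_lit 4) (nat_lit 5) (nat_lit 4) (nat_lit 121) (nat_lit 118) r1_121 r1_118 (nat_lit 46106178) (nat_lit 8738590) (nat_lit 0) (nat_lit 0x1f9c60932) (nat_lit 330152724),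
  Rx.mk (nat_lit 364) (nat_lit 4) (nat_lit 5) (nat_lit 5) (nat_lit 6) (nat_lit 122) (nat_lit 122) r1_122 r1_122 (nat_lit 9484367) (nat_lit 0) (nat_lit 0) (nat_lit 0x20219099a) (nat_lit 276087973),
  Rx.mk (nat_lit 372) (nat_lit 4) (nat_lit 6) (nat_lit 5) (nat_lit 6) (nat_lit 123) (nat_lit 127) r1_123 r1_127 (nat_lit 9484367) (nat_lit 0) (nat_lit 0) (nat_lit 0x20056d4f2) (nat_lit 277919823),
  Rx.mk (nat_lit 374) (nat_lit 6) (nat_lit 6) (nat_lit 5) (nat_lit 7) (nat_lit 124) (nat_lit 129) r1_124 r1_129 (nat_lit 0) (nat_lit 0) (nat_lit 0) (nat_lit 0x20056d4f2) (nat_lit 268435456),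
  Rx.mk (nat_lit 438) (nat_lit 6) (nat_lit 6) (nat_lit 6) (nat_lit 7) (nat_lit 125) (nat_lit 130) r1_125 r1_130 (nat_lit 0) (nat_lit 0) (nat_lit 0) (nat_lit 0x20056d4f2) (nat_lit 268435456),
  Rx.mk (nat_lit 484) (nat_lit 4) (nat_lit 4) (nat_lit 7) (nat_lit 4) (nat_lit 126) (nat_lit 119) r1_126 r1_119 (nat_lit 20374386) (nat_lit 9200414) (nat_lit 0) (nat_lit 0x1f8488b34) (nat_lit 306458406),
  Rx.mk (nat_lit 487) (nat_lit 7) (nat_lit 4) (nat_lit 7) (nat_lit 5) (nat_lit 128) (nat_lit 120) r1_128 r1_120 (nat_lit 0) (nat_lit 8607444) (nat_lit 0) (nat_lit 0x1fd46f940) (nat_lit 280240350),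
  Rx.mk (nat_lit 492) (nat_lit 4) (nat_lit 5) (nat_lit 7) (nat_lit 6) (nat_lit 127) (nat_lit 123) r1_127 r1_123 (nat_lit 9484367) (nat_lit 0) (nat_lit 0) (nat_lit 0x20056d4f2) (nat_lit 277919823),
  Rx.mk (nat_lit 495) (nat_lit 7) (nat_lit 5) (nat_lit 7) (nat_lit 7) (nat_lit 129) (nat_lit 124) r1_129 r1_124 (nat_lit 0) (nat_lit 0) (nat_lit 0) (nat_lit 0x20056d4f2) (nat_lit 268435456),
  Rx.mk (nat_lit 511) (nat_lit 7) (nat_lit 7) (nat_lit 7) (nat_lit 7) (nat_lit 130) (nat_lit 125) r1_130 r1_125 (nat_lit 0) (nat_lit 0) (nat_lit 0) (nat_lit 0x20056d4f2) (nat_lit 268435456)]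
noncomputable def e23_9 : List Rx := [
  Rx.mk (nat_lit 484) (nat_lit 4) (nat_lit 4) (nat_lit 7) (nat_lit 4) (nat_lit 154) (nat_lit 107) r1_154 r4_107 (nat_lit 72610807) (nat_lit 3083789) (nat_lit 0) (nat_lit 0x1da7e785c) (nat_lit 384120802),
  Rx.mk (nat_lit 487) (nat_lit 7) (nat_lit 4) (nat_lit 7) (nat_lit 5) (nat_lit 158) (nat_lit 108) r1_158 r4_108 (nat_lit 0) (nat_lit 5176119) (nat_lit 0) (nat_lit 0x1fab3b772) (nat_lit 279503175),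
  Rx.mk (nat_lit 492) (nat_lit 4) (nat_lit 5) (nat_lit 7) (nat_lit 6) (nat_lit 155) (nat_lit 109) r1_155 r4_109 (nat_lit 10426591) (nat_lit 0) (nat_lit 0) (nat_lit 0x2064ff000) (nat_lit 272663397),
  Rx.mk (nat_lit 495) (nat_lit 7) (nat_lit 5) (nat_lit 7) (nat_lit 7) (nat_lit 159) (nat_lit 110) r1_159 r4_110 (nat_lit 0) (nat_lit 0) (nat_lit 0) (nat_lit 0x207453f38) (nat_lit 261249556),
  Rx.mk (nat_lit 500) (nat_lit 4) (nat_lit 6) (nat_lit 7) (nat_lit 6) (nat_lit 156) (nat_lit 111) r1_156 r4_111 (nat_lit 12447961) (nat_lit 0) (nat_lit 0) (nat_lit 0x209304a72) (nat_lit 271717417),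
  Rx.mk (nat_lit 502) (nat_lit 6) (nat_lit 6) (nat_lit 7) (nat_lit 7) (nat_lit 157) (nat_lit 113) r1_157 r4_113 (nat_lit 0) (nat_lit 0) (nat_lit 0) (nat_lit 0x20056d4f2) (nat_lit 268435456),
  Rx.mk (nat_lit 503) (nat_lit 7) (nat_lit 6) (nat_lit 7) (nat_lit 7) (nat_lit 160) (nat_lit 112) r1_160 r4_112 (nat_lit 0) (nat_lit 0) (nat_lit 0) (nat_lit 0x20610c45c) (nat_lit 262493306)]
noncomputable def e23_10 : List Rx := [
  Rx.mk (nat_lit 47) (nat_lit 7) (nat_lit 5) (nat_lit 0) (nat_lit 3) (nat_lit 246) (nat_lit 179) r1_246 r6_179 (nat_lit 0) (nat_lit 0) (nat_lit 1926974) (nat_lit 0x22142ee30) (nat_lit 236462830),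
  Rx.mk (nat_lit 236) (nat_lit 4) (nat_lit 5) (nat_lit 3) (nat_lit 6) (nat_lit 247) (nat_lit 178) r1_247 r6_178 (nat_lit 603204) (nat_lit 0) (nat_lit 0) (nat_lit 0x214e18854) (nat_lit 247758010),
  Rx.mk (nat_lit 239) (nat_lit 7) (nat_lit 5) (nat_lit 3) (nat_lit 7) (nat_lit 248) (nat_lit 180) r1_248 r6_180 (nat_lit 0) (nat_lit 0) (nat_lit 0) (nat_lit 0x2545a608c) (nat_lit 182309556)]
noncomputable def e23_11 : List Rx := [
  Rx.mk (nat_lit 228) (nat_lit 4) (nat_lit 4) (nat_lit 3) (nat_lit 4) (nat_lit 229) (nat_lit 107) r1_229 r5_107 (nat_lit 1577709) (nat_lit 1010839) (nat_lit 0) (nat_lit 0x1cd78d18e) (nat_lit 324800054),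
  Rx.mk (nat_lit 231) (nat_lit 7) (nat_lit 4) (nat_lit 3) (nat_lit 5) (nat_lit 231) (nat_lit 108) r1_231 r5_108 (nat_lit 0) (nat_lit 2633536) (nat_lit 0) (nat_lit 0x206188944) (nat_lit 265076892),
  Rx.mk (nat_lit 236) (nat_lit 4) (nat_lit 5) (nat_lit 3) (nat_lit 6) (nat_lit 230) (nat_lit 110) r1_230 r5_110 (nat_lit 7840804) (nat_lit 0) (nat_lit 0) (nat_lit 0x201fd6cee) (nat_lit 274550960),
  Rx.mk (nat_lit 239) (nat_lit 7) (nat_lit 5) (nat_lit 3) (nat_lit 7) (nat_lit 232) (nat_lit 111) r1_232 r5_111 (nat_lit 0) (nat_lit 0) (nat_lit 0) (nat_lit 0x20056d4f2) (nat_lit 268435456),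
  Rx.mk (nat_lit 255) (nat_lit 7) (nat_lit 7) (nat_lit 3) (nat_lit 7) (nat_lit 233) (nat_lit 112) r1_233 r5_112 (nat_lit 0) (nat_lit 0) (nat_lit 0) (nat_lit 0x20056d4f2) (nat_lit 268435456),
  Rx.mk (nat_lit 484) (nat_lit 4) (nat_lit 4) (nat_lit 7) (nat_lit 4) (nat_lit 225) (nat_lit 106) r1_225 r5_106 (nat_lit 30080640) (nat_lit 1166073) (nat_lit 0) (nat_lit 0x1fa8fae72) (nat_lit 305635719),
  Rx.mk (nat_lit 492) (nat_lit 4) (nat_lit 5) (nat_lit 7) (nat_lit 6) (nat_lit 226) (nat_lit 109) r1_226 r5_109 (nat_lit 9484367) (nat_lit 0) (nat_lit 0) (nat_lit 0x20df9d168) (nat_lit 263838473),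
  Rx.mk (nat_lit 500) (nat_lit 4) (nat_lit 6) (nat_lit 7) (nat_lit 6) (nat_lit 227) (nat_lit 113) r1_227 r5_113 (nat_lit 12680896) (nat_lit 0) (nat_lit 0) (nat_lit 0x20cc40b7e) (nat_lit 268272752),
  Rx.mk (nat_lit 502) (nat_lit 6) (nat_lit 6) (nat_lit 7) (nat_lit 7) (nat_lit 228) (nat_lit 114) r1_228 r5_114 (nat_lit 0) (nat_lit 0) (nat_lit 0) (nat_lit 0x203808ed4) (nat_lit 265137456)]
noncomputable def e23_12 : List Rx := [
  Rx.mk (nat_lit 45) (nat_lit 5) (nat_lit 5) (nat_lit 0) (nat_lit 3) (nat_lit 252) (nat_lit 282) r1_252 r0_282 (nat_lit 0) (nat_lit 0) (nat_lit 168759698) (nat_lit 0x1fff69344) (nat_lit 437235604),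
  Rx.mk (nat_lit 108) (nat_lit 4) (nat_lit 5) (nat_lit 1) (nat_lit 6) (nat_lit 253) (nat_lit 283) r1_253 r0_283 (nat_lit 8873187) (nat_lit 0) (nat_lit 0) (nat_lit 0x1ed1d1158) (nat_lit 297579593),
  Rx.mk (nat_lit 109) (nat_lit 5) (nat_lit 5) (nat_lit 1) (nat_lit 7) (nat_lit 254) (nat_lit 284) r1_254 r0_284 (nat_lit 0) (nat_lit 0) (nat_lit 0) (nat_lit 0x1f99bebe8) (nat_lit 275482756)]
noncomputable def e23_13 : List Rx := [
  Rx.mk (nat_lit 108) (nat_lit 4) (nat_lit 5) (nat_lit 1) (nat_lit 6) (nat_lit 256) (nat_lit 221) r1_256 r7_221 (nat_lit 9484367) (nat_lit 0) (nat_lit 0) (nat_lit 0x1ed793e56) (nat_lit 297812473),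
  Rx.mk (nat_lit 109) (nat_lit 5) (nat_lit 5) (nat_lit 1) (nat_lit 7) (nat_lit 257) (nat_lit 222) r1_257 r7_222 (nat_lit 0) (nat_lit 0) (nat_lit 0) (nat_lit 0x1fb224e26) (nat_lit 273879356)]
noncomputable def e23_14 : List Rx := [
  Rx.mk (nat_lit 45) (nat_lit 5) (nat_lit 5) (nat_lit 0) (nat_lit 3) (nat_lit 278) (nat_lit 278) r1_278 r1_278 (nat_lit 0) (nat_lit 0) (nat_lit 25554718) (nat_lit 0x208a3575c) (nat_lit 285374374),
  Rx.mk (nat_lit 109) (nat_lit 5) (nat_lit 5) (nat_lit 1) (nat_lit 7) (nat_lit 279) (nat_lit 279) r1_279 r1_279 (nat_lit 0) (nat_lit 0) (nat_lit 0) (nat_lit 0x20056d4f2) (nat_lit 268435456)]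
noncomputable def e23_15 : List Rx := [
  Rx.mk (nat_lit 109) (nat_lit 5) (nat_lit 5) (nat_lit 1) (nat_lit 7) (nat_lit 286) (nat_lit 180) r1_286 r8_180 (nat_lit 0) (nat_lit 0) (nat_lit 0) (nat_lit 0x20056d4f2) (nat_lit 268435456)]
noncomputable def e23_16 : List Rx := [
  Rx.mk (nat_lit 108) (nat_lit 4) (nat_lit 5) (nat_lit 1) (nat_lit 6) (nat_lit 276) (nat_lit 318) r1_276 r8_318 (nat_lit 9484367) (nat_lit 0) (nat_lit 0) (nat_lit 0x1fd832dac) (nat_lit 280871973),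
  Rx.mk (nat_lit 109) (nat_lit 5) (nat_lit 5) (nat_lit 1) (nat_lit 7) (nat_lit 277) (nat_lit 319) r1_277 r8_319 (nat_lit 0) (nat_lit 0) (nat_lit 0) (nat_lit 0x20056d4f2) (nat_lit 268435456),
  Rx.mk (nat_lit 364) (nat_lit 4) (nat_lit 5) (nat_lit 5) (nat_lit 6) (nat_lit 274) (nat_lit 316) r1_274 r8_316 (nat_lit 9484367) (nat_lit 0) (nat_lit 0) (nat_lit 0x1fcee3b0c) (nat_lit 281479073),
  Rx.mk (nat_lit 365) (nat_lit 5) (nat_lit 5) (nat_lit 5) (nat_lit 7) (nat_lit 275) (nat_lit 317) r1_275 r8_317 (nat_lit 0) (nat_lit 0) (nat_lit 0) (nat_lit 0x20056d4f2) (nat_lit 268435456)]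
noncomputable def e23_17 : List Rx := [
  Rx.mk (nat_lit 356) (nat_lit 4) (nat_lit 4) (nat_lit 5) (nat_lit 4) (nat_lit 262) (nat_lit 160) r1_262 r9_160 (nat_lit 13133979) (nat_lit 32489931) (nat_lit 0) (nat_lit 0x1939dcef6) (nat_lit 429324366),
  Rx.mk (nat_lit 357) (nat_lit 5) (nat_lit 4) (nat_lit 5) (nat_lit 5) (nat_lit 265) (nat_lit 163) r1_265 r9_163 (nat_lit 0) (nat_lit 9484367) (nat_lit 0) (nat_lit 0x1fe666b26) (nat_lit 279942473),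
  Rx.mk (nat_lit 364) (nat_lit 4) (nat_lit 5) (nat_lit 5) (nat_lit 6) (nat_lit 263) (nat_lit 161) r1_263 r9_161 (nat_lit 9869976) (nat_lit 0) (nat_lit 0) (nat_lit 0x1feb4a80e) (nat_lit 280007182),
  Rx.mk (nat_lit 365) (nat_lit 5) (nat_lit 5) (nat_lit 5) (nat_lit 7) (nat_lit 266) (nat_lit 164) r1_266 r9_164 (nat_lit 0) (nat_lit 0) (nat_lit 0) (nat_lit 0x20056d4f2) (nat_lit 268435456),
  Rx.mk (nat_lit 372) (nat_lit 4) (nat_lit 6) (nat_lit 5) (nat_lit 6) (nat_lit 264) (nat_lit 162) r1_264 r9_162 (nat_lit 9484367) (nat_lit 0) (nat_lit 0) (nat_lit 0x20056d4f2) (nat_lit 277919823),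
  Rx.mk (nat_lit 373) (nat_lit 5) (nat_lit 6) (nat_lit 5) (nat_lit 7) (nat_lit 267) (nat_lit 165) r1_267 r9_165 (nat_lit 0) (nat_lit 0) (nat_lit 0) (nat_lit 0x20056d4f2) (nat_lit 268435456),
  Rx.mk (nat_lit 374) (nat_lit 6) (nat_lit 6) (nat_lit 5) (nat_lit 7) (nat_lit 268) (nat_lit 166) r1_268 r9_166 (nat_lit 0) (nat_lit 0) (nat_lit 0) (nat_lit 0x20056d4f2) (nat_lit 268435456)]
noncomputable def e23_18 : List Rx := [
  Rx.mk (nat_lit 44) (nat_lit 4) (nat_lit 5) (nat_lit 0) (nat_lit 2) (nat_lit 297) (nat_lit 293) r1_297 r4_293 (nat_lit 7964941) (nat_lit 0) (nat_lit 37486881) (nat_lit 0x1e2447636) (nat_lit 345644678),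
  Rx.mk (nat_lit 45) (nat_lit 5) (nat_lit 5) (nat_lit 0) (nat_lit 3) (nat_lit 298) (nat_lit 294) r1_298 r4_294 (nat_lit 0) (nat_lit 0) (nat_lit 64041447) (nat_lit 0x1ecae2630) (nat_lit 353130703),
  Rx.mk (nat_lit 47) (nat_lit 7) (nat_lit 5) (nat_lit 0) (nat_lit 3) (nat_lit 299) (nat_lit 295) r1_299 r4_295 (nat_lit 0) (nat_lit 0) (nat_lit 9484367) (nat_lit 0x204029028) (nat_lit 274104223),
  Rx.mk (nat_lit 108) (nat_lit 4) (nat_lit 5) (nat_lit 1) (nat_lit 6) (nat_lit 300) (nat_lit 296) r1_300 r4_296 (nat_lit 8498519) (nat_lit 0) (nat_lit 0) (nat_lit 0x2004215b2) (nat_lit 277012825),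
  Rx.mk (nat_lit 109) (nat_lit 5) (nat_lit 5) (nat_lit 1) (nat_lit 7) (nat_lit 301) (nat_lit 297) r1_301 r4_297 (nat_lit 0) (nat_lit 0) (nat_lit 0) (nat_lit 0x203c80264) (nat_lit 264857406),
  Rx.mk (nat_lit 111) (nat_lit 7) (nat_lit 5) (nat_lit 1) (nat_lit 7) (nat_lit 302) (nat_lit 298) r1_302 r4_298 (nat_lit 0) (nat_lit 0) (nat_lit 0) (nat_lit 0x201adc162) (nat_lit 267040306)]
noncomputable def e23_19 : List Rx := [
  Rx.mk (nat_lit 108) (nat_lit 4) (nat_lit 5) (nat_lit 1) (nat_lit 6) (nat_lit 307) (nat_lit 172) r1_307 r10_172 (nat_lit 8852219) (nat_lit 0) (nat_lit 0) (nat_lit 0x1ee1179aa) (nat_lit 296542475),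
  Rx.mk (nat_lit 109) (nat_lit 5) (nat_lit 5) (nat_lit 1) (nat_lit 7) (nat_lit 308) (nat_lit 173) r1_308 r10_173 (nat_lit 0) (nat_lit 0) (nat_lit 0) (nat_lit 0x20056d4f2) (nat_lit 268435456),
  Rx.mk (nat_lit 111) (nat_lit 7) (nat_lit 5) (nat_lit 1) (nat_lit 7) (nat_lit 309) (nat_lit 174) r1_309 r10_174 (nat_lit 0) (nat_lit 0) (nat_lit 0) (nat_lit 0x20056d4f2) (nat_lit 268435456)]
noncomputable def e23_20 : List Rx := [
  Rx.mk (nat_lit 44) (nat_lit 4) (nat_lit 5) (nat_lit 0) (nat_lit 2) (nat_lit 316) (nat_lit 183) r1_316 r11_183 (nat_lit 12774047) (nat_lit 0) (nat_lit 59178764) (nat_lit 0x1dfe512e2) (nat_lit 374667667),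
  Rx.mk (nat_lit 45) (nat_lit 5) (nat_lit 5) (nat_lit 0) (nat_lit 3) (nat_lit 317) (nat_lit 186) r1_317 r11_186 (nat_lit 0) (nat_lit 0) (nat_lit 22776374) (nat_lit 0x1f59a92b0) (nat_lit 302473830),
  Rx.mk (nat_lit 47) (nat_lit 7) (nat_lit 5) (nat_lit 0) (nat_lit 3) (nat_lit 318) (nat_lit 189) r1_318 r11_189 (nat_lit 0) (nat_lit 0) (nat_lit 9484367) (nat_lit 0x20056d4f2) (nat_lit 277919823),
  Rx.mk (nat_lit 108) (nat_lit 4) (nat_lit 5) (nat_lit 1) (nat_lit 6) (nat_lit 319) (nat_lit 184) r1_319 r11_184 (nat_lit 9484367) (nat_lit 0) (nat_lit 0) (nat_lit 0x20056d4f2) (nat_lit 277919823),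
  Rx.mk (nat_lit 109) (nat_lit 5) (nat_lit 5) (nat_lit 1) (nat_lit 7) (nat_lit 320) (nat_lit 187) r1_320 r11_187 (nat_lit 0) (nat_lit 0) (nat_lit 0) (nat_lit 0x20056d4f2) (nat_lit 268435456),
  Rx.mk (nat_lit 111) (nat_lit 7) (nat_lit 5) (nat_lit 1) (nat_lit 7) (nat_lit 321) (nat_lit 190) r1_321 r11_190 (nat_lit 0) (nat_lit 0) (nat_lit 0) (nat_lit 0x20056d4f2) (nat_lit 268435456),
  Rx.mk (nat_lit 236) (nat_lit 4) (nat_lit 5) (nat_lit 3) (nat_lit 6) (nat_lit 322) (nat_lit 185) r1_322 r11_185 (nat_lit 7557539) (nat_lit 0) (nat_lit 0) (nat_lit 0x202295dd6) (nat_lit 274094945),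
  Rx.mk (nat_lit 237) (nat_lit 5) (nat_lit 5) (nat_lit 3) (nat_lit 7) (nat_lit 323) (nat_lit 188) r1_323 r11_188 (nat_lit 0) (nat_lit 0) (nat_lit 0) (nat_lit 0x214231770) (nat_lit 248034356)]
noncomputable def e23_21 : List Rx := [
  Rx.mk (nat_lit 356) (nat_lit 4) (nat_lit 4) (nat_lit 5) (nat_lit 4) (nat_lit 269) (nat_lit 83) r1_269 r9_83 (nat_lit 50589702) (nat_lit 10429633) (nat_lit 0) (nat_lit 0x1c8842fca) (nat_lit 388554141),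
  Rx.mk (nat_lit 372) (nat_lit 4) (nat_lit 6) (nat_lit 5) (nat_lit 6) (nat_lit 270) (nat_lit 84) r1_270 r9_84 (nat_lit 9484367) (nat_lit 0) (nat_lit 0) (nat_lit 0x20056d4f2) (nat_lit 277919823),
  Rx.mk (nat_lit 374) (nat_lit 6) (nat_lit 6) (nat_lit 5) (nat_lit 7) (nat_lit 271) (nat_lit 85) r1_271 r9_85 (nat_lit 0) (nat_lit 0) (nat_lit 0) (nat_lit 0x20056d4f2) (nat_lit 268435456)]
noncomputable def e23_22 : List Rx := [
  Rx.mk (nat_lit 251) (nat_lit 3) (nat_lit 7) (nat_lit 3) (nat_lit 7) (nat_lit 9) (nat_lit 20) r1_9 r0_20 (nat_lit 0) (nat_lit 0) (nat_lit 0) (nat_lit 0x2045d486a) (nat_lit 264245706),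
  Rx.mk (nat_lit 255) (nat_lit 7) (nat_lit 7) (nat_lit 3) (nat_lit 7) (nat_lit 8) (nat_lit 21) r1_8 r0_21 (nat_lit 0) (nat_lit 0) (nat_lit 0) (nat_lit 0x203066816) (nat_lit 265637806),
  Rx.mk (nat_lit 310) (nat_lit 6) (nat_lit 6) (nat_lit 4) (nat_lit 3) (nat_lit 0) (nat_lit 22) r1_0 r0_22 (nat_lit 0) (nat_lit 0) (nat_lit 6061326) (nat_lit 0x1e22fb854) (nat_lit 306330232),
  Rx.mk (nat_lit 438) (nat_lit 6) (nat_lit 6) (nat_lit 6) (nat_lit 7) (nat_lit 1) (nat_lit 29) r1_1 r0_29 (nat_lit 0) (nat_lit 0) (nat_lit 0) (nat_lit 0x20e22bba0) (nat_lit 254171106),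
  Rx.mk (nat_lit 484) (nat_lit 4) (nat_lit 4) (nat_lit 7) (nat_lit 4) (nat_lit 2) (nat_lit 23) r1_2 r0_23 (nat_lit 1901317) (nat_lit 1053210) (nat_lit 0) (nat_lit 0x1d06fa732) (nat_lit 322020483),
  Rx.mk (nat_lit 487) (nat_lit 7) (nat_lit 4) (nat_lit 7) (nat_lit 5) (nat_lit 5) (nat_lit 25) r1_5 r0_25 (nat_lit 0) (nat_lit 1484672) (nat_lit 0) (nat_lit 0x20258cca6) (nat_lit 267789778),
  Rx.mk (nat_lit 500) (nat_lit 4) (nat_lit 6) (nat_lit 7) (nat_lit 6) (nat_lit 3) (nat_lit 24) r1_3 r0_24 (nat_lit 6798811) (nat_lit 0) (nat_lit 0) (nat_lit 0x1fe079bd2) (nat_lit 277633767),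
  Rx.mk (nat_lit 502) (nat_lit 6) (nat_lit 6) (nat_lit 7) (nat_lit 7) (nat_lit 4) (nat_lit 28) r1_4 r0_28 (nat_lit 0) (nat_lit 0) (nat_lit 0) (nat_lit 0x232a6f1b2) (nat_lit 216775806),
  Rx.mk (nat_lit 503) (nat_lit 7) (nat_lit 6) (nat_lit 7) (nat_lit 7) (nat_lit 6) (nat_lit 27) r1_6 r0_27 (nat_lit 0) (nat_lit 0) (nat_lit 0) (nat_lit 0x204321550) (nat_lit 264427056),
  Rx.mk (nat_lit 511) (nat_lit 7) (nat_lit 7) (nat_lit 7) (nat_lit 7) (nat_lit 7) (nat_lit 26) r1_7 r0_26 (nat_lit 0) (nat_lit 0) (nat_lit 0) (nat_lit 0x204321550) (nat_lit 264427056)]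
noncomputable def e23_23 : List Rx := [
  Rx.mk (nat_lit 27) (nat_lit 3) (nat_lit 3) (nat_lit 0) (nat_lit 3) (nat_lit 20) (nat_lit 10) r1_20 r1_10 (nat_lit 0) (nat_lit 0) (nat_lit 4491237) (nat_lit 0x1d1a6e124) (nat_lit 322311393),
  Rx.mk (nat_lit 128) (nat_lit 0) (nat_lit 0) (nat_lit 2) (nat_lit 4) (nat_lit 21) (nat_lit 14) r1_21 r1_14 (nat_lit 7948) (nat_lit 6342) (nat_lit 0) (nat_lit 0x1db35dfce) (nat_lit 307517346),
  Rx.mk (nat_lit 130) (nat_lit 2) (nat_lit 0) (nat_lit 2) (nat_lit 5) (nat_lit 23) (nat_lit 17) r1_23 r1_17 (nat_lit 0) (nat_lit 5979) (nat_lit 0) (nat_lit 0x204d38110) (nat_lit 263506885),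
  Rx.mk (nat_lit 146) (nat_lit 2) (nat_lit 2) (nat_lit 2) (nat_lit 7) (nat_lit 24) (nat_lit 19) r1_24 r1_19 (nat_lit 0) (nat_lit 0) (nat_lit 0) (nat_lit 0x1fd3aa51e) (nat_lit 271677806),
  Rx.mk (nat_lit 152) (nat_lit 0) (nat_lit 3) (nat_lit 2) (nat_lit 6) (nat_lit 22) (nat_lit 15) r1_22 r1_15 (nat_lit 3879038) (nat_lit 0) (nat_lit 0) (nat_lit 0x1facb5e72) (nat_lit 278089644),
  Rx.mk (nat_lit 154) (nat_lit 2) (nat_lit 3) (nat_lit 2) (nat_lit 7) (nat_lit 25) (nat_lit 18) r1_25 r1_18 (nat_lit 0) (nat_lit 0) (nat_lit 0) (nat_lit 0x1fd3b41e0) (nat_lit 271675306),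
  Rx.mk (nat_lit 155) (nat_lit 3) (nat_lit 3) (nat_lit 2) (nat_lit 7) (nat_lit 26) (nat_lit 16) r1_26 r1_16 (nat_lit 0) (nat_lit 0) (nat_lit 0) (nat_lit 0x2055ec0a4) (nat_lit 262974906),
  Rx.mk (nat_lit 219) (nat_lit 3) (nat_lit 3) (nat_lit 3) (nat_lit 7) (nat_lit 29) (nat_lit 11) r1_29 r1_11 (nat_lit 0) (nat_lit 0) (nat_lit 0) (nat_lit 0x1e3063ab4) (nat_lit 299334156),
  Rx.mk (nat_lit 251) (nat_lit 3) (nat_lit 7) (nat_lit 3) (nat_lit 7) (nat_lit 28) (nat_lit 12) r1_28 r1_12 (nat_lit 0) (nat_lit 0) (nat_lit 0) (nat_lit 0x200f83ea0) (nat_lit 267776556),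
  Rx.mk (nat_lit 255) (nat_lit 7) (nat_lit 7) (nat_lit 3) (nat_lit 7) (nat_lit 27) (nat_lit 13) r1_27 r1_13 (nat_lit 0) (nat_lit 0) (nat_lit 0) (nat_lit 0x1ffd6eff8) (nat_lit 268950056),
  Rx.mk (nat_lit 310) (nat_lit 6) (nat_lit 6) (nat_lit 4) (nat_lit 3) (nat_lit 10) (nat_lit 20) r1_10 r1_20 (nat_lit 0) (nat_lit 0) (nat_lit 4491237) (nat_lit 0x1d1a6e124) (nat_lit 322311393),
  Rx.mk (nat_lit 402) (nat_lit 2) (nat_lit 2) (nat_lit 6) (nat_lit 7) (nat_lit 13) (nat_lit 27) r1_13 r1_27 (nat_lit 0) (nat_lit 0) (nat_lit 0) (nat_lit 0x1ffd6eff8) (nat_lit 268950056),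
  Rx.mk (nat_lit 406) (nat_lit 6) (nat_lit 2) (nat_lit 6) (nat_lit 7) (nat_lit 12) (nat_lit 28) r1_12 r1_28 (nat_lit 0) (nat_lit 0) (nat_lit 0) (nat_lit 0x200f83ea0) (nat_lit 267776556),
  Rx.mk (nat_lit 438) (nat_lit 6) (nat_lit 6) (nat_lit 6) (nat_lit 7) (nat_lit 11) (nat_lit 29) r1_11 r1_29 (nat_lit 0) (nat_lit 0) (nat_lit 0) (nat_lit 0x1e3063ab4) (nat_lit 299334156),
  Rx.mk (nat_lit 484) (nat_lit 4) (nat_lit 4) (nat_lit 7) (nat_lit 4) (nat_lit 14) (nat_lit 21) r1_14 r1_21 (nat_lit 7948) (nat_lit 6342) (nat_lit 0) (nat_lit 0x1db35dfce) (nat_lit 307517346),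
  Rx.mk (nat_lit 487) (nat_lit 7) (nat_lit 4) (nat_lit 7) (nat_lit 5) (nat_lit 17) (nat_lit 23) r1_17 r1_23 (nat_lit 0) (nat_lit 5979) (nat_lit 0) (nat_lit 0x204d38110) (nat_lit 263506885),
  Rx.mk (nat_lit 500) (nat_lit 4) (nat_lit 6) (nat_lit 7) (nat_lit 6) (nat_lit 15) (nat_lit 22) r1_15 r1_22 (nat_lit 3879038) (nat_lit 0) (nat_lit 0) (nat_lit 0x1facb5e72) (nat_lit 278089644),
  Rx.mk (nat_lit 502) (nat_lit 6) (nat_lit 6) (nat_lit 7) (nat_lit 7) (nat_lit 16) (nat_lit 26) r1_16 r1_26 (nat_lit 0) (nat_lit 0) (nat_lit 0) (nat_lit 0x2055ec0a4) (nat_lit 262974906),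
  Rx.mk (nat_lit 503) (nat_lit 7) (nat_lit 6) (nat_lit 7) (nat_lit 7) (nat_lit 18) (nat_lit 25) r1_18 r1_25 (nat_lit 0) (nat_lit 0) (nat_lit 0) (nat_lit 0x1fd3b41e0) (nat_lit 271675306),
  Rx.mk (nat_lit 511) (nat_lit 7) (nat_lit 7) (nat_lit 7) (nat_lit 7) (nat_lit 19) (nat_lit 24) r1_19 r1_24 (nat_lit 0) (nat_lit 0) (nat_lit 0) (nat_lit 0x1fd3aa51e) (nat_lit 271677806)]
noncomputable def e23_24 : List Rx := [
  Rx.mk (nat_lit 231) (nat_lit 7) (nat_lit 4) (nat_lit 3) (nat_lit 5) (nat_lit 55) (nat_lit 14) r1_55 r4_14 (nat_lit 0) (nat_lit 4677671) (nat_lit 0) (nat_lit 0x2069dbd26) (nat_lit 266600427),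
  Rx.mk (nat_lit 251) (nat_lit 3) (nat_lit 7) (nat_lit 3) (nat_lit 7) (nat_lit 57) (nat_lit 13) r1_57 r4_13 (nat_lit 0) (nat_lit 0) (nat_lit 0) (nat_lit 0x209de56bc) (nat_lit 258574406),
  Rx.mk (nat_lit 255) (nat_lit 7) (nat_lit 7) (nat_lit 3) (nat_lit 7) (nat_lit 56) (nat_lit 15) r1_56 r4_15 (nat_lit 0) (nat_lit 0) (nat_lit 0) (nat_lit 0x206888b4a) (nat_lit 262011206),
  Rx.mk (nat_lit 484) (nat_lit 4) (nat_lit 4) (nat_lit 7) (nat_lit 4) (nat_lit 50) (nat_lit 16) r1_50 r4_16 (nat_lit 14713705) (nat_lit 4415399) (nat_lit 0) (nat_lit 0x1df5a2f24) (nat_lit 322395360),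
  Rx.mk (nat_lit 487) (nat_lit 7) (nat_lit 4) (nat_lit 7) (nat_lit 5) (nat_lit 53) (nat_lit 18) r1_53 r4_18 (nat_lit 0) (nat_lit 4829277) (nat_lit 0) (nat_lit 0x1fc618c5c) (nat_lit 277393433),
  Rx.mk (nat_lit 500) (nat_lit 4) (nat_lit 6) (nat_lit 7) (nat_lit 6) (nat_lit 51) (nat_lit 17) r1_51 r4_17 (nat_lit 7667538) (nat_lit 0) (nat_lit 0) (nat_lit 0x2056e0442) (nat_lit 270816144),
  Rx.mk (nat_lit 502) (nat_lit 6) (nat_lit 6) (nat_lit 7) (nat_lit 7) (nat_lit 52) (nat_lit 20) r1_52 r4_20 (nat_lit 0) (nat_lit 0) (nat_lit 0) (nat_lit 0x218b1a504) (nat_lit 243353006),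
  Rx.mk (nat_lit 503) (nat_lit 7) (nat_lit 6) (nat_lit 7) (nat_lit 7) (nat_lit 54) (nat_lit 19) r1_54 r4_19 (nat_lit 0) (nat_lit 0) (nat_lit 0) (nat_lit 0x204cb4824) (nat_lit 263807506)]
noncomputable def e23_25 : List Rx := [
  Rx.mk (nat_lit 292) (nat_lit 4) (nat_lit 4) (nat_lit 4) (nat_lit 0) (nat_lit 107) (nat_lit 126) r1_107 r7_126 (nat_lit 4920335) (nat_lit 745275) (nat_lit 1141544) (nat_lit 0x109a327e6) (nat_lit 536953810),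
  Rx.mk (nat_lit 308) (nat_lit 4) (nat_lit 6) (nat_lit 4) (nat_lit 2) (nat_lit 108) (nat_lit 130) r1_108 r7_130 (nat_lit 34669275) (nat_lit 0) (nat_lit 14689334) (nat_lit 0x1dc530cc4) (nat_lit 355866165),
  Rx.mk (nat_lit 310) (nat_lit 6) (nat_lit 6) (nat_lit 4) (nat_lit 3) (nat_lit 109) (nat_lit 133) r1_109 r7_133 (nat_lit 0) (nat_lit 0) (nat_lit 8870652) (nat_lit 0x1fc54f38e) (nat_lit 281480458),
  Rx.mk (nat_lit 438) (nat_lit 6) (nat_lit 6) (nat_lit 6) (nat_lit 7) (nat_lit 110) (nat_lit 135) r1_110 r7_135 (nat_lit 0) (nat_lit 0) (nat_lit 0) (nat_lit 0x20056d4f2) (nat_lit 268435456),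
  Rx.mk (nat_lit 484) (nat_lit 4) (nat_lit 4) (nat_lit 7) (nat_lit 4) (nat_lit 111) (nat_lit 127) r1_111 r7_127 (nat_lit 1363821) (nat_lit 648751) (nat_lit 0) (nat_lit 0x196197c66) (nat_lit 383004978),
  Rx.mk (nat_lit 487) (nat_lit 7) (nat_lit 4) (nat_lit 7) (nat_lit 5) (nat_lit 114) (nat_lit 128) r1_114 r7_128 (nat_lit 0) (nat_lit 4901484) (nat_lit 0) (nat_lit 0x1e15b6d9c) (nat_lit 306066590),
  Rx.mk (nat_lit 500) (nat_lit 4) (nat_lit 6) (nat_lit 7) (nat_lit 6) (nat_lit 112) (nat_lit 131) r1_112 r7_131 (nat_lit 11532138) (nat_lit 0) (nat_lit 0) (nat_lit 0x200c99f0a) (nat_lit 279487844),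
  Rx.mk (nat_lit 502) (nat_lit 6) (nat_lit 6) (nat_lit 7) (nat_lit 7) (nat_lit 113) (nat_lit 134) r1_113 r7_134 (nat_lit 0) (nat_lit 0) (nat_lit 0) (nat_lit 0x204560096) (nat_lit 264283306),
  Rx.mk (nat_lit 503) (nat_lit 7) (nat_lit 6) (nat_lit 7) (nat_lit 7) (nat_lit 115) (nat_lit 132) r1_115 r7_132 (nat_lit 0) (nat_lit 0) (nat_lit 0) (nat_lit 0x20056d4f2) (nat_lit 268435456),
  Rx.mk (nat_lit 511) (nat_lit 7) (nat_lit 7) (nat_lit 7) (nat_lit 7) (nat_lit 116) (nat_lit 129) r1_116 r7_129 (nat_lit 0) (nat_lit 0) (nat_lit 0) (nat_lit 0x20056d4f2) (nat_lit 268435456)]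
noncomputable def e23_26 : List Rx := [
  Rx.mk (nat_lit 292) (nat_lit 4) (nat_lit 4) (nat_lit 4) (nat_lit 0) (nat_lit 141) (nat_lit 90) r1_141 r8_90 (nat_lit 11933065) (nat_lit 2921945) (nat_lit 4308292) (nat_lit 0x103c1157c) (nat_lit 555604158),
  Rx.mk (nat_lit 308) (nat_lit 4) (nat_lit 6) (nat_lit 4) (nat_lit 2) (nat_lit 142) (nat_lit 94) r1_142 r8_94 (nat_lit 19611998) (nat_lit 0) (nat_lit 14059414) (nat_lit 0x1db198414) (nat_lit 341479368),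
  Rx.mk (nat_lit 310) (nat_lit 6) (nat_lit 6) (nat_lit 4) (nat_lit 3) (nat_lit 143) (nat_lit 97) r1_143 r8_97 (nat_lit 0) (nat_lit 0) (nat_lit 9484367) (nat_lit 0x20000ee3e) (nat_lit 278269023),
  Rx.mk (nat_lit 402) (nat_lit 2) (nat_lit 2) (nat_lit 6) (nat_lit 7) (nat_lit 146) (nat_lit 101) r1_146 r8_101 (nat_lit 0) (nat_lit 0) (nat_lit 0) (nat_lit 0x20056d4f2) (nat_lit 268435456),
  Rx.mk (nat_lit 406) (nat_lit 6) (nat_lit 2) (nat_lit 6) (nat_lit 7) (nat_lit 145) (nat_lit 100) r1_145 r8_100 (nat_lit 0) (nat_lit 0) (nat_lit 0) (nat_lit 0x20056d4f2) (nat_lit 268435456),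
  Rx.mk (nat_lit 438) (nat_lit 6) (nat_lit 6) (nat_lit 6) (nat_lit 7) (nat_lit 144) (nat_lit 99) r1_144 r8_99 (nat_lit 0) (nat_lit 0) (nat_lit 0) (nat_lit 0x20056d4f2) (nat_lit 268435456),
  Rx.mk (nat_lit 484) (nat_lit 4) (nat_lit 4) (nat_lit 7) (nat_lit 4) (nat_lit 147) (nat_lit 91) r1_147 r8_91 (nat_lit 10663373) (nat_lit 3978459) (nat_lit 0) (nat_lit 0x18b957628) (nat_lit 406863088),
  Rx.mk (nat_lit 487) (nat_lit 7) (nat_lit 4) (nat_lit 7) (nat_lit 5) (nat_lit 150) (nat_lit 92) r1_150 r8_92 (nat_lit 0) (nat_lit 8196881) (nat_lit 0) (nat_lit 0x1ec204662) (nat_lit 297938937),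
  Rx.mk (nat_lit 500) (nat_lit 4) (nat_lit 6) (nat_lit 7) (nat_lit 6) (nat_lit 148) (nat_lit 95) r1_148 r8_95 (nat_lit 9657344) (nat_lit 0) (nat_lit 0) (nat_lit 0x1ff57a838) (nat_lit 279131350),
  Rx.mk (nat_lit 502) (nat_lit 6) (nat_lit 6) (nat_lit 7) (nat_lit 7) (nat_lit 149) (nat_lit 98) r1_149 r8_98 (nat_lit 0) (nat_lit 0) (nat_lit 0) (nat_lit 0x20056d4f2) (nat_lit 268435456),
  Rx.mk (nat_lit 503) (nat_lit 7) (nat_lit 6) (nat_lit 7) (nat_lit 7) (nat_lit 151) (nat_lit 96) r1_151 r8_96 (nat_lit 0) (nat_lit 0) (nat_lit 0) (nat_lit 0x20056d4f2) (nat_lit 268435456),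
  Rx.mk (nat_lit 511) (nat_lit 7) (nat_lit 7) (nat_lit 7) (nat_lit 7) (nat_lit 152) (nat_lit 93) r1_152 r8_93 (nat_lit 0) (nat_lit 0) (nat_lit 0) (nat_lit 0x20056d4f2) (nat_lit 268435456)]
noncomputable def e23_27 : List Rx := [
  Rx.mk (nat_lit 292) (nat_lit 4) (nat_lit 4) (nat_lit 4) (nat_lit 0) (nat_lit 131) (nat_lit 15) r1_131 r8_15 (nat_lit 16284288) (nat_lit 5200936) (nat_lit 12970436) (nat_lit 0x1431ccdd8) (nat_lit 503628066),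
  Rx.mk (nat_lit 308) (nat_lit 4) (nat_lit 6) (nat_lit 4) (nat_lit 2) (nat_lit 132) (nat_lit 16) r1_132 r8_16 (nat_lit 22083687) (nat_lit 0) (nat_lit 19111015) (nat_lit 0x1d7134e54) (nat_lit 353280508),
  Rx.mk (nat_lit 310) (nat_lit 6) (nat_lit 6) (nat_lit 4) (nat_lit 3) (nat_lit 133) (nat_lit 17) r1_133 r8_17 (nat_lit 0) (nat_lit 0) (nat_lit 6904608) (nat_lit 0x20290cb56) (nat_lit 273020764),
  Rx.mk (nat_lit 356) (nat_lit 4) (nat_lit 4) (nat_lit 5) (nat_lit 4) (nat_lit 134) (nat_lit 18) r1_134 r8_18 (nat_lit 29107008) (nat_lit 9122221) (nat_lit 0) (nat_lit 0x1d0963e24) (nat_lit 357196735),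
  Rx.mk (nat_lit 372) (nat_lit 4) (nat_lit 6) (nat_lit 5) (nat_lit 6) (nat_lit 135) (nat_lit 19) r1_135 r8_19 (nat_lit 10065192) (nat_lit 0) (nat_lit 0) (nat_lit 0x1ff9d2c5a) (nat_lit 279255198),
  Rx.mk (nat_lit 374) (nat_lit 6) (nat_lit 6) (nat_lit 5) (nat_lit 7) (nat_lit 136) (nat_lit 20) r1_136 r8_20 (nat_lit 0) (nat_lit 0) (nat_lit 0) (nat_lit 0x20056d4f2) (nat_lit 268435456),
  Rx.mk (nat_lit 438) (nat_lit 6) (nat_lit 6) (nat_lit 6) (nat_lit 7) (nat_lit 137) (nat_lit 24) r1_137 r8_24 (nat_lit 0) (nat_lit 0) (nat_lit 0) (nat_lit 0x20056d4f2) (nat_lit 268435456),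
  Rx.mk (nat_lit 484) (nat_lit 4) (nat_lit 4) (nat_lit 7) (nat_lit 4) (nat_lit 138) (nat_lit 21) r1_138 r8_21 (nat_lit 20913238) (nat_lit 9541451) (nat_lit 0) (nat_lit 0x1e0c4cea0) (nat_lit 332249895),
  Rx.mk (nat_lit 487) (nat_lit 7) (nat_lit 4) (nat_lit 7) (nat_lit 5) (nat_lit 139) (nat_lit 22) r1_139 r8_22 (nat_lit 0) (nat_lit 8599271) (nat_lit 0) (nat_lit 0x1fb1e00d2) (nat_lit 282498427),
  Rx.mk (nat_lit 511) (nat_lit 7) (nat_lit 7) (nat_lit 7) (nat_lit 7) (nat_lit 140) (nat_lit 23) r1_140 r8_23 (nat_lit 0) (nat_lit 0) (nat_lit 0) (nat_lit 0x20056d4f2) (nat_lit 268435456)]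
noncomputable def e23_28 : List Rx := [
  Rx.mk (nat_lit 484) (nat_lit 4) (nat_lit 4) (nat_lit 7) (nat_lit 4) (nat_lit 161) (nat_lit 96) r1_161 r10_96 (nat_lit 835607) (nat_lit 419416) (nat_lit 0) (nat_lit 0x195be8716) (nat_lit 382608229),
  Rx.mk (nat_lit 487) (nat_lit 7) (nat_lit 4) (nat_lit 7) (nat_lit 5) (nat_lit 164) (nat_lit 97) r1_164 r10_97 (nat_lit 0) (nat_lit 8157982) (nat_lit 0) (nat_lit 0x1c3c07fca) (nat_lit 340752588),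
  Rx.mk (nat_lit 500) (nat_lit 4) (nat_lit 6) (nat_lit 7) (nat_lit 6) (nat_lit 162) (nat_lit 98) r1_162 r10_98 (nat_lit 9868051) (nat_lit 0) (nat_lit 0) (nat_lit 0x1fe805770) (nat_lit 280217007),
  Rx.mk (nat_lit 502) (nat_lit 6) (nat_lit 6) (nat_lit 7) (nat_lit 7) (nat_lit 163) (nat_lit 100) r1_163 r10_100 (nat_lit 0) (nat_lit 0) (nat_lit 0) (nat_lit 0x20361e1be) (nat_lit 265270956),
  Rx.mk (nat_lit 503) (nat_lit 7) (nat_lit 6) (nat_lit 7) (nat_lit 7) (nat_lit 165) (nat_lit 99) r1_165 r10_99 (nat_lit 0) (nat_lit 0) (nat_lit 0) (nat_lit 0x20056d4f2) (nat_lit 268435456)]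
noncomputable def e23_29 : List Rx := [
  Rx.mk (nat_lit 228) (nat_lit 4) (nat_lit 4) (nat_lit 3) (nat_lit 4) (nat_lit 237) (nat_lit 108) r1_237 r11_108 (nat_lit 11055571) (nat_lit 8059474) (nat_lit 0) (nat_lit 0x1f5e71306) (nat_lit 298517051),
  Rx.mk (nat_lit 231) (nat_lit 7) (nat_lit 4) (nat_lit 3) (nat_lit 5) (nat_lit 238) (nat_lit 109) r1_238 r11_109 (nat_lit 0) (nat_lit 9484367) (nat_lit 0) (nat_lit 0x20056d4f2) (nat_lit 277919823),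
  Rx.mk (nat_lit 255) (nat_lit 7) (nat_lit 7) (nat_lit 3) (nat_lit 7) (nat_lit 239) (nat_lit 110) r1_239 r11_110 (nat_lit 0) (nat_lit 0) (nat_lit 0) (nat_lit 0x20056d4f2) (nat_lit 268435456),
  Rx.mk (nat_lit 484) (nat_lit 4) (nat_lit 4) (nat_lit 7) (nat_lit 4) (nat_lit 234) (nat_lit 107) r1_234 r11_107 (nat_lit 35202404) (nat_lit 4901515) (nat_lit 0) (nat_lit 0x1f42f4ad8) (nat_lit 321308525),
  Rx.mk (nat_lit 500) (nat_lit 4) (nat_lit 6) (nat_lit 7) (nat_lit 6) (nat_lit 235) (nat_lit 111) r1_235 r11_111 (nat_lit 9603706) (nat_lit 0) (nat_lit 0) (nat_lit 0x2014202e2) (nat_lit 277079262),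
  Rx.mk (nat_lit 502) (nat_lit 6) (nat_lit 6) (nat_lit 7) (nat_lit 7) (nat_lit 236) (nat_lit 112) r1_236 r11_112 (nat_lit 0) (nat_lit 0) (nat_lit 0) (nat_lit 0x2166093be) (nat_lit 245732256)]
noncomputable def e23_30 : List Rx := [
  Rx.mk (nat_lit 47) (nat_lit 7) (nat_lit 5) (nat_lit 0) (nat_lit 3) (nat_lit 303) (nat_lit 273) r1_303 r5_273 (nat_lit 0) (nat_lit 0) (nat_lit 5178035) (nat_lit 0x21b74b3ee) (nat_lit 245703641),
  Rx.mk (nat_lit 111) (nat_lit 7) (nat_lit 5) (nat_lit 1) (nat_lit 7) (nat_lit 304) (nat_lit 274) r1_304 r5_274 (nat_lit 0) (nat_lit 0) (nat_lit 0) (nat_lit 0x23e9a944c) (nat_lit 204555456)]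
noncomputable def e23_31 : List Rx := [
  Rx.mk (nat_lit 111) (nat_lit 7) (nat_lit 5) (nat_lit 1) (nat_lit 7) (nat_lit 310) (nat_lit 338) r1_310 r11_338 (nat_lit 0) (nat_lit 0) (nat_lit 0) (nat_lit 0x20056d4f2) (nat_lit 268435456)]
noncomputable def e23_32 : List Rx := [
  Rx.mk (nat_lit 43) (nat_lit 3) (nat_lit 5) (nat_lit 0) (nat_lit 3) (nat_lit 88) (nat_lit 57) r1_88 r6_57 (nat_lit 0) (nat_lit 0) (nat_lit 4999611) (nat_lit 0x209b5945c) (nat_lit 263730017),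
  Rx.mk (nat_lit 235) (nat_lit 3) (nat_lit 5) (nat_lit 3) (nat_lit 7) (nat_lit 90) (nat_lit 58) r1_90 r6_58 (nat_lit 0) (nat_lit 0) (nat_lit 0) (nat_lit 0x21b4e08f2) (nat_lit 240691706),
  Rx.mk (nat_lit 239) (nat_lit 7) (nat_lit 5) (nat_lit 3) (nat_lit 7) (nat_lit 89) (nat_lit 56) r1_89 r6_56 (nat_lit 0) (nat_lit 0) (nat_lit 0) (nat_lit 0x250e7ac5c) (nat_lit 185808906)]
noncomputable def e23_33 : List Rx := [
  Rx.mk (nat_lit 227) (nat_lit 3) (nat_lit 4) (nat_lit 3) (nat_lit 5) (nat_lit 63) (nat_lit 6) r1_63 r5_6 (nat_lit 0) (nat_lit 2086460) (nat_lit 0) (nat_lit 0x1d06deeba) (nat_lit 321185666),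
  Rx.mk (nat_lit 231) (nat_lit 7) (nat_lit 4) (nat_lit 3) (nat_lit 5) (nat_lit 61) (nat_lit 9) r1_61 r5_9 (nat_lit 0) (nat_lit 1772773) (nat_lit 0) (nat_lit 0x1fd3538a4) (nat_lit 273424379),
  Rx.mk (nat_lit 235) (nat_lit 3) (nat_lit 5) (nat_lit 3) (nat_lit 7) (nat_lit 64) (nat_lit 7) r1_64 r5_7 (nat_lit 0) (nat_lit 0) (nat_lit 0) (nat_lit 0x1fca880e4) (nat_lit 272277656),
  Rx.mk (nat_lit 239) (nat_lit 7) (nat_lit 5) (nat_lit 3) (nat_lit 7) (nat_lit 62) (nat_lit 10) r1_62 r5_10 (nat_lit 0) (nat_lit 0) (nat_lit 0) (nat_lit 0x21704db40) (nat_lit 245082656),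
  Rx.mk (nat_lit 251) (nat_lit 3) (nat_lit 7) (nat_lit 3) (nat_lit 7) (nat_lit 65) (nat_lit 8) r1_65 r5_8 (nat_lit 0) (nat_lit 0) (nat_lit 0) (nat_lit 0x1ff97277e) (nat_lit 269205106),
  Rx.mk (nat_lit 487) (nat_lit 7) (nat_lit 4) (nat_lit 7) (nat_lit 5) (nat_lit 58) (nat_lit 11) r1_58 r5_11 (nat_lit 0) (nat_lit 1941131) (nat_lit 0) (nat_lit 0x1f2be95a0) (nat_lit 284641187),
  Rx.mk (nat_lit 495) (nat_lit 7) (nat_lit 5) (nat_lit 7) (nat_lit 7) (nat_lit 59) (nat_lit 12) r1_59 r5_12 (nat_lit 0) (nat_lit 0) (nat_lit 0) (nat_lit 0x225850dde) (nat_lit 230233306),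
  Rx.mk (nat_lit 503) (nat_lit 7) (nat_lit 6) (nat_lit 7) (nat_lit 7) (nat_lit 60) (nat_lit 13) r1_60 r5_13 (nat_lit 0) (nat_lit 0) (nat_lit 0) (nat_lit 0x207c318cc) (nat_lit 260737856)]
noncomputable def e23_34 : List Rx := [
  Rx.mk (nat_lit 487) (nat_lit 7) (nat_lit 4) (nat_lit 7) (nat_lit 5) (nat_lit 166) (nat_lit 2) r1_166 r11_2 (nat_lit 0) (nat_lit 9532976) (nat_lit 0) (nat_lit 0x1fc3f2f7c) (nat_lit 282249032),
  Rx.mk (nat_lit 495) (nat_lit 7) (nat_lit 5) (nat_lit 7) (nat_lit 7) (nat_lit 167) (nat_lit 3) r1_167 r11_3 (nat_lit 0) (nat_lit 0) (nat_lit 0) (nat_lit 0x20056d4f2) (nat_lit 268435456),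
  Rx.mk (nat_lit 503) (nat_lit 7) (nat_lit 6) (nat_lit 7) (nat_lit 7) (nat_lit 168) (nat_lit 4) r1_168 r11_4 (nat_lit 0) (nat_lit 0) (nat_lit 0) (nat_lit 0x20056d4f2) (nat_lit 268435456)]
noncomputable def e23_35 : List Rx := [
  Rx.mk (nat_lit 43) (nat_lit 3) (nat_lit 5) (nat_lit 0) (nat_lit 3) (nat_lit 241) (nat_lit 298) r1_241 r6_298 (nat_lit 0) (nat_lit 0) (nat_lit 9819301) (nat_lit 0x210ca9f76) (nat_lit 261242507),
  Rx.mk (nat_lit 47) (nat_lit 7) (nat_lit 5) (nat_lit 0) (nat_lit 3) (nat_lit 240) (nat_lit 299) r1_240 r6_299 (nat_lit 0) (nat_lit 0) (nat_lit 31922) (nat_lit 0x20e6230aa) (nat_lit 253759128)]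
noncomputable def e23_36 : List Rx := [
  Rx.mk (nat_lit 43) (nat_lit 3) (nat_lit 5) (nat_lit 0) (nat_lit 3) (nat_lit 250) (nat_lit 176) r1_250 r12_176 (nat_lit 0) (nat_lit 0) (nat_lit 7255466) (nat_lit 0x20ee82606) (nat_lit 260578772),
  Rx.mk (nat_lit 47) (nat_lit 7) (nat_lit 5) (nat_lit 0) (nat_lit 3) (nat_lit 249) (nat_lit 177) r1_249 r12_177 (nat_lit 0) (nat_lit 0) (nat_lit 21232) (nat_lit 0x2243b5f32) (nat_lit 231396038),
  Rx.mk (nat_lit 239) (nat_lit 7) (nat_lit 5) (nat_lit 3) (nat_lit 7) (nat_lit 251) (nat_lit 178) r1_251 r12_178 (nat_lit 0) (nat_lit 0) (nat_lit 0) (nat_lit 0x2637ba8d2) (nat_lit 166787206)]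
noncomputable def e23_37 : List Rx := [
  Rx.mk (nat_lit 11) (nat_lit 3) (nat_lit 1) (nat_lit 0) (nat_lit 3) (nat_lit 69) (nat_lit 76) r1_69 r0_76 (nat_lit 0) (nat_lit 0) (nat_lit 7606073) (nat_lit 0x1f4683d84) (nat_lit 288573429),
  Rx.mk (nat_lit 136) (nat_lit 0) (nat_lit 1) (nat_lit 2) (nat_lit 6) (nat_lit 70) (nat_lit 75) r1_70 r0_75 (nat_lit 3064142) (nat_lit 0) (nat_lit 0) (nat_lit 0x203e7efde) (nat_lit 267754448),
  Rx.mk (nat_lit 139) (nat_lit 3) (nat_lit 1) (nat_lit 2) (nat_lit 7) (nat_lit 71) (nat_lit 78) r1_71 r0_78 (nat_lit 0) (nat_lit 0) (nat_lit 0) (nat_lit 0x22d0de396) (nat_lit 222515206),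
  Rx.mk (nat_lit 203) (nat_lit 3) (nat_lit 1) (nat_lit 3) (nat_lit 7) (nat_lit 72) (nat_lit 77) r1_72 r0_77 (nat_lit 0) (nat_lit 0) (nat_lit 0) (nat_lit 0x202d73a00) (nat_lit 265825656)]
noncomputable def e23_38 : List Rx := [
  Rx.mk (nat_lit 8) (nat_lit 0) (nat_lit 1) (nat_lit 0) (nat_lit 2) (nat_lit 180) (nat_lit 265) r1_180 r0_265 (nat_lit 2915443) (nat_lit 0) (nat_lit 27431001) (nat_lit 0x1aee862ac) (nat_lit 385035350),
  Rx.mk (nat_lit 9) (nat_lit 1) (nat_lit 1) (nat_lit 0) (nat_lit 3) (nat_lit 182) (nat_lit 266) r1_182 r0_266 (nat_lit 0) (nat_lit 0) (nat_lit 13498567) (nat_lit 0x1febef980) (nat_lit 283586673),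
  Rx.mk (nat_lit 11) (nat_lit 3) (nat_lit 1) (nat_lit 0) (nat_lit 3) (nat_lit 183) (nat_lit 267) r1_183 r0_267 (nat_lit 0) (nat_lit 0) (nat_lit 116538040) (nat_lit 0x22883d93e) (nat_lit 343677296),
  Rx.mk (nat_lit 40) (nat_lit 0) (nat_lit 5) (nat_lit 0) (nat_lit 2) (nat_lit 179) (nat_lit 269) r1_179 r0_269 (nat_lit 6663) (nat_lit 0) (nat_lit 224842397) (nat_lit 0x203c84418) (nat_lit 489417766),
  Rx.mk (nat_lit 41) (nat_lit 1) (nat_lit 5) (nat_lit 0) (nat_lit 3) (nat_lit 181) (nat_lit 270) r1_181 r0_270 (nat_lit 0) (nat_lit 0) (nat_lit 31547541) (nat_lit 0x20169be36) (nat_lit 298828947),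
  Rx.mk (nat_lit 203) (nat_lit 3) (nat_lit 1) (nat_lit 3) (nat_lit 7) (nat_lit 184) (nat_lit 268) r1_184 r0_268 (nat_lit 0) (nat_lit 0) (nat_lit 0) (nat_lit 0x202a9392a) (nat_lit 265996306)]
noncomputable def e23_39 : List Rx := [
  Rx.mk (nat_lit 8) (nat_lit 0) (nat_lit 1) (nat_lit 0) (nat_lit 2) (nat_lit 192) (nat_lit 64) r1_192 r7_64 (nat_lit 4648863) (nat_lit 0) (nat_lit 10430206) (nat_lit 0x1ba0815a6) (nat_lit 357965125),
  Rx.mk (nat_lit 9) (nat_lit 1) (nat_lit 1) (nat_lit 0) (nat_lit 3) (nat_lit 193) (nat_lit 66) r1_193 r7_66 (nat_lit 0) (nat_lit 0) (nat_lit 10636325) (nat_lit 0x1f952452e) (nat_lit 286423531),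
  Rx.mk (nat_lit 11) (nat_lit 3) (nat_lit 1) (nat_lit 0) (nat_lit 3) (nat_lit 194) (nat_lit 68) r1_194 r7_68 (nat_lit 0) (nat_lit 0) (nat_lit 77834362) (nat_lit 0x23c840ddc) (nat_lit 284519518),
  Rx.mk (nat_lit 136) (nat_lit 0) (nat_lit 1) (nat_lit 2) (nat_lit 6) (nat_lit 195) (nat_lit 65) r1_195 r7_65 (nat_lit 4369240) (nat_lit 0) (nat_lit 0) (nat_lit 0x20a61f4ea) (nat_lit 262415396),
  Rx.mk (nat_lit 137) (nat_lit 1) (nat_lit 1) (nat_lit 2) (nat_lit 7) (nat_lit 196) (nat_lit 67) r1_196 r7_67 (nat_lit 0) (nat_lit 0) (nat_lit 0) (nat_lit 0x203d18672) (nat_lit 264818306),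
  Rx.mk (nat_lit 139) (nat_lit 3) (nat_lit 1) (nat_lit 2) (nat_lit 7) (nat_lit 197) (nat_lit 70) r1_197 r7_70 (nat_lit 0) (nat_lit 0) (nat_lit 0) (nat_lit 0x203d18672) (nat_lit 264818306),
  Rx.mk (nat_lit 203) (nat_lit 3) (nat_lit 1) (nat_lit 3) (nat_lit 7) (nat_lit 198) (nat_lit 69) r1_198 r7_69 (nat_lit 0) (nat_lit 0) (nat_lit 0) (nat_lit 0x2186519be) (nat_lit 243665906)]
noncomputable def e23_40 : List Rx := [
  Rx.mk (nat_lit 9) (nat_lit 1) (nat_lit 1) (nat_lit 0) (nat_lit 3) (nat_lit 282) (nat_lit 295) r1_282 r2_295 (nat_lit 0) (nat_lit 0) (nat_lit 9484367) (nat_lit 0x1fd510a98) (nat_lit 281076273),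
  Rx.mk (nat_lit 41) (nat_lit 1) (nat_lit 5) (nat_lit 0) (nat_lit 3) (nat_lit 281) (nat_lit 297) r1_281 r2_297 (nat_lit 0) (nat_lit 0) (nat_lit 10175953) (nat_lit 0x1fe89b2e8) (nat_lit 280481809),
  Rx.mk (nat_lit 45) (nat_lit 5) (nat_lit 5) (nat_lit 0) (nat_lit 3) (nat_lit 280) (nat_lit 298) r1_280 r2_298 (nat_lit 0) (nat_lit 0) (nat_lit 41135547) (nat_lit 0x20165832a) (nat_lit 308445753),
  Rx.mk (nat_lit 73) (nat_lit 1) (nat_lit 1) (nat_lit 1) (nat_lit 7) (nat_lit 285) (nat_lit 296) r1_285 r2_296 (nat_lit 0) (nat_lit 0) (nat_lit 0) (nat_lit 0x20056d4f2) (nat_lit 268435456),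
  Rx.mk (nat_lit 105) (nat_lit 1) (nat_lit 5) (nat_lit 1) (nat_lit 7) (nat_lit 284) (nat_lit 299) r1_284 r2_299 (nat_lit 0) (nat_lit 0) (nat_lit 0) (nat_lit 0x20056d4f2) (nat_lit 268435456),
  Rx.mk (nat_lit 109) (nat_lit 5) (nat_lit 5) (nat_lit 1) (nat_lit 7) (nat_lit 283) (nat_lit 300) r1_283 r2_300 (nat_lit 0) (nat_lit 0) (nat_lit 0) (nat_lit 0x20056d4f2) (nat_lit 268435456)]
noncomputable def e23_41 : List Rx := [
  Rx.mk (nat_lit 9) (nat_lit 1) (nat_lit 1) (nat_lit 0) (nat_lit 3) (nat_lit 290) (nat_lit 286) r1_290 r9_286 (nat_lit 0) (nat_lit 0) (nat_lit 9484367) (nat_lit 0x20040cf68) (nat_lit 278009223),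
  Rx.mk (nat_lit 73) (nat_lit 1) (nat_lit 1) (nat_lit 1) (nat_lit 7) (nat_lit 291) (nat_lit 287) r1_291 r9_287 (nat_lit 0) (nat_lit 0) (nat_lit 0) (nat_lit 0x20056d4f2) (nat_lit 268435456),
  Rx.mk (nat_lit 137) (nat_lit 1) (nat_lit 1) (nat_lit 2) (nat_lit 7) (nat_lit 292) (nat_lit 288) r1_292 r9_288 (nat_lit 0) (nat_lit 0) (nat_lit 0) (nat_lit 0x20056d4f2) (nat_lit 268435456)]
noncomputable def e23_42 : List Rx := [
  Rx.mk (nat_lit 73) (nat_lit 1) (nat_lit 1) (nat_lit 1) (nat_lit 7) (nat_lit 289) (nat_lit 292) r1_289 r9_292 (nat_lit 0) (nat_lit 0) (nat_lit 0) (nat_lit 0x20056d4f2) (nat_lit 268435456),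
  Rx.mk (nat_lit 105) (nat_lit 1) (nat_lit 5) (nat_lit 1) (nat_lit 7) (nat_lit 288) (nat_lit 291) r1_288 r9_291 (nat_lit 0) (nat_lit 0) (nat_lit 0) (nat_lit 0x20056d4f2) (nat_lit 268435456),
  Rx.mk (nat_lit 109) (nat_lit 5) (nat_lit 5) (nat_lit 1) (nat_lit 7) (nat_lit 287) (nat_lit 290) r1_287 r9_290 (nat_lit 0) (nat_lit 0) (nat_lit 0) (nat_lit 0x20056d4f2) (nat_lit 268435456)]
noncomputable def e23_43 : List Rx := [
  Rx.mk (nat_lit 9) (nat_lit 1) (nat_lit 1) (nat_lit 0) (nat_lit 3) (nat_lit 186) (nat_lit 272) r1_186 r1_272 (nat_lit 0) (nat_lit 0) (nat_lit 11144807) (nat_lit 0x1f7f36adc) (nat_lit 288382313),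
  Rx.mk (nat_lit 41) (nat_lit 1) (nat_lit 5) (nat_lit 0) (nat_lit 3) (nat_lit 185) (nat_lit 273) r1_185 r1_273 (nat_lit 0) (nat_lit 0) (nat_lit 9484367) (nat_lit 0x203e7d44a) (nat_lit 274207873)]
noncomputable def e23_44 : List Rx := [
  Rx.mk (nat_lit 9) (nat_lit 1) (nat_lit 1) (nat_lit 0) (nat_lit 3) (nat_lit 199) (nat_lit 66) r1_199 r8_66 (nat_lit 0) (nat_lit 0) (nat_lit 9484367) (nat_lit 0x1ff37e980) (nat_lit 279087523),
  Rx.mk (nat_lit 137) (nat_lit 1) (nat_lit 1) (nat_lit 2) (nat_lit 7) (nat_lit 200) (nat_lit 67) r1_200 r8_67 (nat_lit 0) (nat_lit 0) (nat_lit 0) (nat_lit 0x20056d4f2) (nat_lit 268435456)]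
noncomputable def e23_45 : List Rx := [
  Rx.mk (nat_lit 3) (nat_lit 3) (nat_lit 0) (nat_lit 0) (nat_lit 1) (nat_lit 73) (nat_lit 75) r1_73 r1_75 (nat_lit 0) (nat_lit 4289994) (nat_lit 12468754) (nat_lit 0x1cbb7b388) (nat_lit 340877904),
  Rx.mk (nat_lit 11) (nat_lit 3) (nat_lit 1) (nat_lit 0) (nat_lit 3) (nat_lit 74) (nat_lit 76) r1_74 r1_76 (nat_lit 0) (nat_lit 0) (nat_lit 6511426) (nat_lit 0x202b6e89a) (nat_lit 272472332),
  Rx.mk (nat_lit 128) (nat_lit 0) (nat_lit 0) (nat_lit 2) (nat_lit 4) (nat_lit 75) (nat_lit 73) r1_75 r1_73 (nat_lit 12468754) (nat_lit 4289994) (nat_lit 0) (nat_lit 0x1cbb7b388) (nat_lit 340877904),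
  Rx.mk (nat_lit 130) (nat_lit 2) (nat_lit 0) (nat_lit 2) (nat_lit 5) (nat_lit 77) (nat_lit 82) r1_77 r1_82 (nat_lit 0) (nat_lit 6815319) (nat_lit 0) (nat_lit 0x1fbcfc0e2) (nat_lit 279978825),
  Rx.mk (nat_lit 131) (nat_lit 3) (nat_lit 0) (nat_lit 2) (nat_lit 5) (nat_lit 80) (nat_lit 80) r1_80 r1_80 (nat_lit 0) (nat_lit 3053953) (nat_lit 0) (nat_lit 0x21582474e) (nat_lit 249680159),
  Rx.mk (nat_lit 136) (nat_lit 0) (nat_lit 1) (nat_lit 2) (nat_lit 6) (nat_lit 76) (nat_lit 74) r1_76 r1_74 (nat_lit 6511426) (nat_lit 0) (nat_lit 0) (nat_lit 0x202b6e89a) (nat_lit 272472332),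
  Rx.mk (nat_lit 138) (nat_lit 2) (nat_lit 1) (nat_lit 2) (nat_lit 7) (nat_lit 78) (nat_lit 83) r1_78 r1_83 (nat_lit 0) (nat_lit 0) (nat_lit 0) (nat_lit 0x20056d4f2) (nat_lit 268435456),
  Rx.mk (nat_lit 139) (nat_lit 3) (nat_lit 1) (nat_lit 2) (nat_lit 7) (nat_lit 81) (nat_lit 81) r1_81 r1_81 (nat_lit 0) (nat_lit 0) (nat_lit 0) (nat_lit 0x20f865d12) (nat_lit 252765156),
  Rx.mk (nat_lit 146) (nat_lit 2) (nat_lit 2) (nat_lit 2) (nat_lit 7) (nat_lit 79) (nat_lit 84) r1_79 r1_84 (nat_lit 0) (nat_lit 0) (nat_lit 0) (nat_lit 0x20056d4f2) (nat_lit 268435456),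
  Rx.mk (nat_lit 195) (nat_lit 3) (nat_lit 0) (nat_lit 3) (nat_lit 5) (nat_lit 82) (nat_lit 77) r1_82 r1_77 (nat_lit 0) (nat_lit 6815319) (nat_lit 0) (nat_lit 0x1fbcfc0e2) (nat_lit 279978825),
  Rx.mk (nat_lit 203) (nat_lit 3) (nat_lit 1) (nat_lit 3) (nat_lit 7) (nat_lit 83) (nat_lit 78) r1_83 r1_78 (nat_lit 0) (nat_lit 0) (nat_lit 0) (nat_lit 0x20056d4f2) (nat_lit 268435456),
  Rx.mk (nat_lit 219) (nat_lit 3) (nat_lit 3) (nat_lit 3) (nat_lit 7) (nat_lit 84) (nat_lit 79) r1_84 r1_79 (nat_lit 0) (nat_lit 0) (nat_lit 0) (nat_lit 0x20056d4f2) (nat_lit 268435456)]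
noncomputable def e23_46 : List Rx := [
  Rx.mk (nat_lit 3) (nat_lit 3) (nat_lit 0) (nat_lit 0) (nat_lit 1) (nat_lit 31) (nat_lit 76) r1_31 r2_76 (nat_lit 0) (nat_lit 6163962) (nat_lit 15142004) (nat_lit 0x1d3d18706) (nat_lit 336837272),
  Rx.mk (nat_lit 27) (nat_lit 3) (nat_lit 3) (nat_lit 0) (nat_lit 3) (nat_lit 32) (nat_lit 77) r1_32 r2_77 (nat_lit 0) (nat_lit 0) (nat_lit 10970796) (nat_lit 0x1fc4dd81a) (nat_lit 283625902),
  Rx.mk (nat_lit 128) (nat_lit 0) (nat_lit 0) (nat_lit 2) (nat_lit 4) (nat_lit 33) (nat_lit 75) r1_33 r2_75 (nat_lit 9879272) (nat_lit 4874968) (nat_lit 0) (nat_lit 0x1d2b216b0) (nat_lit 331468546),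
  Rx.mk (nat_lit 130) (nat_lit 2) (nat_lit 0) (nat_lit 2) (nat_lit 5) (nat_lit 34) (nat_lit 82) r1_34 r2_82 (nat_lit 0) (nat_lit 7136584) (nat_lit 0) (nat_lit 0x202b6b672) (nat_lit 273100490),
  Rx.mk (nat_lit 131) (nat_lit 3) (nat_lit 0) (nat_lit 2) (nat_lit 5) (nat_lit 36) (nat_lit 79) r1_36 r2_79 (nat_lit 0) (nat_lit 2049429) (nat_lit 0) (nat_lit 0x23435871e) (nat_lit 217247935),
  Rx.mk (nat_lit 146) (nat_lit 2) (nat_lit 2) (nat_lit 2) (nat_lit 7) (nat_lit 35) (nat_lit 83) r1_35 r2_83 (nat_lit 0) (nat_lit 0) (nat_lit 0) (nat_lit 0x20056d4f2) (nat_lit 268435456),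
  Rx.mk (nat_lit 155) (nat_lit 3) (nat_lit 3) (nat_lit 2) (nat_lit 7) (nat_lit 37) (nat_lit 80) r1_37 r2_80 (nat_lit 0) (nat_lit 0) (nat_lit 0) (nat_lit 0x20d1be4ac) (nat_lit 255245706),
  Rx.mk (nat_lit 219) (nat_lit 3) (nat_lit 3) (nat_lit 3) (nat_lit 7) (nat_lit 38) (nat_lit 78) r1_38 r2_78 (nat_lit 0) (nat_lit 0) (nat_lit 0) (nat_lit 0x20056d4f2) (nat_lit 268435456),
  Rx.mk (nat_lit 402) (nat_lit 2) (nat_lit 2) (nat_lit 6) (nat_lit 7) (nat_lit 30) (nat_lit 81) r1_30 r2_81 (nat_lit 0) (nat_lit 0) (nat_lit 0) (nat_lit 0x20056d4f2) (nat_lit 268435456)]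
noncomputable def e23_47 : List Rx := [
  Rx.mk (nat_lit 0) (nat_lit 0) (nat_lit 0) (nat_lit 0) (nat_lit 0) (nat_lit 201) (nat_lit 283) r1_201 r8_283 (nat_lit 7297896) (nat_lit 2297773) (nat_lit 21867451) (nat_lit 0x122387504) (nat_lit 535543626),
  Rx.mk (nat_lit 3) (nat_lit 3) (nat_lit 0) (nat_lit 0) (nat_lit 1) (nat_lit 204) (nat_lit 284) r1_204 r8_284 (nat_lit 0) (nat_lit 6929116) (nat_lit 35547039) (nat_lit 0x1ae23a2dc) (nat_lit 398008261),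
  Rx.mk (nat_lit 8) (nat_lit 0) (nat_lit 1) (nat_lit 0) (nat_lit 2) (nat_lit 202) (nat_lit 289) r1_202 r8_289 (nat_lit 13214423) (nat_lit 0) (nat_lit 10882942) (nat_lit 0x19da949de) (nat_lit 397122321),
  Rx.mk (nat_lit 9) (nat_lit 1) (nat_lit 1) (nat_lit 0) (nat_lit 3) (nat_lit 203) (nat_lit 290) r1_203 r8_290 (nat_lit 0) (nat_lit 0) (nat_lit 9931330) (nat_lit 0x1fe7e6424) (nat_lit 280291336),
  Rx.mk (nat_lit 11) (nat_lit 3) (nat_lit 1) (nat_lit 0) (nat_lit 3) (nat_lit 205) (nat_lit 291) r1_205 r8_291 (nat_lit 0) (nat_lit 0) (nat_lit 16360369) (nat_lit 0x207a02b46) (nat_lit 277234125),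
  Rx.mk (nat_lit 128) (nat_lit 0) (nat_lit 0) (nat_lit 2) (nat_lit 4) (nat_lit 206) (nat_lit 286) r1_206 r8_286 (nat_lit 11602876) (nat_lit 7735107) (nat_lit 0) (nat_lit 0x1a7f00338) (nat_lit 381456989),
  Rx.mk (nat_lit 130) (nat_lit 2) (nat_lit 0) (nat_lit 2) (nat_lit 5) (nat_lit 209) (nat_lit 288) r1_209 r8_288 (nat_lit 0) (nat_lit 10031145) (nat_lit 0) (nat_lit 0x1fcf46e78) (nat_lit 282000201),
  Rx.mk (nat_lit 131) (nat_lit 3) (nat_lit 0) (nat_lit 2) (nat_lit 5) (nat_lit 212) (nat_lit 287) r1_212 r8_287 (nat_lit 0) (nat_lit 9484367) (nat_lit 0) (nat_lit 0x20056d4f2) (nat_lit 277919823),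
  Rx.mk (nat_lit 136) (nat_lit 0) (nat_lit 1) (nat_lit 2) (nat_lit 6) (nat_lit 207) (nat_lit 293) r1_207 r8_293 (nat_lit 9484367) (nat_lit 0) (nat_lit 0) (nat_lit 0x20056d4f2) (nat_lit 277919823),
  Rx.mk (nat_lit 137) (nat_lit 1) (nat_lit 1) (nat_lit 2) (nat_lit 7) (nat_lit 208) (nat_lit 294) r1_208 r8_294 (nat_lit 0) (nat_lit 0) (nat_lit 0) (nat_lit 0x20056d4f2) (nat_lit 268435456),
  Rx.mk (nat_lit 138) (nat_lit 2) (nat_lit 1) (nat_lit 2) (nat_lit 7) (nat_lit 210) (nat_lit 296) r1_210 r8_296 (nat_lit 0) (nat_lit 0) (nat_lit 0) (nat_lit 0x20056d4f2) (nat_lit 268435456),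
  Rx.mk (nat_lit 139) (nat_lit 3) (nat_lit 1) (nat_lit 2) (nat_lit 7) (nat_lit 213) (nat_lit 295) r1_213 r8_295 (nat_lit 0) (nat_lit 0) (nat_lit 0) (nat_lit 0x20056d4f2) (nat_lit 268435456),
  Rx.mk (nat_lit 146) (nat_lit 2) (nat_lit 2) (nat_lit 2) (nat_lit 7) (nat_lit 211) (nat_lit 298) r1_211 r8_298 (nat_lit 0) (nat_lit 0) (nat_lit 0) (nat_lit 0x20056d4f2) (nat_lit 268435456),
  Rx.mk (nat_lit 195) (nat_lit 3) (nat_lit 0) (nat_lit 3) (nat_lit 5) (nat_lit 214) (nat_lit 285) r1_214 r8_285 (nat_lit 0) (nat_lit 8744868) (nat_lit 0) (nat_lit 0x1d6cc99f0) (nat_lit 321116524),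
  Rx.mk (nat_lit 203) (nat_lit 3) (nat_lit 1) (nat_lit 3) (nat_lit 7) (nat_lit 215) (nat_lit 292) r1_215 r8_292 (nat_lit 0) (nat_lit 0) (nat_lit 0) (nat_lit 0x20ec457d0) (nat_lit 253540856),
  Rx.mk (nat_lit 219) (nat_lit 3) (nat_lit 3) (nat_lit 3) (nat_lit 7) (nat_lit 216) (nat_lit 297) r1_216 r8_297 (nat_lit 0) (nat_lit 0) (nat_lit 0) (nat_lit 0x1fa0d60fc) (nat_lit 275021756)]
noncomputable def e23_48 : List Rx := [
  Rx.mk (nat_lit 0) (nat_lit 0) (nat_lit 0) (nat_lit 0) (nat_lit 0) (nat_lit 170) (nat_lit 40) r1_170 r9_40 (nat_lit 12914458) (nat_lit 7583710) (nat_lit 20883973) (nat_lit 0x1304b68a4) (nat_lit 530531947),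
  Rx.mk (nat_lit 3) (nat_lit 3) (nat_lit 0) (nat_lit 0) (nat_lit 1) (nat_lit 171) (nat_lit 42) r1_171 r9_42 (nat_lit 0) (nat_lit 7078048) (nat_lit 26762067) (nat_lit 0x1b49aa94e) (nat_lit 382508571),
  Rx.mk (nat_lit 27) (nat_lit 3) (nat_lit 3) (nat_lit 0) (nat_lit 3) (nat_lit 172) (nat_lit 43) r1_172 r9_43 (nat_lit 0) (nat_lit 0) (nat_lit 18834357) (nat_lit 0x1f586cafa) (nat_lit 298626363),
  Rx.mk (nat_lit 128) (nat_lit 0) (nat_lit 0) (nat_lit 2) (nat_lit 4) (nat_lit 173) (nat_lit 41) r1_173 r9_41 (nat_lit 13442990) (nat_lit 8685031) (nat_lit 0) (nat_lit 0x1bbde0e6c) (nat_lit 363079977),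
  Rx.mk (nat_lit 130) (nat_lit 2) (nat_lit 0) (nat_lit 2) (nat_lit 5) (nat_lit 174) (nat_lit 48) r1_174 r9_48 (nat_lit 0) (nat_lit 9484367) (nat_lit 0) (nat_lit 0x1ff744b14) (nat_lit 278840823),
  Rx.mk (nat_lit 131) (nat_lit 3) (nat_lit 0) (nat_lit 2) (nat_lit 5) (nat_lit 176) (nat_lit 45) r1_176 r9_45 (nat_lit 0) (nat_lit 9484367) (nat_lit 0) (nat_lit 0x20056d4f2) (nat_lit 277919823),
  Rx.mk (nat_lit 146) (nat_lit 2) (nat_lit 2) (nat_lit 2) (nat_lit 7) (nat_lit 175) (nat_lit 49) r1_175 r9_49 (nat_lit 0) (nat_lit 0) (nat_lit 0) (nat_lit 0x20056d4f2) (nat_lit 268435456),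
  Rx.mk (nat_lit 155) (nat_lit 3) (nat_lit 3) (nat_lit 2) (nat_lit 7) (nat_lit 177) (nat_lit 46) r1_177 r9_46 (nat_lit 0) (nat_lit 0) (nat_lit 0) (nat_lit 0x20056d4f2) (nat_lit 268435456),
  Rx.mk (nat_lit 219) (nat_lit 3) (nat_lit 3) (nat_lit 3) (nat_lit 7) (nat_lit 178) (nat_lit 44) r1_178 r9_44 (nat_lit 0) (nat_lit 0) (nat_lit 0) (nat_lit 0x1fe10856c) (nat_lit 270810856),
  Rx.mk (nat_lit 402) (nat_lit 2) (nat_lit 2) (nat_lit 6) (nat_lit 7) (nat_lit 169) (nat_lit 47) r1_169 r9_47 (nat_lit 0) (nat_lit 0) (nat_lit 0) (nat_lit 0x20056d4f2) (nat_lit 268435456)]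
noncomputable def e23_49 : List Rx := [
  Rx.mk (nat_lit 402) (nat_lit 2) (nat_lit 2) (nat_lit 6) (nat_lit 7) (nat_lit 153) (nat_lit 1) r1_153 r9_1 (nat_lit 0) (nat_lit 0) (nat_lit 0) (nat_lit 0x20056d4f2) (nat_lit 268435456)]
noncomputable def e23_50 : List Rx := [
  Rx.mk (nat_lit 11) (nat_lit 3) (nat_lit 1) (nat_lit 0) (nat_lit 3) (nat_lit 67) (nat_lit 69) r1_67 r3_69 (nat_lit 0) (nat_lit 0) (nat_lit 30898) (nat_lit 0x1fbf3341e) (nat_lit 272768554),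
  Rx.mk (nat_lit 43) (nat_lit 3) (nat_lit 5) (nat_lit 0) (nat_lit 3) (nat_lit 66) (nat_lit 68) r1_66 r3_68 (nat_lit 0) (nat_lit 0) (nat_lit 3722) (nat_lit 0x20bd484a0) (nat_lit 256337228),
  Rx.mk (nat_lit 203) (nat_lit 3) (nat_lit 1) (nat_lit 3) (nat_lit 7) (nat_lit 68) (nat_lit 70) r1_68 r3_70 (nat_lit 0) (nat_lit 0) (nat_lit 0) (nat_lit 0x1f687605e) (nat_lit 278648806)]
noncomputable def e23_51 : List Rx := [
  Rx.mk (nat_lit 11) (nat_lit 3) (nat_lit 1) (nat_lit 0) (nat_lit 3) (nat_lit 85) (nat_lit 71) r1_85 r4_71 (nat_lit 0) (nat_lit 0) (nat_lit 5269494) (nat_lit 0x203b3f5f8) (nat_lit 270196450),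
  Rx.mk (nat_lit 139) (nat_lit 3) (nat_lit 1) (nat_lit 2) (nat_lit 7) (nat_lit 86) (nat_lit 73) r1_86 r4_73 (nat_lit 0) (nat_lit 0) (nat_lit 0) (nat_lit 0x2171ac400) (nat_lit 244980606),
  Rx.mk (nat_lit 203) (nat_lit 3) (nat_lit 1) (nat_lit 3) (nat_lit 7) (nat_lit 87) (nat_lit 72) r1_87 r4_72 (nat_lit 0) (nat_lit 0) (nat_lit 0) (nat_lit 0x20bb0eed2) (nat_lit 256701006)]
noncomputable def e23_52 : List Rx := [
  Rx.mk (nat_lit 43) (nat_lit 3) (nat_lit 5) (nat_lit 0) (nat_lit 3) (nat_lit 91) (nat_lit 63) r1_91 r5_63 (nat_lit 0) (nat_lit 0) (nat_lit 3091615) (nat_lit 0x1ff9c654a) (nat_lit 272221871),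
  Rx.mk (nat_lit 203) (nat_lit 3) (nat_lit 1) (nat_lit 3) (nat_lit 7) (nat_lit 93) (nat_lit 65) r1_93 r5_65 (nat_lit 0) (nat_lit 0) (nat_lit 0) (nat_lit 0x20a154dfc) (nat_lit 258345706),
  Rx.mk (nat_lit 235) (nat_lit 3) (nat_lit 5) (nat_lit 3) (nat_lit 7) (nat_lit 92) (nat_lit 64) r1_92 r5_64 (nat_lit 0) (nat_lit 0) (nat_lit 0) (nat_lit 0x20bb69ae4) (nat_lit 256621956)]
noncomputable def e23_53 : List Rx := [
  Rx.mk (nat_lit 11) (nat_lit 3) (nat_lit 1) (nat_lit 0) (nat_lit 3) (nat_lit 190) (nat_lit 279) r1_190 r4_279 (nat_lit 0) (nat_lit 0) (nat_lit 82661556) (nat_lit 0x208f77292) (nat_lit 342133062),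
  Rx.mk (nat_lit 40) (nat_lit 0) (nat_lit 5) (nat_lit 0) (nat_lit 2) (nat_lit 187) (nat_lit 281) r1_187 r4_281 (nat_lit 10054617) (nat_lit 0) (nat_lit 43539697) (nat_lit 0x1c098cc08) (nat_lit 389496620),
  Rx.mk (nat_lit 41) (nat_lit 1) (nat_lit 5) (nat_lit 0) (nat_lit 3) (nat_lit 188) (nat_lit 282) r1_188 r4_282 (nat_lit 0) (nat_lit 0) (nat_lit 9484367) (nat_lit 0x2081e0124) (nat_lit 269861973),
  Rx.mk (nat_lit 43) (nat_lit 3) (nat_lit 5) (nat_lit 0) (nat_lit 3) (nat_lit 189) (nat_lit 283) r1_189 r4_283 (nat_lit 0) (nat_lit 0) (nat_lit 85522058) (nat_lit 0x1eb239b92) (nat_lit 376236714),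
  Rx.mk (nat_lit 203) (nat_lit 3) (nat_lit 1) (nat_lit 3) (nat_lit 7) (nat_lit 191) (nat_lit 280) r1_191 r4_280 (nat_lit 0) (nat_lit 0) (nat_lit 0) (nat_lit 0x210b033f2) (nat_lit 251571006)]
noncomputable def e23_54 : List Rx := [
  Rx.mk (nat_lit 11) (nat_lit 3) (nat_lit 1) (nat_lit 0) (nat_lit 3) (nat_lit 217) (nat_lit 49) r1_217 r10_49 (nat_lit 0) (nat_lit 0) (nat_lit 58027450) (nat_lit 0x21a734438) (nat_lit 299572206),
  Rx.mk (nat_lit 139) (nat_lit 3) (nat_lit 1) (nat_lit 2) (nat_lit 7) (nat_lit 218) (nat_lit 51) r1_218 r10_51 (nat_lit 0) (nat_lit 0) (nat_lit 0) (nat_lit 0x202e90604) (nat_lit 265759956),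
  Rx.mk (nat_lit 203) (nat_lit 3) (nat_lit 1) (nat_lit 3) (nat_lit 7) (nat_lit 219) (nat_lit 50) r1_219 r10_50 (nat_lit 0) (nat_lit 0) (nat_lit 0) (nat_lit 0x20a75a3fa) (nat_lit 257956456)]
noncomputable def e23_55 : List Rx := [
  Rx.mk (nat_lit 40) (nat_lit 0) (nat_lit 5) (nat_lit 0) (nat_lit 2) (nat_lit 220) (nat_lit 41) r1_220 r11_41 (nat_lit 19578584) (nat_lit 0) (nat_lit 46094924) (nat_lit 0x1cf21484a) (nat_lit 386174664),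
  Rx.mk (nat_lit 41) (nat_lit 1) (nat_lit 5) (nat_lit 0) (nat_lit 3) (nat_lit 221) (nat_lit 42) r1_221 r11_42 (nat_lit 0) (nat_lit 0) (nat_lit 9484367) (nat_lit 0x2037c5260) (nat_lit 274647623),
  Rx.mk (nat_lit 43) (nat_lit 3) (nat_lit 5) (nat_lit 0) (nat_lit 3) (nat_lit 222) (nat_lit 43) r1_222 r11_43 (nat_lit 0) (nat_lit 0) (nat_lit 14849202) (nat_lit 0x208915322) (nat_lit 274748908),
  Rx.mk (nat_lit 203) (nat_lit 3) (nat_lit 1) (nat_lit 3) (nat_lit 7) (nat_lit 224) (nat_lit 45) r1_224 r11_45 (nat_lit 0) (nat_lit 0) (nat_lit 0) (nat_lit 0x20935ad46) (nat_lit 259253406),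
  Rx.mk (nat_lit 235) (nat_lit 3) (nat_lit 5) (nat_lit 3) (nat_lit 7) (nat_lit 223) (nat_lit 44) r1_223 r11_44 (nat_lit 0) (nat_lit 0) (nat_lit 0) (nat_lit 0x20c766d60) (nat_lit 255901206)]
noncomputable def e23_56 : List Rx := [
  Rx.mk (nat_lit 11) (nat_lit 3) (nat_lit 1) (nat_lit 0) (nat_lit 3) (nat_lit 243) (nat_lit 267) r1_243 r5_267 (nat_lit 0) (nat_lit 0) (nat_lit 35134519) (nat_lit 0x2047df5ec) (nat_lit 299206125),
  Rx.mk (nat_lit 43) (nat_lit 3) (nat_lit 5) (nat_lit 0) (nat_lit 3) (nat_lit 242) (nat_lit 268) r1_242 r5_268 (nat_lit 0) (nat_lit 0) (nat_lit 37131224) (nat_lit 0x214068f42) (nat_lit 285211480)]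
noncomputable def e23_57 : List Rx := [
  Rx.mk (nat_lit 11) (nat_lit 3) (nat_lit 1) (nat_lit 0) (nat_lit 3) (nat_lit 244) (nat_lit 333) r1_244 r11_333 (nat_lit 0) (nat_lit 0) (nat_lit 6474081) (nat_lit 0x20c7531d4) (nat_lit 262388587),
  Rx.mk (nat_lit 139) (nat_lit 3) (nat_lit 1) (nat_lit 2) (nat_lit 7) (nat_lit 245) (nat_lit 334) r1_245 r11_334 (nat_lit 0) (nat_lit 0) (nat_lit 0) (nat_lit 0x2278a5904) (nat_lit 228164356)]
noncomputable def e23 : List (List Rx) := [e23_0, e23_1, e23_2, e23_3, e23_4, e23_5, e23_6, e23_7, e23_8, e23_9, e23_10, e23_11, e23_12, e23_13, e23_14, e23_15, e23_16, e23_17, e23_18, e23_19, e23_20, e23_21, e23_22, e23_23, e23_24, e23_25, e23_26, e23_27, e23_28, e23_29, e23_30, e23_31, e23_32, e23_33, e23_34, e23_35, e23_36, e23_37, e23_38, e23_39, e23_40, e23_41, e23_42, e23_43, e23_44, e23_45, e23_46, e23_47, e23_48, e23_49, e23_50,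 e23_51, e23_52, e23_53, e23_54, e23_55, e23_56, e23_57]

end Pool.Agent.AKXS_36_42_VA
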