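import Pool.Agent.AKXS_36_42_VA.R0
import Pool.Agent.AKXS_36_42_VA.R1
import Pool.Agent.AKXS_36_42_VA.R2
import Pool.Agent.AKXS_36_42_VA.R3
import Pool.Agent.AKXS_36_42_VA.R4
import Pool.Agent.AKXS_36_42_VA.R5
import Pool.Agent.AKXS_36_42_VA.R6
import Pool.Agent.AKXS_36_42_VA.R7
import Pool.Agent.AKXS_36_42_VA.R8
import Pool.Agent.AKXS_36_42_VA.R9
import Pool.Agent.AKXS_36_42_VA.R10
import Pool.Agent.AKXS_36_42_VA.R11
import Pool.Agent.AKXS_36_42_VA.R12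

set_option autoImplicit false

namespace Pool.Agent.AKXS_36_42_VA

open Pool.Agent.AKX Pool.Agent.AKU

noncomputable def e24_0 : List Rx := [
  Rx.mk (nat_lit 100) (nat_lit 4) (nat_lit 4) (nat_lit 1) (nat_lit 4) (nat_lit 262) (nat_lit 174) r4_262 r0_174 (nat_lit 92582256) (nat_lit 368462) (nat_lit 0) (nat_lit 0x1ba8b9034) (nat_lit 435190624),
  Rx.mk (nat_lit 108) (nat_lit 4) (nat_lit 5) (nat_lit 1) (nat_lit 6) (nat_lit 263) (nat_lit 175) r4_263 r0_175 (nat_lit 37264364) (nat_lit 0) (nat_lit 0) (nat_lit 0x1f17bb394) (nat_lit 321311370),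
  Rx.mk (nat_lit 116) (nat_lit 4) (nat_lit 6) (nat_lit 1) (nat_lit 6) (nat_lit 264) (nat_lit 176) r4_264 r0_176 (nat_lit 105491124) (nat_lit 0) (nat_lit 0) (nat_lit 0x1b7455748) (nat_lit 451196430)]
noncomputable def e24_1 : List Rx := [
  Rx.mk (nat_lit 100) (nat_lit 4) (nat_lit 4) (nat_lit 1) (nat_lit 4) (nat_lit 281) (nat_lit 187) r4_281 r1_187 (nat_lit 43539697) (nat_lit 10054617) (nat_lit 0) (nat_lit 0x1c098cc08) (nat_lit 389496620),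
  Rx.mk (nat_lit 108) (nat_lit 4) (nat_lit 5) (nat_lit 1) (nat_lit 6) (nat_lit 282) (nat_lit 188) r4_282 r1_188 (nat_lit 9484367) (nat_lit 0) (nat_lit 0) (nat_lit 0x2081e0124) (nat_lit 269861973),
  Rx.mk (nat_lit 116) (nat_lit 4) (nat_lit 6) (nat_lit 1) (nat_lit 6) (nat_lit 283) (nat_lit 189) r4_283 r1_189 (nat_lit 85522058) (nat_lit 0) (nat_lit 0) (nat_lit 0x1eb239b92) (nat_lit 376236714),
  Rx.mk (nat_lit 372) (nat_lit 4) (nat_lit 6) (nat_lit 5) (nat_lit 6) (nat_lit 279) (nat_lit 190) r4_279 r1_190 (nat_lit 82661556) (nat_lit 0) (nat_lit 0) (nat_lit 0x208f77292) (nat_lit 342133062),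
  Rx.mk (nat_lit 374) (nat_lit 6) (nat_lit 6) (nat_lit 5) (nat_lit 7) (nat_lit 280) (nat_lit 191) r4_280 r1_191 (nat_lit 0) (nat_lit 0) (nat_lit 0) (nat_lit 0x210b033f2) (nat_lit 251571006)]
noncomputable def e24_2 : List Rx := [
  Rx.mk (nat_lit 372) (nat_lit 4) (nat_lit 6) (nat_lit 5) (nat_lit 6) (nat_lit 271) (nat_lit 187) r4_271 r2_187 (nat_lit 7861388) (nat_lit 0) (nat_lit 0) (nat_lit 0x2023bea32) (nat_lit 274324344),
  Rx.mk (nat_lit 374) (nat_lit 6) (nat_lit 6) (nat_lit 5) (nat_lit 7) (nat_lit 272) (nat_lit 188) r4_272 r2_188 (nat_lit 0) (nat_lit 0) (nat_lit 0) (nat_lit 0x20204deac) (nat_lit 266687006)]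
noncomputable def e24_3 : List Rx := [
  Rx.mk (nat_lit 36) (nat_lit 4) (nat_lit 4) (nat_lit 0) (nat_lit 0) (nat_lit 315) (nat_lit 155) r4_315 r3_155 (nat_lit 409) (nat_lit 263) (nat_lit 362) (nat_lit 0x1c9af6bc6) (nat_lit 326110640),
  Rx.mk (nat_lit 39) (nat_lit 7) (nat_lit 4) (nat_lit 0) (nat_lit 1) (nat_lit 318) (nat_lit 161) r4_318 r3_161 (nat_lit 0) (nat_lit 55469) (nat_lit 74883) (nat_lit 0x20163f12c) (nat_lit 267168208),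
  Rx.mk (nat_lit 44) (nat_lit 4) (nat_lit 5) (nat_lit 0) (nat_lit 2) (nat_lit 316) (nat_lit 157) r4_316 r3_157 (nat_lit 3231) (nat_lit 0) (nat_lit 31092297) (nat_lit 0x1ffe32372) (nat_lit 299651134),
  Rx.mk (nat_lit 47) (nat_lit 7) (nat_lit 5) (nat_lit 0) (nat_lit 3) (nat_lit 319) (nat_lit 163) r4_319 r3_163 (nat_lit 0) (nat_lit 0) (nat_lit 3290439) (nat_lit 0x20e059a16) (nat_lit 257589895),
  Rx.mk (nat_lit 52) (nat_lit 4) (nat_lit 6) (nat_lit 0) (nat_lit 2) (nat_lit 317) (nat_lit 159) r4_317 r3_159 (nat_lit 39310829) (nat_lit 0) (nat_lit 4117) (nat_lit 0x1ffea47ba) (nat_lit 307841702),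
  Rx.mk (nat_lit 55) (nat_lit 7) (nat_lit 6) (nat_lit 0) (nat_lit 3) (nat_lit 320) (nat_lit 165) r4_320 r3_165 (nat_lit 0) (nat_lit 0) (nat_lit 3023494) (nat_lit 0x216d1c69c) (nat_lit 248304500),
  Rx.mk (nat_lit 100) (nat_lit 4) (nat_lit 4) (nat_lit 1) (nat_lit 4) (nat_lit 321) (nat_lit 156) r4_321 r3_156 (nat_lit 35577) (nat_lit 28204) (nat_lit 0) (nat_lit 0x1ffd88a16) (nat_lit 268676087),
  Rx.mk (nat_lit 103) (nat_lit 7) (nat_lit 4) (nat_lit 1) (nat_lit 5) (nat_lit 324) (nat_lit 162) r4_324 r3_162 (nat_lit 0) (nat_lit 842510) (nat_lit 0) (nat_lit 0x23ced7cd6) (nat_lit 207079016),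
  Rx.mk (nat_lit 108) (nat_lit 4) (nat_lit 5) (nat_lit 1) (nat_lit 6) (nat_lit 322) (nat_lit 158) r4_322 r3_158 (nat_lit 2069679) (nat_lit 0) (nat_lit 0) (nat_lit 0x21a292a24) (nat_lit 243859685),
  Rx.mk (nat_lit 111) (nat_lit 7) (nat_lit 5) (nat_lit 1) (nat_lit 7) (nat_lit 325) (nat_lit 164) r4_325 r3_164 (nat_lit 0) (nat_lit 0) (nat_lit 0) (nat_lit 0x23a814e14) (nat_lit 208756906),
  Rx.mk (nat_lit 116) (nat_lit 4) (nat_lit 6) (nat_lit 1) (nat_lit 6) (nat_lit 323) (nat_lit 160) r4_323 r3_160 (nat_lit 37160743) (nat_lit 0) (nat_lit 0) (nat_lit 0x247de0c14) (nat_lit 232184949),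
  Rx.mk (nat_lit 119) (nat_lit 7) (nat_lit 6) (nat_lit 1) (nat_lit 7) (nat_lit 326) (nat_lit 166) r4_326 r3_166 (nat_lit 0) (nat_lit 0) (nat_lit 0) (nat_lit 0x248dd9e36) (nat_lit 194063006)]
noncomputable def e24_4 : List Rx := [
  Rx.mk (nat_lit 100) (nat_lit 4) (nat_lit 4) (nat_lit 1) (nat_lit 4) (nat_lit 349) (nat_lit 161) r4_349 r4_161 (nat_lit 16814274) (nat_lit 2370172) (nat_lit 0) (nat_lit 0x1c711fa14) (nat_lit 348210952),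
  Rx.mk (nat_lit 103) (nat_lit 7) (nat_lit 4) (nat_lit 1) (nat_lit 5) (nat_lit 352) (nat_lit 164) r4_352 r4_164 (nat_lit 0) (nat_lit 3808292) (nat_lit 0) (nat_lit 0x1ed188994) (nat_lit 292490648),
  Rx.mk (nat_lit 108) (nat_lit 4) (nat_lit 5) (nat_lit 1) (nat_lit 6) (nat_lit 350) (nat_lit 162) r4_350 r4_162 (nat_lit 9484367) (nat_lit 0) (nat_lit 0) (nat_lit 0x209c9256c) (nat_lit 268145023),
  Rx.mk (nat_lit 111) (nat_lit 7) (nat_lit 5) (nat_lit 1) (nat_lit 7) (nat_lit 353) (nat_lit 165) r4_353 r4_165 (nat_lit 0) (nat_lit 0) (nat_lit 0) (nat_lit 0x2100a3b28) (nat_lit 252236256),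
  Rx.mk (nat_lit 116) (nat_lit 4) (nat_lit 6) (nat_lit 1) (nat_lit 6) (nat_lit 351) (nat_lit 163) r4_351 r4_163 (nat_lit 27108786) (nat_lit 0) (nat_lit 0) (nat_lit 0x208caa712) (nat_lit 286756242),
  Rx.mk (nat_lit 119) (nat_lit 7) (nat_lit 6) (nat_lit 1) (nat_lit 7) (nat_lit 354) (nat_lit 166) r4_354 r4_166 (nat_lit 0) (nat_lit 0) (nat_lit 0) (nat_lit 0x20a26e53a) (nat_lit 258270756)]
noncomputable def e24_5 : List Rx := [
  Rx.mk (nat_lit 36) (nat_lit 4) (nat_lit 4) (nat_lit 0) (nat_lit 0) (nat_lit 366) (nat_lit 169) r4_366 r5_169 (nat_lit 2981321) (nat_lit 674726) (nat_lit 1351592) (nat_lit 0x1b53851d0) (nat_lit 352950595),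
  Rx.mk (nat_lit 39) (nat_lit 7) (nat_lit 4) (nat_lit 0) (nat_lit 1) (nat_lit 369) (nat_lit 177) r4_369 r5_177 (nat_lit 0) (nat_lit 2340078) (nat_lit 3705404) (nat_lit 0x1e55f6bfa) (nat_lit 302920538),
  Rx.mk (nat_lit 44) (nat_lit 4) (nat_lit 5) (nat_lit 0) (nat_lit 2) (nat_lit 367) (nat_lit 172) r4_367 r5_172 (nat_lit 10414740) (nat_lit 0) (nat_lit 11151044) (nat_lit 0x1ef3ec184) (nat_lit 308008240),
  Rx.mk (nat_lit 47) (nat_lit 7) (nat_lit 5) (nat_lit 0) (nat_lit 3) (nat_lit 370) (nat_lit 179) r4_370 r5_179 (nat_lit 0) (nat_lit 0) (nat_lit 4809072) (nat_lit 0x205bf4d3e) (nat_lit 267626778),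
  Rx.mk (nat_lit 52) (nat_lit 4) (nat_lit 6) (nat_lit 0) (nat_lit 2) (nat_lit 368) (nat_lit 174) r4_368 r5_174 (nat_lit 29864572) (nat_lit 0) (nat_lit 3221189) (nat_lit 0x1f4815300) (nat_lit 313919367),
  Rx.mk (nat_lit 55) (nat_lit 7) (nat_lit 6) (nat_lit 0) (nat_lit 3) (nat_lit 371) (nat_lit 182) r4_371 r5_182 (nat_lit 0) (nat_lit 0) (nat_lit 4740330) (nat_lit 0x2086d7fe2) (nat_lit 264798036),
  Rx.mk (nat_lit 63) (nat_lit 7) (nat_lit 7) (nat_lit 0) (nat_lit 3) (nat_lit 372) (nat_lit 180) r4_372 r5_180 (nat_lit 0) (nat_lit 0) (nat_lit 9484367) (nat_lit 0x1f98f7552) (nat_lit 285019823),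
  Rx.mk (nat_lit 100) (nat_lit 4) (nat_lit 4) (nat_lit 1) (nat_lit 4) (nat_lit 373) (nat_lit 170) r4_373 r5_170 (nat_lit 38809431) (nat_lit 4532932) (nat_lit 0) (nat_lit 0x1fce329ce) (nat_lit 315363169),
  Rx.mk (nat_lit 103) (nat_lit 7) (nat_lit 4) (nat_lit 1) (nat_lit 5) (nat_lit 375) (nat_lit 178) r4_375 r5_178 (nat_lit 0) (nat_lit 3896666) (nat_lit 0) (nat_lit 0x20b0ba580) (nat_lit 261256572),
  Rx.mk (nat_lit 116) (nat_lit 4) (nat_lit 6) (nat_lit 1) (nat_lit 6) (nat_lit 374) (nat_lit 175) r4_374 r5_175 (nat_lit 16446383) (nat_lit 0) (nat_lit 0) (nat_lit 0x204e043c8) (nat_lit 280156089),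
  Rx.mk (nat_lit 119) (nat_lit 7) (nat_lit 6) (nat_lit 1) (nat_lit 7) (nat_lit 376) (nat_lit 183) r4_376 r5_183 (nat_lit 0) (nat_lit 0) (nat_lit 0) (nat_lit 0x2086d6930) (nat_lit 260059156),
  Rx.mk (nat_lit 127) (nat_lit 7) (nat_lit 7) (nat_lit 1) (nat_lit 7) (nat_lit 377) (nat_lit 181) r4_377 r5_181 (nat_lit 0) (nat_lit 0) (nat_lit 0) (nat_lit 0x20274896e) (nat_lit 266232306),
  Rx.mk (nat_lit 228) (nat_lit 4) (nat_lit 4) (nat_lit 3) (nat_lit 4) (nat_lit 378) (nat_lit 171) r4_378 r5_171 (nat_lit 9685368) (nat_lit 6155268) (nat_lit 0) (nat_lit 0x1f20b2376) (nat_lit 299308042),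
  Rx.mk (nat_lit 236) (nat_lit 4) (nat_lit 5) (nat_lit 3) (nat_lit 6) (nat_lit 379) (nat_lit 173) r4_379 r5_173 (nat_lit 9484367) (nat_lit 0) (nat_lit 0) (nat_lit 0x20056d4f2) (nat_lit 277919823),
  Rx.mk (nat_lit 244) (nat_lit 4) (nat_lit 6) (nat_lit 3) (nat_lit 6) (nat_lit 380) (nat_lit 176) r4_380 r5_176 (nat_lit 9484367) (nat_lit 0) (nat_lit 0) (nat_lit 0x209868072) (nat_lit 268412773)]
noncomputable def e24_6 : List Rx := [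
  Rx.mk (nat_lit 59) (nat_lit 3) (nat_lit 7) (nat_lit 0) (nat_lit 3) (nat_lit 34) (nat_lit 126) r4_34 r3_126 (nat_lit 0) (nat_lit 0) (nat_lit 151800) (nat_lit 0x204bed6a2) (nat_lit 263787856),
  Rx.mk (nat_lit 187) (nat_lit 3) (nat_lit 7) (nat_lit 2) (nat_lit 7) (nat_lit 35) (nat_lit 128) r4_35 r3_128 (nat_lit 0) (nat_lit 0) (nat_lit 0) (nat_lit 0x204c425b2) (nat_lit 263570306),
  Rx.mk (nat_lit 231) (nat_lit 7) (nat_lit 4) (nat_lit 3) (nat_lit 5) (nat_lit 36) (nat_lit 124) r4_36 r3_124 (nat_lit 0) (nat_lit 119145) (nat_lit 0) (nat_lit 0x21ea15248) (nat_lit 237264301),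
  Rx.mk (nat_lit 247) (nat_lit 7) (nat_lit 6) (nat_lit 3) (nat_lit 7) (nat_lit 37) (nat_lit 131) r4_37 r3_131 (nat_lit 0) (nat_lit 0) (nat_lit 0) (nat_lit 0x2266fa790) (nat_lit 229274756),
  Rx.mk (nat_lit 251) (nat_lit 3) (nat_lit 7) (nat_lit 3) (nat_lit 7) (nat_lit 39) (nat_lit 127) r4_39 r3_127 (nat_lit 0) (nat_lit 0) (nat_lit 0) (nat_lit 0x201ac44a4) (nat_lit 267031306),
  Rx.mk (nat_lit 255) (nat_lit 7) (nat_lit 7) (nat_lit 3) (nat_lit 7) (nat_lit 38) (nat_lit 125) r4_38 r3_125 (nat_lit 0) (nat_lit 0) (nat_lit 0) (nat_lit 0x2057f959a) (nat_lit 263075056),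
  Rx.mk (nat_lit 500) (nat_lit 4) (nat_lit 6) (nat_lit 7) (nat_lit 6) (nat_lit 31) (nat_lit 129) r4_31 r3_129 (nat_lit 3923) (nat_lit 0) (nat_lit 0) (nat_lit 0x1fffa06be) (nat_lit 268464529),
  Rx.mk (nat_lit 502) (nat_lit 6) (nat_lit 6) (nat_lit 7) (nat_lit 7) (nat_lit 32) (nat_lit 132) r4_32 r3_132 (nat_lit 0) (nat_lit 0) (nat_lit 0) (nat_lit 0x1f5ce7486) (nat_lit 279471956),
  Rx.mk (nat_lit 503) (nat_lit 7) (nat_lit 6) (nat_lit 7) (nat_lit 7) (nat_lit 33) (nat_lit 130) r4_33 r3_130 (nat_lit 0) (nat_lit 0) (nat_lit 0) (nat_lit 0x21acbc90a) (nat_lit 241200006)]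
noncomputable def e24_7 : List Rx := [
  Rx.mk (nat_lit 308) (nat_lit 4) (nat_lit 6) (nat_lit 4) (nat_lit 2) (nat_lit 93) (nat_lit 142) r4_93 r0_142 (nat_lit 52596454) (nat_lit 0) (nat_lit 59176) (nat_lit 0x18b3f3b46) (nat_lit 445081686),
  Rx.mk (nat_lit 310) (nat_lit 6) (nat_lit 6) (nat_lit 4) (nat_lit 3) (nat_lit 94) (nat_lit 145) r4_94 r0_145 (nat_lit 0) (nat_lit 0) (nat_lit 5249002) (nat_lit 0x1fa57fb76) (nat_lit 279949358),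
  Rx.mk (nat_lit 500) (nat_lit 4) (nat_lit 6) (nat_lit 7) (nat_lit 6) (nat_lit 95) (nat_lit 143) r4_95 r0_143 (nat_lit 33826584) (nat_lit 0) (nat_lit 0) (nat_lit 0x20ad33e2a) (nat_lit 291385790),
  Rx.mk (nat_lit 502) (nat_lit 6) (nat_lit 6) (nat_lit 7) (nat_lit 7) (nat_lit 96) (nat_lit 146) r4_96 r0_146 (nat_lit 0) (nat_lit 0) (nat_lit 0) (nat_lit 0x20711b0e6) (nat_lit 261457706),
  Rx.mk (nat_lit 503) (nat_lit 7) (nat_lit 6) (nat_lit 7) (nat_lit 7) (nat_lit 97) (nat_lit 144) r4_97 r0_144 (nat_lit 0) (nat_lit 0) (nat_lit 0) (nat_lit 0x202be8910) (nat_lit 265932556)]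
noncomputable def e24_8 : List Rx := [
  Rx.mk (nat_lit 308) (nat_lit 4) (nat_lit 6) (nat_lit 4) (nat_lit 2) (nat_lit 107) (nat_lit 154) r4_107 r1_154 (nat_lit 72610807) (nat_lit 0) (nat_lit 3083789) (nat_lit 0x1da7e785c) (nat_lit 384120802),
  Rx.mk (nat_lit 310) (nat_lit 6) (nat_lit 6) (nat_lit 4) (nat_lit 3) (nat_lit 108) (nat_lit 158) r4_108 r1_158 (nat_lit 0) (nat_lit 0) (nat_lit 5176119) (nat_lit 0x1fab3b772) (nat_lit 279503175),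
  Rx.mk (nat_lit 372) (nat_lit 4) (nat_lit 6) (nat_lit 5) (nat_lit 6) (nat_lit 109) (nat_lit 155) r4_109 r1_155 (nat_lit 10426591) (nat_lit 0) (nat_lit 0) (nat_lit 0x2064ff000) (nat_lit 272663397),
  Rx.mk (nat_lit 374) (nat_lit 6) (nat_lit 6) (nat_lit 5) (nat_lit 7) (nat_lit 110) (nat_lit 159) r4_110 r1_159 (nat_lit 0) (nat_lit 0) (nat_lit 0) (nat_lit 0x207453f38) (nat_lit 261249556),
  Rx.mk (nat_lit 500) (nat_lit 4) (nat_lit 6) (nat_lit 7) (nat_lit 6) (nat_lit 111) (nat_lit 156) r4_111 r1_156 (nat_lit 12447961) (nat_lit 0) (nat_lit 0) (nat_lit 0x209304a72) (nat_lit 271717417),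
  Rx.mk (nat_lit 502) (nat_lit 6) (nat_lit 6) (nat_lit 7) (nat_lit 7) (nat_lit 112) (nat_lit 160) r4_112 r1_160 (nat_lit 0) (nat_lit 0) (nat_lit 0) (nat_lit 0x20610c45c) (nat_lit 262493306),
  Rx.mk (nat_lit 503) (nat_lit 7) (nat_lit 6) (nat_lit 7) (nat_lit 7) (nat_lit 113) (nat_lit 157) r4_113 r1_157 (nat_lit 0) (nat_lit 0) (nat_lit 0) (nat_lit 0x20056d4f2) (nat_lit 268435456)]
noncomputable def e24_9 : List Rx := [
  Rx.mk (nat_lit 500) (nat_lit 4) (nat_lit 6) (nat_lit 7) (nat_lit 6) (nat_lit 131) (nat_lit 131) r4_131 r4_131 (nat_lit 91562274) (nat_lit 0) (nat_lit 0) (nat_lit 0x20bd52a90) (nat_lit 348050580),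
  Rx.mk (nat_lit 502) (nat_lit 6) (nat_lit 6) (nat_lit 7) (nat_lit 7) (nat_lit 132) (nat_lit 133) r4_132 r4_133 (nat_lit 0) (nat_lit 0) (nat_lit 0) (nat_lit 0x201813200) (nat_lit 267212806),
  Rx.mk (nat_lit 503) (nat_lit 7) (nat_lit 6) (nat_lit 7) (nat_lit 7) (nat_lit 133) (nat_lit 132) r4_133 r4_132 (nat_lit 0) (nat_lit 0) (nat_lit 0) (nat_lit 0x201813200) (nat_lit 267212806)]
noncomputable def e24_10 : List Rx := [
  Rx.mk (nat_lit 39) (nat_lit 7) (nat_lit 4) (nat_lit 0) (nat_lit 1) (nat_lit 229) (nat_lit 186) r4_229 r6_186 (nat_lit 0) (nat_lit 28185) (nat_lit 34287) (nat_lit 0x1dae6e1a8) (nat_lit 307898128),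
  Rx.mk (nat_lit 47) (nat_lit 7) (nat_lit 5) (nat_lit 0) (nat_lit 3) (nat_lit 230) (nat_lit 188) r4_230 r6_188 (nat_lit 0) (nat_lit 0) (nat_lit 4940583) (nat_lit 0x207c65776) (nat_lit 265672239),
  Rx.mk (nat_lit 55) (nat_lit 7) (nat_lit 6) (nat_lit 0) (nat_lit 3) (nat_lit 231) (nat_lit 191) r4_231 r6_191 (nat_lit 0) (nat_lit 0) (nat_lit 4487931) (nat_lit 0x209dd549c) (nat_lit 263067837),
  Rx.mk (nat_lit 59) (nat_lit 3) (nat_lit 7) (nat_lit 0) (nat_lit 3) (nat_lit 233) (nat_lit 181) r4_233 r6_181 (nat_lit 0) (nat_lit 0) (nat_lit 5598281) (nat_lit 0x1e289abde) (nat_lit 305500037),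
  Rx.mk (nat_lit 63) (nat_lit 7) (nat_lit 7) (nat_lit 0) (nat_lit 3) (nat_lit 232) (nat_lit 190) r4_232 r6_190 (nat_lit 0) (nat_lit 0) (nat_lit 4488278) (nat_lit 0x1fc7820a2) (nat_lit 276951634),
  Rx.mk (nat_lit 187) (nat_lit 3) (nat_lit 7) (nat_lit 2) (nat_lit 7) (nat_lit 234) (nat_lit 182) r4_234 r6_182 (nat_lit 0) (nat_lit 0) (nat_lit 0) (nat_lit 0x1fa41fd80) (nat_lit 274732506),
  Rx.mk (nat_lit 228) (nat_lit 4) (nat_lit 4) (nat_lit 3) (nat_lit 4) (nat_lit 235) (nat_lit 183) r4_235 r6_183 (nat_lit 6730) (nat_lit 4468) (nat_lit 0) (nat_lit 0x1dc711886) (nat_lit 306205804),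
  Rx.mk (nat_lit 231) (nat_lit 7) (nat_lit 4) (nat_lit 3) (nat_lit 5) (nat_lit 238) (nat_lit 187) r4_238 r6_187 (nat_lit 0) (nat_lit 1951987) (nat_lit 0) (nat_lit 0x20331c8da) (nat_lit 267370243),
  Rx.mk (nat_lit 236) (nat_lit 4) (nat_lit 5) (nat_lit 3) (nat_lit 6) (nat_lit 236) (nat_lit 184) r4_236 r6_184 (nat_lit 6773533) (nat_lit 0) (nat_lit 0) (nat_lit 0x2033b14e4) (nat_lit 272200839),
  Rx.mk (nat_lit 239) (nat_lit 7) (nat_lit 5) (nat_lit 3) (nat_lit 7) (nat_lit 239) (nat_lit 189) r4_239 r6_189 (nat_lit 0) (nat_lit 0) (nat_lit 0) (nat_lit 0x2116200aa) (nat_lit 250859506),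
  Rx.mk (nat_lit 244) (nat_lit 4) (nat_lit 6) (nat_lit 3) (nat_lit 6) (nat_lit 237) (nat_lit 185) r4_237 r6_185 (nat_lit 2212669) (nat_lit 0) (nat_lit 0) (nat_lit 0x2071e303c) (nat_lit 263588475),
  Rx.mk (nat_lit 247) (nat_lit 7) (nat_lit 6) (nat_lit 3) (nat_lit 7) (nat_lit 240) (nat_lit 192) r4_240 r6_192 (nat_lit 0) (nat_lit 0) (nat_lit 0) (nat_lit 0x212e4ad7e) (nat_lit 249311106)]
noncomputable def e24_11 : List Rx := [
  Rx.mk (nat_lit 59) (nat_lit 3) (nat_lit 7) (nat_lit 0) (nat_lit 3) (nat_lit 198) (nat_lit 128) r4_198 r5_128 (nat_lit 0) (nat_lit 0) (nat_lit 3429448) (nat_lit 0x1ecf9e836) (nat_lit 292245754),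
  Rx.mk (nat_lit 63) (nat_lit 7) (nat_lit 7) (nat_lit 0) (nat_lit 3) (nat_lit 197) (nat_lit 126) r4_197 r5_126 (nat_lit 0) (nat_lit 0) (nat_lit 4028635) (nat_lit 0x1ef2a41be) (nat_lit 290539191),
  Rx.mk (nat_lit 187) (nat_lit 3) (nat_lit 7) (nat_lit 2) (nat_lit 7) (nat_lit 199) (nat_lit 129) r4_199 r5_129 (nat_lit 0) (nat_lit 0) (nat_lit 0) (nat_lit 0x20506a536) (nat_lit 263520456),
  Rx.mk (nat_lit 228) (nat_lit 4) (nat_lit 4) (nat_lit 3) (nat_lit 4) (nat_lit 200) (nat_lit 124) r4_200 r5_124 (nat_lit 22730) (nat_lit 14824) (nat_lit 0) (nat_lit 0x1b6eb0298) (nat_lit 346080460),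
  Rx.mk (nat_lit 231) (nat_lit 7) (nat_lit 4) (nat_lit 3) (nat_lit 5) (nat_lit 202) (nat_lit 125) r4_202 r5_125 (nat_lit 0) (nat_lit 1728695) (nat_lit 0) (nat_lit 0x212646e0c) (nat_lit 251527401),
  Rx.mk (nat_lit 244) (nat_lit 4) (nat_lit 6) (nat_lit 3) (nat_lit 6) (nat_lit 201) (nat_lit 131) r4_201 r5_131 (nat_lit 2626709) (nat_lit 0) (nat_lit 0) (nat_lit 0x20411bf30) (nat_lit 267138965),
  Rx.mk (nat_lit 247) (nat_lit 7) (nat_lit 6) (nat_lit 3) (nat_lit 7) (nat_lit 203) (nat_lit 132) r4_203 r5_132 (nat_lit 0) (nat_lit 0) (nat_lit 0) (nat_lit 0x2164a85ba) (nat_lit 245825906),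
  Rx.mk (nat_lit 255) (nat_lit 7) (nat_lit 7) (nat_lit 3) (nat_lit 7) (nat_lit 204) (nat_lit 127) r4_204 r5_127 (nat_lit 0) (nat_lit 0) (nat_lit 0) (nat_lit 0x203895d34) (nat_lit 265111306),
  Rx.mk (nat_lit 500) (nat_lit 4) (nat_lit 6) (nat_lit 7) (nat_lit 6) (nat_lit 195) (nat_lit 130) r4_195 r5_130 (nat_lit 35171213) (nat_lit 0) (nat_lit 0) (nat_lit 0x1fbe12a9e) (nat_lit 308019369),
  Rx.mk (nat_lit 502) (nat_lit 6) (nat_lit 6) (nat_lit 7) (nat_lit 7) (nat_lit 196) (nat_lit 133) r4_196 r5_133 (nat_lit 0) (nat_lit 0) (nat_lit 0) (nat_lit 0x1fd3566ee) (nat_lit 271687156)]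
noncomputable def e24_12 : List Rx := [
  Rx.mk (nat_lit 37) (nat_lit 5) (nat_lit 4) (nat_lit 0) (nat_lit 1) (nat_lit 253) (nat_lit 306) r4_253 r0_306 (nat_lit 0) (nat_lit 3903538) (nat_lit 19679101) (nat_lit 0x1db7e0f38) (nat_lit 330963295),
  Rx.mk (nat_lit 45) (nat_lit 5) (nat_lit 5) (nat_lit 0) (nat_lit 3) (nat_lit 254) (nat_lit 307) r4_254 r0_307 (nat_lit 0) (nat_lit 0) (nat_lit 108297310) (nat_lit 0x1ec126d4e) (nat_lit 397937116),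
  Rx.mk (nat_lit 53) (nat_lit 5) (nat_lit 6) (nat_lit 0) (nat_lit 3) (nat_lit 255) (nat_lit 308) r4_255 r0_308 (nat_lit 0) (nat_lit 0) (nat_lit 12077193) (nat_lit 0x1ffd30320) (nat_lit 281032149),
  Rx.mk (nat_lit 100) (nat_lit 4) (nat_lit 4) (nat_lit 1) (nat_lit 4) (nat_lit 256) (nat_lit 309) r4_256 r0_309 (nat_lit 8049828) (nat_lit 14166006) (nat_lit 0) (nat_lit 0x1ae665b5e) (nat_lit 377442740),
  Rx.mk (nat_lit 101) (nat_lit 5) (nat_lit 4) (nat_lit 1) (nat_lit 5) (nat_lit 259) (nat_lit 310) r4_259 r0_310 (nat_lit 0) (nat_lit 8068535) (nat_lit 0) (nat_lit 0x1fcb5274a) (nat_lit 280275941),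
  Rx.mk (nat_lit 108) (nat_lit 4) (nat_lit 5) (nat_lit 1) (nat_lit 6) (nat_lit 257) (nat_lit 311) r4_257 r0_311 (nat_lit 10253547) (nat_lit 0) (nat_lit 0) (nat_lit 0x1fe86ff26) (nat_lit 280577553),
  Rx.mk (nat_lit 109) (nat_lit 5) (nat_lit 5) (nat_lit 1) (nat_lit 7) (nat_lit 260) (nat_lit 312) r4_260 r0_312 (nat_lit 0) (nat_lit 0) (nat_lit 0) (nat_lit 0x20469ff42) (nat_lit 264200756),
  Rx.mk (nat_lit 116) (nat_lit 4) (nat_lit 6) (nat_lit 1) (nat_lit 6) (nat_lit 258) (nat_lit 313) r4_258 r0_313 (nat_lit 5453470) (nat_lit 0) (nat_lit 0) (nat_lit 0x202795156) (nat_lit 271662226),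
  Rx.mk (nat_lit 117) (nat_lit 5) (nat_lit 6) (nat_lit 1) (nat_lit 7) (nat_lit 261) (nat_lit 314) r4_261 r0_314 (nat_lit 0) (nat_lit 0) (nat_lit 0) (nat_lit 0x2018d4ea0) (nat_lit 267171456)]
noncomputable def e24_13 : List Rx := [
  Rx.mk (nat_lit 100) (nat_lit 4) (nat_lit 4) (nat_lit 1) (nat_lit 4) (nat_lit 265) (nat_lit 223) r4_265 r7_223 (nat_lit 11185874) (nat_lit 9833742) (nat_lit 0) (nat_lit 0x1c93abff6) (nat_lit 347782772),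
  Rx.mk (nat_lit 101) (nat_lit 5) (nat_lit 4) (nat_lit 1) (nat_lit 5) (nat_lit 268) (nat_lit 226) r4_268 r7_226 (nat_lit 0) (nat_lit 7236911) (nat_lit 0) (nat_lit 0x2024f415e) (nat_lit 273617967),
  Rx.mk (nat_lit 108) (nat_lit 4) (nat_lit 5) (nat_lit 1) (nat_lit 6) (nat_lit 266) (nat_lit 224) r4_266 r7_224 (nat_lit 9484367) (nat_lit 0) (nat_lit 0) (nat_lit 0x20056d4f2) (nat_lit 277919823),
  Rx.mk (nat_lit 109) (nat_lit 5) (nat_lit 5) (nat_lit 1) (nat_lit 7) (nat_lit 269) (nat_lit 227) r4_269 r7_227 (nat_lit 0) (nat_lit 0) (nat_lit 0) (nat_lit 0x20056d4f2) (nat_lit 268435456),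
  Rx.mk (nat_lit 116) (nat_lit 4) (nat_lit 6) (nat_lit 1) (nat_lit 6) (nat_lit 267) (nat_lit 225) r4_267 r7_225 (nat_lit 7262151) (nat_lit 0) (nat_lit 0) (nat_lit 0x202830002) (nat_lit 273435607),
  Rx.mk (nat_lit 117) (nat_lit 5) (nat_lit 6) (nat_lit 1) (nat_lit 7) (nat_lit 270) (nat_lit 228) r4_270 r7_228 (nat_lit 0) (nat_lit 0) (nat_lit 0) (nat_lit 0x20056d4f2) (nat_lit 268435456)]
noncomputable def e24_14 : List Rx := [
  Rx.mk (nat_lit 37) (nat_lit 5) (nat_lit 4) (nat_lit 0) (nat_lit 1) (nat_lit 293) (nat_lit 297) r4_293 r1_297 (nat_lit 0) (nat_lit 7964941) (nat_lit 37486881) (nat_lit 0x1e2447636) (nat_lit 345644678),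
  Rx.mk (nat_lit 45) (nat_lit 5) (nat_lit 5) (nat_lit 0) (nat_lit 3) (nat_lit 294) (nat_lit 298) r4_294 r1_298 (nat_lit 0) (nat_lit 0) (nat_lit 64041447) (nat_lit 0x1ecae2630) (nat_lit 353130703),
  Rx.mk (nat_lit 53) (nat_lit 5) (nat_lit 6) (nat_lit 0) (nat_lit 3) (nat_lit 295) (nat_lit 299) r4_295 r1_299 (nat_lit 0) (nat_lit 0) (nat_lit 9484367) (nat_lit 0x204029028) (nat_lit 274104223),
  Rx.mk (nat_lit 101) (nat_lit 5) (nat_lit 4) (nat_lit 1) (nat_lit 5) (nat_lit 296) (nat_lit 300) r4_296 r1_300 (nat_lit 0) (nat_lit 8498519) (nat_lit 0) (nat_lit 0x2004215b2) (nat_lit 277012825),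
  Rx.mk (nat_lit 109) (nat_lit 5) (nat_lit 5) (nat_lit 1) (nat_lit 7) (nat_lit 297) (nat_lit 301) r4_297 r1_301 (nat_lit 0) (nat_lit 0) (nat_lit 0) (nat_lit 0x203c80264) (nat_lit 264857406),
  Rx.mk (nat_lit 117) (nat_lit 5) (nat_lit 6) (nat_lit 1) (nat_lit 7) (nat_lit 298) (nat_lit 302) r4_298 r1_302 (nat_lit 0) (nat_lit 0) (nat_lit 0) (nat_lit 0x201adc162) (nat_lit 267040306)]
noncomputable def e24_15 : List Rx := [
  Rx.mk (nat_lit 101) (nat_lit 5) (nat_lit 4) (nat_lit 1) (nat_lit 5) (nat_lit 304) (nat_lit 181) r4_304 r8_181 (nat_lit 0) (nat_lit 9015295) (nat_lit 0) (nat_lit 0x1fe14e328) (nat_lit 279801251),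
  Rx.mk (nat_lit 109) (nat_lit 5) (nat_lit 5) (nat_lit 1) (nat_lit 7) (nat_lit 305) (nat_lit 182) r4_305 r8_182 (nat_lit 0) (nat_lit 0) (nat_lit 0) (nat_lit 0x20056d4f2) (nat_lit 268435456),
  Rx.mk (nat_lit 117) (nat_lit 5) (nat_lit 6) (nat_lit 1) (nat_lit 7) (nat_lit 306) (nat_lit 183) r4_306 r8_183 (nat_lit 0) (nat_lit 0) (nat_lit 0) (nat_lit 0x20056d4f2) (nat_lit 268435456)]
noncomputable def e24_16 : List Rx := [
  Rx.mk (nat_lit 100) (nat_lit 4) (nat_lit 4) (nat_lit 1) (nat_lit 4) (nat_lit 287) (nat_lit 341) r4_287 r8_341 (nat_lit 12458268) (nat_lit 14567528) (nat_lit 0) (nat_lit 0x1d73a9072) (nat_lit 338947352),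
  Rx.mk (nat_lit 101) (nat_lit 5) (nat_lit 4) (nat_lit 1) (nat_lit 5) (nat_lit 290) (nat_lit 342) r4_290 r8_342 (nat_lit 0) (nat_lit 8683363) (nat_lit 0) (nat_lit 0x1fe72858c) (nat_lit 279088869),
  Rx.mk (nat_lit 108) (nat_lit 4) (nat_lit 5) (nat_lit 1) (nat_lit 6) (nat_lit 288) (nat_lit 343) r4_288 r8_343 (nat_lit 9484367) (nat_lit 0) (nat_lit 0) (nat_lit 0x20056d4f2) (nat_lit 277919823),
  Rx.mk (nat_lit 109) (nat_lit 5) (nat_lit 5) (nat_lit 1) (nat_lit 7) (nat_lit 291) (nat_lit 344) r4_291 r8_344 (nat_lit 0) (nat_lit 0) (nat_lit 0) (nat_lit 0x20056d4f2) (nat_lit 268435456),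
  Rx.mk (nat_lit 116) (nat_lit 4) (nat_lit 6) (nat_lit 1) (nat_lit 6) (nat_lit 289) (nat_lit 345) r4_289 r8_345 (nat_lit 9484367) (nat_lit 0) (nat_lit 0) (nat_lit 0x20056d4f2) (nat_lit 277919823),
  Rx.mk (nat_lit 117) (nat_lit 5) (nat_lit 6) (nat_lit 1) (nat_lit 7) (nat_lit 292) (nat_lit 346) r4_292 r8_346 (nat_lit 0) (nat_lit 0) (nat_lit 0) (nat_lit 0x20056d4f2) (nat_lit 268435456),
  Rx.mk (nat_lit 372) (nat_lit 4) (nat_lit 6) (nat_lit 5) (nat_lit 6) (nat_lit 284) (nat_lit 338) r4_284 r8_338 (nat_lit 9484367) (nat_lit 0) (nat_lit 0) (nat_lit 0x20056d4f2) (nat_lit 277919823),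
  Rx.mk (nat_lit 373) (nat_lit 5) (nat_lit 6) (nat_lit 5) (nat_lit 7) (nat_lit 285) (nat_lit 339) r4_285 r8_339 (nat_lit 0) (nat_lit 0) (nat_lit 0) (nat_lit 0x20056d4f2) (nat_lit 268435456),
  Rx.mk (nat_lit 374) (nat_lit 6) (nat_lit 6) (nat_lit 5) (nat_lit 7) (nat_lit 286) (nat_lit 340) r4_286 r8_340 (nat_lit 0) (nat_lit 0) (nat_lit 0) (nat_lit 0x20056d4f2) (nat_lit 268435456)]
noncomputable def e24_17 : List Rx := [
  Rx.mk (nat_lit 372) (nat_lit 4) (nat_lit 6) (nat_lit 5) (nat_lit 6) (nat_lit 273) (nat_lit 167) r4_273 r9_167 (nat_lit 9484367) (nat_lit 0) (nat_lit 0) (nat_lit 0x20056d4f2) (nat_lit 277919823),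
  Rx.mk (nat_lit 373) (nat_lit 5) (nat_lit 6) (nat_lit 5) (nat_lit 7) (nat_lit 274) (nat_lit 168) r4_274 r9_168 (nat_lit 0) (nat_lit 0) (nat_lit 0) (nat_lit 0x20056d4f2) (nat_lit 268435456),
  Rx.mk (nat_lit 374) (nat_lit 6) (nat_lit 6) (nat_lit 5) (nat_lit 7) (nat_lit 275) (nat_lit 169) r4_275 r9_169 (nat_lit 0) (nat_lit 0) (nat_lit 0) (nat_lit 0x20056d4f2) (nat_lit 268435456)]
noncomputable def e24_18 : List Rx := [
  Rx.mk (nat_lit 36) (nat_lit 4) (nat_lit 4) (nat_lit 0) (nat_lit 0) (nat_lit 327) (nat_lit 327) r4_327 r4_327 (nat_lit 2329280) (nat_lit 2329280) (nat_lit 13628308) (nat_lit 0x1ada51b10) (nat_lit 374324924),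
  Rx.mk (nat_lit 37) (nat_lit 5) (nat_lit 4) (nat_lit 0) (nat_lit 1) (nat_lit 330) (nat_lit 328) r4_330 r4_328 (nat_lit 0) (nat_lit 2358590) (nat_lit 41605855) (nat_lit 0x1ddb8beba) (nat_lit 348957151),
  Rx.mk (nat_lit 39) (nat_lit 7) (nat_lit 4) (nat_lit 0) (nat_lit 1) (nat_lit 333) (nat_lit 329) r4_333 r4_329 (nat_lit 0) (nat_lit 9702246) (nat_lit 10081816) (nat_lit 0x1ee93239c) (nat_lit 306935668),
  Rx.mk (nat_lit 44) (nat_lit 4) (nat_lit 5) (nat_lit 0) (nat_lit 2) (nat_lit 328) (nat_lit 330) r4_328 r4_330 (nat_lit 2358590) (nat_lit 0) (nat_lit 41605855) (nat_lit 0x1ddb8beba) (nat_lit 348957151),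
  Rx.mk (nat_lit 45) (nat_lit 5) (nat_lit 5) (nat_lit 0) (nat_lit 3) (nat_lit 331) (nat_lit 331) r4_331 r4_331 (nat_lit 0) (nat_lit 0) (nat_lit 10939224) (nat_lit 0x203016320) (nat_lit 276586330),
  Rx.mk (nat_lit 47) (nat_lit 7) (nat_lit 5) (nat_lit 0) (nat_lit 3) (nat_lit 334) (nat_lit 332) r4_334 r4_332 (nat_lit 0) (nat_lit 0) (nat_lit 9484367) (nat_lit 0x2062e149e) (nat_lit 271859423),
  Rx.mk (nat_lit 52) (nat_lit 4) (nat_lit 6) (nat_lit 0) (nat_lit 2) (nat_lit 329) (nat_lit 333) r4_329 r4_333 (nat_lit 9702246) (nat_lit 0) (nat_lit 10081816) (nat_lit 0x1ee93239c) (nat_lit 306935668),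
  Rx.mk (nat_lit 53) (nat_lit 5) (nat_lit 6) (nat_lit 0) (nat_lit 3) (nat_lit 332) (nat_lit 334) r4_332 r4_334 (nat_lit 0) (nat_lit 0) (nat_lit 9484367) (nat_lit 0x2062e149e) (nat_lit 271859423),
  Rx.mk (nat_lit 100) (nat_lit 4) (nat_lit 4) (nat_lit 1) (nat_lit 4) (nat_lit 335) (nat_lit 335) r4_335 r4_335 (nat_lit 12489784) (nat_lit 12489784) (nat_lit 0) (nat_lit 0x1f491d57c) (nat_lit 305785124),
  Rx.mk (nat_lit 101) (nat_lit 5) (nat_lit 4) (nat_lit 1) (nat_lit 5) (nat_lit 338) (nat_lit 336) r4_338 r4_336 (nat_lit 0) (nat_lit 8271951) (nat_lit 0) (nat_lit 0x20169ac70) (nat_lit 275588707),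
  Rx.mk (nat_lit 103) (nat_lit 7) (nat_lit 4) (nat_lit 1) (nat_lit 5) (nat_lit 341) (nat_lit 337) r4_341 r4_337 (nat_lit 0) (nat_lit 7586844) (nat_lit 0) (nat_lit 0x204ffae34) (nat_lit 271180050),
  Rx.mk (nat_lit 108) (nat_lit 4) (nat_lit 5) (nat_lit 1) (nat_lit 6) (nat_lit 336) (nat_lit 338) r4_336 r4_338 (nat_lit 8271951) (nat_lit 0) (nat_lit 0) (nat_lit 0x20169ac70) (nat_lit 275588707),
  Rx.mk (nat_lit 109) (nat_lit 5) (nat_lit 5) (nat_lit 1) (nat_lit 7) (nat_lit 339) (nat_lit 339) r4_339 r4_339 (nat_lit 0) (nat_lit 0) (nat_lit 0) (nat_lit 0x20056d4f2) (nat_lit 268435456),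
  Rx.mk (nat_lit 111) (nat_lit 7) (nat_lit 5) (nat_lit 1) (nat_lit 7) (nat_lit 342) (nat_lit 340) r4_342 r4_340 (nat_lit 0) (nat_lit 0) (nat_lit 0) (nat_lit 0x20056d4f2) (nat_lit 268435456),
  Rx.mk (nat_lit 116) (nat_lit 4) (nat_lit 6) (nat_lit 1) (nat_lit 6) (nat_lit 337) (nat_lit 341) r4_337 r4_341 (nat_lit 7586844) (nat_lit 0) (nat_lit 0) (nat_lit 0x204ffae34) (nat_lit 271180050),
  Rx.mk (nat_lit 117) (nat_lit 5) (nat_lit 6) (nat_lit 1) (nat_lit 7) (nat_lit 340) (nat_lit 342) r4_340 r4_342 (nat_lit 0) (nat_lit 0) (nat_lit 0) (nat_lit 0x20056d4f2) (nat_lit 268435456)]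
noncomputable def e24_19 : List Rx := [
  Rx.mk (nat_lit 100) (nat_lit 4) (nat_lit 4) (nat_lit 1) (nat_lit 4) (nat_lit 355) (nat_lit 175) r4_355 r10_175 (nat_lit 11803392) (nat_lit 9177885) (nat_lit 0) (nat_lit 0x1c1522bbc) (nat_lit 356144783),
  Rx.mk (nat_lit 101) (nat_lit 5) (nat_lit 4) (nat_lit 1) (nat_lit 5) (nat_lit 358) (nat_lit 178) r4_358 r10_178 (nat_lit 0) (nat_lit 6732829) (nat_lit 0) (nat_lit 0x2042a019e) (nat_lit 271193535),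
  Rx.mk (nat_lit 103) (nat_lit 7) (nat_lit 4) (nat_lit 1) (nat_lit 5) (nat_lit 361) (nat_lit 181) r4_361 r10_181 (nat_lit 0) (nat_lit 9484367) (nat_lit 0) (nat_lit 0x2043d17e8) (nat_lit 273866873),
  Rx.mk (nat_lit 108) (nat_lit 4) (nat_lit 5) (nat_lit 1) (nat_lit 6) (nat_lit 356) (nat_lit 176) r4_356 r10_176 (nat_lit 9484367) (nat_lit 0) (nat_lit 0) (nat_lit 0x20056d4f2) (nat_lit 277919823),
  Rx.mk (nat_lit 109) (nat_lit 5) (nat_lit 5) (nat_lit 1) (nat_lit 7) (nat_lit 359) (nat_lit 179) r4_359 r10_179 (nat_lit 0) (nat_lit 0) (nat_lit 0) (nat_lit 0x20056d4f2) (nat_lit 268435456),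
  Rx.mk (nat_lit 111) (nat_lit 7) (nat_lit 5) (nat_lit 1) (nat_lit 7) (nat_lit 362) (nat_lit 182) r4_362 r10_182 (nat_lit 0) (nat_lit 0) (nat_lit 0) (nat_lit 0x20056d4f2) (nat_lit 268435456),
  Rx.mk (nat_lit 116) (nat_lit 4) (nat_lit 6) (nat_lit 1) (nat_lit 6) (nat_lit 357) (nat_lit 177) r4_357 r10_177 (nat_lit 7299409) (nat_lit 0) (nat_lit 0) (nat_lit 0x201db5762) (nat_lit 274149815),
  Rx.mk (nat_lit 117) (nat_lit 5) (nat_lit 6) (nat_lit 1) (nat_lit 7) (nat_lit 360) (nat_lit 180) r4_360 r10_180 (nat_lit 0) (nat_lit 0) (nat_lit 0) (nat_lit 0x20056d4f2) (nat_lit 268435456)]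
noncomputable def e24_20 : List Rx := [
  Rx.mk (nat_lit 36) (nat_lit 4) (nat_lit 4) (nat_lit 0) (nat_lit 0) (nat_lit 381) (nat_lit 191) r4_381 r11_191 (nat_lit 4629243) (nat_lit 5259995) (nat_lit 11636049) (nat_lit 0x18a059702) (nat_lit 415395343),
  Rx.mk (nat_lit 37) (nat_lit 5) (nat_lit 4) (nat_lit 0) (nat_lit 1) (nat_lit 384) (nat_lit 199) r4_384 r11_199 (nat_lit 0) (nat_lit 5972934) (nat_lit 24962579) (nat_lit 0x1efa7961e) (nat_lit 316939569),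
  Rx.mk (nat_lit 39) (nat_lit 7) (nat_lit 4) (nat_lit 0) (nat_lit 1) (nat_lit 387) (nat_lit 207) r4_387 r11_207 (nat_lit 0) (nat_lit 9191551) (nat_lit 14112324) (nat_lit 0x1ed0dc766) (nat_lit 312067131),
  Rx.mk (nat_lit 44) (nat_lit 4) (nat_lit 5) (nat_lit 0) (nat_lit 2) (nat_lit 382) (nat_lit 194) r4_382 r11_194 (nat_lit 8266185) (nat_lit 0) (nat_lit 12001047) (nat_lit 0x1fde50518) (nat_lit 291249688),
  Rx.mk (nat_lit 45) (nat_lit 5) (nat_lit 5) (nat_lit 0) (nat_lit 3) (nat_lit 385) (nat_lit 202) r4_385 r11_202 (nat_lit 0) (nat_lit 0) (nat_lit 11215696) (nat_lit 0x1f7d24aa0) (nat_lit 288594902),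
  Rx.mk (nat_lit 47) (nat_lit 7) (nat_lit 5) (nat_lit 0) (nat_lit 3) (nat_lit 388) (nat_lit 209) r4_388 r11_209 (nat_lit 0) (nat_lit 0) (nat_lit 9484367) (nat_lit 0x20176d5a8) (nat_lit 276747473),
  Rx.mk (nat_lit 52) (nat_lit 4) (nat_lit 6) (nat_lit 0) (nat_lit 2) (nat_lit 383) (nat_lit 196) r4_383 r11_196 (nat_lit 12835839) (nat_lit 0) (nat_lit 11364595) (nat_lit 0x1f2c2c2a6) (nat_lit 306926390),
  Rx.mk (nat_lit 53) (nat_lit 5) (nat_lit 6) (nat_lit 0) (nat_lit 3) (nat_lit 386) (nat_lit 204) r4_386 r11_204 (nat_lit 0) (nat_lit 0) (nat_lit 9484367) (nat_lit 0x20056d4f2) (nat_lit 277919823),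
  Rx.mk (nat_lit 63) (nat_lit 7) (nat_lit 7) (nat_lit 0) (nat_lit 3) (nat_lit 389) (nat_lit 210) r4_389 r11_210 (nat_lit 0) (nat_lit 0) (nat_lit 9484367) (nat_lit 0x20176df08) (nat_lit 276747323),
  Rx.mk (nat_lit 100) (nat_lit 4) (nat_lit 4) (nat_lit 1) (nat_lit 4) (nat_lit 390) (nat_lit 192) r4_390 r11_192 (nat_lit 31250710) (nat_lit 7182901) (nat_lit 0) (nat_lit 0x1f1542e96) (nat_lit 322664317),
  Rx.mk (nat_lit 101) (nat_lit 5) (nat_lit 4) (nat_lit 1) (nat_lit 5) (nat_lit 392) (nat_lit 200) r4_392 r11_200 (nat_lit 0) (nat_lit 9484367) (nat_lit 0) (nat_lit 0x20056d4f2) (nat_lit 277919823),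
  Rx.mk (nat_lit 103) (nat_lit 7) (nat_lit 4) (nat_lit 1) (nat_lit 5) (nat_lit 394) (nat_lit 208) r4_394 r11_208 (nat_lit 0) (nat_lit 9484367) (nat_lit 0) (nat_lit 0x20056d4f2) (nat_lit 277919823),
  Rx.mk (nat_lit 116) (nat_lit 4) (nat_lit 6) (nat_lit 1) (nat_lit 6) (nat_lit 391) (nat_lit 197) r4_391 r11_197 (nat_lit 9484367) (nat_lit 0) (nat_lit 0) (nat_lit 0x20056d4f2) (nat_lit 277919823),
  Rx.mk (nat_lit 117) (nat_lit 5) (nat_lit 6) (nat_lit 1) (nat_lit 7) (nat_lit 393) (nat_lit 205) r4_393 r11_205 (nat_lit 0) (nat_lit 0) (nat_lit 0) (nat_lit 0x20056d4f2) (nat_lit 268435456),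
  Rx.mk (nat_lit 127) (nat_lit 7) (nat_lit 7) (nat_lit 1) (nat_lit 7) (nat_lit 395) (nat_lit 211) r4_395 r11_211 (nat_lit 0) (nat_lit 0) (nat_lit 0) (nat_lit 0x20056d4f2) (nat_lit 268435456),
  Rx.mk (nat_lit 228) (nat_lit 4) (nat_lit 4) (nat_lit 3) (nat_lit 4) (nat_lit 396) (nat_lit 193) r4_396 r11_193 (nat_lit 10634033) (nat_lit 12144670) (nat_lit 0) (nat_lit 0x1f90f139e) (nat_lit 298845159),
  Rx.mk (nat_lit 229) (nat_lit 5) (nat_lit 4) (nat_lit 3) (nat_lit 5) (nat_lit 399) (nat_lit 201) r4_399 r11_201 (nat_lit 0) (nat_lit 9484367) (nat_lit 0) (nat_lit 0x20056d4f2) (nat_lit 277919823),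
  Rx.mk (nat_lit 236) (nat_lit 4) (nat_lit 5) (nat_lit 3) (nat_lit 6) (nat_lit 397) (nat_lit 195) r4_397 r11_195 (nat_lit 9484367) (nat_lit 0) (nat_lit 0) (nat_lit 0x20056d4f2) (nat_lit 277919823),
  Rx.mk (nat_lit 237) (nat_lit 5) (nat_lit 5) (nat_lit 3) (nat_lit 7) (nat_lit 400) (nat_lit 203) r4_400 r11_203 (nat_lit 0) (nat_lit 0) (nat_lit 0) (nat_lit 0x20056d4f2) (nat_lit 268435456),
  Rx.mk (nat_lit 244) (nat_lit 4) (nat_lit 6) (nat_lit 3) (nat_lit 6) (nat_lit 398) (nat_lit 198) r4_398 r11_198 (nat_lit 9484367) (nat_lit 0) (nat_lit 0) (nat_lit 0x20056d4f2) (nat_lit 277919823),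
  Rx.mk (nat_lit 245) (nat_lit 5) (nat_lit 6) (nat_lit 3) (nat_lit 7) (nat_lit 401) (nat_lit 206) r4_401 r11_206 (nat_lit 0) (nat_lit 0) (nat_lit 0) (nat_lit 0x20056d4f2) (nat_lit 268435456)]
noncomputable def e24_21 : List Rx := [
  Rx.mk (nat_lit 342) (nat_lit 6) (nat_lit 2) (nat_lit 5) (nat_lit 7) (nat_lit 278) (nat_lit 135) r4_278 r9_135 (nat_lit 0) (nat_lit 0) (nat_lit 0) (nat_lit 0x20056d4f2) (nat_lit 268435456),
  Rx.mk (nat_lit 372) (nat_lit 4) (nat_lit 6) (nat_lit 5) (nat_lit 6) (nat_lit 276) (nat_lit 133) r4_276 r9_133 (nat_lit 10224750) (nat_lit 0) (nat_lit 0) (nat_lit 0x1ff7ec1c0) (nat_lit 279539206),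
  Rx.mk (nat_lit 374) (nat_lit 6) (nat_lit 6) (nat_lit 5) (nat_lit 7) (nat_lit 277) (nat_lit 134) r4_277 r9_134 (nat_lit 0) (nat_lit 0) (nat_lit 0) (nat_lit 0x20056d4f2) (nat_lit 268435456)]
noncomputable def e24_22 : List Rx := [
  Rx.mk (nat_lit 128) (nat_lit 0) (nat_lit 0) (nat_lit 2) (nat_lit 4) (nat_lit 8) (nat_lit 52) r4_8 r0_52 (nat_lit 2057600) (nat_lit 911214) (nat_lit 0) (nat_lit 0x1b22bcfc6) (nat_lit 354158770),
  Rx.mk (nat_lit 130) (nat_lit 2) (nat_lit 0) (nat_lit 2) (nat_lit 5) (nat_lit 10) (nat_lit 55) r4_10 r0_55 (nat_lit 0) (nat_lit 4095836) (nat_lit 0) (nat_lit 0x1fd9b63ea) (nat_lit 275364542),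
  Rx.mk (nat_lit 152) (nat_lit 0) (nat_lit 3) (nat_lit 2) (nat_lit 6) (nat_lit 9) (nat_lit 53) r4_9 r0_53 (nat_lit 17143268) (nat_lit 0) (nat_lit 0) (nat_lit 0x1e42af416) (nat_lit 315309874),
  Rx.mk (nat_lit 154) (nat_lit 2) (nat_lit 3) (nat_lit 2) (nat_lit 7) (nat_lit 11) (nat_lit 56) r4_11 r0_56 (nat_lit 0) (nat_lit 0) (nat_lit 0) (nat_lit 0x205e5adb2) (nat_lit 262667356),
  Rx.mk (nat_lit 155) (nat_lit 3) (nat_lit 3) (nat_lit 2) (nat_lit 7) (nat_lit 12) (nat_lit 54) r4_12 r0_54 (nat_lit 0) (nat_lit 0) (nat_lit 0) (nat_lit 0x1d9b5a3be) (nat_lit 309237406),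
  Rx.mk (nat_lit 278) (nat_lit 6) (nat_lit 2) (nat_lit 4) (nat_lit 3) (nat_lit 1) (nat_lit 57) r4_1 r0_57 (nat_lit 0) (nat_lit 0) (nat_lit 4265964) (nat_lit 0x1f7bbe878) (nat_lit 281708970),
  Rx.mk (nat_lit 310) (nat_lit 6) (nat_lit 6) (nat_lit 4) (nat_lit 3) (nat_lit 0) (nat_lit 58) r4_0 r0_58 (nat_lit 0) (nat_lit 0) (nat_lit 829405) (nat_lit 0x19a9ddf48) (nat_lit 377006311),
  Rx.mk (nat_lit 386) (nat_lit 2) (nat_lit 0) (nat_lit 6) (nat_lit 5) (nat_lit 3) (nat_lit 62) r4_3 r0_62 (nat_lit 0) (nat_lit 4296120) (nat_lit 0) (nat_lit 0x1fd4ab1de) (nat_lit 275890326),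
  Rx.mk (nat_lit 402) (nat_lit 2) (nat_lit 2) (nat_lit 6) (nat_lit 7) (nat_lit 4) (nat_lit 63) r4_4 r0_63 (nat_lit 0) (nat_lit 0) (nat_lit 0) (nat_lit 0x206a07ed0) (nat_lit 261913956),
  Rx.mk (nat_lit 406) (nat_lit 6) (nat_lit 2) (nat_lit 6) (nat_lit 7) (nat_lit 2) (nat_lit 64) r4_2 r0_64 (nat_lit 0) (nat_lit 0) (nat_lit 0) (nat_lit 0x203c788ac) (nat_lit 264839206),
  Rx.mk (nat_lit 500) (nat_lit 4) (nat_lit 6) (nat_lit 7) (nat_lit 6) (nat_lit 5) (nat_lit 59) r4_5 r0_59 (nat_lit 20543778) (nat_lit 0) (nat_lit 0) (nat_lit 0x1ef9c7a5e) (nat_lit 306570734),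
  Rx.mk (nat_lit 502) (nat_lit 6) (nat_lit 6) (nat_lit 7) (nat_lit 7) (nat_lit 6) (nat_lit 61) r4_6 r0_61 (nat_lit 0) (nat_lit 0) (nat_lit 0) (nat_lit 0x1fca5e078) (nat_lit 272247956),
  Rx.mk (nat_lit 503) (nat_lit 7) (nat_lit 6) (nat_lit 7) (nat_lit 7) (nat_lit 7) (nat_lit 60) r4_7 r0_60 (nat_lit 0) (nat_lit 0) (nat_lit 0) (nat_lit 0x1fa57e4c4) (nat_lit 274711106)]
noncomputable def e24_23 : List Rx := [
  Rx.mk (nat_lit 128) (nat_lit 0) (nat_lit 0) (nat_lit 2) (nat_lit 4) (nat_lit 16) (nat_lit 50) r4_16 r1_50 (nat_lit 14713705) (nat_lit 4415399) (nat_lit 0) (nat_lit 0x1df5a2f24) (nat_lit 322395360),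
  Rx.mk (nat_lit 130) (nat_lit 2) (nat_lit 0) (nat_lit 2) (nat_lit 5) (nat_lit 18) (nat_lit 53) r4_18 r1_53 (nat_lit 0) (nat_lit 4829277) (nat_lit 0) (nat_lit 0x1fc618c5c) (nat_lit 277393433),
  Rx.mk (nat_lit 152) (nat_lit 0) (nat_lit 3) (nat_lit 2) (nat_lit 6) (nat_lit 17) (nat_lit 51) r4_17 r1_51 (nat_lit 7667538) (nat_lit 0) (nat_lit 0) (nat_lit 0x2056e0442) (nat_lit 270816144),
  Rx.mk (nat_lit 154) (nat_lit 2) (nat_lit 3) (nat_lit 2) (nat_lit 7) (nat_lit 19) (nat_lit 54) r4_19 r1_54 (nat_lit 0) (nat_lit 0) (nat_lit 0) (nat_lit 0x204cb4824) (nat_lit 263807506),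
  Rx.mk (nat_lit 155) (nat_lit 3) (nat_lit 3) (nat_lit 2) (nat_lit 7) (nat_lit 20) (nat_lit 52) r4_20 r1_52 (nat_lit 0) (nat_lit 0) (nat_lit 0) (nat_lit 0x218b1a504) (nat_lit 243353006),
  Rx.mk (nat_lit 386) (nat_lit 2) (nat_lit 0) (nat_lit 6) (nat_lit 5) (nat_lit 14) (nat_lit 55) r4_14 r1_55 (nat_lit 0) (nat_lit 4677671) (nat_lit 0) (nat_lit 0x2069dbd26) (nat_lit 266600427),
  Rx.mk (nat_lit 402) (nat_lit 2) (nat_lit 2) (nat_lit 6) (nat_lit 7) (nat_lit 15) (nat_lit 56) r4_15 r1_56 (nat_lit 0) (nat_lit 0) (nat_lit 0) (nat_lit 0x206888b4a) (nat_lit 262011206),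
  Rx.mk (nat_lit 406) (nat_lit 6) (nat_lit 2) (nat_lit 6) (nat_lit 7) (nat_lit 13) (nat_lit 57) r4_13 r1_57 (nat_lit 0) (nat_lit 0) (nat_lit 0) (nat_lit 0x209de56bc) (nat_lit 258574406)]
noncomputable def e24_24 : List Rx := [
  Rx.mk (nat_lit 59) (nat_lit 3) (nat_lit 7) (nat_lit 0) (nat_lit 3) (nat_lit 49) (nat_lit 40) r4_49 r4_40 (nat_lit 0) (nat_lit 0) (nat_lit 11057) (nat_lit 0x1ff068156) (nat_lit 269485363),
  Rx.mk (nat_lit 152) (nat_lit 0) (nat_lit 3) (nat_lit 2) (nat_lit 6) (nat_lit 50) (nat_lit 45) r4_50 r4_45 (nat_lit 13129) (nat_lit 0) (nat_lit 0) (nat_lit 0x1fb3b6334) (nat_lit 273515835),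
  Rx.mk (nat_lit 154) (nat_lit 2) (nat_lit 3) (nat_lit 2) (nat_lit 7) (nat_lit 51) (nat_lit 48) r4_51 r4_48 (nat_lit 0) (nat_lit 0) (nat_lit 0) (nat_lit 0x224ae41f0) (nat_lit 231084156),
  Rx.mk (nat_lit 155) (nat_lit 3) (nat_lit 3) (nat_lit 2) (nat_lit 7) (nat_lit 53) (nat_lit 46) r4_53 r4_46 (nat_lit 0) (nat_lit 0) (nat_lit 0) (nat_lit 0x1f577a0f2) (nat_lit 279620056),
  Rx.mk (nat_lit 187) (nat_lit 3) (nat_lit 7) (nat_lit 2) (nat_lit 7) (nat_lit 52) (nat_lit 47) r4_52 r4_47 (nat_lit 0) (nat_lit 0) (nat_lit 0) (nat_lit 0x210b4202a) (nat_lit 251546656),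
  Rx.mk (nat_lit 231) (nat_lit 7) (nat_lit 4) (nat_lit 3) (nat_lit 5) (nat_lit 54) (nat_lit 42) r4_54 r4_42 (nat_lit 0) (nat_lit 7478) (nat_lit 0) (nat_lit 0x1eb3db0d6) (nat_lit 290488534),
  Rx.mk (nat_lit 247) (nat_lit 7) (nat_lit 6) (nat_lit 3) (nat_lit 7) (nat_lit 55) (nat_lit 44) r4_55 r4_44 (nat_lit 0) (nat_lit 0) (nat_lit 0) (nat_lit 0x22e200b92) (nat_lit 221423156),
  Rx.mk (nat_lit 251) (nat_lit 3) (nat_lit 7) (nat_lit 3) (nat_lit 7) (nat_lit 57) (nat_lit 41) r4_57 r4_41 (nat_lit 0) (nat_lit 0) (nat_lit 0) (nat_lit 0x22ef8862a) (nat_lit 220553406),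
  Rx.mk (nat_lit 255) (nat_lit 7) (nat_lit 7) (nat_lit 3) (nat_lit 7) (nat_lit 56) (nat_lit 43) r4_56 r4_43 (nat_lit 0) (nat_lit 0) (nat_lit 0) (nat_lit 0x2271c3ac8) (nat_lit 228606356),
  Rx.mk (nat_lit 278) (nat_lit 6) (nat_lit 2) (nat_lit 4) (nat_lit 3) (nat_lit 40) (nat_lit 49) r4_40 r4_49 (nat_lit 0) (nat_lit 0) (nat_lit 11057) (nat_lit 0x1ff068156) (nat_lit 269485363),
  Rx.mk (nat_lit 386) (nat_lit 2) (nat_lit 0) (nat_lit 6) (nat_lit 5) (nat_lit 42) (nat_lit 54) r4_42 r4_54 (nat_lit 0) (nat_lit 7478) (nat_lit 0) (nat_lit 0x1eb3db0d6) (nat_lit 290488534),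
  Rx.mk (nat_lit 402) (nat_lit 2) (nat_lit 2) (nat_lit 6) (nat_lit 7) (nat_lit 43) (nat_lit 56) r4_43 r4_56 (nat_lit 0) (nat_lit 0) (nat_lit 0) (nat_lit 0x2271c3ac8) (nat_lit 228606356),
  Rx.mk (nat_lit 406) (nat_lit 6) (nat_lit 2) (nat_lit 6) (nat_lit 7) (nat_lit 41) (nat_lit 57) r4_41 r4_57 (nat_lit 0) (nat_lit 0) (nat_lit 0) (nat_lit 0x22ef8862a) (nat_lit 220553406),
  Rx.mk (nat_lit 410) (nat_lit 2) (nat_lit 3) (nat_lit 6) (nat_lit 7) (nat_lit 44) (nat_lit 55) r4_44 r4_55 (nat_lit 0) (nat_lit 0) (nat_lit 0) (nat_lit 0x22e200b92) (nat_lit 221423156),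
  Rx.mk (nat_lit 470) (nat_lit 6) (nat_lit 2) (nat_lit 7) (nat_lit 7) (nat_lit 47) (nat_lit 52) r4_47 r4_52 (nat_lit 0) (nat_lit 0) (nat_lit 0) (nat_lit 0x210b4202a) (nat_lit 251546656),
  Rx.mk (nat_lit 500) (nat_lit 4) (nat_lit 6) (nat_lit 7) (nat_lit 6) (nat_lit 45) (nat_lit 50) r4_45 r4_50 (nat_lit 13129) (nat_lit 0) (nat_lit 0) (nat_lit 0x1fb3b6334) (nat_lit 273515835),
  Rx.mk (nat_lit 502) (nat_lit 6) (nat_lit 6) (nat_lit 7) (nat_lit 7) (nat_lit 46) (nat_lit 53) r4_46 r4_53 (nat_lit 0) (nat_lit 0) (nat_lit 0) (nat_lit 0x1f577a0f2) (nat_lit 279620056),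
  Rx.mk (nat_lit 503) (nat_lit 7) (nat_lit 6) (nat_lit 7) (nat_lit 7) (nat_lit 48) (nat_lit 51) r4_48 r4_51 (nat_lit 0) (nat_lit 0) (nat_lit 0) (nat_lit 0x224ae41f0) (nat_lit 231084156)]
noncomputable def e24_25 : List Rx := [
  Rx.mk (nat_lit 278) (nat_lit 6) (nat_lit 2) (nat_lit 4) (nat_lit 3) (nat_lit 100) (nat_lit 181) r4_100 r7_181 (nat_lit 0) (nat_lit 0) (nat_lit 5139472) (nat_lit 0x2059555ba) (nat_lit 268128028),
  Rx.mk (nat_lit 308) (nat_lit 4) (nat_lit 6) (nat_lit 4) (nat_lit 2) (nat_lit 98) (nat_lit 175) r4_98 r7_175 (nat_lit 14706363) (nat_lit 0) (nat_lit 2266560) (nat_lit 0x17dee144e) (nat_lit 423669329),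
  Rx.mk (nat_lit 310) (nat_lit 6) (nat_lit 6) (nat_lit 4) (nat_lit 3) (nat_lit 99) (nat_lit 178) r4_99 r7_178 (nat_lit 0) (nat_lit 0) (nat_lit 3138540) (nat_lit 0x1e48aaf0a) (nat_lit 300903146),
  Rx.mk (nat_lit 386) (nat_lit 2) (nat_lit 0) (nat_lit 6) (nat_lit 5) (nat_lit 102) (nat_lit 180) r4_102 r7_180 (nat_lit 0) (nat_lit 4579434) (nat_lit 0) (nat_lit 0x20687f63a) (nat_lit 266591390),
  Rx.mk (nat_lit 402) (nat_lit 2) (nat_lit 2) (nat_lit 6) (nat_lit 7) (nat_lit 103) (nat_lit 183) r4_103 r7_183 (nat_lit 0) (nat_lit 0) (nat_lit 0) (nat_lit 0x20056d4f2) (nat_lit 268435456),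
  Rx.mk (nat_lit 406) (nat_lit 6) (nat_lit 2) (nat_lit 6) (nat_lit 7) (nat_lit 101) (nat_lit 182) r4_101 r7_182 (nat_lit 0) (nat_lit 0) (nat_lit 0) (nat_lit 0x20056d4f2) (nat_lit 268435456),
  Rx.mk (nat_lit 500) (nat_lit 4) (nat_lit 6) (nat_lit 7) (nat_lit 6) (nat_lit 104) (nat_lit 176) r4_104 r7_176 (nat_lit 16012508) (nat_lit 0) (nat_lit 0) (nat_lit 0x1fe4a6b9c) (nat_lit 286568564),
  Rx.mk (nat_lit 502) (nat_lit 6) (nat_lit 6) (nat_lit 7) (nat_lit 7) (nat_lit 105) (nat_lit 179) r4_105 r7_179 (nat_lit 0) (nat_lit 0) (nat_lit 0) (nat_lit 0x216fc711c) (nat_lit 245117756),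
  Rx.mk (nat_lit 503) (nat_lit 7) (nat_lit 6) (nat_lit 7) (nat_lit 7) (nat_lit 106) (nat_lit 177) r4_106 r7_177 (nat_lit 0) (nat_lit 0) (nat_lit 0) (nat_lit 0x20056d4f2) (nat_lit 268435456)]
noncomputable def e24_26 : List Rx := [
  Rx.mk (nat_lit 386) (nat_lit 2) (nat_lit 0) (nat_lit 6) (nat_lit 5) (nat_lit 126) (nat_lit 146) r4_126 r8_146 (nat_lit 0) (nat_lit 6858864) (nat_lit 0) (nat_lit 0x2021fa62e) (nat_lit 273435420),
  Rx.mk (nat_lit 402) (nat_lit 2) (nat_lit 2) (nat_lit 6) (nat_lit 7) (nat_lit 127) (nat_lit 148) r4_127 r8_148 (nat_lit 0) (nat_lit 0) (nat_lit 0) (nat_lit 0x20056d4f2) (nat_lit 268435456),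
  Rx.mk (nat_lit 406) (nat_lit 6) (nat_lit 2) (nat_lit 6) (nat_lit 7) (nat_lit 125) (nat_lit 147) r4_125 r8_147 (nat_lit 0) (nat_lit 0) (nat_lit 0) (nat_lit 0x20056d4f2) (nat_lit 268435456)]
noncomputable def e24_27 : List Rx := [
  Rx.mk (nat_lit 278) (nat_lit 6) (nat_lit 2) (nat_lit 4) (nat_lit 3) (nat_lit 116) (nat_lit 48) r4_116 r8_48 (nat_lit 0) (nat_lit 0) (nat_lit 6335143) (nat_lit 0x203ee26e2) (nat_lit 271036899),
  Rx.mk (nat_lit 308) (nat_lit 4) (nat_lit 6) (nat_lit 4) (nat_lit 2) (nat_lit 114) (nat_lit 47) r4_114 r8_47 (nat_lit 11807297) (nat_lit 0) (nat_lit 6982043) (nat_lit 0x1b19f2d78) (nat_lit 370624546),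
  Rx.mk (nat_lit 310) (nat_lit 6) (nat_lit 6) (nat_lit 4) (nat_lit 3) (nat_lit 115) (nat_lit 49) r4_115 r8_49 (nat_lit 0) (nat_lit 0) (nat_lit 5122548) (nat_lit 0x20397ba82) (nat_lit 270168654),
  Rx.mk (nat_lit 342) (nat_lit 6) (nat_lit 2) (nat_lit 5) (nat_lit 7) (nat_lit 119) (nat_lit 51) r4_119 r8_51 (nat_lit 0) (nat_lit 0) (nat_lit 0) (nat_lit 0x2028cb836) (nat_lit 266134506),
  Rx.mk (nat_lit 372) (nat_lit 4) (nat_lit 6) (nat_lit 5) (nat_lit 6) (nat_lit 117) (nat_lit 50) r4_117 r8_50 (nat_lit 9484367) (nat_lit 0) (nat_lit 0) (nat_lit 0x20056d4f2) (nat_lit 277919823),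
  Rx.mk (nat_lit 374) (nat_lit 6) (nat_lit 6) (nat_lit 5) (nat_lit 7) (nat_lit 118) (nat_lit 52) r4_118 r8_52 (nat_lit 0) (nat_lit 0) (nat_lit 0) (nat_lit 0x205b17592) (nat_lit 262878656),
  Rx.mk (nat_lit 402) (nat_lit 2) (nat_lit 2) (nat_lit 6) (nat_lit 7) (nat_lit 121) (nat_lit 56) r4_121 r8_56 (nat_lit 0) (nat_lit 0) (nat_lit 0) (nat_lit 0x20056d4f2) (nat_lit 268435456),
  Rx.mk (nat_lit 406) (nat_lit 6) (nat_lit 2) (nat_lit 6) (nat_lit 7) (nat_lit 120) (nat_lit 57) r4_120 r8_57 (nat_lit 0) (nat_lit 0) (nat_lit 0) (nat_lit 0x20056d4f2) (nat_lit 268435456),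
  Rx.mk (nat_lit 500) (nat_lit 4) (nat_lit 6) (nat_lit 7) (nat_lit 6) (nat_lit 122) (nat_lit 53) r4_122 r8_53 (nat_lit 9484367) (nat_lit 0) (nat_lit 0) (nat_lit 0x20056d4f2) (nat_lit 277919823),
  Rx.mk (nat_lit 502) (nat_lit 6) (nat_lit 6) (nat_lit 7) (nat_lit 7) (nat_lit 123) (nat_lit 55) r4_123 r8_55 (nat_lit 0) (nat_lit 0) (nat_lit 0) (nat_lit 0x205b17592) (nat_lit 262878656),
  Rx.mk (nat_lit 503) (nat_lit 7) (nat_lit 6) (nat_lit 7) (nat_lit 7) (nat_lit 124) (nat_lit 54) r4_124 r8_54 (nat_lit 0) (nat_lit 0) (nat_lit 0) (nat_lit 0x20056d4f2) (nat_lit 268435456)]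
noncomputable def e24_28 : List Rx := [
  Rx.mk (nat_lit 278) (nat_lit 6) (nat_lit 2) (nat_lit 4) (nat_lit 3) (nat_lit 134) (nat_lit 132) r4_134 r10_132 (nat_lit 0) (nat_lit 0) (nat_lit 5631477) (nat_lit 0x20462ac74) (nat_lit 269859283),
  Rx.mk (nat_lit 386) (nat_lit 2) (nat_lit 0) (nat_lit 6) (nat_lit 5) (nat_lit 136) (nat_lit 130) r4_136 r10_130 (nat_lit 0) (nat_lit 4132596) (nat_lit 0) (nat_lit 0x208057c3a) (nat_lit 264608002),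
  Rx.mk (nat_lit 402) (nat_lit 2) (nat_lit 2) (nat_lit 6) (nat_lit 7) (nat_lit 137) (nat_lit 135) r4_137 r10_135 (nat_lit 0) (nat_lit 0) (nat_lit 0) (nat_lit 0x20056d4f2) (nat_lit 268435456),
  Rx.mk (nat_lit 406) (nat_lit 6) (nat_lit 2) (nat_lit 6) (nat_lit 7) (nat_lit 135) (nat_lit 134) r4_135 r10_134 (nat_lit 0) (nat_lit 0) (nat_lit 0) (nat_lit 0x20056d4f2) (nat_lit 268435456),
  Rx.mk (nat_lit 410) (nat_lit 2) (nat_lit 3) (nat_lit 6) (nat_lit 7) (nat_lit 138) (nat_lit 131) r4_138 r10_131 (nat_lit 0) (nat_lit 0) (nat_lit 0) (nat_lit 0x2035240c4) (nat_lit 265333156),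
  Rx.mk (nat_lit 470) (nat_lit 6) (nat_lit 2) (nat_lit 7) (nat_lit 7) (nat_lit 141) (nat_lit 133) r4_141 r10_133 (nat_lit 0) (nat_lit 0) (nat_lit 0) (nat_lit 0x203c0a05a) (nat_lit 264886856),
  Rx.mk (nat_lit 500) (nat_lit 4) (nat_lit 6) (nat_lit 7) (nat_lit 6) (nat_lit 139) (nat_lit 127) r4_139 r10_127 (nat_lit 11521502) (nat_lit 0) (nat_lit 0) (nat_lit 0x1fa406a1a) (nat_lit 286319758),
  Rx.mk (nat_lit 502) (nat_lit 6) (nat_lit 6) (nat_lit 7) (nat_lit 7) (nat_lit 140) (nat_lit 129) r4_140 r10_129 (nat_lit 0) (nat_lit 0) (nat_lit 0) (nat_lit 0x210872eee) (nat_lit 251737006),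
  Rx.mk (nat_lit 503) (nat_lit 7) (nat_lit 6) (nat_lit 7) (nat_lit 7) (nat_lit 142) (nat_lit 128) r4_142 r10_128 (nat_lit 0) (nat_lit 0) (nat_lit 0) (nat_lit 0x20056d4f2) (nat_lit 268435456)]
noncomputable def e24_29 : List Rx := [
  Rx.mk (nat_lit 59) (nat_lit 3) (nat_lit 7) (nat_lit 0) (nat_lit 3) (nat_lit 209) (nat_lit 129) r4_209 r11_129 (nat_lit 0) (nat_lit 0) (nat_lit 5013153) (nat_lit 0x1fa0b627a) (nat_lit 280027459),
  Rx.mk (nat_lit 63) (nat_lit 7) (nat_lit 7) (nat_lit 0) (nat_lit 3) (nat_lit 208) (nat_lit 127) r4_208 r11_127 (nat_lit 0) (nat_lit 0) (nat_lit 3708070) (nat_lit 0x1fd44c490) (nat_lit 275326226),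
  Rx.mk (nat_lit 155) (nat_lit 3) (nat_lit 3) (nat_lit 2) (nat_lit 7) (nat_lit 211) (nat_lit 135) r4_211 r11_135 (nat_lit 0) (nat_lit 0) (nat_lit 0) (nat_lit 0x1fe6f86c0) (nat_lit 270325756),
  Rx.mk (nat_lit 187) (nat_lit 3) (nat_lit 7) (nat_lit 2) (nat_lit 7) (nat_lit 210) (nat_lit 130) r4_210 r11_130 (nat_lit 0) (nat_lit 0) (nat_lit 0) (nat_lit 0x21ab9bc6a) (nat_lit 241280906),
  Rx.mk (nat_lit 228) (nat_lit 4) (nat_lit 4) (nat_lit 3) (nat_lit 4) (nat_lit 212) (nat_lit 125) r4_212 r11_125 (nat_lit 114069) (nat_lit 93913) (nat_lit 0) (nat_lit 0x18dc77932) (nat_lit 389952488),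
  Rx.mk (nat_lit 231) (nat_lit 7) (nat_lit 4) (nat_lit 3) (nat_lit 5) (nat_lit 214) (nat_lit 126) r4_214 r11_126 (nat_lit 0) (nat_lit 2594122) (nat_lit 0) (nat_lit 0x20b7f3572) (nat_lit 259482328),
  Rx.mk (nat_lit 244) (nat_lit 4) (nat_lit 6) (nat_lit 3) (nat_lit 6) (nat_lit 213) (nat_lit 132) r4_213 r11_132 (nat_lit 4563667) (nat_lit 0) (nat_lit 0) (nat_lit 0x207ee5dde) (nat_lit 265122373),
  Rx.mk (nat_lit 247) (nat_lit 7) (nat_lit 6) (nat_lit 3) (nat_lit 7) (nat_lit 215) (nat_lit 133) r4_215 r11_133 (nat_lit 0) (nat_lit 0) (nat_lit 0) (nat_lit 0x209d63fb8) (nat_lit 258607956),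
  Rx.mk (nat_lit 255) (nat_lit 7) (nat_lit 7) (nat_lit 3) (nat_lit 7) (nat_lit 216) (nat_lit 128) r4_216 r11_128 (nat_lit 0) (nat_lit 0) (nat_lit 0) (nat_lit 0x208711c24) (nat_lit 260045256),
  Rx.mk (nat_lit 470) (nat_lit 6) (nat_lit 2) (nat_lit 7) (nat_lit 7) (nat_lit 207) (nat_lit 136) r4_207 r11_136 (nat_lit 0) (nat_lit 0) (nat_lit 0) (nat_lit 0x237f3a0e8) (nat_lit 211371706),
  Rx.mk (nat_lit 500) (nat_lit 4) (nat_lit 6) (nat_lit 7) (nat_lit 6) (nat_lit 205) (nat_lit 131) r4_205 r11_131 (nat_lit 28210373) (nat_lit 0) (nat_lit 0) (nat_lit 0x1fddc38de) (nat_lit 299171679),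
  Rx.mk (nat_lit 502) (nat_lit 6) (nat_lit 6) (nat_lit 7) (nat_lit 7) (nat_lit 206) (nat_lit 134) r4_206 r11_134 (nat_lit 0) (nat_lit 0) (nat_lit 0) (nat_lit 0x1ec93f3dc) (nat_lit 289207506)]
noncomputable def e24_30 : List Rx := [
  Rx.mk (nat_lit 39) (nat_lit 7) (nat_lit 4) (nat_lit 0) (nat_lit 1) (nat_lit 343) (nat_lit 297) r4_343 r5_297 (nat_lit 0) (nat_lit 1630600) (nat_lit 2829909) (nat_lit 0x1f1f7fb3e) (nat_lit 287983015),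
  Rx.mk (nat_lit 47) (nat_lit 7) (nat_lit 5) (nat_lit 0) (nat_lit 3) (nat_lit 344) (nat_lit 298) r4_344 r5_298 (nat_lit 0) (nat_lit 0) (nat_lit 5067943) (nat_lit 0x208029ee8) (nat_lit 265551549),
  Rx.mk (nat_lit 55) (nat_lit 7) (nat_lit 6) (nat_lit 0) (nat_lit 3) (nat_lit 345) (nat_lit 299) r4_345 r5_299 (nat_lit 0) (nat_lit 0) (nat_lit 5455800) (nat_lit 0x205d92fb0) (nat_lit 268173056),
  Rx.mk (nat_lit 103) (nat_lit 7) (nat_lit 4) (nat_lit 1) (nat_lit 5) (nat_lit 346) (nat_lit 300) r4_346 r5_300 (nat_lit 0) (nat_lit 1488829) (nat_lit 0) (nat_lit 0x2343fab2c) (nat_lit 216631535),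
  Rx.mk (nat_lit 111) (nat_lit 7) (nat_lit 5) (nat_lit 1) (nat_lit 7) (nat_lit 347) (nat_lit 301) r4_347 r5_301 (nat_lit 0) (nat_lit 0) (nat_lit 0) (nat_lit 0x23ee27712) (nat_lit 204275256),
  Rx.mk (nat_lit 119) (nat_lit 7) (nat_lit 6) (nat_lit 1) (nat_lit 7) (nat_lit 348) (nat_lit 302) r4_348 r5_302 (nat_lit 0) (nat_lit 0) (nat_lit 0) (nat_lit 0x20e0a1280) (nat_lit 254288556)]
noncomputable def e24_31 : List Rx := [
  Rx.mk (nat_lit 103) (nat_lit 7) (nat_lit 4) (nat_lit 1) (nat_lit 5) (nat_lit 363) (nat_lit 353) r4_363 r11_353 (nat_lit 0) (nat_lit 6585305) (nat_lit 0) (nat_lit 0x1ff9fa1ba) (nat_lit 275752861),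
  Rx.mk (nat_lit 111) (nat_lit 7) (nat_lit 5) (nat_lit 1) (nat_lit 7) (nat_lit 364) (nat_lit 354) r4_364 r11_354 (nat_lit 0) (nat_lit 0) (nat_lit 0) (nat_lit 0x20397dc42) (nat_lit 265051356),
  Rx.mk (nat_lit 119) (nat_lit 7) (nat_lit 6) (nat_lit 1) (nat_lit 7) (nat_lit 365) (nat_lit 355) r4_365 r11_355 (nat_lit 0) (nat_lit 0) (nat_lit 0) (nat_lit 0x201abfb48) (nat_lit 267040156)]
noncomputable def e24_32 : List Rx := [
  Rx.mk (nat_lit 35) (nat_lit 3) (nat_lit 4) (nat_lit 0) (nat_lit 1) (nat_lit 78) (nat_lit 62) r4_78 r6_62 (nat_lit 0) (nat_lit 246644) (nat_lit 310005) (nat_lit 0x1afb61f3a) (nat_lit 354301405),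
  Rx.mk (nat_lit 43) (nat_lit 3) (nat_lit 5) (nat_lit 0) (nat_lit 3) (nat_lit 79) (nat_lit 63) r4_79 r6_63 (nat_lit 0) (nat_lit 0) (nat_lit 4160886) (nat_lit 0x201f7800e) (nat_lit 270874342),
  Rx.mk (nat_lit 59) (nat_lit 3) (nat_lit 7) (nat_lit 0) (nat_lit 3) (nat_lit 80) (nat_lit 64) r4_80 r6_64 (nat_lit 0) (nat_lit 0) (nat_lit 5004731) (nat_lit 0x1f3bedf5a) (nat_lit 286662037),
  Rx.mk (nat_lit 163) (nat_lit 3) (nat_lit 4) (nat_lit 2) (nat_lit 5) (nat_lit 81) (nat_lit 67) r4_81 r6_67 (nat_lit 0) (nat_lit 16916) (nat_lit 0) (nat_lit 0x17f6c791e) (nat_lit 404986672),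
  Rx.mk (nat_lit 171) (nat_lit 3) (nat_lit 5) (nat_lit 2) (nat_lit 7) (nat_lit 82) (nat_lit 68) r4_82 r6_68 (nat_lit 0) (nat_lit 0) (nat_lit 0) (nat_lit 0x202553b36) (nat_lit 266272206),
  Rx.mk (nat_lit 187) (nat_lit 3) (nat_lit 7) (nat_lit 2) (nat_lit 7) (nat_lit 83) (nat_lit 69) r4_83 r6_69 (nat_lit 0) (nat_lit 0) (nat_lit 0) (nat_lit 0x1fe3f67c4) (nat_lit 270531556),
  Rx.mk (nat_lit 227) (nat_lit 3) (nat_lit 4) (nat_lit 3) (nat_lit 5) (nat_lit 87) (nat_lit 65) r4_87 r6_65 (nat_lit 0) (nat_lit 2749214) (nat_lit 0) (nat_lit 0x202479fe4) (nat_lit 269130370),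
  Rx.mk (nat_lit 231) (nat_lit 7) (nat_lit 4) (nat_lit 3) (nat_lit 5) (nat_lit 84) (nat_lit 59) r4_84 r6_59 (nat_lit 0) (nat_lit 1058406) (nat_lit 0) (nat_lit 0x2050f1acc) (nat_lit 264518012),
  Rx.mk (nat_lit 235) (nat_lit 3) (nat_lit 5) (nat_lit 3) (nat_lit 7) (nat_lit 88) (nat_lit 66) r4_88 r6_66 (nat_lit 0) (nat_lit 0) (nat_lit 0) (nat_lit 0x204b40c90) (nat_lit 263901806),
  Rx.mk (nat_lit 239) (nat_lit 7) (nat_lit 5) (nat_lit 3) (nat_lit 7) (nat_lit 85) (nat_lit 60) r4_85 r6_60 (nat_lit 0) (nat_lit 0) (nat_lit 0) (nat_lit 0x20e69a664) (nat_lit 253903856),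
  Rx.mk (nat_lit 247) (nat_lit 7) (nat_lit 6) (nat_lit 3) (nat_lit 7) (nat_lit 86) (nat_lit 61) r4_86 r6_61 (nat_lit 0) (nat_lit 0) (nat_lit 0) (nat_lit 0x21165d0ae) (nat_lit 250844706)]
noncomputable def e24_33 : List Rx := [
  Rx.mk (nat_lit 59) (nat_lit 3) (nat_lit 7) (nat_lit 0) (nat_lit 3) (nat_lit 59) (nat_lit 27) r4_59 r5_27 (nat_lit 0) (nat_lit 0) (nat_lit 1604258) (nat_lit 0x204f6230a) (nat_lit 265174264),
  Rx.mk (nat_lit 187) (nat_lit 3) (nat_lit 7) (nat_lit 2) (nat_lit 7) (nat_lit 60) (nat_lit 32) r4_60 r5_32 (nat_lit 0) (nat_lit 0) (nat_lit 0) (nat_lit 0x21c130f12) (nat_lit 239832756),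
  Rx.mk (nat_lit 227) (nat_lit 3) (nat_lit 4) (nat_lit 3) (nat_lit 5) (nat_lit 63) (nat_lit 28) r4_63 r5_28 (nat_lit 0) (nat_lit 1531150) (nat_lit 0) (nat_lit 0x205a66e5e) (nat_lit 264400706),
  Rx.mk (nat_lit 231) (nat_lit 7) (nat_lit 4) (nat_lit 3) (nat_lit 5) (nat_lit 61) (nat_lit 30) r4_61 r5_30 (nat_lit 0) (nat_lit 778696) (nat_lit 0) (nat_lit 0x1fccaaaa2) (nat_lit 272787352),
  Rx.mk (nat_lit 247) (nat_lit 7) (nat_lit 6) (nat_lit 3) (nat_lit 7) (nat_lit 62) (nat_lit 31) r4_62 r5_31 (nat_lit 0) (nat_lit 0) (nat_lit 0) (nat_lit 0x2245df4b6) (nat_lit 231408706),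
  Rx.mk (nat_lit 251) (nat_lit 3) (nat_lit 7) (nat_lit 3) (nat_lit 7) (nat_lit 64) (nat_lit 29) r4_64 r5_29 (nat_lit 0) (nat_lit 0) (nat_lit 0) (nat_lit 0x204c994ac) (nat_lit 263809306),
  Rx.mk (nat_lit 503) (nat_lit 7) (nat_lit 6) (nat_lit 7) (nat_lit 7) (nat_lit 58) (nat_lit 33) r4_58 r5_33 (nat_lit 0) (nat_lit 0) (nat_lit 0) (nat_lit 0x20a42a0e0) (nat_lit 258152756)]
noncomputable def e24_34 : List Rx := [
  Rx.mk (nat_lit 503) (nat_lit 7) (nat_lit 6) (nat_lit 7) (nat_lit 7) (nat_lit 143) (nat_lit 8) r4_143 r11_8 (nat_lit 0) (nat_lit 0) (nat_lit 0) (nat_lit 0x20056d4f2) (nat_lit 268435456)]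
noncomputable def e24_35 : List Rx := [
  Rx.mk (nat_lit 35) (nat_lit 3) (nat_lit 4) (nat_lit 0) (nat_lit 1) (nat_lit 220) (nat_lit 337) r4_220 r6_337 (nat_lit 0) (nat_lit 384025) (nat_lit 1121068) (nat_lit 0x1a18ab894) (nat_lit 370307349),
  Rx.mk (nat_lit 39) (nat_lit 7) (nat_lit 4) (nat_lit 0) (nat_lit 1) (nat_lit 217) (nat_lit 338) r4_217 r6_338 (nat_lit 0) (nat_lit 18508) (nat_lit 28090) (nat_lit 0x1e28033f6) (nat_lit 299811704),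
  Rx.mk (nat_lit 43) (nat_lit 3) (nat_lit 5) (nat_lit 0) (nat_lit 3) (nat_lit 221) (nat_lit 340) r4_221 r6_340 (nat_lit 0) (nat_lit 0) (nat_lit 3912689) (nat_lit 0x1f5e74c54) (nat_lit 283278695),
  Rx.mk (nat_lit 47) (nat_lit 7) (nat_lit 5) (nat_lit 0) (nat_lit 3) (nat_lit 218) (nat_lit 341) r4_218 r6_341 (nat_lit 0) (nat_lit 0) (nat_lit 3084591) (nat_lit 0x21032fca2) (nat_lit 255139297),
  Rx.mk (nat_lit 55) (nat_lit 7) (nat_lit 6) (nat_lit 0) (nat_lit 3) (nat_lit 219) (nat_lit 343) r4_219 r6_343 (nat_lit 0) (nat_lit 0) (nat_lit 4146434) (nat_lit 0x20bd74802) (nat_lit 260693490),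
  Rx.mk (nat_lit 163) (nat_lit 3) (nat_lit 4) (nat_lit 2) (nat_lit 5) (nat_lit 222) (nat_lit 339) r4_222 r6_339 (nat_lit 0) (nat_lit 10089) (nat_lit 0) (nat_lit 0x13f2068c0) (nat_lit 473251195),
  Rx.mk (nat_lit 171) (nat_lit 3) (nat_lit 5) (nat_lit 2) (nat_lit 7) (nat_lit 223) (nat_lit 342) r4_223 r6_342 (nat_lit 0) (nat_lit 0) (nat_lit 0) (nat_lit 0x1f2a07d68) (nat_lit 282759256)]
noncomputable def e24_36 : List Rx := [
  Rx.mk (nat_lit 35) (nat_lit 3) (nat_lit 4) (nat_lit 0) (nat_lit 1) (nat_lit 244) (nat_lit 179) r4_244 r12_179 (nat_lit 0) (nat_lit 62716) (nat_lit 194160) (nat_lit 0x198b63dd8) (nat_lit 378385932),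
  Rx.mk (nat_lit 39) (nat_lit 7) (nat_lit 4) (nat_lit 0) (nat_lit 1) (nat_lit 241) (nat_lit 185) r4_241 r12_185 (nat_lit 0) (nat_lit 3283) (nat_lit 5043) (nat_lit 0x1dea70778) (nat_lit 303854932),
  Rx.mk (nat_lit 43) (nat_lit 3) (nat_lit 5) (nat_lit 0) (nat_lit 3) (nat_lit 245) (nat_lit 181) r4_245 r12_181 (nat_lit 0) (nat_lit 0) (nat_lit 4817469) (nat_lit 0x1f2a53646) (nat_lit 287629275),
  Rx.mk (nat_lit 47) (nat_lit 7) (nat_lit 5) (nat_lit 0) (nat_lit 3) (nat_lit 242) (nat_lit 187) r4_242 r12_187 (nat_lit 0) (nat_lit 0) (nat_lit 2194767) (nat_lit 0x1fb06fb30) (nat_lit 276138523),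
  Rx.mk (nat_lit 55) (nat_lit 7) (nat_lit 6) (nat_lit 0) (nat_lit 3) (nat_lit 243) (nat_lit 189) r4_243 r12_189 (nat_lit 0) (nat_lit 0) (nat_lit 3905508) (nat_lit 0x20df7f3b6) (nat_lit 258267614),
  Rx.mk (nat_lit 59) (nat_lit 3) (nat_lit 7) (nat_lit 0) (nat_lit 3) (nat_lit 246) (nat_lit 183) r4_246 r12_183 (nat_lit 0) (nat_lit 0) (nat_lit 5737185) (nat_lit 0x1c7d5f0f4) (nat_lit 333970541),
  Rx.mk (nat_lit 163) (nat_lit 3) (nat_lit 4) (nat_lit 2) (nat_lit 5) (nat_lit 247) (nat_lit 180) r4_247 r12_180 (nat_lit 0) (nat_lit 9060) (nat_lit 0) (nat_lit 0x162942440) (nat_lit 435605266),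
  Rx.mk (nat_lit 171) (nat_lit 3) (nat_lit 5) (nat_lit 2) (nat_lit 7) (nat_lit 248) (nat_lit 182) r4_248 r12_182 (nat_lit 0) (nat_lit 0) (nat_lit 0) (nat_lit 0x1f200efe6) (nat_lit 283403706),
  Rx.mk (nat_lit 187) (nat_lit 3) (nat_lit 7) (nat_lit 2) (nat_lit 7) (nat_lit 249) (nat_lit 184) r4_249 r12_184 (nat_lit 0) (nat_lit 0) (nat_lit 0) (nat_lit 0x1dddf4940) (nat_lit 304761206),
  Rx.mk (nat_lit 231) (nat_lit 7) (nat_lit 4) (nat_lit 3) (nat_lit 5) (nat_lit 250) (nat_lit 186) r4_250 r12_186 (nat_lit 0) (nat_lit 914600) (nat_lit 0) (nat_lit 0x212e92d2c) (nat_lit 250143256),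
  Rx.mk (nat_lit 239) (nat_lit 7) (nat_lit 5) (nat_lit 3) (nat_lit 7) (nat_lit 251) (nat_lit 188) r4_251 r12_188 (nat_lit 0) (nat_lit 0) (nat_lit 0) (nat_lit 0x215f2f534) (nat_lit 246173406),
  Rx.mk (nat_lit 247) (nat_lit 7) (nat_lit 6) (nat_lit 3) (nat_lit 7) (nat_lit 252) (nat_lit 190) r4_252 r12_190 (nat_lit 0) (nat_lit 0) (nat_lit 0) (nat_lit 0x2184180d0) (nat_lit 243814506)]
noncomputable def e24_37 : List Rx := [
  Rx.mk (nat_lit 136) (nat_lit 0) (nat_lit 1) (nat_lit 2) (nat_lit 6) (nat_lit 69) (nat_lit 80) r4_69 r0_80 (nat_lit 3349434) (nat_lit 0) (nat_lit 0) (nat_lit 0x1f4641506) (nat_lit 284310440),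
  Rx.mk (nat_lit 139) (nat_lit 3) (nat_lit 1) (nat_lit 2) (nat_lit 7) (nat_lit 70) (nat_lit 81) r4_70 r0_81 (nat_lit 0) (nat_lit 0) (nat_lit 0) (nat_lit 0x1ea79a466) (nat_lit 291417306),
  Rx.mk (nat_lit 168) (nat_lit 0) (nat_lit 5) (nat_lit 2) (nat_lit 6) (nat_lit 68) (nat_lit 79) r4_68 r0_79 (nat_lit 1637705) (nat_lit 0) (nat_lit 0) (nat_lit 0x17ef1a0fe) (nat_lit 407217261)]
noncomputable def e24_38 : List Rx := [
  Rx.mk (nat_lit 40) (nat_lit 0) (nat_lit 5) (nat_lit 0) (nat_lit 2) (nat_lit 155) (nat_lit 318) r4_155 r0_318 (nat_lit 682361) (nat_lit 0) (nat_lit 45897877) (nat_lit 0x1ac82f784) (nat_lit 403756194),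
  Rx.mk (nat_lit 41) (nat_lit 1) (nat_lit 5) (nat_lit 0) (nat_lit 3) (nat_lit 156) (nat_lit 319) r4_156 r0_319 (nat_lit 0) (nat_lit 0) (nat_lit 7646795) (nat_lit 0x1fdee8e30) (nat_lit 278562101),
  Rx.mk (nat_lit 168) (nat_lit 0) (nat_lit 5) (nat_lit 2) (nat_lit 6) (nat_lit 157) (nat_lit 320) r4_157 r0_320 (nat_lit 3950502) (nat_lit 0) (nat_lit 0) (nat_lit 0x1d80f113a) (nat_lit 314972808),
  Rx.mk (nat_lit 169) (nat_lit 1) (nat_lit 5) (nat_lit 2) (nat_lit 7) (nat_lit 158) (nat_lit 321) r4_158 r0_321 (nat_lit 0) (nat_lit 0) (nat_lit 0) (nat_lit 0x20aa8325c) (nat_lit 257764206)]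
noncomputable def e24_39 : List Rx := [
  Rx.mk (nat_lit 40) (nat_lit 0) (nat_lit 5) (nat_lit 0) (nat_lit 2) (nat_lit 167) (nat_lit 71) r4_167 r7_71 (nat_lit 3498461) (nat_lit 0) (nat_lit 9573033) (nat_lit 0x17c42fa88) (nat_lit 421543700),
  Rx.mk (nat_lit 41) (nat_lit 1) (nat_lit 5) (nat_lit 0) (nat_lit 3) (nat_lit 168) (nat_lit 74) r4_168 r7_74 (nat_lit 0) (nat_lit 0) (nat_lit 8007799) (nat_lit 0x1fe9cda3a) (nat_lit 278231055),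
  Rx.mk (nat_lit 136) (nat_lit 0) (nat_lit 1) (nat_lit 2) (nat_lit 6) (nat_lit 170) (nat_lit 73) r4_170 r7_73 (nat_lit 4626214) (nat_lit 0) (nat_lit 0) (nat_lit 0x207ca1424) (nat_lit 265335720),
  Rx.mk (nat_lit 137) (nat_lit 1) (nat_lit 1) (nat_lit 2) (nat_lit 7) (nat_lit 172) (nat_lit 76) r4_172 r7_76 (nat_lit 0) (nat_lit 0) (nat_lit 0) (nat_lit 0x206f820c2) (nat_lit 261563506),
  Rx.mk (nat_lit 139) (nat_lit 3) (nat_lit 1) (nat_lit 2) (nat_lit 7) (nat_lit 173) (nat_lit 77) r4_173 r7_77 (nat_lit 0) (nat_lit 0) (nat_lit 0) (nat_lit 0x206f820c2) (nat_lit 261563506),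
  Rx.mk (nat_lit 168) (nat_lit 0) (nat_lit 5) (nat_lit 2) (nat_lit 6) (nat_lit 169) (nat_lit 72) r4_169 r7_72 (nat_lit 2514868) (nat_lit 0) (nat_lit 0) (nat_lit 0x1db219e9c) (nat_lit 310255074),
  Rx.mk (nat_lit 169) (nat_lit 1) (nat_lit 5) (nat_lit 2) (nat_lit 7) (nat_lit 171) (nat_lit 75) r4_171 r7_75 (nat_lit 0) (nat_lit 0) (nat_lit 0) (nat_lit 0x21766457e) (nat_lit 244694406)]
noncomputable def e24_40 : List Rx := [
  Rx.mk (nat_lit 41) (nat_lit 1) (nat_lit 5) (nat_lit 0) (nat_lit 3) (nat_lit 300) (nat_lit 349) r4_300 r2_349 (nat_lit 0) (nat_lit 0) (nat_lit 9484367) (nat_lit 0x1ffb19802) (nat_lit 278589723),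
  Rx.mk (nat_lit 45) (nat_lit 5) (nat_lit 5) (nat_lit 0) (nat_lit 3) (nat_lit 299) (nat_lit 350) r4_299 r2_350 (nat_lit 0) (nat_lit 0) (nat_lit 20123259) (nat_lit 0x1f226cc5c) (nat_lit 303492615),
  Rx.mk (nat_lit 105) (nat_lit 1) (nat_lit 5) (nat_lit 1) (nat_lit 7) (nat_lit 302) (nat_lit 351) r4_302 r2_351 (nat_lit 0) (nat_lit 0) (nat_lit 0) (nat_lit 0x20056d4f2) (nat_lit 268435456),
  Rx.mk (nat_lit 109) (nat_lit 5) (nat_lit 5) (nat_lit 1) (nat_lit 7) (nat_lit 301) (nat_lit 352) r4_301 r2_352 (nat_lit 0) (nat_lit 0) (nat_lit 0) (nat_lit 0x20056d4f2) (nat_lit 268435456),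
  Rx.mk (nat_lit 169) (nat_lit 1) (nat_lit 5) (nat_lit 2) (nat_lit 7) (nat_lit 303) (nat_lit 353) r4_303 r2_353 (nat_lit 0) (nat_lit 0) (nat_lit 0) (nat_lit 0x20056d4f2) (nat_lit 268435456)]
noncomputable def e24_41 : List Rx := [
  Rx.mk (nat_lit 41) (nat_lit 1) (nat_lit 5) (nat_lit 0) (nat_lit 3) (nat_lit 310) (nat_lit 312) r4_310 r9_312 (nat_lit 0) (nat_lit 0) (nat_lit 12402929) (nat_lit 0x1fa0379e8) (nat_lit 287453885),
  Rx.mk (nat_lit 45) (nat_lit 5) (nat_lit 5) (nat_lit 0) (nat_lit 3) (nat_lit 309) (nat_lit 313) r4_309 r9_313 (nat_lit 0) (nat_lit 0) (nat_lit 18508221) (nat_lit 0x1ef01d652) (nat_lit 305203127),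
  Rx.mk (nat_lit 105) (nat_lit 1) (nat_lit 5) (nat_lit 1) (nat_lit 7) (nat_lit 312) (nat_lit 314) r4_312 r9_314 (nat_lit 0) (nat_lit 0) (nat_lit 0) (nat_lit 0x20056d4f2) (nat_lit 268435456),
  Rx.mk (nat_lit 109) (nat_lit 5) (nat_lit 5) (nat_lit 1) (nat_lit 7) (nat_lit 311) (nat_lit 315) r4_311 r9_315 (nat_lit 0) (nat_lit 0) (nat_lit 0) (nat_lit 0x20056d4f2) (nat_lit 268435456),
  Rx.mk (nat_lit 137) (nat_lit 1) (nat_lit 1) (nat_lit 2) (nat_lit 7) (nat_lit 314) (nat_lit 311) r4_314 r9_311 (nat_lit 0) (nat_lit 0) (nat_lit 0) (nat_lit 0x20056d4f2) (nat_lit 268435456),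
  Rx.mk (nat_lit 169) (nat_lit 1) (nat_lit 5) (nat_lit 2) (nat_lit 7) (nat_lit 313) (nat_lit 316) r4_313 r9_316 (nat_lit 0) (nat_lit 0) (nat_lit 0) (nat_lit 0x20056d4f2) (nat_lit 268435456)]
noncomputable def e24_42 : List Rx := [
  Rx.mk (nat_lit 105) (nat_lit 1) (nat_lit 5) (nat_lit 1) (nat_lit 7) (nat_lit 308) (nat_lit 306) r4_308 r9_306 (nat_lit 0) (nat_lit 0) (nat_lit 0) (nat_lit 0x20056d4f2) (nat_lit 268435456),
  Rx.mk (nat_lit 109) (nat_lit 5) (nat_lit 5) (nat_lit 1) (nat_lit 7) (nat_lit 307) (nat_lit 305) r4_307 r9_305 (nat_lit 0) (nat_lit 0) (nat_lit 0) (nat_lit 0x20056d4f2) (nat_lit 268435456)]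
noncomputable def e24_43 : List Rx := [
  Rx.mk (nat_lit 41) (nat_lit 1) (nat_lit 5) (nat_lit 0) (nat_lit 3) (nat_lit 159) (nat_lit 305) r4_159 r1_305 (nat_lit 0) (nat_lit 0) (nat_lit 11745164) (nat_lit 0x1ff78dda0) (nat_lit 281068370),
  Rx.mk (nat_lit 169) (nat_lit 1) (nat_lit 5) (nat_lit 2) (nat_lit 7) (nat_lit 160) (nat_lit 306) r4_160 r1_306 (nat_lit 0) (nat_lit 0) (nat_lit 0) (nat_lit 0x20783377a) (nat_lit 260999956)]
noncomputable def e24_44 : List Rx := [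
  Rx.mk (nat_lit 41) (nat_lit 1) (nat_lit 5) (nat_lit 0) (nat_lit 3) (nat_lit 174) (nat_lit 68) r4_174 r8_68 (nat_lit 0) (nat_lit 0) (nat_lit 6572672) (nat_lit 0x2024e9254) (nat_lit 272956678),
  Rx.mk (nat_lit 137) (nat_lit 1) (nat_lit 1) (nat_lit 2) (nat_lit 7) (nat_lit 176) (nat_lit 70) r4_176 r8_70 (nat_lit 0) (nat_lit 0) (nat_lit 0) (nat_lit 0x20056d4f2) (nat_lit 268435456),
  Rx.mk (nat_lit 169) (nat_lit 1) (nat_lit 5) (nat_lit 2) (nat_lit 7) (nat_lit 175) (nat_lit 69) r4_175 r8_69 (nat_lit 0) (nat_lit 0) (nat_lit 0) (nat_lit 0x205d0a160) (nat_lit 262752906)]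
noncomputable def e24_45 : List Rx := [
  Rx.mk (nat_lit 136) (nat_lit 0) (nat_lit 1) (nat_lit 2) (nat_lit 6) (nat_lit 71) (nat_lit 85) r4_71 r1_85 (nat_lit 5269494) (nat_lit 0) (nat_lit 0) (nat_lit 0x203b3f5f8) (nat_lit 270196450),
  Rx.mk (nat_lit 138) (nat_lit 2) (nat_lit 1) (nat_lit 2) (nat_lit 7) (nat_lit 72) (nat_lit 87) r4_72 r1_87 (nat_lit 0) (nat_lit 0) (nat_lit 0) (nat_lit 0x20bb0eed2) (nat_lit 256701006),
  Rx.mk (nat_lit 139) (nat_lit 3) (nat_lit 1) (nat_lit 2) (nat_lit 7) (nat_lit 73) (nat_lit 86) r4_73 r1_86 (nat_lit 0) (nat_lit 0) (nat_lit 0) (nat_lit 0x2171ac400) (nat_lit 244980606)]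
noncomputable def e24_46 : List Rx := [
  Rx.mk (nat_lit 128) (nat_lit 0) (nat_lit 0) (nat_lit 2) (nat_lit 4) (nat_lit 24) (nat_lit 84) r4_24 r2_84 (nat_lit 5694526) (nat_lit 2600229) (nat_lit 0) (nat_lit 0x1c5a2375c) (nat_lit 338859561),
  Rx.mk (nat_lit 130) (nat_lit 2) (nat_lit 0) (nat_lit 2) (nat_lit 5) (nat_lit 26) (nat_lit 92) r4_26 r2_92 (nat_lit 0) (nat_lit 4694297) (nat_lit 0) (nat_lit 0x20923b212) (nat_lit 264022053),
  Rx.mk (nat_lit 131) (nat_lit 3) (nat_lit 0) (nat_lit 2) (nat_lit 5) (nat_lit 28) (nat_lit 86) r4_28 r2_86 (nat_lit 0) (nat_lit 1053683) (nat_lit 0) (nat_lit 0x1f8ecabd8) (nat_lit 277184439),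
  Rx.mk (nat_lit 136) (nat_lit 0) (nat_lit 1) (nat_lit 2) (nat_lit 6) (nat_lit 25) (nat_lit 85) r4_25 r2_85 (nat_lit 9484367) (nat_lit 0) (nat_lit 0) (nat_lit 0x204074712) (nat_lit 274085323),
  Rx.mk (nat_lit 138) (nat_lit 2) (nat_lit 1) (nat_lit 2) (nat_lit 7) (nat_lit 27) (nat_lit 93) r4_27 r2_93 (nat_lit 0) (nat_lit 0) (nat_lit 0) (nat_lit 0x20056d4f2) (nat_lit 268435456),
  Rx.mk (nat_lit 139) (nat_lit 3) (nat_lit 1) (nat_lit 2) (nat_lit 7) (nat_lit 29) (nat_lit 87) r4_29 r2_87 (nat_lit 0) (nat_lit 0) (nat_lit 0) (nat_lit 0x22d7cf9de) (nat_lit 222080006),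
  Rx.mk (nat_lit 155) (nat_lit 3) (nat_lit 3) (nat_lit 2) (nat_lit 7) (nat_lit 30) (nat_lit 88) r4_30 r2_88 (nat_lit 0) (nat_lit 0) (nat_lit 0) (nat_lit 0x22c726c72) (nat_lit 223145856),
  Rx.mk (nat_lit 386) (nat_lit 2) (nat_lit 0) (nat_lit 6) (nat_lit 5) (nat_lit 21) (nat_lit 89) r4_21 r2_89 (nat_lit 0) (nat_lit 5443682) (nat_lit 0) (nat_lit 0x2062342a8) (nat_lit 267864038),
  Rx.mk (nat_lit 394) (nat_lit 2) (nat_lit 1) (nat_lit 6) (nat_lit 7) (nat_lit 22) (nat_lit 90) r4_22 r2_90 (nat_lit 0) (nat_lit 0) (nat_lit 0) (nat_lit 0x20056d4f2) (nat_lit 268435456),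
  Rx.mk (nat_lit 402) (nat_lit 2) (nat_lit 2) (nat_lit 6) (nat_lit 7) (nat_lit 23) (nat_lit 91) r4_23 r2_91 (nat_lit 0) (nat_lit 0) (nat_lit 0) (nat_lit 0x20056d4f2) (nat_lit 268435456)]
noncomputable def e24_47 : List Rx := [
  Rx.mk (nat_lit 136) (nat_lit 0) (nat_lit 1) (nat_lit 2) (nat_lit 6) (nat_lit 177) (nat_lit 351) r4_177 r8_351 (nat_lit 7402043) (nat_lit 0) (nat_lit 0) (nat_lit 0x20243408e) (nat_lit 273833849),
  Rx.mk (nat_lit 137) (nat_lit 1) (nat_lit 1) (nat_lit 2) (nat_lit 7) (nat_lit 178) (nat_lit 352) r4_178 r8_352 (nat_lit 0) (nat_lit 0) (nat_lit 0) (nat_lit 0x2018af5f6) (nat_lit 267182206),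
  Rx.mk (nat_lit 138) (nat_lit 2) (nat_lit 1) (nat_lit 2) (nat_lit 7) (nat_lit 179) (nat_lit 354) r4_179 r8_354 (nat_lit 0) (nat_lit 0) (nat_lit 0) (nat_lit 0x20056d4f2) (nat_lit 268435456),
  Rx.mk (nat_lit 139) (nat_lit 3) (nat_lit 1) (nat_lit 2) (nat_lit 7) (nat_lit 180) (nat_lit 353) r4_180 r8_353 (nat_lit 0) (nat_lit 0) (nat_lit 0) (nat_lit 0x2018af5f6) (nat_lit 267182206)]
noncomputable def e24_48 : List Rx := [
  Rx.mk (nat_lit 128) (nat_lit 0) (nat_lit 0) (nat_lit 2) (nat_lit 4) (nat_lit 147) (nat_lit 50) r4_147 r9_50 (nat_lit 8519900) (nat_lit 5621542) (nat_lit 0) (nat_lit 0x1c583434c) (nat_lit 344848848),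
  Rx.mk (nat_lit 130) (nat_lit 2) (nat_lit 0) (nat_lit 2) (nat_lit 5) (nat_lit 150) (nat_lit 59) r4_150 r9_59 (nat_lit 0) (nat_lit 9817070) (nat_lit 0) (nat_lit 0x1fee05a9e) (nat_lit 279774476),
  Rx.mk (nat_lit 131) (nat_lit 3) (nat_lit 0) (nat_lit 2) (nat_lit 5) (nat_lit 152) (nat_lit 53) r4_152 r9_53 (nat_lit 0) (nat_lit 9484367) (nat_lit 0) (nat_lit 0x20056d4f2) (nat_lit 277919823),
  Rx.mk (nat_lit 136) (nat_lit 0) (nat_lit 1) (nat_lit 2) (nat_lit 6) (nat_lit 148) (nat_lit 51) r4_148 r9_51 (nat_lit 9484367) (nat_lit 0) (nat_lit 0) (nat_lit 0x20056d4f2) (nat_lit 277919823),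
  Rx.mk (nat_lit 137) (nat_lit 1) (nat_lit 1) (nat_lit 2) (nat_lit 7) (nat_lit 149) (nat_lit 52) r4_149 r9_52 (nat_lit 0) (nat_lit 0) (nat_lit 0) (nat_lit 0x20056d4f2) (nat_lit 268435456),
  Rx.mk (nat_lit 138) (nat_lit 2) (nat_lit 1) (nat_lit 2) (nat_lit 7) (nat_lit 151) (nat_lit 60) r4_151 r9_60 (nat_lit 0) (nat_lit 0) (nat_lit 0) (nat_lit 0x20056d4f2) (nat_lit 268435456),
  Rx.mk (nat_lit 139) (nat_lit 3) (nat_lit 1) (nat_lit 2) (nat_lit 7) (nat_lit 153) (nat_lit 54) r4_153 r9_54 (nat_lit 0) (nat_lit 0) (nat_lit 0) (nat_lit 0x20056d4f2) (nat_lit 268435456),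
  Rx.mk (nat_lit 155) (nat_lit 3) (nat_lit 3) (nat_lit 2) (nat_lit 7) (nat_lit 154) (nat_lit 55) r4_154 r9_55 (nat_lit 0) (nat_lit 0) (nat_lit 0) (nat_lit 0x20056d4f2) (nat_lit 268435456),
  Rx.mk (nat_lit 386) (nat_lit 2) (nat_lit 0) (nat_lit 6) (nat_lit 5) (nat_lit 144) (nat_lit 56) r4_144 r9_56 (nat_lit 0) (nat_lit 9484367) (nat_lit 0) (nat_lit 0x20056d4f2) (nat_lit 277919823),
  Rx.mk (nat_lit 394) (nat_lit 2) (nat_lit 1) (nat_lit 6) (nat_lit 7) (nat_lit 145) (nat_lit 57) r4_145 r9_57 (nat_lit 0) (nat_lit 0) (nat_lit 0) (nat_lit 0x20056d4f2) (nat_lit 268435456),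
  Rx.mk (nat_lit 402) (nat_lit 2) (nat_lit 2) (nat_lit 6) (nat_lit 7) (nat_lit 146) (nat_lit 58) r4_146 r9_58 (nat_lit 0) (nat_lit 0) (nat_lit 0) (nat_lit 0x20056d4f2) (nat_lit 268435456)]
noncomputable def e24_49 : List Rx := [
  Rx.mk (nat_lit 386) (nat_lit 2) (nat_lit 0) (nat_lit 6) (nat_lit 5) (nat_lit 128) (nat_lit 15) r4_128 r9_15 (nat_lit 0) (nat_lit 9484367) (nat_lit 0) (nat_lit 0x20056d4f2) (nat_lit 277919823),
  Rx.mk (nat_lit 394) (nat_lit 2) (nat_lit 1) (nat_lit 6) (nat_lit 7) (nat_lit 129) (nat_lit 16) r4_129 r9_16 (nat_lit 0) (nat_lit 0) (nat_lit 0) (nat_lit 0x20056d4f2) (nat_lit 268435456),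
  Rx.mk (nat_lit 402) (nat_lit 2) (nat_lit 2) (nat_lit 6) (nat_lit 7) (nat_lit 130) (nat_lit 17) r4_130 r9_17 (nat_lit 0) (nat_lit 0) (nat_lit 0) (nat_lit 0x20056d4f2) (nat_lit 268435456)]
noncomputable def e24_50 : List Rx := [
  Rx.mk (nat_lit 43) (nat_lit 3) (nat_lit 5) (nat_lit 0) (nat_lit 3) (nat_lit 65) (nat_lit 72) r4_65 r3_72 (nat_lit 0) (nat_lit 0) (nat_lit 3880) (nat_lit 0x1fff81d22) (nat_lit 268472436),
  Rx.mk (nat_lit 168) (nat_lit 0) (nat_lit 5) (nat_lit 2) (nat_lit 6) (nat_lit 66) (nat_lit 71) r4_66 r3_71 (nat_lit 23607) (nat_lit 0) (nat_lit 0) (nat_lit 0x210f104d6) (nat_lit 251131913),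
  Rx.mk (nat_lit 171) (nat_lit 3) (nat_lit 5) (nat_lit 2) (nat_lit 7) (nat_lit 67) (nat_lit 73) r4_67 r3_73 (nat_lit 0) (nat_lit 0) (nat_lit 0) (nat_lit 0x20a4ce8e8) (nat_lit 257901506)]
noncomputable def e24_51 : List Rx := [
  Rx.mk (nat_lit 43) (nat_lit 3) (nat_lit 5) (nat_lit 0) (nat_lit 3) (nat_lit 74) (nat_lit 75) r4_74 r4_75 (nat_lit 0) (nat_lit 0) (nat_lit 2416537) (nat_lit 0x1f7937fb4) (nat_lit 279969093),
  Rx.mk (nat_lit 139) (nat_lit 3) (nat_lit 1) (nat_lit 2) (nat_lit 7) (nat_lit 77) (nat_lit 77) r4_77 r4_77 (nat_lit 0) (nat_lit 0) (nat_lit 0) (nat_lit 0x21022be1e) (nat_lit 252138556),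
  Rx.mk (nat_lit 168) (nat_lit 0) (nat_lit 5) (nat_lit 2) (nat_lit 6) (nat_lit 75) (nat_lit 74) r4_75 r4_74 (nat_lit 2416537) (nat_lit 0) (nat_lit 0) (nat_lit 0x1f7937fb4) (nat_lit 279969093),
  Rx.mk (nat_lit 171) (nat_lit 3) (nat_lit 5) (nat_lit 2) (nat_lit 7) (nat_lit 76) (nat_lit 76) r4_76 r4_76 (nat_lit 0) (nat_lit 0) (nat_lit 0) (nat_lit 0x1ff9ad374) (nat_lit 268858306)]
noncomputable def e24_52 : List Rx := [
  Rx.mk (nat_lit 43) (nat_lit 3) (nat_lit 5) (nat_lit 0) (nat_lit 3) (nat_lit 89) (nat_lit 67) r4_89 r5_67 (nat_lit 0) (nat_lit 0) (nat_lit 3291351) (nat_lit 0x2031599e4) (nat_lit 268834057),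
  Rx.mk (nat_lit 168) (nat_lit 0) (nat_lit 5) (nat_lit 2) (nat_lit 6) (nat_lit 90) (nat_lit 66) r4_90 r5_66 (nat_lit 2916474) (nat_lit 0) (nat_lit 0) (nat_lit 0x2226061ee) (nat_lit 236350630),
  Rx.mk (nat_lit 171) (nat_lit 3) (nat_lit 5) (nat_lit 2) (nat_lit 7) (nat_lit 91) (nat_lit 69) r4_91 r5_69 (nat_lit 0) (nat_lit 0) (nat_lit 0) (nat_lit 0x2159ecde2) (nat_lit 246419306),
  Rx.mk (nat_lit 235) (nat_lit 3) (nat_lit 5) (nat_lit 3) (nat_lit 7) (nat_lit 92) (nat_lit 68) r4_92 r5_68 (nat_lit 0) (nat_lit 0) (nat_lit 0) (nat_lit 0x20c01debe) (nat_lit 256355556)]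
noncomputable def e24_53 : List Rx := [
  Rx.mk (nat_lit 40) (nat_lit 0) (nat_lit 5) (nat_lit 0) (nat_lit 2) (nat_lit 161) (nat_lit 349) r4_161 r4_349 (nat_lit 2370172) (nat_lit 0) (nat_lit 16814274) (nat_lit 0x1c711fa14) (nat_lit 348210952),
  Rx.mk (nat_lit 41) (nat_lit 1) (nat_lit 5) (nat_lit 0) (nat_lit 3) (nat_lit 162) (nat_lit 350) r4_162 r4_350 (nat_lit 0) (nat_lit 0) (nat_lit 9484367) (nat_lit 0x209c9256c) (nat_lit 268145023),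
  Rx.mk (nat_lit 43) (nat_lit 3) (nat_lit 5) (nat_lit 0) (nat_lit 3) (nat_lit 163) (nat_lit 351) r4_163 r4_351 (nat_lit 0) (nat_lit 0) (nat_lit 27108786) (nat_lit 0x208caa712) (nat_lit 286756242),
  Rx.mk (nat_lit 168) (nat_lit 0) (nat_lit 5) (nat_lit 2) (nat_lit 6) (nat_lit 164) (nat_lit 352) r4_164 r4_352 (nat_lit 3808292) (nat_lit 0) (nat_lit 0) (nat_lit 0x1ed188994) (nat_lit 292490648),
  Rx.mk (nat_lit 169) (nat_lit 1) (nat_lit 5) (nat_lit 2) (nat_lit 7) (nat_lit 165) (nat_lit 353) r4_165 r4_353 (nat_lit 0) (nat_lit 0) (nat_lit 0) (nat_lit 0x2100a3b28) (nat_lit 252236256),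
  Rx.mk (nat_lit 171) (nat_lit 3) (nat_lit 5) (nat_lit 2) (nat_lit 7) (nat_lit 166) (nat_lit 354) r4_166 r4_354 (nat_lit 0) (nat_lit 0) (nat_lit 0) (nat_lit 0x20a26e53a) (nat_lit 258270756)]
noncomputable def e24_54 : List Rx := [
  Rx.mk (nat_lit 40) (nat_lit 0) (nat_lit 5) (nat_lit 0) (nat_lit 2) (nat_lit 181) (nat_lit 52) r4_181 r10_52 (nat_lit 2605608) (nat_lit 0) (nat_lit 8432825) (nat_lit 0x17532ea0a) (nat_lit 427006439),
  Rx.mk (nat_lit 41) (nat_lit 1) (nat_lit 5) (nat_lit 0) (nat_lit 3) (nat_lit 182) (nat_lit 54) r4_182 r10_54 (nat_lit 0) (nat_lit 0) (nat_lit 7691568) (nat_lit 0x205c40dba) (nat_lit 270495974),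
  Rx.mk (nat_lit 43) (nat_lit 3) (nat_lit 5) (nat_lit 0) (nat_lit 3) (nat_lit 183) (nat_lit 56) r4_183 r10_56 (nat_lit 0) (nat_lit 0) (nat_lit 7650699) (nat_lit 0x1fef4329e) (nat_lit 277519855),
  Rx.mk (nat_lit 139) (nat_lit 3) (nat_lit 1) (nat_lit 2) (nat_lit 7) (nat_lit 187) (nat_lit 58) r4_187 r10_58 (nat_lit 0) (nat_lit 0) (nat_lit 0) (nat_lit 0x20542d5ec) (nat_lit 263324306),
  Rx.mk (nat_lit 168) (nat_lit 0) (nat_lit 5) (nat_lit 2) (nat_lit 6) (nat_lit 184) (nat_lit 53) r4_184 r10_53 (nat_lit 2776969) (nat_lit 0) (nat_lit 0) (nat_lit 0x1ed7bc590) (nat_lit 291044925),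
  Rx.mk (nat_lit 169) (nat_lit 1) (nat_lit 5) (nat_lit 2) (nat_lit 7) (nat_lit 185) (nat_lit 55) r4_185 r10_55 (nat_lit 0) (nat_lit 0) (nat_lit 0) (nat_lit 0x2104890bc) (nat_lit 251988106),
  Rx.mk (nat_lit 171) (nat_lit 3) (nat_lit 5) (nat_lit 2) (nat_lit 7) (nat_lit 186) (nat_lit 57) r4_186 r10_57 (nat_lit 0) (nat_lit 0) (nat_lit 0) (nat_lit 0x2104890bc) (nat_lit 251988106)]
noncomputable def e24_55 : List Rx := [
  Rx.mk (nat_lit 40) (nat_lit 0) (nat_lit 5) (nat_lit 0) (nat_lit 2) (nat_lit 188) (nat_lit 46) r4_188 r11_46 (nat_lit 13450532) (nat_lit 0) (nat_lit 9087707) (nat_lit 0x1de99e322) (nat_lit 326619295),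
  Rx.mk (nat_lit 41) (nat_lit 1) (nat_lit 5) (nat_lit 0) (nat_lit 3) (nat_lit 189) (nat_lit 48) r4_189 r11_48 (nat_lit 0) (nat_lit 0) (nat_lit 9484367) (nat_lit 0x203eea194) (nat_lit 274185073),
  Rx.mk (nat_lit 43) (nat_lit 3) (nat_lit 5) (nat_lit 0) (nat_lit 3) (nat_lit 190) (nat_lit 50) r4_190 r11_50 (nat_lit 0) (nat_lit 0) (nat_lit 9484367) (nat_lit 0x204794204) (nat_lit 273617673),
  Rx.mk (nat_lit 168) (nat_lit 0) (nat_lit 5) (nat_lit 2) (nat_lit 6) (nat_lit 191) (nat_lit 47) r4_191 r11_47 (nat_lit 4072853) (nat_lit 0) (nat_lit 0) (nat_lit 0x2052f6c50) (nat_lit 267458109),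
  Rx.mk (nat_lit 169) (nat_lit 1) (nat_lit 5) (nat_lit 2) (nat_lit 7) (nat_lit 192) (nat_lit 49) r4_192 r11_49 (nat_lit 0) (nat_lit 0) (nat_lit 0) (nat_lit 0x209d254d4) (nat_lit 258624606),
  Rx.mk (nat_lit 171) (nat_lit 3) (nat_lit 5) (nat_lit 2) (nat_lit 7) (nat_lit 193) (nat_lit 52) r4_193 r11_52 (nat_lit 0) (nat_lit 0) (nat_lit 0) (nat_lit 0x209d254d4) (nat_lit 258624606),
  Rx.mk (nat_lit 235) (nat_lit 3) (nat_lit 5) (nat_lit 3) (nat_lit 7) (nat_lit 194) (nat_lit 51) r4_194 r11_51 (nat_lit 0) (nat_lit 0) (nat_lit 0) (nat_lit 0x20056d4f2) (nat_lit 268435456)]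
noncomputable def e24_56 : List Rx := [
  Rx.mk (nat_lit 43) (nat_lit 3) (nat_lit 5) (nat_lit 0) (nat_lit 3) (nat_lit 224) (nat_lit 305) r4_224 r5_305 (nat_lit 0) (nat_lit 0) (nat_lit 32184611) (nat_lit 0x1ff911c4e) (nat_lit 301092217),
  Rx.mk (nat_lit 171) (nat_lit 3) (nat_lit 5) (nat_lit 2) (nat_lit 7) (nat_lit 225) (nat_lit 306) r4_225 r5_306 (nat_lit 0) (nat_lit 0) (nat_lit 0) (nat_lit 0x1f2f6a45e) (nat_lit 282376406)]
noncomputable def e24_57 : List Rx := [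
  Rx.mk (nat_lit 43) (nat_lit 3) (nat_lit 5) (nat_lit 0) (nat_lit 3) (nat_lit 226) (nat_lit 358) r4_226 r11_358 (nat_lit 0) (nat_lit 0) (nat_lit 6413564) (nat_lit 0x1eec43ba8) (nat_lit 293330520),
  Rx.mk (nat_lit 139) (nat_lit 3) (nat_lit 1) (nat_lit 2) (nat_lit 7) (nat_lit 228) (nat_lit 357) r4_228 r11_357 (nat_lit 0) (nat_lit 0) (nat_lit 0) (nat_lit 0x248c11efa) (nat_lit 194171706),
  Rx.mk (nat_lit 171) (nat_lit 3) (nat_lit 5) (nat_lit 2) (nat_lit 7) (nat_lit 227) (nat_lit 359) r4_227 r11_359 (nat_lit 0) (nat_lit 0) (nat_lit 0) (nat_lit 0x1f31bdc60) (nat_lit 282264106)]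
noncomputable def e24 : List (List Rx) := [e24_0, e24_1, e24_2, e24_3, e24_4, e24_5, e24_6, e24_7, e24_8, e24_9, e24_10, e24_11, e24_12, e24_13, e24_14, e24_15, e24_16, e24_17, e24_18, e24_19, e24_20, e24_21, e24_22, e24_23, e24_24, e24_25, e24_26, e24_27, e24_28, e24_29, e24_30, e24_31, e24_32, e24_33, e24_34, e24_35, e24_36, e24_37, e24_38, e24_39, e24_40, e24_41, e24_42, e24_43, e24_44, e24_45, e24_46, e24_47, e24_48, e24_49, e24_50, e24_51, e24_52, e24_53, e24_54, e24_55, e24_56, e24_57]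
noncomputable def e25_0 : List Rx := [
  Rx.mk (nat_lit 100) (nat_lit 4) (nat_lit 4) (nat_lit 1) (nat_lit 4) (nat_lit 56) (nat_lit 177) r7_56 r0_177 (nat_lit 3352025) (nat_lit 236105) (nat_lit 0) (nat_lit 0x15ef65efc) (nat_lit 443065536),
  Rx.mk (nat_lit 108) (nat_lit 4) (nat_lit 5) (nat_lit 1) (nat_lit 6) (nat_lit 59) (nat_lit 179) r7_59 r0_179 (nat_lit 2435671) (nat_lit 0) (nat_lit 0) (nat_lit 0x1813fca48) (nat_lit 405583127),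
  Rx.mk (nat_lit 356) (nat_lit 4) (nat_lit 4) (nat_lit 5) (nat_lit 4) (nat_lit 57) (nat_lit 178) r7_57 r0_178 (nat_lit 716691) (nat_lit 254935) (nat_lit 0) (nat_lit 0x19bbb53e2) (nat_lit 375922732),
  Rx.mk (nat_lit 359) (nat_lit 7) (nat_lit 4) (nat_lit 5) (nat_lit 5) (nat_lit 58) (nat_lit 182) r7_58 r0_182 (nat_lit 0) (nat_lit 2189607) (nat_lit 0) (nat_lit 0x1fe25deee) (nat_lit 272854513),
  Rx.mk (nat_lit 364) (nat_lit 4) (nat_lit 5) (nat_lit 5) (nat_lit 6) (nat_lit 60) (nat_lit 180) r7_60 r0_180 (nat_lit 8466862) (nat_lit 0) (nat_lit 0) (nat_lit 0x1df10845a) (nat_lit 312056868),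
  Rx.mk (nat_lit 367) (nat_lit 7) (nat_lit 5) (nat_lit 5) (nat_lit 7) (nat_lit 61) (nat_lit 183) r7_61 r0_183 (nat_lit 0) (nat_lit 0) (nat_lit 0) (nat_lit 0x2069e1e9c) (nat_lit 261918006),
  Rx.mk (nat_lit 372) (nat_lit 4) (nat_lit 6) (nat_lit 5) (nat_lit 6) (nat_lit 62) (nat_lit 181) r7_62 r0_181 (nat_lit 57895491) (nat_lit 0) (nat_lit 0) (nat_lit 0x20dbef6b0) (nat_lit 312330647),
  Rx.mk (nat_lit 375) (nat_lit 7) (nat_lit 6) (nat_lit 5) (nat_lit 7) (nat_lit 63) (nat_lit 184) r7_63 r0_184 (nat_lit 0) (nat_lit 0) (nat_lit 0) (nat_lit 0x2120dae14) (nat_lit 250172056)]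
noncomputable def e25_1 : List Rx := [
  Rx.mk (nat_lit 356) (nat_lit 4) (nat_lit 4) (nat_lit 5) (nat_lit 4) (nat_lit 64) (nat_lit 192) r7_64 r1_192 (nat_lit 10430206) (nat_lit 4648863) (nat_lit 0) (nat_lit 0x1ba0815a6) (nat_lit 357965125),
  Rx.mk (nat_lit 359) (nat_lit 7) (nat_lit 4) (nat_lit 5) (nat_lit 5) (nat_lit 65) (nat_lit 195) r7_65 r1_195 (nat_lit 0) (nat_lit 4369240) (nat_lit 0) (nat_lit 0x20a61f4ea) (nat_lit 262415396),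
  Rx.mk (nat_lit 364) (nat_lit 4) (nat_lit 5) (nat_lit 5) (nat_lit 6) (nat_lit 66) (nat_lit 193) r7_66 r1_193 (nat_lit 10636325) (nat_lit 0) (nat_lit 0) (nat_lit 0x1f952452e) (nat_lit 286423531),
  Rx.mk (nat_lit 367) (nat_lit 7) (nat_lit 5) (nat_lit 5) (nat_lit 7) (nat_lit 67) (nat_lit 196) r7_67 r1_196 (nat_lit 0) (nat_lit 0) (nat_lit 0) (nat_lit 0x203d18672) (nat_lit 264818306),
  Rx.mk (nat_lit 372) (nat_lit 4) (nat_lit 6) (nat_lit 5) (nat_lit 6) (nat_lit 68) (nat_lit 194) r7_68 r1_194 (nat_lit 77834362) (nat_lit 0) (nat_lit 0) (nat_lit 0x23c840ddc) (nat_lit 284519518),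
  Rx.mk (nat_lit 374) (nat_lit 6) (nat_lit 6) (nat_lit 5) (nat_lit 7) (nat_lit 69) (nat_lit 198) r7_69 r1_198 (nat_lit 0) (nat_lit 0) (nat_lit 0) (nat_lit 0x2186519be) (nat_lit 243665906),
  Rx.mk (nat_lit 375) (nat_lit 7) (nat_lit 6) (nat_lit 5) (nat_lit 7) (nat_lit 70) (nat_lit 197) r7_70 r1_197 (nat_lit 0) (nat_lit 0) (nat_lit 0) (nat_lit 0x203d18672) (nat_lit 264818306)]
noncomputable def e25_2 : List Rx := [
  Rx.mk (nat_lit 292) (nat_lit 4) (nat_lit 4) (nat_lit 4) (nat_lit 0) (nat_lit 21) (nat_lit 189) r7_21 r2_189 (nat_lit 347865) (nat_lit 110182) (nat_lit 122782) (nat_lit 0xf155adc6) (nat_lit 556453385),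
  Rx.mk (nat_lit 295) (nat_lit 7) (nat_lit 4) (nat_lit 4) (nat_lit 1) (nat_lit 23) (nat_lit 193) r7_23 r2_193 (nat_lit 0) (nat_lit 1645853) (nat_lit 1994389) (nat_lit 0x1a886f89c) (nat_lit 365101798),
  Rx.mk (nat_lit 308) (nat_lit 4) (nat_lit 6) (nat_lit 4) (nat_lit 2) (nat_lit 26) (nat_lit 191) r7_26 r2_191 (nat_lit 6259495) (nat_lit 0) (nat_lit 2914534) (nat_lit 0x1a7896376) (nat_lit 371700385),
  Rx.mk (nat_lit 310) (nat_lit 6) (nat_lit 6) (nat_lit 4) (nat_lit 3) (nat_lit 28) (nat_lit 200) r7_28 r2_200 (nat_lit 0) (nat_lit 0) (nat_lit 9484367) (nat_lit 0x1fbe559fc) (nat_lit 282567823),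
  Rx.mk (nat_lit 311) (nat_lit 7) (nat_lit 6) (nat_lit 4) (nat_lit 3) (nat_lit 31) (nat_lit 197) r7_31 r2_197 (nat_lit 0) (nat_lit 0) (nat_lit 4070597) (nat_lit 0x20d4908d8) (nat_lit 259136953),
  Rx.mk (nat_lit 356) (nat_lit 4) (nat_lit 4) (nat_lit 5) (nat_lit 4) (nat_lit 22) (nat_lit 190) r7_22 r2_190 (nat_lit 7109024) (nat_lit 3470687) (nat_lit 0) (nat_lit 0x150fa33f0) (nat_lit 465021817),
  Rx.mk (nat_lit 359) (nat_lit 7) (nat_lit 4) (nat_lit 5) (nat_lit 5) (nat_lit 24) (nat_lit 194) r7_24 r2_194 (nat_lit 0) (nat_lit 5017164) (nat_lit 0) (nat_lit 0x207caad94) (nat_lit 265733370),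
  Rx.mk (nat_lit 372) (nat_lit 4) (nat_lit 6) (nat_lit 5) (nat_lit 6) (nat_lit 27) (nat_lit 192) r7_27 r2_192 (nat_lit 9484367) (nat_lit 0) (nat_lit 0) (nat_lit 0x20056d4f2) (nat_lit 277919823),
  Rx.mk (nat_lit 374) (nat_lit 6) (nat_lit 6) (nat_lit 5) (nat_lit 7) (nat_lit 29) (nat_lit 201) r7_29 r2_201 (nat_lit 0) (nat_lit 0) (nat_lit 0) (nat_lit 0x20056d4f2) (nat_lit 268435456),
  Rx.mk (nat_lit 375) (nat_lit 7) (nat_lit 6) (nat_lit 5) (nat_lit 7) (nat_lit 32) (nat_lit 198) r7_32 r2_198 (nat_lit 0) (nat_lit 0) (nat_lit 0) (nat_lit 0x20056d4f2) (nat_lit 268435456),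
  Rx.mk (nat_lit 438) (nat_lit 6) (nat_lit 6) (nat_lit 6) (nat_lit 7) (nat_lit 30) (nat_lit 202) r7_30 r2_202 (nat_lit 0) (nat_lit 0) (nat_lit 0) (nat_lit 0x20056d4f2) (nat_lit 268435456),
  Rx.mk (nat_lit 487) (nat_lit 7) (nat_lit 4) (nat_lit 7) (nat_lit 5) (nat_lit 25) (nat_lit 195) r7_25 r2_195 (nat_lit 0) (nat_lit 6143740) (nat_lit 0) (nat_lit 0x203351b34) (nat_lit 271587896),
  Rx.mk (nat_lit 503) (nat_lit 7) (nat_lit 6) (nat_lit 7) (nat_lit 7) (nat_lit 33) (nat_lit 199) r7_33 r2_199 (nat_lit 0) (nat_lit 0) (nat_lit 0) (nat_lit 0x20056d4f2) (nat_lit 268435456),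
  Rx.mk (nat_lit 511) (nat_lit 7) (nat_lit 7) (nat_lit 7) (nat_lit 7) (nat_lit 34) (nat_lit 196) r7_34 r2_196 (nat_lit 0) (nat_lit 0) (nat_lit 0) (nat_lit 0x20056d4f2) (nat_lit 268435456)]
noncomputable def e25_3 : List Rx := [
  Rx.mk (nat_lit 100) (nat_lit 4) (nat_lit 4) (nat_lit 1) (nat_lit 4) (nat_lit 52) (nat_lit 167) r7_52 r3_167 (nat_lit 16392) (nat_lit 20207) (nat_lit 0) (nat_lit 0x1aff2b4f4) (nat_lit 353479305),
  Rx.mk (nat_lit 103) (nat_lit 7) (nat_lit 4) (nat_lit 1) (nat_lit 5) (nat_lit 53) (nat_lit 169) r7_53 r3_169 (nat_lit 0) (nat_lit 47845) (nat_lit 0) (nat_lit 0x201156a48) (nat_lit 267395251),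
  Rx.mk (nat_lit 108) (nat_lit 4) (nat_lit 5) (nat_lit 1) (nat_lit 6) (nat_lit 54) (nat_lit 168) r7_54 r3_168 (nat_lit 1511252) (nat_lit 0) (nat_lit 0) (nat_lit 0x1d22f5266) (nat_lit 318703058),
  Rx.mk (nat_lit 111) (nat_lit 7) (nat_lit 5) (nat_lit 1) (nat_lit 7) (nat_lit 55) (nat_lit 170) r7_55 r3_170 (nat_lit 0) (nat_lit 0) (nat_lit 0) (nat_lit 0x21af7b880) (nat_lit 241021756)]
noncomputable def e25_4 : List Rx := [
  Rx.mk (nat_lit 100) (nat_lit 4) (nat_lit 4) (nat_lit 1) (nat_lit 4) (nat_lit 71) (nat_lit 167) r7_71 r4_167 (nat_lit 9573033) (nat_lit 3498461) (nat_lit 0) (nat_lit 0x17c42fa88) (nat_lit 421543700),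
  Rx.mk (nat_lit 103) (nat_lit 7) (nat_lit 4) (nat_lit 1) (nat_lit 5) (nat_lit 72) (nat_lit 169) r7_72 r4_169 (nat_lit 0) (nat_lit 2514868) (nat_lit 0) (nat_lit 0x1db219e9c) (nat_lit 310255074),
  Rx.mk (nat_lit 108) (nat_lit 4) (nat_lit 5) (nat_lit 1) (nat_lit 6) (nat_lit 74) (nat_lit 168) r7_74 r4_168 (nat_lit 8007799) (nat_lit 0) (nat_lit 0) (nat_lit 0x1fe9cda3a) (nat_lit 278231055),
  Rx.mk (nat_lit 111) (nat_lit 7) (nat_lit 5) (nat_lit 1) (nat_lit 7) (nat_lit 75) (nat_lit 171) r7_75 r4_171 (nat_lit 0) (nat_lit 0) (nat_lit 0) (nat_lit 0x21766457e) (nat_lit 244694406),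
  Rx.mk (nat_lit 359) (nat_lit 7) (nat_lit 4) (nat_lit 5) (nat_lit 5) (nat_lit 73) (nat_lit 170) r7_73 r4_170 (nat_lit 0) (nat_lit 4626214) (nat_lit 0) (nat_lit 0x207ca1424) (nat_lit 265335720),
  Rx.mk (nat_lit 367) (nat_lit 7) (nat_lit 5) (nat_lit 5) (nat_lit 7) (nat_lit 76) (nat_lit 172) r7_76 r4_172 (nat_lit 0) (nat_lit 0) (nat_lit 0) (nat_lit 0x206f820c2) (nat_lit 261563506),
  Rx.mk (nat_lit 375) (nat_lit 7) (nat_lit 6) (nat_lit 5) (nat_lit 7) (nat_lit 77) (nat_lit 173) r7_77 r4_173 (nat_lit 0) (nat_lit 0) (nat_lit 0) (nat_lit 0x206f820c2) (nat_lit 261563506)]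
noncomputable def e25_5 : List Rx := [
  Rx.mk (nat_lit 100) (nat_lit 4) (nat_lit 4) (nat_lit 1) (nat_lit 4) (nat_lit 88) (nat_lit 184) r7_88 r5_184 (nat_lit 9588172) (nat_lit 2663217) (nat_lit 0) (nat_lit 0x1bf102cbe) (nat_lit 349792345),
  Rx.mk (nat_lit 103) (nat_lit 7) (nat_lit 4) (nat_lit 1) (nat_lit 5) (nat_lit 89) (nat_lit 186) r7_89 r5_186 (nat_lit 0) (nat_lit 4398806) (nat_lit 0) (nat_lit 0x200652368) (nat_lit 272736762),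
  Rx.mk (nat_lit 108) (nat_lit 4) (nat_lit 5) (nat_lit 1) (nat_lit 6) (nat_lit 90) (nat_lit 185) r7_90 r5_185 (nat_lit 9484367) (nat_lit 0) (nat_lit 0) (nat_lit 0x20056d4f2) (nat_lit 277919823),
  Rx.mk (nat_lit 111) (nat_lit 7) (nat_lit 5) (nat_lit 1) (nat_lit 7) (nat_lit 91) (nat_lit 187) r7_91 r5_187 (nat_lit 0) (nat_lit 0) (nat_lit 0) (nat_lit 0x20b6ad88e) (nat_lit 256983056),
  Rx.mk (nat_lit 127) (nat_lit 7) (nat_lit 7) (nat_lit 1) (nat_lit 7) (nat_lit 92) (nat_lit 188) r7_92 r5_188 (nat_lit 0) (nat_lit 0) (nat_lit 0) (nat_lit 0x1f764566c) (nat_lit 277826656)]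
noncomputable def e25_6 : List Rx := [
  Rx.mk (nat_lit 59) (nat_lit 3) (nat_lit 7) (nat_lit 0) (nat_lit 3) (nat_lit 36) (nat_lit 102) r7_36 r3_102 (nat_lit 0) (nat_lit 0) (nat_lit 49366) (nat_lit 0x211ea5928) (nat_lit 250177072),
  Rx.mk (nat_lit 231) (nat_lit 7) (nat_lit 4) (nat_lit 3) (nat_lit 5) (nat_lit 35) (nat_lit 100) r7_35 r3_100 (nat_lit 0) (nat_lit 49366) (nat_lit 0) (nat_lit 0x211ea5928) (nat_lit 250177072),
  Rx.mk (nat_lit 251) (nat_lit 3) (nat_lit 7) (nat_lit 3) (nat_lit 7) (nat_lit 37) (nat_lit 103) r7_37 r3_103 (nat_lit 0) (nat_lit 0) (nat_lit 0) (nat_lit 0x1f3ce36a8) (nat_lit 281613806),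
  Rx.mk (nat_lit 255) (nat_lit 7) (nat_lit 7) (nat_lit 3) (nat_lit 7) (nat_lit 38) (nat_lit 101) r7_38 r3_101 (nat_lit 0) (nat_lit 0) (nat_lit 0) (nat_lit 0x1f3ce36a8) (nat_lit 281613806)]
noncomputable def e25_7 : List Rx := [
  Rx.mk (nat_lit 251) (nat_lit 3) (nat_lit 7) (nat_lit 3) (nat_lit 7) (nat_lit 8) (nat_lit 104) r7_8 r0_104 (nat_lit 0) (nat_lit 0) (nat_lit 0) (nat_lit 0x20055e1a0) (nat_lit 268437306),
  Rx.mk (nat_lit 255) (nat_lit 7) (nat_lit 7) (nat_lit 3) (nat_lit 7) (nat_lit 9) (nat_lit 103) r7_9 r0_103 (nat_lit 0) (nat_lit 0) (nat_lit 0) (nat_lit 0x20056d4f2) (nat_lit 268435456),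
  Rx.mk (nat_lit 308) (nat_lit 4) (nat_lit 6) (nat_lit 4) (nat_lit 2) (nat_lit 2) (nat_lit 105) r7_2 r0_105 (nat_lit 991673) (nat_lit 0) (nat_lit 121405) (nat_lit 0x190ff0958) (nat_lit 387448234),
  Rx.mk (nat_lit 310) (nat_lit 6) (nat_lit 6) (nat_lit 4) (nat_lit 3) (nat_lit 4) (nat_lit 108) r7_4 r0_108 (nat_lit 0) (nat_lit 0) (nat_lit 4501915) (nat_lit 0x1cfdf132a) (nat_lit 324222321),
  Rx.mk (nat_lit 438) (nat_lit 6) (nat_lit 6) (nat_lit 6) (nat_lit 7) (nat_lit 5) (nat_lit 110) r7_5 r0_110 (nat_lit 0) (nat_lit 0) (nat_lit 0) (nat_lit 0x1fe8175a6) (nat_lit 270347556),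
  Rx.mk (nat_lit 484) (nat_lit 4) (nat_lit 4) (nat_lit 7) (nat_lit 4) (nat_lit 0) (nat_lit 100) r7_0 r0_100 (nat_lit 10175790) (nat_lit 4635726) (nat_lit 0) (nat_lit 0x1840136ea) (nat_lit 415072972),
  Rx.mk (nat_lit 487) (nat_lit 7) (nat_lit 4) (nat_lit 7) (nat_lit 5) (nat_lit 1) (nat_lit 101) r7_1 r0_101 (nat_lit 0) (nat_lit 4240931) (nat_lit 0) (nat_lit 0x1bf1985a2) (nat_lit 341762337),
  Rx.mk (nat_lit 500) (nat_lit 4) (nat_lit 6) (nat_lit 7) (nat_lit 6) (nat_lit 3) (nat_lit 106) r7_3 r0_106 (nat_lit 27844967) (nat_lit 0) (nat_lit 0) (nat_lit 0x1fd250a9c) (nat_lit 299584973),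
  Rx.mk (nat_lit 502) (nat_lit 6) (nat_lit 6) (nat_lit 7) (nat_lit 7) (nat_lit 6) (nat_lit 109) r7_6 r0_109 (nat_lit 0) (nat_lit 0) (nat_lit 0) (nat_lit 0x20249e1b4) (nat_lit 266405506),
  Rx.mk (nat_lit 503) (nat_lit 7) (nat_lit 6) (nat_lit 7) (nat_lit 7) (nat_lit 7) (nat_lit 107) r7_7 r0_107 (nat_lit 0) (nat_lit 0) (nat_lit 0) (nat_lit 0x1fe528a70) (nat_lit 270533656),
  Rx.mk (nat_lit 511) (nat_lit 7) (nat_lit 7) (nat_lit 7) (nat_lit 7) (nat_lit 10) (nat_lit 102) r7_10 r0_102 (nat_lit 0) (nat_lit 0) (nat_lit 0) (nat_lit 0x1efe441c2) (nat_lit 285762006)]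
noncomputable def e25_8 : List Rx := [
  Rx.mk (nat_lit 292) (nat_lit 4) (nat_lit 4) (nat_lit 4) (nat_lit 0) (nat_lit 11) (nat_lit 107) r7_11 r1_107 (nat_lit 4920335) (nat_lit 1141544) (nat_lit 745275) (nat_lit 0x109a327e6) (nat_lit 536953810),
  Rx.mk (nat_lit 308) (nat_lit 4) (nat_lit 6) (nat_lit 4) (nat_lit 2) (nat_lit 14) (nat_lit 111) r7_14 r1_111 (nat_lit 1363821) (nat_lit 0) (nat_lit 648751) (nat_lit 0x196197c66) (nat_lit 383004978),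
  Rx.mk (nat_lit 310) (nat_lit 6) (nat_lit 6) (nat_lit 4) (nat_lit 3) (nat_lit 16) (nat_lit 114) r7_16 r1_114 (nat_lit 0) (nat_lit 0) (nat_lit 4901484) (nat_lit 0x1e15b6d9c) (nat_lit 306066590),
  Rx.mk (nat_lit 438) (nat_lit 6) (nat_lit 6) (nat_lit 6) (nat_lit 7) (nat_lit 17) (nat_lit 116) r7_17 r1_116 (nat_lit 0) (nat_lit 0) (nat_lit 0) (nat_lit 0x20056d4f2) (nat_lit 268435456),
  Rx.mk (nat_lit 484) (nat_lit 4) (nat_lit 4) (nat_lit 7) (nat_lit 4) (nat_lit 12) (nat_lit 108) r7_12 r1_108 (nat_lit 34669275) (nat_lit 14689334) (nat_lit 0) (nat_lit 0x1dc530cc4) (nat_lit 355866165),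
  Rx.mk (nat_lit 487) (nat_lit 7) (nat_lit 4) (nat_lit 7) (nat_lit 5) (nat_lit 13) (nat_lit 109) r7_13 r1_109 (nat_lit 0) (nat_lit 8870652) (nat_lit 0) (nat_lit 0x1fc54f38e) (nat_lit 281480458),
  Rx.mk (nat_lit 500) (nat_lit 4) (nat_lit 6) (nat_lit 7) (nat_lit 6) (nat_lit 15) (nat_lit 112) r7_15 r1_112 (nat_lit 11532138) (nat_lit 0) (nat_lit 0) (nat_lit 0x200c99f0a) (nat_lit 279487844),
  Rx.mk (nat_lit 502) (nat_lit 6) (nat_lit 6) (nat_lit 7) (nat_lit 7) (nat_lit 18) (nat_lit 115) r7_18 r1_115 (nat_lit 0) (nat_lit 0) (nat_lit 0) (nat_lit 0x20056d4f2) (nat_lit 268435456),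
  Rx.mk (nat_lit 503) (nat_lit 7) (nat_lit 6) (nat_lit 7) (nat_lit 7) (nat_lit 19) (nat_lit 113) r7_19 r1_113 (nat_lit 0) (nat_lit 0) (nat_lit 0) (nat_lit 0x204560096) (nat_lit 264283306),
  Rx.mk (nat_lit 511) (nat_lit 7) (nat_lit 7) (nat_lit 7) (nat_lit 7) (nat_lit 20) (nat_lit 110) r7_20 r1_110 (nat_lit 0) (nat_lit 0) (nat_lit 0) (nat_lit 0x20056d4f2) (nat_lit 268435456)]
noncomputable def e25_9 : List Rx := [
  Rx.mk (nat_lit 59) (nat_lit 3) (nat_lit 7) (nat_lit 0) (nat_lit 3) (nat_lit 45) (nat_lit 102) r7_45 r4_102 (nat_lit 0) (nat_lit 0) (nat_lit 4579434) (nat_lit 0x20687f63a) (nat_lit 266591390),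
  Rx.mk (nat_lit 231) (nat_lit 7) (nat_lit 4) (nat_lit 3) (nat_lit 5) (nat_lit 40) (nat_lit 100) r7_40 r4_100 (nat_lit 0) (nat_lit 5139472) (nat_lit 0) (nat_lit 0x2059555ba) (nat_lit 268128028),
  Rx.mk (nat_lit 251) (nat_lit 3) (nat_lit 7) (nat_lit 3) (nat_lit 7) (nat_lit 46) (nat_lit 103) r7_46 r4_103 (nat_lit 0) (nat_lit 0) (nat_lit 0) (nat_lit 0x20056d4f2) (nat_lit 268435456),
  Rx.mk (nat_lit 255) (nat_lit 7) (nat_lit 7) (nat_lit 3) (nat_lit 7) (nat_lit 47) (nat_lit 101) r7_47 r4_101 (nat_lit 0) (nat_lit 0) (nat_lit 0) (nat_lit 0x20056d4f2) (nat_lit 268435456),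
  Rx.mk (nat_lit 484) (nat_lit 4) (nat_lit 4) (nat_lit 7) (nat_lit 4) (nat_lit 39) (nat_lit 98) r7_39 r4_98 (nat_lit 14706363) (nat_lit 2266560) (nat_lit 0) (nat_lit 0x17dee144e) (nat_lit 423669329),
  Rx.mk (nat_lit 487) (nat_lit 7) (nat_lit 4) (nat_lit 7) (nat_lit 5) (nat_lit 41) (nat_lit 99) r7_41 r4_99 (nat_lit 0) (nat_lit 3138540) (nat_lit 0) (nat_lit 0x1e48aaf0a) (nat_lit 300903146),
  Rx.mk (nat_lit 500) (nat_lit 4) (nat_lit 6) (nat_lit 7) (nat_lit 6) (nat_lit 42) (nat_lit 104) r7_42 r4_104 (nat_lit 16012508) (nat_lit 0) (nat_lit 0) (nat_lit 0x1fe4a6b9c) (nat_lit 286568564),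
  Rx.mk (nat_lit 502) (nat_lit 6) (nat_lit 6) (nat_lit 7) (nat_lit 7) (nat_lit 43) (nat_lit 106) r7_43 r4_106 (nat_lit 0) (nat_lit 0) (nat_lit 0) (nat_lit 0x20056d4f2) (nat_lit 268435456),
  Rx.mk (nat_lit 503) (nat_lit 7) (nat_lit 6) (nat_lit 7) (nat_lit 7) (nat_lit 44) (nat_lit 105) r7_44 r4_105 (nat_lit 0) (nat_lit 0) (nat_lit 0) (nat_lit 0x216fc711c) (nat_lit 245117756)]
noncomputable def e25_10 : List Rx := [
  Rx.mk (nat_lit 39) (nat_lit 7) (nat_lit 4) (nat_lit 0) (nat_lit 1) (nat_lit 78) (nat_lit 195) r7_78 r6_195 (nat_lit 0) (nat_lit 293441) (nat_lit 285501) (nat_lit 0x1bd42f27c) (nat_lit 339938198),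
  Rx.mk (nat_lit 47) (nat_lit 7) (nat_lit 5) (nat_lit 0) (nat_lit 3) (nat_lit 81) (nat_lit 198) r7_81 r6_198 (nat_lit 0) (nat_lit 0) (nat_lit 3269233) (nat_lit 0x20b93e59e) (nat_lit 260068789),
  Rx.mk (nat_lit 59) (nat_lit 3) (nat_lit 7) (nat_lit 0) (nat_lit 3) (nat_lit 84) (nat_lit 193) r7_84 r6_193 (nat_lit 0) (nat_lit 0) (nat_lit 2249514) (nat_lit 0x1fa7a982a) (nat_lit 276775820),
  Rx.mk (nat_lit 63) (nat_lit 7) (nat_lit 7) (nat_lit 0) (nat_lit 3) (nat_lit 86) (nat_lit 201) r7_86 r6_201 (nat_lit 0) (nat_lit 0) (nat_lit 7768452) (nat_lit 0x1f2326f76) (nat_lit 291082808),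
  Rx.mk (nat_lit 103) (nat_lit 7) (nat_lit 4) (nat_lit 1) (nat_lit 5) (nat_lit 79) (nat_lit 196) r7_79 r6_196 (nat_lit 0) (nat_lit 4380705) (nat_lit 0) (nat_lit 0x20233b9a2) (nat_lit 270840161),
  Rx.mk (nat_lit 111) (nat_lit 7) (nat_lit 5) (nat_lit 1) (nat_lit 7) (nat_lit 82) (nat_lit 199) r7_82 r6_199 (nat_lit 0) (nat_lit 0) (nat_lit 0) (nat_lit 0x20e132730) (nat_lit 254255056),
  Rx.mk (nat_lit 123) (nat_lit 3) (nat_lit 7) (nat_lit 1) (nat_lit 7) (nat_lit 85) (nat_lit 194) r7_85 r6_194 (nat_lit 0) (nat_lit 0) (nat_lit 0) (nat_lit 0x218b34328) (nat_lit 243360356),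
  Rx.mk (nat_lit 127) (nat_lit 7) (nat_lit 7) (nat_lit 1) (nat_lit 7) (nat_lit 87) (nat_lit 202) r7_87 r6_202 (nat_lit 0) (nat_lit 0) (nat_lit 0) (nat_lit 0x20056d4f2) (nat_lit 268435456),
  Rx.mk (nat_lit 231) (nat_lit 7) (nat_lit 4) (nat_lit 3) (nat_lit 5) (nat_lit 80) (nat_lit 197) r7_80 r6_197 (nat_lit 0) (nat_lit 2828629) (nat_lit 0) (nat_lit 0x200296e72) (nat_lit 271409985),
  Rx.mk (nat_lit 239) (nat_lit 7) (nat_lit 5) (nat_lit 3) (nat_lit 7) (nat_lit 83) (nat_lit 200) r7_83 r6_200 (nat_lit 0) (nat_lit 0) (nat_lit 0) (nat_lit 0x21d88da66) (nat_lit 238408656)]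
noncomputable def e25_11 : List Rx := [
  Rx.mk (nat_lit 59) (nat_lit 3) (nat_lit 7) (nat_lit 0) (nat_lit 3) (nat_lit 49) (nat_lit 105) r7_49 r5_105 (nat_lit 0) (nat_lit 0) (nat_lit 2350265) (nat_lit 0x1faee4d92) (nat_lit 276387071),
  Rx.mk (nat_lit 63) (nat_lit 7) (nat_lit 7) (nat_lit 0) (nat_lit 3) (nat_lit 50) (nat_lit 103) r7_50 r5_103 (nat_lit 0) (nat_lit 0) (nat_lit 4856279) (nat_lit 0x1bc73bce6) (nat_lit 345186885),
  Rx.mk (nat_lit 231) (nat_lit 7) (nat_lit 4) (nat_lit 3) (nat_lit 5) (nat_lit 48) (nat_lit 102) r7_48 r5_102 (nat_lit 0) (nat_lit 2328975) (nat_lit 0) (nat_lit 0x20c4f3c18) (nat_lit 258373331),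
  Rx.mk (nat_lit 255) (nat_lit 7) (nat_lit 7) (nat_lit 3) (nat_lit 7) (nat_lit 51) (nat_lit 104) r7_51 r5_104 (nat_lit 0) (nat_lit 0) (nat_lit 0) (nat_lit 0x1fc6270f4) (nat_lit 272569156)]
noncomputable def e25_12 : List Rx := [
  Rx.mk (nat_lit 100) (nat_lit 4) (nat_lit 4) (nat_lit 1) (nat_lit 4) (nat_lit 217) (nat_lit 250) r7_217 r0_250 (nat_lit 6883560) (nat_lit 12632886) (nat_lit 0) (nat_lit 0x199f2c586) (nat_lit 396447552),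
  Rx.mk (nat_lit 101) (nat_lit 5) (nat_lit 4) (nat_lit 1) (nat_lit 5) (nat_lit 218) (nat_lit 251) r7_218 r0_251 (nat_lit 0) (nat_lit 10930595) (nat_lit 0) (nat_lit 0x1f89b7ce0) (nat_lit 287476701),
  Rx.mk (nat_lit 108) (nat_lit 4) (nat_lit 5) (nat_lit 1) (nat_lit 6) (nat_lit 219) (nat_lit 252) r7_219 r0_252 (nat_lit 10632780) (nat_lit 0) (nat_lit 0) (nat_lit 0x1d6c3a8b8) (nat_lit 323047586),
  Rx.mk (nat_lit 109) (nat_lit 5) (nat_lit 5) (nat_lit 1) (nat_lit 7) (nat_lit 220) (nat_lit 253) r7_220 r0_253 (nat_lit 0) (nat_lit 0) (nat_lit 0) (nat_lit 0x201f393fe) (nat_lit 266751706)]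
noncomputable def e25_13 : List Rx := [
  Rx.mk (nat_lit 100) (nat_lit 4) (nat_lit 4) (nat_lit 1) (nat_lit 4) (nat_lit 229) (nat_lit 229) r7_229 r7_229 (nat_lit 3198509) (nat_lit 3198509) (nat_lit 0) (nat_lit 0x1ad1629dc) (nat_lit 363026524),
  Rx.mk (nat_lit 101) (nat_lit 5) (nat_lit 4) (nat_lit 1) (nat_lit 5) (nat_lit 231) (nat_lit 234) r7_231 r7_234 (nat_lit 0) (nat_lit 4874341) (nat_lit 0) (nat_lit 0x204d5da50) (nat_lit 268633447),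
  Rx.mk (nat_lit 108) (nat_lit 4) (nat_lit 5) (nat_lit 1) (nat_lit 6) (nat_lit 234) (nat_lit 231) r7_234 r7_231 (nat_lit 4874341) (nat_lit 0) (nat_lit 0) (nat_lit 0x204d5da50) (nat_lit 268633447),
  Rx.mk (nat_lit 109) (nat_lit 5) (nat_lit 5) (nat_lit 1) (nat_lit 7) (nat_lit 236) (nat_lit 236) r7_236 r7_236 (nat_lit 0) (nat_lit 0) (nat_lit 0) (nat_lit 0x2031741f4) (nat_lit 265572906),
  Rx.mk (nat_lit 356) (nat_lit 4) (nat_lit 4) (nat_lit 5) (nat_lit 4) (nat_lit 230) (nat_lit 230) r7_230 r7_230 (nat_lit 12452190) (nat_lit 12452190) (nat_lit 0) (nat_lit 0x1b2db9852) (nat_lit 375430636),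
  Rx.mk (nat_lit 357) (nat_lit 5) (nat_lit 4) (nat_lit 5) (nat_lit 5) (nat_lit 232) (nat_lit 235) r7_232 r7_235 (nat_lit 0) (nat_lit 9484367) (nat_lit 0) (nat_lit 0x1f8256622) (nat_lit 286511973),
  Rx.mk (nat_lit 359) (nat_lit 7) (nat_lit 4) (nat_lit 5) (nat_lit 5) (nat_lit 233) (nat_lit 239) r7_233 r7_239 (nat_lit 0) (nat_lit 9484367) (nat_lit 0) (nat_lit 0x20056d4f2) (nat_lit 277919823),
  Rx.mk (nat_lit 364) (nat_lit 4) (nat_lit 5) (nat_lit 5) (nat_lit 6) (nat_lit 235) (nat_lit 232) r7_235 r7_232 (nat_lit 9484367) (nat_lit 0) (nat_lit 0) (nat_lit 0x1f8256622) (nat_lit 286511973),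
  Rx.mk (nat_lit 365) (nat_lit 5) (nat_lit 5) (nat_lit 5) (nat_lit 7) (nat_lit 237) (nat_lit 237) r7_237 r7_237 (nat_lit 0) (nat_lit 0) (nat_lit 0) (nat_lit 0x20056d4f2) (nat_lit 268435456),
  Rx.mk (nat_lit 367) (nat_lit 7) (nat_lit 5) (nat_lit 5) (nat_lit 7) (nat_lit 238) (nat_lit 240) r7_238 r7_240 (nat_lit 0) (nat_lit 0) (nat_lit 0) (nat_lit 0x20056d4f2) (nat_lit 268435456),
  Rx.mk (nat_lit 372) (nat_lit 4) (nat_lit 6) (nat_lit 5) (nat_lit 6) (nat_lit 239) (nat_lit 233) r7_239 r7_233 (nat_lit 9484367) (nat_lit 0) (nat_lit 0) (nat_lit 0x20056d4f2) (nat_lit 277919823),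
  Rx.mk (nat_lit 373) (nat_lit 5) (nat_lit 6) (nat_lit 5) (nat_lit 7) (nat_lit 240) (nat_lit 238) r7_240 r7_238 (nat_lit 0) (nat_lit 0) (nat_lit 0) (nat_lit 0x20056d4f2) (nat_lit 268435456)]
noncomputable def e25_14 : List Rx := [
  Rx.mk (nat_lit 101) (nat_lit 5) (nat_lit 4) (nat_lit 1) (nat_lit 5) (nat_lit 221) (nat_lit 256) r7_221 r1_256 (nat_lit 0) (nat_lit 9484367) (nat_lit 0) (nat_lit 0x1ed793e56) (nat_lit 297812473),
  Rx.mk (nat_lit 109) (nat_lit 5) (nat_lit 5) (nat_lit 1) (nat_lit 7) (nat_lit 222) (nat_lit 257) r7_222 r1_257 (nat_lit 0) (nat_lit 0) (nat_lit 0) (nat_lit 0x1fb224e26) (nat_lit 273879356)]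
noncomputable def e25_15 : List Rx := [
  Rx.mk (nat_lit 101) (nat_lit 5) (nat_lit 4) (nat_lit 1) (nat_lit 5) (nat_lit 241) (nat_lit 184) r7_241 r8_184 (nat_lit 0) (nat_lit 6164355) (nat_lit 0) (nat_lit 0x20253bd24) (nat_lit 272515511),
  Rx.mk (nat_lit 109) (nat_lit 5) (nat_lit 5) (nat_lit 1) (nat_lit 7) (nat_lit 243) (nat_lit 186) r7_243 r8_186 (nat_lit 0) (nat_lit 0) (nat_lit 0) (nat_lit 0x20056d4f2) (nat_lit 268435456),
  Rx.mk (nat_lit 357) (nat_lit 5) (nat_lit 4) (nat_lit 5) (nat_lit 5) (nat_lit 242) (nat_lit 185) r7_242 r8_185 (nat_lit 0) (nat_lit 9484367) (nat_lit 0) (nat_lit 0x1f8a43b50) (nat_lit 285991423),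
  Rx.mk (nat_lit 365) (nat_lit 5) (nat_lit 5) (nat_lit 5) (nat_lit 7) (nat_lit 244) (nat_lit 187) r7_244 r8_187 (nat_lit 0) (nat_lit 0) (nat_lit 0) (nat_lit 0x20056d4f2) (nat_lit 268435456),
  Rx.mk (nat_lit 373) (nat_lit 5) (nat_lit 6) (nat_lit 5) (nat_lit 7) (nat_lit 245) (nat_lit 188) r7_245 r8_188 (nat_lit 0) (nat_lit 0) (nat_lit 0) (nat_lit 0x20056d4f2) (nat_lit 268435456)]
noncomputable def e25_16 : List Rx := [
  Rx.mk (nat_lit 356) (nat_lit 4) (nat_lit 4) (nat_lit 5) (nat_lit 4) (nat_lit 246) (nat_lit 248) r7_246 r8_248 (nat_lit 11320174) (nat_lit 10214042) (nat_lit 0) (nat_lit 0x19516debc) (nat_lit 403669772),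
  Rx.mk (nat_lit 357) (nat_lit 5) (nat_lit 4) (nat_lit 5) (nat_lit 5) (nat_lit 247) (nat_lit 249) r7_247 r8_249 (nat_lit 0) (nat_lit 9484367) (nat_lit 0) (nat_lit 0x1f9da5748) (nat_lit 284716123),
  Rx.mk (nat_lit 359) (nat_lit 7) (nat_lit 4) (nat_lit 5) (nat_lit 5) (nat_lit 248) (nat_lit 250) r7_248 r8_250 (nat_lit 0) (nat_lit 9484367) (nat_lit 0) (nat_lit 0x1ff7a7da4) (nat_lit 278815973),
  Rx.mk (nat_lit 364) (nat_lit 4) (nat_lit 5) (nat_lit 5) (nat_lit 6) (nat_lit 249) (nat_lit 251) r7_249 r8_251 (nat_lit 9484367) (nat_lit 0) (nat_lit 0) (nat_lit 0x1ff43348e) (nat_lit 279041273),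
  Rx.mk (nat_lit 365) (nat_lit 5) (nat_lit 5) (nat_lit 5) (nat_lit 7) (nat_lit 250) (nat_lit 252) r7_250 r8_252 (nat_lit 0) (nat_lit 0) (nat_lit 0) (nat_lit 0x20056d4f2) (nat_lit 268435456),
  Rx.mk (nat_lit 367) (nat_lit 7) (nat_lit 5) (nat_lit 5) (nat_lit 7) (nat_lit 251) (nat_lit 253) r7_251 r8_253 (nat_lit 0) (nat_lit 0) (nat_lit 0) (nat_lit 0x20056d4f2) (nat_lit 268435456),
  Rx.mk (nat_lit 372) (nat_lit 4) (nat_lit 6) (nat_lit 5) (nat_lit 6) (nat_lit 252) (nat_lit 254) r7_252 r8_254 (nat_lit 9484367) (nat_lit 0) (nat_lit 0) (nat_lit 0x20056d4f2) (nat_lit 277919823),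
  Rx.mk (nat_lit 373) (nat_lit 5) (nat_lit 6) (nat_lit 5) (nat_lit 7) (nat_lit 253) (nat_lit 255) r7_253 r8_255 (nat_lit 0) (nat_lit 0) (nat_lit 0) (nat_lit 0x20056d4f2) (nat_lit 268435456),
  Rx.mk (nat_lit 374) (nat_lit 6) (nat_lit 6) (nat_lit 5) (nat_lit 7) (nat_lit 254) (nat_lit 256) r7_254 r8_256 (nat_lit 0) (nat_lit 0) (nat_lit 0) (nat_lit 0x20056d4f2) (nat_lit 268435456)]
noncomputable def e25_17 : List Rx := [
  Rx.mk (nat_lit 292) (nat_lit 4) (nat_lit 4) (nat_lit 4) (nat_lit 0) (nat_lit 204) (nat_lit 170) r7_204 r9_170 (nat_lit 4361725) (nat_lit 3153757) (nat_lit 3803068) (nat_lit 0xe7b965fa) (nat_lit 577519756),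
  Rx.mk (nat_lit 295) (nat_lit 7) (nat_lit 4) (nat_lit 4) (nat_lit 1) (nat_lit 207) (nat_lit 176) r7_207 r9_176 (nat_lit 0) (nat_lit 13011083) (nat_lit 10313512) (nat_lit 0x1a14cc85e) (nat_lit 392497401),
  Rx.mk (nat_lit 308) (nat_lit 4) (nat_lit 6) (nat_lit 4) (nat_lit 2) (nat_lit 210) (nat_lit 172) r7_210 r9_172 (nat_lit 10111158) (nat_lit 0) (nat_lit 11171727) (nat_lit 0x1909dc81e) (nat_lit 408167991),
  Rx.mk (nat_lit 310) (nat_lit 6) (nat_lit 6) (nat_lit 4) (nat_lit 3) (nat_lit 213) (nat_lit 180) r7_213 r9_180 (nat_lit 0) (nat_lit 0) (nat_lit 9484367) (nat_lit 0x1fd5c6abe) (nat_lit 281030323),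
  Rx.mk (nat_lit 356) (nat_lit 4) (nat_lit 4) (nat_lit 5) (nat_lit 4) (nat_lit 205) (nat_lit 171) r7_205 r9_171 (nat_lit 12267734) (nat_lit 11132797) (nat_lit 0) (nat_lit 0x1880761f6) (nat_lit 419405787),
  Rx.mk (nat_lit 357) (nat_lit 5) (nat_lit 4) (nat_lit 5) (nat_lit 5) (nat_lit 206) (nat_lit 174) r7_206 r9_174 (nat_lit 0) (nat_lit 9484367) (nat_lit 0) (nat_lit 0x20056d4f2) (nat_lit 277919823),
  Rx.mk (nat_lit 359) (nat_lit 7) (nat_lit 4) (nat_lit 5) (nat_lit 5) (nat_lit 208) (nat_lit 177) r7_208 r9_177 (nat_lit 0) (nat_lit 9484367) (nat_lit 0) (nat_lit 0x20056d4f2) (nat_lit 277919823),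
  Rx.mk (nat_lit 372) (nat_lit 4) (nat_lit 6) (nat_lit 5) (nat_lit 6) (nat_lit 211) (nat_lit 173) r7_211 r9_173 (nat_lit 9484367) (nat_lit 0) (nat_lit 0) (nat_lit 0x20056d4f2) (nat_lit 277919823),
  Rx.mk (nat_lit 373) (nat_lit 5) (nat_lit 6) (nat_lit 5) (nat_lit 7) (nat_lit 212) (nat_lit 175) r7_212 r9_175 (nat_lit 0) (nat_lit 0) (nat_lit 0) (nat_lit 0x20056d4f2) (nat_lit 268435456),
  Rx.mk (nat_lit 374) (nat_lit 6) (nat_lit 6) (nat_lit 5) (nat_lit 7) (nat_lit 214) (nat_lit 181) r7_214 r9_181 (nat_lit 0) (nat_lit 0) (nat_lit 0) (nat_lit 0x20056d4f2) (nat_lit 268435456),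
  Rx.mk (nat_lit 438) (nat_lit 6) (nat_lit 6) (nat_lit 6) (nat_lit 7) (nat_lit 215) (nat_lit 182) r7_215 r9_182 (nat_lit 0) (nat_lit 0) (nat_lit 0) (nat_lit 0x20056d4f2) (nat_lit 268435456),
  Rx.mk (nat_lit 487) (nat_lit 7) (nat_lit 4) (nat_lit 7) (nat_lit 5) (nat_lit 209) (nat_lit 178) r7_209 r9_178 (nat_lit 0) (nat_lit 9484367) (nat_lit 0) (nat_lit 0x20056d4f2) (nat_lit 277919823),
  Rx.mk (nat_lit 511) (nat_lit 7) (nat_lit 7) (nat_lit 7) (nat_lit 7) (nat_lit 216) (nat_lit 179) r7_216 r9_179 (nat_lit 0) (nat_lit 0) (nat_lit 0) (nat_lit 0x20056d4f2) (nat_lit 268435456)]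
noncomputable def e25_18 : List Rx := [
  Rx.mk (nat_lit 100) (nat_lit 4) (nat_lit 4) (nat_lit 1) (nat_lit 4) (nat_lit 223) (nat_lit 265) r7_223 r4_265 (nat_lit 9833742) (nat_lit 11185874) (nat_lit 0) (nat_lit 0x1c93abff6) (nat_lit 347782772),
  Rx.mk (nat_lit 101) (nat_lit 5) (nat_lit 4) (nat_lit 1) (nat_lit 5) (nat_lit 224) (nat_lit 266) r7_224 r4_266 (nat_lit 0) (nat_lit 9484367) (nat_lit 0) (nat_lit 0x20056d4f2) (nat_lit 277919823),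
  Rx.mk (nat_lit 103) (nat_lit 7) (nat_lit 4) (nat_lit 1) (nat_lit 5) (nat_lit 225) (nat_lit 267) r7_225 r4_267 (nat_lit 0) (nat_lit 7262151) (nat_lit 0) (nat_lit 0x202830002) (nat_lit 273435607),
  Rx.mk (nat_lit 108) (nat_lit 4) (nat_lit 5) (nat_lit 1) (nat_lit 6) (nat_lit 226) (nat_lit 268) r7_226 r4_268 (nat_lit 7236911) (nat_lit 0) (nat_lit 0) (nat_lit 0x2024f415e) (nat_lit 273617967),
  Rx.mk (nat_lit 109) (nat_lit 5) (nat_lit 5) (nat_lit 1) (nat_lit 7) (nat_lit 227) (nat_lit 269) r7_227 r4_269 (nat_lit 0) (nat_lit 0) (nat_lit 0) (nat_lit 0x20056d4f2) (nat_lit 268435456),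
  Rx.mk (nat_lit 111) (nat_lit 7) (nat_lit 5) (nat_lit 1) (nat_lit 7) (nat_lit 228) (nat_lit 270) r7_228 r4_270 (nat_lit 0) (nat_lit 0) (nat_lit 0) (nat_lit 0x20056d4f2) (nat_lit 268435456)]
noncomputable def e25_19 : List Rx := [
  Rx.mk (nat_lit 100) (nat_lit 4) (nat_lit 4) (nat_lit 1) (nat_lit 4) (nat_lit 255) (nat_lit 183) r7_255 r10_183 (nat_lit 2412682) (nat_lit 3623461) (nat_lit 0) (nat_lit 0x1b6a7120e) (nat_lit 352500749),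
  Rx.mk (nat_lit 101) (nat_lit 5) (nat_lit 4) (nat_lit 1) (nat_lit 5) (nat_lit 256) (nat_lit 185) r7_256 r10_185 (nat_lit 0) (nat_lit 6317275) (nat_lit 0) (nat_lit 0x201d9ccf8) (nat_lit 273168531),
  Rx.mk (nat_lit 103) (nat_lit 7) (nat_lit 4) (nat_lit 1) (nat_lit 5) (nat_lit 257) (nat_lit 187) r7_257 r10_187 (nat_lit 0) (nat_lit 6317275) (nat_lit 0) (nat_lit 0x201d9ccf8) (nat_lit 273168531),
  Rx.mk (nat_lit 108) (nat_lit 4) (nat_lit 5) (nat_lit 1) (nat_lit 6) (nat_lit 259) (nat_lit 184) r7_259 r10_184 (nat_lit 5997010) (nat_lit 0) (nat_lit 0) (nat_lit 0x1fd77613e) (nat_lit 277419766),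
  Rx.mk (nat_lit 109) (nat_lit 5) (nat_lit 5) (nat_lit 1) (nat_lit 7) (nat_lit 260) (nat_lit 186) r7_260 r10_186 (nat_lit 0) (nat_lit 0) (nat_lit 0) (nat_lit 0x20056d4f2) (nat_lit 268435456),
  Rx.mk (nat_lit 111) (nat_lit 7) (nat_lit 5) (nat_lit 1) (nat_lit 7) (nat_lit 261) (nat_lit 189) r7_261 r10_189 (nat_lit 0) (nat_lit 0) (nat_lit 0) (nat_lit 0x20056d4f2) (nat_lit 268435456),
  Rx.mk (nat_lit 359) (nat_lit 7) (nat_lit 4) (nat_lit 5) (nat_lit 5) (nat_lit 258) (nat_lit 188) r7_258 r10_188 (nat_lit 0) (nat_lit 10225910) (nat_lit 0) (nat_lit 0x1ff76c8d0) (nat_lit 279572466),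
  Rx.mk (nat_lit 367) (nat_lit 7) (nat_lit 5) (nat_lit 5) (nat_lit 7) (nat_lit 262) (nat_lit 190) r7_262 r10_190 (nat_lit 0) (nat_lit 0) (nat_lit 0) (nat_lit 0x20056d4f2) (nat_lit 268435456)]
noncomputable def e25_20 : List Rx := [
  Rx.mk (nat_lit 100) (nat_lit 4) (nat_lit 4) (nat_lit 1) (nat_lit 4) (nat_lit 263) (nat_lit 212) r7_263 r11_212 (nat_lit 37534727) (nat_lit 13980483) (nat_lit 0) (nat_lit 0x1e7b17aba) (nat_lit 345961816),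
  Rx.mk (nat_lit 101) (nat_lit 5) (nat_lit 4) (nat_lit 1) (nat_lit 5) (nat_lit 264) (nat_lit 214) r7_264 r11_214 (nat_lit 0) (nat_lit 9484367) (nat_lit 0) (nat_lit 0x20056d4f2) (nat_lit 277919823),
  Rx.mk (nat_lit 103) (nat_lit 7) (nat_lit 4) (nat_lit 1) (nat_lit 5) (nat_lit 265) (nat_lit 216) r7_265 r11_216 (nat_lit 0) (nat_lit 9484367) (nat_lit 0) (nat_lit 0x20056d4f2) (nat_lit 277919823),
  Rx.mk (nat_lit 108) (nat_lit 4) (nat_lit 5) (nat_lit 1) (nat_lit 6) (nat_lit 266) (nat_lit 213) r7_266 r11_213 (nat_lit 9484367) (nat_lit 0) (nat_lit 0) (nat_lit 0x20056d4f2) (nat_lit 277919823),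
  Rx.mk (nat_lit 109) (nat_lit 5) (nat_lit 5) (nat_lit 1) (nat_lit 7) (nat_lit 267) (nat_lit 215) r7_267 r11_215 (nat_lit 0) (nat_lit 0) (nat_lit 0) (nat_lit 0x20056d4f2) (nat_lit 268435456),
  Rx.mk (nat_lit 111) (nat_lit 7) (nat_lit 5) (nat_lit 1) (nat_lit 7) (nat_lit 268) (nat_lit 217) r7_268 r11_217 (nat_lit 0) (nat_lit 0) (nat_lit 0) (nat_lit 0x20056d4f2) (nat_lit 268435456),
  Rx.mk (nat_lit 127) (nat_lit 7) (nat_lit 7) (nat_lit 1) (nat_lit 7) (nat_lit 269) (nat_lit 218) r7_269 r11_218 (nat_lit 0) (nat_lit 0) (nat_lit 0) (nat_lit 0x20056d4f2) (nat_lit 268435456)]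
noncomputable def e25_21 : List Rx := [
  Rx.mk (nat_lit 292) (nat_lit 4) (nat_lit 4) (nat_lit 4) (nat_lit 0) (nat_lit 161) (nat_lit 68) r7_161 r9_68 (nat_lit 9146340) (nat_lit 1909453) (nat_lit 2680125) (nat_lit 0xd8e0cdac) (nat_lit 595695424),
  Rx.mk (nat_lit 295) (nat_lit 7) (nat_lit 4) (nat_lit 4) (nat_lit 1) (nat_lit 163) (nat_lit 70) r7_163 r9_70 (nat_lit 0) (nat_lit 13438367) (nat_lit 10245589) (nat_lit 0x19e910396) (nat_lit 395759412),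
  Rx.mk (nat_lit 308) (nat_lit 4) (nat_lit 6) (nat_lit 4) (nat_lit 2) (nat_lit 166) (nat_lit 74) r7_166 r9_74 (nat_lit 13616542) (nat_lit 0) (nat_lit 11056457) (nat_lit 0x17b1c14be) (nat_lit 434394355),
  Rx.mk (nat_lit 310) (nat_lit 6) (nat_lit 6) (nat_lit 4) (nat_lit 3) (nat_lit 168) (nat_lit 79) r7_168 r9_79 (nat_lit 0) (nat_lit 0) (nat_lit 9484367) (nat_lit 0x1fb67f214) (nat_lit 283080423),
  Rx.mk (nat_lit 311) (nat_lit 7) (nat_lit 6) (nat_lit 4) (nat_lit 3) (nat_lit 171) (nat_lit 76) r7_171 r9_76 (nat_lit 0) (nat_lit 0) (nat_lit 9484367) (nat_lit 0x1ff04690c) (nat_lit 279297123),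
  Rx.mk (nat_lit 356) (nat_lit 4) (nat_lit 4) (nat_lit 5) (nat_lit 4) (nat_lit 162) (nat_lit 69) r7_162 r9_69 (nat_lit 10619100) (nat_lit 13489230) (nat_lit 0) (nat_lit 0x176e3a3da) (nat_lit 438312186),
  Rx.mk (nat_lit 359) (nat_lit 7) (nat_lit 4) (nat_lit 5) (nat_lit 5) (nat_lit 164) (nat_lit 71) r7_164 r9_71 (nat_lit 0) (nat_lit 9484367) (nat_lit 0) (nat_lit 0x20056d4f2) (nat_lit 277919823),
  Rx.mk (nat_lit 372) (nat_lit 4) (nat_lit 6) (nat_lit 5) (nat_lit 6) (nat_lit 167) (nat_lit 75) r7_167 r9_75 (nat_lit 9484367) (nat_lit 0) (nat_lit 0) (nat_lit 0x20056d4f2) (nat_lit 277919823),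
  Rx.mk (nat_lit 374) (nat_lit 6) (nat_lit 6) (nat_lit 5) (nat_lit 7) (nat_lit 169) (nat_lit 80) r7_169 r9_80 (nat_lit 0) (nat_lit 0) (nat_lit 0) (nat_lit 0x20056d4f2) (nat_lit 268435456),
  Rx.mk (nat_lit 375) (nat_lit 7) (nat_lit 6) (nat_lit 5) (nat_lit 7) (nat_lit 172) (nat_lit 77) r7_172 r9_77 (nat_lit 0) (nat_lit 0) (nat_lit 0) (nat_lit 0x20056d4f2) (nat_lit 268435456),
  Rx.mk (nat_lit 406) (nat_lit 6) (nat_lit 2) (nat_lit 6) (nat_lit 7) (nat_lit 160) (nat_lit 82) r7_160 r9_82 (nat_lit 0) (nat_lit 0) (nat_lit 0) (nat_lit 0x20056d4f2) (nat_lit 268435456),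
  Rx.mk (nat_lit 438) (nat_lit 6) (nat_lit 6) (nat_lit 6) (nat_lit 7) (nat_lit 170) (nat_lit 81) r7_170 r9_81 (nat_lit 0) (nat_lit 0) (nat_lit 0) (nat_lit 0x20056d4f2) (nat_lit 268435456),
  Rx.mk (nat_lit 487) (nat_lit 7) (nat_lit 4) (nat_lit 7) (nat_lit 5) (nat_lit 165) (nat_lit 72) r7_165 r9_72 (nat_lit 0) (nat_lit 8921268) (nat_lit 0) (nat_lit 0x1fef92f60) (nat_lit 278779924),
  Rx.mk (nat_lit 503) (nat_lit 7) (nat_lit 6) (nat_lit 7) (nat_lit 7) (nat_lit 173) (nat_lit 78) r7_173 r9_78 (nat_lit 0) (nat_lit 0) (nat_lit 0) (nat_lit 0x20056d4f2) (nat_lit 268435456),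
  Rx.mk (nat_lit 511) (nat_lit 7) (nat_lit 7) (nat_lit 7) (nat_lit 7) (nat_lit 174) (nat_lit 73) r7_174 r9_73 (nat_lit 0) (nat_lit 0) (nat_lit 0) (nat_lit 0x20056d4f2) (nat_lit 268435456)]
noncomputable def e25_22 : List Rx := [
  Rx.mk (nat_lit 24) (nat_lit 0) (nat_lit 3) (nat_lit 0) (nat_lit 2) (nat_lit 96) (nat_lit 100) r7_96 r0_100 (nat_lit 10175790) (nat_lit 0) (nat_lit 4635726) (nat_lit 0x1840136ea) (nat_lit 415072972),
  Rx.mk (nat_lit 27) (nat_lit 3) (nat_lit 3) (nat_lit 0) (nat_lit 3) (nat_lit 99) (nat_lit 101) r7_99 r0_101 (nat_lit 0) (nat_lit 0) (nat_lit 4240931) (nat_lit 0x1bf1985a2) (nat_lit 341762337),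
  Rx.mk (nat_lit 128) (nat_lit 0) (nat_lit 0) (nat_lit 2) (nat_lit 4) (nat_lit 93) (nat_lit 105) r7_93 r0_105 (nat_lit 991673) (nat_lit 121405) (nat_lit 0) (nat_lit 0x190ff0958) (nat_lit 387448234),
  Rx.mk (nat_lit 130) (nat_lit 2) (nat_lit 0) (nat_lit 2) (nat_lit 5) (nat_lit 94) (nat_lit 108) r7_94 r0_108 (nat_lit 0) (nat_lit 4501915) (nat_lit 0) (nat_lit 0x1cfdf132a) (nat_lit 324222321),
  Rx.mk (nat_lit 146) (nat_lit 2) (nat_lit 2) (nat_lit 2) (nat_lit 7) (nat_lit 95) (nat_lit 110) r7_95 r0_110 (nat_lit 0) (nat_lit 0) (nat_lit 0) (nat_lit 0x1fe8175a6) (nat_lit 270347556),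
  Rx.mk (nat_lit 152) (nat_lit 0) (nat_lit 3) (nat_lit 2) (nat_lit 6) (nat_lit 97) (nat_lit 106) r7_97 r0_106 (nat_lit 27844967) (nat_lit 0) (nat_lit 0) (nat_lit 0x1fd250a9c) (nat_lit 299584973),
  Rx.mk (nat_lit 154) (nat_lit 2) (nat_lit 3) (nat_lit 2) (nat_lit 7) (nat_lit 98) (nat_lit 109) r7_98 r0_109 (nat_lit 0) (nat_lit 0) (nat_lit 0) (nat_lit 0x20249e1b4) (nat_lit 266405506),
  Rx.mk (nat_lit 155) (nat_lit 3) (nat_lit 3) (nat_lit 2) (nat_lit 7) (nat_lit 100) (nat_lit 107) r7_100 r0_107 (nat_lit 0) (nat_lit 0) (nat_lit 0) (nat_lit 0x1fe528a70) (nat_lit 270533656),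
  Rx.mk (nat_lit 219) (nat_lit 3) (nat_lit 3) (nat_lit 3) (nat_lit 7) (nat_lit 101) (nat_lit 102) r7_101 r0_102 (nat_lit 0) (nat_lit 0) (nat_lit 0) (nat_lit 0x1efe441c2) (nat_lit 285762006),
  Rx.mk (nat_lit 251) (nat_lit 3) (nat_lit 7) (nat_lit 3) (nat_lit 7) (nat_lit 102) (nat_lit 103) r7_102 r0_103 (nat_lit 0) (nat_lit 0) (nat_lit 0) (nat_lit 0x20056d4f2) (nat_lit 268435456),
  Rx.mk (nat_lit 255) (nat_lit 7) (nat_lit 7) (nat_lit 3) (nat_lit 7) (nat_lit 103) (nat_lit 104) r7_103 r0_104 (nat_lit 0) (nat_lit 0) (nat_lit 0) (nat_lit 0x20055e1a0) (nat_lit 268437306)]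
noncomputable def e25_23 : List Rx := [
  Rx.mk (nat_lit 0) (nat_lit 0) (nat_lit 0) (nat_lit 0) (nat_lit 0) (nat_lit 126) (nat_lit 107) r7_126 r1_107 (nat_lit 4920335) (nat_lit 745275) (nat_lit 1141544) (nat_lit 0x109a327e6) (nat_lit 536953810),
  Rx.mk (nat_lit 24) (nat_lit 0) (nat_lit 3) (nat_lit 0) (nat_lit 2) (nat_lit 130) (nat_lit 108) r7_130 r1_108 (nat_lit 34669275) (nat_lit 0) (nat_lit 14689334) (nat_lit 0x1dc530cc4) (nat_lit 355866165),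
  Rx.mk (nat_lit 27) (nat_lit 3) (nat_lit 3) (nat_lit 0) (nat_lit 3) (nat_lit 133) (nat_lit 109) r7_133 r1_109 (nat_lit 0) (nat_lit 0) (nat_lit 8870652) (nat_lit 0x1fc54f38e) (nat_lit 281480458),
  Rx.mk (nat_lit 128) (nat_lit 0) (nat_lit 0) (nat_lit 2) (nat_lit 4) (nat_lit 127) (nat_lit 111) r7_127 r1_111 (nat_lit 1363821) (nat_lit 648751) (nat_lit 0) (nat_lit 0x196197c66) (nat_lit 383004978),
  Rx.mk (nat_lit 130) (nat_lit 2) (nat_lit 0) (nat_lit 2) (nat_lit 5) (nat_lit 128) (nat_lit 114) r7_128 r1_114 (nat_lit 0) (nat_lit 4901484) (nat_lit 0) (nat_lit 0x1e15b6d9c) (nat_lit 306066590),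
  Rx.mk (nat_lit 146) (nat_lit 2) (nat_lit 2) (nat_lit 2) (nat_lit 7) (nat_lit 129) (nat_lit 116) r7_129 r1_116 (nat_lit 0) (nat_lit 0) (nat_lit 0) (nat_lit 0x20056d4f2) (nat_lit 268435456),
  Rx.mk (nat_lit 152) (nat_lit 0) (nat_lit 3) (nat_lit 2) (nat_lit 6) (nat_lit 131) (nat_lit 112) r7_131 r1_112 (nat_lit 11532138) (nat_lit 0) (nat_lit 0) (nat_lit 0x200c99f0a) (nat_lit 279487844),
  Rx.mk (nat_lit 154) (nat_lit 2) (nat_lit 3) (nat_lit 2) (nat_lit 7) (nat_lit 132) (nat_lit 115) r7_132 r1_115 (nat_lit 0) (nat_lit 0) (nat_lit 0) (nat_lit 0x20056d4f2) (nat_lit 268435456),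
  Rx.mk (nat_lit 155) (nat_lit 3) (nat_lit 3) (nat_lit 2) (nat_lit 7) (nat_lit 134) (nat_lit 113) r7_134 r1_113 (nat_lit 0) (nat_lit 0) (nat_lit 0) (nat_lit 0x204560096) (nat_lit 264283306),
  Rx.mk (nat_lit 219) (nat_lit 3) (nat_lit 3) (nat_lit 3) (nat_lit 7) (nat_lit 135) (nat_lit 110) r7_135 r1_110 (nat_lit 0) (nat_lit 0) (nat_lit 0) (nat_lit 0x20056d4f2) (nat_lit 268435456)]
noncomputable def e25_24 : List Rx := [
  Rx.mk (nat_lit 24) (nat_lit 0) (nat_lit 3) (nat_lit 0) (nat_lit 2) (nat_lit 175) (nat_lit 98) r7_175 r4_98 (nat_lit 14706363) (nat_lit 0) (nat_lit 2266560) (nat_lit 0x17dee144e) (nat_lit 423669329),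
  Rx.mk (nat_lit 27) (nat_lit 3) (nat_lit 3) (nat_lit 0) (nat_lit 3) (nat_lit 178) (nat_lit 99) r7_178 r4_99 (nat_lit 0) (nat_lit 0) (nat_lit 3138540) (nat_lit 0x1e48aaf0a) (nat_lit 300903146),
  Rx.mk (nat_lit 59) (nat_lit 3) (nat_lit 7) (nat_lit 0) (nat_lit 3) (nat_lit 181) (nat_lit 100) r7_181 r4_100 (nat_lit 0) (nat_lit 0) (nat_lit 5139472) (nat_lit 0x2059555ba) (nat_lit 268128028),
  Rx.mk (nat_lit 152) (nat_lit 0) (nat_lit 3) (nat_lit 2) (nat_lit 6) (nat_lit 176) (nat_lit 104) r7_176 r4_104 (nat_lit 16012508) (nat_lit 0) (nat_lit 0) (nat_lit 0x1fe4a6b9c) (nat_lit 286568564),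
  Rx.mk (nat_lit 154) (nat_lit 2) (nat_lit 3) (nat_lit 2) (nat_lit 7) (nat_lit 177) (nat_lit 106) r7_177 r4_106 (nat_lit 0) (nat_lit 0) (nat_lit 0) (nat_lit 0x20056d4f2) (nat_lit 268435456),
  Rx.mk (nat_lit 155) (nat_lit 3) (nat_lit 3) (nat_lit 2) (nat_lit 7) (nat_lit 179) (nat_lit 105) r7_179 r4_105 (nat_lit 0) (nat_lit 0) (nat_lit 0) (nat_lit 0x216fc711c) (nat_lit 245117756),
  Rx.mk (nat_lit 231) (nat_lit 7) (nat_lit 4) (nat_lit 3) (nat_lit 5) (nat_lit 180) (nat_lit 102) r7_180 r4_102 (nat_lit 0) (nat_lit 4579434) (nat_lit 0) (nat_lit 0x20687f63a) (nat_lit 266591390),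
  Rx.mk (nat_lit 251) (nat_lit 3) (nat_lit 7) (nat_lit 3) (nat_lit 7) (nat_lit 182) (nat_lit 101) r7_182 r4_101 (nat_lit 0) (nat_lit 0) (nat_lit 0) (nat_lit 0x20056d4f2) (nat_lit 268435456),
  Rx.mk (nat_lit 255) (nat_lit 7) (nat_lit 7) (nat_lit 3) (nat_lit 7) (nat_lit 183) (nat_lit 103) r7_183 r4_103 (nat_lit 0) (nat_lit 0) (nat_lit 0) (nat_lit 0x20056d4f2) (nat_lit 268435456)]
noncomputable def e25_25 : List Rx := [
  Rx.mk (nat_lit 24) (nat_lit 0) (nat_lit 3) (nat_lit 0) (nat_lit 2) (nat_lit 109) (nat_lit 117) r7_109 r7_117 (nat_lit 152835) (nat_lit 0) (nat_lit 112250) (nat_lit 0x1948ab20c) (nat_lit 382839841),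
  Rx.mk (nat_lit 27) (nat_lit 3) (nat_lit 3) (nat_lit 0) (nat_lit 3) (nat_lit 112) (nat_lit 119) r7_112 r7_119 (nat_lit 0) (nat_lit 0) (nat_lit 1225740) (nat_lit 0x1dff9a540) (nat_lit 303823346),
  Rx.mk (nat_lit 128) (nat_lit 0) (nat_lit 0) (nat_lit 2) (nat_lit 4) (nat_lit 104) (nat_lit 115) r7_104 r7_115 (nat_lit 152835) (nat_lit 112250) (nat_lit 0) (nat_lit 0x1948ab20c) (nat_lit 382839841),
  Rx.mk (nat_lit 130) (nat_lit 2) (nat_lit 0) (nat_lit 2) (nat_lit 5) (nat_lit 105) (nat_lit 116) r7_105 r7_116 (nat_lit 0) (nat_lit 1225740) (nat_lit 0) (nat_lit 0x1dff9a540) (nat_lit 303823346),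
  Rx.mk (nat_lit 146) (nat_lit 2) (nat_lit 2) (nat_lit 2) (nat_lit 7) (nat_lit 106) (nat_lit 125) r7_106 r7_125 (nat_lit 0) (nat_lit 0) (nat_lit 0) (nat_lit 0x20056d4f2) (nat_lit 268435456),
  Rx.mk (nat_lit 152) (nat_lit 0) (nat_lit 3) (nat_lit 2) (nat_lit 6) (nat_lit 110) (nat_lit 118) r7_110 r7_118 (nat_lit 3174667) (nat_lit 0) (nat_lit 0) (nat_lit 0x1dc8a5c24) (nat_lit 309432373),
  Rx.mk (nat_lit 154) (nat_lit 2) (nat_lit 3) (nat_lit 2) (nat_lit 7) (nat_lit 111) (nat_lit 122) r7_111 r7_122 (nat_lit 0) (nat_lit 0) (nat_lit 0) (nat_lit 0x209c5efb4) (nat_lit 258674606),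
  Rx.mk (nat_lit 155) (nat_lit 3) (nat_lit 3) (nat_lit 2) (nat_lit 7) (nat_lit 113) (nat_lit 121) r7_113 r7_121 (nat_lit 0) (nat_lit 0) (nat_lit 0) (nat_lit 0x209c5efb4) (nat_lit 258674606),
  Rx.mk (nat_lit 219) (nat_lit 3) (nat_lit 3) (nat_lit 3) (nat_lit 7) (nat_lit 114) (nat_lit 120) r7_114 r7_120 (nat_lit 0) (nat_lit 0) (nat_lit 0) (nat_lit 0x20056d4f2) (nat_lit 268435456),
  Rx.mk (nat_lit 251) (nat_lit 3) (nat_lit 7) (nat_lit 3) (nat_lit 7) (nat_lit 123) (nat_lit 108) r7_123 r7_108 (nat_lit 0) (nat_lit 0) (nat_lit 0) (nat_lit 0x20056d4f2) (nat_lit 268435456),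
  Rx.mk (nat_lit 255) (nat_lit 7) (nat_lit 7) (nat_lit 3) (nat_lit 7) (nat_lit 124) (nat_lit 107) r7_124 r7_107 (nat_lit 0) (nat_lit 0) (nat_lit 0) (nat_lit 0x20056d4f2) (nat_lit 268435456),
  Rx.mk (nat_lit 308) (nat_lit 4) (nat_lit 6) (nat_lit 4) (nat_lit 2) (nat_lit 117) (nat_lit 109) r7_117 r7_109 (nat_lit 152835) (nat_lit 0) (nat_lit 112250) (nat_lit 0x1948ab20c) (nat_lit 382839841),
  Rx.mk (nat_lit 310) (nat_lit 6) (nat_lit 6) (nat_lit 4) (nat_lit 3) (nat_lit 119) (nat_lit 112) r7_119 r7_112 (nat_lit 0) (nat_lit 0) (nat_lit 1225740) (nat_lit 0x1dff9a540) (nat_lit 303823346),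
  Rx.mk (nat_lit 402) (nat_lit 2) (nat_lit 2) (nat_lit 6) (nat_lit 7) (nat_lit 107) (nat_lit 124) r7_107 r7_124 (nat_lit 0) (nat_lit 0) (nat_lit 0) (nat_lit 0x20056d4f2) (nat_lit 268435456),
  Rx.mk (nat_lit 406) (nat_lit 6) (nat_lit 2) (nat_lit 6) (nat_lit 7) (nat_lit 108) (nat_lit 123) r7_108 r7_123 (nat_lit 0) (nat_lit 0) (nat_lit 0) (nat_lit 0x20056d4f2) (nat_lit 268435456),
  Rx.mk (nat_lit 438) (nat_lit 6) (nat_lit 6) (nat_lit 6) (nat_lit 7) (nat_lit 120) (nat_lit 114) r7_120 r7_114 (nat_lit 0) (nat_lit 0) (nat_lit 0) (nat_lit 0x20056d4f2) (nat_lit 268435456),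
  Rx.mk (nat_lit 484) (nat_lit 4) (nat_lit 4) (nat_lit 7) (nat_lit 4) (nat_lit 115) (nat_lit 104) r7_115 r7_104 (nat_lit 152835) (nat_lit 112250) (nat_lit 0) (nat_lit 0x1948ab20c) (nat_lit 382839841),
  Rx.mk (nat_lit 487) (nat_lit 7) (nat_lit 4) (nat_lit 7) (nat_lit 5) (nat_lit 116) (nat_lit 105) r7_116 r7_105 (nat_lit 0) (nat_lit 1225740) (nat_lit 0) (nat_lit 0x1dff9a540) (nat_lit 303823346),
  Rx.mk (nat_lit 500) (nat_lit 4) (nat_lit 6) (nat_lit 7) (nat_lit 6) (nat_lit 118) (nat_lit 110) r7_118 r7_110 (nat_lit 3174667) (nat_lit 0) (nat_lit 0) (nat_lit 0x1dc8a5c24) (nat_lit 309432373),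
  Rx.mk (nat_lit 502) (nat_lit 6) (nat_lit 6) (nat_lit 7) (nat_lit 7) (nat_lit 121) (nat_lit 113) r7_121 r7_113 (nat_lit 0) (nat_lit 0) (nat_lit 0) (nat_lit 0x209c5efb4) (nat_lit 258674606),
  Rx.mk (nat_lit 503) (nat_lit 7) (nat_lit 6) (nat_lit 7) (nat_lit 7) (nat_lit 122) (nat_lit 111) r7_122 r7_111 (nat_lit 0) (nat_lit 0) (nat_lit 0) (nat_lit 0x209c5efb4) (nat_lit 258674606),
  Rx.mk (nat_lit 511) (nat_lit 7) (nat_lit 7) (nat_lit 7) (nat_lit 7) (nat_lit 125) (nat_lit 106) r7_125 r7_106 (nat_lit 0) (nat_lit 0) (nat_lit 0) (nat_lit 0x20056d4f2) (nat_lit 268435456)]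
noncomputable def e25_26 : List Rx := [
  Rx.mk (nat_lit 0) (nat_lit 0) (nat_lit 0) (nat_lit 0) (nat_lit 0) (nat_lit 136) (nat_lit 78) r7_136 r8_78 (nat_lit 7198289) (nat_lit 2733102) (nat_lit 2425005) (nat_lit 0xe238fa28) (nat_lit 584393802),
  Rx.mk (nat_lit 24) (nat_lit 0) (nat_lit 3) (nat_lit 0) (nat_lit 2) (nat_lit 142) (nat_lit 81) r7_142 r8_81 (nat_lit 2929309) (nat_lit 0) (nat_lit 3122194) (nat_lit 0x1a0760b20) (nat_lit 376091909),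
  Rx.mk (nat_lit 27) (nat_lit 3) (nat_lit 3) (nat_lit 0) (nat_lit 3) (nat_lit 145) (nat_lit 83) r7_145 r8_83 (nat_lit 0) (nat_lit 0) (nat_lit 10791901) (nat_lit 0x1f986bbb0) (nat_lit 286357257),
  Rx.mk (nat_lit 128) (nat_lit 0) (nat_lit 0) (nat_lit 2) (nat_lit 4) (nat_lit 137) (nat_lit 79) r7_137 r8_79 (nat_lit 9749284) (nat_lit 7126275) (nat_lit 0) (nat_lit 0x19f2f17ca) (nat_lit 388291215),
  Rx.mk (nat_lit 130) (nat_lit 2) (nat_lit 0) (nat_lit 2) (nat_lit 5) (nat_lit 138) (nat_lit 80) r7_138 r8_80 (nat_lit 0) (nat_lit 4537940) (nat_lit 0) (nat_lit 0x1fda0b7c8) (nat_lit 275782896),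
  Rx.mk (nat_lit 146) (nat_lit 2) (nat_lit 2) (nat_lit 2) (nat_lit 7) (nat_lit 139) (nat_lit 89) r7_139 r8_89 (nat_lit 0) (nat_lit 0) (nat_lit 0) (nat_lit 0x20056d4f2) (nat_lit 268435456),
  Rx.mk (nat_lit 152) (nat_lit 0) (nat_lit 3) (nat_lit 2) (nat_lit 6) (nat_lit 143) (nat_lit 82) r7_143 r8_82 (nat_lit 9484367) (nat_lit 0) (nat_lit 0) (nat_lit 0x20056d4f2) (nat_lit 277919823),
  Rx.mk (nat_lit 154) (nat_lit 2) (nat_lit 3) (nat_lit 2) (nat_lit 7) (nat_lit 144) (nat_lit 86) r7_144 r8_86 (nat_lit 0) (nat_lit 0) (nat_lit 0) (nat_lit 0x20056d4f2) (nat_lit 268435456),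
  Rx.mk (nat_lit 155) (nat_lit 3) (nat_lit 3) (nat_lit 2) (nat_lit 7) (nat_lit 146) (nat_lit 85) r7_146 r8_85 (nat_lit 0) (nat_lit 0) (nat_lit 0) (nat_lit 0x20056d4f2) (nat_lit 268435456),
  Rx.mk (nat_lit 219) (nat_lit 3) (nat_lit 3) (nat_lit 3) (nat_lit 7) (nat_lit 147) (nat_lit 84) r7_147 r8_84 (nat_lit 0) (nat_lit 0) (nat_lit 0) (nat_lit 0x20056d4f2) (nat_lit 268435456),
  Rx.mk (nat_lit 402) (nat_lit 2) (nat_lit 2) (nat_lit 6) (nat_lit 7) (nat_lit 140) (nat_lit 88) r7_140 r8_88 (nat_lit 0) (nat_lit 0) (nat_lit 0) (nat_lit 0x20056d4f2) (nat_lit 268435456),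
  Rx.mk (nat_lit 406) (nat_lit 6) (nat_lit 2) (nat_lit 6) (nat_lit 7) (nat_lit 141) (nat_lit 87) r7_141 r8_87 (nat_lit 0) (nat_lit 0) (nat_lit 0) (nat_lit 0x20056d4f2) (nat_lit 268435456)]
noncomputable def e25_27 : List Rx := [
  Rx.mk (nat_lit 292) (nat_lit 4) (nat_lit 4) (nat_lit 4) (nat_lit 0) (nat_lit 150) (nat_lit 78) r7_150 r8_78 (nat_lit 7198289) (nat_lit 2425005) (nat_lit 2733102) (nat_lit 0xe238fa28) (nat_lit 584393802),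
  Rx.mk (nat_lit 308) (nat_lit 4) (nat_lit 6) (nat_lit 4) (nat_lit 2) (nat_lit 153) (nat_lit 79) r7_153 r8_79 (nat_lit 9749284) (nat_lit 0) (nat_lit 7126275) (nat_lit 0x19f2f17ca) (nat_lit 388291215),
  Rx.mk (nat_lit 310) (nat_lit 6) (nat_lit 6) (nat_lit 4) (nat_lit 3) (nat_lit 155) (nat_lit 80) r7_155 r8_80 (nat_lit 0) (nat_lit 0) (nat_lit 4537940) (nat_lit 0x1fda0b7c8) (nat_lit 275782896),
  Rx.mk (nat_lit 402) (nat_lit 2) (nat_lit 2) (nat_lit 6) (nat_lit 7) (nat_lit 148) (nat_lit 87) r7_148 r8_87 (nat_lit 0) (nat_lit 0) (nat_lit 0) (nat_lit 0x20056d4f2) (nat_lit 268435456),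
  Rx.mk (nat_lit 406) (nat_lit 6) (nat_lit 2) (nat_lit 6) (nat_lit 7) (nat_lit 149) (nat_lit 88) r7_149 r8_88 (nat_lit 0) (nat_lit 0) (nat_lit 0) (nat_lit 0x20056d4f2) (nat_lit 268435456),
  Rx.mk (nat_lit 438) (nat_lit 6) (nat_lit 6) (nat_lit 6) (nat_lit 7) (nat_lit 156) (nat_lit 89) r7_156 r8_89 (nat_lit 0) (nat_lit 0) (nat_lit 0) (nat_lit 0x20056d4f2) (nat_lit 268435456),
  Rx.mk (nat_lit 484) (nat_lit 4) (nat_lit 4) (nat_lit 7) (nat_lit 4) (nat_lit 151) (nat_lit 81) r7_151 r8_81 (nat_lit 2929309) (nat_lit 3122194) (nat_lit 0) (nat_lit 0x1a0760b20) (nat_lit 376091909),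
  Rx.mk (nat_lit 487) (nat_lit 7) (nat_lit 4) (nat_lit 7) (nat_lit 5) (nat_lit 152) (nat_lit 83) r7_152 r8_83 (nat_lit 0) (nat_lit 10791901) (nat_lit 0) (nat_lit 0x1f986bbb0) (nat_lit 286357257),
  Rx.mk (nat_lit 500) (nat_lit 4) (nat_lit 6) (nat_lit 7) (nat_lit 6) (nat_lit 154) (nat_lit 82) r7_154 r8_82 (nat_lit 9484367) (nat_lit 0) (nat_lit 0) (nat_lit 0x20056d4f2) (nat_lit 277919823),
  Rx.mk (nat_lit 502) (nat_lit 6) (nat_lit 6) (nat_lit 7) (nat_lit 7) (nat_lit 157) (nat_lit 86) r7_157 r8_86 (nat_lit 0) (nat_lit 0) (nat_lit 0) (nat_lit 0x20056d4f2) (nat_lit 268435456),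
  Rx.mk (nat_lit 503) (nat_lit 7) (nat_lit 6) (nat_lit 7) (nat_lit 7) (nat_lit 158) (nat_lit 85) r7_158 r8_85 (nat_lit 0) (nat_lit 0) (nat_lit 0) (nat_lit 0x20056d4f2) (nat_lit 268435456),
  Rx.mk (nat_lit 511) (nat_lit 7) (nat_lit 7) (nat_lit 7) (nat_lit 7) (nat_lit 159) (nat_lit 84) r7_159 r8_84 (nat_lit 0) (nat_lit 0) (nat_lit 0) (nat_lit 0x20056d4f2) (nat_lit 268435456)]
noncomputable def e25_28 : List Rx := [
  Rx.mk (nat_lit 24) (nat_lit 0) (nat_lit 3) (nat_lit 0) (nat_lit 2) (nat_lit 184) (nat_lit 91) r7_184 r10_91 (nat_lit 325088) (nat_lit 0) (nat_lit 232378) (nat_lit 0x1b0e244d8) (nat_lit 353060522),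
  Rx.mk (nat_lit 27) (nat_lit 3) (nat_lit 3) (nat_lit 0) (nat_lit 3) (nat_lit 187) (nat_lit 93) r7_187 r10_93 (nat_lit 0) (nat_lit 0) (nat_lit 2535687) (nat_lit 0x1ff5df990) (nat_lit 271959093),
  Rx.mk (nat_lit 59) (nat_lit 3) (nat_lit 7) (nat_lit 0) (nat_lit 3) (nat_lit 195) (nat_lit 86) r7_195 r10_86 (nat_lit 0) (nat_lit 0) (nat_lit 6516949) (nat_lit 0x1fb29d114) (nat_lit 280364355),
  Rx.mk (nat_lit 152) (nat_lit 0) (nat_lit 3) (nat_lit 2) (nat_lit 6) (nat_lit 185) (nat_lit 92) r7_185 r10_92 (nat_lit 3161773) (nat_lit 0) (nat_lit 0) (nat_lit 0x1ef74950c) (nat_lit 289350529),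
  Rx.mk (nat_lit 154) (nat_lit 2) (nat_lit 3) (nat_lit 2) (nat_lit 7) (nat_lit 186) (nat_lit 95) r7_186 r10_95 (nat_lit 0) (nat_lit 0) (nat_lit 0) (nat_lit 0x209fe494a) (nat_lit 258447306),
  Rx.mk (nat_lit 155) (nat_lit 3) (nat_lit 3) (nat_lit 2) (nat_lit 7) (nat_lit 188) (nat_lit 94) r7_188 r10_94 (nat_lit 0) (nat_lit 0) (nat_lit 0) (nat_lit 0x209fe95d0) (nat_lit 258446106),
  Rx.mk (nat_lit 231) (nat_lit 7) (nat_lit 4) (nat_lit 3) (nat_lit 5) (nat_lit 190) (nat_lit 84) r7_190 r10_84 (nat_lit 0) (nat_lit 6516949) (nat_lit 0) (nat_lit 0x1fb29d114) (nat_lit 280364355),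
  Rx.mk (nat_lit 251) (nat_lit 3) (nat_lit 7) (nat_lit 3) (nat_lit 7) (nat_lit 196) (nat_lit 87) r7_196 r10_87 (nat_lit 0) (nat_lit 0) (nat_lit 0) (nat_lit 0x20056d4f2) (nat_lit 268435456),
  Rx.mk (nat_lit 255) (nat_lit 7) (nat_lit 7) (nat_lit 3) (nat_lit 7) (nat_lit 197) (nat_lit 85) r7_197 r10_85 (nat_lit 0) (nat_lit 0) (nat_lit 0) (nat_lit 0x20056d4f2) (nat_lit 268435456),
  Rx.mk (nat_lit 484) (nat_lit 4) (nat_lit 4) (nat_lit 7) (nat_lit 4) (nat_lit 189) (nat_lit 82) r7_189 r10_82 (nat_lit 325088) (nat_lit 232378) (nat_lit 0) (nat_lit 0x1b0e244d8) (nat_lit 353060522),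
  Rx.mk (nat_lit 487) (nat_lit 7) (nat_lit 4) (nat_lit 7) (nat_lit 5) (nat_lit 191) (nat_lit 83) r7_191 r10_83 (nat_lit 0) (nat_lit 2535687) (nat_lit 0) (nat_lit 0x1ff5df990) (nat_lit 271959093),
  Rx.mk (nat_lit 500) (nat_lit 4) (nat_lit 6) (nat_lit 7) (nat_lit 6) (nat_lit 192) (nat_lit 88) r7_192 r10_88 (nat_lit 3161773) (nat_lit 0) (nat_lit 0) (nat_lit 0x1ef74950c) (nat_lit 289350529),
  Rx.mk (nat_lit 502) (nat_lit 6) (nat_lit 6) (nat_lit 7) (nat_lit 7) (nat_lit 193) (nat_lit 90) r7_193 r10_90 (nat_lit 0) (nat_lit 0) (nat_lit 0) (nat_lit 0x209fe494a) (nat_lit 258447306),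
  Rx.mk (nat_lit 503) (nat_lit 7) (nat_lit 6) (nat_lit 7) (nat_lit 7) (nat_lit 194) (nat_lit 89) r7_194 r10_89 (nat_lit 0) (nat_lit 0) (nat_lit 0) (nat_lit 0x209fe95d0) (nat_lit 258446106)]
noncomputable def e25_29 : List Rx := [
  Rx.mk (nat_lit 27) (nat_lit 3) (nat_lit 3) (nat_lit 0) (nat_lit 3) (nat_lit 198) (nat_lit 105) r7_198 r11_105 (nat_lit 0) (nat_lit 0) (nat_lit 4171220) (nat_lit 0x1fe2a9fa6) (nat_lit 274848026),
  Rx.mk (nat_lit 59) (nat_lit 3) (nat_lit 7) (nat_lit 0) (nat_lit 3) (nat_lit 201) (nat_lit 104) r7_201 r11_104 (nat_lit 0) (nat_lit 0) (nat_lit 6612312) (nat_lit 0x20373a804) (nat_lit 271810218),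
  Rx.mk (nat_lit 63) (nat_lit 7) (nat_lit 7) (nat_lit 0) (nat_lit 3) (nat_lit 202) (nat_lit 102) r7_202 r11_102 (nat_lit 0) (nat_lit 0) (nat_lit 13297653) (nat_lit 0x1ee206fd2) (nat_lit 300924009),
  Rx.mk (nat_lit 155) (nat_lit 3) (nat_lit 3) (nat_lit 2) (nat_lit 7) (nat_lit 199) (nat_lit 106) r7_199 r11_106 (nat_lit 0) (nat_lit 0) (nat_lit 0) (nat_lit 0x20eafaca4) (nat_lit 253627606),
  Rx.mk (nat_lit 231) (nat_lit 7) (nat_lit 4) (nat_lit 3) (nat_lit 5) (nat_lit 200) (nat_lit 101) r7_200 r11_101 (nat_lit 0) (nat_lit 9484367) (nat_lit 0) (nat_lit 0x20056d4f2) (nat_lit 277919823),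
  Rx.mk (nat_lit 255) (nat_lit 7) (nat_lit 7) (nat_lit 3) (nat_lit 7) (nat_lit 203) (nat_lit 103) r7_203 r11_103 (nat_lit 0) (nat_lit 0) (nat_lit 0) (nat_lit 0x20056d4f2) (nat_lit 268435456)]
noncomputable def e25_30 : List Rx := [
  Rx.mk (nat_lit 103) (nat_lit 7) (nat_lit 4) (nat_lit 1) (nat_lit 5) (nat_lit 286) (nat_lit 256) r7_286 r5_256 (nat_lit 0) (nat_lit 2920698) (nat_lit 0) (nat_lit 0x1fb4347c0) (nat_lit 276638054),
  Rx.mk (nat_lit 111) (nat_lit 7) (nat_lit 5) (nat_lit 1) (nat_lit 7) (nat_lit 287) (nat_lit 257) r7_287 r5_257 (nat_lit 0) (nat_lit 0) (nat_lit 0) (nat_lit 0x204652198) (nat_lit 264207906)]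
noncomputable def e25_31 : List Rx := [
  Rx.mk (nat_lit 103) (nat_lit 7) (nat_lit 4) (nat_lit 1) (nat_lit 5) (nat_lit 288) (nat_lit 306) r7_288 r11_306 (nat_lit 0) (nat_lit 3347934) (nat_lit 0) (nat_lit 0x210cc8818) (nat_lit 254800140),
  Rx.mk (nat_lit 111) (nat_lit 7) (nat_lit 5) (nat_lit 1) (nat_lit 7) (nat_lit 290) (nat_lit 307) r7_290 r11_307 (nat_lit 0) (nat_lit 0) (nat_lit 0) (nat_lit 0x212ac02da) (nat_lit 249540606),
  Rx.mk (nat_lit 359) (nat_lit 7) (nat_lit 4) (nat_lit 5) (nat_lit 5) (nat_lit 289) (nat_lit 303) r7_289 r11_303 (nat_lit 0) (nat_lit 6916844) (nat_lit 0) (nat_lit 0x20319bac4) (nat_lit 272480450),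
  Rx.mk (nat_lit 367) (nat_lit 7) (nat_lit 5) (nat_lit 5) (nat_lit 7) (nat_lit 291) (nat_lit 304) r7_291 r11_304 (nat_lit 0) (nat_lit 0) (nat_lit 0) (nat_lit 0x20056d4f2) (nat_lit 268435456),
  Rx.mk (nat_lit 375) (nat_lit 7) (nat_lit 6) (nat_lit 5) (nat_lit 7) (nat_lit 292) (nat_lit 305) r7_292 r11_305 (nat_lit 0) (nat_lit 0) (nat_lit 0) (nat_lit 0x20056d4f2) (nat_lit 268435456)]
noncomputable def e25_32 : List Rx := [
  Rx.mk (nat_lit 35) (nat_lit 3) (nat_lit 4) (nat_lit 0) (nat_lit 1) (nat_lit 293) (nat_lit 195) r7_293 r6_195 (nat_lit 0) (nat_lit 285501) (nat_lit 293441) (nat_lit 0x1bd42f27c) (nat_lit 339938198),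
  Rx.mk (nat_lit 43) (nat_lit 3) (nat_lit 5) (nat_lit 0) (nat_lit 3) (nat_lit 297) (nat_lit 196) r7_297 r6_196 (nat_lit 0) (nat_lit 0) (nat_lit 4380705) (nat_lit 0x20233b9a2) (nat_lit 270840161),
  Rx.mk (nat_lit 59) (nat_lit 3) (nat_lit 7) (nat_lit 0) (nat_lit 3) (nat_lit 301) (nat_lit 197) r7_301 r6_197 (nat_lit 0) (nat_lit 0) (nat_lit 2828629) (nat_lit 0x200296e72) (nat_lit 271409985),
  Rx.mk (nat_lit 99) (nat_lit 3) (nat_lit 4) (nat_lit 1) (nat_lit 5) (nat_lit 294) (nat_lit 198) r7_294 r6_198 (nat_lit 0) (nat_lit 3269233) (nat_lit 0) (nat_lit 0x20b93e59e) (nat_lit 260068789),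
  Rx.mk (nat_lit 107) (nat_lit 3) (nat_lit 5) (nat_lit 1) (nat_lit 7) (nat_lit 298) (nat_lit 199) r7_298 r6_199 (nat_lit 0) (nat_lit 0) (nat_lit 0) (nat_lit 0x20e132730) (nat_lit 254255056),
  Rx.mk (nat_lit 123) (nat_lit 3) (nat_lit 7) (nat_lit 1) (nat_lit 7) (nat_lit 302) (nat_lit 200) r7_302 r6_200 (nat_lit 0) (nat_lit 0) (nat_lit 0) (nat_lit 0x21d88da66) (nat_lit 238408656),
  Rx.mk (nat_lit 227) (nat_lit 3) (nat_lit 4) (nat_lit 3) (nat_lit 5) (nat_lit 295) (nat_lit 201) r7_295 r6_201 (nat_lit 0) (nat_lit 7768452) (nat_lit 0) (nat_lit 0x1f2326f76) (nat_lit 291082808),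
  Rx.mk (nat_lit 231) (nat_lit 7) (nat_lit 4) (nat_lit 3) (nat_lit 5) (nat_lit 296) (nat_lit 193) r7_296 r6_193 (nat_lit 0) (nat_lit 2249514) (nat_lit 0) (nat_lit 0x1fa7a982a) (nat_lit 276775820),
  Rx.mk (nat_lit 235) (nat_lit 3) (nat_lit 5) (nat_lit 3) (nat_lit 7) (nat_lit 299) (nat_lit 202) r7_299 r6_202 (nat_lit 0) (nat_lit 0) (nat_lit 0) (nat_lit 0x20056d4f2) (nat_lit 268435456),
  Rx.mk (nat_lit 239) (nat_lit 7) (nat_lit 5) (nat_lit 3) (nat_lit 7) (nat_lit 300) (nat_lit 194) r7_300 r6_194 (nat_lit 0) (nat_lit 0) (nat_lit 0) (nat_lit 0x218b34328) (nat_lit 243360356)]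
noncomputable def e25_33 : List Rx := [
  Rx.mk (nat_lit 59) (nat_lit 3) (nat_lit 7) (nat_lit 0) (nat_lit 3) (nat_lit 272) (nat_lit 102) r7_272 r5_102 (nat_lit 0) (nat_lit 0) (nat_lit 2328975) (nat_lit 0x20c4f3c18) (nat_lit 258373331),
  Rx.mk (nat_lit 227) (nat_lit 3) (nat_lit 4) (nat_lit 3) (nat_lit 5) (nat_lit 270) (nat_lit 103) r7_270 r5_103 (nat_lit 0) (nat_lit 4856279) (nat_lit 0) (nat_lit 0x1bc73bce6) (nat_lit 345186885),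
  Rx.mk (nat_lit 231) (nat_lit 7) (nat_lit 4) (nat_lit 3) (nat_lit 5) (nat_lit 271) (nat_lit 105) r7_271 r5_105 (nat_lit 0) (nat_lit 2350265) (nat_lit 0) (nat_lit 0x1faee4d92) (nat_lit 276387071),
  Rx.mk (nat_lit 251) (nat_lit 3) (nat_lit 7) (nat_lit 3) (nat_lit 7) (nat_lit 273) (nat_lit 104) r7_273 r5_104 (nat_lit 0) (nat_lit 0) (nat_lit 0) (nat_lit 0x1fc6270f4) (nat_lit 272569156)]
noncomputable def e25_34 : List Rx := [
  Rx.mk (nat_lit 59) (nat_lit 3) (nat_lit 7) (nat_lit 0) (nat_lit 3) (nat_lit 278) (nat_lit 101) r7_278 r11_101 (nat_lit 0) (nat_lit 0) (nat_lit 9484367) (nat_lit 0x20056d4f2) (nat_lit 277919823),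
  Rx.mk (nat_lit 227) (nat_lit 3) (nat_lit 4) (nat_lit 3) (nat_lit 5) (nat_lit 274) (nat_lit 102) r7_274 r11_102 (nat_lit 0) (nat_lit 13297653) (nat_lit 0) (nat_lit 0x1ee206fd2) (nat_lit 300924009),
  Rx.mk (nat_lit 231) (nat_lit 7) (nat_lit 4) (nat_lit 3) (nat_lit 5) (nat_lit 275) (nat_lit 104) r7_275 r11_104 (nat_lit 0) (nat_lit 6612312) (nat_lit 0) (nat_lit 0x20373a804) (nat_lit 271810218),
  Rx.mk (nat_lit 251) (nat_lit 3) (nat_lit 7) (nat_lit 3) (nat_lit 7) (nat_lit 279) (nat_lit 103) r7_279 r11_103 (nat_lit 0) (nat_lit 0) (nat_lit 0) (nat_lit 0x20056d4f2) (nat_lit 268435456),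
  Rx.mk (nat_lit 487) (nat_lit 7) (nat_lit 4) (nat_lit 7) (nat_lit 5) (nat_lit 276) (nat_lit 105) r7_276 r11_105 (nat_lit 0) (nat_lit 4171220) (nat_lit 0) (nat_lit 0x1fe2a9fa6) (nat_lit 274848026),
  Rx.mk (nat_lit 503) (nat_lit 7) (nat_lit 6) (nat_lit 7) (nat_lit 7) (nat_lit 277) (nat_lit 106) r7_277 r11_106 (nat_lit 0) (nat_lit 0) (nat_lit 0) (nat_lit 0x20eafaca4) (nat_lit 253627606)]
noncomputable def e25_35 : List Rx := [
  Rx.mk (nat_lit 43) (nat_lit 3) (nat_lit 5) (nat_lit 0) (nat_lit 3) (nat_lit 282) (nat_lit 282) r7_282 r6_282 (nat_lit 0) (nat_lit 0) (nat_lit 3659927) (nat_lit 0x1ff02ca2a) (nat_lit 273432533),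
  Rx.mk (nat_lit 47) (nat_lit 7) (nat_lit 5) (nat_lit 0) (nat_lit 3) (nat_lit 284) (nat_lit 283) r7_284 r6_283 (nat_lit 0) (nat_lit 0) (nat_lit 2404456) (nat_lit 0x206fa235e) (nat_lit 263926362),
  Rx.mk (nat_lit 99) (nat_lit 3) (nat_lit 4) (nat_lit 1) (nat_lit 5) (nat_lit 280) (nat_lit 280) r7_280 r6_280 (nat_lit 0) (nat_lit 2404456) (nat_lit 0) (nat_lit 0x206fa235e) (nat_lit 263926362),
  Rx.mk (nat_lit 103) (nat_lit 7) (nat_lit 4) (nat_lit 1) (nat_lit 5) (nat_lit 281) (nat_lit 281) r7_281 r6_281 (nat_lit 0) (nat_lit 3659927) (nat_lit 0) (nat_lit 0x1ff02ca2a) (nat_lit 273432533),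
  Rx.mk (nat_lit 107) (nat_lit 3) (nat_lit 5) (nat_lit 1) (nat_lit 7) (nat_lit 283) (nat_lit 284) r7_283 r6_284 (nat_lit 0) (nat_lit 0) (nat_lit 0) (nat_lit 0x2115c93d6) (nat_lit 250881906),
  Rx.mk (nat_lit 111) (nat_lit 7) (nat_lit 5) (nat_lit 1) (nat_lit 7) (nat_lit 285) (nat_lit 285) r7_285 r6_285 (nat_lit 0) (nat_lit 0) (nat_lit 0) (nat_lit 0x2115c93d6) (nat_lit 250881906)]
noncomputable def e25_36 : List Rx := [
  Rx.mk (nat_lit 35) (nat_lit 3) (nat_lit 4) (nat_lit 0) (nat_lit 1) (nat_lit 303) (nat_lit 191) r7_303 r12_191 (nat_lit 0) (nat_lit 182123) (nat_lit 205538) (nat_lit 0x1b7456eea) (nat_lit 346095267),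
  Rx.mk (nat_lit 39) (nat_lit 7) (nat_lit 4) (nat_lit 0) (nat_lit 1) (nat_lit 305) (nat_lit 197) r7_305 r12_197 (nat_lit 0) (nat_lit 205538) (nat_lit 182123) (nat_lit 0x1b7456eea) (nat_lit 346095267),
  Rx.mk (nat_lit 43) (nat_lit 3) (nat_lit 5) (nat_lit 0) (nat_lit 3) (nat_lit 308) (nat_lit 193) r7_308 r12_193 (nat_lit 0) (nat_lit 0) (nat_lit 3052202) (nat_lit 0x2031c5afe) (nat_lit 268549008),
  Rx.mk (nat_lit 47) (nat_lit 7) (nat_lit 5) (nat_lit 0) (nat_lit 3) (nat_lit 310) (nat_lit 200) r7_310 r12_200 (nat_lit 0) (nat_lit 0) (nat_lit 2496873) (nat_lit 0x1fe2faafa) (nat_lit 273109429),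
  Rx.mk (nat_lit 59) (nat_lit 3) (nat_lit 7) (nat_lit 0) (nat_lit 3) (nat_lit 313) (nat_lit 195) r7_313 r12_195 (nat_lit 0) (nat_lit 0) (nat_lit 1764226) (nat_lit 0x1f2f3f7d6) (nat_lit 284231582),
  Rx.mk (nat_lit 99) (nat_lit 3) (nat_lit 4) (nat_lit 1) (nat_lit 5) (nat_lit 304) (nat_lit 192) r7_304 r12_192 (nat_lit 0) (nat_lit 2496873) (nat_lit 0) (nat_lit 0x1fe2faafa) (nat_lit 273109429),
  Rx.mk (nat_lit 103) (nat_lit 7) (nat_lit 4) (nat_lit 1) (nat_lit 5) (nat_lit 306) (nat_lit 198) r7_306 r12_198 (nat_lit 0) (nat_lit 3052202) (nat_lit 0) (nat_lit 0x2031c5afe) (nat_lit 268549008),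
  Rx.mk (nat_lit 107) (nat_lit 3) (nat_lit 5) (nat_lit 1) (nat_lit 7) (nat_lit 309) (nat_lit 194) r7_309 r12_194 (nat_lit 0) (nat_lit 0) (nat_lit 0) (nat_lit 0x22a5412e2) (nat_lit 225311006),
  Rx.mk (nat_lit 111) (nat_lit 7) (nat_lit 5) (nat_lit 1) (nat_lit 7) (nat_lit 311) (nat_lit 201) r7_311 r12_201 (nat_lit 0) (nat_lit 0) (nat_lit 0) (nat_lit 0x22a5412e2) (nat_lit 225311006),
  Rx.mk (nat_lit 123) (nat_lit 3) (nat_lit 7) (nat_lit 1) (nat_lit 7) (nat_lit 314) (nat_lit 196) r7_314 r12_196 (nat_lit 0) (nat_lit 0) (nat_lit 0) (nat_lit 0x244f14688) (nat_lit 198076806),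
  Rx.mk (nat_lit 231) (nat_lit 7) (nat_lit 4) (nat_lit 3) (nat_lit 5) (nat_lit 307) (nat_lit 199) r7_307 r12_199 (nat_lit 0) (nat_lit 1764226) (nat_lit 0) (nat_lit 0x1f2f3f7d6) (nat_lit 284231582),
  Rx.mk (nat_lit 239) (nat_lit 7) (nat_lit 5) (nat_lit 3) (nat_lit 7) (nat_lit 312) (nat_lit 202) r7_312 r12_202 (nat_lit 0) (nat_lit 0) (nat_lit 0) (nat_lit 0x244f14688) (nat_lit 198076806)]
noncomputable def e25_37 : List Rx := [
  Rx.mk (nat_lit 8) (nat_lit 0) (nat_lit 1) (nat_lit 0) (nat_lit 2) (nat_lit 319) (nat_lit 178) r7_319 r0_178 (nat_lit 716691) (nat_lit 0) (nat_lit 254935) (nat_lit 0x19bbb53e2) (nat_lit 375922732),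
  Rx.mk (nat_lit 11) (nat_lit 3) (nat_lit 1) (nat_lit 0) (nat_lit 3) (nat_lit 322) (nat_lit 182) r7_322 r0_182 (nat_lit 0) (nat_lit 0) (nat_lit 2189607) (nat_lit 0x1fe25deee) (nat_lit 272854513),
  Rx.mk (nat_lit 40) (nat_lit 0) (nat_lit 5) (nat_lit 0) (nat_lit 2) (nat_lit 325) (nat_lit 177) r7_325 r0_177 (nat_lit 3352025) (nat_lit 0) (nat_lit 236105) (nat_lit 0x15ef65efc) (nat_lit 443065536),
  Rx.mk (nat_lit 72) (nat_lit 0) (nat_lit 1) (nat_lit 1) (nat_lit 6) (nat_lit 320) (nat_lit 180) r7_320 r0_180 (nat_lit 8466862) (nat_lit 0) (nat_lit 0) (nat_lit 0x1df10845a) (nat_lit 312056868),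
  Rx.mk (nat_lit 75) (nat_lit 3) (nat_lit 1) (nat_lit 1) (nat_lit 7) (nat_lit 323) (nat_lit 183) r7_323 r0_183 (nat_lit 0) (nat_lit 0) (nat_lit 0) (nat_lit 0x2069e1e9c) (nat_lit 261918006),
  Rx.mk (nat_lit 104) (nat_lit 0) (nat_lit 5) (nat_lit 1) (nat_lit 6) (nat_lit 326) (nat_lit 179) r7_326 r0_179 (nat_lit 2435671) (nat_lit 0) (nat_lit 0) (nat_lit 0x1813fca48) (nat_lit 405583127),
  Rx.mk (nat_lit 136) (nat_lit 0) (nat_lit 1) (nat_lit 2) (nat_lit 6) (nat_lit 321) (nat_lit 181) r7_321 r0_181 (nat_lit 57895491) (nat_lit 0) (nat_lit 0) (nat_lit 0x20dbef6b0) (nat_lit 312330647),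
  Rx.mk (nat_lit 139) (nat_lit 3) (nat_lit 1) (nat_lit 2) (nat_lit 7) (nat_lit 324) (nat_lit 184) r7_324 r0_184 (nat_lit 0) (nat_lit 0) (nat_lit 0) (nat_lit 0x2120dae14) (nat_lit 250172056)]
noncomputable def e25_38 : List Rx := [
  Rx.mk (nat_lit 40) (nat_lit 0) (nat_lit 5) (nat_lit 0) (nat_lit 2) (nat_lit 315) (nat_lit 250) r7_315 r0_250 (nat_lit 6883560) (nat_lit 0) (nat_lit 12632886) (nat_lit 0x199f2c586) (nat_lit 396447552),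
  Rx.mk (nat_lit 41) (nat_lit 1) (nat_lit 5) (nat_lit 0) (nat_lit 3) (nat_lit 317) (nat_lit 251) r7_317 r0_251 (nat_lit 0) (nat_lit 0) (nat_lit 10930595) (nat_lit 0x1f89b7ce0) (nat_lit 287476701),
  Rx.mk (nat_lit 104) (nat_lit 0) (nat_lit 5) (nat_lit 1) (nat_lit 6) (nat_lit 316) (nat_lit 252) r7_316 r0_252 (nat_lit 10632780) (nat_lit 0) (nat_lit 0) (nat_lit 0x1d6c3a8b8) (nat_lit 323047586),
  Rx.mk (nat_lit 105) (nat_lit 1) (nat_lit 5) (nat_lit 1) (nat_lit 7) (nat_lit 318) (nat_lit 253) r7_318 r0_253 (nat_lit 0) (nat_lit 0) (nat_lit 0) (nat_lit 0x201f393fe) (nat_lit 266751706)]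
noncomputable def e25_39 : List Rx := [
  Rx.mk (nat_lit 8) (nat_lit 0) (nat_lit 1) (nat_lit 0) (nat_lit 2) (nat_lit 327) (nat_lit 230) r7_327 r7_230 (nat_lit 12452190) (nat_lit 0) (nat_lit 12452190) (nat_lit 0x1b2db9852) (nat_lit 375430636),
  Rx.mk (nat_lit 9) (nat_lit 1) (nat_lit 1) (nat_lit 0) (nat_lit 3) (nat_lit 330) (nat_lit 235) r7_330 r7_235 (nat_lit 0) (nat_lit 0) (nat_lit 9484367) (nat_lit 0x1f8256622) (nat_lit 286511973),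
  Rx.mk (nat_lit 11) (nat_lit 3) (nat_lit 1) (nat_lit 0) (nat_lit 3) (nat_lit 333) (nat_lit 239) r7_333 r7_239 (nat_lit 0) (nat_lit 0) (nat_lit 9484367) (nat_lit 0x20056d4f2) (nat_lit 277919823),
  Rx.mk (nat_lit 40) (nat_lit 0) (nat_lit 5) (nat_lit 0) (nat_lit 2) (nat_lit 335) (nat_lit 229) r7_335 r7_229 (nat_lit 3198509) (nat_lit 0) (nat_lit 3198509) (nat_lit 0x1ad1629dc) (nat_lit 363026524),
  Rx.mk (nat_lit 41) (nat_lit 1) (nat_lit 5) (nat_lit 0) (nat_lit 3) (nat_lit 337) (nat_lit 234) r7_337 r7_234 (nat_lit 0) (nat_lit 0) (nat_lit 4874341) (nat_lit 0x204d5da50) (nat_lit 268633447),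
  Rx.mk (nat_lit 72) (nat_lit 0) (nat_lit 1) (nat_lit 1) (nat_lit 6) (nat_lit 328) (nat_lit 232) r7_328 r7_232 (nat_lit 9484367) (nat_lit 0) (nat_lit 0) (nat_lit 0x1f8256622) (nat_lit 286511973),
  Rx.mk (nat_lit 73) (nat_lit 1) (nat_lit 1) (nat_lit 1) (nat_lit 7) (nat_lit 331) (nat_lit 237) r7_331 r7_237 (nat_lit 0) (nat_lit 0) (nat_lit 0) (nat_lit 0x20056d4f2) (nat_lit 268435456),
  Rx.mk (nat_lit 75) (nat_lit 3) (nat_lit 1) (nat_lit 1) (nat_lit 7) (nat_lit 334) (nat_lit 240) r7_334 r7_240 (nat_lit 0) (nat_lit 0) (nat_lit 0) (nat_lit 0x20056d4f2) (nat_lit 268435456),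
  Rx.mk (nat_lit 104) (nat_lit 0) (nat_lit 5) (nat_lit 1) (nat_lit 6) (nat_lit 336) (nat_lit 231) r7_336 r7_231 (nat_lit 4874341) (nat_lit 0) (nat_lit 0) (nat_lit 0x204d5da50) (nat_lit 268633447),
  Rx.mk (nat_lit 105) (nat_lit 1) (nat_lit 5) (nat_lit 1) (nat_lit 7) (nat_lit 338) (nat_lit 236) r7_338 r7_236 (nat_lit 0) (nat_lit 0) (nat_lit 0) (nat_lit 0x2031741f4) (nat_lit 265572906),
  Rx.mk (nat_lit 136) (nat_lit 0) (nat_lit 1) (nat_lit 2) (nat_lit 6) (nat_lit 329) (nat_lit 233) r7_329 r7_233 (nat_lit 9484367) (nat_lit 0) (nat_lit 0) (nat_lit 0x20056d4f2) (nat_lit 277919823),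
  Rx.mk (nat_lit 137) (nat_lit 1) (nat_lit 1) (nat_lit 2) (nat_lit 7) (nat_lit 332) (nat_lit 238) r7_332 r7_238 (nat_lit 0) (nat_lit 0) (nat_lit 0) (nat_lit 0x20056d4f2) (nat_lit 268435456)]
noncomputable def e25_40 : List Rx := [
  Rx.mk (nat_lit 105) (nat_lit 1) (nat_lit 5) (nat_lit 1) (nat_lit 7) (nat_lit 399) (nat_lit 284) r7_399 r2_284 (nat_lit 0) (nat_lit 0) (nat_lit 0) (nat_lit 0x20056d4f2) (nat_lit 268435456),
  Rx.mk (nat_lit 109) (nat_lit 5) (nat_lit 5) (nat_lit 1) (nat_lit 7) (nat_lit 400) (nat_lit 285) r7_400 r2_285 (nat_lit 0) (nat_lit 0) (nat_lit 0) (nat_lit 0x20056d4f2) (nat_lit 268435456)]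
noncomputable def e25_41 : List Rx := [
  Rx.mk (nat_lit 73) (nat_lit 1) (nat_lit 1) (nat_lit 1) (nat_lit 7) (nat_lit 406) (nat_lit 257) r7_406 r9_257 (nat_lit 0) (nat_lit 0) (nat_lit 0) (nat_lit 0x20056d4f2) (nat_lit 268435456),
  Rx.mk (nat_lit 105) (nat_lit 1) (nat_lit 5) (nat_lit 1) (nat_lit 7) (nat_lit 407) (nat_lit 258) r7_407 r9_258 (nat_lit 0) (nat_lit 0) (nat_lit 0) (nat_lit 0x20056d4f2) (nat_lit 268435456),
  Rx.mk (nat_lit 109) (nat_lit 5) (nat_lit 5) (nat_lit 1) (nat_lit 7) (nat_lit 408) (nat_lit 259) r7_408 r9_259 (nat_lit 0) (nat_lit 0) (nat_lit 0) (nat_lit 0x20056d4f2) (nat_lit 268435456)]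
noncomputable def e25_42 : List Rx := [
  Rx.mk (nat_lit 105) (nat_lit 1) (nat_lit 5) (nat_lit 1) (nat_lit 7) (nat_lit 409) (nat_lit 259) r7_409 r9_259 (nat_lit 0) (nat_lit 0) (nat_lit 0) (nat_lit 0x20056d4f2) (nat_lit 268435456),
  Rx.mk (nat_lit 109) (nat_lit 5) (nat_lit 5) (nat_lit 1) (nat_lit 7) (nat_lit 410) (nat_lit 258) r7_410 r9_258 (nat_lit 0) (nat_lit 0) (nat_lit 0) (nat_lit 0x20056d4f2) (nat_lit 268435456),
  Rx.mk (nat_lit 365) (nat_lit 5) (nat_lit 5) (nat_lit 5) (nat_lit 7) (nat_lit 411) (nat_lit 257) r7_411 r9_257 (nat_lit 0) (nat_lit 0) (nat_lit 0) (nat_lit 0x20056d4f2) (nat_lit 268435456)]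
noncomputable def e25_43 : List Rx := [
  Rx.mk (nat_lit 41) (nat_lit 1) (nat_lit 5) (nat_lit 0) (nat_lit 3) (nat_lit 397) (nat_lit 256) r7_397 r1_256 (nat_lit 0) (nat_lit 0) (nat_lit 9484367) (nat_lit 0x1ed793e56) (nat_lit 297812473),
  Rx.mk (nat_lit 105) (nat_lit 1) (nat_lit 5) (nat_lit 1) (nat_lit 7) (nat_lit 398) (nat_lit 257) r7_398 r1_257 (nat_lit 0) (nat_lit 0) (nat_lit 0) (nat_lit 0x1fb224e26) (nat_lit 273879356)]
noncomputable def e25_44 : List Rx := [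
  Rx.mk (nat_lit 9) (nat_lit 1) (nat_lit 1) (nat_lit 0) (nat_lit 3) (nat_lit 401) (nat_lit 185) r7_401 r8_185 (nat_lit 0) (nat_lit 0) (nat_lit 9484367) (nat_lit 0x1f8a43b50) (nat_lit 285991423),
  Rx.mk (nat_lit 41) (nat_lit 1) (nat_lit 5) (nat_lit 0) (nat_lit 3) (nat_lit 404) (nat_lit 184) r7_404 r8_184 (nat_lit 0) (nat_lit 0) (nat_lit 6164355) (nat_lit 0x20253bd24) (nat_lit 272515511),
  Rx.mk (nat_lit 73) (nat_lit 1) (nat_lit 1) (nat_lit 1) (nat_lit 7) (nat_lit 402) (nat_lit 187) r7_402 r8_187 (nat_lit 0) (nat_lit 0) (nat_lit 0) (nat_lit 0x20056d4f2) (nat_lit 268435456),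
  Rx.mk (nat_lit 105) (nat_lit 1) (nat_lit 5) (nat_lit 1) (nat_lit 7) (nat_lit 405) (nat_lit 186) r7_405 r8_186 (nat_lit 0) (nat_lit 0) (nat_lit 0) (nat_lit 0x20056d4f2) (nat_lit 268435456),
  Rx.mk (nat_lit 137) (nat_lit 1) (nat_lit 1) (nat_lit 2) (nat_lit 7) (nat_lit 403) (nat_lit 188) r7_403 r8_188 (nat_lit 0) (nat_lit 0) (nat_lit 0) (nat_lit 0x20056d4f2) (nat_lit 268435456)]
noncomputable def e25_45 : List Rx := [
  Rx.mk (nat_lit 8) (nat_lit 0) (nat_lit 1) (nat_lit 0) (nat_lit 2) (nat_lit 381) (nat_lit 192) r7_381 r1_192 (nat_lit 10430206) (nat_lit 0) (nat_lit 4648863) (nat_lit 0x1ba0815a6) (nat_lit 357965125),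
  Rx.mk (nat_lit 11) (nat_lit 3) (nat_lit 1) (nat_lit 0) (nat_lit 3) (nat_lit 385) (nat_lit 195) r7_385 r1_195 (nat_lit 0) (nat_lit 0) (nat_lit 4369240) (nat_lit 0x20a61f4ea) (nat_lit 262415396),
  Rx.mk (nat_lit 72) (nat_lit 0) (nat_lit 1) (nat_lit 1) (nat_lit 6) (nat_lit 382) (nat_lit 193) r7_382 r1_193 (nat_lit 10636325) (nat_lit 0) (nat_lit 0) (nat_lit 0x1f952452e) (nat_lit 286423531),
  Rx.mk (nat_lit 75) (nat_lit 3) (nat_lit 1) (nat_lit 1) (nat_lit 7) (nat_lit 386) (nat_lit 196) r7_386 r1_196 (nat_lit 0) (nat_lit 0) (nat_lit 0) (nat_lit 0x203d18672) (nat_lit 264818306),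
  Rx.mk (nat_lit 136) (nat_lit 0) (nat_lit 1) (nat_lit 2) (nat_lit 6) (nat_lit 383) (nat_lit 194) r7_383 r1_194 (nat_lit 77834362) (nat_lit 0) (nat_lit 0) (nat_lit 0x23c840ddc) (nat_lit 284519518),
  Rx.mk (nat_lit 138) (nat_lit 2) (nat_lit 1) (nat_lit 2) (nat_lit 7) (nat_lit 384) (nat_lit 198) r7_384 r1_198 (nat_lit 0) (nat_lit 0) (nat_lit 0) (nat_lit 0x2186519be) (nat_lit 243665906),
  Rx.mk (nat_lit 139) (nat_lit 3) (nat_lit 1) (nat_lit 2) (nat_lit 7) (nat_lit 387) (nat_lit 197) r7_387 r1_197 (nat_lit 0) (nat_lit 0) (nat_lit 0) (nat_lit 0x203d18672) (nat_lit 264818306)]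
noncomputable def e25_46 : List Rx := [
  Rx.mk (nat_lit 0) (nat_lit 0) (nat_lit 0) (nat_lit 0) (nat_lit 0) (nat_lit 339) (nat_lit 189) r7_339 r2_189 (nat_lit 347865) (nat_lit 122782) (nat_lit 110182) (nat_lit 0xf155adc6) (nat_lit 556453385),
  Rx.mk (nat_lit 3) (nat_lit 3) (nat_lit 0) (nat_lit 0) (nat_lit 1) (nat_lit 342) (nat_lit 193) r7_342 r2_193 (nat_lit 0) (nat_lit 1994389) (nat_lit 1645853) (nat_lit 0x1a886f89c) (nat_lit 365101798),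
  Rx.mk (nat_lit 8) (nat_lit 0) (nat_lit 1) (nat_lit 0) (nat_lit 2) (nat_lit 344) (nat_lit 190) r7_344 r2_190 (nat_lit 7109024) (nat_lit 0) (nat_lit 3470687) (nat_lit 0x150fa33f0) (nat_lit 465021817),
  Rx.mk (nat_lit 11) (nat_lit 3) (nat_lit 1) (nat_lit 0) (nat_lit 3) (nat_lit 347) (nat_lit 194) r7_347 r2_194 (nat_lit 0) (nat_lit 0) (nat_lit 5017164) (nat_lit 0x207caad94) (nat_lit 265733370),
  Rx.mk (nat_lit 27) (nat_lit 3) (nat_lit 3) (nat_lit 0) (nat_lit 3) (nat_lit 350) (nat_lit 195) r7_350 r2_195 (nat_lit 0) (nat_lit 0) (nat_lit 6143740) (nat_lit 0x203351b34) (nat_lit 271587896),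
  Rx.mk (nat_lit 128) (nat_lit 0) (nat_lit 0) (nat_lit 2) (nat_lit 4) (nat_lit 340) (nat_lit 191) r7_340 r2_191 (nat_lit 6259495) (nat_lit 2914534) (nat_lit 0) (nat_lit 0x1a7896376) (nat_lit 371700385),
  Rx.mk (nat_lit 130) (nat_lit 2) (nat_lit 0) (nat_lit 2) (nat_lit 5) (nat_lit 341) (nat_lit 200) r7_341 r2_200 (nat_lit 0) (nat_lit 9484367) (nat_lit 0) (nat_lit 0x1fbe559fc) (nat_lit 282567823),
  Rx.mk (nat_lit 131) (nat_lit 3) (nat_lit 0) (nat_lit 2) (nat_lit 5) (nat_lit 343) (nat_lit 197) r7_343 r2_197 (nat_lit 0) (nat_lit 4070597) (nat_lit 0) (nat_lit 0x20d4908d8) (nat_lit 259136953),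
  Rx.mk (nat_lit 136) (nat_lit 0) (nat_lit 1) (nat_lit 2) (nat_lit 6) (nat_lit 345) (nat_lit 192) r7_345 r2_192 (nat_lit 9484367) (nat_lit 0) (nat_lit 0) (nat_lit 0x20056d4f2) (nat_lit 277919823),
  Rx.mk (nat_lit 138) (nat_lit 2) (nat_lit 1) (nat_lit 2) (nat_lit 7) (nat_lit 346) (nat_lit 201) r7_346 r2_201 (nat_lit 0) (nat_lit 0) (nat_lit 0) (nat_lit 0x20056d4f2) (nat_lit 268435456),
  Rx.mk (nat_lit 139) (nat_lit 3) (nat_lit 1) (nat_lit 2) (nat_lit 7) (nat_lit 348) (nat_lit 198) r7_348 r2_198 (nat_lit 0) (nat_lit 0) (nat_lit 0) (nat_lit 0x20056d4f2) (nat_lit 268435456),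
  Rx.mk (nat_lit 146) (nat_lit 2) (nat_lit 2) (nat_lit 2) (nat_lit 7) (nat_lit 349) (nat_lit 202) r7_349 r2_202 (nat_lit 0) (nat_lit 0) (nat_lit 0) (nat_lit 0x20056d4f2) (nat_lit 268435456),
  Rx.mk (nat_lit 155) (nat_lit 3) (nat_lit 3) (nat_lit 2) (nat_lit 7) (nat_lit 351) (nat_lit 199) r7_351 r2_199 (nat_lit 0) (nat_lit 0) (nat_lit 0) (nat_lit 0x20056d4f2) (nat_lit 268435456),
  Rx.mk (nat_lit 219) (nat_lit 3) (nat_lit 3) (nat_lit 3) (nat_lit 7) (nat_lit 352) (nat_lit 196) r7_352 r2_196 (nat_lit 0) (nat_lit 0) (nat_lit 0) (nat_lit 0x20056d4f2) (nat_lit 268435456)]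
noncomputable def e25_47 : List Rx := [
  Rx.mk (nat_lit 8) (nat_lit 0) (nat_lit 1) (nat_lit 0) (nat_lit 2) (nat_lit 388) (nat_lit 248) r7_388 r8_248 (nat_lit 11320174) (nat_lit 0) (nat_lit 10214042) (nat_lit 0x19516debc) (nat_lit 403669772),
  Rx.mk (nat_lit 9) (nat_lit 1) (nat_lit 1) (nat_lit 0) (nat_lit 3) (nat_lit 391) (nat_lit 249) r7_391 r8_249 (nat_lit 0) (nat_lit 0) (nat_lit 9484367) (nat_lit 0x1f9da5748) (nat_lit 284716123),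
  Rx.mk (nat_lit 11) (nat_lit 3) (nat_lit 1) (nat_lit 0) (nat_lit 3) (nat_lit 395) (nat_lit 250) r7_395 r8_250 (nat_lit 0) (nat_lit 0) (nat_lit 9484367) (nat_lit 0x1ff7a7da4) (nat_lit 278815973),
  Rx.mk (nat_lit 72) (nat_lit 0) (nat_lit 1) (nat_lit 1) (nat_lit 6) (nat_lit 389) (nat_lit 251) r7_389 r8_251 (nat_lit 9484367) (nat_lit 0) (nat_lit 0) (nat_lit 0x1ff43348e) (nat_lit 279041273),
  Rx.mk (nat_lit 73) (nat_lit 1) (nat_lit 1) (nat_lit 1) (nat_lit 7) (nat_lit 392) (nat_lit 252) r7_392 r8_252 (nat_lit 0) (nat_lit 0) (nat_lit 0) (nat_lit 0x20056d4f2) (nat_lit 268435456),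
  Rx.mk (nat_lit 75) (nat_lit 3) (nat_lit 1) (nat_lit 1) (nat_lit 7) (nat_lit 396) (nat_lit 253) r7_396 r8_253 (nat_lit 0) (nat_lit 0) (nat_lit 0) (nat_lit 0x20056d4f2) (nat_lit 268435456),
  Rx.mk (nat_lit 136) (nat_lit 0) (nat_lit 1) (nat_lit 2) (nat_lit 6) (nat_lit 390) (nat_lit 254) r7_390 r8_254 (nat_lit 9484367) (nat_lit 0) (nat_lit 0) (nat_lit 0x20056d4f2) (nat_lit 277919823),
  Rx.mk (nat_lit 137) (nat_lit 1) (nat_lit 1) (nat_lit 2) (nat_lit 7) (nat_lit 393) (nat_lit 255) r7_393 r8_255 (nat_lit 0) (nat_lit 0) (nat_lit 0) (nat_lit 0x20056d4f2) (nat_lit 268435456),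
  Rx.mk (nat_lit 138) (nat_lit 2) (nat_lit 1) (nat_lit 2) (nat_lit 7) (nat_lit 394) (nat_lit 256) r7_394 r8_256 (nat_lit 0) (nat_lit 0) (nat_lit 0) (nat_lit 0x20056d4f2) (nat_lit 268435456)]
noncomputable def e25_48 : List Rx := [
  Rx.mk (nat_lit 0) (nat_lit 0) (nat_lit 0) (nat_lit 0) (nat_lit 0) (nat_lit 353) (nat_lit 170) r7_353 r9_170 (nat_lit 4361725) (nat_lit 3803068) (nat_lit 3153757) (nat_lit 0xe7b965fa) (nat_lit 577519756),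
  Rx.mk (nat_lit 3) (nat_lit 3) (nat_lit 0) (nat_lit 0) (nat_lit 1) (nat_lit 356) (nat_lit 176) r7_356 r9_176 (nat_lit 0) (nat_lit 10313512) (nat_lit 13011083) (nat_lit 0x1a14cc85e) (nat_lit 392497401),
  Rx.mk (nat_lit 8) (nat_lit 0) (nat_lit 1) (nat_lit 0) (nat_lit 2) (nat_lit 357) (nat_lit 171) r7_357 r9_171 (nat_lit 12267734) (nat_lit 0) (nat_lit 11132797) (nat_lit 0x1880761f6) (nat_lit 419405787),
  Rx.mk (nat_lit 9) (nat_lit 1) (nat_lit 1) (nat_lit 0) (nat_lit 3) (nat_lit 359) (nat_lit 174) r7_359 r9_174 (nat_lit 0) (nat_lit 0) (nat_lit 9484367) (nat_lit 0x20056d4f2) (nat_lit 277919823),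
  Rx.mk (nat_lit 11) (nat_lit 3) (nat_lit 1) (nat_lit 0) (nat_lit 3) (nat_lit 362) (nat_lit 177) r7_362 r9_177 (nat_lit 0) (nat_lit 0) (nat_lit 9484367) (nat_lit 0x20056d4f2) (nat_lit 277919823),
  Rx.mk (nat_lit 27) (nat_lit 3) (nat_lit 3) (nat_lit 0) (nat_lit 3) (nat_lit 364) (nat_lit 178) r7_364 r9_178 (nat_lit 0) (nat_lit 0) (nat_lit 9484367) (nat_lit 0x20056d4f2) (nat_lit 277919823),
  Rx.mk (nat_lit 128) (nat_lit 0) (nat_lit 0) (nat_lit 2) (nat_lit 4) (nat_lit 354) (nat_lit 172) r7_354 r9_172 (nat_lit 10111158) (nat_lit 11171727) (nat_lit 0) (nat_lit 0x1909dc81e) (nat_lit 408167991),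
  Rx.mk (nat_lit 130) (nat_lit 2) (nat_lit 0) (nat_lit 2) (nat_lit 5) (nat_lit 355) (nat_lit 180) r7_355 r9_180 (nat_lit 0) (nat_lit 9484367) (nat_lit 0) (nat_lit 0x1fd5c6abe) (nat_lit 281030323),
  Rx.mk (nat_lit 136) (nat_lit 0) (nat_lit 1) (nat_lit 2) (nat_lit 6) (nat_lit 358) (nat_lit 173) r7_358 r9_173 (nat_lit 9484367) (nat_lit 0) (nat_lit 0) (nat_lit 0x20056d4f2) (nat_lit 277919823),
  Rx.mk (nat_lit 137) (nat_lit 1) (nat_lit 1) (nat_lit 2) (nat_lit 7) (nat_lit 360) (nat_lit 175) r7_360 r9_175 (nat_lit 0) (nat_lit 0) (nat_lit 0) (nat_lit 0x20056d4f2) (nat_lit 268435456),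
  Rx.mk (nat_lit 138) (nat_lit 2) (nat_lit 1) (nat_lit 2) (nat_lit 7) (nat_lit 361) (nat_lit 181) r7_361 r9_181 (nat_lit 0) (nat_lit 0) (nat_lit 0) (nat_lit 0x20056d4f2) (nat_lit 268435456),
  Rx.mk (nat_lit 146) (nat_lit 2) (nat_lit 2) (nat_lit 2) (nat_lit 7) (nat_lit 363) (nat_lit 182) r7_363 r9_182 (nat_lit 0) (nat_lit 0) (nat_lit 0) (nat_lit 0x20056d4f2) (nat_lit 268435456),
  Rx.mk (nat_lit 219) (nat_lit 3) (nat_lit 3) (nat_lit 3) (nat_lit 7) (nat_lit 365) (nat_lit 179) r7_365 r9_179 (nat_lit 0) (nat_lit 0) (nat_lit 0) (nat_lit 0x20056d4f2) (nat_lit 268435456)]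
noncomputable def e25_49 : List Rx := [
  Rx.mk (nat_lit 0) (nat_lit 0) (nat_lit 0) (nat_lit 0) (nat_lit 0) (nat_lit 366) (nat_lit 68) r7_366 r9_68 (nat_lit 9146340) (nat_lit 2680125) (nat_lit 1909453) (nat_lit 0xd8e0cdac) (nat_lit 595695424),
  Rx.mk (nat_lit 3) (nat_lit 3) (nat_lit 0) (nat_lit 0) (nat_lit 1) (nat_lit 369) (nat_lit 70) r7_369 r9_70 (nat_lit 0) (nat_lit 10245589) (nat_lit 13438367) (nat_lit 0x19e910396) (nat_lit 395759412),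
  Rx.mk (nat_lit 8) (nat_lit 0) (nat_lit 1) (nat_lit 0) (nat_lit 2) (nat_lit 371) (nat_lit 69) r7_371 r9_69 (nat_lit 10619100) (nat_lit 0) (nat_lit 13489230) (nat_lit 0x176e3a3da) (nat_lit 438312186),
  Rx.mk (nat_lit 11) (nat_lit 3) (nat_lit 1) (nat_lit 0) (nat_lit 3) (nat_lit 374) (nat_lit 71) r7_374 r9_71 (nat_lit 0) (nat_lit 0) (nat_lit 9484367) (nat_lit 0x20056d4f2) (nat_lit 277919823),
  Rx.mk (nat_lit 27) (nat_lit 3) (nat_lit 3) (nat_lit 0) (nat_lit 3) (nat_lit 378) (nat_lit 72) r7_378 r9_72 (nat_lit 0) (nat_lit 0) (nat_lit 8921268) (nat_lit 0x1fef92f60) (nat_lit 278779924),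
  Rx.mk (nat_lit 128) (nat_lit 0) (nat_lit 0) (nat_lit 2) (nat_lit 4) (nat_lit 367) (nat_lit 74) r7_367 r9_74 (nat_lit 13616542) (nat_lit 11056457) (nat_lit 0) (nat_lit 0x17b1c14be) (nat_lit 434394355),
  Rx.mk (nat_lit 130) (nat_lit 2) (nat_lit 0) (nat_lit 2) (nat_lit 5) (nat_lit 368) (nat_lit 79) r7_368 r9_79 (nat_lit 0) (nat_lit 9484367) (nat_lit 0) (nat_lit 0x1fb67f214) (nat_lit 283080423),
  Rx.mk (nat_lit 131) (nat_lit 3) (nat_lit 0) (nat_lit 2) (nat_lit 5) (nat_lit 370) (nat_lit 76) r7_370 r9_76 (nat_lit 0) (nat_lit 9484367) (nat_lit 0) (nat_lit 0x1ff04690c) (nat_lit 279297123),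
  Rx.mk (nat_lit 136) (nat_lit 0) (nat_lit 1) (nat_lit 2) (nat_lit 6) (nat_lit 372) (nat_lit 75) r7_372 r9_75 (nat_lit 9484367) (nat_lit 0) (nat_lit 0) (nat_lit 0x20056d4f2) (nat_lit 277919823),
  Rx.mk (nat_lit 138) (nat_lit 2) (nat_lit 1) (nat_lit 2) (nat_lit 7) (nat_lit 373) (nat_lit 80) r7_373 r9_80 (nat_lit 0) (nat_lit 0) (nat_lit 0) (nat_lit 0x20056d4f2) (nat_lit 268435456),
  Rx.mk (nat_lit 139) (nat_lit 3) (nat_lit 1) (nat_lit 2) (nat_lit 7) (nat_lit 375) (nat_lit 77) r7_375 r9_77 (nat_lit 0) (nat_lit 0) (nat_lit 0) (nat_lit 0x20056d4f2) (nat_lit 268435456),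
  Rx.mk (nat_lit 146) (nat_lit 2) (nat_lit 2) (nat_lit 2) (nat_lit 7) (nat_lit 376) (nat_lit 81) r7_376 r9_81 (nat_lit 0) (nat_lit 0) (nat_lit 0) (nat_lit 0x20056d4f2) (nat_lit 268435456),
  Rx.mk (nat_lit 155) (nat_lit 3) (nat_lit 3) (nat_lit 2) (nat_lit 7) (nat_lit 379) (nat_lit 78) r7_379 r9_78 (nat_lit 0) (nat_lit 0) (nat_lit 0) (nat_lit 0x20056d4f2) (nat_lit 268435456),
  Rx.mk (nat_lit 219) (nat_lit 3) (nat_lit 3) (nat_lit 3) (nat_lit 7) (nat_lit 380) (nat_lit 73) r7_380 r9_73 (nat_lit 0) (nat_lit 0) (nat_lit 0) (nat_lit 0x20056d4f2) (nat_lit 268435456),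
  Rx.mk (nat_lit 402) (nat_lit 2) (nat_lit 2) (nat_lit 6) (nat_lit 7) (nat_lit 377) (nat_lit 82) r7_377 r9_82 (nat_lit 0) (nat_lit 0) (nat_lit 0) (nat_lit 0x20056d4f2) (nat_lit 268435456)]
noncomputable def e25_50 : List Rx := [
  Rx.mk (nat_lit 40) (nat_lit 0) (nat_lit 5) (nat_lit 0) (nat_lit 2) (nat_lit 412) (nat_lit 167) r7_412 r3_167 (nat_lit 16392) (nat_lit 0) (nat_lit 20207) (nat_lit 0x1aff2b4f4) (nat_lit 353479305),
  Rx.mk (nat_lit 43) (nat_lit 3) (nat_lit 5) (nat_lit 0) (nat_lit 3) (nat_lit 414) (nat_lit 169) r7_414 r3_169 (nat_lit 0) (nat_lit 0) (nat_lit 47845) (nat_lit 0x201156a48) (nat_lit 267395251),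
  Rx.mk (nat_lit 104) (nat_lit 0) (nat_lit 5) (nat_lit 1) (nat_lit 6) (nat_lit 413) (nat_lit 168) r7_413 r3_168 (nat_lit 1511252) (nat_lit 0) (nat_lit 0) (nat_lit 0x1d22f5266) (nat_lit 318703058),
  Rx.mk (nat_lit 107) (nat_lit 3) (nat_lit 5) (nat_lit 1) (nat_lit 7) (nat_lit 415) (nat_lit 170) r7_415 r3_170 (nat_lit 0) (nat_lit 0) (nat_lit 0) (nat_lit 0x21af7b880) (nat_lit 241021756)]
noncomputable def e25_51 : List Rx := [
  Rx.mk (nat_lit 11) (nat_lit 3) (nat_lit 1) (nat_lit 0) (nat_lit 3) (nat_lit 424) (nat_lit 170) r7_424 r4_170 (nat_lit 0) (nat_lit 0) (nat_lit 4626214) (nat_lit 0x207ca1424) (nat_lit 265335720),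
  Rx.mk (nat_lit 40) (nat_lit 0) (nat_lit 5) (nat_lit 0) (nat_lit 2) (nat_lit 427) (nat_lit 167) r7_427 r4_167 (nat_lit 9573033) (nat_lit 0) (nat_lit 3498461) (nat_lit 0x17c42fa88) (nat_lit 421543700),
  Rx.mk (nat_lit 43) (nat_lit 3) (nat_lit 5) (nat_lit 0) (nat_lit 3) (nat_lit 429) (nat_lit 169) r7_429 r4_169 (nat_lit 0) (nat_lit 0) (nat_lit 2514868) (nat_lit 0x1db219e9c) (nat_lit 310255074),
  Rx.mk (nat_lit 75) (nat_lit 3) (nat_lit 1) (nat_lit 1) (nat_lit 7) (nat_lit 425) (nat_lit 172) r7_425 r4_172 (nat_lit 0) (nat_lit 0) (nat_lit 0) (nat_lit 0x206f820c2) (nat_lit 261563506),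
  Rx.mk (nat_lit 104) (nat_lit 0) (nat_lit 5) (nat_lit 1) (nat_lit 6) (nat_lit 428) (nat_lit 168) r7_428 r4_168 (nat_lit 8007799) (nat_lit 0) (nat_lit 0) (nat_lit 0x1fe9cda3a) (nat_lit 278231055),
  Rx.mk (nat_lit 107) (nat_lit 3) (nat_lit 5) (nat_lit 1) (nat_lit 7) (nat_lit 430) (nat_lit 171) r7_430 r4_171 (nat_lit 0) (nat_lit 0) (nat_lit 0) (nat_lit 0x21766457e) (nat_lit 244694406),
  Rx.mk (nat_lit 139) (nat_lit 3) (nat_lit 1) (nat_lit 2) (nat_lit 7) (nat_lit 426) (nat_lit 173) r7_426 r4_173 (nat_lit 0) (nat_lit 0) (nat_lit 0) (nat_lit 0x206f820c2) (nat_lit 261563506)]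
noncomputable def e25_52 : List Rx := [
  Rx.mk (nat_lit 40) (nat_lit 0) (nat_lit 5) (nat_lit 0) (nat_lit 2) (nat_lit 444) (nat_lit 184) r7_444 r5_184 (nat_lit 9588172) (nat_lit 0) (nat_lit 2663217) (nat_lit 0x1bf102cbe) (nat_lit 349792345),
  Rx.mk (nat_lit 43) (nat_lit 3) (nat_lit 5) (nat_lit 0) (nat_lit 3) (nat_lit 446) (nat_lit 186) r7_446 r5_186 (nat_lit 0) (nat_lit 0) (nat_lit 4398806) (nat_lit 0x200652368) (nat_lit 272736762),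
  Rx.mk (nat_lit 104) (nat_lit 0) (nat_lit 5) (nat_lit 1) (nat_lit 6) (nat_lit 445) (nat_lit 185) r7_445 r5_185 (nat_lit 9484367) (nat_lit 0) (nat_lit 0) (nat_lit 0x20056d4f2) (nat_lit 277919823),
  Rx.mk (nat_lit 107) (nat_lit 3) (nat_lit 5) (nat_lit 1) (nat_lit 7) (nat_lit 447) (nat_lit 187) r7_447 r5_187 (nat_lit 0) (nat_lit 0) (nat_lit 0) (nat_lit 0x20b6ad88e) (nat_lit 256983056),
  Rx.mk (nat_lit 235) (nat_lit 3) (nat_lit 5) (nat_lit 3) (nat_lit 7) (nat_lit 448) (nat_lit 188) r7_448 r5_188 (nat_lit 0) (nat_lit 0) (nat_lit 0) (nat_lit 0x1f764566c) (nat_lit 277826656)]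
noncomputable def e25_53 : List Rx := [
  Rx.mk (nat_lit 40) (nat_lit 0) (nat_lit 5) (nat_lit 0) (nat_lit 2) (nat_lit 416) (nat_lit 265) r7_416 r4_265 (nat_lit 9833742) (nat_lit 0) (nat_lit 11185874) (nat_lit 0x1c93abff6) (nat_lit 347782772),
  Rx.mk (nat_lit 41) (nat_lit 1) (nat_lit 5) (nat_lit 0) (nat_lit 3) (nat_lit 418) (nat_lit 266) r7_418 r4_266 (nat_lit 0) (nat_lit 0) (nat_lit 9484367) (nat_lit 0x20056d4f2) (nat_lit 277919823),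
  Rx.mk (nat_lit 43) (nat_lit 3) (nat_lit 5) (nat_lit 0) (nat_lit 3) (nat_lit 420) (nat_lit 267) r7_420 r4_267 (nat_lit 0) (nat_lit 0) (nat_lit 7262151) (nat_lit 0x202830002) (nat_lit 273435607),
  Rx.mk (nat_lit 104) (nat_lit 0) (nat_lit 5) (nat_lit 1) (nat_lit 6) (nat_lit 417) (nat_lit 268) r7_417 r4_268 (nat_lit 7236911) (nat_lit 0) (nat_lit 0) (nat_lit 0x2024f415e) (nat_lit 273617967),
  Rx.mk (nat_lit 105) (nat_lit 1) (nat_lit 5) (nat_lit 1) (nat_lit 7) (nat_lit 419) (nat_lit 269) r7_419 r4_269 (nat_lit 0) (nat_lit 0) (nat_lit 0) (nat_lit 0x20056d4f2) (nat_lit 268435456),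
  Rx.mk (nat_lit 107) (nat_lit 3) (nat_lit 5) (nat_lit 1) (nat_lit 7) (nat_lit 421) (nat_lit 270) r7_421 r4_270 (nat_lit 0) (nat_lit 0) (nat_lit 0) (nat_lit 0x20056d4f2) (nat_lit 268435456)]
noncomputable def e25_54 : List Rx := [
  Rx.mk (nat_lit 11) (nat_lit 3) (nat_lit 1) (nat_lit 0) (nat_lit 3) (nat_lit 431) (nat_lit 188) r7_431 r10_188 (nat_lit 0) (nat_lit 0) (nat_lit 10225910) (nat_lit 0x1ff76c8d0) (nat_lit 279572466),
  Rx.mk (nat_lit 40) (nat_lit 0) (nat_lit 5) (nat_lit 0) (nat_lit 2) (nat_lit 433) (nat_lit 183) r7_433 r10_183 (nat_lit 2412682) (nat_lit 0) (nat_lit 3623461) (nat_lit 0x1b6a7120e) (nat_lit 352500749),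
  Rx.mk (nat_lit 41) (nat_lit 1) (nat_lit 5) (nat_lit 0) (nat_lit 3) (nat_lit 435) (nat_lit 185) r7_435 r10_185 (nat_lit 0) (nat_lit 0) (nat_lit 6317275) (nat_lit 0x201d9ccf8) (nat_lit 273168531),
  Rx.mk (nat_lit 43) (nat_lit 3) (nat_lit 5) (nat_lit 0) (nat_lit 3) (nat_lit 437) (nat_lit 187) r7_437 r10_187 (nat_lit 0) (nat_lit 0) (nat_lit 6317275) (nat_lit 0x201d9ccf8) (nat_lit 273168531),
  Rx.mk (nat_lit 75) (nat_lit 3) (nat_lit 1) (nat_lit 1) (nat_lit 7) (nat_lit 432) (nat_lit 190) r7_432 r10_190 (nat_lit 0) (nat_lit 0) (nat_lit 0) (nat_lit 0x20056d4f2) (nat_lit 268435456),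
  Rx.mk (nat_lit 104) (nat_lit 0) (nat_lit 5) (nat_lit 1) (nat_lit 6) (nat_lit 434) (nat_lit 184) r7_434 r10_184 (nat_lit 5997010) (nat_lit 0) (nat_lit 0) (nat_lit 0x1fd77613e) (nat_lit 277419766),
  Rx.mk (nat_lit 105) (nat_lit 1) (nat_lit 5) (nat_lit 1) (nat_lit 7) (nat_lit 436) (nat_lit 186) r7_436 r10_186 (nat_lit 0) (nat_lit 0) (nat_lit 0) (nat_lit 0x20056d4f2) (nat_lit 268435456),
  Rx.mk (nat_lit 107) (nat_lit 3) (nat_lit 5) (nat_lit 1) (nat_lit 7) (nat_lit 438) (nat_lit 189) r7_438 r10_189 (nat_lit 0) (nat_lit 0) (nat_lit 0) (nat_lit 0x20056d4f2) (nat_lit 268435456)]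
noncomputable def e25_55 : List Rx := [
  Rx.mk (nat_lit 40) (nat_lit 0) (nat_lit 5) (nat_lit 0) (nat_lit 2) (nat_lit 449) (nat_lit 212) r7_449 r11_212 (nat_lit 37534727) (nat_lit 0) (nat_lit 13980483) (nat_lit 0x1e7b17aba) (nat_lit 345961816),
  Rx.mk (nat_lit 41) (nat_lit 1) (nat_lit 5) (nat_lit 0) (nat_lit 3) (nat_lit 451) (nat_lit 214) r7_451 r11_214 (nat_lit 0) (nat_lit 0) (nat_lit 9484367) (nat_lit 0x20056d4f2) (nat_lit 277919823),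
  Rx.mk (nat_lit 43) (nat_lit 3) (nat_lit 5) (nat_lit 0) (nat_lit 3) (nat_lit 453) (nat_lit 216) r7_453 r11_216 (nat_lit 0) (nat_lit 0) (nat_lit 9484367) (nat_lit 0x20056d4f2) (nat_lit 277919823),
  Rx.mk (nat_lit 104) (nat_lit 0) (nat_lit 5) (nat_lit 1) (nat_lit 6) (nat_lit 450) (nat_lit 213) r7_450 r11_213 (nat_lit 9484367) (nat_lit 0) (nat_lit 0) (nat_lit 0x20056d4f2) (nat_lit 277919823),
  Rx.mk (nat_lit 105) (nat_lit 1) (nat_lit 5) (nat_lit 1) (nat_lit 7) (nat_lit 452) (nat_lit 215) r7_452 r11_215 (nat_lit 0) (nat_lit 0) (nat_lit 0) (nat_lit 0x20056d4f2) (nat_lit 268435456),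
  Rx.mk (nat_lit 107) (nat_lit 3) (nat_lit 5) (nat_lit 1) (nat_lit 7) (nat_lit 454) (nat_lit 217) r7_454 r11_217 (nat_lit 0) (nat_lit 0) (nat_lit 0) (nat_lit 0x20056d4f2) (nat_lit 268435456),
  Rx.mk (nat_lit 235) (nat_lit 3) (nat_lit 5) (nat_lit 3) (nat_lit 7) (nat_lit 455) (nat_lit 218) r7_455 r11_218 (nat_lit 0) (nat_lit 0) (nat_lit 0) (nat_lit 0x20056d4f2) (nat_lit 268435456)]
noncomputable def e25_56 : List Rx := [
  Rx.mk (nat_lit 43) (nat_lit 3) (nat_lit 5) (nat_lit 0) (nat_lit 3) (nat_lit 422) (nat_lit 256) r7_422 r5_256 (nat_lit 0) (nat_lit 0) (nat_lit 2920698) (nat_lit 0x1fb4347c0) (nat_lit 276638054),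
  Rx.mk (nat_lit 107) (nat_lit 3) (nat_lit 5) (nat_lit 1) (nat_lit 7) (nat_lit 423) (nat_lit 257) r7_423 r5_257 (nat_lit 0) (nat_lit 0) (nat_lit 0) (nat_lit 0x204652198) (nat_lit 264207906)]
noncomputable def e25_57 : List Rx := [
  Rx.mk (nat_lit 11) (nat_lit 3) (nat_lit 1) (nat_lit 0) (nat_lit 3) (nat_lit 439) (nat_lit 303) r7_439 r11_303 (nat_lit 0) (nat_lit 0) (nat_lit 6916844) (nat_lit 0x20319bac4) (nat_lit 272480450),
  Rx.mk (nat_lit 43) (nat_lit 3) (nat_lit 5) (nat_lit 0) (nat_lit 3) (nat_lit 442) (nat_lit 306) r7_442 r11_306 (nat_lit 0) (nat_lit 0) (nat_lit 3347934) (nat_lit 0x210cc8818) (nat_lit 254800140),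
  Rx.mk (nat_lit 75) (nat_lit 3) (nat_lit 1) (nat_lit 1) (nat_lit 7) (nat_lit 440) (nat_lit 304) r7_440 r11_304 (nat_lit 0) (nat_lit 0) (nat_lit 0) (nat_lit 0x20056d4f2) (nat_lit 268435456),
  Rx.mk (nat_lit 107) (nat_lit 3) (nat_lit 5) (nat_lit 1) (nat_lit 7) (nat_lit 443) (nat_lit 307) r7_443 r11_307 (nat_lit 0) (nat_lit 0) (nat_lit 0) (nat_lit 0x212ac02da) (nat_lit 249540606),
  Rx.mk (nat_lit 139) (nat_lit 3) (nat_lit 1) (nat_lit 2) (nat_lit 7) (nat_lit 441) (nat_lit 305) r7_441 r11_305 (nat_lit 0) (nat_lit 0) (nat_lit 0) (nat_lit 0x20056d4f2) (nat_lit 268435456)]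
noncomputable def e25 : List (List Rx) := [e25_0, e25_1, e25_2, e25_3, e25_4, e25_5, e25_6, e25_7, e25_8, e25_9, e25_10, e25_11, e25_12, e25_13, e25_14, e25_15, e25_16, e25_17, e25_18, e25_19, e25_20, e25_21, e25_22, e25_23, e25_24, e25_25, e25_26, e25_27, e25_28, e25_29, e25_30, e25_31, e25_32, e25_33, e25_34, e25_35, e25_36, e25_37, e25_38, e25_39, e25_40, e25_41, e25_42, e25_43, e25_44, e25_45, e25_46, e25_47, e25_48, e25_49, e25_50, e25_51, e25_52, e25_53, e25_54, e25_55, e25_56, e25_57]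
noncomputable def e26_0 : List Rx := [
  Rx.mk (nat_lit 108) (nat_lit 4) (nat_lit 5) (nat_lit 1) (nat_lit 6) (nat_lit 63) (nat_lit 185) r8_63 r0_185 (nat_lit 7783153) (nat_lit 0) (nat_lit 0) (nat_lit 0x1c7520078) (nat_lit 336577359),
  Rx.mk (nat_lit 364) (nat_lit 4) (nat_lit 5) (nat_lit 5) (nat_lit 6) (nat_lit 64) (nat_lit 186) r8_64 r0_186 (nat_lit 7212426) (nat_lit 0) (nat_lit 0) (nat_lit 0x1f5198ca6) (nat_lit 287452482),
  Rx.mk (nat_lit 367) (nat_lit 7) (nat_lit 5) (nat_lit 5) (nat_lit 7) (nat_lit 65) (nat_lit 187) r8_65 r0_187 (nat_lit 0) (nat_lit 0) (nat_lit 0) (nat_lit 0x20394b670) (nat_lit 265061156)]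
noncomputable def e26_1 : List Rx := [
  Rx.mk (nat_lit 364) (nat_lit 4) (nat_lit 5) (nat_lit 5) (nat_lit 6) (nat_lit 66) (nat_lit 199) r8_66 r1_199 (nat_lit 9484367) (nat_lit 0) (nat_lit 0) (nat_lit 0x1ff37e980) (nat_lit 279087523),
  Rx.mk (nat_lit 367) (nat_lit 7) (nat_lit 5) (nat_lit 5) (nat_lit 7) (nat_lit 67) (nat_lit 200) r8_67 r1_200 (nat_lit 0) (nat_lit 0) (nat_lit 0) (nat_lit 0x20056d4f2) (nat_lit 268435456)]
noncomputable def e26_2 : List Rx := [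
  Rx.mk (nat_lit 292) (nat_lit 4) (nat_lit 4) (nat_lit 4) (nat_lit 0) (nat_lit 25) (nat_lit 203) r8_25 r2_203 (nat_lit 3897400) (nat_lit 841530) (nat_lit 1033161) (nat_lit 0x10888ae30) (nat_lit 537090397),
  Rx.mk (nat_lit 295) (nat_lit 7) (nat_lit 4) (nat_lit 4) (nat_lit 1) (nat_lit 27) (nat_lit 209) r8_27 r2_209 (nat_lit 0) (nat_lit 696836) (nat_lit 1132696) (nat_lit 0x1ab396354) (nat_lit 360394488),
  Rx.mk (nat_lit 300) (nat_lit 4) (nat_lit 5) (nat_lit 4) (nat_lit 2) (nat_lit 30) (nat_lit 205) r8_30 r2_205 (nat_lit 18538121) (nat_lit 0) (nat_lit 21885715) (nat_lit 0x1c0a09d52) (nat_lit 376333842),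
  Rx.mk (nat_lit 303) (nat_lit 7) (nat_lit 5) (nat_lit 4) (nat_lit 3) (nat_lit 32) (nat_lit 212) r8_32 r2_212 (nat_lit 0) (nat_lit 0) (nat_lit 5423236) (nat_lit 0x2065e7670) (nat_lit 267606092),
  Rx.mk (nat_lit 308) (nat_lit 4) (nat_lit 6) (nat_lit 4) (nat_lit 2) (nat_lit 35) (nat_lit 207) r8_35 r2_207 (nat_lit 3475646) (nat_lit 0) (nat_lit 5207249) (nat_lit 0x1be5c8f88) (nat_lit 346982551),
  Rx.mk (nat_lit 310) (nat_lit 6) (nat_lit 6) (nat_lit 4) (nat_lit 3) (nat_lit 37) (nat_lit 218) r8_37 r2_218 (nat_lit 0) (nat_lit 0) (nat_lit 9484367) (nat_lit 0x20056d4f2) (nat_lit 277919823),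
  Rx.mk (nat_lit 311) (nat_lit 7) (nat_lit 6) (nat_lit 4) (nat_lit 3) (nat_lit 40) (nat_lit 216) r8_40 r2_216 (nat_lit 0) (nat_lit 0) (nat_lit 5423236) (nat_lit 0x2065e7670) (nat_lit 267606092),
  Rx.mk (nat_lit 356) (nat_lit 4) (nat_lit 4) (nat_lit 5) (nat_lit 4) (nat_lit 26) (nat_lit 204) r8_26 r2_204 (nat_lit 13271194) (nat_lit 12631128) (nat_lit 0) (nat_lit 0x1876a1590) (nat_lit 422557478),
  Rx.mk (nat_lit 359) (nat_lit 7) (nat_lit 4) (nat_lit 5) (nat_lit 5) (nat_lit 28) (nat_lit 210) r8_28 r2_210 (nat_lit 0) (nat_lit 9484367) (nat_lit 0) (nat_lit 0x20056d4f2) (nat_lit 277919823),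
  Rx.mk (nat_lit 364) (nat_lit 4) (nat_lit 5) (nat_lit 5) (nat_lit 6) (nat_lit 31) (nat_lit 206) r8_31 r2_206 (nat_lit 9612199) (nat_lit 0) (nat_lit 0) (nat_lit 0x1ff969f20) (nat_lit 278829255),
  Rx.mk (nat_lit 367) (nat_lit 7) (nat_lit 5) (nat_lit 5) (nat_lit 7) (nat_lit 33) (nat_lit 213) r8_33 r2_213 (nat_lit 0) (nat_lit 0) (nat_lit 0) (nat_lit 0x20056d4f2) (nat_lit 268435456),
  Rx.mk (nat_lit 372) (nat_lit 4) (nat_lit 6) (nat_lit 5) (nat_lit 6) (nat_lit 36) (nat_lit 208) r8_36 r2_208 (nat_lit 9484367) (nat_lit 0) (nat_lit 0) (nat_lit 0x20056d4f2) (nat_lit 277919823),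
  Rx.mk (nat_lit 374) (nat_lit 6) (nat_lit 6) (nat_lit 5) (nat_lit 7) (nat_lit 38) (nat_lit 219) r8_38 r2_219 (nat_lit 0) (nat_lit 0) (nat_lit 0) (nat_lit 0x20056d4f2) (nat_lit 268435456),
  Rx.mk (nat_lit 375) (nat_lit 7) (nat_lit 6) (nat_lit 5) (nat_lit 7) (nat_lit 41) (nat_lit 217) r8_41 r2_217 (nat_lit 0) (nat_lit 0) (nat_lit 0) (nat_lit 0x20056d4f2) (nat_lit 268435456),
  Rx.mk (nat_lit 438) (nat_lit 6) (nat_lit 6) (nat_lit 6) (nat_lit 7) (nat_lit 39) (nat_lit 220) r8_39 r2_220 (nat_lit 0) (nat_lit 0) (nat_lit 0) (nat_lit 0x20056d4f2) (nat_lit 268435456),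
  Rx.mk (nat_lit 487) (nat_lit 7) (nat_lit 4) (nat_lit 7) (nat_lit 5) (nat_lit 29) (nat_lit 211) r8_29 r2_211 (nat_lit 0) (nat_lit 9484367) (nat_lit 0) (nat_lit 0x1ffae912a) (nat_lit 278604423),
  Rx.mk (nat_lit 495) (nat_lit 7) (nat_lit 5) (nat_lit 7) (nat_lit 7) (nat_lit 34) (nat_lit 214) r8_34 r2_214 (nat_lit 0) (nat_lit 0) (nat_lit 0) (nat_lit 0x20056d4f2) (nat_lit 268435456),
  Rx.mk (nat_lit 511) (nat_lit 7) (nat_lit 7) (nat_lit 7) (nat_lit 7) (nat_lit 42) (nat_lit 215) r8_42 r2_215 (nat_lit 0) (nat_lit 0) (nat_lit 0) (nat_lit 0x20056d4f2) (nat_lit 268435456)]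
noncomputable def e26_3 : List Rx := [
  Rx.mk (nat_lit 108) (nat_lit 4) (nat_lit 5) (nat_lit 1) (nat_lit 6) (nat_lit 61) (nat_lit 171) r8_61 r3_171 (nat_lit 753298) (nat_lit 0) (nat_lit 0) (nat_lit 0x1dc14c75c) (nat_lit 307411954),
  Rx.mk (nat_lit 111) (nat_lit 7) (nat_lit 5) (nat_lit 1) (nat_lit 7) (nat_lit 62) (nat_lit 172) r8_62 r3_172 (nat_lit 0) (nat_lit 0) (nat_lit 0) (nat_lit 0x22d25d3a2) (nat_lit 222389256)]
noncomputable def e26_4 : List Rx := [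
  Rx.mk (nat_lit 108) (nat_lit 4) (nat_lit 5) (nat_lit 1) (nat_lit 6) (nat_lit 68) (nat_lit 174) r8_68 r4_174 (nat_lit 6572672) (nat_lit 0) (nat_lit 0) (nat_lit 0x2024e9254) (nat_lit 272956678),
  Rx.mk (nat_lit 111) (nat_lit 7) (nat_lit 5) (nat_lit 1) (nat_lit 7) (nat_lit 69) (nat_lit 175) r8_69 r4_175 (nat_lit 0) (nat_lit 0) (nat_lit 0) (nat_lit 0x205d0a160) (nat_lit 262752906),
  Rx.mk (nat_lit 367) (nat_lit 7) (nat_lit 5) (nat_lit 5) (nat_lit 7) (nat_lit 70) (nat_lit 176) r8_70 r4_176 (nat_lit 0) (nat_lit 0) (nat_lit 0) (nat_lit 0x20056d4f2) (nat_lit 268435456)]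
noncomputable def e26_5 : List Rx := [
  Rx.mk (nat_lit 108) (nat_lit 4) (nat_lit 5) (nat_lit 1) (nat_lit 6) (nat_lit 74) (nat_lit 189) r8_74 r5_189 (nat_lit 7006890) (nat_lit 0) (nat_lit 0) (nat_lit 0x202e95d16) (nat_lit 272765646),
  Rx.mk (nat_lit 111) (nat_lit 7) (nat_lit 5) (nat_lit 1) (nat_lit 7) (nat_lit 75) (nat_lit 190) r8_75 r5_190 (nat_lit 0) (nat_lit 0) (nat_lit 0) (nat_lit 0x205c74cbe) (nat_lit 262789806)]
noncomputable def e26_6 : List Rx := [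
  Rx.mk (nat_lit 231) (nat_lit 7) (nat_lit 4) (nat_lit 3) (nat_lit 5) (nat_lit 43) (nat_lit 115) r8_43 r3_115 (nat_lit 0) (nat_lit 242054) (nat_lit 0) (nat_lit 0x2005aee2a) (nat_lit 268432060),
  Rx.mk (nat_lit 239) (nat_lit 7) (nat_lit 5) (nat_lit 3) (nat_lit 7) (nat_lit 44) (nat_lit 116) r8_44 r3_116 (nat_lit 0) (nat_lit 0) (nat_lit 0) (nat_lit 0x2160eb1e8) (nat_lit 246056756),
  Rx.mk (nat_lit 251) (nat_lit 3) (nat_lit 7) (nat_lit 3) (nat_lit 7) (nat_lit 45) (nat_lit 118) r8_45 r3_118 (nat_lit 0) (nat_lit 0) (nat_lit 0) (nat_lit 0x1fe3dbd02) (nat_lit 270617606),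
  Rx.mk (nat_lit 255) (nat_lit 7) (nat_lit 7) (nat_lit 3) (nat_lit 7) (nat_lit 46) (nat_lit 117) r8_46 r3_117 (nat_lit 0) (nat_lit 0) (nat_lit 0) (nat_lit 0x1fbb3e750) (nat_lit 273282006)]
noncomputable def e26_7 : List Rx := [
  Rx.mk (nat_lit 251) (nat_lit 3) (nat_lit 7) (nat_lit 3) (nat_lit 7) (nat_lit 12) (nat_lit 132) r8_12 r0_132 (nat_lit 0) (nat_lit 0) (nat_lit 0) (nat_lit 0x20056d4f2) (nat_lit 268435456),
  Rx.mk (nat_lit 255) (nat_lit 7) (nat_lit 7) (nat_lit 3) (nat_lit 7) (nat_lit 13) (nat_lit 131) r8_13 r0_131 (nat_lit 0) (nat_lit 0) (nat_lit 0) (nat_lit 0x1ff9ddc54) (nat_lit 269187956),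
  Rx.mk (nat_lit 292) (nat_lit 4) (nat_lit 4) (nat_lit 4) (nat_lit 0) (nat_lit 0) (nat_lit 124) r8_0 r0_124 (nat_lit 10221547) (nat_lit 548020) (nat_lit 641106) (nat_lit 0xdf239f5a) (nat_lit 586659229),
  Rx.mk (nat_lit 300) (nat_lit 4) (nat_lit 5) (nat_lit 4) (nat_lit 2) (nat_lit 3) (nat_lit 127) r8_3 r0_127 (nat_lit 22390317) (nat_lit 0) (nat_lit 8596723) (nat_lit 0x181f48a6e) (nat_lit 433430596),
  Rx.mk (nat_lit 308) (nat_lit 4) (nat_lit 6) (nat_lit 4) (nat_lit 2) (nat_lit 6) (nat_lit 133) r8_6 r0_133 (nat_lit 8459973) (nat_lit 0) (nat_lit 5082939) (nat_lit 0x18412df6c) (nat_lit 413722318),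
  Rx.mk (nat_lit 310) (nat_lit 6) (nat_lit 6) (nat_lit 4) (nat_lit 3) (nat_lit 8) (nat_lit 136) r8_8 r0_136 (nat_lit 0) (nat_lit 0) (nat_lit 11005782) (nat_lit 0x1c8a0941c) (nat_lit 338427488),
  Rx.mk (nat_lit 438) (nat_lit 6) (nat_lit 6) (nat_lit 6) (nat_lit 7) (nat_lit 9) (nat_lit 138) r8_9 r0_138 (nat_lit 0) (nat_lit 0) (nat_lit 0) (nat_lit 0x20056d4f2) (nat_lit 268435456),
  Rx.mk (nat_lit 484) (nat_lit 4) (nat_lit 4) (nat_lit 7) (nat_lit 4) (nat_lit 1) (nat_lit 125) r8_1 r0_125 (nat_lit 21261060) (nat_lit 8977401) (nat_lit 0) (nat_lit 0x18db3ee76) (nat_lit 420209017),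
  Rx.mk (nat_lit 487) (nat_lit 7) (nat_lit 4) (nat_lit 7) (nat_lit 5) (nat_lit 2) (nat_lit 126) r8_2 r0_126 (nat_lit 0) (nat_lit 5563368) (nat_lit 0) (nat_lit 0x1d90bf3fa) (nat_lit 315546874),
  Rx.mk (nat_lit 492) (nat_lit 4) (nat_lit 5) (nat_lit 7) (nat_lit 6) (nat_lit 4) (nat_lit 128) r8_4 r0_128 (nat_lit 13103625) (nat_lit 0) (nat_lit 0) (nat_lit 0x1fa80595e) (nat_lit 287655681),
  Rx.mk (nat_lit 495) (nat_lit 7) (nat_lit 5) (nat_lit 7) (nat_lit 7) (nat_lit 5) (nat_lit 129) r8_5 r0_129 (nat_lit 0) (nat_lit 0) (nat_lit 0) (nat_lit 0x1fdc55c7c) (nat_lit 271115106),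
  Rx.mk (nat_lit 500) (nat_lit 4) (nat_lit 6) (nat_lit 7) (nat_lit 6) (nat_lit 7) (nat_lit 134) r8_7 r0_134 (nat_lit 17354866) (nat_lit 0) (nat_lit 0) (nat_lit 0x1fa7fc02a) (nat_lit 291906822),
  Rx.mk (nat_lit 502) (nat_lit 6) (nat_lit 6) (nat_lit 7) (nat_lit 7) (nat_lit 10) (nat_lit 137) r8_10 r0_137 (nat_lit 0) (nat_lit 0) (nat_lit 0) (nat_lit 0x20056d4f2) (nat_lit 268435456),
  Rx.mk (nat_lit 503) (nat_lit 7) (nat_lit 6) (nat_lit 7) (nat_lit 7) (nat_lit 11) (nat_lit 135) r8_11 r0_135 (nat_lit 0) (nat_lit 0) (nat_lit 0) (nat_lit 0x2003e8e1a) (nat_lit 268530456),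
  Rx.mk (nat_lit 511) (nat_lit 7) (nat_lit 7) (nat_lit 7) (nat_lit 7) (nat_lit 14) (nat_lit 130) r8_14 r0_130 (nat_lit 0) (nat_lit 0) (nat_lit 0) (nat_lit 0x1ff9e4946) (nat_lit 269186206)]
noncomputable def e26_8 : List Rx := [
  Rx.mk (nat_lit 292) (nat_lit 4) (nat_lit 4) (nat_lit 4) (nat_lit 0) (nat_lit 15) (nat_lit 131) r8_15 r1_131 (nat_lit 16284288) (nat_lit 12970436) (nat_lit 5200936) (nat_lit 0x1431ccdd8) (nat_lit 503628066),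
  Rx.mk (nat_lit 300) (nat_lit 4) (nat_lit 5) (nat_lit 4) (nat_lit 2) (nat_lit 18) (nat_lit 134) r8_18 r1_134 (nat_lit 29107008) (nat_lit 0) (nat_lit 9122221) (nat_lit 0x1d0963e24) (nat_lit 357196735),
  Rx.mk (nat_lit 308) (nat_lit 4) (nat_lit 6) (nat_lit 4) (nat_lit 2) (nat_lit 21) (nat_lit 138) r8_21 r1_138 (nat_lit 20913238) (nat_lit 0) (nat_lit 9541451) (nat_lit 0x1e0c4cea0) (nat_lit 332249895),
  Rx.mk (nat_lit 310) (nat_lit 6) (nat_lit 6) (nat_lit 4) (nat_lit 3) (nat_lit 22) (nat_lit 139) r8_22 r1_139 (nat_lit 0) (nat_lit 0) (nat_lit 8599271) (nat_lit 0x1fb1e00d2) (nat_lit 282498427),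
  Rx.mk (nat_lit 438) (nat_lit 6) (nat_lit 6) (nat_lit 6) (nat_lit 7) (nat_lit 23) (nat_lit 140) r8_23 r1_140 (nat_lit 0) (nat_lit 0) (nat_lit 0) (nat_lit 0x20056d4f2) (nat_lit 268435456),
  Rx.mk (nat_lit 484) (nat_lit 4) (nat_lit 4) (nat_lit 7) (nat_lit 4) (nat_lit 16) (nat_lit 132) r8_16 r1_132 (nat_lit 22083687) (nat_lit 19111015) (nat_lit 0) (nat_lit 0x1d7134e54) (nat_lit 353280508),
  Rx.mk (nat_lit 487) (nat_lit 7) (nat_lit 4) (nat_lit 7) (nat_lit 5) (nat_lit 17) (nat_lit 133) r8_17 r1_133 (nat_lit 0) (nat_lit 6904608) (nat_lit 0) (nat_lit 0x20290cb56) (nat_lit 273020764),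
  Rx.mk (nat_lit 492) (nat_lit 4) (nat_lit 5) (nat_lit 7) (nat_lit 6) (nat_lit 19) (nat_lit 135) r8_19 r1_135 (nat_lit 10065192) (nat_lit 0) (nat_lit 0) (nat_lit 0x1ff9d2c5a) (nat_lit 279255198),
  Rx.mk (nat_lit 495) (nat_lit 7) (nat_lit 5) (nat_lit 7) (nat_lit 7) (nat_lit 20) (nat_lit 136) r8_20 r1_136 (nat_lit 0) (nat_lit 0) (nat_lit 0) (nat_lit 0x20056d4f2) (nat_lit 268435456),
  Rx.mk (nat_lit 511) (nat_lit 7) (nat_lit 7) (nat_lit 7) (nat_lit 7) (nat_lit 24) (nat_lit 137) r8_24 r1_137 (nat_lit 0) (nat_lit 0) (nat_lit 0) (nat_lit 0x20056d4f2) (nat_lit 268435456)]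
noncomputable def e26_9 : List Rx := [
  Rx.mk (nat_lit 231) (nat_lit 7) (nat_lit 4) (nat_lit 3) (nat_lit 5) (nat_lit 48) (nat_lit 116) r8_48 r4_116 (nat_lit 0) (nat_lit 6335143) (nat_lit 0) (nat_lit 0x203ee26e2) (nat_lit 271036899),
  Rx.mk (nat_lit 239) (nat_lit 7) (nat_lit 5) (nat_lit 3) (nat_lit 7) (nat_lit 51) (nat_lit 119) r8_51 r4_119 (nat_lit 0) (nat_lit 0) (nat_lit 0) (nat_lit 0x2028cb836) (nat_lit 266134506),
  Rx.mk (nat_lit 251) (nat_lit 3) (nat_lit 7) (nat_lit 3) (nat_lit 7) (nat_lit 56) (nat_lit 121) r8_56 r4_121 (nat_lit 0) (nat_lit 0) (nat_lit 0) (nat_lit 0x20056d4f2) (nat_lit 268435456),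
  Rx.mk (nat_lit 255) (nat_lit 7) (nat_lit 7) (nat_lit 3) (nat_lit 7) (nat_lit 57) (nat_lit 120) r8_57 r4_120 (nat_lit 0) (nat_lit 0) (nat_lit 0) (nat_lit 0x20056d4f2) (nat_lit 268435456),
  Rx.mk (nat_lit 484) (nat_lit 4) (nat_lit 4) (nat_lit 7) (nat_lit 4) (nat_lit 47) (nat_lit 114) r8_47 r4_114 (nat_lit 11807297) (nat_lit 6982043) (nat_lit 0) (nat_lit 0x1b19f2d78) (nat_lit 370624546),
  Rx.mk (nat_lit 487) (nat_lit 7) (nat_lit 4) (nat_lit 7) (nat_lit 5) (nat_lit 49) (nat_lit 115) r8_49 r4_115 (nat_lit 0) (nat_lit 5122548) (nat_lit 0) (nat_lit 0x20397ba82) (nat_lit 270168654),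
  Rx.mk (nat_lit 492) (nat_lit 4) (nat_lit 5) (nat_lit 7) (nat_lit 6) (nat_lit 50) (nat_lit 117) r8_50 r4_117 (nat_lit 9484367) (nat_lit 0) (nat_lit 0) (nat_lit 0x20056d4f2) (nat_lit 277919823),
  Rx.mk (nat_lit 495) (nat_lit 7) (nat_lit 5) (nat_lit 7) (nat_lit 7) (nat_lit 52) (nat_lit 118) r8_52 r4_118 (nat_lit 0) (nat_lit 0) (nat_lit 0) (nat_lit 0x205b17592) (nat_lit 262878656),
  Rx.mk (nat_lit 500) (nat_lit 4) (nat_lit 6) (nat_lit 7) (nat_lit 6) (nat_lit 53) (nat_lit 122) r8_53 r4_122 (nat_lit 9484367) (nat_lit 0) (nat_lit 0) (nat_lit 0x20056d4f2) (nat_lit 277919823),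
  Rx.mk (nat_lit 502) (nat_lit 6) (nat_lit 6) (nat_lit 7) (nat_lit 7) (nat_lit 54) (nat_lit 124) r8_54 r4_124 (nat_lit 0) (nat_lit 0) (nat_lit 0) (nat_lit 0x20056d4f2) (nat_lit 268435456),
  Rx.mk (nat_lit 503) (nat_lit 7) (nat_lit 6) (nat_lit 7) (nat_lit 7) (nat_lit 55) (nat_lit 123) r8_55 r4_123 (nat_lit 0) (nat_lit 0) (nat_lit 0) (nat_lit 0x205b17592) (nat_lit 262878656)]
noncomputable def e26_10 : List Rx := [
  Rx.mk (nat_lit 47) (nat_lit 7) (nat_lit 5) (nat_lit 0) (nat_lit 3) (nat_lit 71) (nat_lit 203) r8_71 r6_203 (nat_lit 0) (nat_lit 0) (nat_lit 3112990) (nat_lit 0x203633f14) (nat_lit 268344796),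
  Rx.mk (nat_lit 111) (nat_lit 7) (nat_lit 5) (nat_lit 1) (nat_lit 7) (nat_lit 72) (nat_lit 204) r8_72 r6_204 (nat_lit 0) (nat_lit 0) (nat_lit 0) (nat_lit 0x2081b6e6e) (nat_lit 260388556),
  Rx.mk (nat_lit 239) (nat_lit 7) (nat_lit 5) (nat_lit 3) (nat_lit 7) (nat_lit 73) (nat_lit 205) r8_73 r6_205 (nat_lit 0) (nat_lit 0) (nat_lit 0) (nat_lit 0x20bcf9418) (nat_lit 256577206)]
noncomputable def e26_11 : List Rx := [
  Rx.mk (nat_lit 231) (nat_lit 7) (nat_lit 4) (nat_lit 3) (nat_lit 5) (nat_lit 58) (nat_lit 115) r8_58 r5_115 (nat_lit 0) (nat_lit 4768026) (nat_lit 0) (nat_lit 0x205744316) (nat_lit 267884932),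
  Rx.mk (nat_lit 239) (nat_lit 7) (nat_lit 5) (nat_lit 3) (nat_lit 7) (nat_lit 59) (nat_lit 116) r8_59 r5_116 (nat_lit 0) (nat_lit 0) (nat_lit 0) (nat_lit 0x2048f80d2) (nat_lit 264049356),
  Rx.mk (nat_lit 255) (nat_lit 7) (nat_lit 7) (nat_lit 3) (nat_lit 7) (nat_lit 60) (nat_lit 117) r8_60 r5_117 (nat_lit 0) (nat_lit 0) (nat_lit 0) (nat_lit 0x20056d4f2) (nat_lit 268435456)]
noncomputable def e26_12 : List Rx := [
  Rx.mk (nat_lit 108) (nat_lit 4) (nat_lit 5) (nat_lit 1) (nat_lit 6) (nat_lit 178) (nat_lit 289) r8_178 r0_289 (nat_lit 10787644) (nat_lit 0) (nat_lit 0) (nat_lit 0x1b3ca9fb0) (nat_lit 360329100),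
  Rx.mk (nat_lit 109) (nat_lit 5) (nat_lit 5) (nat_lit 1) (nat_lit 7) (nat_lit 179) (nat_lit 290) r8_179 r0_290 (nat_lit 0) (nat_lit 0) (nat_lit 0) (nat_lit 0x1ffe905b2) (nat_lit 268882256)]
noncomputable def e26_13 : List Rx := [
  Rx.mk (nat_lit 108) (nat_lit 4) (nat_lit 5) (nat_lit 1) (nat_lit 6) (nat_lit 184) (nat_lit 241) r8_184 r7_241 (nat_lit 6164355) (nat_lit 0) (nat_lit 0) (nat_lit 0x20253bd24) (nat_lit 272515511),
  Rx.mk (nat_lit 109) (nat_lit 5) (nat_lit 5) (nat_lit 1) (nat_lit 7) (nat_lit 186) (nat_lit 243) r8_186 r7_243 (nat_lit 0) (nat_lit 0) (nat_lit 0) (nat_lit 0x20056d4f2) (nat_lit 268435456),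
  Rx.mk (nat_lit 364) (nat_lit 4) (nat_lit 5) (nat_lit 5) (nat_lit 6) (nat_lit 185) (nat_lit 242) r8_185 r7_242 (nat_lit 9484367) (nat_lit 0) (nat_lit 0) (nat_lit 0x1f8a43b50) (nat_lit 285991423),
  Rx.mk (nat_lit 365) (nat_lit 5) (nat_lit 5) (nat_lit 5) (nat_lit 7) (nat_lit 187) (nat_lit 244) r8_187 r7_244 (nat_lit 0) (nat_lit 0) (nat_lit 0) (nat_lit 0x20056d4f2) (nat_lit 268435456),
  Rx.mk (nat_lit 367) (nat_lit 7) (nat_lit 5) (nat_lit 5) (nat_lit 7) (nat_lit 188) (nat_lit 245) r8_188 r7_245 (nat_lit 0) (nat_lit 0) (nat_lit 0) (nat_lit 0x20056d4f2) (nat_lit 268435456)]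
noncomputable def e26_14 : List Rx := [
  Rx.mk (nat_lit 109) (nat_lit 5) (nat_lit 5) (nat_lit 1) (nat_lit 7) (nat_lit 180) (nat_lit 286) r8_180 r1_286 (nat_lit 0) (nat_lit 0) (nat_lit 0) (nat_lit 0x20056d4f2) (nat_lit 268435456)]
noncomputable def e26_15 : List Rx := [
  Rx.mk (nat_lit 109) (nat_lit 5) (nat_lit 5) (nat_lit 1) (nat_lit 7) (nat_lit 189) (nat_lit 189) r8_189 r8_189 (nat_lit 0) (nat_lit 0) (nat_lit 0) (nat_lit 0x20056d4f2) (nat_lit 268435456),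
  Rx.mk (nat_lit 365) (nat_lit 5) (nat_lit 5) (nat_lit 5) (nat_lit 7) (nat_lit 190) (nat_lit 190) r8_190 r8_190 (nat_lit 0) (nat_lit 0) (nat_lit 0) (nat_lit 0x20056d4f2) (nat_lit 268435456)]
noncomputable def e26_16 : List Rx := [
  Rx.mk (nat_lit 364) (nat_lit 4) (nat_lit 5) (nat_lit 5) (nat_lit 6) (nat_lit 191) (nat_lit 323) r8_191 r8_323 (nat_lit 9484367) (nat_lit 0) (nat_lit 0) (nat_lit 0x1ff65bae0) (nat_lit 278900523),
  Rx.mk (nat_lit 365) (nat_lit 5) (nat_lit 5) (nat_lit 5) (nat_lit 7) (nat_lit 192) (nat_lit 324) r8_192 r8_324 (nat_lit 0) (nat_lit 0) (nat_lit 0) (nat_lit 0x20056d4f2) (nat_lit 268435456),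
  Rx.mk (nat_lit 367) (nat_lit 7) (nat_lit 5) (nat_lit 5) (nat_lit 7) (nat_lit 193) (nat_lit 325) r8_193 r8_325 (nat_lit 0) (nat_lit 0) (nat_lit 0) (nat_lit 0x20056d4f2) (nat_lit 268435456)]
noncomputable def e26_17 : List Rx := [
  Rx.mk (nat_lit 292) (nat_lit 4) (nat_lit 4) (nat_lit 4) (nat_lit 0) (nat_lit 159) (nat_lit 183) r8_159 r9_183 (nat_lit 2962037) (nat_lit 2940451) (nat_lit 4453267) (nat_lit 0x1121e1c0a) (nat_lit 531543861),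
  Rx.mk (nat_lit 295) (nat_lit 7) (nat_lit 4) (nat_lit 4) (nat_lit 1) (nat_lit 162) (nat_lit 192) r8_162 r9_192 (nat_lit 0) (nat_lit 9530506) (nat_lit 10265049) (nat_lit 0x1aabfbf22) (nat_lit 378936011),
  Rx.mk (nat_lit 300) (nat_lit 4) (nat_lit 5) (nat_lit 4) (nat_lit 2) (nat_lit 165) (nat_lit 185) r8_165 r9_185 (nat_lit 8158535) (nat_lit 0) (nat_lit 19239822) (nat_lit 0x1d532504e) (nat_lit 341477313),
  Rx.mk (nat_lit 303) (nat_lit 7) (nat_lit 5) (nat_lit 4) (nat_lit 3) (nat_lit 168) (nat_lit 195) r8_168 r9_195 (nat_lit 0) (nat_lit 0) (nat_lit 9484367) (nat_lit 0x20056d4f2) (nat_lit 277919823),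
  Rx.mk (nat_lit 308) (nat_lit 4) (nat_lit 6) (nat_lit 4) (nat_lit 2) (nat_lit 171) (nat_lit 187) r8_171 r9_187 (nat_lit 9044589) (nat_lit 0) (nat_lit 11392601) (nat_lit 0x1c6f1c2d0) (nat_lit 349642896),
  Rx.mk (nat_lit 310) (nat_lit 6) (nat_lit 6) (nat_lit 4) (nat_lit 3) (nat_lit 174) (nat_lit 199) r8_174 r9_199 (nat_lit 0) (nat_lit 0) (nat_lit 9484367) (nat_lit 0x20056d4f2) (nat_lit 277919823),
  Rx.mk (nat_lit 356) (nat_lit 4) (nat_lit 4) (nat_lit 5) (nat_lit 4) (nat_lit 160) (nat_lit 184) r8_160 r9_184 (nat_lit 19140889) (nat_lit 12531791) (nat_lit 0) (nat_lit 0x19e7d89c4) (nat_lit 403828636),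
  Rx.mk (nat_lit 357) (nat_lit 5) (nat_lit 4) (nat_lit 5) (nat_lit 5) (nat_lit 161) (nat_lit 189) r8_161 r9_189 (nat_lit 0) (nat_lit 9484367) (nat_lit 0) (nat_lit 0x20056d4f2) (nat_lit 277919823),
  Rx.mk (nat_lit 359) (nat_lit 7) (nat_lit 4) (nat_lit 5) (nat_lit 5) (nat_lit 163) (nat_lit 193) r8_163 r9_193 (nat_lit 0) (nat_lit 9484367) (nat_lit 0) (nat_lit 0x20056d4f2) (nat_lit 277919823),
  Rx.mk (nat_lit 364) (nat_lit 4) (nat_lit 5) (nat_lit 5) (nat_lit 6) (nat_lit 166) (nat_lit 186) r8_166 r9_186 (nat_lit 9484367) (nat_lit 0) (nat_lit 0) (nat_lit 0x20056d4f2) (nat_lit 277919823),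
  Rx.mk (nat_lit 365) (nat_lit 5) (nat_lit 5) (nat_lit 5) (nat_lit 7) (nat_lit 167) (nat_lit 190) r8_167 r9_190 (nat_lit 0) (nat_lit 0) (nat_lit 0) (nat_lit 0x20056d4f2) (nat_lit 268435456),
  Rx.mk (nat_lit 367) (nat_lit 7) (nat_lit 5) (nat_lit 5) (nat_lit 7) (nat_lit 169) (nat_lit 196) r8_169 r9_196 (nat_lit 0) (nat_lit 0) (nat_lit 0) (nat_lit 0x20056d4f2) (nat_lit 268435456),
  Rx.mk (nat_lit 372) (nat_lit 4) (nat_lit 6) (nat_lit 5) (nat_lit 6) (nat_lit 172) (nat_lit 188) r8_172 r9_188 (nat_lit 9484367) (nat_lit 0) (nat_lit 0) (nat_lit 0x20056d4f2) (nat_lit 277919823),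
  Rx.mk (nat_lit 373) (nat_lit 5) (nat_lit 6) (nat_lit 5) (nat_lit 7) (nat_lit 173) (nat_lit 191) r8_173 r9_191 (nat_lit 0) (nat_lit 0) (nat_lit 0) (nat_lit 0x20056d4f2) (nat_lit 268435456),
  Rx.mk (nat_lit 374) (nat_lit 6) (nat_lit 6) (nat_lit 5) (nat_lit 7) (nat_lit 175) (nat_lit 200) r8_175 r9_200 (nat_lit 0) (nat_lit 0) (nat_lit 0) (nat_lit 0x20056d4f2) (nat_lit 268435456),
  Rx.mk (nat_lit 438) (nat_lit 6) (nat_lit 6) (nat_lit 6) (nat_lit 7) (nat_lit 176) (nat_lit 201) r8_176 r9_201 (nat_lit 0) (nat_lit 0) (nat_lit 0) (nat_lit 0x20056d4f2) (nat_lit 268435456),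
  Rx.mk (nat_lit 487) (nat_lit 7) (nat_lit 4) (nat_lit 7) (nat_lit 5) (nat_lit 164) (nat_lit 194) r8_164 r9_194 (nat_lit 0) (nat_lit 9484367) (nat_lit 0) (nat_lit 0x20056d4f2) (nat_lit 277919823),
  Rx.mk (nat_lit 495) (nat_lit 7) (nat_lit 5) (nat_lit 7) (nat_lit 7) (nat_lit 170) (nat_lit 197) r8_170 r9_197 (nat_lit 0) (nat_lit 0) (nat_lit 0) (nat_lit 0x20056d4f2) (nat_lit 268435456),
  Rx.mk (nat_lit 511) (nat_lit 7) (nat_lit 7) (nat_lit 7) (nat_lit 7) (nat_lit 177) (nat_lit 198) r8_177 r9_198 (nat_lit 0) (nat_lit 0) (nat_lit 0) (nat_lit 0x20056d4f2) (nat_lit 268435456)]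
noncomputable def e26_18 : List Rx := [
  Rx.mk (nat_lit 108) (nat_lit 4) (nat_lit 5) (nat_lit 1) (nat_lit 6) (nat_lit 181) (nat_lit 304) r8_181 r4_304 (nat_lit 9015295) (nat_lit 0) (nat_lit 0) (nat_lit 0x1fe14e328) (nat_lit 279801251),
  Rx.mk (nat_lit 109) (nat_lit 5) (nat_lit 5) (nat_lit 1) (nat_lit 7) (nat_lit 182) (nat_lit 305) r8_182 r4_305 (nat_lit 0) (nat_lit 0) (nat_lit 0) (nat_lit 0x20056d4f2) (nat_lit 268435456),
  Rx.mk (nat_lit 111) (nat_lit 7) (nat_lit 5) (nat_lit 1) (nat_lit 7) (nat_lit 183) (nat_lit 306) r8_183 r4_306 (nat_lit 0) (nat_lit 0) (nat_lit 0) (nat_lit 0x20056d4f2) (nat_lit 268435456)]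
noncomputable def e26_19 : List Rx := [
  Rx.mk (nat_lit 108) (nat_lit 4) (nat_lit 5) (nat_lit 1) (nat_lit 6) (nat_lit 194) (nat_lit 191) r8_194 r10_191 (nat_lit 9484367) (nat_lit 0) (nat_lit 0) (nat_lit 0x20056d4f2) (nat_lit 277919823),
  Rx.mk (nat_lit 109) (nat_lit 5) (nat_lit 5) (nat_lit 1) (nat_lit 7) (nat_lit 195) (nat_lit 192) r8_195 r10_192 (nat_lit 0) (nat_lit 0) (nat_lit 0) (nat_lit 0x20056d4f2) (nat_lit 268435456),
  Rx.mk (nat_lit 111) (nat_lit 7) (nat_lit 5) (nat_lit 1) (nat_lit 7) (nat_lit 196) (nat_lit 193) r8_196 r10_193 (nat_lit 0) (nat_lit 0) (nat_lit 0) (nat_lit 0x20056d4f2) (nat_lit 268435456),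
  Rx.mk (nat_lit 367) (nat_lit 7) (nat_lit 5) (nat_lit 5) (nat_lit 7) (nat_lit 197) (nat_lit 194) r8_197 r10_194 (nat_lit 0) (nat_lit 0) (nat_lit 0) (nat_lit 0x20056d4f2) (nat_lit 268435456)]
noncomputable def e26_20 : List Rx := [
  Rx.mk (nat_lit 108) (nat_lit 4) (nat_lit 5) (nat_lit 1) (nat_lit 6) (nat_lit 198) (nat_lit 219) r8_198 r11_219 (nat_lit 9484367) (nat_lit 0) (nat_lit 0) (nat_lit 0x20056d4f2) (nat_lit 277919823),
  Rx.mk (nat_lit 109) (nat_lit 5) (nat_lit 5) (nat_lit 1) (nat_lit 7) (nat_lit 199) (nat_lit 220) r8_199 r11_220 (nat_lit 0) (nat_lit 0) (nat_lit 0) (nat_lit 0x20056d4f2) (nat_lit 268435456),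
  Rx.mk (nat_lit 111) (nat_lit 7) (nat_lit 5) (nat_lit 1) (nat_lit 7) (nat_lit 200) (nat_lit 221) r8_200 r11_221 (nat_lit 0) (nat_lit 0) (nat_lit 0) (nat_lit 0x20056d4f2) (nat_lit 268435456)]
noncomputable def e26_21 : List Rx := [
  Rx.mk (nat_lit 292) (nat_lit 4) (nat_lit 4) (nat_lit 4) (nat_lit 0) (nat_lit 133) (nat_lit 86) r8_133 r9_86 (nat_lit 5576143) (nat_lit 2770649) (nat_lit 5240963) (nat_lit 0xf2b552c0) (nat_lit 568130111),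
  Rx.mk (nat_lit 295) (nat_lit 7) (nat_lit 4) (nat_lit 4) (nat_lit 1) (nat_lit 135) (nat_lit 88) r8_135 r9_88 (nat_lit 0) (nat_lit 8355857) (nat_lit 10033396) (nat_lit 0x198607dee) (nat_lit 397036109),
  Rx.mk (nat_lit 308) (nat_lit 4) (nat_lit 6) (nat_lit 4) (nat_lit 2) (nat_lit 138) (nat_lit 92) r8_138 r9_92 (nat_lit 7159752) (nat_lit 0) (nat_lit 11833183) (nat_lit 0x19341fd38) (nat_lit 403074591),
  Rx.mk (nat_lit 310) (nat_lit 6) (nat_lit 6) (nat_lit 4) (nat_lit 3) (nat_lit 140) (nat_lit 96) r8_140 r9_96 (nat_lit 0) (nat_lit 0) (nat_lit 9484367) (nat_lit 0x1ff9f49f4) (nat_lit 278666623),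
  Rx.mk (nat_lit 311) (nat_lit 7) (nat_lit 6) (nat_lit 4) (nat_lit 3) (nat_lit 143) (nat_lit 94) r8_143 r9_94 (nat_lit 0) (nat_lit 0) (nat_lit 9484367) (nat_lit 0x1ffae62a4) (nat_lit 278605023),
  Rx.mk (nat_lit 356) (nat_lit 4) (nat_lit 4) (nat_lit 5) (nat_lit 4) (nat_lit 134) (nat_lit 87) r8_134 r9_87 (nat_lit 26943886) (nat_lit 10556072) (nat_lit 0) (nat_lit 0x1a1178842) (nat_lit 406893614),
  Rx.mk (nat_lit 359) (nat_lit 7) (nat_lit 4) (nat_lit 5) (nat_lit 5) (nat_lit 136) (nat_lit 89) r8_136 r9_89 (nat_lit 0) (nat_lit 9484367) (nat_lit 0) (nat_lit 0x20056d4f2) (nat_lit 277919823),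
  Rx.mk (nat_lit 372) (nat_lit 4) (nat_lit 6) (nat_lit 5) (nat_lit 6) (nat_lit 139) (nat_lit 93) r8_139 r9_93 (nat_lit 9484367) (nat_lit 0) (nat_lit 0) (nat_lit 0x20056d4f2) (nat_lit 277919823),
  Rx.mk (nat_lit 374) (nat_lit 6) (nat_lit 6) (nat_lit 5) (nat_lit 7) (nat_lit 141) (nat_lit 97) r8_141 r9_97 (nat_lit 0) (nat_lit 0) (nat_lit 0) (nat_lit 0x20056d4f2) (nat_lit 268435456),
  Rx.mk (nat_lit 375) (nat_lit 7) (nat_lit 6) (nat_lit 5) (nat_lit 7) (nat_lit 144) (nat_lit 95) r8_144 r9_95 (nat_lit 0) (nat_lit 0) (nat_lit 0) (nat_lit 0x20056d4f2) (nat_lit 268435456),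
  Rx.mk (nat_lit 438) (nat_lit 6) (nat_lit 6) (nat_lit 6) (nat_lit 7) (nat_lit 142) (nat_lit 98) r8_142 r9_98 (nat_lit 0) (nat_lit 0) (nat_lit 0) (nat_lit 0x20056d4f2) (nat_lit 268435456),
  Rx.mk (nat_lit 487) (nat_lit 7) (nat_lit 4) (nat_lit 7) (nat_lit 5) (nat_lit 137) (nat_lit 90) r8_137 r9_90 (nat_lit 0) (nat_lit 9484367) (nat_lit 0) (nat_lit 0x20056d4f2) (nat_lit 277919823),
  Rx.mk (nat_lit 511) (nat_lit 7) (nat_lit 7) (nat_lit 7) (nat_lit 7) (nat_lit 145) (nat_lit 91) r8_145 r9_91 (nat_lit 0) (nat_lit 0) (nat_lit 0) (nat_lit 0x20056d4f2) (nat_lit 268435456)]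
noncomputable def e26_22 : List Rx := [
  Rx.mk (nat_lit 251) (nat_lit 3) (nat_lit 7) (nat_lit 3) (nat_lit 7) (nat_lit 76) (nat_lit 139) r8_76 r0_139 (nat_lit 0) (nat_lit 0) (nat_lit 0) (nat_lit 0x1ff97bb76) (nat_lit 269212656),
  Rx.mk (nat_lit 255) (nat_lit 7) (nat_lit 7) (nat_lit 3) (nat_lit 7) (nat_lit 77) (nat_lit 140) r8_77 r0_140 (nat_lit 0) (nat_lit 0) (nat_lit 0) (nat_lit 0x20056d4f2) (nat_lit 268435456)]
noncomputable def e26_23 : List Rx := [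
  Rx.mk (nat_lit 0) (nat_lit 0) (nat_lit 0) (nat_lit 0) (nat_lit 0) (nat_lit 90) (nat_lit 141) r8_90 r1_141 (nat_lit 11933065) (nat_lit 2921945) (nat_lit 4308292) (nat_lit 0x103c1157c) (nat_lit 555604158),
  Rx.mk (nat_lit 24) (nat_lit 0) (nat_lit 3) (nat_lit 0) (nat_lit 2) (nat_lit 94) (nat_lit 142) r8_94 r1_142 (nat_lit 19611998) (nat_lit 0) (nat_lit 14059414) (nat_lit 0x1db198414) (nat_lit 341479368),
  Rx.mk (nat_lit 27) (nat_lit 3) (nat_lit 3) (nat_lit 0) (nat_lit 3) (nat_lit 97) (nat_lit 143) r8_97 r1_143 (nat_lit 0) (nat_lit 0) (nat_lit 9484367) (nat_lit 0x20000ee3e) (nat_lit 278269023),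
  Rx.mk (nat_lit 128) (nat_lit 0) (nat_lit 0) (nat_lit 2) (nat_lit 4) (nat_lit 91) (nat_lit 147) r8_91 r1_147 (nat_lit 10663373) (nat_lit 3978459) (nat_lit 0) (nat_lit 0x18b957628) (nat_lit 406863088),
  Rx.mk (nat_lit 130) (nat_lit 2) (nat_lit 0) (nat_lit 2) (nat_lit 5) (nat_lit 92) (nat_lit 150) r8_92 r1_150 (nat_lit 0) (nat_lit 8196881) (nat_lit 0) (nat_lit 0x1ec204662) (nat_lit 297938937),
  Rx.mk (nat_lit 146) (nat_lit 2) (nat_lit 2) (nat_lit 2) (nat_lit 7) (nat_lit 93) (nat_lit 152) r8_93 r1_152 (nat_lit 0) (nat_lit 0) (nat_lit 0) (nat_lit 0x20056d4f2) (nat_lit 268435456),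
  Rx.mk (nat_lit 152) (nat_lit 0) (nat_lit 3) (nat_lit 2) (nat_lit 6) (nat_lit 95) (nat_lit 148) r8_95 r1_148 (nat_lit 9657344) (nat_lit 0) (nat_lit 0) (nat_lit 0x1ff57a838) (nat_lit 279131350),
  Rx.mk (nat_lit 154) (nat_lit 2) (nat_lit 3) (nat_lit 2) (nat_lit 7) (nat_lit 96) (nat_lit 151) r8_96 r1_151 (nat_lit 0) (nat_lit 0) (nat_lit 0) (nat_lit 0x20056d4f2) (nat_lit 268435456),
  Rx.mk (nat_lit 155) (nat_lit 3) (nat_lit 3) (nat_lit 2) (nat_lit 7) (nat_lit 98) (nat_lit 149) r8_98 r1_149 (nat_lit 0) (nat_lit 0) (nat_lit 0) (nat_lit 0x20056d4f2) (nat_lit 268435456),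
  Rx.mk (nat_lit 219) (nat_lit 3) (nat_lit 3) (nat_lit 3) (nat_lit 7) (nat_lit 99) (nat_lit 144) r8_99 r1_144 (nat_lit 0) (nat_lit 0) (nat_lit 0) (nat_lit 0x20056d4f2) (nat_lit 268435456),
  Rx.mk (nat_lit 251) (nat_lit 3) (nat_lit 7) (nat_lit 3) (nat_lit 7) (nat_lit 100) (nat_lit 145) r8_100 r1_145 (nat_lit 0) (nat_lit 0) (nat_lit 0) (nat_lit 0x20056d4f2) (nat_lit 268435456),
  Rx.mk (nat_lit 255) (nat_lit 7) (nat_lit 7) (nat_lit 3) (nat_lit 7) (nat_lit 101) (nat_lit 146) r8_101 r1_146 (nat_lit 0) (nat_lit 0) (nat_lit 0) (nat_lit 0x20056d4f2) (nat_lit 268435456)]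
noncomputable def e26_24 : List Rx := [
  Rx.mk (nat_lit 231) (nat_lit 7) (nat_lit 4) (nat_lit 3) (nat_lit 5) (nat_lit 146) (nat_lit 126) r8_146 r4_126 (nat_lit 0) (nat_lit 6858864) (nat_lit 0) (nat_lit 0x2021fa62e) (nat_lit 273435420),
  Rx.mk (nat_lit 251) (nat_lit 3) (nat_lit 7) (nat_lit 3) (nat_lit 7) (nat_lit 147) (nat_lit 125) r8_147 r4_125 (nat_lit 0) (nat_lit 0) (nat_lit 0) (nat_lit 0x20056d4f2) (nat_lit 268435456),
  Rx.mk (nat_lit 255) (nat_lit 7) (nat_lit 7) (nat_lit 3) (nat_lit 7) (nat_lit 148) (nat_lit 127) r8_148 r4_127 (nat_lit 0) (nat_lit 0) (nat_lit 0) (nat_lit 0x20056d4f2) (nat_lit 268435456)]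
noncomputable def e26_25 : List Rx := [
  Rx.mk (nat_lit 251) (nat_lit 3) (nat_lit 7) (nat_lit 3) (nat_lit 7) (nat_lit 87) (nat_lit 141) r8_87 r7_141 (nat_lit 0) (nat_lit 0) (nat_lit 0) (nat_lit 0x20056d4f2) (nat_lit 268435456),
  Rx.mk (nat_lit 255) (nat_lit 7) (nat_lit 7) (nat_lit 3) (nat_lit 7) (nat_lit 88) (nat_lit 140) r8_88 r7_140 (nat_lit 0) (nat_lit 0) (nat_lit 0) (nat_lit 0x20056d4f2) (nat_lit 268435456),
  Rx.mk (nat_lit 292) (nat_lit 4) (nat_lit 4) (nat_lit 4) (nat_lit 0) (nat_lit 78) (nat_lit 136) r8_78 r7_136 (nat_lit 7198289) (nat_lit 2733102) (nat_lit 2425005) (nat_lit 0xe238fa28) (nat_lit 584393802),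
  Rx.mk (nat_lit 308) (nat_lit 4) (nat_lit 6) (nat_lit 4) (nat_lit 2) (nat_lit 81) (nat_lit 142) r8_81 r7_142 (nat_lit 2929309) (nat_lit 0) (nat_lit 3122194) (nat_lit 0x1a0760b20) (nat_lit 376091909),
  Rx.mk (nat_lit 310) (nat_lit 6) (nat_lit 6) (nat_lit 4) (nat_lit 3) (nat_lit 83) (nat_lit 145) r8_83 r7_145 (nat_lit 0) (nat_lit 0) (nat_lit 10791901) (nat_lit 0x1f986bbb0) (nat_lit 286357257),
  Rx.mk (nat_lit 438) (nat_lit 6) (nat_lit 6) (nat_lit 6) (nat_lit 7) (nat_lit 84) (nat_lit 147) r8_84 r7_147 (nat_lit 0) (nat_lit 0) (nat_lit 0) (nat_lit 0x20056d4f2) (nat_lit 268435456),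
  Rx.mk (nat_lit 484) (nat_lit 4) (nat_lit 4) (nat_lit 7) (nat_lit 4) (nat_lit 79) (nat_lit 137) r8_79 r7_137 (nat_lit 9749284) (nat_lit 7126275) (nat_lit 0) (nat_lit 0x19f2f17ca) (nat_lit 388291215),
  Rx.mk (nat_lit 487) (nat_lit 7) (nat_lit 4) (nat_lit 7) (nat_lit 5) (nat_lit 80) (nat_lit 138) r8_80 r7_138 (nat_lit 0) (nat_lit 4537940) (nat_lit 0) (nat_lit 0x1fda0b7c8) (nat_lit 275782896),
  Rx.mk (nat_lit 500) (nat_lit 4) (nat_lit 6) (nat_lit 7) (nat_lit 6) (nat_lit 82) (nat_lit 143) r8_82 r7_143 (nat_lit 9484367) (nat_lit 0) (nat_lit 0) (nat_lit 0x20056d4f2) (nat_lit 277919823),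
  Rx.mk (nat_lit 502) (nat_lit 6) (nat_lit 6) (nat_lit 7) (nat_lit 7) (nat_lit 85) (nat_lit 146) r8_85 r7_146 (nat_lit 0) (nat_lit 0) (nat_lit 0) (nat_lit 0x20056d4f2) (nat_lit 268435456),
  Rx.mk (nat_lit 503) (nat_lit 7) (nat_lit 6) (nat_lit 7) (nat_lit 7) (nat_lit 86) (nat_lit 144) r8_86 r7_144 (nat_lit 0) (nat_lit 0) (nat_lit 0) (nat_lit 0x20056d4f2) (nat_lit 268435456),
  Rx.mk (nat_lit 511) (nat_lit 7) (nat_lit 7) (nat_lit 7) (nat_lit 7) (nat_lit 89) (nat_lit 139) r8_89 r7_139 (nat_lit 0) (nat_lit 0) (nat_lit 0) (nat_lit 0x20056d4f2) (nat_lit 268435456)]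
noncomputable def e26_26 : List Rx := [
  Rx.mk (nat_lit 0) (nat_lit 0) (nat_lit 0) (nat_lit 0) (nat_lit 0) (nat_lit 102) (nat_lit 114) r8_102 r8_114 (nat_lit 4187922) (nat_lit 2252895) (nat_lit 3145110) (nat_lit 0xd7a69a48) (nat_lit 592852383),
  Rx.mk (nat_lit 24) (nat_lit 0) (nat_lit 3) (nat_lit 0) (nat_lit 2) (nat_lit 108) (nat_lit 117) r8_108 r8_117 (nat_lit 668783) (nat_lit 0) (nat_lit 774941) (nat_lit 0x1b30dd394) (nat_lit 351691230),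
  Rx.mk (nat_lit 27) (nat_lit 3) (nat_lit 3) (nat_lit 0) (nat_lit 3) (nat_lit 111) (nat_lit 119) r8_111 r8_119 (nat_lit 0) (nat_lit 0) (nat_lit 9484367) (nat_lit 0x1fda9a98c) (nat_lit 280710373),
  Rx.mk (nat_lit 128) (nat_lit 0) (nat_lit 0) (nat_lit 2) (nat_lit 4) (nat_lit 103) (nat_lit 115) r8_103 r8_115 (nat_lit 4189087) (nat_lit 4156469) (nat_lit 0) (nat_lit 0x16b35e84a) (nat_lit 434950462),
  Rx.mk (nat_lit 130) (nat_lit 2) (nat_lit 0) (nat_lit 2) (nat_lit 5) (nat_lit 104) (nat_lit 116) r8_104 r8_116 (nat_lit 0) (nat_lit 6034803) (nat_lit 0) (nat_lit 0x1fee7420a) (nat_lit 275961759),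
  Rx.mk (nat_lit 146) (nat_lit 2) (nat_lit 2) (nat_lit 2) (nat_lit 7) (nat_lit 105) (nat_lit 125) r8_105 r8_125 (nat_lit 0) (nat_lit 0) (nat_lit 0) (nat_lit 0x20056d4f2) (nat_lit 268435456),
  Rx.mk (nat_lit 152) (nat_lit 0) (nat_lit 3) (nat_lit 2) (nat_lit 6) (nat_lit 109) (nat_lit 118) r8_109 r8_118 (nat_lit 9484367) (nat_lit 0) (nat_lit 0) (nat_lit 0x20056d4f2) (nat_lit 277919823),
  Rx.mk (nat_lit 154) (nat_lit 2) (nat_lit 3) (nat_lit 2) (nat_lit 7) (nat_lit 110) (nat_lit 122) r8_110 r8_122 (nat_lit 0) (nat_lit 0) (nat_lit 0) (nat_lit 0x20056d4f2) (nat_lit 268435456),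
  Rx.mk (nat_lit 155) (nat_lit 3) (nat_lit 3) (nat_lit 2) (nat_lit 7) (nat_lit 112) (nat_lit 121) r8_112 r8_121 (nat_lit 0) (nat_lit 0) (nat_lit 0) (nat_lit 0x20056d4f2) (nat_lit 268435456),
  Rx.mk (nat_lit 219) (nat_lit 3) (nat_lit 3) (nat_lit 3) (nat_lit 7) (nat_lit 113) (nat_lit 120) r8_113 r8_120 (nat_lit 0) (nat_lit 0) (nat_lit 0) (nat_lit 0x20056d4f2) (nat_lit 268435456),
  Rx.mk (nat_lit 251) (nat_lit 3) (nat_lit 7) (nat_lit 3) (nat_lit 7) (nat_lit 123) (nat_lit 107) r8_123 r8_107 (nat_lit 0) (nat_lit 0) (nat_lit 0) (nat_lit 0x20056d4f2) (nat_lit 268435456),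
  Rx.mk (nat_lit 255) (nat_lit 7) (nat_lit 7) (nat_lit 3) (nat_lit 7) (nat_lit 124) (nat_lit 106) r8_124 r8_106 (nat_lit 0) (nat_lit 0) (nat_lit 0) (nat_lit 0x20056d4f2) (nat_lit 268435456),
  Rx.mk (nat_lit 292) (nat_lit 4) (nat_lit 4) (nat_lit 4) (nat_lit 0) (nat_lit 114) (nat_lit 102) r8_114 r8_102 (nat_lit 4187922) (nat_lit 2252895) (nat_lit 3145110) (nat_lit 0xd7a69a48) (nat_lit 592852383),
  Rx.mk (nat_lit 308) (nat_lit 4) (nat_lit 6) (nat_lit 4) (nat_lit 2) (nat_lit 117) (nat_lit 108) r8_117 r8_108 (nat_lit 668783) (nat_lit 0) (nat_lit 774941) (nat_lit 0x1b30dd394) (nat_lit 351691230),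
  Rx.mk (nat_lit 310) (nat_lit 6) (nat_lit 6) (nat_lit 4) (nat_lit 3) (nat_lit 119) (nat_lit 111) r8_119 r8_111 (nat_lit 0) (nat_lit 0) (nat_lit 9484367) (nat_lit 0x1fda9a98c) (nat_lit 280710373),
  Rx.mk (nat_lit 402) (nat_lit 2) (nat_lit 2) (nat_lit 6) (nat_lit 7) (nat_lit 106) (nat_lit 124) r8_106 r8_124 (nat_lit 0) (nat_lit 0) (nat_lit 0) (nat_lit 0x20056d4f2) (nat_lit 268435456),
  Rx.mk (nat_lit 406) (nat_lit 6) (nat_lit 2) (nat_lit 6) (nat_lit 7) (nat_lit 107) (nat_lit 123) r8_107 r8_123 (nat_lit 0) (nat_lit 0) (nat_lit 0) (nat_lit 0x20056d4f2) (nat_lit 268435456),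
  Rx.mk (nat_lit 438) (nat_lit 6) (nat_lit 6) (nat_lit 6) (nat_lit 7) (nat_lit 120) (nat_lit 113) r8_120 r8_113 (nat_lit 0) (nat_lit 0) (nat_lit 0) (nat_lit 0x20056d4f2) (nat_lit 268435456),
  Rx.mk (nat_lit 484) (nat_lit 4) (nat_lit 4) (nat_lit 7) (nat_lit 4) (nat_lit 115) (nat_lit 103) r8_115 r8_103 (nat_lit 4189087) (nat_lit 4156469) (nat_lit 0) (nat_lit 0x16b35e84a) (nat_lit 434950462),
  Rx.mk (nat_lit 487) (nat_lit 7) (nat_lit 4) (nat_lit 7) (nat_lit 5) (nat_lit 116) (nat_lit 104) r8_116 r8_104 (nat_lit 0) (nat_lit 6034803) (nat_lit 0) (nat_lit 0x1fee7420a) (nat_lit 275961759),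
  Rx.mk (nat_lit 500) (nat_lit 4) (nat_lit 6) (nat_lit 7) (nat_lit 6) (nat_lit 118) (nat_lit 109) r8_118 r8_109 (nat_lit 9484367) (nat_lit 0) (nat_lit 0) (nat_lit 0x20056d4f2) (nat_lit 277919823),
  Rx.mk (nat_lit 502) (nat_lit 6) (nat_lit 6) (nat_lit 7) (nat_lit 7) (nat_lit 121) (nat_lit 112) r8_121 r8_112 (nat_lit 0) (nat_lit 0) (nat_lit 0) (nat_lit 0x20056d4f2) (nat_lit 268435456),
  Rx.mk (nat_lit 503) (nat_lit 7) (nat_lit 6) (nat_lit 7) (nat_lit 7) (nat_lit 122) (nat_lit 110) r8_122 r8_110 (nat_lit 0) (nat_lit 0) (nat_lit 0) (nat_lit 0x20056d4f2) (nat_lit 268435456),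
  Rx.mk (nat_lit 511) (nat_lit 7) (nat_lit 7) (nat_lit 7) (nat_lit 7) (nat_lit 125) (nat_lit 105) r8_125 r8_105 (nat_lit 0) (nat_lit 0) (nat_lit 0) (nat_lit 0x20056d4f2) (nat_lit 268435456)]
noncomputable def e26_27 : List Rx := [
  Rx.mk (nat_lit 292) (nat_lit 4) (nat_lit 4) (nat_lit 4) (nat_lit 0) (nat_lit 126) (nat_lit 126) r8_126 r8_126 (nat_lit 14395821) (nat_lit 2874288) (nat_lit 2874288) (nat_lit 0xf1d27a40) (nat_lit 575631903),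
  Rx.mk (nat_lit 308) (nat_lit 4) (nat_lit 6) (nat_lit 4) (nat_lit 2) (nat_lit 129) (nat_lit 127) r8_129 r8_127 (nat_lit 9896907) (nat_lit 0) (nat_lit 8331466) (nat_lit 0x1991bda12) (nat_lit 396097329),
  Rx.mk (nat_lit 310) (nat_lit 6) (nat_lit 6) (nat_lit 4) (nat_lit 3) (nat_lit 130) (nat_lit 128) r8_130 r8_128 (nat_lit 0) (nat_lit 0) (nat_lit 9484367) (nat_lit 0x1ff9aaa2a) (nat_lit 278685173),
  Rx.mk (nat_lit 438) (nat_lit 6) (nat_lit 6) (nat_lit 6) (nat_lit 7) (nat_lit 131) (nat_lit 132) r8_131 r8_132 (nat_lit 0) (nat_lit 0) (nat_lit 0) (nat_lit 0x20056d4f2) (nat_lit 268435456),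
  Rx.mk (nat_lit 484) (nat_lit 4) (nat_lit 4) (nat_lit 7) (nat_lit 4) (nat_lit 127) (nat_lit 129) r8_127 r8_129 (nat_lit 9896907) (nat_lit 8331466) (nat_lit 0) (nat_lit 0x1991bda12) (nat_lit 396097329),
  Rx.mk (nat_lit 487) (nat_lit 7) (nat_lit 4) (nat_lit 7) (nat_lit 5) (nat_lit 128) (nat_lit 130) r8_128 r8_130 (nat_lit 0) (nat_lit 9484367) (nat_lit 0) (nat_lit 0x1ff9aaa2a) (nat_lit 278685173),
  Rx.mk (nat_lit 511) (nat_lit 7) (nat_lit 7) (nat_lit 7) (nat_lit 7) (nat_lit 132) (nat_lit 131) r8_132 r8_131 (nat_lit 0) (nat_lit 0) (nat_lit 0) (nat_lit 0x20056d4f2) (nat_lit 268435456)]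
noncomputable def e26_28 : List Rx := [
  Rx.mk (nat_lit 231) (nat_lit 7) (nat_lit 4) (nat_lit 3) (nat_lit 5) (nat_lit 150) (nat_lit 103) r8_150 r10_103 (nat_lit 0) (nat_lit 9484367) (nat_lit 0) (nat_lit 0x1fe950e7c) (nat_lit 279752073),
  Rx.mk (nat_lit 251) (nat_lit 3) (nat_lit 7) (nat_lit 3) (nat_lit 7) (nat_lit 155) (nat_lit 105) r8_155 r10_105 (nat_lit 0) (nat_lit 0) (nat_lit 0) (nat_lit 0x20056d4f2) (nat_lit 268435456),
  Rx.mk (nat_lit 255) (nat_lit 7) (nat_lit 7) (nat_lit 3) (nat_lit 7) (nat_lit 156) (nat_lit 104) r8_156 r10_104 (nat_lit 0) (nat_lit 0) (nat_lit 0) (nat_lit 0x20056d4f2) (nat_lit 268435456),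
  Rx.mk (nat_lit 484) (nat_lit 4) (nat_lit 4) (nat_lit 7) (nat_lit 4) (nat_lit 149) (nat_lit 101) r8_149 r10_101 (nat_lit 8541134) (nat_lit 6364952) (nat_lit 0) (nat_lit 0x186a9d334) (nat_lit 412357992),
  Rx.mk (nat_lit 487) (nat_lit 7) (nat_lit 4) (nat_lit 7) (nat_lit 5) (nat_lit 151) (nat_lit 102) r8_151 r10_102 (nat_lit 0) (nat_lit 4442685) (nat_lit 0) (nat_lit 0x203b15f3c) (nat_lit 269384691),
  Rx.mk (nat_lit 500) (nat_lit 4) (nat_lit 6) (nat_lit 7) (nat_lit 6) (nat_lit 152) (nat_lit 106) r8_152 r10_106 (nat_lit 9484367) (nat_lit 0) (nat_lit 0) (nat_lit 0x1ff13e1a2) (nat_lit 279234723),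
  Rx.mk (nat_lit 502) (nat_lit 6) (nat_lit 6) (nat_lit 7) (nat_lit 7) (nat_lit 153) (nat_lit 108) r8_153 r10_108 (nat_lit 0) (nat_lit 0) (nat_lit 0) (nat_lit 0x20056d4f2) (nat_lit 268435456),
  Rx.mk (nat_lit 503) (nat_lit 7) (nat_lit 6) (nat_lit 7) (nat_lit 7) (nat_lit 154) (nat_lit 107) r8_154 r10_107 (nat_lit 0) (nat_lit 0) (nat_lit 0) (nat_lit 0x20056d4f2) (nat_lit 268435456)]
noncomputable def e26_29 : List Rx := [
  Rx.mk (nat_lit 231) (nat_lit 7) (nat_lit 4) (nat_lit 3) (nat_lit 5) (nat_lit 157) (nat_lit 113) r8_157 r11_113 (nat_lit 0) (nat_lit 9484367) (nat_lit 0) (nat_lit 0x20056d4f2) (nat_lit 277919823),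
  Rx.mk (nat_lit 255) (nat_lit 7) (nat_lit 7) (nat_lit 3) (nat_lit 7) (nat_lit 158) (nat_lit 114) r8_158 r11_114 (nat_lit 0) (nat_lit 0) (nat_lit 0) (nat_lit 0x20056d4f2) (nat_lit 268435456)]
noncomputable def e26_30 : List Rx := [
  Rx.mk (nat_lit 111) (nat_lit 7) (nat_lit 5) (nat_lit 1) (nat_lit 7) (nat_lit 218) (nat_lit 285) r8_218 r5_285 (nat_lit 0) (nat_lit 0) (nat_lit 0) (nat_lit 0x20b6fc0ce) (nat_lit 256962806)]
noncomputable def e26_31 : List Rx := [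
  Rx.mk (nat_lit 111) (nat_lit 7) (nat_lit 5) (nat_lit 1) (nat_lit 7) (nat_lit 219) (nat_lit 344) r8_219 r11_344 (nat_lit 0) (nat_lit 0) (nat_lit 0) (nat_lit 0x2041d1240) (nat_lit 264513806),
  Rx.mk (nat_lit 367) (nat_lit 7) (nat_lit 5) (nat_lit 5) (nat_lit 7) (nat_lit 220) (nat_lit 343) r8_220 r11_343 (nat_lit 0) (nat_lit 0) (nat_lit 0) (nat_lit 0x20056d4f2) (nat_lit 268435456)]
noncomputable def e26_32 : List Rx := [
  Rx.mk (nat_lit 43) (nat_lit 3) (nat_lit 5) (nat_lit 0) (nat_lit 3) (nat_lit 221) (nat_lit 207) r8_221 r6_207 (nat_lit 0) (nat_lit 0) (nat_lit 7973947) (nat_lit 0x1ffd61c22) (nat_lit 276924103),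
  Rx.mk (nat_lit 107) (nat_lit 3) (nat_lit 5) (nat_lit 1) (nat_lit 7) (nat_lit 222) (nat_lit 208) r8_222 r6_208 (nat_lit 0) (nat_lit 0) (nat_lit 0) (nat_lit 0x20056d4f2) (nat_lit 268435456),
  Rx.mk (nat_lit 235) (nat_lit 3) (nat_lit 5) (nat_lit 3) (nat_lit 7) (nat_lit 223) (nat_lit 209) r8_223 r6_209 (nat_lit 0) (nat_lit 0) (nat_lit 0) (nat_lit 0x20056d4f2) (nat_lit 268435456),
  Rx.mk (nat_lit 239) (nat_lit 7) (nat_lit 5) (nat_lit 3) (nat_lit 7) (nat_lit 224) (nat_lit 206) r8_224 r6_206 (nat_lit 0) (nat_lit 0) (nat_lit 0) (nat_lit 0x20a32e4ac) (nat_lit 258234956)]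
noncomputable def e26_33 : List Rx := [
  Rx.mk (nat_lit 227) (nat_lit 3) (nat_lit 4) (nat_lit 3) (nat_lit 5) (nat_lit 201) (nat_lit 118) r8_201 r5_118 (nat_lit 0) (nat_lit 10516088) (nat_lit 0) (nat_lit 0x1ee71f3b6) (nat_lit 297804694),
  Rx.mk (nat_lit 231) (nat_lit 7) (nat_lit 4) (nat_lit 3) (nat_lit 5) (nat_lit 202) (nat_lit 121) r8_202 r5_121 (nat_lit 0) (nat_lit 3592322) (nat_lit 0) (nat_lit 0x1f944b18e) (nat_lit 279407828),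
  Rx.mk (nat_lit 235) (nat_lit 3) (nat_lit 5) (nat_lit 3) (nat_lit 7) (nat_lit 203) (nat_lit 119) r8_203 r5_119 (nat_lit 0) (nat_lit 0) (nat_lit 0) (nat_lit 0x20056d4f2) (nat_lit 268435456),
  Rx.mk (nat_lit 239) (nat_lit 7) (nat_lit 5) (nat_lit 3) (nat_lit 7) (nat_lit 204) (nat_lit 122) r8_204 r5_122 (nat_lit 0) (nat_lit 0) (nat_lit 0) (nat_lit 0x20bbcbb72) (nat_lit 256653156),
  Rx.mk (nat_lit 251) (nat_lit 3) (nat_lit 7) (nat_lit 3) (nat_lit 7) (nat_lit 205) (nat_lit 120) r8_205 r5_120 (nat_lit 0) (nat_lit 0) (nat_lit 0) (nat_lit 0x20056d4f2) (nat_lit 268435456)]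
noncomputable def e26_34 : List Rx := [
  Rx.mk (nat_lit 227) (nat_lit 3) (nat_lit 4) (nat_lit 3) (nat_lit 5) (nat_lit 206) (nat_lit 115) r8_206 r11_115 (nat_lit 0) (nat_lit 10015832) (nat_lit 0) (nat_lit 0x1fdbfee04) (nat_lit 281155438),
  Rx.mk (nat_lit 231) (nat_lit 7) (nat_lit 4) (nat_lit 3) (nat_lit 5) (nat_lit 207) (nat_lit 118) r8_207 r11_118 (nat_lit 0) (nat_lit 9484367) (nat_lit 0) (nat_lit 0x20056d4f2) (nat_lit 277919823),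
  Rx.mk (nat_lit 235) (nat_lit 3) (nat_lit 5) (nat_lit 3) (nat_lit 7) (nat_lit 209) (nat_lit 116) r8_209 r11_116 (nat_lit 0) (nat_lit 0) (nat_lit 0) (nat_lit 0x20056d4f2) (nat_lit 268435456),
  Rx.mk (nat_lit 239) (nat_lit 7) (nat_lit 5) (nat_lit 3) (nat_lit 7) (nat_lit 210) (nat_lit 119) r8_210 r11_119 (nat_lit 0) (nat_lit 0) (nat_lit 0) (nat_lit 0x20056d4f2) (nat_lit 268435456),
  Rx.mk (nat_lit 251) (nat_lit 3) (nat_lit 7) (nat_lit 3) (nat_lit 7) (nat_lit 213) (nat_lit 117) r8_213 r11_117 (nat_lit 0) (nat_lit 0) (nat_lit 0) (nat_lit 0x20056d4f2) (nat_lit 268435456),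
  Rx.mk (nat_lit 487) (nat_lit 7) (nat_lit 4) (nat_lit 7) (nat_lit 5) (nat_lit 208) (nat_lit 120) r8_208 r11_120 (nat_lit 0) (nat_lit 6380904) (nat_lit 0) (nat_lit 0x200222932) (nat_lit 275019360),
  Rx.mk (nat_lit 495) (nat_lit 7) (nat_lit 5) (nat_lit 7) (nat_lit 7) (nat_lit 211) (nat_lit 121) r8_211 r11_121 (nat_lit 0) (nat_lit 0) (nat_lit 0) (nat_lit 0x203017a4a) (nat_lit 265661706),
  Rx.mk (nat_lit 503) (nat_lit 7) (nat_lit 6) (nat_lit 7) (nat_lit 7) (nat_lit 212) (nat_lit 122) r8_212 r11_122 (nat_lit 0) (nat_lit 0) (nat_lit 0) (nat_lit 0x203017a4a) (nat_lit 265661706)]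
noncomputable def e26_35 : List Rx := [
  Rx.mk (nat_lit 43) (nat_lit 3) (nat_lit 5) (nat_lit 0) (nat_lit 3) (nat_lit 214) (nat_lit 300) r8_214 r6_300 (nat_lit 0) (nat_lit 0) (nat_lit 8407643) (nat_lit 0x1fc19b2d8) (nat_lit 281260399),
  Rx.mk (nat_lit 47) (nat_lit 7) (nat_lit 5) (nat_lit 0) (nat_lit 3) (nat_lit 216) (nat_lit 301) r8_216 r6_301 (nat_lit 0) (nat_lit 0) (nat_lit 2919699) (nat_lit 0x2016d6edc) (nat_lit 270181455),
  Rx.mk (nat_lit 107) (nat_lit 3) (nat_lit 5) (nat_lit 1) (nat_lit 7) (nat_lit 215) (nat_lit 302) r8_215 r6_302 (nat_lit 0) (nat_lit 0) (nat_lit 0) (nat_lit 0x20056d4f2) (nat_lit 268435456),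
  Rx.mk (nat_lit 111) (nat_lit 7) (nat_lit 5) (nat_lit 1) (nat_lit 7) (nat_lit 217) (nat_lit 303) r8_217 r6_303 (nat_lit 0) (nat_lit 0) (nat_lit 0) (nat_lit 0x20936f3ea) (nat_lit 259247806)]
noncomputable def e26_36 : List Rx := [
  Rx.mk (nat_lit 43) (nat_lit 3) (nat_lit 5) (nat_lit 0) (nat_lit 3) (nat_lit 225) (nat_lit 203) r8_225 r12_203 (nat_lit 0) (nat_lit 0) (nat_lit 7891744) (nat_lit 0x1fc6d7b0c) (nat_lit 280406750),
  Rx.mk (nat_lit 47) (nat_lit 7) (nat_lit 5) (nat_lit 0) (nat_lit 3) (nat_lit 227) (nat_lit 205) r8_227 r12_205 (nat_lit 0) (nat_lit 0) (nat_lit 1718674) (nat_lit 0x2019e5d76) (nat_lit 268749930),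
  Rx.mk (nat_lit 107) (nat_lit 3) (nat_lit 5) (nat_lit 1) (nat_lit 7) (nat_lit 226) (nat_lit 204) r8_226 r12_204 (nat_lit 0) (nat_lit 0) (nat_lit 0) (nat_lit 0x20056d4f2) (nat_lit 268435456),
  Rx.mk (nat_lit 111) (nat_lit 7) (nat_lit 5) (nat_lit 1) (nat_lit 7) (nat_lit 228) (nat_lit 206) r8_228 r12_206 (nat_lit 0) (nat_lit 0) (nat_lit 0) (nat_lit 0x212881cf8) (nat_lit 249679706),
  Rx.mk (nat_lit 239) (nat_lit 7) (nat_lit 5) (nat_lit 3) (nat_lit 7) (nat_lit 229) (nat_lit 207) r8_229 r12_207 (nat_lit 0) (nat_lit 0) (nat_lit 0) (nat_lit 0x217654bc4) (nat_lit 244695456)]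
noncomputable def e26_37 : List Rx := [
  Rx.mk (nat_lit 8) (nat_lit 0) (nat_lit 1) (nat_lit 0) (nat_lit 2) (nat_lit 241) (nat_lit 188) r8_241 r0_188 (nat_lit 7060541) (nat_lit 0) (nat_lit 3895157) (nat_lit 0x16494bc14) (nat_lit 444572854),
  Rx.mk (nat_lit 11) (nat_lit 3) (nat_lit 1) (nat_lit 0) (nat_lit 3) (nat_lit 244) (nat_lit 191) r8_244 r0_191 (nat_lit 0) (nat_lit 0) (nat_lit 5196417) (nat_lit 0x1fa15acb2) (nat_lit 280172673),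
  Rx.mk (nat_lit 72) (nat_lit 0) (nat_lit 1) (nat_lit 1) (nat_lit 6) (nat_lit 242) (nat_lit 189) r8_242 r0_189 (nat_lit 7988855) (nat_lit 0) (nat_lit 0) (nat_lit 0x1dd308112) (nat_lit 313579111),
  Rx.mk (nat_lit 75) (nat_lit 3) (nat_lit 1) (nat_lit 1) (nat_lit 7) (nat_lit 245) (nat_lit 192) r8_245 r0_192 (nat_lit 0) (nat_lit 0) (nat_lit 0) (nat_lit 0x201316b9e) (nat_lit 267545656),
  Rx.mk (nat_lit 136) (nat_lit 0) (nat_lit 1) (nat_lit 2) (nat_lit 6) (nat_lit 243) (nat_lit 190) r8_243 r0_190 (nat_lit 56857679) (nat_lit 0) (nat_lit 0) (nat_lit 0x1feec1780) (nat_lit 326737435),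
  Rx.mk (nat_lit 139) (nat_lit 3) (nat_lit 1) (nat_lit 2) (nat_lit 7) (nat_lit 246) (nat_lit 194) r8_246 r0_194 (nat_lit 0) (nat_lit 0) (nat_lit 0) (nat_lit 0x201316b9e) (nat_lit 267545656),
  Rx.mk (nat_lit 203) (nat_lit 3) (nat_lit 1) (nat_lit 3) (nat_lit 7) (nat_lit 247) (nat_lit 193) r8_247 r0_193 (nat_lit 0) (nat_lit 0) (nat_lit 0) (nat_lit 0x20056d4f2) (nat_lit 268435456)]
noncomputable def e26_38 : List Rx := [
  Rx.mk (nat_lit 8) (nat_lit 0) (nat_lit 1) (nat_lit 0) (nat_lit 2) (nat_lit 230) (nat_lit 271) r8_230 r0_271 (nat_lit 24990952) (nat_lit 0) (nat_lit 15685587) (nat_lit 0x16ee57b22) (nat_lit 463363445),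
  Rx.mk (nat_lit 9) (nat_lit 1) (nat_lit 1) (nat_lit 0) (nat_lit 3) (nat_lit 232) (nat_lit 272) r8_232 r0_272 (nat_lit 0) (nat_lit 0) (nat_lit 13709057) (nat_lit 0x1e6527020) (nat_lit 309616313),
  Rx.mk (nat_lit 11) (nat_lit 3) (nat_lit 1) (nat_lit 0) (nat_lit 3) (nat_lit 234) (nat_lit 273) r8_234 r0_273 (nat_lit 0) (nat_lit 0) (nat_lit 9484367) (nat_lit 0x1ffb35d36) (nat_lit 278585473),
  Rx.mk (nat_lit 40) (nat_lit 0) (nat_lit 5) (nat_lit 0) (nat_lit 2) (nat_lit 237) (nat_lit 278) r8_237 r0_278 (nat_lit 4307608) (nat_lit 0) (nat_lit 11550315) (nat_lit 0x182dd78dc) (nat_lit 417310079),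
  Rx.mk (nat_lit 41) (nat_lit 1) (nat_lit 5) (nat_lit 0) (nat_lit 3) (nat_lit 239) (nat_lit 279) r8_239 r0_279 (nat_lit 0) (nat_lit 0) (nat_lit 9484367) (nat_lit 0x1fc24261e) (nat_lit 282306373),
  Rx.mk (nat_lit 72) (nat_lit 0) (nat_lit 1) (nat_lit 1) (nat_lit 6) (nat_lit 231) (nat_lit 274) r8_231 r0_274 (nat_lit 14687495) (nat_lit 0) (nat_lit 0) (nat_lit 0x1b66eebd6) (nat_lit 361425101),
  Rx.mk (nat_lit 73) (nat_lit 1) (nat_lit 1) (nat_lit 1) (nat_lit 7) (nat_lit 233) (nat_lit 275) r8_233 r0_275 (nat_lit 0) (nat_lit 0) (nat_lit 0) (nat_lit 0x1f8bb4142) (nat_lit 276413756),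
  Rx.mk (nat_lit 75) (nat_lit 3) (nat_lit 1) (nat_lit 1) (nat_lit 7) (nat_lit 235) (nat_lit 276) r8_235 r0_276 (nat_lit 0) (nat_lit 0) (nat_lit 0) (nat_lit 0x1ff5fca0e) (nat_lit 269441006),
  Rx.mk (nat_lit 104) (nat_lit 0) (nat_lit 5) (nat_lit 1) (nat_lit 6) (nat_lit 238) (nat_lit 280) r8_238 r0_280 (nat_lit 9900802) (nat_lit 0) (nat_lit 0) (nat_lit 0x1d302332a) (nat_lit 326302108),
  Rx.mk (nat_lit 105) (nat_lit 1) (nat_lit 5) (nat_lit 1) (nat_lit 7) (nat_lit 240) (nat_lit 281) r8_240 r0_281 (nat_lit 0) (nat_lit 0) (nat_lit 0) (nat_lit 0x2022bd70a) (nat_lit 266525506),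
  Rx.mk (nat_lit 203) (nat_lit 3) (nat_lit 1) (nat_lit 3) (nat_lit 7) (nat_lit 236) (nat_lit 277) r8_236 r0_277 (nat_lit 0) (nat_lit 0) (nat_lit 0) (nat_lit 0x20056d4f2) (nat_lit 268435456)]
noncomputable def e26_39 : List Rx := [
  Rx.mk (nat_lit 8) (nat_lit 0) (nat_lit 1) (nat_lit 0) (nat_lit 2) (nat_lit 248) (nat_lit 246) r8_248 r7_246 (nat_lit 10214042) (nat_lit 0) (nat_lit 11320174) (nat_lit 0x19516debc) (nat_lit 403669772),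
  Rx.mk (nat_lit 9) (nat_lit 1) (nat_lit 1) (nat_lit 0) (nat_lit 3) (nat_lit 251) (nat_lit 249) r8_251 r7_249 (nat_lit 0) (nat_lit 0) (nat_lit 9484367) (nat_lit 0x1ff43348e) (nat_lit 279041273),
  Rx.mk (nat_lit 11) (nat_lit 3) (nat_lit 1) (nat_lit 0) (nat_lit 3) (nat_lit 254) (nat_lit 252) r8_254 r7_252 (nat_lit 0) (nat_lit 0) (nat_lit 9484367) (nat_lit 0x20056d4f2) (nat_lit 277919823),
  Rx.mk (nat_lit 72) (nat_lit 0) (nat_lit 1) (nat_lit 1) (nat_lit 6) (nat_lit 249) (nat_lit 247) r8_249 r7_247 (nat_lit 9484367) (nat_lit 0) (nat_lit 0) (nat_lit 0x1f9da5748) (nat_lit 284716123),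
  Rx.mk (nat_lit 73) (nat_lit 1) (nat_lit 1) (nat_lit 1) (nat_lit 7) (nat_lit 252) (nat_lit 250) r8_252 r7_250 (nat_lit 0) (nat_lit 0) (nat_lit 0) (nat_lit 0x20056d4f2) (nat_lit 268435456),
  Rx.mk (nat_lit 75) (nat_lit 3) (nat_lit 1) (nat_lit 1) (nat_lit 7) (nat_lit 255) (nat_lit 253) r8_255 r7_253 (nat_lit 0) (nat_lit 0) (nat_lit 0) (nat_lit 0x20056d4f2) (nat_lit 268435456),
  Rx.mk (nat_lit 136) (nat_lit 0) (nat_lit 1) (nat_lit 2) (nat_lit 6) (nat_lit 250) (nat_lit 248) r8_250 r7_248 (nat_lit 9484367) (nat_lit 0) (nat_lit 0) (nat_lit 0x1ff7a7da4) (nat_lit 278815973),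
  Rx.mk (nat_lit 137) (nat_lit 1) (nat_lit 1) (nat_lit 2) (nat_lit 7) (nat_lit 253) (nat_lit 251) r8_253 r7_251 (nat_lit 0) (nat_lit 0) (nat_lit 0) (nat_lit 0x20056d4f2) (nat_lit 268435456),
  Rx.mk (nat_lit 203) (nat_lit 3) (nat_lit 1) (nat_lit 3) (nat_lit 7) (nat_lit 256) (nat_lit 254) r8_256 r7_254 (nat_lit 0) (nat_lit 0) (nat_lit 0) (nat_lit 0x20056d4f2) (nat_lit 268435456)]
noncomputable def e26_40 : List Rx := [
  Rx.mk (nat_lit 73) (nat_lit 1) (nat_lit 1) (nat_lit 1) (nat_lit 7) (nat_lit 320) (nat_lit 301) r8_320 r2_301 (nat_lit 0) (nat_lit 0) (nat_lit 0) (nat_lit 0x20056d4f2) (nat_lit 268435456),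
  Rx.mk (nat_lit 105) (nat_lit 1) (nat_lit 5) (nat_lit 1) (nat_lit 7) (nat_lit 321) (nat_lit 302) r8_321 r2_302 (nat_lit 0) (nat_lit 0) (nat_lit 0) (nat_lit 0x20056d4f2) (nat_lit 268435456),
  Rx.mk (nat_lit 109) (nat_lit 5) (nat_lit 5) (nat_lit 1) (nat_lit 7) (nat_lit 322) (nat_lit 303) r8_322 r2_303 (nat_lit 0) (nat_lit 0) (nat_lit 0) (nat_lit 0x20056d4f2) (nat_lit 268435456)]
noncomputable def e26_41 : List Rx := [
  Rx.mk (nat_lit 73) (nat_lit 1) (nat_lit 1) (nat_lit 1) (nat_lit 7) (nat_lit 326) (nat_lit 289) r8_326 r9_289 (nat_lit 0) (nat_lit 0) (nat_lit 0) (nat_lit 0x20056d4f2) (nat_lit 268435456)]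
noncomputable def e26_42 : List Rx := [
  Rx.mk (nat_lit 73) (nat_lit 1) (nat_lit 1) (nat_lit 1) (nat_lit 7) (nat_lit 327) (nat_lit 297) r8_327 r9_297 (nat_lit 0) (nat_lit 0) (nat_lit 0) (nat_lit 0x20056d4f2) (nat_lit 268435456),
  Rx.mk (nat_lit 105) (nat_lit 1) (nat_lit 5) (nat_lit 1) (nat_lit 7) (nat_lit 328) (nat_lit 296) r8_328 r9_296 (nat_lit 0) (nat_lit 0) (nat_lit 0) (nat_lit 0x20056d4f2) (nat_lit 268435456),
  Rx.mk (nat_lit 109) (nat_lit 5) (nat_lit 5) (nat_lit 1) (nat_lit 7) (nat_lit 329) (nat_lit 295) r8_329 r9_295 (nat_lit 0) (nat_lit 0) (nat_lit 0) (nat_lit 0x20056d4f2) (nat_lit 268435456),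
  Rx.mk (nat_lit 365) (nat_lit 5) (nat_lit 5) (nat_lit 5) (nat_lit 7) (nat_lit 330) (nat_lit 294) r8_330 r9_294 (nat_lit 0) (nat_lit 0) (nat_lit 0) (nat_lit 0x20056d4f2) (nat_lit 268435456)]
noncomputable def e26_43 : List Rx := [
  Rx.mk (nat_lit 9) (nat_lit 1) (nat_lit 1) (nat_lit 0) (nat_lit 3) (nat_lit 316) (nat_lit 274) r8_316 r1_274 (nat_lit 0) (nat_lit 0) (nat_lit 9484367) (nat_lit 0x1fcee3b0c) (nat_lit 281479073),
  Rx.mk (nat_lit 41) (nat_lit 1) (nat_lit 5) (nat_lit 0) (nat_lit 3) (nat_lit 318) (nat_lit 276) r8_318 r1_276 (nat_lit 0) (nat_lit 0) (nat_lit 9484367) (nat_lit 0x1fd832dac) (nat_lit 280871973),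
  Rx.mk (nat_lit 73) (nat_lit 1) (nat_lit 1) (nat_lit 1) (nat_lit 7) (nat_lit 317) (nat_lit 275) r8_317 r1_275 (nat_lit 0) (nat_lit 0) (nat_lit 0) (nat_lit 0x20056d4f2) (nat_lit 268435456),
  Rx.mk (nat_lit 105) (nat_lit 1) (nat_lit 5) (nat_lit 1) (nat_lit 7) (nat_lit 319) (nat_lit 277) r8_319 r1_277 (nat_lit 0) (nat_lit 0) (nat_lit 0) (nat_lit 0x20056d4f2) (nat_lit 268435456)]
noncomputable def e26_44 : List Rx := [
  Rx.mk (nat_lit 9) (nat_lit 1) (nat_lit 1) (nat_lit 0) (nat_lit 3) (nat_lit 323) (nat_lit 191) r8_323 r8_191 (nat_lit 0) (nat_lit 0) (nat_lit 9484367) (nat_lit 0x1ff65bae0) (nat_lit 278900523),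
  Rx.mk (nat_lit 73) (nat_lit 1) (nat_lit 1) (nat_lit 1) (nat_lit 7) (nat_lit 324) (nat_lit 192) r8_324 r8_192 (nat_lit 0) (nat_lit 0) (nat_lit 0) (nat_lit 0x20056d4f2) (nat_lit 268435456),
  Rx.mk (nat_lit 137) (nat_lit 1) (nat_lit 1) (nat_lit 2) (nat_lit 7) (nat_lit 325) (nat_lit 193) r8_325 r8_193 (nat_lit 0) (nat_lit 0) (nat_lit 0) (nat_lit 0x20056d4f2) (nat_lit 268435456)]
noncomputable def e26_45 : List Rx := [
  Rx.mk (nat_lit 0) (nat_lit 0) (nat_lit 0) (nat_lit 0) (nat_lit 0) (nat_lit 283) (nat_lit 201) r8_283 r1_201 (nat_lit 21867451) (nat_lit 2297773) (nat_lit 7297896) (nat_lit 0x122387504) (nat_lit 535543626),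
  Rx.mk (nat_lit 3) (nat_lit 3) (nat_lit 0) (nat_lit 0) (nat_lit 1) (nat_lit 286) (nat_lit 206) r8_286 r1_206 (nat_lit 0) (nat_lit 7735107) (nat_lit 11602876) (nat_lit 0x1a7f00338) (nat_lit 381456989),
  Rx.mk (nat_lit 8) (nat_lit 0) (nat_lit 1) (nat_lit 0) (nat_lit 2) (nat_lit 289) (nat_lit 202) r8_289 r1_202 (nat_lit 10882942) (nat_lit 0) (nat_lit 13214423) (nat_lit 0x19da949de) (nat_lit 397122321),
  Rx.mk (nat_lit 11) (nat_lit 3) (nat_lit 1) (nat_lit 0) (nat_lit 3) (nat_lit 293) (nat_lit 207) r8_293 r1_207 (nat_lit 0) (nat_lit 0) (nat_lit 9484367) (nat_lit 0x20056d4f2) (nat_lit 277919823),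
  Rx.mk (nat_lit 72) (nat_lit 0) (nat_lit 1) (nat_lit 1) (nat_lit 6) (nat_lit 290) (nat_lit 203) r8_290 r1_203 (nat_lit 9931330) (nat_lit 0) (nat_lit 0) (nat_lit 0x1fe7e6424) (nat_lit 280291336),
  Rx.mk (nat_lit 75) (nat_lit 3) (nat_lit 1) (nat_lit 1) (nat_lit 7) (nat_lit 294) (nat_lit 208) r8_294 r1_208 (nat_lit 0) (nat_lit 0) (nat_lit 0) (nat_lit 0x20056d4f2) (nat_lit 268435456),
  Rx.mk (nat_lit 128) (nat_lit 0) (nat_lit 0) (nat_lit 2) (nat_lit 4) (nat_lit 284) (nat_lit 204) r8_284 r1_204 (nat_lit 35547039) (nat_lit 6929116) (nat_lit 0) (nat_lit 0x1ae23a2dc) (nat_lit 398008261),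
  Rx.mk (nat_lit 130) (nat_lit 2) (nat_lit 0) (nat_lit 2) (nat_lit 5) (nat_lit 285) (nat_lit 214) r8_285 r1_214 (nat_lit 0) (nat_lit 8744868) (nat_lit 0) (nat_lit 0x1d6cc99f0) (nat_lit 321116524),
  Rx.mk (nat_lit 131) (nat_lit 3) (nat_lit 0) (nat_lit 2) (nat_lit 5) (nat_lit 287) (nat_lit 212) r8_287 r1_212 (nat_lit 0) (nat_lit 9484367) (nat_lit 0) (nat_lit 0x20056d4f2) (nat_lit 277919823),
  Rx.mk (nat_lit 136) (nat_lit 0) (nat_lit 1) (nat_lit 2) (nat_lit 6) (nat_lit 291) (nat_lit 205) r8_291 r1_205 (nat_lit 16360369) (nat_lit 0) (nat_lit 0) (nat_lit 0x207a02b46) (nat_lit 277234125),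
  Rx.mk (nat_lit 138) (nat_lit 2) (nat_lit 1) (nat_lit 2) (nat_lit 7) (nat_lit 292) (nat_lit 215) r8_292 r1_215 (nat_lit 0) (nat_lit 0) (nat_lit 0) (nat_lit 0x20ec457d0) (nat_lit 253540856),
  Rx.mk (nat_lit 139) (nat_lit 3) (nat_lit 1) (nat_lit 2) (nat_lit 7) (nat_lit 295) (nat_lit 213) r8_295 r1_213 (nat_lit 0) (nat_lit 0) (nat_lit 0) (nat_lit 0x20056d4f2) (nat_lit 268435456),
  Rx.mk (nat_lit 146) (nat_lit 2) (nat_lit 2) (nat_lit 2) (nat_lit 7) (nat_lit 297) (nat_lit 216) r8_297 r1_216 (nat_lit 0) (nat_lit 0) (nat_lit 0) (nat_lit 0x1fa0d60fc) (nat_lit 275021756),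
  Rx.mk (nat_lit 195) (nat_lit 3) (nat_lit 0) (nat_lit 3) (nat_lit 5) (nat_lit 288) (nat_lit 209) r8_288 r1_209 (nat_lit 0) (nat_lit 10031145) (nat_lit 0) (nat_lit 0x1fcf46e78) (nat_lit 282000201),
  Rx.mk (nat_lit 203) (nat_lit 3) (nat_lit 1) (nat_lit 3) (nat_lit 7) (nat_lit 296) (nat_lit 210) r8_296 r1_210 (nat_lit 0) (nat_lit 0) (nat_lit 0) (nat_lit 0x20056d4f2) (nat_lit 268435456),
  Rx.mk (nat_lit 219) (nat_lit 3) (nat_lit 3) (nat_lit 3) (nat_lit 7) (nat_lit 298) (nat_lit 211) r8_298 r1_211 (nat_lit 0) (nat_lit 0) (nat_lit 0) (nat_lit 0x20056d4f2) (nat_lit 268435456)]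
noncomputable def e26_46 : List Rx := [
  Rx.mk (nat_lit 0) (nat_lit 0) (nat_lit 0) (nat_lit 0) (nat_lit 0) (nat_lit 257) (nat_lit 221) r8_257 r2_221 (nat_lit 2321625) (nat_lit 2244531) (nat_lit 1855565) (nat_lit 0xfe82409a) (nat_lit 548419377),
  Rx.mk (nat_lit 3) (nat_lit 3) (nat_lit 0) (nat_lit 0) (nat_lit 1) (nat_lit 260) (nat_lit 223) r8_260 r2_223 (nat_lit 0) (nat_lit 7301851) (nat_lit 5757461) (nat_lit 0x1a8f639f0) (nat_lit 374092968),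
  Rx.mk (nat_lit 27) (nat_lit 3) (nat_lit 3) (nat_lit 0) (nat_lit 3) (nat_lit 263) (nat_lit 224) r8_263 r2_224 (nat_lit 0) (nat_lit 0) (nat_lit 9484367) (nat_lit 0x1fe0c5e6a) (nat_lit 280309623),
  Rx.mk (nat_lit 128) (nat_lit 0) (nat_lit 0) (nat_lit 2) (nat_lit 4) (nat_lit 258) (nat_lit 222) r8_258 r2_222 (nat_lit 12395174) (nat_lit 11911936) (nat_lit 0) (nat_lit 0x19af7245e) (nat_lit 400205166),
  Rx.mk (nat_lit 130) (nat_lit 2) (nat_lit 0) (nat_lit 2) (nat_lit 5) (nat_lit 259) (nat_lit 228) r8_259 r2_228 (nat_lit 0) (nat_lit 9484367) (nat_lit 0) (nat_lit 0x1fc9f84b2) (nat_lit 281792823),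
  Rx.mk (nat_lit 131) (nat_lit 3) (nat_lit 0) (nat_lit 2) (nat_lit 5) (nat_lit 261) (nat_lit 226) r8_261 r2_226 (nat_lit 0) (nat_lit 9484367) (nat_lit 0) (nat_lit 0x1fe9dbd10) (nat_lit 279713523),
  Rx.mk (nat_lit 146) (nat_lit 2) (nat_lit 2) (nat_lit 2) (nat_lit 7) (nat_lit 262) (nat_lit 229) r8_262 r2_229 (nat_lit 0) (nat_lit 0) (nat_lit 0) (nat_lit 0x20056d4f2) (nat_lit 268435456),
  Rx.mk (nat_lit 155) (nat_lit 3) (nat_lit 3) (nat_lit 2) (nat_lit 7) (nat_lit 264) (nat_lit 227) r8_264 r2_227 (nat_lit 0) (nat_lit 0) (nat_lit 0) (nat_lit 0x20056d4f2) (nat_lit 268435456),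
  Rx.mk (nat_lit 219) (nat_lit 3) (nat_lit 3) (nat_lit 3) (nat_lit 7) (nat_lit 265) (nat_lit 225) r8_265 r2_225 (nat_lit 0) (nat_lit 0) (nat_lit 0) (nat_lit 0x20056d4f2) (nat_lit 268435456)]
noncomputable def e26_47 : List Rx := [
  Rx.mk (nat_lit 0) (nat_lit 0) (nat_lit 0) (nat_lit 0) (nat_lit 0) (nat_lit 299) (nat_lit 299) r8_299 r8_299 (nat_lit 11217679) (nat_lit 12102617) (nat_lit 11217679) (nat_lit 0xff1c69e0) (nat_lit 575917581),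
  Rx.mk (nat_lit 3) (nat_lit 3) (nat_lit 0) (nat_lit 0) (nat_lit 1) (nat_lit 302) (nat_lit 300) r8_302 r8_300 (nat_lit 0) (nat_lit 15441429) (nat_lit 10262683) (nat_lit 0x1aef99716) (nat_lit 380358468),
  Rx.mk (nat_lit 8) (nat_lit 0) (nat_lit 1) (nat_lit 0) (nat_lit 2) (nat_lit 304) (nat_lit 304) r8_304 r8_304 (nat_lit 13082183) (nat_lit 0) (nat_lit 13082183) (nat_lit 0x1aaf180c0) (nat_lit 385098822),
  Rx.mk (nat_lit 9) (nat_lit 1) (nat_lit 1) (nat_lit 0) (nat_lit 3) (nat_lit 307) (nat_lit 305) r8_307 r8_305 (nat_lit 0) (nat_lit 0) (nat_lit 9484367) (nat_lit 0x20056d4f2) (nat_lit 277919823),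
  Rx.mk (nat_lit 11) (nat_lit 3) (nat_lit 1) (nat_lit 0) (nat_lit 3) (nat_lit 311) (nat_lit 306) r8_311 r8_306 (nat_lit 0) (nat_lit 0) (nat_lit 9484367) (nat_lit 0x20056d4f2) (nat_lit 277919823),
  Rx.mk (nat_lit 72) (nat_lit 0) (nat_lit 1) (nat_lit 1) (nat_lit 6) (nat_lit 305) (nat_lit 307) r8_305 r8_307 (nat_lit 9484367) (nat_lit 0) (nat_lit 0) (nat_lit 0x20056d4f2) (nat_lit 277919823),
  Rx.mk (nat_lit 73) (nat_lit 1) (nat_lit 1) (nat_lit 1) (nat_lit 7) (nat_lit 308) (nat_lit 308) r8_308 r8_308 (nat_lit 0) (nat_lit 0) (nat_lit 0) (nat_lit 0x20056d4f2) (nat_lit 268435456),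
  Rx.mk (nat_lit 75) (nat_lit 3) (nat_lit 1) (nat_lit 1) (nat_lit 7) (nat_lit 312) (nat_lit 309) r8_312 r8_309 (nat_lit 0) (nat_lit 0) (nat_lit 0) (nat_lit 0x20056d4f2) (nat_lit 268435456),
  Rx.mk (nat_lit 128) (nat_lit 0) (nat_lit 0) (nat_lit 2) (nat_lit 4) (nat_lit 300) (nat_lit 302) r8_300 r8_302 (nat_lit 10262683) (nat_lit 15441429) (nat_lit 0) (nat_lit 0x1aef99716) (nat_lit 380358468),
  Rx.mk (nat_lit 130) (nat_lit 2) (nat_lit 0) (nat_lit 2) (nat_lit 5) (nat_lit 301) (nat_lit 303) r8_301 r8_303 (nat_lit 0) (nat_lit 9484367) (nat_lit 0) (nat_lit 0x20056d4f2) (nat_lit 277919823),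
  Rx.mk (nat_lit 136) (nat_lit 0) (nat_lit 1) (nat_lit 2) (nat_lit 6) (nat_lit 306) (nat_lit 311) r8_306 r8_311 (nat_lit 9484367) (nat_lit 0) (nat_lit 0) (nat_lit 0x20056d4f2) (nat_lit 277919823),
  Rx.mk (nat_lit 137) (nat_lit 1) (nat_lit 1) (nat_lit 2) (nat_lit 7) (nat_lit 309) (nat_lit 312) r8_309 r8_312 (nat_lit 0) (nat_lit 0) (nat_lit 0) (nat_lit 0x20056d4f2) (nat_lit 268435456),
  Rx.mk (nat_lit 138) (nat_lit 2) (nat_lit 1) (nat_lit 2) (nat_lit 7) (nat_lit 310) (nat_lit 313) r8_310 r8_313 (nat_lit 0) (nat_lit 0) (nat_lit 0) (nat_lit 0x20056d4f2) (nat_lit 268435456),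
  Rx.mk (nat_lit 146) (nat_lit 2) (nat_lit 2) (nat_lit 2) (nat_lit 7) (nat_lit 314) (nat_lit 315) r8_314 r8_315 (nat_lit 0) (nat_lit 0) (nat_lit 0) (nat_lit 0x20056d4f2) (nat_lit 268435456),
  Rx.mk (nat_lit 195) (nat_lit 3) (nat_lit 0) (nat_lit 3) (nat_lit 5) (nat_lit 303) (nat_lit 301) r8_303 r8_301 (nat_lit 0) (nat_lit 9484367) (nat_lit 0) (nat_lit 0x20056d4f2) (nat_lit 277919823),
  Rx.mk (nat_lit 203) (nat_lit 3) (nat_lit 1) (nat_lit 3) (nat_lit 7) (nat_lit 313) (nat_lit 310) r8_313 r8_310 (nat_lit 0) (nat_lit 0) (nat_lit 0) (nat_lit 0x20056d4f2) (nat_lit 268435456),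
  Rx.mk (nat_lit 219) (nat_lit 3) (nat_lit 3) (nat_lit 3) (nat_lit 7) (nat_lit 315) (nat_lit 314) r8_315 r8_314 (nat_lit 0) (nat_lit 0) (nat_lit 0) (nat_lit 0x20056d4f2) (nat_lit 268435456)]
noncomputable def e26_48 : List Rx := [
  Rx.mk (nat_lit 0) (nat_lit 0) (nat_lit 0) (nat_lit 0) (nat_lit 0) (nat_lit 266) (nat_lit 202) r8_266 r9_202 (nat_lit 9425907) (nat_lit 10521872) (nat_lit 7358433) (nat_lit 0xfed8bfec) (nat_lit 568969768),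
  Rx.mk (nat_lit 3) (nat_lit 3) (nat_lit 0) (nat_lit 0) (nat_lit 1) (nat_lit 269) (nat_lit 204) r8_269 r9_204 (nat_lit 0) (nat_lit 8834210) (nat_lit 11295192) (nat_lit 0x1a59e41f8) (nat_lit 384717008),
  Rx.mk (nat_lit 27) (nat_lit 3) (nat_lit 3) (nat_lit 0) (nat_lit 3) (nat_lit 271) (nat_lit 205) r8_271 r9_205 (nat_lit 0) (nat_lit 0) (nat_lit 9484367) (nat_lit 0x20056d4f2) (nat_lit 277919823),
  Rx.mk (nat_lit 128) (nat_lit 0) (nat_lit 0) (nat_lit 2) (nat_lit 4) (nat_lit 267) (nat_lit 203) r8_267 r9_203 (nat_lit 12417474) (nat_lit 9102018) (nat_lit 0) (nat_lit 0x1c993f878) (nat_lit 347926448),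
  Rx.mk (nat_lit 130) (nat_lit 2) (nat_lit 0) (nat_lit 2) (nat_lit 5) (nat_lit 268) (nat_lit 207) r8_268 r9_207 (nat_lit 0) (nat_lit 9484367) (nat_lit 0) (nat_lit 0x20056d4f2) (nat_lit 277919823),
  Rx.mk (nat_lit 146) (nat_lit 2) (nat_lit 2) (nat_lit 2) (nat_lit 7) (nat_lit 270) (nat_lit 208) r8_270 r9_208 (nat_lit 0) (nat_lit 0) (nat_lit 0) (nat_lit 0x20056d4f2) (nat_lit 268435456),
  Rx.mk (nat_lit 219) (nat_lit 3) (nat_lit 3) (nat_lit 3) (nat_lit 7) (nat_lit 272) (nat_lit 206) r8_272 r9_206 (nat_lit 0) (nat_lit 0) (nat_lit 0) (nat_lit 0x20056d4f2) (nat_lit 268435456)]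
noncomputable def e26_49 : List Rx := [
  Rx.mk (nat_lit 0) (nat_lit 0) (nat_lit 0) (nat_lit 0) (nat_lit 0) (nat_lit 273) (nat_lit 99) r8_273 r9_99 (nat_lit 6484831) (nat_lit 4054147) (nat_lit 3522600) (nat_lit 0x102a7f066) (nat_lit 551671134),
  Rx.mk (nat_lit 3) (nat_lit 3) (nat_lit 0) (nat_lit 0) (nat_lit 1) (nat_lit 276) (nat_lit 100) r8_276 r9_100 (nat_lit 0) (nat_lit 8663689) (nat_lit 10509005) (nat_lit 0x19d99ca04) (nat_lit 392273250),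
  Rx.mk (nat_lit 27) (nat_lit 3) (nat_lit 3) (nat_lit 0) (nat_lit 3) (nat_lit 280) (nat_lit 101) r8_280 r9_101 (nat_lit 0) (nat_lit 0) (nat_lit 9484367) (nat_lit 0x20056d4f2) (nat_lit 277919823),
  Rx.mk (nat_lit 128) (nat_lit 0) (nat_lit 0) (nat_lit 2) (nat_lit 4) (nat_lit 274) (nat_lit 103) r8_274 r9_103 (nat_lit 11245750) (nat_lit 10624591) (nat_lit 0) (nat_lit 0x1a3e8be9c) (nat_lit 388272497),
  Rx.mk (nat_lit 130) (nat_lit 2) (nat_lit 0) (nat_lit 2) (nat_lit 5) (nat_lit 275) (nat_lit 106) r8_275 r9_106 (nat_lit 0) (nat_lit 9484367) (nat_lit 0) (nat_lit 0x20056d4f2) (nat_lit 277919823),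
  Rx.mk (nat_lit 131) (nat_lit 3) (nat_lit 0) (nat_lit 2) (nat_lit 5) (nat_lit 277) (nat_lit 104) r8_277 r9_104 (nat_lit 0) (nat_lit 9484367) (nat_lit 0) (nat_lit 0x20056d4f2) (nat_lit 277919823),
  Rx.mk (nat_lit 146) (nat_lit 2) (nat_lit 2) (nat_lit 2) (nat_lit 7) (nat_lit 278) (nat_lit 107) r8_278 r9_107 (nat_lit 0) (nat_lit 0) (nat_lit 0) (nat_lit 0x20056d4f2) (nat_lit 268435456),
  Rx.mk (nat_lit 155) (nat_lit 3) (nat_lit 3) (nat_lit 2) (nat_lit 7) (nat_lit 281) (nat_lit 105) r8_281 r9_105 (nat_lit 0) (nat_lit 0) (nat_lit 0) (nat_lit 0x20056d4f2) (nat_lit 268435456),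
  Rx.mk (nat_lit 219) (nat_lit 3) (nat_lit 3) (nat_lit 3) (nat_lit 7) (nat_lit 282) (nat_lit 102) r8_282 r9_102 (nat_lit 0) (nat_lit 0) (nat_lit 0) (nat_lit 0x20056d4f2) (nat_lit 268435456),
  Rx.mk (nat_lit 402) (nat_lit 2) (nat_lit 2) (nat_lit 6) (nat_lit 7) (nat_lit 279) (nat_lit 108) r8_279 r9_108 (nat_lit 0) (nat_lit 0) (nat_lit 0) (nat_lit 0x20056d4f2) (nat_lit 268435456)]
noncomputable def e26_50 : List Rx := [
  Rx.mk (nat_lit 11) (nat_lit 3) (nat_lit 1) (nat_lit 0) (nat_lit 3) (nat_lit 331) (nat_lit 176) r8_331 r3_176 (nat_lit 0) (nat_lit 0) (nat_lit 2083584) (nat_lit 0x1cd374fde) (nat_lit 324604590),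
  Rx.mk (nat_lit 40) (nat_lit 0) (nat_lit 5) (nat_lit 0) (nat_lit 2) (nat_lit 334) (nat_lit 173) r8_334 r3_173 (nat_lit 96896) (nat_lit 0) (nat_lit 134030) (nat_lit 0x19463edca) (nat_lit 382952982),
  Rx.mk (nat_lit 43) (nat_lit 3) (nat_lit 5) (nat_lit 0) (nat_lit 3) (nat_lit 336) (nat_lit 175) r8_336 r3_175 (nat_lit 0) (nat_lit 0) (nat_lit 530915) (nat_lit 0x1e3090140) (nat_lit 299805471),
  Rx.mk (nat_lit 75) (nat_lit 3) (nat_lit 1) (nat_lit 1) (nat_lit 7) (nat_lit 332) (nat_lit 178) r8_332 r3_178 (nat_lit 0) (nat_lit 0) (nat_lit 0) (nat_lit 0x2039c7270) (nat_lit 265031006),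
  Rx.mk (nat_lit 104) (nat_lit 0) (nat_lit 5) (nat_lit 1) (nat_lit 6) (nat_lit 335) (nat_lit 174) r8_335 r3_174 (nat_lit 4930844) (nat_lit 0) (nat_lit 0) (nat_lit 0x1cb21f67c) (nat_lit 329672900),
  Rx.mk (nat_lit 107) (nat_lit 3) (nat_lit 5) (nat_lit 1) (nat_lit 7) (nat_lit 337) (nat_lit 177) r8_337 r3_177 (nat_lit 0) (nat_lit 0) (nat_lit 0) (nat_lit 0x205323fa2) (nat_lit 263389706),
  Rx.mk (nat_lit 203) (nat_lit 3) (nat_lit 1) (nat_lit 3) (nat_lit 7) (nat_lit 333) (nat_lit 179) r8_333 r3_179 (nat_lit 0) (nat_lit 0) (nat_lit 0) (nat_lit 0x1f3fc097a) (nat_lit 281425406)]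
noncomputable def e26_51 : List Rx := [
  Rx.mk (nat_lit 11) (nat_lit 3) (nat_lit 1) (nat_lit 0) (nat_lit 3) (nat_lit 351) (nat_lit 177) r8_351 r4_177 (nat_lit 0) (nat_lit 0) (nat_lit 7402043) (nat_lit 0x20243408e) (nat_lit 273833849),
  Rx.mk (nat_lit 75) (nat_lit 3) (nat_lit 1) (nat_lit 1) (nat_lit 7) (nat_lit 352) (nat_lit 178) r8_352 r4_178 (nat_lit 0) (nat_lit 0) (nat_lit 0) (nat_lit 0x2018af5f6) (nat_lit 267182206),
  Rx.mk (nat_lit 139) (nat_lit 3) (nat_lit 1) (nat_lit 2) (nat_lit 7) (nat_lit 353) (nat_lit 180) r8_353 r4_180 (nat_lit 0) (nat_lit 0) (nat_lit 0) (nat_lit 0x2018af5f6) (nat_lit 267182206),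
  Rx.mk (nat_lit 203) (nat_lit 3) (nat_lit 1) (nat_lit 3) (nat_lit 7) (nat_lit 354) (nat_lit 179) r8_354 r4_179 (nat_lit 0) (nat_lit 0) (nat_lit 0) (nat_lit 0x20056d4f2) (nat_lit 268435456)]
noncomputable def e26_52 : List Rx := [
  Rx.mk (nat_lit 40) (nat_lit 0) (nat_lit 5) (nat_lit 0) (nat_lit 2) (nat_lit 362) (nat_lit 191) r8_362 r5_191 (nat_lit 26396504) (nat_lit 0) (nat_lit 8756992) (nat_lit 0x1c43e0c92) (nat_lit 367216652),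
  Rx.mk (nat_lit 43) (nat_lit 3) (nat_lit 5) (nat_lit 0) (nat_lit 3) (nat_lit 364) (nat_lit 193) r8_364 r5_193 (nat_lit 0) (nat_lit 0) (nat_lit 7909427) (nat_lit 0x1fb625da4) (nat_lit 281515433),
  Rx.mk (nat_lit 104) (nat_lit 0) (nat_lit 5) (nat_lit 1) (nat_lit 6) (nat_lit 363) (nat_lit 192) r8_363 r5_192 (nat_lit 9885199) (nat_lit 0) (nat_lit 0) (nat_lit 0x1fd8245a4) (nat_lit 281271605),
  Rx.mk (nat_lit 107) (nat_lit 3) (nat_lit 5) (nat_lit 1) (nat_lit 7) (nat_lit 365) (nat_lit 194) r8_365 r5_194 (nat_lit 0) (nat_lit 0) (nat_lit 0) (nat_lit 0x2026dc426) (nat_lit 266260456),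
  Rx.mk (nat_lit 203) (nat_lit 3) (nat_lit 1) (nat_lit 3) (nat_lit 7) (nat_lit 361) (nat_lit 196) r8_361 r5_196 (nat_lit 0) (nat_lit 0) (nat_lit 0) (nat_lit 0x1ff462c52) (nat_lit 269545756),
  Rx.mk (nat_lit 235) (nat_lit 3) (nat_lit 5) (nat_lit 3) (nat_lit 7) (nat_lit 366) (nat_lit 195) r8_366 r5_195 (nat_lit 0) (nat_lit 0) (nat_lit 0) (nat_lit 0x1fbd1022c) (nat_lit 273166256)]
noncomputable def e26_53 : List Rx := [
  Rx.mk (nat_lit 11) (nat_lit 3) (nat_lit 1) (nat_lit 0) (nat_lit 3) (nat_lit 338) (nat_lit 284) r8_338 r4_284 (nat_lit 0) (nat_lit 0) (nat_lit 9484367) (nat_lit 0x20056d4f2) (nat_lit 277919823),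
  Rx.mk (nat_lit 40) (nat_lit 0) (nat_lit 5) (nat_lit 0) (nat_lit 2) (nat_lit 341) (nat_lit 287) r8_341 r4_287 (nat_lit 14567528) (nat_lit 0) (nat_lit 12458268) (nat_lit 0x1d73a9072) (nat_lit 338947352),
  Rx.mk (nat_lit 41) (nat_lit 1) (nat_lit 5) (nat_lit 0) (nat_lit 3) (nat_lit 343) (nat_lit 288) r8_343 r4_288 (nat_lit 0) (nat_lit 0) (nat_lit 9484367) (nat_lit 0x20056d4f2) (nat_lit 277919823),
  Rx.mk (nat_lit 43) (nat_lit 3) (nat_lit 5) (nat_lit 0) (nat_lit 3) (nat_lit 345) (nat_lit 289) r8_345 r4_289 (nat_lit 0) (nat_lit 0) (nat_lit 9484367) (nat_lit 0x20056d4f2) (nat_lit 277919823),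
  Rx.mk (nat_lit 75) (nat_lit 3) (nat_lit 1) (nat_lit 1) (nat_lit 7) (nat_lit 339) (nat_lit 285) r8_339 r4_285 (nat_lit 0) (nat_lit 0) (nat_lit 0) (nat_lit 0x20056d4f2) (nat_lit 268435456),
  Rx.mk (nat_lit 104) (nat_lit 0) (nat_lit 5) (nat_lit 1) (nat_lit 6) (nat_lit 342) (nat_lit 290) r8_342 r4_290 (nat_lit 8683363) (nat_lit 0) (nat_lit 0) (nat_lit 0x1fe72858c) (nat_lit 279088869),
  Rx.mk (nat_lit 105) (nat_lit 1) (nat_lit 5) (nat_lit 1) (nat_lit 7) (nat_lit 344) (nat_lit 291) r8_344 r4_291 (nat_lit 0) (nat_lit 0) (nat_lit 0) (nat_lit 0x20056d4f2) (nat_lit 268435456),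
  Rx.mk (nat_lit 107) (nat_lit 3) (nat_lit 5) (nat_lit 1) (nat_lit 7) (nat_lit 346) (nat_lit 292) r8_346 r4_292 (nat_lit 0) (nat_lit 0) (nat_lit 0) (nat_lit 0x20056d4f2) (nat_lit 268435456),
  Rx.mk (nat_lit 203) (nat_lit 3) (nat_lit 1) (nat_lit 3) (nat_lit 7) (nat_lit 340) (nat_lit 286) r8_340 r4_286 (nat_lit 0) (nat_lit 0) (nat_lit 0) (nat_lit 0x20056d4f2) (nat_lit 268435456)]
noncomputable def e26_54 : List Rx := [
  Rx.mk (nat_lit 11) (nat_lit 3) (nat_lit 1) (nat_lit 0) (nat_lit 3) (nat_lit 355) (nat_lit 195) r8_355 r10_195 (nat_lit 0) (nat_lit 0) (nat_lit 11260883) (nat_lit 0x1fe865990) (nat_lit 281588039),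
  Rx.mk (nat_lit 75) (nat_lit 3) (nat_lit 1) (nat_lit 1) (nat_lit 7) (nat_lit 356) (nat_lit 196) r8_356 r10_196 (nat_lit 0) (nat_lit 0) (nat_lit 0) (nat_lit 0x20056d4f2) (nat_lit 268435456),
  Rx.mk (nat_lit 203) (nat_lit 3) (nat_lit 1) (nat_lit 3) (nat_lit 7) (nat_lit 357) (nat_lit 197) r8_357 r10_197 (nat_lit 0) (nat_lit 0) (nat_lit 0) (nat_lit 0x20056d4f2) (nat_lit 268435456)]
noncomputable def e26_55 : List Rx := [
  Rx.mk (nat_lit 40) (nat_lit 0) (nat_lit 5) (nat_lit 0) (nat_lit 2) (nat_lit 368) (nat_lit 222) r8_368 r11_222 (nat_lit 29966362) (nat_lit 0) (nat_lit 24191423) (nat_lit 0x1ebb93526) (nat_lit 344331841),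
  Rx.mk (nat_lit 41) (nat_lit 1) (nat_lit 5) (nat_lit 0) (nat_lit 3) (nat_lit 370) (nat_lit 224) r8_370 r11_224 (nat_lit 0) (nat_lit 0) (nat_lit 9484367) (nat_lit 0x20056d4f2) (nat_lit 277919823),
  Rx.mk (nat_lit 43) (nat_lit 3) (nat_lit 5) (nat_lit 0) (nat_lit 3) (nat_lit 372) (nat_lit 226) r8_372 r11_226 (nat_lit 0) (nat_lit 0) (nat_lit 9484367) (nat_lit 0x20056d4f2) (nat_lit 277919823),
  Rx.mk (nat_lit 104) (nat_lit 0) (nat_lit 5) (nat_lit 1) (nat_lit 6) (nat_lit 369) (nat_lit 223) r8_369 r11_223 (nat_lit 9484367) (nat_lit 0) (nat_lit 0) (nat_lit 0x20056d4f2) (nat_lit 277919823),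
  Rx.mk (nat_lit 105) (nat_lit 1) (nat_lit 5) (nat_lit 1) (nat_lit 7) (nat_lit 371) (nat_lit 225) r8_371 r11_225 (nat_lit 0) (nat_lit 0) (nat_lit 0) (nat_lit 0x20056d4f2) (nat_lit 268435456),
  Rx.mk (nat_lit 107) (nat_lit 3) (nat_lit 5) (nat_lit 1) (nat_lit 7) (nat_lit 373) (nat_lit 227) r8_373 r11_227 (nat_lit 0) (nat_lit 0) (nat_lit 0) (nat_lit 0x20056d4f2) (nat_lit 268435456),
  Rx.mk (nat_lit 203) (nat_lit 3) (nat_lit 1) (nat_lit 3) (nat_lit 7) (nat_lit 367) (nat_lit 229) r8_367 r11_229 (nat_lit 0) (nat_lit 0) (nat_lit 0) (nat_lit 0x20056d4f2) (nat_lit 268435456),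
  Rx.mk (nat_lit 235) (nat_lit 3) (nat_lit 5) (nat_lit 3) (nat_lit 7) (nat_lit 374) (nat_lit 228) r8_374 r11_228 (nat_lit 0) (nat_lit 0) (nat_lit 0) (nat_lit 0x20056d4f2) (nat_lit 268435456)]
noncomputable def e26_56 : List Rx := [
  Rx.mk (nat_lit 11) (nat_lit 3) (nat_lit 1) (nat_lit 0) (nat_lit 3) (nat_lit 347) (nat_lit 269) r8_347 r5_269 (nat_lit 0) (nat_lit 0) (nat_lit 9484367) (nat_lit 0x20056d4f2) (nat_lit 277919823),
  Rx.mk (nat_lit 43) (nat_lit 3) (nat_lit 5) (nat_lit 0) (nat_lit 3) (nat_lit 349) (nat_lit 271) r8_349 r5_271 (nat_lit 0) (nat_lit 0) (nat_lit 7987863) (nat_lit 0x2001dda6c) (nat_lit 276652469),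
  Rx.mk (nat_lit 75) (nat_lit 3) (nat_lit 1) (nat_lit 1) (nat_lit 7) (nat_lit 348) (nat_lit 270) r8_348 r5_270 (nat_lit 0) (nat_lit 0) (nat_lit 0) (nat_lit 0x20056d4f2) (nat_lit 268435456),
  Rx.mk (nat_lit 107) (nat_lit 3) (nat_lit 5) (nat_lit 1) (nat_lit 7) (nat_lit 350) (nat_lit 272) r8_350 r5_272 (nat_lit 0) (nat_lit 0) (nat_lit 0) (nat_lit 0x20056d4f2) (nat_lit 268435456)]
noncomputable def e26_57 : List Rx := [
  Rx.mk (nat_lit 11) (nat_lit 3) (nat_lit 1) (nat_lit 0) (nat_lit 3) (nat_lit 358) (nat_lit 335) r8_358 r11_335 (nat_lit 0) (nat_lit 0) (nat_lit 9484367) (nat_lit 0x20056d4f2) (nat_lit 277919823),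
  Rx.mk (nat_lit 75) (nat_lit 3) (nat_lit 1) (nat_lit 1) (nat_lit 7) (nat_lit 359) (nat_lit 336) r8_359 r11_336 (nat_lit 0) (nat_lit 0) (nat_lit 0) (nat_lit 0x20056d4f2) (nat_lit 268435456),
  Rx.mk (nat_lit 139) (nat_lit 3) (nat_lit 1) (nat_lit 2) (nat_lit 7) (nat_lit 360) (nat_lit 337) r8_360 r11_337 (nat_lit 0) (nat_lit 0) (nat_lit 0) (nat_lit 0x20056d4f2) (nat_lit 268435456)]
noncomputable def e26 : List (List Rx) := [e26_0, e26_1, e26_2, e26_3, e26_4, e26_5, e26_6, e26_7, e26_8, e26_9, e26_10, e26_11, e26_12, e26_13, e26_14, e26_15, e26_16, e26_17, e26_18, e26_19, e26_20, e26_21, e26_22, e26_23, e26_24, e26_25, e26_26, e26_27, e26_28, e26_29, e26_30, e26_31, e26_32, e26_33, e26_34, e26_35, e26_36, e26_37, e26_38, e26_39, e26_40, e26_41, e26_42, e26_43, e26_44, e26_45, e26_46, e26_47, e26_48, e26_49, e26_50, e26_51, e26_52, e26_53, e26_54, e26_55, e26_56,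 e26_57]
noncomputable def e27_0 : List Rx := [
  Rx.mk (nat_lit 356) (nat_lit 4) (nat_lit 4) (nat_lit 5) (nat_lit 4) (nat_lit 241) (nat_lit 188) r8_241 r0_188 (nat_lit 7060541) (nat_lit 3895157) (nat_lit 0) (nat_lit 0x16494bc14) (nat_lit 444572854),
  Rx.mk (nat_lit 359) (nat_lit 7) (nat_lit 4) (nat_lit 5) (nat_lit 5) (nat_lit 244) (nat_lit 191) r8_244 r0_191 (nat_lit 0) (nat_lit 5196417) (nat_lit 0) (nat_lit 0x1fa15acb2) (nat_lit 280172673),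
  Rx.mk (nat_lit 364) (nat_lit 4) (nat_lit 5) (nat_lit 5) (nat_lit 6) (nat_lit 242) (nat_lit 189) r8_242 r0_189 (nat_lit 7988855) (nat_lit 0) (nat_lit 0) (nat_lit 0x1dd308112) (nat_lit 313579111),
  Rx.mk (nat_lit 367) (nat_lit 7) (nat_lit 5) (nat_lit 5) (nat_lit 7) (nat_lit 245) (nat_lit 192) r8_245 r0_192 (nat_lit 0) (nat_lit 0) (nat_lit 0) (nat_lit 0x201316b9e) (nat_lit 267545656),
  Rx.mk (nat_lit 372) (nat_lit 4) (nat_lit 6) (nat_lit 5) (nat_lit 6) (nat_lit 243) (nat_lit 190) r8_243 r0_190 (nat_lit 56857679) (nat_lit 0) (nat_lit 0) (nat_lit 0x1feec1780) (nat_lit 326737435),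
  Rx.mk (nat_lit 375) (nat_lit 7) (nat_lit 6) (nat_lit 5) (nat_lit 7) (nat_lit 246) (nat_lit 194) r8_246 r0_194 (nat_lit 0) (nat_lit 0) (nat_lit 0) (nat_lit 0x201316b9e) (nat_lit 267545656),
  Rx.mk (nat_lit 383) (nat_lit 7) (nat_lit 7) (nat_lit 5) (nat_lit 7) (nat_lit 247) (nat_lit 193) r8_247 r0_193 (nat_lit 0) (nat_lit 0) (nat_lit 0) (nat_lit 0x20056d4f2) (nat_lit 268435456)]
noncomputable def e27_1 : List Rx := [
  Rx.mk (nat_lit 292) (nat_lit 4) (nat_lit 4) (nat_lit 4) (nat_lit 0) (nat_lit 283) (nat_lit 201) r8_283 r1_201 (nat_lit 21867451) (nat_lit 7297896) (nat_lit 2297773) (nat_lit 0x122387504) (nat_lit 535543626),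
  Rx.mk (nat_lit 295) (nat_lit 7) (nat_lit 4) (nat_lit 4) (nat_lit 1) (nat_lit 286) (nat_lit 206) r8_286 r1_206 (nat_lit 0) (nat_lit 11602876) (nat_lit 7735107) (nat_lit 0x1a7f00338) (nat_lit 381456989),
  Rx.mk (nat_lit 308) (nat_lit 4) (nat_lit 6) (nat_lit 4) (nat_lit 2) (nat_lit 284) (nat_lit 204) r8_284 r1_204 (nat_lit 35547039) (nat_lit 0) (nat_lit 6929116) (nat_lit 0x1ae23a2dc) (nat_lit 398008261),
  Rx.mk (nat_lit 310) (nat_lit 6) (nat_lit 6) (nat_lit 4) (nat_lit 3) (nat_lit 285) (nat_lit 214) r8_285 r1_214 (nat_lit 0) (nat_lit 0) (nat_lit 8744868) (nat_lit 0x1d6cc99f0) (nat_lit 321116524),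
  Rx.mk (nat_lit 311) (nat_lit 7) (nat_lit 6) (nat_lit 4) (nat_lit 3) (nat_lit 287) (nat_lit 212) r8_287 r1_212 (nat_lit 0) (nat_lit 0) (nat_lit 9484367) (nat_lit 0x20056d4f2) (nat_lit 277919823),
  Rx.mk (nat_lit 319) (nat_lit 7) (nat_lit 7) (nat_lit 4) (nat_lit 3) (nat_lit 288) (nat_lit 209) r8_288 r1_209 (nat_lit 0) (nat_lit 0) (nat_lit 10031145) (nat_lit 0x1fcf46e78) (nat_lit 282000201),
  Rx.mk (nat_lit 356) (nat_lit 4) (nat_lit 4) (nat_lit 5) (nat_lit 4) (nat_lit 289) (nat_lit 202) r8_289 r1_202 (nat_lit 10882942) (nat_lit 13214423) (nat_lit 0) (nat_lit 0x19da949de) (nat_lit 397122321),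
  Rx.mk (nat_lit 359) (nat_lit 7) (nat_lit 4) (nat_lit 5) (nat_lit 5) (nat_lit 293) (nat_lit 207) r8_293 r1_207 (nat_lit 0) (nat_lit 9484367) (nat_lit 0) (nat_lit 0x20056d4f2) (nat_lit 277919823),
  Rx.mk (nat_lit 364) (nat_lit 4) (nat_lit 5) (nat_lit 5) (nat_lit 6) (nat_lit 290) (nat_lit 203) r8_290 r1_203 (nat_lit 9931330) (nat_lit 0) (nat_lit 0) (nat_lit 0x1fe7e6424) (nat_lit 280291336),
  Rx.mk (nat_lit 367) (nat_lit 7) (nat_lit 5) (nat_lit 5) (nat_lit 7) (nat_lit 294) (nat_lit 208) r8_294 r1_208 (nat_lit 0) (nat_lit 0) (nat_lit 0) (nat_lit 0x20056d4f2) (nat_lit 268435456),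
  Rx.mk (nat_lit 372) (nat_lit 4) (nat_lit 6) (nat_lit 5) (nat_lit 6) (nat_lit 291) (nat_lit 205) r8_291 r1_205 (nat_lit 16360369) (nat_lit 0) (nat_lit 0) (nat_lit 0x207a02b46) (nat_lit 277234125),
  Rx.mk (nat_lit 374) (nat_lit 6) (nat_lit 6) (nat_lit 5) (nat_lit 7) (nat_lit 292) (nat_lit 215) r8_292 r1_215 (nat_lit 0) (nat_lit 0) (nat_lit 0) (nat_lit 0x20ec457d0) (nat_lit 253540856),
  Rx.mk (nat_lit 375) (nat_lit 7) (nat_lit 6) (nat_lit 5) (nat_lit 7) (nat_lit 295) (nat_lit 213) r8_295 r1_213 (nat_lit 0) (nat_lit 0) (nat_lit 0) (nat_lit 0x20056d4f2) (nat_lit 268435456),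
  Rx.mk (nat_lit 383) (nat_lit 7) (nat_lit 7) (nat_lit 5) (nat_lit 7) (nat_lit 296) (nat_lit 210) r8_296 r1_210 (nat_lit 0) (nat_lit 0) (nat_lit 0) (nat_lit 0x20056d4f2) (nat_lit 268435456),
  Rx.mk (nat_lit 438) (nat_lit 6) (nat_lit 6) (nat_lit 6) (nat_lit 7) (nat_lit 297) (nat_lit 216) r8_297 r1_216 (nat_lit 0) (nat_lit 0) (nat_lit 0) (nat_lit 0x1fa0d60fc) (nat_lit 275021756),
  Rx.mk (nat_lit 511) (nat_lit 7) (nat_lit 7) (nat_lit 7) (nat_lit 7) (nat_lit 298) (nat_lit 211) r8_298 r1_211 (nat_lit 0) (nat_lit 0) (nat_lit 0) (nat_lit 0x20056d4f2) (nat_lit 268435456)]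
noncomputable def e27_2 : List Rx := [
  Rx.mk (nat_lit 292) (nat_lit 4) (nat_lit 4) (nat_lit 4) (nat_lit 0) (nat_lit 257) (nat_lit 221) r8_257 r2_221 (nat_lit 2321625) (nat_lit 1855565) (nat_lit 2244531) (nat_lit 0xfe82409a) (nat_lit 548419377),
  Rx.mk (nat_lit 295) (nat_lit 7) (nat_lit 4) (nat_lit 4) (nat_lit 1) (nat_lit 260) (nat_lit 223) r8_260 r2_223 (nat_lit 0) (nat_lit 5757461) (nat_lit 7301851) (nat_lit 0x1a8f639f0) (nat_lit 374092968),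
  Rx.mk (nat_lit 308) (nat_lit 4) (nat_lit 6) (nat_lit 4) (nat_lit 2) (nat_lit 258) (nat_lit 222) r8_258 r2_222 (nat_lit 12395174) (nat_lit 0) (nat_lit 11911936) (nat_lit 0x19af7245e) (nat_lit 400205166),
  Rx.mk (nat_lit 310) (nat_lit 6) (nat_lit 6) (nat_lit 4) (nat_lit 3) (nat_lit 259) (nat_lit 228) r8_259 r2_228 (nat_lit 0) (nat_lit 0) (nat_lit 9484367) (nat_lit 0x1fc9f84b2) (nat_lit 281792823),
  Rx.mk (nat_lit 311) (nat_lit 7) (nat_lit 6) (nat_lit 4) (nat_lit 3) (nat_lit 261) (nat_lit 226) r8_261 r2_226 (nat_lit 0) (nat_lit 0) (nat_lit 9484367) (nat_lit 0x1fe9dbd10) (nat_lit 279713523),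
  Rx.mk (nat_lit 438) (nat_lit 6) (nat_lit 6) (nat_lit 6) (nat_lit 7) (nat_lit 262) (nat_lit 229) r8_262 r2_229 (nat_lit 0) (nat_lit 0) (nat_lit 0) (nat_lit 0x20056d4f2) (nat_lit 268435456),
  Rx.mk (nat_lit 487) (nat_lit 7) (nat_lit 4) (nat_lit 7) (nat_lit 5) (nat_lit 263) (nat_lit 224) r8_263 r2_224 (nat_lit 0) (nat_lit 9484367) (nat_lit 0) (nat_lit 0x1fe0c5e6a) (nat_lit 280309623),
  Rx.mk (nat_lit 503) (nat_lit 7) (nat_lit 6) (nat_lit 7) (nat_lit 7) (nat_lit 264) (nat_lit 227) r8_264 r2_227 (nat_lit 0) (nat_lit 0) (nat_lit 0) (nat_lit 0x20056d4f2) (nat_lit 268435456),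
  Rx.mk (nat_lit 511) (nat_lit 7) (nat_lit 7) (nat_lit 7) (nat_lit 7) (nat_lit 265) (nat_lit 225) r8_265 r2_225 (nat_lit 0) (nat_lit 0) (nat_lit 0) (nat_lit 0x20056d4f2) (nat_lit 268435456)]
noncomputable def e27_3 : List Rx := [
  Rx.mk (nat_lit 100) (nat_lit 4) (nat_lit 4) (nat_lit 1) (nat_lit 4) (nat_lit 334) (nat_lit 173) r8_334 r3_173 (nat_lit 96896) (nat_lit 134030) (nat_lit 0) (nat_lit 0x19463edca) (nat_lit 382952982),
  Rx.mk (nat_lit 103) (nat_lit 7) (nat_lit 4) (nat_lit 1) (nat_lit 5) (nat_lit 336) (nat_lit 175) r8_336 r3_175 (nat_lit 0) (nat_lit 530915) (nat_lit 0) (nat_lit 0x1e3090140) (nat_lit 299805471),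
  Rx.mk (nat_lit 108) (nat_lit 4) (nat_lit 5) (nat_lit 1) (nat_lit 6) (nat_lit 335) (nat_lit 174) r8_335 r3_174 (nat_lit 4930844) (nat_lit 0) (nat_lit 0) (nat_lit 0x1cb21f67c) (nat_lit 329672900),
  Rx.mk (nat_lit 111) (nat_lit 7) (nat_lit 5) (nat_lit 1) (nat_lit 7) (nat_lit 337) (nat_lit 177) r8_337 r3_177 (nat_lit 0) (nat_lit 0) (nat_lit 0) (nat_lit 0x205323fa2) (nat_lit 263389706),
  Rx.mk (nat_lit 359) (nat_lit 7) (nat_lit 4) (nat_lit 5) (nat_lit 5) (nat_lit 331) (nat_lit 176) r8_331 r3_176 (nat_lit 0) (nat_lit 2083584) (nat_lit 0) (nat_lit 0x1cd374fde) (nat_lit 324604590),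
  Rx.mk (nat_lit 367) (nat_lit 7) (nat_lit 5) (nat_lit 5) (nat_lit 7) (nat_lit 332) (nat_lit 178) r8_332 r3_178 (nat_lit 0) (nat_lit 0) (nat_lit 0) (nat_lit 0x2039c7270) (nat_lit 265031006),
  Rx.mk (nat_lit 383) (nat_lit 7) (nat_lit 7) (nat_lit 5) (nat_lit 7) (nat_lit 333) (nat_lit 179) r8_333 r3_179 (nat_lit 0) (nat_lit 0) (nat_lit 0) (nat_lit 0x1f3fc097a) (nat_lit 281425406)]
noncomputable def e27_4 : List Rx := [
  Rx.mk (nat_lit 359) (nat_lit 7) (nat_lit 4) (nat_lit 5) (nat_lit 5) (nat_lit 351) (nat_lit 177) r8_351 r4_177 (nat_lit 0) (nat_lit 7402043) (nat_lit 0) (nat_lit 0x20243408e) (nat_lit 273833849),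
  Rx.mk (nat_lit 367) (nat_lit 7) (nat_lit 5) (nat_lit 5) (nat_lit 7) (nat_lit 352) (nat_lit 178) r8_352 r4_178 (nat_lit 0) (nat_lit 0) (nat_lit 0) (nat_lit 0x2018af5f6) (nat_lit 267182206),
  Rx.mk (nat_lit 375) (nat_lit 7) (nat_lit 6) (nat_lit 5) (nat_lit 7) (nat_lit 353) (nat_lit 180) r8_353 r4_180 (nat_lit 0) (nat_lit 0) (nat_lit 0) (nat_lit 0x2018af5f6) (nat_lit 267182206),
  Rx.mk (nat_lit 383) (nat_lit 7) (nat_lit 7) (nat_lit 5) (nat_lit 7) (nat_lit 354) (nat_lit 179) r8_354 r4_179 (nat_lit 0) (nat_lit 0) (nat_lit 0) (nat_lit 0x20056d4f2) (nat_lit 268435456)]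
noncomputable def e27_5 : List Rx := [
  Rx.mk (nat_lit 100) (nat_lit 4) (nat_lit 4) (nat_lit 1) (nat_lit 4) (nat_lit 362) (nat_lit 191) r8_362 r5_191 (nat_lit 26396504) (nat_lit 8756992) (nat_lit 0) (nat_lit 0x1c43e0c92) (nat_lit 367216652),
  Rx.mk (nat_lit 103) (nat_lit 7) (nat_lit 4) (nat_lit 1) (nat_lit 5) (nat_lit 364) (nat_lit 193) r8_364 r5_193 (nat_lit 0) (nat_lit 7909427) (nat_lit 0) (nat_lit 0x1fb625da4) (nat_lit 281515433),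
  Rx.mk (nat_lit 108) (nat_lit 4) (nat_lit 5) (nat_lit 1) (nat_lit 6) (nat_lit 363) (nat_lit 192) r8_363 r5_192 (nat_lit 9885199) (nat_lit 0) (nat_lit 0) (nat_lit 0x1fd8245a4) (nat_lit 281271605),
  Rx.mk (nat_lit 111) (nat_lit 7) (nat_lit 5) (nat_lit 1) (nat_lit 7) (nat_lit 365) (nat_lit 194) r8_365 r5_194 (nat_lit 0) (nat_lit 0) (nat_lit 0) (nat_lit 0x2026dc426) (nat_lit 266260456),
  Rx.mk (nat_lit 127) (nat_lit 7) (nat_lit 7) (nat_lit 1) (nat_lit 7) (nat_lit 366) (nat_lit 195) r8_366 r5_195 (nat_lit 0) (nat_lit 0) (nat_lit 0) (nat_lit 0x1fbd1022c) (nat_lit 273166256),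
  Rx.mk (nat_lit 383) (nat_lit 7) (nat_lit 7) (nat_lit 5) (nat_lit 7) (nat_lit 361) (nat_lit 196) r8_361 r5_196 (nat_lit 0) (nat_lit 0) (nat_lit 0) (nat_lit 0x1ff462c52) (nat_lit 269545756)]
noncomputable def e27_6 : List Rx := [
  Rx.mk (nat_lit 59) (nat_lit 3) (nat_lit 7) (nat_lit 0) (nat_lit 3) (nat_lit 43) (nat_lit 120) r8_43 r3_120 (nat_lit 0) (nat_lit 0) (nat_lit 242054) (nat_lit 0x2005aee2a) (nat_lit 268432060),
  Rx.mk (nat_lit 123) (nat_lit 3) (nat_lit 7) (nat_lit 1) (nat_lit 7) (nat_lit 44) (nat_lit 121) r8_44 r3_121 (nat_lit 0) (nat_lit 0) (nat_lit 0) (nat_lit 0x2160eb1e8) (nat_lit 246056756),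
  Rx.mk (nat_lit 251) (nat_lit 3) (nat_lit 7) (nat_lit 3) (nat_lit 7) (nat_lit 46) (nat_lit 122) r8_46 r3_122 (nat_lit 0) (nat_lit 0) (nat_lit 0) (nat_lit 0x1fbb3e750) (nat_lit 273282006),
  Rx.mk (nat_lit 255) (nat_lit 7) (nat_lit 7) (nat_lit 3) (nat_lit 7) (nat_lit 45) (nat_lit 119) r8_45 r3_119 (nat_lit 0) (nat_lit 0) (nat_lit 0) (nat_lit 0x1fe3dbd02) (nat_lit 270617606)]
noncomputable def e27_7 : List Rx := [
  Rx.mk (nat_lit 251) (nat_lit 3) (nat_lit 7) (nat_lit 3) (nat_lit 7) (nat_lit 77) (nat_lit 140) r8_77 r0_140 (nat_lit 0) (nat_lit 0) (nat_lit 0) (nat_lit 0x20056d4f2) (nat_lit 268435456),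
  Rx.mk (nat_lit 255) (nat_lit 7) (nat_lit 7) (nat_lit 3) (nat_lit 7) (nat_lit 76) (nat_lit 139) r8_76 r0_139 (nat_lit 0) (nat_lit 0) (nat_lit 0) (nat_lit 0x1ff97bb76) (nat_lit 269212656)]
noncomputable def e27_8 : List Rx := [
  Rx.mk (nat_lit 251) (nat_lit 3) (nat_lit 7) (nat_lit 3) (nat_lit 7) (nat_lit 101) (nat_lit 146) r8_101 r1_146 (nat_lit 0) (nat_lit 0) (nat_lit 0) (nat_lit 0x20056d4f2) (nat_lit 268435456),
  Rx.mk (nat_lit 255) (nat_lit 7) (nat_lit 7) (nat_lit 3) (nat_lit 7) (nat_lit 100) (nat_lit 145) r8_100 r1_145 (nat_lit 0) (nat_lit 0) (nat_lit 0) (nat_lit 0x20056d4f2) (nat_lit 268435456),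
  Rx.mk (nat_lit 292) (nat_lit 4) (nat_lit 4) (nat_lit 4) (nat_lit 0) (nat_lit 90) (nat_lit 141) r8_90 r1_141 (nat_lit 11933065) (nat_lit 4308292) (nat_lit 2921945) (nat_lit 0x103c1157c) (nat_lit 555604158),
  Rx.mk (nat_lit 308) (nat_lit 4) (nat_lit 6) (nat_lit 4) (nat_lit 2) (nat_lit 91) (nat_lit 147) r8_91 r1_147 (nat_lit 10663373) (nat_lit 0) (nat_lit 3978459) (nat_lit 0x18b957628) (nat_lit 406863088),
  Rx.mk (nat_lit 310) (nat_lit 6) (nat_lit 6) (nat_lit 4) (nat_lit 3) (nat_lit 92) (nat_lit 150) r8_92 r1_150 (nat_lit 0) (nat_lit 0) (nat_lit 8196881) (nat_lit 0x1ec204662) (nat_lit 297938937),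
  Rx.mk (nat_lit 438) (nat_lit 6) (nat_lit 6) (nat_lit 6) (nat_lit 7) (nat_lit 93) (nat_lit 152) r8_93 r1_152 (nat_lit 0) (nat_lit 0) (nat_lit 0) (nat_lit 0x20056d4f2) (nat_lit 268435456),
  Rx.mk (nat_lit 484) (nat_lit 4) (nat_lit 4) (nat_lit 7) (nat_lit 4) (nat_lit 94) (nat_lit 142) r8_94 r1_142 (nat_lit 19611998) (nat_lit 14059414) (nat_lit 0) (nat_lit 0x1db198414) (nat_lit 341479368),
  Rx.mk (nat_lit 487) (nat_lit 7) (nat_lit 4) (nat_lit 7) (nat_lit 5) (nat_lit 97) (nat_lit 143) r8_97 r1_143 (nat_lit 0) (nat_lit 9484367) (nat_lit 0) (nat_lit 0x20000ee3e) (nat_lit 278269023),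
  Rx.mk (nat_lit 500) (nat_lit 4) (nat_lit 6) (nat_lit 7) (nat_lit 6) (nat_lit 95) (nat_lit 148) r8_95 r1_148 (nat_lit 9657344) (nat_lit 0) (nat_lit 0) (nat_lit 0x1ff57a838) (nat_lit 279131350),
  Rx.mk (nat_lit 502) (nat_lit 6) (nat_lit 6) (nat_lit 7) (nat_lit 7) (nat_lit 96) (nat_lit 151) r8_96 r1_151 (nat_lit 0) (nat_lit 0) (nat_lit 0) (nat_lit 0x20056d4f2) (nat_lit 268435456),
  Rx.mk (nat_lit 503) (nat_lit 7) (nat_lit 6) (nat_lit 7) (nat_lit 7) (nat_lit 98) (nat_lit 149) r8_98 r1_149 (nat_lit 0) (nat_lit 0) (nat_lit 0) (nat_lit 0x20056d4f2) (nat_lit 268435456),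
  Rx.mk (nat_lit 511) (nat_lit 7) (nat_lit 7) (nat_lit 7) (nat_lit 7) (nat_lit 99) (nat_lit 144) r8_99 r1_144 (nat_lit 0) (nat_lit 0) (nat_lit 0) (nat_lit 0x20056d4f2) (nat_lit 268435456)]
noncomputable def e27_9 : List Rx := [
  Rx.mk (nat_lit 59) (nat_lit 3) (nat_lit 7) (nat_lit 0) (nat_lit 3) (nat_lit 146) (nat_lit 126) r8_146 r4_126 (nat_lit 0) (nat_lit 0) (nat_lit 6858864) (nat_lit 0x2021fa62e) (nat_lit 273435420),
  Rx.mk (nat_lit 251) (nat_lit 3) (nat_lit 7) (nat_lit 3) (nat_lit 7) (nat_lit 148) (nat_lit 127) r8_148 r4_127 (nat_lit 0) (nat_lit 0) (nat_lit 0) (nat_lit 0x20056d4f2) (nat_lit 268435456),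
  Rx.mk (nat_lit 255) (nat_lit 7) (nat_lit 7) (nat_lit 3) (nat_lit 7) (nat_lit 147) (nat_lit 125) r8_147 r4_125 (nat_lit 0) (nat_lit 0) (nat_lit 0) (nat_lit 0x20056d4f2) (nat_lit 268435456)]
noncomputable def e27_10 : List Rx := [
  Rx.mk (nat_lit 103) (nat_lit 7) (nat_lit 4) (nat_lit 1) (nat_lit 5) (nat_lit 221) (nat_lit 207) r8_221 r6_207 (nat_lit 0) (nat_lit 7973947) (nat_lit 0) (nat_lit 0x1ffd61c22) (nat_lit 276924103),
  Rx.mk (nat_lit 111) (nat_lit 7) (nat_lit 5) (nat_lit 1) (nat_lit 7) (nat_lit 222) (nat_lit 208) r8_222 r6_208 (nat_lit 0) (nat_lit 0) (nat_lit 0) (nat_lit 0x20056d4f2) (nat_lit 268435456),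
  Rx.mk (nat_lit 123) (nat_lit 3) (nat_lit 7) (nat_lit 1) (nat_lit 7) (nat_lit 224) (nat_lit 206) r8_224 r6_206 (nat_lit 0) (nat_lit 0) (nat_lit 0) (nat_lit 0x20a32e4ac) (nat_lit 258234956),
  Rx.mk (nat_lit 127) (nat_lit 7) (nat_lit 7) (nat_lit 1) (nat_lit 7) (nat_lit 223) (nat_lit 209) r8_223 r6_209 (nat_lit 0) (nat_lit 0) (nat_lit 0) (nat_lit 0x20056d4f2) (nat_lit 268435456)]
noncomputable def e27_11 : List Rx := [
  Rx.mk (nat_lit 59) (nat_lit 3) (nat_lit 7) (nat_lit 0) (nat_lit 3) (nat_lit 202) (nat_lit 121) r8_202 r5_121 (nat_lit 0) (nat_lit 0) (nat_lit 3592322) (nat_lit 0x1f944b18e) (nat_lit 279407828),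
  Rx.mk (nat_lit 63) (nat_lit 7) (nat_lit 7) (nat_lit 0) (nat_lit 3) (nat_lit 201) (nat_lit 118) r8_201 r5_118 (nat_lit 0) (nat_lit 0) (nat_lit 10516088) (nat_lit 0x1ee71f3b6) (nat_lit 297804694),
  Rx.mk (nat_lit 123) (nat_lit 3) (nat_lit 7) (nat_lit 1) (nat_lit 7) (nat_lit 204) (nat_lit 122) r8_204 r5_122 (nat_lit 0) (nat_lit 0) (nat_lit 0) (nat_lit 0x20bbcbb72) (nat_lit 256653156),
  Rx.mk (nat_lit 127) (nat_lit 7) (nat_lit 7) (nat_lit 1) (nat_lit 7) (nat_lit 203) (nat_lit 119) r8_203 r5_119 (nat_lit 0) (nat_lit 0) (nat_lit 0) (nat_lit 0x20056d4f2) (nat_lit 268435456),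
  Rx.mk (nat_lit 255) (nat_lit 7) (nat_lit 7) (nat_lit 3) (nat_lit 7) (nat_lit 205) (nat_lit 120) r8_205 r5_120 (nat_lit 0) (nat_lit 0) (nat_lit 0) (nat_lit 0x20056d4f2) (nat_lit 268435456)]
noncomputable def e27_12 : List Rx := [
  Rx.mk (nat_lit 100) (nat_lit 4) (nat_lit 4) (nat_lit 1) (nat_lit 4) (nat_lit 237) (nat_lit 278) r8_237 r0_278 (nat_lit 4307608) (nat_lit 11550315) (nat_lit 0) (nat_lit 0x182dd78dc) (nat_lit 417310079),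
  Rx.mk (nat_lit 101) (nat_lit 5) (nat_lit 4) (nat_lit 1) (nat_lit 5) (nat_lit 239) (nat_lit 279) r8_239 r0_279 (nat_lit 0) (nat_lit 9484367) (nat_lit 0) (nat_lit 0x1fc24261e) (nat_lit 282306373),
  Rx.mk (nat_lit 108) (nat_lit 4) (nat_lit 5) (nat_lit 1) (nat_lit 6) (nat_lit 238) (nat_lit 280) r8_238 r0_280 (nat_lit 9900802) (nat_lit 0) (nat_lit 0) (nat_lit 0x1d302332a) (nat_lit 326302108),
  Rx.mk (nat_lit 109) (nat_lit 5) (nat_lit 5) (nat_lit 1) (nat_lit 7) (nat_lit 240) (nat_lit 281) r8_240 r0_281 (nat_lit 0) (nat_lit 0) (nat_lit 0) (nat_lit 0x2022bd70a) (nat_lit 266525506),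
  Rx.mk (nat_lit 356) (nat_lit 4) (nat_lit 4) (nat_lit 5) (nat_lit 4) (nat_lit 230) (nat_lit 271) r8_230 r0_271 (nat_lit 24990952) (nat_lit 15685587) (nat_lit 0) (nat_lit 0x16ee57b22) (nat_lit 463363445),
  Rx.mk (nat_lit 357) (nat_lit 5) (nat_lit 4) (nat_lit 5) (nat_lit 5) (nat_lit 232) (nat_lit 272) r8_232 r0_272 (nat_lit 0) (nat_lit 13709057) (nat_lit 0) (nat_lit 0x1e6527020) (nat_lit 309616313),
  Rx.mk (nat_lit 359) (nat_lit 7) (nat_lit 4) (nat_lit 5) (nat_lit 5) (nat_lit 234) (nat_lit 273) r8_234 r0_273 (nat_lit 0) (nat_lit 9484367) (nat_lit 0) (nat_lit 0x1ffb35d36) (nat_lit 278585473),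
  Rx.mk (nat_lit 364) (nat_lit 4) (nat_lit 5) (nat_lit 5) (nat_lit 6) (nat_lit 231) (nat_lit 274) r8_231 r0_274 (nat_lit 14687495) (nat_lit 0) (nat_lit 0) (nat_lit 0x1b66eebd6) (nat_lit 361425101),
  Rx.mk (nat_lit 365) (nat_lit 5) (nat_lit 5) (nat_lit 5) (nat_lit 7) (nat_lit 233) (nat_lit 275) r8_233 r0_275 (nat_lit 0) (nat_lit 0) (nat_lit 0) (nat_lit 0x1f8bb4142) (nat_lit 276413756),
  Rx.mk (nat_lit 367) (nat_lit 7) (nat_lit 5) (nat_lit 5) (nat_lit 7) (nat_lit 235) (nat_lit 276) r8_235 r0_276 (nat_lit 0) (nat_lit 0) (nat_lit 0) (nat_lit 0x1ff5fca0e) (nat_lit 269441006),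
  Rx.mk (nat_lit 383) (nat_lit 7) (nat_lit 7) (nat_lit 5) (nat_lit 7) (nat_lit 236) (nat_lit 277) r8_236 r0_277 (nat_lit 0) (nat_lit 0) (nat_lit 0) (nat_lit 0x20056d4f2) (nat_lit 268435456)]
noncomputable def e27_13 : List Rx := [
  Rx.mk (nat_lit 356) (nat_lit 4) (nat_lit 4) (nat_lit 5) (nat_lit 4) (nat_lit 248) (nat_lit 246) r8_248 r7_246 (nat_lit 10214042) (nat_lit 11320174) (nat_lit 0) (nat_lit 0x19516debc) (nat_lit 403669772),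
  Rx.mk (nat_lit 357) (nat_lit 5) (nat_lit 4) (nat_lit 5) (nat_lit 5) (nat_lit 251) (nat_lit 249) r8_251 r7_249 (nat_lit 0) (nat_lit 9484367) (nat_lit 0) (nat_lit 0x1ff43348e) (nat_lit 279041273),
  Rx.mk (nat_lit 359) (nat_lit 7) (nat_lit 4) (nat_lit 5) (nat_lit 5) (nat_lit 254) (nat_lit 252) r8_254 r7_252 (nat_lit 0) (nat_lit 9484367) (nat_lit 0) (nat_lit 0x20056d4f2) (nat_lit 277919823),
  Rx.mk (nat_lit 364) (nat_lit 4) (nat_lit 5) (nat_lit 5) (nat_lit 6) (nat_lit 249) (nat_lit 247) r8_249 r7_247 (nat_lit 9484367) (nat_lit 0) (nat_lit 0) (nat_lit 0x1f9da5748) (nat_lit 284716123),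
  Rx.mk (nat_lit 365) (nat_lit 5) (nat_lit 5) (nat_lit 5) (nat_lit 7) (nat_lit 252) (nat_lit 250) r8_252 r7_250 (nat_lit 0) (nat_lit 0) (nat_lit 0) (nat_lit 0x20056d4f2) (nat_lit 268435456),
  Rx.mk (nat_lit 367) (nat_lit 7) (nat_lit 5) (nat_lit 5) (nat_lit 7) (nat_lit 255) (nat_lit 253) r8_255 r7_253 (nat_lit 0) (nat_lit 0) (nat_lit 0) (nat_lit 0x20056d4f2) (nat_lit 268435456),
  Rx.mk (nat_lit 372) (nat_lit 4) (nat_lit 6) (nat_lit 5) (nat_lit 6) (nat_lit 250) (nat_lit 248) r8_250 r7_248 (nat_lit 9484367) (nat_lit 0) (nat_lit 0) (nat_lit 0x1ff7a7da4) (nat_lit 278815973),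
  Rx.mk (nat_lit 373) (nat_lit 5) (nat_lit 6) (nat_lit 5) (nat_lit 7) (nat_lit 253) (nat_lit 251) r8_253 r7_251 (nat_lit 0) (nat_lit 0) (nat_lit 0) (nat_lit 0x20056d4f2) (nat_lit 268435456),
  Rx.mk (nat_lit 383) (nat_lit 7) (nat_lit 7) (nat_lit 5) (nat_lit 7) (nat_lit 256) (nat_lit 254) r8_256 r7_254 (nat_lit 0) (nat_lit 0) (nat_lit 0) (nat_lit 0x20056d4f2) (nat_lit 268435456)]
noncomputable def e27_14 : List Rx := [
  Rx.mk (nat_lit 101) (nat_lit 5) (nat_lit 4) (nat_lit 1) (nat_lit 5) (nat_lit 318) (nat_lit 276) r8_318 r1_276 (nat_lit 0) (nat_lit 9484367) (nat_lit 0) (nat_lit 0x1fd832dac) (nat_lit 280871973),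
  Rx.mk (nat_lit 109) (nat_lit 5) (nat_lit 5) (nat_lit 1) (nat_lit 7) (nat_lit 319) (nat_lit 277) r8_319 r1_277 (nat_lit 0) (nat_lit 0) (nat_lit 0) (nat_lit 0x20056d4f2) (nat_lit 268435456),
  Rx.mk (nat_lit 357) (nat_lit 5) (nat_lit 4) (nat_lit 5) (nat_lit 5) (nat_lit 316) (nat_lit 274) r8_316 r1_274 (nat_lit 0) (nat_lit 9484367) (nat_lit 0) (nat_lit 0x1fcee3b0c) (nat_lit 281479073),
  Rx.mk (nat_lit 365) (nat_lit 5) (nat_lit 5) (nat_lit 5) (nat_lit 7) (nat_lit 317) (nat_lit 275) r8_317 r1_275 (nat_lit 0) (nat_lit 0) (nat_lit 0) (nat_lit 0x20056d4f2) (nat_lit 268435456)]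
noncomputable def e27_15 : List Rx := [
  Rx.mk (nat_lit 357) (nat_lit 5) (nat_lit 4) (nat_lit 5) (nat_lit 5) (nat_lit 323) (nat_lit 191) r8_323 r8_191 (nat_lit 0) (nat_lit 9484367) (nat_lit 0) (nat_lit 0x1ff65bae0) (nat_lit 278900523),
  Rx.mk (nat_lit 365) (nat_lit 5) (nat_lit 5) (nat_lit 5) (nat_lit 7) (nat_lit 324) (nat_lit 192) r8_324 r8_192 (nat_lit 0) (nat_lit 0) (nat_lit 0) (nat_lit 0x20056d4f2) (nat_lit 268435456),
  Rx.mk (nat_lit 373) (nat_lit 5) (nat_lit 6) (nat_lit 5) (nat_lit 7) (nat_lit 325) (nat_lit 193) r8_325 r8_193 (nat_lit 0) (nat_lit 0) (nat_lit 0) (nat_lit 0x20056d4f2) (nat_lit 268435456)]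
noncomputable def e27_16 : List Rx := [
  Rx.mk (nat_lit 292) (nat_lit 4) (nat_lit 4) (nat_lit 4) (nat_lit 0) (nat_lit 299) (nat_lit 299) r8_299 r8_299 (nat_lit 11217679) (nat_lit 11217679) (nat_lit 12102617) (nat_lit 0xff1c69e0) (nat_lit 575917581),
  Rx.mk (nat_lit 295) (nat_lit 7) (nat_lit 4) (nat_lit 4) (nat_lit 1) (nat_lit 302) (nat_lit 300) r8_302 r8_300 (nat_lit 0) (nat_lit 10262683) (nat_lit 15441429) (nat_lit 0x1aef99716) (nat_lit 380358468),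
  Rx.mk (nat_lit 308) (nat_lit 4) (nat_lit 6) (nat_lit 4) (nat_lit 2) (nat_lit 300) (nat_lit 302) r8_300 r8_302 (nat_lit 10262683) (nat_lit 0) (nat_lit 15441429) (nat_lit 0x1aef99716) (nat_lit 380358468),
  Rx.mk (nat_lit 310) (nat_lit 6) (nat_lit 6) (nat_lit 4) (nat_lit 3) (nat_lit 301) (nat_lit 303) r8_301 r8_303 (nat_lit 0) (nat_lit 0) (nat_lit 9484367) (nat_lit 0x20056d4f2) (nat_lit 277919823),
  Rx.mk (nat_lit 319) (nat_lit 7) (nat_lit 7) (nat_lit 4) (nat_lit 3) (nat_lit 303) (nat_lit 301) r8_303 r8_301 (nat_lit 0) (nat_lit 0) (nat_lit 9484367) (nat_lit 0x20056d4f2) (nat_lit 277919823),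
  Rx.mk (nat_lit 356) (nat_lit 4) (nat_lit 4) (nat_lit 5) (nat_lit 4) (nat_lit 304) (nat_lit 304) r8_304 r8_304 (nat_lit 13082183) (nat_lit 13082183) (nat_lit 0) (nat_lit 0x1aaf180c0) (nat_lit 385098822),
  Rx.mk (nat_lit 357) (nat_lit 5) (nat_lit 4) (nat_lit 5) (nat_lit 5) (nat_lit 307) (nat_lit 305) r8_307 r8_305 (nat_lit 0) (nat_lit 9484367) (nat_lit 0) (nat_lit 0x20056d4f2) (nat_lit 277919823),
  Rx.mk (nat_lit 359) (nat_lit 7) (nat_lit 4) (nat_lit 5) (nat_lit 5) (nat_lit 311) (nat_lit 306) r8_311 r8_306 (nat_lit 0) (nat_lit 9484367) (nat_lit 0) (nat_lit 0x20056d4f2) (nat_lit 277919823),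
  Rx.mk (nat_lit 364) (nat_lit 4) (nat_lit 5) (nat_lit 5) (nat_lit 6) (nat_lit 305) (nat_lit 307) r8_305 r8_307 (nat_lit 9484367) (nat_lit 0) (nat_lit 0) (nat_lit 0x20056d4f2) (nat_lit 277919823),
  Rx.mk (nat_lit 365) (nat_lit 5) (nat_lit 5) (nat_lit 5) (nat_lit 7) (nat_lit 308) (nat_lit 308) r8_308 r8_308 (nat_lit 0) (nat_lit 0) (nat_lit 0) (nat_lit 0x20056d4f2) (nat_lit 268435456),
  Rx.mk (nat_lit 367) (nat_lit 7) (nat_lit 5) (nat_lit 5) (nat_lit 7) (nat_lit 312) (nat_lit 309) r8_312 r8_309 (nat_lit 0) (nat_lit 0) (nat_lit 0) (nat_lit 0x20056d4f2) (nat_lit 268435456),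
  Rx.mk (nat_lit 372) (nat_lit 4) (nat_lit 6) (nat_lit 5) (nat_lit 6) (nat_lit 306) (nat_lit 311) r8_306 r8_311 (nat_lit 9484367) (nat_lit 0) (nat_lit 0) (nat_lit 0x20056d4f2) (nat_lit 277919823),
  Rx.mk (nat_lit 373) (nat_lit 5) (nat_lit 6) (nat_lit 5) (nat_lit 7) (nat_lit 309) (nat_lit 312) r8_309 r8_312 (nat_lit 0) (nat_lit 0) (nat_lit 0) (nat_lit 0x20056d4f2) (nat_lit 268435456),
  Rx.mk (nat_lit 374) (nat_lit 6) (nat_lit 6) (nat_lit 5) (nat_lit 7) (nat_lit 310) (nat_lit 313) r8_310 r8_313 (nat_lit 0) (nat_lit 0) (nat_lit 0) (nat_lit 0x20056d4f2) (nat_lit 268435456),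
  Rx.mk (nat_lit 383) (nat_lit 7) (nat_lit 7) (nat_lit 5) (nat_lit 7) (nat_lit 313) (nat_lit 310) r8_313 r8_310 (nat_lit 0) (nat_lit 0) (nat_lit 0) (nat_lit 0x20056d4f2) (nat_lit 268435456),
  Rx.mk (nat_lit 438) (nat_lit 6) (nat_lit 6) (nat_lit 6) (nat_lit 7) (nat_lit 314) (nat_lit 315) r8_314 r8_315 (nat_lit 0) (nat_lit 0) (nat_lit 0) (nat_lit 0x20056d4f2) (nat_lit 268435456),
  Rx.mk (nat_lit 511) (nat_lit 7) (nat_lit 7) (nat_lit 7) (nat_lit 7) (nat_lit 315) (nat_lit 314) r8_315 r8_314 (nat_lit 0) (nat_lit 0) (nat_lit 0) (nat_lit 0x20056d4f2) (nat_lit 268435456)]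
noncomputable def e27_17 : List Rx := [
  Rx.mk (nat_lit 292) (nat_lit 4) (nat_lit 4) (nat_lit 4) (nat_lit 0) (nat_lit 266) (nat_lit 202) r8_266 r9_202 (nat_lit 9425907) (nat_lit 7358433) (nat_lit 10521872) (nat_lit 0xfed8bfec) (nat_lit 568969768),
  Rx.mk (nat_lit 295) (nat_lit 7) (nat_lit 4) (nat_lit 4) (nat_lit 1) (nat_lit 269) (nat_lit 204) r8_269 r9_204 (nat_lit 0) (nat_lit 11295192) (nat_lit 8834210) (nat_lit 0x1a59e41f8) (nat_lit 384717008),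
  Rx.mk (nat_lit 308) (nat_lit 4) (nat_lit 6) (nat_lit 4) (nat_lit 2) (nat_lit 267) (nat_lit 203) r8_267 r9_203 (nat_lit 12417474) (nat_lit 0) (nat_lit 9102018) (nat_lit 0x1c993f878) (nat_lit 347926448),
  Rx.mk (nat_lit 310) (nat_lit 6) (nat_lit 6) (nat_lit 4) (nat_lit 3) (nat_lit 268) (nat_lit 207) r8_268 r9_207 (nat_lit 0) (nat_lit 0) (nat_lit 9484367) (nat_lit 0x20056d4f2) (nat_lit 277919823),
  Rx.mk (nat_lit 438) (nat_lit 6) (nat_lit 6) (nat_lit 6) (nat_lit 7) (nat_lit 270) (nat_lit 208) r8_270 r9_208 (nat_lit 0) (nat_lit 0) (nat_lit 0) (nat_lit 0x20056d4f2) (nat_lit 268435456),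
  Rx.mk (nat_lit 487) (nat_lit 7) (nat_lit 4) (nat_lit 7) (nat_lit 5) (nat_lit 271) (nat_lit 205) r8_271 r9_205 (nat_lit 0) (nat_lit 9484367) (nat_lit 0) (nat_lit 0x20056d4f2) (nat_lit 277919823),
  Rx.mk (nat_lit 511) (nat_lit 7) (nat_lit 7) (nat_lit 7) (nat_lit 7) (nat_lit 272) (nat_lit 206) r8_272 r9_206 (nat_lit 0) (nat_lit 0) (nat_lit 0) (nat_lit 0x20056d4f2) (nat_lit 268435456)]
noncomputable def e27_18 : List Rx := [
  Rx.mk (nat_lit 100) (nat_lit 4) (nat_lit 4) (nat_lit 1) (nat_lit 4) (nat_lit 341) (nat_lit 287) r8_341 r4_287 (nat_lit 14567528) (nat_lit 12458268) (nat_lit 0) (nat_lit 0x1d73a9072) (nat_lit 338947352),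
  Rx.mk (nat_lit 101) (nat_lit 5) (nat_lit 4) (nat_lit 1) (nat_lit 5) (nat_lit 343) (nat_lit 288) r8_343 r4_288 (nat_lit 0) (nat_lit 9484367) (nat_lit 0) (nat_lit 0x20056d4f2) (nat_lit 277919823),
  Rx.mk (nat_lit 103) (nat_lit 7) (nat_lit 4) (nat_lit 1) (nat_lit 5) (nat_lit 345) (nat_lit 289) r8_345 r4_289 (nat_lit 0) (nat_lit 9484367) (nat_lit 0) (nat_lit 0x20056d4f2) (nat_lit 277919823),
  Rx.mk (nat_lit 108) (nat_lit 4) (nat_lit 5) (nat_lit 1) (nat_lit 6) (nat_lit 342) (nat_lit 290) r8_342 r4_290 (nat_lit 8683363) (nat_lit 0) (nat_lit 0) (nat_lit 0x1fe72858c) (nat_lit 279088869),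
  Rx.mk (nat_lit 109) (nat_lit 5) (nat_lit 5) (nat_lit 1) (nat_lit 7) (nat_lit 344) (nat_lit 291) r8_344 r4_291 (nat_lit 0) (nat_lit 0) (nat_lit 0) (nat_lit 0x20056d4f2) (nat_lit 268435456),
  Rx.mk (nat_lit 111) (nat_lit 7) (nat_lit 5) (nat_lit 1) (nat_lit 7) (nat_lit 346) (nat_lit 292) r8_346 r4_292 (nat_lit 0) (nat_lit 0) (nat_lit 0) (nat_lit 0x20056d4f2) (nat_lit 268435456),
  Rx.mk (nat_lit 359) (nat_lit 7) (nat_lit 4) (nat_lit 5) (nat_lit 5) (nat_lit 338) (nat_lit 284) r8_338 r4_284 (nat_lit 0) (nat_lit 9484367) (nat_lit 0) (nat_lit 0x20056d4f2) (nat_lit 277919823),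
  Rx.mk (nat_lit 367) (nat_lit 7) (nat_lit 5) (nat_lit 5) (nat_lit 7) (nat_lit 339) (nat_lit 285) r8_339 r4_285 (nat_lit 0) (nat_lit 0) (nat_lit 0) (nat_lit 0x20056d4f2) (nat_lit 268435456),
  Rx.mk (nat_lit 383) (nat_lit 7) (nat_lit 7) (nat_lit 5) (nat_lit 7) (nat_lit 340) (nat_lit 286) r8_340 r4_286 (nat_lit 0) (nat_lit 0) (nat_lit 0) (nat_lit 0x20056d4f2) (nat_lit 268435456)]
noncomputable def e27_19 : List Rx := [
  Rx.mk (nat_lit 359) (nat_lit 7) (nat_lit 4) (nat_lit 5) (nat_lit 5) (nat_lit 355) (nat_lit 195) r8_355 r10_195 (nat_lit 0) (nat_lit 11260883) (nat_lit 0) (nat_lit 0x1fe865990) (nat_lit 281588039),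
  Rx.mk (nat_lit 367) (nat_lit 7) (nat_lit 5) (nat_lit 5) (nat_lit 7) (nat_lit 356) (nat_lit 196) r8_356 r10_196 (nat_lit 0) (nat_lit 0) (nat_lit 0) (nat_lit 0x20056d4f2) (nat_lit 268435456),
  Rx.mk (nat_lit 383) (nat_lit 7) (nat_lit 7) (nat_lit 5) (nat_lit 7) (nat_lit 357) (nat_lit 197) r8_357 r10_197 (nat_lit 0) (nat_lit 0) (nat_lit 0) (nat_lit 0x20056d4f2) (nat_lit 268435456)]
noncomputable def e27_20 : List Rx := [
  Rx.mk (nat_lit 100) (nat_lit 4) (nat_lit 4) (nat_lit 1) (nat_lit 4) (nat_lit 368) (nat_lit 222) r8_368 r11_222 (nat_lit 29966362) (nat_lit 24191423) (nat_lit 0) (nat_lit 0x1ebb93526) (nat_lit 344331841),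
  Rx.mk (nat_lit 101) (nat_lit 5) (nat_lit 4) (nat_lit 1) (nat_lit 5) (nat_lit 370) (nat_lit 224) r8_370 r11_224 (nat_lit 0) (nat_lit 9484367) (nat_lit 0) (nat_lit 0x20056d4f2) (nat_lit 277919823),
  Rx.mk (nat_lit 103) (nat_lit 7) (nat_lit 4) (nat_lit 1) (nat_lit 5) (nat_lit 372) (nat_lit 226) r8_372 r11_226 (nat_lit 0) (nat_lit 9484367) (nat_lit 0) (nat_lit 0x20056d4f2) (nat_lit 277919823),
  Rx.mk (nat_lit 108) (nat_lit 4) (nat_lit 5) (nat_lit 1) (nat_lit 6) (nat_lit 369) (nat_lit 223) r8_369 r11_223 (nat_lit 9484367) (nat_lit 0) (nat_lit 0) (nat_lit 0x20056d4f2) (nat_lit 277919823),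
  Rx.mk (nat_lit 109) (nat_lit 5) (nat_lit 5) (nat_lit 1) (nat_lit 7) (nat_lit 371) (nat_lit 225) r8_371 r11_225 (nat_lit 0) (nat_lit 0) (nat_lit 0) (nat_lit 0x20056d4f2) (nat_lit 268435456),
  Rx.mk (nat_lit 111) (nat_lit 7) (nat_lit 5) (nat_lit 1) (nat_lit 7) (nat_lit 373) (nat_lit 227) r8_373 r11_227 (nat_lit 0) (nat_lit 0) (nat_lit 0) (nat_lit 0x20056d4f2) (nat_lit 268435456),
  Rx.mk (nat_lit 127) (nat_lit 7) (nat_lit 7) (nat_lit 1) (nat_lit 7) (nat_lit 374) (nat_lit 228) r8_374 r11_228 (nat_lit 0) (nat_lit 0) (nat_lit 0) (nat_lit 0x20056d4f2) (nat_lit 268435456),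
  Rx.mk (nat_lit 383) (nat_lit 7) (nat_lit 7) (nat_lit 5) (nat_lit 7) (nat_lit 367) (nat_lit 229) r8_367 r11_229 (nat_lit 0) (nat_lit 0) (nat_lit 0) (nat_lit 0x20056d4f2) (nat_lit 268435456)]
noncomputable def e27_21 : List Rx := [
  Rx.mk (nat_lit 292) (nat_lit 4) (nat_lit 4) (nat_lit 4) (nat_lit 0) (nat_lit 273) (nat_lit 99) r8_273 r9_99 (nat_lit 6484831) (nat_lit 3522600) (nat_lit 4054147) (nat_lit 0x102a7f066) (nat_lit 551671134),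
  Rx.mk (nat_lit 295) (nat_lit 7) (nat_lit 4) (nat_lit 4) (nat_lit 1) (nat_lit 276) (nat_lit 100) r8_276 r9_100 (nat_lit 0) (nat_lit 10509005) (nat_lit 8663689) (nat_lit 0x19d99ca04) (nat_lit 392273250),
  Rx.mk (nat_lit 308) (nat_lit 4) (nat_lit 6) (nat_lit 4) (nat_lit 2) (nat_lit 274) (nat_lit 103) r8_274 r9_103 (nat_lit 11245750) (nat_lit 0) (nat_lit 10624591) (nat_lit 0x1a3e8be9c) (nat_lit 388272497),
  Rx.mk (nat_lit 310) (nat_lit 6) (nat_lit 6) (nat_lit 4) (nat_lit 3) (nat_lit 275) (nat_lit 106) r8_275 r9_106 (nat_lit 0) (nat_lit 0) (nat_lit 9484367) (nat_lit 0x20056d4f2) (nat_lit 277919823),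
  Rx.mk (nat_lit 311) (nat_lit 7) (nat_lit 6) (nat_lit 4) (nat_lit 3) (nat_lit 277) (nat_lit 104) r8_277 r9_104 (nat_lit 0) (nat_lit 0) (nat_lit 9484367) (nat_lit 0x20056d4f2) (nat_lit 277919823),
  Rx.mk (nat_lit 406) (nat_lit 6) (nat_lit 2) (nat_lit 6) (nat_lit 7) (nat_lit 279) (nat_lit 108) r8_279 r9_108 (nat_lit 0) (nat_lit 0) (nat_lit 0) (nat_lit 0x20056d4f2) (nat_lit 268435456),
  Rx.mk (nat_lit 438) (nat_lit 6) (nat_lit 6) (nat_lit 6) (nat_lit 7) (nat_lit 278) (nat_lit 107) r8_278 r9_107 (nat_lit 0) (nat_lit 0) (nat_lit 0) (nat_lit 0x20056d4f2) (nat_lit 268435456),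
  Rx.mk (nat_lit 487) (nat_lit 7) (nat_lit 4) (nat_lit 7) (nat_lit 5) (nat_lit 280) (nat_lit 101) r8_280 r9_101 (nat_lit 0) (nat_lit 9484367) (nat_lit 0) (nat_lit 0x20056d4f2) (nat_lit 277919823),
  Rx.mk (nat_lit 503) (nat_lit 7) (nat_lit 6) (nat_lit 7) (nat_lit 7) (nat_lit 281) (nat_lit 105) r8_281 r9_105 (nat_lit 0) (nat_lit 0) (nat_lit 0) (nat_lit 0x20056d4f2) (nat_lit 268435456),
  Rx.mk (nat_lit 511) (nat_lit 7) (nat_lit 7) (nat_lit 7) (nat_lit 7) (nat_lit 282) (nat_lit 102) r8_282 r9_102 (nat_lit 0) (nat_lit 0) (nat_lit 0) (nat_lit 0x20056d4f2) (nat_lit 268435456)]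
noncomputable def e27_22 : List Rx := [
  Rx.mk (nat_lit 0) (nat_lit 0) (nat_lit 0) (nat_lit 0) (nat_lit 0) (nat_lit 0) (nat_lit 124) r8_0 r0_124 (nat_lit 10221547) (nat_lit 641106) (nat_lit 548020) (nat_lit 0xdf239f5a) (nat_lit 586659229),
  Rx.mk (nat_lit 24) (nat_lit 0) (nat_lit 3) (nat_lit 0) (nat_lit 2) (nat_lit 1) (nat_lit 125) r8_1 r0_125 (nat_lit 21261060) (nat_lit 0) (nat_lit 8977401) (nat_lit 0x18db3ee76) (nat_lit 420209017),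
  Rx.mk (nat_lit 27) (nat_lit 3) (nat_lit 3) (nat_lit 0) (nat_lit 3) (nat_lit 2) (nat_lit 126) r8_2 r0_126 (nat_lit 0) (nat_lit 0) (nat_lit 5563368) (nat_lit 0x1d90bf3fa) (nat_lit 315546874),
  Rx.mk (nat_lit 64) (nat_lit 0) (nat_lit 0) (nat_lit 1) (nat_lit 4) (nat_lit 3) (nat_lit 127) r8_3 r0_127 (nat_lit 22390317) (nat_lit 8596723) (nat_lit 0) (nat_lit 0x181f48a6e) (nat_lit 433430596),
  Rx.mk (nat_lit 88) (nat_lit 0) (nat_lit 3) (nat_lit 1) (nat_lit 6) (nat_lit 4) (nat_lit 128) r8_4 r0_128 (nat_lit 13103625) (nat_lit 0) (nat_lit 0) (nat_lit 0x1fa80595e) (nat_lit 287655681),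
  Rx.mk (nat_lit 91) (nat_lit 3) (nat_lit 3) (nat_lit 1) (nat_lit 7) (nat_lit 5) (nat_lit 129) r8_5 r0_129 (nat_lit 0) (nat_lit 0) (nat_lit 0) (nat_lit 0x1fdc55c7c) (nat_lit 271115106),
  Rx.mk (nat_lit 128) (nat_lit 0) (nat_lit 0) (nat_lit 2) (nat_lit 4) (nat_lit 6) (nat_lit 133) r8_6 r0_133 (nat_lit 8459973) (nat_lit 5082939) (nat_lit 0) (nat_lit 0x18412df6c) (nat_lit 413722318),
  Rx.mk (nat_lit 130) (nat_lit 2) (nat_lit 0) (nat_lit 2) (nat_lit 5) (nat_lit 8) (nat_lit 136) r8_8 r0_136 (nat_lit 0) (nat_lit 11005782) (nat_lit 0) (nat_lit 0x1c8a0941c) (nat_lit 338427488),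
  Rx.mk (nat_lit 146) (nat_lit 2) (nat_lit 2) (nat_lit 2) (nat_lit 7) (nat_lit 9) (nat_lit 138) r8_9 r0_138 (nat_lit 0) (nat_lit 0) (nat_lit 0) (nat_lit 0x20056d4f2) (nat_lit 268435456),
  Rx.mk (nat_lit 152) (nat_lit 0) (nat_lit 3) (nat_lit 2) (nat_lit 6) (nat_lit 7) (nat_lit 134) r8_7 r0_134 (nat_lit 17354866) (nat_lit 0) (nat_lit 0) (nat_lit 0x1fa7fc02a) (nat_lit 291906822),
  Rx.mk (nat_lit 154) (nat_lit 2) (nat_lit 3) (nat_lit 2) (nat_lit 7) (nat_lit 10) (nat_lit 137) r8_10 r0_137 (nat_lit 0) (nat_lit 0) (nat_lit 0) (nat_lit 0x20056d4f2) (nat_lit 268435456),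
  Rx.mk (nat_lit 155) (nat_lit 3) (nat_lit 3) (nat_lit 2) (nat_lit 7) (nat_lit 11) (nat_lit 135) r8_11 r0_135 (nat_lit 0) (nat_lit 0) (nat_lit 0) (nat_lit 0x2003e8e1a) (nat_lit 268530456),
  Rx.mk (nat_lit 219) (nat_lit 3) (nat_lit 3) (nat_lit 3) (nat_lit 7) (nat_lit 14) (nat_lit 130) r8_14 r0_130 (nat_lit 0) (nat_lit 0) (nat_lit 0) (nat_lit 0x1ff9e4946) (nat_lit 269186206),
  Rx.mk (nat_lit 251) (nat_lit 3) (nat_lit 7) (nat_lit 3) (nat_lit 7) (nat_lit 13) (nat_lit 131) r8_13 r0_131 (nat_lit 0) (nat_lit 0) (nat_lit 0) (nat_lit 0x1ff9ddc54) (nat_lit 269187956),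
  Rx.mk (nat_lit 255) (nat_lit 7) (nat_lit 7) (nat_lit 3) (nat_lit 7) (nat_lit 12) (nat_lit 132) r8_12 r0_132 (nat_lit 0) (nat_lit 0) (nat_lit 0) (nat_lit 0x20056d4f2) (nat_lit 268435456)]
noncomputable def e27_23 : List Rx := [
  Rx.mk (nat_lit 0) (nat_lit 0) (nat_lit 0) (nat_lit 0) (nat_lit 0) (nat_lit 15) (nat_lit 131) r8_15 r1_131 (nat_lit 16284288) (nat_lit 5200936) (nat_lit 12970436) (nat_lit 0x1431ccdd8) (nat_lit 503628066),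
  Rx.mk (nat_lit 24) (nat_lit 0) (nat_lit 3) (nat_lit 0) (nat_lit 2) (nat_lit 16) (nat_lit 132) r8_16 r1_132 (nat_lit 22083687) (nat_lit 0) (nat_lit 19111015) (nat_lit 0x1d7134e54) (nat_lit 353280508),
  Rx.mk (nat_lit 27) (nat_lit 3) (nat_lit 3) (nat_lit 0) (nat_lit 3) (nat_lit 17) (nat_lit 133) r8_17 r1_133 (nat_lit 0) (nat_lit 0) (nat_lit 6904608) (nat_lit 0x20290cb56) (nat_lit 273020764),
  Rx.mk (nat_lit 64) (nat_lit 0) (nat_lit 0) (nat_lit 1) (nat_lit 4) (nat_lit 18) (nat_lit 134) r8_18 r1_134 (nat_lit 29107008) (nat_lit 9122221) (nat_lit 0) (nat_lit 0x1d0963e24) (nat_lit 357196735),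
  Rx.mk (nat_lit 88) (nat_lit 0) (nat_lit 3) (nat_lit 1) (nat_lit 6) (nat_lit 19) (nat_lit 135) r8_19 r1_135 (nat_lit 10065192) (nat_lit 0) (nat_lit 0) (nat_lit 0x1ff9d2c5a) (nat_lit 279255198),
  Rx.mk (nat_lit 91) (nat_lit 3) (nat_lit 3) (nat_lit 1) (nat_lit 7) (nat_lit 20) (nat_lit 136) r8_20 r1_136 (nat_lit 0) (nat_lit 0) (nat_lit 0) (nat_lit 0x20056d4f2) (nat_lit 268435456),
  Rx.mk (nat_lit 128) (nat_lit 0) (nat_lit 0) (nat_lit 2) (nat_lit 4) (nat_lit 21) (nat_lit 138) r8_21 r1_138 (nat_lit 20913238) (nat_lit 9541451) (nat_lit 0) (nat_lit 0x1e0c4cea0) (nat_lit 332249895),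
  Rx.mk (nat_lit 130) (nat_lit 2) (nat_lit 0) (nat_lit 2) (nat_lit 5) (nat_lit 22) (nat_lit 139) r8_22 r1_139 (nat_lit 0) (nat_lit 8599271) (nat_lit 0) (nat_lit 0x1fb1e00d2) (nat_lit 282498427),
  Rx.mk (nat_lit 146) (nat_lit 2) (nat_lit 2) (nat_lit 2) (nat_lit 7) (nat_lit 23) (nat_lit 140) r8_23 r1_140 (nat_lit 0) (nat_lit 0) (nat_lit 0) (nat_lit 0x20056d4f2) (nat_lit 268435456),
  Rx.mk (nat_lit 219) (nat_lit 3) (nat_lit 3) (nat_lit 3) (nat_lit 7) (nat_lit 24) (nat_lit 137) r8_24 r1_137 (nat_lit 0) (nat_lit 0) (nat_lit 0) (nat_lit 0x20056d4f2) (nat_lit 268435456)]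
noncomputable def e27_24 : List Rx := [
  Rx.mk (nat_lit 24) (nat_lit 0) (nat_lit 3) (nat_lit 0) (nat_lit 2) (nat_lit 47) (nat_lit 114) r8_47 r4_114 (nat_lit 11807297) (nat_lit 0) (nat_lit 6982043) (nat_lit 0x1b19f2d78) (nat_lit 370624546),
  Rx.mk (nat_lit 27) (nat_lit 3) (nat_lit 3) (nat_lit 0) (nat_lit 3) (nat_lit 49) (nat_lit 115) r8_49 r4_115 (nat_lit 0) (nat_lit 0) (nat_lit 5122548) (nat_lit 0x20397ba82) (nat_lit 270168654),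
  Rx.mk (nat_lit 59) (nat_lit 3) (nat_lit 7) (nat_lit 0) (nat_lit 3) (nat_lit 48) (nat_lit 116) r8_48 r4_116 (nat_lit 0) (nat_lit 0) (nat_lit 6335143) (nat_lit 0x203ee26e2) (nat_lit 271036899),
  Rx.mk (nat_lit 88) (nat_lit 0) (nat_lit 3) (nat_lit 1) (nat_lit 6) (nat_lit 50) (nat_lit 117) r8_50 r4_117 (nat_lit 9484367) (nat_lit 0) (nat_lit 0) (nat_lit 0x20056d4f2) (nat_lit 277919823),
  Rx.mk (nat_lit 91) (nat_lit 3) (nat_lit 3) (nat_lit 1) (nat_lit 7) (nat_lit 52) (nat_lit 118) r8_52 r4_118 (nat_lit 0) (nat_lit 0) (nat_lit 0) (nat_lit 0x205b17592) (nat_lit 262878656),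
  Rx.mk (nat_lit 123) (nat_lit 3) (nat_lit 7) (nat_lit 1) (nat_lit 7) (nat_lit 51) (nat_lit 119) r8_51 r4_119 (nat_lit 0) (nat_lit 0) (nat_lit 0) (nat_lit 0x2028cb836) (nat_lit 266134506),
  Rx.mk (nat_lit 152) (nat_lit 0) (nat_lit 3) (nat_lit 2) (nat_lit 6) (nat_lit 53) (nat_lit 122) r8_53 r4_122 (nat_lit 9484367) (nat_lit 0) (nat_lit 0) (nat_lit 0x20056d4f2) (nat_lit 277919823),
  Rx.mk (nat_lit 154) (nat_lit 2) (nat_lit 3) (nat_lit 2) (nat_lit 7) (nat_lit 54) (nat_lit 124) r8_54 r4_124 (nat_lit 0) (nat_lit 0) (nat_lit 0) (nat_lit 0x20056d4f2) (nat_lit 268435456),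
  Rx.mk (nat_lit 155) (nat_lit 3) (nat_lit 3) (nat_lit 2) (nat_lit 7) (nat_lit 55) (nat_lit 123) r8_55 r4_123 (nat_lit 0) (nat_lit 0) (nat_lit 0) (nat_lit 0x205b17592) (nat_lit 262878656),
  Rx.mk (nat_lit 251) (nat_lit 3) (nat_lit 7) (nat_lit 3) (nat_lit 7) (nat_lit 57) (nat_lit 120) r8_57 r4_120 (nat_lit 0) (nat_lit 0) (nat_lit 0) (nat_lit 0x20056d4f2) (nat_lit 268435456),
  Rx.mk (nat_lit 255) (nat_lit 7) (nat_lit 7) (nat_lit 3) (nat_lit 7) (nat_lit 56) (nat_lit 121) r8_56 r4_121 (nat_lit 0) (nat_lit 0) (nat_lit 0) (nat_lit 0x20056d4f2) (nat_lit 268435456)]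
noncomputable def e27_25 : List Rx := [
  Rx.mk (nat_lit 0) (nat_lit 0) (nat_lit 0) (nat_lit 0) (nat_lit 0) (nat_lit 78) (nat_lit 150) r8_78 r7_150 (nat_lit 7198289) (nat_lit 2425005) (nat_lit 2733102) (nat_lit 0xe238fa28) (nat_lit 584393802),
  Rx.mk (nat_lit 24) (nat_lit 0) (nat_lit 3) (nat_lit 0) (nat_lit 2) (nat_lit 79) (nat_lit 153) r8_79 r7_153 (nat_lit 9749284) (nat_lit 0) (nat_lit 7126275) (nat_lit 0x19f2f17ca) (nat_lit 388291215),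
  Rx.mk (nat_lit 27) (nat_lit 3) (nat_lit 3) (nat_lit 0) (nat_lit 3) (nat_lit 80) (nat_lit 155) r8_80 r7_155 (nat_lit 0) (nat_lit 0) (nat_lit 4537940) (nat_lit 0x1fda0b7c8) (nat_lit 275782896),
  Rx.mk (nat_lit 128) (nat_lit 0) (nat_lit 0) (nat_lit 2) (nat_lit 4) (nat_lit 81) (nat_lit 151) r8_81 r7_151 (nat_lit 2929309) (nat_lit 3122194) (nat_lit 0) (nat_lit 0x1a0760b20) (nat_lit 376091909),
  Rx.mk (nat_lit 130) (nat_lit 2) (nat_lit 0) (nat_lit 2) (nat_lit 5) (nat_lit 83) (nat_lit 152) r8_83 r7_152 (nat_lit 0) (nat_lit 10791901) (nat_lit 0) (nat_lit 0x1f986bbb0) (nat_lit 286357257),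
  Rx.mk (nat_lit 146) (nat_lit 2) (nat_lit 2) (nat_lit 2) (nat_lit 7) (nat_lit 84) (nat_lit 159) r8_84 r7_159 (nat_lit 0) (nat_lit 0) (nat_lit 0) (nat_lit 0x20056d4f2) (nat_lit 268435456),
  Rx.mk (nat_lit 152) (nat_lit 0) (nat_lit 3) (nat_lit 2) (nat_lit 6) (nat_lit 82) (nat_lit 154) r8_82 r7_154 (nat_lit 9484367) (nat_lit 0) (nat_lit 0) (nat_lit 0x20056d4f2) (nat_lit 277919823),
  Rx.mk (nat_lit 154) (nat_lit 2) (nat_lit 3) (nat_lit 2) (nat_lit 7) (nat_lit 85) (nat_lit 158) r8_85 r7_158 (nat_lit 0) (nat_lit 0) (nat_lit 0) (nat_lit 0x20056d4f2) (nat_lit 268435456),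
  Rx.mk (nat_lit 155) (nat_lit 3) (nat_lit 3) (nat_lit 2) (nat_lit 7) (nat_lit 86) (nat_lit 157) r8_86 r7_157 (nat_lit 0) (nat_lit 0) (nat_lit 0) (nat_lit 0x20056d4f2) (nat_lit 268435456),
  Rx.mk (nat_lit 219) (nat_lit 3) (nat_lit 3) (nat_lit 3) (nat_lit 7) (nat_lit 89) (nat_lit 156) r8_89 r7_156 (nat_lit 0) (nat_lit 0) (nat_lit 0) (nat_lit 0x20056d4f2) (nat_lit 268435456),
  Rx.mk (nat_lit 251) (nat_lit 3) (nat_lit 7) (nat_lit 3) (nat_lit 7) (nat_lit 88) (nat_lit 149) r8_88 r7_149 (nat_lit 0) (nat_lit 0) (nat_lit 0) (nat_lit 0x20056d4f2) (nat_lit 268435456),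
  Rx.mk (nat_lit 255) (nat_lit 7) (nat_lit 7) (nat_lit 3) (nat_lit 7) (nat_lit 87) (nat_lit 148) r8_87 r7_148 (nat_lit 0) (nat_lit 0) (nat_lit 0) (nat_lit 0x20056d4f2) (nat_lit 268435456)]
noncomputable def e27_26 : List Rx := [
  Rx.mk (nat_lit 0) (nat_lit 0) (nat_lit 0) (nat_lit 0) (nat_lit 0) (nat_lit 126) (nat_lit 126) r8_126 r8_126 (nat_lit 14395821) (nat_lit 2874288) (nat_lit 2874288) (nat_lit 0xf1d27a40) (nat_lit 575631903),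
  Rx.mk (nat_lit 24) (nat_lit 0) (nat_lit 3) (nat_lit 0) (nat_lit 2) (nat_lit 127) (nat_lit 129) r8_127 r8_129 (nat_lit 9896907) (nat_lit 0) (nat_lit 8331466) (nat_lit 0x1991bda12) (nat_lit 396097329),
  Rx.mk (nat_lit 27) (nat_lit 3) (nat_lit 3) (nat_lit 0) (nat_lit 3) (nat_lit 128) (nat_lit 130) r8_128 r8_130 (nat_lit 0) (nat_lit 0) (nat_lit 9484367) (nat_lit 0x1ff9aaa2a) (nat_lit 278685173),
  Rx.mk (nat_lit 128) (nat_lit 0) (nat_lit 0) (nat_lit 2) (nat_lit 4) (nat_lit 129) (nat_lit 127) r8_129 r8_127 (nat_lit 9896907) (nat_lit 8331466) (nat_lit 0) (nat_lit 0x1991bda12) (nat_lit 396097329),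
  Rx.mk (nat_lit 130) (nat_lit 2) (nat_lit 0) (nat_lit 2) (nat_lit 5) (nat_lit 130) (nat_lit 128) r8_130 r8_128 (nat_lit 0) (nat_lit 9484367) (nat_lit 0) (nat_lit 0x1ff9aaa2a) (nat_lit 278685173),
  Rx.mk (nat_lit 146) (nat_lit 2) (nat_lit 2) (nat_lit 2) (nat_lit 7) (nat_lit 131) (nat_lit 132) r8_131 r8_132 (nat_lit 0) (nat_lit 0) (nat_lit 0) (nat_lit 0x20056d4f2) (nat_lit 268435456),
  Rx.mk (nat_lit 219) (nat_lit 3) (nat_lit 3) (nat_lit 3) (nat_lit 7) (nat_lit 132) (nat_lit 131) r8_132 r8_131 (nat_lit 0) (nat_lit 0) (nat_lit 0) (nat_lit 0x20056d4f2) (nat_lit 268435456)]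
noncomputable def e27_27 : List Rx := [
  Rx.mk (nat_lit 0) (nat_lit 0) (nat_lit 0) (nat_lit 0) (nat_lit 0) (nat_lit 114) (nat_lit 102) r8_114 r8_102 (nat_lit 4187922) (nat_lit 3145110) (nat_lit 2252895) (nat_lit 0xd7a69a48) (nat_lit 592852383),
  Rx.mk (nat_lit 24) (nat_lit 0) (nat_lit 3) (nat_lit 0) (nat_lit 2) (nat_lit 115) (nat_lit 103) r8_115 r8_103 (nat_lit 4189087) (nat_lit 0) (nat_lit 4156469) (nat_lit 0x16b35e84a) (nat_lit 434950462),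
  Rx.mk (nat_lit 27) (nat_lit 3) (nat_lit 3) (nat_lit 0) (nat_lit 3) (nat_lit 116) (nat_lit 104) r8_116 r8_104 (nat_lit 0) (nat_lit 0) (nat_lit 6034803) (nat_lit 0x1fee7420a) (nat_lit 275961759),
  Rx.mk (nat_lit 128) (nat_lit 0) (nat_lit 0) (nat_lit 2) (nat_lit 4) (nat_lit 117) (nat_lit 108) r8_117 r8_108 (nat_lit 668783) (nat_lit 774941) (nat_lit 0) (nat_lit 0x1b30dd394) (nat_lit 351691230),
  Rx.mk (nat_lit 130) (nat_lit 2) (nat_lit 0) (nat_lit 2) (nat_lit 5) (nat_lit 119) (nat_lit 111) r8_119 r8_111 (nat_lit 0) (nat_lit 9484367) (nat_lit 0) (nat_lit 0x1fda9a98c) (nat_lit 280710373),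
  Rx.mk (nat_lit 146) (nat_lit 2) (nat_lit 2) (nat_lit 2) (nat_lit 7) (nat_lit 120) (nat_lit 113) r8_120 r8_113 (nat_lit 0) (nat_lit 0) (nat_lit 0) (nat_lit 0x20056d4f2) (nat_lit 268435456),
  Rx.mk (nat_lit 152) (nat_lit 0) (nat_lit 3) (nat_lit 2) (nat_lit 6) (nat_lit 118) (nat_lit 109) r8_118 r8_109 (nat_lit 9484367) (nat_lit 0) (nat_lit 0) (nat_lit 0x20056d4f2) (nat_lit 277919823),
  Rx.mk (nat_lit 154) (nat_lit 2) (nat_lit 3) (nat_lit 2) (nat_lit 7) (nat_lit 121) (nat_lit 112) r8_121 r8_112 (nat_lit 0) (nat_lit 0) (nat_lit 0) (nat_lit 0x20056d4f2) (nat_lit 268435456),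
  Rx.mk (nat_lit 155) (nat_lit 3) (nat_lit 3) (nat_lit 2) (nat_lit 7) (nat_lit 122) (nat_lit 110) r8_122 r8_110 (nat_lit 0) (nat_lit 0) (nat_lit 0) (nat_lit 0x20056d4f2) (nat_lit 268435456),
  Rx.mk (nat_lit 219) (nat_lit 3) (nat_lit 3) (nat_lit 3) (nat_lit 7) (nat_lit 125) (nat_lit 105) r8_125 r8_105 (nat_lit 0) (nat_lit 0) (nat_lit 0) (nat_lit 0x20056d4f2) (nat_lit 268435456),
  Rx.mk (nat_lit 251) (nat_lit 3) (nat_lit 7) (nat_lit 3) (nat_lit 7) (nat_lit 124) (nat_lit 106) r8_124 r8_106 (nat_lit 0) (nat_lit 0) (nat_lit 0) (nat_lit 0x20056d4f2) (nat_lit 268435456),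
  Rx.mk (nat_lit 255) (nat_lit 7) (nat_lit 7) (nat_lit 3) (nat_lit 7) (nat_lit 123) (nat_lit 107) r8_123 r8_107 (nat_lit 0) (nat_lit 0) (nat_lit 0) (nat_lit 0x20056d4f2) (nat_lit 268435456),
  Rx.mk (nat_lit 292) (nat_lit 4) (nat_lit 4) (nat_lit 4) (nat_lit 0) (nat_lit 102) (nat_lit 114) r8_102 r8_114 (nat_lit 4187922) (nat_lit 3145110) (nat_lit 2252895) (nat_lit 0xd7a69a48) (nat_lit 592852383),
  Rx.mk (nat_lit 308) (nat_lit 4) (nat_lit 6) (nat_lit 4) (nat_lit 2) (nat_lit 103) (nat_lit 115) r8_103 r8_115 (nat_lit 4189087) (nat_lit 0) (nat_lit 4156469) (nat_lit 0x16b35e84a) (nat_lit 434950462),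
  Rx.mk (nat_lit 310) (nat_lit 6) (nat_lit 6) (nat_lit 4) (nat_lit 3) (nat_lit 104) (nat_lit 116) r8_104 r8_116 (nat_lit 0) (nat_lit 0) (nat_lit 6034803) (nat_lit 0x1fee7420a) (nat_lit 275961759),
  Rx.mk (nat_lit 402) (nat_lit 2) (nat_lit 2) (nat_lit 6) (nat_lit 7) (nat_lit 107) (nat_lit 123) r8_107 r8_123 (nat_lit 0) (nat_lit 0) (nat_lit 0) (nat_lit 0x20056d4f2) (nat_lit 268435456),
  Rx.mk (nat_lit 406) (nat_lit 6) (nat_lit 2) (nat_lit 6) (nat_lit 7) (nat_lit 106) (nat_lit 124) r8_106 r8_124 (nat_lit 0) (nat_lit 0) (nat_lit 0) (nat_lit 0x20056d4f2) (nat_lit 268435456),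
  Rx.mk (nat_lit 438) (nat_lit 6) (nat_lit 6) (nat_lit 6) (nat_lit 7) (nat_lit 105) (nat_lit 125) r8_105 r8_125 (nat_lit 0) (nat_lit 0) (nat_lit 0) (nat_lit 0x20056d4f2) (nat_lit 268435456),
  Rx.mk (nat_lit 484) (nat_lit 4) (nat_lit 4) (nat_lit 7) (nat_lit 4) (nat_lit 108) (nat_lit 117) r8_108 r8_117 (nat_lit 668783) (nat_lit 774941) (nat_lit 0) (nat_lit 0x1b30dd394) (nat_lit 351691230),
  Rx.mk (nat_lit 487) (nat_lit 7) (nat_lit 4) (nat_lit 7) (nat_lit 5) (nat_lit 111) (nat_lit 119) r8_111 r8_119 (nat_lit 0) (nat_lit 9484367) (nat_lit 0) (nat_lit 0x1fda9a98c) (nat_lit 280710373),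
  Rx.mk (nat_lit 500) (nat_lit 4) (nat_lit 6) (nat_lit 7) (nat_lit 6) (nat_lit 109) (nat_lit 118) r8_109 r8_118 (nat_lit 9484367) (nat_lit 0) (nat_lit 0) (nat_lit 0x20056d4f2) (nat_lit 277919823),
  Rx.mk (nat_lit 502) (nat_lit 6) (nat_lit 6) (nat_lit 7) (nat_lit 7) (nat_lit 110) (nat_lit 122) r8_110 r8_122 (nat_lit 0) (nat_lit 0) (nat_lit 0) (nat_lit 0x20056d4f2) (nat_lit 268435456),
  Rx.mk (nat_lit 503) (nat_lit 7) (nat_lit 6) (nat_lit 7) (nat_lit 7) (nat_lit 112) (nat_lit 121) r8_112 r8_121 (nat_lit 0) (nat_lit 0) (nat_lit 0) (nat_lit 0x20056d4f2) (nat_lit 268435456),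
  Rx.mk (nat_lit 511) (nat_lit 7) (nat_lit 7) (nat_lit 7) (nat_lit 7) (nat_lit 113) (nat_lit 120) r8_113 r8_120 (nat_lit 0) (nat_lit 0) (nat_lit 0) (nat_lit 0x20056d4f2) (nat_lit 268435456)]
noncomputable def e27_28 : List Rx := [
  Rx.mk (nat_lit 24) (nat_lit 0) (nat_lit 3) (nat_lit 0) (nat_lit 2) (nat_lit 149) (nat_lit 112) r8_149 r10_112 (nat_lit 8541134) (nat_lit 0) (nat_lit 6364952) (nat_lit 0x186a9d334) (nat_lit 412357992),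
  Rx.mk (nat_lit 27) (nat_lit 3) (nat_lit 3) (nat_lit 0) (nat_lit 3) (nat_lit 151) (nat_lit 114) r8_151 r10_114 (nat_lit 0) (nat_lit 0) (nat_lit 4442685) (nat_lit 0x203b15f3c) (nat_lit 269384691),
  Rx.mk (nat_lit 59) (nat_lit 3) (nat_lit 7) (nat_lit 0) (nat_lit 3) (nat_lit 150) (nat_lit 110) r8_150 r10_110 (nat_lit 0) (nat_lit 0) (nat_lit 9484367) (nat_lit 0x1fe950e7c) (nat_lit 279752073),
  Rx.mk (nat_lit 152) (nat_lit 0) (nat_lit 3) (nat_lit 2) (nat_lit 6) (nat_lit 152) (nat_lit 113) r8_152 r10_113 (nat_lit 9484367) (nat_lit 0) (nat_lit 0) (nat_lit 0x1ff13e1a2) (nat_lit 279234723),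
  Rx.mk (nat_lit 154) (nat_lit 2) (nat_lit 3) (nat_lit 2) (nat_lit 7) (nat_lit 153) (nat_lit 116) r8_153 r10_116 (nat_lit 0) (nat_lit 0) (nat_lit 0) (nat_lit 0x20056d4f2) (nat_lit 268435456),
  Rx.mk (nat_lit 155) (nat_lit 3) (nat_lit 3) (nat_lit 2) (nat_lit 7) (nat_lit 154) (nat_lit 115) r8_154 r10_115 (nat_lit 0) (nat_lit 0) (nat_lit 0) (nat_lit 0x20056d4f2) (nat_lit 268435456),
  Rx.mk (nat_lit 251) (nat_lit 3) (nat_lit 7) (nat_lit 3) (nat_lit 7) (nat_lit 156) (nat_lit 111) r8_156 r10_111 (nat_lit 0) (nat_lit 0) (nat_lit 0) (nat_lit 0x20056d4f2) (nat_lit 268435456),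
  Rx.mk (nat_lit 255) (nat_lit 7) (nat_lit 7) (nat_lit 3) (nat_lit 7) (nat_lit 155) (nat_lit 109) r8_155 r10_109 (nat_lit 0) (nat_lit 0) (nat_lit 0) (nat_lit 0x20056d4f2) (nat_lit 268435456)]
noncomputable def e27_29 : List Rx := [
  Rx.mk (nat_lit 27) (nat_lit 3) (nat_lit 3) (nat_lit 0) (nat_lit 3) (nat_lit 208) (nat_lit 120) r8_208 r11_120 (nat_lit 0) (nat_lit 0) (nat_lit 6380904) (nat_lit 0x200222932) (nat_lit 275019360),
  Rx.mk (nat_lit 59) (nat_lit 3) (nat_lit 7) (nat_lit 0) (nat_lit 3) (nat_lit 207) (nat_lit 118) r8_207 r11_118 (nat_lit 0) (nat_lit 0) (nat_lit 9484367) (nat_lit 0x20056d4f2) (nat_lit 277919823),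
  Rx.mk (nat_lit 63) (nat_lit 7) (nat_lit 7) (nat_lit 0) (nat_lit 3) (nat_lit 206) (nat_lit 115) r8_206 r11_115 (nat_lit 0) (nat_lit 0) (nat_lit 10015832) (nat_lit 0x1fdbfee04) (nat_lit 281155438),
  Rx.mk (nat_lit 91) (nat_lit 3) (nat_lit 3) (nat_lit 1) (nat_lit 7) (nat_lit 211) (nat_lit 121) r8_211 r11_121 (nat_lit 0) (nat_lit 0) (nat_lit 0) (nat_lit 0x203017a4a) (nat_lit 265661706),
  Rx.mk (nat_lit 123) (nat_lit 3) (nat_lit 7) (nat_lit 1) (nat_lit 7) (nat_lit 210) (nat_lit 119) r8_210 r11_119 (nat_lit 0) (nat_lit 0) (nat_lit 0) (nat_lit 0x20056d4f2) (nat_lit 268435456),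
  Rx.mk (nat_lit 127) (nat_lit 7) (nat_lit 7) (nat_lit 1) (nat_lit 7) (nat_lit 209) (nat_lit 116) r8_209 r11_116 (nat_lit 0) (nat_lit 0) (nat_lit 0) (nat_lit 0x20056d4f2) (nat_lit 268435456),
  Rx.mk (nat_lit 155) (nat_lit 3) (nat_lit 3) (nat_lit 2) (nat_lit 7) (nat_lit 212) (nat_lit 122) r8_212 r11_122 (nat_lit 0) (nat_lit 0) (nat_lit 0) (nat_lit 0x203017a4a) (nat_lit 265661706),
  Rx.mk (nat_lit 255) (nat_lit 7) (nat_lit 7) (nat_lit 3) (nat_lit 7) (nat_lit 213) (nat_lit 117) r8_213 r11_117 (nat_lit 0) (nat_lit 0) (nat_lit 0) (nat_lit 0x20056d4f2) (nat_lit 268435456)]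
noncomputable def e27_30 : List Rx := [
  Rx.mk (nat_lit 103) (nat_lit 7) (nat_lit 4) (nat_lit 1) (nat_lit 5) (nat_lit 349) (nat_lit 271) r8_349 r5_271 (nat_lit 0) (nat_lit 7987863) (nat_lit 0) (nat_lit 0x2001dda6c) (nat_lit 276652469),
  Rx.mk (nat_lit 111) (nat_lit 7) (nat_lit 5) (nat_lit 1) (nat_lit 7) (nat_lit 350) (nat_lit 272) r8_350 r5_272 (nat_lit 0) (nat_lit 0) (nat_lit 0) (nat_lit 0x20056d4f2) (nat_lit 268435456),
  Rx.mk (nat_lit 359) (nat_lit 7) (nat_lit 4) (nat_lit 5) (nat_lit 5) (nat_lit 347) (nat_lit 269) r8_347 r5_269 (nat_lit 0) (nat_lit 9484367) (nat_lit 0) (nat_lit 0x20056d4f2) (nat_lit 277919823),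
  Rx.mk (nat_lit 367) (nat_lit 7) (nat_lit 5) (nat_lit 5) (nat_lit 7) (nat_lit 348) (nat_lit 270) r8_348 r5_270 (nat_lit 0) (nat_lit 0) (nat_lit 0) (nat_lit 0x20056d4f2) (nat_lit 268435456)]
noncomputable def e27_31 : List Rx := [
  Rx.mk (nat_lit 359) (nat_lit 7) (nat_lit 4) (nat_lit 5) (nat_lit 5) (nat_lit 358) (nat_lit 335) r8_358 r11_335 (nat_lit 0) (nat_lit 9484367) (nat_lit 0) (nat_lit 0x20056d4f2) (nat_lit 277919823),
  Rx.mk (nat_lit 367) (nat_lit 7) (nat_lit 5) (nat_lit 5) (nat_lit 7) (nat_lit 359) (nat_lit 336) r8_359 r11_336 (nat_lit 0) (nat_lit 0) (nat_lit 0) (nat_lit 0x20056d4f2) (nat_lit 268435456),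
  Rx.mk (nat_lit 375) (nat_lit 7) (nat_lit 6) (nat_lit 5) (nat_lit 7) (nat_lit 360) (nat_lit 337) r8_360 r11_337 (nat_lit 0) (nat_lit 0) (nat_lit 0) (nat_lit 0x20056d4f2) (nat_lit 268435456)]
noncomputable def e27_32 : List Rx := [
  Rx.mk (nat_lit 99) (nat_lit 3) (nat_lit 4) (nat_lit 1) (nat_lit 5) (nat_lit 71) (nat_lit 203) r8_71 r6_203 (nat_lit 0) (nat_lit 3112990) (nat_lit 0) (nat_lit 0x203633f14) (nat_lit 268344796),
  Rx.mk (nat_lit 107) (nat_lit 3) (nat_lit 5) (nat_lit 1) (nat_lit 7) (nat_lit 72) (nat_lit 204) r8_72 r6_204 (nat_lit 0) (nat_lit 0) (nat_lit 0) (nat_lit 0x2081b6e6e) (nat_lit 260388556),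
  Rx.mk (nat_lit 123) (nat_lit 3) (nat_lit 7) (nat_lit 1) (nat_lit 7) (nat_lit 73) (nat_lit 205) r8_73 r6_205 (nat_lit 0) (nat_lit 0) (nat_lit 0) (nat_lit 0x20bcf9418) (nat_lit 256577206)]
noncomputable def e27_33 : List Rx := [
  Rx.mk (nat_lit 59) (nat_lit 3) (nat_lit 7) (nat_lit 0) (nat_lit 3) (nat_lit 58) (nat_lit 115) r8_58 r5_115 (nat_lit 0) (nat_lit 0) (nat_lit 4768026) (nat_lit 0x205744316) (nat_lit 267884932),
  Rx.mk (nat_lit 123) (nat_lit 3) (nat_lit 7) (nat_lit 1) (nat_lit 7) (nat_lit 59) (nat_lit 116) r8_59 r5_116 (nat_lit 0) (nat_lit 0) (nat_lit 0) (nat_lit 0x2048f80d2) (nat_lit 264049356),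
  Rx.mk (nat_lit 251) (nat_lit 3) (nat_lit 7) (nat_lit 3) (nat_lit 7) (nat_lit 60) (nat_lit 117) r8_60 r5_117 (nat_lit 0) (nat_lit 0) (nat_lit 0) (nat_lit 0x20056d4f2) (nat_lit 268435456)]
noncomputable def e27_34 : List Rx := [
  Rx.mk (nat_lit 59) (nat_lit 3) (nat_lit 7) (nat_lit 0) (nat_lit 3) (nat_lit 157) (nat_lit 113) r8_157 r11_113 (nat_lit 0) (nat_lit 0) (nat_lit 9484367) (nat_lit 0x20056d4f2) (nat_lit 277919823),
  Rx.mk (nat_lit 251) (nat_lit 3) (nat_lit 7) (nat_lit 3) (nat_lit 7) (nat_lit 158) (nat_lit 114) r8_158 r11_114 (nat_lit 0) (nat_lit 0) (nat_lit 0) (nat_lit 0x20056d4f2) (nat_lit 268435456)]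
noncomputable def e27_35 : List Rx := [
  Rx.mk (nat_lit 99) (nat_lit 3) (nat_lit 4) (nat_lit 1) (nat_lit 5) (nat_lit 216) (nat_lit 310) r8_216 r6_310 (nat_lit 0) (nat_lit 2919699) (nat_lit 0) (nat_lit 0x2016d6edc) (nat_lit 270181455),
  Rx.mk (nat_lit 103) (nat_lit 7) (nat_lit 4) (nat_lit 1) (nat_lit 5) (nat_lit 214) (nat_lit 311) r8_214 r6_311 (nat_lit 0) (nat_lit 8407643) (nat_lit 0) (nat_lit 0x1fc19b2d8) (nat_lit 281260399),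
  Rx.mk (nat_lit 107) (nat_lit 3) (nat_lit 5) (nat_lit 1) (nat_lit 7) (nat_lit 217) (nat_lit 312) r8_217 r6_312 (nat_lit 0) (nat_lit 0) (nat_lit 0) (nat_lit 0x20936f3ea) (nat_lit 259247806),
  Rx.mk (nat_lit 111) (nat_lit 7) (nat_lit 5) (nat_lit 1) (nat_lit 7) (nat_lit 215) (nat_lit 313) r8_215 r6_313 (nat_lit 0) (nat_lit 0) (nat_lit 0) (nat_lit 0x20056d4f2) (nat_lit 268435456)]
noncomputable def e27_36 : List Rx := [
  Rx.mk (nat_lit 99) (nat_lit 3) (nat_lit 4) (nat_lit 1) (nat_lit 5) (nat_lit 227) (nat_lit 208) r8_227 r12_208 (nat_lit 0) (nat_lit 1718674) (nat_lit 0) (nat_lit 0x2019e5d76) (nat_lit 268749930),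
  Rx.mk (nat_lit 103) (nat_lit 7) (nat_lit 4) (nat_lit 1) (nat_lit 5) (nat_lit 225) (nat_lit 211) r8_225 r12_211 (nat_lit 0) (nat_lit 7891744) (nat_lit 0) (nat_lit 0x1fc6d7b0c) (nat_lit 280406750),
  Rx.mk (nat_lit 107) (nat_lit 3) (nat_lit 5) (nat_lit 1) (nat_lit 7) (nat_lit 228) (nat_lit 209) r8_228 r12_209 (nat_lit 0) (nat_lit 0) (nat_lit 0) (nat_lit 0x212881cf8) (nat_lit 249679706),
  Rx.mk (nat_lit 111) (nat_lit 7) (nat_lit 5) (nat_lit 1) (nat_lit 7) (nat_lit 226) (nat_lit 212) r8_226 r12_212 (nat_lit 0) (nat_lit 0) (nat_lit 0) (nat_lit 0x20056d4f2) (nat_lit 268435456),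
  Rx.mk (nat_lit 123) (nat_lit 3) (nat_lit 7) (nat_lit 1) (nat_lit 7) (nat_lit 229) (nat_lit 210) r8_229 r12_210 (nat_lit 0) (nat_lit 0) (nat_lit 0) (nat_lit 0x217654bc4) (nat_lit 244695456)]
noncomputable def e27_37 : List Rx := [
  Rx.mk (nat_lit 72) (nat_lit 0) (nat_lit 1) (nat_lit 1) (nat_lit 6) (nat_lit 64) (nat_lit 186) r8_64 r0_186 (nat_lit 7212426) (nat_lit 0) (nat_lit 0) (nat_lit 0x1f5198ca6) (nat_lit 287452482),
  Rx.mk (nat_lit 75) (nat_lit 3) (nat_lit 1) (nat_lit 1) (nat_lit 7) (nat_lit 65) (nat_lit 187) r8_65 r0_187 (nat_lit 0) (nat_lit 0) (nat_lit 0) (nat_lit 0x20394b670) (nat_lit 265061156),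
  Rx.mk (nat_lit 104) (nat_lit 0) (nat_lit 5) (nat_lit 1) (nat_lit 6) (nat_lit 63) (nat_lit 185) r8_63 r0_185 (nat_lit 7783153) (nat_lit 0) (nat_lit 0) (nat_lit 0x1c7520078) (nat_lit 336577359)]
noncomputable def e27_38 : List Rx := [
  Rx.mk (nat_lit 104) (nat_lit 0) (nat_lit 5) (nat_lit 1) (nat_lit 6) (nat_lit 178) (nat_lit 289) r8_178 r0_289 (nat_lit 10787644) (nat_lit 0) (nat_lit 0) (nat_lit 0x1b3ca9fb0) (nat_lit 360329100),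
  Rx.mk (nat_lit 105) (nat_lit 1) (nat_lit 5) (nat_lit 1) (nat_lit 7) (nat_lit 179) (nat_lit 290) r8_179 r0_290 (nat_lit 0) (nat_lit 0) (nat_lit 0) (nat_lit 0x1ffe905b2) (nat_lit 268882256)]
noncomputable def e27_39 : List Rx := [
  Rx.mk (nat_lit 72) (nat_lit 0) (nat_lit 1) (nat_lit 1) (nat_lit 6) (nat_lit 185) (nat_lit 242) r8_185 r7_242 (nat_lit 9484367) (nat_lit 0) (nat_lit 0) (nat_lit 0x1f8a43b50) (nat_lit 285991423),
  Rx.mk (nat_lit 73) (nat_lit 1) (nat_lit 1) (nat_lit 1) (nat_lit 7) (nat_lit 187) (nat_lit 244) r8_187 r7_244 (nat_lit 0) (nat_lit 0) (nat_lit 0) (nat_lit 0x20056d4f2) (nat_lit 268435456),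
  Rx.mk (nat_lit 75) (nat_lit 3) (nat_lit 1) (nat_lit 1) (nat_lit 7) (nat_lit 188) (nat_lit 245) r8_188 r7_245 (nat_lit 0) (nat_lit 0) (nat_lit 0) (nat_lit 0x20056d4f2) (nat_lit 268435456),
  Rx.mk (nat_lit 104) (nat_lit 0) (nat_lit 5) (nat_lit 1) (nat_lit 6) (nat_lit 184) (nat_lit 241) r8_184 r7_241 (nat_lit 6164355) (nat_lit 0) (nat_lit 0) (nat_lit 0x20253bd24) (nat_lit 272515511),
  Rx.mk (nat_lit 105) (nat_lit 1) (nat_lit 5) (nat_lit 1) (nat_lit 7) (nat_lit 186) (nat_lit 243) r8_186 r7_243 (nat_lit 0) (nat_lit 0) (nat_lit 0) (nat_lit 0x20056d4f2) (nat_lit 268435456)]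
noncomputable def e27_40 : List Rx := [
  Rx.mk (nat_lit 105) (nat_lit 1) (nat_lit 5) (nat_lit 1) (nat_lit 7) (nat_lit 322) (nat_lit 312) r8_322 r2_312 (nat_lit 0) (nat_lit 0) (nat_lit 0) (nat_lit 0x20056d4f2) (nat_lit 268435456),
  Rx.mk (nat_lit 109) (nat_lit 5) (nat_lit 5) (nat_lit 1) (nat_lit 7) (nat_lit 321) (nat_lit 313) r8_321 r2_313 (nat_lit 0) (nat_lit 0) (nat_lit 0) (nat_lit 0x20056d4f2) (nat_lit 268435456),
  Rx.mk (nat_lit 365) (nat_lit 5) (nat_lit 5) (nat_lit 5) (nat_lit 7) (nat_lit 320) (nat_lit 314) r8_320 r2_314 (nat_lit 0) (nat_lit 0) (nat_lit 0) (nat_lit 0x20056d4f2) (nat_lit 268435456)]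
noncomputable def e27_41 : List Rx := [
  Rx.mk (nat_lit 73) (nat_lit 1) (nat_lit 1) (nat_lit 1) (nat_lit 7) (nat_lit 330) (nat_lit 294) r8_330 r9_294 (nat_lit 0) (nat_lit 0) (nat_lit 0) (nat_lit 0x20056d4f2) (nat_lit 268435456),
  Rx.mk (nat_lit 105) (nat_lit 1) (nat_lit 5) (nat_lit 1) (nat_lit 7) (nat_lit 329) (nat_lit 295) r8_329 r9_295 (nat_lit 0) (nat_lit 0) (nat_lit 0) (nat_lit 0x20056d4f2) (nat_lit 268435456),
  Rx.mk (nat_lit 109) (nat_lit 5) (nat_lit 5) (nat_lit 1) (nat_lit 7) (nat_lit 328) (nat_lit 296) r8_328 r9_296 (nat_lit 0) (nat_lit 0) (nat_lit 0) (nat_lit 0x20056d4f2) (nat_lit 268435456),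
  Rx.mk (nat_lit 365) (nat_lit 5) (nat_lit 5) (nat_lit 5) (nat_lit 7) (nat_lit 327) (nat_lit 297) r8_327 r9_297 (nat_lit 0) (nat_lit 0) (nat_lit 0) (nat_lit 0x20056d4f2) (nat_lit 268435456)]
noncomputable def e27_42 : List Rx := [
  Rx.mk (nat_lit 365) (nat_lit 5) (nat_lit 5) (nat_lit 5) (nat_lit 7) (nat_lit 326) (nat_lit 289) r8_326 r9_289 (nat_lit 0) (nat_lit 0) (nat_lit 0) (nat_lit 0x20056d4f2) (nat_lit 268435456)]
noncomputable def e27_43 : List Rx := [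
  Rx.mk (nat_lit 105) (nat_lit 1) (nat_lit 5) (nat_lit 1) (nat_lit 7) (nat_lit 180) (nat_lit 286) r8_180 r1_286 (nat_lit 0) (nat_lit 0) (nat_lit 0) (nat_lit 0x20056d4f2) (nat_lit 268435456)]
noncomputable def e27_44 : List Rx := [
  Rx.mk (nat_lit 73) (nat_lit 1) (nat_lit 1) (nat_lit 1) (nat_lit 7) (nat_lit 190) (nat_lit 190) r8_190 r8_190 (nat_lit 0) (nat_lit 0) (nat_lit 0) (nat_lit 0x20056d4f2) (nat_lit 268435456),
  Rx.mk (nat_lit 105) (nat_lit 1) (nat_lit 5) (nat_lit 1) (nat_lit 7) (nat_lit 189) (nat_lit 189) r8_189 r8_189 (nat_lit 0) (nat_lit 0) (nat_lit 0) (nat_lit 0x20056d4f2) (nat_lit 268435456)]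
noncomputable def e27_45 : List Rx := [
  Rx.mk (nat_lit 72) (nat_lit 0) (nat_lit 1) (nat_lit 1) (nat_lit 6) (nat_lit 66) (nat_lit 199) r8_66 r1_199 (nat_lit 9484367) (nat_lit 0) (nat_lit 0) (nat_lit 0x1ff37e980) (nat_lit 279087523),
  Rx.mk (nat_lit 75) (nat_lit 3) (nat_lit 1) (nat_lit 1) (nat_lit 7) (nat_lit 67) (nat_lit 200) r8_67 r1_200 (nat_lit 0) (nat_lit 0) (nat_lit 0) (nat_lit 0x20056d4f2) (nat_lit 268435456)]
noncomputable def e27_46 : List Rx := [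
  Rx.mk (nat_lit 0) (nat_lit 0) (nat_lit 0) (nat_lit 0) (nat_lit 0) (nat_lit 25) (nat_lit 203) r8_25 r2_203 (nat_lit 3897400) (nat_lit 1033161) (nat_lit 841530) (nat_lit 0x10888ae30) (nat_lit 537090397),
  Rx.mk (nat_lit 3) (nat_lit 3) (nat_lit 0) (nat_lit 0) (nat_lit 1) (nat_lit 27) (nat_lit 209) r8_27 r2_209 (nat_lit 0) (nat_lit 1132696) (nat_lit 696836) (nat_lit 0x1ab396354) (nat_lit 360394488),
  Rx.mk (nat_lit 8) (nat_lit 0) (nat_lit 1) (nat_lit 0) (nat_lit 2) (nat_lit 26) (nat_lit 204) r8_26 r2_204 (nat_lit 13271194) (nat_lit 0) (nat_lit 12631128) (nat_lit 0x1876a1590) (nat_lit 422557478),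
  Rx.mk (nat_lit 11) (nat_lit 3) (nat_lit 1) (nat_lit 0) (nat_lit 3) (nat_lit 28) (nat_lit 210) r8_28 r2_210 (nat_lit 0) (nat_lit 0) (nat_lit 9484367) (nat_lit 0x20056d4f2) (nat_lit 277919823),
  Rx.mk (nat_lit 27) (nat_lit 3) (nat_lit 3) (nat_lit 0) (nat_lit 3) (nat_lit 29) (nat_lit 211) r8_29 r2_211 (nat_lit 0) (nat_lit 0) (nat_lit 9484367) (nat_lit 0x1ffae912a) (nat_lit 278604423),
  Rx.mk (nat_lit 64) (nat_lit 0) (nat_lit 0) (nat_lit 1) (nat_lit 4) (nat_lit 30) (nat_lit 205) r8_30 r2_205 (nat_lit 18538121) (nat_lit 21885715) (nat_lit 0) (nat_lit 0x1c0a09d52) (nat_lit 376333842),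
  Rx.mk (nat_lit 67) (nat_lit 3) (nat_lit 0) (nat_lit 1) (nat_lit 5) (nat_lit 32) (nat_lit 212) r8_32 r2_212 (nat_lit 0) (nat_lit 5423236) (nat_lit 0) (nat_lit 0x2065e7670) (nat_lit 267606092),
  Rx.mk (nat_lit 72) (nat_lit 0) (nat_lit 1) (nat_lit 1) (nat_lit 6) (nat_lit 31) (nat_lit 206) r8_31 r2_206 (nat_lit 9612199) (nat_lit 0) (nat_lit 0) (nat_lit 0x1ff969f20) (nat_lit 278829255),
  Rx.mk (nat_lit 75) (nat_lit 3) (nat_lit 1) (nat_lit 1) (nat_lit 7) (nat_lit 33) (nat_lit 213) r8_33 r2_213 (nat_lit 0) (nat_lit 0) (nat_lit 0) (nat_lit 0x20056d4f2) (nat_lit 268435456),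
  Rx.mk (nat_lit 91) (nat_lit 3) (nat_lit 3) (nat_lit 1) (nat_lit 7) (nat_lit 34) (nat_lit 214) r8_34 r2_214 (nat_lit 0) (nat_lit 0) (nat_lit 0) (nat_lit 0x20056d4f2) (nat_lit 268435456),
  Rx.mk (nat_lit 128) (nat_lit 0) (nat_lit 0) (nat_lit 2) (nat_lit 4) (nat_lit 35) (nat_lit 207) r8_35 r2_207 (nat_lit 3475646) (nat_lit 5207249) (nat_lit 0) (nat_lit 0x1be5c8f88) (nat_lit 346982551),
  Rx.mk (nat_lit 130) (nat_lit 2) (nat_lit 0) (nat_lit 2) (nat_lit 5) (nat_lit 37) (nat_lit 218) r8_37 r2_218 (nat_lit 0) (nat_lit 9484367) (nat_lit 0) (nat_lit 0x20056d4f2) (nat_lit 277919823),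
  Rx.mk (nat_lit 131) (nat_lit 3) (nat_lit 0) (nat_lit 2) (nat_lit 5) (nat_lit 40) (nat_lit 216) r8_40 r2_216 (nat_lit 0) (nat_lit 5423236) (nat_lit 0) (nat_lit 0x2065e7670) (nat_lit 267606092),
  Rx.mk (nat_lit 136) (nat_lit 0) (nat_lit 1) (nat_lit 2) (nat_lit 6) (nat_lit 36) (nat_lit 208) r8_36 r2_208 (nat_lit 9484367) (nat_lit 0) (nat_lit 0) (nat_lit 0x20056d4f2) (nat_lit 277919823),
  Rx.mk (nat_lit 138) (nat_lit 2) (nat_lit 1) (nat_lit 2) (nat_lit 7) (nat_lit 38) (nat_lit 219) r8_38 r2_219 (nat_lit 0) (nat_lit 0) (nat_lit 0) (nat_lit 0x20056d4f2) (nat_lit 268435456),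
  Rx.mk (nat_lit 139) (nat_lit 3) (nat_lit 1) (nat_lit 2) (nat_lit 7) (nat_lit 41) (nat_lit 217) r8_41 r2_217 (nat_lit 0) (nat_lit 0) (nat_lit 0) (nat_lit 0x20056d4f2) (nat_lit 268435456),
  Rx.mk (nat_lit 146) (nat_lit 2) (nat_lit 2) (nat_lit 2) (nat_lit 7) (nat_lit 39) (nat_lit 220) r8_39 r2_220 (nat_lit 0) (nat_lit 0) (nat_lit 0) (nat_lit 0x20056d4f2) (nat_lit 268435456),
  Rx.mk (nat_lit 219) (nat_lit 3) (nat_lit 3) (nat_lit 3) (nat_lit 7) (nat_lit 42) (nat_lit 215) r8_42 r2_215 (nat_lit 0) (nat_lit 0) (nat_lit 0) (nat_lit 0x20056d4f2) (nat_lit 268435456)]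
noncomputable def e27_47 : List Rx := [
  Rx.mk (nat_lit 72) (nat_lit 0) (nat_lit 1) (nat_lit 1) (nat_lit 6) (nat_lit 191) (nat_lit 323) r8_191 r8_323 (nat_lit 9484367) (nat_lit 0) (nat_lit 0) (nat_lit 0x1ff65bae0) (nat_lit 278900523),
  Rx.mk (nat_lit 73) (nat_lit 1) (nat_lit 1) (nat_lit 1) (nat_lit 7) (nat_lit 192) (nat_lit 324) r8_192 r8_324 (nat_lit 0) (nat_lit 0) (nat_lit 0) (nat_lit 0x20056d4f2) (nat_lit 268435456),
  Rx.mk (nat_lit 75) (nat_lit 3) (nat_lit 1) (nat_lit 1) (nat_lit 7) (nat_lit 193) (nat_lit 325) r8_193 r8_325 (nat_lit 0) (nat_lit 0) (nat_lit 0) (nat_lit 0x20056d4f2) (nat_lit 268435456)]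
noncomputable def e27_48 : List Rx := [
  Rx.mk (nat_lit 0) (nat_lit 0) (nat_lit 0) (nat_lit 0) (nat_lit 0) (nat_lit 159) (nat_lit 183) r8_159 r9_183 (nat_lit 2962037) (nat_lit 4453267) (nat_lit 2940451) (nat_lit 0x1121e1c0a) (nat_lit 531543861),
  Rx.mk (nat_lit 3) (nat_lit 3) (nat_lit 0) (nat_lit 0) (nat_lit 1) (nat_lit 162) (nat_lit 192) r8_162 r9_192 (nat_lit 0) (nat_lit 10265049) (nat_lit 9530506) (nat_lit 0x1aabfbf22) (nat_lit 378936011),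
  Rx.mk (nat_lit 8) (nat_lit 0) (nat_lit 1) (nat_lit 0) (nat_lit 2) (nat_lit 160) (nat_lit 184) r8_160 r9_184 (nat_lit 19140889) (nat_lit 0) (nat_lit 12531791) (nat_lit 0x19e7d89c4) (nat_lit 403828636),
  Rx.mk (nat_lit 9) (nat_lit 1) (nat_lit 1) (nat_lit 0) (nat_lit 3) (nat_lit 161) (nat_lit 189) r8_161 r9_189 (nat_lit 0) (nat_lit 0) (nat_lit 9484367) (nat_lit 0x20056d4f2) (nat_lit 277919823),
  Rx.mk (nat_lit 11) (nat_lit 3) (nat_lit 1) (nat_lit 0) (nat_lit 3) (nat_lit 163) (nat_lit 193) r8_163 r9_193 (nat_lit 0) (nat_lit 0) (nat_lit 9484367) (nat_lit 0x20056d4f2) (nat_lit 277919823),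
  Rx.mk (nat_lit 27) (nat_lit 3) (nat_lit 3) (nat_lit 0) (nat_lit 3) (nat_lit 164) (nat_lit 194) r8_164 r9_194 (nat_lit 0) (nat_lit 0) (nat_lit 9484367) (nat_lit 0x20056d4f2) (nat_lit 277919823),
  Rx.mk (nat_lit 64) (nat_lit 0) (nat_lit 0) (nat_lit 1) (nat_lit 4) (nat_lit 165) (nat_lit 185) r8_165 r9_185 (nat_lit 8158535) (nat_lit 19239822) (nat_lit 0) (nat_lit 0x1d532504e) (nat_lit 341477313),
  Rx.mk (nat_lit 67) (nat_lit 3) (nat_lit 0) (nat_lit 1) (nat_lit 5) (nat_lit 168) (nat_lit 195) r8_168 r9_195 (nat_lit 0) (nat_lit 9484367) (nat_lit 0) (nat_lit 0x20056d4f2) (nat_lit 277919823),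
  Rx.mk (nat_lit 72) (nat_lit 0) (nat_lit 1) (nat_lit 1) (nat_lit 6) (nat_lit 166) (nat_lit 186) r8_166 r9_186 (nat_lit 9484367) (nat_lit 0) (nat_lit 0) (nat_lit 0x20056d4f2) (nat_lit 277919823),
  Rx.mk (nat_lit 73) (nat_lit 1) (nat_lit 1) (nat_lit 1) (nat_lit 7) (nat_lit 167) (nat_lit 190) r8_167 r9_190 (nat_lit 0) (nat_lit 0) (nat_lit 0) (nat_lit 0x20056d4f2) (nat_lit 268435456),
  Rx.mk (nat_lit 75) (nat_lit 3) (nat_lit 1) (nat_lit 1) (nat_lit 7) (nat_lit 169) (nat_lit 196) r8_169 r9_196 (nat_lit 0) (nat_lit 0) (nat_lit 0) (nat_lit 0x20056d4f2) (nat_lit 268435456),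
  Rx.mk (nat_lit 91) (nat_lit 3) (nat_lit 3) (nat_lit 1) (nat_lit 7) (nat_lit 170) (nat_lit 197) r8_170 r9_197 (nat_lit 0) (nat_lit 0) (nat_lit 0) (nat_lit 0x20056d4f2) (nat_lit 268435456),
  Rx.mk (nat_lit 128) (nat_lit 0) (nat_lit 0) (nat_lit 2) (nat_lit 4) (nat_lit 171) (nat_lit 187) r8_171 r9_187 (nat_lit 9044589) (nat_lit 11392601) (nat_lit 0) (nat_lit 0x1c6f1c2d0) (nat_lit 349642896),
  Rx.mk (nat_lit 130) (nat_lit 2) (nat_lit 0) (nat_lit 2) (nat_lit 5) (nat_lit 174) (nat_lit 199) r8_174 r9_199 (nat_lit 0) (nat_lit 9484367) (nat_lit 0) (nat_lit 0x20056d4f2) (nat_lit 277919823),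
  Rx.mk (nat_lit 136) (nat_lit 0) (nat_lit 1) (nat_lit 2) (nat_lit 6) (nat_lit 172) (nat_lit 188) r8_172 r9_188 (nat_lit 9484367) (nat_lit 0) (nat_lit 0) (nat_lit 0x20056d4f2) (nat_lit 277919823),
  Rx.mk (nat_lit 137) (nat_lit 1) (nat_lit 1) (nat_lit 2) (nat_lit 7) (nat_lit 173) (nat_lit 191) r8_173 r9_191 (nat_lit 0) (nat_lit 0) (nat_lit 0) (nat_lit 0x20056d4f2) (nat_lit 268435456),
  Rx.mk (nat_lit 138) (nat_lit 2) (nat_lit 1) (nat_lit 2) (nat_lit 7) (nat_lit 175) (nat_lit 200) r8_175 r9_200 (nat_lit 0) (nat_lit 0) (nat_lit 0) (nat_lit 0x20056d4f2) (nat_lit 268435456),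
  Rx.mk (nat_lit 146) (nat_lit 2) (nat_lit 2) (nat_lit 2) (nat_lit 7) (nat_lit 176) (nat_lit 201) r8_176 r9_201 (nat_lit 0) (nat_lit 0) (nat_lit 0) (nat_lit 0x20056d4f2) (nat_lit 268435456),
  Rx.mk (nat_lit 219) (nat_lit 3) (nat_lit 3) (nat_lit 3) (nat_lit 7) (nat_lit 177) (nat_lit 198) r8_177 r9_198 (nat_lit 0) (nat_lit 0) (nat_lit 0) (nat_lit 0x20056d4f2) (nat_lit 268435456)]
noncomputable def e27_49 : List Rx := [
  Rx.mk (nat_lit 0) (nat_lit 0) (nat_lit 0) (nat_lit 0) (nat_lit 0) (nat_lit 133) (nat_lit 86) r8_133 r9_86 (nat_lit 5576143) (nat_lit 5240963) (nat_lit 2770649) (nat_lit 0xf2b552c0) (nat_lit 568130111),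
  Rx.mk (nat_lit 3) (nat_lit 3) (nat_lit 0) (nat_lit 0) (nat_lit 1) (nat_lit 135) (nat_lit 88) r8_135 r9_88 (nat_lit 0) (nat_lit 10033396) (nat_lit 8355857) (nat_lit 0x198607dee) (nat_lit 397036109),
  Rx.mk (nat_lit 8) (nat_lit 0) (nat_lit 1) (nat_lit 0) (nat_lit 2) (nat_lit 134) (nat_lit 87) r8_134 r9_87 (nat_lit 26943886) (nat_lit 0) (nat_lit 10556072) (nat_lit 0x1a1178842) (nat_lit 406893614),
  Rx.mk (nat_lit 11) (nat_lit 3) (nat_lit 1) (nat_lit 0) (nat_lit 3) (nat_lit 136) (nat_lit 89) r8_136 r9_89 (nat_lit 0) (nat_lit 0) (nat_lit 9484367) (nat_lit 0x20056d4f2) (nat_lit 277919823),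
  Rx.mk (nat_lit 27) (nat_lit 3) (nat_lit 3) (nat_lit 0) (nat_lit 3) (nat_lit 137) (nat_lit 90) r8_137 r9_90 (nat_lit 0) (nat_lit 0) (nat_lit 9484367) (nat_lit 0x20056d4f2) (nat_lit 277919823),
  Rx.mk (nat_lit 128) (nat_lit 0) (nat_lit 0) (nat_lit 2) (nat_lit 4) (nat_lit 138) (nat_lit 92) r8_138 r9_92 (nat_lit 7159752) (nat_lit 11833183) (nat_lit 0) (nat_lit 0x19341fd38) (nat_lit 403074591),
  Rx.mk (nat_lit 130) (nat_lit 2) (nat_lit 0) (nat_lit 2) (nat_lit 5) (nat_lit 140) (nat_lit 96) r8_140 r9_96 (nat_lit 0) (nat_lit 9484367) (nat_lit 0) (nat_lit 0x1ff9f49f4) (nat_lit 278666623),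
  Rx.mk (nat_lit 131) (nat_lit 3) (nat_lit 0) (nat_lit 2) (nat_lit 5) (nat_lit 143) (nat_lit 94) r8_143 r9_94 (nat_lit 0) (nat_lit 9484367) (nat_lit 0) (nat_lit 0x1ffae62a4) (nat_lit 278605023),
  Rx.mk (nat_lit 136) (nat_lit 0) (nat_lit 1) (nat_lit 2) (nat_lit 6) (nat_lit 139) (nat_lit 93) r8_139 r9_93 (nat_lit 9484367) (nat_lit 0) (nat_lit 0) (nat_lit 0x20056d4f2) (nat_lit 277919823),
  Rx.mk (nat_lit 138) (nat_lit 2) (nat_lit 1) (nat_lit 2) (nat_lit 7) (nat_lit 141) (nat_lit 97) r8_141 r9_97 (nat_lit 0) (nat_lit 0) (nat_lit 0) (nat_lit 0x20056d4f2) (nat_lit 268435456),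
  Rx.mk (nat_lit 139) (nat_lit 3) (nat_lit 1) (nat_lit 2) (nat_lit 7) (nat_lit 144) (nat_lit 95) r8_144 r9_95 (nat_lit 0) (nat_lit 0) (nat_lit 0) (nat_lit 0x20056d4f2) (nat_lit 268435456),
  Rx.mk (nat_lit 146) (nat_lit 2) (nat_lit 2) (nat_lit 2) (nat_lit 7) (nat_lit 142) (nat_lit 98) r8_142 r9_98 (nat_lit 0) (nat_lit 0) (nat_lit 0) (nat_lit 0x20056d4f2) (nat_lit 268435456),
  Rx.mk (nat_lit 219) (nat_lit 3) (nat_lit 3) (nat_lit 3) (nat_lit 7) (nat_lit 145) (nat_lit 91) r8_145 r9_91 (nat_lit 0) (nat_lit 0) (nat_lit 0) (nat_lit 0x20056d4f2) (nat_lit 268435456)]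
noncomputable def e27_50 : List Rx := [
  Rx.mk (nat_lit 104) (nat_lit 0) (nat_lit 5) (nat_lit 1) (nat_lit 6) (nat_lit 61) (nat_lit 171) r8_61 r3_171 (nat_lit 753298) (nat_lit 0) (nat_lit 0) (nat_lit 0x1dc14c75c) (nat_lit 307411954),
  Rx.mk (nat_lit 107) (nat_lit 3) (nat_lit 5) (nat_lit 1) (nat_lit 7) (nat_lit 62) (nat_lit 172) r8_62 r3_172 (nat_lit 0) (nat_lit 0) (nat_lit 0) (nat_lit 0x22d25d3a2) (nat_lit 222389256)]
noncomputable def e27_51 : List Rx := [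
  Rx.mk (nat_lit 75) (nat_lit 3) (nat_lit 1) (nat_lit 1) (nat_lit 7) (nat_lit 70) (nat_lit 176) r8_70 r4_176 (nat_lit 0) (nat_lit 0) (nat_lit 0) (nat_lit 0x20056d4f2) (nat_lit 268435456),
  Rx.mk (nat_lit 104) (nat_lit 0) (nat_lit 5) (nat_lit 1) (nat_lit 6) (nat_lit 68) (nat_lit 174) r8_68 r4_174 (nat_lit 6572672) (nat_lit 0) (nat_lit 0) (nat_lit 0x2024e9254) (nat_lit 272956678),
  Rx.mk (nat_lit 107) (nat_lit 3) (nat_lit 5) (nat_lit 1) (nat_lit 7) (nat_lit 69) (nat_lit 175) r8_69 r4_175 (nat_lit 0) (nat_lit 0) (nat_lit 0) (nat_lit 0x205d0a160) (nat_lit 262752906)]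
noncomputable def e27_52 : List Rx := [
  Rx.mk (nat_lit 104) (nat_lit 0) (nat_lit 5) (nat_lit 1) (nat_lit 6) (nat_lit 74) (nat_lit 189) r8_74 r5_189 (nat_lit 7006890) (nat_lit 0) (nat_lit 0) (nat_lit 0x202e95d16) (nat_lit 272765646),
  Rx.mk (nat_lit 107) (nat_lit 3) (nat_lit 5) (nat_lit 1) (nat_lit 7) (nat_lit 75) (nat_lit 190) r8_75 r5_190 (nat_lit 0) (nat_lit 0) (nat_lit 0) (nat_lit 0x205c74cbe) (nat_lit 262789806)]
noncomputable def e27_53 : List Rx := [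
  Rx.mk (nat_lit 104) (nat_lit 0) (nat_lit 5) (nat_lit 1) (nat_lit 6) (nat_lit 181) (nat_lit 304) r8_181 r4_304 (nat_lit 9015295) (nat_lit 0) (nat_lit 0) (nat_lit 0x1fe14e328) (nat_lit 279801251),
  Rx.mk (nat_lit 105) (nat_lit 1) (nat_lit 5) (nat_lit 1) (nat_lit 7) (nat_lit 182) (nat_lit 305) r8_182 r4_305 (nat_lit 0) (nat_lit 0) (nat_lit 0) (nat_lit 0x20056d4f2) (nat_lit 268435456),
  Rx.mk (nat_lit 107) (nat_lit 3) (nat_lit 5) (nat_lit 1) (nat_lit 7) (nat_lit 183) (nat_lit 306) r8_183 r4_306 (nat_lit 0) (nat_lit 0) (nat_lit 0) (nat_lit 0x20056d4f2) (nat_lit 268435456)]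
noncomputable def e27_54 : List Rx := [
  Rx.mk (nat_lit 75) (nat_lit 3) (nat_lit 1) (nat_lit 1) (nat_lit 7) (nat_lit 197) (nat_lit 194) r8_197 r10_194 (nat_lit 0) (nat_lit 0) (nat_lit 0) (nat_lit 0x20056d4f2) (nat_lit 268435456),
  Rx.mk (nat_lit 104) (nat_lit 0) (nat_lit 5) (nat_lit 1) (nat_lit 6) (nat_lit 194) (nat_lit 191) r8_194 r10_191 (nat_lit 9484367) (nat_lit 0) (nat_lit 0) (nat_lit 0x20056d4f2) (nat_lit 277919823),
  Rx.mk (nat_lit 105) (nat_lit 1) (nat_lit 5) (nat_lit 1) (nat_lit 7) (nat_lit 195) (nat_lit 192) r8_195 r10_192 (nat_lit 0) (nat_lit 0) (nat_lit 0) (nat_lit 0x20056d4f2) (nat_lit 268435456),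
  Rx.mk (nat_lit 107) (nat_lit 3) (nat_lit 5) (nat_lit 1) (nat_lit 7) (nat_lit 196) (nat_lit 193) r8_196 r10_193 (nat_lit 0) (nat_lit 0) (nat_lit 0) (nat_lit 0x20056d4f2) (nat_lit 268435456)]
noncomputable def e27_55 : List Rx := [
  Rx.mk (nat_lit 104) (nat_lit 0) (nat_lit 5) (nat_lit 1) (nat_lit 6) (nat_lit 198) (nat_lit 219) r8_198 r11_219 (nat_lit 9484367) (nat_lit 0) (nat_lit 0) (nat_lit 0x20056d4f2) (nat_lit 277919823),
  Rx.mk (nat_lit 105) (nat_lit 1) (nat_lit 5) (nat_lit 1) (nat_lit 7) (nat_lit 199) (nat_lit 220) r8_199 r11_220 (nat_lit 0) (nat_lit 0) (nat_lit 0) (nat_lit 0x20056d4f2) (nat_lit 268435456),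
  Rx.mk (nat_lit 107) (nat_lit 3) (nat_lit 5) (nat_lit 1) (nat_lit 7) (nat_lit 200) (nat_lit 221) r8_200 r11_221 (nat_lit 0) (nat_lit 0) (nat_lit 0) (nat_lit 0x20056d4f2) (nat_lit 268435456)]
noncomputable def e27_56 : List Rx := [
  Rx.mk (nat_lit 107) (nat_lit 3) (nat_lit 5) (nat_lit 1) (nat_lit 7) (nat_lit 218) (nat_lit 285) r8_218 r5_285 (nat_lit 0) (nat_lit 0) (nat_lit 0) (nat_lit 0x20b6fc0ce) (nat_lit 256962806)]
noncomputable def e27_57 : List Rx := [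
  Rx.mk (nat_lit 75) (nat_lit 3) (nat_lit 1) (nat_lit 1) (nat_lit 7) (nat_lit 220) (nat_lit 343) r8_220 r11_343 (nat_lit 0) (nat_lit 0) (nat_lit 0) (nat_lit 0x20056d4f2) (nat_lit 268435456),
  Rx.mk (nat_lit 107) (nat_lit 3) (nat_lit 5) (nat_lit 1) (nat_lit 7) (nat_lit 219) (nat_lit 344) r8_219 r11_344 (nat_lit 0) (nat_lit 0) (nat_lit 0) (nat_lit 0x2041d1240) (nat_lit 264513806)]
noncomputable def e27 : List (List Rx) := [e27_0, e27_1, e27_2, e27_3, e27_4, e27_5, e27_6, e27_7, e27_8, e27_9, e27_10, e27_11, e27_12, e27_13, e27_14, e27_15, e27_16, e27_17, e27_18, e27_19, e27_20, e27_21, e27_22, e27_23, e27_24, e27_25, e27_26, e27_27, e27_28, e27_29, e27_30, e27_31, e27_32, e27_33, e27_34, e27_35, e27_36, e27_37, e27_38, e27_39, e27_40, e27_41, e27_42, e27_43, e27_44, e27_45, e27_46, e27_47, e27_48, e27_49, e27_50, e27_51, e27_52, e27_53, e27_54, e27_55, e27_56,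 e27_57]
noncomputable def e28_0 : List Rx := [
  Rx.mk (nat_lit 100) (nat_lit 4) (nat_lit 4) (nat_lit 1) (nat_lit 4) (nat_lit 44) (nat_lit 195) r10_44 r0_195 (nat_lit 895600) (nat_lit 241321) (nat_lit 0) (nat_lit 0x16b880cd8) (nat_lit 427279577),
  Rx.mk (nat_lit 108) (nat_lit 4) (nat_lit 5) (nat_lit 1) (nat_lit 6) (nat_lit 45) (nat_lit 196) r10_45 r0_196 (nat_lit 3476048) (nat_lit 0) (nat_lit 0) (nat_lit 0x1aa52c732) (nat_lit 363037754),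
  Rx.mk (nat_lit 116) (nat_lit 4) (nat_lit 6) (nat_lit 1) (nat_lit 6) (nat_lit 46) (nat_lit 197) r10_46 r0_197 (nat_lit 83120058) (nat_lit 0) (nat_lit 0) (nat_lit 0x201ce892e) (nat_lit 349914064),
  Rx.mk (nat_lit 372) (nat_lit 4) (nat_lit 6) (nat_lit 5) (nat_lit 6) (nat_lit 47) (nat_lit 198) r10_47 r0_198 (nat_lit 55056773) (nat_lit 0) (nat_lit 0) (nat_lit 0x212627822) (nat_lit 304746579),
  Rx.mk (nat_lit 375) (nat_lit 7) (nat_lit 6) (nat_lit 5) (nat_lit 7) (nat_lit 48) (nat_lit 199) r10_48 r0_199 (nat_lit 0) (nat_lit 0) (nat_lit 0) (nat_lit 0x20d426d7a) (nat_lit 255090656)]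
noncomputable def e28_1 : List Rx := [
  Rx.mk (nat_lit 372) (nat_lit 4) (nat_lit 6) (nat_lit 5) (nat_lit 6) (nat_lit 49) (nat_lit 217) r10_49 r1_217 (nat_lit 58027450) (nat_lit 0) (nat_lit 0) (nat_lit 0x21a734438) (nat_lit 299572206),
  Rx.mk (nat_lit 374) (nat_lit 6) (nat_lit 6) (nat_lit 5) (nat_lit 7) (nat_lit 50) (nat_lit 219) r10_50 r1_219 (nat_lit 0) (nat_lit 0) (nat_lit 0) (nat_lit 0x20a75a3fa) (nat_lit 257956456),
  Rx.mk (nat_lit 375) (nat_lit 7) (nat_lit 6) (nat_lit 5) (nat_lit 7) (nat_lit 51) (nat_lit 218) r10_51 r1_218 (nat_lit 0) (nat_lit 0) (nat_lit 0) (nat_lit 0x202e90604) (nat_lit 265759956)]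
noncomputable def e28_2 : List Rx := [
  Rx.mk (nat_lit 308) (nat_lit 4) (nat_lit 6) (nat_lit 4) (nat_lit 2) (nat_lit 10) (nat_lit 230) r10_10 r2_230 (nat_lit 2754889) (nat_lit 0) (nat_lit 2365106) (nat_lit 0x1b79e19f0) (nat_lit 350541501),
  Rx.mk (nat_lit 310) (nat_lit 6) (nat_lit 6) (nat_lit 4) (nat_lit 3) (nat_lit 12) (nat_lit 235) r10_12 r2_235 (nat_lit 0) (nat_lit 0) (nat_lit 9484367) (nat_lit 0x1ff9e8172) (nat_lit 278669773),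
  Rx.mk (nat_lit 311) (nat_lit 7) (nat_lit 6) (nat_lit 4) (nat_lit 3) (nat_lit 14) (nat_lit 232) r10_14 r2_232 (nat_lit 0) (nat_lit 0) (nat_lit 5285914) (nat_lit 0x2073a5046) (nat_lit 266585770),
  Rx.mk (nat_lit 372) (nat_lit 4) (nat_lit 6) (nat_lit 5) (nat_lit 6) (nat_lit 11) (nat_lit 231) r10_11 r2_231 (nat_lit 9805262) (nat_lit 0) (nat_lit 0) (nat_lit 0x1febed6b2) (nat_lit 279901468),
  Rx.mk (nat_lit 374) (nat_lit 6) (nat_lit 6) (nat_lit 5) (nat_lit 7) (nat_lit 13) (nat_lit 236) r10_13 r2_236 (nat_lit 0) (nat_lit 0) (nat_lit 0) (nat_lit 0x20056d4f2) (nat_lit 268435456),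
  Rx.mk (nat_lit 375) (nat_lit 7) (nat_lit 6) (nat_lit 5) (nat_lit 7) (nat_lit 15) (nat_lit 233) r10_15 r2_233 (nat_lit 0) (nat_lit 0) (nat_lit 0) (nat_lit 0x20056d4f2) (nat_lit 268435456),
  Rx.mk (nat_lit 503) (nat_lit 7) (nat_lit 6) (nat_lit 7) (nat_lit 7) (nat_lit 16) (nat_lit 234) r10_16 r2_234 (nat_lit 0) (nat_lit 0) (nat_lit 0) (nat_lit 0x20056d4f2) (nat_lit 268435456)]
noncomputable def e28_3 : List Rx := [
  Rx.mk (nat_lit 100) (nat_lit 4) (nat_lit 4) (nat_lit 1) (nat_lit 4) (nat_lit 38) (nat_lit 180) r10_38 r3_180 (nat_lit 22038) (nat_lit 28184) (nat_lit 0) (nat_lit 0x19f3c35a4) (nat_lit 371241528),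
  Rx.mk (nat_lit 103) (nat_lit 7) (nat_lit 4) (nat_lit 1) (nat_lit 5) (nat_lit 39) (nat_lit 183) r10_39 r3_183 (nat_lit 0) (nat_lit 117878) (nat_lit 0) (nat_lit 0x21410723c) (nat_lit 248064234),
  Rx.mk (nat_lit 108) (nat_lit 4) (nat_lit 5) (nat_lit 1) (nat_lit 6) (nat_lit 40) (nat_lit 181) r10_40 r3_181 (nat_lit 9858675) (nat_lit 0) (nat_lit 0) (nat_lit 0x1ee4c0a34) (nat_lit 297282781),
  Rx.mk (nat_lit 111) (nat_lit 7) (nat_lit 5) (nat_lit 1) (nat_lit 7) (nat_lit 41) (nat_lit 184) r10_41 r3_184 (nat_lit 0) (nat_lit 0) (nat_lit 0) (nat_lit 0x241a52c38) (nat_lit 201440206),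
  Rx.mk (nat_lit 116) (nat_lit 4) (nat_lit 6) (nat_lit 1) (nat_lit 6) (nat_lit 42) (nat_lit 182) r10_42 r3_182 (nat_lit 10913577) (nat_lit 0) (nat_lit 0) (nat_lit 0x1f00f05c4) (nat_lit 296487483),
  Rx.mk (nat_lit 119) (nat_lit 7) (nat_lit 6) (nat_lit 1) (nat_lit 7) (nat_lit 43) (nat_lit 185) r10_43 r3_185 (nat_lit 0) (nat_lit 0) (nat_lit 0) (nat_lit 0x24372f78e) (nat_lit 199595806)]
noncomputable def e28_4 : List Rx := [
  Rx.mk (nat_lit 100) (nat_lit 4) (nat_lit 4) (nat_lit 1) (nat_lit 4) (nat_lit 52) (nat_lit 181) r10_52 r4_181 (nat_lit 8432825) (nat_lit 2605608) (nat_lit 0) (nat_lit 0x17532ea0a) (nat_lit 427006439),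
  Rx.mk (nat_lit 103) (nat_lit 7) (nat_lit 4) (nat_lit 1) (nat_lit 5) (nat_lit 53) (nat_lit 184) r10_53 r4_184 (nat_lit 0) (nat_lit 2776969) (nat_lit 0) (nat_lit 0x1ed7bc590) (nat_lit 291044925),
  Rx.mk (nat_lit 108) (nat_lit 4) (nat_lit 5) (nat_lit 1) (nat_lit 6) (nat_lit 54) (nat_lit 182) r10_54 r4_182 (nat_lit 7691568) (nat_lit 0) (nat_lit 0) (nat_lit 0x205c40dba) (nat_lit 270495974),
  Rx.mk (nat_lit 111) (nat_lit 7) (nat_lit 5) (nat_lit 1) (nat_lit 7) (nat_lit 55) (nat_lit 185) r10_55 r4_185 (nat_lit 0) (nat_lit 0) (nat_lit 0) (nat_lit 0x2104890bc) (nat_lit 251988106),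
  Rx.mk (nat_lit 116) (nat_lit 4) (nat_lit 6) (nat_lit 1) (nat_lit 6) (nat_lit 56) (nat_lit 183) r10_56 r4_183 (nat_lit 7650699) (nat_lit 0) (nat_lit 0) (nat_lit 0x1fef4329e) (nat_lit 277519855),
  Rx.mk (nat_lit 119) (nat_lit 7) (nat_lit 6) (nat_lit 1) (nat_lit 7) (nat_lit 57) (nat_lit 186) r10_57 r4_186 (nat_lit 0) (nat_lit 0) (nat_lit 0) (nat_lit 0x2104890bc) (nat_lit 251988106),
  Rx.mk (nat_lit 375) (nat_lit 7) (nat_lit 6) (nat_lit 5) (nat_lit 7) (nat_lit 58) (nat_lit 187) r10_58 r4_187 (nat_lit 0) (nat_lit 0) (nat_lit 0) (nat_lit 0x20542d5ec) (nat_lit 263324306)]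
noncomputable def e28_5 : List Rx := [
  Rx.mk (nat_lit 100) (nat_lit 4) (nat_lit 4) (nat_lit 1) (nat_lit 4) (nat_lit 72) (nat_lit 197) r10_72 r5_197 (nat_lit 7751834) (nat_lit 2115614) (nat_lit 0) (nat_lit 0x1caf6c47a) (nat_lit 334773104),
  Rx.mk (nat_lit 103) (nat_lit 7) (nat_lit 4) (nat_lit 1) (nat_lit 5) (nat_lit 73) (nat_lit 199) r10_73 r5_199 (nat_lit 0) (nat_lit 2593846) (nat_lit 0) (nat_lit 0x20984c2c8) (nat_lit 261503202),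
  Rx.mk (nat_lit 116) (nat_lit 4) (nat_lit 6) (nat_lit 1) (nat_lit 6) (nat_lit 74) (nat_lit 198) r10_74 r5_198 (nat_lit 9484367) (nat_lit 0) (nat_lit 0) (nat_lit 0x20056d4f2) (nat_lit 277919823),
  Rx.mk (nat_lit 119) (nat_lit 7) (nat_lit 6) (nat_lit 1) (nat_lit 7) (nat_lit 75) (nat_lit 201) r10_75 r5_201 (nat_lit 0) (nat_lit 0) (nat_lit 0) (nat_lit 0x20ab8a45c) (nat_lit 257698456),
  Rx.mk (nat_lit 127) (nat_lit 7) (nat_lit 7) (nat_lit 1) (nat_lit 7) (nat_lit 76) (nat_lit 200) r10_76 r5_200 (nat_lit 0) (nat_lit 0) (nat_lit 0) (nat_lit 0x20056d4f2) (nat_lit 268435456)]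
noncomputable def e28_6 : List Rx := [
  Rx.mk (nat_lit 59) (nat_lit 3) (nat_lit 7) (nat_lit 0) (nat_lit 3) (nat_lit 19) (nat_lit 135) r10_19 r3_135 (nat_lit 0) (nat_lit 0) (nat_lit 70860) (nat_lit 0x21d0e264a) (nat_lit 238809516),
  Rx.mk (nat_lit 187) (nat_lit 3) (nat_lit 7) (nat_lit 2) (nat_lit 7) (nat_lit 20) (nat_lit 137) r10_20 r3_137 (nat_lit 0) (nat_lit 0) (nat_lit 0) (nat_lit 0x254a47384) (nat_lit 182008906),
  Rx.mk (nat_lit 231) (nat_lit 7) (nat_lit 4) (nat_lit 3) (nat_lit 5) (nat_lit 17) (nat_lit 133) r10_17 r3_133 (nat_lit 0) (nat_lit 70860) (nat_lit 0) (nat_lit 0x21d0e264a) (nat_lit 238809516),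
  Rx.mk (nat_lit 247) (nat_lit 7) (nat_lit 6) (nat_lit 3) (nat_lit 7) (nat_lit 18) (nat_lit 138) r10_18 r3_138 (nat_lit 0) (nat_lit 0) (nat_lit 0) (nat_lit 0x254a47384) (nat_lit 182008906),
  Rx.mk (nat_lit 251) (nat_lit 3) (nat_lit 7) (nat_lit 3) (nat_lit 7) (nat_lit 21) (nat_lit 136) r10_21 r3_136 (nat_lit 0) (nat_lit 0) (nat_lit 0) (nat_lit 0x1ff97e1a0) (nat_lit 269209706),
  Rx.mk (nat_lit 255) (nat_lit 7) (nat_lit 7) (nat_lit 3) (nat_lit 7) (nat_lit 22) (nat_lit 134) r10_22 r3_134 (nat_lit 0) (nat_lit 0) (nat_lit 0) (nat_lit 0x1ff97e1a0) (nat_lit 269209706)]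
noncomputable def e28_7 : List Rx := [
  Rx.mk (nat_lit 308) (nat_lit 4) (nat_lit 6) (nat_lit 4) (nat_lit 2) (nat_lit 0) (nat_lit 147) r10_0 r0_147 (nat_lit 514146) (nat_lit 0) (nat_lit 142696) (nat_lit 0x196892534) (nat_lit 381116348),
  Rx.mk (nat_lit 310) (nat_lit 6) (nat_lit 6) (nat_lit 4) (nat_lit 3) (nat_lit 2) (nat_lit 150) r10_2 r0_150 (nat_lit 0) (nat_lit 0) (nat_lit 5323449) (nat_lit 0x1d8aa981c) (nat_lit 315709355),
  Rx.mk (nat_lit 500) (nat_lit 4) (nat_lit 6) (nat_lit 7) (nat_lit 6) (nat_lit 1) (nat_lit 148) r10_1 r0_148 (nat_lit 18568344) (nat_lit 0) (nat_lit 0) (nat_lit 0x1f4c0ad0c) (nat_lit 299169900),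
  Rx.mk (nat_lit 502) (nat_lit 6) (nat_lit 6) (nat_lit 7) (nat_lit 7) (nat_lit 3) (nat_lit 151) r10_3 r0_151 (nat_lit 0) (nat_lit 0) (nat_lit 0) (nat_lit 0x20056d4f2) (nat_lit 268435456),
  Rx.mk (nat_lit 503) (nat_lit 7) (nat_lit 6) (nat_lit 7) (nat_lit 7) (nat_lit 4) (nat_lit 149) r10_4 r0_149 (nat_lit 0) (nat_lit 0) (nat_lit 0) (nat_lit 0x1ff3454e6) (nat_lit 269612556)]
noncomputable def e28_8 : List Rx := [
  Rx.mk (nat_lit 308) (nat_lit 4) (nat_lit 6) (nat_lit 4) (nat_lit 2) (nat_lit 5) (nat_lit 161) r10_5 r1_161 (nat_lit 835607) (nat_lit 0) (nat_lit 419416) (nat_lit 0x195be8716) (nat_lit 382608229),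
  Rx.mk (nat_lit 310) (nat_lit 6) (nat_lit 6) (nat_lit 4) (nat_lit 3) (nat_lit 7) (nat_lit 164) r10_7 r1_164 (nat_lit 0) (nat_lit 0) (nat_lit 8157982) (nat_lit 0x1c3c07fca) (nat_lit 340752588),
  Rx.mk (nat_lit 500) (nat_lit 4) (nat_lit 6) (nat_lit 7) (nat_lit 6) (nat_lit 6) (nat_lit 162) r10_6 r1_162 (nat_lit 9868051) (nat_lit 0) (nat_lit 0) (nat_lit 0x1fe805770) (nat_lit 280217007),
  Rx.mk (nat_lit 502) (nat_lit 6) (nat_lit 6) (nat_lit 7) (nat_lit 7) (nat_lit 8) (nat_lit 165) r10_8 r1_165 (nat_lit 0) (nat_lit 0) (nat_lit 0) (nat_lit 0x20056d4f2) (nat_lit 268435456),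
  Rx.mk (nat_lit 503) (nat_lit 7) (nat_lit 6) (nat_lit 7) (nat_lit 7) (nat_lit 9) (nat_lit 163) r10_9 r1_163 (nat_lit 0) (nat_lit 0) (nat_lit 0) (nat_lit 0x20361e1be) (nat_lit 265270956)]
noncomputable def e28_9 : List Rx := [
  Rx.mk (nat_lit 59) (nat_lit 3) (nat_lit 7) (nat_lit 0) (nat_lit 3) (nat_lit 28) (nat_lit 136) r10_28 r4_136 (nat_lit 0) (nat_lit 0) (nat_lit 4132596) (nat_lit 0x208057c3a) (nat_lit 264608002),
  Rx.mk (nat_lit 187) (nat_lit 3) (nat_lit 7) (nat_lit 2) (nat_lit 7) (nat_lit 29) (nat_lit 138) r10_29 r4_138 (nat_lit 0) (nat_lit 0) (nat_lit 0) (nat_lit 0x2035240c4) (nat_lit 265333156),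
  Rx.mk (nat_lit 231) (nat_lit 7) (nat_lit 4) (nat_lit 3) (nat_lit 5) (nat_lit 23) (nat_lit 134) r10_23 r4_134 (nat_lit 0) (nat_lit 5631477) (nat_lit 0) (nat_lit 0x20462ac74) (nat_lit 269859283),
  Rx.mk (nat_lit 247) (nat_lit 7) (nat_lit 6) (nat_lit 3) (nat_lit 7) (nat_lit 26) (nat_lit 141) r10_26 r4_141 (nat_lit 0) (nat_lit 0) (nat_lit 0) (nat_lit 0x203c0a05a) (nat_lit 264886856),
  Rx.mk (nat_lit 251) (nat_lit 3) (nat_lit 7) (nat_lit 3) (nat_lit 7) (nat_lit 30) (nat_lit 137) r10_30 r4_137 (nat_lit 0) (nat_lit 0) (nat_lit 0) (nat_lit 0x20056d4f2) (nat_lit 268435456),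
  Rx.mk (nat_lit 255) (nat_lit 7) (nat_lit 7) (nat_lit 3) (nat_lit 7) (nat_lit 31) (nat_lit 135) r10_31 r4_135 (nat_lit 0) (nat_lit 0) (nat_lit 0) (nat_lit 0x20056d4f2) (nat_lit 268435456),
  Rx.mk (nat_lit 500) (nat_lit 4) (nat_lit 6) (nat_lit 7) (nat_lit 6) (nat_lit 24) (nat_lit 139) r10_24 r4_139 (nat_lit 11521502) (nat_lit 0) (nat_lit 0) (nat_lit 0x1fa406a1a) (nat_lit 286319758),
  Rx.mk (nat_lit 502) (nat_lit 6) (nat_lit 6) (nat_lit 7) (nat_lit 7) (nat_lit 25) (nat_lit 142) r10_25 r4_142 (nat_lit 0) (nat_lit 0) (nat_lit 0) (nat_lit 0x20056d4f2) (nat_lit 268435456),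
  Rx.mk (nat_lit 503) (nat_lit 7) (nat_lit 6) (nat_lit 7) (nat_lit 7) (nat_lit 27) (nat_lit 140) r10_27 r4_140 (nat_lit 0) (nat_lit 0) (nat_lit 0) (nat_lit 0x210872eee) (nat_lit 251737006)]
noncomputable def e28_10 : List Rx := [
  Rx.mk (nat_lit 39) (nat_lit 7) (nat_lit 4) (nat_lit 0) (nat_lit 1) (nat_lit 59) (nat_lit 213) r10_59 r6_213 (nat_lit 0) (nat_lit 471452) (nat_lit 543948) (nat_lit 0x1c7149774) (nat_lit 329972906),
  Rx.mk (nat_lit 47) (nat_lit 7) (nat_lit 5) (nat_lit 0) (nat_lit 3) (nat_lit 62) (nat_lit 216) r10_62 r6_216 (nat_lit 0) (nat_lit 0) (nat_lit 3377596) (nat_lit 0x20e0bc792) (nat_lit 257655702),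
  Rx.mk (nat_lit 55) (nat_lit 7) (nat_lit 6) (nat_lit 0) (nat_lit 3) (nat_lit 64) (nat_lit 220) r10_64 r6_220 (nat_lit 0) (nat_lit 0) (nat_lit 3377596) (nat_lit 0x20e0bc792) (nat_lit 257655702),
  Rx.mk (nat_lit 59) (nat_lit 3) (nat_lit 7) (nat_lit 0) (nat_lit 3) (nat_lit 67) (nat_lit 210) r10_67 r6_210 (nat_lit 0) (nat_lit 0) (nat_lit 2445729) (nat_lit 0x1fca8a75e) (nat_lit 274684635),
  Rx.mk (nat_lit 63) (nat_lit 7) (nat_lit 7) (nat_lit 0) (nat_lit 3) (nat_lit 70) (nat_lit 218) r10_70 r6_218 (nat_lit 0) (nat_lit 0) (nat_lit 7687606) (nat_lit 0x1fbd9977a) (nat_lit 280815412),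
  Rx.mk (nat_lit 103) (nat_lit 7) (nat_lit 4) (nat_lit 1) (nat_lit 5) (nat_lit 60) (nat_lit 214) r10_60 r6_214 (nat_lit 0) (nat_lit 4088468) (nat_lit 0) (nat_lit 0x20ccdca88) (nat_lit 259647924),
  Rx.mk (nat_lit 119) (nat_lit 7) (nat_lit 6) (nat_lit 1) (nat_lit 7) (nat_lit 65) (nat_lit 221) r10_65 r6_221 (nat_lit 0) (nat_lit 0) (nat_lit 0) (nat_lit 0x206360cda) (nat_lit 262345506),
  Rx.mk (nat_lit 123) (nat_lit 3) (nat_lit 7) (nat_lit 1) (nat_lit 7) (nat_lit 68) (nat_lit 211) r10_68 r6_211 (nat_lit 0) (nat_lit 0) (nat_lit 0) (nat_lit 0x21063f2bc) (nat_lit 251877456),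
  Rx.mk (nat_lit 127) (nat_lit 7) (nat_lit 7) (nat_lit 1) (nat_lit 7) (nat_lit 71) (nat_lit 219) r10_71 r6_219 (nat_lit 0) (nat_lit 0) (nat_lit 0) (nat_lit 0x20056d4f2) (nat_lit 268435456),
  Rx.mk (nat_lit 187) (nat_lit 3) (nat_lit 7) (nat_lit 2) (nat_lit 7) (nat_lit 69) (nat_lit 212) r10_69 r6_212 (nat_lit 0) (nat_lit 0) (nat_lit 0) (nat_lit 0x21063f2bc) (nat_lit 251877456),
  Rx.mk (nat_lit 231) (nat_lit 7) (nat_lit 4) (nat_lit 3) (nat_lit 5) (nat_lit 61) (nat_lit 215) r10_61 r6_215 (nat_lit 0) (nat_lit 2783281) (nat_lit 0) (nat_lit 0x2029b329e) (nat_lit 268826287),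
  Rx.mk (nat_lit 239) (nat_lit 7) (nat_lit 5) (nat_lit 3) (nat_lit 7) (nat_lit 63) (nat_lit 217) r10_63 r6_217 (nat_lit 0) (nat_lit 0) (nat_lit 0) (nat_lit 0x21936d120) (nat_lit 242832906),
  Rx.mk (nat_lit 247) (nat_lit 7) (nat_lit 6) (nat_lit 3) (nat_lit 7) (nat_lit 66) (nat_lit 222) r10_66 r6_222 (nat_lit 0) (nat_lit 0) (nat_lit 0) (nat_lit 0x21936d120) (nat_lit 242832906)]
noncomputable def e28_11 : List Rx := [
  Rx.mk (nat_lit 59) (nat_lit 3) (nat_lit 7) (nat_lit 0) (nat_lit 3) (nat_lit 34) (nat_lit 137) r10_34 r5_137 (nat_lit 0) (nat_lit 0) (nat_lit 2831630) (nat_lit 0x201b3358e) (nat_lit 269816136),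
  Rx.mk (nat_lit 63) (nat_lit 7) (nat_lit 7) (nat_lit 0) (nat_lit 3) (nat_lit 36) (nat_lit 135) r10_36 r5_135 (nat_lit 0) (nat_lit 0) (nat_lit 4853259) (nat_lit 0x1ce07f8e6) (nat_lit 326522065),
  Rx.mk (nat_lit 187) (nat_lit 3) (nat_lit 7) (nat_lit 2) (nat_lit 7) (nat_lit 35) (nat_lit 138) r10_35 r5_138 (nat_lit 0) (nat_lit 0) (nat_lit 0) (nat_lit 0x2150d6668) (nat_lit 247097356),
  Rx.mk (nat_lit 231) (nat_lit 7) (nat_lit 4) (nat_lit 3) (nat_lit 5) (nat_lit 32) (nat_lit 134) r10_32 r5_134 (nat_lit 0) (nat_lit 2021679) (nat_lit 0) (nat_lit 0x20d6f76b2) (nat_lit 256908235),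
  Rx.mk (nat_lit 247) (nat_lit 7) (nat_lit 6) (nat_lit 3) (nat_lit 7) (nat_lit 33) (nat_lit 139) r10_33 r5_139 (nat_lit 0) (nat_lit 0) (nat_lit 0) (nat_lit 0x208d85736) (nat_lit 259627956),
  Rx.mk (nat_lit 255) (nat_lit 7) (nat_lit 7) (nat_lit 3) (nat_lit 7) (nat_lit 37) (nat_lit 136) r10_37 r5_136 (nat_lit 0) (nat_lit 0) (nat_lit 0) (nat_lit 0x1fddac6f2) (nat_lit 271029056)]
noncomputable def e28_12 : List Rx := [
  Rx.mk (nat_lit 100) (nat_lit 4) (nat_lit 4) (nat_lit 1) (nat_lit 4) (nat_lit 166) (nat_lit 322) r10_166 r0_322 (nat_lit 3170624) (nat_lit 6194834) (nat_lit 0) (nat_lit 0x1b029a6a8) (nat_lit 362703714),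
  Rx.mk (nat_lit 101) (nat_lit 5) (nat_lit 4) (nat_lit 1) (nat_lit 5) (nat_lit 167) (nat_lit 323) r10_167 r0_323 (nat_lit 0) (nat_lit 9422464) (nat_lit 0) (nat_lit 0x1fade9d48) (nat_lit 283582920),
  Rx.mk (nat_lit 108) (nat_lit 4) (nat_lit 5) (nat_lit 1) (nat_lit 6) (nat_lit 168) (nat_lit 324) r10_168 r0_324 (nat_lit 11321562) (nat_lit 0) (nat_lit 0) (nat_lit 0x1f9064e3a) (nat_lit 287426518),
  Rx.mk (nat_lit 109) (nat_lit 5) (nat_lit 5) (nat_lit 1) (nat_lit 7) (nat_lit 169) (nat_lit 325) r10_169 r0_325 (nat_lit 0) (nat_lit 0) (nat_lit 0) (nat_lit 0x202f5d6cc) (nat_lit 265708056),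
  Rx.mk (nat_lit 116) (nat_lit 4) (nat_lit 6) (nat_lit 1) (nat_lit 6) (nat_lit 170) (nat_lit 326) r10_170 r0_326 (nat_lit 10331000) (nat_lit 0) (nat_lit 0) (nat_lit 0x1f9843af2) (nat_lit 285917906),
  Rx.mk (nat_lit 117) (nat_lit 5) (nat_lit 6) (nat_lit 1) (nat_lit 7) (nat_lit 171) (nat_lit 327) r10_171 r0_327 (nat_lit 0) (nat_lit 0) (nat_lit 0) (nat_lit 0x20056d4f2) (nat_lit 268435456)]
noncomputable def e28_13 : List Rx := [
  Rx.mk (nat_lit 100) (nat_lit 4) (nat_lit 4) (nat_lit 1) (nat_lit 4) (nat_lit 183) (nat_lit 255) r10_183 r7_255 (nat_lit 3623461) (nat_lit 2412682) (nat_lit 0) (nat_lit 0x1b6a7120e) (nat_lit 352500749),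
  Rx.mk (nat_lit 101) (nat_lit 5) (nat_lit 4) (nat_lit 1) (nat_lit 5) (nat_lit 184) (nat_lit 259) r10_184 r7_259 (nat_lit 0) (nat_lit 5997010) (nat_lit 0) (nat_lit 0x1fd77613e) (nat_lit 277419766),
  Rx.mk (nat_lit 108) (nat_lit 4) (nat_lit 5) (nat_lit 1) (nat_lit 6) (nat_lit 185) (nat_lit 256) r10_185 r7_256 (nat_lit 6317275) (nat_lit 0) (nat_lit 0) (nat_lit 0x201d9ccf8) (nat_lit 273168531),
  Rx.mk (nat_lit 109) (nat_lit 5) (nat_lit 5) (nat_lit 1) (nat_lit 7) (nat_lit 186) (nat_lit 260) r10_186 r7_260 (nat_lit 0) (nat_lit 0) (nat_lit 0) (nat_lit 0x20056d4f2) (nat_lit 268435456),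
  Rx.mk (nat_lit 116) (nat_lit 4) (nat_lit 6) (nat_lit 1) (nat_lit 6) (nat_lit 187) (nat_lit 257) r10_187 r7_257 (nat_lit 6317275) (nat_lit 0) (nat_lit 0) (nat_lit 0x201d9ccf8) (nat_lit 273168531),
  Rx.mk (nat_lit 117) (nat_lit 5) (nat_lit 6) (nat_lit 1) (nat_lit 7) (nat_lit 189) (nat_lit 261) r10_189 r7_261 (nat_lit 0) (nat_lit 0) (nat_lit 0) (nat_lit 0x20056d4f2) (nat_lit 268435456),
  Rx.mk (nat_lit 372) (nat_lit 4) (nat_lit 6) (nat_lit 5) (nat_lit 6) (nat_lit 188) (nat_lit 258) r10_188 r7_258 (nat_lit 10225910) (nat_lit 0) (nat_lit 0) (nat_lit 0x1ff76c8d0) (nat_lit 279572466),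
  Rx.mk (nat_lit 373) (nat_lit 5) (nat_lit 6) (nat_lit 5) (nat_lit 7) (nat_lit 190) (nat_lit 262) r10_190 r7_262 (nat_lit 0) (nat_lit 0) (nat_lit 0) (nat_lit 0x20056d4f2) (nat_lit 268435456)]
noncomputable def e28_14 : List Rx := [
  Rx.mk (nat_lit 101) (nat_lit 5) (nat_lit 4) (nat_lit 1) (nat_lit 5) (nat_lit 172) (nat_lit 307) r10_172 r1_307 (nat_lit 0) (nat_lit 8852219) (nat_lit 0) (nat_lit 0x1ee1179aa) (nat_lit 296542475),
  Rx.mk (nat_lit 109) (nat_lit 5) (nat_lit 5) (nat_lit 1) (nat_lit 7) (nat_lit 173) (nat_lit 308) r10_173 r1_308 (nat_lit 0) (nat_lit 0) (nat_lit 0) (nat_lit 0x20056d4f2) (nat_lit 268435456),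
  Rx.mk (nat_lit 117) (nat_lit 5) (nat_lit 6) (nat_lit 1) (nat_lit 7) (nat_lit 174) (nat_lit 309) r10_174 r1_309 (nat_lit 0) (nat_lit 0) (nat_lit 0) (nat_lit 0x20056d4f2) (nat_lit 268435456)]
noncomputable def e28_15 : List Rx := [
  Rx.mk (nat_lit 101) (nat_lit 5) (nat_lit 4) (nat_lit 1) (nat_lit 5) (nat_lit 191) (nat_lit 194) r10_191 r8_194 (nat_lit 0) (nat_lit 9484367) (nat_lit 0) (nat_lit 0x20056d4f2) (nat_lit 277919823),
  Rx.mk (nat_lit 109) (nat_lit 5) (nat_lit 5) (nat_lit 1) (nat_lit 7) (nat_lit 192) (nat_lit 195) r10_192 r8_195 (nat_lit 0) (nat_lit 0) (nat_lit 0) (nat_lit 0x20056d4f2) (nat_lit 268435456),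
  Rx.mk (nat_lit 117) (nat_lit 5) (nat_lit 6) (nat_lit 1) (nat_lit 7) (nat_lit 193) (nat_lit 196) r10_193 r8_196 (nat_lit 0) (nat_lit 0) (nat_lit 0) (nat_lit 0x20056d4f2) (nat_lit 268435456),
  Rx.mk (nat_lit 373) (nat_lit 5) (nat_lit 6) (nat_lit 5) (nat_lit 7) (nat_lit 194) (nat_lit 197) r10_194 r8_197 (nat_lit 0) (nat_lit 0) (nat_lit 0) (nat_lit 0x20056d4f2) (nat_lit 268435456)]
noncomputable def e28_16 : List Rx := [
  Rx.mk (nat_lit 372) (nat_lit 4) (nat_lit 6) (nat_lit 5) (nat_lit 6) (nat_lit 195) (nat_lit 355) r10_195 r8_355 (nat_lit 11260883) (nat_lit 0) (nat_lit 0) (nat_lit 0x1fe865990) (nat_lit 281588039),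
  Rx.mk (nat_lit 373) (nat_lit 5) (nat_lit 6) (nat_lit 5) (nat_lit 7) (nat_lit 196) (nat_lit 356) r10_196 r8_356 (nat_lit 0) (nat_lit 0) (nat_lit 0) (nat_lit 0x20056d4f2) (nat_lit 268435456),
  Rx.mk (nat_lit 374) (nat_lit 6) (nat_lit 6) (nat_lit 5) (nat_lit 7) (nat_lit 197) (nat_lit 357) r10_197 r8_357 (nat_lit 0) (nat_lit 0) (nat_lit 0) (nat_lit 0x20056d4f2) (nat_lit 268435456)]
noncomputable def e28_17 : List Rx := [
  Rx.mk (nat_lit 308) (nat_lit 4) (nat_lit 6) (nat_lit 4) (nat_lit 2) (nat_lit 161) (nat_lit 209) r10_161 r9_209 (nat_lit 11812790) (nat_lit 0) (nat_lit 18196586) (nat_lit 0x199bf684e) (nat_lit 407198282),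
  Rx.mk (nat_lit 310) (nat_lit 6) (nat_lit 6) (nat_lit 4) (nat_lit 3) (nat_lit 164) (nat_lit 212) r10_164 r9_212 (nat_lit 0) (nat_lit 0) (nat_lit 9484367) (nat_lit 0x20056d4f2) (nat_lit 277919823),
  Rx.mk (nat_lit 372) (nat_lit 4) (nat_lit 6) (nat_lit 5) (nat_lit 6) (nat_lit 162) (nat_lit 210) r10_162 r9_210 (nat_lit 9793623) (nat_lit 0) (nat_lit 0) (nat_lit 0x1fffcca48) (nat_lit 278595379),
  Rx.mk (nat_lit 373) (nat_lit 5) (nat_lit 6) (nat_lit 5) (nat_lit 7) (nat_lit 163) (nat_lit 211) r10_163 r9_211 (nat_lit 0) (nat_lit 0) (nat_lit 0) (nat_lit 0x20056d4f2) (nat_lit 268435456),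
  Rx.mk (nat_lit 374) (nat_lit 6) (nat_lit 6) (nat_lit 5) (nat_lit 7) (nat_lit 165) (nat_lit 213) r10_165 r9_213 (nat_lit 0) (nat_lit 0) (nat_lit 0) (nat_lit 0x20056d4f2) (nat_lit 268435456)]
noncomputable def e28_18 : List Rx := [
  Rx.mk (nat_lit 100) (nat_lit 4) (nat_lit 4) (nat_lit 1) (nat_lit 4) (nat_lit 175) (nat_lit 355) r10_175 r4_355 (nat_lit 9177885) (nat_lit 11803392) (nat_lit 0) (nat_lit 0x1c1522bbc) (nat_lit 356144783),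
  Rx.mk (nat_lit 101) (nat_lit 5) (nat_lit 4) (nat_lit 1) (nat_lit 5) (nat_lit 176) (nat_lit 356) r10_176 r4_356 (nat_lit 0) (nat_lit 9484367) (nat_lit 0) (nat_lit 0x20056d4f2) (nat_lit 277919823),
  Rx.mk (nat_lit 103) (nat_lit 7) (nat_lit 4) (nat_lit 1) (nat_lit 5) (nat_lit 177) (nat_lit 357) r10_177 r4_357 (nat_lit 0) (nat_lit 7299409) (nat_lit 0) (nat_lit 0x201db5762) (nat_lit 274149815),
  Rx.mk (nat_lit 108) (nat_lit 4) (nat_lit 5) (nat_lit 1) (nat_lit 6) (nat_lit 178) (nat_lit 358) r10_178 r4_358 (nat_lit 6732829) (nat_lit 0) (nat_lit 0) (nat_lit 0x2042a019e) (nat_lit 271193535),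
  Rx.mk (nat_lit 109) (nat_lit 5) (nat_lit 5) (nat_lit 1) (nat_lit 7) (nat_lit 179) (nat_lit 359) r10_179 r4_359 (nat_lit 0) (nat_lit 0) (nat_lit 0) (nat_lit 0x20056d4f2) (nat_lit 268435456),
  Rx.mk (nat_lit 111) (nat_lit 7) (nat_lit 5) (nat_lit 1) (nat_lit 7) (nat_lit 180) (nat_lit 360) r10_180 r4_360 (nat_lit 0) (nat_lit 0) (nat_lit 0) (nat_lit 0x20056d4f2) (nat_lit 268435456),
  Rx.mk (nat_lit 116) (nat_lit 4) (nat_lit 6) (nat_lit 1) (nat_lit 6) (nat_lit 181) (nat_lit 361) r10_181 r4_361 (nat_lit 9484367) (nat_lit 0) (nat_lit 0) (nat_lit 0x2043d17e8) (nat_lit 273866873),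
  Rx.mk (nat_lit 117) (nat_lit 5) (nat_lit 6) (nat_lit 1) (nat_lit 7) (nat_lit 182) (nat_lit 362) r10_182 r4_362 (nat_lit 0) (nat_lit 0) (nat_lit 0) (nat_lit 0x20056d4f2) (nat_lit 268435456)]
noncomputable def e28_19 : List Rx := [
  Rx.mk (nat_lit 100) (nat_lit 4) (nat_lit 4) (nat_lit 1) (nat_lit 4) (nat_lit 198) (nat_lit 198) r10_198 r10_198 (nat_lit 1983755) (nat_lit 1983755) (nat_lit 0) (nat_lit 0x1b2e4b202) (nat_lit 354440066),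
  Rx.mk (nat_lit 101) (nat_lit 5) (nat_lit 4) (nat_lit 1) (nat_lit 5) (nat_lit 199) (nat_lit 201) r10_199 r10_201 (nat_lit 0) (nat_lit 9484367) (nat_lit 0) (nat_lit 0x20056d4f2) (nat_lit 277919823),
  Rx.mk (nat_lit 103) (nat_lit 7) (nat_lit 4) (nat_lit 1) (nat_lit 5) (nat_lit 200) (nat_lit 204) r10_200 r10_204 (nat_lit 0) (nat_lit 9484367) (nat_lit 0) (nat_lit 0x20056d4f2) (nat_lit 277919823),
  Rx.mk (nat_lit 108) (nat_lit 4) (nat_lit 5) (nat_lit 1) (nat_lit 6) (nat_lit 201) (nat_lit 199) r10_201 r10_199 (nat_lit 9484367) (nat_lit 0) (nat_lit 0) (nat_lit 0x20056d4f2) (nat_lit 277919823),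
  Rx.mk (nat_lit 109) (nat_lit 5) (nat_lit 5) (nat_lit 1) (nat_lit 7) (nat_lit 202) (nat_lit 202) r10_202 r10_202 (nat_lit 0) (nat_lit 0) (nat_lit 0) (nat_lit 0x20056d4f2) (nat_lit 268435456),
  Rx.mk (nat_lit 111) (nat_lit 7) (nat_lit 5) (nat_lit 1) (nat_lit 7) (nat_lit 203) (nat_lit 205) r10_203 r10_205 (nat_lit 0) (nat_lit 0) (nat_lit 0) (nat_lit 0x20056d4f2) (nat_lit 268435456),
  Rx.mk (nat_lit 116) (nat_lit 4) (nat_lit 6) (nat_lit 1) (nat_lit 6) (nat_lit 204) (nat_lit 200) r10_204 r10_200 (nat_lit 9484367) (nat_lit 0) (nat_lit 0) (nat_lit 0x20056d4f2) (nat_lit 277919823),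
  Rx.mk (nat_lit 117) (nat_lit 5) (nat_lit 6) (nat_lit 1) (nat_lit 7) (nat_lit 205) (nat_lit 203) r10_205 r10_203 (nat_lit 0) (nat_lit 0) (nat_lit 0) (nat_lit 0x20056d4f2) (nat_lit 268435456)]
noncomputable def e28_20 : List Rx := [
  Rx.mk (nat_lit 100) (nat_lit 4) (nat_lit 4) (nat_lit 1) (nat_lit 4) (nat_lit 206) (nat_lit 230) r10_206 r11_230 (nat_lit 22785138) (nat_lit 8625288) (nat_lit 0) (nat_lit 0x1fba8cb7c) (nat_lit 304735382),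
  Rx.mk (nat_lit 101) (nat_lit 5) (nat_lit 4) (nat_lit 1) (nat_lit 5) (nat_lit 207) (nat_lit 232) r10_207 r11_232 (nat_lit 0) (nat_lit 9484367) (nat_lit 0) (nat_lit 0x20056d4f2) (nat_lit 277919823),
  Rx.mk (nat_lit 103) (nat_lit 7) (nat_lit 4) (nat_lit 1) (nat_lit 5) (nat_lit 208) (nat_lit 234) r10_208 r11_234 (nat_lit 0) (nat_lit 9484367) (nat_lit 0) (nat_lit 0x20056d4f2) (nat_lit 277919823),
  Rx.mk (nat_lit 116) (nat_lit 4) (nat_lit 6) (nat_lit 1) (nat_lit 6) (nat_lit 209) (nat_lit 231) r10_209 r11_231 (nat_lit 9484367) (nat_lit 0) (nat_lit 0) (nat_lit 0x20056d4f2) (nat_lit 277919823),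
  Rx.mk (nat_lit 117) (nat_lit 5) (nat_lit 6) (nat_lit 1) (nat_lit 7) (nat_lit 210) (nat_lit 233) r10_210 r11_233 (nat_lit 0) (nat_lit 0) (nat_lit 0) (nat_lit 0x20056d4f2) (nat_lit 268435456),
  Rx.mk (nat_lit 127) (nat_lit 7) (nat_lit 7) (nat_lit 1) (nat_lit 7) (nat_lit 211) (nat_lit 235) r10_211 r11_235 (nat_lit 0) (nat_lit 0) (nat_lit 0) (nat_lit 0x20056d4f2) (nat_lit 268435456)]
noncomputable def e28_21 : List Rx := [
  Rx.mk (nat_lit 278) (nat_lit 6) (nat_lit 2) (nat_lit 4) (nat_lit 3) (nat_lit 117) (nat_lit 143) r10_117 r9_143 (nat_lit 0) (nat_lit 0) (nat_lit 9484367) (nat_lit 0x1fe0f9b52) (nat_lit 280290373),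
  Rx.mk (nat_lit 308) (nat_lit 4) (nat_lit 6) (nat_lit 4) (nat_lit 2) (nat_lit 120) (nat_lit 136) r10_120 r9_136 (nat_lit 10859836) (nat_lit 0) (nat_lit 18297468) (nat_lit 0x18a1becbe) (nat_lit 422951410),
  Rx.mk (nat_lit 310) (nat_lit 6) (nat_lit 6) (nat_lit 4) (nat_lit 3) (nat_lit 122) (nat_lit 141) r10_122 r9_141 (nat_lit 0) (nat_lit 0) (nat_lit 9484367) (nat_lit 0x1fe9978ae) (nat_lit 279734173),
  Rx.mk (nat_lit 311) (nat_lit 7) (nat_lit 6) (nat_lit 4) (nat_lit 3) (nat_lit 124) (nat_lit 138) r10_124 r9_138 (nat_lit 0) (nat_lit 0) (nat_lit 9325504) (nat_lit 0x1feec417e) (nat_lit 279237760),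
  Rx.mk (nat_lit 342) (nat_lit 6) (nat_lit 2) (nat_lit 5) (nat_lit 7) (nat_lit 118) (nat_lit 144) r10_118 r9_144 (nat_lit 0) (nat_lit 0) (nat_lit 0) (nat_lit 0x20056d4f2) (nat_lit 268435456),
  Rx.mk (nat_lit 372) (nat_lit 4) (nat_lit 6) (nat_lit 5) (nat_lit 6) (nat_lit 121) (nat_lit 137) r10_121 r9_137 (nat_lit 11205477) (nat_lit 0) (nat_lit 0) (nat_lit 0x1fe9e5b26) (nat_lit 281435233),
  Rx.mk (nat_lit 374) (nat_lit 6) (nat_lit 6) (nat_lit 5) (nat_lit 7) (nat_lit 123) (nat_lit 142) r10_123 r9_142 (nat_lit 0) (nat_lit 0) (nat_lit 0) (nat_lit 0x20056d4f2) (nat_lit 268435456),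
  Rx.mk (nat_lit 375) (nat_lit 7) (nat_lit 6) (nat_lit 5) (nat_lit 7) (nat_lit 125) (nat_lit 139) r10_125 r9_139 (nat_lit 0) (nat_lit 0) (nat_lit 0) (nat_lit 0x20056d4f2) (nat_lit 268435456),
  Rx.mk (nat_lit 406) (nat_lit 6) (nat_lit 2) (nat_lit 6) (nat_lit 7) (nat_lit 119) (nat_lit 145) r10_119 r9_145 (nat_lit 0) (nat_lit 0) (nat_lit 0) (nat_lit 0x20056d4f2) (nat_lit 268435456),
  Rx.mk (nat_lit 503) (nat_lit 7) (nat_lit 6) (nat_lit 7) (nat_lit 7) (nat_lit 126) (nat_lit 140) r10_126 r9_140 (nat_lit 0) (nat_lit 0) (nat_lit 0) (nat_lit 0x20056d4f2) (nat_lit 268435456)]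
noncomputable def e28_22 : List Rx := [
  Rx.mk (nat_lit 128) (nat_lit 0) (nat_lit 0) (nat_lit 2) (nat_lit 4) (nat_lit 77) (nat_lit 147) r10_77 r0_147 (nat_lit 514146) (nat_lit 142696) (nat_lit 0) (nat_lit 0x196892534) (nat_lit 381116348),
  Rx.mk (nat_lit 130) (nat_lit 2) (nat_lit 0) (nat_lit 2) (nat_lit 5) (nat_lit 78) (nat_lit 150) r10_78 r0_150 (nat_lit 0) (nat_lit 5323449) (nat_lit 0) (nat_lit 0x1d8aa981c) (nat_lit 315709355),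
  Rx.mk (nat_lit 152) (nat_lit 0) (nat_lit 3) (nat_lit 2) (nat_lit 6) (nat_lit 79) (nat_lit 148) r10_79 r0_148 (nat_lit 18568344) (nat_lit 0) (nat_lit 0) (nat_lit 0x1f4c0ad0c) (nat_lit 299169900),
  Rx.mk (nat_lit 154) (nat_lit 2) (nat_lit 3) (nat_lit 2) (nat_lit 7) (nat_lit 80) (nat_lit 151) r10_80 r0_151 (nat_lit 0) (nat_lit 0) (nat_lit 0) (nat_lit 0x20056d4f2) (nat_lit 268435456),
  Rx.mk (nat_lit 155) (nat_lit 3) (nat_lit 3) (nat_lit 2) (nat_lit 7) (nat_lit 81) (nat_lit 149) r10_81 r0_149 (nat_lit 0) (nat_lit 0) (nat_lit 0) (nat_lit 0x1ff3454e6) (nat_lit 269612556)]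
noncomputable def e28_23 : List Rx := [
  Rx.mk (nat_lit 128) (nat_lit 0) (nat_lit 0) (nat_lit 2) (nat_lit 4) (nat_lit 96) (nat_lit 161) r10_96 r1_161 (nat_lit 835607) (nat_lit 419416) (nat_lit 0) (nat_lit 0x195be8716) (nat_lit 382608229),
  Rx.mk (nat_lit 130) (nat_lit 2) (nat_lit 0) (nat_lit 2) (nat_lit 5) (nat_lit 97) (nat_lit 164) r10_97 r1_164 (nat_lit 0) (nat_lit 8157982) (nat_lit 0) (nat_lit 0x1c3c07fca) (nat_lit 340752588),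
  Rx.mk (nat_lit 152) (nat_lit 0) (nat_lit 3) (nat_lit 2) (nat_lit 6) (nat_lit 98) (nat_lit 162) r10_98 r1_162 (nat_lit 9868051) (nat_lit 0) (nat_lit 0) (nat_lit 0x1fe805770) (nat_lit 280217007),
  Rx.mk (nat_lit 154) (nat_lit 2) (nat_lit 3) (nat_lit 2) (nat_lit 7) (nat_lit 99) (nat_lit 165) r10_99 r1_165 (nat_lit 0) (nat_lit 0) (nat_lit 0) (nat_lit 0x20056d4f2) (nat_lit 268435456),
  Rx.mk (nat_lit 155) (nat_lit 3) (nat_lit 3) (nat_lit 2) (nat_lit 7) (nat_lit 100) (nat_lit 163) r10_100 r1_163 (nat_lit 0) (nat_lit 0) (nat_lit 0) (nat_lit 0x20361e1be) (nat_lit 265270956)]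
noncomputable def e28_24 : List Rx := [
  Rx.mk (nat_lit 59) (nat_lit 3) (nat_lit 7) (nat_lit 0) (nat_lit 3) (nat_lit 132) (nat_lit 134) r10_132 r4_134 (nat_lit 0) (nat_lit 0) (nat_lit 5631477) (nat_lit 0x20462ac74) (nat_lit 269859283),
  Rx.mk (nat_lit 152) (nat_lit 0) (nat_lit 3) (nat_lit 2) (nat_lit 6) (nat_lit 127) (nat_lit 139) r10_127 r4_139 (nat_lit 11521502) (nat_lit 0) (nat_lit 0) (nat_lit 0x1fa406a1a) (nat_lit 286319758),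
  Rx.mk (nat_lit 154) (nat_lit 2) (nat_lit 3) (nat_lit 2) (nat_lit 7) (nat_lit 128) (nat_lit 142) r10_128 r4_142 (nat_lit 0) (nat_lit 0) (nat_lit 0) (nat_lit 0x20056d4f2) (nat_lit 268435456),
  Rx.mk (nat_lit 155) (nat_lit 3) (nat_lit 3) (nat_lit 2) (nat_lit 7) (nat_lit 129) (nat_lit 140) r10_129 r4_140 (nat_lit 0) (nat_lit 0) (nat_lit 0) (nat_lit 0x210872eee) (nat_lit 251737006),
  Rx.mk (nat_lit 187) (nat_lit 3) (nat_lit 7) (nat_lit 2) (nat_lit 7) (nat_lit 133) (nat_lit 141) r10_133 r4_141 (nat_lit 0) (nat_lit 0) (nat_lit 0) (nat_lit 0x203c0a05a) (nat_lit 264886856),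
  Rx.mk (nat_lit 231) (nat_lit 7) (nat_lit 4) (nat_lit 3) (nat_lit 5) (nat_lit 130) (nat_lit 136) r10_130 r4_136 (nat_lit 0) (nat_lit 4132596) (nat_lit 0) (nat_lit 0x208057c3a) (nat_lit 264608002),
  Rx.mk (nat_lit 247) (nat_lit 7) (nat_lit 6) (nat_lit 3) (nat_lit 7) (nat_lit 131) (nat_lit 138) r10_131 r4_138 (nat_lit 0) (nat_lit 0) (nat_lit 0) (nat_lit 0x2035240c4) (nat_lit 265333156),
  Rx.mk (nat_lit 251) (nat_lit 3) (nat_lit 7) (nat_lit 3) (nat_lit 7) (nat_lit 134) (nat_lit 135) r10_134 r4_135 (nat_lit 0) (nat_lit 0) (nat_lit 0) (nat_lit 0x20056d4f2) (nat_lit 268435456),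
  Rx.mk (nat_lit 255) (nat_lit 7) (nat_lit 7) (nat_lit 3) (nat_lit 7) (nat_lit 135) (nat_lit 137) r10_135 r4_137 (nat_lit 0) (nat_lit 0) (nat_lit 0) (nat_lit 0x20056d4f2) (nat_lit 268435456)]
noncomputable def e28_25 : List Rx := [
  Rx.mk (nat_lit 128) (nat_lit 0) (nat_lit 0) (nat_lit 2) (nat_lit 4) (nat_lit 82) (nat_lit 189) r10_82 r7_189 (nat_lit 325088) (nat_lit 232378) (nat_lit 0) (nat_lit 0x1b0e244d8) (nat_lit 353060522),
  Rx.mk (nat_lit 130) (nat_lit 2) (nat_lit 0) (nat_lit 2) (nat_lit 5) (nat_lit 83) (nat_lit 191) r10_83 r7_191 (nat_lit 0) (nat_lit 2535687) (nat_lit 0) (nat_lit 0x1ff5df990) (nat_lit 271959093),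
  Rx.mk (nat_lit 152) (nat_lit 0) (nat_lit 3) (nat_lit 2) (nat_lit 6) (nat_lit 88) (nat_lit 192) r10_88 r7_192 (nat_lit 3161773) (nat_lit 0) (nat_lit 0) (nat_lit 0x1ef74950c) (nat_lit 289350529),
  Rx.mk (nat_lit 154) (nat_lit 2) (nat_lit 3) (nat_lit 2) (nat_lit 7) (nat_lit 89) (nat_lit 194) r10_89 r7_194 (nat_lit 0) (nat_lit 0) (nat_lit 0) (nat_lit 0x209fe95d0) (nat_lit 258446106),
  Rx.mk (nat_lit 155) (nat_lit 3) (nat_lit 3) (nat_lit 2) (nat_lit 7) (nat_lit 90) (nat_lit 193) r10_90 r7_193 (nat_lit 0) (nat_lit 0) (nat_lit 0) (nat_lit 0x209fe494a) (nat_lit 258447306),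
  Rx.mk (nat_lit 278) (nat_lit 6) (nat_lit 2) (nat_lit 4) (nat_lit 3) (nat_lit 86) (nat_lit 195) r10_86 r7_195 (nat_lit 0) (nat_lit 0) (nat_lit 6516949) (nat_lit 0x1fb29d114) (nat_lit 280364355),
  Rx.mk (nat_lit 308) (nat_lit 4) (nat_lit 6) (nat_lit 4) (nat_lit 2) (nat_lit 91) (nat_lit 184) r10_91 r7_184 (nat_lit 325088) (nat_lit 0) (nat_lit 232378) (nat_lit 0x1b0e244d8) (nat_lit 353060522),
  Rx.mk (nat_lit 310) (nat_lit 6) (nat_lit 6) (nat_lit 4) (nat_lit 3) (nat_lit 93) (nat_lit 187) r10_93 r7_187 (nat_lit 0) (nat_lit 0) (nat_lit 2535687) (nat_lit 0x1ff5df990) (nat_lit 271959093),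
  Rx.mk (nat_lit 386) (nat_lit 2) (nat_lit 0) (nat_lit 6) (nat_lit 5) (nat_lit 84) (nat_lit 190) r10_84 r7_190 (nat_lit 0) (nat_lit 6516949) (nat_lit 0) (nat_lit 0x1fb29d114) (nat_lit 280364355),
  Rx.mk (nat_lit 402) (nat_lit 2) (nat_lit 2) (nat_lit 6) (nat_lit 7) (nat_lit 85) (nat_lit 197) r10_85 r7_197 (nat_lit 0) (nat_lit 0) (nat_lit 0) (nat_lit 0x20056d4f2) (nat_lit 268435456),
  Rx.mk (nat_lit 406) (nat_lit 6) (nat_lit 2) (nat_lit 6) (nat_lit 7) (nat_lit 87) (nat_lit 196) r10_87 r7_196 (nat_lit 0) (nat_lit 0) (nat_lit 0) (nat_lit 0x20056d4f2) (nat_lit 268435456),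
  Rx.mk (nat_lit 500) (nat_lit 4) (nat_lit 6) (nat_lit 7) (nat_lit 6) (nat_lit 92) (nat_lit 185) r10_92 r7_185 (nat_lit 3161773) (nat_lit 0) (nat_lit 0) (nat_lit 0x1ef74950c) (nat_lit 289350529),
  Rx.mk (nat_lit 502) (nat_lit 6) (nat_lit 6) (nat_lit 7) (nat_lit 7) (nat_lit 94) (nat_lit 188) r10_94 r7_188 (nat_lit 0) (nat_lit 0) (nat_lit 0) (nat_lit 0x209fe95d0) (nat_lit 258446106),
  Rx.mk (nat_lit 503) (nat_lit 7) (nat_lit 6) (nat_lit 7) (nat_lit 7) (nat_lit 95) (nat_lit 186) r10_95 r7_186 (nat_lit 0) (nat_lit 0) (nat_lit 0) (nat_lit 0x209fe494a) (nat_lit 258447306)]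
noncomputable def e28_26 : List Rx := [
  Rx.mk (nat_lit 128) (nat_lit 0) (nat_lit 0) (nat_lit 2) (nat_lit 4) (nat_lit 101) (nat_lit 149) r10_101 r8_149 (nat_lit 8541134) (nat_lit 6364952) (nat_lit 0) (nat_lit 0x186a9d334) (nat_lit 412357992),
  Rx.mk (nat_lit 130) (nat_lit 2) (nat_lit 0) (nat_lit 2) (nat_lit 5) (nat_lit 102) (nat_lit 151) r10_102 r8_151 (nat_lit 0) (nat_lit 4442685) (nat_lit 0) (nat_lit 0x203b15f3c) (nat_lit 269384691),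
  Rx.mk (nat_lit 152) (nat_lit 0) (nat_lit 3) (nat_lit 2) (nat_lit 6) (nat_lit 106) (nat_lit 152) r10_106 r8_152 (nat_lit 9484367) (nat_lit 0) (nat_lit 0) (nat_lit 0x1ff13e1a2) (nat_lit 279234723),
  Rx.mk (nat_lit 154) (nat_lit 2) (nat_lit 3) (nat_lit 2) (nat_lit 7) (nat_lit 107) (nat_lit 154) r10_107 r8_154 (nat_lit 0) (nat_lit 0) (nat_lit 0) (nat_lit 0x20056d4f2) (nat_lit 268435456),
  Rx.mk (nat_lit 155) (nat_lit 3) (nat_lit 3) (nat_lit 2) (nat_lit 7) (nat_lit 108) (nat_lit 153) r10_108 r8_153 (nat_lit 0) (nat_lit 0) (nat_lit 0) (nat_lit 0x20056d4f2) (nat_lit 268435456),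
  Rx.mk (nat_lit 386) (nat_lit 2) (nat_lit 0) (nat_lit 6) (nat_lit 5) (nat_lit 103) (nat_lit 150) r10_103 r8_150 (nat_lit 0) (nat_lit 9484367) (nat_lit 0) (nat_lit 0x1fe950e7c) (nat_lit 279752073),
  Rx.mk (nat_lit 402) (nat_lit 2) (nat_lit 2) (nat_lit 6) (nat_lit 7) (nat_lit 104) (nat_lit 156) r10_104 r8_156 (nat_lit 0) (nat_lit 0) (nat_lit 0) (nat_lit 0x20056d4f2) (nat_lit 268435456),
  Rx.mk (nat_lit 406) (nat_lit 6) (nat_lit 2) (nat_lit 6) (nat_lit 7) (nat_lit 105) (nat_lit 155) r10_105 r8_155 (nat_lit 0) (nat_lit 0) (nat_lit 0) (nat_lit 0x20056d4f2) (nat_lit 268435456)]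
noncomputable def e28_27 : List Rx := [
  Rx.mk (nat_lit 278) (nat_lit 6) (nat_lit 2) (nat_lit 4) (nat_lit 3) (nat_lit 110) (nat_lit 150) r10_110 r8_150 (nat_lit 0) (nat_lit 0) (nat_lit 9484367) (nat_lit 0x1fe950e7c) (nat_lit 279752073),
  Rx.mk (nat_lit 308) (nat_lit 4) (nat_lit 6) (nat_lit 4) (nat_lit 2) (nat_lit 112) (nat_lit 149) r10_112 r8_149 (nat_lit 8541134) (nat_lit 0) (nat_lit 6364952) (nat_lit 0x186a9d334) (nat_lit 412357992),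
  Rx.mk (nat_lit 310) (nat_lit 6) (nat_lit 6) (nat_lit 4) (nat_lit 3) (nat_lit 114) (nat_lit 151) r10_114 r8_151 (nat_lit 0) (nat_lit 0) (nat_lit 4442685) (nat_lit 0x203b15f3c) (nat_lit 269384691),
  Rx.mk (nat_lit 402) (nat_lit 2) (nat_lit 2) (nat_lit 6) (nat_lit 7) (nat_lit 109) (nat_lit 155) r10_109 r8_155 (nat_lit 0) (nat_lit 0) (nat_lit 0) (nat_lit 0x20056d4f2) (nat_lit 268435456),
  Rx.mk (nat_lit 406) (nat_lit 6) (nat_lit 2) (nat_lit 6) (nat_lit 7) (nat_lit 111) (nat_lit 156) r10_111 r8_156 (nat_lit 0) (nat_lit 0) (nat_lit 0) (nat_lit 0x20056d4f2) (nat_lit 268435456),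
  Rx.mk (nat_lit 500) (nat_lit 4) (nat_lit 6) (nat_lit 7) (nat_lit 6) (nat_lit 113) (nat_lit 152) r10_113 r8_152 (nat_lit 9484367) (nat_lit 0) (nat_lit 0) (nat_lit 0x1ff13e1a2) (nat_lit 279234723),
  Rx.mk (nat_lit 502) (nat_lit 6) (nat_lit 6) (nat_lit 7) (nat_lit 7) (nat_lit 115) (nat_lit 154) r10_115 r8_154 (nat_lit 0) (nat_lit 0) (nat_lit 0) (nat_lit 0x20056d4f2) (nat_lit 268435456),
  Rx.mk (nat_lit 503) (nat_lit 7) (nat_lit 6) (nat_lit 7) (nat_lit 7) (nat_lit 116) (nat_lit 153) r10_116 r8_153 (nat_lit 0) (nat_lit 0) (nat_lit 0) (nat_lit 0x20056d4f2) (nat_lit 268435456)]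
noncomputable def e28_28 : List Rx := [
  Rx.mk (nat_lit 59) (nat_lit 3) (nat_lit 7) (nat_lit 0) (nat_lit 3) (nat_lit 150) (nat_lit 138) r10_150 r10_138 (nat_lit 0) (nat_lit 0) (nat_lit 1802608) (nat_lit 0x1f495d9d8) (nat_lit 282546914),
  Rx.mk (nat_lit 152) (nat_lit 0) (nat_lit 3) (nat_lit 2) (nat_lit 6) (nat_lit 141) (nat_lit 146) r10_141 r10_146 (nat_lit 815003) (nat_lit 0) (nat_lit 0) (nat_lit 0x200ff8b60) (nat_lit 268445059),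
  Rx.mk (nat_lit 154) (nat_lit 2) (nat_lit 3) (nat_lit 2) (nat_lit 7) (nat_lit 142) (nat_lit 149) r10_142 r10_149 (nat_lit 0) (nat_lit 0) (nat_lit 0) (nat_lit 0x2130d0d3c) (nat_lit 249148306),
  Rx.mk (nat_lit 155) (nat_lit 3) (nat_lit 3) (nat_lit 2) (nat_lit 7) (nat_lit 144) (nat_lit 147) r10_144 r10_147 (nat_lit 0) (nat_lit 0) (nat_lit 0) (nat_lit 0x2130d0d3c) (nat_lit 249148306),
  Rx.mk (nat_lit 187) (nat_lit 3) (nat_lit 7) (nat_lit 2) (nat_lit 7) (nat_lit 151) (nat_lit 140) r10_151 r10_140 (nat_lit 0) (nat_lit 0) (nat_lit 0) (nat_lit 0x20056d4f2) (nat_lit 268435456),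
  Rx.mk (nat_lit 231) (nat_lit 7) (nat_lit 4) (nat_lit 3) (nat_lit 5) (nat_lit 145) (nat_lit 136) r10_145 r10_136 (nat_lit 0) (nat_lit 1802608) (nat_lit 0) (nat_lit 0x1f495d9d8) (nat_lit 282546914),
  Rx.mk (nat_lit 247) (nat_lit 7) (nat_lit 6) (nat_lit 3) (nat_lit 7) (nat_lit 148) (nat_lit 143) r10_148 r10_143 (nat_lit 0) (nat_lit 0) (nat_lit 0) (nat_lit 0x20056d4f2) (nat_lit 268435456),
  Rx.mk (nat_lit 251) (nat_lit 3) (nat_lit 7) (nat_lit 3) (nat_lit 7) (nat_lit 152) (nat_lit 139) r10_152 r10_139 (nat_lit 0) (nat_lit 0) (nat_lit 0) (nat_lit 0x20056d4f2) (nat_lit 268435456),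
  Rx.mk (nat_lit 255) (nat_lit 7) (nat_lit 7) (nat_lit 3) (nat_lit 7) (nat_lit 153) (nat_lit 137) r10_153 r10_137 (nat_lit 0) (nat_lit 0) (nat_lit 0) (nat_lit 0x20056d4f2) (nat_lit 268435456),
  Rx.mk (nat_lit 278) (nat_lit 6) (nat_lit 2) (nat_lit 4) (nat_lit 3) (nat_lit 138) (nat_lit 150) r10_138 r10_150 (nat_lit 0) (nat_lit 0) (nat_lit 1802608) (nat_lit 0x1f495d9d8) (nat_lit 282546914),
  Rx.mk (nat_lit 386) (nat_lit 2) (nat_lit 0) (nat_lit 6) (nat_lit 5) (nat_lit 136) (nat_lit 145) r10_136 r10_145 (nat_lit 0) (nat_lit 1802608) (nat_lit 0) (nat_lit 0x1f495d9d8) (nat_lit 282546914),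
  Rx.mk (nat_lit 402) (nat_lit 2) (nat_lit 2) (nat_lit 6) (nat_lit 7) (nat_lit 137) (nat_lit 153) r10_137 r10_153 (nat_lit 0) (nat_lit 0) (nat_lit 0) (nat_lit 0x20056d4f2) (nat_lit 268435456),
  Rx.mk (nat_lit 406) (nat_lit 6) (nat_lit 2) (nat_lit 6) (nat_lit 7) (nat_lit 139) (nat_lit 152) r10_139 r10_152 (nat_lit 0) (nat_lit 0) (nat_lit 0) (nat_lit 0x20056d4f2) (nat_lit 268435456),
  Rx.mk (nat_lit 410) (nat_lit 2) (nat_lit 3) (nat_lit 6) (nat_lit 7) (nat_lit 143) (nat_lit 148) r10_143 r10_148 (nat_lit 0) (nat_lit 0) (nat_lit 0) (nat_lit 0x20056d4f2) (nat_lit 268435456),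
  Rx.mk (nat_lit 470) (nat_lit 6) (nat_lit 2) (nat_lit 7) (nat_lit 7) (nat_lit 140) (nat_lit 151) r10_140 r10_151 (nat_lit 0) (nat_lit 0) (nat_lit 0) (nat_lit 0x20056d4f2) (nat_lit 268435456),
  Rx.mk (nat_lit 500) (nat_lit 4) (nat_lit 6) (nat_lit 7) (nat_lit 6) (nat_lit 146) (nat_lit 141) r10_146 r10_141 (nat_lit 815003) (nat_lit 0) (nat_lit 0) (nat_lit 0x200ff8b60) (nat_lit 268445059),
  Rx.mk (nat_lit 502) (nat_lit 6) (nat_lit 6) (nat_lit 7) (nat_lit 7) (nat_lit 147) (nat_lit 144) r10_147 r10_144 (nat_lit 0) (nat_lit 0) (nat_lit 0) (nat_lit 0x2130d0d3c) (nat_lit 249148306),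
  Rx.mk (nat_lit 503) (nat_lit 7) (nat_lit 6) (nat_lit 7) (nat_lit 7) (nat_lit 149) (nat_lit 142) r10_149 r10_142 (nat_lit 0) (nat_lit 0) (nat_lit 0) (nat_lit 0x2130d0d3c) (nat_lit 249148306)]
noncomputable def e28_29 : List Rx := [
  Rx.mk (nat_lit 59) (nat_lit 3) (nat_lit 7) (nat_lit 0) (nat_lit 3) (nat_lit 157) (nat_lit 140) r10_157 r11_140 (nat_lit 0) (nat_lit 0) (nat_lit 7093825) (nat_lit 0x20203209e) (nat_lit 273785681),
  Rx.mk (nat_lit 63) (nat_lit 7) (nat_lit 7) (nat_lit 0) (nat_lit 3) (nat_lit 159) (nat_lit 138) r10_159 r11_138 (nat_lit 0) (nat_lit 0) (nat_lit 9484367) (nat_lit 0x20056d4f2) (nat_lit 277919823),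
  Rx.mk (nat_lit 155) (nat_lit 3) (nat_lit 3) (nat_lit 2) (nat_lit 7) (nat_lit 154) (nat_lit 143) r10_154 r11_143 (nat_lit 0) (nat_lit 0) (nat_lit 0) (nat_lit 0x209eff8f4) (nat_lit 258504756),
  Rx.mk (nat_lit 187) (nat_lit 3) (nat_lit 7) (nat_lit 2) (nat_lit 7) (nat_lit 158) (nat_lit 141) r10_158 r11_141 (nat_lit 0) (nat_lit 0) (nat_lit 0) (nat_lit 0x20056d4f2) (nat_lit 268435456),
  Rx.mk (nat_lit 231) (nat_lit 7) (nat_lit 4) (nat_lit 3) (nat_lit 5) (nat_lit 155) (nat_lit 137) r10_155 r11_137 (nat_lit 0) (nat_lit 9484367) (nat_lit 0) (nat_lit 0x20056d4f2) (nat_lit 277919823),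
  Rx.mk (nat_lit 247) (nat_lit 7) (nat_lit 6) (nat_lit 3) (nat_lit 7) (nat_lit 156) (nat_lit 142) r10_156 r11_142 (nat_lit 0) (nat_lit 0) (nat_lit 0) (nat_lit 0x20056d4f2) (nat_lit 268435456),
  Rx.mk (nat_lit 255) (nat_lit 7) (nat_lit 7) (nat_lit 3) (nat_lit 7) (nat_lit 160) (nat_lit 139) r10_160 r11_139 (nat_lit 0) (nat_lit 0) (nat_lit 0) (nat_lit 0x20056d4f2) (nat_lit 268435456)]
noncomputable def e28_30 : List Rx := [
  Rx.mk (nat_lit 103) (nat_lit 7) (nat_lit 4) (nat_lit 1) (nat_lit 5) (nat_lit 237) (nat_lit 307) r10_237 r5_307 (nat_lit 0) (nat_lit 3329919) (nat_lit 0) (nat_lit 0x1ffcb0cec) (nat_lit 272305225),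
  Rx.mk (nat_lit 111) (nat_lit 7) (nat_lit 5) (nat_lit 1) (nat_lit 7) (nat_lit 238) (nat_lit 308) r10_238 r5_308 (nat_lit 0) (nat_lit 0) (nat_lit 0) (nat_lit 0x20a492d52) (nat_lit 258146656),
  Rx.mk (nat_lit 119) (nat_lit 7) (nat_lit 6) (nat_lit 1) (nat_lit 7) (nat_lit 239) (nat_lit 309) r10_239 r5_309 (nat_lit 0) (nat_lit 0) (nat_lit 0) (nat_lit 0x20a487aa6) (nat_lit 258149456)]
noncomputable def e28_31 : List Rx := [
  Rx.mk (nat_lit 103) (nat_lit 7) (nat_lit 4) (nat_lit 1) (nat_lit 5) (nat_lit 240) (nat_lit 361) r10_240 r11_361 (nat_lit 0) (nat_lit 3853892) (nat_lit 0) (nat_lit 0x209f64bdc) (nat_lit 262322098),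
  Rx.mk (nat_lit 111) (nat_lit 7) (nat_lit 5) (nat_lit 1) (nat_lit 7) (nat_lit 241) (nat_lit 362) r10_241 r11_362 (nat_lit 0) (nat_lit 0) (nat_lit 0) (nat_lit 0x20b95852a) (nat_lit 256813656),
  Rx.mk (nat_lit 119) (nat_lit 7) (nat_lit 6) (nat_lit 1) (nat_lit 7) (nat_lit 242) (nat_lit 363) r10_242 r11_363 (nat_lit 0) (nat_lit 0) (nat_lit 0) (nat_lit 0x20b95852a) (nat_lit 256813656),
  Rx.mk (nat_lit 375) (nat_lit 7) (nat_lit 6) (nat_lit 5) (nat_lit 7) (nat_lit 243) (nat_lit 360) r10_243 r11_360 (nat_lit 0) (nat_lit 0) (nat_lit 0) (nat_lit 0x20056d4f2) (nat_lit 268435456)]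
noncomputable def e28_32 : List Rx := [
  Rx.mk (nat_lit 35) (nat_lit 3) (nat_lit 4) (nat_lit 0) (nat_lit 1) (nat_lit 244) (nat_lit 213) r10_244 r6_213 (nat_lit 0) (nat_lit 543948) (nat_lit 471452) (nat_lit 0x1c7149774) (nat_lit 329972906),
  Rx.mk (nat_lit 43) (nat_lit 3) (nat_lit 5) (nat_lit 0) (nat_lit 3) (nat_lit 249) (nat_lit 214) r10_249 r6_214 (nat_lit 0) (nat_lit 0) (nat_lit 4088468) (nat_lit 0x20ccdca88) (nat_lit 259647924),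
  Rx.mk (nat_lit 59) (nat_lit 3) (nat_lit 7) (nat_lit 0) (nat_lit 3) (nat_lit 254) (nat_lit 215) r10_254 r6_215 (nat_lit 0) (nat_lit 0) (nat_lit 2783281) (nat_lit 0x2029b329e) (nat_lit 268826287),
  Rx.mk (nat_lit 99) (nat_lit 3) (nat_lit 4) (nat_lit 1) (nat_lit 5) (nat_lit 245) (nat_lit 216) r10_245 r6_216 (nat_lit 0) (nat_lit 3377596) (nat_lit 0) (nat_lit 0x20e0bc792) (nat_lit 257655702),
  Rx.mk (nat_lit 123) (nat_lit 3) (nat_lit 7) (nat_lit 1) (nat_lit 7) (nat_lit 255) (nat_lit 217) r10_255 r6_217 (nat_lit 0) (nat_lit 0) (nat_lit 0) (nat_lit 0x21936d120) (nat_lit 242832906),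
  Rx.mk (nat_lit 163) (nat_lit 3) (nat_lit 4) (nat_lit 2) (nat_lit 5) (nat_lit 246) (nat_lit 220) r10_246 r6_220 (nat_lit 0) (nat_lit 3377596) (nat_lit 0) (nat_lit 0x20e0bc792) (nat_lit 257655702),
  Rx.mk (nat_lit 171) (nat_lit 3) (nat_lit 5) (nat_lit 2) (nat_lit 7) (nat_lit 250) (nat_lit 221) r10_250 r6_221 (nat_lit 0) (nat_lit 0) (nat_lit 0) (nat_lit 0x206360cda) (nat_lit 262345506),
  Rx.mk (nat_lit 187) (nat_lit 3) (nat_lit 7) (nat_lit 2) (nat_lit 7) (nat_lit 256) (nat_lit 222) r10_256 r6_222 (nat_lit 0) (nat_lit 0) (nat_lit 0) (nat_lit 0x21936d120) (nat_lit 242832906),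
  Rx.mk (nat_lit 227) (nat_lit 3) (nat_lit 4) (nat_lit 3) (nat_lit 5) (nat_lit 247) (nat_lit 218) r10_247 r6_218 (nat_lit 0) (nat_lit 7687606) (nat_lit 0) (nat_lit 0x1fbd9977a) (nat_lit 280815412),
  Rx.mk (nat_lit 231) (nat_lit 7) (nat_lit 4) (nat_lit 3) (nat_lit 5) (nat_lit 248) (nat_lit 210) r10_248 r6_210 (nat_lit 0) (nat_lit 2445729) (nat_lit 0) (nat_lit 0x1fca8a75e) (nat_lit 274684635),
  Rx.mk (nat_lit 235) (nat_lit 3) (nat_lit 5) (nat_lit 3) (nat_lit 7) (nat_lit 251) (nat_lit 219) r10_251 r6_219 (nat_lit 0) (nat_lit 0) (nat_lit 0) (nat_lit 0x20056d4f2) (nat_lit 268435456),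
  Rx.mk (nat_lit 239) (nat_lit 7) (nat_lit 5) (nat_lit 3) (nat_lit 7) (nat_lit 252) (nat_lit 211) r10_252 r6_211 (nat_lit 0) (nat_lit 0) (nat_lit 0) (nat_lit 0x21063f2bc) (nat_lit 251877456),
  Rx.mk (nat_lit 247) (nat_lit 7) (nat_lit 6) (nat_lit 3) (nat_lit 7) (nat_lit 253) (nat_lit 212) r10_253 r6_212 (nat_lit 0) (nat_lit 0) (nat_lit 0) (nat_lit 0x21063f2bc) (nat_lit 251877456)]
noncomputable def e28_33 : List Rx := [
  Rx.mk (nat_lit 59) (nat_lit 3) (nat_lit 7) (nat_lit 0) (nat_lit 3) (nat_lit 215) (nat_lit 134) r10_215 r5_134 (nat_lit 0) (nat_lit 0) (nat_lit 2021679) (nat_lit 0x20d6f76b2) (nat_lit 256908235),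
  Rx.mk (nat_lit 187) (nat_lit 3) (nat_lit 7) (nat_lit 2) (nat_lit 7) (nat_lit 216) (nat_lit 139) r10_216 r5_139 (nat_lit 0) (nat_lit 0) (nat_lit 0) (nat_lit 0x208d85736) (nat_lit 259627956),
  Rx.mk (nat_lit 227) (nat_lit 3) (nat_lit 4) (nat_lit 3) (nat_lit 5) (nat_lit 212) (nat_lit 135) r10_212 r5_135 (nat_lit 0) (nat_lit 4853259) (nat_lit 0) (nat_lit 0x1ce07f8e6) (nat_lit 326522065),
  Rx.mk (nat_lit 231) (nat_lit 7) (nat_lit 4) (nat_lit 3) (nat_lit 5) (nat_lit 213) (nat_lit 137) r10_213 r5_137 (nat_lit 0) (nat_lit 2831630) (nat_lit 0) (nat_lit 0x201b3358e) (nat_lit 269816136),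
  Rx.mk (nat_lit 247) (nat_lit 7) (nat_lit 6) (nat_lit 3) (nat_lit 7) (nat_lit 214) (nat_lit 138) r10_214 r5_138 (nat_lit 0) (nat_lit 0) (nat_lit 0) (nat_lit 0x2150d6668) (nat_lit 247097356),
  Rx.mk (nat_lit 251) (nat_lit 3) (nat_lit 7) (nat_lit 3) (nat_lit 7) (nat_lit 217) (nat_lit 136) r10_217 r5_136 (nat_lit 0) (nat_lit 0) (nat_lit 0) (nat_lit 0x1fddac6f2) (nat_lit 271029056)]
noncomputable def e28_34 : List Rx := [
  Rx.mk (nat_lit 59) (nat_lit 3) (nat_lit 7) (nat_lit 0) (nat_lit 3) (nat_lit 222) (nat_lit 137) r10_222 r11_137 (nat_lit 0) (nat_lit 0) (nat_lit 9484367) (nat_lit 0x20056d4f2) (nat_lit 277919823),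
  Rx.mk (nat_lit 187) (nat_lit 3) (nat_lit 7) (nat_lit 2) (nat_lit 7) (nat_lit 223) (nat_lit 142) r10_223 r11_142 (nat_lit 0) (nat_lit 0) (nat_lit 0) (nat_lit 0x20056d4f2) (nat_lit 268435456),
  Rx.mk (nat_lit 227) (nat_lit 3) (nat_lit 4) (nat_lit 3) (nat_lit 5) (nat_lit 218) (nat_lit 138) r10_218 r11_138 (nat_lit 0) (nat_lit 9484367) (nat_lit 0) (nat_lit 0x20056d4f2) (nat_lit 277919823),
  Rx.mk (nat_lit 231) (nat_lit 7) (nat_lit 4) (nat_lit 3) (nat_lit 5) (nat_lit 219) (nat_lit 140) r10_219 r11_140 (nat_lit 0) (nat_lit 7093825) (nat_lit 0) (nat_lit 0x20203209e) (nat_lit 273785681),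
  Rx.mk (nat_lit 247) (nat_lit 7) (nat_lit 6) (nat_lit 3) (nat_lit 7) (nat_lit 220) (nat_lit 141) r10_220 r11_141 (nat_lit 0) (nat_lit 0) (nat_lit 0) (nat_lit 0x20056d4f2) (nat_lit 268435456),
  Rx.mk (nat_lit 251) (nat_lit 3) (nat_lit 7) (nat_lit 3) (nat_lit 7) (nat_lit 224) (nat_lit 139) r10_224 r11_139 (nat_lit 0) (nat_lit 0) (nat_lit 0) (nat_lit 0x20056d4f2) (nat_lit 268435456),
  Rx.mk (nat_lit 503) (nat_lit 7) (nat_lit 6) (nat_lit 7) (nat_lit 7) (nat_lit 221) (nat_lit 143) r10_221 r11_143 (nat_lit 0) (nat_lit 0) (nat_lit 0) (nat_lit 0x209eff8f4) (nat_lit 258504756)]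
noncomputable def e28_35 : List Rx := [
  Rx.mk (nat_lit 35) (nat_lit 3) (nat_lit 4) (nat_lit 0) (nat_lit 1) (nat_lit 225) (nat_lit 344) r10_225 r6_344 (nat_lit 0) (nat_lit 348980) (nat_lit 328219) (nat_lit 0x1ccbea124) (nat_lit 323608155),
  Rx.mk (nat_lit 39) (nat_lit 7) (nat_lit 4) (nat_lit 0) (nat_lit 1) (nat_lit 228) (nat_lit 345) r10_228 r6_345 (nat_lit 0) (nat_lit 328219) (nat_lit 348980) (nat_lit 0x1ccbea124) (nat_lit 323608155),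
  Rx.mk (nat_lit 43) (nat_lit 3) (nat_lit 5) (nat_lit 0) (nat_lit 3) (nat_lit 230) (nat_lit 349) r10_230 r6_349 (nat_lit 0) (nat_lit 0) (nat_lit 3603283) (nat_lit 0x211d1a1bc) (nat_lit 254015539),
  Rx.mk (nat_lit 47) (nat_lit 7) (nat_lit 5) (nat_lit 0) (nat_lit 3) (nat_lit 233) (nat_lit 350) r10_233 r6_350 (nat_lit 0) (nat_lit 0) (nat_lit 3019693) (nat_lit 0x20b5c8a36) (nat_lit 260047299),
  Rx.mk (nat_lit 55) (nat_lit 7) (nat_lit 6) (nat_lit 0) (nat_lit 3) (nat_lit 235) (nat_lit 354) r10_235 r6_354 (nat_lit 0) (nat_lit 0) (nat_lit 3102433) (nat_lit 0x2108695c4) (nat_lit 254834339),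
  Rx.mk (nat_lit 99) (nat_lit 3) (nat_lit 4) (nat_lit 1) (nat_lit 5) (nat_lit 226) (nat_lit 346) r10_226 r6_346 (nat_lit 0) (nat_lit 3019693) (nat_lit 0) (nat_lit 0x20b5c8a36) (nat_lit 260047299),
  Rx.mk (nat_lit 103) (nat_lit 7) (nat_lit 4) (nat_lit 1) (nat_lit 5) (nat_lit 229) (nat_lit 347) r10_229 r6_347 (nat_lit 0) (nat_lit 3603283) (nat_lit 0) (nat_lit 0x211d1a1bc) (nat_lit 254015539),
  Rx.mk (nat_lit 107) (nat_lit 3) (nat_lit 5) (nat_lit 1) (nat_lit 7) (nat_lit 231) (nat_lit 351) r10_231 r6_351 (nat_lit 0) (nat_lit 0) (nat_lit 0) (nat_lit 0x208e7574a) (nat_lit 259569056),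
  Rx.mk (nat_lit 111) (nat_lit 7) (nat_lit 5) (nat_lit 1) (nat_lit 7) (nat_lit 234) (nat_lit 352) r10_234 r6_352 (nat_lit 0) (nat_lit 0) (nat_lit 0) (nat_lit 0x208e7574a) (nat_lit 259569056),
  Rx.mk (nat_lit 119) (nat_lit 7) (nat_lit 6) (nat_lit 1) (nat_lit 7) (nat_lit 236) (nat_lit 355) r10_236 r6_355 (nat_lit 0) (nat_lit 0) (nat_lit 0) (nat_lit 0x208e74746) (nat_lit 259569306),
  Rx.mk (nat_lit 163) (nat_lit 3) (nat_lit 4) (nat_lit 2) (nat_lit 5) (nat_lit 227) (nat_lit 348) r10_227 r6_348 (nat_lit 0) (nat_lit 3102433) (nat_lit 0) (nat_lit 0x2108695c4) (nat_lit 254834339),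
  Rx.mk (nat_lit 171) (nat_lit 3) (nat_lit 5) (nat_lit 2) (nat_lit 7) (nat_lit 232) (nat_lit 353) r10_232 r6_353 (nat_lit 0) (nat_lit 0) (nat_lit 0) (nat_lit 0x208e74746) (nat_lit 259569306)]
noncomputable def e28_36 : List Rx := [
  Rx.mk (nat_lit 35) (nat_lit 3) (nat_lit 4) (nat_lit 0) (nat_lit 1) (nat_lit 257) (nat_lit 213) r10_257 r12_213 (nat_lit 0) (nat_lit 322441) (nat_lit 325914) (nat_lit 0x1c234ab86) (nat_lit 334766061),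
  Rx.mk (nat_lit 39) (nat_lit 7) (nat_lit 4) (nat_lit 0) (nat_lit 1) (nat_lit 260) (nat_lit 221) r10_260 r12_221 (nat_lit 0) (nat_lit 325914) (nat_lit 322441) (nat_lit 0x1c234ab86) (nat_lit 334766061),
  Rx.mk (nat_lit 43) (nat_lit 3) (nat_lit 5) (nat_lit 0) (nat_lit 3) (nat_lit 263) (nat_lit 216) r10_263 r12_216 (nat_lit 0) (nat_lit 0) (nat_lit 2881372) (nat_lit 0x22e576b1e) (nat_lit 224085728),
  Rx.mk (nat_lit 47) (nat_lit 7) (nat_lit 5) (nat_lit 0) (nat_lit 3) (nat_lit 265) (nat_lit 224) r10_265 r12_224 (nat_lit 0) (nat_lit 0) (nat_lit 2243506) (nat_lit 0x219b704a8) (nat_lit 244550362),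
  Rx.mk (nat_lit 55) (nat_lit 7) (nat_lit 6) (nat_lit 0) (nat_lit 3) (nat_lit 267) (nat_lit 226) r10_267 r12_226 (nat_lit 0) (nat_lit 0) (nat_lit 2167477) (nat_lit 0x21701f934) (nat_lit 247245333),
  Rx.mk (nat_lit 59) (nat_lit 3) (nat_lit 7) (nat_lit 0) (nat_lit 3) (nat_lit 270) (nat_lit 218) r10_270 r12_218 (nat_lit 0) (nat_lit 0) (nat_lit 1837154) (nat_lit 0x1fc64b86e) (nat_lit 274338360),
  Rx.mk (nat_lit 99) (nat_lit 3) (nat_lit 4) (nat_lit 1) (nat_lit 5) (nat_lit 258) (nat_lit 214) r10_258 r12_214 (nat_lit 0) (nat_lit 2243506) (nat_lit 0) (nat_lit 0x219b704a8) (nat_lit 244550362),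
  Rx.mk (nat_lit 103) (nat_lit 7) (nat_lit 4) (nat_lit 1) (nat_lit 5) (nat_lit 261) (nat_lit 222) r10_261 r12_222 (nat_lit 0) (nat_lit 2881372) (nat_lit 0) (nat_lit 0x22e576b1e) (nat_lit 224085728),
  Rx.mk (nat_lit 119) (nat_lit 7) (nat_lit 6) (nat_lit 1) (nat_lit 7) (nat_lit 268) (nat_lit 227) r10_268 r12_227 (nat_lit 0) (nat_lit 0) (nat_lit 0) (nat_lit 0x20f770088) (nat_lit 252826306),
  Rx.mk (nat_lit 123) (nat_lit 3) (nat_lit 7) (nat_lit 1) (nat_lit 7) (nat_lit 271) (nat_lit 219) r10_271 r12_219 (nat_lit 0) (nat_lit 0) (nat_lit 0) (nat_lit 0x23a566000) (nat_lit 208927306),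
  Rx.mk (nat_lit 163) (nat_lit 3) (nat_lit 4) (nat_lit 2) (nat_lit 5) (nat_lit 259) (nat_lit 215) r10_259 r12_215 (nat_lit 0) (nat_lit 2167477) (nat_lit 0) (nat_lit 0x21701f934) (nat_lit 247245333),
  Rx.mk (nat_lit 171) (nat_lit 3) (nat_lit 5) (nat_lit 2) (nat_lit 7) (nat_lit 264) (nat_lit 217) r10_264 r12_217 (nat_lit 0) (nat_lit 0) (nat_lit 0) (nat_lit 0x20f770088) (nat_lit 252826306),
  Rx.mk (nat_lit 187) (nat_lit 3) (nat_lit 7) (nat_lit 2) (nat_lit 7) (nat_lit 272) (nat_lit 220) r10_272 r12_220 (nat_lit 0) (nat_lit 0) (nat_lit 0) (nat_lit 0x23a566000) (nat_lit 208927306),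
  Rx.mk (nat_lit 231) (nat_lit 7) (nat_lit 4) (nat_lit 3) (nat_lit 5) (nat_lit 262) (nat_lit 223) r10_262 r12_223 (nat_lit 0) (nat_lit 1837154) (nat_lit 0) (nat_lit 0x1fc64b86e) (nat_lit 274338360),
  Rx.mk (nat_lit 239) (nat_lit 7) (nat_lit 5) (nat_lit 3) (nat_lit 7) (nat_lit 266) (nat_lit 225) r10_266 r12_225 (nat_lit 0) (nat_lit 0) (nat_lit 0) (nat_lit 0x23a566000) (nat_lit 208927306),
  Rx.mk (nat_lit 247) (nat_lit 7) (nat_lit 6) (nat_lit 3) (nat_lit 7) (nat_lit 269) (nat_lit 228) r10_269 r12_228 (nat_lit 0) (nat_lit 0) (nat_lit 0) (nat_lit 0x23a566000) (nat_lit 208927306)]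
noncomputable def e28_37 : List Rx := [
  Rx.mk (nat_lit 40) (nat_lit 0) (nat_lit 5) (nat_lit 0) (nat_lit 2) (nat_lit 281) (nat_lit 195) r10_281 r0_195 (nat_lit 895600) (nat_lit 0) (nat_lit 241321) (nat_lit 0x16b880cd8) (nat_lit 427279577),
  Rx.mk (nat_lit 104) (nat_lit 0) (nat_lit 5) (nat_lit 1) (nat_lit 6) (nat_lit 282) (nat_lit 196) r10_282 r0_196 (nat_lit 3476048) (nat_lit 0) (nat_lit 0) (nat_lit 0x1aa52c732) (nat_lit 363037754),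
  Rx.mk (nat_lit 136) (nat_lit 0) (nat_lit 1) (nat_lit 2) (nat_lit 6) (nat_lit 279) (nat_lit 198) r10_279 r0_198 (nat_lit 55056773) (nat_lit 0) (nat_lit 0) (nat_lit 0x212627822) (nat_lit 304746579),
  Rx.mk (nat_lit 139) (nat_lit 3) (nat_lit 1) (nat_lit 2) (nat_lit 7) (nat_lit 280) (nat_lit 199) r10_280 r0_199 (nat_lit 0) (nat_lit 0) (nat_lit 0) (nat_lit 0x20d426d7a) (nat_lit 255090656),
  Rx.mk (nat_lit 168) (nat_lit 0) (nat_lit 5) (nat_lit 2) (nat_lit 6) (nat_lit 283) (nat_lit 197) r10_283 r0_197 (nat_lit 83120058) (nat_lit 0) (nat_lit 0) (nat_lit 0x201ce892e) (nat_lit 349914064)]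
noncomputable def e28_38 : List Rx := [
  Rx.mk (nat_lit 40) (nat_lit 0) (nat_lit 5) (nat_lit 0) (nat_lit 2) (nat_lit 273) (nat_lit 322) r10_273 r0_322 (nat_lit 3170624) (nat_lit 0) (nat_lit 6194834) (nat_lit 0x1b029a6a8) (nat_lit 362703714),
  Rx.mk (nat_lit 41) (nat_lit 1) (nat_lit 5) (nat_lit 0) (nat_lit 3) (nat_lit 276) (nat_lit 323) r10_276 r0_323 (nat_lit 0) (nat_lit 0) (nat_lit 9422464) (nat_lit 0x1fade9d48) (nat_lit 283582920),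
  Rx.mk (nat_lit 104) (nat_lit 0) (nat_lit 5) (nat_lit 1) (nat_lit 6) (nat_lit 274) (nat_lit 324) r10_274 r0_324 (nat_lit 11321562) (nat_lit 0) (nat_lit 0) (nat_lit 0x1f9064e3a) (nat_lit 287426518),
  Rx.mk (nat_lit 105) (nat_lit 1) (nat_lit 5) (nat_lit 1) (nat_lit 7) (nat_lit 277) (nat_lit 325) r10_277 r0_325 (nat_lit 0) (nat_lit 0) (nat_lit 0) (nat_lit 0x202f5d6cc) (nat_lit 265708056),
  Rx.mk (nat_lit 168) (nat_lit 0) (nat_lit 5) (nat_lit 2) (nat_lit 6) (nat_lit 275) (nat_lit 326) r10_275 r0_326 (nat_lit 10331000) (nat_lit 0) (nat_lit 0) (nat_lit 0x1f9843af2) (nat_lit 285917906),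
  Rx.mk (nat_lit 169) (nat_lit 1) (nat_lit 5) (nat_lit 2) (nat_lit 7) (nat_lit 278) (nat_lit 327) r10_278 r0_327 (nat_lit 0) (nat_lit 0) (nat_lit 0) (nat_lit 0x20056d4f2) (nat_lit 268435456)]
noncomputable def e28_39 : List Rx := [
  Rx.mk (nat_lit 40) (nat_lit 0) (nat_lit 5) (nat_lit 0) (nat_lit 2) (nat_lit 286) (nat_lit 255) r10_286 r7_255 (nat_lit 3623461) (nat_lit 0) (nat_lit 2412682) (nat_lit 0x1b6a7120e) (nat_lit 352500749),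
  Rx.mk (nat_lit 41) (nat_lit 1) (nat_lit 5) (nat_lit 0) (nat_lit 3) (nat_lit 289) (nat_lit 259) r10_289 r7_259 (nat_lit 0) (nat_lit 0) (nat_lit 5997010) (nat_lit 0x1fd77613e) (nat_lit 277419766),
  Rx.mk (nat_lit 104) (nat_lit 0) (nat_lit 5) (nat_lit 1) (nat_lit 6) (nat_lit 287) (nat_lit 256) r10_287 r7_256 (nat_lit 6317275) (nat_lit 0) (nat_lit 0) (nat_lit 0x201d9ccf8) (nat_lit 273168531),
  Rx.mk (nat_lit 105) (nat_lit 1) (nat_lit 5) (nat_lit 1) (nat_lit 7) (nat_lit 290) (nat_lit 260) r10_290 r7_260 (nat_lit 0) (nat_lit 0) (nat_lit 0) (nat_lit 0x20056d4f2) (nat_lit 268435456),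
  Rx.mk (nat_lit 136) (nat_lit 0) (nat_lit 1) (nat_lit 2) (nat_lit 6) (nat_lit 284) (nat_lit 258) r10_284 r7_258 (nat_lit 10225910) (nat_lit 0) (nat_lit 0) (nat_lit 0x1ff76c8d0) (nat_lit 279572466),
  Rx.mk (nat_lit 137) (nat_lit 1) (nat_lit 1) (nat_lit 2) (nat_lit 7) (nat_lit 285) (nat_lit 262) r10_285 r7_262 (nat_lit 0) (nat_lit 0) (nat_lit 0) (nat_lit 0x20056d4f2) (nat_lit 268435456),
  Rx.mk (nat_lit 168) (nat_lit 0) (nat_lit 5) (nat_lit 2) (nat_lit 6) (nat_lit 288) (nat_lit 257) r10_288 r7_257 (nat_lit 6317275) (nat_lit 0) (nat_lit 0) (nat_lit 0x201d9ccf8) (nat_lit 273168531),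
  Rx.mk (nat_lit 169) (nat_lit 1) (nat_lit 5) (nat_lit 2) (nat_lit 7) (nat_lit 291) (nat_lit 261) r10_291 r7_261 (nat_lit 0) (nat_lit 0) (nat_lit 0) (nat_lit 0x20056d4f2) (nat_lit 268435456)]
noncomputable def e28_40 : List Rx := [
  Rx.mk (nat_lit 105) (nat_lit 1) (nat_lit 5) (nat_lit 1) (nat_lit 7) (nat_lit 323) (nat_lit 354) r10_323 r2_354 (nat_lit 0) (nat_lit 0) (nat_lit 0) (nat_lit 0x20056d4f2) (nat_lit 268435456),
  Rx.mk (nat_lit 109) (nat_lit 5) (nat_lit 5) (nat_lit 1) (nat_lit 7) (nat_lit 324) (nat_lit 355) r10_324 r2_355 (nat_lit 0) (nat_lit 0) (nat_lit 0) (nat_lit 0x20056d4f2) (nat_lit 268435456)]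
noncomputable def e28_41 : List Rx := [
  Rx.mk (nat_lit 105) (nat_lit 1) (nat_lit 5) (nat_lit 1) (nat_lit 7) (nat_lit 329) (nat_lit 317) r10_329 r9_317 (nat_lit 0) (nat_lit 0) (nat_lit 0) (nat_lit 0x20056d4f2) (nat_lit 268435456),
  Rx.mk (nat_lit 109) (nat_lit 5) (nat_lit 5) (nat_lit 1) (nat_lit 7) (nat_lit 330) (nat_lit 318) r10_330 r9_318 (nat_lit 0) (nat_lit 0) (nat_lit 0) (nat_lit 0x20056d4f2) (nat_lit 268435456)]
noncomputable def e28_42 : List Rx := [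
  Rx.mk (nat_lit 105) (nat_lit 1) (nat_lit 5) (nat_lit 1) (nat_lit 7) (nat_lit 331) (nat_lit 318) r10_331 r9_318 (nat_lit 0) (nat_lit 0) (nat_lit 0) (nat_lit 0x20056d4f2) (nat_lit 268435456),
  Rx.mk (nat_lit 109) (nat_lit 5) (nat_lit 5) (nat_lit 1) (nat_lit 7) (nat_lit 332) (nat_lit 317) r10_332 r9_317 (nat_lit 0) (nat_lit 0) (nat_lit 0) (nat_lit 0x20056d4f2) (nat_lit 268435456)]
noncomputable def e28_43 : List Rx := [
  Rx.mk (nat_lit 41) (nat_lit 1) (nat_lit 5) (nat_lit 0) (nat_lit 3) (nat_lit 320) (nat_lit 307) r10_320 r1_307 (nat_lit 0) (nat_lit 0) (nat_lit 8852219) (nat_lit 0x1ee1179aa) (nat_lit 296542475),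
  Rx.mk (nat_lit 105) (nat_lit 1) (nat_lit 5) (nat_lit 1) (nat_lit 7) (nat_lit 321) (nat_lit 308) r10_321 r1_308 (nat_lit 0) (nat_lit 0) (nat_lit 0) (nat_lit 0x20056d4f2) (nat_lit 268435456),
  Rx.mk (nat_lit 169) (nat_lit 1) (nat_lit 5) (nat_lit 2) (nat_lit 7) (nat_lit 322) (nat_lit 309) r10_322 r1_309 (nat_lit 0) (nat_lit 0) (nat_lit 0) (nat_lit 0x20056d4f2) (nat_lit 268435456)]
noncomputable def e28_44 : List Rx := [
  Rx.mk (nat_lit 41) (nat_lit 1) (nat_lit 5) (nat_lit 0) (nat_lit 3) (nat_lit 326) (nat_lit 194) r10_326 r8_194 (nat_lit 0) (nat_lit 0) (nat_lit 9484367) (nat_lit 0x20056d4f2) (nat_lit 277919823),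
  Rx.mk (nat_lit 105) (nat_lit 1) (nat_lit 5) (nat_lit 1) (nat_lit 7) (nat_lit 327) (nat_lit 195) r10_327 r8_195 (nat_lit 0) (nat_lit 0) (nat_lit 0) (nat_lit 0x20056d4f2) (nat_lit 268435456),
  Rx.mk (nat_lit 137) (nat_lit 1) (nat_lit 1) (nat_lit 2) (nat_lit 7) (nat_lit 325) (nat_lit 197) r10_325 r8_197 (nat_lit 0) (nat_lit 0) (nat_lit 0) (nat_lit 0x20056d4f2) (nat_lit 268435456),
  Rx.mk (nat_lit 169) (nat_lit 1) (nat_lit 5) (nat_lit 2) (nat_lit 7) (nat_lit 328) (nat_lit 196) r10_328 r8_196 (nat_lit 0) (nat_lit 0) (nat_lit 0) (nat_lit 0x20056d4f2) (nat_lit 268435456)]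
noncomputable def e28_45 : List Rx := [
  Rx.mk (nat_lit 136) (nat_lit 0) (nat_lit 1) (nat_lit 2) (nat_lit 6) (nat_lit 314) (nat_lit 217) r10_314 r1_217 (nat_lit 58027450) (nat_lit 0) (nat_lit 0) (nat_lit 0x21a734438) (nat_lit 299572206),
  Rx.mk (nat_lit 138) (nat_lit 2) (nat_lit 1) (nat_lit 2) (nat_lit 7) (nat_lit 315) (nat_lit 219) r10_315 r1_219 (nat_lit 0) (nat_lit 0) (nat_lit 0) (nat_lit 0x20a75a3fa) (nat_lit 257956456),
  Rx.mk (nat_lit 139) (nat_lit 3) (nat_lit 1) (nat_lit 2) (nat_lit 7) (nat_lit 316) (nat_lit 218) r10_316 r1_218 (nat_lit 0) (nat_lit 0) (nat_lit 0) (nat_lit 0x202e90604) (nat_lit 265759956)]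
noncomputable def e28_46 : List Rx := [
  Rx.mk (nat_lit 128) (nat_lit 0) (nat_lit 0) (nat_lit 2) (nat_lit 4) (nat_lit 292) (nat_lit 230) r10_292 r2_230 (nat_lit 2754889) (nat_lit 2365106) (nat_lit 0) (nat_lit 0x1b79e19f0) (nat_lit 350541501),
  Rx.mk (nat_lit 130) (nat_lit 2) (nat_lit 0) (nat_lit 2) (nat_lit 5) (nat_lit 293) (nat_lit 235) r10_293 r2_235 (nat_lit 0) (nat_lit 9484367) (nat_lit 0) (nat_lit 0x1ff9e8172) (nat_lit 278669773),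
  Rx.mk (nat_lit 131) (nat_lit 3) (nat_lit 0) (nat_lit 2) (nat_lit 5) (nat_lit 294) (nat_lit 232) r10_294 r2_232 (nat_lit 0) (nat_lit 5285914) (nat_lit 0) (nat_lit 0x2073a5046) (nat_lit 266585770),
  Rx.mk (nat_lit 136) (nat_lit 0) (nat_lit 1) (nat_lit 2) (nat_lit 6) (nat_lit 295) (nat_lit 231) r10_295 r2_231 (nat_lit 9805262) (nat_lit 0) (nat_lit 0) (nat_lit 0x1febed6b2) (nat_lit 279901468),
  Rx.mk (nat_lit 138) (nat_lit 2) (nat_lit 1) (nat_lit 2) (nat_lit 7) (nat_lit 296) (nat_lit 236) r10_296 r2_236 (nat_lit 0) (nat_lit 0) (nat_lit 0) (nat_lit 0x20056d4f2) (nat_lit 268435456),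
  Rx.mk (nat_lit 139) (nat_lit 3) (nat_lit 1) (nat_lit 2) (nat_lit 7) (nat_lit 297) (nat_lit 233) r10_297 r2_233 (nat_lit 0) (nat_lit 0) (nat_lit 0) (nat_lit 0x20056d4f2) (nat_lit 268435456),
  Rx.mk (nat_lit 155) (nat_lit 3) (nat_lit 3) (nat_lit 2) (nat_lit 7) (nat_lit 298) (nat_lit 234) r10_298 r2_234 (nat_lit 0) (nat_lit 0) (nat_lit 0) (nat_lit 0x20056d4f2) (nat_lit 268435456)]
noncomputable def e28_47 : List Rx := [
  Rx.mk (nat_lit 136) (nat_lit 0) (nat_lit 1) (nat_lit 2) (nat_lit 6) (nat_lit 317) (nat_lit 355) r10_317 r8_355 (nat_lit 11260883) (nat_lit 0) (nat_lit 0) (nat_lit 0x1fe865990) (nat_lit 281588039),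
  Rx.mk (nat_lit 137) (nat_lit 1) (nat_lit 1) (nat_lit 2) (nat_lit 7) (nat_lit 318) (nat_lit 356) r10_318 r8_356 (nat_lit 0) (nat_lit 0) (nat_lit 0) (nat_lit 0x20056d4f2) (nat_lit 268435456),
  Rx.mk (nat_lit 138) (nat_lit 2) (nat_lit 1) (nat_lit 2) (nat_lit 7) (nat_lit 319) (nat_lit 357) r10_319 r8_357 (nat_lit 0) (nat_lit 0) (nat_lit 0) (nat_lit 0x20056d4f2) (nat_lit 268435456)]
noncomputable def e28_48 : List Rx := [
  Rx.mk (nat_lit 128) (nat_lit 0) (nat_lit 0) (nat_lit 2) (nat_lit 4) (nat_lit 299) (nat_lit 209) r10_299 r9_209 (nat_lit 11812790) (nat_lit 18196586) (nat_lit 0) (nat_lit 0x199bf684e) (nat_lit 407198282),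
  Rx.mk (nat_lit 130) (nat_lit 2) (nat_lit 0) (nat_lit 2) (nat_lit 5) (nat_lit 300) (nat_lit 212) r10_300 r9_212 (nat_lit 0) (nat_lit 9484367) (nat_lit 0) (nat_lit 0x20056d4f2) (nat_lit 277919823),
  Rx.mk (nat_lit 136) (nat_lit 0) (nat_lit 1) (nat_lit 2) (nat_lit 6) (nat_lit 301) (nat_lit 210) r10_301 r9_210 (nat_lit 9793623) (nat_lit 0) (nat_lit 0) (nat_lit 0x1fffcca48) (nat_lit 278595379),
  Rx.mk (nat_lit 137) (nat_lit 1) (nat_lit 1) (nat_lit 2) (nat_lit 7) (nat_lit 302) (nat_lit 211) r10_302 r9_211 (nat_lit 0) (nat_lit 0) (nat_lit 0) (nat_lit 0x20056d4f2) (nat_lit 268435456),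
  Rx.mk (nat_lit 138) (nat_lit 2) (nat_lit 1) (nat_lit 2) (nat_lit 7) (nat_lit 303) (nat_lit 213) r10_303 r9_213 (nat_lit 0) (nat_lit 0) (nat_lit 0) (nat_lit 0x20056d4f2) (nat_lit 268435456)]
noncomputable def e28_49 : List Rx := [
  Rx.mk (nat_lit 128) (nat_lit 0) (nat_lit 0) (nat_lit 2) (nat_lit 4) (nat_lit 304) (nat_lit 136) r10_304 r9_136 (nat_lit 10859836) (nat_lit 18297468) (nat_lit 0) (nat_lit 0x18a1becbe) (nat_lit 422951410),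
  Rx.mk (nat_lit 130) (nat_lit 2) (nat_lit 0) (nat_lit 2) (nat_lit 5) (nat_lit 305) (nat_lit 141) r10_305 r9_141 (nat_lit 0) (nat_lit 9484367) (nat_lit 0) (nat_lit 0x1fe9978ae) (nat_lit 279734173),
  Rx.mk (nat_lit 131) (nat_lit 3) (nat_lit 0) (nat_lit 2) (nat_lit 5) (nat_lit 307) (nat_lit 138) r10_307 r9_138 (nat_lit 0) (nat_lit 9325504) (nat_lit 0) (nat_lit 0x1feec417e) (nat_lit 279237760),
  Rx.mk (nat_lit 136) (nat_lit 0) (nat_lit 1) (nat_lit 2) (nat_lit 6) (nat_lit 308) (nat_lit 137) r10_308 r9_137 (nat_lit 11205477) (nat_lit 0) (nat_lit 0) (nat_lit 0x1fe9e5b26) (nat_lit 281435233),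
  Rx.mk (nat_lit 138) (nat_lit 2) (nat_lit 1) (nat_lit 2) (nat_lit 7) (nat_lit 309) (nat_lit 142) r10_309 r9_142 (nat_lit 0) (nat_lit 0) (nat_lit 0) (nat_lit 0x20056d4f2) (nat_lit 268435456),
  Rx.mk (nat_lit 139) (nat_lit 3) (nat_lit 1) (nat_lit 2) (nat_lit 7) (nat_lit 311) (nat_lit 139) r10_311 r9_139 (nat_lit 0) (nat_lit 0) (nat_lit 0) (nat_lit 0x20056d4f2) (nat_lit 268435456),
  Rx.mk (nat_lit 155) (nat_lit 3) (nat_lit 3) (nat_lit 2) (nat_lit 7) (nat_lit 313) (nat_lit 140) r10_313 r9_140 (nat_lit 0) (nat_lit 0) (nat_lit 0) (nat_lit 0x20056d4f2) (nat_lit 268435456),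
  Rx.mk (nat_lit 386) (nat_lit 2) (nat_lit 0) (nat_lit 6) (nat_lit 5) (nat_lit 306) (nat_lit 143) r10_306 r9_143 (nat_lit 0) (nat_lit 9484367) (nat_lit 0) (nat_lit 0x1fe0f9b52) (nat_lit 280290373),
  Rx.mk (nat_lit 394) (nat_lit 2) (nat_lit 1) (nat_lit 6) (nat_lit 7) (nat_lit 310) (nat_lit 144) r10_310 r9_144 (nat_lit 0) (nat_lit 0) (nat_lit 0) (nat_lit 0x20056d4f2) (nat_lit 268435456),
  Rx.mk (nat_lit 402) (nat_lit 2) (nat_lit 2) (nat_lit 6) (nat_lit 7) (nat_lit 312) (nat_lit 145) r10_312 r9_145 (nat_lit 0) (nat_lit 0) (nat_lit 0) (nat_lit 0x20056d4f2) (nat_lit 268435456)]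
noncomputable def e28_50 : List Rx := [
  Rx.mk (nat_lit 40) (nat_lit 0) (nat_lit 5) (nat_lit 0) (nat_lit 2) (nat_lit 333) (nat_lit 180) r10_333 r3_180 (nat_lit 22038) (nat_lit 0) (nat_lit 28184) (nat_lit 0x19f3c35a4) (nat_lit 371241528),
  Rx.mk (nat_lit 43) (nat_lit 3) (nat_lit 5) (nat_lit 0) (nat_lit 3) (nat_lit 336) (nat_lit 183) r10_336 r3_183 (nat_lit 0) (nat_lit 0) (nat_lit 117878) (nat_lit 0x21410723c) (nat_lit 248064234),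
  Rx.mk (nat_lit 104) (nat_lit 0) (nat_lit 5) (nat_lit 1) (nat_lit 6) (nat_lit 334) (nat_lit 181) r10_334 r3_181 (nat_lit 9858675) (nat_lit 0) (nat_lit 0) (nat_lit 0x1ee4c0a34) (nat_lit 297282781),
  Rx.mk (nat_lit 107) (nat_lit 3) (nat_lit 5) (nat_lit 1) (nat_lit 7) (nat_lit 337) (nat_lit 184) r10_337 r3_184 (nat_lit 0) (nat_lit 0) (nat_lit 0) (nat_lit 0x241a52c38) (nat_lit 201440206),
  Rx.mk (nat_lit 168) (nat_lit 0) (nat_lit 5) (nat_lit 2) (nat_lit 6) (nat_lit 335) (nat_lit 182) r10_335 r3_182 (nat_lit 10913577) (nat_lit 0) (nat_lit 0) (nat_lit 0x1f00f05c4) (nat_lit 296487483),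
  Rx.mk (nat_lit 171) (nat_lit 3) (nat_lit 5) (nat_lit 2) (nat_lit 7) (nat_lit 338) (nat_lit 185) r10_338 r3_185 (nat_lit 0) (nat_lit 0) (nat_lit 0) (nat_lit 0x24372f78e) (nat_lit 199595806)]
noncomputable def e28_51 : List Rx := [
  Rx.mk (nat_lit 40) (nat_lit 0) (nat_lit 5) (nat_lit 0) (nat_lit 2) (nat_lit 351) (nat_lit 181) r10_351 r4_181 (nat_lit 8432825) (nat_lit 0) (nat_lit 2605608) (nat_lit 0x17532ea0a) (nat_lit 427006439),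
  Rx.mk (nat_lit 43) (nat_lit 3) (nat_lit 5) (nat_lit 0) (nat_lit 3) (nat_lit 354) (nat_lit 184) r10_354 r4_184 (nat_lit 0) (nat_lit 0) (nat_lit 2776969) (nat_lit 0x1ed7bc590) (nat_lit 291044925),
  Rx.mk (nat_lit 104) (nat_lit 0) (nat_lit 5) (nat_lit 1) (nat_lit 6) (nat_lit 352) (nat_lit 182) r10_352 r4_182 (nat_lit 7691568) (nat_lit 0) (nat_lit 0) (nat_lit 0x205c40dba) (nat_lit 270495974),
  Rx.mk (nat_lit 107) (nat_lit 3) (nat_lit 5) (nat_lit 1) (nat_lit 7) (nat_lit 355) (nat_lit 185) r10_355 r4_185 (nat_lit 0) (nat_lit 0) (nat_lit 0) (nat_lit 0x2104890bc) (nat_lit 251988106),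
  Rx.mk (nat_lit 139) (nat_lit 3) (nat_lit 1) (nat_lit 2) (nat_lit 7) (nat_lit 350) (nat_lit 187) r10_350 r4_187 (nat_lit 0) (nat_lit 0) (nat_lit 0) (nat_lit 0x20542d5ec) (nat_lit 263324306),
  Rx.mk (nat_lit 168) (nat_lit 0) (nat_lit 5) (nat_lit 2) (nat_lit 6) (nat_lit 353) (nat_lit 183) r10_353 r4_183 (nat_lit 7650699) (nat_lit 0) (nat_lit 0) (nat_lit 0x1fef4329e) (nat_lit 277519855),
  Rx.mk (nat_lit 171) (nat_lit 3) (nat_lit 5) (nat_lit 2) (nat_lit 7) (nat_lit 356) (nat_lit 186) r10_356 r4_186 (nat_lit 0) (nat_lit 0) (nat_lit 0) (nat_lit 0x2104890bc) (nat_lit 251988106)]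
noncomputable def e28_52 : List Rx := [
  Rx.mk (nat_lit 40) (nat_lit 0) (nat_lit 5) (nat_lit 0) (nat_lit 2) (nat_lit 369) (nat_lit 197) r10_369 r5_197 (nat_lit 7751834) (nat_lit 0) (nat_lit 2115614) (nat_lit 0x1caf6c47a) (nat_lit 334773104),
  Rx.mk (nat_lit 43) (nat_lit 3) (nat_lit 5) (nat_lit 0) (nat_lit 3) (nat_lit 371) (nat_lit 199) r10_371 r5_199 (nat_lit 0) (nat_lit 0) (nat_lit 2593846) (nat_lit 0x20984c2c8) (nat_lit 261503202),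
  Rx.mk (nat_lit 168) (nat_lit 0) (nat_lit 5) (nat_lit 2) (nat_lit 6) (nat_lit 370) (nat_lit 198) r10_370 r5_198 (nat_lit 9484367) (nat_lit 0) (nat_lit 0) (nat_lit 0x20056d4f2) (nat_lit 277919823),
  Rx.mk (nat_lit 171) (nat_lit 3) (nat_lit 5) (nat_lit 2) (nat_lit 7) (nat_lit 372) (nat_lit 201) r10_372 r5_201 (nat_lit 0) (nat_lit 0) (nat_lit 0) (nat_lit 0x20ab8a45c) (nat_lit 257698456),
  Rx.mk (nat_lit 235) (nat_lit 3) (nat_lit 5) (nat_lit 3) (nat_lit 7) (nat_lit 373) (nat_lit 200) r10_373 r5_200 (nat_lit 0) (nat_lit 0) (nat_lit 0) (nat_lit 0x20056d4f2) (nat_lit 268435456)]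
noncomputable def e28_53 : List Rx := [
  Rx.mk (nat_lit 40) (nat_lit 0) (nat_lit 5) (nat_lit 0) (nat_lit 2) (nat_lit 339) (nat_lit 355) r10_339 r4_355 (nat_lit 9177885) (nat_lit 0) (nat_lit 11803392) (nat_lit 0x1c1522bbc) (nat_lit 356144783),
  Rx.mk (nat_lit 41) (nat_lit 1) (nat_lit 5) (nat_lit 0) (nat_lit 3) (nat_lit 342) (nat_lit 356) r10_342 r4_356 (nat_lit 0) (nat_lit 0) (nat_lit 9484367) (nat_lit 0x20056d4f2) (nat_lit 277919823),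
  Rx.mk (nat_lit 43) (nat_lit 3) (nat_lit 5) (nat_lit 0) (nat_lit 3) (nat_lit 345) (nat_lit 357) r10_345 r4_357 (nat_lit 0) (nat_lit 0) (nat_lit 7299409) (nat_lit 0x201db5762) (nat_lit 274149815),
  Rx.mk (nat_lit 104) (nat_lit 0) (nat_lit 5) (nat_lit 1) (nat_lit 6) (nat_lit 340) (nat_lit 358) r10_340 r4_358 (nat_lit 6732829) (nat_lit 0) (nat_lit 0) (nat_lit 0x2042a019e) (nat_lit 271193535),
  Rx.mk (nat_lit 105) (nat_lit 1) (nat_lit 5) (nat_lit 1) (nat_lit 7) (nat_lit 343) (nat_lit 359) r10_343 r4_359 (nat_lit 0) (nat_lit 0) (nat_lit 0) (nat_lit 0x20056d4f2) (nat_lit 268435456),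
  Rx.mk (nat_lit 107) (nat_lit 3) (nat_lit 5) (nat_lit 1) (nat_lit 7) (nat_lit 346) (nat_lit 360) r10_346 r4_360 (nat_lit 0) (nat_lit 0) (nat_lit 0) (nat_lit 0x20056d4f2) (nat_lit 268435456),
  Rx.mk (nat_lit 168) (nat_lit 0) (nat_lit 5) (nat_lit 2) (nat_lit 6) (nat_lit 341) (nat_lit 361) r10_341 r4_361 (nat_lit 9484367) (nat_lit 0) (nat_lit 0) (nat_lit 0x2043d17e8) (nat_lit 273866873),
  Rx.mk (nat_lit 169) (nat_lit 1) (nat_lit 5) (nat_lit 2) (nat_lit 7) (nat_lit 344) (nat_lit 362) r10_344 r4_362 (nat_lit 0) (nat_lit 0) (nat_lit 0) (nat_lit 0x20056d4f2) (nat_lit 268435456)]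
noncomputable def e28_54 : List Rx := [
  Rx.mk (nat_lit 40) (nat_lit 0) (nat_lit 5) (nat_lit 0) (nat_lit 2) (nat_lit 357) (nat_lit 198) r10_357 r10_198 (nat_lit 1983755) (nat_lit 0) (nat_lit 1983755) (nat_lit 0x1b2e4b202) (nat_lit 354440066),
  Rx.mk (nat_lit 41) (nat_lit 1) (nat_lit 5) (nat_lit 0) (nat_lit 3) (nat_lit 360) (nat_lit 201) r10_360 r10_201 (nat_lit 0) (nat_lit 0) (nat_lit 9484367) (nat_lit 0x20056d4f2) (nat_lit 277919823),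
  Rx.mk (nat_lit 43) (nat_lit 3) (nat_lit 5) (nat_lit 0) (nat_lit 3) (nat_lit 363) (nat_lit 204) r10_363 r10_204 (nat_lit 0) (nat_lit 0) (nat_lit 9484367) (nat_lit 0x20056d4f2) (nat_lit 277919823),
  Rx.mk (nat_lit 104) (nat_lit 0) (nat_lit 5) (nat_lit 1) (nat_lit 6) (nat_lit 358) (nat_lit 199) r10_358 r10_199 (nat_lit 9484367) (nat_lit 0) (nat_lit 0) (nat_lit 0x20056d4f2) (nat_lit 277919823),
  Rx.mk (nat_lit 105) (nat_lit 1) (nat_lit 5) (nat_lit 1) (nat_lit 7) (nat_lit 361) (nat_lit 202) r10_361 r10_202 (nat_lit 0) (nat_lit 0) (nat_lit 0) (nat_lit 0x20056d4f2) (nat_lit 268435456),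
  Rx.mk (nat_lit 107) (nat_lit 3) (nat_lit 5) (nat_lit 1) (nat_lit 7) (nat_lit 364) (nat_lit 205) r10_364 r10_205 (nat_lit 0) (nat_lit 0) (nat_lit 0) (nat_lit 0x20056d4f2) (nat_lit 268435456),
  Rx.mk (nat_lit 168) (nat_lit 0) (nat_lit 5) (nat_lit 2) (nat_lit 6) (nat_lit 359) (nat_lit 200) r10_359 r10_200 (nat_lit 9484367) (nat_lit 0) (nat_lit 0) (nat_lit 0x20056d4f2) (nat_lit 277919823),
  Rx.mk (nat_lit 169) (nat_lit 1) (nat_lit 5) (nat_lit 2) (nat_lit 7) (nat_lit 362) (nat_lit 203) r10_362 r10_203 (nat_lit 0) (nat_lit 0) (nat_lit 0) (nat_lit 0x20056d4f2) (nat_lit 268435456)]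
noncomputable def e28_55 : List Rx := [
  Rx.mk (nat_lit 40) (nat_lit 0) (nat_lit 5) (nat_lit 0) (nat_lit 2) (nat_lit 374) (nat_lit 230) r10_374 r11_230 (nat_lit 22785138) (nat_lit 0) (nat_lit 8625288) (nat_lit 0x1fba8cb7c) (nat_lit 304735382),
  Rx.mk (nat_lit 41) (nat_lit 1) (nat_lit 5) (nat_lit 0) (nat_lit 3) (nat_lit 376) (nat_lit 232) r10_376 r11_232 (nat_lit 0) (nat_lit 0) (nat_lit 9484367) (nat_lit 0x20056d4f2) (nat_lit 277919823),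
  Rx.mk (nat_lit 43) (nat_lit 3) (nat_lit 5) (nat_lit 0) (nat_lit 3) (nat_lit 378) (nat_lit 234) r10_378 r11_234 (nat_lit 0) (nat_lit 0) (nat_lit 9484367) (nat_lit 0x20056d4f2) (nat_lit 277919823),
  Rx.mk (nat_lit 168) (nat_lit 0) (nat_lit 5) (nat_lit 2) (nat_lit 6) (nat_lit 375) (nat_lit 231) r10_375 r11_231 (nat_lit 9484367) (nat_lit 0) (nat_lit 0) (nat_lit 0x20056d4f2) (nat_lit 277919823),
  Rx.mk (nat_lit 169) (nat_lit 1) (nat_lit 5) (nat_lit 2) (nat_lit 7) (nat_lit 377) (nat_lit 233) r10_377 r11_233 (nat_lit 0) (nat_lit 0) (nat_lit 0) (nat_lit 0x20056d4f2) (nat_lit 268435456),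
  Rx.mk (nat_lit 235) (nat_lit 3) (nat_lit 5) (nat_lit 3) (nat_lit 7) (nat_lit 379) (nat_lit 235) r10_379 r11_235 (nat_lit 0) (nat_lit 0) (nat_lit 0) (nat_lit 0x20056d4f2) (nat_lit 268435456)]
noncomputable def e28_56 : List Rx := [
  Rx.mk (nat_lit 43) (nat_lit 3) (nat_lit 5) (nat_lit 0) (nat_lit 3) (nat_lit 347) (nat_lit 307) r10_347 r5_307 (nat_lit 0) (nat_lit 0) (nat_lit 3329919) (nat_lit 0x1ffcb0cec) (nat_lit 272305225),
  Rx.mk (nat_lit 107) (nat_lit 3) (nat_lit 5) (nat_lit 1) (nat_lit 7) (nat_lit 348) (nat_lit 308) r10_348 r5_308 (nat_lit 0) (nat_lit 0) (nat_lit 0) (nat_lit 0x20a492d52) (nat_lit 258146656),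
  Rx.mk (nat_lit 171) (nat_lit 3) (nat_lit 5) (nat_lit 2) (nat_lit 7) (nat_lit 349) (nat_lit 309) r10_349 r5_309 (nat_lit 0) (nat_lit 0) (nat_lit 0) (nat_lit 0x20a487aa6) (nat_lit 258149456)]
noncomputable def e28_57 : List Rx := [
  Rx.mk (nat_lit 43) (nat_lit 3) (nat_lit 5) (nat_lit 0) (nat_lit 3) (nat_lit 366) (nat_lit 361) r10_366 r11_361 (nat_lit 0) (nat_lit 0) (nat_lit 3853892) (nat_lit 0x209f64bdc) (nat_lit 262322098),
  Rx.mk (nat_lit 107) (nat_lit 3) (nat_lit 5) (nat_lit 1) (nat_lit 7) (nat_lit 367) (nat_lit 362) r10_367 r11_362 (nat_lit 0) (nat_lit 0) (nat_lit 0) (nat_lit 0x20b95852a) (nat_lit 256813656),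
  Rx.mk (nat_lit 139) (nat_lit 3) (nat_lit 1) (nat_lit 2) (nat_lit 7) (nat_lit 365) (nat_lit 360) r10_365 r11_360 (nat_lit 0) (nat_lit 0) (nat_lit 0) (nat_lit 0x20056d4f2) (nat_lit 268435456),
  Rx.mk (nat_lit 171) (nat_lit 3) (nat_lit 5) (nat_lit 2) (nat_lit 7) (nat_lit 368) (nat_lit 363) r10_368 r11_363 (nat_lit 0) (nat_lit 0) (nat_lit 0) (nat_lit 0x20b95852a) (nat_lit 256813656)]
noncomputable def e28 : List (List Rx) := [e28_0, e28_1, e28_2, e28_3, e28_4, e28_5, e28_6, e28_7, e28_8, e28_9, e28_10, e28_11, e28_12, e28_13, e28_14, e28_15, e28_16, e28_17, e28_18, e28_19, e28_20, e28_21, e28_22, e28_23, e28_24, e28_25, e28_26, e28_27, e28_28, e28_29, e28_30, e28_31, e28_32, e28_33, e28_34, e28_35, e28_36, e28_37, e28_38, e28_39, e28_40, e28_41, e28_42, e28_43, e28_44, e28_45, e28_46, e28_47, e28_48, e28_49, e28_50, e28_51, e28_52, e28_53, e28_54, e28_55,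 e28_56, e28_57]

end Pool.Agent.AKXS_36_42_VA
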