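import Pool.Agent.AKXS_36_42_VA.R0
import Pool.Agent.AKXS_36_42_VA.R1
import Pool.Agent.AKXS_36_42_VA.R2
import Pool.Agent.AKXS_36_42_VA.R3
import Pool.Agent.AKXS_36_42_VA.R4
import Pool.Agent.AKXS_36_42_VA.R5
import Pool.Agent.AKXS_36_42_VA.R6
import Pool.Agent.AKXS_36_42_VA.R7
import Pool.Agent.AKXS_36_42_VA.R8
import Pool.Agent.AKXS_36_42_VA.R9
import Pool.Agent.AKXS_36_42_VA.R10
import Pool.Agent.AKXS_36_42_VA.R11
import Pool.Agent.AKXS_36_42_VA.R12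

set_option autoImplicit false

namespace Pool.Agent.AKXS_36_42_VA

open Pool.Agent.AKX Pool.Agent.AKU

noncomputable def e35_0 : List Rx := [
  Rx.mk (nat_lit 6) (nat_lit 6) (nat_lit 0) (nat_lit 0) (nat_lit 1) (nat_lit 171) (nat_lit 232) r6_171 r0_232 (nat_lit 0) (nat_lit 60415) (nat_lit 38610) (nat_lit 0x1ce8ca2c6) (nat_lit 321056381),
  Rx.mk (nat_lit 20) (nat_lit 4) (nat_lit 2) (nat_lit 0) (nat_lit 2) (nat_lit 173) (nat_lit 228) r6_173 r0_228 (nat_lit 15494) (nat_lit 0) (nat_lit 16044) (nat_lit 0x1b76dfdd8) (nat_lit 345529294),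
  Rx.mk (nat_lit 22) (nat_lit 6) (nat_lit 2) (nat_lit 0) (nat_lit 3) (nat_lit 174) (nat_lit 234) r6_174 r0_234 (nat_lit 0) (nat_lit 0) (nat_lit 2963373) (nat_lit 0x207a0588c) (nat_lit 263834079),
  Rx.mk (nat_lit 70) (nat_lit 6) (nat_lit 0) (nat_lit 1) (nat_lit 5) (nat_lit 172) (nat_lit 233) r6_172 r0_233 (nat_lit 0) (nat_lit 131306) (nat_lit 0) (nat_lit 0x22f04eb90) (nat_lit 220495462),
  Rx.mk (nat_lit 84) (nat_lit 4) (nat_lit 2) (nat_lit 1) (nat_lit 6) (nat_lit 175) (nat_lit 229) r6_175 r0_229 (nat_lit 976590) (nat_lit 0) (nat_lit 0) (nat_lit 0x234d34814) (nat_lit 215456696),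
  Rx.mk (nat_lit 86) (nat_lit 6) (nat_lit 2) (nat_lit 1) (nat_lit 7) (nat_lit 176) (nat_lit 235) r6_176 r0_235 (nat_lit 0) (nat_lit 0) (nat_lit 0) (nat_lit 0x2506d06b4) (nat_lit 186321856),
  Rx.mk (nat_lit 148) (nat_lit 4) (nat_lit 2) (nat_lit 2) (nat_lit 6) (nat_lit 177) (nat_lit 230) r6_177 r0_230 (nat_lit 3977399) (nat_lit 0) (nat_lit 0) (nat_lit 0x1d9bca592) (nat_lit 313213855),
  Rx.mk (nat_lit 180) (nat_lit 4) (nat_lit 6) (nat_lit 2) (nat_lit 6) (nat_lit 170) (nat_lit 231) r6_170 r0_231 (nat_lit 2529310) (nat_lit 0) (nat_lit 0) (nat_lit 0x1e4d6bdfa) (nat_lit 299976366)]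
noncomputable def e35_1 : List Rx := [
  Rx.mk (nat_lit 70) (nat_lit 6) (nat_lit 0) (nat_lit 1) (nat_lit 5) (nat_lit 178) (nat_lit 247) r6_178 r1_247 (nat_lit 0) (nat_lit 603204) (nat_lit 0) (nat_lit 0x214e18854) (nat_lit 247758010),
  Rx.mk (nat_lit 84) (nat_lit 4) (nat_lit 2) (nat_lit 1) (nat_lit 6) (nat_lit 179) (nat_lit 246) r6_179 r1_246 (nat_lit 1926974) (nat_lit 0) (nat_lit 0) (nat_lit 0x22142ee30) (nat_lit 236462830),
  Rx.mk (nat_lit 86) (nat_lit 6) (nat_lit 2) (nat_lit 1) (nat_lit 7) (nat_lit 180) (nat_lit 248) r6_180 r1_248 (nat_lit 0) (nat_lit 0) (nat_lit 0) (nat_lit 0x2545a608c) (nat_lit 182309556)]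
noncomputable def e35_2 : List Rx := [
  Rx.mk (nat_lit 70) (nat_lit 6) (nat_lit 0) (nat_lit 1) (nat_lit 5) (nat_lit 307) (nat_lit 269) r6_307 r2_269 (nat_lit 0) (nat_lit 9484367) (nat_lit 0) (nat_lit 0x1f845577a) (nat_lit 286381923),
  Rx.mk (nat_lit 84) (nat_lit 4) (nat_lit 2) (nat_lit 1) (nat_lit 6) (nat_lit 308) (nat_lit 268) r6_308 r2_268 (nat_lit 10188298) (nat_lit 0) (nat_lit 0) (nat_lit 0x1fc8c4b22) (nat_lit 282587704),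
  Rx.mk (nat_lit 86) (nat_lit 6) (nat_lit 2) (nat_lit 1) (nat_lit 7) (nat_lit 309) (nat_lit 271) r6_309 r2_271 (nat_lit 0) (nat_lit 0) (nat_lit 0) (nat_lit 0x20056d4f2) (nat_lit 268435456),
  Rx.mk (nat_lit 326) (nat_lit 6) (nat_lit 0) (nat_lit 5) (nat_lit 5) (nat_lit 306) (nat_lit 270) r6_306 r2_270 (nat_lit 0) (nat_lit 10510343) (nat_lit 0) (nat_lit 0x1f8bf4256) (nat_lit 286894199)]
noncomputable def e35_3 : List Rx := [
  Rx.mk (nat_lit 20) (nat_lit 4) (nat_lit 2) (nat_lit 0) (nat_lit 2) (nat_lit 44) (nat_lit 227) r6_44 r3_227 (nat_lit 488) (nat_lit 0) (nat_lit 663) (nat_lit 0x1fffeebde) (nat_lit 268441307),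
  Rx.mk (nat_lit 22) (nat_lit 6) (nat_lit 2) (nat_lit 0) (nat_lit 3) (nat_lit 45) (nat_lit 233) r6_45 r3_233 (nat_lit 0) (nat_lit 0) (nat_lit 425539) (nat_lit 0x1f9642abe) (nat_lit 275966895),
  Rx.mk (nat_lit 148) (nat_lit 4) (nat_lit 2) (nat_lit 2) (nat_lit 6) (nat_lit 46) (nat_lit 229) r6_46 r3_229 (nat_lit 102676) (nat_lit 0) (nat_lit 0) (nat_lit 0x1ff4ce4f2) (nat_lit 269322382),
  Rx.mk (nat_lit 180) (nat_lit 4) (nat_lit 6) (nat_lit 2) (nat_lit 6) (nat_lit 41) (nat_lit 230) r6_41 r3_230 (nat_lit 42529) (nat_lit 0) (nat_lit 0) (nat_lit 0x20054727a) (nat_lit 268160185),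
  Rx.mk (nat_lit 183) (nat_lit 7) (nat_lit 6) (nat_lit 2) (nat_lit 7) (nat_lit 42) (nat_lit 231) r6_42 r3_231 (nat_lit 0) (nat_lit 0) (nat_lit 0) (nat_lit 0x1feaffbc4) (nat_lit 269987556),
  Rx.mk (nat_lit 198) (nat_lit 6) (nat_lit 0) (nat_lit 3) (nat_lit 5) (nat_lit 43) (nat_lit 232) r6_43 r3_232 (nat_lit 0) (nat_lit 48302) (nat_lit 0) (nat_lit 0x1fe7cb0de) (nat_lit 270097708),
  Rx.mk (nat_lit 212) (nat_lit 4) (nat_lit 2) (nat_lit 3) (nat_lit 6) (nat_lit 47) (nat_lit 228) r6_47 r3_228 (nat_lit 35776) (nat_lit 0) (nat_lit 0) (nat_lit 0x200c86f04) (nat_lit 267688682),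
  Rx.mk (nat_lit 214) (nat_lit 6) (nat_lit 2) (nat_lit 3) (nat_lit 7) (nat_lit 48) (nat_lit 234) r6_48 r3_234 (nat_lit 0) (nat_lit 0) (nat_lit 0) (nat_lit 0x232241a80) (nat_lit 217286506)]
noncomputable def e35_4 : List Rx := [
  Rx.mk (nat_lit 6) (nat_lit 6) (nat_lit 0) (nat_lit 0) (nat_lit 1) (nat_lit 183) (nat_lit 235) r6_183 r4_235 (nat_lit 0) (nat_lit 6730) (nat_lit 4468) (nat_lit 0x1dc711886) (nat_lit 306205804),
  Rx.mk (nat_lit 20) (nat_lit 4) (nat_lit 2) (nat_lit 0) (nat_lit 2) (nat_lit 186) (nat_lit 229) r6_186 r4_229 (nat_lit 34287) (nat_lit 0) (nat_lit 28185) (nat_lit 0x1dae6e1a8) (nat_lit 307898128),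
  Rx.mk (nat_lit 22) (nat_lit 6) (nat_lit 2) (nat_lit 0) (nat_lit 3) (nat_lit 187) (nat_lit 238) r6_187 r4_238 (nat_lit 0) (nat_lit 0) (nat_lit 1951987) (nat_lit 0x20331c8da) (nat_lit 267370243),
  Rx.mk (nat_lit 70) (nat_lit 6) (nat_lit 0) (nat_lit 1) (nat_lit 5) (nat_lit 184) (nat_lit 236) r6_184 r4_236 (nat_lit 0) (nat_lit 6773533) (nat_lit 0) (nat_lit 0x2033b14e4) (nat_lit 272200839),
  Rx.mk (nat_lit 84) (nat_lit 4) (nat_lit 2) (nat_lit 1) (nat_lit 6) (nat_lit 188) (nat_lit 230) r6_188 r4_230 (nat_lit 4940583) (nat_lit 0) (nat_lit 0) (nat_lit 0x207c65776) (nat_lit 265672239),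
  Rx.mk (nat_lit 86) (nat_lit 6) (nat_lit 2) (nat_lit 1) (nat_lit 7) (nat_lit 189) (nat_lit 239) r6_189 r4_239 (nat_lit 0) (nat_lit 0) (nat_lit 0) (nat_lit 0x2116200aa) (nat_lit 250859506),
  Rx.mk (nat_lit 148) (nat_lit 4) (nat_lit 2) (nat_lit 2) (nat_lit 6) (nat_lit 190) (nat_lit 232) r6_190 r4_232 (nat_lit 4488278) (nat_lit 0) (nat_lit 0) (nat_lit 0x1fc7820a2) (nat_lit 276951634),
  Rx.mk (nat_lit 180) (nat_lit 4) (nat_lit 6) (nat_lit 2) (nat_lit 6) (nat_lit 181) (nat_lit 233) r6_181 r4_233 (nat_lit 5598281) (nat_lit 0) (nat_lit 0) (nat_lit 0x1e289abde) (nat_lit 305500037),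
  Rx.mk (nat_lit 183) (nat_lit 7) (nat_lit 6) (nat_lit 2) (nat_lit 7) (nat_lit 182) (nat_lit 234) r6_182 r4_234 (nat_lit 0) (nat_lit 0) (nat_lit 0) (nat_lit 0x1fa41fd80) (nat_lit 274732506),
  Rx.mk (nat_lit 198) (nat_lit 6) (nat_lit 0) (nat_lit 3) (nat_lit 5) (nat_lit 185) (nat_lit 237) r6_185 r4_237 (nat_lit 0) (nat_lit 2212669) (nat_lit 0) (nat_lit 0x2071e303c) (nat_lit 263588475),
  Rx.mk (nat_lit 212) (nat_lit 4) (nat_lit 2) (nat_lit 3) (nat_lit 6) (nat_lit 191) (nat_lit 231) r6_191 r4_231 (nat_lit 4487931) (nat_lit 0) (nat_lit 0) (nat_lit 0x209dd549c) (nat_lit 263067837),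
  Rx.mk (nat_lit 214) (nat_lit 6) (nat_lit 2) (nat_lit 3) (nat_lit 7) (nat_lit 192) (nat_lit 240) r6_192 r4_240 (nat_lit 0) (nat_lit 0) (nat_lit 0) (nat_lit 0x212e4ad7e) (nat_lit 249311106)]
noncomputable def e35_5 : List Rx := [
  Rx.mk (nat_lit 198) (nat_lit 6) (nat_lit 0) (nat_lit 3) (nat_lit 5) (nat_lit 251) (nat_lit 243) r6_251 r5_243 (nat_lit 0) (nat_lit 16479) (nat_lit 0) (nat_lit 0x2253768b8) (nat_lit 230382735),
  Rx.mk (nat_lit 212) (nat_lit 4) (nat_lit 2) (nat_lit 3) (nat_lit 6) (nat_lit 252) (nat_lit 242) r6_252 r5_242 (nat_lit 198228) (nat_lit 0) (nat_lit 0) (nat_lit 0x214454a52) (nat_lit 247939134),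
  Rx.mk (nat_lit 214) (nat_lit 6) (nat_lit 2) (nat_lit 3) (nat_lit 7) (nat_lit 253) (nat_lit 244) r6_253 r5_244 (nat_lit 0) (nat_lit 0) (nat_lit 0) (nat_lit 0x212b5caea) (nat_lit 249433356)]
noncomputable def e35_6 : List Rx := [
  Rx.mk (nat_lit 258) (nat_lit 2) (nat_lit 0) (nat_lit 4) (nat_lit 1) (nat_lit 323) (nat_lit 219) r6_323 r3_219 (nat_lit 0) (nat_lit 1498) (nat_lit 1239) (nat_lit 0x1fffe6984) (nat_lit 268445493),
  Rx.mk (nat_lit 262) (nat_lit 6) (nat_lit 0) (nat_lit 4) (nat_lit 1) (nat_lit 322) (nat_lit 217) r6_322 r3_217 (nat_lit 0) (nat_lit 1239) (nat_lit 1498) (nat_lit 0x1fffe6984) (nat_lit 268445493),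
  Rx.mk (nat_lit 282) (nat_lit 2) (nat_lit 3) (nat_lit 4) (nat_lit 3) (nat_lit 325) (nat_lit 220) r6_325 r3_220 (nat_lit 0) (nat_lit 0) (nat_lit 7726) (nat_lit 0x1fff388e8) (nat_lit 268499082),
  Rx.mk (nat_lit 454) (nat_lit 6) (nat_lit 0) (nat_lit 7) (nat_lit 5) (nat_lit 324) (nat_lit 218) r6_324 r3_218 (nat_lit 0) (nat_lit 7726) (nat_lit 0) (nat_lit 0x1fff388e8) (nat_lit 268499082)]
noncomputable def e35_7 : List Rx := [
  Rx.mk (nat_lit 322) (nat_lit 2) (nat_lit 0) (nat_lit 5) (nat_lit 5) (nat_lit 277) (nat_lit 223) r6_277 r0_223 (nat_lit 0) (nat_lit 11115543) (nat_lit 0) (nat_lit 0x1fdae8574) (nat_lit 282223849),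
  Rx.mk (nat_lit 326) (nat_lit 6) (nat_lit 0) (nat_lit 5) (nat_lit 5) (nat_lit 276) (nat_lit 222) r6_276 r0_222 (nat_lit 0) (nat_lit 6622) (nat_lit 0) (nat_lit 0x241d4916c) (nat_lit 201098578)]
noncomputable def e35_8 : List Rx := [
  Rx.mk (nat_lit 322) (nat_lit 2) (nat_lit 0) (nat_lit 5) (nat_lit 5) (nat_lit 305) (nat_lit 241) r6_305 r1_241 (nat_lit 0) (nat_lit 9819301) (nat_lit 0) (nat_lit 0x210ca9f76) (nat_lit 261242507),
  Rx.mk (nat_lit 326) (nat_lit 6) (nat_lit 0) (nat_lit 5) (nat_lit 5) (nat_lit 304) (nat_lit 240) r6_304 r1_240 (nat_lit 0) (nat_lit 31922) (nat_lit 0) (nat_lit 0x20e6230aa) (nat_lit 253759128)]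
noncomputable def e35_9 : List Rx := [
  Rx.mk (nat_lit 258) (nat_lit 2) (nat_lit 0) (nat_lit 4) (nat_lit 1) (nat_lit 327) (nat_lit 220) r6_327 r4_220 (nat_lit 0) (nat_lit 1121068) (nat_lit 384025) (nat_lit 0x1a18ab894) (nat_lit 370307349),
  Rx.mk (nat_lit 262) (nat_lit 6) (nat_lit 0) (nat_lit 4) (nat_lit 1) (nat_lit 326) (nat_lit 217) r6_326 r4_217 (nat_lit 0) (nat_lit 28090) (nat_lit 18508) (nat_lit 0x1e28033f6) (nat_lit 299811704),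
  Rx.mk (nat_lit 282) (nat_lit 2) (nat_lit 3) (nat_lit 4) (nat_lit 3) (nat_lit 331) (nat_lit 222) r6_331 r4_222 (nat_lit 0) (nat_lit 0) (nat_lit 10089) (nat_lit 0x13f2068c0) (nat_lit 473251195),
  Rx.mk (nat_lit 322) (nat_lit 2) (nat_lit 0) (nat_lit 5) (nat_lit 5) (nat_lit 329) (nat_lit 221) r6_329 r4_221 (nat_lit 0) (nat_lit 3912689) (nat_lit 0) (nat_lit 0x1f5e74c54) (nat_lit 283278695),
  Rx.mk (nat_lit 326) (nat_lit 6) (nat_lit 0) (nat_lit 5) (nat_lit 5) (nat_lit 328) (nat_lit 218) r6_328 r4_218 (nat_lit 0) (nat_lit 3084591) (nat_lit 0) (nat_lit 0x21032fca2) (nat_lit 255139297),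
  Rx.mk (nat_lit 346) (nat_lit 2) (nat_lit 3) (nat_lit 5) (nat_lit 7) (nat_lit 332) (nat_lit 223) r6_332 r4_223 (nat_lit 0) (nat_lit 0) (nat_lit 0) (nat_lit 0x1f2a07d68) (nat_lit 282759256),
  Rx.mk (nat_lit 454) (nat_lit 6) (nat_lit 0) (nat_lit 7) (nat_lit 5) (nat_lit 330) (nat_lit 219) r6_330 r4_219 (nat_lit 0) (nat_lit 4146434) (nat_lit 0) (nat_lit 0x20bd74802) (nat_lit 260693490)]
noncomputable def e35_10 : List Rx := [
  Rx.mk (nat_lit 198) (nat_lit 6) (nat_lit 0) (nat_lit 3) (nat_lit 5) (nat_lit 246) (nat_lit 261) r6_246 r6_261 (nat_lit 0) (nat_lit 923006) (nat_lit 0) (nat_lit 0x1fd29b632) (nat_lit 272539962),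
  Rx.mk (nat_lit 212) (nat_lit 4) (nat_lit 2) (nat_lit 3) (nat_lit 6) (nat_lit 247) (nat_lit 260) r6_247 r6_260 (nat_lit 80075) (nat_lit 0) (nat_lit 0) (nat_lit 0x200000f96) (nat_lit 268556781),
  Rx.mk (nat_lit 214) (nat_lit 6) (nat_lit 2) (nat_lit 3) (nat_lit 7) (nat_lit 248) (nat_lit 263) r6_248 r6_263 (nat_lit 0) (nat_lit 0) (nat_lit 0) (nat_lit 0x223f94476) (nat_lit 231754056),
  Rx.mk (nat_lit 282) (nat_lit 2) (nat_lit 3) (nat_lit 4) (nat_lit 3) (nat_lit 249) (nat_lit 258) r6_249 r6_258 (nat_lit 0) (nat_lit 0) (nat_lit 80075) (nat_lit 0x200000f96) (nat_lit 268556781),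
  Rx.mk (nat_lit 450) (nat_lit 2) (nat_lit 0) (nat_lit 7) (nat_lit 5) (nat_lit 245) (nat_lit 257) r6_245 r6_257 (nat_lit 0) (nat_lit 923006) (nat_lit 0) (nat_lit 0x1fd29b632) (nat_lit 272539962),
  Rx.mk (nat_lit 454) (nat_lit 6) (nat_lit 0) (nat_lit 7) (nat_lit 5) (nat_lit 244) (nat_lit 262) r6_244 r6_262 (nat_lit 0) (nat_lit 87844) (nat_lit 0) (nat_lit 0x1ff0036d4) (nat_lit 269626200),
  Rx.mk (nat_lit 474) (nat_lit 2) (nat_lit 3) (nat_lit 7) (nat_lit 7) (nat_lit 250) (nat_lit 259) r6_250 r6_259 (nat_lit 0) (nat_lit 0) (nat_lit 0) (nat_lit 0x223f94476) (nat_lit 231754056)]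
noncomputable def e35_11 : List Rx := [
  Rx.mk (nat_lit 258) (nat_lit 2) (nat_lit 0) (nat_lit 4) (nat_lit 1) (nat_lit 333) (nat_lit 232) r6_333 r5_232 (nat_lit 0) (nat_lit 251847) (nat_lit 264049) (nat_lit 0x1f29a7f44) (nat_lit 283242052),
  Rx.mk (nat_lit 282) (nat_lit 2) (nat_lit 3) (nat_lit 4) (nat_lit 3) (nat_lit 336) (nat_lit 234) r6_336 r5_234 (nat_lit 0) (nat_lit 0) (nat_lit 427871) (nat_lit 0x209aee2f6) (nat_lit 259048627),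
  Rx.mk (nat_lit 450) (nat_lit 2) (nat_lit 0) (nat_lit 7) (nat_lit 5) (nat_lit 335) (nat_lit 233) r6_335 r5_233 (nat_lit 0) (nat_lit 2263840) (nat_lit 0) (nat_lit 0x21d343934) (nat_lit 240991296),
  Rx.mk (nat_lit 454) (nat_lit 6) (nat_lit 0) (nat_lit 7) (nat_lit 5) (nat_lit 334) (nat_lit 231) r6_334 r5_231 (nat_lit 0) (nat_lit 13528) (nat_lit 0) (nat_lit 0x218c78ba8) (nat_lit 243103384)]
noncomputable def e35_12 : List Rx := [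
  Rx.mk (nat_lit 20) (nat_lit 4) (nat_lit 2) (nat_lit 0) (nat_lit 2) (nat_lit 51) (nat_lit 82) r6_51 r0_82 (nat_lit 196429) (nat_lit 0) (nat_lit 281735) (nat_lit 0x185106fa6) (nat_lit 399502620),
  Rx.mk (nat_lit 21) (nat_lit 5) (nat_lit 2) (nat_lit 0) (nat_lit 3) (nat_lit 52) (nat_lit 83) r6_52 r0_83 (nat_lit 0) (nat_lit 0) (nat_lit 5413605) (nat_lit 0x1f06f7d78) (nat_lit 290569961),
  Rx.mk (nat_lit 22) (nat_lit 6) (nat_lit 2) (nat_lit 0) (nat_lit 3) (nat_lit 53) (nat_lit 84) r6_53 r0_84 (nat_lit 0) (nat_lit 0) (nat_lit 2973175) (nat_lit 0x1e042fbe6) (nat_lit 305284081),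
  Rx.mk (nat_lit 148) (nat_lit 4) (nat_lit 2) (nat_lit 2) (nat_lit 6) (nat_lit 54) (nat_lit 87) r6_54 r0_87 (nat_lit 3576524) (nat_lit 0) (nat_lit 0) (nat_lit 0x1f64ded74) (nat_lit 282524430),
  Rx.mk (nat_lit 149) (nat_lit 5) (nat_lit 2) (nat_lit 2) (nat_lit 7) (nat_lit 55) (nat_lit 88) r6_55 r0_88 (nat_lit 0) (nat_lit 0) (nat_lit 0) (nat_lit 0x22fcdb1ec) (nat_lit 219708606),
  Rx.mk (nat_lit 180) (nat_lit 4) (nat_lit 6) (nat_lit 2) (nat_lit 6) (nat_lit 49) (nat_lit 85) r6_49 r0_85 (nat_lit 1207477) (nat_lit 0) (nat_lit 0) (nat_lit 0x21257ed80) (nat_lit 251038333),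
  Rx.mk (nat_lit 181) (nat_lit 5) (nat_lit 6) (nat_lit 2) (nat_lit 7) (nat_lit 50) (nat_lit 86) r6_50 r0_86 (nat_lit 0) (nat_lit 0) (nat_lit 0) (nat_lit 0x242f3f128) (nat_lit 200086356)]
noncomputable def e35_13 : List Rx := [
  Rx.mk (nat_lit 20) (nat_lit 4) (nat_lit 2) (nat_lit 0) (nat_lit 2) (nat_lit 195) (nat_lit 293) r6_195 r7_293 (nat_lit 285501) (nat_lit 0) (nat_lit 293441) (nat_lit 0x1bd42f27c) (nat_lit 339938198),
  Rx.mk (nat_lit 21) (nat_lit 5) (nat_lit 2) (nat_lit 0) (nat_lit 3) (nat_lit 196) (nat_lit 297) r6_196 r7_297 (nat_lit 0) (nat_lit 0) (nat_lit 4380705) (nat_lit 0x20233b9a2) (nat_lit 270840161),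
  Rx.mk (nat_lit 22) (nat_lit 6) (nat_lit 2) (nat_lit 0) (nat_lit 3) (nat_lit 197) (nat_lit 301) r6_197 r7_301 (nat_lit 0) (nat_lit 0) (nat_lit 2828629) (nat_lit 0x200296e72) (nat_lit 271409985),
  Rx.mk (nat_lit 84) (nat_lit 4) (nat_lit 2) (nat_lit 1) (nat_lit 6) (nat_lit 198) (nat_lit 294) r6_198 r7_294 (nat_lit 3269233) (nat_lit 0) (nat_lit 0) (nat_lit 0x20b93e59e) (nat_lit 260068789),
  Rx.mk (nat_lit 85) (nat_lit 5) (nat_lit 2) (nat_lit 1) (nat_lit 7) (nat_lit 199) (nat_lit 298) r6_199 r7_298 (nat_lit 0) (nat_lit 0) (nat_lit 0) (nat_lit 0x20e132730) (nat_lit 254255056),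
  Rx.mk (nat_lit 86) (nat_lit 6) (nat_lit 2) (nat_lit 1) (nat_lit 7) (nat_lit 200) (nat_lit 302) r6_200 r7_302 (nat_lit 0) (nat_lit 0) (nat_lit 0) (nat_lit 0x21d88da66) (nat_lit 238408656),
  Rx.mk (nat_lit 148) (nat_lit 4) (nat_lit 2) (nat_lit 2) (nat_lit 6) (nat_lit 201) (nat_lit 295) r6_201 r7_295 (nat_lit 7768452) (nat_lit 0) (nat_lit 0) (nat_lit 0x1f2326f76) (nat_lit 291082808),
  Rx.mk (nat_lit 149) (nat_lit 5) (nat_lit 2) (nat_lit 2) (nat_lit 7) (nat_lit 202) (nat_lit 299) r6_202 r7_299 (nat_lit 0) (nat_lit 0) (nat_lit 0) (nat_lit 0x20056d4f2) (nat_lit 268435456),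
  Rx.mk (nat_lit 180) (nat_lit 4) (nat_lit 6) (nat_lit 2) (nat_lit 6) (nat_lit 193) (nat_lit 296) r6_193 r7_296 (nat_lit 2249514) (nat_lit 0) (nat_lit 0) (nat_lit 0x1fa7a982a) (nat_lit 276775820),
  Rx.mk (nat_lit 181) (nat_lit 5) (nat_lit 6) (nat_lit 2) (nat_lit 7) (nat_lit 194) (nat_lit 300) r6_194 r7_300 (nat_lit 0) (nat_lit 0) (nat_lit 0) (nat_lit 0x218b34328) (nat_lit 243360356)]
noncomputable def e35_14 : List Rx := [
  Rx.mk (nat_lit 21) (nat_lit 5) (nat_lit 2) (nat_lit 0) (nat_lit 3) (nat_lit 57) (nat_lit 88) r6_57 r1_88 (nat_lit 0) (nat_lit 0) (nat_lit 4999611) (nat_lit 0x209b5945c) (nat_lit 263730017),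
  Rx.mk (nat_lit 149) (nat_lit 5) (nat_lit 2) (nat_lit 2) (nat_lit 7) (nat_lit 58) (nat_lit 90) r6_58 r1_90 (nat_lit 0) (nat_lit 0) (nat_lit 0) (nat_lit 0x21b4e08f2) (nat_lit 240691706),
  Rx.mk (nat_lit 181) (nat_lit 5) (nat_lit 6) (nat_lit 2) (nat_lit 7) (nat_lit 56) (nat_lit 89) r6_56 r1_89 (nat_lit 0) (nat_lit 0) (nat_lit 0) (nat_lit 0x250e7ac5c) (nat_lit 185808906)]
noncomputable def e35_15 : List Rx := [
  Rx.mk (nat_lit 21) (nat_lit 5) (nat_lit 2) (nat_lit 0) (nat_lit 3) (nat_lit 207) (nat_lit 221) r6_207 r8_221 (nat_lit 0) (nat_lit 0) (nat_lit 7973947) (nat_lit 0x1ffd61c22) (nat_lit 276924103),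
  Rx.mk (nat_lit 85) (nat_lit 5) (nat_lit 2) (nat_lit 1) (nat_lit 7) (nat_lit 208) (nat_lit 222) r6_208 r8_222 (nat_lit 0) (nat_lit 0) (nat_lit 0) (nat_lit 0x20056d4f2) (nat_lit 268435456),
  Rx.mk (nat_lit 149) (nat_lit 5) (nat_lit 2) (nat_lit 2) (nat_lit 7) (nat_lit 209) (nat_lit 223) r6_209 r8_223 (nat_lit 0) (nat_lit 0) (nat_lit 0) (nat_lit 0x20056d4f2) (nat_lit 268435456),
  Rx.mk (nat_lit 181) (nat_lit 5) (nat_lit 6) (nat_lit 2) (nat_lit 7) (nat_lit 206) (nat_lit 224) r6_206 r8_224 (nat_lit 0) (nat_lit 0) (nat_lit 0) (nat_lit 0x20a32e4ac) (nat_lit 258234956)]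
noncomputable def e35_16 : List Rx := [
  Rx.mk (nat_lit 84) (nat_lit 4) (nat_lit 2) (nat_lit 1) (nat_lit 6) (nat_lit 203) (nat_lit 71) r6_203 r8_71 (nat_lit 3112990) (nat_lit 0) (nat_lit 0) (nat_lit 0x203633f14) (nat_lit 268344796),
  Rx.mk (nat_lit 85) (nat_lit 5) (nat_lit 2) (nat_lit 1) (nat_lit 7) (nat_lit 204) (nat_lit 72) r6_204 r8_72 (nat_lit 0) (nat_lit 0) (nat_lit 0) (nat_lit 0x2081b6e6e) (nat_lit 260388556),
  Rx.mk (nat_lit 86) (nat_lit 6) (nat_lit 2) (nat_lit 1) (nat_lit 7) (nat_lit 205) (nat_lit 73) r6_205 r8_73 (nat_lit 0) (nat_lit 0) (nat_lit 0) (nat_lit 0x20bcf9418) (nat_lit 256577206)]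
noncomputable def e35_17 : List Rx := [
  Rx.mk (nat_lit 84) (nat_lit 4) (nat_lit 2) (nat_lit 1) (nat_lit 6) (nat_lit 319) (nat_lit 241) r6_319 r9_241 (nat_lit 10679085) (nat_lit 0) (nat_lit 0) (nat_lit 0x1f89d2662) (nat_lit 287212591),
  Rx.mk (nat_lit 85) (nat_lit 5) (nat_lit 2) (nat_lit 1) (nat_lit 7) (nat_lit 320) (nat_lit 242) r6_320 r9_242 (nat_lit 0) (nat_lit 0) (nat_lit 0) (nat_lit 0x20056d4f2) (nat_lit 268435456),
  Rx.mk (nat_lit 86) (nat_lit 6) (nat_lit 2) (nat_lit 1) (nat_lit 7) (nat_lit 321) (nat_lit 243) r6_321 r9_243 (nat_lit 0) (nat_lit 0) (nat_lit 0) (nat_lit 0x20056d4f2) (nat_lit 268435456)]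
noncomputable def e35_18 : List Rx := [
  Rx.mk (nat_lit 20) (nat_lit 4) (nat_lit 2) (nat_lit 0) (nat_lit 2) (nat_lit 62) (nat_lit 78) r6_62 r4_78 (nat_lit 246644) (nat_lit 0) (nat_lit 310005) (nat_lit 0x1afb61f3a) (nat_lit 354301405),
  Rx.mk (nat_lit 21) (nat_lit 5) (nat_lit 2) (nat_lit 0) (nat_lit 3) (nat_lit 63) (nat_lit 79) r6_63 r4_79 (nat_lit 0) (nat_lit 0) (nat_lit 4160886) (nat_lit 0x201f7800e) (nat_lit 270874342),
  Rx.mk (nat_lit 22) (nat_lit 6) (nat_lit 2) (nat_lit 0) (nat_lit 3) (nat_lit 64) (nat_lit 80) r6_64 r4_80 (nat_lit 0) (nat_lit 0) (nat_lit 5004731) (nat_lit 0x1f3bedf5a) (nat_lit 286662037),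
  Rx.mk (nat_lit 148) (nat_lit 4) (nat_lit 2) (nat_lit 2) (nat_lit 6) (nat_lit 65) (nat_lit 87) r6_65 r4_87 (nat_lit 2749214) (nat_lit 0) (nat_lit 0) (nat_lit 0x202479fe4) (nat_lit 269130370),
  Rx.mk (nat_lit 149) (nat_lit 5) (nat_lit 2) (nat_lit 2) (nat_lit 7) (nat_lit 66) (nat_lit 88) r6_66 r4_88 (nat_lit 0) (nat_lit 0) (nat_lit 0) (nat_lit 0x204b40c90) (nat_lit 263901806),
  Rx.mk (nat_lit 180) (nat_lit 4) (nat_lit 6) (nat_lit 2) (nat_lit 6) (nat_lit 59) (nat_lit 84) r6_59 r4_84 (nat_lit 1058406) (nat_lit 0) (nat_lit 0) (nat_lit 0x2050f1acc) (nat_lit 264518012),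
  Rx.mk (nat_lit 181) (nat_lit 5) (nat_lit 6) (nat_lit 2) (nat_lit 7) (nat_lit 60) (nat_lit 85) r6_60 r4_85 (nat_lit 0) (nat_lit 0) (nat_lit 0) (nat_lit 0x20e69a664) (nat_lit 253903856),
  Rx.mk (nat_lit 183) (nat_lit 7) (nat_lit 6) (nat_lit 2) (nat_lit 7) (nat_lit 61) (nat_lit 86) r6_61 r4_86 (nat_lit 0) (nat_lit 0) (nat_lit 0) (nat_lit 0x21165d0ae) (nat_lit 250844706),
  Rx.mk (nat_lit 212) (nat_lit 4) (nat_lit 2) (nat_lit 3) (nat_lit 6) (nat_lit 67) (nat_lit 81) r6_67 r4_81 (nat_lit 16916) (nat_lit 0) (nat_lit 0) (nat_lit 0x17f6c791e) (nat_lit 404986672),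
  Rx.mk (nat_lit 213) (nat_lit 5) (nat_lit 2) (nat_lit 3) (nat_lit 7) (nat_lit 68) (nat_lit 82) r6_68 r4_82 (nat_lit 0) (nat_lit 0) (nat_lit 0) (nat_lit 0x202553b36) (nat_lit 266272206),
  Rx.mk (nat_lit 214) (nat_lit 6) (nat_lit 2) (nat_lit 3) (nat_lit 7) (nat_lit 69) (nat_lit 83) r6_69 r4_83 (nat_lit 0) (nat_lit 0) (nat_lit 0) (nat_lit 0x1fe3f67c4) (nat_lit 270531556)]
noncomputable def e35_19 : List Rx := [
  Rx.mk (nat_lit 20) (nat_lit 4) (nat_lit 2) (nat_lit 0) (nat_lit 2) (nat_lit 213) (nat_lit 244) r6_213 r10_244 (nat_lit 543948) (nat_lit 0) (nat_lit 471452) (nat_lit 0x1c7149774) (nat_lit 329972906),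
  Rx.mk (nat_lit 21) (nat_lit 5) (nat_lit 2) (nat_lit 0) (nat_lit 3) (nat_lit 214) (nat_lit 249) r6_214 r10_249 (nat_lit 0) (nat_lit 0) (nat_lit 4088468) (nat_lit 0x20ccdca88) (nat_lit 259647924),
  Rx.mk (nat_lit 22) (nat_lit 6) (nat_lit 2) (nat_lit 0) (nat_lit 3) (nat_lit 215) (nat_lit 254) r6_215 r10_254 (nat_lit 0) (nat_lit 0) (nat_lit 2783281) (nat_lit 0x2029b329e) (nat_lit 268826287),
  Rx.mk (nat_lit 84) (nat_lit 4) (nat_lit 2) (nat_lit 1) (nat_lit 6) (nat_lit 216) (nat_lit 245) r6_216 r10_245 (nat_lit 3377596) (nat_lit 0) (nat_lit 0) (nat_lit 0x20e0bc792) (nat_lit 257655702),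
  Rx.mk (nat_lit 86) (nat_lit 6) (nat_lit 2) (nat_lit 1) (nat_lit 7) (nat_lit 217) (nat_lit 255) r6_217 r10_255 (nat_lit 0) (nat_lit 0) (nat_lit 0) (nat_lit 0x21936d120) (nat_lit 242832906),
  Rx.mk (nat_lit 148) (nat_lit 4) (nat_lit 2) (nat_lit 2) (nat_lit 6) (nat_lit 218) (nat_lit 247) r6_218 r10_247 (nat_lit 7687606) (nat_lit 0) (nat_lit 0) (nat_lit 0x1fbd9977a) (nat_lit 280815412),
  Rx.mk (nat_lit 149) (nat_lit 5) (nat_lit 2) (nat_lit 2) (nat_lit 7) (nat_lit 219) (nat_lit 251) r6_219 r10_251 (nat_lit 0) (nat_lit 0) (nat_lit 0) (nat_lit 0x20056d4f2) (nat_lit 268435456),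
  Rx.mk (nat_lit 180) (nat_lit 4) (nat_lit 6) (nat_lit 2) (nat_lit 6) (nat_lit 210) (nat_lit 248) r6_210 r10_248 (nat_lit 2445729) (nat_lit 0) (nat_lit 0) (nat_lit 0x1fca8a75e) (nat_lit 274684635),
  Rx.mk (nat_lit 181) (nat_lit 5) (nat_lit 6) (nat_lit 2) (nat_lit 7) (nat_lit 211) (nat_lit 252) r6_211 r10_252 (nat_lit 0) (nat_lit 0) (nat_lit 0) (nat_lit 0x21063f2bc) (nat_lit 251877456),
  Rx.mk (nat_lit 183) (nat_lit 7) (nat_lit 6) (nat_lit 2) (nat_lit 7) (nat_lit 212) (nat_lit 253) r6_212 r10_253 (nat_lit 0) (nat_lit 0) (nat_lit 0) (nat_lit 0x21063f2bc) (nat_lit 251877456),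
  Rx.mk (nat_lit 212) (nat_lit 4) (nat_lit 2) (nat_lit 3) (nat_lit 6) (nat_lit 220) (nat_lit 246) r6_220 r10_246 (nat_lit 3377596) (nat_lit 0) (nat_lit 0) (nat_lit 0x20e0bc792) (nat_lit 257655702),
  Rx.mk (nat_lit 213) (nat_lit 5) (nat_lit 2) (nat_lit 3) (nat_lit 7) (nat_lit 221) (nat_lit 250) r6_221 r10_250 (nat_lit 0) (nat_lit 0) (nat_lit 0) (nat_lit 0x206360cda) (nat_lit 262345506),
  Rx.mk (nat_lit 214) (nat_lit 6) (nat_lit 2) (nat_lit 3) (nat_lit 7) (nat_lit 222) (nat_lit 256) r6_222 r10_256 (nat_lit 0) (nat_lit 0) (nat_lit 0) (nat_lit 0x21936d120) (nat_lit 242832906)]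
noncomputable def e35_20 : List Rx := [
  Rx.mk (nat_lit 212) (nat_lit 4) (nat_lit 2) (nat_lit 3) (nat_lit 6) (nat_lit 254) (nat_lit 284) r6_254 r11_284 (nat_lit 590116) (nat_lit 0) (nat_lit 0) (nat_lit 0x20f551de2) (nat_lit 253440372),
  Rx.mk (nat_lit 213) (nat_lit 5) (nat_lit 2) (nat_lit 3) (nat_lit 7) (nat_lit 255) (nat_lit 285) r6_255 r11_285 (nat_lit 0) (nat_lit 0) (nat_lit 0) (nat_lit 0x24aadcf74) (nat_lit 192191656),
  Rx.mk (nat_lit 214) (nat_lit 6) (nat_lit 2) (nat_lit 3) (nat_lit 7) (nat_lit 256) (nat_lit 286) r6_256 r11_286 (nat_lit 0) (nat_lit 0) (nat_lit 0) (nat_lit 0x22f7110d6) (nat_lit 220059406)]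
noncomputable def e35_21 : List Rx := [
  Rx.mk (nat_lit 70) (nat_lit 6) (nat_lit 0) (nat_lit 1) (nat_lit 5) (nat_lit 315) (nat_lit 220) r6_315 r9_220 (nat_lit 0) (nat_lit 10732257) (nat_lit 0) (nat_lit 0x1f762bc30) (nat_lit 288560063),
  Rx.mk (nat_lit 78) (nat_lit 6) (nat_lit 1) (nat_lit 1) (nat_lit 7) (nat_lit 317) (nat_lit 222) r6_317 r9_222 (nat_lit 0) (nat_lit 0) (nat_lit 0) (nat_lit 0x20056d4f2) (nat_lit 268435456),
  Rx.mk (nat_lit 86) (nat_lit 6) (nat_lit 2) (nat_lit 1) (nat_lit 7) (nat_lit 318) (nat_lit 223) r6_318 r9_223 (nat_lit 0) (nat_lit 0) (nat_lit 0) (nat_lit 0x20056d4f2) (nat_lit 268435456),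
  Rx.mk (nat_lit 326) (nat_lit 6) (nat_lit 0) (nat_lit 5) (nat_lit 5) (nat_lit 314) (nat_lit 219) r6_314 r9_219 (nat_lit 0) (nat_lit 9484367) (nat_lit 0) (nat_lit 0x1fafd9e3c) (nat_lit 283511073),
  Rx.mk (nat_lit 334) (nat_lit 6) (nat_lit 1) (nat_lit 5) (nat_lit 7) (nat_lit 316) (nat_lit 221) r6_316 r9_221 (nat_lit 0) (nat_lit 0) (nat_lit 0) (nat_lit 0x20056d4f2) (nat_lit 268435456)]
noncomputable def e35_22 : List Rx := [
  Rx.mk (nat_lit 266) (nat_lit 2) (nat_lit 1) (nat_lit 4) (nat_lit 3) (nat_lit 279) (nat_lit 222) r6_279 r0_222 (nat_lit 0) (nat_lit 0) (nat_lit 6622) (nat_lit 0x241d4916c) (nat_lit 201098578),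
  Rx.mk (nat_lit 270) (nat_lit 6) (nat_lit 1) (nat_lit 4) (nat_lit 3) (nat_lit 278) (nat_lit 223) r6_278 r0_223 (nat_lit 0) (nat_lit 0) (nat_lit 11115543) (nat_lit 0x1fdae8574) (nat_lit 282223849)]
noncomputable def e35_23 : List Rx := [
  Rx.mk (nat_lit 266) (nat_lit 2) (nat_lit 1) (nat_lit 4) (nat_lit 3) (nat_lit 299) (nat_lit 240) r6_299 r1_240 (nat_lit 0) (nat_lit 0) (nat_lit 31922) (nat_lit 0x20e6230aa) (nat_lit 253759128),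
  Rx.mk (nat_lit 270) (nat_lit 6) (nat_lit 1) (nat_lit 4) (nat_lit 3) (nat_lit 298) (nat_lit 241) r6_298 r1_241 (nat_lit 0) (nat_lit 0) (nat_lit 9819301) (nat_lit 0x210ca9f76) (nat_lit 261242507)]
noncomputable def e35_24 : List Rx := [
  Rx.mk (nat_lit 258) (nat_lit 2) (nat_lit 0) (nat_lit 4) (nat_lit 1) (nat_lit 338) (nat_lit 217) r6_338 r4_217 (nat_lit 0) (nat_lit 18508) (nat_lit 28090) (nat_lit 0x1e28033f6) (nat_lit 299811704),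
  Rx.mk (nat_lit 262) (nat_lit 6) (nat_lit 0) (nat_lit 4) (nat_lit 1) (nat_lit 337) (nat_lit 220) r6_337 r4_220 (nat_lit 0) (nat_lit 384025) (nat_lit 1121068) (nat_lit 0x1a18ab894) (nat_lit 370307349),
  Rx.mk (nat_lit 266) (nat_lit 2) (nat_lit 1) (nat_lit 4) (nat_lit 3) (nat_lit 341) (nat_lit 218) r6_341 r4_218 (nat_lit 0) (nat_lit 0) (nat_lit 3084591) (nat_lit 0x21032fca2) (nat_lit 255139297),
  Rx.mk (nat_lit 270) (nat_lit 6) (nat_lit 1) (nat_lit 4) (nat_lit 3) (nat_lit 340) (nat_lit 221) r6_340 r4_221 (nat_lit 0) (nat_lit 0) (nat_lit 3912689) (nat_lit 0x1f5e74c54) (nat_lit 283278695),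
  Rx.mk (nat_lit 282) (nat_lit 2) (nat_lit 3) (nat_lit 4) (nat_lit 3) (nat_lit 343) (nat_lit 219) r6_343 r4_219 (nat_lit 0) (nat_lit 0) (nat_lit 4146434) (nat_lit 0x20bd74802) (nat_lit 260693490),
  Rx.mk (nat_lit 454) (nat_lit 6) (nat_lit 0) (nat_lit 7) (nat_lit 5) (nat_lit 339) (nat_lit 222) r6_339 r4_222 (nat_lit 0) (nat_lit 10089) (nat_lit 0) (nat_lit 0x13f2068c0) (nat_lit 473251195),
  Rx.mk (nat_lit 462) (nat_lit 6) (nat_lit 1) (nat_lit 7) (nat_lit 7) (nat_lit 342) (nat_lit 223) r6_342 r4_223 (nat_lit 0) (nat_lit 0) (nat_lit 0) (nat_lit 0x1f2a07d68) (nat_lit 282759256)]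
noncomputable def e35_25 : List Rx := [
  Rx.mk (nat_lit 266) (nat_lit 2) (nat_lit 1) (nat_lit 4) (nat_lit 3) (nat_lit 283) (nat_lit 284) r6_283 r7_284 (nat_lit 0) (nat_lit 0) (nat_lit 2404456) (nat_lit 0x206fa235e) (nat_lit 263926362),
  Rx.mk (nat_lit 270) (nat_lit 6) (nat_lit 1) (nat_lit 4) (nat_lit 3) (nat_lit 282) (nat_lit 282) r6_282 r7_282 (nat_lit 0) (nat_lit 0) (nat_lit 3659927) (nat_lit 0x1ff02ca2a) (nat_lit 273432533),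
  Rx.mk (nat_lit 322) (nat_lit 2) (nat_lit 0) (nat_lit 5) (nat_lit 5) (nat_lit 281) (nat_lit 281) r6_281 r7_281 (nat_lit 0) (nat_lit 3659927) (nat_lit 0) (nat_lit 0x1ff02ca2a) (nat_lit 273432533),
  Rx.mk (nat_lit 326) (nat_lit 6) (nat_lit 0) (nat_lit 5) (nat_lit 5) (nat_lit 280) (nat_lit 280) r6_280 r7_280 (nat_lit 0) (nat_lit 2404456) (nat_lit 0) (nat_lit 0x206fa235e) (nat_lit 263926362),
  Rx.mk (nat_lit 330) (nat_lit 2) (nat_lit 1) (nat_lit 5) (nat_lit 7) (nat_lit 285) (nat_lit 285) r6_285 r7_285 (nat_lit 0) (nat_lit 0) (nat_lit 0) (nat_lit 0x2115c93d6) (nat_lit 250881906),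
  Rx.mk (nat_lit 334) (nat_lit 6) (nat_lit 1) (nat_lit 5) (nat_lit 7) (nat_lit 284) (nat_lit 283) r6_284 r7_283 (nat_lit 0) (nat_lit 0) (nat_lit 0) (nat_lit 0x2115c93d6) (nat_lit 250881906)]
noncomputable def e35_26 : List Rx := [
  Rx.mk (nat_lit 266) (nat_lit 2) (nat_lit 1) (nat_lit 4) (nat_lit 3) (nat_lit 301) (nat_lit 216) r6_301 r8_216 (nat_lit 0) (nat_lit 0) (nat_lit 2919699) (nat_lit 0x2016d6edc) (nat_lit 270181455),
  Rx.mk (nat_lit 270) (nat_lit 6) (nat_lit 1) (nat_lit 4) (nat_lit 3) (nat_lit 300) (nat_lit 214) r6_300 r8_214 (nat_lit 0) (nat_lit 0) (nat_lit 8407643) (nat_lit 0x1fc19b2d8) (nat_lit 281260399),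
  Rx.mk (nat_lit 330) (nat_lit 2) (nat_lit 1) (nat_lit 5) (nat_lit 7) (nat_lit 303) (nat_lit 217) r6_303 r8_217 (nat_lit 0) (nat_lit 0) (nat_lit 0) (nat_lit 0x20936f3ea) (nat_lit 259247806),
  Rx.mk (nat_lit 334) (nat_lit 6) (nat_lit 1) (nat_lit 5) (nat_lit 7) (nat_lit 302) (nat_lit 215) r6_302 r8_215 (nat_lit 0) (nat_lit 0) (nat_lit 0) (nat_lit 0x20056d4f2) (nat_lit 268435456)]
noncomputable def e35_27 : List Rx := [
  Rx.mk (nat_lit 322) (nat_lit 2) (nat_lit 0) (nat_lit 5) (nat_lit 5) (nat_lit 311) (nat_lit 214) r6_311 r8_214 (nat_lit 0) (nat_lit 8407643) (nat_lit 0) (nat_lit 0x1fc19b2d8) (nat_lit 281260399),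
  Rx.mk (nat_lit 326) (nat_lit 6) (nat_lit 0) (nat_lit 5) (nat_lit 5) (nat_lit 310) (nat_lit 216) r6_310 r8_216 (nat_lit 0) (nat_lit 2919699) (nat_lit 0) (nat_lit 0x2016d6edc) (nat_lit 270181455),
  Rx.mk (nat_lit 330) (nat_lit 2) (nat_lit 1) (nat_lit 5) (nat_lit 7) (nat_lit 313) (nat_lit 215) r6_313 r8_215 (nat_lit 0) (nat_lit 0) (nat_lit 0) (nat_lit 0x20056d4f2) (nat_lit 268435456),
  Rx.mk (nat_lit 334) (nat_lit 6) (nat_lit 1) (nat_lit 5) (nat_lit 7) (nat_lit 312) (nat_lit 217) r6_312 r8_217 (nat_lit 0) (nat_lit 0) (nat_lit 0) (nat_lit 0x20936f3ea) (nat_lit 259247806)]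
noncomputable def e35_28 : List Rx := [
  Rx.mk (nat_lit 258) (nat_lit 2) (nat_lit 0) (nat_lit 4) (nat_lit 1) (nat_lit 345) (nat_lit 228) r6_345 r10_228 (nat_lit 0) (nat_lit 328219) (nat_lit 348980) (nat_lit 0x1ccbea124) (nat_lit 323608155),
  Rx.mk (nat_lit 262) (nat_lit 6) (nat_lit 0) (nat_lit 4) (nat_lit 1) (nat_lit 344) (nat_lit 225) r6_344 r10_225 (nat_lit 0) (nat_lit 348980) (nat_lit 328219) (nat_lit 0x1ccbea124) (nat_lit 323608155),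
  Rx.mk (nat_lit 266) (nat_lit 2) (nat_lit 1) (nat_lit 4) (nat_lit 3) (nat_lit 350) (nat_lit 233) r6_350 r10_233 (nat_lit 0) (nat_lit 0) (nat_lit 3019693) (nat_lit 0x20b5c8a36) (nat_lit 260047299),
  Rx.mk (nat_lit 270) (nat_lit 6) (nat_lit 1) (nat_lit 4) (nat_lit 3) (nat_lit 349) (nat_lit 230) r6_349 r10_230 (nat_lit 0) (nat_lit 0) (nat_lit 3603283) (nat_lit 0x211d1a1bc) (nat_lit 254015539),
  Rx.mk (nat_lit 282) (nat_lit 2) (nat_lit 3) (nat_lit 4) (nat_lit 3) (nat_lit 354) (nat_lit 235) r6_354 r10_235 (nat_lit 0) (nat_lit 0) (nat_lit 3102433) (nat_lit 0x2108695c4) (nat_lit 254834339),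
  Rx.mk (nat_lit 322) (nat_lit 2) (nat_lit 0) (nat_lit 5) (nat_lit 5) (nat_lit 347) (nat_lit 229) r6_347 r10_229 (nat_lit 0) (nat_lit 3603283) (nat_lit 0) (nat_lit 0x211d1a1bc) (nat_lit 254015539),
  Rx.mk (nat_lit 326) (nat_lit 6) (nat_lit 0) (nat_lit 5) (nat_lit 5) (nat_lit 346) (nat_lit 226) r6_346 r10_226 (nat_lit 0) (nat_lit 3019693) (nat_lit 0) (nat_lit 0x20b5c8a36) (nat_lit 260047299),
  Rx.mk (nat_lit 330) (nat_lit 2) (nat_lit 1) (nat_lit 5) (nat_lit 7) (nat_lit 352) (nat_lit 234) r6_352 r10_234 (nat_lit 0) (nat_lit 0) (nat_lit 0) (nat_lit 0x208e7574a) (nat_lit 259569056),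
  Rx.mk (nat_lit 334) (nat_lit 6) (nat_lit 1) (nat_lit 5) (nat_lit 7) (nat_lit 351) (nat_lit 231) r6_351 r10_231 (nat_lit 0) (nat_lit 0) (nat_lit 0) (nat_lit 0x208e7574a) (nat_lit 259569056),
  Rx.mk (nat_lit 346) (nat_lit 2) (nat_lit 3) (nat_lit 5) (nat_lit 7) (nat_lit 355) (nat_lit 236) r6_355 r10_236 (nat_lit 0) (nat_lit 0) (nat_lit 0) (nat_lit 0x208e74746) (nat_lit 259569306),
  Rx.mk (nat_lit 454) (nat_lit 6) (nat_lit 0) (nat_lit 7) (nat_lit 5) (nat_lit 348) (nat_lit 227) r6_348 r10_227 (nat_lit 0) (nat_lit 3102433) (nat_lit 0) (nat_lit 0x2108695c4) (nat_lit 254834339),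
  Rx.mk (nat_lit 462) (nat_lit 6) (nat_lit 1) (nat_lit 7) (nat_lit 7) (nat_lit 353) (nat_lit 232) r6_353 r10_232 (nat_lit 0) (nat_lit 0) (nat_lit 0) (nat_lit 0x208e74746) (nat_lit 259569306)]
noncomputable def e35_29 : List Rx := [
  Rx.mk (nat_lit 258) (nat_lit 2) (nat_lit 0) (nat_lit 4) (nat_lit 1) (nat_lit 356) (nat_lit 267) r6_356 r11_267 (nat_lit 0) (nat_lit 1290647) (nat_lit 1607801) (nat_lit 0x1ddf946ce) (nat_lit 307614354),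
  Rx.mk (nat_lit 266) (nat_lit 2) (nat_lit 1) (nat_lit 4) (nat_lit 3) (nat_lit 359) (nat_lit 270) r6_359 r11_270 (nat_lit 0) (nat_lit 0) (nat_lit 4138257) (nat_lit 0x208746b2c) (nat_lit 264164763),
  Rx.mk (nat_lit 282) (nat_lit 2) (nat_lit 3) (nat_lit 4) (nat_lit 3) (nat_lit 362) (nat_lit 272) r6_362 r11_272 (nat_lit 0) (nat_lit 0) (nat_lit 5157003) (nat_lit 0x206d078d8) (nat_lit 266877659),
  Rx.mk (nat_lit 450) (nat_lit 2) (nat_lit 0) (nat_lit 7) (nat_lit 5) (nat_lit 358) (nat_lit 268) r6_358 r11_268 (nat_lit 0) (nat_lit 3646873) (nat_lit 0) (nat_lit 0x20a40dff8) (nat_lit 261825829),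
  Rx.mk (nat_lit 454) (nat_lit 6) (nat_lit 0) (nat_lit 7) (nat_lit 5) (nat_lit 357) (nat_lit 266) r6_357 r11_266 (nat_lit 0) (nat_lit 1021404) (nat_lit 0) (nat_lit 0x202273ede) (nat_lit 267454310),
  Rx.mk (nat_lit 458) (nat_lit 2) (nat_lit 1) (nat_lit 7) (nat_lit 7) (nat_lit 361) (nat_lit 271) r6_361 r11_271 (nat_lit 0) (nat_lit 0) (nat_lit 0) (nat_lit 0x20056d4f2) (nat_lit 268435456),
  Rx.mk (nat_lit 462) (nat_lit 6) (nat_lit 1) (nat_lit 7) (nat_lit 7) (nat_lit 360) (nat_lit 269) r6_360 r11_269 (nat_lit 0) (nat_lit 0) (nat_lit 0) (nat_lit 0x258c99c0a) (nat_lit 177754956)]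
noncomputable def e35_30 : List Rx := [
  Rx.mk (nat_lit 20) (nat_lit 4) (nat_lit 2) (nat_lit 0) (nat_lit 2) (nat_lit 90) (nat_lit 70) r6_90 r5_70 (nat_lit 11306) (nat_lit 0) (nat_lit 15951) (nat_lit 0x1f4e5ad46) (nat_lit 280256113),
  Rx.mk (nat_lit 22) (nat_lit 6) (nat_lit 2) (nat_lit 0) (nat_lit 3) (nat_lit 91) (nat_lit 72) r6_91 r5_72 (nat_lit 0) (nat_lit 0) (nat_lit 3522668) (nat_lit 0x1f538abe0) (nat_lit 283613624),
  Rx.mk (nat_lit 23) (nat_lit 7) (nat_lit 2) (nat_lit 0) (nat_lit 3) (nat_lit 92) (nat_lit 71) r6_92 r5_71 (nat_lit 0) (nat_lit 0) (nat_lit 1884312) (nat_lit 0x2185c267e) (nat_lit 245564918),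
  Rx.mk (nat_lit 148) (nat_lit 4) (nat_lit 2) (nat_lit 2) (nat_lit 6) (nat_lit 93) (nat_lit 78) r6_93 r5_78 (nat_lit 4987797) (nat_lit 0) (nat_lit 0) (nat_lit 0x1ee70b7e4) (nat_lit 292271903),
  Rx.mk (nat_lit 151) (nat_lit 7) (nat_lit 2) (nat_lit 2) (nat_lit 7) (nat_lit 94) (nat_lit 79) r6_94 r5_79 (nat_lit 0) (nat_lit 0) (nat_lit 0) (nat_lit 0x200de841a) (nat_lit 267846306),
  Rx.mk (nat_lit 183) (nat_lit 7) (nat_lit 6) (nat_lit 2) (nat_lit 7) (nat_lit 88) (nat_lit 77) r6_88 r5_77 (nat_lit 0) (nat_lit 0) (nat_lit 0) (nat_lit 0x1f1d3c4d0) (nat_lit 283510156),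
  Rx.mk (nat_lit 198) (nat_lit 6) (nat_lit 0) (nat_lit 3) (nat_lit 5) (nat_lit 89) (nat_lit 73) r6_89 r5_73 (nat_lit 0) (nat_lit 1386658) (nat_lit 0) (nat_lit 0x2015c39fa) (nat_lit 268669314),
  Rx.mk (nat_lit 212) (nat_lit 4) (nat_lit 2) (nat_lit 3) (nat_lit 6) (nat_lit 95) (nat_lit 75) r6_95 r5_75 (nat_lit 453211) (nat_lit 0) (nat_lit 0) (nat_lit 0x2177ae362) (nat_lit 244966567),
  Rx.mk (nat_lit 214) (nat_lit 6) (nat_lit 2) (nat_lit 3) (nat_lit 7) (nat_lit 96) (nat_lit 76) r6_96 r5_76 (nat_lit 0) (nat_lit 0) (nat_lit 0) (nat_lit 0x242461350) (nat_lit 200805656),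
  Rx.mk (nat_lit 222) (nat_lit 6) (nat_lit 3) (nat_lit 3) (nat_lit 7) (nat_lit 97) (nat_lit 74) r6_97 r5_74 (nat_lit 0) (nat_lit 0) (nat_lit 0) (nat_lit 0x208c5be3c) (nat_lit 259682256)]
noncomputable def e35_31 : List Rx := [
  Rx.mk (nat_lit 6) (nat_lit 6) (nat_lit 0) (nat_lit 0) (nat_lit 1) (nat_lit 224) (nat_lit 53) r6_224 r11_53 (nat_lit 0) (nat_lit 2904034) (nat_lit 1662226) (nat_lit 0x1e31bdcb6) (nat_lit 303844816),
  Rx.mk (nat_lit 20) (nat_lit 4) (nat_lit 2) (nat_lit 0) (nat_lit 2) (nat_lit 227) (nat_lit 54) r6_227 r11_54 (nat_lit 2196104) (nat_lit 0) (nat_lit 2078946) (nat_lit 0x1d11376e6) (nat_lit 322686806),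
  Rx.mk (nat_lit 22) (nat_lit 6) (nat_lit 2) (nat_lit 0) (nat_lit 3) (nat_lit 228) (nat_lit 56) r6_228 r11_56 (nat_lit 0) (nat_lit 0) (nat_lit 2982038) (nat_lit 0x208453244) (nat_lit 263187894),
  Rx.mk (nat_lit 23) (nat_lit 7) (nat_lit 2) (nat_lit 0) (nat_lit 3) (nat_lit 229) (nat_lit 55) r6_229 r11_55 (nat_lit 0) (nat_lit 0) (nat_lit 4065771) (nat_lit 0x20cb078f2) (nat_lit 259741877),
  Rx.mk (nat_lit 70) (nat_lit 6) (nat_lit 0) (nat_lit 1) (nat_lit 5) (nat_lit 225) (nat_lit 57) r6_225 r11_57 (nat_lit 0) (nat_lit 9484367) (nat_lit 0) (nat_lit 0x20056d4f2) (nat_lit 277919823),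
  Rx.mk (nat_lit 84) (nat_lit 4) (nat_lit 2) (nat_lit 1) (nat_lit 6) (nat_lit 230) (nat_lit 58) r6_230 r11_58 (nat_lit 6967476) (nat_lit 0) (nat_lit 0) (nat_lit 0x202fa6818) (nat_lit 272657232),
  Rx.mk (nat_lit 86) (nat_lit 6) (nat_lit 2) (nat_lit 1) (nat_lit 7) (nat_lit 231) (nat_lit 60) r6_231 r11_60 (nat_lit 0) (nat_lit 0) (nat_lit 0) (nat_lit 0x2036a4d72) (nat_lit 265237306),
  Rx.mk (nat_lit 87) (nat_lit 7) (nat_lit 2) (nat_lit 1) (nat_lit 7) (nat_lit 232) (nat_lit 59) r6_232 r11_59 (nat_lit 0) (nat_lit 0) (nat_lit 0) (nat_lit 0x20056d4f2) (nat_lit 268435456),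
  Rx.mk (nat_lit 148) (nat_lit 4) (nat_lit 2) (nat_lit 2) (nat_lit 6) (nat_lit 233) (nat_lit 66) r6_233 r11_66 (nat_lit 5623974) (nat_lit 0) (nat_lit 0) (nat_lit 0x201dfc1e4) (nat_lit 272453680),
  Rx.mk (nat_lit 151) (nat_lit 7) (nat_lit 2) (nat_lit 2) (nat_lit 7) (nat_lit 234) (nat_lit 67) r6_234 r11_67 (nat_lit 0) (nat_lit 0) (nat_lit 0) (nat_lit 0x2018ae08e) (nat_lit 267181406),
  Rx.mk (nat_lit 183) (nat_lit 7) (nat_lit 6) (nat_lit 2) (nat_lit 7) (nat_lit 223) (nat_lit 65) r6_223 r11_65 (nat_lit 0) (nat_lit 0) (nat_lit 0) (nat_lit 0x22369613a) (nat_lit 232374506),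
  Rx.mk (nat_lit 198) (nat_lit 6) (nat_lit 0) (nat_lit 3) (nat_lit 5) (nat_lit 226) (nat_lit 61) r6_226 r11_61 (nat_lit 0) (nat_lit 5376294) (nat_lit 0) (nat_lit 0x2018a524a) (nat_lit 272546750),
  Rx.mk (nat_lit 212) (nat_lit 4) (nat_lit 2) (nat_lit 3) (nat_lit 6) (nat_lit 235) (nat_lit 63) r6_235 r11_63 (nat_lit 5125026) (nat_lit 0) (nat_lit 0) (nat_lit 0x2070d31ba) (nat_lit 266601832),
  Rx.mk (nat_lit 214) (nat_lit 6) (nat_lit 2) (nat_lit 3) (nat_lit 7) (nat_lit 236) (nat_lit 64) r6_236 r11_64 (nat_lit 0) (nat_lit 0) (nat_lit 0) (nat_lit 0x2036a4d72) (nat_lit 265237306),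
  Rx.mk (nat_lit 222) (nat_lit 6) (nat_lit 3) (nat_lit 3) (nat_lit 7) (nat_lit 237) (nat_lit 62) r6_237 r11_62 (nat_lit 0) (nat_lit 0) (nat_lit 0) (nat_lit 0x20286b1d4) (nat_lit 266159056)]
noncomputable def e35_32 : List Rx := [
  Rx.mk (nat_lit 282) (nat_lit 2) (nat_lit 3) (nat_lit 4) (nat_lit 3) (nat_lit 262) (nat_lit 262) r6_262 r6_262 (nat_lit 0) (nat_lit 0) (nat_lit 87844) (nat_lit 0x1ff0036d4) (nat_lit 269626200),
  Rx.mk (nat_lit 286) (nat_lit 6) (nat_lit 3) (nat_lit 4) (nat_lit 3) (nat_lit 261) (nat_lit 257) r6_261 r6_257 (nat_lit 0) (nat_lit 0) (nat_lit 923006) (nat_lit 0x1fd29b632) (nat_lit 272539962),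
  Rx.mk (nat_lit 314) (nat_lit 2) (nat_lit 7) (nat_lit 4) (nat_lit 3) (nat_lit 257) (nat_lit 261) r6_257 r6_261 (nat_lit 0) (nat_lit 0) (nat_lit 923006) (nat_lit 0x1fd29b632) (nat_lit 272539962),
  Rx.mk (nat_lit 440) (nat_lit 0) (nat_lit 7) (nat_lit 6) (nat_lit 6) (nat_lit 258) (nat_lit 260) r6_258 r6_260 (nat_lit 80075) (nat_lit 0) (nat_lit 0) (nat_lit 0x200000f96) (nat_lit 268556781),
  Rx.mk (nat_lit 442) (nat_lit 2) (nat_lit 7) (nat_lit 6) (nat_lit 7) (nat_lit 259) (nat_lit 263) r6_259 r6_263 (nat_lit 0) (nat_lit 0) (nat_lit 0) (nat_lit 0x223f94476) (nat_lit 231754056),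
  Rx.mk (nat_lit 454) (nat_lit 6) (nat_lit 0) (nat_lit 7) (nat_lit 5) (nat_lit 260) (nat_lit 258) r6_260 r6_258 (nat_lit 0) (nat_lit 80075) (nat_lit 0) (nat_lit 0x200000f96) (nat_lit 268556781),
  Rx.mk (nat_lit 478) (nat_lit 6) (nat_lit 3) (nat_lit 7) (nat_lit 7) (nat_lit 263) (nat_lit 259) r6_263 r6_259 (nat_lit 0) (nat_lit 0) (nat_lit 0) (nat_lit 0x223f94476) (nat_lit 231754056)]
noncomputable def e35_33 : List Rx := [
  Rx.mk (nat_lit 262) (nat_lit 6) (nat_lit 0) (nat_lit 4) (nat_lit 1) (nat_lit 363) (nat_lit 232) r6_363 r5_232 (nat_lit 0) (nat_lit 264049) (nat_lit 251847) (nat_lit 0x1f29a7f44) (nat_lit 283242052),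
  Rx.mk (nat_lit 282) (nat_lit 2) (nat_lit 3) (nat_lit 4) (nat_lit 3) (nat_lit 366) (nat_lit 231) r6_366 r5_231 (nat_lit 0) (nat_lit 0) (nat_lit 13528) (nat_lit 0x218c78ba8) (nat_lit 243103384),
  Rx.mk (nat_lit 286) (nat_lit 6) (nat_lit 3) (nat_lit 4) (nat_lit 3) (nat_lit 365) (nat_lit 233) r6_365 r5_233 (nat_lit 0) (nat_lit 0) (nat_lit 2263840) (nat_lit 0x21d343934) (nat_lit 240991296),
  Rx.mk (nat_lit 454) (nat_lit 6) (nat_lit 0) (nat_lit 7) (nat_lit 5) (nat_lit 364) (nat_lit 234) r6_364 r5_234 (nat_lit 0) (nat_lit 427871) (nat_lit 0) (nat_lit 0x209aee2f6) (nat_lit 259048627)]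
noncomputable def e35_34 : List Rx := [
  Rx.mk (nat_lit 262) (nat_lit 6) (nat_lit 0) (nat_lit 4) (nat_lit 1) (nat_lit 367) (nat_lit 267) r6_367 r11_267 (nat_lit 0) (nat_lit 1607801) (nat_lit 1290647) (nat_lit 0x1ddf946ce) (nat_lit 307614354),
  Rx.mk (nat_lit 282) (nat_lit 2) (nat_lit 3) (nat_lit 4) (nat_lit 3) (nat_lit 371) (nat_lit 266) r6_371 r11_266 (nat_lit 0) (nat_lit 0) (nat_lit 1021404) (nat_lit 0x202273ede) (nat_lit 267454310),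
  Rx.mk (nat_lit 286) (nat_lit 6) (nat_lit 3) (nat_lit 4) (nat_lit 3) (nat_lit 370) (nat_lit 268) r6_370 r11_268 (nat_lit 0) (nat_lit 0) (nat_lit 3646873) (nat_lit 0x20a40dff8) (nat_lit 261825829),
  Rx.mk (nat_lit 326) (nat_lit 6) (nat_lit 0) (nat_lit 5) (nat_lit 5) (nat_lit 368) (nat_lit 270) r6_368 r11_270 (nat_lit 0) (nat_lit 4138257) (nat_lit 0) (nat_lit 0x208746b2c) (nat_lit 264164763),
  Rx.mk (nat_lit 346) (nat_lit 2) (nat_lit 3) (nat_lit 5) (nat_lit 7) (nat_lit 373) (nat_lit 269) r6_373 r11_269 (nat_lit 0) (nat_lit 0) (nat_lit 0) (nat_lit 0x258c99c0a) (nat_lit 177754956),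
  Rx.mk (nat_lit 350) (nat_lit 6) (nat_lit 3) (nat_lit 5) (nat_lit 7) (nat_lit 372) (nat_lit 271) r6_372 r11_271 (nat_lit 0) (nat_lit 0) (nat_lit 0) (nat_lit 0x20056d4f2) (nat_lit 268435456),
  Rx.mk (nat_lit 454) (nat_lit 6) (nat_lit 0) (nat_lit 7) (nat_lit 5) (nat_lit 369) (nat_lit 272) r6_369 r11_272 (nat_lit 0) (nat_lit 5157003) (nat_lit 0) (nat_lit 0x206d078d8) (nat_lit 266877659)]
noncomputable def e35_35 : List Rx := [
  Rx.mk (nat_lit 23) (nat_lit 7) (nat_lit 2) (nat_lit 0) (nat_lit 3) (nat_lit 80) (nat_lit 74) r6_80 r6_74 (nat_lit 0) (nat_lit 0) (nat_lit 9071) (nat_lit 0x2002d73be) (nat_lit 268268027),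
  Rx.mk (nat_lit 151) (nat_lit 7) (nat_lit 2) (nat_lit 2) (nat_lit 7) (nat_lit 81) (nat_lit 78) r6_81 r6_78 (nat_lit 0) (nat_lit 0) (nat_lit 0) (nat_lit 0x1d789f3e2) (nat_lit 311506256),
  Rx.mk (nat_lit 179) (nat_lit 3) (nat_lit 6) (nat_lit 2) (nat_lit 7) (nat_lit 73) (nat_lit 85) r6_73 r6_85 (nat_lit 0) (nat_lit 0) (nat_lit 0) (nat_lit 0x1feaa28ac) (nat_lit 269870856),
  Rx.mk (nat_lit 183) (nat_lit 7) (nat_lit 6) (nat_lit 2) (nat_lit 7) (nat_lit 72) (nat_lit 86) r6_72 r6_86 (nat_lit 0) (nat_lit 0) (nat_lit 0) (nat_lit 0x1feaa28ac) (nat_lit 269870856),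
  Rx.mk (nat_lit 198) (nat_lit 6) (nat_lit 0) (nat_lit 3) (nat_lit 5) (nat_lit 79) (nat_lit 70) r6_79 r6_70 (nat_lit 0) (nat_lit 9071) (nat_lit 0) (nat_lit 0x2002d73be) (nat_lit 268268027),
  Rx.mk (nat_lit 212) (nat_lit 4) (nat_lit 2) (nat_lit 3) (nat_lit 6) (nat_lit 82) (nat_lit 75) r6_82 r6_75 (nat_lit 24725) (nat_lit 0) (nat_lit 0) (nat_lit 0x1ff795bb8) (nat_lit 269028131),
  Rx.mk (nat_lit 214) (nat_lit 6) (nat_lit 2) (nat_lit 3) (nat_lit 7) (nat_lit 83) (nat_lit 77) r6_83 r6_77 (nat_lit 0) (nat_lit 0) (nat_lit 0) (nat_lit 0x2040648ee) (nat_lit 264349506),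
  Rx.mk (nat_lit 215) (nat_lit 7) (nat_lit 2) (nat_lit 3) (nat_lit 7) (nat_lit 84) (nat_lit 76) r6_84 r6_76 (nat_lit 0) (nat_lit 0) (nat_lit 0) (nat_lit 0x2040648ee) (nat_lit 264349506),
  Rx.mk (nat_lit 222) (nat_lit 6) (nat_lit 3) (nat_lit 3) (nat_lit 7) (nat_lit 87) (nat_lit 71) r6_87 r6_71 (nat_lit 0) (nat_lit 0) (nat_lit 0) (nat_lit 0x1d789f3e2) (nat_lit 311506256),
  Rx.mk (nat_lit 314) (nat_lit 2) (nat_lit 7) (nat_lit 4) (nat_lit 3) (nat_lit 74) (nat_lit 80) r6_74 r6_80 (nat_lit 0) (nat_lit 0) (nat_lit 9071) (nat_lit 0x2002d73be) (nat_lit 268268027),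
  Rx.mk (nat_lit 419) (nat_lit 3) (nat_lit 4) (nat_lit 6) (nat_lit 5) (nat_lit 70) (nat_lit 79) r6_70 r6_79 (nat_lit 0) (nat_lit 9071) (nat_lit 0) (nat_lit 0x2002d73be) (nat_lit 268268027),
  Rx.mk (nat_lit 435) (nat_lit 3) (nat_lit 6) (nat_lit 6) (nat_lit 7) (nat_lit 71) (nat_lit 87) r6_71 r6_87 (nat_lit 0) (nat_lit 0) (nat_lit 0) (nat_lit 0x1d789f3e2) (nat_lit 311506256),
  Rx.mk (nat_lit 440) (nat_lit 0) (nat_lit 7) (nat_lit 6) (nat_lit 6) (nat_lit 75) (nat_lit 82) r6_75 r6_82 (nat_lit 24725) (nat_lit 0) (nat_lit 0) (nat_lit 0x1ff795bb8) (nat_lit 269028131),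
  Rx.mk (nat_lit 442) (nat_lit 2) (nat_lit 7) (nat_lit 6) (nat_lit 7) (nat_lit 76) (nat_lit 84) r6_76 r6_84 (nat_lit 0) (nat_lit 0) (nat_lit 0) (nat_lit 0x2040648ee) (nat_lit 264349506),
  Rx.mk (nat_lit 443) (nat_lit 3) (nat_lit 7) (nat_lit 6) (nat_lit 7) (nat_lit 77) (nat_lit 83) r6_77 r6_83 (nat_lit 0) (nat_lit 0) (nat_lit 0) (nat_lit 0x2040648ee) (nat_lit 264349506),
  Rx.mk (nat_lit 474) (nat_lit 2) (nat_lit 3) (nat_lit 7) (nat_lit 7) (nat_lit 86) (nat_lit 72) r6_86 r6_72 (nat_lit 0) (nat_lit 0) (nat_lit 0) (nat_lit 0x1feaa28ac) (nat_lit 269870856),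
  Rx.mk (nat_lit 478) (nat_lit 6) (nat_lit 3) (nat_lit 7) (nat_lit 7) (nat_lit 85) (nat_lit 73) r6_85 r6_73 (nat_lit 0) (nat_lit 0) (nat_lit 0) (nat_lit 0x1feaa28ac) (nat_lit 269870856),
  Rx.mk (nat_lit 506) (nat_lit 2) (nat_lit 7) (nat_lit 7) (nat_lit 7) (nat_lit 78) (nat_lit 81) r6_78 r6_81 (nat_lit 0) (nat_lit 0) (nat_lit 0) (nat_lit 0x1d789f3e2) (nat_lit 311506256)]
noncomputable def e35_36 : List Rx := [
  Rx.mk (nat_lit 198) (nat_lit 6) (nat_lit 0) (nat_lit 3) (nat_lit 5) (nat_lit 269) (nat_lit 296) r6_269 r12_296 (nat_lit 0) (nat_lit 32224) (nat_lit 0) (nat_lit 0x1fdd9cdd8) (nat_lit 270760630),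
  Rx.mk (nat_lit 212) (nat_lit 4) (nat_lit 2) (nat_lit 3) (nat_lit 6) (nat_lit 270) (nat_lit 294) r6_270 r12_294 (nat_lit 146626) (nat_lit 0) (nat_lit 0) (nat_lit 0x1f441a6d8) (nat_lit 281094182),
  Rx.mk (nat_lit 214) (nat_lit 6) (nat_lit 2) (nat_lit 3) (nat_lit 7) (nat_lit 271) (nat_lit 299) r6_271 r12_299 (nat_lit 0) (nat_lit 0) (nat_lit 0) (nat_lit 0x21895dd60) (nat_lit 243363956),
  Rx.mk (nat_lit 215) (nat_lit 7) (nat_lit 2) (nat_lit 3) (nat_lit 7) (nat_lit 272) (nat_lit 295) r6_272 r12_295 (nat_lit 0) (nat_lit 0) (nat_lit 0) (nat_lit 0x21176ca94) (nat_lit 250645206),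
  Rx.mk (nat_lit 282) (nat_lit 2) (nat_lit 3) (nat_lit 4) (nat_lit 3) (nat_lit 273) (nat_lit 290) r6_273 r12_290 (nat_lit 0) (nat_lit 0) (nat_lit 14857) (nat_lit 0x1ff4ffbce) (nat_lit 269185263),
  Rx.mk (nat_lit 314) (nat_lit 2) (nat_lit 7) (nat_lit 4) (nat_lit 3) (nat_lit 264) (nat_lit 292) r6_264 r12_292 (nat_lit 0) (nat_lit 0) (nat_lit 32224) (nat_lit 0x1fdd9cdd8) (nat_lit 270760630),
  Rx.mk (nat_lit 440) (nat_lit 0) (nat_lit 7) (nat_lit 6) (nat_lit 6) (nat_lit 265) (nat_lit 288) r6_265 r12_288 (nat_lit 146626) (nat_lit 0) (nat_lit 0) (nat_lit 0x1f441a6d8) (nat_lit 281094182),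
  Rx.mk (nat_lit 442) (nat_lit 2) (nat_lit 7) (nat_lit 6) (nat_lit 7) (nat_lit 266) (nat_lit 293) r6_266 r12_293 (nat_lit 0) (nat_lit 0) (nat_lit 0) (nat_lit 0x21895dd60) (nat_lit 243363956),
  Rx.mk (nat_lit 443) (nat_lit 3) (nat_lit 7) (nat_lit 6) (nat_lit 7) (nat_lit 267) (nat_lit 289) r6_267 r12_289 (nat_lit 0) (nat_lit 0) (nat_lit 0) (nat_lit 0x21176ca94) (nat_lit 250645206),
  Rx.mk (nat_lit 454) (nat_lit 6) (nat_lit 0) (nat_lit 7) (nat_lit 5) (nat_lit 268) (nat_lit 297) r6_268 r12_297 (nat_lit 0) (nat_lit 14857) (nat_lit 0) (nat_lit 0x1ff4ffbce) (nat_lit 269185263),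
  Rx.mk (nat_lit 474) (nat_lit 2) (nat_lit 3) (nat_lit 7) (nat_lit 7) (nat_lit 275) (nat_lit 291) r6_275 r12_291 (nat_lit 0) (nat_lit 0) (nat_lit 0) (nat_lit 0x1fed76876) (nat_lit 269674906),
  Rx.mk (nat_lit 478) (nat_lit 6) (nat_lit 3) (nat_lit 7) (nat_lit 7) (nat_lit 274) (nat_lit 298) r6_274 r12_298 (nat_lit 0) (nat_lit 0) (nat_lit 0) (nat_lit 0x1fed76876) (nat_lit 269674906)]
noncomputable def e35_37 : List Rx := [
  Rx.mk (nat_lit 176) (nat_lit 0) (nat_lit 6) (nat_lit 2) (nat_lit 6) (nat_lit 105) (nat_lit 231) r6_105 r0_231 (nat_lit 2529310) (nat_lit 0) (nat_lit 0) (nat_lit 0x1e4d6bdfa) (nat_lit 299976366),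
  Rx.mk (nat_lit 290) (nat_lit 2) (nat_lit 4) (nat_lit 4) (nat_lit 1) (nat_lit 98) (nat_lit 232) r6_98 r0_232 (nat_lit 0) (nat_lit 38610) (nat_lit 60415) (nat_lit 0x1ce8ca2c6) (nat_lit 321056381),
  Rx.mk (nat_lit 298) (nat_lit 2) (nat_lit 5) (nat_lit 4) (nat_lit 3) (nat_lit 101) (nat_lit 233) r6_101 r0_233 (nat_lit 0) (nat_lit 0) (nat_lit 131306) (nat_lit 0x22f04eb90) (nat_lit 220495462),
  Rx.mk (nat_lit 416) (nat_lit 0) (nat_lit 4) (nat_lit 6) (nat_lit 4) (nat_lit 99) (nat_lit 228) r6_99 r0_228 (nat_lit 15494) (nat_lit 16044) (nat_lit 0) (nat_lit 0x1b76dfdd8) (nat_lit 345529294),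
  Rx.mk (nat_lit 418) (nat_lit 2) (nat_lit 4) (nat_lit 6) (nat_lit 5) (nat_lit 100) (nat_lit 234) r6_100 r0_234 (nat_lit 0) (nat_lit 2963373) (nat_lit 0) (nat_lit 0x207a0588c) (nat_lit 263834079),
  Rx.mk (nat_lit 424) (nat_lit 0) (nat_lit 5) (nat_lit 6) (nat_lit 6) (nat_lit 102) (nat_lit 229) r6_102 r0_229 (nat_lit 976590) (nat_lit 0) (nat_lit 0) (nat_lit 0x234d34814) (nat_lit 215456696),
  Rx.mk (nat_lit 426) (nat_lit 2) (nat_lit 5) (nat_lit 6) (nat_lit 7) (nat_lit 103) (nat_lit 235) r6_103 r0_235 (nat_lit 0) (nat_lit 0) (nat_lit 0) (nat_lit 0x2506d06b4) (nat_lit 186321856),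
  Rx.mk (nat_lit 432) (nat_lit 0) (nat_lit 6) (nat_lit 6) (nat_lit 6) (nat_lit 104) (nat_lit 230) r6_104 r0_230 (nat_lit 3977399) (nat_lit 0) (nat_lit 0) (nat_lit 0x1d9bca592) (nat_lit 313213855)]
noncomputable def e35_38 : List Rx := [
  Rx.mk (nat_lit 176) (nat_lit 0) (nat_lit 6) (nat_lit 2) (nat_lit 6) (nat_lit 5) (nat_lit 85) r6_5 r0_85 (nat_lit 1207477) (nat_lit 0) (nat_lit 0) (nat_lit 0x21257ed80) (nat_lit 251038333),
  Rx.mk (nat_lit 177) (nat_lit 1) (nat_lit 6) (nat_lit 2) (nat_lit 7) (nat_lit 6) (nat_lit 86) r6_6 r0_86 (nat_lit 0) (nat_lit 0) (nat_lit 0) (nat_lit 0x242f3f128) (nat_lit 200086356),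
  Rx.mk (nat_lit 416) (nat_lit 0) (nat_lit 4) (nat_lit 6) (nat_lit 4) (nat_lit 0) (nat_lit 82) r6_0 r0_82 (nat_lit 196429) (nat_lit 281735) (nat_lit 0) (nat_lit 0x185106fa6) (nat_lit 399502620),
  Rx.mk (nat_lit 417) (nat_lit 1) (nat_lit 4) (nat_lit 6) (nat_lit 5) (nat_lit 1) (nat_lit 83) r6_1 r0_83 (nat_lit 0) (nat_lit 5413605) (nat_lit 0) (nat_lit 0x1f06f7d78) (nat_lit 290569961),
  Rx.mk (nat_lit 418) (nat_lit 2) (nat_lit 4) (nat_lit 6) (nat_lit 5) (nat_lit 2) (nat_lit 84) r6_2 r0_84 (nat_lit 0) (nat_lit 2973175) (nat_lit 0) (nat_lit 0x1e042fbe6) (nat_lit 305284081),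
  Rx.mk (nat_lit 432) (nat_lit 0) (nat_lit 6) (nat_lit 6) (nat_lit 6) (nat_lit 3) (nat_lit 87) r6_3 r0_87 (nat_lit 3576524) (nat_lit 0) (nat_lit 0) (nat_lit 0x1f64ded74) (nat_lit 282524430),
  Rx.mk (nat_lit 433) (nat_lit 1) (nat_lit 6) (nat_lit 6) (nat_lit 7) (nat_lit 4) (nat_lit 88) r6_4 r0_88 (nat_lit 0) (nat_lit 0) (nat_lit 0) (nat_lit 0x22fcdb1ec) (nat_lit 219708606)]
noncomputable def e35_39 : List Rx := [
  Rx.mk (nat_lit 176) (nat_lit 0) (nat_lit 6) (nat_lit 2) (nat_lit 6) (nat_lit 114) (nat_lit 296) r6_114 r7_296 (nat_lit 2249514) (nat_lit 0) (nat_lit 0) (nat_lit 0x1fa7a982a) (nat_lit 276775820),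
  Rx.mk (nat_lit 177) (nat_lit 1) (nat_lit 6) (nat_lit 2) (nat_lit 7) (nat_lit 115) (nat_lit 300) r6_115 r7_300 (nat_lit 0) (nat_lit 0) (nat_lit 0) (nat_lit 0x218b34328) (nat_lit 243360356),
  Rx.mk (nat_lit 416) (nat_lit 0) (nat_lit 4) (nat_lit 6) (nat_lit 4) (nat_lit 106) (nat_lit 293) r6_106 r7_293 (nat_lit 285501) (nat_lit 293441) (nat_lit 0) (nat_lit 0x1bd42f27c) (nat_lit 339938198),
  Rx.mk (nat_lit 417) (nat_lit 1) (nat_lit 4) (nat_lit 6) (nat_lit 5) (nat_lit 107) (nat_lit 297) r6_107 r7_297 (nat_lit 0) (nat_lit 4380705) (nat_lit 0) (nat_lit 0x20233b9a2) (nat_lit 270840161),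
  Rx.mk (nat_lit 418) (nat_lit 2) (nat_lit 4) (nat_lit 6) (nat_lit 5) (nat_lit 108) (nat_lit 301) r6_108 r7_301 (nat_lit 0) (nat_lit 2828629) (nat_lit 0) (nat_lit 0x200296e72) (nat_lit 271409985),
  Rx.mk (nat_lit 424) (nat_lit 0) (nat_lit 5) (nat_lit 6) (nat_lit 6) (nat_lit 109) (nat_lit 294) r6_109 r7_294 (nat_lit 3269233) (nat_lit 0) (nat_lit 0) (nat_lit 0x20b93e59e) (nat_lit 260068789),
  Rx.mk (nat_lit 425) (nat_lit 1) (nat_lit 5) (nat_lit 6) (nat_lit 7) (nat_lit 110) (nat_lit 298) r6_110 r7_298 (nat_lit 0) (nat_lit 0) (nat_lit 0) (nat_lit 0x20e132730) (nat_lit 254255056),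
  Rx.mk (nat_lit 426) (nat_lit 2) (nat_lit 5) (nat_lit 6) (nat_lit 7) (nat_lit 111) (nat_lit 302) r6_111 r7_302 (nat_lit 0) (nat_lit 0) (nat_lit 0) (nat_lit 0x21d88da66) (nat_lit 238408656),
  Rx.mk (nat_lit 432) (nat_lit 0) (nat_lit 6) (nat_lit 6) (nat_lit 6) (nat_lit 112) (nat_lit 295) r6_112 r7_295 (nat_lit 7768452) (nat_lit 0) (nat_lit 0) (nat_lit 0x1f2326f76) (nat_lit 291082808),
  Rx.mk (nat_lit 433) (nat_lit 1) (nat_lit 6) (nat_lit 6) (nat_lit 7) (nat_lit 113) (nat_lit 299) r6_113 r7_299 (nat_lit 0) (nat_lit 0) (nat_lit 0) (nat_lit 0x20056d4f2) (nat_lit 268435456)]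
noncomputable def e35_40 : List Rx := [
  Rx.mk (nat_lit 177) (nat_lit 1) (nat_lit 6) (nat_lit 2) (nat_lit 7) (nat_lit 11) (nat_lit 94) r6_11 r2_94 (nat_lit 0) (nat_lit 0) (nat_lit 0) (nat_lit 0x20056d4f2) (nat_lit 268435456),
  Rx.mk (nat_lit 181) (nat_lit 5) (nat_lit 6) (nat_lit 2) (nat_lit 7) (nat_lit 10) (nat_lit 95) r6_10 r2_95 (nat_lit 0) (nat_lit 0) (nat_lit 0) (nat_lit 0x20056d4f2) (nat_lit 268435456)]
noncomputable def e35_41 : List Rx := [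
  Rx.mk (nat_lit 177) (nat_lit 1) (nat_lit 6) (nat_lit 2) (nat_lit 7) (nat_lit 127) (nat_lit 61) r6_127 r9_61 (nat_lit 0) (nat_lit 0) (nat_lit 0) (nat_lit 0x20056d4f2) (nat_lit 268435456),
  Rx.mk (nat_lit 181) (nat_lit 5) (nat_lit 6) (nat_lit 2) (nat_lit 7) (nat_lit 126) (nat_lit 62) r6_126 r9_62 (nat_lit 0) (nat_lit 0) (nat_lit 0) (nat_lit 0x20056d4f2) (nat_lit 268435456)]
noncomputable def e35_42 : List Rx := [
  Rx.mk (nat_lit 177) (nat_lit 1) (nat_lit 6) (nat_lit 2) (nat_lit 7) (nat_lit 169) (nat_lit 62) r6_169 r9_62 (nat_lit 0) (nat_lit 0) (nat_lit 0) (nat_lit 0x20056d4f2) (nat_lit 268435456),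
  Rx.mk (nat_lit 181) (nat_lit 5) (nat_lit 6) (nat_lit 2) (nat_lit 7) (nat_lit 168) (nat_lit 61) r6_168 r9_61 (nat_lit 0) (nat_lit 0) (nat_lit 0) (nat_lit 0x20056d4f2) (nat_lit 268435456)]
noncomputable def e35_43 : List Rx := [
  Rx.mk (nat_lit 177) (nat_lit 1) (nat_lit 6) (nat_lit 2) (nat_lit 7) (nat_lit 9) (nat_lit 89) r6_9 r1_89 (nat_lit 0) (nat_lit 0) (nat_lit 0) (nat_lit 0x250e7ac5c) (nat_lit 185808906),
  Rx.mk (nat_lit 417) (nat_lit 1) (nat_lit 4) (nat_lit 6) (nat_lit 5) (nat_lit 7) (nat_lit 88) r6_7 r1_88 (nat_lit 0) (nat_lit 4999611) (nat_lit 0) (nat_lit 0x209b5945c) (nat_lit 263730017),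
  Rx.mk (nat_lit 433) (nat_lit 1) (nat_lit 6) (nat_lit 6) (nat_lit 7) (nat_lit 8) (nat_lit 90) r6_8 r1_90 (nat_lit 0) (nat_lit 0) (nat_lit 0) (nat_lit 0x21b4e08f2) (nat_lit 240691706)]
noncomputable def e35_44 : List Rx := [
  Rx.mk (nat_lit 177) (nat_lit 1) (nat_lit 6) (nat_lit 2) (nat_lit 7) (nat_lit 125) (nat_lit 224) r6_125 r8_224 (nat_lit 0) (nat_lit 0) (nat_lit 0) (nat_lit 0x20a32e4ac) (nat_lit 258234956),
  Rx.mk (nat_lit 417) (nat_lit 1) (nat_lit 4) (nat_lit 6) (nat_lit 5) (nat_lit 122) (nat_lit 221) r6_122 r8_221 (nat_lit 0) (nat_lit 7973947) (nat_lit 0) (nat_lit 0x1ffd61c22) (nat_lit 276924103),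
  Rx.mk (nat_lit 425) (nat_lit 1) (nat_lit 5) (nat_lit 6) (nat_lit 7) (nat_lit 123) (nat_lit 222) r6_123 r8_222 (nat_lit 0) (nat_lit 0) (nat_lit 0) (nat_lit 0x20056d4f2) (nat_lit 268435456),
  Rx.mk (nat_lit 433) (nat_lit 1) (nat_lit 6) (nat_lit 6) (nat_lit 7) (nat_lit 124) (nat_lit 223) r6_124 r8_223 (nat_lit 0) (nat_lit 0) (nat_lit 0) (nat_lit 0x20056d4f2) (nat_lit 268435456)]
noncomputable def e35_45 : List Rx := [
  Rx.mk (nat_lit 298) (nat_lit 2) (nat_lit 5) (nat_lit 4) (nat_lit 3) (nat_lit 116) (nat_lit 247) r6_116 r1_247 (nat_lit 0) (nat_lit 0) (nat_lit 603204) (nat_lit 0x214e18854) (nat_lit 247758010),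
  Rx.mk (nat_lit 424) (nat_lit 0) (nat_lit 5) (nat_lit 6) (nat_lit 6) (nat_lit 117) (nat_lit 246) r6_117 r1_246 (nat_lit 1926974) (nat_lit 0) (nat_lit 0) (nat_lit 0x22142ee30) (nat_lit 236462830),
  Rx.mk (nat_lit 426) (nat_lit 2) (nat_lit 5) (nat_lit 6) (nat_lit 7) (nat_lit 118) (nat_lit 248) r6_118 r1_248 (nat_lit 0) (nat_lit 0) (nat_lit 0) (nat_lit 0x2545a608c) (nat_lit 182309556)]
noncomputable def e35_46 : List Rx := [
  Rx.mk (nat_lit 266) (nat_lit 2) (nat_lit 1) (nat_lit 4) (nat_lit 3) (nat_lit 289) (nat_lit 270) r6_289 r2_270 (nat_lit 0) (nat_lit 0) (nat_lit 10510343) (nat_lit 0x1f8bf4256) (nat_lit 286894199),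
  Rx.mk (nat_lit 298) (nat_lit 2) (nat_lit 5) (nat_lit 4) (nat_lit 3) (nat_lit 286) (nat_lit 269) r6_286 r2_269 (nat_lit 0) (nat_lit 0) (nat_lit 9484367) (nat_lit 0x1f845577a) (nat_lit 286381923),
  Rx.mk (nat_lit 424) (nat_lit 0) (nat_lit 5) (nat_lit 6) (nat_lit 6) (nat_lit 287) (nat_lit 268) r6_287 r2_268 (nat_lit 10188298) (nat_lit 0) (nat_lit 0) (nat_lit 0x1fc8c4b22) (nat_lit 282587704),
  Rx.mk (nat_lit 426) (nat_lit 2) (nat_lit 5) (nat_lit 6) (nat_lit 7) (nat_lit 288) (nat_lit 271) r6_288 r2_271 (nat_lit 0) (nat_lit 0) (nat_lit 0) (nat_lit 0x20056d4f2) (nat_lit 268435456)]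
noncomputable def e35_47 : List Rx := [
  Rx.mk (nat_lit 424) (nat_lit 0) (nat_lit 5) (nat_lit 6) (nat_lit 6) (nat_lit 119) (nat_lit 71) r6_119 r8_71 (nat_lit 3112990) (nat_lit 0) (nat_lit 0) (nat_lit 0x203633f14) (nat_lit 268344796),
  Rx.mk (nat_lit 425) (nat_lit 1) (nat_lit 5) (nat_lit 6) (nat_lit 7) (nat_lit 120) (nat_lit 72) r6_120 r8_72 (nat_lit 0) (nat_lit 0) (nat_lit 0) (nat_lit 0x2081b6e6e) (nat_lit 260388556),
  Rx.mk (nat_lit 426) (nat_lit 2) (nat_lit 5) (nat_lit 6) (nat_lit 7) (nat_lit 121) (nat_lit 73) r6_121 r8_73 (nat_lit 0) (nat_lit 0) (nat_lit 0) (nat_lit 0x20bcf9418) (nat_lit 256577206)]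
noncomputable def e35_48 : List Rx := [
  Rx.mk (nat_lit 424) (nat_lit 0) (nat_lit 5) (nat_lit 6) (nat_lit 6) (nat_lit 295) (nat_lit 241) r6_295 r9_241 (nat_lit 10679085) (nat_lit 0) (nat_lit 0) (nat_lit 0x1f89d2662) (nat_lit 287212591),
  Rx.mk (nat_lit 425) (nat_lit 1) (nat_lit 5) (nat_lit 6) (nat_lit 7) (nat_lit 296) (nat_lit 242) r6_296 r9_242 (nat_lit 0) (nat_lit 0) (nat_lit 0) (nat_lit 0x20056d4f2) (nat_lit 268435456),
  Rx.mk (nat_lit 426) (nat_lit 2) (nat_lit 5) (nat_lit 6) (nat_lit 7) (nat_lit 297) (nat_lit 243) r6_297 r9_243 (nat_lit 0) (nat_lit 0) (nat_lit 0) (nat_lit 0x20056d4f2) (nat_lit 268435456)]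
noncomputable def e35_49 : List Rx := [
  Rx.mk (nat_lit 266) (nat_lit 2) (nat_lit 1) (nat_lit 4) (nat_lit 3) (nat_lit 293) (nat_lit 219) r6_293 r9_219 (nat_lit 0) (nat_lit 0) (nat_lit 9484367) (nat_lit 0x1fafd9e3c) (nat_lit 283511073),
  Rx.mk (nat_lit 298) (nat_lit 2) (nat_lit 5) (nat_lit 4) (nat_lit 3) (nat_lit 290) (nat_lit 220) r6_290 r9_220 (nat_lit 0) (nat_lit 0) (nat_lit 10732257) (nat_lit 0x1f762bc30) (nat_lit 288560063),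
  Rx.mk (nat_lit 330) (nat_lit 2) (nat_lit 1) (nat_lit 5) (nat_lit 7) (nat_lit 294) (nat_lit 221) r6_294 r9_221 (nat_lit 0) (nat_lit 0) (nat_lit 0) (nat_lit 0x20056d4f2) (nat_lit 268435456),
  Rx.mk (nat_lit 362) (nat_lit 2) (nat_lit 5) (nat_lit 5) (nat_lit 7) (nat_lit 291) (nat_lit 222) r6_291 r9_222 (nat_lit 0) (nat_lit 0) (nat_lit 0) (nat_lit 0x20056d4f2) (nat_lit 268435456),
  Rx.mk (nat_lit 426) (nat_lit 2) (nat_lit 5) (nat_lit 6) (nat_lit 7) (nat_lit 292) (nat_lit 223) r6_292 r9_223 (nat_lit 0) (nat_lit 0) (nat_lit 0) (nat_lit 0x20056d4f2) (nat_lit 268435456)]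
noncomputable def e35_50 : List Rx := [
  Rx.mk (nat_lit 176) (nat_lit 0) (nat_lit 6) (nat_lit 2) (nat_lit 6) (nat_lit 15) (nat_lit 230) r6_15 r3_230 (nat_lit 42529) (nat_lit 0) (nat_lit 0) (nat_lit 0x20054727a) (nat_lit 268160185),
  Rx.mk (nat_lit 179) (nat_lit 3) (nat_lit 6) (nat_lit 2) (nat_lit 7) (nat_lit 16) (nat_lit 231) r6_16 r3_231 (nat_lit 0) (nat_lit 0) (nat_lit 0) (nat_lit 0x1feaffbc4) (nat_lit 269987556),
  Rx.mk (nat_lit 314) (nat_lit 2) (nat_lit 7) (nat_lit 4) (nat_lit 3) (nat_lit 17) (nat_lit 232) r6_17 r3_232 (nat_lit 0) (nat_lit 0) (nat_lit 48302) (nat_lit 0x1fe7cb0de) (nat_lit 270097708),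
  Rx.mk (nat_lit 416) (nat_lit 0) (nat_lit 4) (nat_lit 6) (nat_lit 4) (nat_lit 12) (nat_lit 227) r6_12 r3_227 (nat_lit 488) (nat_lit 663) (nat_lit 0) (nat_lit 0x1fffeebde) (nat_lit 268441307),
  Rx.mk (nat_lit 418) (nat_lit 2) (nat_lit 4) (nat_lit 6) (nat_lit 5) (nat_lit 13) (nat_lit 233) r6_13 r3_233 (nat_lit 0) (nat_lit 425539) (nat_lit 0) (nat_lit 0x1f9642abe) (nat_lit 275966895),
  Rx.mk (nat_lit 432) (nat_lit 0) (nat_lit 6) (nat_lit 6) (nat_lit 6) (nat_lit 14) (nat_lit 229) r6_14 r3_229 (nat_lit 102676) (nat_lit 0) (nat_lit 0) (nat_lit 0x1ff4ce4f2) (nat_lit 269322382),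
  Rx.mk (nat_lit 440) (nat_lit 0) (nat_lit 7) (nat_lit 6) (nat_lit 6) (nat_lit 18) (nat_lit 228) r6_18 r3_228 (nat_lit 35776) (nat_lit 0) (nat_lit 0) (nat_lit 0x200c86f04) (nat_lit 267688682),
  Rx.mk (nat_lit 442) (nat_lit 2) (nat_lit 7) (nat_lit 6) (nat_lit 7) (nat_lit 19) (nat_lit 234) r6_19 r3_234 (nat_lit 0) (nat_lit 0) (nat_lit 0) (nat_lit 0x232241a80) (nat_lit 217286506)]
noncomputable def e35_51 : List Rx := [
  Rx.mk (nat_lit 176) (nat_lit 0) (nat_lit 6) (nat_lit 2) (nat_lit 6) (nat_lit 135) (nat_lit 233) r6_135 r4_233 (nat_lit 5598281) (nat_lit 0) (nat_lit 0) (nat_lit 0x1e289abde) (nat_lit 305500037),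
  Rx.mk (nat_lit 179) (nat_lit 3) (nat_lit 6) (nat_lit 2) (nat_lit 7) (nat_lit 136) (nat_lit 234) r6_136 r4_234 (nat_lit 0) (nat_lit 0) (nat_lit 0) (nat_lit 0x1fa41fd80) (nat_lit 274732506),
  Rx.mk (nat_lit 290) (nat_lit 2) (nat_lit 4) (nat_lit 4) (nat_lit 1) (nat_lit 128) (nat_lit 235) r6_128 r4_235 (nat_lit 0) (nat_lit 4468) (nat_lit 6730) (nat_lit 0x1dc711886) (nat_lit 306205804),
  Rx.mk (nat_lit 298) (nat_lit 2) (nat_lit 5) (nat_lit 4) (nat_lit 3) (nat_lit 131) (nat_lit 236) r6_131 r4_236 (nat_lit 0) (nat_lit 0) (nat_lit 6773533) (nat_lit 0x2033b14e4) (nat_lit 272200839),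
  Rx.mk (nat_lit 314) (nat_lit 2) (nat_lit 7) (nat_lit 4) (nat_lit 3) (nat_lit 137) (nat_lit 237) r6_137 r4_237 (nat_lit 0) (nat_lit 0) (nat_lit 2212669) (nat_lit 0x2071e303c) (nat_lit 263588475),
  Rx.mk (nat_lit 416) (nat_lit 0) (nat_lit 4) (nat_lit 6) (nat_lit 4) (nat_lit 129) (nat_lit 229) r6_129 r4_229 (nat_lit 34287) (nat_lit 28185) (nat_lit 0) (nat_lit 0x1dae6e1a8) (nat_lit 307898128),
  Rx.mk (nat_lit 418) (nat_lit 2) (nat_lit 4) (nat_lit 6) (nat_lit 5) (nat_lit 130) (nat_lit 238) r6_130 r4_238 (nat_lit 0) (nat_lit 1951987) (nat_lit 0) (nat_lit 0x20331c8da) (nat_lit 267370243),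
  Rx.mk (nat_lit 424) (nat_lit 0) (nat_lit 5) (nat_lit 6) (nat_lit 6) (nat_lit 132) (nat_lit 230) r6_132 r4_230 (nat_lit 4940583) (nat_lit 0) (nat_lit 0) (nat_lit 0x207c65776) (nat_lit 265672239),
  Rx.mk (nat_lit 426) (nat_lit 2) (nat_lit 5) (nat_lit 6) (nat_lit 7) (nat_lit 133) (nat_lit 239) r6_133 r4_239 (nat_lit 0) (nat_lit 0) (nat_lit 0) (nat_lit 0x2116200aa) (nat_lit 250859506),
  Rx.mk (nat_lit 432) (nat_lit 0) (nat_lit 6) (nat_lit 6) (nat_lit 6) (nat_lit 134) (nat_lit 232) r6_134 r4_232 (nat_lit 4488278) (nat_lit 0) (nat_lit 0) (nat_lit 0x1fc7820a2) (nat_lit 276951634),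
  Rx.mk (nat_lit 440) (nat_lit 0) (nat_lit 7) (nat_lit 6) (nat_lit 6) (nat_lit 138) (nat_lit 231) r6_138 r4_231 (nat_lit 4487931) (nat_lit 0) (nat_lit 0) (nat_lit 0x209dd549c) (nat_lit 263067837),
  Rx.mk (nat_lit 442) (nat_lit 2) (nat_lit 7) (nat_lit 6) (nat_lit 7) (nat_lit 139) (nat_lit 240) r6_139 r4_240 (nat_lit 0) (nat_lit 0) (nat_lit 0) (nat_lit 0x212e4ad7e) (nat_lit 249311106)]
noncomputable def e35_52 : List Rx := [
  Rx.mk (nat_lit 314) (nat_lit 2) (nat_lit 7) (nat_lit 4) (nat_lit 3) (nat_lit 238) (nat_lit 243) r6_238 r5_243 (nat_lit 0) (nat_lit 0) (nat_lit 16479) (nat_lit 0x2253768b8) (nat_lit 230382735),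
  Rx.mk (nat_lit 440) (nat_lit 0) (nat_lit 7) (nat_lit 6) (nat_lit 6) (nat_lit 239) (nat_lit 242) r6_239 r5_242 (nat_lit 198228) (nat_lit 0) (nat_lit 0) (nat_lit 0x214454a52) (nat_lit 247939134),
  Rx.mk (nat_lit 442) (nat_lit 2) (nat_lit 7) (nat_lit 6) (nat_lit 7) (nat_lit 240) (nat_lit 244) r6_240 r5_244 (nat_lit 0) (nat_lit 0) (nat_lit 0) (nat_lit 0x212b5caea) (nat_lit 249433356)]
noncomputable def e35_53 : List Rx := [
  Rx.mk (nat_lit 176) (nat_lit 0) (nat_lit 6) (nat_lit 2) (nat_lit 6) (nat_lit 25) (nat_lit 84) r6_25 r4_84 (nat_lit 1058406) (nat_lit 0) (nat_lit 0) (nat_lit 0x2050f1acc) (nat_lit 264518012),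
  Rx.mk (nat_lit 177) (nat_lit 1) (nat_lit 6) (nat_lit 2) (nat_lit 7) (nat_lit 26) (nat_lit 85) r6_26 r4_85 (nat_lit 0) (nat_lit 0) (nat_lit 0) (nat_lit 0x20e69a664) (nat_lit 253903856),
  Rx.mk (nat_lit 179) (nat_lit 3) (nat_lit 6) (nat_lit 2) (nat_lit 7) (nat_lit 27) (nat_lit 86) r6_27 r4_86 (nat_lit 0) (nat_lit 0) (nat_lit 0) (nat_lit 0x21165d0ae) (nat_lit 250844706),
  Rx.mk (nat_lit 416) (nat_lit 0) (nat_lit 4) (nat_lit 6) (nat_lit 4) (nat_lit 20) (nat_lit 78) r6_20 r4_78 (nat_lit 246644) (nat_lit 310005) (nat_lit 0) (nat_lit 0x1afb61f3a) (nat_lit 354301405),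
  Rx.mk (nat_lit 417) (nat_lit 1) (nat_lit 4) (nat_lit 6) (nat_lit 5) (nat_lit 21) (nat_lit 79) r6_21 r4_79 (nat_lit 0) (nat_lit 4160886) (nat_lit 0) (nat_lit 0x201f7800e) (nat_lit 270874342),
  Rx.mk (nat_lit 418) (nat_lit 2) (nat_lit 4) (nat_lit 6) (nat_lit 5) (nat_lit 22) (nat_lit 80) r6_22 r4_80 (nat_lit 0) (nat_lit 5004731) (nat_lit 0) (nat_lit 0x1f3bedf5a) (nat_lit 286662037),
  Rx.mk (nat_lit 432) (nat_lit 0) (nat_lit 6) (nat_lit 6) (nat_lit 6) (nat_lit 23) (nat_lit 87) r6_23 r4_87 (nat_lit 2749214) (nat_lit 0) (nat_lit 0) (nat_lit 0x202479fe4) (nat_lit 269130370),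
  Rx.mk (nat_lit 433) (nat_lit 1) (nat_lit 6) (nat_lit 6) (nat_lit 7) (nat_lit 24) (nat_lit 88) r6_24 r4_88 (nat_lit 0) (nat_lit 0) (nat_lit 0) (nat_lit 0x204b40c90) (nat_lit 263901806),
  Rx.mk (nat_lit 440) (nat_lit 0) (nat_lit 7) (nat_lit 6) (nat_lit 6) (nat_lit 28) (nat_lit 81) r6_28 r4_81 (nat_lit 16916) (nat_lit 0) (nat_lit 0) (nat_lit 0x17f6c791e) (nat_lit 404986672),
  Rx.mk (nat_lit 441) (nat_lit 1) (nat_lit 7) (nat_lit 6) (nat_lit 7) (nat_lit 29) (nat_lit 82) r6_29 r4_82 (nat_lit 0) (nat_lit 0) (nat_lit 0) (nat_lit 0x202553b36) (nat_lit 266272206),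
  Rx.mk (nat_lit 442) (nat_lit 2) (nat_lit 7) (nat_lit 6) (nat_lit 7) (nat_lit 30) (nat_lit 83) r6_30 r4_83 (nat_lit 0) (nat_lit 0) (nat_lit 0) (nat_lit 0x1fe3f67c4) (nat_lit 270531556)]
noncomputable def e35_54 : List Rx := [
  Rx.mk (nat_lit 176) (nat_lit 0) (nat_lit 6) (nat_lit 2) (nat_lit 6) (nat_lit 147) (nat_lit 248) r6_147 r10_248 (nat_lit 2445729) (nat_lit 0) (nat_lit 0) (nat_lit 0x1fca8a75e) (nat_lit 274684635),
  Rx.mk (nat_lit 177) (nat_lit 1) (nat_lit 6) (nat_lit 2) (nat_lit 7) (nat_lit 148) (nat_lit 252) r6_148 r10_252 (nat_lit 0) (nat_lit 0) (nat_lit 0) (nat_lit 0x21063f2bc) (nat_lit 251877456),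
  Rx.mk (nat_lit 179) (nat_lit 3) (nat_lit 6) (nat_lit 2) (nat_lit 7) (nat_lit 149) (nat_lit 253) r6_149 r10_253 (nat_lit 0) (nat_lit 0) (nat_lit 0) (nat_lit 0x21063f2bc) (nat_lit 251877456),
  Rx.mk (nat_lit 416) (nat_lit 0) (nat_lit 4) (nat_lit 6) (nat_lit 4) (nat_lit 140) (nat_lit 244) r6_140 r10_244 (nat_lit 543948) (nat_lit 471452) (nat_lit 0) (nat_lit 0x1c7149774) (nat_lit 329972906),
  Rx.mk (nat_lit 417) (nat_lit 1) (nat_lit 4) (nat_lit 6) (nat_lit 5) (nat_lit 141) (nat_lit 249) r6_141 r10_249 (nat_lit 0) (nat_lit 4088468) (nat_lit 0) (nat_lit 0x20ccdca88) (nat_lit 259647924),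
  Rx.mk (nat_lit 418) (nat_lit 2) (nat_lit 4) (nat_lit 6) (nat_lit 5) (nat_lit 142) (nat_lit 254) r6_142 r10_254 (nat_lit 0) (nat_lit 2783281) (nat_lit 0) (nat_lit 0x2029b329e) (nat_lit 268826287),
  Rx.mk (nat_lit 424) (nat_lit 0) (nat_lit 5) (nat_lit 6) (nat_lit 6) (nat_lit 143) (nat_lit 245) r6_143 r10_245 (nat_lit 3377596) (nat_lit 0) (nat_lit 0) (nat_lit 0x20e0bc792) (nat_lit 257655702),
  Rx.mk (nat_lit 426) (nat_lit 2) (nat_lit 5) (nat_lit 6) (nat_lit 7) (nat_lit 144) (nat_lit 255) r6_144 r10_255 (nat_lit 0) (nat_lit 0) (nat_lit 0) (nat_lit 0x21936d120) (nat_lit 242832906),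
  Rx.mk (nat_lit 432) (nat_lit 0) (nat_lit 6) (nat_lit 6) (nat_lit 6) (nat_lit 145) (nat_lit 247) r6_145 r10_247 (nat_lit 7687606) (nat_lit 0) (nat_lit 0) (nat_lit 0x1fbd9977a) (nat_lit 280815412),
  Rx.mk (nat_lit 433) (nat_lit 1) (nat_lit 6) (nat_lit 6) (nat_lit 7) (nat_lit 146) (nat_lit 251) r6_146 r10_251 (nat_lit 0) (nat_lit 0) (nat_lit 0) (nat_lit 0x20056d4f2) (nat_lit 268435456),
  Rx.mk (nat_lit 440) (nat_lit 0) (nat_lit 7) (nat_lit 6) (nat_lit 6) (nat_lit 150) (nat_lit 246) r6_150 r10_246 (nat_lit 3377596) (nat_lit 0) (nat_lit 0) (nat_lit 0x20e0bc792) (nat_lit 257655702),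
  Rx.mk (nat_lit 441) (nat_lit 1) (nat_lit 7) (nat_lit 6) (nat_lit 7) (nat_lit 151) (nat_lit 250) r6_151 r10_250 (nat_lit 0) (nat_lit 0) (nat_lit 0) (nat_lit 0x206360cda) (nat_lit 262345506),
  Rx.mk (nat_lit 442) (nat_lit 2) (nat_lit 7) (nat_lit 6) (nat_lit 7) (nat_lit 152) (nat_lit 256) r6_152 r10_256 (nat_lit 0) (nat_lit 0) (nat_lit 0) (nat_lit 0x21936d120) (nat_lit 242832906)]
noncomputable def e35_55 : List Rx := [
  Rx.mk (nat_lit 440) (nat_lit 0) (nat_lit 7) (nat_lit 6) (nat_lit 6) (nat_lit 241) (nat_lit 284) r6_241 r11_284 (nat_lit 590116) (nat_lit 0) (nat_lit 0) (nat_lit 0x20f551de2) (nat_lit 253440372),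
  Rx.mk (nat_lit 441) (nat_lit 1) (nat_lit 7) (nat_lit 6) (nat_lit 7) (nat_lit 242) (nat_lit 285) r6_242 r11_285 (nat_lit 0) (nat_lit 0) (nat_lit 0) (nat_lit 0x24aadcf74) (nat_lit 192191656),
  Rx.mk (nat_lit 442) (nat_lit 2) (nat_lit 7) (nat_lit 6) (nat_lit 7) (nat_lit 243) (nat_lit 286) r6_243 r11_286 (nat_lit 0) (nat_lit 0) (nat_lit 0) (nat_lit 0x22f7110d6) (nat_lit 220059406)]
noncomputable def e35_56 : List Rx := [
  Rx.mk (nat_lit 179) (nat_lit 3) (nat_lit 6) (nat_lit 2) (nat_lit 7) (nat_lit 36) (nat_lit 77) r6_36 r5_77 (nat_lit 0) (nat_lit 0) (nat_lit 0) (nat_lit 0x1f1d3c4d0) (nat_lit 283510156),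
  Rx.mk (nat_lit 314) (nat_lit 2) (nat_lit 7) (nat_lit 4) (nat_lit 3) (nat_lit 37) (nat_lit 73) r6_37 r5_73 (nat_lit 0) (nat_lit 0) (nat_lit 1386658) (nat_lit 0x2015c39fa) (nat_lit 268669314),
  Rx.mk (nat_lit 416) (nat_lit 0) (nat_lit 4) (nat_lit 6) (nat_lit 4) (nat_lit 31) (nat_lit 70) r6_31 r5_70 (nat_lit 11306) (nat_lit 15951) (nat_lit 0) (nat_lit 0x1f4e5ad46) (nat_lit 280256113),
  Rx.mk (nat_lit 418) (nat_lit 2) (nat_lit 4) (nat_lit 6) (nat_lit 5) (nat_lit 32) (nat_lit 72) r6_32 r5_72 (nat_lit 0) (nat_lit 3522668) (nat_lit 0) (nat_lit 0x1f538abe0) (nat_lit 283613624),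
  Rx.mk (nat_lit 419) (nat_lit 3) (nat_lit 4) (nat_lit 6) (nat_lit 5) (nat_lit 33) (nat_lit 71) r6_33 r5_71 (nat_lit 0) (nat_lit 1884312) (nat_lit 0) (nat_lit 0x2185c267e) (nat_lit 245564918),
  Rx.mk (nat_lit 432) (nat_lit 0) (nat_lit 6) (nat_lit 6) (nat_lit 6) (nat_lit 34) (nat_lit 78) r6_34 r5_78 (nat_lit 4987797) (nat_lit 0) (nat_lit 0) (nat_lit 0x1ee70b7e4) (nat_lit 292271903),
  Rx.mk (nat_lit 435) (nat_lit 3) (nat_lit 6) (nat_lit 6) (nat_lit 7) (nat_lit 35) (nat_lit 79) r6_35 r5_79 (nat_lit 0) (nat_lit 0) (nat_lit 0) (nat_lit 0x200de841a) (nat_lit 267846306),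
  Rx.mk (nat_lit 440) (nat_lit 0) (nat_lit 7) (nat_lit 6) (nat_lit 6) (nat_lit 38) (nat_lit 75) r6_38 r5_75 (nat_lit 453211) (nat_lit 0) (nat_lit 0) (nat_lit 0x2177ae362) (nat_lit 244966567),
  Rx.mk (nat_lit 442) (nat_lit 2) (nat_lit 7) (nat_lit 6) (nat_lit 7) (nat_lit 39) (nat_lit 76) r6_39 r5_76 (nat_lit 0) (nat_lit 0) (nat_lit 0) (nat_lit 0x242461350) (nat_lit 200805656),
  Rx.mk (nat_lit 506) (nat_lit 2) (nat_lit 7) (nat_lit 7) (nat_lit 7) (nat_lit 40) (nat_lit 74) r6_40 r5_74 (nat_lit 0) (nat_lit 0) (nat_lit 0) (nat_lit 0x208c5be3c) (nat_lit 259682256)]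
noncomputable def e35_57 : List Rx := [
  Rx.mk (nat_lit 179) (nat_lit 3) (nat_lit 6) (nat_lit 2) (nat_lit 7) (nat_lit 163) (nat_lit 65) r6_163 r11_65 (nat_lit 0) (nat_lit 0) (nat_lit 0) (nat_lit 0x22369613a) (nat_lit 232374506),
  Rx.mk (nat_lit 290) (nat_lit 2) (nat_lit 4) (nat_lit 4) (nat_lit 1) (nat_lit 153) (nat_lit 53) r6_153 r11_53 (nat_lit 0) (nat_lit 1662226) (nat_lit 2904034) (nat_lit 0x1e31bdcb6) (nat_lit 303844816),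
  Rx.mk (nat_lit 298) (nat_lit 2) (nat_lit 5) (nat_lit 4) (nat_lit 3) (nat_lit 157) (nat_lit 57) r6_157 r11_57 (nat_lit 0) (nat_lit 0) (nat_lit 9484367) (nat_lit 0x20056d4f2) (nat_lit 277919823),
  Rx.mk (nat_lit 314) (nat_lit 2) (nat_lit 7) (nat_lit 4) (nat_lit 3) (nat_lit 164) (nat_lit 61) r6_164 r11_61 (nat_lit 0) (nat_lit 0) (nat_lit 5376294) (nat_lit 0x2018a524a) (nat_lit 272546750),
  Rx.mk (nat_lit 416) (nat_lit 0) (nat_lit 4) (nat_lit 6) (nat_lit 4) (nat_lit 154) (nat_lit 54) r6_154 r11_54 (nat_lit 2196104) (nat_lit 2078946) (nat_lit 0) (nat_lit 0x1d11376e6) (nat_lit 322686806),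
  Rx.mk (nat_lit 418) (nat_lit 2) (nat_lit 4) (nat_lit 6) (nat_lit 5) (nat_lit 155) (nat_lit 56) r6_155 r11_56 (nat_lit 0) (nat_lit 2982038) (nat_lit 0) (nat_lit 0x208453244) (nat_lit 263187894),
  Rx.mk (nat_lit 419) (nat_lit 3) (nat_lit 4) (nat_lit 6) (nat_lit 5) (nat_lit 156) (nat_lit 55) r6_156 r11_55 (nat_lit 0) (nat_lit 4065771) (nat_lit 0) (nat_lit 0x20cb078f2) (nat_lit 259741877),
  Rx.mk (nat_lit 424) (nat_lit 0) (nat_lit 5) (nat_lit 6) (nat_lit 6) (nat_lit 158) (nat_lit 58) r6_158 r11_58 (nat_lit 6967476) (nat_lit 0) (nat_lit 0) (nat_lit 0x202fa6818) (nat_lit 272657232),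
  Rx.mk (nat_lit 426) (nat_lit 2) (nat_lit 5) (nat_lit 6) (nat_lit 7) (nat_lit 159) (nat_lit 60) r6_159 r11_60 (nat_lit 0) (nat_lit 0) (nat_lit 0) (nat_lit 0x2036a4d72) (nat_lit 265237306),
  Rx.mk (nat_lit 427) (nat_lit 3) (nat_lit 5) (nat_lit 6) (nat_lit 7) (nat_lit 160) (nat_lit 59) r6_160 r11_59 (nat_lit 0) (nat_lit 0) (nat_lit 0) (nat_lit 0x20056d4f2) (nat_lit 268435456),
  Rx.mk (nat_lit 432) (nat_lit 0) (nat_lit 6) (nat_lit 6) (nat_lit 6) (nat_lit 161) (nat_lit 66) r6_161 r11_66 (nat_lit 5623974) (nat_lit 0) (nat_lit 0) (nat_lit 0x201dfc1e4) (nat_lit 272453680),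
  Rx.mk (nat_lit 435) (nat_lit 3) (nat_lit 6) (nat_lit 6) (nat_lit 7) (nat_lit 162) (nat_lit 67) r6_162 r11_67 (nat_lit 0) (nat_lit 0) (nat_lit 0) (nat_lit 0x2018ae08e) (nat_lit 267181406),
  Rx.mk (nat_lit 440) (nat_lit 0) (nat_lit 7) (nat_lit 6) (nat_lit 6) (nat_lit 165) (nat_lit 63) r6_165 r11_63 (nat_lit 5125026) (nat_lit 0) (nat_lit 0) (nat_lit 0x2070d31ba) (nat_lit 266601832),
  Rx.mk (nat_lit 442) (nat_lit 2) (nat_lit 7) (nat_lit 6) (nat_lit 7) (nat_lit 166) (nat_lit 64) r6_166 r11_64 (nat_lit 0) (nat_lit 0) (nat_lit 0) (nat_lit 0x2036a4d72) (nat_lit 265237306),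
  Rx.mk (nat_lit 506) (nat_lit 2) (nat_lit 7) (nat_lit 7) (nat_lit 7) (nat_lit 167) (nat_lit 62) r6_167 r11_62 (nat_lit 0) (nat_lit 0) (nat_lit 0) (nat_lit 0x20286b1d4) (nat_lit 266159056)]
noncomputable def e35 : List (List Rx) := [e35_0, e35_1, e35_2, e35_3, e35_4, e35_5, e35_6, e35_7, e35_8, e35_9, e35_10, e35_11, e35_12, e35_13, e35_14, e35_15, e35_16, e35_17, e35_18, e35_19, e35_20, e35_21, e35_22, e35_23, e35_24, e35_25, e35_26, e35_27, e35_28, e35_29, e35_30, e35_31, e35_32, e35_33, e35_34, e35_35, e35_36, e35_37, e35_38, e35_39, e35_40, e35_41, e35_42, e35_43, e35_44, e35_45, e35_46, e35_47, e35_48, e35_49, e35_50, e35_51, e35_52, e35_53, e35_54, e35_55, e35_56, e35_57]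
noncomputable def e36_0 : List Rx := [
  Rx.mk (nat_lit 20) (nat_lit 4) (nat_lit 2) (nat_lit 0) (nat_lit 2) (nat_lit 3) (nat_lit 236) r12_3 r0_236 (nat_lit 17287) (nat_lit 0) (nat_lit 13849) (nat_lit 0x1a39bb7e6) (nat_lit 366576142),
  Rx.mk (nat_lit 22) (nat_lit 6) (nat_lit 2) (nat_lit 0) (nat_lit 3) (nat_lit 5) (nat_lit 241) r12_5 r0_241 (nat_lit 0) (nat_lit 0) (nat_lit 1422249) (nat_lit 0x20c524b88) (nat_lit 257436105),
  Rx.mk (nat_lit 52) (nat_lit 4) (nat_lit 6) (nat_lit 0) (nat_lit 2) (nat_lit 0) (nat_lit 238) r12_0 r0_238 (nat_lit 96469) (nat_lit 0) (nat_lit 65380) (nat_lit 0x18a8c6ef8) (nat_lit 393333155),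
  Rx.mk (nat_lit 84) (nat_lit 4) (nat_lit 2) (nat_lit 1) (nat_lit 6) (nat_lit 4) (nat_lit 237) r12_4 r0_237 (nat_lit 11007) (nat_lit 0) (nat_lit 0) (nat_lit 0x23e1eb872) (nat_lit 204899413),
  Rx.mk (nat_lit 86) (nat_lit 6) (nat_lit 2) (nat_lit 1) (nat_lit 7) (nat_lit 6) (nat_lit 242) r12_6 r0_242 (nat_lit 0) (nat_lit 0) (nat_lit 0) (nat_lit 0x2607f22a8) (nat_lit 169854606),
  Rx.mk (nat_lit 116) (nat_lit 4) (nat_lit 6) (nat_lit 1) (nat_lit 6) (nat_lit 1) (nat_lit 239) r12_1 r0_239 (nat_lit 4326039) (nat_lit 0) (nat_lit 0) (nat_lit 0x1f34cc8b6) (nat_lit 286329845),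
  Rx.mk (nat_lit 180) (nat_lit 4) (nat_lit 6) (nat_lit 2) (nat_lit 6) (nat_lit 2) (nat_lit 240) r12_2 r0_240 (nat_lit 826648) (nat_lit 0) (nat_lit 0) (nat_lit 0x1cf75fa98) (nat_lit 320912104)]
noncomputable def e36_1 : List Rx := [
  Rx.mk (nat_lit 84) (nat_lit 4) (nat_lit 2) (nat_lit 1) (nat_lit 6) (nat_lit 8) (nat_lit 249) r12_8 r1_249 (nat_lit 21232) (nat_lit 0) (nat_lit 0) (nat_lit 0x2243b5f32) (nat_lit 231396038),
  Rx.mk (nat_lit 86) (nat_lit 6) (nat_lit 2) (nat_lit 1) (nat_lit 7) (nat_lit 9) (nat_lit 251) r12_9 r1_251 (nat_lit 0) (nat_lit 0) (nat_lit 0) (nat_lit 0x2637ba8d2) (nat_lit 166787206),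
  Rx.mk (nat_lit 116) (nat_lit 4) (nat_lit 6) (nat_lit 1) (nat_lit 6) (nat_lit 7) (nat_lit 250) r12_7 r1_250 (nat_lit 7255466) (nat_lit 0) (nat_lit 0) (nat_lit 0x20ee82606) (nat_lit 260578772)]
noncomputable def e36_2 : List Rx := [
  Rx.mk (nat_lit 84) (nat_lit 4) (nat_lit 2) (nat_lit 1) (nat_lit 6) (nat_lit 10) (nat_lit 272) r12_10 r2_272 (nat_lit 7488790) (nat_lit 0) (nat_lit 0) (nat_lit 0x1ea5b99b2) (nat_lit 299105196),
  Rx.mk (nat_lit 86) (nat_lit 6) (nat_lit 2) (nat_lit 1) (nat_lit 7) (nat_lit 13) (nat_lit 274) r12_13 r2_274 (nat_lit 0) (nat_lit 0) (nat_lit 0) (nat_lit 0x20056d4f2) (nat_lit 268435456),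
  Rx.mk (nat_lit 326) (nat_lit 6) (nat_lit 0) (nat_lit 5) (nat_lit 5) (nat_lit 11) (nat_lit 273) r12_11 r2_273 (nat_lit 0) (nat_lit 7488790) (nat_lit 0) (nat_lit 0x1ea5b99b2) (nat_lit 299105196),
  Rx.mk (nat_lit 342) (nat_lit 6) (nat_lit 2) (nat_lit 5) (nat_lit 7) (nat_lit 12) (nat_lit 275) r12_12 r2_275 (nat_lit 0) (nat_lit 0) (nat_lit 0) (nat_lit 0x20056d4f2) (nat_lit 268435456)]
noncomputable def e36_3 : List Rx := [
  Rx.mk (nat_lit 20) (nat_lit 4) (nat_lit 2) (nat_lit 0) (nat_lit 2) (nat_lit 16) (nat_lit 235) r12_16 r3_235 (nat_lit 467) (nat_lit 0) (nat_lit 558) (nat_lit 0x1ffff3f58) (nat_lit 268439781),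
  Rx.mk (nat_lit 22) (nat_lit 6) (nat_lit 2) (nat_lit 0) (nat_lit 3) (nat_lit 18) (nat_lit 241) r12_18 r3_241 (nat_lit 0) (nat_lit 0) (nat_lit 28803) (nat_lit 0x1fcdaf02e) (nat_lit 271810059),
  Rx.mk (nat_lit 52) (nat_lit 4) (nat_lit 6) (nat_lit 0) (nat_lit 2) (nat_lit 14) (nat_lit 237) r12_14 r3_237 (nat_lit 558) (nat_lit 0) (nat_lit 467) (nat_lit 0x1ffff3f58) (nat_lit 268439781),
  Rx.mk (nat_lit 55) (nat_lit 7) (nat_lit 6) (nat_lit 0) (nat_lit 3) (nat_lit 20) (nat_lit 239) r12_20 r3_239 (nat_lit 0) (nat_lit 0) (nat_lit 8976) (nat_lit 0x2001493f8) (nat_lit 268367282),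
  Rx.mk (nat_lit 180) (nat_lit 4) (nat_lit 6) (nat_lit 2) (nat_lit 6) (nat_lit 15) (nat_lit 238) r12_15 r3_238 (nat_lit 28803) (nat_lit 0) (nat_lit 0) (nat_lit 0x1fcdaf02e) (nat_lit 271810059),
  Rx.mk (nat_lit 183) (nat_lit 7) (nat_lit 6) (nat_lit 2) (nat_lit 7) (nat_lit 21) (nat_lit 240) r12_21 r3_240 (nat_lit 0) (nat_lit 0) (nat_lit 0) (nat_lit 0x207c16bee) (nat_lit 260594856),
  Rx.mk (nat_lit 212) (nat_lit 4) (nat_lit 2) (nat_lit 3) (nat_lit 6) (nat_lit 17) (nat_lit 236) r12_17 r3_236 (nat_lit 8976) (nat_lit 0) (nat_lit 0) (nat_lit 0x2001493f8) (nat_lit 268367282),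
  Rx.mk (nat_lit 214) (nat_lit 6) (nat_lit 2) (nat_lit 3) (nat_lit 7) (nat_lit 19) (nat_lit 242) r12_19 r3_242 (nat_lit 0) (nat_lit 0) (nat_lit 0) (nat_lit 0x207c16bee) (nat_lit 260594856)]
noncomputable def e36_4 : List Rx := [
  Rx.mk (nat_lit 20) (nat_lit 4) (nat_lit 2) (nat_lit 0) (nat_lit 2) (nat_lit 25) (nat_lit 241) r12_25 r4_241 (nat_lit 5043) (nat_lit 0) (nat_lit 3283) (nat_lit 0x1dea70778) (nat_lit 303854932),
  Rx.mk (nat_lit 22) (nat_lit 6) (nat_lit 2) (nat_lit 0) (nat_lit 3) (nat_lit 28) (nat_lit 250) r12_28 r4_250 (nat_lit 0) (nat_lit 0) (nat_lit 914600) (nat_lit 0x212e92d2c) (nat_lit 250143256),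
  Rx.mk (nat_lit 52) (nat_lit 4) (nat_lit 6) (nat_lit 0) (nat_lit 2) (nat_lit 22) (nat_lit 244) r12_22 r4_244 (nat_lit 194160) (nat_lit 0) (nat_lit 62716) (nat_lit 0x198b63dd8) (nat_lit 378385932),
  Rx.mk (nat_lit 55) (nat_lit 7) (nat_lit 6) (nat_lit 0) (nat_lit 3) (nat_lit 31) (nat_lit 247) r12_31 r4_247 (nat_lit 0) (nat_lit 0) (nat_lit 9060) (nat_lit 0x162942440) (nat_lit 435605266),
  Rx.mk (nat_lit 84) (nat_lit 4) (nat_lit 2) (nat_lit 1) (nat_lit 6) (nat_lit 26) (nat_lit 242) r12_26 r4_242 (nat_lit 2194767) (nat_lit 0) (nat_lit 0) (nat_lit 0x1fb06fb30) (nat_lit 276138523),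
  Rx.mk (nat_lit 86) (nat_lit 6) (nat_lit 2) (nat_lit 1) (nat_lit 7) (nat_lit 29) (nat_lit 251) r12_29 r4_251 (nat_lit 0) (nat_lit 0) (nat_lit 0) (nat_lit 0x215f2f534) (nat_lit 246173406),
  Rx.mk (nat_lit 116) (nat_lit 4) (nat_lit 6) (nat_lit 1) (nat_lit 6) (nat_lit 23) (nat_lit 245) r12_23 r4_245 (nat_lit 4817469) (nat_lit 0) (nat_lit 0) (nat_lit 0x1f2a53646) (nat_lit 287629275),
  Rx.mk (nat_lit 119) (nat_lit 7) (nat_lit 6) (nat_lit 1) (nat_lit 7) (nat_lit 32) (nat_lit 248) r12_32 r4_248 (nat_lit 0) (nat_lit 0) (nat_lit 0) (nat_lit 0x1f200efe6) (nat_lit 283403706),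
  Rx.mk (nat_lit 180) (nat_lit 4) (nat_lit 6) (nat_lit 2) (nat_lit 6) (nat_lit 24) (nat_lit 246) r12_24 r4_246 (nat_lit 5737185) (nat_lit 0) (nat_lit 0) (nat_lit 0x1c7d5f0f4) (nat_lit 333970541),
  Rx.mk (nat_lit 183) (nat_lit 7) (nat_lit 6) (nat_lit 2) (nat_lit 7) (nat_lit 33) (nat_lit 249) r12_33 r4_249 (nat_lit 0) (nat_lit 0) (nat_lit 0) (nat_lit 0x1dddf4940) (nat_lit 304761206),
  Rx.mk (nat_lit 212) (nat_lit 4) (nat_lit 2) (nat_lit 3) (nat_lit 6) (nat_lit 27) (nat_lit 243) r12_27 r4_243 (nat_lit 3905508) (nat_lit 0) (nat_lit 0) (nat_lit 0x20df7f3b6) (nat_lit 258267614),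
  Rx.mk (nat_lit 214) (nat_lit 6) (nat_lit 2) (nat_lit 3) (nat_lit 7) (nat_lit 30) (nat_lit 252) r12_30 r4_252 (nat_lit 0) (nat_lit 0) (nat_lit 0) (nat_lit 0x2184180d0) (nat_lit 243814506)]
noncomputable def e36_5 : List Rx := [
  Rx.mk (nat_lit 52) (nat_lit 4) (nat_lit 6) (nat_lit 0) (nat_lit 2) (nat_lit 34) (nat_lit 246) r12_34 r5_246 (nat_lit 18631) (nat_lit 0) (nat_lit 12394) (nat_lit 0x1fda9dc86) (nat_lit 270951781),
  Rx.mk (nat_lit 55) (nat_lit 7) (nat_lit 6) (nat_lit 0) (nat_lit 3) (nat_lit 39) (nat_lit 249) r12_39 r5_249 (nat_lit 0) (nat_lit 0) (nat_lit 404270) (nat_lit 0x21d4d23e0) (nat_lit 238951376),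
  Rx.mk (nat_lit 180) (nat_lit 4) (nat_lit 6) (nat_lit 2) (nat_lit 6) (nat_lit 35) (nat_lit 248) r12_35 r5_248 (nat_lit 2033357) (nat_lit 0) (nat_lit 0) (nat_lit 0x1ed529288) (nat_lit 290469663),
  Rx.mk (nat_lit 183) (nat_lit 7) (nat_lit 6) (nat_lit 2) (nat_lit 7) (nat_lit 40) (nat_lit 250) r12_40 r5_250 (nat_lit 0) (nat_lit 0) (nat_lit 0) (nat_lit 0x260e2565c) (nat_lit 169458306),
  Rx.mk (nat_lit 212) (nat_lit 4) (nat_lit 2) (nat_lit 3) (nat_lit 6) (nat_lit 37) (nat_lit 245) r12_37 r5_245 (nat_lit 23050) (nat_lit 0) (nat_lit 0) (nat_lit 0x2295f7ee4) (nat_lit 226140306),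
  Rx.mk (nat_lit 214) (nat_lit 6) (nat_lit 2) (nat_lit 3) (nat_lit 7) (nat_lit 38) (nat_lit 251) r12_38 r5_251 (nat_lit 0) (nat_lit 0) (nat_lit 0) (nat_lit 0x1ff548c20) (nat_lit 269169706),
  Rx.mk (nat_lit 244) (nat_lit 4) (nat_lit 6) (nat_lit 3) (nat_lit 6) (nat_lit 36) (nat_lit 247) r12_36 r5_247 (nat_lit 1029543) (nat_lit 0) (nat_lit 0) (nat_lit 0x228efb500) (nat_lit 227712749)]
noncomputable def e36_6 : List Rx := [
  Rx.mk (nat_lit 258) (nat_lit 2) (nat_lit 0) (nat_lit 4) (nat_lit 1) (nat_lit 45) (nat_lit 237) r12_45 r3_237 (nat_lit 0) (nat_lit 558) (nat_lit 467) (nat_lit 0x1ffff3f58) (nat_lit 268439781),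
  Rx.mk (nat_lit 262) (nat_lit 6) (nat_lit 0) (nat_lit 4) (nat_lit 1) (nat_lit 41) (nat_lit 235) r12_41 r3_235 (nat_lit 0) (nat_lit 467) (nat_lit 558) (nat_lit 0x1ffff3f58) (nat_lit 268439781),
  Rx.mk (nat_lit 278) (nat_lit 6) (nat_lit 2) (nat_lit 4) (nat_lit 3) (nat_lit 43) (nat_lit 241) r12_43 r3_241 (nat_lit 0) (nat_lit 0) (nat_lit 28803) (nat_lit 0x1fcdaf02e) (nat_lit 271810059),
  Rx.mk (nat_lit 282) (nat_lit 2) (nat_lit 3) (nat_lit 4) (nat_lit 3) (nat_lit 47) (nat_lit 239) r12_47 r3_239 (nat_lit 0) (nat_lit 0) (nat_lit 8976) (nat_lit 0x2001493f8) (nat_lit 268367282),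
  Rx.mk (nat_lit 386) (nat_lit 2) (nat_lit 0) (nat_lit 6) (nat_lit 5) (nat_lit 46) (nat_lit 238) r12_46 r3_238 (nat_lit 0) (nat_lit 28803) (nat_lit 0) (nat_lit 0x1fcdaf02e) (nat_lit 271810059),
  Rx.mk (nat_lit 410) (nat_lit 2) (nat_lit 3) (nat_lit 6) (nat_lit 7) (nat_lit 48) (nat_lit 240) r12_48 r3_240 (nat_lit 0) (nat_lit 0) (nat_lit 0) (nat_lit 0x207c16bee) (nat_lit 260594856),
  Rx.mk (nat_lit 454) (nat_lit 6) (nat_lit 0) (nat_lit 7) (nat_lit 5) (nat_lit 42) (nat_lit 236) r12_42 r3_236 (nat_lit 0) (nat_lit 8976) (nat_lit 0) (nat_lit 0x2001493f8) (nat_lit 268367282),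
  Rx.mk (nat_lit 470) (nat_lit 6) (nat_lit 2) (nat_lit 7) (nat_lit 7) (nat_lit 44) (nat_lit 242) r12_44 r3_242 (nat_lit 0) (nat_lit 0) (nat_lit 0) (nat_lit 0x207c16bee) (nat_lit 260594856)]
noncomputable def e36_7 : List Rx := [
  Rx.mk (nat_lit 258) (nat_lit 2) (nat_lit 0) (nat_lit 4) (nat_lit 1) (nat_lit 53) (nat_lit 238) r12_53 r0_238 (nat_lit 0) (nat_lit 96469) (nat_lit 65380) (nat_lit 0x18a8c6ef8) (nat_lit 393333155),
  Rx.mk (nat_lit 262) (nat_lit 6) (nat_lit 0) (nat_lit 4) (nat_lit 1) (nat_lit 49) (nat_lit 236) r12_49 r0_236 (nat_lit 0) (nat_lit 17287) (nat_lit 13849) (nat_lit 0x1a39bb7e6) (nat_lit 366576142),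
  Rx.mk (nat_lit 278) (nat_lit 6) (nat_lit 2) (nat_lit 4) (nat_lit 3) (nat_lit 51) (nat_lit 241) r12_51 r0_241 (nat_lit 0) (nat_lit 0) (nat_lit 1422249) (nat_lit 0x20c524b88) (nat_lit 257436105),
  Rx.mk (nat_lit 322) (nat_lit 2) (nat_lit 0) (nat_lit 5) (nat_lit 5) (nat_lit 54) (nat_lit 239) r12_54 r0_239 (nat_lit 0) (nat_lit 4326039) (nat_lit 0) (nat_lit 0x1f34cc8b6) (nat_lit 286329845),
  Rx.mk (nat_lit 326) (nat_lit 6) (nat_lit 0) (nat_lit 5) (nat_lit 5) (nat_lit 50) (nat_lit 237) r12_50 r0_237 (nat_lit 0) (nat_lit 11007) (nat_lit 0) (nat_lit 0x23e1eb872) (nat_lit 204899413),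
  Rx.mk (nat_lit 342) (nat_lit 6) (nat_lit 2) (nat_lit 5) (nat_lit 7) (nat_lit 52) (nat_lit 242) r12_52 r0_242 (nat_lit 0) (nat_lit 0) (nat_lit 0) (nat_lit 0x2607f22a8) (nat_lit 169854606),
  Rx.mk (nat_lit 386) (nat_lit 2) (nat_lit 0) (nat_lit 6) (nat_lit 5) (nat_lit 55) (nat_lit 240) r12_55 r0_240 (nat_lit 0) (nat_lit 826648) (nat_lit 0) (nat_lit 0x1cf75fa98) (nat_lit 320912104)]
noncomputable def e36_8 : List Rx := [
  Rx.mk (nat_lit 322) (nat_lit 2) (nat_lit 0) (nat_lit 5) (nat_lit 5) (nat_lit 58) (nat_lit 250) r12_58 r1_250 (nat_lit 0) (nat_lit 7255466) (nat_lit 0) (nat_lit 0x20ee82606) (nat_lit 260578772),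
  Rx.mk (nat_lit 326) (nat_lit 6) (nat_lit 0) (nat_lit 5) (nat_lit 5) (nat_lit 56) (nat_lit 249) r12_56 r1_249 (nat_lit 0) (nat_lit 21232) (nat_lit 0) (nat_lit 0x2243b5f32) (nat_lit 231396038),
  Rx.mk (nat_lit 342) (nat_lit 6) (nat_lit 2) (nat_lit 5) (nat_lit 7) (nat_lit 57) (nat_lit 251) r12_57 r1_251 (nat_lit 0) (nat_lit 0) (nat_lit 0) (nat_lit 0x2637ba8d2) (nat_lit 166787206)]
noncomputable def e36_9 : List Rx := [
  Rx.mk (nat_lit 258) (nat_lit 2) (nat_lit 0) (nat_lit 4) (nat_lit 1) (nat_lit 65) (nat_lit 244) r12_65 r4_244 (nat_lit 0) (nat_lit 194160) (nat_lit 62716) (nat_lit 0x198b63dd8) (nat_lit 378385932),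
  Rx.mk (nat_lit 262) (nat_lit 6) (nat_lit 0) (nat_lit 4) (nat_lit 1) (nat_lit 59) (nat_lit 241) r12_59 r4_241 (nat_lit 0) (nat_lit 5043) (nat_lit 3283) (nat_lit 0x1dea70778) (nat_lit 303854932),
  Rx.mk (nat_lit 278) (nat_lit 6) (nat_lit 2) (nat_lit 4) (nat_lit 3) (nat_lit 62) (nat_lit 250) r12_62 r4_250 (nat_lit 0) (nat_lit 0) (nat_lit 914600) (nat_lit 0x212e92d2c) (nat_lit 250143256),
  Rx.mk (nat_lit 282) (nat_lit 2) (nat_lit 3) (nat_lit 4) (nat_lit 3) (nat_lit 68) (nat_lit 247) r12_68 r4_247 (nat_lit 0) (nat_lit 0) (nat_lit 9060) (nat_lit 0x162942440) (nat_lit 435605266),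
  Rx.mk (nat_lit 322) (nat_lit 2) (nat_lit 0) (nat_lit 5) (nat_lit 5) (nat_lit 66) (nat_lit 245) r12_66 r4_245 (nat_lit 0) (nat_lit 4817469) (nat_lit 0) (nat_lit 0x1f2a53646) (nat_lit 287629275),
  Rx.mk (nat_lit 326) (nat_lit 6) (nat_lit 0) (nat_lit 5) (nat_lit 5) (nat_lit 60) (nat_lit 242) r12_60 r4_242 (nat_lit 0) (nat_lit 2194767) (nat_lit 0) (nat_lit 0x1fb06fb30) (nat_lit 276138523),
  Rx.mk (nat_lit 342) (nat_lit 6) (nat_lit 2) (nat_lit 5) (nat_lit 7) (nat_lit 63) (nat_lit 251) r12_63 r4_251 (nat_lit 0) (nat_lit 0) (nat_lit 0) (nat_lit 0x215f2f534) (nat_lit 246173406),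
  Rx.mk (nat_lit 346) (nat_lit 2) (nat_lit 3) (nat_lit 5) (nat_lit 7) (nat_lit 69) (nat_lit 248) r12_69 r4_248 (nat_lit 0) (nat_lit 0) (nat_lit 0) (nat_lit 0x1f200efe6) (nat_lit 283403706),
  Rx.mk (nat_lit 386) (nat_lit 2) (nat_lit 0) (nat_lit 6) (nat_lit 5) (nat_lit 67) (nat_lit 246) r12_67 r4_246 (nat_lit 0) (nat_lit 5737185) (nat_lit 0) (nat_lit 0x1c7d5f0f4) (nat_lit 333970541),
  Rx.mk (nat_lit 410) (nat_lit 2) (nat_lit 3) (nat_lit 6) (nat_lit 7) (nat_lit 70) (nat_lit 249) r12_70 r4_249 (nat_lit 0) (nat_lit 0) (nat_lit 0) (nat_lit 0x1dddf4940) (nat_lit 304761206),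
  Rx.mk (nat_lit 454) (nat_lit 6) (nat_lit 0) (nat_lit 7) (nat_lit 5) (nat_lit 61) (nat_lit 243) r12_61 r4_243 (nat_lit 0) (nat_lit 3905508) (nat_lit 0) (nat_lit 0x20df7f3b6) (nat_lit 258267614),
  Rx.mk (nat_lit 470) (nat_lit 6) (nat_lit 2) (nat_lit 7) (nat_lit 7) (nat_lit 64) (nat_lit 252) r12_64 r4_252 (nat_lit 0) (nat_lit 0) (nat_lit 0) (nat_lit 0x2184180d0) (nat_lit 243814506)]
noncomputable def e36_10 : List Rx := [
  Rx.mk (nat_lit 55) (nat_lit 7) (nat_lit 6) (nat_lit 0) (nat_lit 3) (nat_lit 76) (nat_lit 270) r12_76 r6_270 (nat_lit 0) (nat_lit 0) (nat_lit 146626) (nat_lit 0x1f441a6d8) (nat_lit 281094182),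
  Rx.mk (nat_lit 183) (nat_lit 7) (nat_lit 6) (nat_lit 2) (nat_lit 7) (nat_lit 77) (nat_lit 272) r12_77 r6_272 (nat_lit 0) (nat_lit 0) (nat_lit 0) (nat_lit 0x21176ca94) (nat_lit 250645206),
  Rx.mk (nat_lit 212) (nat_lit 4) (nat_lit 2) (nat_lit 3) (nat_lit 6) (nat_lit 72) (nat_lit 268) r12_72 r6_268 (nat_lit 14857) (nat_lit 0) (nat_lit 0) (nat_lit 0x1ff4ffbce) (nat_lit 269185263),
  Rx.mk (nat_lit 214) (nat_lit 6) (nat_lit 2) (nat_lit 3) (nat_lit 7) (nat_lit 75) (nat_lit 274) r12_75 r6_274 (nat_lit 0) (nat_lit 0) (nat_lit 0) (nat_lit 0x1fed76876) (nat_lit 269674906),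
  Rx.mk (nat_lit 244) (nat_lit 4) (nat_lit 6) (nat_lit 3) (nat_lit 6) (nat_lit 71) (nat_lit 269) r12_71 r6_269 (nat_lit 32224) (nat_lit 0) (nat_lit 0) (nat_lit 0x1fdd9cdd8) (nat_lit 270760630),
  Rx.mk (nat_lit 247) (nat_lit 7) (nat_lit 6) (nat_lit 3) (nat_lit 7) (nat_lit 78) (nat_lit 271) r12_78 r6_271 (nat_lit 0) (nat_lit 0) (nat_lit 0) (nat_lit 0x21895dd60) (nat_lit 243363956),
  Rx.mk (nat_lit 282) (nat_lit 2) (nat_lit 3) (nat_lit 4) (nat_lit 3) (nat_lit 80) (nat_lit 265) r12_80 r6_265 (nat_lit 0) (nat_lit 0) (nat_lit 146626) (nat_lit 0x1f441a6d8) (nat_lit 281094182),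
  Rx.mk (nat_lit 410) (nat_lit 2) (nat_lit 3) (nat_lit 6) (nat_lit 7) (nat_lit 81) (nat_lit 267) r12_81 r6_267 (nat_lit 0) (nat_lit 0) (nat_lit 0) (nat_lit 0x21176ca94) (nat_lit 250645206),
  Rx.mk (nat_lit 450) (nat_lit 2) (nat_lit 0) (nat_lit 7) (nat_lit 5) (nat_lit 79) (nat_lit 264) r12_79 r6_264 (nat_lit 0) (nat_lit 32224) (nat_lit 0) (nat_lit 0x1fdd9cdd8) (nat_lit 270760630),
  Rx.mk (nat_lit 454) (nat_lit 6) (nat_lit 0) (nat_lit 7) (nat_lit 5) (nat_lit 73) (nat_lit 273) r12_73 r6_273 (nat_lit 0) (nat_lit 14857) (nat_lit 0) (nat_lit 0x1ff4ffbce) (nat_lit 269185263),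
  Rx.mk (nat_lit 470) (nat_lit 6) (nat_lit 2) (nat_lit 7) (nat_lit 7) (nat_lit 74) (nat_lit 275) r12_74 r6_275 (nat_lit 0) (nat_lit 0) (nat_lit 0) (nat_lit 0x1fed76876) (nat_lit 269674906),
  Rx.mk (nat_lit 474) (nat_lit 2) (nat_lit 3) (nat_lit 7) (nat_lit 7) (nat_lit 82) (nat_lit 266) r12_82 r6_266 (nat_lit 0) (nat_lit 0) (nat_lit 0) (nat_lit 0x21895dd60) (nat_lit 243363956)]
noncomputable def e36_11 : List Rx := [
  Rx.mk (nat_lit 258) (nat_lit 2) (nat_lit 0) (nat_lit 4) (nat_lit 1) (nat_lit 85) (nat_lit 246) r12_85 r5_246 (nat_lit 0) (nat_lit 18631) (nat_lit 12394) (nat_lit 0x1fda9dc86) (nat_lit 270951781),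
  Rx.mk (nat_lit 282) (nat_lit 2) (nat_lit 3) (nat_lit 4) (nat_lit 3) (nat_lit 88) (nat_lit 249) r12_88 r5_249 (nat_lit 0) (nat_lit 0) (nat_lit 404270) (nat_lit 0x21d4d23e0) (nat_lit 238951376),
  Rx.mk (nat_lit 386) (nat_lit 2) (nat_lit 0) (nat_lit 6) (nat_lit 5) (nat_lit 86) (nat_lit 248) r12_86 r5_248 (nat_lit 0) (nat_lit 2033357) (nat_lit 0) (nat_lit 0x1ed529288) (nat_lit 290469663),
  Rx.mk (nat_lit 410) (nat_lit 2) (nat_lit 3) (nat_lit 6) (nat_lit 7) (nat_lit 89) (nat_lit 250) r12_89 r5_250 (nat_lit 0) (nat_lit 0) (nat_lit 0) (nat_lit 0x260e2565c) (nat_lit 169458306),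
  Rx.mk (nat_lit 450) (nat_lit 2) (nat_lit 0) (nat_lit 7) (nat_lit 5) (nat_lit 87) (nat_lit 247) r12_87 r5_247 (nat_lit 0) (nat_lit 1029543) (nat_lit 0) (nat_lit 0x228efb500) (nat_lit 227712749),
  Rx.mk (nat_lit 454) (nat_lit 6) (nat_lit 0) (nat_lit 7) (nat_lit 5) (nat_lit 83) (nat_lit 245) r12_83 r5_245 (nat_lit 0) (nat_lit 23050) (nat_lit 0) (nat_lit 0x2295f7ee4) (nat_lit 226140306),
  Rx.mk (nat_lit 470) (nat_lit 6) (nat_lit 2) (nat_lit 7) (nat_lit 7) (nat_lit 84) (nat_lit 251) r12_84 r5_251 (nat_lit 0) (nat_lit 0) (nat_lit 0) (nat_lit 0x1ff548c20) (nat_lit 269169706)]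
noncomputable def e36_12 : List Rx := [
  Rx.mk (nat_lit 20) (nat_lit 4) (nat_lit 2) (nat_lit 0) (nat_lit 2) (nat_lit 92) (nat_lit 238) r12_92 r0_238 (nat_lit 65380) (nat_lit 0) (nat_lit 96469) (nat_lit 0x18a8c6ef8) (nat_lit 393333155),
  Rx.mk (nat_lit 21) (nat_lit 5) (nat_lit 2) (nat_lit 0) (nat_lit 3) (nat_lit 95) (nat_lit 239) r12_95 r0_239 (nat_lit 0) (nat_lit 0) (nat_lit 4326039) (nat_lit 0x1f34cc8b6) (nat_lit 286329845),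
  Rx.mk (nat_lit 22) (nat_lit 6) (nat_lit 2) (nat_lit 0) (nat_lit 3) (nat_lit 96) (nat_lit 240) r12_96 r0_240 (nat_lit 0) (nat_lit 0) (nat_lit 826648) (nat_lit 0x1cf75fa98) (nat_lit 320912104),
  Rx.mk (nat_lit 52) (nat_lit 4) (nat_lit 6) (nat_lit 0) (nat_lit 2) (nat_lit 90) (nat_lit 236) r12_90 r0_236 (nat_lit 13849) (nat_lit 0) (nat_lit 17287) (nat_lit 0x1a39bb7e6) (nat_lit 366576142),
  Rx.mk (nat_lit 53) (nat_lit 5) (nat_lit 6) (nat_lit 0) (nat_lit 3) (nat_lit 93) (nat_lit 237) r12_93 r0_237 (nat_lit 0) (nat_lit 0) (nat_lit 11007) (nat_lit 0x23e1eb872) (nat_lit 204899413),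
  Rx.mk (nat_lit 180) (nat_lit 4) (nat_lit 6) (nat_lit 2) (nat_lit 6) (nat_lit 91) (nat_lit 241) r12_91 r0_241 (nat_lit 1422249) (nat_lit 0) (nat_lit 0) (nat_lit 0x20c524b88) (nat_lit 257436105),
  Rx.mk (nat_lit 181) (nat_lit 5) (nat_lit 6) (nat_lit 2) (nat_lit 7) (nat_lit 94) (nat_lit 242) r12_94 r0_242 (nat_lit 0) (nat_lit 0) (nat_lit 0) (nat_lit 0x2607f22a8) (nat_lit 169854606)]
noncomputable def e36_13 : List Rx := [
  Rx.mk (nat_lit 20) (nat_lit 4) (nat_lit 2) (nat_lit 0) (nat_lit 2) (nat_lit 100) (nat_lit 303) r12_100 r7_303 (nat_lit 182123) (nat_lit 0) (nat_lit 205538) (nat_lit 0x1b7456eea) (nat_lit 346095267),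
  Rx.mk (nat_lit 21) (nat_lit 5) (nat_lit 2) (nat_lit 0) (nat_lit 3) (nat_lit 105) (nat_lit 308) r12_105 r7_308 (nat_lit 0) (nat_lit 0) (nat_lit 3052202) (nat_lit 0x2031c5afe) (nat_lit 268549008),
  Rx.mk (nat_lit 22) (nat_lit 6) (nat_lit 2) (nat_lit 0) (nat_lit 3) (nat_lit 107) (nat_lit 313) r12_107 r7_313 (nat_lit 0) (nat_lit 0) (nat_lit 1764226) (nat_lit 0x1f2f3f7d6) (nat_lit 284231582),
  Rx.mk (nat_lit 52) (nat_lit 4) (nat_lit 6) (nat_lit 0) (nat_lit 2) (nat_lit 97) (nat_lit 305) r12_97 r7_305 (nat_lit 205538) (nat_lit 0) (nat_lit 182123) (nat_lit 0x1b7456eea) (nat_lit 346095267),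
  Rx.mk (nat_lit 53) (nat_lit 5) (nat_lit 6) (nat_lit 0) (nat_lit 3) (nat_lit 102) (nat_lit 310) r12_102 r7_310 (nat_lit 0) (nat_lit 0) (nat_lit 2496873) (nat_lit 0x1fe2faafa) (nat_lit 273109429),
  Rx.mk (nat_lit 84) (nat_lit 4) (nat_lit 2) (nat_lit 1) (nat_lit 6) (nat_lit 101) (nat_lit 304) r12_101 r7_304 (nat_lit 2496873) (nat_lit 0) (nat_lit 0) (nat_lit 0x1fe2faafa) (nat_lit 273109429),
  Rx.mk (nat_lit 85) (nat_lit 5) (nat_lit 2) (nat_lit 1) (nat_lit 7) (nat_lit 106) (nat_lit 309) r12_106 r7_309 (nat_lit 0) (nat_lit 0) (nat_lit 0) (nat_lit 0x22a5412e2) (nat_lit 225311006),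
  Rx.mk (nat_lit 86) (nat_lit 6) (nat_lit 2) (nat_lit 1) (nat_lit 7) (nat_lit 108) (nat_lit 314) r12_108 r7_314 (nat_lit 0) (nat_lit 0) (nat_lit 0) (nat_lit 0x244f14688) (nat_lit 198076806),
  Rx.mk (nat_lit 116) (nat_lit 4) (nat_lit 6) (nat_lit 1) (nat_lit 6) (nat_lit 98) (nat_lit 306) r12_98 r7_306 (nat_lit 3052202) (nat_lit 0) (nat_lit 0) (nat_lit 0x2031c5afe) (nat_lit 268549008),
  Rx.mk (nat_lit 117) (nat_lit 5) (nat_lit 6) (nat_lit 1) (nat_lit 7) (nat_lit 103) (nat_lit 311) r12_103 r7_311 (nat_lit 0) (nat_lit 0) (nat_lit 0) (nat_lit 0x22a5412e2) (nat_lit 225311006),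
  Rx.mk (nat_lit 180) (nat_lit 4) (nat_lit 6) (nat_lit 2) (nat_lit 6) (nat_lit 99) (nat_lit 307) r12_99 r7_307 (nat_lit 1764226) (nat_lit 0) (nat_lit 0) (nat_lit 0x1f2f3f7d6) (nat_lit 284231582),
  Rx.mk (nat_lit 181) (nat_lit 5) (nat_lit 6) (nat_lit 2) (nat_lit 7) (nat_lit 104) (nat_lit 312) r12_104 r7_312 (nat_lit 0) (nat_lit 0) (nat_lit 0) (nat_lit 0x244f14688) (nat_lit 198076806)]
noncomputable def e36_14 : List Rx := [
  Rx.mk (nat_lit 21) (nat_lit 5) (nat_lit 2) (nat_lit 0) (nat_lit 3) (nat_lit 111) (nat_lit 250) r12_111 r1_250 (nat_lit 0) (nat_lit 0) (nat_lit 7255466) (nat_lit 0x20ee82606) (nat_lit 260578772),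
  Rx.mk (nat_lit 53) (nat_lit 5) (nat_lit 6) (nat_lit 0) (nat_lit 3) (nat_lit 109) (nat_lit 249) r12_109 r1_249 (nat_lit 0) (nat_lit 0) (nat_lit 21232) (nat_lit 0x2243b5f32) (nat_lit 231396038),
  Rx.mk (nat_lit 181) (nat_lit 5) (nat_lit 6) (nat_lit 2) (nat_lit 7) (nat_lit 110) (nat_lit 251) r12_110 r1_251 (nat_lit 0) (nat_lit 0) (nat_lit 0) (nat_lit 0x2637ba8d2) (nat_lit 166787206)]
noncomputable def e36_15 : List Rx := [
  Rx.mk (nat_lit 21) (nat_lit 5) (nat_lit 2) (nat_lit 0) (nat_lit 3) (nat_lit 115) (nat_lit 225) r12_115 r8_225 (nat_lit 0) (nat_lit 0) (nat_lit 7891744) (nat_lit 0x1fc6d7b0c) (nat_lit 280406750),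
  Rx.mk (nat_lit 53) (nat_lit 5) (nat_lit 6) (nat_lit 0) (nat_lit 3) (nat_lit 112) (nat_lit 227) r12_112 r8_227 (nat_lit 0) (nat_lit 0) (nat_lit 1718674) (nat_lit 0x2019e5d76) (nat_lit 268749930),
  Rx.mk (nat_lit 85) (nat_lit 5) (nat_lit 2) (nat_lit 1) (nat_lit 7) (nat_lit 116) (nat_lit 226) r12_116 r8_226 (nat_lit 0) (nat_lit 0) (nat_lit 0) (nat_lit 0x20056d4f2) (nat_lit 268435456),
  Rx.mk (nat_lit 117) (nat_lit 5) (nat_lit 6) (nat_lit 1) (nat_lit 7) (nat_lit 113) (nat_lit 228) r12_113 r8_228 (nat_lit 0) (nat_lit 0) (nat_lit 0) (nat_lit 0x212881cf8) (nat_lit 249679706),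
  Rx.mk (nat_lit 181) (nat_lit 5) (nat_lit 6) (nat_lit 2) (nat_lit 7) (nat_lit 114) (nat_lit 229) r12_114 r8_229 (nat_lit 0) (nat_lit 0) (nat_lit 0) (nat_lit 0x217654bc4) (nat_lit 244695456)]
noncomputable def e36_16 : List Rx := [
  Rx.mk (nat_lit 84) (nat_lit 4) (nat_lit 2) (nat_lit 1) (nat_lit 6) (nat_lit 118) (nat_lit 227) r12_118 r8_227 (nat_lit 1718674) (nat_lit 0) (nat_lit 0) (nat_lit 0x2019e5d76) (nat_lit 268749930),
  Rx.mk (nat_lit 85) (nat_lit 5) (nat_lit 2) (nat_lit 1) (nat_lit 7) (nat_lit 120) (nat_lit 228) r12_120 r8_228 (nat_lit 0) (nat_lit 0) (nat_lit 0) (nat_lit 0x212881cf8) (nat_lit 249679706),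
  Rx.mk (nat_lit 86) (nat_lit 6) (nat_lit 2) (nat_lit 1) (nat_lit 7) (nat_lit 121) (nat_lit 229) r12_121 r8_229 (nat_lit 0) (nat_lit 0) (nat_lit 0) (nat_lit 0x217654bc4) (nat_lit 244695456),
  Rx.mk (nat_lit 116) (nat_lit 4) (nat_lit 6) (nat_lit 1) (nat_lit 6) (nat_lit 117) (nat_lit 225) r12_117 r8_225 (nat_lit 7891744) (nat_lit 0) (nat_lit 0) (nat_lit 0x1fc6d7b0c) (nat_lit 280406750),
  Rx.mk (nat_lit 117) (nat_lit 5) (nat_lit 6) (nat_lit 1) (nat_lit 7) (nat_lit 119) (nat_lit 226) r12_119 r8_226 (nat_lit 0) (nat_lit 0) (nat_lit 0) (nat_lit 0x20056d4f2) (nat_lit 268435456)]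
noncomputable def e36_17 : List Rx := [
  Rx.mk (nat_lit 84) (nat_lit 4) (nat_lit 2) (nat_lit 1) (nat_lit 6) (nat_lit 122) (nat_lit 244) r12_122 r9_244 (nat_lit 11069367) (nat_lit 0) (nat_lit 0) (nat_lit 0x1ef76333a) (nat_lit 297276673),
  Rx.mk (nat_lit 85) (nat_lit 5) (nat_lit 2) (nat_lit 1) (nat_lit 7) (nat_lit 123) (nat_lit 245) r12_123 r9_245 (nat_lit 0) (nat_lit 0) (nat_lit 0) (nat_lit 0x20056d4f2) (nat_lit 268435456),
  Rx.mk (nat_lit 86) (nat_lit 6) (nat_lit 2) (nat_lit 1) (nat_lit 7) (nat_lit 125) (nat_lit 246) r12_125 r9_246 (nat_lit 0) (nat_lit 0) (nat_lit 0) (nat_lit 0x20056d4f2) (nat_lit 268435456),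
  Rx.mk (nat_lit 342) (nat_lit 6) (nat_lit 2) (nat_lit 5) (nat_lit 7) (nat_lit 124) (nat_lit 247) r12_124 r9_247 (nat_lit 0) (nat_lit 0) (nat_lit 0) (nat_lit 0x20056d4f2) (nat_lit 268435456)]
noncomputable def e36_18 : List Rx := [
  Rx.mk (nat_lit 20) (nat_lit 4) (nat_lit 2) (nat_lit 0) (nat_lit 2) (nat_lit 128) (nat_lit 244) r12_128 r4_244 (nat_lit 62716) (nat_lit 0) (nat_lit 194160) (nat_lit 0x198b63dd8) (nat_lit 378385932),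
  Rx.mk (nat_lit 21) (nat_lit 5) (nat_lit 2) (nat_lit 0) (nat_lit 3) (nat_lit 132) (nat_lit 245) r12_132 r4_245 (nat_lit 0) (nat_lit 0) (nat_lit 4817469) (nat_lit 0x1f2a53646) (nat_lit 287629275),
  Rx.mk (nat_lit 22) (nat_lit 6) (nat_lit 2) (nat_lit 0) (nat_lit 3) (nat_lit 134) (nat_lit 246) r12_134 r4_246 (nat_lit 0) (nat_lit 0) (nat_lit 5737185) (nat_lit 0x1c7d5f0f4) (nat_lit 333970541),
  Rx.mk (nat_lit 52) (nat_lit 4) (nat_lit 6) (nat_lit 0) (nat_lit 2) (nat_lit 126) (nat_lit 241) r12_126 r4_241 (nat_lit 3283) (nat_lit 0) (nat_lit 5043) (nat_lit 0x1dea70778) (nat_lit 303854932),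
  Rx.mk (nat_lit 53) (nat_lit 5) (nat_lit 6) (nat_lit 0) (nat_lit 3) (nat_lit 130) (nat_lit 242) r12_130 r4_242 (nat_lit 0) (nat_lit 0) (nat_lit 2194767) (nat_lit 0x1fb06fb30) (nat_lit 276138523),
  Rx.mk (nat_lit 55) (nat_lit 7) (nat_lit 6) (nat_lit 0) (nat_lit 3) (nat_lit 136) (nat_lit 243) r12_136 r4_243 (nat_lit 0) (nat_lit 0) (nat_lit 3905508) (nat_lit 0x20df7f3b6) (nat_lit 258267614),
  Rx.mk (nat_lit 180) (nat_lit 4) (nat_lit 6) (nat_lit 2) (nat_lit 6) (nat_lit 127) (nat_lit 250) r12_127 r4_250 (nat_lit 914600) (nat_lit 0) (nat_lit 0) (nat_lit 0x212e92d2c) (nat_lit 250143256),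
  Rx.mk (nat_lit 181) (nat_lit 5) (nat_lit 6) (nat_lit 2) (nat_lit 7) (nat_lit 131) (nat_lit 251) r12_131 r4_251 (nat_lit 0) (nat_lit 0) (nat_lit 0) (nat_lit 0x215f2f534) (nat_lit 246173406),
  Rx.mk (nat_lit 183) (nat_lit 7) (nat_lit 6) (nat_lit 2) (nat_lit 7) (nat_lit 137) (nat_lit 252) r12_137 r4_252 (nat_lit 0) (nat_lit 0) (nat_lit 0) (nat_lit 0x2184180d0) (nat_lit 243814506),
  Rx.mk (nat_lit 212) (nat_lit 4) (nat_lit 2) (nat_lit 3) (nat_lit 6) (nat_lit 129) (nat_lit 247) r12_129 r4_247 (nat_lit 9060) (nat_lit 0) (nat_lit 0) (nat_lit 0x162942440) (nat_lit 435605266),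
  Rx.mk (nat_lit 213) (nat_lit 5) (nat_lit 2) (nat_lit 3) (nat_lit 7) (nat_lit 133) (nat_lit 248) r12_133 r4_248 (nat_lit 0) (nat_lit 0) (nat_lit 0) (nat_lit 0x1f200efe6) (nat_lit 283403706),
  Rx.mk (nat_lit 214) (nat_lit 6) (nat_lit 2) (nat_lit 3) (nat_lit 7) (nat_lit 135) (nat_lit 249) r12_135 r4_249 (nat_lit 0) (nat_lit 0) (nat_lit 0) (nat_lit 0x1dddf4940) (nat_lit 304761206)]
noncomputable def e36_19 : List Rx := [
  Rx.mk (nat_lit 20) (nat_lit 4) (nat_lit 2) (nat_lit 0) (nat_lit 2) (nat_lit 141) (nat_lit 257) r12_141 r10_257 (nat_lit 322441) (nat_lit 0) (nat_lit 325914) (nat_lit 0x1c234ab86) (nat_lit 334766061),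
  Rx.mk (nat_lit 21) (nat_lit 5) (nat_lit 2) (nat_lit 0) (nat_lit 3) (nat_lit 146) (nat_lit 263) r12_146 r10_263 (nat_lit 0) (nat_lit 0) (nat_lit 2881372) (nat_lit 0x22e576b1e) (nat_lit 224085728),
  Rx.mk (nat_lit 22) (nat_lit 6) (nat_lit 2) (nat_lit 0) (nat_lit 3) (nat_lit 148) (nat_lit 270) r12_148 r10_270 (nat_lit 0) (nat_lit 0) (nat_lit 1837154) (nat_lit 0x1fc64b86e) (nat_lit 274338360),
  Rx.mk (nat_lit 52) (nat_lit 4) (nat_lit 6) (nat_lit 0) (nat_lit 2) (nat_lit 138) (nat_lit 260) r12_138 r10_260 (nat_lit 325914) (nat_lit 0) (nat_lit 322441) (nat_lit 0x1c234ab86) (nat_lit 334766061),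
  Rx.mk (nat_lit 53) (nat_lit 5) (nat_lit 6) (nat_lit 0) (nat_lit 3) (nat_lit 144) (nat_lit 265) r12_144 r10_265 (nat_lit 0) (nat_lit 0) (nat_lit 2243506) (nat_lit 0x219b704a8) (nat_lit 244550362),
  Rx.mk (nat_lit 55) (nat_lit 7) (nat_lit 6) (nat_lit 0) (nat_lit 3) (nat_lit 151) (nat_lit 267) r12_151 r10_267 (nat_lit 0) (nat_lit 0) (nat_lit 2167477) (nat_lit 0x21701f934) (nat_lit 247245333),
  Rx.mk (nat_lit 84) (nat_lit 4) (nat_lit 2) (nat_lit 1) (nat_lit 6) (nat_lit 142) (nat_lit 258) r12_142 r10_258 (nat_lit 2243506) (nat_lit 0) (nat_lit 0) (nat_lit 0x219b704a8) (nat_lit 244550362),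
  Rx.mk (nat_lit 86) (nat_lit 6) (nat_lit 2) (nat_lit 1) (nat_lit 7) (nat_lit 149) (nat_lit 271) r12_149 r10_271 (nat_lit 0) (nat_lit 0) (nat_lit 0) (nat_lit 0x23a566000) (nat_lit 208927306),
  Rx.mk (nat_lit 116) (nat_lit 4) (nat_lit 6) (nat_lit 1) (nat_lit 6) (nat_lit 139) (nat_lit 261) r12_139 r10_261 (nat_lit 2881372) (nat_lit 0) (nat_lit 0) (nat_lit 0x22e576b1e) (nat_lit 224085728),
  Rx.mk (nat_lit 119) (nat_lit 7) (nat_lit 6) (nat_lit 1) (nat_lit 7) (nat_lit 152) (nat_lit 268) r12_152 r10_268 (nat_lit 0) (nat_lit 0) (nat_lit 0) (nat_lit 0x20f770088) (nat_lit 252826306),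
  Rx.mk (nat_lit 180) (nat_lit 4) (nat_lit 6) (nat_lit 2) (nat_lit 6) (nat_lit 140) (nat_lit 262) r12_140 r10_262 (nat_lit 1837154) (nat_lit 0) (nat_lit 0) (nat_lit 0x1fc64b86e) (nat_lit 274338360),
  Rx.mk (nat_lit 181) (nat_lit 5) (nat_lit 6) (nat_lit 2) (nat_lit 7) (nat_lit 145) (nat_lit 266) r12_145 r10_266 (nat_lit 0) (nat_lit 0) (nat_lit 0) (nat_lit 0x23a566000) (nat_lit 208927306),
  Rx.mk (nat_lit 183) (nat_lit 7) (nat_lit 6) (nat_lit 2) (nat_lit 7) (nat_lit 153) (nat_lit 269) r12_153 r10_269 (nat_lit 0) (nat_lit 0) (nat_lit 0) (nat_lit 0x23a566000) (nat_lit 208927306),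
  Rx.mk (nat_lit 212) (nat_lit 4) (nat_lit 2) (nat_lit 3) (nat_lit 6) (nat_lit 143) (nat_lit 259) r12_143 r10_259 (nat_lit 2167477) (nat_lit 0) (nat_lit 0) (nat_lit 0x21701f934) (nat_lit 247245333),
  Rx.mk (nat_lit 213) (nat_lit 5) (nat_lit 2) (nat_lit 3) (nat_lit 7) (nat_lit 147) (nat_lit 264) r12_147 r10_264 (nat_lit 0) (nat_lit 0) (nat_lit 0) (nat_lit 0x20f770088) (nat_lit 252826306),
  Rx.mk (nat_lit 214) (nat_lit 6) (nat_lit 2) (nat_lit 3) (nat_lit 7) (nat_lit 150) (nat_lit 272) r12_150 r10_272 (nat_lit 0) (nat_lit 0) (nat_lit 0) (nat_lit 0x23a566000) (nat_lit 208927306)]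
noncomputable def e36_20 : List Rx := [
  Rx.mk (nat_lit 52) (nat_lit 4) (nat_lit 6) (nat_lit 0) (nat_lit 2) (nat_lit 154) (nat_lit 288) r12_154 r11_288 (nat_lit 774954) (nat_lit 0) (nat_lit 955947) (nat_lit 0x1d70f638e) (nat_lit 313756707),
  Rx.mk (nat_lit 53) (nat_lit 5) (nat_lit 6) (nat_lit 0) (nat_lit 3) (nat_lit 158) (nat_lit 292) r12_158 r11_292 (nat_lit 0) (nat_lit 0) (nat_lit 3540029) (nat_lit 0x2010a1a26) (nat_lit 271220685),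
  Rx.mk (nat_lit 55) (nat_lit 7) (nat_lit 6) (nat_lit 0) (nat_lit 3) (nat_lit 163) (nat_lit 295) r12_163 r11_295 (nat_lit 0) (nat_lit 0) (nat_lit 4597925) (nat_lit 0x209206102) (nat_lit 263936381),
  Rx.mk (nat_lit 180) (nat_lit 4) (nat_lit 6) (nat_lit 2) (nat_lit 6) (nat_lit 155) (nat_lit 290) r12_155 r11_290 (nat_lit 1951873) (nat_lit 0) (nat_lit 0) (nat_lit 0x20a63d10c) (nat_lit 259964879),
  Rx.mk (nat_lit 181) (nat_lit 5) (nat_lit 6) (nat_lit 2) (nat_lit 7) (nat_lit 159) (nat_lit 294) r12_159 r11_294 (nat_lit 0) (nat_lit 0) (nat_lit 0) (nat_lit 0x204307ce0) (nat_lit 264428456),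
  Rx.mk (nat_lit 183) (nat_lit 7) (nat_lit 6) (nat_lit 2) (nat_lit 7) (nat_lit 164) (nat_lit 296) r12_164 r11_296 (nat_lit 0) (nat_lit 0) (nat_lit 0) (nat_lit 0x209d252f4) (nat_lit 258624006),
  Rx.mk (nat_lit 212) (nat_lit 4) (nat_lit 2) (nat_lit 3) (nat_lit 6) (nat_lit 157) (nat_lit 287) r12_157 r11_287 (nat_lit 545086) (nat_lit 0) (nat_lit 0) (nat_lit 0x2188c759a) (nat_lit 243964892),
  Rx.mk (nat_lit 213) (nat_lit 5) (nat_lit 2) (nat_lit 3) (nat_lit 7) (nat_lit 161) (nat_lit 291) r12_161 r11_291 (nat_lit 0) (nat_lit 0) (nat_lit 0) (nat_lit 0x261075682) (nat_lit 169317156),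
  Rx.mk (nat_lit 214) (nat_lit 6) (nat_lit 2) (nat_lit 3) (nat_lit 7) (nat_lit 162) (nat_lit 297) r12_162 r11_297 (nat_lit 0) (nat_lit 0) (nat_lit 0) (nat_lit 0x21fe10676) (nat_lit 235951656),
  Rx.mk (nat_lit 244) (nat_lit 4) (nat_lit 6) (nat_lit 3) (nat_lit 6) (nat_lit 156) (nat_lit 289) r12_156 r11_289 (nat_lit 3492321) (nat_lit 0) (nat_lit 0) (nat_lit 0x212c5600e) (nat_lit 252927227),
  Rx.mk (nat_lit 245) (nat_lit 5) (nat_lit 6) (nat_lit 3) (nat_lit 7) (nat_lit 160) (nat_lit 293) r12_160 r11_293 (nat_lit 0) (nat_lit 0) (nat_lit 0) (nat_lit 0x2018fce3c) (nat_lit 267161256)]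
noncomputable def e36_21 : List Rx := [
  Rx.mk (nat_lit 86) (nat_lit 6) (nat_lit 2) (nat_lit 1) (nat_lit 7) (nat_lit 168) (nat_lit 247) r12_168 r9_247 (nat_lit 0) (nat_lit 0) (nat_lit 0) (nat_lit 0x20056d4f2) (nat_lit 268435456),
  Rx.mk (nat_lit 326) (nat_lit 6) (nat_lit 0) (nat_lit 5) (nat_lit 5) (nat_lit 165) (nat_lit 244) r12_165 r9_244 (nat_lit 0) (nat_lit 11069367) (nat_lit 0) (nat_lit 0x1ef76333a) (nat_lit 297276673),
  Rx.mk (nat_lit 334) (nat_lit 6) (nat_lit 1) (nat_lit 5) (nat_lit 7) (nat_lit 166) (nat_lit 245) r12_166 r9_245 (nat_lit 0) (nat_lit 0) (nat_lit 0) (nat_lit 0x20056d4f2) (nat_lit 268435456),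
  Rx.mk (nat_lit 342) (nat_lit 6) (nat_lit 2) (nat_lit 5) (nat_lit 7) (nat_lit 167) (nat_lit 246) r12_167 r9_246 (nat_lit 0) (nat_lit 0) (nat_lit 0) (nat_lit 0x20056d4f2) (nat_lit 268435456)]
noncomputable def e36_22 : List Rx := [
  Rx.mk (nat_lit 258) (nat_lit 2) (nat_lit 0) (nat_lit 4) (nat_lit 1) (nat_lit 172) (nat_lit 236) r12_172 r0_236 (nat_lit 0) (nat_lit 13849) (nat_lit 17287) (nat_lit 0x1a39bb7e6) (nat_lit 366576142),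
  Rx.mk (nat_lit 262) (nat_lit 6) (nat_lit 0) (nat_lit 4) (nat_lit 1) (nat_lit 169) (nat_lit 238) r12_169 r0_238 (nat_lit 0) (nat_lit 65380) (nat_lit 96469) (nat_lit 0x18a8c6ef8) (nat_lit 393333155),
  Rx.mk (nat_lit 266) (nat_lit 2) (nat_lit 1) (nat_lit 4) (nat_lit 3) (nat_lit 174) (nat_lit 237) r12_174 r0_237 (nat_lit 0) (nat_lit 0) (nat_lit 11007) (nat_lit 0x23e1eb872) (nat_lit 204899413),
  Rx.mk (nat_lit 270) (nat_lit 6) (nat_lit 1) (nat_lit 4) (nat_lit 3) (nat_lit 170) (nat_lit 239) r12_170 r0_239 (nat_lit 0) (nat_lit 0) (nat_lit 4326039) (nat_lit 0x1f34cc8b6) (nat_lit 286329845),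
  Rx.mk (nat_lit 278) (nat_lit 6) (nat_lit 2) (nat_lit 4) (nat_lit 3) (nat_lit 171) (nat_lit 240) r12_171 r0_240 (nat_lit 0) (nat_lit 0) (nat_lit 826648) (nat_lit 0x1cf75fa98) (nat_lit 320912104),
  Rx.mk (nat_lit 386) (nat_lit 2) (nat_lit 0) (nat_lit 6) (nat_lit 5) (nat_lit 173) (nat_lit 241) r12_173 r0_241 (nat_lit 0) (nat_lit 1422249) (nat_lit 0) (nat_lit 0x20c524b88) (nat_lit 257436105),
  Rx.mk (nat_lit 394) (nat_lit 2) (nat_lit 1) (nat_lit 6) (nat_lit 7) (nat_lit 175) (nat_lit 242) r12_175 r0_242 (nat_lit 0) (nat_lit 0) (nat_lit 0) (nat_lit 0x2607f22a8) (nat_lit 169854606)]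
noncomputable def e36_23 : List Rx := [
  Rx.mk (nat_lit 266) (nat_lit 2) (nat_lit 1) (nat_lit 4) (nat_lit 3) (nat_lit 177) (nat_lit 249) r12_177 r1_249 (nat_lit 0) (nat_lit 0) (nat_lit 21232) (nat_lit 0x2243b5f32) (nat_lit 231396038),
  Rx.mk (nat_lit 270) (nat_lit 6) (nat_lit 1) (nat_lit 4) (nat_lit 3) (nat_lit 176) (nat_lit 250) r12_176 r1_250 (nat_lit 0) (nat_lit 0) (nat_lit 7255466) (nat_lit 0x20ee82606) (nat_lit 260578772),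
  Rx.mk (nat_lit 394) (nat_lit 2) (nat_lit 1) (nat_lit 6) (nat_lit 7) (nat_lit 178) (nat_lit 251) r12_178 r1_251 (nat_lit 0) (nat_lit 0) (nat_lit 0) (nat_lit 0x2637ba8d2) (nat_lit 166787206)]
noncomputable def e36_24 : List Rx := [
  Rx.mk (nat_lit 258) (nat_lit 2) (nat_lit 0) (nat_lit 4) (nat_lit 1) (nat_lit 185) (nat_lit 241) r12_185 r4_241 (nat_lit 0) (nat_lit 3283) (nat_lit 5043) (nat_lit 0x1dea70778) (nat_lit 303854932),
  Rx.mk (nat_lit 262) (nat_lit 6) (nat_lit 0) (nat_lit 4) (nat_lit 1) (nat_lit 179) (nat_lit 244) r12_179 r4_244 (nat_lit 0) (nat_lit 62716) (nat_lit 194160) (nat_lit 0x198b63dd8) (nat_lit 378385932),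
  Rx.mk (nat_lit 266) (nat_lit 2) (nat_lit 1) (nat_lit 4) (nat_lit 3) (nat_lit 187) (nat_lit 242) r12_187 r4_242 (nat_lit 0) (nat_lit 0) (nat_lit 2194767) (nat_lit 0x1fb06fb30) (nat_lit 276138523),
  Rx.mk (nat_lit 270) (nat_lit 6) (nat_lit 1) (nat_lit 4) (nat_lit 3) (nat_lit 181) (nat_lit 245) r12_181 r4_245 (nat_lit 0) (nat_lit 0) (nat_lit 4817469) (nat_lit 0x1f2a53646) (nat_lit 287629275),
  Rx.mk (nat_lit 278) (nat_lit 6) (nat_lit 2) (nat_lit 4) (nat_lit 3) (nat_lit 183) (nat_lit 246) r12_183 r4_246 (nat_lit 0) (nat_lit 0) (nat_lit 5737185) (nat_lit 0x1c7d5f0f4) (nat_lit 333970541),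
  Rx.mk (nat_lit 282) (nat_lit 2) (nat_lit 3) (nat_lit 4) (nat_lit 3) (nat_lit 189) (nat_lit 243) r12_189 r4_243 (nat_lit 0) (nat_lit 0) (nat_lit 3905508) (nat_lit 0x20df7f3b6) (nat_lit 258267614),
  Rx.mk (nat_lit 386) (nat_lit 2) (nat_lit 0) (nat_lit 6) (nat_lit 5) (nat_lit 186) (nat_lit 250) r12_186 r4_250 (nat_lit 0) (nat_lit 914600) (nat_lit 0) (nat_lit 0x212e92d2c) (nat_lit 250143256),
  Rx.mk (nat_lit 394) (nat_lit 2) (nat_lit 1) (nat_lit 6) (nat_lit 7) (nat_lit 188) (nat_lit 251) r12_188 r4_251 (nat_lit 0) (nat_lit 0) (nat_lit 0) (nat_lit 0x215f2f534) (nat_lit 246173406),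
  Rx.mk (nat_lit 410) (nat_lit 2) (nat_lit 3) (nat_lit 6) (nat_lit 7) (nat_lit 190) (nat_lit 252) r12_190 r4_252 (nat_lit 0) (nat_lit 0) (nat_lit 0) (nat_lit 0x2184180d0) (nat_lit 243814506),
  Rx.mk (nat_lit 454) (nat_lit 6) (nat_lit 0) (nat_lit 7) (nat_lit 5) (nat_lit 180) (nat_lit 247) r12_180 r4_247 (nat_lit 0) (nat_lit 9060) (nat_lit 0) (nat_lit 0x162942440) (nat_lit 435605266),
  Rx.mk (nat_lit 462) (nat_lit 6) (nat_lit 1) (nat_lit 7) (nat_lit 7) (nat_lit 182) (nat_lit 248) r12_182 r4_248 (nat_lit 0) (nat_lit 0) (nat_lit 0) (nat_lit 0x1f200efe6) (nat_lit 283403706),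
  Rx.mk (nat_lit 470) (nat_lit 6) (nat_lit 2) (nat_lit 7) (nat_lit 7) (nat_lit 184) (nat_lit 249) r12_184 r4_249 (nat_lit 0) (nat_lit 0) (nat_lit 0) (nat_lit 0x1dddf4940) (nat_lit 304761206)]
noncomputable def e36_25 : List Rx := [
  Rx.mk (nat_lit 258) (nat_lit 2) (nat_lit 0) (nat_lit 4) (nat_lit 1) (nat_lit 197) (nat_lit 305) r12_197 r7_305 (nat_lit 0) (nat_lit 205538) (nat_lit 182123) (nat_lit 0x1b7456eea) (nat_lit 346095267),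
  Rx.mk (nat_lit 262) (nat_lit 6) (nat_lit 0) (nat_lit 4) (nat_lit 1) (nat_lit 191) (nat_lit 303) r12_191 r7_303 (nat_lit 0) (nat_lit 182123) (nat_lit 205538) (nat_lit 0x1b7456eea) (nat_lit 346095267),
  Rx.mk (nat_lit 266) (nat_lit 2) (nat_lit 1) (nat_lit 4) (nat_lit 3) (nat_lit 200) (nat_lit 310) r12_200 r7_310 (nat_lit 0) (nat_lit 0) (nat_lit 2496873) (nat_lit 0x1fe2faafa) (nat_lit 273109429),
  Rx.mk (nat_lit 270) (nat_lit 6) (nat_lit 1) (nat_lit 4) (nat_lit 3) (nat_lit 193) (nat_lit 308) r12_193 r7_308 (nat_lit 0) (nat_lit 0) (nat_lit 3052202) (nat_lit 0x2031c5afe) (nat_lit 268549008),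
  Rx.mk (nat_lit 278) (nat_lit 6) (nat_lit 2) (nat_lit 4) (nat_lit 3) (nat_lit 195) (nat_lit 313) r12_195 r7_313 (nat_lit 0) (nat_lit 0) (nat_lit 1764226) (nat_lit 0x1f2f3f7d6) (nat_lit 284231582),
  Rx.mk (nat_lit 322) (nat_lit 2) (nat_lit 0) (nat_lit 5) (nat_lit 5) (nat_lit 198) (nat_lit 306) r12_198 r7_306 (nat_lit 0) (nat_lit 3052202) (nat_lit 0) (nat_lit 0x2031c5afe) (nat_lit 268549008),
  Rx.mk (nat_lit 326) (nat_lit 6) (nat_lit 0) (nat_lit 5) (nat_lit 5) (nat_lit 192) (nat_lit 304) r12_192 r7_304 (nat_lit 0) (nat_lit 2496873) (nat_lit 0) (nat_lit 0x1fe2faafa) (nat_lit 273109429),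
  Rx.mk (nat_lit 330) (nat_lit 2) (nat_lit 1) (nat_lit 5) (nat_lit 7) (nat_lit 201) (nat_lit 311) r12_201 r7_311 (nat_lit 0) (nat_lit 0) (nat_lit 0) (nat_lit 0x22a5412e2) (nat_lit 225311006),
  Rx.mk (nat_lit 334) (nat_lit 6) (nat_lit 1) (nat_lit 5) (nat_lit 7) (nat_lit 194) (nat_lit 309) r12_194 r7_309 (nat_lit 0) (nat_lit 0) (nat_lit 0) (nat_lit 0x22a5412e2) (nat_lit 225311006),
  Rx.mk (nat_lit 342) (nat_lit 6) (nat_lit 2) (nat_lit 5) (nat_lit 7) (nat_lit 196) (nat_lit 314) r12_196 r7_314 (nat_lit 0) (nat_lit 0) (nat_lit 0) (nat_lit 0x244f14688) (nat_lit 198076806),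
  Rx.mk (nat_lit 386) (nat_lit 2) (nat_lit 0) (nat_lit 6) (nat_lit 5) (nat_lit 199) (nat_lit 307) r12_199 r7_307 (nat_lit 0) (nat_lit 1764226) (nat_lit 0) (nat_lit 0x1f2f3f7d6) (nat_lit 284231582),
  Rx.mk (nat_lit 394) (nat_lit 2) (nat_lit 1) (nat_lit 6) (nat_lit 7) (nat_lit 202) (nat_lit 312) r12_202 r7_312 (nat_lit 0) (nat_lit 0) (nat_lit 0) (nat_lit 0x244f14688) (nat_lit 198076806)]
noncomputable def e36_26 : List Rx := [
  Rx.mk (nat_lit 266) (nat_lit 2) (nat_lit 1) (nat_lit 4) (nat_lit 3) (nat_lit 205) (nat_lit 227) r12_205 r8_227 (nat_lit 0) (nat_lit 0) (nat_lit 1718674) (nat_lit 0x2019e5d76) (nat_lit 268749930),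
  Rx.mk (nat_lit 270) (nat_lit 6) (nat_lit 1) (nat_lit 4) (nat_lit 3) (nat_lit 203) (nat_lit 225) r12_203 r8_225 (nat_lit 0) (nat_lit 0) (nat_lit 7891744) (nat_lit 0x1fc6d7b0c) (nat_lit 280406750),
  Rx.mk (nat_lit 330) (nat_lit 2) (nat_lit 1) (nat_lit 5) (nat_lit 7) (nat_lit 206) (nat_lit 228) r12_206 r8_228 (nat_lit 0) (nat_lit 0) (nat_lit 0) (nat_lit 0x212881cf8) (nat_lit 249679706),
  Rx.mk (nat_lit 334) (nat_lit 6) (nat_lit 1) (nat_lit 5) (nat_lit 7) (nat_lit 204) (nat_lit 226) r12_204 r8_226 (nat_lit 0) (nat_lit 0) (nat_lit 0) (nat_lit 0x20056d4f2) (nat_lit 268435456),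
  Rx.mk (nat_lit 394) (nat_lit 2) (nat_lit 1) (nat_lit 6) (nat_lit 7) (nat_lit 207) (nat_lit 229) r12_207 r8_229 (nat_lit 0) (nat_lit 0) (nat_lit 0) (nat_lit 0x217654bc4) (nat_lit 244695456)]
noncomputable def e36_27 : List Rx := [
  Rx.mk (nat_lit 322) (nat_lit 2) (nat_lit 0) (nat_lit 5) (nat_lit 5) (nat_lit 211) (nat_lit 225) r12_211 r8_225 (nat_lit 0) (nat_lit 7891744) (nat_lit 0) (nat_lit 0x1fc6d7b0c) (nat_lit 280406750),
  Rx.mk (nat_lit 326) (nat_lit 6) (nat_lit 0) (nat_lit 5) (nat_lit 5) (nat_lit 208) (nat_lit 227) r12_208 r8_227 (nat_lit 0) (nat_lit 1718674) (nat_lit 0) (nat_lit 0x2019e5d76) (nat_lit 268749930),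
  Rx.mk (nat_lit 330) (nat_lit 2) (nat_lit 1) (nat_lit 5) (nat_lit 7) (nat_lit 212) (nat_lit 226) r12_212 r8_226 (nat_lit 0) (nat_lit 0) (nat_lit 0) (nat_lit 0x20056d4f2) (nat_lit 268435456),
  Rx.mk (nat_lit 334) (nat_lit 6) (nat_lit 1) (nat_lit 5) (nat_lit 7) (nat_lit 209) (nat_lit 228) r12_209 r8_228 (nat_lit 0) (nat_lit 0) (nat_lit 0) (nat_lit 0x212881cf8) (nat_lit 249679706),
  Rx.mk (nat_lit 342) (nat_lit 6) (nat_lit 2) (nat_lit 5) (nat_lit 7) (nat_lit 210) (nat_lit 229) r12_210 r8_229 (nat_lit 0) (nat_lit 0) (nat_lit 0) (nat_lit 0x217654bc4) (nat_lit 244695456)]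
noncomputable def e36_28 : List Rx := [
  Rx.mk (nat_lit 258) (nat_lit 2) (nat_lit 0) (nat_lit 4) (nat_lit 1) (nat_lit 221) (nat_lit 260) r12_221 r10_260 (nat_lit 0) (nat_lit 325914) (nat_lit 322441) (nat_lit 0x1c234ab86) (nat_lit 334766061),
  Rx.mk (nat_lit 262) (nat_lit 6) (nat_lit 0) (nat_lit 4) (nat_lit 1) (nat_lit 213) (nat_lit 257) r12_213 r10_257 (nat_lit 0) (nat_lit 322441) (nat_lit 325914) (nat_lit 0x1c234ab86) (nat_lit 334766061),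
  Rx.mk (nat_lit 266) (nat_lit 2) (nat_lit 1) (nat_lit 4) (nat_lit 3) (nat_lit 224) (nat_lit 265) r12_224 r10_265 (nat_lit 0) (nat_lit 0) (nat_lit 2243506) (nat_lit 0x219b704a8) (nat_lit 244550362),
  Rx.mk (nat_lit 270) (nat_lit 6) (nat_lit 1) (nat_lit 4) (nat_lit 3) (nat_lit 216) (nat_lit 263) r12_216 r10_263 (nat_lit 0) (nat_lit 0) (nat_lit 2881372) (nat_lit 0x22e576b1e) (nat_lit 224085728),
  Rx.mk (nat_lit 278) (nat_lit 6) (nat_lit 2) (nat_lit 4) (nat_lit 3) (nat_lit 218) (nat_lit 270) r12_218 r10_270 (nat_lit 0) (nat_lit 0) (nat_lit 1837154) (nat_lit 0x1fc64b86e) (nat_lit 274338360),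
  Rx.mk (nat_lit 282) (nat_lit 2) (nat_lit 3) (nat_lit 4) (nat_lit 3) (nat_lit 226) (nat_lit 267) r12_226 r10_267 (nat_lit 0) (nat_lit 0) (nat_lit 2167477) (nat_lit 0x21701f934) (nat_lit 247245333),
  Rx.mk (nat_lit 322) (nat_lit 2) (nat_lit 0) (nat_lit 5) (nat_lit 5) (nat_lit 222) (nat_lit 261) r12_222 r10_261 (nat_lit 0) (nat_lit 2881372) (nat_lit 0) (nat_lit 0x22e576b1e) (nat_lit 224085728),
  Rx.mk (nat_lit 326) (nat_lit 6) (nat_lit 0) (nat_lit 5) (nat_lit 5) (nat_lit 214) (nat_lit 258) r12_214 r10_258 (nat_lit 0) (nat_lit 2243506) (nat_lit 0) (nat_lit 0x219b704a8) (nat_lit 244550362),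
  Rx.mk (nat_lit 342) (nat_lit 6) (nat_lit 2) (nat_lit 5) (nat_lit 7) (nat_lit 219) (nat_lit 271) r12_219 r10_271 (nat_lit 0) (nat_lit 0) (nat_lit 0) (nat_lit 0x23a566000) (nat_lit 208927306),
  Rx.mk (nat_lit 346) (nat_lit 2) (nat_lit 3) (nat_lit 5) (nat_lit 7) (nat_lit 227) (nat_lit 268) r12_227 r10_268 (nat_lit 0) (nat_lit 0) (nat_lit 0) (nat_lit 0x20f770088) (nat_lit 252826306),
  Rx.mk (nat_lit 386) (nat_lit 2) (nat_lit 0) (nat_lit 6) (nat_lit 5) (nat_lit 223) (nat_lit 262) r12_223 r10_262 (nat_lit 0) (nat_lit 1837154) (nat_lit 0) (nat_lit 0x1fc64b86e) (nat_lit 274338360),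
  Rx.mk (nat_lit 394) (nat_lit 2) (nat_lit 1) (nat_lit 6) (nat_lit 7) (nat_lit 225) (nat_lit 266) r12_225 r10_266 (nat_lit 0) (nat_lit 0) (nat_lit 0) (nat_lit 0x23a566000) (nat_lit 208927306),
  Rx.mk (nat_lit 410) (nat_lit 2) (nat_lit 3) (nat_lit 6) (nat_lit 7) (nat_lit 228) (nat_lit 269) r12_228 r10_269 (nat_lit 0) (nat_lit 0) (nat_lit 0) (nat_lit 0x23a566000) (nat_lit 208927306),
  Rx.mk (nat_lit 454) (nat_lit 6) (nat_lit 0) (nat_lit 7) (nat_lit 5) (nat_lit 215) (nat_lit 259) r12_215 r10_259 (nat_lit 0) (nat_lit 2167477) (nat_lit 0) (nat_lit 0x21701f934) (nat_lit 247245333),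
  Rx.mk (nat_lit 462) (nat_lit 6) (nat_lit 1) (nat_lit 7) (nat_lit 7) (nat_lit 217) (nat_lit 264) r12_217 r10_264 (nat_lit 0) (nat_lit 0) (nat_lit 0) (nat_lit 0x20f770088) (nat_lit 252826306),
  Rx.mk (nat_lit 470) (nat_lit 6) (nat_lit 2) (nat_lit 7) (nat_lit 7) (nat_lit 220) (nat_lit 272) r12_220 r10_272 (nat_lit 0) (nat_lit 0) (nat_lit 0) (nat_lit 0x23a566000) (nat_lit 208927306)]
noncomputable def e36_29 : List Rx := [
  Rx.mk (nat_lit 258) (nat_lit 2) (nat_lit 0) (nat_lit 4) (nat_lit 1) (nat_lit 232) (nat_lit 288) r12_232 r11_288 (nat_lit 0) (nat_lit 774954) (nat_lit 955947) (nat_lit 0x1d70f638e) (nat_lit 313756707),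
  Rx.mk (nat_lit 266) (nat_lit 2) (nat_lit 1) (nat_lit 4) (nat_lit 3) (nat_lit 235) (nat_lit 292) r12_235 r11_292 (nat_lit 0) (nat_lit 0) (nat_lit 3540029) (nat_lit 0x2010a1a26) (nat_lit 271220685),
  Rx.mk (nat_lit 282) (nat_lit 2) (nat_lit 3) (nat_lit 4) (nat_lit 3) (nat_lit 238) (nat_lit 295) r12_238 r11_295 (nat_lit 0) (nat_lit 0) (nat_lit 4597925) (nat_lit 0x209206102) (nat_lit 263936381),
  Rx.mk (nat_lit 386) (nat_lit 2) (nat_lit 0) (nat_lit 6) (nat_lit 5) (nat_lit 233) (nat_lit 290) r12_233 r11_290 (nat_lit 0) (nat_lit 1951873) (nat_lit 0) (nat_lit 0x20a63d10c) (nat_lit 259964879),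
  Rx.mk (nat_lit 394) (nat_lit 2) (nat_lit 1) (nat_lit 6) (nat_lit 7) (nat_lit 236) (nat_lit 294) r12_236 r11_294 (nat_lit 0) (nat_lit 0) (nat_lit 0) (nat_lit 0x204307ce0) (nat_lit 264428456),
  Rx.mk (nat_lit 410) (nat_lit 2) (nat_lit 3) (nat_lit 6) (nat_lit 7) (nat_lit 239) (nat_lit 296) r12_239 r11_296 (nat_lit 0) (nat_lit 0) (nat_lit 0) (nat_lit 0x209d252f4) (nat_lit 258624006),
  Rx.mk (nat_lit 450) (nat_lit 2) (nat_lit 0) (nat_lit 7) (nat_lit 5) (nat_lit 234) (nat_lit 289) r12_234 r11_289 (nat_lit 0) (nat_lit 3492321) (nat_lit 0) (nat_lit 0x212c5600e) (nat_lit 252927227),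
  Rx.mk (nat_lit 454) (nat_lit 6) (nat_lit 0) (nat_lit 7) (nat_lit 5) (nat_lit 229) (nat_lit 287) r12_229 r11_287 (nat_lit 0) (nat_lit 545086) (nat_lit 0) (nat_lit 0x2188c759a) (nat_lit 243964892),
  Rx.mk (nat_lit 458) (nat_lit 2) (nat_lit 1) (nat_lit 7) (nat_lit 7) (nat_lit 237) (nat_lit 293) r12_237 r11_293 (nat_lit 0) (nat_lit 0) (nat_lit 0) (nat_lit 0x2018fce3c) (nat_lit 267161256),
  Rx.mk (nat_lit 462) (nat_lit 6) (nat_lit 1) (nat_lit 7) (nat_lit 7) (nat_lit 230) (nat_lit 291) r12_230 r11_291 (nat_lit 0) (nat_lit 0) (nat_lit 0) (nat_lit 0x261075682) (nat_lit 169317156),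
  Rx.mk (nat_lit 470) (nat_lit 6) (nat_lit 2) (nat_lit 7) (nat_lit 7) (nat_lit 231) (nat_lit 297) r12_231 r11_297 (nat_lit 0) (nat_lit 0) (nat_lit 0) (nat_lit 0x21fe10676) (nat_lit 235951656)]
noncomputable def e36_30 : List Rx := [
  Rx.mk (nat_lit 20) (nat_lit 4) (nat_lit 2) (nat_lit 0) (nat_lit 2) (nat_lit 240) (nat_lit 246) r12_240 r5_246 (nat_lit 12394) (nat_lit 0) (nat_lit 18631) (nat_lit 0x1fda9dc86) (nat_lit 270951781),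
  Rx.mk (nat_lit 22) (nat_lit 6) (nat_lit 2) (nat_lit 0) (nat_lit 3) (nat_lit 242) (nat_lit 248) r12_242 r5_248 (nat_lit 0) (nat_lit 0) (nat_lit 2033357) (nat_lit 0x1ed529288) (nat_lit 290469663),
  Rx.mk (nat_lit 23) (nat_lit 7) (nat_lit 2) (nat_lit 0) (nat_lit 3) (nat_lit 246) (nat_lit 247) r12_246 r5_247 (nat_lit 0) (nat_lit 0) (nat_lit 1029543) (nat_lit 0x228efb500) (nat_lit 227712749),
  Rx.mk (nat_lit 55) (nat_lit 7) (nat_lit 6) (nat_lit 0) (nat_lit 3) (nat_lit 244) (nat_lit 245) r12_244 r5_245 (nat_lit 0) (nat_lit 0) (nat_lit 23050) (nat_lit 0x2295f7ee4) (nat_lit 226140306),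
  Rx.mk (nat_lit 183) (nat_lit 7) (nat_lit 6) (nat_lit 2) (nat_lit 7) (nat_lit 245) (nat_lit 251) r12_245 r5_251 (nat_lit 0) (nat_lit 0) (nat_lit 0) (nat_lit 0x1ff548c20) (nat_lit 269169706),
  Rx.mk (nat_lit 212) (nat_lit 4) (nat_lit 2) (nat_lit 3) (nat_lit 6) (nat_lit 241) (nat_lit 249) r12_241 r5_249 (nat_lit 404270) (nat_lit 0) (nat_lit 0) (nat_lit 0x21d4d23e0) (nat_lit 238951376),
  Rx.mk (nat_lit 214) (nat_lit 6) (nat_lit 2) (nat_lit 3) (nat_lit 7) (nat_lit 243) (nat_lit 250) r12_243 r5_250 (nat_lit 0) (nat_lit 0) (nat_lit 0) (nat_lit 0x260e2565c) (nat_lit 169458306)]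
noncomputable def e36_31 : List Rx := [
  Rx.mk (nat_lit 20) (nat_lit 4) (nat_lit 2) (nat_lit 0) (nat_lit 2) (nat_lit 247) (nat_lit 288) r12_247 r11_288 (nat_lit 955947) (nat_lit 0) (nat_lit 774954) (nat_lit 0x1d70f638e) (nat_lit 313756707),
  Rx.mk (nat_lit 22) (nat_lit 6) (nat_lit 2) (nat_lit 0) (nat_lit 3) (nat_lit 250) (nat_lit 290) r12_250 r11_290 (nat_lit 0) (nat_lit 0) (nat_lit 1951873) (nat_lit 0x20a63d10c) (nat_lit 259964879),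
  Rx.mk (nat_lit 23) (nat_lit 7) (nat_lit 2) (nat_lit 0) (nat_lit 3) (nat_lit 256) (nat_lit 289) r12_256 r11_289 (nat_lit 0) (nat_lit 0) (nat_lit 3492321) (nat_lit 0x212c5600e) (nat_lit 252927227),
  Rx.mk (nat_lit 55) (nat_lit 7) (nat_lit 6) (nat_lit 0) (nat_lit 3) (nat_lit 253) (nat_lit 287) r12_253 r11_287 (nat_lit 0) (nat_lit 0) (nat_lit 545086) (nat_lit 0x2188c759a) (nat_lit 243964892),
  Rx.mk (nat_lit 84) (nat_lit 4) (nat_lit 2) (nat_lit 1) (nat_lit 6) (nat_lit 248) (nat_lit 292) r12_248 r11_292 (nat_lit 3540029) (nat_lit 0) (nat_lit 0) (nat_lit 0x2010a1a26) (nat_lit 271220685),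
  Rx.mk (nat_lit 86) (nat_lit 6) (nat_lit 2) (nat_lit 1) (nat_lit 7) (nat_lit 251) (nat_lit 294) r12_251 r11_294 (nat_lit 0) (nat_lit 0) (nat_lit 0) (nat_lit 0x204307ce0) (nat_lit 264428456),
  Rx.mk (nat_lit 87) (nat_lit 7) (nat_lit 2) (nat_lit 1) (nat_lit 7) (nat_lit 257) (nat_lit 293) r12_257 r11_293 (nat_lit 0) (nat_lit 0) (nat_lit 0) (nat_lit 0x2018fce3c) (nat_lit 267161256),
  Rx.mk (nat_lit 119) (nat_lit 7) (nat_lit 6) (nat_lit 1) (nat_lit 7) (nat_lit 254) (nat_lit 291) r12_254 r11_291 (nat_lit 0) (nat_lit 0) (nat_lit 0) (nat_lit 0x261075682) (nat_lit 169317156),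
  Rx.mk (nat_lit 183) (nat_lit 7) (nat_lit 6) (nat_lit 2) (nat_lit 7) (nat_lit 255) (nat_lit 297) r12_255 r11_297 (nat_lit 0) (nat_lit 0) (nat_lit 0) (nat_lit 0x21fe10676) (nat_lit 235951656),
  Rx.mk (nat_lit 212) (nat_lit 4) (nat_lit 2) (nat_lit 3) (nat_lit 6) (nat_lit 249) (nat_lit 295) r12_249 r11_295 (nat_lit 4597925) (nat_lit 0) (nat_lit 0) (nat_lit 0x209206102) (nat_lit 263936381),
  Rx.mk (nat_lit 214) (nat_lit 6) (nat_lit 2) (nat_lit 3) (nat_lit 7) (nat_lit 252) (nat_lit 296) r12_252 r11_296 (nat_lit 0) (nat_lit 0) (nat_lit 0) (nat_lit 0x209d252f4) (nat_lit 258624006)]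
noncomputable def e36_32 : List Rx := [
  Rx.mk (nat_lit 163) (nat_lit 3) (nat_lit 4) (nat_lit 2) (nat_lit 5) (nat_lit 267) (nat_lit 270) r12_267 r6_270 (nat_lit 0) (nat_lit 146626) (nat_lit 0) (nat_lit 0x1f441a6d8) (nat_lit 281094182),
  Rx.mk (nat_lit 179) (nat_lit 3) (nat_lit 6) (nat_lit 2) (nat_lit 7) (nat_lit 268) (nat_lit 272) r12_268 r6_272 (nat_lit 0) (nat_lit 0) (nat_lit 0) (nat_lit 0x21176ca94) (nat_lit 250645206),
  Rx.mk (nat_lit 184) (nat_lit 0) (nat_lit 7) (nat_lit 2) (nat_lit 6) (nat_lit 263) (nat_lit 269) r12_263 r6_269 (nat_lit 32224) (nat_lit 0) (nat_lit 0) (nat_lit 0x1fdd9cdd8) (nat_lit 270760630),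
  Rx.mk (nat_lit 187) (nat_lit 3) (nat_lit 7) (nat_lit 2) (nat_lit 7) (nat_lit 269) (nat_lit 271) r12_269 r6_271 (nat_lit 0) (nat_lit 0) (nat_lit 0) (nat_lit 0x21895dd60) (nat_lit 243363956),
  Rx.mk (nat_lit 282) (nat_lit 2) (nat_lit 3) (nat_lit 4) (nat_lit 3) (nat_lit 265) (nat_lit 273) r12_265 r6_273 (nat_lit 0) (nat_lit 0) (nat_lit 14857) (nat_lit 0x1ff4ffbce) (nat_lit 269185263),
  Rx.mk (nat_lit 286) (nat_lit 6) (nat_lit 3) (nat_lit 4) (nat_lit 3) (nat_lit 260) (nat_lit 264) r12_260 r6_264 (nat_lit 0) (nat_lit 0) (nat_lit 32224) (nat_lit 0x1fdd9cdd8) (nat_lit 270760630),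
  Rx.mk (nat_lit 410) (nat_lit 2) (nat_lit 3) (nat_lit 6) (nat_lit 7) (nat_lit 266) (nat_lit 275) r12_266 r6_275 (nat_lit 0) (nat_lit 0) (nat_lit 0) (nat_lit 0x1fed76876) (nat_lit 269674906),
  Rx.mk (nat_lit 440) (nat_lit 0) (nat_lit 7) (nat_lit 6) (nat_lit 6) (nat_lit 262) (nat_lit 268) r12_262 r6_268 (nat_lit 14857) (nat_lit 0) (nat_lit 0) (nat_lit 0x1ff4ffbce) (nat_lit 269185263),
  Rx.mk (nat_lit 442) (nat_lit 2) (nat_lit 7) (nat_lit 6) (nat_lit 7) (nat_lit 264) (nat_lit 274) r12_264 r6_274 (nat_lit 0) (nat_lit 0) (nat_lit 0) (nat_lit 0x1fed76876) (nat_lit 269674906),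
  Rx.mk (nat_lit 454) (nat_lit 6) (nat_lit 0) (nat_lit 7) (nat_lit 5) (nat_lit 258) (nat_lit 265) r12_258 r6_265 (nat_lit 0) (nat_lit 146626) (nat_lit 0) (nat_lit 0x1f441a6d8) (nat_lit 281094182),
  Rx.mk (nat_lit 470) (nat_lit 6) (nat_lit 2) (nat_lit 7) (nat_lit 7) (nat_lit 259) (nat_lit 267) r12_259 r6_267 (nat_lit 0) (nat_lit 0) (nat_lit 0) (nat_lit 0x21176ca94) (nat_lit 250645206),
  Rx.mk (nat_lit 478) (nat_lit 6) (nat_lit 3) (nat_lit 7) (nat_lit 7) (nat_lit 261) (nat_lit 266) r12_261 r6_266 (nat_lit 0) (nat_lit 0) (nat_lit 0) (nat_lit 0x21895dd60) (nat_lit 243363956)]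
noncomputable def e36_33 : List Rx := [
  Rx.mk (nat_lit 262) (nat_lit 6) (nat_lit 0) (nat_lit 4) (nat_lit 1) (nat_lit 270) (nat_lit 246) r12_270 r5_246 (nat_lit 0) (nat_lit 12394) (nat_lit 18631) (nat_lit 0x1fda9dc86) (nat_lit 270951781),
  Rx.mk (nat_lit 278) (nat_lit 6) (nat_lit 2) (nat_lit 4) (nat_lit 3) (nat_lit 272) (nat_lit 248) r12_272 r5_248 (nat_lit 0) (nat_lit 0) (nat_lit 2033357) (nat_lit 0x1ed529288) (nat_lit 290469663),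
  Rx.mk (nat_lit 282) (nat_lit 2) (nat_lit 3) (nat_lit 4) (nat_lit 3) (nat_lit 275) (nat_lit 245) r12_275 r5_245 (nat_lit 0) (nat_lit 0) (nat_lit 23050) (nat_lit 0x2295f7ee4) (nat_lit 226140306),
  Rx.mk (nat_lit 286) (nat_lit 6) (nat_lit 3) (nat_lit 4) (nat_lit 3) (nat_lit 274) (nat_lit 247) r12_274 r5_247 (nat_lit 0) (nat_lit 0) (nat_lit 1029543) (nat_lit 0x228efb500) (nat_lit 227712749),
  Rx.mk (nat_lit 410) (nat_lit 2) (nat_lit 3) (nat_lit 6) (nat_lit 7) (nat_lit 276) (nat_lit 251) r12_276 r5_251 (nat_lit 0) (nat_lit 0) (nat_lit 0) (nat_lit 0x1ff548c20) (nat_lit 269169706),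
  Rx.mk (nat_lit 454) (nat_lit 6) (nat_lit 0) (nat_lit 7) (nat_lit 5) (nat_lit 271) (nat_lit 249) r12_271 r5_249 (nat_lit 0) (nat_lit 404270) (nat_lit 0) (nat_lit 0x21d4d23e0) (nat_lit 238951376),
  Rx.mk (nat_lit 470) (nat_lit 6) (nat_lit 2) (nat_lit 7) (nat_lit 7) (nat_lit 273) (nat_lit 250) r12_273 r5_250 (nat_lit 0) (nat_lit 0) (nat_lit 0) (nat_lit 0x260e2565c) (nat_lit 169458306)]
noncomputable def e36_34 : List Rx := [
  Rx.mk (nat_lit 262) (nat_lit 6) (nat_lit 0) (nat_lit 4) (nat_lit 1) (nat_lit 277) (nat_lit 288) r12_277 r11_288 (nat_lit 0) (nat_lit 955947) (nat_lit 774954) (nat_lit 0x1d70f638e) (nat_lit 313756707),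
  Rx.mk (nat_lit 278) (nat_lit 6) (nat_lit 2) (nat_lit 4) (nat_lit 3) (nat_lit 280) (nat_lit 290) r12_280 r11_290 (nat_lit 0) (nat_lit 0) (nat_lit 1951873) (nat_lit 0x20a63d10c) (nat_lit 259964879),
  Rx.mk (nat_lit 282) (nat_lit 2) (nat_lit 3) (nat_lit 4) (nat_lit 3) (nat_lit 285) (nat_lit 287) r12_285 r11_287 (nat_lit 0) (nat_lit 0) (nat_lit 545086) (nat_lit 0x2188c759a) (nat_lit 243964892),
  Rx.mk (nat_lit 286) (nat_lit 6) (nat_lit 3) (nat_lit 4) (nat_lit 3) (nat_lit 283) (nat_lit 289) r12_283 r11_289 (nat_lit 0) (nat_lit 0) (nat_lit 3492321) (nat_lit 0x212c5600e) (nat_lit 252927227),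
  Rx.mk (nat_lit 326) (nat_lit 6) (nat_lit 0) (nat_lit 5) (nat_lit 5) (nat_lit 278) (nat_lit 292) r12_278 r11_292 (nat_lit 0) (nat_lit 3540029) (nat_lit 0) (nat_lit 0x2010a1a26) (nat_lit 271220685),
  Rx.mk (nat_lit 342) (nat_lit 6) (nat_lit 2) (nat_lit 5) (nat_lit 7) (nat_lit 281) (nat_lit 294) r12_281 r11_294 (nat_lit 0) (nat_lit 0) (nat_lit 0) (nat_lit 0x204307ce0) (nat_lit 264428456),
  Rx.mk (nat_lit 346) (nat_lit 2) (nat_lit 3) (nat_lit 5) (nat_lit 7) (nat_lit 286) (nat_lit 291) r12_286 r11_291 (nat_lit 0) (nat_lit 0) (nat_lit 0) (nat_lit 0x261075682) (nat_lit 169317156),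
  Rx.mk (nat_lit 350) (nat_lit 6) (nat_lit 3) (nat_lit 5) (nat_lit 7) (nat_lit 284) (nat_lit 293) r12_284 r11_293 (nat_lit 0) (nat_lit 0) (nat_lit 0) (nat_lit 0x2018fce3c) (nat_lit 267161256),
  Rx.mk (nat_lit 410) (nat_lit 2) (nat_lit 3) (nat_lit 6) (nat_lit 7) (nat_lit 287) (nat_lit 297) r12_287 r11_297 (nat_lit 0) (nat_lit 0) (nat_lit 0) (nat_lit 0x21fe10676) (nat_lit 235951656),
  Rx.mk (nat_lit 454) (nat_lit 6) (nat_lit 0) (nat_lit 7) (nat_lit 5) (nat_lit 279) (nat_lit 295) r12_279 r11_295 (nat_lit 0) (nat_lit 4597925) (nat_lit 0) (nat_lit 0x209206102) (nat_lit 263936381),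
  Rx.mk (nat_lit 470) (nat_lit 6) (nat_lit 2) (nat_lit 7) (nat_lit 7) (nat_lit 282) (nat_lit 296) r12_282 r11_296 (nat_lit 0) (nat_lit 0) (nat_lit 0) (nat_lit 0x209d252f4) (nat_lit 258624006)]
noncomputable def e36_35 : List Rx := [
  Rx.mk (nat_lit 23) (nat_lit 7) (nat_lit 2) (nat_lit 0) (nat_lit 3) (nat_lit 292) (nat_lit 264) r12_292 r6_264 (nat_lit 0) (nat_lit 0) (nat_lit 32224) (nat_lit 0x1fdd9cdd8) (nat_lit 270760630),
  Rx.mk (nat_lit 55) (nat_lit 7) (nat_lit 6) (nat_lit 0) (nat_lit 3) (nat_lit 290) (nat_lit 273) r12_290 r6_273 (nat_lit 0) (nat_lit 0) (nat_lit 14857) (nat_lit 0x1ff4ffbce) (nat_lit 269185263),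
  Rx.mk (nat_lit 163) (nat_lit 3) (nat_lit 4) (nat_lit 2) (nat_lit 5) (nat_lit 297) (nat_lit 268) r12_297 r6_268 (nat_lit 0) (nat_lit 14857) (nat_lit 0) (nat_lit 0x1ff4ffbce) (nat_lit 269185263),
  Rx.mk (nat_lit 179) (nat_lit 3) (nat_lit 6) (nat_lit 2) (nat_lit 7) (nat_lit 298) (nat_lit 274) r12_298 r6_274 (nat_lit 0) (nat_lit 0) (nat_lit 0) (nat_lit 0x1fed76876) (nat_lit 269674906),
  Rx.mk (nat_lit 183) (nat_lit 7) (nat_lit 6) (nat_lit 2) (nat_lit 7) (nat_lit 291) (nat_lit 275) r12_291 r6_275 (nat_lit 0) (nat_lit 0) (nat_lit 0) (nat_lit 0x1fed76876) (nat_lit 269674906),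
  Rx.mk (nat_lit 212) (nat_lit 4) (nat_lit 2) (nat_lit 3) (nat_lit 6) (nat_lit 288) (nat_lit 265) r12_288 r6_265 (nat_lit 146626) (nat_lit 0) (nat_lit 0) (nat_lit 0x1f441a6d8) (nat_lit 281094182),
  Rx.mk (nat_lit 214) (nat_lit 6) (nat_lit 2) (nat_lit 3) (nat_lit 7) (nat_lit 289) (nat_lit 267) r12_289 r6_267 (nat_lit 0) (nat_lit 0) (nat_lit 0) (nat_lit 0x21176ca94) (nat_lit 250645206),
  Rx.mk (nat_lit 215) (nat_lit 7) (nat_lit 2) (nat_lit 3) (nat_lit 7) (nat_lit 293) (nat_lit 266) r12_293 r6_266 (nat_lit 0) (nat_lit 0) (nat_lit 0) (nat_lit 0x21895dd60) (nat_lit 243363956),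
  Rx.mk (nat_lit 419) (nat_lit 3) (nat_lit 4) (nat_lit 6) (nat_lit 5) (nat_lit 296) (nat_lit 269) r12_296 r6_269 (nat_lit 0) (nat_lit 32224) (nat_lit 0) (nat_lit 0x1fdd9cdd8) (nat_lit 270760630),
  Rx.mk (nat_lit 440) (nat_lit 0) (nat_lit 7) (nat_lit 6) (nat_lit 6) (nat_lit 294) (nat_lit 270) r12_294 r6_270 (nat_lit 146626) (nat_lit 0) (nat_lit 0) (nat_lit 0x1f441a6d8) (nat_lit 281094182),
  Rx.mk (nat_lit 442) (nat_lit 2) (nat_lit 7) (nat_lit 6) (nat_lit 7) (nat_lit 295) (nat_lit 272) r12_295 r6_272 (nat_lit 0) (nat_lit 0) (nat_lit 0) (nat_lit 0x21176ca94) (nat_lit 250645206),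
  Rx.mk (nat_lit 443) (nat_lit 3) (nat_lit 7) (nat_lit 6) (nat_lit 7) (nat_lit 299) (nat_lit 271) r12_299 r6_271 (nat_lit 0) (nat_lit 0) (nat_lit 0) (nat_lit 0x21895dd60) (nat_lit 243363956)]
noncomputable def e36_36 : List Rx := [
  Rx.mk (nat_lit 55) (nat_lit 7) (nat_lit 6) (nat_lit 0) (nat_lit 3) (nat_lit 305) (nat_lit 311) r12_305 r12_311 (nat_lit 0) (nat_lit 0) (nat_lit 6532) (nat_lit 0x1fffef2dc) (nat_lit 268450788),
  Rx.mk (nat_lit 163) (nat_lit 3) (nat_lit 4) (nat_lit 2) (nat_lit 5) (nat_lit 314) (nat_lit 301) r12_314 r12_301 (nat_lit 0) (nat_lit 6532) (nat_lit 0) (nat_lit 0x1fffef2dc) (nat_lit 268450788),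
  Rx.mk (nat_lit 179) (nat_lit 3) (nat_lit 6) (nat_lit 2) (nat_lit 7) (nat_lit 315) (nat_lit 304) r12_315 r12_304 (nat_lit 0) (nat_lit 0) (nat_lit 0) (nat_lit 0x1fff180ac) (nat_lit 268508506),
  Rx.mk (nat_lit 183) (nat_lit 7) (nat_lit 6) (nat_lit 2) (nat_lit 7) (nat_lit 306) (nat_lit 313) r12_306 r12_313 (nat_lit 0) (nat_lit 0) (nat_lit 0) (nat_lit 0x1fff180ac) (nat_lit 268508506),
  Rx.mk (nat_lit 187) (nat_lit 3) (nat_lit 7) (nat_lit 2) (nat_lit 7) (nat_lit 317) (nat_lit 302) r12_317 r12_302 (nat_lit 0) (nat_lit 0) (nat_lit 0) (nat_lit 0x1fff180ac) (nat_lit 268508506),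
  Rx.mk (nat_lit 212) (nat_lit 4) (nat_lit 2) (nat_lit 3) (nat_lit 6) (nat_lit 300) (nat_lit 309) r12_300 r12_309 (nat_lit 6532) (nat_lit 0) (nat_lit 0) (nat_lit 0x1fffef2dc) (nat_lit 268450788),
  Rx.mk (nat_lit 214) (nat_lit 6) (nat_lit 2) (nat_lit 3) (nat_lit 7) (nat_lit 303) (nat_lit 316) r12_303 r12_316 (nat_lit 0) (nat_lit 0) (nat_lit 0) (nat_lit 0x1fff180ac) (nat_lit 268508506),
  Rx.mk (nat_lit 215) (nat_lit 7) (nat_lit 2) (nat_lit 3) (nat_lit 7) (nat_lit 308) (nat_lit 310) r12_308 r12_310 (nat_lit 0) (nat_lit 0) (nat_lit 0) (nat_lit 0x1fff180ac) (nat_lit 268508506),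
  Rx.mk (nat_lit 247) (nat_lit 7) (nat_lit 6) (nat_lit 3) (nat_lit 7) (nat_lit 307) (nat_lit 312) r12_307 r12_312 (nat_lit 0) (nat_lit 0) (nat_lit 0) (nat_lit 0x1fff180ac) (nat_lit 268508506),
  Rx.mk (nat_lit 282) (nat_lit 2) (nat_lit 3) (nat_lit 4) (nat_lit 3) (nat_lit 311) (nat_lit 305) r12_311 r12_305 (nat_lit 0) (nat_lit 0) (nat_lit 6532) (nat_lit 0x1fffef2dc) (nat_lit 268450788),
  Rx.mk (nat_lit 410) (nat_lit 2) (nat_lit 3) (nat_lit 6) (nat_lit 7) (nat_lit 312) (nat_lit 307) r12_312 r12_307 (nat_lit 0) (nat_lit 0) (nat_lit 0) (nat_lit 0x1fff180ac) (nat_lit 268508506),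
  Rx.mk (nat_lit 440) (nat_lit 0) (nat_lit 7) (nat_lit 6) (nat_lit 6) (nat_lit 309) (nat_lit 300) r12_309 r12_300 (nat_lit 6532) (nat_lit 0) (nat_lit 0) (nat_lit 0x1fffef2dc) (nat_lit 268450788),
  Rx.mk (nat_lit 442) (nat_lit 2) (nat_lit 7) (nat_lit 6) (nat_lit 7) (nat_lit 310) (nat_lit 308) r12_310 r12_308 (nat_lit 0) (nat_lit 0) (nat_lit 0) (nat_lit 0x1fff180ac) (nat_lit 268508506),
  Rx.mk (nat_lit 443) (nat_lit 3) (nat_lit 7) (nat_lit 6) (nat_lit 7) (nat_lit 316) (nat_lit 303) r12_316 r12_303 (nat_lit 0) (nat_lit 0) (nat_lit 0) (nat_lit 0x1fff180ac) (nat_lit 268508506),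
  Rx.mk (nat_lit 454) (nat_lit 6) (nat_lit 0) (nat_lit 7) (nat_lit 5) (nat_lit 301) (nat_lit 314) r12_301 r12_314 (nat_lit 0) (nat_lit 6532) (nat_lit 0) (nat_lit 0x1fffef2dc) (nat_lit 268450788),
  Rx.mk (nat_lit 470) (nat_lit 6) (nat_lit 2) (nat_lit 7) (nat_lit 7) (nat_lit 302) (nat_lit 317) r12_302 r12_317 (nat_lit 0) (nat_lit 0) (nat_lit 0) (nat_lit 0x1fff180ac) (nat_lit 268508506),
  Rx.mk (nat_lit 474) (nat_lit 2) (nat_lit 3) (nat_lit 7) (nat_lit 7) (nat_lit 313) (nat_lit 306) r12_313 r12_306 (nat_lit 0) (nat_lit 0) (nat_lit 0) (nat_lit 0x1fff180ac) (nat_lit 268508506),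
  Rx.mk (nat_lit 478) (nat_lit 6) (nat_lit 3) (nat_lit 7) (nat_lit 7) (nat_lit 304) (nat_lit 315) r12_304 r12_315 (nat_lit 0) (nat_lit 0) (nat_lit 0) (nat_lit 0x1fff180ac) (nat_lit 268508506)]
noncomputable def e36_37 : List Rx := [
  Rx.mk (nat_lit 160) (nat_lit 0) (nat_lit 4) (nat_lit 2) (nat_lit 4) (nat_lit 319) (nat_lit 238) r12_319 r0_238 (nat_lit 96469) (nat_lit 65380) (nat_lit 0) (nat_lit 0x18a8c6ef8) (nat_lit 393333155),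
  Rx.mk (nat_lit 168) (nat_lit 0) (nat_lit 5) (nat_lit 2) (nat_lit 6) (nat_lit 321) (nat_lit 239) r12_321 r0_239 (nat_lit 4326039) (nat_lit 0) (nat_lit 0) (nat_lit 0x1f34cc8b6) (nat_lit 286329845),
  Rx.mk (nat_lit 176) (nat_lit 0) (nat_lit 6) (nat_lit 2) (nat_lit 6) (nat_lit 322) (nat_lit 240) r12_322 r0_240 (nat_lit 826648) (nat_lit 0) (nat_lit 0) (nat_lit 0x1cf75fa98) (nat_lit 320912104),
  Rx.mk (nat_lit 416) (nat_lit 0) (nat_lit 4) (nat_lit 6) (nat_lit 4) (nat_lit 318) (nat_lit 236) r12_318 r0_236 (nat_lit 17287) (nat_lit 13849) (nat_lit 0) (nat_lit 0x1a39bb7e6) (nat_lit 366576142),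
  Rx.mk (nat_lit 418) (nat_lit 2) (nat_lit 4) (nat_lit 6) (nat_lit 5) (nat_lit 323) (nat_lit 241) r12_323 r0_241 (nat_lit 0) (nat_lit 1422249) (nat_lit 0) (nat_lit 0x20c524b88) (nat_lit 257436105),
  Rx.mk (nat_lit 424) (nat_lit 0) (nat_lit 5) (nat_lit 6) (nat_lit 6) (nat_lit 320) (nat_lit 237) r12_320 r0_237 (nat_lit 11007) (nat_lit 0) (nat_lit 0) (nat_lit 0x23e1eb872) (nat_lit 204899413),
  Rx.mk (nat_lit 426) (nat_lit 2) (nat_lit 5) (nat_lit 6) (nat_lit 7) (nat_lit 324) (nat_lit 242) r12_324 r0_242 (nat_lit 0) (nat_lit 0) (nat_lit 0) (nat_lit 0x2607f22a8) (nat_lit 169854606)]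
noncomputable def e36_38 : List Rx := [
  Rx.mk (nat_lit 160) (nat_lit 0) (nat_lit 4) (nat_lit 2) (nat_lit 4) (nat_lit 326) (nat_lit 236) r12_326 r0_236 (nat_lit 13849) (nat_lit 17287) (nat_lit 0) (nat_lit 0x1a39bb7e6) (nat_lit 366576142),
  Rx.mk (nat_lit 161) (nat_lit 1) (nat_lit 4) (nat_lit 2) (nat_lit 5) (nat_lit 329) (nat_lit 237) r12_329 r0_237 (nat_lit 0) (nat_lit 11007) (nat_lit 0) (nat_lit 0x23e1eb872) (nat_lit 204899413),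
  Rx.mk (nat_lit 176) (nat_lit 0) (nat_lit 6) (nat_lit 2) (nat_lit 6) (nat_lit 327) (nat_lit 241) r12_327 r0_241 (nat_lit 1422249) (nat_lit 0) (nat_lit 0) (nat_lit 0x20c524b88) (nat_lit 257436105),
  Rx.mk (nat_lit 177) (nat_lit 1) (nat_lit 6) (nat_lit 2) (nat_lit 7) (nat_lit 330) (nat_lit 242) r12_330 r0_242 (nat_lit 0) (nat_lit 0) (nat_lit 0) (nat_lit 0x2607f22a8) (nat_lit 169854606),
  Rx.mk (nat_lit 416) (nat_lit 0) (nat_lit 4) (nat_lit 6) (nat_lit 4) (nat_lit 325) (nat_lit 238) r12_325 r0_238 (nat_lit 65380) (nat_lit 96469) (nat_lit 0) (nat_lit 0x18a8c6ef8) (nat_lit 393333155),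
  Rx.mk (nat_lit 417) (nat_lit 1) (nat_lit 4) (nat_lit 6) (nat_lit 5) (nat_lit 328) (nat_lit 239) r12_328 r0_239 (nat_lit 0) (nat_lit 4326039) (nat_lit 0) (nat_lit 0x1f34cc8b6) (nat_lit 286329845),
  Rx.mk (nat_lit 418) (nat_lit 2) (nat_lit 4) (nat_lit 6) (nat_lit 5) (nat_lit 331) (nat_lit 240) r12_331 r0_240 (nat_lit 0) (nat_lit 826648) (nat_lit 0) (nat_lit 0x1cf75fa98) (nat_lit 320912104)]
noncomputable def e36_39 : List Rx := [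
  Rx.mk (nat_lit 160) (nat_lit 0) (nat_lit 4) (nat_lit 2) (nat_lit 4) (nat_lit 333) (nat_lit 305) r12_333 r7_305 (nat_lit 205538) (nat_lit 182123) (nat_lit 0) (nat_lit 0x1b7456eea) (nat_lit 346095267),
  Rx.mk (nat_lit 161) (nat_lit 1) (nat_lit 4) (nat_lit 2) (nat_lit 5) (nat_lit 338) (nat_lit 310) r12_338 r7_310 (nat_lit 0) (nat_lit 2496873) (nat_lit 0) (nat_lit 0x1fe2faafa) (nat_lit 273109429),
  Rx.mk (nat_lit 168) (nat_lit 0) (nat_lit 5) (nat_lit 2) (nat_lit 6) (nat_lit 335) (nat_lit 306) r12_335 r7_306 (nat_lit 3052202) (nat_lit 0) (nat_lit 0) (nat_lit 0x2031c5afe) (nat_lit 268549008),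
  Rx.mk (nat_lit 169) (nat_lit 1) (nat_lit 5) (nat_lit 2) (nat_lit 7) (nat_lit 340) (nat_lit 311) r12_340 r7_311 (nat_lit 0) (nat_lit 0) (nat_lit 0) (nat_lit 0x22a5412e2) (nat_lit 225311006),
  Rx.mk (nat_lit 176) (nat_lit 0) (nat_lit 6) (nat_lit 2) (nat_lit 6) (nat_lit 336) (nat_lit 307) r12_336 r7_307 (nat_lit 1764226) (nat_lit 0) (nat_lit 0) (nat_lit 0x1f2f3f7d6) (nat_lit 284231582),
  Rx.mk (nat_lit 177) (nat_lit 1) (nat_lit 6) (nat_lit 2) (nat_lit 7) (nat_lit 341) (nat_lit 312) r12_341 r7_312 (nat_lit 0) (nat_lit 0) (nat_lit 0) (nat_lit 0x244f14688) (nat_lit 198076806),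
  Rx.mk (nat_lit 416) (nat_lit 0) (nat_lit 4) (nat_lit 6) (nat_lit 4) (nat_lit 332) (nat_lit 303) r12_332 r7_303 (nat_lit 182123) (nat_lit 205538) (nat_lit 0) (nat_lit 0x1b7456eea) (nat_lit 346095267),
  Rx.mk (nat_lit 417) (nat_lit 1) (nat_lit 4) (nat_lit 6) (nat_lit 5) (nat_lit 337) (nat_lit 308) r12_337 r7_308 (nat_lit 0) (nat_lit 3052202) (nat_lit 0) (nat_lit 0x2031c5afe) (nat_lit 268549008),
  Rx.mk (nat_lit 418) (nat_lit 2) (nat_lit 4) (nat_lit 6) (nat_lit 5) (nat_lit 342) (nat_lit 313) r12_342 r7_313 (nat_lit 0) (nat_lit 1764226) (nat_lit 0) (nat_lit 0x1f2f3f7d6) (nat_lit 284231582),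
  Rx.mk (nat_lit 424) (nat_lit 0) (nat_lit 5) (nat_lit 6) (nat_lit 6) (nat_lit 334) (nat_lit 304) r12_334 r7_304 (nat_lit 2496873) (nat_lit 0) (nat_lit 0) (nat_lit 0x1fe2faafa) (nat_lit 273109429),
  Rx.mk (nat_lit 425) (nat_lit 1) (nat_lit 5) (nat_lit 6) (nat_lit 7) (nat_lit 339) (nat_lit 309) r12_339 r7_309 (nat_lit 0) (nat_lit 0) (nat_lit 0) (nat_lit 0x22a5412e2) (nat_lit 225311006),
  Rx.mk (nat_lit 426) (nat_lit 2) (nat_lit 5) (nat_lit 6) (nat_lit 7) (nat_lit 343) (nat_lit 314) r12_343 r7_314 (nat_lit 0) (nat_lit 0) (nat_lit 0) (nat_lit 0x244f14688) (nat_lit 198076806)]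
noncomputable def e36_40 : List Rx := [
  Rx.mk (nat_lit 53) (nat_lit 5) (nat_lit 6) (nat_lit 0) (nat_lit 3) (nat_lit 344) (nat_lit 273) r12_344 r2_273 (nat_lit 0) (nat_lit 0) (nat_lit 7488790) (nat_lit 0x1ea5b99b2) (nat_lit 299105196),
  Rx.mk (nat_lit 161) (nat_lit 1) (nat_lit 4) (nat_lit 2) (nat_lit 5) (nat_lit 346) (nat_lit 272) r12_346 r2_272 (nat_lit 0) (nat_lit 7488790) (nat_lit 0) (nat_lit 0x1ea5b99b2) (nat_lit 299105196),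
  Rx.mk (nat_lit 177) (nat_lit 1) (nat_lit 6) (nat_lit 2) (nat_lit 7) (nat_lit 347) (nat_lit 274) r12_347 r2_274 (nat_lit 0) (nat_lit 0) (nat_lit 0) (nat_lit 0x20056d4f2) (nat_lit 268435456),
  Rx.mk (nat_lit 181) (nat_lit 5) (nat_lit 6) (nat_lit 2) (nat_lit 7) (nat_lit 345) (nat_lit 275) r12_345 r2_275 (nat_lit 0) (nat_lit 0) (nat_lit 0) (nat_lit 0x20056d4f2) (nat_lit 268435456)]
noncomputable def e36_41 : List Rx := [
  Rx.mk (nat_lit 161) (nat_lit 1) (nat_lit 4) (nat_lit 2) (nat_lit 5) (nat_lit 349) (nat_lit 244) r12_349 r9_244 (nat_lit 0) (nat_lit 11069367) (nat_lit 0) (nat_lit 0x1ef76333a) (nat_lit 297276673),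
  Rx.mk (nat_lit 169) (nat_lit 1) (nat_lit 5) (nat_lit 2) (nat_lit 7) (nat_lit 350) (nat_lit 245) r12_350 r9_245 (nat_lit 0) (nat_lit 0) (nat_lit 0) (nat_lit 0x20056d4f2) (nat_lit 268435456),
  Rx.mk (nat_lit 177) (nat_lit 1) (nat_lit 6) (nat_lit 2) (nat_lit 7) (nat_lit 351) (nat_lit 246) r12_351 r9_246 (nat_lit 0) (nat_lit 0) (nat_lit 0) (nat_lit 0x20056d4f2) (nat_lit 268435456),
  Rx.mk (nat_lit 181) (nat_lit 5) (nat_lit 6) (nat_lit 2) (nat_lit 7) (nat_lit 348) (nat_lit 247) r12_348 r9_247 (nat_lit 0) (nat_lit 0) (nat_lit 0) (nat_lit 0x20056d4f2) (nat_lit 268435456)]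
noncomputable def e36_42 : List Rx := [
  Rx.mk (nat_lit 53) (nat_lit 5) (nat_lit 6) (nat_lit 0) (nat_lit 3) (nat_lit 352) (nat_lit 244) r12_352 r9_244 (nat_lit 0) (nat_lit 0) (nat_lit 11069367) (nat_lit 0x1ef76333a) (nat_lit 297276673),
  Rx.mk (nat_lit 117) (nat_lit 5) (nat_lit 6) (nat_lit 1) (nat_lit 7) (nat_lit 353) (nat_lit 245) r12_353 r9_245 (nat_lit 0) (nat_lit 0) (nat_lit 0) (nat_lit 0x20056d4f2) (nat_lit 268435456),
  Rx.mk (nat_lit 177) (nat_lit 1) (nat_lit 6) (nat_lit 2) (nat_lit 7) (nat_lit 355) (nat_lit 247) r12_355 r9_247 (nat_lit 0) (nat_lit 0) (nat_lit 0) (nat_lit 0x20056d4f2) (nat_lit 268435456),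
  Rx.mk (nat_lit 181) (nat_lit 5) (nat_lit 6) (nat_lit 2) (nat_lit 7) (nat_lit 354) (nat_lit 246) r12_354 r9_246 (nat_lit 0) (nat_lit 0) (nat_lit 0) (nat_lit 0x20056d4f2) (nat_lit 268435456)]
noncomputable def e36_43 : List Rx := [
  Rx.mk (nat_lit 161) (nat_lit 1) (nat_lit 4) (nat_lit 2) (nat_lit 5) (nat_lit 357) (nat_lit 249) r12_357 r1_249 (nat_lit 0) (nat_lit 21232) (nat_lit 0) (nat_lit 0x2243b5f32) (nat_lit 231396038),
  Rx.mk (nat_lit 177) (nat_lit 1) (nat_lit 6) (nat_lit 2) (nat_lit 7) (nat_lit 358) (nat_lit 251) r12_358 r1_251 (nat_lit 0) (nat_lit 0) (nat_lit 0) (nat_lit 0x2637ba8d2) (nat_lit 166787206),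
  Rx.mk (nat_lit 417) (nat_lit 1) (nat_lit 4) (nat_lit 6) (nat_lit 5) (nat_lit 356) (nat_lit 250) r12_356 r1_250 (nat_lit 0) (nat_lit 7255466) (nat_lit 0) (nat_lit 0x20ee82606) (nat_lit 260578772)]
noncomputable def e36_44 : List Rx := [
  Rx.mk (nat_lit 161) (nat_lit 1) (nat_lit 4) (nat_lit 2) (nat_lit 5) (nat_lit 360) (nat_lit 227) r12_360 r8_227 (nat_lit 0) (nat_lit 1718674) (nat_lit 0) (nat_lit 0x2019e5d76) (nat_lit 268749930),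
  Rx.mk (nat_lit 169) (nat_lit 1) (nat_lit 5) (nat_lit 2) (nat_lit 7) (nat_lit 362) (nat_lit 228) r12_362 r8_228 (nat_lit 0) (nat_lit 0) (nat_lit 0) (nat_lit 0x212881cf8) (nat_lit 249679706),
  Rx.mk (nat_lit 177) (nat_lit 1) (nat_lit 6) (nat_lit 2) (nat_lit 7) (nat_lit 363) (nat_lit 229) r12_363 r8_229 (nat_lit 0) (nat_lit 0) (nat_lit 0) (nat_lit 0x217654bc4) (nat_lit 244695456),
  Rx.mk (nat_lit 417) (nat_lit 1) (nat_lit 4) (nat_lit 6) (nat_lit 5) (nat_lit 359) (nat_lit 225) r12_359 r8_225 (nat_lit 0) (nat_lit 7891744) (nat_lit 0) (nat_lit 0x1fc6d7b0c) (nat_lit 280406750),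
  Rx.mk (nat_lit 425) (nat_lit 1) (nat_lit 5) (nat_lit 6) (nat_lit 7) (nat_lit 361) (nat_lit 226) r12_361 r8_226 (nat_lit 0) (nat_lit 0) (nat_lit 0) (nat_lit 0x20056d4f2) (nat_lit 268435456)]
noncomputable def e36_45 : List Rx := [
  Rx.mk (nat_lit 168) (nat_lit 0) (nat_lit 5) (nat_lit 2) (nat_lit 6) (nat_lit 365) (nat_lit 250) r12_365 r1_250 (nat_lit 7255466) (nat_lit 0) (nat_lit 0) (nat_lit 0x20ee82606) (nat_lit 260578772),
  Rx.mk (nat_lit 424) (nat_lit 0) (nat_lit 5) (nat_lit 6) (nat_lit 6) (nat_lit 364) (nat_lit 249) r12_364 r1_249 (nat_lit 21232) (nat_lit 0) (nat_lit 0) (nat_lit 0x2243b5f32) (nat_lit 231396038),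
  Rx.mk (nat_lit 426) (nat_lit 2) (nat_lit 5) (nat_lit 6) (nat_lit 7) (nat_lit 366) (nat_lit 251) r12_366 r1_251 (nat_lit 0) (nat_lit 0) (nat_lit 0) (nat_lit 0x2637ba8d2) (nat_lit 166787206)]
noncomputable def e36_46 : List Rx := [
  Rx.mk (nat_lit 266) (nat_lit 2) (nat_lit 1) (nat_lit 4) (nat_lit 3) (nat_lit 369) (nat_lit 273) r12_369 r2_273 (nat_lit 0) (nat_lit 0) (nat_lit 7488790) (nat_lit 0x1ea5b99b2) (nat_lit 299105196),
  Rx.mk (nat_lit 394) (nat_lit 2) (nat_lit 1) (nat_lit 6) (nat_lit 7) (nat_lit 370) (nat_lit 275) r12_370 r2_275 (nat_lit 0) (nat_lit 0) (nat_lit 0) (nat_lit 0x20056d4f2) (nat_lit 268435456),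
  Rx.mk (nat_lit 424) (nat_lit 0) (nat_lit 5) (nat_lit 6) (nat_lit 6) (nat_lit 367) (nat_lit 272) r12_367 r2_272 (nat_lit 7488790) (nat_lit 0) (nat_lit 0) (nat_lit 0x1ea5b99b2) (nat_lit 299105196),
  Rx.mk (nat_lit 426) (nat_lit 2) (nat_lit 5) (nat_lit 6) (nat_lit 7) (nat_lit 368) (nat_lit 274) r12_368 r2_274 (nat_lit 0) (nat_lit 0) (nat_lit 0) (nat_lit 0x20056d4f2) (nat_lit 268435456)]
noncomputable def e36_47 : List Rx := [
  Rx.mk (nat_lit 168) (nat_lit 0) (nat_lit 5) (nat_lit 2) (nat_lit 6) (nat_lit 372) (nat_lit 225) r12_372 r8_225 (nat_lit 7891744) (nat_lit 0) (nat_lit 0) (nat_lit 0x1fc6d7b0c) (nat_lit 280406750),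
  Rx.mk (nat_lit 169) (nat_lit 1) (nat_lit 5) (nat_lit 2) (nat_lit 7) (nat_lit 374) (nat_lit 226) r12_374 r8_226 (nat_lit 0) (nat_lit 0) (nat_lit 0) (nat_lit 0x20056d4f2) (nat_lit 268435456),
  Rx.mk (nat_lit 424) (nat_lit 0) (nat_lit 5) (nat_lit 6) (nat_lit 6) (nat_lit 371) (nat_lit 227) r12_371 r8_227 (nat_lit 1718674) (nat_lit 0) (nat_lit 0) (nat_lit 0x2019e5d76) (nat_lit 268749930),
  Rx.mk (nat_lit 425) (nat_lit 1) (nat_lit 5) (nat_lit 6) (nat_lit 7) (nat_lit 373) (nat_lit 228) r12_373 r8_228 (nat_lit 0) (nat_lit 0) (nat_lit 0) (nat_lit 0x212881cf8) (nat_lit 249679706),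
  Rx.mk (nat_lit 426) (nat_lit 2) (nat_lit 5) (nat_lit 6) (nat_lit 7) (nat_lit 375) (nat_lit 229) r12_375 r8_229 (nat_lit 0) (nat_lit 0) (nat_lit 0) (nat_lit 0x217654bc4) (nat_lit 244695456)]
noncomputable def e36_48 : List Rx := [
  Rx.mk (nat_lit 394) (nat_lit 2) (nat_lit 1) (nat_lit 6) (nat_lit 7) (nat_lit 379) (nat_lit 247) r12_379 r9_247 (nat_lit 0) (nat_lit 0) (nat_lit 0) (nat_lit 0x20056d4f2) (nat_lit 268435456),
  Rx.mk (nat_lit 424) (nat_lit 0) (nat_lit 5) (nat_lit 6) (nat_lit 6) (nat_lit 376) (nat_lit 244) r12_376 r9_244 (nat_lit 11069367) (nat_lit 0) (nat_lit 0) (nat_lit 0x1ef76333a) (nat_lit 297276673),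
  Rx.mk (nat_lit 425) (nat_lit 1) (nat_lit 5) (nat_lit 6) (nat_lit 7) (nat_lit 377) (nat_lit 245) r12_377 r9_245 (nat_lit 0) (nat_lit 0) (nat_lit 0) (nat_lit 0x20056d4f2) (nat_lit 268435456),
  Rx.mk (nat_lit 426) (nat_lit 2) (nat_lit 5) (nat_lit 6) (nat_lit 7) (nat_lit 378) (nat_lit 246) r12_378 r9_246 (nat_lit 0) (nat_lit 0) (nat_lit 0) (nat_lit 0x20056d4f2) (nat_lit 268435456)]
noncomputable def e36_49 : List Rx := [
  Rx.mk (nat_lit 266) (nat_lit 2) (nat_lit 1) (nat_lit 4) (nat_lit 3) (nat_lit 381) (nat_lit 244) r12_381 r9_244 (nat_lit 0) (nat_lit 0) (nat_lit 11069367) (nat_lit 0x1ef76333a) (nat_lit 297276673),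
  Rx.mk (nat_lit 330) (nat_lit 2) (nat_lit 1) (nat_lit 5) (nat_lit 7) (nat_lit 382) (nat_lit 245) r12_382 r9_245 (nat_lit 0) (nat_lit 0) (nat_lit 0) (nat_lit 0x20056d4f2) (nat_lit 268435456),
  Rx.mk (nat_lit 394) (nat_lit 2) (nat_lit 1) (nat_lit 6) (nat_lit 7) (nat_lit 383) (nat_lit 246) r12_383 r9_246 (nat_lit 0) (nat_lit 0) (nat_lit 0) (nat_lit 0x20056d4f2) (nat_lit 268435456),
  Rx.mk (nat_lit 426) (nat_lit 2) (nat_lit 5) (nat_lit 6) (nat_lit 7) (nat_lit 380) (nat_lit 247) r12_380 r9_247 (nat_lit 0) (nat_lit 0) (nat_lit 0) (nat_lit 0x20056d4f2) (nat_lit 268435456)]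
noncomputable def e36_50 : List Rx := [
  Rx.mk (nat_lit 160) (nat_lit 0) (nat_lit 4) (nat_lit 2) (nat_lit 4) (nat_lit 385) (nat_lit 237) r12_385 r3_237 (nat_lit 558) (nat_lit 467) (nat_lit 0) (nat_lit 0x1ffff3f58) (nat_lit 268439781),
  Rx.mk (nat_lit 163) (nat_lit 3) (nat_lit 4) (nat_lit 2) (nat_lit 5) (nat_lit 390) (nat_lit 239) r12_390 r3_239 (nat_lit 0) (nat_lit 8976) (nat_lit 0) (nat_lit 0x2001493f8) (nat_lit 268367282),
  Rx.mk (nat_lit 176) (nat_lit 0) (nat_lit 6) (nat_lit 2) (nat_lit 6) (nat_lit 386) (nat_lit 238) r12_386 r3_238 (nat_lit 28803) (nat_lit 0) (nat_lit 0) (nat_lit 0x1fcdaf02e) (nat_lit 271810059),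
  Rx.mk (nat_lit 179) (nat_lit 3) (nat_lit 6) (nat_lit 2) (nat_lit 7) (nat_lit 391) (nat_lit 240) r12_391 r3_240 (nat_lit 0) (nat_lit 0) (nat_lit 0) (nat_lit 0x207c16bee) (nat_lit 260594856),
  Rx.mk (nat_lit 416) (nat_lit 0) (nat_lit 4) (nat_lit 6) (nat_lit 4) (nat_lit 384) (nat_lit 235) r12_384 r3_235 (nat_lit 467) (nat_lit 558) (nat_lit 0) (nat_lit 0x1ffff3f58) (nat_lit 268439781),
  Rx.mk (nat_lit 418) (nat_lit 2) (nat_lit 4) (nat_lit 6) (nat_lit 5) (nat_lit 388) (nat_lit 241) r12_388 r3_241 (nat_lit 0) (nat_lit 28803) (nat_lit 0) (nat_lit 0x1fcdaf02e) (nat_lit 271810059),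
  Rx.mk (nat_lit 440) (nat_lit 0) (nat_lit 7) (nat_lit 6) (nat_lit 6) (nat_lit 387) (nat_lit 236) r12_387 r3_236 (nat_lit 8976) (nat_lit 0) (nat_lit 0) (nat_lit 0x2001493f8) (nat_lit 268367282),
  Rx.mk (nat_lit 442) (nat_lit 2) (nat_lit 7) (nat_lit 6) (nat_lit 7) (nat_lit 389) (nat_lit 242) r12_389 r3_242 (nat_lit 0) (nat_lit 0) (nat_lit 0) (nat_lit 0x207c16bee) (nat_lit 260594856)]
noncomputable def e36_51 : List Rx := [
  Rx.mk (nat_lit 160) (nat_lit 0) (nat_lit 4) (nat_lit 2) (nat_lit 4) (nat_lit 393) (nat_lit 244) r12_393 r4_244 (nat_lit 194160) (nat_lit 62716) (nat_lit 0) (nat_lit 0x198b63dd8) (nat_lit 378385932),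
  Rx.mk (nat_lit 163) (nat_lit 3) (nat_lit 4) (nat_lit 2) (nat_lit 5) (nat_lit 401) (nat_lit 247) r12_401 r4_247 (nat_lit 0) (nat_lit 9060) (nat_lit 0) (nat_lit 0x162942440) (nat_lit 435605266),
  Rx.mk (nat_lit 168) (nat_lit 0) (nat_lit 5) (nat_lit 2) (nat_lit 6) (nat_lit 395) (nat_lit 245) r12_395 r4_245 (nat_lit 4817469) (nat_lit 0) (nat_lit 0) (nat_lit 0x1f2a53646) (nat_lit 287629275),
  Rx.mk (nat_lit 171) (nat_lit 3) (nat_lit 5) (nat_lit 2) (nat_lit 7) (nat_lit 402) (nat_lit 248) r12_402 r4_248 (nat_lit 0) (nat_lit 0) (nat_lit 0) (nat_lit 0x1f200efe6) (nat_lit 283403706),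
  Rx.mk (nat_lit 176) (nat_lit 0) (nat_lit 6) (nat_lit 2) (nat_lit 6) (nat_lit 396) (nat_lit 246) r12_396 r4_246 (nat_lit 5737185) (nat_lit 0) (nat_lit 0) (nat_lit 0x1c7d5f0f4) (nat_lit 333970541),
  Rx.mk (nat_lit 179) (nat_lit 3) (nat_lit 6) (nat_lit 2) (nat_lit 7) (nat_lit 403) (nat_lit 249) r12_403 r4_249 (nat_lit 0) (nat_lit 0) (nat_lit 0) (nat_lit 0x1dddf4940) (nat_lit 304761206),
  Rx.mk (nat_lit 416) (nat_lit 0) (nat_lit 4) (nat_lit 6) (nat_lit 4) (nat_lit 392) (nat_lit 241) r12_392 r4_241 (nat_lit 5043) (nat_lit 3283) (nat_lit 0) (nat_lit 0x1dea70778) (nat_lit 303854932),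
  Rx.mk (nat_lit 418) (nat_lit 2) (nat_lit 4) (nat_lit 6) (nat_lit 5) (nat_lit 398) (nat_lit 250) r12_398 r4_250 (nat_lit 0) (nat_lit 914600) (nat_lit 0) (nat_lit 0x212e92d2c) (nat_lit 250143256),
  Rx.mk (nat_lit 424) (nat_lit 0) (nat_lit 5) (nat_lit 6) (nat_lit 6) (nat_lit 394) (nat_lit 242) r12_394 r4_242 (nat_lit 2194767) (nat_lit 0) (nat_lit 0) (nat_lit 0x1fb06fb30) (nat_lit 276138523),
  Rx.mk (nat_lit 426) (nat_lit 2) (nat_lit 5) (nat_lit 6) (nat_lit 7) (nat_lit 399) (nat_lit 251) r12_399 r4_251 (nat_lit 0) (nat_lit 0) (nat_lit 0) (nat_lit 0x215f2f534) (nat_lit 246173406),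
  Rx.mk (nat_lit 440) (nat_lit 0) (nat_lit 7) (nat_lit 6) (nat_lit 6) (nat_lit 397) (nat_lit 243) r12_397 r4_243 (nat_lit 3905508) (nat_lit 0) (nat_lit 0) (nat_lit 0x20df7f3b6) (nat_lit 258267614),
  Rx.mk (nat_lit 442) (nat_lit 2) (nat_lit 7) (nat_lit 6) (nat_lit 7) (nat_lit 400) (nat_lit 252) r12_400 r4_252 (nat_lit 0) (nat_lit 0) (nat_lit 0) (nat_lit 0x2184180d0) (nat_lit 243814506)]
noncomputable def e36_52 : List Rx := [
  Rx.mk (nat_lit 160) (nat_lit 0) (nat_lit 4) (nat_lit 2) (nat_lit 4) (nat_lit 404) (nat_lit 246) r12_404 r5_246 (nat_lit 18631) (nat_lit 12394) (nat_lit 0) (nat_lit 0x1fda9dc86) (nat_lit 270951781),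
  Rx.mk (nat_lit 163) (nat_lit 3) (nat_lit 4) (nat_lit 2) (nat_lit 5) (nat_lit 409) (nat_lit 249) r12_409 r5_249 (nat_lit 0) (nat_lit 404270) (nat_lit 0) (nat_lit 0x21d4d23e0) (nat_lit 238951376),
  Rx.mk (nat_lit 176) (nat_lit 0) (nat_lit 6) (nat_lit 2) (nat_lit 6) (nat_lit 405) (nat_lit 248) r12_405 r5_248 (nat_lit 2033357) (nat_lit 0) (nat_lit 0) (nat_lit 0x1ed529288) (nat_lit 290469663),
  Rx.mk (nat_lit 179) (nat_lit 3) (nat_lit 6) (nat_lit 2) (nat_lit 7) (nat_lit 410) (nat_lit 250) r12_410 r5_250 (nat_lit 0) (nat_lit 0) (nat_lit 0) (nat_lit 0x260e2565c) (nat_lit 169458306),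
  Rx.mk (nat_lit 184) (nat_lit 0) (nat_lit 7) (nat_lit 2) (nat_lit 6) (nat_lit 407) (nat_lit 247) r12_407 r5_247 (nat_lit 1029543) (nat_lit 0) (nat_lit 0) (nat_lit 0x228efb500) (nat_lit 227712749),
  Rx.mk (nat_lit 440) (nat_lit 0) (nat_lit 7) (nat_lit 6) (nat_lit 6) (nat_lit 406) (nat_lit 245) r12_406 r5_245 (nat_lit 23050) (nat_lit 0) (nat_lit 0) (nat_lit 0x2295f7ee4) (nat_lit 226140306),
  Rx.mk (nat_lit 442) (nat_lit 2) (nat_lit 7) (nat_lit 6) (nat_lit 7) (nat_lit 408) (nat_lit 251) r12_408 r5_251 (nat_lit 0) (nat_lit 0) (nat_lit 0) (nat_lit 0x1ff548c20) (nat_lit 269169706)]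
noncomputable def e36_53 : List Rx := [
  Rx.mk (nat_lit 160) (nat_lit 0) (nat_lit 4) (nat_lit 2) (nat_lit 4) (nat_lit 412) (nat_lit 241) r12_412 r4_241 (nat_lit 3283) (nat_lit 5043) (nat_lit 0) (nat_lit 0x1dea70778) (nat_lit 303854932),
  Rx.mk (nat_lit 161) (nat_lit 1) (nat_lit 4) (nat_lit 2) (nat_lit 5) (nat_lit 416) (nat_lit 242) r12_416 r4_242 (nat_lit 0) (nat_lit 2194767) (nat_lit 0) (nat_lit 0x1fb06fb30) (nat_lit 276138523),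
  Rx.mk (nat_lit 163) (nat_lit 3) (nat_lit 4) (nat_lit 2) (nat_lit 5) (nat_lit 421) (nat_lit 243) r12_421 r4_243 (nat_lit 0) (nat_lit 3905508) (nat_lit 0) (nat_lit 0x20df7f3b6) (nat_lit 258267614),
  Rx.mk (nat_lit 176) (nat_lit 0) (nat_lit 6) (nat_lit 2) (nat_lit 6) (nat_lit 413) (nat_lit 250) r12_413 r4_250 (nat_lit 914600) (nat_lit 0) (nat_lit 0) (nat_lit 0x212e92d2c) (nat_lit 250143256),
  Rx.mk (nat_lit 177) (nat_lit 1) (nat_lit 6) (nat_lit 2) (nat_lit 7) (nat_lit 417) (nat_lit 251) r12_417 r4_251 (nat_lit 0) (nat_lit 0) (nat_lit 0) (nat_lit 0x215f2f534) (nat_lit 246173406),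
  Rx.mk (nat_lit 179) (nat_lit 3) (nat_lit 6) (nat_lit 2) (nat_lit 7) (nat_lit 422) (nat_lit 252) r12_422 r4_252 (nat_lit 0) (nat_lit 0) (nat_lit 0) (nat_lit 0x2184180d0) (nat_lit 243814506),
  Rx.mk (nat_lit 416) (nat_lit 0) (nat_lit 4) (nat_lit 6) (nat_lit 4) (nat_lit 411) (nat_lit 244) r12_411 r4_244 (nat_lit 62716) (nat_lit 194160) (nat_lit 0) (nat_lit 0x198b63dd8) (nat_lit 378385932),
  Rx.mk (nat_lit 417) (nat_lit 1) (nat_lit 4) (nat_lit 6) (nat_lit 5) (nat_lit 415) (nat_lit 245) r12_415 r4_245 (nat_lit 0) (nat_lit 4817469) (nat_lit 0) (nat_lit 0x1f2a53646) (nat_lit 287629275),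
  Rx.mk (nat_lit 418) (nat_lit 2) (nat_lit 4) (nat_lit 6) (nat_lit 5) (nat_lit 419) (nat_lit 246) r12_419 r4_246 (nat_lit 0) (nat_lit 5737185) (nat_lit 0) (nat_lit 0x1c7d5f0f4) (nat_lit 333970541),
  Rx.mk (nat_lit 440) (nat_lit 0) (nat_lit 7) (nat_lit 6) (nat_lit 6) (nat_lit 414) (nat_lit 247) r12_414 r4_247 (nat_lit 9060) (nat_lit 0) (nat_lit 0) (nat_lit 0x162942440) (nat_lit 435605266),
  Rx.mk (nat_lit 441) (nat_lit 1) (nat_lit 7) (nat_lit 6) (nat_lit 7) (nat_lit 418) (nat_lit 248) r12_418 r4_248 (nat_lit 0) (nat_lit 0) (nat_lit 0) (nat_lit 0x1f200efe6) (nat_lit 283403706),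
  Rx.mk (nat_lit 442) (nat_lit 2) (nat_lit 7) (nat_lit 6) (nat_lit 7) (nat_lit 420) (nat_lit 249) r12_420 r4_249 (nat_lit 0) (nat_lit 0) (nat_lit 0) (nat_lit 0x1dddf4940) (nat_lit 304761206)]
noncomputable def e36_54 : List Rx := [
  Rx.mk (nat_lit 160) (nat_lit 0) (nat_lit 4) (nat_lit 2) (nat_lit 4) (nat_lit 424) (nat_lit 260) r12_424 r10_260 (nat_lit 325914) (nat_lit 322441) (nat_lit 0) (nat_lit 0x1c234ab86) (nat_lit 334766061),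
  Rx.mk (nat_lit 161) (nat_lit 1) (nat_lit 4) (nat_lit 2) (nat_lit 5) (nat_lit 430) (nat_lit 265) r12_430 r10_265 (nat_lit 0) (nat_lit 2243506) (nat_lit 0) (nat_lit 0x219b704a8) (nat_lit 244550362),
  Rx.mk (nat_lit 163) (nat_lit 3) (nat_lit 4) (nat_lit 2) (nat_lit 5) (nat_lit 436) (nat_lit 267) r12_436 r10_267 (nat_lit 0) (nat_lit 2167477) (nat_lit 0) (nat_lit 0x21701f934) (nat_lit 247245333),
  Rx.mk (nat_lit 168) (nat_lit 0) (nat_lit 5) (nat_lit 2) (nat_lit 6) (nat_lit 426) (nat_lit 261) r12_426 r10_261 (nat_lit 2881372) (nat_lit 0) (nat_lit 0) (nat_lit 0x22e576b1e) (nat_lit 224085728),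
  Rx.mk (nat_lit 171) (nat_lit 3) (nat_lit 5) (nat_lit 2) (nat_lit 7) (nat_lit 437) (nat_lit 268) r12_437 r10_268 (nat_lit 0) (nat_lit 0) (nat_lit 0) (nat_lit 0x20f770088) (nat_lit 252826306),
  Rx.mk (nat_lit 176) (nat_lit 0) (nat_lit 6) (nat_lit 2) (nat_lit 6) (nat_lit 427) (nat_lit 262) r12_427 r10_262 (nat_lit 1837154) (nat_lit 0) (nat_lit 0) (nat_lit 0x1fc64b86e) (nat_lit 274338360),
  Rx.mk (nat_lit 177) (nat_lit 1) (nat_lit 6) (nat_lit 2) (nat_lit 7) (nat_lit 431) (nat_lit 266) r12_431 r10_266 (nat_lit 0) (nat_lit 0) (nat_lit 0) (nat_lit 0x23a566000) (nat_lit 208927306),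
  Rx.mk (nat_lit 179) (nat_lit 3) (nat_lit 6) (nat_lit 2) (nat_lit 7) (nat_lit 438) (nat_lit 269) r12_438 r10_269 (nat_lit 0) (nat_lit 0) (nat_lit 0) (nat_lit 0x23a566000) (nat_lit 208927306),
  Rx.mk (nat_lit 416) (nat_lit 0) (nat_lit 4) (nat_lit 6) (nat_lit 4) (nat_lit 423) (nat_lit 257) r12_423 r10_257 (nat_lit 322441) (nat_lit 325914) (nat_lit 0) (nat_lit 0x1c234ab86) (nat_lit 334766061),
  Rx.mk (nat_lit 417) (nat_lit 1) (nat_lit 4) (nat_lit 6) (nat_lit 5) (nat_lit 429) (nat_lit 263) r12_429 r10_263 (nat_lit 0) (nat_lit 2881372) (nat_lit 0) (nat_lit 0x22e576b1e) (nat_lit 224085728),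
  Rx.mk (nat_lit 418) (nat_lit 2) (nat_lit 4) (nat_lit 6) (nat_lit 5) (nat_lit 433) (nat_lit 270) r12_433 r10_270 (nat_lit 0) (nat_lit 1837154) (nat_lit 0) (nat_lit 0x1fc64b86e) (nat_lit 274338360),
  Rx.mk (nat_lit 424) (nat_lit 0) (nat_lit 5) (nat_lit 6) (nat_lit 6) (nat_lit 425) (nat_lit 258) r12_425 r10_258 (nat_lit 2243506) (nat_lit 0) (nat_lit 0) (nat_lit 0x219b704a8) (nat_lit 244550362),
  Rx.mk (nat_lit 426) (nat_lit 2) (nat_lit 5) (nat_lit 6) (nat_lit 7) (nat_lit 434) (nat_lit 271) r12_434 r10_271 (nat_lit 0) (nat_lit 0) (nat_lit 0) (nat_lit 0x23a566000) (nat_lit 208927306),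
  Rx.mk (nat_lit 440) (nat_lit 0) (nat_lit 7) (nat_lit 6) (nat_lit 6) (nat_lit 428) (nat_lit 259) r12_428 r10_259 (nat_lit 2167477) (nat_lit 0) (nat_lit 0) (nat_lit 0x21701f934) (nat_lit 247245333),
  Rx.mk (nat_lit 441) (nat_lit 1) (nat_lit 7) (nat_lit 6) (nat_lit 7) (nat_lit 432) (nat_lit 264) r12_432 r10_264 (nat_lit 0) (nat_lit 0) (nat_lit 0) (nat_lit 0x20f770088) (nat_lit 252826306),
  Rx.mk (nat_lit 442) (nat_lit 2) (nat_lit 7) (nat_lit 6) (nat_lit 7) (nat_lit 435) (nat_lit 272) r12_435 r10_272 (nat_lit 0) (nat_lit 0) (nat_lit 0) (nat_lit 0x23a566000) (nat_lit 208927306)]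
noncomputable def e36_55 : List Rx := [
  Rx.mk (nat_lit 160) (nat_lit 0) (nat_lit 4) (nat_lit 2) (nat_lit 4) (nat_lit 439) (nat_lit 288) r12_439 r11_288 (nat_lit 774954) (nat_lit 955947) (nat_lit 0) (nat_lit 0x1d70f638e) (nat_lit 313756707),
  Rx.mk (nat_lit 161) (nat_lit 1) (nat_lit 4) (nat_lit 2) (nat_lit 5) (nat_lit 443) (nat_lit 292) r12_443 r11_292 (nat_lit 0) (nat_lit 3540029) (nat_lit 0) (nat_lit 0x2010a1a26) (nat_lit 271220685),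
  Rx.mk (nat_lit 163) (nat_lit 3) (nat_lit 4) (nat_lit 2) (nat_lit 5) (nat_lit 448) (nat_lit 295) r12_448 r11_295 (nat_lit 0) (nat_lit 4597925) (nat_lit 0) (nat_lit 0x209206102) (nat_lit 263936381),
  Rx.mk (nat_lit 176) (nat_lit 0) (nat_lit 6) (nat_lit 2) (nat_lit 6) (nat_lit 440) (nat_lit 290) r12_440 r11_290 (nat_lit 1951873) (nat_lit 0) (nat_lit 0) (nat_lit 0x20a63d10c) (nat_lit 259964879),
  Rx.mk (nat_lit 177) (nat_lit 1) (nat_lit 6) (nat_lit 2) (nat_lit 7) (nat_lit 444) (nat_lit 294) r12_444 r11_294 (nat_lit 0) (nat_lit 0) (nat_lit 0) (nat_lit 0x204307ce0) (nat_lit 264428456),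
  Rx.mk (nat_lit 179) (nat_lit 3) (nat_lit 6) (nat_lit 2) (nat_lit 7) (nat_lit 449) (nat_lit 296) r12_449 r11_296 (nat_lit 0) (nat_lit 0) (nat_lit 0) (nat_lit 0x209d252f4) (nat_lit 258624006),
  Rx.mk (nat_lit 184) (nat_lit 0) (nat_lit 7) (nat_lit 2) (nat_lit 6) (nat_lit 442) (nat_lit 289) r12_442 r11_289 (nat_lit 3492321) (nat_lit 0) (nat_lit 0) (nat_lit 0x212c5600e) (nat_lit 252927227),
  Rx.mk (nat_lit 185) (nat_lit 1) (nat_lit 7) (nat_lit 2) (nat_lit 7) (nat_lit 446) (nat_lit 293) r12_446 r11_293 (nat_lit 0) (nat_lit 0) (nat_lit 0) (nat_lit 0x2018fce3c) (nat_lit 267161256),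
  Rx.mk (nat_lit 440) (nat_lit 0) (nat_lit 7) (nat_lit 6) (nat_lit 6) (nat_lit 441) (nat_lit 287) r12_441 r11_287 (nat_lit 545086) (nat_lit 0) (nat_lit 0) (nat_lit 0x2188c759a) (nat_lit 243964892),
  Rx.mk (nat_lit 441) (nat_lit 1) (nat_lit 7) (nat_lit 6) (nat_lit 7) (nat_lit 445) (nat_lit 291) r12_445 r11_291 (nat_lit 0) (nat_lit 0) (nat_lit 0) (nat_lit 0x261075682) (nat_lit 169317156),
  Rx.mk (nat_lit 442) (nat_lit 2) (nat_lit 7) (nat_lit 6) (nat_lit 7) (nat_lit 447) (nat_lit 297) r12_447 r11_297 (nat_lit 0) (nat_lit 0) (nat_lit 0) (nat_lit 0x21fe10676) (nat_lit 235951656)]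
noncomputable def e36_56 : List Rx := [
  Rx.mk (nat_lit 163) (nat_lit 3) (nat_lit 4) (nat_lit 2) (nat_lit 5) (nat_lit 455) (nat_lit 245) r12_455 r5_245 (nat_lit 0) (nat_lit 23050) (nat_lit 0) (nat_lit 0x2295f7ee4) (nat_lit 226140306),
  Rx.mk (nat_lit 179) (nat_lit 3) (nat_lit 6) (nat_lit 2) (nat_lit 7) (nat_lit 456) (nat_lit 251) r12_456 r5_251 (nat_lit 0) (nat_lit 0) (nat_lit 0) (nat_lit 0x1ff548c20) (nat_lit 269169706),
  Rx.mk (nat_lit 416) (nat_lit 0) (nat_lit 4) (nat_lit 6) (nat_lit 4) (nat_lit 450) (nat_lit 246) r12_450 r5_246 (nat_lit 12394) (nat_lit 18631) (nat_lit 0) (nat_lit 0x1fda9dc86) (nat_lit 270951781),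
  Rx.mk (nat_lit 418) (nat_lit 2) (nat_lit 4) (nat_lit 6) (nat_lit 5) (nat_lit 452) (nat_lit 248) r12_452 r5_248 (nat_lit 0) (nat_lit 2033357) (nat_lit 0) (nat_lit 0x1ed529288) (nat_lit 290469663),
  Rx.mk (nat_lit 419) (nat_lit 3) (nat_lit 4) (nat_lit 6) (nat_lit 5) (nat_lit 454) (nat_lit 247) r12_454 r5_247 (nat_lit 0) (nat_lit 1029543) (nat_lit 0) (nat_lit 0x228efb500) (nat_lit 227712749),
  Rx.mk (nat_lit 440) (nat_lit 0) (nat_lit 7) (nat_lit 6) (nat_lit 6) (nat_lit 451) (nat_lit 249) r12_451 r5_249 (nat_lit 404270) (nat_lit 0) (nat_lit 0) (nat_lit 0x21d4d23e0) (nat_lit 238951376),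
  Rx.mk (nat_lit 442) (nat_lit 2) (nat_lit 7) (nat_lit 6) (nat_lit 7) (nat_lit 453) (nat_lit 250) r12_453 r5_250 (nat_lit 0) (nat_lit 0) (nat_lit 0) (nat_lit 0x260e2565c) (nat_lit 169458306)]
noncomputable def e36_57 : List Rx := [
  Rx.mk (nat_lit 163) (nat_lit 3) (nat_lit 4) (nat_lit 2) (nat_lit 5) (nat_lit 464) (nat_lit 287) r12_464 r11_287 (nat_lit 0) (nat_lit 545086) (nat_lit 0) (nat_lit 0x2188c759a) (nat_lit 243964892),
  Rx.mk (nat_lit 171) (nat_lit 3) (nat_lit 5) (nat_lit 2) (nat_lit 7) (nat_lit 466) (nat_lit 291) r12_466 r11_291 (nat_lit 0) (nat_lit 0) (nat_lit 0) (nat_lit 0x261075682) (nat_lit 169317156),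
  Rx.mk (nat_lit 179) (nat_lit 3) (nat_lit 6) (nat_lit 2) (nat_lit 7) (nat_lit 467) (nat_lit 297) r12_467 r11_297 (nat_lit 0) (nat_lit 0) (nat_lit 0) (nat_lit 0x21fe10676) (nat_lit 235951656),
  Rx.mk (nat_lit 416) (nat_lit 0) (nat_lit 4) (nat_lit 6) (nat_lit 4) (nat_lit 457) (nat_lit 288) r12_457 r11_288 (nat_lit 955947) (nat_lit 774954) (nat_lit 0) (nat_lit 0x1d70f638e) (nat_lit 313756707),
  Rx.mk (nat_lit 418) (nat_lit 2) (nat_lit 4) (nat_lit 6) (nat_lit 5) (nat_lit 460) (nat_lit 290) r12_460 r11_290 (nat_lit 0) (nat_lit 1951873) (nat_lit 0) (nat_lit 0x20a63d10c) (nat_lit 259964879),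
  Rx.mk (nat_lit 419) (nat_lit 3) (nat_lit 4) (nat_lit 6) (nat_lit 5) (nat_lit 463) (nat_lit 289) r12_463 r11_289 (nat_lit 0) (nat_lit 3492321) (nat_lit 0) (nat_lit 0x212c5600e) (nat_lit 252927227),
  Rx.mk (nat_lit 424) (nat_lit 0) (nat_lit 5) (nat_lit 6) (nat_lit 6) (nat_lit 458) (nat_lit 292) r12_458 r11_292 (nat_lit 3540029) (nat_lit 0) (nat_lit 0) (nat_lit 0x2010a1a26) (nat_lit 271220685),
  Rx.mk (nat_lit 426) (nat_lit 2) (nat_lit 5) (nat_lit 6) (nat_lit 7) (nat_lit 461) (nat_lit 294) r12_461 r11_294 (nat_lit 0) (nat_lit 0) (nat_lit 0) (nat_lit 0x204307ce0) (nat_lit 264428456),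
  Rx.mk (nat_lit 427) (nat_lit 3) (nat_lit 5) (nat_lit 6) (nat_lit 7) (nat_lit 465) (nat_lit 293) r12_465 r11_293 (nat_lit 0) (nat_lit 0) (nat_lit 0) (nat_lit 0x2018fce3c) (nat_lit 267161256),
  Rx.mk (nat_lit 440) (nat_lit 0) (nat_lit 7) (nat_lit 6) (nat_lit 6) (nat_lit 459) (nat_lit 295) r12_459 r11_295 (nat_lit 4597925) (nat_lit 0) (nat_lit 0) (nat_lit 0x209206102) (nat_lit 263936381),
  Rx.mk (nat_lit 442) (nat_lit 2) (nat_lit 7) (nat_lit 6) (nat_lit 7) (nat_lit 462) (nat_lit 296) r12_462 r11_296 (nat_lit 0) (nat_lit 0) (nat_lit 0) (nat_lit 0x209d252f4) (nat_lit 258624006)]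
noncomputable def e36 : List (List Rx) := [e36_0, e36_1, e36_2, e36_3, e36_4, e36_5, e36_6, e36_7, e36_8, e36_9, e36_10, e36_11, e36_12, e36_13, e36_14, e36_15, e36_16, e36_17, e36_18, e36_19, e36_20, e36_21, e36_22, e36_23, e36_24, e36_25, e36_26, e36_27, e36_28, e36_29, e36_30, e36_31, e36_32, e36_33, e36_34, e36_35, e36_36, e36_37, e36_38, e36_39, e36_40, e36_41, e36_42, e36_43, e36_44, e36_45, e36_46, e36_47, e36_48, e36_49, e36_50, e36_51, e36_52, e36_53, e36_54, e36_55, e36_56, e36_57]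
noncomputable def e37_0 : List Rx := [
  Rx.mk (nat_lit 5) (nat_lit 5) (nat_lit 0) (nat_lit 0) (nat_lit 1) (nat_lit 244) (nat_lit 244) r0_244 r0_244 (nat_lit 0) (nat_lit 9523361) (nat_lit 9523361) (nat_lit 0x1988e760e) (nat_lit 397472878),
  Rx.mk (nat_lit 13) (nat_lit 5) (nat_lit 1) (nat_lit 0) (nat_lit 3) (nat_lit 245) (nat_lit 246) r0_245 r0_246 (nat_lit 0) (nat_lit 0) (nat_lit 3631069) (nat_lit 0x1c89360e4) (nat_lit 331088925),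
  Rx.mk (nat_lit 69) (nat_lit 5) (nat_lit 0) (nat_lit 1) (nat_lit 5) (nat_lit 246) (nat_lit 245) r0_246 r0_245 (nat_lit 0) (nat_lit 3631069) (nat_lit 0) (nat_lit 0x1c89360e4) (nat_lit 331088925),
  Rx.mk (nat_lit 76) (nat_lit 4) (nat_lit 1) (nat_lit 1) (nat_lit 6) (nat_lit 243) (nat_lit 243) r0_243 r0_243 (nat_lit 153426111) (nat_lit 0) (nat_lit 0) (nat_lit 0x203cc5ea4) (nat_lit 417977017),
  Rx.mk (nat_lit 77) (nat_lit 5) (nat_lit 1) (nat_lit 1) (nat_lit 7) (nat_lit 247) (nat_lit 247) r0_247 r0_247 (nat_lit 0) (nat_lit 0) (nat_lit 0) (nat_lit 0x1ef9a2efc) (nat_lit 286047556)]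
noncomputable def e37_1 : List Rx := [
  Rx.mk (nat_lit 69) (nat_lit 5) (nat_lit 0) (nat_lit 1) (nat_lit 5) (nat_lit 283) (nat_lit 253) r0_283 r1_253 (nat_lit 0) (nat_lit 8873187) (nat_lit 0) (nat_lit 0x1ed1d1158) (nat_lit 297579593),
  Rx.mk (nat_lit 76) (nat_lit 4) (nat_lit 1) (nat_lit 1) (nat_lit 6) (nat_lit 282) (nat_lit 252) r0_282 r1_252 (nat_lit 168759698) (nat_lit 0) (nat_lit 0) (nat_lit 0x1fff69344) (nat_lit 437235604),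
  Rx.mk (nat_lit 77) (nat_lit 5) (nat_lit 1) (nat_lit 1) (nat_lit 7) (nat_lit 284) (nat_lit 254) r0_284 r1_254 (nat_lit 0) (nat_lit 0) (nat_lit 0) (nat_lit 0x1f99bebe8) (nat_lit 275482756)]
noncomputable def e37_2 : List Rx := [
  Rx.mk (nat_lit 76) (nat_lit 4) (nat_lit 1) (nat_lit 1) (nat_lit 6) (nat_lit 285) (nat_lit 276) r0_285 r2_276 (nat_lit 58461491) (nat_lit 0) (nat_lit 0) (nat_lit 0x1c9e814b2) (nat_lit 384503097),
  Rx.mk (nat_lit 77) (nat_lit 5) (nat_lit 1) (nat_lit 1) (nat_lit 7) (nat_lit 287) (nat_lit 278) r0_287 r2_278 (nat_lit 0) (nat_lit 0) (nat_lit 0) (nat_lit 0x20056d4f2) (nat_lit 268435456),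
  Rx.mk (nat_lit 332) (nat_lit 4) (nat_lit 1) (nat_lit 5) (nat_lit 6) (nat_lit 286) (nat_lit 277) r0_286 r2_277 (nat_lit 12544226) (nat_lit 0) (nat_lit 0) (nat_lit 0x1eee011d4) (nat_lit 299367132),
  Rx.mk (nat_lit 333) (nat_lit 5) (nat_lit 1) (nat_lit 5) (nat_lit 7) (nat_lit 288) (nat_lit 279) r0_288 r2_279 (nat_lit 0) (nat_lit 0) (nat_lit 0) (nat_lit 0x20056d4f2) (nat_lit 268435456)]
noncomputable def e37_3 : List Rx := [
  Rx.mk (nat_lit 5) (nat_lit 5) (nat_lit 0) (nat_lit 0) (nat_lit 1) (nat_lit 302) (nat_lit 245) r0_302 r3_245 (nat_lit 0) (nat_lit 404) (nat_lit 825) (nat_lit 0x1e41714e6) (nat_lit 298072835),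
  Rx.mk (nat_lit 12) (nat_lit 4) (nat_lit 1) (nat_lit 0) (nat_lit 2) (nat_lit 300) (nat_lit 243) r0_300 r3_243 (nat_lit 304) (nat_lit 0) (nat_lit 142) (nat_lit 0x20000c530) (nat_lit 268432952),
  Rx.mk (nat_lit 13) (nat_lit 5) (nat_lit 1) (nat_lit 0) (nat_lit 3) (nat_lit 303) (nat_lit 247) r0_303 r3_247 (nat_lit 0) (nat_lit 0) (nat_lit 490321) (nat_lit 0x1f1f55190) (nat_lit 283872577),
  Rx.mk (nat_lit 197) (nat_lit 5) (nat_lit 0) (nat_lit 3) (nat_lit 5) (nat_lit 304) (nat_lit 246) r0_304 r3_246 (nat_lit 0) (nat_lit 655885) (nat_lit 0) (nat_lit 0x1e5b1fe06) (nat_lit 297129541),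
  Rx.mk (nat_lit 204) (nat_lit 4) (nat_lit 1) (nat_lit 3) (nat_lit 6) (nat_lit 301) (nat_lit 244) r0_301 r3_244 (nat_lit 44942) (nat_lit 0) (nat_lit 0) (nat_lit 0x1f4ac648c) (nat_lit 280510798),
  Rx.mk (nat_lit 205) (nat_lit 5) (nat_lit 1) (nat_lit 3) (nat_lit 7) (nat_lit 305) (nat_lit 248) r0_305 r3_248 (nat_lit 0) (nat_lit 0) (nat_lit 0) (nat_lit 0x21de14764) (nat_lit 238010106)]
noncomputable def e37_4 : List Rx := [
  Rx.mk (nat_lit 5) (nat_lit 5) (nat_lit 0) (nat_lit 0) (nat_lit 1) (nat_lit 309) (nat_lit 256) r0_309 r4_256 (nat_lit 0) (nat_lit 8049828) (nat_lit 14166006) (nat_lit 0x1ae665b5e) (nat_lit 377442740),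
  Rx.mk (nat_lit 12) (nat_lit 4) (nat_lit 1) (nat_lit 0) (nat_lit 2) (nat_lit 306) (nat_lit 253) r0_306 r4_253 (nat_lit 19679101) (nat_lit 0) (nat_lit 3903538) (nat_lit 0x1db7e0f38) (nat_lit 330963295),
  Rx.mk (nat_lit 13) (nat_lit 5) (nat_lit 1) (nat_lit 0) (nat_lit 3) (nat_lit 310) (nat_lit 259) r0_310 r4_259 (nat_lit 0) (nat_lit 0) (nat_lit 8068535) (nat_lit 0x1fcb5274a) (nat_lit 280275941),
  Rx.mk (nat_lit 69) (nat_lit 5) (nat_lit 0) (nat_lit 1) (nat_lit 5) (nat_lit 311) (nat_lit 257) r0_311 r4_257 (nat_lit 0) (nat_lit 10253547) (nat_lit 0) (nat_lit 0x1fe86ff26) (nat_lit 280577553),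
  Rx.mk (nat_lit 76) (nat_lit 4) (nat_lit 1) (nat_lit 1) (nat_lit 6) (nat_lit 307) (nat_lit 254) r0_307 r4_254 (nat_lit 108297310) (nat_lit 0) (nat_lit 0) (nat_lit 0x1ec126d4e) (nat_lit 397937116),
  Rx.mk (nat_lit 77) (nat_lit 5) (nat_lit 1) (nat_lit 1) (nat_lit 7) (nat_lit 312) (nat_lit 260) r0_312 r4_260 (nat_lit 0) (nat_lit 0) (nat_lit 0) (nat_lit 0x20469ff42) (nat_lit 264200756),
  Rx.mk (nat_lit 197) (nat_lit 5) (nat_lit 0) (nat_lit 3) (nat_lit 5) (nat_lit 313) (nat_lit 258) r0_313 r4_258 (nat_lit 0) (nat_lit 5453470) (nat_lit 0) (nat_lit 0x202795156) (nat_lit 271662226),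
  Rx.mk (nat_lit 204) (nat_lit 4) (nat_lit 1) (nat_lit 3) (nat_lit 6) (nat_lit 308) (nat_lit 255) r0_308 r4_255 (nat_lit 12077193) (nat_lit 0) (nat_lit 0) (nat_lit 0x1ffd30320) (nat_lit 281032149),
  Rx.mk (nat_lit 205) (nat_lit 5) (nat_lit 1) (nat_lit 3) (nat_lit 7) (nat_lit 314) (nat_lit 261) r0_314 r4_261 (nat_lit 0) (nat_lit 0) (nat_lit 0) (nat_lit 0x2018d4ea0) (nat_lit 267171456)]
noncomputable def e37_5 : List Rx := [
  Rx.mk (nat_lit 197) (nat_lit 5) (nat_lit 0) (nat_lit 3) (nat_lit 5) (nat_lit 316) (nat_lit 253) r0_316 r5_253 (nat_lit 0) (nat_lit 2390639) (nat_lit 0) (nat_lit 0x1ff4c17e8) (nat_lit 271882995),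
  Rx.mk (nat_lit 204) (nat_lit 4) (nat_lit 1) (nat_lit 3) (nat_lit 6) (nat_lit 315) (nat_lit 252) r0_315 r5_252 (nat_lit 3242551) (nat_lit 0) (nat_lit 0) (nat_lit 0x2143dd650) (nat_lit 251117207),
  Rx.mk (nat_lit 205) (nat_lit 5) (nat_lit 1) (nat_lit 3) (nat_lit 7) (nat_lit 317) (nat_lit 254) r0_317 r5_254 (nat_lit 0) (nat_lit 0) (nat_lit 0) (nat_lit 0x2402ac98a) (nat_lit 202949906)]
noncomputable def e37_6 : List Rx := [
  Rx.mk (nat_lit 460) (nat_lit 4) (nat_lit 1) (nat_lit 7) (nat_lit 6) (nat_lit 71) (nat_lit 249) r0_71 r3_249 (nat_lit 279) (nat_lit 0) (nat_lit 0) (nat_lit 0x2000240b8) (nat_lit 268426835)]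
noncomputable def e37_7 : List Rx := [
  Rx.mk (nat_lit 268) (nat_lit 4) (nat_lit 1) (nat_lit 4) (nat_lit 2) (nat_lit 171) (nat_lit 248) r0_171 r0_248 (nat_lit 205064910) (nat_lit 0) (nat_lit 748) (nat_lit 0x200021610) (nat_lit 473493114),
  Rx.mk (nat_lit 332) (nat_lit 4) (nat_lit 1) (nat_lit 5) (nat_lit 6) (nat_lit 172) (nat_lit 249) r0_172 r0_249 (nat_lit 120058012) (nat_lit 0) (nat_lit 0) (nat_lit 0x1f4928120) (nat_lit 400822818)]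
noncomputable def e37_8 : List Rx := [
  Rx.mk (nat_lit 332) (nat_lit 4) (nat_lit 1) (nat_lit 5) (nat_lit 6) (nat_lit 173) (nat_lit 255) r0_173 r1_255 (nat_lit 65685782) (nat_lit 0) (nat_lit 0) (nat_lit 0x200c6d310) (nat_lit 333632738)]
noncomputable def e37_9 : List Rx := [
  Rx.mk (nat_lit 268) (nat_lit 4) (nat_lit 1) (nat_lit 4) (nat_lit 2) (nat_lit 174) (nat_lit 262) r0_174 r4_262 (nat_lit 92582256) (nat_lit 0) (nat_lit 368462) (nat_lit 0x1ba8b9034) (nat_lit 435190624),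
  Rx.mk (nat_lit 332) (nat_lit 4) (nat_lit 1) (nat_lit 5) (nat_lit 6) (nat_lit 175) (nat_lit 263) r0_175 r4_263 (nat_lit 37264364) (nat_lit 0) (nat_lit 0) (nat_lit 0x1f17bb394) (nat_lit 321311370),
  Rx.mk (nat_lit 460) (nat_lit 4) (nat_lit 1) (nat_lit 7) (nat_lit 6) (nat_lit 176) (nat_lit 264) r0_176 r4_264 (nat_lit 105491124) (nat_lit 0) (nat_lit 0) (nat_lit 0x1b7455748) (nat_lit 451196430)]
noncomputable def e37_10 : List Rx := [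
  Rx.mk (nat_lit 204) (nat_lit 4) (nat_lit 1) (nat_lit 3) (nat_lit 6) (nat_lit 222) (nat_lit 276) r0_222 r6_276 (nat_lit 6622) (nat_lit 0) (nat_lit 0) (nat_lit 0x241d4916c) (nat_lit 201098578),
  Rx.mk (nat_lit 460) (nat_lit 4) (nat_lit 1) (nat_lit 7) (nat_lit 6) (nat_lit 223) (nat_lit 277) r0_223 r6_277 (nat_lit 11115543) (nat_lit 0) (nat_lit 0) (nat_lit 0x1fdae8574) (nat_lit 282223849)]
noncomputable def e37_11 : List Rx := [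
  Rx.mk (nat_lit 460) (nat_lit 4) (nat_lit 1) (nat_lit 7) (nat_lit 6) (nat_lit 224) (nat_lit 255) r0_224 r5_255 (nat_lit 33756998) (nat_lit 0) (nat_lit 0) (nat_lit 0x200009fc4) (nat_lit 302190604)]
noncomputable def e37_12 : List Rx := [
  Rx.mk (nat_lit 5) (nat_lit 5) (nat_lit 0) (nat_lit 0) (nat_lit 1) (nat_lit 248) (nat_lit 171) r0_248 r0_171 (nat_lit 0) (nat_lit 748) (nat_lit 205064910) (nat_lit 0x200021610) (nat_lit 473493114),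
  Rx.mk (nat_lit 13) (nat_lit 5) (nat_lit 1) (nat_lit 0) (nat_lit 3) (nat_lit 249) (nat_lit 172) r0_249 r0_172 (nat_lit 0) (nat_lit 0) (nat_lit 120058012) (nat_lit 0x1f4928120) (nat_lit 400822818)]
noncomputable def e37_13 : List Rx := [
  Rx.mk (nat_lit 5) (nat_lit 5) (nat_lit 0) (nat_lit 0) (nat_lit 1) (nat_lit 250) (nat_lit 315) r0_250 r7_315 (nat_lit 0) (nat_lit 6883560) (nat_lit 12632886) (nat_lit 0x199f2c586) (nat_lit 396447552),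
  Rx.mk (nat_lit 13) (nat_lit 5) (nat_lit 1) (nat_lit 0) (nat_lit 3) (nat_lit 251) (nat_lit 317) r0_251 r7_317 (nat_lit 0) (nat_lit 0) (nat_lit 10930595) (nat_lit 0x1f89b7ce0) (nat_lit 287476701),
  Rx.mk (nat_lit 69) (nat_lit 5) (nat_lit 0) (nat_lit 1) (nat_lit 5) (nat_lit 252) (nat_lit 316) r0_252 r7_316 (nat_lit 0) (nat_lit 10632780) (nat_lit 0) (nat_lit 0x1d6c3a8b8) (nat_lit 323047586),
  Rx.mk (nat_lit 77) (nat_lit 5) (nat_lit 1) (nat_lit 1) (nat_lit 7) (nat_lit 253) (nat_lit 318) r0_253 r7_318 (nat_lit 0) (nat_lit 0) (nat_lit 0) (nat_lit 0x201f393fe) (nat_lit 266751706)]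
noncomputable def e37_14 : List Rx := [
  Rx.mk (nat_lit 1) (nat_lit 1) (nat_lit 0) (nat_lit 0) (nat_lit 1) (nat_lit 265) (nat_lit 180) r0_265 r1_180 (nat_lit 0) (nat_lit 2915443) (nat_lit 27431001) (nat_lit 0x1aee862ac) (nat_lit 385035350),
  Rx.mk (nat_lit 5) (nat_lit 5) (nat_lit 0) (nat_lit 0) (nat_lit 1) (nat_lit 269) (nat_lit 179) r0_269 r1_179 (nat_lit 0) (nat_lit 6663) (nat_lit 224842397) (nat_lit 0x203c84418) (nat_lit 489417766),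
  Rx.mk (nat_lit 9) (nat_lit 1) (nat_lit 1) (nat_lit 0) (nat_lit 3) (nat_lit 266) (nat_lit 182) r0_266 r1_182 (nat_lit 0) (nat_lit 0) (nat_lit 13498567) (nat_lit 0x1febef980) (nat_lit 283586673),
  Rx.mk (nat_lit 13) (nat_lit 5) (nat_lit 1) (nat_lit 0) (nat_lit 3) (nat_lit 270) (nat_lit 181) r0_270 r1_181 (nat_lit 0) (nat_lit 0) (nat_lit 31547541) (nat_lit 0x20169be36) (nat_lit 298828947),
  Rx.mk (nat_lit 17) (nat_lit 1) (nat_lit 2) (nat_lit 0) (nat_lit 3) (nat_lit 267) (nat_lit 183) r0_267 r1_183 (nat_lit 0) (nat_lit 0) (nat_lit 116538040) (nat_lit 0x22883d93e) (nat_lit 343677296),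
  Rx.mk (nat_lit 145) (nat_lit 1) (nat_lit 2) (nat_lit 2) (nat_lit 7) (nat_lit 268) (nat_lit 184) r0_268 r1_184 (nat_lit 0) (nat_lit 0) (nat_lit 0) (nat_lit 0x202a9392a) (nat_lit 265996306)]
noncomputable def e37_15 : List Rx := [
  Rx.mk (nat_lit 1) (nat_lit 1) (nat_lit 0) (nat_lit 0) (nat_lit 1) (nat_lit 271) (nat_lit 230) r0_271 r8_230 (nat_lit 0) (nat_lit 24990952) (nat_lit 15685587) (nat_lit 0x16ee57b22) (nat_lit 463363445),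
  Rx.mk (nat_lit 5) (nat_lit 5) (nat_lit 0) (nat_lit 0) (nat_lit 1) (nat_lit 278) (nat_lit 237) r0_278 r8_237 (nat_lit 0) (nat_lit 4307608) (nat_lit 11550315) (nat_lit 0x182dd78dc) (nat_lit 417310079),
  Rx.mk (nat_lit 9) (nat_lit 1) (nat_lit 1) (nat_lit 0) (nat_lit 3) (nat_lit 272) (nat_lit 232) r0_272 r8_232 (nat_lit 0) (nat_lit 0) (nat_lit 13709057) (nat_lit 0x1e6527020) (nat_lit 309616313),
  Rx.mk (nat_lit 13) (nat_lit 5) (nat_lit 1) (nat_lit 0) (nat_lit 3) (nat_lit 279) (nat_lit 239) r0_279 r8_239 (nat_lit 0) (nat_lit 0) (nat_lit 9484367) (nat_lit 0x1fc24261e) (nat_lit 282306373),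
  Rx.mk (nat_lit 17) (nat_lit 1) (nat_lit 2) (nat_lit 0) (nat_lit 3) (nat_lit 273) (nat_lit 234) r0_273 r8_234 (nat_lit 0) (nat_lit 0) (nat_lit 9484367) (nat_lit 0x1ffb35d36) (nat_lit 278585473),
  Rx.mk (nat_lit 65) (nat_lit 1) (nat_lit 0) (nat_lit 1) (nat_lit 5) (nat_lit 274) (nat_lit 231) r0_274 r8_231 (nat_lit 0) (nat_lit 14687495) (nat_lit 0) (nat_lit 0x1b66eebd6) (nat_lit 361425101),
  Rx.mk (nat_lit 69) (nat_lit 5) (nat_lit 0) (nat_lit 1) (nat_lit 5) (nat_lit 280) (nat_lit 238) r0_280 r8_238 (nat_lit 0) (nat_lit 9900802) (nat_lit 0) (nat_lit 0x1d302332a) (nat_lit 326302108),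
  Rx.mk (nat_lit 73) (nat_lit 1) (nat_lit 1) (nat_lit 1) (nat_lit 7) (nat_lit 275) (nat_lit 233) r0_275 r8_233 (nat_lit 0) (nat_lit 0) (nat_lit 0) (nat_lit 0x1f8bb4142) (nat_lit 276413756),
  Rx.mk (nat_lit 77) (nat_lit 5) (nat_lit 1) (nat_lit 1) (nat_lit 7) (nat_lit 281) (nat_lit 240) r0_281 r8_240 (nat_lit 0) (nat_lit 0) (nat_lit 0) (nat_lit 0x2022bd70a) (nat_lit 266525506),
  Rx.mk (nat_lit 81) (nat_lit 1) (nat_lit 2) (nat_lit 1) (nat_lit 7) (nat_lit 276) (nat_lit 235) r0_276 r8_235 (nat_lit 0) (nat_lit 0) (nat_lit 0) (nat_lit 0x1ff5fca0e) (nat_lit 269441006),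
  Rx.mk (nat_lit 145) (nat_lit 1) (nat_lit 2) (nat_lit 2) (nat_lit 7) (nat_lit 277) (nat_lit 236) r0_277 r8_236 (nat_lit 0) (nat_lit 0) (nat_lit 0) (nat_lit 0x20056d4f2) (nat_lit 268435456)]
noncomputable def e37_16 : List Rx := [
  Rx.mk (nat_lit 69) (nat_lit 5) (nat_lit 0) (nat_lit 1) (nat_lit 5) (nat_lit 289) (nat_lit 178) r0_289 r8_178 (nat_lit 0) (nat_lit 10787644) (nat_lit 0) (nat_lit 0x1b3ca9fb0) (nat_lit 360329100),
  Rx.mk (nat_lit 77) (nat_lit 5) (nat_lit 1) (nat_lit 1) (nat_lit 7) (nat_lit 290) (nat_lit 179) r0_290 r8_179 (nat_lit 0) (nat_lit 0) (nat_lit 0) (nat_lit 0x1ffe905b2) (nat_lit 268882256)]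
noncomputable def e37_17 : List Rx := [
  Rx.mk (nat_lit 77) (nat_lit 5) (nat_lit 1) (nat_lit 1) (nat_lit 7) (nat_lit 291) (nat_lit 248) r0_291 r9_248 (nat_lit 0) (nat_lit 0) (nat_lit 0) (nat_lit 0x20056d4f2) (nat_lit 268435456),
  Rx.mk (nat_lit 333) (nat_lit 5) (nat_lit 1) (nat_lit 5) (nat_lit 7) (nat_lit 292) (nat_lit 249) r0_292 r9_249 (nat_lit 0) (nat_lit 0) (nat_lit 0) (nat_lit 0x20056d4f2) (nat_lit 268435456)]
noncomputable def e37_18 : List Rx := [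
  Rx.mk (nat_lit 5) (nat_lit 5) (nat_lit 0) (nat_lit 0) (nat_lit 1) (nat_lit 318) (nat_lit 155) r0_318 r4_155 (nat_lit 0) (nat_lit 682361) (nat_lit 45897877) (nat_lit 0x1ac82f784) (nat_lit 403756194),
  Rx.mk (nat_lit 13) (nat_lit 5) (nat_lit 1) (nat_lit 0) (nat_lit 3) (nat_lit 319) (nat_lit 156) r0_319 r4_156 (nat_lit 0) (nat_lit 0) (nat_lit 7646795) (nat_lit 0x1fdee8e30) (nat_lit 278562101),
  Rx.mk (nat_lit 197) (nat_lit 5) (nat_lit 0) (nat_lit 3) (nat_lit 5) (nat_lit 320) (nat_lit 157) r0_320 r4_157 (nat_lit 0) (nat_lit 3950502) (nat_lit 0) (nat_lit 0x1d80f113a) (nat_lit 314972808),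
  Rx.mk (nat_lit 205) (nat_lit 5) (nat_lit 1) (nat_lit 3) (nat_lit 7) (nat_lit 321) (nat_lit 158) r0_321 r4_158 (nat_lit 0) (nat_lit 0) (nat_lit 0) (nat_lit 0x20aa8325c) (nat_lit 257764206)]
noncomputable def e37_19 : List Rx := [
  Rx.mk (nat_lit 5) (nat_lit 5) (nat_lit 0) (nat_lit 0) (nat_lit 1) (nat_lit 322) (nat_lit 273) r0_322 r10_273 (nat_lit 0) (nat_lit 3170624) (nat_lit 6194834) (nat_lit 0x1b029a6a8) (nat_lit 362703714),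
  Rx.mk (nat_lit 13) (nat_lit 5) (nat_lit 1) (nat_lit 0) (nat_lit 3) (nat_lit 323) (nat_lit 276) r0_323 r10_276 (nat_lit 0) (nat_lit 0) (nat_lit 9422464) (nat_lit 0x1fade9d48) (nat_lit 283582920),
  Rx.mk (nat_lit 69) (nat_lit 5) (nat_lit 0) (nat_lit 1) (nat_lit 5) (nat_lit 324) (nat_lit 274) r0_324 r10_274 (nat_lit 0) (nat_lit 11321562) (nat_lit 0) (nat_lit 0x1f9064e3a) (nat_lit 287426518),
  Rx.mk (nat_lit 77) (nat_lit 5) (nat_lit 1) (nat_lit 1) (nat_lit 7) (nat_lit 325) (nat_lit 277) r0_325 r10_277 (nat_lit 0) (nat_lit 0) (nat_lit 0) (nat_lit 0x202f5d6cc) (nat_lit 265708056),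
  Rx.mk (nat_lit 197) (nat_lit 5) (nat_lit 0) (nat_lit 3) (nat_lit 5) (nat_lit 326) (nat_lit 275) r0_326 r10_275 (nat_lit 0) (nat_lit 10331000) (nat_lit 0) (nat_lit 0x1f9843af2) (nat_lit 285917906),
  Rx.mk (nat_lit 205) (nat_lit 5) (nat_lit 1) (nat_lit 3) (nat_lit 7) (nat_lit 327) (nat_lit 278) r0_327 r10_278 (nat_lit 0) (nat_lit 0) (nat_lit 0) (nat_lit 0x20056d4f2) (nat_lit 268435456)]
noncomputable def e37_20 : List Rx := [
  Rx.mk (nat_lit 197) (nat_lit 5) (nat_lit 0) (nat_lit 3) (nat_lit 5) (nat_lit 328) (nat_lit 298) r0_328 r11_298 (nat_lit 0) (nat_lit 7056473) (nat_lit 0) (nat_lit 0x20022dd1e) (nat_lit 275697279),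
  Rx.mk (nat_lit 205) (nat_lit 5) (nat_lit 1) (nat_lit 3) (nat_lit 7) (nat_lit 329) (nat_lit 299) r0_329 r11_299 (nat_lit 0) (nat_lit 0) (nat_lit 0) (nat_lit 0x201fffcf2) (nat_lit 266705806)]
noncomputable def e37_21 : List Rx := [
  Rx.mk (nat_lit 76) (nat_lit 4) (nat_lit 1) (nat_lit 1) (nat_lit 6) (nat_lit 293) (nat_lit 254) r0_293 r9_254 (nat_lit 10725362) (nat_lit 0) (nat_lit 0) (nat_lit 0x1be5b800c) (nat_lit 349044468),
  Rx.mk (nat_lit 77) (nat_lit 5) (nat_lit 1) (nat_lit 1) (nat_lit 7) (nat_lit 296) (nat_lit 256) r0_296 r9_256 (nat_lit 0) (nat_lit 0) (nat_lit 0) (nat_lit 0x20056d4f2) (nat_lit 268435456),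
  Rx.mk (nat_lit 332) (nat_lit 4) (nat_lit 1) (nat_lit 5) (nat_lit 6) (nat_lit 294) (nat_lit 253) r0_294 r9_253 (nat_lit 11334893) (nat_lit 0) (nat_lit 0) (nat_lit 0x1e2457aea) (nat_lit 311539649),
  Rx.mk (nat_lit 333) (nat_lit 5) (nat_lit 1) (nat_lit 5) (nat_lit 7) (nat_lit 297) (nat_lit 255) r0_297 r9_255 (nat_lit 0) (nat_lit 0) (nat_lit 0) (nat_lit 0x20056d4f2) (nat_lit 268435456),
  Rx.mk (nat_lit 364) (nat_lit 4) (nat_lit 5) (nat_lit 5) (nat_lit 6) (nat_lit 295) (nat_lit 250) r0_295 r9_250 (nat_lit 10061420) (nat_lit 0) (nat_lit 0) (nat_lit 0x1f3c8879e) (nat_lit 291701226),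
  Rx.mk (nat_lit 365) (nat_lit 5) (nat_lit 5) (nat_lit 5) (nat_lit 7) (nat_lit 298) (nat_lit 251) r0_298 r9_251 (nat_lit 0) (nat_lit 0) (nat_lit 0) (nat_lit 0x20056d4f2) (nat_lit 268435456),
  Rx.mk (nat_lit 366) (nat_lit 6) (nat_lit 5) (nat_lit 5) (nat_lit 7) (nat_lit 299) (nat_lit 252) r0_299 r9_252 (nat_lit 0) (nat_lit 0) (nat_lit 0) (nat_lit 0x20056d4f2) (nat_lit 268435456)]
noncomputable def e37_22 : List Rx := [
  Rx.mk (nat_lit 302) (nat_lit 6) (nat_lit 5) (nat_lit 4) (nat_lit 3) (nat_lit 73) (nat_lit 72) r0_73 r0_72 (nat_lit 0) (nat_lit 0) (nat_lit 3189282) (nat_lit 0x1e646defe) (nat_lit 299105288),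
  Rx.mk (nat_lit 492) (nat_lit 4) (nat_lit 5) (nat_lit 7) (nat_lit 6) (nat_lit 72) (nat_lit 73) r0_72 r0_73 (nat_lit 3189282) (nat_lit 0) (nat_lit 0) (nat_lit 0x1e646defe) (nat_lit 299105288),
  Rx.mk (nat_lit 494) (nat_lit 6) (nat_lit 5) (nat_lit 7) (nat_lit 7) (nat_lit 74) (nat_lit 74) r0_74 r0_74 (nat_lit 0) (nat_lit 0) (nat_lit 0) (nat_lit 0x2029ade84) (nat_lit 266052256)]
noncomputable def e37_23 : List Rx := [
  Rx.mk (nat_lit 302) (nat_lit 6) (nat_lit 5) (nat_lit 4) (nat_lit 3) (nat_lit 76) (nat_lit 69) r0_76 r1_69 (nat_lit 0) (nat_lit 0) (nat_lit 7606073) (nat_lit 0x1f4683d84) (nat_lit 288573429),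
  Rx.mk (nat_lit 430) (nat_lit 6) (nat_lit 5) (nat_lit 6) (nat_lit 7) (nat_lit 77) (nat_lit 72) r0_77 r1_72 (nat_lit 0) (nat_lit 0) (nat_lit 0) (nat_lit 0x202d73a00) (nat_lit 265825656),
  Rx.mk (nat_lit 492) (nat_lit 4) (nat_lit 5) (nat_lit 7) (nat_lit 6) (nat_lit 75) (nat_lit 70) r0_75 r1_70 (nat_lit 3064142) (nat_lit 0) (nat_lit 0) (nat_lit 0x203e7efde) (nat_lit 267754448),
  Rx.mk (nat_lit 494) (nat_lit 6) (nat_lit 5) (nat_lit 7) (nat_lit 7) (nat_lit 78) (nat_lit 71) r0_78 r1_71 (nat_lit 0) (nat_lit 0) (nat_lit 0) (nat_lit 0x22d0de396) (nat_lit 222515206)]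
noncomputable def e37_24 : List Rx := [
  Rx.mk (nat_lit 460) (nat_lit 4) (nat_lit 1) (nat_lit 7) (nat_lit 6) (nat_lit 79) (nat_lit 68) r0_79 r4_68 (nat_lit 1637705) (nat_lit 0) (nat_lit 0) (nat_lit 0x17ef1a0fe) (nat_lit 407217261),
  Rx.mk (nat_lit 492) (nat_lit 4) (nat_lit 5) (nat_lit 7) (nat_lit 6) (nat_lit 80) (nat_lit 69) r0_80 r4_69 (nat_lit 3349434) (nat_lit 0) (nat_lit 0) (nat_lit 0x1f4641506) (nat_lit 284310440),
  Rx.mk (nat_lit 494) (nat_lit 6) (nat_lit 5) (nat_lit 7) (nat_lit 7) (nat_lit 81) (nat_lit 70) r0_81 r4_70 (nat_lit 0) (nat_lit 0) (nat_lit 0) (nat_lit 0x1ea79a466) (nat_lit 291417306)]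
noncomputable def e37_25 : List Rx := [
  Rx.mk (nat_lit 268) (nat_lit 4) (nat_lit 1) (nat_lit 4) (nat_lit 2) (nat_lit 177) (nat_lit 325) r0_177 r7_325 (nat_lit 3352025) (nat_lit 0) (nat_lit 236105) (nat_lit 0x15ef65efc) (nat_lit 443065536),
  Rx.mk (nat_lit 300) (nat_lit 4) (nat_lit 5) (nat_lit 4) (nat_lit 2) (nat_lit 178) (nat_lit 319) r0_178 r7_319 (nat_lit 716691) (nat_lit 0) (nat_lit 254935) (nat_lit 0x19bbb53e2) (nat_lit 375922732),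
  Rx.mk (nat_lit 302) (nat_lit 6) (nat_lit 5) (nat_lit 4) (nat_lit 3) (nat_lit 182) (nat_lit 322) r0_182 r7_322 (nat_lit 0) (nat_lit 0) (nat_lit 2189607) (nat_lit 0x1fe25deee) (nat_lit 272854513),
  Rx.mk (nat_lit 332) (nat_lit 4) (nat_lit 1) (nat_lit 5) (nat_lit 6) (nat_lit 179) (nat_lit 326) r0_179 r7_326 (nat_lit 2435671) (nat_lit 0) (nat_lit 0) (nat_lit 0x1813fca48) (nat_lit 405583127),
  Rx.mk (nat_lit 364) (nat_lit 4) (nat_lit 5) (nat_lit 5) (nat_lit 6) (nat_lit 180) (nat_lit 320) r0_180 r7_320 (nat_lit 8466862) (nat_lit 0) (nat_lit 0) (nat_lit 0x1df10845a) (nat_lit 312056868),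
  Rx.mk (nat_lit 366) (nat_lit 6) (nat_lit 5) (nat_lit 5) (nat_lit 7) (nat_lit 183) (nat_lit 323) r0_183 r7_323 (nat_lit 0) (nat_lit 0) (nat_lit 0) (nat_lit 0x2069e1e9c) (nat_lit 261918006),
  Rx.mk (nat_lit 492) (nat_lit 4) (nat_lit 5) (nat_lit 7) (nat_lit 6) (nat_lit 181) (nat_lit 321) r0_181 r7_321 (nat_lit 57895491) (nat_lit 0) (nat_lit 0) (nat_lit 0x20dbef6b0) (nat_lit 312330647),
  Rx.mk (nat_lit 494) (nat_lit 6) (nat_lit 5) (nat_lit 7) (nat_lit 7) (nat_lit 184) (nat_lit 324) r0_184 r7_324 (nat_lit 0) (nat_lit 0) (nat_lit 0) (nat_lit 0x2120dae14) (nat_lit 250172056)]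
noncomputable def e37_26 : List Rx := [
  Rx.mk (nat_lit 300) (nat_lit 4) (nat_lit 5) (nat_lit 4) (nat_lit 2) (nat_lit 188) (nat_lit 241) r0_188 r8_241 (nat_lit 7060541) (nat_lit 0) (nat_lit 3895157) (nat_lit 0x16494bc14) (nat_lit 444572854),
  Rx.mk (nat_lit 302) (nat_lit 6) (nat_lit 5) (nat_lit 4) (nat_lit 3) (nat_lit 191) (nat_lit 244) r0_191 r8_244 (nat_lit 0) (nat_lit 0) (nat_lit 5196417) (nat_lit 0x1fa15acb2) (nat_lit 280172673),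
  Rx.mk (nat_lit 364) (nat_lit 4) (nat_lit 5) (nat_lit 5) (nat_lit 6) (nat_lit 189) (nat_lit 242) r0_189 r8_242 (nat_lit 7988855) (nat_lit 0) (nat_lit 0) (nat_lit 0x1dd308112) (nat_lit 313579111),
  Rx.mk (nat_lit 366) (nat_lit 6) (nat_lit 5) (nat_lit 5) (nat_lit 7) (nat_lit 192) (nat_lit 245) r0_192 r8_245 (nat_lit 0) (nat_lit 0) (nat_lit 0) (nat_lit 0x201316b9e) (nat_lit 267545656),
  Rx.mk (nat_lit 430) (nat_lit 6) (nat_lit 5) (nat_lit 6) (nat_lit 7) (nat_lit 193) (nat_lit 247) r0_193 r8_247 (nat_lit 0) (nat_lit 0) (nat_lit 0) (nat_lit 0x20056d4f2) (nat_lit 268435456),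
  Rx.mk (nat_lit 492) (nat_lit 4) (nat_lit 5) (nat_lit 7) (nat_lit 6) (nat_lit 190) (nat_lit 243) r0_190 r8_243 (nat_lit 56857679) (nat_lit 0) (nat_lit 0) (nat_lit 0x1feec1780) (nat_lit 326737435),
  Rx.mk (nat_lit 494) (nat_lit 6) (nat_lit 5) (nat_lit 7) (nat_lit 7) (nat_lit 194) (nat_lit 246) r0_194 r8_246 (nat_lit 0) (nat_lit 0) (nat_lit 0) (nat_lit 0x201316b9e) (nat_lit 267545656)]
noncomputable def e37_27 : List Rx := [
  Rx.mk (nat_lit 332) (nat_lit 4) (nat_lit 1) (nat_lit 5) (nat_lit 6) (nat_lit 185) (nat_lit 63) r0_185 r8_63 (nat_lit 7783153) (nat_lit 0) (nat_lit 0) (nat_lit 0x1c7520078) (nat_lit 336577359),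
  Rx.mk (nat_lit 364) (nat_lit 4) (nat_lit 5) (nat_lit 5) (nat_lit 6) (nat_lit 186) (nat_lit 64) r0_186 r8_64 (nat_lit 7212426) (nat_lit 0) (nat_lit 0) (nat_lit 0x1f5198ca6) (nat_lit 287452482),
  Rx.mk (nat_lit 366) (nat_lit 6) (nat_lit 5) (nat_lit 5) (nat_lit 7) (nat_lit 187) (nat_lit 65) r0_187 r8_65 (nat_lit 0) (nat_lit 0) (nat_lit 0) (nat_lit 0x20394b670) (nat_lit 265061156)]
noncomputable def e37_28 : List Rx := [
  Rx.mk (nat_lit 268) (nat_lit 4) (nat_lit 1) (nat_lit 4) (nat_lit 2) (nat_lit 195) (nat_lit 281) r0_195 r10_281 (nat_lit 895600) (nat_lit 0) (nat_lit 241321) (nat_lit 0x16b880cd8) (nat_lit 427279577),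
  Rx.mk (nat_lit 332) (nat_lit 4) (nat_lit 1) (nat_lit 5) (nat_lit 6) (nat_lit 196) (nat_lit 282) r0_196 r10_282 (nat_lit 3476048) (nat_lit 0) (nat_lit 0) (nat_lit 0x1aa52c732) (nat_lit 363037754),
  Rx.mk (nat_lit 460) (nat_lit 4) (nat_lit 1) (nat_lit 7) (nat_lit 6) (nat_lit 197) (nat_lit 283) r0_197 r10_283 (nat_lit 83120058) (nat_lit 0) (nat_lit 0) (nat_lit 0x201ce892e) (nat_lit 349914064),
  Rx.mk (nat_lit 492) (nat_lit 4) (nat_lit 5) (nat_lit 7) (nat_lit 6) (nat_lit 198) (nat_lit 279) r0_198 r10_279 (nat_lit 55056773) (nat_lit 0) (nat_lit 0) (nat_lit 0x212627822) (nat_lit 304746579),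
  Rx.mk (nat_lit 494) (nat_lit 6) (nat_lit 5) (nat_lit 7) (nat_lit 7) (nat_lit 199) (nat_lit 280) r0_199 r10_280 (nat_lit 0) (nat_lit 0) (nat_lit 0) (nat_lit 0x20d426d7a) (nat_lit 255090656)]
noncomputable def e37_29 : List Rx := [
  Rx.mk (nat_lit 460) (nat_lit 4) (nat_lit 1) (nat_lit 7) (nat_lit 6) (nat_lit 225) (nat_lit 302) r0_225 r11_302 (nat_lit 4092761) (nat_lit 0) (nat_lit 0) (nat_lit 0x1e23b5f10) (nat_lit 304294217),
  Rx.mk (nat_lit 492) (nat_lit 4) (nat_lit 5) (nat_lit 7) (nat_lit 6) (nat_lit 226) (nat_lit 300) r0_226 r11_300 (nat_lit 5081711) (nat_lit 0) (nat_lit 0) (nat_lit 0x2067102b8) (nat_lit 267155117),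
  Rx.mk (nat_lit 494) (nat_lit 6) (nat_lit 5) (nat_lit 7) (nat_lit 7) (nat_lit 227) (nat_lit 301) r0_227 r11_301 (nat_lit 0) (nat_lit 0) (nat_lit 0) (nat_lit 0x217fdbd96) (nat_lit 244045156)]
noncomputable def e37_30 : List Rx := [
  Rx.mk (nat_lit 4) (nat_lit 4) (nat_lit 0) (nat_lit 0) (nat_lit 0) (nat_lit 330) (nat_lit 152) r0_330 r5_152 (nat_lit 439) (nat_lit 473) (nat_lit 69835031) (nat_lit 0x200002fd0) (nat_lit 338270949),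
  Rx.mk (nat_lit 5) (nat_lit 5) (nat_lit 0) (nat_lit 0) (nat_lit 1) (nat_lit 335) (nat_lit 153) r0_335 r5_153 (nat_lit 0) (nat_lit 4373304) (nat_lit 34829005) (nat_lit 0x1d3bf12ec) (nat_lit 354784215),
  Rx.mk (nat_lit 7) (nat_lit 7) (nat_lit 0) (nat_lit 0) (nat_lit 1) (nat_lit 340) (nat_lit 154) r0_340 r5_154 (nat_lit 0) (nat_lit 530811) (nat_lit 14285582) (nat_lit 0x1fcf982be) (nat_lit 286596799),
  Rx.mk (nat_lit 12) (nat_lit 4) (nat_lit 1) (nat_lit 0) (nat_lit 2) (nat_lit 331) (nat_lit 155) r0_331 r5_155 (nat_lit 4486587) (nat_lit 0) (nat_lit 3310166) (nat_lit 0x1fc554a14) (nat_lit 280349959),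
  Rx.mk (nat_lit 13) (nat_lit 5) (nat_lit 1) (nat_lit 0) (nat_lit 3) (nat_lit 336) (nat_lit 156) r0_336 r5_156 (nat_lit 0) (nat_lit 0) (nat_lit 10297258) (nat_lit 0x1fb3eae4a) (nat_lit 284055964),
  Rx.mk (nat_lit 15) (nat_lit 7) (nat_lit 1) (nat_lit 0) (nat_lit 3) (nat_lit 341) (nat_lit 157) r0_341 r5_157 (nat_lit 0) (nat_lit 0) (nat_lit 1426242) (nat_lit 0x1f874fb24) (nat_lit 278037498),
  Rx.mk (nat_lit 196) (nat_lit 4) (nat_lit 0) (nat_lit 3) (nat_lit 4) (nat_lit 332) (nat_lit 158) r0_332 r5_158 (nat_lit 3538416) (nat_lit 2817616) (nat_lit 0) (nat_lit 0x1c2323356) (nat_lit 340567738),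
  Rx.mk (nat_lit 197) (nat_lit 5) (nat_lit 0) (nat_lit 3) (nat_lit 5) (nat_lit 337) (nat_lit 159) r0_337 r5_159 (nat_lit 0) (nat_lit 4420229) (nat_lit 0) (nat_lit 0x1f9a9dc12) (nat_lit 279829885),
  Rx.mk (nat_lit 204) (nat_lit 4) (nat_lit 1) (nat_lit 3) (nat_lit 6) (nat_lit 333) (nat_lit 160) r0_333 r5_160 (nat_lit 5672723) (nat_lit 0) (nat_lit 0) (nat_lit 0x202926948) (nat_lit 271746229),
  Rx.mk (nat_lit 205) (nat_lit 5) (nat_lit 1) (nat_lit 3) (nat_lit 7) (nat_lit 338) (nat_lit 161) r0_338 r5_161 (nat_lit 0) (nat_lit 0) (nat_lit 0) (nat_lit 0x201dc6788) (nat_lit 266850056),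
  Rx.mk (nat_lit 220) (nat_lit 4) (nat_lit 3) (nat_lit 3) (nat_lit 6) (nat_lit 334) (nat_lit 162) r0_334 r5_162 (nat_lit 7216955) (nat_lit 0) (nat_lit 0) (nat_lit 0x1d79975a6) (nat_lit 318736661),
  Rx.mk (nat_lit 221) (nat_lit 5) (nat_lit 3) (nat_lit 3) (nat_lit 7) (nat_lit 339) (nat_lit 163) r0_339 r5_163 (nat_lit 0) (nat_lit 0) (nat_lit 0) (nat_lit 0x203fca38e) (nat_lit 264643506)]
noncomputable def e37_31 : List Rx := [
  Rx.mk (nat_lit 4) (nat_lit 4) (nat_lit 0) (nat_lit 0) (nat_lit 0) (nat_lit 342) (nat_lit 165) r0_342 r11_165 (nat_lit 5049713) (nat_lit 8466519) (nat_lit 14627977) (nat_lit 0x1785739c0) (nat_lit 440788215),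
  Rx.mk (nat_lit 5) (nat_lit 5) (nat_lit 0) (nat_lit 0) (nat_lit 1) (nat_lit 349) (nat_lit 166) r0_349 r11_166 (nat_lit 0) (nat_lit 7338378) (nat_lit 30727633) (nat_lit 0x1ea3cd702) (nat_lit 329808917),
  Rx.mk (nat_lit 7) (nat_lit 7) (nat_lit 0) (nat_lit 0) (nat_lit 1) (nat_lit 356) (nat_lit 167) r0_356 r11_167 (nat_lit 0) (nat_lit 11130106) (nat_lit 12626977) (nat_lit 0x1f556d688) (nat_lit 303736289),
  Rx.mk (nat_lit 12) (nat_lit 4) (nat_lit 1) (nat_lit 0) (nat_lit 2) (nat_lit 343) (nat_lit 168) r0_343 r11_168 (nat_lit 47226542) (nat_lit 0) (nat_lit 7618608) (nat_lit 0x1f34ba8aa) (nat_lit 336986356),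
  Rx.mk (nat_lit 13) (nat_lit 5) (nat_lit 1) (nat_lit 0) (nat_lit 3) (nat_lit 350) (nat_lit 169) r0_350 r11_169 (nat_lit 0) (nat_lit 0) (nat_lit 9484367) (nat_lit 0x20056d4f2) (nat_lit 277919823),
  Rx.mk (nat_lit 15) (nat_lit 7) (nat_lit 1) (nat_lit 0) (nat_lit 3) (nat_lit 357) (nat_lit 170) r0_357 r11_170 (nat_lit 0) (nat_lit 0) (nat_lit 5043943) (nat_lit 0x20722e604) (nat_lit 266431999),
  Rx.mk (nat_lit 68) (nat_lit 4) (nat_lit 0) (nat_lit 1) (nat_lit 4) (nat_lit 344) (nat_lit 171) r0_344 r11_171 (nat_lit 26026765) (nat_lit 11117765) (nat_lit 0) (nat_lit 0x1e895a6e0) (nat_lit 330636636),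
  Rx.mk (nat_lit 69) (nat_lit 5) (nat_lit 0) (nat_lit 1) (nat_lit 5) (nat_lit 351) (nat_lit 172) r0_351 r11_172 (nat_lit 0) (nat_lit 9484367) (nat_lit 0) (nat_lit 0x20056d4f2) (nat_lit 277919823),
  Rx.mk (nat_lit 71) (nat_lit 7) (nat_lit 0) (nat_lit 1) (nat_lit 5) (nat_lit 358) (nat_lit 173) r0_358 r11_173 (nat_lit 0) (nat_lit 7551605) (nat_lit 0) (nat_lit 0x2023d3d1a) (nat_lit 274003461),
  Rx.mk (nat_lit 76) (nat_lit 4) (nat_lit 1) (nat_lit 1) (nat_lit 6) (nat_lit 345) (nat_lit 174) r0_345 r11_174 (nat_lit 39878874) (nat_lit 0) (nat_lit 0) (nat_lit 0x1f508030a) (nat_lit 320158280),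
  Rx.mk (nat_lit 77) (nat_lit 5) (nat_lit 1) (nat_lit 1) (nat_lit 7) (nat_lit 352) (nat_lit 175) r0_352 r11_175 (nat_lit 0) (nat_lit 0) (nat_lit 0) (nat_lit 0x2027076bc) (nat_lit 266249356),
  Rx.mk (nat_lit 79) (nat_lit 7) (nat_lit 1) (nat_lit 1) (nat_lit 7) (nat_lit 359) (nat_lit 176) r0_359 r11_176 (nat_lit 0) (nat_lit 0) (nat_lit 0) (nat_lit 0x210e26124) (nat_lit 251360656),
  Rx.mk (nat_lit 196) (nat_lit 4) (nat_lit 0) (nat_lit 3) (nat_lit 4) (nat_lit 346) (nat_lit 177) r0_346 r11_177 (nat_lit 11887713) (nat_lit 12075733) (nat_lit 0) (nat_lit 0x1eb247a26) (nat_lit 314760552),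
  Rx.mk (nat_lit 197) (nat_lit 5) (nat_lit 0) (nat_lit 3) (nat_lit 5) (nat_lit 353) (nat_lit 178) r0_353 r11_178 (nat_lit 0) (nat_lit 6887100) (nat_lit 0) (nat_lit 0x2015d3daa) (nat_lit 274247906),
  Rx.mk (nat_lit 204) (nat_lit 4) (nat_lit 1) (nat_lit 3) (nat_lit 6) (nat_lit 347) (nat_lit 179) r0_347 r11_179 (nat_lit 9484367) (nat_lit 0) (nat_lit 0) (nat_lit 0x2059b896c) (nat_lit 272450673),
  Rx.mk (nat_lit 205) (nat_lit 5) (nat_lit 1) (nat_lit 3) (nat_lit 7) (nat_lit 354) (nat_lit 180) r0_354 r11_180 (nat_lit 0) (nat_lit 0) (nat_lit 0) (nat_lit 0x20056d4f2) (nat_lit 268435456),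
  Rx.mk (nat_lit 220) (nat_lit 4) (nat_lit 3) (nat_lit 3) (nat_lit 6) (nat_lit 348) (nat_lit 181) r0_348 r11_181 (nat_lit 9484367) (nat_lit 0) (nat_lit 0) (nat_lit 0x1f84a366e) (nat_lit 286360823),
  Rx.mk (nat_lit 221) (nat_lit 5) (nat_lit 3) (nat_lit 3) (nat_lit 7) (nat_lit 355) (nat_lit 182) r0_355 r11_182 (nat_lit 0) (nat_lit 0) (nat_lit 0) (nat_lit 0x202a4c502) (nat_lit 266036856)]
noncomputable def e37_32 : List Rx := [
  Rx.mk (nat_lit 199) (nat_lit 7) (nat_lit 0) (nat_lit 3) (nat_lit 5) (nat_lit 85) (nat_lit 5) r0_85 r6_5 (nat_lit 0) (nat_lit 1207477) (nat_lit 0) (nat_lit 0x21257ed80) (nat_lit 251038333),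
  Rx.mk (nat_lit 207) (nat_lit 7) (nat_lit 1) (nat_lit 3) (nat_lit 7) (nat_lit 86) (nat_lit 6) r0_86 r6_6 (nat_lit 0) (nat_lit 0) (nat_lit 0) (nat_lit 0x242f3f128) (nat_lit 200086356),
  Rx.mk (nat_lit 452) (nat_lit 4) (nat_lit 0) (nat_lit 7) (nat_lit 4) (nat_lit 82) (nat_lit 0) r0_82 r6_0 (nat_lit 281735) (nat_lit 196429) (nat_lit 0) (nat_lit 0x185106fa6) (nat_lit 399502620),
  Rx.mk (nat_lit 455) (nat_lit 7) (nat_lit 0) (nat_lit 7) (nat_lit 5) (nat_lit 87) (nat_lit 3) r0_87 r6_3 (nat_lit 0) (nat_lit 3576524) (nat_lit 0) (nat_lit 0x1f64ded74) (nat_lit 282524430),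
  Rx.mk (nat_lit 460) (nat_lit 4) (nat_lit 1) (nat_lit 7) (nat_lit 6) (nat_lit 83) (nat_lit 1) r0_83 r6_1 (nat_lit 5413605) (nat_lit 0) (nat_lit 0) (nat_lit 0x1f06f7d78) (nat_lit 290569961),
  Rx.mk (nat_lit 463) (nat_lit 7) (nat_lit 1) (nat_lit 7) (nat_lit 7) (nat_lit 88) (nat_lit 4) r0_88 r6_4 (nat_lit 0) (nat_lit 0) (nat_lit 0) (nat_lit 0x22fcdb1ec) (nat_lit 219708606),
  Rx.mk (nat_lit 476) (nat_lit 4) (nat_lit 3) (nat_lit 7) (nat_lit 6) (nat_lit 84) (nat_lit 2) r0_84 r6_2 (nat_lit 2973175) (nat_lit 0) (nat_lit 0) (nat_lit 0x1e042fbe6) (nat_lit 305284081)]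
noncomputable def e37_33 : List Rx := [
  Rx.mk (nat_lit 460) (nat_lit 4) (nat_lit 1) (nat_lit 7) (nat_lit 6) (nat_lit 89) (nat_lit 61) r0_89 r5_61 (nat_lit 4504495) (nat_lit 0) (nat_lit 0) (nat_lit 0x1f3e5221e) (nat_lit 285962751),
  Rx.mk (nat_lit 463) (nat_lit 7) (nat_lit 1) (nat_lit 7) (nat_lit 7) (nat_lit 90) (nat_lit 62) r0_90 r5_62 (nat_lit 0) (nat_lit 0) (nat_lit 0) (nat_lit 0x21429c962) (nat_lit 247994206)]
noncomputable def e37_34 : List Rx := [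
  Rx.mk (nat_lit 268) (nat_lit 4) (nat_lit 1) (nat_lit 4) (nat_lit 2) (nat_lit 200) (nat_lit 37) r0_200 r11_37 (nat_lit 54732365) (nat_lit 0) (nat_lit 6365539) (nat_lit 0x1c36966d6) (nat_lit 394034560),
  Rx.mk (nat_lit 332) (nat_lit 4) (nat_lit 1) (nat_lit 5) (nat_lit 6) (nat_lit 201) (nat_lit 38) r0_201 r11_38 (nat_lit 10035955) (nat_lit 0) (nat_lit 0) (nat_lit 0x20209cdc2) (nat_lit 276689911),
  Rx.mk (nat_lit 460) (nat_lit 4) (nat_lit 1) (nat_lit 7) (nat_lit 6) (nat_lit 202) (nat_lit 39) r0_202 r11_39 (nat_lit 57779837) (nat_lit 0) (nat_lit 0) (nat_lit 0x2087d0944) (nat_lit 317723493),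
  Rx.mk (nat_lit 463) (nat_lit 7) (nat_lit 1) (nat_lit 7) (nat_lit 7) (nat_lit 203) (nat_lit 40) r0_203 r11_40 (nat_lit 0) (nat_lit 0) (nat_lit 0) (nat_lit 0x2192e072a) (nat_lit 242862556)]
noncomputable def e37_35 : List Rx := [
  Rx.mk (nat_lit 7) (nat_lit 7) (nat_lit 0) (nat_lit 0) (nat_lit 1) (nat_lit 232) (nat_lit 98) r0_232 r6_98 (nat_lit 0) (nat_lit 38610) (nat_lit 60415) (nat_lit 0x1ce8ca2c6) (nat_lit 321056381),
  Rx.mk (nat_lit 15) (nat_lit 7) (nat_lit 1) (nat_lit 0) (nat_lit 3) (nat_lit 233) (nat_lit 101) r0_233 r6_101 (nat_lit 0) (nat_lit 0) (nat_lit 131306) (nat_lit 0x22f04eb90) (nat_lit 220495462),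
  Rx.mk (nat_lit 196) (nat_lit 4) (nat_lit 0) (nat_lit 3) (nat_lit 4) (nat_lit 228) (nat_lit 99) r0_228 r6_99 (nat_lit 15494) (nat_lit 16044) (nat_lit 0) (nat_lit 0x1b76dfdd8) (nat_lit 345529294),
  Rx.mk (nat_lit 199) (nat_lit 7) (nat_lit 0) (nat_lit 3) (nat_lit 5) (nat_lit 234) (nat_lit 100) r0_234 r6_100 (nat_lit 0) (nat_lit 2963373) (nat_lit 0) (nat_lit 0x207a0588c) (nat_lit 263834079),
  Rx.mk (nat_lit 204) (nat_lit 4) (nat_lit 1) (nat_lit 3) (nat_lit 6) (nat_lit 229) (nat_lit 102) r0_229 r6_102 (nat_lit 976590) (nat_lit 0) (nat_lit 0) (nat_lit 0x234d34814) (nat_lit 215456696),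
  Rx.mk (nat_lit 207) (nat_lit 7) (nat_lit 1) (nat_lit 3) (nat_lit 7) (nat_lit 235) (nat_lit 103) r0_235 r6_103 (nat_lit 0) (nat_lit 0) (nat_lit 0) (nat_lit 0x2506d06b4) (nat_lit 186321856),
  Rx.mk (nat_lit 220) (nat_lit 4) (nat_lit 3) (nat_lit 3) (nat_lit 6) (nat_lit 230) (nat_lit 104) r0_230 r6_104 (nat_lit 3977399) (nat_lit 0) (nat_lit 0) (nat_lit 0x1d9bca592) (nat_lit 313213855),
  Rx.mk (nat_lit 476) (nat_lit 4) (nat_lit 3) (nat_lit 7) (nat_lit 6) (nat_lit 231) (nat_lit 105) r0_231 r6_105 (nat_lit 2529310) (nat_lit 0) (nat_lit 0) (nat_lit 0x1e4d6bdfa) (nat_lit 299976366)]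
noncomputable def e37_36 : List Rx := [
  Rx.mk (nat_lit 196) (nat_lit 4) (nat_lit 0) (nat_lit 3) (nat_lit 4) (nat_lit 236) (nat_lit 318) r0_236 r12_318 (nat_lit 17287) (nat_lit 13849) (nat_lit 0) (nat_lit 0x1a39bb7e6) (nat_lit 366576142),
  Rx.mk (nat_lit 199) (nat_lit 7) (nat_lit 0) (nat_lit 3) (nat_lit 5) (nat_lit 241) (nat_lit 323) r0_241 r12_323 (nat_lit 0) (nat_lit 1422249) (nat_lit 0) (nat_lit 0x20c524b88) (nat_lit 257436105),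
  Rx.mk (nat_lit 204) (nat_lit 4) (nat_lit 1) (nat_lit 3) (nat_lit 6) (nat_lit 237) (nat_lit 320) r0_237 r12_320 (nat_lit 11007) (nat_lit 0) (nat_lit 0) (nat_lit 0x23e1eb872) (nat_lit 204899413),
  Rx.mk (nat_lit 207) (nat_lit 7) (nat_lit 1) (nat_lit 3) (nat_lit 7) (nat_lit 242) (nat_lit 324) r0_242 r12_324 (nat_lit 0) (nat_lit 0) (nat_lit 0) (nat_lit 0x2607f22a8) (nat_lit 169854606),
  Rx.mk (nat_lit 452) (nat_lit 4) (nat_lit 0) (nat_lit 7) (nat_lit 4) (nat_lit 238) (nat_lit 319) r0_238 r12_319 (nat_lit 96469) (nat_lit 65380) (nat_lit 0) (nat_lit 0x18a8c6ef8) (nat_lit 393333155),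
  Rx.mk (nat_lit 460) (nat_lit 4) (nat_lit 1) (nat_lit 7) (nat_lit 6) (nat_lit 239) (nat_lit 321) r0_239 r12_321 (nat_lit 4326039) (nat_lit 0) (nat_lit 0) (nat_lit 0x1f34cc8b6) (nat_lit 286329845),
  Rx.mk (nat_lit 476) (nat_lit 4) (nat_lit 3) (nat_lit 7) (nat_lit 6) (nat_lit 240) (nat_lit 322) r0_240 r12_322 (nat_lit 826648) (nat_lit 0) (nat_lit 0) (nat_lit 0x1cf75fa98) (nat_lit 320912104)]
noncomputable def e37_37 : List Rx := [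
  Rx.mk (nat_lit 3) (nat_lit 3) (nat_lit 0) (nat_lit 0) (nat_lit 1) (nat_lit 4) (nat_lit 11) r0_4 r0_11 (nat_lit 0) (nat_lit 386) (nat_lit 488) (nat_lit 0x1fffea2a0) (nat_lit 268442230),
  Rx.mk (nat_lit 19) (nat_lit 3) (nat_lit 2) (nat_lit 0) (nat_lit 3) (nat_lit 5) (nat_lit 12) r0_5 r0_12 (nat_lit 0) (nat_lit 0) (nat_lit 652718) (nat_lit 0x1cc51c770) (nat_lit 324049624),
  Rx.mk (nat_lit 144) (nat_lit 0) (nat_lit 2) (nat_lit 2) (nat_lit 6) (nat_lit 0) (nat_lit 10) r0_0 r0_10 (nat_lit 5471) (nat_lit 0) (nat_lit 0) (nat_lit 0x1bae1cfda) (nat_lit 341835427),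
  Rx.mk (nat_lit 146) (nat_lit 2) (nat_lit 2) (nat_lit 2) (nat_lit 7) (nat_lit 1) (nat_lit 19) r0_1 r0_19 (nat_lit 0) (nat_lit 0) (nat_lit 0) (nat_lit 0x1e0c3e6d4) (nat_lit 301686606),
  Rx.mk (nat_lit 147) (nat_lit 3) (nat_lit 2) (nat_lit 2) (nat_lit 7) (nat_lit 6) (nat_lit 16) r0_6 r0_16 (nat_lit 0) (nat_lit 0) (nat_lit 0) (nat_lit 0x1fffd8ce4) (nat_lit 268446456),
  Rx.mk (nat_lit 178) (nat_lit 2) (nat_lit 6) (nat_lit 2) (nat_lit 7) (nat_lit 2) (nat_lit 18) r0_2 r0_18 (nat_lit 0) (nat_lit 0) (nat_lit 0) (nat_lit 0x1f323f396) (nat_lit 282197306),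
  Rx.mk (nat_lit 195) (nat_lit 3) (nat_lit 0) (nat_lit 3) (nat_lit 5) (nat_lit 7) (nat_lit 13) r0_7 r0_13 (nat_lit 0) (nat_lit 719) (nat_lit 0) (nat_lit 0x21a732c8c) (nat_lit 241379425),
  Rx.mk (nat_lit 211) (nat_lit 3) (nat_lit 2) (nat_lit 3) (nat_lit 7) (nat_lit 8) (nat_lit 15) r0_8 r0_15 (nat_lit 0) (nat_lit 0) (nat_lit 0) (nat_lit 0x200b040dc) (nat_lit 268060406),
  Rx.mk (nat_lit 219) (nat_lit 3) (nat_lit 3) (nat_lit 3) (nat_lit 7) (nat_lit 9) (nat_lit 14) r0_9 r0_14 (nat_lit 0) (nat_lit 0) (nat_lit 0) (nat_lit 0x1f2e154d2) (nat_lit 282588656),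
  Rx.mk (nat_lit 223) (nat_lit 7) (nat_lit 3) (nat_lit 3) (nat_lit 7) (nat_lit 17) (nat_lit 3) r0_17 r0_3 (nat_lit 0) (nat_lit 0) (nat_lit 0) (nat_lit 0x1f706ec5c) (nat_lit 278205956),
  Rx.mk (nat_lit 294) (nat_lit 6) (nat_lit 4) (nat_lit 4) (nat_lit 1) (nat_lit 11) (nat_lit 4) r0_11 r0_4 (nat_lit 0) (nat_lit 386) (nat_lit 488) (nat_lit 0x1fffea2a0) (nat_lit 268442230),
  Rx.mk (nat_lit 318) (nat_lit 6) (nat_lit 7) (nat_lit 4) (nat_lit 3) (nat_lit 12) (nat_lit 5) r0_12 r0_5 (nat_lit 0) (nat_lit 0) (nat_lit 652718) (nat_lit 0x1cc51c770) (nat_lit 324049624),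
  Rx.mk (nat_lit 422) (nat_lit 6) (nat_lit 4) (nat_lit 6) (nat_lit 5) (nat_lit 13) (nat_lit 7) r0_13 r0_7 (nat_lit 0) (nat_lit 719) (nat_lit 0) (nat_lit 0x21a732c8c) (nat_lit 241379425),
  Rx.mk (nat_lit 434) (nat_lit 2) (nat_lit 6) (nat_lit 6) (nat_lit 7) (nat_lit 3) (nat_lit 17) r0_3 r0_17 (nat_lit 0) (nat_lit 0) (nat_lit 0) (nat_lit 0x1f706ec5c) (nat_lit 278205956),
  Rx.mk (nat_lit 438) (nat_lit 6) (nat_lit 6) (nat_lit 6) (nat_lit 7) (nat_lit 14) (nat_lit 9) r0_14 r0_9 (nat_lit 0) (nat_lit 0) (nat_lit 0) (nat_lit 0x1f2e154d2) (nat_lit 282588656),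
  Rx.mk (nat_lit 446) (nat_lit 6) (nat_lit 7) (nat_lit 6) (nat_lit 7) (nat_lit 15) (nat_lit 8) r0_15 r0_8 (nat_lit 0) (nat_lit 0) (nat_lit 0) (nat_lit 0x200b040dc) (nat_lit 268060406),
  Rx.mk (nat_lit 479) (nat_lit 7) (nat_lit 3) (nat_lit 7) (nat_lit 7) (nat_lit 18) (nat_lit 2) r0_18 r0_2 (nat_lit 0) (nat_lit 0) (nat_lit 0) (nat_lit 0x1f323f396) (nat_lit 282197306),
  Rx.mk (nat_lit 508) (nat_lit 4) (nat_lit 7) (nat_lit 7) (nat_lit 6) (nat_lit 10) (nat_lit 0) r0_10 r0_0 (nat_lit 5471) (nat_lit 0) (nat_lit 0) (nat_lit 0x1bae1cfda) (nat_lit 341835427),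
  Rx.mk (nat_lit 510) (nat_lit 6) (nat_lit 7) (nat_lit 7) (nat_lit 7) (nat_lit 16) (nat_lit 6) r0_16 r0_6 (nat_lit 0) (nat_lit 0) (nat_lit 0) (nat_lit 0x1fffd8ce4) (nat_lit 268446456),
  Rx.mk (nat_lit 511) (nat_lit 7) (nat_lit 7) (nat_lit 7) (nat_lit 7) (nat_lit 19) (nat_lit 1) r0_19 r0_1 (nat_lit 0) (nat_lit 0) (nat_lit 0) (nat_lit 0x1e0c3e6d4) (nat_lit 301686606)]
noncomputable def e37_38 : List Rx := [
  Rx.mk (nat_lit 3) (nat_lit 3) (nat_lit 0) (nat_lit 0) (nat_lit 1) (nat_lit 94) (nat_lit 91) r0_94 r0_91 (nat_lit 0) (nat_lit 1628884) (nat_lit 60842100) (nat_lit 0x1ac63eefc) (nat_lit 419815890),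
  Rx.mk (nat_lit 16) (nat_lit 0) (nat_lit 2) (nat_lit 0) (nat_lit 2) (nat_lit 91) (nat_lit 94) r0_91 r0_94 (nat_lit 1628884) (nat_lit 0) (nat_lit 60842100) (nat_lit 0x1ac63eefc) (nat_lit 419815890),
  Rx.mk (nat_lit 19) (nat_lit 3) (nat_lit 2) (nat_lit 0) (nat_lit 3) (nat_lit 95) (nat_lit 95) r0_95 r0_95 (nat_lit 0) (nat_lit 0) (nat_lit 45985386) (nat_lit 0x204996d54) (nat_lit 309979092),
  Rx.mk (nat_lit 144) (nat_lit 0) (nat_lit 2) (nat_lit 2) (nat_lit 6) (nat_lit 92) (nat_lit 97) r0_92 r0_97 (nat_lit 9463670) (nat_lit 0) (nat_lit 0) (nat_lit 0x1b81c5de2) (nat_lit 354415976),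
  Rx.mk (nat_lit 146) (nat_lit 2) (nat_lit 2) (nat_lit 2) (nat_lit 7) (nat_lit 93) (nat_lit 99) r0_93 r0_99 (nat_lit 0) (nat_lit 0) (nat_lit 0) (nat_lit 0x1fdac48ea) (nat_lit 271218956),
  Rx.mk (nat_lit 147) (nat_lit 3) (nat_lit 2) (nat_lit 2) (nat_lit 7) (nat_lit 96) (nat_lit 98) r0_96 r0_98 (nat_lit 0) (nat_lit 0) (nat_lit 0) (nat_lit 0x20167bdc0) (nat_lit 267324756),
  Rx.mk (nat_lit 195) (nat_lit 3) (nat_lit 0) (nat_lit 3) (nat_lit 5) (nat_lit 97) (nat_lit 92) r0_97 r0_92 (nat_lit 0) (nat_lit 9463670) (nat_lit 0) (nat_lit 0x1b81c5de2) (nat_lit 354415976),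
  Rx.mk (nat_lit 211) (nat_lit 3) (nat_lit 2) (nat_lit 3) (nat_lit 7) (nat_lit 98) (nat_lit 96) r0_98 r0_96 (nat_lit 0) (nat_lit 0) (nat_lit 0) (nat_lit 0x20167bdc0) (nat_lit 267324756),
  Rx.mk (nat_lit 219) (nat_lit 3) (nat_lit 3) (nat_lit 3) (nat_lit 7) (nat_lit 99) (nat_lit 93) r0_99 r0_93 (nat_lit 0) (nat_lit 0) (nat_lit 0) (nat_lit 0x1fdac48ea) (nat_lit 271218956)]
noncomputable def e37_39 : List Rx := [
  Rx.mk (nat_lit 3) (nat_lit 3) (nat_lit 0) (nat_lit 0) (nat_lit 1) (nat_lit 105) (nat_lit 2) r0_105 r7_2 (nat_lit 0) (nat_lit 121405) (nat_lit 991673) (nat_lit 0x190ff0958) (nat_lit 387448234),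
  Rx.mk (nat_lit 16) (nat_lit 0) (nat_lit 2) (nat_lit 0) (nat_lit 2) (nat_lit 100) (nat_lit 0) r0_100 r7_0 (nat_lit 4635726) (nat_lit 0) (nat_lit 10175790) (nat_lit 0x1840136ea) (nat_lit 415072972),
  Rx.mk (nat_lit 19) (nat_lit 3) (nat_lit 2) (nat_lit 0) (nat_lit 3) (nat_lit 106) (nat_lit 3) r0_106 r7_3 (nat_lit 0) (nat_lit 0) (nat_lit 27844967) (nat_lit 0x1fd250a9c) (nat_lit 299584973),
  Rx.mk (nat_lit 144) (nat_lit 0) (nat_lit 2) (nat_lit 2) (nat_lit 6) (nat_lit 101) (nat_lit 1) r0_101 r7_1 (nat_lit 4240931) (nat_lit 0) (nat_lit 0) (nat_lit 0x1bf1985a2) (nat_lit 341762337),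
  Rx.mk (nat_lit 146) (nat_lit 2) (nat_lit 2) (nat_lit 2) (nat_lit 7) (nat_lit 102) (nat_lit 10) r0_102 r7_10 (nat_lit 0) (nat_lit 0) (nat_lit 0) (nat_lit 0x1efe441c2) (nat_lit 285762006),
  Rx.mk (nat_lit 147) (nat_lit 3) (nat_lit 2) (nat_lit 2) (nat_lit 7) (nat_lit 107) (nat_lit 7) r0_107 r7_7 (nat_lit 0) (nat_lit 0) (nat_lit 0) (nat_lit 0x1fe528a70) (nat_lit 270533656),
  Rx.mk (nat_lit 178) (nat_lit 2) (nat_lit 6) (nat_lit 2) (nat_lit 7) (nat_lit 103) (nat_lit 9) r0_103 r7_9 (nat_lit 0) (nat_lit 0) (nat_lit 0) (nat_lit 0x20056d4f2) (nat_lit 268435456),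
  Rx.mk (nat_lit 195) (nat_lit 3) (nat_lit 0) (nat_lit 3) (nat_lit 5) (nat_lit 108) (nat_lit 4) r0_108 r7_4 (nat_lit 0) (nat_lit 4501915) (nat_lit 0) (nat_lit 0x1cfdf132a) (nat_lit 324222321),
  Rx.mk (nat_lit 211) (nat_lit 3) (nat_lit 2) (nat_lit 3) (nat_lit 7) (nat_lit 109) (nat_lit 6) r0_109 r7_6 (nat_lit 0) (nat_lit 0) (nat_lit 0) (nat_lit 0x20249e1b4) (nat_lit 266405506),
  Rx.mk (nat_lit 219) (nat_lit 3) (nat_lit 3) (nat_lit 3) (nat_lit 7) (nat_lit 110) (nat_lit 5) r0_110 r7_5 (nat_lit 0) (nat_lit 0) (nat_lit 0) (nat_lit 0x1fe8175a6) (nat_lit 270347556),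
  Rx.mk (nat_lit 434) (nat_lit 2) (nat_lit 6) (nat_lit 6) (nat_lit 7) (nat_lit 104) (nat_lit 8) r0_104 r7_8 (nat_lit 0) (nat_lit 0) (nat_lit 0) (nat_lit 0x20055e1a0) (nat_lit 268437306)]
noncomputable def e37_40 : List Rx := [
  Rx.mk (nat_lit 1) (nat_lit 1) (nat_lit 0) (nat_lit 0) (nat_lit 1) (nat_lit 254) (nat_lit 98) r0_254 r2_98 (nat_lit 0) (nat_lit 7936988) (nat_lit 23860633) (nat_lit 0x160a0e9fc) (nat_lit 469629927),
  Rx.mk (nat_lit 17) (nat_lit 1) (nat_lit 2) (nat_lit 0) (nat_lit 3) (nat_lit 255) (nat_lit 99) r0_255 r2_99 (nat_lit 0) (nat_lit 0) (nat_lit 24694302) (nat_lit 0x1f1cd48f8) (nat_lit 308430658),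
  Rx.mk (nat_lit 145) (nat_lit 1) (nat_lit 2) (nat_lit 2) (nat_lit 7) (nat_lit 256) (nat_lit 100) r0_256 r2_100 (nat_lit 0) (nat_lit 0) (nat_lit 0) (nat_lit 0x20056d4f2) (nat_lit 268435456)]
noncomputable def e37_41 : List Rx := [
  Rx.mk (nat_lit 1) (nat_lit 1) (nat_lit 0) (nat_lit 0) (nat_lit 1) (nat_lit 262) (nat_lit 65) r0_262 r9_65 (nat_lit 0) (nat_lit 14858526) (nat_lit 37964627) (nat_lit 0x17568cdc8) (nat_lit 468596959),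
  Rx.mk (nat_lit 17) (nat_lit 1) (nat_lit 2) (nat_lit 0) (nat_lit 3) (nat_lit 263) (nat_lit 66) r0_263 r9_66 (nat_lit 0) (nat_lit 0) (nat_lit 23941176) (nat_lit 0x1ecb07dd6) (nat_lit 313084132),
  Rx.mk (nat_lit 145) (nat_lit 1) (nat_lit 2) (nat_lit 2) (nat_lit 7) (nat_lit 264) (nat_lit 67) r0_264 r9_67 (nat_lit 0) (nat_lit 0) (nat_lit 0) (nat_lit 0x1ff25243a) (nat_lit 269680706)]
noncomputable def e37_42 : List Rx := [
  Rx.mk (nat_lit 1) (nat_lit 1) (nat_lit 0) (nat_lit 0) (nat_lit 1) (nat_lit 257) (nat_lit 155) r0_257 r9_155 (nat_lit 0) (nat_lit 20380427) (nat_lit 18008547) (nat_lit 0x1563465ca) (nat_lit 487295780),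
  Rx.mk (nat_lit 17) (nat_lit 1) (nat_lit 2) (nat_lit 0) (nat_lit 3) (nat_lit 258) (nat_lit 156) r0_258 r9_156 (nat_lit 0) (nat_lit 0) (nat_lit 9484367) (nat_lit 0x1fda6c1c2) (nat_lit 280725973),
  Rx.mk (nat_lit 65) (nat_lit 1) (nat_lit 0) (nat_lit 1) (nat_lit 5) (nat_lit 259) (nat_lit 157) r0_259 r9_157 (nat_lit 0) (nat_lit 12763209) (nat_lit 0) (nat_lit 0x1dbc643f2) (nat_lit 319863465),
  Rx.mk (nat_lit 81) (nat_lit 1) (nat_lit 2) (nat_lit 1) (nat_lit 7) (nat_lit 260) (nat_lit 158) r0_260 r9_158 (nat_lit 0) (nat_lit 0) (nat_lit 0) (nat_lit 0x20056d4f2) (nat_lit 268435456),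
  Rx.mk (nat_lit 145) (nat_lit 1) (nat_lit 2) (nat_lit 2) (nat_lit 7) (nat_lit 261) (nat_lit 159) r0_261 r9_159 (nat_lit 0) (nat_lit 0) (nat_lit 0) (nat_lit 0x20056d4f2) (nat_lit 268435456)]
noncomputable def e37_43 : List Rx := [
  Rx.mk (nat_lit 0) (nat_lit 0) (nat_lit 0) (nat_lit 0) (nat_lit 0) (nat_lit 111) (nat_lit 94) r0_111 r1_94 (nat_lit 1132) (nat_lit 1151) (nat_lit 71503781) (nat_lit 0x1ffffcd4c) (nat_lit 339943120),
  Rx.mk (nat_lit 1) (nat_lit 1) (nat_lit 0) (nat_lit 0) (nat_lit 1) (nat_lit 114) (nat_lit 95) r0_114 r1_95 (nat_lit 0) (nat_lit 4173814) (nat_lit 104667208) (nat_lit 0x200e73d6c) (nat_lit 376678078),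
  Rx.mk (nat_lit 3) (nat_lit 3) (nat_lit 0) (nat_lit 0) (nat_lit 1) (nat_lit 118) (nat_lit 96) r0_118 r1_96 (nat_lit 0) (nat_lit 10218001) (nat_lit 56350289) (nat_lit 0x1f745a79e) (nat_lit 344506196),
  Rx.mk (nat_lit 16) (nat_lit 0) (nat_lit 2) (nat_lit 0) (nat_lit 2) (nat_lit 112) (nat_lit 99) r0_112 r1_99 (nat_lit 3336276) (nat_lit 0) (nat_lit 34468149) (nat_lit 0x1d1651a5a) (nat_lit 355883931),
  Rx.mk (nat_lit 17) (nat_lit 1) (nat_lit 2) (nat_lit 0) (nat_lit 3) (nat_lit 115) (nat_lit 100) r0_115 r1_100 (nat_lit 0) (nat_lit 0) (nat_lit 13267100) (nat_lit 0x1fdaa1d54) (nat_lit 284493406),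
  Rx.mk (nat_lit 19) (nat_lit 3) (nat_lit 2) (nat_lit 0) (nat_lit 3) (nat_lit 119) (nat_lit 101) r0_119 r1_101 (nat_lit 0) (nat_lit 0) (nat_lit 11841269) (nat_lit 0x20e29fb5e) (nat_lit 266000725),
  Rx.mk (nat_lit 144) (nat_lit 0) (nat_lit 2) (nat_lit 2) (nat_lit 6) (nat_lit 113) (nat_lit 103) r0_113 r1_103 (nat_lit 7095785) (nat_lit 0) (nat_lit 0) (nat_lit 0x1f099b1ce) (nat_lit 292101241),
  Rx.mk (nat_lit 145) (nat_lit 1) (nat_lit 2) (nat_lit 2) (nat_lit 7) (nat_lit 116) (nat_lit 104) r0_116 r1_104 (nat_lit 0) (nat_lit 0) (nat_lit 0) (nat_lit 0x20056d4f2) (nat_lit 268435456),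
  Rx.mk (nat_lit 146) (nat_lit 2) (nat_lit 2) (nat_lit 2) (nat_lit 7) (nat_lit 117) (nat_lit 106) r0_117 r1_106 (nat_lit 0) (nat_lit 0) (nat_lit 0) (nat_lit 0x20056d4f2) (nat_lit 268435456),
  Rx.mk (nat_lit 147) (nat_lit 3) (nat_lit 2) (nat_lit 2) (nat_lit 7) (nat_lit 120) (nat_lit 105) r0_120 r1_105 (nat_lit 0) (nat_lit 0) (nat_lit 0) (nat_lit 0x20056d4f2) (nat_lit 268435456),
  Rx.mk (nat_lit 195) (nat_lit 3) (nat_lit 0) (nat_lit 3) (nat_lit 5) (nat_lit 121) (nat_lit 97) r0_121 r1_97 (nat_lit 0) (nat_lit 7542287) (nat_lit 0) (nat_lit 0x201cafd36) (nat_lit 274462593),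
  Rx.mk (nat_lit 211) (nat_lit 3) (nat_lit 2) (nat_lit 3) (nat_lit 7) (nat_lit 122) (nat_lit 102) r0_122 r1_102 (nat_lit 0) (nat_lit 0) (nat_lit 0) (nat_lit 0x20056d4f2) (nat_lit 268435456),
  Rx.mk (nat_lit 219) (nat_lit 3) (nat_lit 3) (nat_lit 3) (nat_lit 7) (nat_lit 123) (nat_lit 98) r0_123 r1_98 (nat_lit 0) (nat_lit 0) (nat_lit 0) (nat_lit 0x20056d4f2) (nat_lit 268435456)]
noncomputable def e37_44 : List Rx := [
  Rx.mk (nat_lit 0) (nat_lit 0) (nat_lit 0) (nat_lit 0) (nat_lit 0) (nat_lit 124) (nat_lit 0) r0_124 r8_0 (nat_lit 548020) (nat_lit 641106) (nat_lit 10221547) (nat_lit 0xdf239f5a) (nat_lit 586659229),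
  Rx.mk (nat_lit 1) (nat_lit 1) (nat_lit 0) (nat_lit 0) (nat_lit 1) (nat_lit 127) (nat_lit 3) r0_127 r8_3 (nat_lit 0) (nat_lit 8596723) (nat_lit 22390317) (nat_lit 0x181f48a6e) (nat_lit 433430596),
  Rx.mk (nat_lit 3) (nat_lit 3) (nat_lit 0) (nat_lit 0) (nat_lit 1) (nat_lit 133) (nat_lit 6) r0_133 r8_6 (nat_lit 0) (nat_lit 5082939) (nat_lit 8459973) (nat_lit 0x18412df6c) (nat_lit 413722318),
  Rx.mk (nat_lit 16) (nat_lit 0) (nat_lit 2) (nat_lit 0) (nat_lit 2) (nat_lit 125) (nat_lit 1) r0_125 r8_1 (nat_lit 8977401) (nat_lit 0) (nat_lit 21261060) (nat_lit 0x18db3ee76) (nat_lit 420209017),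
  Rx.mk (nat_lit 17) (nat_lit 1) (nat_lit 2) (nat_lit 0) (nat_lit 3) (nat_lit 128) (nat_lit 4) r0_128 r8_4 (nat_lit 0) (nat_lit 0) (nat_lit 13103625) (nat_lit 0x1fa80595e) (nat_lit 287655681),
  Rx.mk (nat_lit 19) (nat_lit 3) (nat_lit 2) (nat_lit 0) (nat_lit 3) (nat_lit 134) (nat_lit 7) r0_134 r8_7 (nat_lit 0) (nat_lit 0) (nat_lit 17354866) (nat_lit 0x1fa7fc02a) (nat_lit 291906822),
  Rx.mk (nat_lit 144) (nat_lit 0) (nat_lit 2) (nat_lit 2) (nat_lit 6) (nat_lit 126) (nat_lit 2) r0_126 r8_2 (nat_lit 5563368) (nat_lit 0) (nat_lit 0) (nat_lit 0x1d90bf3fa) (nat_lit 315546874),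
  Rx.mk (nat_lit 145) (nat_lit 1) (nat_lit 2) (nat_lit 2) (nat_lit 7) (nat_lit 129) (nat_lit 5) r0_129 r8_5 (nat_lit 0) (nat_lit 0) (nat_lit 0) (nat_lit 0x1fdc55c7c) (nat_lit 271115106),
  Rx.mk (nat_lit 146) (nat_lit 2) (nat_lit 2) (nat_lit 2) (nat_lit 7) (nat_lit 130) (nat_lit 14) r0_130 r8_14 (nat_lit 0) (nat_lit 0) (nat_lit 0) (nat_lit 0x1ff9e4946) (nat_lit 269186206),
  Rx.mk (nat_lit 147) (nat_lit 3) (nat_lit 2) (nat_lit 2) (nat_lit 7) (nat_lit 135) (nat_lit 11) r0_135 r8_11 (nat_lit 0) (nat_lit 0) (nat_lit 0) (nat_lit 0x2003e8e1a) (nat_lit 268530456),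
  Rx.mk (nat_lit 178) (nat_lit 2) (nat_lit 6) (nat_lit 2) (nat_lit 7) (nat_lit 131) (nat_lit 13) r0_131 r8_13 (nat_lit 0) (nat_lit 0) (nat_lit 0) (nat_lit 0x1ff9ddc54) (nat_lit 269187956),
  Rx.mk (nat_lit 195) (nat_lit 3) (nat_lit 0) (nat_lit 3) (nat_lit 5) (nat_lit 136) (nat_lit 8) r0_136 r8_8 (nat_lit 0) (nat_lit 11005782) (nat_lit 0) (nat_lit 0x1c8a0941c) (nat_lit 338427488),
  Rx.mk (nat_lit 211) (nat_lit 3) (nat_lit 2) (nat_lit 3) (nat_lit 7) (nat_lit 137) (nat_lit 10) r0_137 r8_10 (nat_lit 0) (nat_lit 0) (nat_lit 0) (nat_lit 0x20056d4f2) (nat_lit 268435456),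
  Rx.mk (nat_lit 219) (nat_lit 3) (nat_lit 3) (nat_lit 3) (nat_lit 7) (nat_lit 138) (nat_lit 9) r0_138 r8_9 (nat_lit 0) (nat_lit 0) (nat_lit 0) (nat_lit 0x20056d4f2) (nat_lit 268435456),
  Rx.mk (nat_lit 434) (nat_lit 2) (nat_lit 6) (nat_lit 6) (nat_lit 7) (nat_lit 132) (nat_lit 12) r0_132 r8_12 (nat_lit 0) (nat_lit 0) (nat_lit 0) (nat_lit 0x20056d4f2) (nat_lit 268435456)]
noncomputable def e37_45 : List Rx := [
  Rx.mk (nat_lit 178) (nat_lit 2) (nat_lit 6) (nat_lit 2) (nat_lit 7) (nat_lit 20) (nat_lit 9) r0_20 r1_9 (nat_lit 0) (nat_lit 0) (nat_lit 0) (nat_lit 0x2045d486a) (nat_lit 264245706),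
  Rx.mk (nat_lit 294) (nat_lit 6) (nat_lit 4) (nat_lit 4) (nat_lit 1) (nat_lit 23) (nat_lit 2) r0_23 r1_2 (nat_lit 0) (nat_lit 1053210) (nat_lit 1901317) (nat_lit 0x1d06fa732) (nat_lit 322020483),
  Rx.mk (nat_lit 318) (nat_lit 6) (nat_lit 7) (nat_lit 4) (nat_lit 3) (nat_lit 24) (nat_lit 3) r0_24 r1_3 (nat_lit 0) (nat_lit 0) (nat_lit 6798811) (nat_lit 0x1fe079bd2) (nat_lit 277633767),
  Rx.mk (nat_lit 422) (nat_lit 6) (nat_lit 4) (nat_lit 6) (nat_lit 5) (nat_lit 25) (nat_lit 5) r0_25 r1_5 (nat_lit 0) (nat_lit 1484672) (nat_lit 0) (nat_lit 0x20258cca6) (nat_lit 267789778),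
  Rx.mk (nat_lit 434) (nat_lit 2) (nat_lit 6) (nat_lit 6) (nat_lit 7) (nat_lit 21) (nat_lit 8) r0_21 r1_8 (nat_lit 0) (nat_lit 0) (nat_lit 0) (nat_lit 0x203066816) (nat_lit 265637806),
  Rx.mk (nat_lit 438) (nat_lit 6) (nat_lit 6) (nat_lit 6) (nat_lit 7) (nat_lit 26) (nat_lit 7) r0_26 r1_7 (nat_lit 0) (nat_lit 0) (nat_lit 0) (nat_lit 0x204321550) (nat_lit 264427056),
  Rx.mk (nat_lit 446) (nat_lit 6) (nat_lit 7) (nat_lit 6) (nat_lit 7) (nat_lit 27) (nat_lit 6) r0_27 r1_6 (nat_lit 0) (nat_lit 0) (nat_lit 0) (nat_lit 0x204321550) (nat_lit 264427056),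
  Rx.mk (nat_lit 508) (nat_lit 4) (nat_lit 7) (nat_lit 7) (nat_lit 6) (nat_lit 22) (nat_lit 0) r0_22 r1_0 (nat_lit 6061326) (nat_lit 0) (nat_lit 0) (nat_lit 0x1e22fb854) (nat_lit 306330232),
  Rx.mk (nat_lit 510) (nat_lit 6) (nat_lit 7) (nat_lit 7) (nat_lit 7) (nat_lit 28) (nat_lit 4) r0_28 r1_4 (nat_lit 0) (nat_lit 0) (nat_lit 0) (nat_lit 0x232a6f1b2) (nat_lit 216775806),
  Rx.mk (nat_lit 511) (nat_lit 7) (nat_lit 7) (nat_lit 7) (nat_lit 7) (nat_lit 29) (nat_lit 1) r0_29 r1_1 (nat_lit 0) (nat_lit 0) (nat_lit 0) (nat_lit 0x20e22bba0) (nat_lit 254171106)]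
noncomputable def e37_46 : List Rx := [
  Rx.mk (nat_lit 294) (nat_lit 6) (nat_lit 4) (nat_lit 4) (nat_lit 1) (nat_lit 34) (nat_lit 4) r0_34 r2_4 (nat_lit 0) (nat_lit 813893) (nat_lit 1671764) (nat_lit 0x19c19e614) (nat_lit 377108313),
  Rx.mk (nat_lit 302) (nat_lit 6) (nat_lit 5) (nat_lit 4) (nat_lit 3) (nat_lit 35) (nat_lit 5) r0_35 r2_5 (nat_lit 0) (nat_lit 0) (nat_lit 10441397) (nat_lit 0x1fa2a4a28) (nat_lit 285340053),
  Rx.mk (nat_lit 422) (nat_lit 6) (nat_lit 4) (nat_lit 6) (nat_lit 5) (nat_lit 36) (nat_lit 9) r0_36 r2_9 (nat_lit 0) (nat_lit 5691868) (nat_lit 0) (nat_lit 0x1f50a2202) (nat_lit 285995074),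
  Rx.mk (nat_lit 430) (nat_lit 6) (nat_lit 5) (nat_lit 6) (nat_lit 7) (nat_lit 37) (nat_lit 10) r0_37 r2_10 (nat_lit 0) (nat_lit 0) (nat_lit 0) (nat_lit 0x1ffc2f214) (nat_lit 269036706),
  Rx.mk (nat_lit 434) (nat_lit 2) (nat_lit 6) (nat_lit 6) (nat_lit 7) (nat_lit 30) (nat_lit 12) r0_30 r2_12 (nat_lit 0) (nat_lit 0) (nat_lit 0) (nat_lit 0x1ffdc5ed4) (nat_lit 268933606),
  Rx.mk (nat_lit 438) (nat_lit 6) (nat_lit 6) (nat_lit 6) (nat_lit 7) (nat_lit 38) (nat_lit 11) r0_38 r2_11 (nat_lit 0) (nat_lit 0) (nat_lit 0) (nat_lit 0x2013deebe) (nat_lit 267490256),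
  Rx.mk (nat_lit 484) (nat_lit 4) (nat_lit 4) (nat_lit 7) (nat_lit 4) (nat_lit 31) (nat_lit 0) r0_31 r2_0 (nat_lit 349407) (nat_lit 294663) (nat_lit 0) (nat_lit 0x19a17a64e) (nat_lit 377353876),
  Rx.mk (nat_lit 486) (nat_lit 6) (nat_lit 4) (nat_lit 7) (nat_lit 5) (nat_lit 39) (nat_lit 6) r0_39 r2_6 (nat_lit 0) (nat_lit 267483) (nat_lit 0) (nat_lit 0x2090e0ad4) (nat_lit 259516689),
  Rx.mk (nat_lit 492) (nat_lit 4) (nat_lit 5) (nat_lit 7) (nat_lit 6) (nat_lit 32) (nat_lit 1) r0_32 r2_1 (nat_lit 3951197) (nat_lit 0) (nat_lit 0) (nat_lit 0x1fb1bfb20) (nat_lit 277838903),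
  Rx.mk (nat_lit 494) (nat_lit 6) (nat_lit 5) (nat_lit 7) (nat_lit 7) (nat_lit 40) (nat_lit 7) r0_40 r2_7 (nat_lit 0) (nat_lit 0) (nat_lit 0) (nat_lit 0x23e3f71fc) (nat_lit 204928556),
  Rx.mk (nat_lit 508) (nat_lit 4) (nat_lit 7) (nat_lit 7) (nat_lit 6) (nat_lit 33) (nat_lit 2) r0_33 r2_2 (nat_lit 7471693) (nat_lit 0) (nat_lit 0) (nat_lit 0x1fd740098) (nat_lit 278900949),
  Rx.mk (nat_lit 510) (nat_lit 6) (nat_lit 7) (nat_lit 7) (nat_lit 7) (nat_lit 41) (nat_lit 8) r0_41 r2_8 (nat_lit 0) (nat_lit 0) (nat_lit 0) (nat_lit 0x240278928) (nat_lit 202977506),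
  Rx.mk (nat_lit 511) (nat_lit 7) (nat_lit 7) (nat_lit 7) (nat_lit 7) (nat_lit 42) (nat_lit 3) r0_42 r2_3 (nat_lit 0) (nat_lit 0) (nat_lit 0) (nat_lit 0x2086fe548) (nat_lit 260050456)]
noncomputable def e37_47 : List Rx := [
  Rx.mk (nat_lit 178) (nat_lit 2) (nat_lit 6) (nat_lit 2) (nat_lit 7) (nat_lit 139) (nat_lit 76) r0_139 r8_76 (nat_lit 0) (nat_lit 0) (nat_lit 0) (nat_lit 0x1ff97bb76) (nat_lit 269212656),
  Rx.mk (nat_lit 434) (nat_lit 2) (nat_lit 6) (nat_lit 6) (nat_lit 7) (nat_lit 140) (nat_lit 77) r0_140 r8_77 (nat_lit 0) (nat_lit 0) (nat_lit 0) (nat_lit 0x20056d4f2) (nat_lit 268435456)]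
noncomputable def e37_48 : List Rx := [
  Rx.mk (nat_lit 434) (nat_lit 2) (nat_lit 6) (nat_lit 6) (nat_lit 7) (nat_lit 141) (nat_lit 0) r0_141 r9_0 (nat_lit 0) (nat_lit 0) (nat_lit 0) (nat_lit 0x20056d4f2) (nat_lit 268435456)]
noncomputable def e37_49 : List Rx := [
  Rx.mk (nat_lit 292) (nat_lit 4) (nat_lit 4) (nat_lit 4) (nat_lit 0) (nat_lit 155) (nat_lit 23) r0_155 r9_23 (nat_lit 2742121) (nat_lit 1269390) (nat_lit 1767760) (nat_lit 0xae741146) (nat_lit 632770227),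
  Rx.mk (nat_lit 294) (nat_lit 6) (nat_lit 4) (nat_lit 4) (nat_lit 1) (nat_lit 161) (nat_lit 25) r0_161 r9_25 (nat_lit 0) (nat_lit 2545546) (nat_lit 3092091) (nat_lit 0x173fde9d2) (nat_lit 422891393),
  Rx.mk (nat_lit 300) (nat_lit 4) (nat_lit 5) (nat_lit 4) (nat_lit 2) (nat_lit 156) (nat_lit 24) r0_156 r9_24 (nat_lit 7764799) (nat_lit 0) (nat_lit 7054152) (nat_lit 0x15828a382) (nat_lit 461644607),
  Rx.mk (nat_lit 302) (nat_lit 6) (nat_lit 5) (nat_lit 4) (nat_lit 3) (nat_lit 162) (nat_lit 26) r0_162 r9_26 (nat_lit 0) (nat_lit 0) (nat_lit 9033993) (nat_lit 0x1ee42aec6) (nat_lit 296521849),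
  Rx.mk (nat_lit 364) (nat_lit 4) (nat_lit 5) (nat_lit 5) (nat_lit 6) (nat_lit 157) (nat_lit 27) r0_157 r9_27 (nat_lit 11270394) (nat_lit 0) (nat_lit 0) (nat_lit 0x1e52d84be) (nat_lit 308387900),
  Rx.mk (nat_lit 366) (nat_lit 6) (nat_lit 5) (nat_lit 5) (nat_lit 7) (nat_lit 163) (nat_lit 28) r0_163 r9_28 (nat_lit 0) (nat_lit 0) (nat_lit 0) (nat_lit 0x20056d4f2) (nat_lit 268435456),
  Rx.mk (nat_lit 422) (nat_lit 6) (nat_lit 4) (nat_lit 6) (nat_lit 5) (nat_lit 164) (nat_lit 37) r0_164 r9_37 (nat_lit 0) (nat_lit 8810507) (nat_lit 0) (nat_lit 0x1f318ee42) (nat_lit 291178113),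
  Rx.mk (nat_lit 430) (nat_lit 6) (nat_lit 5) (nat_lit 6) (nat_lit 7) (nat_lit 165) (nat_lit 38) r0_165 r9_38 (nat_lit 0) (nat_lit 0) (nat_lit 0) (nat_lit 0x20056d4f2) (nat_lit 268435456),
  Rx.mk (nat_lit 434) (nat_lit 2) (nat_lit 6) (nat_lit 6) (nat_lit 7) (nat_lit 154) (nat_lit 36) r0_154 r9_36 (nat_lit 0) (nat_lit 0) (nat_lit 0) (nat_lit 0x20056d4f2) (nat_lit 268435456),
  Rx.mk (nat_lit 438) (nat_lit 6) (nat_lit 6) (nat_lit 6) (nat_lit 7) (nat_lit 166) (nat_lit 39) r0_166 r9_39 (nat_lit 0) (nat_lit 0) (nat_lit 0) (nat_lit 0x20056d4f2) (nat_lit 268435456),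
  Rx.mk (nat_lit 484) (nat_lit 4) (nat_lit 4) (nat_lit 7) (nat_lit 4) (nat_lit 158) (nat_lit 29) r0_158 r9_29 (nat_lit 17383273) (nat_lit 3035981) (nat_lit 0) (nat_lit 0x15db1204a) (nat_lit 461356660),
  Rx.mk (nat_lit 486) (nat_lit 6) (nat_lit 4) (nat_lit 7) (nat_lit 5) (nat_lit 167) (nat_lit 33) r0_167 r9_33 (nat_lit 0) (nat_lit 7106347) (nat_lit 0) (nat_lit 0x1fd785e5e) (nat_lit 278532703),
  Rx.mk (nat_lit 492) (nat_lit 4) (nat_lit 5) (nat_lit 7) (nat_lit 6) (nat_lit 159) (nat_lit 30) r0_159 r9_30 (nat_lit 22707758) (nat_lit 0) (nat_lit 0) (nat_lit 0x1eef51020) (nat_lit 309447014),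
  Rx.mk (nat_lit 494) (nat_lit 6) (nat_lit 5) (nat_lit 7) (nat_lit 7) (nat_lit 168) (nat_lit 34) r0_168 r9_34 (nat_lit 0) (nat_lit 0) (nat_lit 0) (nat_lit 0x20056d4f2) (nat_lit 268435456),
  Rx.mk (nat_lit 508) (nat_lit 4) (nat_lit 7) (nat_lit 7) (nat_lit 6) (nat_lit 160) (nat_lit 31) r0_160 r9_31 (nat_lit 36568253) (nat_lit 0) (nat_lit 0) (nat_lit 0x1f05c5ed2) (nat_lit 321832559),
  Rx.mk (nat_lit 510) (nat_lit 6) (nat_lit 7) (nat_lit 7) (nat_lit 7) (nat_lit 169) (nat_lit 35) r0_169 r9_35 (nat_lit 0) (nat_lit 0) (nat_lit 0) (nat_lit 0x20056d4f2) (nat_lit 268435456),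
  Rx.mk (nat_lit 511) (nat_lit 7) (nat_lit 7) (nat_lit 7) (nat_lit 7) (nat_lit 170) (nat_lit 32) r0_170 r9_32 (nat_lit 0) (nat_lit 0) (nat_lit 0) (nat_lit 0x1f920a348) (nat_lit 275995056)]
noncomputable def e37_50 : List Rx := [
  Rx.mk (nat_lit 3) (nat_lit 3) (nat_lit 0) (nat_lit 0) (nat_lit 1) (nat_lit 43) (nat_lit 4) r0_43 r3_4 (nat_lit 0) (nat_lit 74) (nat_lit 237) (nat_lit 0x2052170be) (nat_lit 263187217),
  Rx.mk (nat_lit 19) (nat_lit 3) (nat_lit 2) (nat_lit 0) (nat_lit 3) (nat_lit 44) (nat_lit 5) r0_44 r3_5 (nat_lit 0) (nat_lit 0) (nat_lit 41515) (nat_lit 0x1d3411838) (nat_lit 315993021),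
  Rx.mk (nat_lit 147) (nat_lit 3) (nat_lit 2) (nat_lit 2) (nat_lit 7) (nat_lit 45) (nat_lit 8) r0_45 r3_8 (nat_lit 0) (nat_lit 0) (nat_lit 0) (nat_lit 0x1f5a47708) (nat_lit 279658856),
  Rx.mk (nat_lit 195) (nat_lit 3) (nat_lit 0) (nat_lit 3) (nat_lit 5) (nat_lit 46) (nat_lit 6) r0_46 r3_6 (nat_lit 0) (nat_lit 221533) (nat_lit 0) (nat_lit 0x1f6467e9a) (nat_lit 279046389),
  Rx.mk (nat_lit 199) (nat_lit 7) (nat_lit 0) (nat_lit 3) (nat_lit 5) (nat_lit 49) (nat_lit 2) r0_49 r3_2 (nat_lit 0) (nat_lit 2053) (nat_lit 0) (nat_lit 0x1fff1523a) (nat_lit 268499659),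
  Rx.mk (nat_lit 211) (nat_lit 3) (nat_lit 2) (nat_lit 3) (nat_lit 7) (nat_lit 47) (nat_lit 7) r0_47 r3_7 (nat_lit 0) (nat_lit 0) (nat_lit 0) (nat_lit 0x20628cae8) (nat_lit 262391206),
  Rx.mk (nat_lit 223) (nat_lit 7) (nat_lit 3) (nat_lit 3) (nat_lit 7) (nat_lit 50) (nat_lit 3) r0_50 r3_3 (nat_lit 0) (nat_lit 0) (nat_lit 0) (nat_lit 0x2006da4f2) (nat_lit 268322256),
  Rx.mk (nat_lit 476) (nat_lit 4) (nat_lit 3) (nat_lit 7) (nat_lit 6) (nat_lit 48) (nat_lit 0) r0_48 r3_0 (nat_lit 3060) (nat_lit 0) (nat_lit 0) (nat_lit 0x1ffe47150) (nat_lit 268554166),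
  Rx.mk (nat_lit 479) (nat_lit 7) (nat_lit 3) (nat_lit 7) (nat_lit 7) (nat_lit 51) (nat_lit 1) r0_51 r3_1 (nat_lit 0) (nat_lit 0) (nat_lit 0) (nat_lit 0x1f48084e8) (nat_lit 280847656)]
noncomputable def e37_51 : List Rx := [
  Rx.mk (nat_lit 3) (nat_lit 3) (nat_lit 0) (nat_lit 0) (nat_lit 1) (nat_lit 52) (nat_lit 8) r0_52 r4_8 (nat_lit 0) (nat_lit 911214) (nat_lit 2057600) (nat_lit 0x1b22bcfc6) (nat_lit 354158770),
  Rx.mk (nat_lit 19) (nat_lit 3) (nat_lit 2) (nat_lit 0) (nat_lit 3) (nat_lit 53) (nat_lit 9) r0_53 r4_9 (nat_lit 0) (nat_lit 0) (nat_lit 17143268) (nat_lit 0x1e42af416) (nat_lit 315309874),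
  Rx.mk (nat_lit 147) (nat_lit 3) (nat_lit 2) (nat_lit 2) (nat_lit 7) (nat_lit 54) (nat_lit 12) r0_54 r4_12 (nat_lit 0) (nat_lit 0) (nat_lit 0) (nat_lit 0x1d9b5a3be) (nat_lit 309237406),
  Rx.mk (nat_lit 195) (nat_lit 3) (nat_lit 0) (nat_lit 3) (nat_lit 5) (nat_lit 55) (nat_lit 10) r0_55 r4_10 (nat_lit 0) (nat_lit 4095836) (nat_lit 0) (nat_lit 0x1fd9b63ea) (nat_lit 275364542),
  Rx.mk (nat_lit 199) (nat_lit 7) (nat_lit 0) (nat_lit 3) (nat_lit 5) (nat_lit 62) (nat_lit 3) r0_62 r4_3 (nat_lit 0) (nat_lit 4296120) (nat_lit 0) (nat_lit 0x1fd4ab1de) (nat_lit 275890326),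
  Rx.mk (nat_lit 211) (nat_lit 3) (nat_lit 2) (nat_lit 3) (nat_lit 7) (nat_lit 56) (nat_lit 11) r0_56 r4_11 (nat_lit 0) (nat_lit 0) (nat_lit 0) (nat_lit 0x205e5adb2) (nat_lit 262667356),
  Rx.mk (nat_lit 223) (nat_lit 7) (nat_lit 3) (nat_lit 3) (nat_lit 7) (nat_lit 63) (nat_lit 4) r0_63 r4_4 (nat_lit 0) (nat_lit 0) (nat_lit 0) (nat_lit 0x206a07ed0) (nat_lit 261913956),
  Rx.mk (nat_lit 318) (nat_lit 6) (nat_lit 7) (nat_lit 4) (nat_lit 3) (nat_lit 59) (nat_lit 5) r0_59 r4_5 (nat_lit 0) (nat_lit 0) (nat_lit 20543778) (nat_lit 0x1ef9c7a5e) (nat_lit 306570734),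
  Rx.mk (nat_lit 446) (nat_lit 6) (nat_lit 7) (nat_lit 6) (nat_lit 7) (nat_lit 60) (nat_lit 7) r0_60 r4_7 (nat_lit 0) (nat_lit 0) (nat_lit 0) (nat_lit 0x1fa57e4c4) (nat_lit 274711106),
  Rx.mk (nat_lit 476) (nat_lit 4) (nat_lit 3) (nat_lit 7) (nat_lit 6) (nat_lit 57) (nat_lit 1) r0_57 r4_1 (nat_lit 4265964) (nat_lit 0) (nat_lit 0) (nat_lit 0x1f7bbe878) (nat_lit 281708970),
  Rx.mk (nat_lit 479) (nat_lit 7) (nat_lit 3) (nat_lit 7) (nat_lit 7) (nat_lit 64) (nat_lit 2) r0_64 r4_2 (nat_lit 0) (nat_lit 0) (nat_lit 0) (nat_lit 0x203c788ac) (nat_lit 264839206),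
  Rx.mk (nat_lit 508) (nat_lit 4) (nat_lit 7) (nat_lit 7) (nat_lit 6) (nat_lit 58) (nat_lit 0) r0_58 r4_0 (nat_lit 829405) (nat_lit 0) (nat_lit 0) (nat_lit 0x19a9ddf48) (nat_lit 377006311),
  Rx.mk (nat_lit 510) (nat_lit 6) (nat_lit 7) (nat_lit 7) (nat_lit 7) (nat_lit 61) (nat_lit 6) r0_61 r4_6 (nat_lit 0) (nat_lit 0) (nat_lit 0) (nat_lit 0x1fca5e078) (nat_lit 272247956)]
noncomputable def e37_52 : List Rx := [
  Rx.mk (nat_lit 195) (nat_lit 3) (nat_lit 0) (nat_lit 3) (nat_lit 5) (nat_lit 65) (nat_lit 4) r0_65 r5_4 (nat_lit 0) (nat_lit 1047232) (nat_lit 0) (nat_lit 0x1fe6eb86c) (nat_lit 271393488),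
  Rx.mk (nat_lit 199) (nat_lit 7) (nat_lit 0) (nat_lit 3) (nat_lit 5) (nat_lit 68) (nat_lit 3) r0_68 r5_3 (nat_lit 0) (nat_lit 1465966) (nat_lit 0) (nat_lit 0x1f26316d0) (nat_lit 284523272),
  Rx.mk (nat_lit 211) (nat_lit 3) (nat_lit 2) (nat_lit 3) (nat_lit 7) (nat_lit 66) (nat_lit 5) r0_66 r5_5 (nat_lit 0) (nat_lit 0) (nat_lit 0) (nat_lit 0x2076d9fbe) (nat_lit 261082156),
  Rx.mk (nat_lit 455) (nat_lit 7) (nat_lit 0) (nat_lit 7) (nat_lit 5) (nat_lit 69) (nat_lit 1) r0_69 r5_1 (nat_lit 0) (nat_lit 1213772) (nat_lit 0) (nat_lit 0x1e3ce063e) (nat_lit 299727878),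
  Rx.mk (nat_lit 476) (nat_lit 4) (nat_lit 3) (nat_lit 7) (nat_lit 6) (nat_lit 67) (nat_lit 0) r0_67 r5_0 (nat_lit 1224594) (nat_lit 0) (nat_lit 0) (nat_lit 0x1f6cdf3ac) (nat_lit 279582800),
  Rx.mk (nat_lit 479) (nat_lit 7) (nat_lit 3) (nat_lit 7) (nat_lit 7) (nat_lit 70) (nat_lit 2) r0_70 r5_2 (nat_lit 0) (nat_lit 0) (nat_lit 0) (nat_lit 0x1f8e71664) (nat_lit 276218956)]
noncomputable def e37_53 : List Rx := [
  Rx.mk (nat_lit 3) (nat_lit 3) (nat_lit 0) (nat_lit 0) (nat_lit 1) (nat_lit 142) (nat_lit 93) r0_142 r4_93 (nat_lit 0) (nat_lit 59176) (nat_lit 52596454) (nat_lit 0x18b3f3b46) (nat_lit 445081686),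
  Rx.mk (nat_lit 19) (nat_lit 3) (nat_lit 2) (nat_lit 0) (nat_lit 3) (nat_lit 143) (nat_lit 95) r0_143 r4_95 (nat_lit 0) (nat_lit 0) (nat_lit 33826584) (nat_lit 0x20ad33e2a) (nat_lit 291385790),
  Rx.mk (nat_lit 147) (nat_lit 3) (nat_lit 2) (nat_lit 2) (nat_lit 7) (nat_lit 144) (nat_lit 97) r0_144 r4_97 (nat_lit 0) (nat_lit 0) (nat_lit 0) (nat_lit 0x202be8910) (nat_lit 265932556),
  Rx.mk (nat_lit 195) (nat_lit 3) (nat_lit 0) (nat_lit 3) (nat_lit 5) (nat_lit 145) (nat_lit 94) r0_145 r4_94 (nat_lit 0) (nat_lit 5249002) (nat_lit 0) (nat_lit 0x1fa57fb76) (nat_lit 279949358),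
  Rx.mk (nat_lit 211) (nat_lit 3) (nat_lit 2) (nat_lit 3) (nat_lit 7) (nat_lit 146) (nat_lit 96) r0_146 r4_96 (nat_lit 0) (nat_lit 0) (nat_lit 0) (nat_lit 0x20711b0e6) (nat_lit 261457706)]
noncomputable def e37_54 : List Rx := [
  Rx.mk (nat_lit 3) (nat_lit 3) (nat_lit 0) (nat_lit 0) (nat_lit 1) (nat_lit 147) (nat_lit 0) r0_147 r10_0 (nat_lit 0) (nat_lit 142696) (nat_lit 514146) (nat_lit 0x196892534) (nat_lit 381116348),
  Rx.mk (nat_lit 19) (nat_lit 3) (nat_lit 2) (nat_lit 0) (nat_lit 3) (nat_lit 148) (nat_lit 1) r0_148 r10_1 (nat_lit 0) (nat_lit 0) (nat_lit 18568344) (nat_lit 0x1f4c0ad0c) (nat_lit 299169900),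
  Rx.mk (nat_lit 147) (nat_lit 3) (nat_lit 2) (nat_lit 2) (nat_lit 7) (nat_lit 149) (nat_lit 4) r0_149 r10_4 (nat_lit 0) (nat_lit 0) (nat_lit 0) (nat_lit 0x1ff3454e6) (nat_lit 269612556),
  Rx.mk (nat_lit 195) (nat_lit 3) (nat_lit 0) (nat_lit 3) (nat_lit 5) (nat_lit 150) (nat_lit 2) r0_150 r10_2 (nat_lit 0) (nat_lit 5323449) (nat_lit 0) (nat_lit 0x1d8aa981c) (nat_lit 315709355),
  Rx.mk (nat_lit 211) (nat_lit 3) (nat_lit 2) (nat_lit 3) (nat_lit 7) (nat_lit 151) (nat_lit 3) r0_151 r10_3 (nat_lit 0) (nat_lit 0) (nat_lit 0) (nat_lit 0x20056d4f2) (nat_lit 268435456)]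
noncomputable def e37_55 : List Rx := [
  Rx.mk (nat_lit 195) (nat_lit 3) (nat_lit 0) (nat_lit 3) (nat_lit 5) (nat_lit 152) (nat_lit 0) r0_152 r11_0 (nat_lit 0) (nat_lit 7183742) (nat_lit 0) (nat_lit 0x1fc9b009a) (nat_lit 279512798),
  Rx.mk (nat_lit 211) (nat_lit 3) (nat_lit 2) (nat_lit 3) (nat_lit 7) (nat_lit 153) (nat_lit 1) r0_153 r11_1 (nat_lit 0) (nat_lit 0) (nat_lit 0) (nat_lit 0x202537062) (nat_lit 266367056)]
noncomputable def e37_56 : List Rx := [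
  Rx.mk (nat_lit 3) (nat_lit 3) (nat_lit 0) (nat_lit 0) (nat_lit 1) (nat_lit 204) (nat_lit 94) r0_204 r5_94 (nat_lit 0) (nat_lit 68266) (nat_lit 4376312) (nat_lit 0x2011af8e6) (nat_lit 271776584),
  Rx.mk (nat_lit 7) (nat_lit 7) (nat_lit 0) (nat_lit 0) (nat_lit 1) (nat_lit 209) (nat_lit 95) r0_209 r5_95 (nat_lit 0) (nat_lit 2166) (nat_lit 2742) (nat_lit 0x1ffe6a894) (nat_lit 268546314),
  Rx.mk (nat_lit 19) (nat_lit 3) (nat_lit 2) (nat_lit 0) (nat_lit 3) (nat_lit 205) (nat_lit 100) r0_205 r5_100 (nat_lit 0) (nat_lit 0) (nat_lit 51585995) (nat_lit 0x1f40b1c8a) (nat_lit 332930751),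
  Rx.mk (nat_lit 147) (nat_lit 3) (nat_lit 2) (nat_lit 2) (nat_lit 7) (nat_lit 206) (nat_lit 101) r0_206 r5_101 (nat_lit 0) (nat_lit 0) (nat_lit 0) (nat_lit 0x1fbe83a50) (nat_lit 273060756),
  Rx.mk (nat_lit 199) (nat_lit 7) (nat_lit 0) (nat_lit 3) (nat_lit 5) (nat_lit 210) (nat_lit 96) r0_210 r5_96 (nat_lit 0) (nat_lit 1935890) (nat_lit 0) (nat_lit 0x20e2c5174) (nat_lit 256065246),
  Rx.mk (nat_lit 220) (nat_lit 4) (nat_lit 3) (nat_lit 3) (nat_lit 6) (nat_lit 207) (nat_lit 97) r0_207 r5_97 (nat_lit 3102681) (nat_lit 0) (nat_lit 0) (nat_lit 0x1aefd6c10) (nat_lit 357710387),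
  Rx.mk (nat_lit 223) (nat_lit 7) (nat_lit 3) (nat_lit 3) (nat_lit 7) (nat_lit 211) (nat_lit 98) r0_211 r5_98 (nat_lit 0) (nat_lit 0) (nat_lit 0) (nat_lit 0x205a0ba36) (nat_lit 262948156),
  Rx.mk (nat_lit 476) (nat_lit 4) (nat_lit 3) (nat_lit 7) (nat_lit 6) (nat_lit 208) (nat_lit 99) r0_208 r5_99 (nat_lit 4120485) (nat_lit 0) (nat_lit 0) (nat_lit 0x1d90add30) (nat_lit 314093041)]
noncomputable def e37_57 : List Rx := [
  Rx.mk (nat_lit 3) (nat_lit 3) (nat_lit 0) (nat_lit 0) (nat_lit 1) (nat_lit 212) (nat_lit 91) r0_212 r11_91 (nat_lit 0) (nat_lit 5847755) (nat_lit 35579357) (nat_lit 0x1cf126118) (nat_lit 361977668),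
  Rx.mk (nat_lit 7) (nat_lit 7) (nat_lit 0) (nat_lit 0) (nat_lit 1) (nat_lit 219) (nat_lit 92) r0_219 r11_92 (nat_lit 0) (nat_lit 860787) (nat_lit 957999) (nat_lit 0x1be3394ac) (nat_lit 340229592),
  Rx.mk (nat_lit 19) (nat_lit 3) (nat_lit 2) (nat_lit 0) (nat_lit 3) (nat_lit 213) (nat_lit 97) r0_213 r11_97 (nat_lit 0) (nat_lit 0) (nat_lit 54099943) (nat_lit 0x1fab0666c) (nat_lit 328440049),
  Rx.mk (nat_lit 147) (nat_lit 3) (nat_lit 2) (nat_lit 2) (nat_lit 7) (nat_lit 214) (nat_lit 98) r0_214 r11_98 (nat_lit 0) (nat_lit 0) (nat_lit 0) (nat_lit 0x20a84f7ce) (nat_lit 257886656),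
  Rx.mk (nat_lit 199) (nat_lit 7) (nat_lit 0) (nat_lit 3) (nat_lit 5) (nat_lit 220) (nat_lit 93) r0_220 r11_93 (nat_lit 0) (nat_lit 5308544) (nat_lit 0) (nat_lit 0x2021b8a8a) (nat_lit 271891250),
  Rx.mk (nat_lit 220) (nat_lit 4) (nat_lit 3) (nat_lit 3) (nat_lit 6) (nat_lit 215) (nat_lit 94) r0_215 r11_94 (nat_lit 3907448) (nat_lit 0) (nat_lit 0) (nat_lit 0x1f0b7289e) (nat_lit 288775154),
  Rx.mk (nat_lit 223) (nat_lit 7) (nat_lit 3) (nat_lit 3) (nat_lit 7) (nat_lit 221) (nat_lit 95) r0_221 r11_95 (nat_lit 0) (nat_lit 0) (nat_lit 0) (nat_lit 0x20380ccaa) (nat_lit 265146056),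
  Rx.mk (nat_lit 476) (nat_lit 4) (nat_lit 3) (nat_lit 7) (nat_lit 6) (nat_lit 216) (nat_lit 96) r0_216 r11_96 (nat_lit 4286271) (nat_lit 0) (nat_lit 0) (nat_lit 0x1fec0acda) (nat_lit 274349477),
  Rx.mk (nat_lit 508) (nat_lit 4) (nat_lit 7) (nat_lit 7) (nat_lit 6) (nat_lit 217) (nat_lit 99) r0_217 r11_99 (nat_lit 3688724) (nat_lit 0) (nat_lit 0) (nat_lit 0x1c9ff7bde) (nat_lit 329624030),
  Rx.mk (nat_lit 510) (nat_lit 6) (nat_lit 7) (nat_lit 7) (nat_lit 7) (nat_lit 218) (nat_lit 100) r0_218 r11_100 (nat_lit 0) (nat_lit 0) (nat_lit 0) (nat_lit 0x20f100a7c) (nat_lit 253219156)]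
noncomputable def e37 : List (List Rx) := [e37_0, e37_1, e37_2, e37_3, e37_4, e37_5, e37_6, e37_7, e37_8, e37_9, e37_10, e37_11, e37_12, e37_13, e37_14, e37_15, e37_16, e37_17, e37_18, e37_19, e37_20, e37_21, e37_22, e37_23, e37_24, e37_25, e37_26, e37_27, e37_28, e37_29, e37_30, e37_31, e37_32, e37_33, e37_34, e37_35, e37_36, e37_37, e37_38, e37_39, e37_40, e37_41, e37_42, e37_43, e37_44, e37_45, e37_46, e37_47, e37_48, e37_49, e37_50, e37_51, e37_52, e37_53, e37_54, e37_55, e37_56, e37_57]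
noncomputable def e38_0 : List Rx := [
  Rx.mk (nat_lit 5) (nat_lit 5) (nat_lit 0) (nat_lit 0) (nat_lit 1) (nat_lit 171) (nat_lit 248) r0_171 r0_248 (nat_lit 0) (nat_lit 205064910) (nat_lit 748) (nat_lit 0x200021610) (nat_lit 473493114),
  Rx.mk (nat_lit 69) (nat_lit 5) (nat_lit 0) (nat_lit 1) (nat_lit 5) (nat_lit 172) (nat_lit 249) r0_172 r0_249 (nat_lit 0) (nat_lit 120058012) (nat_lit 0) (nat_lit 0x1f4928120) (nat_lit 400822818)]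
noncomputable def e38_1 : List Rx := [
  Rx.mk (nat_lit 69) (nat_lit 5) (nat_lit 0) (nat_lit 1) (nat_lit 5) (nat_lit 173) (nat_lit 255) r0_173 r1_255 (nat_lit 0) (nat_lit 65685782) (nat_lit 0) (nat_lit 0x200c6d310) (nat_lit 333632738)]
noncomputable def e38_2 : List Rx := [
  Rx.mk (nat_lit 69) (nat_lit 5) (nat_lit 0) (nat_lit 1) (nat_lit 5) (nat_lit 286) (nat_lit 280) r0_286 r2_280 (nat_lit 0) (nat_lit 12544226) (nat_lit 0) (nat_lit 0x1eee011d4) (nat_lit 299367132),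
  Rx.mk (nat_lit 77) (nat_lit 5) (nat_lit 1) (nat_lit 1) (nat_lit 7) (nat_lit 288) (nat_lit 282) r0_288 r2_282 (nat_lit 0) (nat_lit 0) (nat_lit 0) (nat_lit 0x20056d4f2) (nat_lit 268435456),
  Rx.mk (nat_lit 325) (nat_lit 5) (nat_lit 0) (nat_lit 5) (nat_lit 5) (nat_lit 285) (nat_lit 281) r0_285 r2_281 (nat_lit 0) (nat_lit 58461491) (nat_lit 0) (nat_lit 0x1c9e814b2) (nat_lit 384503097),
  Rx.mk (nat_lit 333) (nat_lit 5) (nat_lit 1) (nat_lit 5) (nat_lit 7) (nat_lit 287) (nat_lit 283) r0_287 r2_283 (nat_lit 0) (nat_lit 0) (nat_lit 0) (nat_lit 0x20056d4f2) (nat_lit 268435456)]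
noncomputable def e38_3 : List Rx := [
  Rx.mk (nat_lit 197) (nat_lit 5) (nat_lit 0) (nat_lit 3) (nat_lit 5) (nat_lit 71) (nat_lit 249) r0_71 r3_249 (nat_lit 0) (nat_lit 279) (nat_lit 0) (nat_lit 0x2000240b8) (nat_lit 268426835)]
noncomputable def e38_4 : List Rx := [
  Rx.mk (nat_lit 5) (nat_lit 5) (nat_lit 0) (nat_lit 0) (nat_lit 1) (nat_lit 174) (nat_lit 262) r0_174 r4_262 (nat_lit 0) (nat_lit 92582256) (nat_lit 368462) (nat_lit 0x1ba8b9034) (nat_lit 435190624),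
  Rx.mk (nat_lit 69) (nat_lit 5) (nat_lit 0) (nat_lit 1) (nat_lit 5) (nat_lit 175) (nat_lit 263) r0_175 r4_263 (nat_lit 0) (nat_lit 37264364) (nat_lit 0) (nat_lit 0x1f17bb394) (nat_lit 321311370),
  Rx.mk (nat_lit 197) (nat_lit 5) (nat_lit 0) (nat_lit 3) (nat_lit 5) (nat_lit 176) (nat_lit 264) r0_176 r4_264 (nat_lit 0) (nat_lit 105491124) (nat_lit 0) (nat_lit 0x1b7455748) (nat_lit 451196430)]
noncomputable def e38_5 : List Rx := [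
  Rx.mk (nat_lit 197) (nat_lit 5) (nat_lit 0) (nat_lit 3) (nat_lit 5) (nat_lit 224) (nat_lit 255) r0_224 r5_255 (nat_lit 0) (nat_lit 33756998) (nat_lit 0) (nat_lit 0x200009fc4) (nat_lit 302190604)]
noncomputable def e38_6 : List Rx := [
  Rx.mk (nat_lit 261) (nat_lit 5) (nat_lit 0) (nat_lit 4) (nat_lit 1) (nat_lit 300) (nat_lit 243) r0_300 r3_243 (nat_lit 0) (nat_lit 304) (nat_lit 142) (nat_lit 0x20000c530) (nat_lit 268432952),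
  Rx.mk (nat_lit 268) (nat_lit 4) (nat_lit 1) (nat_lit 4) (nat_lit 2) (nat_lit 302) (nat_lit 245) r0_302 r3_245 (nat_lit 404) (nat_lit 0) (nat_lit 825) (nat_lit 0x1e41714e6) (nat_lit 298072835),
  Rx.mk (nat_lit 269) (nat_lit 5) (nat_lit 1) (nat_lit 4) (nat_lit 3) (nat_lit 303) (nat_lit 247) r0_303 r3_247 (nat_lit 0) (nat_lit 0) (nat_lit 490321) (nat_lit 0x1f1f55190) (nat_lit 283872577),
  Rx.mk (nat_lit 453) (nat_lit 5) (nat_lit 0) (nat_lit 7) (nat_lit 5) (nat_lit 301) (nat_lit 244) r0_301 r3_244 (nat_lit 0) (nat_lit 44942) (nat_lit 0) (nat_lit 0x1f4ac648c) (nat_lit 280510798),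
  Rx.mk (nat_lit 460) (nat_lit 4) (nat_lit 1) (nat_lit 7) (nat_lit 6) (nat_lit 304) (nat_lit 246) r0_304 r3_246 (nat_lit 655885) (nat_lit 0) (nat_lit 0) (nat_lit 0x1e5b1fe06) (nat_lit 297129541),
  Rx.mk (nat_lit 461) (nat_lit 5) (nat_lit 1) (nat_lit 7) (nat_lit 7) (nat_lit 305) (nat_lit 248) r0_305 r3_248 (nat_lit 0) (nat_lit 0) (nat_lit 0) (nat_lit 0x21de14764) (nat_lit 238010106)]
noncomputable def e38_7 : List Rx := [
  Rx.mk (nat_lit 268) (nat_lit 4) (nat_lit 1) (nat_lit 4) (nat_lit 2) (nat_lit 244) (nat_lit 244) r0_244 r0_244 (nat_lit 9523361) (nat_lit 0) (nat_lit 9523361) (nat_lit 0x1988e760e) (nat_lit 397472878),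
  Rx.mk (nat_lit 269) (nat_lit 5) (nat_lit 1) (nat_lit 4) (nat_lit 3) (nat_lit 245) (nat_lit 246) r0_245 r0_246 (nat_lit 0) (nat_lit 0) (nat_lit 3631069) (nat_lit 0x1c89360e4) (nat_lit 331088925),
  Rx.mk (nat_lit 325) (nat_lit 5) (nat_lit 0) (nat_lit 5) (nat_lit 5) (nat_lit 243) (nat_lit 243) r0_243 r0_243 (nat_lit 0) (nat_lit 153426111) (nat_lit 0) (nat_lit 0x203cc5ea4) (nat_lit 417977017),
  Rx.mk (nat_lit 332) (nat_lit 4) (nat_lit 1) (nat_lit 5) (nat_lit 6) (nat_lit 246) (nat_lit 245) r0_246 r0_245 (nat_lit 3631069) (nat_lit 0) (nat_lit 0) (nat_lit 0x1c89360e4) (nat_lit 331088925),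
  Rx.mk (nat_lit 333) (nat_lit 5) (nat_lit 1) (nat_lit 5) (nat_lit 7) (nat_lit 247) (nat_lit 247) r0_247 r0_247 (nat_lit 0) (nat_lit 0) (nat_lit 0) (nat_lit 0x1ef9a2efc) (nat_lit 286047556)]
noncomputable def e38_8 : List Rx := [
  Rx.mk (nat_lit 325) (nat_lit 5) (nat_lit 0) (nat_lit 5) (nat_lit 5) (nat_lit 282) (nat_lit 252) r0_282 r1_252 (nat_lit 0) (nat_lit 168759698) (nat_lit 0) (nat_lit 0x1fff69344) (nat_lit 437235604),
  Rx.mk (nat_lit 332) (nat_lit 4) (nat_lit 1) (nat_lit 5) (nat_lit 6) (nat_lit 283) (nat_lit 253) r0_283 r1_253 (nat_lit 8873187) (nat_lit 0) (nat_lit 0) (nat_lit 0x1ed1d1158) (nat_lit 297579593),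
  Rx.mk (nat_lit 333) (nat_lit 5) (nat_lit 1) (nat_lit 5) (nat_lit 7) (nat_lit 284) (nat_lit 254) r0_284 r1_254 (nat_lit 0) (nat_lit 0) (nat_lit 0) (nat_lit 0x1f99bebe8) (nat_lit 275482756)]
noncomputable def e38_9 : List Rx := [
  Rx.mk (nat_lit 261) (nat_lit 5) (nat_lit 0) (nat_lit 4) (nat_lit 1) (nat_lit 306) (nat_lit 253) r0_306 r4_253 (nat_lit 0) (nat_lit 19679101) (nat_lit 3903538) (nat_lit 0x1db7e0f38) (nat_lit 330963295),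
  Rx.mk (nat_lit 268) (nat_lit 4) (nat_lit 1) (nat_lit 4) (nat_lit 2) (nat_lit 309) (nat_lit 256) r0_309 r4_256 (nat_lit 8049828) (nat_lit 0) (nat_lit 14166006) (nat_lit 0x1ae665b5e) (nat_lit 377442740),
  Rx.mk (nat_lit 269) (nat_lit 5) (nat_lit 1) (nat_lit 4) (nat_lit 3) (nat_lit 310) (nat_lit 259) r0_310 r4_259 (nat_lit 0) (nat_lit 0) (nat_lit 8068535) (nat_lit 0x1fcb5274a) (nat_lit 280275941),
  Rx.mk (nat_lit 325) (nat_lit 5) (nat_lit 0) (nat_lit 5) (nat_lit 5) (nat_lit 307) (nat_lit 254) r0_307 r4_254 (nat_lit 0) (nat_lit 108297310) (nat_lit 0) (nat_lit 0x1ec126d4e) (nat_lit 397937116),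
  Rx.mk (nat_lit 332) (nat_lit 4) (nat_lit 1) (nat_lit 5) (nat_lit 6) (nat_lit 311) (nat_lit 257) r0_311 r4_257 (nat_lit 10253547) (nat_lit 0) (nat_lit 0) (nat_lit 0x1fe86ff26) (nat_lit 280577553),
  Rx.mk (nat_lit 333) (nat_lit 5) (nat_lit 1) (nat_lit 5) (nat_lit 7) (nat_lit 312) (nat_lit 260) r0_312 r4_260 (nat_lit 0) (nat_lit 0) (nat_lit 0) (nat_lit 0x20469ff42) (nat_lit 264200756),
  Rx.mk (nat_lit 453) (nat_lit 5) (nat_lit 0) (nat_lit 7) (nat_lit 5) (nat_lit 308) (nat_lit 255) r0_308 r4_255 (nat_lit 0) (nat_lit 12077193) (nat_lit 0) (nat_lit 0x1ffd30320) (nat_lit 281032149),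
  Rx.mk (nat_lit 460) (nat_lit 4) (nat_lit 1) (nat_lit 7) (nat_lit 6) (nat_lit 313) (nat_lit 258) r0_313 r4_258 (nat_lit 5453470) (nat_lit 0) (nat_lit 0) (nat_lit 0x202795156) (nat_lit 271662226),
  Rx.mk (nat_lit 461) (nat_lit 5) (nat_lit 1) (nat_lit 7) (nat_lit 7) (nat_lit 314) (nat_lit 261) r0_314 r4_261 (nat_lit 0) (nat_lit 0) (nat_lit 0) (nat_lit 0x2018d4ea0) (nat_lit 267171456)]
noncomputable def e38_10 : List Rx := [
  Rx.mk (nat_lit 197) (nat_lit 5) (nat_lit 0) (nat_lit 3) (nat_lit 5) (nat_lit 223) (nat_lit 278) r0_223 r6_278 (nat_lit 0) (nat_lit 11115543) (nat_lit 0) (nat_lit 0x1fdae8574) (nat_lit 282223849),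
  Rx.mk (nat_lit 453) (nat_lit 5) (nat_lit 0) (nat_lit 7) (nat_lit 5) (nat_lit 222) (nat_lit 279) r0_222 r6_279 (nat_lit 0) (nat_lit 6622) (nat_lit 0) (nat_lit 0x241d4916c) (nat_lit 201098578)]
noncomputable def e38_11 : List Rx := [
  Rx.mk (nat_lit 453) (nat_lit 5) (nat_lit 0) (nat_lit 7) (nat_lit 5) (nat_lit 315) (nat_lit 252) r0_315 r5_252 (nat_lit 0) (nat_lit 3242551) (nat_lit 0) (nat_lit 0x2143dd650) (nat_lit 251117207),
  Rx.mk (nat_lit 460) (nat_lit 4) (nat_lit 1) (nat_lit 7) (nat_lit 6) (nat_lit 316) (nat_lit 253) r0_316 r5_253 (nat_lit 2390639) (nat_lit 0) (nat_lit 0) (nat_lit 0x1ff4c17e8) (nat_lit 271882995),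
  Rx.mk (nat_lit 461) (nat_lit 5) (nat_lit 1) (nat_lit 7) (nat_lit 7) (nat_lit 317) (nat_lit 254) r0_317 r5_254 (nat_lit 0) (nat_lit 0) (nat_lit 0) (nat_lit 0x2402ac98a) (nat_lit 202949906)]
noncomputable def e38_12 : List Rx := [
  Rx.mk (nat_lit 17) (nat_lit 1) (nat_lit 2) (nat_lit 0) (nat_lit 3) (nat_lit 73) (nat_lit 72) r0_73 r0_72 (nat_lit 0) (nat_lit 0) (nat_lit 3189282) (nat_lit 0x1e646defe) (nat_lit 299105288),
  Rx.mk (nat_lit 193) (nat_lit 1) (nat_lit 0) (nat_lit 3) (nat_lit 5) (nat_lit 72) (nat_lit 73) r0_72 r0_73 (nat_lit 0) (nat_lit 3189282) (nat_lit 0) (nat_lit 0x1e646defe) (nat_lit 299105288),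
  Rx.mk (nat_lit 209) (nat_lit 1) (nat_lit 2) (nat_lit 3) (nat_lit 7) (nat_lit 74) (nat_lit 74) r0_74 r0_74 (nat_lit 0) (nat_lit 0) (nat_lit 0) (nat_lit 0x2029ade84) (nat_lit 266052256)]
noncomputable def e38_13 : List Rx := [
  Rx.mk (nat_lit 1) (nat_lit 1) (nat_lit 0) (nat_lit 0) (nat_lit 1) (nat_lit 178) (nat_lit 319) r0_178 r7_319 (nat_lit 0) (nat_lit 716691) (nat_lit 254935) (nat_lit 0x19bbb53e2) (nat_lit 375922732),
  Rx.mk (nat_lit 5) (nat_lit 5) (nat_lit 0) (nat_lit 0) (nat_lit 1) (nat_lit 177) (nat_lit 325) r0_177 r7_325 (nat_lit 0) (nat_lit 3352025) (nat_lit 236105) (nat_lit 0x15ef65efc) (nat_lit 443065536),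
  Rx.mk (nat_lit 17) (nat_lit 1) (nat_lit 2) (nat_lit 0) (nat_lit 3) (nat_lit 182) (nat_lit 322) r0_182 r7_322 (nat_lit 0) (nat_lit 0) (nat_lit 2189607) (nat_lit 0x1fe25deee) (nat_lit 272854513),
  Rx.mk (nat_lit 65) (nat_lit 1) (nat_lit 0) (nat_lit 1) (nat_lit 5) (nat_lit 180) (nat_lit 320) r0_180 r7_320 (nat_lit 0) (nat_lit 8466862) (nat_lit 0) (nat_lit 0x1df10845a) (nat_lit 312056868),
  Rx.mk (nat_lit 69) (nat_lit 5) (nat_lit 0) (nat_lit 1) (nat_lit 5) (nat_lit 179) (nat_lit 326) r0_179 r7_326 (nat_lit 0) (nat_lit 2435671) (nat_lit 0) (nat_lit 0x1813fca48) (nat_lit 405583127),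
  Rx.mk (nat_lit 81) (nat_lit 1) (nat_lit 2) (nat_lit 1) (nat_lit 7) (nat_lit 183) (nat_lit 323) r0_183 r7_323 (nat_lit 0) (nat_lit 0) (nat_lit 0) (nat_lit 0x2069e1e9c) (nat_lit 261918006),
  Rx.mk (nat_lit 193) (nat_lit 1) (nat_lit 0) (nat_lit 3) (nat_lit 5) (nat_lit 181) (nat_lit 321) r0_181 r7_321 (nat_lit 0) (nat_lit 57895491) (nat_lit 0) (nat_lit 0x20dbef6b0) (nat_lit 312330647),
  Rx.mk (nat_lit 209) (nat_lit 1) (nat_lit 2) (nat_lit 3) (nat_lit 7) (nat_lit 184) (nat_lit 324) r0_184 r7_324 (nat_lit 0) (nat_lit 0) (nat_lit 0) (nat_lit 0x2120dae14) (nat_lit 250172056)]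
noncomputable def e38_14 : List Rx := [
  Rx.mk (nat_lit 17) (nat_lit 1) (nat_lit 2) (nat_lit 0) (nat_lit 3) (nat_lit 76) (nat_lit 69) r0_76 r1_69 (nat_lit 0) (nat_lit 0) (nat_lit 7606073) (nat_lit 0x1f4683d84) (nat_lit 288573429),
  Rx.mk (nat_lit 145) (nat_lit 1) (nat_lit 2) (nat_lit 2) (nat_lit 7) (nat_lit 77) (nat_lit 72) r0_77 r1_72 (nat_lit 0) (nat_lit 0) (nat_lit 0) (nat_lit 0x202d73a00) (nat_lit 265825656),
  Rx.mk (nat_lit 193) (nat_lit 1) (nat_lit 0) (nat_lit 3) (nat_lit 5) (nat_lit 75) (nat_lit 70) r0_75 r1_70 (nat_lit 0) (nat_lit 3064142) (nat_lit 0) (nat_lit 0x203e7efde) (nat_lit 267754448),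
  Rx.mk (nat_lit 209) (nat_lit 1) (nat_lit 2) (nat_lit 3) (nat_lit 7) (nat_lit 78) (nat_lit 71) r0_78 r1_71 (nat_lit 0) (nat_lit 0) (nat_lit 0) (nat_lit 0x22d0de396) (nat_lit 222515206)]
noncomputable def e38_15 : List Rx := [
  Rx.mk (nat_lit 1) (nat_lit 1) (nat_lit 0) (nat_lit 0) (nat_lit 1) (nat_lit 188) (nat_lit 241) r0_188 r8_241 (nat_lit 0) (nat_lit 7060541) (nat_lit 3895157) (nat_lit 0x16494bc14) (nat_lit 444572854),
  Rx.mk (nat_lit 17) (nat_lit 1) (nat_lit 2) (nat_lit 0) (nat_lit 3) (nat_lit 191) (nat_lit 244) r0_191 r8_244 (nat_lit 0) (nat_lit 0) (nat_lit 5196417) (nat_lit 0x1fa15acb2) (nat_lit 280172673),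
  Rx.mk (nat_lit 65) (nat_lit 1) (nat_lit 0) (nat_lit 1) (nat_lit 5) (nat_lit 189) (nat_lit 242) r0_189 r8_242 (nat_lit 0) (nat_lit 7988855) (nat_lit 0) (nat_lit 0x1dd308112) (nat_lit 313579111),
  Rx.mk (nat_lit 81) (nat_lit 1) (nat_lit 2) (nat_lit 1) (nat_lit 7) (nat_lit 192) (nat_lit 245) r0_192 r8_245 (nat_lit 0) (nat_lit 0) (nat_lit 0) (nat_lit 0x201316b9e) (nat_lit 267545656),
  Rx.mk (nat_lit 145) (nat_lit 1) (nat_lit 2) (nat_lit 2) (nat_lit 7) (nat_lit 193) (nat_lit 247) r0_193 r8_247 (nat_lit 0) (nat_lit 0) (nat_lit 0) (nat_lit 0x20056d4f2) (nat_lit 268435456),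
  Rx.mk (nat_lit 193) (nat_lit 1) (nat_lit 0) (nat_lit 3) (nat_lit 5) (nat_lit 190) (nat_lit 243) r0_190 r8_243 (nat_lit 0) (nat_lit 56857679) (nat_lit 0) (nat_lit 0x1feec1780) (nat_lit 326737435),
  Rx.mk (nat_lit 209) (nat_lit 1) (nat_lit 2) (nat_lit 3) (nat_lit 7) (nat_lit 194) (nat_lit 246) r0_194 r8_246 (nat_lit 0) (nat_lit 0) (nat_lit 0) (nat_lit 0x201316b9e) (nat_lit 267545656)]
noncomputable def e38_16 : List Rx := [
  Rx.mk (nat_lit 65) (nat_lit 1) (nat_lit 0) (nat_lit 1) (nat_lit 5) (nat_lit 186) (nat_lit 64) r0_186 r8_64 (nat_lit 0) (nat_lit 7212426) (nat_lit 0) (nat_lit 0x1f5198ca6) (nat_lit 287452482),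
  Rx.mk (nat_lit 69) (nat_lit 5) (nat_lit 0) (nat_lit 1) (nat_lit 5) (nat_lit 185) (nat_lit 63) r0_185 r8_63 (nat_lit 0) (nat_lit 7783153) (nat_lit 0) (nat_lit 0x1c7520078) (nat_lit 336577359),
  Rx.mk (nat_lit 81) (nat_lit 1) (nat_lit 2) (nat_lit 1) (nat_lit 7) (nat_lit 187) (nat_lit 65) r0_187 r8_65 (nat_lit 0) (nat_lit 0) (nat_lit 0) (nat_lit 0x20394b670) (nat_lit 265061156)]
noncomputable def e38_17 : List Rx := [
  Rx.mk (nat_lit 65) (nat_lit 1) (nat_lit 0) (nat_lit 1) (nat_lit 5) (nat_lit 295) (nat_lit 250) r0_295 r9_250 (nat_lit 0) (nat_lit 10061420) (nat_lit 0) (nat_lit 0x1f3c8879e) (nat_lit 291701226),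
  Rx.mk (nat_lit 69) (nat_lit 5) (nat_lit 0) (nat_lit 1) (nat_lit 5) (nat_lit 294) (nat_lit 253) r0_294 r9_253 (nat_lit 0) (nat_lit 11334893) (nat_lit 0) (nat_lit 0x1e2457aea) (nat_lit 311539649),
  Rx.mk (nat_lit 73) (nat_lit 1) (nat_lit 1) (nat_lit 1) (nat_lit 7) (nat_lit 298) (nat_lit 251) r0_298 r9_251 (nat_lit 0) (nat_lit 0) (nat_lit 0) (nat_lit 0x20056d4f2) (nat_lit 268435456),
  Rx.mk (nat_lit 77) (nat_lit 5) (nat_lit 1) (nat_lit 1) (nat_lit 7) (nat_lit 297) (nat_lit 255) r0_297 r9_255 (nat_lit 0) (nat_lit 0) (nat_lit 0) (nat_lit 0x20056d4f2) (nat_lit 268435456),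
  Rx.mk (nat_lit 81) (nat_lit 1) (nat_lit 2) (nat_lit 1) (nat_lit 7) (nat_lit 299) (nat_lit 252) r0_299 r9_252 (nat_lit 0) (nat_lit 0) (nat_lit 0) (nat_lit 0x20056d4f2) (nat_lit 268435456),
  Rx.mk (nat_lit 325) (nat_lit 5) (nat_lit 0) (nat_lit 5) (nat_lit 5) (nat_lit 293) (nat_lit 254) r0_293 r9_254 (nat_lit 0) (nat_lit 10725362) (nat_lit 0) (nat_lit 0x1be5b800c) (nat_lit 349044468),
  Rx.mk (nat_lit 333) (nat_lit 5) (nat_lit 1) (nat_lit 5) (nat_lit 7) (nat_lit 296) (nat_lit 256) r0_296 r9_256 (nat_lit 0) (nat_lit 0) (nat_lit 0) (nat_lit 0x20056d4f2) (nat_lit 268435456)]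
noncomputable def e38_18 : List Rx := [
  Rx.mk (nat_lit 193) (nat_lit 1) (nat_lit 0) (nat_lit 3) (nat_lit 5) (nat_lit 80) (nat_lit 69) r0_80 r4_69 (nat_lit 0) (nat_lit 3349434) (nat_lit 0) (nat_lit 0x1f4641506) (nat_lit 284310440),
  Rx.mk (nat_lit 197) (nat_lit 5) (nat_lit 0) (nat_lit 3) (nat_lit 5) (nat_lit 79) (nat_lit 68) r0_79 r4_68 (nat_lit 0) (nat_lit 1637705) (nat_lit 0) (nat_lit 0x17ef1a0fe) (nat_lit 407217261),
  Rx.mk (nat_lit 209) (nat_lit 1) (nat_lit 2) (nat_lit 3) (nat_lit 7) (nat_lit 81) (nat_lit 70) r0_81 r4_70 (nat_lit 0) (nat_lit 0) (nat_lit 0) (nat_lit 0x1ea79a466) (nat_lit 291417306)]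
noncomputable def e38_19 : List Rx := [
  Rx.mk (nat_lit 5) (nat_lit 5) (nat_lit 0) (nat_lit 0) (nat_lit 1) (nat_lit 195) (nat_lit 281) r0_195 r10_281 (nat_lit 0) (nat_lit 895600) (nat_lit 241321) (nat_lit 0x16b880cd8) (nat_lit 427279577),
  Rx.mk (nat_lit 69) (nat_lit 5) (nat_lit 0) (nat_lit 1) (nat_lit 5) (nat_lit 196) (nat_lit 282) r0_196 r10_282 (nat_lit 0) (nat_lit 3476048) (nat_lit 0) (nat_lit 0x1aa52c732) (nat_lit 363037754),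
  Rx.mk (nat_lit 193) (nat_lit 1) (nat_lit 0) (nat_lit 3) (nat_lit 5) (nat_lit 198) (nat_lit 279) r0_198 r10_279 (nat_lit 0) (nat_lit 55056773) (nat_lit 0) (nat_lit 0x212627822) (nat_lit 304746579),
  Rx.mk (nat_lit 197) (nat_lit 5) (nat_lit 0) (nat_lit 3) (nat_lit 5) (nat_lit 197) (nat_lit 283) r0_197 r10_283 (nat_lit 0) (nat_lit 83120058) (nat_lit 0) (nat_lit 0x201ce892e) (nat_lit 349914064),
  Rx.mk (nat_lit 209) (nat_lit 1) (nat_lit 2) (nat_lit 3) (nat_lit 7) (nat_lit 199) (nat_lit 280) r0_199 r10_280 (nat_lit 0) (nat_lit 0) (nat_lit 0) (nat_lit 0x20d426d7a) (nat_lit 255090656)]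
noncomputable def e38_20 : List Rx := [
  Rx.mk (nat_lit 193) (nat_lit 1) (nat_lit 0) (nat_lit 3) (nat_lit 5) (nat_lit 226) (nat_lit 300) r0_226 r11_300 (nat_lit 0) (nat_lit 5081711) (nat_lit 0) (nat_lit 0x2067102b8) (nat_lit 267155117),
  Rx.mk (nat_lit 197) (nat_lit 5) (nat_lit 0) (nat_lit 3) (nat_lit 5) (nat_lit 225) (nat_lit 302) r0_225 r11_302 (nat_lit 0) (nat_lit 4092761) (nat_lit 0) (nat_lit 0x1e23b5f10) (nat_lit 304294217),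
  Rx.mk (nat_lit 209) (nat_lit 1) (nat_lit 2) (nat_lit 3) (nat_lit 7) (nat_lit 227) (nat_lit 301) r0_227 r11_301 (nat_lit 0) (nat_lit 0) (nat_lit 0) (nat_lit 0x217fdbd96) (nat_lit 244045156)]
noncomputable def e38_21 : List Rx := [
  Rx.mk (nat_lit 77) (nat_lit 5) (nat_lit 1) (nat_lit 1) (nat_lit 7) (nat_lit 292) (nat_lit 249) r0_292 r9_249 (nat_lit 0) (nat_lit 0) (nat_lit 0) (nat_lit 0x20056d4f2) (nat_lit 268435456),
  Rx.mk (nat_lit 333) (nat_lit 5) (nat_lit 1) (nat_lit 5) (nat_lit 7) (nat_lit 291) (nat_lit 248) r0_291 r9_248 (nat_lit 0) (nat_lit 0) (nat_lit 0) (nat_lit 0x20056d4f2) (nat_lit 268435456)]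
noncomputable def e38_22 : List Rx := [
  Rx.mk (nat_lit 268) (nat_lit 4) (nat_lit 1) (nat_lit 4) (nat_lit 2) (nat_lit 248) (nat_lit 171) r0_248 r0_171 (nat_lit 748) (nat_lit 0) (nat_lit 205064910) (nat_lit 0x200021610) (nat_lit 473493114),
  Rx.mk (nat_lit 269) (nat_lit 5) (nat_lit 1) (nat_lit 4) (nat_lit 3) (nat_lit 249) (nat_lit 172) r0_249 r0_172 (nat_lit 0) (nat_lit 0) (nat_lit 120058012) (nat_lit 0x1f4928120) (nat_lit 400822818)]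
noncomputable def e38_23 : List Rx := [
  Rx.mk (nat_lit 268) (nat_lit 4) (nat_lit 1) (nat_lit 4) (nat_lit 2) (nat_lit 269) (nat_lit 179) r0_269 r1_179 (nat_lit 6663) (nat_lit 0) (nat_lit 224842397) (nat_lit 0x203c84418) (nat_lit 489417766),
  Rx.mk (nat_lit 269) (nat_lit 5) (nat_lit 1) (nat_lit 4) (nat_lit 3) (nat_lit 270) (nat_lit 181) r0_270 r1_181 (nat_lit 0) (nat_lit 0) (nat_lit 31547541) (nat_lit 0x20169be36) (nat_lit 298828947),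
  Rx.mk (nat_lit 300) (nat_lit 4) (nat_lit 5) (nat_lit 4) (nat_lit 2) (nat_lit 265) (nat_lit 180) r0_265 r1_180 (nat_lit 2915443) (nat_lit 0) (nat_lit 27431001) (nat_lit 0x1aee862ac) (nat_lit 385035350),
  Rx.mk (nat_lit 301) (nat_lit 5) (nat_lit 5) (nat_lit 4) (nat_lit 3) (nat_lit 266) (nat_lit 182) r0_266 r1_182 (nat_lit 0) (nat_lit 0) (nat_lit 13498567) (nat_lit 0x1febef980) (nat_lit 283586673),
  Rx.mk (nat_lit 302) (nat_lit 6) (nat_lit 5) (nat_lit 4) (nat_lit 3) (nat_lit 267) (nat_lit 183) r0_267 r1_183 (nat_lit 0) (nat_lit 0) (nat_lit 116538040) (nat_lit 0x22883d93e) (nat_lit 343677296),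
  Rx.mk (nat_lit 430) (nat_lit 6) (nat_lit 5) (nat_lit 6) (nat_lit 7) (nat_lit 268) (nat_lit 184) r0_268 r1_184 (nat_lit 0) (nat_lit 0) (nat_lit 0) (nat_lit 0x202a9392a) (nat_lit 265996306)]
noncomputable def e38_24 : List Rx := [
  Rx.mk (nat_lit 268) (nat_lit 4) (nat_lit 1) (nat_lit 4) (nat_lit 2) (nat_lit 318) (nat_lit 155) r0_318 r4_155 (nat_lit 682361) (nat_lit 0) (nat_lit 45897877) (nat_lit 0x1ac82f784) (nat_lit 403756194),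
  Rx.mk (nat_lit 269) (nat_lit 5) (nat_lit 1) (nat_lit 4) (nat_lit 3) (nat_lit 319) (nat_lit 156) r0_319 r4_156 (nat_lit 0) (nat_lit 0) (nat_lit 7646795) (nat_lit 0x1fdee8e30) (nat_lit 278562101),
  Rx.mk (nat_lit 460) (nat_lit 4) (nat_lit 1) (nat_lit 7) (nat_lit 6) (nat_lit 320) (nat_lit 157) r0_320 r4_157 (nat_lit 3950502) (nat_lit 0) (nat_lit 0) (nat_lit 0x1d80f113a) (nat_lit 314972808),
  Rx.mk (nat_lit 461) (nat_lit 5) (nat_lit 1) (nat_lit 7) (nat_lit 7) (nat_lit 321) (nat_lit 158) r0_321 r4_158 (nat_lit 0) (nat_lit 0) (nat_lit 0) (nat_lit 0x20aa8325c) (nat_lit 257764206)]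
noncomputable def e38_25 : List Rx := [
  Rx.mk (nat_lit 268) (nat_lit 4) (nat_lit 1) (nat_lit 4) (nat_lit 2) (nat_lit 250) (nat_lit 315) r0_250 r7_315 (nat_lit 6883560) (nat_lit 0) (nat_lit 12632886) (nat_lit 0x199f2c586) (nat_lit 396447552),
  Rx.mk (nat_lit 269) (nat_lit 5) (nat_lit 1) (nat_lit 4) (nat_lit 3) (nat_lit 251) (nat_lit 317) r0_251 r7_317 (nat_lit 0) (nat_lit 0) (nat_lit 10930595) (nat_lit 0x1f89b7ce0) (nat_lit 287476701),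
  Rx.mk (nat_lit 332) (nat_lit 4) (nat_lit 1) (nat_lit 5) (nat_lit 6) (nat_lit 252) (nat_lit 316) r0_252 r7_316 (nat_lit 10632780) (nat_lit 0) (nat_lit 0) (nat_lit 0x1d6c3a8b8) (nat_lit 323047586),
  Rx.mk (nat_lit 333) (nat_lit 5) (nat_lit 1) (nat_lit 5) (nat_lit 7) (nat_lit 253) (nat_lit 318) r0_253 r7_318 (nat_lit 0) (nat_lit 0) (nat_lit 0) (nat_lit 0x201f393fe) (nat_lit 266751706)]
noncomputable def e38_26 : List Rx := [
  Rx.mk (nat_lit 268) (nat_lit 4) (nat_lit 1) (nat_lit 4) (nat_lit 2) (nat_lit 278) (nat_lit 237) r0_278 r8_237 (nat_lit 4307608) (nat_lit 0) (nat_lit 11550315) (nat_lit 0x182dd78dc) (nat_lit 417310079),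
  Rx.mk (nat_lit 269) (nat_lit 5) (nat_lit 1) (nat_lit 4) (nat_lit 3) (nat_lit 279) (nat_lit 239) r0_279 r8_239 (nat_lit 0) (nat_lit 0) (nat_lit 9484367) (nat_lit 0x1fc24261e) (nat_lit 282306373),
  Rx.mk (nat_lit 300) (nat_lit 4) (nat_lit 5) (nat_lit 4) (nat_lit 2) (nat_lit 271) (nat_lit 230) r0_271 r8_230 (nat_lit 24990952) (nat_lit 0) (nat_lit 15685587) (nat_lit 0x16ee57b22) (nat_lit 463363445),
  Rx.mk (nat_lit 301) (nat_lit 5) (nat_lit 5) (nat_lit 4) (nat_lit 3) (nat_lit 272) (nat_lit 232) r0_272 r8_232 (nat_lit 0) (nat_lit 0) (nat_lit 13709057) (nat_lit 0x1e6527020) (nat_lit 309616313),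
  Rx.mk (nat_lit 302) (nat_lit 6) (nat_lit 5) (nat_lit 4) (nat_lit 3) (nat_lit 273) (nat_lit 234) r0_273 r8_234 (nat_lit 0) (nat_lit 0) (nat_lit 9484367) (nat_lit 0x1ffb35d36) (nat_lit 278585473),
  Rx.mk (nat_lit 332) (nat_lit 4) (nat_lit 1) (nat_lit 5) (nat_lit 6) (nat_lit 280) (nat_lit 238) r0_280 r8_238 (nat_lit 9900802) (nat_lit 0) (nat_lit 0) (nat_lit 0x1d302332a) (nat_lit 326302108),
  Rx.mk (nat_lit 333) (nat_lit 5) (nat_lit 1) (nat_lit 5) (nat_lit 7) (nat_lit 281) (nat_lit 240) r0_281 r8_240 (nat_lit 0) (nat_lit 0) (nat_lit 0) (nat_lit 0x2022bd70a) (nat_lit 266525506),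
  Rx.mk (nat_lit 364) (nat_lit 4) (nat_lit 5) (nat_lit 5) (nat_lit 6) (nat_lit 274) (nat_lit 231) r0_274 r8_231 (nat_lit 14687495) (nat_lit 0) (nat_lit 0) (nat_lit 0x1b66eebd6) (nat_lit 361425101),
  Rx.mk (nat_lit 365) (nat_lit 5) (nat_lit 5) (nat_lit 5) (nat_lit 7) (nat_lit 275) (nat_lit 233) r0_275 r8_233 (nat_lit 0) (nat_lit 0) (nat_lit 0) (nat_lit 0x1f8bb4142) (nat_lit 276413756),
  Rx.mk (nat_lit 366) (nat_lit 6) (nat_lit 5) (nat_lit 5) (nat_lit 7) (nat_lit 276) (nat_lit 235) r0_276 r8_235 (nat_lit 0) (nat_lit 0) (nat_lit 0) (nat_lit 0x1ff5fca0e) (nat_lit 269441006),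
  Rx.mk (nat_lit 430) (nat_lit 6) (nat_lit 5) (nat_lit 6) (nat_lit 7) (nat_lit 277) (nat_lit 236) r0_277 r8_236 (nat_lit 0) (nat_lit 0) (nat_lit 0) (nat_lit 0x20056d4f2) (nat_lit 268435456)]
noncomputable def e38_27 : List Rx := [
  Rx.mk (nat_lit 332) (nat_lit 4) (nat_lit 1) (nat_lit 5) (nat_lit 6) (nat_lit 289) (nat_lit 178) r0_289 r8_178 (nat_lit 10787644) (nat_lit 0) (nat_lit 0) (nat_lit 0x1b3ca9fb0) (nat_lit 360329100),
  Rx.mk (nat_lit 333) (nat_lit 5) (nat_lit 1) (nat_lit 5) (nat_lit 7) (nat_lit 290) (nat_lit 179) r0_290 r8_179 (nat_lit 0) (nat_lit 0) (nat_lit 0) (nat_lit 0x1ffe905b2) (nat_lit 268882256)]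
noncomputable def e38_28 : List Rx := [
  Rx.mk (nat_lit 268) (nat_lit 4) (nat_lit 1) (nat_lit 4) (nat_lit 2) (nat_lit 322) (nat_lit 273) r0_322 r10_273 (nat_lit 3170624) (nat_lit 0) (nat_lit 6194834) (nat_lit 0x1b029a6a8) (nat_lit 362703714),
  Rx.mk (nat_lit 269) (nat_lit 5) (nat_lit 1) (nat_lit 4) (nat_lit 3) (nat_lit 323) (nat_lit 276) r0_323 r10_276 (nat_lit 0) (nat_lit 0) (nat_lit 9422464) (nat_lit 0x1fade9d48) (nat_lit 283582920),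
  Rx.mk (nat_lit 332) (nat_lit 4) (nat_lit 1) (nat_lit 5) (nat_lit 6) (nat_lit 324) (nat_lit 274) r0_324 r10_274 (nat_lit 11321562) (nat_lit 0) (nat_lit 0) (nat_lit 0x1f9064e3a) (nat_lit 287426518),
  Rx.mk (nat_lit 333) (nat_lit 5) (nat_lit 1) (nat_lit 5) (nat_lit 7) (nat_lit 325) (nat_lit 277) r0_325 r10_277 (nat_lit 0) (nat_lit 0) (nat_lit 0) (nat_lit 0x202f5d6cc) (nat_lit 265708056),
  Rx.mk (nat_lit 460) (nat_lit 4) (nat_lit 1) (nat_lit 7) (nat_lit 6) (nat_lit 326) (nat_lit 275) r0_326 r10_275 (nat_lit 10331000) (nat_lit 0) (nat_lit 0) (nat_lit 0x1f9843af2) (nat_lit 285917906),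
  Rx.mk (nat_lit 461) (nat_lit 5) (nat_lit 1) (nat_lit 7) (nat_lit 7) (nat_lit 327) (nat_lit 278) r0_327 r10_278 (nat_lit 0) (nat_lit 0) (nat_lit 0) (nat_lit 0x20056d4f2) (nat_lit 268435456)]
noncomputable def e38_29 : List Rx := [
  Rx.mk (nat_lit 460) (nat_lit 4) (nat_lit 1) (nat_lit 7) (nat_lit 6) (nat_lit 328) (nat_lit 298) r0_328 r11_298 (nat_lit 7056473) (nat_lit 0) (nat_lit 0) (nat_lit 0x20022dd1e) (nat_lit 275697279),
  Rx.mk (nat_lit 461) (nat_lit 5) (nat_lit 1) (nat_lit 7) (nat_lit 7) (nat_lit 329) (nat_lit 299) r0_329 r11_299 (nat_lit 0) (nat_lit 0) (nat_lit 0) (nat_lit 0x201fffcf2) (nat_lit 266705806)]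
noncomputable def e38_30 : List Rx := [
  Rx.mk (nat_lit 197) (nat_lit 5) (nat_lit 0) (nat_lit 3) (nat_lit 5) (nat_lit 89) (nat_lit 61) r0_89 r5_61 (nat_lit 0) (nat_lit 4504495) (nat_lit 0) (nat_lit 0x1f3e5221e) (nat_lit 285962751),
  Rx.mk (nat_lit 221) (nat_lit 5) (nat_lit 3) (nat_lit 3) (nat_lit 7) (nat_lit 90) (nat_lit 62) r0_90 r5_62 (nat_lit 0) (nat_lit 0) (nat_lit 0) (nat_lit 0x21429c962) (nat_lit 247994206)]
noncomputable def e38_31 : List Rx := [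
  Rx.mk (nat_lit 5) (nat_lit 5) (nat_lit 0) (nat_lit 0) (nat_lit 1) (nat_lit 200) (nat_lit 37) r0_200 r11_37 (nat_lit 0) (nat_lit 54732365) (nat_lit 6365539) (nat_lit 0x1c36966d6) (nat_lit 394034560),
  Rx.mk (nat_lit 69) (nat_lit 5) (nat_lit 0) (nat_lit 1) (nat_lit 5) (nat_lit 201) (nat_lit 38) r0_201 r11_38 (nat_lit 0) (nat_lit 10035955) (nat_lit 0) (nat_lit 0x20209cdc2) (nat_lit 276689911),
  Rx.mk (nat_lit 197) (nat_lit 5) (nat_lit 0) (nat_lit 3) (nat_lit 5) (nat_lit 202) (nat_lit 39) r0_202 r11_39 (nat_lit 0) (nat_lit 57779837) (nat_lit 0) (nat_lit 0x2087d0944) (nat_lit 317723493),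
  Rx.mk (nat_lit 221) (nat_lit 5) (nat_lit 3) (nat_lit 3) (nat_lit 7) (nat_lit 203) (nat_lit 40) r0_203 r11_40 (nat_lit 0) (nat_lit 0) (nat_lit 0) (nat_lit 0x2192e072a) (nat_lit 242862556)]
noncomputable def e38_32 : List Rx := [
  Rx.mk (nat_lit 199) (nat_lit 7) (nat_lit 0) (nat_lit 3) (nat_lit 5) (nat_lit 231) (nat_lit 105) r0_231 r6_105 (nat_lit 0) (nat_lit 2529310) (nat_lit 0) (nat_lit 0x1e4d6bdfa) (nat_lit 299976366),
  Rx.mk (nat_lit 284) (nat_lit 4) (nat_lit 3) (nat_lit 4) (nat_lit 2) (nat_lit 232) (nat_lit 98) r0_232 r6_98 (nat_lit 38610) (nat_lit 0) (nat_lit 60415) (nat_lit 0x1ce8ca2c6) (nat_lit 321056381),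
  Rx.mk (nat_lit 285) (nat_lit 5) (nat_lit 3) (nat_lit 4) (nat_lit 3) (nat_lit 233) (nat_lit 101) r0_233 r6_101 (nat_lit 0) (nat_lit 0) (nat_lit 131306) (nat_lit 0x22f04eb90) (nat_lit 220495462),
  Rx.mk (nat_lit 452) (nat_lit 4) (nat_lit 0) (nat_lit 7) (nat_lit 4) (nat_lit 228) (nat_lit 99) r0_228 r6_99 (nat_lit 16044) (nat_lit 15494) (nat_lit 0) (nat_lit 0x1b76dfdd8) (nat_lit 345529294),
  Rx.mk (nat_lit 453) (nat_lit 5) (nat_lit 0) (nat_lit 7) (nat_lit 5) (nat_lit 229) (nat_lit 102) r0_229 r6_102 (nat_lit 0) (nat_lit 976590) (nat_lit 0) (nat_lit 0x234d34814) (nat_lit 215456696),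
  Rx.mk (nat_lit 455) (nat_lit 7) (nat_lit 0) (nat_lit 7) (nat_lit 5) (nat_lit 230) (nat_lit 104) r0_230 r6_104 (nat_lit 0) (nat_lit 3977399) (nat_lit 0) (nat_lit 0x1d9bca592) (nat_lit 313213855),
  Rx.mk (nat_lit 476) (nat_lit 4) (nat_lit 3) (nat_lit 7) (nat_lit 6) (nat_lit 234) (nat_lit 100) r0_234 r6_100 (nat_lit 2963373) (nat_lit 0) (nat_lit 0) (nat_lit 0x207a0588c) (nat_lit 263834079),
  Rx.mk (nat_lit 477) (nat_lit 5) (nat_lit 3) (nat_lit 7) (nat_lit 7) (nat_lit 235) (nat_lit 103) r0_235 r6_103 (nat_lit 0) (nat_lit 0) (nat_lit 0) (nat_lit 0x2506d06b4) (nat_lit 186321856)]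
noncomputable def e38_33 : List Rx := [
  Rx.mk (nat_lit 260) (nat_lit 4) (nat_lit 0) (nat_lit 4) (nat_lit 0) (nat_lit 330) (nat_lit 152) r0_330 r5_152 (nat_lit 473) (nat_lit 439) (nat_lit 69835031) (nat_lit 0x200002fd0) (nat_lit 338270949),
  Rx.mk (nat_lit 261) (nat_lit 5) (nat_lit 0) (nat_lit 4) (nat_lit 1) (nat_lit 331) (nat_lit 155) r0_331 r5_155 (nat_lit 0) (nat_lit 4486587) (nat_lit 3310166) (nat_lit 0x1fc554a14) (nat_lit 280349959),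
  Rx.mk (nat_lit 268) (nat_lit 4) (nat_lit 1) (nat_lit 4) (nat_lit 2) (nat_lit 335) (nat_lit 153) r0_335 r5_153 (nat_lit 4373304) (nat_lit 0) (nat_lit 34829005) (nat_lit 0x1d3bf12ec) (nat_lit 354784215),
  Rx.mk (nat_lit 269) (nat_lit 5) (nat_lit 1) (nat_lit 4) (nat_lit 3) (nat_lit 336) (nat_lit 156) r0_336 r5_156 (nat_lit 0) (nat_lit 0) (nat_lit 10297258) (nat_lit 0x1fb3eae4a) (nat_lit 284055964),
  Rx.mk (nat_lit 284) (nat_lit 4) (nat_lit 3) (nat_lit 4) (nat_lit 2) (nat_lit 340) (nat_lit 154) r0_340 r5_154 (nat_lit 530811) (nat_lit 0) (nat_lit 14285582) (nat_lit 0x1fcf982be) (nat_lit 286596799),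
  Rx.mk (nat_lit 285) (nat_lit 5) (nat_lit 3) (nat_lit 4) (nat_lit 3) (nat_lit 341) (nat_lit 157) r0_341 r5_157 (nat_lit 0) (nat_lit 0) (nat_lit 1426242) (nat_lit 0x1f874fb24) (nat_lit 278037498),
  Rx.mk (nat_lit 452) (nat_lit 4) (nat_lit 0) (nat_lit 7) (nat_lit 4) (nat_lit 332) (nat_lit 158) r0_332 r5_158 (nat_lit 2817616) (nat_lit 3538416) (nat_lit 0) (nat_lit 0x1c2323356) (nat_lit 340567738),
  Rx.mk (nat_lit 453) (nat_lit 5) (nat_lit 0) (nat_lit 7) (nat_lit 5) (nat_lit 333) (nat_lit 160) r0_333 r5_160 (nat_lit 0) (nat_lit 5672723) (nat_lit 0) (nat_lit 0x202926948) (nat_lit 271746229),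
  Rx.mk (nat_lit 455) (nat_lit 7) (nat_lit 0) (nat_lit 7) (nat_lit 5) (nat_lit 334) (nat_lit 162) r0_334 r5_162 (nat_lit 0) (nat_lit 7216955) (nat_lit 0) (nat_lit 0x1d79975a6) (nat_lit 318736661),
  Rx.mk (nat_lit 460) (nat_lit 4) (nat_lit 1) (nat_lit 7) (nat_lit 6) (nat_lit 337) (nat_lit 159) r0_337 r5_159 (nat_lit 4420229) (nat_lit 0) (nat_lit 0) (nat_lit 0x1f9a9dc12) (nat_lit 279829885),
  Rx.mk (nat_lit 461) (nat_lit 5) (nat_lit 1) (nat_lit 7) (nat_lit 7) (nat_lit 338) (nat_lit 161) r0_338 r5_161 (nat_lit 0) (nat_lit 0) (nat_lit 0) (nat_lit 0x201dc6788) (nat_lit 266850056),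
  Rx.mk (nat_lit 463) (nat_lit 7) (nat_lit 1) (nat_lit 7) (nat_lit 7) (nat_lit 339) (nat_lit 163) r0_339 r5_163 (nat_lit 0) (nat_lit 0) (nat_lit 0) (nat_lit 0x203fca38e) (nat_lit 264643506)]
noncomputable def e38_34 : List Rx := [
  Rx.mk (nat_lit 260) (nat_lit 4) (nat_lit 0) (nat_lit 4) (nat_lit 0) (nat_lit 342) (nat_lit 165) r0_342 r11_165 (nat_lit 8466519) (nat_lit 5049713) (nat_lit 14627977) (nat_lit 0x1785739c0) (nat_lit 440788215),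
  Rx.mk (nat_lit 261) (nat_lit 5) (nat_lit 0) (nat_lit 4) (nat_lit 1) (nat_lit 343) (nat_lit 168) r0_343 r11_168 (nat_lit 0) (nat_lit 47226542) (nat_lit 7618608) (nat_lit 0x1f34ba8aa) (nat_lit 336986356),
  Rx.mk (nat_lit 268) (nat_lit 4) (nat_lit 1) (nat_lit 4) (nat_lit 2) (nat_lit 349) (nat_lit 166) r0_349 r11_166 (nat_lit 7338378) (nat_lit 0) (nat_lit 30727633) (nat_lit 0x1ea3cd702) (nat_lit 329808917),
  Rx.mk (nat_lit 269) (nat_lit 5) (nat_lit 1) (nat_lit 4) (nat_lit 3) (nat_lit 350) (nat_lit 169) r0_350 r11_169 (nat_lit 0) (nat_lit 0) (nat_lit 9484367) (nat_lit 0x20056d4f2) (nat_lit 277919823),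
  Rx.mk (nat_lit 284) (nat_lit 4) (nat_lit 3) (nat_lit 4) (nat_lit 2) (nat_lit 356) (nat_lit 167) r0_356 r11_167 (nat_lit 11130106) (nat_lit 0) (nat_lit 12626977) (nat_lit 0x1f556d688) (nat_lit 303736289),
  Rx.mk (nat_lit 285) (nat_lit 5) (nat_lit 3) (nat_lit 4) (nat_lit 3) (nat_lit 357) (nat_lit 170) r0_357 r11_170 (nat_lit 0) (nat_lit 0) (nat_lit 5043943) (nat_lit 0x20722e604) (nat_lit 266431999),
  Rx.mk (nat_lit 324) (nat_lit 4) (nat_lit 0) (nat_lit 5) (nat_lit 4) (nat_lit 344) (nat_lit 171) r0_344 r11_171 (nat_lit 11117765) (nat_lit 26026765) (nat_lit 0) (nat_lit 0x1e895a6e0) (nat_lit 330636636),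
  Rx.mk (nat_lit 325) (nat_lit 5) (nat_lit 0) (nat_lit 5) (nat_lit 5) (nat_lit 345) (nat_lit 174) r0_345 r11_174 (nat_lit 0) (nat_lit 39878874) (nat_lit 0) (nat_lit 0x1f508030a) (nat_lit 320158280),
  Rx.mk (nat_lit 332) (nat_lit 4) (nat_lit 1) (nat_lit 5) (nat_lit 6) (nat_lit 351) (nat_lit 172) r0_351 r11_172 (nat_lit 9484367) (nat_lit 0) (nat_lit 0) (nat_lit 0x20056d4f2) (nat_lit 277919823),
  Rx.mk (nat_lit 333) (nat_lit 5) (nat_lit 1) (nat_lit 5) (nat_lit 7) (nat_lit 352) (nat_lit 175) r0_352 r11_175 (nat_lit 0) (nat_lit 0) (nat_lit 0) (nat_lit 0x2027076bc) (nat_lit 266249356),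
  Rx.mk (nat_lit 348) (nat_lit 4) (nat_lit 3) (nat_lit 5) (nat_lit 6) (nat_lit 358) (nat_lit 173) r0_358 r11_173 (nat_lit 7551605) (nat_lit 0) (nat_lit 0) (nat_lit 0x2023d3d1a) (nat_lit 274003461),
  Rx.mk (nat_lit 349) (nat_lit 5) (nat_lit 3) (nat_lit 5) (nat_lit 7) (nat_lit 359) (nat_lit 176) r0_359 r11_176 (nat_lit 0) (nat_lit 0) (nat_lit 0) (nat_lit 0x210e26124) (nat_lit 251360656),
  Rx.mk (nat_lit 452) (nat_lit 4) (nat_lit 0) (nat_lit 7) (nat_lit 4) (nat_lit 346) (nat_lit 177) r0_346 r11_177 (nat_lit 12075733) (nat_lit 11887713) (nat_lit 0) (nat_lit 0x1eb247a26) (nat_lit 314760552),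
  Rx.mk (nat_lit 453) (nat_lit 5) (nat_lit 0) (nat_lit 7) (nat_lit 5) (nat_lit 347) (nat_lit 179) r0_347 r11_179 (nat_lit 0) (nat_lit 9484367) (nat_lit 0) (nat_lit 0x2059b896c) (nat_lit 272450673),
  Rx.mk (nat_lit 455) (nat_lit 7) (nat_lit 0) (nat_lit 7) (nat_lit 5) (nat_lit 348) (nat_lit 181) r0_348 r11_181 (nat_lit 0) (nat_lit 9484367) (nat_lit 0) (nat_lit 0x1f84a366e) (nat_lit 286360823),
  Rx.mk (nat_lit 460) (nat_lit 4) (nat_lit 1) (nat_lit 7) (nat_lit 6) (nat_lit 353) (nat_lit 178) r0_353 r11_178 (nat_lit 6887100) (nat_lit 0) (nat_lit 0) (nat_lit 0x2015d3daa) (nat_lit 274247906),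
  Rx.mk (nat_lit 461) (nat_lit 5) (nat_lit 1) (nat_lit 7) (nat_lit 7) (nat_lit 354) (nat_lit 180) r0_354 r11_180 (nat_lit 0) (nat_lit 0) (nat_lit 0) (nat_lit 0x20056d4f2) (nat_lit 268435456),
  Rx.mk (nat_lit 463) (nat_lit 7) (nat_lit 1) (nat_lit 7) (nat_lit 7) (nat_lit 355) (nat_lit 182) r0_355 r11_182 (nat_lit 0) (nat_lit 0) (nat_lit 0) (nat_lit 0x202a4c502) (nat_lit 266036856)]
noncomputable def e38_35 : List Rx := [
  Rx.mk (nat_lit 196) (nat_lit 4) (nat_lit 0) (nat_lit 3) (nat_lit 4) (nat_lit 82) (nat_lit 0) r0_82 r6_0 (nat_lit 196429) (nat_lit 281735) (nat_lit 0) (nat_lit 0x185106fa6) (nat_lit 399502620),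
  Rx.mk (nat_lit 197) (nat_lit 5) (nat_lit 0) (nat_lit 3) (nat_lit 5) (nat_lit 83) (nat_lit 1) r0_83 r6_1 (nat_lit 0) (nat_lit 5413605) (nat_lit 0) (nat_lit 0x1f06f7d78) (nat_lit 290569961),
  Rx.mk (nat_lit 199) (nat_lit 7) (nat_lit 0) (nat_lit 3) (nat_lit 5) (nat_lit 84) (nat_lit 2) r0_84 r6_2 (nat_lit 0) (nat_lit 2973175) (nat_lit 0) (nat_lit 0x1e042fbe6) (nat_lit 305284081),
  Rx.mk (nat_lit 220) (nat_lit 4) (nat_lit 3) (nat_lit 3) (nat_lit 6) (nat_lit 87) (nat_lit 3) r0_87 r6_3 (nat_lit 3576524) (nat_lit 0) (nat_lit 0) (nat_lit 0x1f64ded74) (nat_lit 282524430),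
  Rx.mk (nat_lit 221) (nat_lit 5) (nat_lit 3) (nat_lit 3) (nat_lit 7) (nat_lit 88) (nat_lit 4) r0_88 r6_4 (nat_lit 0) (nat_lit 0) (nat_lit 0) (nat_lit 0x22fcdb1ec) (nat_lit 219708606),
  Rx.mk (nat_lit 476) (nat_lit 4) (nat_lit 3) (nat_lit 7) (nat_lit 6) (nat_lit 85) (nat_lit 5) r0_85 r6_5 (nat_lit 1207477) (nat_lit 0) (nat_lit 0) (nat_lit 0x21257ed80) (nat_lit 251038333),
  Rx.mk (nat_lit 477) (nat_lit 5) (nat_lit 3) (nat_lit 7) (nat_lit 7) (nat_lit 86) (nat_lit 6) r0_86 r6_6 (nat_lit 0) (nat_lit 0) (nat_lit 0) (nat_lit 0x242f3f128) (nat_lit 200086356)]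
noncomputable def e38_36 : List Rx := [
  Rx.mk (nat_lit 196) (nat_lit 4) (nat_lit 0) (nat_lit 3) (nat_lit 4) (nat_lit 238) (nat_lit 325) r0_238 r12_325 (nat_lit 65380) (nat_lit 96469) (nat_lit 0) (nat_lit 0x18a8c6ef8) (nat_lit 393333155),
  Rx.mk (nat_lit 197) (nat_lit 5) (nat_lit 0) (nat_lit 3) (nat_lit 5) (nat_lit 239) (nat_lit 328) r0_239 r12_328 (nat_lit 0) (nat_lit 4326039) (nat_lit 0) (nat_lit 0x1f34cc8b6) (nat_lit 286329845),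
  Rx.mk (nat_lit 199) (nat_lit 7) (nat_lit 0) (nat_lit 3) (nat_lit 5) (nat_lit 240) (nat_lit 331) r0_240 r12_331 (nat_lit 0) (nat_lit 826648) (nat_lit 0) (nat_lit 0x1cf75fa98) (nat_lit 320912104),
  Rx.mk (nat_lit 452) (nat_lit 4) (nat_lit 0) (nat_lit 7) (nat_lit 4) (nat_lit 236) (nat_lit 326) r0_236 r12_326 (nat_lit 13849) (nat_lit 17287) (nat_lit 0) (nat_lit 0x1a39bb7e6) (nat_lit 366576142),
  Rx.mk (nat_lit 453) (nat_lit 5) (nat_lit 0) (nat_lit 7) (nat_lit 5) (nat_lit 237) (nat_lit 329) r0_237 r12_329 (nat_lit 0) (nat_lit 11007) (nat_lit 0) (nat_lit 0x23e1eb872) (nat_lit 204899413),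
  Rx.mk (nat_lit 476) (nat_lit 4) (nat_lit 3) (nat_lit 7) (nat_lit 6) (nat_lit 241) (nat_lit 327) r0_241 r12_327 (nat_lit 1422249) (nat_lit 0) (nat_lit 0) (nat_lit 0x20c524b88) (nat_lit 257436105),
  Rx.mk (nat_lit 477) (nat_lit 5) (nat_lit 3) (nat_lit 7) (nat_lit 7) (nat_lit 242) (nat_lit 330) r0_242 r12_330 (nat_lit 0) (nat_lit 0) (nat_lit 0) (nat_lit 0x2607f22a8) (nat_lit 169854606)]
noncomputable def e38_37 : List Rx := [
  Rx.mk (nat_lit 294) (nat_lit 6) (nat_lit 4) (nat_lit 4) (nat_lit 1) (nat_lit 91) (nat_lit 94) r0_91 r0_94 (nat_lit 0) (nat_lit 1628884) (nat_lit 60842100) (nat_lit 0x1ac63eefc) (nat_lit 419815890),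
  Rx.mk (nat_lit 316) (nat_lit 4) (nat_lit 7) (nat_lit 4) (nat_lit 2) (nat_lit 94) (nat_lit 91) r0_94 r0_91 (nat_lit 1628884) (nat_lit 0) (nat_lit 60842100) (nat_lit 0x1ac63eefc) (nat_lit 419815890),
  Rx.mk (nat_lit 318) (nat_lit 6) (nat_lit 7) (nat_lit 4) (nat_lit 3) (nat_lit 95) (nat_lit 95) r0_95 r0_95 (nat_lit 0) (nat_lit 0) (nat_lit 45985386) (nat_lit 0x204996d54) (nat_lit 309979092),
  Rx.mk (nat_lit 422) (nat_lit 6) (nat_lit 4) (nat_lit 6) (nat_lit 5) (nat_lit 92) (nat_lit 97) r0_92 r0_97 (nat_lit 0) (nat_lit 9463670) (nat_lit 0) (nat_lit 0x1b81c5de2) (nat_lit 354415976),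
  Rx.mk (nat_lit 438) (nat_lit 6) (nat_lit 6) (nat_lit 6) (nat_lit 7) (nat_lit 93) (nat_lit 99) r0_93 r0_99 (nat_lit 0) (nat_lit 0) (nat_lit 0) (nat_lit 0x1fdac48ea) (nat_lit 271218956),
  Rx.mk (nat_lit 446) (nat_lit 6) (nat_lit 7) (nat_lit 6) (nat_lit 7) (nat_lit 96) (nat_lit 98) r0_96 r0_98 (nat_lit 0) (nat_lit 0) (nat_lit 0) (nat_lit 0x20167bdc0) (nat_lit 267324756),
  Rx.mk (nat_lit 508) (nat_lit 4) (nat_lit 7) (nat_lit 7) (nat_lit 6) (nat_lit 97) (nat_lit 92) r0_97 r0_92 (nat_lit 9463670) (nat_lit 0) (nat_lit 0) (nat_lit 0x1b81c5de2) (nat_lit 354415976),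
  Rx.mk (nat_lit 510) (nat_lit 6) (nat_lit 7) (nat_lit 7) (nat_lit 7) (nat_lit 98) (nat_lit 96) r0_98 r0_96 (nat_lit 0) (nat_lit 0) (nat_lit 0) (nat_lit 0x20167bdc0) (nat_lit 267324756),
  Rx.mk (nat_lit 511) (nat_lit 7) (nat_lit 7) (nat_lit 7) (nat_lit 7) (nat_lit 99) (nat_lit 93) r0_99 r0_93 (nat_lit 0) (nat_lit 0) (nat_lit 0) (nat_lit 0x1fdac48ea) (nat_lit 271218956)]
noncomputable def e38_38 : List Rx := [
  Rx.mk (nat_lit 16) (nat_lit 0) (nat_lit 2) (nat_lit 0) (nat_lit 2) (nat_lit 11) (nat_lit 4) r0_11 r0_4 (nat_lit 386) (nat_lit 0) (nat_lit 488) (nat_lit 0x1fffea2a0) (nat_lit 268442230),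
  Rx.mk (nat_lit 19) (nat_lit 3) (nat_lit 2) (nat_lit 0) (nat_lit 3) (nat_lit 12) (nat_lit 5) r0_12 r0_5 (nat_lit 0) (nat_lit 0) (nat_lit 652718) (nat_lit 0x1cc51c770) (nat_lit 324049624),
  Rx.mk (nat_lit 144) (nat_lit 0) (nat_lit 2) (nat_lit 2) (nat_lit 6) (nat_lit 13) (nat_lit 7) r0_13 r0_7 (nat_lit 719) (nat_lit 0) (nat_lit 0) (nat_lit 0x21a732c8c) (nat_lit 241379425),
  Rx.mk (nat_lit 146) (nat_lit 2) (nat_lit 2) (nat_lit 2) (nat_lit 7) (nat_lit 14) (nat_lit 9) r0_14 r0_9 (nat_lit 0) (nat_lit 0) (nat_lit 0) (nat_lit 0x1f2e154d2) (nat_lit 282588656),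
  Rx.mk (nat_lit 147) (nat_lit 3) (nat_lit 2) (nat_lit 2) (nat_lit 7) (nat_lit 15) (nat_lit 8) r0_15 r0_8 (nat_lit 0) (nat_lit 0) (nat_lit 0) (nat_lit 0x200b040dc) (nat_lit 268060406),
  Rx.mk (nat_lit 178) (nat_lit 2) (nat_lit 6) (nat_lit 2) (nat_lit 7) (nat_lit 3) (nat_lit 17) r0_3 r0_17 (nat_lit 0) (nat_lit 0) (nat_lit 0) (nat_lit 0x1f706ec5c) (nat_lit 278205956),
  Rx.mk (nat_lit 195) (nat_lit 3) (nat_lit 0) (nat_lit 3) (nat_lit 5) (nat_lit 10) (nat_lit 0) r0_10 r0_0 (nat_lit 0) (nat_lit 5471) (nat_lit 0) (nat_lit 0x1bae1cfda) (nat_lit 341835427),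
  Rx.mk (nat_lit 211) (nat_lit 3) (nat_lit 2) (nat_lit 3) (nat_lit 7) (nat_lit 16) (nat_lit 6) r0_16 r0_6 (nat_lit 0) (nat_lit 0) (nat_lit 0) (nat_lit 0x1fffd8ce4) (nat_lit 268446456),
  Rx.mk (nat_lit 219) (nat_lit 3) (nat_lit 3) (nat_lit 3) (nat_lit 7) (nat_lit 19) (nat_lit 1) r0_19 r0_1 (nat_lit 0) (nat_lit 0) (nat_lit 0) (nat_lit 0x1e0c3e6d4) (nat_lit 301686606),
  Rx.mk (nat_lit 223) (nat_lit 7) (nat_lit 3) (nat_lit 3) (nat_lit 7) (nat_lit 18) (nat_lit 2) r0_18 r0_2 (nat_lit 0) (nat_lit 0) (nat_lit 0) (nat_lit 0x1f323f396) (nat_lit 282197306),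
  Rx.mk (nat_lit 316) (nat_lit 4) (nat_lit 7) (nat_lit 4) (nat_lit 2) (nat_lit 4) (nat_lit 11) r0_4 r0_11 (nat_lit 386) (nat_lit 0) (nat_lit 488) (nat_lit 0x1fffea2a0) (nat_lit 268442230),
  Rx.mk (nat_lit 318) (nat_lit 6) (nat_lit 7) (nat_lit 4) (nat_lit 3) (nat_lit 5) (nat_lit 12) r0_5 r0_12 (nat_lit 0) (nat_lit 0) (nat_lit 652718) (nat_lit 0x1cc51c770) (nat_lit 324049624),
  Rx.mk (nat_lit 422) (nat_lit 6) (nat_lit 4) (nat_lit 6) (nat_lit 5) (nat_lit 0) (nat_lit 10) r0_0 r0_10 (nat_lit 0) (nat_lit 5471) (nat_lit 0) (nat_lit 0x1bae1cfda) (nat_lit 341835427),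
  Rx.mk (nat_lit 434) (nat_lit 2) (nat_lit 6) (nat_lit 6) (nat_lit 7) (nat_lit 2) (nat_lit 18) r0_2 r0_18 (nat_lit 0) (nat_lit 0) (nat_lit 0) (nat_lit 0x1f323f396) (nat_lit 282197306),
  Rx.mk (nat_lit 438) (nat_lit 6) (nat_lit 6) (nat_lit 6) (nat_lit 7) (nat_lit 1) (nat_lit 19) r0_1 r0_19 (nat_lit 0) (nat_lit 0) (nat_lit 0) (nat_lit 0x1e0c3e6d4) (nat_lit 301686606),
  Rx.mk (nat_lit 446) (nat_lit 6) (nat_lit 7) (nat_lit 6) (nat_lit 7) (nat_lit 6) (nat_lit 16) r0_6 r0_16 (nat_lit 0) (nat_lit 0) (nat_lit 0) (nat_lit 0x1fffd8ce4) (nat_lit 268446456),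
  Rx.mk (nat_lit 479) (nat_lit 7) (nat_lit 3) (nat_lit 7) (nat_lit 7) (nat_lit 17) (nat_lit 3) r0_17 r0_3 (nat_lit 0) (nat_lit 0) (nat_lit 0) (nat_lit 0x1f706ec5c) (nat_lit 278205956),
  Rx.mk (nat_lit 508) (nat_lit 4) (nat_lit 7) (nat_lit 7) (nat_lit 6) (nat_lit 7) (nat_lit 13) r0_7 r0_13 (nat_lit 719) (nat_lit 0) (nat_lit 0) (nat_lit 0x21a732c8c) (nat_lit 241379425),
  Rx.mk (nat_lit 510) (nat_lit 6) (nat_lit 7) (nat_lit 7) (nat_lit 7) (nat_lit 8) (nat_lit 15) r0_8 r0_15 (nat_lit 0) (nat_lit 0) (nat_lit 0) (nat_lit 0x200b040dc) (nat_lit 268060406),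
  Rx.mk (nat_lit 511) (nat_lit 7) (nat_lit 7) (nat_lit 7) (nat_lit 7) (nat_lit 9) (nat_lit 14) r0_9 r0_14 (nat_lit 0) (nat_lit 0) (nat_lit 0) (nat_lit 0x1f2e154d2) (nat_lit 282588656)]
noncomputable def e38_39 : List Rx := [
  Rx.mk (nat_lit 178) (nat_lit 2) (nat_lit 6) (nat_lit 2) (nat_lit 7) (nat_lit 104) (nat_lit 103) r0_104 r7_103 (nat_lit 0) (nat_lit 0) (nat_lit 0) (nat_lit 0x20055e1a0) (nat_lit 268437306),
  Rx.mk (nat_lit 294) (nat_lit 6) (nat_lit 4) (nat_lit 4) (nat_lit 1) (nat_lit 100) (nat_lit 96) r0_100 r7_96 (nat_lit 0) (nat_lit 4635726) (nat_lit 10175790) (nat_lit 0x1840136ea) (nat_lit 415072972),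
  Rx.mk (nat_lit 316) (nat_lit 4) (nat_lit 7) (nat_lit 4) (nat_lit 2) (nat_lit 105) (nat_lit 93) r0_105 r7_93 (nat_lit 121405) (nat_lit 0) (nat_lit 991673) (nat_lit 0x190ff0958) (nat_lit 387448234),
  Rx.mk (nat_lit 318) (nat_lit 6) (nat_lit 7) (nat_lit 4) (nat_lit 3) (nat_lit 106) (nat_lit 97) r0_106 r7_97 (nat_lit 0) (nat_lit 0) (nat_lit 27844967) (nat_lit 0x1fd250a9c) (nat_lit 299584973),
  Rx.mk (nat_lit 422) (nat_lit 6) (nat_lit 4) (nat_lit 6) (nat_lit 5) (nat_lit 101) (nat_lit 99) r0_101 r7_99 (nat_lit 0) (nat_lit 4240931) (nat_lit 0) (nat_lit 0x1bf1985a2) (nat_lit 341762337),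
  Rx.mk (nat_lit 434) (nat_lit 2) (nat_lit 6) (nat_lit 6) (nat_lit 7) (nat_lit 103) (nat_lit 102) r0_103 r7_102 (nat_lit 0) (nat_lit 0) (nat_lit 0) (nat_lit 0x20056d4f2) (nat_lit 268435456),
  Rx.mk (nat_lit 438) (nat_lit 6) (nat_lit 6) (nat_lit 6) (nat_lit 7) (nat_lit 102) (nat_lit 101) r0_102 r7_101 (nat_lit 0) (nat_lit 0) (nat_lit 0) (nat_lit 0x1efe441c2) (nat_lit 285762006),
  Rx.mk (nat_lit 446) (nat_lit 6) (nat_lit 7) (nat_lit 6) (nat_lit 7) (nat_lit 107) (nat_lit 100) r0_107 r7_100 (nat_lit 0) (nat_lit 0) (nat_lit 0) (nat_lit 0x1fe528a70) (nat_lit 270533656),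
  Rx.mk (nat_lit 508) (nat_lit 4) (nat_lit 7) (nat_lit 7) (nat_lit 6) (nat_lit 108) (nat_lit 94) r0_108 r7_94 (nat_lit 4501915) (nat_lit 0) (nat_lit 0) (nat_lit 0x1cfdf132a) (nat_lit 324222321),
  Rx.mk (nat_lit 510) (nat_lit 6) (nat_lit 7) (nat_lit 7) (nat_lit 7) (nat_lit 109) (nat_lit 98) r0_109 r7_98 (nat_lit 0) (nat_lit 0) (nat_lit 0) (nat_lit 0x20249e1b4) (nat_lit 266405506),
  Rx.mk (nat_lit 511) (nat_lit 7) (nat_lit 7) (nat_lit 7) (nat_lit 7) (nat_lit 110) (nat_lit 95) r0_110 r7_95 (nat_lit 0) (nat_lit 0) (nat_lit 0) (nat_lit 0x1fe8175a6) (nat_lit 270347556)]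
noncomputable def e38_40 : List Rx := [
  Rx.mk (nat_lit 16) (nat_lit 0) (nat_lit 2) (nat_lit 0) (nat_lit 2) (nat_lit 34) (nat_lit 4) r0_34 r2_4 (nat_lit 813893) (nat_lit 0) (nat_lit 1671764) (nat_lit 0x19c19e614) (nat_lit 377108313),
  Rx.mk (nat_lit 17) (nat_lit 1) (nat_lit 2) (nat_lit 0) (nat_lit 3) (nat_lit 35) (nat_lit 5) r0_35 r2_5 (nat_lit 0) (nat_lit 0) (nat_lit 10441397) (nat_lit 0x1fa2a4a28) (nat_lit 285340053),
  Rx.mk (nat_lit 144) (nat_lit 0) (nat_lit 2) (nat_lit 2) (nat_lit 6) (nat_lit 36) (nat_lit 9) r0_36 r2_9 (nat_lit 5691868) (nat_lit 0) (nat_lit 0) (nat_lit 0x1f50a2202) (nat_lit 285995074),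
  Rx.mk (nat_lit 145) (nat_lit 1) (nat_lit 2) (nat_lit 2) (nat_lit 7) (nat_lit 37) (nat_lit 10) r0_37 r2_10 (nat_lit 0) (nat_lit 0) (nat_lit 0) (nat_lit 0x1ffc2f214) (nat_lit 269036706),
  Rx.mk (nat_lit 146) (nat_lit 2) (nat_lit 2) (nat_lit 2) (nat_lit 7) (nat_lit 38) (nat_lit 11) r0_38 r2_11 (nat_lit 0) (nat_lit 0) (nat_lit 0) (nat_lit 0x2013deebe) (nat_lit 267490256),
  Rx.mk (nat_lit 178) (nat_lit 2) (nat_lit 6) (nat_lit 2) (nat_lit 7) (nat_lit 30) (nat_lit 12) r0_30 r2_12 (nat_lit 0) (nat_lit 0) (nat_lit 0) (nat_lit 0x1ffdc5ed4) (nat_lit 268933606),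
  Rx.mk (nat_lit 192) (nat_lit 0) (nat_lit 0) (nat_lit 3) (nat_lit 4) (nat_lit 31) (nat_lit 0) r0_31 r2_0 (nat_lit 294663) (nat_lit 349407) (nat_lit 0) (nat_lit 0x19a17a64e) (nat_lit 377353876),
  Rx.mk (nat_lit 193) (nat_lit 1) (nat_lit 0) (nat_lit 3) (nat_lit 5) (nat_lit 32) (nat_lit 1) r0_32 r2_1 (nat_lit 0) (nat_lit 3951197) (nat_lit 0) (nat_lit 0x1fb1bfb20) (nat_lit 277838903),
  Rx.mk (nat_lit 195) (nat_lit 3) (nat_lit 0) (nat_lit 3) (nat_lit 5) (nat_lit 33) (nat_lit 2) r0_33 r2_2 (nat_lit 0) (nat_lit 7471693) (nat_lit 0) (nat_lit 0x1fd740098) (nat_lit 278900949),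
  Rx.mk (nat_lit 208) (nat_lit 0) (nat_lit 2) (nat_lit 3) (nat_lit 6) (nat_lit 39) (nat_lit 6) r0_39 r2_6 (nat_lit 267483) (nat_lit 0) (nat_lit 0) (nat_lit 0x2090e0ad4) (nat_lit 259516689),
  Rx.mk (nat_lit 209) (nat_lit 1) (nat_lit 2) (nat_lit 3) (nat_lit 7) (nat_lit 40) (nat_lit 7) r0_40 r2_7 (nat_lit 0) (nat_lit 0) (nat_lit 0) (nat_lit 0x23e3f71fc) (nat_lit 204928556),
  Rx.mk (nat_lit 211) (nat_lit 3) (nat_lit 2) (nat_lit 3) (nat_lit 7) (nat_lit 41) (nat_lit 8) r0_41 r2_8 (nat_lit 0) (nat_lit 0) (nat_lit 0) (nat_lit 0x240278928) (nat_lit 202977506),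
  Rx.mk (nat_lit 219) (nat_lit 3) (nat_lit 3) (nat_lit 3) (nat_lit 7) (nat_lit 42) (nat_lit 3) r0_42 r2_3 (nat_lit 0) (nat_lit 0) (nat_lit 0) (nat_lit 0x2086fe548) (nat_lit 260050456)]
noncomputable def e38_41 : List Rx := [
  Rx.mk (nat_lit 178) (nat_lit 2) (nat_lit 6) (nat_lit 2) (nat_lit 7) (nat_lit 141) (nat_lit 0) r0_141 r9_0 (nat_lit 0) (nat_lit 0) (nat_lit 0) (nat_lit 0x20056d4f2) (nat_lit 268435456)]
noncomputable def e38_42 : List Rx := [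
  Rx.mk (nat_lit 0) (nat_lit 0) (nat_lit 0) (nat_lit 0) (nat_lit 0) (nat_lit 155) (nat_lit 23) r0_155 r9_23 (nat_lit 1269390) (nat_lit 2742121) (nat_lit 1767760) (nat_lit 0xae741146) (nat_lit 632770227),
  Rx.mk (nat_lit 1) (nat_lit 1) (nat_lit 0) (nat_lit 0) (nat_lit 1) (nat_lit 156) (nat_lit 24) r0_156 r9_24 (nat_lit 0) (nat_lit 7764799) (nat_lit 7054152) (nat_lit 0x15828a382) (nat_lit 461644607),
  Rx.mk (nat_lit 16) (nat_lit 0) (nat_lit 2) (nat_lit 0) (nat_lit 2) (nat_lit 161) (nat_lit 25) r0_161 r9_25 (nat_lit 2545546) (nat_lit 0) (nat_lit 3092091) (nat_lit 0x173fde9d2) (nat_lit 422891393),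
  Rx.mk (nat_lit 17) (nat_lit 1) (nat_lit 2) (nat_lit 0) (nat_lit 3) (nat_lit 162) (nat_lit 26) r0_162 r9_26 (nat_lit 0) (nat_lit 0) (nat_lit 9033993) (nat_lit 0x1ee42aec6) (nat_lit 296521849),
  Rx.mk (nat_lit 65) (nat_lit 1) (nat_lit 0) (nat_lit 1) (nat_lit 5) (nat_lit 157) (nat_lit 27) r0_157 r9_27 (nat_lit 0) (nat_lit 11270394) (nat_lit 0) (nat_lit 0x1e52d84be) (nat_lit 308387900),
  Rx.mk (nat_lit 81) (nat_lit 1) (nat_lit 2) (nat_lit 1) (nat_lit 7) (nat_lit 163) (nat_lit 28) r0_163 r9_28 (nat_lit 0) (nat_lit 0) (nat_lit 0) (nat_lit 0x20056d4f2) (nat_lit 268435456),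
  Rx.mk (nat_lit 144) (nat_lit 0) (nat_lit 2) (nat_lit 2) (nat_lit 6) (nat_lit 164) (nat_lit 37) r0_164 r9_37 (nat_lit 8810507) (nat_lit 0) (nat_lit 0) (nat_lit 0x1f318ee42) (nat_lit 291178113),
  Rx.mk (nat_lit 145) (nat_lit 1) (nat_lit 2) (nat_lit 2) (nat_lit 7) (nat_lit 165) (nat_lit 38) r0_165 r9_38 (nat_lit 0) (nat_lit 0) (nat_lit 0) (nat_lit 0x20056d4f2) (nat_lit 268435456),
  Rx.mk (nat_lit 146) (nat_lit 2) (nat_lit 2) (nat_lit 2) (nat_lit 7) (nat_lit 166) (nat_lit 39) r0_166 r9_39 (nat_lit 0) (nat_lit 0) (nat_lit 0) (nat_lit 0x20056d4f2) (nat_lit 268435456),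
  Rx.mk (nat_lit 178) (nat_lit 2) (nat_lit 6) (nat_lit 2) (nat_lit 7) (nat_lit 154) (nat_lit 36) r0_154 r9_36 (nat_lit 0) (nat_lit 0) (nat_lit 0) (nat_lit 0x20056d4f2) (nat_lit 268435456),
  Rx.mk (nat_lit 192) (nat_lit 0) (nat_lit 0) (nat_lit 3) (nat_lit 4) (nat_lit 158) (nat_lit 29) r0_158 r9_29 (nat_lit 3035981) (nat_lit 17383273) (nat_lit 0) (nat_lit 0x15db1204a) (nat_lit 461356660),
  Rx.mk (nat_lit 193) (nat_lit 1) (nat_lit 0) (nat_lit 3) (nat_lit 5) (nat_lit 159) (nat_lit 30) r0_159 r9_30 (nat_lit 0) (nat_lit 22707758) (nat_lit 0) (nat_lit 0x1eef51020) (nat_lit 309447014),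
  Rx.mk (nat_lit 195) (nat_lit 3) (nat_lit 0) (nat_lit 3) (nat_lit 5) (nat_lit 160) (nat_lit 31) r0_160 r9_31 (nat_lit 0) (nat_lit 36568253) (nat_lit 0) (nat_lit 0x1f05c5ed2) (nat_lit 321832559),
  Rx.mk (nat_lit 208) (nat_lit 0) (nat_lit 2) (nat_lit 3) (nat_lit 6) (nat_lit 167) (nat_lit 33) r0_167 r9_33 (nat_lit 7106347) (nat_lit 0) (nat_lit 0) (nat_lit 0x1fd785e5e) (nat_lit 278532703),
  Rx.mk (nat_lit 209) (nat_lit 1) (nat_lit 2) (nat_lit 3) (nat_lit 7) (nat_lit 168) (nat_lit 34) r0_168 r9_34 (nat_lit 0) (nat_lit 0) (nat_lit 0) (nat_lit 0x20056d4f2) (nat_lit 268435456),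
  Rx.mk (nat_lit 211) (nat_lit 3) (nat_lit 2) (nat_lit 3) (nat_lit 7) (nat_lit 169) (nat_lit 35) r0_169 r9_35 (nat_lit 0) (nat_lit 0) (nat_lit 0) (nat_lit 0x20056d4f2) (nat_lit 268435456),
  Rx.mk (nat_lit 219) (nat_lit 3) (nat_lit 3) (nat_lit 3) (nat_lit 7) (nat_lit 170) (nat_lit 32) r0_170 r9_32 (nat_lit 0) (nat_lit 0) (nat_lit 0) (nat_lit 0x1f920a348) (nat_lit 275995056)]
noncomputable def e38_43 : List Rx := [
  Rx.mk (nat_lit 16) (nat_lit 0) (nat_lit 2) (nat_lit 0) (nat_lit 2) (nat_lit 23) (nat_lit 2) r0_23 r1_2 (nat_lit 1053210) (nat_lit 0) (nat_lit 1901317) (nat_lit 0x1d06fa732) (nat_lit 322020483),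
  Rx.mk (nat_lit 19) (nat_lit 3) (nat_lit 2) (nat_lit 0) (nat_lit 3) (nat_lit 24) (nat_lit 3) r0_24 r1_3 (nat_lit 0) (nat_lit 0) (nat_lit 6798811) (nat_lit 0x1fe079bd2) (nat_lit 277633767),
  Rx.mk (nat_lit 144) (nat_lit 0) (nat_lit 2) (nat_lit 2) (nat_lit 6) (nat_lit 25) (nat_lit 5) r0_25 r1_5 (nat_lit 1484672) (nat_lit 0) (nat_lit 0) (nat_lit 0x20258cca6) (nat_lit 267789778),
  Rx.mk (nat_lit 146) (nat_lit 2) (nat_lit 2) (nat_lit 2) (nat_lit 7) (nat_lit 26) (nat_lit 7) r0_26 r1_7 (nat_lit 0) (nat_lit 0) (nat_lit 0) (nat_lit 0x204321550) (nat_lit 264427056),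
  Rx.mk (nat_lit 147) (nat_lit 3) (nat_lit 2) (nat_lit 2) (nat_lit 7) (nat_lit 27) (nat_lit 6) r0_27 r1_6 (nat_lit 0) (nat_lit 0) (nat_lit 0) (nat_lit 0x204321550) (nat_lit 264427056),
  Rx.mk (nat_lit 178) (nat_lit 2) (nat_lit 6) (nat_lit 2) (nat_lit 7) (nat_lit 21) (nat_lit 8) r0_21 r1_8 (nat_lit 0) (nat_lit 0) (nat_lit 0) (nat_lit 0x203066816) (nat_lit 265637806),
  Rx.mk (nat_lit 195) (nat_lit 3) (nat_lit 0) (nat_lit 3) (nat_lit 5) (nat_lit 22) (nat_lit 0) r0_22 r1_0 (nat_lit 0) (nat_lit 6061326) (nat_lit 0) (nat_lit 0x1e22fb854) (nat_lit 306330232),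
  Rx.mk (nat_lit 211) (nat_lit 3) (nat_lit 2) (nat_lit 3) (nat_lit 7) (nat_lit 28) (nat_lit 4) r0_28 r1_4 (nat_lit 0) (nat_lit 0) (nat_lit 0) (nat_lit 0x232a6f1b2) (nat_lit 216775806),
  Rx.mk (nat_lit 219) (nat_lit 3) (nat_lit 3) (nat_lit 3) (nat_lit 7) (nat_lit 29) (nat_lit 1) r0_29 r1_1 (nat_lit 0) (nat_lit 0) (nat_lit 0) (nat_lit 0x20e22bba0) (nat_lit 254171106),
  Rx.mk (nat_lit 434) (nat_lit 2) (nat_lit 6) (nat_lit 6) (nat_lit 7) (nat_lit 20) (nat_lit 9) r0_20 r1_9 (nat_lit 0) (nat_lit 0) (nat_lit 0) (nat_lit 0x2045d486a) (nat_lit 264245706)]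
noncomputable def e38_44 : List Rx := [
  Rx.mk (nat_lit 178) (nat_lit 2) (nat_lit 6) (nat_lit 2) (nat_lit 7) (nat_lit 140) (nat_lit 77) r0_140 r8_77 (nat_lit 0) (nat_lit 0) (nat_lit 0) (nat_lit 0x20056d4f2) (nat_lit 268435456),
  Rx.mk (nat_lit 434) (nat_lit 2) (nat_lit 6) (nat_lit 6) (nat_lit 7) (nat_lit 139) (nat_lit 76) r0_139 r8_76 (nat_lit 0) (nat_lit 0) (nat_lit 0) (nat_lit 0x1ff97bb76) (nat_lit 269212656)]
noncomputable def e38_45 : List Rx := [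
  Rx.mk (nat_lit 292) (nat_lit 4) (nat_lit 4) (nat_lit 4) (nat_lit 0) (nat_lit 111) (nat_lit 94) r0_111 r1_94 (nat_lit 1151) (nat_lit 1132) (nat_lit 71503781) (nat_lit 0x1ffffcd4c) (nat_lit 339943120),
  Rx.mk (nat_lit 294) (nat_lit 6) (nat_lit 4) (nat_lit 4) (nat_lit 1) (nat_lit 112) (nat_lit 99) r0_112 r1_99 (nat_lit 0) (nat_lit 3336276) (nat_lit 34468149) (nat_lit 0x1d1651a5a) (nat_lit 355883931),
  Rx.mk (nat_lit 300) (nat_lit 4) (nat_lit 5) (nat_lit 4) (nat_lit 2) (nat_lit 114) (nat_lit 95) r0_114 r1_95 (nat_lit 4173814) (nat_lit 0) (nat_lit 104667208) (nat_lit 0x200e73d6c) (nat_lit 376678078),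
  Rx.mk (nat_lit 302) (nat_lit 6) (nat_lit 5) (nat_lit 4) (nat_lit 3) (nat_lit 115) (nat_lit 100) r0_115 r1_100 (nat_lit 0) (nat_lit 0) (nat_lit 13267100) (nat_lit 0x1fdaa1d54) (nat_lit 284493406),
  Rx.mk (nat_lit 316) (nat_lit 4) (nat_lit 7) (nat_lit 4) (nat_lit 2) (nat_lit 118) (nat_lit 96) r0_118 r1_96 (nat_lit 10218001) (nat_lit 0) (nat_lit 56350289) (nat_lit 0x1f745a79e) (nat_lit 344506196),
  Rx.mk (nat_lit 318) (nat_lit 6) (nat_lit 7) (nat_lit 4) (nat_lit 3) (nat_lit 119) (nat_lit 101) r0_119 r1_101 (nat_lit 0) (nat_lit 0) (nat_lit 11841269) (nat_lit 0x20e29fb5e) (nat_lit 266000725),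
  Rx.mk (nat_lit 422) (nat_lit 6) (nat_lit 4) (nat_lit 6) (nat_lit 5) (nat_lit 113) (nat_lit 103) r0_113 r1_103 (nat_lit 0) (nat_lit 7095785) (nat_lit 0) (nat_lit 0x1f099b1ce) (nat_lit 292101241),
  Rx.mk (nat_lit 430) (nat_lit 6) (nat_lit 5) (nat_lit 6) (nat_lit 7) (nat_lit 116) (nat_lit 104) r0_116 r1_104 (nat_lit 0) (nat_lit 0) (nat_lit 0) (nat_lit 0x20056d4f2) (nat_lit 268435456),
  Rx.mk (nat_lit 438) (nat_lit 6) (nat_lit 6) (nat_lit 6) (nat_lit 7) (nat_lit 117) (nat_lit 106) r0_117 r1_106 (nat_lit 0) (nat_lit 0) (nat_lit 0) (nat_lit 0x20056d4f2) (nat_lit 268435456),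
  Rx.mk (nat_lit 446) (nat_lit 6) (nat_lit 7) (nat_lit 6) (nat_lit 7) (nat_lit 120) (nat_lit 105) r0_120 r1_105 (nat_lit 0) (nat_lit 0) (nat_lit 0) (nat_lit 0x20056d4f2) (nat_lit 268435456),
  Rx.mk (nat_lit 508) (nat_lit 4) (nat_lit 7) (nat_lit 7) (nat_lit 6) (nat_lit 121) (nat_lit 97) r0_121 r1_97 (nat_lit 7542287) (nat_lit 0) (nat_lit 0) (nat_lit 0x201cafd36) (nat_lit 274462593),
  Rx.mk (nat_lit 510) (nat_lit 6) (nat_lit 7) (nat_lit 7) (nat_lit 7) (nat_lit 122) (nat_lit 102) r0_122 r1_102 (nat_lit 0) (nat_lit 0) (nat_lit 0) (nat_lit 0x20056d4f2) (nat_lit 268435456),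
  Rx.mk (nat_lit 511) (nat_lit 7) (nat_lit 7) (nat_lit 7) (nat_lit 7) (nat_lit 123) (nat_lit 98) r0_123 r1_98 (nat_lit 0) (nat_lit 0) (nat_lit 0) (nat_lit 0x20056d4f2) (nat_lit 268435456)]
noncomputable def e38_46 : List Rx := [
  Rx.mk (nat_lit 300) (nat_lit 4) (nat_lit 5) (nat_lit 4) (nat_lit 2) (nat_lit 254) (nat_lit 98) r0_254 r2_98 (nat_lit 7936988) (nat_lit 0) (nat_lit 23860633) (nat_lit 0x160a0e9fc) (nat_lit 469629927),
  Rx.mk (nat_lit 302) (nat_lit 6) (nat_lit 5) (nat_lit 4) (nat_lit 3) (nat_lit 255) (nat_lit 99) r0_255 r2_99 (nat_lit 0) (nat_lit 0) (nat_lit 24694302) (nat_lit 0x1f1cd48f8) (nat_lit 308430658),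
  Rx.mk (nat_lit 430) (nat_lit 6) (nat_lit 5) (nat_lit 6) (nat_lit 7) (nat_lit 256) (nat_lit 100) r0_256 r2_100 (nat_lit 0) (nat_lit 0) (nat_lit 0) (nat_lit 0x20056d4f2) (nat_lit 268435456)]
noncomputable def e38_47 : List Rx := [
  Rx.mk (nat_lit 178) (nat_lit 2) (nat_lit 6) (nat_lit 2) (nat_lit 7) (nat_lit 132) (nat_lit 12) r0_132 r8_12 (nat_lit 0) (nat_lit 0) (nat_lit 0) (nat_lit 0x20056d4f2) (nat_lit 268435456),
  Rx.mk (nat_lit 292) (nat_lit 4) (nat_lit 4) (nat_lit 4) (nat_lit 0) (nat_lit 124) (nat_lit 0) r0_124 r8_0 (nat_lit 641106) (nat_lit 548020) (nat_lit 10221547) (nat_lit 0xdf239f5a) (nat_lit 586659229),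
  Rx.mk (nat_lit 294) (nat_lit 6) (nat_lit 4) (nat_lit 4) (nat_lit 1) (nat_lit 125) (nat_lit 1) r0_125 r8_1 (nat_lit 0) (nat_lit 8977401) (nat_lit 21261060) (nat_lit 0x18db3ee76) (nat_lit 420209017),
  Rx.mk (nat_lit 300) (nat_lit 4) (nat_lit 5) (nat_lit 4) (nat_lit 2) (nat_lit 127) (nat_lit 3) r0_127 r8_3 (nat_lit 8596723) (nat_lit 0) (nat_lit 22390317) (nat_lit 0x181f48a6e) (nat_lit 433430596),
  Rx.mk (nat_lit 302) (nat_lit 6) (nat_lit 5) (nat_lit 4) (nat_lit 3) (nat_lit 128) (nat_lit 4) r0_128 r8_4 (nat_lit 0) (nat_lit 0) (nat_lit 13103625) (nat_lit 0x1fa80595e) (nat_lit 287655681),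
  Rx.mk (nat_lit 316) (nat_lit 4) (nat_lit 7) (nat_lit 4) (nat_lit 2) (nat_lit 133) (nat_lit 6) r0_133 r8_6 (nat_lit 5082939) (nat_lit 0) (nat_lit 8459973) (nat_lit 0x18412df6c) (nat_lit 413722318),
  Rx.mk (nat_lit 318) (nat_lit 6) (nat_lit 7) (nat_lit 4) (nat_lit 3) (nat_lit 134) (nat_lit 7) r0_134 r8_7 (nat_lit 0) (nat_lit 0) (nat_lit 17354866) (nat_lit 0x1fa7fc02a) (nat_lit 291906822),
  Rx.mk (nat_lit 422) (nat_lit 6) (nat_lit 4) (nat_lit 6) (nat_lit 5) (nat_lit 126) (nat_lit 2) r0_126 r8_2 (nat_lit 0) (nat_lit 5563368) (nat_lit 0) (nat_lit 0x1d90bf3fa) (nat_lit 315546874),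
  Rx.mk (nat_lit 430) (nat_lit 6) (nat_lit 5) (nat_lit 6) (nat_lit 7) (nat_lit 129) (nat_lit 5) r0_129 r8_5 (nat_lit 0) (nat_lit 0) (nat_lit 0) (nat_lit 0x1fdc55c7c) (nat_lit 271115106),
  Rx.mk (nat_lit 434) (nat_lit 2) (nat_lit 6) (nat_lit 6) (nat_lit 7) (nat_lit 131) (nat_lit 13) r0_131 r8_13 (nat_lit 0) (nat_lit 0) (nat_lit 0) (nat_lit 0x1ff9ddc54) (nat_lit 269187956),
  Rx.mk (nat_lit 438) (nat_lit 6) (nat_lit 6) (nat_lit 6) (nat_lit 7) (nat_lit 130) (nat_lit 14) r0_130 r8_14 (nat_lit 0) (nat_lit 0) (nat_lit 0) (nat_lit 0x1ff9e4946) (nat_lit 269186206),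
  Rx.mk (nat_lit 446) (nat_lit 6) (nat_lit 7) (nat_lit 6) (nat_lit 7) (nat_lit 135) (nat_lit 11) r0_135 r8_11 (nat_lit 0) (nat_lit 0) (nat_lit 0) (nat_lit 0x2003e8e1a) (nat_lit 268530456),
  Rx.mk (nat_lit 508) (nat_lit 4) (nat_lit 7) (nat_lit 7) (nat_lit 6) (nat_lit 136) (nat_lit 8) r0_136 r8_8 (nat_lit 11005782) (nat_lit 0) (nat_lit 0) (nat_lit 0x1c8a0941c) (nat_lit 338427488),
  Rx.mk (nat_lit 510) (nat_lit 6) (nat_lit 7) (nat_lit 7) (nat_lit 7) (nat_lit 137) (nat_lit 10) r0_137 r8_10 (nat_lit 0) (nat_lit 0) (nat_lit 0) (nat_lit 0x20056d4f2) (nat_lit 268435456),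
  Rx.mk (nat_lit 511) (nat_lit 7) (nat_lit 7) (nat_lit 7) (nat_lit 7) (nat_lit 138) (nat_lit 9) r0_138 r8_9 (nat_lit 0) (nat_lit 0) (nat_lit 0) (nat_lit 0x20056d4f2) (nat_lit 268435456)]
noncomputable def e38_48 : List Rx := [
  Rx.mk (nat_lit 300) (nat_lit 4) (nat_lit 5) (nat_lit 4) (nat_lit 2) (nat_lit 262) (nat_lit 65) r0_262 r9_65 (nat_lit 14858526) (nat_lit 0) (nat_lit 37964627) (nat_lit 0x17568cdc8) (nat_lit 468596959),
  Rx.mk (nat_lit 302) (nat_lit 6) (nat_lit 5) (nat_lit 4) (nat_lit 3) (nat_lit 263) (nat_lit 66) r0_263 r9_66 (nat_lit 0) (nat_lit 0) (nat_lit 23941176) (nat_lit 0x1ecb07dd6) (nat_lit 313084132),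
  Rx.mk (nat_lit 430) (nat_lit 6) (nat_lit 5) (nat_lit 6) (nat_lit 7) (nat_lit 264) (nat_lit 67) r0_264 r9_67 (nat_lit 0) (nat_lit 0) (nat_lit 0) (nat_lit 0x1ff25243a) (nat_lit 269680706)]
noncomputable def e38_49 : List Rx := [
  Rx.mk (nat_lit 300) (nat_lit 4) (nat_lit 5) (nat_lit 4) (nat_lit 2) (nat_lit 257) (nat_lit 155) r0_257 r9_155 (nat_lit 20380427) (nat_lit 0) (nat_lit 18008547) (nat_lit 0x1563465ca) (nat_lit 487295780),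
  Rx.mk (nat_lit 302) (nat_lit 6) (nat_lit 5) (nat_lit 4) (nat_lit 3) (nat_lit 258) (nat_lit 156) r0_258 r9_156 (nat_lit 0) (nat_lit 0) (nat_lit 9484367) (nat_lit 0x1fda6c1c2) (nat_lit 280725973),
  Rx.mk (nat_lit 364) (nat_lit 4) (nat_lit 5) (nat_lit 5) (nat_lit 6) (nat_lit 259) (nat_lit 157) r0_259 r9_157 (nat_lit 12763209) (nat_lit 0) (nat_lit 0) (nat_lit 0x1dbc643f2) (nat_lit 319863465),
  Rx.mk (nat_lit 366) (nat_lit 6) (nat_lit 5) (nat_lit 5) (nat_lit 7) (nat_lit 260) (nat_lit 158) r0_260 r9_158 (nat_lit 0) (nat_lit 0) (nat_lit 0) (nat_lit 0x20056d4f2) (nat_lit 268435456),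
  Rx.mk (nat_lit 430) (nat_lit 6) (nat_lit 5) (nat_lit 6) (nat_lit 7) (nat_lit 261) (nat_lit 159) r0_261 r9_159 (nat_lit 0) (nat_lit 0) (nat_lit 0) (nat_lit 0x20056d4f2) (nat_lit 268435456)]
noncomputable def e38_50 : List Rx := [
  Rx.mk (nat_lit 199) (nat_lit 7) (nat_lit 0) (nat_lit 3) (nat_lit 5) (nat_lit 48) (nat_lit 95) r0_48 r3_95 (nat_lit 0) (nat_lit 3060) (nat_lit 0) (nat_lit 0x1ffe47150) (nat_lit 268554166),
  Rx.mk (nat_lit 223) (nat_lit 7) (nat_lit 3) (nat_lit 3) (nat_lit 7) (nat_lit 51) (nat_lit 96) r0_51 r3_96 (nat_lit 0) (nat_lit 0) (nat_lit 0) (nat_lit 0x1f48084e8) (nat_lit 280847656),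
  Rx.mk (nat_lit 316) (nat_lit 4) (nat_lit 7) (nat_lit 4) (nat_lit 2) (nat_lit 43) (nat_lit 91) r0_43 r3_91 (nat_lit 74) (nat_lit 0) (nat_lit 237) (nat_lit 0x2052170be) (nat_lit 263187217),
  Rx.mk (nat_lit 318) (nat_lit 6) (nat_lit 7) (nat_lit 4) (nat_lit 3) (nat_lit 44) (nat_lit 97) r0_44 r3_97 (nat_lit 0) (nat_lit 0) (nat_lit 41515) (nat_lit 0x1d3411838) (nat_lit 315993021),
  Rx.mk (nat_lit 446) (nat_lit 6) (nat_lit 7) (nat_lit 6) (nat_lit 7) (nat_lit 45) (nat_lit 99) r0_45 r3_99 (nat_lit 0) (nat_lit 0) (nat_lit 0) (nat_lit 0x1f5a47708) (nat_lit 279658856),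
  Rx.mk (nat_lit 476) (nat_lit 4) (nat_lit 3) (nat_lit 7) (nat_lit 6) (nat_lit 49) (nat_lit 93) r0_49 r3_93 (nat_lit 2053) (nat_lit 0) (nat_lit 0) (nat_lit 0x1fff1523a) (nat_lit 268499659),
  Rx.mk (nat_lit 479) (nat_lit 7) (nat_lit 3) (nat_lit 7) (nat_lit 7) (nat_lit 50) (nat_lit 94) r0_50 r3_94 (nat_lit 0) (nat_lit 0) (nat_lit 0) (nat_lit 0x2006da4f2) (nat_lit 268322256),
  Rx.mk (nat_lit 508) (nat_lit 4) (nat_lit 7) (nat_lit 7) (nat_lit 6) (nat_lit 46) (nat_lit 92) r0_46 r3_92 (nat_lit 221533) (nat_lit 0) (nat_lit 0) (nat_lit 0x1f6467e9a) (nat_lit 279046389),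
  Rx.mk (nat_lit 510) (nat_lit 6) (nat_lit 7) (nat_lit 7) (nat_lit 7) (nat_lit 47) (nat_lit 98) r0_47 r3_98 (nat_lit 0) (nat_lit 0) (nat_lit 0) (nat_lit 0x20628cae8) (nat_lit 262391206)]
noncomputable def e38_51 : List Rx := [
  Rx.mk (nat_lit 316) (nat_lit 4) (nat_lit 7) (nat_lit 4) (nat_lit 2) (nat_lit 142) (nat_lit 93) r0_142 r4_93 (nat_lit 59176) (nat_lit 0) (nat_lit 52596454) (nat_lit 0x18b3f3b46) (nat_lit 445081686),
  Rx.mk (nat_lit 318) (nat_lit 6) (nat_lit 7) (nat_lit 4) (nat_lit 3) (nat_lit 143) (nat_lit 95) r0_143 r4_95 (nat_lit 0) (nat_lit 0) (nat_lit 33826584) (nat_lit 0x20ad33e2a) (nat_lit 291385790),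
  Rx.mk (nat_lit 446) (nat_lit 6) (nat_lit 7) (nat_lit 6) (nat_lit 7) (nat_lit 144) (nat_lit 97) r0_144 r4_97 (nat_lit 0) (nat_lit 0) (nat_lit 0) (nat_lit 0x202be8910) (nat_lit 265932556),
  Rx.mk (nat_lit 508) (nat_lit 4) (nat_lit 7) (nat_lit 7) (nat_lit 6) (nat_lit 145) (nat_lit 94) r0_145 r4_94 (nat_lit 5249002) (nat_lit 0) (nat_lit 0) (nat_lit 0x1fa57fb76) (nat_lit 279949358),
  Rx.mk (nat_lit 510) (nat_lit 6) (nat_lit 7) (nat_lit 7) (nat_lit 7) (nat_lit 146) (nat_lit 96) r0_146 r4_96 (nat_lit 0) (nat_lit 0) (nat_lit 0) (nat_lit 0x20711b0e6) (nat_lit 261457706)]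
noncomputable def e38_52 : List Rx := [
  Rx.mk (nat_lit 199) (nat_lit 7) (nat_lit 0) (nat_lit 3) (nat_lit 5) (nat_lit 208) (nat_lit 99) r0_208 r5_99 (nat_lit 0) (nat_lit 4120485) (nat_lit 0) (nat_lit 0x1d90add30) (nat_lit 314093041),
  Rx.mk (nat_lit 284) (nat_lit 4) (nat_lit 3) (nat_lit 4) (nat_lit 2) (nat_lit 209) (nat_lit 95) r0_209 r5_95 (nat_lit 2166) (nat_lit 0) (nat_lit 2742) (nat_lit 0x1ffe6a894) (nat_lit 268546314),
  Rx.mk (nat_lit 316) (nat_lit 4) (nat_lit 7) (nat_lit 4) (nat_lit 2) (nat_lit 204) (nat_lit 94) r0_204 r5_94 (nat_lit 68266) (nat_lit 0) (nat_lit 4376312) (nat_lit 0x2011af8e6) (nat_lit 271776584),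
  Rx.mk (nat_lit 318) (nat_lit 6) (nat_lit 7) (nat_lit 4) (nat_lit 3) (nat_lit 205) (nat_lit 100) r0_205 r5_100 (nat_lit 0) (nat_lit 0) (nat_lit 51585995) (nat_lit 0x1f40b1c8a) (nat_lit 332930751),
  Rx.mk (nat_lit 446) (nat_lit 6) (nat_lit 7) (nat_lit 6) (nat_lit 7) (nat_lit 206) (nat_lit 101) r0_206 r5_101 (nat_lit 0) (nat_lit 0) (nat_lit 0) (nat_lit 0x1fbe83a50) (nat_lit 273060756),
  Rx.mk (nat_lit 455) (nat_lit 7) (nat_lit 0) (nat_lit 7) (nat_lit 5) (nat_lit 207) (nat_lit 97) r0_207 r5_97 (nat_lit 0) (nat_lit 3102681) (nat_lit 0) (nat_lit 0x1aefd6c10) (nat_lit 357710387),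
  Rx.mk (nat_lit 476) (nat_lit 4) (nat_lit 3) (nat_lit 7) (nat_lit 6) (nat_lit 210) (nat_lit 96) r0_210 r5_96 (nat_lit 1935890) (nat_lit 0) (nat_lit 0) (nat_lit 0x20e2c5174) (nat_lit 256065246),
  Rx.mk (nat_lit 479) (nat_lit 7) (nat_lit 3) (nat_lit 7) (nat_lit 7) (nat_lit 211) (nat_lit 98) r0_211 r5_98 (nat_lit 0) (nat_lit 0) (nat_lit 0) (nat_lit 0x205a0ba36) (nat_lit 262948156)]
noncomputable def e38_53 : List Rx := [
  Rx.mk (nat_lit 19) (nat_lit 3) (nat_lit 2) (nat_lit 0) (nat_lit 3) (nat_lit 59) (nat_lit 5) r0_59 r4_5 (nat_lit 0) (nat_lit 0) (nat_lit 20543778) (nat_lit 0x1ef9c7a5e) (nat_lit 306570734),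
  Rx.mk (nat_lit 147) (nat_lit 3) (nat_lit 2) (nat_lit 2) (nat_lit 7) (nat_lit 60) (nat_lit 7) r0_60 r4_7 (nat_lit 0) (nat_lit 0) (nat_lit 0) (nat_lit 0x1fa57e4c4) (nat_lit 274711106),
  Rx.mk (nat_lit 195) (nat_lit 3) (nat_lit 0) (nat_lit 3) (nat_lit 5) (nat_lit 58) (nat_lit 0) r0_58 r4_0 (nat_lit 0) (nat_lit 829405) (nat_lit 0) (nat_lit 0x19a9ddf48) (nat_lit 377006311),
  Rx.mk (nat_lit 199) (nat_lit 7) (nat_lit 0) (nat_lit 3) (nat_lit 5) (nat_lit 57) (nat_lit 1) r0_57 r4_1 (nat_lit 0) (nat_lit 4265964) (nat_lit 0) (nat_lit 0x1f7bbe878) (nat_lit 281708970),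
  Rx.mk (nat_lit 211) (nat_lit 3) (nat_lit 2) (nat_lit 3) (nat_lit 7) (nat_lit 61) (nat_lit 6) r0_61 r4_6 (nat_lit 0) (nat_lit 0) (nat_lit 0) (nat_lit 0x1fca5e078) (nat_lit 272247956),
  Rx.mk (nat_lit 223) (nat_lit 7) (nat_lit 3) (nat_lit 3) (nat_lit 7) (nat_lit 64) (nat_lit 2) r0_64 r4_2 (nat_lit 0) (nat_lit 0) (nat_lit 0) (nat_lit 0x203c788ac) (nat_lit 264839206),
  Rx.mk (nat_lit 316) (nat_lit 4) (nat_lit 7) (nat_lit 4) (nat_lit 2) (nat_lit 52) (nat_lit 8) r0_52 r4_8 (nat_lit 911214) (nat_lit 0) (nat_lit 2057600) (nat_lit 0x1b22bcfc6) (nat_lit 354158770),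
  Rx.mk (nat_lit 318) (nat_lit 6) (nat_lit 7) (nat_lit 4) (nat_lit 3) (nat_lit 53) (nat_lit 9) r0_53 r4_9 (nat_lit 0) (nat_lit 0) (nat_lit 17143268) (nat_lit 0x1e42af416) (nat_lit 315309874),
  Rx.mk (nat_lit 446) (nat_lit 6) (nat_lit 7) (nat_lit 6) (nat_lit 7) (nat_lit 54) (nat_lit 12) r0_54 r4_12 (nat_lit 0) (nat_lit 0) (nat_lit 0) (nat_lit 0x1d9b5a3be) (nat_lit 309237406),
  Rx.mk (nat_lit 476) (nat_lit 4) (nat_lit 3) (nat_lit 7) (nat_lit 6) (nat_lit 62) (nat_lit 3) r0_62 r4_3 (nat_lit 4296120) (nat_lit 0) (nat_lit 0) (nat_lit 0x1fd4ab1de) (nat_lit 275890326),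
  Rx.mk (nat_lit 479) (nat_lit 7) (nat_lit 3) (nat_lit 7) (nat_lit 7) (nat_lit 63) (nat_lit 4) r0_63 r4_4 (nat_lit 0) (nat_lit 0) (nat_lit 0) (nat_lit 0x206a07ed0) (nat_lit 261913956),
  Rx.mk (nat_lit 508) (nat_lit 4) (nat_lit 7) (nat_lit 7) (nat_lit 6) (nat_lit 55) (nat_lit 10) r0_55 r4_10 (nat_lit 4095836) (nat_lit 0) (nat_lit 0) (nat_lit 0x1fd9b63ea) (nat_lit 275364542),
  Rx.mk (nat_lit 510) (nat_lit 6) (nat_lit 7) (nat_lit 7) (nat_lit 7) (nat_lit 56) (nat_lit 11) r0_56 r4_11 (nat_lit 0) (nat_lit 0) (nat_lit 0) (nat_lit 0x205e5adb2) (nat_lit 262667356)]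
noncomputable def e38_54 : List Rx := [
  Rx.mk (nat_lit 316) (nat_lit 4) (nat_lit 7) (nat_lit 4) (nat_lit 2) (nat_lit 147) (nat_lit 77) r0_147 r10_77 (nat_lit 142696) (nat_lit 0) (nat_lit 514146) (nat_lit 0x196892534) (nat_lit 381116348),
  Rx.mk (nat_lit 318) (nat_lit 6) (nat_lit 7) (nat_lit 4) (nat_lit 3) (nat_lit 148) (nat_lit 79) r0_148 r10_79 (nat_lit 0) (nat_lit 0) (nat_lit 18568344) (nat_lit 0x1f4c0ad0c) (nat_lit 299169900),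
  Rx.mk (nat_lit 446) (nat_lit 6) (nat_lit 7) (nat_lit 6) (nat_lit 7) (nat_lit 149) (nat_lit 81) r0_149 r10_81 (nat_lit 0) (nat_lit 0) (nat_lit 0) (nat_lit 0x1ff3454e6) (nat_lit 269612556),
  Rx.mk (nat_lit 508) (nat_lit 4) (nat_lit 7) (nat_lit 7) (nat_lit 6) (nat_lit 150) (nat_lit 78) r0_150 r10_78 (nat_lit 5323449) (nat_lit 0) (nat_lit 0) (nat_lit 0x1d8aa981c) (nat_lit 315709355),
  Rx.mk (nat_lit 510) (nat_lit 6) (nat_lit 7) (nat_lit 7) (nat_lit 7) (nat_lit 151) (nat_lit 80) r0_151 r10_80 (nat_lit 0) (nat_lit 0) (nat_lit 0) (nat_lit 0x20056d4f2) (nat_lit 268435456)]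
noncomputable def e38_55 : List Rx := [
  Rx.mk (nat_lit 195) (nat_lit 3) (nat_lit 0) (nat_lit 3) (nat_lit 5) (nat_lit 217) (nat_lit 99) r0_217 r11_99 (nat_lit 0) (nat_lit 3688724) (nat_lit 0) (nat_lit 0x1c9ff7bde) (nat_lit 329624030),
  Rx.mk (nat_lit 199) (nat_lit 7) (nat_lit 0) (nat_lit 3) (nat_lit 5) (nat_lit 216) (nat_lit 96) r0_216 r11_96 (nat_lit 0) (nat_lit 4286271) (nat_lit 0) (nat_lit 0x1fec0acda) (nat_lit 274349477),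
  Rx.mk (nat_lit 211) (nat_lit 3) (nat_lit 2) (nat_lit 3) (nat_lit 7) (nat_lit 218) (nat_lit 100) r0_218 r11_100 (nat_lit 0) (nat_lit 0) (nat_lit 0) (nat_lit 0x20f100a7c) (nat_lit 253219156),
  Rx.mk (nat_lit 284) (nat_lit 4) (nat_lit 3) (nat_lit 4) (nat_lit 2) (nat_lit 219) (nat_lit 92) r0_219 r11_92 (nat_lit 860787) (nat_lit 0) (nat_lit 957999) (nat_lit 0x1be3394ac) (nat_lit 340229592),
  Rx.mk (nat_lit 316) (nat_lit 4) (nat_lit 7) (nat_lit 4) (nat_lit 2) (nat_lit 212) (nat_lit 91) r0_212 r11_91 (nat_lit 5847755) (nat_lit 0) (nat_lit 35579357) (nat_lit 0x1cf126118) (nat_lit 361977668),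
  Rx.mk (nat_lit 318) (nat_lit 6) (nat_lit 7) (nat_lit 4) (nat_lit 3) (nat_lit 213) (nat_lit 97) r0_213 r11_97 (nat_lit 0) (nat_lit 0) (nat_lit 54099943) (nat_lit 0x1fab0666c) (nat_lit 328440049),
  Rx.mk (nat_lit 446) (nat_lit 6) (nat_lit 7) (nat_lit 6) (nat_lit 7) (nat_lit 214) (nat_lit 98) r0_214 r11_98 (nat_lit 0) (nat_lit 0) (nat_lit 0) (nat_lit 0x20a84f7ce) (nat_lit 257886656),
  Rx.mk (nat_lit 455) (nat_lit 7) (nat_lit 0) (nat_lit 7) (nat_lit 5) (nat_lit 215) (nat_lit 94) r0_215 r11_94 (nat_lit 0) (nat_lit 3907448) (nat_lit 0) (nat_lit 0x1f0b7289e) (nat_lit 288775154),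
  Rx.mk (nat_lit 476) (nat_lit 4) (nat_lit 3) (nat_lit 7) (nat_lit 6) (nat_lit 220) (nat_lit 93) r0_220 r11_93 (nat_lit 5308544) (nat_lit 0) (nat_lit 0) (nat_lit 0x2021b8a8a) (nat_lit 271891250),
  Rx.mk (nat_lit 479) (nat_lit 7) (nat_lit 3) (nat_lit 7) (nat_lit 7) (nat_lit 221) (nat_lit 95) r0_221 r11_95 (nat_lit 0) (nat_lit 0) (nat_lit 0) (nat_lit 0x20380ccaa) (nat_lit 265146056)]
noncomputable def e38_56 : List Rx := [
  Rx.mk (nat_lit 199) (nat_lit 7) (nat_lit 0) (nat_lit 3) (nat_lit 5) (nat_lit 67) (nat_lit 0) r0_67 r5_0 (nat_lit 0) (nat_lit 1224594) (nat_lit 0) (nat_lit 0x1f6cdf3ac) (nat_lit 279582800),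
  Rx.mk (nat_lit 220) (nat_lit 4) (nat_lit 3) (nat_lit 3) (nat_lit 6) (nat_lit 69) (nat_lit 1) r0_69 r5_1 (nat_lit 1213772) (nat_lit 0) (nat_lit 0) (nat_lit 0x1e3ce063e) (nat_lit 299727878),
  Rx.mk (nat_lit 223) (nat_lit 7) (nat_lit 3) (nat_lit 3) (nat_lit 7) (nat_lit 70) (nat_lit 2) r0_70 r5_2 (nat_lit 0) (nat_lit 0) (nat_lit 0) (nat_lit 0x1f8e71664) (nat_lit 276218956),
  Rx.mk (nat_lit 476) (nat_lit 4) (nat_lit 3) (nat_lit 7) (nat_lit 6) (nat_lit 68) (nat_lit 3) r0_68 r5_3 (nat_lit 1465966) (nat_lit 0) (nat_lit 0) (nat_lit 0x1f26316d0) (nat_lit 284523272),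
  Rx.mk (nat_lit 508) (nat_lit 4) (nat_lit 7) (nat_lit 7) (nat_lit 6) (nat_lit 65) (nat_lit 4) r0_65 r5_4 (nat_lit 1047232) (nat_lit 0) (nat_lit 0) (nat_lit 0x1fe6eb86c) (nat_lit 271393488),
  Rx.mk (nat_lit 510) (nat_lit 6) (nat_lit 7) (nat_lit 7) (nat_lit 7) (nat_lit 66) (nat_lit 5) r0_66 r5_5 (nat_lit 0) (nat_lit 0) (nat_lit 0) (nat_lit 0x2076d9fbe) (nat_lit 261082156)]
noncomputable def e38_57 : List Rx := [
  Rx.mk (nat_lit 508) (nat_lit 4) (nat_lit 7) (nat_lit 7) (nat_lit 6) (nat_lit 152) (nat_lit 0) r0_152 r11_0 (nat_lit 7183742) (nat_lit 0) (nat_lit 0) (nat_lit 0x1fc9b009a) (nat_lit 279512798),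
  Rx.mk (nat_lit 510) (nat_lit 6) (nat_lit 7) (nat_lit 7) (nat_lit 7) (nat_lit 153) (nat_lit 1) r0_153 r11_1 (nat_lit 0) (nat_lit 0) (nat_lit 0) (nat_lit 0x202537062) (nat_lit 266367056)]
noncomputable def e38 : List (List Rx) := [e38_0, e38_1, e38_2, e38_3, e38_4, e38_5, e38_6, e38_7, e38_8, e38_9, e38_10, e38_11, e38_12, e38_13, e38_14, e38_15, e38_16, e38_17, e38_18, e38_19, e38_20, e38_21, e38_22, e38_23, e38_24, e38_25, e38_26, e38_27, e38_28, e38_29, e38_30, e38_31, e38_32, e38_33, e38_34, e38_35, e38_36, e38_37, e38_38, e38_39, e38_40, e38_41, e38_42, e38_43, e38_44, e38_45, e38_46, e38_47, e38_48, e38_49, e38_50, e38_51, e38_52, e38_53, e38_54, e38_55, e38_56, e38_57]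
noncomputable def e39_0 : List Rx := [
  Rx.mk (nat_lit 5) (nat_lit 5) (nat_lit 0) (nat_lit 0) (nat_lit 1) (nat_lit 315) (nat_lit 250) r7_315 r0_250 (nat_lit 0) (nat_lit 12632886) (nat_lit 6883560) (nat_lit 0x199f2c586) (nat_lit 396447552),
  Rx.mk (nat_lit 13) (nat_lit 5) (nat_lit 1) (nat_lit 0) (nat_lit 3) (nat_lit 316) (nat_lit 252) r7_316 r0_252 (nat_lit 0) (nat_lit 0) (nat_lit 10632780) (nat_lit 0x1d6c3a8b8) (nat_lit 323047586),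
  Rx.mk (nat_lit 69) (nat_lit 5) (nat_lit 0) (nat_lit 1) (nat_lit 5) (nat_lit 317) (nat_lit 251) r7_317 r0_251 (nat_lit 0) (nat_lit 10930595) (nat_lit 0) (nat_lit 0x1f89b7ce0) (nat_lit 287476701),
  Rx.mk (nat_lit 77) (nat_lit 5) (nat_lit 1) (nat_lit 1) (nat_lit 7) (nat_lit 318) (nat_lit 253) r7_318 r0_253 (nat_lit 0) (nat_lit 0) (nat_lit 0) (nat_lit 0x201f393fe) (nat_lit 266751706)]
noncomputable def e39_1 : List Rx := [
  Rx.mk (nat_lit 69) (nat_lit 5) (nat_lit 0) (nat_lit 1) (nat_lit 5) (nat_lit 397) (nat_lit 256) r7_397 r1_256 (nat_lit 0) (nat_lit 9484367) (nat_lit 0) (nat_lit 0x1ed793e56) (nat_lit 297812473),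
  Rx.mk (nat_lit 77) (nat_lit 5) (nat_lit 1) (nat_lit 1) (nat_lit 7) (nat_lit 398) (nat_lit 257) r7_398 r1_257 (nat_lit 0) (nat_lit 0) (nat_lit 0) (nat_lit 0x1fb224e26) (nat_lit 273879356)]
noncomputable def e39_2 : List Rx := [
  Rx.mk (nat_lit 77) (nat_lit 5) (nat_lit 1) (nat_lit 1) (nat_lit 7) (nat_lit 399) (nat_lit 284) r7_399 r2_284 (nat_lit 0) (nat_lit 0) (nat_lit 0) (nat_lit 0x20056d4f2) (nat_lit 268435456),
  Rx.mk (nat_lit 333) (nat_lit 5) (nat_lit 1) (nat_lit 5) (nat_lit 7) (nat_lit 400) (nat_lit 285) r7_400 r2_285 (nat_lit 0) (nat_lit 0) (nat_lit 0) (nat_lit 0x20056d4f2) (nat_lit 268435456)]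
noncomputable def e39_3 : List Rx := [
  Rx.mk (nat_lit 5) (nat_lit 5) (nat_lit 0) (nat_lit 0) (nat_lit 1) (nat_lit 412) (nat_lit 250) r7_412 r3_250 (nat_lit 0) (nat_lit 20207) (nat_lit 16392) (nat_lit 0x1aff2b4f4) (nat_lit 353479305),
  Rx.mk (nat_lit 13) (nat_lit 5) (nat_lit 1) (nat_lit 0) (nat_lit 3) (nat_lit 413) (nat_lit 252) r7_413 r3_252 (nat_lit 0) (nat_lit 0) (nat_lit 1511252) (nat_lit 0x1d22f5266) (nat_lit 318703058),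
  Rx.mk (nat_lit 197) (nat_lit 5) (nat_lit 0) (nat_lit 3) (nat_lit 5) (nat_lit 414) (nat_lit 251) r7_414 r3_251 (nat_lit 0) (nat_lit 47845) (nat_lit 0) (nat_lit 0x201156a48) (nat_lit 267395251),
  Rx.mk (nat_lit 205) (nat_lit 5) (nat_lit 1) (nat_lit 3) (nat_lit 7) (nat_lit 415) (nat_lit 253) r7_415 r3_253 (nat_lit 0) (nat_lit 0) (nat_lit 0) (nat_lit 0x21af7b880) (nat_lit 241021756)]
noncomputable def e39_4 : List Rx := [
  Rx.mk (nat_lit 5) (nat_lit 5) (nat_lit 0) (nat_lit 0) (nat_lit 1) (nat_lit 416) (nat_lit 265) r7_416 r4_265 (nat_lit 0) (nat_lit 11185874) (nat_lit 9833742) (nat_lit 0x1c93abff6) (nat_lit 347782772),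
  Rx.mk (nat_lit 13) (nat_lit 5) (nat_lit 1) (nat_lit 0) (nat_lit 3) (nat_lit 417) (nat_lit 268) r7_417 r4_268 (nat_lit 0) (nat_lit 0) (nat_lit 7236911) (nat_lit 0x2024f415e) (nat_lit 273617967),
  Rx.mk (nat_lit 69) (nat_lit 5) (nat_lit 0) (nat_lit 1) (nat_lit 5) (nat_lit 418) (nat_lit 266) r7_418 r4_266 (nat_lit 0) (nat_lit 9484367) (nat_lit 0) (nat_lit 0x20056d4f2) (nat_lit 277919823),
  Rx.mk (nat_lit 77) (nat_lit 5) (nat_lit 1) (nat_lit 1) (nat_lit 7) (nat_lit 419) (nat_lit 269) r7_419 r4_269 (nat_lit 0) (nat_lit 0) (nat_lit 0) (nat_lit 0x20056d4f2) (nat_lit 268435456),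
  Rx.mk (nat_lit 197) (nat_lit 5) (nat_lit 0) (nat_lit 3) (nat_lit 5) (nat_lit 420) (nat_lit 267) r7_420 r4_267 (nat_lit 0) (nat_lit 7262151) (nat_lit 0) (nat_lit 0x202830002) (nat_lit 273435607),
  Rx.mk (nat_lit 205) (nat_lit 5) (nat_lit 1) (nat_lit 3) (nat_lit 7) (nat_lit 421) (nat_lit 270) r7_421 r4_270 (nat_lit 0) (nat_lit 0) (nat_lit 0) (nat_lit 0x20056d4f2) (nat_lit 268435456)]
noncomputable def e39_5 : List Rx := [
  Rx.mk (nat_lit 197) (nat_lit 5) (nat_lit 0) (nat_lit 3) (nat_lit 5) (nat_lit 422) (nat_lit 256) r7_422 r5_256 (nat_lit 0) (nat_lit 2920698) (nat_lit 0) (nat_lit 0x1fb4347c0) (nat_lit 276638054),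
  Rx.mk (nat_lit 205) (nat_lit 5) (nat_lit 1) (nat_lit 3) (nat_lit 7) (nat_lit 423) (nat_lit 257) r7_423 r5_257 (nat_lit 0) (nat_lit 0) (nat_lit 0) (nat_lit 0x204652198) (nat_lit 264207906)]
noncomputable def e39_6 : List Rx := [
  Rx.mk (nat_lit 268) (nat_lit 4) (nat_lit 1) (nat_lit 4) (nat_lit 2) (nat_lit 52) (nat_lit 250) r7_52 r3_250 (nat_lit 20207) (nat_lit 0) (nat_lit 16392) (nat_lit 0x1aff2b4f4) (nat_lit 353479305),
  Rx.mk (nat_lit 269) (nat_lit 5) (nat_lit 1) (nat_lit 4) (nat_lit 3) (nat_lit 54) (nat_lit 252) r7_54 r3_252 (nat_lit 0) (nat_lit 0) (nat_lit 1511252) (nat_lit 0x1d22f5266) (nat_lit 318703058),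
  Rx.mk (nat_lit 460) (nat_lit 4) (nat_lit 1) (nat_lit 7) (nat_lit 6) (nat_lit 53) (nat_lit 251) r7_53 r3_251 (nat_lit 47845) (nat_lit 0) (nat_lit 0) (nat_lit 0x201156a48) (nat_lit 267395251),
  Rx.mk (nat_lit 461) (nat_lit 5) (nat_lit 1) (nat_lit 7) (nat_lit 7) (nat_lit 55) (nat_lit 253) r7_55 r3_253 (nat_lit 0) (nat_lit 0) (nat_lit 0) (nat_lit 0x21af7b880) (nat_lit 241021756)]
noncomputable def e39_7 : List Rx := [
  Rx.mk (nat_lit 268) (nat_lit 4) (nat_lit 1) (nat_lit 4) (nat_lit 2) (nat_lit 217) (nat_lit 250) r7_217 r0_250 (nat_lit 12632886) (nat_lit 0) (nat_lit 6883560) (nat_lit 0x199f2c586) (nat_lit 396447552),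
  Rx.mk (nat_lit 269) (nat_lit 5) (nat_lit 1) (nat_lit 4) (nat_lit 3) (nat_lit 219) (nat_lit 252) r7_219 r0_252 (nat_lit 0) (nat_lit 0) (nat_lit 10632780) (nat_lit 0x1d6c3a8b8) (nat_lit 323047586),
  Rx.mk (nat_lit 332) (nat_lit 4) (nat_lit 1) (nat_lit 5) (nat_lit 6) (nat_lit 218) (nat_lit 251) r7_218 r0_251 (nat_lit 10930595) (nat_lit 0) (nat_lit 0) (nat_lit 0x1f89b7ce0) (nat_lit 287476701),
  Rx.mk (nat_lit 333) (nat_lit 5) (nat_lit 1) (nat_lit 5) (nat_lit 7) (nat_lit 220) (nat_lit 253) r7_220 r0_253 (nat_lit 0) (nat_lit 0) (nat_lit 0) (nat_lit 0x201f393fe) (nat_lit 266751706)]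
noncomputable def e39_8 : List Rx := [
  Rx.mk (nat_lit 332) (nat_lit 4) (nat_lit 1) (nat_lit 5) (nat_lit 6) (nat_lit 221) (nat_lit 256) r7_221 r1_256 (nat_lit 9484367) (nat_lit 0) (nat_lit 0) (nat_lit 0x1ed793e56) (nat_lit 297812473),
  Rx.mk (nat_lit 333) (nat_lit 5) (nat_lit 1) (nat_lit 5) (nat_lit 7) (nat_lit 222) (nat_lit 257) r7_222 r1_257 (nat_lit 0) (nat_lit 0) (nat_lit 0) (nat_lit 0x1fb224e26) (nat_lit 273879356)]
noncomputable def e39_9 : List Rx := [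
  Rx.mk (nat_lit 268) (nat_lit 4) (nat_lit 1) (nat_lit 4) (nat_lit 2) (nat_lit 223) (nat_lit 265) r7_223 r4_265 (nat_lit 11185874) (nat_lit 0) (nat_lit 9833742) (nat_lit 0x1c93abff6) (nat_lit 347782772),
  Rx.mk (nat_lit 269) (nat_lit 5) (nat_lit 1) (nat_lit 4) (nat_lit 3) (nat_lit 226) (nat_lit 268) r7_226 r4_268 (nat_lit 0) (nat_lit 0) (nat_lit 7236911) (nat_lit 0x2024f415e) (nat_lit 273617967),
  Rx.mk (nat_lit 332) (nat_lit 4) (nat_lit 1) (nat_lit 5) (nat_lit 6) (nat_lit 224) (nat_lit 266) r7_224 r4_266 (nat_lit 9484367) (nat_lit 0) (nat_lit 0) (nat_lit 0x20056d4f2) (nat_lit 277919823),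
  Rx.mk (nat_lit 333) (nat_lit 5) (nat_lit 1) (nat_lit 5) (nat_lit 7) (nat_lit 227) (nat_lit 269) r7_227 r4_269 (nat_lit 0) (nat_lit 0) (nat_lit 0) (nat_lit 0x20056d4f2) (nat_lit 268435456),
  Rx.mk (nat_lit 460) (nat_lit 4) (nat_lit 1) (nat_lit 7) (nat_lit 6) (nat_lit 225) (nat_lit 267) r7_225 r4_267 (nat_lit 7262151) (nat_lit 0) (nat_lit 0) (nat_lit 0x202830002) (nat_lit 273435607),
  Rx.mk (nat_lit 461) (nat_lit 5) (nat_lit 1) (nat_lit 7) (nat_lit 7) (nat_lit 228) (nat_lit 270) r7_228 r4_270 (nat_lit 0) (nat_lit 0) (nat_lit 0) (nat_lit 0x20056d4f2) (nat_lit 268435456)]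
noncomputable def e39_10 : List Rx := [
  Rx.mk (nat_lit 197) (nat_lit 5) (nat_lit 0) (nat_lit 3) (nat_lit 5) (nat_lit 282) (nat_lit 282) r7_282 r6_282 (nat_lit 0) (nat_lit 3659927) (nat_lit 0) (nat_lit 0x1ff02ca2a) (nat_lit 273432533),
  Rx.mk (nat_lit 204) (nat_lit 4) (nat_lit 1) (nat_lit 3) (nat_lit 6) (nat_lit 280) (nat_lit 280) r7_280 r6_280 (nat_lit 2404456) (nat_lit 0) (nat_lit 0) (nat_lit 0x206fa235e) (nat_lit 263926362),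
  Rx.mk (nat_lit 205) (nat_lit 5) (nat_lit 1) (nat_lit 3) (nat_lit 7) (nat_lit 283) (nat_lit 284) r7_283 r6_284 (nat_lit 0) (nat_lit 0) (nat_lit 0) (nat_lit 0x2115c93d6) (nat_lit 250881906),
  Rx.mk (nat_lit 453) (nat_lit 5) (nat_lit 0) (nat_lit 7) (nat_lit 5) (nat_lit 284) (nat_lit 283) r7_284 r6_283 (nat_lit 0) (nat_lit 2404456) (nat_lit 0) (nat_lit 0x206fa235e) (nat_lit 263926362),
  Rx.mk (nat_lit 460) (nat_lit 4) (nat_lit 1) (nat_lit 7) (nat_lit 6) (nat_lit 281) (nat_lit 281) r7_281 r6_281 (nat_lit 3659927) (nat_lit 0) (nat_lit 0) (nat_lit 0x1ff02ca2a) (nat_lit 273432533),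
  Rx.mk (nat_lit 461) (nat_lit 5) (nat_lit 1) (nat_lit 7) (nat_lit 7) (nat_lit 285) (nat_lit 285) r7_285 r6_285 (nat_lit 0) (nat_lit 0) (nat_lit 0) (nat_lit 0x2115c93d6) (nat_lit 250881906)]
noncomputable def e39_11 : List Rx := [
  Rx.mk (nat_lit 460) (nat_lit 4) (nat_lit 1) (nat_lit 7) (nat_lit 6) (nat_lit 286) (nat_lit 256) r7_286 r5_256 (nat_lit 2920698) (nat_lit 0) (nat_lit 0) (nat_lit 0x1fb4347c0) (nat_lit 276638054),
  Rx.mk (nat_lit 461) (nat_lit 5) (nat_lit 1) (nat_lit 7) (nat_lit 7) (nat_lit 287) (nat_lit 257) r7_287 r5_257 (nat_lit 0) (nat_lit 0) (nat_lit 0) (nat_lit 0x204652198) (nat_lit 264207906)]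
noncomputable def e39_12 : List Rx := [
  Rx.mk (nat_lit 1) (nat_lit 1) (nat_lit 0) (nat_lit 0) (nat_lit 1) (nat_lit 319) (nat_lit 178) r7_319 r0_178 (nat_lit 0) (nat_lit 254935) (nat_lit 716691) (nat_lit 0x19bbb53e2) (nat_lit 375922732),
  Rx.mk (nat_lit 5) (nat_lit 5) (nat_lit 0) (nat_lit 0) (nat_lit 1) (nat_lit 325) (nat_lit 177) r7_325 r0_177 (nat_lit 0) (nat_lit 236105) (nat_lit 3352025) (nat_lit 0x15ef65efc) (nat_lit 443065536),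
  Rx.mk (nat_lit 9) (nat_lit 1) (nat_lit 1) (nat_lit 0) (nat_lit 3) (nat_lit 320) (nat_lit 180) r7_320 r0_180 (nat_lit 0) (nat_lit 0) (nat_lit 8466862) (nat_lit 0x1df10845a) (nat_lit 312056868),
  Rx.mk (nat_lit 13) (nat_lit 5) (nat_lit 1) (nat_lit 0) (nat_lit 3) (nat_lit 326) (nat_lit 179) r7_326 r0_179 (nat_lit 0) (nat_lit 0) (nat_lit 2435671) (nat_lit 0x1813fca48) (nat_lit 405583127),
  Rx.mk (nat_lit 17) (nat_lit 1) (nat_lit 2) (nat_lit 0) (nat_lit 3) (nat_lit 321) (nat_lit 181) r7_321 r0_181 (nat_lit 0) (nat_lit 0) (nat_lit 57895491) (nat_lit 0x20dbef6b0) (nat_lit 312330647),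
  Rx.mk (nat_lit 193) (nat_lit 1) (nat_lit 0) (nat_lit 3) (nat_lit 5) (nat_lit 322) (nat_lit 182) r7_322 r0_182 (nat_lit 0) (nat_lit 2189607) (nat_lit 0) (nat_lit 0x1fe25deee) (nat_lit 272854513),
  Rx.mk (nat_lit 201) (nat_lit 1) (nat_lit 1) (nat_lit 3) (nat_lit 7) (nat_lit 323) (nat_lit 183) r7_323 r0_183 (nat_lit 0) (nat_lit 0) (nat_lit 0) (nat_lit 0x2069e1e9c) (nat_lit 261918006),
  Rx.mk (nat_lit 209) (nat_lit 1) (nat_lit 2) (nat_lit 3) (nat_lit 7) (nat_lit 324) (nat_lit 184) r7_324 r0_184 (nat_lit 0) (nat_lit 0) (nat_lit 0) (nat_lit 0x2120dae14) (nat_lit 250172056)]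
noncomputable def e39_13 : List Rx := [
  Rx.mk (nat_lit 1) (nat_lit 1) (nat_lit 0) (nat_lit 0) (nat_lit 1) (nat_lit 327) (nat_lit 327) r7_327 r7_327 (nat_lit 0) (nat_lit 12452190) (nat_lit 12452190) (nat_lit 0x1b2db9852) (nat_lit 375430636),
  Rx.mk (nat_lit 5) (nat_lit 5) (nat_lit 0) (nat_lit 0) (nat_lit 1) (nat_lit 335) (nat_lit 335) r7_335 r7_335 (nat_lit 0) (nat_lit 3198509) (nat_lit 3198509) (nat_lit 0x1ad1629dc) (nat_lit 363026524),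
  Rx.mk (nat_lit 9) (nat_lit 1) (nat_lit 1) (nat_lit 0) (nat_lit 3) (nat_lit 328) (nat_lit 330) r7_328 r7_330 (nat_lit 0) (nat_lit 0) (nat_lit 9484367) (nat_lit 0x1f8256622) (nat_lit 286511973),
  Rx.mk (nat_lit 13) (nat_lit 5) (nat_lit 1) (nat_lit 0) (nat_lit 3) (nat_lit 336) (nat_lit 337) r7_336 r7_337 (nat_lit 0) (nat_lit 0) (nat_lit 4874341) (nat_lit 0x204d5da50) (nat_lit 268633447),
  Rx.mk (nat_lit 17) (nat_lit 1) (nat_lit 2) (nat_lit 0) (nat_lit 3) (nat_lit 329) (nat_lit 333) r7_329 r7_333 (nat_lit 0) (nat_lit 0) (nat_lit 9484367) (nat_lit 0x20056d4f2) (nat_lit 277919823),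
  Rx.mk (nat_lit 65) (nat_lit 1) (nat_lit 0) (nat_lit 1) (nat_lit 5) (nat_lit 330) (nat_lit 328) r7_330 r7_328 (nat_lit 0) (nat_lit 9484367) (nat_lit 0) (nat_lit 0x1f8256622) (nat_lit 286511973),
  Rx.mk (nat_lit 69) (nat_lit 5) (nat_lit 0) (nat_lit 1) (nat_lit 5) (nat_lit 337) (nat_lit 336) r7_337 r7_336 (nat_lit 0) (nat_lit 4874341) (nat_lit 0) (nat_lit 0x204d5da50) (nat_lit 268633447),
  Rx.mk (nat_lit 73) (nat_lit 1) (nat_lit 1) (nat_lit 1) (nat_lit 7) (nat_lit 331) (nat_lit 331) r7_331 r7_331 (nat_lit 0) (nat_lit 0) (nat_lit 0) (nat_lit 0x20056d4f2) (nat_lit 268435456),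
  Rx.mk (nat_lit 77) (nat_lit 5) (nat_lit 1) (nat_lit 1) (nat_lit 7) (nat_lit 338) (nat_lit 338) r7_338 r7_338 (nat_lit 0) (nat_lit 0) (nat_lit 0) (nat_lit 0x2031741f4) (nat_lit 265572906),
  Rx.mk (nat_lit 81) (nat_lit 1) (nat_lit 2) (nat_lit 1) (nat_lit 7) (nat_lit 332) (nat_lit 334) r7_332 r7_334 (nat_lit 0) (nat_lit 0) (nat_lit 0) (nat_lit 0x20056d4f2) (nat_lit 268435456),
  Rx.mk (nat_lit 193) (nat_lit 1) (nat_lit 0) (nat_lit 3) (nat_lit 5) (nat_lit 333) (nat_lit 329) r7_333 r7_329 (nat_lit 0) (nat_lit 9484367) (nat_lit 0) (nat_lit 0x20056d4f2) (nat_lit 277919823),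
  Rx.mk (nat_lit 201) (nat_lit 1) (nat_lit 1) (nat_lit 3) (nat_lit 7) (nat_lit 334) (nat_lit 332) r7_334 r7_332 (nat_lit 0) (nat_lit 0) (nat_lit 0) (nat_lit 0x20056d4f2) (nat_lit 268435456)]
noncomputable def e39_14 : List Rx := [
  Rx.mk (nat_lit 1) (nat_lit 1) (nat_lit 0) (nat_lit 0) (nat_lit 1) (nat_lit 381) (nat_lit 192) r7_381 r1_192 (nat_lit 0) (nat_lit 4648863) (nat_lit 10430206) (nat_lit 0x1ba0815a6) (nat_lit 357965125),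
  Rx.mk (nat_lit 9) (nat_lit 1) (nat_lit 1) (nat_lit 0) (nat_lit 3) (nat_lit 382) (nat_lit 193) r7_382 r1_193 (nat_lit 0) (nat_lit 0) (nat_lit 10636325) (nat_lit 0x1f952452e) (nat_lit 286423531),
  Rx.mk (nat_lit 17) (nat_lit 1) (nat_lit 2) (nat_lit 0) (nat_lit 3) (nat_lit 383) (nat_lit 194) r7_383 r1_194 (nat_lit 0) (nat_lit 0) (nat_lit 77834362) (nat_lit 0x23c840ddc) (nat_lit 284519518),
  Rx.mk (nat_lit 145) (nat_lit 1) (nat_lit 2) (nat_lit 2) (nat_lit 7) (nat_lit 384) (nat_lit 198) r7_384 r1_198 (nat_lit 0) (nat_lit 0) (nat_lit 0) (nat_lit 0x2186519be) (nat_lit 243665906),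
  Rx.mk (nat_lit 193) (nat_lit 1) (nat_lit 0) (nat_lit 3) (nat_lit 5) (nat_lit 385) (nat_lit 195) r7_385 r1_195 (nat_lit 0) (nat_lit 4369240) (nat_lit 0) (nat_lit 0x20a61f4ea) (nat_lit 262415396),
  Rx.mk (nat_lit 201) (nat_lit 1) (nat_lit 1) (nat_lit 3) (nat_lit 7) (nat_lit 386) (nat_lit 196) r7_386 r1_196 (nat_lit 0) (nat_lit 0) (nat_lit 0) (nat_lit 0x203d18672) (nat_lit 264818306),
  Rx.mk (nat_lit 209) (nat_lit 1) (nat_lit 2) (nat_lit 3) (nat_lit 7) (nat_lit 387) (nat_lit 197) r7_387 r1_197 (nat_lit 0) (nat_lit 0) (nat_lit 0) (nat_lit 0x203d18672) (nat_lit 264818306)]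
noncomputable def e39_15 : List Rx := [
  Rx.mk (nat_lit 1) (nat_lit 1) (nat_lit 0) (nat_lit 0) (nat_lit 1) (nat_lit 388) (nat_lit 248) r7_388 r8_248 (nat_lit 0) (nat_lit 10214042) (nat_lit 11320174) (nat_lit 0x19516debc) (nat_lit 403669772),
  Rx.mk (nat_lit 9) (nat_lit 1) (nat_lit 1) (nat_lit 0) (nat_lit 3) (nat_lit 389) (nat_lit 251) r7_389 r8_251 (nat_lit 0) (nat_lit 0) (nat_lit 9484367) (nat_lit 0x1ff43348e) (nat_lit 279041273),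
  Rx.mk (nat_lit 17) (nat_lit 1) (nat_lit 2) (nat_lit 0) (nat_lit 3) (nat_lit 390) (nat_lit 254) r7_390 r8_254 (nat_lit 0) (nat_lit 0) (nat_lit 9484367) (nat_lit 0x20056d4f2) (nat_lit 277919823),
  Rx.mk (nat_lit 65) (nat_lit 1) (nat_lit 0) (nat_lit 1) (nat_lit 5) (nat_lit 391) (nat_lit 249) r7_391 r8_249 (nat_lit 0) (nat_lit 9484367) (nat_lit 0) (nat_lit 0x1f9da5748) (nat_lit 284716123),
  Rx.mk (nat_lit 73) (nat_lit 1) (nat_lit 1) (nat_lit 1) (nat_lit 7) (nat_lit 392) (nat_lit 252) r7_392 r8_252 (nat_lit 0) (nat_lit 0) (nat_lit 0) (nat_lit 0x20056d4f2) (nat_lit 268435456),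
  Rx.mk (nat_lit 81) (nat_lit 1) (nat_lit 2) (nat_lit 1) (nat_lit 7) (nat_lit 393) (nat_lit 255) r7_393 r8_255 (nat_lit 0) (nat_lit 0) (nat_lit 0) (nat_lit 0x20056d4f2) (nat_lit 268435456),
  Rx.mk (nat_lit 145) (nat_lit 1) (nat_lit 2) (nat_lit 2) (nat_lit 7) (nat_lit 394) (nat_lit 256) r7_394 r8_256 (nat_lit 0) (nat_lit 0) (nat_lit 0) (nat_lit 0x20056d4f2) (nat_lit 268435456),
  Rx.mk (nat_lit 193) (nat_lit 1) (nat_lit 0) (nat_lit 3) (nat_lit 5) (nat_lit 395) (nat_lit 250) r7_395 r8_250 (nat_lit 0) (nat_lit 9484367) (nat_lit 0) (nat_lit 0x1ff7a7da4) (nat_lit 278815973),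
  Rx.mk (nat_lit 201) (nat_lit 1) (nat_lit 1) (nat_lit 3) (nat_lit 7) (nat_lit 396) (nat_lit 253) r7_396 r8_253 (nat_lit 0) (nat_lit 0) (nat_lit 0) (nat_lit 0x20056d4f2) (nat_lit 268435456)]
noncomputable def e39_16 : List Rx := [
  Rx.mk (nat_lit 65) (nat_lit 1) (nat_lit 0) (nat_lit 1) (nat_lit 5) (nat_lit 401) (nat_lit 185) r7_401 r8_185 (nat_lit 0) (nat_lit 9484367) (nat_lit 0) (nat_lit 0x1f8a43b50) (nat_lit 285991423),
  Rx.mk (nat_lit 69) (nat_lit 5) (nat_lit 0) (nat_lit 1) (nat_lit 5) (nat_lit 404) (nat_lit 184) r7_404 r8_184 (nat_lit 0) (nat_lit 6164355) (nat_lit 0) (nat_lit 0x20253bd24) (nat_lit 272515511),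
  Rx.mk (nat_lit 73) (nat_lit 1) (nat_lit 1) (nat_lit 1) (nat_lit 7) (nat_lit 402) (nat_lit 187) r7_402 r8_187 (nat_lit 0) (nat_lit 0) (nat_lit 0) (nat_lit 0x20056d4f2) (nat_lit 268435456),
  Rx.mk (nat_lit 77) (nat_lit 5) (nat_lit 1) (nat_lit 1) (nat_lit 7) (nat_lit 405) (nat_lit 186) r7_405 r8_186 (nat_lit 0) (nat_lit 0) (nat_lit 0) (nat_lit 0x20056d4f2) (nat_lit 268435456),
  Rx.mk (nat_lit 81) (nat_lit 1) (nat_lit 2) (nat_lit 1) (nat_lit 7) (nat_lit 403) (nat_lit 188) r7_403 r8_188 (nat_lit 0) (nat_lit 0) (nat_lit 0) (nat_lit 0x20056d4f2) (nat_lit 268435456)]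
noncomputable def e39_17 : List Rx := [
  Rx.mk (nat_lit 73) (nat_lit 1) (nat_lit 1) (nat_lit 1) (nat_lit 7) (nat_lit 406) (nat_lit 257) r7_406 r9_257 (nat_lit 0) (nat_lit 0) (nat_lit 0) (nat_lit 0x20056d4f2) (nat_lit 268435456),
  Rx.mk (nat_lit 77) (nat_lit 5) (nat_lit 1) (nat_lit 1) (nat_lit 7) (nat_lit 407) (nat_lit 258) r7_407 r9_258 (nat_lit 0) (nat_lit 0) (nat_lit 0) (nat_lit 0x20056d4f2) (nat_lit 268435456),
  Rx.mk (nat_lit 333) (nat_lit 5) (nat_lit 1) (nat_lit 5) (nat_lit 7) (nat_lit 408) (nat_lit 259) r7_408 r9_259 (nat_lit 0) (nat_lit 0) (nat_lit 0) (nat_lit 0x20056d4f2) (nat_lit 268435456)]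
noncomputable def e39_18 : List Rx := [
  Rx.mk (nat_lit 5) (nat_lit 5) (nat_lit 0) (nat_lit 0) (nat_lit 1) (nat_lit 427) (nat_lit 167) r7_427 r4_167 (nat_lit 0) (nat_lit 3498461) (nat_lit 9573033) (nat_lit 0x17c42fa88) (nat_lit 421543700),
  Rx.mk (nat_lit 13) (nat_lit 5) (nat_lit 1) (nat_lit 0) (nat_lit 3) (nat_lit 428) (nat_lit 168) r7_428 r4_168 (nat_lit 0) (nat_lit 0) (nat_lit 8007799) (nat_lit 0x1fe9cda3a) (nat_lit 278231055),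
  Rx.mk (nat_lit 193) (nat_lit 1) (nat_lit 0) (nat_lit 3) (nat_lit 5) (nat_lit 424) (nat_lit 170) r7_424 r4_170 (nat_lit 0) (nat_lit 4626214) (nat_lit 0) (nat_lit 0x207ca1424) (nat_lit 265335720),
  Rx.mk (nat_lit 197) (nat_lit 5) (nat_lit 0) (nat_lit 3) (nat_lit 5) (nat_lit 429) (nat_lit 169) r7_429 r4_169 (nat_lit 0) (nat_lit 2514868) (nat_lit 0) (nat_lit 0x1db219e9c) (nat_lit 310255074),
  Rx.mk (nat_lit 201) (nat_lit 1) (nat_lit 1) (nat_lit 3) (nat_lit 7) (nat_lit 425) (nat_lit 172) r7_425 r4_172 (nat_lit 0) (nat_lit 0) (nat_lit 0) (nat_lit 0x206f820c2) (nat_lit 261563506),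
  Rx.mk (nat_lit 205) (nat_lit 5) (nat_lit 1) (nat_lit 3) (nat_lit 7) (nat_lit 430) (nat_lit 171) r7_430 r4_171 (nat_lit 0) (nat_lit 0) (nat_lit 0) (nat_lit 0x21766457e) (nat_lit 244694406),
  Rx.mk (nat_lit 209) (nat_lit 1) (nat_lit 2) (nat_lit 3) (nat_lit 7) (nat_lit 426) (nat_lit 173) r7_426 r4_173 (nat_lit 0) (nat_lit 0) (nat_lit 0) (nat_lit 0x206f820c2) (nat_lit 261563506)]
noncomputable def e39_19 : List Rx := [
  Rx.mk (nat_lit 5) (nat_lit 5) (nat_lit 0) (nat_lit 0) (nat_lit 1) (nat_lit 433) (nat_lit 286) r7_433 r10_286 (nat_lit 0) (nat_lit 3623461) (nat_lit 2412682) (nat_lit 0x1b6a7120e) (nat_lit 352500749),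
  Rx.mk (nat_lit 13) (nat_lit 5) (nat_lit 1) (nat_lit 0) (nat_lit 3) (nat_lit 434) (nat_lit 289) r7_434 r10_289 (nat_lit 0) (nat_lit 0) (nat_lit 5997010) (nat_lit 0x1fd77613e) (nat_lit 277419766),
  Rx.mk (nat_lit 69) (nat_lit 5) (nat_lit 0) (nat_lit 1) (nat_lit 5) (nat_lit 435) (nat_lit 287) r7_435 r10_287 (nat_lit 0) (nat_lit 6317275) (nat_lit 0) (nat_lit 0x201d9ccf8) (nat_lit 273168531),
  Rx.mk (nat_lit 77) (nat_lit 5) (nat_lit 1) (nat_lit 1) (nat_lit 7) (nat_lit 436) (nat_lit 290) r7_436 r10_290 (nat_lit 0) (nat_lit 0) (nat_lit 0) (nat_lit 0x20056d4f2) (nat_lit 268435456),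
  Rx.mk (nat_lit 193) (nat_lit 1) (nat_lit 0) (nat_lit 3) (nat_lit 5) (nat_lit 431) (nat_lit 284) r7_431 r10_284 (nat_lit 0) (nat_lit 10225910) (nat_lit 0) (nat_lit 0x1ff76c8d0) (nat_lit 279572466),
  Rx.mk (nat_lit 197) (nat_lit 5) (nat_lit 0) (nat_lit 3) (nat_lit 5) (nat_lit 437) (nat_lit 288) r7_437 r10_288 (nat_lit 0) (nat_lit 6317275) (nat_lit 0) (nat_lit 0x201d9ccf8) (nat_lit 273168531),
  Rx.mk (nat_lit 201) (nat_lit 1) (nat_lit 1) (nat_lit 3) (nat_lit 7) (nat_lit 432) (nat_lit 285) r7_432 r10_285 (nat_lit 0) (nat_lit 0) (nat_lit 0) (nat_lit 0x20056d4f2) (nat_lit 268435456),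
  Rx.mk (nat_lit 205) (nat_lit 5) (nat_lit 1) (nat_lit 3) (nat_lit 7) (nat_lit 438) (nat_lit 291) r7_438 r10_291 (nat_lit 0) (nat_lit 0) (nat_lit 0) (nat_lit 0x20056d4f2) (nat_lit 268435456)]
noncomputable def e39_20 : List Rx := [
  Rx.mk (nat_lit 193) (nat_lit 1) (nat_lit 0) (nat_lit 3) (nat_lit 5) (nat_lit 439) (nat_lit 303) r7_439 r11_303 (nat_lit 0) (nat_lit 6916844) (nat_lit 0) (nat_lit 0x20319bac4) (nat_lit 272480450),
  Rx.mk (nat_lit 197) (nat_lit 5) (nat_lit 0) (nat_lit 3) (nat_lit 5) (nat_lit 442) (nat_lit 306) r7_442 r11_306 (nat_lit 0) (nat_lit 3347934) (nat_lit 0) (nat_lit 0x210cc8818) (nat_lit 254800140),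
  Rx.mk (nat_lit 201) (nat_lit 1) (nat_lit 1) (nat_lit 3) (nat_lit 7) (nat_lit 440) (nat_lit 304) r7_440 r11_304 (nat_lit 0) (nat_lit 0) (nat_lit 0) (nat_lit 0x20056d4f2) (nat_lit 268435456),
  Rx.mk (nat_lit 205) (nat_lit 5) (nat_lit 1) (nat_lit 3) (nat_lit 7) (nat_lit 443) (nat_lit 307) r7_443 r11_307 (nat_lit 0) (nat_lit 0) (nat_lit 0) (nat_lit 0x212ac02da) (nat_lit 249540606),
  Rx.mk (nat_lit 209) (nat_lit 1) (nat_lit 2) (nat_lit 3) (nat_lit 7) (nat_lit 441) (nat_lit 305) r7_441 r11_305 (nat_lit 0) (nat_lit 0) (nat_lit 0) (nat_lit 0x20056d4f2) (nat_lit 268435456)]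
noncomputable def e39_21 : List Rx := [
  Rx.mk (nat_lit 77) (nat_lit 5) (nat_lit 1) (nat_lit 1) (nat_lit 7) (nat_lit 409) (nat_lit 259) r7_409 r9_259 (nat_lit 0) (nat_lit 0) (nat_lit 0) (nat_lit 0x20056d4f2) (nat_lit 268435456),
  Rx.mk (nat_lit 333) (nat_lit 5) (nat_lit 1) (nat_lit 5) (nat_lit 7) (nat_lit 410) (nat_lit 258) r7_410 r9_258 (nat_lit 0) (nat_lit 0) (nat_lit 0) (nat_lit 0x20056d4f2) (nat_lit 268435456),
  Rx.mk (nat_lit 365) (nat_lit 5) (nat_lit 5) (nat_lit 5) (nat_lit 7) (nat_lit 411) (nat_lit 257) r7_411 r9_257 (nat_lit 0) (nat_lit 0) (nat_lit 0) (nat_lit 0x20056d4f2) (nat_lit 268435456)]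
noncomputable def e39_22 : List Rx := [
  Rx.mk (nat_lit 268) (nat_lit 4) (nat_lit 1) (nat_lit 4) (nat_lit 2) (nat_lit 56) (nat_lit 177) r7_56 r0_177 (nat_lit 236105) (nat_lit 0) (nat_lit 3352025) (nat_lit 0x15ef65efc) (nat_lit 443065536),
  Rx.mk (nat_lit 269) (nat_lit 5) (nat_lit 1) (nat_lit 4) (nat_lit 3) (nat_lit 59) (nat_lit 179) r7_59 r0_179 (nat_lit 0) (nat_lit 0) (nat_lit 2435671) (nat_lit 0x1813fca48) (nat_lit 405583127),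
  Rx.mk (nat_lit 300) (nat_lit 4) (nat_lit 5) (nat_lit 4) (nat_lit 2) (nat_lit 57) (nat_lit 178) r7_57 r0_178 (nat_lit 254935) (nat_lit 0) (nat_lit 716691) (nat_lit 0x19bbb53e2) (nat_lit 375922732),
  Rx.mk (nat_lit 301) (nat_lit 5) (nat_lit 5) (nat_lit 4) (nat_lit 3) (nat_lit 60) (nat_lit 180) r7_60 r0_180 (nat_lit 0) (nat_lit 0) (nat_lit 8466862) (nat_lit 0x1df10845a) (nat_lit 312056868),
  Rx.mk (nat_lit 302) (nat_lit 6) (nat_lit 5) (nat_lit 4) (nat_lit 3) (nat_lit 62) (nat_lit 181) r7_62 r0_181 (nat_lit 0) (nat_lit 0) (nat_lit 57895491) (nat_lit 0x20dbef6b0) (nat_lit 312330647),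
  Rx.mk (nat_lit 492) (nat_lit 4) (nat_lit 5) (nat_lit 7) (nat_lit 6) (nat_lit 58) (nat_lit 182) r7_58 r0_182 (nat_lit 2189607) (nat_lit 0) (nat_lit 0) (nat_lit 0x1fe25deee) (nat_lit 272854513),
  Rx.mk (nat_lit 493) (nat_lit 5) (nat_lit 5) (nat_lit 7) (nat_lit 7) (nat_lit 61) (nat_lit 183) r7_61 r0_183 (nat_lit 0) (nat_lit 0) (nat_lit 0) (nat_lit 0x2069e1e9c) (nat_lit 261918006),
  Rx.mk (nat_lit 494) (nat_lit 6) (nat_lit 5) (nat_lit 7) (nat_lit 7) (nat_lit 63) (nat_lit 184) r7_63 r0_184 (nat_lit 0) (nat_lit 0) (nat_lit 0) (nat_lit 0x2120dae14) (nat_lit 250172056)]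
noncomputable def e39_23 : List Rx := [
  Rx.mk (nat_lit 300) (nat_lit 4) (nat_lit 5) (nat_lit 4) (nat_lit 2) (nat_lit 64) (nat_lit 192) r7_64 r1_192 (nat_lit 4648863) (nat_lit 0) (nat_lit 10430206) (nat_lit 0x1ba0815a6) (nat_lit 357965125),
  Rx.mk (nat_lit 301) (nat_lit 5) (nat_lit 5) (nat_lit 4) (nat_lit 3) (nat_lit 66) (nat_lit 193) r7_66 r1_193 (nat_lit 0) (nat_lit 0) (nat_lit 10636325) (nat_lit 0x1f952452e) (nat_lit 286423531),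
  Rx.mk (nat_lit 302) (nat_lit 6) (nat_lit 5) (nat_lit 4) (nat_lit 3) (nat_lit 68) (nat_lit 194) r7_68 r1_194 (nat_lit 0) (nat_lit 0) (nat_lit 77834362) (nat_lit 0x23c840ddc) (nat_lit 284519518),
  Rx.mk (nat_lit 430) (nat_lit 6) (nat_lit 5) (nat_lit 6) (nat_lit 7) (nat_lit 69) (nat_lit 198) r7_69 r1_198 (nat_lit 0) (nat_lit 0) (nat_lit 0) (nat_lit 0x2186519be) (nat_lit 243665906),
  Rx.mk (nat_lit 492) (nat_lit 4) (nat_lit 5) (nat_lit 7) (nat_lit 6) (nat_lit 65) (nat_lit 195) r7_65 r1_195 (nat_lit 4369240) (nat_lit 0) (nat_lit 0) (nat_lit 0x20a61f4ea) (nat_lit 262415396),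
  Rx.mk (nat_lit 493) (nat_lit 5) (nat_lit 5) (nat_lit 7) (nat_lit 7) (nat_lit 67) (nat_lit 196) r7_67 r1_196 (nat_lit 0) (nat_lit 0) (nat_lit 0) (nat_lit 0x203d18672) (nat_lit 264818306),
  Rx.mk (nat_lit 494) (nat_lit 6) (nat_lit 5) (nat_lit 7) (nat_lit 7) (nat_lit 70) (nat_lit 197) r7_70 r1_197 (nat_lit 0) (nat_lit 0) (nat_lit 0) (nat_lit 0x203d18672) (nat_lit 264818306)]
noncomputable def e39_24 : List Rx := [
  Rx.mk (nat_lit 268) (nat_lit 4) (nat_lit 1) (nat_lit 4) (nat_lit 2) (nat_lit 71) (nat_lit 167) r7_71 r4_167 (nat_lit 3498461) (nat_lit 0) (nat_lit 9573033) (nat_lit 0x17c42fa88) (nat_lit 421543700),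
  Rx.mk (nat_lit 269) (nat_lit 5) (nat_lit 1) (nat_lit 4) (nat_lit 3) (nat_lit 74) (nat_lit 168) r7_74 r4_168 (nat_lit 0) (nat_lit 0) (nat_lit 8007799) (nat_lit 0x1fe9cda3a) (nat_lit 278231055),
  Rx.mk (nat_lit 460) (nat_lit 4) (nat_lit 1) (nat_lit 7) (nat_lit 6) (nat_lit 72) (nat_lit 169) r7_72 r4_169 (nat_lit 2514868) (nat_lit 0) (nat_lit 0) (nat_lit 0x1db219e9c) (nat_lit 310255074),
  Rx.mk (nat_lit 461) (nat_lit 5) (nat_lit 1) (nat_lit 7) (nat_lit 7) (nat_lit 75) (nat_lit 171) r7_75 r4_171 (nat_lit 0) (nat_lit 0) (nat_lit 0) (nat_lit 0x21766457e) (nat_lit 244694406),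
  Rx.mk (nat_lit 492) (nat_lit 4) (nat_lit 5) (nat_lit 7) (nat_lit 6) (nat_lit 73) (nat_lit 170) r7_73 r4_170 (nat_lit 4626214) (nat_lit 0) (nat_lit 0) (nat_lit 0x207ca1424) (nat_lit 265335720),
  Rx.mk (nat_lit 493) (nat_lit 5) (nat_lit 5) (nat_lit 7) (nat_lit 7) (nat_lit 76) (nat_lit 172) r7_76 r4_172 (nat_lit 0) (nat_lit 0) (nat_lit 0) (nat_lit 0x206f820c2) (nat_lit 261563506),
  Rx.mk (nat_lit 494) (nat_lit 6) (nat_lit 5) (nat_lit 7) (nat_lit 7) (nat_lit 77) (nat_lit 173) r7_77 r4_173 (nat_lit 0) (nat_lit 0) (nat_lit 0) (nat_lit 0x206f820c2) (nat_lit 261563506)]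
noncomputable def e39_25 : List Rx := [
  Rx.mk (nat_lit 268) (nat_lit 4) (nat_lit 1) (nat_lit 4) (nat_lit 2) (nat_lit 229) (nat_lit 335) r7_229 r7_335 (nat_lit 3198509) (nat_lit 0) (nat_lit 3198509) (nat_lit 0x1ad1629dc) (nat_lit 363026524),
  Rx.mk (nat_lit 269) (nat_lit 5) (nat_lit 1) (nat_lit 4) (nat_lit 3) (nat_lit 234) (nat_lit 337) r7_234 r7_337 (nat_lit 0) (nat_lit 0) (nat_lit 4874341) (nat_lit 0x204d5da50) (nat_lit 268633447),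
  Rx.mk (nat_lit 300) (nat_lit 4) (nat_lit 5) (nat_lit 4) (nat_lit 2) (nat_lit 230) (nat_lit 327) r7_230 r7_327 (nat_lit 12452190) (nat_lit 0) (nat_lit 12452190) (nat_lit 0x1b2db9852) (nat_lit 375430636),
  Rx.mk (nat_lit 301) (nat_lit 5) (nat_lit 5) (nat_lit 4) (nat_lit 3) (nat_lit 235) (nat_lit 330) r7_235 r7_330 (nat_lit 0) (nat_lit 0) (nat_lit 9484367) (nat_lit 0x1f8256622) (nat_lit 286511973),
  Rx.mk (nat_lit 302) (nat_lit 6) (nat_lit 5) (nat_lit 4) (nat_lit 3) (nat_lit 239) (nat_lit 333) r7_239 r7_333 (nat_lit 0) (nat_lit 0) (nat_lit 9484367) (nat_lit 0x20056d4f2) (nat_lit 277919823),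
  Rx.mk (nat_lit 332) (nat_lit 4) (nat_lit 1) (nat_lit 5) (nat_lit 6) (nat_lit 231) (nat_lit 336) r7_231 r7_336 (nat_lit 4874341) (nat_lit 0) (nat_lit 0) (nat_lit 0x204d5da50) (nat_lit 268633447),
  Rx.mk (nat_lit 333) (nat_lit 5) (nat_lit 1) (nat_lit 5) (nat_lit 7) (nat_lit 236) (nat_lit 338) r7_236 r7_338 (nat_lit 0) (nat_lit 0) (nat_lit 0) (nat_lit 0x2031741f4) (nat_lit 265572906),
  Rx.mk (nat_lit 364) (nat_lit 4) (nat_lit 5) (nat_lit 5) (nat_lit 6) (nat_lit 232) (nat_lit 328) r7_232 r7_328 (nat_lit 9484367) (nat_lit 0) (nat_lit 0) (nat_lit 0x1f8256622) (nat_lit 286511973),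
  Rx.mk (nat_lit 365) (nat_lit 5) (nat_lit 5) (nat_lit 5) (nat_lit 7) (nat_lit 237) (nat_lit 331) r7_237 r7_331 (nat_lit 0) (nat_lit 0) (nat_lit 0) (nat_lit 0x20056d4f2) (nat_lit 268435456),
  Rx.mk (nat_lit 366) (nat_lit 6) (nat_lit 5) (nat_lit 5) (nat_lit 7) (nat_lit 240) (nat_lit 334) r7_240 r7_334 (nat_lit 0) (nat_lit 0) (nat_lit 0) (nat_lit 0x20056d4f2) (nat_lit 268435456),
  Rx.mk (nat_lit 492) (nat_lit 4) (nat_lit 5) (nat_lit 7) (nat_lit 6) (nat_lit 233) (nat_lit 329) r7_233 r7_329 (nat_lit 9484367) (nat_lit 0) (nat_lit 0) (nat_lit 0x20056d4f2) (nat_lit 277919823),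
  Rx.mk (nat_lit 493) (nat_lit 5) (nat_lit 5) (nat_lit 7) (nat_lit 7) (nat_lit 238) (nat_lit 332) r7_238 r7_332 (nat_lit 0) (nat_lit 0) (nat_lit 0) (nat_lit 0x20056d4f2) (nat_lit 268435456)]
noncomputable def e39_26 : List Rx := [
  Rx.mk (nat_lit 300) (nat_lit 4) (nat_lit 5) (nat_lit 4) (nat_lit 2) (nat_lit 246) (nat_lit 248) r7_246 r8_248 (nat_lit 10214042) (nat_lit 0) (nat_lit 11320174) (nat_lit 0x19516debc) (nat_lit 403669772),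
  Rx.mk (nat_lit 301) (nat_lit 5) (nat_lit 5) (nat_lit 4) (nat_lit 3) (nat_lit 249) (nat_lit 251) r7_249 r8_251 (nat_lit 0) (nat_lit 0) (nat_lit 9484367) (nat_lit 0x1ff43348e) (nat_lit 279041273),
  Rx.mk (nat_lit 302) (nat_lit 6) (nat_lit 5) (nat_lit 4) (nat_lit 3) (nat_lit 252) (nat_lit 254) r7_252 r8_254 (nat_lit 0) (nat_lit 0) (nat_lit 9484367) (nat_lit 0x20056d4f2) (nat_lit 277919823),
  Rx.mk (nat_lit 364) (nat_lit 4) (nat_lit 5) (nat_lit 5) (nat_lit 6) (nat_lit 247) (nat_lit 249) r7_247 r8_249 (nat_lit 9484367) (nat_lit 0) (nat_lit 0) (nat_lit 0x1f9da5748) (nat_lit 284716123),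
  Rx.mk (nat_lit 365) (nat_lit 5) (nat_lit 5) (nat_lit 5) (nat_lit 7) (nat_lit 250) (nat_lit 252) r7_250 r8_252 (nat_lit 0) (nat_lit 0) (nat_lit 0) (nat_lit 0x20056d4f2) (nat_lit 268435456),
  Rx.mk (nat_lit 366) (nat_lit 6) (nat_lit 5) (nat_lit 5) (nat_lit 7) (nat_lit 253) (nat_lit 255) r7_253 r8_255 (nat_lit 0) (nat_lit 0) (nat_lit 0) (nat_lit 0x20056d4f2) (nat_lit 268435456),
  Rx.mk (nat_lit 430) (nat_lit 6) (nat_lit 5) (nat_lit 6) (nat_lit 7) (nat_lit 254) (nat_lit 256) r7_254 r8_256 (nat_lit 0) (nat_lit 0) (nat_lit 0) (nat_lit 0x20056d4f2) (nat_lit 268435456),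
  Rx.mk (nat_lit 492) (nat_lit 4) (nat_lit 5) (nat_lit 7) (nat_lit 6) (nat_lit 248) (nat_lit 250) r7_248 r8_250 (nat_lit 9484367) (nat_lit 0) (nat_lit 0) (nat_lit 0x1ff7a7da4) (nat_lit 278815973),
  Rx.mk (nat_lit 493) (nat_lit 5) (nat_lit 5) (nat_lit 7) (nat_lit 7) (nat_lit 251) (nat_lit 253) r7_251 r8_253 (nat_lit 0) (nat_lit 0) (nat_lit 0) (nat_lit 0x20056d4f2) (nat_lit 268435456)]
noncomputable def e39_27 : List Rx := [
  Rx.mk (nat_lit 332) (nat_lit 4) (nat_lit 1) (nat_lit 5) (nat_lit 6) (nat_lit 241) (nat_lit 184) r7_241 r8_184 (nat_lit 6164355) (nat_lit 0) (nat_lit 0) (nat_lit 0x20253bd24) (nat_lit 272515511),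
  Rx.mk (nat_lit 333) (nat_lit 5) (nat_lit 1) (nat_lit 5) (nat_lit 7) (nat_lit 243) (nat_lit 186) r7_243 r8_186 (nat_lit 0) (nat_lit 0) (nat_lit 0) (nat_lit 0x20056d4f2) (nat_lit 268435456),
  Rx.mk (nat_lit 364) (nat_lit 4) (nat_lit 5) (nat_lit 5) (nat_lit 6) (nat_lit 242) (nat_lit 185) r7_242 r8_185 (nat_lit 9484367) (nat_lit 0) (nat_lit 0) (nat_lit 0x1f8a43b50) (nat_lit 285991423),
  Rx.mk (nat_lit 365) (nat_lit 5) (nat_lit 5) (nat_lit 5) (nat_lit 7) (nat_lit 244) (nat_lit 187) r7_244 r8_187 (nat_lit 0) (nat_lit 0) (nat_lit 0) (nat_lit 0x20056d4f2) (nat_lit 268435456),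
  Rx.mk (nat_lit 366) (nat_lit 6) (nat_lit 5) (nat_lit 5) (nat_lit 7) (nat_lit 245) (nat_lit 188) r7_245 r8_188 (nat_lit 0) (nat_lit 0) (nat_lit 0) (nat_lit 0x20056d4f2) (nat_lit 268435456)]
noncomputable def e39_28 : List Rx := [
  Rx.mk (nat_lit 268) (nat_lit 4) (nat_lit 1) (nat_lit 4) (nat_lit 2) (nat_lit 255) (nat_lit 286) r7_255 r10_286 (nat_lit 3623461) (nat_lit 0) (nat_lit 2412682) (nat_lit 0x1b6a7120e) (nat_lit 352500749),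
  Rx.mk (nat_lit 269) (nat_lit 5) (nat_lit 1) (nat_lit 4) (nat_lit 3) (nat_lit 259) (nat_lit 289) r7_259 r10_289 (nat_lit 0) (nat_lit 0) (nat_lit 5997010) (nat_lit 0x1fd77613e) (nat_lit 277419766),
  Rx.mk (nat_lit 332) (nat_lit 4) (nat_lit 1) (nat_lit 5) (nat_lit 6) (nat_lit 256) (nat_lit 287) r7_256 r10_287 (nat_lit 6317275) (nat_lit 0) (nat_lit 0) (nat_lit 0x201d9ccf8) (nat_lit 273168531),
  Rx.mk (nat_lit 333) (nat_lit 5) (nat_lit 1) (nat_lit 5) (nat_lit 7) (nat_lit 260) (nat_lit 290) r7_260 r10_290 (nat_lit 0) (nat_lit 0) (nat_lit 0) (nat_lit 0x20056d4f2) (nat_lit 268435456),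
  Rx.mk (nat_lit 460) (nat_lit 4) (nat_lit 1) (nat_lit 7) (nat_lit 6) (nat_lit 257) (nat_lit 288) r7_257 r10_288 (nat_lit 6317275) (nat_lit 0) (nat_lit 0) (nat_lit 0x201d9ccf8) (nat_lit 273168531),
  Rx.mk (nat_lit 461) (nat_lit 5) (nat_lit 1) (nat_lit 7) (nat_lit 7) (nat_lit 261) (nat_lit 291) r7_261 r10_291 (nat_lit 0) (nat_lit 0) (nat_lit 0) (nat_lit 0x20056d4f2) (nat_lit 268435456),
  Rx.mk (nat_lit 492) (nat_lit 4) (nat_lit 5) (nat_lit 7) (nat_lit 6) (nat_lit 258) (nat_lit 284) r7_258 r10_284 (nat_lit 10225910) (nat_lit 0) (nat_lit 0) (nat_lit 0x1ff76c8d0) (nat_lit 279572466),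
  Rx.mk (nat_lit 493) (nat_lit 5) (nat_lit 5) (nat_lit 7) (nat_lit 7) (nat_lit 262) (nat_lit 285) r7_262 r10_285 (nat_lit 0) (nat_lit 0) (nat_lit 0) (nat_lit 0x20056d4f2) (nat_lit 268435456)]
noncomputable def e39_29 : List Rx := [
  Rx.mk (nat_lit 460) (nat_lit 4) (nat_lit 1) (nat_lit 7) (nat_lit 6) (nat_lit 288) (nat_lit 306) r7_288 r11_306 (nat_lit 3347934) (nat_lit 0) (nat_lit 0) (nat_lit 0x210cc8818) (nat_lit 254800140),
  Rx.mk (nat_lit 461) (nat_lit 5) (nat_lit 1) (nat_lit 7) (nat_lit 7) (nat_lit 290) (nat_lit 307) r7_290 r11_307 (nat_lit 0) (nat_lit 0) (nat_lit 0) (nat_lit 0x212ac02da) (nat_lit 249540606),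
  Rx.mk (nat_lit 492) (nat_lit 4) (nat_lit 5) (nat_lit 7) (nat_lit 6) (nat_lit 289) (nat_lit 303) r7_289 r11_303 (nat_lit 6916844) (nat_lit 0) (nat_lit 0) (nat_lit 0x20319bac4) (nat_lit 272480450),
  Rx.mk (nat_lit 493) (nat_lit 5) (nat_lit 5) (nat_lit 7) (nat_lit 7) (nat_lit 291) (nat_lit 304) r7_291 r11_304 (nat_lit 0) (nat_lit 0) (nat_lit 0) (nat_lit 0x20056d4f2) (nat_lit 268435456),
  Rx.mk (nat_lit 494) (nat_lit 6) (nat_lit 5) (nat_lit 7) (nat_lit 7) (nat_lit 292) (nat_lit 305) r7_292 r11_305 (nat_lit 0) (nat_lit 0) (nat_lit 0) (nat_lit 0x20056d4f2) (nat_lit 268435456)]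
noncomputable def e39_30 : List Rx := [
  Rx.mk (nat_lit 5) (nat_lit 5) (nat_lit 0) (nat_lit 0) (nat_lit 1) (nat_lit 444) (nat_lit 184) r7_444 r5_184 (nat_lit 0) (nat_lit 2663217) (nat_lit 9588172) (nat_lit 0x1bf102cbe) (nat_lit 349792345),
  Rx.mk (nat_lit 13) (nat_lit 5) (nat_lit 1) (nat_lit 0) (nat_lit 3) (nat_lit 445) (nat_lit 185) r7_445 r5_185 (nat_lit 0) (nat_lit 0) (nat_lit 9484367) (nat_lit 0x20056d4f2) (nat_lit 277919823),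
  Rx.mk (nat_lit 197) (nat_lit 5) (nat_lit 0) (nat_lit 3) (nat_lit 5) (nat_lit 446) (nat_lit 186) r7_446 r5_186 (nat_lit 0) (nat_lit 4398806) (nat_lit 0) (nat_lit 0x200652368) (nat_lit 272736762),
  Rx.mk (nat_lit 205) (nat_lit 5) (nat_lit 1) (nat_lit 3) (nat_lit 7) (nat_lit 447) (nat_lit 187) r7_447 r5_187 (nat_lit 0) (nat_lit 0) (nat_lit 0) (nat_lit 0x20b6ad88e) (nat_lit 256983056),
  Rx.mk (nat_lit 221) (nat_lit 5) (nat_lit 3) (nat_lit 3) (nat_lit 7) (nat_lit 448) (nat_lit 188) r7_448 r5_188 (nat_lit 0) (nat_lit 0) (nat_lit 0) (nat_lit 0x1f764566c) (nat_lit 277826656)]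
noncomputable def e39_31 : List Rx := [
  Rx.mk (nat_lit 5) (nat_lit 5) (nat_lit 0) (nat_lit 0) (nat_lit 1) (nat_lit 449) (nat_lit 212) r7_449 r11_212 (nat_lit 0) (nat_lit 13980483) (nat_lit 37534727) (nat_lit 0x1e7b17aba) (nat_lit 345961816),
  Rx.mk (nat_lit 13) (nat_lit 5) (nat_lit 1) (nat_lit 0) (nat_lit 3) (nat_lit 450) (nat_lit 213) r7_450 r11_213 (nat_lit 0) (nat_lit 0) (nat_lit 9484367) (nat_lit 0x20056d4f2) (nat_lit 277919823),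
  Rx.mk (nat_lit 69) (nat_lit 5) (nat_lit 0) (nat_lit 1) (nat_lit 5) (nat_lit 451) (nat_lit 214) r7_451 r11_214 (nat_lit 0) (nat_lit 9484367) (nat_lit 0) (nat_lit 0x20056d4f2) (nat_lit 277919823),
  Rx.mk (nat_lit 77) (nat_lit 5) (nat_lit 1) (nat_lit 1) (nat_lit 7) (nat_lit 452) (nat_lit 215) r7_452 r11_215 (nat_lit 0) (nat_lit 0) (nat_lit 0) (nat_lit 0x20056d4f2) (nat_lit 268435456),
  Rx.mk (nat_lit 197) (nat_lit 5) (nat_lit 0) (nat_lit 3) (nat_lit 5) (nat_lit 453) (nat_lit 216) r7_453 r11_216 (nat_lit 0) (nat_lit 9484367) (nat_lit 0) (nat_lit 0x20056d4f2) (nat_lit 277919823),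
  Rx.mk (nat_lit 205) (nat_lit 5) (nat_lit 1) (nat_lit 3) (nat_lit 7) (nat_lit 454) (nat_lit 217) r7_454 r11_217 (nat_lit 0) (nat_lit 0) (nat_lit 0) (nat_lit 0x20056d4f2) (nat_lit 268435456),
  Rx.mk (nat_lit 221) (nat_lit 5) (nat_lit 3) (nat_lit 3) (nat_lit 7) (nat_lit 455) (nat_lit 218) r7_455 r11_218 (nat_lit 0) (nat_lit 0) (nat_lit 0) (nat_lit 0x20056d4f2) (nat_lit 268435456)]
noncomputable def e39_32 : List Rx := [
  Rx.mk (nat_lit 199) (nat_lit 7) (nat_lit 0) (nat_lit 3) (nat_lit 5) (nat_lit 84) (nat_lit 114) r7_84 r6_114 (nat_lit 0) (nat_lit 2249514) (nat_lit 0) (nat_lit 0x1fa7a982a) (nat_lit 276775820),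
  Rx.mk (nat_lit 207) (nat_lit 7) (nat_lit 1) (nat_lit 3) (nat_lit 7) (nat_lit 85) (nat_lit 115) r7_85 r6_115 (nat_lit 0) (nat_lit 0) (nat_lit 0) (nat_lit 0x218b34328) (nat_lit 243360356),
  Rx.mk (nat_lit 452) (nat_lit 4) (nat_lit 0) (nat_lit 7) (nat_lit 4) (nat_lit 78) (nat_lit 106) r7_78 r6_106 (nat_lit 293441) (nat_lit 285501) (nat_lit 0) (nat_lit 0x1bd42f27c) (nat_lit 339938198),
  Rx.mk (nat_lit 453) (nat_lit 5) (nat_lit 0) (nat_lit 7) (nat_lit 5) (nat_lit 81) (nat_lit 109) r7_81 r6_109 (nat_lit 0) (nat_lit 3269233) (nat_lit 0) (nat_lit 0x20b93e59e) (nat_lit 260068789),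
  Rx.mk (nat_lit 455) (nat_lit 7) (nat_lit 0) (nat_lit 7) (nat_lit 5) (nat_lit 86) (nat_lit 112) r7_86 r6_112 (nat_lit 0) (nat_lit 7768452) (nat_lit 0) (nat_lit 0x1f2326f76) (nat_lit 291082808),
  Rx.mk (nat_lit 460) (nat_lit 4) (nat_lit 1) (nat_lit 7) (nat_lit 6) (nat_lit 79) (nat_lit 107) r7_79 r6_107 (nat_lit 4380705) (nat_lit 0) (nat_lit 0) (nat_lit 0x20233b9a2) (nat_lit 270840161),
  Rx.mk (nat_lit 461) (nat_lit 5) (nat_lit 1) (nat_lit 7) (nat_lit 7) (nat_lit 82) (nat_lit 110) r7_82 r6_110 (nat_lit 0) (nat_lit 0) (nat_lit 0) (nat_lit 0x20e132730) (nat_lit 254255056),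
  Rx.mk (nat_lit 463) (nat_lit 7) (nat_lit 1) (nat_lit 7) (nat_lit 7) (nat_lit 87) (nat_lit 113) r7_87 r6_113 (nat_lit 0) (nat_lit 0) (nat_lit 0) (nat_lit 0x20056d4f2) (nat_lit 268435456),
  Rx.mk (nat_lit 476) (nat_lit 4) (nat_lit 3) (nat_lit 7) (nat_lit 6) (nat_lit 80) (nat_lit 108) r7_80 r6_108 (nat_lit 2828629) (nat_lit 0) (nat_lit 0) (nat_lit 0x200296e72) (nat_lit 271409985),
  Rx.mk (nat_lit 477) (nat_lit 5) (nat_lit 3) (nat_lit 7) (nat_lit 7) (nat_lit 83) (nat_lit 111) r7_83 r6_111 (nat_lit 0) (nat_lit 0) (nat_lit 0) (nat_lit 0x21d88da66) (nat_lit 238408656)]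
noncomputable def e39_33 : List Rx := [
  Rx.mk (nat_lit 268) (nat_lit 4) (nat_lit 1) (nat_lit 4) (nat_lit 2) (nat_lit 88) (nat_lit 184) r7_88 r5_184 (nat_lit 2663217) (nat_lit 0) (nat_lit 9588172) (nat_lit 0x1bf102cbe) (nat_lit 349792345),
  Rx.mk (nat_lit 269) (nat_lit 5) (nat_lit 1) (nat_lit 4) (nat_lit 3) (nat_lit 90) (nat_lit 185) r7_90 r5_185 (nat_lit 0) (nat_lit 0) (nat_lit 9484367) (nat_lit 0x20056d4f2) (nat_lit 277919823),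
  Rx.mk (nat_lit 460) (nat_lit 4) (nat_lit 1) (nat_lit 7) (nat_lit 6) (nat_lit 89) (nat_lit 186) r7_89 r5_186 (nat_lit 4398806) (nat_lit 0) (nat_lit 0) (nat_lit 0x200652368) (nat_lit 272736762),
  Rx.mk (nat_lit 461) (nat_lit 5) (nat_lit 1) (nat_lit 7) (nat_lit 7) (nat_lit 91) (nat_lit 187) r7_91 r5_187 (nat_lit 0) (nat_lit 0) (nat_lit 0) (nat_lit 0x20b6ad88e) (nat_lit 256983056),
  Rx.mk (nat_lit 463) (nat_lit 7) (nat_lit 1) (nat_lit 7) (nat_lit 7) (nat_lit 92) (nat_lit 188) r7_92 r5_188 (nat_lit 0) (nat_lit 0) (nat_lit 0) (nat_lit 0x1f764566c) (nat_lit 277826656)]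
noncomputable def e39_34 : List Rx := [
  Rx.mk (nat_lit 268) (nat_lit 4) (nat_lit 1) (nat_lit 4) (nat_lit 2) (nat_lit 263) (nat_lit 212) r7_263 r11_212 (nat_lit 13980483) (nat_lit 0) (nat_lit 37534727) (nat_lit 0x1e7b17aba) (nat_lit 345961816),
  Rx.mk (nat_lit 269) (nat_lit 5) (nat_lit 1) (nat_lit 4) (nat_lit 3) (nat_lit 266) (nat_lit 213) r7_266 r11_213 (nat_lit 0) (nat_lit 0) (nat_lit 9484367) (nat_lit 0x20056d4f2) (nat_lit 277919823),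
  Rx.mk (nat_lit 332) (nat_lit 4) (nat_lit 1) (nat_lit 5) (nat_lit 6) (nat_lit 264) (nat_lit 214) r7_264 r11_214 (nat_lit 9484367) (nat_lit 0) (nat_lit 0) (nat_lit 0x20056d4f2) (nat_lit 277919823),
  Rx.mk (nat_lit 333) (nat_lit 5) (nat_lit 1) (nat_lit 5) (nat_lit 7) (nat_lit 267) (nat_lit 215) r7_267 r11_215 (nat_lit 0) (nat_lit 0) (nat_lit 0) (nat_lit 0x20056d4f2) (nat_lit 268435456),
  Rx.mk (nat_lit 460) (nat_lit 4) (nat_lit 1) (nat_lit 7) (nat_lit 6) (nat_lit 265) (nat_lit 216) r7_265 r11_216 (nat_lit 9484367) (nat_lit 0) (nat_lit 0) (nat_lit 0x20056d4f2) (nat_lit 277919823),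
  Rx.mk (nat_lit 461) (nat_lit 5) (nat_lit 1) (nat_lit 7) (nat_lit 7) (nat_lit 268) (nat_lit 217) r7_268 r11_217 (nat_lit 0) (nat_lit 0) (nat_lit 0) (nat_lit 0x20056d4f2) (nat_lit 268435456),
  Rx.mk (nat_lit 463) (nat_lit 7) (nat_lit 1) (nat_lit 7) (nat_lit 7) (nat_lit 269) (nat_lit 218) r7_269 r11_218 (nat_lit 0) (nat_lit 0) (nat_lit 0) (nat_lit 0x20056d4f2) (nat_lit 268435456)]
noncomputable def e39_35 : List Rx := [
  Rx.mk (nat_lit 196) (nat_lit 4) (nat_lit 0) (nat_lit 3) (nat_lit 4) (nat_lit 293) (nat_lit 106) r7_293 r6_106 (nat_lit 285501) (nat_lit 293441) (nat_lit 0) (nat_lit 0x1bd42f27c) (nat_lit 339938198),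
  Rx.mk (nat_lit 197) (nat_lit 5) (nat_lit 0) (nat_lit 3) (nat_lit 5) (nat_lit 297) (nat_lit 107) r7_297 r6_107 (nat_lit 0) (nat_lit 4380705) (nat_lit 0) (nat_lit 0x20233b9a2) (nat_lit 270840161),
  Rx.mk (nat_lit 199) (nat_lit 7) (nat_lit 0) (nat_lit 3) (nat_lit 5) (nat_lit 301) (nat_lit 108) r7_301 r6_108 (nat_lit 0) (nat_lit 2828629) (nat_lit 0) (nat_lit 0x200296e72) (nat_lit 271409985),
  Rx.mk (nat_lit 204) (nat_lit 4) (nat_lit 1) (nat_lit 3) (nat_lit 6) (nat_lit 294) (nat_lit 109) r7_294 r6_109 (nat_lit 3269233) (nat_lit 0) (nat_lit 0) (nat_lit 0x20b93e59e) (nat_lit 260068789),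
  Rx.mk (nat_lit 205) (nat_lit 5) (nat_lit 1) (nat_lit 3) (nat_lit 7) (nat_lit 298) (nat_lit 110) r7_298 r6_110 (nat_lit 0) (nat_lit 0) (nat_lit 0) (nat_lit 0x20e132730) (nat_lit 254255056),
  Rx.mk (nat_lit 207) (nat_lit 7) (nat_lit 1) (nat_lit 3) (nat_lit 7) (nat_lit 302) (nat_lit 111) r7_302 r6_111 (nat_lit 0) (nat_lit 0) (nat_lit 0) (nat_lit 0x21d88da66) (nat_lit 238408656),
  Rx.mk (nat_lit 220) (nat_lit 4) (nat_lit 3) (nat_lit 3) (nat_lit 6) (nat_lit 295) (nat_lit 112) r7_295 r6_112 (nat_lit 7768452) (nat_lit 0) (nat_lit 0) (nat_lit 0x1f2326f76) (nat_lit 291082808),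
  Rx.mk (nat_lit 221) (nat_lit 5) (nat_lit 3) (nat_lit 3) (nat_lit 7) (nat_lit 299) (nat_lit 113) r7_299 r6_113 (nat_lit 0) (nat_lit 0) (nat_lit 0) (nat_lit 0x20056d4f2) (nat_lit 268435456),
  Rx.mk (nat_lit 476) (nat_lit 4) (nat_lit 3) (nat_lit 7) (nat_lit 6) (nat_lit 296) (nat_lit 114) r7_296 r6_114 (nat_lit 2249514) (nat_lit 0) (nat_lit 0) (nat_lit 0x1fa7a982a) (nat_lit 276775820),
  Rx.mk (nat_lit 477) (nat_lit 5) (nat_lit 3) (nat_lit 7) (nat_lit 7) (nat_lit 300) (nat_lit 115) r7_300 r6_115 (nat_lit 0) (nat_lit 0) (nat_lit 0) (nat_lit 0x218b34328) (nat_lit 243360356)]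
noncomputable def e39_36 : List Rx := [
  Rx.mk (nat_lit 196) (nat_lit 4) (nat_lit 0) (nat_lit 3) (nat_lit 4) (nat_lit 303) (nat_lit 332) r7_303 r12_332 (nat_lit 182123) (nat_lit 205538) (nat_lit 0) (nat_lit 0x1b7456eea) (nat_lit 346095267),
  Rx.mk (nat_lit 197) (nat_lit 5) (nat_lit 0) (nat_lit 3) (nat_lit 5) (nat_lit 308) (nat_lit 337) r7_308 r12_337 (nat_lit 0) (nat_lit 3052202) (nat_lit 0) (nat_lit 0x2031c5afe) (nat_lit 268549008),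
  Rx.mk (nat_lit 199) (nat_lit 7) (nat_lit 0) (nat_lit 3) (nat_lit 5) (nat_lit 313) (nat_lit 342) r7_313 r12_342 (nat_lit 0) (nat_lit 1764226) (nat_lit 0) (nat_lit 0x1f2f3f7d6) (nat_lit 284231582),
  Rx.mk (nat_lit 204) (nat_lit 4) (nat_lit 1) (nat_lit 3) (nat_lit 6) (nat_lit 304) (nat_lit 334) r7_304 r12_334 (nat_lit 2496873) (nat_lit 0) (nat_lit 0) (nat_lit 0x1fe2faafa) (nat_lit 273109429),
  Rx.mk (nat_lit 205) (nat_lit 5) (nat_lit 1) (nat_lit 3) (nat_lit 7) (nat_lit 309) (nat_lit 339) r7_309 r12_339 (nat_lit 0) (nat_lit 0) (nat_lit 0) (nat_lit 0x22a5412e2) (nat_lit 225311006),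
  Rx.mk (nat_lit 207) (nat_lit 7) (nat_lit 1) (nat_lit 3) (nat_lit 7) (nat_lit 314) (nat_lit 343) r7_314 r12_343 (nat_lit 0) (nat_lit 0) (nat_lit 0) (nat_lit 0x244f14688) (nat_lit 198076806),
  Rx.mk (nat_lit 452) (nat_lit 4) (nat_lit 0) (nat_lit 7) (nat_lit 4) (nat_lit 305) (nat_lit 333) r7_305 r12_333 (nat_lit 205538) (nat_lit 182123) (nat_lit 0) (nat_lit 0x1b7456eea) (nat_lit 346095267),
  Rx.mk (nat_lit 453) (nat_lit 5) (nat_lit 0) (nat_lit 7) (nat_lit 5) (nat_lit 310) (nat_lit 338) r7_310 r12_338 (nat_lit 0) (nat_lit 2496873) (nat_lit 0) (nat_lit 0x1fe2faafa) (nat_lit 273109429),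
  Rx.mk (nat_lit 460) (nat_lit 4) (nat_lit 1) (nat_lit 7) (nat_lit 6) (nat_lit 306) (nat_lit 335) r7_306 r12_335 (nat_lit 3052202) (nat_lit 0) (nat_lit 0) (nat_lit 0x2031c5afe) (nat_lit 268549008),
  Rx.mk (nat_lit 461) (nat_lit 5) (nat_lit 1) (nat_lit 7) (nat_lit 7) (nat_lit 311) (nat_lit 340) r7_311 r12_340 (nat_lit 0) (nat_lit 0) (nat_lit 0) (nat_lit 0x22a5412e2) (nat_lit 225311006),
  Rx.mk (nat_lit 476) (nat_lit 4) (nat_lit 3) (nat_lit 7) (nat_lit 6) (nat_lit 307) (nat_lit 336) r7_307 r12_336 (nat_lit 1764226) (nat_lit 0) (nat_lit 0) (nat_lit 0x1f2f3f7d6) (nat_lit 284231582),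
  Rx.mk (nat_lit 477) (nat_lit 5) (nat_lit 3) (nat_lit 7) (nat_lit 7) (nat_lit 312) (nat_lit 341) r7_312 r12_341 (nat_lit 0) (nat_lit 0) (nat_lit 0) (nat_lit 0x244f14688) (nat_lit 198076806)]
noncomputable def e39_37 : List Rx := [
  Rx.mk (nat_lit 223) (nat_lit 7) (nat_lit 3) (nat_lit 3) (nat_lit 7) (nat_lit 8) (nat_lit 104) r7_8 r0_104 (nat_lit 0) (nat_lit 0) (nat_lit 0) (nat_lit 0x20055e1a0) (nat_lit 268437306),
  Rx.mk (nat_lit 294) (nat_lit 6) (nat_lit 4) (nat_lit 4) (nat_lit 1) (nat_lit 2) (nat_lit 105) r7_2 r0_105 (nat_lit 0) (nat_lit 121405) (nat_lit 991673) (nat_lit 0x190ff0958) (nat_lit 387448234),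
  Rx.mk (nat_lit 316) (nat_lit 4) (nat_lit 7) (nat_lit 4) (nat_lit 2) (nat_lit 0) (nat_lit 100) r7_0 r0_100 (nat_lit 4635726) (nat_lit 0) (nat_lit 10175790) (nat_lit 0x1840136ea) (nat_lit 415072972),
  Rx.mk (nat_lit 318) (nat_lit 6) (nat_lit 7) (nat_lit 4) (nat_lit 3) (nat_lit 3) (nat_lit 106) r7_3 r0_106 (nat_lit 0) (nat_lit 0) (nat_lit 27844967) (nat_lit 0x1fd250a9c) (nat_lit 299584973),
  Rx.mk (nat_lit 422) (nat_lit 6) (nat_lit 4) (nat_lit 6) (nat_lit 5) (nat_lit 4) (nat_lit 108) r7_4 r0_108 (nat_lit 0) (nat_lit 4501915) (nat_lit 0) (nat_lit 0x1cfdf132a) (nat_lit 324222321),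
  Rx.mk (nat_lit 438) (nat_lit 6) (nat_lit 6) (nat_lit 6) (nat_lit 7) (nat_lit 5) (nat_lit 110) r7_5 r0_110 (nat_lit 0) (nat_lit 0) (nat_lit 0) (nat_lit 0x1fe8175a6) (nat_lit 270347556),
  Rx.mk (nat_lit 446) (nat_lit 6) (nat_lit 7) (nat_lit 6) (nat_lit 7) (nat_lit 6) (nat_lit 109) r7_6 r0_109 (nat_lit 0) (nat_lit 0) (nat_lit 0) (nat_lit 0x20249e1b4) (nat_lit 266405506),
  Rx.mk (nat_lit 479) (nat_lit 7) (nat_lit 3) (nat_lit 7) (nat_lit 7) (nat_lit 9) (nat_lit 103) r7_9 r0_103 (nat_lit 0) (nat_lit 0) (nat_lit 0) (nat_lit 0x20056d4f2) (nat_lit 268435456),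
  Rx.mk (nat_lit 508) (nat_lit 4) (nat_lit 7) (nat_lit 7) (nat_lit 6) (nat_lit 1) (nat_lit 101) r7_1 r0_101 (nat_lit 4240931) (nat_lit 0) (nat_lit 0) (nat_lit 0x1bf1985a2) (nat_lit 341762337),
  Rx.mk (nat_lit 510) (nat_lit 6) (nat_lit 7) (nat_lit 7) (nat_lit 7) (nat_lit 7) (nat_lit 107) r7_7 r0_107 (nat_lit 0) (nat_lit 0) (nat_lit 0) (nat_lit 0x1fe528a70) (nat_lit 270533656),
  Rx.mk (nat_lit 511) (nat_lit 7) (nat_lit 7) (nat_lit 7) (nat_lit 7) (nat_lit 10) (nat_lit 102) r7_10 r0_102 (nat_lit 0) (nat_lit 0) (nat_lit 0) (nat_lit 0x1efe441c2) (nat_lit 285762006)]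
noncomputable def e39_38 : List Rx := [
  Rx.mk (nat_lit 3) (nat_lit 3) (nat_lit 0) (nat_lit 0) (nat_lit 1) (nat_lit 96) (nat_lit 100) r7_96 r0_100 (nat_lit 0) (nat_lit 4635726) (nat_lit 10175790) (nat_lit 0x1840136ea) (nat_lit 415072972),
  Rx.mk (nat_lit 16) (nat_lit 0) (nat_lit 2) (nat_lit 0) (nat_lit 2) (nat_lit 93) (nat_lit 105) r7_93 r0_105 (nat_lit 121405) (nat_lit 0) (nat_lit 991673) (nat_lit 0x190ff0958) (nat_lit 387448234),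
  Rx.mk (nat_lit 19) (nat_lit 3) (nat_lit 2) (nat_lit 0) (nat_lit 3) (nat_lit 97) (nat_lit 106) r7_97 r0_106 (nat_lit 0) (nat_lit 0) (nat_lit 27844967) (nat_lit 0x1fd250a9c) (nat_lit 299584973),
  Rx.mk (nat_lit 144) (nat_lit 0) (nat_lit 2) (nat_lit 2) (nat_lit 6) (nat_lit 94) (nat_lit 108) r7_94 r0_108 (nat_lit 4501915) (nat_lit 0) (nat_lit 0) (nat_lit 0x1cfdf132a) (nat_lit 324222321),
  Rx.mk (nat_lit 146) (nat_lit 2) (nat_lit 2) (nat_lit 2) (nat_lit 7) (nat_lit 95) (nat_lit 110) r7_95 r0_110 (nat_lit 0) (nat_lit 0) (nat_lit 0) (nat_lit 0x1fe8175a6) (nat_lit 270347556),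
  Rx.mk (nat_lit 147) (nat_lit 3) (nat_lit 2) (nat_lit 2) (nat_lit 7) (nat_lit 98) (nat_lit 109) r7_98 r0_109 (nat_lit 0) (nat_lit 0) (nat_lit 0) (nat_lit 0x20249e1b4) (nat_lit 266405506),
  Rx.mk (nat_lit 195) (nat_lit 3) (nat_lit 0) (nat_lit 3) (nat_lit 5) (nat_lit 99) (nat_lit 101) r7_99 r0_101 (nat_lit 0) (nat_lit 4240931) (nat_lit 0) (nat_lit 0x1bf1985a2) (nat_lit 341762337),
  Rx.mk (nat_lit 211) (nat_lit 3) (nat_lit 2) (nat_lit 3) (nat_lit 7) (nat_lit 100) (nat_lit 107) r7_100 r0_107 (nat_lit 0) (nat_lit 0) (nat_lit 0) (nat_lit 0x1fe528a70) (nat_lit 270533656),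
  Rx.mk (nat_lit 219) (nat_lit 3) (nat_lit 3) (nat_lit 3) (nat_lit 7) (nat_lit 101) (nat_lit 102) r7_101 r0_102 (nat_lit 0) (nat_lit 0) (nat_lit 0) (nat_lit 0x1efe441c2) (nat_lit 285762006),
  Rx.mk (nat_lit 223) (nat_lit 7) (nat_lit 3) (nat_lit 3) (nat_lit 7) (nat_lit 102) (nat_lit 103) r7_102 r0_103 (nat_lit 0) (nat_lit 0) (nat_lit 0) (nat_lit 0x20056d4f2) (nat_lit 268435456),
  Rx.mk (nat_lit 479) (nat_lit 7) (nat_lit 3) (nat_lit 7) (nat_lit 7) (nat_lit 103) (nat_lit 104) r7_103 r0_104 (nat_lit 0) (nat_lit 0) (nat_lit 0) (nat_lit 0x20055e1a0) (nat_lit 268437306)]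
noncomputable def e39_39 : List Rx := [
  Rx.mk (nat_lit 3) (nat_lit 3) (nat_lit 0) (nat_lit 0) (nat_lit 1) (nat_lit 109) (nat_lit 117) r7_109 r7_117 (nat_lit 0) (nat_lit 112250) (nat_lit 152835) (nat_lit 0x1948ab20c) (nat_lit 382839841),
  Rx.mk (nat_lit 16) (nat_lit 0) (nat_lit 2) (nat_lit 0) (nat_lit 2) (nat_lit 104) (nat_lit 115) r7_104 r7_115 (nat_lit 112250) (nat_lit 0) (nat_lit 152835) (nat_lit 0x1948ab20c) (nat_lit 382839841),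
  Rx.mk (nat_lit 19) (nat_lit 3) (nat_lit 2) (nat_lit 0) (nat_lit 3) (nat_lit 110) (nat_lit 118) r7_110 r7_118 (nat_lit 0) (nat_lit 0) (nat_lit 3174667) (nat_lit 0x1dc8a5c24) (nat_lit 309432373),
  Rx.mk (nat_lit 144) (nat_lit 0) (nat_lit 2) (nat_lit 2) (nat_lit 6) (nat_lit 105) (nat_lit 116) r7_105 r7_116 (nat_lit 1225740) (nat_lit 0) (nat_lit 0) (nat_lit 0x1dff9a540) (nat_lit 303823346),
  Rx.mk (nat_lit 146) (nat_lit 2) (nat_lit 2) (nat_lit 2) (nat_lit 7) (nat_lit 106) (nat_lit 125) r7_106 r7_125 (nat_lit 0) (nat_lit 0) (nat_lit 0) (nat_lit 0x20056d4f2) (nat_lit 268435456),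
  Rx.mk (nat_lit 147) (nat_lit 3) (nat_lit 2) (nat_lit 2) (nat_lit 7) (nat_lit 111) (nat_lit 122) r7_111 r7_122 (nat_lit 0) (nat_lit 0) (nat_lit 0) (nat_lit 0x209c5efb4) (nat_lit 258674606),
  Rx.mk (nat_lit 178) (nat_lit 2) (nat_lit 6) (nat_lit 2) (nat_lit 7) (nat_lit 107) (nat_lit 124) r7_107 r7_124 (nat_lit 0) (nat_lit 0) (nat_lit 0) (nat_lit 0x20056d4f2) (nat_lit 268435456),
  Rx.mk (nat_lit 195) (nat_lit 3) (nat_lit 0) (nat_lit 3) (nat_lit 5) (nat_lit 112) (nat_lit 119) r7_112 r7_119 (nat_lit 0) (nat_lit 1225740) (nat_lit 0) (nat_lit 0x1dff9a540) (nat_lit 303823346),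
  Rx.mk (nat_lit 211) (nat_lit 3) (nat_lit 2) (nat_lit 3) (nat_lit 7) (nat_lit 113) (nat_lit 121) r7_113 r7_121 (nat_lit 0) (nat_lit 0) (nat_lit 0) (nat_lit 0x209c5efb4) (nat_lit 258674606),
  Rx.mk (nat_lit 219) (nat_lit 3) (nat_lit 3) (nat_lit 3) (nat_lit 7) (nat_lit 114) (nat_lit 120) r7_114 r7_120 (nat_lit 0) (nat_lit 0) (nat_lit 0) (nat_lit 0x20056d4f2) (nat_lit 268435456),
  Rx.mk (nat_lit 223) (nat_lit 7) (nat_lit 3) (nat_lit 3) (nat_lit 7) (nat_lit 123) (nat_lit 108) r7_123 r7_108 (nat_lit 0) (nat_lit 0) (nat_lit 0) (nat_lit 0x20056d4f2) (nat_lit 268435456),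
  Rx.mk (nat_lit 294) (nat_lit 6) (nat_lit 4) (nat_lit 4) (nat_lit 1) (nat_lit 117) (nat_lit 109) r7_117 r7_109 (nat_lit 0) (nat_lit 112250) (nat_lit 152835) (nat_lit 0x1948ab20c) (nat_lit 382839841),
  Rx.mk (nat_lit 316) (nat_lit 4) (nat_lit 7) (nat_lit 4) (nat_lit 2) (nat_lit 115) (nat_lit 104) r7_115 r7_104 (nat_lit 112250) (nat_lit 0) (nat_lit 152835) (nat_lit 0x1948ab20c) (nat_lit 382839841),
  Rx.mk (nat_lit 318) (nat_lit 6) (nat_lit 7) (nat_lit 4) (nat_lit 3) (nat_lit 118) (nat_lit 110) r7_118 r7_110 (nat_lit 0) (nat_lit 0) (nat_lit 3174667) (nat_lit 0x1dc8a5c24) (nat_lit 309432373),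
  Rx.mk (nat_lit 422) (nat_lit 6) (nat_lit 4) (nat_lit 6) (nat_lit 5) (nat_lit 119) (nat_lit 112) r7_119 r7_112 (nat_lit 0) (nat_lit 1225740) (nat_lit 0) (nat_lit 0x1dff9a540) (nat_lit 303823346),
  Rx.mk (nat_lit 434) (nat_lit 2) (nat_lit 6) (nat_lit 6) (nat_lit 7) (nat_lit 108) (nat_lit 123) r7_108 r7_123 (nat_lit 0) (nat_lit 0) (nat_lit 0) (nat_lit 0x20056d4f2) (nat_lit 268435456),
  Rx.mk (nat_lit 438) (nat_lit 6) (nat_lit 6) (nat_lit 6) (nat_lit 7) (nat_lit 120) (nat_lit 114) r7_120 r7_114 (nat_lit 0) (nat_lit 0) (nat_lit 0) (nat_lit 0x20056d4f2) (nat_lit 268435456),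
  Rx.mk (nat_lit 446) (nat_lit 6) (nat_lit 7) (nat_lit 6) (nat_lit 7) (nat_lit 121) (nat_lit 113) r7_121 r7_113 (nat_lit 0) (nat_lit 0) (nat_lit 0) (nat_lit 0x209c5efb4) (nat_lit 258674606),
  Rx.mk (nat_lit 479) (nat_lit 7) (nat_lit 3) (nat_lit 7) (nat_lit 7) (nat_lit 124) (nat_lit 107) r7_124 r7_107 (nat_lit 0) (nat_lit 0) (nat_lit 0) (nat_lit 0x20056d4f2) (nat_lit 268435456),
  Rx.mk (nat_lit 508) (nat_lit 4) (nat_lit 7) (nat_lit 7) (nat_lit 6) (nat_lit 116) (nat_lit 105) r7_116 r7_105 (nat_lit 1225740) (nat_lit 0) (nat_lit 0) (nat_lit 0x1dff9a540) (nat_lit 303823346),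
  Rx.mk (nat_lit 510) (nat_lit 6) (nat_lit 7) (nat_lit 7) (nat_lit 7) (nat_lit 122) (nat_lit 111) r7_122 r7_111 (nat_lit 0) (nat_lit 0) (nat_lit 0) (nat_lit 0x209c5efb4) (nat_lit 258674606),
  Rx.mk (nat_lit 511) (nat_lit 7) (nat_lit 7) (nat_lit 7) (nat_lit 7) (nat_lit 125) (nat_lit 106) r7_125 r7_106 (nat_lit 0) (nat_lit 0) (nat_lit 0) (nat_lit 0x20056d4f2) (nat_lit 268435456)]
noncomputable def e39_40 : List Rx := [
  Rx.mk (nat_lit 0) (nat_lit 0) (nat_lit 0) (nat_lit 0) (nat_lit 0) (nat_lit 339) (nat_lit 101) r7_339 r2_101 (nat_lit 122782) (nat_lit 110182) (nat_lit 347865) (nat_lit 0xf155adc6) (nat_lit 556453385),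
  Rx.mk (nat_lit 1) (nat_lit 1) (nat_lit 0) (nat_lit 0) (nat_lit 1) (nat_lit 344) (nat_lit 102) r7_344 r2_102 (nat_lit 0) (nat_lit 3470687) (nat_lit 7109024) (nat_lit 0x150fa33f0) (nat_lit 465021817),
  Rx.mk (nat_lit 16) (nat_lit 0) (nat_lit 2) (nat_lit 0) (nat_lit 2) (nat_lit 340) (nat_lit 107) r7_340 r2_107 (nat_lit 2914534) (nat_lit 0) (nat_lit 6259495) (nat_lit 0x1a7896376) (nat_lit 371700385),
  Rx.mk (nat_lit 17) (nat_lit 1) (nat_lit 2) (nat_lit 0) (nat_lit 3) (nat_lit 345) (nat_lit 108) r7_345 r2_108 (nat_lit 0) (nat_lit 0) (nat_lit 9484367) (nat_lit 0x20056d4f2) (nat_lit 277919823),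
  Rx.mk (nat_lit 144) (nat_lit 0) (nat_lit 2) (nat_lit 2) (nat_lit 6) (nat_lit 341) (nat_lit 112) r7_341 r2_112 (nat_lit 9484367) (nat_lit 0) (nat_lit 0) (nat_lit 0x1fbe559fc) (nat_lit 282567823),
  Rx.mk (nat_lit 145) (nat_lit 1) (nat_lit 2) (nat_lit 2) (nat_lit 7) (nat_lit 346) (nat_lit 113) r7_346 r2_113 (nat_lit 0) (nat_lit 0) (nat_lit 0) (nat_lit 0x20056d4f2) (nat_lit 268435456),
  Rx.mk (nat_lit 146) (nat_lit 2) (nat_lit 2) (nat_lit 2) (nat_lit 7) (nat_lit 349) (nat_lit 114) r7_349 r2_114 (nat_lit 0) (nat_lit 0) (nat_lit 0) (nat_lit 0x20056d4f2) (nat_lit 268435456),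
  Rx.mk (nat_lit 192) (nat_lit 0) (nat_lit 0) (nat_lit 3) (nat_lit 4) (nat_lit 342) (nat_lit 103) r7_342 r2_103 (nat_lit 1994389) (nat_lit 1645853) (nat_lit 0) (nat_lit 0x1a886f89c) (nat_lit 365101798),
  Rx.mk (nat_lit 193) (nat_lit 1) (nat_lit 0) (nat_lit 3) (nat_lit 5) (nat_lit 347) (nat_lit 104) r7_347 r2_104 (nat_lit 0) (nat_lit 5017164) (nat_lit 0) (nat_lit 0x207caad94) (nat_lit 265733370),
  Rx.mk (nat_lit 195) (nat_lit 3) (nat_lit 0) (nat_lit 3) (nat_lit 5) (nat_lit 350) (nat_lit 105) r7_350 r2_105 (nat_lit 0) (nat_lit 6143740) (nat_lit 0) (nat_lit 0x203351b34) (nat_lit 271587896),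
  Rx.mk (nat_lit 208) (nat_lit 0) (nat_lit 2) (nat_lit 3) (nat_lit 6) (nat_lit 343) (nat_lit 109) r7_343 r2_109 (nat_lit 4070597) (nat_lit 0) (nat_lit 0) (nat_lit 0x20d4908d8) (nat_lit 259136953),
  Rx.mk (nat_lit 209) (nat_lit 1) (nat_lit 2) (nat_lit 3) (nat_lit 7) (nat_lit 348) (nat_lit 110) r7_348 r2_110 (nat_lit 0) (nat_lit 0) (nat_lit 0) (nat_lit 0x20056d4f2) (nat_lit 268435456),
  Rx.mk (nat_lit 211) (nat_lit 3) (nat_lit 2) (nat_lit 3) (nat_lit 7) (nat_lit 351) (nat_lit 111) r7_351 r2_111 (nat_lit 0) (nat_lit 0) (nat_lit 0) (nat_lit 0x20056d4f2) (nat_lit 268435456),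
  Rx.mk (nat_lit 219) (nat_lit 3) (nat_lit 3) (nat_lit 3) (nat_lit 7) (nat_lit 352) (nat_lit 106) r7_352 r2_106 (nat_lit 0) (nat_lit 0) (nat_lit 0) (nat_lit 0x20056d4f2) (nat_lit 268435456)]
noncomputable def e39_41 : List Rx := [
  Rx.mk (nat_lit 0) (nat_lit 0) (nat_lit 0) (nat_lit 0) (nat_lit 0) (nat_lit 366) (nat_lit 68) r7_366 r9_68 (nat_lit 2680125) (nat_lit 1909453) (nat_lit 9146340) (nat_lit 0xd8e0cdac) (nat_lit 595695424),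
  Rx.mk (nat_lit 1) (nat_lit 1) (nat_lit 0) (nat_lit 0) (nat_lit 1) (nat_lit 371) (nat_lit 69) r7_371 r9_69 (nat_lit 0) (nat_lit 13489230) (nat_lit 10619100) (nat_lit 0x176e3a3da) (nat_lit 438312186),
  Rx.mk (nat_lit 16) (nat_lit 0) (nat_lit 2) (nat_lit 0) (nat_lit 2) (nat_lit 367) (nat_lit 74) r7_367 r9_74 (nat_lit 11056457) (nat_lit 0) (nat_lit 13616542) (nat_lit 0x17b1c14be) (nat_lit 434394355),
  Rx.mk (nat_lit 17) (nat_lit 1) (nat_lit 2) (nat_lit 0) (nat_lit 3) (nat_lit 372) (nat_lit 75) r7_372 r9_75 (nat_lit 0) (nat_lit 0) (nat_lit 9484367) (nat_lit 0x20056d4f2) (nat_lit 277919823),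
  Rx.mk (nat_lit 144) (nat_lit 0) (nat_lit 2) (nat_lit 2) (nat_lit 6) (nat_lit 368) (nat_lit 79) r7_368 r9_79 (nat_lit 9484367) (nat_lit 0) (nat_lit 0) (nat_lit 0x1fb67f214) (nat_lit 283080423),
  Rx.mk (nat_lit 145) (nat_lit 1) (nat_lit 2) (nat_lit 2) (nat_lit 7) (nat_lit 373) (nat_lit 80) r7_373 r9_80 (nat_lit 0) (nat_lit 0) (nat_lit 0) (nat_lit 0x20056d4f2) (nat_lit 268435456),
  Rx.mk (nat_lit 146) (nat_lit 2) (nat_lit 2) (nat_lit 2) (nat_lit 7) (nat_lit 376) (nat_lit 81) r7_376 r9_81 (nat_lit 0) (nat_lit 0) (nat_lit 0) (nat_lit 0x20056d4f2) (nat_lit 268435456),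
  Rx.mk (nat_lit 178) (nat_lit 2) (nat_lit 6) (nat_lit 2) (nat_lit 7) (nat_lit 377) (nat_lit 82) r7_377 r9_82 (nat_lit 0) (nat_lit 0) (nat_lit 0) (nat_lit 0x20056d4f2) (nat_lit 268435456),
  Rx.mk (nat_lit 192) (nat_lit 0) (nat_lit 0) (nat_lit 3) (nat_lit 4) (nat_lit 369) (nat_lit 70) r7_369 r9_70 (nat_lit 10245589) (nat_lit 13438367) (nat_lit 0) (nat_lit 0x19e910396) (nat_lit 395759412),
  Rx.mk (nat_lit 193) (nat_lit 1) (nat_lit 0) (nat_lit 3) (nat_lit 5) (nat_lit 374) (nat_lit 71) r7_374 r9_71 (nat_lit 0) (nat_lit 9484367) (nat_lit 0) (nat_lit 0x20056d4f2) (nat_lit 277919823),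
  Rx.mk (nat_lit 195) (nat_lit 3) (nat_lit 0) (nat_lit 3) (nat_lit 5) (nat_lit 378) (nat_lit 72) r7_378 r9_72 (nat_lit 0) (nat_lit 8921268) (nat_lit 0) (nat_lit 0x1fef92f60) (nat_lit 278779924),
  Rx.mk (nat_lit 208) (nat_lit 0) (nat_lit 2) (nat_lit 3) (nat_lit 6) (nat_lit 370) (nat_lit 76) r7_370 r9_76 (nat_lit 9484367) (nat_lit 0) (nat_lit 0) (nat_lit 0x1ff04690c) (nat_lit 279297123),
  Rx.mk (nat_lit 209) (nat_lit 1) (nat_lit 2) (nat_lit 3) (nat_lit 7) (nat_lit 375) (nat_lit 77) r7_375 r9_77 (nat_lit 0) (nat_lit 0) (nat_lit 0) (nat_lit 0x20056d4f2) (nat_lit 268435456),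
  Rx.mk (nat_lit 211) (nat_lit 3) (nat_lit 2) (nat_lit 3) (nat_lit 7) (nat_lit 379) (nat_lit 78) r7_379 r9_78 (nat_lit 0) (nat_lit 0) (nat_lit 0) (nat_lit 0x20056d4f2) (nat_lit 268435456),
  Rx.mk (nat_lit 219) (nat_lit 3) (nat_lit 3) (nat_lit 3) (nat_lit 7) (nat_lit 380) (nat_lit 73) r7_380 r9_73 (nat_lit 0) (nat_lit 0) (nat_lit 0) (nat_lit 0x20056d4f2) (nat_lit 268435456)]
noncomputable def e39_42 : List Rx := [
  Rx.mk (nat_lit 0) (nat_lit 0) (nat_lit 0) (nat_lit 0) (nat_lit 0) (nat_lit 353) (nat_lit 170) r7_353 r9_170 (nat_lit 3803068) (nat_lit 3153757) (nat_lit 4361725) (nat_lit 0xe7b965fa) (nat_lit 577519756),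
  Rx.mk (nat_lit 1) (nat_lit 1) (nat_lit 0) (nat_lit 0) (nat_lit 1) (nat_lit 357) (nat_lit 171) r7_357 r9_171 (nat_lit 0) (nat_lit 11132797) (nat_lit 12267734) (nat_lit 0x1880761f6) (nat_lit 419405787),
  Rx.mk (nat_lit 16) (nat_lit 0) (nat_lit 2) (nat_lit 0) (nat_lit 2) (nat_lit 354) (nat_lit 172) r7_354 r9_172 (nat_lit 11171727) (nat_lit 0) (nat_lit 10111158) (nat_lit 0x1909dc81e) (nat_lit 408167991),
  Rx.mk (nat_lit 17) (nat_lit 1) (nat_lit 2) (nat_lit 0) (nat_lit 3) (nat_lit 358) (nat_lit 173) r7_358 r9_173 (nat_lit 0) (nat_lit 0) (nat_lit 9484367) (nat_lit 0x20056d4f2) (nat_lit 277919823),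
  Rx.mk (nat_lit 65) (nat_lit 1) (nat_lit 0) (nat_lit 1) (nat_lit 5) (nat_lit 359) (nat_lit 174) r7_359 r9_174 (nat_lit 0) (nat_lit 9484367) (nat_lit 0) (nat_lit 0x20056d4f2) (nat_lit 277919823),
  Rx.mk (nat_lit 81) (nat_lit 1) (nat_lit 2) (nat_lit 1) (nat_lit 7) (nat_lit 360) (nat_lit 175) r7_360 r9_175 (nat_lit 0) (nat_lit 0) (nat_lit 0) (nat_lit 0x20056d4f2) (nat_lit 268435456),
  Rx.mk (nat_lit 144) (nat_lit 0) (nat_lit 2) (nat_lit 2) (nat_lit 6) (nat_lit 355) (nat_lit 180) r7_355 r9_180 (nat_lit 9484367) (nat_lit 0) (nat_lit 0) (nat_lit 0x1fd5c6abe) (nat_lit 281030323),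
  Rx.mk (nat_lit 145) (nat_lit 1) (nat_lit 2) (nat_lit 2) (nat_lit 7) (nat_lit 361) (nat_lit 181) r7_361 r9_181 (nat_lit 0) (nat_lit 0) (nat_lit 0) (nat_lit 0x20056d4f2) (nat_lit 268435456),
  Rx.mk (nat_lit 146) (nat_lit 2) (nat_lit 2) (nat_lit 2) (nat_lit 7) (nat_lit 363) (nat_lit 182) r7_363 r9_182 (nat_lit 0) (nat_lit 0) (nat_lit 0) (nat_lit 0x20056d4f2) (nat_lit 268435456),
  Rx.mk (nat_lit 192) (nat_lit 0) (nat_lit 0) (nat_lit 3) (nat_lit 4) (nat_lit 356) (nat_lit 176) r7_356 r9_176 (nat_lit 10313512) (nat_lit 13011083) (nat_lit 0) (nat_lit 0x1a14cc85e) (nat_lit 392497401),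
  Rx.mk (nat_lit 193) (nat_lit 1) (nat_lit 0) (nat_lit 3) (nat_lit 5) (nat_lit 362) (nat_lit 177) r7_362 r9_177 (nat_lit 0) (nat_lit 9484367) (nat_lit 0) (nat_lit 0x20056d4f2) (nat_lit 277919823),
  Rx.mk (nat_lit 195) (nat_lit 3) (nat_lit 0) (nat_lit 3) (nat_lit 5) (nat_lit 364) (nat_lit 178) r7_364 r9_178 (nat_lit 0) (nat_lit 9484367) (nat_lit 0) (nat_lit 0x20056d4f2) (nat_lit 277919823),
  Rx.mk (nat_lit 219) (nat_lit 3) (nat_lit 3) (nat_lit 3) (nat_lit 7) (nat_lit 365) (nat_lit 179) r7_365 r9_179 (nat_lit 0) (nat_lit 0) (nat_lit 0) (nat_lit 0x20056d4f2) (nat_lit 268435456)]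
noncomputable def e39_43 : List Rx := [
  Rx.mk (nat_lit 0) (nat_lit 0) (nat_lit 0) (nat_lit 0) (nat_lit 0) (nat_lit 126) (nat_lit 107) r7_126 r1_107 (nat_lit 745275) (nat_lit 1141544) (nat_lit 4920335) (nat_lit 0x109a327e6) (nat_lit 536953810),
  Rx.mk (nat_lit 3) (nat_lit 3) (nat_lit 0) (nat_lit 0) (nat_lit 1) (nat_lit 130) (nat_lit 108) r7_130 r1_108 (nat_lit 0) (nat_lit 14689334) (nat_lit 34669275) (nat_lit 0x1dc530cc4) (nat_lit 355866165),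
  Rx.mk (nat_lit 16) (nat_lit 0) (nat_lit 2) (nat_lit 0) (nat_lit 2) (nat_lit 127) (nat_lit 111) r7_127 r1_111 (nat_lit 648751) (nat_lit 0) (nat_lit 1363821) (nat_lit 0x196197c66) (nat_lit 383004978),
  Rx.mk (nat_lit 19) (nat_lit 3) (nat_lit 2) (nat_lit 0) (nat_lit 3) (nat_lit 131) (nat_lit 112) r7_131 r1_112 (nat_lit 0) (nat_lit 0) (nat_lit 11532138) (nat_lit 0x200c99f0a) (nat_lit 279487844),
  Rx.mk (nat_lit 144) (nat_lit 0) (nat_lit 2) (nat_lit 2) (nat_lit 6) (nat_lit 128) (nat_lit 114) r7_128 r1_114 (nat_lit 4901484) (nat_lit 0) (nat_lit 0) (nat_lit 0x1e15b6d9c) (nat_lit 306066590),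
  Rx.mk (nat_lit 146) (nat_lit 2) (nat_lit 2) (nat_lit 2) (nat_lit 7) (nat_lit 129) (nat_lit 116) r7_129 r1_116 (nat_lit 0) (nat_lit 0) (nat_lit 0) (nat_lit 0x20056d4f2) (nat_lit 268435456),
  Rx.mk (nat_lit 147) (nat_lit 3) (nat_lit 2) (nat_lit 2) (nat_lit 7) (nat_lit 132) (nat_lit 115) r7_132 r1_115 (nat_lit 0) (nat_lit 0) (nat_lit 0) (nat_lit 0x20056d4f2) (nat_lit 268435456),
  Rx.mk (nat_lit 195) (nat_lit 3) (nat_lit 0) (nat_lit 3) (nat_lit 5) (nat_lit 133) (nat_lit 109) r7_133 r1_109 (nat_lit 0) (nat_lit 8870652) (nat_lit 0) (nat_lit 0x1fc54f38e) (nat_lit 281480458),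
  Rx.mk (nat_lit 211) (nat_lit 3) (nat_lit 2) (nat_lit 3) (nat_lit 7) (nat_lit 134) (nat_lit 113) r7_134 r1_113 (nat_lit 0) (nat_lit 0) (nat_lit 0) (nat_lit 0x204560096) (nat_lit 264283306),
  Rx.mk (nat_lit 219) (nat_lit 3) (nat_lit 3) (nat_lit 3) (nat_lit 7) (nat_lit 135) (nat_lit 110) r7_135 r1_110 (nat_lit 0) (nat_lit 0) (nat_lit 0) (nat_lit 0x20056d4f2) (nat_lit 268435456)]
noncomputable def e39_44 : List Rx := [
  Rx.mk (nat_lit 0) (nat_lit 0) (nat_lit 0) (nat_lit 0) (nat_lit 0) (nat_lit 136) (nat_lit 78) r7_136 r8_78 (nat_lit 2733102) (nat_lit 2425005) (nat_lit 7198289) (nat_lit 0xe238fa28) (nat_lit 584393802),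
  Rx.mk (nat_lit 3) (nat_lit 3) (nat_lit 0) (nat_lit 0) (nat_lit 1) (nat_lit 142) (nat_lit 81) r7_142 r8_81 (nat_lit 0) (nat_lit 3122194) (nat_lit 2929309) (nat_lit 0x1a0760b20) (nat_lit 376091909),
  Rx.mk (nat_lit 16) (nat_lit 0) (nat_lit 2) (nat_lit 0) (nat_lit 2) (nat_lit 137) (nat_lit 79) r7_137 r8_79 (nat_lit 7126275) (nat_lit 0) (nat_lit 9749284) (nat_lit 0x19f2f17ca) (nat_lit 388291215),
  Rx.mk (nat_lit 19) (nat_lit 3) (nat_lit 2) (nat_lit 0) (nat_lit 3) (nat_lit 143) (nat_lit 82) r7_143 r8_82 (nat_lit 0) (nat_lit 0) (nat_lit 9484367) (nat_lit 0x20056d4f2) (nat_lit 277919823),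
  Rx.mk (nat_lit 144) (nat_lit 0) (nat_lit 2) (nat_lit 2) (nat_lit 6) (nat_lit 138) (nat_lit 80) r7_138 r8_80 (nat_lit 4537940) (nat_lit 0) (nat_lit 0) (nat_lit 0x1fda0b7c8) (nat_lit 275782896),
  Rx.mk (nat_lit 146) (nat_lit 2) (nat_lit 2) (nat_lit 2) (nat_lit 7) (nat_lit 139) (nat_lit 89) r7_139 r8_89 (nat_lit 0) (nat_lit 0) (nat_lit 0) (nat_lit 0x20056d4f2) (nat_lit 268435456),
  Rx.mk (nat_lit 147) (nat_lit 3) (nat_lit 2) (nat_lit 2) (nat_lit 7) (nat_lit 144) (nat_lit 86) r7_144 r8_86 (nat_lit 0) (nat_lit 0) (nat_lit 0) (nat_lit 0x20056d4f2) (nat_lit 268435456),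
  Rx.mk (nat_lit 178) (nat_lit 2) (nat_lit 6) (nat_lit 2) (nat_lit 7) (nat_lit 140) (nat_lit 88) r7_140 r8_88 (nat_lit 0) (nat_lit 0) (nat_lit 0) (nat_lit 0x20056d4f2) (nat_lit 268435456),
  Rx.mk (nat_lit 195) (nat_lit 3) (nat_lit 0) (nat_lit 3) (nat_lit 5) (nat_lit 145) (nat_lit 83) r7_145 r8_83 (nat_lit 0) (nat_lit 10791901) (nat_lit 0) (nat_lit 0x1f986bbb0) (nat_lit 286357257),
  Rx.mk (nat_lit 211) (nat_lit 3) (nat_lit 2) (nat_lit 3) (nat_lit 7) (nat_lit 146) (nat_lit 85) r7_146 r8_85 (nat_lit 0) (nat_lit 0) (nat_lit 0) (nat_lit 0x20056d4f2) (nat_lit 268435456),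
  Rx.mk (nat_lit 219) (nat_lit 3) (nat_lit 3) (nat_lit 3) (nat_lit 7) (nat_lit 147) (nat_lit 84) r7_147 r8_84 (nat_lit 0) (nat_lit 0) (nat_lit 0) (nat_lit 0x20056d4f2) (nat_lit 268435456),
  Rx.mk (nat_lit 434) (nat_lit 2) (nat_lit 6) (nat_lit 6) (nat_lit 7) (nat_lit 141) (nat_lit 87) r7_141 r8_87 (nat_lit 0) (nat_lit 0) (nat_lit 0) (nat_lit 0x20056d4f2) (nat_lit 268435456)]
noncomputable def e39_45 : List Rx := [
  Rx.mk (nat_lit 292) (nat_lit 4) (nat_lit 4) (nat_lit 4) (nat_lit 0) (nat_lit 11) (nat_lit 107) r7_11 r1_107 (nat_lit 1141544) (nat_lit 745275) (nat_lit 4920335) (nat_lit 0x109a327e6) (nat_lit 536953810),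
  Rx.mk (nat_lit 294) (nat_lit 6) (nat_lit 4) (nat_lit 4) (nat_lit 1) (nat_lit 14) (nat_lit 111) r7_14 r1_111 (nat_lit 0) (nat_lit 648751) (nat_lit 1363821) (nat_lit 0x196197c66) (nat_lit 383004978),
  Rx.mk (nat_lit 316) (nat_lit 4) (nat_lit 7) (nat_lit 4) (nat_lit 2) (nat_lit 12) (nat_lit 108) r7_12 r1_108 (nat_lit 14689334) (nat_lit 0) (nat_lit 34669275) (nat_lit 0x1dc530cc4) (nat_lit 355866165),
  Rx.mk (nat_lit 318) (nat_lit 6) (nat_lit 7) (nat_lit 4) (nat_lit 3) (nat_lit 15) (nat_lit 112) r7_15 r1_112 (nat_lit 0) (nat_lit 0) (nat_lit 11532138) (nat_lit 0x200c99f0a) (nat_lit 279487844),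
  Rx.mk (nat_lit 422) (nat_lit 6) (nat_lit 4) (nat_lit 6) (nat_lit 5) (nat_lit 16) (nat_lit 114) r7_16 r1_114 (nat_lit 0) (nat_lit 4901484) (nat_lit 0) (nat_lit 0x1e15b6d9c) (nat_lit 306066590),
  Rx.mk (nat_lit 438) (nat_lit 6) (nat_lit 6) (nat_lit 6) (nat_lit 7) (nat_lit 17) (nat_lit 116) r7_17 r1_116 (nat_lit 0) (nat_lit 0) (nat_lit 0) (nat_lit 0x20056d4f2) (nat_lit 268435456),
  Rx.mk (nat_lit 446) (nat_lit 6) (nat_lit 7) (nat_lit 6) (nat_lit 7) (nat_lit 18) (nat_lit 115) r7_18 r1_115 (nat_lit 0) (nat_lit 0) (nat_lit 0) (nat_lit 0x20056d4f2) (nat_lit 268435456),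
  Rx.mk (nat_lit 508) (nat_lit 4) (nat_lit 7) (nat_lit 7) (nat_lit 6) (nat_lit 13) (nat_lit 109) r7_13 r1_109 (nat_lit 8870652) (nat_lit 0) (nat_lit 0) (nat_lit 0x1fc54f38e) (nat_lit 281480458),
  Rx.mk (nat_lit 510) (nat_lit 6) (nat_lit 7) (nat_lit 7) (nat_lit 7) (nat_lit 19) (nat_lit 113) r7_19 r1_113 (nat_lit 0) (nat_lit 0) (nat_lit 0) (nat_lit 0x204560096) (nat_lit 264283306),
  Rx.mk (nat_lit 511) (nat_lit 7) (nat_lit 7) (nat_lit 7) (nat_lit 7) (nat_lit 20) (nat_lit 110) r7_20 r1_110 (nat_lit 0) (nat_lit 0) (nat_lit 0) (nat_lit 0x20056d4f2) (nat_lit 268435456)]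
noncomputable def e39_46 : List Rx := [
  Rx.mk (nat_lit 292) (nat_lit 4) (nat_lit 4) (nat_lit 4) (nat_lit 0) (nat_lit 21) (nat_lit 101) r7_21 r2_101 (nat_lit 110182) (nat_lit 122782) (nat_lit 347865) (nat_lit 0xf155adc6) (nat_lit 556453385),
  Rx.mk (nat_lit 294) (nat_lit 6) (nat_lit 4) (nat_lit 4) (nat_lit 1) (nat_lit 26) (nat_lit 107) r7_26 r2_107 (nat_lit 0) (nat_lit 2914534) (nat_lit 6259495) (nat_lit 0x1a7896376) (nat_lit 371700385),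
  Rx.mk (nat_lit 300) (nat_lit 4) (nat_lit 5) (nat_lit 4) (nat_lit 2) (nat_lit 22) (nat_lit 102) r7_22 r2_102 (nat_lit 3470687) (nat_lit 0) (nat_lit 7109024) (nat_lit 0x150fa33f0) (nat_lit 465021817),
  Rx.mk (nat_lit 302) (nat_lit 6) (nat_lit 5) (nat_lit 4) (nat_lit 3) (nat_lit 27) (nat_lit 108) r7_27 r2_108 (nat_lit 0) (nat_lit 0) (nat_lit 9484367) (nat_lit 0x20056d4f2) (nat_lit 277919823),
  Rx.mk (nat_lit 422) (nat_lit 6) (nat_lit 4) (nat_lit 6) (nat_lit 5) (nat_lit 28) (nat_lit 112) r7_28 r2_112 (nat_lit 0) (nat_lit 9484367) (nat_lit 0) (nat_lit 0x1fbe559fc) (nat_lit 282567823),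
  Rx.mk (nat_lit 430) (nat_lit 6) (nat_lit 5) (nat_lit 6) (nat_lit 7) (nat_lit 29) (nat_lit 113) r7_29 r2_113 (nat_lit 0) (nat_lit 0) (nat_lit 0) (nat_lit 0x20056d4f2) (nat_lit 268435456),
  Rx.mk (nat_lit 438) (nat_lit 6) (nat_lit 6) (nat_lit 6) (nat_lit 7) (nat_lit 30) (nat_lit 114) r7_30 r2_114 (nat_lit 0) (nat_lit 0) (nat_lit 0) (nat_lit 0x20056d4f2) (nat_lit 268435456),
  Rx.mk (nat_lit 484) (nat_lit 4) (nat_lit 4) (nat_lit 7) (nat_lit 4) (nat_lit 23) (nat_lit 103) r7_23 r2_103 (nat_lit 1645853) (nat_lit 1994389) (nat_lit 0) (nat_lit 0x1a886f89c) (nat_lit 365101798),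
  Rx.mk (nat_lit 486) (nat_lit 6) (nat_lit 4) (nat_lit 7) (nat_lit 5) (nat_lit 31) (nat_lit 109) r7_31 r2_109 (nat_lit 0) (nat_lit 4070597) (nat_lit 0) (nat_lit 0x20d4908d8) (nat_lit 259136953),
  Rx.mk (nat_lit 492) (nat_lit 4) (nat_lit 5) (nat_lit 7) (nat_lit 6) (nat_lit 24) (nat_lit 104) r7_24 r2_104 (nat_lit 5017164) (nat_lit 0) (nat_lit 0) (nat_lit 0x207caad94) (nat_lit 265733370),
  Rx.mk (nat_lit 494) (nat_lit 6) (nat_lit 5) (nat_lit 7) (nat_lit 7) (nat_lit 32) (nat_lit 110) r7_32 r2_110 (nat_lit 0) (nat_lit 0) (nat_lit 0) (nat_lit 0x20056d4f2) (nat_lit 268435456),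
  Rx.mk (nat_lit 508) (nat_lit 4) (nat_lit 7) (nat_lit 7) (nat_lit 6) (nat_lit 25) (nat_lit 105) r7_25 r2_105 (nat_lit 6143740) (nat_lit 0) (nat_lit 0) (nat_lit 0x203351b34) (nat_lit 271587896),
  Rx.mk (nat_lit 510) (nat_lit 6) (nat_lit 7) (nat_lit 7) (nat_lit 7) (nat_lit 33) (nat_lit 111) r7_33 r2_111 (nat_lit 0) (nat_lit 0) (nat_lit 0) (nat_lit 0x20056d4f2) (nat_lit 268435456),
  Rx.mk (nat_lit 511) (nat_lit 7) (nat_lit 7) (nat_lit 7) (nat_lit 7) (nat_lit 34) (nat_lit 106) r7_34 r2_106 (nat_lit 0) (nat_lit 0) (nat_lit 0) (nat_lit 0x20056d4f2) (nat_lit 268435456)]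
noncomputable def e39_47 : List Rx := [
  Rx.mk (nat_lit 178) (nat_lit 2) (nat_lit 6) (nat_lit 2) (nat_lit 7) (nat_lit 148) (nat_lit 87) r7_148 r8_87 (nat_lit 0) (nat_lit 0) (nat_lit 0) (nat_lit 0x20056d4f2) (nat_lit 268435456),
  Rx.mk (nat_lit 292) (nat_lit 4) (nat_lit 4) (nat_lit 4) (nat_lit 0) (nat_lit 150) (nat_lit 78) r7_150 r8_78 (nat_lit 2425005) (nat_lit 2733102) (nat_lit 7198289) (nat_lit 0xe238fa28) (nat_lit 584393802),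
  Rx.mk (nat_lit 294) (nat_lit 6) (nat_lit 4) (nat_lit 4) (nat_lit 1) (nat_lit 153) (nat_lit 79) r7_153 r8_79 (nat_lit 0) (nat_lit 7126275) (nat_lit 9749284) (nat_lit 0x19f2f17ca) (nat_lit 388291215),
  Rx.mk (nat_lit 316) (nat_lit 4) (nat_lit 7) (nat_lit 4) (nat_lit 2) (nat_lit 151) (nat_lit 81) r7_151 r8_81 (nat_lit 3122194) (nat_lit 0) (nat_lit 2929309) (nat_lit 0x1a0760b20) (nat_lit 376091909),
  Rx.mk (nat_lit 318) (nat_lit 6) (nat_lit 7) (nat_lit 4) (nat_lit 3) (nat_lit 154) (nat_lit 82) r7_154 r8_82 (nat_lit 0) (nat_lit 0) (nat_lit 9484367) (nat_lit 0x20056d4f2) (nat_lit 277919823),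
  Rx.mk (nat_lit 422) (nat_lit 6) (nat_lit 4) (nat_lit 6) (nat_lit 5) (nat_lit 155) (nat_lit 80) r7_155 r8_80 (nat_lit 0) (nat_lit 4537940) (nat_lit 0) (nat_lit 0x1fda0b7c8) (nat_lit 275782896),
  Rx.mk (nat_lit 434) (nat_lit 2) (nat_lit 6) (nat_lit 6) (nat_lit 7) (nat_lit 149) (nat_lit 88) r7_149 r8_88 (nat_lit 0) (nat_lit 0) (nat_lit 0) (nat_lit 0x20056d4f2) (nat_lit 268435456),
  Rx.mk (nat_lit 438) (nat_lit 6) (nat_lit 6) (nat_lit 6) (nat_lit 7) (nat_lit 156) (nat_lit 89) r7_156 r8_89 (nat_lit 0) (nat_lit 0) (nat_lit 0) (nat_lit 0x20056d4f2) (nat_lit 268435456),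
  Rx.mk (nat_lit 446) (nat_lit 6) (nat_lit 7) (nat_lit 6) (nat_lit 7) (nat_lit 157) (nat_lit 86) r7_157 r8_86 (nat_lit 0) (nat_lit 0) (nat_lit 0) (nat_lit 0x20056d4f2) (nat_lit 268435456),
  Rx.mk (nat_lit 508) (nat_lit 4) (nat_lit 7) (nat_lit 7) (nat_lit 6) (nat_lit 152) (nat_lit 83) r7_152 r8_83 (nat_lit 10791901) (nat_lit 0) (nat_lit 0) (nat_lit 0x1f986bbb0) (nat_lit 286357257),
  Rx.mk (nat_lit 510) (nat_lit 6) (nat_lit 7) (nat_lit 7) (nat_lit 7) (nat_lit 158) (nat_lit 85) r7_158 r8_85 (nat_lit 0) (nat_lit 0) (nat_lit 0) (nat_lit 0x20056d4f2) (nat_lit 268435456),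
  Rx.mk (nat_lit 511) (nat_lit 7) (nat_lit 7) (nat_lit 7) (nat_lit 7) (nat_lit 159) (nat_lit 84) r7_159 r8_84 (nat_lit 0) (nat_lit 0) (nat_lit 0) (nat_lit 0x20056d4f2) (nat_lit 268435456)]
noncomputable def e39_48 : List Rx := [
  Rx.mk (nat_lit 292) (nat_lit 4) (nat_lit 4) (nat_lit 4) (nat_lit 0) (nat_lit 161) (nat_lit 68) r7_161 r9_68 (nat_lit 1909453) (nat_lit 2680125) (nat_lit 9146340) (nat_lit 0xd8e0cdac) (nat_lit 595695424),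
  Rx.mk (nat_lit 294) (nat_lit 6) (nat_lit 4) (nat_lit 4) (nat_lit 1) (nat_lit 166) (nat_lit 74) r7_166 r9_74 (nat_lit 0) (nat_lit 11056457) (nat_lit 13616542) (nat_lit 0x17b1c14be) (nat_lit 434394355),
  Rx.mk (nat_lit 300) (nat_lit 4) (nat_lit 5) (nat_lit 4) (nat_lit 2) (nat_lit 162) (nat_lit 69) r7_162 r9_69 (nat_lit 13489230) (nat_lit 0) (nat_lit 10619100) (nat_lit 0x176e3a3da) (nat_lit 438312186),
  Rx.mk (nat_lit 302) (nat_lit 6) (nat_lit 5) (nat_lit 4) (nat_lit 3) (nat_lit 167) (nat_lit 75) r7_167 r9_75 (nat_lit 0) (nat_lit 0) (nat_lit 9484367) (nat_lit 0x20056d4f2) (nat_lit 277919823),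
  Rx.mk (nat_lit 422) (nat_lit 6) (nat_lit 4) (nat_lit 6) (nat_lit 5) (nat_lit 168) (nat_lit 79) r7_168 r9_79 (nat_lit 0) (nat_lit 9484367) (nat_lit 0) (nat_lit 0x1fb67f214) (nat_lit 283080423),
  Rx.mk (nat_lit 430) (nat_lit 6) (nat_lit 5) (nat_lit 6) (nat_lit 7) (nat_lit 169) (nat_lit 80) r7_169 r9_80 (nat_lit 0) (nat_lit 0) (nat_lit 0) (nat_lit 0x20056d4f2) (nat_lit 268435456),
  Rx.mk (nat_lit 434) (nat_lit 2) (nat_lit 6) (nat_lit 6) (nat_lit 7) (nat_lit 160) (nat_lit 82) r7_160 r9_82 (nat_lit 0) (nat_lit 0) (nat_lit 0) (nat_lit 0x20056d4f2) (nat_lit 268435456),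
  Rx.mk (nat_lit 438) (nat_lit 6) (nat_lit 6) (nat_lit 6) (nat_lit 7) (nat_lit 170) (nat_lit 81) r7_170 r9_81 (nat_lit 0) (nat_lit 0) (nat_lit 0) (nat_lit 0x20056d4f2) (nat_lit 268435456),
  Rx.mk (nat_lit 484) (nat_lit 4) (nat_lit 4) (nat_lit 7) (nat_lit 4) (nat_lit 163) (nat_lit 70) r7_163 r9_70 (nat_lit 13438367) (nat_lit 10245589) (nat_lit 0) (nat_lit 0x19e910396) (nat_lit 395759412),
  Rx.mk (nat_lit 486) (nat_lit 6) (nat_lit 4) (nat_lit 7) (nat_lit 5) (nat_lit 171) (nat_lit 76) r7_171 r9_76 (nat_lit 0) (nat_lit 9484367) (nat_lit 0) (nat_lit 0x1ff04690c) (nat_lit 279297123),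
  Rx.mk (nat_lit 492) (nat_lit 4) (nat_lit 5) (nat_lit 7) (nat_lit 6) (nat_lit 164) (nat_lit 71) r7_164 r9_71 (nat_lit 9484367) (nat_lit 0) (nat_lit 0) (nat_lit 0x20056d4f2) (nat_lit 277919823),
  Rx.mk (nat_lit 494) (nat_lit 6) (nat_lit 5) (nat_lit 7) (nat_lit 7) (nat_lit 172) (nat_lit 77) r7_172 r9_77 (nat_lit 0) (nat_lit 0) (nat_lit 0) (nat_lit 0x20056d4f2) (nat_lit 268435456),
  Rx.mk (nat_lit 508) (nat_lit 4) (nat_lit 7) (nat_lit 7) (nat_lit 6) (nat_lit 165) (nat_lit 72) r7_165 r9_72 (nat_lit 8921268) (nat_lit 0) (nat_lit 0) (nat_lit 0x1fef92f60) (nat_lit 278779924),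
  Rx.mk (nat_lit 510) (nat_lit 6) (nat_lit 7) (nat_lit 7) (nat_lit 7) (nat_lit 173) (nat_lit 78) r7_173 r9_78 (nat_lit 0) (nat_lit 0) (nat_lit 0) (nat_lit 0x20056d4f2) (nat_lit 268435456),
  Rx.mk (nat_lit 511) (nat_lit 7) (nat_lit 7) (nat_lit 7) (nat_lit 7) (nat_lit 174) (nat_lit 73) r7_174 r9_73 (nat_lit 0) (nat_lit 0) (nat_lit 0) (nat_lit 0x20056d4f2) (nat_lit 268435456)]
noncomputable def e39_49 : List Rx := [
  Rx.mk (nat_lit 292) (nat_lit 4) (nat_lit 4) (nat_lit 4) (nat_lit 0) (nat_lit 204) (nat_lit 170) r7_204 r9_170 (nat_lit 3153757) (nat_lit 3803068) (nat_lit 4361725) (nat_lit 0xe7b965fa) (nat_lit 577519756),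
  Rx.mk (nat_lit 294) (nat_lit 6) (nat_lit 4) (nat_lit 4) (nat_lit 1) (nat_lit 210) (nat_lit 172) r7_210 r9_172 (nat_lit 0) (nat_lit 11171727) (nat_lit 10111158) (nat_lit 0x1909dc81e) (nat_lit 408167991),
  Rx.mk (nat_lit 300) (nat_lit 4) (nat_lit 5) (nat_lit 4) (nat_lit 2) (nat_lit 205) (nat_lit 171) r7_205 r9_171 (nat_lit 11132797) (nat_lit 0) (nat_lit 12267734) (nat_lit 0x1880761f6) (nat_lit 419405787),
  Rx.mk (nat_lit 302) (nat_lit 6) (nat_lit 5) (nat_lit 4) (nat_lit 3) (nat_lit 211) (nat_lit 173) r7_211 r9_173 (nat_lit 0) (nat_lit 0) (nat_lit 9484367) (nat_lit 0x20056d4f2) (nat_lit 277919823),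
  Rx.mk (nat_lit 364) (nat_lit 4) (nat_lit 5) (nat_lit 5) (nat_lit 6) (nat_lit 206) (nat_lit 174) r7_206 r9_174 (nat_lit 9484367) (nat_lit 0) (nat_lit 0) (nat_lit 0x20056d4f2) (nat_lit 277919823),
  Rx.mk (nat_lit 366) (nat_lit 6) (nat_lit 5) (nat_lit 5) (nat_lit 7) (nat_lit 212) (nat_lit 175) r7_212 r9_175 (nat_lit 0) (nat_lit 0) (nat_lit 0) (nat_lit 0x20056d4f2) (nat_lit 268435456),
  Rx.mk (nat_lit 422) (nat_lit 6) (nat_lit 4) (nat_lit 6) (nat_lit 5) (nat_lit 213) (nat_lit 180) r7_213 r9_180 (nat_lit 0) (nat_lit 9484367) (nat_lit 0) (nat_lit 0x1fd5c6abe) (nat_lit 281030323),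
  Rx.mk (nat_lit 430) (nat_lit 6) (nat_lit 5) (nat_lit 6) (nat_lit 7) (nat_lit 214) (nat_lit 181) r7_214 r9_181 (nat_lit 0) (nat_lit 0) (nat_lit 0) (nat_lit 0x20056d4f2) (nat_lit 268435456),
  Rx.mk (nat_lit 438) (nat_lit 6) (nat_lit 6) (nat_lit 6) (nat_lit 7) (nat_lit 215) (nat_lit 182) r7_215 r9_182 (nat_lit 0) (nat_lit 0) (nat_lit 0) (nat_lit 0x20056d4f2) (nat_lit 268435456),
  Rx.mk (nat_lit 484) (nat_lit 4) (nat_lit 4) (nat_lit 7) (nat_lit 4) (nat_lit 207) (nat_lit 176) r7_207 r9_176 (nat_lit 13011083) (nat_lit 10313512) (nat_lit 0) (nat_lit 0x1a14cc85e) (nat_lit 392497401),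
  Rx.mk (nat_lit 492) (nat_lit 4) (nat_lit 5) (nat_lit 7) (nat_lit 6) (nat_lit 208) (nat_lit 177) r7_208 r9_177 (nat_lit 9484367) (nat_lit 0) (nat_lit 0) (nat_lit 0x20056d4f2) (nat_lit 277919823),
  Rx.mk (nat_lit 508) (nat_lit 4) (nat_lit 7) (nat_lit 7) (nat_lit 6) (nat_lit 209) (nat_lit 178) r7_209 r9_178 (nat_lit 9484367) (nat_lit 0) (nat_lit 0) (nat_lit 0x20056d4f2) (nat_lit 277919823),
  Rx.mk (nat_lit 511) (nat_lit 7) (nat_lit 7) (nat_lit 7) (nat_lit 7) (nat_lit 216) (nat_lit 179) r7_216 r9_179 (nat_lit 0) (nat_lit 0) (nat_lit 0) (nat_lit 0x20056d4f2) (nat_lit 268435456)]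
noncomputable def e39_50 : List Rx := [
  Rx.mk (nat_lit 199) (nat_lit 7) (nat_lit 0) (nat_lit 3) (nat_lit 5) (nat_lit 36) (nat_lit 102) r7_36 r3_102 (nat_lit 0) (nat_lit 49366) (nat_lit 0) (nat_lit 0x211ea5928) (nat_lit 250177072),
  Rx.mk (nat_lit 223) (nat_lit 7) (nat_lit 3) (nat_lit 3) (nat_lit 7) (nat_lit 37) (nat_lit 103) r7_37 r3_103 (nat_lit 0) (nat_lit 0) (nat_lit 0) (nat_lit 0x1f3ce36a8) (nat_lit 281613806),
  Rx.mk (nat_lit 476) (nat_lit 4) (nat_lit 3) (nat_lit 7) (nat_lit 6) (nat_lit 35) (nat_lit 100) r7_35 r3_100 (nat_lit 49366) (nat_lit 0) (nat_lit 0) (nat_lit 0x211ea5928) (nat_lit 250177072),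
  Rx.mk (nat_lit 479) (nat_lit 7) (nat_lit 3) (nat_lit 7) (nat_lit 7) (nat_lit 38) (nat_lit 101) r7_38 r3_101 (nat_lit 0) (nat_lit 0) (nat_lit 0) (nat_lit 0x1f3ce36a8) (nat_lit 281613806)]
noncomputable def e39_51 : List Rx := [
  Rx.mk (nat_lit 199) (nat_lit 7) (nat_lit 0) (nat_lit 3) (nat_lit 5) (nat_lit 45) (nat_lit 102) r7_45 r4_102 (nat_lit 0) (nat_lit 4579434) (nat_lit 0) (nat_lit 0x20687f63a) (nat_lit 266591390),
  Rx.mk (nat_lit 223) (nat_lit 7) (nat_lit 3) (nat_lit 3) (nat_lit 7) (nat_lit 46) (nat_lit 103) r7_46 r4_103 (nat_lit 0) (nat_lit 0) (nat_lit 0) (nat_lit 0x20056d4f2) (nat_lit 268435456),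
  Rx.mk (nat_lit 316) (nat_lit 4) (nat_lit 7) (nat_lit 4) (nat_lit 2) (nat_lit 39) (nat_lit 98) r7_39 r4_98 (nat_lit 2266560) (nat_lit 0) (nat_lit 14706363) (nat_lit 0x17dee144e) (nat_lit 423669329),
  Rx.mk (nat_lit 318) (nat_lit 6) (nat_lit 7) (nat_lit 4) (nat_lit 3) (nat_lit 42) (nat_lit 104) r7_42 r4_104 (nat_lit 0) (nat_lit 0) (nat_lit 16012508) (nat_lit 0x1fe4a6b9c) (nat_lit 286568564),
  Rx.mk (nat_lit 446) (nat_lit 6) (nat_lit 7) (nat_lit 6) (nat_lit 7) (nat_lit 43) (nat_lit 106) r7_43 r4_106 (nat_lit 0) (nat_lit 0) (nat_lit 0) (nat_lit 0x20056d4f2) (nat_lit 268435456),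
  Rx.mk (nat_lit 476) (nat_lit 4) (nat_lit 3) (nat_lit 7) (nat_lit 6) (nat_lit 40) (nat_lit 100) r7_40 r4_100 (nat_lit 5139472) (nat_lit 0) (nat_lit 0) (nat_lit 0x2059555ba) (nat_lit 268128028),
  Rx.mk (nat_lit 479) (nat_lit 7) (nat_lit 3) (nat_lit 7) (nat_lit 7) (nat_lit 47) (nat_lit 101) r7_47 r4_101 (nat_lit 0) (nat_lit 0) (nat_lit 0) (nat_lit 0x20056d4f2) (nat_lit 268435456),
  Rx.mk (nat_lit 508) (nat_lit 4) (nat_lit 7) (nat_lit 7) (nat_lit 6) (nat_lit 41) (nat_lit 99) r7_41 r4_99 (nat_lit 3138540) (nat_lit 0) (nat_lit 0) (nat_lit 0x1e48aaf0a) (nat_lit 300903146),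
  Rx.mk (nat_lit 510) (nat_lit 6) (nat_lit 7) (nat_lit 7) (nat_lit 7) (nat_lit 44) (nat_lit 105) r7_44 r4_105 (nat_lit 0) (nat_lit 0) (nat_lit 0) (nat_lit 0x216fc711c) (nat_lit 245117756)]
noncomputable def e39_52 : List Rx := [
  Rx.mk (nat_lit 199) (nat_lit 7) (nat_lit 0) (nat_lit 3) (nat_lit 5) (nat_lit 49) (nat_lit 105) r7_49 r5_105 (nat_lit 0) (nat_lit 2350265) (nat_lit 0) (nat_lit 0x1faee4d92) (nat_lit 276387071),
  Rx.mk (nat_lit 455) (nat_lit 7) (nat_lit 0) (nat_lit 7) (nat_lit 5) (nat_lit 50) (nat_lit 103) r7_50 r5_103 (nat_lit 0) (nat_lit 4856279) (nat_lit 0) (nat_lit 0x1bc73bce6) (nat_lit 345186885),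
  Rx.mk (nat_lit 476) (nat_lit 4) (nat_lit 3) (nat_lit 7) (nat_lit 6) (nat_lit 48) (nat_lit 102) r7_48 r5_102 (nat_lit 2328975) (nat_lit 0) (nat_lit 0) (nat_lit 0x20c4f3c18) (nat_lit 258373331),
  Rx.mk (nat_lit 479) (nat_lit 7) (nat_lit 3) (nat_lit 7) (nat_lit 7) (nat_lit 51) (nat_lit 104) r7_51 r5_104 (nat_lit 0) (nat_lit 0) (nat_lit 0) (nat_lit 0x1fc6270f4) (nat_lit 272569156)]
noncomputable def e39_53 : List Rx := [
  Rx.mk (nat_lit 3) (nat_lit 3) (nat_lit 0) (nat_lit 0) (nat_lit 1) (nat_lit 175) (nat_lit 98) r7_175 r4_98 (nat_lit 0) (nat_lit 2266560) (nat_lit 14706363) (nat_lit 0x17dee144e) (nat_lit 423669329),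
  Rx.mk (nat_lit 19) (nat_lit 3) (nat_lit 2) (nat_lit 0) (nat_lit 3) (nat_lit 176) (nat_lit 104) r7_176 r4_104 (nat_lit 0) (nat_lit 0) (nat_lit 16012508) (nat_lit 0x1fe4a6b9c) (nat_lit 286568564),
  Rx.mk (nat_lit 147) (nat_lit 3) (nat_lit 2) (nat_lit 2) (nat_lit 7) (nat_lit 177) (nat_lit 106) r7_177 r4_106 (nat_lit 0) (nat_lit 0) (nat_lit 0) (nat_lit 0x20056d4f2) (nat_lit 268435456),
  Rx.mk (nat_lit 195) (nat_lit 3) (nat_lit 0) (nat_lit 3) (nat_lit 5) (nat_lit 178) (nat_lit 99) r7_178 r4_99 (nat_lit 0) (nat_lit 3138540) (nat_lit 0) (nat_lit 0x1e48aaf0a) (nat_lit 300903146),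
  Rx.mk (nat_lit 199) (nat_lit 7) (nat_lit 0) (nat_lit 3) (nat_lit 5) (nat_lit 181) (nat_lit 100) r7_181 r4_100 (nat_lit 0) (nat_lit 5139472) (nat_lit 0) (nat_lit 0x2059555ba) (nat_lit 268128028),
  Rx.mk (nat_lit 211) (nat_lit 3) (nat_lit 2) (nat_lit 3) (nat_lit 7) (nat_lit 179) (nat_lit 105) r7_179 r4_105 (nat_lit 0) (nat_lit 0) (nat_lit 0) (nat_lit 0x216fc711c) (nat_lit 245117756),
  Rx.mk (nat_lit 223) (nat_lit 7) (nat_lit 3) (nat_lit 3) (nat_lit 7) (nat_lit 182) (nat_lit 101) r7_182 r4_101 (nat_lit 0) (nat_lit 0) (nat_lit 0) (nat_lit 0x20056d4f2) (nat_lit 268435456),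
  Rx.mk (nat_lit 476) (nat_lit 4) (nat_lit 3) (nat_lit 7) (nat_lit 6) (nat_lit 180) (nat_lit 102) r7_180 r4_102 (nat_lit 4579434) (nat_lit 0) (nat_lit 0) (nat_lit 0x20687f63a) (nat_lit 266591390),
  Rx.mk (nat_lit 479) (nat_lit 7) (nat_lit 3) (nat_lit 7) (nat_lit 7) (nat_lit 183) (nat_lit 103) r7_183 r4_103 (nat_lit 0) (nat_lit 0) (nat_lit 0) (nat_lit 0x20056d4f2) (nat_lit 268435456)]
noncomputable def e39_54 : List Rx := [
  Rx.mk (nat_lit 3) (nat_lit 3) (nat_lit 0) (nat_lit 0) (nat_lit 1) (nat_lit 184) (nat_lit 91) r7_184 r10_91 (nat_lit 0) (nat_lit 232378) (nat_lit 325088) (nat_lit 0x1b0e244d8) (nat_lit 353060522),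
  Rx.mk (nat_lit 19) (nat_lit 3) (nat_lit 2) (nat_lit 0) (nat_lit 3) (nat_lit 185) (nat_lit 92) r7_185 r10_92 (nat_lit 0) (nat_lit 0) (nat_lit 3161773) (nat_lit 0x1ef74950c) (nat_lit 289350529),
  Rx.mk (nat_lit 147) (nat_lit 3) (nat_lit 2) (nat_lit 2) (nat_lit 7) (nat_lit 186) (nat_lit 95) r7_186 r10_95 (nat_lit 0) (nat_lit 0) (nat_lit 0) (nat_lit 0x209fe494a) (nat_lit 258447306),
  Rx.mk (nat_lit 195) (nat_lit 3) (nat_lit 0) (nat_lit 3) (nat_lit 5) (nat_lit 187) (nat_lit 93) r7_187 r10_93 (nat_lit 0) (nat_lit 2535687) (nat_lit 0) (nat_lit 0x1ff5df990) (nat_lit 271959093),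
  Rx.mk (nat_lit 199) (nat_lit 7) (nat_lit 0) (nat_lit 3) (nat_lit 5) (nat_lit 195) (nat_lit 86) r7_195 r10_86 (nat_lit 0) (nat_lit 6516949) (nat_lit 0) (nat_lit 0x1fb29d114) (nat_lit 280364355),
  Rx.mk (nat_lit 211) (nat_lit 3) (nat_lit 2) (nat_lit 3) (nat_lit 7) (nat_lit 188) (nat_lit 94) r7_188 r10_94 (nat_lit 0) (nat_lit 0) (nat_lit 0) (nat_lit 0x209fe95d0) (nat_lit 258446106),
  Rx.mk (nat_lit 223) (nat_lit 7) (nat_lit 3) (nat_lit 3) (nat_lit 7) (nat_lit 196) (nat_lit 87) r7_196 r10_87 (nat_lit 0) (nat_lit 0) (nat_lit 0) (nat_lit 0x20056d4f2) (nat_lit 268435456),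
  Rx.mk (nat_lit 316) (nat_lit 4) (nat_lit 7) (nat_lit 4) (nat_lit 2) (nat_lit 189) (nat_lit 82) r7_189 r10_82 (nat_lit 232378) (nat_lit 0) (nat_lit 325088) (nat_lit 0x1b0e244d8) (nat_lit 353060522),
  Rx.mk (nat_lit 318) (nat_lit 6) (nat_lit 7) (nat_lit 4) (nat_lit 3) (nat_lit 192) (nat_lit 88) r7_192 r10_88 (nat_lit 0) (nat_lit 0) (nat_lit 3161773) (nat_lit 0x1ef74950c) (nat_lit 289350529),
  Rx.mk (nat_lit 446) (nat_lit 6) (nat_lit 7) (nat_lit 6) (nat_lit 7) (nat_lit 193) (nat_lit 90) r7_193 r10_90 (nat_lit 0) (nat_lit 0) (nat_lit 0) (nat_lit 0x209fe494a) (nat_lit 258447306),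
  Rx.mk (nat_lit 476) (nat_lit 4) (nat_lit 3) (nat_lit 7) (nat_lit 6) (nat_lit 190) (nat_lit 84) r7_190 r10_84 (nat_lit 6516949) (nat_lit 0) (nat_lit 0) (nat_lit 0x1fb29d114) (nat_lit 280364355),
  Rx.mk (nat_lit 479) (nat_lit 7) (nat_lit 3) (nat_lit 7) (nat_lit 7) (nat_lit 197) (nat_lit 85) r7_197 r10_85 (nat_lit 0) (nat_lit 0) (nat_lit 0) (nat_lit 0x20056d4f2) (nat_lit 268435456),
  Rx.mk (nat_lit 508) (nat_lit 4) (nat_lit 7) (nat_lit 7) (nat_lit 6) (nat_lit 191) (nat_lit 83) r7_191 r10_83 (nat_lit 2535687) (nat_lit 0) (nat_lit 0) (nat_lit 0x1ff5df990) (nat_lit 271959093),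
  Rx.mk (nat_lit 510) (nat_lit 6) (nat_lit 7) (nat_lit 7) (nat_lit 7) (nat_lit 194) (nat_lit 89) r7_194 r10_89 (nat_lit 0) (nat_lit 0) (nat_lit 0) (nat_lit 0x209fe95d0) (nat_lit 258446106)]
noncomputable def e39_55 : List Rx := [
  Rx.mk (nat_lit 195) (nat_lit 3) (nat_lit 0) (nat_lit 3) (nat_lit 5) (nat_lit 198) (nat_lit 105) r7_198 r11_105 (nat_lit 0) (nat_lit 4171220) (nat_lit 0) (nat_lit 0x1fe2a9fa6) (nat_lit 274848026),
  Rx.mk (nat_lit 199) (nat_lit 7) (nat_lit 0) (nat_lit 3) (nat_lit 5) (nat_lit 201) (nat_lit 104) r7_201 r11_104 (nat_lit 0) (nat_lit 6612312) (nat_lit 0) (nat_lit 0x20373a804) (nat_lit 271810218),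
  Rx.mk (nat_lit 211) (nat_lit 3) (nat_lit 2) (nat_lit 3) (nat_lit 7) (nat_lit 199) (nat_lit 106) r7_199 r11_106 (nat_lit 0) (nat_lit 0) (nat_lit 0) (nat_lit 0x20eafaca4) (nat_lit 253627606),
  Rx.mk (nat_lit 455) (nat_lit 7) (nat_lit 0) (nat_lit 7) (nat_lit 5) (nat_lit 202) (nat_lit 102) r7_202 r11_102 (nat_lit 0) (nat_lit 13297653) (nat_lit 0) (nat_lit 0x1ee206fd2) (nat_lit 300924009),
  Rx.mk (nat_lit 476) (nat_lit 4) (nat_lit 3) (nat_lit 7) (nat_lit 6) (nat_lit 200) (nat_lit 101) r7_200 r11_101 (nat_lit 9484367) (nat_lit 0) (nat_lit 0) (nat_lit 0x20056d4f2) (nat_lit 277919823),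
  Rx.mk (nat_lit 479) (nat_lit 7) (nat_lit 3) (nat_lit 7) (nat_lit 7) (nat_lit 203) (nat_lit 103) r7_203 r11_103 (nat_lit 0) (nat_lit 0) (nat_lit 0) (nat_lit 0x20056d4f2) (nat_lit 268435456)]
noncomputable def e39_56 : List Rx := [
  Rx.mk (nat_lit 199) (nat_lit 7) (nat_lit 0) (nat_lit 3) (nat_lit 5) (nat_lit 272) (nat_lit 102) r7_272 r5_102 (nat_lit 0) (nat_lit 2328975) (nat_lit 0) (nat_lit 0x20c4f3c18) (nat_lit 258373331),
  Rx.mk (nat_lit 220) (nat_lit 4) (nat_lit 3) (nat_lit 3) (nat_lit 6) (nat_lit 270) (nat_lit 103) r7_270 r5_103 (nat_lit 4856279) (nat_lit 0) (nat_lit 0) (nat_lit 0x1bc73bce6) (nat_lit 345186885),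
  Rx.mk (nat_lit 223) (nat_lit 7) (nat_lit 3) (nat_lit 3) (nat_lit 7) (nat_lit 273) (nat_lit 104) r7_273 r5_104 (nat_lit 0) (nat_lit 0) (nat_lit 0) (nat_lit 0x1fc6270f4) (nat_lit 272569156),
  Rx.mk (nat_lit 476) (nat_lit 4) (nat_lit 3) (nat_lit 7) (nat_lit 6) (nat_lit 271) (nat_lit 105) r7_271 r5_105 (nat_lit 2350265) (nat_lit 0) (nat_lit 0) (nat_lit 0x1faee4d92) (nat_lit 276387071)]
noncomputable def e39_57 : List Rx := [
  Rx.mk (nat_lit 199) (nat_lit 7) (nat_lit 0) (nat_lit 3) (nat_lit 5) (nat_lit 278) (nat_lit 101) r7_278 r11_101 (nat_lit 0) (nat_lit 9484367) (nat_lit 0) (nat_lit 0x20056d4f2) (nat_lit 277919823),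
  Rx.mk (nat_lit 220) (nat_lit 4) (nat_lit 3) (nat_lit 3) (nat_lit 6) (nat_lit 274) (nat_lit 102) r7_274 r11_102 (nat_lit 13297653) (nat_lit 0) (nat_lit 0) (nat_lit 0x1ee206fd2) (nat_lit 300924009),
  Rx.mk (nat_lit 223) (nat_lit 7) (nat_lit 3) (nat_lit 3) (nat_lit 7) (nat_lit 279) (nat_lit 103) r7_279 r11_103 (nat_lit 0) (nat_lit 0) (nat_lit 0) (nat_lit 0x20056d4f2) (nat_lit 268435456),
  Rx.mk (nat_lit 476) (nat_lit 4) (nat_lit 3) (nat_lit 7) (nat_lit 6) (nat_lit 275) (nat_lit 104) r7_275 r11_104 (nat_lit 6612312) (nat_lit 0) (nat_lit 0) (nat_lit 0x20373a804) (nat_lit 271810218),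
  Rx.mk (nat_lit 508) (nat_lit 4) (nat_lit 7) (nat_lit 7) (nat_lit 6) (nat_lit 276) (nat_lit 105) r7_276 r11_105 (nat_lit 4171220) (nat_lit 0) (nat_lit 0) (nat_lit 0x1fe2a9fa6) (nat_lit 274848026),
  Rx.mk (nat_lit 510) (nat_lit 6) (nat_lit 7) (nat_lit 7) (nat_lit 7) (nat_lit 277) (nat_lit 106) r7_277 r11_106 (nat_lit 0) (nat_lit 0) (nat_lit 0) (nat_lit 0x20eafaca4) (nat_lit 253627606)]
noncomputable def e39 : List (List Rx) := [e39_0, e39_1, e39_2, e39_3, e39_4, e39_5, e39_6, e39_7, e39_8, e39_9, e39_10, e39_11, e39_12, e39_13, e39_14, e39_15, e39_16, e39_17, e39_18, e39_19, e39_20, e39_21, e39_22, e39_23, e39_24, e39_25, e39_26, e39_27, e39_28, e39_29, e39_30, e39_31, e39_32, e39_33, e39_34, e39_35, e39_36, e39_37, e39_38, e39_39, e39_40, e39_41, e39_42, e39_43, e39_44, e39_45, e39_46, e39_47, e39_48, e39_49, e39_50, e39_51, e39_52, e39_53, e39_54,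 e39_55, e39_56, e39_57]
noncomputable def e40_0 : List Rx := [
  Rx.mk (nat_lit 1) (nat_lit 1) (nat_lit 0) (nat_lit 0) (nat_lit 1) (nat_lit 180) (nat_lit 254) r2_180 r0_254 (nat_lit 0) (nat_lit 23860633) (nat_lit 7936988) (nat_lit 0x160a0e9fc) (nat_lit 469629927),
  Rx.mk (nat_lit 193) (nat_lit 1) (nat_lit 0) (nat_lit 3) (nat_lit 5) (nat_lit 181) (nat_lit 255) r2_181 r0_255 (nat_lit 0) (nat_lit 24694302) (nat_lit 0) (nat_lit 0x1f1cd48f8) (nat_lit 308430658),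
  Rx.mk (nat_lit 217) (nat_lit 1) (nat_lit 3) (nat_lit 3) (nat_lit 7) (nat_lit 182) (nat_lit 256) r2_182 r0_256 (nat_lit 0) (nat_lit 0) (nat_lit 0) (nat_lit 0x20056d4f2) (nat_lit 268435456)]
noncomputable def e40_1 : List Rx := [
  Rx.mk (nat_lit 1) (nat_lit 1) (nat_lit 0) (nat_lit 0) (nat_lit 1) (nat_lit 183) (nat_lit 258) r2_183 r1_258 (nat_lit 0) (nat_lit 16672179) (nat_lit 11319226) (nat_lit 0x180b1dce2) (nat_lit 431779961),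
  Rx.mk (nat_lit 65) (nat_lit 1) (nat_lit 0) (nat_lit 1) (nat_lit 5) (nat_lit 184) (nat_lit 259) r2_184 r1_259 (nat_lit 0) (nat_lit 10097628) (nat_lit 0) (nat_lit 0x1fd30161c) (nat_lit 281824434),
  Rx.mk (nat_lit 193) (nat_lit 1) (nat_lit 0) (nat_lit 3) (nat_lit 5) (nat_lit 185) (nat_lit 260) r2_185 r1_260 (nat_lit 0) (nat_lit 9484367) (nat_lit 0) (nat_lit 0x20056d4f2) (nat_lit 277919823),
  Rx.mk (nat_lit 217) (nat_lit 1) (nat_lit 3) (nat_lit 3) (nat_lit 7) (nat_lit 186) (nat_lit 261) r2_186 r1_261 (nat_lit 0) (nat_lit 0) (nat_lit 0) (nat_lit 0x20056d4f2) (nat_lit 268435456)]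
noncomputable def e40_2 : List Rx := [
  Rx.mk (nat_lit 65) (nat_lit 1) (nat_lit 0) (nat_lit 1) (nat_lit 5) (nat_lit 310) (nat_lit 286) r2_310 r2_286 (nat_lit 0) (nat_lit 9211913) (nat_lit 0) (nat_lit 0x1ffb1784a) (nat_lit 278320069),
  Rx.mk (nat_lit 73) (nat_lit 1) (nat_lit 1) (nat_lit 1) (nat_lit 7) (nat_lit 311) (nat_lit 287) r2_311 r2_287 (nat_lit 0) (nat_lit 0) (nat_lit 0) (nat_lit 0x20056d4f2) (nat_lit 268435456)]
noncomputable def e40_3 : List Rx := [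
  Rx.mk (nat_lit 193) (nat_lit 1) (nat_lit 0) (nat_lit 3) (nat_lit 5) (nat_lit 59) (nat_lit 254) r2_59 r3_254 (nat_lit 0) (nat_lit 175017) (nat_lit 0) (nat_lit 0x20b313174) (nat_lit 257181973),
  Rx.mk (nat_lit 217) (nat_lit 1) (nat_lit 3) (nat_lit 3) (nat_lit 7) (nat_lit 61) (nat_lit 255) r2_61 r3_255 (nat_lit 0) (nat_lit 0) (nat_lit 0) (nat_lit 0x2250293b8) (nat_lit 230736656),
  Rx.mk (nat_lit 473) (nat_lit 1) (nat_lit 3) (nat_lit 7) (nat_lit 7) (nat_lit 60) (nat_lit 256) r2_60 r3_256 (nat_lit 0) (nat_lit 0) (nat_lit 0) (nat_lit 0x22bb0e67e) (nat_lit 223917606)]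
noncomputable def e40_4 : List Rx := [
  Rx.mk (nat_lit 193) (nat_lit 1) (nat_lit 0) (nat_lit 3) (nat_lit 5) (nat_lit 187) (nat_lit 271) r2_187 r4_271 (nat_lit 0) (nat_lit 7861388) (nat_lit 0) (nat_lit 0x2023bea32) (nat_lit 274324344),
  Rx.mk (nat_lit 217) (nat_lit 1) (nat_lit 3) (nat_lit 3) (nat_lit 7) (nat_lit 188) (nat_lit 272) r2_188 r4_272 (nat_lit 0) (nat_lit 0) (nat_lit 0) (nat_lit 0x20204deac) (nat_lit 266687006)]
noncomputable def e40_5 : List Rx := [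
  Rx.mk (nat_lit 193) (nat_lit 1) (nat_lit 0) (nat_lit 3) (nat_lit 5) (nat_lit 256) (nat_lit 258) r2_256 r5_258 (nat_lit 0) (nat_lit 10395696) (nat_lit 0) (nat_lit 0x1fae7df52) (nat_lit 284495052),
  Rx.mk (nat_lit 449) (nat_lit 1) (nat_lit 0) (nat_lit 7) (nat_lit 5) (nat_lit 255) (nat_lit 259) r2_255 r5_259 (nat_lit 0) (nat_lit 10371737) (nat_lit 0) (nat_lit 0x1f40d6a76) (nat_lit 291716043),
  Rx.mk (nat_lit 473) (nat_lit 1) (nat_lit 3) (nat_lit 7) (nat_lit 7) (nat_lit 257) (nat_lit 260) r2_257 r5_260 (nat_lit 0) (nat_lit 0) (nat_lit 0) (nat_lit 0x20056d4f2) (nat_lit 268435456)]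
noncomputable def e40_6 : List Rx := [
  Rx.mk (nat_lit 257) (nat_lit 1) (nat_lit 0) (nat_lit 4) (nat_lit 1) (nat_lit 323) (nat_lit 279) r2_323 r3_279 (nat_lit 0) (nat_lit 72299) (nat_lit 50009) (nat_lit 0x1aa0c65f8) (nat_lit 359834164),
  Rx.mk (nat_lit 261) (nat_lit 5) (nat_lit 0) (nat_lit 4) (nat_lit 1) (nat_lit 322) (nat_lit 276) r2_322 r3_276 (nat_lit 0) (nat_lit 50009) (nat_lit 72299) (nat_lit 0x1aa0c65f8) (nat_lit 359834164),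
  Rx.mk (nat_lit 265) (nat_lit 1) (nat_lit 1) (nat_lit 4) (nat_lit 3) (nat_lit 328) (nat_lit 284) r2_328 r3_284 (nat_lit 0) (nat_lit 0) (nat_lit 1166783) (nat_lit 0x1cca82ce6) (nat_lit 324221889),
  Rx.mk (nat_lit 269) (nat_lit 5) (nat_lit 1) (nat_lit 4) (nat_lit 3) (nat_lit 327) (nat_lit 281) r2_327 r3_281 (nat_lit 0) (nat_lit 0) (nat_lit 5970012) (nat_lit 0x1d4ee261c) (nat_lit 320299518),
  Rx.mk (nat_lit 281) (nat_lit 1) (nat_lit 3) (nat_lit 4) (nat_lit 3) (nat_lit 332) (nat_lit 286) r2_332 r3_286 (nat_lit 0) (nat_lit 0) (nat_lit 6890366) (nat_lit 0x1f48258fe) (nat_lit 287757172),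
  Rx.mk (nat_lit 321) (nat_lit 1) (nat_lit 0) (nat_lit 5) (nat_lit 5) (nat_lit 325) (nat_lit 280) r2_325 r3_280 (nat_lit 0) (nat_lit 5970012) (nat_lit 0) (nat_lit 0x1d4ee261c) (nat_lit 320299518),
  Rx.mk (nat_lit 325) (nat_lit 5) (nat_lit 0) (nat_lit 5) (nat_lit 5) (nat_lit 324) (nat_lit 277) r2_324 r3_277 (nat_lit 0) (nat_lit 1166783) (nat_lit 0) (nat_lit 0x1cca82ce6) (nat_lit 324221889),
  Rx.mk (nat_lit 329) (nat_lit 1) (nat_lit 1) (nat_lit 5) (nat_lit 7) (nat_lit 330) (nat_lit 285) r2_330 r3_285 (nat_lit 0) (nat_lit 0) (nat_lit 0) (nat_lit 0x20056d4f2) (nat_lit 268435456),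
  Rx.mk (nat_lit 333) (nat_lit 5) (nat_lit 1) (nat_lit 5) (nat_lit 7) (nat_lit 329) (nat_lit 282) r2_329 r3_282 (nat_lit 0) (nat_lit 0) (nat_lit 0) (nat_lit 0x20056d4f2) (nat_lit 268435456),
  Rx.mk (nat_lit 345) (nat_lit 1) (nat_lit 3) (nat_lit 5) (nat_lit 7) (nat_lit 333) (nat_lit 287) r2_333 r3_287 (nat_lit 0) (nat_lit 0) (nat_lit 0) (nat_lit 0x20056d4f2) (nat_lit 268435456),
  Rx.mk (nat_lit 453) (nat_lit 5) (nat_lit 0) (nat_lit 7) (nat_lit 5) (nat_lit 326) (nat_lit 278) r2_326 r3_278 (nat_lit 0) (nat_lit 6890366) (nat_lit 0) (nat_lit 0x1f48258fe) (nat_lit 287757172),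
  Rx.mk (nat_lit 461) (nat_lit 5) (nat_lit 1) (nat_lit 7) (nat_lit 7) (nat_lit 331) (nat_lit 283) r2_331 r3_283 (nat_lit 0) (nat_lit 0) (nat_lit 0) (nat_lit 0x20056d4f2) (nat_lit 268435456)]
noncomputable def e40_7 : List Rx := [
  Rx.mk (nat_lit 321) (nat_lit 1) (nat_lit 0) (nat_lit 5) (nat_lit 5) (nat_lit 277) (nat_lit 286) r2_277 r0_286 (nat_lit 0) (nat_lit 12544226) (nat_lit 0) (nat_lit 0x1eee011d4) (nat_lit 299367132),
  Rx.mk (nat_lit 325) (nat_lit 5) (nat_lit 0) (nat_lit 5) (nat_lit 5) (nat_lit 276) (nat_lit 285) r2_276 r0_285 (nat_lit 0) (nat_lit 58461491) (nat_lit 0) (nat_lit 0x1c9e814b2) (nat_lit 384503097),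
  Rx.mk (nat_lit 329) (nat_lit 1) (nat_lit 1) (nat_lit 5) (nat_lit 7) (nat_lit 279) (nat_lit 288) r2_279 r0_288 (nat_lit 0) (nat_lit 0) (nat_lit 0) (nat_lit 0x20056d4f2) (nat_lit 268435456),
  Rx.mk (nat_lit 333) (nat_lit 5) (nat_lit 1) (nat_lit 5) (nat_lit 7) (nat_lit 278) (nat_lit 287) r2_278 r0_287 (nat_lit 0) (nat_lit 0) (nat_lit 0) (nat_lit 0x20056d4f2) (nat_lit 268435456)]
noncomputable def e40_8 : List Rx := [
  Rx.mk (nat_lit 65) (nat_lit 1) (nat_lit 0) (nat_lit 1) (nat_lit 5) (nat_lit 306) (nat_lit 282) r2_306 r1_282 (nat_lit 0) (nat_lit 9484367) (nat_lit 0) (nat_lit 0x1fd510a98) (nat_lit 281076273),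
  Rx.mk (nat_lit 73) (nat_lit 1) (nat_lit 1) (nat_lit 1) (nat_lit 7) (nat_lit 309) (nat_lit 285) r2_309 r1_285 (nat_lit 0) (nat_lit 0) (nat_lit 0) (nat_lit 0x20056d4f2) (nat_lit 268435456),
  Rx.mk (nat_lit 321) (nat_lit 1) (nat_lit 0) (nat_lit 5) (nat_lit 5) (nat_lit 305) (nat_lit 281) r2_305 r1_281 (nat_lit 0) (nat_lit 10175953) (nat_lit 0) (nat_lit 0x1fe89b2e8) (nat_lit 280481809),
  Rx.mk (nat_lit 325) (nat_lit 5) (nat_lit 0) (nat_lit 5) (nat_lit 5) (nat_lit 304) (nat_lit 280) r2_304 r1_280 (nat_lit 0) (nat_lit 41135547) (nat_lit 0) (nat_lit 0x20165832a) (nat_lit 308445753),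
  Rx.mk (nat_lit 329) (nat_lit 1) (nat_lit 1) (nat_lit 5) (nat_lit 7) (nat_lit 308) (nat_lit 284) r2_308 r1_284 (nat_lit 0) (nat_lit 0) (nat_lit 0) (nat_lit 0x20056d4f2) (nat_lit 268435456),
  Rx.mk (nat_lit 333) (nat_lit 5) (nat_lit 1) (nat_lit 5) (nat_lit 7) (nat_lit 307) (nat_lit 283) r2_307 r1_283 (nat_lit 0) (nat_lit 0) (nat_lit 0) (nat_lit 0x20056d4f2) (nat_lit 268435456)]
noncomputable def e40_9 : List Rx := [
  Rx.mk (nat_lit 321) (nat_lit 1) (nat_lit 0) (nat_lit 5) (nat_lit 5) (nat_lit 335) (nat_lit 300) r2_335 r4_300 (nat_lit 0) (nat_lit 9484367) (nat_lit 0) (nat_lit 0x1ffb19802) (nat_lit 278589723),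
  Rx.mk (nat_lit 325) (nat_lit 5) (nat_lit 0) (nat_lit 5) (nat_lit 5) (nat_lit 334) (nat_lit 299) r2_334 r4_299 (nat_lit 0) (nat_lit 20123259) (nat_lit 0) (nat_lit 0x1f226cc5c) (nat_lit 303492615),
  Rx.mk (nat_lit 329) (nat_lit 1) (nat_lit 1) (nat_lit 5) (nat_lit 7) (nat_lit 337) (nat_lit 302) r2_337 r4_302 (nat_lit 0) (nat_lit 0) (nat_lit 0) (nat_lit 0x20056d4f2) (nat_lit 268435456),
  Rx.mk (nat_lit 333) (nat_lit 5) (nat_lit 1) (nat_lit 5) (nat_lit 7) (nat_lit 336) (nat_lit 301) r2_336 r4_301 (nat_lit 0) (nat_lit 0) (nat_lit 0) (nat_lit 0x20056d4f2) (nat_lit 268435456),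
  Rx.mk (nat_lit 345) (nat_lit 1) (nat_lit 3) (nat_lit 5) (nat_lit 7) (nat_lit 338) (nat_lit 303) r2_338 r4_303 (nat_lit 0) (nat_lit 0) (nat_lit 0) (nat_lit 0x20056d4f2) (nat_lit 268435456)]
noncomputable def e40_10 : List Rx := [
  Rx.mk (nat_lit 281) (nat_lit 1) (nat_lit 3) (nat_lit 4) (nat_lit 3) (nat_lit 253) (nat_lit 287) r2_253 r6_287 (nat_lit 0) (nat_lit 0) (nat_lit 10188298) (nat_lit 0x1fc8c4b22) (nat_lit 282587704),
  Rx.mk (nat_lit 449) (nat_lit 1) (nat_lit 0) (nat_lit 7) (nat_lit 5) (nat_lit 252) (nat_lit 286) r2_252 r6_286 (nat_lit 0) (nat_lit 9484367) (nat_lit 0) (nat_lit 0x1f845577a) (nat_lit 286381923),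
  Rx.mk (nat_lit 453) (nat_lit 5) (nat_lit 0) (nat_lit 7) (nat_lit 5) (nat_lit 251) (nat_lit 289) r2_251 r6_289 (nat_lit 0) (nat_lit 10510343) (nat_lit 0) (nat_lit 0x1f8bf4256) (nat_lit 286894199),
  Rx.mk (nat_lit 473) (nat_lit 1) (nat_lit 3) (nat_lit 7) (nat_lit 7) (nat_lit 254) (nat_lit 288) r2_254 r6_288 (nat_lit 0) (nat_lit 0) (nat_lit 0) (nat_lit 0x20056d4f2) (nat_lit 268435456)]
noncomputable def e40_11 : List Rx := [
  Rx.mk (nat_lit 257) (nat_lit 1) (nat_lit 0) (nat_lit 4) (nat_lit 1) (nat_lit 339) (nat_lit 276) r2_339 r5_276 (nat_lit 0) (nat_lit 12102987) (nat_lit 5613392) (nat_lit 0x194cc9758) (nat_lit 400137485),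
  Rx.mk (nat_lit 265) (nat_lit 1) (nat_lit 1) (nat_lit 4) (nat_lit 3) (nat_lit 343) (nat_lit 280) r2_343 r5_280 (nat_lit 0) (nat_lit 0) (nat_lit 19988985) (nat_lit 0x1afb37d8e) (nat_lit 373866291),
  Rx.mk (nat_lit 281) (nat_lit 1) (nat_lit 3) (nat_lit 4) (nat_lit 3) (nat_lit 347) (nat_lit 283) r2_347 r5_283 (nat_lit 0) (nat_lit 0) (nat_lit 9484367) (nat_lit 0x20056d4f2) (nat_lit 277919823),
  Rx.mk (nat_lit 321) (nat_lit 1) (nat_lit 0) (nat_lit 5) (nat_lit 5) (nat_lit 340) (nat_lit 277) r2_340 r5_277 (nat_lit 0) (nat_lit 9484367) (nat_lit 0) (nat_lit 0x20056d4f2) (nat_lit 277919823),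
  Rx.mk (nat_lit 329) (nat_lit 1) (nat_lit 1) (nat_lit 5) (nat_lit 7) (nat_lit 344) (nat_lit 281) r2_344 r5_281 (nat_lit 0) (nat_lit 0) (nat_lit 0) (nat_lit 0x20056d4f2) (nat_lit 268435456),
  Rx.mk (nat_lit 345) (nat_lit 1) (nat_lit 3) (nat_lit 5) (nat_lit 7) (nat_lit 348) (nat_lit 284) r2_348 r5_284 (nat_lit 0) (nat_lit 0) (nat_lit 0) (nat_lit 0x20056d4f2) (nat_lit 268435456),
  Rx.mk (nat_lit 449) (nat_lit 1) (nat_lit 0) (nat_lit 7) (nat_lit 5) (nat_lit 342) (nat_lit 278) r2_342 r5_278 (nat_lit 0) (nat_lit 7565036) (nat_lit 0) (nat_lit 0x202341924) (nat_lit 274059592),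
  Rx.mk (nat_lit 453) (nat_lit 5) (nat_lit 0) (nat_lit 7) (nat_lit 5) (nat_lit 341) (nat_lit 275) r2_341 r5_275 (nat_lit 0) (nat_lit 7565097) (nat_lit 0) (nat_lit 0x20234095c) (nat_lit 274059903),
  Rx.mk (nat_lit 457) (nat_lit 1) (nat_lit 1) (nat_lit 7) (nat_lit 7) (nat_lit 346) (nat_lit 282) r2_346 r5_282 (nat_lit 0) (nat_lit 0) (nat_lit 0) (nat_lit 0x20056d4f2) (nat_lit 268435456),
  Rx.mk (nat_lit 461) (nat_lit 5) (nat_lit 1) (nat_lit 7) (nat_lit 7) (nat_lit 345) (nat_lit 279) r2_345 r5_279 (nat_lit 0) (nat_lit 0) (nat_lit 0) (nat_lit 0x20056d4f2) (nat_lit 268435456)]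
noncomputable def e40_12 : List Rx := [
  Rx.mk (nat_lit 16) (nat_lit 0) (nat_lit 2) (nat_lit 0) (nat_lit 2) (nat_lit 64) (nat_lit 31) r2_64 r0_31 (nat_lit 294663) (nat_lit 0) (nat_lit 349407) (nat_lit 0x19a17a64e) (nat_lit 377353876),
  Rx.mk (nat_lit 17) (nat_lit 1) (nat_lit 2) (nat_lit 0) (nat_lit 3) (nat_lit 65) (nat_lit 32) r2_65 r0_32 (nat_lit 0) (nat_lit 0) (nat_lit 3951197) (nat_lit 0x1fb1bfb20) (nat_lit 277838903),
  Rx.mk (nat_lit 18) (nat_lit 2) (nat_lit 2) (nat_lit 0) (nat_lit 3) (nat_lit 66) (nat_lit 33) r2_66 r0_33 (nat_lit 0) (nat_lit 0) (nat_lit 7471693) (nat_lit 0x1fd740098) (nat_lit 278900949),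
  Rx.mk (nat_lit 146) (nat_lit 2) (nat_lit 2) (nat_lit 2) (nat_lit 7) (nat_lit 67) (nat_lit 42) r2_67 r0_42 (nat_lit 0) (nat_lit 0) (nat_lit 0) (nat_lit 0x2086fe548) (nat_lit 260050456),
  Rx.mk (nat_lit 192) (nat_lit 0) (nat_lit 0) (nat_lit 3) (nat_lit 4) (nat_lit 62) (nat_lit 34) r2_62 r0_34 (nat_lit 813893) (nat_lit 1671764) (nat_lit 0) (nat_lit 0x19c19e614) (nat_lit 377108313),
  Rx.mk (nat_lit 193) (nat_lit 1) (nat_lit 0) (nat_lit 3) (nat_lit 5) (nat_lit 63) (nat_lit 35) r2_63 r0_35 (nat_lit 0) (nat_lit 10441397) (nat_lit 0) (nat_lit 0x1fa2a4a28) (nat_lit 285340053),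
  Rx.mk (nat_lit 208) (nat_lit 0) (nat_lit 2) (nat_lit 3) (nat_lit 6) (nat_lit 68) (nat_lit 39) r2_68 r0_39 (nat_lit 267483) (nat_lit 0) (nat_lit 0) (nat_lit 0x2090e0ad4) (nat_lit 259516689),
  Rx.mk (nat_lit 209) (nat_lit 1) (nat_lit 2) (nat_lit 3) (nat_lit 7) (nat_lit 69) (nat_lit 40) r2_69 r0_40 (nat_lit 0) (nat_lit 0) (nat_lit 0) (nat_lit 0x23e3f71fc) (nat_lit 204928556),
  Rx.mk (nat_lit 210) (nat_lit 2) (nat_lit 2) (nat_lit 3) (nat_lit 7) (nat_lit 70) (nat_lit 41) r2_70 r0_41 (nat_lit 0) (nat_lit 0) (nat_lit 0) (nat_lit 0x240278928) (nat_lit 202977506),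
  Rx.mk (nat_lit 216) (nat_lit 0) (nat_lit 3) (nat_lit 3) (nat_lit 6) (nat_lit 72) (nat_lit 36) r2_72 r0_36 (nat_lit 5691868) (nat_lit 0) (nat_lit 0) (nat_lit 0x1f50a2202) (nat_lit 285995074),
  Rx.mk (nat_lit 217) (nat_lit 1) (nat_lit 3) (nat_lit 3) (nat_lit 7) (nat_lit 73) (nat_lit 37) r2_73 r0_37 (nat_lit 0) (nat_lit 0) (nat_lit 0) (nat_lit 0x1ffc2f214) (nat_lit 269036706),
  Rx.mk (nat_lit 219) (nat_lit 3) (nat_lit 3) (nat_lit 3) (nat_lit 7) (nat_lit 74) (nat_lit 38) r2_74 r0_38 (nat_lit 0) (nat_lit 0) (nat_lit 0) (nat_lit 0x2013deebe) (nat_lit 267490256),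
  Rx.mk (nat_lit 475) (nat_lit 3) (nat_lit 3) (nat_lit 7) (nat_lit 7) (nat_lit 71) (nat_lit 30) r2_71 r0_30 (nat_lit 0) (nat_lit 0) (nat_lit 0) (nat_lit 0x1ffdc5ed4) (nat_lit 268933606)]
noncomputable def e40_13 : List Rx := [
  Rx.mk (nat_lit 0) (nat_lit 0) (nat_lit 0) (nat_lit 0) (nat_lit 0) (nat_lit 189) (nat_lit 339) r2_189 r7_339 (nat_lit 122782) (nat_lit 347865) (nat_lit 110182) (nat_lit 0xf155adc6) (nat_lit 556453385),
  Rx.mk (nat_lit 1) (nat_lit 1) (nat_lit 0) (nat_lit 0) (nat_lit 1) (nat_lit 190) (nat_lit 344) r2_190 r7_344 (nat_lit 0) (nat_lit 7109024) (nat_lit 3470687) (nat_lit 0x150fa33f0) (nat_lit 465021817),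
  Rx.mk (nat_lit 16) (nat_lit 0) (nat_lit 2) (nat_lit 0) (nat_lit 2) (nat_lit 193) (nat_lit 342) r2_193 r7_342 (nat_lit 1994389) (nat_lit 0) (nat_lit 1645853) (nat_lit 0x1a886f89c) (nat_lit 365101798),
  Rx.mk (nat_lit 17) (nat_lit 1) (nat_lit 2) (nat_lit 0) (nat_lit 3) (nat_lit 194) (nat_lit 347) r2_194 r7_347 (nat_lit 0) (nat_lit 0) (nat_lit 5017164) (nat_lit 0x207caad94) (nat_lit 265733370),
  Rx.mk (nat_lit 18) (nat_lit 2) (nat_lit 2) (nat_lit 0) (nat_lit 3) (nat_lit 195) (nat_lit 350) r2_195 r7_350 (nat_lit 0) (nat_lit 0) (nat_lit 6143740) (nat_lit 0x203351b34) (nat_lit 271587896),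
  Rx.mk (nat_lit 146) (nat_lit 2) (nat_lit 2) (nat_lit 2) (nat_lit 7) (nat_lit 196) (nat_lit 352) r2_196 r7_352 (nat_lit 0) (nat_lit 0) (nat_lit 0) (nat_lit 0x20056d4f2) (nat_lit 268435456),
  Rx.mk (nat_lit 192) (nat_lit 0) (nat_lit 0) (nat_lit 3) (nat_lit 4) (nat_lit 191) (nat_lit 340) r2_191 r7_340 (nat_lit 2914534) (nat_lit 6259495) (nat_lit 0) (nat_lit 0x1a7896376) (nat_lit 371700385),
  Rx.mk (nat_lit 193) (nat_lit 1) (nat_lit 0) (nat_lit 3) (nat_lit 5) (nat_lit 192) (nat_lit 345) r2_192 r7_345 (nat_lit 0) (nat_lit 9484367) (nat_lit 0) (nat_lit 0x20056d4f2) (nat_lit 277919823),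
  Rx.mk (nat_lit 208) (nat_lit 0) (nat_lit 2) (nat_lit 3) (nat_lit 6) (nat_lit 197) (nat_lit 343) r2_197 r7_343 (nat_lit 4070597) (nat_lit 0) (nat_lit 0) (nat_lit 0x20d4908d8) (nat_lit 259136953),
  Rx.mk (nat_lit 209) (nat_lit 1) (nat_lit 2) (nat_lit 3) (nat_lit 7) (nat_lit 198) (nat_lit 348) r2_198 r7_348 (nat_lit 0) (nat_lit 0) (nat_lit 0) (nat_lit 0x20056d4f2) (nat_lit 268435456),
  Rx.mk (nat_lit 210) (nat_lit 2) (nat_lit 2) (nat_lit 3) (nat_lit 7) (nat_lit 199) (nat_lit 351) r2_199 r7_351 (nat_lit 0) (nat_lit 0) (nat_lit 0) (nat_lit 0x20056d4f2) (nat_lit 268435456),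
  Rx.mk (nat_lit 216) (nat_lit 0) (nat_lit 3) (nat_lit 3) (nat_lit 6) (nat_lit 200) (nat_lit 341) r2_200 r7_341 (nat_lit 9484367) (nat_lit 0) (nat_lit 0) (nat_lit 0x1fbe559fc) (nat_lit 282567823),
  Rx.mk (nat_lit 217) (nat_lit 1) (nat_lit 3) (nat_lit 3) (nat_lit 7) (nat_lit 201) (nat_lit 346) r2_201 r7_346 (nat_lit 0) (nat_lit 0) (nat_lit 0) (nat_lit 0x20056d4f2) (nat_lit 268435456),
  Rx.mk (nat_lit 219) (nat_lit 3) (nat_lit 3) (nat_lit 3) (nat_lit 7) (nat_lit 202) (nat_lit 349) r2_202 r7_349 (nat_lit 0) (nat_lit 0) (nat_lit 0) (nat_lit 0x20056d4f2) (nat_lit 268435456)]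
noncomputable def e40_14 : List Rx := [
  Rx.mk (nat_lit 16) (nat_lit 0) (nat_lit 2) (nat_lit 0) (nat_lit 2) (nat_lit 76) (nat_lit 31) r2_76 r1_31 (nat_lit 6163962) (nat_lit 0) (nat_lit 15142004) (nat_lit 0x1d3d18706) (nat_lit 336837272),
  Rx.mk (nat_lit 18) (nat_lit 2) (nat_lit 2) (nat_lit 0) (nat_lit 3) (nat_lit 77) (nat_lit 32) r2_77 r1_32 (nat_lit 0) (nat_lit 0) (nat_lit 10970796) (nat_lit 0x1fc4dd81a) (nat_lit 283625902),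
  Rx.mk (nat_lit 146) (nat_lit 2) (nat_lit 2) (nat_lit 2) (nat_lit 7) (nat_lit 78) (nat_lit 38) r2_78 r1_38 (nat_lit 0) (nat_lit 0) (nat_lit 0) (nat_lit 0x20056d4f2) (nat_lit 268435456),
  Rx.mk (nat_lit 192) (nat_lit 0) (nat_lit 0) (nat_lit 3) (nat_lit 4) (nat_lit 75) (nat_lit 33) r2_75 r1_33 (nat_lit 4874968) (nat_lit 9879272) (nat_lit 0) (nat_lit 0x1d2b216b0) (nat_lit 331468546),
  Rx.mk (nat_lit 208) (nat_lit 0) (nat_lit 2) (nat_lit 3) (nat_lit 6) (nat_lit 79) (nat_lit 36) r2_79 r1_36 (nat_lit 2049429) (nat_lit 0) (nat_lit 0) (nat_lit 0x23435871e) (nat_lit 217247935),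
  Rx.mk (nat_lit 210) (nat_lit 2) (nat_lit 2) (nat_lit 3) (nat_lit 7) (nat_lit 80) (nat_lit 37) r2_80 r1_37 (nat_lit 0) (nat_lit 0) (nat_lit 0) (nat_lit 0x20d1be4ac) (nat_lit 255245706),
  Rx.mk (nat_lit 216) (nat_lit 0) (nat_lit 3) (nat_lit 3) (nat_lit 6) (nat_lit 82) (nat_lit 34) r2_82 r1_34 (nat_lit 7136584) (nat_lit 0) (nat_lit 0) (nat_lit 0x202b6b672) (nat_lit 273100490),
  Rx.mk (nat_lit 219) (nat_lit 3) (nat_lit 3) (nat_lit 3) (nat_lit 7) (nat_lit 83) (nat_lit 35) r2_83 r1_35 (nat_lit 0) (nat_lit 0) (nat_lit 0) (nat_lit 0x20056d4f2) (nat_lit 268435456),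
  Rx.mk (nat_lit 475) (nat_lit 3) (nat_lit 3) (nat_lit 7) (nat_lit 7) (nat_lit 81) (nat_lit 30) r2_81 r1_30 (nat_lit 0) (nat_lit 0) (nat_lit 0) (nat_lit 0x20056d4f2) (nat_lit 268435456)]
noncomputable def e40_15 : List Rx := [
  Rx.mk (nat_lit 0) (nat_lit 0) (nat_lit 0) (nat_lit 0) (nat_lit 0) (nat_lit 221) (nat_lit 257) r2_221 r8_257 (nat_lit 2244531) (nat_lit 2321625) (nat_lit 1855565) (nat_lit 0xfe82409a) (nat_lit 548419377),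
  Rx.mk (nat_lit 16) (nat_lit 0) (nat_lit 2) (nat_lit 0) (nat_lit 2) (nat_lit 223) (nat_lit 260) r2_223 r8_260 (nat_lit 7301851) (nat_lit 0) (nat_lit 5757461) (nat_lit 0x1a8f639f0) (nat_lit 374092968),
  Rx.mk (nat_lit 18) (nat_lit 2) (nat_lit 2) (nat_lit 0) (nat_lit 3) (nat_lit 224) (nat_lit 263) r2_224 r8_263 (nat_lit 0) (nat_lit 0) (nat_lit 9484367) (nat_lit 0x1fe0c5e6a) (nat_lit 280309623),
  Rx.mk (nat_lit 146) (nat_lit 2) (nat_lit 2) (nat_lit 2) (nat_lit 7) (nat_lit 225) (nat_lit 265) r2_225 r8_265 (nat_lit 0) (nat_lit 0) (nat_lit 0) (nat_lit 0x20056d4f2) (nat_lit 268435456),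
  Rx.mk (nat_lit 192) (nat_lit 0) (nat_lit 0) (nat_lit 3) (nat_lit 4) (nat_lit 222) (nat_lit 258) r2_222 r8_258 (nat_lit 11911936) (nat_lit 12395174) (nat_lit 0) (nat_lit 0x19af7245e) (nat_lit 400205166),
  Rx.mk (nat_lit 208) (nat_lit 0) (nat_lit 2) (nat_lit 3) (nat_lit 6) (nat_lit 226) (nat_lit 261) r2_226 r8_261 (nat_lit 9484367) (nat_lit 0) (nat_lit 0) (nat_lit 0x1fe9dbd10) (nat_lit 279713523),
  Rx.mk (nat_lit 210) (nat_lit 2) (nat_lit 2) (nat_lit 3) (nat_lit 7) (nat_lit 227) (nat_lit 264) r2_227 r8_264 (nat_lit 0) (nat_lit 0) (nat_lit 0) (nat_lit 0x20056d4f2) (nat_lit 268435456),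
  Rx.mk (nat_lit 216) (nat_lit 0) (nat_lit 3) (nat_lit 3) (nat_lit 6) (nat_lit 228) (nat_lit 259) r2_228 r8_259 (nat_lit 9484367) (nat_lit 0) (nat_lit 0) (nat_lit 0x1fc9f84b2) (nat_lit 281792823),
  Rx.mk (nat_lit 219) (nat_lit 3) (nat_lit 3) (nat_lit 3) (nat_lit 7) (nat_lit 229) (nat_lit 262) r2_229 r8_262 (nat_lit 0) (nat_lit 0) (nat_lit 0) (nat_lit 0x20056d4f2) (nat_lit 268435456)]
noncomputable def e40_16 : List Rx := [
  Rx.mk (nat_lit 0) (nat_lit 0) (nat_lit 0) (nat_lit 0) (nat_lit 0) (nat_lit 203) (nat_lit 25) r2_203 r8_25 (nat_lit 1033161) (nat_lit 3897400) (nat_lit 841530) (nat_lit 0x10888ae30) (nat_lit 537090397),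
  Rx.mk (nat_lit 1) (nat_lit 1) (nat_lit 0) (nat_lit 0) (nat_lit 1) (nat_lit 204) (nat_lit 26) r2_204 r8_26 (nat_lit 0) (nat_lit 13271194) (nat_lit 12631128) (nat_lit 0x1876a1590) (nat_lit 422557478),
  Rx.mk (nat_lit 16) (nat_lit 0) (nat_lit 2) (nat_lit 0) (nat_lit 2) (nat_lit 209) (nat_lit 27) r2_209 r8_27 (nat_lit 1132696) (nat_lit 0) (nat_lit 696836) (nat_lit 0x1ab396354) (nat_lit 360394488),
  Rx.mk (nat_lit 17) (nat_lit 1) (nat_lit 2) (nat_lit 0) (nat_lit 3) (nat_lit 210) (nat_lit 28) r2_210 r8_28 (nat_lit 0) (nat_lit 0) (nat_lit 9484367) (nat_lit 0x20056d4f2) (nat_lit 277919823),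
  Rx.mk (nat_lit 18) (nat_lit 2) (nat_lit 2) (nat_lit 0) (nat_lit 3) (nat_lit 211) (nat_lit 29) r2_211 r8_29 (nat_lit 0) (nat_lit 0) (nat_lit 9484367) (nat_lit 0x1ffae912a) (nat_lit 278604423),
  Rx.mk (nat_lit 64) (nat_lit 0) (nat_lit 0) (nat_lit 1) (nat_lit 4) (nat_lit 205) (nat_lit 30) r2_205 r8_30 (nat_lit 21885715) (nat_lit 18538121) (nat_lit 0) (nat_lit 0x1c0a09d52) (nat_lit 376333842),
  Rx.mk (nat_lit 65) (nat_lit 1) (nat_lit 0) (nat_lit 1) (nat_lit 5) (nat_lit 206) (nat_lit 31) r2_206 r8_31 (nat_lit 0) (nat_lit 9612199) (nat_lit 0) (nat_lit 0x1ff969f20) (nat_lit 278829255),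
  Rx.mk (nat_lit 80) (nat_lit 0) (nat_lit 2) (nat_lit 1) (nat_lit 6) (nat_lit 212) (nat_lit 32) r2_212 r8_32 (nat_lit 5423236) (nat_lit 0) (nat_lit 0) (nat_lit 0x2065e7670) (nat_lit 267606092),
  Rx.mk (nat_lit 81) (nat_lit 1) (nat_lit 2) (nat_lit 1) (nat_lit 7) (nat_lit 213) (nat_lit 33) r2_213 r8_33 (nat_lit 0) (nat_lit 0) (nat_lit 0) (nat_lit 0x20056d4f2) (nat_lit 268435456),
  Rx.mk (nat_lit 82) (nat_lit 2) (nat_lit 2) (nat_lit 1) (nat_lit 7) (nat_lit 214) (nat_lit 34) r2_214 r8_34 (nat_lit 0) (nat_lit 0) (nat_lit 0) (nat_lit 0x20056d4f2) (nat_lit 268435456),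
  Rx.mk (nat_lit 146) (nat_lit 2) (nat_lit 2) (nat_lit 2) (nat_lit 7) (nat_lit 215) (nat_lit 42) r2_215 r8_42 (nat_lit 0) (nat_lit 0) (nat_lit 0) (nat_lit 0x20056d4f2) (nat_lit 268435456),
  Rx.mk (nat_lit 192) (nat_lit 0) (nat_lit 0) (nat_lit 3) (nat_lit 4) (nat_lit 207) (nat_lit 35) r2_207 r8_35 (nat_lit 5207249) (nat_lit 3475646) (nat_lit 0) (nat_lit 0x1be5c8f88) (nat_lit 346982551),
  Rx.mk (nat_lit 193) (nat_lit 1) (nat_lit 0) (nat_lit 3) (nat_lit 5) (nat_lit 208) (nat_lit 36) r2_208 r8_36 (nat_lit 0) (nat_lit 9484367) (nat_lit 0) (nat_lit 0x20056d4f2) (nat_lit 277919823),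
  Rx.mk (nat_lit 208) (nat_lit 0) (nat_lit 2) (nat_lit 3) (nat_lit 6) (nat_lit 216) (nat_lit 40) r2_216 r8_40 (nat_lit 5423236) (nat_lit 0) (nat_lit 0) (nat_lit 0x2065e7670) (nat_lit 267606092),
  Rx.mk (nat_lit 209) (nat_lit 1) (nat_lit 2) (nat_lit 3) (nat_lit 7) (nat_lit 217) (nat_lit 41) r2_217 r8_41 (nat_lit 0) (nat_lit 0) (nat_lit 0) (nat_lit 0x20056d4f2) (nat_lit 268435456),
  Rx.mk (nat_lit 216) (nat_lit 0) (nat_lit 3) (nat_lit 3) (nat_lit 6) (nat_lit 218) (nat_lit 37) r2_218 r8_37 (nat_lit 9484367) (nat_lit 0) (nat_lit 0) (nat_lit 0x20056d4f2) (nat_lit 277919823),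
  Rx.mk (nat_lit 217) (nat_lit 1) (nat_lit 3) (nat_lit 3) (nat_lit 7) (nat_lit 219) (nat_lit 38) r2_219 r8_38 (nat_lit 0) (nat_lit 0) (nat_lit 0) (nat_lit 0x20056d4f2) (nat_lit 268435456),
  Rx.mk (nat_lit 219) (nat_lit 3) (nat_lit 3) (nat_lit 3) (nat_lit 7) (nat_lit 220) (nat_lit 39) r2_220 r8_39 (nat_lit 0) (nat_lit 0) (nat_lit 0) (nat_lit 0x20056d4f2) (nat_lit 268435456)]
noncomputable def e40_17 : List Rx := [
  Rx.mk (nat_lit 64) (nat_lit 0) (nat_lit 0) (nat_lit 1) (nat_lit 4) (nat_lit 316) (nat_lit 260) r2_316 r9_260 (nat_lit 14496166) (nat_lit 13222408) (nat_lit 0) (nat_lit 0x197e2b814) (nat_lit 406887580),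
  Rx.mk (nat_lit 65) (nat_lit 1) (nat_lit 0) (nat_lit 1) (nat_lit 5) (nat_lit 317) (nat_lit 262) r2_317 r9_262 (nat_lit 0) (nat_lit 9484367) (nat_lit 0) (nat_lit 0x20056d4f2) (nat_lit 277919823),
  Rx.mk (nat_lit 73) (nat_lit 1) (nat_lit 1) (nat_lit 1) (nat_lit 7) (nat_lit 318) (nat_lit 263) r2_318 r9_263 (nat_lit 0) (nat_lit 0) (nat_lit 0) (nat_lit 0x20056d4f2) (nat_lit 268435456),
  Rx.mk (nat_lit 80) (nat_lit 0) (nat_lit 2) (nat_lit 1) (nat_lit 6) (nat_lit 319) (nat_lit 261) r2_319 r9_261 (nat_lit 9484367) (nat_lit 0) (nat_lit 0) (nat_lit 0x20056d4f2) (nat_lit 277919823),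
  Rx.mk (nat_lit 81) (nat_lit 1) (nat_lit 2) (nat_lit 1) (nat_lit 7) (nat_lit 320) (nat_lit 264) r2_320 r9_264 (nat_lit 0) (nat_lit 0) (nat_lit 0) (nat_lit 0x20056d4f2) (nat_lit 268435456),
  Rx.mk (nat_lit 82) (nat_lit 2) (nat_lit 2) (nat_lit 1) (nat_lit 7) (nat_lit 321) (nat_lit 265) r2_321 r9_265 (nat_lit 0) (nat_lit 0) (nat_lit 0) (nat_lit 0x20056d4f2) (nat_lit 268435456)]
noncomputable def e40_18 : List Rx := [
  Rx.mk (nat_lit 192) (nat_lit 0) (nat_lit 0) (nat_lit 3) (nat_lit 4) (nat_lit 84) (nat_lit 24) r2_84 r4_24 (nat_lit 2600229) (nat_lit 5694526) (nat_lit 0) (nat_lit 0x1c5a2375c) (nat_lit 338859561),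
  Rx.mk (nat_lit 193) (nat_lit 1) (nat_lit 0) (nat_lit 3) (nat_lit 5) (nat_lit 85) (nat_lit 25) r2_85 r4_25 (nat_lit 0) (nat_lit 9484367) (nat_lit 0) (nat_lit 0x204074712) (nat_lit 274085323),
  Rx.mk (nat_lit 208) (nat_lit 0) (nat_lit 2) (nat_lit 3) (nat_lit 6) (nat_lit 86) (nat_lit 28) r2_86 r4_28 (nat_lit 1053683) (nat_lit 0) (nat_lit 0) (nat_lit 0x1f8ecabd8) (nat_lit 277184439),
  Rx.mk (nat_lit 209) (nat_lit 1) (nat_lit 2) (nat_lit 3) (nat_lit 7) (nat_lit 87) (nat_lit 29) r2_87 r4_29 (nat_lit 0) (nat_lit 0) (nat_lit 0) (nat_lit 0x22d7cf9de) (nat_lit 222080006),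
  Rx.mk (nat_lit 210) (nat_lit 2) (nat_lit 2) (nat_lit 3) (nat_lit 7) (nat_lit 88) (nat_lit 30) r2_88 r4_30 (nat_lit 0) (nat_lit 0) (nat_lit 0) (nat_lit 0x22c726c72) (nat_lit 223145856),
  Rx.mk (nat_lit 216) (nat_lit 0) (nat_lit 3) (nat_lit 3) (nat_lit 6) (nat_lit 92) (nat_lit 26) r2_92 r4_26 (nat_lit 4694297) (nat_lit 0) (nat_lit 0) (nat_lit 0x20923b212) (nat_lit 264022053),
  Rx.mk (nat_lit 217) (nat_lit 1) (nat_lit 3) (nat_lit 3) (nat_lit 7) (nat_lit 93) (nat_lit 27) r2_93 r4_27 (nat_lit 0) (nat_lit 0) (nat_lit 0) (nat_lit 0x20056d4f2) (nat_lit 268435456),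
  Rx.mk (nat_lit 472) (nat_lit 0) (nat_lit 3) (nat_lit 7) (nat_lit 6) (nat_lit 89) (nat_lit 21) r2_89 r4_21 (nat_lit 5443682) (nat_lit 0) (nat_lit 0) (nat_lit 0x2062342a8) (nat_lit 267864038),
  Rx.mk (nat_lit 473) (nat_lit 1) (nat_lit 3) (nat_lit 7) (nat_lit 7) (nat_lit 90) (nat_lit 22) r2_90 r4_22 (nat_lit 0) (nat_lit 0) (nat_lit 0) (nat_lit 0x20056d4f2) (nat_lit 268435456),
  Rx.mk (nat_lit 475) (nat_lit 3) (nat_lit 3) (nat_lit 7) (nat_lit 7) (nat_lit 91) (nat_lit 23) r2_91 r4_23 (nat_lit 0) (nat_lit 0) (nat_lit 0) (nat_lit 0x20056d4f2) (nat_lit 268435456)]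
noncomputable def e40_19 : List Rx := [
  Rx.mk (nat_lit 192) (nat_lit 0) (nat_lit 0) (nat_lit 3) (nat_lit 4) (nat_lit 230) (nat_lit 292) r2_230 r10_292 (nat_lit 2365106) (nat_lit 2754889) (nat_lit 0) (nat_lit 0x1b79e19f0) (nat_lit 350541501),
  Rx.mk (nat_lit 193) (nat_lit 1) (nat_lit 0) (nat_lit 3) (nat_lit 5) (nat_lit 231) (nat_lit 295) r2_231 r10_295 (nat_lit 0) (nat_lit 9805262) (nat_lit 0) (nat_lit 0x1febed6b2) (nat_lit 279901468),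
  Rx.mk (nat_lit 208) (nat_lit 0) (nat_lit 2) (nat_lit 3) (nat_lit 6) (nat_lit 232) (nat_lit 294) r2_232 r10_294 (nat_lit 5285914) (nat_lit 0) (nat_lit 0) (nat_lit 0x2073a5046) (nat_lit 266585770),
  Rx.mk (nat_lit 209) (nat_lit 1) (nat_lit 2) (nat_lit 3) (nat_lit 7) (nat_lit 233) (nat_lit 297) r2_233 r10_297 (nat_lit 0) (nat_lit 0) (nat_lit 0) (nat_lit 0x20056d4f2) (nat_lit 268435456),
  Rx.mk (nat_lit 210) (nat_lit 2) (nat_lit 2) (nat_lit 3) (nat_lit 7) (nat_lit 234) (nat_lit 298) r2_234 r10_298 (nat_lit 0) (nat_lit 0) (nat_lit 0) (nat_lit 0x20056d4f2) (nat_lit 268435456),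
  Rx.mk (nat_lit 216) (nat_lit 0) (nat_lit 3) (nat_lit 3) (nat_lit 6) (nat_lit 235) (nat_lit 293) r2_235 r10_293 (nat_lit 9484367) (nat_lit 0) (nat_lit 0) (nat_lit 0x1ff9e8172) (nat_lit 278669773),
  Rx.mk (nat_lit 217) (nat_lit 1) (nat_lit 3) (nat_lit 3) (nat_lit 7) (nat_lit 236) (nat_lit 296) r2_236 r10_296 (nat_lit 0) (nat_lit 0) (nat_lit 0) (nat_lit 0x20056d4f2) (nat_lit 268435456)]
noncomputable def e40_20 : List Rx := [
  Rx.mk (nat_lit 192) (nat_lit 0) (nat_lit 0) (nat_lit 3) (nat_lit 4) (nat_lit 260) (nat_lit 308) r2_260 r11_308 (nat_lit 9568563) (nat_lit 16435647) (nat_lit 0) (nat_lit 0x1e5cbb72e) (nat_lit 322466716),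
  Rx.mk (nat_lit 193) (nat_lit 1) (nat_lit 0) (nat_lit 3) (nat_lit 5) (nat_lit 261) (nat_lit 312) r2_261 r11_312 (nat_lit 0) (nat_lit 10344080) (nat_lit 0) (nat_lit 0x1fce72452) (nat_lit 282369936),
  Rx.mk (nat_lit 208) (nat_lit 0) (nat_lit 2) (nat_lit 3) (nat_lit 6) (nat_lit 262) (nat_lit 311) r2_262 r11_311 (nat_lit 2751488) (nat_lit 0) (nat_lit 0) (nat_lit 0x237226474) (nat_lit 214959644),
  Rx.mk (nat_lit 209) (nat_lit 1) (nat_lit 2) (nat_lit 3) (nat_lit 7) (nat_lit 263) (nat_lit 315) r2_263 r11_315 (nat_lit 0) (nat_lit 0) (nat_lit 0) (nat_lit 0x20a79a9be) (nat_lit 257955956),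
  Rx.mk (nat_lit 210) (nat_lit 2) (nat_lit 2) (nat_lit 3) (nat_lit 7) (nat_lit 264) (nat_lit 317) r2_264 r11_317 (nat_lit 0) (nat_lit 0) (nat_lit 0) (nat_lit 0x20929fe6a) (nat_lit 259304406),
  Rx.mk (nat_lit 448) (nat_lit 0) (nat_lit 0) (nat_lit 7) (nat_lit 4) (nat_lit 258) (nat_lit 309) r2_258 r11_309 (nat_lit 7328392) (nat_lit 11141639) (nat_lit 0) (nat_lit 0x1f3e92486) (nat_lit 299967187),
  Rx.mk (nat_lit 449) (nat_lit 1) (nat_lit 0) (nat_lit 7) (nat_lit 5) (nat_lit 259) (nat_lit 313) r2_259 r11_313 (nat_lit 0) (nat_lit 10365969) (nat_lit 0) (nat_lit 0x1fcd1cb8e) (nat_lit 282479375),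
  Rx.mk (nat_lit 472) (nat_lit 0) (nat_lit 3) (nat_lit 7) (nat_lit 6) (nat_lit 265) (nat_lit 310) r2_265 r11_310 (nat_lit 9484367) (nat_lit 0) (nat_lit 0) (nat_lit 0x20056d4f2) (nat_lit 277919823),
  Rx.mk (nat_lit 473) (nat_lit 1) (nat_lit 3) (nat_lit 7) (nat_lit 7) (nat_lit 266) (nat_lit 314) r2_266 r11_314 (nat_lit 0) (nat_lit 0) (nat_lit 0) (nat_lit 0x20056d4f2) (nat_lit 268435456),
  Rx.mk (nat_lit 475) (nat_lit 3) (nat_lit 3) (nat_lit 7) (nat_lit 7) (nat_lit 267) (nat_lit 316) r2_267 r11_316 (nat_lit 0) (nat_lit 0) (nat_lit 0) (nat_lit 0x20056d4f2) (nat_lit 268435456)]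
noncomputable def e40_21 : List Rx := [
  Rx.mk (nat_lit 73) (nat_lit 1) (nat_lit 1) (nat_lit 1) (nat_lit 7) (nat_lit 315) (nat_lit 293) r2_315 r9_293 (nat_lit 0) (nat_lit 0) (nat_lit 0) (nat_lit 0x20056d4f2) (nat_lit 268435456)]
noncomputable def e40_22 : List Rx := [
  Rx.mk (nat_lit 265) (nat_lit 1) (nat_lit 1) (nat_lit 4) (nat_lit 3) (nat_lit 281) (nat_lit 285) r2_281 r0_285 (nat_lit 0) (nat_lit 0) (nat_lit 58461491) (nat_lit 0x1c9e814b2) (nat_lit 384503097),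
  Rx.mk (nat_lit 269) (nat_lit 5) (nat_lit 1) (nat_lit 4) (nat_lit 3) (nat_lit 280) (nat_lit 286) r2_280 r0_286 (nat_lit 0) (nat_lit 0) (nat_lit 12544226) (nat_lit 0x1eee011d4) (nat_lit 299367132),
  Rx.mk (nat_lit 329) (nat_lit 1) (nat_lit 1) (nat_lit 5) (nat_lit 7) (nat_lit 283) (nat_lit 287) r2_283 r0_287 (nat_lit 0) (nat_lit 0) (nat_lit 0) (nat_lit 0x20056d4f2) (nat_lit 268435456),
  Rx.mk (nat_lit 333) (nat_lit 5) (nat_lit 1) (nat_lit 5) (nat_lit 7) (nat_lit 282) (nat_lit 288) r2_282 r0_288 (nat_lit 0) (nat_lit 0) (nat_lit 0) (nat_lit 0x20056d4f2) (nat_lit 268435456)]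
noncomputable def e40_23 : List Rx := [
  Rx.mk (nat_lit 265) (nat_lit 1) (nat_lit 1) (nat_lit 4) (nat_lit 3) (nat_lit 298) (nat_lit 280) r2_298 r1_280 (nat_lit 0) (nat_lit 0) (nat_lit 41135547) (nat_lit 0x20165832a) (nat_lit 308445753),
  Rx.mk (nat_lit 269) (nat_lit 5) (nat_lit 1) (nat_lit 4) (nat_lit 3) (nat_lit 297) (nat_lit 281) r2_297 r1_281 (nat_lit 0) (nat_lit 0) (nat_lit 10175953) (nat_lit 0x1fe89b2e8) (nat_lit 280481809),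
  Rx.mk (nat_lit 301) (nat_lit 5) (nat_lit 5) (nat_lit 4) (nat_lit 3) (nat_lit 295) (nat_lit 282) r2_295 r1_282 (nat_lit 0) (nat_lit 0) (nat_lit 9484367) (nat_lit 0x1fd510a98) (nat_lit 281076273),
  Rx.mk (nat_lit 329) (nat_lit 1) (nat_lit 1) (nat_lit 5) (nat_lit 7) (nat_lit 300) (nat_lit 283) r2_300 r1_283 (nat_lit 0) (nat_lit 0) (nat_lit 0) (nat_lit 0x20056d4f2) (nat_lit 268435456),
  Rx.mk (nat_lit 333) (nat_lit 5) (nat_lit 1) (nat_lit 5) (nat_lit 7) (nat_lit 299) (nat_lit 284) r2_299 r1_284 (nat_lit 0) (nat_lit 0) (nat_lit 0) (nat_lit 0x20056d4f2) (nat_lit 268435456),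
  Rx.mk (nat_lit 365) (nat_lit 5) (nat_lit 5) (nat_lit 5) (nat_lit 7) (nat_lit 296) (nat_lit 285) r2_296 r1_285 (nat_lit 0) (nat_lit 0) (nat_lit 0) (nat_lit 0x20056d4f2) (nat_lit 268435456)]
noncomputable def e40_24 : List Rx := [
  Rx.mk (nat_lit 265) (nat_lit 1) (nat_lit 1) (nat_lit 4) (nat_lit 3) (nat_lit 350) (nat_lit 299) r2_350 r4_299 (nat_lit 0) (nat_lit 0) (nat_lit 20123259) (nat_lit 0x1f226cc5c) (nat_lit 303492615),
  Rx.mk (nat_lit 269) (nat_lit 5) (nat_lit 1) (nat_lit 4) (nat_lit 3) (nat_lit 349) (nat_lit 300) r2_349 r4_300 (nat_lit 0) (nat_lit 0) (nat_lit 9484367) (nat_lit 0x1ffb19802) (nat_lit 278589723),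
  Rx.mk (nat_lit 329) (nat_lit 1) (nat_lit 1) (nat_lit 5) (nat_lit 7) (nat_lit 352) (nat_lit 301) r2_352 r4_301 (nat_lit 0) (nat_lit 0) (nat_lit 0) (nat_lit 0x20056d4f2) (nat_lit 268435456),
  Rx.mk (nat_lit 333) (nat_lit 5) (nat_lit 1) (nat_lit 5) (nat_lit 7) (nat_lit 351) (nat_lit 302) r2_351 r4_302 (nat_lit 0) (nat_lit 0) (nat_lit 0) (nat_lit 0x20056d4f2) (nat_lit 268435456),
  Rx.mk (nat_lit 461) (nat_lit 5) (nat_lit 1) (nat_lit 7) (nat_lit 7) (nat_lit 353) (nat_lit 303) r2_353 r4_303 (nat_lit 0) (nat_lit 0) (nat_lit 0) (nat_lit 0x20056d4f2) (nat_lit 268435456)]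
noncomputable def e40_25 : List Rx := [
  Rx.mk (nat_lit 329) (nat_lit 1) (nat_lit 1) (nat_lit 5) (nat_lit 7) (nat_lit 285) (nat_lit 400) r2_285 r7_400 (nat_lit 0) (nat_lit 0) (nat_lit 0) (nat_lit 0x20056d4f2) (nat_lit 268435456),
  Rx.mk (nat_lit 333) (nat_lit 5) (nat_lit 1) (nat_lit 5) (nat_lit 7) (nat_lit 284) (nat_lit 399) r2_284 r7_399 (nat_lit 0) (nat_lit 0) (nat_lit 0) (nat_lit 0x20056d4f2) (nat_lit 268435456)]
noncomputable def e40_26 : List Rx := [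
  Rx.mk (nat_lit 329) (nat_lit 1) (nat_lit 1) (nat_lit 5) (nat_lit 7) (nat_lit 303) (nat_lit 322) r2_303 r8_322 (nat_lit 0) (nat_lit 0) (nat_lit 0) (nat_lit 0x20056d4f2) (nat_lit 268435456),
  Rx.mk (nat_lit 333) (nat_lit 5) (nat_lit 1) (nat_lit 5) (nat_lit 7) (nat_lit 302) (nat_lit 321) r2_302 r8_321 (nat_lit 0) (nat_lit 0) (nat_lit 0) (nat_lit 0x20056d4f2) (nat_lit 268435456),
  Rx.mk (nat_lit 365) (nat_lit 5) (nat_lit 5) (nat_lit 5) (nat_lit 7) (nat_lit 301) (nat_lit 320) r2_301 r8_320 (nat_lit 0) (nat_lit 0) (nat_lit 0) (nat_lit 0x20056d4f2) (nat_lit 268435456)]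
noncomputable def e40_27 : List Rx := [
  Rx.mk (nat_lit 73) (nat_lit 1) (nat_lit 1) (nat_lit 1) (nat_lit 7) (nat_lit 314) (nat_lit 320) r2_314 r8_320 (nat_lit 0) (nat_lit 0) (nat_lit 0) (nat_lit 0x20056d4f2) (nat_lit 268435456),
  Rx.mk (nat_lit 329) (nat_lit 1) (nat_lit 1) (nat_lit 5) (nat_lit 7) (nat_lit 313) (nat_lit 321) r2_313 r8_321 (nat_lit 0) (nat_lit 0) (nat_lit 0) (nat_lit 0x20056d4f2) (nat_lit 268435456),
  Rx.mk (nat_lit 333) (nat_lit 5) (nat_lit 1) (nat_lit 5) (nat_lit 7) (nat_lit 312) (nat_lit 322) r2_312 r8_322 (nat_lit 0) (nat_lit 0) (nat_lit 0) (nat_lit 0x20056d4f2) (nat_lit 268435456)]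
noncomputable def e40_28 : List Rx := [
  Rx.mk (nat_lit 329) (nat_lit 1) (nat_lit 1) (nat_lit 5) (nat_lit 7) (nat_lit 355) (nat_lit 324) r2_355 r10_324 (nat_lit 0) (nat_lit 0) (nat_lit 0) (nat_lit 0x20056d4f2) (nat_lit 268435456),
  Rx.mk (nat_lit 333) (nat_lit 5) (nat_lit 1) (nat_lit 5) (nat_lit 7) (nat_lit 354) (nat_lit 323) r2_354 r10_323 (nat_lit 0) (nat_lit 0) (nat_lit 0) (nat_lit 0x20056d4f2) (nat_lit 268435456)]
noncomputable def e40_29 : List Rx := [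
  Rx.mk (nat_lit 265) (nat_lit 1) (nat_lit 1) (nat_lit 4) (nat_lit 3) (nat_lit 356) (nat_lit 340) r2_356 r11_340 (nat_lit 0) (nat_lit 0) (nat_lit 21278725) (nat_lit 0x1f55b64fa) (nat_lit 301258281),
  Rx.mk (nat_lit 329) (nat_lit 1) (nat_lit 1) (nat_lit 5) (nat_lit 7) (nat_lit 357) (nat_lit 341) r2_357 r11_341 (nat_lit 0) (nat_lit 0) (nat_lit 0) (nat_lit 0x20056d4f2) (nat_lit 268435456),
  Rx.mk (nat_lit 457) (nat_lit 1) (nat_lit 1) (nat_lit 7) (nat_lit 7) (nat_lit 359) (nat_lit 342) r2_359 r11_342 (nat_lit 0) (nat_lit 0) (nat_lit 0) (nat_lit 0x20056d4f2) (nat_lit 268435456),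
  Rx.mk (nat_lit 461) (nat_lit 5) (nat_lit 1) (nat_lit 7) (nat_lit 7) (nat_lit 358) (nat_lit 339) r2_358 r11_339 (nat_lit 0) (nat_lit 0) (nat_lit 0) (nat_lit 0x20056d4f2) (nat_lit 268435456)]
noncomputable def e40_30 : List Rx := [
  Rx.mk (nat_lit 217) (nat_lit 1) (nat_lit 3) (nat_lit 3) (nat_lit 7) (nat_lit 97) (nat_lit 15) r2_97 r5_15 (nat_lit 0) (nat_lit 0) (nat_lit 0) (nat_lit 0x20716b122) (nat_lit 261438406),
  Rx.mk (nat_lit 473) (nat_lit 1) (nat_lit 3) (nat_lit 7) (nat_lit 7) (nat_lit 96) (nat_lit 14) r2_96 r5_14 (nat_lit 0) (nat_lit 0) (nat_lit 0) (nat_lit 0x20056d4f2) (nat_lit 268435456)]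
noncomputable def e40_31 : List Rx := [
  Rx.mk (nat_lit 217) (nat_lit 1) (nat_lit 3) (nat_lit 3) (nat_lit 7) (nat_lit 237) (nat_lit 5) r2_237 r11_5 (nat_lit 0) (nat_lit 0) (nat_lit 0) (nat_lit 0x20056d4f2) (nat_lit 268435456)]
noncomputable def e40_32 : List Rx := [
  Rx.mk (nat_lit 281) (nat_lit 1) (nat_lit 3) (nat_lit 4) (nat_lit 3) (nat_lit 270) (nat_lit 289) r2_270 r6_289 (nat_lit 0) (nat_lit 0) (nat_lit 10510343) (nat_lit 0x1f8bf4256) (nat_lit 286894199),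
  Rx.mk (nat_lit 285) (nat_lit 5) (nat_lit 3) (nat_lit 4) (nat_lit 3) (nat_lit 269) (nat_lit 286) r2_269 r6_286 (nat_lit 0) (nat_lit 0) (nat_lit 9484367) (nat_lit 0x1f845577a) (nat_lit 286381923),
  Rx.mk (nat_lit 453) (nat_lit 5) (nat_lit 0) (nat_lit 7) (nat_lit 5) (nat_lit 268) (nat_lit 287) r2_268 r6_287 (nat_lit 0) (nat_lit 10188298) (nat_lit 0) (nat_lit 0x1fc8c4b22) (nat_lit 282587704),
  Rx.mk (nat_lit 477) (nat_lit 5) (nat_lit 3) (nat_lit 7) (nat_lit 7) (nat_lit 271) (nat_lit 288) r2_271 r6_288 (nat_lit 0) (nat_lit 0) (nat_lit 0) (nat_lit 0x20056d4f2) (nat_lit 268435456)]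
noncomputable def e40_33 : List Rx := [
  Rx.mk (nat_lit 261) (nat_lit 5) (nat_lit 0) (nat_lit 4) (nat_lit 1) (nat_lit 360) (nat_lit 276) r2_360 r5_276 (nat_lit 0) (nat_lit 5613392) (nat_lit 12102987) (nat_lit 0x194cc9758) (nat_lit 400137485),
  Rx.mk (nat_lit 269) (nat_lit 5) (nat_lit 1) (nat_lit 4) (nat_lit 3) (nat_lit 363) (nat_lit 277) r2_363 r5_277 (nat_lit 0) (nat_lit 0) (nat_lit 9484367) (nat_lit 0x20056d4f2) (nat_lit 277919823),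
  Rx.mk (nat_lit 281) (nat_lit 1) (nat_lit 3) (nat_lit 4) (nat_lit 3) (nat_lit 367) (nat_lit 275) r2_367 r5_275 (nat_lit 0) (nat_lit 0) (nat_lit 7565097) (nat_lit 0x20234095c) (nat_lit 274059903),
  Rx.mk (nat_lit 285) (nat_lit 5) (nat_lit 3) (nat_lit 4) (nat_lit 3) (nat_lit 366) (nat_lit 278) r2_366 r5_278 (nat_lit 0) (nat_lit 0) (nat_lit 7565036) (nat_lit 0x202341924) (nat_lit 274059592),
  Rx.mk (nat_lit 325) (nat_lit 5) (nat_lit 0) (nat_lit 5) (nat_lit 5) (nat_lit 361) (nat_lit 280) r2_361 r5_280 (nat_lit 0) (nat_lit 19988985) (nat_lit 0) (nat_lit 0x1afb37d8e) (nat_lit 373866291),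
  Rx.mk (nat_lit 333) (nat_lit 5) (nat_lit 1) (nat_lit 5) (nat_lit 7) (nat_lit 364) (nat_lit 281) r2_364 r5_281 (nat_lit 0) (nat_lit 0) (nat_lit 0) (nat_lit 0x20056d4f2) (nat_lit 268435456),
  Rx.mk (nat_lit 345) (nat_lit 1) (nat_lit 3) (nat_lit 5) (nat_lit 7) (nat_lit 369) (nat_lit 279) r2_369 r5_279 (nat_lit 0) (nat_lit 0) (nat_lit 0) (nat_lit 0x20056d4f2) (nat_lit 268435456),
  Rx.mk (nat_lit 349) (nat_lit 5) (nat_lit 3) (nat_lit 5) (nat_lit 7) (nat_lit 368) (nat_lit 282) r2_368 r5_282 (nat_lit 0) (nat_lit 0) (nat_lit 0) (nat_lit 0x20056d4f2) (nat_lit 268435456),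
  Rx.mk (nat_lit 453) (nat_lit 5) (nat_lit 0) (nat_lit 7) (nat_lit 5) (nat_lit 362) (nat_lit 283) r2_362 r5_283 (nat_lit 0) (nat_lit 9484367) (nat_lit 0) (nat_lit 0x20056d4f2) (nat_lit 277919823),
  Rx.mk (nat_lit 461) (nat_lit 5) (nat_lit 1) (nat_lit 7) (nat_lit 7) (nat_lit 365) (nat_lit 284) r2_365 r5_284 (nat_lit 0) (nat_lit 0) (nat_lit 0) (nat_lit 0x20056d4f2) (nat_lit 268435456)]
noncomputable def e40_34 : List Rx := [
  Rx.mk (nat_lit 325) (nat_lit 5) (nat_lit 0) (nat_lit 5) (nat_lit 5) (nat_lit 370) (nat_lit 340) r2_370 r11_340 (nat_lit 0) (nat_lit 21278725) (nat_lit 0) (nat_lit 0x1f55b64fa) (nat_lit 301258281),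
  Rx.mk (nat_lit 333) (nat_lit 5) (nat_lit 1) (nat_lit 5) (nat_lit 7) (nat_lit 371) (nat_lit 341) r2_371 r11_341 (nat_lit 0) (nat_lit 0) (nat_lit 0) (nat_lit 0x20056d4f2) (nat_lit 268435456),
  Rx.mk (nat_lit 345) (nat_lit 1) (nat_lit 3) (nat_lit 5) (nat_lit 7) (nat_lit 373) (nat_lit 339) r2_373 r11_339 (nat_lit 0) (nat_lit 0) (nat_lit 0) (nat_lit 0x20056d4f2) (nat_lit 268435456),
  Rx.mk (nat_lit 349) (nat_lit 5) (nat_lit 3) (nat_lit 5) (nat_lit 7) (nat_lit 372) (nat_lit 342) r2_372 r11_342 (nat_lit 0) (nat_lit 0) (nat_lit 0) (nat_lit 0x20056d4f2) (nat_lit 268435456)]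
noncomputable def e40_35 : List Rx := [
  Rx.mk (nat_lit 473) (nat_lit 1) (nat_lit 3) (nat_lit 7) (nat_lit 7) (nat_lit 95) (nat_lit 10) r2_95 r6_10 (nat_lit 0) (nat_lit 0) (nat_lit 0) (nat_lit 0x20056d4f2) (nat_lit 268435456),
  Rx.mk (nat_lit 477) (nat_lit 5) (nat_lit 3) (nat_lit 7) (nat_lit 7) (nat_lit 94) (nat_lit 11) r2_94 r6_11 (nat_lit 0) (nat_lit 0) (nat_lit 0) (nat_lit 0x20056d4f2) (nat_lit 268435456)]
noncomputable def e40_36 : List Rx := [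
  Rx.mk (nat_lit 281) (nat_lit 1) (nat_lit 3) (nat_lit 4) (nat_lit 3) (nat_lit 273) (nat_lit 344) r2_273 r12_344 (nat_lit 0) (nat_lit 0) (nat_lit 7488790) (nat_lit 0x1ea5b99b2) (nat_lit 299105196),
  Rx.mk (nat_lit 453) (nat_lit 5) (nat_lit 0) (nat_lit 7) (nat_lit 5) (nat_lit 272) (nat_lit 346) r2_272 r12_346 (nat_lit 0) (nat_lit 7488790) (nat_lit 0) (nat_lit 0x1ea5b99b2) (nat_lit 299105196),
  Rx.mk (nat_lit 473) (nat_lit 1) (nat_lit 3) (nat_lit 7) (nat_lit 7) (nat_lit 275) (nat_lit 345) r2_275 r12_345 (nat_lit 0) (nat_lit 0) (nat_lit 0) (nat_lit 0x20056d4f2) (nat_lit 268435456),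
  Rx.mk (nat_lit 477) (nat_lit 5) (nat_lit 3) (nat_lit 7) (nat_lit 7) (nat_lit 274) (nat_lit 347) r2_274 r12_347 (nat_lit 0) (nat_lit 0) (nat_lit 0) (nat_lit 0x20056d4f2) (nat_lit 268435456)]
noncomputable def e40_37 : List Rx := [
  Rx.mk (nat_lit 293) (nat_lit 5) (nat_lit 4) (nat_lit 4) (nat_lit 1) (nat_lit 98) (nat_lit 254) r2_98 r0_254 (nat_lit 0) (nat_lit 7936988) (nat_lit 23860633) (nat_lit 0x160a0e9fc) (nat_lit 469629927),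
  Rx.mk (nat_lit 317) (nat_lit 5) (nat_lit 7) (nat_lit 4) (nat_lit 3) (nat_lit 99) (nat_lit 255) r2_99 r0_255 (nat_lit 0) (nat_lit 0) (nat_lit 24694302) (nat_lit 0x1f1cd48f8) (nat_lit 308430658),
  Rx.mk (nat_lit 509) (nat_lit 5) (nat_lit 7) (nat_lit 7) (nat_lit 7) (nat_lit 100) (nat_lit 256) r2_100 r0_256 (nat_lit 0) (nat_lit 0) (nat_lit 0) (nat_lit 0x20056d4f2) (nat_lit 268435456)]
noncomputable def e40_38 : List Rx := [
  Rx.mk (nat_lit 316) (nat_lit 4) (nat_lit 7) (nat_lit 4) (nat_lit 2) (nat_lit 4) (nat_lit 34) r2_4 r0_34 (nat_lit 813893) (nat_lit 0) (nat_lit 1671764) (nat_lit 0x19c19e614) (nat_lit 377108313),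
  Rx.mk (nat_lit 317) (nat_lit 5) (nat_lit 7) (nat_lit 4) (nat_lit 3) (nat_lit 5) (nat_lit 35) r2_5 r0_35 (nat_lit 0) (nat_lit 0) (nat_lit 10441397) (nat_lit 0x1fa2a4a28) (nat_lit 285340053),
  Rx.mk (nat_lit 420) (nat_lit 4) (nat_lit 4) (nat_lit 6) (nat_lit 4) (nat_lit 0) (nat_lit 31) r2_0 r0_31 (nat_lit 294663) (nat_lit 349407) (nat_lit 0) (nat_lit 0x19a17a64e) (nat_lit 377353876),
  Rx.mk (nat_lit 421) (nat_lit 5) (nat_lit 4) (nat_lit 6) (nat_lit 5) (nat_lit 1) (nat_lit 32) r2_1 r0_32 (nat_lit 0) (nat_lit 3951197) (nat_lit 0) (nat_lit 0x1fb1bfb20) (nat_lit 277838903),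
  Rx.mk (nat_lit 422) (nat_lit 6) (nat_lit 4) (nat_lit 6) (nat_lit 5) (nat_lit 2) (nat_lit 33) r2_2 r0_33 (nat_lit 0) (nat_lit 7471693) (nat_lit 0) (nat_lit 0x1fd740098) (nat_lit 278900949),
  Rx.mk (nat_lit 438) (nat_lit 6) (nat_lit 6) (nat_lit 6) (nat_lit 7) (nat_lit 3) (nat_lit 42) r2_3 r0_42 (nat_lit 0) (nat_lit 0) (nat_lit 0) (nat_lit 0x2086fe548) (nat_lit 260050456),
  Rx.mk (nat_lit 444) (nat_lit 4) (nat_lit 7) (nat_lit 6) (nat_lit 6) (nat_lit 6) (nat_lit 39) r2_6 r0_39 (nat_lit 267483) (nat_lit 0) (nat_lit 0) (nat_lit 0x2090e0ad4) (nat_lit 259516689),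
  Rx.mk (nat_lit 445) (nat_lit 5) (nat_lit 7) (nat_lit 6) (nat_lit 7) (nat_lit 7) (nat_lit 40) r2_7 r0_40 (nat_lit 0) (nat_lit 0) (nat_lit 0) (nat_lit 0x23e3f71fc) (nat_lit 204928556),
  Rx.mk (nat_lit 446) (nat_lit 6) (nat_lit 7) (nat_lit 6) (nat_lit 7) (nat_lit 8) (nat_lit 41) r2_8 r0_41 (nat_lit 0) (nat_lit 0) (nat_lit 0) (nat_lit 0x240278928) (nat_lit 202977506),
  Rx.mk (nat_lit 479) (nat_lit 7) (nat_lit 3) (nat_lit 7) (nat_lit 7) (nat_lit 12) (nat_lit 30) r2_12 r0_30 (nat_lit 0) (nat_lit 0) (nat_lit 0) (nat_lit 0x1ffdc5ed4) (nat_lit 268933606),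
  Rx.mk (nat_lit 508) (nat_lit 4) (nat_lit 7) (nat_lit 7) (nat_lit 6) (nat_lit 9) (nat_lit 36) r2_9 r0_36 (nat_lit 5691868) (nat_lit 0) (nat_lit 0) (nat_lit 0x1f50a2202) (nat_lit 285995074),
  Rx.mk (nat_lit 509) (nat_lit 5) (nat_lit 7) (nat_lit 7) (nat_lit 7) (nat_lit 10) (nat_lit 37) r2_10 r0_37 (nat_lit 0) (nat_lit 0) (nat_lit 0) (nat_lit 0x1ffc2f214) (nat_lit 269036706),
  Rx.mk (nat_lit 511) (nat_lit 7) (nat_lit 7) (nat_lit 7) (nat_lit 7) (nat_lit 11) (nat_lit 38) r2_11 r0_38 (nat_lit 0) (nat_lit 0) (nat_lit 0) (nat_lit 0x2013deebe) (nat_lit 267490256)]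
noncomputable def e40_39 : List Rx := [
  Rx.mk (nat_lit 292) (nat_lit 4) (nat_lit 4) (nat_lit 4) (nat_lit 0) (nat_lit 101) (nat_lit 339) r2_101 r7_339 (nat_lit 122782) (nat_lit 110182) (nat_lit 347865) (nat_lit 0xf155adc6) (nat_lit 556453385),
  Rx.mk (nat_lit 293) (nat_lit 5) (nat_lit 4) (nat_lit 4) (nat_lit 1) (nat_lit 102) (nat_lit 344) r2_102 r7_344 (nat_lit 0) (nat_lit 3470687) (nat_lit 7109024) (nat_lit 0x150fa33f0) (nat_lit 465021817),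
  Rx.mk (nat_lit 316) (nat_lit 4) (nat_lit 7) (nat_lit 4) (nat_lit 2) (nat_lit 107) (nat_lit 340) r2_107 r7_340 (nat_lit 2914534) (nat_lit 0) (nat_lit 6259495) (nat_lit 0x1a7896376) (nat_lit 371700385),
  Rx.mk (nat_lit 317) (nat_lit 5) (nat_lit 7) (nat_lit 4) (nat_lit 3) (nat_lit 108) (nat_lit 345) r2_108 r7_345 (nat_lit 0) (nat_lit 0) (nat_lit 9484367) (nat_lit 0x20056d4f2) (nat_lit 277919823),
  Rx.mk (nat_lit 420) (nat_lit 4) (nat_lit 4) (nat_lit 6) (nat_lit 4) (nat_lit 103) (nat_lit 342) r2_103 r7_342 (nat_lit 1994389) (nat_lit 1645853) (nat_lit 0) (nat_lit 0x1a886f89c) (nat_lit 365101798),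
  Rx.mk (nat_lit 421) (nat_lit 5) (nat_lit 4) (nat_lit 6) (nat_lit 5) (nat_lit 104) (nat_lit 347) r2_104 r7_347 (nat_lit 0) (nat_lit 5017164) (nat_lit 0) (nat_lit 0x207caad94) (nat_lit 265733370),
  Rx.mk (nat_lit 422) (nat_lit 6) (nat_lit 4) (nat_lit 6) (nat_lit 5) (nat_lit 105) (nat_lit 350) r2_105 r7_350 (nat_lit 0) (nat_lit 6143740) (nat_lit 0) (nat_lit 0x203351b34) (nat_lit 271587896),
  Rx.mk (nat_lit 438) (nat_lit 6) (nat_lit 6) (nat_lit 6) (nat_lit 7) (nat_lit 106) (nat_lit 352) r2_106 r7_352 (nat_lit 0) (nat_lit 0) (nat_lit 0) (nat_lit 0x20056d4f2) (nat_lit 268435456),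
  Rx.mk (nat_lit 444) (nat_lit 4) (nat_lit 7) (nat_lit 6) (nat_lit 6) (nat_lit 109) (nat_lit 343) r2_109 r7_343 (nat_lit 4070597) (nat_lit 0) (nat_lit 0) (nat_lit 0x20d4908d8) (nat_lit 259136953),
  Rx.mk (nat_lit 445) (nat_lit 5) (nat_lit 7) (nat_lit 6) (nat_lit 7) (nat_lit 110) (nat_lit 348) r2_110 r7_348 (nat_lit 0) (nat_lit 0) (nat_lit 0) (nat_lit 0x20056d4f2) (nat_lit 268435456),
  Rx.mk (nat_lit 446) (nat_lit 6) (nat_lit 7) (nat_lit 6) (nat_lit 7) (nat_lit 111) (nat_lit 351) r2_111 r7_351 (nat_lit 0) (nat_lit 0) (nat_lit 0) (nat_lit 0x20056d4f2) (nat_lit 268435456),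
  Rx.mk (nat_lit 508) (nat_lit 4) (nat_lit 7) (nat_lit 7) (nat_lit 6) (nat_lit 112) (nat_lit 341) r2_112 r7_341 (nat_lit 9484367) (nat_lit 0) (nat_lit 0) (nat_lit 0x1fbe559fc) (nat_lit 282567823),
  Rx.mk (nat_lit 509) (nat_lit 5) (nat_lit 7) (nat_lit 7) (nat_lit 7) (nat_lit 113) (nat_lit 346) r2_113 r7_346 (nat_lit 0) (nat_lit 0) (nat_lit 0) (nat_lit 0x20056d4f2) (nat_lit 268435456),
  Rx.mk (nat_lit 511) (nat_lit 7) (nat_lit 7) (nat_lit 7) (nat_lit 7) (nat_lit 114) (nat_lit 349) r2_114 r7_349 (nat_lit 0) (nat_lit 0) (nat_lit 0) (nat_lit 0x20056d4f2) (nat_lit 268435456)]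
noncomputable def e40_40 : List Rx := [
  Rx.mk (nat_lit 16) (nat_lit 0) (nat_lit 2) (nat_lit 0) (nat_lit 2) (nat_lit 35) (nat_lit 27) r2_35 r2_27 (nat_lit 171961) (nat_lit 0) (nat_lit 186310) (nat_lit 0x198c60f24) (nat_lit 378453277),
  Rx.mk (nat_lit 18) (nat_lit 2) (nat_lit 2) (nat_lit 0) (nat_lit 3) (nat_lit 36) (nat_lit 28) r2_36 r2_28 (nat_lit 0) (nat_lit 0) (nat_lit 13000078) (nat_lit 0x1e3674fa2) (nat_lit 311997584),
  Rx.mk (nat_lit 146) (nat_lit 2) (nat_lit 2) (nat_lit 2) (nat_lit 7) (nat_lit 37) (nat_lit 32) r2_37 r2_32 (nat_lit 0) (nat_lit 0) (nat_lit 0) (nat_lit 0x20056d4f2) (nat_lit 268435456),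
  Rx.mk (nat_lit 178) (nat_lit 2) (nat_lit 6) (nat_lit 2) (nat_lit 7) (nat_lit 26) (nat_lit 41) r2_26 r2_41 (nat_lit 0) (nat_lit 0) (nat_lit 0) (nat_lit 0x20056d4f2) (nat_lit 268435456),
  Rx.mk (nat_lit 182) (nat_lit 6) (nat_lit 6) (nat_lit 2) (nat_lit 7) (nat_lit 25) (nat_lit 42) r2_25 r2_42 (nat_lit 0) (nat_lit 0) (nat_lit 0) (nat_lit 0x20056d4f2) (nat_lit 268435456),
  Rx.mk (nat_lit 192) (nat_lit 0) (nat_lit 0) (nat_lit 3) (nat_lit 4) (nat_lit 33) (nat_lit 22) r2_33 r2_22 (nat_lit 171961) (nat_lit 186310) (nat_lit 0) (nat_lit 0x198c60f24) (nat_lit 378453277),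
  Rx.mk (nat_lit 195) (nat_lit 3) (nat_lit 0) (nat_lit 3) (nat_lit 5) (nat_lit 34) (nat_lit 23) r2_34 r2_23 (nat_lit 0) (nat_lit 13000078) (nat_lit 0) (nat_lit 0x1e3674fa2) (nat_lit 311997584),
  Rx.mk (nat_lit 208) (nat_lit 0) (nat_lit 2) (nat_lit 3) (nat_lit 6) (nat_lit 38) (nat_lit 29) r2_38 r2_29 (nat_lit 971747) (nat_lit 0) (nat_lit 0) (nat_lit 0x2079364ec) (nat_lit 261853903),
  Rx.mk (nat_lit 210) (nat_lit 2) (nat_lit 2) (nat_lit 3) (nat_lit 7) (nat_lit 39) (nat_lit 31) r2_39 r2_31 (nat_lit 0) (nat_lit 0) (nat_lit 0) (nat_lit 0x20519907e) (nat_lit 263496556),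
  Rx.mk (nat_lit 211) (nat_lit 3) (nat_lit 2) (nat_lit 3) (nat_lit 7) (nat_lit 40) (nat_lit 30) r2_40 r2_30 (nat_lit 0) (nat_lit 0) (nat_lit 0) (nat_lit 0x20519907e) (nat_lit 263496556),
  Rx.mk (nat_lit 219) (nat_lit 3) (nat_lit 3) (nat_lit 3) (nat_lit 7) (nat_lit 43) (nat_lit 24) r2_43 r2_24 (nat_lit 0) (nat_lit 0) (nat_lit 0) (nat_lit 0x20056d4f2) (nat_lit 268435456),
  Rx.mk (nat_lit 316) (nat_lit 4) (nat_lit 7) (nat_lit 4) (nat_lit 2) (nat_lit 27) (nat_lit 35) r2_27 r2_35 (nat_lit 171961) (nat_lit 0) (nat_lit 186310) (nat_lit 0x198c60f24) (nat_lit 378453277),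
  Rx.mk (nat_lit 319) (nat_lit 7) (nat_lit 7) (nat_lit 4) (nat_lit 3) (nat_lit 28) (nat_lit 36) r2_28 r2_36 (nat_lit 0) (nat_lit 0) (nat_lit 13000078) (nat_lit 0x1e3674fa2) (nat_lit 311997584),
  Rx.mk (nat_lit 420) (nat_lit 4) (nat_lit 4) (nat_lit 6) (nat_lit 4) (nat_lit 22) (nat_lit 33) r2_22 r2_33 (nat_lit 171961) (nat_lit 186310) (nat_lit 0) (nat_lit 0x198c60f24) (nat_lit 378453277),
  Rx.mk (nat_lit 422) (nat_lit 6) (nat_lit 4) (nat_lit 6) (nat_lit 5) (nat_lit 23) (nat_lit 34) r2_23 r2_34 (nat_lit 0) (nat_lit 13000078) (nat_lit 0) (nat_lit 0x1e3674fa2) (nat_lit 311997584),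
  Rx.mk (nat_lit 438) (nat_lit 6) (nat_lit 6) (nat_lit 6) (nat_lit 7) (nat_lit 24) (nat_lit 43) r2_24 r2_43 (nat_lit 0) (nat_lit 0) (nat_lit 0) (nat_lit 0x20056d4f2) (nat_lit 268435456),
  Rx.mk (nat_lit 444) (nat_lit 4) (nat_lit 7) (nat_lit 6) (nat_lit 6) (nat_lit 29) (nat_lit 38) r2_29 r2_38 (nat_lit 971747) (nat_lit 0) (nat_lit 0) (nat_lit 0x2079364ec) (nat_lit 261853903),
  Rx.mk (nat_lit 446) (nat_lit 6) (nat_lit 7) (nat_lit 6) (nat_lit 7) (nat_lit 30) (nat_lit 40) r2_30 r2_40 (nat_lit 0) (nat_lit 0) (nat_lit 0) (nat_lit 0x20519907e) (nat_lit 263496556),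
  Rx.mk (nat_lit 447) (nat_lit 7) (nat_lit 7) (nat_lit 6) (nat_lit 7) (nat_lit 31) (nat_lit 39) r2_31 r2_39 (nat_lit 0) (nat_lit 0) (nat_lit 0) (nat_lit 0x20519907e) (nat_lit 263496556),
  Rx.mk (nat_lit 475) (nat_lit 3) (nat_lit 3) (nat_lit 7) (nat_lit 7) (nat_lit 42) (nat_lit 25) r2_42 r2_25 (nat_lit 0) (nat_lit 0) (nat_lit 0) (nat_lit 0x20056d4f2) (nat_lit 268435456),
  Rx.mk (nat_lit 479) (nat_lit 7) (nat_lit 3) (nat_lit 7) (nat_lit 7) (nat_lit 41) (nat_lit 26) r2_41 r2_26 (nat_lit 0) (nat_lit 0) (nat_lit 0) (nat_lit 0x20056d4f2) (nat_lit 268435456),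
  Rx.mk (nat_lit 511) (nat_lit 7) (nat_lit 7) (nat_lit 7) (nat_lit 7) (nat_lit 32) (nat_lit 37) r2_32 r2_37 (nat_lit 0) (nat_lit 0) (nat_lit 0) (nat_lit 0x20056d4f2) (nat_lit 268435456)]
noncomputable def e40_41 : List Rx := [
  Rx.mk (nat_lit 178) (nat_lit 2) (nat_lit 6) (nat_lit 2) (nat_lit 7) (nat_lit 151) (nat_lit 11) r2_151 r9_11 (nat_lit 0) (nat_lit 0) (nat_lit 0) (nat_lit 0x20056d4f2) (nat_lit 268435456),
  Rx.mk (nat_lit 182) (nat_lit 6) (nat_lit 6) (nat_lit 2) (nat_lit 7) (nat_lit 150) (nat_lit 12) r2_150 r9_12 (nat_lit 0) (nat_lit 0) (nat_lit 0) (nat_lit 0x20056d4f2) (nat_lit 268435456),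
  Rx.mk (nat_lit 292) (nat_lit 4) (nat_lit 4) (nat_lit 4) (nat_lit 0) (nat_lit 146) (nat_lit 2) r2_146 r9_2 (nat_lit 2695517) (nat_lit 2535298) (nat_lit 2176186) (nat_lit 0xe64a0292) (nat_lit 575129957),
  Rx.mk (nat_lit 316) (nat_lit 4) (nat_lit 7) (nat_lit 4) (nat_lit 2) (nat_lit 152) (nat_lit 5) r2_152 r9_5 (nat_lit 11047932) (nat_lit 0) (nat_lit 6805698) (nat_lit 0x18db5b1b6) (nat_lit 407826486),
  Rx.mk (nat_lit 319) (nat_lit 7) (nat_lit 7) (nat_lit 4) (nat_lit 3) (nat_lit 153) (nat_lit 6) r2_153 r9_6 (nat_lit 0) (nat_lit 0) (nat_lit 9484367) (nat_lit 0x1ffa6492a) (nat_lit 278638273),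
  Rx.mk (nat_lit 420) (nat_lit 4) (nat_lit 4) (nat_lit 6) (nat_lit 4) (nat_lit 147) (nat_lit 3) r2_147 r9_3 (nat_lit 6742841) (nat_lit 5340229) (nat_lit 0) (nat_lit 0x1987979e8) (nat_lit 390624176),
  Rx.mk (nat_lit 422) (nat_lit 6) (nat_lit 4) (nat_lit 6) (nat_lit 5) (nat_lit 148) (nat_lit 4) r2_148 r9_4 (nat_lit 0) (nat_lit 9153645) (nat_lit 0) (nat_lit 0x1fd8eb97e) (nat_lit 280493701),
  Rx.mk (nat_lit 438) (nat_lit 6) (nat_lit 6) (nat_lit 6) (nat_lit 7) (nat_lit 149) (nat_lit 13) r2_149 r9_13 (nat_lit 0) (nat_lit 0) (nat_lit 0) (nat_lit 0x20056d4f2) (nat_lit 268435456),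
  Rx.mk (nat_lit 444) (nat_lit 4) (nat_lit 7) (nat_lit 6) (nat_lit 6) (nat_lit 154) (nat_lit 8) r2_154 r9_8 (nat_lit 9484367) (nat_lit 0) (nat_lit 0) (nat_lit 0x1ffb7a0b2) (nat_lit 278567023),
  Rx.mk (nat_lit 446) (nat_lit 6) (nat_lit 7) (nat_lit 6) (nat_lit 7) (nat_lit 155) (nat_lit 10) r2_155 r9_10 (nat_lit 0) (nat_lit 0) (nat_lit 0) (nat_lit 0x20056d4f2) (nat_lit 268435456),
  Rx.mk (nat_lit 447) (nat_lit 7) (nat_lit 7) (nat_lit 6) (nat_lit 7) (nat_lit 156) (nat_lit 9) r2_156 r9_9 (nat_lit 0) (nat_lit 0) (nat_lit 0) (nat_lit 0x20056d4f2) (nat_lit 268435456),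
  Rx.mk (nat_lit 511) (nat_lit 7) (nat_lit 7) (nat_lit 7) (nat_lit 7) (nat_lit 157) (nat_lit 7) r2_157 r9_7 (nat_lit 0) (nat_lit 0) (nat_lit 0) (nat_lit 0x20056d4f2) (nat_lit 268435456)]
noncomputable def e40_42 : List Rx := [
  Rx.mk (nat_lit 0) (nat_lit 0) (nat_lit 0) (nat_lit 0) (nat_lit 0) (nat_lit 170) (nat_lit 2) r2_170 r9_2 (nat_lit 2695517) (nat_lit 2176186) (nat_lit 2535298) (nat_lit 0xe64a0292) (nat_lit 575129957),
  Rx.mk (nat_lit 16) (nat_lit 0) (nat_lit 2) (nat_lit 0) (nat_lit 2) (nat_lit 173) (nat_lit 3) r2_173 r9_3 (nat_lit 6742841) (nat_lit 0) (nat_lit 5340229) (nat_lit 0x1987979e8) (nat_lit 390624176),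
  Rx.mk (nat_lit 18) (nat_lit 2) (nat_lit 2) (nat_lit 0) (nat_lit 3) (nat_lit 174) (nat_lit 4) r2_174 r9_4 (nat_lit 0) (nat_lit 0) (nat_lit 9153645) (nat_lit 0x1fd8eb97e) (nat_lit 280493701),
  Rx.mk (nat_lit 146) (nat_lit 2) (nat_lit 2) (nat_lit 2) (nat_lit 7) (nat_lit 175) (nat_lit 13) r2_175 r9_13 (nat_lit 0) (nat_lit 0) (nat_lit 0) (nat_lit 0x20056d4f2) (nat_lit 268435456),
  Rx.mk (nat_lit 178) (nat_lit 2) (nat_lit 6) (nat_lit 2) (nat_lit 7) (nat_lit 169) (nat_lit 12) r2_169 r9_12 (nat_lit 0) (nat_lit 0) (nat_lit 0) (nat_lit 0x20056d4f2) (nat_lit 268435456),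
  Rx.mk (nat_lit 182) (nat_lit 6) (nat_lit 6) (nat_lit 2) (nat_lit 7) (nat_lit 168) (nat_lit 11) r2_168 r9_11 (nat_lit 0) (nat_lit 0) (nat_lit 0) (nat_lit 0x20056d4f2) (nat_lit 268435456),
  Rx.mk (nat_lit 192) (nat_lit 0) (nat_lit 0) (nat_lit 3) (nat_lit 4) (nat_lit 171) (nat_lit 5) r2_171 r9_5 (nat_lit 11047932) (nat_lit 6805698) (nat_lit 0) (nat_lit 0x18db5b1b6) (nat_lit 407826486),
  Rx.mk (nat_lit 195) (nat_lit 3) (nat_lit 0) (nat_lit 3) (nat_lit 5) (nat_lit 172) (nat_lit 6) r2_172 r9_6 (nat_lit 0) (nat_lit 9484367) (nat_lit 0) (nat_lit 0x1ffa6492a) (nat_lit 278638273),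
  Rx.mk (nat_lit 208) (nat_lit 0) (nat_lit 2) (nat_lit 3) (nat_lit 6) (nat_lit 176) (nat_lit 8) r2_176 r9_8 (nat_lit 9484367) (nat_lit 0) (nat_lit 0) (nat_lit 0x1ffb7a0b2) (nat_lit 278567023),
  Rx.mk (nat_lit 210) (nat_lit 2) (nat_lit 2) (nat_lit 3) (nat_lit 7) (nat_lit 177) (nat_lit 10) r2_177 r9_10 (nat_lit 0) (nat_lit 0) (nat_lit 0) (nat_lit 0x20056d4f2) (nat_lit 268435456),
  Rx.mk (nat_lit 211) (nat_lit 3) (nat_lit 2) (nat_lit 3) (nat_lit 7) (nat_lit 178) (nat_lit 9) r2_178 r9_9 (nat_lit 0) (nat_lit 0) (nat_lit 0) (nat_lit 0x20056d4f2) (nat_lit 268435456),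
  Rx.mk (nat_lit 219) (nat_lit 3) (nat_lit 3) (nat_lit 3) (nat_lit 7) (nat_lit 179) (nat_lit 7) r2_179 r9_7 (nat_lit 0) (nat_lit 0) (nat_lit 0) (nat_lit 0x20056d4f2) (nat_lit 268435456)]
noncomputable def e40_43 : List Rx := [
  Rx.mk (nat_lit 316) (nat_lit 4) (nat_lit 7) (nat_lit 4) (nat_lit 2) (nat_lit 16) (nat_lit 33) r2_16 r1_33 (nat_lit 4874968) (nat_lit 0) (nat_lit 9879272) (nat_lit 0x1d2b216b0) (nat_lit 331468546),
  Rx.mk (nat_lit 420) (nat_lit 4) (nat_lit 4) (nat_lit 6) (nat_lit 4) (nat_lit 13) (nat_lit 31) r2_13 r1_31 (nat_lit 6163962) (nat_lit 15142004) (nat_lit 0) (nat_lit 0x1d3d18706) (nat_lit 336837272),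
  Rx.mk (nat_lit 422) (nat_lit 6) (nat_lit 4) (nat_lit 6) (nat_lit 5) (nat_lit 14) (nat_lit 32) r2_14 r1_32 (nat_lit 0) (nat_lit 10970796) (nat_lit 0) (nat_lit 0x1fc4dd81a) (nat_lit 283625902),
  Rx.mk (nat_lit 438) (nat_lit 6) (nat_lit 6) (nat_lit 6) (nat_lit 7) (nat_lit 15) (nat_lit 38) r2_15 r1_38 (nat_lit 0) (nat_lit 0) (nat_lit 0) (nat_lit 0x20056d4f2) (nat_lit 268435456),
  Rx.mk (nat_lit 444) (nat_lit 4) (nat_lit 7) (nat_lit 6) (nat_lit 6) (nat_lit 17) (nat_lit 36) r2_17 r1_36 (nat_lit 2049429) (nat_lit 0) (nat_lit 0) (nat_lit 0x23435871e) (nat_lit 217247935),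
  Rx.mk (nat_lit 446) (nat_lit 6) (nat_lit 7) (nat_lit 6) (nat_lit 7) (nat_lit 18) (nat_lit 37) r2_18 r1_37 (nat_lit 0) (nat_lit 0) (nat_lit 0) (nat_lit 0x20d1be4ac) (nat_lit 255245706),
  Rx.mk (nat_lit 479) (nat_lit 7) (nat_lit 3) (nat_lit 7) (nat_lit 7) (nat_lit 21) (nat_lit 30) r2_21 r1_30 (nat_lit 0) (nat_lit 0) (nat_lit 0) (nat_lit 0x20056d4f2) (nat_lit 268435456),
  Rx.mk (nat_lit 508) (nat_lit 4) (nat_lit 7) (nat_lit 7) (nat_lit 6) (nat_lit 19) (nat_lit 34) r2_19 r1_34 (nat_lit 7136584) (nat_lit 0) (nat_lit 0) (nat_lit 0x202b6b672) (nat_lit 273100490),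
  Rx.mk (nat_lit 511) (nat_lit 7) (nat_lit 7) (nat_lit 7) (nat_lit 7) (nat_lit 20) (nat_lit 35) r2_20 r1_35 (nat_lit 0) (nat_lit 0) (nat_lit 0) (nat_lit 0x20056d4f2) (nat_lit 268435456)]
noncomputable def e40_44 : List Rx := [
  Rx.mk (nat_lit 292) (nat_lit 4) (nat_lit 4) (nat_lit 4) (nat_lit 0) (nat_lit 137) (nat_lit 257) r2_137 r8_257 (nat_lit 2244531) (nat_lit 1855565) (nat_lit 2321625) (nat_lit 0xfe82409a) (nat_lit 548419377),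
  Rx.mk (nat_lit 316) (nat_lit 4) (nat_lit 7) (nat_lit 4) (nat_lit 2) (nat_lit 141) (nat_lit 258) r2_141 r8_258 (nat_lit 11911936) (nat_lit 0) (nat_lit 12395174) (nat_lit 0x19af7245e) (nat_lit 400205166),
  Rx.mk (nat_lit 420) (nat_lit 4) (nat_lit 4) (nat_lit 6) (nat_lit 4) (nat_lit 138) (nat_lit 260) r2_138 r8_260 (nat_lit 7301851) (nat_lit 5757461) (nat_lit 0) (nat_lit 0x1a8f639f0) (nat_lit 374092968),
  Rx.mk (nat_lit 422) (nat_lit 6) (nat_lit 4) (nat_lit 6) (nat_lit 5) (nat_lit 139) (nat_lit 263) r2_139 r8_263 (nat_lit 0) (nat_lit 9484367) (nat_lit 0) (nat_lit 0x1fe0c5e6a) (nat_lit 280309623),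
  Rx.mk (nat_lit 438) (nat_lit 6) (nat_lit 6) (nat_lit 6) (nat_lit 7) (nat_lit 140) (nat_lit 265) r2_140 r8_265 (nat_lit 0) (nat_lit 0) (nat_lit 0) (nat_lit 0x20056d4f2) (nat_lit 268435456),
  Rx.mk (nat_lit 444) (nat_lit 4) (nat_lit 7) (nat_lit 6) (nat_lit 6) (nat_lit 142) (nat_lit 261) r2_142 r8_261 (nat_lit 9484367) (nat_lit 0) (nat_lit 0) (nat_lit 0x1fe9dbd10) (nat_lit 279713523),
  Rx.mk (nat_lit 446) (nat_lit 6) (nat_lit 7) (nat_lit 6) (nat_lit 7) (nat_lit 143) (nat_lit 264) r2_143 r8_264 (nat_lit 0) (nat_lit 0) (nat_lit 0) (nat_lit 0x20056d4f2) (nat_lit 268435456),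
  Rx.mk (nat_lit 508) (nat_lit 4) (nat_lit 7) (nat_lit 7) (nat_lit 6) (nat_lit 144) (nat_lit 259) r2_144 r8_259 (nat_lit 9484367) (nat_lit 0) (nat_lit 0) (nat_lit 0x1fc9f84b2) (nat_lit 281792823),
  Rx.mk (nat_lit 511) (nat_lit 7) (nat_lit 7) (nat_lit 7) (nat_lit 7) (nat_lit 145) (nat_lit 262) r2_145 r8_262 (nat_lit 0) (nat_lit 0) (nat_lit 0) (nat_lit 0x20056d4f2) (nat_lit 268435456)]
noncomputable def e40_45 : List Rx := [
  Rx.mk (nat_lit 293) (nat_lit 5) (nat_lit 4) (nat_lit 4) (nat_lit 1) (nat_lit 115) (nat_lit 258) r2_115 r1_258 (nat_lit 0) (nat_lit 11319226) (nat_lit 16672179) (nat_lit 0x180b1dce2) (nat_lit 431779961),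
  Rx.mk (nat_lit 301) (nat_lit 5) (nat_lit 5) (nat_lit 4) (nat_lit 3) (nat_lit 116) (nat_lit 259) r2_116 r1_259 (nat_lit 0) (nat_lit 0) (nat_lit 10097628) (nat_lit 0x1fd30161c) (nat_lit 281824434),
  Rx.mk (nat_lit 317) (nat_lit 5) (nat_lit 7) (nat_lit 4) (nat_lit 3) (nat_lit 117) (nat_lit 260) r2_117 r1_260 (nat_lit 0) (nat_lit 0) (nat_lit 9484367) (nat_lit 0x20056d4f2) (nat_lit 277919823),
  Rx.mk (nat_lit 509) (nat_lit 5) (nat_lit 7) (nat_lit 7) (nat_lit 7) (nat_lit 118) (nat_lit 261) r2_118 r1_261 (nat_lit 0) (nat_lit 0) (nat_lit 0) (nat_lit 0x20056d4f2) (nat_lit 268435456)]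
noncomputable def e40_46 : List Rx := [
  Rx.mk (nat_lit 301) (nat_lit 5) (nat_lit 5) (nat_lit 4) (nat_lit 3) (nat_lit 286) (nat_lit 286) r2_286 r2_286 (nat_lit 0) (nat_lit 0) (nat_lit 9211913) (nat_lit 0x1ffb1784a) (nat_lit 278320069),
  Rx.mk (nat_lit 365) (nat_lit 5) (nat_lit 5) (nat_lit 5) (nat_lit 7) (nat_lit 287) (nat_lit 287) r2_287 r2_287 (nat_lit 0) (nat_lit 0) (nat_lit 0) (nat_lit 0x20056d4f2) (nat_lit 268435456)]
noncomputable def e40_47 : List Rx := [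
  Rx.mk (nat_lit 292) (nat_lit 4) (nat_lit 4) (nat_lit 4) (nat_lit 0) (nat_lit 119) (nat_lit 25) r2_119 r8_25 (nat_lit 1033161) (nat_lit 841530) (nat_lit 3897400) (nat_lit 0x10888ae30) (nat_lit 537090397),
  Rx.mk (nat_lit 293) (nat_lit 5) (nat_lit 4) (nat_lit 4) (nat_lit 1) (nat_lit 120) (nat_lit 26) r2_120 r8_26 (nat_lit 0) (nat_lit 12631128) (nat_lit 13271194) (nat_lit 0x1876a1590) (nat_lit 422557478),
  Rx.mk (nat_lit 300) (nat_lit 4) (nat_lit 5) (nat_lit 4) (nat_lit 2) (nat_lit 124) (nat_lit 30) r2_124 r8_30 (nat_lit 21885715) (nat_lit 0) (nat_lit 18538121) (nat_lit 0x1c0a09d52) (nat_lit 376333842),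
  Rx.mk (nat_lit 301) (nat_lit 5) (nat_lit 5) (nat_lit 4) (nat_lit 3) (nat_lit 125) (nat_lit 31) r2_125 r8_31 (nat_lit 0) (nat_lit 0) (nat_lit 9612199) (nat_lit 0x1ff969f20) (nat_lit 278829255),
  Rx.mk (nat_lit 316) (nat_lit 4) (nat_lit 7) (nat_lit 4) (nat_lit 2) (nat_lit 130) (nat_lit 35) r2_130 r8_35 (nat_lit 5207249) (nat_lit 0) (nat_lit 3475646) (nat_lit 0x1be5c8f88) (nat_lit 346982551),
  Rx.mk (nat_lit 317) (nat_lit 5) (nat_lit 7) (nat_lit 4) (nat_lit 3) (nat_lit 131) (nat_lit 36) r2_131 r8_36 (nat_lit 0) (nat_lit 0) (nat_lit 9484367) (nat_lit 0x20056d4f2) (nat_lit 277919823),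
  Rx.mk (nat_lit 420) (nat_lit 4) (nat_lit 4) (nat_lit 6) (nat_lit 4) (nat_lit 121) (nat_lit 27) r2_121 r8_27 (nat_lit 1132696) (nat_lit 696836) (nat_lit 0) (nat_lit 0x1ab396354) (nat_lit 360394488),
  Rx.mk (nat_lit 421) (nat_lit 5) (nat_lit 4) (nat_lit 6) (nat_lit 5) (nat_lit 122) (nat_lit 28) r2_122 r8_28 (nat_lit 0) (nat_lit 9484367) (nat_lit 0) (nat_lit 0x20056d4f2) (nat_lit 277919823),
  Rx.mk (nat_lit 422) (nat_lit 6) (nat_lit 4) (nat_lit 6) (nat_lit 5) (nat_lit 123) (nat_lit 29) r2_123 r8_29 (nat_lit 0) (nat_lit 9484367) (nat_lit 0) (nat_lit 0x1ffae912a) (nat_lit 278604423),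
  Rx.mk (nat_lit 428) (nat_lit 4) (nat_lit 5) (nat_lit 6) (nat_lit 6) (nat_lit 126) (nat_lit 32) r2_126 r8_32 (nat_lit 5423236) (nat_lit 0) (nat_lit 0) (nat_lit 0x2065e7670) (nat_lit 267606092),
  Rx.mk (nat_lit 429) (nat_lit 5) (nat_lit 5) (nat_lit 6) (nat_lit 7) (nat_lit 127) (nat_lit 33) r2_127 r8_33 (nat_lit 0) (nat_lit 0) (nat_lit 0) (nat_lit 0x20056d4f2) (nat_lit 268435456),
  Rx.mk (nat_lit 430) (nat_lit 6) (nat_lit 5) (nat_lit 6) (nat_lit 7) (nat_lit 128) (nat_lit 34) r2_128 r8_34 (nat_lit 0) (nat_lit 0) (nat_lit 0) (nat_lit 0x20056d4f2) (nat_lit 268435456),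
  Rx.mk (nat_lit 438) (nat_lit 6) (nat_lit 6) (nat_lit 6) (nat_lit 7) (nat_lit 129) (nat_lit 42) r2_129 r8_42 (nat_lit 0) (nat_lit 0) (nat_lit 0) (nat_lit 0x20056d4f2) (nat_lit 268435456),
  Rx.mk (nat_lit 444) (nat_lit 4) (nat_lit 7) (nat_lit 6) (nat_lit 6) (nat_lit 132) (nat_lit 40) r2_132 r8_40 (nat_lit 5423236) (nat_lit 0) (nat_lit 0) (nat_lit 0x2065e7670) (nat_lit 267606092),
  Rx.mk (nat_lit 445) (nat_lit 5) (nat_lit 7) (nat_lit 6) (nat_lit 7) (nat_lit 133) (nat_lit 41) r2_133 r8_41 (nat_lit 0) (nat_lit 0) (nat_lit 0) (nat_lit 0x20056d4f2) (nat_lit 268435456),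
  Rx.mk (nat_lit 508) (nat_lit 4) (nat_lit 7) (nat_lit 7) (nat_lit 6) (nat_lit 134) (nat_lit 37) r2_134 r8_37 (nat_lit 9484367) (nat_lit 0) (nat_lit 0) (nat_lit 0x20056d4f2) (nat_lit 277919823),
  Rx.mk (nat_lit 509) (nat_lit 5) (nat_lit 7) (nat_lit 7) (nat_lit 7) (nat_lit 135) (nat_lit 38) r2_135 r8_38 (nat_lit 0) (nat_lit 0) (nat_lit 0) (nat_lit 0x20056d4f2) (nat_lit 268435456),
  Rx.mk (nat_lit 511) (nat_lit 7) (nat_lit 7) (nat_lit 7) (nat_lit 7) (nat_lit 136) (nat_lit 39) r2_136 r8_39 (nat_lit 0) (nat_lit 0) (nat_lit 0) (nat_lit 0x20056d4f2) (nat_lit 268435456)]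
noncomputable def e40_48 : List Rx := [
  Rx.mk (nat_lit 300) (nat_lit 4) (nat_lit 5) (nat_lit 4) (nat_lit 2) (nat_lit 289) (nat_lit 260) r2_289 r9_260 (nat_lit 14496166) (nat_lit 0) (nat_lit 13222408) (nat_lit 0x197e2b814) (nat_lit 406887580),
  Rx.mk (nat_lit 301) (nat_lit 5) (nat_lit 5) (nat_lit 4) (nat_lit 3) (nat_lit 290) (nat_lit 262) r2_290 r9_262 (nat_lit 0) (nat_lit 0) (nat_lit 9484367) (nat_lit 0x20056d4f2) (nat_lit 277919823),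
  Rx.mk (nat_lit 365) (nat_lit 5) (nat_lit 5) (nat_lit 5) (nat_lit 7) (nat_lit 291) (nat_lit 263) r2_291 r9_263 (nat_lit 0) (nat_lit 0) (nat_lit 0) (nat_lit 0x20056d4f2) (nat_lit 268435456),
  Rx.mk (nat_lit 428) (nat_lit 4) (nat_lit 5) (nat_lit 6) (nat_lit 6) (nat_lit 292) (nat_lit 261) r2_292 r9_261 (nat_lit 9484367) (nat_lit 0) (nat_lit 0) (nat_lit 0x20056d4f2) (nat_lit 277919823),
  Rx.mk (nat_lit 429) (nat_lit 5) (nat_lit 5) (nat_lit 6) (nat_lit 7) (nat_lit 293) (nat_lit 264) r2_293 r9_264 (nat_lit 0) (nat_lit 0) (nat_lit 0) (nat_lit 0x20056d4f2) (nat_lit 268435456),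
  Rx.mk (nat_lit 430) (nat_lit 6) (nat_lit 5) (nat_lit 6) (nat_lit 7) (nat_lit 294) (nat_lit 265) r2_294 r9_265 (nat_lit 0) (nat_lit 0) (nat_lit 0) (nat_lit 0x20056d4f2) (nat_lit 268435456)]
noncomputable def e40_49 : List Rx := [
  Rx.mk (nat_lit 365) (nat_lit 5) (nat_lit 5) (nat_lit 5) (nat_lit 7) (nat_lit 288) (nat_lit 293) r2_288 r9_293 (nat_lit 0) (nat_lit 0) (nat_lit 0) (nat_lit 0x20056d4f2) (nat_lit 268435456)]
noncomputable def e40_50 : List Rx := [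
  Rx.mk (nat_lit 317) (nat_lit 5) (nat_lit 7) (nat_lit 4) (nat_lit 3) (nat_lit 44) (nat_lit 254) r2_44 r3_254 (nat_lit 0) (nat_lit 0) (nat_lit 175017) (nat_lit 0x20b313174) (nat_lit 257181973),
  Rx.mk (nat_lit 477) (nat_lit 5) (nat_lit 3) (nat_lit 7) (nat_lit 7) (nat_lit 46) (nat_lit 256) r2_46 r3_256 (nat_lit 0) (nat_lit 0) (nat_lit 0) (nat_lit 0x22bb0e67e) (nat_lit 223917606),
  Rx.mk (nat_lit 509) (nat_lit 5) (nat_lit 7) (nat_lit 7) (nat_lit 7) (nat_lit 45) (nat_lit 255) r2_45 r3_255 (nat_lit 0) (nat_lit 0) (nat_lit 0) (nat_lit 0x2250293b8) (nat_lit 230736656)]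
noncomputable def e40_51 : List Rx := [
  Rx.mk (nat_lit 317) (nat_lit 5) (nat_lit 7) (nat_lit 4) (nat_lit 3) (nat_lit 158) (nat_lit 271) r2_158 r4_271 (nat_lit 0) (nat_lit 0) (nat_lit 7861388) (nat_lit 0x2023bea32) (nat_lit 274324344),
  Rx.mk (nat_lit 509) (nat_lit 5) (nat_lit 7) (nat_lit 7) (nat_lit 7) (nat_lit 159) (nat_lit 272) r2_159 r4_272 (nat_lit 0) (nat_lit 0) (nat_lit 0) (nat_lit 0x20204deac) (nat_lit 266687006)]
noncomputable def e40_52 : List Rx := [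
  Rx.mk (nat_lit 285) (nat_lit 5) (nat_lit 3) (nat_lit 4) (nat_lit 3) (nat_lit 239) (nat_lit 259) r2_239 r5_259 (nat_lit 0) (nat_lit 0) (nat_lit 10371737) (nat_lit 0x1f40d6a76) (nat_lit 291716043),
  Rx.mk (nat_lit 317) (nat_lit 5) (nat_lit 7) (nat_lit 4) (nat_lit 3) (nat_lit 238) (nat_lit 258) r2_238 r5_258 (nat_lit 0) (nat_lit 0) (nat_lit 10395696) (nat_lit 0x1fae7df52) (nat_lit 284495052),
  Rx.mk (nat_lit 477) (nat_lit 5) (nat_lit 3) (nat_lit 7) (nat_lit 7) (nat_lit 240) (nat_lit 260) r2_240 r5_260 (nat_lit 0) (nat_lit 0) (nat_lit 0) (nat_lit 0x20056d4f2) (nat_lit 268435456)]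
noncomputable def e40_53 : List Rx := [
  Rx.mk (nat_lit 316) (nat_lit 4) (nat_lit 7) (nat_lit 4) (nat_lit 2) (nat_lit 47) (nat_lit 24) r2_47 r4_24 (nat_lit 2600229) (nat_lit 0) (nat_lit 5694526) (nat_lit 0x1c5a2375c) (nat_lit 338859561),
  Rx.mk (nat_lit 317) (nat_lit 5) (nat_lit 7) (nat_lit 4) (nat_lit 3) (nat_lit 48) (nat_lit 25) r2_48 r4_25 (nat_lit 0) (nat_lit 0) (nat_lit 9484367) (nat_lit 0x204074712) (nat_lit 274085323),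
  Rx.mk (nat_lit 444) (nat_lit 4) (nat_lit 7) (nat_lit 6) (nat_lit 6) (nat_lit 49) (nat_lit 28) r2_49 r4_28 (nat_lit 1053683) (nat_lit 0) (nat_lit 0) (nat_lit 0x1f8ecabd8) (nat_lit 277184439),
  Rx.mk (nat_lit 445) (nat_lit 5) (nat_lit 7) (nat_lit 6) (nat_lit 7) (nat_lit 50) (nat_lit 29) r2_50 r4_29 (nat_lit 0) (nat_lit 0) (nat_lit 0) (nat_lit 0x22d7cf9de) (nat_lit 222080006),
  Rx.mk (nat_lit 446) (nat_lit 6) (nat_lit 7) (nat_lit 6) (nat_lit 7) (nat_lit 51) (nat_lit 30) r2_51 r4_30 (nat_lit 0) (nat_lit 0) (nat_lit 0) (nat_lit 0x22c726c72) (nat_lit 223145856),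
  Rx.mk (nat_lit 476) (nat_lit 4) (nat_lit 3) (nat_lit 7) (nat_lit 6) (nat_lit 54) (nat_lit 21) r2_54 r4_21 (nat_lit 5443682) (nat_lit 0) (nat_lit 0) (nat_lit 0x2062342a8) (nat_lit 267864038),
  Rx.mk (nat_lit 477) (nat_lit 5) (nat_lit 3) (nat_lit 7) (nat_lit 7) (nat_lit 55) (nat_lit 22) r2_55 r4_22 (nat_lit 0) (nat_lit 0) (nat_lit 0) (nat_lit 0x20056d4f2) (nat_lit 268435456),
  Rx.mk (nat_lit 479) (nat_lit 7) (nat_lit 3) (nat_lit 7) (nat_lit 7) (nat_lit 56) (nat_lit 23) r2_56 r4_23 (nat_lit 0) (nat_lit 0) (nat_lit 0) (nat_lit 0x20056d4f2) (nat_lit 268435456),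
  Rx.mk (nat_lit 508) (nat_lit 4) (nat_lit 7) (nat_lit 7) (nat_lit 6) (nat_lit 52) (nat_lit 26) r2_52 r4_26 (nat_lit 4694297) (nat_lit 0) (nat_lit 0) (nat_lit 0x20923b212) (nat_lit 264022053),
  Rx.mk (nat_lit 509) (nat_lit 5) (nat_lit 7) (nat_lit 7) (nat_lit 7) (nat_lit 53) (nat_lit 27) r2_53 r4_27 (nat_lit 0) (nat_lit 0) (nat_lit 0) (nat_lit 0x20056d4f2) (nat_lit 268435456)]
noncomputable def e40_54 : List Rx := [
  Rx.mk (nat_lit 316) (nat_lit 4) (nat_lit 7) (nat_lit 4) (nat_lit 2) (nat_lit 160) (nat_lit 292) r2_160 r10_292 (nat_lit 2365106) (nat_lit 0) (nat_lit 2754889) (nat_lit 0x1b79e19f0) (nat_lit 350541501),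
  Rx.mk (nat_lit 317) (nat_lit 5) (nat_lit 7) (nat_lit 4) (nat_lit 3) (nat_lit 161) (nat_lit 295) r2_161 r10_295 (nat_lit 0) (nat_lit 0) (nat_lit 9805262) (nat_lit 0x1febed6b2) (nat_lit 279901468),
  Rx.mk (nat_lit 444) (nat_lit 4) (nat_lit 7) (nat_lit 6) (nat_lit 6) (nat_lit 162) (nat_lit 294) r2_162 r10_294 (nat_lit 5285914) (nat_lit 0) (nat_lit 0) (nat_lit 0x2073a5046) (nat_lit 266585770),
  Rx.mk (nat_lit 445) (nat_lit 5) (nat_lit 7) (nat_lit 6) (nat_lit 7) (nat_lit 163) (nat_lit 297) r2_163 r10_297 (nat_lit 0) (nat_lit 0) (nat_lit 0) (nat_lit 0x20056d4f2) (nat_lit 268435456),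
  Rx.mk (nat_lit 446) (nat_lit 6) (nat_lit 7) (nat_lit 6) (nat_lit 7) (nat_lit 164) (nat_lit 298) r2_164 r10_298 (nat_lit 0) (nat_lit 0) (nat_lit 0) (nat_lit 0x20056d4f2) (nat_lit 268435456),
  Rx.mk (nat_lit 508) (nat_lit 4) (nat_lit 7) (nat_lit 7) (nat_lit 6) (nat_lit 165) (nat_lit 293) r2_165 r10_293 (nat_lit 9484367) (nat_lit 0) (nat_lit 0) (nat_lit 0x1ff9e8172) (nat_lit 278669773),
  Rx.mk (nat_lit 509) (nat_lit 5) (nat_lit 7) (nat_lit 7) (nat_lit 7) (nat_lit 166) (nat_lit 296) r2_166 r10_296 (nat_lit 0) (nat_lit 0) (nat_lit 0) (nat_lit 0x20056d4f2) (nat_lit 268435456)]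
noncomputable def e40_55 : List Rx := [
  Rx.mk (nat_lit 284) (nat_lit 4) (nat_lit 3) (nat_lit 4) (nat_lit 2) (nat_lit 246) (nat_lit 309) r2_246 r11_309 (nat_lit 7328392) (nat_lit 0) (nat_lit 11141639) (nat_lit 0x1f3e92486) (nat_lit 299967187),
  Rx.mk (nat_lit 285) (nat_lit 5) (nat_lit 3) (nat_lit 4) (nat_lit 3) (nat_lit 247) (nat_lit 313) r2_247 r11_313 (nat_lit 0) (nat_lit 0) (nat_lit 10365969) (nat_lit 0x1fcd1cb8e) (nat_lit 282479375),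
  Rx.mk (nat_lit 316) (nat_lit 4) (nat_lit 7) (nat_lit 4) (nat_lit 2) (nat_lit 241) (nat_lit 308) r2_241 r11_308 (nat_lit 9568563) (nat_lit 0) (nat_lit 16435647) (nat_lit 0x1e5cbb72e) (nat_lit 322466716),
  Rx.mk (nat_lit 317) (nat_lit 5) (nat_lit 7) (nat_lit 4) (nat_lit 3) (nat_lit 242) (nat_lit 312) r2_242 r11_312 (nat_lit 0) (nat_lit 0) (nat_lit 10344080) (nat_lit 0x1fce72452) (nat_lit 282369936),
  Rx.mk (nat_lit 444) (nat_lit 4) (nat_lit 7) (nat_lit 6) (nat_lit 6) (nat_lit 243) (nat_lit 311) r2_243 r11_311 (nat_lit 2751488) (nat_lit 0) (nat_lit 0) (nat_lit 0x237226474) (nat_lit 214959644),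
  Rx.mk (nat_lit 445) (nat_lit 5) (nat_lit 7) (nat_lit 6) (nat_lit 7) (nat_lit 244) (nat_lit 315) r2_244 r11_315 (nat_lit 0) (nat_lit 0) (nat_lit 0) (nat_lit 0x20a79a9be) (nat_lit 257955956),
  Rx.mk (nat_lit 446) (nat_lit 6) (nat_lit 7) (nat_lit 6) (nat_lit 7) (nat_lit 245) (nat_lit 317) r2_245 r11_317 (nat_lit 0) (nat_lit 0) (nat_lit 0) (nat_lit 0x20929fe6a) (nat_lit 259304406),
  Rx.mk (nat_lit 476) (nat_lit 4) (nat_lit 3) (nat_lit 7) (nat_lit 6) (nat_lit 248) (nat_lit 310) r2_248 r11_310 (nat_lit 9484367) (nat_lit 0) (nat_lit 0) (nat_lit 0x20056d4f2) (nat_lit 277919823),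
  Rx.mk (nat_lit 477) (nat_lit 5) (nat_lit 3) (nat_lit 7) (nat_lit 7) (nat_lit 249) (nat_lit 314) r2_249 r11_314 (nat_lit 0) (nat_lit 0) (nat_lit 0) (nat_lit 0x20056d4f2) (nat_lit 268435456),
  Rx.mk (nat_lit 479) (nat_lit 7) (nat_lit 3) (nat_lit 7) (nat_lit 7) (nat_lit 250) (nat_lit 316) r2_250 r11_316 (nat_lit 0) (nat_lit 0) (nat_lit 0) (nat_lit 0x20056d4f2) (nat_lit 268435456)]
noncomputable def e40_56 : List Rx := [
  Rx.mk (nat_lit 477) (nat_lit 5) (nat_lit 3) (nat_lit 7) (nat_lit 7) (nat_lit 58) (nat_lit 14) r2_58 r5_14 (nat_lit 0) (nat_lit 0) (nat_lit 0) (nat_lit 0x20056d4f2) (nat_lit 268435456),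
  Rx.mk (nat_lit 509) (nat_lit 5) (nat_lit 7) (nat_lit 7) (nat_lit 7) (nat_lit 57) (nat_lit 15) r2_57 r5_15 (nat_lit 0) (nat_lit 0) (nat_lit 0) (nat_lit 0x20716b122) (nat_lit 261438406)]
noncomputable def e40_57 : List Rx := [
  Rx.mk (nat_lit 509) (nat_lit 5) (nat_lit 7) (nat_lit 7) (nat_lit 7) (nat_lit 167) (nat_lit 5) r2_167 r11_5 (nat_lit 0) (nat_lit 0) (nat_lit 0) (nat_lit 0x20056d4f2) (nat_lit 268435456)]
noncomputable def e40 : List (List Rx) := [e40_0, e40_1, e40_2, e40_3, e40_4, e40_5, e40_6, e40_7, e40_8, e40_9, e40_10, e40_11, e40_12, e40_13, e40_14, e40_15, e40_16, e40_17, e40_18, e40_19, e40_20, e40_21, e40_22, e40_23, e40_24, e40_25, e40_26, e40_27, e40_28, e40_29, e40_30, e40_31, e40_32, e40_33, e40_34, e40_35, e40_36, e40_37, e40_38, e40_39, e40_40, e40_41, e40_42, e40_43, e40_44, e40_45, e40_46, e40_47, e40_48, e40_49, e40_50, e40_51,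 e40_52, e40_53, e40_54, e40_55, e40_56, e40_57]

end Pool.Agent.AKXS_36_42_VA
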